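import Pool.Agent.GMH.PayP4
import Pool.Agent.GMH.PayI

/-!
# GMH/PayP5 (helper75): PUBLIC COVERS BY OWN ROWS, mixed points

* `sp_iff`, `sp_mx` : the support; `ZF_of` : what the tested top and its lower letters see; `Clq_Cls`, `Clq_up` : classes;
* `eT_nn`, `eT_sgt` : the state of the tables of a start; `Lf_ed` : a public life = start, end `ed`, tables `eT`;
* `sec_mx` : the section of a row = event of the mixed point; `sec_own` : section and test of a row in terms of `Own`;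
* `Rw` : rows of all worlds; `rw_smp` : the samples are rows.
-/

set_option autoImplicit false
set_option linter.unusedSectionVars false

namespace Pool.Agent.GMH.PayP

open Finset Pool.Agent.PWZ Pool.Agent.M3 Pool.Agent.GM Pool.Agent.GM.Harm Pool.Agent.GMH Pool.Agent.GMH.PayM
open Pool.Agent.GMH.PayS Pool.Agent.GMH.PayQ
open Pool.Agent.GMH.V3 Pool.Agent.GMH.V3.TG
open Pool.Agent.GMH.TP (FQ ZbQ ZQ NPq SL)
open Pool.Agent.GMH.Gdy Pool.Agent.GMH.Dy Pool.Agent.GMH.TabF Pool.Agent.GMH.TabZ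
open Pool.Agent.GMH.CK Pool.Agent.GMH.MV Pool.Agent.GMH.MVI Pool.Agent.GMH.GhoZ Pool.Agent.GMH.GhoZ3
open Pool.Agent.GMH.GdyN (dl)
open Pool.Agent.GMH.UV (US Seen)
open Pool.Agent.GMH.PayI (up sgt_up bk_pt ex_pt)

noncomputable section

variable {X β γ φ : Type} [Fintype X] [Fintype β] [Fintype φ] [Nonempty X] [Nonempty β]
variable {D : HD (Fin 3) X β γ φ} {al : ℝ} {h : D.Thick al}
variable {v : ℕ → Finset (Fin 3) → X → (Fin 3 → β) → Pt (Fin 3) X β φ}
variable {prr : ℕ → Fin 3 → φ → φ} {T : ℕ} {W : Type} [Fintype W] {tb : Tab D prr T W}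
variable {M : US (Om W X β)} {i u1 u2 : Fin 3}

/-! ### the support -/

theorem sp_iff (tb : Tab D prr T W) (w : Om W X β) : tb.Ps.p w ≠ 0 ↔ ∀ j, (tb.Q j).p (w.2.1 j) ≠ 0 := by
  have h4 : (Fintype.card X : ℝ) ≠ 0 := by exact_mod_cast Fintype.card_ne_zero
  have h5 : (Fintype.card β : ℝ) ≠ 0 := by exact_mod_cast Fintype.card_ne_zero
  show (∏ j, (tb.Q j).p (w.2.1 j)) / (Fintype.card X * (Fintype.card β : ℝ) ^ 3) ≠ 0 ↔ _
  rw [div_ne_zero_iff, Finset.prod_ne_zero_iff]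
  exact ⟨fun hh j => hh.1 j (mem_univ j), fun hh => ⟨fun j _ => hh j, mul_ne_zero h4 (pow_ne_zero _ h5)⟩⟩

theorem sp_mx {G S : Finset (Fin 3)} {a w : Om W X β} (ha : ∀ j ∈ S, (tb.Q j).p (a.2.1 j) ≠ 0)
    (hw : tb.Ps.p w ≠ 0) : tb.Ps.p (mx G S a w) ≠ 0 := by
  rw [sp_iff] at hw ⊢
  intro j
  show (tb.Q j).p (if j ∈ S then a.2.1 j else w.2.1 j) ≠ 0
  by_cases hj : j ∈ S
  · rw [if_pos hj]
    exact ha j hj
  · rw [if_neg hj]
    exact hw j

theorem sp_up {w1 : Om W X β} (h1 : tb.Ps.p w1 ≠ 0) (p : Pt (Fin 3) X β φ) : tb.Ps.p (up w1 p) ≠ 0 := by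
  rw [sp_iff] at h1 ⊢
  exact h1

/-! ### the mixed point -/

theorem mx_i (hV : V3 i u1 u2) (a w : Om W X β) : (mx {i} {u1, u2} a w).2.1 i = w.2.1 i := by
  show (if i ∈ ({u1, u2} : Finset (Fin 3)) then a.2.1 i else w.2.1 i) = w.2.1 i
  rw [if_neg]
  rw [Finset.mem_insert, Finset.mem_singleton]
  rintro (h1 | h1)
  · exact hV.bc h1
  · exact hV.bd h1

theorem mx_y {a w : Om W X β} {j : Fin 3} (hj : j ≠ i) : (mx {i} {u1, u2} a w).2.2 j = w.2.2 j := by
  show (if j ∈ ({i} : Finset (Fin 3)) then a.2.2 j else w.2.2 j) = w.2.2 j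
  rw [if_neg (fun hh => hj (Finset.mem_singleton.1 hh))]

theorem mx_yi (a w : Om W X β) : (mx {i} {u1, u2} a w).2.2 i = a.2.2 i := if_pos (Finset.mem_singleton_self i)

theorem mx_qb {a w : Om W X β} {m m' : ℕ} (hm : m' ≤ m) (hc : D.qb m (a.2.2 i) = D.qb m (w.2.2 i)) (j : Fin 3) :
    D.qb m' ((mx {i} {u1, u2} a w).2.2 j) = D.qb m' (w.2.2 j) := by
  by_cases hj : j = i
  · rw [hj, mx_yi]
    exact Dy.qb_mono hm hc
  · rw [mx_y hj]

/-- the sight of the mixed point -/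
theorem mx_sgt {a w : Om W X β} {m m' : ℕ} (hm : m' ≤ m) (hc : D.qb m (a.2.2 i) = D.qb m (w.2.2 i)) {E : Finset (Fin 3)}
    (hE : i ∉ E) : sgt D E m' (mx {i} {u1, u2} a w) = sgt D E m' w :=
  sgt_eq.2 ⟨rfl, fun _ hj => mx_y (fun hh => hE (hh ▸ hj)), fun j => mx_qb hm hc j⟩

/-- **what the tested top and its lower letters see** -/
theorem ZF_of (hv : Codes D v) {e m : ℕ} (he : TP.nn e ≤ m) {a b : Om W X β} (h1 : a.1 = b.1)
    (h2 : ∀ j, j ≠ i → a.2.2 j = b.2.2 j) (h3 : ∀ j, D.qb m (a.2.2 j) = D.qb m (b.2.2 j)) (h4 : a.2.1 i = b.2.1 i) :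
    (FQ v (e / 5) i (tb.pt (e / 5) a), ZbQ D v e i (tb.pt (e / 5) a)) =
      (FQ v (e / 5) i (tb.pt (e / 5) b), ZbQ D v e i (tb.pt (e / 5) b)) := by
  have hq : ∀ m' ≤ m, ∀ j, D.qb m' (a.2.2 j) = D.qb m' (b.2.2 j) := fun m' hm' j => Dy.qb_mono hm' (h3 j)
  have h5 : e / 5 ≤ m := (TP.nn_le e).trans he
  have hcard : ∀ l : Fin 3, ((univ : Finset (Fin 3)).erase l).card = 2 := by decide
  refine Prod.ext ?_ ?_
  · show LL (Um v (e / 5 + 1)) (univ.erase i) (tb.pt (e / 5) a) = LL (Um v (e / 5 + 1)) (univ.erase i) (tb.pt (e / 5) b)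
    rw [LL_eq]
    constructor
    · show Um v (e / 5 + 1) (univ.erase i) a.1 a.2.2 = Um v (e / 5 + 1) (univ.erase i) b.1 b.2.2
      rw [Um_iff, h1]
      intro r hr
      exact hv r _ b.1 a.2.2 b.2.2 (fun j hj => h2 j (Finset.ne_of_mem_erase hj)) fun j => hq r (by omega) j
    · intro l hl
      have hli : l = i := by
        by_contra hne
        have h6 : i ∈ (univ : Finset (Fin 3)).erase l := Finset.mem_erase.2 ⟨fun hh => hne hh.symm, mem_univ i⟩
        rw [hl] at h6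
        exact (Finset.mem_erase.1 h6).1 rfl
      subst hli
      show tb.lab (e / 5) l (a.2.1 l) a.1 a.2.2 = tb.lab (e / 5) l (b.2.1 l) b.1 b.2.2
      rw [h1, h4]
      exact tb.dep _ _ _ _ _ _ (fun j hj => h2 j hj) (hq _ h5 l)
  · show (lo (SL v e) (univ.erase i) (tb.pt (e / 5) a), BB D (TP.nn e) (univ.erase i) (tb.pt (e / 5) a)) =
      (lo (SL v e) (univ.erase i) (tb.pt (e / 5) b), BB D (TP.nn e) (univ.erase i) (tb.pt (e / 5) b))
    refine Prod.ext ?_ ?_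
    · show lo (SL v e) (univ.erase i) (tb.pt (e / 5) a) = lo (SL v e) (univ.erase i) (tb.pt (e / 5) b)
      rw [lo_eq]
      intro I hI
      show LL (Um v (TP.nc e I)) I (tb.pt (e / 5) a) = LL (Um v (TP.nc e I)) I (tb.pt (e / 5) b)
      rw [LL_eq]
      constructor
      · show Um v (TP.nc e I) I a.1 a.2.2 = Um v (TP.nc e I) I b.1 b.2.2
        rw [Um_iff, h1]
        intro r hr
        have h6 := TP.nc_le e I
        exact hv r _ b.1 a.2.2 b.2.2 (fun j hj => h2 j (Finset.ne_of_mem_erase (hI.subset hj))) fun j => hq r (by omega) j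
      · intro l hl
        exfalso
        have h6 := Finset.card_lt_card hI
        rw [← hl, hcard, hcard] at h6
        exact lt_irrefl _ h6
    · show BB D (TP.nn e) (univ.erase i) (tb.pt (e / 5) a) = BB D (TP.nn e) (univ.erase i) (tb.pt (e / 5) b)
      rw [BB_eq]
      refine ⟨fun j hj => h2 j (Finset.ne_of_mem_erase hj), ?_, fun j => hq _ he j⟩
      show D.qa (TP.nn e) a.1 = D.qa (TP.nn e) b.1
      rw [h1]

/-! ### classes -/

theorem card2 (l : Fin 3) : ((univ : Finset (Fin 3)).erase l).card = 2 := by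
  revert l
  decide

/-- the class of the level sees the class of the state -/
theorem Clq_Cls {t e : ℕ} (he : TP.nn e ≤ t) {K : Finset (Fin 3)} : Fac (Cls D v t K) (Clq (φ := φ) D v e K) := by
  intro a b hab
  have h1 := Prod.mk.inj (show (le (LL (Um v (t + 1))) K a, BB D t K a) = (le (LL (Um v (t + 1))) K b, BB D t K b) from hab)
  refine Prod.ext ?_ (TP.BB_mono' he K a b h1.2)
  show le (SL v e) K a = le (SL v e) K b
  rw [le_eq]
  intro I hI
  have h2 := le_eq.1 h1.1 I hI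
  show LL (Um v (TP.nc e I)) I a = LL (Um v (TP.nc e I)) I b
  rw [LL_eq] at h2 ⊢
  exact ⟨PayI.Um_le ((TP.nc_le e I).trans (by omega)) h2.1, h2.2⟩

/-- thin classes do not see the labels -/
theorem Clq_lab {e : ℕ} {K : Finset (Fin 3)} (hK : K.card ≤ 1) {a b : Pt (Fin 3) X β φ} (h1 : a.1 = b.1)
    (h2 : a.2.1 = b.2.1) : Clq D v e K a = Clq D v e K b := by
  refine Prod.ext ?_ ?_
  · show le (SL v e) K a = le (SL v e) K b
    rw [le_eq]
    intro I hI
    show LL (Um v (TP.nc e I)) I a = LL (Um v (TP.nc e I)) I b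
    rw [LL_eq, h1, h2]
    refine ⟨rfl, fun l hl => ?_⟩
    exfalso
    have h6 := Finset.card_le_card hI
    rw [← hl, card2] at h6
    omega
  · show BB D (TP.nn e) K a = BB D (TP.nn e) K b
    rw [BB_eq, h1, h2]
    exact ⟨fun _ _ => rfl, rfl, fun _ => rfl⟩

theorem Clq_up {e : ℕ} {K : Finset (Fin 3)} (hK : K.card ≤ 1) (w1 : Om W X β) (p : Pt (Fin 3) X β φ) :
    Clq D v e K (tb.pt 0 (up w1 p)) = Clq D v e K p := Clq_lab hK rfl rfl

/-- the class of `∅` is seen by the cells -/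
theorem Clq_emp (hv : Codes D v) {e m : ℕ} (he : TP.nn e ≤ m) {a b : Om W X β} (hab : sgt D ∅ m a = sgt D ∅ m b) :
    Clq D v e ∅ (tb.pt 0 a) = Clq D v e ∅ (tb.pt 0 b) := by
  obtain ⟨h1, -, h3⟩ := sgt_eq.1 hab
  refine Prod.ext ?_ ?_
  · show le (SL v e) ∅ (tb.pt 0 a) = le (SL v e) ∅ (tb.pt 0 b)
    rw [le_eq]
    intro I hI
    show LL (Um v (TP.nc e I)) I (tb.pt 0 a) = LL (Um v (TP.nc e I)) I (tb.pt 0 b)
    rw [LL_eq]
    constructor
    · show Um v (TP.nc e I) I a.1 a.2.2 = Um v (TP.nc e I) I b.1 b.2.2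
      rw [Um_iff, h1]
      intro r hr
      have h6 := TP.nc_le e I
      exact hv r _ b.1 a.2.2 b.2.2 (fun j hj => absurd (hI hj) (Finset.notMem_empty j))
        fun j => Dy.qb_mono (by omega) (h3 j)
    · intro l hl
      exfalso
      have h6 := Finset.card_le_card hI
      rw [← hl, card2, Finset.card_empty] at h6
      omega
  · show BB D (TP.nn e) ∅ (tb.pt 0 a) = BB D (TP.nn e) ∅ (tb.pt 0 b)
    rw [BB_eq]
    refine ⟨fun j hj => absurd hj (Finset.notMem_empty j), ?_, fun j => Dy.qb_mono he (h3 j)⟩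
    show D.qa (TP.nn e) a.1 = D.qa (TP.nn e) b.1
    rw [h1]

/-! ### the state of the tables of a start -/

theorem eT_nn (r : ℕ) (w : Om W X β) : TP.nn (eT v tb r w) = TP.nn r := by
  unfold Dy.eT
  split_ifs with h1
  · have h2 := h1.1
    have h3 := TP.nn_add (r / 5) 5 le_rfl
    have h4 := TP.nn_add (r / 5) (r % 5) (Nat.mod_lt r (by norm_num)).le
    rw [Nat.div_add_mod] at h4
    rw [h3, h4]
    unfold TP.nnj
    rw [if_neg (by omega), if_neg (by omega)]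
  · rfl

theorem ltL_sgt (hv : Codes D v) {r : ℕ} {a b : Om W X β} (hab : sgt D ∅ (TP.nn r) a = sgt D ∅ (TP.nn r) b) :
    ltL v tb r a ↔ ltL v tb r b := by
  unfold ltL
  refine and_congr_right fun h2 => ?_
  have h4 := TP.nn_add (r / 5) (r % 5) (Nat.mod_lt r (by norm_num)).le
  rw [Nat.div_add_mod] at h4
  have h5 : TP.nn r = r / 5 + 1 := by
    rw [h4]
    unfold TP.nnj
    rw [if_neg (by omega)]
  have key : ∀ k, 1 ≤ k → k ≤ 5 → NPo tb v (5 * (r / 5) + k) a = NPo tb v (5 * (r / 5) + k) b := by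
    intro k hk1 hk
    have h6 : TP.nn (5 * (r / 5) + k) = r / 5 + 1 := by
      rw [TP.nn_add _ _ hk]
      unfold TP.nnj
      rw [if_neg (by omega)]
    exact MVIp.NPq_sgt tb hv (h6.trans h5.symm).le ((TP.nc_le _ _).trans (by rw [h6, h5])) ∅ 0 a b hab
  have m1 : ∀ k, 1 ≤ k → k ≤ 5 → tb.Ps.m (NPo tb v (5 * (r / 5) + k)) a = tb.Ps.m (NPo tb v (5 * (r / 5) + k)) b := by
    intro k hk1 hk
    unfold FP.m
    rw [key k hk1 hk]
  rw [m1 1 le_rfl (by norm_num), m1 2 (by norm_num) (by norm_num)]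

theorem eT_sgt (hv : Codes D v) {r : ℕ} {a b : Om W X β} (hab : sgt D ∅ (TP.nn r) a = sgt D ∅ (TP.nn r) b) :
    eT v tb r a = eT v tb r b := by
  have h1 := ltL_sgt (tb := tb) hv hab
  unfold Dy.eT
  by_cases h2 : ltL v tb r a
  · rw [if_pos h2, if_pos (h1.1 h2)]
  · rw [if_neg h2, if_neg fun hh => h2 (h1.2 hh)]

theorem eT_etl (r : ℕ) (w : Om W X β) : eT v tb r w = etl (ltL v tb) r w := rfl

theorem eT_lt {r : ℕ} (hr : r < 5 * T) (w : Om W X β) : eT v tb r w < 5 * T + 1 := by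
  unfold Dy.eT
  split_ifs <;> omega

/-! ### public lives -/

variable (M T) in
/-- a public start, or the end of the run -/
def enO (q : ℕ) (w : Om W X β) : Prop := MV.nu M.toMS q w = q ∨ 5 * T ≤ q

theorem nu_or' (s : ℕ) (w : Om W X β) :
    MV.nu M.toMS (s + 1) w = s + 1 ∨ MV.nu M.toMS (s + 1) w = MV.nu M.toMS s w := stg_or s w

/-- **a public life** -/
theorem Lf_ed {tl : ℕ → Om W X β → Prop} {r e s : ℕ} (hr : r < 5 * T) (w : Om W X β) :
    Lf (enO T M) tl r e s w ↔ (MV.nu M.toMS r w = r ∧ ed M.toMS (5 * T) r w = s ∧ e = etl tl r w) := by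
  constructor
  · rintro ⟨h1, h2, h3, h4, h5⟩
    have h6 : MV.nu M.toMS r w = r := h2.resolve_right (by omega)
    refine ⟨h6, le_antisymm ?_ ?_, h5⟩
    · refine ed_le_of h1.le ?_
      rcases h4 with h4 | h4
      · exact Or.inr (by rw [h4]; omega)
      · exact Or.inl h4
    · by_contra h7
      have h8 := not_le.1 h7
      have h9 : r < ed M.toMS (5 * T) r w := ed_gt hr h6
      have h10 := h3 _ h9 h8
      unfold enO at h10
      push Not at h10
      have h11 : MV.nu M.toMS (ed M.toMS (5 * T) r w) w ≠ r :=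
        (ed_spec (M := M.toMS) (Ts := 5 * T) (n := r) w).resolve_left (by omega)
      obtain ⟨q, hq⟩ : ∃ q, ed M.toMS (5 * T) r w = q + 1 := ⟨ed M.toMS (5 * T) r w - 1, by omega⟩
      have h12 := (ed_mid (M := M.toMS) (Ts := 5 * T) (n := r) (w := w) (r := q) (by omega) (by omega)).2
      rcases nu_or' (M := M) q w with h13 | h13
      · exact h10.1 (by rw [hq]; exact h13)
      · exact h11 (by rw [hq, h13, h12])
  · rintro ⟨h1, h2, h3⟩
    have h4 : r < s := h2 ▸ ed_gt hr h1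
    refine ⟨h4, Or.inl h1, fun q hq1 hq2 => ?_, ?_, h3⟩
    · obtain ⟨h5, h6⟩ := ed_mid (M := M.toMS) (Ts := 5 * T) (n := r) (w := w) hq1.le (by rw [h2]; exact hq2)
      rintro (h7 | h7)
      · omega
      · omega
    · rcases ed_spec (M := M.toMS) (Ts := 5 * T) (n := r) w with h5 | h5
      · exact Or.inr (h2 ▸ h5)
      · refine Or.inl ?_
        rw [h2] at h5
        obtain ⟨q, hq⟩ : ∃ q, s = q + 1 := ⟨s - 1, by omega⟩
        have h12 := (ed_mid (M := M.toMS) (Ts := 5 * T) (n := r) (w := w) (r := q) (by omega) (by omega)).2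
        rcases nu_or' (M := M) q w with h13 | h13
        · rw [hq]
          exact h13
        · exact absurd (by rw [hq, h13, h12]) h5

theorem NPo_le {a b : ℕ} (hab : a ≤ b) : Fac (NPo tb v b) (NPo tb v a) := by
  induction b, hab using Nat.le_induction with
  | base => exact fun _ _ e => e
  | succ b _ ih => exact fun x y e => ih x y (MVI.NPo_fac tb b x y e)

theorem enO_fac (H : Seen M) (hNP : ∀ q w w', NPo tb v q w = NPo tb v q w' → M.NP q w = M.NP q w') (q : ℕ) :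
    Fac (NPo tb v q) (enO T M q) := fun a b hab => by
  unfold enO
  rw [H.nu q a b (hNP q a b hab)]

theorem ltL_NPo (q : ℕ) : Fac (NPo tb v q) (ltL v tb q) := fun a b hab => by
  unfold ltL
  refine propext (and_congr_right fun h2 => ?_)
  have key : ∀ k, k ≤ q % 5 → NPo tb v (5 * (q / 5) + k) a = NPo tb v (5 * (q / 5) + k) b := fun k hk =>
    NPo_le (by omega) a b hab
  have m1 : ∀ k, k ≤ q % 5 → tb.Ps.m (NPo tb v (5 * (q / 5) + k)) a = tb.Ps.m (NPo tb v (5 * (q / 5) + k)) b := by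
    intro k hk
    unfold FP.m
    rw [key k hk]
  rw [m1 1 (by omega), m1 2 h2]

/-- the class of `∅` sees the public information -/
theorem cls_np {s t : ℕ} (hs : s ≤ 5 * t) (w1 : Om W X β) {α : Type*} {g : Om W X β → α} (hg : Fac (NPo tb v s) g) :
    Fac (Cls D v t ∅) (fun p => g (up w1 p)) := by
  intro a b hab
  have h1 := Prod.mk.inj (show (le (LL (Um v (t + 1))) ∅ a, BB D t ∅ a) = (le (LL (Um v (t + 1))) ∅ b, BB D t ∅ b) from hab)
  have h2 := (LL_eq.1 (le_eq.1 h1.1 ∅ (Finset.Subset.refl _))).1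
  have h3 := BB_eq.1 h1.2
  have hn : TP.nn s ≤ t := PayI.nn_le_of hs
  refine hg _ _ ?_
  show (Um v (TP.nc s ∅) ∅ a.1 a.2.1, (D.qa (TP.nn s) a.1, fun k => D.qb (TP.nn s) (a.2.1 k))) =
      (Um v (TP.nc s ∅) ∅ b.1 b.2.1, (D.qa (TP.nn s) b.1, fun k => D.qb (TP.nn s) (b.2.1 k)))
  rw [PayI.Um_le ((TP.nc_le s ∅).trans (by omega)) h2, Pool.Agent.GMH.qa_mono D hn h3.2.1,
    show (fun k => D.qb (TP.nn s) (a.2.1 k)) = fun k => D.qb (TP.nn s) (b.2.1 k) from
      funext fun k => Pool.Agent.GMH.qb_mono D hn (h3.2.2 k)]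

/-- the lower letters see the public information -/
theorem zb_np (hV : V3 i u1 u2) (q : ℕ) (w1 : Om W X β) {α : Type*} {g : Om W X β → α} (hg : Fac (NPo tb v q) g) :
    Fac (ZbQ D v q i) (fun p => g (up w1 p)) :=
  PayI.zb_cn (tb := tb) (j := u1) (fun hh => hV.bc hh.symm) q w1 (fun a b hab => hg a b (Prod.mk.inj hab).2)

/-- the sight sees the public information -/
theorem sgt_np (hv : Codes D v) (s : ℕ) {α : Type*} {g : Om W X β → α} (hg : Fac (NPo tb v s) g) :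
    Fac (sgt (W := W) D ∅ (TP.nn s)) g := (MVIp.NPq_sgt tb hv le_rfl (TP.nc_le s ∅) ∅ 0).trans hg

/-! ### sections and tests -/

/-- **the section of a row is an event of the mixed point** -/
theorem sec_mx {w0 : Om W X β} (hV : V3 i u1 u2) {A : ℕ → Om W X β → Prop} {s : ℕ} {a w : Om W X β}
    (ha : UU w0 i u1 u2 a = a) (h1 : a.1 = w.1) :
    sec (UU w0 i u1 u2) (VW w0 i u1 u2) A s a w ↔ A s (mx {i} {u1, u2} a w) := by
  constructor
  · rintro ⟨z, hz, hu, hA⟩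
    obtain ⟨a1, a2, a3⟩ := TabF.pj_eq.1 hz
    have hu' : TabF.pj w0 {i} {u1, u2} z = TabF.pj w0 {i} {u1, u2} a := hu.trans ha.symm
    obtain ⟨b1, b2, b3⟩ := TabF.pj_eq.1 hu'
    have e : z = mx {i} {u1, u2} a w := by
      refine Prod.ext a1 (Prod.ext (funext fun j => ?_) (funext fun j => ?_))
      · show z.2.1 j = if j ∈ ({u1, u2} : Finset (Fin 3)) then a.2.1 j else w.2.1 j
        by_cases hj : j ∈ ({u1, u2} : Finset (Fin 3))
        · rw [if_pos hj, b2 j hj]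
        · rw [if_neg hj]
          refine a2 j ?_
          have h2 : j ∈ ({u1, u2} : Finset (Fin 3)) ∪ {i} := hV.dec.2.2.2.1 ▸ mem_univ j
          exact (Finset.mem_union.1 h2).resolve_left hj
      · show z.2.2 j = if j ∈ ({i} : Finset (Fin 3)) then a.2.2 j else w.2.2 j
        by_cases hj : j ∈ ({i} : Finset (Fin 3))
        · rw [if_pos hj, b3 j hj]
        · rw [if_neg hj]
          refine a3 j ?_
          have h2 : j ∈ ({u1, u2} : Finset (Fin 3)) ∪ {i} := hV.dec.2.2.2.1 ▸ mem_univ j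
          exact (Finset.mem_union.1 h2).resolve_right hj
    rw [e] at hA
    exact hA
  · intro hA
    refine ⟨mx {i} {u1, u2} a w, TabF.pj_eq.2 ⟨rfl, fun j hj => ?_, fun j hj => ?_⟩, ?_, hA⟩
    · rw [Finset.mem_singleton.1 hj]
      exact mx_i hV a w
    · refine mx_y fun hh => ?_
      rw [hh, Finset.mem_insert, Finset.mem_singleton] at hj
      rcases hj with hj | hj
      · exact hV.bc hj
      · exact hV.bd hj
    · refine Eq.trans (TabF.pj_eq.2 ⟨h1.symm, fun j hj => if_pos hj, fun j hj => if_pos hj⟩) ha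

variable {A : ℕ → Om W X β → ℕ → Om W X β → Prop} {g : ℕ → Om W X β → ℝ} {C0 C1 C2 : Type} {m0 m1 m2 eps : ℝ} {Nn : ℕ}

/-- **section and test of a row in terms of the data** -/
theorem sec_own (hv : Codes D v) (O : Own h v tb M i u1 u2 A g C0 C1 C2 m0 m1 m2 eps Nn) {w0 : Om W X β}
    (hV : V3 i u1 u2) (hO : OnS M tb TP.nn) (HS : Seen M) {r s : ℕ} (hr : r < 5 * T) (hrs : r ≤ s) {a w : Om W X β}
    (F : Fit tb M i u1 u2 r a w) (ha : UU w0 i u1 u2 a = a) (h1 : a.1 = w.1) :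
    (Hs w0 i u1 u2 (A r w) s a w ↔ O.Th r (eT v tb r w) s (O.b0 r s (mx {i} {u1, u2} a w))
      (O.b1 r s (mx {i} {u1, u2} a w)) (O.b2 r s (mx {i} {u1, u2} a w)) (tb.pt (eT v tb r w / 5) w)) ∧
    (Hs w0 i u1 u2 (A r w) s a w → ts {i} {u1, u2} (g r) a w = O.Ga r (eT v tb r w) s
      (O.b0 r s (mx {i} {u1, u2} a w)) (O.b1 r s (mx {i} {u1, u2} a w)) (O.b2 r s (mx {i} {u1, u2} a w))
      (tb.pt (eT v tb r w / 5) w)) := by
  set w' := mx {i} {u1, u2} a w with hw'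
  have e0 : sgt D ∅ (TP.nn r) w' = sgt D ∅ (TP.nn r) w := mx_sgt le_rfl F.ce (Finset.notMem_empty i)
  have e1 : A r w' = A r w := O.Aw r w' w e0
  have e2 : MV.nu M.toMS r w' = r := (nu_sgt hO HS le_rfl e0).trans F.nu
  have e3 : eT v tb r w' = eT v tb r w := eT_sgt hv e0
  have e4 := ZF_of (v := v) (tb := tb) (i := i) hv (e := eT v tb r w) (m := TP.nn r) (eT_nn r w).le (a := w') (b := w)
    rfl (fun j hj => mx_y hj) (fun j => mx_qb le_rfl F.ce j) (mx_i hV a w)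
  have e5 := sec_mx (w0 := w0) hV (A := A r w) (s := s) ha h1
  rw [← hw'] at e5
  have e6 := O.iA r hr s w' hrs F.sm e2
  have e7 := O.ig r hr s w' hrs F.sm e2
  rw [e1, e3] at e6 e7
  have e8 := O.ft r (eT v tb r w) s (O.b0 r s w') (O.b1 r s w') (O.b2 r s w') _ _ e4
  have e9 := O.fg r (eT v tb r w) s (O.b0 r s w') (O.b1 r s w') (O.b2 r s w') _ _ e4
  rw [e8] at e6
  refine ⟨e5.trans e6, fun hh => ?_⟩
  exact (e7 (e5.1 hh)).trans e9

/-! ### rows of all worlds -/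

variable (tb M) in
/-- rows of all worlds -/
structure Rw (w0 : Om W X β) (i u1 u2 : Fin 3) {N : ℕ} (x : ℕ → Om W X β → Fin N → Om W X β) : Prop where
  c : ∀ r z z', sgt D ∅ (TP.nn r) z = sgt D ∅ (TP.nn r) z' → x r z = x r z'
  u : ∀ r z j, UU w0 i u1 u2 (x r z j) = x r z j
  h1 : ∀ r z j, (x r z j).1 = z.1
  h2 : ∀ r z z' j, D.qb (TP.nn r) (z.2.2 i) = D.qb (TP.nn r) (z'.2.2 i) → (x r z j).2 = (x r z' j).2
  fit : ∀ r < 5 * T, ∀ z j, tb.Ps.p z ≠ 0 → MV.nu M.toMS r z = r → Fit tb M i u1 u2 r (x r z j) z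

theorem qF_supp {P : FP (Om W X β)} {w0 : Om W X β} {G S : Finset (Fin 3)} {a : Om W X β}
    (ha : (TabZ.qF P w0 G S).p a ≠ 0) : ∃ w, P.p w ≠ 0 ∧ TabF.pj w0 G S w = a := by
  by_contra hcon
  push Not at hcon
  refine ha ?_
  show P.Pr (fun w => TabF.pj w0 G S w = a) = 0
  unfold FP.Pr
  rw [← P.E_const 0]
  exact P.E_congr fun w hw => ind_not (hcon w hw)

/-- **THE SAMPLES ARE ROWS** -/
theorem rw_smp (w0 : Om W X β) {N : ℕ} {θ : Ct W X β (5 * T) N}
    (hθ : (cL tb w0 i {u1, u2} TP.nn (5 * T) N).p θ ≠ 0) : Rw tb M w0 i u1 u2 (smp D w0 i {u1, u2} TP.nn θ) where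
  c r z z' e := smp_sgt w0 i {u1, u2} TP.nn θ r e
  u r z j := by
    show TabF.pj w0 {i} {u1, u2} (hid z.1 (TabF.pj w0 {i} {u1, u2} _)) = hid z.1 (TabF.pj w0 {i} {u1, u2} _)
    have e : ∀ y : Om W X β, TabF.pj w0 {i} {u1, u2} (hid z.1 (TabF.pj w0 {i} {u1, u2} y)) =
        hid z.1 (TabF.pj w0 {i} {u1, u2} (TabF.pj w0 {i} {u1, u2} y)) := fun y => rfl
    rw [e, pj_pj]
  h1 r z j := rfl
  h2 r z z' j e := by
    show (TabF.pj w0 {i} {u1, u2} _).2 = (TabF.pj w0 {i} {u1, u2} _).2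
    rw [rp_cell e]
  fit r hr z j hz hnu := by
    have h1 : (cL tb w0 i {u1, u2} TP.nn (5 * T) N).p θ = ∏ p : Ixc β (5 * T), ∏ j : Fin N,
        (q0 tb w0 i {u1, u2} (TP.nn p.1.1) p.2).p (θ p j) := rfl
    rw [h1] at hθ
    have h2 := Finset.prod_ne_zero_iff.1 hθ (⟨r, hr⟩, rp D (TP.nn r) (z.2.2 i)) (mem_univ _)
    have h3 := Finset.prod_ne_zero_iff.1 h2 j (mem_univ _)
    obtain ⟨w', hw', hw''⟩ := qF_supp h3
    have h4 := (WE_supp tb).1 hw'
    have e1 : smp D w0 i {u1, u2} TP.nn θ r z j = hid z.1 (TabF.pj w0 {i} {u1, u2} w') := by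
      unfold smp
      rw [dif_pos hr, ← hw'', pj_pj]
    have e2 : (TabF.pj w0 {i} {u1, u2} w').2.2 i = w'.2.2 i := if_pos (Finset.mem_singleton_self i)
    have e3 : D.qb (TP.nn r) (w'.2.2 i) = D.qb (TP.nn r) (z.2.2 i) := by
      have h5 := (sgt_eq.1 h4.2).2.2 i
      exact h5.trans (rp_qb (TP.nn r) (z.2.2 i))
    refine ⟨hz, ?_, ?_, hnu⟩
    · rw [e1]
      refine sp_mx (fun j' hj' => ?_) hz
      show (tb.Q j').p (if j' ∈ ({u1, u2} : Finset (Fin 3)) then w'.2.1 j' else w0.2.1 j') ≠ 0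
      rw [if_pos hj']
      exact (sp_iff tb w').1 h4.1 j'
    · rw [e1]
      show D.qb (TP.nn r) ((TabF.pj w0 {i} {u1, u2} w').2.2 i) = _
      rw [e2, e3]

end

end Pool.Agent.GMH.PayP
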