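import Pool.Agent.GMH.PayP5

/-!
# GMH/PayP6 (helper75): PUBLIC COVERS BY OWN ROWS, names and codes

* `Cs`, `strip`, `lst`, `hb`, `tH`, `tG` : codes without levels, positions of a code, hint values at the positions, sections and
  tests out of the hint values;
* `nmr`, `ltr` : names and light dead pieces in the world of the point; `pick` : a code of a list; `code_ok`;
* `nm_ok` : a name of the start `r` at the substep `s` : level between `r` and `s`, its section holds at a point of the cell;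
* `dl_own` : the decision list of the names = the test out of the hint values; `hone_own` : it is normalised.
-/

set_option autoImplicit false
set_option linter.unusedSectionVars false

namespace Pool.Agent.GMH.PayP

open Finset Pool.Agent.PWZ Pool.Agent.M3 Pool.Agent.GM Pool.Agent.GM.Harm Pool.Agent.GMH Pool.Agent.GMH.PayM
open Pool.Agent.GMH.PayS Pool.Agent.GMH.PayQ
open Pool.Agent.GMH.V3 Pool.Agent.GMH.V3.TG
open Pool.Agent.GMH.TP (FQ ZbQ ZQ NPq SL)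
open Pool.Agent.GMH.Gdy Pool.Agent.GMH.Dy Pool.Agent.GMH.TabF Pool.Agent.GMH.TabZ
open Pool.Agent.GMH.CK Pool.Agent.GMH.MV Pool.Agent.GMH.MVI Pool.Agent.GMH.GhoZ Pool.Agent.GMH.GhoZ3
open Pool.Agent.GMH.GdyN (dl dec Cd)
open Pool.Agent.GMH.UV (US Seen)
open Pool.Agent.GMH.PayI (up sgt_up bk_pt ex_pt)

noncomputable section

/-! ### codes -/

section codes

variable {R C0 C1 C2 Ω : Type*} {Ts N Nn : ℕ}

/-- codes without levels -/
abbrev Cs (N Nn : ℕ) : Type := Fin Nn → Option (Fin N × Bool)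

/-- the code without the levels -/
def strip (c : Cd Ts N Nn) : Cs N Nn := fun k => (c k).map fun p => (p.1.2, p.2)

theorem strip_some {c : Cd Ts N Nn} {k : Fin Nn} {p : (Fin Ts × Fin N) × Bool} (hk : c k = some p) :
    strip c k = some (p.1.2, p.2) := by
  unfold strip
  rw [hk]
  rfl

theorem card_Cs (N Nn : ℕ) : Fintype.card (Cs N Nn) = (N * 2 + 1) ^ Nn := by
  rw [Fintype.card_fun, Fintype.card_option, Fintype.card_prod, Fintype.card_fin, Fintype.card_bool, Fintype.card_fin]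

/-- positions and bits of a code -/
def lst (c : Cs N Nn) : List ((ℕ × Fin Nn) × Bool) :=
  (List.finRange Nn).filterMap fun k => (c k).map fun p => ((0, k), p.2)

theorem dec_fin (x : Fin N → R) (c : Cd Ts N Nn) :
    dec x c = (List.finRange Nn).filterMap fun k => (c k).map fun p => (((p.1.1 : ℕ), x p.1.2), p.2) := by
  unfold dec
  rw [List.ofFn_eq_map, List.filterMap_map]
  rfl

theorem dec_len (x : Fin N → R) (c : Cd Ts N Nn) : (dec x c).length ≤ Nn := by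
  rw [dec_fin]
  refine (List.length_filterMap_le _ _).trans ?_
  rw [List.length_finRange]

theorem mem_dec {x : Fin N → R} {c : Cd Ts N Nn} {k : Fin Nn} {p : (Fin Ts × Fin N) × Bool} (hk : c k = some p) :
    (((p.1.1 : ℕ), x p.1.2), p.2) ∈ dec x c := by
  rw [dec_fin, List.mem_filterMap]
  exact ⟨k, List.mem_finRange k, by rw [hk]; rfl⟩

theorem of_mem_dec {x : Fin N → R} {c : Cd Ts N Nn} {q : (ℕ × R) × Bool} (hq : q ∈ dec x c) :
    ∃ k p, c k = some p ∧ q = (((p.1.1 : ℕ), x p.1.2), p.2) := by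
  rw [dec_fin, List.mem_filterMap] at hq
  obtain ⟨k, -, hk⟩ := hq
  rcases hc : c k with _ | p
  · rw [hc] at hk
    exact absurd hk (by simp)
  · rw [hc] at hk
    exact ⟨k, p, hc, (Option.some.inj hk).symm⟩

/-- hint values at the positions of a code -/
def hb {C : Type*} (c : Cd Ts N Nn) (r s : ℕ) (b : ℕ → Fin N → C) (k : Fin Nn) : Option C :=
  (c k).bind fun p => if r ≤ (p.1.1 : ℕ) ∧ (p.1.1 : ℕ) ≤ s then some (b p.1.1 p.1.2) else Option.none

theorem hb_some {C : Type*} {c : Cd Ts N Nn} {r s : ℕ} {b : ℕ → Fin N → C} {k : Fin Nn} {a : C}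
    (hk : hb c r s b k = some a) : ∃ p, c k = some p ∧ (r ≤ (p.1.1 : ℕ) ∧ (p.1.1 : ℕ) ≤ s) ∧ a = b p.1.1 p.1.2 := by
  unfold hb at hk
  rcases hc : c k with _ | p
  · rw [hc] at hk
    exact absurd hk (by simp)
  · rw [hc, Option.bind_some] at hk
    by_cases hp : r ≤ (p.1.1 : ℕ) ∧ (p.1.1 : ℕ) ≤ s
    · rw [if_pos hp] at hk
      exact ⟨p, rfl, hp, (Option.some.inj hk).symm⟩
    · rw [if_neg hp] at hk
      exact absurd hk (by simp)

theorem hb_eq {C : Type*} {c : Cd Ts N Nn} {r s : ℕ} {b : ℕ → Fin N → C} {k : Fin Nn} {p : (Fin Ts × Fin N) × Bool}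
    (hc : c k = some p) (hp : r ≤ (p.1.1 : ℕ) ∧ (p.1.1 : ℕ) ≤ s) : hb c r s b k = some (b p.1.1 p.1.2) := by
  unfold hb
  rw [hc, Option.bind_some, if_pos hp]

theorem hb_congr {C : Type*} {c : Cd Ts N Nn} {r s : ℕ} {b b' : ℕ → Fin N → C}
    (h : ∀ t j, r ≤ t → t ≤ s → b t j = b' t j) : hb c r s b = hb c r s b' := by
  funext k
  unfold hb
  congr 1
  funext p
  by_cases hp : r ≤ (p.1.1 : ℕ) ∧ (p.1.1 : ℕ) ≤ s
  · rw [if_pos hp, if_pos hp, h _ _ hp.1 hp.2]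
  · rw [if_neg hp, if_neg hp]

/-- sections out of the hint values -/
def tH (Th : ℕ → C0 → C1 → C2 → Ω → Prop) (a0 : Fin Nn → Option C0) (a1 : Fin Nn → Option C1) (a2 : Fin Nn → Option C2)
    (t : ℕ) (k : Fin Nn) (u : Ω) : Prop :=
  ∃ c0 c1 c2, (a0 k = some c0 ∧ a1 k = some c1 ∧ a2 k = some c2) ∧ Th t c0 c1 c2 u

/-- tests out of the hint values -/
def tG (Ga : ℕ → C0 → C1 → C2 → Ω → ℝ) (a0 : Fin Nn → Option C0) (a1 : Fin Nn → Option C1) (a2 : Fin Nn → Option C2)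
    (t : ℕ) (k : Fin Nn) (u : Ω) : ℝ :=
  (a0 k).elim 0 fun c0 => (a1 k).elim 0 fun c1 => (a2 k).elim 0 fun c2 => Ga t c0 c1 c2 u

theorem tH_iff {Th : ℕ → C0 → C1 → C2 → Ω → Prop} {a0 : Fin Nn → Option C0} {a1 : Fin Nn → Option C1}
    {a2 : Fin Nn → Option C2} {t : ℕ} {k : Fin Nn} {c0 : C0} {c1 : C1} {c2 : C2} (h0 : a0 k = some c0)
    (h1 : a1 k = some c1) (h2 : a2 k = some c2) (u : Ω) : tH Th a0 a1 a2 t k u ↔ Th t c0 c1 c2 u := by
  constructor
  · rintro ⟨d0, d1, d2, ⟨e0, e1, e2⟩, hh⟩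
    rw [h0, Option.some.injEq] at e0
    rw [h1, Option.some.injEq] at e1
    rw [h2, Option.some.injEq] at e2
    rw [e0, e1, e2]
    exact hh
  · intro hh
    exact ⟨c0, c1, c2, ⟨h0, h1, h2⟩, hh⟩

theorem tG_eq {Ga : ℕ → C0 → C1 → C2 → Ω → ℝ} {a0 : Fin Nn → Option C0} {a1 : Fin Nn → Option C1}
    {a2 : Fin Nn → Option C2} {t : ℕ} {k : Fin Nn} {c0 : C0} {c1 : C1} {c2 : C2} (h0 : a0 k = some c0)
    (h1 : a1 k = some c1) (h2 : a2 k = some c2) (u : Ω) : tG Ga a0 a1 a2 t k u = Ga t c0 c1 c2 u := by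
  unfold tG
  rw [h0, h1, h2]
  rfl

theorem tH_fac {ω : Type*} {V : Ω → ω} {Th : ℕ → C0 → C1 → C2 → Ω → Prop} (h : ∀ t c0 c1 c2, Fac V (Th t c0 c1 c2))
    (a0 : Fin Nn → Option C0) (a1 : Fin Nn → Option C1) (a2 : Fin Nn → Option C2) (t : ℕ) (k : Fin Nn) :
    Fac V (tH Th a0 a1 a2 t k) := fun a b hab => by
  unfold tH
  refine propext (exists_congr fun c0 => exists_congr fun c1 => exists_congr fun c2 => and_congr_right fun _ => ?_)
  rw [h t c0 c1 c2 a b hab]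

theorem tG_fac {ω : Type*} {V : Ω → ω} {Ga : ℕ → C0 → C1 → C2 → Ω → ℝ} (h : ∀ t c0 c1 c2, Fac V (Ga t c0 c1 c2))
    (a0 : Fin Nn → Option C0) (a1 : Fin Nn → Option C1) (a2 : Fin Nn → Option C2) (t : ℕ) (k : Fin Nn) :
    Fac V (tG Ga a0 a1 a2 t k) := fun a b hab => by
  unfold tG
  rcases a0 k with _ | c0
  · rfl
  · rcases a1 k with _ | c1
    · rfl
    · rcases a2 k with _ | c2
      · rfl
      · exact h t c0 c1 c2 a b hab

open Classical in
/-- a code of a list -/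
def pick (Ts Nn : ℕ) (x : Fin N → R) (l : List ((ℕ × R) × Bool)) : Cd Ts N Nn :=
  if h : ∃ c : Cd Ts N Nn, dec x c = l then h.choose else fun _ => Option.none

theorem pick_eq {x : Fin N → R} {l : List ((ℕ × R) × Bool)} (h : ∃ c : Cd Ts N Nn, dec x c = l) :
    dec x (pick Ts Nn x l) = l := by
  unfold pick
  rw [dif_pos h]
  exact h.choose_spec

end codes

variable {X β γ φ : Type} [Fintype X] [Fintype β] [Fintype φ] [Nonempty X] [Nonempty β]
variable {D : HD (Fin 3) X β γ φ} {al : ℝ} {h : D.Thick al}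
variable {v : ℕ → Finset (Fin 3) → X → (Fin 3 → β) → Pt (Fin 3) X β φ}
variable {prr : ℕ → Fin 3 → φ → φ} {T : ℕ} {W : Type} [Fintype W] {tb : Tab D prr T W}
variable {M : US (Om W X β)} {i u1 u2 : Fin 3}
variable {A : ℕ → Om W X β → ℕ → Om W X β → Prop} {g : ℕ → Om W X β → ℝ} {C0 C1 C2 : Type} {m0 m1 m2 eps : ℝ} {Nn : ℕ}
variable {w0 : Om W X β} {N : ℕ} {x : ℕ → Om W X β → Fin N → Om W X β} {kap lam th ep1 : ℝ} {K : ℕ}

/-! ### names in the world of the point -/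

variable (tb) in
/-- names in the world of the point -/
def nmr (w0 : Om W X β) (i u1 u2 : Fin 3) (A : ℕ → Om W X β → ℕ → Om W X β → Prop) (g : ℕ → Om W X β → ℝ)
    (kap lam : ℝ) (K : ℕ) (th : ℝ) (x : ℕ → Om W X β → Fin N → Om W X β) (r s : ℕ) (w : Om W X β) :
    List ((ℕ × Om W X β) × Bool) :=
  nms (WE tb ∅ (TP.nn r) w) D TP.nn w0 i u1 u2 (A r w) (g r) kap lam K th (x r w) s w

variable (tb) in
/-- light dead pieces in the world of the point -/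
def ltr (w0 : Om W X β) (i u1 u2 : Fin 3) (A : ℕ → Om W X β → ℕ → Om W X β → Prop) (g : ℕ → Om W X β → ℝ)
    (kap lam : ℝ) (K : ℕ) (th ep1 : ℝ) (x : ℕ → Om W X β → Fin N → Om W X β) (r s : ℕ) (w : Om W X β) : Prop :=
  lit (WE tb ∅ (TP.nn r) w) D TP.nn w0 i u1 u2 (A r w) (g r) kap lam K th ep1 (x r w) s w

theorem WE_eq {r : ℕ} {a b : Om W X β} (hab : sgt D ∅ r a = sgt D ∅ r b) : WE tb ∅ r a = WE tb ∅ r b := by
  unfold WE
  rw [hab]

theorem sgt_le {s r : ℕ} (hrs : r ≤ s) {a b : Om W X β} {E : Finset (Fin 3)} (hab : sgt D E s a = sgt D E s b) :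
    sgt D E r a = sgt D E r b := by
  rw [sgt_eq] at hab ⊢
  exact ⟨hab.1, hab.2.1, fun j => Dy.qb_mono hrs (hab.2.2 j)⟩

/-- names and light dead pieces seen from another point of the world -/
theorem nmr_W (hA : ∀ n z z', sgt D ∅ (TP.nn n) z = sgt D ∅ (TP.nn n) z' → A n z = A n z')
    (hx : ∀ r z z', sgt D ∅ (TP.nn r) z = sgt D ∅ (TP.nn r) z' → x r z = x r z') {r : ℕ} {z w : Om W X β}
    (e : sgt D ∅ (TP.nn r) w = sgt D ∅ (TP.nn r) z) (s : ℕ) :
    nms (WE tb ∅ (TP.nn r) z) D TP.nn w0 i u1 u2 (A r z) (g r) kap lam K th (x r z) s w =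
      nmr tb w0 i u1 u2 A g kap lam K th x r s w := by
  unfold nmr
  rw [WE_eq e, hA r w z e, hx r w z e]

theorem ltr_W (hA : ∀ n z z', sgt D ∅ (TP.nn n) z = sgt D ∅ (TP.nn n) z' → A n z = A n z')
    (hx : ∀ r z z', sgt D ∅ (TP.nn r) z = sgt D ∅ (TP.nn r) z' → x r z = x r z') {r : ℕ} {z w : Om W X β}
    (e : sgt D ∅ (TP.nn r) w = sgt D ∅ (TP.nn r) z) (s : ℕ) :
    lit (WE tb ∅ (TP.nn r) z) D TP.nn w0 i u1 u2 (A r z) (g r) kap lam K th ep1 (x r z) s w ↔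
      ltr tb w0 i u1 u2 A g kap lam K th ep1 x r s w := by
  unfold ltr
  rw [WE_eq e, hA r w z e, hx r w z e]

theorem nmr_fac (hA : ∀ n z z', sgt D ∅ (TP.nn n) z = sgt D ∅ (TP.nn n) z' → A n z = A n z')
    (hx : ∀ r z z', sgt D ∅ (TP.nn r) z = sgt D ∅ (TP.nn r) z' → x r z = x r z') {r s : ℕ} (hrs : r ≤ s) :
    Fac (sgt D ∅ (TP.nn s)) (nmr tb w0 i u1 u2 A g kap lam K th x r s) := by
  intro a b hab
  have e := sgt_le (TP.nn_mono hrs) hab
  rw [← nmr_W (tb := tb) (w0 := w0) (i := i) (u1 := u1) (u2 := u2) (g := g) (kap := kap) (lam := lam) (th := th) (K := K)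
    hA hx e s]
  exact GdyN.nm_fac (nd_filt (D := D) (W := W) TP.nn_succ) s a b hab

theorem ltr_fac (hA : ∀ n z z', sgt D ∅ (TP.nn n) z = sgt D ∅ (TP.nn n) z' → A n z = A n z')
    (hx : ∀ r z z', sgt D ∅ (TP.nn r) z = sgt D ∅ (TP.nn r) z' → x r z = x r z') {r s : ℕ} (hrs : r ≤ s) {a b : Om W X β}
    (hab : sgt D ∅ (TP.nn s) a = sgt D ∅ (TP.nn s) b) :
    ltr tb w0 i u1 u2 A g kap lam K th ep1 x r s a ↔ ltr tb w0 i u1 u2 A g kap lam K th ep1 x r s b := by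
  have e := sgt_le (TP.nn_mono hrs) hab
  rw [← ltr_W (tb := tb) (w0 := w0) (i := i) (u1 := u1) (u2 := u2) (g := g) (kap := kap) (lam := lam) (th := th) (K := K)
    (ep1 := ep1) hA hx e s]
  unfold lit
  rw [cp_fac s _ a b hab]
  exact Iff.rfl

theorem WE_self {r : ℕ} {w : Om W X β} (hw : tb.Ps.p w ≠ 0) : (WE tb ∅ r w).p w ≠ 0 := (WE_supp tb).2 ⟨hw, rfl⟩

/-- **the names have codes** -/
theorem code_ok (hK : 0 < K) (k0 : 0 ≤ kap) (t0 : 0 ≤ th) (hN : 1 < th * kap * (Nn + 1)) {r s Ts : ℕ} (hs : s < Ts)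
    {w : Om W X β} (hw : tb.Ps.p w ≠ 0) :
    dec (x r w) (pick Ts Nn (x r w) (nmr tb w0 i u1 u2 A g kap lam K th x r s w)) =
      nmr tb w0 i u1 u2 A g kap lam K th x r s w := by
  refine pick_eq (GdyN.dec_ex Nn _ ?_ fun p hp => ?_)
  · have h1 := GdyN.len_le (P := WE tb ∅ (TP.nn r) w) (X := nd D TP.nn W) (H := Hs w0 i u1 u2 (A r w))
      (f := ts {i} {u1, u2} (g r)) (kap := kap) (lam := lam) (th := th) (x := x r w) hK k0 t0 s (WE_self (r := TP.nn r) hw)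
    by_contra h2
    have h3 : ((Nn : ℝ) + 1) ≤ (nmr tb w0 i u1 u2 A g kap lam K th x r s w).length := by
      exact_mod_cast Nat.succ_le_of_lt (not_le.1 h2)
    have h4 := mul_le_mul_of_nonneg_left h3 (mul_nonneg t0 k0)
    have h5 : th * kap * ((nmr tb w0 i u1 u2 A g kap lam K th x r s w).length : ℝ) ≤ 1 := h1
    linarith
  · obtain ⟨t, ht, j, -, h2⟩ := nm_alv hp
    rw [h2]
    exact ⟨lt_of_le_of_lt ((GdyN.lt_lev hK).1 ht) hs, j, rfl⟩

/-- a positive mass holds at a point -/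
theorem cp_ex {Ω : Type*} [Fintype Ω] {P : FP Ω} {κ : ℕ → Type*} {Y : ∀ t, Ω → κ t} {s : ℕ} {B : Ω → Prop} {w : Ω}
    (hc : 0 < cp P Y s B w) : ∃ z, P.p z ≠ 0 ∧ Y s z = Y s w ∧ B z := by
  by_contra hcon
  push Not at hcon
  have h1 : cp P Y s B w = cp P Y s (fun _ => False) w := by
    refine cp_congr_on fun z hz hzw => ⟨fun hB => hcon z hz hzw hB, fun hF => hF.elim⟩
  have h2 : cp P Y s (fun _ => False) w ≤ 0 := by
    unfold cp
    have h3 : (fun _ : Ω => ind False) = fun _ => (0 : ℝ) := funext fun _ => ind_not not_false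
    rw [h3]
    unfold FP.ce
    simp only [mul_zero]
    rw [FP.E_const, zero_div]
  rw [h1] at hc
  linarith

/-- **a name** -/
theorem nm_ok (O : Own h v tb M i u1 u2 A g C0 C1 C2 m0 m1 m2 eps Nn) (hV : V3 i u1 u2)
    (hx : Rw tb M w0 i u1 u2 x) (hK : 0 < K) (k0 : 0 < kap) (t0 : 0 < th) {r s : ℕ} {w : Om W X β}
    {p : (ℕ × Om W X β) × Bool}
    (hp : p ∈ nmr tb w0 i u1 u2 A g kap lam K th x r s w) : (r ≤ p.1.1 ∧ p.1.1 ≤ s) ∧
      ∃ z, tb.Ps.p z ≠ 0 ∧ sgt D ∅ (TP.nn s) z = sgt D ∅ (TP.nn s) w ∧ A r w p.1.1 (mx {i} {u1, u2} p.1.2 z) := by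
  obtain ⟨t, ht, j, h1, h2⟩ := nm_alv hp
  have hts : t / K ≤ s := (GdyN.lt_lev hK).1 ht
  obtain ⟨z, hz, hzw, hpc⟩ := cp_ex (lt_of_lt_of_le (mul_pos t0 k0) (h1 s hts le_rfl))
  have h3 : sec (UU w0 i u1 u2) (VW w0 i u1 u2) (A r w) (t / K) (x r w j) z := hpc.1.1
  have hz' : sgt D ∅ (TP.nn s) z = sgt D ∅ (TP.nn s) w := hzw
  have h4 := (sec_mx hV (hx.u r w j) ((hx.h1 r w j).trans (sgt_eq.1 hz').1.symm)).1 h3
  have h5 : p.1.1 = t / K := by rw [h2]
  have h6 : p.1.2 = x r w j := by rw [h2]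
  rw [h5, h6]
  exact ⟨⟨O.An _ _ _ _ h4, hts⟩, z, ((WE_supp tb).1 hz).1, hz', h4⟩

/-! ### what the hint values see -/

theorem Fit_congr {n : ℕ} {a a' w : Om W X β} (e : a.2 = a'.2) (F : Fit tb M i u1 u2 n a w) :
    Fit tb M i u1 u2 n a' w := by
  have h1 : mx {i} {u1, u2} a' w = mx {i} {u1, u2} a w := by
    unfold mx
    rw [e]
  exact ⟨F.sp, by rw [h1]; exact F.sm, by rw [← e]; exact F.ce, F.nu⟩

theorem mx_congr {a a' w : Om W X β} (e : a.2 = a'.2) : mx {i} {u1, u2} a w = mx {i} {u1, u2} a' w := by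
  unfold mx
  rw [e]

theorem si_mx {Kx E S : Finset (Fin 3)} (hE : ∀ j ∈ E, j = i ∨ j ∈ Kx)
    (hS : S ⊆ {u1, u2}) {m : ℕ} {a a' w w' : Om W X β} (e : sgt D Kx m w = sgt D Kx m w') (ea : a.2 = a'.2) :
    si D E univ S m (mx {i} {u1, u2} a w) = si D E univ S m (mx {i} {u1, u2} a' w') := by
  obtain ⟨e1, e2, e3⟩ := sgt_eq.1 e
  have hy : ∀ j, j ≠ i → (mx {i} {u1, u2} a w).2.2 j = w.2.2 j := fun j hj => mx_y hj
  have hy' : ∀ j, j ≠ i → (mx {i} {u1, u2} a' w').2.2 j = w'.2.2 j := fun j hj => mx_y hj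
  have hyi : (mx {i} {u1, u2} a w).2.2 i = (mx {i} {u1, u2} a' w').2.2 i := by
    rw [mx_yi, mx_yi, ea]
  refine si_eq.2 ⟨e1, fun j hj => ?_, fun j hj => ?_, fun j _ => ?_⟩
  · show (if j ∈ ({u1, u2} : Finset (Fin 3)) then a.2.1 j else w.2.1 j) =
      if j ∈ ({u1, u2} : Finset (Fin 3)) then a'.2.1 j else w'.2.1 j
    rw [if_pos (hS hj), if_pos (hS hj), ea]
  · by_cases hji : j = i
    · rw [hji]
      exact hyi
    · rw [hy j hji, hy' j hji]
      exact e2 j ((hE j hj).resolve_left hji)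
  · by_cases hji : j = i
    · rw [hji, hyi]
    · rw [hy j hji, hy' j hji, e3 j]

theorem b0_mx (O : Own h v tb M i u1 u2 A g C0 C1 C2 m0 m1 m2 eps Nn) {r t m : ℕ} (hr : r ≤ t) (hm : TP.nn t ≤ m)
    {a a' w w' : Om W X β} (e : sgt D ∅ m w = sgt D ∅ m w') (ea : a.2 = a'.2) :
    O.b0 r t (mx {i} {u1, u2} a w) = O.b0 r t (mx {i} {u1, u2} a' w') :=
  O.f0 r t hr _ _ (si_mx (Kx := ∅) (fun _ hj => Or.inl (Finset.mem_singleton.1 hj))
    (Finset.Subset.refl _) (sgt_le hm e) ea)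

theorem b1_mx (O : Own h v tb M i u1 u2 A g C0 C1 C2 m0 m1 m2 eps Nn) {r t m : ℕ} (hr : r ≤ t)
    (hm : TP.nn t ≤ m) {a a' w w' : Om W X β} (e : sgt D {u1} m w = sgt D {u1} m w') (ea : a.2 = a'.2) :
    O.b1 r t (mx {i} {u1, u2} a w) = O.b1 r t (mx {i} {u1, u2} a' w') :=
  O.f1 r t hr _ _ (si_mx (Kx := {u1}) (fun _ hj => (Finset.mem_insert.1 hj).imp id id)
    (Finset.singleton_subset_iff.2 (Finset.mem_insert_of_mem
      (Finset.mem_singleton_self _))) (sgt_le hm e) ea)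

theorem b2_mx (O : Own h v tb M i u1 u2 A g C0 C1 C2 m0 m1 m2 eps Nn) {r t m : ℕ} (hr : r ≤ t)
    (hm : TP.nn t ≤ m) {a a' w w' : Om W X β} (e : sgt D {u2} m w = sgt D {u2} m w') (ea : a.2 = a'.2) :
    O.b2 r t (mx {i} {u1, u2} a w) = O.b2 r t (mx {i} {u1, u2} a' w') :=
  O.f2 r t hr _ _ (si_mx (Kx := {u2}) (fun _ hj => (Finset.mem_insert.1 hj).imp id id)
    (Finset.singleton_subset_iff.2 (Finset.mem_insert_self _ _))
    (sgt_le hm e) ea)

/-- all points of a sight -/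
theorem sgt_all (w1 : Om W X β) (E : Finset (Fin 3)) (m : ℕ) (w : Om W X β) :
    sgt D E m (up w1 (tb.pt 0 w)) = sgt D E m w := sgt_up w1 E m 0 w

/-! ### the decision list -/

variable (O : Own h v tb M i u1 u2 A g C0 C1 C2 m0 m1 m2 eps Nn)

/-- the test of the hint values -/
def tst (r e : ℕ) (c : Cs N Nn × (Fin Nn → Option C0)) (a1 : Fin Nn → Option C1) (a2 : Fin Nn → Option C2)
    (u : Pt (Fin 3) X β φ) : ℝ := dl2 (tH (O.Th r e) c.2 a1 a2) (tG (O.Ga r e) c.2 a1 a2) (lst c.1) u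

theorem tst_fac (r e : ℕ) (c : Cs N Nn × (Fin Nn → Option C0)) (a1 : Fin Nn → Option C1)
    (a2 : Fin Nn → Option C2) : Fac (fun u => (FQ v (e / 5) i u, ZbQ D v e i u)) (tst O r e c a1 a2) := by
  refine dl2_fac _ (fun p _ => ?_) fun p _ => ?_
  · exact tH_fac (fun t c0 c1 c2 => O.ft r e t c0 c1 c2) _ _ _ _ _
  · exact tG_fac (fun t c0 c1 c2 => O.fg r e t c0 c1 c2) _ _ _ _ _

/-- hint values of the rows `y` at the world point `w` -/
abbrev h0 (r : ℕ) (y : Fin N → Om W X β) (w : Om W X β) : ℕ → Fin N → C0 := fun t j => O.b0 r t (mx {i} {u1, u2} (y j) w)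

abbrev h1' (r : ℕ) (y : Fin N → Om W X β) (w : Om W X β) : ℕ → Fin N → C1 := fun t j => O.b1 r t (mx {i} {u1, u2} (y j) w)

abbrev h2' (r : ℕ) (y : Fin N → Om W X β) (w : Om W X β) : ℕ → Fin N → C2 := fun t j => O.b2 r t (mx {i} {u1, u2} (y j) w)

/-- **the decision list of the names = the test of the hint values** -/
theorem dl_own (hv : Codes D v) (hV : V3 i u1 u2) (hO : OnS M tb TP.nn) (HS : Seen M) {r s Ts : ℕ} (hr : r < 5 * T)
    {w : Om W X β} {c : Cd Ts N Nn} {y : Fin N → Om W X β} (hu : ∀ j, UU w0 i u1 u2 (y j) = y j)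
    (hy1 : ∀ j, (y j).1 = w.1) (hF : ∀ j, Fit tb M i u1 u2 r (y j) w)
    (hc : ∀ k p, c k = some p → r ≤ (p.1.1 : ℕ) ∧ (p.1.1 : ℕ) ≤ s) :
    dl (Hs w0 i u1 u2 (A r w)) (ts {i} {u1, u2} (g r)) (dec y c) w =
      tst O r (eT v tb r w) (strip c, hb c r s (h0 O r y w)) (hb c r s (h1' O r y w)) (hb c r s (h2' O r y w))
        (tb.pt (eT v tb r w / 5) w) := by
  unfold tst lst
  rw [dec_fin]
  refine dl2_map _ fun k _ => ?_
  rcases hk : c k with _ | p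
  · exact Or.inl ⟨rfl, by
      show Option.map _ (Option.map _ (c k)) = Option.none
      rw [hk]
      rfl⟩
  · refine Or.inr ⟨(((p.1.1 : ℕ), y p.1.2), p.2), ((0, k), p.2), rfl, by
      show Option.map _ (Option.map _ (c k)) = _
      rw [hk]
      rfl, rfl, ?_, ?_⟩
    · rw [tH_iff (hb_eq hk (hc k p hk)) (hb_eq hk (hc k p hk)) (hb_eq hk (hc k p hk)), O.ts r _ 0 (p.1.1 : ℕ)]
      exact (sec_own hv O hV hO HS hr (hc k p hk).1 (hF p.1.2) (hu p.1.2) (hy1 p.1.2)).1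
    · intro hh
      rw [tG_eq (hb_eq hk (hc k p hk)) (hb_eq hk (hc k p hk)) (hb_eq hk (hc k p hk)), O.gs r _ 0 (p.1.1 : ℕ)]
      exact (sec_own hv O hV hO HS hr (hc k p hk).1 (hF p.1.2) (hu p.1.2) (hy1 p.1.2)).2 hh

/-- **it is normalised** -/
theorem hone_own {r s Ts : ℕ} (hr : r < 5 * T) {w : Om W X β} (hw : tb.Ps.p w ≠ 0) (hnu : MV.nu M.toMS r w = r)
    {c : Cd Ts N Nn} {y : Fin N → Om W X β} (hF : ∀ j, Fit tb M i u1 u2 r (y j) w)
    (hc : ∀ k p, c k = some p → r ≤ (p.1.1 : ℕ) ∧ (p.1.1 : ℕ) ≤ s) :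
    (D.P h (eT v tb r w / 5)).ce (ZbQ D v (eT v tb r w) i) (fun u => Real.exp (
      tst O r (eT v tb r w) (strip c, hb c r s (h0 O r y w)) (hb c r s (h1' O r y w)) (hb c r s (h2' O r y w)) u))
      (tb.pt (eT v tb r w / 5) w) ≤ Real.exp eps := by
  have h3 := O.hone r hr w hw hnu (dec y c) (dec_len y c) ?_
  · refine le_trans (le_of_eq ?_) h3
    congr 1
    funext u
    congr 1
    unfold tst lst
    rw [dec_fin]
    refine dl2_congr _ fun k _ => ?_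
    rcases hk : c k with _ | p
    · exact Or.inl ⟨by
        show Option.map _ (Option.map _ (c k)) = Option.none
        rw [hk]
        rfl, rfl⟩
    · refine Or.inr ⟨((0, k), p.2), (((p.1.1 : ℕ), y p.1.2), p.2), by
        show Option.map _ (Option.map _ (c k)) = _
        rw [hk]
        rfl, rfl, rfl, ?_, ?_⟩
      · rw [tH_iff (hb_eq hk (hc k p hk)) (hb_eq hk (hc k p hk)) (hb_eq hk (hc k p hk)), O.ts r _ 0 (p.1.1 : ℕ)]
      · intro _
        rw [tG_eq (hb_eq hk (hc k p hk)) (hb_eq hk (hc k p hk)) (hb_eq hk (hc k p hk)), O.gs r _ 0 (p.1.1 : ℕ)]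
  · intro q hq
    obtain ⟨k, p, hk, rfl⟩ := of_mem_dec hq
    exact ⟨(hc k p hk).1, hF p.1.2⟩

end

end Pool.Agent.GMH.PayP
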