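import Pool.Agent.GMH.PayP6

/-!
# GMH/PayP7 (helper75): PUBLIC COVERS BY OWN ROWS, sums over the lives and numbers of the hint values

* `Nmd` : names, light pieces and codes, as data; `nmd_of` : those of the world of the point;
* `c0_om`, `c1_om`, `c2_om` : the numbers of the hint values; `life_sum` : sum over start, tables, end;
* `start_avg'`, `pay_r`, `ne_r` : one start.
-/

set_option autoImplicit false
set_option linter.unusedSectionVars false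

namespace Pool.Agent.GMH.PayP

open Finset Pool.Agent.PWZ Pool.Agent.M3 Pool.Agent.GM Pool.Agent.GM.Harm Pool.Agent.GMH Pool.Agent.GMH.PayM
open Pool.Agent.GMH.PayS Pool.Agent.GMH.PayQ
open Pool.Agent.GMH.V3 Pool.Agent.GMH.V3.TG
open Pool.Agent.GMH.TP (FQ ZbQ ZQ NPq SL)
open Pool.Agent.GMH.Gdy Pool.Agent.GMH.Dy Pool.Agent.GMH.TabF Pool.Agent.GMH.TabZ
open Pool.Agent.GMH.CK Pool.Agent.GMH.MV Pool.Agent.GMH.MVI Pool.Agent.GMH.GhoZ Pool.Agent.GMH.GhoZ3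
open Pool.Agent.GMH.GdyN (dl dec Cd)
open Pool.Agent.GMH.UV (US Seen)
open Pool.Agent.GMH.PayI (up sgt_up bk_pt ex_pt)

noncomputable section

variable {X β γ φ : Type} [Fintype X] [Fintype β] [Fintype φ] [Nonempty X] [Nonempty β]
variable {D : HD (Fin 3) X β γ φ} {al : ℝ} {h : D.Thick al}
variable {v : ℕ → Finset (Fin 3) → X → (Fin 3 → β) → Pt (Fin 3) X β φ}
variable {prr : ℕ → Fin 3 → φ → φ} {T : ℕ} {W : Type} [Fintype W] {tb : Tab D prr T W}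
variable {M : US (Om W X β)} {i u1 u2 : Fin 3}
variable {A : ℕ → Om W X β → ℕ → Om W X β → Prop} {g : ℕ → Om W X β → ℝ} {C0 C1 C2 : Type} {m0 m1 m2 eps : ℝ} {Nn : ℕ}
variable {w0 : Om W X β} {N : ℕ} {x : ℕ → Om W X β → Fin N → Om W X β} {kap lam th ep1 : ℝ} {K : ℕ}

variable (tb i u1 u2 A x) in
/-- names, light pieces and codes -/
structure Nmd (nm : ℕ → ℕ → Om W X β → List ((ℕ × Om W X β) × Bool)) (lt : ℕ → ℕ → Om W X β → Prop)
    (cd : ℕ → ℕ → Om W X β → Cd (5 * T + 1) N Nn) : Prop where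
  nf : ∀ r s, r ≤ s → Fac (sgt D ∅ (TP.nn s)) (nm r s)
  lf : ∀ r s, r ≤ s → Fac (sgt D ∅ (TP.nn s)) (lt r s)
  cf : ∀ r s, r ≤ s → Fac (sgt D ∅ (TP.nn s)) (cd r s)
  ok : ∀ r s, s ≤ 5 * T → ∀ w, tb.Ps.p w ≠ 0 → dec (x r w) (cd r s w) = nm r s w
  nk : ∀ r s w, ∀ p ∈ nm r s w, (r ≤ p.1.1 ∧ p.1.1 ≤ s) ∧ ∃ z, tb.Ps.p z ≠ 0 ∧
    sgt D ∅ (TP.nn s) z = sgt D ∅ (TP.nn s) w ∧ A r w p.1.1 (mx {i} {u1, u2} p.1.2 z)

theorem nmd_of (O : Own h v tb M i u1 u2 A g C0 C1 C2 m0 m1 m2 eps Nn) (hV : V3 i u1 u2)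
    (hx : Rw tb M w0 i u1 u2 x) (hK : 0 < K) (k0 : 0 < kap) (t0 : 0 < th) (hN : 1 < th * kap * (Nn + 1)) :
    Nmd tb i u1 u2 A x (nmr tb w0 i u1 u2 A g kap lam K th x) (ltr tb w0 i u1 u2 A g kap lam K th ep1 x)
      (fun r s w => pick (5 * T + 1) Nn (x r w) (nmr tb w0 i u1 u2 A g kap lam K th x r s w)) where
  nf r s hrs := nmr_fac O.Aw hx.c hrs
  lf r s hrs a b hab := propext (ltr_fac O.Aw hx.c hrs hab)
  cf r s hrs a b hab := by
    show pick _ _ (x r a) _ = pick _ _ (x r b) _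
    rw [hx.c r a b (sgt_le (TP.nn_mono hrs) hab), nmr_fac O.Aw hx.c hrs a b hab]
  ok r s hs w hw := code_ok hK k0.le t0.le hN (Nat.lt_succ_of_le hs) hw
  nk r s w p hp := nm_ok O hV hx hK k0 t0 hp

variable {nm : ℕ → ℕ → Om W X β → List ((ℕ × Om W X β) × Bool)} {lt : ℕ → ℕ → Om W X β → Prop}
  {cd : ℕ → ℕ → Om W X β → Cd (5 * T + 1) N Nn}

/-- levels of the positions -/
theorem cd_lev (hN : Nmd tb i u1 u2 A x nm lt cd) {r s : ℕ} (hs : s ≤ 5 * T) {w : Om W X β} (hw : tb.Ps.p w ≠ 0) {k : Fin Nn}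
    {p : (Fin (5 * T + 1) × Fin N) × Bool} (hk : cd r s w k = some p) : (r ≤ (p.1.1 : ℕ) ∧ (p.1.1 : ℕ) ≤ s) ∧
      ∃ z, tb.Ps.p z ≠ 0 ∧ sgt D ∅ (TP.nn s) z = sgt D ∅ (TP.nn s) w ∧
        A r w p.1.1 (mx {i} {u1, u2} (x r w p.1.2) z) := by
  have h1 := mem_dec (x := x r w) hk
  rw [hN.ok r s hs w hw] at h1
  exact hN.nk r s w _ h1

theorem Clq_cell {e : ℕ} {Kx : Finset (Fin 3)} {a b : Pt (Fin 3) X β φ} (hab : Clq D v e Kx a = Clq D v e Kx b) (j : Fin 3) :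
    D.qb (TP.nn e) (a.2.1 j) = D.qb (TP.nn e) (b.2.1 j) :=
  (BB_eq.1 (Prod.mk.inj (show (le (SL v e) Kx a, BB D (TP.nn e) Kx a) = (le (SL v e) Kx b, BB D (TP.nn e) Kx b)
    from hab)).2).2.2 j

/-! ### numbers of the hint values -/

theorem c0_om (hv : Codes D v) (O : Own h v tb M i u1 u2 A g C0 C1 C2 m0 m1 m2 eps Nn)
    (hO : OnS M tb TP.nn) (HS : Seen M) (hx : Rw tb M w0 i u1 u2 x) (hN : Nmd tb i u1 u2 A x nm lt cd) (hm0 : 0 ≤ m0)
    {r s : ℕ} (hr : r < 5 * T) (hrs : r ≤ s) (hs : s ≤ 5 * T) {w : Om W X β} (hw : tb.Ps.p w ≠ 0)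
    (hnu : MV.nu M.toMS r w = r) : ∃ S : Finset (Cs N Nn × (Fin Nn → Option C0)),
      (S.card : ℝ) ≤ ((N * 2 + 1 : ℕ) : ℝ) ^ Nn * (1 + m0) ^ Nn ∧
      ∀ w', tb.Ps.p w' ≠ 0 → MV.nu M.toMS r w' = r → eT v tb r w' = eT v tb r w →
        Clq D v (eT v tb r w) ∅ (tb.pt 0 w') = Clq D v (eT v tb r w) ∅ (tb.pt 0 w) →
        (strip (cd r s w'), hb (cd r s w') r s (h0 O r (x r w') w')) ∈ S := by
  classical
  have key : ∀ (c : Cs N Nn) (k : Fin Nn), ∃ F : Finset C0, (F.card : ℝ) ≤ m0 ∧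
      ∀ p, c k = some p → ∀ t, r ≤ t → ∀ w', Fit tb M i u1 u2 r (x r w p.1) w' →
        eT v tb r w' = eT v tb r w →
        Clq D v (eT v tb r w) ∅ (tb.pt 0 w') = Clq D v (eT v tb r w) ∅ (tb.pt 0 w) →
        A r w' t (mx {i} {u1, u2} (x r w p.1) w') → O.b0 r t (mx {i} {u1, u2} (x r w p.1) w') ∈ F := by
    intro c k
    rcases hk : c k with _ | p
    · exact ⟨∅, by rw [Finset.card_empty, Nat.cast_zero]; exact hm0, fun p hp => absurd hp (by simp)⟩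
    · obtain ⟨F, h1, h2⟩ := O.k0 r hr (x r w p.1) w (hx.fit r hr w p.1 hw hnu)
      refine ⟨F, h1, fun p' hp' => ?_⟩
      rw [← Option.some.inj hp']
      exact h2
  choose F hF1 hF2 using key
  obtain ⟨S, hS1, hS2⟩ := PayO.fam_fin (α := Cs N Nn) F hm0 hF1
  refine ⟨S, ?_, fun w' hw' hnu' he' hcl => hS2 _ _ fun k a hk => ?_⟩
  · refine hS1.trans (le_of_eq ?_)
    rw [card_Cs]
    push_cast
    rfl
  · obtain ⟨p, hp, hlev, rfl⟩ := hb_some hk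
    obtain ⟨-, z, hz, hzw, hAz⟩ := cd_lev hN hs hw' hp
    have hcell : D.qb (TP.nn r) (w'.2.2 i) = D.qb (TP.nn r) (w.2.2 i) := by
      have := Clq_cell hcl i
      rwa [eT_nn] at this
    have hzr : sgt D ∅ (TP.nn r) z = sgt D ∅ (TP.nn r) w' := sgt_le (TP.nn_mono hrs) hzw
    have hxz : x r z = x r w' := hx.c r z w' hzr
    have e1 : (x r w' p.1.2).2 = (x r w p.1.2).2 := hx.h2 r w' w p.1.2 hcell
    have hnz : MV.nu M.toMS r z = r := (nu_sgt hO HS le_rfl hzr).trans hnu'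
    have e2 : O.b0 r p.1.1 (mx {i} {u1, u2} (x r w' p.1.2) w') = O.b0 r p.1.1 (mx {i} {u1, u2} (x r w p.1.2) z) :=
      b0_mx O hlev.1 (TP.nn_mono hlev.2) hzw.symm e1
    show O.b0 r p.1.1 (mx {i} {u1, u2} (x r w' p.1.2) w') ∈ _
    rw [e2]
    have hfz := hx.fit r hr z p.1.2 hz hnz
    rw [hxz] at hfz
    refine hF2 _ k (p.1.2, p.2) (strip_some hp) p.1.1 hlev.1 z (Fit_congr e1 hfz) ((eT_sgt hv hzr).trans he') ?_ ?_
    · exact (Clq_emp hv (eT_nn r w).le hzr).trans hcl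
    · rw [O.Aw r z w' hzr, ← mx_congr e1]
      exact hAz

theorem c1_om (O : Own h v tb M i u1 u2 A g C0 C1 C2 m0 m1 m2 eps Nn)
    (hx : Rw tb M w0 i u1 u2 x) (hm1 : 0 ≤ m1)
    {r s : ℕ} (hr : r < 5 * T) {w : Om W X β} (hw : tb.Ps.p w ≠ 0)
    (hnu : MV.nu M.toMS r w = r) : ∃ S : Finset (Fin Nn → Option C1), (S.card : ℝ) ≤ (1 + m1) ^ Nn ∧
      ∀ w', tb.Ps.p w' ≠ 0 → MV.nu M.toMS r w' = r → eT v tb r w' = eT v tb r w →
        Clq D v (eT v tb r w) {u1} (tb.pt 0 w') = Clq D v (eT v tb r w) {u1} (tb.pt 0 w) →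
        (strip (cd r s w'), hb (cd r s w') r s (h0 O r (x r w') w')) =
          (strip (cd r s w), hb (cd r s w) r s (h0 O r (x r w) w)) →
        hb (cd r s w') r s (h1' O r (x r w') w') ∈ S := by
  classical
  have key : ∀ k : Fin Nn, ∃ F : Finset C1, (F.card : ℝ) ≤ m1 ∧
      ∀ p c, strip (cd r s w) k = some p → hb (cd r s w) r s (h0 O r (x r w) w) k = some c → ∀ t, r ≤ t → ∀ w',
        Fit tb M i u1 u2 r (x r w p.1) w' → eT v tb r w' = eT v tb r w →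
        Clq D v (eT v tb r w) {u1} (tb.pt 0 w') = Clq D v (eT v tb r w) {u1} (tb.pt 0 w) →
        O.b0 r t (mx {i} {u1, u2} (x r w p.1) w') = c → O.b1 r t (mx {i} {u1, u2} (x r w p.1) w') ∈ F := by
    intro k
    rcases hk : strip (cd r s w) k with _ | p
    · exact ⟨∅, by rw [Finset.card_empty, Nat.cast_zero]; exact hm1, fun p c hp => absurd hp (by simp)⟩
    · rcases hk' : hb (cd r s w) r s (h0 O r (x r w) w) k with _ | c
      · exact ⟨∅, by rw [Finset.card_empty, Nat.cast_zero]; exact hm1, fun p c _ hc => absurd hc (by simp)⟩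
      · obtain ⟨F, h1, h2⟩ := O.k1 r hr (x r w p.1) w (hx.fit r hr w p.1 hw hnu) c
        refine ⟨F, h1, fun p' c' hp' hc' => ?_⟩
        rw [← Option.some.inj hp', ← Option.some.inj hc']
        exact h2
  choose F hF1 hF2 using key
  obtain ⟨S, hS1, hS2⟩ := PayO.fam_fin1 F hm1 hF1
  refine ⟨S, hS1, fun w' hw' hnu' he' hcl hpub => hS2 _ fun k a hk => ?_⟩
  have hcell : D.qb (TP.nn r) (w'.2.2 i) = D.qb (TP.nn r) (w.2.2 i) := by
    have := Clq_cell hcl i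
    rwa [eT_nn] at this
  obtain ⟨hc, hh⟩ := Prod.mk.inj hpub
  obtain ⟨p, hp, hlev, rfl⟩ := hb_some hk
  have e1 : (x r w' p.1.2).2 = (x r w p.1.2).2 := hx.h2 r w' w p.1.2 hcell
  have hp0 : strip (cd r s w) k = some (p.1.2, p.2) := by
    rw [← hc]
    exact strip_some hp
  have hk0 := congrFun hh k
  rw [hb_eq hp hlev] at hk0
  show O.b1 r p.1.1 (mx {i} {u1, u2} (x r w' p.1.2) w') ∈ _
  rw [mx_congr e1]
  refine hF2 k (p.1.2, p.2) _ hp0 hk0.symm p.1.1 hlev.1 w' (Fit_congr e1 (hx.fit r hr w' p.1.2 hw' hnu')) he' hcl ?_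
  show _ = O.b0 r p.1.1 (mx {i} {u1, u2} (x r w' p.1.2) w')
  rw [mx_congr e1]

theorem c2_om (O : Own h v tb M i u1 u2 A g C0 C1 C2 m0 m1 m2 eps Nn)
    (hx : Rw tb M w0 i u1 u2 x) (hm2 : 0 ≤ m2)
    {r s : ℕ} (hr : r < 5 * T) {w : Om W X β} (hw : tb.Ps.p w ≠ 0)
    (hnu : MV.nu M.toMS r w = r) : ∃ S : Finset (Fin Nn → Option C2), (S.card : ℝ) ≤ (1 + m2) ^ Nn ∧
      ∀ w', tb.Ps.p w' ≠ 0 → MV.nu M.toMS r w' = r → eT v tb r w' = eT v tb r w →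
        Clq D v (eT v tb r w) {u2} (tb.pt 0 w') = Clq D v (eT v tb r w) {u2} (tb.pt 0 w) →
        (strip (cd r s w'), hb (cd r s w') r s (h0 O r (x r w') w')) =
          (strip (cd r s w), hb (cd r s w) r s (h0 O r (x r w) w)) →
        hb (cd r s w') r s (h2' O r (x r w') w') ∈ S := by
  classical
  have key : ∀ k : Fin Nn, ∃ F : Finset C2, (F.card : ℝ) ≤ m2 ∧
      ∀ p c, strip (cd r s w) k = some p → hb (cd r s w) r s (h0 O r (x r w) w) k = some c → ∀ t, r ≤ t → ∀ w',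
        Fit tb M i u1 u2 r (x r w p.1) w' → eT v tb r w' = eT v tb r w →
        Clq D v (eT v tb r w) {u2} (tb.pt 0 w') = Clq D v (eT v tb r w) {u2} (tb.pt 0 w) →
        O.b0 r t (mx {i} {u1, u2} (x r w p.1) w') = c → O.b2 r t (mx {i} {u1, u2} (x r w p.1) w') ∈ F := by
    intro k
    rcases hk : strip (cd r s w) k with _ | p
    · exact ⟨∅, by rw [Finset.card_empty, Nat.cast_zero]; exact hm2, fun p c hp => absurd hp (by simp)⟩
    · rcases hk' : hb (cd r s w) r s (h0 O r (x r w) w) k with _ | c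
      · exact ⟨∅, by rw [Finset.card_empty, Nat.cast_zero]; exact hm2, fun p c _ hc => absurd hc (by simp)⟩
      · obtain ⟨F, h1, h2⟩ := O.k2 r hr (x r w p.1) w (hx.fit r hr w p.1 hw hnu) c
        refine ⟨F, h1, fun p' c' hp' hc' => ?_⟩
        rw [← Option.some.inj hp', ← Option.some.inj hc']
        exact h2
  choose F hF1 hF2 using key
  obtain ⟨S, hS1, hS2⟩ := PayO.fam_fin1 F hm2 hF1
  refine ⟨S, hS1, fun w' hw' hnu' he' hcl hpub => hS2 _ fun k a hk => ?_⟩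
  have hcell : D.qb (TP.nn r) (w'.2.2 i) = D.qb (TP.nn r) (w.2.2 i) := by
    have := Clq_cell hcl i
    rwa [eT_nn] at this
  obtain ⟨hc, hh⟩ := Prod.mk.inj hpub
  obtain ⟨p, hp, hlev, rfl⟩ := hb_some hk
  have e1 : (x r w' p.1.2).2 = (x r w p.1.2).2 := hx.h2 r w' w p.1.2 hcell
  have hp0 : strip (cd r s w) k = some (p.1.2, p.2) := by
    rw [← hc]
    exact strip_some hp
  have hk0 := congrFun hh k
  rw [hb_eq hp hlev] at hk0
  show O.b2 r p.1.1 (mx {i} {u1, u2} (x r w' p.1.2) w') ∈ _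
  rw [mx_congr e1]
  refine hF2 k (p.1.2, p.2) _ hp0 hk0.symm p.1.1 hlev.1 w' (Fit_congr e1 (hx.fit r hr w' p.1.2 hw' hnu')) he' hcl ?_
  show _ = O.b0 r p.1.1 (mx {i} {u1, u2} (x r w' p.1.2) w')
  rw [mx_congr e1]

/-! ### sum over the lives -/

/-- **sum over start, tables, end** -/
theorem life_sum (F : ℕ → ℕ → ℕ → ℝ) (w : Om W X β) :
    ∑ s ∈ range (5 * T + 1), ∑ r ∈ range (5 * T + 1), ∑ e ∈ range (5 * T + 1),
      ind (Lf (enO T M) (ltL v tb) r e s w) * F r e s =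
    ∑ r ∈ range (5 * T), ind (MV.nu M.toMS r w = r) * F r (eT v tb r w) (ed M.toMS (5 * T) r w) := by
  classical
  rw [Finset.sum_comm, Finset.sum_range_succ (n := 5 * T)]
  have z1 : ∑ s ∈ range (5 * T + 1), ∑ e ∈ range (5 * T + 1),
      ind (Lf (enO T M) (ltL v tb) (5 * T) e s w) * F (5 * T) e s = 0 := by
    refine Finset.sum_eq_zero fun s hs => Finset.sum_eq_zero fun e _ => ?_
    rw [ind_not, zero_mul]
    intro hh
    have := hh.1
    have := mem_range.1 hs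
    omega
  rw [z1, add_zero]
  refine Finset.sum_congr rfl fun r hr => ?_
  have hr' : r < 5 * T := mem_range.1 hr
  by_cases hnu : MV.nu M.toMS r w = r
  · have hed := ed_leT (M := M.toMS) (Ts := 5 * T) (n := r) hr'.le w
    rw [ind_of hnu, one_mul, Finset.sum_eq_single (ed M.toMS (5 * T) r w), Finset.sum_eq_single (eT v tb r w)]
    · rw [ind_of ((Lf_ed (tl := ltL v tb) (e := Dy.eT v tb r w) hr' w).2 ⟨hnu, rfl, rfl⟩), one_mul]
    · intro e _ he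
      rw [ind_not, zero_mul]
      intro hh
      exact he ((Lf_ed hr' w).1 hh).2.2
    · intro hh
      exact absurd (mem_range.2 (eT_lt hr' w)) hh
    · intro s _ hs
      refine Finset.sum_eq_zero fun e _ => ?_
      rw [ind_not, zero_mul]
      intro hh
      exact hs ((Lf_ed hr' w).1 hh).2.1.symm
    · intro hh
      exact absurd (mem_range.2 (Nat.lt_succ_of_le hed)) hh
  · rw [ind_not hnu, zero_mul]
    refine Finset.sum_eq_zero fun s _ => Finset.sum_eq_zero fun e _ => ?_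
    rw [ind_not, zero_mul]
    intro hh
    exact hnu ((Lf_ed hr' w).1 hh).1

/-- **mean over the worlds of the starts** -/
theorem start_avg' (hO : OnS M tb TP.nn) (HS : Seen M) (r : ℕ) (f : Om W X β → ℝ) :
    tb.Ps.E (fun w => ind (MV.nu M.toMS r w = r) * f w) =
      tb.Ps.E (fun z => ind (MV.nu M.toMS r z = r) * (WE tb ∅ (TP.nn r) z).E f) := by
  rw [← WE_avg tb ∅ (TP.nn r) fun w => ind (MV.nu M.toMS r w = r) * f w]
  refine tb.Ps.E_congr fun z _ => ?_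
  rw [← FP.E_smul]
  refine FP.E_congr _ fun w hw => ?_
  rw [nu_sgt hO HS le_rfl ((WE_supp tb).1 hw).2]

/-! ### one start -/

/-- the value of a covered point -/
def vl (w0 : Om W X β) (i u1 u2 : Fin 3)
    (A : ℕ → Om W X β → ℕ → Om W X β → Prop) (g : ℕ → Om W X β → ℝ)
    (nm : ℕ → ℕ → Om W X β → List ((ℕ × Om W X β) × Bool)) (lt : ℕ → ℕ → Om W X β → Prop) (r s : ℕ) (w : Om W X β) : ℝ :=
  ind (lt r s w ∧ nm r s w ≠ []) * dl (Hs w0 i u1 u2 (A r w)) (ts {i} {u1, u2} (g r)) (nm r s w) w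

/-- **payment at one start** -/
theorem pay_r (hO : OnS M tb TP.nn) (HS : Seen M) (hV : V3 i u1 u2)
    (hA : ∀ n z z', sgt D ∅ (TP.nn n) z = sgt D ∅ (TP.nn n) z' → A n z = A n z')
    (hx : ∀ r z z', sgt D ∅ (TP.nn r) z = sgt D ∅ (TP.nn r) z' → x r z = x r z') {zz : ℕ → ℕ → Om W X β → Prop}
    (hz : ∀ r s w, zz r s w → s ≤ ed M.toMS (5 * T) r w) (hK : 0 < K) (k0 : 0 < kap) (t0 : 0 < th)
    (l0 : 0 ≤ lam) {L : ℝ} (L0 : 0 ≤ L) (hL : ∀ r w, g r w ≤ L) (hL' : ∀ r w, -L ≤ g r w) (e0 : 0 < ep1)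
    (he : 4 * L * ep1 ≤ lam * kap) (hth : 4 * L * th ≤ lam * ep1) (r : ℕ) (z : Om W X β) :
    (lam * cz (WE tb ∅ (TP.nn r) z) (zz r) (cv (WE tb ∅ (TP.nn r) z) (UU w0 i u1 u2) (VW w0 i u1 u2)
        (fun s => si D ∅ {u1, u2} ∅ (TP.nn s)) (A r z) (ts {i} {u1, u2} (g r)) kap lam K (x r z)) ≤
      lam * (WE tb ∅ (TP.nn r) z).Pr (fun w => cN (WE tb ∅ (TP.nn r) z) D TP.nn w0 i u1 u2 (A r z) (g r) kap lam K
        (x r z) (ed M.toMS (5 * T) r w) w)) ∧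
    (lam * (WE tb ∅ (TP.nn r) z).Pr (fun w => cN (WE tb ∅ (TP.nn r) z) D TP.nn w0 i u1 u2 (A r z) (g r) kap lam K
        (x r z) (ed M.toMS (5 * T) r w) w) ≤ 4 * (WE tb ∅ (TP.nn r) z).E (fun w =>
        vl w0 i u1 u2 A g (nmr tb w0 i u1 u2 A g kap lam K th x) (ltr tb w0 i u1 u2 A g kap lam K th ep1 x) r
          (ed M.toMS (5 * T) r w) w)) ∧
    (th * kap * (WE tb ∅ (TP.nn r) z).Pr (fun w => nmr tb w0 i u1 u2 A g kap lam K th x r (ed M.toMS (5 * T) r w) w ≠ []) ≤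
      (WE tb ∅ (TP.nn r) z).Pr (fun w => cN (WE tb ∅ (TP.nn r) z) D TP.nn w0 i u1 u2 (A r z) (g r) kap lam K
        (x r z) (ed M.toMS (5 * T) r w) w)) := by
  have hσ : Stp (nd (X := X) (β := β) D TP.nn W) (ed M.toMS (5 * T) r) := ed_stp hO HS (5 * T) r
  have hsup : ∀ w, (WE tb ∅ (TP.nn r) z).p w ≠ 0 → sgt D ∅ (TP.nn r) w = sgt D ∅ (TP.nn r) z := fun w hw =>
    ((WE_supp tb).1 hw).2
  refine ⟨?_, ?_, ?_⟩
  · exact mul_le_mul_of_nonneg_left (cv_nd (tm := TP.nn) (wo_WE tb ∅ (TP.nn r) z) hV (hz r)) l0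
  · refine (pay_w (P := WE tb ∅ (TP.nn r) z) (w0 := w0) (i := i) (u1 := u1) (u2 := u2) (A := A r z) TP.nn_succ hK k0 t0 l0
      L0 (hL r) (hL' r) e0 he hth hσ (x r z)).trans (le_of_eq ?_)
    congr 1
    refine FP.E_congr _ fun w hw => ?_
    unfold vl
    have e1 := nmr_W (tb := tb) (w0 := w0) (i := i) (u1 := u1) (u2 := u2) (g := g) (kap := kap) (lam := lam) (th := th)
      (K := K) hA hx (hsup w hw) (ed M.toMS (5 * T) r w)
    have e2 := ltr_W (tb := tb) (w0 := w0) (i := i) (u1 := u1) (u2 := u2) (g := g) (kap := kap) (lam := lam) (th := th)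
      (K := K) (ep1 := ep1) hA hx (hsup w hw) (ed M.toMS (5 * T) r w)
    rw [e1, propext e2, ← hA r w z (hsup w hw)]
  · refine le_trans (le_of_eq ?_) (ne_w (P := WE tb ∅ (TP.nn r) z) (w0 := w0) (i := i) (u1 := u1) (u2 := u2) (A := A r z)
      (th := th) TP.nn_succ hK hσ (x r z))
    congr 1
    refine FP.Pr_congr _ fun w hw => ?_
    have e1 := nmr_W (tb := tb) (w0 := w0) (i := i) (u1 := u1) (u2 := u2) (g := g) (kap := kap) (lam := lam) (th := th)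
      (K := K) hA hx (hsup w hw) (ed M.toMS (5 * T) r w)
    rw [e1]

end

end Pool.Agent.GMH.PayP
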