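import Pool.Agent.GMH.PayP7

/-!
# GMH/PayP8 (helper75): PUBLIC COVERS BY OWN ROWS, THE THEOREM

* `payx` : for rows of all worlds; `payp` : in the mean over the samples.
-/

set_option autoImplicit false
set_option linter.unusedSectionVars false

namespace Pool.Agent.GMH.PayP

open Finset Pool.Agent.PWZ Pool.Agent.M3 Pool.Agent.GM Pool.Agent.GM.Harm Pool.Agent.GMH Pool.Agent.GMH.PayM
open Pool.Agent.GMH.PayS Pool.Agent.GMH.PayQ
open Pool.Agent.GMH.V3 Pool.Agent.GMH.V3.TG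
open Pool.Agent.GMH.TP (FQ ZbQ ZQ NPq SL)
open Pool.Agent.GMH.Gdy Pool.Agent.GMH.Dy Pool.Agent.GMH.TabF Pool.Agent.GMH.TabZ
open Pool.Agent.GMH.CK Pool.Agent.GMH.MV Pool.Agent.GMH.MVI Pool.Agent.GMH.GhoZ Pool.Agent.GMH.GhoZ3
open Pool.Agent.GMH.GdyN (dl dec Cd)
open Pool.Agent.GMH.UV (US Seen)
open Pool.Agent.GMH.PayI (up sgt_up bk_pt ex_pt)

noncomputable section

variable {X β γ φ : Type} [Fintype X] [Fintype β] [Fintype φ] [Nonempty X] [Nonempty β]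
variable {D : HD (Fin 3) X β γ φ} {al : ℝ} {h : D.Thick al}
variable {v : ℕ → Finset (Fin 3) → X → (Fin 3 → β) → Pt (Fin 3) X β φ}
variable {prr : ℕ → Fin 3 → φ → φ} {T : ℕ} {W : Type} [Fintype W] {tb : Tab D prr T W}
variable {M : US (Om W X β)} {i u1 u2 : Fin 3}
variable {A : ℕ → Om W X β → ℕ → Om W X β → Prop} {g : ℕ → Om W X β → ℝ} {C0 C1 C2 : Type} {m0 m1 m2 eps : ℝ} {Nn : ℕ}
variable {w0 : Om W X β} {N : ℕ} {x : ℕ → Om W X β → Fin N → Om W X β} {kap lam th ep1 : ℝ} {K : ℕ}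

theorem up_sgt {t m : ℕ} (hm : m ≤ t) {Kx : Finset (Fin 3)} (w1 : Om W X β) {a b : Pt (Fin 3) X β φ}
    (hab : (a.1, BB D t Kx a) = (b.1, BB D t Kx b)) : sgt D Kx m (up w1 a) = sgt D Kx m (up w1 b) := by
  obtain ⟨h1, h2⟩ := Prod.mk.inj hab
  obtain ⟨h3, -, h4⟩ := BB_eq.1 h2
  exact sgt_eq.2 ⟨h1, fun j hj => h3 j hj, fun j => Dy.qb_mono hm (h4 j)⟩

theorem nn_cl (s : ℕ) : TP.nn s ≤ cl s := PayI.nn_le_of (cl_ge s)

/-! ### hint values of the world of the point -/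

section hints

variable (O : Own h v tb M i u1 u2 A g C0 C1 C2 m0 m1 m2 eps Nn) (cd : ℕ → ℕ → Om W X β → Cd (5 * T + 1) N Nn)
variable (x)

/-- code of the names -/
def cd' (r s : ℕ) (w : Om W X β) : Cd (5 * T + 1) N Nn := if r ≤ s then cd r s w else fun _ => Option.none

/-- public hint -/
def pv (r s : ℕ) (w : Om W X β) : Cs N Nn × (Fin Nn → Option C0) :=
  (strip (cd' cd r s w), hb (cd' cd r s w) r s (h0 O r (x r w) w))

def q1 (r s : ℕ) (w : Om W X β) : Fin Nn → Option C1 := hb (cd' cd r s w) r s (h1' O r (x r w) w)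

def q2 (r s : ℕ) (w : Om W X β) : Fin Nn → Option C2 := hb (cd' cd r s w) r s (h2' O r (x r w) w)

variable {x cd}

theorem cd'_fac (hc : ∀ r s, r ≤ s → Fac (sgt D ∅ (TP.nn s)) (cd r s)) (r s : ℕ) : Fac (sgt D ∅ (TP.nn s)) (cd' cd r s) := by
  intro a b hab
  unfold cd'
  by_cases hrs : r ≤ s
  · rw [if_pos hrs, if_pos hrs, hc r s hrs a b hab]
  · rw [if_neg hrs, if_neg hrs]

theorem pv_fac (hx : ∀ r z z', sgt D ∅ (TP.nn r) z = sgt D ∅ (TP.nn r) z' → x r z = x r z')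
    (hc : ∀ r s, r ≤ s → Fac (sgt D ∅ (TP.nn s)) (cd r s)) (r s : ℕ) : Fac (sgt D ∅ (TP.nn s)) (pv x O cd r s) := by
  intro a b hab
  have e1 := cd'_fac hc r s a b hab
  unfold pv
  rw [e1]
  congr 1
  refine hb_congr fun t j hrt hts => ?_
  have e2 : x r a = x r b := hx r a b (sgt_le (TP.nn_mono (hrt.trans hts)) hab)
  exact b0_mx O hrt (TP.nn_mono hts) hab (by rw [e2])

theorem sgt_emp {m : ℕ} {E : Finset (Fin 3)} {a b : Om W X β} (hab : sgt D E m a = sgt D E m b) :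
    sgt D ∅ m a = sgt D ∅ m b := by
  rw [sgt_eq] at hab ⊢
  exact ⟨hab.1, fun j hj => absurd hj (Finset.notMem_empty j), hab.2.2⟩

theorem q1_fac (hx : ∀ r z z', sgt D ∅ (TP.nn r) z = sgt D ∅ (TP.nn r) z' → x r z = x r z')
    (hc : ∀ r s, r ≤ s → Fac (sgt D ∅ (TP.nn s)) (cd r s)) (r s : ℕ) : Fac (sgt D {u1} (TP.nn s)) (q1 x O cd r s) := by
  intro a b hab
  have e1 := cd'_fac hc r s a b (sgt_emp hab)
  unfold q1
  rw [e1]
  refine hb_congr fun t j hrt hts => ?_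
  have e2 : x r a = x r b := hx r a b (sgt_le (TP.nn_mono (hrt.trans hts)) (sgt_emp hab))
  exact b1_mx O hrt (TP.nn_mono hts) hab (by rw [e2])

theorem q2_fac (hx : ∀ r z z', sgt D ∅ (TP.nn r) z = sgt D ∅ (TP.nn r) z' → x r z = x r z')
    (hc : ∀ r s, r ≤ s → Fac (sgt D ∅ (TP.nn s)) (cd r s)) (r s : ℕ) : Fac (sgt D {u2} (TP.nn s)) (q2 x O cd r s) := by
  intro a b hab
  have e1 := cd'_fac hc r s a b (sgt_emp hab)
  unfold q2
  rw [e1]
  refine hb_congr fun t j hrt hts => ?_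
  have e2 : x r a = x r b := hx r a b (sgt_le (TP.nn_mono (hrt.trans hts)) (sgt_emp hab))
  exact b2_mx O hrt (TP.nn_mono hts) hab (by rw [e2])

end hints

/-- the event of the payment -/
def Ev (v : ℕ → Finset (Fin 3) → X → (Fin 3 → β) → Pt (Fin 3) X β φ) (tb : Tab D prr T W) (M : US (Om W X β))
    (nm : ℕ → ℕ → Om W X β → List ((ℕ × Om W X β) × Bool)) (lt : ℕ → ℕ → Om W X β → Prop) (r e s : ℕ)
    (w : Om W X β) : Prop := Lf (enO T M) (ltL v tb) r e s w ∧ (lt r s w ∧ nm r s w ≠ [])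

variable {nm : ℕ → ℕ → Om W X β → List ((ℕ × Om W X β) × Bool)} {lt : ℕ → ℕ → Om W X β → Prop}
  {cd : ℕ → ℕ → Om W X β → Cd (5 * T + 1) N Nn}

theorem Lf_np (HS : Seen M) (hNP : ∀ q w w', NPo tb v q w = NPo tb v q w' → M.NP q w = M.NP q w') (r e s : ℕ) :
    Fac (NPo tb v s) (Lf (enO T M) (ltL v tb) r e s) :=
  Lf_fac (A := fun q => NPo tb v q) (fun q => MVI.NPo_fac tb q) (fun q => enO_fac HS hNP q) (fun q => ltL_NPo q) r e le_rfl

theorem Ev_fac (hv : Codes D v) (HS : Seen M) (hNP : ∀ q w w', NPo tb v q w = NPo tb v q w' → M.NP q w = M.NP q w')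
    (hN : Nmd tb i u1 u2 A x nm lt cd) (r e s : ℕ) : Fac (sgt D ∅ (TP.nn s)) (Ev v tb M nm lt r e s) := by
  intro a b hab
  have e1 := sgt_np hv s (Lf_np HS hNP r e s) a b hab
  unfold Ev
  rw [e1]
  refine propext (and_congr_right fun hL => ?_)
  have hrs : r ≤ s := hL.1.le
  rw [hN.lf r s hrs a b hab, hN.nf r s hrs a b hab]

theorem life_E (F : ℕ → ℕ → ℕ → Om W X β → ℝ) :
    ∑ s ∈ range (5 * T + 1), ∑ r ∈ range (5 * T + 1), ∑ e ∈ range (5 * T + 1),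
      tb.Ps.E (fun w => ind (Lf (enO T M) (ltL v tb) r e s w) * F r e s w) =
    ∑ r ∈ range (5 * T), tb.Ps.E (fun w => ind (MV.nu M.toMS r w = r) * F r (Dy.eT v tb r w) (ed M.toMS (5 * T) r w) w) := by
  simp only [← FP.E_sum]
  exact tb.Ps.E_congr fun w _ => life_sum (fun r e s => F r e s w) w

variable {dg : ℕ → X → ℝ} {Lam n N1 : ℝ}

/-- **THE PAYMENTS OF ALL PUBLIC LIVES**, names as data -/
theorem pay_data (H : D.Hyp dg prr al T Lam) (R : Run h (pr3 (Fin 3) n N1) (SS1 (Fin 3)) (AdmDep D) v) (hn : 1 ≤ n)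
    (hN1 : 1 ≤ N1) (hO : OnS M tb TP.nn) (HS : Seen M)
    (hNP : ∀ q w w', NPo tb v q w = NPo tb v q w' → M.NP q w = M.NP q w') (hV : V3 i u1 u2)
    (O : Own h v tb M i u1 u2 A g C0 C1 C2 m0 m1 m2 eps Nn) (hm0 : 0 ≤ m0) (hm1 : 0 ≤ m1) (hm2 : 0 ≤ m2)
    (hx : Rw tb M w0 i u1 u2 x) (hN : Nmd tb i u1 u2 A x nm lt cd) {th1 : ℝ} (t1 : 0 < th1) (t1' : th1 ≤ 1) :
    n * N1 * (∑ r ∈ range (5 * T), tb.Ps.E (fun w => ind (MV.nu M.toMS r w = r) *
        vl w0 i u1 u2 A g nm lt r (ed M.toMS (5 * T) r w) w) -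
      eps * ∑ r ∈ range (5 * T), tb.Ps.E (fun w => ind (MV.nu M.toMS r w = r) *
        ind (lt r (ed M.toMS (5 * T) r w) w ∧ nm r (ed M.toMS (5 * T) r w) w ≠ []))) ≤
      n * N1 * (5 * Lam) + (4 * (Real.log (1 / th1) + 1) + 2 * (Real.log (((N * 2 + 1 : ℕ) : ℝ) ^ Nn *
        (1 + m0) ^ Nn) + N1 * (Real.log ((1 + m1) ^ Nn) + Real.log ((1 + m2) ^ Nn)))) *
        ∑ r ∈ range (5 * T), tb.Ps.E (fun w => ind (MV.nu M.toMS r w = r) *
          ind (lt r (ed M.toMS (5 * T) r w) w ∧ nm r (ed M.toMS (5 * T) r w) w ≠ [])) +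
      4 * Real.sqrt th1 * ∑ r ∈ range (5 * T), tb.Ps.E (fun w => ind (MV.nu M.toMS r w = r) * 1) := by
  classical
  have hv : Codes D v := R.codes
  obtain ⟨w1, hw1⟩ := tb.Ps.exists_p_ne
  have u1i : u1 ≠ i := fun hh => hV.bc hh.symm
  have u2i : u2 ≠ i := fun hh => hV.bd hh.symm
  -- facts out of the event
  have hEv : ∀ {r e s : ℕ} {w : Om W X β}, s ≤ 5 * T → Ev v tb M nm lt r e s w → r < 5 * T ∧ r < s ∧
      MV.nu M.toMS r w = r ∧ ed M.toMS (5 * T) r w = s ∧ e = Dy.eT v tb r w := by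
    intro r e s w hs hE
    have h1 := hE.1.1
    have h2 : r < 5 * T := by omega
    exact ⟨h2, h1, (Lf_ed h2 w).1 hE.1⟩
  have hpos : ∀ u : Pt (Fin 3) X β φ, tb.Ps.p (up w1 u) ≠ 0 := sp_up hw1
  have hM0 : (1 : ℝ) ≤ ((N * 2 + 1 : ℕ) : ℝ) ^ Nn * (1 + m0) ^ Nn := by
    refine one_le_mul_of_one_le_of_one_le (one_le_pow₀ ?_) (one_le_pow₀ (by linarith))
    exact_mod_cast Nat.succ_le_succ (Nat.zero_le _)
  have hM1 : (1 : ℝ) ≤ (1 + m1) ^ Nn := one_le_pow₀ (by linarith)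
  have hM2 : (1 : ℝ) ≤ (1 + m2) ^ Nn := one_le_pow₀ (by linarith)
  have key := payq_pub (i := i) (u1 := u1) (u2 := u2) h H R hn hN1
    (en := fun q u => enO T M q (up w1 u)) (tl := fun q u => ltL v tb q (up w1 u))
    (fun q _ => zb_np hV q w1 (enO_fac HS hNP q)) (fun q _ => zb_np hV q w1 (ltL_NPo q))
    (fun s _ r e => cls_np (cl_ge s) w1 (Lf_np HS hNP r e s)) u1i u2i hV.cd
    (pub := fun s r _ u => pv x O cd r s (up w1 u)) (g1 := fun s r _ u => q1 x O cd r s (up w1 u))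
    (g2 := fun s r _ u => q2 x O cd r s (up w1 u))
    (fun s _ r _ a b hab => pv_fac O hx.c hN.cf r s _ _ (up_sgt (nn_cl s) w1 hab))
    (fun s _ r _ a b hab => q1_fac O hx.c hN.cf r s _ _ (up_sgt (nn_cl s) w1 hab))
    (fun s _ r _ a b hab => q2_fac O hx.c hN.cf r s _ _ (up_sgt (nn_cl s) w1 hab))
    (test := fun s r e c a b u => tst O r e c a b u - eps)
    (fun s _ r e c a b y z hyz => by
      show tst O r e c a b y - eps = tst O r e c a b z - eps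
      rw [tst_fac O r e c a b y z hyz])
    (E := fun s r e u => Ev v tb M nm lt r e s (up w1 u))
    (fun s _ r e a b hab => Ev_fac hv HS hNP hN r e s _ _ (up_sgt (nn_cl s) w1 hab))
    (fun s _ r e u hE => hE.1)
    ?hone hM0 hM1 hM2 ?c0 ?c1 ?c2 t1 t1'
  case hone =>
    intro s hs r e u hu hE
    obtain ⟨w, hw, rfl⟩ := ex_pt h tb (PayQ.cl_le hs) hu
    have s0 : ∀ E m, sgt D E m (up w1 (tb.pt (cl s) w)) = sgt D E m w := fun E m => sgt_up w1 E m (cl s) w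
    have hE' : Ev v tb M nm lt r e s w := Ev_fac hv HS hNP hN r e s _ _ (s0 ∅ (TP.nn s)) ▸ hE
    obtain ⟨hr, hrs, hnu, hed, hee⟩ := hEv hs hE'
    have hec : e ≤ 5 * cl s := Lf_le hE'.1
    have e1 : bk prr (e / 5) (cl s) (tb.pt (cl s) w) = tb.pt (e / 5) w := bk_pt tb (by omega) (PayQ.cl_le hs) hw
    have e2 := pv_fac O hx.c hN.cf r s _ _ (s0 ∅ (TP.nn s))
    have e3 := q1_fac O hx.c hN.cf r s _ _ (s0 {u1} (TP.nn s))
    have e4 := q2_fac O hx.c hN.cf r s _ _ (s0 {u2} (TP.nn s))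
    have e5 : cd' cd r s w = cd r s w := if_pos hrs.le
    have h3 := hone_own (s := s) O hr hw hnu (c := cd r s w) (y := x r w) (fun j => hx.fit r hr w j hw hnu)
      (fun k p hk => (cd_lev hN hs hw hk).1)
    show (D.P h (e / 5)).ce (ZbQ D v e i) (fun u => Real.exp (tst O r e (pv x O cd r s (up w1 (tb.pt (cl s) w)))
      (q1 x O cd r s (up w1 (tb.pt (cl s) w))) (q2 x O cd r s (up w1 (tb.pt (cl s) w))) u - eps))
      (bk prr (e / 5) (cl s) (tb.pt (cl s) w)) ≤ 1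
    rw [e1, e2, e3, e4]
    unfold pv q1 q2
    rw [e5]
    rw [← hee] at h3
    have e6 : ∀ y : ℝ, Real.exp (y - eps) = Real.exp (-eps) * Real.exp y := fun y => by
      rw [← Real.exp_add]
      congr 1
      ring
    simp only [e6]
    rw [FP.ce_smul]
    have h4 := mul_le_mul_of_nonneg_left h3 (Real.exp_pos (-eps)).le
    rwa [← Real.exp_add, neg_add_cancel, Real.exp_zero] at h4
  case c0 =>
    intro s hs r e u hu hE
    obtain ⟨hr, hrs, hnu, hed, hee⟩ := hEv hs hE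
    obtain ⟨S, hS1, hS2⟩ := c0_om hv O hO HS hx hN hm0 hr hrs.le hs (hpos u) hnu
    refine ⟨S, hS1, fun u' hu' hE' hcl => ?_⟩
    obtain ⟨_, _, hnu', _, hee'⟩ := hEv hs hE'
    have h1 := hS2 (up w1 u') (hpos u') hnu' (hee'.symm.trans hee) ?_
    · show pv x O cd r s (up w1 u') ∈ S
      unfold pv cd'
      rw [if_pos hrs.le]
      exact h1
    · rw [Clq_up (by simp), Clq_up (by simp)]
      refine Clq_Cls ?_ u' u hcl
      rw [eT_nn]
      exact (TP.nn_mono hrs.le).trans (nn_cl s)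
  case c1 =>
    intro s hs r e u hu hE
    obtain ⟨hr, hrs, hnu, hed, hee⟩ := hEv hs hE
    obtain ⟨S, hS1, hS2⟩ := c1_om (cd := cd) (s := s) O hx hm1 hr (hpos u) hnu
    refine ⟨S, hS1, fun u' hu' hE' hpub hcl => ?_⟩
    obtain ⟨_, _, hnu', _, hee'⟩ := hEv hs hE'
    have h1 := hS2 (up w1 u') (hpos u') hnu' (hee'.symm.trans hee) ?_ ?_
    · show q1 x O cd r s (up w1 u') ∈ S
      unfold q1 cd'
      rw [if_pos hrs.le]
      exact h1
    · rw [Clq_up (by simp), Clq_up (by simp)]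
      refine Clq_Cls ?_ u' u hcl
      rw [eT_nn]
      exact (TP.nn_mono hrs.le).trans (nn_cl s)
    · have h2 : pv x O cd r s (up w1 u') = pv x O cd r s (up w1 u) := hpub
      unfold pv cd' at h2
      rw [if_pos hrs.le, if_pos hrs.le] at h2
      exact h2
  case c2 =>
    intro s hs r e u hu hE
    obtain ⟨hr, hrs, hnu, hed, hee⟩ := hEv hs hE
    obtain ⟨S, hS1, hS2⟩ := c2_om (cd := cd) (s := s) O hx hm2 hr (hpos u) hnu
    refine ⟨S, hS1, fun u' hu' hE' hpub hcl => ?_⟩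
    obtain ⟨_, _, hnu', _, hee'⟩ := hEv hs hE'
    have h1 := hS2 (up w1 u') (hpos u') hnu' (hee'.symm.trans hee) ?_ ?_
    · show q2 x O cd r s (up w1 u') ∈ S
      unfold q2 cd'
      rw [if_pos hrs.le]
      exact h1
    · rw [Clq_up (by simp), Clq_up (by simp)]
      refine Clq_Cls ?_ u' u hcl
      rw [eT_nn]
      exact (TP.nn_mono hrs.le).trans (nn_cl s)
    · have h2 : pv x O cd r s (up w1 u') = pv x O cd r s (up w1 u) := hpub
      unfold pv cd' at h2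
      rw [if_pos hrs.le, if_pos hrs.le] at h2
      exact h2
  -- transport
  have tE : ∀ s ∈ range (5 * T + 1), ∀ r ∈ range (5 * T + 1), ∀ e ∈ range (5 * T + 1),
      (D.P h (cl s)).E (fun u => ind (Ev v tb M nm lt r e s (up w1 u)) *
        (tst O r e (pv x O cd r s (up w1 u)) (q1 x O cd r s (up w1 u)) (q2 x O cd r s (up w1 u))
          (bk prr (e / 5) (cl s) u) - eps)) =
      tb.Ps.E (fun w => ind (Lf (enO T M) (ltL v tb) r e s w) * (vl w0 i u1 u2 A g nm lt r s w -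
        eps * ind (lt r s w ∧ nm r s w ≠ []))) := by
    intro s hs r _ e _
    have hs' : s ≤ 5 * T := Nat.lt_succ_iff.1 (mem_range.1 hs)
    rw [← (pul_pt h tb (PayQ.cl_le hs')).E]
    refine tb.Ps.E_congr fun w hw => ?_
    have s0 : ∀ E m, sgt D E m (up w1 (tb.pt (cl s) w)) = sgt D E m w := fun E m => sgt_up w1 E m (cl s) w
    rw [Ev_fac hv HS hNP hN r e s _ _ (s0 ∅ (TP.nn s)), pv_fac O hx.c hN.cf r s _ _ (s0 ∅ (TP.nn s)),
      q1_fac O hx.c hN.cf r s _ _ (s0 {u1} (TP.nn s)), q2_fac O hx.c hN.cf r s _ _ (s0 {u2} (TP.nn s))]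
    by_cases hL : Lf (enO T M) (ltL v tb) r e s w
    · by_cases hB : lt r s w ∧ nm r s w ≠ []
      · have hE : Ev v tb M nm lt r e s w := ⟨hL, hB⟩
        obtain ⟨hr, hrs, hnu, hed, hee⟩ := hEv hs' hE
        have hec : e ≤ 5 * cl s := Lf_le hL
        have e1 : bk prr (e / 5) (cl s) (tb.pt (cl s) w) = tb.pt (e / 5) w := bk_pt tb (by omega) (PayQ.cl_le hs') hw
        have e5 : cd' cd r s w = cd r s w := if_pos hrs.le
        have h3 := dl_own (s := s) O hv hV hO HS hr (c := cd r s w) (y := x r w) (hx.u r w) (hx.h1 r w)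
          (fun j => hx.fit r hr w j hw hnu) (fun k p hk => (cd_lev hN hs' hw hk).1)
        rw [hN.ok r s hs' w hw, ← hee] at h3
        unfold vl
        rw [ind_of hE, ind_of hL, ind_of hB, e1, h3]
        unfold pv q1 q2
        rw [e5]
        ring
      · have hE : ¬ Ev v tb M nm lt r e s w := fun hh => hB hh.2
        unfold vl
        rw [ind_not hE, ind_not hB]
        ring
    · have hE : ¬ Ev v tb M nm lt r e s w := fun hh => hL hh.1
      rw [ind_not hE, ind_not hL, zero_mul, zero_mul]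
  have tP : ∀ s ∈ range (5 * T + 1), ∀ r ∈ range (5 * T + 1), ∀ e ∈ range (5 * T + 1),
      (D.P h (cl s)).Pr (fun u => Ev v tb M nm lt r e s (up w1 u)) =
      tb.Ps.E (fun w => ind (Lf (enO T M) (ltL v tb) r e s w) * ind (lt r s w ∧ nm r s w ≠ [])) := by
    intro s hs r _ e _
    have hs' : s ≤ 5 * T := Nat.lt_succ_iff.1 (mem_range.1 hs)
    unfold FP.Pr
    rw [← (pul_pt h tb (PayQ.cl_le hs')).E]
    refine tb.Ps.E_congr fun w hw => ?_
    have s0 : ∀ E m, sgt D E m (up w1 (tb.pt (cl s) w)) = sgt D E m w := fun E m => sgt_up w1 E m (cl s) w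
    show ind (Ev v tb M nm lt r e s (up w1 (tb.pt (cl s) w))) = _
    rw [Ev_fac hv HS hNP hN r e s _ _ (s0 ∅ (TP.nn s))]
    exact ind_and _ _
  have tL : ∀ s ∈ range (5 * T + 1), ∀ r ∈ range (5 * T + 1), ∀ e ∈ range (5 * T + 1),
      (D.P h (cl s)).Pr (Lf (fun q u => enO T M q (up w1 u)) (fun q u => ltL v tb q (up w1 u)) r e s) =
      tb.Ps.E (fun w => ind (Lf (enO T M) (ltL v tb) r e s w) * 1) := by
    intro s hs r _ e _
    have hs' : s ≤ 5 * T := Nat.lt_succ_iff.1 (mem_range.1 hs)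
    unfold FP.Pr
    rw [← (pul_pt h tb (PayQ.cl_le hs')).E]
    refine tb.Ps.E_congr fun w hw => ?_
    have s0 : ∀ E m, sgt D E m (up w1 (tb.pt (cl s) w)) = sgt D E m w := fun E m => sgt_up w1 E m (cl s) w
    rw [mul_one]
    show ind (Lf (enO T M) (ltL v tb) r e s (up w1 (tb.pt (cl s) w))) = _
    rw [sgt_np hv s (Lf_np HS hNP r e s) _ _ (s0 ∅ (TP.nn s))]
  rw [Finset.sum_congr rfl fun s hs => Finset.sum_congr rfl fun r hr => Finset.sum_congr rfl fun e he => tE s hs r hr e he,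
    Finset.sum_congr rfl fun s hs => Finset.sum_congr rfl fun r hr => Finset.sum_congr rfl fun e he => tP s hs r hr e he,
    Finset.sum_congr rfl fun s hs => Finset.sum_congr rfl fun r hr => Finset.sum_congr rfl fun e he => tL s hs r hr e he,
    life_E (fun r _ s w => vl w0 i u1 u2 A g nm lt r s w - eps * ind (lt r s w ∧ nm r s w ≠ [])),
    life_E (fun r _ s w => ind (lt r s w ∧ nm r s w ≠ [])), life_E (fun _ _ _ _ => 1)] at key
  refine le_trans (le_of_eq ?_) key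
  congr 1
  rw [Finset.mul_sum, ← Finset.sum_sub_distrib]
  refine Finset.sum_congr rfl fun r _ => ?_
  rw [← FP.E_smul, ← FP.E_sub]
  refine tb.Ps.E_congr fun w _ => ?_
  ring

/-- **THE COVERS OF ALL PUBLIC LIVES**, rows of all worlds -/
theorem payx (H : D.Hyp dg prr al T Lam) (R : Run h (pr3 (Fin 3) n N1) (SS1 (Fin 3)) (AdmDep D) v) (hn : 1 ≤ n)
    (hN1 : 1 ≤ N1) (hO : OnS M tb TP.nn) (HS : Seen M)
    (hNP : ∀ q w w', NPo tb v q w = NPo tb v q w' → M.NP q w = M.NP q w') (hV : V3 i u1 u2)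
    (O : Own h v tb M i u1 u2 A g C0 C1 C2 m0 m1 m2 eps Nn) (hm0 : 0 ≤ m0) (hm1 : 0 ≤ m1) (hm2 : 0 ≤ m2)
    (hx : Rw tb M w0 i u1 u2 x) {zz : ℕ → ℕ → Om W X β → Prop}
    (hz : ∀ r s w, zz r s w → s ≤ ed M.toMS (5 * T) r w) (hK : 0 < K) (k0 : 0 < kap) (t0 : 0 < th)
    (l0 : 0 ≤ lam) {L : ℝ} (L0 : 0 ≤ L) (hL : ∀ r w, g r w ≤ L) (hL' : ∀ r w, -L ≤ g r w) (e0 : 0 < ep1)
    (he : 4 * L * ep1 ≤ lam * kap) (hth : 4 * L * th ≤ lam * ep1) (hJ : 1 < th * kap * (Nn + 1)) {th1 : ℝ}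
    (t1 : 0 < th1) (t1' : th1 ≤ 1)
    (hA : 8 * (4 * (Real.log (1 / th1) + 1) + 2 * (Real.log (((N * 2 + 1 : ℕ) : ℝ) ^ Nn *
        (1 + m0) ^ Nn) + N1 * (Real.log ((1 + m1) ^ Nn) + Real.log ((1 + m2) ^ Nn))) + n * N1 * eps) ≤
      lam * (th * kap) * (n * N1)) :
    lam * ∑ r ∈ range (5 * T), tb.Ps.E (fun z => ind (MV.nu M.toMS r z = r) *
      cz (WE tb ∅ (TP.nn r) z) (zz r) (cv (WE tb ∅ (TP.nn r) z) (UU w0 i u1 u2) (VW w0 i u1 u2)
        (fun s => si D ∅ {u1, u2} ∅ (TP.nn s)) (A r z) (ts {i} {u1, u2} (g r)) kap lam K (x r z))) ≤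
      40 * Lam + 32 * Real.sqrt th1 * ∑ r ∈ range (5 * T), tb.Ps.Pr (fun w => MV.nu M.toMS r w = r) := by
  have key := pay_data H R hn hN1 hO HS hNP hV O hm0 hm1 hm2 hx
    (nmd_of (lam := lam) (ep1 := ep1) O hV hx hK k0 t0 hJ) t1 t1'
  set nm := nmr tb w0 i u1 u2 A g kap lam K th x with hnm
  set lt := ltr tb w0 i u1 u2 A g kap lam K th ep1 x with hlt
  set VL := ∑ r ∈ range (5 * T), tb.Ps.E (fun w => ind (MV.nu M.toMS r w = r) *
        vl w0 i u1 u2 A g nm lt r (ed M.toMS (5 * T) r w) w) with hVL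
  set NN := ∑ r ∈ range (5 * T), tb.Ps.E (fun w => ind (MV.nu M.toMS r w = r) *
        ind (lt r (ed M.toMS (5 * T) r w) w ∧ nm r (ed M.toMS (5 * T) r w) w ≠ [])) with hNN
  set VV := ∑ r ∈ range (5 * T), tb.Ps.E (fun z => ind (MV.nu M.toMS r z = r) *
      (WE tb ∅ (TP.nn r) z).Pr (fun w => cN (WE tb ∅ (TP.nn r) z) D TP.nn w0 i u1 u2 (A r z) (g r) kap lam K
        (x r z) (ed M.toMS (5 * T) r w) w)) with hVV
  have hr := fun (r : ℕ) (z : Om W X β) => pay_r (tb := tb) (w0 := w0) (A := A) (g := g) (x := x) hO HS hV O.Aw hx.c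
    hz hK k0 t0 l0 L0 hL hL' e0 he hth r z
  have a1 : lam * ∑ r ∈ range (5 * T), tb.Ps.E (fun z => ind (MV.nu M.toMS r z = r) *
      cz (WE tb ∅ (TP.nn r) z) (zz r) (cv (WE tb ∅ (TP.nn r) z) (UU w0 i u1 u2) (VW w0 i u1 u2)
        (fun s => si D ∅ {u1, u2} ∅ (TP.nn s)) (A r z) (ts {i} {u1, u2} (g r)) kap lam K (x r z))) ≤ lam * VV := by
    rw [hVV, Finset.mul_sum, Finset.mul_sum]
    refine Finset.sum_le_sum fun r _ => ?_
    rw [← FP.E_smul, ← FP.E_smul]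
    refine tb.Ps.E_mono fun z _ => ?_
    have h1 := mul_le_mul_of_nonneg_left (hr r z).1 (ind_nonneg (MV.nu M.toMS r z = r))
    refine (le_of_eq ?_).trans (h1.trans (le_of_eq ?_))
    · ring
    · ring
  have a2 : lam * VV ≤ 4 * VL := by
    rw [hVV, hVL, Finset.mul_sum, Finset.mul_sum]
    refine Finset.sum_le_sum fun r _ => ?_
    rw [start_avg' hO HS r (fun w => vl w0 i u1 u2 A g nm lt r (ed M.toMS (5 * T) r w) w), ← FP.E_smul, ← FP.E_smul]
    refine tb.Ps.E_mono fun z _ => ?_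
    have h1 := mul_le_mul_of_nonneg_left (hr r z).2.1 (ind_nonneg (MV.nu M.toMS r z = r))
    refine (le_of_eq ?_).trans (h1.trans (le_of_eq ?_))
    · ring
    · ring
  have a3 : th * kap * NN ≤ VV := by
    rw [hVV, hNN, Finset.mul_sum]
    refine Finset.sum_le_sum fun r _ => ?_
    rw [start_avg' hO HS r, ← FP.E_smul]
    refine tb.Ps.E_mono fun z _ => ?_
    have h1 := mul_le_mul_of_nonneg_left (hr r z).2.2 (ind_nonneg (MV.nu M.toMS r z = r))
    refine le_trans ?_ h1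
    have h2 : (WE tb ∅ (TP.nn r) z).E (fun w => ind (lt r (ed M.toMS (5 * T) r w) w ∧
        nm r (ed M.toMS (5 * T) r w) w ≠ [])) ≤
        (WE tb ∅ (TP.nn r) z).Pr (fun w => nm r (ed M.toMS (5 * T) r w) w ≠ []) :=
      FP.E_mono _ fun w _ => ind_mono fun hh => hh.2
    have h3 := mul_le_mul_of_nonneg_left h2 (mul_nonneg t0.le k0.le)
    have h4 := mul_le_mul_of_nonneg_left h3 (ind_nonneg (MV.nu M.toMS r z = r))
    refine (le_of_eq ?_).trans h4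
    ring
  have e1 : ∑ r ∈ range (5 * T), tb.Ps.E (fun w => ind (MV.nu M.toMS r w = r) * 1) =
      ∑ r ∈ range (5 * T), tb.Ps.Pr (fun w => MV.nu M.toMS r w = r) := by
    refine Finset.sum_congr rfl fun r _ => ?_
    unfold FP.Pr
    exact tb.Ps.E_congr fun w _ => mul_one _
  rw [e1] at key
  set NS := ∑ r ∈ range (5 * T), tb.Ps.Pr (fun w => MV.nu M.toMS r w = r) with hNS
  have NN0 : 0 ≤ NN := Finset.sum_nonneg fun r _ => tb.Ps.E_nonneg fun w _ => mul_nonneg (ind_nonneg _) (ind_nonneg _)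
  have NS0 : 0 ≤ NS := Finset.sum_nonneg fun r _ => tb.Ps.Pr_nonneg _
  have hnN : 1 ≤ n * N1 := one_le_mul_of_one_le_of_one_le hn hN1
  have sq0 := Real.sqrt_nonneg th1
  set Aa := 4 * (Real.log (1 / th1) + 1) + 2 * (Real.log (((N * 2 + 1 : ℕ) : ℝ) ^ Nn *
        (1 + m0) ^ Nn) + N1 * (Real.log ((1 + m1) ^ Nn) + Real.log ((1 + m2) ^ Nn))) with hAa
  have b1 : 8 * (Aa + n * N1 * eps) * NN ≤ lam * (th * kap) * (n * N1) * NN := mul_le_mul_of_nonneg_right hA NN0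
  have b2 : lam * (th * kap) * (n * N1) * NN ≤ n * N1 * (lam * VV) := by
    have h1 := mul_le_mul_of_nonneg_left a3 (mul_nonneg l0 (show 0 ≤ n * N1 by linarith))
    refine (le_of_eq ?_).trans (h1.trans (le_of_eq ?_))
    · ring
    · ring
  have b3 : n * N1 * (lam * VV) ≤ n * N1 * (4 * VL) := mul_le_mul_of_nonneg_left a2 (by linarith)
  have b4 : n * N1 * (lam * VV) ≤ 40 * (n * N1) * Lam + 32 * Real.sqrt th1 * NS := by
    have h1 : n * N1 * (VL - eps * NN) = n * N1 * VL - n * N1 * eps * NN := by ring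
    rw [h1] at key
    have h2 : 8 * (Aa + n * N1 * eps) * NN = 8 * (Aa * NN) + 8 * (n * N1 * eps * NN) := by ring
    rw [h2] at b1
    have h3 : n * N1 * (4 * VL) = 4 * (n * N1 * VL) := by ring
    rw [h3] at b3
    have h4 : n * N1 * (5 * Lam) = 5 * (n * N1 * Lam) := by ring
    rw [h4] at key
    have h5 : 40 * (n * N1) * Lam = 40 * (n * N1 * Lam) := by ring
    rw [h5]
    have h6 : 4 * Real.sqrt th1 * NS = 4 * (Real.sqrt th1 * NS) := by ring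
    rw [h6] at key
    have h7 : 32 * Real.sqrt th1 * NS = 32 * (Real.sqrt th1 * NS) := by ring
    rw [h7]
    linarith
  have b5 : n * N1 * (lam * VV) ≤ n * N1 * (40 * Lam + 32 * Real.sqrt th1 * NS) := by
    have h1 : 0 ≤ 32 * Real.sqrt th1 * NS := by positivity
    have h2 : 32 * Real.sqrt th1 * NS ≤ n * N1 * (32 * Real.sqrt th1 * NS) := le_mul_of_one_le_left h1 hnN
    refine b4.trans ?_
    have h3 : n * N1 * (40 * Lam + 32 * Real.sqrt th1 * NS) = 40 * (n * N1) * Lam + n * N1 * (32 * Real.sqrt th1 * NS) := by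
      ring
    rw [h3]
    linarith
  exact a1.trans (le_of_mul_le_mul_left b5 (by linarith))

/-- **PUBLIC COVERS BY OWN ROWS** (payments (P6), covers D5, D6) -/
theorem payp (H : D.Hyp dg prr al T Lam) (R : Run h (pr3 (Fin 3) n N1) (SS1 (Fin 3)) (AdmDep D) v) (hn : 1 ≤ n)
    (hN1 : 1 ≤ N1) (hO : OnS M tb TP.nn) (HS : Seen M)
    (hNP : ∀ q w w', NPo tb v q w = NPo tb v q w' → M.NP q w = M.NP q w') (w0 : Om W X β) (hV : V3 i u1 u2)
    (O : Own h v tb M i u1 u2 A g C0 C1 C2 m0 m1 m2 eps Nn) (hm0 : 0 ≤ m0) (hm1 : 0 ≤ m1) (hm2 : 0 ≤ m2)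
    {zz : ℕ → ℕ → Om W X β → Prop} (hz : ∀ r s w, zz r s w → s ≤ ed M.toMS (5 * T) r w) (k : Nm)
    (hK : 0 < K) (k0 : 0 < kap) (t0 : 0 < th)
    (l0 : 0 ≤ lam) {L : ℝ} (L0 : 0 ≤ L) (hL : ∀ r w, g r w ≤ L) (hL' : ∀ r w, -L ≤ g r w) (e0 : 0 < ep1)
    (he : 4 * L * ep1 ≤ lam * kap) (hth : 4 * L * th ≤ lam * ep1) (hJ : 1 < th * kap * (Nn + 1)) {th1 : ℝ}
    (t1 : 0 < th1) (t1' : th1 ≤ 1)
    (hA : 8 * (4 * (Real.log (1 / th1) + 1) + 2 * (Real.log (((k.M * 2 + 1 : ℕ) : ℝ) ^ Nn *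
        (1 + m0) ^ Nn) + N1 * (Real.log ((1 + m1) ^ Nn) + Real.log ((1 + m2) ^ Nn))) + n * N1 * eps) ≤
      lam * (th * kap) * (n * N1)) :
    lam * SZ M (5 * T) (fun r z => (Sp (WE tb ∅ (TP.nn r) z) w0 {i} {u1, u2} k).E (fun x =>
      cz (WE tb ∅ (TP.nn r) z) (zz r) (cv (WE tb ∅ (TP.nn r) z) (UU w0 i u1 u2) (VW w0 i u1 u2)
        (fun s => si D ∅ {u1, u2} ∅ (TP.nn s)) (A r z) (ts {i} {u1, u2} (g r)) kap lam K x))) ≤
      40 * Lam + 32 * Real.sqrt th1 * ∑ r ∈ range (5 * T), M.P.Pr (fun w => MV.nu M.toMS r w = r) := by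
  unfold SZ
  rw [hO.hP, coin_avg tb w0 i {u1, u2} TP.nn (5 * T) k tb.Ps (fun r z => ind (MV.nu M.toMS r z = r))
    (fun r z x => cz (WE tb ∅ (TP.nn r) z) (zz r) (cv (WE tb ∅ (TP.nn r) z) (UU w0 i u1 u2) (VW w0 i u1 u2)
        (fun s => si D ∅ {u1, u2} ∅ (TP.nn s)) (A r z) (ts {i} {u1, u2} (g r)) kap lam K x)), ← FP.E_smul]
  refine le_trans (FP.E_mono _ fun θ hθ => payx H R hn hN1 hO HS hNP hV O hm0 hm1 hm2 (rw_smp w0 hθ) hz hK k0 t0 l0 L0
    hL hL' e0 he hth hJ t1 t1' hA) (le_of_eq ?_)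
  exact FP.E_const _ _

end

end Pool.Agent.GMH.PayP
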