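import Pool.Agent.GMH.PayR0
import Pool.Agent.GMH.PayP8
import Pool.Agent.GMH.ConT7

/-!
# GMH/PayPB: the payment of one public cover in the form of `GMH/UV0P`, with numbers (helper52)

* `PNum` : the numbers of a public payment; `PZ_pay` : `lam * PZ ≤ 40 Lam + 32 sqrt th1 NS` out of `PayP.payp` (helper75);
* `pays` : `Pays` of `GMH/PayR0` with `B = (40 Lam + 32 sqrt th1 NS) / lam`;
* `pnum` : `PNum` for the numbers of `GMH/ConT7` (helper42), `m0 = 2 exp X0`, `m1 = m2 = 2 / al`.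
-/

set_option autoImplicit false
set_option linter.unusedSectionVars false

namespace Pool.Agent.GMH.PayPI

open Finset Pool.Agent.PWZ Pool.Agent.M3 Pool.Agent.GM Pool.Agent.GM.Harm Pool.Agent.GMH Pool.Agent.GMH.PayM
open Pool.Agent.GMH.PayS hiding eT
open Pool.Agent.GMH.TP Pool.Agent.GMH.V3 Pool.Agent.GMH.V3.TG Pool.Agent.GMH.Dy Pool.Agent.GMH.TabF
open Pool.Agent.GMH.PayP (Own OnS ed)
open Pool.Agent.GMH.UV (US Seen tv)
open Pool.Agent.GMH.MV (nu CN)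
open Pool.Agent.GMH.MVI (NPo XLo)
open Pool.Agent.GMH.TabZ (V3 Nm)
open Pool.Agent.GMH.UV0P (PZ)

noncomputable section

variable {X β γ φ : Type} [Fintype X] [Fintype β] [Fintype φ] [Nonempty X] [Nonempty β]
variable {D : HD (Fin 3) X β γ φ} {al : ℝ} {h : D.Thick al}
variable {v : ℕ → Finset (Fin 3) → X → (Fin 3 → β) → Pt (Fin 3) X β φ}
variable {prr : ℕ → Fin 3 → φ → φ} {T : ℕ} {W : Type} [Fintype W] {tb : Tab D prr T W}
variable {M : US (Om W X β)} {i u1 u2 : Fin 3}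

/-- number of the values of a public list (it does not see the horizon) -/
def M0p (k : Nm) (m0 : ℝ) (Nn _T : ℕ) : ℝ := ((k.M * 2 + 1 : ℕ) : ℝ) ^ Nn * (1 + m0) ^ Nn

/-- **the numbers of a public payment** -/
structure PNum (n N1 : ℝ) (k : Nm) (T : ℕ) (lam m0 m1 m2 eps : ℝ) (Nn : ℕ) (L ep1 th th1 : ℝ) : Prop where
  hn : 1 ≤ n
  hN1 : 1 ≤ N1
  m0' : 0 ≤ m0
  m1' : 0 ≤ m1
  m2' : 0 ≤ m2
  hK : 0 < k.K
  k0 : 0 < k.kap
  t0 : 0 < th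
  l0 : 0 ≤ lam
  L0 : 0 ≤ L
  e0 : 0 < ep1
  he : 4 * L * ep1 ≤ lam * k.kap
  hth : 4 * L * th ≤ lam * ep1
  hJ : 1 < th * k.kap * (Nn + 1)
  t1 : 0 < th1
  t1' : th1 ≤ 1
  hA : 8 * (4 * (Real.log (1 / th1) + 1) + 2 * (Real.log (M0p k m0 Nn T) +
      N1 * (Real.log ((1 + m1) ^ Nn) + Real.log ((1 + m2) ^ Nn))) + n * N1 * eps) ≤ lam * (th * k.kap) * (n * N1)

section pay

variable {dg : ℕ → X → ℝ} {Lam n N1 : ℝ} {w0 : Om W X β} {k : Nm} {zz : ℕ → ℕ → Om W X β → Prop}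
  {A : ℕ → Om W X β → ℕ → Om W X β → Prop} {g : ℕ → Om W X β → ℝ} {C0 C1 C2 : Type} {m0 m1 m2 eps : ℝ} {Nn : ℕ}
  {lam L ep1 th th1 : ℝ}

/-- **THE PAYMENT OF ONE PUBLIC COVER** -/
theorem PZ_pay (H : D.Hyp dg prr al T Lam) (R : Run h (pr3 (Fin 3) n N1) (SS1 (Fin 3)) (AdmDep D) v)
    (hO : OnS M tb TP.nn) (HS : Seen M) (hNP : ∀ q w w', NPo tb v q w = NPo tb v q w' → M.NP q w = M.NP q w')
    (hV : V3 i u1 u2) (O : Own h v tb M i u1 u2 A g C0 C1 C2 m0 m1 m2 eps Nn)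
    (hz : ∀ r s w, zz r s w → s ≤ ed M.toMS (5 * T) r w)
    (p : PNum n N1 k T lam m0 m1 m2 eps Nn L ep1 th th1) (hg : ∀ r w, |g r w| ≤ L) :
    lam * PZ tb M w0 TP.nn (5 * T) k zz i u1 u2 A g lam ≤
      40 * Lam + 32 * Real.sqrt th1 * UV0.NS M (5 * T) := by
  have h1 := PayP.payp (K := k.K) (kap := k.kap) (lam := lam) (th := th) (ep1 := ep1) H R p.hn p.hN1 hO HS hNP w0 hV O
    p.m0' p.m1' p.m2' hz k p.hK p.k0 p.t0 p.l0 p.L0
    (fun r w => (abs_le.1 (hg r w)).2) (fun r w => (abs_le.1 (hg r w)).1) p.e0 p.he p.hth p.hJ p.t1 p.t1' p.hA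
  exact h1

/-- **all public covers by own rows are paid** -/
theorem pays (H : D.Hyp dg prr al T Lam) (R : Run h (pr3 (Fin 3) n N1) (SS1 (Fin 3)) (AdmDep D) v)
    (hO : OnS M tb TP.nn) (HS : Seen M) (hNP : ∀ q w w', NPo tb v q w = NPo tb v q w' → M.NP q w = M.NP q w')
    (hz : ∀ r s w, zz r s w → s ≤ ed M.toMS (5 * T) r w) (l1 : 0 < k.lam)
    (p : PNum n N1 k T k.lam m0 m1 m2 eps Nn L ep1 th th1) :
    Pays h v tb M w0 k zz m0 m1 m2 eps Nn L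
      ((40 * Lam + 32 * Real.sqrt th1 * UV0.NS M (5 * T)) / k.lam) := by
  rintro i u1 u2 A g C0 C1 C2 h1 h2 h12 ⟨O⟩ hg
  rw [le_div_iff₀ l1, mul_comm]
  exact PZ_pay H R hO HS hNP ⟨h1.symm, h2.symm, h12⟩ O hz p hg

end pay

end

end Pool.Agent.GMH.PayPI
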