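import Pool.Agent.GMH.PayPI

/-!
# GMH/PayPE: public covers by own rows, the event part of `PayP.Own` and the signed tests (helper52)

* `Evt` : the fields of `Own` which do not see the test; `Evt.own` : with a test, `Own`;
* `evt` : from a relation of the tables, of the three tops (the tested one included) and of bits; the numbers of values are
  `exp X0 * card K0`, `1 / al * card K1`, `1 / al * card K2`;
* `RA0`, `evt0` : an event which does not see the tested top; `RA1`, `evt1` : an event which sees it;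
* `dl2_hone2` : a decision list whose sections are constant on the class and normalised, or small;
* `own0` : signed test, normalised in the tested top, for an event which does not see it.
-/

set_option autoImplicit false
set_option linter.unusedSectionVars false

namespace Pool.Agent.GMH.PayPI

open Finset Pool.Agent.PWZ Pool.Agent.M3 Pool.Agent.GM Pool.Agent.GM.Harm Pool.Agent.GMH Pool.Agent.GMH.PayM
open Pool.Agent.GMH.PayS hiding eT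
open Pool.Agent.GMH.TP Pool.Agent.GMH.V3 Pool.Agent.GMH.V3.TG Pool.Agent.GMH.Dy Pool.Agent.GMH.TabF
open Pool.Agent.GMH.PayQ (ZbQ_Lw FQ_Tp)
open Pool.Agent.GMH.PayP (Own Fit Clq dl2 dl2_cons)
open Pool.Agent.GMH.UV (US Seen)
open Pool.Agent.GMH.MV (nu)

noncomputable section

variable {X β γ φ : Type} [Fintype X] [Fintype β] [Fintype φ] [Nonempty X] [Nonempty β]
variable {D : HD (Fin 3) X β γ φ} {al : ℝ} {h : D.Thick al}
variable (v : ℕ → Finset (Fin 3) → X → (Fin 3 → β) → Pt (Fin 3) X β φ)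
variable {prr : ℕ → Fin 3 → φ → φ} {T : ℕ} {W : Type} [Fintype W] (tb : Tab D prr T W)
variable (M : US (Om W X β)) (i u1 u2 : Fin 3)

/-- **THE EVENT PART** of `Own` -/
structure Evt (A : ℕ → Om W X β → ℕ → Om W X β → Prop) (C0 C1 C2 : Type) (m0 m1 m2 : ℝ) where
  b0 : ℕ → ℕ → Om W X β → C0
  b1 : ℕ → ℕ → Om W X β → C1
  b2 : ℕ → ℕ → Om W X β → C2
  Th : ℕ → ℕ → ℕ → C0 → C1 → C2 → Pt (Fin 3) X β φ → Prop
  f0 : ∀ n s, n ≤ s → Fac (si D {i} univ {u1, u2} (TP.nn s)) (b0 n s)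
  f1 : ∀ n s, n ≤ s → Fac (si D {i, u1} univ {u2} (TP.nn s)) (b1 n s)
  f2 : ∀ n s, n ≤ s → Fac (si D {i, u2} univ {u1} (TP.nn s)) (b2 n s)
  ft : ∀ n e s c0 c1 c2, Fac (fun u => (FQ v (e / 5) i u, ZbQ D v e i u)) (Th n e s c0 c1 c2)
  ts : ∀ n e s s' c0 c1 c2, Th n e s c0 c1 c2 = Th n e s' c0 c1 c2
  An : ∀ n z s w, A n z s w → n ≤ s
  Aw : ∀ n z z', sgt D ∅ (TP.nn n) z = sgt D ∅ (TP.nn n) z' → A n z = A n z'
  iA : ∀ n < 5 * T, ∀ s w, n ≤ s → tb.Ps.p w ≠ 0 → nu M.toMS n w = n →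
    (A n w s w ↔ Th n (eT v tb n w) s (b0 n s w) (b1 n s w) (b2 n s w) (tb.pt (eT v tb n w / 5) w))
  k0 : ∀ n < 5 * T, ∀ a w, Fit tb M i u1 u2 n a w → ∃ S : Finset C0, (S.card : ℝ) ≤ m0 ∧
    ∀ s, n ≤ s → ∀ w', Fit tb M i u1 u2 n a w' → eT v tb n w' = eT v tb n w →
      Clq D v (eT v tb n w) ∅ (tb.pt 0 w') = Clq D v (eT v tb n w) ∅ (tb.pt 0 w) →
      A n w' s (mx {i} {u1, u2} a w') → b0 n s (mx {i} {u1, u2} a w') ∈ S
  k1 : ∀ n < 5 * T, ∀ a w, Fit tb M i u1 u2 n a w → ∀ c : C0, ∃ S : Finset C1, (S.card : ℝ) ≤ m1 ∧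
    ∀ s, n ≤ s → ∀ w', Fit tb M i u1 u2 n a w' → eT v tb n w' = eT v tb n w →
      Clq D v (eT v tb n w) {u1} (tb.pt 0 w') = Clq D v (eT v tb n w) {u1} (tb.pt 0 w) →
      b0 n s (mx {i} {u1, u2} a w') = c → b1 n s (mx {i} {u1, u2} a w') ∈ S
  k2 : ∀ n < 5 * T, ∀ a w, Fit tb M i u1 u2 n a w → ∀ c : C0, ∃ S : Finset C2, (S.card : ℝ) ≤ m2 ∧
    ∀ s, n ≤ s → ∀ w', Fit tb M i u1 u2 n a w' → eT v tb n w' = eT v tb n w →
      Clq D v (eT v tb n w) {u2} (tb.pt 0 w') = Clq D v (eT v tb n w) {u2} (tb.pt 0 w) →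
      b0 n s (mx {i} {u1, u2} a w') = c → b2 n s (mx {i} {u1, u2} a w') ∈ S

variable {v tb M i u1 u2}

/-- the event part with a test -/
def Evt.own {A : ℕ → Om W X β → ℕ → Om W X β → Prop} {C0 C1 C2 : Type} {m0 m1 m2 : ℝ}
    (E : Evt v tb M i u1 u2 A C0 C1 C2 m0 m1 m2) {g : ℕ → Om W X β → ℝ} (eps : ℝ) (Nn : ℕ)
    (Ga : ℕ → ℕ → ℕ → C0 → C1 → C2 → Pt (Fin 3) X β φ → ℝ)
    (fg : ∀ n e s c0 c1 c2, Fac (fun u => (FQ v (e / 5) i u, ZbQ D v e i u)) (Ga n e s c0 c1 c2))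
    (gs : ∀ n e s s' c0 c1 c2, Ga n e s c0 c1 c2 = Ga n e s' c0 c1 c2)
    (ig : ∀ n < 5 * T, ∀ s w, n ≤ s → tb.Ps.p w ≠ 0 → nu M.toMS n w = n → A n w s w →
      g n w = Ga n (eT v tb n w) s (E.b0 n s w) (E.b1 n s w) (E.b2 n s w) (tb.pt (eT v tb n w / 5) w))
    (hone : ∀ n < 5 * T, ∀ w, tb.Ps.p w ≠ 0 → nu M.toMS n w = n → ∀ l : List ((ℕ × Om W X β) × Bool), l.length ≤ Nn →
      (∀ p ∈ l, n ≤ p.1.1 ∧ Fit tb M i u1 u2 n p.1.2 w) →
      (D.P h (eT v tb n w / 5)).ce (ZbQ D v (eT v tb n w) i) (fun u => Real.exp (dl2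
        (fun s a => E.Th n (eT v tb n w) s (E.b0 n s (mx {i} {u1, u2} a w)) (E.b1 n s (mx {i} {u1, u2} a w))
          (E.b2 n s (mx {i} {u1, u2} a w)))
        (fun s a => Ga n (eT v tb n w) s (E.b0 n s (mx {i} {u1, u2} a w)) (E.b1 n s (mx {i} {u1, u2} a w))
          (E.b2 n s (mx {i} {u1, u2} a w))) l u)) (tb.pt (eT v tb n w / 5) w) ≤ Real.exp eps) :
    Own h v tb M i u1 u2 A g C0 C1 C2 m0 m1 m2 eps Nn where
  b0 := E.b0
  b1 := E.b1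
  b2 := E.b2
  Th := E.Th
  Ga := Ga
  f0 := E.f0
  f1 := E.f1
  f2 := E.f2
  ft := E.ft
  fg := fg
  ts := E.ts
  gs := gs
  An := E.An
  Aw := E.Aw
  iA := E.iA
  ig := ig
  k0 := E.k0
  k1 := E.k1
  k2 := E.k2
  hone := hone

/-! ### points, classes, sights -/

/-- the public information out of the class of `∅` -/
theorem NPq_Clq {e : ℕ} {a b : Pt (Fin 3) X β φ} (hab : Clq D v e ∅ a = Clq D v e ∅ b) :
    NPq D v e a = NPq D v e b := by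
  have h1 := (Prod.mk.inj hab).1
  have h2 := (Prod.mk.inj hab).2
  have h3 := le_eq.1 h1 ∅ (Finset.Subset.refl _)
  have h4 : Um v (nc e ∅) ∅ a.1 a.2.1 = Um v (nc e ∅) ∅ b.1 b.2.1 := by
    unfold SL at h3
    rw [LL_eq] at h3
    exact h3.1
  rw [BB_eq] at h2
  show (Um v (nc e ∅) ∅ a.1 a.2.1, (D.qa (TP.nn e) a.1, fun j => D.qb (TP.nn e) (a.2.1 j))) =
    (Um v (nc e ∅) ∅ b.1 b.2.1, (D.qa (TP.nn e) b.1, fun j => D.qb (TP.nn e) (b.2.1 j)))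
  rw [h4, h2.2.1]
  exact Prod.ext rfl (Prod.ext rfl (funext h2.2.2))

/-- the class of `J` is seen by the exact points of `J` and the cells -/
theorem Clq_sgt (hv : Codes D v) {e m : ℕ} (he : TP.nn e ≤ m) {J : Finset (Fin 3)} (hJ : J.card ≤ 1) (s t : ℕ)
    {a b : Om W X β} (hab : sgt D J m a = sgt D J m b) : Clq D v e J (tb.pt s a) = Clq D v e J (tb.pt t b) := by
  obtain ⟨h1, h2, h3⟩ := sgt_eq.1 hab
  unfold Clq
  refine Prod.ext (le_eq.2 fun I hI => ?_) ?_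
  · exact SL_sgt tb hv (show pth I from (Finset.card_le_card hI).trans hJ) he hI s t hab
  · show BB D (TP.nn e) J (tb.pt s a) = BB D (TP.nn e) J (tb.pt t b)
    rw [BB_eq]
    exact ⟨fun j hj => h2 j hj, by show D.qa _ a.1 = D.qa _ b.1; rw [h1], fun j => Dy.qb_mono he (h3 j)⟩

theorem er_pair : ∀ i u1 u2 : Fin 3, u1 ≠ i → u2 ≠ i → u1 ≠ u2 → univ.erase u2 ⊆ {i, u1} := by decide

/-! ### the mixed point -/

theorem mx_er {a w : Om W X β} {n m : ℕ} (hm : TP.nn n ≤ m) {E : Finset (Fin 3)} (hE : i ∉ E)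
    (hc : D.qb m (a.2.2 i) = D.qb m (w.2.2 i)) (S : Finset (Fin 3)) :
    sgt D E (TP.nn n) (mx {i} S a w) = sgt D E (TP.nn n) w := by
  refine mx_sgt (fun j hj => ?_) fun j hj => ?_
  · rw [Finset.mem_singleton.1 hj]
    exact hE
  · rw [Finset.mem_singleton.1 hj]
    exact Dy.qb_mono hm hc

theorem fit_sgt {n : ℕ} {a w : Om W X β} (hf : Fit tb M i u1 u2 n a w) {E : Finset (Fin 3)} (hE : i ∉ E) :
    sgt D E (TP.nn n) (mx {i} {u1, u2} a w) = sgt D E (TP.nn n) w :=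
  mx_er (le_refl _) hE hf.ce _

theorem fit_eT (hv : Codes D v) {n : ℕ} {a w : Om W X β} (hf : Fit tb M i u1 u2 n a w) :
    eT v tb n (mx {i} {u1, u2} a w) = eT v tb n w :=
  eT_sgt tb hv (le_refl _) (fit_sgt hf (Finset.notMem_empty i))

theorem fit_nu (hnu : ∀ n (a b : Om W X β), sgt D ∅ (TP.nn n) a = sgt D ∅ (TP.nn n) b → nu M.toMS n a = nu M.toMS n b)
    {n : ℕ} {a w : Om W X β} (hf : Fit tb M i u1 u2 n a w) : nu M.toMS n (mx {i} {u1, u2} a w) = n := by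
  rw [hnu n _ w (fit_sgt hf (Finset.notMem_empty i))]
  exact hf.nu

theorem fit_Zb (hv : Codes D v) {n : ℕ} {a w : Om W X β} (hf : Fit tb M i u1 u2 n a w) (s t : ℕ) :
    ZbQ D v (eT v tb n w) i (tb.pt s (mx {i} {u1, u2} a w)) = ZbQ D v (eT v tb n w) i (tb.pt t w) :=
  ZbQ_sgt tb hv (by rw [nn_eT]) (Finset.Subset.refl _) s t (fit_sgt hf (Finset.notMem_erase i univ))

theorem mx_pti (S : Finset (Fin 3)) (a w : Om W X β) : (mx {i} S a w).2.2 i = a.2.2 i :=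
  if_pos (Finset.mem_singleton_self i)

/-! ### the constructor -/

section con

variable {dg : ℕ → X → ℝ} {Lam : ℝ} {N : Finset (Fin 3) → ℝ} {SS : Finset (Finset (Fin 3))} {K0 K1 K2 : Type}

/-- numbers of values of the two tops -/
theorem cnt [Fintype K0] (H : D.Hyp dg prr al T Lam) (R : Run h N SS (AdmDep D) v) (hS : ∀ l, univ.erase l ∈ SS)
    (hu : univ ∉ SS) (hN : ∀ l, 0 < N (univ.erase l)) (hv : Codes D v) {j k : Fin 3} (h1 : j ≠ i) (h2 : k ≠ i)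
    (h12 : j ≠ k) (c : ℕ → ℕ → Om W X β → K0) {C0 : Type} {b0' : ℕ → ℕ → Om W X β → (β × Lt X β φ) × C0}
    (hb : ∀ n s (w : Om W X β), (b0' n s w).1 = (w.2.2 i, SL v (eT v tb n w) {i} (tb.pt (eT v tb n w / 5) w)))
    {n : ℕ} (hn : n < 5 * T) (a w : Om W X β) (x0 : (β × Lt X β φ) × C0) :
    ∃ S : Finset (Lt X β φ × K0), (S.card : ℝ) ≤ 1 / al * Fintype.card K0 ∧
      ∀ s w', Fit tb M i u1 u2 n a w' → eT v tb n w' = eT v tb n w →
        Clq D v (eT v tb n w) {j} (tb.pt 0 w') = Clq D v (eT v tb n w) {j} (tb.pt 0 w) →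
        b0' n s (mx {i} {u1, u2} a w') = x0 → bt v tb k c n s (mx {i} {u1, u2} a w') ∈ S := by
  classical
  by_cases hex : ∃ s0 w1, Fit tb M i u1 u2 n a w1 ∧ eT v tb n w1 = eT v tb n w ∧
      Clq D v (eT v tb n w) {j} (tb.pt 0 w1) = Clq D v (eT v tb n w) {j} (tb.pt 0 w) ∧
      b0' n s0 (mx {i} {u1, u2} a w1) = x0
  · obtain ⟨s0, w1, hf, he1, hcl1, hb1⟩ := hex
    obtain ⟨S, hS1, hS2⟩ := m1 (h := h) (v := v) tb H R hS hu hN (j := k) c hn (eT v tb n w)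
      (ZbQ D v (eT v tb n w) k (tb.pt (eT v tb n w / 5) (mx {i} {u1, u2} a w1)))
    refine ⟨S, hS1, fun s w' hf' he hcl hb0 => hS2 s _ hf'.sm ?_ ?_⟩
    · rw [fit_eT hv hf', he]
    have hji : i ∉ ({j} : Finset (Fin 3)) := fun hh => h1 (Finset.mem_singleton.1 hh).symm
    have c1 : Clq D v (eT v tb n w) {j} (tb.pt (eT v tb n w / 5) (mx {i} {u1, u2} a w')) =
        Clq D v (eT v tb n w) {j} (tb.pt (eT v tb n w / 5) (mx {i} {u1, u2} a w1)) := by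
      rw [Clq_sgt (v := v) hv (show TP.nn (eT v tb n w) ≤ TP.nn n by rw [nn_eT]) (by simp) (eT v tb n w / 5) 0
          (fit_sgt hf' hji),
        Clq_sgt (v := v) hv (show TP.nn (eT v tb n w) ≤ TP.nn n by rw [nn_eT]) (by simp) (eT v tb n w / 5) 0
          (fit_sgt hf hji)]
      exact hcl.trans hcl1.symm
    have c2 := congrArg Prod.fst (hb0.trans hb1.symm)
    rw [hb, hb] at c2
    have c3 := (Prod.mk.inj c2).1
    have c4 := (Prod.mk.inj c2).2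
    rw [fit_eT hv hf', fit_eT hv hf, he, he1] at c4
    exact ZbQ_of h1 h2 h12 (Prod.mk.inj c1).1 (Prod.mk.inj c1).2 c3 c4
  · refine ⟨∅, ?_, fun s w' hf' he hcl hb0 => absurd ⟨s, w', hf', he, hcl, hb0⟩ hex⟩
    rw [Finset.card_empty, Nat.cast_zero]
    exact mul_nonneg (one_div_nonneg.2 h.pos.le) (Nat.cast_nonneg _)

/-- **THE EVENT PART** for a relation of the tables, of the three tops and of the bits -/
def evt [Fintype K0] [Fintype K1] [Fintype K2] (H : D.Hyp dg prr al T Lam) (R : Run h N SS (AdmDep D) v)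
    (hS : ∀ l, univ.erase l ∈ SS) (hu : univ ∉ SS) (hN : ∀ l, 0 < N (univ.erase l)) (hv : Codes D v)
    (hnu : ∀ n (a b : Om W X β), sgt D ∅ (TP.nn n) a = sgt D ∅ (TP.nn n) b → nu M.toMS n a = nu M.toMS n b)
    (h1 : u1 ≠ i) (h2 : u2 ≠ i) (h12 : u1 ≠ u2) (X0 : ℝ) {A : ℕ → Om W X β → ℕ → Om W X β → Prop}
    (RA : RT X β γ φ K0 K1 K2) (hRs : ∀ n e s s', RA n e s = RA n e s') (c0 : ℕ → ℕ → Om W X β → K0)
    (c1 : ℕ → ℕ → Om W X β → K1) (c2 : ℕ → ℕ → Om W X β → K2)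
    (hc0 : ∀ n s, n ≤ s → Fac (si D {i} univ {u1, u2} (TP.nn s)) (c0 n s))
    (hc1 : ∀ n s, n ≤ s → Fac (si D {i, u1} univ {u2} (TP.nn s)) (c1 n s))
    (hc2 : ∀ n s, n ≤ s → Fac (si D {i, u2} univ {u1} (TP.nn s)) (c2 n s))
    (hAn : ∀ n z s w, A n z s w → n ≤ s)
    (hAw : ∀ n z z', sgt D ∅ (TP.nn n) z = sgt D ∅ (TP.nn n) z' → A n z = A n z')
    (hRA : ∀ n < 5 * T, ∀ s w, n ≤ s → tb.Ps.p w ≠ 0 → nu M.toMS n w = n →
      (A n w s w ↔ RA n (eT v tb n w) s (ZQ D v (eT v tb n w) (tb.pt (eT v tb n w / 5) w))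
        (FQ v (eT v tb n w / 5) u1 (tb.pt (eT v tb n w / 5) w)) (FQ v (eT v tb n w / 5) u2 (tb.pt (eT v tb n w / 5) w))
        (FQ v (eT v tb n w / 5) i (tb.pt (eT v tb n w / 5) w)) (c0 n s w) (c1 n s w) (c2 n s w)))
    (htyp : ∀ n < 5 * T, ∀ s w, n ≤ s → tb.Ps.p w ≠ 0 → nu M.toMS n w = n → A n w s w →
      ssQ h v (eT v tb n w) i (tb.pt (eT v tb n w / 5) w) ≤ X0) :
    Evt v tb M i u1 u2 A ((β × Lt X β φ) × K0) (Lt X β φ × K1) (Lt X β φ × K2) (Real.exp X0 * Fintype.card K0)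
      (1 / al * Fintype.card K1) (1 / al * Fintype.card K2) where
  b0 := b0 v tb i c0
  b1 := bt v tb u2 c1
  b2 := bt v tb u1 c2
  Th := ThR D v i RA
  f0 := fun n s hs => b0_si tb hv (TP.nn_mono hs) (hc0 n s hs)
  f1 := fun n s hs => bt_si tb hv (TP.nn_mono hs) (er_pair i u1 u2 h1 h2 h12)
    (fun k => Or.inr (mem_univ k)) (Finset.mem_singleton_self u2) (hc1 n s hs)
  f2 := fun n s hs => bt_si tb hv (TP.nn_mono hs) (er_pair i u2 u1 h2 h1 h12.symm)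
    (fun k => Or.inr (mem_univ k)) (Finset.mem_singleton_self u1) (hc2 n s hs)
  ft := fun n e s x0 x1 x2 => ThR_fac i RA n e s x0 x1 x2
  ts := fun n e s s' x0 x1 x2 => by
    unfold ThR
    rw [hRs n e s s']
  An := hAn
  Aw := hAw
  iA := fun n hn s w hs hw hnn => by
    rw [rel_iff]
    exact hRA n hn s w hs hw hnn
  k0 := fun n hn a w hf => by
    obtain ⟨S, hS1, hS2⟩ := m0 (h := h) (v := v) tb (i := i) c0 hn (eT v tb n w) X0 (a.2.2 i)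
      (NPq D v (eT v tb n w) (tb.pt 0 w))
    refine ⟨S, hS1, fun s hs w' hf' he hcl hA => ?_⟩
    have e1 := fit_sgt hf' (Finset.notMem_empty i)
    have e2 : eT v tb n (mx {i} {u1, u2} a w') = eT v tb n w := by rw [fit_eT hv hf', he]
    have hA' : A n (mx {i} {u1, u2} a w') s (mx {i} {u1, u2} a w') := by
      rw [hAw n _ w' e1]
      exact hA
    have ht := htyp n hn s _ hs hf'.sm (fit_nu hnu hf') hA'
    rw [e2] at ht
    refine hS2 s _ hf'.sm e2 (mx_pti _ a w') ?_ ht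
    rw [← NPq_Clq hcl]
    exact NPq_Clq (Clq_sgt hv (by rw [nn_eT]) (by simp) _ 0 e1)
  k1 := fun n hn a w _ x0 => by
    obtain ⟨S, hS1, hS2⟩ := cnt (M := M) (u1 := u1) (u2 := u2) H R hS hu hN hv h1 h2 h12 c1
      (b0' := b0 v tb i c0) (fun _ _ _ => rfl) hn a w x0
    exact ⟨S, hS1, fun s _ => hS2 s⟩
  k2 := fun n hn a w _ x0 => by
    obtain ⟨S, hS1, hS2⟩ := cnt (M := M) (u1 := u1) (u2 := u2) H R hS hu hN hv h2 h1 h12.symm c2
      (b0' := b0 v tb i c0) (fun _ _ _ => rfl) hn a w x0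
    exact ⟨S, hS1, fun s _ => hS2 s⟩

/-! ### signed tests -/

/-- the norm of the test at the mixed points -/
theorem one_mx (hv : Codes D v) (h1 : u1 ≠ i) (h2 : u2 ≠ i) (h12 : u1 ≠ u2) {φ' : Type} {fr : Fin 3 → Lt X β φ → φ'}
    {Gf : ℕ → ℕ → Zt X β γ φ → (Fin 3 → φ') → ℝ} {c0 : ℕ → ℕ → Om W X β → K0} {c1 : ℕ → ℕ → Om W X β → K1}
    {c2 : ℕ → ℕ → Om W X β → K2} {n : ℕ} (s : ℕ) {a w : Om W X β} (hf : Fit tb M i u1 u2 n a w)
    (hone : ∀ f : Fin 3 → φ', (D.P h (eT v tb n w / 5)).ce (ZbQ D v (eT v tb n w) i) (fun u' => Real.exp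
      (Gf n (eT v tb n w) (ZQ D v (eT v tb n w) (tb.pt (eT v tb n w / 5) (mx {i} {u1, u2} a w)))
        (Function.update f i (fr i (FQ v (eT v tb n w / 5) i u'))))) (tb.pt (eT v tb n w / 5) (mx {i} {u1, u2} a w)) ≤ 1) :
    (D.P h (eT v tb n w / 5)).ce (ZbQ D v (eT v tb n w) i) (fun u' => Real.exp
      (GaR D v i u1 fr Gf n (eT v tb n w) (b0 v tb i c0 n s (mx {i} {u1, u2} a w)) (bt v tb u2 c1 n s (mx {i} {u1, u2} a w))
        (bt v tb u1 c2 n s (mx {i} {u1, u2} a w)) u')) (tb.pt (eT v tb n w / 5) w) ≤ 1 := by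
  have e1 := fit_eT hv hf
  have h3 := test_one (h := h) (v := v) tb (i := i) h1 h2 h12 (fr := fr) (Gf := Gf) (c0 := c0) (c1 := c1) (c2 := c2) n s
    (mx {i} {u1, u2} a w)
  rw [e1] at h3
  refine le_trans (le_of_eq ?_) (h3 hone)
  exact (D.P h (eT v tb n w / 5)).ce_fac (ZbQ D v (eT v tb n w) i) _ _ _ (fit_Zb hv hf _ _).symm

/-- **PUBLIC COVER BY OWN ROWS, SIGNED TEST** : the event does not see the tested top, the test is normalised in it -/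
def ownS [Fintype K0] [Fintype K1] [Fintype K2] (H : D.Hyp dg prr al T Lam) (R : Run h N SS (AdmDep D) v)
    (hS : ∀ l, univ.erase l ∈ SS) (hu : univ ∉ SS) (hN : ∀ l, 0 < N (univ.erase l)) (hv : Codes D v)
    (hnu : ∀ n (a b : Om W X β), sgt D ∅ (TP.nn n) a = sgt D ∅ (TP.nn n) b → nu M.toMS n a = nu M.toMS n b)
    (h1 : u1 ≠ i) (h2 : u2 ≠ i) (h12 : u1 ≠ u2) (X0 : ℝ) {A : ℕ → Om W X β → ℕ → Om W X β → Prop}
    (RA : RT X β γ φ K0 K1 K2) (hRs : ∀ n e s s', RA n e s = RA n e s')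
    (hRi : ∀ n e s z f1 f2 f f' k0 k1 k2, RA n e s z f1 f2 f k0 k1 k2 → RA n e s z f1 f2 f' k0 k1 k2)
    (c0 : ℕ → ℕ → Om W X β → K0) (c1 : ℕ → ℕ → Om W X β → K1) (c2 : ℕ → ℕ → Om W X β → K2)
    (hc0 : ∀ n s, n ≤ s → Fac (si D {i} univ {u1, u2} (TP.nn s)) (c0 n s))
    (hc1 : ∀ n s, n ≤ s → Fac (si D {i, u1} univ {u2} (TP.nn s)) (c1 n s))
    (hc2 : ∀ n s, n ≤ s → Fac (si D {i, u2} univ {u1} (TP.nn s)) (c2 n s))
    (hAn : ∀ n z s w, A n z s w → n ≤ s)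
    (hAw : ∀ n z z', sgt D ∅ (TP.nn n) z = sgt D ∅ (TP.nn n) z' → A n z = A n z')
    (hRA : ∀ n < 5 * T, ∀ s w, n ≤ s → tb.Ps.p w ≠ 0 → nu M.toMS n w = n →
      (A n w s w ↔ RA n (eT v tb n w) s (ZQ D v (eT v tb n w) (tb.pt (eT v tb n w / 5) w))
        (FQ v (eT v tb n w / 5) u1 (tb.pt (eT v tb n w / 5) w)) (FQ v (eT v tb n w / 5) u2 (tb.pt (eT v tb n w / 5) w))
        (FQ v (eT v tb n w / 5) i (tb.pt (eT v tb n w / 5) w)) (c0 n s w) (c1 n s w) (c2 n s w)))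
    (htyp : ∀ n < 5 * T, ∀ s w, n ≤ s → tb.Ps.p w ≠ 0 → nu M.toMS n w = n → A n w s w →
      ssQ h v (eT v tb n w) i (tb.pt (eT v tb n w / 5) w) ≤ X0)
    {φ' : Type} (fr : Fin 3 → Lt X β φ → φ') (Gf : ℕ → ℕ → Zt X β γ φ → (Fin 3 → φ') → ℝ) {g : ℕ → Om W X β → ℝ}
    (hg : ∀ n < 5 * T, ∀ w, tb.Ps.p w ≠ 0 → nu M.toMS n w = n →
      g n w = Gf n (eT v tb n w) (ZQ D v (eT v tb n w) (tb.pt (eT v tb n w / 5) w))
        (fun j => fr j (FQ v (eT v tb n w / 5) j (tb.pt (eT v tb n w / 5) w))))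
    (hone : ∀ n < 5 * T, ∀ w, tb.Ps.p w ≠ 0 → nu M.toMS n w = n → ∀ f : Fin 3 → φ',
      (D.P h (eT v tb n w / 5)).ce (ZbQ D v (eT v tb n w) i) (fun u' => Real.exp
        (Gf n (eT v tb n w) (ZQ D v (eT v tb n w) (tb.pt (eT v tb n w / 5) w))
          (Function.update f i (fr i (FQ v (eT v tb n w / 5) i u'))))) (tb.pt (eT v tb n w / 5) w) ≤ 1)
    {eps : ℝ} (heps : 0 ≤ eps) (Nn : ℕ) :
    Own h v tb M i u1 u2 A g ((β × Lt X β φ) × K0) (Lt X β φ × K1) (Lt X β φ × K2) (Real.exp X0 * Fintype.card K0)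
      (1 / al * Fintype.card K1) (1 / al * Fintype.card K2) eps Nn :=
  (evt H R hS hu hN hv hnu h1 h2 h12 X0 RA hRs c0 c1 c2 hc0 hc1 hc2 hAn hAw hRA htyp).own eps Nn
    (fun n e _ x0 x1 x2 => GaR D v i u1 fr Gf n e x0 x1 x2)
    (fun n e _ x0 x1 x2 => GaR_fac i u1 fr Gf n e x0 x1 x2)
    (fun _ _ _ _ _ _ _ => rfl)
    (fun n hn s w _ hw hnn _ => by
      rw [hg n hn w hw hnn]
      exact (test_eq tb h1 h2 h12 n s w).symm)
    (fun n hn w hw hnn l _ hf => by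
      have hp : (D.P h (eT v tb n w / 5)).p (tb.pt (eT v tb n w / 5) w) ≠ 0 := (pul_pt h tb (eT_T tb hn w)).ne hw
      refine (PayP.dl2_hone (P := D.P h (eT v tb n w / 5)) (Z := ZbQ D v (eT v tb n w) i) hp (fun p _ z hz => ?_)
        fun p hp' _ _ => ?_).trans (Real.one_le_exp heps)
      · show RA n (eT v tb n w) p.1.1 (rb (ZbQ D v (eT v tb n w) i z) _) _ _ (FQ v (eT v tb n w / 5) i z) _ _ _ ↔
          RA n (eT v tb n w) p.1.1 (rb (ZbQ D v (eT v tb n w) i (tb.pt (eT v tb n w / 5) w)) _) _ _ _ _ _ _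
        rw [hz]
        exact ⟨hRi _ _ _ _ _ _ _ _ _ _ _, hRi _ _ _ _ _ _ _ _ _ _ _⟩
      · have hf' := (hf p hp').2
        refine one_mx hv h1 h2 h12 p.1.1 hf' ?_
        have e1 := fit_eT hv hf'
        have h4 := hone n hn (mx {i} {u1, u2} p.1.2 w) hf'.sm (fit_nu hnu hf')
        rw [e1] at h4
        exact h4)

end con

end

end Pool.Agent.GMH.PayPI
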