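import Pool.Agent.GMH.PayO
import Pool.Agent.GMH.PayQ
import Pool.Agent.GMH.PayP4
import Pool.Agent.GMH.Dyn
import Pool.Agent.GMH.TabF

/-!
# GMH/PayPI: own rows at public ends, lemmas of the instance (helper52; interface of helper75)

`i` = the sampled vertex = the tested top, `u1`, `u2` the two others.  A relation of all thin labels of the state `e`, the two
other tops and some bits is read from what the top `i` sees and from three hints: `b0` (point, letter of `i`, bit), `b1`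
(top `u2`, bit), `b2` (top `u1`, bit).
* `rb`, `rb_eq` : all thin labels out of what the top `i` sees and of the data of the vertex `i`;
* `SL_sgt`, `ZbQ_of` : sights and labels; `typ_z`, `top_z` : number of typical letters, number of tops.
-/

set_option autoImplicit false
set_option linter.unusedSectionVars false

namespace Pool.Agent.GMH.PayPI

open Finset Pool.Agent.PWZ Pool.Agent.M3 Pool.Agent.GM Pool.Agent.GM.Harm Pool.Agent.GMH Pool.Agent.GMH.PayM
open Pool.Agent.GMH.PayS hiding eT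
open Pool.Agent.GMH.TP Pool.Agent.GMH.V3 Pool.Agent.GMH.V3.TG Pool.Agent.GMH.Dy Pool.Agent.GMH.TabF
open Pool.Agent.GMH.PayQ (ZbQ_Lw FQ_Tp)

noncomputable section

section a

variable {X β γ φ υ : Type} [Fintype X] [Fintype β] [Fintype φ] [Nonempty X] [Nonempty β]
variable {D : HD (Fin 3) X β γ φ} {al : ℝ} (h : D.Thick al) {v : ℕ → Finset (Fin 3) → X → (Fin 3 → β) → υ}
variable {prr : ℕ → Fin 3 → φ → φ} {T : ℕ} {W : Type} [Fintype W] (tb : Tab D prr T W)

/-- the thin labels out of what the top `i` sees and of the data of the vertex `i` -/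
def rb (z : (Finset (Fin 3) → Option (List υ × (Fin 3 → Option φ))) × ((Fin 3 → Option β) × (γ × (Fin 3 → γ))))
    (c : β × (List υ × (Fin 3 → Option φ))) :
    ({J : Finset (Fin 3) // pth J} → List υ × (Fin 3 → Option φ)) × ((Fin 3 → β) × (γ × (Fin 3 → γ))) :=
  (fun J => (z.1 J.1).getD c.2, (fun j => (z.2.1 j).getD c.1, z.2.2))

theorem not_ss : ∀ (i : Fin 3) (J : Finset (Fin 3)), J.card ≤ 1 → ¬ J ⊂ univ.erase i → J = {i} := by decide

theorem rb_eq (e : ℕ) (i : Fin 3) (u : Pt (Fin 3) X β φ) :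
    rb (ZbQ D v e i u) (u.2.1 i, SL v e {i} u) = ZQ D v e u := by
  unfold rb ZbQ ZQ
  refine Prod.ext (funext fun J => ?_) (Prod.ext (funext fun j => ?_) rfl)
  · show (lo (SL v e) (univ.erase i) u J.1).getD (SL v e {i} u) = SL v e J.1 u
    by_cases hJ : J.1 ⊂ univ.erase i
    · have : lo (SL v e) (univ.erase i) u J.1 = some (SL v e J.1 u) := if_pos hJ
      rw [this]
      rfl
    · have : lo (SL v e) (univ.erase i) u J.1 = Option.none := if_neg hJ
      rw [this, not_ss i J.1 J.2 hJ]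
      rfl
  · show ((BB D (TP.nn e) (univ.erase i) u).1 j).getD (u.2.1 i) = u.2.1 j
    by_cases hj : j = i
    · subst hj
      have : (BB D (TP.nn e) (univ.erase j) u).1 j = Option.none := if_neg (Finset.notMem_erase j univ)
      rw [this]
      rfl
    · have : (BB D (TP.nn e) (univ.erase i) u).1 j = some (u.2.1 j) := if_pos (Finset.mem_erase.2 ⟨hj, mem_univ j⟩)
      rw [this]
      rfl

/-! ### sights and thin labels -/

theorem SL_eq {e : ℕ} {J : Finset (Fin 3)} (hJ : pth J) {a b : Pt (Fin 3) X β φ}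
    (h1 : Um v (nc e J) J a.1 a.2.1 = Um v (nc e J) J b.1 b.2.1) : SL (φ := φ) v e J a = SL v e J b := by
  unfold SL
  rw [LL_eq]
  refine ⟨h1, fun l hl => ?_⟩
  exfalso
  have key : ∀ l : Fin 3, ¬ (univ.erase l).card ≤ 1 := by decide
  unfold pth at hJ
  rw [← hl] at hJ
  exact key l hJ

/-- the thin labels see their points and the cells -/
theorem SL_sgt (hv : Codes D v) {e n : ℕ} {J : Finset (Fin 3)} (hJ : pth J) (hn : TP.nn e ≤ n) {E : Finset (Fin 3)}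
    (hE : J ⊆ E) (s t : ℕ) {a b : Om W X β} (hab : sgt D E n a = sgt D E n b) :
    SL v e J (tb.pt s a) = SL v e J (tb.pt t b) := by
  refine SL_eq hJ ?_
  have h1 := nc_le e J
  exact MVIp.Um_sgt hv (show nc e J ≤ n + 1 by omega) hE hab

theorem sub_er (i : Fin 3) {I : Finset (Fin 3)} (hI : I ⊂ univ.erase i) : pth I := lt_pth card3 (ne_univ i) hI

/-- what a top sees, out of the sight -/
theorem ZbQ_sgt (hv : Codes D v) {e n : ℕ} {i : Fin 3} (hn : TP.nn e ≤ n) {E : Finset (Fin 3)}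
    (hE : univ.erase i ⊆ E) (s t : ℕ) {a b : Om W X β} (hab : sgt D E n a = sgt D E n b) :
    ZbQ D v e i (tb.pt s a) = ZbQ D v e i (tb.pt t b) := by
  unfold ZbQ
  obtain ⟨h1, h2, h3⟩ := sgt_eq.1 hab
  refine Prod.ext (lo_eq.2 fun I hI => SL_sgt tb hv (sub_er i hI) hn (hI.subset.trans hE) s t hab) ?_
  show BB D (TP.nn e) (univ.erase i) (tb.pt s a) = BB D (TP.nn e) (univ.erase i) (tb.pt t b)
  rw [BB_eq]
  exact ⟨fun j hj => h2 j (hE hj), by show D.qa _ a.1 = D.qa _ b.1; rw [h1], fun j => Dy.qb_mono hn (h3 j)⟩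

/-- what the top of `i`, `u1` sees, out of the class of `{u1}` and of the data of `i` -/
theorem ZbQ_of {i u1 u2 : Fin 3} (h1 : u1 ≠ i) (h2 : u2 ≠ i) (h12 : u1 ≠ u2) {e : ℕ} {a b : Pt (Fin 3) X β φ}
    (hc : le (SL v e) {u1} a = le (SL v e) {u1} b) (hb : BB D (TP.nn e) {u1} a = BB D (TP.nn e) {u1} b)
    (hi : a.2.1 i = b.2.1 i) (hs : SL v e {i} a = SL v e {i} b) : ZbQ D v e u2 a = ZbQ D v e u2 b := by
  have key : ∀ (i u1 u2 : Fin 3) (I : Finset (Fin 3)), u1 ≠ i → u2 ≠ i → u1 ≠ u2 → I ⊂ univ.erase u2 →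
      I ⊆ {u1} ∨ I = {i} := by decide
  have key2 : ∀ (i u1 u2 j : Fin 3), u1 ≠ i → u2 ≠ i → u1 ≠ u2 → j ∈ univ.erase u2 → j = u1 ∨ j = i := by decide
  unfold ZbQ
  rw [BB_eq] at hb
  refine Prod.ext (lo_eq.2 fun I hI => ?_) ?_
  · rcases key i u1 u2 I h1 h2 h12 hI with h3 | h3
    · exact le_eq.1 hc I h3
    · rw [h3]
      exact hs
  · show BB D (TP.nn e) (univ.erase u2) a = BB D (TP.nn e) (univ.erase u2) b
    rw [BB_eq]
    refine ⟨fun j hj => ?_, hb.2⟩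
    rcases key2 i u1 u2 j h1 h2 h12 hj with h3 | h3
    · rw [h3]
      exact hb.1 u1 (Finset.mem_singleton_self u1)
    · rw [h3]
      exact hi

/-- a top sees its two points, its table and the cells -/
theorem FQ_si (hv : Codes D v) {t m : ℕ} {i : Fin 3} (ht : t ≤ m) {E F S : Finset (Fin 3)} (hE : univ.erase i ⊆ E)
    (hS : i ∈ S) (hF : ∀ j, j ∈ E ∨ j ∈ F) {a b : Om W X β} (hab : si D E F S m a = si D E F S m b) :
    FQ v t i (tb.pt t a) = FQ v t i (tb.pt t b) := by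
  obtain ⟨h1, h2, h3, h4⟩ := si_eq.1 hab
  have hc : ∀ j, D.qb t (a.2.2 j) = D.qb t (b.2.2 j) := by
    intro j
    rcases hF j with hj | hj
    · rw [h3 j hj]
    · exact Dy.qb_mono ht (h4 j hj)
  rw [FQ_Tp]
  unfold Tp
  rw [LL_eq]
  refine ⟨?_, fun l hl => ?_⟩
  · show Um v (t + 1) (univ.erase i) a.1 a.2.2 = Um v (t + 1) (univ.erase i) b.1 b.2.2
    rw [h1]
    exact Um_codes hv (le_refl (t + 1)) _ b.1 (fun j hj => h3 j (hE hj)) hc
  · have hli : l = i := erase_inj' hl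
    subst hli
    show tb.lab t l (a.2.1 l) a.1 a.2.2 = tb.lab t l (b.2.1 l) b.1 b.2.2
    rw [h1, h2 l hS]
    exact tb.dep t l (b.2.1 l) b.1 a.2.2 b.2.2 (fun j hj => h3 j (hE (Finset.mem_erase.2 ⟨hj, mem_univ j⟩))) (hc l)

/-! ### RULE L -/

theorem nn_five (m : ℕ) : TP.nn (5 * m) = m := by
  have := nn_add m 0 (by norm_num)
  rwa [add_zero] at this

theorem eT_cases (n : ℕ) (w : Om W X β) : eT v tb n w = n ∨ (2 ≤ n % 5 ∧ eT v tb n w = 5 * (n / 5) + 5) := by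
  unfold eT
  by_cases hl : ltL v tb n w
  · rw [if_pos hl]
    exact Or.inr ⟨hl.1, rfl⟩
  · rw [if_neg hl]
    exact Or.inl rfl

theorem nn_pos {n : ℕ} (hn : n % 5 ≠ 0) : TP.nn n = n / 5 + 1 := by
  have h1 := nn_add (n / 5) (n % 5) (by omega)
  rw [show 5 * (n / 5) + n % 5 = n by omega] at h1
  rw [h1]
  unfold nnj
  rw [if_neg hn]

/-- the node of the tables is the node of the start -/
theorem nn_eT (n : ℕ) (w : Om W X β) : TP.nn (eT v tb n w) = TP.nn n := by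
  rcases eT_cases tb (v := v) n w with h1 | ⟨h1, h2⟩
  · rw [h1]
  · rw [h2, show 5 * (n / 5) + 5 = 5 * (n / 5 + 1) by ring, nn_five, nn_pos (by omega)]

theorem eT_div_le (n : ℕ) (w : Om W X β) : eT v tb n w / 5 ≤ TP.nn n := by
  have h1 := nn_le (eT v tb n w)
  rwa [nn_eT] at h1

theorem eT_T {n : ℕ} (hn : n < 5 * T) (w : Om W X β) : eT v tb n w / 5 ≤ T := by
  rcases eT_cases tb (v := v) n w with h1 | ⟨h1, h2⟩
  · rw [h1]
    omega
  · rw [h2]
    omega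

/-- the state of the tables is public -/
theorem eT_sgt (hv : Codes D v) {n m : ℕ} (hn : TP.nn n ≤ m) {a b : Om W X β} {E : Finset (Fin 3)}
    (hab : sgt D E m a = sgt D E m b) : eT v tb n a = eT v tb n b := by
  unfold eT
  have h1 : ltL v tb n a = ltL v tb n b := by
    unfold ltL
    refine propext (and_congr_right fun h2 => ?_)
    have f : ∀ j, j = 1 ∨ j = 2 → tb.Ps.m (MVI.NPo tb v (5 * (n / 5) + j)) a =
        tb.Ps.m (MVI.NPo tb v (5 * (n / 5) + j)) b := by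
      intro j hj
      refine tb.Ps.Fac_m _ a b ?_
      have h3 : TP.nn (5 * (n / 5) + j) = n / 5 + 1 := by
        rw [nn_pos (by omega)]
        omega
      have h4 := nn_pos (n := n) (by omega)
      have h5 := nc_le (5 * (n / 5) + j) ∅
      exact MVIp.NPq_sgt tb hv (q := 5 * (n / 5) + j) (n := m) (by omega) (by omega) E 0 a b hab
    rw [f 1 (Or.inl rfl), f 2 (Or.inr rfl)]
  by_cases h2 : ltL v tb n a
  · rw [if_pos h2, if_pos (h1 ▸ h2)]
  · rw [if_neg h2, if_neg fun hh => h2 (h1.symm ▸ hh)]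

end a

/-! ### numbers of letters -/

/-- at most `1 / p` letters of conditional probability at least `p`, given a value of the information -/
theorem typ_z {Om : Type*} [Fintype Om] (P : FP Om) {κ : Type} {ζ : Type*} (A : Om → κ) (Z : Om → ζ) {p : ℝ}
    (hp : 0 < p) (z : ζ) : ∃ s : Finset κ, (s.card : ℝ) ≤ 1 / p ∧
      ∀ v, P.p v ≠ 0 → Z v = z → p ≤ P.ce Z (fun u => ind (A u = A v)) v → A v ∈ s := by
  classical
  by_cases hz : ∃ w, Z w = z
  · obtain ⟨w, rfl⟩ := hz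
    exact PayO.typ_fin P A Z hp w
  · refine ⟨∅, ?_, fun v _ hv _ => absurd ⟨v, hv⟩ hz⟩
    rw [Finset.card_empty, Nat.cast_zero]
    positivity

section b

variable {X β γ φ : Type} [Fintype X] [Fintype β] [Fintype φ] [Nonempty X] [Nonempty β]
variable {D : HD (Fin 3) X β γ φ} {al : ℝ} {h : D.Thick al} {N : Finset (Fin 3) → ℝ} {S : Finset (Finset (Fin 3))}
  {v : ℕ → Finset (Fin 3) → X → (Fin 3 → β) → Pt (Fin 3) X β φ} {dg : ℕ → X → ℝ} {prr : ℕ → Fin 3 → φ → φ} {T : ℕ}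
  {Lam : ℝ}

/-- **at most `1 / al` tops, given what the top sees** -/
theorem top_z (H : D.Hyp dg prr al T Lam) (R : Run h N S (AdmDep D) v) (hS : ∀ l, univ.erase l ∈ S) (hu : univ ∉ S)
    (hN : ∀ l, 0 < N (univ.erase l)) {t q : ℕ} (ht : t ≤ T) (hq : 5 * t ≤ q) (i : Fin 3)
    (z : (Finset (Fin 3) → Option (List (Pt (Fin 3) X β φ) × (Fin 3 → Option φ))) ×
      ((Fin 3 → Option β) × (γ × (Fin 3 → γ)))) :
    ∃ s : Finset (List (Pt (Fin 3) X β φ) × (Fin 3 → Option φ)), (s.card : ℝ) ≤ 1 / al ∧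
      ∀ u, (D.P h t).p u ≠ 0 → ZbQ D v q i u = z → FQ v t i u ∈ s := by
  obtain ⟨s, h1, h2⟩ := typ_z (D.P h t) (FQ v t i) (ZbQ D v q i) h.pos z
  refine ⟨s, h1, fun u hu' hz => h2 u hu' hz ?_⟩
  have h3 := Zb_thick H R hS hu hN ht hq i hu'
  have h4 := (D.P h t).m_pos (ZbQ D v q i) hu'
  unfold FP.ce
  rw [le_div_iff₀ h4]
  refine h3.trans (le_of_eq ?_)
  unfold FP.m
  refine (D.P h t).E_congr fun w _ => ?_
  rw [← ind_and]
  congr 1
  rw [Prod.mk.injEq]
  exact propext ⟨fun hh => ⟨hh.2, hh.1⟩, fun hh => ⟨hh.2, hh.1⟩⟩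

/-- **typical letters of the vertex `i`**, given its point and the public information -/
theorem let_z (q : ℕ) (i : Fin 3) (X0 : ℝ) (b : β) (z : List (Pt (Fin 3) X β φ) × (γ × (Fin 3 → γ))) :
    ∃ s : Finset (β × List (Pt (Fin 3) X β φ)), (s.card : ℝ) ≤ Real.exp X0 ∧
      ∀ u, (D.P h (q / 5)).p u ≠ 0 → u.2.1 i = b → NPq D v q u = z → ssQ h v q i u ≤ X0 → XLq v q i u ∈ s := by
  obtain ⟨s, h1, h2⟩ := typ_z (D.P h (q / 5)) (XLq v q i) (fun u => (u.2.1 i, NPq D v q u)) (Real.exp_pos (-X0)) (b, z)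
  refine ⟨s, h1.trans (le_of_eq ?_), fun u hu' hb hz hX => h2 u hu' (Prod.ext hb hz) ?_⟩
  · rw [one_div, ← Real.exp_neg, neg_neg]
  · have h3 := (D.P h (q / 5)).m_pos (fun u => (u.2.1 i, NPq D v q u)) hu'
    have h4 := (D.P h (q / 5)).m_pos (fun u => (XLq v q i u, (u.2.1 i, NPq D v q u))) hu'
    have e1 : (D.P h (q / 5)).ce (fun u => (u.2.1 i, NPq D v q u)) (fun w => ind (XLq v q i w = XLq v q i u)) u =
        (D.P h (q / 5)).m (fun u => (XLq v q i u, (u.2.1 i, NPq D v q u))) u /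
          (D.P h (q / 5)).m (fun u => (u.2.1 i, NPq D v q u)) u := by
      unfold FP.ce
      congr 1
      unfold FP.m
      refine (D.P h (q / 5)).E_congr fun w _ => ?_
      rw [← ind_and]
      congr 1
      rw [Prod.mk.injEq (XLq v q i w)]
      exact propext ⟨fun hh => ⟨hh.2, hh.1⟩, fun hh => ⟨hh.2, hh.1⟩⟩
    rw [e1]
    have h5 : Real.log ((D.P h (q / 5)).m (fun u => (u.2.1 i, NPq D v q u)) u) -
        Real.log ((D.P h (q / 5)).m (fun u => (XLq v q i u, (u.2.1 i, NPq D v q u))) u) ≤ X0 := hX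
    have h6 : -X0 ≤ Real.log ((D.P h (q / 5)).m (fun u => (XLq v q i u, (u.2.1 i, NPq D v q u))) u /
        (D.P h (q / 5)).m (fun u => (u.2.1 i, NPq D v q u)) u) := by
      rw [Real.log_div h4.ne' h3.ne']
      linarith
    have h7 := Real.exp_le_exp.2 h6
    rwa [Real.exp_log (div_pos h4 h3)] at h7

end b

/-! ### hints of a start -/

section c

variable {X β γ φ : Type} [Fintype X] [Fintype β] [Fintype φ] [Nonempty X] [Nonempty β]
variable {D : HD (Fin 3) X β γ φ} {al : ℝ} (h : D.Thick al) (v : ℕ → Finset (Fin 3) → X → (Fin 3 → β) → Pt (Fin 3) X β φ)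
variable {prr : ℕ → Fin 3 → φ → φ} {T : ℕ} {W : Type} [Fintype W] (tb : Tab D prr T W) {K K0 K1 K2 φ' : Type}

/-- labels -/
abbrev Lt (X β φ : Type) : Type := List (Pt (Fin 3) X β φ) × (Fin 3 → Option φ)

/-- all thin labels -/
abbrev Zt (X β γ φ : Type) : Type :=
  ({J : Finset (Fin 3) // pth J} → Lt X β φ) × ((Fin 3 → β) × (γ × (Fin 3 → γ)))

/-- point and letter of `i`, with a bit -/
def b0 (i : Fin 3) (c : ℕ → ℕ → Om W X β → K) (n s : ℕ) (w : Om W X β) : (β × Lt X β φ) × K :=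
  ((w.2.2 i, SL v (eT v tb n w) {i} (tb.pt (eT v tb n w / 5) w)), c n s w)

/-- the top `j`, with a bit -/
def bt (j : Fin 3) (c : ℕ → ℕ → Om W X β → K) (n s : ℕ) (w : Om W X β) : Lt X β φ × K :=
  (FQ v (eT v tb n w / 5) j (tb.pt (eT v tb n w / 5) w), c n s w)

/-- relations of the tables, of the tops `u1`, `u2`, `i` and of the bits -/
abbrev RT (X β γ φ K0 K1 K2 : Type) : Type :=
  ℕ → ℕ → ℕ → Zt X β γ φ → Lt X β φ → Lt X β φ → Lt X β φ → K0 → K1 → K2 → Prop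

variable (D) in
/-- the relation out of the hints, of what the top `i` sees and of the top `i` -/
def ThR (i : Fin 3) (RA : RT X β γ φ K0 K1 K2) (n e s : ℕ)
    (x0 : (β × Lt X β φ) × K0) (x1 : Lt X β φ × K1) (x2 : Lt X β φ × K2) (u : Pt (Fin 3) X β φ) : Prop :=
  RA n e s (rb (ZbQ D v e i u) x0.1) x2.1 x1.1 (FQ v (e / 5) i u) x0.2 x1.2 x2.2

variable (D) in
/-- the test out of the hints, of what the top `i` sees and of the top `i` -/
def GaR (i u1 : Fin 3) (fr : Fin 3 → Lt X β φ → φ') (Gf : ℕ → ℕ → Zt X β γ φ → (Fin 3 → φ') → ℝ) (n e : ℕ)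
    (x0 : (β × Lt X β φ) × K0) (x1 : Lt X β φ × K1) (x2 : Lt X β φ × K2) (u : Pt (Fin 3) X β φ) : ℝ :=
  Gf n e (rb (ZbQ D v e i u) x0.1) fun j => fr j (if j = i then FQ v (e / 5) i u else if j = u1 then x2.1 else x1.1)

variable {v} {h}

theorem ThR_fac (i : Fin 3) (RA : RT X β γ φ K0 K1 K2) (n e s : ℕ)
    (x0 : (β × Lt X β φ) × K0) (x1 : Lt X β φ × K1) (x2 : Lt X β φ × K2) :
    Fac (fun w => (FQ v (e / 5) i w, ZbQ D v e i w)) (ThR D v i RA n e s x0 x1 x2) := by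
  intro a b hab
  have h1 := (Prod.mk.inj hab).1
  have h2 := (Prod.mk.inj hab).2
  unfold ThR
  rw [h1, h2]

theorem GaR_fac (i u1 : Fin 3) (fr : Fin 3 → Lt X β φ → φ') (Gf : ℕ → ℕ → Zt X β γ φ → (Fin 3 → φ') → ℝ) (n e : ℕ)
    (x0 : (β × Lt X β φ) × K0) (x1 : Lt X β φ × K1) (x2 : Lt X β φ × K2) :
    Fac (fun w => (FQ v (e / 5) i w, ZbQ D v e i w)) (GaR D v i u1 fr Gf n e x0 x1 x2) := by
  intro a b hab
  have h1 := (Prod.mk.inj hab).1
  have h2 := (Prod.mk.inj hab).2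
  unfold GaR
  rw [h1, h2]

variable (hv : Codes D v)

include hv in
/-- what `b0` sees -/
theorem b0_si {i : Fin 3} {c : ℕ → ℕ → Om W X β → K} {n s : ℕ} {m : ℕ} (hm : TP.nn n ≤ m) {S : Finset (Fin 3)}
    (hc : Fac (si D {i} univ S m) (c n s)) : Fac (si D {i} univ S m) (b0 v tb i c n s) := by
  intro a b hab
  obtain ⟨h1, h2, h3, h4⟩ := si_eq.1 hab
  have hs : sgt D {i} m a = sgt D {i} m b := sgt_eq.2 ⟨h1, h3, fun j => h4 j (mem_univ j)⟩
  have he : eT v tb n a = eT v tb n b := eT_sgt tb hv hm hs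
  unfold b0
  rw [hc a b hab, h3 i (mem_singleton_self i), he, SL_sgt tb hv (e := eT v tb n b) (pth_sing i)
    (by rw [nn_eT]; exact hm) (Finset.Subset.refl _) (eT v tb n b / 5) (eT v tb n b / 5) hs]

include hv in
/-- what `bt` sees -/
theorem bt_si {j : Fin 3} {c : ℕ → ℕ → Om W X β → K} {n s : ℕ} {m : ℕ} (hm : TP.nn n ≤ m) {E F S : Finset (Fin 3)}
    (hE : univ.erase j ⊆ E) (hF : ∀ k, k ∈ E ∨ k ∈ F) (hS : j ∈ S)
    (hc : Fac (si D E F S m) (c n s)) : Fac (si D E F S m) (bt v tb j c n s) := by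
  intro a b hab
  obtain ⟨h1, h2, h3, h4⟩ := si_eq.1 hab
  have hs : sgt D ∅ m a = sgt D ∅ m b := sgt_eq.2 ⟨h1, fun k hk => absurd hk (notMem_empty k), fun k => by
    rcases hF k with hk | hk
    · rw [h3 k hk]
    · exact h4 k hk⟩
  have he : eT v tb n a = eT v tb n b := eT_sgt tb hv hm hs
  have ht : eT v tb n b / 5 ≤ m := (eT_div_le tb (v := v) n b).trans hm
  unfold bt
  rw [hc a b hab, he, FQ_si tb hv ht hE hS hF hab]

/-- **(A)** -/
theorem rel_iff {i u1 u2 : Fin 3} {RA : RT X β γ φ K0 K1 K2}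
    {c0 : ℕ → ℕ → Om W X β → K0} {c1 : ℕ → ℕ → Om W X β → K1} {c2 : ℕ → ℕ → Om W X β → K2} (n s : ℕ)
    (w : Om W X β) :
    ThR D v i RA n (eT v tb n w) s (b0 v tb i c0 n s w) (bt v tb u2 c1 n s w) (bt v tb u1 c2 n s w)
        (tb.pt (eT v tb n w / 5) w) ↔
      RA n (eT v tb n w) s (ZQ D v (eT v tb n w) (tb.pt (eT v tb n w / 5) w))
        (FQ v (eT v tb n w / 5) u1 (tb.pt (eT v tb n w / 5) w)) (FQ v (eT v tb n w / 5) u2 (tb.pt (eT v tb n w / 5) w))
        (FQ v (eT v tb n w / 5) i (tb.pt (eT v tb n w / 5) w)) (c0 n s w) (c1 n s w) (c2 n s w) := by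
  unfold ThR b0 bt
  rw [show (w.2.2 i, SL v (eT v tb n w) {i} (tb.pt (eT v tb n w / 5) w)) =
    ((tb.pt (eT v tb n w / 5) w).2.1 i, SL v (eT v tb n w) {i} (tb.pt (eT v tb n w / 5) w)) from rfl, rb_eq]

theorem fin3_cases : ∀ (i u1 u2 j : Fin 3), u1 ≠ i → u2 ≠ i → u1 ≠ u2 → j ≠ i → j ≠ u1 → j = u2 := by decide

/-- **(G)** -/
theorem test_eq {i u1 u2 : Fin 3} (h1 : u1 ≠ i) (h2 : u2 ≠ i) (h12 : u1 ≠ u2) {fr : Fin 3 → Lt X β φ → φ'}
    {Gf : ℕ → ℕ → Zt X β γ φ → (Fin 3 → φ') → ℝ} {c0 : ℕ → ℕ → Om W X β → K0} {c1 : ℕ → ℕ → Om W X β → K1}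
    {c2 : ℕ → ℕ → Om W X β → K2} (n s : ℕ) (w : Om W X β) :
    GaR D v i u1 fr Gf n (eT v tb n w) (b0 v tb i c0 n s w) (bt v tb u2 c1 n s w) (bt v tb u1 c2 n s w)
        (tb.pt (eT v tb n w / 5) w) =
      Gf n (eT v tb n w) (ZQ D v (eT v tb n w) (tb.pt (eT v tb n w / 5) w))
        (fun j => fr j (FQ v (eT v tb n w / 5) j (tb.pt (eT v tb n w / 5) w))) := by
  unfold GaR b0 bt
  rw [show (w.2.2 i, SL v (eT v tb n w) {i} (tb.pt (eT v tb n w / 5) w)) =
    ((tb.pt (eT v tb n w / 5) w).2.1 i, SL v (eT v tb n w) {i} (tb.pt (eT v tb n w / 5) w)) from rfl, rb_eq]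
  congr 1
  funext j
  congr 1
  by_cases hj : j = i
  · rw [if_pos hj, hj]
  · rw [if_neg hj]
    by_cases hj1 : j = u1
    · rw [if_pos hj1, hj1]
    · rw [if_neg hj1, fin3_cases i u1 u2 j h1 h2 h12 hj hj1]

/-- **(N)** -/
theorem test_one {i u1 u2 : Fin 3} (h1 : u1 ≠ i) (h2 : u2 ≠ i) (h12 : u1 ≠ u2) {fr : Fin 3 → Lt X β φ → φ'}
    {Gf : ℕ → ℕ → Zt X β γ φ → (Fin 3 → φ') → ℝ} {c0 : ℕ → ℕ → Om W X β → K0} {c1 : ℕ → ℕ → Om W X β → K1}
    {c2 : ℕ → ℕ → Om W X β → K2} (n s : ℕ) (w : Om W X β)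
    (hone : ∀ f : Fin 3 → φ', (D.P h (eT v tb n w / 5)).ce (ZbQ D v (eT v tb n w) i) (fun u' => Real.exp
      (Gf n (eT v tb n w) (ZQ D v (eT v tb n w) (tb.pt (eT v tb n w / 5) w))
        (Function.update f i (fr i (FQ v (eT v tb n w / 5) i u'))))) (tb.pt (eT v tb n w / 5) w) ≤ 1) :
    (D.P h (eT v tb n w / 5)).ce (ZbQ D v (eT v tb n w) i) (fun u' => Real.exp
      (GaR D v i u1 fr Gf n (eT v tb n w) (b0 v tb i c0 n s w) (bt v tb u2 c1 n s w) (bt v tb u1 c2 n s w) u'))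
        (tb.pt (eT v tb n w / 5) w) ≤ 1 := by
  refine le_trans (le_of_eq ?_) (hone fun j => fr j (FQ v (eT v tb n w / 5) j (tb.pt (eT v tb n w / 5) w)))
  refine Gdy.ce_congr_on fun u' _ hu' => ?_
  congr 1
  unfold GaR b0 bt
  rw [hu', show (w.2.2 i, SL v (eT v tb n w) {i} (tb.pt (eT v tb n w / 5) w)) =
    ((tb.pt (eT v tb n w / 5) w).2.1 i, SL v (eT v tb n w) {i} (tb.pt (eT v tb n w / 5) w)) from rfl, rb_eq]
  congr 1
  funext j
  by_cases hj : j = i
  · subst hj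
    rw [if_pos rfl, Function.update_self]
  · rw [if_neg hj, Function.update_of_ne hj]
    congr 1
    by_cases hj1 : j = u1
    · rw [if_pos hj1, hj1]
    · rw [if_neg hj1, fin3_cases i u1 u2 j h1 h2 h12 hj hj1]

/-! ### numbers of values of the hints -/

theorem SL_XLq (e : ℕ) (i : Fin 3) (u : Pt (Fin 3) X β φ) :
    SL v e {i} u = ((XLq v e i u).2, fun _ => Option.none) := by
  have key : ∀ i l : Fin 3, (univ : Finset (Fin 3)).erase l ≠ {i} := by decide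
  unfold SL LL XLq XL
  refine Prod.ext rfl (funext fun l => ?_)
  exact if_neg (key i l)

/-- **(M0)** : typical letters of the vertex `i`, given its point and the public information of the tables -/
theorem m0 [Fintype K] {i : Fin 3} (c : ℕ → ℕ → Om W X β → K) {n : ℕ} (hn : n < 5 * T) (e : ℕ) (X0 : ℝ) (b : β)
    (z : List (Pt (Fin 3) X β φ) × (γ × (Fin 3 → γ))) :
    ∃ S : Finset ((β × Lt X β φ) × K), (S.card : ℝ) ≤ Real.exp X0 * Fintype.card K ∧ ∀ (s : ℕ) (w : Om W X β),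
      tb.Ps.p w ≠ 0 → eT v tb n w = e → w.2.2 i = b → NPq D v e (tb.pt (e / 5) w) = z →
      ssQ h v e i (tb.pt (e / 5) w) ≤ X0 → b0 v tb i c n s w ∈ S := by
  classical
  obtain ⟨s0, h1, h2⟩ := let_z (h := h) (v := v) e i X0 b z
  refine ⟨(s0 ×ˢ univ).image fun x => ((x.1.1, (x.1.2, fun _ => Option.none)), x.2), ?_, fun s w hw he hb hz hX => ?_⟩
  · refine le_trans (Nat.cast_le.2 Finset.card_image_le) ?_
    rw [Finset.card_product, Finset.card_univ]
    push_cast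
    exact mul_le_mul_of_nonneg_right h1 (Nat.cast_nonneg _)
  · have hT : e / 5 ≤ T := by
      rw [← he]
      exact eT_T tb hn w
    have h3 := h2 (tb.pt (e / 5) w) ((pul_pt h tb hT).ne hw) hb hz hX
    refine Finset.mem_image.2 ⟨(XLq v e i (tb.pt (e / 5) w), c n s w), Finset.mem_product.2 ⟨h3, mem_univ _⟩, ?_⟩
    unfold b0
    rw [he, SL_XLq]
    rfl

/-- **(M1), (M2)** : at most `1 / al` tops, given what the top sees at the state of the tables -/
theorem m1 [Fintype K] {N : Finset (Fin 3) → ℝ} {SS : Finset (Finset (Fin 3))} {dg : ℕ → X → ℝ} {Lam : ℝ}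
    (H : D.Hyp dg prr al T Lam) (R : Run h N SS (AdmDep D) v) (hS : ∀ l, univ.erase l ∈ SS) (hu : univ ∉ SS)
    (hN : ∀ l, 0 < N (univ.erase l)) {j : Fin 3} (c : ℕ → ℕ → Om W X β → K) {n : ℕ} (hn : n < 5 * T) (e : ℕ)
    (z : (Finset (Fin 3) → Option (Lt X β φ)) × ((Fin 3 → Option β) × (γ × (Fin 3 → γ)))) :
    ∃ S : Finset (Lt X β φ × K), (S.card : ℝ) ≤ 1 / al * Fintype.card K ∧ ∀ (s : ℕ) (w : Om W X β),
      tb.Ps.p w ≠ 0 → eT v tb n w = e → ZbQ D v e j (tb.pt (e / 5) w) = z → bt v tb j c n s w ∈ S := by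
  classical
  by_cases hT : e / 5 ≤ T
  · obtain ⟨s0, h1, h2⟩ := top_z H R hS hu hN hT (show 5 * (e / 5) ≤ e by omega) j z
    refine ⟨s0 ×ˢ univ, ?_, fun s w hw he hz => ?_⟩
    · rw [Finset.card_product, Finset.card_univ]
      push_cast
      exact mul_le_mul_of_nonneg_right h1 (Nat.cast_nonneg _)
    · have h3 := h2 (tb.pt (e / 5) w) ((pul_pt h tb hT).ne hw) hz
      unfold bt
      rw [he]
      exact Finset.mem_product.2 ⟨h3, mem_univ _⟩
  · refine ⟨∅, ?_, fun _ w _ he _ => absurd (he ▸ eT_T tb hn w) hT⟩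
    rw [Finset.card_empty, Nat.cast_zero]
    exact mul_nonneg (one_div_nonneg.2 h.pos.le) (Nat.cast_nonneg _)

/-- the mixed point and the sight -/
theorem mx_sgt {G S E : Finset (Fin 3)} {m : ℕ} {a w : Om W X β} (hE : ∀ j ∈ G, j ∉ E)
    (hc : ∀ j ∈ G, D.qb m (a.2.2 j) = D.qb m (w.2.2 j)) : sgt D E m (mx G S a w) = sgt D E m w := by
  rw [sgt_eq]
  refine ⟨rfl, fun j hj => ?_, fun j => ?_⟩
  · show (if j ∈ G then a.2.2 j else w.2.2 j) = w.2.2 j
    rw [if_neg fun hh => hE j hh hj]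
  · show D.qb m (if j ∈ G then a.2.2 j else w.2.2 j) = D.qb m (w.2.2 j)
    by_cases hj : j ∈ G
    · rw [if_pos hj]
      exact hc j hj
    · rw [if_neg hj]

end c

end

end Pool.Agent.GMH.PayPI
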