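import Pool.Agent.GMH.UV0
import Pool.Agent.GMH.GhoCZ

/-!
# GMH/UVZ (helper85): THE PART `ψ_Z` OF INPUT (I1) OF GMH/Unm (H3.UNM, U.4 (b)), over `US` on the table space

`R τ` = relation of the tables of `τ`, `g τ` = the part `ψ_Z` of the test (any function of the tables of `τ`), exact `v`.
* `split` : the sum over the decided lives = (B) the times `T^v = s` with the life running at the public start (`tkn n v s`,
  summed over the public starts `n`) + (C) the lives which are younger than the public epoch, taken at the first end after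
  `T^v` (`yng`, `yend q` : decided, young, the life or the epoch ends at `q + 1`) + the last ones;
* `bz_w`, `bz_sum` : (B), relation and test by the public start, with the coarse covers `mcZ` (covered at `sgn` = the end of the epoch);
* `yz` : (C) with the violations `vio` : at the end the section of the exact `v` has mass `≥ y1` and mean of `ψ_Z` above `lam`;
* `z_sum` : together.
-/

set_option autoImplicit false
set_option linter.unusedSectionVars false

namespace Pool.Agent.GMH.UVZ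

open Finset Pool.Agent.PWZ Pool.Agent.M3 Pool.Agent.GM Pool.Agent.GM.Harm Pool.Agent.GMH
open Pool.Agent.GMH.Gdy Pool.Agent.GMH.Dy Pool.Agent.GMH.TabF Pool.Agent.GMH.Blk Pool.Agent.GMH.GhoZ3
open Pool.Agent.GMH.TabZ (Zn V3 TR TOk TOkr Nm Sml Sp)
open Pool.Agent.GMH.MV Pool.Agent.GMH.CK
open Pool.Agent.GMH.UV (US Kd Seen tv Mx M0 Z0 zt blk dd bet tkx)
open Pool.Agent.GMH.UV0 (OnTab NS SW)

noncomputable section

/-! ## the split, for one point -/

section path

variable {Om : Type} [Fintype Om] {M : US Om} {Q : Kd Om} {v : Fin 3} {T : ℕ} {w : Om}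

variable (M Q T) in
/-- `T^v = s < T` in the public epoch `n`, the life runs at the public start -/
def tkn (n : ℕ) (v : Fin 3) (s : ℕ) (w : Om) : Prop :=
  s < T ∧ nu M.toMS s w = n ∧ tv M v s w ≤ n ∧ tkx M Q v s w

variable (M Q) in
/-- `T^v = s`, the life is younger than the public epoch -/
def tky (v : Fin 3) (s : ℕ) (w : Om) : Prop := tkx M Q v s w ∧ nu M.toMS s w < tv M v s w

variable (M Q) in
/-- the life is young and decided -/
def yng (v : Fin 3) (q : ℕ) (w : Om) : Prop := nu M.toMS q w < tv M v q w ∧ bet M Q v q w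

variable (M Q) in
/-- the life is young and was decided before `q` -/
def ynp (v : Fin 3) (q : ℕ) (w : Om) : Prop :=
  nu M.toMS q w < tv M v q w ∧ ∃ s < q, tv M v q w ≤ s ∧ tkx M Q v s w

variable (M Q) in
/-- the life is young and decided, the life or the epoch ends in the step `q` -/
def yend (v : Fin 3) (q : ℕ) (w : Om) : Prop :=
  yng M Q v q w ∧ (tv M v (q + 1) w = q + 1 ∨ nu M.toMS (q + 1) w = q + 1)

variable (M Q T) in
/-- the life `τ` is in the relation and decided before `T` -/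
def dcR (v : Fin 3) (R : ℕ → Om → Prop) (τ : ℕ) (w : Om) : Prop :=
  R τ w ∧ ∃ s < T, tv M v s w = τ ∧ tkx M Q v s w

theorem tau_le (v : Fin 3) (s : ℕ) (w : Om) : tv M v s w ≤ s := stg_le _ _

theorem nu_le (s : ℕ) (w : Om) : nu M.toMS s w ≤ s := stg_le _ _

theorem tau_mid {s r : ℕ} (h1 : tv M v s w ≤ r) (h2 : r ≤ s) : tv M v r w = tv M v s w :=
  stg_mid (C := M.Cv v) rfl h1 h2

theorem nu_mid {s r : ℕ} (h1 : nu M.toMS s w ≤ r) (h2 : r ≤ s) : nu M.toMS r w = nu M.toMS s w :=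
  stg_mid (C := C0 M.toMS) rfl h1 h2

theorem tau_or (v : Fin 3) (s : ℕ) (w : Om) :
    tv M v (s + 1) w = s + 1 ∨ tv M v (s + 1) w = tv M v s w := stg_or s w

theorem nu_or (s : ℕ) (w : Om) : nu M.toMS (s + 1) w = s + 1 ∨ nu M.toMS (s + 1) w = nu M.toMS s w := stg_or s w

/-- a sum of indicators of disjoint events -/
theorem sum_one {T : ℕ} {A : ℕ → Prop} (h : ∀ s s', A s → A s' → s = s') :
    ∑ s ∈ range T, ind (A s) = ind (∃ s < T, A s) := by
  classical
  by_cases hx : ∃ s < T, A s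
  · rw [ind_of hx]
    obtain ⟨s, hs, ha⟩ := hx
    rw [Finset.sum_eq_single s]
    · exact ind_of ha
    · exact fun s' _ hne => ind_not fun h' => hne (h s' s h' ha)
    · exact fun hn => absurd (mem_range.2 hs) hn
  · rw [ind_not hx]
    exact Finset.sum_eq_zero fun s hs => ind_not fun ha => hx ⟨s, mem_range.1 hs, ha⟩

/-- one term -/
theorem sum_pt {T m : ℕ} {A : ℕ → Prop} {f : ℕ → ℝ} (hm : ∀ n, A n → n = m) (hT : A m → m < T) :
    ∑ n ∈ range T, ind (A n) * f n = ind (A m) * f m := by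
  classical
  by_cases hA : A m
  · rw [Finset.sum_eq_single m]
    · intro n _ hne
      rw [ind_not fun h => hne (hm n h), zero_mul]
    · exact fun hn => absurd (mem_range.2 (hT hA)) hn
  · rw [ind_not hA, zero_mul]
    exact Finset.sum_eq_zero fun n _ => by rw [ind_not fun h => hA (hm n h ▸ h), zero_mul]

/-- from the lives to the times -/
theorem life_time (R : ℕ → Om → Prop) (g : ℕ → Om → ℝ) :
    ∑ τ ∈ range T, ind (tv M v τ w = τ ∧ dcR M Q T v R τ w) * g τ w =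
      ∑ s ∈ range T, ind (tkx M Q v s w ∧ R (tv M v s w) w) * g (tv M v s w) w := by
  classical
  have e1 : ∀ τ, ind (tv M v τ w = τ ∧ dcR M Q T v R τ w) * g τ w =
      ∑ s ∈ range T, ind (tv M v s w = τ ∧ (tkx M Q v s w ∧ R τ w)) * g τ w := by
    intro τ
    rw [← Finset.sum_mul, sum_one fun s s' h h' => UV.tkx_one h.2.1 h'.2.1 (h.1.trans h'.1.symm)]
    congr 1
    congr 1
    refine propext ⟨fun ⟨_, hr, s, hs, e, ht⟩ => ⟨s, hs, e, ht, hr⟩, fun ⟨s, hs, e, ht, hr⟩ => ⟨?_, hr, s, hs, e, ht⟩⟩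
    rw [← e]
    exact stg_idem s w
  rw [Finset.sum_congr rfl fun τ _ => e1 τ, Finset.sum_comm]
  refine Finset.sum_congr rfl fun s hs => ?_
  rw [sum_pt (m := tv M v s w) (f := fun τ => g τ w) (fun τ h => h.1.symm)
    fun _ => lt_of_le_of_lt (tau_le v s w) (mem_range.1 hs)]
  congr 1
  congr 1
  exact propext ⟨fun h => h.2, fun h => ⟨rfl, h⟩⟩

theorem tkn_le {n s : ℕ} (h : tkn M Q T n v s w) : n ≤ s := by
  rw [← h.2.1]
  exact nu_le s w

theorem tkn_tau {n s : ℕ} (h : tkn M Q T n v s w) : tv M v n w = tv M v s w :=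
  tau_mid h.2.2.1 (tkn_le h)

theorem tkn_one {n s s' : ℕ} (h : tkn M Q T n v s w) (h' : tkn M Q T n v s' w) : s = s' :=
  UV.tkx_one h.2.2.2 h'.2.2.2 ((tkn_tau h).symm.trans (tkn_tau h'))

theorem tkn_nu {n s : ℕ} (h : tkn M Q T n v s w) : nu M.toMS n w = n := by
  rw [← h.2.1]
  exact stg_idem s w

/-- (B) the lives which run at the public start -/
theorem split_B (R : ℕ → Om → Prop) (g : ℕ → Om → ℝ) :
    ∑ s ∈ range T, ind ((tkx M Q v s w ∧ tv M v s w ≤ nu M.toMS s w) ∧ R (tv M v s w) w) *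
      g (tv M v s w) w =
      ∑ n ∈ range T, ind (nu M.toMS n w = n) * (ind (R (tv M v n w) w ∧ ∃ s, tkn M Q T n v s w) *
        g (tv M v n w) w) := by
  classical
  have e1 : ∀ n, ind (nu M.toMS n w = n) * (ind (R (tv M v n w) w ∧ ∃ s, tkn M Q T n v s w) *
        g (tv M v n w) w) =
      ∑ s ∈ range T, ind (nu M.toMS s w = n ∧ (tkn M Q T n v s w ∧ R (tv M v n w) w)) * g (tv M v n w) w := by
    intro n
    rw [← Finset.sum_mul, sum_one fun s s' h h' => tkn_one h.2.1 h'.2.1, ← mul_assoc, ← ind_and]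
    congr 1
    congr 1
    exact propext ⟨fun ⟨_, hr, s, hs⟩ => ⟨s, hs.1, hs.2.1, hs, hr⟩, fun ⟨s, _, _, h, hr⟩ => ⟨tkn_nu h, hr, s, h⟩⟩
  rw [Finset.sum_congr rfl fun n _ => e1 n, Finset.sum_comm]
  refine Finset.sum_congr rfl fun s hs => ?_
  rw [sum_pt (m := nu M.toMS s w) (f := fun n => g (tv M v n w) w) (fun n h => h.1.symm)
    fun _ => lt_of_le_of_lt (nu_le s w) (mem_range.1 hs)]
  by_cases hle : tv M v s w ≤ nu M.toMS s w
  · rw [tau_mid hle (nu_le s w)]
    congr 1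
    congr 1
    exact propext ⟨fun h => ⟨rfl, ⟨mem_range.1 hs, rfl, hle, h.1.1⟩, h.2⟩, fun h => ⟨⟨h.2.1.2.2.2, hle⟩, h.2.2⟩⟩
  · rw [ind_not fun h => hle h.1.2, ind_not fun h => hle h.2.1.2.2.1, zero_mul, zero_mul]

theorem tky_S1 (q : ℕ) : ind (tky M Q v q w) + ind (ynp M Q v q w) = ind (yng M Q v q w) := by
  have h1 : tky M Q v q w → ¬ ynp M Q v q w := by
    rintro ⟨ht, _⟩ ⟨_, s, hs, hts, hx⟩
    exact ht.2 s hts hs hx.1
  have h2 : yng M Q v q w ↔ tky M Q v q w ∨ ynp M Q v q w := by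
    constructor
    · rintro ⟨hn, hb⟩
      obtain ⟨s, a, b, c⟩ := UV.bet_iff.1 hb
      rcases b.eq_or_lt with e | e
      · exact Or.inl ⟨e ▸ c, hn⟩
      · exact Or.inr ⟨hn, s, e, a, c⟩
    · rintro (⟨ht, hn⟩ | ⟨hn, s, hs, a, c⟩)
      · exact ⟨hn, UV.bet_iff.2 ⟨q, tau_le v q w, le_rfl, ht⟩⟩
      · exact ⟨hn, UV.bet_iff.2 ⟨s, a, hs.le, c⟩⟩
  by_cases a : tky M Q v q w
  · rw [ind_of a, ind_not (h1 a), ind_of (h2.2 (Or.inl a)), add_zero]
  · rw [ind_not a, zero_add]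
    congr 1
    exact propext ⟨fun b => h2.2 (Or.inr b), fun b => (h2.1 b).resolve_left a⟩

theorem ynp_succ (q : ℕ) : ynp M Q v (q + 1) w ↔
    yng M Q v q w ∧ ¬ (tv M v (q + 1) w = q + 1 ∨ nu M.toMS (q + 1) w = q + 1) := by
  constructor
  · rintro ⟨hn, s, hs, hts, hx⟩
    have h0 := tau_le (M := M) v s w
    have h1 : ¬ tv M v (q + 1) w = q + 1 := by omega
    have h2 : ¬ nu M.toMS (q + 1) w = q + 1 := by omega
    have h3 := (tau_or v q w).resolve_left h1
    have h4 := (nu_or q w).resolve_left h2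
    refine ⟨⟨by omega, UV.bet_iff.2 ⟨s, by omega, by omega, hx⟩⟩, fun h => h.elim h1 h2⟩
  · rintro ⟨⟨hn, hb⟩, hne⟩
    push Not at hne
    have h3 := (tau_or v q w).resolve_left hne.1
    have h4 := (nu_or q w).resolve_left hne.2
    obtain ⟨s, a, b, c⟩ := UV.bet_iff.1 hb
    exact ⟨by omega, s, by omega, by omega, c⟩

/-- (C) the young lives, at the first end after `T^v` -/
theorem split_C (R : ℕ → Om → Prop) (g : ℕ → Om → ℝ) :
    ∑ s ∈ range T, ind (tky M Q v s w ∧ R (tv M v s w) w) * g (tv M v s w) w =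
      ∑ q ∈ range T, ind (yend M Q v q w ∧ R (tv M v q w) w) * g (tv M v q w) w +
      ind (ynp M Q v T w ∧ R (tv M v T w) w) * g (tv M v T w) w := by
  induction T with
  | zero =>
    have h0 : ¬ (ynp M Q v 0 w ∧ R (tv M v 0 w) w) := fun h => by
      obtain ⟨_, s, hs, _⟩ := h.1
      exact absurd hs (Nat.not_lt_zero s)
    rw [Finset.sum_range_zero, Finset.sum_range_zero, ind_not h0, zero_mul, zero_add]
  | succ T ih =>
    rw [Finset.sum_range_succ, Finset.sum_range_succ, ih]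
    have e1 : ind (tky M Q v T w ∧ R (tv M v T w) w) + ind (ynp M Q v T w ∧ R (tv M v T w) w) =
        ind (yng M Q v T w ∧ R (tv M v T w) w) := by
      rw [ind_and, ind_and, ind_and, ← add_mul, tky_S1]
    have e2 : ind (ynp M Q v (T + 1) w ∧ R (tv M v (T + 1) w) w) * g (tv M v (T + 1) w) w =
        ind ((yng M Q v T w ∧ ¬ (tv M v (T + 1) w = T + 1 ∨ nu M.toMS (T + 1) w = T + 1)) ∧
          R (tv M v T w) w) * g (tv M v T w) w := by
      by_cases h : tv M v (T + 1) w = T + 1 ∨ nu M.toMS (T + 1) w = T + 1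
      · rw [ind_not fun a => ((ynp_succ T).1 a.1).2 h, ind_not fun a => a.1.2 h, zero_mul, zero_mul]
      · have h3 : tv M v (T + 1) w = tv M v T w :=
          (tau_or v T w).resolve_left fun a => h (Or.inl a)
        have h5 : ind (ynp M Q v (T + 1) w ∧ R (tv M v (T + 1) w) w) =
            ind ((yng M Q v T w ∧ ¬ (tv M v (T + 1) w = T + 1 ∨ nu M.toMS (T + 1) w = T + 1)) ∧
              R (tv M v T w) w) := by
          congr 1
          refine propext ⟨fun a => ⟨(ynp_succ T).1 a.1, ?_⟩, fun a => ⟨(ynp_succ T).2 a.1, ?_⟩⟩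
          · have := a.2
            rwa [h3] at this
          · rw [h3]
            exact a.2
        rw [h5, h3]
    have e3 : ind (yend M Q v T w ∧ R (tv M v T w) w) +
        ind ((yng M Q v T w ∧ ¬ (tv M v (T + 1) w = T + 1 ∨ nu M.toMS (T + 1) w = T + 1)) ∧
          R (tv M v T w) w) = ind (yng M Q v T w ∧ R (tv M v T w) w) := by
      by_cases h : tv M v (T + 1) w = T + 1 ∨ nu M.toMS (T + 1) w = T + 1
      · rw [ind_not (fun a => a.1.2 h : ¬ ((yng M Q v T w ∧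
          ¬ (tv M v (T + 1) w = T + 1 ∨ nu M.toMS (T + 1) w = T + 1)) ∧ R (tv M v T w) w)), add_zero]
        congr 1
        exact propext ⟨fun a => ⟨a.1.1, a.2⟩, fun a => ⟨⟨a.1, h⟩, a.2⟩⟩
      · rw [ind_not (fun a => h a.1.2 : ¬ (yend M Q v T w ∧ R (tv M v T w) w)), zero_add]
        congr 1
        exact propext ⟨fun a => ⟨a.1.1, a.2⟩, fun a => ⟨⟨a.1, h⟩, a.2⟩⟩
    rw [e2]
    have e4 : ∀ a b c d e x y : ℝ, a + b = c → d + e = c → x + b * y + a * y = x + d * y + e * y := by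
      intro a b c d e x y h1 h2
      have : b * y + a * y = d * y + e * y := by rw [← add_mul, ← add_mul, h2, ← h1, add_comm]
      linarith
    exact e4 _ _ _ _ _ _ _ e1 e3

/-- **THE SPLIT** -/
theorem split (R : ℕ → Om → Prop) (g : ℕ → Om → ℝ) :
    ∑ τ ∈ range T, ind (tv M v τ w = τ ∧ dcR M Q T v R τ w) * g τ w =
      ∑ n ∈ range T, ind (nu M.toMS n w = n) * (ind (R (tv M v n w) w ∧ ∃ s, tkn M Q T n v s w) *
        g (tv M v n w) w) +
      (∑ q ∈ range T, ind (yend M Q v q w ∧ R (tv M v q w) w) * g (tv M v q w) w +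
      ind (ynp M Q v T w ∧ R (tv M v T w) w) * g (tv M v T w) w) := by
  rw [life_time, ← split_B, ← split_C, ← Finset.sum_add_distrib]
  refine Finset.sum_congr rfl fun s _ => ?_
  rw [← add_mul]
  congr 1
  by_cases h : tv M v s w ≤ nu M.toMS s w
  · rw [ind_not (fun a => absurd a.1.2 (not_lt.2 h) : ¬ (tky M Q v s w ∧ R (tv M v s w) w)), add_zero]
    congr 1
    exact propext ⟨fun a => ⟨⟨a.1, h⟩, a.2⟩, fun a => ⟨a.1.1, a.2⟩⟩
  · rw [ind_not (fun a => h a.1.2 : ¬ ((tkx M Q v s w ∧ tv M v s w ≤ nu M.toMS s w) ∧ R (tv M v s w) w)),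
      zero_add]
    congr 1
    exact propext ⟨fun a => ⟨⟨a.1, not_le.1 h⟩, a.2⟩, fun a => ⟨a.1.1, a.2⟩⟩

/-! ### the end of the epoch -/

theorem sgn_ex (M : US Om) (T n : ℕ) (w : Om) : ∃ s, n ≤ s ∧ (T ≤ s ∨ nu M.toMS s w ≠ n) :=
  ⟨max n T, le_max_left _ _, Or.inl (le_max_right _ _)⟩

open Classical in
/-- the first time after the public epoch `n` (or `T`) -/
def sgn (M : US Om) (T n : ℕ) (w : Om) : ℕ := Nat.find (sgn_ex M T n w)

theorem sgn_le {n : ℕ} (hn : n ≤ T) : sgn M T n w ≤ T := by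
  classical
  exact Nat.find_min' _ ⟨hn, Or.inl le_rfl⟩

theorem sgn_iff {n s : ℕ} : sgn M T n w ≤ s ↔ ∃ r ≤ s, n ≤ r ∧ (T ≤ r ∨ nu M.toMS r w ≠ n) := by
  classical
  exact Nat.find_le_iff _ _

theorem tkn_sgn {n s : ℕ} (h : tkn M Q T n v s w) : s ≤ sgn M T n w := by
  by_contra hc
  obtain ⟨r, hr, h1, h2⟩ := sgn_iff.1 (show sgn M T n w ≤ s - 1 by omega)
  have h3 := tkn_le h
  have h4 := h.1
  rcases h2 with h2 | h2
  · omega
  · refine h2 ?_
    have h5 := nu_mid (M := M) (w := w) (s := s) (r := r) (by rw [h.2.1]; exact h1) (by omega)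
    rw [h5]
    exact h.2.1

end path

/-! ## (C) : young lives, at the first end after `T^v` -/

section young

variable {Om : Type} [Fintype Om] {M : US Om} {Q : Kd Om} {v : Fin 3} {T : ℕ} {w : Om} {R : ℕ → Om → Prop}
  {g : ℕ → Om → ℝ} {lam y1 L : ℝ}

theorem yend_S (H : Seen M) (v : Fin 3) (q : ℕ) : ∀ a b : Om, M.S {v} (q + 1) a = M.S {v} (q + 1) b →
    (yend M Q v q a ↔ yend M Q v q b) := by
  intro a b e
  unfold yend yng
  rw [UV.nu_S H (Nat.le_succ q) a b e, UV.tau_S H v (Nat.le_succ q) a b e, UV.bet_S H v (Nat.le_succ q) e,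
    UV.tau_S H v (le_refl (q + 1)) a b e, UV.nu_S H (le_refl (q + 1)) a b e]

/-- mass of the section of the exact `v` at the end of the step `q` -/
def mR (M : US Om) (v : Fin 3) (R : ℕ → Om → Prop) (q : ℕ) (w : Om) : ℝ :=
  M.P.ce (M.S {v} (q + 1)) (fun u => ind (R (tv M v q u) u)) w

/-- mean of the test over the section -/
def mG (M : US Om) (v : Fin 3) (R : ℕ → Om → Prop) (g : ℕ → Om → ℝ) (q : ℕ) (w : Om) : ℝ :=
  M.P.ce (M.S {v} (q + 1)) (fun u => ind (R (tv M v q u) u) * g (tv M v q u) u) w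

/-- violation: the section of the exact `v` has mass `≥ y1` and mean of the test above `lam` -/
def vio (M : US Om) (v : Fin 3) (R : ℕ → Om → Prop) (g : ℕ → Om → ℝ) (lam y1 : ℝ) (q : ℕ) (w : Om) : Prop :=
  y1 ≤ mR M v R q w ∧ lam * mR M v R q w < mG M v R g q w

/-- one step -/
theorem yz_step (H : Seen M) (q : ℕ) (l0 : 0 ≤ lam) (y0 : 0 ≤ y1) (L0 : 0 ≤ L) (hL : ∀ τ w, g τ w ≤ L) :
    M.P.E (fun w => ind (yend M Q v q w ∧ R (tv M v q w) w) * g (tv M v q w) w) ≤
      lam * M.P.Pr (fun w => yend M Q v q w ∧ R (tv M v q w) w) + L * y1 * M.P.Pr (yend M Q v q) +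
      L * M.P.Pr (fun w => (yend M Q v q w ∧ vio M v R g lam y1 q w) ∧ R (tv M v q w) w) := by
  have fy : Fac (M.S {v} (q + 1)) (fun w => ind (yend M Q v q w)) :=
    Fac.ind fun a b e => yend_S H v q a b e
  have fR : Fac (M.S {v} (q + 1)) (mR M v R q) := M.P.ce_fac _ _
  have fG : Fac (M.S {v} (q + 1)) (mG M v R g q) := M.P.ce_fac _ _
  have fv : Fac (M.S {v} (q + 1)) (fun w => ind (yend M Q v q w ∧ vio M v R g lam y1 q w)) :=
    Fac.ind fun a b e => by
      unfold vio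
      rw [propext (yend_S H v q a b e), fR a b e, fG a b e]
  have e1 : M.P.E (fun w => ind (yend M Q v q w ∧ R (tv M v q w) w) * g (tv M v q w) w) =
      M.P.E (fun w => ind (yend M Q v q w) * mG M v R g q w) := by
    unfold mG
    rw [M.P.E_mul_ce fy]
    exact M.P.E_congr fun w _ => by rw [ind_and, mul_assoc]
  have e2 : M.P.Pr (fun w => yend M Q v q w ∧ R (tv M v q w) w) =
      M.P.E (fun w => ind (yend M Q v q w) * mR M v R q w) := by
    unfold mR
    rw [M.P.E_mul_ce fy]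
    exact M.P.E_congr fun w _ => ind_and _ _
  have e3 : M.P.Pr (fun w => (yend M Q v q w ∧ vio M v R g lam y1 q w) ∧ R (tv M v q w) w) =
      M.P.E (fun w => ind (yend M Q v q w ∧ vio M v R g lam y1 q w) * mR M v R q w) := by
    rw [show (mR M v R q) = M.P.ce (M.S {v} (q + 1)) (fun u => ind (R (tv M v q u) u)) from rfl,
      M.P.E_mul_ce fv]
    exact M.P.E_congr fun w _ => ind_and _ _
  rw [e1, e2, e3, show M.P.Pr (yend M Q v q) = M.P.E (fun w => ind (yend M Q v q w)) from rfl, ← FP.E_smul, ← FP.E_smul,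
    ← FP.E_smul, ← FP.E_add, ← FP.E_add]
  refine M.P.E_mono fun w hw => ?_
  have hR0 : 0 ≤ mR M v R q w := M.P.ce_nonneg (fun _ _ => ind_nonneg _) w
  have hGR : mG M v R g q w ≤ L * mR M v R q w := by
    unfold mG mR
    rw [← M.P.ce_smul]
    refine M.P.ce_mono (fun u _ => ?_) w
    have := mul_le_mul_of_nonneg_left (hL (tv M v q u) u) (ind_nonneg (R (tv M v q u) u))
    linarith
  rw [ind_and (yend M Q v q w) (vio M v R g lam y1 q w)]
  have hy := ind_nonneg (yend M Q v q w)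
  have key : mG M v R g q w ≤ lam * mR M v R q w + L * y1 + L * (ind (vio M v R g lam y1 q w) * mR M v R q w) := by
    by_cases h1 : y1 ≤ mR M v R q w
    · by_cases h2 : lam * mR M v R q w < mG M v R g q w
      · rw [ind_of (show vio M v R g lam y1 q w from ⟨h1, h2⟩)]
        have := mul_nonneg l0 hR0
        have := mul_nonneg L0 y0
        linarith
      · have h3 := mul_nonneg L0 (mul_nonneg (ind_nonneg (vio M v R g lam y1 q w)) hR0)
        have := mul_nonneg L0 y0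
        have := not_lt.1 h2
        linarith
    · have h3 := mul_nonneg L0 (mul_nonneg (ind_nonneg (vio M v R g lam y1 q w)) hR0)
      have h4 := mul_nonneg l0 hR0
      have h5 := mul_le_mul_of_nonneg_left (not_le.1 h1).le L0
      linarith
  refine (mul_le_mul_of_nonneg_left key hy).trans (le_of_eq ?_)
  ring

/-- the violations of the young lives -/
def VY (M : US Om) (Q : Kd Om) (T : ℕ) (v : Fin 3) (R : ℕ → Om → Prop) (g : ℕ → Om → ℝ) (lam y1 : ℝ) : ℝ :=
  ∑ q ∈ range T, M.P.Pr (fun w => (yend M Q v q w ∧ vio M v R g lam y1 q w) ∧ R (tv M v q w) w)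

/-- the number of the times `T^v` of the young lives, in the relation -/
def NC (M : US Om) (Q : Kd Om) (T : ℕ) (v : Fin 3) (R : ℕ → Om → Prop) : ℝ :=
  ∑ s ∈ range T, M.P.Pr (fun w => tky M Q v s w ∧ R (tv M v s w) w)

theorem NC_ge (R : ℕ → Om → Prop) :
    ∑ q ∈ range T, M.P.Pr (fun w => yend M Q v q w ∧ R (tv M v q w) w) ≤ NC M Q T v R := by
  unfold NC FP.Pr
  rw [← FP.E_sum, ← FP.E_sum]
  refine M.P.E_mono fun w _ => ?_
  have e := split_C (M := M) (Q := Q) (v := v) (T := T) (w := w) R (fun _ _ => 1)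
  simp only [mul_one] at e
  have := ind_nonneg (ynp M Q v T w ∧ R (tv M v T w) w)
  linarith

/-- **(C)** : the young lives -/
theorem yz (H : Seen M) (l0 : 0 ≤ lam) (y0 : 0 ≤ y1) (L0 : 0 ≤ L) (hL : ∀ τ w, g τ w ≤ L) :
    M.P.E (fun w => ∑ q ∈ range T, ind (yend M Q v q w ∧ R (tv M v q w) w) * g (tv M v q w) w +
      ind (ynp M Q v T w ∧ R (tv M v T w) w) * g (tv M v T w) w) ≤
      lam * NC M Q T v R + L * y1 * NC M Q T v (fun _ _ => True) + L * VY M Q T v R g lam y1 +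
      L * M.P.Pr (fun w => ynp M Q v T w ∧ R (tv M v T w) w) := by
  rw [FP.E_add, FP.E_sum]
  refine add_le_add ?_ ?_
  · have h1 := mul_le_mul_of_nonneg_left (NC_ge (M := M) (Q := Q) (v := v) (T := T) R) l0
    have h2 := mul_le_mul_of_nonneg_left (NC_ge (M := M) (Q := Q) (v := v) (T := T) (fun _ _ => True))
      (mul_nonneg L0 y0)
    have h3 : ∑ q ∈ range T, M.P.E (fun w => ind (yend M Q v q w ∧ R (tv M v q w) w) *
        g (tv M v q w) w) ≤
        ∑ q ∈ range T, (lam * M.P.Pr (fun w => yend M Q v q w ∧ R (tv M v q w) w) +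
          L * y1 * M.P.Pr (fun w => yend M Q v q w ∧ True) +
          L * M.P.Pr (fun w => (yend M Q v q w ∧ vio M v R g lam y1 q w) ∧ R (tv M v q w) w)) := by
      refine Finset.sum_le_sum fun q _ => ?_
      have := yz_step (Q := Q) (v := v) (R := R) H q l0 y0 L0 hL
      simp only [and_true]
      exact this
    rw [Finset.sum_add_distrib, Finset.sum_add_distrib, ← Finset.mul_sum, ← Finset.mul_sum, ← Finset.mul_sum] at h3
    unfold VY
    linarith
  · unfold FP.Pr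
    rw [← FP.E_smul]
    refine M.P.E_mono fun w _ => ?_
    have := mul_le_mul_of_nonneg_left (hL (tv M v T w) w)
      (ind_nonneg (ynp M Q v T w ∧ R (tv M v T w) w))
    linarith

end young

/-! ## (B) : coarse covers in the world of a public start -/

section tabl

variable {X β γ φ : Type} [Fintype X] [Fintype β] [Fintype φ] [Nonempty X] [Nonempty β]
variable {D : HD (Fin 3) X β γ φ} {al : ℝ} {prr : ℕ → Fin 3 → φ → φ} {T0 : ℕ} {W : Type} [Fintype W]
variable {tb : Tab D prr T0 W} {M : US (Om W X β)} {tm : ℕ → ℕ} {Q : Kd (Om W X β)} {T n : ℕ} {z : Om W X β}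
  {R : ℕ → Om W X β → Prop} {g : ℕ → Om W X β → ℝ} {b c d : Fin 3} {k : Nm} {L : ℝ}

theorem tkn_S (hO : OnTab M tb tm) (H : Seen M) {v : Fin 3} {s : ℕ} {x w : Om W X β}
    (e : sgt D {v} (tm s) x = sgt D {v} (tm s) w) : tkn M Q T n v s x ↔ tkn M Q T n v s w := by
  have e0 : M.S {v} s x = M.S {v} s w := (hO.hS {v} s x w).2 e
  unfold tkn
  rw [UV.nu_S H le_rfl x w e0, UV.tau_S H v le_rfl x w e0, UV.tkx_S H v le_rfl e0]

theorem stp_sgn (hO : OnTab M tb tm) (H : Seen M) : Stp (fun s => sgt (W := W) D ∅ (tm s)) (sgn M T n) := by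
  intro s v w e
  rw [sgn_iff, sgn_iff]
  refine exists_congr fun r => and_congr_right fun hr => ?_
  rw [UV.nu_S H (E := ∅) hr v w ((hO.hS ∅ s v w).2 e)]

/-- before the zone: the density of the relation `R n` of the epoch at the node is below `u0` (input of the main theorem) -/
def Alo (M : US (Om W X β)) (Q : Kd (Om W X β)) (T : ℕ) (v : Fin 3) (R : ℕ → Om W X β → Prop) (u0 : ℝ) : Prop :=
  ∀ n s w, M.P.p w ≠ 0 → tkn M Q T n v s w → ∀ s', n ≤ s' → s' ≤ s →
    M.P.ce (M.S ∅ s') (fun x => ind (R n x)) w < u0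

/-- the density of the relation is one of the static densities, the vertex time is before the zone -/
theorem alo_of {v : Fin 3} {R1 : ℕ → Om W X β → Prop} (h0 : ∀ s w, ¬ M.ex0 s w) (hR : ∀ n w, R n w → R1 (tv M v n w) w)
    (hM : ∀ s w, M.P.ce (M.S ∅ s) (fun u => ind (R1 (tv M v (nu M.toMS s w) u) u)) w ≤ M0 M Q s w) :
    Alo M Q T v R Q.u0 := by
  intro n s w _ h s' h1 h2
  have h3 : nu M.toMS s' w = n := (nu_mid (by rw [h.2.1]; exact h1) h2).trans h.2.1
  have h4 := hM s' w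
  rw [h3] at h4
  have h5 : M0 M Q s' w < Q.u0 := by
    by_contra h6
    exact h.2.2.2.1.2.1 ⟨⟨s', by rw [h.2.1]; exact h1, h2, not_lt.1 h6, h0 s' w⟩, by rw [h.2.1]; exact h.2.2.1⟩
  exact lt_of_le_of_lt ((M.P.ce_mono (fun x _ => ind_mono (hR n x)) w).trans h4) h5

/-- before the zone the density of the relation at the node is small -/
theorem tkn_al (hO : OnTab M tb tm) {v : Fin 3} {u0 : ℝ} (hM : Alo M Q T v R u0) {s : ℕ} {w : Om W X β}
    (hw : (WE tb ∅ (tm n) z).p w ≠ 0) (h : tkn M Q T n v s w) :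
    GhoT.al (WE tb ∅ (tm n) z) (fun s => sgt D ∅ (tm s)) (R n) u0 s w := by
  have hns := tkn_le h
  have key : ∀ s', n ≤ s' → s' ≤ s →
      cp (WE tb ∅ (tm n) z) (fun s => sgt D ∅ (tm s)) s' (R n) w < u0 := by
    intro s' h1 h2
    refine lt_of_le_of_lt (le_of_eq ?_) (hM n s w (by rw [hO.hP]; exact ((WE_supp tb).1 hw).1) h s' h1 h2)
    exact UV0.ce_M (z := z) hO (Finset.Subset.refl _) h1 hw _
  intro s' hs'
  rcases Nat.lt_or_ge s' n with h1 | h1
  · refine lt_of_le_of_lt (le_of_eq ?_) (key n le_rfl hns)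
    refine ce_supp (fun x y hx hy => ?_) _ hw
    have e : sgt D ∅ (tm n) x = sgt D ∅ (tm n) y :=
      ((WE_supp tb).1 hx).2.trans ((WE_supp tb).1 hy).2.symm
    refine ⟨fun _ => e, fun _ => ?_⟩
    rw [sgt_eq] at e ⊢
    exact ⟨e.1, e.2.1, fun j => Dy.qb_mono (hO.mono h1.le) (e.2.2 j)⟩
  · exact key s' h1 hs'

variable (M Q T n) in
/-- the sections of the coarse covers -/
def Ab (R : ℕ → Om W X β → Prop) (v : Fin 3) (s : ℕ) (w : Om W X β) : Prop :=
  tkn M Q T n v s w ∧ R n w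

variable (M T n) in
/-- the time of the payment -/
def zze (s : ℕ) (w : Om W X β) : Prop := sgn M T n w = s

/-- covered mass of the coarse covers at the end of the epoch, in the mean over the samples -/
def mcZ (P : FP (Om W X β)) (M : US (Om W X β)) (Q : Kd (Om W X β)) (T n : ℕ) (D : HD (Fin 3) X β γ φ) (tm : ℕ → ℕ)
    (w0 : Om W X β) (b c d : Fin 3) (R : ℕ → Om W X β → Prop) (g : ℕ → Om W X β → ℝ) (k : Nm) : ℝ :=
  (Sp P w0 {b} {c, d} k).E fun x => cz P (zze M T n) (cv P (TabF.pj w0 {b} {c, d}) (TabF.pj w0 {c, d} {b})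
    (fun s => si D ∅ {c, d} ∅ (tm s)) (Ab M Q T n R b) (TabF.ts {b} {c, d} (g n))
    k.kap k.lam k.K x)

/-- **COARSE COVERS IN ONE WORLD**, one sample -/
theorem bz_x (hO : OnTab M tb tm) (H : Seen M) (w0 : Om W X β) (hv : V3 b c d) (hn : n ≤ T)
    {u0 : ℝ} (hM : Alo M Q T b R u0)
    (hK : 0 < k.K) (k0 : 0 < k.kap) (l0 : 0 ≤ k.lam) (L0 : 0 ≤ L) (hL : ∀ τ w, g τ w ≤ L) {u3 : ℝ} (c0 : 0 < u3)
    (z0 : 0 ≤ u0) (x : Sml (Om W X β) k) :
    (WE tb ∅ (tm n) z).E (fun w => ind (R n w ∧ ∃ s, tkn M Q T n b s w) * g n w) ≤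
      k.lam * (WE tb ∅ (tm n) z).Pr (fun w => R n w ∧ ∃ s, tkn M Q T n b s w) +
      L * k.kap * (WE tb ∅ (tm n) z).Pr (fun w => ∃ s, tkn M Q T n b s w) +
      L * GhoZ3.bp (WE tb ∅ (tm n) z) (TabF.pj w0 {b} {c, d}) (TabF.pj w0 {c, d} {b})
        (fun s => si D ∅ {c, d} ∅ (tm s)) (Ab M Q T n R b) (TabF.ts {b} {c, d} (g n))
        k.kap k.lam k.K (T + 1) x +
      L * ((u3 + u0 / (u3 * k.kap)) * cz (WE tb ∅ (tm n) z) (zze M T n) (cv (WE tb ∅ (tm n) z)
        (TabF.pj w0 {b} {c, d}) (TabF.pj w0 {c, d} {b})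
        (fun s => si D ∅ {c, d} ∅ (tm s)) (Ab M Q T n R b) (TabF.ts {b} {c, d} (g n))
        k.kap k.lam k.K x)) := by
  obtain ⟨q1, q2, q3, q4, -, -⟩ := hv.dec
  have F : Face (WE tb ∅ (tm n) z) (fun w => w) (fun _ _ => False) (TabF.pj w0 {b} {c, d}) (TabF.pj w0 {c, d} {b})
      (fun s => si D ∅ {c, d} ∅ (tm s)) := by
    have e := face (wo_WE tb ∅ (tm n) z) w0 (F := {c, d}) (G := {b}) (S := {b}) (S' := {c, d}) q1
      (by rw [Finset.empty_union]; exact q2) q3 q4 hO.ht (zz := fun _ _ => False) (fun _ _ _ _ => Iff.rfl)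
    simp only [Finset.empty_union] at e
    exact e
  have hux : ∀ s (x w : Om W X β), (TabF.pj w0 {b} {c, d} x, si D ∅ {c, d} ∅ (tm s) x) =
      (TabF.pj w0 {b} {c, d} w, si D ∅ {c, d} ∅ (tm s) w) → sgt D {b} (tm s) x = sgt D {b} (tm s) w := by
    intro s x w e
    rw [Prod.mk.injEq, pj_eq, si_eq] at e
    obtain ⟨⟨a1, -, a3⟩, -, -, -, b4⟩ := e
    rw [sgt_eq]
    refine ⟨a1, a3, fun j => ?_⟩
    rcases Finset.mem_union.1 (show j ∈ ({b} : Finset (Fin 3)) ∪ {c, d} from q2 ▸ mem_univ j) with hj | hj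
    · rw [a3 j hj]
    · exact b4 j hj
  have h1 := GhoCZ.cz_all (P := WE tb ∅ (tm n) z) (U := TabF.pj w0 {b} {c, d}) (V := TabF.pj w0 {c, d} {b})
    (X := fun s => si D ∅ {c, d} ∅ (tm s)) (Vs := fun s => si D {c, d} univ {b} (tm s))
    (nd := fun s => sgt D ∅ (tm s)) (tk := tkn M Q T n b) (R := R n)
    (f := TabF.ts {b} {c, d} (g n)) (psZ := g n)
    (kap := k.kap) (lam := k.lam) (L := L) (u0 := u0) (u3 := u3) (K := k.K) (M := k.M) (T := T + 1) (x := x)
    (sg := sgn M T n) F.iI F.hX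
    (fun s x w e => tkn_S hO H (hux s x w e)) (fun w s s' a a' => tkn_one a a')
    (fun x w e e' => by rw [show x = w from F.hUV x w e e']) l0 k0 L0 (fun w => hL _ w)
    (fun a => ts_fac w0 q2 q4 _ a) (fun w => ts_own w0 _ _ _ w)
    (fun s => si_fac (Finset.Subset.refl _) (fun j hj => Or.inr ⟨hj, hO.ht s⟩) (Finset.Subset.refl _))
    (fun s => fac_sgt _ _ (Finset.empty_subset _) (tm s))
    (fun s => fac_si_pj w0 (Finset.Subset.refl _) (Finset.Subset.refl _) (tm s))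
    (fun s v w e => by
      rw [sgt_eq] at e ⊢
      exact ⟨e.1, e.2.1, fun j => Dy.qb_mono (hO.ht s) (e.2.2 j)⟩)
    (fun s g hg w hw => by
      have e := face_ch (wo_WE tb ∅ (tm n) z) w0 (F := {c, d}) (S := {b}) (m := tm s) (g := g)
        (by rw [Finset.empty_union]; exact hg) hw
      exact e.symm)
    (stp_sgn hO H) (fun w => Nat.lt_succ_of_le (sgn_le hn)) hK c0 z0
    (fun s w hw a => tkn_al (z := z) hO hM hw a) (fun s w a => tkn_sgn a)
  refine h1.trans (add_le_add le_rfl (mul_le_mul_of_nonneg_left (mul_le_mul_of_nonneg_left ?_ (by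
    positivity)) L0))
  exact FP.Pr_mono _ fun w _ a => ⟨_, rfl, a⟩

/-- a trivial zone -/
theorem zn0 (ht : ∀ s, tm s ≤ tm (s + 1)) :
    Zn (W := W) D tm T (fun _ _ => False) (fun _ _ => False) (fun _ _ => False) (fun _ _ _ => False) ∅ where
  ht := ht
  z1 := fun _ _ _ h _ => h.elim
  zT := fun _ _ h => h.elim
  hz := fun _ _ _ _ => Iff.rfl
  hu := fun _ _ _ _ _ _ => Iff.rfl
  Az := fun _ _ h => h
  Au := fun _ _ _ _ h => h
  AR := fun _ _ h => h

/-- **COARSE COVERS IN ONE WORLD, IN THE MEAN OVER THE SAMPLES** -/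
theorem bz_w (hO : OnTab M tb tm) (H : Seen M) (w0 : Om W X β) (hv : V3 b c d) (hn : n ≤ T)
    {u0 : ℝ} (hM : Alo M Q T b R u0)
    (hK : 1 < k.kap * k.K) (k0 : 0 < k.kap) (l0 : 0 ≤ k.lam) (L0 : 0 ≤ L) (hL : ∀ τ w, g τ w ≤ L) {u3 : ℝ}
    (c0 : 0 < u3) (z0 : 0 ≤ u0) :
    (WE tb ∅ (tm n) z).E (fun w => ind (R n w ∧ ∃ s, tkn M Q T n b s w) * g n w) ≤
      k.lam * (WE tb ∅ (tm n) z).Pr (fun w => R n w ∧ ∃ s, tkn M Q T n b s w) +
      L * k.kap * (WE tb ∅ (tm n) z).Pr (fun w => ∃ s, tkn M Q T n b s w) + L * (1 / (k.kap * (k.M + 1))) +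
      L * ((u3 + u0 / (u3 * k.kap)) * mcZ (WE tb ∅ (tm n) z) M Q T n D tm w0 b c d R g k) := by
  have hK0 : 0 < k.K := by
    rcases Nat.eq_zero_or_pos k.K with h | h
    · rw [h, Nat.cast_zero, mul_zero] at hK
      linarith
    · exact h
  set P := WE tb ∅ (tm n) z with hP
  set f : Om W X β → Om W X β → ℝ := TabF.ts {b} {c, d} (g n) with hf
  have h1 : (Sp P w0 {b} {c, d} k).E (fun _ => P.E (fun w => ind (R n w ∧
      ∃ s, tkn M Q T n b s w) * g n w)) ≤ (Sp P w0 {b} {c, d} k).E (fun x =>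
      (k.lam * P.Pr (fun w => R n w ∧ ∃ s, tkn M Q T n b s w) +
      L * k.kap * P.Pr (fun w => ∃ s, tkn M Q T n b s w)) +
      (L * GhoZ3.bp P (TabF.pj w0 {b} {c, d}) (TabF.pj w0 {c, d} {b})
        (fun s => si D ∅ {c, d} ∅ (tm s)) (Ab M Q T n R b) f k.kap k.lam k.K (T + 1) x +
      L * (u3 + u0 / (u3 * k.kap)) * cz P (zze M T n) (cv P
        (TabF.pj w0 {b} {c, d}) (TabF.pj w0 {c, d} {b})
        (fun s => si D ∅ {c, d} ∅ (tm s)) (Ab M Q T n R b) f k.kap k.lam k.K x))) := by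
    refine FP.E_mono _ fun x _ => (bz_x (z := z) hO H w0 hv hn hM hK0 k0 l0 L0 hL c0 z0 x).trans (le_of_eq ?_)
    ring
  rw [FP.E_const, FP.E_add, FP.E_const, FP.E_add, FP.E_smul, FP.E_smul] at h1
  have h2 := mul_le_mul_of_nonneg_left (TabZ.bad_m (T := T + 1) (wo_WE tb ∅ (tm n) z) (zn0 (T := T + 1) hO.ht) w0 hv hK k0
    (Ab M Q T n R b) f k.lam) L0
  unfold mcZ
  linarith

/-- the number of the times `T^b` of the lives which run at a public start, in the relation -/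
def NB (M : US (Om W X β)) (Q : Kd (Om W X β)) (T : ℕ) (b : Fin 3) (R : ℕ → Om W X β → Prop) : ℝ :=
  ∑ s ∈ range T, M.P.Pr (fun w => (tkx M Q b s w ∧ tv M b s w ≤ nu M.toMS s w) ∧ R (tv M b s w) w)

theorem NB_eq (b : Fin 3) (R : ℕ → Om W X β → Prop) : NB M Q T b R =
    ∑ n ∈ range T, M.P.E (fun w => ind (nu M.toMS n w = n) * ind (R (tv M b n w) w ∧ ∃ s, tkn M Q T n b s w)) := by
  unfold NB FP.Pr
  rw [← FP.E_sum, ← FP.E_sum]
  refine M.P.E_congr fun w _ => ?_
  have e := split_B (M := M) (Q := Q) (v := b) (T := T) (w := w) R (fun _ _ => 1)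
  simp only [mul_one] at e
  exact e

/-- the same, relation by the public start -/
def NBn (M : US (Om W X β)) (Q : Kd (Om W X β)) (T : ℕ) (b : Fin 3) (R : ℕ → Om W X β → Prop) : ℝ :=
  ∑ n ∈ range T, M.P.E (fun w => ind (nu M.toMS n w = n) * ind (R n w ∧ ∃ s, tkn M Q T n b s w))

/-- **(B)** : the sum over the lives which run at the public start of `T^b`, relation and test by the public start -/
theorem bz_sum (hO : OnTab M tb tm) (H : Seen M) (w0 : Om W X β) (hv : V3 b c d)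
    {u0 : ℝ} (hM : Alo M Q T b R u0)
    (hK : 1 < k.kap * k.K) (k0 : 0 < k.kap) (l0 : 0 ≤ k.lam) (L0 : 0 ≤ L) (hL : ∀ τ w, g τ w ≤ L) {u3 : ℝ}
    (c0 : 0 < u3) (z0 : 0 ≤ u0) :
    ∑ n ∈ range T, M.P.E (fun w => ind (nu M.toMS n w = n) * (ind (R n w ∧
      ∃ s, tkn M Q T n b s w) * g n w)) ≤
      k.lam * NBn M Q T b R + L * k.kap * NB M Q T b (fun _ _ => True) + L * (1 / (k.kap * (k.M + 1))) * NS M T +
      SW M tb tm T (fun n P => L * ((u3 + u0 / (u3 * k.kap)) * mcZ P M Q T n D tm w0 b c d R g k)) := by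
  rw [NB_eq]
  unfold NBn NS SW
  simp only [Finset.mul_sum]
  rw [← Finset.sum_add_distrib, ← Finset.sum_add_distrib, ← Finset.sum_add_distrib]
  refine Finset.sum_le_sum fun n hn => ?_
  rw [UV0.start_avg hO H n (fun w => ind (R n w ∧ ∃ s, tkn M Q T n b s w) * g n w),
    UV0.start_avg hO H n (fun w => ind (R n w ∧ ∃ s, tkn M Q T n b s w)),
    UV0.start_avg hO H n (fun w => ind (True ∧ ∃ s, tkn M Q T n b s w)),
    show M.P.Pr (fun w => nu M.toMS n w = n) = M.P.E (fun z => ind (nu M.toMS n z = n)) from rfl]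
  simp only [← FP.E_smul M.P]
  rw [← FP.E_add, ← FP.E_add, ← FP.E_add]
  refine M.P.E_mono fun z _ => ?_
  have h1 := bz_w (z := z) (T := T) (n := n) hO H w0 hv (mem_range.1 hn).le hM hK k0 l0 L0 hL c0 z0 (k := k)
  refine (mul_le_mul_of_nonneg_left h1 (ind_nonneg (nu M.toMS n z = n))).trans (le_of_eq ?_)
  unfold FP.Pr
  simp only [true_and]
  ring

/-- tuples of the relation which are not in the relation of the public start -/
def NK (M : US (Om W X β)) (Q : Kd (Om W X β)) (T : ℕ) (b : Fin 3) (R R' : ℕ → Om W X β → Prop) : ℝ :=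
  ∑ n ∈ range T, M.P.E (fun w => ind (nu M.toMS n w = n) *
    ind ((R (tv M b n w) w ∧ ∃ s, tkn M Q T n b s w) ∧ ¬ R' n w))

/-- from the tables of the life to the public start -/
theorem to_n {R' : ℕ → Om W X β → Prop} {g' : ℕ → Om W X β → ℝ} {δ : ℝ} (δ0 : 0 ≤ δ)
    (hL : ∀ τ w, g τ w ≤ L) (hR : ∀ n w, R' n w → R (tv M b n w) w)
    (hg : ∀ n s w, M.P.p w ≠ 0 → tkn M Q T n b s w → R' n w → g (tv M b n w) w ≤ g' n w + δ) :
    ∑ n ∈ range T, M.P.E (fun w => ind (nu M.toMS n w = n) * (ind (R (tv M b n w) w ∧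
      ∃ s, tkn M Q T n b s w) * g (tv M b n w) w)) ≤
    ∑ n ∈ range T, M.P.E (fun w => ind (nu M.toMS n w = n) * (ind (R' n w ∧ ∃ s, tkn M Q T n b s w) * g' n w)) +
      δ * NB M Q T b R + L * NK M Q T b R R' := by
  rw [NB_eq]
  unfold NK
  rw [Finset.mul_sum, Finset.mul_sum, ← Finset.sum_add_distrib, ← Finset.sum_add_distrib]
  refine Finset.sum_le_sum fun n _ => ?_
  rw [← FP.E_smul, ← FP.E_smul, ← FP.E_add, ← FP.E_add]
  refine M.P.E_mono fun w hw => ?_
  have h0 := ind_nonneg (nu M.toMS n w = n)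
  have key : ind (R (tv M b n w) w ∧ ∃ s, tkn M Q T n b s w) * g (tv M b n w) w ≤
      ind (R' n w ∧ ∃ s, tkn M Q T n b s w) * g' n w + δ * ind (R (tv M b n w) w ∧ ∃ s, tkn M Q T n b s w) +
      L * ind ((R (tv M b n w) w ∧ ∃ s, tkn M Q T n b s w) ∧ ¬ R' n w) := by
    by_cases h1 : R (tv M b n w) w ∧ ∃ s, tkn M Q T n b s w
    · obtain ⟨s, hs⟩ := h1.2
      by_cases h2 : R' n w
      · rw [ind_of h1, ind_of (show R' n w ∧ ∃ s, tkn M Q T n b s w from ⟨h2, h1.2⟩),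
          ind_not (fun h => h.2 h2 : ¬ ((R (tv M b n w) w ∧ ∃ s, tkn M Q T n b s w) ∧ ¬ R' n w))]
        have := hg n s w hw hs h2
        linarith
      · rw [ind_of h1, ind_not (fun h => h2 h.1 : ¬ (R' n w ∧ ∃ s, tkn M Q T n b s w)),
          ind_of (show (R (tv M b n w) w ∧ ∃ s, tkn M Q T n b s w) ∧ ¬ R' n w from ⟨h1, h2⟩)]
        have := hL (tv M b n w) w
        linarith
    · rw [ind_not h1, ind_not (fun h => h1 ⟨hR n w h.1, h.2⟩ : ¬ (R' n w ∧ ∃ s, tkn M Q T n b s w)),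
        ind_not (fun h => h1 h.1 : ¬ ((R (tv M b n w) w ∧ ∃ s, tkn M Q T n b s w) ∧ ¬ R' n w))]
      simp
  refine (mul_le_mul_of_nonneg_left key h0).trans (le_of_eq ?_)
  ring

theorem NBn_le {R' : ℕ → Om W X β → Prop} (hR : ∀ n w, R' n w → R (tv M b n w) w) :
    NBn M Q T b R' ≤ NB M Q T b R := by
  rw [NB_eq]
  unfold NBn
  refine Finset.sum_le_sum fun n _ => M.P.E_mono fun w _ => ?_
  exact mul_le_mul_of_nonneg_left (ind_mono fun h => ⟨hR n w h.1, h.2⟩) (ind_nonneg _)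

/-- **THE PART `ψ_Z` OF THE DECIDED LIVES OF `b`** (input (I1) of `Unm`) ; `R'`, `g'` = relation and test by the public start
(old tables of the life against the class of the public start) -/
theorem z_sum (hO : OnTab M tb tm) (H : Seen M) (w0 : Om W X β) (hv : V3 b c d)
    {R' : ℕ → Om W X β → Prop} {g' : ℕ → Om W X β → ℝ} {δ : ℝ} (δ0 : 0 ≤ δ) (hR : ∀ n w, R' n w → R (tv M b n w) w)
    (hg : ∀ n s w, M.P.p w ≠ 0 → tkn M Q T n b s w → R' n w → g (tv M b n w) w ≤ g' n w + δ)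
    {u0 : ℝ} (hM : Alo M Q T b R' u0)
    (hK : 1 < k.kap * k.K) (k0 : 0 < k.kap) (l0 : 0 ≤ k.lam) (L0 : 0 ≤ L) (hL : ∀ τ w, g τ w ≤ L)
    (hL' : ∀ n w, g' n w ≤ L) {u3 y1 : ℝ} (c0 : 0 < u3) (z0 : 0 ≤ u0) (y0 : 0 ≤ y1) :
    ∑ τ ∈ range T, M.P.E (fun w => ind (tv M b τ w = τ ∧ dcR M Q T b R τ w) * g τ w) ≤
      ((k.lam + δ) * NB M Q T b R + L * k.kap * NB M Q T b (fun _ _ => True) +
      L * (1 / (k.kap * (k.M + 1))) * NS M T +
      SW M tb tm T (fun n P => L * ((u3 + u0 / (u3 * k.kap)) * mcZ P M Q T n D tm w0 b c d R' g' k)) +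
      L * NK M Q T b R R') +
      (k.lam * NC M Q T b R + L * y1 * NC M Q T b (fun _ _ => True) + L * VY M Q T b R g k.lam y1 +
      L * M.P.Pr (fun w => ynp M Q b T w ∧ R (tv M b T w) w)) := by
  have h0 := to_n (Q := Q) (T := T) δ0 hL hR hg
  have h1 := bz_sum (T := T) hO H w0 hv hM hK k0 l0 L0 hL' c0 z0
  have h2 := yz (M := M) (Q := Q) (T := T) (v := b) (R := R) H l0 y0 L0 hL
  have h3 := mul_le_mul_of_nonneg_left (NBn_le (M := M) (Q := Q) (T := T) hR) l0
  have e : ∑ τ ∈ range T, M.P.E (fun w => ind (tv M b τ w = τ ∧ dcR M Q T b R τ w) * g τ w) =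
      ∑ n ∈ range T, M.P.E (fun w => ind (nu M.toMS n w = n) * (ind (R (tv M b n w) w ∧
        ∃ s, tkn M Q T n b s w) * g (tv M b n w) w)) +
      M.P.E (fun w => ∑ q ∈ range T, ind (yend M Q b q w ∧ R (tv M b q w) w) * g (tv M b q w) w +
        ind (ynp M Q b T w ∧ R (tv M b T w) w) * g (tv M b T w) w) := by
    rw [← FP.E_sum, ← FP.E_sum, ← FP.E_add]
    exact M.P.E_congr fun w _ => split R g
  rw [e]
  refine le_trans (add_le_add (h0.trans (add_le_add (add_le_add h1 le_rfl) le_rfl)) h2) ?_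
  linarith

end tabl

end

end Pool.Agent.GMH.UVZ
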