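import Pool.Agent.GMH.PayPZ
import Pool.Agent.GMH.UVZ

/-!
# GMH/PayPR: public covers by own rows, relations and zones (helper52)

* `SeT J` : an event of the start is seen by the tables (state, thin letters, tops of `J`); `SeT.of_fac` : from a function of
  the thin letters and of the tops; `SeT.and`, `.not`, `.pst` (all earlier tables), `SeT.typ` (typical letters);
* `rdZ` : `Rd` for the events of a zone (abstract time `zz`, undecided vertices `ub`), with two memberships;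
* `rdA` : `Rd` for `t n s w ∧ R n w` (coarse covers of `GMH/UVZ`).
-/

set_option autoImplicit false
set_option linter.unusedSectionVars false

namespace Pool.Agent.GMH.PayPI

open Finset Pool.Agent.PWZ Pool.Agent.M3 Pool.Agent.GM Pool.Agent.GM.Harm Pool.Agent.GMH Pool.Agent.GMH.PayM
open Pool.Agent.GMH.PayS hiding eT
open Pool.Agent.GMH.TP Pool.Agent.GMH.V3 Pool.Agent.GMH.V3.TG Pool.Agent.GMH.Dy Pool.Agent.GMH.TabF
open Pool.Agent.GMH.PayQ (ZbQ_Lw FQ_Tp)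
open Pool.Agent.GMH.PayP (Own Fit Clq dl2 dl2_cons)
open Pool.Agent.GMH.UV (US Seen tv)
open Pool.Agent.GMH.MV (nu CN)
open Pool.Agent.GMH.MVI (NPo XLo)

noncomputable section

variable {X β γ φ : Type} [Fintype X] [Fintype β] [Fintype φ] [Nonempty X] [Nonempty β]
variable {D : HD (Fin 3) X β γ φ} {al : ℝ} {h : D.Thick al}
variable {v : ℕ → Finset (Fin 3) → X → (Fin 3 → β) → Pt (Fin 3) X β φ}
variable {prr : ℕ → Fin 3 → φ → φ} {T : ℕ} {W : Type} [Fintype W] {tb : Tab D prr T W}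
variable {M : US (Om W X β)} {i u1 u2 : Fin 3}

/-! ### events seen by the tables -/

variable (v tb) in
/-- the event is seen by the tables of the start (tops of `J`) -/
def SeT (J : Finset (Fin 3)) (R : ℕ → Om W X β → Prop) : Prop :=
  ∀ n < 5 * T, ∀ w w', tb.Ps.p w ≠ 0 → tb.Ps.p w' ≠ 0 → Tb v tb J n w w' → R n w → R n w'

theorem SeT.iff {J : Finset (Fin 3)} {R : ℕ → Om W X β → Prop} (hR : SeT v tb J R) {n : ℕ} (hn : n < 5 * T)
    {w w' : Om W X β} (hw : tb.Ps.p w ≠ 0) (hw' : tb.Ps.p w' ≠ 0) (ht : Tb v tb J n w w') : R n w ↔ R n w' :=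
  ⟨hR n hn w w' hw hw' ht, hR n hn w' w hw' hw ht.symm⟩

theorem SeT.sub {J J' : Finset (Fin 3)} (hJ : J ⊆ J') {R : ℕ → Om W X β → Prop} (hR : SeT v tb J R) : SeT v tb J' R :=
  fun n hn w w' hw hw' ht => hR n hn w w' hw hw' (ht.sub hJ)

theorem SeT.and {J : Finset (Fin 3)} {R R' : ℕ → Om W X β → Prop} (hR : SeT v tb J R) (hR' : SeT v tb J R') :
    SeT v tb J (fun n w => R n w ∧ R' n w) :=
  fun n hn w w' hw hw' ht a => ⟨hR n hn w w' hw hw' ht a.1, hR' n hn w w' hw hw' ht a.2⟩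

theorem SeT.or {J : Finset (Fin 3)} {R R' : ℕ → Om W X β → Prop} (hR : SeT v tb J R) (hR' : SeT v tb J R') :
    SeT v tb J (fun n w => R n w ∨ R' n w) :=
  fun n hn w w' hw hw' ht a => a.imp (hR n hn w w' hw hw' ht) (hR' n hn w w' hw hw' ht)

theorem SeT.not {J : Finset (Fin 3)} {R : ℕ → Om W X β → Prop} (hR : SeT v tb J R) :
    SeT v tb J (fun n w => ¬ R n w) :=
  fun n hn w w' hw hw' ht a b => a (hR n hn w' w hw' hw ht.symm b)

theorem SeT.all {J : Finset (Fin 3)} {ι : Type*} {R : ι → ℕ → Om W X β → Prop} (hR : ∀ k, SeT v tb J (R k)) :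
    SeT v tb J (fun n w => ∀ k, R k n w) :=
  fun n hn w w' hw hw' ht a k => hR k n hn w w' hw hw' ht (a k)

/-- a relation of the state, of the thin letters and of the tops of `J` -/
theorem SeT.of_fac {J : Finset (Fin 3)} {F : ℕ → Pt (Fin 3) X β φ → Prop}
    (hF : ∀ e a b, TP.ZQ D v e a = TP.ZQ D v e b → (∀ j ∈ J, FQ v (e / 5) j a = FQ v (e / 5) j b) → F e a → F e b) :
    SeT v tb J (fun n w => F (eT v tb n w) (tb.pt (eT v tb n w / 5) w)) := by
  intro n _ w w' _ _ ht a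
  have h1 := hF (eT v tb n w) (tb.pt (eT v tb n w / 5) w) (tb.pt (eT v tb n w / 5) w') ht.z ht.f a
  rwa [ht.e] at h1

/-- a relation of a tuple: thin letters as a point, tuple of the tops of `J` -/
theorem SeT.of_tup {J : Finset (Fin 3)} {Φ : Type} {Fr : ℕ → Fin 3 → Pt (Fin 3) X β φ → Φ}
    {K : ℕ → Pt (Fin 3) X β φ → (Fin 3 → Φ) → Prop} (hK : ∀ e f, Fac (TP.ZQ D v e) (fun a => K e a f))
    (hJ : ∀ e a f f', (∀ j ∈ J, f j = f' j) → K e a f → K e a f')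
    (hFr : ∀ t j, Fac (FQ v t j) (Fr t j)) :
    SeT v tb J (fun n w => K (eT v tb n w) (tb.pt (eT v tb n w / 5) w)
      (fun j => Fr (eT v tb n w / 5) j (tb.pt (eT v tb n w / 5) w))) := by
  refine SeT.of_fac (F := fun e a => K e a (fun j => Fr (e / 5) j a)) fun e a b hz hf ha => ?_
  have h1 : K e a (fun j => Fr (e / 5) j b) := hJ e a _ _ (fun j hj => hFr _ j _ _ (hf j hj)) ha
  have h2 : K e a (fun j => Fr (e / 5) j b) = K e b (fun j => Fr (e / 5) j b) := hK e _ a b hz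
  rwa [h2] at h1

/-- an event of all earlier states -/
theorem SeT.pst {J : Finset (Fin 3)} {F : ℕ → Pt (Fin 3) X β φ → Prop} (hF : ∀ q, Fac (TP.ZQ D v q) (F q)) :
    SeT v tb J (fun n w => ∀ q ≤ eT v tb n w, F q (tb.pt (q / 5) w)) := by
  intro n _ w w' _ _ ht a q hq
  rw [← ht.e] at hq
  have h1 : F q (tb.pt (q / 5) w) = F q (tb.pt (q / 5) w') := hF q _ _ (ht.ZQ hq _ _)
  have h2 := a q hq
  rwa [h1] at h2

/-- the letters are functions of the thin letters -/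
theorem ssQ_fac (q : ℕ) (j : Fin 3) : Fac (TP.ZQ (φ := φ) D v q) (ssQ h v q j) := by
  intro a b hab
  have h1 : NPq D v q a = NPq D v q b := ZQ_NPq q a b hab
  have h2 : XLq v q j a = XLq v q j b := by
    have h3 : SL v q {j} a = SL v q {j} b := congrFun (Prod.mk.inj hab).1 ⟨{j}, pth_sing j⟩
    have h4 := congrFun (Prod.mk.inj (Prod.mk.inj hab).2).1 j
    unfold SL at h3
    rw [LL_eq] at h3
    exact Prod.ext h4 h3.1
  have h5 : a.2.1 j = b.2.1 j := (Prod.mk.inj h2).1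
  unfold ssQ sp
  have e1 : (D.P h (q / 5)).m (fun u => (u.2.1 j, NPq D v q u)) a = (D.P h (q / 5)).m (fun u => (u.2.1 j, NPq D v q u)) b :=
    (D.P h (q / 5)).Fac_m _ _ _ (Prod.ext h5 h1)
  have e2 : (D.P h (q / 5)).m (fun u => (XLq v q j u, (u.2.1 j, NPq D v q u))) a =
      (D.P h (q / 5)).m (fun u => (XLq v q j u, (u.2.1 j, NPq D v q u))) b :=
    (D.P h (q / 5)).Fac_m _ _ _ (Prod.ext h2 (Prod.ext h5 h1))
  rw [e1, e2]

/-- typical letters of the vertex `j` at the state of the tables -/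
theorem SeT.typ {J : Finset (Fin 3)} (h : D.Thick al) (j : Fin 3) (X0 : ℝ) :
    SeT v tb J (fun n w => ssQ h v (eT v tb n w) j (tb.pt (eT v tb n w / 5) w) ≤ X0) := by
  refine SeT.of_fac (F := fun e a => ssQ h v e j a ≤ X0) fun e a b hz _ ha => ?_
  rw [← ssQ_fac e j a b hz]
  exact ha

/-! ### zones -/

/-- the sight of an earlier time -/
theorem sgt_tm {tm : ℕ → ℕ} {s : ℕ} (ht : tm s ≤ TP.nn s) {E : Finset (Fin 3)} {a b : Om W X β}
    (e : sgt D E (TP.nn s) a = sgt D E (TP.nn s) b) : sgt D E (tm s) a = sgt D E (tm s) b := by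
  obtain ⟨h1, h2, h3⟩ := sgt_eq.1 e
  exact sgt_eq.2 ⟨h1, h2, fun j => Dy.qb_mono ht (h3 j)⟩

/-- a sight out of a larger sight with tables -/
theorem sgt_of_si {E E' S : Finset (Fin 3)} (hE : E ⊆ E') {m : ℕ} {a b : Om W X β}
    (e : si D E' univ S m a = si D E' univ S m b) : sgt D E m a = sgt D E m b := by
  obtain ⟨h1, _, h3, h4⟩ := si_eq.1 e
  exact sgt_eq.2 ⟨h1, fun j hj => h3 j (hE hj), fun j => h4 j (mem_univ j)⟩

theorem tb_J {sees : Prop} {J : Finset (Fin 3)} (hJ : ∀ j ∈ J, j = u1 ∨ j = u2 ∨ (j = i ∧ sees)) {n : ℕ}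
    {w w' : Om W X β} (ht : Tb v tb {u1, u2} n w w') (hs : sees → FQ v (eT v tb n w / 5) i (tb.pt (eT v tb n w / 5) w) =
      FQ v (eT v tb n w / 5) i (tb.pt (eT v tb n w / 5) w')) : Tb v tb J n w w' := by
  refine ⟨ht.e, ht.z, fun j hj => ?_⟩
  rcases hJ j hj with h1 | h1 | h1
  · exact ht.f j (by rw [h1]; exact Finset.mem_insert_self _ _)
  · exact ht.f j (by rw [h1]; exact Finset.mem_insert_of_mem (Finset.mem_singleton_self _))
  · rw [h1.1]
    exact hs h1.2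

variable (M) in
/-- the relation of the zone at the start: tables of the start and of the lives which run at the start -/
def Qz (R : ℕ → Om W X β → Prop) (rel : Fin 3 → ℕ → Om W X β → Prop) (Vk : Finset (Fin 3)) (n : ℕ) (w : Om W X β) :
    Prop := R n w ∧ ∀ j ∈ Vk, rel j (UV.tv M j n w) w

/-- the relation of the zone is seen by the tables of the start -/
theorem SeT.zone (hCN : ∀ j n (a b : Om W X β), XLo tb v j n a = XLo tb v j n b →
    NPo tb v n a = NPo tb v n b → UV.tv M j n a = UV.tv M j n b) {J : Finset (Fin 3)}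
    {R : ℕ → Om W X β → Prop} {rel : Fin 3 → ℕ → Om W X β → Prop} {Vk : Finset (Fin 3)} (hR : SeT v tb J R)
    (hrel : ∀ j ∈ Vk, SeT v tb J (rel j)) : SeT v tb J (Qz M R rel Vk) := by
  intro n hn w w' hw hw' ht a
  refine ⟨hR n hn w w' hw hw' ht a.1, fun j hj => ?_⟩
  have h1 := ht.tv (M := M) hCN j (le_refl n)
  have h2 := UVZ.tau_le (M := M) j n w
  rw [← h1]
  exact hrel j hj _ (lt_of_le_of_lt h2 hn) w w' hw hw' (ht.mono hn hw hw' h2) (a.2 j hj)

/-- **ZONES** : `zz` = time, `ub j` = the vertex is undecided and its life runs at the start, `R` at the tables of the start,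
`rel j` at the tables of the life of `j`, memberships `B1` (exact `i`, `u1`), `B2` (exact `i`, `u2`) -/
theorem rdZ (hCN : ∀ j n (a b : Om W X β), XLo tb v j n a = XLo tb v j n b →
    NPo tb v n a = NPo tb v n b → UV.tv M j n a = UV.tv M j n b) {sees : Prop} {J : Finset (Fin 3)}
    (hJ : ∀ j ∈ J, j = u1 ∨ j = u2 ∨ (j = i ∧ sees)) (hI : ∀ j, j = i ∨ j = u1 ∨ j = u2) {X0 : ℝ}
    {zz : ℕ → ℕ → Om W X β → Prop} {ub : Fin 3 → ℕ → ℕ → Om W X β → Prop} {R : ℕ → Om W X β → Prop}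
    {rel : Fin 3 → ℕ → Om W X β → Prop} {Vk : Finset (Fin 3)} {B1 B2 : ℕ → Om W X β → ℕ → Om W X β → Prop}
    (hzn : ∀ n s w, zz n s w → n ≤ s)
    (hzz : ∀ n s a b, n ≤ s → sgt D ∅ (TP.nn s) a = sgt D ∅ (TP.nn s) b → (zz n s a ↔ zz n s b))
    (hub : ∀ j n s a b, n ≤ s → sgt D {j} (TP.nn s) a = sgt D {j} (TP.nn s) b → (ub j n s a ↔ ub j n s b))
    (hut : ∀ j n s w, ub j n s w → UV.tv M j s w ≤ n) (hR : SeT v tb J R) (hrel : ∀ j ∈ Vk, SeT v tb J (rel j))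
    (hX : ∀ n < 5 * T, ∀ w, tb.Ps.p w ≠ 0 → R n w → ssQ h v (eT v tb n w) i (tb.pt (eT v tb n w / 5) w) ≤ X0)
    (hB1 : ∀ n s, n ≤ s → Fac (si D {i, u1} univ {u2} (TP.nn s)) (fun w => B1 n w s w))
    (hB2 : ∀ n s, n ≤ s → Fac (si D {i, u2} univ {u1} (TP.nn s)) (fun w => B2 n w s w))
    (hw1 : ∀ n z z', sgt D ∅ (TP.nn n) z = sgt D ∅ (TP.nn n) z' → B1 n z = B1 n z')
    (hw2 : ∀ n z z', sgt D ∅ (TP.nn n) z = sgt D ∅ (TP.nn n) z' → B2 n z = B2 n z') :
    Rd h v tb M i u1 u2 sees X0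
      (fun n z s w => (zz n s w ∧ (∀ j ∈ Vk, ub j n s w) ∧ R n w ∧ ∀ j ∈ Vk, rel j (UV.tv M j s w) w) ∧
        B1 n z s w ∧ B2 n z s w) (Qz M R rel Vk)
      (fun n s w => zz n s w ∧ (i ∈ Vk → ub i n s w)) (fun n s w => (u1 ∈ Vk → ub u1 n s w) ∧ B1 n w s w)
      (fun n s w => (u2 ∈ Vk → ub u2 n s w) ∧ B2 n w s w) where
  hc0 := fun n s hs a b e => by
    have e1 := propext (hzz n s a b hs (sgt_of_si (Finset.empty_subset _) e))
    have e2 := propext (hub i n s a b hs (sgt_of_si (Finset.Subset.refl _) e))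
    show (zz n s a ∧ (i ∈ Vk → ub i n s a)) = (zz n s b ∧ (i ∈ Vk → ub i n s b))
    rw [e1, e2]
  hc1 := fun n s hs a b e => by
    have e2 := propext (hub u1 n s a b hs (sgt_of_si (by simp) e))
    have e3 : B1 n a s a = B1 n b s b := hB1 n s hs a b e
    show ((u1 ∈ Vk → ub u1 n s a) ∧ B1 n a s a) = ((u1 ∈ Vk → ub u1 n s b) ∧ B1 n b s b)
    rw [e2, e3]
  hc2 := fun n s hs a b e => by
    have e2 := propext (hub u2 n s a b hs (sgt_of_si (by simp) e))
    have e3 : B2 n a s a = B2 n b s b := hB2 n s hs a b e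
    show ((u2 ∈ Vk → ub u2 n s a) ∧ B2 n a s a) = ((u2 ∈ Vk → ub u2 n s b) ∧ B2 n b s b)
    rw [e2, e3]
  hAn := fun n z s w a => hzn n s w a.1.1
  hAw := fun n z z' e => by
    funext s w
    show ((zz n s w ∧ _) ∧ B1 n z s w ∧ B2 n z s w) = ((zz n s w ∧ _) ∧ B1 n z' s w ∧ B2 n z' s w)
    rw [hw1 n z z' e, hw2 n z z' e]
  hA := fun n _ s w hs _ _ => by
    constructor
    · rintro ⟨⟨a1, a2, a3, a4⟩, a5, a6⟩
      refine ⟨⟨a3, fun j hj => ?_⟩, ⟨a1, a2 i⟩, ⟨a2 u1, a5⟩, a2 u2, a6⟩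
      rw [UVZ.tau_mid (hut j n s w (a2 j hj)) hs]
      exact a4 j hj
    · rintro ⟨⟨a3, a4⟩, ⟨a1, b0⟩, ⟨b1, a5⟩, b2, a6⟩
      have hu : ∀ j ∈ Vk, ub j n s w := by
        intro j hj
        rcases hI j with rfl | rfl | rfl
        · exact b0 hj
        · exact b1 hj
        · exact b2 hj
      refine ⟨⟨a1, hu, a3, fun j hj => ?_⟩, a5, a6⟩
      rw [← UVZ.tau_mid (hut j n s w (hu j hj)) hs]
      exact a4 j hj
  hQ := fun n hn w w' hw hw' _ _ ht hs a => SeT.zone hCN hR hrel n hn w w' hw hw' (tb_J hJ ht hs) a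
  hX := fun n hn w hw _ a => hX n hn w hw a.1

/-- **COARSE COVERS** : an event `t` of the exact vertex `i`, a relation of the tables of the start -/
theorem rdA {sees : Prop} {J : Finset (Fin 3)} (hJ : ∀ j ∈ J, j = u1 ∨ j = u2 ∨ (j = i ∧ sees)) {X0 : ℝ}
    {t : ℕ → ℕ → Om W X β → Prop} {R : ℕ → Om W X β → Prop} (htn : ∀ n s w, t n s w → n ≤ s)
    (ht : ∀ n s a b, n ≤ s → sgt D {i} (TP.nn s) a = sgt D {i} (TP.nn s) b → (t n s a ↔ t n s b)) (hR : SeT v tb J R)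
    (hX : ∀ n < 5 * T, ∀ w, tb.Ps.p w ≠ 0 → R n w → ssQ h v (eT v tb n w) i (tb.pt (eT v tb n w / 5) w) ≤ X0) :
    Rd h v tb M i u1 u2 sees X0 (fun n _ s w => t n s w ∧ R n w) R t (fun _ _ _ => True) (fun _ _ _ => True) where
  hc0 := fun n s hs a b e => propext (ht n s a b hs (sgt_of_si (Finset.Subset.refl _) e))
  hc1 := fun _ _ _ _ _ _ => rfl
  hc2 := fun _ _ _ _ _ _ => rfl
  hAn := fun n _ s w a => htn n s w a.1
  hAw := fun _ _ _ _ => rfl
  hA := fun _ _ _ _ _ _ _ => ⟨fun a => ⟨a.2, a.1, trivial, trivial⟩, fun a => ⟨a.2.1, a.1⟩⟩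
  hQ := fun n hn w w' hw hw' _ _ ht' hs a => hR n hn w w' hw hw' (tb_J hJ ht' hs) a
  hX := fun n hn w hw _ a => hX n hn w hw a

/-! ### the tests of the zones -/

section tst

variable {dg : ℕ → X → ℝ} {Lam : ℝ} {N : Finset (Fin 3) → ℝ} {SS : Finset (Finset (Fin 3))}

/-- **PUBLIC COVER BY OWN ROWS, TEST OF THE ZONES** : log density of the tested top given the tops of `S`, any frame -/
def ownGz (r : Rn h v tb M N SS dg Lam) (h1 : u1 ≠ i) (h2 : u2 ≠ i) (h12 : u1 ≠ u2) {X0 : ℝ}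
    {A : ℕ → Om W X β → ℕ → Om W X β → Prop} {Q : ℕ → Om W X β → Prop} {c0 c1 c2 : ℕ → ℕ → Om W X β → Prop}
    (d : Rd h v tb M i u1 u2 False X0 A Q c0 c1 c2) {φ' : Type} {Fr : ℕ → Fin 3 → Pt (Fin 3) X β φ → φ'}
    (fr : Fin 3 → Lt X β φ → φ') (hFr : ∀ t j u, Fr t j u = fr j (FQ v t j u)) (K L : ℝ) {S : Finset (Fin 3)}
    (hS : i ∉ S) {eps : ℝ} (heps : 0 ≤ eps) (Nn : ℕ) :
    Own h v tb M i u1 u2 A (TstZ.gz h v tb Fr K L S i) ((β × Lt X β φ) × Prop) (Lt X β φ × Prop) (Lt X β φ × Prop)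
      (2 * Real.exp X0) (2 * (1 / al)) (2 * (1 / al)) eps Nn :=
  ownQ r h1 h2 h12 d fr (fun _ e z f => TstZ.Gz h v Fr K L S i e z f)
    (fun n _ w _ _ => by
      unfold TstZ.gz
      congr 1
      funext j
      exact hFr _ j _)
    (fun n hn w hw _ f => by
      have hp : (D.P h (eT v tb n w / 5)).p (tb.pt (eT v tb n w / 5) w) ≠ 0 := (pul_pt h tb (eT_T tb hn w)).ne hw
      have h3 := TstZ.Gz_norm h v Fr K L hS hp f
      simp only [hFr] at h3
      exact h3) heps Nn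

/-- three tops -/
theorem fr_FQ (t : ℕ) (j : Fin 3) (u : Pt (Fin 3) X β φ) : FQ v t j u = (fun (_ : Fin 3) x => x) j (FQ v t j u) := rfl

/-- the two tops which see the vertex `i0` -/
theorem fr_Fo (i0 : Fin 3) (t : ℕ) (j : Fin 3) (u : Pt (Fin 3) X β φ) :
    Fo (FQ v t) i0 j u = (fun (j : Fin 3) x => if j = i0 then Option.none else some x) j (FQ v t j u) := rfl

end tst

end

end Pool.Agent.GMH.PayPI
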