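import Pool.Agent.GMH.PayP4
import Pool.Agent.GMH.PayIU

/-!
# GMH/PayPU (helper83): UNSIGNED PUBLIC COVERS BY OWN ROWS (rows D3 of H3.LEAN: `cu`, `cuF`, `mcU`, `AU` of GMH/TabZ, GhoZ5)

* `cov_scale`, `covL_scale`, `cv_cu`, `mcU_eq` : the unsigned cover (weight `1`, `lam = 1`) is the cover with the constant
  test `c` and `lam = c`;
* `dl2_u`, `dl2_hone_u` : a decision list with the constant test `c` is normalised up to `exp (exp c Nn q)` if the sections have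
  class mass `≤ q` (they may see the tested top);
* `Own.uns` : the data of helper75's `Own` for the constant test out of the data of ANY test (even not normalised), the event
  alone matters; `OwnE` : event data + class mass, `OwnE.own` : `Own` with the test `c`.
-/

set_option autoImplicit false
set_option linter.unusedSectionVars false

namespace Pool.Agent.GMH.PayPU

open Finset Pool.Agent.PWZ Pool.Agent.M3 Pool.Agent.GM Pool.Agent.GM.Harm Pool.Agent.GMH Pool.Agent.GMH.PayM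
open Pool.Agent.GMH.V3 Pool.Agent.GMH.V3.TG
open Pool.Agent.GMH.TP (FQ ZbQ ZQ NPq SL)
open Pool.Agent.GMH.Gdy Pool.Agent.GMH.Dy Pool.Agent.GMH.TabF Pool.Agent.GMH.TabZ
open Pool.Agent.GMH.CK Pool.Agent.GMH.MV Pool.Agent.GMH.MVI Pool.Agent.GMH.GhoZ Pool.Agent.GMH.GhoZ3
open Pool.Agent.GMH.UV (US Seen)
open Pool.Agent.GMH.PayP

noncomputable section

/-! ## scaling of the weights -/

section scale

variable {Om : Type*} [Fintype Om] {P : FP Om} {κ : ℕ → Type*} {X : ∀ t, Om → κ t} {R : Type*}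
  {H : ℕ → R → Om → Prop} {f : R → Om → ℝ} {kap lam c : ℝ} {n : ℕ} {x : Fin n → R}

theorem ok_scale (c0 : 0 < c) (t : ℕ) (A : Om → Prop) (g : Om → ℝ) (w : Om) :
    GdyR.ok P X kap (c * lam) t A (fun z => c * g z) w ↔ GdyR.ok P X kap lam t A g w := by
  unfold GdyR.ok
  have e1 : P.ce (X t) (fun z => ind (A z) * (c * g z)) w = c * P.ce (X t) (fun z => ind (A z) * g z) w := by
    rw [← P.ce_smul]
    exact P.ce_congr (fun z _ => by ring) w
  rw [e1, mul_assoc]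
  exact and_congr_right fun _ => mul_le_mul_iff_right₀ c0

theorem fs_scale (c0 : 0 < c) (t : ℕ) (C : Om → Prop) (i : Fin n) (w : Om) :
    GdyR.fs P X H (fun a z => c * f a z) kap (c * lam) t C x i w ↔ GdyR.fs P X H f kap lam t C x i w := by
  unfold GdyR.fs GdyR.wt
  rw [ok_scale c0]
  exact and_congr_right fun _ => forall_congr' fun j => forall_congr' fun _ => not_congr (ok_scale c0 _ _ _ _)

theorem cov_scale (c0 : 0 < c) (t : ℕ) :
    GdyR.cov P X H (fun a z => c * f a z) kap (c * lam) x t = GdyR.cov P X H f kap lam x t := by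
  induction t with
  | zero => rfl
  | succ t ih =>
    funext w
    show (GdyR.cov P X H (fun a z => c * f a z) kap (c * lam) x t w ∨ ∃ i, H t (x i) w ∧
      GdyR.fs P X H (fun a z => c * f a z) kap (c * lam) t
        (GdyR.cov P X H (fun a z => c * f a z) kap (c * lam) x t) x i w) =
      (GdyR.cov P X H f kap lam x t w ∨ ∃ i, H t (x i) w ∧
        GdyR.fs P X H f kap lam t (GdyR.cov P X H f kap lam x t) x i w)
    rw [ih]
    refine propext (or_congr_right (exists_congr fun i => and_congr_right fun _ => fs_scale c0 _ _ _ _))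

theorem covL_scale (c0 : 0 < c) (K s : ℕ) :
    GdyR.covL P X H (fun a z => c * f a z) kap (c * lam) K x s = GdyR.covL P X H f kap lam K x s := by
  unfold GdyR.covL
  exact cov_scale c0 _

/-- **the unsigned cover is the cover with the constant test `c`** -/
theorem covL_one (c0 : 0 < c) (K s : ℕ) :
    GdyR.covL P X H (fun _ _ => c) kap c K x s = GdyR.covL P X H (fun _ _ => 1) kap 1 K x s := by
  have h1 := covL_scale (P := P) (X := X) (H := H) (f := fun _ _ => 1) (kap := kap) (lam := 1) (x := x) c0 K s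
  simp only [mul_one] at h1
  exact h1

end scale

section cvs

variable {Om : Type*} [Fintype Om] {P : FP Om} {α β : Type*} {κ : ℕ → Type*} {U : Om → α} {V : Om → β}
  {X : ∀ t, Om → κ t} {A : ℕ → Om → Prop} {kap c : ℝ} {K M : ℕ} {x : Fin M → α}

theorem cv_cu (c0 : 0 < c) : GhoZ3.cv P U V X A (fun _ _ => c) kap c K x = GhoZ3.cu P U V X A kap K x := by
  funext s
  exact covL_one c0 K s

end cvs

variable {X β γ φ : Type} [Fintype X] [Fintype β] [Fintype φ] [Nonempty X] [Nonempty β]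
variable {D : HD (Fin 3) X β γ φ} {prr : ℕ → Fin 3 → φ → φ} {T : ℕ} {W : Type} [Fintype W]

/-- **the mean of the covered masses of an unsigned cover** in the form of `payp` -/
theorem mcU_eq (P : FP (Om W X β)) (zz : ℕ → Om W X β → Prop) (tm : ℕ → ℕ) (A : ℕ → Om W X β → Prop)
    (w0 : Om W X β) (i u1 u2 : Fin 3) (k : Nm) {c : ℝ} (c0 : 0 < c) :
    mcU P zz D tm A w0 i u1 u2 k = (Sp P w0 {i} {u1, u2} k).E fun x => cz P zz (cv P (TabF.pj w0 {i} {u1, u2})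
      (TabF.pj w0 {u1, u2} {i}) (fun s => si D ∅ {u1, u2} ∅ (tm s)) A (TabF.ts {i} {u1, u2} fun _ => c) k.kap c k.K
      x) := by
  unfold mcU cuF
  refine FP.E_congr _ fun x _ => ?_
  rw [show (TabF.ts {i} {u1, u2} fun _ => c) = fun _ _ : Om W X β => c from rfl, cv_cu c0]

/-! ## normalisation -/

section dl2

variable {Om R : Type*} {H : ℕ → R → Om → Prop} {c : ℝ}

/-- a decision list with the constant test `c` -/
theorem dl2_u (c0 : 0 ≤ c) (l : List ((ℕ × R) × Bool)) (z : Om) :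
    dl2 H (fun _ _ _ => c) l z ≤ c * ind (∃ p ∈ l, H p.1.1 p.1.2 z) := by
  classical
  induction l with
  | nil =>
    show (0 : ℝ) ≤ _
    exact mul_nonneg c0 (ind_nonneg _)
  | cons p l ih =>
    rw [dl2_cons]
    by_cases h : H p.1.1 p.1.2 z
    · rw [if_pos h, ind_of (show ∃ r ∈ p :: l, H r.1.1 r.1.2 z from ⟨p, List.mem_cons_self, h⟩), mul_one]
      split_ifs
      · exact le_rfl
      · exact c0
    · rw [if_neg h]
      exact ih.trans (mul_le_mul_of_nonneg_left (ind_mono fun ⟨q, hq, h1⟩ => ⟨q, List.mem_cons_of_mem _ hq, h1⟩) c0)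

variable [Fintype Om] {P : FP Om} {ι : Type*} {Z : Om → ι}

/-- **THE CONSTANT TEST IS NORMALISED ON SECTIONS OF SMALL CLASS MASS** -/
theorem dl2_hone_u {l : List ((ℕ × R) × Bool)} {w : Om} (hw : P.p w ≠ 0) {q eps : ℝ} {Nn : ℕ} (q0 : 0 ≤ q)
    (c0 : 0 ≤ c) (hl : l.length ≤ Nn) (hq : ∀ p ∈ l, P.ce Z (fun z => ind (H p.1.1 p.1.2 z)) w ≤ q)
    (he : Real.exp c * (Nn * q) ≤ eps) :
    P.ce Z (fun z => Real.exp (dl2 H (fun _ _ _ => c) l z)) w ≤ Real.exp eps := by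
  have h1 : P.ce Z (fun z => Real.exp (dl2 H (fun _ _ _ => c) l z)) w ≤
      P.ce Z (fun z => Real.exp (c * ind (PayU.inl H l z))) w :=
    P.ce_mono (fun v _ => Real.exp_le_exp.2 (dl2_u c0 l v)) w
  have h2 := PayN.exp_ind_le (P := P) (Z := Z) (B := PayU.inl H l) c0 hw (PayU.inl_le hq)
  have h3 : (l.length : ℝ) ≤ Nn := by exact_mod_cast hl
  have h4 : (l.length : ℝ) * q ≤ Nn * q := mul_le_mul_of_nonneg_right h3 q0
  have h5 : 0 ≤ Real.exp c - 1 := by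
    have := Real.add_one_le_exp c
    linarith
  have h6 := mul_le_mul_of_nonneg_left h4 h5
  have h7 : (0 : ℝ) ≤ Nn * q := mul_nonneg (Nat.cast_nonneg _) q0
  have h8 := Real.add_one_le_exp eps
  nlinarith

end dl2

/-! ## the data -/

variable {al : ℝ} {h : D.Thick al} {v : ℕ → Finset (Fin 3) → X → (Fin 3 → β) → Pt (Fin 3) X β φ}
variable {tb : Tab D prr T W} {M : US (Om W X β)} {i u1 u2 : Fin 3}

/-- class mass of the sections of the fitting rows -/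
def SmE (h : D.Thick al) (v : ℕ → Finset (Fin 3) → X → (Fin 3 → β) → Pt (Fin 3) X β φ) (tb : Tab D prr T W)
    (M : US (Om W X β)) (i u1 u2 : Fin 3) {C0 C1 C2 : Type} (b0 : ℕ → ℕ → Om W X β → C0) (b1 : ℕ → ℕ → Om W X β → C1)
    (b2 : ℕ → ℕ → Om W X β → C2) (Th : ℕ → ℕ → ℕ → C0 → C1 → C2 → Pt (Fin 3) X β φ → Prop) (q : ℝ) : Prop :=
  ∀ n < 5 * T, ∀ s, n ≤ s → ∀ a w, Fit tb M i u1 u2 n a w →
    (D.P h (eT v tb n w / 5)).ce (ZbQ D v (eT v tb n w) i) (fun u => ind (Th n (eT v tb n w) s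
      (b0 n s (mx {i} {u1, u2} a w)) (b1 n s (mx {i} {u1, u2} a w)) (b2 n s (mx {i} {u1, u2} a w)) u))
      (tb.pt (eT v tb n w / 5) w) ≤ q

theorem eT_lt {n : ℕ} (hn : n < 5 * T) (w : Om W X β) : eT v tb n w / 5 ≤ T := by
  unfold eT
  split_ifs <;> omega

/-- normalisation of the constant test -/
theorem hone_E {C0 C1 C2 : Type} {b0 : ℕ → ℕ → Om W X β → C0} {b1 : ℕ → ℕ → Om W X β → C1}
    {b2 : ℕ → ℕ → Om W X β → C2} {Th : ℕ → ℕ → ℕ → C0 → C1 → C2 → Pt (Fin 3) X β φ → Prop} {q c eps : ℝ} {Nn : ℕ}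
    (hS : SmE h v tb M i u1 u2 b0 b1 b2 Th q) (q0 : 0 ≤ q) (c0 : 0 ≤ c) (he : Real.exp c * (Nn * q) ≤ eps) :
    ∀ n < 5 * T, ∀ w, tb.Ps.p w ≠ 0 → MV.nu M.toMS n w = n → ∀ l : List ((ℕ × Om W X β) × Bool), l.length ≤ Nn →
      (∀ p ∈ l, n ≤ p.1.1 ∧ Fit tb M i u1 u2 n p.1.2 w) →
      (D.P h (eT v tb n w / 5)).ce (ZbQ D v (eT v tb n w) i) (fun u => Real.exp (dl2
        (fun s a => Th n (eT v tb n w) s (b0 n s (mx {i} {u1, u2} a w)) (b1 n s (mx {i} {u1, u2} a w))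
          (b2 n s (mx {i} {u1, u2} a w))) (fun _ _ _ => c) l u)) (tb.pt (eT v tb n w / 5) w) ≤ Real.exp eps :=
  fun n hn w hw _ _ hl hp => dl2_hone_u ((pul_pt h tb (eT_lt hn w)).ne hw) q0 c0 hl
    (fun p hp' => hS n hn p.1.1 (hp p hp').1 p.1.2 w (hp p hp').2) he

/-- **THE UNSIGNED DATA OUT OF THE DATA OF ANY TEST** : only the event matters -/
def uns {A : ℕ → Om W X β → ℕ → Om W X β → Prop} {g : ℕ → Om W X β → ℝ} {C0 C1 C2 : Type} {m0 m1 m2 eps0 : ℝ}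
    {N0 : ℕ} (O : Own h v tb M i u1 u2 A g C0 C1 C2 m0 m1 m2 eps0 N0) {q c eps : ℝ} {Nn : ℕ}
    (hS : SmE h v tb M i u1 u2 O.b0 O.b1 O.b2 O.Th q) (q0 : 0 ≤ q) (c0 : 0 ≤ c)
    (he : Real.exp c * (Nn * q) ≤ eps) : Own h v tb M i u1 u2 A (fun _ _ => c) C0 C1 C2 m0 m1 m2 eps Nn where
  b0 := O.b0
  b1 := O.b1
  b2 := O.b2
  Th := O.Th
  Ga := fun _ _ _ _ _ _ _ => c
  f0 := O.f0
  f1 := O.f1
  f2 := O.f2
  ft := O.ft
  fg := fun _ _ _ _ _ _ _ _ _ => rfl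
  ts := O.ts
  gs := fun _ _ _ _ _ _ _ => rfl
  An := O.An
  Aw := O.Aw
  iA := O.iA
  ig := fun _ _ _ _ _ _ _ _ => rfl
  k0 := O.k0
  k1 := O.k1
  k2 := O.k2
  hone := hone_E hS q0 c0 he

/-- **EVENT DATA** of a public cover by own rows, with the class mass -/
structure OwnE (h : D.Thick al) (v : ℕ → Finset (Fin 3) → X → (Fin 3 → β) → Pt (Fin 3) X β φ) (tb : Tab D prr T W)
    (M : US (Om W X β)) (i u1 u2 : Fin 3) (A : ℕ → Om W X β → ℕ → Om W X β → Prop) (C0 C1 C2 : Type)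
    (m0 m1 m2 q : ℝ) where
  b0 : ℕ → ℕ → Om W X β → C0
  b1 : ℕ → ℕ → Om W X β → C1
  b2 : ℕ → ℕ → Om W X β → C2
  Th : ℕ → ℕ → ℕ → C0 → C1 → C2 → Pt (Fin 3) X β φ → Prop
  f0 : ∀ n s, n ≤ s → Fac (si D {i} univ {u1, u2} (TP.nn s)) (b0 n s)
  f1 : ∀ n s, n ≤ s → Fac (si D {i, u1} univ {u2} (TP.nn s)) (b1 n s)
  f2 : ∀ n s, n ≤ s → Fac (si D {i, u2} univ {u1} (TP.nn s)) (b2 n s)
  ft : ∀ n e s c0 c1 c2, Fac (fun u => (FQ v (e / 5) i u, ZbQ D v e i u)) (Th n e s c0 c1 c2)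
  ts : ∀ n e s s' c0 c1 c2, Th n e s c0 c1 c2 = Th n e s' c0 c1 c2
  An : ∀ n z s w, A n z s w → n ≤ s
  Aw : ∀ n z z', sgt D ∅ (TP.nn n) z = sgt D ∅ (TP.nn n) z' → A n z = A n z'
  iA : ∀ n < 5 * T, ∀ s w, n ≤ s → tb.Ps.p w ≠ 0 → MV.nu M.toMS n w = n →
    (A n w s w ↔ Th n (eT v tb n w) s (b0 n s w) (b1 n s w) (b2 n s w) (tb.pt (eT v tb n w / 5) w))
  k0 : ∀ n < 5 * T, ∀ a w, Fit tb M i u1 u2 n a w → ∃ S : Finset C0, (S.card : ℝ) ≤ m0 ∧
    ∀ s, n ≤ s → ∀ w', Fit tb M i u1 u2 n a w' → eT v tb n w' = eT v tb n w →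
      Clq D v (eT v tb n w) ∅ (tb.pt 0 w') = Clq D v (eT v tb n w) ∅ (tb.pt 0 w) →
      A n w' s (mx {i} {u1, u2} a w') → b0 n s (mx {i} {u1, u2} a w') ∈ S
  k1 : ∀ n < 5 * T, ∀ a w, Fit tb M i u1 u2 n a w → ∀ c : C0, ∃ S : Finset C1, (S.card : ℝ) ≤ m1 ∧
    ∀ s, n ≤ s → ∀ w', Fit tb M i u1 u2 n a w' → eT v tb n w' = eT v tb n w →
      Clq D v (eT v tb n w) {u1} (tb.pt 0 w') = Clq D v (eT v tb n w) {u1} (tb.pt 0 w) →
      b0 n s (mx {i} {u1, u2} a w') = c → b1 n s (mx {i} {u1, u2} a w') ∈ S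
  k2 : ∀ n < 5 * T, ∀ a w, Fit tb M i u1 u2 n a w → ∀ c : C0, ∃ S : Finset C2, (S.card : ℝ) ≤ m2 ∧
    ∀ s, n ≤ s → ∀ w', Fit tb M i u1 u2 n a w' → eT v tb n w' = eT v tb n w →
      Clq D v (eT v tb n w) {u2} (tb.pt 0 w') = Clq D v (eT v tb n w) {u2} (tb.pt 0 w) →
      b0 n s (mx {i} {u1, u2} a w') = c → b2 n s (mx {i} {u1, u2} a w') ∈ S
  qm : SmE h v tb M i u1 u2 b0 b1 b2 Th q

/-- **`Own` with the constant test** -/
def OwnE.own {A : ℕ → Om W X β → ℕ → Om W X β → Prop} {C0 C1 C2 : Type} {m0 m1 m2 q : ℝ}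
    (O : OwnE h v tb M i u1 u2 A C0 C1 C2 m0 m1 m2 q) {c eps : ℝ} {Nn : ℕ} (q0 : 0 ≤ q) (c0 : 0 ≤ c)
    (he : Real.exp c * (Nn * q) ≤ eps) : Own h v tb M i u1 u2 A (fun _ _ => c) C0 C1 C2 m0 m1 m2 eps Nn where
  b0 := O.b0
  b1 := O.b1
  b2 := O.b2
  Th := O.Th
  Ga := fun _ _ _ _ _ _ _ => c
  f0 := O.f0
  f1 := O.f1
  f2 := O.f2
  ft := O.ft
  fg := fun _ _ _ _ _ _ _ _ _ => rfl
  ts := O.ts
  gs := fun _ _ _ _ _ _ _ => rfl
  An := O.An
  Aw := O.Aw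
  iA := O.iA
  ig := fun _ _ _ _ _ _ _ _ => rfl
  k0 := O.k0
  k1 := O.k1
  k2 := O.k2
  hone := hone_E O.qm q0 c0 he

end

end Pool.Agent.GMH.PayPU
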