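import Pool.Agent.GMH.PayR0
import Pool.Agent.GMH.PayPU
import Pool.Agent.GMH.KinRw
import Pool.Agent.GMH.HotK

/-!
# GMH/PayPV (helper83): UNSIGNED PUBLIC COVERS BY OWN ROWS, the rows of a relation of the tables (rows D3 of H3.LEAN)

* `RowQ` : own mass of the rows of `Q` (the tested top runs, same tables of the start and same two other tops);
* `RowQ.sub`, `RowQ.of_RowS` : out of the row masses of GMH/KinRw, any frame;
* `sm_RowQ` : the class mass of the sections (`PayPU.SmE`); `ownU` : `Own` with the constant test `c` for the events of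
  helper52's `Rd` (`sees := True`);
* `PZ_one`, `pzU` : the unsigned cover is paid by `PayPI.Pays` (constant test `k.lam`), no new number;
* `RowQ_bad`, `RowQ_pair`, `RowQ_ht`, `RowQ_hot` : the rows of the kinds (any frame `Fr t j` = function of `FQ v t j`);
* `mcU_pay` : the covered mass `mcU` of the zones (`UV0.h_sum`, `ht_sum`, `PayPI.g_pay`), for a relation at the start whose rows
  have own mass at most `q`; `uA_pay` : with two memberships.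
-/

set_option autoImplicit false
set_option linter.unusedSectionVars false

namespace Pool.Agent.GMH.PayPV

open Finset Pool.Agent.PWZ Pool.Agent.M3 Pool.Agent.GM Pool.Agent.GM.Harm Pool.Agent.GMH Pool.Agent.GMH.PayM
open Pool.Agent.GMH.PayS hiding eT
open Pool.Agent.GMH.TP Pool.Agent.GMH.V3 Pool.Agent.GMH.V3.TG Pool.Agent.GMH.Dy Pool.Agent.GMH.TabF
open Pool.Agent.GMH.PayP (Own Fit)
open Pool.Agent.GMH.UV (US Seen tv)
open Pool.Agent.GMH.MV (nu CN)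
open Pool.Agent.GMH.PayPI Pool.Agent.GMH.PayPU
open Pool.Agent.GMH.MVI (NPo XLo)
open Pool.Agent.GMH.TabZ (V3 Nm mcU)
open Pool.Agent.GMH.UV0P (PZ cvz)

noncomputable section

variable {X β γ φ : Type} [Fintype X] [Fintype β] [Fintype φ] [Nonempty X] [Nonempty β]
variable {D : HD (Fin 3) X β γ φ} {al : ℝ} {h : D.Thick al}
variable {v : ℕ → Finset (Fin 3) → X → (Fin 3 → β) → Pt (Fin 3) X β φ}
variable {prr : ℕ → Fin 3 → φ → φ} {T : ℕ} {W : Type} [Fintype W] {tb : Tab D prr T W}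
variable {M : US (Om W X β)} {i u1 u2 : Fin 3}

/-- **own mass of the rows of `Q`** : the tested top `i` runs, the tables of the start and the tops `u1`, `u2` are fixed -/
def RowQ (h : D.Thick al) (v : ℕ → Finset (Fin 3) → X → (Fin 3 → β) → Pt (Fin 3) X β φ) (tb : Tab D prr T W)
    (M : US (Om W X β)) (i u1 u2 : Fin 3) (Q : ℕ → Om W X β → Prop) (q : ℝ) : Prop :=
  ∀ n < 5 * T, ∀ w, tb.Ps.p w ≠ 0 → nu M.toMS n w = n →
    (D.P h (eT v tb n w / 5)).ce (ZbQ D v (eT v tb n w) i) (fun u => ind (∃ w', tb.Ps.p w' ≠ 0 ∧ nu M.toMS n w' = n ∧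
      Tb v tb {u1, u2} n w w' ∧ FQ v (eT v tb n w / 5) i (tb.pt (eT v tb n w / 5) w') = FQ v (eT v tb n w / 5) i u ∧
      Q n w')) (tb.pt (eT v tb n w / 5) w) ≤ q

theorem RowQ.sub {Q Q' : ℕ → Om W X β → Prop} {q q' : ℝ} (hq : RowQ h v tb M i u1 u2 Q q) (h' : q ≤ q')
    (hQ : ∀ n < 5 * T, ∀ w, tb.Ps.p w ≠ 0 → nu M.toMS n w = n → Q' n w → Q n w) : RowQ h v tb M i u1 u2 Q' q' :=
  fun n hn w hw hnn => (FP.ce_mono _ (fun _ _ => ind_mono fun ⟨w', a1, a2, a3, a4, a5⟩ =>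
    ⟨w', a1, a2, a3, a4, hQ n hn w' a1 a2 a5⟩) _).trans ((hq n hn w hw hnn).trans h')

/-- **THE ROWS OUT OF THE ROW MASSES OF THE KINDS** (GMH/KinRw), any frame: `Q` implies the relation `K` at the tables -/
theorem RowQ.of_RowS {Φ : Type} {Fr : ℕ → Fin 3 → Pt (Fin 3) X β φ → Φ}
    {K : ℕ → Pt (Fin 3) X β φ → (Fin 3 → Φ) → Prop} {q : ℝ} (h12 : ∀ j, j = i ∨ j = u1 ∨ j = u2)
    (hK : ∀ e f, Fac (TP.ZQ D v e) (fun a => K e a f)) (hFr : ∀ t j, Fac (FQ v t j) (Fr t j))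
    (hR : ∀ e, e / 5 ≤ T → KF.RowS (D.P h (e / 5)) (ZbQ D v e) (Fr (e / 5)) (K e) i q) {Q : ℕ → Om W X β → Prop}
    (hQ : ∀ n < 5 * T, ∀ w, tb.Ps.p w ≠ 0 → nu M.toMS n w = n → Q n w →
      K (eT v tb n w) (tb.pt (eT v tb n w / 5) w) (tup (Fr (eT v tb n w / 5)) (tb.pt (eT v tb n w / 5) w))) :
    RowQ h v tb M i u1 u2 Q q := by
  intro n hn w hw _
  have ht : eT v tb n w / 5 ≤ T := eT_T tb hn w
  refine le_trans (FP.ce_mono _ (fun u _ => ind_mono ?_) _)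
    (hR (eT v tb n w) ht _ ((pul_pt h tb ht).ne hw) (tup (Fr (eT v tb n w / 5)) (tb.pt (eT v tb n w / 5) w))
      (tup_mem _ _))
  rintro ⟨w', a1, a2, a3, a4, a5⟩
  have h1 := hQ n hn w' a1 a2 a5
  rw [← a3.e] at h1
  have h2 : K (eT v tb n w) (tb.pt (eT v tb n w / 5) w') (tup (Fr (eT v tb n w / 5)) (tb.pt (eT v tb n w / 5) w')) =
      K (eT v tb n w) (tb.pt (eT v tb n w / 5) w) (tup (Fr (eT v tb n w / 5)) (tb.pt (eT v tb n w / 5) w')) :=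
    hK (eT v tb n w) _ _ _ a3.z.symm
  rw [h2] at h1
  have h3 : tup (Fr (eT v tb n w / 5)) (tb.pt (eT v tb n w / 5) w') =
      Function.update (tup (Fr (eT v tb n w / 5)) (tb.pt (eT v tb n w / 5) w)) i (Fr (eT v tb n w / 5) i u) := by
    funext j
    by_cases hj : j = i
    · subst hj
      rw [Function.update_self]
      exact hFr _ j _ _ a4
    · rw [Function.update_of_ne hj]
      refine hFr _ j _ _ (a3.f j ?_).symm
      rcases h12 j with h4 | h4 | h4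
      · exact absurd h4 hj
      · rw [h4]
        exact Finset.mem_insert_self _ _
      · rw [h4]
        exact Finset.mem_insert_of_mem (Finset.mem_singleton_self _)
  rw [h3] at h1
  exact h1

/-! ### the kinds -/

section kinds

variable {Φ : Type} {Fr : ℕ → Fin 3 → Pt (Fin 3) X β φ → Φ} {c : KF.KC} {t : ℝ} {Q : ℕ → Om W X β → Prop}

/-- own laws of the state `e` near to the marginals -/
def Ths (h : D.Thick al) (v : ℕ → Finset (Fin 3) → X → (Fin 3 → β) → Pt (Fin 3) X β φ)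
    (Fr : ℕ → Fin 3 → Pt (Fin 3) X β φ → Φ) (t : ℝ) (e : ℕ) (a : Pt (Fin 3) X β φ) : Prop :=
  ∀ l, KF.tv1n (D.P h (e / 5)) (TP.ZQ D v e) (ZbQ D v e) (Fr (e / 5)) l a < t

theorem Ths_fac (e : ℕ) : Fac (TP.ZQ D v e) (Ths h v Fr t e) := by
  intro a b hab
  have h1 : ∀ l, KF.tv1n (D.P h (e / 5)) (TP.ZQ D v e) (ZbQ D v e) (Fr (e / 5)) l a =
      KF.tv1n (D.P h (e / 5)) (TP.ZQ D v e) (ZbQ D v e) (Fr (e / 5)) l b := fun l =>
    KF.tv1n_fac _ _ (fun i => TP.ZQ_Zb e i) l a b hab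
  unfold Ths
  simp only [h1]

/-- **a relation with small rows and the thin condition** -/
theorem RowQ.of_thin {K : ℕ → Pt (Fin 3) X β φ → (Fin 3 → Φ) → Prop} {q : ℝ} (h12 : ∀ j, j = i ∨ j = u1 ∨ j = u2)
    (hK : ∀ e f, Fac (TP.ZQ D v e) (fun a => K e a f)) (hFr : ∀ t j, Fac (FQ v t j) (Fr t j))
    (hR : ∀ e, e / 5 ≤ T → KF.RowS (D.P h (e / 5)) (ZbQ D v e) (Fr (e / 5)) (fun a f => K e a f ∧
      ∀ l, KF.tv1n (D.P h (e / 5)) (TP.ZQ D v e) (ZbQ D v e) (Fr (e / 5)) l a < t) i q)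
    (hQ : ∀ n < 5 * T, ∀ w, tb.Ps.p w ≠ 0 → nu M.toMS n w = n → Q n w →
      K (eT v tb n w) (tb.pt (eT v tb n w / 5) w) (tup (Fr (eT v tb n w / 5)) (tb.pt (eT v tb n w / 5) w)) ∧
        Ths h v Fr t (eT v tb n w) (tb.pt (eT v tb n w / 5) w)) : RowQ h v tb M i u1 u2 Q q :=
  RowQ.of_RowS (K := fun e a f => K e a f ∧ Ths h v Fr t e a) h12 (fun e f a b hab => by
    have h1 : K e a f = K e b f := hK e f a b hab
    have h2 : Ths h v Fr t e a = Ths h v Fr t e b := Ths_fac e a b hab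
    show (K e a f ∧ Ths h v Fr t e a) = (K e b f ∧ Ths h v Fr t e b)
    rw [h1, h2]) hFr hR hQ

/-- **A BAD TOP** : rows in the bad top -/
theorem RowQ_bad (h12 : ∀ j, j = i ∨ j = u1 ∨ j = u2) (hFr : ∀ t j, Fac (FQ v t j) (Fr t j)) (e1 : 0 ≤ c.e1)
    (e2 : 0 < c.e2) (t0 : 0 ≤ t)
    (hQ : ∀ n < 5 * T, ∀ w, tb.Ps.p w ≠ 0 → nu M.toMS n w = n → Q n w →
      (¬ KF.Ap (D.P h (eT v tb n w / 5)) (TP.ZQ D v (eT v tb n w)) (Fr (eT v tb n w / 5)) c 1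
          (tb.pt (eT v tb n w / 5) w) (tup (Fr (eT v tb n w / 5)) (tb.pt (eT v tb n w / 5) w)) ∧
        KF.bad (D.P h (eT v tb n w / 5)) (TP.ZQ D v (eT v tb n w)) (Fr (eT v tb n w / 5)) c i
          (tb.pt (eT v tb n w / 5) w) (tup (Fr (eT v tb n w / 5)) (tb.pt (eT v tb n w / 5) w))) ∧
      Ths h v Fr t (eT v tb n w) (tb.pt (eT v tb n w / 5) w)) :
    RowQ h v tb M i u1 u2 Q (2 * c.e1 / c.e2 + t) :=
  RowQ.of_thin (K := fun e a f => ¬ KF.Ap (D.P h (e / 5)) (TP.ZQ D v e) (Fr (e / 5)) c 1 a f ∧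
      KF.bad (D.P h (e / 5)) (TP.ZQ D v e) (Fr (e / 5)) c i a f) h12 (fun e f a b hab => by
    have h1 : KF.Ap (D.P h (e / 5)) (TP.ZQ D v e) (Fr (e / 5)) c 1 a f =
        KF.Ap (D.P h (e / 5)) (TP.ZQ D v e) (Fr (e / 5)) c 1 b f := KF.Ap_fac _ _ c 1 f a b hab
    have h2 : KF.bad (D.P h (e / 5)) (TP.ZQ D v e) (Fr (e / 5)) c i a f =
        KF.bad (D.P h (e / 5)) (TP.ZQ D v e) (Fr (e / 5)) c i b f := KF.bad_fac _ _ c i f a b hab
    simp only [h1, h2]) hFr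
    (fun e _ => (KF.bad_RowS (D.P h (e / 5)) (Fr (e / 5)) (Z := TP.ZQ D v e) (Zb := ZbQ D v e) e1 e2 t0 i).mono _ _ le_rfl
      fun _ _ _ _ hh => ⟨⟨hh.1.1, hh.2⟩, hh.1.2⟩) hQ

/-- **A PAIR KIND** `κ = j + 6` (visible relation at `j` or at the node; also the kind itself): rows in a top `i ≠ j` -/
theorem RowQ_pair (h12 : ∀ j, j = i ∨ j = u1 ∨ j = u2) (hFr : ∀ t j, Fac (FQ v t j) (Fr t j)) (e2 : 0 ≤ c.e2)
    (e3 : 0 < c.e3) (hd : 0 < c.dH) (t0 : 0 ≤ t) {κ : Fin 10} {j : Fin 3} (hκ : κ.1 = j.1 + 6) (hij : i ≠ j)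
    {o : Option (Fin 3)} (ho : o = Option.none ∨ o = some j)
    (hQ : ∀ n < 5 * T, ∀ w, tb.Ps.p w ≠ 0 → nu M.toMS n w = n → Q n w →
      KF.kvF (D.P h (eT v tb n w / 5)) (TP.ZQ D v (eT v tb n w)) (Fr (eT v tb n w / 5)) c κ o
          (tb.pt (eT v tb n w / 5) w) (tup (Fr (eT v tb n w / 5)) (tb.pt (eT v tb n w / 5) w)) ∧
      Ths h v Fr t (eT v tb n w) (tb.pt (eT v tb n w / 5) w)) :
    RowQ h v tb M i u1 u2 Q (2 * c.e2 * (1 / c.dH + 1 + 1 / c.e3) + t) :=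
  RowQ.of_thin (K := fun e a f => KF.kvF (D.P h (e / 5)) (TP.ZQ D v e) (Fr (e / 5)) c κ o a f) h12
    (fun _ f => KF.kvF_fac c κ o f) hFr
    (fun e _ => KF.kv_pair (D.P h (e / 5)) (Fr (e / 5)) (Z := TP.ZQ D v e) (Zb := ZbQ D v e) e2 e3 hd t0 hκ hij ho) hQ

/-- **THE KIND `HT`** : rows in every top -/
theorem RowQ_ht (h12 : ∀ j, j = i ∨ j = u1 ∨ j = u2) (hFr : ∀ t j, Fac (FQ v t j) (Fr t j)) (e3 : 0 ≤ c.e3)
    (hd : 0 < c.dH) (hd1 : c.dH ≤ 1) (t0 : 0 ≤ t) {o : Option (Fin 3)}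
    (hQ : ∀ n < 5 * T, ∀ w, tb.Ps.p w ≠ 0 → nu M.toMS n w = n → Q n w →
      KF.kvF (D.P h (eT v tb n w / 5)) (TP.ZQ D v (eT v tb n w)) (Fr (eT v tb n w / 5)) c 9 o
          (tb.pt (eT v tb n w / 5) w) (tup (Fr (eT v tb n w / 5)) (tb.pt (eT v tb n w / 5) w)) ∧
      Ths h v Fr t (eT v tb n w) (tb.pt (eT v tb n w / 5) w)) :
    RowQ h v tb M i u1 u2 Q (2 * c.e3 / c.dH + t) :=
  RowQ.of_thin (K := fun e a f => KF.kvF (D.P h (e / 5)) (TP.ZQ D v e) (Fr (e / 5)) c 9 o a f) h12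
    (fun _ f => KF.kvF_fac c 9 o f) hFr
    (fun e _ => KF.kv_ht (D.P h (e / 5)) (Fr (e / 5)) (Z := TP.ZQ D v e) (Zb := ZbQ D v e) e3 hd hd1 t0 i o) hQ

/-- **A HOT PAIR** (GMH/HotK) of the tops which see the vertex `j` : rows in a top `i ≠ j`, no thin condition -/
theorem RowQ_hot (h12 : ∀ j, j = i ∨ j = u1 ∨ j = u2) (hFr : ∀ t j, Fac (FQ v t j) (Fr t j)) (a : ℝ) {s : ℝ}
    (hs : 0 ≤ s) {j : Fin 3} (hij : i ≠ j)
    (hQ : ∀ n < 5 * T, ∀ w, tb.Ps.p w ≠ 0 → nu M.toMS n w = n → Q n w →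
      KF.hotQ (D.P h (eT v tb n w / 5)) (TP.ZQ D v (eT v tb n w)) (ZbQ D v (eT v tb n w)) (Fr (eT v tb n w / 5)) a s j
          (tb.pt (eT v tb n w / 5) w) (tup (Fr (eT v tb n w / 5)) (tb.pt (eT v tb n w / 5) w))) :
    RowQ h v tb M i u1 u2 Q (s * Real.exp (-a)) := by
  obtain ⟨l, hl, hli⟩ : ∃ l : Fin 3, KF.opp j = {l, i} ∧ l ≠ i := by
    have key : ∀ i j : Fin 3, i ≠ j → ∃ l : Fin 3, univ.erase j = ({l, i} : Finset (Fin 3)) ∧ l ≠ i := by decide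
    exact key i j hij
  exact RowQ.of_RowS (K := fun e b f => KF.hotQ (D.P h (e / 5)) (TP.ZQ D v e) (ZbQ D v e) (Fr (e / 5)) a s j b f) h12
    (fun e f => KF.hotQ_fac _ _ (fun i => TP.ZQ_Zb e i) a s j f) hFr
    (fun e _ w _ f _ => KF.hotQ_row_ce (D.P h (e / 5)) (Fr (e / 5)) (Z := TP.ZQ D v e) (Zb := ZbQ D v e) a hs hl hli w f) hQ

end kinds

/-- the class mass of the sections of the fitting rows -/
theorem sm_RowQ (hv : Codes D v)
    (hnu : ∀ n (a b : Om W X β), sgt D ∅ (TP.nn n) a = sgt D ∅ (TP.nn n) b → nu M.toMS n a = nu M.toMS n b)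
    {Q : ℕ → Om W X β → Prop} {q : ℝ} (hq : RowQ h v tb M i u1 u2 Q q) (c0 c1 c2 : ℕ → ℕ → Om W X β → Prop) :
    SmE h v tb M i u1 u2 (b0 v tb i c0) (bt v tb u2 c1) (bt v tb u1 c2)
      (ThR D v i (RQ v tb (nu M.toMS) i u1 u2 True Q)) q := by
  intro n hn s _ a w hf
  have e1 := fit_eT (v := v) hv hf
  have h3 := hq n hn _ hf.sm (fit_nu hnu hf)
  rw [e1] at h3
  rw [(D.P h (eT v tb n w / 5)).ce_fac (ZbQ D v (eT v tb n w) i) _ _ _
    (fit_Zb hv hf (eT v tb n w / 5) (eT v tb n w / 5)).symm]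
  refine le_trans (FP.ce_mono_on _ fun u _ hu => ind_mono ?_) h3
  rintro ⟨⟨w', a1, a2, a3, a4, a5, a6, a7, a8⟩, _⟩
  have h4 : rb (ZbQ D v (eT v tb n w) i u) (b0 v tb i c0 n s (mx {i} {u1, u2} a w)).1 =
      TP.ZQ D v (eT v tb n w) (tb.pt (eT v tb n w / 5) (mx {i} {u1, u2} a w)) := by
    unfold b0
    rw [hu, e1]
    exact rb_eq (eT v tb n w) i (tb.pt (eT v tb n w / 5) (mx {i} {u1, u2} a w))
  rw [h4] at a4
  refine ⟨w', a1, a2, ⟨?_, ?_, fun j hj => ?_⟩, a7 trivial, a8⟩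
  · rw [e1, a3]
  · rw [e1]
    exact a4.symm
  · rw [e1]
    rcases Finset.mem_insert.1 hj with rfl | hj
    · have h5 : FQ v (eT v tb n w / 5) j (tb.pt (eT v tb n w / 5) w') =
          FQ v (eT v tb n (mx {i} {j, u2} a w) / 5) j (tb.pt (eT v tb n (mx {i} {j, u2} a w) / 5) (mx {i} {j, u2} a w)) := a5
      rw [h5, e1]
    · rw [Finset.mem_singleton.1 hj]
      have h5 : FQ v (eT v tb n w / 5) u2 (tb.pt (eT v tb n w / 5) w') =
          FQ v (eT v tb n (mx {i} {u1, u2} a w) / 5) u2 (tb.pt (eT v tb n (mx {i} {u1, u2} a w) / 5)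
            (mx {i} {u1, u2} a w)) := a6
      rw [h5, e1]

section con

variable {dg : ℕ → X → ℝ} {Lam : ℝ} {N : Finset (Fin 3) → ℝ} {SS : Finset (Finset (Fin 3))}

/-- **PUBLIC COVER BY OWN ROWS, UNSIGNED** : `Own` with the constant test `c`, for an event whose relation may see the tested top
and whose rows have own mass at most `q` -/
def ownU (r : Rn h v tb M N SS dg Lam) (h1 : u1 ≠ i) (h2 : u2 ≠ i) (h12 : u1 ≠ u2) {X0 : ℝ}
    {A : ℕ → Om W X β → ℕ → Om W X β → Prop} {Q : ℕ → Om W X β → Prop} {c0 c1 c2 : ℕ → ℕ → Om W X β → Prop}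
    (d : Rd h v tb M i u1 u2 True X0 A Q c0 c1 c2) {q c eps : ℝ} {Nn : ℕ} (hq : RowQ h v tb M i u1 u2 Q q)
    (q0 : 0 ≤ q) (c0' : 0 ≤ c) (he : Real.exp c * (Nn * q) ≤ eps) :
    Own h v tb M i u1 u2 A (fun _ _ => c) ((β × Lt X β φ) × Prop) (Lt X β φ × Prop) (Lt X β φ × Prop)
      (2 * Real.exp X0) (2 * (1 / al)) (2 * (1 / al)) eps Nn :=
  (evtQ r h1 h2 h12 d).own eps Nn (fun _ _ _ _ _ _ _ => c) (fun _ _ _ _ _ _ _ _ _ => rfl) (fun _ _ _ _ _ _ _ => rfl)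
    (fun _ _ _ _ _ _ _ _ => rfl) (hone_E (sm_RowQ r.hv r.hnu hq c0 c1 c2) q0 c0' he)

/-! ### the payment -/

variable {w0 : Om W X β} {k : Nm}

/-- **the unsigned cover does not see the constant** -/
theorem PZ_one {tm : ℕ → ℕ} {T' : ℕ} {zz : ℕ → ℕ → Om W X β → Prop} {A : ℕ → Om W X β → ℕ → Om W X β → Prop} {c : ℝ}
    (c0 : 0 < c) : PZ tb M w0 tm T' k zz i u1 u2 A (fun _ _ => c) c = PZ tb M w0 tm T' k zz i u1 u2 A (fun _ _ => 1) 1 := by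
  have e : ∀ (B : ℕ → Om W X β → Prop) (P : FP (Om W X β)) x,
      cvz D w0 tm k i u1 u2 B (fun _ => c) c P x = cvz D w0 tm k i u1 u2 B (fun _ => 1) 1 P x := by
    intro B P x
    funext s
    exact covL_one c0 k.K s
  unfold UV0P.PZ
  refine Finset.sum_congr rfl fun n _ => M.P.E_congr fun z _ => ?_
  congr 1
  refine FP.E_congr _ fun x _ => ?_
  rw [e]

/-- **ONE UNSIGNED COVER IS PAID** -/
theorem pzU {zp : ℕ → ℕ → Om W X β → Prop} {X0 L B eps q : ℝ} {Nn : ℕ} (r : Rn h v tb M N SS dg Lam)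
    (hP : Pays h v tb M w0 k zp (2 * Real.exp X0) (2 * (1 / al)) (2 * (1 / al)) eps Nn L B)
    (h1 : u1 ≠ i) (h2 : u2 ≠ i) (h12 : u1 ≠ u2) {A : ℕ → Om W X β → ℕ → Om W X β → Prop} {Q : ℕ → Om W X β → Prop}
    {c0 c1 c2 : ℕ → ℕ → Om W X β → Prop} (d : Rd h v tb M i u1 u2 True X0 A Q c0 c1 c2)
    (hq : RowQ h v tb M i u1 u2 Q q) (q0 : 0 ≤ q) (l0 : 0 < k.lam) (hL : k.lam ≤ L)
    (he : Real.exp k.lam * (Nn * q) ≤ eps) : PZ tb M w0 TP.nn (5 * T) k zp i u1 u2 A (fun _ _ => 1) 1 ≤ B := by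
  rw [← PZ_one l0]
  refine hP i u1 u2 A (fun _ _ => k.lam) _ _ _ h1 h2 h12 ⟨ownU r h1 h2 h12 d hq q0 l0.le he⟩ fun n w => ?_
  rw [abs_of_pos l0]
  exact hL

variable {zz zp : ℕ → ℕ → Om W X β → Prop} {ub : Fin 3 → ℕ → ℕ → Om W X β → Prop} {R : ℕ → Om W X β → Prop}
  {rel : Fin 3 → ℕ → Om W X β → Prop} {Vk J : Finset (Fin 3)} {X0 L B eps q : ℝ} {Nn : ℕ}

/-- **one unsigned cover of a zone**, with two memberships; the relations may see all tops -/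
theorem uA_pay (r : Rn h v tb M N SS dg Lam) (zo : Zo h v tb M J X0 zz ub R rel Vk)
    (hP : Pays h v tb M w0 k zp (2 * Real.exp X0) (2 * (1 / al)) (2 * (1 / al)) eps Nn L B)
    (h1 : u1 ≠ i) (h2 : u2 ≠ i) (h12 : u1 ≠ u2) (hq : RowQ h v tb M i u1 u2 R q) (q0 : 0 ≤ q) (l0 : 0 < k.lam)
    (hL : k.lam ≤ L) (he : Real.exp k.lam * (Nn * q) ≤ eps) {B1 B2 A : ℕ → Om W X β → ℕ → Om W X β → Prop}
    (hB1 : ∀ n s, n ≤ s → Fac (si D {i, u1} univ {u2} (TP.nn s)) (fun w => B1 n w s w))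
    (hB2 : ∀ n s, n ≤ s → Fac (si D {i, u2} univ {u1} (TP.nn s)) (fun w => B2 n w s w))
    (hw1 : ∀ n z z', sgt D ∅ (TP.nn n) z = sgt D ∅ (TP.nn n) z' → B1 n z = B1 n z')
    (hw2 : ∀ n z z', sgt D ∅ (TP.nn n) z = sgt D ∅ (TP.nn n) z' → B2 n z = B2 n z')
    (hA : ∀ n z s w, An0 M zz ub R rel Vk n s w ∧ B1 n z s w ∧ B2 n z s w ↔ A n z s w) :
    PZ tb M w0 TP.nn (5 * T) k zp i u1 u2 A (fun _ _ => 1) 1 ≤ B := by
  have hJ : ∀ j ∈ J, j = u1 ∨ j = u2 ∨ (j = i ∧ True) := by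
    intro j _
    rcases all3 i u1 u2 h1 h2 h12 j with h3 | h3 | h3
    · exact Or.inr (Or.inr ⟨h3, trivial⟩)
    · exact Or.inl h3
    · exact Or.inr (Or.inl h3)
  have d := (rdZ (h := h) zo.hCN hJ (all3 i u1 u2 h1 h2 h12) zo.hzn zo.hzz zo.hub zo.hut zo.hR zo.hrel
    (fun n hn w hw hr => zo.hX n hn w hw hr i) hB1 hB2 hw1 hw2).congr hA
  exact pzU r hP h1 h2 h12 d (hq.sub le_rfl fun n _ w _ _ hh => hh.1) q0 l0 hL he

/-- **THE COVERED MASS OF AN UNSIGNED COVER OF THE ZONES** (`UV0.h_sum`, `UV0.ht_sum`, `PayPI.g_pay`) -/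
theorem mcU_pay (r : Rn h v tb M N SS dg Lam) (zo : Zo h v tb M J X0 zz ub R rel Vk)
    (hP : Pays h v tb M w0 k zp (2 * Real.exp X0) (2 * (1 / al)) (2 * (1 / al)) eps Nn L B)
    (h1 : u1 ≠ i) (h2 : u2 ≠ i) (h12 : u1 ≠ u2) (hq : RowQ h v tb M i u1 u2 R q) (q0 : 0 ≤ q) (l0 : 0 < k.lam)
    (hL : k.lam ≤ L) (he : Real.exp k.lam * (Nn * q) ≤ eps) :
    UV0.SW M tb TP.nn (5 * T) (fun n P => mcU P (zp n) D TP.nn (An0 M zz ub R rel Vk n) w0 i u1 u2 k) ≤ B := by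
  rw [UV0P.mcU_eq]
  exact uA_pay r zo hP h1 h2 h12 hq q0 l0 hL he (B1 := fun _ _ _ _ => True) (B2 := fun _ _ _ _ => True)
    (fun _ _ _ _ _ _ => rfl) (fun _ _ _ _ _ _ => rfl) (fun _ _ _ _ => rfl) (fun _ _ _ _ => rfl)
    (fun n z s w => by simp)

end con

end

end Pool.Agent.GMH.PayPV
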