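import Pool.Agent.GMH.UV02
import Pool.Agent.GMH.Dyn

/-!
# GMH/TstZ (helper46): THE TESTS OF THE ZONES (kinds at `T^0`), any frame

Frame `F` (three tops `FQ`, or the two tops `Fo (FQ) i`), one law `P`, `Z` = all thin letters, `Zb j` = what the top `j` sees.
* `rho S j w f` = law of the top `j` given the tops `S` and all thin letters, against its own law;
  `lt K L S j w f` = its logarithm, cut at `- K` from below (smoothly) and at `L` from above; `lt_fac`, `lt_le`, `lt_ge`;
* `lt_norm` : `E exp (lt) ≤ 1` under the own law of the tested top, everything else fixed (form of helper75);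
* `psC_cut2`, `psC_cut3` : the cut log density is at most two (one) tests plus a single;
* `Gz` = the same as functions of (thin letters, tuple) at the state `e`, `gz` = the test on the table space at the start `n`
  (`e = eT n w`), `Gz_norm`; `tR`, `t2` : the tests as `TR`, `T2`; `tokr`, `t2r` : what UV0, UV02 ask;
* `sg_le` : the singles.
-/

set_option autoImplicit false
set_option linter.unusedSectionVars false

namespace Pool.Agent.GMH.TstZ

open Finset Pool.Agent.PWZ Pool.Agent.M3 Pool.Agent.GM Pool.Agent.GM.Harm Pool.Agent.GMH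

noncomputable section

/-! ## one law -/

section fr

variable {Om : Type*} [Fintype Om] (P : FP Om) {α β φ : Type*} (Z : Om → β) (Zb : Fin 3 → Om → α) (F : Fin 3 → Om → φ)

/-- law of the top `j` given the tops `S` and all thin letters, against its own law -/
def rho (S : Finset (Fin 3)) (j : Fin 3) (w : Om) (f : Fin 3 → φ) : ℝ :=
  KF.pS P Z F (insert j S) w f / (KF.pS P Z F S w f * qF P Zb F j w (f j))

/-- the test of the top `j` given the tops `S` -/
def lt (K L : ℝ) (S : Finset (Fin 3)) (j : Fin 3) (w : Om) (f : Fin 3 → φ) : ℝ :=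
  min L (Real.log ((rho P Z Zb F S j w f + Real.exp (-K)) / (1 + Real.exp (-K))))

variable {P Z Zb F}

theorem qF_nn (j : Fin 3) (w : Om) (x : φ) : 0 ≤ qF P Zb F j w x := P.pv_nonneg _ _ _ _

theorem rho_nn (S : Finset (Fin 3)) (j : Fin 3) (w : Om) (f : Fin 3 → φ) : 0 ≤ rho P Z Zb F S j w f :=
  div_nonneg (KF.pS_nn P F _ w f) (mul_nonneg (KF.pS_nn P F _ w f) (qF_nn j w _))

theorem rho_fac (hZ : ∀ i, Fac Z (Zb i)) (S : Finset (Fin 3)) (j : Fin 3) (f : Fin 3 → φ) :
    Fac Z (fun w => rho P Z Zb F S j w f) := by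
  intro a b hab
  have h1 : ∀ S, KF.pS P Z F S a f = KF.pS P Z F S b f := fun S => KF.pS_fac P F S f a b hab
  have h2 : qF P Zb F j a (f j) = qF P Zb F j b (f j) := KF.qF_fac P F hZ j (f j) a b hab
  show rho P Z Zb F S j a f = rho P Z Zb F S j b f
  unfold rho
  rw [h1, h1, h2]

theorem lt_fac (hZ : ∀ i, Fac Z (Zb i)) (K L : ℝ) (S : Finset (Fin 3)) (j : Fin 3) (f : Fin 3 → φ) :
    Fac Z (fun w => lt P Z Zb F K L S j w f) := by
  intro a b hab
  have h1 : rho P Z Zb F S j a f = rho P Z Zb F S j b f := rho_fac hZ S j f a b hab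
  show lt P Z Zb F K L S j a f = lt P Z Zb F K L S j b f
  unfold lt
  rw [h1]

theorem lt_le (K L : ℝ) (S : Finset (Fin 3)) (j : Fin 3) (w : Om) (f : Fin 3 → φ) : lt P Z Zb F K L S j w f ≤ L :=
  min_le_left _ _

/-- **the test is above the cut logarithm** -/
theorem lt_ge {K L : ℝ} (hK : 0 ≤ K) (hL : 0 ≤ L) {S : Finset (Fin 3)} {j : Fin 3} {w : Om} {f : Fin 3 → φ}
    (h0 : 0 < rho P Z Zb F S j w f) (h1 : Real.log (rho P Z Zb F S j w f) ≤ L) :
    max (Real.log (rho P Z Zb F S j w f)) (-K) - Real.exp (-K) ≤ lt P Z Zb F K L S j w f := by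
  have hd := Real.exp_pos (-K)
  have e1 : max (Real.log (rho P Z Zb F S j w f)) (-K) ≤ Real.log (rho P Z Zb F S j w f + Real.exp (-K)) := by
    refine max_le (Real.log_le_log h0 (by linarith)) ?_
    calc -K = Real.log (Real.exp (-K)) := (Real.log_exp _).symm
      _ ≤ _ := Real.log_le_log hd (by linarith)
  have e2 : Real.log (1 + Real.exp (-K)) ≤ Real.exp (-K) := by
    have := Real.log_le_sub_one_of_pos (show 0 < 1 + Real.exp (-K) by linarith)
    linarith
  unfold lt
  refine le_min ?_ ?_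
  · have : max (Real.log (rho P Z Zb F S j w f)) (-K) ≤ L := max_le h1 (by linarith)
    linarith
  · rw [Real.log_div (by linarith) (by linarith)]
    linarith

/-- **NORMALISATION UNDER THE OWN LAW OF THE TESTED TOP** -/
theorem lt_norm (K L : ℝ) {S : Finset (Fin 3)} {j : Fin 3} (hj : j ∉ S) {w : Om}
    (hw : P.p w ≠ 0) (f : Fin 3 → φ) :
    P.ce (Zb j) (fun u => Real.exp (lt P Z Zb F K L S j w (Function.update f j (F j u)))) w ≤ 1 := by
  classical
  have hd := Real.exp_pos (-K)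
  have hne : ∀ i ∈ S, i ≠ j := fun i hi e => hj (e ▸ hi)
  have h1 : ∀ g : Fin 3 → φ, Real.exp (lt P Z Zb F K L S j w g) ≤
      (rho P Z Zb F S j w g + Real.exp (-K)) / (1 + Real.exp (-K)) := by
    intro g
    have h2 : 0 < (rho P Z Zb F S j w g + Real.exp (-K)) / (1 + Real.exp (-K)) :=
      div_pos (by have := rho_nn (P := P) (Z := Z) (Zb := Zb) (F := F) S j w g; linarith) (by linarith)
    calc Real.exp (lt P Z Zb F K L S j w g) ≤ Real.exp (Real.log ((rho P Z Zb F S j w g + Real.exp (-K)) /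
          (1 + Real.exp (-K)))) := Real.exp_le_exp.2 (min_le_right _ _)
      _ = _ := Real.exp_log h2
  refine (P.ce_mono (fun u _ => h1 (Function.update f j (F j u))) w).trans ?_
  -- the mean of `rho` over the letters of `j`
  have key : P.ce (Zb j) (fun u => rho P Z Zb F S j w (Function.update f j (F j u))) w ≤ 1 := by
    have e1 : P.ce (Zb j) (fun u => rho P Z Zb F S j w (Function.update f j (F j u))) w =
        ∑ x ∈ vals (F j), qF P Zb F j w x * rho P Z Zb F S j w (Function.update f j x) := by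
      have h3 := P.sum_pv (W := Zb j) (F j) (F := fun _ x => rho P Z Zb F S j w (Function.update f j x))
        (fun v => fun _ _ _ => rfl) w
      rw [← h3]
      rfl
    rw [e1]
    have e2 : ∀ x, KF.pS P Z F S w (Function.update f j x) = KF.pS P Z F S w f := by
      intro x
      unfold KF.pS
      refine P.ce_congr (fun u _ => ?_) w
      congr 1
      refine propext ⟨fun h i hi => ?_, fun h i hi => ?_⟩
      · rw [h i hi, Function.update_of_ne (hne i hi)]
      · rw [h i hi, Function.update_of_ne (hne i hi)]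
    have e3 : ∀ x, KF.pS P Z F (insert j S) w (Function.update f j x) =
        P.ce Z (fun u => ind (F j u = x) * ind (∀ i ∈ S, F i u = f i)) w := by
      intro x
      unfold KF.pS
      refine P.ce_congr (fun u _ => ?_) w
      rw [← ind_and]
      congr 1
      refine propext ⟨fun h => ⟨?_, fun i hi => ?_⟩, fun h i hi => ?_⟩
      · have := h j (Finset.mem_insert_self _ _)
        rwa [Function.update_self] at this
      · have := h i (Finset.mem_insert_of_mem hi)
        rwa [Function.update_of_ne (hne i hi)] at this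
      · rcases Finset.mem_insert.1 hi with e | e
        · rw [e, Function.update_self]
          exact h.1
        · rw [Function.update_of_ne (hne i e)]
          exact h.2 i e
    have e4 : ∑ x ∈ vals (F j), KF.pS P Z F (insert j S) w (Function.update f j x) = KF.pS P Z F S w f := by
      simp only [e3]
      rw [← P.ce_sum]
      unfold KF.pS
      refine P.ce_congr (fun u _ => ?_) w
      show ∑ x ∈ vals (F j), ind (F j u = x) * ind (∀ i ∈ S, F i u = f i) = _
      rw [← Finset.sum_mul, Finset.sum_eq_single (F j u)]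
      · rw [ind_of rfl, one_mul]
      · intro b _ hb
        exact ind_not fun e => hb e.symm
      · intro h
        exact absurd (FP.mem_vals (F j) u) h
    have e5 : ∀ x ∈ vals (F j), qF P Zb F j w x * rho P Z Zb F S j w (Function.update f j x) ≤
        KF.pS P Z F (insert j S) w (Function.update f j x) / KF.pS P Z F S w f := by
      intro x _
      unfold rho
      rw [e2, Function.update_self]
      rcases eq_or_ne (qF P Zb F j w x) 0 with h0 | h0
      · rw [h0, zero_mul]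
        exact div_nonneg (KF.pS_nn P F _ w _) (KF.pS_nn P F _ w f)
      · rcases eq_or_ne (KF.pS P Z F S w f) 0 with h4 | h4
        · rw [h4]
          simp
        · refine le_of_eq ?_
          field_simp
    refine (Finset.sum_le_sum e5).trans ?_
    rw [← Finset.sum_div, e4]
    exact div_self_le_one _
  have e6 : P.ce (Zb j) (fun u => (rho P Z Zb F S j w (Function.update f j (F j u)) + Real.exp (-K)) /
      (1 + Real.exp (-K))) w = (P.ce (Zb j) (fun u => rho P Z Zb F S j w (Function.update f j (F j u))) w +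
        Real.exp (-K)) / (1 + Real.exp (-K)) := by
    have e7 : (fun u => (rho P Z Zb F S j w (Function.update f j (F j u)) + Real.exp (-K)) / (1 + Real.exp (-K))) =
        fun u => (1 / (1 + Real.exp (-K))) * (rho P Z Zb F S j w (Function.update f j (F j u)) + Real.exp (-K)) :=
      funext fun u => by ring
    rw [e7, P.ce_smul, P.ce_add, P.ce_const _ _ hw]
    ring
  rw [e6, div_le_one (by linarith)]
  linarith

/-! ### the log density and the tests -/

/-- the single: law of the top given all thin letters against its own law -/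
def sl (P : FP Om) (Z : Om → β) (Zb : Fin 3 → Om → α) (F : Fin 3 → Om → φ) (j : Fin 3) (w : Om) (f : Fin 3 → φ) : ℝ :=
  Real.log (mF P Z F j w (f j) / qF P Zb F j w (f j))

theorem pS_pos (S : Finset (Fin 3)) {w : Om} (hw : P.p w ≠ 0) : 0 < KF.pS P Z F S w (tup F w) := by
  have h1 := P.pv_self_pos Z (tup F) hw
  refine lt_of_lt_of_le h1 (P.ce_mono (fun u _ => ind_mono fun h i _ => ?_) w)
  exact congrFun h i

theorem qF_pos (j : Fin 3) {w : Om} (hw : P.p w ≠ 0) : 0 < qF P Zb F j w (F j w) := P.pv_self_pos _ _ hw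

theorem rho_pos (S : Finset (Fin 3)) (j : Fin 3) {w : Om} (hw : P.p w ≠ 0) :
    0 < rho P Z Zb F S j w (tup F w) :=
  div_pos (pS_pos _ hw) (mul_pos (pS_pos _ hw) (qF_pos j hw))

/-- the ratio is at most the inverse of the own law -/
theorem rho_log_le (S : Finset (Fin 3)) {j : Fin 3} {w : Om} (hw : P.p w ≠ 0) {L : ℝ}
    (hq : Real.exp (-L) ≤ qF P Zb F j w (F j w)) : Real.log (rho P Z Zb F S j w (tup F w)) ≤ L := by
  have h1 : KF.pS P Z F (insert j S) w (tup F w) ≤ KF.pS P Z F S w (tup F w) :=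
    KF.pS_anti P F (Finset.subset_insert _ _) w _
  have h2 := pS_pos (P := P) (Z := Z) (F := F) S hw
  have h3 : qF P Zb F j w (tup F w j) = qF P Zb F j w (F j w) := rfl
  have h4 : rho P Z Zb F S j w (tup F w) ≤ Real.exp L := by
    unfold rho
    rw [h3, div_le_iff₀ (mul_pos h2 (qF_pos j hw))]
    have h5 : 1 ≤ Real.exp L * qF P Zb F j w (F j w) := by
      calc (1 : ℝ) = Real.exp L * Real.exp (-L) := by rw [← Real.exp_add, add_neg_cancel, Real.exp_zero]
        _ ≤ _ := mul_le_mul_of_nonneg_left hq (Real.exp_pos _).le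
    nlinarith
  calc Real.log (rho P Z Zb F S j w (tup F w)) ≤ Real.log (Real.exp L) := Real.log_le_log (rho_pos S j hw) h4
    _ = L := Real.log_exp L

theorem v3_univ {b c d : Fin 3} (hv : TabZ.V3 b c d) : insert b ({c, d} : Finset (Fin 3)) = univ := by
  obtain ⟨h1, h2, h3⟩ := hv
  revert b c d
  decide

theorem prod3 {b c d : Fin 3} (hv : TabZ.V3 b c d) (g : Fin 3 → ℝ) : ∏ i, g i = g b * (g c * g d) := by
  have h1 := v3_univ hv
  rw [← h1, Finset.prod_insert (by simp [hv.bc, hv.bd]), Finset.prod_insert (by simp [hv.cd]), Finset.prod_singleton]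

/-- **the log density = top `b` given the others + top `c` given the top `d` + the single of `d`** -/
theorem psC_split {b c d : Fin 3} (hv : TabZ.V3 b c d) {w : Om} (hw : P.p w ≠ 0) :
    psC P Z Zb F w (tup F w) = Real.log (rho P Z Zb F {c, d} b w (tup F w)) +
      Real.log (rho P Z Zb F {d} c w (tup F w)) + sl P Z Zb F d w (tup F w) := by
  set f := tup F w with hf
  have p3 : 0 < KF.pS P Z F univ w f := pS_pos univ hw
  have p2 : 0 < KF.pS P Z F {c, d} w f := pS_pos _ hw
  have p1 : 0 < KF.pS P Z F {d} w f := pS_pos _ hw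
  have qq : ∀ j, 0 < qF P Zb F j w (f j) := fun j => qF_pos j hw
  have e1 : psC P Z Zb F w f = Real.log (KF.pS P Z F univ w f / ∏ i, qF P Zb F i w (f i)) := by
    rw [KF.pS_univ P F w f]
    rfl
  rw [e1, prod3 hv]
  unfold rho sl
  rw [v3_univ hv, show mF P Z F d w (f d) = KF.pS P Z F {d} w f from (KF.pS_one P F d w f).symm,
    show insert c ({d} : Finset (Fin 3)) = {c, d} from rfl]
  rw [Real.log_div p3.ne' (mul_pos (qq b) (mul_pos (qq c) (qq d))).ne', Real.log_mul (qq b).ne' (mul_pos (qq c) (qq d)).ne',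
    Real.log_mul (qq c).ne' (qq d).ne', Real.log_div p3.ne' (mul_pos p2 (qq b)).ne', Real.log_mul p2.ne' (qq b).ne',
    Real.log_div p2.ne' (mul_pos p1 (qq c)).ne', Real.log_mul p1.ne' (qq c).ne', Real.log_div p1.ne' (qq d).ne']
  ring

/-- the cut log density is at most two tests and a single -/
theorem psC_cut {b c d : Fin 3} (hv : TabZ.V3 b c d) {w : Om} (hw : P.p w ≠ 0) {K L : ℝ} (hK : 0 ≤ K) (hL : 0 ≤ L)
    (hq : ∀ j, Real.exp (-L) ≤ qF P Zb F j w (F j w)) :
    max (psC P Z Zb F w (tup F w)) (-(2 * K)) ≤ lt P Z Zb F K L {c, d} b w (tup F w) +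
      lt P Z Zb F K L {d} c w (tup F w) + (|sl P Z Zb F d w (tup F w)| + 2 * Real.exp (-K)) := by
  have h1 := lt_ge (K := K) (L := L) hK hL (rho_pos (Z := Z) (Zb := Zb) {c, d} b hw) (rho_log_le _ hw (hq b))
  have h2 := lt_ge (K := K) (L := L) hK hL (rho_pos (Z := Z) (Zb := Zb) {d} c hw) (rho_log_le _ hw (hq c))
  rw [psC_split hv hw]
  have h3 := le_abs_self (sl P Z Zb F d w (tup F w))
  have h4 := abs_nonneg (sl P Z Zb F d w (tup F w))
  refine max_le ?_ ?_
  · have a1 := le_max_left (Real.log (rho P Z Zb F {c, d} b w (tup F w))) (-K)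
    have a2 := le_max_left (Real.log (rho P Z Zb F {d} c w (tup F w))) (-K)
    linarith
  · have a1 := le_max_right (Real.log (rho P Z Zb F {c, d} b w (tup F w))) (-K)
    have a2 := le_max_right (Real.log (rho P Z Zb F {d} c w (tup F w))) (-K)
    linarith

/-- a constant top -/
theorem rho_cst {b c d : Fin 3} {w : Om} (hw : P.p w ≠ 0) {x0 : φ} (hx : ∀ u, F b u = x0) :
    rho P Z Zb F {c, d} b w (tup F w) = 1 := by
  have p2 : 0 < KF.pS P Z F {c, d} w (tup F w) := pS_pos _ hw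
  have e1 : KF.pS P Z F (insert b {c, d}) w (tup F w) = KF.pS P Z F {c, d} w (tup F w) := by
    unfold KF.pS
    refine P.ce_congr (fun u _ => ?_) w
    congr 1
    refine propext ⟨fun h i hi => h i (Finset.mem_insert_of_mem hi), fun h i hi => ?_⟩
    rcases Finset.mem_insert.1 hi with e | e
    · rw [e]
      show F b u = F b w
      rw [hx, hx]
    · exact h i e
  have e2 : qF P Zb F b w (tup F w b) = 1 := by
    unfold qF FP.pv
    have e3 : (fun u => ind (F b u = tup F w b)) = fun _ => 1 := funext fun u => ind_of (by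
      show F b u = F b w
      rw [hx, hx])
    rw [e3, P.ce_const _ _ hw]
  unfold rho
  rw [e1, e2, mul_one, div_self p2.ne']

/-- the cut log density of two tops is at most one test and a single -/
theorem psC_cut2 {b c d : Fin 3} (hv : TabZ.V3 b c d) {w : Om} (hw : P.p w ≠ 0) {x0 : φ} (hx : ∀ u, F b u = x0)
    {K L : ℝ} (hK : 0 ≤ K) (hL : 0 ≤ L) (hq : ∀ j, Real.exp (-L) ≤ qF P Zb F j w (F j w)) :
    max (psC P Z Zb F w (tup F w)) (-(2 * K)) ≤
      lt P Z Zb F K L {d} c w (tup F w) + (|sl P Z Zb F d w (tup F w)| + 2 * Real.exp (-K)) := by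
  have h2 := lt_ge (K := K) (L := L) hK hL (rho_pos (Z := Z) (Zb := Zb) {d} c hw) (rho_log_le _ hw (hq c))
  rw [psC_split hv hw, rho_cst hw hx, Real.log_one, zero_add]
  have h3 := le_abs_self (sl P Z Zb F d w (tup F w))
  have h4 := abs_nonneg (sl P Z Zb F d w (tup F w))
  have h5 := Real.exp_pos (-K)
  refine max_le ?_ ?_
  · have a2 := le_max_left (Real.log (rho P Z Zb F {d} c w (tup F w))) (-K)
    linarith
  · have a2 := le_max_right (Real.log (rho P Z Zb F {d} c w (tup F w))) (-K)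
    linarith

/-- the log density is bounded everywhere -/
theorem psC_le (hZ : ∀ i, Fac Z (Zb i)) {L : ℝ} (hL : 0 ≤ L)
    (hq : ∀ u, P.p u ≠ 0 → ∀ j, Real.exp (-L) ≤ qF P Zb F j u (F j u)) (w : Om) :
    psC P Z Zb F w (tup F w) ≤ 3 * L := by
  unfold psC
  rcases (P.pv_nonneg Z (tup F) w (tup F w)).eq_or_lt with h0 | h0
  · rw [← h0, zero_div, Real.log_zero]
    linarith
  · obtain ⟨u, hu, hzu, htu⟩ : ∃ u, P.p u ≠ 0 ∧ Z u = Z w ∧ tup F u = tup F w := by
      by_contra hcon
      push Not at hcon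
      have : P.pv Z (tup F) w (tup F w) = 0 := by
        unfold FP.pv FP.ce
        rw [P.E_congr (g := fun _ => 0) fun v hv => by
          show ind (Z v = Z w) * ind (tup F v = tup F w) = 0
          by_cases e : Z v = Z w
          · rw [ind_not (hcon v hv e), mul_zero]
          · rw [ind_not e, zero_mul], P.E_const, zero_div]
      exact h0.ne' this
    have e1 : ∀ j, P.pv (Zb j) (F j) w (tup F w j) = qF P Zb F j u (F j u) := by
      intro j
      have e2 : F j u = F j w := congrFun htu j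
      rw [e2]
      exact (P.pv_fac (Zb j) (F j) (F j w) u w (hZ j u w hzu)).symm
    have e3 : Real.exp (-(3 * L)) ≤ ∏ j, P.pv (Zb j) (F j) w (tup F w j) := by
      have e4 : Real.exp (-(3 * L)) = ∏ _j : Fin 3, Real.exp (-L) := by
        rw [Finset.prod_const, Finset.card_univ, Fintype.card_fin, ← Real.exp_nat_mul]
        congr 1
        push_cast
        ring
      rw [e4]
      refine Finset.prod_le_prod (fun _ _ => (Real.exp_pos _).le) fun j _ => ?_
      rw [e1 j]
      exact hq u hu j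
    have e5 : P.pv Z (tup F) w (tup F w) ≤ 1 := by
      have e6 : P.pv Z (tup F) w (tup F w) = P.pv Z (tup F) u (tup F u) := by
        rw [htu]
        exact (P.pv_fac Z (tup F) (tup F w) u w hzu).symm
      rw [e6]
      exact P.ce_le_const (fun v _ => ind_le_one _) hu
    have hp := Real.exp_pos (-(3 * L))
    have e7 : P.pv Z (tup F) w (tup F w) / ∏ j, P.pv (Zb j) (F j) w (tup F w j) ≤ Real.exp (3 * L) := by
      rw [div_le_iff₀ (by linarith)]
      have : (1 : ℝ) ≤ Real.exp (3 * L) * ∏ j, P.pv (Zb j) (F j) w (tup F w j) := by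
        calc (1 : ℝ) = Real.exp (3 * L) * Real.exp (-(3 * L)) := by rw [← Real.exp_add, add_neg_cancel, Real.exp_zero]
          _ ≤ _ := mul_le_mul_of_nonneg_left e3 (Real.exp_pos _).le
      linarith
    have e8 : 0 < P.pv Z (tup F) w (tup F w) / ∏ j, P.pv (Zb j) (F j) w (tup F w j) := div_pos h0 (by linarith)
    calc _ ≤ Real.log (Real.exp (3 * L)) := Real.log_le_log e8 e7
      _ = 3 * L := Real.log_exp _

/-- a single is bounded at the true tuple -/
theorem sl_abs {j : Fin 3} {w : Om} (hw : P.p w ≠ 0) {L : ℝ} (hq : Real.exp (-L) ≤ qF P Zb F j w (F j w))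
    (hm : Real.exp (-L) ≤ mF P Z F j w (F j w)) : |sl P Z Zb F j w (tup F w)| ≤ L := by
  have h1 : qF P Zb F j w (F j w) ≤ 1 := P.ce_le_const (fun v _ => ind_le_one _) hw
  have h2 : mF P Z F j w (F j w) ≤ 1 := P.ce_le_const (fun v _ => ind_le_one _) hw
  have h3 := Real.exp_pos (-L)
  have h4 : 0 < qF P Zb F j w (F j w) := by linarith
  have h5 : 0 < mF P Z F j w (F j w) := by linarith
  have e1 : sl P Z Zb F j w (tup F w) = Real.log (mF P Z F j w (F j w)) - Real.log (qF P Zb F j w (F j w)) := by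
    unfold sl
    rw [show tup F w j = F j w from rfl, Real.log_div h5.ne' h4.ne']
  have a1 := Real.log_le_log h3 hq
  have a2 := Real.log_le_log h3 hm
  rw [Real.log_exp] at a1 a2
  have a3 := Real.log_nonpos h4.le h1
  have a4 := Real.log_nonpos h5.le h2
  rw [e1, abs_le]
  constructor <;> linarith

end fr

/-! ## the tests on the space with tables -/

section run

open Pool.Agent.GMH.Dy Pool.Agent.GMH.TP Pool.Agent.GMH.TabZ Pool.Agent.GMH.UV02

variable {X β γ φ υ Φ : Type} [Fintype X] [Fintype β] [Fintype φ] [Nonempty X] [Nonempty β]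
variable {D : HD (Fin 3) X β γ φ} {al : ℝ} (h : D.Thick al) (v : ℕ → Finset (Fin 3) → X → (Fin 3 → β) → υ)
variable {prr : ℕ → Fin 3 → φ → φ} {T : ℕ} {W : Type} [Fintype W] (tb : Tab D prr T W)
variable (Fr : ℕ → Fin 3 → Pt (Fin 3) X β φ → Φ)

/-- values of the thin letters -/
abbrev ZV (β γ φ υ : Type) : Type :=
  ({J : Finset (Fin 3) // pth J} → List υ × (Fin 3 → Option φ)) × ((Fin 3 → β) × (γ × (Fin 3 → γ)))

open Classical in
/-- the test at the state `e` as a function of the thin letters and the tuple -/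
def Gz (K L : ℝ) (S : Finset (Fin 3)) (j : Fin 3) (e : ℕ) (z : ZV β γ φ υ) (f : Fin 3 → Φ) : ℝ :=
  if hz : ∃ u, ZQ D v e u = z then
    lt (D.P h (e / 5)) (ZQ D v e) (ZbQ D v e) (Fr (e / 5)) K L S j (Classical.choose hz) f
  else 0

theorem Gz_eq (K L : ℝ) (S : Finset (Fin 3)) (j : Fin 3) (e : ℕ) (u : Pt (Fin 3) X β φ) (f : Fin 3 → Φ) :
    Gz h v Fr K L S j e (ZQ D v e u) f = lt (D.P h (e / 5)) (ZQ D v e) (ZbQ D v e) (Fr (e / 5)) K L S j u f := by
  have hz : ∃ u', ZQ D v e u' = ZQ D v e u := ⟨u, rfl⟩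
  unfold Gz
  rw [dif_pos hz]
  exact lt_fac (ZQ_Zb e) K L S j f _ _ (Classical.choose_spec hz)

/-- **NORMALISATION** under the own law of the tested top `j` -/
theorem Gz_norm (K L : ℝ) {S : Finset (Fin 3)} {j : Fin 3} (hj : j ∉ S) {e : ℕ} {u : Pt (Fin 3) X β φ}
    (hu : (D.P h (e / 5)).p u ≠ 0) (f : Fin 3 → Φ) :
    (D.P h (e / 5)).ce (ZbQ D v e j) (fun u' => Real.exp (Gz h v Fr K L S j e (ZQ D v e u)
      (Function.update f j (Fr (e / 5) j u')))) u ≤ 1 := by
  simp only [Gz_eq]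
  exact lt_norm K L hj hu f

/-- the test at the start `n` -/
def gz (K L : ℝ) (S : Finset (Fin 3)) (j : Fin 3) (n : ℕ) (w : Om W X β) : ℝ :=
  Gz h v Fr K L S j (eT v tb n w) (ZQ D v (eT v tb n w) (tb.pt (eT v tb n w / 5) w))
    (fun i => Fr (eT v tb n w / 5) i (tb.pt (eT v tb n w / 5) w))

/-- the log density at the start `n` -/
def pz (n : ℕ) (w : Om W X β) : ℝ :=
  psC (D.P h (eT v tb n w / 5)) (ZQ D v (eT v tb n w)) (ZbQ D v (eT v tb n w)) (Fr (eT v tb n w / 5))
    (tb.pt (eT v tb n w / 5) w) (tup (Fr (eT v tb n w / 5)) (tb.pt (eT v tb n w / 5) w))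

theorem pz3 (n : ℕ) (w : Om W X β) : pz h v tb (FQ v) n w = ps3 h v tb n w := rfl

theorem pz2 (i : Fin 3) (n : ℕ) (w : Om W X β) : pz h v tb (fun t => Fo (FQ v t) i) n w = ps2 h v tb i n w := rfl

/-- the single of the top `j` at the start `n` -/
def sz (j : Fin 3) (n : ℕ) (w : Om W X β) : ℝ :=
  sl (D.P h (eT v tb n w / 5)) (ZQ D v (eT v tb n w)) (ZbQ D v (eT v tb n w)) (Fr (eT v tb n w / 5)) j
    (tb.pt (eT v tb n w / 5) w) (tup (Fr (eT v tb n w / 5)) (tb.pt (eT v tb n w / 5) w))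

open Classical in
/-- the remaining term: singles, cut error; a large number outside the support -/
def sgz (K L : ℝ) (n : ℕ) (w : Om W X β) : ℝ :=
  if tb.Ps.p w ≠ 0 then |sz h v tb Fr 0 n w| + |sz h v tb Fr 1 n w| + |sz h v tb Fr 2 n w| + 2 * Real.exp (-K)
  else L + 2 * (K + 1)

/-- the tests of the three-body zones -/
def tR (K L : ℝ) (b c d : Fin 3) (n : ℕ) : TR (Om W X β) where
  pZ := gz h v tb Fr K L {c, d} b n
  Yb := gz h v tb Fr K L {d} c n
  Xb := gz h v tb Fr K L {c} d n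
  pY := gz h v tb Fr K L {b, d} c n
  Xc := gz h v tb Fr K L {b} d n
  sg := sgz h v tb Fr K L n

/-- the tests of the two-body zones -/
def t2 (K L : ℝ) (c d : Fin 3) (n : ℕ) : T2 (Om W X β) where
  Yr := gz h v tb Fr K L {d} c n
  Xc := gz h v tb Fr K L {c} d n
  sg := sgz h v tb Fr K L n

variable {h v tb Fr}

theorem gz_le {K L : ℝ} (S : Finset (Fin 3)) (j : Fin 3) (n : ℕ) (w : Om W X β) :
    gz h v tb Fr K L S j n w ≤ L := by
  unfold gz
  rw [Gz_eq]
  exact lt_le K L S j _ _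

theorem lt_low {Ω α' β' φ' : Type*} [Fintype Ω] {P : FP Ω} {Z : Ω → β'} {Zb : Fin 3 → Ω → α'} {F : Fin 3 → Ω → φ'}
    {K L : ℝ} (hK : 0 ≤ K) (hL : 0 ≤ L) (S : Finset (Fin 3)) (j : Fin 3) (w : Ω) (f : Fin 3 → φ') :
    -(K + 1) ≤ TstZ.lt P Z Zb F K L S j w f := by
  have hd := Real.exp_pos (-K)
  have h1 := rho_nn (P := P) (Z := Z) (Zb := Zb) (F := F) S j w f
  unfold TstZ.lt
  refine le_min (by linarith) ?_
  have e1 : -K ≤ Real.log (rho P Z Zb F S j w f + Real.exp (-K)) := by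
    calc -K = Real.log (Real.exp (-K)) := (Real.log_exp _).symm
      _ ≤ _ := Real.log_le_log hd (by linarith)
  have e2 : Real.log (1 + Real.exp (-K)) ≤ 1 := by
    have h2 := Real.log_le_sub_one_of_pos (show 0 < 1 + Real.exp (-K) by linarith)
    have h3 : Real.exp (-K) ≤ 1 := Real.exp_le_one_iff.2 (by linarith)
    linarith
  rw [Real.log_div (by linarith) (by linarith)]
  linarith

theorem gz_low {K L : ℝ} (hK : 0 ≤ K) (hL : 0 ≤ L) (S : Finset (Fin 3)) (j : Fin 3) (n : ℕ) (w : Om W X β) :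
    -(K + 1) ≤ gz h v tb Fr K L S j n w := by
  unfold gz
  rw [Gz_eq]
  exact lt_low hK hL S j _ _

/-- the own laws are thick at all states -/
def Tck (h : D.Thick al) (v : ℕ → Finset (Fin 3) → X → (Fin 3 → β) → υ) (Fr : ℕ → Fin 3 → Pt (Fin 3) X β φ → Φ)
    (T : ℕ) (L : ℝ) : Prop :=
  ∀ e, e / 5 ≤ T → ∀ u, (D.P h (e / 5)).p u ≠ 0 → ∀ j,
    Real.exp (-L) ≤ qF (D.P h (e / 5)) (ZbQ D v e) (Fr (e / 5)) j u (Fr (e / 5) j u)

theorem Tck.mono {L L' : ℝ} (hT : Tck h v Fr T L) (hL : L ≤ L') : Tck h v Fr T L' := fun e he u hu j =>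
  (Real.exp_le_exp.2 (neg_le_neg hL)).trans (hT e he u hu j)

/-- the state of the tables of the start `n` -/
theorem eT_T {n : ℕ} (hn : n < 5 * T) (w : Om W X β) : eT v tb n w / 5 ≤ T := by
  unfold eT
  split <;> omega

theorem pz_le {Lam L : ℝ} (hT : Tck h v Fr T Lam) (h0 : 0 ≤ Lam) (hL : 3 * Lam ≤ L) {n : ℕ} (hn : n < 5 * T)
    (w : Om W X β) : pz h v tb Fr n w ≤ L := by
  unfold pz
  exact (psC_le (ZQ_Zb _) h0 (hT _ (eT_T hn w)) _).trans hL

/-- **three tops: the weight is below two tests** -/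
theorem cut3 {Lam L K : ℝ} (hT : Tck h v Fr T Lam) (h0 : 0 ≤ Lam) (hK : 0 ≤ K) (hL : 3 * Lam ≤ L) {b c d : Fin 3}
    (hv : V3 b c d) {n : ℕ} (hn : n < 5 * T) (w : Om W X β) :
    max (pz h v tb Fr n w) (-(2 * K)) ≤
      gz h v tb Fr K L {c, d} b n w + gz h v tb Fr K L {d} c n w + sgz h v tb Fr K L n w := by
  have hL0 : 0 ≤ L := by linarith
  have g1 := gz_low (h := h) (v := v) (tb := tb) (Fr := Fr) hK hL0 {c, d} b n w
  have g2 := gz_low (h := h) (v := v) (tb := tb) (Fr := Fr) hK hL0 {d} c n w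
  by_cases hw : tb.Ps.p w ≠ 0
  · have hT' : Tck h v Fr T L := hT.mono (by linarith)
    have hpw := (pul_pt h tb (eT_T (v := v) (tb := tb) hn w)).ne hw
    have e1 := psC_cut (Z := ZQ D v (eT v tb n w)) (Zb := ZbQ D v (eT v tb n w)) hv hpw hK hL0
      (hT' _ (eT_T hn w) _ hpw)
    have e2 : gz h v tb Fr K L {c, d} b n w = _ := Gz_eq h v Fr K L {c, d} b _ _ _
    have e3 : gz h v tb Fr K L {d} c n w = _ := Gz_eq h v Fr K L {d} c _ _ _
    have e4 : |sz h v tb Fr d n w| + 2 * Real.exp (-K) ≤ sgz h v tb Fr K L n w := by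
      unfold sgz
      rw [if_pos hw]
      have a0 := abs_nonneg (sz h v tb Fr 0 n w)
      have a1 := abs_nonneg (sz h v tb Fr 1 n w)
      have a2 := abs_nonneg (sz h v tb Fr 2 n w)
      fin_cases d <;> simp only [Fin.zero_eta, Fin.mk_one, Fin.reduceFinMk] <;> linarith
    rw [e2, e3]
    refine e1.trans ?_
    have e5 : |sl (D.P h (eT v tb n w / 5)) (ZQ D v (eT v tb n w)) (ZbQ D v (eT v tb n w)) (Fr (eT v tb n w / 5)) d
      (tb.pt (eT v tb n w / 5) w) (tup (Fr (eT v tb n w / 5)) (tb.pt (eT v tb n w / 5) w))| = |sz h v tb Fr d n w| := rfl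
    rw [e5]
    exact add_le_add le_rfl e4
  · have e4 : sgz h v tb Fr K L n w = L + 2 * (K + 1) := if_neg hw
    have e5 : max (pz h v tb Fr n w) (-(2 * K)) ≤ L := max_le (pz_le hT h0 hL hn w) (by linarith)
    rw [e4]
    linarith

/-- **two tops: the weight is below one test** -/
theorem cut2 {Lam L K : ℝ} (hT : Tck h v Fr T Lam) (h0 : 0 ≤ Lam) (hK : 0 ≤ K) (hL : 3 * Lam ≤ L) {b c d : Fin 3}
    (hv : V3 b c d) {x0 : Φ} (hx : ∀ t u, Fr t b u = x0) {n : ℕ} (hn : n < 5 * T) (w : Om W X β) :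
    max (pz h v tb Fr n w) (-(2 * K)) ≤ gz h v tb Fr K L {d} c n w + sgz h v tb Fr K L n w := by
  have hL0 : 0 ≤ L := by linarith
  have g2 := gz_low (h := h) (v := v) (tb := tb) (Fr := Fr) hK hL0 {d} c n w
  by_cases hw : tb.Ps.p w ≠ 0
  · have hT' : Tck h v Fr T L := hT.mono (by linarith)
    have hpw := (pul_pt h tb (eT_T (v := v) (tb := tb) hn w)).ne hw
    have e1 := psC_cut2 (Z := ZQ D v (eT v tb n w)) (Zb := ZbQ D v (eT v tb n w)) hv hpw (hx _) hK hL0
      (hT' _ (eT_T hn w) _ hpw)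
    have e3 : gz h v tb Fr K L {d} c n w = _ := Gz_eq h v Fr K L {d} c _ _ _
    have e4 : |sz h v tb Fr d n w| + 2 * Real.exp (-K) ≤ sgz h v tb Fr K L n w := by
      unfold sgz
      rw [if_pos hw]
      have a0 := abs_nonneg (sz h v tb Fr 0 n w)
      have a1 := abs_nonneg (sz h v tb Fr 1 n w)
      have a2 := abs_nonneg (sz h v tb Fr 2 n w)
      fin_cases d <;> simp only [Fin.zero_eta, Fin.mk_one, Fin.reduceFinMk] <;> linarith
    rw [e3]
    refine e1.trans ?_
    have e5 : |sl (D.P h (eT v tb n w / 5)) (ZQ D v (eT v tb n w)) (ZbQ D v (eT v tb n w)) (Fr (eT v tb n w / 5)) d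
      (tb.pt (eT v tb n w / 5) w) (tup (Fr (eT v tb n w / 5)) (tb.pt (eT v tb n w / 5) w))| = |sz h v tb Fr d n w| := rfl
    rw [e5]
    exact add_le_add le_rfl e4
  · have e4 : sgz h v tb Fr K L n w = L + 2 * (K + 1) := if_neg hw
    have e5 : max (pz h v tb Fr n w) (-(2 * K)) ≤ L := max_le (pz_le hT h0 hL hn w) (by linarith)
    rw [e4]
    linarith

theorem sgz_nn {K L : ℝ} (hK : 0 ≤ K) (hL : 0 ≤ L) (n : ℕ) (w : Om W X β) : 0 ≤ sgz h v tb Fr K L n w := by
  have hd := Real.exp_pos (-K)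
  unfold sgz
  split
  · positivity
  · linarith

/-- **THE TESTS OF THE THREE-BODY ZONES ARE ADMISSIBLE** (any tuples `A`) -/
theorem tokr {Lam L K : ℝ} (hT : Tck h v Fr T Lam) (h0 : 0 ≤ Lam) (hK : 0 ≤ K) (hL : 3 * Lam ≤ L) {b c d : Fin 3}
    (hv : V3 b c d) {n : ℕ} (hn : n < 5 * T) (A : ℕ → Om W X β → Prop) :
    TOkr A (fun w => max (pz h v tb Fr n w) (-(2 * K))) L (tR h v tb Fr K L b c d n) where
  iY := fun _ w _ => cut3 hT h0 hK hL hv hn w
  iX := fun _ w _ => by
    have e := cut3 (tb := tb) hT h0 hK hL hv.r2 hn w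
    rw [Finset.pair_comm d c] at e
    exact e
  iC := fun _ w _ => by
    have hv' : V3 c d b := ⟨hv.cd, hv.bc.symm, hv.bd.symm⟩
    have e := cut3 (tb := tb) hT h0 hK hL hv' hn w
    rw [Finset.pair_comm d b] at e
    exact e
  LZ := fun w => gz_le _ _ n w
  LY := fun w => gz_le _ _ n w
  Lψ := fun w => max_le (pz_le hT h0 hL hn w) (by linarith)
  sg0 := fun w => sgz_nn hK (by linarith) n w
  L0 := by linarith
  Lp := fun w => gz_le _ _ n w
  Lb := fun w => gz_le _ _ n w
  Lc := fun w => gz_le _ _ n w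

/-- **THE TESTS OF THE TWO-BODY ZONES ARE ADMISSIBLE** (the top `b` is missing) -/
theorem t2r {Lam L K : ℝ} (hT : Tck h v Fr T Lam) (h0 : 0 ≤ Lam) (hK : 0 ≤ K) (hL : 3 * Lam ≤ L) {b c d : Fin 3}
    (hv : V3 b c d) {x0 : Φ} (hx : ∀ t u, Fr t b u = x0) {n : ℕ} (hn : n < 5 * T) (A : ℕ → Om W X β → Prop) :
    T2R A (fun w => max (pz h v tb Fr n w) (-(2 * K))) L (t2 h v tb Fr K L c d n) where
  iY := fun _ w _ => cut2 hT h0 hK hL hv hx hn w
  iX := fun _ w _ => cut2 hT h0 hK hL hv.r2 hx hn w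
  LY := fun w => gz_le _ _ n w
  LX := fun w => gz_le _ _ n w
  Lψ := fun w => max_le (pz_le hT h0 hL hn w) (by linarith)
  sg0 := fun w => sgz_nn hK (by linarith) n w
  L0 := by linarith

/-! ### the singles -/

/-- the laws of the tops given all thin letters are thick -/
def TckM (h : D.Thick al) (v : ℕ → Finset (Fin 3) → X → (Fin 3 → β) → υ) (Fr : ℕ → Fin 3 → Pt (Fin 3) X β φ → Φ)
    (T : ℕ) (L : ℝ) : Prop :=
  ∀ e, e / 5 ≤ T → ∀ u, (D.P h (e / 5)).p u ≠ 0 → ∀ j,
    Real.exp (-L) ≤ mF (D.P h (e / 5)) (ZQ D v e) (Fr (e / 5)) j u (Fr (e / 5) j u)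

theorem sz_abs {Lam : ℝ} (hT : Tck h v Fr T Lam) (hM : TckM h v Fr T Lam) (j : Fin 3) {n : ℕ} (hn : n < 5 * T)
    {w : Om W X β} (hw : tb.Ps.p w ≠ 0) : |sz h v tb Fr j n w| ≤ Lam := by
  have hpw := (pul_pt h tb (eT_T (v := v) (tb := tb) hn w)).ne hw
  exact sl_abs hpw (hT _ (eT_T hn w) _ hpw j) (hM _ (eT_T hn w) _ hpw j)

/-- a single is large at the start `n` -/
def bigS (h : D.Thick al) (v : ℕ → Finset (Fin 3) → X → (Fin 3 → β) → υ) (tb : Tab D prr T W)
    (Fr : ℕ → Fin 3 → Pt (Fin 3) X β φ → Φ) (eS : ℝ) (n : ℕ) (w : Om W X β) : Prop := ∃ j, eS ≤ |sz h v tb Fr j n w|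

theorem sgz_le {Lam K L eS : ℝ} (hT : Tck h v Fr T Lam) (hM : TckM h v Fr T Lam) (he : 0 ≤ eS) {n : ℕ} (hn : n < 5 * T)
    {w : Om W X β} (hw : tb.Ps.p w ≠ 0) :
    sgz h v tb Fr K L n w ≤ (3 * eS + 2 * Real.exp (-K)) + 3 * Lam * ind (bigS h v tb Fr eS n w) := by
  unfold sgz
  rw [if_pos hw]
  have a := fun j => sz_abs (h := h) (v := v) (Fr := Fr) hT hM j hn hw
  have a0 := a 0
  have a1 := a 1
  have a2 := a 2
  by_cases hb : bigS h v tb Fr eS n w
  · rw [ind_of hb]
    linarith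
  · rw [ind_not hb]
    have b : ∀ j, |sz h v tb Fr j n w| ≤ eS := fun j => by
      by_contra hc
      exact hb ⟨j, (not_le.1 hc).le⟩
    have b0 := b 0
    have b1 := b 1
    have b2 := b 2
    linarith

/-- **the singles in the sums over the starts** -/
theorem sg_sum {M : UV.US (Om W X β)} (hP : M.P = tb.Ps) {Q : UV.Kd (Om W X β)}
    {R : ℕ → Om W X β → Prop} {rel : Fin 3 → ℕ → Om W X β → Prop} {Vk : Finset (Fin 3)} {Lam K L eS : ℝ} (hT : Tck h v Fr T Lam) (hM : TckM h v Fr T Lam)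
    (he : 0 ≤ eS) {N : ℕ} (hN : N ≤ 5 * T) :
    ∑ n ∈ range N, M.P.E (fun w => ind (MV.nu M.toMS n w = n) *
        (ind (∃ s, UV0.An M Q N n R rel Vk s w) * sgz h v tb Fr K L n w)) ≤
      (3 * eS + 2 * Real.exp (-K)) * UV0.NA M Q N R rel Vk +
        3 * Lam * ∑ n ∈ range N, M.P.Pr (fun w => MV.nu M.toMS n w = n ∧ (∃ s, UV0.An M Q N n R rel Vk s w) ∧
          bigS h v tb Fr eS n w) := by
  unfold UV0.NA
  rw [Finset.mul_sum, Finset.mul_sum, ← Finset.sum_add_distrib]
  refine Finset.sum_le_sum fun n hn => ?_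
  have hn' : n < 5 * T := lt_of_lt_of_le (mem_range.1 hn) hN
  unfold FP.Pr
  rw [← FP.E_smul, ← FP.E_smul, ← FP.E_add]
  refine M.P.E_mono fun w hw => ?_
  rw [hP] at hw
  have e1 := sgz_le (K := K) (L := L) (h := h) (v := v) (Fr := Fr) hT hM he hn' hw
  rw [ind_and, ind_and, ind_and]
  have h1 := ind_nonneg (MV.nu M.toMS n w = n)
  have h2 := ind_nonneg (∃ s, UV0.An M Q N n R rel Vk s w)
  have e2 := mul_le_mul_of_nonneg_left e1 (mul_nonneg h1 h2)
  refine le_trans (le_of_eq ?_) (e2.trans (le_of_eq ?_)) <;> ring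

end run

/-! ## thickness of the run -/

section thick

open Pool.Agent.GMH.Dy Pool.Agent.GMH.TP

variable {X β γ φ : Type} [Fintype X] [Fintype β] [Fintype φ] [Nonempty X] [Nonempty β]
variable {D : HD (Fin 3) X β γ φ} {al : ℝ} {h : D.Thick al} {N : Finset (Fin 3) → ℝ} {S : Finset (Finset (Fin 3))}
  {v : ℕ → Finset (Fin 3) → X → (Fin 3 → β) → Pt (Fin 3) X β φ} {dg : ℕ → X → ℝ} {prr : ℕ → Fin 3 → φ → φ} {T : ℕ}
  {Lam : ℝ}

theorem exp_al (H : D.Hyp dg prr al T Lam) (h : D.Thick al) : Real.exp (-Lam) ≤ al := by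
  have h1 : Real.log (1 / al) ≤ Lam := V3.TT.log_al H h.pos
  rw [one_div, Real.log_inv] at h1
  calc Real.exp (-Lam) ≤ Real.exp (Real.log al) := Real.exp_le_exp.2 (by linarith)
    _ = al := Real.exp_log h.pos

/-- **the own laws of the tops are thick** -/
theorem tck_FQ (H : D.Hyp dg prr al T Lam) (R : Run h N S (AdmDep D) v) (hS : ∀ l, univ.erase l ∈ S) (hu : univ ∉ S)
    (hN : ∀ l, 0 < N (univ.erase l)) : Tck h v (FQ v) T Lam := by
  intro e he u hup j
  have h1 := Zb_thick H R hS hu hN he (show 5 * (e / 5) ≤ e by omega) j hup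
  have h2 := (D.P h (e / 5)).m_pos (ZbQ D v e j) hup
  unfold qF
  rw [FP.pv_self, le_div_iff₀ h2]
  exact (mul_le_mul_of_nonneg_right (exp_al H h) h2.le).trans h1

/-- **the laws of the tops given all thin letters are thick** -/
theorem tckM_FQ (H : D.Hyp dg prr al T Lam) (R : Run h N S (AdmDep D) v) (hS : ∀ l, univ.erase l ∈ S) (hu : univ ∉ S)
    (hN : ∀ l, 0 < N (univ.erase l)) : TckM h v (FQ v) T Lam := by
  intro e he u hup j
  have hn : e / 5 ≤ TP.nn e := by
    have := TP.nn_mono (show 5 * (e / 5) ≤ e by omega)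
    rwa [TP.nn_0] at this
  have h1 := labels_thick h {j} hn (Z := ZQ D v e) (ZQ_xy e) (fun a b hab => by
    obtain ⟨g1, g2, g3⟩ := Zb_pts (ZQ_Zb e j a b hab)
    exact ⟨fun l hl j' hj' => g1 j' (by rw [← Finset.mem_singleton.1 hl]; exact hj'), g2, g3⟩) hup
  rw [Finset.card_singleton, pow_one] at h1
  have h2 := (D.P h (e / 5)).m_pos (ZQ D v e) hup
  have h3 : (D.P h (e / 5)).E (fun w => ind (ZQ D v e w = ZQ D v e u) * ind (∀ l ∈ ({j} : Finset (Fin 3)),
      w.2.2 l = u.2.2 l)) ≤ (D.P h (e / 5)).m (fun w => (FQ v (e / 5) j w, ZQ D v e w)) u := by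
    unfold FP.m
    refine (D.P h (e / 5)).E_mono fun w hw => ?_
    rw [← ind_and]
    refine ind_mono fun hh => ?_
    exact Prod.ext ((top_name H R hS hu hN he (show 5 * (e / 5) ≤ e by omega) hw hup (ZQ_Zb e j _ _ hh.1)).2
      (hh.2 j (Finset.mem_singleton_self j))) hh.1
  unfold mF
  rw [FP.pv_self, le_div_iff₀ h2]
  exact (mul_le_mul_of_nonneg_right (exp_al H h) h2.le).trans (h1.trans h3)

section fo

variable {Om' : Type*} [Fintype Om'] {P : FP Om'} {α' β' ι φ' : Type*} {F : Fin 3 → Om' → φ'} {Y : Om' → ι} {i j : Fin 3}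

/-- a law in the frame of the vertex `i` -/
theorem pv_Fo (hL : 0 ≤ Lam) {u : Om'} (hu : P.p u ≠ 0) (h1 : Real.exp (-Lam) ≤ P.pv Y (F j) u (F j u)) :
    Real.exp (-Lam) ≤ P.pv Y (Fo F i j) u (Fo F i j u) := by
  by_cases hij : j = i
  · have e1 : P.pv Y (Fo F i j) u (Fo F i j u) = 1 := by
      unfold FP.pv Fo
      have e3 : (fun w => ind ((if j = i then Option.none else Option.some (F j w)) =
          if j = i then Option.none else Option.some (F j u))) =
          fun _ => (1 : ℝ) := funext fun w => ind_of (by rw [if_pos hij, if_pos hij])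
      rw [e3, P.ce_const _ _ hu]
    rw [e1]
    exact Real.exp_le_one_iff.2 (by linarith)
  · have e1 : P.pv Y (Fo F i j) u (Fo F i j u) = P.pv Y (F j) u (F j u) := by
      unfold FP.pv Fo
      refine P.ce_congr (fun w _ => ?_) u
      rw [if_neg hij, if_neg hij]
      congr 1
      exact propext ⟨fun e => Option.some_injective _ e, fun e => by rw [e]⟩
    rw [e1]
    exact h1

end fo

theorem tck_Fo (hT : Tck h v (FQ v) T Lam) (hL : 0 ≤ Lam) (i : Fin 3) : Tck h v (fun t => Fo (FQ v t) i) T Lam :=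
  fun e he u hu j => pv_Fo hL hu (hT e he u hu j)

theorem tckM_Fo (hT : TckM h v (FQ v) T Lam) (hL : 0 ≤ Lam) (i : Fin 3) : TckM h v (fun t => Fo (FQ v t) i) T Lam :=
  fun e he u hu j => pv_Fo hL hu (hT e he u hu j)

/-- the missing top is constant -/
theorem Fo_none {υ : Type} {v : ℕ → Finset (Fin 3) → X → (Fin 3 → β) → υ} (i : Fin 3) (t : ℕ)
    (u : Pt (Fin 3) X β φ) : Fo (FQ v t) i i u = Option.none := if_pos rfl

end thick

end

end Pool.Agent.GMH.TstZ
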