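import Pool.Agent.GMH.PayPE
import Pool.Agent.GMH.TstZ

/-!
# GMH/PayPZ: public covers by own rows, events of the zones (helper52)

* `bk_pt`, `FQ_back` : on the support the tops of a later state know the tops of an earlier state;
* `Tb J n w w'` : `w` and `w'` have the same tables at the start `n` (state `eT n`, thin letters, tops of `J`); `Tb.mono` : and
  at all earlier starts; `tv_Tb` : the starts of the lives are known by the tables (no numbers in the hints);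
* `evtQ` : event part for `A n z s w = Q n w` (a relation of the tables, the tested top included) and three bits;
* `ownQ` : signed test `gz` (helper46) for a relation which does not see the tested top.
-/

set_option autoImplicit false
set_option linter.unusedSectionVars false

namespace Pool.Agent.GMH.PayPI

open Finset Pool.Agent.PWZ Pool.Agent.M3 Pool.Agent.GM Pool.Agent.GM.Harm Pool.Agent.GMH Pool.Agent.GMH.PayM
open Pool.Agent.GMH.PayS hiding eT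
open Pool.Agent.GMH.TP Pool.Agent.GMH.V3 Pool.Agent.GMH.V3.TG Pool.Agent.GMH.Dy Pool.Agent.GMH.TabF
open Pool.Agent.GMH.PayQ (ZbQ_Lw FQ_Tp)
open Pool.Agent.GMH.PayP (Own Fit Clq dl2 dl2_cons)
open Pool.Agent.GMH.UV (US Seen tv)
open Pool.Agent.GMH.MV (nu CN)
open Pool.Agent.GMH.MVI (NPo XLo)

noncomputable section

variable {X β γ φ : Type} [Fintype X] [Fintype β] [Fintype φ] [Nonempty X] [Nonempty β]
variable {D : HD (Fin 3) X β γ φ} {al : ℝ} {h : D.Thick al}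
variable {v : ℕ → Finset (Fin 3) → X → (Fin 3 → β) → Pt (Fin 3) X β φ}
variable {prr : ℕ → Fin 3 → φ → φ} {T : ℕ} {W : Type} [Fintype W] {tb : Tab D prr T W}
variable {M : US (Om W X β)} {i u1 u2 : Fin 3}

/-! ### earlier tops -/

/-- on the support the point of an earlier time is a function of the point of a later time -/
theorem bk_pt {s t : ℕ} (hst : s ≤ t) (ht : t ≤ T) {w : Om W X β} (hw : tb.Ps.p w ≠ 0) :
    bk prr s t (tb.pt t w) = tb.pt s w := by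
  induction t, hst using Nat.le_induction with
  | base => exact bk_self s _
  | succ t hst ih =>
    rw [← bk_bk hst (Nat.le_succ t), bk_succ, old_pt tb (by omega) hw]
    exact ih (by omega)

/-- the tops of a later time know the tops of an earlier time -/
theorem FQ_back {s t : ℕ} (hst : s ≤ t) (ht : t ≤ T) {j : Fin 3} {w w' : Om W X β} (hw : tb.Ps.p w ≠ 0)
    (hw' : tb.Ps.p w' ≠ 0) (hab : FQ v t j (tb.pt t w) = FQ v t j (tb.pt t w')) :
    FQ v s j (tb.pt s w) = FQ v s j (tb.pt s w') := by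
  rw [FQ_Tp] at hab ⊢
  rw [← bk_pt hst ht hw, ← bk_pt hst ht hw']
  exact Tp_bk hst j hab

/-! ### the same tables -/

variable (v tb) in
/-- the same tables at the start `n` : state, thin letters, tops of `J` -/
structure Tb (J : Finset (Fin 3)) (n : ℕ) (w w' : Om W X β) : Prop where
  e : eT v tb n w = eT v tb n w'
  z : ZQ D v (eT v tb n w) (tb.pt (eT v tb n w / 5) w) = ZQ D v (eT v tb n w) (tb.pt (eT v tb n w / 5) w')
  f : ∀ j ∈ J, FQ v (eT v tb n w / 5) j (tb.pt (eT v tb n w / 5) w) =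
    FQ v (eT v tb n w / 5) j (tb.pt (eT v tb n w / 5) w')

theorem le_eT (n : ℕ) (w : Om W X β) : n ≤ eT v tb n w := by
  rcases eT_cases tb (v := v) n w with h1 | ⟨h1, h2⟩
  · exact h1.ge
  · rw [h2]
    omega

theorem ltL_mono {τ n : ℕ} (hn : τ ≤ n) (h5 : τ / 5 = n / 5) {w : Om W X β} (hl : ltL v tb τ w) : ltL v tb n w := by
  unfold ltL at hl ⊢
  rw [← h5]
  exact ⟨by omega, hl.2⟩

theorem eT_mono {τ n : ℕ} (hn : τ ≤ n) (w : Om W X β) : eT v tb τ w ≤ eT v tb n w := by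
  rcases eT_cases tb (v := v) τ w with h1 | ⟨h1, h2⟩
  · rw [h1]
    exact hn.trans (le_eT n w)
  · rcases Nat.lt_or_ge (τ / 5) (n / 5) with h3 | h3
    · rw [h2]
      exact le_trans (by omega) (le_eT n w)
    · have h5 : τ / 5 = n / 5 := by omega
      by_cases hl : ltL v tb τ w
      · have := ltL_mono hn h5 hl
        unfold eT
        rw [if_pos hl, if_pos this, h5]
      · have h6 : eT v tb τ w = τ := by
          unfold eT
          rw [if_neg hl]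
        rw [h6]
        exact hn.trans (le_eT n w)

/-- the public information of an earlier state -/
theorem Tb.NP {J : Finset (Fin 3)} {n : ℕ} {w w' : Om W X β} (h' : Tb v tb J n w w') {q : ℕ}
    (hq : q ≤ eT v tb n w) : NPo tb v q w = NPo tb v q w' := by
  show NPq D v q (tb.pt (eT v tb n w / 5) w) = NPq D v q (tb.pt (eT v tb n w / 5) w')
  exact NPq_mono hq _ _ (ZQ_NPq _ _ _ h'.z)

/-- the thin letters of an earlier state -/
theorem Tb.ZQ {J : Finset (Fin 3)} {n : ℕ} {w w' : Om W X β} (h' : Tb v tb J n w w') {q : ℕ}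
    (hq : q ≤ eT v tb n w) (s t : ℕ) : TP.ZQ D v q (tb.pt s w) = TP.ZQ D v q (tb.pt t w') :=
  ((ZQ_xy q w.1 w.2.2 _ _).trans (ZQ_mono hq _ _ h'.z)).trans (ZQ_xy q w'.1 w'.2.2 _ _)

/-- **the same tables at all earlier starts** -/
theorem Tb.mono {J : Finset (Fin 3)} {n : ℕ} (hn : n < 5 * T) {w w' : Om W X β} (hw : tb.Ps.p w ≠ 0)
    (hw' : tb.Ps.p w' ≠ 0) (h' : Tb v tb J n w w') {τ : ℕ} (hτ : τ ≤ n) : Tb v tb J τ w w' := by
  have hm := eT_mono (v := v) (tb := tb) hτ w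
  have hl : ltL v tb τ w ↔ ltL v tb τ w' := by
    unfold ltL
    refine and_congr_right fun h2 => ?_
    have h0 := le_eT (v := v) (tb := tb) n w
    have f : ∀ j, j = 1 ∨ j = 2 → tb.Ps.m (NPo tb v (5 * (τ / 5) + j)) w = tb.Ps.m (NPo tb v (5 * (τ / 5) + j)) w' :=
      fun j hj => tb.Ps.Fac_m _ _ _ (h'.NP (by omega))
    rw [f 1 (Or.inl rfl), f 2 (Or.inr rfl)]
  refine ⟨?_, h'.ZQ hm _ _, fun j hj => ?_⟩
  · unfold eT
    by_cases h1 : ltL v tb τ w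
    · rw [if_pos h1, if_pos (hl.1 h1)]
    · rw [if_neg h1, if_neg fun hh => h1 (hl.2 hh)]
  · exact FQ_back (Nat.div_le_div_right hm) (eT_T tb hn w) hw hw' (h'.f j hj)

theorem Tb.symm {J : Finset (Fin 3)} {n : ℕ} {w w' : Om W X β} (h' : Tb v tb J n w w') : Tb v tb J n w' w := by
  obtain ⟨h1, h2, h3⟩ := h'
  rw [h1] at h2 h3
  exact ⟨h1.symm, h2.symm, fun j hj => (h3 j hj).symm⟩

theorem Tb.sub {J J' : Finset (Fin 3)} (hJ : J' ⊆ J) {n : ℕ} {w w' : Om W X β} (h' : Tb v tb J n w w') :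
    Tb v tb J' n w w' := ⟨h'.e, h'.z, fun j hj => h'.f j (hJ hj)⟩

/-- the thin letter of a vertex at an earlier state -/
theorem Tb.XL {J : Finset (Fin 3)} {n : ℕ} {w w' : Om W X β} (h' : Tb v tb J n w w') (j : Fin 3) {q : ℕ}
    (hq : q ≤ eT v tb n w) : XLo tb v j q w = XLo tb v j q w' := by
  have h1 := h'.ZQ hq 0 0
  have h2 := congrFun (Prod.mk.inj h1).1 ⟨{j}, pth_sing j⟩
  have h3 : SL v q {j} (tb.pt 0 w) = SL v q {j} (tb.pt 0 w') := h2
  have h4 := congrFun (Prod.mk.inj (Prod.mk.inj h1).2).1 j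
  unfold SL at h3
  rw [LL_eq] at h3
  exact Prod.ext h4 h3.1

/-- the start of the life of a vertex is known by the tables -/
theorem Tb.tv (hCN : ∀ j n (a b : Om W X β), XLo tb v j n a = XLo tb v j n b →
    NPo tb v n a = NPo tb v n b → UV.tv M j n a = UV.tv M j n b) {J : Finset (Fin 3)} {n : ℕ} {w w' : Om W X β}
    (h' : Tb v tb J n w w') (j : Fin 3) {τ : ℕ} (hτ : τ ≤ n) : UV.tv M j τ w = UV.tv M j τ w' := by
  have h0 := hτ.trans (le_eT (v := v) (tb := tb) n w)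
  exact hCN j τ w w' (h'.XL j h0) (h'.NP h0)

/-! ### events `Q` and bits -/

variable (v tb) in
/-- the relation of an event `Q` of the tables and of three bits; `sees` : the tested top is seen -/
def RQ (cl : ℕ → Om W X β → ℕ) (i u1 u2 : Fin 3) (sees : Prop) (Q : ℕ → Om W X β → Prop) :
    RT X β γ φ Prop Prop Prop := fun n e _ z f1 f2 fi k0 k1 k2 =>
  (∃ w, tb.Ps.p w ≠ 0 ∧ cl n w = n ∧ eT v tb n w = e ∧ TP.ZQ D v e (tb.pt (e / 5) w) = z ∧
    FQ v (e / 5) u1 (tb.pt (e / 5) w) = f1 ∧ FQ v (e / 5) u2 (tb.pt (e / 5) w) = f2 ∧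
    (sees → FQ v (e / 5) i (tb.pt (e / 5) w) = fi) ∧ Q n w) ∧ k0 ∧ k1 ∧ k2

theorem RQ_iff {cl : ℕ → Om W X β → ℕ} {sees : Prop} {Q : ℕ → Om W X β → Prop} {n : ℕ}
    (hQ : ∀ w w', tb.Ps.p w ≠ 0 → tb.Ps.p w' ≠ 0 → cl n w = n → cl n w' = n → Tb v tb {u1, u2} n w w' →
      (sees → FQ v (eT v tb n w / 5) i (tb.pt (eT v tb n w / 5) w) =
        FQ v (eT v tb n w / 5) i (tb.pt (eT v tb n w / 5) w')) → Q n w → Q n w')
    (s : ℕ) {w : Om W X β} (hw : tb.Ps.p w ≠ 0) (hn : cl n w = n) (k0 k1 k2 : Prop) :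
    Q n w ∧ k0 ∧ k1 ∧ k2 ↔ RQ v tb cl i u1 u2 sees Q n (eT v tb n w) s
      (TP.ZQ D v (eT v tb n w) (tb.pt (eT v tb n w / 5) w))
      (FQ v (eT v tb n w / 5) u1 (tb.pt (eT v tb n w / 5) w)) (FQ v (eT v tb n w / 5) u2 (tb.pt (eT v tb n w / 5) w))
      (FQ v (eT v tb n w / 5) i (tb.pt (eT v tb n w / 5) w)) k0 k1 k2 := by
  unfold RQ
  refine and_congr_left fun _ => ⟨fun ha => ⟨w, hw, hn, rfl, rfl, rfl, rfl, fun _ => rfl, ha⟩, ?_⟩
  rintro ⟨w', h1, h2, h3, h4, h5, h6, h7, h8⟩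
  refine hQ w' w h1 hw h2 hn ⟨h3, ?_, fun j hj => ?_⟩ (fun hs => ?_) h8
  · rw [h3]
    exact h4
  · rw [h3]
    rcases Finset.mem_insert.1 hj with rfl | hj
    · exact h5
    · rw [Finset.mem_singleton.1 hj]
      exact h6
  · rw [h3]
    exact h7 hs

/-- larger numbers of values -/
def Evt.mono {A : ℕ → Om W X β → ℕ → Om W X β → Prop} {C0 C1 C2 : Type} {m0 m1 m2 m0' m1' m2' : ℝ}
    (E : Evt v tb M i u1 u2 A C0 C1 C2 m0 m1 m2) (h0 : m0 ≤ m0') (h1 : m1 ≤ m1') (h2 : m2 ≤ m2') :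
    Evt v tb M i u1 u2 A C0 C1 C2 m0' m1' m2' where
  b0 := E.b0
  b1 := E.b1
  b2 := E.b2
  Th := E.Th
  f0 := E.f0
  f1 := E.f1
  f2 := E.f2
  ft := E.ft
  ts := E.ts
  An := E.An
  Aw := E.Aw
  iA := E.iA
  k0 := fun n hn a w hf => by
    obtain ⟨S, hS, hS'⟩ := E.k0 n hn a w hf
    exact ⟨S, hS.trans h0, hS'⟩
  k1 := fun n hn a w hf x0 => by
    obtain ⟨S, hS, hS'⟩ := E.k1 n hn a w hf x0
    exact ⟨S, hS.trans h1, hS'⟩
  k2 := fun n hn a w hf x0 => by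
    obtain ⟨S, hS, hS'⟩ := E.k2 n hn a w hf x0
    exact ⟨S, hS.trans h2, hS'⟩

section con

variable {dg : ℕ → X → ℝ} {Lam : ℝ} {N : Finset (Fin 3) → ℝ} {SS : Finset (Finset (Fin 3))}

/-- what is asked of an event `A` = relation `Q` of the tables and bits `c0` (exact `i`), `c1` (exact `i`, `u1`), `c2` (exact
`i`, `u2`); `sees` : `Q` may see the tested top -/
structure Rd (h : D.Thick al) (v : ℕ → Finset (Fin 3) → X → (Fin 3 → β) → Pt (Fin 3) X β φ) (tb : Tab D prr T W)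
    (M : US (Om W X β)) (i u1 u2 : Fin 3) (sees : Prop) (X0 : ℝ) (A : ℕ → Om W X β → ℕ → Om W X β → Prop)
    (Q : ℕ → Om W X β → Prop) (c0 c1 c2 : ℕ → ℕ → Om W X β → Prop) : Prop where
  hc0 : ∀ n s, n ≤ s → Fac (si D {i} univ {u1, u2} (TP.nn s)) (c0 n s)
  hc1 : ∀ n s, n ≤ s → Fac (si D {i, u1} univ {u2} (TP.nn s)) (c1 n s)
  hc2 : ∀ n s, n ≤ s → Fac (si D {i, u2} univ {u1} (TP.nn s)) (c2 n s)
  hAn : ∀ n z s w, A n z s w → n ≤ s
  hAw : ∀ n z z', sgt D ∅ (TP.nn n) z = sgt D ∅ (TP.nn n) z' → A n z = A n z'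
  hA : ∀ n < 5 * T, ∀ s w, n ≤ s → tb.Ps.p w ≠ 0 → nu M.toMS n w = n →
    (A n w s w ↔ Q n w ∧ c0 n s w ∧ c1 n s w ∧ c2 n s w)
  hQ : ∀ n < 5 * T, ∀ w w', tb.Ps.p w ≠ 0 → tb.Ps.p w' ≠ 0 → nu M.toMS n w = n → nu M.toMS n w' = n →
    Tb v tb {u1, u2} n w w' → (sees → FQ v (eT v tb n w / 5) i (tb.pt (eT v tb n w / 5) w) =
      FQ v (eT v tb n w / 5) i (tb.pt (eT v tb n w / 5) w')) → Q n w → Q n w'
  hX : ∀ n < 5 * T, ∀ w, tb.Ps.p w ≠ 0 → nu M.toMS n w = n → Q n w →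
    ssQ h v (eT v tb n w) i (tb.pt (eT v tb n w / 5) w) ≤ X0

/-- what is asked of the run -/
structure Rn (h : D.Thick al) (v : ℕ → Finset (Fin 3) → X → (Fin 3 → β) → Pt (Fin 3) X β φ) (tb : Tab D prr T W)
    (M : US (Om W X β)) (N : Finset (Fin 3) → ℝ) (SS : Finset (Finset (Fin 3))) (dg : ℕ → X → ℝ) (Lam : ℝ) : Prop where
  H : D.Hyp dg prr al T Lam
  R : Run h N SS (AdmDep D) v
  hS : ∀ l, univ.erase l ∈ SS
  hu : univ ∉ SS
  hN : ∀ l, 0 < N (univ.erase l)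
  hv : Codes D v
  hnu : ∀ n (a b : Om W X β), sgt D ∅ (TP.nn n) a = sgt D ∅ (TP.nn n) b → nu M.toMS n a = nu M.toMS n b

theorem two_val (x : ℝ) : x * Fintype.card Prop ≤ 2 * x := by
  rw [Fintype.card_prop]
  push_cast
  exact le_of_eq (mul_comm _ _)

/-- **THE EVENT PART** for a relation of the tables and bits; it may see the tested top -/
def evtQ (r : Rn h v tb M N SS dg Lam) (h1 : u1 ≠ i) (h2 : u2 ≠ i) (h12 : u1 ≠ u2) {X0 : ℝ} {sees : Prop}
    {A : ℕ → Om W X β → ℕ → Om W X β → Prop} {Q : ℕ → Om W X β → Prop} {c0 c1 c2 : ℕ → ℕ → Om W X β → Prop}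
    (d : Rd h v tb M i u1 u2 sees X0 A Q c0 c1 c2) :
    Evt v tb M i u1 u2 A ((β × Lt X β φ) × Prop) (Lt X β φ × Prop) (Lt X β φ × Prop) (2 * Real.exp X0) (2 * (1 / al))
      (2 * (1 / al)) :=
  (evt r.H r.R r.hS r.hu r.hN r.hv r.hnu h1 h2 h12 X0 (RQ v tb (nu M.toMS) i u1 u2 sees Q) (fun _ _ _ _ => rfl) c0 c1 c2 d.hc0 d.hc1 d.hc2
    d.hAn d.hAw (fun n hn s w hs hw hnn => (d.hA n hn s w hs hw hnn).trans
      (RQ_iff (fun w w' => d.hQ n hn w w') s hw hnn _ _ _))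
    (fun n hn s w hs hw hnn ha => d.hX n hn w hw hnn ((d.hA n hn s w hs hw hnn).1 ha).1)).mono
    (two_val _) (two_val _) (two_val _)

/-- **PUBLIC COVER BY OWN ROWS, SIGNED** : a test normalised in the tested top, a relation which does not see it -/
def ownQ (r : Rn h v tb M N SS dg Lam) (h1 : u1 ≠ i) (h2 : u2 ≠ i) (h12 : u1 ≠ u2) {X0 : ℝ}
    {A : ℕ → Om W X β → ℕ → Om W X β → Prop} {Q : ℕ → Om W X β → Prop} {c0 c1 c2 : ℕ → ℕ → Om W X β → Prop}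
    (d : Rd h v tb M i u1 u2 False X0 A Q c0 c1 c2)
    {φ' : Type} (fr : Fin 3 → Lt X β φ → φ') (Gf : ℕ → ℕ → Zt X β γ φ → (Fin 3 → φ') → ℝ) {g : ℕ → Om W X β → ℝ}
    (hg : ∀ n < 5 * T, ∀ w, tb.Ps.p w ≠ 0 → nu M.toMS n w = n →
      g n w = Gf n (eT v tb n w) (TP.ZQ D v (eT v tb n w) (tb.pt (eT v tb n w / 5) w))
        (fun j => fr j (FQ v (eT v tb n w / 5) j (tb.pt (eT v tb n w / 5) w))))
    (hone : ∀ n < 5 * T, ∀ w, tb.Ps.p w ≠ 0 → nu M.toMS n w = n → ∀ f : Fin 3 → φ',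
      (D.P h (eT v tb n w / 5)).ce (ZbQ D v (eT v tb n w) i) (fun u' => Real.exp
        (Gf n (eT v tb n w) (TP.ZQ D v (eT v tb n w) (tb.pt (eT v tb n w / 5) w))
          (Function.update f i (fr i (FQ v (eT v tb n w / 5) i u'))))) (tb.pt (eT v tb n w / 5) w) ≤ 1)
    {eps : ℝ} (heps : 0 ≤ eps) (Nn : ℕ) :
    Own h v tb M i u1 u2 A g ((β × Lt X β φ) × Prop) (Lt X β φ × Prop) (Lt X β φ × Prop) (2 * Real.exp X0)
      (2 * (1 / al)) (2 * (1 / al)) eps Nn :=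
  let O := ownS r.H r.R r.hS r.hu r.hN r.hv r.hnu h1 h2 h12 X0 (RQ v tb (nu M.toMS) i u1 u2 False Q)
    (fun _ _ _ _ => rfl)
    (fun _ _ _ _ _ _ _ _ _ _ _ hh => ⟨by
      obtain ⟨⟨w, a1, a2, a3, a4, a5, a6, _, a8⟩, _⟩ := hh
      exact ⟨w, a1, a2, a3, a4, a5, a6, fun hf => hf.elim, a8⟩, hh.2⟩) c0 c1 c2 d.hc0 d.hc1 d.hc2
    d.hAn d.hAw (fun n hn s w hs hw hnn => (d.hA n hn s w hs hw hnn).trans
      (RQ_iff (fun w w' => d.hQ n hn w w') s hw hnn _ _ _))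
    (fun n hn s w hs hw hnn ha => d.hX n hn w hw hnn ((d.hA n hn s w hs hw hnn).1 ha).1) fr Gf hg hone heps Nn
  (evtQ r h1 h2 h12 d).own eps Nn O.Ga O.fg O.gs O.ig O.hone

end con

end

end Pool.Agent.GMH.PayPI
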