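import Pool.Agent.GMH.PayP1
import Pool.Agent.GMH.UVZ

/-!
# GMH/UV0P (helper85): FROM THE PAYMENT OF ONE PUBLIC COVER TO THE COVERED MASSES OF A KIND (`mcR`, `mcG`, `mcU`, `mcZ`)

One cover = `cvz b c d A g lam P x` (rows of `b`, face `(c, d)`); `PZ zz b c d A g lam` = the sum over the public starts of its
covered mass, in the mean over the samples, sections `A n z` in the world of `z`, test `g n` (what GMH/PayP pays).
The covers of `R0` and `G_X` are nested: the sections of the next cover are `A0 n s w ∧ (memberships in the earlier covers)`.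
* `inz θ` : membership in a cover with the samples of the coin table `θ`; `inz_V`, `inz_z`, `inz_si` : what sees it;
* `mcR_le`, `mcG_le` : `SW (mcR)`, `SW (mcG)` by the payments of the single covers for every coin table of the earlier samples;
* `mcU_le`, `mcZ_le` : the single covers.
-/

set_option autoImplicit false
set_option linter.unusedSectionVars false

namespace Pool.Agent.GMH.UV0P

open Finset Pool.Agent.PWZ Pool.Agent.M3 Pool.Agent.GM Pool.Agent.GM.Harm Pool.Agent.GMH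
open Pool.Agent.GMH.Gdy Pool.Agent.GMH.Dy Pool.Agent.GMH.TabF Pool.Agent.GMH.Blk Pool.Agent.GMH.GhoZ3
open Pool.Agent.GMH.TabZ (V3 TR Nm Sml Sp SR SG SyR mcR mcG mcU covR covG cuF)
open Pool.Agent.GMH.MV Pool.Agent.GMH.CK
open Pool.Agent.GMH.UV (US Kd Seen tv)
open Pool.Agent.GMH.UV0 (SW)
open Pool.Agent.GMH.PayP (Ct cL smp smp_sgt coin_avg Ixc)

noncomputable section

variable {X β γ φ : Type} [Fintype X] [Fintype β] [Fintype φ] [Nonempty X] [Nonempty β]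
variable {D : HD (Fin 3) X β γ φ} {al : ℝ} {prr : ℕ → Fin 3 → φ → φ} {T0 : ℕ} {W : Type} [Fintype W]

variable (D) in
/-- one cover of the face `(c, d)` by rows of `b` -/
def cvz (w0 : Om W X β) (tm : ℕ → ℕ) (k : Nm) (b c d : Fin 3) (A : ℕ → Om W X β → Prop) (g : Om W X β → ℝ) (lam : ℝ)
    (P : FP (Om W X β)) (x : Sml (Om W X β) k) : ℕ → Om W X β → Prop :=
  cv P (TabF.pj w0 {b} {c, d}) (TabF.pj w0 {c, d} {b}) (fun s => si D ∅ {c, d} ∅ (tm s)) A (TabF.ts {b} {c, d} g)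
    k.kap lam k.K x

/-- **the payment of one cover** : sum over the public starts of the covered mass, in the mean over the samples -/
def PZ (tb : Tab D prr T0 W) (M : US (Om W X β)) (w0 : Om W X β) (tm : ℕ → ℕ) (T : ℕ) (k : Nm)
    (zz : ℕ → ℕ → Om W X β → Prop) (b c d : Fin 3) (A : ℕ → Om W X β → ℕ → Om W X β → Prop) (g : ℕ → Om W X β → ℝ)
    (lam : ℝ) : ℝ :=
  ∑ n ∈ range T, M.P.E (fun z => ind (nu M.toMS n z = n) * (Sp (WE tb ∅ (tm n) z) w0 {b} {c, d} k).E (fun x =>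
    cz (WE tb ∅ (tm n) z) (zz n) (cvz D w0 tm k b c d (A n z) (g n) lam (WE tb ∅ (tm n) z) x)))

variable {tb : Tab D prr T0 W} {M : US (Om W X β)} {w0 : Om W X β} {tm : ℕ → ℕ} {T : ℕ} {k : Nm}
  {zz : ℕ → ℕ → Om W X β → Prop} {b c d : Fin 3} {A A' : ℕ → Om W X β → ℕ → Om W X β → Prop} {g : ℕ → Om W X β → ℝ}
  {lam B : ℝ}

/-- the sum over the public starts -/
def S0 (M : US (Om W X β)) (T : ℕ) (f : ℕ → Om W X β → ℝ) : ℝ :=
  ∑ n ∈ range T, M.P.E (fun z => ind (nu M.toMS n z = n) * f n z)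

theorem S0_add (f g : ℕ → Om W X β → ℝ) : S0 M T (fun n z => f n z + g n z) = S0 M T f + S0 M T g := by
  unfold S0
  rw [← Finset.sum_add_distrib]
  refine Finset.sum_congr rfl fun n _ => ?_
  rw [← FP.E_add]
  exact M.P.E_congr fun z _ => mul_add _ _ _

theorem S0_smul (a : ℝ) (f : ℕ → Om W X β → ℝ) : S0 M T (fun n z => a * f n z) = a * S0 M T f := by
  unfold S0
  rw [Finset.mul_sum]
  refine Finset.sum_congr rfl fun n _ => ?_
  rw [← FP.E_smul]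
  refine M.P.E_congr fun z _ => ?_
  ring

theorem S0_E {I : ℕ → Om W X β → Type} [∀ n z, Fintype (I n z)] (q : ∀ n z, FP (I n z)) (F G : ∀ n z, I n z → ℝ) (a : ℝ) :
    S0 M T (fun n z => (q n z).E (fun x => F n z x + a * G n z x)) =
      S0 M T (fun n z => (q n z).E (F n z)) + a * S0 M T (fun n z => (q n z).E (G n z)) := by
  rw [← S0_smul, ← S0_add]
  unfold S0
  refine Finset.sum_congr rfl fun n _ => M.P.E_congr fun z _ => ?_
  show ind _ * (q n z).E (fun x => F n z x + a * G n z x) = ind _ * ((q n z).E (F n z) + a * (q n z).E (G n z))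
  rw [FP.E_add, FP.E_smul]

/-- **one sample fixed as a coin table** -/
theorem coin_le (w0 : Om W X β) (i u1 u2 : Fin 3) (f : ℕ → Om W X β → Sml (Om W X β) k → ℝ)
    (h : ∀ θ : Ct W X β T k.M, (cL tb w0 i {u1, u2} tm T k.M).p θ ≠ 0 →
      S0 M T (fun n z => f n z (smp D w0 i {u1, u2} tm θ n z)) ≤ B) :
    S0 M T (fun n z => (Sp (WE tb ∅ (tm n) z) w0 {i} {u1, u2} k).E (f n z)) ≤ B := by
  have e := coin_avg tb w0 i {u1, u2} tm T k M.P (fun n z => ind (nu M.toMS n z = n)) f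
  have e' : S0 M T (fun n z => (Sp (WE tb ∅ (tm n) z) w0 {i} {u1, u2} k).E (f n z)) =
      (cL tb w0 i {u1, u2} tm T k.M).E (fun θ => S0 M T (fun n z => f n z (smp D w0 i {u1, u2} tm θ n z))) := e
  rw [e', ← (cL tb w0 i {u1, u2} tm T k.M).E_const B]
  exact FP.E_mono _ fun θ hθ => h θ hθ

/-! ### what sees the membership in a cover with fixed samples -/

/-- the covers see their own face only -/
theorem cvz_V (A : ℕ → Om W X β → Prop) (g : Om W X β → ℝ) (P : FP (Om W X β)) (x : Sml (Om W X β) k) (s : ℕ)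
    {v w : Om W X β} (e : TabF.pj w0 {c, d} {b} v = TabF.pj w0 {c, d} {b} w) :
    cvz D w0 tm k b c d A g lam P x s v ↔ cvz D w0 tm k b c d A g lam P x s w := by
  refine GdyR.covL_facV (V := TabF.pj w0 {c, d} {b}) (fun t a a' e => ?_) (fun s a v w e => Pool.Agent.GMH.GhoZ.sec_fac s a v w e) s v w e
  rw [pj_eq] at e
  rw [si_eq]
  exact ⟨e.1, fun i hi => absurd hi (notMem_empty i), fun j hj => absurd hj (notMem_empty j),
    fun j hj => by rw [e.2.2 j hj]⟩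

variable (tb w0 tm T k b c d A g lam) in
/-- membership in the cover with the samples of the coin table `θ` -/
def inz (θ : Ct W X β T k.M) (n : ℕ) (z : Om W X β) : ℕ → Om W X β → Prop :=
  cvz D w0 tm k b c d (A n z) (g n) lam (WE tb ∅ (tm n) z) (smp D w0 b {c, d} tm θ n z)

theorem inz_V (θ : Ct W X β T k.M) (n : ℕ) (z : Om W X β) (s : ℕ) {v w : Om W X β}
    (e : TabF.pj w0 {c, d} {b} v = TabF.pj w0 {c, d} {b} w) :
    inz tb w0 tm T k b c d A g lam θ n z s v ↔ inz tb w0 tm T k b c d A g lam θ n z s w := cvz_V _ _ _ _ s e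

theorem WE_congr {E : Finset (Fin 3)} {m : ℕ} {z z' : Om W X β} (e : sgt D E m z = sgt D E m z') :
    WE tb E m z = WE tb E m z' := by
  unfold WE
  rw [e]

theorem inz_z (θ : Ct W X β T k.M) (n : ℕ) {z z' : Om W X β} (hA : A n z = A n z')
    (e : sgt D ∅ (tm n) z = sgt D ∅ (tm n) z') :
    inz tb w0 tm T k b c d A g lam θ n z = inz tb w0 tm T k b c d A g lam θ n z' := by
  unfold inz
  rw [WE_congr e, smp_sgt w0 b {c, d} tm θ n e, hA]

theorem mono_of (ht : ∀ s, tm s ≤ tm (s + 1)) {s s' : ℕ} (h : s ≤ s') : tm s ≤ tm s' := by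
  induction h with
  | refl => exact le_rfl
  | step _ ih => exact ih.trans (ht _)

/-- **the membership is seen by the exact face and the cells of the time `s`** -/
theorem inz_si (ht : ∀ s, tm s ≤ tm (s + 1)) (θ : Ct W X β T k.M) {n s : ℕ} (hs : n ≤ s)
    (hA : ∀ z z', sgt D ∅ (tm n) z = sgt D ∅ (tm n) z' → A n z = A n z') {E S : Finset (Fin 3)}
    (hE : {c, d} ⊆ E) (hS : {b} ⊆ S) :
    Fac (si D E univ S (tm s)) (fun w => inz tb w0 tm T k b c d A g lam θ n w s w) := by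
  intro v w e
  have e1 := e
  rw [si_eq] at e1
  have e2 : sgt D ∅ (tm n) v = sgt D ∅ (tm n) w := by
    rw [sgt_eq]
    exact ⟨e1.1, fun j hj => absurd hj (notMem_empty j),
      fun j => Dy.qb_mono (mono_of ht hs) (e1.2.2.2 j (mem_univ j))⟩
  have e3 : TabF.pj w0 {c, d} {b} v = TabF.pj w0 {c, d} {b} w := fac_si_pj w0 hE hS (tm s) v w e
  show inz tb w0 tm T k b c d A g lam θ n v s v = inz tb w0 tm T k b c d A g lam θ n w s w
  rw [inz_z θ n (hA v w e2) e2]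
  exact propext (inz_V θ n w s e3)

/-! ### the single covers -/

variable (A') in
/-- sections in the world of `z` : a public event and memberships -/
theorem PZ_eq : PZ tb M w0 tm T k zz b c d A' g lam = S0 M T (fun n z => (Sp (WE tb ∅ (tm n) z) w0 {b} {c, d} k).E
    (fun x => cz (WE tb ∅ (tm n) z) (zz n) (cvz D w0 tm k b c d (A' n z) (g n) lam (WE tb ∅ (tm n) z) x))) := rfl

theorem mcU_eq (A0 : ℕ → ℕ → Om W X β → Prop) :
    SW M tb tm T (fun n P => mcU P (zz n) D tm (A0 n) w0 b c d k) =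
      PZ tb M w0 tm T k zz b c d (fun n _ => A0 n) (fun _ _ => 1) 1 := rfl

theorem mcZ_eq {Q : Kd (Om W X β)} {R : ℕ → Om W X β → Prop} :
    SW M tb tm T (fun n P => UVZ.mcZ P M Q T n D tm w0 b c d R g k) =
      PZ tb M w0 tm T k (fun n => UVZ.zze M T n) b c d (fun n _ => UVZ.Ab M Q T n R b) g k.lam := rfl

/-! ### the nested covers -/

variable {t : ℕ → TR (Om W X β)} {BZ BY BX BY' BX' : ℝ}

theorem pr5 {A1 A2 A3 A4 A5 : Type*} [Fintype A1] [Fintype A2] [Fintype A3] [Fintype A4] [Fintype A5] (P1 : FP A1)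
    (P2 : FP A2) (P3 : FP A3) (P4 : FP A4) (P5 : FP A5) (F1 : A1 → A2 → A3 → ℝ) (F2 : A1 → A2 → ℝ) (F3 : A1 → A4 → ℝ)
    (F4 : A1 → A5 → ℝ) (F5 : A1 → ℝ) :
    (FP.pr P1 (FP.pr P2 (FP.pr P3 (FP.pr P4 P5)))).E (fun x => F1 x.1 x.2.1 x.2.2.1 + F2 x.1 x.2.1 + F3 x.1 x.2.2.2.1 +
      F4 x.1 x.2.2.2.2 + 2 * F5 x.1) = P1.E (fun x => P2.E (fun y => P3.E (F1 x y)) + P2.E (F2 x) + P4.E (F3 x) +
        P5.E (F4 x) + 2 * F5 x) := by
  simp only [FP.pr_E, FP.E_add, FP.E_smul, FP.E_const]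

theorem pr3 {A1 A2 A3 : Type*} [Fintype A1] [Fintype A2] [Fintype A3] (P1 : FP A1) (P2 : FP A2) (P3 : FP A3)
    (F1 : A3 → ℝ) (F2 : A1 → A2 → ℝ) (F3 : A1 → ℝ) :
    (FP.pr P1 (FP.pr P2 P3)).E (fun x => 2 * F1 x.2.2 + F2 x.1 x.2.1 + F3 x.1) =
      2 * P3.E F1 + P1.E (fun x => P2.E (F2 x) + F3 x) := by
  simp only [FP.pr_E, FP.E_add, FP.E_smul, FP.E_const]
  ring

variable (tb w0 tm T k b c d t) in
/-- `A0` and not in the cover of `(c, d)` -/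
def E1t (A0 : ℕ → ℕ → Om W X β → Prop) (θ : Ct W X β T k.M) (n : ℕ) (z : Om W X β) (s : ℕ) (w : Om W X β) : Prop :=
  A0 n s w ∧ ¬ inz tb w0 tm T k b c d (fun n _ => A0 n) (fun n => (t n).pZ) k.lam θ n z s w

variable (tb w0 tm T k b c d t) in
/-- `A0` and in the cover of `(c, d)` -/
def A1t (A0 : ℕ → ℕ → Om W X β → Prop) (θ : Ct W X β T k.M) (n : ℕ) (z : Om W X β) (s : ℕ) (w : Om W X β) : Prop :=
  A0 n s w ∧ inz tb w0 tm T k b c d (fun n _ => A0 n) (fun n => (t n).pZ) k.lam θ n z s w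

variable (tb w0 tm T k b c d t) in
/-- `A0`, not in the cover of `(c, d)`, in the cover of `(b, d)` -/
def G1t (A0 : ℕ → ℕ → Om W X β → Prop) (θ θ' : Ct W X β T k.M) (n : ℕ) (z : Om W X β) (s : ℕ) (w : Om W X β) : Prop :=
  E1t tb w0 tm T k b c d t A0 θ n z s w ∧
    inz tb w0 tm T k c b d (E1t tb w0 tm T k b c d t A0 θ) (fun n => (t n).Yb) k.lam θ' n z s w

/-! ### the memberships at the true point -/

variable {A0 : ℕ → ℕ → Om W X β → Prop} {θ θ' : Ct W X β T k.M} {n s : ℕ}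

variable (tb w0 tm T k b c d t A0) in
/-- in the cover of `(c, d)` -/
def mZ (θ : Ct W X β T k.M) (n s : ℕ) (w : Om W X β) : Prop :=
  inz tb w0 tm T k b c d (fun n _ => A0 n) (fun n => (t n).pZ) k.lam θ n w s w

variable (tb w0 tm T k b c d t A0) in
/-- in the cover of `(b, d)` -/
def mY (θ θ' : Ct W X β T k.M) (n s : ℕ) (w : Om W X β) : Prop :=
  inz tb w0 tm T k c b d (E1t tb w0 tm T k b c d t A0 θ) (fun n => (t n).Yb) k.lam θ' n w s w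

theorem E1t_z {z z' : Om W X β} (e : sgt D ∅ (tm n) z = sgt D ∅ (tm n) z') :
    E1t tb w0 tm T k b c d t A0 θ n z = E1t tb w0 tm T k b c d t A0 θ n z' := by
  unfold E1t
  rw [inz_z (A := fun n _ => A0 n) θ n rfl e]

theorem A1t_z {z z' : Om W X β} (e : sgt D ∅ (tm n) z = sgt D ∅ (tm n) z') :
    A1t tb w0 tm T k b c d t A0 θ n z = A1t tb w0 tm T k b c d t A0 θ n z' := by
  unfold A1t
  rw [inz_z (A := fun n _ => A0 n) θ n rfl e]

theorem G1t_z {z z' : Om W X β} (e : sgt D ∅ (tm n) z = sgt D ∅ (tm n) z') :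
    G1t tb w0 tm T k b c d t A0 θ θ' n z = G1t tb w0 tm T k b c d t A0 θ θ' n z' := by
  unfold G1t
  rw [E1t_z e, inz_z θ' n (E1t_z e) e]

theorem E1t_iff (s : ℕ) (w : Om W X β) : E1t tb w0 tm T k b c d t A0 θ n w s w ↔
    A0 n s w ∧ ¬ mZ tb w0 tm T k b c d t A0 θ n s w := Iff.rfl

theorem A1t_iff (s : ℕ) (w : Om W X β) : A1t tb w0 tm T k b c d t A0 θ n w s w ↔
    A0 n s w ∧ mZ tb w0 tm T k b c d t A0 θ n s w := Iff.rfl

theorem G1t_iff (s : ℕ) (w : Om W X β) : G1t tb w0 tm T k b c d t A0 θ θ' n w s w ↔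
    (A0 n s w ∧ ¬ mZ tb w0 tm T k b c d t A0 θ n s w) ∧ mY tb w0 tm T k b c d t A0 θ θ' n s w := Iff.rfl

/-- the membership in the cover of `(c, d)` is seen by the exact `(c, d)`, its table `b` and the cells -/
theorem mZ_si (ht : ∀ s, tm s ≤ tm (s + 1)) (hs : n ≤ s) {E S : Finset (Fin 3)} (hE : {c, d} ⊆ E) (hS : {b} ⊆ S) :
    Fac (si D E univ S (tm s)) (mZ tb w0 tm T k b c d t A0 θ n s) :=
  inz_si (A := fun n _ => A0 n) ht θ hs (fun _ _ _ => rfl) hE hS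

/-- the membership in the cover of `(b, d)` is seen by the exact `(b, d)`, its table `c` and the cells -/
theorem mY_si (ht : ∀ s, tm s ≤ tm (s + 1)) (hs : n ≤ s) {E S : Finset (Fin 3)} (hE : {b, d} ⊆ E) (hS : {c} ⊆ S) :
    Fac (si D E univ S (tm s)) (mY tb w0 tm T k b c d t A0 θ θ' n s) :=
  inz_si (b := c) (c := b) (A := E1t tb w0 tm T k b c d t A0 θ) (g := fun n => (t n).Yb) ht θ' hs
    (fun _ _ e => E1t_z e) hE hS

/-! ### the kinds -/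

/-- **KIND `R0`** : the covered masses by the payments of the single covers -/
theorem mcR_le (A0 : ℕ → ℕ → Om W X β → Prop)
    (hZ : PZ tb M w0 tm T k zz b c d (fun n _ => A0 n) (fun n => (t n).pZ) k.lam ≤ BZ)
    (hY : ∀ θ, (cL tb w0 b {c, d} tm T k.M).p θ ≠ 0 →
      PZ tb M w0 tm T k zz c b d (E1t tb w0 tm T k b c d t A0 θ) (fun n => (t n).Yb) k.lam ≤ BY)
    (hX : ∀ θ, (cL tb w0 b {c, d} tm T k.M).p θ ≠ 0 → ∀ θ', (cL tb w0 c {b, d} tm T k.M).p θ' ≠ 0 →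
      PZ tb M w0 tm T k zz d b c (G1t tb w0 tm T k b c d t A0 θ θ') (fun n => (t n).Xb) k.lam ≤ BX)
    (hY' : ∀ θ, (cL tb w0 b {c, d} tm T k.M).p θ ≠ 0 →
      PZ tb M w0 tm T k zz c b d (A1t tb w0 tm T k b c d t A0 θ) (fun n => (t n).pY) k.lam ≤ BY')
    (hX' : ∀ θ, (cL tb w0 b {c, d} tm T k.M).p θ ≠ 0 →
      PZ tb M w0 tm T k zz d b c (A1t tb w0 tm T k b c d t A0 θ) (fun n => (t n).Xc) k.lam ≤ BX') :
    SW M tb tm T (fun n P => mcR P (zz n) D tm (A0 n) w0 b c d (t n) k) ≤ BX + BY + BY' + BX' + 2 * BZ := by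
  have e : ∀ (n : ℕ) (z : Om W X β), mcR (WE tb ∅ (tm n) z) (zz n) D tm (A0 n) w0 b c d (t n) k =
      (Sp (WE tb ∅ (tm n) z) w0 {b} {c, d} k).E (fun b1 =>
        (Sp (WE tb ∅ (tm n) z) w0 {c} {b, d} k).E (fun c1 => (Sp (WE tb ∅ (tm n) z) w0 {d} {b, c} k).E (fun d1 =>
          cz (WE tb ∅ (tm n) z) (zz n) ((SyR D tm (A0 n) w0 b c d (t n) k b1 c1 c1 d1 d1).AX1 (WE tb ∅ (tm n) z)))) +
        (Sp (WE tb ∅ (tm n) z) w0 {c} {b, d} k).E (fun c1 =>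
          cz (WE tb ∅ (tm n) z) (zz n) ((SyR D tm (A0 n) w0 b c d (t n) k b1 c1 c1 c1 c1).AY1 (WE tb ∅ (tm n) z))) +
        (Sp (WE tb ∅ (tm n) z) w0 {c} {b, d} k).E (fun c2 =>
          cz (WE tb ∅ (tm n) z) (zz n) ((SyR D tm (A0 n) w0 b c d (t n) k b1 c2 c2 c2 c2).AY2 (WE tb ∅ (tm n) z))) +
        (Sp (WE tb ∅ (tm n) z) w0 {d} {b, c} k).E (fun d2 =>
          cz (WE tb ∅ (tm n) z) (zz n) ((SyR D tm (A0 n) w0 b c d (t n) k b1 d2 d2 d2 d2).AX2 (WE tb ∅ (tm n) z))) +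
        2 * cz (WE tb ∅ (tm n) z) (zz n) ((SyR D tm (A0 n) w0 b c d (t n) k b1 b1 b1 b1 b1).AZ (WE tb ∅ (tm n) z))) := by
    intro n z
    exact pr5 (Sp (WE tb ∅ (tm n) z) w0 {b} {c, d} k) (Sp (WE tb ∅ (tm n) z) w0 {c} {b, d} k)
      (Sp (WE tb ∅ (tm n) z) w0 {d} {b, c} k) (Sp (WE tb ∅ (tm n) z) w0 {c} {b, d} k)
      (Sp (WE tb ∅ (tm n) z) w0 {d} {b, c} k)
      (fun b1 c1 d1 => cz (WE tb ∅ (tm n) z) (zz n)
        ((SyR D tm (A0 n) w0 b c d (t n) k b1 c1 c1 d1 d1).AX1 (WE tb ∅ (tm n) z)))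
      (fun b1 c1 => cz (WE tb ∅ (tm n) z) (zz n)
        ((SyR D tm (A0 n) w0 b c d (t n) k b1 c1 c1 c1 c1).AY1 (WE tb ∅ (tm n) z)))
      (fun b1 c2 => cz (WE tb ∅ (tm n) z) (zz n)
        ((SyR D tm (A0 n) w0 b c d (t n) k b1 c2 c2 c2 c2).AY2 (WE tb ∅ (tm n) z)))
      (fun b1 d2 => cz (WE tb ∅ (tm n) z) (zz n)
        ((SyR D tm (A0 n) w0 b c d (t n) k b1 d2 d2 d2 d2).AX2 (WE tb ∅ (tm n) z)))
      (fun b1 => cz (WE tb ∅ (tm n) z) (zz n)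
        ((SyR D tm (A0 n) w0 b c d (t n) k b1 b1 b1 b1 b1).AZ (WE tb ∅ (tm n) z)))
  have e2 : SW M tb tm T (fun n P => mcR P (zz n) D tm (A0 n) w0 b c d (t n) k) =
      S0 M T (fun n z => mcR (WE tb ∅ (tm n) z) (zz n) D tm (A0 n) w0 b c d (t n) k) := rfl
  rw [e2]
  simp only [e]
  have e3 : S0 M T (fun n z => (Sp (WE tb ∅ (tm n) z) w0 {b} {c, d} k).E (fun b1 =>
        (Sp (WE tb ∅ (tm n) z) w0 {c} {b, d} k).E (fun c1 => (Sp (WE tb ∅ (tm n) z) w0 {d} {b, c} k).E (fun d1 =>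
          cz (WE tb ∅ (tm n) z) (zz n) ((SyR D tm (A0 n) w0 b c d (t n) k b1 c1 c1 d1 d1).AX1 (WE tb ∅ (tm n) z)))) +
        (Sp (WE tb ∅ (tm n) z) w0 {c} {b, d} k).E (fun c1 =>
          cz (WE tb ∅ (tm n) z) (zz n) ((SyR D tm (A0 n) w0 b c d (t n) k b1 c1 c1 c1 c1).AY1 (WE tb ∅ (tm n) z))) +
        (Sp (WE tb ∅ (tm n) z) w0 {c} {b, d} k).E (fun c2 =>
          cz (WE tb ∅ (tm n) z) (zz n) ((SyR D tm (A0 n) w0 b c d (t n) k b1 c2 c2 c2 c2).AY2 (WE tb ∅ (tm n) z))) +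
        (Sp (WE tb ∅ (tm n) z) w0 {d} {b, c} k).E (fun d2 =>
          cz (WE tb ∅ (tm n) z) (zz n) ((SyR D tm (A0 n) w0 b c d (t n) k b1 d2 d2 d2 d2).AX2 (WE tb ∅ (tm n) z))) +
        2 * cz (WE tb ∅ (tm n) z) (zz n) ((SyR D tm (A0 n) w0 b c d (t n) k b1 b1 b1 b1 b1).AZ (WE tb ∅ (tm n) z)))) =
      S0 M T (fun n z => (Sp (WE tb ∅ (tm n) z) w0 {b} {c, d} k).E (fun b1 =>
        (Sp (WE tb ∅ (tm n) z) w0 {c} {b, d} k).E (fun c1 => (Sp (WE tb ∅ (tm n) z) w0 {d} {b, c} k).E (fun d1 =>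
          cz (WE tb ∅ (tm n) z) (zz n) ((SyR D tm (A0 n) w0 b c d (t n) k b1 c1 c1 d1 d1).AX1 (WE tb ∅ (tm n) z)))) +
        (Sp (WE tb ∅ (tm n) z) w0 {c} {b, d} k).E (fun c1 =>
          cz (WE tb ∅ (tm n) z) (zz n) ((SyR D tm (A0 n) w0 b c d (t n) k b1 c1 c1 c1 c1).AY1 (WE tb ∅ (tm n) z))) +
        (Sp (WE tb ∅ (tm n) z) w0 {c} {b, d} k).E (fun c2 =>
          cz (WE tb ∅ (tm n) z) (zz n) ((SyR D tm (A0 n) w0 b c d (t n) k b1 c2 c2 c2 c2).AY2 (WE tb ∅ (tm n) z))) +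
        (Sp (WE tb ∅ (tm n) z) w0 {d} {b, c} k).E (fun d2 =>
          cz (WE tb ∅ (tm n) z) (zz n) ((SyR D tm (A0 n) w0 b c d (t n) k b1 d2 d2 d2 d2).AX2 (WE tb ∅ (tm n) z))))) +
      2 * PZ tb M w0 tm T k zz b c d (fun n _ => A0 n) (fun n => (t n).pZ) k.lam := by
    have e4 : PZ tb M w0 tm T k zz b c d (fun n _ => A0 n) (fun n => (t n).pZ) k.lam =
        S0 M T (fun n z => (Sp (WE tb ∅ (tm n) z) w0 {b} {c, d} k).E (fun b1 =>
          cz (WE tb ∅ (tm n) z) (zz n) ((SyR D tm (A0 n) w0 b c d (t n) k b1 b1 b1 b1 b1).AZ (WE tb ∅ (tm n) z)))) := rfl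
    rw [e4]
    exact S0_E (fun n z => Sp (WE tb ∅ (tm n) z) w0 {b} {c, d} k) _ _ _
  rw [e3]
  have h1 : S0 M T (fun n z => (Sp (WE tb ∅ (tm n) z) w0 {b} {c, d} k).E (fun b1 =>
        (Sp (WE tb ∅ (tm n) z) w0 {c} {b, d} k).E (fun c1 => (Sp (WE tb ∅ (tm n) z) w0 {d} {b, c} k).E (fun d1 =>
          cz (WE tb ∅ (tm n) z) (zz n) ((SyR D tm (A0 n) w0 b c d (t n) k b1 c1 c1 d1 d1).AX1 (WE tb ∅ (tm n) z)))) +
        (Sp (WE tb ∅ (tm n) z) w0 {c} {b, d} k).E (fun c1 =>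
          cz (WE tb ∅ (tm n) z) (zz n) ((SyR D tm (A0 n) w0 b c d (t n) k b1 c1 c1 c1 c1).AY1 (WE tb ∅ (tm n) z))) +
        (Sp (WE tb ∅ (tm n) z) w0 {c} {b, d} k).E (fun c2 =>
          cz (WE tb ∅ (tm n) z) (zz n) ((SyR D tm (A0 n) w0 b c d (t n) k b1 c2 c2 c2 c2).AY2 (WE tb ∅ (tm n) z))) +
        (Sp (WE tb ∅ (tm n) z) w0 {d} {b, c} k).E (fun d2 =>
          cz (WE tb ∅ (tm n) z) (zz n) ((SyR D tm (A0 n) w0 b c d (t n) k b1 d2 d2 d2 d2).AX2 (WE tb ∅ (tm n) z))))) ≤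
      BX + BY + BY' + BX' := by
    refine coin_le w0 b c d _ fun θ hθ => ?_
    rw [S0_add, S0_add, S0_add]
    refine add_le_add (add_le_add (add_le_add ?_ ?_) ?_) ?_
    · exact coin_le w0 c b d _ fun θ' hθ' => hX θ hθ θ' hθ'
    · exact hY θ hθ
    · exact hY' θ hθ
    · exact hX' θ hθ
  linarith

/-- **KIND `G_X`** : the covered masses by the payments of the single covers; `AU` is unsigned -/
theorem mcG_le (A0 : ℕ → ℕ → Om W X β → Prop)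
    (hU : PZ tb M w0 tm T k zz d b c (fun n _ => A0 n) (fun _ _ => 1) 1 ≤ BX)
    (hZ : PZ tb M w0 tm T k zz b c d (fun n _ => A0 n) (fun n => (t n).pZ) k.lam ≤ BZ)
    (hY : ∀ θ, (cL tb w0 b {c, d} tm T k.M).p θ ≠ 0 →
      PZ tb M w0 tm T k zz c b d (E1t tb w0 tm T k b c d t A0 θ) (fun n => (t n).Yb) k.lam ≤ BY) :
    SW M tb tm T (fun n P => mcG P (zz n) D tm (A0 n) w0 b c d (t n) k) ≤ 2 * BX + BY + BZ := by
  have e : ∀ (n : ℕ) (z : Om W X β), mcG (WE tb ∅ (tm n) z) (zz n) D tm (A0 n) w0 b c d (t n) k =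
      2 * (Sp (WE tb ∅ (tm n) z) w0 {d} {b, c} k).E (fun d1 =>
          cz (WE tb ∅ (tm n) z) (zz n) ((SyR D tm (A0 n) w0 b c d (t n) k d1 d1 d1 d1 d1).AU (WE tb ∅ (tm n) z))) +
      (Sp (WE tb ∅ (tm n) z) w0 {b} {c, d} k).E (fun b1 =>
        (Sp (WE tb ∅ (tm n) z) w0 {c} {b, d} k).E (fun c1 =>
          cz (WE tb ∅ (tm n) z) (zz n) ((SyR D tm (A0 n) w0 b c d (t n) k b1 c1 c1 c1 c1).AY1 (WE tb ∅ (tm n) z))) +
        cz (WE tb ∅ (tm n) z) (zz n) ((SyR D tm (A0 n) w0 b c d (t n) k b1 b1 b1 b1 b1).AZ (WE tb ∅ (tm n) z))) := by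
    intro n z
    exact pr3 (Sp (WE tb ∅ (tm n) z) w0 {b} {c, d} k) (Sp (WE tb ∅ (tm n) z) w0 {c} {b, d} k)
      (Sp (WE tb ∅ (tm n) z) w0 {d} {b, c} k)
      (fun d1 => cz (WE tb ∅ (tm n) z) (zz n)
        ((SyR D tm (A0 n) w0 b c d (t n) k d1 d1 d1 d1 d1).AU (WE tb ∅ (tm n) z)))
      (fun b1 c1 => cz (WE tb ∅ (tm n) z) (zz n)
        ((SyR D tm (A0 n) w0 b c d (t n) k b1 c1 c1 c1 c1).AY1 (WE tb ∅ (tm n) z)))
      (fun b1 => cz (WE tb ∅ (tm n) z) (zz n)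
        ((SyR D tm (A0 n) w0 b c d (t n) k b1 b1 b1 b1 b1).AZ (WE tb ∅ (tm n) z)))
  have e2 : SW M tb tm T (fun n P => mcG P (zz n) D tm (A0 n) w0 b c d (t n) k) =
      S0 M T (fun n z => mcG (WE tb ∅ (tm n) z) (zz n) D tm (A0 n) w0 b c d (t n) k) := rfl
  rw [e2]
  simp only [e]
  rw [S0_add, S0_smul]
  have h1 : S0 M T (fun n z => (Sp (WE tb ∅ (tm n) z) w0 {d} {b, c} k).E (fun d1 =>
      cz (WE tb ∅ (tm n) z) (zz n) ((SyR D tm (A0 n) w0 b c d (t n) k d1 d1 d1 d1 d1).AU (WE tb ∅ (tm n) z)))) ≤ BX := hU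
  have h2 : S0 M T (fun n z => (Sp (WE tb ∅ (tm n) z) w0 {b} {c, d} k).E (fun b1 =>
        (Sp (WE tb ∅ (tm n) z) w0 {c} {b, d} k).E (fun c1 =>
          cz (WE tb ∅ (tm n) z) (zz n) ((SyR D tm (A0 n) w0 b c d (t n) k b1 c1 c1 c1 c1).AY1 (WE tb ∅ (tm n) z))) +
        cz (WE tb ∅ (tm n) z) (zz n) ((SyR D tm (A0 n) w0 b c d (t n) k b1 b1 b1 b1 b1).AZ (WE tb ∅ (tm n) z)))) ≤
      BY + BZ := by
    have e3 := S0_E (M := M) (T := T) (fun n z => Sp (WE tb ∅ (tm n) z) w0 {b} {c, d} k)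
      (fun n z b1 => (Sp (WE tb ∅ (tm n) z) w0 {c} {b, d} k).E (fun c1 =>
          cz (WE tb ∅ (tm n) z) (zz n) ((SyR D tm (A0 n) w0 b c d (t n) k b1 c1 c1 c1 c1).AY1 (WE tb ∅ (tm n) z))))
      (fun n z b1 => cz (WE tb ∅ (tm n) z) (zz n)
        ((SyR D tm (A0 n) w0 b c d (t n) k b1 b1 b1 b1 b1).AZ (WE tb ∅ (tm n) z))) 1
    simp only [one_mul] at e3
    rw [e3]
    exact add_le_add (coin_le w0 b c d _ fun θ hθ => hY θ hθ) hZ
  linarith

end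

end Pool.Agent.GMH.UV0P
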