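import Pool.Agent.GMH.PayPR
import Pool.Agent.GMH.UV0P

/-!
# GMH/PayR0: the covered masses of the kinds `R0` and `G_X` by own rows (helper52)

* `Pays` : every public cover by own rows with the given numbers is paid (`PayP.payp`);
* `An0` : the events of a zone (time, undecided vertices, tables of the start, tables of the lives);
* `pzA`, `pzB` : the cover of `An0`, of `An0` and one or two memberships;
* `r0_pay` : `SW (mcR) ≤ 6 B`; `g_pay` : `SW (mcG) ≤ 2 BU + 2 B`, `BU` the unsigned cover;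
* `pzQ` : any event `Rd`, any test normalised in the tested top; `mcZ_pay` : the coarse covers of `GMH/UVZ`.
-/

set_option autoImplicit false
set_option linter.unusedSectionVars false

namespace Pool.Agent.GMH.PayPI

open Finset Pool.Agent.PWZ Pool.Agent.M3 Pool.Agent.GM Pool.Agent.GM.Harm Pool.Agent.GMH Pool.Agent.GMH.PayM
open Pool.Agent.GMH.PayS hiding eT
open Pool.Agent.GMH.TP Pool.Agent.GMH.V3 Pool.Agent.GMH.V3.TG Pool.Agent.GMH.Dy Pool.Agent.GMH.TabF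
open Pool.Agent.GMH.PayQ (ZbQ_Lw FQ_Tp)
open Pool.Agent.GMH.PayP (Own Fit Clq dl2 dl2_cons Ct cL)
open Pool.Agent.GMH.UV (US Seen tv)
open Pool.Agent.GMH.MV (nu CN)
open Pool.Agent.GMH.MVI (NPo XLo)
open Pool.Agent.GMH.TabZ (V3 Nm mcR mcG)
open Pool.Agent.GMH.UV0P (PZ E1t A1t G1t mZ mY mcR_le mcG_le)

noncomputable section

variable {X β γ φ : Type} [Fintype X] [Fintype β] [Fintype φ] [Nonempty X] [Nonempty β]
variable {D : HD (Fin 3) X β γ φ} {al : ℝ} {h : D.Thick al}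
variable {v : ℕ → Finset (Fin 3) → X → (Fin 3 → β) → Pt (Fin 3) X β φ}
variable {prr : ℕ → Fin 3 → φ → φ} {T : ℕ} {W : Type} [Fintype W] {tb : Tab D prr T W}
variable {M : US (Om W X β)} {i u1 u2 : Fin 3}

/-- **every public cover by own rows is paid** by at most `B` -/
def Pays (h : D.Thick al) (v : ℕ → Finset (Fin 3) → X → (Fin 3 → β) → Pt (Fin 3) X β φ) (tb : Tab D prr T W)
    (M : US (Om W X β)) (w0 : Om W X β) (k : Nm) (zz : ℕ → ℕ → Om W X β → Prop) (m0 m1 m2 eps : ℝ) (Nn : ℕ)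
    (L B : ℝ) : Prop :=
  ∀ (i u1 u2 : Fin 3) (A : ℕ → Om W X β → ℕ → Om W X β → Prop) (g : ℕ → Om W X β → ℝ) (C0 C1 C2 : Type),
    u1 ≠ i → u2 ≠ i → u1 ≠ u2 → Nonempty (Own h v tb M i u1 u2 A g C0 C1 C2 m0 m1 m2 eps Nn) →
    (∀ n w, |g n w| ≤ L) → PZ tb M w0 TP.nn (5 * T) k zz i u1 u2 A g k.lam ≤ B

variable (M) in
/-- the events of a zone -/
def An0 (zz : ℕ → ℕ → Om W X β → Prop) (ub : Fin 3 → ℕ → ℕ → Om W X β → Prop) (R : ℕ → Om W X β → Prop)
    (rel : Fin 3 → ℕ → Om W X β → Prop) (Vk : Finset (Fin 3)) (n s : ℕ) (w : Om W X β) : Prop :=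
  zz n s w ∧ (∀ j ∈ Vk, ub j n s w) ∧ R n w ∧ ∀ j ∈ Vk, rel j (UV.tv M j s w) w

theorem Rd.congr {sees : Prop} {X0 : ℝ} {A A' : ℕ → Om W X β → ℕ → Om W X β → Prop} {Q : ℕ → Om W X β → Prop}
    {c0 c1 c2 : ℕ → ℕ → Om W X β → Prop} (d : Rd h v tb M i u1 u2 sees X0 A Q c0 c1 c2)
    (e : ∀ n z s w, A n z s w ↔ A' n z s w) : Rd h v tb M i u1 u2 sees X0 A' Q c0 c1 c2 := by
  have : A = A' := by
    funext n z s w
    exact propext (e n z s w)
  rwa [← this]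

/-- what is asked of a zone; `X0` : typical letters of all vertices, `J` : tops which are seen -/
structure Zo (h : D.Thick al) (v : ℕ → Finset (Fin 3) → X → (Fin 3 → β) → Pt (Fin 3) X β φ) (tb : Tab D prr T W)
    (M : US (Om W X β)) (J : Finset (Fin 3)) (X0 : ℝ) (zz : ℕ → ℕ → Om W X β → Prop)
    (ub : Fin 3 → ℕ → ℕ → Om W X β → Prop) (R : ℕ → Om W X β → Prop) (rel : Fin 3 → ℕ → Om W X β → Prop)
    (Vk : Finset (Fin 3)) : Prop where
  hCN : ∀ j n (a b : Om W X β), XLo tb v j n a = XLo tb v j n b → NPo tb v n a = NPo tb v n b →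
    UV.tv M j n a = UV.tv M j n b
  hzn : ∀ n s w, zz n s w → n ≤ s
  hzz : ∀ n s a b, n ≤ s → sgt D ∅ (TP.nn s) a = sgt D ∅ (TP.nn s) b → (zz n s a ↔ zz n s b)
  hub : ∀ j n s a b, n ≤ s → sgt D {j} (TP.nn s) a = sgt D {j} (TP.nn s) b → (ub j n s a ↔ ub j n s b)
  hut : ∀ j n s w, ub j n s w → UV.tv M j s w ≤ n
  hR : SeT v tb J R
  hrel : ∀ j ∈ Vk, SeT v tb J (rel j)
  hX : ∀ n < 5 * T, ∀ w, tb.Ps.p w ≠ 0 → R n w → ∀ j,
    ssQ h v (eT v tb n w) j (tb.pt (eT v tb n w / 5) w) ≤ X0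

section pay

variable {dg : ℕ → X → ℝ} {Lam : ℝ} {N : Finset (Fin 3) → ℝ} {SS : Finset (Finset (Fin 3))}
variable {zz zp : ℕ → ℕ → Om W X β → Prop} {ub : Fin 3 → ℕ → ℕ → Om W X β → Prop} {R : ℕ → Om W X β → Prop}
  {rel : Fin 3 → ℕ → Om W X β → Prop} {Vk J : Finset (Fin 3)} {X0 K L B eps : ℝ} {Nn : ℕ} {w0 : Om W X β} {k : Nm}
  {Φ : Type} {Fr : ℕ → Fin 3 → Pt (Fin 3) X β φ → Φ} {fr : Fin 3 → Lt X β φ → Φ}

theorem all3 : ∀ i u1 u2 : Fin 3, u1 ≠ i → u2 ≠ i → u1 ≠ u2 → ∀ j, j = i ∨ j = u1 ∨ j = u2 := by decide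

/-- **one signed cover of a zone**, with two memberships -/
theorem pzB (r : Rn h v tb M N SS dg Lam) (zo : Zo h v tb M J X0 zz ub R rel Vk) (hiJ : i ∉ J)
    (hP : Pays h v tb M w0 k zp (2 * Real.exp X0) (2 * (1 / al)) (2 * (1 / al)) eps Nn (L + K + 1) B) (h1 : u1 ≠ i)
    (h2 : u2 ≠ i) (h12 : u1 ≠ u2) (hFr : ∀ t j u, Fr t j u = fr j (FQ v t j u)) (hK : 0 ≤ K) (hL : 0 ≤ L)
    {S : Finset (Fin 3)} (hS : i ∉ S) (heps : 0 ≤ eps) {B1 B2 A : ℕ → Om W X β → ℕ → Om W X β → Prop}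
    (hB1 : ∀ n s, n ≤ s → Fac (si D {i, u1} univ {u2} (TP.nn s)) (fun w => B1 n w s w))
    (hB2 : ∀ n s, n ≤ s → Fac (si D {i, u2} univ {u1} (TP.nn s)) (fun w => B2 n w s w))
    (hw1 : ∀ n z z', sgt D ∅ (TP.nn n) z = sgt D ∅ (TP.nn n) z' → B1 n z = B1 n z')
    (hw2 : ∀ n z z', sgt D ∅ (TP.nn n) z = sgt D ∅ (TP.nn n) z' → B2 n z = B2 n z')
    (hA : ∀ n z s w, An0 M zz ub R rel Vk n s w ∧ B1 n z s w ∧ B2 n z s w ↔ A n z s w) :
    PZ tb M w0 TP.nn (5 * T) k zp i u1 u2 A (TstZ.gz h v tb Fr K L S i) k.lam ≤ B := by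
  have hJ : ∀ j ∈ J, j = u1 ∨ j = u2 ∨ (j = i ∧ False) := by
    intro j hj
    rcases all3 i u1 u2 h1 h2 h12 j with h3 | h3 | h3
    · exact absurd (h3 ▸ hj) hiJ
    · exact Or.inl h3
    · exact Or.inr (Or.inl h3)
  have d := (rdZ (h := h) zo.hCN hJ (all3 i u1 u2 h1 h2 h12) zo.hzn zo.hzz zo.hub zo.hut zo.hR zo.hrel
    (fun n hn w hw hr => zo.hX n hn w hw hr i) hB1 hB2 hw1 hw2).congr hA
  refine hP i u1 u2 A _ _ _ _ h1 h2 h12 ⟨ownGz r h1 h2 h12 d fr hFr K L hS heps Nn⟩ fun n w => ?_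
  rw [abs_le]
  have e1 := TstZ.gz_le (h := h) (v := v) (tb := tb) (Fr := Fr) (K := K) (L := L) S i n w
  have e2 := TstZ.gz_low (h := h) (v := v) (tb := tb) (Fr := Fr) hK hL S i n w
  constructor <;> linarith

/-- **THE COVERED MASSES OF THE KIND `R0`** -/
theorem r0_pay (r : Rn h v tb M N SS dg Lam) (zo : Zo h v tb M ∅ X0 zz ub R rel Vk)
    (hP : Pays h v tb M w0 k zp (2 * Real.exp X0) (2 * (1 / al)) (2 * (1 / al)) eps Nn (L + K + 1) B)
    (hFr : ∀ t j u, Fr t j u = fr j (FQ v t j u)) (hK : 0 ≤ K) (hL : 0 ≤ L) (heps : 0 ≤ eps) {b c d : Fin 3}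
    (hv : V3 b c d) :
    UV0.SW M tb TP.nn (5 * T) (fun n P => mcR P (zp n) D TP.nn (An0 M zz ub R rel Vk n) w0 b c d
      (TstZ.tR h v tb Fr K L b c d n) k) ≤ B + B + B + B + 2 * B := by
  have tt : ∀ n s, n ≤ s → ∀ E S, Fac (si (W := W) (X := X) D E univ S (TP.nn s)) (fun _ => True) :=
    fun _ _ _ _ _ _ _ _ => rfl
  refine mcR_le (t := TstZ.tR h v tb Fr K L b c d) (An0 M zz ub R rel Vk) ?_ (fun θ _ => ?_) (fun θ _ θ' _ => ?_)
    (fun θ _ => ?_) (fun θ _ => ?_)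
  · exact pzB (i := b) (u1 := c) (u2 := d) r zo (notMem_empty _) hP hv.bc.symm hv.bd.symm hv.cd hFr hK hL
      (by simp [hv.bc, hv.bd]) heps (B1 := fun _ _ _ _ => True) (B2 := fun _ _ _ _ => True)
      (fun _ _ _ _ _ _ => rfl) (fun _ _ _ _ _ _ => rfl) (fun _ _ _ _ => rfl) (fun _ _ _ _ => rfl)
      (fun n z s w => by simp)
  · exact pzB (i := c) (u1 := b) (u2 := d) r zo (notMem_empty _) hP hv.bc hv.cd.symm hv.bd hFr hK hL
      (by simp [hv.cd]) heps (B1 := fun _ _ _ _ => True)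
      (B2 := fun n z s w => ¬ UV0P.inz tb w0 TP.nn (5 * T) k b c d (fun n _ => An0 M zz ub R rel Vk n)
        (fun n => (TstZ.tR h v tb Fr K L b c d n).pZ) k.lam θ n z s w)
      (fun _ _ _ _ _ _ => rfl)
      (fun n s hs x y e => by
        have e1 : mZ tb w0 TP.nn (5 * T) k b c d (TstZ.tR h v tb Fr K L b c d) (An0 M zz ub R rel Vk) θ n s x =
          mZ tb w0 TP.nn (5 * T) k b c d (TstZ.tR h v tb Fr K L b c d) (An0 M zz ub R rel Vk) θ n s y :=
          UV0P.mZ_si nn_succ_le hs (Finset.Subset.refl _) (Finset.Subset.refl _) x y e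
        exact congrArg Not e1)
      (fun _ _ _ _ => rfl)
      (fun n z z' e => by
        funext s w
        rw [UV0P.inz_z (A := fun n _ => An0 M zz ub R rel Vk n) θ n rfl e])
      (fun n z s w => by
        show _ ↔ An0 M zz ub R rel Vk n s w ∧ _
        simp)
  · exact pzB (i := d) (u1 := b) (u2 := c) r zo (notMem_empty _) hP hv.bd hv.cd hv.bc hFr hK hL
      (by simp [hv.cd.symm]) heps
      (B1 := fun n z s w => UV0P.inz tb w0 TP.nn (5 * T) k c b d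
        (E1t tb w0 TP.nn (5 * T) k b c d (TstZ.tR h v tb Fr K L b c d) (An0 M zz ub R rel Vk) θ)
        (fun n => (TstZ.tR h v tb Fr K L b c d n).Yb) k.lam θ' n z s w)
      (B2 := fun n z s w => ¬ UV0P.inz tb w0 TP.nn (5 * T) k b c d (fun n _ => An0 M zz ub R rel Vk n)
        (fun n => (TstZ.tR h v tb Fr K L b c d n).pZ) k.lam θ n z s w)
      (fun n s hs x y e => UV0P.mY_si nn_succ_le hs (by intro j hj; simp only [mem_insert, mem_singleton] at hj ⊢; tauto)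
        (Finset.Subset.refl _) x y e)
      (fun n s hs x y e => by
        have e1 : mZ tb w0 TP.nn (5 * T) k b c d (TstZ.tR h v tb Fr K L b c d) (An0 M zz ub R rel Vk) θ n s x =
          mZ tb w0 TP.nn (5 * T) k b c d (TstZ.tR h v tb Fr K L b c d) (An0 M zz ub R rel Vk) θ n s y :=
          UV0P.mZ_si nn_succ_le hs (by intro j hj; simp only [mem_insert, mem_singleton] at hj ⊢; tauto)
            (Finset.Subset.refl _) x y e
        exact congrArg Not e1)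
      (fun n z z' e => by
        funext s w
        rw [UV0P.inz_z θ' n (UV0P.E1t_z e) e])
      (fun n z z' e => by
        funext s w
        rw [UV0P.inz_z (A := fun n _ => An0 M zz ub R rel Vk n) θ n rfl e])
      (fun n z s w => by
        show _ ↔ (An0 M zz ub R rel Vk n s w ∧ _) ∧ _
        tauto)
  · exact pzB (i := c) (u1 := b) (u2 := d) r zo (notMem_empty _) hP hv.bc hv.cd.symm hv.bd hFr hK hL
      (by simp [hv.cd, hv.bc.symm]) heps (B1 := fun _ _ _ _ => True)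
      (B2 := fun n z s w => UV0P.inz tb w0 TP.nn (5 * T) k b c d (fun n _ => An0 M zz ub R rel Vk n)
        (fun n => (TstZ.tR h v tb Fr K L b c d n).pZ) k.lam θ n z s w)
      (fun _ _ _ _ _ _ => rfl)
      (fun n s hs x y e => UV0P.mZ_si nn_succ_le hs (Finset.Subset.refl _) (Finset.Subset.refl _) x y e)
      (fun _ _ _ _ => rfl)
      (fun n z z' e => by
        funext s w
        rw [UV0P.inz_z (A := fun n _ => An0 M zz ub R rel Vk n) θ n rfl e])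
      (fun n z s w => by
        show _ ↔ An0 M zz ub R rel Vk n s w ∧ _
        simp)
  · exact pzB (i := d) (u1 := b) (u2 := c) r zo (notMem_empty _) hP hv.bd hv.cd hv.bc hFr hK hL
      (by simp [hv.bd.symm]) heps (B1 := fun _ _ _ _ => True)
      (B2 := fun n z s w => UV0P.inz tb w0 TP.nn (5 * T) k b c d (fun n _ => An0 M zz ub R rel Vk n)
        (fun n => (TstZ.tR h v tb Fr K L b c d n).pZ) k.lam θ n z s w)
      (fun _ _ _ _ _ _ => rfl)
      (fun n s hs x y e => UV0P.mZ_si nn_succ_le hs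
        (by intro j hj; simp only [mem_insert, mem_singleton] at hj ⊢; tauto) (Finset.Subset.refl _) x y e)
      (fun _ _ _ _ => rfl)
      (fun n z z' e => by
        funext s w
        rw [UV0P.inz_z (A := fun n _ => An0 M zz ub R rel Vk n) θ n rfl e])
      (fun n z s w => by
        show _ ↔ An0 M zz ub R rel Vk n s w ∧ _
        simp)

/-- **THE COVERED MASSES OF THE KIND `G_X`** : the relation sees the bad top `d` only; `BU` = the unsigned cover -/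
theorem g_pay (r : Rn h v tb M N SS dg Lam) {b c d : Fin 3} (zo : Zo h v tb M {d} X0 zz ub R rel Vk) {BU : ℝ}
    (hP : Pays h v tb M w0 k zp (2 * Real.exp X0) (2 * (1 / al)) (2 * (1 / al)) eps Nn (L + K + 1) B)
    (hFr : ∀ t j u, Fr t j u = fr j (FQ v t j u)) (hK : 0 ≤ K) (hL : 0 ≤ L) (heps : 0 ≤ eps)
    (hv : V3 b c d) (hU : PZ tb M w0 TP.nn (5 * T) k zp d b c (fun n _ => An0 M zz ub R rel Vk n) (fun _ _ => 1) 1 ≤ BU) :
    UV0.SW M tb TP.nn (5 * T) (fun n P => mcG P (zp n) D TP.nn (An0 M zz ub R rel Vk n) w0 b c d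
      (TstZ.tR h v tb Fr K L b c d n) k) ≤ 2 * BU + B + B := by
  have hb : b ∉ ({d} : Finset (Fin 3)) := fun hh => hv.bd (Finset.mem_singleton.1 hh)
  have hc : c ∉ ({d} : Finset (Fin 3)) := fun hh => hv.cd (Finset.mem_singleton.1 hh)
  refine mcG_le (t := TstZ.tR h v tb Fr K L b c d) (An0 M zz ub R rel Vk) hU ?_ (fun θ _ => ?_)
  · exact pzB (i := b) (u1 := c) (u2 := d) r zo hb hP hv.bc.symm hv.bd.symm hv.cd hFr hK hL
      (by simp [hv.bc, hv.bd]) heps (B1 := fun _ _ _ _ => True) (B2 := fun _ _ _ _ => True)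
      (fun _ _ _ _ _ _ => rfl) (fun _ _ _ _ _ _ => rfl) (fun _ _ _ _ => rfl) (fun _ _ _ _ => rfl)
      (fun n z s w => by simp)
  · exact pzB (i := c) (u1 := b) (u2 := d) r zo hc hP hv.bc hv.cd.symm hv.bd hFr hK hL
      (by simp [hv.cd]) heps (B1 := fun _ _ _ _ => True)
      (B2 := fun n z s w => ¬ UV0P.inz tb w0 TP.nn (5 * T) k b c d (fun n _ => An0 M zz ub R rel Vk n)
        (fun n => (TstZ.tR h v tb Fr K L b c d n).pZ) k.lam θ n z s w)
      (fun _ _ _ _ _ _ => rfl)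
      (fun n s hs x y e => by
        have e1 : mZ tb w0 TP.nn (5 * T) k b c d (TstZ.tR h v tb Fr K L b c d) (An0 M zz ub R rel Vk) θ n s x =
          mZ tb w0 TP.nn (5 * T) k b c d (TstZ.tR h v tb Fr K L b c d) (An0 M zz ub R rel Vk) θ n s y :=
          UV0P.mZ_si nn_succ_le hs (Finset.Subset.refl _) (Finset.Subset.refl _) x y e
        exact congrArg Not e1)
      (fun _ _ _ _ => rfl)
      (fun n z z' e => by
        funext s w
        rw [UV0P.inz_z (A := fun n _ => An0 M zz ub R rel Vk n) θ n rfl e])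
      (fun n z s w => by
        show _ ↔ An0 M zz ub R rel Vk n s w ∧ _
        simp)

/-- **one signed cover**, any event `Rd` and any test normalised in the tested top -/
theorem pzQ (r : Rn h v tb M N SS dg Lam)
    (hP : Pays h v tb M w0 k zp (2 * Real.exp X0) (2 * (1 / al)) (2 * (1 / al)) eps Nn L B) (h1 : u1 ≠ i)
    (h2 : u2 ≠ i) (h12 : u1 ≠ u2) {A : ℕ → Om W X β → ℕ → Om W X β → Prop} {Q : ℕ → Om W X β → Prop}
    {c0 c1 c2 : ℕ → ℕ → Om W X β → Prop} (d : Rd h v tb M i u1 u2 False X0 A Q c0 c1 c2)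
    (fr : Fin 3 → Lt X β φ → Φ) (Gf : ℕ → ℕ → Zt X β γ φ → (Fin 3 → Φ) → ℝ) {g : ℕ → Om W X β → ℝ}
    (hg : ∀ n < 5 * T, ∀ w, tb.Ps.p w ≠ 0 → nu M.toMS n w = n →
      g n w = Gf n (eT v tb n w) (TP.ZQ D v (eT v tb n w) (tb.pt (eT v tb n w / 5) w))
        (fun j => fr j (FQ v (eT v tb n w / 5) j (tb.pt (eT v tb n w / 5) w))))
    (hone : ∀ n < 5 * T, ∀ w, tb.Ps.p w ≠ 0 → nu M.toMS n w = n → ∀ f : Fin 3 → Φ,
      (D.P h (eT v tb n w / 5)).ce (ZbQ D v (eT v tb n w) i) (fun u' => Real.exp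
        (Gf n (eT v tb n w) (TP.ZQ D v (eT v tb n w) (tb.pt (eT v tb n w / 5) w))
          (Function.update f i (fr i (FQ v (eT v tb n w / 5) i u'))))) (tb.pt (eT v tb n w / 5) w) ≤ 1)
    (hb : ∀ n w, |g n w| ≤ L) (heps : 0 ≤ eps) :
    PZ tb M w0 TP.nn (5 * T) k zp i u1 u2 A g k.lam ≤ B :=
  hP i u1 u2 A g _ _ _ h1 h2 h12 ⟨ownQ r h1 h2 h12 d fr Gf hg hone heps Nn⟩ hb

/-- **the coarse covers** of `GMH/UVZ` -/
theorem mcZ_pay (r : Rn h v tb M N SS dg Lam) {b c d : Fin 3} (hv : V3 b c d) {Q : UV.Kd (Om W X β)}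
    {R' : ℕ → Om W X β → Prop} {J : Finset (Fin 3)} (hbJ : b ∉ J)
    (hP : Pays h v tb M w0 k (fun n => UVZ.zze M (5 * T) n) (2 * Real.exp X0) (2 * (1 / al)) (2 * (1 / al)) eps Nn L B)
    (ht : ∀ n s x y, n ≤ s → sgt D {b} (TP.nn s) x = sgt D {b} (TP.nn s) y →
      (UVZ.tkn M Q (5 * T) n b s x ↔ UVZ.tkn M Q (5 * T) n b s y)) (hR : SeT v tb J R')
    (hX : ∀ n < 5 * T, ∀ w, tb.Ps.p w ≠ 0 → R' n w → ssQ h v (eT v tb n w) b (tb.pt (eT v tb n w / 5) w) ≤ X0)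
    (fr : Fin 3 → Lt X β φ → Φ) (Gf : ℕ → ℕ → Zt X β γ φ → (Fin 3 → Φ) → ℝ) {g : ℕ → Om W X β → ℝ}
    (hg : ∀ n < 5 * T, ∀ w, tb.Ps.p w ≠ 0 → nu M.toMS n w = n →
      g n w = Gf n (eT v tb n w) (TP.ZQ D v (eT v tb n w) (tb.pt (eT v tb n w / 5) w))
        (fun j => fr j (FQ v (eT v tb n w / 5) j (tb.pt (eT v tb n w / 5) w))))
    (hone : ∀ n < 5 * T, ∀ w, tb.Ps.p w ≠ 0 → nu M.toMS n w = n → ∀ f : Fin 3 → Φ,
      (D.P h (eT v tb n w / 5)).ce (ZbQ D v (eT v tb n w) b) (fun u' => Real.exp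
        (Gf n (eT v tb n w) (TP.ZQ D v (eT v tb n w) (tb.pt (eT v tb n w / 5) w))
          (Function.update f b (fr b (FQ v (eT v tb n w / 5) b u'))))) (tb.pt (eT v tb n w / 5) w) ≤ 1)
    (hb : ∀ n w, |g n w| ≤ L) (heps : 0 ≤ eps) :
    UV0.SW M tb TP.nn (5 * T) (fun n P => UVZ.mcZ P M Q (5 * T) n D TP.nn w0 b c d R' g k) ≤ B := by
  rw [UV0P.mcZ_eq]
  have hJ : ∀ j ∈ J, j = c ∨ j = d ∨ (j = b ∧ False) := by
    intro j hj
    rcases all3 b c d hv.bc.symm hv.bd.symm hv.cd j with h3 | h3 | h3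
    · exact absurd (h3 ▸ hj) hbJ
    · exact Or.inl h3
    · exact Or.inr (Or.inl h3)
  refine pzQ r hP hv.bc.symm hv.bd.symm hv.cd (rdA (h := h) (M := M) hJ (fun n s w a => ?_) ht hR hX) fr Gf hg hone hb heps
  rw [← a.2.1]
  exact UVZ.nu_le s w

end pay

end

end Pool.Agent.GMH.PayPI
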