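import Pool.Agent.GMH.PayPR
import Pool.Agent.GMH.DynF
import Pool.Agent.GMH.KinRw

/-!
# GMH/PayRl: the relations of the kinds are seen by the tables (helper52)

Any frame `Fr t j` which is a function of `FQ v t j`.
* `seT_Ap1`, `seT_sF`, `seT_Alv`, `Alv_typ` : thin conditions; `seT_bad` : the top `j` is bad; `seT_any` : any static relation
  of the tuple (`kdF`, `kvF`).
-/

set_option autoImplicit false
set_option linter.unusedSectionVars false

namespace Pool.Agent.GMH.PayPI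

open Finset Pool.Agent.PWZ Pool.Agent.M3 Pool.Agent.GM Pool.Agent.GM.Harm Pool.Agent.GMH Pool.Agent.GMH.PayM
open Pool.Agent.GMH.PayS hiding eT
open Pool.Agent.GMH.TP Pool.Agent.GMH.V3 Pool.Agent.GMH.V3.TG Pool.Agent.GMH.Dy Pool.Agent.GMH.TabF
open Pool.Agent.GMH.KF (KC Ap bad kvF kdF sF tvn pS)

noncomputable section

variable {X β γ φ : Type} [Fintype X] [Fintype β] [Fintype φ] [Nonempty X] [Nonempty β]
variable {D : HD (Fin 3) X β γ φ} {al : ℝ} (h : D.Thick al)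
variable {v : ℕ → Finset (Fin 3) → X → (Fin 3 → β) → Pt (Fin 3) X β φ}
variable {prr : ℕ → Fin 3 → φ → φ} {T : ℕ} {W : Type} [Fintype W] {tb : Tab D prr T W}
variable {Φ : Type} {Fr : ℕ → Fin 3 → Pt (Fin 3) X β φ → Φ}

/-- values of a static relation at the tables of the start -/
def atT (v : ℕ → Finset (Fin 3) → X → (Fin 3 → β) → Pt (Fin 3) X β φ) (tb : Tab D prr T W)
    (Fr : ℕ → Fin 3 → Pt (Fin 3) X β φ → Φ) (K : ℕ → Pt (Fin 3) X β φ → (Fin 3 → Φ) → Prop) (n : ℕ) (w : Om W X β) :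
    Prop := K (eT v tb n w) (tb.pt (eT v tb n w / 5) w) (tup (Fr (eT v tb n w / 5)) (tb.pt (eT v tb n w / 5) w))

theorem seT_of {J : Finset (Fin 3)} {K : ℕ → Pt (Fin 3) X β φ → (Fin 3 → Φ) → Prop}
    (hFr : ∀ t j, Fac (FQ v t j) (Fr t j)) (hK : ∀ e f, Fac (TP.ZQ D v e) (fun a => K e a f))
    (hJ : ∀ e a f f', (∀ j ∈ J, f j = f' j) → K e a f → K e a f') : SeT v tb J (atT v tb Fr K) :=
  SeT.of_tup hK hJ hFr

/-- any static relation -/
theorem seT_any {K : ℕ → Pt (Fin 3) X β φ → (Fin 3 → Φ) → Prop} (hFr : ∀ t j, Fac (FQ v t j) (Fr t j))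
    (hK : ∀ e f, Fac (TP.ZQ D v e) (fun a => K e a f)) : SeT v tb univ (atT v tb Fr K) :=
  seT_of hFr hK fun e a f f' hf hh => by
    rwa [show f' = f from (funext fun j => hf j (mem_univ j)).symm]

/-- `R0` : thin -/
theorem seT_Ap1 (c : KC) (hFr : ∀ t j, Fac (FQ v t j) (Fr t j)) : SeT v tb ∅ (atT v tb Fr fun e a f =>
    Ap (D.P h (e / 5)) (TP.ZQ D v e) (Fr (e / 5)) c 1 a f) :=
  seT_of hFr (fun _ f => KF.Ap_fac _ _ c 1 f) fun _ _ f f' _ hh => (KF.Ap1_const _ _ f f').1 hh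

theorem pS_congr {Om : Type*} [Fintype Om] {P : FP Om} {α : Type*} {Z : Om → α} {F : Fin 3 → Om → Φ}
    {S : Finset (Fin 3)} {w : Om} {f f' : Fin 3 → Φ} (hf : ∀ j ∈ S, f j = f' j) : pS P Z F S w f = pS P Z F S w f' := by
  unfold KF.pS
  congr 1
  funext u
  congr 1
  exact propext ⟨fun hh j hj => (hh j hj).trans (hf j hj), fun hh j hj => (hh j hj).trans (hf j hj).symm⟩

theorem tvn_congr {Om : Type*} [Fintype Om] {P : FP Om} {α : Type*} {Z : Om → α} {F : Fin 3 → Om → Φ}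
    {S : Finset (Fin 3)} {w : Om} {f f' : Fin 3 → Φ} (hf : ∀ j ∈ S, f j = f' j) :
    tvn P Z F S w f = tvn P Z F S w f' := by
  unfold KF.tvn
  refine Finset.sum_congr rfl fun g _ => ?_
  congr 2
  exact propext ⟨fun hh j hj => (hh j hj).trans (hf j hj), fun hh j hj => (hh j hj).trans (hf j hj).symm⟩

theorem bad_congr {Om : Type*} [Fintype Om] {P : FP Om} {α : Type*} {Z : Om → α} {F : Fin 3 → Om → Φ} {c : KC}
    {j : Fin 3} {w : Om} {f f' : Fin 3 → Φ} (hf : f j = f' j) : bad P Z F c j w f ↔ bad P Z F c j w f' := by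
  have hf' : ∀ k ∈ ({j} : Finset (Fin 3)), f k = f' k := fun k hk => by
    rw [Finset.mem_singleton.1 hk]
    exact hf
  unfold KF.bad
  rw [pS_congr hf', tvn_congr hf']

/-- the top `j` is bad -/
theorem seT_bad (c : KC) (j : Fin 3) (hFr : ∀ t j, Fac (FQ v t j) (Fr t j)) : SeT v tb {j} (atT v tb Fr fun e a f =>
    bad (D.P h (e / 5)) (TP.ZQ D v e) (Fr (e / 5)) c j a f) :=
  seT_of hFr (fun _ f => KF.bad_fac _ _ c j f) fun _ _ _ _ hf hh =>
    (bad_congr (hf j (Finset.mem_singleton_self j))).1 hh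

/-- the own laws are bad -/
theorem seT_sF (c : KC) : SeT v tb ∅ (fun n w => sF (D.P h (eT v tb n w / 5)) (TP.ZQ D v (eT v tb n w))
    (ZbQ D v (eT v tb n w)) (Fr (eT v tb n w / 5)) c (tb.pt (eT v tb n w / 5) w)) :=
  SeT.of_fac (F := fun e a => sF (D.P h (e / 5)) (TP.ZQ D v e) (ZbQ D v e) (Fr (e / 5)) c a) fun e a b hz _ hh => by
    have h1 : sF (D.P h (e / 5)) (TP.ZQ D v e) (ZbQ D v e) (Fr (e / 5)) c a =
        sF (D.P h (e / 5)) (TP.ZQ D v e) (ZbQ D v e) (Fr (e / 5)) c b := KF.sF_fac _ _ (ZQ_Zb e) c a b hz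
    rwa [h1] at hh

/-- alive -/
theorem seT_Alv (p : AP) : SeT v tb ∅ (fun n w => Alv h v tb p (eT v tb n w) w) :=
  SeT.pst fun q => AQ_fac h p q

theorem Alv_typ {p : AP} {n : ℕ} {w : Om W X β} (hA : Alv h v tb p (eT v tb n w) w) (j : Fin 3) :
    ssQ h v (eT v tb n w) j (tb.pt (eT v tb n w / 5) w) ≤ p.X0 := (hA _ (le_refl _)).1 j

end

end Pool.Agent.GMH.PayPI
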