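import Pool.Agent.GMH.GhoC2
import Pool.Agent.GMH.EpG
import Pool.Agent.GMH.TabP

/-!
# GMH/PayT (helper50): PAYMENT OF THE THIN COVERS, MEAN FORM (P5)

`Lx` = all pieces, `Pc l w` = the piece `l` as a set of exact points `c`, `qc` = law of `c` in the class, potential
`PhT w = ∑_l max (qc (Pc l w) - u/4) 0`.

* `class_pay` : one class: `E PhT ≤ (16 / t) klc + P (Bad)`, `klc` = relative entropy of the thin letter of `c` (class law at the
  end against the old class law);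
* `class_run` : the same in the process, with the bound of `Bad`;
* `glob` : all classes: `E 1_B PhT ≤ (16 / t) E 1_B gain + del P (B)`;
* `glob_sum` : all ends: `∑_t E 1(e' t) PhT ≤ (16 / t) (cost of the letter) + del ∑_t P (e' t)`.
-/

set_option autoImplicit false
set_option linter.unusedSectionVars false

namespace Pool.Agent.GMH.PayT

open Finset Pool.Agent.PWZ Pool.Agent.M3 Pool.Agent.GM Pool.Agent.GM.Harm Pool.Agent.GMH.GhoC Pool.Agent.GMH.EpG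

noncomputable section

/-! ## one class -/

section one

variable {Om Om' : Type*} [Fintype Om] [Fintype Om'] {χ κ ζ Λ Γ Ee ι Lx C D Rw : Type*} [Fintype Lx] [DecidableEq Lx]
  [Fintype C] [Fintype D] [Fintype Rw] {k : ℕ}
variable {Q : FP Om} {Q' : FP Om'} {π : Om' → Om} {X : Om → χ} {L : Om → κ} {Z : Om → ζ} {Cp : Om → C}
  {lb : χ → C → Λ} {qc : FP C} {I : Finset ι} {hi mid lo : ι → ℝ} {R0 δ mu : ℝ}
  {m : Lx → Ee → C → FP Rw} {f : ι → Lx → Ee → C → Rw → D → Γ → ℝ} {lb' : Rw → Λ} {Po : Lx → C → Rw → Prop}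
  {own : Lx → Om' → C → Rw} {R : Lx → FP D} {SS : Lx → Om' → D → Prop} {eta : Lx → Om' → Ee} {γ : Lx → Om' → D → Γ}
  {Ve : Lx → Finset Ee} {Vs : Lx → D → Finset Γ} {Pc : Lx → Om' → C → Prop} {N B0 B1 δ1 u : ℝ}

/-- **the facts about the pieces** at the point `w` : needed for pieces of present mass more than `u / 4` -/
structure Pcs (qc : FP C) (I : Finset ι) (hi lo : ι → ℝ) (mu : ℝ) (m : Lx → Ee → C → FP Rw)
    (f : ι → Lx → Ee → C → Rw → D → Γ → ℝ) (own : Lx → Om' → C → Rw) (R : Lx → FP D) (SS : Lx → Om' → D → Prop)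
    (eta : Lx → Om' → Ee) (γ : Lx → Om' → D → Γ) (Ve : Lx → Finset Ee) (Vs : Lx → D → Finset Γ)
    (Pc : Lx → Om' → C → Prop) (δ1 u : ℝ) (w : Om') : Prop where
  ss : ∀ l, u / 4 < qc.Pr (Pc l w) → δ1 ≤ (R l).Pr (SS l w)
  ae : ∀ l, u / 4 < qc.Pr (Pc l w) → eta l w ∈ Ve l
  al : ∀ l, u / 4 < qc.Pr (Pc l w) → ∀ d, (R l).p d ≠ 0 → SS l w d → γ l w d ∈ Vs l d
  ho : ∀ l, u / 4 < qc.Pr (Pc l w) → ∀ c, qc.p c ≠ 0 → Pc l w c → ∀ i ∈ I,
    hi i ≤ ((R l).cond (SS l w)).E (fun d => f i l (eta l w) c (own l w c) d (γ l w d))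
  hm : ∀ l, u / 4 < qc.Pr (Pc l w) → ∀ c, qc.p c ≠ 0 → Pc l w c →
    (m l (eta l w) c).Pr (fun ρ => ∀ i ∈ I, lo i < ((R l).cond (SS l w)).E (fun d => f i l (eta l w) c ρ d (γ l w d))) ≤ mu
  dj : ∀ l l', l ≠ l' → ∀ c, qc.p c ≠ 0 → Pc l w c → ¬ Pc l' w c

variable (qc Pc u) in
/-- **the potential of the cover** -/
def PhT (w : Om') : ℝ := ∑ l, max (qc.Pr (Pc l w) - u / 4) 0

theorem PhT_nonneg (w : Om') : 0 ≤ PhT qc Pc u w := sum_nonneg fun _ _ => le_max_right _ _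

variable (qc Pc u) in
open Classical in
/-- the large pieces -/
def bg (w : Om') : Finset Lx := univ.filter fun l => u / 4 < qc.Pr (Pc l w)

theorem PhT_bg (w : Om') : PhT qc Pc u w = ∑ l ∈ bg qc Pc u w, (qc.Pr (Pc l w) - u / 4) := by
  classical
  unfold PhT bg
  rw [sum_filter]
  refine sum_congr rfl fun l _ => ?_
  by_cases h : u / 4 < qc.Pr (Pc l w)
  · rw [if_pos h, max_eq_left (by linarith)]
  · rw [if_neg h, max_eq_right (by linarith)]

theorem fam_of {w : Om'} (hw : Pcs qc I hi lo mu m f own R SS eta γ Ve Vs Pc δ1 u w) :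
    Fam qc I hi lo mu m f own R SS eta γ Ve Vs Pc δ1 u (bg qc Pc u w) w := by
  classical
  have h0 : ∀ l ∈ bg qc Pc u w, u / 4 < qc.Pr (Pc l w) := fun l hl => (mem_filter.1 hl).2
  refine ⟨fun l hl => hw.ss l (h0 l hl), fun l hl => hw.ae l (h0 l hl), fun l hl => hw.al l (h0 l hl),
    fun l hl => hw.ho l (h0 l hl), fun l hl => hw.hm l (h0 l hl), fun l _ l' _ => hw.dj l l', ?_⟩
  rw [← nsmul_eq_mul, ← sum_const]
  exact sum_le_sum fun l hl => (h0 l hl).le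

/-- the potential is at most `1` -/
theorem PhT_le_one (hu : 0 ≤ u) {w : Om'} (hw : Pcs qc I hi lo mu m f own R SS eta γ Ve Vs Pc δ1 u w) :
    PhT qc Pc u w ≤ 1 := by
  have h1 : PhT qc Pc u w ≤ ∑ l, qc.Pr (Pc l w) := by
    refine sum_le_sum fun l _ => max_le ?_ (qc.Pr_nonneg _)
    linarith
  refine h1.trans ?_
  unfold FP.Pr
  rw [← qc.E_sum]
  refine qc.E_le_const fun c hc => ?_
  exact (sum_ind_le univ (fun l => Pc l w c) fun l _ l' _ hne hP => hw.dj l l' hne c hc hP).trans (ind_le_one _)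

/-- **ONE POINT** : outside `Bad` the potential is paid by the thin letter -/
theorem phi_le {κ0 ζ0 : Type*} (H : CH Q Q' π X L Z Cp lb qc I hi mid lo R0 δ mu f lb' Po own Ve Vs N B0 B1 k)
    (hδ1 : 0 < δ1) (hu : 0 ≤ u) {w : Om'} (hw : Q'.p w ≠ 0)
    (hF : Pcs qc I hi lo mu m f own R SS eta γ Ve Vs Pc δ1 u w)
    (hb : ¬ Bad k Q X Cp lb I mid mu m f lb' Po R Ve Vs δ1 u (π w))
    {P0 : FP Om} (hac : Q.Ac P0) {L0 : Om → κ0} {Z0 : Om → ζ0}
    (hL0 : Fac (fun v => (L0 v, Z0 v)) (fun v => (lb (X v) (Cp v), Cp v))) (hZ0 : Fac Z0 Cp) {h : ℝ} (h0 : 0 ≤ h)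
    (hm : ∀ l e (S : Rw → Prop) v, P0.p v ≠ 0 →
      P0.ce Z0 (fun v' => ind (∃ ρ, lb' ρ = lb (X v') (Cp v') ∧ Po l (Cp v') ρ ∧ S ρ)) v ≤ h * (m l e (Cp v)).Pr S)
    {t : ℝ} (ht : 0 < t) (htu : Real.exp t * (h * (2 * mu)) ≤ t * u / 64) :
    PhT qc Pc u w ≤ 16 / t * Q.klc P0 L0 Z0 := by
  have hk : 0 ≤ Q.klc P0 L0 Z0 := klc_nonneg hac L0 Z0
  rcases (bg qc Pc u w).eq_empty_or_nonempty with h1 | h1
  · rw [PhT_bg, h1, sum_empty]
    positivity
  · have h2 := ghost_paid H hδ1 h1 hw (fam_of hF) hb hac hL0 hZ0 h0 hm ht.le htu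
    have h3 : PhT qc Pc u w ≤ ∑ l ∈ bg qc Pc u w, qc.Pr (Pc l w) := by
      rw [PhT_bg]
      exact sum_le_sum fun l _ => by linarith
    refine h3.trans ?_
    rw [div_mul_eq_mul_div, le_div_iff₀ ht]
    linarith

/-- **ONE CLASS** -/
theorem class_pay {κ0 ζ0 : Type*} (H : CH Q Q' π X L Z Cp lb qc I hi mid lo R0 δ mu f lb' Po own Ve Vs N B0 B1 k)
    (hδ1 : 0 < δ1) (hu : 0 ≤ u)
    (hF : ∀ w, Q'.p w ≠ 0 → Pcs qc I hi lo mu m f own R SS eta γ Ve Vs Pc δ1 u w)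
    {P0 : FP Om} (hac : Q.Ac P0) {L0 : Om → κ0} {Z0 : Om → ζ0}
    (hL0 : Fac (fun v => (L0 v, Z0 v)) (fun v => (lb (X v) (Cp v), Cp v))) (hZ0 : Fac Z0 Cp) {h : ℝ} (h0 : 0 ≤ h)
    (hm : ∀ l e (S : Rw → Prop) v, P0.p v ≠ 0 →
      P0.ce Z0 (fun v' => ind (∃ ρ, lb' ρ = lb (X v') (Cp v') ∧ Po l (Cp v') ρ ∧ S ρ)) v ≤ h * (m l e (Cp v)).Pr S)
    {t : ℝ} (ht : 0 < t) (htu : Real.exp t * (h * (2 * mu)) ≤ t * u / 64)
    {x : ℝ} (hx : x ≤ N * u / 32)
    (hy : 2 * (Fintype.card Lx * (B0 * B1 ^ k) * Real.exp (-x)) ≤ δ1 ^ k / 2) (hB0 : 0 ≤ B0) (hB1 : 0 ≤ B1) :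
    Q'.E (PhT qc Pc u) ≤ 16 / t * Q.klc P0 L0 Z0 +
      2 * Real.exp 1 * (Fintype.card Lx * (B0 * B1 ^ k) * Real.exp (-x) / (δ1 ^ k / 2)) := by
  have hk : 0 ≤ Q.klc P0 L0 Z0 := klc_nonneg hac L0 Z0
  have hb := Bad_le (m := m) (R := R) (u := u) H hδ1 hx hy hB0 hB1
  refine le_trans ?_ (add_le_add le_rfl hb)
  unfold FP.Pr
  rw [← FP.E_const Q' (16 / t * Q.klc P0 L0 Z0), ← FP.E_add]
  refine Q'.E_mono fun w hw => ?_
  by_cases h1 : Bad k Q X Cp lb I mid mu m f lb' Po R Ve Vs δ1 u (π w)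
  · rw [ind_of h1]
    have h2 := PhT_le_one hu (hF w hw)
    have h3 : 0 ≤ 16 / t * Q.klc P0 L0 Z0 := by positivity
    linarith
  · rw [ind_not h1, add_zero]
    exact phi_le H hδ1 hu hw (hF w hw) h1 hac hL0 hZ0 h0 hm ht htu

/-- **ONE POINT, A FAMILY** (e.g. from `GhoF.famA`, `u = 4 v`) -/
theorem phi_leF {κ0 ζ0 : Type*} (H : CH Q Q' π X L Z Cp lb qc I hi mid lo R0 δ mu f lb' Po own Ve Vs N B0 B1 k)
    (hδ1 : 0 < δ1) {w : Om'} (hw : Q'.p w ≠ 0) {J : Finset Lx}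
    (hF : Fam qc I hi lo mu m f own R SS eta γ Ve Vs Pc δ1 u J w)
    (hb : ¬ Bad k Q X Cp lb I mid mu m f lb' Po R Ve Vs δ1 u (π w))
    {P0 : FP Om} (hac : Q.Ac P0) {L0 : Om → κ0} {Z0 : Om → ζ0}
    (hL0 : Fac (fun v => (L0 v, Z0 v)) (fun v => (lb (X v) (Cp v), Cp v))) (hZ0 : Fac Z0 Cp) {h : ℝ} (h0 : 0 ≤ h)
    (hm : ∀ l e (S : Rw → Prop) v, P0.p v ≠ 0 →
      P0.ce Z0 (fun v' => ind (∃ ρ, lb' ρ = lb (X v') (Cp v') ∧ Po l (Cp v') ρ ∧ S ρ)) v ≤ h * (m l e (Cp v)).Pr S)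
    {t : ℝ} (ht : 0 < t) (htu : Real.exp t * (h * (2 * mu)) ≤ t * u / 64) :
    ∑ l ∈ J, qc.Pr (Pc l w) ≤ 16 / t * Q.klc P0 L0 Z0 := by
  have hk : 0 ≤ Q.klc P0 L0 Z0 := klc_nonneg hac L0 Z0
  rcases J.eq_empty_or_nonempty with h1 | h1
  · rw [h1, sum_empty]
    positivity
  · have h2 := ghost_paid H hδ1 h1 hw hF hb hac hL0 hZ0 h0 hm ht.le htu
    rw [div_mul_eq_mul_div, le_div_iff₀ ht]
    linarith

theorem fam_one {w : Om'} {J : Finset Lx} (hF : Fam qc I hi lo mu m f own R SS eta γ Ve Vs Pc δ1 u J w) :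
    ∑ l ∈ J, qc.Pr (Pc l w) ≤ 1 := by
  unfold FP.Pr
  rw [← qc.E_sum]
  refine qc.E_le_const fun c hc => ?_
  exact (sum_ind_le J (fun l => Pc l w c) fun l hl l' hl' hne hP => hF.dj l hl l' hl' hne c hc hP).trans (ind_le_one _)

/-- **ONE CLASS, FAMILIES** -/
theorem class_payF {κ0 ζ0 : Type*} (H : CH Q Q' π X L Z Cp lb qc I hi mid lo R0 δ mu f lb' Po own Ve Vs N B0 B1 k)
    (hδ1 : 0 < δ1) {J : Om' → Finset Lx}
    (hF : ∀ w, Q'.p w ≠ 0 → Fam qc I hi lo mu m f own R SS eta γ Ve Vs Pc δ1 u (J w) w)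
    {Phi : Om' → ℝ} (hPhi : ∀ w, Q'.p w ≠ 0 → Phi w ≤ ∑ l ∈ J w, qc.Pr (Pc l w))
    {P0 : FP Om} (hac : Q.Ac P0) {L0 : Om → κ0} {Z0 : Om → ζ0}
    (hL0 : Fac (fun v => (L0 v, Z0 v)) (fun v => (lb (X v) (Cp v), Cp v))) (hZ0 : Fac Z0 Cp) {h : ℝ} (h0 : 0 ≤ h)
    (hm : ∀ l e (S : Rw → Prop) v, P0.p v ≠ 0 →
      P0.ce Z0 (fun v' => ind (∃ ρ, lb' ρ = lb (X v') (Cp v') ∧ Po l (Cp v') ρ ∧ S ρ)) v ≤ h * (m l e (Cp v)).Pr S)
    {t : ℝ} (ht : 0 < t) (htu : Real.exp t * (h * (2 * mu)) ≤ t * u / 64)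
    {x : ℝ} (hx : x ≤ N * u / 32)
    (hy : 2 * (Fintype.card Lx * (B0 * B1 ^ k) * Real.exp (-x)) ≤ δ1 ^ k / 2) (hB0 : 0 ≤ B0) (hB1 : 0 ≤ B1) :
    Q'.E Phi ≤ 16 / t * Q.klc P0 L0 Z0 +
      2 * Real.exp 1 * (Fintype.card Lx * (B0 * B1 ^ k) * Real.exp (-x) / (δ1 ^ k / 2)) := by
  have hk : 0 ≤ Q.klc P0 L0 Z0 := klc_nonneg hac L0 Z0
  have hb := Bad_le (m := m) (R := R) (u := u) H hδ1 hx hy hB0 hB1
  refine le_trans ?_ (add_le_add le_rfl hb)
  unfold FP.Pr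
  rw [← FP.E_const Q' (16 / t * Q.klc P0 L0 Z0), ← FP.E_add]
  refine Q'.E_mono fun w hw => (hPhi w hw).trans ?_
  by_cases h1 : Bad k Q X Cp lb I mid mu m f lb' Po R Ve Vs δ1 u (π w)
  · rw [ind_of h1]
    have h2 := fam_one (hF w hw)
    have h3 : 0 ≤ 16 / t * Q.klc P0 L0 Z0 := by positivity
    linarith
  · rw [ind_not h1, add_zero]
    exact phi_leF H hδ1 hw (hF w hw) h1 hac hL0 hZ0 h0 hm ht htu

end one

/-! ## one class of the process -/

section run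

variable {K X β γ φ υ υ0 : Type} [Fintype K] [DecidableEq K] [Fintype X] [Fintype β] [Fintype φ] [Nonempty X] [Nonempty β]
  {D : HD K X β γ φ} {al : ℝ} {h : D.Thick al} {U : Finset K → X → (K → β) → υ} {t τ : ℕ} {j : K}
variable {ι Γ Ee Lx Dk Om' : Type} [Fintype Lx] [DecidableEq Lx] [Fintype Dk] [Fintype Om']

/-- **ONE CLASS OF THE PROCESS** (`w0` = a point of the class of the time `t`, `Uo`, `τ` = old class) -/
theorem class_run {Uo : Finset K → X → (K → β) → υ0}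
    (hUo : ∀ I x y y', (∀ j ∈ I, y j = y' j) → (∀ j, D.qb τ (y j) = D.qb τ (y' j)) → Uo I x y = Uo I x y')
    (hK2 : ∀ l : K, ¬ univ.erase l ⊆ ∅) {υ1 : Type} {T1 : X → (K → β) → υ1} (hT : DepT D τ j T1) {w0 : Pt K X β φ}
    (hw0 : (D.P h t).p w0 ≠ 0) (hsub : ∀ v, xc D U t ∅ w0 v → xc D Uo τ ∅ w0 v) {Q' : FP Om'} {π : Om' → Pt K X β φ}
    {I : Finset ι} {hi mid lw : ι → ℝ} {R0 δ mu B0 B1 N' : ℝ} {k : ℕ} {f : ι → Lx → Ee → β → X × φ → Dk → Γ → ℝ}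
    {own : Lx → Om' → β → X × φ} {Ve : Lx → Finset Ee} {Vs : Lx → Dk → Finset Γ} (i : K) (yy : Lx → β → K → β)
    (κ : Lx → Ee → β → X → FP φ) (hκ : ∀ l e c x F, PoR D τ i w0.1 (yy l c) (x, F) → al ≤ (κ l e c x).p F)
    (H : CH ((D.P h t).cond (xc D U t ∅ w0)) Q' π (Xt D τ)
      (LL U {j}) (fun w => (lo (LL U) {j} w, BB D t {j} w)) (fun w => w.2.1 j) (lbT D τ j T1)
      (img ((D.P h t).cond (xc D U t ∅ w0)) fun w => w.2.1 j) I hi mid lw R0 δ mu f Prod.fst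
      (fun l c ρ => PoR D τ i w0.1 (yy l c) ρ) own Ve Vs N' B0 B1 k)
    {R : Lx → FP Dk} {SS : Lx → Om' → Dk → Prop} {eta : Lx → Om' → Ee} {γk : Lx → Om' → Dk → Γ}
    {Pc : Lx → Om' → β → Prop} {δ1 u : ℝ} (hδ1 : 0 < δ1) (hu : 0 ≤ u)
    (hF : ∀ w, Q'.p w ≠ 0 → Pcs (img ((D.P h t).cond (xc D U t ∅ w0)) fun w => w.2.1 j) I hi lw mu
      (fun l e c => rowq ((D.P h t).cond (xc D Uo τ ∅ w0)) D τ j T1 (κ l e c) c) f own R SS eta γk Ve Vs Pc δ1 u w)
    {t' : ℝ} (ht : 0 < t') (htu : Real.exp t' * (1 / al * (2 * mu)) ≤ t' * u / 64)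
    {x : ℝ} (hx : x ≤ N' * u / 32)
    (hy : 2 * (Fintype.card Lx * (B0 * B1 ^ k) * Real.exp (-x)) ≤ δ1 ^ k / 2) (hB0 : 0 ≤ B0) (hB1 : 0 ≤ B1) :
    Q'.E (PhT (img ((D.P h t).cond (xc D U t ∅ w0)) fun w => w.2.1 j) Pc u) ≤
      16 / t' * ((D.P h t).cond (xc D U t ∅ w0)).klc ((D.P h t).cond (xc D Uo τ ∅ w0)) (fun v => T1 v.1 v.2.1)
        (fun v => (v.2.1 j, nd D τ v)) +
      2 * Real.exp 1 * (Fintype.card Lx * (B0 * B1 ^ k) * Real.exp (-x) / (δ1 ^ k / 2)) := by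
  refine class_pay H hδ1 hu hF (ac_run hw0 hsub) ?_ ?_ (h := 1 / al) ?_ ?_ ht htu hx hy hB0 hB1
  · intro v v' hv
    have h1 : (T1 v.1 v.2.1, (v.2.1 j, nd D τ v)) = (T1 v'.1 v'.2.1, (v'.2.1 j, nd D τ v')) := hv
    have h2 := (Prod.mk.inj h1).1
    have h3 := (Prod.mk.inj (Prod.mk.inj h1).2).1
    have h4 := (Prod.mk.inj (Prod.mk.inj h1).2).2
    show (lbT D τ j T1 (Xt D τ v) (v.2.1 j), v.2.1 j) = (lbT D τ j T1 (Xt D τ v') (v'.2.1 j), v'.2.1 j)
    rw [lbT_congr hT h2 h4 h3, h3]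
  · intro v v' hv
    exact (Prod.mk.inj (show (v.2.1 j, nd D τ v) = (v'.2.1 j, nd D τ v') from hv)).1
  · have := h.pos
    positivity
  · intro l e A v hv
    exact hm_run (P0_indep hUo hK2 hw0) (fun v hv => P0_node hw0 hv) i yy l _ A v hv h.pos (hκ l e _)

/-- **ONE CLASS OF THE PROCESS, FAMILIES** -/
theorem class_runF {Uo : Finset K → X → (K → β) → υ0}
    (hUo : ∀ I x y y', (∀ j ∈ I, y j = y' j) → (∀ j, D.qb τ (y j) = D.qb τ (y' j)) → Uo I x y = Uo I x y')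
    (hK2 : ∀ l : K, ¬ univ.erase l ⊆ ∅) {υ1 : Type} {T1 : X → (K → β) → υ1} (hT : DepT D τ j T1) {w0 : Pt K X β φ}
    (hw0 : (D.P h t).p w0 ≠ 0) (hsub : ∀ v, xc D U t ∅ w0 v → xc D Uo τ ∅ w0 v) {Q' : FP Om'} {π : Om' → Pt K X β φ}
    {I : Finset ι} {hi mid lw : ι → ℝ} {R0 δ mu B0 B1 N' : ℝ} {k : ℕ} {f : ι → Lx → Ee → β → X × φ → Dk → Γ → ℝ}
    {own : Lx → Om' → β → X × φ} {Ve : Lx → Finset Ee} {Vs : Lx → Dk → Finset Γ} (i : K) (yy : Lx → β → K → β)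
    (κ : Lx → Ee → β → X → FP φ) (hκ : ∀ l e c x F, PoR D τ i w0.1 (yy l c) (x, F) → al ≤ (κ l e c x).p F)
    (H : CH ((D.P h t).cond (xc D U t ∅ w0)) Q' π (Xt D τ)
      (LL U {j}) (fun w => (lo (LL U) {j} w, BB D t {j} w)) (fun w => w.2.1 j) (lbT D τ j T1)
      (img ((D.P h t).cond (xc D U t ∅ w0)) fun w => w.2.1 j) I hi mid lw R0 δ mu f Prod.fst
      (fun l c ρ => PoR D τ i w0.1 (yy l c) ρ) own Ve Vs N' B0 B1 k)
    {R : Lx → FP Dk} {SS : Lx → Om' → Dk → Prop} {eta : Lx → Om' → Ee} {γk : Lx → Om' → Dk → Γ}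
    {Pc : Lx → Om' → β → Prop} {δ1 u : ℝ} (hδ1 : 0 < δ1) {J : Om' → Finset Lx}
    (hF : ∀ w, Q'.p w ≠ 0 → Fam (img ((D.P h t).cond (xc D U t ∅ w0)) fun w => w.2.1 j) I hi lw mu
      (fun l e c => rowq ((D.P h t).cond (xc D Uo τ ∅ w0)) D τ j T1 (κ l e c) c) f own R SS eta γk Ve Vs Pc δ1 u
        (J w) w)
    {Phi : Om' → ℝ} (hPhi : ∀ w, Q'.p w ≠ 0 → Phi w ≤ ∑ l ∈ J w,
      (img ((D.P h t).cond (xc D U t ∅ w0)) fun w => w.2.1 j).Pr (Pc l w))
    {t' : ℝ} (ht : 0 < t') (htu : Real.exp t' * (1 / al * (2 * mu)) ≤ t' * u / 64)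
    {x : ℝ} (hx : x ≤ N' * u / 32)
    (hy : 2 * (Fintype.card Lx * (B0 * B1 ^ k) * Real.exp (-x)) ≤ δ1 ^ k / 2) (hB0 : 0 ≤ B0) (hB1 : 0 ≤ B1) :
    Q'.E Phi ≤
      16 / t' * ((D.P h t).cond (xc D U t ∅ w0)).klc ((D.P h t).cond (xc D Uo τ ∅ w0)) (fun v => T1 v.1 v.2.1)
        (fun v => (v.2.1 j, nd D τ v)) +
      2 * Real.exp 1 * (Fintype.card Lx * (B0 * B1 ^ k) * Real.exp (-x) / (δ1 ^ k / 2)) := by
  refine class_payF H hδ1 hF hPhi (ac_run hw0 hsub) ?_ ?_ (h := 1 / al) ?_ ?_ ht htu hx hy hB0 hB1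
  · intro v v' hv
    have h1 : (T1 v.1 v.2.1, (v.2.1 j, nd D τ v)) = (T1 v'.1 v'.2.1, (v'.2.1 j, nd D τ v')) := hv
    have h2 := (Prod.mk.inj h1).1
    have h3 := (Prod.mk.inj (Prod.mk.inj h1).2).1
    have h4 := (Prod.mk.inj (Prod.mk.inj h1).2).2
    show (lbT D τ j T1 (Xt D τ v) (v.2.1 j), v.2.1 j) = (lbT D τ j T1 (Xt D τ v') (v'.2.1 j), v'.2.1 j)
    rw [lbT_congr hT h2 h4 h3, h3]
  · intro v v' hv
    exact (Prod.mk.inj (show (v.2.1 j, nd D τ v) = (v'.2.1 j, nd D τ v') from hv)).1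
  · have := h.pos
    positivity
  · intro l e A v hv
    exact hm_run (P0_indep hUo hK2 hw0) (fun v hv => P0_node hw0 hv) i yy l _ A v hv h.pos (hκ l e _)

end run

/-! ## all classes -/

section glob

variable {Om : Type*} [Fintype Om] {P : FP Om}

/-- **ALL CLASSES** : `A1` = class at the end, `A0` = old class, `X` = letter, `C` = known -/
theorem glob {α α' κ μ : Type*} {A0 : Om → α} {A1 : Om → α'} (X : Om → κ) (C : Om → μ) (h01 : Fac A1 A0)
    {B : Om → Prop} (hB : Fac A1 B) {Phi : Om → ℝ} {c del : ℝ}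
    (h : ∀ w, P.p w ≠ 0 → B w → (P.cond fun v => A1 v = A1 w).E Phi ≤
      c * (P.cond fun v => A1 v = A1 w).klc (P.cond fun v => A0 v = A0 w) X C + del) :
    P.E (fun w => ind (B w) * Phi w) ≤ c * P.E (fun w => ind (B w) * (sp P X (fun u => (C u, A0 u)) w -
      sp P X (fun u => (C u, A1 u)) w)) + del * P.Pr B := by
  have hf : Fac A1 fun w => ind (B w) := Fac.ind fun v w e => by rw [hB v w e]
  set g : Om → ℝ := fun w => sp P X (fun u => (C u, A0 u)) w - sp P X (fun u => (C u, A1 u)) w with hg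
  rw [← P.E_mul_ce hf Phi, ← P.E_mul_ce hf g]
  unfold FP.Pr
  rw [← P.E_smul, ← P.E_smul, ← P.E_add]
  refine P.E_mono fun w hw => ?_
  by_cases hb : B w
  · have h1 := h w hw hb
    rw [klc_gain X C h01 hw] at h1
    rw [P.ce_eq_cond A1 Phi hw, P.ce_eq_cond A1 g hw, ind_of hb]
    linarith
  · rw [ind_not hb]
    linarith

/-- **ALL ENDS** (`e' t` = ends of this kind at the time `t`, a part of the ends `e t` of the epochs): `S t` = letter and
`A t` = (exact point, class) of the time `t`; `h` = the result of `glob` for the ends at `t` of the epochs with start `s` -/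
theorem glob_sum {κ ι : ℕ → Type*} {A : ∀ t, Om → ι t} {S : ∀ t, Om → κ t} (hA : Filt A)
    (hT : ∀ t, Fac (fun w => (S (t + 1) w, A (t + 1) w)) (S t)) {e e' : ℕ → Om → Prop}
    (he : ∀ t, Fac (A t) (e t)) (he' : ∀ t, Fac (A t) (e' t)) (hee : ∀ t w, e' t w → e t w) {Phi : ℕ → Om → ℝ}
    {c del : ℝ} (hc : 0 ≤ c)
    (h : ∀ t, ∀ s ≤ t, P.E (fun w => ind (e' t w ∧ st e t w = s) * Phi t w) ≤
      c * P.E (fun w => ind (e' t w ∧ st e t w = s) * (sp P (S s) (A s) w - sp P (S s) (A t) w)) +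
        del * P.Pr (fun w => e' t w ∧ st e t w = s)) (n : ℕ) :
    ∑ t ∈ range (n + 1), P.E (fun w => ind (e' t w) * Phi t w) ≤
      c * (P.Hc (S 0) (A 0) + ∑ t ∈ range n, P.Hc (S (t + 1)) (fun w => (S t w, A (t + 1) w))) +
        del * ∑ t ∈ range (n + 1), P.Pr (e' t) := by
  have h1 := mul_le_mul_of_nonneg_left (part_le (P := P) (T := S) (A := A) (e := e) hA hT he he' hee n) hc
  have e1 : ∀ (t : ℕ) (g : Om → ℝ), P.E (fun w => ind (e' t w) * g w) =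
      ∑ s ∈ range (t + 1), P.E (fun w => ind (e' t w ∧ st e t w = s) * g w) := by
    intro t g
    rw [← P.E_sum]
    refine P.E_congr fun w _ => ?_
    have e2 : ∀ s ∈ range (t + 1), ind (e' t w ∧ st e t w = s) * g w = ind (st e t w = s) * (ind (e' t w) * g w) := by
      intro s _
      rw [ind_and]
      ring
    rw [sum_congr rfl e2]
    exact (sum_st (st_le e t w) fun _ => ind (e' t w) * g w).symm
  have e3 : ∀ t, P.E (fun w => ind (e' t w) * gn P e S A t w) =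
      ∑ s ∈ range (t + 1), P.E (fun w => ind (e' t w ∧ st e t w = s) * (sp P (S s) (A s) w - sp P (S s) (A t) w)) := by
    intro t
    rw [e1 t]
    refine sum_congr rfl fun s _ => P.E_congr fun w _ => ?_
    by_cases hs : e' t w ∧ st e t w = s
    · rw [ind_of hs, one_mul, one_mul, gn_eq, hs.2]
    · rw [ind_not hs, zero_mul, zero_mul]
  have e4 : ∀ t, P.Pr (e' t) = ∑ s ∈ range (t + 1), P.Pr (fun w => e' t w ∧ st e t w = s) := by
    intro t
    have := e1 t fun _ => 1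
    simp only [mul_one] at this
    exact this
  have h2 : ∑ t ∈ range (n + 1), P.E (fun w => ind (e' t w) * Phi t w) ≤
      c * ∑ t ∈ range (n + 1), P.E (fun w => ind (e' t w) * gn P e S A t w) +
        del * ∑ t ∈ range (n + 1), P.Pr (e' t) := by
    rw [mul_sum, mul_sum, ← sum_add_distrib]
    refine sum_le_sum fun t _ => ?_
    rw [e1 t, e3 t, e4 t, mul_sum, mul_sum, ← sum_add_distrib]
    exact sum_le_sum fun s hs => h t s (Nat.lt_succ_iff.1 (mem_range.1 hs))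
  linarith

end glob

/-! ## the run with tables -/

section tab

open Pool.Agent.GMH.Dy (Om Tab pul_pt)

variable {X β γ φ υ : Type} [Fintype X] [Fintype β] [Fintype φ] [Nonempty X] [Nonempty β]
variable {D : HD (Fin 3) X β γ φ} {al : ℝ} {h : D.Thick al} {prr : ℕ → Fin 3 → φ → φ} {T : ℕ} {W : Type} [Fintype W]
variable {tb : Tab D prr T W} {v : ℕ → Finset (Fin 3) → X → (Fin 3 → β) → υ} {j : Fin 3}

/-- public class of the time `t` -/
def cl (D : HD (Fin 3) X β γ φ) (v : ℕ → Finset (Fin 3) → X → (Fin 3 → β) → υ) (t : ℕ) (w : Om W X β) :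
    List υ × (γ × (Fin 3 → γ)) :=
  (Um v (t + 1) ∅ w.1 w.2.2, (D.qa t w.1, fun i => D.qb t (w.2.2 i)))

/-- thin letter of the vertex `j` at the time `t` -/
def lt (v : ℕ → Finset (Fin 3) → X → (Fin 3 → β) → υ) (j : Fin 3) (t : ℕ) (w : Om W X β) : List υ :=
  Um v (t + 1) {j} w.1 w.2.2

/-- exact point and public class -/
def Ax (D : HD (Fin 3) X β γ φ) (v : ℕ → Finset (Fin 3) → X → (Fin 3 → β) → υ) (j : Fin 3) (t : ℕ) (w : Om W X β) :
    β × (List υ × (γ × (Fin 3 → γ))) := (w.2.2 j, cl D v t w)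

theorem noTop {J : Finset (Fin 3)} (hJ : J ⊆ {j}) (l : Fin 3) : ¬ univ.erase l = J := by
  intro h
  have h1 := Finset.card_le_card hJ
  rw [← h, Finset.card_erase_of_mem (mem_univ l), Finset.card_univ, Fintype.card_fin, Finset.card_singleton] at h1
  omega

theorem cl_eq {t : ℕ} {w w' : Om W X β} : cl D v t w = cl D v t w' ↔ Um v (t + 1) ∅ w.1 w.2.2 = Um v (t + 1) ∅ w'.1 w'.2.2 ∧
    D.qa t w.1 = D.qa t w'.1 ∧ ∀ i, D.qb t (w.2.2 i) = D.qb t (w'.2.2 i) := by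
  unfold cl
  rw [Prod.mk.injEq, Prod.mk.injEq, funext_iff]

theorem cl_filt : Filt fun t => cl (W := W) D v t := by
  intro t w w' e
  have h1 := cl_eq.1 e
  refine cl_eq.2 ⟨(Um_eq.1 h1.1).1, D.ra t _ _ h1.2.1, fun i => D.rb t _ _ (h1.2.2 i)⟩

theorem Ax_filt : Filt fun t => Ax (W := W) D v j t := by
  intro t w w' e
  have e' : (w.2.2 j, cl D v (t + 1) w) = (w'.2.2 j, cl D v (t + 1) w') := e
  have h1 := Prod.mk.inj e'
  have h2 : cl D v t w = cl D v t w' := cl_filt t w w' h1.2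
  show (w.2.2 j, cl D v t w) = (w'.2.2 j, cl D v t w')
  rw [h1.1, h2]

theorem lt_old (t : ℕ) : Fac (fun w => (lt (W := W) v j (t + 1) w, Ax D v j (t + 1) w)) (lt v j t) := by
  intro w w' e
  have h1 := (Prod.mk.inj (show (lt v j (t + 1) w, Ax D v j (t + 1) w) = (lt v j (t + 1) w', Ax D v j (t + 1) w') from
    e)).1
  exact (Um_eq.1 h1).1

/-- the class of `pt t w` is the public class -/
theorem xc_iff {t : ℕ} {w w' : Om W X β} :
    xc D (Um v (t + 1)) t ∅ (tb.pt t w) (tb.pt t w') ↔ cl D v t w' = cl D v t w := by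
  rw [cl_eq]
  unfold xc
  rw [le_eq, BB_eq]
  constructor
  · rintro ⟨h1, -, h2, h3⟩
    exact ⟨(LL_eq.1 (h1 ∅ (Finset.Subset.refl _))).1, h2, h3⟩
  · rintro ⟨h1, h2, h3⟩
    refine ⟨fun I hI => ?_, fun i hi => absurd hi (Finset.notMem_empty i), h2, h3⟩
    have hI0 : I = ∅ := Finset.subset_empty.1 hI
    subst hI0
    exact LL_eq.2 ⟨h1, fun l hl => absurd hl (noTop (j := 0) (Finset.empty_subset _) l)⟩

/-- the class of the time `s` of a point of the time `t` -/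
theorem xc_iff' {s t : ℕ} {w w' : Om W X β} :
    xc D (Um v (s + 1)) s ∅ (tb.pt t w) (tb.pt t w') ↔ cl D v s w' = cl D v s w := by
  rw [cl_eq]
  unfold xc
  rw [le_eq, BB_eq]
  constructor
  · rintro ⟨h1, -, h2, h3⟩
    exact ⟨(LL_eq.1 (h1 ∅ (Finset.Subset.refl _))).1, h2, h3⟩
  · rintro ⟨h1, h2, h3⟩
    refine ⟨fun I hI => ?_, fun i hi => absurd hi (Finset.notMem_empty i), h2, h3⟩
    have hI0 : I = ∅ := Finset.subset_empty.1 hI
    subst hI0
    exact LL_eq.2 ⟨h1, fun l hl => absurd hl (noTop (j := 0) (Finset.empty_subset _) l)⟩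

/-- cost of the letter at one time -/
theorem cost_ge {t : ℕ} (ht : t + 1 ≤ T) :
    tb.Ps.Hc (lt v j (t + 1)) (fun w => (lt v j t w, Ax D v j (t + 1) w)) ≤ cst h v (t + 1) {j} := by
  have hP := pul_pt h tb ht
  have e1 : cst h v (t + 1) {j} = tb.Ps.Hc (fun w => v (t + 1) {j} w.1 w.2.2)
      (fun w => (lo (Vt v (t + 1)) {j} (tb.pt (t + 1) w), le (LL (Um v (t + 1))) {j} (tb.pt (t + 1) w),
        BB D (t + 1) {j} (tb.pt (t + 1) w))) := by
    unfold cst cost FP.Hc FP.H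
    congr 1
    · rw [← hP.E]
      refine tb.Ps.E_congr fun w _ => ?_
      rw [← hP.m (fun w => (Vt v (t + 1) {j} w, (lo (Vt v (t + 1)) {j} w, le (LL (Um v (t + 1))) {j} w,
        BB D (t + 1) {j} w))) w]
      rfl
    · rw [← hP.E]
      refine tb.Ps.E_congr fun w _ => ?_
      rw [← hP.m (fun w => (lo (Vt v (t + 1)) {j} w, le (LL (Um v (t + 1))) {j} w, BB D (t + 1) {j} w)) w]
  rw [e1]
  have h1 : tb.Ps.Hc (lt v j (t + 1)) (fun w => (lt v j t w, Ax D v j (t + 1) w)) ≤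
      tb.Ps.Hc (fun w => v (t + 1) {j} w.1 w.2.2) (fun w => (lt v j t w, Ax D v j (t + 1) w)) := by
    refine tb.Ps.Hc_mono _ ?_
    intro w w' e
    have e' := Prod.mk.inj (show (v (t + 1) {j} w.1 w.2.2, (lt v j t w, Ax D v j (t + 1) w)) =
      (v (t + 1) {j} w'.1 w'.2.2, (lt v j t w', Ax D v j (t + 1) w')) from e)
    have e2 := (Prod.mk.inj e'.2).1
    exact Um_eq.2 ⟨e2, e'.1⟩
  refine h1.trans (tb.Ps.Hc_anti _ ?_)
  intro w w' e
  have e' := Prod.mk.inj (show (lt v j t w, Ax D v j (t + 1) w) = (lt v j t w', Ax D v j (t + 1) w') from e)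
  have e2 := Prod.mk.inj (show (w.2.2 j, cl D v (t + 1) w) = (w'.2.2 j, cl D v (t + 1) w') from e'.2)
  have e3 := cl_eq.1 e2.2
  have e4 := Um_eq.1 e3.1
  have h2 : lo (Vt v (t + 1)) {j} (tb.pt (t + 1) w) = lo (Vt v (t + 1)) {j} (tb.pt (t + 1) w') := by
    rw [lo_eq]
    intro I hI
    have hI0 : I = ∅ := Finset.ssubset_singleton_iff.1 hI
    subst hI0
    exact e4.2
  have h3 : le (LL (Um v (t + 1))) {j} (tb.pt (t + 1) w) = le (LL (Um v (t + 1))) {j} (tb.pt (t + 1) w') := by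
    rw [le_eq]
    intro I hI
    refine LL_eq.2 ⟨?_, fun l hl => absurd hl (noTop hI l)⟩
    rcases Finset.subset_singleton_iff.1 hI with hI0 | hI0
    · subst hI0
      exact e4.1
    · subst hI0
      exact e'.1
  have h4 : BB D (t + 1) {j} (tb.pt (t + 1) w) = BB D (t + 1) {j} (tb.pt (t + 1) w') := by
    rw [BB_eq]
    refine ⟨fun i hi => ?_, e3.2⟩
    rw [Finset.mem_singleton.1 hi]
    exact e2.1
  show (lo (Vt v (t + 1)) {j} (tb.pt (t + 1) w), le (LL (Um v (t + 1))) {j} (tb.pt (t + 1) w),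
    BB D (t + 1) {j} (tb.pt (t + 1) w)) = _
  rw [h2, h3, h4]

theorem cost_ge0 : tb.Ps.Hc (lt v j 0) (Ax D v j 0) ≤ cst h v 0 {j} := by
  have hP := pul_pt h tb (Nat.zero_le T)
  have e1 : cst h v 0 {j} = tb.Ps.Hc (fun w => v 0 {j} w.1 w.2.2)
      (fun w => (lo (Vt v 0) {j} (tb.pt 0 w), le (LL (Um v 0)) {j} (tb.pt 0 w), BB D 0 {j} (tb.pt 0 w))) := by
    unfold cst cost FP.Hc FP.H
    congr 1
    · rw [← hP.E]
      refine tb.Ps.E_congr fun w _ => ?_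
      rw [← hP.m (fun w => (Vt v 0 {j} w, (lo (Vt v 0) {j} w, le (LL (Um v 0)) {j} w, BB D 0 {j} w))) w]
      rfl
    · rw [← hP.E]
      refine tb.Ps.E_congr fun w _ => ?_
      rw [← hP.m (fun w => (lo (Vt v 0) {j} w, le (LL (Um v 0)) {j} w, BB D 0 {j} w)) w]
  rw [e1]
  have h1 : tb.Ps.Hc (lt v j 0) (Ax D v j 0) ≤ tb.Ps.Hc (fun w => v 0 {j} w.1 w.2.2) (Ax D v j 0) := by
    refine tb.Ps.Hc_mono _ ?_
    intro w w' e
    have e' := Prod.mk.inj (show (v 0 {j} w.1 w.2.2, Ax D v j 0 w) = (v 0 {j} w'.1 w'.2.2, Ax D v j 0 w') from e)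
    exact Um_eq.2 ⟨rfl, e'.1⟩
  refine h1.trans (tb.Ps.Hc_anti _ ?_)
  intro w w' e
  have e2 := Prod.mk.inj (show (w.2.2 j, cl D v 0 w) = (w'.2.2 j, cl D v 0 w') from e)
  have e3 := cl_eq.1 e2.2
  have e4 := Um_eq.1 e3.1
  have h2 : lo (Vt v 0) {j} (tb.pt 0 w) = lo (Vt v 0) {j} (tb.pt 0 w') := by
    rw [lo_eq]
    intro I hI
    have hI0 : I = ∅ := Finset.ssubset_singleton_iff.1 hI
    subst hI0
    exact e4.2
  have h3 : le (LL (Um v 0)) {j} (tb.pt 0 w) = le (LL (Um v 0)) {j} (tb.pt 0 w') := by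
    rw [le_eq]
    intro I hI
    exact LL_eq.2 ⟨rfl, fun l hl => absurd hl (noTop hI l)⟩
  have h4 : BB D 0 {j} (tb.pt 0 w) = BB D 0 {j} (tb.pt 0 w') := by
    rw [BB_eq]
    refine ⟨fun i hi => ?_, e3.2⟩
    rw [Finset.mem_singleton.1 hi]
    exact e2.1
  show (lo (Vt v 0) {j} (tb.pt 0 w), le (LL (Um v 0)) {j} (tb.pt 0 w), BB D 0 {j} (tb.pt 0 w)) = _
  rw [h2, h3, h4]

/-- relative entropy of the thin letter of the time `s`, class of the time `t` of `w` against its old class -/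
def kc (h : D.Thick al) (v : ℕ → Finset (Fin 3) → X → (Fin 3 → β) → υ) (j : Fin 3) (tb : Tab D prr T W) (s t : ℕ)
    (w : Om W X β) : ℝ :=
  ((D.P h t).cond (xc D (Um v (t + 1)) t ∅ (tb.pt t w))).klc ((D.P h t).cond (xc D (Um v (s + 1)) s ∅ (tb.pt t w)))
    (fun u => Um v (s + 1) {j} u.1 u.2.1) (fun u => (u.2.1 j, nd D s u))

/-- the class law with tables -/
def Qc (tb : Tab D prr T W) (v : ℕ → Finset (Fin 3) → X → (Fin 3 → β) → υ) (t : ℕ) (w : Om W X β) : FP (Om W X β) :=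
  tb.Ps.cond fun u => cl D v t u = cl D v t w

theorem Qc_pul {t : ℕ} (ht : t ≤ T) {w : Om W X β} (hw : tb.Ps.p w ≠ 0) :
    Pul (Qc tb v t w) ((D.P h t).cond (xc D (Um v (t + 1)) t ∅ (tb.pt t w))) (tb.pt t) := by
  have hP := pul_pt h tb ht
  have h1 := pul_cond hP (E := xc D (Um v (t + 1)) t ∅ (tb.pt t w)) (xc_ne (hP.ne hw))
  have e : (fun u => xc D (Um v (t + 1)) t ∅ (tb.pt t w) (tb.pt t u)) = fun u => cl D v t u = cl D v t w :=
    funext fun u => propext xc_iff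
  rw [e] at h1
  exact h1

theorem kc_eq {s t : ℕ} (ht : t ≤ T) {w : Om W X β} (hw : tb.Ps.p w ≠ 0) :
    kc h v j tb s t w = (tb.Ps.cond fun u => cl D v t u = cl D v t w).klc (tb.Ps.cond fun u => cl D v s u = cl D v s w)
      (lt v j s) (fun u => (u.2.2 j, (D.qa s u.1, fun i => D.qb s (u.2.2 i)))) := by
  have hP := pul_pt h tb ht
  have h1 := Qc_pul (v := v) (h := h) ht hw
  have h2 := pul_cond hP (E := xc D (Um v (s + 1)) s ∅ (tb.pt t w))
    (FP.Pr_pos_of (hP.ne hw) (xc_self (Um v (s + 1)) s ∅ (tb.pt t w))).ne'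
  have e : (fun u => xc D (Um v (s + 1)) s ∅ (tb.pt t w) (tb.pt t u)) = fun u => cl D v s u = cl D v s w :=
    funext fun u => propext xc_iff'
  rw [e] at h2
  exact (pul_klc h1 h2 (fun u => Um v (s + 1) {j} u.1 u.2.1) (fun u => (u.2.1 j, nd D s u))).symm

/-- the codes of the times `≤ t` as a class function -/
theorem Um_dep (hv : Codes D v) (t : ℕ) : ∀ I x y y', (∀ i ∈ I, y i = y' i) → (∀ i, D.qb t (y i) = D.qb t (y' i)) →
    Um v (t + 1) I x y = Um v (t + 1) I x y' := by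
  intro I x y y' h1 h2
  unfold Um
  rw [List.map_inj_left]
  intro s hs
  have hst : s ≤ t := Nat.lt_succ_iff.1 (List.mem_range.1 hs)
  exact hv s I x y y' h1 fun i => qb_mono D hst (h2 i)

/-- **ONE CLASS WITH TABLES AND COINS** : `Θ` = coin tables; all data may depend on the point of the class and the coins;
`s` = start of the epoch, `t` = end, `j` = the vertex `c`, `i` = the top letter of the rows -/
theorem class_tab {N : Finset (Fin 3) → ℝ} {S : Finset (Finset (Fin 3))} (hv : Codes D v) {s t : ℕ} (hst : s ≤ t)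
    (ht : t ≤ T) (hs : SatA (D.P h t) (BB D t) N S (LL (Um v (t + 1))) (Dep D t)) (hN : ∀ J ∈ S, 0 ≤ N J)
    (hKS : ∅ ∈ S) (hN0 : 0 < N ∅) (hjS : {j} ∈ S) {w0 : Om W X β} (hw0 : tb.Ps.p w0 ≠ 0)
    {ι Γ Ee Lx Dk Θ : Type} [Fintype Lx] [DecidableEq Lx] [Fintype Dk] [Fintype Θ] (Tw : FP Θ)
    {I : Finset ι} {hi mid lw : ι → ℝ} {R0 δ mu B0 B1 : ℝ} {k : ℕ} {f : ι → Lx → Ee → β → X × φ → Dk → Γ → ℝ}
    {own : Lx → Om W X β × Θ → β → X × φ} {Ve : Lx → Finset Ee} {Vs : Lx → Dk → Finset Γ} (i : Fin 3)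
    (yy : Lx → β → Fin 3 → β) (κ : Lx → Ee → β → X → FP φ)
    (hκ : ∀ l e c x F, PoR D s i w0.1 (yy l c) (x, F) → al ≤ (κ l e c x).p F)
    (hR : 0 < R0) (hδ : 0 ≤ δ) (hf : ∀ i l e c ρ d g, |f i l e c ρ d g| ≤ R0) (h1 : ∀ i ∈ I, mid i + δ ≤ hi i)
    (h2 : ∀ i ∈ I, lw i + δ ≤ mid i) (hmu : 0 < mu)
    (hk : (I.card + 1 / mu) * Real.exp (-(k * δ ^ 2 / (8 * R0 ^ 2))) ≤ 1 / 4)
    (hVe : ∀ l, ((Ve l).card : ℝ) ≤ B0) (hV : ∀ l d, ((Vs l d).card : ℝ) ≤ B1)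
    (hown : ∀ l w θ c, (Qc tb v t w0).p w ≠ 0 → Tw.p θ ≠ 0 → D.qb t c = D.qb t (w0.2.2 j) →
      (own l (w, θ) c).1 = lbT D s j (fun x y => Um v (s + 1) {j} x y) (Xt D s (tb.pt t w)) c ∧
        PoR D s i w0.1 (yy l c) (own l (w, θ) c))
    {R : Lx → FP Dk} {SS : Lx → Om W X β × Θ → Dk → Prop} {eta : Lx → Om W X β × Θ → Ee}
    {γk : Lx → Om W X β × Θ → Dk → Γ} {Pc : Lx → Om W X β × Θ → β → Prop} {δ1 u : ℝ} (hδ1 : 0 < δ1)
    {J : Om W X β × Θ → Finset Lx}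
    (hF : ∀ w θ, (Qc tb v t w0).p w ≠ 0 → Tw.p θ ≠ 0 → Fam (img (Qc tb v t w0) fun w => w.2.2 j) I hi lw mu
      (fun l e c => rowq ((D.P h t).cond (xc D (Um v (s + 1)) s ∅ (tb.pt t w0))) D s j
        (fun x y => Um v (s + 1) {j} x y) (κ l e c) c) f own R SS eta γk Ve Vs Pc δ1 u (J (w, θ)) (w, θ))
    {Phi : Om W X β → ℝ} (hPhi : ∀ w, (Qc tb v t w0).p w ≠ 0 → Phi w ≤ Tw.E fun θ => ∑ l ∈ J (w, θ),
      (img (Qc tb v t w0) fun w => w.2.2 j).Pr (Pc l (w, θ)))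
    {t' : ℝ} (ht' : 0 < t') (htu : Real.exp t' * (1 / al * (2 * mu)) ≤ t' * u / 64)
    {x : ℝ} (hx : x ≤ N {j} / N ∅ * u / 32)
    (hy : 2 * (Fintype.card Lx * (B0 * B1 ^ k) * Real.exp (-x)) ≤ δ1 ^ k / 2) (hB0 : 0 ≤ B0) (hB1 : 0 ≤ B1) :
    (Qc tb v t w0).E Phi ≤ 16 / t' * kc h v j tb s t w0 +
      2 * Real.exp 1 * (Fintype.card Lx * (B0 * B1 ^ k) * Real.exp (-x) / (δ1 ^ k / 2)) := by
  classical
  have hP := pul_pt h tb ht
  have hw1 : (D.P h t).p (tb.pt t w0) ≠ 0 := hP.ne hw0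
  have hQ := Qc_pul (h := h) (v := v) ht hw0
  have hK2 : ∀ l : Fin 3, ¬ univ.erase l ⊆ (∅ : Finset (Fin 3)) := fun l hl =>
    noTop (j := 0) (Finset.empty_subset _) l (Finset.subset_empty.1 hl)
  set Q1 := (D.P h t).cond (xc D (Um v (t + 1)) t ∅ (tb.pt t w0)) with hQ1
  -- the law with coins
  have hpul : ∀ g : Pt (Fin 3) X β φ → ℝ, (FP.pr (Qc tb v t w0) Tw).E (fun w => g (tb.pt t w.1)) = Q1.E g := by
    intro g
    rw [lift_E (Qc tb v t w0) Tw (fun w => g (tb.pt t w))]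
    exact hQ.E g
  have himg : (img Q1 fun w => w.2.1 j) = img (Qc tb v t w0) fun w => w.2.2 j := by
    have e : ∀ c, (img Q1 fun w => w.2.1 j).p c = (img (Qc tb v t w0) fun w => w.2.2 j).p c := fun c =>
      (hQ.Pr (fun w : Pt (Fin 3) X β φ => w.2.1 j = c)).symm
    generalize (img Q1 fun w => w.2.1 j) = A at e ⊢
    generalize (img (Qc tb v t w0) fun w => w.2.2 j) = B at e ⊢
    cases A
    cases B
    congr 1
    funext c
    exact e c
  have hT : DepT D s j (fun x y => Um v (s + 1) {j} x y) := by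
    intro x y y' h3 h4
    exact Um_dep hv s {j} x y y' (fun i hi => by rw [Finset.mem_singleton.1 hi]; exact h3) h4
  have H := CH_run (h := h) (t := t) (τ := s) (j := j) (U := Um v (t + 1)) (N := N) (S := S)
    (T0 := fun x y => Um v (s + 1) {j} x y) (Q' := FP.pr (Qc tb v t w0) Tw) (π := fun w => tb.pt t w.1)
    (I := I) (hi := hi) (mid := mid) (lw := lw) (R0 := R0) (δ := δ) (mu := mu) (B0 := B0) (B1 := B1) (k := k) (f := f)
    (Po := fun l c ρ => PoR D s i (tb.pt t w0).1 (yy l c) ρ) (own := own) (Ve := Ve) (Vs := Vs)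
    (Um_dep hv t) hs hN hK2 hKS hN0 hjS hst hT (fun a b hab _ => by
      have h3 := (LL_eq.1 hab).1
      exact (List.map_inj_left.2 fun r hr => (List.map_inj_left.1 h3) r (List.mem_range.2 (by
        have := List.mem_range.1 hr
        omega)))) hw1 hpul hR hδ hf h1 h2 hmu hk hVe hV
    (fun l w c hw hc => by
      have hw' := (pr_supp (Qc tb v t w0) Tw).1 hw
      obtain ⟨a, ha, hac⟩ := hc
      have h3 := cond_supp (xc_ne hw1) ha
      have h4 := h3.1.2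
      rw [BB_eq] at h4
      exact hown l w.1 w.2 c hw'.1 hw'.2 (by
        rw [← hac]
        exact h4.2.2 j))
  have hfin := class_runF (h := h) (t := t) (τ := s) (j := j) (U := Um v (t + 1)) (Uo := Um v (s + 1))
    (Um_dep hv s) hK2 hT hw1 (fun a ha => by
      obtain ⟨h3, h4⟩ := ha
      have h3' := (LL_eq.1 (le_eq.1 h3 ∅ (Finset.Subset.refl _))).1
      rw [BB_eq] at h4
      refine ⟨le_eq.2 fun I hI => ?_, BB_eq.2 ⟨fun i hi => absurd hi (Finset.notMem_empty i), ?_, ?_⟩⟩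
      · have hI0 : I = ∅ := Finset.subset_empty.1 hI
        subst hI0
        refine LL_eq.2 ⟨?_, fun l hl => absurd hl (noTop (j := 0) (Finset.empty_subset _) l)⟩
        exact List.map_inj_left.2 fun r hr => (List.map_inj_left.1 h3') r (List.mem_range.2 (by
          have := List.mem_range.1 hr
          omega))
      · exact qa_mono D hst h4.2.1
      · exact fun i => qb_mono D hst (h4.2.2 i)) i yy κ hκ H hδ1 (J := J) (R := R) (SS := SS) (eta := eta) (γk := γk)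
    (Pc := Pc) (fun w hw => by
      have hw' := (pr_supp (Qc tb v t w0) Tw).1 hw
      have h3 := hF w.1 w.2 hw'.1 hw'.2
      rw [← himg] at h3
      exact h3) (Phi := fun w => ∑ l ∈ J w, (img Q1 fun w => w.2.1 j).Pr (Pc l w)) (fun w _ => le_rfl)
    ht' htu hx hy hB0 hB1
  refine le_trans ?_ hfin
  rw [FP.pr_E]
  refine (Qc tb v t w0).E_mono fun w hw => ?_
  rw [himg]
  exact hPhi w hw

/-- **P5, ALL ENDS** : `Phi t` = any function with the class bounds (by `class_run`), `X1` = cost of the thin letter -/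
theorem thin_total {e e' : ℕ → Om W X β → Prop} (he : ∀ t, Fac (cl D v t) (e t)) (he' : ∀ t, Fac (cl D v t) (e' t))
    (hee : ∀ t w, e' t w → e t w) {Phi : ℕ → Om W X β → ℝ} {c del X1 : ℝ} (hc : 0 ≤ c) {n : ℕ} (hn : n ≤ T)
    (hX1 : ∑ t ∈ range (n + 1), cst h v t {j} ≤ X1)
    (hcl : ∀ t ≤ n, ∀ w, tb.Ps.p w ≠ 0 → e' t w →
      (Qc tb v t w).E (Phi t) ≤ c * kc h v j tb (st e t w) t w + del) :
    ∑ t ∈ range (n + 1), tb.Ps.E (fun w => ind (e' t w) * Phi t w) ≤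
      c * X1 + del * ∑ t ∈ range (n + 1), tb.Ps.Pr (e' t) := by
  classical
  -- ends after the time `n` are cut off
  set e2 : ℕ → Om W X β → Prop := fun t w => e' t w ∧ t ≤ n with he2
  have hA := Ax_filt (W := W) (D := D) (v := v) (j := j)
  have hAc : ∀ t, Fac (Ax (W := W) D v j t) (cl D v t) := fun t => Fac.snd _ _
  have hcf : ∀ t, Fac (cl D v t) (e2 t) := fun t w w' ew => by
    show (e' t w ∧ t ≤ n) = (e' t w' ∧ t ≤ n)
    rw [he' t w w' ew]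
  have h1 := glob_sum (P := tb.Ps) (A := fun t => Ax D v j t) (S := fun t => lt v j t) (e := e) (e' := e2)
    (Phi := Phi) (c := c) (del := del) hA lt_old (fun t => (hAc t).trans (he t)) (fun t => (hAc t).trans (hcf t))
    (fun t w hw => hee t w hw.1) hc ?_ n
  · have e3 : ∀ t ∈ range (n + 1), tb.Ps.E (fun w => ind (e2 t w) * Phi t w) = tb.Ps.E (fun w => ind (e' t w) * Phi t w) := by
      intro t ht
      refine tb.Ps.E_congr fun w _ => ?_
      have : e2 t w = e' t w := propext ⟨fun a => a.1, fun a => ⟨a, Nat.lt_succ_iff.1 (mem_range.1 ht)⟩⟩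
      rw [this]
    have e4 : ∀ t ∈ range (n + 1), tb.Ps.Pr (e2 t) = tb.Ps.Pr (e' t) := by
      intro t ht
      have : e2 t = e' t := funext fun w => propext ⟨fun a => a.1, fun a => ⟨a, Nat.lt_succ_iff.1 (mem_range.1 ht)⟩⟩
      rw [this]
    rw [sum_congr rfl e3, sum_congr rfl e4] at h1
    refine h1.trans (add_le_add (mul_le_mul_of_nonneg_left ?_ hc) le_rfl)
    refine le_trans ?_ hX1
    rw [sum_range_succ']
    have h2 : ∑ t ∈ range n, tb.Ps.Hc (lt v j (t + 1)) (fun w => (lt v j t w, Ax D v j (t + 1) w)) ≤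
        ∑ t ∈ range n, cst h v (t + 1) {j} := sum_le_sum fun t ht => cost_ge (h := h) (by
      have := mem_range.1 ht
      omega)
    have h3 := cost_ge0 (tb := tb) (h := h) (v := v) (j := j)
    linarith
  · intro t s hst
    by_cases htn : t ≤ n
    · have hB : Fac (cl D v t) (fun w : Om W X β => e2 t w ∧ st e t w = s) := by
        intro w w' ew
        have h2 : e2 t w = e2 t w' := hcf t w w' ew
        have h3 : st e t w = st e t w' := by
          rcases t with _ | t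
          · rfl
          · exact st_fac cl_filt he t w w' (cl_filt t w w' ew)
        show (e2 t w ∧ st e t w = s) = (e2 t w' ∧ st e t w' = s)
        rw [h2, h3]
      have h4 := glob (P := tb.Ps) (A0 := cl D v s) (A1 := cl D v t) (lt v j s)
        (fun u => (u.2.2 j, (D.qa s u.1, fun i => D.qb s (u.2.2 i)))) (cl_filt.le hst) hB (Phi := Phi t) (c := c)
        (del := del) (fun w hw hb => by
          have h5 := hcl t htn w hw hb.1.1
          rw [hb.2, kc_eq (htn.trans hn) hw] at h5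
          exact h5)
      refine h4.trans (add_le_add (mul_le_mul_of_nonneg_left (le_of_eq ?_) hc) le_rfl)
      refine tb.Ps.E_congr fun w _ => ?_
      have k : ∀ r, s ≤ r → sp tb.Ps (lt v j s) (fun u => ((u.2.2 j, (D.qa s u.1, fun i => D.qb s (u.2.2 i))), cl D v r u)) w =
          sp tb.Ps (lt v j s) (Ax D v j r) w := by
        intro r hr
        refine sp_congr tb.Ps (Fac.fst _ _) ?_ (Fac.fst _ _) ?_ w
        · intro a b hab
          have h6 := Prod.mk.inj (show ((a.2.2 j, (D.qa s a.1, fun i => D.qb s (a.2.2 i))), cl D v r a) =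
            ((b.2.2 j, (D.qa s b.1, fun i => D.qb s (b.2.2 i))), cl D v r b) from hab)
          show (a.2.2 j, cl D v r a) = (b.2.2 j, cl D v r b)
          rw [h6.2, (Prod.mk.inj h6.1).1]
        · intro a b hab
          have h6 := Prod.mk.inj (show (a.2.2 j, cl D v r a) = (b.2.2 j, cl D v r b) from hab)
          have h7 := cl_eq.1 (cl_filt.le hr a b h6.2)
          have h8 : (fun i => D.qb s (a.2.2 i)) = fun i => D.qb s (b.2.2 i) := funext h7.2.2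
          show ((a.2.2 j, (D.qa s a.1, fun i => D.qb s (a.2.2 i))), cl D v r a) =
            ((b.2.2 j, (D.qa s b.1, fun i => D.qb s (b.2.2 i))), cl D v r b)
          rw [h6.1, h6.2, h7.2.1, h8]
      rw [k s le_rfl, k t hst]
    · have h0 : ∀ w : Om W X β, ¬ (e2 t w ∧ st e t w = s) := fun w hw => htn hw.1.2
      have e5 : ∀ g : Om W X β → ℝ, tb.Ps.E (fun w => ind (e2 t w ∧ st e t w = s) * g w) = 0 := by
        intro g
        refine (tb.Ps.E_congr fun w _ => ?_).trans (tb.Ps.E_const 0)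
        rw [ind_not (h0 w), zero_mul]
      have e6 : tb.Ps.Pr (fun w => e2 t w ∧ st e t w = s) = 0 := by
        refine (tb.Ps.E_congr fun w _ => ?_).trans (tb.Ps.E_const 0)
        exact ind_not (h0 w)
      rw [e5, e5, e6, mul_zero, mul_zero, add_zero]

end tab

end

end Pool.Agent.GMH.PayT
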