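import Pool.Agent.GMH.PayT
import Pool.Agent.GMH.MVI

/-!
# GMH/PayTs (helper50): PAYMENT OF THE THIN COVERS, STARTS AT SUBSTATES

Old class = any SUBSTATE `ν` (state before the substep `ν`: codes `TP.nc ν`, node `TP.nn ν`), end = a LEVEL state `5 t` (saturated).
* `Qst` : class law of a state, `NPo_iff`, `NPo_five`;
* `kcq` : relative entropy of the thin letter of the state `ν`, class of the level `t` against the class of `ν`;
* `class_tabU` : one class, any old class function; `class_tabS` : old class = state `ν`;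
* `thin_totalS` : all ends: `∑_q E 1(e' q) Phi q ≤ c X1 + del ∑_q P (e' q)`.
-/

set_option autoImplicit false
set_option linter.unusedSectionVars false

namespace Pool.Agent.GMH.PayTs

open Finset Pool.Agent.PWZ Pool.Agent.M3 Pool.Agent.GM Pool.Agent.GM.Harm Pool.Agent.GMH Pool.Agent.GMH.GhoC
open Pool.Agent.GMH.EpG Pool.Agent.GMH.PayT Pool.Agent.GMH.V3 Pool.Agent.GMH.NZ
open Pool.Agent.GMH.Dy (Om Tab pul_pt)
open Pool.Agent.GMH.MVI (NPo XLo NPo_fac XLo_fac NPo_le XLo_le step_thin start_thin)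
open Pool.Agent.GMH.CKB (cq sum_cq)

noncomputable section

variable {X β γ φ υ : Type} [Fintype X] [Fintype β] [Fintype φ] [Nonempty X] [Nonempty β]
variable {D : HD (Fin 3) X β γ φ} {al : ℝ} {h : D.Thick al} {prr : ℕ → Fin 3 → φ → φ} {T : ℕ} {W : Type} [Fintype W]
variable {tb : Tab D prr T W} {v : ℕ → Finset (Fin 3) → X → (Fin 3 → β) → υ} {j : Fin 3}

/-! ## states -/

theorem NPo_iff {q : ℕ} {a b : Om W X β} : NPo tb v q a = NPo tb v q b ↔
    Um v (TP.nc q ∅) ∅ a.1 a.2.2 = Um v (TP.nc q ∅) ∅ b.1 b.2.2 ∧ D.qa (TP.nn q) a.1 = D.qa (TP.nn q) b.1 ∧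
      ∀ i, D.qb (TP.nn q) (a.2.2 i) = D.qb (TP.nn q) (b.2.2 i) := by
  show (Um v (TP.nc q ∅) ∅ a.1 a.2.2, ((D.qa (TP.nn q) a.1, fun i => D.qb (TP.nn q) (a.2.2 i)) : γ × (Fin 3 → γ))) =
    (Um v (TP.nc q ∅) ∅ b.1 b.2.2, (D.qa (TP.nn q) b.1, fun i => D.qb (TP.nn q) (b.2.2 i))) ↔ _
  rw [Prod.mk.injEq, Prod.mk.injEq, funext_iff]

theorem nc5 (t : ℕ) {J : Finset (Fin 3)} (hJ : pth J) : TP.nc (5 * t) J = t + 1 := by
  have h1 := TP.nc_add t 0 hJ (by omega)
  rw [Nat.add_zero] at h1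
  rw [h1]
  unfold TP.ncj
  rw [if_neg (Nat.not_lt_zero _)]

theorem nn5 (t : ℕ) : TP.nn (5 * t) = t := by
  have h1 := TP.nn_add t 0 (by omega)
  rw [Nat.add_zero] at h1
  rw [h1]
  unfold TP.nnj
  rw [if_pos rfl]

theorem pth0 : pth (∅ : Finset (Fin 3)) := by
  show (∅ : Finset (Fin 3)).card ≤ 1
  rw [Finset.card_empty]
  omega

theorem pth1 (j : Fin 3) : pth ({j} : Finset (Fin 3)) := by
  show ({j} : Finset (Fin 3)).card ≤ 1
  rw [Finset.card_singleton]

theorem NPo_five {t : ℕ} {a b : Om W X β} : NPo tb v (5 * t) a = NPo tb v (5 * t) b ↔ cl D v t a = cl D v t b := by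
  rw [NPo_iff, cl_eq, nc5 t pth0, nn5]

variable (tb v) in
/-- class law of the state `q` -/
def Qst (q : ℕ) (w : Om W X β) : FP (Om W X β) := tb.Ps.cond fun u => NPo tb v q u = NPo tb v q w

variable (D) in
/-- node of the state -/
def ndq (q : ℕ) (u : Om W X β) : γ × (Fin 3 → γ) := (D.qa (TP.nn q) u.1, fun i => D.qb (TP.nn q) (u.2.2 i))

variable (tb v j) in
/-- relative entropy of the thin letter of the state `ν`: class of the level `t` against the class of `ν` -/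
def kcq (ν t : ℕ) (w : Om W X β) : ℝ :=
  (Qc tb v t w).klc (Qst tb v ν w) (XLo tb v j ν) (fun u => (u.2.2 j, ndq D ν u))

variable (v) in
/-- class functions of the state `ν` -/
def Uq (ν : ℕ) (J : Finset (Fin 3)) (x : X) (y : Fin 3 → β) : List υ := Um v (TP.nc ν J) J x y

theorem Uq_dep (hv : Codes D v) (ν : ℕ) : ∀ I x y y', (∀ i ∈ I, y i = y' i) →
    (∀ i, D.qb (TP.nn ν) (y i) = D.qb (TP.nn ν) (y' i)) → Uq v ν I x y = Uq v ν I x y' := by
  intro I x y y' h1 h2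
  unfold Uq Um
  rw [List.map_inj_left]
  intro s hs
  have hst : s ≤ TP.nn ν := by
    have h3 := List.mem_range.1 hs
    have h4 := TP.nc_le ν I
    omega
  exact hv s I x y y' h1 fun i => qb_mono D hst (h2 i)

/-- the class of `pt t w` at the state `ν` -/
theorem xcq_iff {ν t : ℕ} {w w' : Om W X β} :
    xc D (Uq v ν) (TP.nn ν) ∅ (tb.pt t w) (tb.pt t w') ↔ NPo tb v ν w' = NPo tb v ν w := by
  rw [NPo_iff]
  unfold xc
  rw [le_eq, BB_eq]
  constructor
  · rintro ⟨h1, -, h2, h3⟩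
    exact ⟨(LL_eq.1 (h1 ∅ (Finset.Subset.refl _))).1, h2, h3⟩
  · rintro ⟨h1, h2, h3⟩
    refine ⟨fun I hI => ?_, fun i hi => absurd hi (Finset.notMem_empty i), h2, h3⟩
    have hI0 : I = ∅ := Finset.subset_empty.1 hI
    subst hI0
    exact LL_eq.2 ⟨h1, fun l hl => absurd hl (noTop (j := 0) (Finset.empty_subset _) l)⟩

/-- the old class on the sample points -/
theorem Qq_pul {ν t : ℕ} (ht : t ≤ T) {w : Om W X β} (hw : tb.Ps.p w ≠ 0) :
    Pul (Qst tb v ν w) ((D.P h t).cond (xc D (Uq v ν) (TP.nn ν) ∅ (tb.pt t w))) (tb.pt t) := by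
  have hP := pul_pt h tb ht
  have h2 := pul_cond hP (E := xc D (Uq v ν) (TP.nn ν) ∅ (tb.pt t w))
    (FP.Pr_pos_of (hP.ne hw) (xc_self (Uq v ν) (TP.nn ν) ∅ (tb.pt t w))).ne'
  have e : (fun u => xc D (Uq v ν) (TP.nn ν) ∅ (tb.pt t w) (tb.pt t u)) = fun u => NPo tb v ν u = NPo tb v ν w :=
    funext fun u => propext xcq_iff
  rw [e] at h2
  exact h2

/-- the relative entropy on the sample points -/
theorem kcq_eq {ν t : ℕ} (hν : ν ≤ 5 * t) (ht : t ≤ T) {w : Om W X β} (hw : tb.Ps.p w ≠ 0) :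
    ((D.P h t).cond (xc D (Um v (t + 1)) t ∅ (tb.pt t w))).klc ((D.P h t).cond (xc D (Uq v ν) (TP.nn ν) ∅ (tb.pt t w)))
      (fun u => Um v (TP.nc ν {j}) {j} u.1 u.2.1) (fun u => (u.2.1 j, nd D (TP.nn ν) u)) = kcq tb v j ν t w := by
  have h1 := Qc_pul (v := v) (h := h) ht hw
  have h2 := Qq_pul (v := v) (h := h) (ν := ν) ht hw
  have h3 := pul_klc h1 h2 (fun u => Um v (TP.nc ν {j}) {j} u.1 u.2.1) (fun u => (u.2.1 j, nd D (TP.nn ν) u))
  have hac : (Qc tb v t w).Ac (Qst tb v ν w) := fun u hu => by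
    have e1 := cond_supp (P := tb.Ps) (A := fun u => cl D v t u = cl D v t w) (tb.Ps.m_pos (cl D v t) hw).ne' hu
    refine (FP.cond_p_ne (tb.Ps.m_pos (NPo tb v ν) hw).ne').2 ⟨?_, e1.2⟩
    exact NPo_le tb v hν u w (NPo_five.2 e1.1)
  rw [← h3]
  refine klc_congr hac ?_ (Fac.refl _) ?_ (Fac.refl _)
  · intro a b hab
    have e1 := Prod.mk.inj hab
    have e2 := Prod.mk.inj e1.2
    show (a.2.2 j, Um v (TP.nc ν {j}) {j} a.1 a.2.2) = (b.2.2 j, Um v (TP.nc ν {j}) {j} b.1 b.2.2)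
    rw [show a.2.2 j = b.2.2 j from e2.1, show Um v (TP.nc ν {j}) {j} a.1 a.2.2 = Um v (TP.nc ν {j}) {j} b.1 b.2.2 from e1.1]
  · intro a b hab
    exact (Prod.mk.inj (Prod.mk.inj hab).1).2

/-! ## one class -/

/-- **ONE CLASS WITH TABLES AND COINS, OLD CLASS = STATE** `ν` -/
theorem class_tabS {N : Finset (Fin 3) → ℝ} {S : Finset (Finset (Fin 3))} (hv : Codes D v) {ν t : ℕ} (hν : ν ≤ 5 * t)
    (ht : t ≤ T) (hs : SatA (D.P h t) (BB D t) N S (LL (Um v (t + 1))) (Dep D t)) (hN : ∀ J ∈ S, 0 ≤ N J)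
    (hKS : ∅ ∈ S) (hN0 : 0 < N ∅) (hjS : {j} ∈ S) {w0 : Om W X β} (hw0 : tb.Ps.p w0 ≠ 0)
    {ι Γ Ee Lx Dk Θ : Type} [Fintype Lx] [DecidableEq Lx] [Fintype Dk] [Fintype Θ] (Tw : FP Θ)
    {I : Finset ι} {hi mid lw : ι → ℝ} {R0 δ mu B0 B1 : ℝ} {k : ℕ} {f : ι → Lx → Ee → β → X × φ → Dk → Γ → ℝ}
    {own : Lx → Om W X β × Θ → β → X × φ} {Ve : Lx → Finset Ee} {Vs : Lx → Dk → Finset Γ} (i : Fin 3)
    (yy : Lx → β → Fin 3 → β) (κ : Lx → Ee → β → X → FP φ)
    (hκ : ∀ l e c x F, PoR D (TP.nn ν) i w0.1 (yy l c) (x, F) → al ≤ (κ l e c x).p F)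
    (hR : 0 < R0) (hδ : 0 ≤ δ) (hf : ∀ i l e c ρ d g, |f i l e c ρ d g| ≤ R0) (h1 : ∀ i ∈ I, mid i + δ ≤ hi i)
    (h2 : ∀ i ∈ I, lw i + δ ≤ mid i) (hmu : 0 < mu)
    (hk : (I.card + 1 / mu) * Real.exp (-(k * δ ^ 2 / (8 * R0 ^ 2))) ≤ 1 / 4)
    (hVe : ∀ l, ((Ve l).card : ℝ) ≤ B0) (hV : ∀ l d, ((Vs l d).card : ℝ) ≤ B1)
    (hown : ∀ l w θ c, (Qc tb v t w0).p w ≠ 0 → Tw.p θ ≠ 0 → D.qb t c = D.qb t (w0.2.2 j) →
      (own l (w, θ) c).1 = lbT D (TP.nn ν) j (Uq v ν {j}) (Xt D (TP.nn ν) (tb.pt t w)) c ∧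
        PoR D (TP.nn ν) i w0.1 (yy l c) (own l (w, θ) c))
    {R : Lx → FP Dk} {SS : Lx → Om W X β × Θ → Dk → Prop} {eta : Lx → Om W X β × Θ → Ee}
    {γk : Lx → Om W X β × Θ → Dk → Γ} {Pc : Lx → Om W X β × Θ → β → Prop} {δ1 u : ℝ} (hδ1 : 0 < δ1)
    {J : Om W X β × Θ → Finset Lx}
    (hF : ∀ w θ, (Qc tb v t w0).p w ≠ 0 → Tw.p θ ≠ 0 → Fam (img (Qc tb v t w0) fun w => w.2.2 j) I hi lw mu
      (fun l e c => rowq ((D.P h t).cond (xc D (Uq v ν) (TP.nn ν) ∅ (tb.pt t w0))) D (TP.nn ν) j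
        (Uq v ν {j}) (κ l e c) c) f own R SS eta γk Ve Vs Pc δ1 u (J (w, θ)) (w, θ))
    {Phi : Om W X β → ℝ} (hPhi : ∀ w, (Qc tb v t w0).p w ≠ 0 → Phi w ≤ Tw.E fun θ => ∑ l ∈ J (w, θ),
      (img (Qc tb v t w0) fun w => w.2.2 j).Pr (Pc l (w, θ)))
    {t' : ℝ} (ht' : 0 < t') (htu : Real.exp t' * (1 / al * (2 * mu)) ≤ t' * u / 64)
    {x : ℝ} (hx : x ≤ N {j} / N ∅ * u / 32)
    (hy : 2 * (Fintype.card Lx * (B0 * B1 ^ k) * Real.exp (-x)) ≤ δ1 ^ k / 2) (hB0 : 0 ≤ B0) (hB1 : 0 ≤ B1) :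
    (Qc tb v t w0).E Phi ≤ 16 / t' * kcq tb v j ν t w0 +
      2 * Real.exp 1 * (Fintype.card Lx * (B0 * B1 ^ k) * Real.exp (-x) / (δ1 ^ k / 2)) := by
  classical
  have hP := pul_pt h tb ht
  have hw1 : (D.P h t).p (tb.pt t w0) ≠ 0 := hP.ne hw0
  have hQ := Qc_pul (h := h) (v := v) ht hw0
  have hnn : TP.nn ν ≤ t := by
    have h3 := TP.nn_mono hν
    rwa [nn5] at h3
  have hK2 : ∀ l : Fin 3, ¬ univ.erase l ⊆ (∅ : Finset (Fin 3)) := fun l hl =>
    noTop (j := 0) (Finset.empty_subset _) l (Finset.subset_empty.1 hl)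
  set Q1 := (D.P h t).cond (xc D (Um v (t + 1)) t ∅ (tb.pt t w0)) with hQ1
  -- the law with coins
  have hpul : ∀ g : Pt (Fin 3) X β φ → ℝ, (FP.pr (Qc tb v t w0) Tw).E (fun w => g (tb.pt t w.1)) = Q1.E g := by
    intro g
    rw [lift_E (Qc tb v t w0) Tw (fun w => g (tb.pt t w))]
    exact hQ.E g
  have himg : (img Q1 fun w => w.2.1 j) = img (Qc tb v t w0) fun w => w.2.2 j := by
    have e : ∀ c, (img Q1 fun w => w.2.1 j).p c = (img (Qc tb v t w0) fun w => w.2.2 j).p c := fun c =>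
      (hQ.Pr (fun w : Pt (Fin 3) X β φ => w.2.1 j = c)).symm
    generalize (img Q1 fun w => w.2.1 j) = A at e ⊢
    generalize (img (Qc tb v t w0) fun w => w.2.2 j) = B at e ⊢
    cases A
    cases B
    congr 1
    funext c
    exact e c
  have hT : DepT D (TP.nn ν) j (Uq v ν {j}) := by
    intro x y y' h3 h4
    exact Uq_dep hv ν {j} x y y' (fun i hi => by rw [Finset.mem_singleton.1 hi]; exact h3) h4
  have H := CH_run (h := h) (t := t) (τ := TP.nn ν) (j := j) (U := Um v (t + 1)) (N := N) (S := S)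
    (T0 := Uq v ν {j}) (Q' := FP.pr (Qc tb v t w0) Tw) (π := fun w => tb.pt t w.1)
    (I := I) (hi := hi) (mid := mid) (lw := lw) (R0 := R0) (δ := δ) (mu := mu) (B0 := B0) (B1 := B1) (k := k) (f := f)
    (Po := fun l c ρ => PoR D (TP.nn ν) i (tb.pt t w0).1 (yy l c) ρ) (own := own) (Ve := Ve) (Vs := Vs)
    (Um_dep hv t) hs hN hK2 hKS hN0 hjS hnn hT (fun a b hab _ => by
      have h3 := (LL_eq.1 hab).1
      have h4 : TP.nc ν {j} ≤ t + 1 := by
        have h5 := TP.nc_mono hν (pth1 j)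
        rwa [nc5 t (pth1 j)] at h5
      exact (List.map_inj_left.2 fun r hr => (List.map_inj_left.1 h3) r (List.mem_range.2 (by
        have := List.mem_range.1 hr
        omega)))) hw1 hpul hR hδ hf h1 h2 hmu hk hVe hV
    (fun l w c hw hc => by
      have hw' := (pr_supp (Qc tb v t w0) Tw).1 hw
      obtain ⟨a, ha, hac⟩ := hc
      have h3 := cond_supp (xc_ne hw1) ha
      have h4 := h3.1.2
      rw [BB_eq] at h4
      exact hown l w.1 w.2 c hw'.1 hw'.2 (by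
        rw [← hac]
        exact h4.2.2 j))
  have hfin := class_runF (h := h) (t := t) (τ := TP.nn ν) (j := j) (U := Um v (t + 1)) (Uo := Uq v ν)
    (Uq_dep hv ν) hK2 hT hw1 (fun a ha => by
      obtain ⟨h3, h4⟩ := ha
      have h3' := (LL_eq.1 (le_eq.1 h3 ∅ (Finset.Subset.refl _))).1
      rw [BB_eq] at h4
      have h6 : TP.nc ν ∅ ≤ t + 1 := by
        have h5 := TP.nc_mono hν pth0
        rwa [nc5 t pth0] at h5
      refine ⟨le_eq.2 fun I hI => ?_, BB_eq.2 ⟨fun i hi => absurd hi (Finset.notMem_empty i), ?_, ?_⟩⟩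
      · have hI0 : I = ∅ := Finset.subset_empty.1 hI
        subst hI0
        refine LL_eq.2 ⟨?_, fun l hl => absurd hl (noTop (j := 0) (Finset.empty_subset _) l)⟩
        exact List.map_inj_left.2 fun r hr => (List.map_inj_left.1 h3') r (List.mem_range.2 (by
          have := List.mem_range.1 hr
          omega))
      · exact qa_mono D hnn h4.2.1
      · exact fun i => qb_mono D hnn (h4.2.2 i)) i yy κ hκ H hδ1 (J := J) (R := R) (SS := SS) (eta := eta) (γk := γk)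
    (Pc := Pc) (fun w hw => by
      have hw' := (pr_supp (Qc tb v t w0) Tw).1 hw
      have h3 := hF w.1 w.2 hw'.1 hw'.2
      rw [← himg] at h3
      exact h3) (Phi := fun w => ∑ l ∈ J w, (img Q1 fun w => w.2.1 j).Pr (Pc l w)) (fun w _ => le_rfl)
    ht' htu hx hy hB0 hB1
  have hk2 := kcq_eq (h := h) (tb := tb) (v := v) (j := j) hν ht hw0
  have hk3 : ((D.P h t).cond (xc D (Um v (t + 1)) t ∅ (tb.pt t w0))).klc
      ((D.P h t).cond (xc D (Uq v ν) (TP.nn ν) ∅ (tb.pt t w0))) (fun v_1 => Uq v ν {j} v_1.1 v_1.2.1)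
      (fun v_1 => (v_1.2.1 j, nd D (TP.nn ν) v_1)) = kcq tb v j ν t w0 := hk2
  rw [← hk3]
  refine le_trans ?_ hfin
  rw [FP.pr_E]
  refine (Qc tb v t w0).E_mono fun w hw => ?_
  rw [himg]
  exact hPhi w hw

/-! ## all ends -/

variable (tb v j) in
/-- exact point and public information of the state `q` -/
def Aq (q : ℕ) (w : Om W X β) : β × (List υ × (γ × (Fin 3 → γ))) := (w.2.2 j, NPo tb v q w)

theorem Aq_filt : Filt fun q => Aq tb v j q := by
  intro q a b e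
  have h1 := Prod.mk.inj (show (a.2.2 j, NPo tb v (q + 1) a) = (b.2.2 j, NPo tb v (q + 1) b) from e)
  show (a.2.2 j, NPo tb v q a) = (b.2.2 j, NPo tb v q b)
  rw [h1.1, NPo_fac tb q a b h1.2]

/-- **P5, ALL ENDS, STARTS AT SUBSTATES** : the ends `e' q` are at level states, epochs = ends `e q` of any states -/
theorem thin_totalS {e e' : ℕ → Om W X β → Prop} (he : ∀ q, Fac (NPo tb v q) (e q)) (he' : ∀ q, Fac (NPo tb v q) (e' q))
    (hee : ∀ q w, e' q w → e q w) (h5 : ∀ q w, e' q w → q % 5 = 0) {Phi : ℕ → Om W X β → ℝ} {c del X1 : ℝ}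
    (hc : 0 ≤ c) {n : ℕ} (hX1 : ∑ t ∈ range (n + 1), cst h v t {j} ≤ X1)
    (hcl : ∀ t ≤ n, ∀ w, tb.Ps.p w ≠ 0 → e' (5 * t) w →
      (Qc tb v t w).E (Phi (5 * t)) ≤ c * kcq tb v j (st e (5 * t) w) t w + del) :
    ∑ q ∈ range (5 * n + 1), tb.Ps.E (fun w => ind (e' q w) * Phi q w) ≤
      c * X1 + del * ∑ q ∈ range (5 * n + 1), tb.Ps.Pr (e' q) := by
  classical
  -- ends after the time `5 n` are cut off
  set e2 : ℕ → Om W X β → Prop := fun q w => e' q w ∧ q ≤ 5 * n with he2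
  have hA := Aq_filt (tb := tb) (v := v) (j := j)
  have hAc : ∀ q, Fac (Aq tb v j q) (NPo tb v q) := fun q => Fac.snd _ _
  have hcf : ∀ q, Fac (NPo tb v q) (e2 q) := fun q w w' ew => by
    show (e' q w ∧ q ≤ 5 * n) = (e' q w' ∧ q ≤ 5 * n)
    rw [he' q w w' ew]
  have hS : ∀ q, Fac (fun w => (XLo tb v j (q + 1) w, Aq tb v j (q + 1) w)) (XLo tb v j q) := fun q a b hab =>
    XLo_fac tb j q a b (Prod.mk.inj hab).1
  have h1 := glob_sum (P := tb.Ps) (A := fun q => Aq tb v j q) (S := fun q => XLo tb v j q) (e := e) (e' := e2)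
    (Phi := Phi) (c := c) (del := del) hA hS (fun q => (hAc q).trans (he q)) (fun q => (hAc q).trans (hcf q))
    (fun q w hw => hee q w hw.1) hc ?_ (5 * n)
  · have e3 : ∀ q ∈ range (5 * n + 1), tb.Ps.E (fun w => ind (e2 q w) * Phi q w) =
        tb.Ps.E (fun w => ind (e' q w) * Phi q w) := by
      intro q hq
      refine tb.Ps.E_congr fun w _ => ?_
      have : e2 q w = e' q w := propext ⟨fun a => a.1, fun a => ⟨a, Nat.lt_succ_iff.1 (mem_range.1 hq)⟩⟩
      rw [this]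
    have e4 : ∀ q ∈ range (5 * n + 1), tb.Ps.Pr (e2 q) = tb.Ps.Pr (e' q) := by
      intro q hq
      have : e2 q = e' q := funext fun w => propext ⟨fun a => a.1, fun a => ⟨a, Nat.lt_succ_iff.1 (mem_range.1 hq)⟩⟩
      rw [this]
    rw [sum_congr rfl e3, sum_congr rfl e4] at h1
    refine h1.trans (add_le_add (mul_le_mul_of_nonneg_left ?_ hc) le_rfl)
    refine le_trans ?_ hX1
    have h2 : ∑ q ∈ range (5 * n), tb.Ps.Hc (XLo tb v j (q + 1)) (fun w => (XLo tb v j q w, Aq tb v j (q + 1) w)) ≤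
        ∑ q ∈ range (5 * n), cq h v q j := sum_le_sum fun q _ => step_thin h tb q j
    have h3 : tb.Ps.Hc (XLo tb v j 0) (Aq tb v j 0) ≤ cst h v 0 {j} := start_thin h tb j
    rw [sum_cq] at h2
    rw [sum_range_succ']
    linarith
  · intro q s hsq
    by_cases hq : q % 5 = 0 ∧ q ≤ 5 * n
    · obtain ⟨t, rfl⟩ : ∃ t, q = 5 * t := ⟨q / 5, by omega⟩
      have htn : t ≤ n := by omega
      have hc5 : Fac (cl (W := W) D v t) (NPo tb v (5 * t)) := fun a b e => NPo_five.2 e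
      have hc6 : Fac (NPo tb v (5 * t)) (cl (W := W) D v t) := fun a b e => NPo_five.1 e
      have hB : Fac (cl D v t) (fun w : Om W X β => e2 (5 * t) w ∧ st e (5 * t) w = s) := by
        intro w w' ew
        have ew' := hc5 w w' ew
        have h2 : e2 (5 * t) w = e2 (5 * t) w' := hcf (5 * t) w w' ew'
        have h3 : st e (5 * t) w = st e (5 * t) w' := by
          rcases t with _ | t
          · rfl
          · have hf : Filt fun q => NPo tb v q := fun q => NPo_fac tb q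
            have h4 := st_fac hf he (5 * t + 4) w w' (hf (5 * t + 4) w w' ew')
            exact h4
        show (e2 (5 * t) w ∧ st e (5 * t) w = s) = (e2 (5 * t) w' ∧ st e (5 * t) w' = s)
        rw [h2, h3]
      have hle := NPo_le tb v hsq
      have h4 := glob (P := tb.Ps) (A0 := NPo tb v s) (A1 := cl D v t) (XLo tb v j s)
        (fun u => (u.2.2 j, ndq D s u)) (hc5.trans hle) hB (Phi := Phi (5 * t)) (c := c)
        (del := del) (fun w hw hb => by
          have h5 := hcl t htn w hw hb.1.1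
          rw [hb.2] at h5
          exact h5)
      refine h4.trans (add_le_add (mul_le_mul_of_nonneg_left (le_of_eq ?_) hc) le_rfl)
      refine tb.Ps.E_congr fun w _ => ?_
      have hnd : ∀ {a b : Om W X β}, NPo tb v s a = NPo tb v s b → ndq D s a = ndq D s b := fun {a b} e => by
        have h7 := NPo_iff.1 e
        show (D.qa (TP.nn s) a.1, fun i => D.qb (TP.nn s) (a.2.2 i)) = (D.qa (TP.nn s) b.1, fun i => D.qb (TP.nn s) (b.2.2 i))
        rw [h7.2.1, funext h7.2.2]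
      have k1 : sp tb.Ps (XLo tb v j s) (fun u => ((u.2.2 j, ndq D s u), NPo tb v s u)) w =
          sp tb.Ps (XLo tb v j s) (Aq tb v j s) w := by
        refine sp_congr tb.Ps (Fac.fst _ _) ?_ (Fac.fst _ _) ?_ w
        · intro a b hab
          have h6 := Prod.mk.inj hab
          show (a.2.2 j, NPo tb v s a) = (b.2.2 j, NPo tb v s b)
          rw [h6.2, (Prod.mk.inj h6.1).1]
        · intro a b hab
          have h6 := Prod.mk.inj (show (a.2.2 j, NPo tb v s a) = (b.2.2 j, NPo tb v s b) from hab)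
          show ((a.2.2 j, ndq D s a), NPo tb v s a) = ((b.2.2 j, ndq D s b), NPo tb v s b)
          rw [hnd h6.2, h6.1, h6.2]
      have k2 : sp tb.Ps (XLo tb v j s) (fun u => ((u.2.2 j, ndq D s u), cl D v t u)) w =
          sp tb.Ps (XLo tb v j s) (Aq tb v j (5 * t)) w := by
        refine sp_congr tb.Ps (Fac.fst _ _) ?_ (Fac.fst _ _) ?_ w
        · intro a b hab
          have h6 := Prod.mk.inj hab
          show (a.2.2 j, NPo tb v (5 * t) a) = (b.2.2 j, NPo tb v (5 * t) b)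
          rw [hc5 a b h6.2, (Prod.mk.inj h6.1).1]
        · intro a b hab
          have h6 := Prod.mk.inj (show (a.2.2 j, NPo tb v (5 * t) a) = (b.2.2 j, NPo tb v (5 * t) b) from hab)
          show ((a.2.2 j, ndq D s a), cl D v t a) = ((b.2.2 j, ndq D s b), cl D v t b)
          rw [hnd (hle a b h6.2), h6.1, hc6 a b h6.2]
      rw [k1, k2]
    · have h0 : ∀ w : Om W X β, ¬ (e2 q w ∧ st e q w = s) := fun w hw => hq ⟨h5 q w hw.1.1, hw.1.2⟩
      have e5 : ∀ g : Om W X β → ℝ, tb.Ps.E (fun w => ind (e2 q w ∧ st e q w = s) * g w) = 0 := by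
        intro g
        refine (tb.Ps.E_congr fun w _ => ?_).trans (tb.Ps.E_const 0)
        rw [ind_not (h0 w), zero_mul]
      have e6 : tb.Ps.Pr (fun w => e2 q w ∧ st e q w = s) = 0 := by
        refine (tb.Ps.E_congr fun w _ => ?_).trans (tb.Ps.E_const 0)
        exact ind_not (h0 w)
      rw [e5, e5, e6, mul_zero, mul_zero, add_zero]

end

end Pool.Agent.GMH.PayTs
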