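import Pool.Agent.GMH.PayL

/-!
# GMH/PayW (helper15): PAYMENT OF A COVER IN THE WORLD OF A LIFE, NAMES COUNTED (H3.T, payments (P2), (P3))

`X` = sights, `Wr P X r z` = world of the start `r` = law given `X r` as at `z`; cover `covL` of the world, sections `H`, weights
`f`, a FIXED list `x`; `nmW`, `litW` = names and event of GMH/GdyN of the world of the point itself.
* `len_cov` : `kap E (number of the names at σ) ≤ P (covered at σ)` : the names are paid by what is covered;
* `pay_split` : the payment split by the number of the names;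
* `avg_world`, `life_pay`, `life_len` : both in the mean over the worlds.
-/

set_option autoImplicit false
set_option linter.unusedSectionVars false

namespace Pool.Agent.GMH.PayW

open Finset Pool.Agent.PWZ Pool.Agent.M3 Pool.Agent.GMH Pool.Agent.GMH.Gdy Pool.Agent.GMH.GdyN
open Pool.Agent.GMH.GdyR (covL covL_mono covL_change covL_facV rX rH pcL ind_covL pc_ge)

noncomputable section

/-! ## the names are paid by the covered set -/

section len

variable {Om : Type*} [Fintype Om] {P : FP Om} {κ : ℕ → Type*} {X : ∀ t, Om → κ t} {R : Type*}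
  {H : ℕ → R → Om → Prop} {f : R → Om → ℝ} {kap lam : ℝ} {K : ℕ} {th : ℝ} {n : ℕ} {x : Fin n → R}

theorem len_alv (N s : ℕ) (w : Om) : (((List.range N).filterMap (nmf P X H f kap lam K th x s w)).length : ℝ) ≤
    ∑ t ∈ range N, ∑ i, ind (alv P X H f kap lam K th x t i s w) := by
  induction N with
  | zero => simp
  | succ N ih =>
    rw [List.range_succ, List.filterMap_append, List.length_append, Finset.sum_range_succ, Nat.cast_add]
    refine add_le_add ih ?_
    by_cases h : ∃ i, alv P X H f kap lam K th x N i s w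
    · have h2 : (([N].filterMap (nmf P X H f kap lam K th x s w)).length : ℝ) ≤ 1 := by
        have := List.length_filterMap_le (nmf P X H f kap lam K th x s w) [N]
        exact_mod_cast this
      obtain ⟨i, hi⟩ := h
      refine h2.trans ?_
      rw [← ind_of hi]
      exact Finset.single_le_sum (f := fun i => ind (alv P X H f kap lam K th x N i s w))
        (fun _ _ => ind_nonneg _) (mem_univ i)
    · have h2 : nmf P X H f kap lam K th x s w N = none := by
        unfold nmf
        rw [dif_neg h]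
      rw [List.filterMap_cons_none h2, List.filterMap_nil, List.length_nil, Nat.cast_zero]
      exact Finset.sum_nonneg fun _ _ => ind_nonneg _

/-- **THE NAMES ARE PAID BY THE COVERED SET** -/
theorem len_cov (hX : Filt X) (hK : 0 < K) (k0 : 0 < kap) (t0 : 0 < th) {σ : Om → ℕ} (hσ : Stp X σ) :
    kap * P.E (fun w => ((nm P X H f kap lam K th x (σ w) w).length : ℝ)) ≤
      P.Pr (fun w => covL P X H f kap lam K x (σ w) w) := by
  obtain ⟨T, hT⟩ := stp_bdd (σ := σ)
  have h1 : ∀ w, ((nm P X H f kap lam K th x (σ w) w).length : ℝ) ≤ ∑ t ∈ range (T * K), ∑ i,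
      ind (t / K ≤ σ w) * ind (GdyR.tk P (rX X K) (rH H K) f kap lam x t i w) := by
    intro w
    refine (len_alv ((σ w + 1) * K) (σ w) w).trans ?_
    have h5 : (σ w + 1) * K ≤ T * K := Nat.mul_le_mul_right K (hT w)
    refine le_trans (Finset.sum_le_sum fun t ht => Finset.sum_le_sum fun i _ => ?_)
      (Finset.sum_le_sum_of_subset_of_nonneg (Finset.range_subset_range.2 h5) fun t _ _ =>
        Finset.sum_nonneg fun i _ => mul_nonneg (ind_nonneg _) (ind_nonneg _))
    have hs : t / K ≤ σ w := (lt_lev hK).1 (mem_range.1 ht)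
    rw [ind_of hs, one_mul]
    exact ind_mono fun h => alv_tk k0 t0 hs h
  have h2 : ∀ t i, kap * P.E (fun w => ind (t / K ≤ σ w) * ind (GdyR.tk P (rX X K) (rH H K) f kap lam x t i w)) ≤
      P.Pr (fun w => pcL P X H f kap lam K x t i w ∧ t / K ≤ σ w) := by
    intro t i
    have a3 : P.E (fun w => ind (t / K ≤ σ w) * cp P X (t / K) (pcL P X H f kap lam K x t i) w) =
        P.Pr (fun w => pcL P X H f kap lam K x t i w ∧ t / K ≤ σ w) := by
      have hf : Fac (X (t / K)) (fun w => ind (t / K ≤ σ w)) := Fac.ind fun v w e => CR.Stp.le_fac hX hσ _ e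
      unfold FP.Pr cp
      rw [P.E_mul_ce hf]
      exact P.E_congr fun w _ => by rw [ind_and, mul_comm]
    rw [← a3, ← FP.E_smul]
    refine P.E_mono fun w _ => ?_
    have a4 : kap * ind (GdyR.tk P (rX X K) (rH H K) f kap lam x t i w) ≤
        cp P X (t / K) (pcL P X H f kap lam K x t i) w :=
      pc_ge (P := P) (X := rX X K) (H := rH H K) (f := f) (kap := kap) (lam := lam) (x := x) t i w
    calc kap * (ind (t / K ≤ σ w) * ind (GdyR.tk P (rX X K) (rH H K) f kap lam x t i w))
        = ind (t / K ≤ σ w) * (kap * ind (GdyR.tk P (rX X K) (rH H K) f kap lam x t i w)) := by ring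
      _ ≤ _ := mul_le_mul_of_nonneg_left a4 (ind_nonneg _)
  have h3 : kap * P.E (fun w => ((nm P X H f kap lam K th x (σ w) w).length : ℝ)) ≤
      ∑ t ∈ range (T * K), ∑ i, P.Pr (fun w => pcL P X H f kap lam K x t i w ∧ t / K ≤ σ w) := by
    refine (mul_le_mul_of_nonneg_left (P.E_mono fun w _ => h1 w) k0.le).trans ?_
    rw [FP.E_sum, Finset.mul_sum]
    refine Finset.sum_le_sum fun t _ => ?_
    rw [FP.E_sum, Finset.mul_sum]
    exact Finset.sum_le_sum fun i _ => h2 t i
  refine h3.trans ?_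
  have h4 : ∑ t ∈ range (T * K), ∑ i, P.Pr (fun w => pcL P X H f kap lam K x t i w ∧ t / K ≤ σ w) =
      P.E (fun w => ∑ t ∈ range (T * K), ∑ i, ind (pcL P X H f kap lam K x t i w ∧ t / K ≤ σ w)) := by
    rw [FP.E_sum]
    refine Finset.sum_congr rfl fun t _ => ?_
    rw [FP.E_sum]
    rfl
  rw [h4]
  refine P.E_mono fun w _ => ?_
  rw [ind_covL]
  have h5 : (σ w + 1) * K ≤ T * K := Nat.mul_le_mul_right K (hT w)
  have h6 : ∑ t ∈ range (T * K), ∑ i, ind (pcL P X H f kap lam K x t i w ∧ t / K ≤ σ w) =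
      ∑ t ∈ range ((σ w + 1) * K), ∑ i, ind (pcL P X H f kap lam K x t i w ∧ t / K ≤ σ w) := by
    symm
    refine Finset.sum_subset (Finset.range_subset_range.2 h5) fun t _ ht => ?_
    refine Finset.sum_eq_zero fun i _ => ind_not fun h => ht (mem_range.2 ((lt_lev hK).2 h.2))
  rw [h6]
  exact Finset.sum_le_sum fun t _ => Finset.sum_le_sum fun i _ => ind_mono fun h => h.1

/-- the number of the names is bounded -/
theorem len_lt (hK : 0 < K) (k0 : 0 < kap) (t0 : 0 < th) {J : ℕ} (hJ : 1 < th * kap * (J + 1)) (s : ℕ) {w : Om}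
    (hw : P.p w ≠ 0) : (nm P X H f kap lam K th x s w).length ≤ J := by
  have h1 := len_le (P := P) (X := X) (H := H) (f := f) (kap := kap) (lam := lam) (x := x) hK k0.le t0.le s hw
  by_contra h2
  have h3 : ((J : ℝ) + 1) ≤ (nm P X H f kap lam K th x s w).length := by
    exact_mod_cast Nat.succ_le_of_lt (not_le.1 h2)
  have h4 := mul_le_mul_of_nonneg_left h3 (mul_nonneg t0.le k0.le)
  linarith

/-- **the payment split by the number of the names** -/
theorem pay_split (hX : Filt X) (hK : 0 < K) (k0 : 0 < kap) (t0 : 0 < th) (l0 : 0 ≤ lam) {L : ℝ} (L0 : 0 ≤ L)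
    (hL : ∀ a z, f a z ≤ L) (hL' : ∀ a z, -L ≤ f a z) {eps : ℝ} (e0 : 0 < eps) (he : 4 * L * eps ≤ lam * kap)
    (hth : 4 * L * th ≤ lam * eps) {σ : Om → ℕ} (hσ : Stp X σ) {J : ℕ} (hJ : 1 < th * kap * (J + 1)) :
    lam * P.Pr (fun w => covL P X H f kap lam K x (σ w) w) ≤
      4 * ∑ j ∈ range J, P.E (fun w => ind (cp P X (σ w) (ded P X H f kap lam K th x (σ w)) w ≤ eps ∧
        (nm P X H f kap lam K th x (σ w) w).length = j + 1) * dl H f (nm P X H f kap lam K th x (σ w) w) w) := by
  refine (payD hX hK k0 t0 l0 L0 hL hL' e0 he hth hσ).trans (le_of_eq ?_)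
  congr 1
  rw [← FP.E_sum]
  refine P.E_congr fun w hw => ?_
  set l := nm P X H f kap lam K th x (σ w) w with hl
  have hlen : l.length ≤ J := len_lt hK k0 t0 hJ (σ w) hw
  rcases Nat.eq_zero_or_pos l.length with h0 | h0
  · have e1 : l = [] := List.length_eq_zero_iff.1 h0
    rw [e1]
    show _ * (0 : ℝ) = _
    rw [mul_zero]
    symm
    exact Finset.sum_eq_zero fun j _ => by
      show _ * (0 : ℝ) = 0
      rw [mul_zero]
  · rw [Finset.sum_eq_single (l.length - 1)]
    · congr 1
      refine congrArg ind (propext ⟨fun h => ⟨h, by omega⟩, fun h => h.1⟩)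
    · intro j _ hj
      rw [ind_not (fun h => hj (by omega)), zero_mul]
    · intro h
      exact absurd (mem_range.2 (by omega)) h

end len

/-! ## worlds -/

section wr

variable {Om : Type*} [Fintype Om] (P : FP Om) {κ : ℕ → Type*} (X : ∀ t, Om → κ t)

/-- **world of the start `r`** -/
def Wr (r : ℕ) (z : Om) : FP Om := P.cond fun w => X r w = X r z

variable {P X}

theorem Wr_eq {r : ℕ} {z z' : Om} (h : X r z = X r z') : Wr P X r z = Wr P X r z' := by
  unfold Wr
  rw [h]

theorem Wr_supp {r : ℕ} {z w : Om} (hz : P.p z ≠ 0) : (Wr P X r z).p w ≠ 0 ↔ P.p w ≠ 0 ∧ X r w = X r z := by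
  unfold Wr
  rw [FP.cond_p_ne (P.m_pos (X r) hz).ne']
  exact and_comm

/-- **mean over the worlds** -/
theorem avg_world {r : ℕ} {g : Om → ℝ} (hg : Fac (X r) g) {F : Om → Om → ℝ}
    (hF : ∀ z z', X r z = X r z' → F z = F z') :
    P.E (fun z => g z * (Wr P X r z).E (F z)) = P.E (fun w => g w * F w w) := by
  rw [← P.E_mul_ce hg (fun w => F w w)]
  refine P.E_congr fun z hz => ?_
  congr 1
  unfold Wr
  rw [← P.ce_eq_cond (X r) (F z) hz]
  exact ce_congr_on fun w _ hw => by rw [hF w z hw]

end wr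

/-! ## one life in the mean over the worlds -/

section life

variable {Om : Type*} [Fintype Om] (P : FP Om) {κ : ℕ → Type*} (X : ∀ t, Om → κ t) {R : Type*}
  (H : ℕ → R → Om → Prop) (f : R → Om → ℝ) (kap lam : ℝ) (K : ℕ) (th : ℝ) {n : ℕ} (x : Fin n → R)

/-- names in the world of the point -/
def nmW (r s : ℕ) (w : Om) : List ((ℕ × R) × Bool) := nm (Wr P X r w) X H f kap lam K th x s w

/-- little of the cell is dead, in the world of the point -/
def litW (eps : ℝ) (r s : ℕ) (w : Om) : Prop :=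
  cp (Wr P X r w) X s (ded (Wr P X r w) X H f kap lam K th x s) w ≤ eps

/-- covered mass of a life, in the mean over the worlds -/
def cvW (r : ℕ) (g : Om → ℝ) (σ : Om → ℕ) : ℝ :=
  P.E (fun z => g z * (Wr P X r z).Pr (fun w => covL (Wr P X r z) X H f kap lam K x (σ w) w))

variable {P X H f kap lam K th x}

theorem nmW_fac (hX : Filt X) {r s : ℕ} (hrs : r ≤ s) : Fac (X s) (nmW P X H f kap lam K th x r s) := by
  intro v w e
  unfold nmW
  rw [Wr_eq (hX.le hrs v w e)]
  exact nm_fac hX s v w e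

theorem litW_fac (hX : Filt X) {eps : ℝ} {r s : ℕ} (hrs : r ≤ s) : Fac (X s) (litW P X H f kap lam K th x eps r s) := by
  intro v w e
  unfold litW
  rw [Wr_eq (hX.le hrs v w e), cp_fac s _ v w e]

theorem cvW_nn {r : ℕ} {g : Om → ℝ} (g0 : ∀ w, 0 ≤ g w) {σ : Om → ℕ} : 0 ≤ cvW P X H f kap lam K x r g σ :=
  P.E_nonneg fun _ _ => mul_nonneg (g0 _) (FP.Pr_nonneg _ _)

/-- **the payment of one life** -/
theorem life_pay (hX : Filt X) (hK : 0 < K) (k0 : 0 < kap) (t0 : 0 < th) (l0 : 0 ≤ lam) {L : ℝ} (L0 : 0 ≤ L)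
    (hL : ∀ a z, f a z ≤ L) (hL' : ∀ a z, -L ≤ f a z) {eps : ℝ} (e0 : 0 < eps) (he : 4 * L * eps ≤ lam * kap)
    (hth : 4 * L * th ≤ lam * eps) {σ : Om → ℕ} (hσ : Stp X σ) {J : ℕ} (hJ : 1 < th * kap * (J + 1)) {r : ℕ}
    {g : Om → ℝ} (hg : Fac (X r) g) (g0 : ∀ w, 0 ≤ g w) :
    lam * cvW P X H f kap lam K x r g σ ≤
      4 * ∑ j ∈ range J, P.E (fun w => g w * (ind (litW P X H f kap lam K th x eps r (σ w) w ∧
        (nmW P X H f kap lam K th x r (σ w) w).length = j + 1) * dl H f (nmW P X H f kap lam K th x r (σ w) w) w)) := by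
  have h1 : lam * cvW P X H f kap lam K x r g σ ≤ P.E (fun z => g z * (Wr P X r z).E (fun w =>
      4 * ∑ j ∈ range J, ind (cp (Wr P X r z) X (σ w) (ded (Wr P X r z) X H f kap lam K th x (σ w)) w ≤ eps ∧
        (nm (Wr P X r z) X H f kap lam K th x (σ w) w).length = j + 1) *
          dl H f (nm (Wr P X r z) X H f kap lam K th x (σ w) w) w)) := by
    unfold cvW
    rw [← P.E_smul]
    refine P.E_mono fun z _ => ?_
    rw [show lam * (g z * (Wr P X r z).Pr (fun w => covL (Wr P X r z) X H f kap lam K x (σ w) w)) =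
      g z * (lam * (Wr P X r z).Pr (fun w => covL (Wr P X r z) X H f kap lam K x (σ w) w)) from by ring]
    refine mul_le_mul_of_nonneg_left ?_ (g0 z)
    have h2 := pay_split (P := Wr P X r z) (X := X) (H := H) (f := f) (kap := kap) (lam := lam) (x := x) hX hK k0 t0 l0
      L0 hL hL' e0 he hth hσ hJ
    rw [FP.E_smul, FP.E_sum]
    exact h2
  refine h1.trans (le_of_eq ?_)
  rw [avg_world (P := P) (X := X) (r := r) hg (F := fun z w =>
      4 * ∑ j ∈ range J, ind (cp (Wr P X r z) X (σ w) (ded (Wr P X r z) X H f kap lam K th x (σ w)) w ≤ eps ∧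
        (nm (Wr P X r z) X H f kap lam K th x (σ w) w).length = j + 1) *
          dl H f (nm (Wr P X r z) X H f kap lam K th x (σ w) w) w) fun z z' e => by
    simp only [Wr_eq e]]
  rw [← FP.E_sum, ← FP.E_smul]
  refine P.E_congr fun w _ => ?_
  unfold litW nmW
  rw [Finset.mul_sum, Finset.mul_sum, Finset.mul_sum]
  exact Finset.sum_congr rfl fun j _ => by ring

/-- **the names of one life** -/
theorem life_len (hX : Filt X) (hK : 0 < K) (k0 : 0 < kap) (t0 : 0 < th) {σ : Om → ℕ} (hσ : Stp X σ) {r : ℕ}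
    {g : Om → ℝ} (hg : Fac (X r) g) (g0 : ∀ w, 0 ≤ g w) :
    kap * P.E (fun w => g w * ((nmW P X H f kap lam K th x r (σ w) w).length : ℝ)) ≤
      cvW P X H f kap lam K x r g σ := by
  rw [show (fun w => g w * ((nmW P X H f kap lam K th x r (σ w) w).length : ℝ)) = fun w => g w *
    (fun z u => ((nm (Wr P X r z) X H f kap lam K th x (σ u) u).length : ℝ)) w w from rfl,
    ← avg_world (P := P) (X := X) (r := r) hg (F := fun z u =>
      ((nm (Wr P X r z) X H f kap lam K th x (σ u) u).length : ℝ)) fun z z' e => by simp only [Wr_eq e]]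
  unfold cvW
  rw [← P.E_smul]
  refine P.E_mono fun z _ => ?_
  have h2 := mul_le_mul_of_nonneg_left (len_cov (P := Wr P X r z) (X := X) (H := H) (f := f) (kap := kap) (lam := lam)
    (K := K) (th := th) (x := x) hX hK k0 t0 hσ) (g0 z)
  calc kap * (g z * (Wr P X r z).E fun u => ((nm (Wr P X r z) X H f kap lam K th x (σ u) u).length : ℝ))
      = g z * (kap * (Wr P X r z).E fun u => ((nm (Wr P X r z) X H f kap lam K th x (σ u) u).length : ℝ)) := by ring
    _ ≤ _ := h2

end life

end

end Pool.Agent.GMH.PayW
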