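import Pool.Agent.GMH.CR

/-!
# GMH/Phs (helper40): one phase of (U1), Lemma CR with several kinds of ends (notes 3898 (2), 3926 (B), 3936 (2))

Notation of GMH/CR.  The phase starts at the time 0 and ends at the stopping time `σ` of the nodes; kinds of ends: `rm`
(removal), `nr` (end without removal), `kl` (last level).  At an end `nr` the density of the relation `R` in the node is at
most `y / 2`.
`fi x s i w` = the row `x i` is the first sampled row which deviates, at the time `s` (smallest index at the first time).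

* `pay_fi` : payment of `T_Y`: `lam/2 P (T_Y ≤ σ) ≤ E 1(T_Y ≤ σ) g` if `ru (x i) σ - lam/2 ≤ g` for the FIRST deviating row;
* `sc` = something is covered; `sc_le` : `P (sc at σ) ≤ 4/u E Phi(σ)`;
* `rel_nr` : the released sum at the ends without removal is at least `- 2 Cn y / u E Phi(σ) - Cn P (last level)`;
* `start_le` : rows which deviate at the start: the relation has density at most `y8` there;
* `phase` : everything together;
* `count` : `y/2 ≤ P (removal or last level)` if the relation has density at least `y` at the start.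
-/

set_option autoImplicit false
set_option linter.unusedSectionVars false

namespace Pool.Agent.GMH.CR

open Finset Pool.Agent.PWZ Pool.Agent.M3 Pool.Agent.GMH.Gdy

noncomputable section

variable {Om : Type*} [Fintype Om] {P : FP Om} {κ κ' : ℕ → Type*} {cU : ∀ t, Om → κ t} {cV : ∀ t, Om → κ' t}
  {α ω : Type*} {U : Om → α} {V : Om → ω} {R : α → ω → Prop} {F : α → ω → ℝ} {u lam L : ℝ}

/-! ## the payment of the first deviator -/

variable (P cV V F lam) in
/-- the first deviator: time `s`, index `i` -/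
def fi {M : ℕ} (x : Fin M → α) (s : ℕ) (i : Fin M) (w : Om) : Prop :=
  (∀ s' < s, ¬ dY P cV V F lam x s' w) ∧ lam < ru P cV V F (x i) s w ∧ ∀ j < i, ¬ lam < ru P cV V F (x j) s w

theorem fi_iff (fV : Filt cV) {M : ℕ} {x : Fin M → α} {s : ℕ} {i : Fin M} {v w : Om} (h : cV s v = cV s w) :
    fi P cV V F lam x s i v ↔ fi P cV V F lam x s i w := by
  unfold fi
  rw [ru_fac (P := P) (V := V) (F := F) (x i) s v w h]
  refine and_congr (forall_congr' fun s' => forall_congr' fun hs' => ?_) (and_congr_right fun _ =>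
    forall_congr' fun j => forall_congr' fun _ => ?_)
  · rw [dY_iff fV (fV.le hs'.le v w h)]
  · rw [ru_fac (P := P) (V := V) (F := F) (x j) s v w h]

theorem fi_fY {M : ℕ} {x : Fin M → α} {s : ℕ} {i : Fin M} {w : Om} (h : fi P cV V F lam x s i w) :
    fY P cV V F lam x s w := ⟨⟨s, le_rfl, i, h.2.1⟩, h.1⟩

theorem fi_one {M : ℕ} {x : Fin M → α} {s : ℕ} {i i' : Fin M} {w : Om} (h : fi P cV V F lam x s i w)
    (h' : fi P cV V F lam x s i' w) : i = i' := by
  rcases lt_trichotomy i i' with h1 | h1 | h1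
  · exact absurd h.2.1 (h'.2.2 i h1)
  · exact h1
  · exact absurd h'.2.1 (h.2.2 i' h1)

theorem fi_ex {M : ℕ} {x : Fin M → α} {s : ℕ} {w : Om} (h : fY P cV V F lam x s w) :
    ∃ i, fi P cV V F lam x s i w := by
  classical
  obtain ⟨⟨s', hs', i, hi⟩, h2⟩ := h
  have hs : s' = s := by
    rcases lt_or_eq_of_le hs' with h3 | h3
    · exact absurd ⟨s', le_rfl, i, hi⟩ (h2 s' h3)
    · exact h3
  subst hs
  have hne : (univ.filter fun j => lam < ru P cV V F (x j) s' w).Nonempty := ⟨i, by simpa using hi⟩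
  refine ⟨(univ.filter fun j => lam < ru P cV V F (x j) s' w).min' hne, h2, ?_, fun j hj hj' => ?_⟩
  · have := Finset.min'_mem _ hne
    simpa using this
  · have := Finset.min'_le (univ.filter fun j => lam < ru P cV V F (x j) s' w) j (by simpa using hj')
    exact absurd hj (not_lt.2 this)

theorem fi_sum {M : ℕ} {x : Fin M → α} (s : ℕ) (w : Om) :
    ∑ i, ind (fi P cV V F lam x s i w) = ind (fY P cV V F lam x s w) := by
  by_cases h : fY P cV V F lam x s w
  · obtain ⟨i, hi⟩ := fi_ex h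
    rw [ind_of h, Finset.sum_eq_single i, ind_of hi]
    · intro b _ hb
      exact ind_not fun h' => hb (fi_one h' hi)
    · intro h'
      exact absurd (mem_univ _) h'
  · rw [ind_not h]
    exact Finset.sum_eq_zero fun i _ => ind_not fun h' => h (fi_fY h')

/-- **the payment of the first deviator** -/
theorem pay_fi (hI : P.Indep U V) (hU : ∀ s, Fac U (cU s)) (hV : ∀ s, Fac V (cV s)) (fU : Filt cU) (fV : Filt cV)
    {M : ℕ} (x : Fin M → α) {σ : Om → ℕ} (hσ : Stp (pair cU cV) σ) {T : ℕ} (hT : ∀ w, σ w < T) {g : Om → ℝ}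
    (hg : ∀ s i w, P.p w ≠ 0 → fi P cV V F lam x s i w → s ≤ σ w → ru P cV V F (x i) (σ w) w - lam / 2 ≤ g w) :
    lam / 2 * P.Pr (fun w => dY P cV V F lam x (σ w) w) ≤
      P.E (fun w => ind (dY P cV V F lam x (σ w) w) * g w) := by
  classical
  have hone : ∀ s i, lam / 2 * P.E (fun w => ind (fi P cV V F lam x s i w) * ind (s ≤ σ w)) ≤
      P.E (fun w => ind (fi P cV V F lam x s i w) * ind (s ≤ σ w) * g w) := by
    intro s i
    have he : Fac (pair cU cV s) (fun w => ind (fi P cV V F lam x s i w)) :=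
      Fac.ind fun v w h => fi_iff fV (pair_eq.1 h).2
    have h1 := E_opt (P := P) (F := F) hI hU hV fU fV hσ hT (x i) he
    have h2 : P.E (fun w => ind (fi P cV V F lam x s i w) * ind (s ≤ σ w) * ru P cV V F (x i) (σ w) w) -
        lam / 2 * P.E (fun w => ind (fi P cV V F lam x s i w) * ind (s ≤ σ w)) ≤
        P.E (fun w => ind (fi P cV V F lam x s i w) * ind (s ≤ σ w) * g w) := by
      rw [← FP.E_smul, ← FP.E_sub]
      refine P.E_mono fun w hw => ?_
      by_cases h3 : fi P cV V F lam x s i w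
      · by_cases h4 : s ≤ σ w
        · rw [ind_of h3, ind_of h4]
          have := hg s i w hw h3 h4
          linarith
        · rw [ind_not h4]
          simp
      · rw [ind_not h3]
        simp
    have h3 : lam * P.E (fun w => ind (fi P cV V F lam x s i w) * ind (s ≤ σ w)) ≤
        P.E (fun w => ind (fi P cV V F lam x s i w) * ind (s ≤ σ w) * ru P cV V F (x i) s w) := by
      rw [← FP.E_smul]
      refine P.E_mono fun w _ => ?_
      by_cases h4 : fi P cV V F lam x s i w
      · have h5 : 0 ≤ ind (s ≤ σ w) := ind_nonneg _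
        rw [ind_of h4]
        nlinarith [h4.2.1]
      · rw [ind_not h4]
        simp
    linarith
  have hsum : ∀ w, ∑ s ∈ range T, ∑ i, ind (fi P cV V F lam x s i w) * ind (s ≤ σ w) =
      ind (dY P cV V F lam x (σ w) w) := by
    intro w
    rw [← dY_sum (hT w) w]
    refine Finset.sum_congr rfl fun s _ => ?_
    rw [← Finset.sum_mul, fi_sum s w]
    by_cases a : fY P cV V F lam x s w
    · rw [ind_of a, one_mul, propext (and_iff_right a)]
    · rw [ind_not a, zero_mul, ind_not (fun h => a h.1)]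
  unfold FP.Pr
  simp only [← hsum]
  rw [FP.E_sum, Finset.mul_sum]
  simp only [Finset.sum_mul]
  rw [FP.E_sum]
  refine Finset.sum_le_sum fun s _ => ?_
  rw [FP.E_sum, FP.E_sum, Finset.mul_sum]
  exact Finset.sum_le_sum fun i _ => hone s i

/-! ## something is covered -/

variable (P cU u) in
/-- something is covered in the node of `U`, at a time `≤ s` -/
def sc (HU : ℕ → Om → Prop) (M' : ℕ) (s : ℕ) (w : Om) : Prop := ∃ s' ≤ s, ∃ r < M', tk P cU u HU M' s' r w

theorem sc_iff (fU : Filt cU) {HU : ℕ → Om → Prop} {M' s : ℕ} {v w : Om} (h : cU s v = cU s w) :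
    sc P cU u HU M' s v ↔ sc P cU u HU M' s w := by
  unfold sc
  refine exists_congr fun s' => and_congr_right fun hs' => exists_congr fun r => and_congr_right fun _ => ?_
  exact tk_fac (fU.le hs' v w h)

theorem nc_tk {HU : ℕ → Om → Prop} {M' s : ℕ} {w : Om} (h : nc P cU u HU M' s w) :
    ∃ r < M', tk P cU u HU M' s r w := by
  have h1 := ind_cov_succ (P := P) (X := cU) (u := u) (H := HU) (M := M') s w
  rw [ind_of h.1, ind_not h.2, zero_add] at h1
  by_contra hcon
  push Not at hcon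
  rw [Finset.sum_eq_zero fun r hr => ind_not fun h2 => hcon r (mem_range.1 hr) h2.2.2] at h1
  exact one_ne_zero h1

theorem rl_sc {HU : ℕ → Om → Prop} {M' M : ℕ} {x : Fin M → α} {s : ℕ} {w : Om}
    (h : rl P cU cV V F u lam HU M' x (s + 1) w) : sc P cU u HU M' s w := by
  obtain ⟨s', hs', hn, _⟩ := h
  obtain ⟨r, hr, ht⟩ := nc_tk hn
  exact ⟨s', by omega, r, hr, ht⟩

/-- the mean of a function of `U` with weights which see the node -/
theorem E_U (hI : P.Indep U V) (hU : ∀ s, Fac U (cU s)) (hV : ∀ s, Fac V (cV s)) {s : ℕ} {e f : Om → ℝ}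
    (he : Fac (pair cU cV s) e) (hf : Fac U f) : P.E (fun w => e w * P.ce (cU s) f w) = P.E (fun w => e w * f w) := by
  have he' : Fac (pair cV cU s) e := fun v w h => he v w (pair_eq.2 ⟨(pair_eq.1 h).2, (pair_eq.1 h).1⟩)
  rw [← P.E_mul_ce he' f]
  refine P.E_congr fun w hw => ?_
  rw [ce_pair hI.symm hV hU s hf hw]

/-- **something is covered: paid by the potential** -/
theorem sc_cov (hI : P.Indep U V) (hU : ∀ s, Fac U (cU s)) (hV : ∀ s, Fac V (cV s)) (fU : Filt cU) (fV : Filt cV)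
    {HU : ℕ → Om → Prop} {M' : ℕ} (hH' : ∀ r v w, U v = U w → (HU r v ↔ HU r w)) {σ : Om → ℕ}
    (hσ : Stp (pair cU cV) σ) {T : ℕ} (hT : ∀ w, σ w < T) :
    u / 2 * P.Pr (fun w => sc P cU u HU M' (σ w) w) ≤ P.Pr (fun w => cov P cU u HU M' (σ w + 1) w) := by
  -- the covered set as a sum
  have h1 : ∀ n w, ind (cov P cU u HU M' n w) = ∑ s ∈ range n, ∑ r ∈ range M', ind (nw P cU u HU M' s r w) := by
    intro n w
    induction n with
    | zero => exact ind_not fun h => h
    | succ n ih => rw [Finset.sum_range_succ, ← ih, ind_cov_succ]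
  have h2 : ∀ w, ind (cov P cU u HU M' (σ w + 1) w) =
      ∑ s ∈ range T, ∑ r ∈ range M', ind (s ≤ σ w) * ind (nw P cU u HU M' s r w) := by
    intro w
    rw [h1]
    have h3 : (range T).filter (fun s => s ≤ σ w) = range (σ w + 1) := by
      ext s
      rw [mem_filter, mem_range, mem_range]
      have := hT w
      omega
    rw [← h3, Finset.sum_filter]
    refine Finset.sum_congr rfl fun s _ => ?_
    by_cases h4 : s ≤ σ w
    · rw [if_pos h4, ind_of h4]
      simp
    · rw [if_neg h4, ind_not h4]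
      simp
  have h3 : ∀ s r, u / 2 * P.E (fun w => ind (s ≤ σ w) * ind (tk P cU u HU M' s r w)) ≤
      P.E (fun w => ind (s ≤ σ w) * ind (nw P cU u HU M' s r w)) := by
    intro s r
    have he : Fac (pair cU cV s) (fun w => ind (s ≤ σ w)) :=
      Fac.ind fun v w hvw => Stp.le_fac (pair_filt fU fV) hσ s hvw
    have hf : Fac U (fun w => ind (nw P cU u HU M' s r w)) := Fac.ind fun v w h => by
      have h4 := hH' r v w h
      have h5 := (Cv_fac (P := P) (u := u) (M := M') hU hH' s) r v w h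
      have h6 := tk_fac (P := P) (u := u) (H := HU) (M := M') (r := r) (hU s v w h)
      unfold nw
      rw [h4, h5, h6]
    rw [← E_U hI hU hV he hf, ← FP.E_smul]
    refine P.E_mono fun w _ => ?_
    by_cases ht : tk P cU u HU M' s r w
    · have h5 : u / 2 ≤ P.ce (cU s) (fun w => ind (nw P cU u HU M' s r w)) w := cp_nw_ge ht
      rw [ind_of ht, mul_one]
      have h6 := mul_le_mul_of_nonneg_left h5 (ind_nonneg (s ≤ σ w))
      linarith
    · rw [ind_not ht, mul_zero, mul_zero]
      exact mul_nonneg (ind_nonneg _) (cp_nonneg _ _ _)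
  have h4 : u / 2 * P.E (fun w => ∑ s ∈ range T, ∑ r ∈ range M', ind (s ≤ σ w) * ind (tk P cU u HU M' s r w)) ≤
      P.Pr (fun w => cov P cU u HU M' (σ w + 1) w) := by
    unfold FP.Pr
    simp only [h2]
    rw [FP.E_sum, FP.E_sum, Finset.mul_sum]
    refine Finset.sum_le_sum fun s _ => ?_
    rw [FP.E_sum, FP.E_sum, Finset.mul_sum]
    exact Finset.sum_le_sum fun r _ => h3 s r
  by_cases hu : 0 ≤ u
  · refine le_trans (mul_le_mul_of_nonneg_left ?_ (by linarith)) h4
    refine P.E_mono fun w _ => ?_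
    by_cases hs : sc P cU u HU M' (σ w) w
    · rw [ind_of hs]
      obtain ⟨s, hs, r, hr, ht⟩ := hs
      have hn : ∀ s ∈ range T, 0 ≤ ∑ r ∈ range M', ind (s ≤ σ w) * ind (tk P cU u HU M' s r w) := fun s _ =>
        Finset.sum_nonneg fun r _ => mul_nonneg (ind_nonneg _) (ind_nonneg _)
      have h5 := Finset.single_le_sum hn (show s ∈ range T from mem_range.2 (by have := hT w; omega))
      have hn' : ∀ r ∈ range M', 0 ≤ ind (s ≤ σ w) * ind (tk P cU u HU M' s r w) := fun r _ =>
        mul_nonneg (ind_nonneg _) (ind_nonneg _)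
      have h6 := Finset.single_le_sum hn' (mem_range.2 hr)
      have h7 : ind (s ≤ σ w) * ind (tk P cU u HU M' s r w) = 1 := by rw [ind_of hs, ind_of ht, mul_one]
      linarith
    · rw [ind_not hs]
      exact Finset.sum_nonneg fun s _ => Finset.sum_nonneg fun r _ => mul_nonneg (ind_nonneg _) (ind_nonneg _)
  · have h5 : 0 ≤ P.Pr (fun w => sc P cU u HU M' (σ w) w) := P.Pr_nonneg _
    have h6 : 0 ≤ P.Pr (fun w => cov P cU u HU M' (σ w + 1) w) := P.Pr_nonneg _
    nlinarith

theorem sc_le (hI : P.Indep U V) (hU : ∀ s, Fac U (cU s)) (hV : ∀ s, Fac V (cV s)) (fU : Filt cU) (fV : Filt cV)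
    {HU : ℕ → Om → Prop} {M' : ℕ} (hH' : ∀ r v w, U v = U w → (HU r v ↔ HU r w)) (hu : 0 < u) {σ : Om → ℕ}
    (hσ : Stp (pair cU cV) σ) {T : ℕ} (hT : ∀ w, σ w < T) :
    P.Pr (fun w => sc P cU u HU M' (σ w) w) ≤ 4 / u * P.E (fun w => Phi P cU u HU M' (σ w) w) := by
  have h1 := sc_cov (P := P) (u := u) (M' := M') hI hU hV fU fV hH' hσ hT
  have h2 := covV_le (P := P) (u := u) (H := HU) (M := M') (cU := cV) (cV := cU) hI.symm hV hU fV fU hH' hu hσ.swap
  rw [div_mul_eq_mul_div, le_div_iff₀ hu]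
  linarith

/-! ## the ends -/

/-- the event at a stopping time: the relation has density at most `b` in the node, weights which see the node -/
theorem E_dens_le {σ : Om → ℕ} {T : ℕ} (hT : ∀ w, σ w < T) {e : Om → ℝ}
    (he : ∀ s, Fac (pair cU cV s) (fun w => ind (σ w = s) * e w)) (he0 : ∀ w, 0 ≤ e w) {b : ℝ}
    (hb : ∀ w, P.p w ≠ 0 → e w ≠ 0 → cp P (pair cU cV) (σ w) (fun v => R (U v) (V v)) w ≤ b) :
    P.E (fun w => e w * ind (R (U w) (V w))) ≤ b * P.E e := by
  rw [E_stop hT (fun _ w => e w * ind (R (U w) (V w))), E_stop hT (fun _ w => e w), Finset.mul_sum]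
  refine Finset.sum_le_sum fun s _ => ?_
  have h1 := P.E_mul_ce (he s) (fun w => ind (R (U w) (V w)))
  rw [← FP.E_smul]
  calc P.E (fun w => ind (σ w = s) * (e w * ind (R (U w) (V w))))
      = P.E (fun w => ind (σ w = s) * e w * ind (R (U w) (V w))) := P.E_congr fun w _ => by ring
    _ = P.E (fun w => ind (σ w = s) * e w * P.ce (pair cU cV s) (fun w => ind (R (U w) (V w))) w) := h1.symm
    _ ≤ _ := by
        refine P.E_mono fun w hw => ?_
        by_cases h2 : σ w = s
        · by_cases h3 : e w = 0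
          · rw [h3]
            simp
          · have h4 := hb w hw h3
            rw [h2] at h4
            rw [ind_of h2, one_mul]
            have h5 := mul_le_mul_of_nonneg_left h4 (he0 w)
            have h6 : e w * P.ce (pair cU cV s) (fun w => ind (R (U w) (V w))) w ≤ e w * b := h5
            linarith
        · rw [ind_not h2]
          simp

/-- **the released sum at the ends without removal** -/
theorem rel_nr (hI : P.Indep U V) (hU : ∀ s, Fac U (cU s)) (hV : ∀ s, Fac V (cV s)) (fU : Filt cU) (fV : Filt cV)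
    {Cn y : ℝ} (hC : ∀ c z, - (Cn * ind (R c z)) ≤ F c z) (hC0 : 0 ≤ Cn)
    {HU : ℕ → Om → Prop} {M' : ℕ} (hH' : ∀ r v w, U v = U w → (HU r v ↔ HU r w)) (hu : 0 < u) {M : ℕ} (x : Fin M → α)
    {σ : Om → ℕ} (hσ : Stp (pair cU cV) σ) {T : ℕ} (hT : ∀ w, σ w < T) (hy : 0 ≤ y) {rm nr kl : Om → Prop}
    (hnr : ∀ s v w, pair cU cV s v = pair cU cV s w → σ w = s → (nr v ↔ nr w))
    (hex : ∀ w, P.p w ≠ 0 → rm w ∨ nr w ∨ kl w)
    (hd : ∀ w, P.p w ≠ 0 → nr w → cp P (pair cU cV) (σ w) (fun v => R (U v) (V v)) w ≤ y / 2) :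
    P.E (fun w => ind (rl P cU cV V F u lam HU M' x (σ w + 1) w) * (F (U w) (V w) * ind (rm w))) ≤
      P.E (fun w => ind (rl P cU cV V F u lam HU M' x (σ w + 1) w) * F (U w) (V w)) +
        2 * Cn * y / u * P.E (fun w => Phi P cU u HU M' (σ w) w) + Cn * P.Pr kl := by
  have h1 : P.E (fun w => ind (sc P cU u HU M' (σ w) w) * ind (nr w) * ind (R (U w) (V w))) ≤
      y / 2 * P.E (fun w => ind (sc P cU u HU M' (σ w) w) * ind (nr w)) := by
    refine E_dens_le (cU := cU) (cV := cV) hT (fun s => ?_) (fun w => mul_nonneg (ind_nonneg _) (ind_nonneg _))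
      (fun w hw h => hd w hw ?_)
    · intro v w hvw
      have h2 := Stp.eq_fac (pair_filt fU fV) hσ s v w hvw
      simp only at h2 ⊢
      by_cases h3 : σ w = s
      · have h4 : σ v = s := by
          by_contra h4
          rw [ind_not h4, ind_of h3] at h2
          exact zero_ne_one h2
        rw [h3, h4, propext (hnr s v w hvw h3), propext (sc_iff fU (pair_eq.1 hvw).1)]
      · have h4 : ¬ σ v = s := by
          intro h4
          rw [ind_of h4, ind_not h3] at h2
          exact one_ne_zero h2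
        rw [ind_not h3, ind_not h4, zero_mul, zero_mul]
    · by_contra h2
      exact h (by rw [ind_not h2, mul_zero])
  have h2 : P.E (fun w => ind (sc P cU u HU M' (σ w) w) * ind (nr w)) ≤ P.Pr (fun w => sc P cU u HU M' (σ w) w) :=
    P.E_mono fun w _ => mul_le_of_le_one_right (ind_nonneg _) (ind_le_one _)
  have h3 := sc_le (P := P) (M' := M') hI hU hV fU fV hH' hu hσ hT
  have h4 : y / 2 * P.E (fun w => ind (sc P cU u HU M' (σ w) w) * ind (nr w)) ≤
      2 * y / u * P.E (fun w => Phi P cU u HU M' (σ w) w) := by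
    have h5 := mul_le_mul_of_nonneg_left (h2.trans h3) (show 0 ≤ y / 2 by linarith)
    refine h5.trans (le_of_eq ?_)
    ring
  have h5 := mul_le_mul_of_nonneg_left (h1.trans h4) hC0
  have h6 : P.E (fun w => ind (rl P cU cV V F u lam HU M' x (σ w + 1) w) * (F (U w) (V w) * ind (rm w))) ≤
      P.E (fun w => ind (rl P cU cV V F u lam HU M' x (σ w + 1) w) * F (U w) (V w)) +
        Cn * P.E (fun w => ind (sc P cU u HU M' (σ w) w) * ind (nr w) * ind (R (U w) (V w))) + Cn * P.Pr kl := by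
    unfold FP.Pr
    rw [← FP.E_smul, ← FP.E_smul, ← FP.E_add, ← FP.E_add]
    refine P.E_mono fun w hw => ?_
    have h7 := hC (U w) (V w)
    have n1 : 0 ≤ ind (sc P cU u HU M' (σ w) w) * ind (nr w) * ind (R (U w) (V w)) :=
      mul_nonneg (mul_nonneg (ind_nonneg _) (ind_nonneg _)) (ind_nonneg _)
    have n2 := mul_nonneg hC0 n1
    have n3 := mul_nonneg hC0 (ind_nonneg (kl w))
    have n4 := ind_le_one (R (U w) (V w))
    by_cases h8 : rl P cU cV V F u lam HU M' x (σ w + 1) w
    · rw [ind_of h8, one_mul, one_mul]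
      by_cases h9 : rm w
      · rw [ind_of h9, mul_one]
        linarith
      · rw [ind_not h9, mul_zero]
        rcases hex w hw with h10 | h10 | h10
        · exact absurd h10 h9
        · rw [ind_of (rl_sc h8), ind_of h10, one_mul, one_mul]
          linarith
        · rw [ind_of h10, mul_one]
          have := mul_le_mul_of_nonneg_left n4 hC0
          linarith
    · rw [ind_not h8, zero_mul, zero_mul, zero_add]
      linarith
  have e : Cn * (2 * y / u * P.E (fun w => Phi P cU u HU M' (σ w) w)) =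
      2 * Cn * y / u * P.E (fun w => Phi P cU u HU M' (σ w) w) := by ring
  rw [e] at h5
  linarith

/-- (3) a sampled row deviates before `U` is covered, the start separately -/
theorem late_le' (hI : P.Indep U V) (hU : ∀ s, Fac U (cU s)) (hV : ∀ s, Fac V (cV s)) (fU : Filt cU) (fV : Filt cV)
    {HU : ℕ → Om → Prop} {M' : ℕ} (hH' : ∀ r v w, U v = U w → (HU r v ↔ HU r w)) (hu : 0 < u) {h : ℝ} (h0 : 0 ≤ h)
    {T : ℕ} (hm : ∀ s w, P.p w ≠ 0 → P.m (cU s) w ≤ h * P.m (cU (s + 1)) w) {M : ℕ} (x : Fin M → α) {σ : Om → ℕ}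
    (hσ : Stp (pair cU cV) σ) (hT : ∀ w, σ w < T) :
    P.Pr (fun w => R (U w) (V w) ∧ ∃ s ≤ σ w, fY P cV V F lam x s w ∧ ¬ cov P cU u HU M' s w) ≤
      h * u / 2 * P.Pr (fun w => dY P cV V F lam x (σ w) w) +
        P.Pr (badV P cU V U (fun v a => R a v) u HU M' T) +
        P.Pr (fun w => R (U w) (V w) ∧ dY P cV V F lam x 0 w) := by
  set f : ℕ → Om → Prop := fun s w => fY P cV V F lam x s w ∧ s ≤ σ w with hf
  have h1 := late_gen (P := P) (cU := cU) (cV := cV) (R := R) (u := u) (HU := HU) (M' := M') hI hU hV fU hH' hu h0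
    (T := T) hm (f := f) (fun s v w hvw _ => by
      have h3 : pair cU cV s v = pair cU cV s w := pair_eq.2 ⟨(pair_eq.1 hvw).2, (pair_eq.1 hvw).1⟩
      rw [hf]
      simp only
      rw [fY_iff fV (pair_eq.1 h3).2, Stp.le_fac (pair_filt fU fV) hσ s h3]) (fun w s s' a b => fY_one s s' a.1 b.1)
  have h2 : P.Pr (fun w => R (U w) (V w) ∧ ∃ s ≤ σ w, fY P cV V F lam x s w ∧ ¬ cov P cU u HU M' s w) ≤
      P.Pr (fun w => R (U w) (V w) ∧ ∃ s < T, f (s + 1) w ∧ ¬ cov P cU u HU M' (s + 1) w) +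
        P.Pr (fun w => R (U w) (V w) ∧ dY P cV V F lam x 0 w) := by
    unfold FP.Pr
    rw [← FP.E_add]
    refine P.E_mono fun w _ => ?_
    by_cases hw : R (U w) (V w) ∧ ∃ s ≤ σ w, fY P cV V F lam x s w ∧ ¬ cov P cU u HU M' s w
    · rw [ind_of hw]
      obtain ⟨hR, s, hs, hfs, hc⟩ := hw
      rcases Nat.eq_zero_or_pos s with rfl | hs0
      · rw [ind_of (show R (U w) (V w) ∧ dY P cV V F lam x 0 w from ⟨hR, hfs.1⟩)]
        have := ind_nonneg (R (U w) (V w) ∧ ∃ s < T, f (s + 1) w ∧ ¬ cov P cU u HU M' (s + 1) w)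
        linarith
      · obtain ⟨s', rfl⟩ : ∃ s', s = s' + 1 := ⟨s - 1, by omega⟩
        rw [ind_of (show R (U w) (V w) ∧ ∃ s < T, f (s + 1) w ∧ ¬ cov P cU u HU M' (s + 1) w from
          ⟨hR, s', by have := hT w; omega, ⟨hfs, hs⟩, hc⟩)]
        have := ind_nonneg (R (U w) (V w) ∧ dY P cV V F lam x 0 w)
        linarith
    · rw [ind_not hw]
      exact add_nonneg (ind_nonneg _) (ind_nonneg _)
  have h3 : P.Pr (fun w => ∃ s < T, f (s + 1) w) ≤ P.Pr (fun w => dY P cV V F lam x (σ w) w) := by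
    refine P.Pr_mono fun w _ => ?_
    rintro ⟨s, _, h4, h5⟩
    exact dY_mono h5 h4.1
  have h4 : P.Pr (fun w => (∃ s < T, f (s + 1) w) ∧ badV P cU V U (fun v a => R a v) u HU M' T w) ≤
      P.Pr (badV P cU V U (fun v a => R a v) u HU M' T) := P.Pr_mono fun w _ h => h.2
  have h5 : 0 ≤ h * u / 2 := by positivity
  have h6 := mul_le_mul_of_nonneg_left h3 h5
  linarith

/-- rows which deviate at the start -/
theorem start_le (fV : Filt cV) {M : ℕ} (x : Fin M → α) {σ : Om → ℕ} {y8 : ℝ} (hy : 0 ≤ y8)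
    (h8 : ∀ w, P.p w ≠ 0 → cp P (pair cU cV) 0 (fun v => R (U v) (V v)) w ≤ y8) :
    P.Pr (fun w => R (U w) (V w) ∧ dY P cV V F lam x 0 w) ≤ y8 * P.Pr (fun w => dY P cV V F lam x (σ w) w) := by
  have h1 : P.E (fun w => ind (dY P cV V F lam x 0 w) * ind (R (U w) (V w))) ≤
      y8 * P.E (fun w => ind (dY P cV V F lam x 0 w)) := by
    refine E_dens_le (cU := cU) (cV := cV) (σ := fun _ => 0) (T := 1) (fun _ => Nat.one_pos) (fun s => ?_)
      (fun w => ind_nonneg _) (fun w hw _ => h8 w hw)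
    rcases Nat.eq_zero_or_pos s with rfl | hs
    · intro v w hvw
      simp only
      rw [propext (dY_iff fV (pair_eq.1 hvw).2)]
    · intro v w _
      simp only
      rw [ind_not (show ¬ 0 = s by omega), zero_mul, zero_mul]
  have h2 : P.E (fun w => ind (dY P cV V F lam x 0 w)) ≤ P.Pr (fun w => dY P cV V F lam x (σ w) w) :=
    P.Pr_mono fun w _ h => dY_mono (Nat.zero_le _) h
  have h3 := mul_le_mul_of_nonneg_left h2 hy
  refine le_trans (le_of_eq ?_) (h1.trans h3)
  unfold FP.Pr
  refine P.E_congr fun w _ => ?_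
  show ind (R (U w) (V w) ∧ dY P cV V F lam x 0 w) = ind (dY P cV V F lam x 0 w) * ind (R (U w) (V w))
  by_cases a : R (U w) (V w)
  · rw [ind_of a, mul_one, propext (and_iff_right a)]
  · rw [ind_not a, mul_zero, ind_not (fun h => a h.1)]

/-! ## everything together -/

/-- **one phase** -/
theorem phase (hI : P.Indep U V) (hU : ∀ s, Fac U (cU s)) (hV : ∀ s, Fac V (cV s)) (fU : Filt cU) (fV : Filt cV)
    (hL : ∀ c y, F c y ≤ L) (hL0 : 0 ≤ L) (hlam : 0 < lam) (hu : 0 < u) {h : ℝ} (h0 : 0 ≤ h)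
    {HU : ℕ → Om → Prop} {M' : ℕ} (hH' : ∀ r v w, U v = U w → (HU r v ↔ HU r w)) {M : ℕ} (x : Fin M → α)
    {σ : Om → ℕ} (hσ : Stp (pair cU cV) σ) {T : ℕ} (hT : ∀ w, σ w < T)
    (hm : ∀ s w, P.p w ≠ 0 → P.m (cU s) w ≤ h * P.m (cU (s + 1)) w)
    {G : ℕ → Om → ℝ} (hG : ∀ s, Fac (fun w => (pair cV cU s w, V w)) (G s)) (hG0 : ∀ s w, 0 ≤ G s w)
    (hG1 : ∀ s w, G s w ≤ 1) {gY : Om → ℝ}
    (hg : ∀ s i w, P.p w ≠ 0 → fi P cV V F lam x s i w → s ≤ σ w → ru P cV V F (x i) (σ w) w - lam / 2 ≤ gY w)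
    {Cn y y8 : ℝ} (hC : ∀ c z, - (Cn * ind (R c z)) ≤ F c z) (hC0 : 0 ≤ Cn) (hy : 0 ≤ y) (hy8 : 0 ≤ y8)
    {rm nr kl : Om → Prop}
    (hrm : ∀ s v w, pair cU cV s v = pair cU cV s w → σ w = s → (rm v ↔ rm w))
    (hnr : ∀ s v w, pair cU cV s v = pair cU cV s w → σ w = s → (nr v ↔ nr w))
    (hex : ∀ w, P.p w ≠ 0 → rm w ∨ nr w ∨ kl w)
    (hd : ∀ w, P.p w ≠ 0 → nr w → cp P (pair cU cV) (σ w) (fun v => R (U v) (V v)) w ≤ y / 2)
    (h8 : ∀ w, P.p w ≠ 0 → cp P (pair cU cV) 0 (fun v => R (U v) (V v)) w ≤ y8) :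
    L * P.E (fun w => ind (R (U w) (V w) ∧ ¬ rl P cU cV V F u lam HU M' x (σ w + 1) w) * (G (σ w) w * ind (rm w))) +
        P.E (fun w => ind (rl P cU cV V F u lam HU M' x (σ w + 1) w) * (F (U w) (V w) * ind (rm w))) ≤
      L * (u / 2) * P.E (fun w => G (σ w) w * ind (rm w)) +
        (2 * lam + 2 * Cn * y / u) * P.E (fun w => Phi P cU u HU M' (σ w) w) +
        L * ((h * u + 2 * y8) / lam) * P.E (fun w => ind (dY P cV V F lam x (σ w) w) * gY w) +
        L * (2 * P.Pr (badV P cU V U (fun v a => R a v) u HU M' T) + P.Pr (fd P cV U V F lam x T)) +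
        Cn * P.Pr kl := by
  -- the weights at the removals
  set G' : ℕ → Om → ℝ := fun s w => G s w * ind (σ w = s ∧ rm w) with hG'
  have hσf : ∀ s v w, pair cU cV s v = pair cU cV s w → (σ v = s ↔ σ w = s) := by
    intro s v w hvw
    have h2 := Stp.eq_fac (pair_filt fU fV) hσ s v w hvw
    simp only at h2
    by_cases h3 : σ w = s
    · refine iff_of_true ?_ h3
      by_contra h4
      rw [ind_not h4, ind_of h3] at h2
      exact zero_ne_one h2
    · refine iff_of_false (fun h4 => ?_) h3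
      rw [ind_of h4, ind_not h3] at h2
      exact one_ne_zero h2
  have hGf : ∀ s, Fac (fun w => (pair cV cU s w, V w)) (G' s) := by
    intro s
    refine (hG s).mul (Fac.ind fun v w hvw => ?_)
    have h3 : pair cV cU s v = pair cV cU s w ∧ V v = V w := Prod.mk.injEq _ _ _ _ ▸ hvw
    have h4 : pair cU cV s v = pair cU cV s w := pair_eq.2 ⟨(pair_eq.1 h3.1).2, (pair_eq.1 h3.1).1⟩
    constructor
    · rintro ⟨h5, h6⟩
      have h7 := (hσf s v w h4).1 h5
      exact ⟨h7, (hrm s v w h4 h7).1 h6⟩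
    · rintro ⟨h5, h6⟩
      exact ⟨(hσf s v w h4).2 h5, (hrm s v w h4 h5).2 h6⟩
  have hGe : ∀ w, G' (σ w) w = G (σ w) w * ind (rm w) := by
    intro w
    show G (σ w) w * ind (σ w = σ w ∧ rm w) = G (σ w) w * ind (rm w)
    have h2 : (σ w = σ w ∧ rm w) ↔ rm w := and_iff_right rfl
    rw [propext h2]
  have hG'0 : ∀ s w, 0 ≤ G' s w := fun s w => mul_nonneg (hG0 s w) (ind_nonneg _)
  have hG'1 : ∀ s w, G' s w ≤ 1 := fun s w => mul_le_one₀ (hG1 s w) (ind_nonneg _) (ind_le_one _)
  have h1 := unc1 (P := P) (R := R) (M' := M') hI hU hV fU fV hH' hu hσ hT hGf hG'0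
  have h2 := rl_le (P := P) (F := F) (u := u) (lam := lam) (M' := M') hI hU hV fU fV hL hL0 hlam.le hH' x hσ hT
  have h2' := rel_nr (P := P) (F := F) (R := R) (u := u) (lam := lam) (M' := M') hI hU hV fU fV hC hC0 hH' hu x hσ hT
    hy hnr hex hd
  have h3 := late_le' (P := P) (F := F) (R := R) (lam := lam) (M' := M') hI hU hV fU fV hH' hu h0 hm x hσ hT
  have h4 := pay_fi (P := P) (F := F) (lam := lam) hI hU hV fU fV x hσ hT hg
  have h4' := start_le (P := P) (cU := cU) (cV := cV) (U := U) (V := V) (R := R) (F := F) (lam := lam) fV x (σ := σ)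
    hy8 h8
  have h5 : P.E (fun w => ind (R (U w) (V w) ∧ ¬ rl P cU cV V F u lam HU M' x (σ w + 1) w) *
      (G (σ w) w * ind (rm w))) ≤
      P.E (fun w => ind (R (U w) (V w) ∧ ¬ cov P cU u HU M' (σ w + 1) w) * G' (σ w) w) +
      P.Pr (fun w => R (U w) (V w) ∧ ∃ s ≤ σ w, fY P cV V F lam x s w ∧ ¬ cov P cU u HU M' s w) := by
    unfold FP.Pr
    rw [← FP.E_add]
    refine P.E_mono fun w _ => ?_
    rw [← hGe w]
    have g0 := hG'0 (σ w) w
    have g1 := hG'1 (σ w) w
    by_cases hw : R (U w) (V w) ∧ ¬ rl P cU cV V F u lam HU M' x (σ w + 1) w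
    · rw [ind_of hw, one_mul]
      rcases not_rl hw.2 with h6 | h6
      · rw [ind_of (show R (U w) (V w) ∧ ¬ cov P cU u HU M' (σ w + 1) w from ⟨hw.1, h6⟩), one_mul]
        have := ind_nonneg (R (U w) (V w) ∧ ∃ s ≤ σ w, fY P cV V F lam x s w ∧ ¬ cov P cU u HU M' s w)
        linarith
      · rw [ind_of (show R (U w) (V w) ∧ ∃ s ≤ σ w, fY P cV V F lam x s w ∧ ¬ cov P cU u HU M' s w from
          ⟨hw.1, h6⟩)]
        have := mul_nonneg (ind_nonneg (R (U w) (V w) ∧ ¬ cov P cU u HU M' (σ w + 1) w)) g0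
        linarith
    · rw [ind_not hw, zero_mul]
      exact add_nonneg (mul_nonneg (ind_nonneg _) g0) (ind_nonneg _)
  have h6 : P.E (fun w => ind (badV P cU V U (fun v a => R a v) u HU M' T w) * G' (σ w) w) ≤
      P.Pr (badV P cU V U (fun v a => R a v) u HU M' T) :=
    P.E_mono fun w _ => mul_le_of_le_one_right (ind_nonneg _) (hG'1 _ _)
  have h7 : P.Pr (fun w => rl P cU cV V F u lam HU M' x (σ w + 1) w) ≤
      P.Pr (fun w => cov P cU u HU M' (σ w + 1) w) := by
    refine P.Pr_mono fun w _ => ?_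
    rintro ⟨s, hs, hn, _⟩
    exact cov_mono (by omega) hn.1
  have h8' := covV_le (P := P) (u := u) (H := HU) (M := M') (cU := cV) (cV := cU) hI.symm hV hU fV fU hH' hu hσ.swap
  set D := P.Pr (fun w => dY P cV V F lam x (σ w) w) with hD
  set S := P.E (fun w => ind (dY P cV V F lam x (σ w) w) * gY w) with hS
  have h9 : D ≤ 2 / lam * S := by
    rw [div_mul_eq_mul_div, le_div_iff₀ hlam]
    linarith
  have h10 : (h * u / 2 + y8) * D ≤ (h * u + 2 * y8) / lam * S := by
    have := mul_le_mul_of_nonneg_left h9 (show 0 ≤ h * u / 2 + y8 by positivity)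
    refine this.trans (le_of_eq ?_)
    field_simp
  have h11 : lam * P.Pr (fun w => rl P cU cV V F u lam HU M' x (σ w + 1) w) ≤
      2 * lam * P.E (fun w => Phi P cU u HU M' (σ w) w) := by
    have := mul_le_mul_of_nonneg_left (h7.trans h8') hlam.le
    linarith
  have e1 : P.E (fun w => G' (σ w) w) = P.E (fun w => G (σ w) w * ind (rm w)) := P.E_congr fun w _ => hGe w
  rw [e1] at h1
  have h12 := mul_le_mul_of_nonneg_left (h5.trans (add_le_add h1 h3)) hL0
  have h13 := mul_le_mul_of_nonneg_left h6 hL0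
  have h14 := mul_le_mul_of_nonneg_left h10 hL0
  have h15 := mul_le_mul_of_nonneg_left h4' hL0
  linarith

/-- **the number of phases**: a phase which starts with density at least `y` ends in a removal or at the last level with
probability at least `y / 2` -/
theorem count {X : ∀ t, Om → κ t} {A : Om → Prop} {σ : Om → ℕ} {T : ℕ} (hX : Filt X) (hσ : Stp X σ)
    (hT : ∀ w, σ w < T) {y : ℝ} {rm nr kl : Om → Prop} (hnr : ∀ s v w, X s v = X s w → σ w = s → (nr v ↔ nr w))
    (hex : ∀ w, P.p w ≠ 0 → rm w ∨ nr w ∨ kl w) (hy : 0 ≤ y)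
    (h1 : ∀ w, P.p w ≠ 0 → y ≤ cp P X 0 A w) (hd : ∀ w, P.p w ≠ 0 → nr w → cp P X (σ w) A w ≤ y / 2) :
    y / 2 ≤ P.Pr rm + P.Pr kl := by
  have h2 : y ≤ P.Pr A := by
    rw [← E_cp (X := X) 0 A, ← P.E_const y]
    exact P.E_mono fun w hw => h1 w hw
  have h3 : P.E (fun w => ind (nr w) * ind (A w)) ≤ y / 2 * P.E (fun w => ind (nr w)) := by
    rw [E_stop hT (fun _ w => ind (nr w) * ind (A w)), E_stop hT (fun _ w => ind (nr w)), Finset.mul_sum]
    refine Finset.sum_le_sum fun s _ => ?_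
    have he : Fac (X s) (fun w => ind (σ w = s) * ind (nr w)) := by
      intro v w hvw
      have h4 := Stp.eq_fac hX hσ s v w hvw
      simp only at h4 ⊢
      by_cases h5 : σ w = s
      · have h6 : σ v = s := by
          by_contra h6
          rw [ind_not h6, ind_of h5] at h4
          exact zero_ne_one h4
        rw [h5, h6, propext (hnr s v w hvw h5)]
      · have h6 : ¬ σ v = s := by
          intro h6
          rw [ind_of h6, ind_not h5] at h4
          exact one_ne_zero h4
        rw [ind_not h5, ind_not h6, zero_mul, zero_mul]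
    have h4 := P.E_mul_ce he (fun w => ind (A w))
    rw [← FP.E_smul]
    calc P.E (fun w => ind (σ w = s) * (ind (nr w) * ind (A w)))
        = P.E (fun w => ind (σ w = s) * ind (nr w) * ind (A w)) := P.E_congr fun w _ => by ring
      _ = P.E (fun w => ind (σ w = s) * ind (nr w) * P.ce (X s) (fun w => ind (A w)) w) := h4.symm
      _ ≤ _ := by
          refine P.E_mono fun w hw => ?_
          by_cases h5 : σ w = s
          · by_cases h6 : nr w
            · have h7 := hd w hw h6
              rw [h5] at h7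
              have h8 : P.ce (X s) (fun w => ind (A w)) w ≤ y / 2 := h7
              rw [ind_of h5, ind_of h6]
              linarith
            · rw [ind_not h6]
              simp
          · rw [ind_not h5]
            simp
  have h4 : P.Pr A ≤ P.Pr rm + P.E (fun w => ind (nr w) * ind (A w)) + P.Pr kl := by
    unfold FP.Pr
    rw [← FP.E_add, ← FP.E_add]
    refine P.E_mono fun w hw => ?_
    have n1 := ind_nonneg (rm w)
    have n2 := ind_nonneg (kl w)
    have n3 := mul_nonneg (ind_nonneg (nr w)) (ind_nonneg (A w))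
    have n4 := ind_le_one (A w)
    rcases hex w hw with h5 | h5 | h5
    · rw [ind_of h5]
      linarith
    · rw [ind_of h5, one_mul]
      linarith
    · rw [ind_of h5]
      linarith
  have h5 : P.E (fun w => ind (nr w)) ≤ 1 := P.Pr_le_one nr
  have h6 := mul_le_mul_of_nonneg_left h5 (show 0 ≤ y / 2 by linarith)
  linarith

end

end Pool.Agent.GMH.CR
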