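import Pool.Agent.GMH.Vio

/-!
# GMH/PhsV (helper40): released rows at the public end of a life, signed (notes 3922 (B) (3), 3939 (3))

`U` (one vertex), `V` (the other side) independent, nodes `pair cU cV`, `σ` = end of the life of the hidden point (stopping
time), `cnt` = the end is counted; `v s` = the static set of the time `s` (sees `U` and the cell of `V`), increasing in `s`,
`gam s` = its density in the node.  `gp s` = a gam-phase is on at the time `s` (`y ≤ gam`), it is switched off at
`gam ≤ ye`; `vl s` = violated.  `fl s` = something went wrong up to the time `s`.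

The life is cut into runs by the automaton `stt`: `some true` = G run: starts with a gam-phase which starts while not violated,
lasts as long as the gam-phase; `some false` = V run: starts when violated outside a G run, lasts as long as violated or in a
gam-phase.

* `stt_none`, `stt_G`, `sta_G`, `sta_V`, `brk_G` : the properties of the runs; `cnt_V` : number of V runs ≤ number of takings;
* `runs` : `E 1_cnt 1_(v σ) F σ (U,V) ≤ (3u/2 + dl + 2 Cn (ye + y1)/y) P(v σ) + L y8 E (number of V runs) +
  (L + 2 Cn) P(fl σ)`; `F s` = the function of the time `s` (table of the last item time), constant in the runs up to `dl`.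
-/

set_option autoImplicit false
set_option linter.unusedSectionVars false

namespace Pool.Agent.GMH.PhsV

open Finset Pool.Agent.PWZ Pool.Agent.M3 Pool.Agent.GMH.Gdy Pool.Agent.GMH.CR

noncomputable section

/-! ## the automaton -/

section auto

variable {Om : Type*} (gp vl : ℕ → Om → Prop)

open Classical in
/-- the state after the time `s`: `some true` = G run, `some false` = V run -/
def stt : ℕ → Om → Option Bool
  | 0 => fun w => if vl 0 w then some false else if gp 0 w then some true else none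
  | s + 1 => fun w =>
      if stt s w = some true then
        (if gp (s + 1) w then some true else if vl (s + 1) w then some false else none)
      else if stt s w = some false then (if vl (s + 1) w ∨ gp (s + 1) w then some false else none)
      else (if vl (s + 1) w then some false else if gp (s + 1) w then some true else none)

/-- a run of type `b` starts at the time `r` -/
def sta (b : Bool) (r : ℕ) (w : Om) : Prop := stt gp vl r w = some b ∧ ∀ r', r' + 1 = r → stt gp vl r' w ≠ some b

/-- a gam-phase starts at the time `s` -/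
def gst (s : ℕ) (w : Om) : Prop := gp s w ∧ ∀ s', s' + 1 = s → ¬ gp s' w

variable {gp vl}

theorem stt_none {s : ℕ} {w : Om} (h : stt gp vl s w = none) : ¬ gp s w ∧ ¬ vl s w := by
  cases s with
  | zero =>
    unfold stt at h
    split_ifs at h with h1 h2
    exact ⟨h2, h1⟩
  | succ s =>
    unfold stt at h
    split_ifs at h with h1 h2 h3 h4 h5 h6 h7
    · exact ⟨h2, h3⟩
    · exact ⟨fun h => h5 (Or.inr h), fun h => h5 (Or.inl h)⟩
    · exact ⟨h7, h6⟩

theorem stt_G {s : ℕ} {w : Om} (h : stt gp vl s w = some true) : gp s w := by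
  cases s with
  | zero =>
    unfold stt at h
    split_ifs at h with h1 h2
    · exact absurd (Option.some.inj h) (by decide)
    · exact h2
  | succ s =>
    unfold stt at h
    split_ifs at h with h1 h2 h3 h4 h5 h6 h7
    · exact h2
    · exact absurd (Option.some.inj h) (by decide)
    · exact absurd (Option.some.inj h) (by decide)
    · exact absurd (Option.some.inj h) (by decide)
    · exact h7

/-- start of a G run: a gam-phase starts, not violated -/
theorem sta_G {r : ℕ} {w : Om} (h : sta gp vl true r w) : gst gp r w ∧ ¬ vl r w := by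
  obtain ⟨h1, h2⟩ := h
  cases r with
  | zero =>
    unfold stt at h1
    split_ifs at h1 with h3 h4
    · exact absurd (Option.some.inj h1) (by decide)
    · exact ⟨⟨h4, fun s' hs' => absurd hs' (by omega)⟩, h3⟩
  | succ r =>
    have h3 := h2 r rfl
    unfold stt at h1
    split_ifs at h1 with h4 h5 h6 h7 h8 h9 h10
    · exact absurd h4 h3
    · exact absurd (Option.some.inj h1) (by decide)
    · exact absurd (Option.some.inj h1) (by decide)
    · exact absurd (Option.some.inj h1) (by decide)
    · refine ⟨⟨h10, fun s' hs' => ?_⟩, h9⟩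
      have hs : s' = r := by omega
      subst hs
      have h11 : stt gp vl s' w = none := by
        cases h12 : stt gp vl s' w with
        | none => rfl
        | some b => cases b with
          | true => exact absurd h12 h4
          | false => exact absurd h12 h7
      exact (stt_none h11).1

theorem stt_eq_none {s : ℕ} {w : Om} (h1 : stt gp vl s w ≠ some true) (h2 : stt gp vl s w ≠ some false) :
    stt gp vl s w = none := by
  cases h : stt gp vl s w with
  | none => rfl
  | some b => cases b with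
    | true => exact absurd h h1
    | false => exact absurd h h2

/-- start of a V run: violated, and no gam-phase or a gam-phase starts -/
theorem sta_V {r : ℕ} {w : Om} (h : sta gp vl false r w) : vl r w ∧ (¬ gp r w ∨ gst gp r w) := by
  obtain ⟨h1, h2⟩ := h
  cases r with
  | zero =>
    unfold stt at h1
    by_cases h3 : vl 0 w
    · refine ⟨h3, ?_⟩
      by_cases h4 : gp 0 w
      · exact Or.inr ⟨h4, fun s' hs' => absurd hs' (by omega)⟩
      · exact Or.inl h4
    · rw [if_neg h3] at h1
      by_cases h4 : gp 0 w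
      · rw [if_pos h4] at h1
        exact absurd (Option.some.inj h1) (by decide)
      · rw [if_neg h4] at h1
        exact absurd h1 (by simp)
  | succ r =>
    have h3 := h2 r rfl
    unfold stt at h1
    by_cases h4 : stt gp vl r w = some true
    · rw [if_pos h4] at h1
      by_cases h5 : gp (r + 1) w
      · rw [if_pos h5] at h1
        exact absurd (Option.some.inj h1) (by decide)
      · rw [if_neg h5] at h1
        by_cases h6 : vl (r + 1) w
        · exact ⟨h6, Or.inl h5⟩
        · rw [if_neg h6] at h1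
          exact absurd h1 (by simp)
    · rw [if_neg h4, if_neg h3] at h1
      by_cases h6 : vl (r + 1) w
      · refine ⟨h6, ?_⟩
        by_cases h10 : gp (r + 1) w
        · refine Or.inr ⟨h10, fun s' hs' => ?_⟩
          have hs : s' = r := by omega
          subst hs
          exact (stt_none (stt_eq_none h4 h3)).1
        · exact Or.inl h10
      · rw [if_neg h6] at h1
        by_cases h5 : gp (r + 1) w
        · rw [if_pos h5] at h1
          exact absurd (Option.some.inj h1) (by decide)
        · rw [if_neg h5] at h1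
          exact absurd h1 (by simp)

/-- a G run ends when the gam-phase ends -/
theorem brk_G {s : ℕ} {w : Om} (h : stt gp vl s w = some true) (h' : stt gp vl (s + 1) w ≠ some true) :
    gp s w ∧ ¬ gp (s + 1) w := by
  refine ⟨stt_G h, fun h1 => h' ?_⟩
  unfold stt
  rw [if_pos h, if_pos h1]

theorem stt_iff {κ : ℕ → Type*} {X : ∀ t, Om → κ t} (hX : Filt X) (hg : ∀ s v w, X s v = X s w → (gp s v ↔ gp s w))
    (hv : ∀ s v w, X s v = X s w → (vl s v ↔ vl s w)) {s : ℕ} : ∀ {v w : Om}, X s v = X s w →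
    stt gp vl s v = stt gp vl s w := by
  classical
  induction s with
  | zero =>
    intro v w h
    unfold stt
    simp only [hg 0 v w h, hv 0 v w h]
  | succ s ih =>
    intro v w h
    have h1 := ih (hX s v w h)
    unfold stt
    simp only [hg (s + 1) v w h, hv (s + 1) v w h, h1]

theorem sta_iff {κ : ℕ → Type*} {X : ∀ t, Om → κ t} (hX : Filt X) (hg : ∀ s v w, X s v = X s w → (gp s v ↔ gp s w))
    (hv : ∀ s v w, X s v = X s w → (vl s v ↔ vl s w)) {b : Bool} {r : ℕ} {v w : Om} (h : X r v = X r w) :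
    sta gp vl b r v ↔ sta gp vl b r w := by
  unfold sta
  rw [stt_iff hX hg hv h]
  refine and_congr_right fun _ => forall_congr' fun r' => forall_congr' fun hr' => ?_
  rw [stt_iff hX hg hv (hX.le (show r' ≤ r by omega) v w h)]

/-- every time of a run belongs to a start -/
theorem sta_ex {b : Bool} {s : ℕ} {w : Om} (h : stt gp vl s w = some b) :
    ∃ r ≤ s, sta gp vl b r w ∧ ∀ t, r ≤ t → t ≤ s → stt gp vl t w = some b := by
  induction s with
  | zero => exact ⟨0, le_rfl, ⟨h, fun r' hr' => absurd hr' (by omega)⟩, fun t _ ht => by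
      have : t = 0 := by omega
      rw [this]; exact h⟩
  | succ s ih =>
    by_cases h1 : stt gp vl s w = some b
    · obtain ⟨r, hr, h2, h3⟩ := ih h1
      refine ⟨r, by omega, h2, fun t ht ht' => ?_⟩
      rcases Nat.lt_or_ge t (s + 1) with h4 | h4
      · exact h3 t ht (by omega)
      · have : t = s + 1 := by omega
        rw [this]; exact h
    · refine ⟨s + 1, le_rfl, ⟨h, fun r' hr' => ?_⟩, fun t ht ht' => ?_⟩
      · have : r' = s := by omega
        rw [this]; exact h1
      · have : t = s + 1 := by omega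
        rw [this]; exact h

theorem sta_one {b : Bool} {s r r' : ℕ} {w : Om} (h : sta gp vl b r w) (h1 : ∀ t, r ≤ t → t ≤ s → stt gp vl t w = some b)
    (h' : sta gp vl b r' w) (h1' : ∀ t, r' ≤ t → t ≤ s → stt gp vl t w = some b) (hr : r ≤ s) (hr' : r' ≤ s) :
    r = r' := by
  rcases lt_trichotomy r r' with h2 | h2 | h2
  · exact absurd (h1 (r' - 1) (by omega) (by omega)) (h'.2 (r' - 1) (by omega))
  · exact h2
  · exact absurd (h1' (r - 1) (by omega) (by omega)) (h.2 (r - 1) (by omega))

/-- violated: the state is a V run if it was one -/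
theorem stt_stay {s : ℕ} {w : Om} (h : stt gp vl s w = some false) (h1 : vl (s + 1) w) :
    stt gp vl (s + 1) w = some false := by
  have h2 : stt gp vl s w ≠ some true := by
    rw [h]
    decide
  unfold stt
  rw [if_neg h2, if_pos h, if_pos (Or.inl h1)]

end auto

/-! ## the number of V runs -/

section cntV

variable {Om : Type*} [Fintype Om] {α : Type*} {wt : α → ℕ → Om → Prop} {kp : ℕ → α → ℕ → Om → Prop}
  {gp : ℕ → Om → Prop} {n : ℕ} {x : Fin n → α}

theorem vl_step {s : ℕ} {w : Om} (h : Vio.vl wt kp x (s + 1) w) :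
    Vio.vl wt kp x s w ∨ ∃ i, Vio.tkn wt kp x (s + 1) i w := by
  obtain ⟨r, i, hi⟩ := h
  rw [Vio.vi_succ] at hi
  rcases hi with hi | hi
  · exact Or.inl ⟨r, i, hi.1⟩
  · exact Or.inr ⟨i, hi.2⟩

theorem one_le_tkn {s : ℕ} {w : Om} {i : Fin n} (h : Vio.tkn wt kp x s i w) :
    1 ≤ ∑ i, ind (Vio.tkn wt kp x s i w) := by
  have h1 := Finset.single_le_sum (f := fun i => ind (Vio.tkn wt kp x s i w)) (fun i _ => ind_nonneg _) (mem_univ i)
  rw [ind_of h] at h1
  exact h1

/-- **every V run has its own taking** -/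
theorem cnt_V (w : Om) (m : ℕ) :
    ∑ s ∈ range (m + 1), ind (sta gp (Vio.vl wt kp x) false s w) +
      ind (Vio.vl wt kp x m w ∧ stt gp (Vio.vl wt kp x) m w ≠ some false) ≤ Vio.nt wt kp x m w := by
  unfold Vio.nt
  induction m with
  | zero =>
    rw [zero_add, Finset.sum_range_one, Finset.sum_range_one]
    by_cases h : Vio.vl wt kp x 0 w
    · obtain ⟨r, i, hi⟩ := h
      have h1 := one_le_tkn ((Vio.vi_zero (wt := wt) (kp := kp) r i w).1 hi).2
      have h2 : stt gp (Vio.vl wt kp x) 0 w = some false := by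
        unfold stt
        rw [if_pos ⟨r, i, hi⟩]
      rw [ind_not (p := Vio.vl wt kp x 0 w ∧ stt gp (Vio.vl wt kp x) 0 w ≠ some false) (fun h3 => h3.2 h2)]
      have := ind_le_one (sta gp (Vio.vl wt kp x) false 0 w)
      linarith
    · rw [ind_not (fun h1 => h (sta_V h1).1), ind_not (fun h1 => h h1.1), zero_add]
      exact Finset.sum_nonneg fun _ _ => ind_nonneg _
  | succ m ih =>
    rw [Finset.sum_range_succ, Finset.sum_range_succ _ (m + 1)]
    have key : ind (sta gp (Vio.vl wt kp x) false (m + 1) w) +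
        ind (Vio.vl wt kp x (m + 1) w ∧ stt gp (Vio.vl wt kp x) (m + 1) w ≠ some false) ≤
        ind (Vio.vl wt kp x m w ∧ stt gp (Vio.vl wt kp x) m w ≠ some false) +
          ∑ i, ind (Vio.tkn wt kp x (m + 1) i w) := by
      have n1 := ind_nonneg (Vio.vl wt kp x m w ∧ stt gp (Vio.vl wt kp x) m w ≠ some false)
      have n2 : 0 ≤ ∑ i, ind (Vio.tkn wt kp x (m + 1) i w) := Finset.sum_nonneg fun _ _ => ind_nonneg _
      have base : Vio.vl wt kp x (m + 1) w → stt gp (Vio.vl wt kp x) m w ≠ some false →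
          1 ≤ ind (Vio.vl wt kp x m w ∧ stt gp (Vio.vl wt kp x) m w ≠ some false) +
            ∑ i, ind (Vio.tkn wt kp x (m + 1) i w) := by
        intro h1 h2
        rcases vl_step h1 with h3 | ⟨i, h3⟩
        · rw [ind_of ⟨h3, h2⟩]
          linarith
        · have := one_le_tkn h3
          linarith
      by_cases h1 : sta gp (Vio.vl wt kp x) false (m + 1) w
      · rw [ind_of h1, ind_not (p := Vio.vl wt kp x (m + 1) w ∧ stt gp (Vio.vl wt kp x) (m + 1) w ≠ some false)
          (fun h3 => h3.2 h1.1), add_zero]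
        exact base (sta_V h1).1 (h1.2 m rfl)
      · rw [ind_not h1, zero_add]
        by_cases h2 : Vio.vl wt kp x (m + 1) w ∧ stt gp (Vio.vl wt kp x) (m + 1) w ≠ some false
        · rw [ind_of h2]
          exact base h2.1 fun h3 => h2.2 (stt_stay h3 h2.1)
        · rw [ind_not h2]
          linarith
    linarith

end cntV

/-! ## the signed accounting -/

section runs

variable {Om : Type*} [Fintype Om] {P : FP Om} {κ κ' : ℕ → Type*} {cU : ∀ t, Om → κ t} {cV : ∀ t, Om → κ' t}
  {α ω : Type*} {U : Om → α} {V : Om → ω} {F : ℕ → α → ω → ℝ}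

/-- a factor of the node and `U`, signed -/
theorem E_ru {F0 : α → ω → ℝ} (hI : P.Indep U V) (hU : ∀ s, Fac U (cU s)) (hV : ∀ s, Fac V (cV s)) {s : ℕ} {e : Om → ℝ}
    (he : ∀ a b, pair cU cV s a = pair cU cV s b → U a = U b → e a = e b) :
    P.E (fun w => e w * F0 (U w) (V w)) = P.E (fun w => e w * ru P cV V F0 (U w) s w) := by
  have he' : Fac (fun w => (pair cU cV s w, U w)) e := fun a b h => by
    have h1 : pair cU cV s a = pair cU cV s b ∧ U a = U b := Prod.mk.injEq _ _ _ _ ▸ h
    exact he a b h1.1 h1.2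
  rw [← P.E_mul_ce he' (fun w => F0 (U w) (V w))]
  exact P.E_congr fun w hw => by rw [ce_ru hI hU hV s hw]

/-- density: a factor of the node -/
theorem E_gam {X : ∀ t, Om → κ t} {s : ℕ} {e : Om → ℝ} (he : Fac (X s) e) (A : Om → Prop) :
    P.E (fun w => e w * ind (A w)) = P.E (fun w => e w * cp P X s A w) := (P.E_mul_ce he _).symm

theorem E_gam_le {X : ∀ t, Om → κ t} {s : ℕ} {e : Om → ℝ} (he : Fac (X s) e) (he0 : ∀ w, 0 ≤ e w) {A : Om → Prop}
    {b : ℝ} (hb : ∀ w, P.p w ≠ 0 → e w ≠ 0 → cp P X s A w ≤ b) : P.E (fun w => e w * ind (A w)) ≤ b * P.E e := by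
  rw [E_gam he, ← FP.E_smul]
  refine P.E_mono fun w hw => ?_
  by_cases h : e w = 0
  · rw [h]; simp
  · have := mul_le_mul_of_nonneg_left (hb w hw h) (he0 w)
    linarith

theorem E_gam_ge {X : ∀ t, Om → κ t} {s : ℕ} {e : Om → ℝ} (he : Fac (X s) e) (he0 : ∀ w, 0 ≤ e w) {A : Om → Prop}
    {b : ℝ} (hb : ∀ w, P.p w ≠ 0 → e w ≠ 0 → b ≤ cp P X s A w) : b * P.E e ≤ P.E (fun w => e w * ind (A w)) := by
  rw [E_gam he, ← FP.E_smul]
  refine P.E_mono fun w hw => ?_
  by_cases h : e w = 0
  · rw [h]; simp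
  · have := mul_le_mul_of_nonneg_left (hb w hw h) (he0 w)
    linarith

/-- THE HYPOTHESES of the accounting.  `fl s` sees `U` and the node; everything is required only while nothing went wrong -/
structure RH (P : FP Om) (cU : ∀ t, Om → κ t) (cV : ∀ t, Om → κ' t) (U : Om → α) (V : Om → ω) (F : ℕ → α → ω → ℝ)
    (v gp vl fl : ℕ → Om → Prop) (σ : Om → ℕ) (cnt : Om → Prop) (T : ℕ) (L Cn u dl y ye y1 y8 : ℝ) : Prop where
  hI : P.Indep U V
  hU : ∀ s, Fac U (cU s)
  hV : ∀ s, Fac V (cV s)
  fU : Filt cU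
  fV : Filt cV
  L0 : 0 ≤ L
  C0 : 0 ≤ Cn
  u0 : 0 ≤ u
  d0 : 0 ≤ dl
  y0 : 0 < y
  ye0 : 0 ≤ ye
  y10 : 0 ≤ y1
  yye : ye ≤ y / 2
  yy8 : y ≤ y8
  FL : ∀ s c z, F s c z ≤ L
  FC : ∀ s c z, - Cn ≤ F s c z
  vf : ∀ s a b, pair cU cV s a = pair cU cV s b → U a = U b → (v s a ↔ v s b)
  vm : ∀ s w, v s w → v (s + 1) w
  gf : ∀ s a b, pair cU cV s a = pair cU cV s b → (gp s a ↔ gp s b)
  lf : ∀ s a b, pair cU cV s a = pair cU cV s b → (vl s a ↔ vl s b)
  ff : ∀ s a b, pair cU cV s a = pair cU cV s b → U a = U b → (fl s a ↔ fl s b)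
  fm : ∀ s w, fl s w → fl (s + 1) w
  st : Stp (pair cU cV) σ
  sT : ∀ w, σ w < T
  cf : ∀ s a b, pair cU cV s a = pair cU cV s b → σ b = s → (cnt a ↔ cnt b)
  /-- in a gam-phase the density is at least `y` -/
  g1 : ∀ s w, P.p w ≠ 0 → gp s w → y ≤ cp P (pair cU cV) s (v s) w
  /-- outside at most `y` -/
  g0 : ∀ s w, P.p w ≠ 0 → ¬ gp s w → cp P (pair cU cV) s (v s) w ≤ y
  /-- switched off at a density at most `ye` -/
  ge : ∀ s w, P.p w ≠ 0 → gp s w → ¬ gp (s + 1) w → cp P (pair cU cV) (s + 1) (v (s + 1)) w ≤ ye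
  /-- at the start at most `y8` -/
  g8 : ∀ s w, P.p w ≠ 0 → ¬ fl s w → gst gp s w → cp P (pair cU cV) s (v s) w ≤ y8
  /-- ends which are not counted -/
  gn : ∀ w, P.p w ≠ 0 → ¬ fl (σ w) w → ¬ cnt w → cp P (pair cU cV) (σ w) (v (σ w)) w ≤ y1
  /-- the set and the function are frozen in the runs -/
  fz : ∀ b r w, P.p w ≠ 0 → r ≤ σ w → (∀ t, r ≤ t → t ≤ σ w → stt gp vl t w = some b) → ¬ fl (σ w) w →
    v (σ w) w → v r w ∧ F (σ w) (U w) (V w) ≤ F r (U w) (V w) + dl
  /-- the tested rows are good -/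
  ts : ∀ s w, P.p w ≠ 0 → s ≤ σ w → ¬ fl s w → ¬ vl s w → (gst gp s w ∨ (s = σ w ∧ ¬ gp s w)) →
    ru P cV V (F s) (U w) s w ≤ u / 2

variable {v gp vl fl : ℕ → Om → Prop} {σ : Om → ℕ} {cnt : Om → Prop} {T : ℕ} {L Cn u dl y ye y1 y8 : ℝ}

namespace RH

variable (H : RH P cU cV U V F v gp vl fl σ cnt T L Cn u dl y ye y1 y8)
include H

theorem X : Filt (pair cU cV) := pair_filt H.fU H.fV

theorem vle {s s' : ℕ} (h : s ≤ s') {w : Om} (hw : v s w) : v s' w := by
  induction s', h using Nat.le_induction with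
  | base => exact hw
  | succ s' _ ih => exact H.vm s' w ih

theorem fle {s s' : ℕ} (h : s ≤ s') {w : Om} (hw : fl s w) : fl s' w := by
  induction s', h using Nat.le_induction with
  | base => exact hw
  | succ s' _ ih => exact H.fm s' w ih

theorem sf {s : ℕ} {a b : Om} (h : pair cU cV s a = pair cU cV s b) : s ≤ σ a ↔ s ≤ σ b :=
  Stp.le_fac H.X H.st s h

theorem ef {s : ℕ} {a b : Om} (h : pair cU cV s a = pair cU cV s b) : σ a = s ↔ σ b = s := by
  have h2 := Stp.eq_fac H.X H.st s a b h
  simp only at h2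
  by_cases h3 : σ b = s
  · refine iff_of_true ?_ h3
    by_contra h4
    rw [ind_not h4, ind_of h3] at h2
    exact zero_ne_one h2
  · refine iff_of_false (fun h4 => ?_) h3
    rw [ind_of h4, ind_not h3] at h2
    exact one_ne_zero h2

theorem tf {s : ℕ} {a b : Om} (h : pair cU cV s a = pair cU cV s b) : stt gp vl s a = stt gp vl s b :=
  stt_iff H.X H.gf H.lf h

/-- the start of a run before the end of the life -/
def A (gp vl : ℕ → Om → Prop) (σ : Om → ℕ) (b : Bool) (r : ℕ) (w : Om) : Prop := sta gp vl b r w ∧ r ≤ σ w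

omit H in
/-- the life ends in the run which starts at the time `r` -/
def inr (gp vl : ℕ → Om → Prop) (σ : Om → ℕ) (b : Bool) (r : ℕ) (w : Om) : Prop :=
  A gp vl σ b r w ∧ ∀ t, r ≤ t → t ≤ σ w → stt gp vl t w = some b

theorem Af {b : Bool} {r : ℕ} {w w' : Om} (h : pair cU cV r w = pair cU cV r w') :
    A gp vl σ b r w ↔ A gp vl σ b r w' := and_congr (sta_iff H.X H.gf H.lf h) (H.sf h)

theorem inr_sum (b : Bool) (w : Om) : ∑ r ∈ range T, ind (inr gp vl σ b r w) = ind (stt gp vl (σ w) w = some b) := by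
  rw [CR.sum_ind (A := fun r => inr gp vl σ b r w) (fun r r' h h' =>
    sta_one h.1.1 h.2 h'.1.1 h'.2 h.1.2 h'.1.2) T]
  congr 1
  refine propext ⟨fun ⟨r, _, h⟩ => h.2 _ h.1.2 le_rfl, fun h => ?_⟩
  obtain ⟨r, hr, h1, h2⟩ := sta_ex h
  exact ⟨r, lt_of_le_of_lt hr (H.sT w), ⟨h1, hr⟩, h2⟩

/-- the first time at which the run is broken -/
theorem brk (r : ℕ) : P.E (fun w => ind (A gp vl σ true r w ∧ ¬ inr gp vl σ true r w) * ind (v r w)) ≤
    ye * P.E (fun w => ind (A gp vl σ true r w ∧ ¬ inr gp vl σ true r w)) := by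
  set B : ℕ → Om → Prop := fun s w => (A gp vl σ true r w ∧ (∀ t, r ≤ t → t < s → stt gp vl t w = some true)) ∧
    s ≤ σ w ∧ r < s ∧ stt gp vl s w ≠ some true with hB
  have h1 : ∀ w, ∑ s ∈ range T, ind (B s w) = ind (A gp vl σ true r w ∧ ¬ inr gp vl σ true r w) := by
    intro w
    rw [CR.sum_ind (A := fun s => B s w) (fun s s' h h' => ?_) T]
    · congr 1
      refine propext ⟨?_, ?_⟩
      · rintro ⟨s, _, ⟨h2, _⟩, h4, h5, h6⟩
        exact ⟨h2, fun h7 => h6 (h7.2 s h5.le h4)⟩
      · rintro ⟨h2, h3⟩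
        classical
        have hex : ∃ s, r ≤ s ∧ s ≤ σ w ∧ stt gp vl s w ≠ some true := by
          by_contra hcon
          push Not at hcon
          exact h3 ⟨h2, fun t ht ht' => hcon t ht ht'⟩
        refine ⟨Nat.find hex, ?_, ⟨h2, fun t ht ht' => ?_⟩, (Nat.find_spec hex).2.1, ?_, (Nat.find_spec hex).2.2⟩
        · exact lt_of_le_of_lt (Nat.find_spec hex).2.1 (H.sT w)
        · have h4 := Nat.find_min hex ht'
          by_contra h5
          exact h4 ⟨ht, by have := (Nat.find_spec hex).2.1; omega, h5⟩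
        · have h4 := (Nat.find_spec hex).1
          rcases h4.lt_or_eq with h5 | h5
          · exact h5
          · exact absurd (h5 ▸ h2.1.1) (Nat.find_spec hex).2.2
    · rcases lt_trichotomy s s' with h2 | h2 | h2
      · exact absurd (h'.1.2 s h.2.2.1.le h2) h.2.2.2
      · exact h2
      · exact absurd (h.1.2 s' h'.2.2.1.le h2) h'.2.2.2
  have h2 : ∀ s, P.E (fun w => ind (B s w) * ind (v r w)) ≤ ye * P.E (fun w => ind (B s w)) := by
    intro s
    by_cases hs : r < s
    · have hf : Fac (pair cU cV s) (fun w => ind (B s w)) := by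
        refine Fac.ind fun a b hab => ?_
        have h3 : ∀ t ≤ s, pair cU cV t a = pair cU cV t b := fun t ht => H.X.le ht a b hab
        rw [hB]
        simp only
        rw [H.Af (h3 r hs.le), H.sf hab, H.tf hab]
        refine and_congr_left fun _ => and_congr_right fun _ => forall_congr' fun t => forall_congr' fun _ =>
          forall_congr' fun ht => ?_
        rw [H.tf (h3 t ht.le)]
      calc P.E (fun w => ind (B s w) * ind (v r w)) ≤ P.E (fun w => ind (B s w) * ind (v s w)) :=
            P.E_mono fun w _ => mul_le_mul_of_nonneg_left (ind_mono fun h => H.vle hs.le h) (ind_nonneg _)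
        _ ≤ _ := by
            refine E_gam_le hf (fun w => ind_nonneg _) fun w hw h3 => ?_
            have h4 : B s w := by
              by_contra h5
              exact h3 (ind_not h5)
            obtain ⟨s', rfl⟩ : ∃ s', s = s' + 1 := ⟨s - 1, by omega⟩
            have h5 := brk_G (h4.1.2 s' (by omega) (by omega)) h4.2.2.2
            exact H.ge s' w hw h5.1 h5.2
    · have h3 : ∀ w, ind (B s w) = 0 := fun w => ind_not fun h => hs h.2.2.1
      simp only [h3, zero_mul, FP.E_const, mul_zero]
      exact le_rfl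
  simp only [← h1]
  simp only [Finset.sum_mul]
  rw [FP.E_sum, FP.E_sum, Finset.mul_sum]
  exact Finset.sum_le_sum fun s _ => h2 s

/-- the density at the starts of the G runs -/
theorem S1_le : ∑ r ∈ range T, P.E (fun w => ind (A gp vl σ true r w) * ind (v r w)) ≤
    2 * P.Pr (fun w => v (σ w) w) := by
  set S1 := ∑ r ∈ range T, P.E (fun w => ind (A gp vl σ true r w) * ind (v r w)) with hS1
  have h1 : ∀ r, y * P.E (fun w => ind (A gp vl σ true r w)) ≤
      P.E (fun w => ind (A gp vl σ true r w) * ind (v r w)) := by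
    intro r
    refine E_gam_ge (X := pair cU cV) (s := r) (Fac.ind fun a b hab => H.Af hab) (fun w => ind_nonneg _) fun w hw h => ?_
    have h4 : A gp vl σ true r w := by
      by_contra h5
      exact h (ind_not h5)
    exact H.g1 r w hw (stt_G h4.1.1)
  have h2 : ∀ r, P.E (fun w => ind (A gp vl σ true r w) * ind (v r w)) ≤
      P.E (fun w => ind (inr gp vl σ true r w) * ind (v (σ w) w)) + ye * P.E (fun w => ind (A gp vl σ true r w)) := by
    intro r
    have h3 := H.brk r
    have h4 : P.E (fun w => ind (A gp vl σ true r w ∧ ¬ inr gp vl σ true r w)) ≤ P.E (fun w => ind (A gp vl σ true r w)) :=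
      P.E_mono fun w _ => ind_mono fun h => h.1
    have h5 := mul_le_mul_of_nonneg_left h4 H.ye0
    have h6 : P.E (fun w => ind (A gp vl σ true r w) * ind (v r w)) ≤
        P.E (fun w => ind (inr gp vl σ true r w) * ind (v (σ w) w)) +
          P.E (fun w => ind (A gp vl σ true r w ∧ ¬ inr gp vl σ true r w) * ind (v r w)) := by
      rw [← FP.E_add]
      refine P.E_mono fun w _ => ?_
      by_cases a : inr gp vl σ true r w
      · have h7 : ¬ (A gp vl σ true r w ∧ ¬ inr gp vl σ true r w) := fun h => h.2 a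
        rw [ind_of a, ind_of a.1, one_mul, one_mul, ind_not h7, zero_mul, add_zero]
        exact ind_mono fun h => H.vle a.1.2 h
      · rw [ind_not a, zero_mul, zero_add]
        exact mul_le_mul_of_nonneg_right (ind_mono fun h => ⟨h, a⟩) (ind_nonneg _)
    linarith
  have h3 : ∑ r ∈ range T, P.E (fun w => ind (inr gp vl σ true r w) * ind (v (σ w) w)) ≤ P.Pr (fun w => v (σ w) w) := by
    rw [← FP.E_sum]
    refine P.E_mono fun w _ => ?_
    rw [← Finset.sum_mul, H.inr_sum true w]
    exact mul_le_of_le_one_left (ind_nonneg _) (ind_le_one _)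
  have h4 : S1 ≤ ∑ r ∈ range T, P.E (fun w => ind (inr gp vl σ true r w) * ind (v (σ w) w)) +
      ye * ∑ r ∈ range T, P.E (fun w => ind (A gp vl σ true r w)) := by
    rw [Finset.mul_sum, ← Finset.sum_add_distrib]
    exact Finset.sum_le_sum fun r _ => h2 r
  have h5 : y * ∑ r ∈ range T, P.E (fun w => ind (A gp vl σ true r w)) ≤ S1 := by
    rw [Finset.mul_sum]
    exact Finset.sum_le_sum fun r _ => h1 r
  have n0 : 0 ≤ ∑ r ∈ range T, P.E (fun w => ind (A gp vl σ true r w)) :=
    Finset.sum_nonneg fun r _ => P.E_nonneg fun w _ => ind_nonneg _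
  have h6 : ye * ∑ r ∈ range T, P.E (fun w => ind (A gp vl σ true r w)) ≤ S1 / 2 := by
    have := mul_le_mul_of_nonneg_right H.yye n0
    linarith
  linarith

theorem P1_le : ∑ r ∈ range T, P.E (fun w => ind (A gp vl σ true r w)) ≤ 2 / y * P.Pr (fun w => v (σ w) w) := by
  have h0 := H.S1_le
  have h1 : ∀ r, y * P.E (fun w => ind (A gp vl σ true r w)) ≤
      P.E (fun w => ind (A gp vl σ true r w) * ind (v r w)) := by
    intro r
    refine E_gam_ge (X := pair cU cV) (s := r) (Fac.ind fun a b hab => H.Af hab) (fun w => ind_nonneg _) fun w hw h => ?_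
    have h4 : A gp vl σ true r w := by
      by_contra h5
      exact h (ind_not h5)
    exact H.g1 r w hw (stt_G h4.1.1)
  rw [div_mul_eq_mul_div, le_div_iff₀ H.y0, mul_comm, Finset.mul_sum]
  exact (Finset.sum_le_sum fun r _ => h1 r).trans h0

/-- one G run, unflagged start: the sum is small -/
theorem g_start (r : ℕ) : P.E (fun w => ind (A gp vl σ true r w ∧ ¬ fl r w ∧ v r w) * F r (U w) (V w)) ≤
    u / 2 * P.E (fun w => ind (A gp vl σ true r w) * ind (v r w)) := by
  rw [E_ru H.hI H.hU H.hV (s := r) (e := fun w => ind (A gp vl σ true r w ∧ ¬ fl r w ∧ v r w)) (fun a b h1 h2 => by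
    rw [H.Af h1, H.ff r a b h1 h2, H.vf r a b h1 h2]), ← FP.E_smul]
  refine P.E_mono fun w hw => ?_
  by_cases h : A gp vl σ true r w ∧ ¬ fl r w ∧ v r w
  · obtain ⟨h1, h2, h3⟩ := h
    have h4 := sta_G h1.1
    have h5 := H.ts r w hw h1.2 h2 h4.2 (Or.inl h4.1)
    rw [ind_of ⟨h1, h2, h3⟩, ind_of h1, ind_of h3]
    linarith
  · rw [ind_not h, zero_mul]
    have := H.u0
    exact mul_nonneg (by linarith) (mul_nonneg (ind_nonneg _) (ind_nonneg _))

/-- an event of the node at the end of the life -/
theorem end_le {B : Om → Prop} {b : ℝ} (hb0 : 0 ≤ b)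
    (hB : ∀ s w w', pair cU cV s w = pair cU cV s w' → σ w' = s → (B w ↔ B w'))
    (hb : ∀ w, P.p w ≠ 0 → B w → ¬ fl (σ w) w → cp P (pair cU cV) (σ w) (v (σ w)) w ≤ b) :
    P.E (fun w => ind (B w) * ind (v (σ w) w)) ≤ b * P.Pr B + P.Pr (fun w => B w ∧ fl (σ w) w) := by
  rw [E_stop H.sT (fun s w => ind (B w) * ind (v s w))]
  unfold FP.Pr
  rw [E_stop H.sT (fun s w => ind (B w)), E_stop H.sT (fun s w => ind (B w ∧ fl s w)), Finset.mul_sum,
    ← Finset.sum_add_distrib]
  refine Finset.sum_le_sum fun s _ => ?_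
  set G : Om → Prop := fun w => (σ w = s ∧ B w) ∧ cp P (pair cU cV) s (v s) w ≤ b with hG
  have hGf : Fac (pair cU cV s) (fun w => ind (G w)) := Fac.ind fun a c hac => by
    rw [hG]
    simp only
    rw [cp_fac s (v s) a c hac]
    refine and_congr_left fun _ => ⟨fun h => ?_, fun h => ?_⟩
    · have h1 := (H.ef hac).1 h.1
      exact ⟨h1, (hB s a c hac h1).1 h.2⟩
    · exact ⟨(H.ef hac).2 h.1, (hB s a c hac h.1).2 h.2⟩
  have h1 : P.E (fun w => ind (G w) * ind (v s w)) ≤ b * P.E (fun w => ind (G w)) :=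
    E_gam_le hGf (fun w => ind_nonneg _) fun w _ h => by
      have h4 : G w := by
        by_contra h5
        exact h (ind_not h5)
      exact h4.2
  have h2 : P.E (fun w => ind (σ w = s) * (ind (B w) * ind (v s w))) ≤
      P.E (fun w => ind (G w) * ind (v s w)) + P.E (fun w => ind (σ w = s) * ind (B w ∧ fl s w)) := by
    rw [← FP.E_add]
    refine P.E_mono fun w hw => ?_
    have n1 : 0 ≤ ind (G w) * ind (v s w) := mul_nonneg (ind_nonneg _) (ind_nonneg _)
    have n2 : 0 ≤ ind (σ w = s) * ind (B w ∧ fl s w) := mul_nonneg (ind_nonneg _) (ind_nonneg _)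
    by_cases a : σ w = s
    · by_cases c : B w
      · by_cases d : fl s w
        · have e1 : ind (σ w = s) * ind (B w ∧ fl s w) = 1 := by
            rw [ind_of a, ind_of (show B w ∧ fl s w from ⟨c, d⟩), one_mul]
          have e2 : ind (σ w = s) * (ind (B w) * ind (v s w)) = ind (v s w) := by
            rw [ind_of a, ind_of c, one_mul, one_mul]
          have := ind_le_one (v s w)
          linarith
        · have h3 := hb w hw c (by rw [a]; exact d)
          rw [a] at h3
          have e1 : ind (G w) * ind (v s w) = ind (v s w) := by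
            rw [ind_of (show G w from ⟨⟨a, c⟩, h3⟩), one_mul]
          have e2 : ind (σ w = s) * (ind (B w) * ind (v s w)) = ind (v s w) := by
            rw [ind_of a, ind_of c, one_mul, one_mul]
          linarith
      · rw [ind_not c, zero_mul, mul_zero]
        linarith
    · rw [ind_not a, zero_mul, zero_mul]
      linarith
  have h3 : P.E (fun w => ind (G w)) ≤ P.E (fun w => ind (σ w = s) * ind (B w)) := by
    refine P.E_mono fun w _ => ?_
    by_cases h : G w
    · rw [ind_of h, ind_of h.1.1, ind_of h.1.2, one_mul]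
    · rw [ind_not h]
      exact mul_nonneg (ind_nonneg _) (ind_nonneg _)
  have h4 := mul_le_mul_of_nonneg_left h3 hb0
  linarith

theorem inrf {b : Bool} {r s : ℕ} {w w' : Om} (h : pair cU cV s w = pair cU cV s w') (hs : σ w' = s) :
    inr gp vl σ b r w ↔ inr gp vl σ b r w' := by
  have hs' : σ w = s := (H.ef h).2 hs
  have key : ∀ {w w' : Om}, pair cU cV s w = pair cU cV s w' → σ w' = s → σ w = s → inr gp vl σ b r w →
      inr gp vl σ b r w' := by
    intro w w' h hs hs' h1
    have hr : r ≤ s := hs' ▸ h1.1.2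
    refine ⟨(H.Af (H.X.le hr w w' h)).1 h1.1, fun t ht ht' => ?_⟩
    rw [hs] at ht'
    rw [← H.tf (H.X.le ht' w w' h)]
    exact h1.2 t ht (by rw [hs']; exact ht')
  exact ⟨key h hs hs', key h.symm hs' hs⟩

/-- **one G run** -/
theorem g_run (r : ℕ) : P.E (fun w => ind (inr gp vl σ true r w ∧ cnt w ∧ v (σ w) w) * F (σ w) (U w) (V w)) ≤
    u / 2 * P.E (fun w => ind (A gp vl σ true r w) * ind (v r w)) +
      dl * P.E (fun w => ind (inr gp vl σ true r w) * ind (v (σ w) w)) +
      Cn * (ye + y1) * P.E (fun w => ind (A gp vl σ true r w)) +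
      (L + 2 * Cn) * P.Pr (fun w => inr gp vl σ true r w ∧ fl (σ w) w) := by
  have h1 := H.g_start r
  have h2 := H.brk r
  have h3 := H.end_le (B := fun w => inr gp vl σ true r w ∧ ¬ cnt w) (b := y1) H.y10
    (fun s w w' h hs => by rw [H.inrf h hs, H.cf s w w' h hs]) (fun w hw hB hf => H.gn w hw hf hB.2)
  have h4 : P.E (fun w => ind (A gp vl σ true r w ∧ ¬ inr gp vl σ true r w)) ≤
      P.E (fun w => ind (A gp vl σ true r w)) := P.E_mono fun w _ => ind_mono fun h => h.1
  have h5 : P.Pr (fun w => inr gp vl σ true r w ∧ ¬ cnt w) ≤ P.E (fun w => ind (A gp vl σ true r w)) :=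
    P.E_mono fun w _ => ind_mono fun h => h.1.1
  have h6 : P.Pr (fun w => (inr gp vl σ true r w ∧ ¬ cnt w) ∧ fl (σ w) w) ≤
      P.Pr (fun w => inr gp vl σ true r w ∧ fl (σ w) w) := P.Pr_mono fun w _ h => ⟨h.1.1, h.2⟩
  have h7 : P.E (fun w => ind (inr gp vl σ true r w ∧ cnt w ∧ v (σ w) w) * F (σ w) (U w) (V w)) ≤
      P.E (fun w => ind (A gp vl σ true r w ∧ ¬ fl r w ∧ v r w) * F r (U w) (V w)) +
      dl * P.E (fun w => ind (inr gp vl σ true r w) * ind (v (σ w) w)) +
      Cn * (P.E (fun w => ind (A gp vl σ true r w ∧ ¬ inr gp vl σ true r w) * ind (v r w)) +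
        P.E (fun w => ind (inr gp vl σ true r w ∧ ¬ cnt w) * ind (v (σ w) w))) +
      (L + Cn) * P.Pr (fun w => inr gp vl σ true r w ∧ fl (σ w) w) := by
    unfold FP.Pr
    rw [← FP.E_add, ← FP.E_smul, ← FP.E_smul, ← FP.E_smul, ← FP.E_add, ← FP.E_add, ← FP.E_add]
    refine P.E_mono fun w hw => ?_
    have hFL := H.FL (σ w) (U w) (V w)
    have hFC := H.FC r (U w) (V w)
    have n0 := mul_nonneg H.d0 (mul_nonneg (ind_nonneg (inr gp vl σ true r w)) (ind_nonneg (v (σ w) w)))
    have hL0 := H.L0
    have hC0 := H.C0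
    have n1 : 0 ≤ ind (A gp vl σ true r w ∧ ¬ inr gp vl σ true r w) * ind (v r w) :=
      mul_nonneg (ind_nonneg _) (ind_nonneg _)
    have n2 : 0 ≤ ind (inr gp vl σ true r w ∧ ¬ cnt w) * ind (v (σ w) w) := mul_nonneg (ind_nonneg _) (ind_nonneg _)
    have n3 : 0 ≤ ind (inr gp vl σ true r w ∧ fl (σ w) w) := ind_nonneg _
    have n12 := mul_nonneg hC0 (add_nonneg n1 n2)
    have n33 := mul_nonneg (add_nonneg hL0 hC0) n3
    by_cases hs : A gp vl σ true r w ∧ ¬ fl r w ∧ v r w
    · rw [ind_of hs, one_mul]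
      by_cases hi : inr gp vl σ true r w ∧ cnt w
      · by_cases hf : fl (σ w) w
        · have h8 : (L + Cn) * ind (inr gp vl σ true r w ∧ fl (σ w) w) = L + Cn := by
            rw [ind_of ⟨hi.1, hf⟩, mul_one]
          by_cases hv : v (σ w) w
          · rw [ind_of ⟨hi.1, hi.2, hv⟩, one_mul]
            linarith
          · rw [ind_not (p := inr gp vl σ true r w ∧ cnt w ∧ v (σ w) w) (fun h => hv h.2.2), zero_mul]
            linarith
        · have hv : v (σ w) w := H.vle hs.1.2 hs.2.2
          have h8 := (H.fz true r w hw hi.1.1.2 hi.1.2 hf hv).2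
          have e9 : dl * (ind (inr gp vl σ true r w) * ind (v (σ w) w)) = dl := by
            rw [ind_of hi.1, ind_of hv, one_mul, mul_one]
          rw [ind_of (p := inr gp vl σ true r w ∧ cnt w ∧ v (σ w) w) ⟨hi.1, hi.2, hv⟩, one_mul]
          linarith
      · rw [ind_not (p := inr gp vl σ true r w ∧ cnt w ∧ v (σ w) w) (fun h => hi ⟨h.1, h.2.1⟩), zero_mul]
        have h9 : 1 ≤ ind (A gp vl σ true r w ∧ ¬ inr gp vl σ true r w) * ind (v r w) +
            ind (inr gp vl σ true r w ∧ ¬ cnt w) * ind (v (σ w) w) := by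
          by_cases hj : inr gp vl σ true r w
          · have hc : ¬ cnt w := fun h => hi ⟨hj, h⟩
            have e2 : ind (inr gp vl σ true r w ∧ ¬ cnt w) * ind (v (σ w) w) = 1 := by
              rw [ind_of ⟨hj, hc⟩, ind_of (H.vle hs.1.2 hs.2.2), one_mul]
            linarith
          · have e2 : ind (A gp vl σ true r w ∧ ¬ inr gp vl σ true r w) * ind (v r w) = 1 := by
              rw [ind_of ⟨hs.1, hj⟩, ind_of hs.2.2, one_mul]
            linarith
        have h10 := mul_le_mul_of_nonneg_left h9 hC0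
        linarith
    · rw [ind_not hs, zero_mul, zero_add]
      by_cases hi : inr gp vl σ true r w ∧ cnt w ∧ v (σ w) w
      · rw [ind_of hi, one_mul]
        have hf : fl (σ w) w := by
          by_contra hf
          have hv : v r w := (H.fz true r w hw hi.1.1.2 hi.1.2 hf hi.2.2).1
          exact hs ⟨hi.1.1, fun h => hf (H.fle hi.1.1.2 h), hv⟩
        have h8 : (L + Cn) * ind (inr gp vl σ true r w ∧ fl (σ w) w) = L + Cn := by
          rw [ind_of ⟨hi.1, hf⟩, mul_one]
        linarith
      · rw [ind_not hi, zero_mul]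
        linarith
  have h8 := mul_le_mul_of_nonneg_left h4 H.ye0
  have h9 := mul_le_mul_of_nonneg_left h5 H.y10
  have h10 : P.E (fun w => ind (A gp vl σ true r w ∧ ¬ inr gp vl σ true r w) * ind (v r w)) +
      P.E (fun w => ind (inr gp vl σ true r w ∧ ¬ cnt w) * ind (v (σ w) w)) ≤
      (ye + y1) * P.E (fun w => ind (A gp vl σ true r w)) + P.Pr (fun w => inr gp vl σ true r w ∧ fl (σ w) w) := by
    linarith
  have h11 := mul_le_mul_of_nonneg_left h10 H.C0
  have e3 : Cn * ((ye + y1) * P.E (fun w => ind (A gp vl σ true r w)) +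
      P.Pr (fun w => inr gp vl σ true r w ∧ fl (σ w) w)) =
      Cn * (ye + y1) * P.E (fun w => ind (A gp vl σ true r w)) +
        Cn * P.Pr (fun w => inr gp vl σ true r w ∧ fl (σ w) w) := by ring
  rw [e3] at h11
  linarith

/-- **one V run** -/
theorem v_run (r : ℕ) : P.E (fun w => ind (inr gp vl σ false r w ∧ cnt w ∧ v (σ w) w) * F (σ w) (U w) (V w)) ≤
    L * y8 * P.E (fun w => ind (A gp vl σ false r w)) +
      L * P.Pr (fun w => inr gp vl σ false r w ∧ fl (σ w) w) := by
  set G : Om → Prop := fun w => A gp vl σ false r w ∧ cp P (pair cU cV) r (v r) w ≤ y8 with hG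
  have hGf : Fac (pair cU cV r) (fun w => ind (G w)) := Fac.ind fun a c hac => by
    rw [hG]
    simp only
    rw [cp_fac r (v r) a c hac, H.Af hac]
  have h1 : P.E (fun w => ind (G w) * ind (v r w)) ≤ y8 * P.E (fun w => ind (G w)) :=
    E_gam_le hGf (fun w => ind_nonneg _) fun w _ h => by
      have h4 : G w := by
        by_contra h5
        exact h (ind_not h5)
      exact h4.2
  have h2 : P.E (fun w => ind (G w)) ≤ P.E (fun w => ind (A gp vl σ false r w)) := P.E_mono fun w _ => ind_mono fun h => h.1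
  have hy8 : 0 ≤ y8 := H.y0.le.trans H.yy8
  have h3 : P.E (fun w => ind (inr gp vl σ false r w ∧ cnt w ∧ v (σ w) w) * F (σ w) (U w) (V w)) ≤
      L * P.E (fun w => ind (G w) * ind (v r w)) + L * P.Pr (fun w => inr gp vl σ false r w ∧ fl (σ w) w) := by
    unfold FP.Pr
    rw [← FP.E_smul, ← FP.E_smul, ← FP.E_add]
    refine P.E_mono fun w hw => ?_
    have hFL := H.FL (σ w) (U w) (V w)
    have hL0 := H.L0
    have n1 := mul_nonneg hL0 (mul_nonneg (ind_nonneg (G w)) (ind_nonneg (v r w)))
    have n2 := mul_nonneg hL0 (ind_nonneg (inr gp vl σ false r w ∧ fl (σ w) w))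
    by_cases hi : inr gp vl σ false r w ∧ cnt w ∧ v (σ w) w
    · rw [ind_of hi, one_mul]
      by_cases hf : fl (σ w) w
      · rw [ind_of (p := inr gp vl σ false r w ∧ fl (σ w) w) ⟨hi.1, hf⟩, mul_one]
        linarith
      · have hv : v r w := (H.fz false r w hw hi.1.1.2 hi.1.2 hf hi.2.2).1
        have hfr : ¬ fl r w := fun h => hf (H.fle hi.1.1.2 h)
        have hg : G w := by
          refine ⟨hi.1.1, ?_⟩
          rcases (sta_V hi.1.1.1).2 with h4 | h4
          · exact (H.g0 r w hw h4).trans H.yy8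
          · exact H.g8 r w hw hfr h4
        have e : L * (ind (G w) * ind (v r w)) = L := by rw [ind_of hg, ind_of hv]; ring
        linarith
    · rw [ind_not hi, zero_mul]
      linarith
  have h4 := mul_le_mul_of_nonneg_left (h1.trans (mul_le_mul_of_nonneg_left h2 hy8)) H.L0
  have e : L * (y8 * P.E (fun w => ind (A gp vl σ false r w))) = L * y8 * P.E (fun w => ind (A gp vl σ false r w)) := by
    ring
  rw [e] at h4
  linarith

/-- **outside the runs** -/
theorem o_run : P.E (fun w => ind (stt gp vl (σ w) w = none ∧ cnt w ∧ v (σ w) w) * F (σ w) (U w) (V w)) ≤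
    u / 2 * P.Pr (fun w => v (σ w) w) + L * P.Pr (fun w => stt gp vl (σ w) w = none ∧ fl (σ w) w) := by
  have hu0 := H.u0
  have h1 : P.E (fun w => ind (stt gp vl (σ w) w = none ∧ cnt w ∧ v (σ w) w ∧ ¬ fl (σ w) w) * F (σ w) (U w) (V w)) ≤
      u / 2 * P.Pr (fun w => v (σ w) w) := by
    unfold FP.Pr
    rw [E_stop H.sT (fun s w => ind (stt gp vl s w = none ∧ cnt w ∧ v s w ∧ ¬ fl s w) * F s (U w) (V w)),
      E_stop H.sT (fun s w => ind (v s w)), Finset.mul_sum]
    refine Finset.sum_le_sum fun s _ => ?_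
    have e1 : P.E (fun w => ind (σ w = s) *
        (ind (stt gp vl s w = none ∧ cnt w ∧ v s w ∧ ¬ fl s w) * F s (U w) (V w))) =
        P.E (fun w => ind (σ w = s ∧ stt gp vl s w = none ∧ cnt w ∧ v s w ∧ ¬ fl s w) * F s (U w) (V w)) := by
      refine P.E_congr fun w _ => ?_
      by_cases a : σ w = s
      · rw [ind_of a, one_mul]
        congr 1
        rw [propext (and_iff_right a)]
      · rw [ind_not a, zero_mul, ind_not (p := σ w = s ∧ _) (fun h => a h.1), zero_mul]
    rw [e1, E_ru H.hI H.hU H.hV (s := s)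
      (e := fun w => ind (σ w = s ∧ stt gp vl s w = none ∧ cnt w ∧ v s w ∧ ¬ fl s w)) (fun a b h1 h2 => by
        rw [H.tf h1, H.vf s a b h1 h2, H.ff s a b h1 h2]
        congr 1
        refine propext ⟨fun h => ?_, fun h => ?_⟩
        · have h3 := (H.ef h1).1 h.1
          exact ⟨h3, h.2.1, (H.cf s a b h1 h3).1 h.2.2.1, h.2.2.2⟩
        · exact ⟨(H.ef h1).2 h.1, h.2.1, (H.cf s a b h1 h.1).2 h.2.2.1, h.2.2.2⟩), ← FP.E_smul]
    refine P.E_mono fun w hw => ?_
    by_cases h : σ w = s ∧ stt gp vl s w = none ∧ cnt w ∧ v s w ∧ ¬ fl s w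
    · have h3 := stt_none h.2.1
      have h4 := H.ts s w hw h.1.ge h.2.2.2.2 h3.2 (Or.inr ⟨h.1.symm, h3.1⟩)
      rw [ind_of h, ind_of h.1, ind_of h.2.2.2.1]
      linarith
    · rw [ind_not h, zero_mul]
      exact mul_nonneg (by linarith) (mul_nonneg (ind_nonneg _) (ind_nonneg _))
  have h2 : P.E (fun w => ind (stt gp vl (σ w) w = none ∧ cnt w ∧ v (σ w) w) * F (σ w) (U w) (V w)) ≤
      P.E (fun w => ind (stt gp vl (σ w) w = none ∧ cnt w ∧ v (σ w) w ∧ ¬ fl (σ w) w) * F (σ w) (U w) (V w)) +
        L * P.Pr (fun w => stt gp vl (σ w) w = none ∧ fl (σ w) w) := by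
    unfold FP.Pr
    rw [← FP.E_smul, ← FP.E_add]
    refine P.E_mono fun w _ => ?_
    have hFL := H.FL (σ w) (U w) (V w)
    have hL0 := H.L0
    have n2 := mul_nonneg hL0 (ind_nonneg (stt gp vl (σ w) w = none ∧ fl (σ w) w))
    by_cases h : stt gp vl (σ w) w = none ∧ cnt w ∧ v (σ w) w
    · by_cases hf : fl (σ w) w
      · rw [ind_of h, ind_not (p := stt gp vl (σ w) w = none ∧ cnt w ∧ v (σ w) w ∧ ¬ fl (σ w) w)
          (fun h1 => h1.2.2.2 hf), ind_of (p := stt gp vl (σ w) w = none ∧ fl (σ w) w) ⟨h.1, hf⟩]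
        linarith
      · rw [ind_of h, ind_of ⟨h.1, h.2.1, h.2.2, hf⟩]
        linarith
    · have e1 : ind (stt gp vl (σ w) w = none ∧ cnt w ∧ v (σ w) w ∧ ¬ fl (σ w) w) = 0 :=
        ind_not fun h1 => h ⟨h1.1, h1.2.1, h1.2.2.1⟩
      have e2 : ind (stt gp vl (σ w) w = none ∧ cnt w ∧ v (σ w) w) = 0 := ind_not h
      rw [e1, e2]
      linarith
  linarith

/-- **THE SIGNED ACCOUNTING of one life** -/
theorem runs : P.E (fun w => ind (cnt w ∧ v (σ w) w) * F (σ w) (U w) (V w)) ≤
    (3 * u / 2 + dl + 2 * Cn * (ye + y1) / y) * P.Pr (fun w => v (σ w) w) +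
      L * y8 * ∑ r ∈ range T, P.E (fun w => ind (A gp vl σ false r w)) +
      (L + 2 * Cn) * P.Pr (fun w => fl (σ w) w) := by
  have e1 : P.E (fun w => ind (cnt w ∧ v (σ w) w) * F (σ w) (U w) (V w)) =
      ∑ r ∈ range T, P.E (fun w => ind (inr gp vl σ true r w ∧ cnt w ∧ v (σ w) w) * F (σ w) (U w) (V w)) +
      ∑ r ∈ range T, P.E (fun w => ind (inr gp vl σ false r w ∧ cnt w ∧ v (σ w) w) * F (σ w) (U w) (V w)) +
      P.E (fun w => ind (stt gp vl (σ w) w = none ∧ cnt w ∧ v (σ w) w) * F (σ w) (U w) (V w)) := by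
    rw [← FP.E_sum, ← FP.E_sum, ← FP.E_add, ← FP.E_add]
    refine P.E_congr fun w _ => ?_
    rw [← Finset.sum_mul, ← Finset.sum_mul, ← add_mul, ← add_mul]
    congr 1
    have h1 := H.inr_sum true w
    have h2 := H.inr_sum false w
    by_cases h : cnt w ∧ v (σ w) w
    · have e : ∀ p : Prop, ind (p ∧ cnt w ∧ v (σ w) w) = ind p := fun p => by rw [propext (and_iff_left h)]
      simp only [e]
      rw [h1, h2, ind_of h]
      cases hs : stt gp vl (σ w) w with
      | none =>
        rw [ind_not (show ¬ (none : Option Bool) = some true by decide),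
          ind_not (show ¬ (none : Option Bool) = some false by decide), ind_of rfl]
        ring
      | some b => cases b with
        | true =>
          rw [ind_of rfl, ind_not (show ¬ (some true : Option Bool) = some false by decide),
            ind_not (show ¬ (some true : Option Bool) = none by decide)]
          ring
        | false =>
          rw [ind_of rfl, ind_not (show ¬ (some false : Option Bool) = some true by decide),
            ind_not (show ¬ (some false : Option Bool) = none by decide)]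
          ring
    · have e : ∀ p : Prop, ind (p ∧ cnt w ∧ v (σ w) w) = 0 := fun p => ind_not fun h1 => h h1.2
      simp only [e]
      rw [ind_not h]
      simp
  have e2 : ∑ r ∈ range T, P.Pr (fun w => inr gp vl σ true r w ∧ fl (σ w) w) +
      ∑ r ∈ range T, P.Pr (fun w => inr gp vl σ false r w ∧ fl (σ w) w) +
      P.Pr (fun w => stt gp vl (σ w) w = none ∧ fl (σ w) w) ≤ P.Pr (fun w => fl (σ w) w) := by
    unfold FP.Pr
    rw [← FP.E_sum, ← FP.E_sum, ← FP.E_add, ← FP.E_add]
    refine P.E_mono fun w _ => ?_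
    have h1 := H.inr_sum true w
    have h2 := H.inr_sum false w
    by_cases h : fl (σ w) w
    · have e : ∀ p : Prop, ind (p ∧ fl (σ w) w) = ind p := fun p => by rw [propext (and_iff_left h)]
      simp only [e]
      rw [h1, h2, ind_of h]
      cases hs : stt gp vl (σ w) w with
      | none =>
        rw [ind_not (show ¬ (none : Option Bool) = some true by decide),
          ind_not (show ¬ (none : Option Bool) = some false by decide), ind_of rfl]
        linarith
      | some b => cases b with
        | true =>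
          rw [ind_of rfl, ind_not (show ¬ (some true : Option Bool) = some false by decide),
            ind_not (show ¬ (some true : Option Bool) = none by decide)]
          linarith
        | false =>
          rw [ind_of rfl, ind_not (show ¬ (some false : Option Bool) = some true by decide),
            ind_not (show ¬ (some false : Option Bool) = none by decide)]
          linarith
    · have e : ∀ p : Prop, ind (p ∧ fl (σ w) w) = 0 := fun p => ind_not fun h1 => h h1.2
      simp only [e]
      simp [ind_nonneg]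
  have h1 := Finset.sum_le_sum fun r (_ : r ∈ range T) => H.g_run r
  have h2 := Finset.sum_le_sum fun r (_ : r ∈ range T) => H.v_run r
  have h3 := H.o_run
  have h4 := H.S1_le
  have h5 := H.P1_le
  rw [Finset.sum_add_distrib, Finset.sum_add_distrib, Finset.sum_add_distrib, ← Finset.mul_sum, ← Finset.mul_sum,
    ← Finset.mul_sum, ← Finset.mul_sum] at h1
  have h1' : ∑ r ∈ range T, P.E (fun w => ind (inr gp vl σ true r w) * ind (v (σ w) w)) ≤
      P.Pr (fun w => v (σ w) w) := by
    rw [← FP.E_sum]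
    refine P.E_mono fun w _ => ?_
    rw [← Finset.sum_mul, H.inr_sum true w]
    exact mul_le_of_le_one_left (ind_nonneg _) (ind_le_one _)
  have h1'' := mul_le_mul_of_nonneg_left h1' H.d0
  rw [Finset.sum_add_distrib, ← Finset.mul_sum, ← Finset.mul_sum] at h2
  have hu0 := H.u0
  have hL0 := H.L0
  have hC0 := H.C0
  have h6 := mul_le_mul_of_nonneg_left h4 (show 0 ≤ u / 2 by linarith)
  have h7 := mul_le_mul_of_nonneg_left h5 (mul_nonneg hC0 (add_nonneg H.ye0 H.y10))
  have e7 : Cn * (ye + y1) * (2 / y * P.Pr (fun w => v (σ w) w)) = 2 * Cn * (ye + y1) / y * P.Pr (fun w => v (σ w) w) := by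
    ring
  rw [e7] at h7
  have n1 : 0 ≤ ∑ r ∈ range T, P.Pr (fun w => inr gp vl σ false r w ∧ fl (σ w) w) :=
    Finset.sum_nonneg fun r _ => P.Pr_nonneg _
  have n2 : 0 ≤ P.Pr (fun w => stt gp vl (σ w) w = none ∧ fl (σ w) w) := P.Pr_nonneg _
  have h8 := mul_le_mul_of_nonneg_left e2 (show 0 ≤ L + 2 * Cn by linarith)
  rw [e1]
  have h9 := mul_nonneg hC0 n1
  have h10 := mul_nonneg hC0 n2
  nlinarith

end RH

end runs

end

end Pool.Agent.GMH.PhsV
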