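import Pool.Agent.GMH.PhsV

/-!
# GMH/PhsW (helper40): LEMMA V: released rows at the public end of a life, in the mean over the samples

Notes 3922 (B) (2), (3), 3939 (2), (3), fixed hidden point and fixed coin tables, one life in one public epoch.
World of the row `c`: `gpc c s` = a gam-phase is on, `σc c` = end of the life; the true world is the world of `U`.

`F s c z` = the function of the time `s` (table of the last item time, version); `ru (F r) c s` = its mean over the cell.

* `WW` : the hypotheses: cells, the set `v`, the gam-phases, the payment `ru (F r) c' (σc c) - u/4 ≤ g c + er c c'` of every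
  row `c'` and every version `r` at the end of the life in every world `c`, the flags `fl0 x` (freezing, jumps at item times,
  ends not counted);
* `wt`, `kp` : the violation process: a row is tested when a gam-phase starts in its own world and at the end of its life,
  with the version of this time, and keeps the version of its taking;
* `lemV` : `E 1_cnt 1_(v σ) F σ (U,V) ≤ (3u/2 + dl + 2 Cn (ye+y1)/y) P(v σ) + (4/u) L y8 (e0 + M e1) +
    (L + 2 Cn) (mean P(fl0 x σ) + ((4/u)(e0 + M e1 + e2) + 2)/√(M+1))`, `e0 = E g`, `e1` = mean of `er c c'` over independent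
  rows, `e2` = mean of `er c c`, `dl` = drift of `F` in a run.
-/

set_option autoImplicit false
set_option linter.unusedSectionVars false

namespace Pool.Agent.GMH.PhsV

open Finset Pool.Agent.PWZ Pool.Agent.M3 Pool.Agent.GMH.Gdy Pool.Agent.GMH.CR

noncomputable section

section marg

variable {α : Type*} [Fintype α] {q : α → ℝ}

theorem sw_one (hq1 : ∑ a, q a = 1) {n : ℕ} (j : Fin n) (f : α → ℝ) :
    ∑ z : Fin n → α, sw q z * f (z j) = ∑ a, q a * f a := by
  cases n with
  | zero => exact j.elim0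
  | succ n =>
    have h := sw_split q j (fun a _ => f a)
    rw [h, ← Finset.sum_mul, sw_sum hq1, one_mul]

theorem sw_two (hq1 : ∑ a, q a = 1) {n : ℕ} (i : Fin (n + 1)) (j : Fin n) (f : α → α → ℝ) :
    ∑ z : Fin (n + 1) → α, sw q z * f (z i) (z (i.succAbove j)) = ∑ a, q a * ∑ b, q b * f a b := by
  have h := sw_split q i (fun a x => f a (x j))
  rw [h]
  calc ∑ x : Fin n → α, sw q x * ∑ a, q a * f a (x j)
      = ∑ a, q a * ∑ x : Fin n → α, sw q x * f a (x j) := by
        simp only [Finset.mul_sum]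
        rw [Finset.sum_comm]
        exact Finset.sum_congr rfl fun a _ => Finset.sum_congr rfl fun x _ => by ring
    _ = _ := Finset.sum_congr rfl fun a _ => by rw [sw_one hq1 j (fun b => f a b)]

end marg

theorem stt_V {Om : Type*} {gp vl : ℕ → Om → Prop} {s : ℕ} {w : Om} (h : stt gp vl s w = some false) :
    gp s w ∨ vl s w := by
  obtain ⟨r, hr, h1, h2⟩ := sta_ex h
  rcases hr.lt_or_eq with h3 | h3
  · -- the run was on at the time `s - 1`
    obtain ⟨s', rfl⟩ : ∃ s', s = s' + 1 := ⟨s - 1, by omega⟩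
    have h4 := h2 s' (by omega) (by omega)
    have h5 : stt gp vl s' w ≠ some true := by rw [h4]; decide
    by_contra hcon
    push Not at hcon
    have h6 : stt gp vl (s' + 1) w = none := by
      unfold stt
      rw [if_neg h5, if_pos h4, if_neg (fun h7 => h7.elim hcon.2 hcon.1)]
    rw [h6] at h
    exact absurd h (by simp)
  · rw [h3] at h1
    exact Or.inr (sta_V h1).1

section lemV

variable {Om : Type*} [Fintype Om] {P : FP Om} {κ κ' : ℕ → Type*} {cU : ∀ t, Om → κ t} {cV : ∀ t, Om → κ' t}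
  {α ω : Type*} [Fintype α] {U : Om → α} {V : Om → ω} {F : ℕ → α → ω → ℝ}

/-- a row is tested when a gam-phase starts in its world and at the end of its life outside the gam-phases -/
def wt (P : FP Om) (cV : ∀ t, Om → κ' t) (V : Om → ω) (F : ℕ → α → ω → ℝ) (u : ℝ) (gpc : α → ℕ → Om → Prop)
    (σc : α → Om → ℕ) (c : α) (s : ℕ) (w : Om) : Prop :=
  s ≤ σc c w ∧ u / 2 ≤ ru P cV V (F s) c s w ∧ (gst (gpc c) s w ∨ (s = σc c w ∧ ¬ gpc c s w))

/-- a row taken at the time `r` is kept while its sum is large -/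
def kp (P : FP Om) (cV : ∀ t, Om → κ' t) (V : Om → ω) (F : ℕ → α → ω → ℝ) (u : ℝ) (r : ℕ) (c : α) (s : ℕ) (w : Om) :
    Prop := u / 4 < ru P cV V (F r) c s w

/-- the hypotheses of Lemma V -/
structure WW (P : FP Om) (cU : ∀ t, Om → κ t) (cV : ∀ t, Om → κ' t) (U : Om → α) (V : Om → ω) (F : ℕ → α → ω → ℝ)
    (v : ℕ → Om → Prop) (gpc : α → ℕ → Om → Prop) (σc : α → Om → ℕ) (cnt : Om → Prop) (M : ℕ)
    (fl0 : (Fin M → α) → ℕ → Om → Prop) (g : α → Om → ℝ) (er : α → α → Om → ℝ) (T : ℕ)
    (L Cn u dl y ye y1 y8 : ℝ) : Prop where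
  hI : P.Indep U V
  hU : ∀ s, Fac U (cU s)
  hV : ∀ s, Fac V (cV s)
  fU : Filt cU
  fV : Filt cV
  L0 : 0 ≤ L
  C0 : 0 ≤ Cn
  u0 : 0 < u
  d0 : 0 ≤ dl
  y0 : 0 < y
  ye0 : 0 ≤ ye
  y10 : 0 ≤ y1
  yye : ye ≤ y / 2
  yy8 : y ≤ y8
  FL : ∀ s c z, F s c z ≤ L
  FC : ∀ s c z, - Cn ≤ F s c z
  vf : ∀ s a b, pair cU cV s a = pair cU cV s b → U a = U b → (v s a ↔ v s b)
  vm : ∀ s w, v s w → v (s + 1) w
  /-- the worlds: functions of the row and of the cell of `V` -/
  gc : ∀ c s a b, cV s a = cV s b → (gpc c s a ↔ gpc c s b)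
  sc : ∀ c, Stp cV (σc c)
  sT : ∀ c w, σc c w < T
  /-- the true world sees the node only -/
  gf : ∀ s a b, pair cU cV s a = pair cU cV s b → (gpc (U a) s a ↔ gpc (U b) s b)
  st : Stp (pair cU cV) (fun w => σc (U w) w)
  cf : ∀ s a b, pair cU cV s a = pair cU cV s b → σc (U b) b = s → (cnt a ↔ cnt b)
  g1 : ∀ s w, P.p w ≠ 0 → gpc (U w) s w → y ≤ cp P (pair cU cV) s (v s) w
  g0 : ∀ s w, P.p w ≠ 0 → ¬ gpc (U w) s w → cp P (pair cU cV) s (v s) w ≤ y
  ge : ∀ s w, P.p w ≠ 0 → gpc (U w) s w → ¬ gpc (U w) (s + 1) w →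
    cp P (pair cU cV) (s + 1) (v (s + 1)) w ≤ ye
  ff : ∀ x s a b, pair cU cV s a = pair cU cV s b → U a = U b → (fl0 x s a ↔ fl0 x s b)
  fm : ∀ x s w, fl0 x s w → fl0 x (s + 1) w
  g8 : ∀ x s w, P.p w ≠ 0 → ¬ fl0 x s w → gst (gpc (U w)) s w → cp P (pair cU cV) s (v s) w ≤ y8
  gn : ∀ x w, P.p w ≠ 0 → ¬ fl0 x (σc (U w) w) w → ¬ cnt w →
    cp P (pair cU cV) (σc (U w) w) (v (σc (U w) w)) w ≤ y1
  /-- frozen while in a gam-phase or violated -/
  fz : ∀ x r w, P.p w ≠ 0 → r ≤ σc (U w) w →
    (∀ t, r ≤ t → t ≤ σc (U w) w → gpc (U w) t w ∨ Vio.vl (wt P cV V F u gpc σc) (kp P cV V F u) x t w) →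
    ¬ fl0 x (σc (U w) w) w → v (σc (U w) w) w →
    v r w ∧ F (σc (U w) w) (U w) (V w) ≤ F r (U w) (V w) + dl
  gg0 : ∀ c w, 0 ≤ g c w
  er0 : ∀ c c' w, 0 ≤ er c c' w
  /-- payment of the row `c'` with the version `r` at the end of the life in the world `c` -/
  py : ∀ c c' r w, r ≤ σc c w → ru P cV V (F r) c' (σc c w) w - u / 4 ≤ g c w + er c c' w

variable {v : ℕ → Om → Prop} {gpc : α → ℕ → Om → Prop} {σc : α → Om → ℕ} {cnt : Om → Prop} {M : ℕ}
  {fl0 : (Fin M → α) → ℕ → Om → Prop} {g : α → Om → ℝ} {er : α → α → Om → ℝ} {T : ℕ}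
  {L Cn u dl y ye y1 y8 : ℝ}

namespace WW

variable (H : WW P cU cV U V F v gpc σc cnt M fl0 g er T L Cn u dl y ye y1 y8)
include H

theorem wtf (c : α) (s : ℕ) (a b : Om) (h : cV s a = cV s b) :
    wt P cV V F u gpc σc c s a ↔ wt P cV V F u gpc σc c s b := by
  unfold wt gst
  have h1 : s ≤ σc c a ↔ s ≤ σc c b := Stp.le_fac H.fV (H.sc c) s h
  have h2 : s = σc c a ↔ s = σc c b := by
    have h3 := H.sc c s a b h
    omega
  rw [h1, h2, ru_fac (P := P) (V := V) (F := F s) c s a b h, H.gc c s a b h]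
  refine and_congr_right fun _ => and_congr_right fun _ => or_congr_left (and_congr_right fun _ =>
    forall_congr' fun s' => forall_congr' fun hs' => ?_)
  rw [H.gc c s' a b (H.fV.le (show s' ≤ s by omega) a b h)]

omit H in
theorem kpf (r : ℕ) (c : α) (s : ℕ) (a b : Om) (h : cV s a = cV s b) :
    kp P cV V F u r c s a ↔ kp P cV V F u r c s b := by
  unfold kp
  rw [ru_fac (P := P) (V := V) (F := F r) c s a b h]

/-- the flags with the exchange event -/
def fl (P : FP Om) (cV : ∀ t, Om → κ' t) (U : Om → α) (V : Om → ω) (F : ℕ → α → ω → ℝ) (u : ℝ)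
    (gpc : α → ℕ → Om → Prop) (σc : α → Om → ℕ) (fl0 : (Fin M → α) → ℕ → Om → Prop) (x : Fin M → α) (s : ℕ) (w : Om) : Prop :=
  fl0 x s w ∨ ∃ s' ≤ s, wt P cV V F u gpc σc (U w) s' w ∧
    ¬ Vio.vl (wt P cV V F u gpc σc) (kp P cV V F u) x s' w

theorem toRH (x : Fin M → α) : RH P cU cV U V F v (fun s w => gpc (U w) s w)
    (Vio.vl (wt P cV V F u gpc σc) (kp P cV V F u) x) (fl P cV U V F u gpc σc fl0 x) (fun w => σc (U w) w) cnt T
    L Cn u dl y ye y1 y8 where
  hI := H.hI
  hU := H.hU
  hV := H.hV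
  fU := H.fU
  fV := H.fV
  L0 := H.L0
  C0 := H.C0
  u0 := H.u0.le
  d0 := H.d0
  y0 := H.y0
  ye0 := H.ye0
  y10 := H.y10
  yye := H.yye
  yy8 := H.yy8
  FL := H.FL
  FC := H.FC
  vf := H.vf
  vm := H.vm
  gf := H.gf
  lf s a b h := Vio.vl_iff H.wtf kpf H.fV (pair_eq.1 h).2
  ff s a b h hu := by
    unfold fl
    rw [H.ff x s a b h hu]
    refine or_congr_right (exists_congr fun s' => and_congr_right fun hs' => ?_)
    have h1 : cV s' a = cV s' b := H.fV.le hs' a b (pair_eq.1 h).2
    rw [hu, H.wtf (U b) s' a b h1, Vio.vl_iff H.wtf kpf H.fV h1]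
  fm s w h := by
    rcases h with h | ⟨s', hs', h⟩
    · exact Or.inl (H.fm x s w h)
    · exact Or.inr ⟨s', by omega, h⟩
  st := H.st
  sT w := H.sT _ w
  cf := H.cf
  g1 := H.g1
  g0 := H.g0
  ge := H.ge
  g8 s w hw hf hg := H.g8 x s w hw (fun h => hf (Or.inl h)) hg
  gn w hw hf hc := H.gn x w hw (fun h => hf (Or.inl h)) hc
  fz b r w hw hr h hf hv := by
    refine H.fz x r w hw hr (fun t ht ht' => ?_) (fun h => hf (Or.inl h)) hv
    have h1 := h t ht ht'
    cases b with
    | true => exact Or.inl (stt_G (gp := fun s w => gpc (U w) s w) h1)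
    | false => exact stt_V (gp := fun s w => gpc (U w) s w) h1
  ts s w hw hs hf hv ht := by
    by_contra hcon
    refine hf (Or.inr ⟨s, le_rfl, ⟨hs, (not_le.1 hcon).le, ?_⟩, hv⟩)
    rcases ht with ht | ht
    · exact Or.inl ht
    · exact Or.inr ht

/-- the takings up to the end of the life in the world `c` -/
theorem nt_le {n : ℕ} (z : Fin n → α) (c : α) :
    P.E (fun w => Vio.nt (wt P cV V F u gpc σc) (kp P cV V F u) z (σc c w) w) ≤
      4 / u * (P.E (g c) + ∑ j, P.E (er c (z j))) := by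
  have h1 := Vio.pay_tkn (P := P) (cV := cV) (V := V) (F := F) (wt := wt P cV V F u gpc σc)
    (kp := kp P cV V F u) (x := z) H.u0.le (fun c s w h => h.2.1) (fun r c s w => Iff.rfl) H.wtf H.fV (H.sc c)
  have h2 : P.E (fun w => Vio.PhV P cV (wt P cV V F u gpc σc) (kp P cV V F u) V F u z (σc c w) w) ≤
      P.E (g c) + ∑ j, P.E (er c (z j)) := by
    rw [← FP.E_sum, ← FP.E_add]
    refine P.E_mono fun w _ => ?_
    unfold Vio.PhV
    have hn : 0 ≤ ∑ j, er c (z j) w := Finset.sum_nonneg fun j _ => H.er0 _ _ _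
    by_cases h : ∃ r i, Vio.vi (wt P cV V F u gpc σc) (kp P cV V F u) z (σc c w) r i w
    · obtain ⟨r, i, hi⟩ := h
      have hr := Vio.vi_le hi
      rw [Finset.sum_eq_single r, Finset.sum_eq_single i, ind_of hi, one_mul]
      · have h3 := H.py c (z i) r w hr
        have h4 := Finset.single_le_sum (f := fun j => er c (z j) w) (fun j _ => H.er0 _ _ _) (mem_univ i)
        linarith
      · intro j _ hj
        rw [ind_not (fun h => hj (Vio.vi_one h hi).2), zero_mul]
      · intro h
        exact absurd (mem_univ _) h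
      · intro r' _ hr'
        refine Finset.sum_eq_zero fun j _ => ?_
        rw [ind_not (fun h => hr' (Vio.vi_one h hi).1), zero_mul]
      · intro h
        exact absurd (mem_range.2 (by omega)) h
    · rw [Finset.sum_eq_zero fun r _ => Finset.sum_eq_zero fun i _ => by
        rw [ind_not (fun h1 => h ⟨r, i, h1⟩), zero_mul]]
      exact add_nonneg (H.gg0 _ _) hn
  have h3 : u / 4 * P.E (fun w => Vio.nt (wt P cV V F u gpc σc) (kp P cV V F u) z (σc c w) w) ≤
      P.E (g c) + ∑ j, P.E (er c (z j)) := h1.trans h2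
  have hu := H.u0
  rw [div_mul_eq_mul_div, le_div_iff₀ hu]
  linarith

/-- **LEMMA V** -/
theorem lemV : P.E (fun w => ind (cnt w ∧ v (σc (U w) w) w) * F (σc (U w) w) (U w) (V w)) ≤
    (3 * u / 2 + dl + 2 * Cn * (ye + y1) / y) * P.Pr (fun w => v (σc (U w) w) w) +
      4 / u * L * y8 * (∑ c, P.Pr (fun w => U w = c) * P.E (g c) +
        M * ∑ c, P.Pr (fun w => U w = c) * ∑ c', P.Pr (fun w => U w = c') * P.E (er c c')) +
      (L + 2 * Cn) * (∑ x : Fin M → α, sw (fun a => P.Pr (fun w => U w = a)) x *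
          P.Pr (fun w => fl0 x (σc (U w) w) w) +
        (4 / u * (∑ c, P.Pr (fun w => U w = c) * P.E (g c) +
          M * ∑ c, P.Pr (fun w => U w = c) * ∑ c', P.Pr (fun w => U w = c') * P.E (er c c') +
          ∑ c, P.Pr (fun w => U w = c) * P.E (er c c)) + 2) / √((M : ℝ) + 1)) := by
  classical
  set q : α → ℝ := fun a => P.Pr (fun w => U w = a) with hq
  have hq0 : ∀ a, 0 ≤ q a := fun a => P.Pr_nonneg _
  have hq1 : ∑ a, q a = 1 := by
    rw [hq]
    unfold FP.Pr
    rw [← FP.E_sum]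
    have : ∀ w, ∑ a, ind (U w = a) = (1 : ℝ) := by
      intro w
      rw [Finset.sum_eq_single (U w) (fun b _ hb => ind_not (fun h => hb h.symm)) (fun h => absurd (mem_univ _) h),
        ind_of rfl]
    simp only [this]
    exact P.E_const 1
  set e0 := ∑ c, q c * P.E (g c) with he0
  set e1 := ∑ c, q c * ∑ c', q c' * P.E (er c c') with he1
  set e2 := ∑ c, q c * P.E (er c c) with he2
  have e00 : 0 ≤ e0 := Finset.sum_nonneg fun c _ => mul_nonneg (hq0 c) (P.E_nonneg fun w _ => H.gg0 _ _)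
  have e10 : 0 ≤ e1 := Finset.sum_nonneg fun c _ => mul_nonneg (hq0 c) (Finset.sum_nonneg fun c' _ =>
    mul_nonneg (hq0 c') (P.E_nonneg fun w _ => H.er0 _ _ _))
  have e20 : 0 ≤ e2 := Finset.sum_nonneg fun c _ => mul_nonneg (hq0 c) (P.E_nonneg fun w _ => H.er0 _ _ _)
  have hu := H.u0
  set W := wt P cV V F u gpc σc with hW
  set K := kp P cV V F u with hK
  set B := P.E (fun w => ind (cnt w ∧ v (σc (U w) w) w) * F (σc (U w) w) (U w) (V w)) with hB
  set A1 := (3 * u / 2 + dl + 2 * Cn * (ye + y1) / y) * P.Pr (fun w => v (σc (U w) w) w) with hA1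
  have hL0 := H.L0
  have hC0 := H.C0
  have hy8 : 0 ≤ y8 := H.y0.le.trans H.yy8
  -- for every sample
  have h1 : ∀ x : Fin M → α, B ≤ A1 + L * y8 * P.E (fun w => Vio.nt W K x (σc (U w) w) w) +
      (L + 2 * Cn) * (P.Pr (fun w => fl0 x (σc (U w) w) w) +
        P.Pr (fun w => ∃ s, W (U w) s w ∧ ¬ Vio.vl W K x s w)) := by
    intro x
    have h2 := (H.toRH x).runs
    have h3 : ∑ r ∈ range T, P.E (fun w => ind (RH.A (fun s w => gpc (U w) s w) (Vio.vl W K x) (fun w => σc (U w) w)
        false r w)) ≤ P.E (fun w => Vio.nt W K x (σc (U w) w) w) := by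
      rw [← FP.E_sum]
      refine P.E_mono fun w _ => ?_
      have h4 := cnt_V (wt := W) (kp := K) (gp := fun s w => gpc (U w) s w) (x := x) w (σc (U w) w)
      have h5 : ∑ r ∈ range T, ind (RH.A (fun s w => gpc (U w) s w) (Vio.vl W K x) (fun w => σc (U w) w) false r w) ≤
          ∑ s ∈ range (σc (U w) w + 1), ind (sta (fun s w => gpc (U w) s w) (Vio.vl W K x) false s w) := by
        have h6 : (range T).filter (fun s => s ≤ σc (U w) w) = range (σc (U w) w + 1) := by
          ext s
          rw [mem_filter, mem_range, mem_range]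
          have := H.sT (U w) w
          omega
        rw [← h6, Finset.sum_filter]
        refine Finset.sum_le_sum fun s _ => ?_
        by_cases h7 : s ≤ σc (U w) w
        · rw [if_pos h7]
          exact ind_mono fun h => h.1
        · rw [if_neg h7, ind_not fun h => h7 h.2]
      have h6 := ind_nonneg (Vio.vl W K x (σc (U w) w) w ∧
        stt (fun s w => gpc (U w) s w) (Vio.vl W K x) (σc (U w) w) w ≠ some false)
      linarith
    have h4 : P.Pr (fun w => fl P cV U V F u gpc σc fl0 x (σc (U w) w) w) ≤ P.Pr (fun w => fl0 x (σc (U w) w) w) +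
        P.Pr (fun w => ∃ s, W (U w) s w ∧ ¬ Vio.vl W K x s w) := by
      unfold FP.Pr
      rw [← FP.E_add]
      refine P.E_mono fun w _ => ?_
      have n1 := ind_nonneg (fl0 x (σc (U w) w) w)
      have n2 := ind_nonneg (∃ s, W (U w) s w ∧ ¬ Vio.vl W K x s w)
      by_cases h : fl P cV U V F u gpc σc fl0 x (σc (U w) w) w
      · rw [ind_of h]
        rcases h with h | ⟨s, _, h⟩
        · rw [ind_of h]
          linarith
        · rw [ind_of (p := ∃ s, W (U w) s w ∧ ¬ Vio.vl W K x s w) ⟨s, h⟩]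
          linarith
      · rw [ind_not h]
        exact add_nonneg n1 n2
    have h5 := mul_le_mul_of_nonneg_left h3 (mul_nonneg hL0 hy8)
    have h6 := mul_le_mul_of_nonneg_left h4 (show 0 ≤ L + 2 * Cn by linarith)
    linarith
  -- the takings, true world
  have h2 : ∑ x : Fin M → α, sw q x * P.E (fun w => Vio.nt W K x (σc (U w) w) w) ≤ 4 / u * (e0 + M * e1) := by
    have h3 : ∀ x : Fin M → α, P.E (fun w => Vio.nt W K x (σc (U w) w) w) ≤
        4 / u * (e0 + ∑ j, ∑ c, q c * P.E (er c (x j))) := by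
      intro x
      have h4 : P.E (fun w => Vio.nt W K x (σc (U w) w) w) =
          ∑ c, q c * P.E (fun w => Vio.nt W K x (σc c w) w) := by
        have h5 : ∀ c, q c * P.E (fun w => Vio.nt W K x (σc c w) w) =
            P.E (fun w => ind (U w = c) * Vio.nt W K x (σc c w) w) := by
          intro c
          refine (H.hI _ _ (Fac.ind fun v w h => by rw [h]) (fun a b hab => ?_)).symm
          unfold Vio.nt
          have h6 : σc c a = σc c b := by
            rcases lt_trichotomy (σc c a) (σc c b) with h7 | h7 | h7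
            · have := H.sc c (σc c a) a b (H.hV _ a b hab)
              omega
            · exact h7
            · have := H.sc c (σc c b) a b (H.hV _ a b hab)
              omega
          rw [h6]
          refine Finset.sum_congr rfl fun s _ => Finset.sum_congr rfl fun i _ => ?_
          rw [propext (Vio.tkn_iff H.wtf kpf H.fV (H.hV s a b hab))]
        rw [Finset.sum_congr rfl fun c _ => h5 c, ← FP.E_sum]
        refine P.E_congr fun w _ => ?_
        rw [Finset.sum_eq_single (U w)]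
        · rw [ind_of rfl, one_mul]
        · intro b _ hb
          rw [ind_not (fun h => hb h.symm), zero_mul]
        · intro h
          exact absurd (mem_univ _) h
      rw [h4]
      calc ∑ c, q c * P.E (fun w => Vio.nt W K x (σc c w) w)
          ≤ ∑ c, q c * (4 / u * (P.E (g c) + ∑ j, P.E (er c (x j)))) :=
            Finset.sum_le_sum fun c _ => mul_le_mul_of_nonneg_left (H.nt_le x c) (hq0 c)
        _ = 4 / u * (e0 + ∑ j, ∑ c, q c * P.E (er c (x j))) := by
            rw [he0, Finset.sum_comm (s := (univ : Finset (Fin M))), ← Finset.sum_add_distrib, Finset.mul_sum]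
            refine Finset.sum_congr rfl fun c _ => ?_
            rw [← Finset.mul_sum]
            ring
    have h4 : ∀ j : Fin M, ∑ x : Fin M → α, sw q x * ∑ c, q c * P.E (er c (x j)) = e1 := by
      intro j
      rw [sw_one hq1 j (fun b => ∑ c, q c * P.E (er c b)), he1]
      simp only [Finset.mul_sum]
      rw [Finset.sum_comm]
      exact Finset.sum_congr rfl fun a _ => Finset.sum_congr rfl fun b _ => by ring
    calc ∑ x : Fin M → α, sw q x * P.E (fun w => Vio.nt W K x (σc (U w) w) w)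
        ≤ ∑ x : Fin M → α, sw q x * (4 / u * (e0 + ∑ j, ∑ c, q c * P.E (er c (x j)))) :=
          Finset.sum_le_sum fun x _ => mul_le_mul_of_nonneg_left (h3 x) (sw_nonneg hq0 x)
      _ = 4 / u * (e0 * ∑ x : Fin M → α, sw q x + ∑ j, ∑ x : Fin M → α, sw q x * ∑ c, q c * P.E (er c (x j))) := by
          rw [Finset.sum_comm (s := (univ : Finset (Fin M))), Finset.mul_sum, ← Finset.sum_add_distrib, Finset.mul_sum]
          refine Finset.sum_congr rfl fun x _ => ?_
          rw [← Finset.mul_sum]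
          ring
      _ = 4 / u * (e0 + M * e1) := by
          rw [sw_sum hq1, mul_one, Finset.sum_congr rfl fun j _ => h4 j, Finset.sum_const, Finset.card_univ,
            Fintype.card_fin, nsmul_eq_mul]
  -- the exchange
  set Q := 4 / u * (e0 + M * e1 + e2) with hQ
  have hQ0 : 0 ≤ Q := by
    have : 0 ≤ (M : ℝ) := Nat.cast_nonneg _
    positivity
  have h3 : ∑ x : Fin M → α, sw q x * P.Pr (fun w => ∃ s, W (U w) s w ∧ ¬ Vio.vl W K x s w) ≤
      (Q + 2) / √((M : ℝ) + 1) := by
    have h4 := Vio.exch_sqrt (P := P) (wt := W) (kp := K) hq0 hq1 (σc := σc) (fun c s w h => h.1) (M := M) hQ0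
      (fun i => ?_)
    · refine le_trans (le_of_eq (Finset.sum_congr rfl fun x _ => ?_)) h4
      rw [Vio.true_row H.hI H.hV H.fV H.wtf kpf x]
    · calc ∑ z : Fin (M + 1) → α, sw q z * P.E (fun w => Vio.nt W K z (σc (z i) w) w)
          ≤ ∑ z : Fin (M + 1) → α, sw q z * (4 / u * (P.E (g (z i)) + ∑ j, P.E (er (z i) (z j)))) :=
            Finset.sum_le_sum fun z _ => mul_le_mul_of_nonneg_left (H.nt_le z (z i)) (sw_nonneg hq0 z)
        _ = 4 / u * (∑ z : Fin (M + 1) → α, sw q z * P.E (g (z i)) +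
              (∑ z : Fin (M + 1) → α, sw q z * P.E (er (z i) (z i)) +
                ∑ j : Fin M, ∑ z : Fin (M + 1) → α, sw q z * P.E (er (z i) (z (i.succAbove j))))) := by
            rw [Finset.sum_comm (s := (univ : Finset (Fin M))), ← Finset.sum_add_distrib, ← Finset.sum_add_distrib,
              Finset.mul_sum]
            refine Finset.sum_congr rfl fun z _ => ?_
            rw [Fin.sum_univ_succAbove (fun j => P.E (er (z i) (z j))) i, ← Finset.mul_sum]
            ring
        _ = Q := by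
            rw [sw_one hq1 i (fun a => P.E (g a)), sw_one hq1 i (fun a => P.E (er a a)),
              Finset.sum_congr rfl fun j _ => sw_two hq1 i j (fun a b => P.E (er a b)), Finset.sum_const,
              Finset.card_univ, Fintype.card_fin, nsmul_eq_mul, hQ, he0, he1, he2]
            ring
        _ ≤ Q := le_rfl
  -- the mean
  have h4 := Finset.sum_le_sum fun x (_ : x ∈ (univ : Finset (Fin M → α))) =>
    mul_le_mul_of_nonneg_left (h1 x) (sw_nonneg hq0 x)
  have e3 : ∑ x : Fin M → α, sw q x * B = B := by rw [← Finset.sum_mul, sw_sum hq1, one_mul]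
  have e4 : ∑ x : Fin M → α, sw q x * (A1 + L * y8 * P.E (fun w => Vio.nt W K x (σc (U w) w) w) +
      (L + 2 * Cn) * (P.Pr (fun w => fl0 x (σc (U w) w) w) +
        P.Pr (fun w => ∃ s, W (U w) s w ∧ ¬ Vio.vl W K x s w))) =
      A1 * ∑ x : Fin M → α, sw q x + L * y8 * ∑ x : Fin M → α, sw q x * P.E (fun w => Vio.nt W K x (σc (U w) w) w) +
      (L + 2 * Cn) * (∑ x : Fin M → α, sw q x * P.Pr (fun w => fl0 x (σc (U w) w) w) +
        ∑ x : Fin M → α, sw q x * P.Pr (fun w => ∃ s, W (U w) s w ∧ ¬ Vio.vl W K x s w)) := by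
    rw [Finset.mul_sum, Finset.mul_sum, ← Finset.sum_add_distrib, ← Finset.sum_add_distrib, Finset.mul_sum,
      ← Finset.sum_add_distrib]
    exact Finset.sum_congr rfl fun x _ => by ring
  rw [e3, e4, sw_sum hq1, mul_one] at h4
  have h5 := mul_le_mul_of_nonneg_left h2 (mul_nonneg hL0 hy8)
  have h6 := mul_le_mul_of_nonneg_left h3 (show 0 ≤ L + 2 * Cn by linarith)
  have e5 : L * y8 * (4 / u * (e0 + M * e1)) = 4 / u * L * y8 * (e0 + M * e1) := by ring
  rw [e5] at h5
  linarith

end WW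

end lemV

end

end Pool.Agent.GMH.PhsV
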