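import Pool.Agent.M3.FP

/-!
# GMH.Pig: thresholds by pigeonhole (H3.UNM U.0 / U.2; helper41, order of helper27)

* `one_le` : the intervals of radius `L / (4 m)` about the points `a + j L / m`, `j ≤ m`, are disjoint;
* `wt` : weights `c k w ≥ 0` : some `y ∈ [a, a + L]` with
  `∑ k E (c k; |X k - y| ≤ L / (4 m)) ≤ (1 / (m + 1)) ∑ k E (c k)`;
* `thr` : `eta ∈ [eta0, 2 eta0]`, `∑ k Pr (b k ∧ |X k - eta| ≤ eta0 / (4 m)) ≤ (2 / m) ∑ k Pr (b k)`;
* `thr_mul` : the multiplicative form: `eta ∈ [eta0, e ^ L eta0]`, the event `eta e ^ (- L / (4 m)) ≤ X k ≤ eta e ^ (L / (4 m))`;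
* `dep` : dependent choice along a rank; `thr_fam` : a family without dependence; `thr_dep`, `thr_mul_dep` : all data
  of the index `i` may depend on the thresholds `eta j` with `rk j < rk i`.
-/

set_option autoImplicit false

namespace Pool.Agent.GMH.Pig

open Finset Pool.Agent.PWZ Pool.Agent.M3

/-- the intervals about the grid are disjoint -/
theorem one_le {a L x : ℝ} (hL : 0 < L) {m : ℕ} (hm : 1 ≤ m) :
    ∑ j ∈ range (m + 1), ind (|x - (a + j * (L / m))| ≤ L / (4 * m)) ≤ 1 := by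
  have hm' : (0 : ℝ) < m := by exact_mod_cast hm
  by_cases h : ∃ j ∈ range (m + 1), |x - (a + j * (L / m))| ≤ L / (4 * m)
  · obtain ⟨j0, hj0, h0⟩ := h
    rw [sum_eq_single j0]
    · exact ind_le_one _
    · intro j _ hne
      refine ind_not fun h1 => ?_
      have h2 : |(a + j * (L / m)) - (a + j0 * (L / m))| ≤ L / (2 * m) := by
        calc |(a + j * (L / m)) - (a + j0 * (L / m))|
            = |(x - (a + j0 * (L / m))) - (x - (a + j * (L / m)))| := by ring_nf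
          _ ≤ |x - (a + j0 * (L / m))| + |x - (a + j * (L / m))| := abs_sub _ _
          _ ≤ L / (4 * m) + L / (4 * m) := add_le_add h0 h1
          _ = L / (2 * m) := by field_simp; ring
      have h3 : (a + j * (L / m)) - (a + j0 * (L / m)) = ((j : ℝ) - j0) * (L / m) := by ring
      have h4 : (1 : ℝ) ≤ |(j : ℝ) - j0| := by
        have h5 : (j : ℤ) - j0 ≠ 0 := by
          intro h6
          exact hne (by omega)
        have h6 : (1 : ℤ) ≤ |(j : ℤ) - j0| := Int.one_le_abs h5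
        exact_mod_cast h6
      rw [h3, abs_mul, abs_of_pos (div_pos hL hm')] at h2
      have h7 : L / m ≤ |(j : ℝ) - j0| * (L / m) := le_mul_of_one_le_left (div_pos hL hm').le h4
      have h8 : L / (2 * m) < L / m := by
        apply div_lt_div_of_pos_left hL hm'
        linarith
      linarith
    · intro h
      exact absurd hj0 h
  · rw [sum_eq_zero]
    · exact zero_le_one
    · intro j hj
      exact ind_not fun h1 => h ⟨j, hj, h1⟩

variable {Om : Type*} [Fintype Om]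

/-- **pigeonhole with weights** -/
theorem wt (P : FP Om) {κ : Type*} (s : Finset κ) (c X : κ → Om → ℝ) (hc : ∀ k ∈ s, ∀ w, 0 ≤ c k w) (a : ℝ)
    {L : ℝ} (hL : 0 < L) {m : ℕ} (hm : 1 ≤ m) :
    ∃ y, a ≤ y ∧ y ≤ a + L ∧
      ∑ k ∈ s, P.E (fun w => c k w * ind (|X k w - y| ≤ L / (4 * m))) ≤ (1 / ((m : ℝ) + 1)) * ∑ k ∈ s, P.E (c k) := by
  have hm' : (0 : ℝ) < m := by exact_mod_cast hm
  have h1 : ∑ j ∈ range (m + 1), ∑ k ∈ s, P.E (fun w => c k w * ind (|X k w - (a + j * (L / m))| ≤ L / (4 * m))) ≤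
      ∑ k ∈ s, P.E (c k) := by
    rw [sum_comm]
    refine sum_le_sum fun k hk => ?_
    have h2 : ∑ j ∈ range (m + 1), P.E (fun w => c k w * ind (|X k w - (a + j * (L / m))| ≤ L / (4 * m))) =
        P.E (fun w => c k w * ∑ j ∈ range (m + 1), ind (|X k w - (a + j * (L / m))| ≤ L / (4 * m))) := by
      unfold FP.E
      rw [sum_comm]
      refine sum_congr rfl fun w _ => ?_
      beta_reduce
      rw [mul_sum, mul_sum]
    rw [h2]
    refine P.E_mono fun w _ => ?_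
    have h3 := mul_le_mul_of_nonneg_left (one_le (a := a) (x := X k w) hL hm) (hc k hk w)
    rwa [mul_one] at h3
  obtain ⟨j, hj, h2⟩ : ∃ j ∈ range (m + 1),
      ∑ k ∈ s, P.E (fun w => c k w * ind (|X k w - (a + j * (L / m))| ≤ L / (4 * m))) ≤
        (1 / ((m : ℝ) + 1)) * ∑ k ∈ s, P.E (c k) := by
    by_contra h
    push Not at h
    have h3 : ∑ _j ∈ range (m + 1), (1 / ((m : ℝ) + 1)) * ∑ k ∈ s, P.E (c k) <
        ∑ j ∈ range (m + 1), ∑ k ∈ s, P.E (fun w => c k w * ind (|X k w - (a + j * (L / m))| ≤ L / (4 * m))) :=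
      sum_lt_sum_of_nonempty ⟨0, by simp⟩ h
    rw [sum_const, card_range, nsmul_eq_mul] at h3
    have h4 : ((m + 1 : ℕ) : ℝ) * ((1 / ((m : ℝ) + 1)) * ∑ k ∈ s, P.E (c k)) = ∑ k ∈ s, P.E (c k) := by
      push_cast
      field_simp
    rw [h4] at h3
    exact absurd h1 (not_le.2 h3)
  refine ⟨a + j * (L / m), ?_, ?_, h2⟩
  · have : 0 ≤ (j : ℝ) * (L / m) := by positivity
    linarith
  · have h3 : (j : ℝ) ≤ m := by
      have := mem_range.1 hj
      exact_mod_cast Nat.lt_succ_iff.1 this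
    have h4 : (j : ℝ) * (L / m) ≤ m * (L / m) := mul_le_mul_of_nonneg_right h3 (by positivity)
    have h5 : (m : ℝ) * (L / m) = L := by field_simp
    linarith

/-- the same for events -/
theorem pr (P : FP Om) {κ : Type*} (s : Finset κ) (b : κ → Om → Prop) (X : κ → Om → ℝ) (a : ℝ)
    {L : ℝ} (hL : 0 < L) {m : ℕ} (hm : 1 ≤ m) :
    ∃ y, a ≤ y ∧ y ≤ a + L ∧
      ∑ k ∈ s, P.Pr (fun w => b k w ∧ |X k w - y| ≤ L / (4 * m)) ≤ (1 / ((m : ℝ) + 1)) * ∑ k ∈ s, P.Pr (b k) := by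
  obtain ⟨y, h1, h2, h3⟩ := wt P s (fun k w => ind (b k w)) X (fun k _ w => ind_nonneg _) a hL hm
  refine ⟨y, h1, h2, ?_⟩
  unfold FP.Pr
  refine le_trans (le_of_eq ?_) h3
  refine sum_congr rfl fun k _ => ?_
  congr 1
  funext w
  exact ind_and _ _

theorem inv_le {m : ℕ} (hm : 1 ≤ m) {x : ℝ} (hx : 0 ≤ x) : (1 / ((m : ℝ) + 1)) * x ≤ (2 / m) * x := by
  have hm' : (0 : ℝ) < m := by exact_mod_cast hm
  refine mul_le_mul_of_nonneg_right ?_ hx
  rw [div_le_div_iff₀ (by positivity) hm']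
  linarith

theorem Pr_sum_nonneg (P : FP Om) {κ : Type*} (s : Finset κ) (b : κ → Om → Prop) : 0 ≤ ∑ k ∈ s, P.Pr (b k) :=
  sum_nonneg fun _ _ => P.E_nonneg fun _ _ => ind_nonneg _

/-- the statement about one threshold -/
def Thr (P : FP Om) {κ : Type*} (s : Finset κ) (b : κ → Om → Prop) (X : κ → Om → ℝ) (eta0 : ℝ) (m : ℕ)
    (eta : ℝ) : Prop :=
  eta0 ≤ eta ∧ eta ≤ 2 * eta0 ∧
    ∑ k ∈ s, P.Pr (fun w => b k w ∧ |X k w - eta| ≤ eta0 / (4 * m)) ≤ (2 / (m : ℝ)) * ∑ k ∈ s, P.Pr (b k)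

/-- the statement about one threshold, multiplicative form -/
def ThrM (P : FP Om) {κ : Type*} (s : Finset κ) (b : κ → Om → Prop) (X : κ → Om → ℝ) (eta0 L : ℝ) (m : ℕ)
    (eta : ℝ) : Prop :=
  eta0 ≤ eta ∧ eta ≤ Real.exp L * eta0 ∧
    ∑ k ∈ s, P.Pr (fun w => b k w ∧ eta * Real.exp (-(L / (4 * m))) ≤ X k w ∧ X k w ≤ eta * Real.exp (L / (4 * m))) ≤
      (1 / ((m : ℝ) + 1)) * ∑ k ∈ s, P.Pr (b k)

/-- **one threshold** -/
theorem thr (P : FP Om) {κ : Type*} (s : Finset κ) (b : κ → Om → Prop) (X : κ → Om → ℝ)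
    {eta0 : ℝ} (h0 : 0 < eta0) {m : ℕ} (hm : 1 ≤ m) : ∃ eta, Thr P s b X eta0 m eta := by
  obtain ⟨y, h1, h2, h3⟩ := pr P s b X eta0 h0 hm
  exact ⟨y, h1, by linarith, h3.trans (inv_le hm (Pr_sum_nonneg P s b))⟩

/-- the sum over the times before `T` -/
theorem thr_range (P : FP Om) (T : ℕ) (b : ℕ → Om → Prop) (X : ℕ → Om → ℝ)
    {eta0 : ℝ} (h0 : 0 < eta0) {m : ℕ} (hm : 1 ≤ m) :
    ∃ eta, eta0 ≤ eta ∧ eta ≤ 2 * eta0 ∧
      ∑ k ∈ range T, P.Pr (fun w => b k w ∧ |X k w - eta| ≤ eta0 / (4 * m)) ≤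
        (2 / (m : ℝ)) * ∑ k ∈ range T, P.Pr (b k) :=
  thr P (range T) b X h0 hm

/-- **one threshold, multiplicative** -/
theorem thr_mul (P : FP Om) {κ : Type*} (s : Finset κ) (b : κ → Om → Prop) (X : κ → Om → ℝ)
    {eta0 L : ℝ} (h0 : 0 < eta0) (hL : 0 < L) {m : ℕ} (hm : 1 ≤ m) : ∃ eta, ThrM P s b X eta0 L m eta := by
  obtain ⟨y, h1, h2, h3⟩ := pr P s b (fun k w => Real.log (X k w)) (Real.log eta0) hL hm
  refine ⟨Real.exp y, ?_, ?_, ?_⟩
  · calc eta0 = Real.exp (Real.log eta0) := (Real.exp_log h0).symm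
      _ ≤ Real.exp y := Real.exp_le_exp.2 h1
  · calc Real.exp y ≤ Real.exp (Real.log eta0 + L) := Real.exp_le_exp.2 h2
      _ = Real.exp L * eta0 := by rw [Real.exp_add, Real.exp_log h0, mul_comm]
  · refine le_trans (sum_le_sum fun k _ => P.E_mono fun w _ => ind_mono fun h => ?_) h3
    obtain ⟨hb, h4, h5⟩ := h
    refine ⟨hb, ?_⟩
    have hX : 0 < X k w := lt_of_lt_of_le (mul_pos (Real.exp_pos _) (Real.exp_pos _)) h4
    rw [← Real.exp_add] at h4 h5
    have h6 := (Real.le_log_iff_exp_le hX).2 h4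
    have h7 := (Real.log_le_iff_le_exp hX).2 h5
    rw [abs_le]
    constructor <;> linarith

/-! ## several thresholds -/

/-- **dependent choice along a rank** : `Q i e x` depends only on the values `e j` with `rk j < rk i` -/
theorem dep {ι V : Type*} [Nonempty V] (rk : ι → ℕ) (Q : ι → (ι → V) → V → Prop)
    (hQ : ∀ i e, ∃ x, Q i e x)
    (hloc : ∀ i e e', (∀ j, rk j < rk i → e j = e' j) → ∀ x, Q i e x → Q i e' x) : ∃ e : ι → V, ∀ i, Q i e (e i) := by
  classical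
  choose F hF using hQ
  -- successive approximations
  let st : ℕ → (ι → V) := fun n => Nat.rec (fun _ => Classical.arbitrary V) (fun n e i => if rk i = n then F i e else e i) n
  have hst : ∀ n i, st (n + 1) i = if rk i = n then F i (st n) else st n i := fun _ _ => rfl
  have hstab : ∀ i n, rk i < n → st n i = st (rk i + 1) i := by
    intro i n hn
    induction n, hn using Nat.le_induction with
    | base => rfl
    | succ n hn ih =>
      rw [hst, if_neg (by omega), ih]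
  refine ⟨fun i => st (rk i + 1) i, fun i => ?_⟩
  have h1 : st (rk i + 1) i = F i (st (rk i)) := by rw [hst, if_pos rfl]
  show Q i _ (st (rk i + 1) i)
  rw [h1]
  exact hloc i (st (rk i)) _ (fun j hj => hstab j (rk i) hj) _ (hF i _)

/-- a family of thresholds, without dependence -/
theorem thr_fam (P : FP Om) {ι κ : Type*} (s : ι → Finset κ) (b : ι → κ → Om → Prop) (X : ι → κ → Om → ℝ)
    (eta0 : ι → ℝ) (h0 : ∀ i, 0 < eta0 i) (m : ι → ℕ) (hm : ∀ i, 1 ≤ m i) :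
    ∃ eta : ι → ℝ, ∀ i, Thr P (s i) (b i) (X i) (eta0 i) (m i) (eta i) := by
  choose eta h using fun i => thr P (s i) (b i) (X i) (h0 i) (hm i)
  exact ⟨eta, h⟩

/-- **all data of the threshold `i` may depend on the thresholds of smaller rank** -/
theorem thr_dep (P : FP Om) {ι κ : Type*} (rk : ι → ℕ) (s : ι → (ι → ℝ) → Finset κ)
    (b : ι → (ι → ℝ) → κ → Om → Prop) (X : ι → (ι → ℝ) → κ → Om → ℝ) (eta0 : ι → (ι → ℝ) → ℝ)
    (m : ι → (ι → ℝ) → ℕ) (h0 : ∀ i e, 0 < eta0 i e) (hm : ∀ i e, 1 ≤ m i e)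
    (hloc : ∀ i e e', (∀ j, rk j < rk i → e j = e' j) →
      s i e = s i e' ∧ b i e = b i e' ∧ X i e = X i e' ∧ eta0 i e = eta0 i e' ∧ m i e = m i e') :
    ∃ eta : ι → ℝ, ∀ i, Thr P (s i eta) (b i eta) (X i eta) (eta0 i eta) (m i eta) (eta i) := by
  refine dep rk (fun i e x => Thr P (s i e) (b i e) (X i e) (eta0 i e) (m i e) x)
    (fun i e => thr P _ _ _ (h0 i e) (hm i e)) ?_
  intro i e e' h x hx
  obtain ⟨h1, h2, h3, h4, h5⟩ := hloc i e e' h
  rwa [h1, h2, h3, h4, h5] at hx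

/-- the multiplicative form of `thr_dep` -/
theorem thr_mul_dep (P : FP Om) {ι κ : Type*} (rk : ι → ℕ) (s : ι → (ι → ℝ) → Finset κ)
    (b : ι → (ι → ℝ) → κ → Om → Prop) (X : ι → (ι → ℝ) → κ → Om → ℝ) (eta0 L : ι → (ι → ℝ) → ℝ)
    (m : ι → (ι → ℝ) → ℕ) (h0 : ∀ i e, 0 < eta0 i e) (hL : ∀ i e, 0 < L i e) (hm : ∀ i e, 1 ≤ m i e)
    (hloc : ∀ i e e', (∀ j, rk j < rk i → e j = e' j) →
      s i e = s i e' ∧ b i e = b i e' ∧ X i e = X i e' ∧ eta0 i e = eta0 i e' ∧ L i e = L i e' ∧ m i e = m i e') :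
    ∃ eta : ι → ℝ, ∀ i, ThrM P (s i eta) (b i eta) (X i eta) (eta0 i eta) (L i eta) (m i eta) (eta i) := by
  refine dep rk (fun i e x => ThrM P (s i e) (b i e) (X i e) (eta0 i e) (L i e) (m i e) x)
    (fun i e => thr_mul P _ _ _ (h0 i e) (hL i e) (hm i e)) ?_
  intro i e e' h x hx
  obtain ⟨h1, h2, h3, h4, h5, h6⟩ := hloc i e e' h
  rwa [h1, h2, h3, h4, h5, h6] at hx

end Pool.Agent.GMH.Pig
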