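import Pool.Agent.GMH.Sharp
import Pool.Agent.GMH.GdyV

/-!
# GMH/Prd (helper63): product weights with cells

`μ.fp` = the product law on `ι → Pt`; `c s i` = cell of a point at the vertex `i`; `nd c s` = node.  `off i x` = the
coordinates different from `i`.

* `indep_off` : `x i` and `off i x` are independent;
* `cnd` : the product weights conditioned on a node; `ce_nd` : `P.ce (nd c s) f x = (cnd ..).Ex f`;
* `sharp_nd` : the sharp transition lemma in a node, `LW_nd` : a set of density `p` in a node whose projections are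
  covered: `p ^ (1 - 1/k) ≤ ∑ P (cover l | node)` (Loomis-Whitney).
-/

set_option autoImplicit false
set_option linter.unusedSectionVars false

namespace Pool.Agent.GMH

open Finset Pool.Agent.PWZ Pool.Agent.GM Pool.Agent.M3

noncomputable section

variable {ι Pt : Type} [Fintype ι] [DecidableEq ι] [Fintype Pt]

namespace Wts

variable (μ : Wts ι Pt)

/-- the product law -/
def fp : FP (ι → Pt) where
  p z := ∏ i, μ.w i (z i)
  nn z := Finset.prod_nonneg fun i _ => μ.nn i _
  tot := by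
    have h := Finset.prod_univ_sum (fun _ : ι => (univ : Finset Pt)) (fun i y => μ.w i y)
    rw [Fintype.piFinset_univ] at h
    rw [← h]
    exact Finset.prod_eq_one fun i _ => μ.one i

theorem fp_E (f : (ι → Pt) → ℝ) : μ.fp.E f = μ.Ex f := rfl

theorem fp_ne {x : ι → Pt} : μ.fp.p x ≠ 0 ↔ ∀ i, μ.w i (x i) ≠ 0 := by
  show (∏ i, μ.w i (x i)) ≠ 0 ↔ _
  rw [Finset.prod_ne_zero_iff]
  exact ⟨fun h i => h i (mem_univ i), fun h i _ => h i⟩

end Wts

/-- the coordinates different from `i` -/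
def off (i : ι) (x : ι → Pt) (j : {j : ι // j ≠ i}) : Pt := x j.1

/-- all coordinates -/
def glue (i : ι) (a : Pt) (y : {j : ι // j ≠ i} → Pt) (j : ι) : Pt := if h : j = i then a else y ⟨j, h⟩

theorem glue_off (i : ι) (x : ι → Pt) : glue i (x i) (off i x) = x := by
  funext j
  unfold glue off
  by_cases h : j = i
  · rw [dif_pos h, h]
  · rw [dif_neg h]

theorem off_eq {i : ι} {x y : ι → Pt} : off i x = off i y ↔ ∀ j, j ≠ i → x j = y j :=
  ⟨fun h j hj => congrFun h ⟨j, hj⟩, fun h => funext fun j => h j.1 j.2⟩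

theorem dep_of_off {β : Type*} {i : ι} {f : (ι → Pt) → β} (h : ∀ x y, off i x = off i y → f x = f y) :
    Dep (univ.erase i) f := fun x y hxy =>
  h x y (off_eq.2 fun j hj => hxy j (mem_erase.2 ⟨hj, mem_univ j⟩))

theorem off_of_dep {β : Type*} {i : ι} {f : (ι → Pt) → β} (h : Dep (univ.erase i) f) (x y : ι → Pt)
    (hxy : off i x = off i y) : f x = f y := h x y fun j hj => off_eq.1 hxy j (mem_erase.1 hj).1

namespace Wts

variable (μ : Wts ι Pt)

/-- a coordinate is independent of the others -/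
theorem indep_off (i : ι) : μ.fp.Indep (fun x : ι → Pt => x i) (off i) := by
  intro f g hf hg
  rcases isEmpty_or_nonempty Pt with hE | hne
  · exact absurd (μ.one i) (by simp)
  have hg' : Dep ({i} : Finset ι)ᶜ g := by
    have h1 : Dep (univ.erase i) g := dep_of_off fun x y h => hg x y h
    refine h1.mono ?_
    intro j hj
    rw [mem_compl, mem_singleton]
    exact (mem_erase.1 hj).1
  have hf' : Dep ({i} : Finset ι) f := fun x y h => hf x y (h i (mem_singleton_self i))
  have hAf : Dep (∅ : Finset ι) (μ.Av {i} f) := by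
    have := μ.Av_dep_of (s := {i}) hf'
    rwa [sdiff_self] at this
  rw [μ.fp_E, μ.fp_E, μ.fp_E]
  obtain ⟨y0⟩ := hne
  have : Nonempty Pt := ⟨y0⟩
  set c := μ.Av {i} f (fun _ => y0) with hc
  have hcst : ∀ x, μ.Av {i} f x = c := fun x => hAf _ _ (fun j hj => absurd hj (notMem_empty j))
  have e1 : μ.Ex f = c := by
    rw [← μ.Ex_Av {i} f]
    have : μ.Av {i} f = fun _ => c := funext hcst
    rw [this, ← μ.Av_univ _ (fun _ => y0), μ.Av_const]
  have e2 : μ.Ex (fun w => f w * g w) = μ.Ex (fun x => c * g x) := by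
    rw [← μ.Ex_Av {i}]
    congr 1
    funext x
    have h1 : μ.Av {i} (fun w => f w * g w) x = μ.Av {i} (fun w => g w * f w) x :=
      μ.Av_congr _ x fun z _ => mul_comm _ _
    rw [h1, μ.Av_mul {i} f hg' x, hcst, mul_comm]
  rw [e2, e1]
  unfold Ex
  rw [Finset.mul_sum]
  exact Finset.sum_congr rfl fun z _ => by ring

end Wts

/-! ## nodes -/

section node

variable {κ : Type*} (c : ℕ → ι → Pt → κ)

/-- the node -/
def nd (s : ℕ) (x : ι → Pt) (i : ι) : κ := c s i (x i)

theorem nd_eq {s : ℕ} {x y : ι → Pt} : nd c s x = nd c s y ↔ ∀ i, c s i (x i) = c s i (y i) :=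
  ⟨fun h i => congrFun h i, fun h => funext h⟩

/-- refining cells -/
def Rf : Prop := ∀ s i y y', c (s + 1) i y = c (s + 1) i y' → c s i y = c s i y'

variable {c}

theorem nd_filt (hc : Rf c) : Filt (nd c) := fun s x y h => (nd_eq c).2 fun i => hc s i _ _ ((nd_eq c).1 h i)

variable (c) in
/-- cell of the vertex `i` -/
def cI (i : ι) (s : ℕ) (x : ι → Pt) : κ := c s i (x i)

variable (c) in
/-- cells of the other vertices -/
def cO (i : ι) (s : ℕ) (x : ι → Pt) (j : {j : ι // j ≠ i}) : κ := c s j.1 (x j.1)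

theorem cI_filt (hc : Rf c) (i : ι) : Filt (cI c i) := fun s _ _ h => hc s i _ _ h

theorem cO_filt (hc : Rf c) (i : ι) : Filt (cO c i) := fun s _ _ h => funext fun j => hc s j.1 _ _ (congrFun h j)

theorem cI_fac (i : ι) (s : ℕ) : Fac (fun x : ι → Pt => x i) (cI c i s) := fun x y h => by
  unfold cI
  have : x i = y i := h
  rw [this]

theorem cO_fac (i : ι) (s : ℕ) : Fac (off i) (cO c i s) := fun x y h => by
  funext j
  unfold cO
  rw [off_eq.1 h j.1 j.2]

theorem nd_pair (i : ι) (s : ℕ) (x y : ι → Pt) :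
    nd c s x = nd c s y ↔ Gdy.pair (cI c i) (cO c i) s x = Gdy.pair (cI c i) (cO c i) s y := by
  rw [nd_eq, Gdy.pair_eq]
  constructor
  · intro h
    exact ⟨h i, funext fun j => h j.1⟩
  · rintro ⟨h1, h2⟩ j
    by_cases hj : j = i
    · rw [hj]
      exact h1
    · exact congrFun h2 ⟨j, hj⟩

variable (μ : Wts ι Pt)

/-- mass of a cell of one vertex -/
def mI (s : ℕ) (i : ι) (y : Pt) : ℝ := ∑ y', μ.w i y' * ind (c s i y' = c s i y)

theorem mI_pos {s : ℕ} {i : ι} {y : Pt} (hy : μ.w i y ≠ 0) : 0 < mI (c := c) μ s i y := by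
  have h1 : 0 < μ.w i y := lt_of_le_of_ne (μ.nn i y) (Ne.symm hy)
  have h2 := Finset.single_le_sum (f := fun y' => μ.w i y' * ind (c s i y' = c s i y))
    (fun y' _ => mul_nonneg (μ.nn i y') (ind_nonneg _)) (mem_univ y)
  simp only [ind_of, mul_one] at h2
  exact lt_of_lt_of_le h1 h2

variable (c) in
/-- the weights conditioned on the node of the point `x` -/
def cnd (s : ℕ) {x : ι → Pt} (hx : μ.fp.p x ≠ 0) : Wts ι Pt where
  w i y := μ.w i y * ind (c s i y = c s i (x i)) / mI (c := c) μ s i (x i)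
  nn i y := div_nonneg (mul_nonneg (μ.nn i y) (ind_nonneg _)) (mI_pos μ (μ.fp_ne.1 hx i)).le
  one i := by
    rw [← Finset.sum_div]
    exact div_self (mI_pos μ (μ.fp_ne.1 hx i)).ne'

theorem prod_ind {s : ℕ} (x z : ι → Pt) : ∏ i, ind (c s i (z i) = c s i (x i)) = ind (nd c s z = nd c s x) := by
  by_cases h : nd c s z = nd c s x
  · rw [ind_of h]
    exact Finset.prod_eq_one fun i _ => ind_of ((nd_eq c).1 h i)
  · rw [ind_not h]
    obtain ⟨i, hi⟩ : ∃ i, ¬ c s i (z i) = c s i (x i) := by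
      by_contra hcon
      push Not at hcon
      exact h ((nd_eq c).2 hcon)
    exact Finset.prod_eq_zero (mem_univ i) (ind_not hi)

theorem m_nd (s : ℕ) (x : ι → Pt) : μ.fp.m (nd c s) x = ∏ i, mI (c := c) μ s i (x i) := by
  have h := Finset.prod_univ_sum (fun _ : ι => (univ : Finset Pt))
    (fun i y' => μ.w i y' * ind (c s i y' = c s i (x i)))
  rw [Fintype.piFinset_univ] at h
  unfold mI
  rw [h]
  show ∑ z, (∏ i, μ.w i (z i)) * ind (nd c s z = nd c s x) = _
  refine Finset.sum_congr rfl fun z _ => ?_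
  rw [Finset.prod_mul_distrib, prod_ind]

/-- conditional expectation given the node -/
theorem ce_nd (s : ℕ) {x : ι → Pt} (hx : μ.fp.p x ≠ 0) (f : (ι → Pt) → ℝ) :
    μ.fp.ce (nd c s) f x = (cnd c μ s hx).Ex f := by
  unfold FP.ce
  rw [m_nd]
  show (∑ z, (∏ i, μ.w i (z i)) * (ind (nd c s z = nd c s x) * f z)) / _ =
    ∑ z, (∏ i, μ.w i (z i) * ind (c s i (z i) = c s i (x i)) / mI (c := c) μ s i (x i)) * f z
  rw [Finset.sum_div]
  refine Finset.sum_congr rfl fun z _ => ?_
  rw [Finset.prod_div_distrib, Finset.prod_mul_distrib, prod_ind]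
  ring

/-- the sharp transition lemma in a node -/
theorem sharp_nd [Nonempty ι] (s : ℕ) {x : ι → Pt} (hx : μ.fp.p x ≠ 0) {lam : ℝ} (h0 : 0 ≤ lam) (H : (ι → Pt) → Prop)
    (m : (ι → Pt) → ℝ) (g : ι → (ι → Pt) → ℝ) (hg : ∀ l, Fac (fun z => (nd c s z, off l z)) (g l))
    (hg0 : ∀ l z, 0 ≤ g l z) (hm : ∀ l z, m z ≤ g l z)
    (hH : μ.fp.ce (nd c s) (fun z => ind (H z)) x ≤ lam) :
    μ.fp.ce (nd c s) (fun z => ind (H z) * m z) x ≤
      lam ^ ((1 : ℝ) / Fintype.card ι) * ∑ l, μ.fp.ce (nd c s) (g l) x := by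
  classical
  set N := nd c s x with hN
  -- replace the coordinate `l` by `x l` inside the node
  set g' : ι → (ι → Pt) → ℝ := fun l z => g l (Function.update z l (x l)) with hg'
  have hgg : ∀ l z, nd c s z = N → g' l z = g l z := by
    intro l z hz
    refine hg l _ _ ?_
    have h1 : nd c s (Function.update z l (x l)) = nd c s z := by
      refine (nd_eq c).2 fun i => ?_
      by_cases hi : i = l
      · subst hi
        rw [Function.update_self]
        exact ((nd_eq c).1 hz i).symm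
      · rw [Function.update_of_ne hi]
    have h2 : off l (Function.update z l (x l)) = off l z :=
      off_eq.2 fun j hj => Function.update_of_ne hj _ _
    show (nd c s _, off l _) = (nd c s z, off l z)
    rw [h1, h2]
  set H' : (ι → Pt) → Prop := fun z => H z ∧ nd c s z = N with hH'
  have hd : ∀ l ∈ (univ : Finset ι), Dep (univ.erase l) (g' l) := fun l _ => Dep.of_update fun z a => by
    rw [hg']
    simp only [Function.update_idem]
  have h1 := (cnd c μ s hx).sharp_rpow h0 H' (fun z => min (m z) (ind (nd c s z = N) * |m z|) ) g'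
    (s := univ) univ_nonempty hd (fun l _ z => hg0 l _) (fun l _ z => by
      by_cases hz : nd c s z = N
      · refine (min_le_left _ _).trans ?_
        rw [hgg l z hz]
        exact hm l z
      · refine (min_le_right _ _).trans ?_
        rw [ind_not hz, zero_mul]
        exact hg0 l _) x
  rw [Wts.Av_univ, Wts.Av_univ, Finset.card_univ] at h1
  have e1 : ∀ f f' : (ι → Pt) → ℝ, (∀ z, nd c s z = N → f z = f' z) →
      (cnd c μ s hx).Ex f = (cnd c μ s hx).Ex f' := by
    intro f f' hff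
    rw [← ce_nd, ← ce_nd]
    exact Gdy.ce_congr_on fun z _ hz => hff z hz
  have e2 : (cnd c μ s hx).Ex (fun z => ind (H' z)) = (cnd c μ s hx).Ex (fun z => ind (H z)) :=
    e1 _ _ fun z hz => by
      rw [hH']
      simp only [hz, and_true]
  have e3 : (cnd c μ s hx).Ex (fun z => ind (H' z) * min (m z) (ind (nd c s z = N) * |m z|)) =
      (cnd c μ s hx).Ex (fun z => ind (H z) * m z) := e1 _ _ fun z hz => by
    rw [hH', ind_of hz, one_mul, min_eq_left (le_abs_self _)]
    simp only [hz, and_true]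
  rw [e2, e3] at h1
  rw [ce_nd μ s hx] at hH
  rw [ce_nd μ s hx]
  refine (h1 hH).trans (mul_le_mul_of_nonneg_left (le_of_eq ?_) (Real.rpow_nonneg h0 _))
  refine Finset.sum_congr rfl fun l _ => ?_
  rw [Wts.Av_univ, ce_nd μ s hx]
  exact e1 _ _ fun z hz => hgg l z hz

/-- Loomis-Whitney in a node -/
theorem LW_nd [Nonempty ι] (s : ℕ) {x : ι → Pt} (hx : μ.fp.p x ≠ 0) {p : ℝ} (hp : 0 < p) (H : (ι → Pt) → Prop)
    (D : ι → (ι → Pt) → Prop) (hD : ∀ l v w, off l v = off l w → (D l v ↔ D l w))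
    (hH : p ≤ μ.fp.ce (nd c s) (fun z => ind (H z ∧ ∀ l, D l z)) x) :
    p ^ (1 - (1 : ℝ) / Fintype.card ι) ≤ ∑ l, μ.fp.ce (nd c s) (fun z => ind (D l z)) x := by
  set q := μ.fp.ce (nd c s) (fun z => ind (H z ∧ ∀ l, D l z)) x with hq
  have hq0 : 0 < q := hp.trans_le hH
  have h1 := sharp_nd (c := c) μ s hx hq0.le (fun z => H z ∧ ∀ l, D l z) (fun z => ind (∀ l, D l z))
    (fun l z => ind (D l z)) (fun l => (Fac.snd (nd c s) (off l)).trans (Fac.ind (hD l)))
    (fun l z => ind_nonneg _) (fun l z => ind_mono fun h => h l) le_rfl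
  have e1 : μ.fp.ce (nd c s) (fun z => ind (H z ∧ ∀ l, D l z) * ind (∀ l, D l z)) x = q := by
    rw [hq]
    congr 1
    funext z
    by_cases h : H z ∧ ∀ l, D l z
    · rw [ind_of h, ind_of h.2, one_mul]
    · rw [ind_not h, zero_mul]
  rw [e1] at h1
  have h2 : q ^ (1 - (1 : ℝ) / Fintype.card ι) ≤ ∑ l, μ.fp.ce (nd c s) (fun z => ind (D l z)) x := by
    have hr : 0 < q ^ ((1 : ℝ) / Fintype.card ι) := Real.rpow_pos_of_pos hq0 _
    rw [Real.rpow_sub hq0, Real.rpow_one, div_le_iff₀ hr]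
    linarith
  refine le_trans (Real.rpow_le_rpow hp.le hH ?_) h2
  have hk : (1 : ℝ) ≤ Fintype.card ι := by exact_mod_cast Fintype.card_pos
  rw [sub_nonneg, div_le_one (by linarith)]
  exact hk

end node

end

end Pool.Agent.GMH
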