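import Pool.Agent.M3.S3Min

/-!
# GMH.Psi: the potential of HARM(k), minimisers, saturation (any number of vertices; helper27)

`K` = known vertices, index sets `J : Finset K`.  On a finite probability space `P : FP Om`:
`B J` base information of `J` (points `x_J`, node), `L J` label of `J` (system + top letter), `V J` an addition.

* `lo L J` = labels strictly below `J`, `le L J` = labels of all `I <= J`, `pr L V J = (L J, V J)`;
* `ent J = H(L_J | L_(<J), B_J)`, `cost J = H(V_J | V_(<J), L_(<=J), B_J)`, `gain J = I(L_J; V_(<J) | L_(<J), B_J)`;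
* `ent_pr` : `ent (L,V) J = ent L J - gain J + cost J`;
* `Phi N S V = sum_(J in S) N J (2 cost J - gain J)`; the factor 2 makes all costs summable:
  `budget`: `Phi V <= 0` gives `Psi (L,V) + sum N cost <= Psi L`;
* `Phi_pr_le` : `Phi_L (V,W) <= Phi_L V + Phi_(L,V) W`;
* `exists_min` : a minimiser in any nonempty set of codes; `Min.sat` : saturation `0 <= Phi_(L,V) W`.
-/

set_option autoImplicit false
set_option linter.unusedSectionVars false

namespace Pool.Agent.GMH

open Finset Pool.Agent.PWZ Pool.Agent.M3

section defs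

variable {Om K υ ν : Type*} {β : Finset K → Type*}

open Classical in
/-- labels strictly below `J` -/
noncomputable def lo (L : Finset K → Om → υ) (J : Finset K) (w : Om) : Finset K → Option υ :=
  fun I => if I ⊂ J then some (L I w) else none

open Classical in
/-- labels of all `I <= J` -/
noncomputable def le (L : Finset K → Om → υ) (J : Finset K) (w : Om) : Finset K → Option υ :=
  fun I => if I ⊆ J then some (L I w) else none

/-- labels and additions -/
def pr (L : Finset K → Om → υ) (V : Finset K → Om → ν) (J : Finset K) (w : Om) : υ × ν := (L J w, V J w)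

theorem lo_eq {L : Finset K → Om → υ} {J : Finset K} {v w : Om} :
    lo L J v = lo L J w ↔ ∀ I, I ⊂ J → L I v = L I w := by
  classical
  constructor
  · intro h I hI
    have := congrFun h I
    simp only [lo, if_pos hI] at this
    exact Option.some.inj this
  · intro h
    funext I
    by_cases hI : I ⊂ J
    · simp only [lo, if_pos hI, h I hI]
    · simp only [lo, if_neg hI]

theorem le_eq {L : Finset K → Om → υ} {J : Finset K} {v w : Om} :
    le L J v = le L J w ↔ ∀ I, I ⊆ J → L I v = L I w := by
  classical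
  constructor
  · intro h I hI
    have := congrFun h I
    simp only [le, if_pos hI] at this
    exact Option.some.inj this
  · intro h
    funext I
    by_cases hI : I ⊆ J
    · simp only [le, if_pos hI, h I hI]
    · simp only [le, if_neg hI]

theorem le_eq' {L : Finset K → Om → υ} {J : Finset K} {v w : Om} :
    le L J v = le L J w ↔ L J v = L J w ∧ lo L J v = lo L J w := by
  rw [le_eq, lo_eq]
  constructor
  · intro h
    exact ⟨h J (Finset.Subset.refl J), fun I hI => h I hI.subset⟩
  · rintro ⟨h1, h2⟩ I hI
    rcases hI.eq_or_ssubset with h | h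
    · rw [h]; exact h1
    · exact h2 I h

theorem lo_pr_eq {L : Finset K → Om → υ} {V : Finset K → Om → ν} {J : Finset K} {v w : Om} :
    lo (pr L V) J v = lo (pr L V) J w ↔ lo L J v = lo L J w ∧ lo V J v = lo V J w := by
  rw [lo_eq, lo_eq, lo_eq]
  constructor
  · intro h
    exact ⟨fun I hI => congrArg Prod.fst (h I hI), fun I hI => congrArg Prod.snd (h I hI)⟩
  · rintro ⟨h1, h2⟩ I hI
    exact Prod.ext (h1 I hI) (h2 I hI)

theorem le_pr_eq {L : Finset K → Om → υ} {V : Finset K → Om → ν} {J : Finset K} {v w : Om} :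
    le (pr L V) J v = le (pr L V) J w ↔ le L J v = le L J w ∧ le V J v = le V J w := by
  rw [le_eq, le_eq, le_eq]
  constructor
  · intro h
    exact ⟨fun I hI => congrArg Prod.fst (h I hI), fun I hI => congrArg Prod.snd (h I hI)⟩
  · rintro ⟨h1, h2⟩ I hI
    exact Prod.ext (h1 I hI) (h2 I hI)

theorem pr_eq {L : Finset K → Om → υ} {V : Finset K → Om → ν} {J : Finset K} {v w : Om} :
    pr L V J v = pr L V J w ↔ L J v = L J w ∧ V J v = V J w := by
  unfold pr
  exact Prod.mk.injEq _ _ _ _ ▸ Iff.rfl

variable [Fintype Om] (P : FP Om)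

/-- entropy of the label of `J` given everything below -/
noncomputable def ent (B : (J : Finset K) → Om → β J) (L : Finset K → Om → υ) (J : Finset K) : ℝ :=
  P.Hc (L J) (fun w => (lo L J w, B J w))

/-- cost of the addition at `J` -/
noncomputable def cost (B : (J : Finset K) → Om → β J) (L : Finset K → Om → υ) (V : Finset K → Om → ν) (J : Finset K) : ℝ :=
  P.Hc (V J) (fun w => (lo V J w, le L J w, B J w))

/-- gain at `J` of the additions below `J` -/
noncomputable def gain (B : (J : Finset K) → Om → β J) (L : Finset K → Om → υ) (V : Finset K → Om → ν) (J : Finset K) : ℝ :=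
  P.I (L J) (lo V J) (fun w => (lo L J w, B J w))

/-- the potential -/
noncomputable def Psi (B : (J : Finset K) → Om → β J) (N : Finset K → ℝ) (S : Finset (Finset K)) (L : Finset K → Om → υ) : ℝ :=
  ∑ J ∈ S, N J * ent P B L J

/-- the functional of the additions -/
noncomputable def Phi (B : (J : Finset K) → Om → β J) (N : Finset K → ℝ) (S : Finset (Finset K)) (L : Finset K → Om → υ)
    (V : Finset K → Om → ν) : ℝ :=
  ∑ J ∈ S, N J * (2 * cost P B L V J - gain P B L V J)

end defs

/-! ## rearrangement of entropies -/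

section alg

variable {Om : Type*} [Fintype Om] (P : FP Om) {A1 A2 A3 A4 A5 A6 A7 : Type*}

theorem step_gen (a : Om → A1) (b : Om → A2) (c : Om → A3) (d : Om → A4) (e : Om → A5) :
    P.Hc (fun w => (a w, b w)) (fun w => ((c w, d w), e w)) =
      P.Hc a (fun w => (c w, e w)) - P.I a d (fun w => (c w, e w)) + P.Hc b (fun w => (d w, (a w, c w), e w)) := by
  unfold FP.I FP.Hc
  rw [P.H_congr (X := fun w => ((a w, b w), (c w, d w), e w)) (Y := fun w => (b w, d w, (a w, c w), e w))
      (by intro v w h; simp only [Prod.mk.injEq] at h ⊢; tauto) (by intro v w h; simp only [Prod.mk.injEq] at h ⊢; tauto),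
    P.H_congr (X := fun w => ((c w, d w), e w)) (Y := fun w => (d w, c w, e w))
      (by intro v w h; simp only [Prod.mk.injEq] at h ⊢; tauto) (by intro v w h; simp only [Prod.mk.injEq] at h ⊢; tauto),
    P.H_congr (X := fun w => (d w, (a w, c w), e w)) (Y := fun w => (a w, d w, c w, e w))
      (by intro v w h; simp only [Prod.mk.injEq] at h ⊢; tauto) (by intro v w h; simp only [Prod.mk.injEq] at h ⊢; tauto)]
  ring

/-- cost of two additions (`a`, `b` at `J`; `c`, `d` below; `e` everything old) -/
theorem cost_gen (a : Om → A1) (b : Om → A2) (c : Om → A3) (d : Om → A4) (e : Om → A5) :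
    P.Hc (fun w => (a w, b w)) (fun w => ((c w, d w), e w)) =
      P.Hc a (fun w => (c w, e w)) - P.I a d (fun w => (c w, e w)) + P.Hc b (fun w => (d w, (a w, c w), e w)) :=
  step_gen P a b c d e

end alg

section main

variable {Om K : Type*} {υ ν ν' : Type*} {β : Finset K → Type*} [Fintype Om] {P : FP Om}
  {B : (J : Finset K) → Om → β J} {L : Finset K → Om → υ} {V : Finset K → Om → ν} {W : Finset K → Om → ν'} {J : Finset K}

/-- the entropy after the addition -/
theorem ent_pr : ent P B (pr L V) J = ent P B L J - gain P B L V J + cost P B L V J := by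
  have h := step_gen P (L J) (V J) (lo L J) (lo V J) (B J)
  unfold ent gain cost
  have h1 : P.Hc (pr L V J) (fun w => (lo (pr L V) J w, B J w)) =
      P.Hc (fun w => (L J w, V J w)) (fun w => ((lo L J w, lo V J w), B J w)) := by
    refine P.Hc_congr ?_ ?_ ?_ ?_
    · intro v w h; simp only [Prod.mk.injEq, pr_eq] at h ⊢; tauto
    · intro v w h; simp only [Prod.mk.injEq, lo_pr_eq] at h ⊢; tauto
    · intro v w h; simp only [Prod.mk.injEq, pr_eq] at h ⊢; tauto
    · intro v w h; simp only [Prod.mk.injEq, lo_pr_eq] at h ⊢; tauto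
  have h2 : P.Hc (V J) (fun w => (lo V J w, le L J w, B J w)) =
      P.Hc (V J) (fun w => (lo V J w, (L J w, lo L J w), B J w)) := by
    refine P.Hc_congr_right (V J) ?_ ?_
    · intro v w h; simp only [Prod.mk.injEq, le_eq'] at h ⊢; tauto
    · intro v w h; simp only [Prod.mk.injEq, le_eq'] at h ⊢; tauto
  rw [h1, h2, h]

theorem cost_nonneg : 0 ≤ cost P B L V J := P.Hc_nonneg _ _

theorem gain_nonneg : 0 ≤ gain P B L V J := P.I_nonneg _ _ _

theorem ent_nonneg : 0 ≤ ent P B L J := P.Hc_nonneg _ _

theorem gain_le_ent : gain P B L V J ≤ ent P B L J := P.I_le_Hc _ _ _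

/-- **budget** : the potential pays the costs -/
theorem budget {N : Finset K → ℝ} {S : Finset (Finset K)} (h : Phi P B N S L V ≤ 0) :
    Psi P B N S (pr L V) + ∑ J ∈ S, N J * cost P B L V J ≤ Psi P B N S L := by
  unfold Phi at h
  unfold Psi
  have e : ∑ J ∈ S, N J * ent P B (pr L V) J + ∑ J ∈ S, N J * cost P B L V J =
      ∑ J ∈ S, N J * ent P B L J + ∑ J ∈ S, N J * (2 * cost P B L V J - gain P B L V J) := by
    rw [← Finset.sum_add_distrib, ← Finset.sum_add_distrib]
    refine Finset.sum_congr rfl fun J _ => ?_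
    rw [ent_pr]
    ring
  linarith

/-- the gains are paid too -/
theorem budget_gain {N : Finset K → ℝ} {S : Finset (Finset K)} (h : Phi P B N S L V ≤ 0) :
    2 * Psi P B N S (pr L V) + ∑ J ∈ S, N J * gain P B L V J ≤ 2 * Psi P B N S L := by
  have h1 := budget h
  have e : Psi P B N S (pr L V) + ∑ J ∈ S, N J * gain P B L V J =
      Psi P B N S L + ∑ J ∈ S, N J * cost P B L V J := by
    unfold Psi
    rw [← Finset.sum_add_distrib, ← Finset.sum_add_distrib]
    refine Finset.sum_congr rfl fun J _ => ?_
    rw [ent_pr]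
    ring
  linarith

/-- cost of a composed addition -/
theorem cost_pr : cost P B L (pr V W) J =
    cost P B L V J - P.I (V J) (lo W J) (fun w => (lo V J w, le L J w, B J w)) + cost P B (pr L V) W J := by
  have h := cost_gen P (V J) (W J) (lo V J) (lo W J) (fun w => (le L J w, B J w))
  unfold cost
  have h1 : P.Hc (pr V W J) (fun w => (lo (pr V W) J w, le L J w, B J w)) =
      P.Hc (fun w => (V J w, W J w)) (fun w => ((lo V J w, lo W J w), le L J w, B J w)) := by
    refine P.Hc_congr ?_ ?_ ?_ ?_
    · intro v w h; simp only [Prod.mk.injEq, pr_eq] at h ⊢; tauto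
    · intro v w h; simp only [Prod.mk.injEq, lo_pr_eq] at h ⊢; tauto
    · intro v w h; simp only [Prod.mk.injEq, pr_eq] at h ⊢; tauto
    · intro v w h; simp only [Prod.mk.injEq, lo_pr_eq] at h ⊢; tauto
  have h2 : P.Hc (W J) (fun w => (lo W J w, le (pr L V) J w, B J w)) =
      P.Hc (W J) (fun w => (lo W J w, (V J w, lo V J w), le L J w, B J w)) := by
    refine P.Hc_congr_right (W J) ?_ ?_
    · intro v w h; simp only [Prod.mk.injEq, le_pr_eq, le_eq' (L := V)] at h ⊢; tauto
    · intro v w h; simp only [Prod.mk.injEq, le_pr_eq, le_eq' (L := V)] at h ⊢; tauto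
  rw [h1, h2, h]

/-- gain of a composed addition -/
theorem gain_pr : gain P B L (pr V W) J =
    gain P B L V J + P.I (L J) (lo W J) (fun w => (lo V J w, lo L J w, B J w)) := by
  unfold gain
  have h1 : P.I (L J) (lo (pr V W) J) (fun w => (lo L J w, B J w)) =
      P.I (L J) (fun w => (lo W J w, lo V J w)) (fun w => (lo L J w, B J w)) := by
    refine P.I_congr ?_ ?_
    · intro v w h; simp only [Prod.mk.injEq, lo_pr_eq] at h ⊢; tauto
    · intro v w h; simp only [Prod.mk.injEq, lo_pr_eq] at h ⊢; tauto
  rw [h1, P.I_comm (L J) (fun w => (lo W J w, lo V J w)), P.I_chain (lo W J) (lo V J) (L J),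
    P.I_comm (lo V J) (L J), P.I_comm (lo W J) (L J)]

/-- gain of the second addition -/
theorem gain_snd : gain P B (pr L V) W J = P.I (L J) (lo W J) (fun w => (lo V J w, lo L J w, B J w)) +
    P.I (V J) (lo W J) (fun w => (lo V J w, le L J w, B J w)) := by
  unfold gain
  have h1 := P.I_chain (V J) (L J) (lo W J) (fun w => (lo V J w, lo L J w, B J w))
  have h2 : P.I (pr L V J) (lo W J) (fun w => (lo (pr L V) J w, B J w)) =
      P.I (fun w => (V J w, L J w)) (lo W J) (fun w => (lo V J w, lo L J w, B J w)) := by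
    unfold FP.I
    rw [P.H_congr (X := fun w => (pr L V J w, lo (pr L V) J w, B J w))
        (Y := fun w => ((V J w, L J w), lo V J w, lo L J w, B J w))
        (by intro v w h; simp only [Prod.mk.injEq, pr_eq, lo_pr_eq] at h ⊢; tauto)
        (by intro v w h; simp only [Prod.mk.injEq, pr_eq, lo_pr_eq] at h ⊢; tauto),
      P.H_congr (X := fun w => (lo W J w, lo (pr L V) J w, B J w))
        (Y := fun w => (lo W J w, lo V J w, lo L J w, B J w))
        (by intro v w h; simp only [Prod.mk.injEq, lo_pr_eq] at h ⊢; tauto)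
        (by intro v w h; simp only [Prod.mk.injEq, lo_pr_eq] at h ⊢; tauto),
      P.H_congr (X := fun w => (pr L V J w, lo W J w, lo (pr L V) J w, B J w))
        (Y := fun w => ((V J w, L J w), lo W J w, lo V J w, lo L J w, B J w))
        (by intro v w h; simp only [Prod.mk.injEq, pr_eq, lo_pr_eq] at h ⊢; tauto)
        (by intro v w h; simp only [Prod.mk.injEq, pr_eq, lo_pr_eq] at h ⊢; tauto),
      P.H_congr (X := fun w => (lo (pr L V) J w, B J w)) (Y := fun w => (lo V J w, lo L J w, B J w))
        (by intro v w h; simp only [Prod.mk.injEq, lo_pr_eq] at h ⊢; tauto)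
        (by intro v w h; simp only [Prod.mk.injEq, lo_pr_eq] at h ⊢; tauto)]
  have h3 : P.I (V J) (lo W J) (fun w => (L J w, lo V J w, lo L J w, B J w)) =
      P.I (V J) (lo W J) (fun w => (lo V J w, le L J w, B J w)) := by
    unfold FP.I
    rw [P.H_congr (X := fun w => (V J w, L J w, lo V J w, lo L J w, B J w))
        (Y := fun w => (V J w, lo V J w, le L J w, B J w))
        (by intro v w h; simp only [Prod.mk.injEq, le_eq'] at h ⊢; tauto)
        (by intro v w h; simp only [Prod.mk.injEq, le_eq'] at h ⊢; tauto),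
      P.H_congr (X := fun w => (lo W J w, L J w, lo V J w, lo L J w, B J w))
        (Y := fun w => (lo W J w, lo V J w, le L J w, B J w))
        (by intro v w h; simp only [Prod.mk.injEq, le_eq'] at h ⊢; tauto)
        (by intro v w h; simp only [Prod.mk.injEq, le_eq'] at h ⊢; tauto),
      P.H_congr (X := fun w => (V J w, lo W J w, L J w, lo V J w, lo L J w, B J w))
        (Y := fun w => (V J w, lo W J w, lo V J w, le L J w, B J w))
        (by intro v w h; simp only [Prod.mk.injEq, le_eq'] at h ⊢; tauto)
        (by intro v w h; simp only [Prod.mk.injEq, le_eq'] at h ⊢; tauto),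
      P.H_congr (X := fun w => (L J w, lo V J w, lo L J w, B J w)) (Y := fun w => (lo V J w, le L J w, B J w))
        (by intro v w h; simp only [Prod.mk.injEq, le_eq'] at h ⊢; tauto)
        (by intro v w h; simp only [Prod.mk.injEq, le_eq'] at h ⊢; tauto)]
  rw [h2, h1, h3]

/-- **subadditivity** -/
theorem Phi_pr_le {N : Finset K → ℝ} {S : Finset (Finset K)} (hN : ∀ J ∈ S, 0 ≤ N J) :
    Phi P B N S L (pr V W) ≤ Phi P B N S L V + Phi P B N S (pr L V) W := by
  unfold Phi
  rw [← Finset.sum_add_distrib]
  refine Finset.sum_le_sum fun J hJ => ?_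
  rw [← mul_add]
  refine mul_le_mul_of_nonneg_left ?_ (hN J hJ)
  rw [cost_pr, gain_pr, gain_snd]
  have := P.I_nonneg (V J) (lo W J) (fun w => (lo V J w, le L J w, B J w))
  linarith

/-- the functional depends on the partitions only -/
theorem cost_congr (h1 : ∀ J, Fac (V J) (W J)) (h2 : ∀ J, Fac (W J) (V J)) :
    cost P B L V J = cost P B L W J := by
  have e : ∀ v w, lo V J v = lo V J w ↔ lo W J v = lo W J w := fun v w => by
    rw [lo_eq, lo_eq]
    exact ⟨fun h I hI => h1 I v w (h I hI), fun h I hI => h2 I v w (h I hI)⟩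
  unfold cost
  refine P.Hc_congr ?_ ?_ ?_ ?_
  · intro v w h; simp only [Prod.mk.injEq] at h; exact h1 J v w h.1
  · intro v w h; simp only [Prod.mk.injEq, e] at h ⊢; exact h
  · intro v w h; simp only [Prod.mk.injEq] at h; exact h2 J v w h.1
  · intro v w h; simp only [Prod.mk.injEq, e] at h ⊢; exact h

theorem gain_congr (h1 : ∀ J, Fac (V J) (W J)) (h2 : ∀ J, Fac (W J) (V J)) :
    gain P B L V J = gain P B L W J := by
  have e : ∀ v w, lo V J v = lo V J w ↔ lo W J v = lo W J w := fun v w => by
    rw [lo_eq, lo_eq]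
    exact ⟨fun h I hI => h1 I v w (h I hI), fun h I hI => h2 I v w (h I hI)⟩
  unfold gain
  exact P.I_congr (fun v w h => (e v w).1 h) (fun v w h => (e v w).2 h)

theorem Phi_congr {N : Finset K → ℝ} {S : Finset (Finset K)} (h1 : ∀ J, Fac (V J) (W J))
    (h2 : ∀ J, Fac (W J) (V J)) : Phi P B N S L V = Phi P B N S L W := by
  unfold Phi
  refine Finset.sum_congr rfl fun J _ => ?_
  rw [cost_congr h1 h2, gain_congr h1 h2]

/-- the trivial addition costs nothing -/
theorem Phi_const {N : Finset K → ℝ} {S : Finset (Finset K)} (hV : ∀ J v w, V J v = V J w) :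
    Phi P B N S L V = 0 := by
  unfold Phi
  refine Finset.sum_eq_zero fun J _ => ?_
  have h1 : cost P B L V J = 0 := by
    have e : cost P B L V J = P.Hc (fun _ => ()) (fun w => (lo V J w, le L J w, B J w)) := by
      unfold cost
      exact P.Hc_congr (fun _ _ _ => rfl) (Fac.refl _) (fun v w _ => hV J v w) (Fac.refl _)
    rw [e]
    unfold FP.Hc
    rw [P.H_congr (X := fun w => ((), lo V J w, le L J w, B J w)) (Y := fun w => (lo V J w, le L J w, B J w))
      (Fac.snd _ _) ((Fac.const _ ()).prod (Fac.refl _)), sub_self]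
  have h2 : gain P B L V J = 0 := by
    have e : gain P B L V J = P.I (L J) (fun _ => ()) (fun w => (lo L J w, B J w)) := by
      unfold gain
      exact P.I_congr (fun _ _ _ => rfl) (fun v w _ => lo_eq.2 fun I _ => hV I v w)
    rw [e, P.I_eq_Hc]
    rw [P.Hc_congr_right (L J) (A := fun w => ((), lo L J w, B J w)) (B := fun w => (lo L J w, B J w))
      (Fac.snd _ _) ((Fac.const _ ()).prod (Fac.refl _)), sub_self]
  rw [h1, h2]
  ring

end main

/-! ## minimisers -/

section mini

variable {Om K : Type*} {υ ν ν' : Type*} {β : Finset K → Type*} [Fintype Om] {P : FP Om}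

/-- `V` minimises the functional in the set `S` of codes -/
structure Mini (P : FP Om) (B : (J : Finset K) → Om → β J) (N : Finset K → ℝ) (S : Finset (Finset K)) (L : Finset K → Om → υ)
    (Adm : Set (Finset K → Om → Om)) (V : Finset K → Om → Om) : Prop where
  mem : V ∈ Adm
  min : ∀ V' ∈ Adm, Phi P B N S L V ≤ Phi P B N S L V'

variable {B : (J : Finset K) → Om → β J} {N : Finset K → ℝ} {S : Finset (Finset K)} {L : Finset K → Om → υ}
  {Adm : Set (Finset K → Om → Om)} {V : Finset K → Om → Om}

/-- a minimiser exists -/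
theorem exists_mini [Fintype K] (P : FP Om) (B : (J : Finset K) → Om → β J) (N : Finset K → ℝ) (S : Finset (Finset K))
    (L : Finset K → Om → υ) (hne : Adm.Nonempty) : ∃ V, Mini P B N S L Adm V := by
  classical
  obtain ⟨V, hV, hmin⟩ := Set.exists_min_image Adm (fun V => Phi P B N S L V) (Set.toFinite Adm) hne
  exact ⟨V, hV, hmin⟩

/-- the minimum is not positive if a trivial addition is admissible -/
theorem Mini.nonpos (h : Mini P B N S L Adm V) {V0 : Finset K → Om → Om} (h0 : V0 ∈ Adm)
    (hc : ∀ J v w, V0 J v = V0 J w) : Phi P B N S L V ≤ 0 := by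
  have := h.min V0 h0
  rwa [Phi_const hc] at this

/-- **saturation** : for every further addition `W` such that a code of `(V, W)` is admissible -/
theorem Mini.sat (h : Mini P B N S L Adm V) (hN : ∀ J ∈ S, 0 ≤ N J) {W : Finset K → Om → ν}
    {V' : Finset K → Om → Om} (hV' : V' ∈ Adm) (h1 : ∀ J, Fac (pr V W J) (V' J)) (h2 : ∀ J, Fac (V' J) (pr V W J)) :
    0 ≤ Phi P B N S (pr L V) W := by
  have a := h.min V' hV'
  rw [← Phi_congr h1 h2] at a
  have b := Phi_pr_le (P := P) (B := B) (L := L) (V := V) (W := W) hN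
  linarith

end mini

end Pool.Agent.GMH
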