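import Pool.Agent.GM.Harm
import Pool.Agent.GMH.Psi
import Pool.Agent.GMH.Bal

/-!
# GMH.Proc: the process of HARM(k), any number of known vertices, any admissible refinements (helper91)

`D : HD K X β γ φ` as in `GM/Harm`.  CODES `v t I x y` (`Codes D v`: depend on the hidden point `x`, on the known points
`y_I` and on the node of the time `t`), classes `UU v I t x y` = list of the codes of the times `≤ t`.

* `sys_UU` : `Harm.Sys D (UU v)`;
* labels of a state: `LL U I w` = (class of `I`, top letter if `I` misses exactly one vertex), base information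
  `BB s J w = (y_J, node s)`, `WW s w = (y, node s)`;  `LI` the same family on the index type `Ix K = {J // J ≠ univ}`;
* `I_zero` : given `y_J` and the node the other known points are independent of the hidden point, of `y_J` and of the
  labels inside `J`; `Hc_base`, `ce_base` : base `(y_J, node)` or `(y, node)` give the same entropies and means;
* `push_E`, `push_H` : the law of the time `t` is the image of the law of the time `t + 1` (labels cumulative).
-/

set_option autoImplicit false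
set_option linter.unusedSectionVars false

namespace Pool.Agent.GMH

open Finset Pool.Agent.PWZ Pool.Agent.M3 Pool.Agent.GM Pool.Agent.GM.Harm

/-! ## classes from codes -/

section codes

variable {K X β γ φ υ : Type} [Fintype K] [DecidableEq K] [Fintype X] [Fintype β] [Fintype φ]

/-- codes: functions of the hidden point, of the known points of `I` and of the node -/
def Codes (D : HD K X β γ φ) (v : ℕ → Finset K → X → (K → β) → υ) : Prop :=
  ∀ t I x y y', (∀ j ∈ I, y j = y' j) → (∀ j, D.qb t (y j) = D.qb t (y' j)) → v t I x y = v t I x y'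

/-- classes = lists of the codes up to the time `t` -/
def UU (v : ℕ → Finset K → X → (K → β) → υ) (I : Finset K) (t : ℕ) (x : X) (y : K → β) : List υ :=
  (List.range (t + 1)).map fun s => v s I x y

theorem UU_eq {v : ℕ → Finset K → X → (K → β) → υ} {I : Finset K} {t : ℕ} {x x' : X} {y y' : K → β} :
    UU v I t x y = UU v I t x' y' ↔ ∀ s ≤ t, v s I x y = v s I x' y' := by
  unfold UU
  rw [List.map_inj_left]
  constructor
  · intro h s hs
    exact h s (List.mem_range.2 (by omega))
  · intro h s hs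
    exact h s (by have := List.mem_range.1 hs; omega)

theorem UU_succ {v : ℕ → Finset K → X → (K → β) → υ} {I : Finset K} {t : ℕ} {x x' : X} {y y' : K → β} :
    UU v I (t + 1) x y = UU v I (t + 1) x' y' ↔
      UU v I t x y = UU v I t x' y' ∧ v (t + 1) I x y = v (t + 1) I x' y' := by
  rw [UU_eq, UU_eq]
  constructor
  · intro h
    exact ⟨fun s hs => h s (by omega), h (t + 1) le_rfl⟩
  · rintro ⟨h1, h2⟩ s hs
    rcases Nat.lt_or_ge s (t + 1) with h | h
    · exact h1 s (by omega)
    · have : s = t + 1 := le_antisymm hs h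
      rw [this]; exact h2

theorem qb_mono (D : HD K X β γ φ) {s t : ℕ} (hst : s ≤ t) {b b' : β} (h : D.qb t b = D.qb t b') :
    D.qb s b = D.qb s b' := by
  induction t, hst using Nat.le_induction with
  | base => exact h
  | succ t _ ih => exact ih (D.rb t b b' h)

theorem qa_mono (D : HD K X β γ φ) {s t : ℕ} (hst : s ≤ t) {x x' : X} (h : D.qa t x = D.qa t x') :
    D.qa s x = D.qa s x' := by
  induction t, hst using Nat.le_induction with
  | base => exact h
  | succ t _ ih => exact ih (D.ra t x x' h)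

theorem sys_UU {D : HD K X β γ φ} {v : ℕ → Finset K → X → (K → β) → υ} (hv : Codes D v) :
    Harm.Sys D (UU v) where
  dep I t x y y' h1 h2 := by
    rw [UU_eq]
    exact fun s hs => hv s I x y y' h1 fun j => qb_mono D hs (h2 j)
  ref I t x y x' y' _ _ _ h := (UU_succ.1 h).1

end codes

/-! ## labels of a state -/

section labels

variable {K X β γ φ υ : Type} [Fintype K] [DecidableEq K] [Fintype X] [Fintype β] [Fintype φ]

/-- label of the index set `I`: class, and the top letter if `I` misses exactly one vertex -/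
def LL (U : Finset K → X → (K → β) → υ) (I : Finset K) (w : Pt K X β φ) : υ × (K → Option φ) :=
  (U I w.1 w.2.1, fun l => if univ.erase l = I then some (w.2.2 l) else none)

/-- base information of `J`: the points `y_J` and the node -/
def BB (D : HD K X β γ φ) (s : ℕ) (J : Finset K) (w : Pt K X β φ) : (K → Option β) × (γ × (K → γ)) :=
  (fun j => if j ∈ J then some (w.2.1 j) else none, nd D s w)

/-- full base information -/
def WW (D : HD K X β γ φ) (s : ℕ) (w : Pt K X β φ) : (K → β) × (γ × (K → γ)) := (w.2.1, nd D s w)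

/-- index type of `Bal` -/
abbrev Ix (K : Type) [Fintype K] [DecidableEq K] := {J : Finset K // J ≠ univ}

/-- the labels as a family on the index type -/
def LI (L : Finset K → Pt K X β φ → υ) (i : Ix K) (w : Pt K X β φ) : υ := L i.1 w

/-- the hidden point and the labels inside `J` -/
def AA (J : Finset K) (w : Pt K X β φ) : X × (K → Option φ) :=
  (w.1, fun l => if univ.erase l ⊆ J then some (w.2.2 l) else none)

theorem AA_eq {J : Finset K} {v w : Pt K X β φ} :
    AA J v = AA J w ↔ v.1 = w.1 ∧ ∀ l, univ.erase l ⊆ J → v.2.2 l = w.2.2 l := by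
  unfold AA
  rw [Prod.mk.injEq, funext_iff]
  refine and_congr_right fun _ => forall_congr' fun l => ?_
  by_cases h : univ.erase l ⊆ J
  · simp [h]
  · simp [h]

theorem LL_eq {U : Finset K → X → (K → β) → υ} {I : Finset K} {v w : Pt K X β φ} :
    LL U I v = LL U I w ↔ U I v.1 v.2.1 = U I w.1 w.2.1 ∧ ∀ l, univ.erase l = I → v.2.2 l = w.2.2 l := by
  unfold LL
  rw [Prod.mk.injEq, funext_iff]
  refine and_congr_right fun _ => forall_congr' fun l => ?_
  by_cases h : univ.erase l = I
  · simp [h]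
  · simp [h]

theorem BB_eq {D : HD K X β γ φ} {s : ℕ} {J : Finset K} {v w : Pt K X β φ} :
    BB D s J v = BB D s J w ↔ (∀ j ∈ J, v.2.1 j = w.2.1 j) ∧ D.qa s v.1 = D.qa s w.1 ∧
      ∀ j, D.qb s (v.2.1 j) = D.qb s (w.2.1 j) := by
  unfold BB nd
  rw [Prod.mk.injEq, Prod.mk.injEq, funext_iff, funext_iff]
  constructor
  · rintro ⟨h1, h2, h3⟩
    refine ⟨fun j hj => ?_, h2, h3⟩
    have := h1 j
    rw [if_pos hj, if_pos hj] at this
    exact Option.some.inj this
  · rintro ⟨h1, h2, h3⟩
    refine ⟨fun j => ?_, h2, h3⟩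
    by_cases hj : j ∈ J
    · rw [if_pos hj, if_pos hj, h1 j hj]
    · rw [if_neg hj, if_neg hj]

theorem yJ_eq {J : Finset K} {v w : Pt K X β φ} : yJ J v = yJ J w ↔ ∀ j ∈ J, v.2.1 j = w.2.1 j := by
  unfold yJ
  rw [funext_iff]
  exact ⟨fun h j hj => h ⟨j, hj⟩, fun h j => h j.1 j.2⟩

theorem BB_yJ {D : HD K X β γ φ} {s : ℕ} {J : Finset K} {v w : Pt K X β φ} :
    BB D s J v = BB D s J w ↔ yJ J v = yJ J w ∧ nd D s v = nd D s w := by
  rw [BB_eq, yJ_eq]
  unfold nd
  rw [Prod.mk.injEq, funext_iff]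

theorem WW_eq {D : HD K X β γ φ} {s : ℕ} {v w : Pt K X β φ} :
    WW D s v = WW D s w ↔ v.2.1 = w.2.1 ∧ D.qa s v.1 = D.qa s w.1 := by
  unfold WW nd
  rw [Prod.mk.injEq, Prod.mk.injEq]
  constructor
  · rintro ⟨h1, h2, _⟩
    exact ⟨h1, h2⟩
  · rintro ⟨h1, h2⟩
    exact ⟨h1, h2, by rw [h1]⟩

theorem WW_BB (D : HD K X β γ φ) (s : ℕ) (J : Finset K) : Fac (WW (φ := φ) D s) (BB D s J) := by
  intro v w h
  rw [WW_eq] at h
  rw [BB_eq]
  exact ⟨fun j _ => congrFun h.1 j, h.2, fun j => by rw [h.1]⟩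

/-! ### the information of `GM/Harm` in this form -/

variable {D : HD K X β γ φ}

theorem eJ_eq {U : Finset K → ℕ → X → (K → β) → υ} {t : ℕ} {J : Finset K} {v w : Pt K X β φ} :
    eJ D U t J v = eJ D U t J w ↔
      le (LL fun I x y => U I t x y) J v = le (LL fun I x y => U I t x y) J w ∧ BB D t J v = BB D t J w := by
  classical
  rw [le_eq, BB_yJ]
  unfold eJ
  constructor
  · intro hh
    have h1 := congrArg Prod.fst hh
    have h2 := congrArg (fun p => p.2.1) hh
    have h3 := congrArg (fun p => p.2.2.1) hh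
    have h4 := congrArg (fun p => p.2.2.2) hh
    refine ⟨fun I hI => LL_eq.2 ⟨?_, fun l hl => ?_⟩, h1, h2⟩
    · have := congrFun h3 I
      simp only [if_pos hI] at this
      exact Option.some.inj this
    · have := congrFun h4 l
      simp only [if_pos (show univ.erase l ⊆ J by rw [hl]; exact hI)] at this
      exact Option.some.inj this
  · rintro ⟨h1, h2, h3⟩
    refine Prod.ext h2 (Prod.ext h3 (Prod.ext (funext fun I => ?_) (funext fun l => ?_)))
    · show (if I ⊆ J then some (U I t v.1 v.2.1) else none) = if I ⊆ J then some (U I t w.1 w.2.1) else none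
      by_cases hI : I ⊆ J
      · rw [if_pos hI, if_pos hI, (LL_eq.1 (h1 I hI)).1]
      · rw [if_neg hI, if_neg hI]
    · show (if univ.erase l ⊆ J then some (v.2.2 l) else none) = if univ.erase l ⊆ J then some (w.2.2 l) else none
      by_cases hl : univ.erase l ⊆ J
      · rw [if_pos hl, if_pos hl, (LL_eq.1 (h1 _ hl)).2 l rfl]
      · rw [if_neg hl, if_neg hl]

theorem eL_eq {U : Finset K → ℕ → X → (K → β) → υ} {t : ℕ} {J : Finset K} (hJ : J ≠ univ) {v w : Pt K X β φ} :
    eL D U t J v = eL D U t J w ↔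
      lo (LL fun I x y => U I t x y) J v = lo (LL fun I x y => U I t x y) J w ∧ BB D t J v = BB D t J w := by
  classical
  rw [lo_eq, BB_yJ]
  unfold eL
  constructor
  · intro hh
    have h1 := congrArg Prod.fst hh
    have h2 := congrArg (fun p => p.2.1) hh
    have h3 := congrArg (fun p => p.2.2) hh
    refine ⟨fun I hI => LL_eq.2 ⟨?_, fun l hl => ?_⟩, h1, h2⟩
    · have := congrFun h3 I
      simp only [if_pos hI] at this
      exact Option.some.inj this
    · exfalso
      subst hl
      refine hJ (Finset.eq_univ_iff_forall.2 fun j => ?_)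
      by_cases hj : j = l
      · subst hj
        obtain ⟨i, hi, hi2⟩ := Finset.exists_of_ssubset hI
        have : i = j := by
          by_contra hne
          exact hi2 (Finset.mem_erase.2 ⟨hne, mem_univ i⟩)
        rw [← this]; exact hi
      · exact hI.subset (Finset.mem_erase.2 ⟨hj, mem_univ j⟩)
  · rintro ⟨h1, h2, h3⟩
    refine Prod.ext h2 (Prod.ext h3 (funext fun I => ?_))
    show (if I ⊂ J then some (U I t v.1 v.2.1) else none) = if I ⊂ J then some (U I t w.1 w.2.1) else none
    by_cases hI : I ⊂ J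
    · rw [if_pos hI, if_pos hI, (LL_eq.1 (h1 I hI)).1]
    · rw [if_neg hI, if_neg hI]

theorem ne_univ (l : K) : univ.erase l ≠ univ := fun hh =>
  Finset.notMem_erase l univ (by rw [hh]; exact mem_univ l)

theorem eA_eq {U : Finset K → ℕ → X → (K → β) → υ} {t : ℕ} {v w : Pt K X β φ} :
    eA D U t v = eA D U t w ↔
      all (LI (LL fun I x y => U I t x y)) v = all (LI (LL fun I x y => U I t x y)) w ∧ WW D t v = WW D t w := by
  classical
  unfold eA all LI WW
  simp only [Prod.mk.injEq, LL_eq, funext_iff]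
  constructor
  · rintro ⟨h1, h2, h3, h4⟩
    refine ⟨fun I => ⟨?_, fun l _ => h4 l⟩, h1, h2⟩
    have := h3 I.1
    rw [if_pos I.2, if_pos I.2] at this
    exact Option.some.inj this
  · rintro ⟨h1, h2, h3⟩
    refine ⟨h2, h3, fun I => ?_, fun l => ?_⟩
    · by_cases hI : I ≠ univ
      · rw [if_pos hI, if_pos hI, (h1 ⟨I, hI⟩).1]
      · rw [if_neg hI, if_neg hI]
    · exact (h1 ⟨univ.erase l, ne_univ l⟩).2 l rfl

theorem ble_le {L : Finset K → Pt K X β φ → υ} {J : Ix K} {v w : Pt K X β φ} :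
    ble (LI L) J v = ble (LI L) J w ↔ le L J.1 v = le L J.1 w := by
  classical
  rw [le_eq]
  unfold ble LI
  rw [funext_iff]
  constructor
  · intro h I hI
    have hne : I ≠ univ := fun hh => J.2 (Finset.eq_univ_of_forall fun j => hI (hh ▸ mem_univ j))
    have h1 := h ⟨I, hne⟩
    have h2 : (⟨I, hne⟩ : Ix K) ≤ J := hI
    rw [if_pos h2, if_pos h2] at h1
    exact Option.some.inj h1
  · intro h I
    by_cases hI : I ≤ J
    · rw [if_pos hI, if_pos hI, h I.1 hI]
    · rw [if_neg hI, if_neg hI]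

theorem bel_lo {L : Finset K → Pt K X β φ → υ} {J : Ix K} {v w : Pt K X β φ} :
    bel (LI L) J v = bel (LI L) J w ↔ lo L J.1 v = lo L J.1 w := by
  classical
  rw [lo_eq]
  unfold bel LI
  rw [funext_iff]
  constructor
  · intro h I hI
    have hne : I ≠ univ := fun hh => J.2 (Finset.eq_univ_of_forall fun j => hI.subset (hh ▸ mem_univ j))
    have h1 := h ⟨I, hne⟩
    have h2 : (⟨I, hne⟩ : Ix K) < J := hI
    rw [if_pos h2, if_pos h2] at h1
    exact Option.some.inj h1
  · intro h I
    by_cases hI : I < J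
    · rw [if_pos hI, if_pos hI, h I.1 hI]
    · rw [if_neg hI, if_neg hI]

end labels

/-! ## laws -/

theorem ind_cg {p q : Prop} (h : p ↔ q) : ind p = ind q := by rw [propext h]

section laws

variable {K X β γ φ : Type} [Fintype K] [DecidableEq K] [Fintype X] [Fintype β] [Fintype φ] [Nonempty X] [Nonempty β]
  {D : HD K X β γ φ} {al : ℝ} (h : D.Thick al)

include h in
/-- sums over the labels with the labels in `S` fixed -/
theorem sum_labels (S : Finset K) (t : ℕ) (x : X) (y : K → β) (F0 : K → φ) :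
    ∑ F : K → φ, (∏ l, D.kf t l x y (F l)) * ind (∀ l ∈ S, F l = F0 l) = ∏ l ∈ S, D.kf t l x y (F0 l) := by
  classical
  have h1 : ∀ F : K → φ, (∏ l, D.kf t l x y (F l)) * ind (∀ l ∈ S, F l = F0 l) =
      ∏ l, (D.kf t l x y (F l) * (if l ∈ S then ind (F l = F0 l) else 1)) := by
    intro F
    rw [Finset.prod_mul_distrib]
    congr 1
    by_cases hF : ∀ l ∈ S, F l = F0 l
    · rw [ind_of hF]
      refine (Finset.prod_eq_one fun l _ => ?_).symm
      by_cases hl : l ∈ S
      · rw [if_pos hl, ind_of (hF l hl)]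
      · rw [if_neg hl]
    · rw [ind_not hF]
      push Not at hF
      obtain ⟨l, hl, hne⟩ := hF
      refine (Finset.prod_eq_zero (mem_univ l) ?_).symm
      rw [if_pos hl, ind_not hne]
  rw [Finset.sum_congr rfl fun F _ => h1 F]
  have h2 := Finset.prod_univ_sum (fun _ : K => (univ : Finset φ))
    (fun l f => D.kf t l x y f * (if l ∈ S then ind (f = F0 l) else 1))
  rw [Fintype.piFinset_univ] at h2
  rw [← h2, ← Finset.prod_subset (Finset.subset_univ S)]
  · refine Finset.prod_congr rfl fun l hl => ?_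
    rw [Finset.sum_eq_single (F0 l)]
    · rw [if_pos hl, ind_of rfl, mul_one]
    · intro f _ hf
      rw [if_pos hl, ind_not hf, mul_zero]
    · intro hf; exact absurd (mem_univ _) hf
  · intro l _ hl
    simp only [if_neg hl, mul_one]
    exact h.one t l x y

/-- mean of a function of the points with the labels in `S` fixed -/
theorem E_labels (S : Finset K) (t : ℕ) (g : X → (K → β) → ℝ) (F0 : K → φ) :
    (D.P h t).E (fun w => g w.1 w.2.1 * ind (∀ l ∈ S, w.2.2 l = F0 l)) =
      (∑ x, ∑ y, g x y * ∏ l ∈ S, D.kf t l x y (F0 l)) / (Fintype.card X * (Fintype.card β : ℝ) ^ Fintype.card K) := by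
  classical
  unfold FP.E
  rw [Fintype.sum_prod_type, Finset.sum_div]
  refine Finset.sum_congr rfl fun x _ => ?_
  rw [Fintype.sum_prod_type, Finset.sum_div]
  refine Finset.sum_congr rfl fun y _ => ?_
  rw [← sum_labels h S t x y F0, Finset.mul_sum, Finset.sum_div]
  refine Finset.sum_congr rfl fun F _ => ?_
  show (∏ l, D.kf t l x y (F l)) / _ * (g x y * ind (∀ l ∈ S, F l = F0 l)) = _
  ring

/-- number of hidden points in the cell, number of tuples of known points -/
noncomputable def nX (D : HD K X β γ φ) (s : ℕ) (x : X) : ℝ := ∑ x' : X, ind (D.qa s x' = D.qa s x)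

noncomputable def nY (D : HD K X β γ φ) (s : ℕ) (J : Finset K) (y : K → β) : ℝ :=
  ∑ y' : K → β, ind ((∀ j ∈ J, y' j = y j) ∧ ∀ j, D.qb s (y' j) = D.qb s (y j))

/-- the labels inside `J` see the missing vertex through its cell only -/
theorem kf_J {J : Finset K} {t s : ℕ} (hts : t ≤ s) {x : X} {y y' : K → β} (h1 : ∀ j ∈ J, y' j = y j)
    (h2 : ∀ j, D.qb s (y' j) = D.qb s (y j)) {l : K} (hl : univ.erase l ⊆ J) (F : φ) :
    D.kf t l x y' F = D.kf t l x y F := by
  have h3 : ∀ j, j ≠ l → y' j = y j := fun j hj => h1 j (hl (Finset.mem_erase.2 ⟨hj, mem_univ j⟩))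
  rw [D.dep t l x y' y h3 (qb_mono D hts (h2 l))]

open Classical in
/-- the labels inside `J` -/
noncomputable def SJ (J : Finset K) : Finset K := univ.filter fun l => univ.erase l ⊆ J

theorem mem_SJ {J : Finset K} {l : K} : l ∈ SJ J ↔ univ.erase l ⊆ J := by
  classical
  unfold SJ
  rw [Finset.mem_filter]
  exact ⟨fun h => h.2, fun h => ⟨mem_univ l, h⟩⟩

/-- total mass -/
noncomputable def nn (X β K : Type) [Fintype K] [Fintype X] [Fintype β] : ℝ :=
  Fintype.card X * (Fintype.card β : ℝ) ^ Fintype.card K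

theorem E_labels0 (t : ℕ) (g : X → (K → β) → ℝ) :
    (D.P h t).E (fun w => g w.1 w.2.1) = (∑ x, ∑ y, g x y) / nn X β K := by
  classical
  obtain ⟨w0, _⟩ := (D.P h t).exists_p_ne
  have h1 := E_labels h ∅ t g w0.2.2
  simp only [Finset.notMem_empty, false_implies, implies_true, ind_of trivial, mul_one, Finset.prod_empty] at h1
  exact h1

variable {t s : ℕ} {J : Finset K}

theorem m_ACZ (w : Pt K X β φ) :
    (D.P h t).m (fun v => (AA J v, v.2.1, BB D s J v)) w = (∏ l ∈ SJ J, D.kf t l w.1 w.2.1 (w.2.2 l)) / nn X β K := by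
  classical
  have e : (D.P h t).m (fun v => (AA J v, v.2.1, BB D s J v)) w =
      (D.P h t).E (fun v => ind (v.1 = w.1 ∧ v.2.1 = w.2.1) * ind (∀ l ∈ SJ J, v.2.2 l = w.2.2 l)) := by
    unfold FP.m
    refine (D.P h t).E_congr fun v _ => ?_
    rw [← ind_and]
    refine ind_cg ?_
    simp only [Prod.mk.injEq, AA_eq, BB_eq, mem_SJ]
    constructor
    · rintro ⟨⟨h1, h2⟩, h3, _⟩
      exact ⟨⟨h1, h3⟩, h2⟩
    · rintro ⟨⟨h1, h3⟩, h2⟩
      exact ⟨⟨h1, h2⟩, h3, fun j _ => by rw [h3], by rw [h1], fun j => by rw [h3]⟩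
  rw [e, E_labels h (SJ J) t (fun x y => ind (x = w.1 ∧ y = w.2.1)) w.2.2]
  congr 1
  rw [Finset.sum_eq_single w.1, Finset.sum_eq_single w.2.1]
  · rw [ind_of ⟨rfl, rfl⟩, one_mul]
  · intro y _ hy
    rw [ind_not (fun hh => hy hh.2), zero_mul]
  · intro hh; exact absurd (mem_univ _) hh
  · intro x _ hx
    refine Finset.sum_eq_zero fun y _ => ?_
    rw [ind_not (fun hh => hx hh.1), zero_mul]
  · intro hh; exact absurd (mem_univ _) hh

theorem m_AZ (hts : t ≤ s) (w : Pt K X β φ) :
    (D.P h t).m (fun v => (AA J v, BB D s J v)) w =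
      nY D s J w.2.1 * (∏ l ∈ SJ J, D.kf t l w.1 w.2.1 (w.2.2 l)) / nn X β K := by
  classical
  have e : (D.P h t).m (fun v => (AA J v, BB D s J v)) w =
      (D.P h t).E (fun v => ind (v.1 = w.1 ∧ (∀ j ∈ J, v.2.1 j = w.2.1 j) ∧ ∀ j, D.qb s (v.2.1 j) = D.qb s (w.2.1 j)) *
        ind (∀ l ∈ SJ J, v.2.2 l = w.2.2 l)) := by
    unfold FP.m
    refine (D.P h t).E_congr fun v _ => ?_
    rw [← ind_and]
    refine ind_cg ?_
    simp only [Prod.mk.injEq, AA_eq, BB_eq, mem_SJ]
    constructor
    · rintro ⟨⟨h1, h2⟩, h3, _, h4⟩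
      exact ⟨⟨h1, h3, h4⟩, h2⟩
    · rintro ⟨⟨h1, h3, h4⟩, h2⟩
      exact ⟨⟨h1, h2⟩, h3, by rw [h1], h4⟩
  rw [e, E_labels h (SJ J) t (fun x y => ind (x = w.1 ∧ (∀ j ∈ J, y j = w.2.1 j) ∧
    ∀ j, D.qb s (y j) = D.qb s (w.2.1 j))) w.2.2]
  show _ / nn X β K = _ / nn X β K
  congr 1
  rw [Finset.sum_eq_single w.1]
  · unfold nY
    rw [Finset.sum_mul]
    refine Finset.sum_congr rfl fun y _ => ?_
    by_cases hy : (∀ j ∈ J, y j = w.2.1 j) ∧ ∀ j, D.qb s (y j) = D.qb s (w.2.1 j)
    · rw [ind_of ⟨rfl, hy⟩, ind_of hy, one_mul, one_mul]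
      refine Finset.prod_congr rfl fun l hl => ?_
      exact kf_J hts hy.1 hy.2 (mem_SJ.1 hl) _
    · rw [ind_not (fun hh => hy hh.2), ind_not hy, zero_mul, zero_mul]
  · intro x _ hx
    refine Finset.sum_eq_zero fun y _ => ?_
    rw [ind_not (fun hh => hx hh.1), zero_mul]
  · intro hh; exact absurd (mem_univ _) hh

theorem m_CZ (w : Pt K X β φ) :
    (D.P h t).m (fun v => (v.2.1, BB D s J v)) w = nX D s w.1 / nn X β K := by
  classical
  have e : (D.P h t).m (fun v => (v.2.1, BB D s J v)) w =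
      (D.P h t).E (fun v => ind (v.2.1 = w.2.1 ∧ D.qa s v.1 = D.qa s w.1)) := by
    unfold FP.m
    refine (D.P h t).E_congr fun v _ => ind_cg ?_
    simp only [Prod.mk.injEq, BB_eq]
    constructor
    · rintro ⟨h1, _, h2, _⟩
      exact ⟨h1, h2⟩
    · rintro ⟨h1, h2⟩
      exact ⟨h1, fun j _ => by rw [h1], h2, fun j => by rw [h1]⟩
  rw [e, E_labels0 h t (fun x y => ind (y = w.2.1 ∧ D.qa s x = D.qa s w.1))]
  congr 1
  unfold nX
  refine Finset.sum_congr rfl fun x _ => ?_
  rw [Finset.sum_eq_single w.2.1]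
  · exact ind_cg ⟨fun hh => hh.2, fun hh => ⟨rfl, hh⟩⟩
  · intro y _ hy
    exact ind_not fun hh => hy hh.1
  · intro hh; exact absurd (mem_univ _) hh

theorem m_Z (w : Pt K X β φ) :
    (D.P h t).m (BB D s J) w = nX D s w.1 * nY D s J w.2.1 / nn X β K := by
  classical
  have e : (D.P h t).m (BB D s J) w =
      (D.P h t).E (fun v => ind (D.qa s v.1 = D.qa s w.1 ∧ (∀ j ∈ J, v.2.1 j = w.2.1 j) ∧
        ∀ j, D.qb s (v.2.1 j) = D.qb s (w.2.1 j))) := by
    unfold FP.m
    refine (D.P h t).E_congr fun v _ => ind_cg ?_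
    rw [BB_eq]
    tauto
  rw [e, E_labels0 h t (fun x y => ind (D.qa s x = D.qa s w.1 ∧ (∀ j ∈ J, y j = w.2.1 j) ∧
    ∀ j, D.qb s (y j) = D.qb s (w.2.1 j)))]
  congr 1
  unfold nX nY
  rw [Finset.sum_mul]
  refine Finset.sum_congr rfl fun x _ => ?_
  rw [Finset.mul_sum]
  refine Finset.sum_congr rfl fun y _ => ?_
  rw [← ind_and]

theorem nn_pos : 0 < nn X β K := by
  unfold nn
  have : (0 : ℝ) < Fintype.card X := by exact_mod_cast Fintype.card_pos
  have : (0 : ℝ) < Fintype.card β := by exact_mod_cast Fintype.card_pos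
  positivity

/-- **conditional independence**: given `y_J` and the node, all known points are independent of the hidden point and of
the labels inside `J` -/
theorem I_zero (hts : t ≤ s) : (D.P h t).I (AA J) (fun w => w.2.1) (BB D s J) = 0 := by
  rw [FP.I_eq_E_log]
  have e : ∀ w, (D.P h t).p w ≠ 0 → Real.log ((D.P h t).m (fun v => (AA J v, v.2.1, BB D s J v)) w *
      (D.P h t).m (BB D s J) w / ((D.P h t).m (fun v => (AA J v, BB D s J v)) w *
        (D.P h t).m (fun v => (v.2.1, BB D s J v)) w)) = 0 := by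
    intro w hw
    have p1 := (D.P h t).m_pos (fun v => (AA J v, BB D s J v)) hw
    have p2 := (D.P h t).m_pos (fun v => (v.2.1, BB D s J v)) hw
    have e1 : (D.P h t).m (fun v => (AA J v, v.2.1, BB D s J v)) w * (D.P h t).m (BB D s J) w =
        (D.P h t).m (fun v => (AA J v, BB D s J v)) w * (D.P h t).m (fun v => (v.2.1, BB D s J v)) w := by
      rw [m_ACZ, m_AZ h hts, m_CZ, m_Z]
      ring
    rw [e1, div_self (mul_pos p1 p2).ne', Real.log_one]
  exact ((D.P h t).E_congr e).trans ((D.P h t).E_const 0)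

/-- base `(y_J, node)` or `(y, node)` : the same entropies -/
theorem Hc_base (hts : t ≤ s) {κ ι : Type*} {T : Pt K X β φ → κ} {R : Pt K X β φ → ι}
    (hT : Fac (fun w => (AA J w, BB D s J w)) T) (hR : Fac (fun w => (AA J w, BB D s J w)) R) :
    (D.P h t).Hc T (fun w => (R w, WW D s w)) = (D.P h t).Hc T (fun w => (R w, BB D s J w)) := by
  have h0 := I_zero h (J := J) hts
  have h1 : (D.P h t).I (fun w => (T w, R w)) (fun w => w.2.1) (BB D s J) ≤ 0 := by
    rw [← h0]
    exact (D.P h t).I_mono (X := AA J) (fun w => w.2.1) (hT.prod hR)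
  rw [(D.P h t).I_chain] at h1
  have h2 := (D.P h t).I_nonneg R (fun w => w.2.1) (BB D s J)
  have h3 := (D.P h t).I_nonneg T (fun w => w.2.1) (fun w => (R w, BB D s J w))
  have h4 : (D.P h t).I T (fun w => w.2.1) (fun w => (R w, BB D s J w)) = 0 := by linarith
  rw [FP.I_eq_Hc] at h4
  have h5 : (D.P h t).Hc T (fun w => (w.2.1, R w, BB D s J w)) = (D.P h t).Hc T (fun w => (R w, WW D s w)) := by
    refine (D.P h t).Hc_congr_right T ?_ ?_
    · intro v w hvw
      simp only [Prod.mk.injEq, BB_eq, WW_eq] at hvw ⊢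
      exact ⟨hvw.2.1, hvw.1, hvw.2.2.2.1⟩
    · intro v w hvw
      simp only [Prod.mk.injEq, BB_eq, WW_eq] at hvw ⊢
      exact ⟨hvw.2.1, hvw.1, fun j _ => by rw [hvw.2.1], hvw.2.2, fun j => by rw [hvw.2.1]⟩
  rw [← h5]
  linarith

/-- base `(y_J, node)` or `(y, node)` : the same conditional means of the digits -/
theorem ce_base (hts : t ≤ s) {ι : Type*} {f : Pt K X β φ → ℝ} {R : Pt K X β φ → ι}
    (hf1 : ∀ w, (D.P h t).p w ≠ 0 → f w = 1 ∨ f w = -1)
    (hf : Fac (fun w => (AA J w, BB D s J w)) f) (hR : Fac (fun w => (AA J w, BB D s J w)) R)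
    {w : Pt K X β φ} (hw : (D.P h t).p w ≠ 0) :
    (D.P h t).ce (fun w => (R w, WW D s w)) f w = (D.P h t).ce (fun w => (R w, BB D s J w)) f w := by
  have h1 := (D.P h t).I_digit_ge hf1 (fun w => (R w, WW D s w)) (fun w => (R w, BB D s J w))
  have e1 : (D.P h t).I f (fun w => (R w, WW D s w)) (fun w => (R w, BB D s J w)) = 0 := by
    rw [FP.I_eq_Hc]
    have h2 := Hc_base h hts hf hR
    have h3 : (D.P h t).Hc f (fun w => ((R w, WW D s w), R w, BB D s J w)) =
        (D.P h t).Hc f (fun w => (R w, WW D s w)) := by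
      refine (D.P h t).Hc_congr_right f (Fac.fst _ _) ?_
      intro v w hvw
      have h4 := WW_BB (φ := φ) D s J v w (by simp only [Prod.mk.injEq] at hvw; exact hvw.2)
      simp only [Prod.mk.injEq] at hvw ⊢
      exact ⟨hvw, hvw.1, h4⟩
    rw [h3, h2]
    ring
  rw [e1, mul_zero] at h1
  have e2 : ∀ v, (D.P h t).ce (fun v => ((R v, WW D s v), R v, BB D s J v)) f v =
      (D.P h t).ce (fun v => (R v, WW D s v)) f v := by
    intro v
    refine (D.P h t).ce_congr_map (Fac.fst _ _) ?_ f v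
    intro v w hvw
    have h4 := WW_BB (φ := φ) D s J v w (by simp only [Prod.mk.injEq] at hvw; exact hvw.2)
    simp only [Prod.mk.injEq] at hvw ⊢
    exact ⟨hvw, hvw.1, h4⟩
  simp only [e2] at h1
  have h2 : (D.P h t).p w * ((D.P h t).ce (fun v => (R v, WW D s v)) f w -
      (D.P h t).ce (fun v => (R v, BB D s J v)) f w) ^ 2 ≤ 0 := by
    refine le_trans ?_ h1
    unfold FP.E
    exact Finset.single_le_sum (f := fun w => (D.P h t).p w * ((D.P h t).ce (fun v => (R v, WW D s v)) f w -
      (D.P h t).ce (fun v => (R v, BB D s J v)) f w) ^ 2)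
      (fun v _ => mul_nonneg ((D.P h t).nn v) (sq_nonneg _)) (mem_univ w)
  have h3 : 0 < (D.P h t).p w := lt_of_le_of_ne ((D.P h t).nn w) (Ne.symm hw)
  have h4 : ((D.P h t).ce (fun v => (R v, WW D s v)) f w - (D.P h t).ce (fun v => (R v, BB D s J v)) f w) ^ 2 ≤ 0 := by
    by_contra hc
    push Not at hc
    exact absurd h2 (not_le.2 (mul_pos h3 hc))
  have h5 := pow_eq_zero_iff (two_ne_zero) |>.1 (le_antisymm h4 (sq_nonneg _))
  linarith

/-! ## the law of the time `t` is an image of the law of the time `t + 1` -/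

/-- old labels -/
def old (pr : ℕ → K → φ → φ) (t : ℕ) (w : Pt K X β φ) : Pt K X β φ := (w.1, w.2.1, fun l => pr t l (w.2.2 l))

variable {pr : ℕ → K → φ → φ}

theorem push_E (hpr : ∀ l x y F, D.kf t l x y F = ∑ F', ind (pr t l F' = F) * D.kf (t + 1) l x y F')
    (f : Pt K X β φ → ℝ) : (D.P h (t + 1)).E (fun w => f (old pr t w)) = (D.P h t).E f := by
  classical
  unfold FP.E
  rw [Fintype.sum_prod_type, Fintype.sum_prod_type]
  refine Finset.sum_congr rfl fun x _ => ?_
  rw [Fintype.sum_prod_type, Fintype.sum_prod_type]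
  refine Finset.sum_congr rfl fun y _ => ?_
  show ∑ F' : K → φ, (∏ l, D.kf (t + 1) l x y (F' l)) / nn X β K * f (x, y, fun l => pr t l (F' l)) =
    ∑ F : K → φ, (∏ l, D.kf t l x y (F l)) / nn X β K * f (x, y, F)
  have h1 : ∀ F : K → φ, (∏ l, D.kf t l x y (F l)) =
      ∑ F' : K → φ, (∏ l, D.kf (t + 1) l x y (F' l)) * ind ((fun l => pr t l (F' l)) = F) := by
    intro F
    have h2 := Finset.prod_univ_sum (fun _ : K => (univ : Finset φ))
      (fun l f => ind (pr t l f = F l) * D.kf (t + 1) l x y f)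
    rw [Fintype.piFinset_univ] at h2
    rw [Finset.prod_congr rfl fun l _ => hpr l x y (F l), h2]
    refine Finset.sum_congr rfl fun F' _ => ?_
    rw [Finset.prod_mul_distrib, mul_comm]
    congr 1
    by_cases hF : (fun l => pr t l (F' l)) = F
    · rw [ind_of hF]
      exact Finset.prod_eq_one fun l _ => ind_of (congrFun hF l)
    · rw [ind_not hF]
      have : ∃ l, pr t l (F' l) ≠ F l := by
        by_contra hc
        push Not at hc
        exact hF (funext hc)
      obtain ⟨l, hl⟩ := this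
      exact Finset.prod_eq_zero (mem_univ l) (ind_not hl)
  have h3 : ∑ F : K → φ, (∏ l, D.kf t l x y (F l)) / nn X β K * f (x, y, F) =
      ∑ F : K → φ, (∑ F' : K → φ, (∏ l, D.kf (t + 1) l x y (F' l)) * ind ((fun l => pr t l (F' l)) = F)) /
        nn X β K * f (x, y, F) := Finset.sum_congr rfl fun F _ => by rw [h1 F]
  rw [h3]
  simp only [Finset.sum_div, Finset.sum_mul]
  rw [Finset.sum_comm]
  refine Finset.sum_congr rfl fun F' _ => Eq.symm ?_
  rw [Finset.sum_eq_single (fun l => pr t l (F' l))]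
  · rw [ind_of rfl, mul_one]
  · intro F _ hF
    rw [ind_not (Ne.symm hF)]
    ring
  · intro hh; exact absurd (mem_univ _) hh

theorem push_m (hpr : ∀ l x y F, D.kf t l x y F = ∑ F', ind (pr t l F' = F) * D.kf (t + 1) l x y F')
    {κ : Type*} (T : Pt K X β φ → κ) (w : Pt K X β φ) :
    (D.P h (t + 1)).m (fun v => T (old pr t v)) w = (D.P h t).m T (old pr t w) :=
  push_E h hpr fun v => ind (T v = T (old pr t w))

theorem push_H (hpr : ∀ l x y F, D.kf t l x y F = ∑ F', ind (pr t l F' = F) * D.kf (t + 1) l x y F')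
    {κ : Type*} (T : Pt K X β φ → κ) : (D.P h (t + 1)).H (fun v => T (old pr t v)) = (D.P h t).H T := by
  unfold FP.H
  rw [← push_E h hpr]
  exact (D.P h (t + 1)).E_congr fun w _ => by rw [push_m h hpr]

theorem push_Hc (hpr : ∀ l x y F, D.kf t l x y F = ∑ F', ind (pr t l F' = F) * D.kf (t + 1) l x y F')
    {κ ι : Type*} (T : Pt K X β φ → κ) (R : Pt K X β φ → ι) :
    (D.P h (t + 1)).Hc (fun v => T (old pr t v)) (fun v => R (old pr t v)) = (D.P h t).Hc T R := by
  unfold FP.Hc
  rw [← push_H h hpr, ← push_H h hpr]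

theorem push_I (hpr : ∀ l x y F, D.kf t l x y F = ∑ F', ind (pr t l F' = F) * D.kf (t + 1) l x y F')
    {κ ι ι' : Type*} (T : Pt K X β φ → κ) (R : Pt K X β φ → ι) (Z : Pt K X β φ → ι') :
    (D.P h (t + 1)).I (fun v => T (old pr t v)) (fun v => R (old pr t v)) (fun v => Z (old pr t v)) =
      (D.P h t).I T R Z := by
  rw [FP.I_eq_Hc, FP.I_eq_Hc, ← push_Hc h hpr, ← push_Hc h hpr]

end laws

end Pool.Agent.GMH
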