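import Pool.Agent.GMH.RZ7
import Pool.Agent.GMH.MV8T
import Pool.Agent.GMH.AhP
import Pool.Agent.GMH.StpT
import Pool.Agent.GMH.MVIq
import Pool.Agent.GMH.RZ11

/-!
# GMH/PrvT: the tuples thrown away at the private removals and at listed public removals (helper27)

* `pts_ind`, `fac_ind` : independence of the points given the public information;
* `dr_all` : the anti-hot ratio of the letters of the other vertices against the letter of `i`, with all exact points;
* `ah_prvM` : anti-hot pairs at private removals; `prv_thr` : moved at `i` or status of another vertex at the private removals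
  of `i`; `pub_thr` : public removals with a listed tuple over the thin triple.
-/

set_option autoImplicit false
set_option linter.unusedSectionVars false

namespace Pool.Agent.GMH.PRT

open Finset Pool.Agent.PWZ Pool.Agent.M3 Pool.Agent.GM Pool.Agent.GM.Harm Pool.Agent.GMH Pool.Agent.GMH.NZ
open Pool.Agent.GMH.V3 Pool.Agent.GMH.TD Pool.Agent.GMH.TP Pool.Agent.GMH.RZ

noncomputable section

/-! ### independence of the points -/

section pts

variable {X β γ φ υ : Type} [Fintype X] [Fintype β] [Fintype φ] [Nonempty X] [Nonempty β]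
variable {D : HD (Fin 3) X β γ φ} {al : ℝ} {h : D.Thick al} {v : ℕ → Finset (Fin 3) → X → (Fin 3 → β) → υ}

/-- mass of the points of `J` -/
theorem m_PJ (hv : Codes D v) (t r : ℕ) (J : Finset (Fin 3)) (w : Pt (Fin 3) X β φ) :
    (D.P h t).m (fun u => (PJ J u, NPr v D r u)) w =
      (D.P h t).m (NPr v D r) w * ∏ j ∈ J, (nuC D (nt r) w j).E (fun b => ind (b = w.2.1 j)) := by
  have hs := Nat.succ_le_succ (tm_nt r)
  have h2 := cell_E (h := h) hv t hs w (fun _ => 1) (fun j b => if j ∈ J then ind (b = w.2.1 j) else 1)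
  have h3 := cell_Pr (h := h) hv t hs w
  have e1 : (D.P h t).m (fun u => (PJ J u, NPr v D r u)) w =
      (D.P h t).E (fun u => ind (NP D v (tm r + 1) (nt r) u = NP D v (tm r + 1) (nt r) w) * (1 *
        ∏ j, if j ∈ J then ind (u.2.1 j = w.2.1 j) else 1)) := by
    unfold FP.m
    refine (D.P h t).E_congr fun u _ => ?_
    have e2 : ind ((PJ J u, NPr v D r u) = (PJ J w, NPr v D r w)) =
        ind (NP D v (tm r + 1) (nt r) u = NP D v (tm r + 1) (nt r) w ∧ ∀ j ∈ J, u.2.1 j = w.2.1 j) := by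
      refine ind_cg ?_
      rw [Prod.mk.injEq, PJ_iff]
      exact and_comm
    rw [e2, ind_and, one_mul]
    congr 1
    by_cases hh : ∀ j ∈ J, u.2.1 j = w.2.1 j
    · rw [ind_of hh]
      refine (Finset.prod_eq_one fun j _ => ?_).symm
      by_cases hj : j ∈ J
      · rw [if_pos hj, ind_of (hh j hj)]
      · rw [if_neg hj]
    · rw [ind_not hh]
      push Not at hh
      obtain ⟨j, hj, hne⟩ := hh
      refine (Finset.prod_eq_zero (mem_univ j) ?_).symm
      rw [if_pos hj, ind_not hne]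
  rw [e1, h2, FP.E_const, one_mul]
  have e3 : (D.P h t).m (NPr v D r) w = (D.P h t).Pr (fun u => NP D v (tm r + 1) (nt r) u = NP D v (tm r + 1) (nt r) w) := rfl
  rw [e3, h3]
  congr 1
  rw [← Finset.prod_subset (Finset.subset_univ J) (f := fun j => (nuC D (nt r) w j).E (fun b =>
    if j ∈ J then ind (b = w.2.1 j) else 1))]
  · refine Finset.prod_congr rfl fun j hj => ?_
    simp only [if_pos hj]
  · intro j _ hj
    simp only [if_neg hj]
    exact FP.E_const _ _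

/-- **the points are independent given the public information** -/
theorem pts_ind (hv : Codes D v) (t r : ℕ) {J K : Finset (Fin 3)} (hJK : Disjoint J K) (w : Pt (Fin 3) X β φ) :
    (D.P h t).m (fun u => (PJ (J ∪ K) u, NPr v D r u)) w * (D.P h t).m (NPr v D r) w =
      (D.P h t).m (fun u => (PJ J u, NPr v D r u)) w * (D.P h t).m (fun u => (PJ K u, NPr v D r u)) w := by
  rw [m_PJ hv, m_PJ hv, m_PJ hv, Finset.prod_union hJK]
  ring

/-- **a function of the hidden point and of the points of `J` does not see the other points** -/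
theorem fac_ind (hv : Codes D v) (t r : ℕ) {J K : Finset (Fin 3)} (hJK : Disjoint J K) {κ : Type*}
    {Z : Pt (Fin 3) X β φ → κ} (hZ : Fac (fun u : Pt (Fin 3) X β φ => (u.1, PJ J u, NPr v D r u)) Z) (hZJ : Fac Z (PJ J))
    {w : Pt (Fin 3) X β φ} (hw : (D.P h t).p w ≠ 0) :
    (D.P h t).m (fun u => (Z u, (PJ K u, NPr v D r u))) w * (D.P h t).m (NPr v D r) w =
      (D.P h t).m (fun u => (Z u, NPr v D r u)) w * (D.P h t).m (fun u => (PJ K u, NPr v D r u)) w := by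
  have e1 : (D.P h t).m (fun u => (Z u, (PJ K u, NPr v D r u))) w =
      (D.P h t).m (fun u => (Z u, (PJ (J ∪ K) u, NPr v D r u))) w := by
    refine (D.P h t).m_congr (fun a b hab => ?_) (fun a b hab => ?_) w
    · simp only [Prod.mk.injEq] at hab ⊢
      refine ⟨hab.1, PJ_iff.2 fun j hj => ?_, hab.2.2⟩
      rcases Finset.mem_union.1 hj with h1 | h1
      · exact PJ_iff.1 (hZJ a b hab.1) j h1
      · exact PJ_iff.1 hab.2.1 j h1
    · simp only [Prod.mk.injEq] at hab ⊢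
      exact ⟨hab.1, PJ_iff.2 fun j hj => PJ_iff.1 hab.2.1 j (Finset.mem_union_right J hj), hab.2.2⟩
  have e2 : (D.P h t).m (fun u => (Z u, NPr v D r u)) w = (D.P h t).m (fun u => (Z u, (PJ J u, NPr v D r u))) w := by
    refine (D.P h t).m_congr (fun a b hab => ?_) (fun a b hab => ?_) w
    · simp only [Prod.mk.injEq] at hab ⊢
      exact ⟨hab.1, hZJ a b hab.1, hab.2⟩
    · simp only [Prod.mk.injEq] at hab ⊢
      exact ⟨hab.1, hab.2.2⟩
  have p1 := (D.P h t).m_pos (fun u => (PJ (J ∪ K) u, NPr v D r u)) hw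
  have p2 := (D.P h t).m_pos (fun u => (PJ J u, NPr v D r u)) hw
  have e3 : (D.P h t).m (fun u => (Z u, (PJ (J ∪ K) u, NPr v D r u))) w /
      (D.P h t).m (fun u => (PJ (J ∪ K) u, NPr v D r u)) w =
      (D.P h t).m (fun u => (Z u, (PJ J u, NPr v D r u))) w / (D.P h t).m (fun u => (PJ J u, NPr v D r u)) w := by
    rw [m_div, m_div]
    refine ce_more hv t r Finset.subset_union_left ?_ w
    exact Fac.ind fun a b hab => by rw [hZ a b hab]
  rw [div_eq_div_iff p1.ne' p2.ne'] at e3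
  have e4 := pts_ind (h := h) hv t r hJK w
  rw [e1, e2]
  have e5 : (D.P h t).m (fun u => (Z u, (PJ (J ∪ K) u, NPr v D r u))) w * (D.P h t).m (NPr v D r) w *
      (D.P h t).m (fun u => (PJ J u, NPr v D r u)) w =
      (D.P h t).m (fun u => (Z u, (PJ J u, NPr v D r u))) w * (D.P h t).m (fun u => (PJ K u, NPr v D r u)) w *
      (D.P h t).m (fun u => (PJ J u, NPr v D r u)) w := by
    calc _ = ((D.P h t).m (fun u => (Z u, (PJ (J ∪ K) u, NPr v D r u))) w * (D.P h t).m (fun u => (PJ J u, NPr v D r u)) w) *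
        (D.P h t).m (NPr v D r) w := by ring
      _ = (D.P h t).m (fun u => (Z u, (PJ J u, NPr v D r u))) w *
        ((D.P h t).m (fun u => (PJ (J ∪ K) u, NPr v D r u)) w * (D.P h t).m (NPr v D r) w) := by rw [e3]; ring
      _ = _ := by rw [e4]; ring
  exact mul_right_cancel₀ p2.ne' e5

end pts

/-! ### `dr` under changes of the letters, of the class and of the space -/

section gen

open Pool.Agent.GMH.MV Pool.Agent.GMH.MV8

/-- `dr` sees only the partitions, also of the class -/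
theorem dr_eqvU {Om : Type*} [Fintype Om] {α α' β β' γ γ' : Type*} (P : FP Om) {F : Om → α} {F' : Om → α'} {G : Om → β}
    {G' : Om → β'} {U : Om → γ} {U' : Om → γ'} (hU : ∀ a b, U a = U b ↔ U' a = U' b)
    (h1 : ∀ a b, U a = U b → (F a = F b ↔ F' a = F' b))
    (h2 : ∀ a b, U a = U b → (G a = G b ↔ G' a = G' b)) (w : Om) : dr P F G U w = dr P F' G' U' w := by
  have e0 : P.m U w = P.m U' w := P.m_congr (fun a b => (hU a b).1) (fun a b => (hU a b).2) w
  have e1 : P.m (fun v => (F v, U v)) w = P.m (fun v => (F' v, U' v)) w :=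
    P.m_congr (fun a b hab => by
      simp only [Prod.mk.injEq] at hab ⊢
      exact ⟨(h1 a b hab.2).1 hab.1, (hU a b).1 hab.2⟩) (fun a b hab => by
      simp only [Prod.mk.injEq] at hab ⊢
      exact ⟨(h1 a b ((hU a b).2 hab.2)).2 hab.1, (hU a b).2 hab.2⟩) w
  have e2 : P.m (fun v => (G v, U v)) w = P.m (fun v => (G' v, U' v)) w :=
    P.m_congr (fun a b hab => by
      simp only [Prod.mk.injEq] at hab ⊢
      exact ⟨(h2 a b hab.2).1 hab.1, (hU a b).1 hab.2⟩) (fun a b hab => by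
      simp only [Prod.mk.injEq] at hab ⊢
      exact ⟨(h2 a b ((hU a b).2 hab.2)).2 hab.1, (hU a b).2 hab.2⟩) w
  have e3 : P.m (fun v => (F v, G v, U v)) w = P.m (fun v => (F' v, G' v, U' v)) w :=
    P.m_congr (fun a b hab => by
      simp only [Prod.mk.injEq] at hab ⊢
      exact ⟨(h1 a b hab.2.2).1 hab.1, (h2 a b hab.2.2).1 hab.2.1, (hU a b).1 hab.2.2⟩) (fun a b hab => by
      simp only [Prod.mk.injEq] at hab ⊢
      exact ⟨(h1 a b ((hU a b).2 hab.2.2)).2 hab.1, (h2 a b ((hU a b).2 hab.2.2)).2 hab.2.1, (hU a b).2 hab.2.2⟩) w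
  unfold dr
  rw [e0, e1, e2, e3]

/-- `dr` under a pull back -/
theorem dr_pul {Om Om' : Type*} [Fintype Om] [Fintype Om'] {P : FP Om} {P' : FP Om'} {π : Om → Om'} (H : Pul P P' π)
    {α β γ : Type*} (F : Om' → α) (G : Om' → β) (U : Om' → γ) (w : Om) :
    dr P (fun u => F (π u)) (fun u => G (π u)) (fun u => U (π u)) w = dr P' F G U (π w) := by
  unfold dr
  rw [← H.m (fun v => (F v, U v)) w, ← H.m (fun v => (G v, U v)) w, ← H.m (fun v => (F v, G v, U v)) w, ← H.m U w]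

variable {Om : Type} [Fintype Om] (M : MS Om)

/-- the letters of the other vertices and of the vertex `i`, with and without the points -/
theorem drq_OL (i : Fin 3) (k : ℕ) (w : Om) :
    dr M.P (OL M i k) (M.XL i k) (AHR.UY M k) w = AHR.drq M (univ.erase i, ∅) ({i}, ∅) k w := by
  refine dr_eqvU M.P (fun a b => Iff.rfl) (fun a b hU => ?_) (fun a b hU => AHR.LF_one M i k hU) w
  have hY : YF M (univ.erase i, ∅) a = YF M (univ.erase i, ∅) b := congrArg Prod.fst hU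
  rw [AHR.LF_iff]
  constructor
  · intro hab
    refine ⟨fun l hl => ?_, fun l hl => absurd hl (Finset.notMem_empty l), hY⟩
    exact OL_X M (Finset.ne_of_mem_erase hl) k a b hab
  · intro hab
    funext j
    unfold OL
    by_cases hj : j = i
    · rw [if_pos hj, if_pos hj]
    · rw [if_neg hj, if_neg hj, hab.1 j (Finset.mem_erase.2 ⟨hj, mem_univ j⟩)]

/-- **anti-hot pairs at the private removals, data `MS`** -/
theorem ah_prvM (i : Fin 3) {b : ℕ → Om → Prop} (hb : ∀ k, Fac (CN M i (k + 1)) (b k)) {e : ℝ} (he : 0 < e) {T : ℕ}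
    {Tot : ℝ} (h0 : Tot0 M T Tot) :
    ∑ k ∈ range T, M.P.Pr (fun w => b k w ∧ e ≤ AHR.drq M (univ.erase i, ∅) ({i}, ∅) k w) ≤
      16 / e * (1 + ∑ k ∈ range T, M.P.Pr (b k) + 2 * Tot) := by
  have hU : ∀ t, Fac (AHR.UY M (t + 1)) (AHR.UY M t) := fun t a b hab => by
    simp only [AHR.UY, Prod.mk.injEq] at hab ⊢
    exact ⟨hab.1, M.hN t a b hab.2⟩
  have hF : ∀ i : Finset (Fin 3) × Finset (Fin 3), ∀ t, Fac (fun v => (LF M i (t + 1) v, AHR.UY M (t + 1) v)) (LF M i t) :=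
    fun i t a b hab => LF_step M i t a b (Prod.mk.inj hab).1
  have hb' : ∀ k, Fac (fun v => (LF M ({i}, ∅) (k + 1) v, AHR.UY M (k + 1) v)) (b k) := fun k a c hac => by
    obtain ⟨h1, h2⟩ := Prod.mk.inj hac
    refine hb k a c (Prod.ext ?_ ?_)
    · exact ((AHR.LF_iff M ({i}, ∅) (k + 1)).1 h1).1 i (Finset.mem_singleton_self i)
    · show M.NP (k + 1) a = M.NP (k + 1) c
      exact congrArg Prod.snd h2
  refine (ah_prv M.P hU (hF (univ.erase i, ∅)) (hF ({i}, ∅)) hb' he T).trans ?_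
  refine mul_le_mul_of_nonneg_left ?_ (by positivity)
  have h1 : ∑ k ∈ range T, ((M.P.Hc (LF M (univ.erase i, ∅) k) (AHR.UY M k) -
        M.P.Hc (LF M (univ.erase i, ∅) k) (AHR.UY M (k + 1))) +
      (M.P.Hc (LF M ({i}, ∅) k) (AHR.UY M k) - M.P.Hc (LF M ({i}, ∅) k) (AHR.UY M (k + 1)))) =
      ∑ k ∈ range T, M.P.E (ai M.P M.NP (LF M (univ.erase i, ∅)) (YF M (univ.erase i, ∅)) k) +
        ∑ k ∈ range T, M.P.E (ai M.P M.NP (LF M ({i}, ∅)) (YF M ({i}, ∅)) k) := by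
    rw [← Finset.sum_add_distrib]
    exact Finset.sum_congr rfl fun k _ => by rw [AHR.drop_eq, AHR.drop_eq]
  rw [h1]
  have h2 := (h0 (univ.erase i, ∅)).1
  have h3 := (h0 ({i}, ∅)).1
  linarith

/-- **public removals with a listed tuple over the thin triple** -/
theorem pub_thrM {Lam : ℝ} (hTh : Thk M Lam) (hP : PrN M) {T : ℕ} {Tot : ℝ} (hT : Tot0 M T Tot)
    (hk : M.k0 < Real.exp (-(4 * Lam))) :
    ∑ s ∈ range T, M.P.Pr (fun w => lt5 M M.NP s w ∧ 0 < M.P.ce (TH M s) (fun u => ind (Lst M (nu M s w) s u)) w) ≤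
      2 / Real.log (Real.exp (-(4 * Lam)) / M.k0) * (Tot + Real.sqrt (M.k0 / Real.exp (-(4 * Lam))) * NL M T) := by
  have hk0 := M.hk0
  have hE := Real.exp_pos (-(4 * Lam))
  have h1 := NP_thr hP hT (A := fun s w => 0 < M.P.ce (TH M s) (fun u => ind (Lst M (nu M s w) s u)) w)
    (fun s _ => (LU_TH M s).trans fun a b hab => by
      have h2 : nu M s a = nu M s b := nu_fac M s a b (congrArg Prod.snd hab)
      show (0 < M.P.ce (TH M s) (fun x => ind (Lst M (nu M s a) s x)) a) =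
        (0 < M.P.ce (TH M s) (fun x => ind (Lst M (nu M s b) s x)) b)
      rw [h2, M.P.ce_fac (TH M s) _ a b hab]) (q := M.k0 / Real.exp (-(4 * Lam))) (div_pos hk0 hE)
    ((div_lt_one hE).2 hk) (fun s _ w hw _ => by
      have m1 := MvF.mkv (P := M.P) (X := M.NP s) (Y := TH M s) (f := fun y => ind (Lst M (nu M s w) s y))
        (fun a b hab => congrArg Prod.snd hab) (fun _ => ind_nonneg _) hE w
      refine le_trans ?_ (m1.trans (div_le_div_of_nonneg_right (Lst_mass M s hw).le hE.le))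
      refine MV4.mono_on fun u hu hX => ind_mono fun hh => ?_
      rw [nu_fac M s u w hX] at hh
      exact hTh s (Lst M (nu M s w) s) (Lst_fac M (nu M s w) s) u hu hh)
  rw [one_div_div] at h1
  exact h1

end gen

/-! ### the run -/

section run

open Pool.Agent.GMH.Dy Pool.Agent.GMH.MV Pool.Agent.GMH.CKB Pool.Agent.GMH.MVI Pool.Agent.GMH.MV8 Pool.Agent.GMH.MV8R Pool.Agent.GMH.TRF

variable {X β γ φ : Type} [Fintype X] [Fintype β] [Fintype φ] [Nonempty X] [Nonempty β]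
variable {D : HD (Fin 3) X β γ φ} {al : ℝ} {h : D.Thick al} {v : ℕ → Finset (Fin 3) → X → (Fin 3 → β) → Pt (Fin 3) X β φ}
variable {dg : ℕ → X → ℝ} {prr : ℕ → Fin 3 → φ → φ} {T : ℕ} {Lam : ℝ} {W : Type} [Fintype W]

/-- the letters of the other vertices at a position -/
def OLv (v : ℕ → Finset (Fin 3) → X → (Fin 3 → β) → Pt (Fin 3) X β φ) (i : Fin 3) (q : ℕ) (u : Pt (Fin 3) X β φ) :
    Fin 3 → Option (β × List (Pt (Fin 3) X β φ)) := fun j => if j = i then Option.none else some (XLq v q j u)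

theorem XLq_hid (hv : Codes D v) (q : ℕ) (i : Fin 3) :
    Fac (fun u : Pt (Fin 3) X β φ => (u.1, PJ {i} u, NPr v D (RZ.rho q) u)) (XLq v q i) := fun a b hab =>
  XLq_rho q i a b (LJ_iff.1 (LJ_hid hv le_rfl {i} a b hab) i (Finset.mem_singleton_self i))

theorem XLq_PJ (q : ℕ) (i : Fin 3) : Fac (XLq (φ := φ) v q i) (PJ {i}) := fun a b hab =>
  PJ_iff.2 fun j hj => by rw [Finset.mem_singleton.1 hj]; exact congrArg Prod.fst hab

theorem OLv_hid (hv : Codes D v) (q : ℕ) (i : Fin 3) :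
    Fac (fun u : Pt (Fin 3) X β φ => (u.1, PJ (univ.erase i) u, NPr v D (RZ.rho q) u)) (OLv v i q) := fun a b hab => by
  simp only [Prod.mk.injEq] at hab
  funext j
  unfold OLv
  by_cases hj : j = i
  · rw [if_pos hj, if_pos hj]
  · rw [if_neg hj, if_neg hj]
    congr 1
    refine XLq_hid hv q j a b ?_
    simp only [Prod.mk.injEq]
    exact ⟨hab.1, PJ_iff.2 fun k hk => by
      rw [Finset.mem_singleton.1 hk]
      exact PJ_iff.1 hab.2.1 j (Finset.mem_erase.2 ⟨hj, mem_univ j⟩), hab.2.2⟩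

theorem OLv_PJ (q : ℕ) (i : Fin 3) : Fac (OLv v i q) (PJ (univ.erase i)) := fun a b hab => PJ_iff.2 fun j hj => by
  have h1 := congrFun hab j
  unfold OLv at h1
  rw [if_neg (Finset.ne_of_mem_erase hj), if_neg (Finset.ne_of_mem_erase hj)] at h1
  exact congrArg Prod.fst (Option.some.inj h1)

/-- **the anti-hot ratio of the letters of the other vertices against the letter of `i`, with all exact points** -/
theorem dr_all (h : D.Thick al) (tb : Tab D prr T W) (hv : Codes D v) {d1 kb d0 k0 p1 z : ℝ} (hd1 : 0 < d1) (hd11 : d1 ≤ 1) (hkb : 0 < kb)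
    (hd0 : 0 < d0) (hd01 : d0 ≤ 1) (hk0 : 0 < k0) (hp1 : 0 < p1) (hz : 0 < z) (i : Fin 3) (q : ℕ) {w : Om W X β}
    (hw : tb.Ps.p w ≠ 0) :
    dr tb.Ps (OL (MSi tb (v := v) d1 kb d0 k0 p1 z hd1 hd11 hkb hd0 hd01 hk0 hp1 hz) i q) (XLo tb v i q) (NPo tb v q) w =
      AHR.drq (MSi tb (v := v) d1 kb d0 k0 p1 z hd1 hd11 hkb hd0 hd01 hk0 hp1 hz) (univ.erase i, ∅) ({i}, ∅) q w := by
  set M := MSi tb (v := v) d1 kb d0 k0 p1 z hd1 hd11 hkb hd0 hd01 hk0 hp1 hz with hM
  have H := pul_pt h tb (Nat.zero_le T)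
  have hw' := H.ne hw
  have hdis : Disjoint ({i} : Finset (Fin 3)) (univ.erase i) := by
    rw [Finset.disjoint_singleton_left]
    exact Finset.notMem_erase i univ
  have e1 : dr tb.Ps (OL M i q) (XLo tb v i q) (NPo tb v q) w =
      dr (D.P h 0) (OLv v i q) (XLq v q i) (NPr v D (RZ.rho q)) (tb.pt 0 w) := by
    rw [← NPq_rho]
    exact dr_pul H (OLv v i q) (XLq v q i) (NPq D v q) w
  have f1 := fac_ind (h := h) hv 0 (RZ.rho q) hdis.symm (OLv_hid hv q i) (OLv_PJ q i) hw'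
  have f2 := fac_ind (h := h) hv 0 (RZ.rho q) hdis (XLq_hid hv q i) (XLq_PJ q i) hw'
  have f3 := fac_ind (h := h) hv 0 (RZ.rho q) (J := {i}) hdis (Z := PJ {i})
    (fun a b hab => (Prod.mk.inj (Prod.mk.inj hab).2).1) (fun _ _ hab => hab) hw'
  have e2 := MV8.dr_pts (P := D.P h 0) (F := OLv v i q) (G := XLq v q i) (U := NPr v D (RZ.rho q)) (Y1 := PJ {i})
    (Y2 := PJ (univ.erase i)) (OLv_PJ q i) (XLq_PJ q i) hw' f1 f2 f3
  rw [e1, e2, ← dr_pul H (OLv v i q) (XLq v q i) (fun u => ((PJ {i} u, PJ (univ.erase i) u), NPr v D (RZ.rho q) u)) w,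
    ← drq_OL]
  refine dr_eqvU tb.Ps (fun a b => ?_) (fun a b _ => Iff.rfl) (fun a b _ => Iff.rfl) w
  simp only [AHR.UY, Prod.mk.injEq]
  constructor
  · intro hab
    refine ⟨funext fun j => ?_, ?_⟩
    · by_cases hj : j = i
      · exact PJ_iff.1 hab.1.1 j (by rw [hj]; exact Finset.mem_singleton_self i)
      · exact PJ_iff.1 hab.1.2 j (Finset.mem_erase.2 ⟨hj, mem_univ j⟩)
    · show NPq D v q (tb.pt 0 a) = NPq D v q (tb.pt 0 b)
      rw [NPq_rho]
      exact hab.2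
  · intro hab
    have hY : ∀ j, (tb.pt 0 a).2.1 j = (tb.pt 0 b).2.1 j := fun j => congrFun hab.1 j
    refine ⟨⟨PJ_iff.2 fun j _ => hY j, PJ_iff.2 fun j _ => hY j⟩, ?_⟩
    have h1 : NPq D v q (tb.pt 0 a) = NPq D v q (tb.pt 0 b) := hab.2
    rw [NPq_rho] at h1
    exact h1

variable {d1 kb d0 k0 p1 z : ℝ} (hd1 : 0 < d1) (hd11 : d1 ≤ 1) (hkb : 0 < kb) (hd0 : 0 < d0) (hd01 : d0 ≤ 1) (hk0 : 0 < k0)
  (hp1 : 0 < p1) (hz : 0 < z)

/-- **THROWN AWAY AT THE PRIVATE REMOVALS OF `i`** : moved at `i` or another vertex has status, letters alive -/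
theorem prv_thr {n N1 : ℝ} (hn : 1 ≤ n) (hN1 : 1 ≤ N1) (R : Run h (pr3 (Fin 3) n N1) (SS1 (Fin 3)) (AdmDep D) v)
    (H : D.Hyp dg prr al T Lam) (tb : Tab D prr T W) (hzp : 8 * Real.exp (4 * Lam) * kb / p1 ≤ z) {i k m : Fin 3}
    (hik : i ≠ k) (him : i ≠ m) (hkm : k ≠ m) {L a e : ℝ} (hL : 0 ≤ L) (he0 : 0 < e) :
    ∑ s ∈ range (5 * T), tb.Ps.Pr (fun w => rpO tb v i s w ∧ alq h v tb (s / 5) (s + 1) L i w ∧
      alq h v tb (s / 5) s L k w ∧ (Mv (MSi tb (v := v) d1 kb d0 k0 p1 z hd1 hd11 hkb hd0 hd01 hk0 hp1 hz) i s w ∨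
      ∃ c, c ≠ i ∧ hys (MSi tb (v := v) d1 kb d0 k0 p1 z hd1 hd11 hkb hd0 hd01 hk0 hp1 hz) c
        (nu (MSi tb (v := v) d1 kb d0 k0 p1 z hd1 hd11 hkb hd0 hd01 hk0 hp1 hz) s w) w)) ≤
      (e * (Real.exp (4 * Lam) * kb) + 2 * z +
        3 * (3 * (Real.sqrt (4 * (a + 1) / N1) + 2 * Real.exp (-a) * Real.exp (2 * L)))) * (6 * n * Lam) +
      16 / e * (1 + 6 * n * Lam + 2 * (12 * n * Lam)) := by
  classical
  set M := MSi tb (v := v) d1 kb d0 k0 p1 z hd1 hd11 hkb hd0 hd01 hk0 hp1 hz with hM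
  have g1 := mv8_run (h := h) hd1 hd11 hkb hd0 hd01 hk0 hp1 hz hn hN1 R H tb hzp hik him hkm (L := L) (a := a) (e := e) hL
    he0.le (Dv := fun s w => dr tb.Ps (OL M i s) (XLo tb v i s) (NPo tb v s) w ≤ e) (fun s a b hab => by
      have h3 : OL M i s a = OL M i s b := by
        funext j
        have h6 : M.XL j s a = M.XL j s b := congrFun (congrArg Prod.fst hab) j
        unfold OL
        rw [h6]
      have h4 : XLo tb v i s a = XLo tb v i s b := congrFun (congrArg Prod.fst hab) i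
      have h5 : NPo tb v s a = NPo tb v s b := congrArg Prod.snd hab
      show (dr tb.Ps (OL M i s) (XLo tb v i s) (NPo tb v s) a ≤ e) = (dr tb.Ps (OL M i s) (XLo tb v i s) (NPo tb v s) b ≤ e)
      rw [dr_fac tb.Ps (OL M i s) (XLo tb v i s) (NPo tb v s) a b (by simp only [h3, h4, h5])])
    (fun s w _ hh => hh)
  rw [← hM] at g1
  have g2 := ah_prvM M i (b := fun s w => 2 ≤ s % 5 ∧ lt5 M (CN M i) s w) (fun s a b hab => by
      show (2 ≤ s % 5 ∧ lt5 M (CN M i) s a) = (2 ≤ s % 5 ∧ lt5 M (CN M i) s b)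
      rw [lt5_eq M (fun t => CN_step M i t) s hab]) he0 (tot0 tb hd1 hd11 hkb hd0 hd01 hk0 hp1 hz hn hN1 R H)
  have g3 := light_prv (h := h) hd1 hd11 hkb hd0 hd01 hk0 hp1 hz hn hN1 R H tb i
  rw [← hM] at g3
  have g4 : 16 / e * (1 + ∑ s ∈ range (5 * T), tb.Ps.Pr (fun w => 2 ≤ s % 5 ∧ lt5 M (CN M i) s w) + 2 * (12 * n * Lam)) ≤
      16 / e * (1 + 6 * n * Lam + 2 * (12 * n * Lam)) :=
    mul_le_mul_of_nonneg_left (by linarith) (by positivity)
  refine le_trans ?_ (add_le_add g1 (g2.trans g4))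
  rw [← Finset.sum_add_distrib]
  refine Finset.sum_le_sum fun s hs => le_trans (tb.Ps.Pr_mono fun w hw hh => ?_) (RZ.Pr_or tb.Ps _ _)
  obtain ⟨r1, r2, r3, r4⟩ := hh
  have hi := i.2
  have h2 : 2 ≤ s % 5 := by rw [r1.1]; omega
  have h6 : lt5 M (CN M i) s w := ⟨by show s % 5 ≠ 0; omega, r1.2.1⟩
  by_cases hd : dr tb.Ps (OL M i s) (XLo tb v i s) (NPo tb v s) w ≤ e
  · left
    refine ⟨⟨⟨h2, Finset.mem_range.1 hs⟩, h6, h2, r2⟩, r3, ?_⟩
    rcases r4 with h4 | h4
    · exact Or.inl ⟨h4, hd⟩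
    · exact Or.inr h4
  · right
    refine ⟨⟨h2, h6⟩, ?_⟩
    have h7 := dr_all h tb R.codes hd1 hd11 hkb hd0 hd01 hk0 hp1 hz i s hw
    rw [← hM] at h7
    rw [← h7]
    exact (not_le.1 hd).le

/-- **THROWN AWAY AT THE PUBLIC REMOVALS** : a listed tuple over the thin triple -/
theorem pub_thr {n N1 : ℝ} (hn : 1 ≤ n) (hN1 : 1 ≤ N1) (R : Run h (pr3 (Fin 3) n N1) (SS1 (Fin 3)) (AdmDep D) v)
    (H : D.Hyp dg prr al T Lam) (tb : Tab D prr T W) (hk : k0 < Real.exp (-(4 * Lam))) :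
    ∑ s ∈ range (5 * T), tb.Ps.Pr (fun w => ruO tb v s w ∧
      0 < tb.Ps.ce (TH (MSi tb (v := v) d1 kb d0 k0 p1 z hd1 hd11 hkb hd0 hd01 hk0 hp1 hz) s) (fun u =>
        ind (Lst (MSi tb (v := v) d1 kb d0 k0 p1 z hd1 hd11 hkb hd0 hd01 hk0 hp1 hz)
          (nu (MSi tb (v := v) d1 kb d0 k0 p1 z hd1 hd11 hkb hd0 hd01 hk0 hp1 hz) s w) s u)) w) ≤
      2 / Real.log (Real.exp (-(4 * Lam)) / k0) *
        (12 * n * Lam + Real.sqrt (k0 / Real.exp (-(4 * Lam))) * (6 * n * N1 * Lam)) := by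
  set M := MSi tb (v := v) d1 kb d0 k0 p1 z hd1 hd11 hkb hd0 hd01 hk0 hp1 hz with hM
  have h1 := pub_thrM M (thks h tb v hd1 hd11 hkb hd0 hd01 hk0 hp1 hz H).thk (prN tb hd1 hd11 hkb hd0 hd01 hk0 hp1 hz R.codes)
    (tot0 tb hd1 hd11 hkb hd0 hd01 hk0 hp1 hz hn hN1 R H) hk
  have h2 := nl tb hd1 hd11 hkb hd0 hd01 hk0 hp1 hz hn hN1 R H
  have hl : 0 < Real.log (Real.exp (-(4 * Lam)) / k0) := Real.log_pos (by rw [lt_div_iff₀ hk0]; linarith)
  refine le_trans (Finset.sum_le_sum fun s _ => tb.Ps.Pr_mono fun w _ hh => ?_) (h1.trans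
    (mul_le_mul_of_nonneg_left (add_le_add le_rfl (mul_le_mul_of_nonneg_left h2 (Real.sqrt_nonneg _))) (by positivity)))
  exact ⟨⟨by show s % 5 ≠ 0; rw [hh.1.1]; omega, hh.1.2⟩, hh.2⟩

end run

end

end Pool.Agent.GMH.PRT
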