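import Pool.Agent.GMH.PayR

/-!
# GMH/Quiet: pointwise rarity in a class, scale-free (helper54, row K3 QUIET)

* `rare_cls` : saturation in one class of `K0`, no additions: if an event `E` of (hidden point, points of `K0`, node) has
  conditional probability `q` in the class and the test `psi` of the letter of `J0`, normalised up to `exp df`, has own mean
  `≥ Lm + df` on `E`, then `N J0 * Lm ≤ 2 N K0 (log (1 / q) + 1)`;
* `rare_top` : `A` = event of the letter of `J0` of class mass `ga`; the own density of `A` (lower mass `≤ √ga`) is `≥ kap`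
  only with class probability `≤ e · ga ^ (N J0 kap / (16 N K0))`.
-/

set_option autoImplicit false
set_option linter.unusedSectionVars false

namespace Pool.Agent.GMH.Qui

open Finset Pool.Agent.PWZ Pool.Agent.M3 Pool.Agent.GM Pool.Agent.GM.Harm Pool.Agent.GMH Pool.Agent.GMH.PayM

noncomputable section

variable {K X β γ φ υ : Type} [Fintype K] [DecidableEq K] [Fintype X] [Fintype β] [Fintype φ] [Nonempty X] [Nonempty β]
  {D : HD K X β γ φ} {al : ℝ} {h : D.Thick al} {N : Finset K → ℝ} {S : Finset (Finset K)}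
  {U : Finset K → X → (K → β) → υ} {t : ℕ} {K0 J0 : Finset K}

/-- the class of `K0` -/
def Cl (D : HD K X β γ φ) (U : Finset K → X → (K → β) → υ) (t : ℕ) (K0 : Finset K) (w : Pt K X β φ) :=
  (le (LL U) K0 w, BB D t K0 w)

/-- **POINTWISE RARITY** -/
theorem rare_cls (hs : SatA (D.P h t) (BB D t) N S (LL U) (Dep D t)) (hN : ∀ J ∈ S, 0 ≤ N J) (hKS : K0 ∈ S)
    (hJ0 : J0 ∈ above S K0)
    (hC : Fac (fun w : Pt K X β φ => (w.1, BB D t K0 w)) (Cl (φ := φ) D U t K0))
    {psi : Pt K X β φ → ℝ} (hpsi : Fac (fun w => (LL U J0 w, lo (LL U) J0 w, BB D t J0 w)) psi)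
    {E : Pt K X β φ → Prop} (hE : Fac (fun w => (w.1, BB D t K0 w)) E) {df Lm : ℝ} {w0 : Pt K X β φ}
    (hw0 : (D.P h t).p w0 ≠ 0) (hE0 : E w0)
    (hone : ∀ w, (D.P h t).p w ≠ 0 → Cl D U t K0 w = Cl D U t K0 w0 → E w →
      (D.P h t).ce (fun v => (lo (LL U) J0 v, BB D t J0 v)) (fun v => Real.exp (psi v)) w ≤ Real.exp df)
    (hl : ∀ w, (D.P h t).p w ≠ 0 → Cl D U t K0 w = Cl D U t K0 w0 → E w →
      Lm + df ≤ (D.P h t).ce (fun v => (v.1, BB D t K0 v)) psi w) :
    N J0 * Lm ≤ 2 * N K0 * (Real.log (1 / (D.P h t).ce (Cl D U t K0) (fun v => ind (E v)) w0) + 1) := by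
  classical
  set P := D.P h t with hP
  set C := Cl (φ := φ) D U t K0 with hCd
  set E' : Pt K X β φ → Prop := fun w => E w ∧ C w = C w0 with hE'
  have fE' : Fac (fun w : Pt K X β φ => (w.1, BB D t K0 w)) E' := by
    intro a b hab
    have h1 : E a = E b := hE a b hab
    have h2 : C a = C b := hC a b hab
    show (E a ∧ C a = C w0) = (E b ∧ C b = C w0)
    rw [h1, h2]
  have hPE : 0 < P.Pr E' := by
    unfold FP.Pr
    have h1 : P.p w0 * ind (E' w0) ≤ P.E (fun v => ind (E' v)) :=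
      Finset.single_le_sum (f := fun v => P.p v * ind (E' v)) (fun v _ => mul_nonneg (P.nn v) (ind_nonneg _)) (mem_univ w0)
    rw [ind_of (⟨hE0, rfl⟩ : E' w0), mul_one] at h1
    exact lt_of_lt_of_le (lt_of_le_of_ne (P.nn w0) (Ne.symm hw0)) h1
  have hG : On K0 (fun (_ : Finset K) (_ : Pt K X β φ) => ()) := fun _ _ _ _ => rfl
  have h1 := row_mean (P := P) (B := BB D t) (L := LL U) (S := S) (N := N) (K0 := K0) (J0 := J0) (E := E')
    (G := fun _ _ => ()) (c := 0) (psi := fun _ v => psi v) hG hN hKS (fun _ => by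
      refine hs.gen (cutK K0 E' fun _ _ => ()) ?_
      intro J a b h1 h2 h3
      show cutK K0 E' (fun _ _ => ()) J a = cutK K0 E' (fun _ _ => ()) J b
      by_cases hKJ : K0 ⊆ J
      · have eE : E' a = E' b := by
          refine fE' a b ?_
          have : BB D t K0 a = BB D t K0 b := by
            rw [BB_eq]
            exact ⟨fun j hj => h2 j (hKJ hj), by rw [h1], h3⟩
          show (a.1, BB D t K0 a) = (b.1, BB D t K0 b)
          rw [h1, this]
        by_cases hEa : E' a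
        · have hEb : E' b := by rw [← eE]; exact hEa
          rw [cutK_in hKJ hEa, cutK_in hKJ hEb]
        · have hEb : ¬ E' b := by rw [← eE]; exact hEa
          rw [cutK_off hEa, cutK_off hEb]
      · rw [cutK_out hKJ, cutK_out hKJ]) hJ0 (fun _ => hpsi) (fun _ => by
      refine le_of_eq (Finset.sum_eq_zero fun J _ => ?_)
      rw [cost_const (fun v w => rfl), mul_zero])
  -- the logarithm
  have h2 : P.E (fun w => ind (E' w) * Real.log (P.ce (fun v => (lo (LL U) J0 v, BB D t J0 v))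
      (fun v => Real.exp (psi v)) w)) ≤ df * P.Pr E' := by
    unfold FP.Pr
    rw [← P.E_smul]
    refine P.E_mono fun w hw => ?_
    by_cases hEw : E' w
    · rw [ind_of hEw, one_mul, mul_one]
      have h4 := PayR.ce_pos_exp P (fun v => (lo (LL U) J0 v, BB D t J0 v)) psi hw
      exact (Real.log_le_iff_le_exp h4).2 (hone w hw hEw.2 hEw.1)
    · rw [ind_not hEw, zero_mul, mul_zero]
  -- the own mean
  have h3 : (Lm + df) * P.Pr E' ≤ P.E (fun w => ind (E' w) * psi w) := by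
    have hEf : Fac (fun w : Pt K X β φ => (w.1, BB D t K0 w)) (fun w => ind (E' w)) := fun v w e => by
      show ind (E' v) = ind (E' w)
      rw [fE' v w e]
    rw [← FP.E_mul_ce P hEf psi]
    unfold FP.Pr
    rw [← P.E_smul]
    refine P.E_mono fun w hw => ?_
    by_cases hEw : E' w
    · rw [ind_of hEw, mul_one, one_mul]
      exact hl w hw hEw.2 hEw.1
    · rw [ind_not hEw, mul_zero, zero_mul]
  -- the entropy
  have h4 := Hc_ev_le P E' C
  have e4 : ∀ w, C w = C w0 → P.ce C (fun v => ind (E' v)) w = P.ce C (fun v => ind (E v)) w0 := by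
    intro w hw
    rw [P.ce_fac C _ w w0 hw]
    unfold FP.ce
    congr 1
    refine P.E_congr fun v _ => ?_
    by_cases hv : C v = C w0
    · exact congrArg (fun x => ind (C v = C w0) * ind x) (propext ⟨fun hh => hh.1, fun hh => ⟨hh, hv⟩⟩ : E' v = E v)
    · rw [ind_not hv, zero_mul, zero_mul]
  have h5 : P.E (fun w => ind (E' w) * Real.log (1 / P.ce C (fun v => ind (E' v)) w)) =
      Real.log (1 / P.ce C (fun v => ind (E v)) w0) * P.Pr E' := by
    unfold FP.Pr
    rw [← P.E_smul]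
    refine P.E_congr fun w _ => ?_
    by_cases hEw : E' w
    · rw [e4 w hEw.2, mul_comm]
    · rw [ind_not hEw, zero_mul, mul_zero]
  rw [h5] at h4
  have hJn : 0 ≤ N J0 := hN J0 (mem_above.1 hJ0).1
  have hKn : 0 ≤ N K0 := hN K0 hKS
  have h6 := mul_le_mul_of_nonneg_left h2 hJn
  have h7 := mul_le_mul_of_nonneg_left h3 hJn
  have h8 := mul_le_mul_of_nonneg_left h4 (mul_nonneg (zero_le_two : (0:ℝ) ≤ 2) hKn)
  have h9 : N J0 * Lm * P.Pr E' ≤ 2 * N K0 * (Real.log (1 / P.ce C (fun v => ind (E v)) w0) + 1) * P.Pr E' := by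
    have e5 : P.Hc E' C = P.Hc E' (fun w => (le (LL U) K0 w, BB D t K0 w)) := rfl
    rw [e5] at h8
    have h10 : (2 : ℝ) * 0 * P.Pr E' = 0 := by ring
    rw [h10] at h1
    linarith
  exact le_of_mul_le_mul_right h9 hPE

/-- numbers: the test of a set of small mass -/
theorem num_test {ga p : ℝ} (hg : 0 < ga) (hg1 : ga ≤ 1) (hp0 : 0 ≤ p) (hp : p ≤ Real.sqrt ga) :
    1 + (Real.exp (1 / 4 * Real.log (1 / ga)) - 1) * p ≤ Real.exp (ga ^ (1 / 4 : ℝ)) := by
  have e1 : Real.exp (1 / 4 * Real.log (1 / ga)) = (ga ^ (1 / 4 : ℝ))⁻¹ := by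
    rw [one_div ga, Real.log_inv, ← Real.rpow_neg hg.le, Real.rpow_def_of_pos hg]
    congr 1
    ring
  have hs : 0 < ga ^ (1 / 4 : ℝ) := Real.rpow_pos_of_pos hg _
  have e2 : Real.sqrt ga = ga ^ (1 / 4 : ℝ) * ga ^ (1 / 4 : ℝ) := by
    rw [← Real.rpow_add hg, Real.sqrt_eq_rpow]
    norm_num
  have h1 : (Real.exp (1 / 4 * Real.log (1 / ga)) - 1) * p ≤ (ga ^ (1 / 4 : ℝ))⁻¹ * p := by
    rw [e1]
    exact mul_le_mul_of_nonneg_right (by linarith) hp0
  have h2 : (ga ^ (1 / 4 : ℝ))⁻¹ * p ≤ (ga ^ (1 / 4 : ℝ))⁻¹ * (ga ^ (1 / 4 : ℝ) * ga ^ (1 / 4 : ℝ)) :=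
    mul_le_mul_of_nonneg_left (hp.trans e2.le) (inv_nonneg.2 hs.le)
  have h3 : (ga ^ (1 / 4 : ℝ))⁻¹ * (ga ^ (1 / 4 : ℝ) * ga ^ (1 / 4 : ℝ)) = ga ^ (1 / 4 : ℝ) := by
    field_simp
  have h4 := Real.add_one_le_exp (ga ^ (1 / 4 : ℝ))
  linarith

/-- the test `lam` on an event -/
theorem ce_exp_ind {Om κ : Type*} [Fintype Om] (P : FP Om) (Z : Om → κ) (A : Om → Prop) (lam : ℝ) {w : Om} (hw : P.p w ≠ 0) :
    P.ce Z (fun v => Real.exp (lam * ind (A v))) w = 1 + (Real.exp lam - 1) * P.ce Z (fun v => ind (A v)) w := by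
  have e : (fun v => Real.exp (lam * ind (A v))) = fun v => 1 + (Real.exp lam - 1) * ind (A v) := by
    funext v
    by_cases hA : A v
    · rw [ind_of hA, mul_one, mul_one]; ring
    · rw [ind_not hA, mul_zero, mul_zero, Real.exp_zero, add_zero]
  rw [e, P.ce_add, P.ce_smul, P.ce_const Z 1 hw]

/-- **RARITY OF A LARGE OWN DENSITY** of a set of letters of small mass, scale-free; `ga` = bound for the lower mass squared -/
theorem rare_top (hs : SatA (D.P h t) (BB D t) N S (LL U) (Dep D t)) (hN : ∀ J ∈ S, 0 ≤ N J) (hKS : K0 ∈ S)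
    (hJ0 : J0 ∈ above S K0)
    (hC : Fac (fun w : Pt K X β φ => (w.1, BB D t K0 w)) (Cl (φ := φ) D U t K0))
    {A : Pt K X β φ → Prop} (hA : Fac (fun w => (LL U J0 w, lo (LL U) J0 w, BB D t J0 w)) A)
    {ga kap : ℝ} (hg : 0 < ga) (hg1 : ga ≤ 1) (hk : ga ^ (1 / 4 : ℝ) ≤ kap * Real.log (1 / ga) / 8)
    (hp : ∀ w, (D.P h t).p w ≠ 0 → (D.P h t).ce (fun v => (lo (LL U) J0 v, BB D t J0 v)) (fun v => ind (A v)) w ≤
      Real.sqrt ga)
    {w0 : Pt K X β φ} (hw0 : (D.P h t).p w0 ≠ 0)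
    (hE0 : kap ≤ (D.P h t).ce (fun v => (v.1, BB D t K0 v)) (fun v => ind (A v)) w0) :
    N J0 * (kap * Real.log (1 / ga) / 8) ≤ 2 * N K0 * (Real.log (1 / (D.P h t).ce (Cl D U t K0)
      (fun v => ind (kap ≤ (D.P h t).ce (fun v => (v.1, BB D t K0 v)) (fun v => ind (A v)) v)) w0) + 1) := by
  classical
  have fpsi : Fac (fun w : Pt K X β φ => (LL U J0 w, lo (LL U) J0 w, BB D t J0 w))
      (fun v => 1 / 4 * Real.log (1 / ga) * ind (A v)) := by
    intro a b hab
    show 1 / 4 * Real.log (1 / ga) * ind (A a) = 1 / 4 * Real.log (1 / ga) * ind (A b)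
    rw [hA a b hab]
  refine rare_cls hs hN hKS hJ0 hC (psi := fun v => 1 / 4 * Real.log (1 / ga) * ind (A v)) fpsi
    (E := fun w => kap ≤ (D.P h t).ce (fun v => (v.1, BB D t K0 v)) (fun v => ind (A v)) w)
    (df := ga ^ (1 / 4 : ℝ)) (Lm := kap * Real.log (1 / ga) / 8) ?_ hw0 hE0 ?_ ?_
  · intro a b hab
    show (kap ≤ _) = (kap ≤ _)
    rw [(D.P h t).ce_fac (fun v : Pt K X β φ => (v.1, BB D t K0 v)) _ a b hab]
  · intro w hw _ _
    rw [ce_exp_ind _ _ _ _ hw]
    exact num_test hg hg1 ((D.P h t).ce_nonneg (fun _ _ => ind_nonneg _) w) (hp w hw)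
  · intro w hw _ hEw
    rw [(D.P h t).ce_smul]
    have hl : 0 ≤ Real.log (1 / ga) := Real.log_nonneg (by rw [le_div_iff₀ hg, one_mul]; exact hg1)
    have h1 := mul_le_mul_of_nonneg_left hEw (show 0 ≤ 1 / 4 * Real.log (1 / ga) by positivity)
    linarith

/-- the conclusion as a bound for the class probability -/
theorem rare_exp {a b L q : ℝ} (hb : 0 < b) (hq : 0 < q) (h : a * L ≤ 2 * b * (Real.log (1 / q) + 1)) :
    q ≤ Real.exp (1 - a * L / (2 * b)) := by
  have h1 : a * L / (2 * b) ≤ Real.log (1 / q) + 1 := by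
    rw [div_le_iff₀ (by positivity)]
    linarith
  have h2 : Real.log q ≤ 1 - a * L / (2 * b) := by
    rw [one_div, Real.log_inv] at h1
    linarith
  calc q = Real.exp (Real.log q) := (Real.exp_log hq).symm
    _ ≤ _ := Real.exp_le_exp.2 h2

end

end Pool.Agent.GMH.Qui
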