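import Pool.Agent.GMH.TD10
import Pool.Agent.GMH.TD4

/-!
# GMH/RZ1 (helper36): a thin static relation between two complementary groups of vertices, one epoch

`C`, `E` complementary groups of vertices (`Cpl`), `Hr` a static relation at the half step `ν` (function of the letters and of
the public information), `Epz` an epoch: start event `S`, length `σ` (stopping time of the public information).
World `Wz ν w`: hidden point and public cell at `ν` fixed; cells `cz`, rows `Rwz`, potentials `Phz`, weights `wz`.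
* `epoch_z` : `E 1_S 1_Hr g(σ) ≤ x/2 E 1_S g(σ) + covers + 6 / (x (M+1)) P(S)` for weights `g` which see the hidden point, the
  points of `C` and the public information.
-/

set_option autoImplicit false
set_option linter.unusedSectionVars false

namespace Pool.Agent.GMH.RZ

open Finset Pool.Agent.PWZ Pool.Agent.M3 Pool.Agent.GM Pool.Agent.GM.Harm Pool.Agent.GMH Pool.Agent.GMH.NZ
open Pool.Agent.GMH.V3 Pool.Agent.GMH.Gdy Pool.Agent.GMH.TD

variable {X β γ φ υ : Type} [Fintype X] [Fintype β] [Fintype φ] [Nonempty X] [Nonempty β]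
variable {D : HD (Fin 3) X β γ φ} {al : ℝ} (h : D.Thick al) (v : ℕ → Finset (Fin 3) → X → (Fin 3 → β) → υ)

/-- complementary groups of vertices -/
def Cpl (C E : Finset (Fin 3)) : Prop := ∀ j, j ∈ C ↔ j ∉ E

theorem Cpl.swap {C E : Finset (Fin 3)} (hc : Cpl C E) : Cpl E C := fun j => by
  have := hc j
  tauto

/-- the position `w` with the points `b` at the vertices of `J` -/
def put (J : Finset (Fin 3)) (w : Pt (Fin 3) X β φ) (b : Fin 3 → Option β) : Pt (Fin 3) X β φ :=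
  (w.1, fun j => if j ∈ J then (b j).getD (w.2.1 j) else w.2.1 j, w.2.2)

/-- hidden point and public cell at `ν` as at `w` -/
noncomputable def Wz (ν : ℕ) (w : Pt (Fin 3) X β φ) : FP (Pt (Fin 3) X β φ) :=
  (D.P h 0).cond fun u => (u.1, NPr v D ν u) = (w.1, NPr v D ν w)

/-- cells of the group `J` at the half step `ν + s` (at most `2 T`) -/
def cz (D : HD (Fin 3) X β γ φ) (T : ℕ) (J : Finset (Fin 3)) (ν s : ℕ) (w : Pt (Fin 3) X β φ) : Fin 3 → Option γ :=
  fun j => if j ∈ J then some (cel D T j ν s w) else Option.none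

/-- the relation in the world of `w` : points `b` at `C`, `b'` at `E` -/
def Rlz (D : HD (Fin 3) X β γ φ) (C E : Finset (Fin 3)) (ν : ℕ) (Hr : Pt (Fin 3) X β φ → Prop) (w : Pt (Fin 3) X β φ)
    (b b' : Fin 3 → Option β) : Prop :=
  ((∀ j ∈ C, b j ≠ Option.none) ∧ ∀ j ∈ E, b' j ≠ Option.none) ∧
    NPr v D ν (put C (put E w b') b) = NPr v D ν w ∧ Hr (put C (put E w b') b)

/-- rows of a sample of points of `C`, as sets of points of `E` -/
def Rwz (D : HD (Fin 3) X β γ φ) (C E : Finset (Fin 3)) (ν : ℕ) (Hr : Pt (Fin 3) X β φ → Prop) {M : ℕ}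
    (us : Fin M → Fin 3 → Option β) (w : Pt (Fin 3) X β φ) : ℕ → Pt (Fin 3) X β φ → Prop :=
  rows (row (PJ E) (Rlz v D C E ν Hr w)) us

/-- potential of the cover of the group `E` by the rows of a sample of points of `C`, in the world of `w`, at `ν + s` -/
noncomputable def Phz (T : ℕ) (C E : Finset (Fin 3)) (ν : ℕ) (Hr : Pt (Fin 3) X β φ → Prop) (x : ℝ) {M : ℕ}
    (us : Fin M → Fin 3 → Option β) (s : ℕ) (w : Pt (Fin 3) X β φ) : ℝ :=
  Gdy.Phi (Wz h v ν w) (cz D T E ν) x (Rwz v D C E ν Hr us w) M s w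

/-- weight of a sample of points of `C` in the world of `w` -/
noncomputable def wz (C : Finset (Fin 3)) (ν : ℕ) {M : ℕ} (us : Fin M → Fin 3 → Option β) (w : Pt (Fin 3) X β φ) : ℝ :=
  sw (fun a => (Wz h v ν w).Pr fun y => PJ C y = a) us

/-- one epoch -/
structure Epz (D : HD (Fin 3) X β γ φ) (T ν : ℕ) (S : Pt (Fin 3) X β φ → Prop) (σ : Pt (Fin 3) X β φ → ℕ) : Prop where
  fS : ∀ a b, NPr v D ν a = NPr v D ν b → (S a ↔ S b)
  one : ∀ w, 1 ≤ σ w
  cap : ∀ w, ν + σ w ≤ 2 * T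
  stp : ∀ s a b, NPr v D (ν + s) a = NPr v D (ν + s) b → (σ a ≤ s ↔ σ b ≤ s)

/-- a static relation: function of the letters and of the public information -/
def Stz (D : HD (Fin 3) X β γ φ) (ν : ℕ) (Hr : Pt (Fin 3) X β φ → Prop) : Prop :=
  ∀ a b, NPr v D ν a = NPr v D ν b → LJ v univ ν a = LJ v univ ν b → (Hr a ↔ Hr b)

variable {h v}

/-! ### positions -/

theorem put_PJ (J : Finset (Fin 3)) (w u : Pt (Fin 3) X β φ) (j : Fin 3) :
    (put J w (PJ J u)).2.1 j = if j ∈ J then u.2.1 j else w.2.1 j := by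
  show (if j ∈ J then (PJ J u j).getD (w.2.1 j) else w.2.1 j) = _
  by_cases hj : j ∈ J
  · rw [if_pos hj, if_pos hj]
    unfold PJ
    rw [if_pos hj]
    rfl
  · rw [if_neg hj, if_neg hj]

/-- the position `w0` with the points of `u` -/
def rhz (C E : Finset (Fin 3)) (w0 u : Pt (Fin 3) X β φ) : Pt (Fin 3) X β φ := put C (put E w0 (PJ E u)) (PJ C u)

theorem rhz_pt {C E : Finset (Fin 3)} (hc : Cpl C E) (w0 u : Pt (Fin 3) X β φ) : (rhz C E w0 u).2.1 = u.2.1 := by
  funext j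
  unfold rhz
  rw [put_PJ]
  by_cases hj : j ∈ C
  · rw [if_pos hj]
  · rw [if_neg hj, put_PJ, if_pos]
    by_contra hE
    exact hj ((hc j).2 hE)

theorem rhz_hid (C E : Finset (Fin 3)) (w0 u : Pt (Fin 3) X β φ) : (rhz C E w0 u).1 = w0.1 := rfl

theorem Stz.pos {ν : ℕ} {Hr : Pt (Fin 3) X β φ → Prop} (hH : Stz v D ν Hr) {a b : Pt (Fin 3) X β φ}
    (hab : (a.1, a.2.1) = (b.1, b.2.1)) : Hr a ↔ Hr b := hH a b (NPr_pos ν a b hab) (LJ_pos univ ν a b hab)

/-- the pair of the groups is symmetric -/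
theorem put_comm {C E : Finset (Fin 3)} (hc : Cpl C E) (w : Pt (Fin 3) X β φ) (b b' : Fin 3 → Option β) :
    put C (put E w b') b = put E (put C w b) b' := by
  unfold put
  refine Prod.ext rfl (Prod.ext (funext fun j => ?_) rfl)
  show (if j ∈ C then (b j).getD (if j ∈ E then (b' j).getD (w.2.1 j) else w.2.1 j) else
    if j ∈ E then (b' j).getD (w.2.1 j) else w.2.1 j) = (if j ∈ E then (b' j).getD (if j ∈ C then (b j).getD (w.2.1 j)
      else w.2.1 j) else if j ∈ C then (b j).getD (w.2.1 j) else w.2.1 j)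
  by_cases hj : j ∈ C
  · have hE : j ∉ E := (hc j).1 hj
    rw [if_pos hj, if_neg hE, if_neg hE, if_pos hj]
  · have hE : j ∈ E := by
      by_contra hE
      exact hj ((hc j).2 hE)
    rw [if_neg hj, if_pos hE, if_pos hE, if_neg hj]

theorem Rlz_symm {C E : Finset (Fin 3)} (hc : Cpl C E) {ν : ℕ} {Hr : Pt (Fin 3) X β φ → Prop} {w : Pt (Fin 3) X β φ}
    {a b : Fin 3 → Option β} : Rlz v D E C ν Hr w b a ↔ Rlz v D C E ν Hr w a b := by
  unfold Rlz
  rw [put_comm hc]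
  exact and_congr_left' and_comm

theorem PJ_ne {J : Finset (Fin 3)} {u : Pt (Fin 3) X β φ} : ∀ j ∈ J, PJ J u j ≠ Option.none := by
  intro j hj
  unfold PJ
  rw [if_pos hj]
  exact Option.some_ne_none _

/-! ### worlds -/

theorem Wz_ne (ν : ℕ) (w : Pt (Fin 3) X β φ) :
    (D.P h 0).Pr (fun u => (u.1, NPr v D ν u) = (w.1, NPr v D ν w)) ≠ 0 := by
  have h1 : (D.P h 0).Pr (fun u => (u.1, NPr v D ν u) = (w.1, NPr v D ν w)) =
      (FP.unif (X × (Fin 3 → β))).Pr (fun z => (z.1, NPr v D ν (z.1, z.2, w.2.2)) = (w.1, NPr v D ν w)) := by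
    refine Eq.trans ?_ (E_pts h 0 (fun z => ind ((z.1, NPr v D ν (z.1, z.2, w.2.2)) = (w.1, NPr v D ν w))))
    refine (D.P h 0).E_congr fun u _ => ?_
    have e1 : NPr v D ν u = NPr v D ν (u.1, u.2.1, w.2.2) := NPr_pos ν u (u.1, u.2.1, w.2.2) rfl
    show ind ((u.1, NPr v D ν u) = (w.1, NPr v D ν w)) = ind ((u.1, NPr v D ν (u.1, u.2.1, w.2.2)) = (w.1, NPr v D ν w))
    rw [e1]
  rw [h1]
  exact V3.unif_ne (A := fun z : X × (Fin 3 → β) => (z.1, NPr v D ν (z.1, z.2, w.2.2)) =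
    (w.1, NPr v D ν w)) (a := (w.1, w.2.1)) rfl

theorem Wz_supp {ν : ℕ} {w u : Pt (Fin 3) X β φ} (hu : (Wz h v ν w).p u ≠ 0) :
    u.1 = w.1 ∧ NPr v D ν u = NPr v D ν w ∧ (D.P h 0).p u ≠ 0 := by
  have h1 := (FP.cond_p_ne (Wz_ne ν w)).1 hu
  exact ⟨(Prod.mk.inj h1.1).1, (Prod.mk.inj h1.1).2, h1.2⟩

theorem Wz_self {ν : ℕ} {w : Pt (Fin 3) X β φ} (hw : (D.P h 0).p w ≠ 0) : (Wz h v ν w).p w ≠ 0 :=
  (FP.cond_p_ne (Wz_ne ν w)).2 ⟨rfl, hw⟩

theorem Wz_const {ν : ℕ} {w0 u : Pt (Fin 3) X β φ} (hu : (Wz h v ν w0).p u ≠ 0) : Wz h v ν u = Wz h v ν w0 := by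
  obtain ⟨u1, u3, _⟩ := Wz_supp hu
  unfold Wz
  rw [u1, u3]

/-- **the law of the points in a world** -/
theorem Wz_E (hv : Codes D v) (ν : ℕ) (w : Pt (Fin 3) X β φ) (F : Fin 3 → β → ℝ) :
    (Wz h v ν w).E (fun u => ∏ j, F j (u.2.1 j)) = ∏ j, (nuC D (nt ν) w j).E (F j) := by
  have hs : tm ν + 1 ≤ nt ν + 1 := Nat.succ_le_succ (tm_nt ν)
  have h0 := Wz_ne (h := h) (v := v) ν w
  set Z : ℝ := ((FP.unif X).Pr (cX D v (tm ν + 1) (nt ν) w) * ∏ j, (FP.unif β).Pr (cY D (nt ν) w j)) *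
    (muC D v (tm ν + 1) (nt ν) w).E (fun x => ind (x = w.1)) with hZ
  have key : ∀ G : Fin 3 → β → ℝ, (D.P h 0).E (fun u => ind ((u.1, NPr v D ν u) = (w.1, NPr v D ν w)) *
      ∏ j, G j (u.2.1 j)) = Z * ∏ j, (nuC D (nt ν) w j).E (G j) := by
    intro G
    have h1 := cell_E (h := h) hv 0 hs w (fun x => ind (x = w.1)) G
    rw [hZ, mul_assoc, ← h1]
    refine (D.P h 0).E_congr fun u _ => ?_
    have e5 : ind ((u.1, NPr v D ν u) = (w.1, NPr v D ν w)) =
        ind (NP D v (tm ν + 1) (nt ν) u = NP D v (tm ν + 1) (nt ν) w) * ind (u.1 = w.1) := by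
      rw [← ind_and]
      refine ind_cg ?_
      rw [Prod.mk.injEq]
      exact ⟨fun hh => ⟨hh.2, hh.1⟩, fun hh => ⟨hh.2, hh.1⟩⟩
    rw [e5]
    ring
  have k1 := key F
  have k0 := key fun _ _ => 1
  simp only [FP.E_const, Finset.prod_const_one, mul_one] at k0
  have k0' : (D.P h 0).Pr (fun u => (u.1, NPr v D ν u) = (w.1, NPr v D ν w)) = Z := k0
  unfold Wz
  rw [FP.cond_E h0, k1, k0']
  rw [k0'] at h0
  field_simp

/-- the event that the points of `J` are given -/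
theorem ind_PJ (J : Finset (Fin 3)) (u a : Pt (Fin 3) X β φ) :
    ind (PJ J u = PJ J a) = ∏ j, (if j ∈ J then ind (u.2.1 j = a.2.1 j) else 1) := by
  rw [ind_cg (TD.PJ_iff (J := J) (a := u) (b := a))]
  by_cases hh : ∀ j ∈ J, u.2.1 j = a.2.1 j
  · rw [ind_of hh]
    refine (Finset.prod_eq_one fun j _ => ?_).symm
    by_cases hj : j ∈ J
    · rw [if_pos hj, ind_of (hh j hj)]
    · rw [if_neg hj]
  · rw [ind_not hh]
    push Not at hh
    obtain ⟨j, hj, hne⟩ := hh
    refine (Finset.prod_eq_zero (mem_univ j) ?_).symm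
    rw [if_pos hj, ind_not hne]

/-- **in a world the points of complementary groups are independent** -/
theorem Wz_indep (hv : Codes D v) {C E : Finset (Fin 3)} (hc : Cpl C E) (ν : ℕ) (w : Pt (Fin 3) X β φ) :
    (Wz h v ν w).Indep (PJ C) (PJ E) := by
  refine FP.indep_of_m _ fun a b _ _ => ?_
  set A : Fin 3 → β → ℝ := fun j x => if j ∈ C then ind (x = a.2.1 j) else 1 with hA
  set B : Fin 3 → β → ℝ := fun j x => if j ∈ E then ind (x = b.2.1 j) else 1 with hB
  have e1 : (Wz h v ν w).E (fun u => ind (PJ C u = PJ C a) * ind (PJ E u = PJ E b)) =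
      ∏ j, (nuC D (nt ν) w j).E (fun x => A j x * B j x) := by
    rw [← Wz_E hv ν w fun j x => A j x * B j x]
    refine FP.E_congr _ fun u _ => ?_
    rw [ind_PJ, ind_PJ, Finset.prod_mul_distrib]
  have e2 : (Wz h v ν w).m (PJ C) a = ∏ j, (nuC D (nt ν) w j).E (A j) := by
    rw [← Wz_E hv ν w A]
    exact FP.E_congr _ fun u _ => ind_PJ C u a
  have e3 : (Wz h v ν w).m (PJ E) b = ∏ j, (nuC D (nt ν) w j).E (B j) := by
    rw [← Wz_E hv ν w B]
    exact FP.E_congr _ fun u _ => ind_PJ E u b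
  rw [e1, e2, e3, ← Finset.prod_mul_distrib]
  refine Finset.prod_congr rfl fun j _ => ?_
  by_cases hj : j ∈ C
  · have hE : j ∉ E := (hc j).1 hj
    simp only [hA, hB, if_pos hj, if_neg hE, mul_one]
    rw [FP.E_const, mul_one]
  · simp only [hA, hB, if_neg hj, one_mul]
    rw [FP.E_const, one_mul]

/-! ### cells -/

theorem cz_fac (T : ℕ) (J : Finset (Fin 3)) (ν s : ℕ) : Fac (PJ (φ := φ) J) (cz D T J ν s) := by
  intro a b hab
  have h1 := TD.PJ_iff.1 hab
  unfold cz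
  funext j
  by_cases hj : j ∈ J
  · rw [if_pos hj, if_pos hj]
    unfold cel
    rw [h1 j hj]
  · rw [if_neg hj, if_neg hj]

theorem cz_iff {T : ℕ} {J : Finset (Fin 3)} {ν s : ℕ} {a b : Pt (Fin 3) X β φ} :
    cz D T J ν s a = cz D T J ν s b ↔ ∀ j ∈ J, cel D T j ν s a = cel D T j ν s b := by
  constructor
  · intro hh j hj
    have h1 := congrFun hh j
    unfold cz at h1
    rw [if_pos hj, if_pos hj] at h1
    exact Option.some.inj h1
  · intro hh
    unfold cz
    funext j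
    by_cases hj : j ∈ J
    · rw [if_pos hj, if_pos hj, hh j hj]
    · rw [if_neg hj, if_neg hj]

theorem cz_filt (T : ℕ) (J : Finset (Fin 3)) (ν : ℕ) : Filt (cz (φ := φ) D T J ν) := by
  intro s a b hab
  rw [cz_iff] at hab ⊢
  intro j hj
  exact cel_filt T j ν s a b (hab j hj)

/-- one point: the cells shrink at most by the factor `2` -/
theorem nu_half {dg : ℕ → X → ℝ} {prr : ℕ → Fin 3 → φ → φ} {T : ℕ} {Lam : ℝ} (H : D.Hyp dg prr al T Lam)
    (j : Fin 3) (ν : ℕ) {w u : Pt (Fin 3) X β φ} (s : ℕ)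
    (hq : D.qb (nt ν) (u.2.1 j) = D.qb (nt ν) (w.2.1 j)) :
    (nuC D (nt ν) w j).E (fun b => ind (D.qb (nt (min (ν + s) (2 * T))) b = D.qb (nt (min (ν + s) (2 * T))) (u.2.1 j))) ≤
      2 * (nuC D (nt ν) w j).E (fun b => ind (D.qb (nt (min (ν + (s + 1)) (2 * T))) b =
        D.qb (nt (min (ν + (s + 1)) (2 * T))) (u.2.1 j))) := by
  classical
  by_cases hn : nt (min (ν + (s + 1)) (2 * T)) = nt (min (ν + s) (2 * T))
  · rw [hn]
    have := (nuC D (nt ν) w j).E_nonneg (f := fun b => ind (D.qb (nt (min (ν + s) (2 * T))) b =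
      D.qb (nt (min (ν + s) (2 * T))) (u.2.1 j))) fun _ _ => ind_nonneg _
    linarith
  · have hlt : ν + s < 2 * T := by
      by_contra hc
      refine hn ?_
      rw [min_eq_right (by omega), min_eq_right (by omega)]
    have e0 : min (ν + s) (2 * T) = ν + s := min_eq_left (by omega)
    have e1 : min (ν + (s + 1)) (2 * T) = ν + s + 1 := min_eq_left (by omega)
    rw [e0, e1] at hn ⊢
    have hn1 : nt (ν + s + 1) = nt (ν + s) + 1 := by
      unfold nt at hn ⊢
      omega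
    have hT : nt (ν + s) < T := by
      unfold nt at hn1 ⊢
      omega
    have hνn : nt ν ≤ nt (ν + s) := nt_mono (by omega)
    have hY : (FP.unif β).Pr (cY D (nt ν) w j) ≠ 0 := V3.unif_ne (cY_self (nt ν) w j)
    have mass : ∀ n, nt ν ≤ n → (nuC D (nt ν) w j).E (fun b => ind (D.qb n b = D.qb n (u.2.1 j))) =
        ((D.cB n (u.2.1 j)).card : ℝ) / Fintype.card β / (FP.unif β).Pr (cY D (nt ν) w j) := by
      intro n hn
      unfold nuC
      rw [FP.cond_E hY]
      congr 1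
      rw [FP.unif_E]
      congr 1
      unfold HD.cB
      rw [Finset.card_filter]
      push_cast
      refine Finset.sum_congr rfl fun b _ => ?_
      by_cases hb : D.qb n b = D.qb n (u.2.1 j)
      · have : cY D (nt ν) w j b := by
          show D.qb (nt ν) b = D.qb (nt ν) (w.2.1 j)
          rw [qb_mono D hn hb, hq]
        rw [ind_of this, ind_of hb, if_pos hb, one_mul]
      · rw [ind_not hb, if_neg hb, mul_zero]
    rw [hn1, mass _ hνn, mass _ (by omega), ← mul_div_assoc, ← mul_div_assoc]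
    refine div_le_div_of_nonneg_right (div_le_div_of_nonneg_right ?_ (Nat.cast_nonneg _)) ((FP.unif β).Pr_nonneg _)
    rcases H.half (nt (ν + s)) hT with h1 | h1
    · rw [h1 (u.2.1 j)]
      have : (0 : ℝ) ≤ (D.cB (nt (ν + s)) (u.2.1 j)).card := Nat.cast_nonneg _
      linarith
    · have := h1 (u.2.1 j)
      rw [← this]
      push_cast
      exact le_rfl

/-- mass of a cell -/
theorem m_cz (hv : Codes D v) (T : ℕ) (J : Finset (Fin 3)) (ν s : ℕ) (w u : Pt (Fin 3) X β φ) :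
    (Wz h v ν w).m (cz D T J ν s) u = ∏ j, (nuC D (nt ν) w j).E (fun b => if j ∈ J then
      ind (D.qb (nt (min (ν + s) (2 * T))) b = D.qb (nt (min (ν + s) (2 * T))) (u.2.1 j)) else 1) := by
  rw [← Wz_E hv ν w fun j b => if j ∈ J then
      ind (D.qb (nt (min (ν + s) (2 * T))) b = D.qb (nt (min (ν + s) (2 * T))) (u.2.1 j)) else 1]
  refine FP.E_congr _ fun y _ => ?_
  rw [ind_cg (cz_iff (D := D) (T := T) (J := J) (ν := ν) (s := s) (a := y) (b := u))]
  by_cases hh : ∀ j ∈ J, cel D T j ν s y = cel D T j ν s u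
  · rw [ind_of hh]
    refine (Finset.prod_eq_one fun j _ => ?_).symm
    by_cases hj : j ∈ J
    · rw [if_pos hj]
      exact ind_of (hh j hj)
    · rw [if_neg hj]
  · rw [ind_not hh]
    push Not at hh
    obtain ⟨j, hj, hne⟩ := hh
    refine (Finset.prod_eq_zero (mem_univ j) ?_).symm
    rw [if_pos hj]
    exact ind_not hne

theorem cz_half {dg : ℕ → X → ℝ} {prr : ℕ → Fin 3 → φ → φ} {T : ℕ} {Lam : ℝ} (H : D.Hyp dg prr al T Lam)
    (hv : Codes D v) (J : Finset (Fin 3)) (ν : ℕ) {w : Pt (Fin 3) X β φ} (s : ℕ) {u : Pt (Fin 3) X β φ}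
    (hu : (Wz h v ν w).p u ≠ 0) :
    (Wz h v ν w).m (cz D T J ν s) u ≤ 8 * (Wz h v ν w).m (cz D T J ν (s + 1)) u := by
  obtain ⟨_, u3, _⟩ := Wz_supp hu
  have hq : ∀ j, D.qb (nt ν) (u.2.1 j) = D.qb (nt ν) (w.2.1 j) := fun j =>
    congrFun (congrArg Prod.snd (congrArg Prod.snd u3)) j
  rw [m_cz hv, m_cz hv]
  have h1 : ∏ j : Fin 3, (nuC D (nt ν) w j).E (fun b => if j ∈ J then
      ind (D.qb (nt (min (ν + s) (2 * T))) b = D.qb (nt (min (ν + s) (2 * T))) (u.2.1 j)) else 1) ≤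
      ∏ j : Fin 3, (2 * (nuC D (nt ν) w j).E (fun b => if j ∈ J then
        ind (D.qb (nt (min (ν + (s + 1)) (2 * T))) b = D.qb (nt (min (ν + (s + 1)) (2 * T))) (u.2.1 j)) else 1)) := by
    refine Finset.prod_le_prod (fun j _ => FP.E_nonneg _ fun b _ => ?_) fun j _ => ?_
    · split_ifs
      · exact ind_nonneg _
      · exact zero_le_one
    · by_cases hj : j ∈ J
      · simp only [if_pos hj]
        exact nu_half H j ν s (hq j)
      · simp only [if_neg hj]
        rw [FP.E_const]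
        norm_num
  refine h1.trans (le_of_eq ?_)
  rw [Finset.prod_mul_distrib, Finset.prod_const, Finset.card_univ, Fintype.card_fin]
  norm_num

/-! ### the position with the points of `u` -/

theorem rhz_NPr (hv : Codes D v) {C E : Finset (Fin 3)} (hc : Cpl C E) {T ν s : ℕ} (hs : ν + s ≤ 2 * T)
    {w0 u u' : Pt (Fin 3) X β φ}
    (hcc : pair (cz D T C ν) (cz D T E ν) s u = pair (cz D T C ν) (cz D T E ν) s u') :
    NPr v D (ν + s) (rhz C E w0 u) = NPr v D (ν + s) (rhz C E w0 u') := by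
  have hc1 : cz D T C ν s u = cz D T C ν s u' := congrArg Prod.fst hcc
  have hc2 : cz D T E ν s u = cz D T E ν s u' := congrArg Prod.snd hcc
  rw [cz_iff] at hc1 hc2
  have hq : ∀ j, D.qb (nt (ν + s)) ((rhz C E w0 u).2.1 j) = D.qb (nt (ν + s)) ((rhz C E w0 u').2.1 j) := by
    intro j
    rw [rhz_pt hc, rhz_pt hc]
    have h1 : cel D T j ν s u = cel D T j ν s u' := by
      by_cases hj : j ∈ C
      · exact hc1 j hj
      · exact hc2 j (by
          by_contra hE
          exact hj ((hc j).2 hE))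
    unfold cel at h1
    rwa [min_eq_left hs] at h1
  unfold NPr NP nd
  refine Prod.ext ?_ (Prod.ext rfl (funext hq))
  exact Um_codes hv (Nat.succ_le_succ (tm_nt (ν + s))) ∅ w0.1 (fun j hj => absurd hj (Finset.notMem_empty j)) hq

theorem rhz_pos {C E : Finset (Fin 3)} (hc : Cpl C E) {ν : ℕ} {w0 u : Pt (Fin 3) X β φ} (hu : (Wz h v ν w0).p u ≠ 0) :
    ((rhz C E w0 u).1, (rhz C E w0 u).2.1) = (u.1, u.2.1) := Prod.ext (Wz_supp hu).1.symm (rhz_pt hc w0 u)

theorem Rlz_wd {C E : Finset (Fin 3)} (hc : Cpl C E) {ν : ℕ} {Hr : Pt (Fin 3) X β φ → Prop} (hH : Stz v D ν Hr)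
    {w u : Pt (Fin 3) X β φ} (hu : (Wz h v ν w).p u ≠ 0) : Rlz v D C E ν Hr w (PJ C u) (PJ E u) ↔ Hr u := by
  have hp := rhz_pos hc hu
  unfold Rlz
  have e : put C (put E w (PJ E u)) (PJ C u) = rhz C E w u := rfl
  rw [e, NPr_pos ν _ _ hp, (Wz_supp hu).2.1, and_iff_right rfl, and_iff_right ⟨PJ_ne, PJ_ne⟩]
  exact hH.pos hp

/-- the relation is constant on the world -/
theorem Rlz_const {C E : Finset (Fin 3)} (hc : Cpl C E) {ν : ℕ} {Hr : Pt (Fin 3) X β φ → Prop} (hH : Stz v D ν Hr)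
    {w0 u : Pt (Fin 3) X β φ} (hu : (Wz h v ν w0).p u ≠ 0) (a b : Fin 3 → Option β) :
    Rlz v D C E ν Hr u a b ↔ Rlz v D C E ν Hr w0 a b := by
  unfold Rlz
  refine and_congr_right fun hab => ?_
  obtain ⟨ha, hb⟩ := hab
  obtain ⟨u1, u3, _⟩ := Wz_supp hu
  have hp : ((put C (put E u b) a).1, (put C (put E u b) a).2.1) =
      ((put C (put E w0 b) a).1, (put C (put E w0 b) a).2.1) := by
    refine Prod.ext u1 (funext fun j => ?_)
    show (if j ∈ C then (a j).getD (if j ∈ E then (b j).getD (u.2.1 j) else u.2.1 j) else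
      if j ∈ E then (b j).getD (u.2.1 j) else u.2.1 j) = (if j ∈ C then (a j).getD (if j ∈ E then (b j).getD (w0.2.1 j)
        else w0.2.1 j) else if j ∈ E then (b j).getD (w0.2.1 j) else w0.2.1 j)
    by_cases hj : j ∈ C
    · rw [if_pos hj, if_pos hj]
      obtain ⟨z, hz⟩ := Option.ne_none_iff_exists'.1 (ha j hj)
      rw [hz]
      rfl
    · have hE : j ∈ E := by
        by_contra hE
        exact hj ((hc j).2 hE)
      rw [if_neg hj, if_neg hj, if_pos hE, if_pos hE]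
      obtain ⟨z, hz⟩ := Option.ne_none_iff_exists'.1 (hb j hE)
      rw [hz]
      rfl
  rw [NPr_pos ν _ _ hp, u3, hH.pos hp]

theorem wz_const {C : Finset (Fin 3)} {ν M : ℕ} {w0 u : Pt (Fin 3) X β φ} (hu : (Wz h v ν w0).p u ≠ 0)
    (us : Fin M → Fin 3 → Option β) : wz h v C ν us u = wz h v C ν us w0 := by
  unfold wz
  rw [Wz_const hu]

theorem Phz_const {C E : Finset (Fin 3)} (hc : Cpl C E) {ν : ℕ} {Hr : Pt (Fin 3) X β φ → Prop} (hH : Stz v D ν Hr)
    {x : ℝ} {T M s : ℕ} {w0 u : Pt (Fin 3) X β φ} (hu : (Wz h v ν w0).p u ≠ 0) (us : Fin M → Fin 3 → Option β) :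
    Phz h v T C E ν Hr x us s u =
      Gdy.Phi (Wz h v ν w0) (cz D T E ν) x (rows (row (PJ E) (Rlz v D C E ν Hr w0)) us) M s u := by
  have e1 : Rlz v D C E ν Hr u = Rlz v D C E ν Hr w0 := by
    funext a b
    exact propext (Rlz_const hc hH hu a b)
  unfold Phz Rwz
  rw [Wz_const hu, e1]

/-! ### one world -/

theorem epoch_wz (hv : Codes D v) {dg : ℕ → X → ℝ} {prr : ℕ → Fin 3 → φ → φ} {T : ℕ} {Lam : ℝ}
    (H : D.Hyp dg prr al T Lam) {C E : Finset (Fin 3)} (hc : Cpl C E) {ν : ℕ} {Hr : Pt (Fin 3) X β φ → Prop}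
    (hH : Stz v D ν Hr) {S : Pt (Fin 3) X β φ → Prop} {σ : Pt (Fin 3) X β φ → ℕ} (hE : Epz v D T ν S σ)
    {g : ℕ → Pt (Fin 3) X β φ → ℝ} (hg : ∀ s, Fac (fun w : Pt (Fin 3) X β φ => (w.1, PJ C w, NPr v D (ν + s) w)) (g s))
    (hg0 : ∀ s w, 0 ≤ g s w) (hg1 : ∀ s w, g s w ≤ 1) {x : ℝ} (hx : 0 < x) (M : ℕ) {w0 : Pt (Fin 3) X β φ} :
    (Wz h v ν w0).E (fun w => ind (Hr w) * g (σ w) w) ≤
      x / 2 * (Wz h v ν w0).E (fun w => g (σ w) w) +
      (Wz h v ν w0).E (fun w => ∑ us : Fin M → Fin 3 → Option β, wz h v C ν us w *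
        (8 * x * Phz h v T C E ν Hr x us (σ w) w + ind (0 < Phz h v T C E ν Hr x us 0 w))) +
      (Wz h v ν w0).E (fun w => ∑ us : Fin M → Fin 3 → Option β, wz h v E ν us w *
        (8 * x * Phz h v T E C ν Hr x us (σ w) w + ind (0 < Phz h v T E C ν Hr x us 0 w))) +
      6 / (x * (M + 1)) := by
  classical
  set W := Wz h v ν w0 with hW
  set U : Pt (Fin 3) X β φ → Fin 3 → Option β := PJ C with hU
  set V : Pt (Fin 3) X β φ → Fin 3 → Option β := PJ E with hV
  set R := Rlz v D C E ν Hr w0 with hR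
  set σ' : Pt (Fin 3) X β φ → ℕ := fun u => σ (rhz C E w0 u) with hσd
  set g' : ℕ → Pt (Fin 3) X β φ → ℝ := fun s u => if ν + s ≤ 2 * T then g s (rhz C E w0 u) else 0 with hgd
  have hσ : Stp (pair (cz D T C ν) (cz D T E ν)) σ' := by
    intro s a b hab
    by_cases hs : ν + s ≤ 2 * T
    · exact hE.stp s _ _ (rhz_NPr hv hc hs hab)
    · have h1 := hE.cap (rhz C E w0 a)
      have h2 := hE.cap (rhz C E w0 b)
      exact iff_of_true (show σ (rhz C E w0 a) ≤ s by omega) (show σ (rhz C E w0 b) ≤ s by omega)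
  have hT : ∀ w, σ' w < 2 * T + 1 := fun w => by
    have h1 := hE.cap (rhz C E w0 w)
    show σ (rhz C E w0 w) < 2 * T + 1
    omega
  have hg' : ∀ s, Fac (fun w => (pair (cz D T C ν) (cz D T E ν) s w, U w)) (g' s) := by
    intro s a b hab
    have h1 : pair (cz D T C ν) (cz D T E ν) s a = pair (cz D T C ν) (cz D T E ν) s b := congrArg Prod.fst hab
    have h2 : PJ C a = PJ C b := congrArg Prod.snd hab
    show (if ν + s ≤ 2 * T then g s (rhz C E w0 a) else 0) = if ν + s ≤ 2 * T then g s (rhz C E w0 b) else 0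
    by_cases hs : ν + s ≤ 2 * T
    · rw [if_pos hs, if_pos hs]
      refine hg s _ _ (Prod.ext rfl (Prod.ext ?_ (rhz_NPr hv hc hs h1)))
      show PJ C (rhz C E w0 a) = PJ C (rhz C E w0 b)
      rw [TD.PJ_iff]
      intro j hj
      rw [rhz_pt hc, rhz_pt hc]
      exact TD.PJ_iff.1 h2 j hj
    · rw [if_neg hs, if_neg hs]
  have hg0' : ∀ s w, 0 ≤ g' s w := by
    intro s w
    show 0 ≤ if ν + s ≤ 2 * T then g s (rhz C E w0 w) else 0
    split_ifs
    · exact hg0 _ _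
    · exact le_rfl
  have hg1' : ∀ s w, g' s w ≤ 1 := by
    intro s w
    show (if ν + s ≤ 2 * T then g s (rhz C E w0 w) else 0) ≤ 1
    split_ifs
    · exact hg1 _ _
    · exact zero_le_one
  have main := world_le (P := W) (U := U) (V := V) (R := R) (cU := cz D T C ν) (cV := cz D T E ν)
    (Wz_indep hv hc ν w0) (cz_fac T C ν) (cz_fac T E ν) (cz_filt T C ν) (cz_filt T E ν) hx
    (h := 8) (by norm_num) (fun s w hw => cz_half H hv C ν s hw) (fun s w hw => cz_half H hv E ν s hw)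
    hσ hT hg' hg0' hg1' M
  -- in the world
  have spos : ∀ a b : Pt (Fin 3) X β φ, (a.1, a.2.1) = (b.1, b.2.1) → σ a = σ b := by
    intro a b hab
    exact le_antisymm ((hE.stp (σ b) a b (NPr_pos _ a b hab)).2 le_rfl) ((hE.stp (σ a) a b (NPr_pos _ a b hab)).1 le_rfl)
  have gpos : ∀ s (a b : Pt (Fin 3) X β φ), (a.1, a.2.1) = (b.1, b.2.1) → g s a = g s b := by
    intro s a b hab
    have h1 : a.1 = b.1 := (Prod.mk.inj hab).1
    have h2 : a.2.1 = b.2.1 := (Prod.mk.inj hab).2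
    refine hg s a b (Prod.ext h1 (Prod.ext ?_ (NPr_pos _ a b hab)))
    show PJ C a = PJ C b
    rw [TD.PJ_iff]
    intro j _
    rw [h2]
  have eσ : ∀ u, W.p u ≠ 0 → σ' u = σ u := fun u hu => spos _ _ (rhz_pos hc hu)
  have eg : ∀ u, W.p u ≠ 0 → g' (σ' u) u = g (σ u) u := by
    intro u hu
    have h1 := hE.cap u
    show (if ν + σ' u ≤ 2 * T then g (σ' u) (rhz C E w0 u) else 0) = _
    rw [eσ u hu, if_pos h1]
    exact gpos _ _ _ (rhz_pos hc hu)
  have e1 : W.E (fun w => ind (R (U w) (V w)) * g' (σ' w) w) = W.E (fun w => ind (Hr w) * g (σ w) w) := by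
    refine W.E_congr fun u hu => ?_
    rw [eg u hu, ind_cg (Rlz_wd hc hH hu)]
  have e2 : W.E (fun w => g' (σ' w) w) = W.E (fun w => g (σ w) w) := W.E_congr eg
  have e3 : ∑ us : Fin M → Fin 3 → Option β, sw (fun a => W.Pr (fun w => U w = a)) us *
        (8 * x * W.E (fun w => Gdy.Phi W (cz D T E ν) x (rows (row V R) us) M (σ' w) w) +
          W.Pr (fun w => 0 < Gdy.Phi W (cz D T E ν) x (rows (row V R) us) M 0 w)) =
      W.E (fun w => ∑ us : Fin M → Fin 3 → Option β, wz h v C ν us w *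
        (8 * x * Phz h v T C E ν Hr x us (σ w) w + ind (0 < Phz h v T C E ν Hr x us 0 w))) := by
    rw [W.E_sum]
    refine Finset.sum_congr rfl fun us _ => ?_
    unfold FP.Pr
    rw [← W.E_smul, ← W.E_add, ← W.E_smul]
    refine W.E_congr fun u hu => ?_
    rw [eσ u hu, wz_const hu, Phz_const hc hH hu, Phz_const hc hH hu]
    rfl
  have e4 : ∑ us : Fin M → Fin 3 → Option β, sw (fun a => W.Pr (fun w => V w = a)) us *
        (8 * x * W.E (fun w => Gdy.Phi W (cz D T C ν) x (rows (row U (fun b a => R a b)) us) M (σ' w) w) +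
          W.Pr (fun w => 0 < Gdy.Phi W (cz D T C ν) x (rows (row U (fun b a => R a b)) us) M 0 w)) =
      W.E (fun w => ∑ us : Fin M → Fin 3 → Option β, wz h v E ν us w *
        (8 * x * Phz h v T E C ν Hr x us (σ w) w + ind (0 < Phz h v T E C ν Hr x us 0 w))) := by
    have eR : (fun b a => R a b) = Rlz v D E C ν Hr w0 := by
      funext b a
      exact propext (Rlz_symm hc).symm
    rw [W.E_sum]
    refine Finset.sum_congr rfl fun us _ => ?_
    unfold FP.Pr
    rw [← W.E_smul, ← W.E_add, ← W.E_smul, eR]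
    refine W.E_congr fun u hu => ?_
    rw [eσ u hu, wz_const hu, Phz_const hc.swap hH hu, Phz_const hc.swap hH hu]
    rfl
  rw [e1, e2, e3, e4] at main
  exact main

/-! ### one epoch -/

/-- **one epoch** -/
theorem epoch_z (hv : Codes D v) {dg : ℕ → X → ℝ} {prr : ℕ → Fin 3 → φ → φ} {T : ℕ} {Lam : ℝ}
    (H : D.Hyp dg prr al T Lam) {C E : Finset (Fin 3)} (hc : Cpl C E) {ν : ℕ} {Hr : Pt (Fin 3) X β φ → Prop}
    (hH : Stz v D ν Hr) {S : Pt (Fin 3) X β φ → Prop} {σ : Pt (Fin 3) X β φ → ℕ} (hE : Epz v D T ν S σ)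
    {g : ℕ → Pt (Fin 3) X β φ → ℝ} (hg : ∀ s, Fac (fun w : Pt (Fin 3) X β φ => (w.1, PJ C w, NPr v D (ν + s) w)) (g s))
    (hg0 : ∀ s w, 0 ≤ g s w) (hg1 : ∀ s w, g s w ≤ 1) {x : ℝ} (hx : 0 < x) (M : ℕ) :
    (D.P h 0).E (fun w => ind (S w) * (ind (Hr w) * g (σ w) w)) ≤
      x / 2 * (D.P h 0).E (fun w => ind (S w) * g (σ w) w) +
      (D.P h 0).E (fun w => ind (S w) * ∑ us : Fin M → Fin 3 → Option β, wz h v C ν us w *
        (8 * x * Phz h v T C E ν Hr x us (σ w) w + ind (0 < Phz h v T C E ν Hr x us 0 w))) +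
      (D.P h 0).E (fun w => ind (S w) * ∑ us : Fin M → Fin 3 → Option β, wz h v E ν us w *
        (8 * x * Phz h v T E C ν Hr x us (σ w) w + ind (0 < Phz h v T E C ν Hr x us 0 w))) +
      6 / (x * (M + 1)) * (D.P h 0).Pr S := by
  classical
  set P := D.P h 0 with hP
  set Z : Pt (Fin 3) X β φ → X × (List υ × (γ × (Fin 3 → γ))) := fun y => (y.1, NPr v D ν y) with hZ
  have hS : Fac Z (fun w => ind (S w)) := Fac.ind fun a b hab => hE.fS a b (congrArg Prod.snd hab)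
  have hce : ∀ (f : Pt (Fin 3) X β φ → ℝ) (w : Pt (Fin 3) X β φ), P.p w ≠ 0 → P.ce Z f w = (Wz h v ν w).E f :=
    fun f w hw => P.ce_eq_cond Z f hw
  have key : ∀ f : Pt (Fin 3) X β φ → ℝ, P.E (fun w => ind (S w) * f w) =
      P.E (fun w => ind (S w) * (Wz h v ν w).E f) := by
    intro f
    rw [← P.E_mul_ce hS f]
    refine P.E_congr fun w hw => ?_
    rw [hce f w hw]
  unfold FP.Pr
  rw [key (fun w => ind (Hr w) * g (σ w) w), key (fun w => g (σ w) w),
    key (fun w => ∑ us : Fin M → Fin 3 → Option β, wz h v C ν us w *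
        (8 * x * Phz h v T C E ν Hr x us (σ w) w + ind (0 < Phz h v T C E ν Hr x us 0 w))),
    key (fun w => ∑ us : Fin M → Fin 3 → Option β, wz h v E ν us w *
        (8 * x * Phz h v T E C ν Hr x us (σ w) w + ind (0 < Phz h v T E C ν Hr x us 0 w))),
    ← P.E_smul, ← P.E_smul, ← P.E_add, ← P.E_add, ← P.E_add]
  refine P.E_mono fun w hw => ?_
  have h2 := epoch_wz (h := h) hv H hc hH hE hg hg0 hg1 hx M (w0 := w)
  have h3 := mul_le_mul_of_nonneg_left h2 (ind_nonneg (S w))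
  refine h3.trans (le_of_eq ?_)
  ring

end Pool.Agent.GMH.RZ
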