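import Pool.Agent.GMH.RZ9

/-!
# GMH/RZ10 (helper36): REST in the run: sums over the public removals

* `rem_end` : a public removal at the substep `s` ends the epoch of `s` at the half step `rho s + 1`;
* `rest_rem` : `∑_s E (removal at s) 1[H (start of the epoch)] g_s ≤ x/2 ∑_s E (removal at s) g_s + errors`, for a thin static
  relation `H` between the groups `C`, `E` of vertices, and weights `g_s` which see the hidden point, the points of `C` and the
  new public information.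
-/

set_option autoImplicit false
set_option linter.unusedSectionVars false

namespace Pool.Agent.GMH.RZ

open Finset Pool.Agent.PWZ Pool.Agent.M3 Pool.Agent.GM Pool.Agent.GM.Harm Pool.Agent.GMH Pool.Agent.GMH.NZ
open Pool.Agent.GMH.V3 Pool.Agent.GMH.TD Pool.Agent.GMH.TP
open Pool.Agent.GMH.Dy Pool.Agent.GMH.MV Pool.Agent.GMH.MVI Pool.Agent.GMH.CK

section gen

variable {X β γ φ υ : Type} [Fintype X] [Fintype β] [Fintype φ] [Nonempty X] [Nonempty β]
variable {D : HD (Fin 3) X β γ φ} {al : ℝ} {h : D.Thick al} {v : ℕ → Finset (Fin 3) → X → (Fin 3 → β) → υ}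
variable {prr : ℕ → Fin 3 → φ → φ} {T : ℕ} {W : Type} [Fintype W] {tb : Tab D prr T W} {M : MS (Om W X β)}

/-! ### positions -/

theorem NP_pos (hM : Rp tb v M) (k : ℕ) {a b : Om W X β} (h1 : a.1 = b.1) (h2 : a.2.2 = b.2.2) : M.NP k a = M.NP k b :=
  (hM.N k a b).2 (NPq_pos k h1 h2)

theorem sgz_pos (hM : Rp tb v M) (ν : ℕ) {a b : Om W X β} (h1 : a.1 = b.1) (h2 : a.2.2 = b.2.2) :
    sgz M T ν a = sgz M T ν b := by
  unfold sgz Edz
  congr 1
  ext s
  simp only [Set.mem_setOf_eq]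
  refine and_congr_right fun _ => or_congr_right (exists_congr fun k => and_congr_right fun _ =>
    and_congr_right fun _ => ?_)
  rw [nu_pos hM k h1 h2]

theorem lt5_pos (hM : Rp tb v M) (s : ℕ) {a b : Om W X β} (h1 : a.1 = b.1) (h2 : a.2.2 = b.2.2) :
    lt5 M M.NP s a ↔ lt5 M M.NP s b := by
  rw [lt5_fac M s a b (NP_pos hM (s + 1) h1 h2)]

/-! ### removals -/

theorem rho_sbt1 (q : ℕ) : rho (sbt q + 1) = q + 1 := by
  unfold rho sbt
  omega

/-- a public removal is a public code -/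
theorem rem_mod (hM : Rp tb v M) {s : ℕ} {w : Om W X β} (hl : lt5 M M.NP s w) : s % 5 = 1 := by
  obtain ⟨h1, h2⟩ := hl
  have h3 := (hM.cd s).1 h1
  by_contra h4
  have h5 : rho (s + 1) = rho s := by
    unfold rho
    omega
  have h6 : M.P.m (M.NP (s + 1)) w = M.P.m (M.NP s) w := by
    refine M.P.m_congr (fun a b hab => ?_) (fun a b hab => ?_) w
    · rw [hM.NPr] at hab ⊢
      rwa [h5] at hab
    · rw [hM.NPr] at hab ⊢
      rwa [h5]
  have h7 := M.P.m_nonneg (M.NP s) w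
  rw [h6] at h2
  linarith

/-- **a public removal ends the epoch** -/
theorem rem_end (hM : Rp tb v M) {s : ℕ} (hs : s < 5 * T) {w : Om W X β} (hl : lt5 M M.NP s w) :
    nu M s w < 5 * T - 3 ∧ rho (nu M s w) + sgz M T (nu M s w) w = rho s + 1 ∧ sbt (rho s) = s := by
  have h1 := rem_mod hM hl
  obtain ⟨t, rfl⟩ : ∃ t, s = 5 * t + 1 := ⟨s / 5, by omega⟩
  have ht : t < T := by omega
  set k := nu M (5 * t + 1) w with hk
  have hks : k ≤ 5 * t + 1 := nu_le9 M (5 * t + 1) w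
  have hr : rho k ≤ 2 * t + 1 := by
    have := rho_mono hks
    rwa [rho_1] at this
  have h2 : nu M (5 * t + 1 + 1) w = 5 * t + 1 + 1 := stg_pos (C := C0 M) (Or.inl hl)
  refine ⟨by omega, ?_, by rw [rho_1, sbt_1]⟩
  rw [rho_1]
  have h3 : sgz M T k w ≤ 2 * t + 1 + 1 - rho k := by
    refine sgz_le.2 ⟨by omega, Or.inr ⟨5 * t + 1 + 1, by omega, ?_, h2⟩⟩
    have e1 : rho k + (2 * t + 1 + 1 - rho k) = 2 * (t + 1) := by omega
    rw [e1, sbt_0]
    omega
  have h4 : ¬ sgz M T k w ≤ 2 * t + 1 - rho k := by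
    have e1 : rho k + (2 * t + 1 - rho k) = 2 * t + 1 := by omega
    intro h5
    obtain ⟨-, h6⟩ := sgz_le.1 h5
    rw [e1] at h6
    rcases h6 with h6 | ⟨j, h7, h8, h9⟩
    · omega
    · rw [sbt_1] at h8
      have h10 := stg_mono (C := C0 M) h8 w
      have h11 : nu M j w ≤ nu M (5 * t + 1) w := h10
      rw [h9, ← hk] at h11
      omega
  omega

/-- weights at the end of an epoch -/
noncomputable def Gmz (M : MS (Om W X β)) (g : ℕ → Om W X β → ℝ) (k s : ℕ) (w : Om W X β) : ℝ :=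
  if s = 0 then 0 else ind (nu M (sbt (rho k + s - 1)) w = k ∧ lt5 M M.NP (sbt (rho k + s - 1)) w) *
    g (sbt (rho k + s - 1)) w

theorem Gmz_nonneg {g : ℕ → Om W X β → ℝ} (hg0 : ∀ s w, 0 ≤ g s w) (k s : ℕ) (w : Om W X β) : 0 ≤ Gmz M g k s w := by
  unfold Gmz
  split_ifs
  · exact le_rfl
  · exact mul_nonneg (ind_nonneg _) (hg0 _ _)

theorem Gmz_le_one {g : ℕ → Om W X β → ℝ} (hg0 : ∀ s w, 0 ≤ g s w) (hg1 : ∀ s w, g s w ≤ 1) (k s : ℕ) (w : Om W X β) :
    Gmz M g k s w ≤ 1 := by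
  unfold Gmz
  split_ifs
  · exact zero_le_one
  · exact mul_le_one₀ (ind_le_one _) (hg0 _ _) (hg1 _ _)

/-- the removals are at the ends of the epochs -/
theorem sum_to (hM : Rp tb v M) {g : ℕ → Om W X β → ℝ} (hg0 : ∀ s w, 0 ≤ g s w) (c : ℕ → Om W X β → ℝ)
    (hc0 : ∀ k w, 0 ≤ c k w) (w : Om W X β) :
    ∑ s ∈ range (5 * T), ind (lt5 M M.NP s w) * (c (nu M s w) w * g s w) ≤
      ∑ k : Fin (5 * T - 3), ind (nu M k.1 w = k.1) * (c k.1 w * Gmz M g k.1 (sgz M T k.1 w) w) := by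
  have h1 : ∀ s ∈ range (5 * T), ind (lt5 M M.NP s w) * (c (nu M s w) w * g s w) ≤
      ∑ k : Fin (5 * T - 3), ind (lt5 M M.NP s w ∧ nu M s w = k.1) * (c k.1 w * g s w) := by
    intro s hs
    by_cases hl : lt5 M M.NP s w
    · obtain ⟨h2, -, -⟩ := rem_end hM (Finset.mem_range.1 hs) hl
      refine le_trans (le_of_eq ?_) (Finset.single_le_sum (f := fun k : Fin (5 * T - 3) =>
        ind (lt5 M M.NP s w ∧ nu M s w = k.1) * (c k.1 w * g s w)) (fun k _ => mul_nonneg (ind_nonneg _)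
        (mul_nonneg (hc0 _ _) (hg0 _ _))) (mem_univ (⟨nu M s w, h2⟩ : Fin (5 * T - 3))))
      rw [ind_of hl, ind_of (show lt5 M M.NP s w ∧ nu M s w = (⟨nu M s w, h2⟩ : Fin (5 * T - 3)).1 from ⟨hl, rfl⟩)]
    · rw [ind_not hl, zero_mul]
      exact Finset.sum_nonneg fun k _ => mul_nonneg (ind_nonneg _) (mul_nonneg (hc0 _ _) (hg0 _ _))
  refine (Finset.sum_le_sum h1).trans ?_
  rw [Finset.sum_comm]
  refine Finset.sum_le_sum fun k _ => ?_
  -- at most one removal for the epoch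
  set σ := sgz M T k.1 w with hσ
  have hσ1 : 1 ≤ σ := sgz_one _ _
  have h2 : ∀ s ∈ range (5 * T), s ≠ sbt (rho k.1 + σ - 1) →
      ind (lt5 M M.NP s w ∧ nu M s w = k.1) * (c k.1 w * g s w) = 0 := by
    intro s hs hne
    rw [ind_not, zero_mul]
    rintro ⟨hl, hk⟩
    obtain ⟨-, h3, h4⟩ := rem_end hM (Finset.mem_range.1 hs) hl
    rw [hk, ← hσ] at h3
    refine hne ?_
    rw [h3, Nat.add_sub_cancel, h4]
  have h3 : ∑ s ∈ range (5 * T), ind (lt5 M M.NP s w ∧ nu M s w = k.1) * (c k.1 w * g s w) ≤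
      ind (lt5 M M.NP (sbt (rho k.1 + σ - 1)) w ∧ nu M (sbt (rho k.1 + σ - 1)) w = k.1) *
        (c k.1 w * g (sbt (rho k.1 + σ - 1)) w) := by
    by_cases hm : sbt (rho k.1 + σ - 1) ∈ range (5 * T)
    · rw [Finset.sum_eq_single_of_mem _ hm h2]
    · rw [Finset.sum_eq_zero fun s hs => h2 s hs fun hh => hm (hh ▸ hs)]
      exact mul_nonneg (ind_nonneg _) (mul_nonneg (hc0 _ _) (hg0 _ _))
  refine h3.trans ?_
  by_cases hh : lt5 M M.NP (sbt (rho k.1 + σ - 1)) w ∧ nu M (sbt (rho k.1 + σ - 1)) w = k.1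
  · have h4 : nu M k.1 w = k.1 := by
      have h5 : nu M (nu M (sbt (rho k.1 + σ - 1)) w) w = nu M (sbt (rho k.1 + σ - 1)) w := stg_idem (C := C0 M) _ w
      rwa [hh.2] at h5
    unfold Gmz
    rw [ind_of hh, ind_of h4, if_neg (by omega), ind_of (⟨hh.2, hh.1⟩ :
      nu M (sbt (rho k.1 + σ - 1)) w = k.1 ∧ lt5 M M.NP (sbt (rho k.1 + σ - 1)) w)]
    simp only [one_mul]
    exact le_rfl
  · rw [ind_not hh, zero_mul]
    exact mul_nonneg (ind_nonneg _) (mul_nonneg (hc0 _ _) (Gmz_nonneg hg0 _ _ _))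

/-- the weights at the ends are removals -/
theorem sum_from (hM : Rp tb v M) {g : ℕ → Om W X β → ℝ} (hg0 : ∀ s w, 0 ≤ g s w) (w : Om W X β) :
    ∑ k : Fin (5 * T - 3), ind (nu M k.1 w = k.1) * Gmz M g k.1 (sgz M T k.1 w) w ≤
      ∑ s ∈ range (5 * T), ind (lt5 M M.NP s w) * g s w := by
  have h1 : ∀ k : Fin (5 * T - 3), ind (nu M k.1 w = k.1) * Gmz M g k.1 (sgz M T k.1 w) w ≤
      ∑ s ∈ range (5 * T), ind (nu M s w = k.1) * (ind (lt5 M M.NP s w) * g s w) := by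
    intro k
    set σ := sgz M T k.1 w with hσ
    have hσ1 : 1 ≤ σ := sgz_one _ _
    have hcap : rho k.1 + σ ≤ 2 * T := sgz_cap (rho_lt k.2) w
    have hm : sbt (rho k.1 + σ - 1) ∈ range (5 * T) := by
      rw [Finset.mem_range]
      unfold sbt
      omega
    refine le_trans ?_ (Finset.single_le_sum (f := fun s => ind (nu M s w = k.1) * (ind (lt5 M M.NP s w) * g s w))
      (fun s _ => mul_nonneg (ind_nonneg _) (mul_nonneg (ind_nonneg _) (hg0 _ _))) hm)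
    unfold Gmz
    rw [if_neg (by omega), ind_and]
    have h2 : 0 ≤ ind (nu M (sbt (rho k.1 + σ - 1)) w = k.1) * ind (lt5 M M.NP (sbt (rho k.1 + σ - 1)) w) *
        g (sbt (rho k.1 + σ - 1)) w := mul_nonneg (mul_nonneg (ind_nonneg _) (ind_nonneg _)) (hg0 _ _)
    refine (mul_le_of_le_one_left h2 (ind_le_one _)).trans (le_of_eq ?_)
    ring
  refine (Finset.sum_le_sum fun k _ => h1 k).trans ?_
  rw [Finset.sum_comm]
  refine Finset.sum_le_sum fun s _ => ?_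
  rw [← Finset.sum_mul]
  have h2 : ∑ k : Fin (5 * T - 3), ind (nu M s w = k.1) ≤ 1 := by
    refine le_trans (le_of_eq (Finset.sum_congr rfl fun k _ => ind_cg eq_comm)) (one_le' (5 * T - 3) (nu M s w))
  exact mul_le_of_le_one_left (mul_nonneg (ind_nonneg _) (hg0 _ _)) h2

theorem E_to (hM : Rp tb v M) (f : Pt (Fin 3) X β φ → ℝ) : M.P.E (fun w => f (tb.pt 0 w)) = (D.P h 0).E f := by
  rw [hM.P]
  exact (pul_pt h tb (Nat.zero_le T)).E f

end gen

/-- the letters of the two groups are alive at the half step of the substep `ν` -/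
def Avz {X β γ φ υ : Type} [Fintype X] [Fintype β] [Fintype φ] [Nonempty X] [Nonempty β] {D : HD (Fin 3) X β γ φ} {al : ℝ}
    (h : D.Thick al) (v : ℕ → Finset (Fin 3) → X → (Fin 3 → β) → υ) (C E : Finset (Fin 3)) (X1 : ℝ) (ν : ℕ)
    (p : Pt (Fin 3) X β φ) : Prop := -X1 ≤ lJq h v C (rho ν) p ∧ -X1 ≤ lJq h v E (rho ν) p

section run

variable {X β γ φ : Type} [Fintype X] [Fintype β] [Fintype φ] [Nonempty X] [Nonempty β]
variable {D : HD (Fin 3) X β γ φ} {al : ℝ} {h : D.Thick al} {v : ℕ → Finset (Fin 3) → X → (Fin 3 → β) → Pt (Fin 3) X β φ}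
variable {dg : ℕ → X → ℝ} {prr : ℕ → Fin 3 → φ → φ} {T : ℕ} {Lam : ℝ} {W : Type} [Fintype W] {tb : Tab D prr T W}
variable {M : MS (Om W X β)}

/-- **REST, ONE THIN STATIC RELATION, THE SUM OVER ALL PUBLIC REMOVALS** -/
theorem rest_rem {n N1 : ℝ} (hn : 1 ≤ n) (hN1 : 1 ≤ N1) (R : Run h (pr3 (Fin 3) n N1) (SS1 (Fin 3)) (AdmDep D) v)
    (hp : Prc (pr3 (Fin 3) n N1) (SS1 (Fin 3)) N1) (H : D.Hyp dg prr al T Lam) (hM : Rp tb v M)
    {C E : Finset (Fin 3)} (hc : Cpl C E) (hCc : C.card ≤ 2) (hEc : E.card ≤ 2) {p1 X1 X2 x dl : ℝ} {K : ℕ}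
    (hpar : ParZ N1 x p1 X1 X2 M.d0 M.k0 dl K) {Hs : ℕ → Om W X β → Prop} (hR : RelS M C E p1 Hs)
    {g : ℕ → Om W X β → ℝ} (hg : ∀ s, Fac (fun w : Om W X β => (w.1, PJ C (tb.pt 0 w), M.NP (s + 1) w)) (g s))
    (hg0 : ∀ s w, 0 ≤ g s w) (hg1 : ∀ s w, g s w ≤ 1) :
    ∑ s ∈ range (5 * T), M.P.E (fun w => ind (lt5 M M.NP s w) *
        (ind (Hs (nu M s w) w ∧ Avz h v C E X1 (nu M s w) (tb.pt 0 w)) * g s w)) ≤
      x / 2 * ∑ s ∈ range (5 * T), M.P.E (fun w => ind (lt5 M M.NP s w) * g s w) + 432 * 5 * x * n * Lam +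
      2 * (1 + 8 * x) * (e9z N1 X1 X2 x dl K * (1 + N0 M (5 * T)) + 5 * Tny h v dl T) +
      6 / (x * (K + 1)) * (1 + N0 M (5 * T)) := by
  obtain ⟨ω0, _⟩ := (tb.Q 0).exists_p_ne
  set w0 : Fin 3 → W := fun _ => ω0 with hw0
  have hv : Codes D v := R.codes
  -- the weights on the sample points
  set G : Fin (5 * T - 3) → ℕ → Pt (Fin 3) X β φ → ℝ := fun k s p => Gmz M g k.1 s (lft w0 p) with hG
  have hGf : ∀ k s, Fac (fun p : Pt (Fin 3) X β φ => (p.1, PJ C p, NPr v D (rho k.1 + s) p)) (G k s) := by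
    intro k s a b hab
    simp only [Prod.mk.injEq] at hab
    obtain ⟨a1, a2, a3⟩ := hab
    show Gmz M g k.1 s (lft w0 a) = Gmz M g k.1 s (lft w0 b)
    unfold Gmz
    by_cases hs : s = 0
    · rw [if_pos hs, if_pos hs]
    · rw [if_neg hs, if_neg hs]
      have e1 : rho k.1 + s - 1 + 1 = rho k.1 + s := by omega
      have h1 : nu M (sbt (rho k.1 + s - 1)) (lft w0 a) = nu M (sbt (rho k.1 + s - 1)) (lft w0 b) := by
        refine nu_lft hM w0 _ ?_
        rw [rho_sbt]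
        exact NPr_older (by omega) a3
      have h2 : M.NP (sbt (rho k.1 + s - 1) + 1) (lft w0 a) = M.NP (sbt (rho k.1 + s - 1) + 1) (lft w0 b) := by
        rw [hM.NPr, rho_sbt1, e1, NPr_lft, NPr_lft]
        exact a3
      have h3 : lt5 M M.NP (sbt (rho k.1 + s - 1)) (lft w0 a) = lt5 M M.NP (sbt (rho k.1 + s - 1)) (lft w0 b) :=
        lt5_fac M _ _ _ h2
      have h4 : g (sbt (rho k.1 + s - 1)) (lft w0 a) = g (sbt (rho k.1 + s - 1)) (lft w0 b) :=
        hg _ _ _ (Prod.ext a1 (Prod.ext a2 h2))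
      rw [h1, h3, h4]
  have main := rest_le hn hN1 R hp H hc hCc hEc hpar (fam_z hv hM w0 hc hR (X1 := X1)) (g := G) hGf
    (fun k s p => Gmz_nonneg hg0 _ _ _) (fun k s p => Gmz_le_one hg0 hg1 _ _ _)
  -- positions
  have pos : ∀ w : Om W X β, (lft w0 (tb.pt 0 w)).1 = w.1 ∧ (lft w0 (tb.pt 0 w)).2.2 = w.2.2 := fun w => ⟨rfl, rfl⟩
  have gpos : ∀ s (a b : Om W X β), a.1 = b.1 → a.2.2 = b.2.2 → g s a = g s b := by
    intro s a b h1 h2
    refine hg s a b (Prod.ext h1 (Prod.ext ?_ (NP_pos hM (s + 1) h1 h2)))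
    show PJ C (tb.pt 0 a) = PJ C (tb.pt 0 b)
    rw [PJ_iff]
    exact fun j _ => congrFun h2 j
  have Gpos : ∀ k s (w : Om W X β), Gmz M g k s (lft w0 (tb.pt 0 w)) = Gmz M g k s w := by
    intro k s w
    unfold Gmz
    by_cases hs : s = 0
    · rw [if_pos hs, if_pos hs]
    · rw [if_neg hs, if_neg hs, nu_pos hM _ (pos w).1 (pos w).2, gpos _ _ _ (pos w).1 (pos w).2]
      congr 1
      exact ind_cg (and_congr_right fun _ => lt5_pos hM _ (pos w).1 (pos w).2)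
  have spos : ∀ k (w : Om W X β), sgz M T k (lft w0 (tb.pt 0 w)) = sgz M T k w := fun k w =>
    sgz_pos hM k (pos w).1 (pos w).2
  have npos : ∀ k (w : Om W X β), nu M k (lft w0 (tb.pt 0 w)) = nu M k w := fun k w =>
    nu_pos hM k (pos w).1 (pos w).2
  have Hpos : ∀ k (w : Om W X β), HZ h v w0 C E X1 Hs k (tb.pt 0 w) ↔
      (Hs k w ∧ Avz h v C E X1 k (tb.pt 0 w)) := by
    intro k w
    unfold HZ Avz
    rw [hR.fac k _ w (hM.TH k (pos w).1 (pos w).2)]
  -- the left side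
  have L : ∑ s ∈ range (5 * T), M.P.E (fun w => ind (lt5 M M.NP s w) *
        (ind (Hs (nu M s w) w ∧ Avz h v C E X1 (nu M s w) (tb.pt 0 w)) * g s w)) ≤
      ∑ k : Fin (5 * T - 3), (D.P h 0).E (fun p => ind (nu M k.1 (lft w0 p) = k.1) *
        (ind (HZ h v w0 C E X1 Hs k.1 p) * G k (sgz M T k.1 (lft w0 p)) p)) := by
    rw [← M.P.E_sum]
    have e1 : ∀ k : Fin (5 * T - 3), (D.P h 0).E (fun p => ind (nu M k.1 (lft w0 p) = k.1) *
        (ind (HZ h v w0 C E X1 Hs k.1 p) * G k (sgz M T k.1 (lft w0 p)) p)) =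
        M.P.E (fun w => ind (nu M k.1 w = k.1) * (ind (Hs k.1 w ∧ Avz h v C E X1 k.1 (tb.pt 0 w)) *
          Gmz M g k.1 (sgz M T k.1 w) w)) := by
      intro k
      rw [← E_to (h := h) hM]
      refine M.P.E_congr fun w _ => ?_
      show ind (nu M k.1 (lft w0 (tb.pt 0 w)) = k.1) * (ind (HZ h v w0 C E X1 Hs k.1 (tb.pt 0 w)) *
        Gmz M g k.1 (sgz M T k.1 (lft w0 (tb.pt 0 w))) (lft w0 (tb.pt 0 w))) = _
      rw [npos, spos, Gpos, ind_cg (Hpos k.1 w)]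
    rw [Finset.sum_congr rfl fun k _ => e1 k, ← M.P.E_sum]
    refine M.P.E_mono fun w _ => ?_
    exact sum_to hM hg0 (fun k w => ind (Hs k w ∧ Avz h v C E X1 k (tb.pt 0 w))) (fun _ _ => ind_nonneg _) w
  -- the right side
  have Rr : ∑ k : Fin (5 * T - 3), (D.P h 0).E (fun p => ind (nu M k.1 (lft w0 p) = k.1) *
        G k (sgz M T k.1 (lft w0 p)) p) ≤ ∑ s ∈ range (5 * T), M.P.E (fun w => ind (lt5 M M.NP s w) * g s w) := by
    rw [← M.P.E_sum]
    have e1 : ∀ k : Fin (5 * T - 3), (D.P h 0).E (fun p => ind (nu M k.1 (lft w0 p) = k.1) *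
        G k (sgz M T k.1 (lft w0 p)) p) = M.P.E (fun w => ind (nu M k.1 w = k.1) * Gmz M g k.1 (sgz M T k.1 w) w) := by
      intro k
      rw [← E_to (h := h) hM]
      refine M.P.E_congr fun w _ => ?_
      show ind (nu M k.1 (lft w0 (tb.pt 0 w)) = k.1) *
        Gmz M g k.1 (sgz M T k.1 (lft w0 (tb.pt 0 w))) (lft w0 (tb.pt 0 w)) = _
      rw [npos, spos, Gpos]
    rw [Finset.sum_congr rfl fun k _ => e1 k, ← M.P.E_sum]
    exact M.P.E_mono fun w _ => sum_from hM hg0 w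
  -- the number of the epochs
  have Nn : ∑ k : Fin (5 * T - 3), (D.P h 0).Pr (fun p => nu M k.1 (lft w0 p) = k.1) ≤ 1 + N0 M (5 * T) := by
    have e1 : ∀ k : Fin (5 * T - 3), (D.P h 0).Pr (fun p => nu M k.1 (lft w0 p) = k.1) =
        M.P.Pr (fun w => nu M k.1 w = k.1) := by
      intro k
      unfold FP.Pr
      rw [← E_to (h := h) hM]
      refine M.P.E_congr fun w _ => ?_
      show ind (nu M k.1 (lft w0 (tb.pt 0 w)) = k.1) = ind (nu M k.1 w = k.1)
      rw [npos]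
    rw [Finset.sum_congr rfl fun k _ => e1 k,
      (Finset.sum_range fun k => M.P.Pr (fun w => nu M k w = k)).symm]
    refine (Finset.sum_le_sum_of_subset_of_nonneg (Finset.range_subset_range.2 (Nat.sub_le (5 * T) 3))
      fun k _ _ => M.P.Pr_nonneg _).trans (starts_le M (5 * T))
  have hx := hpar.x0
  have c1 : 0 ≤ e9z N1 X1 X2 x dl K := e9z_nonneg hpar.dl0 K
  have c2 : 0 ≤ 6 / (x * ((K : ℝ) + 1)) := by positivity
  have d1 := mul_le_mul_of_nonneg_left Rr (show 0 ≤ x / 2 by linarith)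
  have d2 := mul_le_mul_of_nonneg_left Nn c1
  have d3 := mul_le_mul_of_nonneg_left Nn c2
  have d4 := mul_le_mul_of_nonneg_left d2 (show 0 ≤ 2 * (1 + 8 * x) by linarith)
  have main' := L.trans main
  rw [mul_add] at main' ⊢
  have e432 : 432 * 5 * x * n * Lam = 432 * (5 : ℝ) * x * n * Lam := rfl
  linarith

end run

end Pool.Agent.GMH.RZ
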