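import Pool.Agent.GMH.TD9
import Pool.Agent.GMH.TD4
import Pool.Agent.GMH.TD9BP

/-!
# GMH.TD9B: thin dynamics, thin rows (helper28, statements of helper27)

* `thin_row` : at every point of `d` the rows `I` have mass at most `|I| p1` at the start `ν`;
* `thin_later` : in a later public cell at most `2 |I| p1` plus the mass of the moved letters of `d` (`unm_le`);
* `PhV_cm` is in `TD9BP`, `start_ex` and `end_ex` are in `TD9BE`.
-/

set_option autoImplicit false
set_option linter.unusedSectionVars false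

namespace Pool.Agent.GMH.TD

open Finset Pool.Agent.PWZ Pool.Agent.M3 Pool.Agent.GM Pool.Agent.GM.Harm Pool.Agent.GMH Pool.Agent.GMH.NZ
open Pool.Agent.GMH.V3 Pool.Agent.GMH.Gdy

variable {X β γ φ : Type} [Fintype X] [Fintype β] [Fintype φ] [Nonempty X] [Nonempty β]
variable {D : HD (Fin 3) X β γ φ} {al : ℝ} {h : D.Thick al} {v : ℕ → Finset (Fin 3) → X → (Fin 3 → β) → Pt (Fin 3) X β φ}

namespace B9

/-- conditional means are monotone on the class -/
theorem ce_mono_cl {Om κ : Type*} [Fintype Om] (P : FP Om) {Y : Om → κ} {f g : Om → ℝ} {w : Om}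
    (h : ∀ y, P.p y ≠ 0 → Y y = Y w → f y ≤ g y) : P.ce Y f w ≤ P.ce Y g w := by
  unfold FP.ce
  refine div_le_div_of_nonneg_right (P.E_mono fun y hy => ?_) (P.m_nonneg Y w)
  by_cases hv : Y y = Y w
  · rw [ind_of hv, one_mul, one_mul]
    exact h y hy hv
  · rw [ind_not hv, zero_mul, zero_mul]

theorem ce_congr_cl {Om κ : Type*} [Fintype Om] (P : FP Om) {Y : Om → κ} {f g : Om → ℝ} {w : Om}
    (h : ∀ y, P.p y ≠ 0 → Y y = Y w → f y = g y) : P.ce Y f w = P.ce Y g w :=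
  le_antisymm (ce_mono_cl P fun y hy e => (h y hy e).le) (ce_mono_cl P fun y hy e => (h y hy e).ge)

/-- equal partitions (at `w`) give equal conditional means -/
theorem ce_part {Om κ κ' : Type*} [Fintype Om] (P : FP Om) {Y : Om → κ} {Y' : Om → κ'} {w : Om}
    (h : ∀ y, Y y = Y w ↔ Y' y = Y' w) (f : Om → ℝ) : P.ce Y f w = P.ce Y' f w := by
  unfold FP.ce FP.m
  simp only [h]

/-- the law of the public cell -/
theorem clq_Pr' (r : ℕ) {w : Pt (Fin 3) X β φ} (hw : (D.P h 0).p w ≠ 0) (A : Pt (Fin 3) X β φ → Prop) :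
    (clq h v r w).Pr A = (D.P h 0).ce (NPr v D r) (fun u => ind (A u)) w := by
  rw [FP.ce_eq_cond (D.P h 0) (NPr v D r) _ hw]
  rfl

/-- the rows see the letter of `d` only -/
theorem rwA_fac' {θ X1 p1 : ℝ} {J0 : Finset (Fin 3)} {c d : Fin 3} {ν : ℕ} {M : ℕ} {us : Fin M → β}
    {I : Finset (Fin M)} {w : Pt (Fin 3) X β φ} : Fac (XLr v ν d) (rwA h v θ X1 p1 J0 c d ν us I w) := by
  intro a b hab
  unfold rwA
  rw [hab]

theorem rwA_cell {θ X1 p1 : ℝ} {J0 : Finset (Fin 3)} {c d : Fin 3} {ν : ℕ} {M : ℕ} {us : Fin M → β}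
    {I : Finset (Fin M)} {w u : Pt (Fin 3) X β φ} (hu : rwA h v θ X1 p1 J0 c d ν us I w u) :
    D.qb (nt ν) (u.2.1 d) = D.qb (nt ν) (w.2.1 d) := by
  obtain ⟨i, _, z, h1, _, h3, _⟩ := hu
  have e1 : D.qb (nt ν) (z.2.1 d) = D.qb (nt ν) (w.2.1 d) := congrFun (congrArg Prod.snd (congrArg Prod.snd h1)) d
  have e2 : z.2.1 d = u.2.1 d := congrArg Prod.fst h3
  rw [← e2, e1]

end B9

open B9

theorem thin_row (hv : Codes D v) {J0 : Finset (Fin 3)} {e c d : Fin 3} (ht : Tri3 J0 e c d) {θ X1 p1 : ℝ}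
    (hp0 : 0 ≤ p1) {M : ℕ} (us : Fin M → β) (I : Finset (Fin M)) (ν : ℕ) (w : Pt (Fin 3) X β φ)
    {z : Pt (Fin 3) X β φ} (hz : (D.P h 0).p z ≠ 0) (hzw : NPr v D ν z = NPr v D ν w) :
    (D.P h 0).ce (fun y => (y.2.1 d, NPr v D ν y)) (fun y => ind (rwA h v θ X1 p1 J0 c d ν us I w y)) z ≤
      I.card * p1 := by
  classical
  set A : Fin M → Pt (Fin 3) X β φ → Prop := fun i y => ∃ z, NPr v D ν z = NPr v D ν w ∧
    LJ v (insert c J0) ν z = LJ v (insert c J0) ν (up1 c w (us i)) ∧ XLr v ν d z = XLr v ν d y ∧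
      HRq h v θ X1 p1 J0 c d ν z with hA
  have h1 : (D.P h 0).ce (fun y => (y.2.1 d, NPr v D ν y)) (fun y => ind (rwA h v θ X1 p1 J0 c d ν us I w y)) z ≤
      (D.P h 0).ce (fun y => (y.2.1 d, NPr v D ν y)) (fun y => ∑ i ∈ I, ind (A i y)) z := by
    refine (D.P h 0).ce_mono (fun y _ => ?_) z
    by_cases hy : rwA h v θ X1 p1 J0 c d ν us I w y
    · obtain ⟨i, hi, hz'⟩ := hy
      have h2 := Finset.single_le_sum (f := fun i => ind (A i y)) (fun i _ => ind_nonneg _) hi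
      have h3 : ind (A i y) = 1 := ind_of hz'
      exact (ind_le_one _).trans (h3 ▸ h2)
    · rw [ind_not hy]
      exact Finset.sum_nonneg fun i _ => ind_nonneg _
  refine h1.trans ?_
  rw [(D.P h 0).ce_sum]
  have h2 : ∀ i ∈ I, (D.P h 0).ce (fun y => (y.2.1 d, NPr v D ν y)) (fun y => ind (A i y)) z ≤ p1 := by
    intro i _
    by_cases hex : ∃ y, (y.2.1 d, NPr v D ν y) = (z.2.1 d, NPr v D ν z) ∧ A i y
    · obtain ⟨y0, hy0, z0, hz1, hz2, hz3, hz4⟩ := hex
      have e1 : z0.2.1 d = z.2.1 d := (congrArg Prod.fst hz3).trans (congrArg Prod.fst hy0)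
      have e2 : NPr v D ν z0 = NPr v D ν z := hz1.trans hzw.symm
      have h3 : (D.P h 0).ce (fun y => (y.2.1 d, NPr v D ν y)) (fun y => ind (A i y)) z ≤
          (D.P h 0).ce (fun y => (y.2.1 d, NPr v D ν y)) (fun y => ind (dvp h v θ J0 c d ν z0 y)) z := by
        refine (D.P h 0).ce_mono (fun y _ => ind_mono ?_) z
        rintro ⟨z', k1, k2, k3, k4⟩
        exact (dvp_eq (k1.trans hz1.symm) (k2.trans hz2.symm) k3).1 k4.1
      refine h3.trans ?_
      have h4 : (D.P h 0).ce (fun y => (y.2.1 d, NPr v D ν y)) (fun y => ind (dvp h v θ J0 c d ν z0 y)) z =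
          rowm h v θ J0 c d ν z0 :=
        (D.P h 0).ce_fac (fun y => (y.2.1 d, NPr v D ν y)) _ z z0 (Prod.ext e1.symm e2.symm)
      rw [h4]
      exact hz4.2.2.2.1
    · have h3 : (D.P h 0).ce (fun y => (y.2.1 d, NPr v D ν y)) (fun y => ind (A i y)) z = 0 := by
        have h4 : (D.P h 0).ce (fun y => (y.2.1 d, NPr v D ν y)) (fun y => ind (A i y)) z =
            (D.P h 0).ce (fun y => (y.2.1 d, NPr v D ν y)) (fun _ => 0) z :=
          ce_congr_cl (D.P h 0) fun y _ hy => ind_not fun hc => hex ⟨y, hy, hc⟩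
        rw [h4]
        exact (D.P h 0).ce_const _ _ hz
      rw [h3]
      exact hp0
  refine (Finset.sum_le_sum h2).trans (le_of_eq ?_)
  rw [Finset.sum_const, nsmul_eq_mul]

theorem thin_later (hv : Codes D v) {J0 : Finset (Fin 3)} {e c d : Fin 3} (ht : Tri3 J0 e c d) {θ X1 p1 δ : ℝ}
    (hp0 : 0 ≤ p1) (hδ : δ ≤ 1 / 2) {M : ℕ} (us : Fin M → β) (I : Finset (Fin M)) {ν r : ℕ} (hν : ν ≤ r)
    (w : Pt (Fin 3) X β φ) {z : Pt (Fin 3) X β φ} (hz : (D.P h 0).p z ≠ 0) (hzw : NPr v D ν z = NPr v D ν w) :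
    (clq h v r z).Pr (rwA h v θ X1 p1 J0 c d ν us I w) ≤ 2 * (I.card * p1) + (clq h v r z).Pr (MJq h v δ {d} ν r) := by
  classical
  set A : Pt (Fin 3) X β φ → Prop := rwA h v θ X1 p1 J0 c d ν us I w with hA
  rw [clq_Pr' r hz, clq_Pr' r hz]
  have hN : ∀ k, Fac (NPr (φ := φ) v D (k + 1)) (NPr v D k) := fun k => NPr_step k
  have hAf : Fac (fun u : Pt (Fin 3) X β φ => (LJ v {d} ν u, NPr v D ν u)) A := by
    intro a b hab
    have h1 : LJ v {d} ν a = LJ v {d} ν b := congrArg Prod.fst hab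
    exact rwA_fac' a b (LJ_iff.1 h1 d (Finset.mem_singleton_self d))
  have h1 : (D.P h 0).ce (NPr v D r) (fun u => ind (A u)) z ≤
      (D.P h 0).ce (NPr v D r) (fun u => ind (¬ MJq h v δ {d} ν r u ∧ A u) + ind (MJq h v δ {d} ν r u)) z := by
    refine (D.P h 0).ce_mono (fun u _ => ?_) z
    by_cases hm : MJq h v δ {d} ν r u
    · rw [ind_of hm]
      have h3 := ind_le_one (A u)
      have h4 := ind_nonneg (¬ MJq h v δ {d} ν r u ∧ A u)
      linarith
    · rw [ind_not hm, add_zero]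
      exact ind_mono fun hu => ⟨hm, hu⟩
  refine h1.trans ?_
  rw [(D.P h 0).ce_add]
  refine add_le_add ?_ le_rfl
  have hf : Fac (fun u : Pt (Fin 3) X β φ => (PJ {d} u, NPr v D r u)) (NPr v D r) := fun a b hab =>
    congrArg Prod.snd hab
  rw [← (D.P h 0).ce_tower hf (fun u => ind (¬ MJq h v δ {d} ν r u ∧ A u)) z]
  have hlog : δ < Real.log 2 := by
    have := Real.log_two_gt_d9
    linarith
  have hexp : Real.exp δ ≤ 2 := by
    have h2 : Real.exp δ ≤ Real.exp (Real.log 2) := Real.exp_le_exp.2 hlog.le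
    rwa [Real.exp_log (by norm_num)] at h2
  have hle : ∀ u, (D.P h 0).p u ≠ 0 → NPr v D r u = NPr v D r z →
      (D.P h 0).ce (fun u => (PJ {d} u, NPr v D r u)) (fun u => ind (¬ MJq h v δ {d} ν r u ∧ A u)) u ≤
        2 * (I.card * p1) := by
    intro u hu hur
    have h2 := unm_le (D.P h 0) (N := NPr v D) (L := LJ v {d}) (Y := PJ {d}) hN (fun k => LJ_step {d} k)
      (fun k => LJ_PJ {d} k) hlog hν hAf hu
    have h3 : NPr v D ν u = NPr v D ν w := (NPr_older hν hur).trans hzw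
    have h4 := thin_row (h := h) (v := v) hv ht (θ := θ) (X1 := X1) hp0 us I ν w hu h3
    have h5 : (D.P h 0).ce (fun u => (PJ {d} u, NPr v D ν u)) (fun u => ind (A u)) u =
        (D.P h 0).ce (fun y => (y.2.1 d, NPr v D ν y)) (fun y => ind (A y)) u := by
      refine ce_part (D.P h 0) (fun y => ?_) _
      show (PJ {d} y, NPr v D ν y) = (PJ {d} u, NPr v D ν u) ↔ (y.2.1 d, NPr v D ν y) = (u.2.1 d, NPr v D ν u)
      constructor
      · intro hh
        exact Prod.ext (PJ_iff.1 (Prod.mk.inj hh).1 d (Finset.mem_singleton_self d)) (Prod.mk.inj hh).2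
      · intro hh
        refine Prod.ext (PJ_iff.2 fun j hj => ?_) (Prod.mk.inj hh).2
        rw [Finset.mem_singleton.1 hj]
        exact (Prod.mk.inj hh).1
    rw [h5] at h2
    have h6 : 0 ≤ (I.card : ℝ) * p1 := mul_nonneg (Nat.cast_nonneg _) hp0
    exact h2.trans (mul_le_mul hexp h4 ((D.P h 0).ce_nonneg (fun _ _ => ind_nonneg _) u) (by norm_num))
  have h7 := ce_mono_cl (D.P h 0) (Y := NPr v D r) (w := z) hle
  exact h7.trans (le_of_eq ((D.P h 0).ce_const _ _ hz))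

end Pool.Agent.GMH.TD
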