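import Pool.Agent.GMH.RZ1
import Pool.Agent.GMH.TD9BP
import Pool.Agent.GMH.TD9B
import Pool.Agent.GMH.TD8

/-!
# GMH/RZ2 (helper36): rows of a thin relation between two groups: the potential, thin rows at the start and later
-/

set_option autoImplicit false
set_option linter.unusedSectionVars false

namespace Pool.Agent.GMH.RZ

open Finset Pool.Agent.PWZ Pool.Agent.M3 Pool.Agent.GM Pool.Agent.GM.Harm Pool.Agent.GMH Pool.Agent.GMH.NZ
open Pool.Agent.GMH.V3 Pool.Agent.GMH.Gdy Pool.Agent.GMH.TD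

section defs

variable {X β γ φ υ : Type} [Fintype X] [Fintype β] [Fintype φ] [Nonempty X] [Nonempty β]
variable {D : HD (Fin 3) X β γ φ} {al : ℝ} (h : D.Thick al) (v : ℕ → Finset (Fin 3) → X → (Fin 3 → β) → υ)

/-- the letters of `E` at `u` are in one of the rows `I` of the sample of points of `C`, hidden point as at `w` -/
def rwz (D : HD (Fin 3) X β γ φ) (C E : Finset (Fin 3)) (ν : ℕ) (Hr : Pt (Fin 3) X β φ → Prop) {M : ℕ}
    (us : Fin M → Fin 3 → Option β) (I : Finset (Fin M)) (w u : Pt (Fin 3) X β φ) : Prop :=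
  ∃ i ∈ I, (∀ j ∈ C, us i j ≠ Option.none) ∧ ∃ z, NPr v D ν z = NPr v D ν w ∧
    LJ v C ν z = LJ v C ν (put C w (us i)) ∧ LJ v E ν z = LJ v E ν u ∧ Hr z

/-- probability of the rows `I` given the hidden point and the public cell at `r` -/
noncomputable def cmz (C E : Finset (Fin 3)) (ν : ℕ) (Hr : Pt (Fin 3) X β φ → Prop) {M : ℕ}
    (us : Fin M → Fin 3 → Option β) (I : Finset (Fin M)) (r : ℕ) (w : Pt (Fin 3) X β φ) : ℝ :=
  (D.P h 0).ce (fun z => (z.1, NPr v D r z)) (fun z => ind (rwz v D C E ν Hr us I w z)) w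

/-- exceptional position -/
def exz (C E : Finset (Fin 3)) (ν : ℕ) (Hr : Pt (Fin 3) X β φ → Prop) (x : ℝ) {M : ℕ}
    (us : Fin M → Fin 3 → Option β) (r : ℕ) (w : Pt (Fin 3) X β φ) : Prop :=
  ∃ I : Finset (Fin M), I.Nonempty ∧ I.card * x / 4 ≤ cmz h v C E ν Hr us I r w ∧
    (4 + 28 * ((r % 2 : ℕ) : ℝ)) * (clq h v (r - r % 2) w).Pr (rwz v D C E ν Hr us I w) ≤ cmz h v C E ν Hr us I r w

/-- mass of the letters of `E` related to the letters of `C` of `w`, at the points of `E` of `w` -/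
noncomputable def rowz (C E : Finset (Fin 3)) (ν : ℕ) (Hr : Pt (Fin 3) X β φ → Prop) (w : Pt (Fin 3) X β φ) : ℝ :=
  (D.P h 0).ce (fun y => (PJ E y, NPr v D ν y)) (fun u => ind (∃ z, NPr v D ν z = NPr v D ν w ∧
    LJ v C ν z = LJ v C ν w ∧ LJ v E ν z = LJ v E ν u ∧ Hr z)) w

/-- a thin static relation between the groups `C` and `E` -/
structure RelZ (C E : Finset (Fin 3)) (ν : ℕ) (p1 X1 : ℝ) (Hr : Pt (Fin 3) X β φ → Prop) : Prop where
  stz : Stz v D ν Hr
  row : ∀ w, Hr w → rowz h v C E ν Hr w ≤ p1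
  col : ∀ w, Hr w → rowz h v E C ν Hr w ≤ p1
  alC : ∀ w, Hr w → -X1 ≤ lJq h v C ν w
  alE : ∀ w, Hr w → -X1 ≤ lJq h v E ν w

theorem RelZ.swap {h : D.Thick al} {v : ℕ → Finset (Fin 3) → X → (Fin 3 → β) → υ} {C E : Finset (Fin 3)} {ν : ℕ}
    {p1 X1 : ℝ} {Hr : Pt (Fin 3) X β φ → Prop} (hR : RelZ h v C E ν p1 X1 Hr) : RelZ h v E C ν p1 X1 Hr :=
  ⟨hR.stz, hR.col, hR.row, hR.alE, hR.alC⟩

end defs

variable {X β γ φ υ : Type} [Fintype X] [Fintype β] [Fintype φ] [Nonempty X] [Nonempty β]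
variable {D : HD (Fin 3) X β γ φ} {al : ℝ} {h : D.Thick al} {v : ℕ → Finset (Fin 3) → X → (Fin 3 → β) → υ}

/-! ### the potential -/

theorem node_fz (hv : Codes D v) {C E : Finset (Fin 3)} (hc : Cpl C E) {T ν s : ℕ} (hs : ν + s ≤ 2 * T) :
    Fac (fun u : Pt (Fin 3) X β φ => ((u.1, NPr v D ν u), (cz D T E ν s u, cz D T C ν s u)))
      (fun u => (u.1, NPr v D (ν + s) u)) := by
  intro a b hab
  have hm : min (ν + s) (2 * T) = ν + s := by omega
  simp only [Prod.mk.injEq] at hab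
  obtain ⟨⟨h1, -⟩, h4, h5⟩ := hab
  rw [cz_iff] at h4 h5
  have hq : ∀ j, D.qb (nt (ν + s)) (a.2.1 j) = D.qb (nt (ν + s)) (b.2.1 j) := by
    intro j
    have h6 : cel D T j ν s a = cel D T j ν s b := by
      by_cases hj : j ∈ C
      · exact h5 j hj
      · exact h4 j (by
          by_contra hE
          exact hj ((hc j).2 hE))
    unfold cel at h6
    rwa [hm] at h6
  have h6 : NPr v D (ν + s) a = NPr v D (ν + s) b := by
    refine (NP_iff (v := v) (D := D) hv (Nat.succ_le_succ (TD.tm_nt (ν + s))) b a).2 ?_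
    exact ⟨⟨by rw [h1], by rw [h1]⟩, fun j => hq j⟩
  show (a.1, NPr v D (ν + s) a) = (b.1, NPr v D (ν + s) b)
  rw [h1, h6]

theorem node_fz' {C E : Finset (Fin 3)} {T ν s : ℕ} (hs : ν + s ≤ 2 * T) :
    Fac (fun u : Pt (Fin 3) X β φ => (u.1, NPr v D (ν + s) u))
      (fun u => ((u.1, NPr v D ν u), (cz D T E ν s u, cz D T C ν s u))) := by
  intro a b hab
  have hm : min (ν + s) (2 * T) = ν + s := by omega
  rw [Prod.mk.injEq] at hab
  obtain ⟨h1, h3⟩ := hab
  have h4 : NPr v D ν a = NPr v D ν b := NPr_older (by omega) h3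
  have h5 : nd D (nt (ν + s)) a = nd D (nt (ν + s)) b := congrArg Prod.snd h3
  have h6 : ∀ j, D.qb (nt (ν + s)) (a.2.1 j) = D.qb (nt (ν + s)) (b.2.1 j) := fun j =>
    congrFun (congrArg Prod.snd h5) j
  have h7 : ∀ j, cel D T j ν s a = cel D T j ν s b := fun j => by
    unfold cel
    rw [hm, h6]
  show ((a.1, NPr v D ν a), (cz D T E ν s a, cz D T C ν s a)) = ((b.1, NPr v D ν b), (cz D T E ν s b, cz D T C ν s b))
  rw [h1, h4, cz_iff.2 fun j _ => h7 j, cz_iff.2 fun j _ => h7 j]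

/-- in the world of `w` the event of the relation is an event of the rows -/
theorem rel_rz (hv : Codes D v) {C E : Finset (Fin 3)} (hc : Cpl C E) {ν : ℕ} {Hr : Pt (Fin 3) X β φ → Prop}
    {w z : Pt (Fin 3) X β φ} (h1 : z.1 = w.1) (h3 : NPr v D ν z = NPr v D ν w) {b : Fin 3 → Option β}
    (hR : Rlz v D C E ν Hr w b (PJ E z)) :
    ∃ z', NPr v D ν z' = NPr v D ν w ∧ LJ v C ν z' = LJ v C ν (put C w b) ∧ LJ v E ν z' = LJ v E ν z ∧ Hr z' := by
  obtain ⟨⟨hb, _⟩, hN, hH⟩ := hR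
  have hqz : ∀ j, D.qb (nt ν) (z.2.1 j) = D.qb (nt ν) (w.2.1 j) := fun j =>
    congrFun (congrArg Prod.snd (congrArg Prod.snd h3)) j
  have hqn : ∀ j, D.qb (nt ν) ((put C (put E w (PJ E z)) b).2.1 j) = D.qb (nt ν) (w.2.1 j) := fun j =>
    congrFun (congrArg Prod.snd (congrArg Prod.snd hN)) j
  have pC : ∀ j ∈ C, (put C (put E w (PJ E z)) b).2.1 j = (put C w b).2.1 j := by
    intro j hj
    show (if j ∈ C then (b j).getD ((put E w (PJ E z)).2.1 j) else (put E w (PJ E z)).2.1 j) =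
      if j ∈ C then (b j).getD (w.2.1 j) else w.2.1 j
    rw [if_pos hj, if_pos hj]
    obtain ⟨t, ht⟩ := Option.ne_none_iff_exists'.1 (hb j hj)
    rw [ht]
    rfl
  have pE : ∀ j, j ∉ C → (put C (put E w (PJ E z)) b).2.1 j = z.2.1 j := by
    intro j hj
    have hE : j ∈ E := by
      by_contra hE
      exact hj ((hc j).2 hE)
    show (if j ∈ C then (b j).getD ((put E w (PJ E z)).2.1 j) else (put E w (PJ E z)).2.1 j) = z.2.1 j
    rw [if_neg hj, put_PJ, if_pos hE]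
  have pE' : ∀ j, j ∉ C → (put C w b).2.1 j = w.2.1 j := by
    intro j hj
    show (if j ∈ C then (b j).getD (w.2.1 j) else w.2.1 j) = w.2.1 j
    rw [if_neg hj]
  refine ⟨put C (put E w (PJ E z)) b, hN, ?_, ?_, hH⟩
  · rw [TD.LJ_iff]
    intro j hj
    refine Prod.ext (pC j hj) ?_
    show Um v (tm ν + 1) {j} w.1 (put C (put E w (PJ E z)) b).2.1 = Um v (tm ν + 1) {j} w.1 (put C w b).2.1
    refine Um_codes hv (Nat.succ_le_succ (TD.tm_nt ν)) {j} w.1 (fun k hk => ?_) fun k => ?_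
    · rw [Finset.mem_singleton.1 hk]
      exact pC j hj
    · by_cases hk : k ∈ C
      · rw [pC k hk]
      · rw [pE k hk, pE' k hk, hqz]
  · rw [TD.LJ_iff]
    intro j hj
    have hjC : j ∉ C := fun hh => (hc j).1 hh hj
    refine Prod.ext (pE j hjC) ?_
    show Um v (tm ν + 1) {j} w.1 (put C (put E w (PJ E z)) b).2.1 = Um v (tm ν + 1) {j} z.1 z.2.1
    rw [h1]
    refine Um_codes hv (Nat.succ_le_succ (TD.tm_nt ν)) {j} w.1 (fun k hk => ?_) fun k => ?_
    · rw [Finset.mem_singleton.1 hk]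
      exact pE j hjC
    · rw [hqn, hqz]

/-- **the potential of the cover** -/
theorem Phz_cm (hv : Codes D v) {C E : Finset (Fin 3)} (hc : Cpl C E) {T : ℕ} {ν : ℕ}
    {Hr : Pt (Fin 3) X β φ → Prop} {x : ℝ} (hx : 0 < x) {M : ℕ} (us : Fin M → Fin 3 → Option β) {s : ℕ}
    (hs : ν + s ≤ 2 * T) {w : Pt (Fin 3) X β φ} (hw : (D.P h 0).p w ≠ 0) (hP : 0 < Phz h v T C E ν Hr x us s w) :
    ∃ I : Finset (Fin M), I.Nonempty ∧ Phz h v T C E ν Hr x us s w ≤ cmz h v C E ν Hr us I (ν + s) w ∧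
      I.card * x / 4 ≤ cmz h v C E ν Hr us I (ν + s) w := by
  classical
  set P0 := Wz h v ν w with hP0
  set H0 := Rwz v D C E ν Hr us w with hH0
  set I0 := Iset P0 (cz D T E ν) x H0 M s w with hI0
  have hIM : ∀ r ∈ I0, r < M := fun r hr => (mem_Iset.1 hr).1
  set I : Finset (Fin M) := univ.filter fun i => i.1 ∈ I0 with hI
  have himg : I.image Fin.val = I0 := by
    ext r
    simp only [Finset.mem_image, hI, Finset.mem_filter, Finset.mem_univ, true_and]
    constructor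
    · rintro ⟨i, hi, rfl⟩
      exact hi
    · intro hr
      exact ⟨⟨r, hIM r hr⟩, hr, rfl⟩
  have hcard : I.card = I0.card := by
    rw [← himg, Finset.card_image_of_injective _ Fin.val_injective]
  have hne0 : I0.Nonempty := Iset_nonempty hP
  have hne : I.Nonempty := by
    obtain ⟨r, hr⟩ := hne0
    exact ⟨⟨r, hIM r hr⟩, Finset.mem_filter.2 ⟨Finset.mem_univ _, hr⟩⟩
  have hww : P0.p w ≠ 0 := Wz_self hw
  -- the event
  set A : Pt (Fin 3) X β φ → Prop := fun z => ∃ r ∈ I0, H0 r z with hA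
  have hAfac : Fac (PJ (φ := φ) E) (fun z => ind (A z)) := by
    refine Fac.ind fun a b hab => ?_
    rw [hA]
    simp only
    refine exists_congr fun r => and_congr_right fun _ => ?_
    rw [hH0]
    unfold Rwz rows row
    have hab' : PJ E a = PJ E b := hab
    simp only [hab']
  have hkp : Gdy.kp P0 (cz D T E ν) x H0 M s w ≤ cmz h v C E ν Hr us I (ν + s) w := by
    refine (kp_le s w).trans ?_
    show P0.ce (cz D T E ν s) (fun z => ind (A z)) w ≤ _
    have e1 : P0.ce (cz D T E ν s) (fun z => ind (A z)) w =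
        P0.ce (fun z => (cz D T E ν s z, cz D T C ν s z)) (fun z => ind (A z)) w := by
      have h1 := P0.ce_indep_eq (X := PJ E) (Y := PJ C)
        (Wz_indep hv hc ν w).symm (ζ := cz D T E ν s) (φ := fun _ => ()) (ψ := cz D T C ν s)
        (cz_fac T E ν s) (cz_fac T C ν s) (Fac.const _ ()) (f := fun z => ind (A z)) (fun a b hab =>
          hAfac a b (congrArg Prod.fst hab)) hww
      rw [h1]
      exact P0.ce_congr_map (X := cz D T E ν s) (Y := fun z => (cz D T E ν s z, ()))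
        (fun a b hab => by simp only [hab]) (fun a b hab => (Prod.mk.inj hab).1) _ w
    have e2 : P0.ce (fun z => (cz D T E ν s z, cz D T C ν s z)) (fun z => ind (A z)) w =
        (D.P h 0).ce (fun u : Pt (Fin 3) X β φ => ((u.1, NPr v D ν u), (cz D T E ν s u, cz D T C ν s u)))
          (fun z => ind (A z)) w :=
      BP.cond_ce_eq (D.P h 0) (fun u : Pt (Fin 3) X β φ => (u.1, NPr v D ν u))
        (fun z => (cz D T E ν s z, cz D T C ν s z)) _ hw
    rw [e1, e2, (D.P h 0).ce_congr_map (node_fz hv hc hs) (node_fz' hs)]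
    unfold cmz
    refine BP.ce_mono_on _ fun z hz => ind_mono fun hz1 => ?_
    rw [Prod.mk.injEq] at hz
    obtain ⟨z1, z3⟩ := hz
    obtain ⟨r, hr, hH⟩ := hz1
    obtain ⟨hrM, hrel⟩ := hH
    have h4 : NPr v D ν z = NPr v D ν w := NPr_older (by omega) z3
    exact ⟨⟨r, hrM⟩, Finset.mem_filter.2 ⟨Finset.mem_univ _, hr⟩, hrel.1.1, rel_rz hv hc z1 h4 hrel⟩
  refine ⟨I, hne, (Phi_le_kp hx s w).trans hkp, ?_⟩
  rw [hcard]
  have h5 := card_le_kp (P := P0) (X := cz D T E ν) (u := x) (H := H0) (M := M) s w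
  have h6 : (I0.card : ℝ) * x / 4 = I0.card * (x / 4) := by ring
  rw [h6]
  exact h5.trans hkp

/-! ### thin rows -/

theorem rwz_fac {C E : Finset (Fin 3)} {ν : ℕ} {Hr : Pt (Fin 3) X β φ → Prop} {M : ℕ}
    {us : Fin M → Fin 3 → Option β} {I : Finset (Fin M)} {w : Pt (Fin 3) X β φ} :
    Fac (LJ v E ν) (rwz v D C E ν Hr us I w) := by
  intro a b hab
  unfold rwz
  rw [hab]

theorem rwz_cell {C E : Finset (Fin 3)} {ν : ℕ} {Hr : Pt (Fin 3) X β φ → Prop} {M : ℕ}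
    {us : Fin M → Fin 3 → Option β} {I : Finset (Fin M)} {w u : Pt (Fin 3) X β φ}
    (hu : rwz v D C E ν Hr us I w u) : ∀ j ∈ E, D.qb (nt ν) (u.2.1 j) = D.qb (nt ν) (w.2.1 j) := by
  intro j hj
  obtain ⟨i, _, _, z, h1, _, h3, _⟩ := hu
  have e1 : D.qb (nt ν) (z.2.1 j) = D.qb (nt ν) (w.2.1 j) := congrFun (congrArg Prod.snd (congrArg Prod.snd h1)) j
  have e2 : z.2.1 j = u.2.1 j := congrArg Prod.fst (TD.LJ_iff.1 h3 j hj)
  rw [← e2, e1]

theorem rwz_alive {C E : Finset (Fin 3)} {ν : ℕ} {p1 X1 : ℝ} {Hr : Pt (Fin 3) X β φ → Prop}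
    (hR : RelZ h v C E ν p1 X1 Hr) {M : ℕ} {us : Fin M → Fin 3 → Option β} {I : Finset (Fin M)}
    {w u : Pt (Fin 3) X β φ} (hN : NPr v D ν u = NPr v D ν w) (hu : rwz v D C E ν Hr us I w u) :
    -X1 ≤ lJq h v E ν u := by
  obtain ⟨i, _, _, z, h1, _, h3, h4⟩ := hu
  rw [← lJq_eq (h1.trans hN.symm) h3]
  exact hR.alE z h4

theorem thin_row_z {C E : Finset (Fin 3)} {ν : ℕ} {p1 X1 : ℝ} {Hr : Pt (Fin 3) X β φ → Prop}
    (hR : RelZ h v C E ν p1 X1 Hr) (hp0 : 0 ≤ p1) {M : ℕ} (us : Fin M → Fin 3 → Option β) (I : Finset (Fin M))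
    (w : Pt (Fin 3) X β φ) {z : Pt (Fin 3) X β φ} (hz : (D.P h 0).p z ≠ 0) (hzw : NPr v D ν z = NPr v D ν w) :
    (D.P h 0).ce (fun y => (PJ E y, NPr v D ν y)) (fun y => ind (rwz v D C E ν Hr us I w y)) z ≤ I.card * p1 := by
  classical
  set A : Fin M → Pt (Fin 3) X β φ → Prop := fun i y => ∃ z, NPr v D ν z = NPr v D ν w ∧
    LJ v C ν z = LJ v C ν (put C w (us i)) ∧ LJ v E ν z = LJ v E ν y ∧ Hr z with hA
  have h1 : (D.P h 0).ce (fun y => (PJ E y, NPr v D ν y)) (fun y => ind (rwz v D C E ν Hr us I w y)) z ≤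
      (D.P h 0).ce (fun y => (PJ E y, NPr v D ν y)) (fun y => ∑ i ∈ I, ind (A i y)) z := by
    refine (D.P h 0).ce_mono (fun y _ => ?_) z
    by_cases hy : rwz v D C E ν Hr us I w y
    · obtain ⟨i, hi, _, hz'⟩ := hy
      have h2 := Finset.single_le_sum (f := fun i => ind (A i y)) (fun i _ => ind_nonneg _) hi
      have h3 : ind (A i y) = 1 := ind_of hz'
      exact (ind_le_one _).trans (h3 ▸ h2)
    · rw [ind_not hy]
      exact Finset.sum_nonneg fun i _ => ind_nonneg _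
  refine h1.trans ?_
  rw [(D.P h 0).ce_sum]
  have h2 : ∀ i ∈ I, (D.P h 0).ce (fun y => (PJ E y, NPr v D ν y)) (fun y => ind (A i y)) z ≤ p1 := by
    intro i _
    by_cases hex : ∃ y, (PJ E y, NPr v D ν y) = (PJ E z, NPr v D ν z) ∧ A i y
    · obtain ⟨y0, hy0, z0, hz1, hz2, hz3, hz4⟩ := hex
      have e1 : PJ E z0 = PJ E z := (TD.LJ_PJ E ν z0 y0 hz3).trans (congrArg Prod.fst hy0)
      have e2 : NPr v D ν z0 = NPr v D ν z := hz1.trans hzw.symm
      have h3 : (D.P h 0).ce (fun y => (PJ E y, NPr v D ν y)) (fun y => ind (A i y)) z ≤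
          (D.P h 0).ce (fun y => (PJ E y, NPr v D ν y)) (fun u => ind (∃ z, NPr v D ν z = NPr v D ν z0 ∧
            LJ v C ν z = LJ v C ν z0 ∧ LJ v E ν z = LJ v E ν u ∧ Hr z)) z := by
        refine (D.P h 0).ce_mono (fun y _ => ind_mono ?_) z
        rintro ⟨z', k1, k2, k3, k4⟩
        exact ⟨z', k1.trans hz1.symm, k2.trans hz2.symm, k3, k4⟩
      refine h3.trans ?_
      have h4 : (D.P h 0).ce (fun y => (PJ E y, NPr v D ν y)) (fun u => ind (∃ z, NPr v D ν z = NPr v D ν z0 ∧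
            LJ v C ν z = LJ v C ν z0 ∧ LJ v E ν z = LJ v E ν u ∧ Hr z)) z = rowz h v C E ν Hr z0 :=
        (D.P h 0).ce_fac (fun y => (PJ E y, NPr v D ν y)) _ z z0 (Prod.ext e1.symm e2.symm)
      rw [h4]
      exact hR.row z0 hz4
    · have h3 : (D.P h 0).ce (fun y => (PJ E y, NPr v D ν y)) (fun y => ind (A i y)) z = 0 := by
        have h4 : (D.P h 0).ce (fun y => (PJ E y, NPr v D ν y)) (fun y => ind (A i y)) z =
            (D.P h 0).ce (fun y => (PJ E y, NPr v D ν y)) (fun _ => 0) z :=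
          B9.ce_congr_cl (D.P h 0) fun y _ hy => ind_not fun hc => hex ⟨y, hy, hc⟩
        rw [h4]
        exact (D.P h 0).ce_const _ _ hz
      rw [h3]
      exact hp0
  refine (Finset.sum_le_sum h2).trans (le_of_eq ?_)
  rw [Finset.sum_const, nsmul_eq_mul]

theorem thin_later_z {C E : Finset (Fin 3)} {ν : ℕ} {p1 X1 δ : ℝ} {Hr : Pt (Fin 3) X β φ → Prop}
    (hR : RelZ h v C E ν p1 X1 Hr) (hp0 : 0 ≤ p1) (hδ : δ ≤ 1 / 2) {M : ℕ} (us : Fin M → Fin 3 → Option β)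
    (I : Finset (Fin M)) {r : ℕ} (hν : ν ≤ r) (w : Pt (Fin 3) X β φ) {z : Pt (Fin 3) X β φ}
    (hz : (D.P h 0).p z ≠ 0) (hzw : NPr v D ν z = NPr v D ν w) :
    (clq h v r z).Pr (rwz v D C E ν Hr us I w) ≤ 2 * (I.card * p1) + (clq h v r z).Pr (MJq h v δ E ν r) := by
  classical
  set A : Pt (Fin 3) X β φ → Prop := rwz v D C E ν Hr us I w with hA
  have clPr : ∀ B : Pt (Fin 3) X β φ → Prop, (clq h v r z).Pr B = (D.P h 0).ce (NPr v D r) (fun u => ind (B u)) z :=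
    fun B => ((D.P h 0).ce_eq_cond (NPr v D r) (fun u => ind (B u)) hz).symm
  rw [clPr, clPr]
  have hN : ∀ k, Fac (NPr (φ := φ) v D (k + 1)) (NPr v D k) := fun k => TD.NPr_step k
  have hAf : Fac (fun u : Pt (Fin 3) X β φ => (LJ v E ν u, NPr v D ν u)) A := by
    intro a b hab
    exact rwz_fac a b (congrArg Prod.fst hab)
  have h1 : (D.P h 0).ce (NPr v D r) (fun u => ind (A u)) z ≤
      (D.P h 0).ce (NPr v D r) (fun u => ind (¬ MJq h v δ E ν r u ∧ A u) + ind (MJq h v δ E ν r u)) z := by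
    refine (D.P h 0).ce_mono (fun u _ => ?_) z
    by_cases hm : MJq h v δ E ν r u
    · rw [ind_of hm]
      have h3 := ind_le_one (A u)
      have h4 := ind_nonneg (¬ MJq h v δ E ν r u ∧ A u)
      linarith
    · rw [ind_not hm, add_zero]
      exact ind_mono fun hu => ⟨hm, hu⟩
  refine h1.trans ?_
  rw [(D.P h 0).ce_add]
  refine add_le_add ?_ le_rfl
  have hf : Fac (fun u : Pt (Fin 3) X β φ => (PJ E u, NPr v D r u)) (NPr v D r) := fun a b hab =>
    congrArg Prod.snd hab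
  rw [← (D.P h 0).ce_tower hf (fun u => ind (¬ MJq h v δ E ν r u ∧ A u)) z]
  have hlog : δ < Real.log 2 := by
    have := Real.log_two_gt_d9
    linarith
  have hexp : Real.exp δ ≤ 2 := by
    have h2 : Real.exp δ ≤ Real.exp (Real.log 2) := Real.exp_le_exp.2 hlog.le
    rwa [Real.exp_log (by norm_num)] at h2
  have hle : ∀ u, (D.P h 0).p u ≠ 0 → NPr v D r u = NPr v D r z →
      (D.P h 0).ce (fun u => (PJ E u, NPr v D r u)) (fun u => ind (¬ MJq h v δ E ν r u ∧ A u)) u ≤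
        2 * (I.card * p1) := by
    intro u hu hur
    have h2 := unm_le (D.P h 0) (N := NPr v D) (L := LJ v E) (Y := PJ E) hN (fun k => TD.LJ_step E k)
      (fun k => TD.LJ_PJ E k) hlog hν hAf hu
    have h3 : NPr v D ν u = NPr v D ν w := (NPr_older hν hur).trans hzw
    have h4 := thin_row_z hR hp0 us I w hu h3
    have h6 : 0 ≤ (I.card : ℝ) * p1 := mul_nonneg (Nat.cast_nonneg _) hp0
    exact h2.trans (mul_le_mul hexp h4 ((D.P h 0).ce_nonneg (fun _ _ => ind_nonneg _) u) (by norm_num))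
  have h7 := B9.ce_mono_cl (D.P h 0) (Y := NPr v D r) (w := z) hle
  exact h7.trans (le_of_eq ((D.P h 0).ce_const _ _ hz))

/-- the rows are thin at the start -/
theorem thin_start_z {C E : Finset (Fin 3)} {ν : ℕ} {p1 X1 : ℝ} {Hr : Pt (Fin 3) X β φ → Prop}
    (hR : RelZ h v C E ν p1 X1 Hr) (hp0 : 0 ≤ p1) {M : ℕ} (us : Fin M → Fin 3 → Option β)
    (I : Finset (Fin M)) {w : Pt (Fin 3) X β φ} (hw : (D.P h 0).p w ≠ 0) :
    (clq h v ν w).Pr (rwz v D C E ν Hr us I w) ≤ I.card * p1 := by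
  have e0 : (clq h v ν w).Pr (rwz v D C E ν Hr us I w) =
      (D.P h 0).ce (NPr v D ν) (fun u => ind (rwz v D C E ν Hr us I w u)) w :=
    ((D.P h 0).ce_eq_cond (NPr v D ν) (fun u => ind (rwz v D C E ν Hr us I w u)) hw).symm
  rw [e0]
  have h1 : (D.P h 0).ce (NPr v D ν) (fun y => ind (rwz v D C E ν Hr us I w y)) w =
      (D.P h 0).ce (NPr v D ν) ((D.P h 0).ce (fun y => (PJ E y, NPr v D ν y))
        (fun y => ind (rwz v D C E ν Hr us I w y))) w :=
    ((D.P h 0).ce_tower (X := fun y => (PJ E y, NPr v D ν y)) (fun a b hab => congrArg Prod.snd hab) _ w).symm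
  rw [h1]
  have h2 : ∀ y, (D.P h 0).p y ≠ 0 → NPr v D ν y = NPr v D ν w → (D.P h 0).ce (fun y => (PJ E y, NPr v D ν y))
      (fun y => ind (rwz v D C E ν Hr us I w y)) y ≤ (I.card : ℝ) * p1 := fun y hy hyw => thin_row_z hR hp0 us I w hy hyw
  exact (B9.ce_mono_cl (D.P h 0) h2).trans (le_of_eq ((D.P h 0).ce_const _ _ hw))

end Pool.Agent.GMH.RZ
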