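import Pool.Agent.GMH.RZ2
import Pool.Agent.GMH.TD6
import Pool.Agent.GMH.TD6D
import Pool.Agent.GMH.TD9A

/-!
# GMH/RZ3 (helper36): distance of the law of the letters of a group under an event of the hidden point

Even half step, group `J` with at most two vertices, `A` an event of the letters of `J` with alive letters
(`-X1 ≤ lJq J`), `E` an event of the hidden point: `|Q_E(A) - Q(A)| ≤ 6 √((log 1/Q(E) + X1 + 2)/N1)` (`tv_grp`).
Consequence (`rare_grp`): `E = {k ≤ Q(A | hidden point)}`, `4 Q(A) ≤ k`, then `Q(E) ≤ exp (X1 + 2 - N1 k² / 64)`.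
-/

set_option autoImplicit false
set_option linter.unusedSectionVars false

namespace Pool.Agent.GMH.RZ

open Finset Pool.Agent.PWZ Pool.Agent.M3 Pool.Agent.GM Pool.Agent.GM.Harm Pool.Agent.GMH Pool.Agent.GMH.NZ
open Pool.Agent.GMH.V3 Pool.Agent.GMH.Gdy Pool.Agent.GMH.TD

section gen

variable {X β γ φ υ : Type} [Fintype X] [Fintype β] [Fintype φ] [Nonempty X] [Nonempty β]
variable {D : HD (Fin 3) X β γ φ} {al : ℝ} {h : D.Thick al} {v : ℕ → Finset (Fin 3) → X → (Fin 3 → β) → υ}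

/-- letters of an older level in the cell -/
theorem XL_iff0 (hv : Codes D v) {s0 s n : ℕ} (hs : s ≤ n + 1) (hs0 : s0 ≤ s) {c w : Pt (Fin 3) X β φ}
    (hw : NP D v s n w = NP D v s n c) (k : Fin 3) (z : β × List υ) :
    XL v s0 k w = z ↔ w.2.1 k = z.1 ∧ Gl v s0 c k z w.1 := by
  have hq := ((NP_iff hv hs c w).1 hw).2
  unfold XL Gl
  rw [Prod.ext_iff]
  refine and_congr_right fun h1 => ?_
  have e : Um v s0 {k} w.1 w.2.1 = Um v s0 {k} w.1 (Function.update c.2.1 k z.1) := by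
    refine Um_codes hv (hs0.trans hs) {k} w.1 (fun j hj => ?_) fun j => ?_
    · rw [Finset.mem_singleton.1 hj, Function.update_self]
      exact h1
    · by_cases hj : j = k
      · subst hj
        rw [Function.update_self]
        exact congrArg (D.qb n) h1
      · rw [Function.update_of_ne hj]
        exact hq j
  simp only
  rw [e]

variable (D v) in
/-- distance of the law of the letter `k` (level `s0`) under an event of the hidden point -/
noncomputable def dv0 (s0 s n : ℕ) (c : Pt (Fin 3) X β φ) (k : Fin 3) (E : X → Prop) : ℝ :=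
  ∑ z ∈ vals (XL (φ := φ) v s0 k), mC D n c k z.1 * |(muC D v s n c).Pr (fun x => E x ∧ Gl v s0 c k z x) -
    (muC D v s n c).Pr E * (muC D v s n c).Pr (Gl v s0 c k z)|

/-- event of the hidden point and one letter -/
theorem Pc_EL1 (hv : Codes D v) (t : ℕ) {s0 s n : ℕ} (hs : s ≤ n + 1) (hs0 : s0 ≤ s) (c : Pt (Fin 3) X β φ)
    (E : X → Prop) (k : Fin 3) (z : β × List υ) :
    (Pc h v t s n c).E (fun w => ind (E w.1) * ind (XL v s0 k w = z)) =
      mC D n c k z.1 * (muC D v s n c).Pr fun x => E x ∧ Gl v s0 c k z x := by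
  have h1 := Pc_E (h := h) hv t hs c (fun x => ind (E x ∧ Gl v s0 c k z x)) (fun j b => if j = k then ind (b = z.1) else 1)
  have h2 : ∀ j, (nuC D n c j).E (fun b => if j = k then ind (b = z.1) else 1) = if j = k then mC D n c k z.1 else 1 := by
    intro j
    by_cases hj : j = k
    · subst hj; simp only [if_true]; rfl
    · simp only [hj, if_false]; exact FP.E_const _ _
  rw [Finset.prod_congr rfl fun j _ => h2 j, Finset.prod_ite_eq' univ k, if_pos (mem_univ k)] at h1
  rw [mul_comm]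
  refine Eq.trans ?_ h1
  refine FP.E_congr _ fun w hw => ?_
  rw [Finset.prod_ite_eq' univ k (fun j => ind (w.2.1 j = z.1)), if_pos (mem_univ k),
    ind_cg (XL_iff0 hv hs hs0 (Pc_supp hv hs hw) k z), ind_and, ind_and]
  ring

/-- the law of one letter -/
theorem Pc_lw0 (hv : Codes D v) (t : ℕ) {s0 s n : ℕ} (hs : s ≤ n + 1) (hs0 : s0 ≤ s) (c : Pt (Fin 3) X β φ) (k : Fin 3)
    (z : β × List υ) : lw (Pc h v t s n c) (XL v s0 k) z = mC D n c k z.1 * (muC D v s n c).Pr (Gl v s0 c k z) := by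
  have h1 := Pc_EL1 (h := h) hv t hs hs0 c (fun _ => True) k z
  simp only [true_and, ind_of trivial, one_mul] at h1
  exact h1

/-- event of the hidden point and two letters -/
theorem Pc_EL2 (hv : Codes D v) (t : ℕ) {s0 s n : ℕ} (hs : s ≤ n + 1) (hs0 : s0 ≤ s) (c : Pt (Fin 3) X β φ) (E : X → Prop) {i k : Fin 3}
    (hik : i ≠ k) (z z' : β × List υ) :
    (Pc h v t s n c).E (fun w => ind (E w.1) * (ind (XL v s0 i w = z) * ind (XL v s0 k w = z'))) =
      mC D n c i z.1 * (mC D n c k z'.1 * (muC D v s n c).Pr fun x => (E x ∧ Gl v s0 c i z x) ∧ Gl v s0 c k z' x) := by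
  have h1 := Pc_E (h := h) hv t hs c (fun x => ind ((E x ∧ Gl v s0 c i z x) ∧ Gl v s0 c k z' x))
    (fun j b => (if j = i then ind (b = z.1) else 1) * (if j = k then ind (b = z'.1) else 1))
  have h2 : ∀ j, (nuC D n c j).E (fun b => (if j = i then ind (b = z.1) else 1) * (if j = k then ind (b = z'.1) else 1)) =
      (if j = i then mC D n c i z.1 else 1) * (if j = k then mC D n c k z'.1 else 1) := by
    intro j
    by_cases hj : j = i
    · subst hj
      simp only [if_true, hik, if_false, mul_one]; rfl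
    · by_cases hj' : j = k
      · subst hj'
        simp only [if_true, hj, if_false, one_mul]; rfl
      · simp only [hj, hj', if_false, one_mul]; exact FP.E_const _ _
  rw [Finset.prod_congr rfl fun j _ => h2 j, Finset.prod_mul_distrib, Finset.prod_ite_eq' univ i,
    Finset.prod_ite_eq' univ k, if_pos (mem_univ i), if_pos (mem_univ k)] at h1
  have h3 : mC D n c i z.1 * (mC D n c k z'.1 *
      (muC D v s n c).Pr fun x => (E x ∧ Gl v s0 c i z x) ∧ Gl v s0 c k z' x) =
      (muC D v s n c).E (fun x => ind ((E x ∧ Gl v s0 c i z x) ∧ Gl v s0 c k z' x)) * (mC D n c i z.1 * mC D n c k z'.1) := by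
    unfold FP.Pr; ring
  rw [h3]
  refine Eq.trans ?_ h1
  refine FP.E_congr _ fun w hw => ?_
  rw [Finset.prod_mul_distrib, Finset.prod_ite_eq' univ i (fun j => ind (w.2.1 j = z.1)),
    Finset.prod_ite_eq' univ k (fun j => ind (w.2.1 j = z'.1)), if_pos (mem_univ k), if_pos (mem_univ i),
    ind_cg (XL_iff0 hv hs hs0 (Pc_supp hv hs hw) k z'), ind_cg (XL_iff0 hv hs hs0 (Pc_supp hv hs hw) i z), ind_and, ind_and,
    ind_and, ind_and]
  ring

/-- two letters -/
theorem Pc_LL2 (hv : Codes D v) (t : ℕ) {s0 s n : ℕ} (hs : s ≤ n + 1) (hs0 : s0 ≤ s) (c : Pt (Fin 3) X β φ)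
    {i k : Fin 3} (hik : i ≠ k) (z z' : β × List υ) :
    (Pc h v t s n c).E (fun w => ind (XL v s0 i w = z) * ind (XL v s0 k w = z')) =
      mC D n c i z.1 * (mC D n c k z'.1 * (muC D v s n c).Pr fun x => Gl v s0 c i z x ∧ Gl v s0 c k z' x) := by
  have h1 := Pc_EL2 (h := h) hv t hs hs0 c (fun _ => True) hik z z'
  simp only [true_and, ind_of trivial, one_mul] at h1
  exact h1

/-- a function of two letters under an event of the hidden point -/
theorem Pc_pair (hv : Codes D v) (t : ℕ) {s0 s n : ℕ} (hs : s ≤ n + 1) (hs0 : s0 ≤ s) (c : Pt (Fin 3) X β φ) (E : X → Prop) {i k : Fin 3}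
    (hik : i ≠ k) (a : β × List υ → β × List υ → ℝ) :
    (Pc h v t s n c).E (fun w => ind (E w.1) * a (XL v s0 i w) (XL v s0 k w)) =
      ∑ z ∈ vals (XL (φ := φ) v s0 i), ∑ z' ∈ vals (XL (φ := φ) v s0 k), a z z' * (mC D n c i z.1 * (mC D n c k z'.1 *
        (muC D v s n c).Pr fun x => (E x ∧ Gl v s0 c i z x) ∧ Gl v s0 c k z' x)) := by
  have e1 : ∀ z ∈ vals (XL (φ := φ) v s0 i), ∑ z' ∈ vals (XL (φ := φ) v s0 k), a z z' * (mC D n c i z.1 * (mC D n c k z'.1 *
        (muC D v s n c).Pr fun x => (E x ∧ Gl v s0 c i z x) ∧ Gl v s0 c k z' x)) =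
      (Pc h v t s n c).E fun w => ind (XL v s0 i w = z) * (ind (E w.1) * a z (XL v s0 k w)) := by
    intro z _
    have e2 : ∀ z' ∈ vals (XL (φ := φ) v s0 k), a z z' * (mC D n c i z.1 * (mC D n c k z'.1 *
        (muC D v s n c).Pr fun x => (E x ∧ Gl v s0 c i z x) ∧ Gl v s0 c k z' x)) =
        (Pc h v t s n c).E fun w => (ind (XL v s0 i w = z) * ind (E w.1)) * (ind (XL v s0 k w = z') * a z z') := by
      intro z' _
      rw [← Pc_EL2 (h := h) hv t hs hs0 c E hik z z', ← FP.E_smul]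
      exact FP.E_congr _ fun w _ => by ring
    rw [Finset.sum_congr rfl e2, ← FP.E_sum]
    refine FP.E_congr _ fun w _ => ?_
    rw [← Finset.mul_sum, FP.sum_vals (XL (φ := φ) v s0 k) (fun z' => a z z') w, mul_assoc]
  rw [Finset.sum_congr rfl e1, ← FP.E_sum]
  refine FP.E_congr _ fun w _ => ?_
  exact (FP.sum_vals (XL (φ := φ) v s0 i) (fun z => ind (E w.1) * a z (XL v s0 k w)) w).symm

/-- a function of one letter under an event of the hidden point -/
theorem Pc_one (hv : Codes D v) (t : ℕ) {s0 s n : ℕ} (hs : s ≤ n + 1) (hs0 : s0 ≤ s) (c : Pt (Fin 3) X β φ) (E : X → Prop) (k : Fin 3)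
    (a : β × List υ → ℝ) :
    (Pc h v t s n c).E (fun w => ind (E w.1) * a (XL v s0 k w)) =
      ∑ z ∈ vals (XL (φ := φ) v s0 k), a z * (mC D n c k z.1 * (muC D v s n c).Pr fun x => E x ∧ Gl v s0 c k z x) := by
  have e2 : ∀ z ∈ vals (XL (φ := φ) v s0 k), a z * (mC D n c k z.1 *
      (muC D v s n c).Pr fun x => E x ∧ Gl v s0 c k z x) =
      (Pc h v t s n c).E fun w => ind (XL v s0 k w = z) * (ind (E w.1) * a z) := by
    intro z _
    rw [← Pc_EL1 (h := h) hv t hs hs0 c E k z, ← FP.E_smul]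
    exact FP.E_congr _ fun w _ => by ring
  rw [Finset.sum_congr rfl e2, ← FP.E_sum]
  refine FP.E_congr _ fun w _ => ?_
  exact (FP.sum_vals (XL (φ := φ) v s0 k) (fun z => ind (E w.1) * a z) w).symm

/-- one letter -/
theorem one_tv (hv : Codes D v) (t : ℕ) {s0 s n : ℕ} (hs : s ≤ n + 1) (hs0 : s0 ≤ s) (c : Pt (Fin 3) X β φ) (E : X → Prop) (k : Fin 3)
    {a : β × List υ → ℝ} (ha0 : ∀ z, 0 ≤ a z) (ha1 : ∀ z, a z ≤ 1) :
    |(Pc h v t s n c).E (fun w => ind (E w.1) * a (XL v s0 k w)) -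
      (muC D v s n c).Pr E * (Pc h v t s n c).E (fun w => a (XL v s0 k w))| ≤ dv0 D v s0 s n c k E := by
  have e0 : (Pc h v t s n c).E (fun w => a (XL v s0 k w)) =
      ∑ z ∈ vals (XL (φ := φ) v s0 k), a z * (mC D n c k z.1 * (muC D v s n c).Pr (Gl v s0 c k z)) := by
    rw [← sum_lw (Pc h v t s n c) (XL v s0 k) a]
    refine Finset.sum_congr rfl fun z _ => ?_
    rw [Pc_lw0 hv t hs hs0]
    ring
  rw [Pc_one hv t hs hs0 c E k a, e0, Finset.mul_sum, ← Finset.sum_sub_distrib]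
  refine (Finset.abs_sum_le_sum_abs _ _).trans (Finset.sum_le_sum fun z _ => ?_)
  have e1 : a z * (mC D n c k z.1 * (muC D v s n c).Pr fun x => E x ∧ Gl v s0 c k z x) -
      (muC D v s n c).Pr E * (a z * (mC D n c k z.1 * (muC D v s n c).Pr (Gl v s0 c k z))) =
      a z * (mC D n c k z.1 * ((muC D v s n c).Pr (fun x => E x ∧ Gl v s0 c k z x) -
        (muC D v s n c).Pr E * (muC D v s n c).Pr (Gl v s0 c k z))) := by ring
  rw [e1, abs_mul, abs_mul, abs_of_nonneg (ha0 z), abs_of_nonneg (mC_nonneg n c k z.1)]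
  refine mul_le_of_le_one_left (mul_nonneg (mC_nonneg n c k z.1) (abs_nonneg _)) (ha1 z)

/-- **two letters, alive** -/
theorem pair_tv (hv : Codes D v) (t : ℕ) {s0 s n : ℕ} (hs : s ≤ n + 1) (hs0 : s0 ≤ s) (c : Pt (Fin 3) X β φ) {i k : Fin 3} (hik : i ≠ k)
    {N1 X1 : ℝ} (hN1 : 0 < N1) (hX1 : 0 ≤ X1)
    (hd : ∀ (j : Fin 3) (E : X → Prop) (a : ℝ), Real.exp (-a) ≤ (muC D v s n c).Pr E →
      dv0 D v s0 s n c j E ≤ Real.sqrt (4 * (a + 1) / N1) * (muC D v s n c).Pr E)
    {E : X → Prop} (hE : 0 < (muC D v s n c).Pr E) {a : β × List υ → β × List υ → ℝ} (ha0 : ∀ z z', 0 ≤ a z z')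
    (ha1 : ∀ z z', a z z' ≤ 1) (hal : ∀ z z', a z z' ≠ 0 → Real.exp (-X1) ≤ (muC D v s n c).Pr (Gl v s0 c i z)) :
    |(Pc h v t s n c).E (fun w => ind (E w.1) * a (XL v s0 i w) (XL v s0 k w)) -
      (muC D v s n c).Pr E * (Pc h v t s n c).E (fun w => a (XL v s0 i w) (XL v s0 k w))| ≤
      (muC D v s n c).Pr E * (6 * Real.sqrt ((Real.log (1 / (muC D v s n c).Pr E) + X1 + 2) / N1)) := by
  classical
  set μ := muC D v s n c with hμ
  set P := Pc h v t s n c with hP
  set q := μ.Pr E with hq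
  set L := Real.log (1 / q) with hL
  have hq1 : q ≤ 1 := μ.Pr_le_one E
  have hL0 : 0 ≤ L := Real.log_nonneg (by rw [le_div_iff₀ hE]; linarith)
  have eL : Real.exp (-L) = q := by rw [hL, one_div, Real.log_inv, neg_neg, Real.exp_log hE]
  set ρ := Real.sqrt ((L + X1 + 2) / N1) with hρ
  have hρ0 : 0 < ρ := Real.sqrt_pos.2 (div_pos (by linarith) hN1)
  have hρ2 : ρ ^ 2 = (L + X1 + 2) / N1 := Real.sq_sqrt (div_nonneg (by linarith) hN1.le)
  have sq2 : ∀ b, 0 ≤ b → b + 1 ≤ L + X1 + 2 → Real.sqrt (4 * (b + 1) / N1) ≤ 2 * ρ := by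
    intro b hb hb2
    refine Real.sqrt_le_iff.2 ⟨by linarith, ?_⟩
    have h1 : (2 * ρ) ^ 2 = 4 * (L + X1 + 2) / N1 := by
      rw [mul_pow, hρ2]
      ring
    rw [h1]
    exact div_le_div_of_nonneg_right (by linarith) hN1.le
  set al' : β × List υ → ℝ := fun z => ind (Real.exp (-X1) ≤ μ.Pr (Gl v s0 c i z)) with hal'
  have al0 : ∀ z, 0 ≤ al' z := fun z => ind_nonneg _
  have aal : ∀ z z', a z z' ≤ al' z := by
    intro z z'
    by_cases hz : a z z' = 0
    · rw [hz]; exact al0 z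
    · simp only [hal']
      rw [ind_of (hal z z' hz)]
      exact ha1 z z'
  have e0 : P.E (fun w => a (XL v s0 i w) (XL v s0 k w)) = ∑ z ∈ vals (XL (φ := φ) v s0 i), ∑ z' ∈ vals (XL (φ := φ) v s0 k),
      a z z' * (mC D n c i z.1 * (mC D n c k z'.1 * μ.Pr fun x => Gl v s0 c i z x ∧ Gl v s0 c k z' x)) := by
    rw [← sum_lw2 P (XL v s0 i) (XL v s0 k) a]
    refine Finset.sum_congr rfl fun z _ => Finset.sum_congr rfl fun z' _ => ?_
    have h2 : lw2 P (XL v s0 i) (XL v s0 k) z z' = _ := Pc_LL2 (h := h) hv t hs hs0 c hik z z'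
    rw [h2]
    ring
  have m1 : ∑ z ∈ vals (XL (φ := φ) v s0 i), mC D n c i z.1 * μ.Pr (Gl v s0 c i z) = 1 := by
    rw [← sum_lw_one P (XL v s0 i)]
    exact Finset.sum_congr rfl fun z _ => (Pc_lw0 hv t hs hs0 c i z).symm
  have m2 : ∑ z ∈ vals (XL (φ := φ) v s0 k), mC D n c k z.1 * μ.Pr (Gl v s0 c k z) = 1 := by
    rw [← sum_lw_one P (XL v s0 k)]
    exact Finset.sum_congr rfl fun z _ => (Pc_lw0 hv t hs hs0 c k z).symm
  have m3 : ∑ z ∈ vals (XL (φ := φ) v s0 i), mC D n c i z.1 * μ.Pr (fun x => E x ∧ Gl v s0 c i z x) = q := by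
    have h1 := Pc_one (h := h) hv t hs hs0 c E i (fun _ => 1)
    simp only [one_mul, mul_one] at h1
    rw [← h1]
    exact Pc_E0 (h := h) hv t hs c fun x => ind (E x)
  -- one row
  have row : ∀ z, ∑ z' ∈ vals (XL (φ := φ) v s0 k), |a z z' * (mC D n c i z.1 * (mC D n c k z'.1 *
        μ.Pr fun x => (E x ∧ Gl v s0 c i z x) ∧ Gl v s0 c k z' x)) - q * (a z z' * (mC D n c i z.1 * (mC D n c k z'.1 *
          μ.Pr fun x => Gl v s0 c i z x ∧ Gl v s0 c k z' x)))| ≤
      mC D n c i z.1 * (al' z * dv0 D v s0 s n c k (fun x => E x ∧ Gl v s0 c i z x)) +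
        mC D n c i z.1 * |μ.Pr (fun x => E x ∧ Gl v s0 c i z x) - q * μ.Pr (Gl v s0 c i z)| +
        q * (mC D n c i z.1 * (al' z * dv0 D v s0 s n c k (Gl v s0 c i z))) := by
    intro z
    have hm := mC_nonneg (D := D) n c i z.1
    have e1 : mC D n c i z.1 * |μ.Pr (fun x => E x ∧ Gl v s0 c i z x) - q * μ.Pr (Gl v s0 c i z)| =
        ∑ z' ∈ vals (XL (φ := φ) v s0 k), mC D n c i z.1 *
          (|μ.Pr (fun x => E x ∧ Gl v s0 c i z x) - q * μ.Pr (Gl v s0 c i z)| *
            (mC D n c k z'.1 * μ.Pr (Gl v s0 c k z'))) := by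
      rw [← Finset.mul_sum, ← Finset.mul_sum, m2, mul_one]
    rw [e1]
    unfold dv0
    rw [Finset.mul_sum, Finset.mul_sum, Finset.mul_sum, Finset.mul_sum, Finset.mul_sum, ← Finset.sum_add_distrib,
      ← Finset.sum_add_distrib]
    refine Finset.sum_le_sum fun z' _ => ?_
    have hm' := mC_nonneg (D := D) n c k z'.1
    rw [← hμ]
    set x3 := μ.Pr fun x => (E x ∧ Gl v s0 c i z x) ∧ Gl v s0 c k z' x with hx3
    set x2 := μ.Pr fun x => Gl v s0 c i z x ∧ Gl v s0 c k z' x with hx2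
    set ez := μ.Pr fun x => E x ∧ Gl v s0 c i z x with hez
    set g := μ.Pr (Gl v s0 c i z) with hg
    set g' := μ.Pr (Gl v s0 c k z') with hg'
    have hg0 : 0 ≤ g' := μ.Pr_nonneg _
    have e2 : a z z' * (mC D n c i z.1 * (mC D n c k z'.1 * x3)) - q * (a z z' * (mC D n c i z.1 *
        (mC D n c k z'.1 * x2))) = (a z z' * (mC D n c i z.1 * mC D n c k z'.1)) *
          ((x3 - ez * g') + (ez - q * g) * g' - q * (x2 - g * g')) := by ring
    rw [e2, abs_mul, abs_of_nonneg (mul_nonneg (ha0 z z') (mul_nonneg hm hm'))]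
    have e3 : |(x3 - ez * g') + (ez - q * g) * g' - q * (x2 - g * g')| ≤
        |x3 - ez * g'| + |ez - q * g| * g' + q * |x2 - g * g'| := by
      have h1 := abs_sub ((x3 - ez * g') + (ez - q * g) * g') (q * (x2 - g * g'))
      have h2 := abs_add_le (x3 - ez * g') ((ez - q * g) * g')
      rw [abs_mul (ez - q * g), abs_of_nonneg hg0] at h2
      rw [abs_mul q, abs_of_nonneg hE.le] at h1
      linarith
    have k1 : a z z' * |x3 - ez * g'| ≤ al' z * |x3 - ez * g'| := mul_le_mul_of_nonneg_right (aal z z') (abs_nonneg _)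
    have k2 : a z z' * (|ez - q * g| * g') ≤ |ez - q * g| * g' :=
      mul_le_of_le_one_left (mul_nonneg (abs_nonneg _) hg0) (ha1 z z')
    have k3 : a z z' * |x2 - g * g'| ≤ al' z * |x2 - g * g'| := mul_le_mul_of_nonneg_right (aal z z') (abs_nonneg _)
    have hmm : 0 ≤ mC D n c i z.1 * mC D n c k z'.1 := mul_nonneg hm hm'
    have k4 : a z z' * ((|x3 - ez * g'| + |ez - q * g| * g' + q * |x2 - g * g'|)) ≤
        al' z * |x3 - ez * g'| + |ez - q * g| * g' + q * (al' z * |x2 - g * g'|) := by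
      have := mul_le_mul_of_nonneg_left k3 hE.le
      linarith
    calc a z z' * (mC D n c i z.1 * mC D n c k z'.1) * |(x3 - ez * g') + (ez - q * g) * g' - q * (x2 - g * g')|
        ≤ a z z' * (mC D n c i z.1 * mC D n c k z'.1) * (|x3 - ez * g'| + |ez - q * g| * g' + q * |x2 - g * g'|) :=
          mul_le_mul_of_nonneg_left e3 (mul_nonneg (ha0 z z') hmm)
      _ = (mC D n c i z.1 * mC D n c k z'.1) * (a z z' * (|x3 - ez * g'| + |ez - q * g| * g' + q * |x2 - g * g'|)) := by
          ring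
      _ ≤ (mC D n c i z.1 * mC D n c k z'.1) * (al' z * |x3 - ez * g'| + |ez - q * g| * g' +
            q * (al' z * |x2 - g * g'|)) := mul_le_mul_of_nonneg_left k4 hmm
      _ = _ := by ring
  -- the first term
  have t1 : ∑ z ∈ vals (XL (φ := φ) v s0 i), mC D n c i z.1 * (al' z * dv0 D v s0 s n c k (fun x => E x ∧ Gl v s0 c i z x)) ≤
      2 * ρ * q := by
    have h1 : ∀ z, al' z * dv0 D v s0 s n c k (fun x => E x ∧ Gl v s0 c i z x) ≤
        (ρ + 2 * (L + X1) / (2 * ρ * N1)) * μ.Pr (fun x => E x ∧ Gl v s0 c i z x) +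
          2 * q / (2 * ρ * N1) * μ.Pr (Gl v s0 c i z) := by
      intro z
      set ez := μ.Pr fun x => E x ∧ Gl v s0 c i z x with hez
      have hez0 : 0 ≤ ez := μ.Pr_nonneg _
      have hg0 : 0 ≤ μ.Pr (Gl v s0 c i z) := μ.Pr_nonneg _
      have hr0 : 0 ≤ (ρ + 2 * (L + X1) / (2 * ρ * N1)) * ez + 2 * q / (2 * ρ * N1) * μ.Pr (Gl v s0 c i z) := by
        have k1 : 0 ≤ 2 * (L + X1) / (2 * ρ * N1) := div_nonneg (by linarith) (by positivity)
        have k2 : 0 ≤ 2 * q / (2 * ρ * N1) := div_nonneg (by linarith) (by positivity)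
        have k3 := mul_nonneg (add_nonneg hρ0.le k1) hez0
        have k4 := mul_nonneg k2 hg0
        linarith
      by_cases hz : Real.exp (-X1) ≤ μ.Pr (Gl v s0 c i z)
      · rcases hez0.eq_or_lt with h0 | h0
        · -- no mass
          have h2 : dv0 D v s0 s n c k (fun x => E x ∧ Gl v s0 c i z x) = 0 := by
            unfold dv0
            refine Finset.sum_eq_zero fun z' _ => ?_
            rw [← hμ, ← hez, ← h0, zero_mul, sub_zero]
            have h3 : μ.Pr (fun x => (E x ∧ Gl v s0 c i z x) ∧ Gl v s0 c k z' x) = 0 :=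
              le_antisymm ((μ.Pr_mono fun x _ hx => hx.1).trans h0.symm.le) (μ.Pr_nonneg _)
            rw [h3, abs_zero, mul_zero]
          rw [h2, mul_zero]
          exact hr0
        · simp only [hal']
          rw [ind_of hz, one_mul]
          have h2 := hd k (fun x => E x ∧ Gl v s0 c i z x) (-Real.log ez) (by rw [neg_neg, Real.exp_log h0])
          refine h2.trans ?_
          rw [← hez]
          have hb : 0 ≤ -Real.log ez := by
            have := Real.log_nonpos hez0 (hez ▸ μ.Pr_le_one _)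
            linarith
          have h3 : Real.sqrt (4 * (-Real.log ez + 1) / N1) ≤ ρ + 2 * (-Real.log ez + 1) / (2 * ρ * N1) := by
            have hy : 0 ≤ 4 * (-Real.log ez + 1) / N1 := div_nonneg (by linarith) hN1.le
            have h4 : 2 * (-Real.log ez + 1) / (2 * ρ * N1) = (4 * (-Real.log ez + 1) / N1) / (4 * ρ) := by
              field_simp
            rw [h4]
            refine Real.sqrt_le_iff.2 ⟨add_nonneg hρ0.le (div_nonneg hy (by linarith)), ?_⟩
            have h5 : (ρ + (4 * (-Real.log ez + 1) / N1) / (4 * ρ)) ^ 2 =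
                (4 * (-Real.log ez + 1) / N1) + (ρ - (4 * (-Real.log ez + 1) / N1) / (4 * ρ)) ^ 2 := by
              have h6 : ρ * ((4 * (-Real.log ez + 1) / N1) / (4 * ρ)) = (4 * (-Real.log ez + 1) / N1) / 4 := by
                field_simp
              nlinarith [h6]
            rw [h5]
            have := sq_nonneg (ρ - (4 * (-Real.log ez + 1) / N1) / (4 * ρ))
            linarith
          have h4 := mul_le_mul_of_nonneg_right h3 hez0
          refine h4.trans ?_
          -- entropy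
          have h5 : ez * (-Real.log ez + 1) ≤ ez * (L + X1) + q * μ.Pr (Gl v s0 c i z) := by
            have h6 := Real.log_le_sub_one_of_pos (show 0 < Real.exp (-X1) * q / ez by positivity)
            rw [Real.log_div (by positivity) h0.ne', Real.log_mul (Real.exp_pos _).ne' hE.ne', Real.log_exp] at h6
            have h7 : Real.log q = -L := by rw [← eL, Real.log_exp]
            rw [h7] at h6
            have h8 := mul_le_mul_of_nonneg_left h6 hez0
            have h9 : ez * (Real.exp (-X1) * q / ez - 1) = Real.exp (-X1) * q - ez := by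
              field_simp
            rw [h9] at h8
            have h10 := mul_le_mul_of_nonneg_right hz hE.le
            nlinarith
          have h6 : (ρ + 2 * (-Real.log ez + 1) / (2 * ρ * N1)) * ez =
              ρ * ez + (ez * (-Real.log ez + 1)) * (2 / (2 * ρ * N1)) := by ring
          have h7 : (ρ + 2 * (L + X1) / (2 * ρ * N1)) * ez + 2 * q / (2 * ρ * N1) * μ.Pr (Gl v s0 c i z) =
              ρ * ez + (ez * (L + X1) + q * μ.Pr (Gl v s0 c i z)) * (2 / (2 * ρ * N1)) := by ring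
          rw [h6, h7]
          have h8 : 0 ≤ 2 / (2 * ρ * N1) := by positivity
          have := mul_le_mul_of_nonneg_right h5 h8
          linarith
      · simp only [hal']
        rw [ind_not hz, zero_mul]
        exact hr0
    refine (Finset.sum_le_sum fun z _ => mul_le_mul_of_nonneg_left (h1 z) (mC_nonneg n c i z.1)).trans ?_
    have e1 : ∀ z ∈ vals (XL (φ := φ) v s0 i), mC D n c i z.1 *
        ((ρ + 2 * (L + X1) / (2 * ρ * N1)) * μ.Pr (fun x => E x ∧ Gl v s0 c i z x) +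
          2 * q / (2 * ρ * N1) * μ.Pr (Gl v s0 c i z)) =
        (ρ + 2 * (L + X1) / (2 * ρ * N1)) * (mC D n c i z.1 * μ.Pr (fun x => E x ∧ Gl v s0 c i z x)) +
          2 * q / (2 * ρ * N1) * (mC D n c i z.1 * μ.Pr (Gl v s0 c i z)) := fun z _ => by ring
    rw [Finset.sum_congr rfl e1, Finset.sum_add_distrib, ← Finset.mul_sum, ← Finset.mul_sum, m3, m1]
    have h2 : (L + X1 + 1) / N1 ≤ ρ ^ 2 := by
      rw [hρ2]
      exact div_le_div_of_nonneg_right (by linarith) hN1.le
    have h3 : (ρ + 2 * (L + X1) / (2 * ρ * N1)) * q + 2 * q / (2 * ρ * N1) * 1 =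
        ρ * q + ((L + X1 + 1) / N1) * (q / ρ) := by
      field_simp
      ring
    rw [h3]
    have h4 := mul_le_mul_of_nonneg_right h2 (show 0 ≤ q / ρ by positivity)
    have h5 : ρ ^ 2 * (q / ρ) = ρ * q := by
      field_simp
    linarith
  -- the second term
  have t2 : ∑ z ∈ vals (XL (φ := φ) v s0 i), mC D n c i z.1 *
      |μ.Pr (fun x => E x ∧ Gl v s0 c i z x) - q * μ.Pr (Gl v s0 c i z)| ≤ 2 * ρ * q := by
    have h1 := hd i E L (by rw [eL])
    refine (show _ ≤ _ from h1).trans ?_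
    exact mul_le_mul_of_nonneg_right (sq2 L hL0 (by linarith)) hE.le
  -- the third term
  have t3 : ∑ z ∈ vals (XL (φ := φ) v s0 i), q * (mC D n c i z.1 * (al' z * dv0 D v s0 s n c k (Gl v s0 c i z))) ≤
      2 * ρ * q := by
    have h1 : ∀ z, al' z * dv0 D v s0 s n c k (Gl v s0 c i z) ≤ 2 * ρ * μ.Pr (Gl v s0 c i z) := by
      intro z
      have hg0 : 0 ≤ μ.Pr (Gl v s0 c i z) := μ.Pr_nonneg _
      by_cases hz : Real.exp (-X1) ≤ μ.Pr (Gl v s0 c i z)
      · simp only [hal']
        rw [ind_of hz, one_mul]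
        exact (hd k (Gl v s0 c i z) X1 hz).trans (mul_le_mul_of_nonneg_right (sq2 X1 hX1 (by linarith)) hg0)
      · simp only [hal']
        rw [ind_not hz, zero_mul]
        positivity
    rw [← Finset.mul_sum]
    have h2 := Finset.sum_le_sum fun z (_ : z ∈ vals (XL (φ := φ) v s0 i)) =>
      mul_le_mul_of_nonneg_left (h1 z) (mC_nonneg (D := D) n c i z.1)
    have e1 : ∀ z ∈ vals (XL (φ := φ) v s0 i), mC D n c i z.1 * (2 * ρ * μ.Pr (Gl v s0 c i z)) =
        2 * ρ * (mC D n c i z.1 * μ.Pr (Gl v s0 c i z)) := fun z _ => by ring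
    rw [Finset.sum_congr rfl e1, ← Finset.mul_sum, m1, mul_one] at h2
    have := mul_le_mul_of_nonneg_left h2 hE.le
    linarith
  rw [Pc_pair hv t hs hs0 c E hik a, e0, Finset.mul_sum, ← Finset.sum_sub_distrib]
  refine (Finset.abs_sum_le_sum_abs _ _).trans ?_
  have h1 : ∀ z ∈ vals (XL (φ := φ) v s0 i), |∑ z' ∈ vals (XL (φ := φ) v s0 k), a z z' * (mC D n c i z.1 *
      (mC D n c k z'.1 * μ.Pr fun x => (E x ∧ Gl v s0 c i z x) ∧ Gl v s0 c k z' x)) - q * ∑ z' ∈ vals (XL (φ := φ) v s0 k),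
        a z z' * (mC D n c i z.1 * (mC D n c k z'.1 * μ.Pr fun x => Gl v s0 c i z x ∧ Gl v s0 c k z' x))| ≤
      mC D n c i z.1 * (al' z * dv0 D v s0 s n c k (fun x => E x ∧ Gl v s0 c i z x)) +
        mC D n c i z.1 * |μ.Pr (fun x => E x ∧ Gl v s0 c i z x) - q * μ.Pr (Gl v s0 c i z)| +
        q * (mC D n c i z.1 * (al' z * dv0 D v s0 s n c k (Gl v s0 c i z))) := by
    intro z _
    refine le_trans ?_ (row z)
    rw [Finset.mul_sum, ← Finset.sum_sub_distrib]
    exact Finset.abs_sum_le_sum_abs _ _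
  refine (Finset.sum_le_sum h1).trans ?_
  rw [Finset.sum_add_distrib, Finset.sum_add_distrib]
  linarith

/-- masses of letters in another law of the hidden point -/
theorem sum_mG (n : ℕ) (c : Pt (Fin 3) X β φ) (i : Fin 3) (s0 : ℕ) (μ0 : FP X) :
    ∑ z ∈ vals (XL (φ := φ) v s0 i), mC D n c i z.1 * μ0.Pr (Gl v s0 c i z) ≤ 1 := by
  classical
  have e1 : ∀ z ∈ vals (XL (φ := φ) v s0 i), mC D n c i z.1 * μ0.Pr (Gl v s0 c i z) =
      (nuC D n c i).E (fun b => μ0.E fun x => ind (b = z.1) * ind (Gl v s0 c i z x)) := by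
    intro z _
    unfold mC FP.Pr
    rw [← FP.E_mul_const]
    refine FP.E_congr _ fun b _ => ?_
    rw [FP.E_smul]
  rw [Finset.sum_congr rfl e1, ← FP.E_sum]
  rw [← (nuC D n c i).E_const 1]
  refine FP.E_mono _ fun b _ => ?_
  rw [← FP.E_sum]
  rw [← μ0.E_const 1]
  refine FP.E_mono _ fun x _ => ?_
  set z0 : β × List υ := (b, Um v s0 {i} x (Function.update c.2.1 i b)) with hz0
  have h1 : ∀ z ∈ vals (XL (φ := φ) v s0 i), ind (b = z.1) * ind (Gl v s0 c i z x) ≤ ind (z = z0) := by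
    intro z _
    by_cases hb : b = z.1
    · by_cases hg : Gl v s0 c i z x
      · have : z = z0 := by
          refine Prod.ext hb.symm ?_
          show z.2 = Um v s0 {i} x (Function.update c.2.1 i b)
          rw [hb]
          exact hg.symm
        rw [ind_of this, ind_of hb, ind_of hg, one_mul]
      · rw [ind_not hg, mul_zero]
        exact ind_nonneg _
    · rw [ind_not hb, zero_mul]
      exact ind_nonneg _
  refine (Finset.sum_le_sum h1).trans ?_
  by_cases hm : z0 ∈ vals (XL (φ := φ) v s0 i)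
  · rw [Finset.sum_eq_single z0 (fun z _ hz => ind_not hz) (fun hc => absurd hm hc), ind_of rfl]
  · have h2 : ∀ z ∈ vals (XL (φ := φ) v s0 i), ind (z = z0) = 0 := by
      intro z hz
      refine ind_not fun hc => hm ?_
      rw [← hc]
      exact hz
    rw [Finset.sum_eq_zero h2]
    exact zero_le_one

/-- **two letters** : alive in another law of the hidden point -/
theorem pair_tv2 (hv : Codes D v) (t : ℕ) {s0 s n : ℕ} (hs : s ≤ n + 1) (hs0 : s0 ≤ s) (c : Pt (Fin 3) X β φ)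
    {i k : Fin 3} (hik : i ≠ k) {N1 X1 X2 : ℝ} (hN1 : 0 < N1) (hX2 : 0 ≤ X2)
    (hd : ∀ (j : Fin 3) (E : X → Prop) (a : ℝ), Real.exp (-a) ≤ (muC D v s n c).Pr E →
      dv0 D v s0 s n c j E ≤ Real.sqrt (4 * (a + 1) / N1) * (muC D v s n c).Pr E)
    {E : X → Prop} (hE : 0 < (muC D v s n c).Pr E) {a : β × List υ → β × List υ → ℝ} (ha0 : ∀ z z', 0 ≤ a z z')
    (ha1 : ∀ z z', a z z' ≤ 1) {μ0 : FP X} (hal : ∀ z z', a z z' ≠ 0 → Real.exp (-X1) ≤ μ0.Pr (Gl v s0 c i z)) :
    |(Pc h v t s n c).E (fun w => ind (E w.1) * a (XL v s0 i w) (XL v s0 k w)) -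
      (muC D v s n c).Pr E * (Pc h v t s n c).E (fun w => a (XL v s0 i w) (XL v s0 k w))| ≤
      (muC D v s n c).Pr E * (Real.exp (X1 - X2) +
        8 * Real.sqrt ((Real.log (1 / (muC D v s n c).Pr E) + X2 + 2) / N1)) := by
  classical
  set μ := muC D v s n c with hμ
  set P := Pc h v t s n c with hP
  set q := μ.Pr E with hq
  set L := Real.log (1 / q) with hL
  have hq1 : q ≤ 1 := μ.Pr_le_one E
  have hL0 : 0 ≤ L := Real.log_nonneg (by rw [le_div_iff₀ hE]; linarith)
  have eL : Real.exp (-L) = q := by rw [hL, one_div, Real.log_inv, neg_neg, Real.exp_log hE]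
  set ρ := Real.sqrt ((L + X2 + 2) / N1) with hρ
  have hρ0 : 0 ≤ ρ := Real.sqrt_nonneg _
  set lv : β × List υ → ℝ := fun z => ind (Real.exp (-X2) ≤ μ.Pr (Gl v s0 c i z)) with hlv
  have lv0 : ∀ z, 0 ≤ lv z := fun z => ind_nonneg _
  have lv1 : ∀ z, lv z ≤ 1 := fun z => ind_le_one _
  set b : β × List υ → ℝ := fun z => (1 - lv z) * ind (∃ z', a z z' ≠ 0) with hb
  have hb0 : ∀ z, 0 ≤ b z := fun z => mul_nonneg (by linarith [lv1 z]) (ind_nonneg _)
  have hb1 : ∀ z, b z ≤ 1 := fun z => mul_le_one₀ (by linarith [lv0 z]) (ind_nonneg _) (ind_le_one _)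
  have h1 := pair_tv (h := h) hv t hs hs0 c hik hN1 hX2 hd hE (a := fun z z' => a z z' * lv z)
    (fun z z' => mul_nonneg (ha0 z z') (lv0 z)) (fun z z' => mul_le_one₀ (ha1 z z') (lv0 z) (lv1 z)) (by
      intro z z' hz
      by_contra hcon
      refine hz ?_
      simp only [hlv]
      rw [ind_not hcon, mul_zero])
  rw [← hP, ← hμ, ← hq, ← hL, ← hρ] at h1
  have hab : ∀ z z', a z z' * (1 - lv z) ≤ b z := by
    intro z z'
    by_cases hz : a z z' = 0
    · rw [hz, zero_mul]; exact hb0 z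
    · simp only [hb]
      rw [ind_of ⟨z', hz⟩, mul_one]
      exact mul_le_of_le_one_left (by linarith [lv1 z]) (ha1 z z')
  have hPb : P.E (fun w => b (XL v s0 i w)) ≤ Real.exp (X1 - X2) := by
    rw [← sum_lw P (XL v s0 i) b]
    have h2 : ∀ z ∈ vals (XL (φ := φ) v s0 i), lw P (XL v s0 i) z * b z ≤
        Real.exp (X1 - X2) * (mC D n c i z.1 * μ0.Pr (Gl v s0 c i z)) := by
      intro z _
      rw [Pc_lw0 hv t hs hs0 c i z]
      have hm := mC_nonneg (D := D) n c i z.1
      have hg0 : 0 ≤ μ0.Pr (Gl v s0 c i z) := μ0.Pr_nonneg _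
      by_cases hz : Real.exp (-X2) ≤ μ.Pr (Gl v s0 c i z)
      · have : b z = 0 := by
          simp only [hb, hlv]
          rw [ind_of hz, sub_self, zero_mul]
        rw [this, mul_zero]
        positivity
      · by_cases hex : ∃ z', a z z' ≠ 0
        · obtain ⟨z', hz'⟩ := hex
          have h3 := hal z z' hz'
          have h4 : μ.Pr (Gl v s0 c i z) ≤ Real.exp (X1 - X2) * μ0.Pr (Gl v s0 c i z) := by
            have h5 : Real.exp (X1 - X2) * Real.exp (-X1) = Real.exp (-X2) := by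
              rw [← Real.exp_add]
              congr 1
              ring
            have h6 := mul_le_mul_of_nonneg_left h3 (Real.exp_pos (X1 - X2)).le
            rw [h5] at h6
            linarith [not_le.1 hz]
          have h5 : mC D n c i z.1 * μ.Pr (Gl v s0 c i z) ≤
              Real.exp (X1 - X2) * (mC D n c i z.1 * μ0.Pr (Gl v s0 c i z)) := by
            have := mul_le_mul_of_nonneg_left h4 hm
            linarith
          exact (mul_le_of_le_one_right (mul_nonneg hm (μ.Pr_nonneg _)) (hb1 z)).trans h5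
        · have : b z = 0 := by
            simp only [hb]
            rw [ind_not hex, mul_zero]
          rw [this, mul_zero]
          positivity
    refine (Finset.sum_le_sum h2).trans ?_
    rw [← Finset.mul_sum]
    have h3 := sum_mG (D := D) (v := v) n c i s0 μ0
    exact mul_le_of_le_one_right (Real.exp_pos _).le h3
  have hPb0 : 0 ≤ P.E (fun w => b (XL v s0 i w)) := P.E_nonneg fun w _ => hb0 _
  have h2 := one_tv (h := h) hv t hs hs0 c E i (a := b) hb0 hb1
  rw [← hP, ← hμ, ← hq] at h2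
  have h3 : dv0 D v s0 s n c i E ≤ 2 * ρ * q := by
    refine (hd i E L (by rw [eL])).trans ?_
    refine mul_le_mul_of_nonneg_right ?_ hE.le
    refine Real.sqrt_le_iff.2 ⟨by linarith, ?_⟩
    have h4 : (2 * ρ) ^ 2 = 4 * (L + X2 + 2) / N1 := by
      rw [mul_pow, hρ, Real.sq_sqrt (div_nonneg (by linarith) hN1.le)]
      ring
    rw [h4]
    exact div_le_div_of_nonneg_right (by linarith) hN1.le
  have h4 := (abs_le.1 h2).2
  -- the dead part
  have d1 : P.E (fun w => ind (E w.1) * (a (XL v s0 i w) (XL v s0 k w) * (1 - lv (XL v s0 i w)))) ≤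
      P.E (fun w => ind (E w.1) * b (XL v s0 i w)) :=
    P.E_mono fun w _ => mul_le_mul_of_nonneg_left (hab _ _) (ind_nonneg _)
  have d2 : P.E (fun w => a (XL v s0 i w) (XL v s0 k w) * (1 - lv (XL v s0 i w))) ≤ P.E (fun w => b (XL v s0 i w)) :=
    P.E_mono fun w _ => hab _ _
  have d3 : 0 ≤ P.E (fun w => ind (E w.1) * (a (XL v s0 i w) (XL v s0 k w) * (1 - lv (XL v s0 i w)))) :=
    P.E_nonneg fun w _ => mul_nonneg (ind_nonneg _) (mul_nonneg (ha0 _ _) (by linarith [lv1 (XL v s0 i w)]))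
  have d4 : 0 ≤ P.E (fun w => a (XL v s0 i w) (XL v s0 k w) * (1 - lv (XL v s0 i w))) :=
    P.E_nonneg fun w _ => mul_nonneg (ha0 _ _) (by linarith [lv1 (XL v s0 i w)])
  have e1 : P.E (fun w => ind (E w.1) * a (XL v s0 i w) (XL v s0 k w)) =
      P.E (fun w => ind (E w.1) * (a (XL v s0 i w) (XL v s0 k w) * lv (XL v s0 i w))) +
        P.E (fun w => ind (E w.1) * (a (XL v s0 i w) (XL v s0 k w) * (1 - lv (XL v s0 i w)))) := by
    rw [← P.E_add]
    exact P.E_congr fun w _ => by ring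
  have e2 : P.E (fun w => a (XL v s0 i w) (XL v s0 k w)) =
      P.E (fun w => a (XL v s0 i w) (XL v s0 k w) * lv (XL v s0 i w)) +
        P.E (fun w => a (XL v s0 i w) (XL v s0 k w) * (1 - lv (XL v s0 i w))) := by
    rw [← P.E_add]
    exact P.E_congr fun w _ => by ring
  rw [e1, e2]
  obtain ⟨h5, h6⟩ := abs_le.1 h1
  set A1 := P.E (fun w => ind (E w.1) * (a (XL v s0 i w) (XL v s0 k w) * lv (XL v s0 i w))) with hA1
  set A2 := P.E (fun w => ind (E w.1) * (a (XL v s0 i w) (XL v s0 k w) * (1 - lv (XL v s0 i w)))) with hA2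
  set B1 := P.E (fun w => a (XL v s0 i w) (XL v s0 k w) * lv (XL v s0 i w)) with hB1
  set B2 := P.E (fun w => a (XL v s0 i w) (XL v s0 k w) * (1 - lv (XL v s0 i w))) with hB2
  have k1 : q * B2 ≤ q * Real.exp (X1 - X2) := mul_le_mul_of_nonneg_left (d2.trans hPb) hE.le
  have k2 : q * P.E (fun w => b (XL v s0 i w)) ≤ q * Real.exp (X1 - X2) := mul_le_mul_of_nonneg_left hPb hE.le
  have k3 : 0 ≤ q * B2 := mul_nonneg hE.le d4
  have k4 : 0 ≤ q * ρ := mul_nonneg hE.le hρ0
  refine abs_le.2 ⟨?_, ?_⟩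
  · nlinarith
  · nlinarith

/-! ### cells -/

/-- the law of the hidden point in the cell -/
theorem muC_cell (hv : Codes D v) {s n : ℕ} (hs : s ≤ n + 1) {u w : Pt (Fin 3) X β φ}
    (hu : NP D v s n u = NP D v s n w) : muC D v s n u = muC D v s n w := by
  unfold muC
  congr 1
  funext x
  obtain ⟨⟨h1, h2⟩, h3⟩ := (NP_iff hv hs w u).1 hu
  have h4 : ∀ y, Um v s ∅ y u.2.1 = Um v s ∅ y w.2.1 := fun y =>
    Um_codes hv hs ∅ y (fun j hj => absurd hj (Finset.notMem_empty j)) h3
  unfold cX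
  rw [h2, h4, h4, h1]

theorem Gl_cell (hv : Codes D v) {s n : ℕ} (hs : s ≤ n + 1) {u w : Pt (Fin 3) X β φ}
    (hu : NP D v s n u = NP D v s n w) (i : Fin 3) (z : β × List υ) : Gl v s u i z = Gl v s w i z := by
  obtain ⟨_, h3⟩ := (NP_iff hv hs w u).1 hu
  funext x
  unfold Gl
  have h4 : Um v s {i} x (Function.update u.2.1 i z.1) = Um v s {i} x (Function.update w.2.1 i z.1) := by
    refine Um_codes hv hs {i} x (fun j hj => ?_) fun j => ?_
    · rw [Finset.mem_singleton.1 hj, Function.update_self, Function.update_self]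
    · by_cases hj : j = i
      · subst hj
        rw [Function.update_self, Function.update_self]
      · rw [Function.update_of_ne hj, Function.update_of_ne hj]
        exact h3 j
  rw [h4]

/-- the letters of an alive group are alive -/
theorem alive_one (hv : Codes D v) {r : ℕ} {u w : Pt (Fin 3) X β φ} (hu : NPr v D r u = NPr v D r w)
    {J : Finset (Fin 3)} {i : Fin 3} (hi : i ∈ J) {X1 : ℝ} (hX : -X1 ≤ lJq h v J r u) :
    Real.exp (-X1) ≤ (muC D v (tm r + 1) (nt r) w).Pr (Gl v (tm r + 1) w i (XL v (tm r + 1) i u)) := by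
  have hs : tm r + 1 ≤ nt r + 1 := Nat.succ_le_succ (TD.tm_nt r)
  have hu' : NP D v (tm r + 1) (nt r) u = NP D v (tm r + 1) (nt r) w := hu
  rw [← muC_cell hv hs hu', ← Gl_cell hv hs hu' i]
  refine (Real.exp_le_exp.2 hX).trans ?_
  rw [_root_.Pool.Agent.GMH.TD.RT.exp_lJq h hv r u J]
  exact FP.Pr_mono _ fun x _ hx => hx i hi

end gen

section run

variable {X β γ φ : Type} [Fintype X] [Fintype β] [Fintype φ] [Nonempty X] [Nonempty β]
variable {D : HD (Fin 3) X β γ φ} {al : ℝ} {h : D.Thick al}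
  {v : ℕ → Finset (Fin 3) → X → (Fin 3 → β) → Pt (Fin 3) X β φ} {N : Finset (Fin 3) → ℝ} {S : Finset (Finset (Fin 3))}
  {N1 : ℝ}

/-- the distance of one letter -/
theorem dv0_le (R : Run h N S (AdmDep D) v) (hp : Prc N S N1) {t s0 : ℕ} (hs0 : s0 ≤ t + 1) {w : Pt (Fin 3) X β φ}
    (hw : (D.P h 0).p w ≠ 0) (k : Fin 3) {E : X → Prop} {a : ℝ} (ha : Real.exp (-a) ≤ (muC D v (t + 1) t w).Pr E) :
    dv0 D v s0 (t + 1) t w k E ≤ Real.sqrt (4 * (a + 1) / N1) * (muC D v (t + 1) t w).Pr E := by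
  have hv := R.codes
  have hN1p : 0 < N1 := one_pos.trans_le hp.pos
  have hs : t + 1 ≤ t + 1 := le_rfl
  set P := Pc h v 0 (t + 1) t w with hP
  set q := (muC D v (t + 1) t w).Pr E with hq
  have hq0 : 0 < q := (Real.exp_pos _).trans_le ha
  have hPE : P.Pr (fun w => E w.1) = q := Pc_E0 (h := h) hv 0 hs w fun x => ind (E x)
  have hPne : P.Pr (fun w => E w.1) ≠ 0 := by rw [hPE]; exact hq0.ne'
  have hac : (P.cond fun w => E w.1).Ac P := FP.cond_ac _ _
  have et : tm (2 * t) = t := by unfold tm; omega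
  have en : nt (2 * t) = t := by unfold nt; omega
  have eQ : clq h v (2 * t) w = P := by unfold clq; rw [et, en]
  have hne : (clq h v (2 * t) w).Pr (fun u => E u.1) ≠ 0 := by rw [eQ]; exact hPne
  have h1 := sat_q R hp (r := 2 * t) (by omega) hw hne k
  rw [eQ, hPE] at h1
  have eX : XLr (φ := φ) v (2 * t) k = XL v (t + 1) k := by unfold XLr; rw [et]
  rw [eX] at h1
  have hfac : Fac (XL (φ := φ) v (t + 1) k) (XL v s0 k) := by
    intro x y hxy
    have h1 : x.2.1 k = y.2.1 k := congrArg Prod.fst hxy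
    have h2 : Um v (t + 1) {k} x.1 x.2.1 = Um v (t + 1) {k} y.1 y.2.1 := congrArg Prod.snd hxy
    exact Prod.ext h1 (Um_older hs0 h2)
  have h2 := FP.kl_mono hac hfac
  have hkl : (P.cond fun w => E w.1).kl P (XL v s0 k) ≤ 2 * (a + 1) / N1 := by
    rw [le_div_iff₀ hN1p]
    have h3 : Real.log (1 / q) ≤ a := by
      rw [one_div, Real.log_inv]
      have := Real.log_le_log (Real.exp_pos _) ha
      rw [Real.log_exp] at this
      linarith
    have h4 := mul_le_mul_of_nonneg_left h2 hN1p.le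
    linarith
  have h5 : dv0 D v s0 (t + 1) t w k E = q * ∑ z ∈ vals (XL (φ := φ) v s0 k),
      |lw (P.cond fun w => E w.1) (XL v s0 k) z - lw P (XL v s0 k) z| := by
    unfold dv0
    rw [Finset.mul_sum]
    refine Finset.sum_congr rfl fun z _ => ?_
    have e1 : lw (P.cond fun w => E w.1) (XL v s0 k) z =
        mC D t w k z.1 * (muC D v (t + 1) t w).Pr (fun x => E x ∧ Gl v s0 w k z x) / q := by
      unfold lw
      rw [FP.cond_E hPne, hPE]
      congr 1
      exact Pc_EL1 (h := h) hv 0 hs hs0 w E k z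
    rw [e1, Pc_lw0 hv 0 hs hs0, ← hq]
    have e2 : mC D t w k z.1 * (muC D v (t + 1) t w).Pr (fun x => E x ∧ Gl v s0 w k z x) / q -
        mC D t w k z.1 * (muC D v (t + 1) t w).Pr (Gl v s0 w k z) =
        (mC D t w k z.1 / q) * ((muC D v (t + 1) t w).Pr (fun x => E x ∧ Gl v s0 w k z x) -
          q * (muC D v (t + 1) t w).Pr (Gl v s0 w k z)) := by
      field_simp
    rw [e2, abs_mul, abs_of_nonneg (div_nonneg (mC_nonneg t w k z.1) hq0.le)]
    field_simp
  rw [h5, mul_comm]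
  refine mul_le_mul_of_nonneg_right ((l1_kl hac _).trans (Real.sqrt_le_sqrt ?_)) hq0.le
  have : 4 * (a + 1) / N1 = 2 * (2 * (a + 1) / N1) := by ring
  rw [this]
  linarith

/-- **the law of the letters of a group under an event of the hidden point** -/
theorem tv_grp (R : Run h N S (AdmDep D) v) (hp : Prc N S N1) {ν r : ℕ} (hr : r % 2 = 0) (hν : tm ν ≤ tm r)
    {w : Pt (Fin 3) X β φ} (hw : (D.P h 0).p w ≠ 0) {J : Finset (Fin 3)} (hJ : J.card ≤ 2) {X1 X2 : ℝ} (hX2 : 0 ≤ X2)
    {A : Pt (Fin 3) X β φ → Prop} (hA : Fac (LJ v J ν) A) {μ0 : FP X}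
    (hal : ∀ u, A u → ∀ i ∈ J, Real.exp (-X1) ≤ μ0.Pr (Gl v (tm ν + 1) w i (XLr v ν i u)))
    {E : X → Prop} (hE : (clq h v r w).Pr (fun u => E u.1) ≠ 0) :
    |((clq h v r w).cond fun u => E u.1).Pr A - (clq h v r w).Pr A| ≤ Real.exp (X1 - X2) +
      8 * Real.sqrt ((Real.log (1 / (clq h v r w).Pr (fun u => E u.1)) + X2 + 2) / N1) := by
  classical
  have hv := R.codes
  have hN1p : 0 < N1 := one_pos.trans_le hp.pos
  obtain ⟨t, rfl⟩ : ∃ t, r = 2 * t := ⟨r / 2, by omega⟩
  have et : tm (2 * t) = t := by unfold tm; omega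
  have en : nt (2 * t) = t := by unfold nt; omega
  have hs : t + 1 ≤ t + 1 := le_rfl
  rw [et] at hν
  have hs0 : tm ν + 1 ≤ t + 1 := by omega
  have eQ : clq h v (2 * t) w = Pc h v 0 (t + 1) t w := by unfold clq; rw [et, en]
  set Q := clq h v (2 * t) w with hQ
  set q := Q.Pr (fun u => E u.1) with hq
  have hq0 : 0 < q := lt_of_le_of_ne (Q.Pr_nonneg _) (Ne.symm hE)
  have hmu : (muC D v (t + 1) t w).Pr E = q := by
    rw [hq, eQ]
    exact (Pc_E0 (h := h) hv 0 hs w fun x => ind (E x)).symm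
  have hd : ∀ (j : Fin 3) (E : X → Prop) (a : ℝ), Real.exp (-a) ≤ (muC D v (t + 1) t w).Pr E →
      dv0 D v (tm ν + 1) (t + 1) t w j E ≤ Real.sqrt (4 * (a + 1) / N1) * (muC D v (t + 1) t w).Pr E :=
    fun j E a ha => dv0_le R hp hs0 hw j ha
  have hq1 : q ≤ 1 := Q.Pr_le_one _
  have hL0 : 0 ≤ Real.log (1 / q) := Real.log_nonneg (by rw [le_div_iff₀ hq0]; linarith)
  have hexp := Real.exp_pos (X1 - X2)
  have main : |Q.E (fun u => ind (E u.1) * ind (A u)) - q * Q.E (fun u => ind (A u))| ≤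
      q * (Real.exp (X1 - X2) + 8 * Real.sqrt ((Real.log (1 / q) + X2 + 2) / N1)) := by
    have hXL : ∀ j, XLr (φ := φ) v ν j = XL v (tm ν + 1) j := fun j => rfl
    have hcard : J.card = 0 ∨ J.card = 1 ∨ J.card = 2 := by omega
    rcases hcard with h0 | h1 | h2
    · have hJ0 : J = ∅ := Finset.card_eq_zero.1 h0
      have hc : ∀ u, A u ↔ A w := by
        intro u
        have : LJ v J ν u = LJ v J ν w := by
          rw [TD.LJ_iff]
          intro j hj
          rw [hJ0] at hj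
          exact absurd hj (Finset.notMem_empty j)
        rw [hA u w this]
      have e1 : Q.E (fun u => ind (E u.1) * ind (A u)) = q * ind (A w) := by
        rw [hq]
        unfold FP.Pr
        rw [← Q.E_mul_const]
        exact Q.E_congr fun u _ => by rw [ind_cg (hc u)]
      have e2 : Q.E (fun u => ind (A u)) = ind (A w) := by
        rw [← Q.E_const (ind (A w))]
        exact Q.E_congr fun u _ => ind_cg (hc u)
      rw [e1, e2, sub_self, abs_zero]
      positivity
    · obtain ⟨k, hk⟩ := Finset.card_eq_one.1 h1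
      set a : β × List (Pt (Fin 3) X β φ) → ℝ := fun z => ind (∃ u, XL v (tm ν + 1) k u = z ∧ A u) with ha
      have hAa : ∀ u, ind (A u) = a (XL v (tm ν + 1) k u) := by
        intro u
        refine ind_cg ⟨fun hu => ⟨u, rfl, hu⟩, ?_⟩
        rintro ⟨u', h3, h4⟩
        have h5 : LJ v J ν u = LJ v J ν u' := by
          rw [TD.LJ_iff]
          intro j hj
          rw [hk] at hj
          rw [Finset.mem_singleton.1 hj, hXL]
          exact h3.symm
        rw [hA u u' h5]
        exact h4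
      have h3 := one_tv (h := h) hv 0 hs hs0 w E k (a := a) (fun z => ind_nonneg _) (fun z => ind_le_one _)
      rw [hmu] at h3
      have e1 : (fun u : Pt (Fin 3) X β φ => ind (E u.1) * ind (A u)) =
          fun u => ind (E u.1) * a (XL v (tm ν + 1) k u) := funext fun u => by rw [hAa]
      have e2 : (fun u : Pt (Fin 3) X β φ => ind (A u)) = fun u => a (XL v (tm ν + 1) k u) := funext hAa
      rw [e1, e2, eQ]
      refine h3.trans ((hd k E (Real.log (1 / q)) ?_).trans ?_)
      · rw [hmu, one_div, Real.log_inv, neg_neg, Real.exp_log hq0]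
      · rw [hmu, mul_comm]
        refine mul_le_mul_of_nonneg_left ?_ hq0.le
        have h4 : (8 : ℝ) * Real.sqrt ((Real.log (1 / q) + X2 + 2) / N1) =
            Real.sqrt (64 * ((Real.log (1 / q) + X2 + 2) / N1)) := by
          rw [Real.sqrt_mul (by norm_num), show (64 : ℝ) = 8 ^ 2 by norm_num, Real.sqrt_sq (by norm_num)]
        have h5 : Real.sqrt (4 * (Real.log (1 / q) + 1) / N1) ≤
            Real.sqrt (64 * ((Real.log (1 / q) + X2 + 2) / N1)) := by
          refine Real.sqrt_le_sqrt ?_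
          rw [← mul_div_assoc]
          exact div_le_div_of_nonneg_right (by linarith) hN1p.le
        linarith
    · obtain ⟨i, k, hik, hJk⟩ := Finset.card_eq_two.1 h2
      have hiJ : i ∈ J := by rw [hJk]; exact Finset.mem_insert_self i _
      set a : β × List (Pt (Fin 3) X β φ) → β × List (Pt (Fin 3) X β φ) → ℝ := fun z z' =>
        ind (∃ u, XL v (tm ν + 1) i u = z ∧ XL v (tm ν + 1) k u = z' ∧ A u) with ha
      have hAa : ∀ u, ind (A u) = a (XL v (tm ν + 1) i u) (XL v (tm ν + 1) k u) := by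
        intro u
        refine ind_cg ⟨fun hu' => ⟨u, rfl, rfl, hu'⟩, ?_⟩
        rintro ⟨u', h3, h4, h5⟩
        have h6 : LJ v J ν u = LJ v J ν u' := by
          rw [TD.LJ_iff]
          intro j hj
          rw [hJk] at hj
          rw [hXL]
          rcases Finset.mem_insert.1 hj with hj | hj
          · rw [hj]; exact h3.symm
          · rw [Finset.mem_singleton.1 hj]; exact h4.symm
        rw [hA u u' h6]
        exact h5
      have hal' : ∀ z z', a z z' ≠ 0 → Real.exp (-X1) ≤ μ0.Pr (Gl v (tm ν + 1) w i z) := by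
        intro z z' hz
        by_cases hex : ∃ u, XL v (tm ν + 1) i u = z ∧ XL v (tm ν + 1) k u = z' ∧ A u
        · obtain ⟨u, h4, _, h6⟩ := hex
          have h7 := hal u h6 i hiJ
          rw [hXL, h4] at h7
          exact h7
        · exact absurd (ind_not hex) hz
      have h3 := pair_tv2 (h := h) hv 0 hs hs0 w hik hN1p hX2 hd (E := E) (by rw [hmu]; exact hq0) (a := a)
        (fun z z' => ind_nonneg _) (fun z z' => ind_le_one _) hal'
      rw [hmu] at h3
      have e1 : (fun u : Pt (Fin 3) X β φ => ind (E u.1) * ind (A u)) =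
          fun u => ind (E u.1) * a (XL v (tm ν + 1) i u) (XL v (tm ν + 1) k u) := funext fun u => by rw [hAa u]
      have e2 : (fun u : Pt (Fin 3) X β φ => ind (A u)) = fun u => a (XL v (tm ν + 1) i u) (XL v (tm ν + 1) k u) :=
        funext hAa
      rw [e1, e2, eQ]
      exact h3
  unfold FP.Pr
  rw [FP.cond_E hE, ← hq]
  have e3 : Q.E (fun u => ind (E u.1) * ind (A u)) / q - Q.E (fun u => ind (A u)) =
      (Q.E (fun u => ind (E u.1) * ind (A u)) - q * Q.E (fun u => ind (A u))) / q := by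
    field_simp
  rw [e3, abs_div, abs_of_pos hq0, div_le_iff₀ hq0, mul_comm _ q]
  exact main

/-- **rarity by the distance** -/
theorem rare_grp (R : Run h N S (AdmDep D) v) (hp : Prc N S N1) {ν r : ℕ} (hr : r % 2 = 0) (hν : tm ν ≤ tm r)
    {w : Pt (Fin 3) X β φ} (hw : (D.P h 0).p w ≠ 0) {J : Finset (Fin 3)} (hJ : J.card ≤ 2) {X1 X2 : ℝ} (hX2 : 0 ≤ X2)
    {A : Pt (Fin 3) X β φ → Prop} (hA : Fac (LJ v J ν) A) {μ0 : FP X}
    (hal : ∀ u, A u → ∀ i ∈ J, Real.exp (-X1) ≤ μ0.Pr (Gl v (tm ν + 1) w i (XLr v ν i u)))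
    {k : ℝ} (hk0 : 4 * Real.exp (X1 - X2) ≤ k) (hk : 4 * (clq h v r w).Pr A ≤ k) :
    (clq h v r w).Pr (fun u => k ≤ (clq h v r w).ce (fun z => z.1) (fun z => ind (A z)) u) ≤
      Real.exp (X2 + 2 - N1 * k ^ 2 / 256) := by
  have hN1p : 0 < N1 := one_pos.trans_le hp.pos
  have hkp : 0 < k := lt_of_lt_of_le (by positivity) hk0
  set Q := clq h v r w with hQ
  set E0 : Pt (Fin 3) X β φ → Prop := fun u => k ≤ Q.ce (fun z => z.1) (fun z => ind (A z)) u with hE0
  set E : X → Prop := fun x => E0 (x, w.2.1, w.2.2) with hEd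
  have hEE : E0 = fun u => E u.1 := by
    funext u
    show (k ≤ Q.ce (fun z => z.1) (fun z => ind (A z)) u) = (k ≤ Q.ce (fun z => z.1) (fun z => ind (A z)) (u.1, w.2.1, w.2.2))
    rw [Q.ce_fac (fun z => z.1) _ u (u.1, w.2.1, w.2.2) rfl]
  by_cases h0 : Q.Pr E0 = 0
  · rw [h0]
    exact (Real.exp_pos _).le
  have hE : Q.Pr (fun u => E u.1) ≠ 0 := by rw [← hEE]; exact h0
  have htv := tv_grp R hp hr hν hw hJ hX2 hA hal hE
  rw [← hQ, ← hEE] at htv
  have hq0 : 0 < Q.Pr E0 := lt_of_le_of_ne (Q.Pr_nonneg _) (Ne.symm h0)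
  have hEf : Fac (fun z : Pt (Fin 3) X β φ => z.1) E0 := fun a b hab => by
    show (k ≤ Q.ce (fun z => z.1) (fun z => ind (A z)) a) = (k ≤ Q.ce (fun z => z.1) (fun z => ind (A z)) b)
    rw [Q.ce_fac (fun z => z.1) _ a b hab]
  have h2 : k ≤ (Q.cond E0).Pr A := by
    unfold FP.Pr
    rw [FP.cond_E h0, le_div_iff₀ hq0]
    have h3 := Q.E_mul_ce (Fac.ind (s := E0) fun a b hab => by rw [hEf a b hab]) (fun v => ind (A v))
    rw [← h3]
    unfold FP.Pr
    rw [← FP.E_smul]
    refine Q.E_mono fun u hu => ?_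
    by_cases hu1 : E0 u
    · rw [ind_of hu1, mul_one, one_mul]
      exact hu1
    · rw [ind_not hu1]
      simp
  set L := Real.log (1 / Q.Pr E0) with hL
  have hL0 : 0 ≤ L := Real.log_nonneg (by rw [le_div_iff₀ hq0]; linarith [Q.Pr_le_one E0])
  have h3 := (abs_le.1 htv).2
  have h4 : 1 / 2 * k ≤ 8 * Real.sqrt ((L + X2 + 2) / N1) := by linarith
  have h5 : k ^ 2 / 256 ≤ (L + X2 + 2) / N1 := by
    have h6 : 0 ≤ (L + X2 + 2) / N1 := div_nonneg (by linarith) hN1p.le
    have h7 := Real.sq_sqrt h6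
    have h8 := Real.sqrt_nonneg ((L + X2 + 2) / N1)
    nlinarith
  have h6 : N1 * k ^ 2 / 256 ≤ L + X2 + 2 := by
    rw [le_div_iff₀ hN1p] at h5
    linarith
  have h7 : Real.log (Q.Pr E0) ≤ X2 + 2 - N1 * k ^ 2 / 256 := by
    have h8 : L = -Real.log (Q.Pr E0) := by rw [hL, one_div, Real.log_inv]
    linarith
  exact (Real.log_le_iff_le_exp hq0).1 h7

end run

end Pool.Agent.GMH.RZ
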