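import Pool.Agent.GMH.RZ3

/-!
# GMH/RZ4 (helper36): exceptional positions of a thin relation between two groups are rare

`exz_le` : one public class: the exceptional positions (`exz`) have probability `≤ e9z`.
-/

set_option autoImplicit false
set_option linter.unusedSectionVars false

namespace Pool.Agent.GMH.RZ

open Finset Pool.Agent.PWZ Pool.Agent.M3 Pool.Agent.GM Pool.Agent.GM.Harm Pool.Agent.GMH Pool.Agent.GMH.NZ
open Pool.Agent.GMH.V3 Pool.Agent.GMH.Gdy Pool.Agent.GMH.TD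

/-- the bound of the exceptional probability -/
noncomputable def e9z (N1 X1 X2 x dl : ℝ) (M : ℕ) : ℝ :=
  2 * Real.exp 1 * (M * Real.exp X1) * Real.exp (-(N1 * x ^ 2 / 2 ^ 18 - X2 - 1)) / dl

section pos

variable {X β γ φ υ : Type} [Fintype X] [Fintype β] [Fintype φ] [Nonempty X] [Nonempty β]
variable {D : HD (Fin 3) X β γ φ} {al : ℝ} {h : D.Thick al} {v : ℕ → Finset (Fin 3) → X → (Fin 3 → β) → υ}

/-- the letters of a group are functions of its points, given the hidden point and the cells -/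
theorem LJ_put (hv : Codes D v) {E : Finset (Fin 3)} {ν n : ℕ} (hn : tm ν ≤ n) {z w : Pt (Fin 3) X β φ} (h1 : z.1 = w.1)
    (h2 : ∀ j, D.qb n (z.2.1 j) = D.qb n (w.2.1 j)) : LJ v E ν z = LJ v E ν (put E w (PJ E z)) := by
  rw [TD.LJ_iff]
  intro j hj
  refine Prod.ext ?_ ?_
  · show z.2.1 j = (put E w (PJ E z)).2.1 j
    rw [put_PJ, if_pos hj]
  · show Um v (tm ν + 1) {j} z.1 z.2.1 = Um v (tm ν + 1) {j} w.1 (put E w (PJ E z)).2.1
    rw [h1]
    refine Um_codes hv (n := n) (by omega) {j} w.1 (fun k hk => ?_) fun k => ?_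
    · rw [Finset.mem_singleton.1 hk, put_PJ, if_pos hj]
    · rw [put_PJ]
      by_cases hk : k ∈ E
      · rw [if_pos hk]
      · rw [if_neg hk]
        exact h2 k

/-- mean given the hidden point and the public cell, as a mean in the world -/
theorem ce_cz (hv : Codes D v) {C E : Finset (Fin 3)} (hc : Cpl C E) {T ν s : ℕ} (hs : ν + s ≤ 2 * T)
    {f : Pt (Fin 3) X β φ → ℝ} (hf : Fac (PJ (φ := φ) E) f) {w : Pt (Fin 3) X β φ} (hw : (D.P h 0).p w ≠ 0) :
    (D.P h 0).ce (fun u => (u.1, NPr v D (ν + s) u)) f w = (Wz h v ν w).ce (cz D T E ν s) f w := by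
  have hww : (Wz h v ν w).p w ≠ 0 := Wz_self hw
  have e1 : (Wz h v ν w).ce (cz D T E ν s) f w =
      (Wz h v ν w).ce (fun z => (cz D T E ν s z, cz D T C ν s z)) f w := by
    have h1 := (Wz h v ν w).ce_indep_eq (X := PJ E) (Y := PJ C)
      (Wz_indep hv hc ν w).symm (ζ := cz D T E ν s) (φ := fun _ => ()) (ψ := cz D T C ν s)
      (cz_fac T E ν s) (cz_fac T C ν s) (Fac.const _ ()) (f := f) (fun a b hab =>
        hf a b (congrArg Prod.fst hab)) hww
    rw [h1]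
    exact (Wz h v ν w).ce_congr_map (X := cz D T E ν s) (Y := fun z => (cz D T E ν s z, ()))
      (fun a b hab => by simp only [hab]) (fun a b hab => (Prod.mk.inj hab).1) _ w
  have e2 : (Wz h v ν w).ce (fun z => (cz D T E ν s z, cz D T C ν s z)) f w =
      (D.P h 0).ce (fun u : Pt (Fin 3) X β φ => ((u.1, NPr v D ν u), (cz D T E ν s u, cz D T C ν s u))) f w :=
    BP.cond_ce_eq (D.P h 0) (fun u : Pt (Fin 3) X β φ => (u.1, NPr v D ν u))
      (fun z => (cz D T E ν s z, cz D T C ν s z)) _ hw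
  rw [e1, e2, (D.P h 0).ce_congr_map (node_fz hv hc hs) (node_fz' hs)]

/-- mean in the last even cell given the hidden point -/
theorem ce_hid {r' : ℕ} {w0 w : Pt (Fin 3) X β φ} (hw : (D.P h 0).p w ≠ 0) (hN : NPr v D r' w = NPr v D r' w0)
    (F : Pt (Fin 3) X β φ → ℝ) : (clq h v r' w0).ce (fun z => z.1) F w = (Wz h v r' w).E F := by
  have hcl : clq h v r' w0 = (D.P h 0).cond fun u => NPr v D r' u = NPr v D r' w := by
    have h3 : clq h v r' w0 = (D.P h 0).cond fun u => NPr v D r' u = NPr v D r' w0 := rfl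
    rw [h3, hN]
  rw [hcl, BP.cond_ce_eq (D.P h 0) (fun u : Pt (Fin 3) X β φ => NPr v D r' u) (fun z => z.1) F hw]
  have h1 : (D.P h 0).ce (fun u : Pt (Fin 3) X β φ => (NPr v D r' u, u.1)) F w =
      (D.P h 0).ce (fun u : Pt (Fin 3) X β φ => (u.1, NPr v D r' u)) F w :=
    (D.P h 0).ce_congr_map (X := fun u : Pt (Fin 3) X β φ => (NPr v D r' u, u.1))
      (Y := fun u : Pt (Fin 3) X β φ => (u.1, NPr v D r' u)) (fun a b hab => by
        obtain ⟨h1, h2⟩ := Prod.mk.inj hab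
        exact Prod.ext h2 h1) (fun a b hab => by
        obtain ⟨h1, h2⟩ := Prod.mk.inj hab
        exact Prod.ext h2 h1) F w
  rw [h1, (D.P h 0).ce_eq_cond (fun u : Pt (Fin 3) X β φ => (u.1, NPr v D r' u)) F hw]
  rfl

/-- **the conditional mass of an event of the points of a group, in the last even cell** -/
theorem cmz_le (hv : Codes D v) {dg : ℕ → X → ℝ} {prr : ℕ → Fin 3 → φ → φ} {T : ℕ} {Lam : ℝ}
    (H : D.Hyp dg prr al T Lam) {C E : Finset (Fin 3)} (hc : Cpl C E) {r : ℕ} (hr : r ≤ 2 * T)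
    {w0 w : Pt (Fin 3) X β φ} (hw : (D.P h 0).p w ≠ 0) (hN : NPr v D r w = NPr v D r w0)
    {g : Pt (Fin 3) X β φ → ℝ} (hg : Fac (PJ (φ := φ) E) g) (hg0 : ∀ z, 0 ≤ g z) :
    (D.P h 0).ce (fun z => (z.1, NPr v D r z)) g w ≤ (1 + 7 * ((r % 2 : ℕ) : ℝ)) *
      (clq h v (r - r % 2) w0).ce (fun z => z.1)
        (fun z => g z * ind (∀ j ∈ E, D.qb (nt r) (z.2.1 j) = D.qb (nt r) (w0.2.1 j))) w := by
  have hcell : ∀ j, D.qb (nt r) (w.2.1 j) = D.qb (nt r) (w0.2.1 j) := fun j =>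
    congrFun (congrArg Prod.snd (congrArg Prod.snd hN)) j
  rcases Nat.mod_two_eq_zero_or_one r with hm | hm
  · rw [hm, Nat.sub_zero]
    simp only [Nat.cast_zero, mul_zero, add_zero, one_mul]
    rw [ce_hid hw hN, (D.P h 0).ce_eq_cond (fun u : Pt (Fin 3) X β φ => (u.1, NPr v D r u)) g hw]
    refine le_of_eq ((Wz h v r w).E_congr fun z hz => ?_)
    obtain ⟨_, h3, _⟩ := Wz_supp hz
    rw [ind_of, mul_one]
    intro j _
    rw [← hcell j]
    exact congrFun (congrArg Prod.snd (congrArg Prod.snd h3)) j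
  · obtain ⟨r', rfl⟩ : ∃ r', r = r' + 1 := ⟨r - 1, by omega⟩
    rw [hm]
    have e0 : r' + 1 - 1 = r' := by omega
    rw [e0, ce_hid hw (NPr_older (Nat.le_succ r') hN), ce_cz hv hc (T := T) (ν := r') (s := 1) hr hg hw]
    have h1 := cz_half (h := h) H hv E r' (w := w) 0 (Wz_self hw)
    have h2 : (Wz h v r' w).m (cz D T E r' 0) w = 1 := by
      unfold FP.m
      rw [← (Wz h v r' w).E_const 1]
      refine (Wz h v r' w).E_congr fun z hz => ind_of ?_
      obtain ⟨_, h3, _⟩ := Wz_supp hz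
      rw [cz_iff]
      intro j _
      unfold cel
      rw [min_eq_left (by omega), Nat.add_zero]
      exact congrFun (congrArg Prod.snd (congrArg Prod.snd h3)) j
    rw [h2] at h1
    have h3 : 0 < (Wz h v r' w).m (cz D T E r' (0 + 1)) w := FP.m_pos _ _ (Wz_self hw)
    unfold FP.ce
    rw [div_le_iff₀ h3]
    have e1 : (Wz h v r' w).E (fun z => g z * ind (∀ j ∈ E, D.qb (nt (r' + 1)) (z.2.1 j) =
        D.qb (nt (r' + 1)) (w0.2.1 j))) = (Wz h v r' w).E (fun z => ind (cz D T E r' 1 z = cz D T E r' 1 w) * g z) := by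
      refine (Wz h v r' w).E_congr fun z hz => ?_
      rw [mul_comm]
      congr 1
      refine ind_cg ?_
      rw [cz_iff]
      refine forall_congr' fun j => forall_congr' fun _ => ?_
      unfold cel
      rw [min_eq_left hr, hcell]
    rw [e1]
    have h4 : 0 ≤ (Wz h v r' w).E (fun z => ind (cz D T E r' 1 z = cz D T E r' 1 w) * g z) :=
      (Wz h v r' w).E_nonneg fun z _ => mul_nonneg (ind_nonneg _) (hg0 z)
    have h5 := mul_le_mul_of_nonneg_left h1 h4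
    push_cast
    rw [mul_one] at h5
    calc _ ≤ (Wz h v r' w).E (fun z => ind (cz D T E r' 1 z = cz D T E r' 1 w) * g z) *
          (8 * (Wz h v r' w).m (cz D T E r' (0 + 1)) w) := h5
      _ = _ := by
        rw [Nat.zero_add]
        ring

/-! ### lists of rows -/

open Classical in
/-- the alive letters of `C` at the points `b` -/
noncomputable def ALz (v : ℕ → Finset (Fin 3) → X → (Fin 3 → β) → υ) (D : HD (Fin 3) X β γ φ) (C : Finset (Fin 3))
    (ν : ℕ) (Hr : Pt (Fin 3) X β φ → Prop) (w0 : Pt (Fin 3) X β φ) (b : Fin 3 → Option β) :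
    Finset (Fin 3 → Option (β × List υ)) :=
  ((univ : Finset (Pt (Fin 3) X β φ)).filter fun z => NPr v D ν z = NPr v D ν w0 ∧ Hr z ∧
    ∀ j ∈ C, b j = some (z.2.1 j)).image (LJ v C ν)

theorem mem_ALz {C : Finset (Fin 3)} {ν : ℕ} {Hr : Pt (Fin 3) X β φ → Prop} {w0 : Pt (Fin 3) X β φ}
    {b : Fin 3 → Option β} {l : Fin 3 → Option (β × List υ)} : l ∈ ALz v D C ν Hr w0 b ↔
      ∃ z, (NPr v D ν z = NPr v D ν w0 ∧ Hr z ∧ ∀ j ∈ C, b j = some (z.2.1 j)) ∧ LJ v C ν z = l := by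
  classical
  unfold ALz
  rw [Finset.mem_image]
  simp only [Finset.mem_filter, mem_univ, true_and]

/-- **at most `exp X1` alive letters** -/
theorem card_ALz {C : Finset (Fin 3)} {ν : ℕ} {Hr : Pt (Fin 3) X β φ → Prop} {X1 : ℝ}
    (hal : ∀ z, Hr z → -X1 ≤ lJq h v C ν z) {w0 : Pt (Fin 3) X β φ} {b : Fin 3 → Option β} :
    ((ALz v D C ν Hr w0 b).card : ℝ) ≤ Real.exp X1 := by
  classical
  set P := D.P h 0 with hP
  set A := ALz v D C ν Hr w0 b with hA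
  rcases A.eq_empty_or_nonempty with h0 | ⟨l0, hl0⟩
  · rw [h0, Finset.card_empty, Nat.cast_zero]
    exact (Real.exp_pos _).le
  set m0 := P.Pr (fun u => NPr v D ν u = NPr v D ν w0 ∧ ∀ j ∈ C, b j = some (u.2.1 j)) with hm0
  have key : ∀ z : Pt (Fin 3) X β φ, NPr v D ν z = NPr v D ν w0 → (∀ j ∈ C, b j = some (z.2.1 j)) →
      P.m (fun u => (PJ C u, NPr v D ν u)) z = m0 := by
    intro z h1 h2
    rw [hm0]
    unfold FP.m FP.Pr
    refine P.E_congr fun u _ => ind_cg ?_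
    rw [Prod.mk.injEq, TD.PJ_iff, h1]
    constructor
    · rintro ⟨k1, k2⟩
      exact ⟨k2, fun j hj => by rw [h2 j hj, k1 j hj]⟩
    · rintro ⟨k2, k1⟩
      exact ⟨fun j hj => Option.some.inj ((k1 j hj).symm.trans (h2 j hj)), k2⟩
  have hmass : ∀ l ∈ A, Real.exp (-X1) * m0 ≤
      P.Pr (fun u => NPr v D ν u = NPr v D ν w0 ∧ LJ v C ν u = l) := by
    intro l hl
    obtain ⟨z, ⟨h1, h2, h3⟩, h5⟩ := mem_ALz.1 hl
    have e1 := key z h1 h3
    have e2 : P.m (fun u => (LJ v C ν u, NPr v D ν u)) z =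
        P.Pr (fun u => NPr v D ν u = NPr v D ν w0 ∧ LJ v C ν u = l) := by
      unfold FP.m FP.Pr
      refine P.E_congr fun u _ => ind_cg ?_
      rw [Prod.mk.injEq, h1, h5]
      exact and_comm
    have hg : -X1 ≤ lJq h v C ν z := hal z h2
    have p1 : 0 < P.m (fun u => (LJ v C ν u, NPr v D ν u)) z :=
      NA.m_pos_pos h (fun _ _ _ _ => rfl) 0 z
    have p2 : 0 < P.m (fun u => (PJ C u, NPr v D ν u)) z :=
      NA.m_pos_pos h (fun _ _ _ _ => rfl) 0 z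
    have h6 : Real.exp (-X1) ≤ P.m (fun u => (LJ v C ν u, NPr v D ν u)) z /
        P.m (fun u => (PJ C u, NPr v D ν u)) z := by
      have h7 := Real.exp_le_exp.2 hg
      unfold lJq lq at h7
      rwa [Real.exp_log (div_pos p1 p2)] at h7
    rw [le_div_iff₀ p2, e1, e2] at h6
    exact h6
  have hm0p : 0 < m0 := by
    obtain ⟨z, ⟨h1, _, h3⟩, _⟩ := mem_ALz.1 hl0
    rw [← key z h1 h3]
    exact NA.m_pos_pos h (fun _ _ _ _ => rfl) 0 z
  have hsum : ∑ l ∈ A, P.Pr (fun u => NPr v D ν u = NPr v D ν w0 ∧ LJ v C ν u = l) ≤ m0 := by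
    unfold FP.Pr at hm0 ⊢
    rw [← P.E_sum, hm0]
    refine P.E_mono fun u _ => ?_
    by_cases hu : NPr v D ν u = NPr v D ν w0 ∧ LJ v C ν u ∈ A
    · have h1 : ∑ l ∈ A, ind (NPr v D ν u = NPr v D ν w0 ∧ LJ v C ν u = l) = 1 := by
        rw [Finset.sum_eq_single (LJ v C ν u)]
        · exact ind_of ⟨hu.1, rfl⟩
        · intro l _ hl
          exact ind_not fun hc => hl hc.2.symm
        · intro hc
          exact absurd hu.2 hc
      rw [h1]
      obtain ⟨z, ⟨_, _, h3⟩, h5⟩ := mem_ALz.1 hu.2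
      refine le_of_eq (Eq.symm (ind_of ⟨hu.1, fun j hj => ?_⟩))
      have h6 : z.2.1 j = u.2.1 j := congrArg Prod.fst (TD.LJ_iff.1 h5 j hj)
      rw [h3 j hj, h6]
    · have h1 : ∑ l ∈ A, ind (NPr v D ν u = NPr v D ν w0 ∧ LJ v C ν u = l) = 0 :=
        Finset.sum_eq_zero fun l hl => ind_not fun hc => hu ⟨hc.1, hc.2 ▸ hl⟩
      rw [h1]
      exact ind_nonneg _
  have h1 := Finset.sum_le_sum hmass
  rw [Finset.sum_const, nsmul_eq_mul] at h1
  have h2 : (A.card : ℝ) * Real.exp (-X1) ≤ 1 := by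
    by_contra hc
    have := mul_lt_mul_of_pos_right (not_le.1 hc) hm0p
    linarith
  rw [Real.exp_neg, ← div_eq_mul_inv, div_le_one (Real.exp_pos _)] at h2
  exact h2

/-- the row of the letter `l` -/
def rowLz (v : ℕ → Finset (Fin 3) → X → (Fin 3 → β) → υ) (D : HD (Fin 3) X β γ φ) (C E : Finset (Fin 3)) (ν : ℕ)
    (Hr : Pt (Fin 3) X β φ → Prop) (w0 : Pt (Fin 3) X β φ) (l : Fin 3 → Option (β × List υ))
    (z : Pt (Fin 3) X β φ) : Prop :=
  ∃ z', NPr v D ν z' = NPr v D ν w0 ∧ LJ v C ν z' = l ∧ LJ v E ν z' = LJ v E ν z ∧ Hr z'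

/-- the list of rows `ψ`, the points of `E` in the cells of `w0` at `r` -/
def AFz (v : ℕ → Finset (Fin 3) → X → (Fin 3 → β) → υ) (D : HD (Fin 3) X β γ φ) (C E : Finset (Fin 3)) (ν r : ℕ)
    (Hr : Pt (Fin 3) X β φ → Prop) (w0 : Pt (Fin 3) X β φ) {M : ℕ}
    (ψ : Σ n : ℕ, Fin n → (Σ _ : Fin M, (Fin 3 → Option (β × List υ)))) (z : Pt (Fin 3) X β φ) : Prop :=
  (∃ k, rowLz v D C E ν Hr w0 (ψ.2 k).2 z) ∧ ∀ j ∈ E, D.qb (nt r) (z.2.1 j) = D.qb (nt r) (w0.2.1 j)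

/-- the alive rows -/
noncomputable def GRz (v : ℕ → Finset (Fin 3) → X → (Fin 3 → β) → υ) (D : HD (Fin 3) X β γ φ) (C : Finset (Fin 3))
    (ν : ℕ) (Hr : Pt (Fin 3) X β φ → Prop) (w0 : Pt (Fin 3) X β φ) {M : ℕ} (us : Fin M → Fin 3 → Option β) :
    Finset (Σ _ : Fin M, (Fin 3 → Option (β × List υ))) :=
  (univ : Finset (Fin M)).sigma fun i => ALz v D C ν Hr w0 (us i)

theorem card_GRz {C : Finset (Fin 3)} {ν : ℕ} {Hr : Pt (Fin 3) X β φ → Prop} {X1 : ℝ}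
    (hal : ∀ z, Hr z → -X1 ≤ lJq h v C ν z) {w0 : Pt (Fin 3) X β φ} {M : ℕ} (us : Fin M → Fin 3 → Option β) :
    ((GRz v D C ν Hr w0 us).card : ℝ) ≤ M * Real.exp X1 := by
  unfold GRz
  rw [Finset.card_sigma]
  push_cast
  refine (Finset.sum_le_sum fun i _ => card_ALz hal).trans (le_of_eq ?_)
  rw [Finset.sum_const, Finset.card_univ, Fintype.card_fin, nsmul_eq_mul]

theorem rowLz_congr {C E : Finset (Fin 3)} {ν : ℕ} {Hr : Pt (Fin 3) X β φ → Prop} {w0 : Pt (Fin 3) X β φ}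
    {l : Fin 3 → Option (β × List υ)} {z z2 : Pt (Fin 3) X β φ} (hz : LJ v E ν z = LJ v E ν z2) :
    rowLz v D C E ν Hr w0 l z ↔ rowLz v D C E ν Hr w0 l z2 := by
  unfold rowLz
  rw [hz]

theorem rwz_iff {C E : Finset (Fin 3)} {ν : ℕ} {Hr : Pt (Fin 3) X β φ → Prop} {M : ℕ}
    {us : Fin M → Fin 3 → Option β} {I : Finset (Fin M)} {w0 w z : Pt (Fin 3) X β φ}
    (hw : NPr v D ν w = NPr v D ν w0) : rwz v D C E ν Hr us I w z ↔
      ∃ i ∈ I, (∀ j ∈ C, us i j ≠ Option.none) ∧ rowLz v D C E ν Hr w0 (LJ v C ν (put C w (us i))) z := by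
  unfold rwz rowLz
  rw [hw]

theorem AFz_fac {C E : Finset (Fin 3)} {ν r : ℕ} {Hr : Pt (Fin 3) X β φ → Prop} {w0 : Pt (Fin 3) X β φ} {M : ℕ}
    (ψ : Σ n : ℕ, Fin n → (Σ _ : Fin M, (Fin 3 → Option (β × List υ)))) :
    Fac (LJ (φ := φ) v E ν) (AFz v D C E ν r Hr w0 ψ) := by
  intro a b hab
  refine propext ?_
  unfold AFz
  refine and_congr (exists_congr fun k => rowLz_congr hab) ?_
  refine forall_congr' fun j => forall_congr' fun hj => ?_
  have h1 : a.2.1 j = b.2.1 j := congrArg Prod.fst (TD.LJ_iff.1 hab j hj)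
  rw [h1]

/-- **the exceptional positions of one public cell** -/
theorem exz_exc (hv : Codes D v) {dg : ℕ → X → ℝ} {prr : ℕ → Fin 3 → φ → φ} {T : ℕ} {Lam : ℝ}
    (H : D.Hyp dg prr al T Lam) {C E : Finset (Fin 3)} (hc : Cpl C E) {ν r : ℕ} {Hr : Pt (Fin 3) X β φ → Prop}
    {x : ℝ} (hx : 0 < x) {M : ℕ} (us : Fin M → Fin 3 → Option β) (hν : ν ≤ r) (hr : r ≤ 2 * T)
    {w0 w : Pt (Fin 3) X β φ} (hw : (D.P h 0).p w ≠ 0) (hN : NPr v D r w = NPr v D r w0)
    (hex : exz h v C E ν Hr x us r w) :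
    exc (clq h v (r - r % 2) w0) (fun z => z.1) (NA.lst (GRz v D C ν Hr w0 us) M) (fun ψ => ψ.1)
      (x / 8) (fun ψ => AFz v D C E ν r Hr w0 ψ) w := by
  classical
  obtain ⟨I, hI, h1, h2⟩ := hex
  obtain ⟨r1, r2, r3⟩ := NA.last_even r
  set r' := r - r % 2 with hr'
  have hr'r : r' ≤ r := Nat.sub_le _ _
  have hNν : NPr v D ν w = NPr v D ν w0 := NPr_older hν hN
  have hNr' : NPr v D r' w = NPr v D r' w0 := NPr_older hr'r hN
  have hcl : clq h v r' w = clq h v r' w0 := by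
    unfold clq Pc
    have h3 : NP D v (tm r' + 1) (nt r') w = NP D v (tm r' + 1) (nt r') w0 := hNr'
    rw [h3]
  rw [hcl] at h2
  have cell : ∀ (n : ℕ) (a b : Pt (Fin 3) X β φ), NPr v D n a = NPr v D n b → ∀ j, D.qb (nt n) (a.2.1 j) =
      D.qb (nt n) (b.2.1 j) := fun n a b hab j => congrFun (congrArg Prod.snd (congrArg Prod.snd hab)) j
  have htmν : tm ν ≤ tm r := tm_mono hν
  have htr' : tm ν ≤ nt r' := by rw [r2]; exact htmν
  have htr : tm r ≤ nt r := TD.tm_nt r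
  set g : Pt (Fin 3) X β φ → ℝ := fun z => ind (rwz v D C E ν Hr us I w (put E w (PJ E z))) with hg
  have hgf : Fac (PJ (φ := φ) E) g := by
    intro a b hab
    show ind (rwz v D C E ν Hr us I w (put E w (PJ E a))) = ind (rwz v D C E ν Hr us I w (put E w (PJ E b)))
    rw [hab]
  have hg0 : ∀ z, 0 ≤ g z := fun z => ind_nonneg _
  have hrw : ∀ z z2, LJ v E ν z = LJ v E ν z2 →
      (rwz v D C E ν Hr us I w z ↔ rwz v D C E ν Hr us I w z2) := by
    intro z z2 hz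
    rw [rwz_iff hNν, rwz_iff hNν]
    exact exists_congr fun i => and_congr_right fun _ => and_congr_right fun _ => rowLz_congr hz
  -- the conditional mass
  have hcm : cmz h v C E ν Hr us I r w = (D.P h 0).ce (fun z => (z.1, NPr v D r z)) g w := by
    unfold cmz
    refine B9.ce_congr_cl (D.P h 0) fun z _ hz => ?_
    obtain ⟨hz1, hz2⟩ := Prod.mk.inj hz
    exact ind_cg (hrw z _ (LJ_put hv (htmν.trans htr) hz1 (cell r z w hz2)))
  -- the alive rows
  set I' := I.filter fun i => (∀ j ∈ C, us i j ≠ Option.none) ∧ ∃ z', NPr v D ν z' = NPr v D ν w0 ∧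
    LJ v C ν z' = LJ v C ν (put C w (us i)) ∧ Hr z' with hI'
  have hI'I : I' ⊆ I := Finset.filter_subset _ _
  have hcard : I'.card ≤ I.card := Finset.card_le_card hI'I
  set f : Fin I'.card → Fin M := fun k => ((I'.equivFin).symm k).1 with hf
  have hfm : ∀ k, f k ∈ I' := fun k => ((I'.equivFin).symm k).2
  have hfs : ∀ i ∈ I', ∃ k, f k = i := fun i hi => ⟨I'.equivFin ⟨i, hi⟩, by
    show ((I'.equivFin).symm (I'.equivFin ⟨i, hi⟩)).1 = i
    rw [Equiv.symm_apply_apply]⟩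
  set ψ : Σ n : ℕ, Fin n → (Σ _ : Fin M, (Fin 3 → Option (β × List υ))) :=
    ⟨I'.card, fun k => ⟨f k, LJ v C ν (put C w (us (f k)))⟩⟩ with hψ
  have hrows : ∀ z, (∃ k, rowLz v D C E ν Hr w0 (ψ.2 k).2 z) ↔ rwz v D C E ν Hr us I w z := by
    intro z
    rw [rwz_iff hNν]
    constructor
    · rintro ⟨k, hk⟩
      exact ⟨f k, hI'I (hfm k), (Finset.mem_filter.1 (hfm k)).2.1, hk⟩
    · rintro ⟨i, hi, hn, hk⟩
      obtain ⟨z', k1, k2, k3, k4⟩ := hk
      obtain ⟨k, hk'⟩ := hfs i (Finset.mem_filter.2 ⟨hi, hn, z', k1, k2, k4⟩)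
      refine ⟨k, z', k1, ?_, k3, k4⟩
      show LJ v C ν z' = LJ v C ν (put C w (us (f k)))
      rw [hk', k2]
  -- the conditional mass in the last even cell
  have hle := cmz_le (h := h) hv H hc hr hw hN hgf hg0
  rw [← hcm, ← hr'] at hle
  have hce : (clq h v r' w0).ce (fun z => z.1)
      (fun z => g z * ind (∀ j ∈ E, D.qb (nt r) (z.2.1 j) = D.qb (nt r) (w0.2.1 j))) w =
      (clq h v r' w0).ce (fun z => z.1) (fun z => ind (AFz v D C E ν r Hr w0 ψ z)) w := by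
    rw [ce_hid hw hNr', ce_hid hw hNr']
    refine (Wz h v r' w).E_congr fun z hz => ?_
    obtain ⟨hz1, hz2, _⟩ := Wz_supp hz
    show ind (rwz v D C E ν Hr us I w (put E w (PJ E z))) * ind _ = ind (AFz v D C E ν r Hr w0 ψ z)
    rw [← ind_and]
    refine ind_cg (and_congr ?_ Iff.rfl)
    rw [hrows z]
    exact (hrw z _ (LJ_put hv htr' hz1 (cell r' z w hz2))).symm
  rw [hce] at hle
  have hIc : (0 : ℝ) < I.card := by exact_mod_cast Finset.card_pos.2 hI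
  have hcm0 : 0 < cmz h v C E ν Hr us I r w := lt_of_lt_of_le (by positivity) h1
  -- the list is not empty
  have hI'ne : 1 ≤ I'.card := by
    rw [Nat.one_le_iff_ne_zero]
    intro h0
    have h3 : I' = ∅ := Finset.card_eq_zero.1 h0
    have h4 : ∀ z, g z = 0 := by
      intro z
      refine ind_not fun hc => ?_
      obtain ⟨i, hi, hn, z', k1, k2, k3, k4⟩ := (rwz_iff hNν).1 hc
      have h5 : i ∈ I' := Finset.mem_filter.2 ⟨hi, hn, z', k1, k2, k4⟩
      rw [h3] at h5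
      exact absurd h5 (Finset.notMem_empty i)
    rw [hcm] at hcm0
    have h5 : g = fun _ => (0 : ℝ) := funext h4
    rw [h5, FP.ce_const _ _ _ hw] at hcm0
    exact lt_irrefl _ hcm0
  have hF : ψ ∈ NA.lst (GRz v D C ν Hr w0 us) M := by
    refine NA.mem_lst.2 ⟨⟨hI'ne, ?_⟩, fun k => ?_⟩
    · have := Finset.card_le_univ I'
      rwa [Fintype.card_fin] at this
    · unfold GRz
      refine Finset.mem_sigma.2 ⟨mem_univ _, ?_⟩
      obtain ⟨_, hn, z', k1, k2, k4⟩ := Finset.mem_filter.1 (hfm k)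
      refine mem_ALz.2 ⟨z', ⟨k1, k4, fun j hj => ?_⟩, k2⟩
      have h6 : z'.2.1 j = (put C w (us (f k))).2.1 j := congrArg Prod.fst (TD.LJ_iff.1 k2 j hj)
      have h7 : (put C w (us (f k))).2.1 j = (us (f k) j).getD (w.2.1 j) := by
        show (if j ∈ C then (us (f k) j).getD (w.2.1 j) else w.2.1 j) = _
        rw [if_pos hj]
      obtain ⟨b, hb⟩ := Option.ne_none_iff_exists'.1 (hn j hj)
      show us (f k) j = some (z'.2.1 j)
      rw [h6, h7, hb]
      rfl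
  refine ⟨ψ, hF, ?_⟩
  have hQ : (clq h v r' w0).Pr (AFz v D C E ν r Hr w0 ψ) ≤ (clq h v r' w0).Pr (rwz v D C E ν Hr us I w) :=
    FP.Pr_mono _ fun z _ hz => (hrows z).1 hz.1
  have hQ0 := (clq h v r' w0).Pr_nonneg (AFz v D C E ν r Hr w0 ψ)
  have hρ : (0 : ℝ) ≤ ((r % 2 : ℕ) : ℝ) := Nat.cast_nonneg _
  have hρ1 : ((r % 2 : ℕ) : ℝ) ≤ 1 := by
    have : r % 2 ≤ 1 := by omega
    exact_mod_cast this
  have hjc : ((I'.card : ℕ) : ℝ) ≤ I.card := by exact_mod_cast hcard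
  set ρ : ℝ := ((r % 2 : ℕ) : ℝ) with hρd
  set q := (clq h v r' w0).ce (fun z => z.1) (fun z => ind (AFz v D C E ν r Hr w0 ψ z)) w with hq
  have hq0 : 0 ≤ q := FP.ce_nonneg _ (fun _ _ => ind_nonneg _) w
  refine max_le ?_ ?_
  · show (I'.card : ℝ) * (x / 8) / 4 ≤ q
    have h3 : (I'.card : ℝ) * (x / 8) / 4 ≤ (I.card * x / 4) / 8 := by nlinarith
    have h4 : (1 + 7 * ρ) * q ≤ 8 * q := by nlinarith
    linarith
  · show 4 * (clq h v r' w0).Pr (AFz v D C E ν r Hr w0 ψ) ≤ q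
    have h3 : (4 + 28 * ρ) * (clq h v r' w0).Pr (AFz v D C E ν r Hr w0 ψ) ≤ (1 + 7 * ρ) * q :=
      (mul_le_mul_of_nonneg_left hQ (by linarith)).trans (h2.trans hle)
    have h4 : (1 + 7 * ρ) * (4 * (clq h v r' w0).Pr (AFz v D C E ν r Hr w0 ψ)) ≤ (1 + 7 * ρ) * q := by linarith
    exact le_of_mul_le_mul_left h4 (by linarith)

end pos

section run

variable {X β γ φ : Type} [Fintype X] [Fintype β] [Fintype φ] [Nonempty X] [Nonempty β]
variable {D : HD (Fin 3) X β γ φ} {al : ℝ} {h : D.Thick al}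
  {v : ℕ → Finset (Fin 3) → X → (Fin 3 → β) → Pt (Fin 3) X β φ} {N : Finset (Fin 3) → ℝ} {S : Finset (Finset (Fin 3))}
  {N1 : ℝ}

/-- **EXCEPTIONAL POSITIONS ARE RARE** -/
theorem exz_le (R : Run h N S (AdmDep D) v) (hp : Prc N S N1) {dg : ℕ → X → ℝ} {prr : ℕ → Fin 3 → φ → φ} {T : ℕ}
    {Lam : ℝ} (H : D.Hyp dg prr al T Lam) {C E : Finset (Fin 3)} (hc : Cpl C E) (hEc : E.card ≤ 2) {ν r : ℕ}
    {Hr : Pt (Fin 3) X β φ → Prop} {p1 X1 X2 x dl : ℝ} (hR : RelZ h v C E ν p1 X1 Hr) (hX2 : 0 ≤ X2) (hx : 0 < x)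
    (hX12 : 128 * Real.exp (X1 - X2) ≤ x) (hdl : 0 < dl) (hdl1 : dl ≤ 1) {M : ℕ}
    (hsm : 2 * (M * Real.exp X1) * Real.exp (-(N1 * x ^ 2 / 2 ^ 18 - X2 - 1)) ≤ 1) (us : Fin M → Fin 3 → Option β)
    (hν : ν ≤ r) (hr : r ≤ 2 * T) {w0 : Pt (Fin 3) X β φ} (hw : (D.P h 0).p w0 ≠ 0) (hd : dgq h v dl r w0) :
    (D.P h 0).ce (NPr v D r) (fun w => ind (exz h v C E ν Hr x us r w)) w0 ≤ e9z N1 X1 X2 x dl M := by
  classical
  have hv := R.codes
  have hN1p : 0 < N1 := one_pos.trans_le hp.pos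
  obtain ⟨r1, r2, r3⟩ := NA.last_even r
  set r' := r - r % 2 with hr'
  have hr'r : r' ≤ r := Nat.sub_le _ _
  have htm : tm ν ≤ tm r' := by rw [r1]; exact tm_mono hν
  set Q := clq h v r' w0 with hQ
  set B : ℝ := M * Real.exp X1 with hB
  have hB0 : 0 ≤ B := by positivity
  set x0 : ℝ := N1 * x ^ 2 / 2 ^ 18 - X2 - 1 with hx0
  have hcls : (D.P h 0).Pr (fun z => NPr v D r' z = NPr v D r' w0) ≠ 0 := cell_ne hv 0 (NA.tm_nt r') w0
  have h1 : Q.Pr (exc Q (fun z => z.1) (NA.lst (GRz v D C ν Hr w0 us) M) (fun ψ => ψ.1) (x / 8)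
      (fun ψ => AFz v D C E ν r Hr w0 ψ)) ≤ 2 * Real.exp 1 * (B * Real.exp (-x0)) := by
    refine union_rare (NA.lst (GRz v D C ν Hr w0 us) M) (fun ψ => ψ.1) (fun ψ hψ => (NA.mem_lst.1 hψ).1.1) hB0
      (fun i => NA.card_lst _ M (card_GRz hR.alC us) i) hsm
      (fun ψ w => max ((ψ.1 : ℝ) * (x / 8) / 4) (4 * Q.Pr (AFz v D C E ν r Hr w0 ψ)) ≤
        Q.ce (fun z => z.1) (fun z => ind (AFz v D C E ν r Hr w0 ψ z)) w) fun ψ hψ => ?_
    have hψ1 : (1 : ℝ) ≤ ψ.1 := by exact_mod_cast (NA.mem_lst.1 hψ).1.1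
    set k := max ((ψ.1 : ℝ) * (x / 8) / 4) (4 * Q.Pr (AFz v D C E ν r Hr w0 ψ)) with hk
    have hk1 : (ψ.1 : ℝ) * x / 32 ≤ k := by
      refine le_trans (le_of_eq ?_) (le_max_left _ _)
      ring
    have hkx : x / 32 ≤ k := by
      refine le_trans ?_ hk1
      rw [div_le_div_iff_of_pos_right (by norm_num)]
      exact le_mul_of_one_le_left hx.le hψ1
    have h2 := rare_grp R hp r3 htm hw (J := E) hEc (X1 := X1) hX2 (A := AFz v D C E ν r Hr w0 ψ)
      (AFz_fac ψ) (μ0 := muC D v (tm ν + 1) (nt ν) w0) (by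
        intro u hu i hi
        obtain ⟨⟨k, z, k1, _, k3, k4⟩, _⟩ := hu
        have h3 := alive_one (h := h) hv k1 hi (hR.alE z k4)
        have h4 : XL v (tm ν + 1) i z = XLr v ν i u := TD.LJ_iff.1 k3 i hi
        rw [h4] at h3
        exact h3) (k := k) (by linarith) (le_max_right _ _)
    refine h2.trans (Real.exp_le_exp.2 ?_)
    have h3 : (ψ.1 : ℝ) * (N1 * x ^ 2 / 2 ^ 18) ≤ N1 * k ^ 2 / 256 := by
      have h4 : ((ψ.1 : ℝ) * x / 32) ^ 2 ≤ k ^ 2 := pow_le_pow_left₀ (by positivity) hk1 2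
      have h5 : (ψ.1 : ℝ) * x ^ 2 / 1024 ≤ ((ψ.1 : ℝ) * x / 32) ^ 2 := by
        have h6 : ((ψ.1 : ℝ) * x / 32) ^ 2 = (ψ.1 : ℝ) * ((ψ.1 : ℝ) * (x ^ 2 / 1024)) := by ring
        have h7 : (0 : ℝ) ≤ (ψ.1 : ℝ) * (x ^ 2 / 1024) := by positivity
        rw [h6]
        nlinarith
      have h6 := mul_le_mul_of_nonneg_left (h5.trans h4) hN1p.le
      have h7 : (ψ.1 : ℝ) * (N1 * x ^ 2 / 2 ^ 18) = N1 * ((ψ.1 : ℝ) * x ^ 2 / 1024) / 256 := by ring
      rw [h7]
      exact div_le_div_of_nonneg_right h6 (by norm_num)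
    have h4 : (X2 + 1) ≤ (ψ.1 : ℝ) * (X2 + 1) := le_mul_of_one_le_left (by linarith) hψ1
    rw [hx0]
    nlinarith
  -- the digit
  have hmass : dl * (D.P h 0).m (NPr v D r') w0 ≤ (D.P h 0).m (NPr v D r) w0 := by
    rcases Nat.mod_two_eq_zero_or_one r with h4 | h4
    · have h5 : r' = r := by omega
      rw [h5]
      exact mul_le_of_le_one_left (FP.m_nonneg _ _ _) hdl1
    · have h5 : r' = r - 1 := by omega
      rw [h5]
      exact hd h4
  have hm0 : 0 < (D.P h 0).m (NPr v D r) w0 := FP.m_pos _ _ hw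
  have hm1 : 0 < (D.P h 0).m (NPr v D r') w0 := FP.m_pos _ _ hw
  have h5 : (D.P h 0).E (fun z => ind (NPr v D r z = NPr v D r w0) *
      ind (exz h v C E ν Hr x us r z)) ≤ (D.P h 0).m (NPr v D r') w0 *
        (2 * Real.exp 1 * (B * Real.exp (-x0))) := by
    refine le_trans ?_ (mul_le_mul_of_nonneg_left h1 hm1.le)
    have h6 : Q.Pr (exc Q (fun z => z.1) (NA.lst (GRz v D C ν Hr w0 us) M)
        (fun ψ => ψ.1) (x / 8) (fun ψ => AFz v D C E ν r Hr w0 ψ)) =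
        (D.P h 0).E (fun z => ind (NPr v D r' z = NPr v D r' w0) * ind (exc Q (fun z => z.1)
          (NA.lst (GRz v D C ν Hr w0 us) M) (fun ψ => ψ.1) (x / 8)
          (fun ψ => AFz v D C E ν r Hr w0 ψ) z)) / (D.P h 0).m (NPr v D r') w0 := by
      show ((D.P h 0).cond fun z => NPr v D r' z = NPr v D r' w0).E _ = _
      rw [FP.cond_E hcls]
      rfl
    rw [h6, mul_div_cancel₀ _ hm1.ne']
    refine (D.P h 0).E_mono fun z hz => ?_
    by_cases h7 : NPr v D r z = NPr v D r w0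
    · rw [ind_of h7, ind_of (NPr_older hr'r h7), one_mul, one_mul]
      exact ind_mono fun hex => exz_exc hv H hc hx us hν hr hz h7 hex
    · rw [ind_not h7, zero_mul]
      exact mul_nonneg (ind_nonneg _) (ind_nonneg _)
  unfold FP.ce
  rw [div_le_iff₀ hm0]
  refine h5.trans ?_
  have h6 : 0 ≤ 2 * Real.exp 1 * (B * Real.exp (-x0)) := by positivity
  have h7 : e9z N1 X1 X2 x dl M = (2 * Real.exp 1 * (B * Real.exp (-x0))) / dl := by
    unfold e9z
    rw [hB]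
    ring
  rw [h7, div_mul_eq_mul_div, le_div_iff₀ hdl]
  have h8 := mul_le_mul_of_nonneg_left hmass h6
  linarith

end run

end Pool.Agent.GMH.RZ
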