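import Pool.Agent.GMH.RZ4
import Pool.Agent.GMH.TD9C
import Pool.Agent.GMH.TD9BE

/-!
# GMH/RZ5 (helper36): starts and ends of an epoch of a thin relation between two groups

* `dig_grp` : the digit of the hidden point at an odd half step;
* `start_ex_z` : a positive potential at the start is exceptional;
* `end_ex_z` : a positive potential at an odd end is exceptional;
* `end_pay_z` : at an even end the potential is paid by the letters of the group.
-/

set_option autoImplicit false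
set_option linter.unusedSectionVars false

namespace Pool.Agent.GMH.RZ

open Finset Pool.Agent.PWZ Pool.Agent.M3 Pool.Agent.GM Pool.Agent.GM.Harm Pool.Agent.GMH Pool.Agent.GMH.NZ
open Pool.Agent.GMH.V3 Pool.Agent.GMH.Gdy Pool.Agent.GMH.TD

section gen

variable {X β γ φ υ : Type} [Fintype X] [Fintype β] [Fintype φ] [Nonempty X] [Nonempty β]
variable {D : HD (Fin 3) X β γ φ} {al : ℝ} {h : D.Thick al} {v : ℕ → Finset (Fin 3) → X → (Fin 3 → β) → υ}

/-- relative entropy of the letters of a group in a code step -/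
theorem kl_code_z (hv : Codes D v) {r : ℕ} (hr : r % 2 = 1) (E : Finset (Fin 3)) {w : Pt (Fin 3) X β φ}
    (hw : (D.P h 0).p w ≠ 0) :
    (clq h v (r + 1) w).kl (clq h v r w) (LJ v E r) = (D.P h 0).ce (NPr v D (r + 1)) (aJq h v E r) w := by
  rw [FP.ce_eq_cond (D.P h 0) (NPr v D (r + 1)) (aJq h v E r) hw]
  have e0 : clq h v (r + 1) w = (D.P h 0).cond fun u => NPr v D (r + 1) u = NPr v D (r + 1) w := rfl
  have e1 : clq h v r w = (D.P h 0).cond fun u => NPr v D r u = NPr v D r w := rfl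
  unfold FP.kl
  rw [e0, e1]
  refine FP.E_congr _ fun u hu => ?_
  have hu' := (FP.cond_p_ne ((D.P h 0).m_pos (NPr v D (r + 1)) hw).ne').1 hu
  have hu0 := hu'.2
  have hN1 : NPr v D (r + 1) u = NPr v D (r + 1) w := hu'.1
  have hN0 : NPr v D r u = NPr v D r w := TD.NPr_step r u w hN1
  rw [FP.cond_m_fibre (P := D.P h 0) (LJ v E r) (NPr v D (r + 1)) hw hN1,
    FP.cond_m_fibre (P := D.P h 0) (LJ v E r) (NPr v D r) hw hN0,
    ← (D.P h 0).Fac_m (NPr v D (r + 1)) u w hN1, ← (D.P h 0).Fac_m (NPr v D r) u w hN0]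
  have k := TD.prod_code (h := h) hv hr E hu0
  have a1 := (D.P h 0).m_pos (fun x => (LJ v E r x, NPr v D (r + 1) x)) hu0
  have a2 := (D.P h 0).m_pos (fun x => (LJ v E r x, NPr v D r x)) hu0
  have b1 := (D.P h 0).m_pos (fun x => (PJ E x, NPr v D (r + 1) x)) hu0
  have b2 := (D.P h 0).m_pos (fun x => (PJ E x, NPr v D r x)) hu0
  have c1 := (D.P h 0).m_pos (NPr v D (r + 1)) hu0
  have c2 := (D.P h 0).m_pos (NPr v D r) hu0
  unfold aJq ai lqn lq
  rw [← Real.log_div (div_ne_zero a1.ne' b1.ne') (div_ne_zero a2.ne' b2.ne')]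
  congr 1
  generalize (D.P h 0).m (fun x => (LJ v E r x, NPr v D (r + 1) x)) u = x1 at *
  generalize (D.P h 0).m (fun x => (LJ v E r x, NPr v D r x)) u = x2 at *
  generalize (D.P h 0).m (fun x => (PJ E x, NPr v D (r + 1) x)) u = y1 at *
  generalize (D.P h 0).m (fun x => (PJ E x, NPr v D r x)) u = y2 at *
  generalize (D.P h 0).m (NPr v D (r + 1)) u = z1 at *
  generalize (D.P h 0).m (NPr v D r) u = z2 at *
  field_simp
  linear_combination k

theorem cX_succ' {s t : ℕ} (c : Pt (Fin 3) X β φ) (x : X) :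
    cX D v s (t + 1) c x ↔ D.qa (t + 1) x = D.qa (t + 1) c.1 ∧ cX D v s t c x := by
  unfold cX
  constructor
  · rintro ⟨h1, h2⟩
    exact ⟨h2, h1, D.ra t x c.1 h2⟩
  · rintro ⟨h2, h1, -⟩
    exact ⟨h1, h2⟩

/-- a function of the hidden point after the digit -/
theorem muC_succ_E {s t : ℕ} (c : Pt (Fin 3) X β φ) (f : X → ℝ) :
    (muC D v s t c).Pr (fun x => D.qa (t + 1) x = D.qa (t + 1) c.1) * (muC D v s (t + 1) c).E f =
      (muC D v s t c).E fun x => ind (D.qa (t + 1) x = D.qa (t + 1) c.1) * f x := by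
  have hA : (FP.unif X).Pr (cX D v s t c) ≠ 0 := unif_ne (cX_self s t c)
  have hA' : (FP.unif X).Pr (cX D v s (t + 1) c) ≠ 0 := unif_ne (cX_self s (t + 1) c)
  unfold muC FP.Pr
  rw [FP.cond_E hA, FP.cond_E hA', FP.cond_E hA]
  have e1 : (FP.unif X).E (fun x => ind (cX D v s t c x) * ind (D.qa (t + 1) x = D.qa (t + 1) c.1)) =
      (FP.unif X).Pr (cX D v s (t + 1) c) := by
    unfold FP.Pr
    refine FP.E_congr _ fun x _ => ?_
    rw [← ind_and]
    exact ind_cg ((and_comm).trans (cX_succ' c x).symm)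
  have e2 : (FP.unif X).E (fun x => ind (cX D v s t c x) * (ind (D.qa (t + 1) x = D.qa (t + 1) c.1) * f x)) =
      (FP.unif X).E (fun x => ind (cX D v s (t + 1) c x) * f x) := by
    refine FP.E_congr _ fun x _ => ?_
    rw [ind_cg (cX_succ' c x), ind_and]
    ring
  rw [e1, e2]
  field_simp

/-- **the event of the letters of a group given the digit of the hidden point, and after the digit** -/
theorem dig_A (hv : Codes D v) {C E : Finset (Fin 3)} (hc : Cpl C E) {t T : ℕ} (hT : 2 * t + 1 ≤ 2 * T)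
    {w : Pt (Fin 3) X β φ} (hw : (D.P h 0).p w ≠ 0) {A : Pt (Fin 3) X β φ → Prop} (hA : Fac (LJ v E (2 * t + 1)) A)
    (hcell : ∀ u, A u → ∀ j ∈ E, D.qb (t + 1) (u.2.1 j) = D.qb (t + 1) (w.2.1 j)) :
    (clq h v (2 * t) w).E (fun u => ind (D.qa (t + 1) u.1 = D.qa (t + 1) w.1) * ind (A u)) ≤
      (clq h v (2 * t) w).Pr (fun u => D.qa (t + 1) u.1 = D.qa (t + 1) w.1) * (clq h v (2 * t + 1) w).Pr A := by
  have et : tm (2 * t) = t := by unfold tm; omega
  have en : nt (2 * t) = t := by unfold nt; omega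
  have et' : tm (2 * t + 1) = t := by unfold tm; omega
  have en' : nt (2 * t + 1) = t + 1 := by unfold nt; omega
  have hs : t + 1 ≤ t + 1 := le_rfl
  set Q' := clq h v (2 * t) w with hQ'
  set Q := clq h v (2 * t + 1) w with hQ
  have eQ' : Q' = Pc h v 0 (t + 1) t w := by rw [hQ']; unfold clq; rw [et, en]
  have eQ : Q = Pc h v 0 (t + 1) (t + 1) w := by rw [hQ]; unfold clq; rw [et', en']
  have eN' : NPr (φ := φ) v D (2 * t) = NP D v (t + 1) t := by unfold NPr; rw [et, en]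
  have eN : NPr (φ := φ) v D (2 * t + 1) = NP D v (t + 1) (t + 1) := by unfold NPr; rw [et', en']
  set G : Pt (Fin 3) X β φ → ℝ := Q'.ce (fun z => z.1) (fun z => ind (A z)) with hG
  have hGf : ∀ u, G u = G (u.1, w.2.1, w.2.2) := fun u => Q'.ce_fac (fun z => z.1) _ u (u.1, w.2.1, w.2.2) rfl
  set G' : X → ℝ := fun x => G (x, w.2.1, w.2.2) with hG'
  -- the left side
  have e1 : Q'.E (fun u => ind (D.qa (t + 1) u.1 = D.qa (t + 1) w.1) * ind (A u)) =
      (muC D v (t + 1) t w).E (fun x => ind (D.qa (t + 1) x = D.qa (t + 1) w.1) * G' x) := by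
    have hf : Fac (fun z : Pt (Fin 3) X β φ => z.1) (fun u => ind (D.qa (t + 1) u.1 = D.qa (t + 1) w.1)) := by
      intro a b hab
      have h0 : a.1 = b.1 := hab
      show ind (D.qa (t + 1) a.1 = D.qa (t + 1) w.1) = ind (D.qa (t + 1) b.1 = D.qa (t + 1) w.1)
      rw [h0]
    have h1 := Q'.E_mul_ce hf (fun u => ind (A u))
    rw [← h1, ← Pc_E0 (h := h) hv 0 hs w (fun x => ind (D.qa (t + 1) x = D.qa (t + 1) w.1) * G' x), ← eQ']
    refine Q'.E_congr fun u _ => ?_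
    show ind _ * G u = ind _ * G' u.1
    rw [hGf u]
  have e2 : Q'.Pr (fun u => D.qa (t + 1) u.1 = D.qa (t + 1) w.1) =
      (muC D v (t + 1) t w).Pr fun x => D.qa (t + 1) x = D.qa (t + 1) w.1 := by
    unfold FP.Pr
    rw [← Pc_E0 (h := h) hv 0 hs w (fun x => ind (D.qa (t + 1) x = D.qa (t + 1) w.1)), ← eQ']
  rw [e1, e2, ← muC_succ_E w G']
  refine mul_le_mul_of_nonneg_left ?_ (FP.Pr_nonneg _ _)
  rw [← Pc_E0 (h := h) hv 0 (by omega) w G', ← eQ]
  -- the right side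
  have e3 : Q.Pr A = Q.E (Q.ce (fun z => z.1) (fun z => ind (A z))) := (Q.E_ce _ _).symm
  rw [e3]
  refine Q.E_mono fun u hu => ?_
  have hu' : NPr v D (2 * t + 1) u = NPr v D (2 * t + 1) w := by
    rw [eN]
    rw [eQ] at hu
    exact Pc_supp hv (by omega) hu
  have hu0 : (D.P h 0).p u ≠ 0 := by
    have h1 := (FP.cond_p_ne ((D.P h 0).m_pos (NPr v D (2 * t + 1)) hw).ne').1 hu
    exact h1.2
  have hu2 : NPr v D (2 * t) u = NPr v D (2 * t) w := NPr_older (Nat.le_succ _) hu'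
  have h1 : G' u.1 = (Wz h v (2 * t) u).E (fun z => ind (A z)) := by
    show G (u.1, w.2.1, w.2.2) = _
    rw [← hGf u, hG, hQ', ce_hid hu0 hu2]
  have h2 : Q.ce (fun z => z.1) (fun z => ind (A z)) u =
      (D.P h 0).ce (fun z => (z.1, NPr v D (2 * t + 1) z)) (fun z => ind (A z)) u := by
    rw [hQ, ce_hid hu0 hu', (D.P h 0).ce_eq_cond (fun z : Pt (Fin 3) X β φ => (z.1, NPr v D (2 * t + 1) z))
      (fun z => ind (A z)) hu0]
    rfl
  set g : Pt (Fin 3) X β φ → ℝ := fun z => ind (A (put E u (PJ E z))) with hg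
  have hgf : Fac (PJ (φ := φ) E) g := by
    intro a b hab
    show ind (A (put E u (PJ E a))) = ind (A (put E u (PJ E b)))
    rw [hab]
  have cell : ∀ (n : ℕ) (a b : Pt (Fin 3) X β φ), NPr v D n a = NPr v D n b → ∀ j, D.qb (nt n) (a.2.1 j) =
      D.qb (nt n) (b.2.1 j) := fun n a b hab j => congrFun (congrArg Prod.snd (congrArg Prod.snd hab)) j
  have hgA : ∀ z, z.1 = u.1 → (∀ j, D.qb t (z.2.1 j) = D.qb t (u.2.1 j)) → ind (A z) = g z := by
    intro z hz1 hz2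
    refine ind_cg ?_
    rw [hA z (put E u (PJ E z)) (LJ_put hv (by rw [et']) hz1 hz2)]
  have h3 : (D.P h 0).ce (fun z => (z.1, NPr v D (2 * t + 1) z)) (fun z => ind (A z)) u =
      (D.P h 0).ce (fun z => (z.1, NPr v D (2 * t + 1) z)) g u := by
    refine B9.ce_congr_cl (D.P h 0) fun z _ hz => ?_
    obtain ⟨hz1, hz2⟩ := Prod.mk.inj hz
    refine hgA z hz1 fun j => ?_
    have h4 := cell (2 * t) z u (NPr_older (Nat.le_succ _) hz2) j
    rwa [en] at h4
  rw [h1, h2, h3, ce_cz hv hc (T := T) (ν := 2 * t) (s := 1) hT hgf hu0]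
  have hWu : (Wz h v (2 * t) u).p u ≠ 0 := Wz_self hu0
  have h4 : 0 < (Wz h v (2 * t) u).m (cz D T E (2 * t) 1) u := FP.m_pos _ _ hWu
  have h5 : (Wz h v (2 * t) u).m (cz D T E (2 * t) 1) u ≤ 1 := FP.m_le_one _ _ _
  have h6 : (Wz h v (2 * t) u).E (fun z => ind (A z)) ≤
      (Wz h v (2 * t) u).E (fun z => ind (cz D T E (2 * t) 1 z = cz D T E (2 * t) 1 u) * g z) := by
    refine (Wz h v (2 * t) u).E_mono fun z hz => ?_
    obtain ⟨hz1, hz2, _⟩ := Wz_supp hz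
    have h7 : ind (A z) = g z := hgA z hz1 fun j => by
      have h4 := cell (2 * t) z u hz2 j
      rwa [en] at h4
    rw [← h7]
    by_cases hz3 : A z
    · rw [ind_of hz3, ind_of, one_mul]
      rw [cz_iff]
      intro j hj
      unfold cel
      rw [min_eq_left hT, en', hcell z hz3 j hj]
      have h8 := cell (2 * t + 1) u w hu' j
      rw [en'] at h8
      exact h8.symm
    · rw [ind_not hz3, mul_zero]
  unfold FP.ce
  rw [le_div_iff₀ h4]
  have h7 : 0 ≤ (Wz h v (2 * t) u).E (fun z => ind (A z)) := FP.E_nonneg _ fun _ _ => ind_nonneg _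
  nlinarith

end gen

section run

variable {X β γ φ : Type} [Fintype X] [Fintype β] [Fintype φ] [Nonempty X] [Nonempty β]
variable {D : HD (Fin 3) X β γ φ} {al : ℝ} {h : D.Thick al}
  {v : ℕ → Finset (Fin 3) → X → (Fin 3 → β) → Pt (Fin 3) X β φ} {N : Finset (Fin 3) → ℝ} {S : Finset (Finset (Fin 3))}
  {N1 : ℝ}

/-- error of the digit -/
noncomputable def edz (N1 X1 X2 dl : ℝ) : ℝ := Real.exp (X1 - X2) + 8 * Real.sqrt ((Real.log (1 / dl) + X2 + 2) / N1)

/-- **the digit of the hidden point** -/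
theorem dig_grp (R : Run h N S (AdmDep D) v) (hp : Prc N S N1) {T : ℕ} {C E : Finset (Fin 3)} (hc : Cpl C E)
    (hEc : E.card ≤ 2) {r : ℕ} (hr1 : r % 2 = 1) (hr : r ≤ 2 * T) {X1 X2 dl : ℝ} (hX2 : 0 ≤ X2) (hdl : 0 < dl)
    {w : Pt (Fin 3) X β φ} (hw : (D.P h 0).p w ≠ 0) (hd : dgq h v dl r w) {A : Pt (Fin 3) X β φ → Prop}
    (hA : Fac (LJ v E r) A) (hcell : ∀ u, A u → ∀ j ∈ E, D.qb (nt r) (u.2.1 j) = D.qb (nt r) (w.2.1 j)) {μ0 : FP X}
    (hal : ∀ u, A u → ∀ i ∈ E, Real.exp (-X1) ≤ μ0.Pr (Gl v (tm r + 1) w i (XLr v r i u))) :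
    (clq h v (r - 1) w).Pr A ≤ (clq h v r w).Pr A + edz N1 X1 X2 dl := by
  have hv := R.codes
  have hN : 0 < N1 := lt_of_lt_of_le one_pos hp.pos
  obtain ⟨t, rfl⟩ : ∃ t, r = 2 * t + 1 := ⟨r / 2, by omega⟩
  have e0 : 2 * t + 1 - 1 = 2 * t := by omega
  rw [e0]
  have et : tm (2 * t) = t := by unfold tm; omega
  have en : nt (2 * t) = t := by unfold nt; omega
  have et' : tm (2 * t + 1) = t := by unfold tm; omega
  have en' : nt (2 * t + 1) = t + 1 := by unfold nt; omega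
  have hs : t + 1 ≤ t + 1 := le_rfl
  have eQ' : clq h v (2 * t) w = Pc h v 0 (t + 1) t w := by unfold clq; rw [et, en]
  have hd' := hd (by omega)
  rw [e0] at hd'
  have hF : dl ≤ (muC D v (t + 1) t w).Pr (fun x => D.qa (t + 1) x = D.qa (t + 1) w.1) :=
    _root_.Pool.Agent.GMH.TD.RT.dig_pr hv hd'
  have hPF : (clq h v (2 * t) w).Pr (fun u => D.qa (t + 1) u.1 = D.qa (t + 1) w.1) =
      (muC D v (t + 1) t w).Pr fun x => D.qa (t + 1) x = D.qa (t + 1) w.1 := by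
    unfold FP.Pr
    rw [← Pc_E0 (h := h) hv 0 hs w (fun x => ind (D.qa (t + 1) x = D.qa (t + 1) w.1)), ← eQ']
  set q := (clq h v (2 * t) w).Pr (fun u => D.qa (t + 1) u.1 = D.qa (t + 1) w.1) with hq
  have hdq : dl ≤ q := by rw [hPF]; exact hF
  have hq0 : 0 < q := hdl.trans_le hdq
  have h1 := dig_A (h := h) hv hc hr hw hA (fun u hu j hj => by
    have := hcell u hu j hj
    rwa [en'] at this)
  rw [← hq] at h1
  have h2 := tv_grp R hp (ν := 2 * t + 1) (r := 2 * t) (by omega) (by rw [et, et']) hw hEc (X1 := X1) hX2 hA hal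
    (E := fun x => D.qa (t + 1) x = D.qa (t + 1) w.1) hq0.ne'
  rw [← hq] at h2
  have h3 : ((clq h v (2 * t) w).cond fun u => D.qa (t + 1) u.1 = D.qa (t + 1) w.1).Pr A ≤
      (clq h v (2 * t + 1) w).Pr A := by
    have h0 : ((clq h v (2 * t) w).cond fun u => D.qa (t + 1) u.1 = D.qa (t + 1) w.1).Pr A =
        (clq h v (2 * t) w).E (fun u => ind (D.qa (t + 1) u.1 = D.qa (t + 1) w.1) * ind (A u)) / q := by
      unfold FP.Pr
      rw [FP.cond_E hq0.ne']
    rw [h0, div_le_iff₀ hq0]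
    linarith
  have h4 := (abs_le.1 h2).1
  have h5 : Real.sqrt ((Real.log (1 / q) + X2 + 2) / N1) ≤ Real.sqrt ((Real.log (1 / dl) + X2 + 2) / N1) := by
    refine Real.sqrt_le_sqrt (div_le_div_of_nonneg_right ?_ hN.le)
    have : Real.log (1 / q) ≤ Real.log (1 / dl) :=
      Real.log_le_log (by positivity) (one_div_le_one_div_of_le hdl hdq)
    linarith
  unfold edz
  linarith

/-- **a positive potential at the start is exceptional** -/
theorem start_ex_z (R : Run h N S (AdmDep D) v) (hp : Prc N S N1) {T : ℕ} {C E : Finset (Fin 3)} (hc : Cpl C E)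
    (hEc : E.card ≤ 2) {ν : ℕ} {Hr : Pt (Fin 3) X β φ → Prop} {p1 X1 X2 x dl : ℝ} (hR : RelZ h v C E ν p1 X1 Hr)
    (hp0 : 0 ≤ p1) (hX2 : 0 ≤ X2) (hx : 0 < x) (hxp : 2 ^ 10 * p1 ≤ x) (hdl : 0 < dl)
    (hxd : 2 ^ 10 * edz N1 X1 X2 dl ≤ x) {M : ℕ} (us : Fin M → Fin 3 → Option β) (hν : ν ≤ 2 * T)
    {w : Pt (Fin 3) X β φ} (hw : (D.P h 0).p w ≠ 0) (hd : dgq h v dl ν w)
    (hP : 0 < Phz h v T C E ν Hr x us 0 w) : exz h v C E ν Hr x us ν w := by
  have hv := R.codes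
  obtain ⟨I, hI, _, h2⟩ := Phz_cm hv hc hx us (show ν + 0 ≤ 2 * T by omega) hw hP
  rw [Nat.add_zero] at h2
  refine ⟨I, hI, h2, le_trans ?_ h2⟩
  have h3 := thin_start_z hR hp0 us I hw
  have hcd : (1 : ℝ) ≤ I.card := by exact_mod_cast Finset.card_pos.2 hI
  have hcp : (I.card : ℝ) * (2 ^ 10 * p1) ≤ I.card * x := mul_le_mul_of_nonneg_left hxp (by linarith)
  have hcu : x ≤ I.card * x := le_mul_of_one_le_left hx.le hcd
  rcases Nat.mod_two_eq_zero_or_one ν with hm | hm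
  · rw [hm, Nat.sub_zero]
    push_cast
    have h4 : (0 : ℝ) ≤ (clq h v ν w).Pr (rwz v D C E ν Hr us I w) := FP.Pr_nonneg _ _
    linarith
  · rw [hm]
    push_cast
    have h4 := dig_grp R hp hc hEc hm hν (X1 := X1) hX2 hdl hw hd (A := rwz v D C E ν Hr us I w) rwz_fac
      (fun u hu => rwz_cell hu) (μ0 := muC D v (tm ν + 1) (nt ν) w) (by
        intro u hu i hi
        obtain ⟨i', _, _, z, k1, _, k3, k4⟩ := hu
        have h3 := alive_one (h := h) hv k1 hi (hR.alE z k4)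
        have h4 : XL v (tm ν + 1) i z = XLr v ν i u := TD.LJ_iff.1 k3 i hi
        rw [h4] at h3
        exact h3)
    linarith

/-- **a positive potential at an odd end is exceptional** -/
theorem end_ex_z (hv : Codes D v) {C E : Finset (Fin 3)} (hc : Cpl C E) {T : ℕ} {ν : ℕ}
    {Hr : Pt (Fin 3) X β φ → Prop} {p1 X1 x δ kp : ℝ} (hR : RelZ h v C E ν p1 X1 Hr) (hp0 : 0 ≤ p1) (hx : 0 < x)
    (hxp : 2 ^ 10 * p1 ≤ x) (hkp : 2 ^ 10 * kp ≤ x) (hδ : δ ≤ 1 / 2) {M : ℕ} (us : Fin M → Fin 3 → Option β) {s : ℕ}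
    (hs1 : 1 ≤ s) (hs : ν + s ≤ 2 * T) (hodd : (ν + s) % 2 = 1) {w : Pt (Fin 3) X β φ} (hw : (D.P h 0).p w ≠ 0)
    (hm : (D.P h 0).ce (NPr v D (ν + s - 1)) (fun y => ind (MJq h v δ E ν (ν + s - 1) y)) w < kp)
    (hP : 0 < Phz h v T C E ν Hr x us s w) : exz h v C E ν Hr x us (ν + s) w := by
  obtain ⟨I, hI, _, h2⟩ := Phz_cm hv hc hx us hs hw hP
  refine ⟨I, hI, h2, le_trans ?_ h2⟩
  have hcd : (1 : ℝ) ≤ I.card := by exact_mod_cast Finset.card_pos.2 hI
  have hcp : (I.card : ℝ) * (2 ^ 10 * p1) ≤ I.card * x := mul_le_mul_of_nonneg_left hxp (by linarith)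
  have hcu : x ≤ I.card * x := le_mul_of_one_le_left hx.le hcd
  have h3 := thin_later_z hR hp0 hδ us I (show ν ≤ ν + s - 1 by omega) w hw rfl
  have h4 : (clq h v (ν + s - 1) w).Pr (MJq h v δ E ν (ν + s - 1)) < kp := by
    rw [C9.clq_Pr _ hw]
    exact hm
  rw [hodd]
  push_cast
  linarith

/-- **payment at an even end** -/
theorem end_pay_z (hv : Codes D v) {C E : Finset (Fin 3)} (hc : Cpl C E) {T : ℕ} {ν : ℕ}
    {Hr : Pt (Fin 3) X β φ → Prop} {p1 X1 x δ kp : ℝ} (hR : RelZ h v C E ν p1 X1 Hr) (hp0 : 0 ≤ p1) (hx : 0 < x)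
    (hxp : 2 ^ 10 * p1 ≤ x) (hkp : 2 ^ 10 * kp ≤ x) (hδ : δ ≤ 1 / 2) {M : ℕ} (us : Fin M → Fin 3 → Option β) {s : ℕ}
    (hs1 : 1 ≤ s) (hs : ν + s ≤ 2 * T) (hev : (ν + s) % 2 = 0) {w : Pt (Fin 3) X β φ} (hw : (D.P h 0).p w ≠ 0)
    (hm : (D.P h 0).ce (NPr v D (ν + s - 1)) (fun y => ind (MJq h v δ E ν (ν + s - 1) y)) w < kp)
    (hex : ¬ exz h v C E ν Hr x us (ν + s) w) :
    Phz h v T C E ν Hr x us s w ≤ 3 * (D.P h 0).ce (NPr v D (ν + s)) (aJq h v E (ν + s - 1)) w := by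
  have hr1 : (ν + s - 1) % 2 = 1 := by omega
  have hr2 : ν + s - 1 + 1 = ν + s := by omega
  have hkl := kl_code_z (h := h) hv hr1 E hw
  rw [hr2] at hkl
  rw [← hkl]
  have hac : (clq h v (ν + s) w).Ac (clq h v (ν + s - 1) w) := C9.clq_ac (by omega) hw
  have hk0 := FP.kl_nonneg hac (LJ (φ := φ) v E (ν + s - 1))
  rcases le_or_gt (Phz h v T C E ν Hr x us s w) 0 with hP | hP
  · linarith
  obtain ⟨I, hI, h1, h2⟩ := Phz_cm hv hc hx us hs hw hP
  set A := rwz v D C E ν Hr us I w with hA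
  have h3 : cmz h v C E ν Hr us I (ν + s) w < 4 * (clq h v (ν + s) w).Pr A := by
    by_contra hcon
    refine hex ⟨I, hI, h2, ?_⟩
    rw [hev]
    simp only [Nat.cast_zero, mul_zero, add_zero, Nat.sub_zero]
    exact not_lt.1 hcon
  have h4 := thin_later_z hR hp0 hδ us I (show ν ≤ ν + s - 1 by omega) w hw rfl
  rw [← hA] at h4
  have h5 : (clq h v (ν + s - 1) w).Pr (MJq h v δ E ν (ν + s - 1)) < kp := by
    rw [C9.clq_Pr _ hw]
    exact hm
  have hAf : Fac (LJ (φ := φ) v E (ν + s - 1)) A := by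
    intro a b hab
    refine rwz_fac a b ?_
    rw [TD.LJ_iff] at hab ⊢
    exact fun j hj => XLr_older (by omega) (hab j hj)
  have h6 := C9.lin_kl hac (X := LJ (φ := φ) v E (ν + s - 1)) (A := A) hAf
  have hI1 : (1 : ℝ) ≤ I.card := by exact_mod_cast hI.card_pos
  have h7 : (I.card : ℝ) * p1 * 2 ^ 10 ≤ I.card * x := by nlinarith
  have h8 : x ≤ (I.card : ℝ) * x := by nlinarith
  nlinarith

end run

end Pool.Agent.GMH.RZ
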