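import Pool.Agent.GMH.RZ6
import Pool.Agent.GMH.MVI
import Pool.Agent.GMH.MV4
import Pool.Agent.GMH.MV6
import Pool.Agent.GMH.MV9
import Pool.Agent.GMH.MV2

/-!
# GMH/RZ7 (helper36): substeps and half steps, letters given all exact points, pull back to the positions

* `rho k` : half step of the substep `k`; `sbt q` : last substep of the half step `q`; `NPq_rho`, `XLq_sbt`, `XLq_rho`;
* `ce_pts` : functions of (hidden point, points of `J`, public information) given (points of `J`, public information);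
  `ce_more` : the other exact points do not matter; `lam_eq` : log probabilities of letters with all exact points (`LF`, `YF`)
  are those with the points of the group (`LJ`, `PJ`);
* `lft` : a point of the space with tables over a position.
-/

set_option autoImplicit false
set_option linter.unusedSectionVars false

namespace Pool.Agent.GMH.RZ

open Finset Pool.Agent.PWZ Pool.Agent.M3 Pool.Agent.GM Pool.Agent.GM.Harm Pool.Agent.GMH Pool.Agent.GMH.NZ
open Pool.Agent.GMH.V3 Pool.Agent.GMH.TD Pool.Agent.GMH.TP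

/-! ### substeps and half steps -/

/-- half step of the substep `k` -/
def rho (k : ℕ) : ℕ := 2 * (k / 5) + min (k % 5) 2

/-- last substep of the half step `q` -/
def sbt (q : ℕ) : ℕ := 5 * (q / 2) + q % 2

theorem rho_sbt (q : ℕ) : rho (sbt q) = q := by
  unfold rho sbt
  omega

theorem rho_le {k q : ℕ} : rho k ≤ q ↔ k ≤ sbt q := by
  unfold rho sbt
  omega

theorem rho_mono {j k : ℕ} (h : j ≤ k) : rho j ≤ rho k := by
  unfold rho
  omega

theorem sbt_mono {q r : ℕ} (h : q ≤ r) : sbt q ≤ sbt r := by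
  unfold sbt
  omega

theorem le_sbt_rho (k : ℕ) : k ≤ sbt (rho k) := by
  unfold rho sbt
  omega

theorem rho_0 (t : ℕ) : rho (5 * t) = 2 * t := by
  unfold rho
  omega

theorem rho_1 (t : ℕ) : rho (5 * t + 1) = 2 * t + 1 := by
  unfold rho
  omega

theorem rho_j (t : ℕ) {j : ℕ} (h2 : 2 ≤ j) (h5 : j ≤ 5) : rho (5 * t + j) = 2 * t + 2 := by
  unfold rho
  omega

section pts

variable {X β γ φ υ : Type} [Fintype X] [Fintype β] [Fintype φ] [Nonempty X] [Nonempty β]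
variable {D : HD (Fin 3) X β γ φ} {al : ℝ} {h : D.Thick al} {v : ℕ → Finset (Fin 3) → X → (Fin 3 → β) → υ}

theorem nc_rho (k : ℕ) : nc k ∅ = tm (rho k) + 1 := by
  unfold nc ncj rho tm
  have key : rk ∅ = 1 := by decide
  rw [key]
  split_ifs <;> omega

theorem nn_rho (k : ℕ) : TP.nn k = nt (rho k) := by
  unfold TP.nn nnj rho nt
  split_ifs <;> omega

omit [Nonempty X] [Nonempty β] in
/-- public information -/
theorem NPq_rho (k : ℕ) : NPq (φ := φ) D v k = NPr v D (rho k) := by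
  funext w
  unfold NPq NPr
  rw [nc_rho, nn_rho]

theorem nc_sbt (q : ℕ) (i : Fin 3) : nc (sbt q) {i} = tm q + 1 := by
  have h2 : rk {i} = 2 ∨ rk {i} = 3 ∨ rk {i} = 4 := by
    revert i
    decide
  unfold nc ncj sbt tm
  have h1 : (5 * (q / 2) + q % 2) % 5 = q % 2 := by omega
  have h3 : (5 * (q / 2) + q % 2) / 5 = q / 2 := by omega
  rw [h1, h3, if_neg (by omega)]

omit [Nonempty X] [Nonempty β] in
/-- letters at the last substep -/
theorem XLq_sbt (q : ℕ) (i : Fin 3) : XLq (φ := φ) v (sbt q) i = XLr v q i := by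
  funext w
  unfold XLq XLr
  rw [nc_sbt]

/-- letters of a substep are coarser than those of its half step -/
theorem XLq_rho (k : ℕ) (i : Fin 3) : Fac (XLr (φ := φ) v (rho k) i) (XLq v k i) := by
  intro a b hab
  rw [← XLq_sbt] at hab
  have h1 : nc k {i} ≤ nc (sbt (rho k)) {i} := nc_mono (le_sbt_rho k) (by unfold pth; simp)
  have g1 : a.2.1 i = b.2.1 i := congrArg Prod.fst hab
  have g2 : Um v (nc (sbt (rho k)) {i}) {i} a.1 a.2.1 = Um v (nc (sbt (rho k)) {i}) {i} b.1 b.2.1 :=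
    congrArg Prod.snd hab
  exact Prod.ext g1 (Um_older h1 g2)

/-! ### functions of the hidden point and of some points, given the public information -/

theorem cell_ce (hv : Codes D v) (t : ℕ) {s n : ℕ} (hs : s ≤ n + 1) (J : Finset (Fin 3)) {w : Pt (Fin 3) X β φ}
    {f : Pt (Fin 3) X β φ → ℝ} {F : X → ℝ}
    (hf : ∀ u, NP D v s n u = NP D v s n w → PJ J u = PJ J w → f u = F u.1) :
    (D.P h t).ce (fun u => (PJ J u, NP D v s n u)) f w = (muC D v s n w).E F := by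
  have h1 := cell_E (h := h) hv t hs w F (fun j b => if j ∈ J then ind (b = w.2.1 j) else 1)
  have h2 := cell_E (h := h) hv t hs w (fun _ => 1) (fun j b => if j ∈ J then ind (b = w.2.1 j) else 1)
  set A : ℝ := (FP.unif X).Pr (cX D v s n w) * ∏ j, (FP.unif β).Pr (cY D n w j) with hA
  set Q : ℝ := ∏ j, (nuC D n w j).E (fun b => if j ∈ J then ind (b = w.2.1 j) else 1) with hQ
  have key : ∀ u : Pt (Fin 3) X β φ, ind ((PJ J u, NP D v s n u) = (PJ J w, NP D v s n w)) =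
      ind (NP D v s n u = NP D v s n w) * ∏ j, (if j ∈ J then ind (u.2.1 j = w.2.1 j) else (1 : ℝ)) := by
    intro u
    have e1 : ind ((PJ J u, NP D v s n u) = (PJ J w, NP D v s n w)) =
        ind (NP D v s n u = NP D v s n w ∧ ∀ j ∈ J, u.2.1 j = w.2.1 j) := by
      refine ind_cg ?_
      rw [Prod.mk.injEq, PJ_iff]
      exact and_comm
    rw [e1, ind_and]
    congr 1
    by_cases hh : ∀ j ∈ J, u.2.1 j = w.2.1 j
    · rw [ind_of hh]
      refine (Finset.prod_eq_one fun j _ => ?_).symm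
      by_cases hj : j ∈ J
      · rw [if_pos hj, ind_of (hh j hj)]
      · rw [if_neg hj]
    · rw [ind_not hh]
      push Not at hh
      obtain ⟨j, hj, hne⟩ := hh
      refine (Finset.prod_eq_zero (mem_univ j) ?_).symm
      rw [if_pos hj, ind_not hne]
  have n1 : (D.P h t).E (fun u => ind ((PJ J u, NP D v s n u) = (PJ J w, NP D v s n w)) * f u) =
      A * ((muC D v s n w).E F * Q) := by
    rw [← h1]
    refine (D.P h t).E_congr fun u _ => ?_
    rw [key]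
    by_cases hN : NP D v s n u = NP D v s n w
    · by_cases hP : PJ J u = PJ J w
      · rw [hf u hN hP]
        ring
      · rw [PJ_iff] at hP
        push Not at hP
        obtain ⟨j, hj, hne⟩ := hP
        rw [Finset.prod_eq_zero (mem_univ j) (by rw [if_pos hj, ind_not hne])]
        ring
    · rw [ind_not hN]
      ring
  have n2 : (D.P h t).m (fun u => (PJ J u, NP D v s n u)) w = A * ((muC D v s n w).E (fun _ => 1) * Q) := by
    rw [← h2]
    unfold FP.m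
    refine (D.P h t).E_congr fun u _ => ?_
    rw [key, one_mul]
  have hA0 : A ≠ 0 := by
    rw [hA, ← cell_Pr (h := h) hv t hs w]
    exact cell_ne hv t hs w
  have hQ0 : Q ≠ 0 := by
    rw [hQ]
    refine Finset.prod_ne_zero_iff.2 fun j _ => ?_
    by_cases hj : j ∈ J
    · simp only [if_pos hj]
      exact (mC_pos (D := D) n w j).ne'
    · simp only [if_neg hj]
      rw [FP.E_const]
      exact one_ne_zero
  have e1 : (D.P h t).ce (fun u => (PJ J u, NP D v s n u)) f w =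
      (D.P h t).E (fun u => ind ((PJ J u, NP D v s n u) = (PJ J w, NP D v s n w)) * f u) /
        (D.P h t).m (fun u => (PJ J u, NP D v s n u)) w := rfl
  rw [e1, n1, n2, FP.E_const, one_mul, ← mul_assoc, mul_comm A, mul_assoc, mul_div_assoc, div_self (mul_ne_zero hA0 hQ0),
    mul_one]

/-- the position with another hidden point of the cell -/
theorem NPr_hid (hv : Codes D v) (r : ℕ) {u w : Pt (Fin 3) X β φ} (hu : NPr v D r u = NPr v D r w) :
    NPr v D r (u.1, w.2.1, w.2.2) = NPr v D r u := by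
  rw [hu]
  have h1 := (NP_iff (D := D) (v := v) hv (Nat.succ_le_succ (tm_nt r)) w u).1 hu
  exact (NP_iff (D := D) (v := v) hv (Nat.succ_le_succ (tm_nt r)) w (u.1, w.2.1, w.2.2)).2 ⟨h1.1, fun j => rfl⟩

theorem ce_pts (hv : Codes D v) (t : ℕ) (r : ℕ) (J : Finset (Fin 3)) {f : Pt (Fin 3) X β φ → ℝ}
    (hf : Fac (fun u : Pt (Fin 3) X β φ => (u.1, PJ J u, NPr v D r u)) f) (w : Pt (Fin 3) X β φ) :
    (D.P h t).ce (fun u => (PJ J u, NPr v D r u)) f w =
      (muC D v (tm r + 1) (nt r) w).E (fun x => f (x, w.2.1, w.2.2)) := by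
  refine cell_ce hv t (Nat.succ_le_succ (tm_nt r)) J fun u hN hP => ?_
  refine hf _ _ ?_
  have h1 : NPr v D r (u.1, w.2.1, w.2.2) = NPr v D r u := NPr_hid hv r hN
  refine Prod.ext rfl (Prod.ext ?_ h1.symm)
  show PJ J u = PJ J (u.1, w.2.1, w.2.2)
  rw [hP]
  rfl

/-- **more exact points do not matter** -/
theorem ce_more (hv : Codes D v) (t : ℕ) (r : ℕ) {J J' : Finset (Fin 3)} (hJ : J ⊆ J') {f : Pt (Fin 3) X β φ → ℝ}
    (hf : Fac (fun u : Pt (Fin 3) X β φ => (u.1, PJ J u, NPr v D r u)) f) (w : Pt (Fin 3) X β φ) :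
    (D.P h t).ce (fun u => (PJ J' u, NPr v D r u)) f w = (D.P h t).ce (fun u => (PJ J u, NPr v D r u)) f w := by
  rw [ce_pts hv t r J hf w, ce_pts hv t r J' (f := f) ?_ w]
  intro a b hab
  refine hf a b ?_
  simp only [Prod.mk.injEq] at hab ⊢
  exact ⟨hab.1, PJ_iff.2 fun j hj => PJ_iff.1 hab.2.1 j (hJ hj), hab.2.2⟩

/-- letters of the group `J` at an earlier half step are functions of the hidden point, the points and the cells -/
theorem LJ_hid (hv : Codes D v) {r r' : ℕ} (hr : r ≤ r') (J : Finset (Fin 3)) :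
    Fac (fun u : Pt (Fin 3) X β φ => (u.1, PJ J u, NPr v D r' u)) (LJ v J r) := by
  intro a b hab
  simp only [Prod.mk.injEq] at hab
  obtain ⟨h1, h2, h3⟩ := hab
  rw [LJ_iff]
  intro j hj
  have hp : a.2.1 j = b.2.1 j := PJ_iff.1 h2 j hj
  refine Prod.ext hp ?_
  show Um v (tm r + 1) {j} a.1 a.2.1 = Um v (tm r + 1) {j} b.1 b.2.1
  rw [h1]
  have h4 : NPr v D r a = NPr v D r b := NPr_older hr h3
  refine Um_codes hv (Nat.succ_le_succ (tm_nt r)) {j} b.1 (fun k hk => ?_) fun k => ?_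
  · rw [Finset.mem_singleton.1 hk]
    exact hp
  · exact congrFun (congrArg Prod.snd (congrArg Prod.snd h4)) k

/-- masses and conditional probabilities -/
theorem m_div {Om κ ι : Type*} [Fintype Om] (P : FP Om) (L : Om → κ) (Y : Om → ι) (w : Om) :
    P.m (fun u => (L u, Y u)) w / P.m Y w = P.ce Y (fun u => ind (L u = L w)) w := by
  unfold FP.ce FP.m
  congr 1
  refine P.E_congr fun u _ => ?_
  rw [← ind_and]
  refine ind_cg ?_
  show (L u, Y u) = (L w, Y w) ↔ _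
  rw [Prod.mk.injEq]
  exact and_comm

theorem m_LJ (J : Finset (Fin 3)) (r r' : ℕ) (t : ℕ) (w : Pt (Fin 3) X β φ) :
    (D.P h t).m (fun u => (LJ v J r u, NPr v D r' u)) w =
      (D.P h t).m (fun u => (LJ v J r u, (PJ J u, NPr v D r' u))) w := by
  refine (D.P h t).m_congr (fun a b hab => ?_) (fun a b hab => ?_) w
  · simp only [Prod.mk.injEq] at hab ⊢
    exact ⟨hab.1, LJ_PJ J r a b hab.1, hab.2⟩
  · simp only [Prod.mk.injEq] at hab ⊢
    exact ⟨hab.1, hab.2.2⟩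

/-- **the ratio with all the exact points** -/
theorem rat_eq (hv : Codes D v) (t : ℕ) {r r' : ℕ} (hr : r ≤ r') (J : Finset (Fin 3)) (w : Pt (Fin 3) X β φ) :
    (D.P h t).m (fun u => (LJ v J r u, (PJ univ u, NPr v D r' u))) w / (D.P h t).m (fun u => (PJ univ u, NPr v D r' u)) w =
      (D.P h t).m (fun u => (LJ v J r u, NPr v D r' u)) w / (D.P h t).m (fun u => (PJ J u, NPr v D r' u)) w := by
  rw [m_LJ, m_div, m_div]
  refine ce_more hv t r' (Finset.subset_univ J) ?_ w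
  exact Fac.ind fun a b hab => by rw [LJ_hid hv hr J a b hab]

end pts

/-! ### thin static relations over `MS` -/

section rel

open Pool.Agent.GMH.MV

variable {Ωm : Type} [Fintype Ωm]

/-- the letters of `E` of `u` are related to the letters of `C` of `w` -/
def rwS (M : MS Ωm) (C E : Finset (Fin 3)) (ν : ℕ) (H : Ωm → Prop) (w u : Ωm) : Prop :=
  ∃ z, M.P.p z ≠ 0 ∧ (∀ j ∈ E, M.XL j ν z = M.XL j ν u) ∧ (∀ j ∈ C, M.XL j ν z = M.XL j ν w) ∧
    AHR.UY M ν z = AHR.UY M ν w ∧ H z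

/-- **a thin static relation at every substep** -/
structure RelS (M : MS Ωm) (C E : Finset (Fin 3)) (p1 : ℝ) (H : ℕ → Ωm → Prop) : Prop where
  fac : ∀ ν, Fac (MV.TH M ν) (H ν)
  row : ∀ ν w, M.P.p w ≠ 0 → M.P.ce (AHR.UY M ν) (fun u => ind (rwS M C E ν (H ν) w u)) w ≤ p1
  col : ∀ ν w, M.P.p w ≠ 0 → M.P.ce (AHR.UY M ν) (fun u => ind (rwS M E C ν (H ν) w u)) w ≤ p1

theorem RelS.swap {M : MS Ωm} {C E : Finset (Fin 3)} {p1 : ℝ} {H : ℕ → Ωm → Prop} (hR : RelS M C E p1 H) :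
    RelS M E C p1 H :=
  ⟨hR.fac, hR.col, hR.row⟩

variable {M : MS Ωm} {b c d : Fin 3}

/-- three vertices which are all -/
theorem cpl3 (hall : ∀ j : Fin 3, j = b ∨ j = c ∨ j = d) (hbc : b ≠ c) (hcd : c ≠ d) : Cpl {b, d} {c} := by
  intro j
  rw [Finset.mem_insert, Finset.mem_singleton, Finset.mem_singleton]
  rcases hall j with rfl | rfl | rfl
  · exact iff_of_true (Or.inl rfl) hbc
  · exact iff_of_false (fun hh => hh.elim (fun h1 => hbc h1.symm) hcd) (fun hh => hh rfl)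
  · exact iff_of_true (Or.inr rfl) (fun hh => hcd hh.symm)

theorem TH3 (hall : ∀ j : Fin 3, j = b ∨ j = c ∨ j = d) {ν : ℕ} {u w : Ωm} (h1 : M.XL b ν u = M.XL b ν w)
    (h2 : M.XL c ν u = M.XL c ν w) (h3 : M.XL d ν u = M.XL d ν w) (h4 : AHR.UY M ν u = AHR.UY M ν w) :
    MV.TH M ν u = MV.TH M ν w := by
  refine Prod.ext (funext fun j => ?_) (Prod.mk.inj h4).2
  show M.XL j ν u = M.XL j ν w
  rcases hall j with rfl | rfl | rfl
  · exact h1
  · exact h2
  · exact h3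

theorem Mv3 (hall : ∀ j : Fin 3, j = b ∨ j = c ∨ j = d) (ν : ℕ) (u w : Ωm) (h1 : M.XL b ν u = M.XL b ν w)
    (h2 : M.XL c ν u = M.XL c ν w) (h3 : M.XL d ν u = M.XL d ν w) (h4 : AHR.UY M ν u = AHR.UY M ν w) :
    Mv M b ν u ↔ Mv M b ν w := by
  rw [Mv_fac M b ν u w (TH3 hall h1 h2 h3 h4)]

/-- type C at the public start `ν`: moved at `b`, sides `c | (b, d)` -/
def HC (M : MS Ωm) (b c d : Fin 3) (k4 p2 e : ℝ) (ν : ℕ) : Ωm → Prop :=
  MvF.TC M.P (M.XL b ν) (M.XL c ν) (M.XL d ν) (AHR.UY M ν) (Mv M b ν) k4 p2 e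

/-- type D at the public start `ν`: moved at `b`, sides `d | (b, c)` -/
def HD' (M : MS Ωm) (b c d : Fin 3) (k4 k2 p2 e : ℝ) (ν : ℕ) : Ωm → Prop :=
  MvF.TD M.P (M.XL b ν) (M.XL c ν) (M.XL d ν) (AHR.UY M ν) (Mv M b ν) k4 k2 p2 e

/-- **type C is thin** -/
theorem relC (hall : ∀ j : Fin 3, j = b ∨ j = c ∨ j = d) {e k4 p2 p1 : ℝ} (he : 0 ≤ e) (hk : 0 ≤ k4) (hp : 0 ≤ p2)
    (h1 : e * k4 ≤ p1) (h2 : e * p2 ≤ p1) : RelS M {b, d} {c} p1 (HC M b c d k4 p2 e) where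
  fac := by
    intro ν u w huw
    have g1 : ∀ j, M.XL j ν u = M.XL j ν w := fun j => congrFun (Prod.mk.inj huw).1 j
    have g2 : AHR.UY M ν u = AHR.UY M ν w := MV4.TH_YA ν u w huw
    exact propext (MvF.TC_fac (Mv3 hall ν) (g1 b) (g1 c) (g1 d) g2)
  row := by
    intro ν w hw
    refine le_trans ?_ ((MvF.colC (P := M.P) (p2 := p2) (Mv3 (M := M) hall ν) he hk hw).trans h1)
    refine M.P.ce_mono (fun u _ => ind_mono ?_) w
    rintro ⟨z, z1, z2, z3, z4, z5⟩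
    exact ⟨z, z1, z2 c (mem_singleton_self c), Prod.ext (z3 b (mem_insert_self b _))
      (z3 d (mem_insert_of_mem (mem_singleton_self d))), z4, z5⟩
  col := by
    intro ν w hw
    refine le_trans ?_ ((MvF.rowC (P := M.P) (k4 := k4) (Mv3 (M := M) hall ν) he hp hw).trans h2)
    refine M.P.ce_mono (fun u _ => ind_mono ?_) w
    rintro ⟨z, z1, z2, z3, z4, z5⟩
    exact ⟨z, z1, Prod.ext (z2 b (mem_insert_self b _)) (z2 d (mem_insert_of_mem (mem_singleton_self d))),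
      z3 c (mem_singleton_self c), z4, z5⟩

/-- **type D is thin** -/
theorem relD (hall : ∀ j : Fin 3, j = b ∨ j = c ∨ j = d) {e k4 k2 p2 p1 : ℝ} (he : 0 ≤ e) (hk : 0 < k4) (hk2 : 0 ≤ k2)
    (hp : 0 ≤ p2) (h1 : e * (k2 / k4) ≤ p1) (h2 : e * p2 ≤ p1) : RelS M {b, c} {d} p1 (HD' M b c d k4 k2 p2 e) where
  fac := by
    intro ν u w huw
    have g1 : ∀ j, M.XL j ν u = M.XL j ν w := fun j => congrFun (Prod.mk.inj huw).1 j
    have g2 : AHR.UY M ν u = AHR.UY M ν w := MV4.TH_YA ν u w huw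
    exact propext (MvF.TD_fac (Mv3 hall ν) (g1 b) (g1 c) (g1 d) g2)
  row := by
    intro ν w hw
    refine le_trans ?_ ((MvF.colD (P := M.P) (Lb := M.XL b ν) (Lc := M.XL c ν) (Ld := M.XL d ν) (U := AHR.UY M ν)
      (Mv := Mv M b ν) (k4 := k4) (k2 := k2) (p2 := p2) (e := e) he hk hk2 hw).trans h1)
    refine M.P.ce_mono (fun u _ => ind_mono ?_) w
    rintro ⟨z, z1, z2, z3, z4, z5⟩
    exact ⟨z, z1, z2 d (mem_singleton_self d), Prod.ext (z3 b (mem_insert_self b _))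
      (z3 c (mem_insert_of_mem (mem_singleton_self c))), z4, z5⟩
  col := by
    intro ν w hw
    refine le_trans ?_ ((MvF.rowD (P := M.P) (k4 := k4) (k2 := k2) (Mv3 (M := M) hall ν) he hp hw).trans h2)
    refine M.P.ce_mono (fun u _ => ind_mono ?_) w
    rintro ⟨z, z1, z2, z3, z4, z5⟩
    exact ⟨z, z1, Prod.ext (z2 b (mem_insert_self b _)) (z2 c (mem_insert_of_mem (mem_singleton_self c))),
      z3 d (mem_singleton_self d), z4, z5⟩

end rel

/-! ### the data on the space with tables -/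

section tab

open Pool.Agent.GMH.Dy Pool.Agent.GMH.MV Pool.Agent.GMH.MVI

variable {X β γ φ υ : Type} [Fintype X] [Fintype β] [Fintype φ] [Nonempty X] [Nonempty β]
variable {D : HD (Fin 3) X β γ φ} {al : ℝ} {h : D.Thick al} {v : ℕ → Finset (Fin 3) → X → (Fin 3 → β) → υ}
variable {prr : ℕ → Fin 3 → φ → φ} {T : ℕ} {W : Type} [Fintype W]

/-- the data `M` sees the space with tables like `MVI.MSi` -/
structure Rp (tb : Tab D prr T W) (v : ℕ → Finset (Fin 3) → X → (Fin 3 → β) → υ) (M : MS (Om W X β)) : Prop where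
  P : M.P = tb.Ps
  N : ∀ s a b, M.NP s a = M.NP s b ↔ NPo tb v s a = NPo tb v s b
  X : ∀ i s a b, M.XL i s a = M.XL i s b ↔ XLo tb v i s a = XLo tb v i s b
  Y : ∀ i a b, M.YP i a = M.YP i b ↔ a.2.2 i = b.2.2 i
  cd : ∀ s, M.cd s ↔ s % 5 ≠ 0

theorem rp_MSi (tb : Tab D prr T W) (v : ℕ → Finset (Fin 3) → X → (Fin 3 → β) → υ) {d1 kb d0 k0 p1 z : ℝ} (hd1 : 0 < d1)
    (hd11 : d1 ≤ 1) (hkb : 0 < kb) (hd0 : 0 < d0) (hd01 : d0 ≤ 1) (hk0 : 0 < k0) (hp1 : 0 < p1) (hz : 0 < z) :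
    Rp tb v (MSi tb (v := v) d1 kb d0 k0 p1 z hd1 hd11 hkb hd0 hd01 hk0 hp1 hz) where
  P := rfl
  N := fun _ _ _ => Iff.rfl
  X := fun _ _ _ _ => Iff.rfl
  Y := fun _ _ _ => Iff.rfl
  cd := fun _ => Iff.rfl

/-- a point over a position -/
def lft (w0 : Fin 3 → W) (p : Pt (Fin 3) X β φ) : Om W X β := (p.1, w0, p.2.1)

variable {tb : Tab D prr T W}

/-- a point of the support over a position -/
theorem sup_pos (tb : Tab D prr T W) (p : Pt (Fin 3) X β φ) :
    ∃ z : Om W X β, tb.Ps.p z ≠ 0 ∧ z.1 = p.1 ∧ z.2.2 = p.2.1 := by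
  obtain ⟨w0, _⟩ := (tb.Q 0).exists_p_ne
  obtain ⟨z, h1, h2, h3⟩ := exists_supp (tb := tb) (lft (fun _ => w0) p)
  exact ⟨z, h1, h2, h3⟩

theorem NPq_pos (s : ℕ) {a b : Pt (Fin 3) X β φ} (h1 : a.1 = b.1) (h2 : a.2.1 = b.2.1) : NPq D v s a = NPq D v s b := by
  unfold NPq NP nd
  rw [h1, h2]

theorem XLq_pos (s : ℕ) (i : Fin 3) {a b : Pt (Fin 3) X β φ} (h1 : a.1 = b.1) (h2 : a.2.1 = b.2.1) :
    XLq v s i a = XLq v s i b := by
  unfold XLq XL
  rw [h1, h2]

variable {M : MS (Om W X β)}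

theorem Rp.NPr (hM : Rp tb v M) (s : ℕ) {a b : Om W X β} :
    M.NP s a = M.NP s b ↔ NPr v D (rho s) (tb.pt 0 a) = V3.NPr v D (rho s) (tb.pt 0 b) := by
  rw [hM.N]
  unfold NPo
  rw [NPq_rho]

/-- the points of the support of the law with tables are the positions -/
theorem Rp.YF (hM : Rp tb v M) {a b : Om W X β} : MV.YF M (univ, univ) a = MV.YF M (univ, univ) b ↔ a.2.2 = b.2.2 := by
  unfold MV.YF
  rw [funext_iff, funext_iff]
  exact forall_congr' fun j => hM.Y j a b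

theorem Rp.UY (hM : Rp tb v M) (s : ℕ) {a b : Om W X β} : AHR.UY M s a = AHR.UY M s b ↔
    (PJ univ (tb.pt 0 a), V3.NPr v D (rho s) (tb.pt 0 a)) = (PJ univ (tb.pt 0 b), V3.NPr v D (rho s) (tb.pt 0 b)) := by
  unfold AHR.UY
  rw [Prod.mk.injEq, Prod.mk.injEq, hM.YF, hM.NPr, PJ_iff]
  refine and_congr_left fun _ => ?_
  rw [funext_iff]
  exact ⟨fun hh j _ => hh j, fun hh j => hh j (mem_univ j)⟩

theorem Rp.TH (hM : Rp tb v M) (s : ℕ) {a b : Om W X β} (h1 : a.1 = b.1) (h2 : a.2.2 = b.2.2) :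
    MV.TH M s a = MV.TH M s b := by
  refine Prod.ext (funext fun j => ?_) ?_
  · exact (hM.X j s a b).2 (XLq_pos s j h1 h2)
  · exact (hM.N s a b).2 (NPq_pos s h1 h2)

/-- the relation on the sample points, with alive letters -/
def HZ (h : D.Thick al) (v : ℕ → Finset (Fin 3) → X → (Fin 3 → β) → υ) (w0 : Fin 3 → W) (C E : Finset (Fin 3)) (X1 : ℝ)
    (H : ℕ → Om W X β → Prop) (ν : ℕ) (p : Pt (Fin 3) X β φ) : Prop :=
  H ν (lft w0 p) ∧ -X1 ≤ lJq h v C (rho ν) p ∧ -X1 ≤ lJq h v E (rho ν) p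

theorem TH_lft (hM : Rp tb v M) (w0 : Fin 3 → W) (ν : ℕ) {a b : Pt (Fin 3) X β φ} (hN : NPr v D (rho ν) a = NPr v D (rho ν) b)
    (hL : LJ v univ (rho ν) a = LJ v univ (rho ν) b) : MV.TH M ν (lft w0 a) = MV.TH M ν (lft w0 b) := by
  have hp : ∀ p : Pt (Fin 3) X β φ, (tb.pt 0 (lft w0 p)).1 = p.1 ∧ (tb.pt 0 (lft w0 p)).2.1 = p.2.1 := fun p => ⟨rfl, rfl⟩
  refine Prod.ext (funext fun j => (hM.X j ν _ _).2 ?_) ((hM.N ν _ _).2 ?_)
  · show XLq v ν j (tb.pt 0 (lft w0 a)) = XLq v ν j (tb.pt 0 (lft w0 b))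
    rw [XLq_pos ν j (hp a).1 (hp a).2, XLq_pos ν j (hp b).1 (hp b).2]
    exact XLq_rho ν j a b (LJ_iff.1 hL j (mem_univ j))
  · show NPq D v ν (tb.pt 0 (lft w0 a)) = NPq D v ν (tb.pt 0 (lft w0 b))
    rw [NPq_pos ν (hp a).1 (hp a).2, NPq_pos ν (hp b).1 (hp b).2, NPq_rho]
    exact hN

/-- the row masses -/
theorem rowz_le (hv : Codes D v) (hM : Rp tb v M) (w0 : Fin 3 → W) {C E : Finset (Fin 3)} (hc : Cpl C E) {p1 X1 : ℝ}
    {C' E' : Finset (Fin 3)} {H : ℕ → Om W X β → Prop} (hR : RelS M C E p1 H) (ν : ℕ) (w : Pt (Fin 3) X β φ) :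
    rowz h v C E (rho ν) (HZ h v w0 C' E' X1 H ν) w ≤ p1 := by
  obtain ⟨w', hw', hx, hy⟩ := sup_pos tb w
  have hp1 : (tb.pt 0 w').1 = w.1 := hx
  have hp2 : (tb.pt 0 w').2.1 = w.2.1 := hy
  have hpos : ((tb.pt 0 w').1, (tb.pt 0 w').2.1) = (w.1, w.2.1) := Prod.ext hp1 hp2
  set A : Pt (Fin 3) X β φ → Prop := fun u => ∃ z, NPr v D (rho ν) z = NPr v D (rho ν) w ∧
    LJ v C (rho ν) z = LJ v C (rho ν) w ∧ LJ v E (rho ν) z = LJ v E (rho ν) u ∧ HZ h v w0 C' E' X1 H ν z with hA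
  have e1 : rowz h v C E (rho ν) (HZ h v w0 C' E' X1 H ν) w =
      (D.P h 0).ce (fun u => (PJ univ u, NPr v D (rho ν) u)) (fun u => ind (A u)) w := by
    unfold rowz
    refine (ce_more hv 0 (rho ν) (Finset.subset_univ E) ?_ w).symm
    exact Fac.ind fun a b hab => by
      have h6 : LJ v E (rho ν) a = LJ v E (rho ν) b := LJ_hid hv (le_refl (rho ν)) E a b hab
      rw [h6]
  have e2 : (D.P h 0).ce (fun u => (PJ univ u, NPr v D (rho ν) u)) (fun u => ind (A u)) w =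
      (D.P h 0).ce (fun u => (PJ univ u, NPr v D (rho ν) u)) (fun u => ind (A u)) (tb.pt 0 w') := by
    refine (D.P h 0).ce_fac _ _ w (tb.pt 0 w') (Prod.ext ?_ ?_)
    · show PJ univ w = PJ univ (tb.pt 0 w')
      rw [PJ_iff]
      intro j _
      rw [hp2]
    · exact (NPr_pos (rho ν) _ _ hpos).symm
  have e3 : (D.P h 0).ce (fun u => (PJ univ u, NPr v D (rho ν) u)) (fun u => ind (A u)) (tb.pt 0 w') =
      tb.Ps.ce (AHR.UY M ν) (fun u => ind (A (tb.pt 0 u))) w' := by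
    rw [← (pul_pt h tb (Nat.zero_le T)).ce]
    exact tb.Ps.ce_congr_map (fun a b hab => (hM.UY ν).2 hab) (fun a b hab => (hM.UY ν).1 hab) _ w'
  rw [e1, e2, e3]
  have hwM : M.P.p w' ≠ 0 := by
    rw [hM.P]
    exact hw'
  refine le_trans ?_ (hR.row ν w' hwM)
  rw [hM.P]
  refine BP.ce_mono_on tb.Ps fun u hu => ind_mono fun hAu => ?_
  obtain ⟨z0, z1, z2, z3, z4, -⟩ := hAu
  obtain ⟨z', hz', hzx, hzy⟩ := sup_pos tb z0
  have hzp : ((tb.pt 0 z').1, (tb.pt 0 z').2.1) = (z0.1, z0.2.1) := Prod.ext hzx hzy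
  have huy : AHR.UY M ν u = AHR.UY M ν w' := hu
  have huy2 : u.2.2 = w'.2.2 := hM.YF.1 (Prod.mk.inj huy).1
  have hpt : z'.2.2 = w'.2.2 := by
    funext j
    rw [hzy, hy]
    by_cases hj : j ∈ C
    · exact congrArg Prod.fst (LJ_iff.1 z2 j hj)
    · have hjE : j ∈ E := by
        by_contra hE
        exact hj ((hc j).2 hE)
      have h5 : z0.2.1 j = (tb.pt 0 u).2.1 j := congrArg Prod.fst (LJ_iff.1 z3 j hjE)
      rw [h5, ← hy]
      exact congrFun huy2 j
  have hz0 : MV.TH M ν z' = MV.TH M ν (lft w0 z0) := hM.TH ν hzx hzy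
  refine ⟨z', by rw [hM.P]; exact hz', fun j hj => (hM.X j ν _ _).2 ?_, fun j hj => (hM.X j ν _ _).2 ?_,
    Prod.ext (hM.YF.2 hpt) ((hM.NPr ν).2 ?_), ?_⟩
  · show XLq v ν j (tb.pt 0 z') = XLq v ν j (tb.pt 0 u)
    rw [XLq_pos ν j hzx hzy]
    exact XLq_rho ν j _ _ (LJ_iff.1 z3 j hj)
  · show XLq v ν j (tb.pt 0 z') = XLq v ν j (tb.pt 0 w')
    rw [XLq_pos ν j hzx hzy, XLq_pos (a := tb.pt 0 w') ν j hp1 hp2]
    exact XLq_rho ν j _ _ (LJ_iff.1 z2 j hj)
  · rw [NPr_pos (rho ν) _ _ hzp, NPr_pos (rho ν) _ _ hpos]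
    exact z1
  · rw [hR.fac ν _ _ hz0]
    exact z4

/-- **the relation on the sample points is thin** -/
theorem RelS.rel (hv : Codes D v) (hM : Rp tb v M) (w0 : Fin 3 → W) {C E : Finset (Fin 3)} (hc : Cpl C E) {p1 X1 : ℝ}
    {H : ℕ → Om W X β → Prop} (hR : RelS M C E p1 H) (ν : ℕ) : RelZ h v C E (rho ν) p1 X1 (HZ h v w0 C E X1 H ν) where
  stz := by
    intro a b hN hL
    have hC : LJ v C (rho ν) a = LJ v C (rho ν) b := LJ_sub (Finset.subset_univ C) (rho ν) a b hL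
    have hE : LJ v E (rho ν) a = LJ v E (rho ν) b := LJ_sub (Finset.subset_univ E) (rho ν) a b hL
    unfold HZ
    rw [hR.fac ν _ _ (TH_lft hM w0 ν hN hL), lJq_eq hN hC, lJq_eq hN hE]
  row := fun w _ => rowz_le hv hM w0 hc hR ν w
  col := fun w _ => rowz_le hv hM w0 hc.swap hR.swap ν w
  alC := fun w hw => hw.2.1
  alE := fun w hw => hw.2.2

end tab

end Pool.Agent.GMH.RZ
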