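import Pool.Agent.GMH.RZ7

/-!
# GMH/RZ8 (helper36): increments of the substeps and of the half steps

`lam_eq` : log probabilities; `sum_ai`, `sum_bi` : sums of public increments and of births; `MJq_sub` : letters which have moved
between two half steps have moved between the substeps; `MJq_Lst` : they are on the list of the public epoch.
-/

set_option autoImplicit false
set_option linter.unusedSectionVars false

namespace Pool.Agent.GMH.RZ

open Finset Pool.Agent.PWZ Pool.Agent.M3 Pool.Agent.GM Pool.Agent.GM.Harm Pool.Agent.GMH Pool.Agent.GMH.NZ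
open Pool.Agent.GMH.V3 Pool.Agent.GMH.TD Pool.Agent.GMH.TP
open Pool.Agent.GMH.Dy Pool.Agent.GMH.MV Pool.Agent.GMH.MVI Pool.Agent.GMH.CK

variable {X β γ φ υ : Type} [Fintype X] [Fintype β] [Fintype φ] [Nonempty X] [Nonempty β]
variable {D : HD (Fin 3) X β γ φ} {al : ℝ} {h : D.Thick al} {v : ℕ → Finset (Fin 3) → X → (Fin 3 → β) → υ}
variable {prr : ℕ → Fin 3 → φ → φ} {T : ℕ} {W : Type} [Fintype W] {tb : Tab D prr T W} {M : MS (Om W X β)}

/-- log probability of the letters of the substep `k` given the public information of the substep `q` -/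
noncomputable def lms (M : MS (Om W X β)) (J : Finset (Fin 3)) (k q : ℕ) (w : Om W X β) : ℝ :=
  Real.log (M.P.m (fun u => (LF M (J, ∅) k u, M.NP q u)) w / M.P.m (fun u => (MV.YF M (J, ∅) u, M.NP q u)) w)

/-- the same for half steps -/
noncomputable def lmh (h : D.Thick al) (v : ℕ → Finset (Fin 3) → X → (Fin 3 → β) → υ) (J : Finset (Fin 3)) (r r' : ℕ)
    (w : Pt (Fin 3) X β φ) : ℝ :=
  Real.log ((D.P h 0).m (fun u => (LJ v J r u, NPr v D r' u)) w / (D.P h 0).m (fun u => (PJ J u, NPr v D r' u)) w)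

theorem lam_eq (hv : Codes D v) (hM : Rp tb v M) (J : Finset (Fin 3)) {r q : ℕ} (hr : r ≤ rho q) (w : Om W X β) :
    lms M J (sbt r) q w = lmh h v J r (rho q) (tb.pt 0 w) := by
  unfold lms lmh
  rw [← rat_eq (h := h) hv 0 hr J (tb.pt 0 w)]
  have H := pul_pt h tb (Nat.zero_le T)
  have e1 : (D.P h 0).m (fun u => (LJ v J r u, (PJ univ u, NPr v D (rho q) u))) (tb.pt 0 w) =
      M.P.m (fun u => (LF M (J, ∅) (sbt r) u, M.NP q u)) w := by
    rw [← H.m, hM.P]
    refine tb.Ps.m_congr (fun a b hab => ?_) (fun a b hab => ?_) w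
    · simp only [Prod.mk.injEq] at hab
      obtain ⟨h1, h2, h3⟩ := hab
      refine Prod.ext ((AHR.LF_iff M (J, ∅) (sbt r)).2 ⟨fun l hl => (hM.X l _ _ _).2 ?_,
        fun l hl => absurd hl (Finset.notMem_empty l), ?_⟩) ((hM.NPr q).2 h3)
      · show XLq v (sbt r) l (tb.pt 0 a) = XLq v (sbt r) l (tb.pt 0 b)
        rw [XLq_sbt]
        exact LJ_iff.1 h1 l hl
      · refine hM.YF.2 (funext fun j => ?_)
        exact PJ_iff.1 h2 j (mem_univ j)
    · simp only [Prod.mk.injEq] at hab ⊢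
      obtain ⟨h1, h2⟩ := hab
      obtain ⟨g1, -, g3⟩ := (AHR.LF_iff M (J, ∅) (sbt r)).1 h1
      refine ⟨LJ_iff.2 fun l hl => ?_, PJ_iff.2 fun j _ => ?_, (hM.NPr q).1 h2⟩
      · have g4 : XLq v (sbt r) l (tb.pt 0 a) = XLq v (sbt r) l (tb.pt 0 b) := (hM.X l _ _ _).1 (g1 l hl)
        rwa [XLq_sbt] at g4
      · exact congrFun (hM.YF.1 g3) j
  have e2 : (D.P h 0).m (fun u => (PJ univ u, NPr v D (rho q) u)) (tb.pt 0 w) =
      M.P.m (fun u => (MV.YF M (J, ∅) u, M.NP q u)) w := by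
    rw [← H.m, hM.P]
    exact tb.Ps.m_congr (fun a b hab => (hM.UY q).2 hab) (fun a b hab => (hM.UY q).1 hab) w
  rw [e1, e2]

/-- the public information does not change inside a half step -/
theorem lms_pub (hM : Rp tb v M) (J : Finset (Fin 3)) (k : ℕ) {q q' : ℕ} (hq : rho q = rho q') (w : Om W X β) :
    lms M J k q w = lms M J k q' w := by
  have key : ∀ a b, M.NP q a = M.NP q b ↔ M.NP q' a = M.NP q' b := fun a b => by
    rw [hM.NPr, hM.NPr, hq]
  unfold lms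
  rw [M.P.m_congr (X := fun u => (LF M (J, ∅) k u, M.NP q u)) (Y := fun u => (LF M (J, ∅) k u, M.NP q' u))
      (fun a b hab => by
        simp only [Prod.mk.injEq] at hab ⊢
        exact ⟨hab.1, (key a b).1 hab.2⟩) (fun a b hab => by
        simp only [Prod.mk.injEq] at hab ⊢
        exact ⟨hab.1, (key a b).2 hab.2⟩) w,
    M.P.m_congr (X := fun u => (MV.YF M (J, ∅) u, M.NP q u)) (Y := fun u => (MV.YF M (J, ∅) u, M.NP q' u))
      (fun a b hab => by
        simp only [Prod.mk.injEq] at hab ⊢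
        exact ⟨hab.1, (key a b).1 hab.2⟩) (fun a b hab => by
        simp only [Prod.mk.injEq] at hab ⊢
        exact ⟨hab.1, (key a b).2 hab.2⟩) w]

/-- increments of the substeps -/
noncomputable def asq (M : MS (Om W X β)) (J : Finset (Fin 3)) (k : ℕ) (w : Om W X β) : ℝ :=
  ai M.P M.NP (LF M (J, ∅)) (MV.YF M (J, ∅)) k w

noncomputable def bsq (M : MS (Om W X β)) (J : Finset (Fin 3)) (k : ℕ) (w : Om W X β) : ℝ :=
  bi M.P M.NP (LF M (J, ∅)) (MV.YF M (J, ∅)) k w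

theorem asq_eq (J : Finset (Fin 3)) (k : ℕ) (w : Om W X β) : asq M J k w = lms M J k (k + 1) w - lms M J k k w := rfl

theorem bsq_eq (J : Finset (Fin 3)) (k : ℕ) (w : Om W X β) :
    bsq M J k w = lms M J k (k + 1) w - lms M J (k + 1) (k + 1) w := rfl

theorem aJq_eq (J : Finset (Fin 3)) (r : ℕ) (w : Pt (Fin 3) X β φ) : aJq h v J r w = lmh h v J r (r + 1) w -
    lmh h v J r r w := rfl

theorem bJq_eq (J : Finset (Fin 3)) (r : ℕ) (w : Pt (Fin 3) X β φ) : bJq h v J r w = lmh h v J r (r + 1) w -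
    lmh h v J (r + 1) (r + 1) w := rfl

theorem sbt_0 (t : ℕ) : sbt (2 * t) = 5 * t := by
  unfold sbt
  omega

theorem sbt_1 (t : ℕ) : sbt (2 * t + 1) = 5 * t + 1 := by
  unfold sbt
  omega

variable (h) in
/-- **the sums of five substeps** -/
theorem five (hv : Codes D v) (hM : Rp tb v M) (J : Finset (Fin 3)) (t : ℕ) (w : Om W X β) :
    asq M J (5 * t) w = aJq h v J (2 * t) (tb.pt 0 w) ∧ asq M J (5 * t + 1) w = aJq h v J (2 * t + 1) (tb.pt 0 w) ∧
    (∀ j, 2 ≤ j → j ≤ 4 → asq M J (5 * t + j) w = 0) ∧ bsq M J (5 * t) w = bJq h v J (2 * t) (tb.pt 0 w) ∧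
    bsq M J (5 * t + 1) w + bsq M J (5 * t + 2) w + bsq M J (5 * t + 3) w + bsq M J (5 * t + 4) w =
      bJq h v J (2 * t + 1) (tb.pt 0 w) := by
  have l1 : lms M J (5 * t) (5 * t) w = lmh h v J (2 * t) (2 * t) (tb.pt 0 w) := by
    have h1 := lam_eq (h := h) hv hM J (r := 2 * t) (q := 5 * t) (by rw [rho_0]) w
    rwa [sbt_0, rho_0] at h1
  have l2 : lms M J (5 * t) (5 * t + 1) w = lmh h v J (2 * t) (2 * t + 1) (tb.pt 0 w) := by
    have h1 := lam_eq (h := h) hv hM J (r := 2 * t) (q := 5 * t + 1) (by rw [rho_1]; omega) w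
    rwa [sbt_0, rho_1] at h1
  have l3 : lms M J (5 * t + 1) (5 * t + 1) w = lmh h v J (2 * t + 1) (2 * t + 1) (tb.pt 0 w) := by
    have h1 := lam_eq (h := h) hv hM J (r := 2 * t + 1) (q := 5 * t + 1) (by rw [rho_1]) w
    rwa [sbt_1, rho_1] at h1
  have l4 : lms M J (5 * t + 1) (5 * t + 2) w = lmh h v J (2 * t + 1) (2 * t + 2) (tb.pt 0 w) := by
    have h1 := lam_eq (h := h) hv hM J (r := 2 * t + 1) (q := 5 * t + 2) (by rw [rho_j t le_rfl (by omega)]; omega) w
    rwa [sbt_1, rho_j t le_rfl (by omega)] at h1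
  have l5 : lms M J (5 * t + 5) (5 * t + 5) w = lmh h v J (2 * t + 2) (2 * t + 2) (tb.pt 0 w) := by
    have h1 := lam_eq (h := h) hv hM J (r := 2 * t + 2) (q := 5 * t + 5) (by rw [rho_j t (by omega) le_rfl]) w
    have e1 : sbt (2 * t + 2) = 5 * t + 5 := by
      rw [show 2 * t + 2 = 2 * (t + 1) by ring, sbt_0]
      ring
    rwa [e1, rho_j t (by omega) le_rfl] at h1
  have pub : ∀ k, ∀ j, 2 ≤ j → j ≤ 4 → lms M J k (5 * t + j + 1) w = lms M J k (5 * t + j) w := by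
    intro k j h2 h4
    refine lms_pub hM J k ?_ w
    rw [show 5 * t + j + 1 = 5 * t + (j + 1) by ring, rho_j t (by omega) (by omega), rho_j t h2 (by omega)]
  refine ⟨?_, ?_, ?_, ?_, ?_⟩
  · rw [asq_eq, aJq_eq, l1, l2]
  · rw [asq_eq, aJq_eq, l3, show 5 * t + 1 + 1 = 5 * t + 2 by ring, l4]
  · intro j h2 h4
    rw [asq_eq, pub _ j h2 h4, sub_self]
  · rw [bsq_eq, bJq_eq, l2, l3]
  · rw [bsq_eq, bsq_eq, bsq_eq, bsq_eq, bJq_eq, show 5 * t + 1 + 1 = 5 * t + 2 by ring, l4,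
      pub (5 * t + 2) 2 le_rfl (by omega), pub (5 * t + 3) 3 (by omega) (by omega),
      pub (5 * t + 4) 4 (by omega) le_rfl, show 5 * t + 2 + 1 = 5 * t + 3 by ring,
      show 5 * t + 3 + 1 = 5 * t + 4 by ring, show 5 * t + 4 + 1 = 5 * t + 5 by ring, l5]
    ring_nf

/-- cumulative sums -/
theorem range5 (f : ℕ → ℝ) (t : ℕ) : ∑ k ∈ range (5 * (t + 1)), f k = ∑ k ∈ range (5 * t), f k + (f (5 * t) +
    (f (5 * t + 1) + f (5 * t + 2) + f (5 * t + 3) + f (5 * t + 4))) := by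
  rw [show 5 * (t + 1) = 5 * t + 1 + 1 + 1 + 1 + 1 by ring, sum_range_succ, sum_range_succ, sum_range_succ, sum_range_succ,
    sum_range_succ]
  ring

theorem range2 (f : ℕ → ℝ) (t : ℕ) : ∑ k ∈ range (2 * (t + 1)), f k = ∑ k ∈ range (2 * t), f k + (f (2 * t) +
    f (2 * t + 1)) := by
  rw [show 2 * (t + 1) = 2 * t + 1 + 1 by ring, sum_range_succ, sum_range_succ]
  ring

/-- public increments up to the substep `k` -/
theorem sum_ai (hv : Codes D v) (hM : Rp tb v M) (J : Finset (Fin 3)) (k : ℕ) (w : Om W X β) :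
    ∑ j ∈ range k, asq M J j w = ∑ r ∈ range (rho k), aJq h v J r (tb.pt 0 w) := by
  have h0 : ∀ t, ∑ j ∈ range (5 * t), asq M J j w = ∑ r ∈ range (2 * t), aJq h v J r (tb.pt 0 w) := by
    intro t
    induction t with
    | zero => simp
    | succ t ih =>
      obtain ⟨a1, a2, a3, -, -⟩ := five (h := h) hv hM J t w
      rw [range5, range2, ih, a1, a2, a3 2 le_rfl (by omega), a3 3 (by omega) (by omega), a3 4 (by omega) le_rfl]
      ring
  obtain ⟨t, j, hj, rfl⟩ : ∃ t j, j < 5 ∧ k = 5 * t + j := ⟨k / 5, k % 5, by omega, by omega⟩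
  obtain ⟨a1, a2, a3, -, -⟩ := five (h := h) hv hM J t w
  have e1 : ∑ j ∈ range (5 * t + 1), asq M J j w = ∑ r ∈ range (2 * t + 1), aJq h v J r (tb.pt 0 w) := by
    rw [sum_range_succ, sum_range_succ, h0, a1]
  have e2 : ∑ j ∈ range (5 * t + 2), asq M J j w = ∑ r ∈ range (2 * t + 2), aJq h v J r (tb.pt 0 w) := by
    have q1 := sum_range_succ (fun j => asq M J j w) (5 * t + 1)
    have q2 := sum_range_succ (fun r => aJq h v J r (tb.pt 0 w)) (2 * t + 1)
    rw [show 5 * t + 2 = 5 * t + 1 + 1 by ring, show 2 * t + 2 = 2 * t + 1 + 1 by ring, q1, q2, e1, a2]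
  rcases Nat.lt_or_ge j 2 with h2 | h2
  · rcases Nat.eq_zero_or_pos j with rfl | h3
    · rw [add_zero, rho_0]
      exact h0 t
    · obtain rfl : j = 1 := by omega
      rw [rho_1]
      exact e1
  · rw [rho_j t h2 hj.le]
    rcases Nat.eq_or_lt_of_le h2 with rfl | h3
    · exact e2
    · have e3 : ∑ j ∈ range (5 * t + 3), asq M J j w = ∑ r ∈ range (2 * t + 2), aJq h v J r (tb.pt 0 w) := by
        have q1 := sum_range_succ (fun j => asq M J j w) (5 * t + 2)
        rw [show 5 * t + 3 = 5 * t + 2 + 1 by ring, q1, e2, a3 2 le_rfl (by omega), add_zero]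
      rcases Nat.eq_or_lt_of_le (show 3 ≤ j by omega) with rfl | h4
      · exact e3
      · obtain rfl : j = 4 := by omega
        have q1 := sum_range_succ (fun j => asq M J j w) (5 * t + 3)
        rw [show 5 * t + 4 = 5 * t + 3 + 1 by ring, q1, e3, a3 3 (by omega) (by omega), add_zero]

theorem bsq_nonneg (J : Finset (Fin 3)) (k : ℕ) {w : Om W X β} (hw : M.P.p w ≠ 0) : 0 ≤ bsq M J k w :=
  TD.bi_nonneg M.P (LF_step M (J, ∅)) k hw

/-- births up to the substep `k` -/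
theorem sum_bi (hv : Codes D v) (hM : Rp tb v M) (J : Finset (Fin 3)) (k : ℕ) {w : Om W X β} (hw : M.P.p w ≠ 0) :
    ∑ j ∈ range k, bsq M J j w ≤ ∑ r ∈ range (rho k), bJq h v J r (tb.pt 0 w) ∧
      ∀ q, ∑ j ∈ range (sbt q), bsq M J j w = ∑ r ∈ range q, bJq h v J r (tb.pt 0 w) := by
  have h0 : ∀ t, ∑ j ∈ range (5 * t), bsq M J j w = ∑ r ∈ range (2 * t), bJq h v J r (tb.pt 0 w) := by
    intro t
    induction t with
    | zero => simp
    | succ t ih =>
      obtain ⟨-, -, -, a4, a5⟩ := five (h := h) hv hM J t w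
      rw [range5, range2, ih, a4, a5]
  have h1 : ∀ q, ∑ j ∈ range (sbt q), bsq M J j w = ∑ r ∈ range q, bJq h v J r (tb.pt 0 w) := by
    intro q
    obtain ⟨t, rfl | rfl⟩ : ∃ t, q = 2 * t ∨ q = 2 * t + 1 := ⟨q / 2, by omega⟩
    · rw [sbt_0, h0]
    · obtain ⟨-, -, -, a4, -⟩ := five (h := h) hv hM J t w
      rw [sbt_1, sum_range_succ, sum_range_succ, h0, a4]
  refine ⟨?_, h1⟩
  rw [← h1 (rho k)]
  refine Finset.sum_le_sum_of_subset_of_nonneg (Finset.range_subset_range.2 (le_sbt_rho k)) fun j _ _ => ?_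
  exact bsq_nonneg J j hw

/-- **moved between half steps : moved between substeps** -/
theorem MJq_sub (hv : Codes D v) (hM : Rp tb v M) (J : Finset (Fin 3)) {δ : ℝ} {ν q : ℕ} (hν : rho ν ≤ q) {w : Om W X β}
    (hw : M.P.p w ≠ 0) (hm : MJq h v δ J (rho ν) q (tb.pt 0 w)) :
    Mv1 M.P M.NP (LF M (J, ∅)) (MV.YF M (J, ∅)) δ ν (sbt q) w := by
  have hνs : ν ≤ sbt q := rho_le.1 hν
  have e1 : ∑ j ∈ Ico ν (sbt q), ai M.P M.NP (LF M (J, ∅)) (MV.YF M (J, ∅)) j w =
      ∑ r ∈ Ico (rho ν) q, aJq h v J r (tb.pt 0 w) := by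
    rw [Finset.sum_Ico_eq_sub _ hνs, Finset.sum_Ico_eq_sub _ hν]
    have a1 := sum_ai (h := h) hv hM J (sbt q) w
    have a2 := sum_ai (h := h) hv hM J ν w
    rw [rho_sbt] at a1
    unfold asq at a1 a2
    rw [a1, a2]
  have e2 : ∑ r ∈ Ico (rho ν) q, bJq h v J r (tb.pt 0 w) ≤
      ∑ j ∈ Ico ν (sbt q), bi M.P M.NP (LF M (J, ∅)) (MV.YF M (J, ∅)) j w := by
    rw [Finset.sum_Ico_eq_sub _ hνs, Finset.sum_Ico_eq_sub _ hν]
    obtain ⟨a1, a2⟩ := sum_bi (h := h) hv hM J ν hw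
    have a3 := a2 q
    unfold bsq at a1 a3
    rw [a3]
    linarith
  rcases hm with h1 | h1
  · left
    rw [e1]
    exact h1
  · right
    exact le_trans h1 e2

/-- **moved between half steps : on the list** -/
theorem MJq_Lst (hv : Codes D v) (hM : Rp tb v M) (J : Finset (Fin 3)) {ν q : ℕ} (hν : rho ν < q) {w : Om W X β}
    (hw : M.P.p w ≠ 0) (hm : MJq h v M.d0 J (rho ν) q (tb.pt 0 w)) : Lst M ν (sbt q) w := by
  have h1 := MJq_sub hv hM J hν.le hw hm
  have h2 : ν < sbt q := by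
    by_contra hc
    have := rho_mono (not_lt.1 hc)
    rw [rho_sbt] at this
    omega
  exact Or.inl ⟨sbt q, h2, le_rfl, (J, ∅), h1⟩

end Pool.Agent.GMH.RZ
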