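import Pool.Agent.GMH.RZ8

/-!
# GMH/RZ9 (helper36): the family of the public epochs

Epoch `k` = a public start at the substep `k` (`nu M k = k`), from the half step `rho k`; it ends at the half step of the next
public start (at least one half step later, at most at `2 T`).
* `fam_z` : the public epochs with a thin static relation are a family `FamZ` with multiplicity `5`;
* `rem_sum_le`, `rem_sum_ge` : sums over the removals = sums over the epochs.
-/

set_option autoImplicit false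
set_option linter.unusedSectionVars false

namespace Pool.Agent.GMH.RZ

open Finset Pool.Agent.PWZ Pool.Agent.M3 Pool.Agent.GM Pool.Agent.GM.Harm Pool.Agent.GMH Pool.Agent.GMH.NZ
open Pool.Agent.GMH.V3 Pool.Agent.GMH.TD Pool.Agent.GMH.TP
open Pool.Agent.GMH.Dy Pool.Agent.GMH.MV Pool.Agent.GMH.MVI Pool.Agent.GMH.CK

variable {X β γ φ υ : Type} [Fintype X] [Fintype β] [Fintype φ] [Nonempty X] [Nonempty β]
variable {D : HD (Fin 3) X β γ φ} {al : ℝ} {h : D.Thick al} {v : ℕ → Finset (Fin 3) → X → (Fin 3 → β) → υ}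
variable {prr : ℕ → Fin 3 → φ → φ} {T : ℕ} {W : Type} [Fintype W] {tb : Tab D prr T W} {M : MS (Om W X β)}

/-- the epoch has ended `s` half steps after its start -/
def Edz (M : MS (Om W X β)) (T ν s : ℕ) (w : Om W X β) : Prop :=
  1 ≤ s ∧ (2 * T ≤ rho ν + s ∨ ∃ k, ν < k ∧ k ≤ sbt (rho ν + s) ∧ nu M k w = k)

theorem Edz_mono {ν s s' : ℕ} (hs : s ≤ s') {w : Om W X β} (hE : Edz M T ν s w) : Edz M T ν s' w := by
  obtain ⟨h1, h2⟩ := hE
  refine ⟨h1.trans hs, ?_⟩
  rcases h2 with h2 | ⟨k, h3, h4, h5⟩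
  · left
    omega
  · exact Or.inr ⟨k, h3, h4.trans (sbt_mono (by omega)), h5⟩

/-- length of the epoch in half steps -/
noncomputable def sgz (M : MS (Om W X β)) (T ν : ℕ) (w : Om W X β) : ℕ := sInf {s | Edz M T ν s w}

theorem sgz_le {ν s : ℕ} {w : Om W X β} : sgz M T ν w ≤ s ↔ Edz M T ν s w := by
  have hne : {s | Edz M T ν s w}.Nonempty := ⟨2 * T + 1, by omega, Or.inl (by omega)⟩
  constructor
  · intro h1
    exact Edz_mono h1 (Nat.sInf_mem hne)
  · intro h1
    exact Nat.sInf_le h1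

theorem sgz_one (ν : ℕ) (w : Om W X β) : 1 ≤ sgz M T ν w := by
  have h1 : Edz M T ν (sgz M T ν w) w := sgz_le.1 le_rfl
  exact h1.1

theorem sgz_cap {ν : ℕ} (hν : rho ν < 2 * T) (w : Om W X β) : rho ν + sgz M T ν w ≤ 2 * T := by
  have h1 : sgz M T ν w ≤ 2 * T - rho ν := sgz_le.2 ⟨by omega, Or.inl (by omega)⟩
  omega

theorem NPr_lft (w0 : Fin 3 → W) (r : ℕ) (p : Pt (Fin 3) X β φ) : NPr v D r (tb.pt 0 (lft w0 p)) = NPr v D r p :=
  NPr_pos r _ _ rfl

theorem nu_lft (hM : Rp tb v M) (w0 : Fin 3 → W) (k : ℕ) {a b : Pt (Fin 3) X β φ}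
    (hab : NPr v D (rho k) a = NPr v D (rho k) b) : nu M k (lft w0 a) = nu M k (lft w0 b) := by
  refine nu_fac M k _ _ ((hM.NPr k).2 ?_)
  rw [NPr_lft, NPr_lft]
  exact hab

/-- functions of the position -/
theorem nu_pos (hM : Rp tb v M) (k : ℕ) {a b : Om W X β} (h1 : a.1 = b.1) (h2 : a.2.2 = b.2.2) : nu M k a = nu M k b :=
  nu_fac M k a b ((hM.N k a b).2 (NPq_pos k h1 h2))

theorem sgz_fac (hM : Rp tb v M) (w0 : Fin 3 → W) {ν s : ℕ} {a b : Pt (Fin 3) X β φ}
    (hab : NPr v D (rho ν + s) a = NPr v D (rho ν + s) b) : sgz M T ν (lft w0 a) ≤ s ↔ sgz M T ν (lft w0 b) ≤ s := by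
  rw [sgz_le, sgz_le]
  unfold Edz
  refine and_congr_right fun _ => or_congr_right (exists_congr fun k => and_congr_right fun _ =>
    and_congr_right fun h2 => ?_)
  rw [nu_lft hM w0 k (NPr_older (rho_le.2 h2) hab)]

theorem epz_z (hM : Rp tb v M) (w0 : Fin 3 → W) {ν : ℕ} (hν : rho ν < 2 * T) :
    Epz v D T (rho ν) (fun p => nu M ν (lft w0 p) = ν) (fun p => sgz M T ν (lft w0 p)) where
  fS := fun a b hab => by rw [nu_lft hM w0 ν hab]
  one := fun _ => sgz_one _ _
  cap := fun _ => sgz_cap hν _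
  stp := fun s _ _ hab => sgz_fac hM w0 hab

/-- inside the epoch -/
theorem nu_in {ν q : ℕ} {w : Om W X β} (hS : nu M ν w = ν) (hq : ν ≤ q) (hno : ∀ k, ν < k → k ≤ q → nu M k w ≠ k) :
    nu M q w = ν := by
  induction q, hq using Nat.le_induction with
  | base => exact hS
  | succ q hq ih =>
    rcases stg_or (C := C0 M) q w with h1 | h1
    · exact absurd h1 (hno (q + 1) (by omega) le_rfl)
    · have h2 : nu M (q + 1) w = nu M q w := h1
      rw [h2]
      exact ih fun k h3 h4 => hno k h3 (by omega)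

/-- the moved mass before the end -/
theorem mv_z (hv : Codes D v) (hM : Rp tb v M) (w0 : Fin 3 → W) (J : Finset (Fin 3)) {ν : ℕ} {p : Pt (Fin 3) X β φ}
    (hS : nu M ν (lft w0 p) = ν) : (D.P h 0).ce (NPr v D (rho ν + sgz M T ν (lft w0 p) - 1))
    (fun y => ind (MJq h v M.d0 J (rho ν) (rho ν + sgz M T ν (lft w0 p) - 1) y)) p < M.k0 := by
  set σ := sgz M T ν (lft w0 p) with hσ
  have h1 : 1 ≤ σ := sgz_one _ _
  obtain ⟨w', hw', hx, hy⟩ := sup_pos tb p
  have hpos : ((tb.pt 0 w').1, (tb.pt 0 w').2.1) = (p.1, p.2.1) := Prod.ext hx hy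
  have hwM : M.P.p w' ≠ 0 := by
    rw [hM.P]
    exact hw'
  rcases Nat.eq_or_lt_of_le h1 with h2 | h2
  · have e0 : rho ν + σ - 1 = rho ν := by omega
    rw [e0]
    have e1 : (D.P h 0).ce (NPr v D (rho ν)) (fun y => ind (MJq h v M.d0 J (rho ν) (rho ν) y)) p = 0 := by
      refine ce_zero (D.P h 0) _ (fun y => ind_not ?_) p
      rintro (h3 | h3)
      · rw [Finset.Ico_self, Finset.sum_empty, abs_zero] at h3
        exact absurd M.hd0 (not_lt.2 h3)
      · rw [Finset.Ico_self, Finset.sum_empty] at h3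
        exact absurd M.hd0 (not_lt.2 h3)
    rw [e1]
    exact M.hk0
  · set q := rho ν + σ - 1 with hq
    have hνq : rho ν < q := by omega
    have hνs : ν ≤ sbt q := rho_le.1 hνq.le
    -- inside
    have h3 : ¬ Edz M T ν (σ - 1) (lft w0 p) := fun hh => by
      have := sgz_le.2 hh
      omega
    have h4 : ∀ k, ν < k → k ≤ sbt q → nu M k (lft w0 p) ≠ k := by
      intro k g1 g2 g3
      refine h3 ⟨by omega, Or.inr ⟨k, g1, ?_, g3⟩⟩
      have e2 : rho ν + (σ - 1) = q := by omega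
      rw [e2]
      exact g2
    have h5 : nu M (sbt q) (lft w0 p) = ν := nu_in hS hνs h4
    have h6 : nu M (sbt q) w' = ν := by
      rw [nu_pos hM (sbt q) (a := w') (b := lft w0 p) hx hy]
      exact h5
    have h7 := Lst_mass M (sbt q) hwM
    rw [h6] at h7
    refine lt_of_le_of_lt ?_ h7
    have e1 : (D.P h 0).ce (NPr v D q) (fun y => ind (MJq h v M.d0 J (rho ν) q y)) p =
        (D.P h 0).ce (NPr v D q) (fun y => ind (MJq h v M.d0 J (rho ν) q y)) (tb.pt 0 w') :=
      (D.P h 0).ce_fac _ _ p (tb.pt 0 w') (NPr_pos q _ _ hpos).symm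
    have e2 : (D.P h 0).ce (NPr v D q) (fun y => ind (MJq h v M.d0 J (rho ν) q y)) (tb.pt 0 w') =
        tb.Ps.ce (M.NP (sbt q)) (fun u => ind (MJq h v M.d0 J (rho ν) q (tb.pt 0 u))) w' := by
      rw [← (pul_pt h tb (Nat.zero_le T)).ce]
      refine tb.Ps.ce_congr_map (fun a b hab => ?_) (fun a b hab => ?_) _ w'
      · rw [hM.NPr, rho_sbt]
        exact hab
      · have h8 := (hM.NPr (sbt q)).1 hab
        rw [rho_sbt] at h8
        exact h8
    rw [e1, e2, hM.P]
    refine tb.Ps.ce_mono (fun u hu => ind_mono fun hm => ?_) w'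
    exact MJq_Lst (h := h) hv hM J hνq (by rw [hM.P]; exact hu) hm

/-! ### the family -/

theorem rho_lt {T k : ℕ} (hk : k < 5 * T - 3) : rho k < 2 * T := by
  unfold rho
  omega

/-- the group of a half step has at most four substeps -/
theorem grp_le (n r : ℕ) : ∑ k : Fin n, ind (rho k.1 = r) ≤ 4 := by
  have e1 : ∑ k : Fin n, ind (rho k.1 = r) = ∑ k ∈ range n, ind (rho k = r) :=
    (Finset.sum_range fun k => ind (rho k = r)).symm
  rw [e1]
  have h1 : ∑ k ∈ range n, ind (rho k = r) ≤ ∑ k ∈ Icc (sbt r - 3) (sbt r), (1 : ℝ) := by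
    rw [← Finset.sum_filter_add_sum_filter_not (range n) (fun k => rho k = r)]
    have e2 : ∑ k ∈ (range n).filter (fun k => ¬ rho k = r), ind (rho k = r) = 0 :=
      Finset.sum_eq_zero fun k hk => ind_not (Finset.mem_filter.1 hk).2
    rw [e2, add_zero]
    have e3 : ∑ k ∈ (range n).filter (fun k => rho k = r), ind (rho k = r) =
        ∑ k ∈ (range n).filter (fun k => rho k = r), (1 : ℝ) :=
      Finset.sum_congr rfl fun k hk => ind_of (Finset.mem_filter.1 hk).2
    rw [e3]
    refine Finset.sum_le_sum_of_subset_of_nonneg (fun k hk => ?_) fun _ _ _ => zero_le_one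
    have h2 := (Finset.mem_filter.1 hk).2
    rw [Finset.mem_Icc]
    unfold rho at h2
    unfold sbt
    omega
  refine h1.trans ?_
  rw [Finset.sum_const, Nat.card_Icc, nsmul_eq_mul, mul_one]
  have h3 : sbt r + 1 - (sbt r - 3) ≤ 4 := by omega
  exact_mod_cast h3

theorem one_le' (n a : ℕ) : ∑ k : Fin n, ind (k.1 = a) ≤ 1 := by
  by_cases ha : a < n
  · rw [Finset.sum_eq_single (⟨a, ha⟩ : Fin n)]
    · exact ind_le_one _
    · intro k _ hk
      exact ind_not fun hh => hk (Fin.ext hh)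
    · intro hh
      exact absurd (mem_univ _) hh
  · rw [Finset.sum_eq_zero]
    · exact zero_le_one
    · intro k _
      exact ind_not fun hh => ha (hh ▸ k.2)

/-- **the public epochs with a thin static relation** -/
theorem fam_z (hv : Codes D v) (hM : Rp tb v M) (w0 : Fin 3 → W) {C E : Finset (Fin 3)} (hc : Cpl C E) {p1 X1 : ℝ}
    {H : ℕ → Om W X β → Prop} (hR : RelS M C E p1 H) :
    FamZ (ι := Fin (5 * T - 3)) h v T C E (fun k => rho k.1) (fun k p => nu M k.1 (lft w0 p) = k.1)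
      (fun k p => sgz M T k.1 (lft w0 p)) (fun k => HZ h v w0 C E X1 H k.1) M.d0 M.k0 p1 X1 5 where
  ep := fun k => epz_z hM w0 (rho_lt k.2)
  rel := fun k => hR.rel hv hM w0 hc k.1
  mvC := fun k w _ hS => mv_z hv hM w0 C hS
  mvE := fun k w _ hS => mv_z hv hM w0 E hS
  st := by
    intro w r
    refine le_trans (Finset.sum_le_sum fun k _ => ind_mono fun hh => hh.2) ((grp_le (5 * T - 3) r).trans (by norm_num))
  en := by
    intro w r
    have h1 : ∀ k : Fin (5 * T - 3), ind (nu M k.1 (lft w0 w) = k.1 ∧ rho k.1 + sgz M T k.1 (lft w0 w) = r) ≤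
        ind (rho k.1 = r - 1) + ind (k.1 = nu M (sbt (r - 1)) (lft w0 w)) := by
      intro k
      by_cases hh : nu M k.1 (lft w0 w) = k.1 ∧ rho k.1 + sgz M T k.1 (lft w0 w) = r
      · rw [ind_of hh]
        obtain ⟨g1, g2⟩ := hh
        have g3 := sgz_one (M := M) (T := T) k.1 (lft w0 w)
        rcases Nat.eq_or_lt_of_le g3 with g4 | g4
        · have g5 : rho k.1 = r - 1 := by omega
          rw [ind_of g5]
          have := ind_nonneg (k.1 = nu M (sbt (r - 1)) (lft w0 w))
          linarith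
        · have g5 : ¬ Edz M T k.1 (sgz M T k.1 (lft w0 w) - 1) (lft w0 w) := fun hE => by
            have := sgz_le.2 hE
            omega
          have e2 : rho k.1 + (sgz M T k.1 (lft w0 w) - 1) = r - 1 := by omega
          have g6 : nu M (sbt (r - 1)) (lft w0 w) = k.1 := by
            refine nu_in g1 (rho_le.1 (by omega)) fun j h2 h3 h4 => g5 ⟨by omega, Or.inr ⟨j, h2, ?_, h4⟩⟩
            rw [e2]
            exact h3
          rw [ind_of g6.symm]
          have := ind_nonneg (rho k.1 = r - 1)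
          linarith
      · rw [ind_not hh]
        exact add_nonneg (ind_nonneg _) (ind_nonneg _)
    refine (Finset.sum_le_sum fun k _ => h1 k).trans ?_
    rw [Finset.sum_add_distrib]
    have h2 := grp_le (5 * T - 3) (r - 1)
    have h3 := one_le' (5 * T - 3) (nu M (sbt (r - 1)) (lft w0 w))
    linarith

end Pool.Agent.GMH.RZ
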