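import Pool.Agent.GMH.RarX
import Pool.Agent.GMH.BitDev

/-!
# GMH/RarB (helper30): RARITY AT THE EXACT VERTEX, saturated state (row C5)

Frame `Bk` of `BitKL`: exact vertex `b`, `QC` = law given the public class, the exact point and the own letter of `b`
(`clm` = this class as a map), `V` an event of (hidden point, exact point of `b`) in the class.  Two logarithms:
`log (1 / QC V) ≤ L` (inside the class) and `log (1 / own) + L ≤ Lo` (from the public class, only over the prices of the thin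
letters and of the far face).  A relation `A` of the thin letters of `c`, `d` and of the three tops (`Rl`: on the support of
the class), alive at typical letters of `c` and `d`.
* `EL L Lo` : sum of the prices (`kP2`, `kP3`, `klet`);
* **`rel_VV`**, **`rel_V`** : `P (A | V) ≤ 1025 EL + 1024 P (A | V')`, `V'` = another event or the whole class;
* **`rare_b`** : `QC {y ≤ P (A | hidden point, exact point of b)} ≤ exp (-L)` as soon as `1025 EL + 1024 QC (A) < y`;
* **`rare_tot`** : the same for the whole law, inside any event `C` of the classes : `≤ exp (-L) Pr C`.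
-/

set_option autoImplicit false
set_option linter.unusedSectionVars false

namespace Pool.Agent.GMH.RarX

open Finset Pool.Agent.PWZ Pool.Agent.M3 Pool.Agent.GM Pool.Agent.GM.Harm Pool.Agent.GMH

section inst

variable {K X β γ φ υ : Type} [Fintype K] [DecidableEq K] [Fintype X] [Fintype β] [Fintype φ] [Nonempty X] [Nonempty β]
  {D : HD K X β γ φ} {al : ℝ} {h : D.Thick al} {N : Finset K → ℝ} {S : Finset (Finset K)}
  {U : Finset K → X → (K → β) → υ} {t : ℕ} {b c d : K} {w0 : Pt K X β φ} {V : Pt K X β φ → Prop}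
  {Typ : β → υ → Prop} {M L Lo R0 ep : ℝ} {k : ℕ}

/-- price of a letter -/
noncomputable def klet (N : Finset K → ℝ) (al M : ℝ) (c : K) (L : ℝ) : ℝ :=
  (2 * N ∅ * (L + 1) + 2 * (N ∅ * Real.log ((M + 1) * (1 / al)))) / N {c}

/-- price of the pair of rows, `L` inside the class, `Lo` from the public class -/
noncomputable def kP2 (N : Finset K → ℝ) (al M R0 ep : ℝ) (k : ℕ) (b d : K) (L Lo : ℝ) : ℝ :=
  L / (N (univ.erase d) / (2 * N {b})) +
    2 * ((2 * N ∅ * (Lo + 1) + 2 * N ∅ * (k * Real.log ((M + 1) * (1 / al + 1)))) / N {d} + Real.log (1 / al) + 3) /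
      (N (univ.erase d) / (2 * N {b})) +
    N (univ.erase d) / (2 * N {b}) * (R0 + L / (N (univ.erase d) / (2 * N {b}))) ^ 2 / (2 * k) + 2 * ep

/-- price of the far face -/
noncomputable def kP3 (N : Finset K → ℝ) (al : ℝ) (b c d : K) (Lo : ℝ) : ℝ :=
  (2 * N ∅ * (Lo + 1) + 2 * ((N {c} + N {d}) * Real.log (1 / al))) / N (univ.erase b)

/-- sum of the prices -/
noncomputable def EL (N : Finset K → ℝ) (al M R0 ep : ℝ) (k : ℕ) (b c d : K) (L Lo : ℝ) : ℝ :=
  kP2 N al M R0 ep k b d L Lo + kP2 N al M R0 ep k b c L Lo + kP3 N al b c d Lo + klet N al M c Lo + klet N al M d Lo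

/-- surprise from the public class = own letter and surprise inside the class -/
theorem Lb_eq (B : Bk h N S U t b c d) (I : Ib h U t b w0 V) : Lb h U t b w0 V =
    Real.log (1 / own h t U (pub0 D t U w0) b w0) + Real.log (1 / (QC h U t b w0).Pr V) := by
  have Ic : Ib h U t b w0 (clsb U (pub0 D t U w0) b w0) := I.cls B
  have e0 : QC h U t b w0 = (QB h U t b w0).cond (clsb U (pub0 D t U w0) b w0) := Ic.condB.symm
  have hq := Ic.neB
  have hp : 0 < (QB h U t b w0).Pr (clsb U (pub0 D t U w0) b w0) := lt_of_le_of_ne ((QB h U t b w0).Pr_nonneg _) hq.symm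
  have e1 : (QC h U t b w0).Pr V = (QB h U t b w0).Pr V / (QB h U t b w0).Pr (clsb U (pub0 D t U w0) b w0) := by
    rw [e0]
    show ((QB h U t b w0).cond (clsb U (pub0 D t U w0) b w0)).E (fun v => ind (V v)) = _
    rw [FP.cond_E hq]
    congr 1
    refine (QB h U t b w0).E_congr fun v _ => ?_
    by_cases hv : V v
    · rw [ind_of hv, ind_of (I.sub v hv), one_mul]
    · rw [ind_not hv, mul_zero]
  have e2 : (QB h U t b w0).Pr V = own h t U (pub0 D t U w0) b w0 * (QC h U t b w0).Pr V := by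
    rw [e1, ← own_QB B I.supp]
    field_simp
  have p1 : 0 < own h t U (pub0 D t U w0) b w0 := by rw [← own_QB B I.supp]; exact hp
  have p2 : 0 < (QC h U t b w0).Pr V := lt_of_le_of_ne ((QC h U t b w0).Pr_nonneg _) I.neC.symm
  unfold Lb
  rw [e2, one_div, mul_inv, Real.log_mul (inv_pos.2 p1).ne' (inv_pos.2 p2).ne', ← one_div, ← one_div]

theorem zt_of_zf (e : K) : Fac (zf (β := β) (φ := φ) U e) (zt U Typ e) := fun v w hvw => by
  unfold zf at hvw
  rw [Prod.mk.injEq] at hvw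
  unfold zt
  rw [hvw.1, hvw.2]

theorem log_nn (hM0 : 0 ≤ M) (h : D.Thick al) (b : K) : 0 ≤ Real.log ((M + 1) * (1 / al)) := by
  refine Real.log_nonneg ?_
  have h1 : 1 ≤ 1 / al := by
    rw [le_div_iff₀ h.pos, one_mul]
    exact hal_one h b
  nlinarith

theorem pC_le (B : Bk h N S U t b c d) (I : Ib h U t b w0 V) (hM0 : 0 ≤ M) (hL : Lb h U t b w0 V ≤ L) :
    pC ((D.P h t).cond V) (QB h U t b w0) (zt U Typ c) ≤ klet N al M c L := by
  have hN0 := B.nn ∅ B.s0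
  have hNc := B.n1 c
  have h0 := log_nn hM0 h b
  unfold pC klet
  rw [klc_one I.acB, le_div_iff₀ hNc, mul_comm]
  have h1 := let_one B I
  have h2 := mul_le_mul_of_nonneg_left (FP.kl_mono I.acB (zt_of_zf (U := U) (Typ := Typ) c)) hNc.le
  have h3 : 2 * N ∅ * (Lb h U t b w0 V + 1) ≤ 2 * N ∅ * (L + 1) := mul_le_mul_of_nonneg_left (by linarith) (by linarith)
  have h4 := mul_nonneg hN0 h0
  linarith

theorem pD_le (B : Bk h N S U t b c d) (I : Ib h U t b w0 V) (hM0 : 0 ≤ M)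
    (hM : ∀ c', ∃ s : Finset υ, (s.card : ℝ) ≤ M ∧ ∀ u, Typ c' u → u ∈ s) (hL : Lb h U t b w0 V ≤ L) :
    pD ((D.P h t).cond V) (QB h U t b w0) (zt U Typ c) (zt U Typ d) ≤ klet N al M d L + klet N al M c L := by
  have hN0 := B.nn ∅ B.s0
  have hNc := B.n1 c
  have h1 := pC_le (Typ := Typ) B.swap I hM0 hL
  unfold pC at h1
  unfold pD
  refine add_le_add h1 ?_
  unfold klet
  rw [le_div_iff₀ hNc, mul_comm]
  have h2 := let_two B I (Typ := Typ) hM
  have h3 : 2 * N ∅ * (Lb h U t b w0 V + 1) ≤ 2 * N ∅ * (L + 1) := mul_le_mul_of_nonneg_left (by linarith) (by linarith)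
  have h4 : ((D.P h t).cond V).I (zt U Typ d) (zt U Typ c) (fun _ => ()) ≤
      ((D.P h t).cond V).I (zf U c) (fun w => (w.2.1 d, yd U Typ c d w)) (fun _ => ()) := by
    rw [FP.I_comm]
    refine (FP.I_mono _ (X := zf U c) (X' := zt U Typ c) _ (fun v w hvw => ?_)).trans ?_
    · simp only [Prod.mk.injEq] at hvw
      exact zt_of_zf c v w hvw.1
    · rw [FP.I_comm, FP.I_comm (X := zf U c)]
      refine FP.I_mono _ _ (fun v w hvw => ?_)
      simp only [Prod.mk.injEq, yd] at hvw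
      unfold zt
      rw [Prod.mk.injEq]
      exact ⟨hvw.1.1, hvw.1.2.1⟩
  have h5 := mul_le_mul_of_nonneg_left h4 hNc.le
  linarith

theorem pX_le (B : Bk h N S U t b c d) (I : Ib h U t b w0 V)
    (hM : ∀ c', ∃ s : Finset υ, (s.card : ℝ) ≤ M ∧ ∀ u, Typ c' u → u ∈ s)
    (hL : Real.log (1 / (QC h U t b w0).Pr V) ≤ L)
    (hLo : Real.log (1 / own h t U (pub0 D t U w0) b w0) + L ≤ Lo)
    (hk : 0 < k) (hep : 0 < ep) (hep2 : ep ≤ 1 / 2) (hR0 : Real.log (1 / ep) ≤ R0) (hR1 : Real.log (1 / al) ≤ R0)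
    (hkR : N (univ.erase d) / (2 * N {b}) * (R0 + L / (N (univ.erase d) / (2 * N {b}))) ≤ 2 * k) :
    ((D.P h t).cond V).klc (QC h U t b w0) (fun w => fc (zt U Typ c w) (w.2.2 d)) (zt U Typ c) +
      ((D.P h t).cond V).I (fun w => fc (zt U Typ c w) (w.2.2 d)) (fun w => ((w.2.1 d, U {d} w.1 w.2.1), w.2.2 c))
        (zt U Typ c) ≤ kP2 N al M R0 ep k b d L Lo := by
  have hN0 := B.nn ∅ B.s0
  have hNb := B.n1 b
  have hNd := B.n1 d
  have hNe := B.n2 d
  have hm : 0 < N (univ.erase d) / (2 * N {b}) := by positivity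
  have k1 := P2ER.p2RE h B.dep B.sat B.nn B.bc B.bd B.cd B.all B.s0 (B.s1 b) (B.s1 d) (B.s2 d) hNb hNd hNe (pub0_C w0)
    (rfl : pub0 D t U w0 w0) I.supp I.fac I.self hM hk hep hep2 hR0 hL hR1 hkR
  have e1 : ((D.P h t).cond (clsb U (pub0 D t U w0) b w0)).cond V = (D.P h t).cond V := I.condC
  rw [e1] at k1
  refine le_trans (le_of_eq (add_comm _ _)) (k1.trans ?_)
  unfold kP2
  have a1 : 2 * N ∅ * (Real.log (1 / own h t U (pub0 D t U w0) b w0) + L + 1) ≤ 2 * N ∅ * (Lo + 1) :=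
    mul_le_mul_of_nonneg_left (by linarith) (by linarith)
  gcongr

theorem pW_le (B : Bk h N S U t b c d) (I : Ib h U t b w0 V) (hL : Lb h U t b w0 V ≤ L) :
    pW ((D.P h t).cond V) (QB h U t b w0) (fun w => (zf U c w, zf U d w)) (fun w => fc (zt U Typ c w) (w.2.2 d))
      (fun w => fc (zt U Typ d w) (w.2.2 c)) (fun w => w.2.2 b) ≤ kP3 N al b c d L := by
  have hN0 := B.nn ∅ B.s0
  have hNe := B.n2 b
  have k1 := face_far B I
  unfold pW kP3
  rw [le_div_iff₀ hNe, mul_comm]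
  have h2 : ((D.P h t).cond V).I (fun w => w.2.2 b) (fun w => (fc (zt U Typ c w) (w.2.2 d), fc (zt U Typ d w) (w.2.2 c)))
      (fun w => (zf U c w, zf U d w)) ≤
      ((D.P h t).cond V).I (fun w => w.2.2 b) (fun w => (w.2.2 d, w.2.2 c)) (fun w => (zf U c w, zf U d w)) := by
    rw [FP.I_comm, FP.I_comm (X := fun w : Pt K X β φ => w.2.2 b)]
    refine FP.I_mono _ _ (fun v w hvw => ?_)
    simp only [Prod.mk.injEq] at hvw
    rw [zt_of_zf (U := U) (Typ := Typ) c v w hvw.2.1, zt_of_zf (U := U) (Typ := Typ) d v w hvw.2.2, hvw.1.1, hvw.1.2]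
  have h3 := mul_le_mul_of_nonneg_left (add_le_add_left h2
    (((D.P h t).cond V).klc (QB h U t b w0) (fun w => w.2.2 b) (fun w => (zf U c w, zf U d w)))) hNe.le
  have h4 : 2 * N ∅ * (Lb h U t b w0 V + 1) ≤ 2 * N ∅ * (L + 1) := mul_le_mul_of_nonneg_left (by linarith) (by linarith)
  linarith

/-- a relation of the thin letters of `c`, `d` and of the tops, alive at typical letters -/
structure Rl (h : D.Thick al) (U : Finset K → X → (K → β) → υ) (t : ℕ) (b c d : K) (w0 : Pt K X β φ)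
    (Typ : β → υ → Prop) (A : Pt K X β φ → Prop) : Prop where
  fac : ∀ v w, (D.P h t).p v ≠ 0 → (D.P h t).p w ≠ 0 → clsb U (pub0 D t U w0) b w0 v → clsb U (pub0 D t U w0) b w0 w →
    zf U c v = zf U c w → zf U d v = zf U d w → v.2.2 b = w.2.2 b → v.2.2 c = w.2.2 c → v.2.2 d = w.2.2 d → A v → A w
  typ : ∀ w, (D.P h t).p w ≠ 0 → clsb U (pub0 D t U w0) b w0 w → A w →
    Typ (w.2.1 c) (U {c} w.1 w.2.1) ∧ Typ (w.2.1 d) (U {d} w.1 w.2.1)

/-- the relation in the truncated letters -/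
def gg5 (h : D.Thick al) (U : Finset K → X → (K → β) → υ) (t : ℕ) (b c d : K) (w0 : Pt K X β φ)
    (Typ : β → υ → Prop) (A : Pt K X β φ → Prop) (c' d' : β × Option υ) (x y : Option φ) (z : φ) : Prop :=
  ∃ v, (D.P h t).p v ≠ 0 ∧ clsb U (pub0 D t U w0) b w0 v ∧ A v ∧ zt U Typ c v = c' ∧ zt U Typ d v = d' ∧
    fc (zt U Typ c v) (v.2.2 d) = x ∧ fc (zt U Typ d v) (v.2.2 c) = y ∧ v.2.2 b = z

theorem gg5_iff {A : Pt K X β φ → Prop} (H : Rl h U t b c d w0 Typ A) {w : Pt K X β φ} (hw : (D.P h t).p w ≠ 0)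
    (hc : clsb U (pub0 D t U w0) b w0 w) :
    gg5 h U t b c d w0 Typ A (zt U Typ c w) (zt U Typ d w) (fc (zt U Typ c w) (w.2.2 d)) (fc (zt U Typ d w) (w.2.2 c))
      (w.2.2 b) ↔ A w := by
  constructor
  · rintro ⟨v, hv, hcv, hA, h1, h2, h3, h4, h5⟩
    obtain ⟨tc, td⟩ := H.typ v hv hcv hA
    have z1 : zf U c w = zf U c v := (zt_iff tc).1 h1.symm
    have z2 : zf U d w = zf U d v := (zt_iff td).1 h2.symm
    have tc' : Typ (w.2.1 c) (U {c} w.1 w.2.1) := typ_of z1 tc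
    have td' : Typ (w.2.1 d) (U {d} w.1 w.2.1) := typ_of z2 td
    rw [fc_pos tc, fc_pos tc'] at h3
    rw [fc_pos td, fc_pos td'] at h4
    exact H.fac v w hv hw hcv hc z1.symm z2.symm h5 (Option.some_injective _ h4) (Option.some_injective _ h3) hA
  · intro hA
    exact ⟨w, hw, hc, hA, rfl, rfl, rfl, rfl, rfl⟩

/-- **THE MASS INSIDE TWO EVENTS OF THE EXACT VERTEX** -/
theorem rel_VV (B : Bk h N S U t b c d) (I : Ib h U t b w0 V) {V' : Pt K X β φ → Prop} (I' : Ib h U t b w0 V')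
    {A : Pt K X β φ → Prop} (H : Rl h U t b c d w0 Typ A)
    (hM0 : 0 ≤ M) (hM : ∀ c', ∃ s : Finset υ, (s.card : ℝ) ≤ M ∧ ∀ u, Typ c' u → u ∈ s)
    (hL : Real.log (1 / (QC h U t b w0).Pr V) ≤ L) (hL' : Real.log (1 / (QC h U t b w0).Pr V') ≤ L)
    (hLo : Real.log (1 / own h t U (pub0 D t U w0) b w0) + L ≤ Lo)
    (hk : 0 < k) (hep : 0 < ep) (hep2 : ep ≤ 1 / 2) (hR0 : Real.log (1 / ep) ≤ R0) (hR1 : Real.log (1 / al) ≤ R0)
    (hkd : N (univ.erase d) / (2 * N {b}) * (R0 + L / (N (univ.erase d) / (2 * N {b}))) ≤ 2 * k)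
    (hkc : N (univ.erase c) / (2 * N {b}) * (R0 + L / (N (univ.erase c) / (2 * N {b}))) ≤ 2 * k) :
    ((D.P h t).cond V).Pr A ≤ 1025 * EL N al M R0 ep k b c d L Lo + 1024 * ((D.P h t).cond V').Pr A := by
  classical
  set Q := (D.P h t).cond V with hQ
  set Q' := (D.P h t).cond V' with hQ'
  set R := QC h U t b w0 with hR
  set B0 := QB h U t b w0 with hB0
  set G := gg5 h U t b c d w0 Typ A with hG
  have key := rel5 (Q := Q) (Q' := Q') (R := R) (B := B0) (C := zt U Typ c) (D := zt U Typ d)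
    (Zf := fun w => (zf U c w, zf U d w))
    (X := fun w => fc (zt U Typ c w) (w.2.2 d)) (Y := fun w => fc (zt U Typ d w) (w.2.2 c)) (W := fun w => w.2.2 b)
    (gg := G) I.acC I.acB I'.acC I'.acB (fun v w hvw => by
      simp only [Prod.mk.injEq] at hvw
      show (zt U Typ c v, zt U Typ d v) = (zt U Typ c w, zt U Typ d w)
      rw [zt_of_zf (U := U) (Typ := Typ) c v w hvw.1, zt_of_zf (U := U) (Typ := Typ) d v w hvw.2])
    (fun v w x y z hz h1 h2 => by
      obtain ⟨u, hu, hcu, hA, g1, g2, -⟩ := hz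
      obtain ⟨tc, td⟩ := H.typ u hu hcu hA
      have a1 : zf U c w = zf U c u := (zt_iff tc).1 g1.symm
      have a2 : zf U d w = zf U d u := (zt_iff td).1 g2.symm
      have a3 : zf U c v = zf U c u := (zt_iff tc).1 (h1.trans g1.symm)
      have a4 : zf U d v = zf U d u := (zt_iff td).1 (h2.trans g2.symm)
      show (zf U c v, zf U d v) = (zf U c w, zf U d w)
      rw [a1, a2, a3, a4])
  -- the relation
  have eQ : Q.Pr (fun w => G (zt U Typ c w) (zt U Typ d w) (fc (zt U Typ c w) (w.2.2 d)) (fc (zt U Typ d w) (w.2.2 c))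
      (w.2.2 b)) = Q.Pr A := by
    refine Q.E_congr fun w hw => ?_
    obtain ⟨hw1, hw2⟩ := cond_supp I.ne hw
    exact congrArg ind (propext (gg5_iff H hw2 (I.sub w hw1)))
  have eR : Q'.Pr (fun w => G (zt U Typ c w) (zt U Typ d w) (fc (zt U Typ c w) (w.2.2 d)) (fc (zt U Typ d w) (w.2.2 c))
      (w.2.2 b)) = Q'.Pr A := by
    refine Q'.E_congr fun w hw => ?_
    obtain ⟨hw1, hw2⟩ := cond_supp I'.ne hw
    exact congrArg ind (propext (gg5_iff H hw2 (I'.sub w hw1)))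
  rw [eQ, eR] at key
  -- the prices under the events
  have hb : Lb h U t b w0 V ≤ Lo := by rw [Lb_eq B I]; linarith
  have hb' : Lb h U t b w0 V' ≤ Lo := by rw [Lb_eq B I']; linarith
  have x1 := pX_le (Typ := Typ) B I hM hL hLo hk hep hep2 hR0 hR1 hkd
  have x2 := pX_le (Typ := Typ) B.swap I hM hL hLo hk hep hep2 hR0 hR1 hkc
  have x3 := pX_le (Typ := Typ) B I' hM hL' hLo hk hep hep2 hR0 hR1 hkd
  have x4 := pX_le (Typ := Typ) B.swap I' hM hL' hLo hk hep hep2 hR0 hR1 hkc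
  have y1 : ∀ P : FP (Pt K X β φ), P.I (fun w => fc (zt U Typ c w) (w.2.2 d))
      (fun w => (zt U Typ d w, fc (zt U Typ d w) (w.2.2 c))) (zt U Typ c) ≤
      P.I (fun w => fc (zt U Typ c w) (w.2.2 d)) (fun w => ((w.2.1 d, U {d} w.1 w.2.1), w.2.2 c)) (zt U Typ c) := by
    intro P
    rw [FP.I_comm, FP.I_comm (X := fun w : Pt K X β φ => fc (zt U Typ c w) (w.2.2 d))]
    refine FP.I_mono _ _ (fun v w hvw => ?_)
    rw [Prod.mk.injEq, Prod.mk.injEq] at hvw
    have : zt U Typ d v = zt U Typ d w := zt_of_zf d v w hvw.1.1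
    show (zt U Typ d v, fc (zt U Typ d v) (v.2.2 c)) = (zt U Typ d w, fc (zt U Typ d w) (w.2.2 c))
    rw [this, hvw.1.2]
  have y2 : ∀ P : FP (Pt K X β φ), P.I (fun w => fc (zt U Typ d w) (w.2.2 c)) (zt U Typ c) (zt U Typ d) ≤
      P.I (fun w => fc (zt U Typ d w) (w.2.2 c)) (fun w => ((w.2.1 c, U {c} w.1 w.2.1), w.2.2 d)) (zt U Typ d) := by
    intro P
    rw [FP.I_comm, FP.I_comm (X := fun w : Pt K X β φ => fc (zt U Typ d w) (w.2.2 c))]
    refine FP.I_mono _ _ (fun v w hvw => ?_)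
    rw [Prod.mk.injEq, Prod.mk.injEq] at hvw
    exact zt_of_zf c v w hvw.1.1
  have qX : pX Q R (zt U Typ c) (zt U Typ d) (fun w => fc (zt U Typ c w) (w.2.2 d)) (fun w => fc (zt U Typ d w) (w.2.2 c)) ≤
      kP2 N al M R0 ep k b d L Lo := by
    unfold pX
    linarith [y1 Q]
  have qY : pY Q R (zt U Typ c) (zt U Typ d) (fun w => fc (zt U Typ d w) (w.2.2 c)) ≤ kP2 N al M R0 ep k b c L Lo := by
    unfold pY
    linarith [y2 Q]
  have rX : pX Q' R (zt U Typ c) (zt U Typ d) (fun w => fc (zt U Typ c w) (w.2.2 d)) (fun w => fc (zt U Typ d w) (w.2.2 c)) ≤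
      kP2 N al M R0 ep k b d L Lo := by
    unfold pX
    linarith [y1 Q']
  have rY : pY Q' R (zt U Typ c) (zt U Typ d) (fun w => fc (zt U Typ d w) (w.2.2 c)) ≤ kP2 N al M R0 ep k b c L Lo := by
    unfold pY
    linarith [y2 Q']
  have qD := pD_le (Typ := Typ) B I hM0 hM hb
  have qC := pC_le (Typ := Typ) B I hM0 hb
  have rD := pD_le (Typ := Typ) B I' hM0 hM hb'
  have rC := pC_le (Typ := Typ) B I' hM0 hb'
  have qW := pW_le (Typ := Typ) B I hb
  have rW := pW_le (Typ := Typ) B I' hb'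
  have n1 : 0 ≤ kP2 N al M R0 ep k b d L Lo := by
    refine le_trans ?_ x1
    exact add_nonneg (Pool.Agent.GMH.klc_nonneg I.acC _ _) (FP.I_nonneg _ _ _ _)
  have n2 : 0 ≤ kP2 N al M R0 ep k b c L Lo := by
    refine le_trans ?_ x2
    exact add_nonneg (Pool.Agent.GMH.klc_nonneg I.acC _ _) (FP.I_nonneg _ _ _ _)
  have n3 : 0 ≤ kP3 N al b c d Lo := by
    refine le_trans ?_ qW
    exact add_nonneg (Pool.Agent.GMH.klc_nonneg I.acB _ _) (FP.I_nonneg _ _ _ _)
  have n4 : 0 ≤ klet N al M c Lo := le_trans (Pool.Agent.GMH.klc_nonneg I.acB _ _) qC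
  have n5 : 0 ≤ klet N al M d Lo := le_trans (Pool.Agent.GMH.klc_nonneg I.acB _ _) (pC_le (Typ := Typ) B.swap I hM0 hb)
  unfold EL
  linarith

/-- **THE MASS INSIDE AN EVENT OF THE EXACT VERTEX** -/
theorem rel_V (B : Bk h N S U t b c d) (I : Ib h U t b w0 V) {A : Pt K X β φ → Prop} (H : Rl h U t b c d w0 Typ A)
    (hM0 : 0 ≤ M) (hM : ∀ c', ∃ s : Finset υ, (s.card : ℝ) ≤ M ∧ ∀ u, Typ c' u → u ∈ s)
    (hL : Real.log (1 / (QC h U t b w0).Pr V) ≤ L)
    (hLo : Real.log (1 / own h t U (pub0 D t U w0) b w0) + L ≤ Lo)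
    (hk : 0 < k) (hep : 0 < ep) (hep2 : ep ≤ 1 / 2) (hR0 : Real.log (1 / ep) ≤ R0) (hR1 : Real.log (1 / al) ≤ R0)
    (hkd : N (univ.erase d) / (2 * N {b}) * (R0 + L / (N (univ.erase d) / (2 * N {b}))) ≤ 2 * k)
    (hkc : N (univ.erase c) / (2 * N {b}) * (R0 + L / (N (univ.erase c) / (2 * N {b}))) ≤ 2 * k) :
    ((D.P h t).cond V).Pr A ≤ 1025 * EL N al M R0 ep k b c d L Lo + 1024 * (QC h U t b w0).Pr A := by
  refine rel_VV B I (I.cls B) H hM0 hM hL (le_trans ?_ hL) hLo hk hep hep2 hR0 hR1 hkd hkc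
  have h0 : 0 < (QC h U t b w0).Pr V := lt_of_le_of_ne ((QC h U t b w0).Pr_nonneg _) I.neC.symm
  exact Real.log_le_log (one_div_pos.2 (lt_of_lt_of_le h0 ((QC h U t b w0).Pr_mono fun v _ hv => I.sub v hv)))
    (one_div_le_one_div_of_le h0 ((QC h U t b w0).Pr_mono fun v _ hv => I.sub v hv))

/-! ### the rarity -/

theorem cls_eq {w1 : Pt K X β φ} (hw : clsb U (pub0 D t U w0) b w0 w1) :
    clsb U (pub0 D t U w1) b w1 = clsb U (pub0 D t U w0) b w0 := by
  funext v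
  exact propext ⟨fun hh => ⟨hh.1.trans hw.1, hh.2.1.trans hw.2.1, hh.2.2.trans hw.2.2⟩,
    fun hh => ⟨hh.1.trans hw.1.symm, hh.2.1.trans hw.2.1.symm, hh.2.2.trans hw.2.2.symm⟩⟩

theorem QC_eq {w1 : Pt K X β φ} (hw : clsb U (pub0 D t U w0) b w0 w1) : QC h U t b w1 = QC h U t b w0 := by
  unfold QC
  rw [cls_eq hw]

theorem Rl.mv {A : Pt K X β φ → Prop} (H : Rl h U t b c d w0 Typ A) {w1 : Pt K X β φ}
    (hw : clsb U (pub0 D t U w0) b w0 w1) : Rl h U t b c d w1 Typ A := by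
  refine ⟨?_, ?_⟩
  · rw [cls_eq hw]; exact H.fac
  · rw [cls_eq hw]; exact H.typ

/-- **RARITY IN A CLASS** of the exact vertex -/
theorem rare_b (B : Bk h N S U t b c d) (hw0 : (D.P h t).p w0 ≠ 0) {A : Pt K X β φ → Prop} (H : Rl h U t b c d w0 Typ A)
    (hM0 : 0 ≤ M) (hM : ∀ c', ∃ s : Finset υ, (s.card : ℝ) ≤ M ∧ ∀ u, Typ c' u → u ∈ s)
    (hLo : Real.log (1 / own h t U (pub0 D t U w0) b w0) + L ≤ Lo)
    (hk : 0 < k) (hep : 0 < ep) (hep2 : ep ≤ 1 / 2) (hR0 : Real.log (1 / ep) ≤ R0) (hR1 : Real.log (1 / al) ≤ R0)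
    (hkd : N (univ.erase d) / (2 * N {b}) * (R0 + L / (N (univ.erase d) / (2 * N {b}))) ≤ 2 * k)
    (hkc : N (univ.erase c) / (2 * N {b}) * (R0 + L / (N (univ.erase c) / (2 * N {b}))) ≤ 2 * k)
    {y : ℝ} (hy : 1025 * EL N al M R0 ep k b c d L Lo + 1024 * (QC h U t b w0).Pr A < y) :
    (QC h U t b w0).Pr (fun w => y ≤ (D.P h t).ce (Ah D t {b}) (fun v => ind (A v)) w) ≤ Real.exp (-L) := by
  classical
  have Ic : Ib h U t b w0 (clsb U (pub0 D t U w0) b w0) :=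
    ⟨clsb_Ah B.dep (pub0_C w0) B.oth, ⟨rfl, rfl, rfl⟩, hw0, fun _ hv => hv⟩
  set R := QC h U t b w0 with hR
  have key := rare_of (R := R) (Sg := Ah D t {b}) (A := A) (y := y) (L := L)
    (B1 := 1025 * EL N al M R0 ep k b c d L Lo + 1024 * R.Pr A) ?_ hy
  · refine le_trans (le_of_eq ?_) key
    refine R.E_congr fun w hw => ?_
    have hw1 : clsb U (pub0 D t U w0) b w0 w := (cond_supp Ic.cls_ne hw).1
    have e1 : R.ce (Ah D t {b}) (fun v => ind (A v)) w = (D.P h t).ce (Ah D t {b}) (fun v => ind (A v)) w :=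
      cond_ce_event Ic.fac Ic.cls_ne _ hw1
    show ind (y ≤ (D.P h t).ce (Ah D t {b}) (fun v => ind (A v)) w) = ind (y ≤ R.ce (Ah D t {b}) (fun v => ind (A v)) w)
    rw [e1]
  · intro E hE hE0 hL
    -- a point of the event
    have hex : ∃ w1, R.p w1 ≠ 0 ∧ E w1 := by
      by_contra hno
      push Not at hno
      refine hE0 ?_
      unfold FP.Pr
      rw [R.E_congr (g := fun _ => 0) fun w hw => ind_not (hno w hw), R.E_const]
    obtain ⟨w1, h1, h2⟩ := hex
    obtain ⟨c1, p1⟩ := cond_supp Ic.cls_ne h1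
    set V : Pt K X β φ → Prop := fun v => clsb U (pub0 D t U w0) b w0 v ∧ E v with hV
    have I1 : Ib h U t b w1 V := by
      refine ⟨fun v w hvw => ?_, ⟨c1, h2⟩, p1, fun v hv => ?_⟩
      · show (clsb U (pub0 D t U w0) b w0 v ∧ E v) = (clsb U (pub0 D t U w0) b w0 w ∧ E w)
        rw [Ic.fac v w hvw, hE v w hvw]
      · rw [cls_eq c1]; exact hv.1
    have hVE : R.Pr V = R.Pr E := by
      refine R.E_congr fun w hw => ?_
      have := (cond_supp Ic.cls_ne hw).1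
      exact congrArg ind (propext ⟨fun hh => hh.2, fun hh => ⟨this, hh⟩⟩)
    have hV0 : (D.P h t).Pr V ≠ 0 := (FP.Pr_pos_of (S := V) p1 ⟨c1, h2⟩).ne'
    have hcc : R.cond E = (D.P h t).cond V := FP.cond_cond hV0
    have hL1 : Real.log (1 / (QC h U t b w1).Pr V) ≤ L := by
      rw [QC_eq c1, hVE]
      exact hL
    have hLo1 : Real.log (1 / own h t U (pub0 D t U w1) b w1) + L ≤ Lo := by
      have e1 : own h t U (pub0 D t U w1) b w1 = own h t U (pub0 D t U w0) b w0 := by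
        rw [← own_QB B hw0, ← own_QB B p1, Ic.QB_mv c1, cls_eq c1]
      rw [e1]
      exact hLo
    have h3 := rel_V B I1 (H.mv c1) hM0 hM hL1 hLo1 hk hep hep2 hR0 hR1 hkd hkc
    rw [QC_eq c1] at h3
    rw [hcc]
    exact h3

/-- the class as a map -/
noncomputable def clm (D : HD K X β γ φ) (U : Finset K → X → (K → β) → υ) (t : ℕ) (b : K) (w : Pt K X β φ) :
    ((Finset K → Option (υ × (K → Option φ))) × ((K → Option β) × (γ × (K → γ)))) × (β × υ) :=
  ((le (LL U) ∅ w, BB D t ∅ w), (w.2.1 b, U {b} w.1 w.2.1))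

theorem clm_iff {v : Pt K X β φ} : clm D U t b v = clm D U t b w0 ↔ clsb U (pub0 D t U w0) b w0 v := by
  unfold clm clsb
  rw [Prod.mk.injEq, Prod.mk.injEq (v.2.1 b)]
  exact Iff.rfl

/-- mass of a class -/
theorem QC_Pr (hw0 : (D.P h t).p w0 ≠ 0) (A : Pt K X β φ → Prop) :
    (QC h U t b w0).Pr A = (D.P h t).ce (clm D U t b) (fun v => ind (A v)) w0 := by
  have e : (fun v => clm D U t b v = clm D U t b w0) = clsb U (pub0 D t U w0) b w0 :=
    funext fun v => propext clm_iff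
  have h0 : (D.P h t).Pr (clsb U (pub0 D t U w0) b w0) ≠ 0 :=
    (FP.Pr_pos_of (S := clsb U (pub0 D t U w0) b w0) hw0 ⟨rfl, rfl, rfl⟩).ne'
  unfold QC FP.Pr FP.ce FP.m
  rw [FP.cond_E h0]
  have e1 : ∀ v, (clm D U t b v = clm D U t b w0) = clsb U (pub0 D t U w0) b w0 v := fun v => congrFun e v
  simp only [e1]
  rfl

/-- **RARITY FOR THE WHOLE LAW**, inside an event `C` of the classes -/
theorem rare_tot (B : Bk h N S U t b c d) {A C : Pt K X β φ → Prop} (hC : Fac (clm D U t b) C)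
    (hM0 : 0 ≤ M) (hM : ∀ c', ∃ s : Finset υ, (s.card : ℝ) ≤ M ∧ ∀ u, Typ c' u → u ∈ s)
    (hk : 0 < k) (hep : 0 < ep) (hep2 : ep ≤ 1 / 2) (hR0 : Real.log (1 / ep) ≤ R0) (hR1 : Real.log (1 / al) ≤ R0)
    (hkd : N (univ.erase d) / (2 * N {b}) * (R0 + L / (N (univ.erase d) / (2 * N {b}))) ≤ 2 * k)
    (hkc : N (univ.erase c) / (2 * N {b}) * (R0 + L / (N (univ.erase c) / (2 * N {b}))) ≤ 2 * k)
    {y : ℝ} (hG : ∀ w, (D.P h t).p w ≠ 0 → C w → Real.log (1 / own h t U (pub0 D t U w) b w) + L ≤ Lo ∧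
      Rl h U t b c d w Typ A ∧ 1025 * EL N al M R0 ep k b c d L Lo + 1024 * (QC h U t b w).Pr A < y) :
    (D.P h t).Pr (fun w => C w ∧ y ≤ (D.P h t).ce (Ah D t {b}) (fun v => ind (A v)) w) ≤
      Real.exp (-L) * (D.P h t).Pr C := by
  classical
  set P := D.P h t with hP
  have e1 : P.Pr (fun w => C w ∧ y ≤ P.ce (Ah D t {b}) (fun v => ind (A v)) w) =
      P.E (fun w => ind (C w) * P.ce (clm D U t b) (fun w => ind (y ≤ P.ce (Ah D t {b}) (fun v => ind (A v)) w)) w) := by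
    rw [P.E_mul_ce (hC.comp fun q => ind q)]
    exact P.E_congr fun w _ => ind_and _ _
  rw [e1]
  show _ ≤ Real.exp (-L) * P.E (fun w => ind (C w))
  rw [← P.E_smul]
  refine P.E_mono fun w hw => ?_
  by_cases hCw : C w
  · rw [ind_of hCw, one_mul, mul_one]
    obtain ⟨g1, g2, g3⟩ := hG w hw hCw
    have h1 := rare_b B hw g2 hM0 hM g1 hk hep hep2 hR0 hR1 hkd hkc g3
    rw [QC_Pr hw] at h1
    exact h1
  · rw [ind_not hCw, zero_mul, mul_zero]

end inst

end Pool.Agent.GMH.RarX
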