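import Pool.Agent.GMH.RarB
import Pool.Agent.GMH.GamR

/-!
# GMH/RarC (helper30): RARITY AT THE EXACT VERTEX ON THE SPACE WITH TABLES (row C5)

Sights `sgt D {b} n`, class `XN b s` of the exact vertex `b` (letter and public information of the state `s`), relations `A`
of the letters of the state `5 t` (old labels included), alive at typical letters of the two other vertices.
* `bkR` : the frame `Bk` of a run; `RO`, `ROx` : relations; `Cst`, `ELr` : constants and sum of the prices;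
* `relO` : the masses of a relation in two events of (hidden point, exact point) of one class; `relK` : a finer class;
* **`step0`** : state `5 t`; **`step1`** : states `5 t + 1`, .., `5 t + 4` (digit and public code of the next time in the class),
  sight of the time `t + 1`: `Pr (C, y ≤ P (A | sight)) ≤ exp (-L1) Pr C` for every event `C` of the class.
-/

set_option autoImplicit false
set_option linter.unusedSectionVars false

namespace Pool.Agent.GMH.RarC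

open Finset Pool.Agent.PWZ Pool.Agent.M3 Pool.Agent.GM Pool.Agent.GM.Harm Pool.Agent.GMH
open Pool.Agent.GMH.TP Pool.Agent.GMH.TD Pool.Agent.GMH.Dy Pool.Agent.GMH.MVI Pool.Agent.GMH.MVIp
open Pool.Agent.GMH.RarX Pool.Agent.GMH.GamR

noncomputable section

section abs

variable {Om κ σ : Type*} [Fintype Om] {P : FP Om}

theorem ce_ind (K : Om → κ) (A : Om → Prop) (w : Om) :
    P.ce K (fun v => ind (A v)) w = P.Pr (fun u => K u = K w ∧ A u) / P.m K w := by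
  unfold FP.ce FP.Pr
  congr 1
  exact P.E_congr fun u _ => (ind_and _ _).symm

theorem cond_pr {V A : Om → Prop} (hV : P.Pr V ≠ 0) : (P.cond V).Pr A = P.Pr (fun u => V u ∧ A u) / P.Pr V := by
  unfold FP.Pr
  rw [FP.cond_E hV]
  unfold FP.Pr
  congr 1
  exact P.E_congr fun u _ => (ind_and _ _).symm

theorem pr_ex {V : Om → Prop} (hV : P.Pr V ≠ 0) : ∃ u, P.p u ≠ 0 ∧ V u := by
  by_contra hno
  push Not at hno
  refine hV ?_
  unfold FP.Pr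
  rw [P.E_congr (g := fun _ => 0) fun w hw => ind_not (hno w hw), P.E_const]

/-- **rarity, the whole law from the classes** -/
theorem rare_cls {K : Om → κ} {Sg : Om → σ} (hK : Fac Sg K) {C A : Om → Prop} (hC : Fac K C) {y L : ℝ}
    (hb : ∀ w0, P.p w0 ≠ 0 → C w0 → ∀ E : Om → Prop, Fac Sg E → E w0 →
      Real.log (P.m K w0 / P.Pr (fun u => K u = K w0 ∧ E u)) ≤ L →
      (P.cond (fun u => K u = K w0 ∧ E u)).Pr A < y) :
    P.Pr (fun w => C w ∧ y ≤ P.ce Sg (fun v => ind (A v)) w) ≤ Real.exp (-L) * P.Pr C := by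
  classical
  have e1 : P.Pr (fun w => C w ∧ y ≤ P.ce Sg (fun v => ind (A v)) w) =
      P.E (fun w => ind (C w) * P.ce K (fun w => ind (y ≤ P.ce Sg (fun v => ind (A v)) w)) w) := by
    rw [P.E_mul_ce (hC.comp fun q => ind q)]
    exact P.E_congr fun w _ => ind_and _ _
  rw [e1]
  show _ ≤ Real.exp (-L) * P.E (fun w => ind (C w))
  rw [← P.E_smul]
  refine P.E_mono fun w0 hw => ?_
  by_cases hCw : C w0
  · rw [ind_of hCw, one_mul, mul_one]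
    set E : Om → Prop := fun w => y ≤ P.ce Sg (fun v => ind (A v)) w with hEd
    have hEf : Fac Sg E := fun v w e => by
      show (y ≤ P.ce Sg (fun v => ind (A v)) v) = (y ≤ P.ce Sg (fun v => ind (A v)) w)
      rw [P.ce_fac Sg (fun v => ind (A v)) v w e]
    by_contra hc
    push Not at hc
    have hm := P.m_pos K hw
    rw [ce_ind K E w0, lt_div_iff₀ hm] at hc
    have hpos : 0 < P.Pr (fun u => K u = K w0 ∧ E u) := (mul_pos (Real.exp_pos _) hm).trans hc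
    obtain ⟨w1, h1, h2, h3⟩ := pr_ex hpos.ne'
    have hC1 : C w1 := by rw [hC w1 w0 h2]; exact hCw
    have hL : Real.log (P.m K w1 / P.Pr (fun u => K u = K w1 ∧ E u)) ≤ L := by
      have h20 : P.m K w1 = P.m K w0 := by unfold FP.m; rw [h2]
      rw [h20, h2, Real.log_div hm.ne' hpos.ne']
      have h4 := Real.log_lt_log (mul_pos (Real.exp_pos _) hm) hc
      rw [Real.log_mul (Real.exp_pos _).ne' hm.ne', Real.log_exp] at h4
      linarith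
    have h5 := hb w1 h1 hC1 E hEf h3 hL
    rw [h2] at h5
    have hVf : Fac Sg (fun u => K u = K w0 ∧ E u) := fun v w e => by
      show (K v = K w0 ∧ E v) = (K w = K w0 ∧ E w)
      rw [hK v w e, hEf v w e]
    have h6 : y ≤ (P.cond fun u => K u = K w0 ∧ E u).Pr A := by
      rw [cond_pr hpos.ne', le_div_iff₀ hpos]
      have e2 : P.Pr (fun u => (K u = K w0 ∧ E u) ∧ A u) =
          P.E (fun u => ind (K u = K w0 ∧ E u) * P.ce Sg (fun v => ind (A v)) u) := by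
        rw [P.E_mul_ce (hVf.comp fun q => ind q)]
        exact P.E_congr fun w _ => ind_and _ _
      rw [e2]
      show y * P.E (fun u => ind (K u = K w0 ∧ E u)) ≤ _
      rw [← P.E_smul]
      refine P.E_mono fun u _ => ?_
      by_cases hu : K u = K w0 ∧ E u
      · rw [ind_of hu, mul_one, one_mul]
        exact hu.2
      · rw [ind_not hu, mul_zero, zero_mul]
    linarith
  · rw [ind_not hCw, zero_mul, mul_zero]

end abs

variable {X β γ φ : Type} [Fintype X] [Fintype β] [Fintype φ] [Nonempty X] [Nonempty β]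
variable {D : HD (Fin 3) X β γ φ} {al : ℝ} {h : D.Thick al} {prr : ℕ → Fin 3 → φ → φ} {T : ℕ} {W : Type} [Fintype W]
variable (tb : Tab D prr T W) {v : ℕ → Finset (Fin 3) → X → (Fin 3 → β) → Pt (Fin 3) X β φ}

theorem tri3 : ∀ b c d j : Fin 3, b ≠ c → b ≠ d → c ≠ d → (j = b ∨ j = c ∨ j = d) := by decide

/-- the frame of a run -/
theorem bkR {n N1 : ℝ} (hn : 1 ≤ n) (hN1 : 1 ≤ N1) (R : Run h (pr3 (Fin 3) n N1) (SS1 (Fin 3)) (AdmDep D) v)
    {b c d : Fin 3} (hbc : b ≠ c) (hbd : b ≠ d) (hcd : c ≠ d) (t : ℕ) :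
    Bk h (pr3 (Fin 3) n N1) (SS1 (Fin 3)) (Um v (t + 1)) t b c d where
  dep := Um_dp (D := D) R.codes t
  sat := R.dep (fun J _ => zero_le_one.trans (pr3_one hn hN1 J)) t
  nn := fun J _ => zero_le_one.trans (pr3_one hn hN1 J)
  bc := hbc
  bd := hbd
  cd := hcd
  all := fun j => tri3 b c d j hbc hbd hcd
  s0 := SS1_emp
  s1 := SS1_one
  s2 := fun j => mem_SS1.2 (ne_univ j)
  n1 := fun j => zero_lt_one.trans_le (pr3_one hn hN1 _)
  n2 := fun j => zero_lt_one.trans_le (pr3_one hn hN1 _)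

/-- constants of the prices -/
structure Cst (n al M R0 ep : ℝ) (k : ℕ) (L : ℝ) : Prop where
  hM0 : 0 ≤ M
  hk : 0 < k
  hep : 0 < ep
  hep2 : ep ≤ 1 / 2
  hR0 : Real.log (1 / ep) ≤ R0
  hR1 : Real.log (1 / al) ≤ R0
  hkL : n / 2 * (R0 + L / (n / 2)) ≤ 2 * k

/-- sum of the prices -/
def ELr (n N1 al M R0 ep : ℝ) (k : ℕ) (L Lo : ℝ) : ℝ :=
  2 * (L / (n / 2) + 2 * ((2 * (Lo + 1) + 2 * (k * Real.log ((M + 1) * (1 / al + 1)))) / N1 + Real.log (1 / al) + 3) /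
    (n / 2) + n / 2 * (R0 + L / (n / 2)) ^ 2 / (2 * k) + 2 * ep) +
    (2 * (Lo + 1) + 2 * ((N1 + N1) * Real.log (1 / al))) / (n * N1) +
    2 * ((2 * (Lo + 1) + 2 * Real.log ((M + 1) * (1 / al))) / N1)

theorem half_pr {n N1 : ℝ} (hN1 : 1 ≤ N1) (b d : Fin 3) :
    pr3 (Fin 3) n N1 (univ.erase d) / (2 * pr3 (Fin 3) n N1 {b}) = n / 2 := by
  have h1 : N1 ≠ 0 := by linarith
  rw [V3.VT.prN1, pr3_top (by decide)]
  field_simp

theorem EL_eq {n N1 al M R0 ep : ℝ} {k : ℕ} {L Lo : ℝ} (hN1 : 1 ≤ N1) (b c d : Fin 3) :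
    EL (pr3 (Fin 3) n N1) al M R0 ep k b c d L Lo = ELr n N1 al M R0 ep k L Lo := by
  unfold EL ELr kP2 kP3 klet
  rw [half_pr hN1 b d, half_pr hN1 b c, V3.VT.prN0, V3.VT.prN1, V3.VT.prN1, pr3_top (by decide)]
  simp only [mul_one, one_mul]
  ring

theorem ELr_nn (h : D.Thick al) {n N1 M R0 ep : ℝ} {k : ℕ} {L Lo : ℝ} (hn : 1 ≤ n) (hN1 : 1 ≤ N1)
    (hM0 : 0 ≤ M) (hep : 0 < ep) (hL : 0 ≤ L) (hLo : 0 ≤ Lo) : 0 ≤ ELr n N1 al M R0 ep k L Lo := by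
  have h1 : 1 ≤ 1 / al := by
    rw [le_div_iff₀ h.pos, one_mul]
    exact hal_one h 0
  have l1 : 0 ≤ Real.log (1 / al) := Real.log_nonneg h1
  have l2 : 0 ≤ Real.log ((M + 1) * (1 / al + 1)) := Real.log_nonneg (by nlinarith)
  have l3 : 0 ≤ Real.log ((M + 1) * (1 / al)) := Real.log_nonneg (by nlinarith)
  have hn0 : 0 < n := by linarith
  have hN0 : 0 < N1 := by linarith
  unfold ELr
  positivity

/-! ### classes and letters -/

theorem XN_clm (b : Fin 3) (t : ℕ) {u w : Om W X β} : XN tb v b (5 * t) u = XN tb v b (5 * t) w ↔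
    clm D (Um v (t + 1)) t b (tb.pt t u) = clm D (Um v (t + 1)) t b (tb.pt t w) := by
  show ((u.2.2 b, Um v (TP.nc (5 * t) {b}) {b} u.1 u.2.2), (Um v (TP.nc (5 * t) ∅) ∅ u.1 u.2.2,
      (D.qa (TP.nn (5 * t)) u.1, fun j => D.qb (TP.nn (5 * t)) (u.2.2 j)))) =
    ((w.2.2 b, Um v (TP.nc (5 * t) {b}) {b} w.1 w.2.2), (Um v (TP.nc (5 * t) ∅) ∅ w.1 w.2.2,
      (D.qa (TP.nn (5 * t)) w.1, fun j => D.qb (TP.nn (5 * t)) (w.2.2 j)))) ↔
    ((le (LL (Um v (t + 1))) ∅ (tb.pt t u), BB D t ∅ (tb.pt t u)), (u.2.2 b, Um v (t + 1) {b} u.1 u.2.2)) =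
      ((le (LL (Um v (t + 1))) ∅ (tb.pt t w), BB D t ∅ (tb.pt t w)), (w.2.2 b, Um v (t + 1) {b} w.1 w.2.2))
  rw [nc5, nc5, nn5]
  constructor
  · intro hh
    rw [Prod.mk.injEq, Prod.mk.injEq (Um v (t + 1) ∅ u.1 u.2.2), Prod.mk.injEq (D.qa t u.1)] at hh
    obtain ⟨h1, h2, h3, h4⟩ := hh
    refine Prod.ext (Prod.ext (le_eq.2 fun I hI => ?_) (BB_eq.2 ⟨fun j hj => absurd hj (Finset.notMem_empty j), h3,
      fun j => congrFun h4 j⟩)) h1
    rw [Finset.subset_empty.1 hI, LL_eq]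
    exact ⟨h2, fun l hl => absurd (hl ▸ Finset.Subset.refl _) (not_era l)⟩
  · intro hh
    rw [Prod.mk.injEq, Prod.mk.injEq (le (LL (Um v (t + 1))) ∅ (tb.pt t u))] at hh
    obtain ⟨⟨h1, h2⟩, h3⟩ := hh
    have h4 := (LL_eq.1 (le_eq.1 h1 ∅ (Finset.Subset.refl _))).1
    have h5 := BB_eq.1 h2
    exact Prod.ext h3 (Prod.ext h4 (Prod.ext h5.2.1 (funext h5.2.2)))

theorem XL_zf (c : Fin 3) (t : ℕ) (u : Om W X β) : XLo tb v c (5 * t) u = zf (Um v (t + 1)) c (tb.pt t u) := by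
  show (u.2.2 c, Um v (TP.nc (5 * t) {c}) {c} u.1 u.2.2) = (u.2.2 c, Um v (t + 1) {c} u.1 u.2.2)
  rw [nc5]

/-- point of `b` and public information -/
def yN (v : ℕ → Finset (Fin 3) → X → (Fin 3 → β) → Pt (Fin 3) X β φ) (b : Fin 3) (t : ℕ) (w : Om W X β) :=
  (w.2.2 b, NPo tb v (5 * t) w)

theorem XN_yN (b : Fin 3) (t : ℕ) : Fac (XN tb v b (5 * t)) (yN tb v b t) := fun u w e => by
  have h1 := congrArg (fun q => q.1.1) e
  have h2 := congrArg Prod.snd e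
  exact Prod.ext h1 h2

theorem XN_sgt (hv : Codes D v) (b : Fin 3) (t : ℕ) : Fac (sgt (W := W) D {b} t) (XN tb v b (5 * t)) := fun u w e => by
  obtain ⟨h1, h2, h3⟩ := sgt_eq.1 e
  have h4 := h2 b (Finset.mem_singleton_self b)
  refine Prod.ext ?_ (NP_sgt tb hv t u w (sgt_eq.2 ⟨h1, fun j hj => absurd hj (Finset.notMem_empty j), h3⟩))
  show (u.2.2 b, Um v (TP.nc (5 * t) {b}) {b} u.1 u.2.2) = (w.2.2 b, Um v (TP.nc (5 * t) {b}) {b} w.1 w.2.2)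
  rw [nc5, h4, h1, Um_dp (D := D) hv t {b} w.1 u.2.2 w.2.2 (fun i hi => by rw [Finset.mem_singleton.1 hi]; exact h4) h3]

/-- the points with their laws -/
theorem pul_ex {Ω Ω' : Type*} [Fintype Ω] [Fintype Ω'] {P : FP Ω} {P' : FP Ω'} {π : Ω → Ω'} (H : Pul P P' π) {p : Ω'}
    (hp : P'.p p ≠ 0) : ∃ u, P.p u ≠ 0 ∧ π u = p := by
  by_contra hno
  push Not at hno
  have h1 : P'.Pr (fun q => q = p) = 0 := by
    rw [← H.Pr]
    unfold FP.Pr
    rw [P.E_congr (g := fun _ => 0) fun w hw => ind_not (hno w hw), P.E_const]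
  exact (FP.Pr_pos_of (P := P') (S := fun q => q = p) hp rfl).ne' h1

/-- relations of the letters of `c`, `d` and of the labels at the time `t`, in an event `C0` -/
structure RO (v : ℕ → Finset (Fin 3) → X → (Fin 3 → β) → Pt (Fin 3) X β φ) (t : ℕ) (c d : Fin 3)
    (Typ : β → List (Pt (Fin 3) X β φ) → Prop) (C0 A : Om W X β → Prop) : Prop where
  fac : ∀ u w, tb.Ps.p u ≠ 0 → tb.Ps.p w ≠ 0 → C0 u → C0 w → XLo tb v c (5 * t) u = XLo tb v c (5 * t) w →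
    XLo tb v d (5 * t) u = XLo tb v d (5 * t) w →
    (∀ l, tb.lab t l (u.2.1 l) u.1 u.2.2 = tb.lab t l (w.2.1 l) w.1 w.2.2) → A u → A w
  typ : ∀ w, tb.Ps.p w ≠ 0 → C0 w → A w →
    Typ (w.2.2 c) (Um v (t + 1) {c} w.1 w.2.2) ∧ Typ (w.2.2 d) (Um v (t + 1) {d} w.1 w.2.2)

/-- the same with at most `M` typical letters at each point -/
def ROx (v : ℕ → Finset (Fin 3) → X → (Fin 3 → β) → Pt (Fin 3) X β φ) (t : ℕ) (c d : Fin 3) (M : ℝ)
    (C0 A : Om W X β → Prop) : Prop :=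
  ∃ Typ : β → List (Pt (Fin 3) X β φ) → Prop,
    (∀ c', ∃ s : Finset (List (Pt (Fin 3) X β φ)), (s.card : ℝ) ≤ M ∧ ∀ u, Typ c' u → u ∈ s) ∧ RO tb v t c d Typ C0 A

section one

variable {n N1 : ℝ} (hn : 1 ≤ n) (hN1 : 1 ≤ N1) (R : Run h (pr3 (Fin 3) n N1) (SS1 (Fin 3)) (AdmDep D) v)
variable {b c d : Fin 3} (hbc : b ≠ c) (hbd : b ≠ d) (hcd : c ≠ d) {t : ℕ} (ht : t ≤ T)
variable {Typ : β → List (Pt (Fin 3) X β φ) → Prop} {M R0 ep : ℝ} {k : ℕ}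
  (hM : ∀ c', ∃ s : Finset (List (Pt (Fin 3) X β φ)), (s.card : ℝ) ≤ M ∧ ∀ u, Typ c' u → u ∈ s)

/-- the mass of an event in the exact point -/
theorem QB_of (hv : Codes D v) (ht : t ≤ T) {w0 : Om W X β} (hw0 : tb.Ps.p w0 ≠ 0) {V : Om W X β → Prop}
    (fV : Fac (sgt D {b} t) V) (sV : ∀ u, V u → XN tb v b (5 * t) u = XN tb v b (5 * t) w0) :
    (QB h (Um v (t + 1)) t b (tb.pt t w0)).Pr (fun p => V (p.1, w0.2.1, p.2.1)) =
      tb.Ps.Pr V / tb.Ps.m (yN tb v b t) w0 := by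
  have H0 : Pul tb.Ps (D.P h t) (tb.pt t) := pul_pt h tb ht
  have hw1 : (D.P h t).p (tb.pt t w0) ≠ 0 := H0.ne hw0
  set V1 : Pt (Fin 3) X β φ → Prop := fun p => V (p.1, w0.2.1, p.2.1) with hV1
  have e0 : V = fun u => V1 (tb.pt t u) := by
    funext u
    exact fV u (u.1, w0.2.1, u.2.2) rfl
  have hxc : ∀ u, (yN tb v b t u = yN tb v b t w0) = xc D (Um v (t + 1)) t {b} (tb.pt t w0) (tb.pt t u) := by
    intro u
    show ((u.2.2 b, (Um v (TP.nc (5 * t) ∅) ∅ u.1 u.2.2, (D.qa (TP.nn (5 * t)) u.1, fun j => D.qb (TP.nn (5 * t)) (u.2.2 j)))) =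
      (w0.2.2 b, (Um v (TP.nc (5 * t) ∅) ∅ w0.1 w0.2.2, (D.qa (TP.nn (5 * t)) w0.1, fun j => D.qb (TP.nn (5 * t)) (w0.2.2 j))))) =
      (le (LL (Um v (t + 1))) ∅ (tb.pt t u) = le (LL (Um v (t + 1))) ∅ (tb.pt t w0) ∧
        BB D t {b} (tb.pt t u) = BB D t {b} (tb.pt t w0))
    rw [nc5, nn5]
    refine propext ⟨fun hh => ?_, fun hh => ?_⟩
    · rw [Prod.mk.injEq, Prod.mk.injEq (Um v (t + 1) ∅ u.1 u.2.2), Prod.mk.injEq (D.qa t u.1)] at hh
      obtain ⟨h1, h2, h3, h4⟩ := hh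
      refine ⟨le_eq.2 fun I hI => ?_, BB_eq.2 ⟨fun j hj => ?_, h3, fun j => congrFun h4 j⟩⟩
      · rw [Finset.subset_empty.1 hI, LL_eq]
        exact ⟨h2, fun l hl => absurd (hl ▸ Finset.Subset.refl _) (not_era l)⟩
      · rw [Finset.mem_singleton.1 hj]; exact h1
    · obtain ⟨h1, h2⟩ := hh
      have h4 := (LL_eq.1 (le_eq.1 h1 ∅ (Finset.Subset.refl _))).1
      have h5 := BB_eq.1 h2
      exact Prod.ext (h5.1 b (Finset.mem_singleton_self b)) (Prod.ext h4 (Prod.ext h5.2.1 (funext h5.2.2)))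
  have hsub : ∀ u, V u → yN tb v b t u = yN tb v b t w0 := fun u hu => XN_yN tb b t u w0 (sV u hu)
  have hx0 : (D.P h t).Pr (xc D (Um v (t + 1)) t {b} (tb.pt t w0)) ≠ 0 := xc_ne hw1
  have e1 : (D.P h t).Pr (xc D (Um v (t + 1)) t {b} (tb.pt t w0)) = tb.Ps.m (yN tb v b t) w0 := by
    rw [← H0.Pr]
    exact tb.Ps.E_congr fun u _ => by
      show ind (xc D (Um v (t + 1)) t {b} (tb.pt t w0) (tb.pt t u)) = ind (yN tb v b t u = yN tb v b t w0)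
      rw [hxc u]
  unfold QB
  show ((D.P h t).cond (xc D (Um v (t + 1)) t {b} (tb.pt t w0))).E (fun p => ind (V1 p)) = _
  rw [FP.cond_E hx0, e1]
  congr 1
  rw [← H0.E]
  refine tb.Ps.E_congr fun u _ => ?_
  have h3 : V u = V1 (tb.pt t u) := congrFun e0 u
  rw [← h3]
  by_cases hu : V u
  · have h4 : xc D (Um v (t + 1)) t {b} (tb.pt t w0) (tb.pt t u) := by rw [← hxc u]; exact hsub u hu
    rw [ind_of hu, ind_of h4, one_mul]
  · rw [ind_not hu, mul_zero]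

/-- an event of the exact vertex as an event `Ib` -/
theorem Ib_of {n N1 : ℝ} (B : Bk h (pr3 (Fin 3) n N1) (SS1 (Fin 3)) (Um v (t + 1)) t b c d) (ht : t ≤ T)
    {w0 : Om W X β} (hw0 : tb.Ps.p w0 ≠ 0) {V : Om W X β → Prop} (fV : Fac (sgt D {b} t) V) (hV : V w0)
    (sV : ∀ u, V u → XN tb v b (5 * t) u = XN tb v b (5 * t) w0) :
    Ib h (Um v (t + 1)) t b (tb.pt t w0) (fun p => V (p.1, w0.2.1, p.2.1)) := by
  have hw1 : (D.P h t).p (tb.pt t w0) ≠ 0 := (pul_pt h tb ht).ne hw0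
  refine ⟨fun p q hpq => ?_, ?_, hw1, fun p hp => ?_⟩
  · have h1 := Prod.mk.inj (show (p.1, BB D t {b} p) = (q.1, BB D t {b} q) from hpq)
    have h2 := BB_eq.1 h1.2
    exact fV _ _ (sgt_eq.2 ⟨h1.1, h2.1, h2.2.2⟩)
  · show V (w0.1, w0.2.1, w0.2.2)
    exact hV
  · have h1 := sV _ hp
    rw [XN_clm] at h1
    have h2 := clm_iff.1 h1
    have h3 : clsb (Um v (t + 1)) (pub0 D t (Um v (t + 1)) (tb.pt t w0)) b (tb.pt t w0) p ↔
        clsb (Um v (t + 1)) (pub0 D t (Um v (t + 1)) (tb.pt t w0)) b (tb.pt t w0)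
          (tb.pt t ((p.1, w0.2.1, p.2.1) : Om W X β)) := by
      refine Iff.of_eq (clsb_Ah B.dep (pub0_C (tb.pt t w0)) B.oth p _ ?_)
      rfl
    exact h3.2 h2

/-- the surprises inside the class and of the letter, on the two spaces -/
theorem QC_of {n N1 : ℝ} (hv : Codes D v) (B : Bk h (pr3 (Fin 3) n N1) (SS1 (Fin 3)) (Um v (t + 1)) t b c d) (ht : t ≤ T)
    {w0 : Om W X β} (hw0 : tb.Ps.p w0 ≠ 0) {V : Om W X β → Prop} (fV : Fac (sgt D {b} t) V) (hV : V w0)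
    (sV : ∀ u, V u → XN tb v b (5 * t) u = XN tb v b (5 * t) w0) :
    Real.log (1 / own h t (Um v (t + 1)) (pub0 D t (Um v (t + 1)) (tb.pt t w0)) b (tb.pt t w0)) =
      Real.log (tb.Ps.m (yN tb v b t) w0 / tb.Ps.m (XN tb v b (5 * t)) w0) ∧
    Real.log (1 / (QC h (Um v (t + 1)) t b (tb.pt t w0)).Pr (fun p => V (p.1, w0.2.1, p.2.1))) =
      Real.log (tb.Ps.m (XN tb v b (5 * t)) w0 / tb.Ps.Pr V) := by
  have hw1 : (D.P h t).p (tb.pt t w0) ≠ 0 := (pul_pt h tb ht).ne hw0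
  have fC : Fac (sgt (W := W) D {b} t) (fun u => XN tb v b (5 * t) u = XN tb v b (5 * t) w0) := fun u u' e => by
    show (XN tb v b (5 * t) u = XN tb v b (5 * t) w0) = (XN tb v b (5 * t) u' = XN tb v b (5 * t) w0)
    rw [XN_sgt tb hv b t u u' e]
  have I2 := Ib_of tb B ht hw0 fV hV sV
  have hm1 : 0 < tb.Ps.m (yN tb v b t) w0 := tb.Ps.m_pos _ hw0
  have hm2 : 0 < tb.Ps.m (XN tb v b (5 * t)) w0 := tb.Ps.m_pos _ hw0
  have hm3 : 0 < tb.Ps.Pr V := FP.Pr_pos_of (S := V) hw0 hV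
  have e1 : own h t (Um v (t + 1)) (pub0 D t (Um v (t + 1)) (tb.pt t w0)) b (tb.pt t w0) =
      tb.Ps.m (XN tb v b (5 * t)) w0 / tb.Ps.m (yN tb v b t) w0 := by
    rw [← own_QB B hw1]
    have h1 := QB_of (h := h) tb hv ht hw0 fC (fun _ hu => hu)
    have h2 : tb.Ps.Pr (fun u => XN tb v b (5 * t) u = XN tb v b (5 * t) w0) = tb.Ps.m (XN tb v b (5 * t)) w0 := rfl
    rw [← h2, ← h1]
    refine congrArg _ (funext fun p => propext ?_)
    rw [XN_clm, clm_iff]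
    refine Iff.of_eq (clsb_Ah B.dep (pub0_C (tb.pt t w0)) B.oth p _ ?_)
    rfl
  have e2 : Real.log (1 / own h t (Um v (t + 1)) (pub0 D t (Um v (t + 1)) (tb.pt t w0)) b (tb.pt t w0)) =
      Real.log (tb.Ps.m (yN tb v b t) w0 / tb.Ps.m (XN tb v b (5 * t)) w0) := by
    rw [e1, one_div_div]
  refine ⟨e2, ?_⟩
  have h3 := QB_of (h := h) tb hv ht hw0 fV sV
  have h4 := Lb_eq B I2
  unfold Lb at h4
  rw [h3, one_div_div, e2, Real.log_div hm1.ne' hm3.ne', Real.log_div hm1.ne' hm2.ne'] at h4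
  rw [Real.log_div hm2.ne' hm3.ne']
  linarith

include hn hN1 R hbc hbd hcd hM in
/-- **THE MASSES OF A RELATION IN TWO EVENTS OF THE EXACT VERTEX** -/
theorem relO (ht : t ≤ T) {w0 : Om W X β} (hw0 : tb.Ps.p w0 ≠ 0) {V V' : Om W X β → Prop}
    (fV : Fac (sgt D {b} t) V) (fV' : Fac (sgt D {b} t) V') (hV : V w0) (hV' : V' w0)
    (sV : ∀ u, V u → XN tb v b (5 * t) u = XN tb v b (5 * t) w0)
    (sV' : ∀ u, V' u → XN tb v b (5 * t) u = XN tb v b (5 * t) w0) {A : Om W X β → Prop}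
    (H : RO tb v t c d Typ (fun u => XN tb v b (5 * t) u = XN tb v b (5 * t) w0) A) {L Lo : ℝ} (K : Cst n al M R0 ep k L)
    (hL : Real.log (tb.Ps.m (XN tb v b (5 * t)) w0 / tb.Ps.Pr V) ≤ L)
    (hL' : Real.log (tb.Ps.m (XN tb v b (5 * t)) w0 / tb.Ps.Pr V') ≤ L)
    (hLo : Real.log (tb.Ps.m (yN tb v b t) w0 / tb.Ps.m (XN tb v b (5 * t)) w0) + L ≤ Lo) :
    (tb.Ps.cond V).Pr A ≤ 1025 * ELr n N1 al M R0 ep k L Lo + 1024 * (tb.Ps.cond V').Pr A := by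
  have hv := R.codes
  have B := bkR (h := h) hn hN1 R hbc hbd hcd t
  have H0 : Pul tb.Ps (D.P h t) (tb.pt t) := pul_pt h tb ht
  have hw1 : (D.P h t).p (tb.pt t w0) ≠ 0 := H0.ne hw0
  have eV : V = fun u => (fun p : Pt (Fin 3) X β φ => V (p.1, w0.2.1, p.2.1)) (tb.pt t u) := by
    funext u
    exact fV u (u.1, w0.2.1, u.2.2) rfl
  have eV' : V' = fun u => (fun p : Pt (Fin 3) X β φ => V' (p.1, w0.2.1, p.2.1)) (tb.pt t u) := by
    funext u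
    exact fV' u (u.1, w0.2.1, u.2.2) rfl
  have I1 := Ib_of tb B ht hw0 fV hV sV
  have I2 := Ib_of tb B ht hw0 fV' hV' sV'
  obtain ⟨o1, o2⟩ := QC_of (h := h) tb hv B ht hw0 fV hV sV
  obtain ⟨-, o3⟩ := QC_of (h := h) tb hv B ht hw0 fV' hV' sV'
  set V1 : Pt (Fin 3) X β φ → Prop := fun p => V (p.1, w0.2.1, p.2.1) with hV1
  set V2 : Pt (Fin 3) X β φ → Prop := fun p => V' (p.1, w0.2.1, p.2.1) with hV2
  -- the relation
  set A1 : Pt (Fin 3) X β φ → Prop := fun p => ∃ u, tb.Ps.p u ≠ 0 ∧ tb.pt t u = p ∧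
    XN tb v b (5 * t) u = XN tb v b (5 * t) w0 ∧ A u with hA1
  have hA : ∀ u, tb.Ps.p u ≠ 0 → XN tb v b (5 * t) u = XN tb v b (5 * t) w0 → (A1 (tb.pt t u) ↔ A u) := by
    intro u hu hc
    constructor
    · rintro ⟨u', h1, h2, h3, h4⟩
      refine H.fac u' u h1 hu h3 hc ?_ ?_ (fun l => ?_) h4
      · rw [XL_zf, XL_zf, h2]
      · rw [XL_zf, XL_zf, h2]
      · exact congrFun (congrArg (fun p : Pt (Fin 3) X β φ => p.2.2) h2) l
    · intro hA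
      exact ⟨u, hu, rfl, hc, hA⟩
  have hcl : ∀ p, clsb (Um v (t + 1)) (pub0 D t (Um v (t + 1)) (tb.pt t w0)) b (tb.pt t w0) p → ∀ u, tb.pt t u = p →
      XN tb v b (5 * t) u = XN tb v b (5 * t) w0 := by
    intro p hp u hu
    rw [XN_clm, clm_iff, hu]
    exact hp
  have HR : Rl h (Um v (t + 1)) t b c d (tb.pt t w0) Typ A1 := by
    refine ⟨fun p q hp hq hcp hcq z1 z2 l1 l2 l3 hAp => ?_, fun p hp hcp hAp => ?_⟩
    · obtain ⟨u, h1, h2, h3, h4⟩ := hAp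
      obtain ⟨u', g1, g2⟩ := pul_ex H0 hq
      refine ⟨u', g1, g2, hcl q hcq u' g2, H.fac u u' h1 g1 h3 (hcl q hcq u' g2) ?_ ?_ (fun l => ?_) h4⟩
      · rw [XL_zf, XL_zf, h2, g2]; exact z1
      · rw [XL_zf, XL_zf, h2, g2]; exact z2
      · have e1 : tb.lab t l (u.2.1 l) u.1 u.2.2 = p.2.2 l := by rw [← h2]; rfl
        have e2 : tb.lab t l (u'.2.1 l) u'.1 u'.2.2 = q.2.2 l := by rw [← g2]; rfl
        rw [e1, e2]
        rcases tri3 b c d l hbc hbd hcd with rfl | rfl | rfl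
        · exact l1
        · exact l2
        · exact l3
    · obtain ⟨u, h1, h2, h3, h4⟩ := hAp
      have h5 := H.typ u h1 h3 h4
      rw [← h2]
      exact h5
  have K1 := K.hkL
  have r1 := rel_VV (L := L) (Lo := Lo) B I1 I2 HR K.hM0 hM (o2.trans_le hL) (o3.trans_le hL') (by rw [o1]; exact hLo) K.hk K.hep
    K.hep2 K.hR0 K.hR1 (by rw [half_pr hN1 b d]; exact K1) (by rw [half_pr hN1 b c]; exact K1)
  rw [EL_eq hN1] at r1
  have tr : ∀ {V : Om W X β → Prop} {V1 : Pt (Fin 3) X β φ → Prop}, (V = fun u => V1 (tb.pt t u)) →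
      (D.P h t).Pr V1 ≠ 0 → (∀ u, V u → XN tb v b (5 * t) u = XN tb v b (5 * t) w0) →
      (tb.Ps.cond V).Pr A = ((D.P h t).cond V1).Pr A1 := by
    intro V V1 e0 hV0 sV
    have H1 : Pul (tb.Ps.cond V) ((D.P h t).cond V1) (tb.pt t) := by
      have := pul_cond H0 hV0
      rwa [← e0] at this
    have hV00 : tb.Ps.Pr V ≠ 0 := by
      rw [e0, H0.Pr V1]
      exact hV0
    rw [← H1.Pr]
    refine (tb.Ps.cond V).E_congr fun u hu => ?_
    obtain ⟨a1, a2⟩ := cond_supp hV00 hu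
    exact congrArg ind (propext (hA u a2 (sV u a1)).symm)
  rw [tr eV I1.ne sV, tr eV' I2.ne sV']
  exact r1


/-! ### the state `5 t` -/

include hn hN1 R hbc hbd hcd in
/-- **RARITY, STATE `5 t`** -/
theorem step0 (ht : t ≤ T) {A C : Om W X β → Prop} (hC : Fac (XN tb v b (5 * t)) C) {L Lo y : ℝ}
    (K : Cst n al M R0 ep k L)
    (hG : ∀ w, tb.Ps.p w ≠ 0 → C w → ROx tb v t c d M (fun u => XN tb v b (5 * t) u = XN tb v b (5 * t) w) A ∧
      Real.log (tb.Ps.m (yN tb v b t) w / tb.Ps.m (XN tb v b (5 * t)) w) + L ≤ Lo ∧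
      1025 * ELr n N1 al M R0 ep k L Lo + 1024 * tb.Ps.ce (XN tb v b (5 * t)) (fun u => ind (A u)) w < y) :
    tb.Ps.Pr (fun w => C w ∧ y ≤ tb.Ps.ce (sgt D {b} t) (fun u => ind (A u)) w) ≤ Real.exp (-L) * tb.Ps.Pr C := by
  refine rare_cls (XN_sgt tb R.codes b t) hC fun w0 hw0 hCw E fE hE hL => ?_
  obtain ⟨⟨Typ, hM, g1⟩, g2, g3⟩ := hG w0 hw0 hCw
  have fC : Fac (sgt (W := W) D {b} t) (fun u => XN tb v b (5 * t) u = XN tb v b (5 * t) w0) := fun u u' e => by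
    show (XN tb v b (5 * t) u = XN tb v b (5 * t) w0) = (XN tb v b (5 * t) u' = XN tb v b (5 * t) w0)
    rw [XN_sgt tb R.codes b t u u' e]
  have fV : Fac (sgt (W := W) D {b} t) (fun u => XN tb v b (5 * t) u = XN tb v b (5 * t) w0 ∧ E u) := fun u u' e => by
    show (XN tb v b (5 * t) u = XN tb v b (5 * t) w0 ∧ E u) = (XN tb v b (5 * t) u' = XN tb v b (5 * t) w0 ∧ E u')
    rw [XN_sgt tb R.codes b t u u' e, fE u u' e]
  have hm : 0 < tb.Ps.m (XN tb v b (5 * t)) w0 := tb.Ps.m_pos _ hw0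
  have hV : 0 < tb.Ps.Pr (fun u => XN tb v b (5 * t) u = XN tb v b (5 * t) w0 ∧ E u) :=
    FP.Pr_pos_of (S := fun u => XN tb v b (5 * t) u = XN tb v b (5 * t) w0 ∧ E u) hw0 ⟨rfl, hE⟩
  have hle : tb.Ps.Pr (fun u => XN tb v b (5 * t) u = XN tb v b (5 * t) w0 ∧ E u) ≤ tb.Ps.m (XN tb v b (5 * t)) w0 :=
    tb.Ps.Pr_mono fun u _ hu => hu.1
  have e0 : tb.Ps.Pr (fun u => XN tb v b (5 * t) u = XN tb v b (5 * t) w0) = tb.Ps.m (XN tb v b (5 * t)) w0 := rfl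
  have hL' : Real.log (tb.Ps.m (XN tb v b (5 * t)) w0 /
      tb.Ps.Pr (fun u => XN tb v b (5 * t) u = XN tb v b (5 * t) w0)) ≤ L := by
    rw [e0, div_self hm.ne', Real.log_one]
    exact le_trans (Real.log_nonneg ((one_le_div hV).2 hle)) hL
  have h1 := relO tb hn hN1 R hbc hbd hcd hM ht hw0 fV fC ⟨rfl, hE⟩ rfl (fun u hu => hu.1) (fun u hu => hu) g1 K hL hL' g2
  have e1 : (tb.Ps.cond fun u => XN tb v b (5 * t) u = XN tb v b (5 * t) w0).Pr A =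
      tb.Ps.ce (XN tb v b (5 * t)) (fun u => ind (A u)) w0 := by
    rw [cond_pr (by rw [e0]; exact hm.ne'), ce_ind, e0]
  rw [e1] at h1
  linarith

/-! ### the states `5 t + 1`, .., `5 t + 4` -/

theorem nn_eq {t j : ℕ} (hj : 1 ≤ j) (hj4 : j ≤ 4) : TP.nn (5 * t + j) = t + 1 := by
  rw [TP.nn_add t j (by omega)]
  unfold TP.nnj
  rw [if_neg (by omega)]

theorem Um_le {υ : Type} {v : ℕ → Finset (Fin 3) → X → (Fin 3 → β) → υ} (hv : Codes D v) {m s : ℕ} (hm : m ≤ s + 1) :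
    ∀ I x y y', (∀ i ∈ I, y i = y' i) → (∀ i, D.qb s (y i) = D.qb s (y' i)) → Um v m I x y = Um v m I x y' := by
  intro I x y y' h1 h2
  unfold Um
  rw [List.map_inj_left]
  intro r hr
  have hrs : r ≤ s := Nat.lt_succ_iff.1 (lt_of_lt_of_le (List.mem_range.1 hr) hm)
  exact hv r I x y y' h1 fun i => qb_mono D hrs (h2 i)

theorem XN_mono (b : Fin 3) {s s' : ℕ} (hs : s ≤ s') : Fac (XN tb v b s') (XN tb v b s) := by
  induction hs with
  | refl => exact fun _ _ e => e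
  | step _ ih => exact fun x y e => ih x y (Prod.ext (XLo_fac tb b _ x y (congrArg Prod.fst e))
      (NPo_fac tb _ x y (congrArg Prod.snd e)))

theorem nc_one (b : Fin 3) {t j : ℕ} (hj4 : j ≤ 4) : TP.nc (5 * t + j) {b} = t + 1 := by
  rw [TP.nc_add t j (show pth {b} by unfold pth; rw [Finset.card_singleton]) (by omega)]
  unfold TP.ncj TP.rk
  rw [if_neg (Finset.singleton_ne_empty b), if_pos (Finset.card_singleton b), if_neg (by omega)]

/-- the class of the exact vertex inside a level -/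
theorem XN_dec (hv : Codes D v) {j : ℕ} (hj : 1 ≤ j) (hj4 : j ≤ 4) {u w : Om W X β} :
    XN tb v b (5 * t + j) u = XN tb v b (5 * t + j) w ↔
      (XN tb v b (5 * t) u = XN tb v b (5 * t) w ∧ D.qa (t + 1) u.1 = D.qa (t + 1) w.1 ∧
        Um v (TP.nc (5 * t + j) ∅) ∅ u.1 w.2.2 = Um v (TP.nc (5 * t + j) ∅) ∅ w.1 w.2.2) ∧
      ∀ l, D.qb (t + 1) (u.2.2 l) = D.qb (t + 1) (w.2.2 l) := by
  have hb := nc_one b (t := t) hj4
  have hn1 := nn_eq (t := t) hj hj4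
  have hle : TP.nc (5 * t + j) ∅ ≤ (t + 1) + 1 := by
    have h1 := TP.nc_le (5 * t + j) ∅
    rwa [hn1] at h1
  have e1 : (XN tb v b (5 * t + j) u = XN tb v b (5 * t + j) w) ↔
      ((u.2.2 b = w.2.2 b ∧ Um v (t + 1) {b} u.1 u.2.2 = Um v (t + 1) {b} w.1 w.2.2) ∧
        Um v (TP.nc (5 * t + j) ∅) ∅ u.1 u.2.2 = Um v (TP.nc (5 * t + j) ∅) ∅ w.1 w.2.2 ∧
        D.qa (t + 1) u.1 = D.qa (t + 1) w.1 ∧ ∀ l, D.qb (t + 1) (u.2.2 l) = D.qb (t + 1) (w.2.2 l)) := by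
    show ((u.2.2 b, Um v (TP.nc (5 * t + j) {b}) {b} u.1 u.2.2), (Um v (TP.nc (5 * t + j) ∅) ∅ u.1 u.2.2,
        (D.qa (TP.nn (5 * t + j)) u.1, fun i => D.qb (TP.nn (5 * t + j)) (u.2.2 i)))) =
      ((w.2.2 b, Um v (TP.nc (5 * t + j) {b}) {b} w.1 w.2.2), (Um v (TP.nc (5 * t + j) ∅) ∅ w.1 w.2.2,
        (D.qa (TP.nn (5 * t + j)) w.1, fun i => D.qb (TP.nn (5 * t + j)) (w.2.2 i)))) ↔ _
    rw [hb, hn1, Prod.mk.injEq, Prod.mk.injEq (u.2.2 b), Prod.mk.injEq (Um v (TP.nc (5 * t + j) ∅) ∅ u.1 u.2.2),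
      Prod.mk.injEq (D.qa (t + 1) u.1), funext_iff]
  have e3 : (∀ l, D.qb (t + 1) (u.2.2 l) = D.qb (t + 1) (w.2.2 l)) →
      Um v (TP.nc (5 * t + j) ∅) ∅ u.1 u.2.2 = Um v (TP.nc (5 * t + j) ∅) ∅ u.1 w.2.2 := fun hq =>
    Um_le (D := D) hv hle ∅ _ _ _ (fun i hi => absurd hi (Finset.notMem_empty i)) hq
  constructor
  · intro hh
    have h1 := XN_mono tb b (show 5 * t ≤ 5 * t + j by omega) u w hh
    obtain ⟨-, h3, h4, h5⟩ := e1.1 hh
    exact ⟨⟨h1, h4, (e3 h5).symm.trans h3⟩, h5⟩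
  · rintro ⟨⟨h1, h2, h3⟩, h4⟩
    refine e1.2 ⟨?_, (e3 h4).trans h3, h2, h4⟩
    have h5 : (u.2.2 b, Um v (TP.nc (5 * t) {b}) {b} u.1 u.2.2) = (w.2.2 b, Um v (TP.nc (5 * t) {b}) {b} w.1 w.2.2) :=
      congrArg Prod.fst h1
    rw [nc5, Prod.mk.injEq] at h5
    exact h5

/-- the cells of the next time in the sight of the time `t` -/
theorem halve (w0 : Om W X β) (hw0 : tb.Ps.p w0 ≠ 0) {F : Om W X β → Prop} (fF : Fac (sgt D {b} t) F)
    (sF : ∀ u, F u → XN tb v b (5 * t) u = XN tb v b (5 * t) w0) :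
    tb.Ps.Pr (fun u => F u ∧ ∀ l, D.qb (t + 1) (u.2.2 l) = D.qb (t + 1) (w0.2.2 l)) * tb.Ps.m (sgt D {b} t) w0 =
      tb.Ps.m (sgt D {b} (t + 1)) w0 * tb.Ps.Pr F := by
  classical
  set DC : Om W X β → Prop := fun u => ∀ l, D.qb (t + 1) (u.2.2 l) = D.qb (t + 1) (w0.2.2 l) with hDC
  have hm := tb.Ps.m_pos (sgt D {b} t) hw0
  have e1 : tb.Ps.Pr (fun u => F u ∧ DC u) = tb.Ps.E (fun u => ind (F u) * tb.Ps.ce (sgt D {b} t) (fun z => ind (DC z)) u) := by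
    rw [tb.Ps.E_mul_ce (fF.comp fun q => ind q)]
    exact tb.Ps.E_congr fun w _ => ind_and _ _
  have e2 : ∀ u, F u → tb.Ps.ce (sgt D {b} t) (fun z => ind (DC z)) u =
      tb.Ps.m (sgt D {b} (t + 1)) w0 / tb.Ps.m (sgt D {b} t) w0 := by
    intro u hu
    have h1 := sF u hu
    have hb : u.2.2 b = w0.2.2 b := congrArg (fun q => q.1.1) h1
    have hq : ∀ l, D.qb t (u.2.2 l) = D.qb t (w0.2.2 l) := by
      have h2 : (fun j => D.qb (TP.nn (5 * t)) (u.2.2 j)) = fun j => D.qb (TP.nn (5 * t)) (w0.2.2 j) :=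
        congrArg (fun q => q.2.2.2) h1
      rw [nn5] at h2
      exact fun l => congrFun h2 l
    have m1 : tb.Ps.m (sgt D {b} t) u = tb.Ps.m (sgt D {b} t) w0 := by
      rw [sgt_m, sgt_m]
      congr 1
      refine Finset.prod_congr rfl fun l _ => ?_
      unfold HD.cB
      rw [hq l]
    have m2 : tb.Ps.Pr (fun z => sgt D {b} t z = sgt D {b} t u ∧ DC z) = tb.Ps.m (sgt D {b} (t + 1)) w0 := by
      have m3 : tb.Ps.m (sgt D {b} (t + 1)) ((u.1, w0.2.1, w0.2.2) : Om W X β) = tb.Ps.m (sgt D {b} (t + 1)) w0 := by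
        rw [sgt_m, sgt_m]
      rw [← m3]
      refine tb.Ps.E_congr fun z _ => congrArg ind (propext ?_)
      show (sgt D {b} t z = sgt D {b} t u ∧ DC z) ↔ sgt D {b} (t + 1) z = sgt D {b} (t + 1) ((u.1, w0.2.1, w0.2.2) : Om W X β)
      rw [sgt_eq, sgt_eq]
      constructor
      · rintro ⟨⟨g1, g2, -⟩, g4⟩
        refine ⟨g1, fun l hl => ?_, g4⟩
        rw [Finset.mem_singleton.1 hl]
        exact (g2 b (Finset.mem_singleton_self b)).trans hb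
      · rintro ⟨g1, g2, g3⟩
        refine ⟨⟨g1, fun l hl => ?_, fun l => ?_⟩, g3⟩
        · rw [Finset.mem_singleton.1 hl]
          exact (g2 b (Finset.mem_singleton_self b)).trans hb.symm
        · exact (qb_mono (D := D) (Nat.le_succ t) (g3 l)).trans (hq l).symm
    rw [ce_ind, m1, m2]
  have e3 : tb.Ps.E (fun u => ind (F u) * tb.Ps.ce (sgt D {b} t) (fun z => ind (DC z)) u) =
      tb.Ps.m (sgt D {b} (t + 1)) w0 / tb.Ps.m (sgt D {b} t) w0 * tb.Ps.Pr F := by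
    show _ = _ * tb.Ps.E (fun u => ind (F u))
    rw [← tb.Ps.E_smul]
    refine tb.Ps.E_congr fun u _ => ?_
    by_cases hu : F u
    · rw [ind_of hu, one_mul, mul_one, e2 u hu]
    · rw [ind_not hu, zero_mul, mul_zero]
  show tb.Ps.Pr (fun u => F u ∧ DC u) * _ = _
  rw [e1, e3]
  field_simp

include hn hN1 R hbc hbd hcd hM in
/-- **THE MASS INSIDE A LEVEL** -/
theorem relK {dg : ℕ → X → ℝ} {Lam : ℝ} (H : D.Hyp dg prr al T Lam) (ht : t < T) {j : ℕ} (hj : 1 ≤ j) (hj4 : j ≤ 4)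
    {w0 : Om W X β} (hw0 : tb.Ps.p w0 ≠ 0) {E : Om W X β → Prop} (fE : Fac (sgt D {b} (t + 1)) E) (hE : E w0)
    {A : Om W X β → Prop}
    (HA : RO tb v t c d Typ (fun u => XN tb v b (5 * t + j) u = XN tb v b (5 * t + j) w0) A) {L1 L2 Lo : ℝ}
    (K : Cst n al M R0 ep k (L1 + L2))
    (hLE : Real.log (tb.Ps.m (XN tb v b (5 * t + j)) w0 /
      tb.Ps.Pr (fun u => XN tb v b (5 * t + j) u = XN tb v b (5 * t + j) w0 ∧ E u)) ≤ L1)
    (hL2 : Real.log (tb.Ps.m (XN tb v b (5 * t)) w0 / tb.Ps.m (XN tb v b (5 * t + j)) w0) ≤ L2)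
    (hLo : Real.log (tb.Ps.m (yN tb v b t) w0 / tb.Ps.m (XN tb v b (5 * t)) w0) + (L1 + L2) ≤ Lo)
    (hnn : 0 ≤ ELr n N1 al M R0 ep k (L1 + L2) Lo) :
    (tb.Ps.cond fun u => XN tb v b (5 * t + j) u = XN tb v b (5 * t + j) w0 ∧ E u).Pr A ≤
      4100 * ELr n N1 al M R0 ep k (L1 + L2) Lo +
        1024 * tb.Ps.ce (XN tb v b (5 * t + j)) (fun u => ind (A u)) w0 := by
  classical
  have hv := R.codes
  set q := 5 * t + j with hq
  set VK : Om W X β → Prop := fun u => XN tb v b (5 * t) u = XN tb v b (5 * t) w0 ∧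
    D.qa (t + 1) u.1 = D.qa (t + 1) w0.1 ∧
    Um v (TP.nc q ∅) ∅ u.1 w0.2.2 = Um v (TP.nc q ∅) ∅ w0.1 w0.2.2 with hVK
  set DC : Om W X β → Prop := fun u => ∀ l, D.qb (t + 1) (u.2.2 l) = D.qb (t + 1) (w0.2.2 l) with hDC
  set E0 : Om W X β → Prop := fun u => E (u.1, w0.2.1, w0.2.2) with hE0
  have dec : ∀ u, XN tb v b q u = XN tb v b q w0 ↔ VK u ∧ DC u := fun u => XN_dec tb hv hj hj4
  have fVK : Fac (sgt (W := W) D {b} t) VK := fun u u' e => by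
    have h1 := (sgt_eq.1 e).1
    show (XN tb v b (5 * t) u = XN tb v b (5 * t) w0 ∧ D.qa (t + 1) u.1 = D.qa (t + 1) w0.1 ∧
        Um v (TP.nc q ∅) ∅ u.1 w0.2.2 = Um v (TP.nc q ∅) ∅ w0.1 w0.2.2) =
      (XN tb v b (5 * t) u' = XN tb v b (5 * t) w0 ∧ D.qa (t + 1) u'.1 = D.qa (t + 1) w0.1 ∧
        Um v (TP.nc q ∅) ∅ u'.1 w0.2.2 = Um v (TP.nc q ∅) ∅ w0.1 w0.2.2)
    rw [XN_sgt tb hv b t u u' e, h1]
  have fV : Fac (sgt (W := W) D {b} t) (fun u => VK u ∧ E0 u) := fun u u' e => by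
    have h1 := (sgt_eq.1 e).1
    show (VK u ∧ E (u.1, w0.2.1, w0.2.2)) = (VK u' ∧ E (u'.1, w0.2.1, w0.2.2))
    rw [fVK u u' e, h1]
  have hEE : ∀ u, VK u → DC u → (E u ↔ E0 u) := by
    intro u h1 h2
    refine Iff.of_eq (fE _ _ (sgt_eq.2 ⟨rfl, fun l hl => ?_, h2⟩))
    rw [Finset.mem_singleton.1 hl]
    exact congrArg (fun q => q.1.1) h1.1
  -- the relation of the letters
  set A2 : Om W X β → Prop := fun u => DC u ∧ ∃ u', tb.Ps.p u' ≠ 0 ∧ XN tb v b q u' = XN tb v b q w0 ∧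
    XLo tb v c (5 * t) u' = XLo tb v c (5 * t) u ∧ XLo tb v d (5 * t) u' = XLo tb v d (5 * t) u ∧
    (∀ l, tb.lab t l (u'.2.1 l) u'.1 u'.2.2 = tb.lab t l (u.2.1 l) u.1 u.2.2) ∧ A u' with hA2
  have hAA : ∀ u, tb.Ps.p u ≠ 0 → VK u → DC u → (A2 u ↔ A u) := by
    intro u hu h1 h2
    constructor
    · rintro ⟨-, u', g1, g2, g3, g4, g5, g6⟩
      exact HA.fac u' u g1 hu g2 ((dec u).2 ⟨h1, h2⟩) g3 g4 g5 g6
    · intro hA
      exact ⟨h2, u, hu, (dec u).2 ⟨h1, h2⟩, rfl, rfl, fun _ => rfl, hA⟩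
  have HR : RO tb v t c d Typ (fun u => XN tb v b (5 * t) u = XN tb v b (5 * t) w0) A2 := by
    refine ⟨fun u w hu hw hcu hcw z1 z2 z3 hA => ?_, fun w hw hcw hA => ?_⟩
    · obtain ⟨g0, u', g1, g2, g3, g4, g5, g6⟩ := hA
      refine ⟨fun l => ?_, u', g1, g2, g3.trans z1, g4.trans z2, fun l => (g5 l).trans (z3 l), g6⟩
      have hl : w.2.2 l = u.2.2 l := by
        rcases tri3 b c d l hbc hbd hcd with rfl | rfl | rfl
        · exact (congrArg (fun q => q.1.1) hcw).trans (congrArg (fun q => q.1.1) hcu).symm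
        · exact (congrArg Prod.fst z1).symm
        · exact (congrArg Prod.fst z2).symm
      rw [hl]
      exact g0 l
    · obtain ⟨g0, u', g1, g2, g3, g4, g5, g6⟩ := hA
      have h1 := HA.typ u' g1 g2 g6
      have a1 : (u'.2.2 c, Um v (TP.nc (5 * t) {c}) {c} u'.1 u'.2.2) =
        (w.2.2 c, Um v (TP.nc (5 * t) {c}) {c} w.1 w.2.2) := g3
      have a2 : (u'.2.2 d, Um v (TP.nc (5 * t) {d}) {d} u'.1 u'.2.2) =
        (w.2.2 d, Um v (TP.nc (5 * t) {d}) {d} w.1 w.2.2) := g4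
      rw [nc5, Prod.mk.injEq] at a1 a2
      rw [a1.2, a2.2, a1.1, a2.1] at h1
      exact h1
  have hm0 := tb.Ps.m_pos (sgt D {b} t) hw0
  have hm1 := tb.Ps.m_pos (sgt D {b} (t + 1)) hw0
  have hδ : tb.Ps.m (sgt D {b} t) w0 ≤ 4 * tb.Ps.m (sgt D {b} (t + 1)) w0 := by
    have h1 := sgt_half tb H {b} ht hw0
    have h2 : ({b} : Finset (Fin 3))ᶜ.card = 2 := by
      rw [Finset.card_compl, Finset.card_singleton]
      rfl
    rw [h2] at h1
    linarith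
  have sV : ∀ u, (VK u ∧ E0 u) → XN tb v b (5 * t) u = XN tb v b (5 * t) w0 := fun u hu => hu.1.1
  have i1 : tb.Ps.Pr (fun u => (VK u ∧ E0 u) ∧ DC u) * tb.Ps.m (sgt D {b} t) w0 =
    tb.Ps.m (sgt D {b} (t + 1)) w0 * tb.Ps.Pr (fun u => VK u ∧ E0 u) := halve tb w0 hw0 fV sV
  have i2 : tb.Ps.Pr (fun u => VK u ∧ DC u) * tb.Ps.m (sgt D {b} t) w0 =
    tb.Ps.m (sgt D {b} (t + 1)) w0 * tb.Ps.Pr VK := halve tb w0 hw0 fVK (fun u hu => hu.1)
  have e1 : tb.Ps.Pr (fun u => XN tb v b q u = XN tb v b q w0 ∧ E u) = tb.Ps.Pr (fun u => (VK u ∧ E0 u) ∧ DC u) := by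
    refine tb.Ps.E_congr fun u _ => congrArg ind (propext ?_)
    beta_reduce
    rw [dec u]
    constructor
    · rintro ⟨⟨g1, g2⟩, g3⟩
      exact ⟨⟨g1, (hEE u g1 g2).1 g3⟩, g2⟩
    · rintro ⟨⟨g1, g3⟩, g2⟩
      exact ⟨⟨g1, g2⟩, (hEE u g1 g2).2 g3⟩
  have e2 : tb.Ps.m (XN tb v b q) w0 = tb.Ps.Pr (fun u => VK u ∧ DC u) :=
    tb.Ps.E_congr fun u _ => congrArg ind (propext (dec u))
  have e3 : tb.Ps.Pr (fun u => (XN tb v b q u = XN tb v b q w0 ∧ E u) ∧ A u) =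
      tb.Ps.Pr (fun u => (VK u ∧ E0 u) ∧ A2 u) := by
    refine tb.Ps.E_congr fun u hu => congrArg ind (propext ?_)
    beta_reduce
    rw [dec u]
    constructor
    · rintro ⟨⟨⟨g1, g2⟩, g3⟩, g4⟩
      exact ⟨⟨g1, (hEE u g1 g2).1 g3⟩, (hAA u hu g1 g2).2 g4⟩
    · rintro ⟨⟨g1, g3⟩, g4⟩
      exact ⟨⟨⟨g1, g4.1⟩, (hEE u g1 g4.1).2 g3⟩, (hAA u hu g1 g4.1).1 g4⟩
  have e4 : tb.Ps.Pr (fun u => XN tb v b q u = XN tb v b q w0 ∧ A u) = tb.Ps.Pr (fun u => VK u ∧ A2 u) := by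
    refine tb.Ps.E_congr fun u hu => congrArg ind (propext ?_)
    beta_reduce
    rw [dec u]
    constructor
    · rintro ⟨⟨g1, g2⟩, g4⟩
      exact ⟨g1, (hAA u hu g1 g2).2 g4⟩
    · rintro ⟨g1, g4⟩
      exact ⟨⟨g1, g4.1⟩, (hAA u hu g1 g4.1).1 g4⟩
  have hVw : VK w0 ∧ E0 w0 := ⟨⟨rfl, rfl, rfl⟩, hE⟩
  have p1 : 0 < tb.Ps.Pr (fun u => VK u ∧ E0 u) := FP.Pr_pos_of (S := fun u => VK u ∧ E0 u) hw0 hVw
  have p2 : 0 < tb.Ps.Pr VK := FP.Pr_pos_of (S := VK) hw0 hVw.1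
  have p3 : 0 < tb.Ps.Pr (fun u => XN tb v b q u = XN tb v b q w0 ∧ E u) :=
    FP.Pr_pos_of (S := fun u => XN tb v b q u = XN tb v b q w0 ∧ E u) hw0 ⟨rfl, hE⟩
  have p4 := tb.Ps.m_pos (XN tb v b q) hw0
  have p5 := tb.Ps.m_pos (XN tb v b (5 * t)) hw0
  have l1 : tb.Ps.Pr (fun u => XN tb v b q u = XN tb v b q w0 ∧ E u) ≤ tb.Ps.Pr (fun u => VK u ∧ E0 u) := by
    rw [e1]
    exact tb.Ps.Pr_mono fun u _ hu => hu.1
  have l2 : tb.Ps.m (XN tb v b q) w0 ≤ tb.Ps.Pr VK := by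
    rw [e2]
    exact tb.Ps.Pr_mono fun u _ hu => hu.1
  have l3 : tb.Ps.Pr (fun u => XN tb v b q u = XN tb v b q w0 ∧ E u) ≤ tb.Ps.m (XN tb v b q) w0 :=
    tb.Ps.Pr_mono fun u _ hu => hu.1
  have g1 := Real.log_le_log p3 l1
  have g2 := Real.log_le_log p4 l2
  have g3 := Real.log_le_log p3 l3
  rw [Real.log_div p4.ne' p3.ne'] at hLE
  rw [Real.log_div p5.ne' p4.ne'] at hL2
  have hLV : Real.log (tb.Ps.m (XN tb v b (5 * t)) w0 / tb.Ps.Pr (fun u => VK u ∧ E0 u)) ≤ L1 + L2 := by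
    rw [Real.log_div p5.ne' p1.ne']
    linarith
  have hLV' : Real.log (tb.Ps.m (XN tb v b (5 * t)) w0 / tb.Ps.Pr VK) ≤ L1 + L2 := by
    rw [Real.log_div p5.ne' p2.ne']
    linarith
  have r := relO tb hn hN1 R hbc hbd hcd hM ht.le hw0 fV fVK hVw hVw.1 sV (fun u hu => hu.1) HR K hLV hLV' hLo
  rw [cond_pr p1.ne', cond_pr p2.ne', ← e3, ← e4] at r
  rw [cond_pr p3.ne', ce_ind]
  rw [← e1] at i1
  rw [← e2] at i2
  set a := tb.Ps.Pr (fun u => (XN tb v b q u = XN tb v b q w0 ∧ E u) ∧ A u)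
  set a' := tb.Ps.Pr (fun u => XN tb v b q u = XN tb v b q w0 ∧ A u)
  set pV := tb.Ps.Pr (fun u => VK u ∧ E0 u)
  set pK := tb.Ps.Pr VK
  set pE := tb.Ps.Pr (fun u => XN tb v b q u = XN tb v b q w0 ∧ E u)
  set mq := tb.Ps.m (XN tb v b q) w0
  set m0 := tb.Ps.m (sgt D {b} t) w0
  set m1 := tb.Ps.m (sgt D {b} (t + 1)) w0
  have f1 : a / pE = m0 / m1 * (a / pV) := by
    have : pE = m1 * pV / m0 := by rw [eq_div_iff hm0.ne']; exact i1
    rw [this]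
    field_simp
  have f2 : a' / mq = m0 / m1 * (a' / pK) := by
    have : mq = m1 * pK / m0 := by rw [eq_div_iff hm0.ne']; exact i2
    rw [this]
    field_simp
  have f3 : m0 / m1 ≤ 4 := by rw [div_le_iff₀ hm1]; exact hδ
  have f4 : 0 ≤ m0 / m1 := (div_pos hm0 hm1).le
  rw [f1, f2]
  have f5 := mul_le_mul_of_nonneg_left r f4
  have f6 : m0 / m1 * (1025 * ELr n N1 al M R0 ep k (L1 + L2) Lo) ≤ 4 * (1025 * ELr n N1 al M R0 ep k (L1 + L2) Lo) :=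
    mul_le_mul_of_nonneg_right f3 (by linarith)
  nlinarith

include hn hN1 R hbc hbd hcd in
/-- **RARITY INSIDE A LEVEL**, states `5 t + 1`, .., `5 t + 4` -/
theorem step1 {dg : ℕ → X → ℝ} {Lam : ℝ} (H : D.Hyp dg prr al T Lam) (ht : t < T) {j : ℕ} (hj : 1 ≤ j) (hj4 : j ≤ 4)
    {A C : Om W X β → Prop} (hC : Fac (XN tb v b (5 * t + j)) C) {L1 L2 Lo y : ℝ} (K : Cst n al M R0 ep k (L1 + L2))
    (hnn : 0 ≤ ELr n N1 al M R0 ep k (L1 + L2) Lo)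
    (hG : ∀ w, tb.Ps.p w ≠ 0 → C w → ROx tb v t c d M (fun u => XN tb v b (5 * t + j) u = XN tb v b (5 * t + j) w) A ∧
      Real.log (tb.Ps.m (XN tb v b (5 * t)) w / tb.Ps.m (XN tb v b (5 * t + j)) w) ≤ L2 ∧
      Real.log (tb.Ps.m (yN tb v b t) w / tb.Ps.m (XN tb v b (5 * t)) w) + (L1 + L2) ≤ Lo ∧
      4100 * ELr n N1 al M R0 ep k (L1 + L2) Lo + 1024 * tb.Ps.ce (XN tb v b (5 * t + j)) (fun u => ind (A u)) w < y) :
    tb.Ps.Pr (fun w => C w ∧ y ≤ tb.Ps.ce (sgt D {b} (t + 1)) (fun u => ind (A u)) w) ≤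
      Real.exp (-L1) * tb.Ps.Pr C := by
  have hK : Fac (sgt (W := W) D {b} (t + 1)) (XN tb v b (5 * t + j)) := fun u w e => by
    rw [XN_dec tb R.codes hj hj4]
    obtain ⟨h1, h2, h3⟩ := sgt_eq.1 e
    have h4 : sgt D {b} t u = sgt D {b} t w := sgt_eq.2 ⟨h1, h2, fun l => qb_mono (D := D) (Nat.le_succ t) (h3 l)⟩
    exact ⟨⟨XN_sgt tb R.codes b t u w h4, by rw [h1], by rw [h1]⟩, h3⟩
  refine rare_cls hK hC fun w0 hw0 hCw E fE hE hL => ?_
  obtain ⟨⟨Typ, hM, g1⟩, g2, g3, g4⟩ := hG w0 hw0 hCw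
  exact lt_of_le_of_lt (relK tb hn hN1 R hbc hbd hcd hM H ht hj hj4 hw0 fE hE g1 K hL g2 g3 hnn) g4

end one

end

end Pool.Agent.GMH.RarC
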