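import Pool.Agent.GMH.RarC

/-!
# GMH/RarC2 (helper30): RARITY AT THE EXACT VERTEX, CLASS MASS AT AN EARLIER STATE (row C5)

`5 t ≤ s2 ≤ s ≤ 5 t + 5`, sight of the state `s` at the exact vertex `b`, class mass of the relation at the state `s2`.
* **`relS`** : the mass in an event of the sight of `s` inside the class of `s` : `≤ 4100 ELr + 4096 P (A | class of s2)`;
* **`stepS`** : `Pr (C, y ≤ P (A | sight of s)) ≤ exp (-L1) Pr C` for every event `C` of the class of `s`;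
* `own0` : a relation with alive own letter has density `0` where the own letter is dead.
-/

set_option autoImplicit false
set_option linter.unusedSectionVars false

namespace Pool.Agent.GMH.RarC

open Finset Pool.Agent.PWZ Pool.Agent.M3 Pool.Agent.GM Pool.Agent.GM.Harm Pool.Agent.GMH
open Pool.Agent.GMH.TP Pool.Agent.GMH.TD Pool.Agent.GMH.Dy Pool.Agent.GMH.MVI Pool.Agent.GMH.MVIp
open Pool.Agent.GMH.RarX Pool.Agent.GMH.GamR

noncomputable section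

variable {X β γ φ : Type} [Fintype X] [Fintype β] [Fintype φ] [Nonempty X] [Nonempty β]
variable {D : HD (Fin 3) X β γ φ} {al : ℝ} {h : D.Thick al} {prr : ℕ → Fin 3 → φ → φ} {T : ℕ} {W : Type} [Fintype W]
variable (tb : Tab D prr T W) {v : ℕ → Finset (Fin 3) → X → (Fin 3 → β) → Pt (Fin 3) X β φ}
variable {b c d : Fin 3} {t s2 s : ℕ}

theorem XN_sgtS (hv : Codes D v) (b : Fin 3) (s : ℕ) : Fac (sgt (W := W) D {b} (TP.nn s)) (XN tb v b s) := by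
  intro x w hab
  have h1 := MVIp.XLq_sgt (T := T) tb hv (nc_le s {b}) (Finset.mem_singleton_self b) 0 x w hab
  have h2 := MVIp.NPq_sgt tb hv (le_refl (TP.nn s)) (nc_le s ∅) {b} 0 x w hab
  exact Prod.ext h1 h2

/-- the cells of `w0` at the state `s` -/
def DCs (D : HD (Fin 3) X β γ φ) (s : ℕ) (w0 u : Om W X β) : Prop :=
  ∀ l, D.qb (TP.nn s) (u.2.2 l) = D.qb (TP.nn s) (w0.2.2 l)

/-- the hidden point in the class of `w0` at the state `s` -/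
def VKs (v : ℕ → Finset (Fin 3) → X → (Fin 3 → β) → Pt (Fin 3) X β φ) (b : Fin 3) (t s : ℕ) (w0 u : Om W X β) : Prop :=
  XN tb v b (5 * t) u = XN tb v b (5 * t) w0 ∧ XN tb v b s (u.1, w0.2.1, w0.2.2) = XN tb v b s w0

theorem XN_pt {u w : Om W X β} (e : XN tb v b s u = XN tb v b s w) : u.2.2 b = w.2.2 b :=
  congrArg (fun q => q.1.1) e

theorem XN_cell {u w : Om W X β} (e : XN tb v b s u = XN tb v b s w) : DCs D s w u := by
  have h1 := congrArg (fun q => q.2.2.2) e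
  exact fun l => congrFun h1 l

/-- the class of the exact vertex at the state `s` -/
theorem XN_decS (hv : Codes D v) (h5 : 5 * t ≤ s) {u w0 : Om W X β} :
    XN tb v b s u = XN tb v b s w0 ↔ VKs tb v b t s w0 u ∧ DCs D s w0 u := by
  have key : u.2.2 b = w0.2.2 b → DCs D s w0 u → XN tb v b s u = XN tb v b s (u.1, w0.2.1, w0.2.2) := fun h1 h2 =>
    XN_sgtS tb hv b s _ _ (sgt_eq.2 ⟨rfl, fun l hl => by rw [Finset.mem_singleton.1 hl]; exact h1, h2⟩)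
  constructor
  · intro e
    have h1 := XN_pt tb e
    have h2 := XN_cell tb e
    exact ⟨⟨XN_mono tb b h5 u w0 e, (key h1 h2).symm.trans e⟩, h2⟩
  · rintro ⟨⟨h1, h2⟩, h3⟩
    exact (key (XN_pt tb h1) h3).trans h2

theorem VKs_fac (hv : Codes D v) (b : Fin 3) (t s : ℕ) (w0 : Om W X β) :
    Fac (sgt (W := W) D {b} t) (VKs tb v b t s w0) := fun u u' e => by
  have h1 := (sgt_eq.1 e).1
  show (XN tb v b (5 * t) u = XN tb v b (5 * t) w0 ∧ XN tb v b s (u.1, w0.2.1, w0.2.2) = XN tb v b s w0) =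
    (XN tb v b (5 * t) u' = XN tb v b (5 * t) w0 ∧ XN tb v b s (u'.1, w0.2.1, w0.2.2) = XN tb v b s w0)
  rw [XN_sgt tb hv b t u u' e, h1]

theorem VKs_mono (h5 : 5 * t ≤ s2) (hs : s2 ≤ s) {w0 u : Om W X β} (hu : VKs tb v b t s w0 u) : VKs tb v b t s2 w0 u :=
  ⟨hu.1, XN_mono tb b hs _ _ hu.2⟩

/-- the cells of the state `s` in the sight of the time `t` -/
theorem halveS {dg : ℕ → X → ℝ} {Lam : ℝ} (H : D.Hyp dg prr al T Lam) (hst : TP.nn s = t ∨ (TP.nn s = t + 1 ∧ t < T))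
    {w0 : Om W X β} (hw0 : tb.Ps.p w0 ≠ 0) : ∃ δ : ℝ, 0 < δ ∧ 1 ≤ 4 * δ ∧
    ∀ F : Om W X β → Prop, Fac (sgt D {b} t) F → (∀ u, F u → XN tb v b (5 * t) u = XN tb v b (5 * t) w0) →
      tb.Ps.Pr (fun u => F u ∧ DCs D s w0 u) = δ * tb.Ps.Pr F := by
  rcases hst with h1 | ⟨h1, h2⟩
  · refine ⟨1, one_pos, by norm_num, fun F fF sF => ?_⟩
    rw [one_mul]
    refine tb.Ps.E_congr fun u _ => congrArg ind (propext ⟨fun hh => hh.1, fun hh => ⟨hh, ?_⟩⟩)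
    have h3 := XN_cell tb (sF u hh)
    unfold DCs at h3 ⊢
    rw [nn5] at h3
    rw [h1]
    exact h3
  · have hm0 := tb.Ps.m_pos (sgt D {b} t) hw0
    have hm1 := tb.Ps.m_pos (sgt D {b} (t + 1)) hw0
    refine ⟨tb.Ps.m (sgt D {b} (t + 1)) w0 / tb.Ps.m (sgt D {b} t) w0, div_pos hm1 hm0, ?_, fun F fF sF => ?_⟩
    · have h3 := sgt_half tb H {b} h2 hw0
      have h4 : ({b} : Finset (Fin 3))ᶜ.card = 2 := by
        rw [Finset.card_compl, Finset.card_singleton]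
        rfl
      rw [h4] at h3
      rw [← mul_div_assoc, one_le_div hm0]
      linarith
    · have h3 := halve tb w0 hw0 fF sF
      have h4 : tb.Ps.Pr (fun u => F u ∧ DCs D s w0 u) =
          tb.Ps.Pr (fun u => F u ∧ ∀ l, D.qb (t + 1) (u.2.2 l) = D.qb (t + 1) (w0.2.2 l)) := by
        unfold DCs
        rw [h1]
      rw [h4, div_mul_eq_mul_div, eq_div_iff hm0.ne']
      exact h3

section one

variable {n N1 : ℝ} (hn : 1 ≤ n) (hN1 : 1 ≤ N1) (R : Run h (pr3 (Fin 3) n N1) (SS1 (Fin 3)) (AdmDep D) v)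
variable (hbc : b ≠ c) (hbd : b ≠ d) (hcd : c ≠ d)
variable {Typ : β → List (Pt (Fin 3) X β φ) → Prop} {M R0 ep : ℝ} {k : ℕ}
  (hM : ∀ c', ∃ s : Finset (List (Pt (Fin 3) X β φ)), (s.card : ℝ) ≤ M ∧ ∀ u, Typ c' u → u ∈ s)

include hn hN1 R hbc hbd hcd hM in
/-- **THE MASS IN AN EVENT OF THE SIGHT OF `s`, CLASS MASS AT `s2`** -/
theorem relS {dg : ℕ → X → ℝ} {Lam : ℝ} (H : D.Hyp dg prr al T Lam) (ht : t ≤ T)
    (hst : TP.nn s = t ∨ (TP.nn s = t + 1 ∧ t < T)) (h5 : 5 * t ≤ s2) (hs : s2 ≤ s)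
    {w0 : Om W X β} (hw0 : tb.Ps.p w0 ≠ 0) {E : Om W X β → Prop} (fE : Fac (sgt D {b} (TP.nn s)) E) (hE : E w0)
    {A : Om W X β → Prop} (HA : RO tb v t c d Typ (fun u => XN tb v b s2 u = XN tb v b s2 w0) A) {L1 L2 Lo : ℝ}
    (K : Cst n al M R0 ep k (L1 + L2))
    (hLE : Real.log (tb.Ps.m (XN tb v b s) w0 / tb.Ps.Pr (fun u => XN tb v b s u = XN tb v b s w0 ∧ E u)) ≤ L1)
    (hL2 : Real.log (tb.Ps.m (XN tb v b (5 * t)) w0 / tb.Ps.m (XN tb v b s) w0) ≤ L2)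
    (hLo : Real.log (tb.Ps.m (yN tb v b t) w0 / tb.Ps.m (XN tb v b (5 * t)) w0) + (L1 + L2) ≤ Lo) :
    (tb.Ps.cond fun u => XN tb v b s u = XN tb v b s w0 ∧ E u).Pr A ≤
      4 * (1025 * ELr n N1 al M R0 ep k (L1 + L2) Lo + 1024 * tb.Ps.ce (XN tb v b s2) (fun u => ind (A u)) w0) := by
  classical
  have hv := R.codes
  have h5s : 5 * t ≤ s := h5.trans hs
  set E0 : Om W X β → Prop := fun u => E (u.1, w0.2.1, w0.2.2) with hE0
  set VK : Om W X β → Prop := VKs tb v b t s w0 with hVK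
  set VK2 : Om W X β → Prop := VKs tb v b t s2 w0 with hVK2
  set DC : Om W X β → Prop := DCs D s w0 with hDC
  have dec : ∀ u, XN tb v b s u = XN tb v b s w0 ↔ VK u ∧ DC u := fun u => XN_decS tb hv h5s
  have dec2 : ∀ u, XN tb v b s2 u = XN tb v b s2 w0 ↔ VK2 u ∧ DCs D s2 w0 u := fun u => XN_decS tb hv h5
  have dcm : ∀ u, DC u → DCs D s2 w0 u := fun u hu l => qb_mono (D := D) (TP.nn_mono hs) (hu l)
  have fVK : Fac (sgt (W := W) D {b} t) VK := VKs_fac tb hv b t s w0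
  have fVK2 : Fac (sgt (W := W) D {b} t) VK2 := VKs_fac tb hv b t s2 w0
  have fV : Fac (sgt (W := W) D {b} t) (fun u => VK u ∧ E0 u) := fun u u' e => by
    have h1 := (sgt_eq.1 e).1
    show (VK u ∧ E (u.1, w0.2.1, w0.2.2)) = (VK u' ∧ E (u'.1, w0.2.1, w0.2.2))
    rw [fVK u u' e, h1]
  have hEE : ∀ u, VK u → DC u → (E u ↔ E0 u) := by
    intro u h1 h2
    refine Iff.of_eq (fE _ _ (sgt_eq.2 ⟨rfl, fun l hl => ?_, h2⟩))
    rw [Finset.mem_singleton.1 hl]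
    show u.2.2 b = w0.2.2 b
    exact XN_pt tb h1.1
  -- the relation of the letters
  set A2 : Om W X β → Prop := fun u => DC u ∧ ∃ u', tb.Ps.p u' ≠ 0 ∧ XN tb v b s2 u' = XN tb v b s2 w0 ∧
    XLo tb v c (5 * t) u' = XLo tb v c (5 * t) u ∧ XLo tb v d (5 * t) u' = XLo tb v d (5 * t) u ∧
    (∀ l, tb.lab t l (u'.2.1 l) u'.1 u'.2.2 = tb.lab t l (u.2.1 l) u.1 u.2.2) ∧ A u' with hA2
  have hAA : ∀ u, tb.Ps.p u ≠ 0 → VK2 u → A2 u → A u ∧ XN tb v b s2 u = XN tb v b s2 w0 := by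
    rintro u hu h1 ⟨h2, u', g1, g2, g3, g4, g5, g6⟩
    have h3 := (dec2 u).2 ⟨h1, dcm u h2⟩
    exact ⟨HA.fac u' u g1 hu g2 h3 g3 g4 g5 g6, h3⟩
  have hA3 : ∀ u, tb.Ps.p u ≠ 0 → VK u → DC u → (A2 u ↔ A u) := by
    intro u hu h1 h2
    refine ⟨fun hA => (hAA u hu (VKs_mono tb h5 hs h1) hA).1, fun hA => ?_⟩
    exact ⟨h2, u, hu, (dec2 u).2 ⟨VKs_mono tb h5 hs h1, dcm u h2⟩, rfl, rfl, fun _ => rfl, hA⟩
  have HR : RO tb v t c d Typ (fun u => XN tb v b (5 * t) u = XN tb v b (5 * t) w0) A2 := by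
    refine ⟨fun u w hu hw hcu hcw z1 z2 z3 hA => ?_, fun w hw hcw hA => ?_⟩
    · obtain ⟨g0, u', g1, g2, g3, g4, g5, g6⟩ := hA
      refine ⟨fun l => ?_, u', g1, g2, g3.trans z1, g4.trans z2, fun l => (g5 l).trans (z3 l), g6⟩
      have hl : w.2.2 l = u.2.2 l := by
        rcases tri3 b c d l hbc hbd hcd with rfl | rfl | rfl
        · exact (XN_pt tb hcw).trans (XN_pt tb hcu).symm
        · exact (congrArg Prod.fst z1).symm
        · exact (congrArg Prod.fst z2).symm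
      rw [hl]
      exact g0 l
    · obtain ⟨g0, u', g1, g2, g3, g4, g5, g6⟩ := hA
      have h1 := HA.typ u' g1 g2 g6
      have a1 : (u'.2.2 c, Um v (TP.nc (5 * t) {c}) {c} u'.1 u'.2.2) =
        (w.2.2 c, Um v (TP.nc (5 * t) {c}) {c} w.1 w.2.2) := g3
      have a2 : (u'.2.2 d, Um v (TP.nc (5 * t) {d}) {d} u'.1 u'.2.2) =
        (w.2.2 d, Um v (TP.nc (5 * t) {d}) {d} w.1 w.2.2) := g4
      rw [nc5, Prod.mk.injEq] at a1 a2
      rw [a1.2, a2.2, a1.1, a2.1] at h1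
      exact h1
  obtain ⟨δ, δ0, δ1, hδ⟩ := halveS tb (b := b) (v := v) H hst hw0
  have i1 := hδ _ fV (fun u hu => hu.1.1)
  have i2 := hδ _ fVK (fun u hu => hu.1)
  have e1 : tb.Ps.Pr (fun u => XN tb v b s u = XN tb v b s w0 ∧ E u) = tb.Ps.Pr (fun u => (VK u ∧ E0 u) ∧ DC u) := by
    refine tb.Ps.E_congr fun u _ => congrArg ind (propext ?_)
    beta_reduce
    rw [dec u]
    constructor
    · rintro ⟨⟨g1, g2⟩, g3⟩
      exact ⟨⟨g1, (hEE u g1 g2).1 g3⟩, g2⟩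
    · rintro ⟨⟨g1, g3⟩, g2⟩
      exact ⟨⟨g1, g2⟩, (hEE u g1 g2).2 g3⟩
  have e3 : tb.Ps.Pr (fun u => (XN tb v b s u = XN tb v b s w0 ∧ E u) ∧ A u) =
      tb.Ps.Pr (fun u => (VK u ∧ E0 u) ∧ A2 u) := by
    refine tb.Ps.E_congr fun u hu => congrArg ind (propext ?_)
    beta_reduce
    rw [dec u]
    constructor
    · rintro ⟨⟨⟨g1, g2⟩, g3⟩, g4⟩
      exact ⟨⟨g1, (hEE u g1 g2).1 g3⟩, (hA3 u hu g1 g2).2 g4⟩
    · rintro ⟨⟨g1, g3⟩, g4⟩
      exact ⟨⟨⟨g1, g4.1⟩, (hEE u g1 g4.1).2 g3⟩, (hA3 u hu g1 g4.1).1 g4⟩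
  have e4 : tb.Ps.Pr (fun u => VK2 u ∧ A2 u) ≤ tb.Ps.Pr (fun u => XN tb v b s2 u = XN tb v b s2 w0 ∧ A u) :=
    tb.Ps.E_mono fun u hu => ind_mono fun hh => by
      have h1 := hAA u hu hh.1 hh.2
      exact ⟨h1.2, h1.1⟩
  have hVw : VK w0 ∧ E0 w0 := ⟨⟨rfl, rfl⟩, hE⟩
  have hV2w : VK2 w0 := ⟨rfl, rfl⟩
  have p1 : 0 < tb.Ps.Pr (fun u => VK u ∧ E0 u) := FP.Pr_pos_of (S := fun u => VK u ∧ E0 u) hw0 hVw
  have p2 : 0 < tb.Ps.Pr VK2 := FP.Pr_pos_of (S := VK2) hw0 hV2w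
  have p3 : 0 < tb.Ps.Pr (fun u => XN tb v b s u = XN tb v b s w0 ∧ E u) :=
    FP.Pr_pos_of (S := fun u => XN tb v b s u = XN tb v b s w0 ∧ E u) hw0 ⟨rfl, hE⟩
  have p4 := tb.Ps.m_pos (XN tb v b s) hw0
  have p42 := tb.Ps.m_pos (XN tb v b s2) hw0
  have p5 := tb.Ps.m_pos (XN tb v b (5 * t)) hw0
  have l1 : tb.Ps.Pr (fun u => XN tb v b s u = XN tb v b s w0 ∧ E u) ≤ tb.Ps.Pr (fun u => VK u ∧ E0 u) := by
    rw [e1]
    exact tb.Ps.Pr_mono fun u _ hu => hu.1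
  have l2 : tb.Ps.m (XN tb v b s2) w0 ≤ tb.Ps.Pr VK2 :=
    tb.Ps.E_mono fun u _ => ind_mono fun hh => ((dec2 u).1 hh).1
  have l3 : tb.Ps.Pr (fun u => XN tb v b s u = XN tb v b s w0 ∧ E u) ≤ tb.Ps.m (XN tb v b s) w0 :=
    tb.Ps.Pr_mono fun u _ hu => hu.1
  have l4 : tb.Ps.m (XN tb v b s) w0 ≤ tb.Ps.m (XN tb v b s2) w0 :=
    tb.Ps.E_mono fun u _ => ind_mono fun hh => XN_mono tb b hs u w0 hh
  have g1 := Real.log_le_log p3 l1
  have g2 := Real.log_le_log p42 l2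
  have g3 := Real.log_le_log p3 l3
  have g4 := Real.log_le_log p4 l4
  rw [Real.log_div p4.ne' p3.ne'] at hLE
  rw [Real.log_div p5.ne' p4.ne'] at hL2
  have hLV : Real.log (tb.Ps.m (XN tb v b (5 * t)) w0 / tb.Ps.Pr (fun u => VK u ∧ E0 u)) ≤ L1 + L2 := by
    rw [Real.log_div p5.ne' p1.ne']
    linarith
  have hLV' : Real.log (tb.Ps.m (XN tb v b (5 * t)) w0 / tb.Ps.Pr VK2) ≤ L1 + L2 := by
    rw [Real.log_div p5.ne' p2.ne']
    linarith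
  have r := relO tb hn hN1 R hbc hbd hcd hM ht hw0 fV fVK2 hVw hV2w (fun u hu => hu.1.1) (fun u hu => hu.1) HR K hLV hLV' hLo
  rw [cond_pr p1.ne', cond_pr p2.ne', ← e3] at r
  rw [cond_pr p3.ne', ce_ind, e1, i1]
  set a := tb.Ps.Pr (fun u => (XN tb v b s u = XN tb v b s w0 ∧ E u) ∧ A u)
  set a' := tb.Ps.Pr (fun u => XN tb v b s2 u = XN tb v b s2 w0 ∧ A u)
  set a2 := tb.Ps.Pr (fun u => VK2 u ∧ A2 u)
  set pV := tb.Ps.Pr (fun u => VK u ∧ E0 u)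
  set pK := tb.Ps.Pr VK2
  set mq := tb.Ps.m (XN tb v b s2) w0
  have f0 : a2 / pK ≤ a' / mq := by
    have h0 : 0 ≤ a' := tb.Ps.Pr_nonneg _
    calc a2 / pK ≤ a' / pK := div_le_div_of_nonneg_right e4 p2.le
      _ ≤ a' / mq := div_le_div_of_nonneg_left h0 p42 l2
  have f1 : a / (δ * pV) = 1 / δ * (a / pV) := by
    field_simp
  have f3 : 1 / δ ≤ 4 := by rw [div_le_iff₀ δ0]; exact δ1
  have f4 : 0 ≤ a / pV := div_nonneg (tb.Ps.Pr_nonneg _) p1.le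
  rw [f1]
  have f5 := mul_le_mul_of_nonneg_right f3 f4
  linarith

include hn hN1 R hbc hbd hcd in
/-- **RARITY AT THE STATE `s`, CLASS MASS AT THE STATE `s2`** -/
theorem stepS {dg : ℕ → X → ℝ} {Lam : ℝ} (H : D.Hyp dg prr al T Lam) (ht : t ≤ T)
    (hst : TP.nn s = t ∨ (TP.nn s = t + 1 ∧ t < T)) (h5 : 5 * t ≤ s2) (hs : s2 ≤ s)
    {A C : Om W X β → Prop} (hC : Fac (XN tb v b s) C) {L1 L2 Lo y : ℝ} (K : Cst n al M R0 ep k (L1 + L2))
    (hG : ∀ w, tb.Ps.p w ≠ 0 → C w → ROx tb v t c d M (fun u => XN tb v b s2 u = XN tb v b s2 w) A ∧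
      Real.log (tb.Ps.m (XN tb v b (5 * t)) w / tb.Ps.m (XN tb v b s) w) ≤ L2 ∧
      Real.log (tb.Ps.m (yN tb v b t) w / tb.Ps.m (XN tb v b (5 * t)) w) + (L1 + L2) ≤ Lo ∧
      4 * (1025 * ELr n N1 al M R0 ep k (L1 + L2) Lo + 1024 * tb.Ps.ce (XN tb v b s2) (fun u => ind (A u)) w) < y) :
    tb.Ps.Pr (fun w => C w ∧ y ≤ tb.Ps.ce (sgt D {b} (TP.nn s)) (fun u => ind (A u)) w) ≤
      Real.exp (-L1) * tb.Ps.Pr C := by
  refine rare_cls (XN_sgtS tb R.codes b s) hC fun w0 hw0 hCw E fE hE hL => ?_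
  obtain ⟨⟨Typ, hM, g1⟩, g2, g3, g4⟩ := hG w0 hw0 hCw
  exact lt_of_le_of_lt (relS tb hn hN1 R hbc hbd hcd hM H ht hst h5 hs hw0 fE hE g1 K hL g2 g3) g4

end one

/-- density zero where the event is impossible -/
theorem ce_zero {Om κ : Type*} [Fintype Om] {P : FP Om} {K : Om → κ} {A B : Om → Prop} (hB : Fac K B)
    (hA : ∀ u, P.p u ≠ 0 → A u → B u) {w : Om} (hw : ¬ B w) : P.ce K (fun u => ind (A u)) w = 0 := by
  rw [ce_ind]
  have : P.Pr (fun u => K u = K w ∧ A u) = 0 := by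
    unfold FP.Pr
    rw [P.E_congr (g := fun _ => 0) fun u hu => ind_not fun (hh : K u = K w ∧ A u) => hw (by
      rw [← hB u w hh.1]
      exact hA u hu hh.2), P.E_const]
  rw [this, zero_div]

end

end Pool.Agent.GMH.RarC
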