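import Pool.Agent.GMH.RarN4
import Pool.Agent.GMH.DynF

/-!
# GMH/RarN5 (helper88): THE KINDS AT THE NODE (row C5, node)

* `half8`, `low1`, `low5` : shares of the classes: light digit excluded (`hvy lam`), heavy public value (`hz`): `exp (-(lam + 4))`;
* `Es q u w` : the same public class, letters and labels at the state `q`; `Es_mono` : then at every older state, too; `Es_Z`,
  `Es_F` : the same thin labels, the same tops;
* `Sn q A` : `A` is seen at the state `q`; `Sn_kv3`, `Sn_kv2`, `Sn_Alv`, ..;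
* `RnO_of` : a seen relation of alive tuples is a relation `RnO`;
* `step_H` : **per step** `Pr (C, y ≤ P (A | a, node at s)) ≤ exp (-L1) Pr C` for `s ∈ {q, q+1}`, class mass at `q`.
-/

set_option autoImplicit false
set_option linter.unusedSectionVars false

namespace Pool.Agent.GMH.RarN

open Finset Pool.Agent.PWZ Pool.Agent.M3 Pool.Agent.GM Pool.Agent.GM.Harm Pool.Agent.GMH
open Pool.Agent.GMH.Dy Pool.Agent.GMH.MVI Pool.Agent.GMH.MVIp Pool.Agent.GMH.KF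

section om

variable {X β γ φ : Type} [Fintype X] [Fintype β] [Fintype φ] [Nonempty X] [Nonempty β]
variable {D : HD (Fin 3) X β γ φ} {al : ℝ} {h : D.Thick al} {prr : ℕ → Fin 3 → φ → φ} {T : ℕ} {W : Type} [Fintype W]
variable {tb : Tab D prr T W} {v : ℕ → Finset (Fin 3) → X → (Fin 3 → β) → Pt (Fin 3) X β φ}

/-! ### shares of the classes -/

/-- the new cells -/
theorem half8 {dg : ℕ → X → ℝ} {Lam : ℝ} (H : D.Hyp dg prr al T Lam) {t : ℕ} (ht : t < T) {w : Om W X β}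
    (hw : tb.Ps.p w ≠ 0) {κ : Type*} {M : Om W X β → κ} (hM : Fac (sgt D ∅ t) M) (hM' : Fac M (ndE D ∅ t)) :
    tb.Ps.m M w ≤ 8 * tb.Ps.m (fun u => (GamR.Yc D (t + 1) u, M u)) w := by
  have hY : Fac (fun w : Om W X β => w.2.2) (GamR.Yc (W := W) D (t + 1)) := GamR.Yc_fac (W := W) (X := X) (D := D) (t + 1)
  have k1 := pr_key tb ∅ t hM hM' hY w
  have k2 := pr_key tb ∅ t (M := sgt D ∅ t) (fun _ _ e => e) (sgt_ndE ∅ t) hY w
  have h1 := sgt_half tb H ∅ ht hw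
  have h2 : ((∅ : Finset (Fin 3))ᶜ).card = 3 := by decide
  rw [h2] at h1
  have e1 : tb.Ps.m (fun u => (GamR.Yc D (t + 1) u, sgt D ∅ t u)) w = tb.Ps.m (sgt D ∅ (t + 1)) w := by
    unfold FP.m
    refine tb.Ps.E_congr fun u _ => ?_
    congr 1
    refine propext ⟨fun e => ?_, fun e => ?_⟩
    · have a1 := (Prod.mk.inj e).1
      have a2 := (Prod.mk.inj e).2
      exact sgt_eq.2 ⟨(sgt_eq.1 a2).1, fun j hj => absurd hj (Finset.notMem_empty j), fun j => congrFun a1 j⟩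
    · obtain ⟨a1, a2, a3⟩ := sgt_eq.1 e
      exact Prod.ext (funext a3) (sgt_eq.2 ⟨a1, fun j hj => absurd hj (Finset.notMem_empty j), fun j => D.rb t _ _ (a3 j)⟩)
  rw [e1] at k2
  have p1 := tb.Ps.m_pos (sgt D ∅ t) hw
  have p2 := tb.Ps.m_pos M hw
  set k0 := tb.Ps.ce (ndE D ∅ t) (fun u => ind (GamR.Yc D (t + 1) u = GamR.Yc D (t + 1) w)) w with hk0
  have h3 : 1 ≤ 8 * k0 := by
    have h4 : 1 * tb.Ps.m (sgt D ∅ t) w ≤ 8 * k0 * tb.Ps.m (sgt D ∅ t) w := by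
      rw [mul_assoc, ← k2]
      linarith
    exact le_of_mul_le_mul_right h4 p1
  rw [k1]
  have := mul_le_mul_of_nonneg_right h3 p2.le
  linarith

/-- the share of the class at `5 t + 1` -/
theorem low1 (hv : Codes D v) {dg : ℕ → X → ℝ} {Lam : ℝ} (H : D.Hyp dg prr al T Lam) {t : ℕ} (ht : t < T) {w : Om W X β}
    (hw : tb.Ps.p w ≠ 0) {lam : ℝ} (hl : GamR.hvy tb v dg lam t w) :
    Real.exp (-(lam + 3)) * tb.Ps.m (NPo tb v (5 * t)) w ≤ tb.Ps.m (NPo tb v (5 * t + 1)) w := by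
  have h1 := half8 (tb := tb) H ht hw (GamR.DN_sgt tb hv dg t) (GamR.DN_nd tb dg t)
  have e1 : tb.Ps.m (NPo tb v (5 * t + 1)) w = tb.Ps.m (fun u => (GamR.Yc D (t + 1) u, GamR.DN tb v dg t u)) w := by
    unfold FP.m
    refine tb.Ps.E_congr fun u _ => ?_
    congr 1
    exact propext (GamR.NP51_dig tb H ht)
  rw [e1]
  have h2 : Real.exp (-lam) * tb.Ps.m (NPo tb v (5 * t)) w ≤ tb.Ps.m (GamR.DN tb v dg t) w := hl
  have h3 : Real.exp (-(lam + 3)) ≤ Real.exp (-lam) / 8 := by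
    rw [neg_add, Real.exp_add, div_eq_mul_inv]
    refine mul_le_mul_of_nonneg_left ?_ (Real.exp_pos _).le
    rw [Real.exp_neg]
    refine inv_anti₀ (by norm_num) ?_
    have h4 := Real.exp_one_gt_d9
    have h5 : Real.exp 3 = Real.exp 1 * Real.exp 1 * Real.exp 1 := by rw [← Real.exp_add, ← Real.exp_add]; norm_num
    rw [h5]
    nlinarith
  have p0 := (tb.Ps.m_pos (NPo tb v (5 * t)) hw).le
  have h4 := mul_le_mul_of_nonneg_right h3 p0
  linarith

/-- the level `t` has a heavy public value -/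
def hz (tb : Tab D prr T W) (v : ℕ → Finset (Fin 3) → X → (Fin 3 → β) → Pt (Fin 3) X β φ) (t : ℕ) (w : Om W X β) : Prop :=
  tb.Ps.m (NPo tb v (5 * t + 1)) w ≤ 2 * tb.Ps.m (NPo tb v (5 * t + 2)) w

theorem NPo_m_congr {q q' : ℕ} (h1 : TP.nc q ∅ = TP.nc q' ∅) (h2 : TP.nn q = TP.nn q') : NPo tb v q = NPo tb v q' := by
  funext w
  show (Um v (TP.nc q ∅) ∅ w.1 w.2.2, (D.qa (TP.nn q) w.1, fun j => D.qb (TP.nn q) (w.2.2 j))) =
    (Um v (TP.nc q' ∅) ∅ w.1 w.2.2, (D.qa (TP.nn q') w.1, fun j => D.qb (TP.nn q') (w.2.2 j)))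
  rw [h1, h2]

/-- the public class does not change after the public code -/
theorem NPo_2 {t j : ℕ} (h2 : 2 ≤ j) (h5 : j ≤ 5) : NPo tb v (5 * t + j) = NPo tb v (5 * t + 2) :=
  NPo_m_congr (by rw [TP.nc_emp t h2 h5, TP.nc_emp t le_rfl (by norm_num)])
    (by rw [TP.nn_j t (by omega) h5, TP.nn_j t (by norm_num) (by norm_num)])

/-- **the share of the class at `5 t + j`** -/
theorem low5 (hv : Codes D v) {dg : ℕ → X → ℝ} {Lam : ℝ} (H : D.Hyp dg prr al T Lam) {t j : ℕ} (ht : t < T) (hj : j ≤ 5)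
    {w : Om W X β} (hw : tb.Ps.p w ≠ 0) {lam : ℝ} (hlam : 0 ≤ lam) (hl : 1 ≤ j → GamR.hvy tb v dg lam t w)
    (hh : 2 ≤ j → hz tb v t w) :
    Real.exp (-(lam + 4)) * tb.Ps.m (NPo tb v (5 * t)) w ≤ tb.Ps.m (NPo tb v (5 * t + j)) w := by
  have p0 := tb.Ps.m_pos (NPo tb v (5 * t)) hw
  rcases Nat.eq_zero_or_pos j with rfl | hj1
  · have h1 : Real.exp (-(lam + 4)) ≤ 1 := Real.exp_le_one_iff.2 (by linarith)
    have := mul_le_mul_of_nonneg_right h1 p0.le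
    rw [add_zero]
    linarith
  · have h1 := low1 (tb := tb) hv H ht hw (hl hj1)
    have h3 : Real.exp (-(lam + 4)) ≤ Real.exp (-(lam + 3)) / 2 := by
      have e1 : -(lam + 4) = -(lam + 3) + -1 := by ring
      rw [e1, Real.exp_add, div_eq_mul_inv]
      refine mul_le_mul_of_nonneg_left ?_ (Real.exp_pos _).le
      rw [Real.exp_neg]
      refine inv_anti₀ (by norm_num) ?_
      have := Real.exp_one_gt_d9
      linarith
    have h4 := mul_le_mul_of_nonneg_right h3 p0.le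
    rcases Nat.lt_or_ge j 2 with hj2 | hj2
    · obtain rfl : j = 1 := by omega
      have := mul_nonneg (Real.exp_pos (-(lam + 3))).le p0.le
      linarith
    · have h5 : tb.Ps.m (NPo tb v (5 * t + 1)) w ≤ 2 * tb.Ps.m (NPo tb v (5 * t + 2)) w := hh hj2
      rw [NPo_2 hj2 hj]
      linarith

/-! ### what is seen at a state -/

/-- the same public class, letters and labels at the state `q` -/
def Es (tb : Tab D prr T W) (v : ℕ → Finset (Fin 3) → X → (Fin 3 → β) → Pt (Fin 3) X β φ) (q : ℕ) (u w : Om W X β) : Prop :=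
  NPo tb v q u = NPo tb v q w ∧ (∀ e, XLo tb v e q u = XLo tb v e q w) ∧
    ∀ e, (tb.pt (q / 5) u).2.2 e = (tb.pt (q / 5) w).2.2 e

theorem lab_mono {t : ℕ} : ∀ n, t + n ≤ T → ∀ {u w : Om W X β}, tb.Ps.p u ≠ 0 → tb.Ps.p w ≠ 0 →
    (∀ e, (tb.pt (t + n) u).2.2 e = (tb.pt (t + n) w).2.2 e) → ∀ e, (tb.pt t u).2.2 e = (tb.pt t w).2.2 e := by
  intro n
  induction n with
  | zero => exact fun _ _ _ _ _ hl => hl
  | succ n ih =>
    intro hn u w hu hw hl
    refine ih (by omega) hu hw fun e => ?_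
    have a1 := old_pt (tb := tb) (t := t + n) (by omega) hu
    have a2 := old_pt (tb := tb) (t := t + n) (by omega) hw
    rw [← a1, ← a2]
    show prr (t + n) e ((tb.pt (t + n + 1) u).2.2 e) = prr (t + n) e ((tb.pt (t + n + 1) w).2.2 e)
    rw [show t + n + 1 = t + (n + 1) by ring, hl e]

theorem XLo_mono {q q' : ℕ} (hq : q ≤ q') {e : Fin 3} {u w : Om W X β} (hu : XLo tb v e q' u = XLo tb v e q' w) :
    XLo tb v e q u = XLo tb v e q w := by
  have g1 : u.2.2 e = w.2.2 e := congrArg Prod.fst hu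
  have g2 : Um v (TP.nc q' {e}) {e} u.1 u.2.2 = Um v (TP.nc q' {e}) {e} w.1 w.2.2 := congrArg Prod.snd hu
  have g3 := V3.Um_older (v := v) (TP.nc_mono hq (TP.pth_sing e)) (I := {e}) (a := tb.pt 0 u) (b := tb.pt 0 w) g2
  exact Prod.ext g1 g3

theorem Es_mono {q q' : ℕ} (hq : q ≤ q') (hT : q' ≤ 5 * T + 4) {u w : Om W X β} (hu : tb.Ps.p u ≠ 0) (hw : tb.Ps.p w ≠ 0)
    (he : Es tb v q' u w) : Es tb v q u w := by
  refine ⟨NPo_mono tb hq he.1, fun e => XLo_mono hq (he.2.1 e), ?_⟩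
  have h1 : q / 5 ≤ q' / 5 := Nat.div_le_div_right hq
  obtain ⟨n, hn⟩ := Nat.exists_eq_add_of_le h1
  refine lab_mono n (by omega) hu hw ?_
  rw [← hn]
  exact he.2.2

theorem ZQ_of {q : ℕ} {a b : Pt (Fin 3) X β φ} (hN : TP.NPq D v q a = TP.NPq D v q b)
    (hX : ∀ e, TP.XLq v q e a = TP.XLq v q e b) : TP.ZQ D v q a = TP.ZQ D v q b := by
  have hy : ∀ e, a.2.1 e = b.2.1 e := fun e => congrArg Prod.fst (hX e)
  have hN2 := Prod.mk.inj hN
  unfold TP.ZQ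
  refine Prod.ext (funext fun J => ?_) ?_
  · show TP.SL (φ := φ) v q J.1 a = TP.SL v q J.1 b
    unfold TP.SL
    rw [TP.TriB.LL_thin J.2]
    have key : ∀ J : Finset (Fin 3), J.card ≤ 1 → J = ∅ ∨ J = {0} ∨ J = {1} ∨ J = {2} := by decide
    have hc : ∀ e : Fin 3, Um v (TP.nc q {e}) {e} a.1 a.2.1 = Um v (TP.nc q {e}) {e} b.1 b.2.1 := fun e =>
      congrArg Prod.snd (hX e)
    rcases key J.1 J.2 with h1 | h1 | h1 | h1
    · rw [h1]; exact hN2.1
    · rw [h1]; exact hc 0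
    · rw [h1]; exact hc 1
    · rw [h1]; exact hc 2
  · show WW D (TP.nn q) a = WW D (TP.nn q) b
    unfold WW
    exact Prod.ext (funext hy) hN2.2

theorem Es_Z {q : ℕ} {u w : Om W X β} (he : Es tb v q u w) :
    TP.ZQ D v q (tb.pt (q / 5) u) = TP.ZQ D v q (tb.pt (q / 5) w) := ZQ_of he.1 he.2.1

theorem Es_F {n N1 : ℝ} (hn : 1 ≤ n) (hN1 : 1 ≤ N1) (R : Run h (pr3 (Fin 3) n N1) (SS1 (Fin 3)) (AdmDep D) v)
    {dg : ℕ → X → ℝ} {Lam : ℝ} (H : D.Hyp dg prr al T Lam) {q : ℕ} (hT : q ≤ 5 * T + 4) {u w : Om W X β}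
    (hu : tb.Ps.p u ≠ 0) (hw : tb.Ps.p w ≠ 0) (he : Es tb v q u w) (i : Fin 3) :
    TP.FQ v (q / 5) i (tb.pt (q / 5) u) = TP.FQ v (q / 5) i (tb.pt (q / 5) w) := by
  have hq : q / 5 ≤ T := by omega
  have H0 : Pul tb.Ps (D.P h (q / 5)) (tb.pt (q / 5)) := pul_pt h tb hq
  refine (TP.top_name H R (fun l => mem_SS1.2 (Finset.erase_ne_self.2 (mem_univ l))) (fun hh => (mem_SS1.1 hh) rfl)
    (fun l => zero_lt_one.trans_le (pr3_one hn hN1 _)) hq (q := q) (by omega) (H0.ne hu) (H0.ne hw)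
    (TP.ZQ_Zb q i _ _ (Es_Z he))).2 (he.2.2 i)

/-- `A` is seen at the state `q` -/
def Sn (tb : Tab D prr T W) (v : ℕ → Finset (Fin 3) → X → (Fin 3 → β) → Pt (Fin 3) X β φ) (q : ℕ) (A : Om W X β → Prop) :
    Prop :=
  ∀ u w, tb.Ps.p u ≠ 0 → tb.Ps.p w ≠ 0 → Es tb v q u w → A u → A w

theorem Es.symm {q : ℕ} {u w : Om W X β} (he : Es tb v q u w) : Es tb v q w u :=
  ⟨he.1.symm, fun e => (he.2.1 e).symm, fun e => (he.2.2 e).symm⟩

theorem Sn.mono {q q' : ℕ} (hq : q ≤ q') (hT : q' ≤ 5 * T + 4) {A : Om W X β → Prop} (hA : Sn tb v q A) : Sn tb v q' A :=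
  fun u w hu hw he => hA u w hu hw (Es_mono hq hT hu hw he)

theorem Sn.and {q : ℕ} {A B : Om W X β → Prop} (hA : Sn tb v q A) (hB : Sn tb v q B) : Sn tb v q (fun w => A w ∧ B w) :=
  fun u w hu hw he hh => ⟨hA u w hu hw he hh.1, hB u w hu hw he hh.2⟩

theorem Sn.not {q : ℕ} {A : Om W X β → Prop} (hA : Sn tb v q A) : Sn tb v q (fun w => ¬ A w) :=
  fun u w hu hw he hh h1 => hh (hA w u hw hu he.symm h1)

/-- functions of the public information -/
theorem Sn_NP {q : ℕ} {A : Om W X β → Prop} (hA : Fac (NPo tb v q) A) : Sn tb v q A :=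
  fun u w _ _ he hh => (iff_of_eq (hA u w he.1)).1 hh

/-- functions of the class of one vertex -/
theorem Sn_XN {q : ℕ} {i : Fin 3} {A : Om W X β → Prop} (hA : Fac (fun w => (XLo tb v i q w, NPo tb v q w)) A) : Sn tb v q A :=
  fun u w _ _ he hh => (iff_of_eq (hA u w (Prod.ext (he.2.1 i) he.1))).1 hh

/-- the relation at a random time -/
theorem Sn_time {q : ℕ} {τ : Om W X β → ℕ} {B : ℕ → Om W X β → Prop}
    (hτ : ∀ u w, tb.Ps.p u ≠ 0 → tb.Ps.p w ≠ 0 → Es tb v q u w → τ u = τ w) (hB : ∀ u, tb.Ps.p u ≠ 0 → Sn tb v q (B (τ u))) :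
    Sn tb v q (fun w => B (τ w) w) := fun u w hu hw he hh => by
  have h1 := hB u hu u w hu hw he hh
  rw [hτ u w hu hw he] at h1
  exact h1

theorem Sn_AQ (p : V3.AP) (q : ℕ) : Sn tb v q (fun w => TP.AQ h v p q (tb.pt (q / 5) w)) := fun u w _ _ he hh =>
  (iff_of_eq (TP.AQ_fac h p q _ _ (Es_Z he))).1 hh

theorem Sn_Alv (p : V3.AP) {q : ℕ} (hT : q ≤ 5 * T + 4) : Sn tb v q (Alv h v tb p q) := fun u w hu hw he hh q' hq' =>
  (Sn_AQ (h := h) (tb := tb) (v := v) p q').mono hq' hT u w hu hw he (hh q' hq')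

section kinds

variable {n N1 : ℝ} (hn : 1 ≤ n) (hN1 : 1 ≤ N1) (R : Run h (pr3 (Fin 3) n N1) (SS1 (Fin 3)) (AdmDep D) v)
  {dg : ℕ → X → ℝ} {Lam : ℝ} (H : D.Hyp dg prr al T Lam)

include hn hN1 R H

theorem Sn_kvq3 (c : KC) (κ : Fin 10) (o : Option (Fin 3)) {q : ℕ} (hT : q ≤ 5 * T + 4) : Sn tb v q (kvq3 h v tb c κ o q) := by
  intro u w hu hw he hh
  have h1 : tup (TP.FQ v (q / 5)) (tb.pt (q / 5) u) = tup (TP.FQ v (q / 5)) (tb.pt (q / 5) w) :=
    funext fun i => Es_F hn hN1 R H hT hu hw he i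
  unfold kvq3 at hh ⊢
  rw [← h1]
  exact (iff_of_eq (kvF_fac c κ o (tup (TP.FQ v (q / 5)) (tb.pt (q / 5) u)) _ _ (Es_Z he))).1 hh

theorem Sn_kvq2 (c : KC) (i : Fin 3) (κ : Fin 10) (o : Option (Fin 3)) {q : ℕ} (hT : q ≤ 5 * T + 4) :
    Sn tb v q (kvq2 h v tb c i κ o q) := by
  intro u w hu hw he hh
  have h1 : tup (Fo (TP.FQ v (q / 5)) i) (tb.pt (q / 5) u) = tup (Fo (TP.FQ v (q / 5)) i) (tb.pt (q / 5) w) := by
    funext j
    unfold tup Fo
    rw [Es_F hn hN1 R H hT hu hw he j]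
  unfold kvq2 at hh ⊢
  rw [← h1]
  exact (iff_of_eq (kvF_fac c κ o (tup (Fo (TP.FQ v (q / 5)) i) (tb.pt (q / 5) u)) _ _ (Es_Z he))).1 hh

end kinds

/-- the state of the tables is seen at the start -/
theorem eT_fac (τ : ℕ) : Fac (NPo tb v τ) (eT v tb τ) := by
  intro u w he
  unfold eT
  by_cases h2 : 2 ≤ τ % 5
  · have a1 : NPo tb v (5 * (τ / 5) + 1) u = NPo tb v (5 * (τ / 5) + 1) w := NPo_mono tb (by omega) he
    have a2 : NPo tb v (5 * (τ / 5) + 2) u = NPo tb v (5 * (τ / 5) + 2) w := NPo_mono tb (by omega) he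
    have e1 : ltL v tb τ u = ltL v tb τ w := by
      unfold ltL
      unfold FP.m
      rw [a1, a2]
    by_cases h3 : ltL v tb τ w
    · rw [if_pos h3, if_pos (by rw [e1]; exact h3)]
    · rw [if_neg h3, if_neg (by rw [e1]; exact h3)]
  · have e1 : ∀ x, ¬ ltL v tb τ x := fun x hh => h2 hh.1
    rw [if_neg (e1 u), if_neg (e1 w)]

/-- the state `q` has the tables of the start `τ` -/
theorem Sn_eT {q τ : ℕ} (hτ : τ ≤ q) {B : ℕ → Om W X β → Prop} (hB : ∀ e ≤ q, Sn tb v q (B e)) :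
    Sn tb v q (fun w => eT v tb τ w ≤ q ∧ B (eT v tb τ w) w) := by
  intro u w hu hw he hh
  have h1 : eT v tb τ u = eT v tb τ w := eT_fac τ u w (NPo_mono tb hτ he.1)
  obtain ⟨h2, h3⟩ := hh
  have h4 := hB _ h2 u w hu hw he h3
  rw [h1] at h2 h4
  exact ⟨h2, h4⟩

/-- the tables of a start `τ ≤ q` are tables of states `≤ q`, if the level of `q` is heavy or `q` is before the public code -/
theorem eT_le {q τ : ℕ} (hτ : τ ≤ q) {w : Om W X β} (hh : 2 ≤ q % 5 → hz tb v (q / 5) w) : eT v tb τ w ≤ q := by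
  unfold eT
  split_ifs with h1
  · by_contra hc
    have h2 : τ / 5 = q / 5 := by omega
    have h3 : 2 ≤ q % 5 := by have := h1.1; omega
    have h4 := hh h3
    have h5 := h1.2
    unfold hz at h4
    rw [h2] at h5
    linarith
  · exact hτ

/-- in every case they are tables of states up to the end of the level -/
theorem eT_le' {q τ : ℕ} (hτ : τ ≤ q) (w : Om W X β) : eT v tb τ w ≤ 5 * (q / 5) + 5 := by
  unfold eT
  split_ifs with h1
  · have : τ / 5 ≤ q / 5 := Nat.div_le_div_right hτ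
    omega
  · omega

/-- **a seen relation of alive tuples** -/
theorem RnO_of {p : V3.AP} {t q s2 : ℕ} (hq : 5 * t ≤ q) (hq' : q / 5 = t) (hnc : ∀ e, TP.nc q {e} = t + 1) (hs2 : q ≤ s2) (w0 : Om W X β)
    {A : Om W X β → Prop} (hA : Sn tb v q A) (hal : ∀ w, A w → Alv h v tb p q w) : RnO tb h v t s2 p.X0 w0 A where
  fac := fun u w hu hw h1 h2 h3 h4 h5 => by
    refine hA u w hu hw ⟨NPo_mono tb hs2 (h1.trans h2.symm), fun e => ?_, ?_⟩ h5
    · have h6 : XLo tb v e (5 * t) u = XLo tb v e (5 * t) w := h3 e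
      have g1 : u.2.2 e = w.2.2 e := congrArg Prod.fst h6
      have g2 : Um v (TP.nc (5 * t) {e}) {e} u.1 u.2.2 = Um v (TP.nc (5 * t) {e}) {e} w.1 w.2.2 := congrArg Prod.snd h6
      rw [GamR.nc5] at g2
      show (u.2.2 e, Um v (TP.nc q {e}) {e} u.1 u.2.2) = (w.2.2 e, Um v (TP.nc q {e}) {e} w.1 w.2.2)
      rw [hnc e, g1, g2]
    · rw [hq']
      exact h4
  typ := fun w _ _ hAw e => by
    have h1 := hal w hAw (5 * t) hq
    rw [show 5 * t / 5 = t by omega] at h1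
    exact h1.1 e

/-- **PER STEP** : state `q = 5 t + j`, `j ≤ 4`, sight and event `C` at `s`, `q ≤ s ≤ 5 t + 5`, class mass at `q` -/
theorem step_H {n N1 : ℝ} (hn : 1 ≤ n) (hN1 : 1 ≤ N1) (R : Run h (pr3 (Fin 3) n N1) (SS1 (Fin 3)) (AdmDep D) v)
    {dg : ℕ → X → ℝ} {Lam : ℝ} (H : D.Hyp dg prr al T Lam) {t q s : ℕ} (hsT : s = 5 * t ∧ t ≤ T ∨ t < T) (h5 : 5 * t ≤ q)
    (hq4 : q ≤ 5 * t + 4) (hqs : q ≤ s) (hs : s ≤ 5 * t + 5) (hnc : ∀ e, TP.nc q {e} = t + 1) {p : V3.AP} (hX0 : 0 ≤ p.X0)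
    {lam L1 eta y : ℝ} (hlam : 0 ≤ lam) (hL1 : 0 ≤ L1)
    {A C : Om W X β → Prop} (hA : Sn tb v q A) (hal : ∀ w, A w → Alv h v tb p q w) (hC : Fac (NPo tb v s) C)
    (hdg : ∀ w, tb.Ps.p w ≠ 0 → C w → 5 * t < s → GamR.hvy tb v dg lam t w)
    (hhz : ∀ w, tb.Ps.p w ≠ 0 → C w → 5 * t + 1 < s → hz tb v t w)
    (hm : ∀ w, tb.Ps.p w ≠ 0 → C w → tb.Ps.ce (NPo tb v q) (fun u => ind (A u)) w ≤ eta)
    (hy : 54 * (L1 + 2 * (lam + 4) + 2 * p.X0 + 5) / N1 + 54 * Lam / n + 2 * eta < y / 8) :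
    tb.Ps.Pr (fun w => C w ∧ y ≤ tb.Ps.ce (sgt D ∅ (TP.nn s)) (fun u => ind (A u)) w) ≤ Real.exp (-L1) * tb.Ps.Pr C := by
  have hv := R.codes
  have ht : t ≤ T := by
    rcases hsT with h1 | h1
    · exact h1.2
    · exact h1.le
  have hLam : 0 ≤ Lam := by have := H.Lam1; linarith
  have hst : TP.nn s = t ∨ (TP.nn s = t + 1 ∧ t < T) := by
    rcases hsT with h1 | h1
    · left
      rw [h1.1, GamR.nn5]
    · obtain ⟨j, hj⟩ := Nat.exists_eq_add_of_le (h5.trans hqs)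
      rcases Nat.eq_zero_or_pos j with h2 | h2
      · left
        rw [hj, h2, add_zero, GamR.nn5]
      · right
        rw [hj]
        exact ⟨TP.nn_j t h2 (by omega), h1⟩
  refine node_tot hn hN1 R H ht hst h5 hqs (X0 := p.X0) (lw := lam + 4) (lw2 := lam + 4) (b := 0) (c := 1) (d := 2)
    (by decide) (by decide) (by decide) hC fun w hw hCw => ?_
  refine ⟨RnO_of h5 (by omega) hnc le_rfl w hA hal, ?_, ?_, ?_⟩
  · obtain ⟨j, hj⟩ := Nat.exists_eq_add_of_le (h5.trans hqs)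
    rcases hsT with h1 | h1
    · rw [h1.1]
      have h2 : Real.exp (-(lam + 4)) ≤ 1 := Real.exp_le_one_iff.2 (by linarith)
      have := mul_le_mul_of_nonneg_right h2 (tb.Ps.m_pos (NPo tb v (5 * t)) hw).le
      linarith
    · rw [hj]
      exact low5 hv H h1 (by omega) hw hlam (fun _ => hdg w hw hCw (by omega)) (fun _ => hhz w hw hCw (by omega))
  · obtain ⟨j, hj⟩ := Nat.exists_eq_add_of_le h5
    rcases hsT with h1 | h1
    · have h3 : q = 5 * t := by omega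
      rw [h3]
      have h2 : Real.exp (-(lam + 4)) ≤ 1 := Real.exp_le_one_iff.2 (by linarith)
      have := mul_le_mul_of_nonneg_right h2 (tb.Ps.m_pos (NPo tb v (5 * t)) hw).le
      linarith
    · rw [hj]
      exact low5 hv H h1 (by omega) hw hlam (fun _ => hdg w hw hCw (by omega)) (fun _ => hhz w hw hCw (by omega))
  · have h1 := ep_two (n := n) (N1 := N1) (al := al) (Lam := Lam) (X0 := p.X0) (L1 := L1) (lw := lam + 4) (lw2 := lam + 4) hn hN1
      hX0 hL1 (by linarith) (by linarith) (V3.TT.log_al H h.pos) hLam 0 1 2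
    have h2 := hm w hw hCw
    have e1 : 54 * (L1 + (lam + 4) + (lam + 4) + 2 * p.X0 + 5) / N1 = 54 * (L1 + 2 * (lam + 4) + 2 * p.X0 + 5) / N1 := by
      ring
    rw [e1] at h1
    linarith

end om

end Pool.Agent.GMH.RarN
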