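import Pool.Agent.GMH.RarC2
import Pool.Agent.GMH.RarN5

/-!
# GMH/RarC3 (helper30): THE KINDS AT THE EXACT VERTEX (row C5)

* `ROx_of` : a relation seen at the state `q` (`RarN.Sn`), inside the alive tuples, is a relation `ROx`;
* `own_X0` : alive own letter: `log (m (y_b, NPo) / m (XN b)) ≤ X0`;
* `hvX lam t` : the digit has conditional probability `≥ exp (-lam)` in the class of the exact vertex, `gX lam t` : so has the
  public value of the level `t`, `oX t` : the own value of the level is heavy; `lowX` : share of the class;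
* **`stepX`** : **per step**, `q = 5 t + j`, `j ≤ 4`, `q ≤ s ≤ 5 t + 5`, class mass at `q`, sight and event `C` at `s`:
  `Pr (C, y ≤ P (A | a, y_b, cells of s)) ≤ exp (-L1) Pr C`.
-/

set_option autoImplicit false
set_option linter.unusedSectionVars false

namespace Pool.Agent.GMH.RarC

open Finset Pool.Agent.PWZ Pool.Agent.M3 Pool.Agent.GM Pool.Agent.GM.Harm Pool.Agent.GMH
open Pool.Agent.GMH.TP Pool.Agent.GMH.TD Pool.Agent.GMH.Dy Pool.Agent.GMH.MVI Pool.Agent.GMH.MVIp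
open Pool.Agent.GMH.RarX Pool.Agent.GMH.GamR Pool.Agent.GMH.KF

noncomputable section

variable {X β γ φ : Type} [Fintype X] [Fintype β] [Fintype φ] [Nonempty X] [Nonempty β]
variable {D : HD (Fin 3) X β γ φ} {al : ℝ} {h : D.Thick al} {prr : ℕ → Fin 3 → φ → φ} {T : ℕ} {W : Type} [Fintype W]
variable {tb : Tab D prr T W} {v : ℕ → Finset (Fin 3) → X → (Fin 3 → β) → Pt (Fin 3) X β φ}
variable {b c d : Fin 3} {t q s : ℕ}

/-- **a seen relation of alive tuples** -/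
theorem ROx_of (ht : t ≤ T) {p : V3.AP} (hq : 5 * t ≤ q) (hq' : q / 5 = t) (hnc : ∀ e, TP.nc q {e} = t + 1)
    (hbc : b ≠ c) (hbd : b ≠ d) (hcd : c ≠ d) (w0 : Om W X β) {A : Om W X β → Prop} (hA : RarN.Sn tb v q A)
    (hal : ∀ w, A w → Alv h v tb p q w) :
    ROx tb v t c d (3 * Real.exp p.X0) (fun u => XN tb v b q u = XN tb v b q w0) A := by
  refine ⟨RarN.TyC h v t p.X0 (tb.pt t w0), RarN.TyC_card h v t p.X0 (tb.pt t w0), ?_, ?_⟩
  · intro u w hu hw hcu hcw z1 z2 z3 hAu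
    have hN : NPo tb v q u = NPo tb v q w := (congrArg Prod.snd hcu).trans (congrArg Prod.snd hcw).symm
    refine hA u w hu hw ⟨hN, fun e => ?_, ?_⟩ hAu
    · have key : ∀ e : Fin 3, XLo tb v e (5 * t) u = XLo tb v e (5 * t) w → XLo tb v e q u = XLo tb v e q w := by
        intro e h6
        have g1 : u.2.2 e = w.2.2 e := congrArg Prod.fst h6
        have g2 : Um v (TP.nc (5 * t) {e}) {e} u.1 u.2.2 = Um v (TP.nc (5 * t) {e}) {e} w.1 w.2.2 := congrArg Prod.snd h6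
        rw [GamR.nc5] at g2
        show (u.2.2 e, Um v (TP.nc q {e}) {e} u.1 u.2.2) = (w.2.2 e, Um v (TP.nc q {e}) {e} w.1 w.2.2)
        rw [hnc e, g1, g2]
      rcases tri3 b c d e hbc hbd hcd with rfl | rfl | rfl
      · exact (congrArg Prod.fst hcu).trans (congrArg Prod.fst hcw).symm
      · exact key _ z1
      · exact key _ z2
    · rw [hq']
      exact z3
  · intro w hw hcw hAw
    have h1 := hal w hAw (5 * t) hq
    rw [show 5 * t / 5 = t by omega] at h1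
    have h2 : NPq D v (5 * t) (tb.pt t w) = NPq D v (5 * t) (tb.pt t w0) :=
      congrArg Prod.snd (XN_mono tb b hq w w0 hcw)
    have h3 := (pul_pt h tb ht).ne hw
    exact ⟨⟨c, tb.pt t w, h3, h2, rfl, rfl, h1.1 c⟩, ⟨d, tb.pt t w, h3, h2, rfl, rfl, h1.1 d⟩⟩

/-- **alive own letter** -/
theorem own_X0 (ht : t ≤ T) {X0 : ℝ} {w : Om W X β} (hw : tb.Ps.p w ≠ 0) (ha : TP.ssQ h v (5 * t) b (tb.pt t w) ≤ X0) :
    Real.log (tb.Ps.m (yN tb v b t) w / tb.Ps.m (XN tb v b (5 * t)) w) ≤ X0 := by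
  have H0 : Pul tb.Ps (D.P h t) (tb.pt t) := pul_pt h tb ht
  have p1 := tb.Ps.m_pos (yN tb v b t) hw
  have p2 := tb.Ps.m_pos (XN tb v b (5 * t)) hw
  unfold TP.ssQ sp at ha
  rw [Nat.mul_div_cancel_left t (by norm_num : 0 < 5)] at ha
  have e1 : (D.P h t).m (fun u => (u.2.1 b, NPq D v (5 * t) u)) (tb.pt t w) = tb.Ps.m (yN tb v b t) w :=
    (H0.m (fun u => (u.2.1 b, NPq D v (5 * t) u)) w).symm
  have e2 : (D.P h t).m (fun u => (XLq v (5 * t) b u, (u.2.1 b, NPq D v (5 * t) u))) (tb.pt t w) =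
      tb.Ps.m (XN tb v b (5 * t)) w := by
    rw [← H0.m (fun u => (XLq v (5 * t) b u, (u.2.1 b, NPq D v (5 * t) u))) w]
    unfold FP.m
    refine tb.Ps.E_congr fun u _ => congrArg ind (propext ⟨fun e => ?_, fun e => ?_⟩)
    · exact Prod.ext (Prod.mk.inj e).1 (Prod.mk.inj (Prod.mk.inj e).2).2
    · have g1 : XLo tb v b (5 * t) u = XLo tb v b (5 * t) w := congrArg Prod.fst e
      have g2 : NPo tb v (5 * t) u = NPo tb v (5 * t) w := congrArg Prod.snd e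
      have g3 : u.2.2 b = w.2.2 b := congrArg Prod.fst g1
      exact Prod.ext g1 (Prod.ext g3 g2)
  rw [e1, e2] at ha
  rw [Real.log_div p1.ne' p2.ne']
  linarith

/-! ### shares of the classes -/

/-- the digit and the class of the exact vertex -/
def DX (tb : Tab D prr T W) (v : ℕ → Finset (Fin 3) → X → (Fin 3 → β) → Pt (Fin 3) X β φ) (b : Fin 3) (dg : ℕ → X → ℝ)
    (t : ℕ) (w : Om W X β) := (dg t w.1, XN tb v b (5 * t) w)

/-- the digit is not light in the class of the exact vertex -/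
def hvX (tb : Tab D prr T W) (v : ℕ → Finset (Fin 3) → X → (Fin 3 → β) → Pt (Fin 3) X β φ) (b : Fin 3) (dg : ℕ → X → ℝ)
    (lam : ℝ) (t : ℕ) (w : Om W X β) : Prop :=
  Real.exp (-lam) * tb.Ps.m (XN tb v b (5 * t)) w ≤ tb.Ps.m (DX tb v b dg t) w

/-- the public value of the level is not light in the class of the exact vertex -/
def gX (tb : Tab D prr T W) (v : ℕ → Finset (Fin 3) → X → (Fin 3 → β) → Pt (Fin 3) X β φ) (b : Fin 3) (lam : ℝ) (t : ℕ)
    (w : Om W X β) : Prop :=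
  Real.exp (-lam) * tb.Ps.m (XN tb v b (5 * t + 1)) w ≤ tb.Ps.m (XN tb v b (5 * t + 2)) w

/-- the own value of the level is heavy -/
def oX (tb : Tab D prr T W) (v : ℕ → Finset (Fin 3) → X → (Fin 3 → β) → Pt (Fin 3) X β φ) (b : Fin 3) (t : ℕ)
    (w : Om W X β) : Prop :=
  tb.Ps.m (XN tb v b (5 * t + 4)) w ≤ 2 * tb.Ps.m (XN tb v b (5 * t + 5)) w

theorem XN_2 {j : ℕ} (h2 : 2 ≤ j) (h4 : j ≤ 4) : XN tb v b (5 * t + j) = XN tb v b (5 * t + 2) := by
  funext w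
  refine Prod.ext ?_ (congrFun (RarN.NPo_2 (tb := tb) (v := v) h2 (by omega)) w)
  show (w.2.2 b, Um v (TP.nc (5 * t + j) {b}) {b} w.1 w.2.2) = (w.2.2 b, Um v (TP.nc (5 * t + 2) {b}) {b} w.1 w.2.2)
  rw [nc_one b h4, nc_one b (by norm_num)]

/-- the share of the class at `5 t + 1` -/
theorem lowX1 (hv : Codes D v) {dg : ℕ → X → ℝ} {Lam : ℝ} (H : D.Hyp dg prr al T Lam) (ht : t < T) {w : Om W X β}
    (hw : tb.Ps.p w ≠ 0) {lam : ℝ} (hl : hvX tb v b dg lam t w) :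
    Real.exp (-lam) * tb.Ps.m (XN tb v b (5 * t)) w ≤ 4 * tb.Ps.m (XN tb v b (5 * t + 1)) w := by
  have hst : TP.nn (5 * t + 1) = t ∨ (TP.nn (5 * t + 1) = t + 1 ∧ t < T) := Or.inr ⟨nn_eq le_rfl (by norm_num), ht⟩
  obtain ⟨δ, δ0, δ1, hδ⟩ := halveS tb (b := b) (v := v) H hst hw
  have fF : Fac (sgt (W := W) D {b} t) (fun u => DX tb v b dg t u = DX tb v b dg t w) := fun u u' e => by
    have h1 := (sgt_eq.1 e).1
    show (DX tb v b dg t u = DX tb v b dg t w) = (DX tb v b dg t u' = DX tb v b dg t w)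
    unfold DX
    rw [XN_sgt tb hv b t u u' e, h1]
  have h1 := hδ _ fF (fun u hu => congrArg Prod.snd hu)
  have e1 : tb.Ps.Pr (fun u => DX tb v b dg t u = DX tb v b dg t w ∧ DCs D (5 * t + 1) w u) =
      tb.Ps.m (XN tb v b (5 * t + 1)) w := by
    refine tb.Ps.E_congr fun u _ => congrArg ind (propext ?_)
    have h2 := XN_dec tb (b := b) (t := t) hv le_rfl (by norm_num : 1 ≤ 4) (u := u) (w := w)
    beta_reduce
    rw [h2]
    unfold DCs DX
    rw [nn_eq le_rfl (by norm_num : 1 ≤ 4), Prod.mk.injEq]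
    constructor
    · rintro ⟨⟨g1, g2⟩, g3⟩
      refine ⟨⟨g2, ?_, ?_⟩, g3⟩
      · rw [H.dg_cell t ht]
        refine ⟨?_, g1⟩
        have h3 : D.qa (TP.nn (5 * t)) u.1 = D.qa (TP.nn (5 * t)) w.1 := congrArg (fun z => z.2.2.1) g2
        rwa [nn5] at h3
      · have h3 : Um v (TP.nc (5 * t) ∅) ∅ u.1 u.2.2 = Um v (TP.nc (5 * t) ∅) ∅ w.1 w.2.2 := congrArg (fun z => z.2.1) g2
        rw [nc5] at h3
        rw [GamR.nc51]
        have h4 : Um v (t + 1) ∅ u.1 u.2.2 = Um v (t + 1) ∅ u.1 w.2.2 :=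
          Um_le (D := D) hv (Nat.le_succ _) ∅ _ _ _ (fun i hi => absurd hi (Finset.notMem_empty i)) g3
        exact h4.symm.trans h3
    · rintro ⟨⟨g1, g2, -⟩, g3⟩
      exact ⟨⟨((H.dg_cell t ht _ _).1 g2).2, g1⟩, g3⟩
  rw [e1] at h1
  have p0 : 0 ≤ tb.Ps.Pr (fun u => DX tb v b dg t u = DX tb v b dg t w) := tb.Ps.Pr_nonneg _
  have h3 : Real.exp (-lam) * tb.Ps.m (XN tb v b (5 * t)) w ≤ tb.Ps.Pr (fun u => DX tb v b dg t u = DX tb v b dg t w) := hl
  rw [h1]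
  have h4 := mul_le_mul_of_nonneg_right δ1 p0
  linarith

/-- **the share of the class at `5 t + j`** -/
theorem lowX (hv : Codes D v) {dg : ℕ → X → ℝ} {Lam : ℝ} (H : D.Hyp dg prr al T Lam) {j : ℕ}
    (htT : j = 0 ∧ t ≤ T ∨ t < T) (hj : j ≤ 5) {w : Om W X β} (hw : tb.Ps.p w ≠ 0) {lam : ℝ} (hlam : 0 ≤ lam)
    (hl : 1 ≤ j → hvX tb v b dg lam t w) (hh : 2 ≤ j → gX tb v b lam t w) (ho : j = 5 → oX tb v b t w) :
    Real.log (tb.Ps.m (XN tb v b (5 * t)) w / tb.Ps.m (XN tb v b (5 * t + j)) w) ≤ 2 * lam + 3 := by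
  have p0 := tb.Ps.m_pos (XN tb v b (5 * t)) hw
  have pj := tb.Ps.m_pos (XN tb v b (5 * t + j)) hw
  have l2 : Real.log 2 ≤ 1 := by have := Real.log_two_lt_d9; linarith
  have l4 : Real.log 4 ≤ 2 := by
    rw [show (4 : ℝ) = 2 ^ 2 by norm_num, Real.log_pow]
    push_cast
    linarith
  rcases Nat.eq_zero_or_pos j with rfl | hj1
  · rw [add_zero, div_self p0.ne', Real.log_one]
    linarith
  have ht : t < T := by rcases htT with h1 | h1 <;> omega
  have p1 := tb.Ps.m_pos (XN tb v b (5 * t + 1)) hw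
  have h1 := lowX1 (tb := tb) hv H ht hw (hl hj1)
  have h1' : Real.log (tb.Ps.m (XN tb v b (5 * t)) w) - lam ≤ 2 + Real.log (tb.Ps.m (XN tb v b (5 * t + 1)) w) := by
    have h2 := Real.log_le_log (by positivity) h1
    rw [Real.log_mul (Real.exp_pos _).ne' p0.ne', Real.log_exp, Real.log_mul (by norm_num) p1.ne'] at h2
    linarith
  rw [Real.log_div p0.ne' pj.ne']
  rcases Nat.lt_or_ge j 2 with hj2 | hj2
  · obtain rfl : j = 1 := by omega
    linarith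
  have p2 := tb.Ps.m_pos (XN tb v b (5 * t + 2)) hw
  have h2' : Real.log (tb.Ps.m (XN tb v b (5 * t + 1)) w) - lam ≤ Real.log (tb.Ps.m (XN tb v b (5 * t + 2)) w) := by
    have h2 := Real.log_le_log (by positivity) (hh hj2)
    rw [Real.log_mul (Real.exp_pos _).ne' p1.ne', Real.log_exp] at h2
    linarith
  rcases Nat.lt_or_ge j 5 with hj5 | hj5
  · rw [XN_2 hj2 (by omega)]
    linarith
  · obtain rfl : j = 5 := by omega
    have h3 : tb.Ps.m (XN tb v b (5 * t + 4)) w ≤ 2 * tb.Ps.m (XN tb v b (5 * t + 5)) w := ho rfl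
    rw [XN_2 (by norm_num) (by norm_num)] at h3
    have h4 := Real.log_le_log p2 h3
    rw [Real.log_mul (by norm_num) pj.ne'] at h4
    linarith

/-- **PER STEP** : state `q = 5 t + j`, `j ≤ 4`, sight and event `C` at `s`, `q ≤ s ≤ 5 t + 5`, class mass at `q` -/
theorem stepX {n N1 : ℝ} (hn : 1 ≤ n) (hN1 : 1 ≤ N1) (R : Run h (pr3 (Fin 3) n N1) (SS1 (Fin 3)) (AdmDep D) v)
    {dg : ℕ → X → ℝ} {Lam : ℝ} (H : D.Hyp dg prr al T Lam) (hbc : b ≠ c) (hbd : b ≠ d) (hcd : c ≠ d)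
    (hsT : s = 5 * t ∧ t ≤ T ∨ t < T) (h5 : 5 * t ≤ q) (hq4 : q ≤ 5 * t + 4) (hqs : q ≤ s) (hs : s ≤ 5 * t + 5)
    {p : V3.AP} {lam L1 eta y R0 ep : ℝ} {k : ℕ} (hlam : 0 ≤ lam) (hy0 : 0 < y)
    (K : Cst n al (3 * Real.exp p.X0) R0 ep k (L1 + (2 * lam + 3)))
    {A C : Om W X β → Prop} (hA : RarN.Sn tb v q A) (hal : ∀ w, A w → Alv h v tb p q w) (hC : Fac (XN tb v b s) C)
    (hdg : ∀ w, tb.Ps.p w ≠ 0 → C w → 5 * t < s → hvX tb v b dg lam t w)
    (hhz : ∀ w, tb.Ps.p w ≠ 0 → C w → 5 * t + 1 < s → gX tb v b lam t w)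
    (hown : ∀ w, tb.Ps.p w ≠ 0 → C w → s = 5 * t + 5 → oX tb v b t w)
    (hm : ∀ w, tb.Ps.p w ≠ 0 → C w → tb.Ps.ce (XN tb v b q) (fun u => ind (A u)) w ≤ eta)
    (hy : 4 * (1025 * ELr n N1 al (3 * Real.exp p.X0) R0 ep k (L1 + (2 * lam + 3)) (p.X0 + (L1 + (2 * lam + 3))) +
      1024 * eta) < y) :
    tb.Ps.Pr (fun w => C w ∧ y ≤ tb.Ps.ce (sgt D {b} (TP.nn s)) (fun u => ind (A u)) w) ≤ Real.exp (-L1) * tb.Ps.Pr C := by
  classical
  have hv := R.codes
  have ht : t ≤ T := by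
    rcases hsT with h1 | h1
    · exact h1.2
    · exact h1.le
  have h5s : 5 * t ≤ s := h5.trans hqs
  obtain ⟨i, hi⟩ := Nat.exists_eq_add_of_le h5
  obtain ⟨j, hj⟩ := Nat.exists_eq_add_of_le h5s
  have hnc : ∀ e, TP.nc q {e} = t + 1 := fun e => by rw [hi]; exact nc_one e (by omega)
  have hst : TP.nn s = t ∨ (TP.nn s = t + 1 ∧ t < T) := by
    rcases hsT with h1 | h1
    · left
      rw [h1.1, GamR.nn5]
    · rcases Nat.eq_zero_or_pos j with h2 | h2
      · left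
        rw [hj, h2, add_zero, GamR.nn5]
      · right
        rw [hj]
        exact ⟨TP.nn_j t h2 (by omega), h1⟩
  -- the own letter is alive
  set al0 : Om W X β → Prop := fun w => TP.ssQ h v (5 * t) b (tb.pt t w) ≤ p.X0 with hal0
  have H0 : Pul tb.Ps (D.P h t) (tb.pt t) := pul_pt h tb ht
  have fal : Fac (XN tb v b (5 * t)) al0 := fun u w e => by
    have e1 : TP.ssQ h v (5 * t) b (tb.pt t u) = TP.ssQ h v (5 * t) b (tb.pt t w) := by
      unfold TP.ssQ sp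
      have a1 : XLq v (5 * t) b (tb.pt t u) = XLq v (5 * t) b (tb.pt t w) := congrArg Prod.fst e
      have a2 : NPq D v (5 * t) (tb.pt t u) = NPq D v (5 * t) (tb.pt t w) := congrArg Prod.snd e
      have a3 : (tb.pt t u).2.1 b = (tb.pt t w).2.1 b := congrArg (fun z => z.1.1) e
      rw [(D.P h (5 * t / 5)).Fac_m (fun u => (u.2.1 b, NPq D v (5 * t) u)) (tb.pt t u) (tb.pt t w)
        (Prod.ext a3 a2), (D.P h (5 * t / 5)).Fac_m (fun u => (XLq v (5 * t) b u, (u.2.1 b, NPq D v (5 * t) u)))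
        (tb.pt t u) (tb.pt t w) (Prod.ext a1 (Prod.ext a3 a2))]
    show (TP.ssQ h v (5 * t) b (tb.pt t u) ≤ p.X0) = (TP.ssQ h v (5 * t) b (tb.pt t w) ≤ p.X0)
    rw [e1]
  have hal1 : ∀ u, tb.Ps.p u ≠ 0 → A u → al0 u := fun u _ hu => by
    have h1 := hal u hu (5 * t) h5
    rw [show 5 * t / 5 = t by omega] at h1
    exact h1.1 b
  have fal2 : Fac (sgt (W := W) D {b} (TP.nn s)) al0 := fun u w e =>
    fal u w (XN_mono tb b h5s u w (XN_sgtS tb hv b s u w e))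
  have hCC : Fac (XN tb v b s) (fun w => C w ∧ al0 w) := fun u w e => by
    show (C u ∧ al0 u) = (C w ∧ al0 w)
    rw [hC u w e, fal u w (XN_mono tb b h5s u w e)]
  have key := stepS tb hn hN1 R hbc hbd hcd H ht hst h5 hqs (A := A) (C := fun w => C w ∧ al0 w) hCC (L1 := L1)
    (L2 := 2 * lam + 3) (Lo := p.X0 + (L1 + (2 * lam + 3))) (y := y) K fun w hw hCw => ⟨?_, ?_, ?_, ?_⟩
  · refine le_trans (tb.Ps.Pr_mono fun w _ hh => ?_) (key.trans ?_)
    · refine ⟨⟨hh.1, ?_⟩, hh.2⟩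
      by_contra hno
      have h1 := ce_zero (P := tb.Ps) fal2 hal1 hno
      rw [h1] at hh
      linarith [hh.2]
    · exact mul_le_mul_of_nonneg_left (tb.Ps.Pr_mono fun w _ hh => hh.1) (Real.exp_pos _).le
  · exact ROx_of ht h5 (by omega) hnc hbc hbd hcd w hA hal
  · rw [hj]
    refine lowX hv H ?_ (by omega) hw hlam (fun h1 => hdg w hw hCw.1 (by omega)) (fun h1 => hhz w hw hCw.1 (by omega))
      (fun h1 => hown w hw hCw.1 (by omega))
    rcases hsT with h1 | h1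
    · left
      exact ⟨by omega, ht⟩
    · exact Or.inr h1
  · have h1 := own_X0 (h := h) (tb := tb) ht hw hCw.2
    linarith
  · refine lt_of_le_of_lt ?_ hy
    have h1 := hm w hw hCw.1
    linarith

end

end Pool.Agent.GMH.RarC
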