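import Pool.Agent.GMH.RarNF
import Pool.Agent.GMH.ConR0G
import Pool.Agent.GMH.CtxK
import Pool.Agent.GMH.ExitX

/-!
# GMH/RarNG (helper88): THE NODE FOR THE FINAL KINDS (row C5, node)

* `ksub3`, `ksub2`, `ksubS3`, `ksubS2` : `C.Q3 c κ`, `C.Q2 kaX c i κ`, `C.S3 κ`, `C.S2 i κ` are inside the relations of the stays;
* **`nodQ_all`** : `Nod` for all relations inside `SR fr p c κ`, `c` a threshold of the rounds (helper34's `cls_num`): no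
  hypothesis on masses is left;
* `base_0` : the class mass at a public start, tables of this start, thresholds of the stays (no gap);
  **`rdzS_all`** : `RDZ` for `C.S3 κ`, `C.S2 i κ`;
* **`fzn_all`** : `P (Z0 Q m, y < Dn Q o m) ≤ x^(-s)` at every time `m ≤ 5 T`.
-/

set_option autoImplicit false
set_option linter.unusedSectionVars false

namespace Pool.Agent.GMH.RarN

open Finset Pool.Agent.PWZ Pool.Agent.M3 Pool.Agent.GM Pool.Agent.GM.Harm Pool.Agent.GMH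
open Pool.Agent.GMH.Dy Pool.Agent.GMH.MVI Pool.Agent.GMH.MVIp Pool.Agent.GMH.KF
open Pool.Agent.GMH.UV (US Kd tv Stps StpC Dn De0 af0 sf rd0 M0 Z0)
open Pool.Agent.GMH.TRF (ruO)
open Pool.Agent.GMH.ExK
open Pool.Agent.GMH.CX Pool.Agent.GMH.V3 Pool.Agent.GMH.CT
open Pool.Agent.GMH.CLM (R0G hf bK bK_one bK_two base_g base_g' ce_mono_cls ce_fine ce_fine2 bad_ok ltL_fac eT_lt bK_nn q5)

/-! ### the kinds -/

theorem ksub3 (C : Ctx) (c : KC) (κ : Fin 10) : KSub C (C.Q3 c κ) Option.none c κ :=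
  ⟨fun _ _ _ h => kv3_SR le_rfl le_rfl le_rfl le_rfl h.1, fun _ _ h => h⟩

theorem ksub2 (C : Ctx) (kaX : ℕ) (c : KC) (i : Fin 3) (κ : Fin 10) : KSub C (C.Q2 kaX c i κ) (Option.some i) c κ :=
  ⟨fun _ _ _ h => kv2_SR le_rfl le_rfl le_rfl le_rfl h.2.1, fun _ _ h => h⟩

theorem ksubS3 (C : Ctx) (κ : Fin 10) : KSub C (C.S3 κ) Option.none (kch Rc C.Lam 0) κ :=
  ⟨fun _ _ _ h => h, fun _ _ h => h⟩

theorem ksubS2 (C : Ctx) (i : Fin 3) (κ : Fin 10) : KSub C (C.S2 i κ) (Option.some i) (kch Rc C.Lam 0) κ :=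
  ⟨fun _ _ _ h => h, fun _ _ h => h⟩

/-- the number of the class masses -/
theorem eK_le {RR : CT.Rounds} {Lam : ℝ} (hL : 2 ≤ Lam) {sq : ℕ} {κ : Fin 10} (hκ : 2 ≤ κ.1 → 2 * sq ≤ (CT.rd RR κ.1).q) :
    eK RR Lam (2 * sq) κ ≤ 4 ^ 8 * ix Lam (2 * sq) := by
  have i0 := CT.ix_nn hL (2 * sq)
  rcases Nat.lt_or_ge κ.1 2 with hk | hk
  · rw [eK_one (by omega)]
    norm_num
    linarith
  · rw [eK_two hk]
    have a2 := CT.ix_anti hL (hκ hk)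
    norm_num
    linarith

/-- **`Nod`, NO HYPOTHESIS ON MASSES** -/
theorem nodQ_all {A : ℕ} (hA : 80 ≤ A) (ka : ℕ) (RR : CT.Rounds) {sq sl : ℕ} (hsl : 2 * sq + 2 + 2 * RR.eta1 ≤ sl + 9) :
    AllC A (fun C => ∀ c, CT.KcB RR C.Lam c → c.dH ≤ 1 → ∀ κ : Fin 10, (2 ≤ κ.1 → 2 * sq ≤ (CT.rd RR κ.1).q) →
      ∀ (fr : Option (Fin 3)) (Q : Kd C.O), KSub C Q fr c κ → Nod C ka sq sl Q fr c κ) := by
  refine (cls_num hA ka RR hsl).mono fun C h c hc hd κ hκ fr Q hQ => ⟨hQ, fun o q hq w hw ho => ?_⟩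
  have hL := C.hL
  have k1 := h c hc hd κ fr o q hq w hw
  have k2 := eK_le (RR := RR) hL hκ
  cases o with
  | none => exact (k1.2.2.1 _ le_rfl ho).trans k2
  | some i => exact (k1.2.1 i _ le_rfl ho).trans k2

/-! ### the class mass at a public start -/

section om

variable {X β γ φ : Type} [Fintype X] [Fintype β] [Fintype φ] [Nonempty X] [Nonempty β]
variable {D : HD (Fin 3) X β γ φ} {al : ℝ} {h : D.Thick al} {prr : ℕ → Fin 3 → φ → φ} {T : ℕ} {W : Type} [Fintype W]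
variable (tb : Tab D prr T W) {v : ℕ → Finset (Fin 3) → X → (Fin 3 → β) → Pt (Fin 3) X β φ}
variable {N : Finset (Fin 3) → ℝ} {SS : Finset (Finset (Fin 3))} {dg : ℕ → X → ℝ} {Lam : ℝ}
variable {d1 kb d0 k0 p1 z : ℝ} (hd1 : 0 < d1) (hd11 : d1 ≤ 1) (hkb : 0 < kb) (hd0 : 0 < d0)
  (hd01 : d0 ≤ 1) (hk0 : 0 < k0) (hp1 : 0 < p1) (hz0 : 0 < z)

/-- **THE CLASS MASS OF THE PUBLIC RELATION AT ITS START** : the thresholds of the start itself -/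
theorem base_0 (H : D.Hyp dg prr al T Lam) (R : Run h N SS (AdmDep D) v) (hS : ∀ l, univ.erase l ∈ SS) (hU : univ ∉ SS)
    (hN : ∀ l, 0 < N (univ.erase l)) {p : AP} {c : KC} {κ : Fin 10} (h1 : 0 ≤ c.e1) (h2 : 0 < c.e2) (h3 : 0 < c.e3)
    (hd : 0 < c.dH) {L r0 : ℝ} (hr : R0G v h tb p c L r0) {q : ℕ} (hq : q ≤ 5 * T) (fr o : Option (Fin 3)) {w : Om W X β}
    (hw : tb.Ps.p w ≠ 0) (hnu : MV.nu (MSi tb (v := v) d1 kb d0 k0 p1 z hd1 hd11 hkb hd0 hd01 hk0 hp1 hz0) q w = q) {lam : ℝ}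
    (hok : okq tb v lam q w) :
    tb.Ps.ce (NPo tb v q) (fun u => ind (SR h v tb fr p c κ o
      (MV.nu (MSi tb (v := v) d1 kb d0 k0 p1 z hd1 hd11 hkb hd0 hd01 hk0 hp1 hz0) q u) u ∧ Alv h v tb p q u)) w ≤
      bK r0 c κ + Real.exp (lam + 4 - L) := by
  have e0 := (Real.exp_pos (lam + 4 - L)).le
  by_cases hl : ltL v tb q w
  · have h5 : 5 * (q / 5) + 5 ≤ 5 * T := by
      have := hl.1
      omega
    have hle : q ≤ 5 * (q / 5) + 5 := by omega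
    have s1 : tb.Ps.ce (NPo tb v q) (fun u => ind (SR h v tb fr p c κ o
        (MV.nu (MSi tb (v := v) d1 kb d0 k0 p1 z hd1 hd11 hkb hd0 hd01 hk0 hp1 hz0) q u) u ∧ Alv h v tb p q u)) w ≤
        tb.Ps.ce (NPo tb v q) (fun u => ind (cv h v tb fr c κ o (5 * (q / 5) + 5) u ∧ Alv h v tb p (5 * (q / 5) + 5) u)) w := by
      refine ce_mono_cls fun u hu hc => ind_mono fun hh => ?_
      have hlu : ltL v tb q u := (ltL_fac tb hc).2 hl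
      obtain ⟨g1, g2⟩ := KDV.ltL_nu tb hd1 hd11 hkb hd0 hd01 hk0 hp1 hz0 hlu
      have g3 := hh.1
      unfold SR at g3
      rw [eT_lt tb g1 g2] at g3
      exact g3
    have s2 : tb.Ps.ce (NPo tb v q) (fun u => ind (cv h v tb fr c κ o (5 * (q / 5) + 5) u ∧
        Alv h v tb p (5 * (q / 5) + 5) u)) w ≤ bK r0 c κ :=
      ce_fine ((MV.CN_NP (MSi tb (v := v) d1 kb d0 k0 p1 z hd1 hd11 hkb hd0 hd01 hk0 hp1 hz0) 0 _).trans
        (MV.NP_le (MSi tb (v := v) d1 kb d0 k0 p1 z hd1 hd11 hkb hd0 hd01 hk0 hp1 hz0) hle)) hw fun u hu =>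
        base_g tb hd1 hd11 hkb hd0 hd01 hk0 hp1 hz0 H R hS hU hN h1 h2 h3 hd hr h5 0 fr o κ hu
          (RarR0.gdc_zero tb hr.1 0 (by omega) u)
    linarith
  · have s1 : tb.Ps.ce (NPo tb v q) (fun u => ind (SR h v tb fr p c κ o
        (MV.nu (MSi tb (v := v) d1 kb d0 k0 p1 z hd1 hd11 hkb hd0 hd01 hk0 hp1 hz0) q u) u ∧ Alv h v tb p q u)) w ≤
        tb.Ps.ce (NPo tb v q) (fun u => ind (cv h v tb fr c κ o q u ∧ Alv h v tb p q u)) w := by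
      refine ce_mono_cls fun u hu hc => ind_mono fun hh => ?_
      have hlu : ¬ ltL v tb q u := fun h6 => hl ((ltL_fac tb hc).1 h6)
      have e1 : MV.nu (MSi tb (v := v) d1 kb d0 k0 p1 z hd1 hd11 hkb hd0 hd01 hk0 hp1 hz0) q u = q :=
        (MV.nu_fac (MSi tb (v := v) d1 kb d0 k0 p1 z hd1 hd11 hkb hd0 hd01 hk0 hp1 hz0) q u w hc).trans hnu
      have e2 : eT v tb q u = q := by
        unfold eT
        rw [if_neg hlu]
      have g3 := hh.1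
      rw [e1] at g3
      unfold SR at g3
      rw [e2] at g3
      exact g3
    refine s1.trans ?_
    have hb := bad_ok (L := L) tb (0 : Fin 3) hw hok
    refine (ce_fine2 (B := fun u => ¬ ltL v tb q u ∧ ¬ RarR0.gdc tb v L 0 q u)
      (MV.CN_NP (MSi tb (v := v) d1 kb d0 k0 p1 z hd1 hd11 hkb hd0 hd01 hk0 hp1 hz0) 0 q)
      (bK_nn hr.2.1 h1 h2 h3 hd κ) hw fun u hu hc hB => ?_).trans (add_le_add le_rfl hb)
    have hlu : ¬ ltL v tb q u := fun h6 => hl ((ltL_fac tb hc).1 h6)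
    exact base_g tb hd1 hd11 hkb hd0 hd01 hk0 hp1 hz0 H R hS hU hN h1 h2 h3 hd hr hq 0 fr o κ hu
      (by_contra fun hg => hB ⟨hlu, hg⟩)

end om

/-! ### the stays -/

/-- `qK` of the stays in every round -/
theorem qK_kch' {Lam : ℝ} (hL : 2 ≤ Lam) {κ : Fin 10} (h : 2 ≤ κ.1) : qK (kch Rc Lam 0) ≤ 4 ^ 4 * ix Lam (CT.rd Rc κ.1).q := by
  have h2 : CT.rd Rc κ.1 ∈ [Rc.HT, Rc.H, Rc.G] := by
    unfold CT.rd
    rw [if_neg (by omega)]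
    split_ifs <;> simp
  have h1 := (kc0_B Rc hL 0).qK_le' hL h2
  have h3 : qK (kch Rc Lam 0) ≤ 2 * qK (kc0 Rc Lam 0) :=
    half_num (CT.ix_pos hL Rc.eta1) (CT.ix_pos hL Rc.eta2) (CT.ix_pos hL Rc.eta3) (CT.ix_pos hL Rc.kd)
  have h4 := CT.ix_pos hL (CT.rd Rc κ.1).q
  have h5 : (4 : ℝ) ^ 4 * ix Lam (CT.rd Rc κ.1).q = 256 * ix Lam (CT.rd Rc κ.1).q := by norm_num
  have h6 : (4 : ℝ) ^ 3 * ix Lam (CT.rd Rc κ.1).q = 64 * ix Lam (CT.rd Rc κ.1).q := by norm_num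
  rw [h5]
  rw [h6] at h1
  linarith

/-- the class masses at the public starts, thresholds of the stays -/
def HmS (C : Ctx) (ka : ℕ) (fr : Option (Fin 3)) (κ : Fin 10) (sq sl : ℕ) : Prop :=
  ∀ o, ∀ q ≤ 5 * C.T, ∀ w, C.tb.Ps.p w ≠ 0 → MV.nu (C.M ka) q w = q → okq C.tb C.v (lr C.Lam sl C.c0) q w →
    C.tb.Ps.ce (NPo C.tb C.v q) (fun u => ind (SR C.h C.v C.tb fr C.p (kch Rc C.Lam 0) κ o (MV.nu (C.M ka) q u) u ∧
      Alv C.h C.v C.tb C.p q u)) w ≤ 4 ^ 8 * ix C.Lam (2 * sq)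

theorem hmS_all {A : ℕ} (hA : 80 ≤ A) (ka : ℕ) {sq sl : ℕ} (hsl : 2 * sq + 2 * Rc.eta1 ≤ sl + 9) :
    AllC A (fun C => ∀ (fr : Option (Fin 3)) (κ : Fin 10), (2 ≤ κ.1 → 2 * sq ≤ (CT.rd Rc κ.1).q) → HmS C ka fr κ sq sl) := by
  refine ((r0B_ctx hA (e := Rc.eta1) hsl).and (AllC.of_Ev (lw_num A sl (2 * sq)))).mono fun C hh fr κ hκ o q hq w hw hnu ho => ?_
  obtain ⟨h1, h2⟩ := hh
  have hL := C.hL
  have i1 := CT.ix_pos hL Rc.eta1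
  have i2 := CT.ix_pos hL Rc.eta2
  have i3 := CT.ix_pos hL Rc.eta3
  have id := CT.ix_pos hL Rc.kd
  have i0 := CT.ix_nn hL (2 * sq)
  have hR : R0G C.v C.h C.tb C.p (kch Rc C.Lam 0) (Lr C.Lam sl C.c0) (ix C.Lam (2 * sq)) :=
    ⟨Lr_nn hL sl C.c0, i0, fun q hq i w hw hg => h1 _ (Lr_nn hL sl C.c0) le_rfl (kch Rc C.Lam 0) (by
      show ix C.Lam Rc.eta1 ≤ 2 * (ix C.Lam Rc.eta1 / 2)
      linarith) q hq i w hw hg⟩
  have hS : ∀ l : Fin 3, univ.erase l ∈ SS1 (Fin 3) := fun l => mem_SS1.2 (Finset.erase_ne_self.2 (mem_univ l))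
  have hU : (univ : Finset (Fin 3)) ∉ SS1 (Fin 3) := fun hh => (mem_SS1.1 hh) rfl
  have hN : ∀ l : Fin 3, 0 < pr3 (Fin 3) (pw C.Lam C.c0) (pw C.Lam (c1F C.A C.c0)) (univ.erase l) := fun l =>
    zero_lt_one.trans_le (pr3_one C.n1 C.N11 _)
  have k1 := base_0 C.tb (C.d1_pos ka) (C.d1_le ka) (C.kb_pos ka) C.d0_pos C.d0_le C.d0_pos C.p1_pos (C.z_pos ka) C.H C.R hS hU hN
    (p := C.p) (c := kch Rc C.Lam 0) (κ := κ) (show 0 ≤ ix C.Lam Rc.eta1 / 2 by linarith) (show 0 < ix C.Lam Rc.eta2 / 2 by linarith)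
    (show 0 < ix C.Lam Rc.eta3 / 2 by linarith) (show 0 < ix C.Lam Rc.kd / 2 by linarith) hR hq fr o hw hnu ho
  refine k1.trans ?_
  have k2 : bK (ix C.Lam (2 * sq)) (kch Rc C.Lam 0) κ ≤ (1 + 8 * 4 ^ 4) * ix C.Lam (2 * sq) := by
    rcases Nat.lt_or_ge κ.1 2 with hk | hk
    · rw [bK_one (by omega)]
      norm_num
      linarith
    · have a1 := qK_kch' hL hk
      have a2 := CT.ix_anti hL (hκ hk)
      unfold bK
      rw [if_neg (by omega)]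
      norm_num at a1 ⊢
      linarith
  norm_num at k2 ⊢
  linarith

/-- **ALL PUBLIC STARTS, PUBLIC RELATION**, class masses at the starts only -/
theorem stS_ctx (C : Ctx) (ka : ℕ) {lam L1 eta y : ℝ} {fr : Option (Fin 3)} {c : KC} {κ : Fin 10} {o : Option (Fin 3)}
    {A : ℕ → C.O → Prop} (hlam : 2 ≤ lam) (hL1 : 0 ≤ L1) (hy0 : 0 < y)
    (hA : ∀ q ≤ 5 * C.T, ∀ w, C.tb.Ps.p w ≠ 0 → A q w → SR C.h C.v C.tb fr C.p c κ o (MV.nu (C.M ka) q w) w)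
    (hm : ∀ q ≤ 5 * C.T, ∀ w, C.tb.Ps.p w ≠ 0 → MV.nu (C.M ka) q w = q → okq C.tb C.v lam q w →
      C.tb.Ps.ce (NPo C.tb C.v q) (fun u => ind (SR C.h C.v C.tb fr C.p c κ o (MV.nu (C.M ka) q u) u ∧
        Alv C.h C.v C.tb C.p q u)) w ≤ eta) (hy : HyN C lam L1 eta y) :
    ∑ q ∈ range (5 * C.T + 1), C.tb.Ps.Pr (fun w => MV.nu (C.M ka) q w = q ∧
        y < C.tb.Ps.ce (sgt C.D ∅ (TP.nn q)) (fun u => ind (A q u)) w) ≤
      Real.exp (-L1) * (2 + MV.N0 (C.M ka) (5 * C.T)) + 160 * Real.exp (-lam) * (C.n * C.N1 * C.Lam) := by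
  have k1 := nodeM_st C.tb C.codes (C.d1_pos ka) (C.d1_le ka) (C.kb_pos ka) C.d0_pos C.d0_le C.d0_pos C.p1_pos (C.z_pos ka)
    C.n1 C.N11 C.R C.H (pX0 C) hlam hL1 Option.none hy0 fr c κ o (A := A)
    (C := fun q w => MV.nu (C.M ka) q w = q) (fun q hq w hw ha _ => hA q hq w hw ha)
    (fun q _ => fun a b e => by
      have h1 : MV.nu (C.M ka) q a = MV.nu (C.M ka) q b := MV.nu_fac (M := C.M ka) q a b e
      show (_ = _) = (_ = _)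
      rw [h1])
    (fun q hq w hw hc ho => hm q hq w hw hc ho) hy
  have k2 : ∑ q ∈ range (5 * C.T + 1), C.tb.Ps.Pr (fun w => MV.nu (C.M ka) q w = q) ≤ 2 + MV.N0 (C.M ka) (5 * C.T) := by
    rw [Finset.sum_range_succ]
    have h1 := MV.starts_le (C.M ka) (5 * C.T)
    have h2 := C.tb.Ps.Pr_le_one (fun w => MV.nu (C.M ka) (5 * C.T) w = 5 * C.T)
    have h3 : ∑ s ∈ range (5 * C.T), C.tb.Ps.Pr (fun w => MV.nu (C.M ka) s w = s) ≤ 1 + MV.N0 (C.M ka) (5 * C.T) := h1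
    linarith
  have k3 : ∑ q ∈ range (5 * C.T + 1), C.tb.Ps.Pr (fun w => MV.nu (C.M ka) q w = q ∧ A q w ∧
      ¬ Alv C.h C.v C.tb C.p q w) = 0 := by
    refine Finset.sum_eq_zero fun q hq => ?_
    unfold FP.Pr
    rw [C.tb.Ps.E_congr (g := fun _ => 0) fun w hw => ind_not fun hh => by
      have h1 := (hA q (Nat.lt_succ_iff.1 (mem_range.1 hq)) w hw hh.2.1).2
      rw [hh.1] at h1
      exact hh.2.2 (Alv_anti C.h C.v C.tb (tau_leT C _ w) h1), C.tb.Ps.E_const]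
  have k4 := mul_le_mul_of_nonneg_left k2 (Real.exp_pos (-L1)).le
  rw [k3, mul_zero, add_zero] at k1
  linarith

/-- **RDZ FOR THE STAYS** `C.S3 κ`, `C.S2 i κ` -/
theorem rdzS_all {A : ℕ} (hA : 80 ≤ A) (ka : ℕ) {sq sl : ℕ} (s : ℕ) (hs : 20 ≤ sq) (hsl : 2 * sq + 2 * Rc.eta1 ≤ sl + 9) :
    AllC A (fun C => ∀ κ : Fin 10, (2 ≤ κ.1 → 2 * sq ≤ (CT.rd Rc κ.1).q) → ∀ (fr : Option (Fin 3)) (Q Q' : Kd C.O),
      KSub C Q' fr (kch Rc C.Lam 0) κ → ∀ St : Stps (Om := C.O), StpC (C.U ka) St → ∀ y, ix C.Lam sq ≤ y →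
    ∑ q ∈ range (5 * C.T), (C.U ka).P.Pr (fun w => rd0 (C.U ka) Q St q w ∧ y < Dn (C.U ka) Q' Option.none (q + 1) w) ≤
      ix C.Lam s) := by
  refine ((numN_all hA ka sq sl (s + 1) hs).and (hmS_all hA ka hsl)).mono fun C hh κ hκ fr Q Q' hQ St hC y hy => ?_
  obtain ⟨hh, hm⟩ := hh
  have hL := C.hL
  have h1 := stS_ctx C ka (A := fun q w => UV.Rn (C.U ka) Q' Option.none (MV.nu (C.M ka) q w) w) (lam := lr C.Lam sl C.c0)
    (L1 := pw C.Lam (16 * C.c0)) (y := ix C.Lam sq) hh.l2 (CT.pw_pos hL _).le (ix_pos hL _)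
    (fun q _ w _ ha => hQ.sub _ _ _ ha) (hm fr κ hκ Option.none) hh.hy
  have h2 := ix4 hL s
  have h5 := ix_pos hL (s + 1)
  have h3 : ∑ q ∈ range (5 * C.T), (C.U ka).P.Pr (fun w => rd0 (C.U ka) Q St q w ∧ y < Dn (C.U ka) Q' Option.none (q + 1) w) ≤
      ∑ q ∈ range (5 * C.T + 1), C.tb.Ps.Pr (fun w => MV.nu (C.M ka) q w = q ∧
        ix C.Lam sq < C.tb.Ps.ce (sgt C.D ∅ (TP.nn q)) (fun u => ind (UV.Rn (C.U ka) Q' Option.none (MV.nu (C.M ka) q u) u)) w) := by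
    rw [Finset.sum_range_succ']
    have g2 := C.tb.Ps.Pr_nonneg (fun w => MV.nu (C.M ka) 0 w = 0 ∧
        ix C.Lam sq < C.tb.Ps.ce (sgt C.D ∅ (TP.nn 0)) (fun u => ind (UV.Rn (C.U ka) Q' Option.none (MV.nu (C.M ka) 0 u) u)) w)
    refine le_trans (Finset.sum_le_sum fun q _ => (C.U ka).P.Pr_mono fun w hw g => ?_) (le_add_of_nonneg_right g2)
    exact ⟨hC.end0 w hw q g.1.1, lt_of_le_of_lt hy g.2⟩
  refine h3.trans (h1.trans ?_)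
  linarith [hh.he, hh.hN]

/-! ### every time -/

/-- **ONE TIME** -/
theorem finN_ctx (C : Ctx) (ka : ℕ) {lam L1 eta y : ℝ} {o' fr : Option (Fin 3)} {c : KC} {κ : Fin 10} {o : Option (Fin 3)}
    {A : ℕ → C.O → Prop} (hlam : 2 ≤ lam) (hL1 : 0 ≤ L1) (hy0 : 0 < y)
    (hA : ∀ q ≤ 5 * C.T, ∀ w, C.tb.Ps.p w ≠ 0 → A q w → Alv C.h C.v C.tb C.p q w →
      SR C.h C.v C.tb fr C.p c κ o (tauO (C.U ka) o' q w) w)
    (hm : Hm C ka lam o' fr c κ o eta) (hy : HyN C lam L1 eta y) {m : ℕ} (hmT : m ≤ 5 * C.T) :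
    C.tb.Ps.Pr (fun w => y < C.tb.Ps.ce (sgt C.D ∅ (TP.nn m)) (fun u => ind (A m u)) w) ≤
      Real.exp (-L1) + 160 * Real.exp (-lam) * (C.n * C.N1 * C.Lam) + 2 / y * (pw C.Lam (C.c0 + C.A))⁻¹ := by
  classical
  have k1 := nodeM_st C.tb C.codes (C.d1_pos ka) (C.d1_le ka) (C.kb_pos ka) C.d0_pos C.d0_le C.d0_pos C.p1_pos (C.z_pos ka)
    C.n1 C.N11 C.R C.H (pX0 C) hlam hL1 o' hy0 fr c κ o (A := A)
    (C := fun q _ => q = m) hA (fun q _ => fun a b e => rfl)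
    (fun q hq w hw _ ho => hm q hq w hw ho) hy
  have k2 : ∀ (F : ℕ → C.O → Prop), ∑ q ∈ range (5 * C.T + 1), C.tb.Ps.Pr (fun w => q = m ∧ F q w) =
      C.tb.Ps.Pr (F m) := by
    intro F
    rw [Finset.sum_eq_single m]
    · exact C.tb.Ps.Pr_congr fun w _ => ⟨fun hh => hh.2, fun hh => ⟨rfl, hh⟩⟩
    · intro q _ hq
      unfold FP.Pr
      rw [C.tb.Ps.E_congr (g := fun _ => 0) fun w _ => ind_not fun hh => hq hh.1, C.tb.Ps.E_const]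
    · intro hq
      exact absurd (mem_range.2 (Nat.lt_succ_of_le hmT)) hq
  rw [k2 (fun q w => y < C.tb.Ps.ce (sgt C.D ∅ (TP.nn q)) (fun u => ind (A q u)) w),
    k2 (fun q w => A q w ∧ ¬ Alv C.h C.v C.tb C.p q w)] at k1
  have k3 : ∑ q ∈ range (5 * C.T + 1), C.tb.Ps.Pr (fun _ => q = m) ≤ 1 := by
    have h1 := k2 (fun _ _ => True)
    have h2 : ∑ q ∈ range (5 * C.T + 1), C.tb.Ps.Pr (fun _ => q = m) =
        ∑ q ∈ range (5 * C.T + 1), C.tb.Ps.Pr (fun _ => q = m ∧ True) :=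
      Finset.sum_congr rfl fun q _ => C.tb.Ps.Pr_congr fun w _ => ⟨fun hh => ⟨hh, trivial⟩, fun hh => hh.1⟩
    rw [h2, h1]
    exact C.tb.Ps.Pr_le_one _
  have k4 : C.tb.Ps.Pr (fun w => A m w ∧ ¬ Alv C.h C.v C.tb C.p m w) ≤ (pw C.Lam (C.c0 + C.A))⁻¹ :=
    (C.tb.Ps.Pr_mono fun w _ hh h5 => hh.2 (Alv_anti C.h C.v C.tb hmT h5)).trans C.dead_le
  have k5 := mul_le_mul_of_nonneg_left k3 (Real.exp_pos (-L1)).le
  have k6 := mul_le_mul_of_nonneg_left k4 (show 0 ≤ 2 / y by positivity)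
  linarith

/-- **FZ AT EVERY TIME** -/
theorem fzn_all {A : ℕ} (hA : 80 ≤ A) (ka sq sl s : ℕ) (hs : 20 ≤ sq) : AllC A (fun C => ∀ (Q : Kd C.O)
    (fr : Option (Fin 3)) (c : KC) (κ : Fin 10), Nod C ka sq sl Q fr c κ → ∀ y, ix C.Lam sq ≤ y → ∀ o, ∀ m ≤ 5 * C.T,
    (C.U ka).P.Pr (fun w => Z0 (C.U ka) Q m w ∧ y < Dn (C.U ka) Q o m w) ≤ ix C.Lam s) := by
  refine (numN_all hA ka sq sl (s + 1) hs).mono fun C hh Q fr c κ hQ y hy o m hm => ?_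
  have hL := C.hL
  have hR := hQ.sub.sr C ka o
  have h1 := finN_ctx C ka (lam := lr C.Lam sl C.c0) (L1 := pw C.Lam (16 * C.c0)) (y := ix C.Lam sq) hh.l2
    (CT.pw_pos hL _).le (ix_pos hL _) hR.1 (hQ.hm o) hh.hy hm
  have h2 := ix4 hL s
  have h3 := hh.hN
  have h5 := ix_pos hL (s + 1)
  have h6 : 0 ≤ MV.N0 (C.M ka) (5 * C.T) := Finset.sum_nonneg fun _ _ => C.tb.Ps.Pr_nonneg _
  have h7 : Real.exp (-(pw C.Lam (16 * C.c0))) ≤ Real.exp (-(pw C.Lam (16 * C.c0))) * (2 + MV.N0 (C.M ka) (5 * C.T)) :=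
    le_mul_of_one_le_right (Real.exp_pos _).le (by linarith)
  refine ((C.U ka).P.Pr_mono fun w _ g => lt_of_le_of_lt hy g.2).trans (h1.trans ?_)
  linarith [hh.he, hh.hd]

end Pool.Agent.GMH.RarN
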