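import Pool.Agent.GMH.UnmAB

/-!
# GMH/UnmAC (helper32): THE DENSITIES OF THE THEORIES `A`, `B` AGAINST THOSE OF `M`, when the lives of `M` are those of `tauS`

`ht : ∀ v s w, tv M v s w = tauS M.toMS v s w` (`rfl` for the run instance).
* node: `RnA_iff`, `M0A_eq`, `DnA_eq`, `De0A_eq`; `RnB_imp`, `M0B_le`, `DnB_le`, `De0B_le`;
* exact vertex: `MxA_le`, `DevA_le`, `MxB_le`, `DevB_le`; at a restart `MxA_new`, `MxB_new` (any kind).
-/

set_option autoImplicit false
set_option linter.unusedSectionVars false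
set_option linter.unusedVariables false

namespace Pool.Agent.GMH.AB

open Finset Pool.Agent.PWZ Pool.Agent.M3 Pool.Agent.GMH.TD Pool.Agent.GMH.CK Pool.Agent.GMH.MV Pool.Agent.GMH.UV
open Pool.Agent.GMH.Str Pool.Agent.GMH.SU

noncomputable section

variable {Om : Type} [Fintype Om] {M : US Om} {Q : Kd Om} {yp : ℝ} {K : Finset (Fin 3)}

section node

variable (H : Seen M) (ht : ∀ v s w, tv M v s w = tauS M.toMS v s w)

include ht

/-- the static relations of `A` are those of `M` -/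
theorem RnA_iff (o : Option (Fin 3)) (n : ℕ) (w : Om) : Rn (MA M yp H) (QA M Q) o n w ↔ Rn M Q o n w := by
  rcases o with _ | v
  · exact Iff.rfl
  · show ((Q.kv (some v) (tauS M.toMS v (tv (MA M yp H) v n w) w) w ∧ Q.al (tv (MA M yp H) v n w) w) ∧ Q.al n w) ↔
      (Q.kv (some v) (tv M v n w) w ∧ Q.al n w)
    rw [tauS_A, ht]
    exact ⟨fun h => ⟨h.1.1, h.2⟩, fun h => ⟨⟨h.1, Qal_le (stg_le _ _) h.2⟩, h.2⟩⟩

/-- the static relations of `B` are inside those of `M` -/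
theorem RnB_imp (o : Option (Fin 3)) (n : ℕ) (w : Om) (h : Rn (MB M Q yp H) (QB M Q K) o n w) : Rn M Q o n w := by
  rcases o with _ | v
  · exact h.1
  · have h1 : ((Q.kv (some v) (tauS M.toMS v (tv (MB M Q yp H) v n w) w) w ∧ Q.al (tv (MB M Q yp H) v n w) w) ∧
      nV M v (tv (MB M Q yp H) v n w) w) ∧ Q.al n w := h
    rw [tauS_B] at h1
    show Q.kv (some v) (tv M v n w) w ∧ Q.al n w
    rw [ht]
    exact ⟨h1.1.1.1, h1.2⟩

theorem M0A_eq (s : ℕ) (w : Om) : M0 (MA M yp H) (QA M Q) s w = M0 M Q s w := by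
  unfold M0
  refine sum_congr rfl fun o _ => congrArg (fun F => M.P.ce (M.S ∅ s) F w) (funext fun u => ?_)
  exact congrArg ind (propext (RnA_iff H ht o _ u))

theorem M0B_le (s : ℕ) (w : Om) : M0 (MB M Q yp H) (QB M Q K) s w ≤ M0 M Q s w := by
  unfold M0
  exact sum_le_sum fun o _ => M.P.ce_mono (fun u _ => ind_mono fun h => RnB_imp H ht o _ u h) w

theorem DnA_eq (o : Option (Fin 3)) (s : ℕ) (w : Om) : Dn (MA M yp H) (QA M Q) o s w = Dn M Q o s w := by
  unfold Dn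
  exact congrArg (fun F => M.P.ce (M.S ∅ s) F w) (funext fun u => congrArg ind (propext (RnA_iff H ht o _ u)))

theorem DnB_le (o : Option (Fin 3)) (s : ℕ) (w : Om) : Dn (MB M Q yp H) (QB M Q K) o s w ≤ Dn M Q o s w := by
  unfold Dn
  exact M.P.ce_mono (fun u _ => ind_mono fun h => RnB_imp H ht o _ u h) w

theorem De0A_eq (o : Option (Fin 3)) (q : ℕ) (w : Om) : De0 (MA M yp H) (QA M Q) o q w = De0 M Q o q w := by
  unfold De0
  exact congrArg (fun F => M.P.ce (M.S ∅ (q + 1)) F w) (funext fun u => congrArg ind (propext (RnA_iff H ht o _ u)))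

theorem De0B_le (o : Option (Fin 3)) (q : ℕ) (w : Om) : De0 (MB M Q yp H) (QB M Q K) o q w ≤ De0 M Q o q w := by
  unfold De0
  exact M.P.ce_mono (fun u _ => ind_mono fun h => RnB_imp H ht o _ u h) w

/-! ### the exact vertex -/

theorem MxA_le (v : Fin 3) (s : ℕ) (w : Om) : Mx (MA M yp H) (QA M Q) v s w ≤ Mx M Q v s w := by
  rw [Mx_eq (seenA M yp H), Mx_eq H]
  refine M.P.ce_mono (fun u _ => ind_mono fun h => ?_) w
  have h1 : Q.kv (some v) (tauS M.toMS v (tv (MA M yp H) v s u) u) u ∧ Q.al (tv (MA M yp H) v s u) u := h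
  rw [tauS_A] at h1
  show Q.kv (some v) (tv M v s u) u
  rw [ht]
  exact h1.1

theorem MxB_le (v : Fin 3) (s : ℕ) (w : Om) : Mx (MB M Q yp H) (QB M Q K) v s w ≤ Mx M Q v s w := by
  rw [Mx_eq (seenB M Q yp H), Mx_eq H]
  refine M.P.ce_mono (fun u _ => ind_mono fun h => ?_) w
  have h1 : (Q.kv (some v) (tauS M.toMS v (tv (MB M Q yp H) v s u) u) u ∧ Q.al (tv (MB M Q yp H) v s u) u) ∧
    nV M v (tv (MB M Q yp H) v s u) u := h
  rw [tauS_B] at h1
  show Q.kv (some v) (tv M v s u) u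
  rw [ht]
  exact h1.1.1

theorem DevA_le (v : Fin 3) (q : ℕ) (w : Om) : Dev (MA M yp H) (QA M Q) v q w ≤ Dev M Q v q w := by
  unfold Dev
  refine M.P.ce_mono (fun u _ => ind_mono fun h => ?_) w
  have h1 : Q.kv (some v) (tauS M.toMS v (tv (MA M yp H) v q u) u) u ∧ Q.al (tv (MA M yp H) v q u) u := h
  rw [tauS_A] at h1
  show Q.kv (some v) (tv M v q u) u
  rw [ht]
  exact h1.1

theorem DevB_le (v : Fin 3) (q : ℕ) (w : Om) : Dev (MB M Q yp H) (QB M Q K) v q w ≤ Dev M Q v q w := by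
  unfold Dev
  refine M.P.ce_mono (fun u _ => ind_mono fun h => ?_) w
  have h1 : (Q.kv (some v) (tauS M.toMS v (tv (MB M Q yp H) v q u) u) u ∧ Q.al (tv (MB M Q yp H) v q u) u) ∧
    nV M v (tv (MB M Q yp H) v q u) u := h
  rw [tauS_B] at h1
  show Q.kv (some v) (tv M v q u) u
  rw [ht]
  exact h1.1.1

/-- at a restart, any kind -/
theorem MxA_new (v : Fin 3) {s : ℕ} {w : Om} (h : tauS M.toMS v s w = s) : Mx (MA M yp H) Q v s w = Mx M Q v s w := by
  have h1 : tv (MA M yp H) v s w = s := le_antisymm (stg_le _ _) (h.symm.le.trans (tau_A H v s w))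
  have h2 : tv M v s w = s := (ht v s w).trans h
  unfold Mx
  rw [h1, h2]
  rfl

theorem MxB_new {Q' : Kd Om} (v : Fin 3) {s : ℕ} {w : Om} (h : tauS M.toMS v s w = s) :
    Mx (MB M Q yp H) Q' v s w = Mx M Q' v s w := by
  have h1 : tv (MB M Q yp H) v s w = s :=
    le_antisymm (stg_le _ _) (h.symm.le.trans ((tau_A H v s w).trans (A_B H v s w)))
  have h2 : tv M v s w = s := (ht v s w).trans h
  unfold Mx
  rw [h1, h2]
  rfl

end node

end

end Pool.Agent.GMH.AB
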