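import Pool.Agent.GMH.RarC7
import Pool.Agent.GMH.RarNG
import Pool.Agent.GMH.UnmAC

/-!
# GMH/RarC8 (helper30): THE EXACT VERTEX, THE FIELDS OF `RelC` (row C5, exact vertex): AF, RD, FV, and `B1`

* **`hmXC_all`** : the class masses of the exact vertices for all thresholds of the rounds and all kinds, no hypothesis;
* `NodX` : relations `Q.kv` inside the relations of the stays, with class masses; **`nodX_all`** : for `KSub`;
* **`afvX_all`** (AF), **`rdvX_all`** (RD), **`fvX_all`** (FV, every time `n' ≤ 5 T`) for `M = C.U ka`;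
* **`rdvS_all`** : RD with the relations of the stays `C.S3 κ`, `C.S2 i κ` (class masses of the starts only, no gap);
* **`b1_all`** : `SU.B1 (C.U ka) (GQ Q)`; **`rdAB_all`**, **`rdABS_all`**, **`fvAB_all`** : RD and FV for the theories `A`, `B`.
-/

set_option autoImplicit false
set_option linter.unusedSectionVars false

namespace Pool.Agent.GMH.RarC

open Finset Pool.Agent.PWZ Pool.Agent.M3 Pool.Agent.GM Pool.Agent.GM.Harm Pool.Agent.GMH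
open Pool.Agent.GMH.Dy Pool.Agent.GMH.MVI Pool.Agent.GMH.MVIp Pool.Agent.GMH.KF
open Pool.Agent.GMH.GamR (XN)
open Pool.Agent.GMH.UV (US Kd tv Rn Seen Stps StpC)
open Pool.Agent.GMH.TRF (ruO rpO)
open Pool.Agent.GMH.ExK
open Pool.Agent.GMH.CX Pool.Agent.GMH.V3 Pool.Agent.GMH.CT
open Pool.Agent.GMH.RarN (KSub eK_le tau_leT ofCT ix4)
open Pool.Agent.GMH.CLM (R0G bK bK_one bK_two base_g cls_gL ce_mono_cls ce_fine ltL_fac eT_lt q5)

noncomputable section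

/-! ### the class masses -/

/-- **THE CLASS MASSES OF THE EXACT VERTICES, ALL THRESHOLDS OF THE ROUNDS** -/
theorem hmXC_all {A : ℕ} (hA : 80 ≤ A) (ka : ℕ) (RR : CT.Rounds) {sq sl : ℕ} (hsl : 2 * sq + 2 + 2 * RR.eta1 ≤ sl + 9) :
    AllC A (fun C => ∀ c, CT.KcB RR C.Lam c → c.dH ≤ 1 → ∀ κ : Fin 10, (2 ≤ κ.1 → 2 * sq ≤ (CT.rd RR κ.1).q) →
      ∀ (fr o : Option (Fin 3)) (b : Fin 3), HmXC C ka b fr c κ o sq sl) := by
  refine (cls_num hA ka RR hsl).mono fun C h c hc hd κ hκ fr o b => ?_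
  have hL := C.hL
  have k2 := eK_le (RR := RR) hL hκ
  have l0 := lr_pos hL sl C.c0
  refine ⟨fun q hq w hw hg => ?_, fun q hq w hw hl => ?_⟩
  · exact ((h c hc hd κ fr o q hq w hw).1 b (2 * lr C.Lam sl C.c0 + 3) (by linarith)
      (by unfold Lr; linarith) fun _ => hg).trans k2
  · exact ((h c hc hd κ fr o q hq w hw).2.2.2 hl b).trans k2

/-- relations and their class masses at the exact vertices -/
structure NodX (C : Ctx) (ka sq sl : ℕ) (Q : Kd C.O) (fr : Option (Fin 3)) (c : KC) (κ : Fin 10) : Prop where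
  sub : KSub C Q fr c κ
  hm : ∀ b : Fin 3, HmXC C ka b fr c κ (Option.some b) sq sl

/-- **`NodX`, NO HYPOTHESIS ON MASSES** -/
theorem nodX_all {A : ℕ} (hA : 80 ≤ A) (ka : ℕ) (RR : CT.Rounds) {sq sl : ℕ} (hsl : 2 * sq + 2 + 2 * RR.eta1 ≤ sl + 9) :
    AllC A (fun C => ∀ c, CT.KcB RR C.Lam c → c.dH ≤ 1 → ∀ κ : Fin 10, (2 ≤ κ.1 → 2 * sq ≤ (CT.rd RR κ.1).q) →
      ∀ (fr : Option (Fin 3)) (Q : Kd C.O), KSub C Q fr c κ → NodX C ka sq sl Q fr c κ) :=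
  (hmXC_all hA ka RR hsl).mono fun _ h c hc hd κ hκ fr _ hQ => ⟨hQ, fun b => h c hc hd κ hκ fr _ b⟩

/-- the relations of `Q` along the lives -/
theorem sx_of {C : Ctx} (ka : ℕ) {Q : Kd C.O} {fr : Option (Fin 3)} {c : KC} {κ : Fin 10} (hQ : KSub C Q fr c κ) (b : Fin 3) :
    SubX C ka b fr c κ (Option.some b) (fun q w => Q.kv (Option.some b) (MV.tauS (C.M ka) b q w) w) :=
  ⟨fun _ _ _ _ h _ => hQ.sub _ _ _ h, fun _ _ w _ h => Alv_anti C.h C.v C.tb (tau_leT C _ w) (hQ.sub _ _ _ h).2⟩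

/-! ### the class masses of the starts, thresholds of the start itself -/

section om

variable {X β γ φ : Type} [Fintype X] [Fintype β] [Fintype φ] [Nonempty X] [Nonempty β]
variable {D : HD (Fin 3) X β γ φ} {al : ℝ} {h : D.Thick al} {prr : ℕ → Fin 3 → φ → φ} {T : ℕ} {W : Type} [Fintype W]
variable (tb : Tab D prr T W) {v : ℕ → Finset (Fin 3) → X → (Fin 3 → β) → Pt (Fin 3) X β φ}
variable {N : Finset (Fin 3) → ℝ} {SS : Finset (Finset (Fin 3))} {dg : ℕ → X → ℝ} {Lam : ℝ}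
variable {d1 kb d0 k0 p1 z : ℝ} (hd1 : 0 < d1) (hd11 : d1 ≤ 1) (hkb : 0 < kb) (hd0 : 0 < d0)
  (hd01 : d0 ≤ 1) (hk0 : 0 < k0) (hp1 : 0 < p1) (hz0 : 0 < z)

/-- **THE CLASS MASS OF THE RELATION OF A LIFE AT ITS START** : the thresholds of the start itself -/
theorem base_X (H : D.Hyp dg prr al T Lam) (R : Run h N SS (AdmDep D) v) (hS : ∀ l, univ.erase l ∈ SS) (hU : univ ∉ SS)
    (hN : ∀ l, 0 < N (univ.erase l)) {p : AP} {c : KC} {κ : Fin 10} (h1 : 0 ≤ c.e1) (h2 : 0 < c.e2) (h3 : 0 < c.e3)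
    (hd : 0 < c.dH) {L r0 : ℝ} (hr : R0G v h tb p c L r0) {q : ℕ} (hq : q ≤ 5 * T) (i : Fin 3) (fr o : Option (Fin 3))
    {w : Om W X β} (hw : tb.Ps.p w ≠ 0) (hts : MV.tauS (MSi tb (v := v) d1 kb d0 k0 p1 z hd1 hd11 hkb hd0 hd01 hk0 hp1 hz0) i q w = q)
    (hg : RarR0.gdc tb v L i q w) :
    tb.Ps.ce (MV.CN (MSi tb (v := v) d1 kb d0 k0 p1 z hd1 hd11 hkb hd0 hd01 hk0 hp1 hz0) i q) (fun u => ind (SR h v tb fr p c κ o
      (MV.tauS (MSi tb (v := v) d1 kb d0 k0 p1 z hd1 hd11 hkb hd0 hd01 hk0 hp1 hz0) i q u) u ∧ Alv h v tb p q u)) w ≤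
      bK r0 c κ := by
  by_cases hl : ltL v tb q w
  · have h5 : 5 * (q / 5) + 5 ≤ 5 * T := by
      have := hl.1
      omega
    have hle : q ≤ 5 * (q / 5) + 5 := by omega
    have s1 : tb.Ps.ce (MV.CN (MSi tb (v := v) d1 kb d0 k0 p1 z hd1 hd11 hkb hd0 hd01 hk0 hp1 hz0) i q) (fun u => ind (SR h v tb fr p c κ o
        (MV.tauS (MSi tb (v := v) d1 kb d0 k0 p1 z hd1 hd11 hkb hd0 hd01 hk0 hp1 hz0) i q u) u ∧ Alv h v tb p q u)) w ≤
        tb.Ps.ce (MV.CN (MSi tb (v := v) d1 kb d0 k0 p1 z hd1 hd11 hkb hd0 hd01 hk0 hp1 hz0) i q) (fun u => ind (cv h v tb fr c κ o (5 * (q / 5) + 5) u ∧ Alv h v tb p (5 * (q / 5) + 5) u)) w := by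
      refine ce_mono_cls fun u hu hc => ind_mono fun hh => ?_
      have hlu : ltL v tb q u := (ltL_fac tb (MV.CN_NP (MSi tb (v := v) d1 kb d0 k0 p1 z hd1 hd11 hkb hd0 hd01 hk0 hp1 hz0) i q u w hc)).2 hl
      obtain ⟨g1, g2⟩ := KDV.ltL_tauS tb hd1 hd11 hkb hd0 hd01 hk0 hp1 hz0 hlu i
      have g3 := hh.1
      unfold SR at g3
      rw [eT_lt tb g1 g2] at g3
      exact g3
    exact s1.trans (ce_fine (MV.CN_le (MSi tb (v := v) d1 kb d0 k0 p1 z hd1 hd11 hkb hd0 hd01 hk0 hp1 hz0) i hle) hw fun u hu =>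
      base_g tb hd1 hd11 hkb hd0 hd01 hk0 hp1 hz0 H R hS hU hN h1 h2 h3 hd hr h5 i fr o κ hu
        (RarR0.gdc_zero tb hr.1 i (by omega) u))
  · refine le_trans (ce_mono_cls fun u hu hc => ind_mono fun hh => ?_)
      (base_g tb hd1 hd11 hkb hd0 hd01 hk0 hp1 hz0 H R hS hU hN h1 h2 h3 hd hr hq i fr o κ hw hg)
    have hlu : ¬ ltL v tb q u := fun h6 => hl ((ltL_fac tb (MV.CN_NP (MSi tb (v := v) d1 kb d0 k0 p1 z hd1 hd11 hkb hd0 hd01 hk0 hp1 hz0) i q u w hc)).1 h6)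
    have e1 : MV.tauS (MSi tb (v := v) d1 kb d0 k0 p1 z hd1 hd11 hkb hd0 hd01 hk0 hp1 hz0) i q u = q :=
      (MV.tauS_fac (M := MSi tb (v := v) d1 kb d0 k0 p1 z hd1 hd11 hkb hd0 hd01 hk0 hp1 hz0) i q u w hc).trans hts
    have e2 : eT v tb q u = q := by
      unfold eT
      rw [if_neg hlu]
    have g3 := hh.1
    rw [e1] at g3
    unfold SR at g3
    rw [e2] at g3
    exact g3

end om

/-- the class masses of the starts of the lives -/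
def HmT (C : Ctx) (ka : ℕ) (L : ℝ) (b : Fin 3) (fr : Option (Fin 3)) (c : KC) (κ : Fin 10) (o : Option (Fin 3)) (eta : ℝ) : Prop :=
  (∀ q ≤ 5 * C.T, ∀ w, C.tb.Ps.p w ≠ 0 → MV.tauS (C.M ka) b q w = q →
    C.tb.Ps.m (XN C.tb C.v b (5 * (q / 5))) w ≤ Real.exp L * C.tb.Ps.m (XN C.tb C.v b q) w →
    C.tb.Ps.ce (XN C.tb C.v b q) (fun u => ind (SR C.h C.v C.tb fr C.p c κ o (MV.tauS (C.M ka) b q u) u ∧
      Alv C.h C.v C.tb C.p q u)) w ≤ eta) ∧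
  (∀ q ≤ 5 * C.T, ∀ w, C.tb.Ps.p w ≠ 0 → MV.tauS (C.M ka) b q w = q → ltL C.v C.tb q w →
    C.tb.Ps.ce (XN C.tb C.v b (5 * (q / 5) + 5)) (fun u => ind (SR C.h C.v C.tb fr C.p c κ o (MV.tauS (C.M ka) b q u) u ∧
      Alv C.h C.v C.tb C.p q u)) w ≤ eta)

theorem HmX.toT {C : Ctx} {ka : ℕ} {L : ℝ} {b : Fin 3} {fr : Option (Fin 3)} {c : KC} {κ : Fin 10} {o : Option (Fin 3)} {eta : ℝ}
    (h : HmX C ka L b fr c κ o eta) : HmT C ka L b fr c κ o eta :=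
  ⟨fun q hq w hw _ => h.1 q hq w hw, fun q hq w hw _ => h.2 q hq w hw⟩

/-- **THE CLASS MASSES OF THE STARTS, THRESHOLDS OF THE STAYS** -/
theorem hmT_all {A : ℕ} (hA : 80 ≤ A) (ka : ℕ) {sq sl : ℕ} (hsl : 2 * sq + 2 * Rc.eta1 ≤ sl + 9) :
    AllC A (fun C => ∀ κ : Fin 10, (2 ≤ κ.1 → 2 * sq ≤ (CT.rd Rc κ.1).q) → ∀ (fr o : Option (Fin 3)) (b : Fin 3),
      HmT C ka (2 * lr C.Lam sl C.c0 + 3) b fr (kch Rc C.Lam 0) κ o (4 ^ 8 * ix C.Lam (2 * sq))) := by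
  refine (r0B_ctx hA (e := Rc.eta1) hsl).mono fun C h1 κ hκ fr o b => ?_
  have hL := C.hL
  have i1 := CT.ix_pos hL Rc.eta1
  have i2 := CT.ix_pos hL Rc.eta2
  have i3 := CT.ix_pos hL Rc.eta3
  have id := CT.ix_pos hL Rc.kd
  have i0 := CT.ix_nn hL (2 * sq)
  have l0 := lr_pos hL sl C.c0
  have hL0 : 0 ≤ 2 * lr C.Lam sl C.c0 + 3 := by linarith
  have hL1 : 2 * lr C.Lam sl C.c0 + 3 ≤ Lr C.Lam sl C.c0 := by
    unfold Lr
    linarith
  have hR : R0G C.v C.h C.tb C.p (kch Rc C.Lam 0) (2 * lr C.Lam sl C.c0 + 3) (ix C.Lam (2 * sq)) :=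
    ⟨hL0, i0, fun q hq i w hw hg => h1 _ hL0 hL1 (kch Rc C.Lam 0) (by
      show ix C.Lam Rc.eta1 ≤ 2 * (ix C.Lam Rc.eta1 / 2)
      linarith) q hq i w hw hg⟩
  have hS : ∀ l : Fin 3, univ.erase l ∈ SS1 (Fin 3) := fun l => mem_SS1.2 (Finset.erase_ne_self.2 (mem_univ l))
  have hU : (univ : Finset (Fin 3)) ∉ SS1 (Fin 3) := fun hh => (mem_SS1.1 hh) rfl
  have hN : ∀ l : Fin 3, 0 < pr3 (Fin 3) (pw C.Lam C.c0) (pw C.Lam (c1F C.A C.c0)) (univ.erase l) := fun l =>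
    zero_lt_one.trans_le (pr3_one C.n1 C.N11 _)
  have k2 : bK (ix C.Lam (2 * sq)) (kch Rc C.Lam 0) κ ≤ (1 + 8 * 4 ^ 4) * ix C.Lam (2 * sq) := by
    rcases Nat.lt_or_ge κ.1 2 with hk | hk
    · rw [bK_one (by omega)]
      norm_num
      linarith
    · have a1 := RarN.qK_kch' hL hk
      have a2 := CT.ix_anti hL (hκ hk)
      unfold bK
      rw [if_neg (by omega)]
      norm_num at a1 ⊢
      linarith
  have k3 : bK (ix C.Lam (2 * sq)) (kch Rc C.Lam 0) κ ≤ 4 ^ 8 * ix C.Lam (2 * sq) := by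
    norm_num at k2 ⊢
    linarith
  have g1 : 0 ≤ (kch Rc C.Lam 0).e1 := show 0 ≤ ix C.Lam Rc.eta1 / 2 by linarith
  have g2 : 0 < (kch Rc C.Lam 0).e2 := show 0 < ix C.Lam Rc.eta2 / 2 by linarith
  have g3 : 0 < (kch Rc C.Lam 0).e3 := show 0 < ix C.Lam Rc.eta3 / 2 by linarith
  have g4 : 0 < (kch Rc C.Lam 0).dH := show 0 < ix C.Lam Rc.kd / 2 by linarith
  refine ⟨fun q hq w hw hts hg => ?_, fun q hq w hw _ hl => ?_⟩
  · exact (base_X C.tb (C.d1_pos ka) (C.d1_le ka) (C.kb_pos ka) C.d0_pos C.d0_le C.d0_pos C.p1_pos (C.z_pos ka) C.H C.R hS hU hN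
      (p := C.p) (κ := κ) g1 g2 g3 g4 hR hq b fr o hw hts hg).trans k3
  · exact (cls_gL C.tb (C.d1_pos ka) (C.d1_le ka) (C.kb_pos ka) C.d0_pos C.d0_le C.d0_pos C.p1_pos (C.z_pos ka) C.H C.R hS hU hN
      (p := C.p) (κ := κ) le_rfl le_rfl le_rfl le_rfl g1 g2 g3 g4 hR hq b fr o hw hl).trans k3

/-! ### the new lives, class masses of the starts only -/

section ctx

variable (C : Ctx) (ka : ℕ)
variable {lam L1 eta y R0 ep : ℝ} {k : ℕ} {b : Fin 3} {fr : Option (Fin 3)} {c : KC} {κ : Fin 10} {o : Option (Fin 3)}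
  {A : ℕ → C.O → Prop}

/-- the new lives -/
theorem new_rawT (hlam : 3 ≤ lam) (hy0 : 0 < y) (hm : HmT C ka (2 * lam + 3) b fr c κ o eta) (hy : HyX C lam L1 eta y R0 ep k)
    {E : ℕ → C.O → Prop} (hE : ∀ q w, E q w → MV.tauS (C.M ka) b q w = q) (hA : SubX C ka b fr c κ o A) :
    ∑ q ∈ range (5 * C.T + 1), C.tb.Ps.Pr (fun w => E q w ∧
        y < C.tb.Ps.ce (sgt C.D {b} (TP.nn q)) (fun u => ind (A q u)) w) ≤
      Real.exp (-L1) * (1 + C.NS ka b) + 800 * Real.exp (-lam) * (C.n * C.N1 * C.Lam) := by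
  obtain ⟨c', d', h1, h2, h3⟩ := two_others b
  have hF : ∀ q ≤ 5 * C.T, Fac (XN C.tb C.v b q) (fun w => MV.tauS (C.M ka) b q w = q) := fun q _ u w e => by
    have := MV.tauS_fac (M := C.M ka) b q u w e
    show (_ = _) = (_ = _)
    rw [this]
  have k1 := exact_new (h := C.h) C.tb C.codes (C.d1_pos ka) (C.d1_le ka) (C.kb_pos ka) C.d0_pos C.d0_le C.d0_pos C.p1_pos
    (C.z_pos ka) C.n1 C.N11 C.R C.H h1 h2 h3 hlam (half_pos hy0) hy.1
    (B := RarN.Bv C.h C.v C.tb C.p fr c κ o) (Bv_sn C) (fun e w hb => hb.2)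
    (A := fun q u => SR C.h C.v C.tb fr C.p c κ o (MV.tauS (C.M ka) b q u) u) (C := fun q w => MV.tauS (C.M ka) b q w = q)
    (fun q _ w _ => Iff.rfl) hF (eta := eta) (fun q hq w hw he _ h5 => hm.1 q hq w hw he h5)
    (fun q hq w hw he h4 h5 => hm.2 q hq w hw he (ltL_of C.tb h4 h5)) hy.2
  have k2 : ∑ q ∈ range (5 * C.T + 1), C.tb.Ps.Pr (fun w => MV.tauS (C.M ka) b q w = q) ≤ 1 + C.NS ka b := by
    rw [Finset.sum_range_succ']
    have h1 := C.tb.Ps.Pr_le_one (fun w => MV.tauS (C.M ka) b 0 w = 0)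
    have h2 : ∑ k ∈ range (5 * C.T), C.tb.Ps.Pr (fun w => MV.tauS (C.M ka) b (k + 1) w = k + 1) = C.NS ka b := rfl
    linarith
  have k4 := mul_le_mul_of_nonneg_left k2 (Real.exp_pos (-L1)).le
  refine le_trans (Finset.sum_le_sum fun q hq => C.tb.Ps.Pr_mono fun w hw hh => ⟨hE q w hh.1, ?_⟩) (k1.trans (by linarith))
  have hq' : q ≤ 5 * C.T := Nat.lt_succ_iff.1 (mem_range.1 hq)
  have h5 : C.tb.Ps.ce (sgt C.D {b} (TP.nn q)) (fun u => ind (A q u)) w ≤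
      C.tb.Ps.ce (sgt C.D {b} (TP.nn q)) (fun u => ind (SR C.h C.v C.tb fr C.p c κ o (MV.tauS (C.M ka) b q u) u ∧
        Alv C.h C.v C.tb C.p q u)) w := by
    refine ce_mono_cls fun u hu hc => ind_mono fun g => ?_
    have e1 : MV.tauS (C.M ka) b q u = q := by
      have := hF q hq' u w (sgt_XN C.codes b q u w hc)
      exact this.mpr (hE q w hh.1)
    have e2 : Alv C.h C.v C.tb C.p q u := by
      have := hA.2 q hq' u hu g
      rwa [e1] at this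
    exact ⟨hA.1 q hq' u hu g e2, e2⟩
  linarith [hh.2, hy0]

end ctx

/-- the density at the exact vertex, tables of the point -/
theorem mx_U (C : Ctx) (ka : ℕ) (Q : Kd C.O) (v : Fin 3) (s : ℕ) (w : C.O) : UV.Mx (C.U ka) Q v s w =
    C.tb.Ps.ce (sgt C.D {v} (TP.nn s)) (fun u => ind (Q.kv (Option.some v) (MV.tauS (C.M ka) v s u) u)) w :=
  UV.Mx_eq (M := C.U ka) (seen_i C.tb C.codes (C.d1_pos ka) (C.d1_le ka) (C.kb_pos ka) C.d0_pos C.d0_le C.d0_pos C.p1_pos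
    (C.z_pos ka)) v s w

/-! ### the fields -/

section fields

variable {A : ℕ} (hA : 80 ≤ A) (ka sq sl s : ℕ) (hs : 20 ≤ sq) (hsl : sq ≤ sl) (hka : sq + 24 ≤ ka)

include hA hs hsl hka

/-- the new lives, class masses of the starts only -/
theorem newT_all : AllC A (fun C => ∀ (b : Fin 3)
    (fr : Option (Fin 3)) (c : KC) (κ : Fin 10) (o : Option (Fin 3)) (R : ℕ → C.O → Prop),
    HmT C ka (2 * lr C.Lam sl C.c0 + 3) b fr c κ o (4 ^ 8 * ix C.Lam (2 * sq)) →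
    SubX C ka b fr c κ o R → ∀ E : ℕ → C.O → Prop, (∀ q w, E q w → MV.tauS (C.M ka) b q w = q) →
    ∑ q ∈ range (5 * C.T + 1), C.tb.Ps.Pr (fun w => E q w ∧
        ix C.Lam sq < C.tb.Ps.ce (sgt C.D {b} (TP.nn q)) (fun u => ind (R q u)) w) ≤ ix C.Lam s) := by
  refine (numX_all hA ka sq sl (s + 1) hs hsl hka).mono fun C hh b fr c κ o R hm hR E hE => ?_
  have hL := C.hL
  have h1 := new_rawT C ka (lam := lr C.Lam sl C.c0) (L1 := lr C.Lam sq C.c0) (y := ix C.Lam sq) hh.l3 (ix_pos hL _) hm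
    (hh.hy _ le_rfl) hE hR
  have h2 := ix4 hL s
  have h5 := ix_pos hL (s + 1)
  linarith [hh.he, hh.hN b]

/-- **EVENTS AT A START**, tables of the start : in the words of `Mx` of the run -/
theorem newMx_all : AllC A (fun C => ∀ (Q : Kd C.O) (fr : Option (Fin 3)) (c : KC) (κ : Fin 10), KSub C Q fr c κ →
    ∀ v : Fin 3, HmT C ka (2 * lr C.Lam sl C.c0 + 3) v fr c κ (Option.some v) (4 ^ 8 * ix C.Lam (2 * sq)) →
    ∀ E : ℕ → C.O → Prop, (∀ q, ∀ w, C.tb.Ps.p w ≠ 0 → E q w → MV.tauS (C.M ka) v (q + 1) w = q + 1) →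
    ∀ y, ix C.Lam sq ≤ y →
    ∑ q ∈ range (5 * C.T), C.tb.Ps.Pr (fun w => E q w ∧ y < UV.Mx (C.U ka) Q v (q + 1) w) ≤ ix C.Lam s) := by
  refine (newT_all hA ka sq sl s hs hsl hka).mono fun C h Q fr c κ hQ v hm E hE y hy => ?_
  have h1 := h v fr c κ (Option.some v) _ hm (sx_of ka hQ v) (fun q w => MV.tauS (C.M ka) v q w = q) fun _ _ e => e
  refine le_trans ?_ h1
  rw [Finset.sum_range_succ']
  have h3 := C.tb.Ps.Pr_nonneg (fun w => MV.tauS (C.M ka) v 0 w = 0 ∧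
    ix C.Lam sq < C.tb.Ps.ce (sgt C.D {v} (TP.nn 0)) (fun u => ind (Q.kv (Option.some v) (MV.tauS (C.M ka) v 0 u) u)) w)
  refine le_trans (Finset.sum_le_sum fun q _ => C.tb.Ps.Pr_mono fun w hw g => ?_) (le_add_of_nonneg_right h3)
  refine ⟨hE q w hw g.1, lt_of_le_of_lt hy ?_⟩
  rw [← mx_U]
  exact g.2

/-- **AF** -/
theorem afvX_all : AllC A (fun C => ∀ (Q : Kd C.O) (fr : Option (Fin 3)) (c : KC) (κ : Fin 10), NodX C ka sq sl Q fr c κ →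
    ∀ (St : Stps (Om := C.O)) (v : Fin 3), (∀ q w, rpO C.tb C.v v q w → St.rp v q w) →
    (∀ q w, ruO C.tb C.v q w → St.ru q w) → ∀ y, ix C.Lam sq ≤ y →
    ∑ q ∈ range (5 * C.T), (C.U ka).P.Pr (fun w => UV.afv (C.U ka) Q St v q w ∧ y < UV.Dev (C.U ka) Q v q w) ≤
      ix C.Lam s) := by
  refine (afX_all hA ka sq sl s hs hsl hka).mono fun C h Q fr c κ hQ St v hrp hru y hy => ?_
  have h1 := h v fr c κ (Option.some v) _ (hQ.hm v) (sx_of ka hQ.sub v) (AFX C ka v) fun _ _ e => e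
  refine le_trans (Finset.sum_le_sum fun q _ => (C.U ka).P.Pr_mono fun w _ g => ?_) h1
  exact ⟨⟨g.1.1, fun e => g.1.2.2.1 (hrp q w e), fun e => g.1.2.2.2 (hru q w e)⟩, lt_of_le_of_lt hy g.2⟩

/-- **RD** -/
theorem rdvX_all : AllC A (fun C => ∀ (Q Q' : Kd C.O) (fr : Option (Fin 3)) (c : KC) (κ : Fin 10), NodX C ka sq sl Q' fr c κ →
    ∀ St : Stps (Om := C.O), StpC (C.U ka) St → ∀ v y, ix C.Lam sq ≤ y →
    ∑ q ∈ range (5 * C.T), (C.U ka).P.Pr (fun w => UV.rdv (C.U ka) Q St v q w ∧ y < UV.Mx (C.U ka) Q' v (q + 1) w) ≤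
      ix C.Lam s) :=
  (newMx_all hA ka sq sl s hs hsl hka).mono fun _ h Q Q' fr c κ hQ St hC v y hy =>
    h Q' fr c κ hQ.sub v (HmX.toT (hQ.hm v)) _ (fun q w hw e => e.1.elim (hC.endp w hw v q) (hC.endu w hw v q)) y hy

/-- **FV**, every time -/
theorem fvX_all : AllC A (fun C => ∀ (Q : Kd C.O) (fr : Option (Fin 3)) (c : KC) (κ : Fin 10), NodX C ka sq sl Q fr c κ →
    ∀ v, ∀ n' ≤ 5 * C.T, ∀ y, ix C.Lam sq ≤ y →
    (C.U ka).P.Pr (fun w => y < UV.Mx (C.U ka) Q v n' w) ≤ ix C.Lam s) := by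
  refine (finX_all hA ka sq sl s hs hsl hka).mono fun C h Q fr c κ hQ v n' hn y hy => ?_
  have h1 := h v fr c κ (Option.some v) _ (hQ.hm v) (sx_of ka hQ.sub v) n' hn
  refine le_trans ((C.U ka).P.Pr_mono fun w _ g => lt_of_le_of_lt hy ?_) h1
  rw [← mx_U]
  exact g

/-- **`B1`** of the theory of the stretches -/
theorem b1_all : AllC A (fun C => ∀ (Q : Kd C.O) (fr : Option (Fin 3)) (c : KC) (κ : Fin 10), NodX C ka sq sl Q fr c κ →
    ∀ (ru : ℕ → C.O → Prop) (rp : Fin 3 → ℕ → C.O → Prop) (v : Fin 3), (∀ q w, rpO C.tb C.v v q w → rp v q w) →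
    (∀ q w, ruO C.tb C.v q w → ru q w) → ∀ y, ix C.Lam sq ≤ y →
    SU.B1 (C.U ka) (AB.GQ Q) ru rp (5 * C.T) y v ≤ ix C.Lam s) := by
  refine (afX_all hA ka sq sl s hs hsl hka).mono fun C h Q fr c κ hQ ru rp v hrp hru y hy => ?_
  have h0 := sx_of ka hQ.sub v
  have h1 := h v fr c κ (Option.some v) (fun q w => SU.Rc (C.U ka) (AB.GQ Q) v q w) (hQ.hm v)
    ⟨fun q hq w hw e e' => h0.1 q hq w hw e.1.2 e', fun q hq w hw e => h0.2 q hq w hw e.1.2⟩ (AFX C ka v) fun _ _ e => e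
  refine le_trans (Finset.sum_le_sum fun q _ => (C.U ka).P.Pr_mono fun w _ g => ?_) h1
  exact ⟨⟨g.1.1, fun e => g.1.2 (Or.inl (hrp q w e)), fun e => g.1.2 (Or.inr (hru q w e))⟩, lt_of_le_of_lt hy g.2⟩

end fields

end

end Pool.Agent.GMH.RarC
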