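import Pool.Agent.GMH.P2E
import Pool.Agent.GMH.Gdy

/-!
# GMH/RarN (helper88): THREE LETTERS AND THREE TOPS INSIDE AN EVENT OF THE HIDDEN POINT (row C5, node), abstract part

`Q` = law inside the event, `R` = law of the public class, `P` = the whole law; truncated letters `Tb`, `Tc`, `Td` (`typ`),
tops `Fb`, `Fc`, `Fd`, `Zb`, `Zc`, `Zd` = what the tops see below.
* `dv_hint`, `log_step` : Donsker - Varadhan with a hint;
* `NN` : mass of a relation under the product of the class laws (letters independent, every top from its own table);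
* `chain` : `log (1 + c) Q(A) <= prices + log (1 + c NN)`;
* `two` : `Q(A) <= 3/2 K + 3 K0 + 2 R(A)`.
-/

set_option autoImplicit false
set_option linter.unusedSectionVars false

namespace Pool.Agent.GMH.RarN

open Finset Pool.Agent.PWZ Pool.Agent.M3

noncomputable section

section dvh

variable {Om : Type*} [Fintype Om] {P Q : FP Om} {κ ζ ι η : Type*}

/-- mean over the values of a label -/
theorem E_cond_avg (Q : FP Om) (Y : Om → ι) (f : Om → ℝ) :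
    Q.E (fun w => (Q.cond fun v => Y v = Y w).E f) = Q.E f := by
  rw [← Q.E_ce Y f]
  exact Q.E_congr fun w hw => (Q.ce_eq_cond Y f hw).symm

/-- information and change of the law as a mean over the hint -/
theorem IK_eq (hac : Q.Ac P) (F : Om → κ) (Z : Om → ζ) (Y : Om → ι) :
    Q.I F Y Z + Q.klc P F Z = Q.E (fun w => (Q.cond fun v => Y v = Y w).klc P F Z) := by
  rw [I_add_klc hac, ← E_cond_avg Q Y (fun v => Real.log (rt (Q.cond fun w => Y w = Y v) P F Z v))]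
  refine Q.E_congr fun w hw => ?_
  have h0 : Q.Pr (fun v => Y v = Y w) ≠ 0 := (Q.m_pos Y hw).ne'
  unfold FP.klc
  refine FP.E_congr _ fun v hv => ?_
  have h1 := ((FP.cond_p_ne h0).1 hv).1
  have e : (fun u => Y u = Y v) = fun u => Y u = Y w := by funext u; rw [h1]
  rw [e]
  rfl

/-- the same with an inner hint -/
theorem IK_cond (hac : Q.Ac P) (F : Om → κ) (Z : Om → ζ) (T : Om → η) (O : Om → ι) :
    Q.I F (fun w => (T w, O w)) Z + Q.klc P F Z =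
      Q.E (fun w => (Q.cond fun v => T v = T w).I F O Z + (Q.cond fun v => T v = T w).klc P F Z) := by
  rw [I_add_klc hac, ← E_cond_avg Q T]
  refine Q.E_congr fun w hw => ?_
  have h0 : Q.Pr (fun v => T v = T w) ≠ 0 := (Q.m_pos T hw).ne'
  rw [I_add_klc (fun v hv => hac v ((FP.cond_p_ne h0).1 hv).2)]
  refine FP.E_congr _ fun v hv => ?_
  obtain ⟨h1, h2⟩ := (FP.cond_p_ne h0).1 hv
  have hne : Q.Pr (fun u => T u = T w ∧ O u = O v) ≠ 0 :=
    (FP.Pr_pos_of (S := fun u => T u = T w ∧ O u = O v) h2 ⟨h1, rfl⟩).ne'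
  rw [FP.cond_cond hne]
  congr 2
  congr 1
  funext u
  rw [Prod.mk.injEq, h1]

/-- **Donsker - Varadhan with a hint** -/
theorem dv_hint (hac : Q.Ac P) (F : Om → κ) (Z : Om → ζ) (Y : Om → ι) {g : ι → Om → ℝ}
    (hg : ∀ y, Fac (fun w => (F w, Z w)) (g y)) :
    Q.E (fun w => g (Y w) w) ≤ Q.I F Y Z + Q.klc P F Z +
      Q.E (fun w => Real.log (P.ce Z (fun v => Real.exp (g (Y w) v)) w)) := by
  rw [IK_eq hac, ← E_cond_avg Q Y (fun w => g (Y w) w),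
    ← E_cond_avg Q Y (fun w => Real.log (P.ce Z (fun v => Real.exp (g (Y w) v)) w)), ← FP.E_add]
  refine Q.E_mono fun w hw => ?_
  have h0 : Q.Pr (fun v => Y v = Y w) ≠ 0 := (Q.m_pos Y hw).ne'
  have hac' : (Q.cond fun v => Y v = Y w).Ac P := fun v hv => hac v ((FP.cond_p_ne h0).1 hv).2
  have h1 := klc_dv hac' F Z (hg (Y w))
  have e1 : (Q.cond fun v => Y v = Y w).E (fun v => g (Y v) v) = (Q.cond fun v => Y v = Y w).E (g (Y w)) :=
    FP.E_congr _ fun v hv => by rw [((FP.cond_p_ne h0).1 hv).1]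
  have e2 : (Q.cond fun v => Y v = Y w).E (fun v => Real.log (P.ce Z (fun u => Real.exp (g (Y v) u)) v)) =
      (Q.cond fun v => Y v = Y w).E (fun v => Real.log (P.ce Z (fun u => Real.exp (g (Y w) u)) v)) :=
    FP.E_congr _ fun v hv => by rw [((FP.cond_p_ne h0).1 hv).1]
  rw [e1, e2]
  exact h1

/-- one step for tests `log (1 + c r)` -/
theorem log_step (hac : Q.Ac P) (F : Om → κ) (Z : Om → ζ) (Y : Om → ι) {r : ι → Om → ℝ}
    (hr : ∀ y, Fac (fun w => (F w, Z w)) (r y)) (h0 : ∀ y w, 0 ≤ r y w) (h1 : ∀ y w, r y w ≤ 1) {c : ℝ} (hc : -1 < c) :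
    Q.E (fun w => Real.log (1 + c * r (Y w) w)) ≤ Q.I F Y Z + Q.klc P F Z +
      Q.E (fun w => Real.log (1 + c * P.ce Z (r (Y w)) w)) := by
  have hpos : ∀ y w, 0 < 1 + c * r y w := by
    intro y w
    have a := h0 y w
    have b := h1 y w
    rcases le_or_gt 0 c with hc0 | hc0
    · nlinarith
    · nlinarith
  have h2 := dv_hint hac F Z Y (g := fun y w => Real.log (1 + c * r y w)) (fun y v w e => by
    show Real.log (1 + c * r y v) = Real.log (1 + c * r y w)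
    rw [hr y v w e])
  refine h2.trans (le_of_eq ?_)
  congr 1
  refine Q.E_congr fun w hw => ?_
  congr 1
  have e1 : P.ce Z (fun v => Real.exp (Real.log (1 + c * r (Y w) v))) w = P.ce Z (fun v => 1 + c * r (Y w) v) w :=
    P.ce_congr (f := fun v => Real.exp (Real.log (1 + c * r (Y w) v))) (g := fun v => 1 + c * r (Y w) v)
      (fun v _ => Real.exp_log (hpos (Y w) v)) w
  rw [e1, P.ce_add, P.ce_const _ _ (hac w hw), P.ce_smul]

end dvh

section chain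

variable {Om : Type*} [Fintype Om] {P Q R : FP Om} {κ ζ ζ1 ζ2 ζ3 : Type*}

/-- conditional mean at a value -/
def vce (R : FP Om) {ι : Type*} (Z : Om → ι) (z : ι) (f : Om → ℝ) : ℝ :=
  R.E (fun v => ind (Z v = z) * f v) / R.E (fun v => ind (Z v = z))

theorem vce_nonneg {ι : Type*} (R : FP Om) (Z : Om → ι) (z : ι) {f : Om → ℝ} (hf : ∀ v, 0 ≤ f v) : 0 ≤ vce R Z z f :=
  div_nonneg (R.E_nonneg fun v _ => mul_nonneg (ind_nonneg _) (hf v)) (R.E_nonneg fun _ _ => ind_nonneg _)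

theorem vce_le_one {ι : Type*} (R : FP Om) (Z : Om → ι) (z : ι) {f : Om → ℝ} (hf : ∀ v, f v ≤ 1) : vce R Z z f ≤ 1 :=
  div_le_one_of_le₀ (R.E_mono fun v _ => mul_le_of_le_one_right (ind_nonneg _) (hf v)) (R.E_nonneg fun _ _ => ind_nonneg _)

theorem vce_zero {ι : Type*} (R : FP Om) (Z : Om → ι) (z : ι) {f : Om → ℝ} (hf : ∀ v, f v = 0) : vce R Z z f = 0 := by
  unfold vce
  rw [R.E_congr (g := fun _ => 0) fun v _ => by rw [hf v, mul_zero], R.E_const, zero_div]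

variable (R) (Tb Tc Td : Om → ζ) (Fb Fc Fd : Om → κ) (A : κ → κ → κ → ζ → ζ → ζ → Prop)

/-- the top `d` integrated -/
def a2 (fb fc : κ) (zb zc zd : ζ) : ℝ := vce R (fun v => (Tb v, Tc v)) (zb, zc) (fun v => ind (A fb fc (Fd v) zb zc zd))

/-- the tops `c`, `d` integrated -/
def a1 (fb : κ) (zb zc zd : ζ) : ℝ :=
  vce R (fun v => (Tb v, Td v)) (zb, zd) (fun v => a2 R Tb Tc Fd A fb (Fc v) zb zc zd)

/-- all tops integrated -/
def a0 (zb zc zd : ζ) : ℝ := vce R (fun v => (Tc v, Td v)) (zc, zd) (fun v => a1 R Tb Tc Td Fc Fd A (Fb v) zb zc zd)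

/-- letter `d` integrated -/
def b2 (zb zc : ζ) : ℝ := R.E (fun v => a0 R Tb Tc Td Fb Fc Fd A zb zc (Td v))

/-- letters `c`, `d` integrated -/
def b1 (zb : ζ) : ℝ := R.E (fun v => b2 R Tb Tc Td Fb Fc Fd A zb (Tc v))

/-- mass of the relation under the product law -/
def NN : ℝ := R.E (fun v => b1 R Tb Tc Td Fb Fc Fd A (Tb v))

variable {R Tb Tc Td Fb Fc Fd A}

theorem a2_nn (fb fc : κ) (zb zc zd : ζ) : 0 ≤ a2 R Tb Tc Fd A fb fc zb zc zd := vce_nonneg _ _ _ fun _ => ind_nonneg _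

theorem a2_le (fb fc : κ) (zb zc zd : ζ) : a2 R Tb Tc Fd A fb fc zb zc zd ≤ 1 := vce_le_one _ _ _ fun _ => ind_le_one _

theorem a1_nn (fb : κ) (zb zc zd : ζ) : 0 ≤ a1 R Tb Tc Td Fc Fd A fb zb zc zd := vce_nonneg _ _ _ fun _ => a2_nn _ _ _ _ _

theorem a1_le (fb : κ) (zb zc zd : ζ) : a1 R Tb Tc Td Fc Fd A fb zb zc zd ≤ 1 := vce_le_one _ _ _ fun _ => a2_le _ _ _ _ _

theorem a0_nn (zb zc zd : ζ) : 0 ≤ a0 R Tb Tc Td Fb Fc Fd A zb zc zd := vce_nonneg _ _ _ fun _ => a1_nn _ _ _ _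

theorem a0_le (zb zc zd : ζ) : a0 R Tb Tc Td Fb Fc Fd A zb zc zd ≤ 1 := vce_le_one _ _ _ fun _ => a1_le _ _ _ _

theorem b2_nn (zb zc : ζ) : 0 ≤ b2 R Tb Tc Td Fb Fc Fd A zb zc := R.E_nonneg fun _ _ => a0_nn _ _ _

theorem b2_le (zb zc : ζ) : b2 R Tb Tc Td Fb Fc Fd A zb zc ≤ 1 := by
  have := R.E_mono (f := fun v => a0 R Tb Tc Td Fb Fc Fd A zb zc (Td v)) (g := fun _ => 1) fun _ _ => a0_le _ _ _
  rwa [R.E_const] at this

theorem b1_nn (zb : ζ) : 0 ≤ b1 R Tb Tc Td Fb Fc Fd A zb := R.E_nonneg fun _ _ => b2_nn _ _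

theorem b1_le (zb : ζ) : b1 R Tb Tc Td Fb Fc Fd A zb ≤ 1 := by
  have := R.E_mono (f := fun v => b2 R Tb Tc Td Fb Fc Fd A zb (Tc v)) (g := fun _ => 1) fun _ _ => b2_le _ _
  rwa [R.E_const] at this

theorem NN_nn : 0 ≤ NN R Tb Tc Td Fb Fc Fd A := R.E_nonneg fun _ _ => b1_nn _

theorem NN_le : NN R Tb Tc Td Fb Fc Fd A ≤ 1 := by
  have := R.E_mono (f := fun v => b1 R Tb Tc Td Fb Fc Fd A (Tb v)) (g := fun _ => 1) fun _ _ => b1_le _
  rwa [R.E_const] at this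

variable {typ : ζ → Prop}

theorem a2_out (hA : ∀ fb fc fd zb zc zd, A fb fc fd zb zc zd → typ zb ∧ typ zc ∧ typ zd) (fb fc : κ) {zb zc zd : ζ}
    (h : ¬ (typ zb ∧ typ zc ∧ typ zd)) : a2 R Tb Tc Fd A fb fc zb zc zd = 0 :=
  vce_zero _ _ _ fun _ => ind_not fun ha => h (hA _ _ _ _ _ _ ha)

theorem a1_out (hA : ∀ fb fc fd zb zc zd, A fb fc fd zb zc zd → typ zb ∧ typ zc ∧ typ zd) (fb : κ) {zb zc zd : ζ}
    (h : ¬ (typ zb ∧ typ zc ∧ typ zd)) : a1 R Tb Tc Td Fc Fd A fb zb zc zd = 0 :=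
  vce_zero _ _ _ fun _ => a2_out hA _ _ h

theorem a0_out (hA : ∀ fb fc fd zb zc zd, A fb fc fd zb zc zd → typ zb ∧ typ zc ∧ typ zd) {zb zc zd : ζ}
    (h : ¬ (typ zb ∧ typ zc ∧ typ zd)) : a0 R Tb Tc Td Fb Fc Fd A zb zc zd = 0 :=
  vce_zero _ _ _ fun _ => a1_out hA _ h

variable {Zb : Om → ζ1} {Zc : Om → ζ2} {Zd : Om → ζ3} {C : Om → Prop}

/-- the relation at a point -/
def At (Tb Tc Td : Om → ζ) (Fb Fc Fd : Om → κ) (A : κ → κ → κ → ζ → ζ → ζ → Prop) (w : Om) : Prop :=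
  A (Fb w) (Fc w) (Fd w) (Tb w) (Tc w) (Td w)

/-- what the tables of the tops have to do with the class -/
structure Tbl (P R : FP Om) (C : Om → Prop) (typ : ζ → Prop) (Tb Tc Td : Om → ζ) (Fb Fc Fd : Om → κ) (Zb : Om → ζ1)
    (Zc : Om → ζ2) (Zd : Om → ζ3) : Prop where
  bd : Fac Zd Tb
  cd : Fac Zd Tc
  bc : Fac Zc Tb
  dc : Fac Zc Td
  cb : Fac Zb Tc
  db : Fac Zb Td
  td : ∀ w, C w → typ (Tb w) → typ (Tc w) → ∀ g : κ → ℝ,
    P.ce Zd (fun v => g (Fd v)) w = vce R (fun v => (Tb v, Tc v)) (Tb w, Tc w) (fun v => g (Fd v))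
  tc : ∀ w, C w → typ (Tb w) → typ (Td w) → ∀ g : κ → ℝ,
    P.ce Zc (fun v => g (Fc v)) w = vce R (fun v => (Tb v, Td v)) (Tb w, Td w) (fun v => g (Fc v))
  tb : ∀ w, C w → typ (Tc w) → typ (Td w) → ∀ g : κ → ℝ,
    P.ce Zb (fun v => g (Fb v)) w = vce R (fun v => (Tc v, Td v)) (Tc w, Td w) (fun v => g (Fb v))

/-- sum of the prices -/
def Pri (P Q R : FP Om) (Tb Tc Td : Om → ζ) (Fb Fc Fd : Om → κ) (Zb : Om → ζ1) (Zc : Om → ζ2) (Zd : Om → ζ3) : ℝ :=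
  (Q.I Fd (fun w => (Td w, (Fb w, Fc w))) Zd + Q.klc P Fd Zd) + (Q.I Fc (fun w => (Tc w, Fb w)) Zc + Q.klc P Fc Zc) +
    (Q.I Fb Tb Zb + Q.klc P Fb Zb) +
    ((Q.I Td (fun w => (Tb w, Tc w)) (fun _ => ()) + Q.klc R Td (fun _ => ())) +
      (Q.I Tc Tb (fun _ => ()) + Q.klc R Tc (fun _ => ())) + (Q.I Tb (fun _ => ()) (fun _ => ()) + Q.klc R Tb (fun _ => ())))

theorem ce_unit (R : FP Om) (f : Om → ℝ) (w : Om) : R.ce (fun _ => ()) f w = R.E f := by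
  unfold FP.ce FP.m
  have e1 : R.E (fun v => ind (() = ()) * f v) = R.E f := R.E_congr fun v _ => by rw [ind_of rfl, one_mul]
  have e2 : R.E (fun _ : Om => ind (() = ())) = 1 := by
    rw [R.E_congr (g := fun _ => 1) fun v _ => ind_of rfl, R.E_const]
  rw [e1, e2, div_one]

/-- **THE CHAIN** -/
theorem chain (hac : Q.Ac P) (hacR : Q.Ac R) (hT : Tbl P R C typ Tb Tc Td Fb Fc Fd Zb Zc Zd)
    (hC : ∀ w, Q.p w ≠ 0 → C w)
    (hA : ∀ fb fc fd zb zc zd, A fb fc fd zb zc zd → typ zb ∧ typ zc ∧ typ zd) {c : ℝ} (hc : -1 < c) :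
    Real.log (1 + c) * Q.Pr (At Tb Tc Td Fb Fc Fd A) ≤ Pri P Q R Tb Tc Td Fb Fc Fd Zb Zc Zd +
      Real.log (1 + c * NN R Tb Tc Td Fb Fc Fd A) := by
  -- start
  have s0 : Real.log (1 + c) * Q.Pr (At Tb Tc Td Fb Fc Fd A) =
      Q.E (fun w => Real.log (1 + c * ind (A (Fb w) (Fc w) (Fd w) (Tb w) (Tc w) (Td w)))) := by
    unfold FP.Pr
    rw [← FP.E_smul]
    refine Q.E_congr fun w _ => ?_
    by_cases h : A (Fb w) (Fc w) (Fd w) (Tb w) (Tc w) (Td w)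
    · have h' : At Tb Tc Td Fb Fc Fd A w := h
      rw [ind_of h, ind_of h', mul_one, mul_one]
    · have h' : ¬ At Tb Tc Td Fb Fc Fd A w := h
      rw [ind_not h, ind_not h']
      simp
  -- the top d
  have s1 := log_step hac Fd Zd (fun w => (Td w, (Fb w, Fc w)))
    (r := fun y v => ind (A y.2.1 y.2.2 (Fd v) (Tb v) (Tc v) y.1))
    (fun y v w e => by
      have e1 := (Prod.mk.inj e).1
      have e2 := (Prod.mk.inj e).2
      show ind (A y.2.1 y.2.2 (Fd v) (Tb v) (Tc v) y.1) = ind (A y.2.1 y.2.2 (Fd w) (Tb w) (Tc w) y.1)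
      rw [e1, hT.bd v w e2, hT.cd v w e2]) (fun _ _ => ind_nonneg _) (fun _ _ => ind_le_one _) hc
  have t1 : Q.E (fun w => Real.log (1 + c * P.ce Zd (fun v => ind (A (Fb w) (Fc w) (Fd v) (Tb v) (Tc v) (Td w))) w)) =
      Q.E (fun w => Real.log (1 + c * a2 R Tb Tc Fd A (Fb w) (Fc w) (Tb w) (Tc w) (Td w))) := by
    refine Q.E_congr fun w hw => ?_
    congr 3
    have e1 : P.ce Zd (fun v => ind (A (Fb w) (Fc w) (Fd v) (Tb v) (Tc v) (Td w))) w =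
        P.ce Zd (fun v => ind (A (Fb w) (Fc w) (Fd v) (Tb w) (Tc w) (Td w))) w :=
      Gdy.ce_congr_on fun v _ e => by rw [hT.bd v w e, hT.cd v w e]
    rw [e1]
    by_cases ht : typ (Tb w) ∧ typ (Tc w) ∧ typ (Td w)
    · exact hT.td w (hC w hw) ht.1 ht.2.1 (fun f => ind (A (Fb w) (Fc w) f (Tb w) (Tc w) (Td w)))
    · rw [a2_out hA _ _ ht, P.ce_congr (g := fun _ => 0) (fun v _ => ind_not fun ha => ht (hA _ _ _ _ _ _ ha)),
        P.ce_const _ _ (hac w hw)]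
  -- the top c
  have s2 := log_step hac Fc Zc (fun w => (Tc w, Fb w))
    (r := fun y v => a2 R Tb Tc Fd A y.2 (Fc v) (Tb v) y.1 (Td v))
    (fun y v w e => by
      have e1 := (Prod.mk.inj e).1
      have e2 := (Prod.mk.inj e).2
      show a2 R Tb Tc Fd A y.2 (Fc v) (Tb v) y.1 (Td v) = a2 R Tb Tc Fd A y.2 (Fc w) (Tb w) y.1 (Td w)
      rw [e1, hT.bc v w e2, hT.dc v w e2]) (fun _ _ => a2_nn _ _ _ _ _) (fun _ _ => a2_le _ _ _ _ _) hc
  have t2 : Q.E (fun w => Real.log (1 + c * P.ce Zc (fun v => a2 R Tb Tc Fd A (Fb w) (Fc v) (Tb v) (Tc w) (Td v)) w)) =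
      Q.E (fun w => Real.log (1 + c * a1 R Tb Tc Td Fc Fd A (Fb w) (Tb w) (Tc w) (Td w))) := by
    refine Q.E_congr fun w hw => ?_
    congr 3
    have e1 : P.ce Zc (fun v => a2 R Tb Tc Fd A (Fb w) (Fc v) (Tb v) (Tc w) (Td v)) w =
        P.ce Zc (fun v => a2 R Tb Tc Fd A (Fb w) (Fc v) (Tb w) (Tc w) (Td w)) w :=
      Gdy.ce_congr_on fun v _ e => by rw [hT.bc v w e, hT.dc v w e]
    rw [e1]
    by_cases ht : typ (Tb w) ∧ typ (Tc w) ∧ typ (Td w)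
    · exact hT.tc w (hC w hw) ht.1 ht.2.2 (fun f => a2 R Tb Tc Fd A (Fb w) f (Tb w) (Tc w) (Td w))
    · rw [a1_out hA _ ht, P.ce_congr (g := fun _ => 0) (fun v _ => a2_out hA _ _ ht), P.ce_const _ _ (hac w hw)]
  -- the top b
  have s3 := log_step hac Fb Zb Tb
    (r := fun y v => a1 R Tb Tc Td Fc Fd A (Fb v) y (Tc v) (Td v))
    (fun y v w e => by
      have e1 := (Prod.mk.inj e).1
      have e2 := (Prod.mk.inj e).2
      show a1 R Tb Tc Td Fc Fd A (Fb v) y (Tc v) (Td v) = a1 R Tb Tc Td Fc Fd A (Fb w) y (Tc w) (Td w)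
      rw [e1, hT.cb v w e2, hT.db v w e2]) (fun _ _ => a1_nn _ _ _ _) (fun _ _ => a1_le _ _ _ _) hc
  have t3 : Q.E (fun w => Real.log (1 + c * P.ce Zb (fun v => a1 R Tb Tc Td Fc Fd A (Fb v) (Tb w) (Tc v) (Td v)) w)) =
      Q.E (fun w => Real.log (1 + c * a0 R Tb Tc Td Fb Fc Fd A (Tb w) (Tc w) (Td w))) := by
    refine Q.E_congr fun w hw => ?_
    congr 3
    have e1 : P.ce Zb (fun v => a1 R Tb Tc Td Fc Fd A (Fb v) (Tb w) (Tc v) (Td v)) w =
        P.ce Zb (fun v => a1 R Tb Tc Td Fc Fd A (Fb v) (Tb w) (Tc w) (Td w)) w :=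
      Gdy.ce_congr_on fun v _ e => by rw [hT.cb v w e, hT.db v w e]
    rw [e1]
    by_cases ht : typ (Tb w) ∧ typ (Tc w) ∧ typ (Td w)
    · exact hT.tb w (hC w hw) ht.2.1 ht.2.2 (fun f => a1 R Tb Tc Td Fc Fd A f (Tb w) (Tc w) (Td w))
    · rw [a0_out hA ht, P.ce_congr (g := fun _ => 0) (fun v _ => a1_out hA _ ht), P.ce_const _ _ (hac w hw)]
  -- the letters
  have s4 := log_step hacR Td (fun _ => ()) (fun w => (Tb w, Tc w))
    (r := fun y v => a0 R Tb Tc Td Fb Fc Fd A y.1 y.2 (Td v))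
    (fun y v w e => by
      show a0 R Tb Tc Td Fb Fc Fd A y.1 y.2 (Td v) = a0 R Tb Tc Td Fb Fc Fd A y.1 y.2 (Td w)
      rw [(Prod.mk.inj e).1]) (fun _ _ => a0_nn _ _ _) (fun _ _ => a0_le _ _ _) hc
  have s5 := log_step hacR Tc (fun _ => ()) Tb
    (r := fun y v => b2 R Tb Tc Td Fb Fc Fd A y (Tc v))
    (fun y v w e => by
      show b2 R Tb Tc Td Fb Fc Fd A y (Tc v) = b2 R Tb Tc Td Fb Fc Fd A y (Tc w)
      rw [(Prod.mk.inj e).1]) (fun _ _ => b2_nn _ _) (fun _ _ => b2_le _ _) hc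
  have s6 := log_step hacR Tb (fun _ => ()) (fun _ => ())
    (r := fun _ v => b1 R Tb Tc Td Fb Fc Fd A (Tb v))
    (fun y v w e => by
      show b1 R Tb Tc Td Fb Fc Fd A (Tb v) = b1 R Tb Tc Td Fb Fc Fd A (Tb w)
      rw [(Prod.mk.inj e).1]) (fun _ _ => b1_nn _) (fun _ _ => b1_le _) hc
  have t4 : Q.E (fun w => Real.log (1 + c * R.ce (fun _ => ()) (fun v => a0 R Tb Tc Td Fb Fc Fd A (Tb w) (Tc w) (Td v)) w)) =
      Q.E (fun w => Real.log (1 + c * b2 R Tb Tc Td Fb Fc Fd A (Tb w) (Tc w))) :=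
    Q.E_congr fun w _ => by rw [ce_unit]; rfl
  have t5 : Q.E (fun w => Real.log (1 + c * R.ce (fun _ => ()) (fun v => b2 R Tb Tc Td Fb Fc Fd A (Tb w) (Tc v)) w)) =
      Q.E (fun w => Real.log (1 + c * b1 R Tb Tc Td Fb Fc Fd A (Tb w))) :=
    Q.E_congr fun w _ => by rw [ce_unit]; rfl
  have t6 : Q.E (fun w => Real.log (1 + c * R.ce (fun _ => ()) (fun v => b1 R Tb Tc Td Fb Fc Fd A (Tb v)) w)) =
      Real.log (1 + c * NN R Tb Tc Td Fb Fc Fd A) := by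
    rw [← Q.E_const (Real.log (1 + c * NN R Tb Tc Td Fb Fc Fd A))]
    exact Q.E_congr fun w _ => by rw [ce_unit]; rfl
  rw [s0]
  rw [t1] at s1
  rw [t2] at s2
  rw [t3] at s3
  rw [t4] at s4
  rw [t5] at s5
  rw [t6] at s6
  unfold Pri
  linarith

/-- **the relation inside the event and in the class** -/
theorem two (hac : Q.Ac P) (hacR : Q.Ac R) (hRP : R.Ac P) (hT : Tbl P R C typ Tb Tc Td Fb Fc Fd Zb Zc Zd)
    (hC : ∀ w, R.p w ≠ 0 → C w)
    (hA : ∀ fb fc fd zb zc zd, A fb fc fd zb zc zd → typ zb ∧ typ zc ∧ typ zd) {K K0 : ℝ}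
    (hK : Pri P Q R Tb Tc Td Fb Fc Fd Zb Zc Zd ≤ K) (hK0 : Pri P R R Tb Tc Td Fb Fc Fd Zb Zc Zd ≤ K0) (hKn : 0 ≤ K)
    (hK0n : 0 ≤ K0) :
    Q.Pr (At Tb Tc Td Fb Fc Fd A) ≤ 3 / 2 * K + 3 * K0 + 2 * R.Pr (At Tb Tc Td Fb Fc Fd A) := by
  set q := Q.Pr (At Tb Tc Td Fb Fc Fd A) with hq
  set r := R.Pr (At Tb Tc Td Fb Fc Fd A) with hr
  set n := NN R Tb Tc Td Fb Fc Fd A with hn
  have n0 : 0 ≤ n := NN_nn
  have n1 : n ≤ 1 := NN_le
  have h1 := chain (c := 1) hac hacR hT (fun w hw => hC w (hacR w hw)) hA (by norm_num)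
  have h2 := chain (c := -(1 / 2)) hRP (fun w hw => hw) hT hC hA (by norm_num)
  rw [← hq, ← hn] at h1
  rw [← hr, ← hn] at h2
  have l2 := Real.log_two_gt_d9
  have l2' := Real.log_two_lt_d9
  have e1 : Real.log (1 + 1) = Real.log 2 := by norm_num
  have e2 : Real.log (1 + -(1 / 2)) = - Real.log 2 := by
    rw [show (1 : ℝ) + -(1 / 2) = 2⁻¹ by norm_num, Real.log_inv]
  have g1 : Real.log (1 + 1 * n) ≤ n := by
    have := Real.log_le_sub_one_of_pos (show 0 < 1 + 1 * n by linarith)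
    linarith
  have g2 : Real.log (1 + -(1 / 2) * n) ≤ -(1 / 2) * n := by
    have := Real.log_le_sub_one_of_pos (show 0 < 1 + -(1 / 2) * n by linarith)
    linarith
  rw [e1] at h1
  rw [e2] at h2
  have q0 : 0 ≤ q := Q.Pr_nonneg _
  have r0 : 0 ≤ r := R.Pr_nonneg _
  have h3 : n ≤ 2 * K0 + 2 * Real.log 2 * r := by nlinarith
  have h4 : Real.log 2 * q ≤ K + 2 * K0 + 2 * Real.log 2 * r := by nlinarith
  have h5 : Real.log 2 * q ≤ Real.log 2 * (3 / 2 * K + 3 * K0 + 2 * r) := by nlinarith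
  exact le_of_mul_le_mul_left h5 (by linarith)

end chain

end

end Pool.Agent.GMH.RarN
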