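import Pool.Agent.GMH.RarN
import Pool.Agent.GMH.BitPr2

/-!
# GMH/RarN2 (helper88): A RELATION INSIDE AN EVENT OF THE HIDDEN POINT, saturated state (row C5, node), the tools

`C0 = xc D U t ∅ w0` public class, `V` = event of (hidden point, node) inside it (`In`), `L = log (1 / P(V | C0))`.
* `ref_law` : the law of the letter of `j` does not change if other points are exact;
* `surp` : mean surprise of (`V`, a label of the vertices `J`) from the class with exact points `J`;
* `klc_ref`, `far` : the top which does not see the exact point;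
* `tz`, `Hc_tz` : point and truncated letter.
-/

set_option autoImplicit false
set_option linter.unusedSectionVars false

namespace Pool.Agent.GMH.RarN

open Finset Pool.Agent.PWZ Pool.Agent.M3 Pool.Agent.GM Pool.Agent.GM.Harm Pool.Agent.GMH

section inst

variable {K X β γ φ υ : Type} [Fintype K] [DecidableEq K] [Fintype X] [Fintype β] [Fintype φ] [Nonempty X] [Nonempty β]
  {D : HD K X β γ φ} {al : ℝ} {h : D.Thick al} {N : Finset K → ℝ} {S : Finset (Finset K)}
  {U : Finset K → X → (K → β) → υ} {t : ℕ} {b c d : K} {w0 : Pt K X β φ} {V : Pt K X β φ → Prop}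

/-- an event of (hidden point, node) inside the public class of `w0` -/
structure In (h : D.Thick al) (U : Finset K → X → (K → β) → υ) (t : ℕ) (w0 : Pt K X β φ) (V : Pt K X β φ → Prop) :
    Prop where
  fac : Fac (Ah D t ∅) V
  self : V w0
  supp : (D.P h t).p w0 ≠ 0
  sub : ∀ v, V v → xc D U t ∅ w0 v

theorem xc_node {v w : Pt K X β φ} (hv : xc D U t ∅ w0 v) (hw : xc D U t ∅ w0 w) : BB D t ∅ v = BB D t ∅ w :=
  hv.2.trans hw.2.symm

theorem xc_I {I : Finset K} {v w : Pt K X β φ} (hw : xc D U t ∅ w0 w) : xc D U t I w v ↔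
    (xc D U t ∅ w0 v ∧ BB D t I v = BB D t I w) := by
  constructor
  · intro hv
    have h1 := hv.2
    rw [BB_eq] at h1
    refine ⟨⟨hv.1.trans hw.1, ?_⟩, hv.2⟩
    have h2 := hw.2
    rw [BB_eq] at h2 ⊢
    exact ⟨fun j hj => absurd hj (Finset.notMem_empty j), h1.2.1.trans h2.2.1, fun j => (h1.2.2 j).trans (h2.2.2 j)⟩
  · rintro ⟨hv, h1⟩
    exact ⟨hv.1.trans hw.1.symm, h1⟩

theorem In.ne (I : In h U t w0 V) : (D.P h t).Pr V ≠ 0 := (FP.Pr_pos_of (S := V) I.supp I.self).ne'

theorem In.pt (I : In h U t w0 V) {v : Pt K X β φ} (hv : ((D.P h t).cond V).p v ≠ 0) : V v ∧ (D.P h t).p v ≠ 0 :=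
  (FP.cond_p_ne I.ne).1 hv

/-- the whole class -/
theorem In.cls (B : Bk h N S U t b c d) (hw0 : (D.P h t).p w0 ≠ 0) : In h U t w0 (xc D U t ∅ w0) where
  fac := xc_fac ∅ w0 B.dep B.era
  self := xc_self U t ∅ w0
  supp := hw0
  sub := fun _ hv => hv

theorem In.ac (I : In h U t w0 V) : ((D.P h t).cond V).Ac ((D.P h t).cond (xc D U t ∅ w0)) := fun w hw => by
  obtain ⟨h1, h2⟩ := I.pt hw
  exact (FP.cond_p_ne (xc_ne I.supp)).2 ⟨I.sub w h1, h2⟩

/-- **the law of (hidden point, point of `j`) does not see the other points** -/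
theorem ref_law (B : Bk h N S U t b c d) {I : Finset K} {j : K} (hj : j ∉ I) {w : Pt K X β φ}
    (hw : (D.P h t).p w ≠ 0) {g : Pt K X β φ → ℝ} (hg : Fac (Ah D t {j}) g) :
    ((D.P h t).cond (xc D U t I w)).E g = ((D.P h t).cond (xc D U t ∅ w)).E g := by
  classical
  set P := D.P h t with hP
  set C := xc D U t ∅ w with hC
  set R := P.cond C with hR
  have hC0 : P.Pr C ≠ 0 := xc_ne hw
  have hI0 : P.Pr (xc D U t I w) ≠ 0 := xc_ne hw
  have hnode : ∀ v u, C v → C u → BB D t ∅ v = BB D t ∅ u := fun v u hv hu => hv.2.trans hu.2.symm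
  have hi1 := cls_indep (h := h) (xc_fac (U := U) ∅ w B.dep B.era) hnode (xc_self U t ∅ w) hC0
  have hi3 := cls_indep3 (h := h) j (xc_fac (U := U) ∅ w B.dep B.era) hnode (xc_self U t ∅ w) hC0
  rw [← hP, ← hC, ← hR] at hi1 hi3
  -- the event of the points
  set s : Pt K X β φ → Prop := fun v => ∀ i ∈ I, v.2.1 i = w.2.1 i with hs
  have hxs : ∀ v, xc D U t I w v ↔ (C v ∧ s v) := by
    intro v
    rw [xc_I (w0 := w) (xc_self U t ∅ w)]
    refine and_congr_right fun hv => ?_
    have h1 := hv.2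
    rw [BB_eq] at h1 ⊢
    exact ⟨fun h2 => h2.1, fun h2 => ⟨h2, h1.2⟩⟩
  have hsR : R.Pr s ≠ 0 := by
    have h1 : R.p w ≠ 0 := (FP.cond_p_ne hC0).2 ⟨xc_self U t ∅ w, hw⟩
    exact (FP.Pr_pos_of (S := s) h1 (fun _ _ => rfl)).ne'
  have e0 : P.cond (xc D U t I w) = R.cond s := by
    have e : xc D U t I w = fun v => C v ∧ s v := by
      funext v
      exact propext (hxs v)
    rw [e] at hI0 ⊢
    rw [hR, FP.cond_cond hI0]
  rw [e0, FP.cond_E hsR, div_eq_iff hsR]
  -- the function at a fixed point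
  set gy : β → Pt K X β φ → ℝ := fun y v => g (v.1, (Function.update w.2.1 j y, w.2.2)) with hgy
  have hgv : ∀ v, C v → ∀ y, v.2.1 j = y → g v = gy y v := by
    intro v hv y hy
    refine hg _ _ ?_
    have h1 := hv.2
    rw [BB_eq] at h1
    unfold Ah
    rw [Prod.mk.injEq, BB_eq]
    refine ⟨rfl, fun i hi => ?_, rfl, fun i => ?_⟩
    · rw [Finset.mem_singleton.1 hi]
      show v.2.1 j = Function.update w.2.1 j y j
      rw [Function.update_self, hy]
    · show D.qb t (v.2.1 i) = D.qb t (Function.update w.2.1 j y i)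
      by_cases hij : i = j
      · subst hij
        rw [Function.update_self, hy]
      · rw [Function.update_of_ne hij]
        exact h1.2.2 i
  have hsum : ∀ (k : Pt K X β φ → ℝ), R.E (fun v => k v * g v) = ∑ y : β, R.E (fun v => ind (v.2.1 j = y) * (k v * gy y v)) := by
    intro k
    rw [← R.E_sum]
    refine R.E_congr fun v hv => ?_
    have hCv := ((FP.cond_p_ne hC0).1 hv).1
    rw [Finset.sum_eq_single (v.2.1 j)]
    · rw [ind_of rfl, one_mul, hgv v hCv _ rfl]
    · intro y _ hy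
      rw [ind_not fun hh => hy hh.symm, zero_mul]
    · intro hh
      exact absurd (Finset.mem_univ _) hh
  have hfy : ∀ y : β, Fac (fun v : Pt K X β φ => v.2.1 j) (fun v => ind (v.2.1 j = y)) := fun y v u hvu => by
    have : v.2.1 j = u.2.1 j := hvu
    show ind (v.2.1 j = y) = ind (u.2.1 j = y)
    rw [this]
  have hfg : ∀ y : β, Fac (fun v : Pt K X β φ => v.1) (gy y) := fun y v u hvu => by
    have : v.1 = u.1 := hvu
    show g (v.1, _) = g (u.1, _)
    rw [this]
  have hfs : Fac (fun v : Pt K X β φ => (v.1, ((fun i => if i = j then none else some (v.2.1 i) : K → Option β), v.2.2 j)))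
      (fun v => ind (s v)) := by
    intro v u hvu
    simp only [Prod.mk.injEq] at hvu
    have h1 : ∀ i ∈ I, v.2.1 i = u.2.1 i := by
      intro i hi
      have hij : i ≠ j := fun hh => hj (hh ▸ hi)
      have h2 := congrFun hvu.2.1 i
      rw [if_neg hij, if_neg hij] at h2
      exact Option.some.inj h2
    show ind (s v) = ind (s u)
    congr 1
    refine propext (forall_congr' fun i => forall_congr' fun hi => ?_)
    rw [h1 i hi]
  have hfsy : Fac (fun v : Pt K X β φ => v.2.1) (fun v => ind (s v)) := by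
    intro v u hvu
    have h1 : v.2.1 = u.2.1 := hvu
    show ind (s v) = ind (s u)
    congr 1
    refine propext (forall_congr' fun i => forall_congr' fun _ => ?_)
    rw [h1]
  have h3 : ∀ (y : β), R.E (fun v => ind (v.2.1 j = y) * (ind (s v) * gy y v)) =
      R.E (fun v => ind (v.2.1 j = y)) * (R.Pr s * R.E (gy y)) := by
    intro y
    have a1 := hi3 (fun v => ind (v.2.1 j = y)) (fun v => ind (s v) * gy y v) (hfy y) (fun v u hvu => by
      have h4 : v.1 = u.1 := (Prod.mk.inj hvu).1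
      show ind (s v) * gy y v = ind (s u) * gy y u
      have h5 : ind (s v) = ind (s u) := hfs v u hvu
      rw [h5, hfg y v u h4])
    have a2 := hi1 (gy y) (fun v => ind (s v)) (hfg y) hfsy
    have a3 : R.E (fun v => ind (s v) * gy y v) = R.Pr s * R.E (gy y) := by
      rw [R.E_congr (g := fun v => gy y v * ind (s v)) fun v _ => mul_comm _ _, a2, mul_comm]
      rfl
    rw [a1, a3]
  have h4 : ∀ (y : β), R.E (fun v => ind (v.2.1 j = y) * (1 * gy y v)) =
      R.E (fun v => ind (v.2.1 j = y)) * R.E (gy y) := by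
    intro y
    have a1 := hi3 (fun v => ind (v.2.1 j = y)) (gy y) (hfy y) (fun v u hvu => by
      have h4 : v.1 = u.1 := (Prod.mk.inj hvu).1
      exact hfg y v u h4)
    rw [← a1]
    exact R.E_congr fun v _ => by rw [one_mul]
  rw [hsum fun v => ind (s v), Finset.sum_congr rfl fun y _ => h3 y]
  have h5 : R.E g = R.E (fun v => 1 * g v) := R.E_congr fun v _ => (one_mul _).symm
  rw [h5, hsum fun _ => 1, Finset.sum_congr rfl fun y _ => h4 y, Finset.sum_mul]
  exact Finset.sum_congr rfl fun y _ => by ring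

/-- the points do not see the event -/
theorem In.pts (B : Bk h N S U t b c d) (I : In h U t w0 V) (J : Finset K) {w : Pt K X β φ} (hw : V w) :
    ((D.P h t).cond V).m (BB D t J) w = ((D.P h t).cond (xc D U t ∅ w0)).m (BB D t J) w := by
  classical
  set P := D.P h t with hP
  set C := xc D U t ∅ w0 with hC
  set R := P.cond C with hR
  have hC0 : P.Pr C ≠ 0 := xc_ne I.supp
  have hnode : ∀ v u, C v → C u → BB D t ∅ v = BB D t ∅ u := fun v u hv hu => hv.2.trans hu.2.symm
  have hi1 := cls_indep (h := h) (xc_fac (U := U) ∅ w0 B.dep B.era) hnode (xc_self U t ∅ w0) hC0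
  rw [← hP, ← hC, ← hR] at hi1
  have hVR : R.Pr V ≠ 0 := by
    have h1 : R.p w0 ≠ 0 := (FP.cond_p_ne hC0).2 ⟨xc_self U t ∅ w0, I.supp⟩
    exact (FP.Pr_pos_of (S := V) h1 I.self).ne'
  have e0 : P.cond V = R.cond V := by
    have e : (fun v => C v ∧ V v) = V := by
      funext v
      exact propext ⟨fun hh => hh.2, fun hh => ⟨I.sub v hh, hh⟩⟩
    rw [hR, FP.cond_cond (by rw [e]; exact I.ne), e]
  -- on the class
  have hV : ∀ v, C v → V v = V (v.1, w0.2) := by
    intro v hv
    refine I.fac _ _ ?_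
    have h1 := hv.2
    rw [BB_eq] at h1
    unfold Ah
    rw [Prod.mk.injEq, BB_eq]
    exact ⟨rfl, fun i hi => absurd hi (Finset.notMem_empty i), rfl, h1.2.2⟩
  have hB : ∀ v, C v → (BB D t J v = BB D t J w ↔ ∀ i ∈ J, v.2.1 i = w.2.1 i) := by
    intro v hv
    have h1 := hv.2.trans (I.sub w hw).2.symm
    rw [BB_eq] at h1 ⊢
    exact ⟨fun h2 => h2.1, fun h2 => ⟨h2, h1.2⟩⟩
  rw [e0]
  show (R.cond V).E _ = R.E _
  rw [FP.cond_E hVR, div_eq_iff hVR]
  have a := hi1 (fun v => ind (V (v.1, w0.2))) (fun v => ind (∀ i ∈ J, v.2.1 i = w.2.1 i)) (fun v u hvu => by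
    have : v.1 = u.1 := hvu
    show ind (V (v.1, w0.2)) = ind (V (u.1, w0.2))
    rw [this]) (fun v u hvu => by
    have : v.2.1 = u.2.1 := hvu
    show ind (∀ i ∈ J, v.2.1 i = w.2.1 i) = ind (∀ i ∈ J, u.2.1 i = w.2.1 i)
    rw [this])
  have e1 : R.E (fun v => ind (V v) * ind (BB D t J v = BB D t J w)) =
      R.E (fun v => ind (V (v.1, w0.2)) * ind (∀ i ∈ J, v.2.1 i = w.2.1 i)) := R.E_congr fun v hv => by
    have hCv := ((FP.cond_p_ne hC0).1 hv).1
    rw [hV v hCv, propext (hB v hCv)]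
  have e2 : R.E (fun v => ind (BB D t J v = BB D t J w)) = R.E (fun v => ind (∀ i ∈ J, v.2.1 i = w.2.1 i)) :=
    R.E_congr fun v hv => by
      have hCv := ((FP.cond_p_ne hC0).1 hv).1
      rw [propext (hB v hCv)]
  have e3 : R.Pr V = R.E (fun v => ind (V (v.1, w0.2))) := R.E_congr fun v hv => by
    have hCv := ((FP.cond_p_ne hC0).1 hv).1
    show ind (V v) = _
    rw [hV v hCv]
  rw [e1, a, e2, e3, mul_comm]

/-- **the mean surprise** of (`V`, label `Y`) from the class with the exact points `J` -/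
theorem surp (B : Bk h N S U t b c d) (I : In h U t w0 V) (J : Finset K) {ι : Type*} {Y : Pt K X β φ → ι}
    (hY : ∀ v w, xc D U t ∅ w0 v → xc D U t ∅ w0 w → Y v = Y w → BB D t J v = BB D t J w) :
    ((D.P h t).cond V).E (fun w => Real.log (1 / ((D.P h t).cond (xc D U t J w)).Pr (fun v => V v ∧ Y v = Y w))) =
      Real.log (1 / ((D.P h t).cond (xc D U t ∅ w0)).Pr V) + ((D.P h t).cond V).Hc Y (BB D t J) := by
  classical
  set P := D.P h t with hP
  set C := xc D U t ∅ w0 with hC
  set R := P.cond C with hR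
  set Q := P.cond V with hQ
  have hC0 : P.Pr C ≠ 0 := xc_ne I.supp
  have hV0 : P.Pr V ≠ 0 := I.ne
  rw [Hc_eq_E_log, ← Q.E_const (Real.log (1 / R.Pr V)), ← FP.E_add]
  refine Q.E_congr fun w hw => ?_
  obtain ⟨hVw, hpw⟩ := I.pt hw
  have hCw := I.sub w hVw
  have hx0 : P.Pr (xc D U t J w) ≠ 0 := xc_ne hpw
  -- the masses
  have m1 : (P.cond (xc D U t J w)).Pr (fun v => V v ∧ Y v = Y w) = P.Pr (fun v => V v ∧ Y v = Y w) / P.Pr (xc D U t J w) := by
    rw [FP.cond_Pr hx0]
    congr 2
    funext v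
    refine propext ⟨fun hh => hh.2, fun hh => ⟨?_, hh⟩⟩
    have hCv := I.sub v hh.1
    exact (xc_I hCw).2 ⟨hCv, hY v w hCv hCw hh.2⟩
  have m2 : Q.m (fun v => (Y v, BB D t J v)) w = P.Pr (fun v => V v ∧ Y v = Y w) / P.Pr V := by
    show (P.cond V).E _ = _
    rw [FP.cond_E hV0]
    congr 1
    unfold FP.Pr
    refine P.E_congr fun v _ => ?_
    by_cases hv : V v
    · by_cases hy : Y v = Y w
      · have h1 : (Y v, BB D t J v) = (Y w, BB D t J w) := by rw [hy, hY v w (I.sub v hv) hCw hy]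
        rw [ind_of hv, ind_of h1, ind_of ⟨hv, hy⟩, one_mul]
      · have h1 : ¬ (Y v, BB D t J v) = (Y w, BB D t J w) := fun hh => hy (Prod.mk.inj hh).1
        rw [ind_of hv, ind_not h1, ind_not (fun hh => hy hh.2 : ¬ (V v ∧ Y v = Y w)), mul_zero]
    · have h2 : ¬ (V v ∧ Y v = Y w) := fun hh => hv hh.1
      rw [ind_not hv, ind_not h2, zero_mul]
  have m3 : Q.m (BB D t J) w = P.Pr (xc D U t J w) / P.Pr C := by
    rw [hQ, I.pts B J hVw]
    show (P.cond C).E _ = _
    rw [FP.cond_E hC0]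
    congr 1
    unfold FP.Pr
    refine P.E_congr fun v _ => ?_
    have e : ind (xc D U t J w v) = ind (C v) * ind (BB D t J v = BB D t J w) := by
      rw [← ind_and]
      congr 1
      exact propext (xc_I hCw)
    rw [e]
  have m4 : R.Pr V = P.Pr V / P.Pr C := by
    rw [hR, FP.cond_Pr hC0]
    congr 2
    funext v
    exact propext ⟨fun hh => hh.2, fun hh => ⟨I.sub v hh, hh⟩⟩
  have p1 : 0 < P.Pr (fun v => V v ∧ Y v = Y w) := FP.Pr_pos_of (S := fun v => V v ∧ Y v = Y w) hpw ⟨hVw, rfl⟩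
  have p2 : 0 < P.Pr (xc D U t J w) := lt_of_le_of_ne (P.Pr_nonneg _) (Ne.symm hx0)
  have p3 : 0 < P.Pr V := lt_of_le_of_ne (P.Pr_nonneg _) (Ne.symm hV0)
  have p4 : 0 < P.Pr C := lt_of_le_of_ne (P.Pr_nonneg _) (Ne.symm hC0)
  rw [m1, m2, m3, m4, ← Real.log_mul (by positivity) (by positivity)]
  congr 1
  field_simp

/-! ### the tops -/

/-- the reference law of a top: exact foreign point or not -/
theorem klc_ref (B : Bk h N S U t b c d) {Q : FP (Pt K X β φ)} {w : Pt K X β φ} (hw : (D.P h t).p w ≠ 0)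
    (hQ : ∀ v, Q.p v ≠ 0 → xc D U t {b} w v ∧ (D.P h t).p v ≠ 0) :
    Q.klc (D.P h t) (fun v => v.2.2 b) (Zf D U t b) =
      Q.klc ((D.P h t).cond (xc D U t {b} w)) (fun v => v.2.2 b) (Zf D U t b) := by
  unfold FP.klc
  refine Q.E_congr fun v hv => ?_
  obtain ⟨h1, h2⟩ := hQ v hv
  have e := pv_hw B h2 (v.2.2 b)
  have eQ : QB h U t b v = (D.P h t).cond (xc D U t {b} w) := by
    unfold QB
    have : xc D U t {b} v = xc D U t {b} w := by
      funext u
      show (le (LL U) ∅ u = le (LL U) ∅ v ∧ BB D t {b} u = BB D t {b} v) =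
        (le (LL U) ∅ u = le (LL U) ∅ w ∧ BB D t {b} u = BB D t {b} w)
      rw [h1.1, h1.2]
    rw [this]
  rw [eQ] at e
  have a1 := (D.P h t).pv_self (Zf D U t b) (fun v => v.2.2 b) v
  have a2 := ((D.P h t).cond (xc D U t {b} w)).pv_self (Zf D U t b) (fun v => v.2.2 b) v
  have e3 : (D.P h t).m (fun u => (u.2.2 b, Zf D U t b u)) v / (D.P h t).m (Zf D U t b) v =
      ((D.P h t).cond (xc D U t {b} w)).m (fun u => (u.2.2 b, Zf D U t b u)) v /
        ((D.P h t).cond (xc D U t {b} w)).m (Zf D U t b) v := by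
    rw [← a1, ← a2]
    exact e
  rw [e3]

/-- **the top which does not see the exact point `b`**, any event of (hidden point, exact point of `b`) -/
theorem far (B : Bk h N S U t b c d) {w : Pt K X β φ} (hw : (D.P h t).p w ≠ 0) {E : Pt K X β φ → Prop}
    (hE : EvI D t {b} E) (hEw : E w) (hsub : ∀ v, E v → xc D U t {b} w v) :
    N (univ.erase b) * (((D.P h t).cond E).I (fun v => v.2.2 b) (fun v => (v.2.2 d, v.2.2 c)) (Zf D U t b) +
      ((D.P h t).cond E).klc (D.P h t) (fun v => v.2.2 b) (Zf D U t b)) ≤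
      2 * N ∅ * (Real.log (1 / ((D.P h t).cond (xc D U t {b} w)).Pr E) + 1) +
        2 * ((N {c} + N {d}) * Real.log (1 / al)) := by
  classical
  set J : Finset K := univ.erase b with hJ
  have hcJ : c ∈ J := Finset.mem_erase.2 ⟨B.bc.symm, mem_univ c⟩
  have hdJ : d ∈ J := Finset.mem_erase.2 ⟨B.bd.symm, mem_univ d⟩
  have hal0 : 0 ≤ Real.log (1 / al) := Real.log_nonneg (by
    rw [le_div_iff₀ h.pos, one_mul]
    exact hal_one h b)
  set QX := (D.P h t).cond (xc D U t {b} w) with hQX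
  have hxn : (D.P h t).Pr (xc D U t {b} w) ≠ 0 := xc_ne hw
  have hXw : QX.p w ≠ 0 := (FP.cond_p_ne hxn).2 ⟨xc_self U t {b} w, hw⟩
  have hE0 : QX.Pr E ≠ 0 := (FP.Pr_pos_of (S := E) hXw hEw).ne'
  have h1 := ex_i3 (h := h) B.dep B.sat B.nn B.era B.s0 (I := {b}) (J0 := J) (B.s2 b) ⟨c, hcJ⟩ (by
    rw [Finset.disjoint_singleton_right]
    exact fun hh => (Finset.mem_erase.1 hh).1 rfl) (w0 := w) hw hE hE0
  have hEP : (D.P h t).Pr E ≠ 0 := (FP.Pr_pos_of (S := E) hw hEw).ne'
  have hPQ : QX.cond E = (D.P h t).cond E := by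
    have e : (fun v => xc D U t {b} w v ∧ E v) = E := by
      funext v
      exact propext ⟨fun hh => hh.2, fun hh => ⟨hsub v hh, hh⟩⟩
    rw [hQX, FP.cond_cond (by rw [e]; exact hEP), e]
  rw [hPQ] at h1
  change N J * (((D.P h t).cond E).klc QX (LL U J) (Zf D U t b) +
    ((D.P h t).cond E).I (LL U J) (lo (fl {b}) J) (Zf D U t b)) ≤
    2 * N ∅ * (Real.log (1 / QX.Pr E) + 1) + 2 * ∑ J' ∈ flS {b} S, N J' * Real.log (1 / al) at h1
  have hac : ((D.P h t).cond E).Ac QX := by
    rw [← hPQ]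
    exact FP.cond_ac _ _
  -- the sum of the costs
  have hsum : ∑ J' ∈ flS {b} S, N J' * Real.log (1 / al) ≤ (N {c} + N {d}) * Real.log (1 / al) := by
    have hsub : flS {b} S ⊆ {{c}, {d}} := by
      intro J' hJ'
      unfold flS at hJ'
      obtain ⟨-, hd', l, hl⟩ := Finset.mem_filter.1 hJ'
      have hbJ' : b ∉ J' := Finset.disjoint_singleton_right.1 hd'
      have hlb : l ≠ b := by
        intro hh
        have h2 : b ∈ ({b} : Finset K) ∪ J' := Finset.mem_union_left _ (Finset.mem_singleton_self b)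
        rw [← hl, hh] at h2
        exact (Finset.mem_erase.1 h2).1 rfl
      rw [Finset.mem_insert, Finset.mem_singleton]
      have key : ∀ {p q : K}, p ≠ q → p ≠ b → l = q → (∀ j, j = b ∨ j = p ∨ j = q) → J' = {p} := by
        intro p q hpq hpb hlq hall
        ext j
        rw [Finset.mem_singleton]
        constructor
        · intro hj
          have h2 : j ∈ univ.erase l := by rw [hl]; exact Finset.mem_union_right _ hj
          rcases hall j with h3 | h3 | h3
          · exact absurd (h3 ▸ hj) hbJ'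
          · exact h3
          · exact absurd (h3.trans hlq.symm) (Finset.mem_erase.1 h2).1
        · rintro rfl
          have h2 : j ∈ univ.erase l := Finset.mem_erase.2 ⟨fun hh => hpq (hh.trans hlq), mem_univ j⟩
          rw [hl] at h2
          rcases Finset.mem_union.1 h2 with h3 | h3
          · exact absurd (Finset.mem_singleton.1 h3) hpb
          · exact h3
      rcases B.all l with h2 | h2 | h2
      · exact absurd h2 hlb
      · right
        exact key (p := d) (q := c) B.cd.symm B.bd.symm h2 B.swap.all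
      · left
        exact key (p := c) (q := d) B.cd B.bc.symm h2 B.all
    refine (Finset.sum_le_sum_of_subset_of_nonneg hsub fun J' hJ' _ => ?_).trans (le_of_eq ?_)
    · rw [Finset.mem_insert, Finset.mem_singleton] at hJ'
      rcases hJ' with rfl | rfl
      · exact mul_nonneg (B.n1 c).le hal0
      · exact mul_nonneg (B.n1 d).le hal0
    · rw [Finset.sum_insert (by
        rw [Finset.mem_singleton]
        exact fun hh => B.cd (Finset.singleton_injective hh)), Finset.sum_singleton]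
      ring
  have e1 : ((D.P h t).cond E).klc (D.P h t) (fun w => w.2.2 b) (Zf D U t b) ≤
      ((D.P h t).cond E).klc QX (LL U J) (Zf D U t b) := by
    rw [klc_ref B hw fun v hv => ⟨hsub v ((FP.cond_p_ne hEP).1 hv).1, ((FP.cond_p_ne hEP).1 hv).2⟩]
    refine klc_mono hac fun v w hvw => ?_
    have h4 : LL U J v = LL U J w := congrArg Prod.fst hvw
    exact (LL_eq.1 h4).2 b rfl
  have e2 : ((D.P h t).cond E).I (fun w => w.2.2 b) (fun w => (w.2.2 d, w.2.2 c)) (Zf D U t b) ≤
      ((D.P h t).cond E).I (LL U J) (lo (fl {b}) J) (Zf D U t b) := by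
    refine le_trans (FP.I_mono _ (X := LL U J) (X' := fun w => w.2.2 b) _ fun v w hvw => ?_) ?_
    · have h4 : LL U J v = LL U J w := congrArg Prod.fst hvw
      exact (LL_eq.1 h4).2 b rfl
    · rw [FP.I_comm, FP.I_comm _ (LL U J) (lo (fl {b}) J)]
      refine FP.I_mono _ (X := lo (fl {b}) J) (X' := fun w => (w.2.2 d, w.2.2 c)) _ fun v w hvw => ?_
      have h4 : lo (fl (φ := φ) {b}) J v = lo (fl {b}) J w := congrArg Prod.fst hvw
      rw [lo_eq] at h4
      have key : ∀ p l : K, ({p} : Finset K) ⊂ J → p ≠ b → univ.erase l = ({b} : Finset K) ∪ {p} → b ≠ l →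
          v.2.2 l = w.2.2 l := by
        intro p l hpJ hpb hl hbl
        have h5 := congrFun (h4 {p} hpJ) l
        unfold fl at h5
        have hc' : Disjoint ({p} : Finset K) {b} ∧ univ.erase l = ({b} : Finset K) ∪ {p} ∧ ∃ i ∈ ({b} : Finset K), i ≠ l :=
          ⟨Finset.disjoint_singleton.2 hpb, hl, b, Finset.mem_singleton_self b, hbl⟩
        rw [if_pos hc', if_pos hc'] at h5
        exact Option.some.inj h5
      have er : ∀ {p q : K}, p ≠ q → p ≠ b → q ≠ b → (∀ j, j = b ∨ j = p ∨ j = q) →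
          univ.erase q = ({b} : Finset K) ∪ {p} := by
        intro p q hpq hpb hqb hall
        ext j
        rw [Finset.mem_erase, Finset.mem_union, Finset.mem_singleton, Finset.mem_singleton]
        constructor
        · rintro ⟨h5, -⟩
          rcases hall j with h6 | h6 | h6
          · exact Or.inl h6
          · exact Or.inr h6
          · exact absurd h6 h5
        · rintro (rfl | rfl)
          · exact ⟨fun hh => hqb hh.symm, mem_univ _⟩
          · exact ⟨hpq, mem_univ _⟩
      have sc : ({c} : Finset K) ⊂ J := by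
        rw [Finset.ssubset_iff_of_subset (Finset.singleton_subset_iff.2 hcJ)]
        exact ⟨d, hdJ, fun hh => B.cd (Finset.mem_singleton.1 hh).symm⟩
      have sd : ({d} : Finset K) ⊂ J := by
        rw [Finset.ssubset_iff_of_subset (Finset.singleton_subset_iff.2 hdJ)]
        exact ⟨c, hcJ, fun hh => B.cd (Finset.mem_singleton.1 hh)⟩
      show (v.2.2 d, v.2.2 c) = (w.2.2 d, w.2.2 c)
      rw [key c d sc B.bc.symm (er B.cd B.bc.symm B.bd.symm B.all) B.bd,
        key d c sd B.bd.symm (er B.cd.symm B.bd.symm B.bc.symm B.swap.all) B.bc]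
  have hNJ := B.nn J (B.s2 b)
  have h2 := mul_le_mul_of_nonneg_left (add_le_add e1 e2) hNJ
  linarith

/-- point and truncated letter -/
noncomputable def tz (U : Finset K → X → (K → β) → υ) (Typ : β → υ → Prop) (e : K) (w : Pt K X β φ) : β × Option υ :=
  (w.2.1 e, tru Typ (w.2.1 e) (U {e} w.1 w.2.1))

theorem tz_fac (B : Bk h N S U t b c d) (Typ : β → υ → Prop) (e : K) : Fac (Ah (φ := φ) D t {e}) (tz U Typ e) := by
  intro v w hvw
  unfold Ah at hvw
  rw [Prod.mk.injEq, BB_eq] at hvw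
  obtain ⟨h1, h2, -, h4⟩ := hvw
  have he := h2 e (Finset.mem_singleton_self e)
  unfold tz
  rw [he, h1, B.dep {e} w.1 v.2.1 w.2.1 h2 h4]

/-- the label of the vertices `b`, `c` -/
theorem tz_BB {e : K} (Typ : β → υ → Prop) {v w : Pt K X β φ} (hv : xc D U t ∅ w0 v) (hw : xc D U t ∅ w0 w)
    (h1 : tz U Typ e v = tz U Typ e w) : BB D t {e} v = BB D t {e} w := by
  have h2 := xc_node hv hw
  rw [BB_eq] at h2 ⊢
  exact ⟨fun j hj => by rw [Finset.mem_singleton.1 hj]; exact (Prod.mk.inj h1).1, h2.2⟩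

/-- entropy of a truncated letter -/
theorem Hc_tz {Typ : β → υ → Prop} {M : ℝ}
    (hM : ∀ c', ∃ s : Finset υ, (s.card : ℝ) ≤ M ∧ ∀ u, Typ c' u → u ∈ s) (Q : FP (Pt K X β φ)) (e : K) {ι : Type*}
    {Z : Pt K X β φ → ι} (hZ : Fac Z (fun w => w.2.1 e)) : Q.Hc (tz U Typ e) Z ≤ Real.log (M + 1) := by
  classical
  refine Hc_le_card Q _ _ fun w _ => ?_
  obtain ⟨T, hT1, hT2⟩ := hM (w.2.1 e)
  refine ⟨(insert none (T.image some)).image fun o => (w.2.1 e, o), ?_, fun v _ hv => ?_⟩
  · have a1 : ((insert none (T.image some) : Finset (Option υ)).image fun o => (w.2.1 e, o)).card ≤ T.card + 1 :=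
      Finset.card_image_le.trans ((Finset.card_insert_le _ _).trans (Nat.add_le_add_right Finset.card_image_le 1))
    have a2 : (((insert none (T.image some) : Finset (Option υ)).image fun o => (w.2.1 e, o)).card : ℝ) ≤ (T.card : ℝ) + 1 := by
      exact_mod_cast a1
    linarith
  · have he : v.2.1 e = w.2.1 e := hZ v w hv
    refine Finset.mem_image.2 ⟨tru Typ (w.2.1 e) (U {e} v.1 v.2.1), ?_, ?_⟩
    · unfold tru
      split_ifs with hT
      · exact Finset.mem_insert_of_mem (Finset.mem_image.2 ⟨_, hT2 _ hT, rfl⟩)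
      · exact Finset.mem_insert_self _ _
    · unfold tz
      rw [he]

end inst

end Pool.Agent.GMH.RarN
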