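import Pool.Agent.GMH.Row
import Pool.Agent.GMH.OneA
import Pool.Agent.GMH.TD9A

/-!
# GMH/RarX (helper30): RARITY FOR ANY STATIC RELATION, abstract part (row C5)

Laws `Q, Q' << R << B` (events of the exact point, its class, public class with the exact point); maps `C`, `D` (point and
truncated letter of the two other vertices), `X`, `Y` (the two tops of the exact vertex), `W` (the far top).
* `fwd`, `bwd` : one step of Donsker-Varadhan for a test with values in `[0,1]`: `Q psi ≤ klc + I + 2 Q R(psi | Z)` and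
  `Q R(psi | Z) ≤ 2 (klc + I + Q psi)`;
* `F1`, `F2`, `F3`, `F4` : mean of `g` under the product of the class laws, `X` given `C`, `Y` given `D`, `D`, `C`;
* **`rel_le`** : `Q g ≤ pX + 2 pY + 4 pD + 8 pC + 16 F4`, **`prod_le`** : `F4 ≤ 2 pC + 4 pD + 8 pY + 16 pX + 16 Q' g`;
* `F0` : mean over `W` given `C`, `D`, for a relation `gg` of all five which lives on the typical values of `C`, `D`;
* **`rel5`** : `Q (A) ≤ pW + 2 (pX + 2 pY + 4 pD + 8 pC) + 32 (the same for Q') + 1024 (pW Q' + Q' (A))`;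
* **`rare`** : `y ≤ P (A | sight)` has probability `≤ exp (-L)` in the class, if the bound at `L` is `< y`.
-/

set_option autoImplicit false
set_option linter.unusedSectionVars false

namespace Pool.Agent.GMH.RarX

open Finset Pool.Agent.PWZ Pool.Agent.M3 Pool.Agent.GMH

noncomputable section

/-! ### one step -/

theorem exp_le_lin {x : ℝ} (h0 : 0 ≤ x) (h1 : x ≤ 1) : Real.exp x ≤ 1 + 2 * x := by
  have h2 := Real.abs_exp_sub_one_sub_id_le (x := x) (by rw [abs_of_nonneg h0]; exact h1)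
  have h3 := (abs_le.1 h2).2
  nlinarith

theorem exp_neg_le_lin {x : ℝ} (h0 : 0 ≤ x) (h1 : x ≤ 1) : Real.exp (-x) ≤ 1 - x / 2 := by
  have h2 := Real.add_one_le_exp x
  rw [Real.exp_neg]
  rw [inv_le_comm₀ (Real.exp_pos x) (by linarith)]
  refine le_trans ?_ h2
  rw [inv_le_comm₀ (by linarith) (by linarith), inv_eq_one_div, div_le_iff₀ (by linarith)]
  nlinarith

section step

variable {Om : Type*} [Fintype Om] {Q R : FP Om} {κ ι τ : Type*}

theorem ce_exp_pos (hR : Q.Ac R) (Z : Om → ι) (f : Om → ℝ) {w : Om} (hw : Q.p w ≠ 0) :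
    0 < R.ce Z (fun v => Real.exp (f v)) w := by
  have hRw := hR w hw
  unfold FP.ce
  refine div_pos ?_ (R.m_pos Z hRw)
  have h1 : R.p w * (ind (Z w = Z w) * Real.exp (f w)) ≤ R.E (fun v => ind (Z v = Z w) * Real.exp (f v)) :=
    Finset.single_le_sum (f := fun v => R.p v * (ind (Z v = Z w) * Real.exp (f v)))
      (fun v _ => mul_nonneg (R.nn v) (mul_nonneg (ind_nonneg _) (Real.exp_pos _).le)) (mem_univ w)
  refine lt_of_lt_of_le (mul_pos (lt_of_le_of_ne (R.nn w) (Ne.symm hRw)) ?_) h1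
  rw [ind_of rfl, one_mul]
  exact Real.exp_pos _

/-- **forward** -/
theorem fwd (hR : Q.Ac R) (X : Om → κ) (Z : Om → ι) (T : Om → τ) {psi : τ → Om → ℝ}
    (hpsi : ∀ r, Fac (fun w => (X w, Z w)) (psi r)) (h0 : ∀ r w, 0 ≤ psi r w) (h1 : ∀ r w, psi r w ≤ 1) :
    Q.E (fun w => psi (T w) w) ≤ Q.klc R X Z + Q.I X T Z + 2 * Q.E (fun w => R.ce Z (psi (T w)) w) := by
  refine (klc_dv_row hR X Z T hpsi).trans (add_le_add le_rfl ?_)
  rw [← Q.E_smul]
  refine Q.E_mono fun w hw => ?_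
  have h2 := Real.log_le_sub_one_of_pos (ce_exp_pos hR Z (psi (T w)) hw)
  have h3 : R.ce Z (fun v => Real.exp (psi (T w) v)) w ≤ R.ce Z (fun v => 1 + 2 * psi (T w) v) w :=
    R.ce_mono (fun v _ => exp_le_lin (h0 _ _) (h1 _ _)) w
  have h4 : R.ce Z (fun v => 1 + 2 * psi (T w) v) w = 1 + 2 * R.ce Z (psi (T w)) w := by
    rw [R.ce_add Z (fun _ => 1) (fun v => 2 * psi (T w) v) w, R.ce_const _ _ (hR w hw), R.ce_smul]
  linarith

/-- **backward** -/
theorem bwd (hR : Q.Ac R) (X : Om → κ) (Z : Om → ι) (T : Om → τ) {psi : τ → Om → ℝ}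
    (hpsi : ∀ r, Fac (fun w => (X w, Z w)) (psi r)) (h0 : ∀ r w, 0 ≤ psi r w) (h1 : ∀ r w, psi r w ≤ 1) :
    Q.E (fun w => R.ce Z (psi (T w)) w) ≤ 2 * (Q.klc R X Z + Q.I X T Z + Q.E (fun w => psi (T w) w)) := by
  have h2 := klc_dv_row hR X Z T (psi := fun r w => - psi r w) (fun r => (hpsi r).comp (fun x => -x))
  have h3 : Q.E (fun w => Real.log (R.ce Z (fun v => Real.exp (- psi (T w) v)) w)) ≤
      Q.E (fun w => - (1 / 2) * R.ce Z (psi (T w)) w) := by
    refine Q.E_mono fun w hw => ?_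
    have h4 := Real.log_le_sub_one_of_pos (ce_exp_pos hR Z (fun v => - psi (T w) v) hw)
    have h5 : R.ce Z (fun v => Real.exp (- psi (T w) v)) w ≤ R.ce Z (fun v => 1 + (- (1 / 2)) * psi (T w) v) w :=
      R.ce_mono (fun v _ => by
        have := exp_neg_le_lin (h0 (T w) v) (h1 (T w) v)
        linarith) w
    have h6 : R.ce Z (fun v => 1 + (- (1 / 2)) * psi (T w) v) w = 1 + (- (1 / 2)) * R.ce Z (psi (T w)) w := by
      rw [R.ce_add Z (fun _ => 1) (fun v => (- (1 / 2)) * psi (T w) v) w, R.ce_const _ _ (hR w hw), R.ce_smul]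
    linarith
  rw [Q.E_smul] at h3
  have h7 : Q.E (fun w => - psi (T w) w) = - Q.E (fun w => psi (T w) w) := Q.E_neg _
  have h8 : Q.E (fun w => (fun r w => - psi r w) (T w) w) = - Q.E (fun w => psi (T w) w) := h7
  rw [h8] at h2
  linarith

end step

/-! ### the four steps -/

section four

variable {Om : Type*} [Fintype Om] {Q Q' R B : FP Om} {κc κd α β : Type*} {C : Om → κc} {D : Om → κd} {X : Om → α} {Y : Om → β}
  {g : κc → κd → α → β → ℝ}

variable (R C X g) in
/-- mean over `X` given `C = c` -/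
def F1 (c : κc) (d : κd) (y : β) : ℝ := R.E (fun v => ind (C v = c) * g c d (X v) y) / R.E (fun v => ind (C v = c))

variable (R C D X Y g) in
/-- and over `Y` given `D = d` -/
def F2 (c : κc) (d : κd) : ℝ := R.E (fun v => ind (D v = d) * F1 R C X g c d (Y v)) / R.E (fun v => ind (D v = d))

variable (R B C D X Y g) in
/-- and over `D` -/
def F3 (c : κc) : ℝ := B.E (fun v => F2 R C D X Y g c (D v))

variable (R B C D X Y g) in
/-- and over `C` -/
def F4 : ℝ := B.E (fun v => F3 R B C D X Y g (C v))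

theorem frac01 {a b : ℝ} (ha : 0 ≤ a) (hab : a ≤ b) : 0 ≤ a / b ∧ a / b ≤ 1 :=
  ⟨div_nonneg ha (ha.trans hab), div_le_one_of_le₀ hab (ha.trans hab)⟩

theorem F1_01 (hg : ∀ c d x y, 0 ≤ g c d x y ∧ g c d x y ≤ 1) (c : κc) (d : κd) (y : β) :
    0 ≤ F1 R C X g c d y ∧ F1 R C X g c d y ≤ 1 := by
  refine frac01 (R.E_nonneg fun v _ => mul_nonneg (ind_nonneg _) (hg _ _ _ _).1) (R.E_mono fun v _ => ?_)
  exact mul_le_of_le_one_right (ind_nonneg _) (hg _ _ _ _).2

theorem F2_01 (hg : ∀ c d x y, 0 ≤ g c d x y ∧ g c d x y ≤ 1) (c : κc) (d : κd) :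
    0 ≤ F2 R C D X Y g c d ∧ F2 R C D X Y g c d ≤ 1 := by
  refine frac01 (R.E_nonneg fun v _ => mul_nonneg (ind_nonneg _) (F1_01 hg _ _ _).1) (R.E_mono fun v _ => ?_)
  exact mul_le_of_le_one_right (ind_nonneg _) (F1_01 hg _ _ _).2

theorem F3_01 (hg : ∀ c d x y, 0 ≤ g c d x y ∧ g c d x y ≤ 1) (c : κc) :
    0 ≤ F3 R B C D X Y g c ∧ F3 R B C D X Y g c ≤ 1 :=
  ⟨B.E_nonneg fun _ _ => (F2_01 hg _ _).1, B.E_le_const fun _ _ => (F2_01 hg _ _).2⟩

theorem ce1 (d : κd) (y : β) (w : Om) : R.ce C (fun v => g (C v) d (X v) y) w = F1 R C X g (C w) d y := by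
  unfold FP.ce F1
  congr 1
  refine R.E_congr fun v _ => ?_
  by_cases hv : C v = C w
  · simp only [hv]
  · rw [ind_not hv, zero_mul, zero_mul]

theorem ce2 (c : κc) (w : Om) : R.ce D (fun v => F1 R C X g c (D v) (Y v)) w = F2 R C D X Y g c (D w) := by
  unfold FP.ce F2
  congr 1
  refine R.E_congr fun v _ => ?_
  by_cases hv : D v = D w
  · simp only [hv]
  · rw [ind_not hv, zero_mul, zero_mul]

theorem ce_unit (P : FP Om) (f : Om → ℝ) {w : Om} : P.ce (fun _ => ()) f w = P.E f := by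
  have h1 : P.m (fun _ : Om => ()) w = 1 := by
    unfold FP.m
    rw [P.E_congr (g := fun _ => 1) fun v _ => ind_of rfl]
    exact P.E_const 1
  unfold FP.ce
  rw [h1, div_one]
  exact P.E_congr fun v _ => by rw [ind_of rfl, one_mul]

theorem I_unit (P : FP Om) (C : Om → κc) : P.I C (fun _ => ()) (fun _ => ()) = 0 := by
  rw [P.I_comm]
  refine le_antisymm ((P.I_le_Hc _ _ _).trans (le_of_eq ?_)) (P.I_nonneg _ _ _)
  unfold FP.Hc
  rw [P.H_const (), P.H_congr (X := fun _ : Om => ((), ())) (Y := fun _ : Om => ()) (fun _ _ _ => rfl) (fun _ _ _ => rfl),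
    P.H_const (), sub_self]

variable (Q R B C D X Y) in
/-- the four prices -/
def pX : ℝ := Q.klc R X C + Q.I X (fun w => (D w, Y w)) C

variable (Q R B C D X Y) in
def pY : ℝ := Q.klc R Y D + Q.I Y C D

variable (Q R B C D X Y) in
def pD : ℝ := Q.klc B D (fun _ => ()) + Q.I D C (fun _ => ())

variable (Q R B C D X Y) in
def pC : ℝ := Q.klc B C (fun _ => ())

/-- **THE MEAN UNDER THE EVENT** -/
theorem rel_le (hg : ∀ c d x y, 0 ≤ g c d x y ∧ g c d x y ≤ 1) (hR : Q.Ac R) (hB : Q.Ac B) :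
    Q.E (fun w => g (C w) (D w) (X w) (Y w)) ≤
    pX Q R C D X Y + 2 * pY Q R C D Y + 4 * pD Q B C D + 8 * pC Q B C + 16 * F4 R B C D X Y g := by
  -- step X
  have h1 := fwd (Q := Q) (R := R) hR X C (fun w => (D w, Y w))
    (psi := fun r v => g (C v) r.1 (X v) r.2) (fun r a b e => by
      simp only [Prod.mk.injEq] at e
      show g (C a) r.1 (X a) r.2 = g (C b) r.1 (X b) r.2
      rw [e.1, e.2]) (fun _ _ => (hg _ _ _ _).1) (fun _ _ => (hg _ _ _ _).2)
  have e1 : Q.E (fun w => R.ce C (fun v => g (C v) (D w) (X v) (Y w)) w) =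
      Q.E (fun w => F1 R C X g (C w) (D w) (Y w)) := Q.E_congr fun w _ => ce1 _ _ w
  -- step Y
  have h2 := fwd (Q := Q) (R := R) hR Y D C (psi := fun c v => F1 R C X g c (D v) (Y v)) (fun c a b e => by
      simp only [Prod.mk.injEq] at e
      show F1 R C X g c (D a) (Y a) = F1 R C X g c (D b) (Y b)
      rw [e.1, e.2]) (fun _ _ => (F1_01 hg _ _ _).1) (fun _ _ => (F1_01 hg _ _ _).2)
  have e2 : Q.E (fun w => R.ce D (fun v => F1 R C X g (C w) (D v) (Y v)) w) =
      Q.E (fun w => F2 R C D X Y g (C w) (D w)) := Q.E_congr fun w _ => ce2 _ w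
  -- step D
  have h3 := fwd (Q := Q) (R := B) hB D (fun _ => ()) C (psi := fun c v => F2 R C D X Y g c (D v)) (fun c a b e => by
      simp only [Prod.mk.injEq] at e
      show F2 R C D X Y g c (D a) = F2 R C D X Y g c (D b)
      rw [e.1]) (fun _ _ => (F2_01 hg _ _).1) (fun _ _ => (F2_01 hg _ _).2)
  have e3 : Q.E (fun w => B.ce (fun _ => ()) (fun v => F2 R C D X Y g (C w) (D v)) w) =
      Q.E (fun w => F3 R B C D X Y g (C w)) := Q.E_congr fun w _ => ce_unit B _
  -- step C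
  have h4 := fwd (Q := Q) (R := B) hB C (fun _ => ()) (fun _ => ()) (psi := fun _ v => F3 R B C D X Y g (C v))
    (fun _ a b e => by
      simp only [Prod.mk.injEq] at e
      show F3 R B C D X Y g (C a) = F3 R B C D X Y g (C b)
      rw [e.1]) (fun _ _ => (F3_01 hg _).1) (fun _ _ => (F3_01 hg _).2)
  have e4 : Q.E (fun w => B.ce (fun _ => ()) (fun v => F3 R B C D X Y g (C v)) w) = F4 R B C D X Y g := by
    rw [Q.E_congr fun w _ => ce_unit B _, Q.E_const]
    rfl
  have e5 : Q.I C (fun _ => ()) (fun _ => ()) = 0 := I_unit Q C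
  have e0 : Q.E (fun w => g (C w) (D w) (X w) (Y w)) =
      Q.E (fun w => (fun (r : κd × β) v => g (C v) r.1 (X v) r.2) ((D w, Y w)) w) := rfl
  unfold pX pY pD pC
  rw [e5] at h4
  rw [e1] at h1
  rw [e2] at h2
  rw [e3] at h3
  rw [e4] at h4
  rw [e0]
  linarith

/-- **THE MEAN UNDER THE PRODUCT** of the laws of `R`, seen from a law `Q'` -/
theorem prod_le (hg : ∀ c d x y, 0 ≤ g c d x y ∧ g c d x y ≤ 1) (hR : Q'.Ac R) (hB : Q'.Ac B) :
    F4 R B C D X Y g ≤ 2 * pC Q' B C +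
    4 * pD Q' B C D + 8 * pY Q' R C D Y + 16 * pX Q' R C D X Y + 16 * Q'.E (fun w => g (C w) (D w) (X w) (Y w)) := by
  -- step X
  have h1 := bwd (Q := Q') (R := R) hR X C (fun w => (D w, Y w))
    (psi := fun r v => g (C v) r.1 (X v) r.2) (fun r a b e => by
      simp only [Prod.mk.injEq] at e
      show g (C a) r.1 (X a) r.2 = g (C b) r.1 (X b) r.2
      rw [e.1, e.2]) (fun _ _ => (hg _ _ _ _).1) (fun _ _ => (hg _ _ _ _).2)
  have e1 : Q'.E (fun w => R.ce C (fun v => g (C v) (D w) (X v) (Y w)) w) =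
      Q'.E (fun w => F1 R C X g (C w) (D w) (Y w)) := Q'.E_congr fun w _ => ce1 _ _ w
  -- step Y
  have h2 := bwd (Q := Q') (R := R) hR Y D C (psi := fun c v => F1 R C X g c (D v) (Y v)) (fun c a b e => by
      simp only [Prod.mk.injEq] at e
      show F1 R C X g c (D a) (Y a) = F1 R C X g c (D b) (Y b)
      rw [e.1, e.2]) (fun _ _ => (F1_01 hg _ _ _).1) (fun _ _ => (F1_01 hg _ _ _).2)
  have e2 : Q'.E (fun w => R.ce D (fun v => F1 R C X g (C w) (D v) (Y v)) w) =
      Q'.E (fun w => F2 R C D X Y g (C w) (D w)) := Q'.E_congr fun w _ => ce2 _ w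
  -- step D
  have h3 := bwd (Q := Q') (R := B) hB D (fun _ => ()) C (psi := fun c v => F2 R C D X Y g c (D v)) (fun c a b e => by
      simp only [Prod.mk.injEq] at e
      show F2 R C D X Y g c (D a) = F2 R C D X Y g c (D b)
      rw [e.1]) (fun _ _ => (F2_01 hg _ _).1) (fun _ _ => (F2_01 hg _ _).2)
  have e3 : Q'.E (fun w => B.ce (fun _ => ()) (fun v => F2 R C D X Y g (C w) (D v)) w) =
      Q'.E (fun w => F3 R B C D X Y g (C w)) := Q'.E_congr fun w _ => ce_unit B _
  -- step C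
  have h4 := bwd (Q := Q') (R := B) hB C (fun _ => ()) (fun _ => ()) (psi := fun _ v => F3 R B C D X Y g (C v))
    (fun _ a b e => by
      simp only [Prod.mk.injEq] at e
      show F3 R B C D X Y g (C a) = F3 R B C D X Y g (C b)
      rw [e.1]) (fun _ _ => (F3_01 hg _).1) (fun _ _ => (F3_01 hg _).2)
  have e4 : Q'.E (fun w => B.ce (fun _ => ()) (fun v => F3 R B C D X Y g (C v)) w) = F4 R B C D X Y g := by
    rw [Q'.E_congr fun w _ => ce_unit B _, Q'.E_const]
    rfl
  have e5 : Q'.I C (fun _ => ()) (fun _ => ()) = 0 := I_unit Q' C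
  have e0 : Q'.E (fun w => g (C w) (D w) (X w) (Y w)) =
      Q'.E (fun w => (fun (r : κd × β) v => g (C v) r.1 (X v) r.2) ((D w, Y w)) w) := rfl
  unfold pX pY pD pC
  rw [e5] at h4
  rw [e1] at h1
  rw [e2] at h2
  rw [e3] at h3
  rw [e4] at h4
  rw [e0]
  linarith

/-- **the two together** -/
theorem rel_total (hg : ∀ c d x y, 0 ≤ g c d x y ∧ g c d x y ≤ 1) (hR : Q.Ac R) (hB : Q.Ac B) (hR' : Q'.Ac R)
    (hB' : Q'.Ac B) : Q.E (fun w => g (C w) (D w) (X w) (Y w)) ≤
    (pX Q R C D X Y + 2 * pY Q R C D Y + 4 * pD Q B C D + 8 * pC Q B C) +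
      16 * (2 * pC Q' B C + 4 * pD Q' B C D + 8 * pY Q' R C D Y + 16 * pX Q' R C D X Y) +
      256 * Q'.E (fun w => g (C w) (D w) (X w) (Y w)) := by
  have h1 := rel_le (Q := Q) (R := R) (B := B) (C := C) (D := D) (X := X) (Y := Y) hg hR hB
  have h2 := prod_le (Q' := Q') (R := R) (B := B) (C := C) (D := D) (X := X) (Y := Y) hg hR' hB'
  linarith

end four

/-! ### the far top -/

section five

variable {Om : Type*} [Fintype Om] {Q Q' R B : FP Om} {κc κd κf α β ω : Type*} {C : Om → κc} {D : Om → κd} {Zf : Om → κf}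
  {X : Om → α} {Y : Om → β} {W : Om → ω} {gg : κc → κd → α → β → ω → Prop}

variable (B C D W gg) in
/-- mean over `W` given `C`, `D` -/
def F0 (c : κc) (d : κd) (x : α) (y : β) : ℝ :=
  B.E (fun v => ind (C v = c ∧ D v = d) * ind (gg c d x y (W v))) / B.E (fun v => ind (C v = c ∧ D v = d))

theorem F0_01 (c : κc) (d : κd) (x : α) (y : β) : 0 ≤ F0 B C D W gg c d x y ∧ F0 B C D W gg c d x y ≤ 1 := by
  refine frac01 (B.E_nonneg fun v _ => mul_nonneg (ind_nonneg _) (ind_nonneg _)) (B.E_mono fun v _ => ?_)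
  exact mul_le_of_le_one_right (ind_nonneg _) (ind_le_one _)

/-- `Zf` : the full letters; they are determined by the truncated ones where the relation lives -/
theorem ce0 (hZ : Fac Zf (fun w => (C w, D w))) (hinj : ∀ v w x y z, gg (C w) (D w) x y z → C v = C w → D v = D w → Zf v = Zf w)
    (x : α) (y : β) (w : Om) : B.ce Zf (fun v => ind (gg (C v) (D v) x y (W v))) w = F0 B C D W gg (C w) (D w) x y := by
  by_cases hT : ∃ z, gg (C w) (D w) x y z
  · obtain ⟨z, hz⟩ := hT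
    have e1 : ∀ v, (Zf v = Zf w) = (C v = C w ∧ D v = D w) := fun v => propext ⟨fun e => by
      have := hZ v w e
      simp only [Prod.mk.injEq] at this
      exact this, fun e => hinj v w x y z hz e.1 e.2⟩
    unfold FP.ce F0 FP.m
    simp only [e1]
    congr 1
    refine B.E_congr fun v _ => ?_
    by_cases hv : C v = C w ∧ D v = D w
    · simp only [hv.1, hv.2]
    · rw [ind_not hv, zero_mul, zero_mul]
  · have h2 : ∀ z, ¬ gg (C w) (D w) x y z := fun z hz => hT ⟨z, hz⟩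
    unfold FP.ce F0
    have n1 : B.E (fun v => ind (Zf v = Zf w) * ind (gg (C v) (D v) x y (W v))) = 0 := by
      rw [B.E_congr (g := fun _ => 0) fun v _ => ?_, B.E_const]
      by_cases hv : Zf v = Zf w
      · have := hZ v w hv
        simp only [Prod.mk.injEq] at this
        rw [this.1, this.2, ind_not (h2 _), mul_zero]
      · rw [ind_not hv, zero_mul]
    have n2 : B.E (fun v => ind (C v = C w ∧ D v = D w) * ind (gg (C w) (D w) x y (W v))) = 0 := by
      rw [B.E_congr (g := fun _ => 0) fun v _ => by rw [ind_not (h2 _), mul_zero], B.E_const]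
    rw [n1, n2, zero_div, zero_div]

variable (Q B Zf X Y W) in
/-- the price of the far top -/
def pW : ℝ := Q.klc B W Zf + Q.I W (fun w => (X w, Y w)) Zf

/-- **FIVE LETTERS** : the masses of a relation under two laws `Q`, `Q'` -/
theorem rel5 (hR : Q.Ac R) (hB : Q.Ac B) (hR' : Q'.Ac R) (hB' : Q'.Ac B) (hZ : Fac Zf (fun w => (C w, D w)))
    (hinj : ∀ v w x y z, gg (C w) (D w) x y z → C v = C w → D v = D w → Zf v = Zf w) :
    Q.Pr (fun w => gg (C w) (D w) (X w) (Y w) (W w)) ≤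
    pW Q B Zf X Y W + 2 * (pX Q R C D X Y + 2 * pY Q R C D Y + 4 * pD Q B C D + 8 * pC Q B C) +
      32 * (2 * pC Q' B C + 4 * pD Q' B C D + 8 * pY Q' R C D Y + 16 * pX Q' R C D X Y) +
      1024 * (pW Q' B Zf X Y W + Q'.Pr (fun w => gg (C w) (D w) (X w) (Y w) (W w))) := by
  have hpsi : ∀ r : α × β, Fac (fun w => (W w, Zf w)) (fun v => ind (gg (C v) (D v) r.1 r.2 (W v))) := fun r a b e => by
    simp only [Prod.mk.injEq] at e
    have h1 := hZ a b e.2
    simp only [Prod.mk.injEq] at h1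
    show ind (gg (C a) (D a) r.1 r.2 (W a)) = ind (gg (C b) (D b) r.1 r.2 (W b))
    rw [e.1, h1.1, h1.2]
  have h1 := fwd (Q := Q) (R := B) hB W Zf (fun w => (X w, Y w)) hpsi
    (fun _ _ => ind_nonneg _) (fun _ _ => ind_le_one _)
  have h2 := bwd (Q := Q') (R := B) hB' W Zf (fun w => (X w, Y w)) hpsi (fun _ _ => ind_nonneg _) (fun _ _ => ind_le_one _)
  have e1 : ∀ P : FP Om, P.E (fun w => B.ce Zf (fun v => ind (gg (C v) (D v) (X w) (Y w) (W v))) w) =
      P.E (fun w => F0 B C D W gg (C w) (D w) (X w) (Y w)) := fun P => P.E_congr fun w _ => ce0 hZ hinj _ _ w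
  have h3 := rel_total (Q := Q) (Q' := Q') (R := R) (B := B) (C := C) (D := D) (X := X) (Y := Y) (g := F0 B C D W gg)
    (fun _ _ _ _ => F0_01 _ _ _ _) hR hB hR' hB'
  have h4 : Q.Pr (fun w => gg (C w) (D w) (X w) (Y w) (W w)) ≤ Q.klc B W Zf + Q.I W (fun w => (X w, Y w)) Zf +
      2 * Q.E (fun w => F0 B C D W gg (C w) (D w) (X w) (Y w)) := by
    rw [← e1 Q]
    exact h1
  have h5 : Q'.E (fun w => F0 B C D W gg (C w) (D w) (X w) (Y w)) ≤ 2 * (Q'.klc B W Zf + Q'.I W (fun w => (X w, Y w)) Zf +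
      Q'.Pr (fun w => gg (C w) (D w) (X w) (Y w) (W w))) := by
    rw [← e1 Q']
    exact h2
  unfold pW
  linarith

/-- from a bound inside every event to the rarity -/
theorem rare_of {σ : Type*} {Sg : Om → σ} {A : Om → Prop} {y L B1 : ℝ}
    (hE : ∀ E : Om → Prop, Fac Sg E → R.Pr E ≠ 0 → Real.log (1 / R.Pr E) ≤ L → (R.cond E).Pr A ≤ B1) (hy : B1 < y) :
    R.Pr (fun w => y ≤ R.ce Sg (fun v => ind (A v)) w) ≤ Real.exp (-L) := by
  set E : Om → Prop := fun w => y ≤ R.ce Sg (fun v => ind (A v)) w with hEd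
  by_contra hc
  have hc' : Real.exp (-L) < R.Pr E := not_le.1 hc
  have hpos : 0 < R.Pr E := (Real.exp_pos _).trans hc'
  have hEf : Fac Sg E := fun v w e => by
    show (y ≤ R.ce Sg (fun v => ind (A v)) v) = (y ≤ R.ce Sg (fun v => ind (A v)) w)
    rw [R.ce_fac Sg (fun v => ind (A v)) v w e]
  have hL : Real.log (1 / R.Pr E) ≤ L := by
    rw [one_div, Real.log_inv]
    have h1 := Real.log_lt_log (Real.exp_pos _) hc'
    rw [Real.log_exp] at h1
    linarith
  have h1 := hE E hEf hpos.ne' hL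
  have h3 : y ≤ (R.cond E).Pr A := dens_le (P := R) (X := Sg) A hpos.ne'
  linarith

end five

end

end Pool.Agent.GMH.RarX
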