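import Pool.Agent.GMH.RarN2
import Pool.Agent.GMH.RarX
import Pool.Agent.GMH.BitDev

/-!
# GMH/RarN3 (helper88): A RELATION INSIDE AN EVENT OF THE HIDDEN POINT, saturated state (row C5, node)

`C0 = xc D U t ∅ w0` public class, `V` = event of (hidden point, node) inside it (`In`), `L = log (1 / P(V | C0))`.
* `face_pr`, `let_pr` : the prices of `RarN.Pri`;
* `node` : `P(A | V) <= 3/2 ep L + 3 ep 0 + 2 P(A | C0)` for every relation `A` on typical letters and the tops;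
* `rar` : `P(P(A | a, node) >= y | C0) <= exp (-L)` as soon as `3/2 ep L + 3 ep 0 + 2 P(A | C0) < y`.
-/

set_option autoImplicit false
set_option linter.unusedSectionVars false

namespace Pool.Agent.GMH.RarN

open Finset Pool.Agent.PWZ Pool.Agent.M3 Pool.Agent.GM Pool.Agent.GM.Harm Pool.Agent.GMH

section inst

variable {K X β γ φ υ : Type} [Fintype K] [DecidableEq K] [Fintype X] [Fintype β] [Fintype φ] [Nonempty X] [Nonempty β]
  {D : HD K X β γ φ} {al : ℝ} {h : D.Thick al} {N : Finset K → ℝ} {S : Finset (Finset K)}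
  {U : Finset K → X → (K → β) → υ} {t : ℕ} {b c d : K} {w0 : Pt K X β φ} {V : Pt K X β φ → Prop}
  {Typ : β → υ → Prop} {M L : ℝ}

/-- price of a face -/
noncomputable def kf (N : Finset K → ℝ) (al M : ℝ) (b c d : K) (L : ℝ) : ℝ :=
  (2 * N ∅ * (L + Real.log (M + 1) + 1) + 2 * ((N {c} + N {d}) * Real.log (1 / al))) / N (univ.erase b)

theorem Ah_up {I : Finset K} {α : Type*} {f : Pt K X β φ → α} (hf : Fac (Ah D t ∅) f) : Fac (Ah (φ := φ) D t I) f := by
  intro v w hvw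
  refine hf v w ?_
  unfold Ah at hvw ⊢
  rw [Prod.mk.injEq, BB_eq] at hvw ⊢
  exact ⟨hvw.1, fun j hj => absurd hj (Finset.notMem_empty j), hvw.2.2⟩

/-- **price of a face** : hint = point and truncated letter of its missing vertex, and the other tops -/
theorem face_pr (B : Bk h N S U t b c d) (I : In h U t w0 V)
    (hM : ∀ c', ∃ s : Finset υ, (s.card : ℝ) ≤ M ∧ ∀ u, Typ c' u → u ∈ s)
    (hL : Real.log (1 / ((D.P h t).cond (xc D U t ∅ w0)).Pr V) ≤ L) :
    ((D.P h t).cond V).I (fun w => w.2.2 b) (fun w => (tz U Typ b w, (w.2.2 d, w.2.2 c))) (Zf D U t b) +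
      ((D.P h t).cond V).klc (D.P h t) (fun w => w.2.2 b) (Zf D U t b) ≤ kf N al M b c d L := by
  classical
  set P := D.P h t with hP
  set Q := P.cond V with hQ
  have hV0 : P.Pr V ≠ 0 := I.ne
  have hN0 := B.nn ∅ B.s0
  have hNe := B.n2 b
  have hac : Q.Ac P := FP.cond_ac _ _
  rw [IK_cond hac]
  unfold kf
  rw [le_div_iff₀ hNe, mul_comm, ← FP.E_smul]
  have hs := surp B I {b} (Y := tz U Typ b) (fun v w hv hw e => tz_BB Typ hv hw e)
  have hH := Hc_tz (U := U) (Typ := Typ) hM Q b (Z := BB D t {b}) (fun v w hvw => by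
    rw [BB_eq] at hvw
    exact hvw.1 b (Finset.mem_singleton_self b))
  have h1 : Q.E (fun w => N (univ.erase b) * ((Q.cond fun v => tz U Typ b v = tz U Typ b w).I (fun w => w.2.2 b)
      (fun w => (w.2.2 d, w.2.2 c)) (Zf D U t b) +
      (Q.cond fun v => tz U Typ b v = tz U Typ b w).klc P (fun w => w.2.2 b) (Zf D U t b))) ≤
      Q.E (fun w => 2 * N ∅ * Real.log (1 / (P.cond (xc D U t {b} w)).Pr (fun v => V v ∧ tz U Typ b v = tz U Typ b w)) +
        (2 * N ∅ + 2 * ((N {c} + N {d}) * Real.log (1 / al)))) := by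
    refine Q.E_mono fun w hw => ?_
    obtain ⟨hVw, hpw⟩ := I.pt hw
    have hE0 : P.Pr (fun v => V v ∧ tz U Typ b v = tz U Typ b w) ≠ 0 :=
      (FP.Pr_pos_of (S := fun v => V v ∧ tz U Typ b v = tz U Typ b w) hpw ⟨hVw, rfl⟩).ne'
    have e0 : Q.cond (fun v => tz U Typ b v = tz U Typ b w) = P.cond (fun v => V v ∧ tz U Typ b v = tz U Typ b w) :=
      FP.cond_cond hE0
    rw [e0]
    have h2 := far B hpw (E := fun v => V v ∧ tz U Typ b v = tz U Typ b w) (fun v u hvu => by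
      have hvu' : Ah D t {b} v = Ah D t {b} u := by
        simp only [Prod.mk.injEq] at hvu
        unfold Ah
        rw [Prod.mk.injEq]
        exact ⟨hvu.1, hvu.2.1⟩
      show (V v ∧ tz U Typ b v = tz U Typ b w) = (V u ∧ tz U Typ b u = tz U Typ b w)
      rw [Ah_up (I := {b}) I.fac v u hvu', tz_fac B Typ b v u hvu']) ⟨hVw, rfl⟩ (fun v hv =>
      (xc_I (I.sub w hVw)).2 ⟨I.sub v hv.1, tz_BB Typ (I.sub v hv.1) (I.sub w hVw) hv.2⟩)
    linarith
  rw [← hP, ← hQ] at hs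
  rw [FP.E_add, FP.E_const, Q.E_smul (2 * N ∅), hs] at h1
  refine h1.trans ?_
  have h3 : 2 * N ∅ * (Real.log (1 / (P.cond (xc D U t ∅ w0)).Pr V) + Q.Hc (tz U Typ b) (BB D t {b})) ≤
      2 * N ∅ * (L + Real.log (M + 1)) := mul_le_mul_of_nonneg_left (add_le_add hL hH) (by linarith)
  linarith

/-- price of a letter -/
noncomputable def klt (N : Finset K → ℝ) (M : ℝ) (j : K) (L : ℝ) : ℝ :=
  2 * N ∅ * (L + 2 * Real.log (M + 1) + 1) / N {j}

/-- **price of a letter**, hint = label of (hidden point, the points `J`) -/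
theorem let_pr (B : Bk h N S U t b c d) (I : In h U t w0 V) {J : Finset K} {j : K} (hj : j ∉ J) {ι : Type*}
    {Y : Pt K X β φ → ι} (hY : Fac (Ah D t J) Y)
    (hYB : ∀ v w, xc D U t ∅ w0 v → xc D U t ∅ w0 w → Y v = Y w → BB D t J v = BB D t J w)
    (hH : ((D.P h t).cond V).Hc Y (BB D t J) ≤ 2 * Real.log (M + 1))
    (hL : Real.log (1 / ((D.P h t).cond (xc D U t ∅ w0)).Pr V) ≤ L) :
    ((D.P h t).cond V).I (tz U Typ j) Y (fun _ => ()) +
      ((D.P h t).cond V).klc ((D.P h t).cond (xc D U t ∅ w0)) (tz U Typ j) (fun _ => ()) ≤ klt N M j L := by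
  classical
  set P := D.P h t with hP
  set Q := P.cond V with hQ
  set R := P.cond (xc D U t ∅ w0) with hR
  have hN0 := B.nn ∅ B.s0
  have hNj := B.n1 j
  have hac : Q.Ac R := I.ac
  rw [IK_eq hac]
  unfold klt
  rw [le_div_iff₀ hNj, mul_comm, ← FP.E_smul]
  have hs := surp B I J hYB
  have h1 : Q.E (fun w => N {j} * (Q.cond fun v => Y v = Y w).klc R (tz U Typ j) (fun _ => ())) ≤
      Q.E (fun w => 2 * N ∅ * Real.log (1 / (P.cond (xc D U t J w)).Pr (fun v => V v ∧ Y v = Y w)) + 2 * N ∅) := by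
    refine Q.E_mono fun w hw => ?_
    obtain ⟨hVw, hpw⟩ := I.pt hw
    have hCw := I.sub w hVw
    set E : Pt K X β φ → Prop := fun v => V v ∧ Y v = Y w with hE
    have hE0 : P.Pr E ≠ 0 := (FP.Pr_pos_of (S := E) hpw ⟨hVw, rfl⟩).ne'
    have e0 : Q.cond (fun v => Y v = Y w) = P.cond E := FP.cond_cond hE0
    have hsub : ∀ v, E v → xc D U t J w v := fun v hv =>
      (xc_I hCw).2 ⟨I.sub v hv.1, hYB v w (I.sub v hv.1) hCw hv.2⟩
    set QX := P.cond (xc D U t J w) with hQX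
    have hxn : P.Pr (xc D U t J w) ≠ 0 := xc_ne hpw
    have hXw : QX.p w ≠ 0 := (FP.cond_p_ne hxn).2 ⟨xc_self U t J w, hpw⟩
    have hEX : QX.Pr E ≠ 0 := (FP.Pr_pos_of (S := E) hXw ⟨hVw, rfl⟩).ne'
    have hPQ : QX.cond E = P.cond E := by
      have e : (fun v => xc D U t J w v ∧ E v) = E := by
        funext v
        exact propext ⟨fun hh => hh.2, fun hh => ⟨hsub v hh, hh⟩⟩
      rw [hQX, FP.cond_cond (by rw [e]; exact hE0), e]
    have h2 := ex_vert (h := h) B.dep B.sat B.nn B.era B.s0 (I := J) (j := j) (B.s1 j) hj (w0 := w) hpw (E := E)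
      (fun v u hvu => by
        have hvu' : Ah D t J v = Ah D t J u := by
          simp only [Prod.mk.injEq] at hvu
          unfold Ah
          rw [Prod.mk.injEq]
          exact ⟨hvu.1, hvu.2.1⟩
        show (V v ∧ Y v = Y w) = (V u ∧ Y u = Y w)
        rw [Ah_up (I := J) I.fac v u hvu', hY v u hvu']) hEX
    rw [← hP, ← hQX, hPQ] at h2
    have hacX : (P.cond E).Ac QX := by
      rw [← hPQ]
      exact FP.cond_ac _ _
    have h3 : (P.cond E).kl QX (tz U Typ j) ≤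
        (P.cond E).kl QX (fun w => (LL U {j} w, lo (LL U) {j} w, BB D t {j} w)) := by
      refine FP.kl_mono hacX fun v u hvu => ?_
      simp only [Prod.mk.injEq] at hvu
      obtain ⟨g1, -, g3⟩ := hvu
      rw [BB_eq] at g3
      have g4 := (LL_eq.1 g1).1
      have g5 := g3.1 j (Finset.mem_singleton_self j)
      unfold tz
      rw [g4, g5]
    have h4 : (P.cond E).klc R (tz U Typ j) (fun _ => ()) = (P.cond E).kl QX (tz U Typ j) := by
      have hacR : (P.cond E).Ac R := fun v hv => by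
        obtain ⟨g1, g2⟩ := (FP.cond_p_ne hE0).1 hv
        exact (FP.cond_p_ne (xc_ne I.supp)).2 ⟨I.sub v g1.1, g2⟩
      rw [klc_one hacR]
      unfold FP.kl
      refine FP.E_congr _ fun v hv => ?_
      have e1 : R.m (tz U Typ j) v = QX.m (tz U Typ j) v := by
        have e2 : R = P.cond (xc D U t ∅ w) := by
          have : xc D U t ∅ w = xc D U t ∅ w0 := by
            funext u
            refine propext ⟨fun hu => ⟨hu.1.trans hCw.1, hu.2.trans hCw.2⟩, fun hu => ⟨hu.1.trans hCw.1.symm, hu.2.trans hCw.2.symm⟩⟩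
          rw [this]
        rw [e2]
        refine (ref_law B hj hpw (g := fun u => ind (tz U Typ j u = tz U Typ j v)) fun u u' huu => ?_).symm
        show ind (tz U Typ j u = tz U Typ j v) = ind (tz U Typ j u' = tz U Typ j v)
        rw [tz_fac B Typ j u u' huu]
      rw [e1]
    rw [e0, h4]
    have h5 := mul_le_mul_of_nonneg_left h3 hNj.le
    linarith
  rw [← hP, ← hQ, ← hR] at hs
  rw [FP.E_add, FP.E_const, Q.E_smul (2 * N ∅), hs] at h1
  refine h1.trans ?_
  have h3 : 2 * N ∅ * (Real.log (1 / R.Pr V) + Q.Hc Y (BB D t J)) ≤ 2 * N ∅ * (L + 2 * Real.log (M + 1)) :=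
    mul_le_mul_of_nonneg_left (add_le_add hL hH) (by linarith)
  linarith

/-- sum of the prices -/
noncomputable def ep (N : Finset K → ℝ) (al M : ℝ) (b c d : K) (L : ℝ) : ℝ :=
  kf N al M d c b L + kf N al M c b d L + kf N al M b c d L + (klt N M d L + klt N M c L + klt N M b L)

/-- a coarser hint -/
theorem I_hint {Om : Type*} [Fintype Om] (Q : FP Om) {κ ι ι' ζ : Type*} {X : Om → κ} {Y : Om → ι} {Y' : Om → ι'}
    {Z : Om → ζ} (hY : Fac Y Y') : Q.I X Y' Z ≤ Q.I X Y Z := by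
  rw [FP.I_comm, FP.I_comm (X := X)]
  exact FP.I_mono _ (X := Y) (X' := Y') _ fun v w e => hY v w (Prod.mk.inj e).1

/-- **the prices of the chain** -/
theorem pri_le (B : Bk h N S U t b c d) (I : In h U t w0 V) (hM0 : 0 ≤ M)
    (hM : ∀ c', ∃ s : Finset υ, (s.card : ℝ) ≤ M ∧ ∀ u, Typ c' u → u ∈ s)
    (hL : Real.log (1 / ((D.P h t).cond (xc D U t ∅ w0)).Pr V) ≤ L) :
    Pri (D.P h t) ((D.P h t).cond V) ((D.P h t).cond (xc D U t ∅ w0)) (tz U Typ b) (tz U Typ c) (tz U Typ d)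
      (fun w => w.2.2 b) (fun w => w.2.2 c) (fun w => w.2.2 d) (Zf D U t b) (Zf D U t c) (Zf D U t d) ≤
      ep N al M b c d L := by
  classical
  have hl0 : 0 ≤ Real.log (M + 1) := Real.log_nonneg (by linarith)
  have f1 := face_pr (Typ := Typ) B.rot'.swap I hM hL
  have f2 := face_pr (Typ := Typ) B.rot I hM hL
  have f3 := face_pr (Typ := Typ) B I hM hL
  have g2 : ((D.P h t).cond V).I (fun w => w.2.2 c) (fun w => (tz U Typ c w, w.2.2 b)) (Zf D U t c) ≤
      ((D.P h t).cond V).I (fun w => w.2.2 c) (fun w => (tz U Typ c w, (w.2.2 d, w.2.2 b))) (Zf D U t c) :=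
    I_hint _ fun v w e => by
      have e1 := (Prod.mk.inj e).1
      have e2 := (Prod.mk.inj (Prod.mk.inj e).2).2
      show (tz U Typ c v, v.2.2 b) = (tz U Typ c w, w.2.2 b)
      rw [e1, e2]
  have g3 : ((D.P h t).cond V).I (fun w => w.2.2 b) (tz U Typ b) (Zf D U t b) ≤
      ((D.P h t).cond V).I (fun w => w.2.2 b) (fun w => (tz U Typ b w, (w.2.2 d, w.2.2 c))) (Zf D U t b) :=
    I_hint _ fun v w e => (Prod.mk.inj e).1
  have hbf : ∀ {J : Finset K} {e : K}, e ∈ J → Fac (BB (φ := φ) (X := X) D t J) (fun w => w.2.1 e) := fun he v w hvw => by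
    rw [BB_eq] at hvw
    exact hvw.1 _ he
  have l1 := let_pr (Typ := Typ) (M := M) B I (J := {b, c}) (j := d) (Y := fun w => (tz U Typ b w, tz U Typ c w)) (by
      rw [Finset.mem_insert, Finset.mem_singleton]
      rintro (hh | hh)
      · exact B.bd hh.symm
      · exact B.cd hh.symm) (fun v w hvw => by
      have hAh : ∀ {e : K}, e ∈ ({b, c} : Finset K) → Ah D t {e} v = Ah D t {e} w := fun he => by
        unfold Ah at hvw ⊢
        rw [Prod.mk.injEq, BB_eq] at hvw ⊢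
        exact ⟨hvw.1, fun j hj => hvw.2.1 j (by rw [Finset.mem_singleton.1 hj]; exact he), hvw.2.2⟩
      show (tz U Typ b v, tz U Typ c v) = (tz U Typ b w, tz U Typ c w)
      rw [tz_fac B Typ b v w (hAh (Finset.mem_insert_self _ _)),
        tz_fac B Typ c v w (hAh (Finset.mem_insert_of_mem (Finset.mem_singleton_self _)))])
    (fun v w hv hw e => by
      have e1 := (Prod.mk.inj e).1
      have e2 := (Prod.mk.inj e).2
      have h1 := xc_node hv hw
      rw [BB_eq] at h1 ⊢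
      refine ⟨fun j hj => ?_, h1.2⟩
      rw [Finset.mem_insert, Finset.mem_singleton] at hj
      rcases hj with rfl | rfl
      · exact (Prod.mk.inj e1).1
      · exact (Prod.mk.inj e2).1) (by
      have a1 := ((D.P h t).cond V).Hc_chain (tz U Typ b) (tz U Typ c) (BB D t {b, c})
      have a2 := Hc_tz (U := U) (Typ := Typ) hM ((D.P h t).cond V) c (Z := BB D t {b, c})
        (hbf (Finset.mem_insert_of_mem (Finset.mem_singleton_self _)))
      have a3 := Hc_tz (U := U) (Typ := Typ) hM ((D.P h t).cond V) b (Z := fun w => (tz U Typ c w, BB D t {b, c} w))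
        (fun v w e => hbf (Finset.mem_insert_self _ _) v w (Prod.mk.inj e).2)
      linarith) hL
  have l2 := let_pr (Typ := Typ) (M := M) B I (J := {b}) (j := c) (Y := tz U Typ b) (by
      rw [Finset.mem_singleton]
      exact B.bc.symm) (tz_fac B Typ b) (fun v w hv hw e => tz_BB Typ hv hw e) (by
      have a3 := Hc_tz (U := U) (Typ := Typ) hM ((D.P h t).cond V) b (Z := BB D t {b}) (hbf (Finset.mem_singleton_self _))
      linarith) hL
  have l3 := let_pr (Typ := Typ) (M := M) B I (J := ∅) (j := b) (Y := fun _ => ()) (Finset.notMem_empty _) (fun _ _ _ => rfl)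
    (fun v w hv hw _ => xc_node hv hw) (by
      have a1 := Hc_le_card ((D.P h t).cond V) (fun _ => ()) (BB D t (∅ : Finset K)) (M := 1) fun w _ =>
        ⟨{()}, by simp, fun v _ _ => Finset.mem_singleton.2 rfl⟩
      rw [Real.log_one] at a1
      linarith) hL
  unfold Pri ep
  linarith

/-! ### the tables of the tops -/

theorem tz_typ {e : K} {w : Pt K X β φ} : (tz U Typ e w).2 ≠ Option.none ↔ Typ (w.2.1 e) (U {e} w.1 w.2.1) := by
  unfold tz tru
  constructor
  · intro hh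
    by_contra hc
    exact hh (if_neg hc)
  · intro hh h2
    simp only [if_pos hh] at h2
    exact Option.some_ne_none _ h2

theorem tz_iff {e : K} {v w : Pt K X β φ} (hw : (tz U Typ e w).2 ≠ Option.none) :
    tz U Typ e v = tz U Typ e w ↔ zf U e v = zf U e w := zt_iff (tz_typ.1 hw)

theorem tz_zf (e : K) : Fac (zf (β := β) (φ := φ) U e) (tz U Typ e) := fun v w hvw => by
  unfold zf at hvw
  rw [Prod.mk.injEq] at hvw
  unfold tz
  rw [hvw.1, hvw.2]

/-- the letters below a face -/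
theorem Zf_zf (B : Bk h N S U t b c d) {v w : Pt K X β φ} (e : Zf D U t b v = Zf D U t b w) :
    zf U c v = zf U c w ∧ zf U d v = zf U d w :=
  (Zf_iff B (Zf_pub B e).1 (Zf_pub B e).2).1 e

/-- **the table of a top, in the class** -/
theorem ratio (B : Bk h N S U t b c d) (hw0 : (D.P h t).p w0 ≠ 0) {w : Pt K X β φ} (hw : xc D U t ∅ w0 w)
    (hc : (tz U Typ c w).2 ≠ Option.none) (hd : (tz U Typ d w).2 ≠ Option.none) (g : φ → ℝ) :
    (D.P h t).ce (Zf D U t b) (fun v => g (v.2.2 b)) w =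
      vce ((D.P h t).cond (xc D U t ∅ w0)) (fun v => (tz U Typ c v, tz U Typ d v)) (tz U Typ c w, tz U Typ d w)
        (fun v => g (v.2.2 b)) := by
  classical
  set P := D.P h t with hP
  have hC0 : P.Pr (xc D U t ∅ w0) ≠ 0 := xc_ne hw0
  have key : ∀ v, ind (Zf D U t b v = Zf D U t b w) =
      ind (xc D U t ∅ w0 v) * ind ((tz U Typ c v, tz U Typ d v) = (tz U Typ c w, tz U Typ d w)) := by
    intro v
    rw [← ind_and]
    congr 1
    refine propext ⟨fun e => ?_, fun e => ?_⟩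
    · obtain ⟨h1, h2⟩ := Zf_pub B e
      obtain ⟨h3, h4⟩ := Zf_zf B e
      refine ⟨⟨h1.trans hw.1, h2.trans hw.2⟩, ?_⟩
      rw [tz_zf c v w h3, tz_zf d v w h4]
    · obtain ⟨h1, h2⟩ := e
      refine (Zf_iff B (h1.1.trans hw.1.symm) (h1.2.trans hw.2.symm)).2
        ⟨(tz_iff hc).1 (Prod.mk.inj h2).1, (tz_iff hd).1 (Prod.mk.inj h2).2⟩
  unfold FP.ce FP.m vce
  rw [FP.cond_E hC0, FP.cond_E hC0]
  have e1 : P.E (fun v => ind (Zf D U t b v = Zf D U t b w) * g (v.2.2 b)) =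
      P.E (fun v => ind (xc D U t ∅ w0 v) * (ind ((tz U Typ c v, tz U Typ d v) = (tz U Typ c w, tz U Typ d w)) *
        g (v.2.2 b))) := P.E_congr fun v _ => by rw [key v, mul_assoc]
  have e2 : P.E (fun v => ind (Zf D U t b v = Zf D U t b w)) =
      P.E (fun v => ind (xc D U t ∅ w0 v) * ind ((tz U Typ c v, tz U Typ d v) = (tz U Typ c w, tz U Typ d w))) :=
    P.E_congr fun v _ => key v
  rw [e1, e2, div_div_div_cancel_right₀ hC0]

theorem tbl (B : Bk h N S U t b c d) (hw0 : (D.P h t).p w0 ≠ 0) :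
    Tbl (D.P h t) ((D.P h t).cond (xc D U t ∅ w0)) (xc D U t ∅ w0) (fun z : β × Option υ => z.2 ≠ Option.none)
      (tz U Typ b) (tz U Typ c) (tz U Typ d) (fun w => w.2.2 b) (fun w => w.2.2 c) (fun w => w.2.2 d) (Zf D U t b)
      (Zf D U t c) (Zf D U t d) where
  bd := fun v w e => tz_zf b v w (Zf_zf B.rot' e).1
  cd := fun v w e => tz_zf c v w (Zf_zf B.rot' e).2
  bc := fun v w e => tz_zf b v w (Zf_zf B.rot e).1
  dc := fun v w e => tz_zf d v w (Zf_zf B.rot e).2
  cb := fun v w e => tz_zf c v w (Zf_zf B e).1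
  db := fun v w e => tz_zf d v w (Zf_zf B e).2
  td := fun _ hw h1 h2 g => ratio B.rot' hw0 hw h1 h2 g
  tc := fun _ hw h1 h2 g => ratio B.rot hw0 hw h1 h2 g
  tb := fun _ hw h1 h2 g => ratio B hw0 hw h1 h2 g

/-! ### a relation -/

/-- a relation of the thin letters and of the tops, alive at typical letters -/
structure Rn (h : D.Thick al) (U : Finset K → X → (K → β) → υ) (t : ℕ) (b c d : K) (w0 : Pt K X β φ)
    (Typ : β → υ → Prop) (A : Pt K X β φ → Prop) : Prop where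
  fac : ∀ v w, (D.P h t).p v ≠ 0 → (D.P h t).p w ≠ 0 → xc D U t ∅ w0 v → xc D U t ∅ w0 w →
    (∀ e, zf U e v = zf U e w) → (∀ e, v.2.2 e = w.2.2 e) → A v → A w
  typ : ∀ w, (D.P h t).p w ≠ 0 → xc D U t ∅ w0 w → A w → ∀ e, Typ (w.2.1 e) (U {e} w.1 w.2.1)

/-- the relation in the truncated letters -/
def gn (h : D.Thick al) (U : Finset K → X → (K → β) → υ) (t : ℕ) (b c d : K) (w0 : Pt K X β φ)
    (Typ : β → υ → Prop) (A : Pt K X β φ → Prop) (fb fc fd : φ) (zb zc zd : β × Option υ) : Prop :=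
  ∃ v, (D.P h t).p v ≠ 0 ∧ xc D U t ∅ w0 v ∧ A v ∧ (tz U Typ b v = zb ∧ tz U Typ c v = zc ∧ tz U Typ d v = zd) ∧
    (v.2.2 b = fb ∧ v.2.2 c = fc ∧ v.2.2 d = fd)

theorem gn_iff (hall : ∀ j, j = b ∨ j = c ∨ j = d) {A : Pt K X β φ → Prop} (H : Rn h U t b c d w0 Typ A)
    {w : Pt K X β φ} (hw : (D.P h t).p w ≠ 0) (hc : xc D U t ∅ w0 w) :
    At (tz U Typ b) (tz U Typ c) (tz U Typ d) (fun w => w.2.2 b) (fun w => w.2.2 c) (fun w => w.2.2 d)
      (gn h U t b c d w0 Typ A) w ↔ A w := by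
  constructor
  · rintro ⟨v, hv, hcv, hA, ⟨h1, h2, h3⟩, h4, h5, h6⟩
    have ty := H.typ v hv hcv hA
    have z : ∀ e, zf U e v = zf U e w := by
      intro e
      have key : ∀ e, tz U Typ e v = tz U Typ e w → zf U e v = zf U e w := fun e he =>
        ((tz_iff (tz_typ.2 (ty e))).1 he.symm).symm
      rcases hall e with rfl | rfl | rfl
      · exact key _ h1
      · exact key _ h2
      · exact key _ h3
    refine H.fac v w hv hw hcv hc z (fun e => ?_) hA
    rcases hall e with rfl | rfl | rfl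
    · exact h4
    · exact h5
    · exact h6
  · intro hA
    exact ⟨w, hw, hc, hA, ⟨rfl, rfl, rfl⟩, rfl, rfl, rfl⟩

theorem kf_nn (B : Bk h N S U t b c d) (hM0 : 0 ≤ M) (hL : 0 ≤ L) : 0 ≤ kf N al M b c d L := by
  have hN0 := B.nn ∅ B.s0
  have hNe := B.n2 b
  have hc := B.n1 c
  have hd := B.n1 d
  have hl0 : 0 ≤ Real.log (M + 1) := Real.log_nonneg (by linarith)
  have hal0 : 0 ≤ Real.log (1 / al) := Real.log_nonneg (by
    rw [le_div_iff₀ h.pos, one_mul]
    exact hal_one h b)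
  unfold kf
  positivity

theorem klt_nn (B : Bk h N S U t b c d) (hM0 : 0 ≤ M) (hL : 0 ≤ L) (j : K) : 0 ≤ klt N M j L := by
  have hN0 := B.nn ∅ B.s0
  have hNe := B.n1 j
  have hl0 : 0 ≤ Real.log (M + 1) := Real.log_nonneg (by linarith)
  unfold klt
  positivity

theorem ep_nn (B : Bk h N S U t b c d) (hM0 : 0 ≤ M) (hL : 0 ≤ L) : 0 ≤ ep N al M b c d L := by
  have h1 := kf_nn B.rot'.swap hM0 hL
  have h2 := kf_nn B.rot hM0 hL
  have h3 := kf_nn B hM0 hL
  have h4 := klt_nn B hM0 hL b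
  have h5 := klt_nn B hM0 hL c
  have h6 := klt_nn B hM0 hL d
  unfold ep
  linarith

/-- **THE MASS INSIDE AN EVENT OF THE HIDDEN POINT AND THE NODE** -/
theorem node (B : Bk h N S U t b c d) (I : In h U t w0 V) {A : Pt K X β φ → Prop} (H : Rn h U t b c d w0 Typ A)
    (hM0 : 0 ≤ M) (hM : ∀ c', ∃ s : Finset υ, (s.card : ℝ) ≤ M ∧ ∀ u, Typ c' u → u ∈ s)
    (hL : Real.log (1 / ((D.P h t).cond (xc D U t ∅ w0)).Pr V) ≤ L) :
    ((D.P h t).cond V).Pr A ≤ 3 / 2 * ep N al M b c d L + 3 * ep N al M b c d 0 +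
      2 * ((D.P h t).cond (xc D U t ∅ w0)).Pr A := by
  classical
  set P := D.P h t with hP
  set C0 := xc D U t ∅ w0 with hC0
  set R := P.cond C0 with hR
  set Q := P.cond V with hQ
  have hC0n : P.Pr C0 ≠ 0 := xc_ne I.supp
  have hRC : R.Pr C0 = 1 := by
    rw [hR, FP.cond_Pr hC0n]
    have : (fun v => C0 v ∧ C0 v) = C0 := funext fun v => propext ⟨fun hh => hh.1, fun hh => ⟨hh, hh⟩⟩
    rw [this, div_self hC0n]
  have hL0 : 0 ≤ L := by
    refine le_trans (Real.log_nonneg ?_) hL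
    have h1 : 0 < R.Pr V := by
      have h1 : R.p w0 ≠ 0 := (FP.cond_p_ne hC0n).2 ⟨xc_self U t ∅ w0, I.supp⟩
      exact FP.Pr_pos_of (S := V) h1 I.self
    rw [le_div_iff₀ h1, one_mul]
    exact R.Pr_le_one _
  have Ic := In.cls (w0 := w0) B I.supp
  have k1 := pri_le (Typ := Typ) B I hM0 hM hL
  have k0 := pri_le (Typ := Typ) B Ic hM0 hM (L := 0) (by
    rw [← hP, ← hC0, ← hR, hRC, div_one, Real.log_one])
  have key := two (P := P) (Q := Q) (R := R) (A := gn h U t b c d w0 Typ A) (FP.cond_ac _ _) I.ac (FP.cond_ac _ _)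
    (tbl (Typ := Typ) B I.supp) (fun w hw => ((FP.cond_p_ne hC0n).1 hw).1) (fun fb fc fd zb zc zd hg => by
      obtain ⟨v, hv, hcv, hA, ⟨h1, h2, h3⟩, -⟩ := hg
      have ty := H.typ v hv hcv hA
      exact ⟨by rw [← h1]; exact tz_typ.2 (ty b), by rw [← h2]; exact tz_typ.2 (ty c),
        by rw [← h3]; exact tz_typ.2 (ty d)⟩) k1 k0 (ep_nn B hM0 hL0) (ep_nn B hM0 le_rfl)
  have eQ : Q.Pr (At (tz U Typ b) (tz U Typ c) (tz U Typ d) (fun w => w.2.2 b) (fun w => w.2.2 c) (fun w => w.2.2 d)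
      (gn h U t b c d w0 Typ A)) = Q.Pr A := by
    refine Q.E_congr fun w hw => ?_
    obtain ⟨h1, h2⟩ := I.pt hw
    exact congrArg ind (propext (gn_iff B.all H h2 (I.sub w h1)))
  have eR : R.Pr (At (tz U Typ b) (tz U Typ c) (tz U Typ d) (fun w => w.2.2 b) (fun w => w.2.2 c) (fun w => w.2.2 d)
      (gn h U t b c d w0 Typ A)) = R.Pr A := by
    refine R.E_congr fun w hw => ?_
    obtain ⟨h1, h2⟩ := (FP.cond_p_ne hC0n).1 hw
    exact congrArg ind (propext (gn_iff B.all H h2 h1))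
  rw [eQ, eR] at key
  exact key

/-! ### the rarity -/

theorem xc_eq {w1 : Pt K X β φ} (hw : xc D U t ∅ w0 w1) : xc D U t ∅ w1 = xc D U t ∅ w0 := by
  funext v
  exact propext ⟨fun hh => ⟨hh.1.trans hw.1, hh.2.trans hw.2⟩, fun hh => ⟨hh.1.trans hw.1.symm, hh.2.trans hw.2.symm⟩⟩

theorem Rn.mv {A : Pt K X β φ → Prop} (H : Rn h U t b c d w0 Typ A) {w1 : Pt K X β φ} (hw : xc D U t ∅ w0 w1) :
    Rn h U t b c d w1 Typ A := by
  refine ⟨?_, ?_⟩
  · rw [xc_eq hw]; exact H.fac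
  · rw [xc_eq hw]; exact H.typ

/-- **RARITY IN A PUBLIC CLASS** -/
theorem rare_n (B : Bk h N S U t b c d) (hw0 : (D.P h t).p w0 ≠ 0) {A : Pt K X β φ → Prop}
    (H : Rn h U t b c d w0 Typ A) (hM0 : 0 ≤ M) (hM : ∀ c', ∃ s : Finset υ, (s.card : ℝ) ≤ M ∧ ∀ u, Typ c' u → u ∈ s)
    {L1 y : ℝ} (hy : 3 / 2 * ep N al M b c d L1 + 3 * ep N al M b c d 0 +
      2 * ((D.P h t).cond (xc D U t ∅ w0)).Pr A < y) :
    ((D.P h t).cond (xc D U t ∅ w0)).Pr (fun w => y ≤ (D.P h t).ce (Ah D t ∅) (fun v => ind (A v)) w) ≤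
      Real.exp (-L1) := by
  classical
  set C0 := xc D U t ∅ w0 with hC0
  set R := (D.P h t).cond C0 with hR
  have hC0n : (D.P h t).Pr C0 ≠ 0 := xc_ne hw0
  have hCf : Fac (Ah D t ∅) C0 := xc_fac ∅ w0 B.dep B.era
  have key := RarX.rare_of (R := R) (Sg := Ah D t ∅) (A := A) (y := y) (L := L1)
    (B1 := 3 / 2 * ep N al M b c d L1 + 3 * ep N al M b c d 0 + 2 * R.Pr A) ?_ hy
  · refine le_trans (le_of_eq ?_) key
    refine R.E_congr fun w hw => ?_
    have hw1 : C0 w := ((FP.cond_p_ne hC0n).1 hw).1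
    have e1 : R.ce (Ah D t ∅) (fun v => ind (A v)) w = (D.P h t).ce (Ah D t ∅) (fun v => ind (A v)) w :=
      cond_ce_event hCf hC0n _ hw1
    show ind (y ≤ (D.P h t).ce (Ah D t ∅) (fun v => ind (A v)) w) = ind (y ≤ R.ce (Ah D t ∅) (fun v => ind (A v)) w)
    rw [e1]
  · intro E hE hE0 hL
    have hex : ∃ w1, R.p w1 ≠ 0 ∧ E w1 := by
      by_contra hno
      push Not at hno
      refine hE0 ?_
      unfold FP.Pr
      rw [R.E_congr (g := fun _ => 0) fun w hw => ind_not (hno w hw), R.E_const]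
    obtain ⟨w1, h1, h2⟩ := hex
    obtain ⟨c1, p1⟩ := (FP.cond_p_ne hC0n).1 h1
    set V : Pt K X β φ → Prop := fun v => C0 v ∧ E v with hV
    have I1 : In h U t w1 V := by
      refine ⟨fun v w hvw => ?_, ⟨c1, h2⟩, p1, fun v hv => ?_⟩
      · show (C0 v ∧ E v) = (C0 w ∧ E w)
        rw [hCf v w hvw, hE v w hvw]
      · rw [xc_eq c1]; exact hv.1
    have hVE : R.Pr V = R.Pr E := by
      refine R.E_congr fun w hw => ?_
      have := ((FP.cond_p_ne hC0n).1 hw).1
      exact congrArg ind (propext ⟨fun hh => hh.2, fun hh => ⟨this, hh⟩⟩)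
    have hV0 : (D.P h t).Pr V ≠ 0 := (FP.Pr_pos_of (S := V) p1 ⟨c1, h2⟩).ne'
    have hcc : R.cond E = (D.P h t).cond V := FP.cond_cond hV0
    have h3 := node B I1 (H.mv c1) hM0 hM (L := L1) (by
      rw [xc_eq c1, ← hC0, ← hR, hVE]
      exact hL)
    rw [xc_eq c1, ← hC0, ← hR] at h3
    rw [hcc]
    exact h3

/-- the public class as a map -/
noncomputable def pum (D : HD K X β γ φ) (U : Finset K → X → (K → β) → υ) (t : ℕ) (w : Pt K X β φ) :
    (Finset K → Option (υ × (K → Option φ))) × ((K → Option β) × (γ × (K → γ))) :=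
  (le (LL U) ∅ w, BB D t ∅ w)

theorem pum_iff {v : Pt K X β φ} : pum D U t v = pum D U t w0 ↔ xc D U t ∅ w0 v := by
  unfold pum
  rw [Prod.mk.injEq]
  exact Iff.rfl

/-- mass in the public class -/
theorem pum_Pr (hw0 : (D.P h t).p w0 ≠ 0) (A : Pt K X β φ → Prop) :
    ((D.P h t).cond (xc D U t ∅ w0)).Pr A = (D.P h t).ce (pum D U t) (fun v => ind (A v)) w0 := by
  have e : (fun v => pum D U t v = pum D U t w0) = xc D U t ∅ w0 := funext fun v => propext pum_iff
  have h0 : (D.P h t).Pr (xc D U t ∅ w0) ≠ 0 := xc_ne hw0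
  unfold FP.Pr FP.ce FP.m
  rw [FP.cond_E h0]
  have e1 : ∀ v, (pum D U t v = pum D U t w0) = xc D U t ∅ w0 v := fun v => congrFun e v
  simp only [e1]
  rfl

/-- **RARITY FOR THE WHOLE LAW**, inside an event `C` of the public classes -/
theorem rare_ntot (B : Bk h N S U t b c d) {A C : Pt K X β φ → Prop} (hC : Fac (pum D U t) C)
    (hM0 : 0 ≤ M) (hM : ∀ c', ∃ s : Finset υ, (s.card : ℝ) ≤ M ∧ ∀ u, Typ c' u → u ∈ s) {L1 y : ℝ}
    (hG : ∀ w, (D.P h t).p w ≠ 0 → C w → Rn h U t b c d w Typ A ∧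
      3 / 2 * ep N al M b c d L1 + 3 * ep N al M b c d 0 + 2 * ((D.P h t).cond (xc D U t ∅ w)).Pr A < y) :
    (D.P h t).Pr (fun w => C w ∧ y ≤ (D.P h t).ce (Ah D t ∅) (fun v => ind (A v)) w) ≤
      Real.exp (-L1) * (D.P h t).Pr C := by
  classical
  set P := D.P h t with hP
  have e1 : P.Pr (fun w => C w ∧ y ≤ P.ce (Ah D t ∅) (fun v => ind (A v)) w) =
      P.E (fun w => ind (C w) * P.ce (pum D U t) (fun w => ind (y ≤ P.ce (Ah D t ∅) (fun v => ind (A v)) w)) w) := by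
    rw [P.E_mul_ce (hC.comp fun q => ind q)]
    exact P.E_congr fun w _ => ind_and _ _
  rw [e1]
  show _ ≤ Real.exp (-L1) * P.E (fun w => ind (C w))
  rw [← P.E_smul]
  refine P.E_mono fun w hw => ?_
  by_cases hCw : C w
  · rw [ind_of hCw, one_mul, mul_one]
    obtain ⟨g2, g3⟩ := hG w hw hCw
    have h1 := rare_n B hw g2 hM0 hM g3
    rw [pum_Pr hw] at h1
    exact h1
  · rw [ind_not hCw, zero_mul, mul_zero]

end inst

end Pool.Agent.GMH.RarN
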