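import Pool.Agent.GMH.RarN3
import Pool.Agent.GMH.TriB
import Pool.Agent.GMH.GamR

/-!
# GMH/RarN4 (helper88): THE NODE ON THE SPACE WITH TABLES (row C5, node)

* `two2`, `node2` : two events of (hidden point, node) in the same class: `P(A | V) ≤ 3/2 ep L + 3 ep L1 + 2 P(A | V1)`;
* `TyC`, `TyC_card` : typical letters of a class, at most `3 exp X0` per point;
* `RnO` : a relation of the letters of `5t` and of the labels of the time `t`, inside a class of the state `s''`, alive at typical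
  letters;
* `node_cls` : `5t ≤ s'' ≤ s ≤ 5t+5` : `P (y ≤ density of A at (hidden point, cells of nn s) | class of s) ≤ exp (-L1)` as soon as
  `3/2 ep (L1 + lw) + 3 ep lw'' + 2 P(A | class of s'') < y/8`, `lw`, `lw''` = surprisal of the classes inside the class of `5t`;
* `node_tot` : the same for the whole law, inside any event `C` of the class of `s`.
-/

set_option autoImplicit false
set_option linter.unusedSectionVars false

namespace Pool.Agent.GMH.RarN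

open Finset Pool.Agent.PWZ Pool.Agent.M3 Pool.Agent.GM Pool.Agent.GM.Harm Pool.Agent.GMH

section two2

variable {Om : Type*} [Fintype Om] {P Q R R1 : FP Om} {κ ζ ζ1 ζ2 ζ3 : Type*}
variable {Tb Tc Td : Om → ζ} {Fb Fc Fd : Om → κ} {A : κ → κ → κ → ζ → ζ → ζ → Prop}
variable {typ : ζ → Prop} {Zb : Om → ζ1} {Zc : Om → ζ2} {Zd : Om → ζ3} {C : Om → Prop}

/-- **the relation inside two events** -/
theorem two2 (hac : Q.Ac P) (hacR : Q.Ac R) (h1P : R1.Ac P) (h1R : R1.Ac R)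
    (hT : Tbl P R C typ Tb Tc Td Fb Fc Fd Zb Zc Zd) (hC : ∀ w, R.p w ≠ 0 → C w)
    (hA : ∀ fb fc fd zb zc zd, A fb fc fd zb zc zd → typ zb ∧ typ zc ∧ typ zd) {K K0 : ℝ}
    (hK : Pri P Q R Tb Tc Td Fb Fc Fd Zb Zc Zd ≤ K) (hK0 : Pri P R1 R Tb Tc Td Fb Fc Fd Zb Zc Zd ≤ K0) (hKn : 0 ≤ K)
    (hK0n : 0 ≤ K0) :
    Q.Pr (At Tb Tc Td Fb Fc Fd A) ≤ 3 / 2 * K + 3 * K0 + 2 * R1.Pr (At Tb Tc Td Fb Fc Fd A) := by
  set q := Q.Pr (At Tb Tc Td Fb Fc Fd A) with hq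
  set r := R1.Pr (At Tb Tc Td Fb Fc Fd A) with hr
  set n := NN R Tb Tc Td Fb Fc Fd A with hn
  have n0 : 0 ≤ n := NN_nn
  have n1 : n ≤ 1 := NN_le
  have h1 := chain (c := 1) hac hacR hT (fun w hw => hC w (hacR w hw)) hA (by norm_num)
  have h2 := chain (c := -(1 / 2)) h1P h1R hT (fun w hw => hC w (h1R w hw)) hA (by norm_num)
  rw [← hq, ← hn] at h1
  rw [← hr, ← hn] at h2
  have l2 := Real.log_two_gt_d9
  have l2' := Real.log_two_lt_d9
  have e1 : Real.log (1 + 1) = Real.log 2 := by norm_num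
  have e2 : Real.log (1 + -(1 / 2)) = - Real.log 2 := by
    rw [show (1 : ℝ) + -(1 / 2) = 2⁻¹ by norm_num, Real.log_inv]
  have g1 : Real.log (1 + 1 * n) ≤ n := by
    have := Real.log_le_sub_one_of_pos (show 0 < 1 + 1 * n by linarith)
    linarith
  have g2 : Real.log (1 + -(1 / 2) * n) ≤ -(1 / 2) * n := by
    have := Real.log_le_sub_one_of_pos (show 0 < 1 + -(1 / 2) * n by linarith)
    linarith
  rw [e1] at h1
  rw [e2] at h2
  have q0 : 0 ≤ q := Q.Pr_nonneg _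
  have r0 : 0 ≤ r := R1.Pr_nonneg _
  have h3 : n ≤ 2 * K0 + 2 * Real.log 2 * r := by nlinarith
  have h4 : Real.log 2 * q ≤ K + 2 * K0 + 2 * Real.log 2 * r := by nlinarith
  have h5 : Real.log 2 * q ≤ Real.log 2 * (3 / 2 * K + 3 * K0 + 2 * r) := by nlinarith
  exact le_of_mul_le_mul_left h5 (by linarith)

end two2

section inst

variable {K X β γ φ υ : Type} [Fintype K] [DecidableEq K] [Fintype X] [Fintype β] [Fintype φ] [Nonempty X] [Nonempty β]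
  {D : HD K X β γ φ} {al : ℝ} {h : D.Thick al} {N : Finset K → ℝ} {S : Finset (Finset K)}
  {U : Finset K → X → (K → β) → υ} {t : ℕ} {b c d : K} {w0 : Pt K X β φ} {V V1 : Pt K X β φ → Prop}
  {Typ : β → υ → Prop} {M L L1 : ℝ}

theorem In.L_nn (I : In h U t w0 V) (hL : Real.log (1 / ((D.P h t).cond (xc D U t ∅ w0)).Pr V) ≤ L) : 0 ≤ L := by
  refine le_trans (Real.log_nonneg ?_) hL
  have h1 : 0 < ((D.P h t).cond (xc D U t ∅ w0)).Pr V :=
    FP.Pr_pos_of (S := V) ((FP.cond_p_ne (xc_ne I.supp)).2 ⟨xc_self U t ∅ w0, I.supp⟩) I.self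
  rw [le_div_iff₀ h1, one_mul]
  exact FP.Pr_le_one _ _

/-- **two events of the hidden point and the node** -/
theorem node2 (B : Bk h N S U t b c d) (I : In h U t w0 V) (I1 : In h U t w0 V1) {A : Pt K X β φ → Prop}
    (H : Rn h U t b c d w0 Typ A)
    (hM0 : 0 ≤ M) (hM : ∀ c', ∃ s : Finset υ, (s.card : ℝ) ≤ M ∧ ∀ u, Typ c' u → u ∈ s)
    (hL : Real.log (1 / ((D.P h t).cond (xc D U t ∅ w0)).Pr V) ≤ L)
    (hL1 : Real.log (1 / ((D.P h t).cond (xc D U t ∅ w0)).Pr V1) ≤ L1) :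
    ((D.P h t).cond V).Pr A ≤ 3 / 2 * ep N al M b c d L + 3 * ep N al M b c d L1 + 2 * ((D.P h t).cond V1).Pr A := by
  classical
  set P := D.P h t with hP
  set C0 := xc D U t ∅ w0 with hC0
  set R := P.cond C0 with hR
  set Q := P.cond V with hQ
  set R1 := P.cond V1 with hR1
  have hC0n : P.Pr C0 ≠ 0 := xc_ne I.supp
  have k1 := pri_le (Typ := Typ) B I hM0 hM hL
  have k0 := pri_le (Typ := Typ) B I1 hM0 hM hL1
  have key := two2 (P := P) (Q := Q) (R := R) (R1 := R1) (A := gn h U t b c d w0 Typ A) (FP.cond_ac _ _) I.ac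
    (FP.cond_ac _ _) I1.ac
    (tbl (Typ := Typ) B I.supp) (fun w hw => ((FP.cond_p_ne hC0n).1 hw).1) (fun fb fc fd zb zc zd hg => by
      obtain ⟨v, hv, hcv, hA, ⟨h1, h2, h3⟩, -⟩ := hg
      have ty := H.typ v hv hcv hA
      exact ⟨by rw [← h1]; exact tz_typ.2 (ty b), by rw [← h2]; exact tz_typ.2 (ty c),
        by rw [← h3]; exact tz_typ.2 (ty d)⟩) k1 k0 (ep_nn B hM0 (I.L_nn hL)) (ep_nn B hM0 (I1.L_nn hL1))
  have eQ : Q.Pr (At (tz U Typ b) (tz U Typ c) (tz U Typ d) (fun w => w.2.2 b) (fun w => w.2.2 c) (fun w => w.2.2 d)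
      (gn h U t b c d w0 Typ A)) = Q.Pr A := by
    refine Q.E_congr fun w hw => ?_
    obtain ⟨h1, h2⟩ := I.pt hw
    exact congrArg ind (propext (gn_iff B.all H h2 (I.sub w h1)))
  have eR : R1.Pr (At (tz U Typ b) (tz U Typ c) (tz U Typ d) (fun w => w.2.2 b) (fun w => w.2.2 c) (fun w => w.2.2 d)
      (gn h U t b c d w0 Typ A)) = R1.Pr A := by
    refine R1.E_congr fun w hw => ?_
    obtain ⟨h1, h2⟩ := I1.pt hw
    exact congrArg ind (propext (gn_iff B.all H h2 (I1.sub w h1)))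
  rw [eQ, eR] at key
  exact key

end inst

/-! ### the typical letters of a class -/

/-- typical values are few -/
theorem few_typ {Om κ ι : Type*} [Fintype Om] (P : FP Om) (X : Om → κ) (Z : Om → ι) {w0 : Om} (hw0 : P.p w0 ≠ 0) (X0 : ℝ) :
    ∃ s : Finset κ, (s.card : ℝ) ≤ Real.exp X0 ∧ ∀ u, P.p u ≠ 0 → Z u = Z w0 → sp P X Z u ≤ X0 → X u ∈ s := by
  classical
  set s : Finset κ := (univ.filter fun u : Om => P.p u ≠ 0 ∧ Z u = Z w0 ∧ sp P X Z u ≤ X0).image X with hs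
  refine ⟨s, ?_, fun u h1 h2 h3 => Finset.mem_image.2 ⟨u, Finset.mem_filter.2 ⟨mem_univ u, h1, h2, h3⟩, rfl⟩⟩
  have hm := P.m_pos Z hw0
  have h1 : ∀ x ∈ s, Real.exp (-X0) * P.m Z w0 ≤ P.E (fun u => ind (X u = x ∧ Z u = Z w0)) := by
    intro x hx
    obtain ⟨u, hu, rfl⟩ := Finset.mem_image.1 hx
    obtain ⟨-, h1, h2, h3⟩ := Finset.mem_filter.1 hu
    unfold sp at h3
    have p1 := P.m_pos (fun v => (X v, Z v)) h1
    have e1 : P.m Z u = P.m Z w0 := by unfold FP.m; rw [h2]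
    have e2 : P.m (fun v => (X v, Z v)) u = P.E (fun v => ind (X v = X u ∧ Z v = Z w0)) := by
      unfold FP.m
      refine P.E_congr fun v _ => ?_
      rw [Prod.mk.injEq, h2]
    rw [← e2]
    rw [e1] at h3
    have h4 : -X0 + Real.log (P.m Z w0) ≤ Real.log (P.m (fun v => (X v, Z v)) u) := by linarith
    have h5 := Real.exp_le_exp.2 h4
    rw [Real.exp_add, Real.exp_log hm, Real.exp_log p1] at h5
    exact h5
  have h2 : ∑ x ∈ s, P.E (fun u => ind (X u = x ∧ Z u = Z w0)) ≤ P.m Z w0 := by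
    rw [← FP.E_sum]
    unfold FP.m
    refine P.E_mono fun u _ => ?_
    by_cases hu : Z u = Z w0
    · rw [ind_of hu]
      by_cases hx : X u ∈ s
      · rw [Finset.sum_eq_single (X u)]
        · exact ind_le_one _
        · intro x _ hne
          refine ind_not ?_
          rintro ⟨hh, -⟩
          exact hne hh.symm
        · intro hh
          exact absurd hx hh
      · have h0 : ∑ x ∈ s, ind (X u = x ∧ Z u = Z w0) = 0 := Finset.sum_eq_zero fun x hx' => by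
          refine ind_not ?_
          rintro ⟨hh, -⟩
          exact hx (hh ▸ hx')
        rw [h0]
        exact zero_le_one
    · have h0 : ∑ x ∈ s, ind (X u = x ∧ Z u = Z w0) = 0 := Finset.sum_eq_zero fun x _ => by
        refine ind_not ?_
        rintro ⟨-, hh⟩
        exact hu hh
      rw [ind_not hu, h0]
  have h3 := (Finset.sum_le_sum h1).trans h2
  rw [Finset.sum_const, nsmul_eq_mul] at h3
  have h4 : (s.card : ℝ) * Real.exp (-X0) ≤ 1 := by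
    have : (s.card : ℝ) * Real.exp (-X0) * P.m Z w0 ≤ 1 * P.m Z w0 := by linarith
    exact le_of_mul_le_mul_right this hm
  rw [Real.exp_neg] at h4
  have h5 := mul_le_mul_of_nonneg_right h4 (Real.exp_pos X0).le
  rwa [mul_assoc, inv_mul_cancel₀ (Real.exp_pos X0).ne', mul_one, one_mul] at h5

section run

variable {X β γ φ : Type} [Fintype X] [Fintype β] [Fintype φ] [Nonempty X] [Nonempty β]
variable {D : HD (Fin 3) X β γ φ} {al : ℝ} (h : D.Thick al) (v : ℕ → Finset (Fin 3) → X → (Fin 3 → β) → Pt (Fin 3) X β φ)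

/-- typical letters of the class of `p0` at the state `5 t` -/
def TyC (t : ℕ) (X0 : ℝ) (p0 : Pt (Fin 3) X β φ) (c' : β) (u : List (Pt (Fin 3) X β φ)) : Prop :=
  ∃ e q, (D.P h t).p q ≠ 0 ∧ TP.NPq D v (5 * t) q = TP.NPq D v (5 * t) p0 ∧ q.2.1 e = c' ∧ Um v (t + 1) {e} q.1 q.2.1 = u ∧
    TP.ssQ h v (5 * t) e q ≤ X0

theorem TyC_card (t : ℕ) (X0 : ℝ) (p0 : Pt (Fin 3) X β φ) (c' : β) :
    ∃ s : Finset (List (Pt (Fin 3) X β φ)), (s.card : ℝ) ≤ 3 * Real.exp X0 ∧ ∀ u, TyC h v t X0 p0 c' u → u ∈ s := by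
  classical
  have key : ∀ e : Fin 3, ∃ s : Finset (List (Pt (Fin 3) X β φ)), (s.card : ℝ) ≤ Real.exp X0 ∧
      ∀ q, (D.P h t).p q ≠ 0 → TP.NPq D v (5 * t) q = TP.NPq D v (5 * t) p0 → q.2.1 e = c' →
        TP.ssQ h v (5 * t) e q ≤ X0 → Um v (t + 1) {e} q.1 q.2.1 ∈ s := by
    intro e
    by_cases hex : ∃ q, (D.P h t).p q ≠ 0 ∧ TP.NPq D v (5 * t) q = TP.NPq D v (5 * t) p0 ∧ q.2.1 e = c'
    · obtain ⟨q0, g1, g2, g3⟩ := hex
      obtain ⟨s, hs1, hs2⟩ := few_typ (D.P h t) (TP.XLq v (5 * t) e) (fun u => (u.2.1 e, TP.NPq D v (5 * t) u)) g1 X0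
      refine ⟨s.image Prod.snd, ?_, fun q h1 h2 h3 h4 => ?_⟩
      · exact le_trans (by exact_mod_cast Finset.card_image_le) hs1
      · refine Finset.mem_image.2 ⟨TP.XLq v (5 * t) e q, hs2 q h1 ?_ ?_, ?_⟩
        · show (q.2.1 e, TP.NPq D v (5 * t) q) = (q0.2.1 e, TP.NPq D v (5 * t) q0)
          rw [h2, g2, h3, g3]
        · unfold TP.ssQ at h4
          rwa [Nat.mul_div_cancel_left t (by norm_num : 0 < 5)] at h4
        · show Um v (TP.nc (5 * t) {e}) {e} q.1 q.2.1 = _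
          rw [GamR.nc5]
    · refine ⟨∅, by rw [Finset.card_empty, Nat.cast_zero]; exact (Real.exp_pos X0).le, fun q h1 h2 h3 _ => ?_⟩
      exact absurd ⟨q, h1, h2, h3⟩ hex
  choose s hs1 hs2 using key
  refine ⟨univ.biUnion s, ?_, ?_⟩
  · have h1 : ((univ.biUnion s).card : ℝ) ≤ ∑ e, ((s e).card : ℝ) := by exact_mod_cast Finset.card_biUnion_le
    refine h1.trans ((Finset.sum_le_sum fun e _ => hs1 e).trans (le_of_eq ?_))
    rw [Finset.sum_const, Finset.card_univ, nsmul_eq_mul]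
    norm_num
  · rintro u ⟨e, q, h1, h2, h3, h4, h5⟩
    refine Finset.mem_biUnion.2 ⟨e, mem_univ e, ?_⟩
    rw [← h4]
    exact hs2 e q h1 h2 h3 h5

end run

/-! ### the space with tables -/

section om

open Pool.Agent.GMH.Dy Pool.Agent.GMH.MVI Pool.Agent.GMH.MVIp

variable {X β γ φ : Type} [Fintype X] [Fintype β] [Fintype φ] [Nonempty X] [Nonempty β]
variable {D : HD (Fin 3) X β γ φ} {al : ℝ} {h : D.Thick al} {prr : ℕ → Fin 3 → φ → φ} {T : ℕ} {W : Type} [Fintype W]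
variable (tb : Tab D prr T W) {v : ℕ → Finset (Fin 3) → X → (Fin 3 → β) → Pt (Fin 3) X β φ}

theorem Um_cell {υ : Type} {v : ℕ → Finset (Fin 3) → X → (Fin 3 → β) → υ} (hv : Codes D v) {m n : ℕ} (hm : m ≤ n + 1) {x : X}
    {y y' : Fin 3 → β} (hy : ∀ j, D.qb n (y j) = D.qb n (y' j)) : Um v m ∅ x y = Um v m ∅ x y' := by
  unfold Um
  rw [List.map_inj_left]
  intro s hs
  have hst : s < m := List.mem_range.1 hs
  exact hv s ∅ x y y' (fun j hj => absurd hj (Finset.notMem_empty j)) fun j => qb_mono D (by omega) (hy j)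

/-- the hidden point in the class of `w0` at the state `s` -/
def Wc (D : HD (Fin 3) X β γ φ) (v : ℕ → Finset (Fin 3) → X → (Fin 3 → β) → Pt (Fin 3) X β φ) (s : ℕ) (w0 w : Om W X β) : Prop :=
  Um v (TP.nc s ∅) ∅ w.1 w0.2.2 = Um v (TP.nc s ∅) ∅ w0.1 w0.2.2 ∧ D.qa (TP.nn s) w.1 = D.qa (TP.nn s) w0.1

theorem NPs_iff (hv : Codes D v) {s : ℕ} {w0 w : Om W X β} : NPo tb v s w = NPo tb v s w0 ↔
    ((∀ j, D.qb (TP.nn s) (w.2.2 j) = D.qb (TP.nn s) (w0.2.2 j)) ∧ Wc D v s w0 w) := by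
  show ((Um v (TP.nc s ∅) ∅ w.1 w.2.2, (D.qa (TP.nn s) w.1, fun j => D.qb (TP.nn s) (w.2.2 j))) =
    (Um v (TP.nc s ∅) ∅ w0.1 w0.2.2, (D.qa (TP.nn s) w0.1, fun j => D.qb (TP.nn s) (w0.2.2 j)))) ↔ _
  rw [Prod.mk.injEq, Prod.mk.injEq, funext_iff]
  unfold Wc
  constructor
  · rintro ⟨h1, h2, h3⟩
    refine ⟨h3, ?_, h2⟩
    rw [← h1]
    exact (Um_cell hv (TP.nc_le s ∅) h3).symm
  · rintro ⟨h3, h1, h2⟩
    refine ⟨?_, h2, h3⟩
    rw [Um_cell hv (TP.nc_le s ∅) h3]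
    exact h1

/-- the class of `5 t` and the public class of the saturated state -/
theorem NPq_xc {t : ℕ} {p q : Pt (Fin 3) X β φ} : TP.NPq D v (5 * t) p = TP.NPq D v (5 * t) q ↔
    xc D (Um v (t + 1)) t ∅ q p := by
  show ((Um v (TP.nc (5 * t) ∅) ∅ p.1 p.2.1, (D.qa (TP.nn (5 * t)) p.1, fun j => D.qb (TP.nn (5 * t)) (p.2.1 j))) =
      (Um v (TP.nc (5 * t) ∅) ∅ q.1 q.2.1, (D.qa (TP.nn (5 * t)) q.1, fun j => D.qb (TP.nn (5 * t)) (q.2.1 j)))) ↔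
      (le (LL (Um v (t + 1))) ∅ p = le (LL (Um v (t + 1))) ∅ q ∧ BB D t ∅ p = BB D t ∅ q)
  rw [GamR.nc5, GamR.nn5]
  refine ⟨fun hh => ?_, fun hh => ?_⟩
  · simp only [Prod.mk.injEq, funext_iff] at hh
    obtain ⟨h1, h2, h3⟩ := hh
    refine ⟨le_eq.2 fun I hI => ?_, BB_eq.2 ⟨fun j hj => absurd hj (Finset.notMem_empty j), h2, h3⟩⟩
    rw [Finset.subset_empty.1 hI, LL_eq]
    exact ⟨h1, fun l hl => absurd (hl ▸ Finset.Subset.refl _) (GamR.not_era l)⟩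
  · obtain ⟨h1, h2⟩ := hh
    have h3 := (LL_eq.1 (le_eq.1 h1 ∅ (Finset.Subset.refl _))).1
    have h4 := BB_eq.1 h2
    exact Prod.ext h3 (Prod.ext h4.2.1 (funext h4.2.2))

theorem NPo_mono {q q' : ℕ} (hq : q ≤ q') {u w : Om W X β} (e : NPo tb v q' u = NPo tb v q' w) :
    NPo tb v q u = NPo tb v q w := TP.NPq_mono hq _ _ e

/-- a relation of the letters of `5 t` and of the labels of the time `t`, inside the class of `w0` at the state `s2` -/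
structure RnO (h : D.Thick al) (v : ℕ → Finset (Fin 3) → X → (Fin 3 → β) → Pt (Fin 3) X β φ) (t s2 : ℕ) (X0 : ℝ)
    (w0 : Om W X β) (A : Om W X β → Prop) : Prop where
  fac : ∀ u w, tb.Ps.p u ≠ 0 → tb.Ps.p w ≠ 0 → NPo tb v s2 u = NPo tb v s2 w0 → NPo tb v s2 w = NPo tb v s2 w0 →
    (∀ e, XLo tb v e (5 * t) u = XLo tb v e (5 * t) w) → (∀ e, (tb.pt t u).2.2 e = (tb.pt t w).2.2 e) → A u → A w
  typ : ∀ w, tb.Ps.p w ≠ 0 → NPo tb v s2 w = NPo tb v s2 w0 → A w → ∀ e, TP.ssQ h v (5 * t) e (tb.pt t w) ≤ X0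

/-- the relation in the class of `5 t`, with the cells of `w0` at the state `s` -/
def AE (v : ℕ → Finset (Fin 3) → X → (Fin 3 → β) → Pt (Fin 3) X β φ) (t s2 s : ℕ) (w0 : Om W X β) (A : Om W X β → Prop)
    (p : Pt (Fin 3) X β φ) : Prop :=
  (∀ j, D.qb (TP.nn s) (p.2.1 j) = D.qb (TP.nn s) (w0.2.2 j)) ∧ ∃ u, tb.Ps.p u ≠ 0 ∧ NPo tb v s2 u = NPo tb v s2 w0 ∧ A u ∧
    (∀ e, TP.XLq v (5 * t) e (tb.pt t u) = TP.XLq v (5 * t) e p) ∧ ∀ e, (tb.pt t u).2.2 e = p.2.2 e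

variable {tb}

theorem AE_of {t s2 s : ℕ} (hss : s2 ≤ s) {w0 w : Om W X β} {A : Om W X β → Prop} (hw : tb.Ps.p w ≠ 0)
    (h1 : NPo tb v s w = NPo tb v s w0) (hA : A w) : AE tb v t s2 s w0 A (tb.pt t w) := by
  refine ⟨?_, w, hw, NPo_mono tb hss h1, hA, fun _ => rfl, fun _ => rfl⟩
  have h2 := congrArg (fun z => z.2.2) h1
  exact fun j => congrFun h2 j

theorem AE_to (hv : Codes D v) {t s2 s : ℕ} (hss : s2 ≤ s) {X0 : ℝ} {w0 w : Om W X β} {A : Om W X β → Prop}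
    (HA : RnO tb h v t s2 X0 w0 A) (hw : tb.Ps.p w ≠ 0) (h1 : Wc D v s2 w0 w) (hA : AE tb v t s2 s w0 A (tb.pt t w)) :
    A w ∧ NPo tb v s2 w = NPo tb v s2 w0 := by
  obtain ⟨hc, u, hu, h2, h3, h4, h5⟩ := hA
  have h6 : NPo tb v s2 w = NPo tb v s2 w0 := (NPs_iff tb hv).2 ⟨fun j => qb_mono D (TP.nn_mono hss) (hc j), h1⟩
  exact ⟨HA.fac u w hu hw h2 h6 h4 h5 h3, h6⟩

/-- the relation on the space of the time `t` -/
theorem AE_Rn {n N1 : ℝ} (hn : 1 ≤ n) (hN1 : 1 ≤ N1)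
    (R : Run h (pr3 (Fin 3) n N1) (SS1 (Fin 3)) (AdmDep D) v) {t s2 s : ℕ} (ht : t ≤ T) (h5 : 5 * t ≤ s2) {X0 : ℝ}
    {w0 : Om W X β} {A : Om W X β → Prop} (HA : RnO tb h v t s2 X0 w0 A) {b c d : Fin 3} {p1 : Pt (Fin 3) X β φ}
    (hp1 : TP.NPq D v (5 * t) p1 = TP.NPq D v (5 * t) (tb.pt t w0)) :
    Rn h (Um v (t + 1)) t b c d p1 (TyC h v t X0 (tb.pt t w0)) (AE tb v t s2 s w0 A) where
  fac := by
    rintro p q hp hq hcp hcq hz hl ⟨hc, u, hu, h2, h3, h4, h6⟩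
    refine ⟨fun j => ?_, u, hu, h2, h3, fun e => ?_, fun e => (h6 e).trans (hl e)⟩
    · have h7 := congrArg Prod.fst (hz j)
      have h8 : p.2.1 j = q.2.1 j := h7
      rw [← h8]
      exact hc j
    · rw [h4 e]
      have h7 := hz e
      unfold zf at h7
      rw [Prod.mk.injEq] at h7
      show (p.2.1 e, Um v (TP.nc (5 * t) {e}) {e} p.1 p.2.1) = (q.2.1 e, Um v (TP.nc (5 * t) {e}) {e} q.1 q.2.1)
      rw [GamR.nc5, h7.1, h7.2]
  typ := by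
    rintro p hp hcp ⟨hc, u, hu, h2, h3, h4, h6⟩ e
    have h7 := h4 e
    have h8 : u.2.2 e = p.2.1 e := congrArg Prod.fst h7
    have h9 : Um v (TP.nc (5 * t) {e}) {e} u.1 u.2.2 = Um v (TP.nc (5 * t) {e}) {e} p.1 p.2.1 := congrArg Prod.snd h7
    rw [GamR.nc5] at h9
    exact ⟨e, tb.pt t u, (pul_pt h tb ht).ne hu, NPo_mono tb h5 h2, h8, h9, HA.typ u hu h2 h3 e⟩

/-- mass of an event of the hidden point inside a class -/
theorem cls_mass (hv : Codes D v) {t s : ℕ} (h5 : 5 * t ≤ s) {w0 : Om W X β} (hw0 : tb.Ps.p w0 ≠ 0)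
    {G : Om W X β → Prop} (hG : Fac (sgt D ∅ t) G) :
    tb.Ps.E (fun u => ind (NPo tb v s u = NPo tb v s w0 ∧ G u)) =
      tb.Ps.m (fun u => (GamR.Yc D (TP.nn s) u, NPo tb v (5 * t) u)) w0 *
        tb.Ps.ce (NPo tb v (5 * t)) (fun u => ind (NPo tb v (5 * t) u = NPo tb v (5 * t) w0 ∧ Wc D v s w0 u ∧ G u)) w0 := by
  have hM : Fac (sgt (W := W) D ∅ t) (NPo tb v (5 * t)) := GamR.NP_sgt tb hv t
  have hM' : Fac (NPo tb v (5 * t)) (ndE D ∅ t) := fun a b e => by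
    have h1 := (GamR.NP5_iff tb).1 e
    exact ndE_eq.2 ⟨h1.2.1, fun j hj => absurd hj (Finset.notMem_empty j), h1.2.2⟩
  have h1 := GamR.ce_Y tb t hM hM' (GamR.Yc_fac (W := W) (X := X) (D := D) (TP.nn s))
    (f := fun u => ind (NPo tb v (5 * t) u = NPo tb v (5 * t) w0 ∧ Wc D v s w0 u ∧ G u)) (fun a b e => by
      have e1 := hM a b e
      have e2 := (sgt_eq.1 e).1
      have e3 := hG a b e
      show ind (_ ∧ _ ∧ _) = ind (_ ∧ _ ∧ _)
      unfold Wc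
      rw [e1, e2, e3]) hw0
  rw [← h1]
  unfold FP.ce
  rw [mul_div_cancel₀ _ (tb.Ps.m_pos _ hw0).ne']
  refine tb.Ps.E_congr fun u _ => ?_
  rw [← ind_and]
  congr 1
  refine propext ⟨fun hh => ?_, fun hh => ?_⟩
  · obtain ⟨g1, g2⟩ := hh
    have g3 := (NPs_iff tb hv).1 g1
    have g4 := NPo_mono tb h5 g1
    exact ⟨Prod.ext (funext g3.1) g4, g4, g3.2, g2⟩
  · obtain ⟨g1, g2, g3, g4⟩ := hh
    have g5 := (Prod.mk.inj g1).1
    exact ⟨(NPs_iff tb hv).2 ⟨fun j => congrFun g5 j, g3⟩, g4⟩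

theorem cls_mass' (hv : Codes D v) {t s : ℕ} (h5 : 5 * t ≤ s) {w0 : Om W X β} (hw0 : tb.Ps.p w0 ≠ 0) :
    tb.Ps.m (NPo tb v s) w0 =
      tb.Ps.m (fun u => (GamR.Yc D (TP.nn s) u, NPo tb v (5 * t) u)) w0 *
        tb.Ps.ce (NPo tb v (5 * t)) (fun u => ind (NPo tb v (5 * t) u = NPo tb v (5 * t) w0 ∧ Wc D v s w0 u)) w0 := by
  have h1 := cls_mass (tb := tb) hv (t := t) h5 hw0 (G := fun _ => True) (fun _ _ _ => rfl)
  simp only [and_true] at h1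
  exact h1

/-- the share of a class -/
theorem cls_low (hv : Codes D v) {t s : ℕ} (h5 : 5 * t ≤ s) {w0 : Om W X β} (hw0 : tb.Ps.p w0 ≠ 0) {lw : ℝ}
    (hl : Real.exp (-lw) * tb.Ps.m (NPo tb v (5 * t)) w0 ≤ tb.Ps.m (NPo tb v s) w0) :
    Real.exp (-lw) ≤ tb.Ps.ce (NPo tb v (5 * t))
      (fun u => ind (NPo tb v (5 * t) u = NPo tb v (5 * t) w0 ∧ Wc D v s w0 u)) w0 := by
  have h1 := cls_mass' (tb := tb) hv (t := t) h5 hw0
  have p0 := tb.Ps.m_pos (NPo tb v (5 * t)) hw0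
  have h2 : tb.Ps.m (fun u => (GamR.Yc D (TP.nn s) u, NPo tb v (5 * t) u)) w0 ≤ tb.Ps.m (NPo tb v (5 * t)) w0 :=
    tb.Ps.E_mono fun u _ => ind_mono fun e => (Prod.mk.inj e).2
  have h3 : 0 ≤ tb.Ps.ce (NPo tb v (5 * t))
      (fun u => ind (NPo tb v (5 * t) u = NPo tb v (5 * t) w0 ∧ Wc D v s w0 u)) w0 :=
    tb.Ps.ce_nonneg (fun _ _ => ind_nonneg _) _
  rw [h1] at hl
  have h4 := mul_le_mul_of_nonneg_right h2 h3
  have h5 : Real.exp (-lw) * tb.Ps.m (NPo tb v (5 * t)) w0 ≤ tb.Ps.ce (NPo tb v (5 * t))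
      (fun u => ind (NPo tb v (5 * t) u = NPo tb v (5 * t) w0 ∧ Wc D v s w0 u)) w0 * tb.Ps.m (NPo tb v (5 * t)) w0 := by
    linarith
  exact le_of_mul_le_mul_right h5 p0

/-- **RARITY IN A CLASS OF THE RUN** -/
theorem node_cls {n N1 : ℝ} (hn : 1 ≤ n) (hN1 : 1 ≤ N1) (R : Run h (pr3 (Fin 3) n N1) (SS1 (Fin 3)) (AdmDep D) v)
    {dg : ℕ → X → ℝ} {Lam : ℝ} (H : D.Hyp dg prr al T Lam) {t s2 s : ℕ} (ht : t ≤ T) (hst : TP.nn s = t ∨ (TP.nn s = t + 1 ∧ t < T))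
    (h5 : 5 * t ≤ s2) (hss : s2 ≤ s) {X0 L1 lw lw2 y : ℝ} {w0 : Om W X β} (hw0 : tb.Ps.p w0 ≠ 0) {A : Om W X β → Prop}
    (HA : RnO tb h v t s2 X0 w0 A) {b c d : Fin 3} (bc : b ≠ c) (bd : b ≠ d) (cd : c ≠ d)
    (hl : Real.exp (-lw) * tb.Ps.m (NPo tb v (5 * t)) w0 ≤ tb.Ps.m (NPo tb v s) w0)
    (hl2 : Real.exp (-lw2) * tb.Ps.m (NPo tb v (5 * t)) w0 ≤ tb.Ps.m (NPo tb v s2) w0)
    (hy : 3 / 2 * ep (pr3 (Fin 3) n N1) al (3 * Real.exp X0) b c d (L1 + lw) +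
      3 * ep (pr3 (Fin 3) n N1) al (3 * Real.exp X0) b c d lw2 + 2 * tb.Ps.ce (NPo tb v s2) (fun u => ind (A u)) w0 < y / 8) :
    tb.Ps.ce (NPo tb v s) (fun u => ind (y ≤ tb.Ps.ce (sgt D ∅ (TP.nn s)) (fun u => ind (A u)) u)) w0 ≤ Real.exp (-L1) := by
  classical
  have hv := R.codes
  have H0 : Pul tb.Ps (D.P h t) (tb.pt t) := pul_pt h tb ht
  have h5s : 5 * t ≤ s := h5.trans hss
  have hM0 : 0 ≤ 3 * Real.exp X0 := by positivity
  set A1 : Om W X β → Prop := fun u => A u ∧ NPo tb v s u = NPo tb v s w0 with hA1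
  set G : Om W X β → Prop := fun u => y / 8 ≤ tb.Ps.ce (sgt D ∅ t) (fun u => ind (A1 u)) u with hG
  have fG : Fac (sgt (W := W) D ∅ t) G := fun a e hab => by
    show (_ ≤ _) = (_ ≤ _)
    rw [tb.Ps.ce_fac (sgt D ∅ t) (fun u => ind (A1 u)) a e hab]
  set VO : Om W X β → Prop := fun u => NPo tb v (5 * t) u = NPo tb v (5 * t) w0 ∧ Wc D v s w0 u ∧ G u with hVO
  set V2 : Om W X β → Prop := fun u => NPo tb v (5 * t) u = NPo tb v (5 * t) w0 ∧ Wc D v s2 w0 u with hV2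
  have fM : Fac (sgt (W := W) D ∅ t) (NPo tb v (5 * t)) := GamR.NP_sgt tb hv t
  have fVO : Fac (sgt (W := W) D ∅ t) VO := fun a e hab => by
    have e1 := fM a e hab
    have e2 := (sgt_eq.1 hab).1
    have e3 := fG a e hab
    show (_ ∧ _ ∧ _) = (_ ∧ _ ∧ _)
    unfold Wc
    rw [e1, e2, e3]
  have fV2 : Fac (sgt (W := W) D ∅ t) V2 := fun a e hab => by
    have e1 := fM a e hab
    have e2 := (sgt_eq.1 hab).1
    show (_ ∧ _) = (_ ∧ _)
    unfold Wc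
    rw [e1, e2]
  -- the density at the cells of `s`
  have hden : ∀ u, tb.Ps.p u ≠ 0 → NPo tb v s u = NPo tb v s w0 →
      y ≤ tb.Ps.ce (sgt D ∅ (TP.nn s)) (fun u => ind (A u)) u → G u := by
    intro u hu h1 h2
    have e1 : tb.Ps.ce (sgt D ∅ (TP.nn s)) (fun u => ind (A u)) u = tb.Ps.ce (sgt D ∅ (TP.nn s)) (fun u => ind (A1 u)) u := by
      refine GamR.ce_sup tb.Ps fun z _ hz => ?_
      have e2 : NPo tb v s z = NPo tb v s w0 := (NPq_sgt tb hv le_rfl (TP.nc_le s ∅) ∅ 0 z u hz).trans h1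
      have e3 : A1 z = A z := propext ⟨fun hh => hh.1, fun hh => ⟨hh, e2⟩⟩
      rw [e3]
    have e4 : tb.Ps.ce (sgt D ∅ (TP.nn s)) (fun u => ind (A1 u)) u ≤ 8 * tb.Ps.ce (sgt D ∅ t) (fun u => ind (A1 u)) u := by
      rcases hst with h3 | ⟨h3, h4⟩
      · rw [h3]
        have := tb.Ps.ce_nonneg (X := sgt (W := W) D ∅ t) (f := fun u => ind (A1 u)) (fun _ _ => ind_nonneg _) u
        linarith
      · rw [h3]
        exact GamR.half_ge tb H h4 (fun _ => ind_nonneg _) hu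
    show y / 8 ≤ _
    linarith
  -- the mass of the event and of the class
  have k1 := cls_mass (tb := tb) hv (t := t) h5s hw0 fG
  have k2 := cls_mass' (tb := tb) hv (t := t) h5s hw0
  have lo1 := cls_low (tb := tb) hv h5s hw0 hl
  have lo2 := cls_low (tb := tb) hv h5 hw0 hl2
  set mY := tb.Ps.m (fun u => (GamR.Yc D (TP.nn s) u, NPo tb v (5 * t) u)) w0 with hmY
  have pY : 0 < mY := tb.Ps.m_pos _ hw0
  set pV := tb.Ps.ce (NPo tb v (5 * t)) (fun u => ind (VO u)) w0 with hpV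
  set p1 := tb.Ps.ce (NPo tb v (5 * t)) (fun u => ind (NPo tb v (5 * t) u = NPo tb v (5 * t) w0 ∧ Wc D v s w0 u)) w0 with hp1
  set p2 := tb.Ps.ce (NPo tb v (5 * t)) (fun u => ind (V2 u)) w0 with hp2
  have k3 : tb.Ps.ce (NPo tb v s) (fun u => ind (y ≤ tb.Ps.ce (sgt D ∅ (TP.nn s)) (fun u => ind (A u)) u)) w0 * p1 ≤ pV := by
    have e1 : tb.Ps.E (fun u => ind (NPo tb v s u = NPo tb v s w0) *
        ind (y ≤ tb.Ps.ce (sgt D ∅ (TP.nn s)) (fun u => ind (A u)) u)) ≤ mY * pV := by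
      rw [← k1]
      refine tb.Ps.E_mono fun u hu => ?_
      rw [← ind_and]
      exact ind_mono fun hh => ⟨hh.1, hden u hu hh.1 hh.2⟩
    have hp1pos : 0 < p1 := lt_of_lt_of_le (Real.exp_pos _) lo1
    unfold FP.ce at *
    rw [k2, div_mul_eq_mul_div, div_le_iff₀ (mul_pos pY hp1pos)]
    nlinarith
  by_contra hcon
  have hcon' := not_le.1 hcon
  have hp1pos : 0 < p1 := lt_of_lt_of_le (Real.exp_pos _) lo1
  have hpV1 : Real.exp (-(L1 + lw)) ≤ pV := by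
    refine le_trans ?_ k3
    rw [neg_add, Real.exp_add]
    exact mul_le_mul hcon'.le lo1 (Real.exp_pos _).le ((Real.exp_pos _).le.trans hcon'.le)
  have hpVpos : 0 < pV := lt_of_lt_of_le (Real.exp_pos _) hpV1
  -- a point of the event
  have hex : ∃ w1, tb.Ps.p w1 ≠ 0 ∧ VO w1 := by
    by_contra hno
    push Not at hno
    have : pV = 0 := by
      rw [hpV, tb.Ps.ce_congr (g := fun _ => 0) (fun u hu => ind_not (hno u hu)), tb.Ps.ce_const _ _ hw0]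
    linarith
  obtain ⟨w1, hw1, hVw⟩ := hex
  have hV2w : V2 w1 := by
    refine ⟨hVw.1, ?_⟩
    -- the class of `s` is inside the class of `s2`
    have h1 := hVw.2.1
    have h2 : NPo tb v s (w1.1, w1.2.1, w0.2.2) = NPo tb v s w0 := (NPs_iff tb hv).2 ⟨fun _ => rfl, h1⟩
    have h3 := NPo_mono tb hss h2
    exact ((NPs_iff tb hv).1 h3).2
  have hp1w : (D.P h t).p (tb.pt t w1) ≠ 0 := H0.ne hw1
  -- the events on the space of the time `t`
  set V' : Pt (Fin 3) X β φ → Prop := fun p => VO (p.1, w0.2.1, p.2.1) with hV'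
  set V2' : Pt (Fin 3) X β φ → Prop := fun p => V2 (p.1, w0.2.1, p.2.1) with hV2'
  have eV : VO = fun u => V' (tb.pt t u) := by
    funext u
    exact fVO u (u.1, w0.2.1, u.2.2) (sgt_eq.2 ⟨rfl, fun _ _ => rfl, fun _ => rfl⟩)
  have eV2 : V2 = fun u => V2' (tb.pt t u) := by
    funext u
    exact fV2 u (u.1, w0.2.1, u.2.2) (sgt_eq.2 ⟨rfl, fun _ _ => rfl, fun _ => rfl⟩)
  have hAhs : ∀ a e : Pt (Fin 3) X β φ, Ah D t ∅ a = Ah D t ∅ e →
      sgt (W := W) D ∅ t (a.1, w0.2.1, a.2.1) = sgt D ∅ t (e.1, w0.2.1, e.2.1) := fun a e hae => by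
    unfold Ah at hae
    rw [Prod.mk.injEq, BB_eq] at hae
    exact sgt_eq.2 ⟨hae.1, fun j hj => absurd hj (Finset.notMem_empty j), hae.2.2.2⟩
  have hcls : ∀ p : Pt (Fin 3) X β φ, NPo tb v (5 * t) (p.1, w0.2.1, p.2.1) = NPo tb v (5 * t) w0 →
      xc D (Um v (t + 1)) t ∅ (tb.pt t w1) p := fun p hp => by
    refine NPq_xc.1 ?_
    have e1 : TP.NPq D v (5 * t) p = NPo tb v (5 * t) (p.1, w0.2.1, p.2.1) := rfl
    have e2 : TP.NPq D v (5 * t) (tb.pt t w1) = NPo tb v (5 * t) w1 := rfl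
    rw [e1, e2, hp, hVw.1]
  have I : In h (Um v (t + 1)) t (tb.pt t w1) V' := by
    refine ⟨fun a e hae => fVO _ _ (hAhs a e hae), ?_, hp1w, fun p hp => hcls p hp.1⟩
    have : VO w1 = V' (tb.pt t w1) := congrFun eV w1
    rw [← this]
    exact hVw
  have I2 : In h (Um v (t + 1)) t (tb.pt t w1) V2' := by
    refine ⟨fun a e hae => fV2 _ _ (hAhs a e hae), ?_, hp1w, fun p hp => hcls p hp.1⟩
    have : V2 w1 = V2' (tb.pt t w1) := congrFun eV2 w1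
    rw [← this]
    exact hV2w
  -- the masses
  have hC0n : (D.P h t).Pr (xc D (Um v (t + 1)) t ∅ (tb.pt t w1)) ≠ 0 := xc_ne hp1w
  have hmass : ∀ (G1 : Om W X β → Prop) (G2 : Pt (Fin 3) X β φ → Prop), (G1 = fun u => G2 (tb.pt t u)) →
      ((D.P h t).cond (xc D (Um v (t + 1)) t ∅ (tb.pt t w1))).Pr G2 =
        tb.Ps.ce (NPo tb v (5 * t)) (fun u => ind (G1 u)) w0 := by
    intro G1 G2 hGG
    have e0 : (fun u => xc D (Um v (t + 1)) t ∅ (tb.pt t w1) (tb.pt t u)) = fun u => NPo tb v (5 * t) u = NPo tb v (5 * t) w1 := by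
      funext u
      exact propext (NPq_xc (D := D) (v := v) (p := tb.pt t u) (q := tb.pt t w1)).symm
    have e1 := pul_cond H0 hC0n
    rw [e0] at e1
    rw [← e1.Pr G2, ← hGG, tb.Ps.ce_fac (NPo tb v (5 * t)) _ w0 w1 hVw.1.symm]
    exact (tb.Ps.ce_eq_cond (NPo tb v (5 * t)) _ hw1).symm
  have hLV : Real.log (1 / ((D.P h t).cond (xc D (Um v (t + 1)) t ∅ (tb.pt t w1))).Pr V') ≤ L1 + lw := by
    rw [hmass VO V' eV, ← hpV, one_div, Real.log_inv]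
    have := Real.log_le_log (Real.exp_pos _) hpV1
    rw [Real.log_exp] at this
    linarith
  have hLV2 : Real.log (1 / ((D.P h t).cond (xc D (Um v (t + 1)) t ∅ (tb.pt t w1))).Pr V2') ≤ lw2 := by
    rw [hmass V2 V2' eV2, ← hp2, one_div, Real.log_inv]
    have := Real.log_le_log (Real.exp_pos _) lo2
    rw [Real.log_exp] at this
    linarith
  -- the relation
  have hRn := AE_Rn (s := s) (b := b) (c := c) (d := d) hn hN1 R ht h5 HA (p1 := tb.pt t w1) hVw.1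
  have key := node2 (Pool.Agent.GMH.TP.TriB.Bk_run hn hN1 R bc bd cd t) I I2 hRn hM0 (TyC_card h v t X0 (tb.pt t w0)) hLV hLV2
  have nV : (D.P h t).Pr V' ≠ 0 := I.ne
  have nV2 : (D.P h t).Pr V2' ≠ 0 := I2.ne
  have q1 : ((D.P h t).cond V').Pr (AE tb v t s2 s w0 A) = (tb.Ps.cond VO).Pr fun u => AE tb v t s2 s w0 A (tb.pt t u) := by
    have e1 := pul_cond H0 nV
    rw [← eV] at e1
    exact (e1.Pr _).symm
  have q2 : ((D.P h t).cond V2').Pr (AE tb v t s2 s w0 A) = (tb.Ps.cond V2).Pr fun u => AE tb v t s2 s w0 A (tb.pt t u) := by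
    have e1 := pul_cond H0 nV2
    rw [← eV2] at e1
    exact (e1.Pr _).symm
  have nVO : tb.Ps.Pr VO ≠ 0 := (FP.Pr_pos_of (S := VO) hw1 hVw).ne'
  have nV2O : tb.Ps.Pr V2 ≠ 0 := (FP.Pr_pos_of (S := V2) hw1 hV2w).ne'
  have g1 : y / 8 ≤ (tb.Ps.cond VO).Pr fun u => AE tb v t s2 s w0 A (tb.pt t u) := by
    rw [FP.cond_Pr nVO, le_div_iff₀ (lt_of_le_of_ne (tb.Ps.Pr_nonneg _) (Ne.symm nVO))]
    have e1 : y / 8 * tb.Ps.Pr VO ≤ tb.Ps.E (fun u => ind (VO u) * ind (A1 u)) := by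
      rw [← tb.Ps.E_mul_ce (fVO.comp fun q => ind q)]
      unfold FP.Pr
      rw [← FP.E_smul]
      refine tb.Ps.E_mono fun u _ => ?_
      by_cases hu : VO u
      · rw [ind_of hu, one_mul, mul_one]
        exact hu.2.2
      · rw [ind_not hu, zero_mul, mul_zero]
    refine e1.trans (tb.Ps.E_mono fun u hu => ?_)
    rw [← ind_and]
    exact ind_mono fun hh => ⟨hh.1, AE_of hss hu hh.2.2 hh.2.1⟩
  have g2 : ((tb.Ps.cond V2).Pr fun u => AE tb v t s2 s w0 A (tb.pt t u)) ≤ tb.Ps.ce (NPo tb v s2) (fun u => ind (A u)) w0 := by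
    rw [FP.cond_Pr nV2O]
    unfold FP.ce
    have e1 : tb.Ps.Pr (fun u => V2 u ∧ AE tb v t s2 s w0 A (tb.pt t u)) ≤
        tb.Ps.E (fun u => ind (NPo tb v s2 u = NPo tb v s2 w0) * ind (A u)) := by
      refine tb.Ps.E_mono fun u hu => ?_
      rw [← ind_and]
      refine ind_mono fun hh => ?_
      obtain ⟨a1, a2⟩ := AE_to hv hss HA hu hh.1.2 hh.2
      exact ⟨a2, a1⟩
    have e2 : tb.Ps.m (NPo tb v s2) w0 ≤ tb.Ps.Pr V2 := tb.Ps.E_mono fun u _ => ind_mono fun hh =>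
      ⟨NPo_mono tb h5 hh, ((NPs_iff tb hv).1 hh).2⟩
    exact div_le_div₀ (tb.Ps.E_nonneg fun u _ => mul_nonneg (ind_nonneg _) (ind_nonneg _)) e1 (tb.Ps.m_pos _ hw0) e2
  rw [q1, q2] at key
  linarith

/-- **RARITY FOR THE WHOLE LAW**, inside an event `C` of the class of `s` -/
theorem node_tot {n N1 : ℝ} (hn : 1 ≤ n) (hN1 : 1 ≤ N1) (R : Run h (pr3 (Fin 3) n N1) (SS1 (Fin 3)) (AdmDep D) v)
    {dg : ℕ → X → ℝ} {Lam : ℝ} (H : D.Hyp dg prr al T Lam) {t s2 s : ℕ} (ht : t ≤ T) (hst : TP.nn s = t ∨ (TP.nn s = t + 1 ∧ t < T))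
    (h5 : 5 * t ≤ s2) (hss : s2 ≤ s) {X0 L1 lw lw2 y : ℝ} {b c d : Fin 3} (bc : b ≠ c) (bd : b ≠ d) (cd : c ≠ d)
    {A C : Om W X β → Prop} (hC : Fac (NPo tb v s) C)
    (hG : ∀ w, tb.Ps.p w ≠ 0 → C w → RnO tb h v t s2 X0 w A ∧
      Real.exp (-lw) * tb.Ps.m (NPo tb v (5 * t)) w ≤ tb.Ps.m (NPo tb v s) w ∧
      Real.exp (-lw2) * tb.Ps.m (NPo tb v (5 * t)) w ≤ tb.Ps.m (NPo tb v s2) w ∧
      3 / 2 * ep (pr3 (Fin 3) n N1) al (3 * Real.exp X0) b c d (L1 + lw) +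
        3 * ep (pr3 (Fin 3) n N1) al (3 * Real.exp X0) b c d lw2 + 2 * tb.Ps.ce (NPo tb v s2) (fun u => ind (A u)) w < y / 8) :
    tb.Ps.Pr (fun w => C w ∧ y ≤ tb.Ps.ce (sgt D ∅ (TP.nn s)) (fun u => ind (A u)) w) ≤ Real.exp (-L1) * tb.Ps.Pr C := by
  classical
  have e1 : tb.Ps.Pr (fun w => C w ∧ y ≤ tb.Ps.ce (sgt D ∅ (TP.nn s)) (fun u => ind (A u)) w) =
      tb.Ps.E (fun w => ind (C w) * tb.Ps.ce (NPo tb v s)
        (fun w => ind (y ≤ tb.Ps.ce (sgt D ∅ (TP.nn s)) (fun u => ind (A u)) w)) w) := by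
    rw [tb.Ps.E_mul_ce (hC.comp fun q => ind q)]
    exact tb.Ps.E_congr fun w _ => ind_and _ _
  rw [e1]
  show _ ≤ Real.exp (-L1) * tb.Ps.E (fun w => ind (C w))
  rw [← tb.Ps.E_smul]
  refine tb.Ps.E_mono fun w hw => ?_
  by_cases hCw : C w
  · rw [ind_of hCw, one_mul, mul_one]
    obtain ⟨g1, g2, g3, g4⟩ := hG w hw hCw
    exact node_cls hn hN1 R H ht hst h5 hss hw g1 bc bd cd g2 g3 g4
  · rw [ind_not hCw, zero_mul, mul_zero]

end om

/-! ### the number -/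

section num

theorem ep_run {n N1 al Lam X0 L : ℝ} (hn : 1 ≤ n) (hN1 : 1 ≤ N1) (hX0 : 0 ≤ X0) (hL : 0 ≤ L)
    (hal : Real.log (1 / al) ≤ Lam) (hLam : 0 ≤ Lam) (b c d : Fin 3) :
    ep (pr3 (Fin 3) n N1) al (3 * Real.exp X0) b c d L ≤ 12 * (L + 2 * X0 + 5) / N1 + 12 * Lam / n := by
  have hn0 : 0 < n := by linarith
  have hN0 : 0 < N1 := by linarith
  have hc : ∀ e : Fin 3, (univ.erase e : Finset (Fin 3)).card = 2 := by decide
  have p2 : ∀ e : Fin 3, pr3 (Fin 3) n N1 (univ.erase e) = n * N1 := fun e => by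
    unfold pr3
    rw [if_neg (by rw [hc e]; norm_num), if_neg (by rw [hc e]; norm_num)]
  have hM : Real.log (3 * Real.exp X0 + 1) ≤ X0 + 2 := by
    have h1 : 1 ≤ Real.exp X0 := Real.one_le_exp hX0
    have h2 : 3 * Real.exp X0 + 1 ≤ Real.exp 2 * Real.exp X0 := by
      have h3 : (4 : ℝ) ≤ Real.exp 2 := by
        have h4 := Real.exp_one_gt_d9
        have h5 : Real.exp 2 = Real.exp 1 * Real.exp 1 := by rw [← Real.exp_add]; norm_num
        rw [h5]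
        nlinarith
      nlinarith
    have h3 := Real.log_le_log (by positivity) h2
    rw [← Real.exp_add, Real.log_exp] at h3
    linarith
  have hkf : ∀ b' c' d' : Fin 3, kf (pr3 (Fin 3) n N1) al (3 * Real.exp X0) b' c' d' L ≤
      2 * (L + 2 * X0 + 5) / N1 + 4 * Lam / n := by
    intro b' c' d'
    unfold kf
    rw [V3.VT.prN0, V3.VT.prN1, V3.VT.prN1, p2]
    have e1 : 2 * (L + 2 * X0 + 5) / N1 + 4 * Lam / n = (2 * (L + 2 * X0 + 5) * n + 4 * Lam * N1) / (n * N1) := by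
      field_simp
    rw [e1]
    refine div_le_div_of_nonneg_right ?_ (mul_pos hn0 hN0).le
    have h1 : 2 * (L + Real.log (3 * Real.exp X0 + 1) + 1) ≤ 2 * (L + 2 * X0 + 5) := by linarith
    have h2 : 2 * (L + 2 * X0 + 5) ≤ 2 * (L + 2 * X0 + 5) * n := le_mul_of_one_le_right (by linarith) hn
    have h3 : (N1 + N1) * Real.log (1 / al) ≤ (N1 + N1) * Lam := mul_le_mul_of_nonneg_left hal (by linarith)
    linarith
  have hkl : ∀ j : Fin 3, klt (pr3 (Fin 3) n N1) (3 * Real.exp X0) j L ≤ 2 * (L + 2 * X0 + 5) / N1 := by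
    intro j
    unfold klt
    rw [V3.VT.prN0, V3.VT.prN1]
    refine div_le_div_of_nonneg_right ?_ hN0.le
    linarith
  unfold ep
  have h1 := hkf d c b
  have h2 := hkf c b d
  have h3 := hkf b c d
  have h4 := hkl d
  have h5 := hkl c
  have h6 := hkl b
  have e1 : 12 * (L + 2 * X0 + 5) / N1 + 12 * Lam / n = 6 * (2 * (L + 2 * X0 + 5) / N1) + 3 * (4 * Lam / n) := by ring
  rw [e1]
  linarith

/-- the prices of `node_cls` -/
theorem ep_two {n N1 al Lam X0 L1 lw lw2 : ℝ} (hn : 1 ≤ n) (hN1 : 1 ≤ N1) (hX0 : 0 ≤ X0) (hL1 : 0 ≤ L1) (hlw : 0 ≤ lw)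
    (hlw2 : 0 ≤ lw2) (hal : Real.log (1 / al) ≤ Lam) (hLam : 0 ≤ Lam) (b c d : Fin 3) :
    3 / 2 * ep (pr3 (Fin 3) n N1) al (3 * Real.exp X0) b c d (L1 + lw) +
      3 * ep (pr3 (Fin 3) n N1) al (3 * Real.exp X0) b c d lw2 ≤ 54 * (L1 + lw + lw2 + 2 * X0 + 5) / N1 + 54 * Lam / n := by
  have h1 := ep_run (X0 := X0) (L := L1 + lw) hn hN1 hX0 (by linarith) hal hLam b c d
  have h2 := ep_run (X0 := X0) (L := lw2) hn hN1 hX0 hlw2 hal hLam b c d
  have hn0 : 0 < n := by linarith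
  have hN0 : 0 < N1 := by linarith
  have e1 : 12 * (L1 + lw + 2 * X0 + 5) / N1 = 12 / N1 * (L1 + lw + 2 * X0 + 5) := by ring
  have e2 : 12 * (lw2 + 2 * X0 + 5) / N1 = 12 / N1 * (lw2 + 2 * X0 + 5) := by ring
  have e3 : 54 * (L1 + lw + lw2 + 2 * X0 + 5) / N1 = 12 / N1 * (9 / 2 * (L1 + lw + lw2 + 2 * X0 + 5)) := by ring
  have e4 : 54 * Lam / n = 9 / 2 * (12 * Lam / n) := by ring
  rw [e1] at h1
  rw [e2] at h2
  rw [e3, e4]
  have p1 : 0 ≤ 12 / N1 := by positivity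
  have h3 : 12 / N1 * (3 / 2 * (L1 + lw + 2 * X0 + 5) + 3 * (lw2 + 2 * X0 + 5)) ≤
      12 / N1 * (9 / 2 * (L1 + lw + lw2 + 2 * X0 + 5)) := mul_le_mul_of_nonneg_left (by linarith) p1
  linarith

end num

end Pool.Agent.GMH.RarN
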