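import Pool.Agent.GMH.RarN5

/-!
# GMH/RarN6 (helper88): THE RELATIONS OF THE STARTS AT THE NODE, PER STEP (row C5, node)

* `ncp` : the private letters do not change at the states `5t .. 5t+4` (joint private step);
* a relation of a start: `B (eT (τ w) w) w`, `B e` seen at `e` and inside `Alv p e` (kinds of the tables of `e`);
* **`step_B`** : the level of `q` heavy (or `q % 5 ≤ 1`): relation of `τ ≤ q` cut by `Alv p q`, sight and event at `s`,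
  `q ≤ s ≤ 5 (q/5) + 5`, class mass at `q`;
* **`step_L`** : light level, `τ` inside the level: tables of `5 (t+1)`, class mass at `5 (t+1)`.
-/

set_option autoImplicit false
set_option linter.unusedSectionVars false

namespace Pool.Agent.GMH.RarN

open Finset Pool.Agent.PWZ Pool.Agent.M3 Pool.Agent.GM Pool.Agent.GM.Harm Pool.Agent.GMH
open Pool.Agent.GMH.Dy Pool.Agent.GMH.MVI Pool.Agent.GMH.MVIp Pool.Agent.GMH.KF

section om

variable {X β γ φ : Type} [Fintype X] [Fintype β] [Fintype φ] [Nonempty X] [Nonempty β]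
variable {D : HD (Fin 3) X β γ φ} {al : ℝ} {h : D.Thick al} {prr : ℕ → Fin 3 → φ → φ} {T : ℕ} {W : Type} [Fintype W]
variable {tb : Tab D prr T W} {v : ℕ → Finset (Fin 3) → X → (Fin 3 → β) → Pt (Fin 3) X β φ}

/-- the private letters at the states of a level -/
theorem ncp {q : ℕ} (e : Fin 3) : TP.nc q {e} = q / 5 + 1 := by
  unfold TP.nc TP.ncj
  have h4 : TP.rk {e} = 4 := by
    revert e
    decide
  rw [h4, if_neg (by omega), add_zero]

/-- the relation of a random start -/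
def At' (tb : Tab D prr T W) (v : ℕ → Finset (Fin 3) → X → (Fin 3 → β) → Pt (Fin 3) X β φ) (τ : Om W X β → ℕ)
    (B : ℕ → Om W X β → Prop) (w : Om W X β) : Prop := B (eT v tb (τ w) w) w

theorem Sn_cut {q : ℕ} {τ : Om W X β → ℕ}
    (hτ : ∀ u w, tb.Ps.p u ≠ 0 → tb.Ps.p w ≠ 0 → Es tb v q u w → τ u = τ w) (hle : ∀ w, τ w ≤ q) {B : ℕ → Om W X β → Prop}
    (hB : ∀ e ≤ q, Sn tb v q (B e)) : Sn tb v q (fun w => eT v tb (τ w) w ≤ q ∧ At' tb v τ B w) := by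
  intro u w hu hw he hh
  have h0 := hτ u w hu hw he
  have h1 : eT v tb (τ u) u = eT v tb (τ u) w := eT_fac (τ u) u w (NPo_mono tb (hle u) he.1)
  obtain ⟨h2, h3⟩ := hh
  have h4 := hB _ h2 u w hu hw he h3
  rw [h1, h0] at h2 h4
  exact ⟨h2, h4⟩

theorem hz_fac {t q : ℕ} (hq : 5 * t + 2 ≤ q) {u w : Om W X β} (e : NPo tb v q u = NPo tb v q w) : hz tb v t u ↔ hz tb v t w := by
  have a1 : NPo tb v (5 * t + 1) u = NPo tb v (5 * t + 1) w := NPo_mono tb (by omega) e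
  have a2 : NPo tb v (5 * t + 2) u = NPo tb v (5 * t + 2) w := NPo_mono tb hq e
  unfold hz FP.m
  rw [a1, a2]

/-- densities of relations which agree in a class -/
theorem ce_cls_congr (hv : Codes D v) {q s : ℕ} (hqs : q ≤ s) {A A' : Om W X β → Prop} {w : Om W X β}
    (hAA : ∀ u, tb.Ps.p u ≠ 0 → NPo tb v q u = NPo tb v q w → (A u ↔ A' u)) :
    tb.Ps.ce (sgt D ∅ (TP.nn s)) (fun u => ind (A u)) w = tb.Ps.ce (sgt D ∅ (TP.nn s)) (fun u => ind (A' u)) w :=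
  GamR.ce_sup tb.Ps fun u hu he => by
    have h1 : NPo tb v s u = NPo tb v s w := NPq_sgt tb hv le_rfl (TP.nc_le s ∅) ∅ 0 u w he
    rw [propext (hAA u hu (NPo_mono tb hqs h1))]

/-- **PER STEP, heavy level** -/
theorem step_B {n N1 : ℝ} (hn : 1 ≤ n) (hN1 : 1 ≤ N1) (R : Run h (pr3 (Fin 3) n N1) (SS1 (Fin 3)) (AdmDep D) v)
    {dg : ℕ → X → ℝ} {Lam : ℝ} (H : D.Hyp dg prr al T Lam) {q s : ℕ} (hsT : s = 5 * (q / 5) ∧ q / 5 ≤ T ∨ q / 5 < T)
    (hqs : q ≤ s) (hs : s ≤ 5 * (q / 5) + 5) {p : V3.AP} (hX0 : 0 ≤ p.X0)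
    {lam L1 eta y : ℝ} (hlam : 0 ≤ lam) (hL1 : 0 ≤ L1) {τ : Om W X β → ℕ}
    (hτ : ∀ u w, tb.Ps.p u ≠ 0 → tb.Ps.p w ≠ 0 → Es tb v q u w → τ u = τ w) (hle : ∀ w, τ w ≤ q)
    {B : ℕ → Om W X β → Prop} (hB : ∀ e ≤ q, Sn tb v q (B e)) {C : Om W X β → Prop} (hC : Fac (NPo tb v s) C)
    (hdg : ∀ w, tb.Ps.p w ≠ 0 → C w → 5 * (q / 5) < s → GamR.hvy tb v dg lam (q / 5) w)
    (hhz : ∀ w, tb.Ps.p w ≠ 0 → C w → 5 * (q / 5) + 1 < s → hz tb v (q / 5) w)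
    (hm : ∀ w, tb.Ps.p w ≠ 0 → C w →
      tb.Ps.ce (NPo tb v q) (fun u => ind (At' tb v τ B u ∧ Alv h v tb p q u)) w ≤ eta)
    (hy : 54 * (L1 + 2 * (lam + 4) + 2 * p.X0 + 5) / N1 + 54 * Lam / n + 2 * eta < y / 8) :
    tb.Ps.Pr (fun w => C w ∧ y ≤ tb.Ps.ce (sgt D ∅ (TP.nn s)) (fun u => ind (At' tb v τ B u ∧ Alv h v tb p q u)) w) ≤
      Real.exp (-L1) * tb.Ps.Pr C := by
  classical
  have hv := R.codes
  have hqT : q ≤ 5 * T + 4 := by omega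
  set A' : Om W X β → Prop := fun u => (eT v tb (τ u) u ≤ q ∧ At' tb v τ B u) ∧ Alv h v tb p q u with hA'
  have hAA : ∀ w, tb.Ps.p w ≠ 0 → C w → ∀ u, tb.Ps.p u ≠ 0 → NPo tb v q u = NPo tb v q w →
      ((At' tb v τ B u ∧ Alv h v tb p q u) ↔ A' u) := by
    intro w hw hCw u hu he
    have h1 : eT v tb (τ u) u ≤ q := eT_le (hle u) fun h2 => by
      have h3 := hhz w hw hCw (by omega)
      exact (hz_fac (by omega) he).2 h3
    exact ⟨fun hh => ⟨⟨h1, hh.1⟩, hh.2⟩, fun hh => ⟨hh.1.2, hh.2⟩⟩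
  have h1 := step_H (h := h) (tb := tb) hn hN1 R H (t := q / 5) (q := q) (s := s) hsT (by omega) (by omega) hqs hs (fun e => ncp e) hX0
    hlam hL1 (A := A') ((Sn_cut hτ hle hB).and (Sn_Alv p hqT)) (fun w hw => hw.2) hC hdg hhz (eta := eta) (fun w hw hCw => by
      refine le_trans (le_of_eq ?_) (hm w hw hCw)
      exact GamR.ce_sup tb.Ps fun u hu he => by rw [← propext (hAA w hw hCw u hu he)]) hy
  refine le_trans (le_of_eq ?_) h1
  refine tb.Ps.Pr_congr fun w hw => ?_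
  by_cases hCw : C w
  · rw [ce_cls_congr hv hqs (hAA w hw hCw)]
  · exact ⟨fun hh => absurd hh.1 hCw, fun hh => absurd hh.1 hCw⟩

/-- **PER STEP, light level** : the start is inside the level, the tables are those of `5 (t + 1)` -/
theorem step_L {n N1 : ℝ} (hn : 1 ≤ n) (hN1 : 1 ≤ N1) (R : Run h (pr3 (Fin 3) n N1) (SS1 (Fin 3)) (AdmDep D) v)
    {dg : ℕ → X → ℝ} {Lam : ℝ} (H : D.Hyp dg prr al T Lam) {t : ℕ} (ht : t < T) {p : V3.AP} (hX0 : 0 ≤ p.X0)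
    {lam L1 eta y : ℝ} (hlam : 0 ≤ lam) (hL1 : 0 ≤ L1) {τ : Om W X β → ℕ} {B : ℕ → Om W X β → Prop}
    (hB : Sn tb v (5 * (t + 1)) (B (5 * (t + 1)))) (hBal : ∀ w, B (5 * (t + 1)) w → Alv h v tb p (5 * (t + 1)) w)
    {C : Om W X β → Prop} (hC : Fac (NPo tb v (5 * t + 2)) C)
    (hlt : ∀ w, tb.Ps.p w ≠ 0 → C w → ∀ u, tb.Ps.p u ≠ 0 → NPo tb v (5 * t + 2) u = NPo tb v (5 * t + 2) w →
      eT v tb (τ u) u = 5 * (t + 1))
    (hm : ∀ w, tb.Ps.p w ≠ 0 → C w →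
      tb.Ps.ce (NPo tb v (5 * t + 2)) (fun u => ind (At' tb v τ B u)) w ≤ eta)
    (hy : 54 * (L1 + 2 * (lam + 4) + 2 * p.X0 + 5) / N1 + 54 * Lam / n + 2 * eta < y / 8) {s : ℕ} (hs1 : 5 * t + 1 ≤ s)
    (hs2 : s ≤ 5 * t + 5) :
    tb.Ps.Pr (fun w => C w ∧ y ≤ tb.Ps.ce (sgt D ∅ (TP.nn s)) (fun u => ind (At' tb v τ B u)) w) ≤
      Real.exp (-L1) * tb.Ps.Pr C := by
  classical
  have hv := R.codes
  have eN : NPo tb v (5 * (t + 1)) = NPo tb v (5 * t + 2) := by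
    rw [show 5 * (t + 1) = 5 * t + 5 by ring]
    exact NPo_2 (by norm_num) le_rfl
  have en : TP.nn s = TP.nn (5 * (t + 1)) := by
    obtain ⟨j, hj⟩ := Nat.exists_eq_add_of_le (show 5 * t ≤ s by omega)
    rw [hj, TP.nn_j t (by omega) (by omega), GamR.nn5]
  have hAA : ∀ w, tb.Ps.p w ≠ 0 → C w → ∀ u, tb.Ps.p u ≠ 0 → NPo tb v (5 * (t + 1)) u = NPo tb v (5 * (t + 1)) w →
      (At' tb v τ B u ↔ B (5 * (t + 1)) u) := by
    intro w hw hCw u hu he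
    rw [eN] at he
    unfold At'
    rw [hlt w hw hCw u hu he]
  have h1 := step_H (h := h) (tb := tb) hn hN1 R H (t := t + 1) (q := 5 * (t + 1)) (s := 5 * (t + 1)) (Or.inl ⟨rfl, ht⟩) le_rfl
    (by omega) le_rfl (by omega) (fun e => by rw [ncp e]; omega) hX0
    hlam hL1 (A := B (5 * (t + 1))) hB hBal (C := C) (by rw [eN]; exact hC) (fun w _ _ h2 => absurd h2 (lt_irrefl _))
    (fun w _ _ h2 => absurd h2 (by omega)) (eta := eta) (fun w hw hCw => by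
      refine le_trans (le_of_eq ?_) (hm w hw hCw)
      rw [← eN]
      exact GamR.ce_sup tb.Ps fun u hu he => by rw [propext (hAA w hw hCw u hu he)]) hy
  refine le_trans (le_of_eq ?_) h1
  refine tb.Ps.Pr_congr fun w hw => ?_
  rw [en]
  by_cases hCw : C w
  · rw [ce_cls_congr hv le_rfl (hAA w hw hCw)]
  · exact ⟨fun hh => absurd hh.1 hCw, fun hh => absurd hh.1 hCw⟩

end om

end Pool.Agent.GMH.RarN
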