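import Pool.Agent.GMH.CK1

/-!
# GMH/RelD (helper28): SMALL PARTS OF THE LOST LIVES (row A6)

* `dead_once` : the lives which are alive at the start and dead at the end: at most one per point;
* `ev_dev` : an event `G` at a bit `B` from the deviation from the conditional mean and the conditional mass;
* `ev_split` : an event inside a union of four events.
-/

set_option autoImplicit false

namespace Pool.Agent.GMH.RelD

open Finset Pool.Agent.PWZ Pool.Agent.M3 Pool.Agent.GMH Pool.Agent.GMH.CK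

variable {Om : Type*} [Fintype Om] {P : FP Om} {C : ℕ → ℕ → Om → Prop}

/-- alive is decreasing -/
theorem al_mono {Al : ℕ → Om → Prop} {w : Om} (h : ∀ q, Al (q + 1) w → Al q w) {q q' : ℕ} (hq : q ≤ q') (h' : Al q' w) :
    Al q w := by
  induction q', hq using Nat.le_induction with
  | base => exact h'
  | succ k _ ih => exact ih (h k h')

/-- **THE LIVES WHICH ARE ALIVE AT THE START AND DEAD AT THE END** : at most one per point -/
theorem dead_once {Al : ℕ → Om → Prop} (hAl : ∀ w, P.p w ≠ 0 → ∀ q, Al (q + 1) w → Al q w) {e : ℕ → Om → ℕ}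
    (he : ∀ w, P.p w ≠ 0 → ∀ q, stg C q w ≤ e q w) (T : ℕ) :
    ∑ q ∈ range T, P.Pr (fun w => stg C (q + 1) w = q + 1 ∧ Al (e q w) w ∧ ¬ Al q w) ≤ P.Pr (fun w => ¬ Al T w) := by
  classical
  unfold FP.Pr
  rw [← P.E_sum]
  refine P.E_mono fun w hw => ?_
  have hm := fun {q q' : ℕ} (hq : q ≤ q') (h' : Al q' w) => al_mono (hAl w hw) hq h'
  by_cases hT : Al T w
  · refine le_trans (le_of_eq (Finset.sum_eq_zero fun q hq => ?_)) (ind_nonneg _)
    exact ind_not fun hh => hh.2.2 (hm (Finset.mem_range.1 hq).le hT)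
  · rw [ind_of hT]
    by_contra hcon
    have h1 : 1 < ∑ q ∈ range T, ind (stg C (q + 1) w = q + 1 ∧ Al (e q w) w ∧ ¬ Al q w) := not_le.1 hcon
    have h2 : ∀ q ∈ range T, ∀ q' ∈ range T, q < q' → (stg C (q + 1) w = q + 1 ∧ Al (e q w) w ∧ ¬ Al q w) →
        (stg C (q' + 1) w = q' + 1 ∧ Al (e q' w) w ∧ ¬ Al q' w) → False := by
      intro q _ q' _ hqq hq hq'
      have h3 : stg C (q + 1) w ≤ stg C q' w := stg_mono hqq w
      rw [hq.1] at h3
      exact hq.2.2 (hm ((Nat.le_succ q).trans (h3.trans (he w hw q'))) hq'.2.1)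
    have h3 : ∑ q ∈ range T, ind (stg C (q + 1) w = q + 1 ∧ Al (e q w) w ∧ ¬ Al q w) ≤ 1 := by
      by_cases hex : ∃ q ∈ range T, (stg C (q + 1) w = q + 1 ∧ Al (e q w) w ∧ ¬ Al q w)
      · obtain ⟨q, hq, h4⟩ := hex
        rw [← Finset.add_sum_erase _ _ hq, Finset.sum_eq_zero, add_zero]
        · exact ind_le_one _
        · intro q' hq'
          refine ind_not fun h5 => ?_
          have h6 := Finset.mem_erase.1 hq'
          rcases lt_or_gt_of_ne h6.1 with h7 | h7
          · exact h2 q' h6.2 q hq h7 h5 h4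
          · exact h2 q hq q' h6.2 h7 h4 h5
      · rw [Finset.sum_eq_zero]
        · exact zero_le_one
        · intro q hq
          exact ind_not fun h5 => hex ⟨q, hq, h5⟩
    linarith

/-- **an event at a bit** : conditional mass `y` on the bit, deviation `dv` -/
theorem ev_dev {κ : Type*} {V : Om → κ} {B G : Om → Prop} {y dv : ℝ}
    (hd : |P.E (fun w => ind (B w) * (ind (G w) - P.ce V (fun u => ind (G u)) w))| ≤ dv)
    (hy : ∀ w, P.p w ≠ 0 → B w → P.ce V (fun u => ind (G u)) w ≤ y) :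
    P.Pr (fun w => B w ∧ G w) ≤ y * P.Pr B + dv := by
  have h1 : P.Pr (fun w => B w ∧ G w) = P.E (fun w => ind (B w) * (ind (G w) - P.ce V (fun u => ind (G u)) w)) +
      P.E (fun w => ind (B w) * P.ce V (fun u => ind (G u)) w) := by
    rw [← P.E_add]
    refine P.E_congr fun w _ => ?_
    rw [ind_and]
    ring
  have h2 : P.E (fun w => ind (B w) * P.ce V (fun u => ind (G u)) w) ≤ y * P.Pr B := by
    unfold FP.Pr
    rw [← P.E_smul]
    refine P.E_mono fun w hw => ?_
    by_cases hB : B w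
    · rw [ind_of hB, one_mul, mul_one]
      exact hy w hw hB
    · rw [ind_not hB, zero_mul, mul_zero]
  have h3 := (le_abs_self _).trans hd
  linarith

/-- an event inside a union of four events -/
theorem ev_split {E A B C' D : Om → Prop} (h : ∀ w, P.p w ≠ 0 → E w → A w ∨ B w ∨ C' w ∨ D w) :
    P.Pr E ≤ P.Pr A + P.Pr B + P.Pr C' + P.Pr D := by
  unfold FP.Pr
  rw [← P.E_add, ← P.E_add, ← P.E_add]
  refine P.E_mono fun w hw => ?_
  have n1 := ind_nonneg (A w)
  have n2 := ind_nonneg (B w)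
  have n3 := ind_nonneg (C' w)
  have n4 := ind_nonneg (D w)
  by_cases hE : E w
  · rw [ind_of hE]
    rcases h w hw hE with h1 | h1 | h1 | h1 <;> rw [ind_of h1] <;> linarith
  · rw [ind_not hE]
    linarith

end Pool.Agent.GMH.RelD
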