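import Pool.Agent.GMH.RarN9
import Pool.Agent.GMH.ClsC
import Pool.Agent.GMH.ExitV
import Pool.Agent.GMH.RelD

/-!
# GMH/RarNC (helper88): THE NODE SUMS OVER `Ctx` (row C5, node)

* `Sn_ck`, `Sn_cv` : the cores are seen at their state;
* `nodeM_end`, `nodeM_st` : any relation `A q` which is (alive at `q`) inside `SR fr p c κ o` of the start `tauO o' q`: sums of
  `P (C q, y < P (A q | S ∅ ..))`, alive and dead part;
* over `Ctx` (class masses of `GMH/ClsC`): **`af0_ctx`** : new public starts which are not removals, sight `q + 1`; **`st_ctx`** :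
  any public starts, sight `q`, relation of the new tables (`RD0`, `SF`); **`fin_ctx`** : the last time.
-/

set_option autoImplicit false
set_option linter.unusedSectionVars false

namespace Pool.Agent.GMH.RarN

open Finset Pool.Agent.PWZ Pool.Agent.M3 Pool.Agent.GM Pool.Agent.GM.Harm Pool.Agent.GMH
open Pool.Agent.GMH.Dy Pool.Agent.GMH.MVI Pool.Agent.GMH.MVIp Pool.Agent.GMH.KF
open Pool.Agent.GMH.UV (US Kd tv Rn)
open Pool.Agent.GMH.TRF (ruO)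
open Pool.Agent.GMH.ExK

section om

variable {X β γ φ : Type} [Fintype X] [Fintype β] [Fintype φ] [Nonempty X] [Nonempty β]
variable {D : HD (Fin 3) X β γ φ} {al : ℝ} {h : D.Thick al} {prr : ℕ → Fin 3 → φ → φ} {T : ℕ} {W : Type} [Fintype W]
variable {tb : Tab D prr T W} {v : ℕ → Finset (Fin 3) → X → (Fin 3 → β) → Pt (Fin 3) X β φ}

section kinds

variable {n N1 : ℝ} (hn : 1 ≤ n) (hN1 : 1 ≤ N1) (R : Run h (pr3 (Fin 3) n N1) (SS1 (Fin 3)) (AdmDep D) v)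
  {dg : ℕ → X → ℝ} {Lam : ℝ} (H : D.Hyp dg prr al T Lam)

include hn hN1 R H

theorem Sn_ck (fr : Option (Fin 3)) (c : KC) (k : ℕ) {q : ℕ} (hT : q ≤ 5 * T + 4) : Sn tb v q (ck h v tb fr c k q) := by
  intro u w hu hw he hh
  cases fr with
  | none =>
    have h1 : tup (TP.FQ v (q / 5)) (tb.pt (q / 5) u) = tup (TP.FQ v (q / 5)) (tb.pt (q / 5) w) :=
      funext fun i => Es_F hn hN1 R H hT hu hw he i
    have h2 : co (D.P h (q / 5)) (TP.ZQ D v q) (TP.FQ v (q / 5)) c k (tb.pt (q / 5) u)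
      (tup (TP.FQ v (q / 5)) (tb.pt (q / 5) u)) := hh
    show co (D.P h (q / 5)) (TP.ZQ D v q) (TP.FQ v (q / 5)) c k (tb.pt (q / 5) w)
      (tup (TP.FQ v (q / 5)) (tb.pt (q / 5) w))
    rw [← h1]
    exact (iff_of_eq (co_fac (D.P h (q / 5)) (F := TP.FQ v (q / 5)) c k (tup (TP.FQ v (q / 5)) (tb.pt (q / 5) u)) _ _ (Es_Z he))).1 h2
  | some i =>
    have h1 : tup (Fo (TP.FQ v (q / 5)) i) (tb.pt (q / 5) u) = tup (Fo (TP.FQ v (q / 5)) i) (tb.pt (q / 5) w) := by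
      funext j
      unfold tup Fo
      rw [Es_F hn hN1 R H hT hu hw he j]
    have h2 : co (D.P h (q / 5)) (TP.ZQ D v q) (Fo (TP.FQ v (q / 5)) i) c k (tb.pt (q / 5) u)
      (tup (Fo (TP.FQ v (q / 5)) i) (tb.pt (q / 5) u)) := hh
    show co (D.P h (q / 5)) (TP.ZQ D v q) (Fo (TP.FQ v (q / 5)) i) c k (tb.pt (q / 5) w)
      (tup (Fo (TP.FQ v (q / 5)) i) (tb.pt (q / 5) w))
    rw [← h1]
    exact (iff_of_eq (co_fac (D.P h (q / 5)) (F := Fo (TP.FQ v (q / 5)) i) c k (tup (Fo (TP.FQ v (q / 5)) i) (tb.pt (q / 5) u)) _ _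
      (Es_Z he))).1 h2

theorem Sn_cv (fr : Option (Fin 3)) (c : KC) (κ : Fin 10) (o : Option (Fin 3)) {q : ℕ} (hT : q ≤ 5 * T + 4) :
    Sn tb v q (cv h v tb fr c κ o q) := by
  intro u w hu hw he hh
  unfold cv at hh ⊢
  split_ifs at hh ⊢ with h1
  · obtain ⟨j, h2, h3⟩ := hh
    exact ⟨j, h2, Sn_ck hn hN1 R H fr c (j.1 + 2) hT u w hu hw he h3⟩
  · exact Sn_ck hn hN1 R H fr c κ.1 hT u w hu hw he hh

end kinds

/-- core, alive, tables of the state `e` -/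
def Bv (h : D.Thick al) (v : ℕ → Finset (Fin 3) → X → (Fin 3 → β) → Pt (Fin 3) X β φ) (tb : Tab D prr T W) (p : V3.AP)
    (fr : Option (Fin 3)) (c : KC) (κ : Fin 10) (o : Option (Fin 3)) (e : ℕ) (w : Om W X β) : Prop :=
  cv h v tb fr c κ o e w ∧ Alv h v tb p e w

section clk

variable (tb)
variable (hv : Codes D v) {d1 kb d0 k0 p1 z : ℝ} (hd1 : 0 < d1) (hd11 : d1 ≤ 1) (hkb : 0 < kb) (hd0 : 0 < d0)
  (hd01 : d0 ≤ 1) (hk0 : 0 < k0) (hp1 : 0 < p1) (hz0 : 0 < z)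
variable {n N1 : ℝ} (hn : 1 ≤ n) (hN1 : 1 ≤ N1) (R : Run h (pr3 (Fin 3) n N1) (SS1 (Fin 3)) (AdmDep D) v)
  {dg : ℕ → X → ℝ} {Lam : ℝ} (H : D.Hyp dg prr al T Lam)

include hn hN1 R H

/-- **A SUBRELATION, SIGHT AFTER THE STEP** -/
theorem nodeM_end {p : V3.AP} (hX0 : 0 ≤ p.X0) {lam L1 eta y : ℝ} (hlam : 2 ≤ lam) (hL1 : 0 ≤ L1) (o' : Option (Fin 3))
    (hy0 : 0 < y) (fr : Option (Fin 3)) (c : KC) (κ : Fin 10) (o : Option (Fin 3)) {A C : ℕ → Om W X β → Prop}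
    (hA : ∀ q < 5 * T, ∀ w, tb.Ps.p w ≠ 0 → A q w → Alv h v tb p q w → SR h v tb fr p c κ o
      (tauO (USi tb hv d1 kb d0 k0 p1 z hd1 hd11 hkb hd0 hd01 hk0 hp1 hz0) o' q w) w)
    (hC : ∀ q < 5 * T, Fac (NPo tb v (q + 1)) (C q))
    (hCl : ∀ q < 5 * T, q % 5 = 1 → ∀ w, tb.Ps.p w ≠ 0 → C q w → hz tb v (q / 5) w)
    (hm : ∀ q < 5 * T, ∀ w, tb.Ps.p w ≠ 0 → C q w → okq tb v lam q w → tb.Ps.ce (NPo tb v q) (fun u => ind (SR h v tb fr p c κ o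
      (tauO (USi tb hv d1 kb d0 k0 p1 z hd1 hd11 hkb hd0 hd01 hk0 hp1 hz0) o' q u) u ∧ Alv h v tb p q u)) w ≤ eta)
    (hy : 54 * (L1 + 2 * (lam + 4) + 2 * p.X0 + 5) / N1 + 54 * Lam / n + 2 * eta < y / 2 / 8) :
    ∑ q ∈ range (5 * T), tb.Ps.Pr (fun w => C q w ∧ y < tb.Ps.ce (sgt D ∅ (TP.nn (q + 1))) (fun u => ind (A q u)) w) ≤
      Real.exp (-L1) * ∑ q ∈ range (5 * T), tb.Ps.Pr (C q) + 160 * Real.exp (-lam) * (n * N1 * Lam) +
        2 / y * ∑ q ∈ range (5 * T), tb.Ps.Pr (fun w => C q w ∧ A q w ∧ ¬ Alv h v tb p q w) := by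
  have k1 := node_sum (h := h) (tb := tb) hv hd1 hd11 hkb hd0 hd01 hk0 hp1 hz0 hn hN1 R H hX0 hlam hL1 o'
    (B := Bv h v tb p fr c κ o) (fun e he => (Sn_cv hn hN1 R H fr c κ o (by omega)).and (Sn_Alv p (by omega)))
    (fun e w hb => hb.2)
    (A := fun q => At' tb v (tauO (USi tb hv d1 kb d0 k0 p1 z hd1 hd11 hkb hd0 hd01 hk0 hp1 hz0) o' q) (Bv h v tb p fr c κ o))
    (fun q _ w _ => Iff.rfl) hC hCl hm hy
  have k2 : ∀ q ∈ range (5 * T), tb.Ps.Pr (fun w => C q w ∧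
      y < tb.Ps.ce (sgt D ∅ (TP.nn (q + 1))) (fun u => ind (A q u)) w) ≤
      tb.Ps.Pr (fun w => C q w ∧ y / 2 ≤ tb.Ps.ce (sgt D ∅ (TP.nn (q + 1))) (fun u => ind (At' tb v
        (tauO (USi tb hv d1 kb d0 k0 p1 z hd1 hd11 hkb hd0 hd01 hk0 hp1 hz0) o' q) (Bv h v tb p fr c κ o) u ∧
          Alv h v tb p q u)) w) +
        2 / y * tb.Ps.Pr (fun w => C q w ∧ A q w ∧ ¬ Alv h v tb p q w) := fun q hq => by
    have hq' := mem_range.1 hq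
    have k3 := RarS.split_le (P := tb.Ps) (X := sgt D ∅ (TP.nn (q + 1))) (E := C q)
      (fun a b e => iff_of_eq (hC q hq' a b (sgt_NPo hv (q + 1) a b e))) (A q) (Alv h v tb p q) hy0
    refine k3.trans (add_le_add (tb.Ps.Pr_mono fun w _ hh => ⟨hh.1, hh.2.le.trans ?_⟩) le_rfl)
    exact tb.Ps.ce_mono (fun u hu => ind_mono fun g => ⟨hA q hq' u hu g.1 g.2, g.2⟩) w
  refine (Finset.sum_le_sum k2).trans ?_
  rw [Finset.sum_add_distrib, ← Finset.mul_sum]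
  linarith

/-- **A SUBRELATION, SIGHT AT THE STATE OF THE TABLES** -/
theorem nodeM_st {p : V3.AP} (hX0 : 0 ≤ p.X0) {lam L1 eta y : ℝ} (hlam : 2 ≤ lam) (hL1 : 0 ≤ L1) (o' : Option (Fin 3))
    (hy0 : 0 < y) (fr : Option (Fin 3)) (c : KC) (κ : Fin 10) (o : Option (Fin 3)) {A C : ℕ → Om W X β → Prop}
    (hA : ∀ q ≤ 5 * T, ∀ w, tb.Ps.p w ≠ 0 → A q w → Alv h v tb p q w → SR h v tb fr p c κ o
      (tauO (USi tb hv d1 kb d0 k0 p1 z hd1 hd11 hkb hd0 hd01 hk0 hp1 hz0) o' q w) w)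
    (hC : ∀ q ≤ 5 * T, Fac (NPo tb v q) (C q))
    (hm : ∀ q ≤ 5 * T, ∀ w, tb.Ps.p w ≠ 0 → C q w → okq tb v lam q w → tb.Ps.ce (NPo tb v q) (fun u => ind (SR h v tb fr p c κ o
      (tauO (USi tb hv d1 kb d0 k0 p1 z hd1 hd11 hkb hd0 hd01 hk0 hp1 hz0) o' q u) u ∧ Alv h v tb p q u)) w ≤ eta)
    (hy : 54 * (L1 + 2 * (lam + 4) + 2 * p.X0 + 5) / N1 + 54 * Lam / n + 2 * eta < y / 2 / 8) :
    ∑ q ∈ range (5 * T + 1), tb.Ps.Pr (fun w => C q w ∧ y < tb.Ps.ce (sgt D ∅ (TP.nn q)) (fun u => ind (A q u)) w) ≤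
      Real.exp (-L1) * ∑ q ∈ range (5 * T + 1), tb.Ps.Pr (C q) + 160 * Real.exp (-lam) * (n * N1 * Lam) +
        2 / y * ∑ q ∈ range (5 * T + 1), tb.Ps.Pr (fun w => C q w ∧ A q w ∧ ¬ Alv h v tb p q w) := by
  have k1 := node_new (h := h) (tb := tb) hv hd1 hd11 hkb hd0 hd01 hk0 hp1 hz0 hn hN1 R H hX0 hlam hL1 o'
    (B := Bv h v tb p fr c κ o) (fun e he => (Sn_cv hn hN1 R H fr c κ o (by omega)).and (Sn_Alv p (by omega)))
    (fun e w hb => hb.2)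
    (A := fun q => At' tb v (tauO (USi tb hv d1 kb d0 k0 p1 z hd1 hd11 hkb hd0 hd01 hk0 hp1 hz0) o' q) (Bv h v tb p fr c κ o))
    (fun q _ w _ => Iff.rfl) hC hm hy
  have k2 : ∀ q ∈ range (5 * T + 1), tb.Ps.Pr (fun w => C q w ∧
      y < tb.Ps.ce (sgt D ∅ (TP.nn q)) (fun u => ind (A q u)) w) ≤
      tb.Ps.Pr (fun w => C q w ∧ y / 2 ≤ tb.Ps.ce (sgt D ∅ (TP.nn q)) (fun u => ind (At' tb v
        (tauO (USi tb hv d1 kb d0 k0 p1 z hd1 hd11 hkb hd0 hd01 hk0 hp1 hz0) o' q) (Bv h v tb p fr c κ o) u ∧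
          Alv h v tb p q u)) w) +
        2 / y * tb.Ps.Pr (fun w => C q w ∧ A q w ∧ ¬ Alv h v tb p q w) := fun q hq => by
    have hq' : q ≤ 5 * T := Nat.lt_succ_iff.1 (mem_range.1 hq)
    have k3 := RarS.split_le (P := tb.Ps) (X := sgt D ∅ (TP.nn q)) (E := C q)
      (fun a b e => iff_of_eq (hC q hq' a b (sgt_NPo hv q a b e))) (A q) (Alv h v tb p q) hy0
    refine k3.trans (add_le_add (tb.Ps.Pr_mono fun w _ hh => ⟨hh.1, hh.2.le.trans ?_⟩) le_rfl)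
    exact tb.Ps.ce_mono (fun u hu => ind_mono fun g => ⟨hA q hq' u hu g.1 g.2, g.2⟩) w
  refine (Finset.sum_le_sum k2).trans ?_
  rw [Finset.sum_add_distrib, ← Finset.mul_sum]
  linarith

end clk

end om

end Pool.Agent.GMH.RarN
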