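import Pool.Agent.GMH.RarNC

/-!
# GMH/RarND (helper88): THE NODE SUMS OVER `Ctx`, class masses as hypothesis (row C5, node)

`A q` : any relation which is, alive at `q`, inside `SR fr p c κ o` of the start `tauO (C.U ka) o' q`, and alive at the public
start `nu q`.
* `Hm` : the class masses at the node, `HyN` : the inequality of the numbers;
* **`af0_ctx`** : `Σ_{q < 5 T} P (new public start after the step q, not a removal, y < P (A q | S ∅ (q + 1))) ≤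
  exp (-L1) N0 + 160 exp (-lam) n N1 Lam + 2 / (y x^(c0 + A))`;
* **`st_ctx`** : `Σ_{q ≤ 5 T} P (nu q = q, C q, y < P (A q | S ∅ q)) ≤ exp (-L1) (2 + N0) + 160 exp (-lam) n N1 Lam`;
* **`fin_ctx`** : `P (y < P (A (5 T) | S ∅ (5 T))) ≤ exp (-L1) + 2 / (y x^(c0 + A))`.
-/

set_option autoImplicit false
set_option linter.unusedSectionVars false

namespace Pool.Agent.GMH.RarN

open Finset Pool.Agent.PWZ Pool.Agent.M3 Pool.Agent.GM Pool.Agent.GM.Harm Pool.Agent.GMH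
open Pool.Agent.GMH.Dy Pool.Agent.GMH.MVI Pool.Agent.GMH.MVIp Pool.Agent.GMH.KF
open Pool.Agent.GMH.UV (US Kd tv Rn)
open Pool.Agent.GMH.TRF (ruO)
open Pool.Agent.GMH.ExK
open Pool.Agent.GMH.CX Pool.Agent.GMH.V3

section ctx

variable (C : Ctx) (ka : ℕ)

/-- the class masses at the node -/
def Hm (lam : ℝ) (o' fr : Option (Fin 3)) (c : KC) (κ : Fin 10) (o : Option (Fin 3)) (eta : ℝ) : Prop :=
  ∀ q ≤ 5 * C.T, ∀ w, C.tb.Ps.p w ≠ 0 → okq C.tb C.v lam q w →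
    C.tb.Ps.ce (NPo C.tb C.v q) (fun u => ind (SR C.h C.v C.tb fr C.p c κ o (tauO (C.U ka) o' q u) u ∧
      Alv C.h C.v C.tb C.p q u)) w ≤ eta

/-- the inequality of the numbers -/
def HyN (lam L1 eta y : ℝ) : Prop :=
  54 * (L1 + 2 * (lam + 4) + 2 * C.p.X0 + 5) / C.N1 + 54 * C.Lam / C.n + 2 * eta < y / 2 / 8

theorem pX0 : 0 ≤ C.p.X0 := by
  have : C.p.X0 = (apF C.Lam C.A C.c0).X0 := rfl
  rw [this]
  unfold apF
  exact zero_le_one.trans (pw_one C.hL _)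

/-- alive from the public start -/
theorem alv_nu {q : ℕ} {w : C.O} (h : Alv C.h C.v C.tb C.p q w) : Alv C.h C.v C.tb C.p (MV.nu (C.M ka) q w) w :=
  Alv_anti C.h C.v C.tb (MV.nu_le q w) h

variable {lam L1 eta y : ℝ} {o' fr : Option (Fin 3)} {c : KC} {κ : Fin 10} {o : Option (Fin 3)}
  {A : ℕ → C.O → Prop}

/-- **NEW PUBLIC STARTS WHICH ARE NOT REMOVALS** -/
theorem af0_ctx (hlam : 2 ≤ lam) (hL1 : 0 ≤ L1) (hy0 : 0 < y)
    (hA : ∀ q < 5 * C.T, ∀ w, C.tb.Ps.p w ≠ 0 → A q w → Alv C.h C.v C.tb C.p q w →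
      SR C.h C.v C.tb fr C.p c κ o (tauO (C.U ka) o' q w) w)
    (hAl : ∀ q < 5 * C.T, ∀ w, C.tb.Ps.p w ≠ 0 → A q w → Alv C.h C.v C.tb C.p (MV.nu (C.M ka) q w) w)
    (hm : Hm C ka lam o' fr c κ o eta) (hy : HyN C lam L1 eta y) :
    ∑ q ∈ range (5 * C.T), C.tb.Ps.Pr (fun w => (MV.nu (C.M ka) (q + 1) w = q + 1 ∧ ¬ ruO C.tb C.v q w) ∧
        y < C.tb.Ps.ce (sgt C.D ∅ (TP.nn (q + 1))) (fun u => ind (A q u)) w) ≤
      Real.exp (-L1) * MV.N0 (C.M ka) (5 * C.T) + 160 * Real.exp (-lam) * (C.n * C.N1 * C.Lam) +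
        2 / y * (pw C.Lam (C.c0 + C.A))⁻¹ := by
  have k1 := nodeM_end C.tb C.codes (C.d1_pos ka) (C.d1_le ka) (C.kb_pos ka) C.d0_pos C.d0_le C.d0_pos C.p1_pos (C.z_pos ka)
    C.n1 C.N11 C.R C.H (pX0 C) hlam hL1 o' hy0 fr c κ o (A := A)
    (C := fun q w => MV.nu (C.M ka) (q + 1) w = q + 1 ∧ ¬ ruO C.tb C.v q w) hA
    (fun q _ => afE_fac C.tb (C.d1_pos ka) (C.d1_le ka) (C.kb_pos ka) C.d0_pos C.d0_le C.d0_pos C.p1_pos (C.z_pos ka) q)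
    (fun q _ h1 w _ hc => nru_hz C.tb h1 hc.2) (fun q hq w hw _ ho => hm q hq.le w hw ho) hy
  have k2 : ∑ q ∈ range (5 * C.T), C.tb.Ps.Pr (fun w => MV.nu (C.M ka) (q + 1) w = q + 1 ∧ ¬ ruO C.tb C.v q w) ≤
      MV.N0 (C.M ka) (5 * C.T) := Finset.sum_le_sum fun q _ => C.tb.Ps.Pr_mono fun w _ hh => hh.1
  have k3 : ∑ q ∈ range (5 * C.T), C.tb.Ps.Pr (fun w => (MV.nu (C.M ka) (q + 1) w = q + 1 ∧ ¬ ruO C.tb C.v q w) ∧ A q w ∧
      ¬ Alv C.h C.v C.tb C.p q w) ≤ (pw C.Lam (C.c0 + C.A))⁻¹ := by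
    have h1 := RelD.dead_once (P := C.tb.Ps) (C := MV.C0 (C.M ka)) (Al := fun q => Alv C.h C.v C.tb C.p q)
      (fun w _ q hh => Alv_anti C.h C.v C.tb (Nat.le_succ q) hh) (e := fun q w => MV.nu (C.M ka) q w)
      (fun w _ q => le_rfl) (5 * C.T)
    refine le_trans (Finset.sum_le_sum fun q hq => C.tb.Ps.Pr_mono fun w hw hh => ?_) (h1.trans C.dead_le)
    exact ⟨hh.1.1, hAl q (mem_range.1 hq) w hw hh.2.1, hh.2.2⟩
  have k4 := mul_le_mul_of_nonneg_left k2 (Real.exp_pos (-L1)).le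
  have k5 := mul_le_mul_of_nonneg_left k3 (show 0 ≤ 2 / y by positivity)
  linarith

/-- **ANY PUBLIC STARTS, RELATION OF THE NEW TABLES** -/
theorem st_ctx (hlam : 2 ≤ lam) (hL1 : 0 ≤ L1) (hy0 : 0 < y)
    (hA : ∀ q ≤ 5 * C.T, ∀ w, C.tb.Ps.p w ≠ 0 → A q w → Alv C.h C.v C.tb C.p q w →
      SR C.h C.v C.tb fr C.p c κ o (tauO (C.U ka) o' q w) w)
    (hAl : ∀ q ≤ 5 * C.T, ∀ w, C.tb.Ps.p w ≠ 0 → A q w → Alv C.h C.v C.tb C.p (MV.nu (C.M ka) q w) w)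
    (hm : Hm C ka lam o' fr c κ o eta) (hy : HyN C lam L1 eta y) :
    ∑ q ∈ range (5 * C.T + 1), C.tb.Ps.Pr (fun w => MV.nu (C.M ka) q w = q ∧
        y < C.tb.Ps.ce (sgt C.D ∅ (TP.nn q)) (fun u => ind (A q u)) w) ≤
      Real.exp (-L1) * (2 + MV.N0 (C.M ka) (5 * C.T)) + 160 * Real.exp (-lam) * (C.n * C.N1 * C.Lam) := by
  have k1 := nodeM_st C.tb C.codes (C.d1_pos ka) (C.d1_le ka) (C.kb_pos ka) C.d0_pos C.d0_le C.d0_pos C.p1_pos (C.z_pos ka)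
    C.n1 C.N11 C.R C.H (pX0 C) hlam hL1 o' hy0 fr c κ o (A := A)
    (C := fun q w => MV.nu (C.M ka) q w = q) hA
    (fun q _ => fun a b e => by
      have h1 : MV.nu (C.M ka) q a = MV.nu (C.M ka) q b := MV.nu_fac (M := C.M ka) q a b e
      show (_ = _) = (_ = _)
      rw [h1])
    (fun q hq w hw _ ho => hm q hq w hw ho) hy
  have k2 : ∑ q ∈ range (5 * C.T + 1), C.tb.Ps.Pr (fun w => MV.nu (C.M ka) q w = q) ≤ 2 + MV.N0 (C.M ka) (5 * C.T) := by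
    rw [Finset.sum_range_succ]
    have h1 := MV.starts_le (C.M ka) (5 * C.T)
    have h2 := C.tb.Ps.Pr_le_one (fun w => MV.nu (C.M ka) (5 * C.T) w = 5 * C.T)
    have h3 : ∑ s ∈ range (5 * C.T), C.tb.Ps.Pr (fun w => MV.nu (C.M ka) s w = s) ≤ 1 + MV.N0 (C.M ka) (5 * C.T) := h1
    linarith
  have k3 : ∑ q ∈ range (5 * C.T + 1), C.tb.Ps.Pr (fun w => MV.nu (C.M ka) q w = q ∧ A q w ∧
      ¬ Alv C.h C.v C.tb C.p q w) = 0 := by
    refine Finset.sum_eq_zero fun q hq => ?_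
    unfold FP.Pr
    rw [C.tb.Ps.E_congr (g := fun _ => 0) fun w hw => ind_not fun hh => by
      have h1 := hAl q (Nat.lt_succ_iff.1 (mem_range.1 hq)) w hw hh.2.1
      rw [hh.1] at h1
      exact hh.2.2 h1, C.tb.Ps.E_const]
  have k4 := mul_le_mul_of_nonneg_left k2 (Real.exp_pos (-L1)).le
  rw [k3, mul_zero, add_zero] at k1
  linarith

/-- **THE LAST TIME** -/
theorem fin_ctx (hlam : 2 ≤ lam) (hL1 : 0 ≤ L1) (hy0 : 0 < y)
    (hA : ∀ q ≤ 5 * C.T, ∀ w, C.tb.Ps.p w ≠ 0 → A q w → Alv C.h C.v C.tb C.p q w →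
      SR C.h C.v C.tb fr C.p c κ o (tauO (C.U ka) o' q w) w)
    (hm : Hm C ka lam o' fr c κ o eta) (hy : HyN C lam L1 eta y) :
    C.tb.Ps.Pr (fun w => y < C.tb.Ps.ce (sgt C.D ∅ (TP.nn (5 * C.T))) (fun u => ind (A (5 * C.T) u)) w) ≤
      Real.exp (-L1) + 160 * Real.exp (-lam) * (C.n * C.N1 * C.Lam) + 2 / y * (pw C.Lam (C.c0 + C.A))⁻¹ := by
  classical
  have k1 := nodeM_st C.tb C.codes (C.d1_pos ka) (C.d1_le ka) (C.kb_pos ka) C.d0_pos C.d0_le C.d0_pos C.p1_pos (C.z_pos ka)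
    C.n1 C.N11 C.R C.H (pX0 C) hlam hL1 o' hy0 fr c κ o (A := A)
    (C := fun q _ => q = 5 * C.T) hA (fun q _ => fun a b e => rfl)
    (fun q hq w hw _ ho => hm q hq w hw ho) hy
  have k2 : ∀ (F : ℕ → C.O → Prop), ∑ q ∈ range (5 * C.T + 1), C.tb.Ps.Pr (fun w => q = 5 * C.T ∧ F q w) =
      C.tb.Ps.Pr (F (5 * C.T)) := by
    intro F
    rw [Finset.sum_range_succ]
    have h1 : ∑ q ∈ range (5 * C.T), C.tb.Ps.Pr (fun w => q = 5 * C.T ∧ F q w) = 0 := by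
      refine Finset.sum_eq_zero fun q hq => ?_
      unfold FP.Pr
      rw [C.tb.Ps.E_congr (g := fun _ => 0) fun w _ => ind_not fun hh => by
        have := mem_range.1 hq
        omega, C.tb.Ps.E_const]
    rw [h1, zero_add]
    exact C.tb.Ps.Pr_congr fun w _ => ⟨fun hh => hh.2, fun hh => ⟨rfl, hh⟩⟩
  rw [k2 (fun q w => y < C.tb.Ps.ce (sgt C.D ∅ (TP.nn q)) (fun u => ind (A q u)) w),
    k2 (fun q w => A q w ∧ ¬ Alv C.h C.v C.tb C.p q w)] at k1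
  have k3 : ∑ q ∈ range (5 * C.T + 1), C.tb.Ps.Pr (fun _ => q = 5 * C.T) ≤ 1 := by
    rw [Finset.sum_range_succ]
    have h1 : ∑ q ∈ range (5 * C.T), C.tb.Ps.Pr (fun _ => q = 5 * C.T) = 0 := by
      refine Finset.sum_eq_zero fun q hq => ?_
      unfold FP.Pr
      rw [C.tb.Ps.E_congr (g := fun _ => 0) fun w _ => ind_not fun hh => by
        have := mem_range.1 hq
        omega, C.tb.Ps.E_const]
    have h2 := C.tb.Ps.Pr_le_one (fun _ => 5 * C.T = 5 * C.T)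
    linarith
  have k4 : C.tb.Ps.Pr (fun w => A (5 * C.T) w ∧ ¬ Alv C.h C.v C.tb C.p (5 * C.T) w) ≤ (pw C.Lam (C.c0 + C.A))⁻¹ :=
    (C.tb.Ps.Pr_mono fun w _ hh => hh.2).trans C.dead_le
  have k5 := mul_le_mul_of_nonneg_left k3 (Real.exp_pos (-L1)).le
  have k6 := mul_le_mul_of_nonneg_left k4 (show 0 ≤ 2 / y by positivity)
  linarith

end ctx

end Pool.Agent.GMH.RarN
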