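import Pool.Agent.GMH.RarNE
import Pool.Agent.GMH.ClsH
import Pool.Agent.GMH.UnmP
import Pool.Agent.GMH.UnmSt

/-!
# GMH/RarNF (helper88): THE NODE FIELDS OF `RelC` (row C5, node): AFZ, SF, RDZ, FZ, NE

* `hmC_all` : the class masses `HmC` from `ClsH.cls_gall` and `R0G` (helper34);
* `KSub C Q fr c κ` : the relations `Q.kv` are inside `SR fr p c κ`, `Q.al` inside `Alv`;
* **`afz_all`**, **`sf_all`**, **`rdz_all`**, **`fz_all`**, **`ne_all`** : all sums at most `x^(-s)`, thresholds at least `x^(-sq)`,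
  for every run with large `c0`, all thresholds `c` of the rounds, kinds `κ`, frames, relations `Q`, removals with `A.ru = ruO`.
-/

set_option autoImplicit false
set_option linter.unusedSectionVars false

namespace Pool.Agent.GMH.RarN

open Finset Pool.Agent.PWZ Pool.Agent.M3 Pool.Agent.GM Pool.Agent.GM.Harm Pool.Agent.GMH
open Pool.Agent.GMH.Dy Pool.Agent.GMH.MVI Pool.Agent.GMH.MVIp Pool.Agent.GMH.KF
open Pool.Agent.GMH.UV (US Kd tv Stps StpC Dn De0 af0 sf rd0 M0 Z0)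
open Pool.Agent.GMH.TRF (ruO)
open Pool.Agent.GMH.ExK
open Pool.Agent.GMH.CX Pool.Agent.GMH.V3 Pool.Agent.GMH.CT
open Pool.Agent.GMH.CLM (R0G hf bK bK_one bK_two cls_gall)

/-- **THE CLASS MASSES** -/
theorem hmC_all (A ka : ℕ) (RR : CT.Rounds) (sq sl : ℕ) (hsl : 2 * sq ≤ sl) : AllC A (fun C => ∀ c, CT.KcB RR C.Lam c → c.dH ≤ 1 → ∀ r0,
    r0 ≤ ix C.Lam (2 * sq) → R0G C.v C.h C.tb C.p (hf c) (3 * lr C.Lam sl C.c0 + 3) r0 →
    ∀ κ : Fin 10, (2 ≤ κ.1 → 2 * sq ≤ (CT.rd RR κ.1).q) → ∀ fr o o' : Option (Fin 3), HmC C ka fr c κ o o' sq sl) := by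
  have h1 := cls_gall A ka RR (2 * sq)
  have h2 := AllC.of_Ev (A := A) (ofCT (rx_V A sl (2 * sq)))
  have h3 := AllC.of_Ev (A := A) (CTM.Ev.ge 4)
  refine ((h1.and h2).and h3).mono fun C hh c hc hd r0 hr0 hR κ hκ fr o o' q hq w hw ho => ?_
  obtain ⟨⟨g1, g2⟩, g3⟩ := hh
  have hL := C.hL
  have k1 := g1 c hc hd _ r0 hR κ fr o q hq w hw
  have e1 : Real.exp (lr C.Lam sl C.c0 + 4 - (3 * lr C.Lam sl C.c0 + 3)) ≤ 3 * ix C.Lam (2 * sq) := by
    have a1 := g2 1 (Real.one_le_exp (mul_nonneg (CT.pw_pos hL _).le (CT.ix_nn hL _)))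
    rw [mul_one] at a1
    have l0 := lr_pos hL sl C.c0
    have a2 : Real.exp (lr C.Lam sl C.c0 + 4 - (3 * lr C.Lam sl C.c0 + 3)) ≤ Real.exp (1 + -(lr C.Lam sl C.c0)) :=
      Real.exp_le_exp.2 (by linarith)
    rw [Real.exp_add] at a2
    have a3 : Real.exp 1 ≤ 3 := by
      have := Real.exp_one_lt_d9
      linarith
    have a4 := mul_le_mul_of_nonneg_right a3 (Real.exp_pos (-(lr C.Lam sl C.c0))).le
    linarith
  have e2 : bK r0 (hf c) κ ≤ (1 + 4 ^ 5) * ix C.Lam (2 * sq) := by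
    have i0 := CT.ix_nn hL (2 * sq)
    rcases Nat.lt_or_ge κ.1 2 with hk | hk
    · rw [bK_one (by omega)]
      norm_num
      linarith
    · have a1 := bK_two hL hc hk (r0 := r0)
      have a2 := CT.ix_anti hL (hκ hk)
      norm_num at a1 ⊢
      linarith
  have i0 := CT.ix_nn hL (2 * sq)
  cases o' with
  | none =>
    refine (k1.2.2.1 _ ho).trans ?_
    norm_num at e2 ⊢
    linarith
  | some i =>
    refine (k1.2.1 i _ ho).trans ?_
    norm_num at e2 ⊢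
    linarith

section ctx

variable (C : Ctx) (ka : ℕ)

theorem tau_leT (τ : ℕ) (w : C.O) : τ ≤ eT C.v C.tb τ w := by
  unfold eT
  split <;> omega

/-- the relations of `Q` are inside the relations of the stays -/
structure KSub (Q : Kd C.O) (fr : Option (Fin 3)) (c : KC) (κ : Fin 10) : Prop where
  sub : ∀ o τ w, Q.kv o τ w → SR C.h C.v C.tb fr C.p c κ o τ w
  al : ∀ n w, Q.al n w → Alv C.h C.v C.tb C.p n w

theorem KSub.sr {Q : Kd C.O} {fr : Option (Fin 3)} {c : KC} {κ : Fin 10} (hQ : KSub C Q fr c κ) (o : Option (Fin 3)) :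
    SubR C ka fr c κ o o (fun q w => UV.Rn (C.U ka) Q o (MV.nu (C.M ka) q w) w) := by
  refine ⟨fun q _ w _ hR _ => ?_, fun q _ w _ hR => ?_⟩
  · cases o with
    | none => exact hQ.sub _ _ _ hR
    | some i => exact hQ.sub _ _ _ hR.1
  · cases o with
    | none =>
      have h1 := (hQ.sub _ _ _ hR).2
      exact Alv_anti C.h C.v C.tb (tau_leT C _ w) h1
    | some i => exact hQ.al _ _ hR.2

/-- relations and their class masses -/
structure Nod (sq sl : ℕ) (Q : Kd C.O) (fr : Option (Fin 3)) (c : KC) (κ : Fin 10) : Prop where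
  sub : KSub C Q fr c κ
  hm : ∀ o, HmC C ka fr c κ o o sq sl

end ctx

/-- **`Nod` FROM THE THRESHOLDS AND THE MASS OF `R0`** -/
theorem nod_all (A ka : ℕ) (RR : CT.Rounds) (sq sl : ℕ) (hsl : 2 * sq ≤ sl) : AllC A (fun C => ∀ c, CT.KcB RR C.Lam c → c.dH ≤ 1 → ∀ r0,
    r0 ≤ ix C.Lam (2 * sq) → R0G C.v C.h C.tb C.p (hf c) (3 * lr C.Lam sl C.c0 + 3) r0 →
    ∀ κ : Fin 10, (2 ≤ κ.1 → 2 * sq ≤ (CT.rd RR κ.1).q) → ∀ (fr : Option (Fin 3)) (Q : Kd C.O), KSub C Q fr c κ →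
      Nod C ka sq sl Q fr c κ) :=
  (hmC_all A ka RR sq sl hsl).mono fun C h c hc hd r0 h0 hR κ hκ fr Q hQ => ⟨hQ, fun o => h c hc hd r0 h0 hR κ hκ fr o o⟩

section fields

variable {A : ℕ} (hA : 80 ≤ A) (ka sq sl s : ℕ) (hs : 20 ≤ sq)

include hA hs

/-- **AFZ** -/
theorem afz_all : AllC A (fun C => ∀ (Q : Kd C.O) (fr : Option (Fin 3)) (c : KC) (κ : Fin 10), Nod C ka sq sl Q fr c κ →
    ∀ St : Stps (Om := C.O), (∀ q w, St.ru q w ↔ ruO C.tb C.v q w) → ∀ y, ix C.Lam sq ≤ y → ∀ o,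
    ∑ q ∈ range (5 * C.T), (C.U ka).P.Pr (fun w => af0 (C.U ka) Q St q w ∧ y < De0 (C.U ka) Q o q w) ≤ ix C.Lam s) := by
  refine (af0_all hA ka sq sl s hs).mono fun C h Q fr c κ hQ St hru y hy o => ?_
  have h1 := h fr c κ o o _ (hQ.hm o) (hQ.sub.sr C ka o)
  refine le_trans (Finset.sum_le_sum fun q _ => (C.U ka).P.Pr_mono fun w _ hh => ?_) h1
  exact ⟨⟨hh.1.1, fun hr => hh.1.2.2 ((hru q w).2 hr)⟩, lt_of_le_of_lt hy hh.2⟩

/-- all public starts, relation of the new tables -/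
theorem dn_all : AllC A (fun C => ∀ (Q : Kd C.O) (fr : Option (Fin 3)) (c : KC) (κ : Fin 10), Nod C ka sq sl Q fr c κ →
    ∀ y, ix C.Lam sq ≤ y → ∀ o,
    ∑ q ∈ range (5 * C.T + 1), (C.U ka).P.Pr (fun w => MV.nu (C.U ka).toMS q w = q ∧ y < Dn (C.U ka) Q o q w) ≤
      ix C.Lam s) := by
  refine (st_all hA ka sq sl s hs).mono fun C h Q fr c κ hQ y hy o => ?_
  have h1 := h fr c κ o o _ (hQ.hm o) (hQ.sub.sr C ka o)
  refine le_trans (Finset.sum_le_sum fun q _ => (C.U ka).P.Pr_mono fun w _ hh => ?_) h1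
  exact ⟨hh.1, lt_of_le_of_lt hy hh.2⟩

/-- **SF** -/
theorem sf_all : AllC A (fun C => ∀ (Q : Kd C.O) (fr : Option (Fin 3)) (c : KC) (κ : Fin 10), Nod C ka sq sl Q fr c κ →
    ∀ St : Stps (Om := C.O), ∀ y, ix C.Lam sq ≤ y → ∀ o,
    ∑ n ∈ range (5 * C.T), (C.U ka).P.Pr (fun w => sf (C.U ka) St n w ∧ y < Dn (C.U ka) Q o n w) ≤ ix C.Lam s) := by
  refine (dn_all hA ka sq sl s hs).mono fun C h Q fr c κ hQ St y hy o => ?_
  refine le_trans ?_ (h Q fr c κ hQ y hy o)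
  rw [Finset.sum_range_succ]
  have h2 := (C.U ka).P.Pr_nonneg (fun w => MV.nu (C.U ka).toMS (5 * C.T) w = 5 * C.T ∧ y < Dn (C.U ka) Q o (5 * C.T) w)
  have h3 : ∑ n ∈ range (5 * C.T), (C.U ka).P.Pr (fun w => sf (C.U ka) St n w ∧ y < Dn (C.U ka) Q o n w) ≤
      ∑ q ∈ range (5 * C.T), (C.U ka).P.Pr (fun w => MV.nu (C.U ka).toMS q w = q ∧ y < Dn (C.U ka) Q o q w) :=
    Finset.sum_le_sum fun q _ => (C.U ka).P.Pr_mono fun w _ hh => ⟨hh.1.1, hh.2⟩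
  linarith

/-- **RDZ**, any relations `Q'` of the new starts -/
theorem rdz_all : AllC A (fun C => ∀ (Q Q' : Kd C.O) (fr : Option (Fin 3)) (c : KC) (κ : Fin 10), Nod C ka sq sl Q' fr c κ →
    ∀ St : Stps (Om := C.O), StpC (C.U ka) St → ∀ y, ix C.Lam sq ≤ y → ∀ o,
    ∑ q ∈ range (5 * C.T), (C.U ka).P.Pr (fun w => rd0 (C.U ka) Q St q w ∧ y < Dn (C.U ka) Q' o (q + 1) w) ≤
      ix C.Lam s) := by
  refine (dn_all hA ka sq sl s hs).mono fun C h Q Q' fr c κ hQ St hC y hy o => ?_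
  refine le_trans ?_ (h Q' fr c κ hQ y hy o)
  rw [Finset.sum_range_succ']
  have h2 := (C.U ka).P.Pr_nonneg (fun w => MV.nu (C.U ka).toMS 0 w = 0 ∧ y < Dn (C.U ka) Q' o 0 w)
  have h3 : ∑ q ∈ range (5 * C.T), (C.U ka).P.Pr (fun w => rd0 (C.U ka) Q St q w ∧ y < Dn (C.U ka) Q' o (q + 1) w) ≤
      ∑ q ∈ range (5 * C.T), (C.U ka).P.Pr (fun w => MV.nu (C.U ka).toMS (q + 1) w = q + 1 ∧
        y < Dn (C.U ka) Q' o (q + 1) w) :=
    Finset.sum_le_sum fun q _ => (C.U ka).P.Pr_mono fun w hw hh => ⟨hC.end0 w hw q hh.1.1, hh.2⟩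
  linarith

/-- **FZ** -/
theorem fz_all : AllC A (fun C => ∀ (Q : Kd C.O) (fr : Option (Fin 3)) (c : KC) (κ : Fin 10), Nod C ka sq sl Q fr c κ →
    ∀ y, ix C.Lam sq ≤ y → ∀ o,
    (C.U ka).P.Pr (fun w => Z0 (C.U ka) Q (5 * C.T) w ∧ y < Dn (C.U ka) Q o (5 * C.T) w) ≤ ix C.Lam s) := by
  refine (fin_all hA ka sq sl s hs).mono fun C h Q fr c κ hQ y hy o => ?_
  have h1 := h fr c κ o o _ (hQ.hm o) (hQ.sub.sr C ka o)
  exact ((C.U ka).P.Pr_mono fun w _ hh => lt_of_le_of_lt hy hh.2).trans h1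

/-- **NE** : a zone which begins at its public start -/
theorem ne_all : AllC A (fun C => ∀ (Q : Kd C.O) (fr : Option (Fin 3)) (c : KC) (κ : Fin 10), Nod C ka sq sl Q fr c κ →
    ∀ y, 4 * ix C.Lam sq < y →
    ∑ q ∈ range (5 * C.T + 1), (C.U ka).P.Pr (fun w => MV.nu (C.U ka).toMS q w = q ∧ y ≤ M0 (C.U ka) Q q w) ≤
      ix C.Lam s) := by
  classical
  refine (dn_all hA ka sq sl (s + 1) hs).mono fun C h Q fr c κ hQ y hy => ?_
  have hL := C.hL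
  have k1 : ∀ q w, M0 (C.U ka) Q q w = ∑ o : Option (Fin 3), Dn (C.U ka) Q o q w := fun q w =>
    UV.M0_eq (M := C.U ka)
      (seen_i C.tb C.codes (C.d1_pos ka) (C.d1_le ka) (C.kb_pos ka) C.d0_pos C.d0_le C.d0_pos C.p1_pos (C.z_pos ka)) q w
  have k2 : ∀ q ∈ range (5 * C.T + 1), (C.U ka).P.Pr (fun w => MV.nu (C.U ka).toMS q w = q ∧ y ≤ M0 (C.U ka) Q q w) ≤
      ∑ o : Option (Fin 3), (C.U ka).P.Pr (fun w => MV.nu (C.U ka).toMS q w = q ∧ ix C.Lam sq < Dn (C.U ka) Q o q w) := by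
    intro q _
    unfold FP.Pr
    rw [← FP.E_sum]
    refine (C.U ka).P.E_mono fun w _ => ?_
    have n1 : ∀ o ∈ (univ : Finset (Option (Fin 3))), 0 ≤ ind (MV.nu (C.U ka).toMS q w = q ∧ ix C.Lam sq < Dn (C.U ka) Q o q w) :=
      fun _ _ => ind_nonneg _
    by_cases h1 : MV.nu (C.U ka).toMS q w = q ∧ y ≤ M0 (C.U ka) Q q w
    · rw [ind_of h1]
      have h2 : ∃ o, ix C.Lam sq < Dn (C.U ka) Q o q w := by
        by_contra hcon
        push Not at hcon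
        have h3 : M0 (C.U ka) Q q w ≤ 4 * ix C.Lam sq := by
          rw [k1]
          refine (Finset.sum_le_card_nsmul _ _ (ix C.Lam sq) fun o _ => hcon o).trans (le_of_eq ?_)
          rw [Finset.card_univ, nsmul_eq_mul, Fintype.card_option, Fintype.card_fin]
          norm_num
        linarith [h1.2]
      obtain ⟨o, ho⟩ := h2
      have h4 := Finset.single_le_sum n1 (mem_univ o)
      rw [ind_of ⟨h1.1, ho⟩] at h4
      exact h4
    · rw [ind_not h1]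
      exact Finset.sum_nonneg n1
  refine (Finset.sum_le_sum k2).trans ?_
  rw [Finset.sum_comm]
  have h5 := ix4 hL s
  refine (Finset.sum_le_card_nsmul _ _ (ix C.Lam (s + 1)) fun o _ => h Q fr c κ hQ _ le_rfl o).trans ?_
  rw [Finset.card_univ, nsmul_eq_mul, Fintype.card_option, Fintype.card_fin]
  norm_num
  linarith

end fields

end Pool.Agent.GMH.RarN
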