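import Pool.Agent.GMH.KinMs
import Pool.Agent.GMH.Exit3
import Pool.Agent.GMH.RarC3
import Pool.Agent.GMH.KDL3
import Pool.Agent.GMH.DynF
import Pool.Agent.GMH.TriB

/-!
# GMH/RarR0: the class mass of the tuples whose tops are far from independent (helper34; kind `1 = R0`, row C5)

* `I_restr` : restriction of a conditional information to an event seen by the condition;
* `tot_eq`, `tot_Fo` : total correlation of three maps; `D0_cond` : `D0` (`GMH/KinMs`) in the law given an event seen by `Z`;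
* `far_abs` : the mass of `{2 e ≤ D0}` at typical letters from `I (X; second row | truncated letter)` and
  `I (far top; other tops | letters)`, three tops and two tops;
* `r0_V` : saturated state, `V` an event of (hidden point, exact point of `b`);
* `Vq`, `Cq`, `T_iff` : the class of `b` at the state `q` = event of (hidden point, exact point) and cells; `D0_V` : the tables
  of the state are the tables of the event;
* **`r0_x`** : class mass of `R0` at the exact vertex, every state with `log (m (XN b (5 t)) / m (XN b q)) ≤ L`, alive tuples: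
  `2 ELr (L, X0 + L) / e1 ^ 2`; **`r0_n`** : at the node: the same `+ exp (lw - L)`; `small_cls` : the mass of the vertex
  classes with a larger ratio; `kv1_iff3`, `kv1_iff2` : the kinds `κ = 1` of `GMH/DynF`.
-/

set_option autoImplicit false
set_option linter.unusedSectionVars false

namespace Pool.Agent.GMH.RarR0

open Finset Pool.Agent.PWZ Pool.Agent.M3 Pool.Agent.GM Pool.Agent.GM.Harm Pool.Agent.GMH Pool.Agent.GMH.KF

noncomputable section

section abs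

variable {Om : Type*} [Fintype Om] {Q : FP Om} {α β γ δ φ : Type*}

/-- **restriction to an event seen by the condition** -/
theorem I_restr (A : Om → α) (B : Om → β) {Z : Om → γ} {T : Om → Prop} (hT0 : Q.Pr T ≠ 0) (hT : Fac Z T) :
    Q.Pr T * (Q.cond T).I A B Z ≤ Q.I A B Z := by
  classical
  set B' : Om → Option β := fun w => if T w then some (B w) else Option.none with hB'
  have h1 : Q.I A B' Z = Q.Pr T * (Q.cond T).I A B' Z := by
    refine I_cut hT0 hT fun v w hv hw => ?_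
    show (if T v then some (B v) else Option.none) = if T w then some (B w) else Option.none
    rw [if_neg hv, if_neg hw]
  have h2 : (Q.cond T).I A B' Z = (Q.cond T).I A B Z := by
    refine I_supp (fun _ _ _ _ => Iff.rfl) (fun v w hv hw => ?_) (fun _ _ _ _ => Iff.rfl)
    have hv' := (cond_supp hT0 hv).1
    have hw' := (cond_supp hT0 hw).1
    show (if T v then some (B v) else Option.none) = (if T w then some (B w) else Option.none) ↔ B v = B w
    rw [if_pos hv', if_pos hw']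
    exact ⟨fun e => Option.some.inj e, fun e => by rw [e]⟩
  have h3 : Q.I B' A Z ≤ Q.I B A Z := by
    refine Q.I_mono A fun v w hvw => ?_
    simp only [Prod.mk.injEq] at hvw
    show (if T v then some (B v) else Option.none) = if T w then some (B w) else Option.none
    have e : T v = T w := hT v w hvw.2
    by_cases hw : T w
    · rw [if_pos hw, if_pos (by rw [e]; exact hw), hvw.1]
    · rw [if_neg hw, if_neg (by rw [e]; exact hw)]
  rw [Q.I_comm B' A, Q.I_comm B A] at h3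
  rw [← h2, ← h1]
  exact h3

/-- **total correlation of three maps** -/
theorem tot_eq (F : Fin 3 → Om → φ) (Z : Om → γ) {b c d : Fin 3} (hbc : b ≠ c) (hbd : b ≠ d) (hcd : c ≠ d) :
    Exit3.tot Q F Z (fun _ => Z) = Q.I (F b) (fun w => (F d w, F c w)) Z + Q.I (F d) (F c) Z := by
  have hu : (univ : Finset (Fin 3)) = {b, c, d} := by
    have key : ∀ b c d : Fin 3, b ≠ c → b ≠ d → c ≠ d → (univ : Finset (Fin 3)) = {b, c, d} := by decide
    exact key b c d hbc hbd hcd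
  have hall : ∀ j : Fin 3, j = b ∨ j = c ∨ j = d := by
    intro j
    have := mem_univ j
    rw [hu] at this
    simpa using this
  unfold Exit3.tot
  rw [hu, Finset.sum_insert (by simp [hbc, hbd]), Finset.sum_insert (by simp [hcd]), Finset.sum_singleton,
    Q.I_eq_Hc, Q.I_eq_Hc]
  unfold FP.Hc
  have e1 : Q.H (fun w => (tup F w, Z w)) = Q.H (fun w => (F b w, (F d w, F c w), Z w)) := by
    refine Q.H_congr (fun v w hvw => ?_) (fun v w hvw => ?_)
    · simp only [Prod.mk.injEq] at hvw ⊢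
      exact ⟨congrFun hvw.1 b, ⟨congrFun hvw.1 d, congrFun hvw.1 c⟩, hvw.2⟩
    · simp only [Prod.mk.injEq] at hvw ⊢
      refine ⟨funext fun j => ?_, hvw.2.2⟩
      show F j v = F j w
      rcases hall j with rfl | rfl | rfl
      · exact hvw.1
      · exact hvw.2.1.2
      · exact hvw.2.1.1
  have e2 : Q.H (fun w => ((F d w, F c w), Z w)) = Q.H (fun w => (F d w, F c w, Z w)) := by
    refine Q.H_congr (fun v w hvw => ?_) (fun v w hvw => ?_)
    · simp only [Prod.mk.injEq] at hvw ⊢; tauto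
    · simp only [Prod.mk.injEq] at hvw ⊢; tauto
  rw [e1, e2]
  ring

theorem D0_far (F : Fin 3 → Om → φ) (Z : Om → γ) (w : Om) : D0 Q F Z w = Exit3.far Q F Z (fun _ => Z) w := rfl

/-- `D0` in the law given an event seen by `Z` -/
theorem D0_cond (F : Fin 3 → Om → φ) {Z : Om → γ} {T : Om → Prop} (hT0 : Q.Pr T ≠ 0) (hT : Fac Z T) {w : Om} (hw : T w) :
    D0 (Q.cond T) F Z w = D0 Q F Z w := by
  unfold D0 pF mF
  refine Finset.sum_congr rfl fun g _ => ?_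
  rw [cond_pv hT hT0 (tup F) hw g, Finset.prod_congr rfl fun i _ => cond_pv hT hT0 (F i) hw (g i)]

/-- mass of the far points -/
theorem far_mass (F : Fin 3 → Om → φ) (Z : Om → γ) {e : ℝ} (he : 0 < e) :
    Q.Pr (fun w => 2 * e ≤ D0 Q F Z w) ≤ Exit3.tot Q F Z (fun _ => Z) / (2 * e ^ 2) := by
  have h1 := Exit3.E_far_sq Q F (U := Z) (Ui := fun _ => Z) (fun _ => Fac.refl Z)
  have h2 : Q.E (fun w => 4 * e ^ 2 * ind (2 * e ≤ D0 Q F Z w)) ≤
      Q.E (fun w => Exit3.far Q F Z (fun _ => Z) w ^ 2) := by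
    refine Q.E_mono fun w _ => ?_
    by_cases h : 2 * e ≤ D0 Q F Z w
    · rw [ind_of h, mul_one, ← D0_far]
      nlinarith
    · rw [ind_not h, mul_zero]
      exact sq_nonneg _
  rw [Q.E_smul] at h2
  rw [le_div_iff₀ (by positivity)]
  unfold FP.Pr
  nlinarith

/-- far points inside an event seen by `Z` -/
theorem far_T (F : Fin 3 → Om → φ) {Z : Om → γ} {T : Om → Prop} (hT0 : Q.Pr T ≠ 0) (hT : Fac Z T) {e : ℝ} (he : 0 < e) :
    Q.Pr (fun w => T w ∧ 2 * e ≤ D0 Q F Z w) ≤ Q.Pr T * Exit3.tot (Q.cond T) F Z (fun _ => Z) / (2 * e ^ 2) := by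
  have c1 := far_mass (Q := Q.cond T) F Z he
  have c2 : Q.Pr (fun w => T w ∧ 2 * e ≤ D0 Q F Z w) = Q.Pr T * (Q.cond T).Pr (fun w => 2 * e ≤ D0 (Q.cond T) F Z w) := by
    rw [FP.cond_Pr hT0, mul_div_cancel₀ _ hT0]
    refine FP.Pr_congr Q fun w _ => ?_
    constructor
    · rintro ⟨g1, g2⟩
      exact ⟨g1, by rw [D0_cond F hT0 hT g1]; exact g2⟩
    · rintro ⟨g1, g2⟩
      exact ⟨g1, by rw [D0_cond F hT0 hT g1] at g2; exact g2⟩
  rw [c2, mul_div_assoc]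
  exact mul_le_mul_of_nonneg_left c1 (Q.Pr_nonneg T)

/-- removing one map decreases the total correlation -/
theorem tot_Fo (F : Fin 3 → Om → φ) (Z : Om → γ) (i0 : Fin 3) :
    Exit3.tot Q (Fo F i0) Z (fun _ => Z) ≤ Exit3.tot Q F Z (fun _ => Z) := by
  obtain ⟨c, d, h1, h2, h3⟩ : ∃ c d : Fin 3, i0 ≠ c ∧ i0 ≠ d ∧ c ≠ d := by
    have key : ∀ i0 : Fin 3, ∃ c d : Fin 3, i0 ≠ c ∧ i0 ≠ d ∧ c ≠ d := by decide
    exact key i0
  rw [tot_eq F Z h1 h2 h3, tot_eq (Fo F i0) Z h1 h2 h3]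
  have e1 : Q.I (Fo F i0 i0) (fun w => (Fo F i0 d w, Fo F i0 c w)) Z ≤ 0 := by
    have k1 := Q.I_mono (X := fun _ : Om => ()) (X' := Fo F i0 i0) (fun w => (Fo F i0 d w, Fo F i0 c w)) (Z := Z)
      (fun v w hvw => by
        show Fo F i0 i0 v = Fo F i0 i0 w
        unfold Fo
        rw [if_pos rfl, if_pos rfl])
    have k2 : Q.I (fun _ : Om => ()) (fun w => (Fo F i0 d w, Fo F i0 c w)) Z = 0 := by
      rw [Q.I_eq_Hc]
      unfold FP.Hc
      have a1 : Q.H (fun w => ((), Z w)) = Q.H Z := Q.H_congr (fun v w hvw => congrArg Prod.snd hvw)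
        (fun v w hvw => Prod.ext rfl hvw)
      have a3 : Q.H (fun w => ((), (Fo F i0 d w, Fo F i0 c w), Z w)) = Q.H (fun w => ((Fo F i0 d w, Fo F i0 c w), Z w)) :=
        Q.H_congr (fun v w hvw => by simp only [Prod.mk.injEq] at hvw ⊢; tauto)
          (fun v w hvw => by simp only [Prod.mk.injEq] at hvw ⊢; tauto)
      rw [a1, a3]
      ring
    linarith
  have e2 : Q.I (Fo F i0 d) (Fo F i0 c) Z = Q.I (F d) (F c) Z := by
    refine I_supp (fun v w _ _ => ?_) (fun v w _ _ => ?_) (fun _ _ _ _ => Iff.rfl)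
    · unfold Fo
      rw [if_neg h2.symm, if_neg h2.symm]
      exact ⟨fun hh => Option.some_injective _ hh, fun hh => congrArg Option.some hh⟩
    · unfold Fo
      rw [if_neg h1.symm, if_neg h1.symm]
      exact ⟨fun hh => Option.some_injective _ hh, fun hh => congrArg Option.some hh⟩
  have e3 := Q.I_nonneg (F i0) (fun w => (F d w, F c w)) Z
  rw [e2]
  linarith

/-- **total correlation at typical letters** -/
theorem tot_abs (F : Fin 3 → Om → φ) {b c d : Fin 3} (hbc : b ≠ c) (hbd : b ≠ d) (hcd : c ≠ d) {Zc : Om → γ} {Zd : Om → δ}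
    {Ct : Om → α} {X : Om → β} {Tc Td : Om → Prop} (hTc : Fac Ct Tc) (hTd : Fac Zd Td) (hCt : Fac Zc Ct)
    (hCt' : ∀ v w, Tc v → Tc w → Ct v = Ct w → Zc v = Zc w) (hX : ∀ v w, Tc v → Tc w → (X v = X w ↔ F d v = F d w))
    {θ1 θ2 : ℝ} (h1 : Q.I X (fun w => (Zd w, F c w)) Ct ≤ θ1)
    (h2 : Q.I (F b) (fun w => (F d w, F c w)) (fun w => (Zc w, Zd w)) ≤ θ2) (hT0 : Q.Pr (fun w => Tc w ∧ Td w) ≠ 0) :
    Q.Pr (fun w => Tc w ∧ Td w) * Exit3.tot (Q.cond fun w => Tc w ∧ Td w) F (fun w => (Zc w, Zd w))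
      (fun _ w => (Zc w, Zd w)) ≤ θ1 + θ2 := by
  classical
  set T : Om → Prop := fun w => Tc w ∧ Td w with hT
  set Z : Om → γ × δ := fun w => (Zc w, Zd w) with hZ
  have hTf : Fac Z T := by
    intro v w hvw
    have k1 : Tc v = Tc w := hTc v w (hCt v w (congrArg Prod.fst hvw))
    have k2 : Td v = Td w := hTd v w (congrArg Prod.snd hvw)
    show (Tc v ∧ Td v) = (Tc w ∧ Td w)
    rw [k1, k2]
  have hTc0 : Q.Pr Tc ≠ 0 := by
    intro h3
    refine hT0 (le_antisymm ?_ (Q.Pr_nonneg T))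
    rw [← h3]
    exact Q.Pr_mono fun w _ h => h.1
  -- the far top
  have a2 : Q.Pr T * (Q.cond T).I (F b) (fun w => (F d w, F c w)) Z ≤ θ2 := (I_restr _ _ hT0 hTf).trans h2
  -- the two tops of the exact vertex
  have b1 : Q.Pr Tc * (Q.cond Tc).I X (fun w => (Zd w, F c w)) Ct ≤ θ1 := (I_restr _ _ hTc0 hTc).trans h1
  have b2 : (Q.cond Tc).I X (fun w => (Zd w, F c w)) Ct = (Q.cond Tc).I (F d) (fun w => (Zd w, F c w)) Zc := by
    refine I_supp (fun v w hv hw => ?_) (fun _ _ _ _ => Iff.rfl) (fun v w hv hw => ?_)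
    · exact hX v w (cond_supp hTc0 hv).1 (cond_supp hTc0 hw).1
    · exact ⟨fun h => hCt' v w (cond_supp hTc0 hv).1 (cond_supp hTc0 hw).1 h, fun h => hCt v w h⟩
  have b3 : (Q.cond Tc).I (F d) (F c) Z ≤ (Q.cond Tc).I (F d) (fun w => (Zd w, F c w)) Zc := by
    have k1 := (Q.cond Tc).I_chain (F c) Zd (F d) Zc
    have k2 := (Q.cond Tc).I_nonneg Zd (F d) Zc
    have k3 : (Q.cond Tc).I (fun w => (F c w, Zd w)) (F d) Zc = (Q.cond Tc).I (F d) (fun w => (Zd w, F c w)) Zc := by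
      rw [FP.I_comm]
      refine I_supp (fun _ _ _ _ => Iff.rfl) (fun v w _ _ => ?_) (fun _ _ _ _ => Iff.rfl)
      simp only [Prod.mk.injEq]
      tauto
    have k4 : (Q.cond Tc).I (F c) (F d) (fun w => (Zd w, Zc w)) = (Q.cond Tc).I (F d) (F c) Z := by
      rw [FP.I_comm]
      refine I_supp (fun _ _ _ _ => Iff.rfl) (fun _ _ _ _ => Iff.rfl) (fun v w _ _ => ?_)
      show (Zd v, Zc v) = (Zd w, Zc w) ↔ (Zc v, Zd v) = (Zc w, Zd w)
      simp only [Prod.mk.injEq]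
      tauto
    rw [k3, k4] at k1
    linarith
  have hcc : (Q.cond Tc).cond T = Q.cond T := by
    have e0 : (fun v => Tc v ∧ T v) = T := funext fun v => propext ⟨fun h => h.2, fun h => ⟨h.1, h⟩⟩
    rw [FP.cond_cond (by rw [e0]; exact hT0), e0]
  have hTc1 : (Q.cond Tc).Pr T ≠ 0 := by
    rw [FP.cond_Pr hTc0]
    have e0 : (fun v => Tc v ∧ T v) = T := funext fun v => propext ⟨fun h => h.2, fun h => ⟨h.1, h⟩⟩
    rw [e0]
    exact div_ne_zero hT0 hTc0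
  have b4 : (Q.cond Tc).Pr T * (Q.cond T).I (F d) (F c) Z ≤ (Q.cond Tc).I (F d) (F c) Z := by
    have := I_restr (Q := Q.cond Tc) (F d) (F c) hTc1 hTf
    rw [hcc] at this
    exact this
  have b5 : Q.Pr Tc * (Q.cond Tc).Pr T = Q.Pr T := by
    rw [FP.cond_Pr hTc0]
    have e0 : (fun v => Tc v ∧ T v) = T := funext fun v => propext ⟨fun h => h.2, fun h => ⟨h.1, h⟩⟩
    rw [e0, mul_div_cancel₀ _ hTc0]
  have a1 : Q.Pr T * (Q.cond T).I (F d) (F c) Z ≤ θ1 := by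
    rw [← b5, mul_assoc]
    refine (mul_le_mul_of_nonneg_left (b4.trans b3) (Q.Pr_nonneg Tc)).trans ?_
    rw [← b2]
    exact b1
  have e4 : Exit3.tot (Q.cond T) F Z (fun _ => Z) = (Q.cond T).I (F b) (fun w => (F d w, F c w)) Z +
      (Q.cond T).I (F d) (F c) Z := tot_eq F Z hbc hbd hcd
  show Q.Pr T * Exit3.tot (Q.cond T) F Z (fun _ => Z) ≤ θ1 + θ2
  rw [e4, mul_add]
  linarith

/-- **THE MASS OF THE FAR TUPLES AT TYPICAL LETTERS**, three tops, and two tops -/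
theorem far_abs (F : Fin 3 → Om → φ) {b c d : Fin 3} (hbc : b ≠ c) (hbd : b ≠ d) (hcd : c ≠ d) {Zc : Om → γ} {Zd : Om → δ}
    {Ct : Om → α} {X : Om → β} {Tc Td : Om → Prop} (hTc : Fac Ct Tc) (hTd : Fac Zd Td) (hCt : Fac Zc Ct)
    (hCt' : ∀ v w, Tc v → Tc w → Ct v = Ct w → Zc v = Zc w) (hX : ∀ v w, Tc v → Tc w → (X v = X w ↔ F d v = F d w))
    {θ1 θ2 : ℝ} (h1 : Q.I X (fun w => (Zd w, F c w)) Ct ≤ θ1)
    (h2 : Q.I (F b) (fun w => (F d w, F c w)) (fun w => (Zc w, Zd w)) ≤ θ2) {e : ℝ} (he : 0 < e) :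
    Q.Pr (fun w => (Tc w ∧ Td w) ∧ 2 * e ≤ D0 Q F (fun w => (Zc w, Zd w)) w) ≤ (θ1 + θ2) / (2 * e ^ 2) ∧
    ∀ i0, Q.Pr (fun w => (Tc w ∧ Td w) ∧ 2 * e ≤ D0 Q (Fo F i0) (fun w => (Zc w, Zd w)) w) ≤ (θ1 + θ2) / (2 * e ^ 2) := by
  classical
  have p1 : 0 ≤ θ1 := (Q.I_nonneg _ _ _).trans h1
  have p2 : 0 ≤ θ2 := (Q.I_nonneg _ _ _).trans h2
  have hTf : Fac (fun w => (Zc w, Zd w)) (fun w => Tc w ∧ Td w) := by
    intro v w hvw
    have k1 : Tc v = Tc w := hTc v w (hCt v w (congrArg Prod.fst hvw))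
    have k2 : Td v = Td w := hTd v w (congrArg Prod.snd hvw)
    show (Tc v ∧ Td v) = (Tc w ∧ Td w)
    rw [k1, k2]
  by_cases hT0 : Q.Pr (fun w => Tc w ∧ Td w) = 0
  · have h3 : ∀ G : Om → Prop, Q.Pr (fun w => (Tc w ∧ Td w) ∧ G w) ≤ (θ1 + θ2) / (2 * e ^ 2) := fun G =>
      (Q.Pr_mono (t := fun w => Tc w ∧ Td w) fun w _ h => h.1).trans (by rw [hT0]; positivity)
    exact ⟨h3 _, fun i0 => h3 _⟩
  have k1 := tot_abs F hbc hbd hcd hTc hTd hCt hCt' hX h1 h2 hT0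
  refine ⟨(far_T F hT0 hTf he).trans (div_le_div_of_nonneg_right k1 (by positivity)), fun i0 => ?_⟩
  refine (far_T (Fo F i0) hT0 hTf he).trans (div_le_div_of_nonneg_right (le_trans ?_ k1) (by positivity))
  exact mul_le_mul_of_nonneg_left (tot_Fo F _ i0) (Q.Pr_nonneg _)

end abs

section inst

open Pool.Agent.GMH.RarX

variable {X β γ φ υ : Type} [Fintype X] [Fintype β] [Fintype φ] [Nonempty X] [Nonempty β]
  {D : HD (Fin 3) X β γ φ} {al : ℝ} {h : D.Thick al} {N : Finset (Fin 3) → ℝ} {S : Finset (Finset (Fin 3))}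
  {U : Finset (Fin 3) → X → (Fin 3 → β) → υ} {t : ℕ} {b c d : Fin 3} {w0 : Pt (Fin 3) X β φ}
  {V : Pt (Fin 3) X β φ → Prop} {Typ : β → υ → Prop} {M L Lo R0 ep : ℝ} {k : ℕ}

/-- **far tuples inside an event of the exact vertex**, saturated state -/
theorem r0_V (B : Bk h N S U t b c d) (I : Ib h U t b w0 V)
    (hM : ∀ c', ∃ s : Finset υ, (s.card : ℝ) ≤ M ∧ ∀ u, Typ c' u → u ∈ s)
    (hL : Real.log (1 / (QC h U t b w0).Pr V) ≤ L)
    (hLo : Real.log (1 / own h t U (pub0 D t U w0) b w0) + L ≤ Lo)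
    (hk : 0 < k) (hep : 0 < ep) (hep2 : ep ≤ 1 / 2) (hR0 : Real.log (1 / ep) ≤ R0) (hR1 : Real.log (1 / al) ≤ R0)
    (hkR : N (univ.erase d) / (2 * N {b}) * (R0 + L / (N (univ.erase d) / (2 * N {b}))) ≤ 2 * k)
    {e : ℝ} (he : 0 < e) :
    ((D.P h t).cond V).Pr (fun w => (Typ (w.2.1 c) (U {c} w.1 w.2.1) ∧ Typ (w.2.1 d) (U {d} w.1 w.2.1)) ∧
      2 * e ≤ D0 ((D.P h t).cond V) (fun i w => w.2.2 i) (fun w => (zf U c w, zf U d w)) w) ≤
      (kP2 N al M R0 ep k b d L Lo + kP3 N al b c d Lo) / (2 * e ^ 2) ∧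
    ∀ i0, ((D.P h t).cond V).Pr (fun w => (Typ (w.2.1 c) (U {c} w.1 w.2.1) ∧ Typ (w.2.1 d) (U {d} w.1 w.2.1)) ∧
      2 * e ≤ D0 ((D.P h t).cond V) (Fo (fun i w => w.2.2 i) i0) (fun w => (zf U c w, zf U d w)) w) ≤
      (kP2 N al M R0 ep k b d L Lo + kP3 N al b c d Lo) / (2 * e ^ 2) := by
  classical
  have hNe := B.n2 b
  have hN0 := B.nn ∅ B.s0
  refine far_abs (Q := (D.P h t).cond V) (fun (i : Fin 3) (w : Pt (Fin 3) X β φ) => w.2.2 i) B.bc B.bd B.cd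
    (Zc := zf U c) (Zd := zf U d) (Ct := zt U Typ c) (X := fun w => fc (zt U Typ c w) (w.2.2 d))
    (Tc := fun w => Typ (w.2.1 c) (U {c} w.1 w.2.1)) (Td := fun w => Typ (w.2.1 d) (U {d} w.1 w.2.1))
    (fun v w hvw => propext (typ_zt hvw)) typ_zf (zt_of_zf c) (fun v w _ hw hvw => (zt_iff hw).1 hvw) ?_ ?_ ?_ he
  · intro v w hv hw
    rw [fc_pos hv, fc_pos hw]
    exact ⟨fun hh => Option.some_injective _ hh, fun hh => congrArg Option.some hh⟩
  · have h1 := pX_le (Typ := Typ) B I hM hL hLo hk hep hep2 hR0 hR1 hkR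
    have h2 := Pool.Agent.GMH.klc_nonneg I.acC (fun w => fc (zt U Typ c w) (w.2.2 d)) (zt U Typ c)
    have h3 : ((D.P h t).cond V).I (fun w => fc (zt U Typ c w) (w.2.2 d)) (fun w => ((w.2.1 d, U {d} w.1 w.2.1), w.2.2 c))
        (zt U Typ c) ≤ kP2 N al M R0 ep k b d L Lo := by linarith
    exact h3
  · have h1 := face_far B I
    have h2 := Pool.Agent.GMH.klc_nonneg I.acB (fun w => w.2.2 b) (fun w => (zf U c w, zf U d w))
    have hb : Lb h U t b w0 V ≤ Lo := by rw [Lb_eq B I]; linarith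
    have h4 : 2 * N ∅ * (Lb h U t b w0 V + 1) ≤ 2 * N ∅ * (Lo + 1) := mul_le_mul_of_nonneg_left (by linarith) (by linarith)
    unfold kP3
    rw [le_div_iff₀ hNe, mul_comm]
    have h5 := mul_nonneg hNe.le h2
    rw [mul_add] at h1
    linarith

end inst

section state

open Pool.Agent.GMH.RarX Pool.Agent.GMH.TP Pool.Agent.GMH.KFR Pool.Agent.GMH.V3

/-! ### the states `5 t + j` -/

variable {X β γ φ : Type} [Fintype X] [Fintype β] [Fintype φ] [Nonempty X] [Nonempty β]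
  {D : HD (Fin 3) X β γ φ} {al : ℝ} {h : D.Thick al} {N : Finset (Fin 3) → ℝ} {SS : Finset (Finset (Fin 3))}
  {v : ℕ → Finset (Fin 3) → X → (Fin 3 → β) → Pt (Fin 3) X β φ}
  {dg : ℕ → X → ℝ} {prr : ℕ → Fin 3 → φ → φ} {T : ℕ} {Lam : ℝ}
  {t q : ℕ} {b c d : Fin 3} {w0 u w : Pt (Fin 3) X β φ}

/-- the class of the exact vertex at the state `q`, without the new cells of the other vertices: an event of (hidden point,
exact point of `b`) -/
def Vq (D : HD (Fin 3) X β γ φ) (v : ℕ → Finset (Fin 3) → X → (Fin 3 → β) → Pt (Fin 3) X β φ) (t q : ℕ) (b : Fin 3)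
    (w0 u : Pt (Fin 3) X β φ) : Prop :=
  clsb (Um v (t + 1)) (pub0 D t (Um v (t + 1)) w0) b w0 u ∧ (q % 5 ≠ 0 → D.qa (t + 1) u.1 = D.qa (t + 1) w0.1) ∧
    (2 ≤ q % 5 → v (t + 1) ∅ u.1 w0.2.1 = v (t + 1) ∅ w0.1 w0.2.1)

/-- the new cells of the other vertices -/
def Cq (D : HD (Fin 3) X β γ φ) (t q : ℕ) (c d : Fin 3) (w0 u : Pt (Fin 3) X β φ) : Prop :=
  q % 5 ≠ 0 → D.qb (t + 1) (u.2.1 c) = D.qb (t + 1) (w0.2.1 c) ∧ D.qb (t + 1) (u.2.1 d) = D.qb (t + 1) (w0.2.1 d)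

/-- the class of the exact vertex -/
theorem cl_iff : clsb (Um v (t + 1)) (pub0 D t (Um v (t + 1)) w0) b w0 u ↔
    (u.2.1 b = w0.2.1 b ∧ Um v (t + 1) {b} u.1 u.2.1 = Um v (t + 1) {b} w0.1 w0.2.1) ∧
      (Um v (t + 1) ∅ u.1 u.2.1 = Um v (t + 1) ∅ w0.1 w0.2.1 ∧ nd D t u = nd D t w0) := by
  unfold clsb pub0
  rw [Prod.mk.injEq, le_eq, BB_eq]
  constructor
  · rintro ⟨⟨h1, h2, h3, h4⟩, h5, h6⟩
    exact ⟨⟨h5, h6⟩, (LL_eq.1 (h1 ∅ (Finset.Subset.refl _))).1, Prod.ext h3 (funext h4)⟩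
  · rintro ⟨⟨h1, h2⟩, h3, h4⟩
    refine ⟨⟨fun I hI => ?_, fun j hj => absurd hj (Finset.notMem_empty j), congrArg Prod.fst h4,
      fun j => congrFun (congrArg Prod.snd h4) j⟩, h1, h2⟩
    rw [Finset.subset_empty.1 hI]
    exact (TriB.LL_thin (by unfold pth; simp)).2 h3

omit [Nonempty X] [Nonempty β] in
theorem nc_s (hq : q / 5 = t) (i : Fin 3) : nc q {i} = t + 1 := by
  have h1 : q = 5 * t + q % 5 := by omega
  rw [h1, nc_add _ _ (by unfold pth; simp) (by omega)]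
  unfold ncj
  have h2 : rk {i} = 4 := by
    have key : ∀ i : Fin 3, rk {i} = 4 := by decide
    exact key i
  rw [h2, if_neg (by omega), add_zero]

omit [Nonempty X] [Nonempty β] in
theorem nc_e (hq : q / 5 = t) : nc q ∅ = t + 1 + if 2 ≤ q % 5 then 1 else 0 := by
  have h1 : q = 5 * t + q % 5 := by omega
  have h2 : rk ∅ = 1 := by decide
  have h3 : nc (5 * t + q % 5) ∅ = ncj t (q % 5) ∅ := nc_add _ _ (by unfold pth; simp) (by omega)
  rw [← h1] at h3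
  rw [h3]
  unfold ncj
  rw [h2]
  rfl

omit [Nonempty X] [Nonempty β] in
theorem nn_e (hq : q / 5 = t) : TP.nn q = if q % 5 = 0 then t else t + 1 := by
  have h1 : q = 5 * t + q % 5 := by omega
  have h3 : TP.nn (5 * t + q % 5) = nnj t (q % 5) := nn_add _ _ (by omega)
  rw [← h1] at h3
  rw [h3]
  rfl

omit [Nonempty X] [Nonempty β] in
theorem nd_old (hab : nd D (t + 1) u = nd D (t + 1) w) : nd D t u = nd D t w :=
  Prod.ext (D.ra t _ _ (congrArg Prod.fst hab)) (funext fun j => D.rb t _ _ (congrFun (congrArg Prod.snd hab) j))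

/-- **the class at the state `q`** -/
theorem T_iff (hv : Codes D v) (hall : ∀ j, j = b ∨ j = c ∨ j = d) (hq : q / 5 = t) :
    (XLq v q b u = XLq v q b w0 ∧ NPq D v q u = NPq D v q w0) ↔ (Vq D v t q b w0 u ∧ Cq D t q c d w0 u) := by
  have hX : XLq v q b u = XLq v q b w0 ↔
      u.2.1 b = w0.2.1 b ∧ Um v (t + 1) {b} u.1 u.2.1 = Um v (t + 1) {b} w0.1 w0.2.1 := by
    unfold XLq XL
    rw [nc_s hq b, Prod.mk.injEq]
  have hN : NPq D v q u = NPq D v q w0 ↔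
      Um v (nc q ∅) ∅ u.1 u.2.1 = Um v (nc q ∅) ∅ w0.1 w0.2.1 ∧ nd D (TP.nn q) u = nd D (TP.nn q) w0 := by
    unfold NPq NP
    rw [Prod.mk.injEq]
  rw [hX, hN, nc_e hq, nn_e hq]
  unfold Vq Cq
  rw [cl_iff]
  by_cases h0 : q % 5 = 0
  · rw [if_neg (by omega), if_pos h0, add_zero]
    exact ⟨fun ⟨h1, h2⟩ => ⟨⟨⟨h1, h2⟩, fun h3 => absurd h0 h3, fun h3 => absurd h3 (by omega)⟩, fun h3 => absurd h0 h3⟩,
      fun ⟨⟨h1, _⟩, _⟩ => h1⟩
  · rw [if_neg h0]
    have hcell : ∀ {a e : Pt (Fin 3) X β φ}, nd D (t + 1) a = nd D (t + 1) e → ∀ j, D.qb (t + 1) (a.2.1 j) = D.qb (t + 1) (e.2.1 j) :=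
      fun hh j => congrFun (congrArg Prod.snd hh) j
    have hnd : (u.2.1 b = w0.2.1 b) → D.qa (t + 1) u.1 = D.qa (t + 1) w0.1 →
        (D.qb (t + 1) (u.2.1 c) = D.qb (t + 1) (w0.2.1 c) ∧ D.qb (t + 1) (u.2.1 d) = D.qb (t + 1) (w0.2.1 d)) →
        nd D (t + 1) u = nd D (t + 1) w0 := by
      intro h1 h2 h3
      refine Prod.ext h2 (funext fun j => ?_)
      rcases hall j with rfl | rfl | rfl
      · show D.qb (t + 1) (u.2.1 _) = D.qb (t + 1) (w0.2.1 _)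
        rw [h1]
      · exact h3.1
      · exact h3.2
    have hvv : nd D (t + 1) u = nd D (t + 1) w0 → v (t + 1) ∅ u.1 u.2.1 = v (t + 1) ∅ u.1 w0.2.1 := fun h1 =>
      hv (t + 1) ∅ u.1 u.2.1 w0.2.1 (fun j hj => absurd hj (Finset.notMem_empty j)) (hcell h1)
    by_cases h2 : 2 ≤ q % 5
    · rw [if_pos h2, Um_eq (t := t + 1) (I := ∅)]
      constructor
      · rintro ⟨g1, ⟨g2, g3⟩, g4⟩
        exact ⟨⟨⟨g1, g2, nd_old g4⟩, fun _ => congrArg Prod.fst g4, fun _ => (hvv g4).symm.trans g3⟩, fun _ =>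
          ⟨hcell g4 c, hcell g4 d⟩⟩
      · rintro ⟨⟨⟨g1, g2, _⟩, g4, g5⟩, g6⟩
        have g7 := hnd g1.1 (g4 h0) (g6 h0)
        exact ⟨g1, ⟨g2, (hvv g7).trans (g5 h2)⟩, g7⟩
    · rw [if_neg h2, add_zero]
      constructor
      · rintro ⟨g1, g2, g4⟩
        exact ⟨⟨⟨g1, g2, nd_old g4⟩, fun _ => congrArg Prod.fst g4, fun h3 => absurd h3 h2⟩, fun _ => ⟨hcell g4 c, hcell g4 d⟩⟩
      · rintro ⟨⟨⟨g1, g2, _⟩, g4, _⟩, g6⟩
        exact ⟨g1, g2, hnd g1.1 (g4 h0) (g6 h0)⟩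

omit [Nonempty X] [Nonempty β] in
/-- the thin labels inside the class -/
theorem Z_iff (hall : ∀ j, j = b ∨ j = c ∨ j = d) (hq : q / 5 = t) {a e : Pt (Fin 3) X β φ}
    (hX : XLq v q b a = XLq v q b e) (hN : NPq D v q a = NPq D v q e) :
    ZQ D v q a = ZQ D v q e ↔ (zf (Um v (t + 1)) c a, zf (Um v (t + 1)) d a) = (zf (Um v (t + 1)) c e, zf (Um v (t + 1)) d e) := by
  have hz : ∀ j (a : Pt (Fin 3) X β φ), XLq v q j a = zf (Um v (t + 1)) j a := by
    intro j a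
    unfold XLq XL zf
    rw [nc_s hq j]
  rw [KDL.ZQ_TH, ← hz c a, ← hz d a, ← hz c e, ← hz d e]
  constructor
  · rintro ⟨h1, _⟩
    exact Prod.ext (h1 c) (h1 d)
  · intro hh
    have h1 : XLq v q c a = XLq v q c e := congrArg Prod.fst hh
    have h2 : XLq v q d a = XLq v q d e := congrArg Prod.snd hh
    refine ⟨fun j => ?_, hN⟩
    rcases hall j with rfl | rfl | rfl
    · exact hX
    · exact h1
    · exact h2

/-! ### the distance in the class -/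

theorem D0_tvn {Om β' φ' : Type*} [Fintype Om] (P : FP Om) {Z : Om → β'} (F : Fin 3 → Om → φ') {w : Om} (hw : P.p w ≠ 0)
    (f : Fin 3 → φ') : tvn P Z F ∅ w f = D0 P F Z w := by
  unfold tvn D0
  refine Finset.sum_congr rfl fun g _ => ?_
  rw [ind_of (fun i hi => absurd hi (Finset.notMem_empty i)), one_mul, pS_empty P F hw, one_mul, Finset.sdiff_empty]

theorem D0_push {Om Om' ζ ζ' φ' φ'' : Type*} [Fintype Om] [Fintype Om'] {P : FP Om} {P' : FP Om'} {π : Om → Om'} {Z : Om → ζ}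
    {Z' : Om' → ζ'} {F : Fin 3 → Om → φ'} {F' : Fin 3 → Om' → φ''} (H : Rnm P P' π Z Z' F F') {w : Om} (hw : P.p w ≠ 0) :
    D0 P F Z w = D0 P' F' Z' (π w) := by
  rw [← D0_tvn P F hw (tup F w), ← D0_tvn P' F' (H.pul.ne hw) (tup F' (π w))]
  exact tvn_push H hw ∅

theorem Ib_Vq (B : Bk h N SS (Um v (t + 1)) t b c d) (hw0 : (D.P h t).p w0 ≠ 0) :
    Ib h (Um v (t + 1)) t b w0 (Vq D v t q b w0) where
  fac := fun u w e => by
    have h1 : clsb (Um v (t + 1)) (pub0 D t (Um v (t + 1)) w0) b w0 u =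
        clsb (Um v (t + 1)) (pub0 D t (Um v (t + 1)) w0) b w0 w := clsb_Ah B.dep (pub0_C w0) B.oth u w e
    have h2 : u.1 = w.1 := (Prod.mk.inj (show (u.1, BB D t {b} u) = (w.1, BB D t {b} w) from e)).1
    show (_ ∧ _) = (_ ∧ _)
    rw [h1, h2]
  self := ⟨⟨rfl, rfl, rfl⟩, fun _ => rfl, fun _ => rfl⟩
  supp := hw0
  sub := fun _ hv => hv.1

/-- **the tables of the state are the tables of the event** -/
theorem D0_V (H : D.Hyp dg prr al T Lam) (R : Run h N SS (AdmDep D) v) (hS : ∀ l, univ.erase l ∈ SS) (hu : univ ∉ SS)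
    (hN : ∀ l, 0 < N (univ.erase l)) (hall : ∀ j, j = b ∨ j = c ∨ j = d) (ht : t ≤ T) (hq : q / 5 = t)
    (hp : (D.P h t).p u ≠ 0) (hX : XLq v q b u = XLq v q b w0) (hNP : NPq D v q u = NPq D v q w0) :
    D0 (D.P h t) (FQ v t) (ZQ D v q) u = D0 ((D.P h t).cond (Vq D v t q b w0)) (fun i w => w.2.2 i)
      (fun w => (zf (Um v (t + 1)) c w, zf (Um v (t + 1)) d w)) u ∧
    ∀ i0, D0 (D.P h t) (Fo (FQ v t) i0) (ZQ D v q) u = D0 ((D.P h t).cond (Vq D v t q b w0)) (Fo (fun i w => w.2.2 i) i0)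
      (fun w => (zf (Um v (t + 1)) c w, zf (Um v (t + 1)) d w)) u := by
  classical
  have hv := R.codes
  set P := D.P h t with hP
  set T' : Pt (Fin 3) X β φ → Prop := fun a => XLq v q b a = XLq v q b w0 ∧ NPq D v q a = NPq D v q w0 with hT'
  set Z' : Pt (Fin 3) X β φ → (β × List (Pt (Fin 3) X β φ)) × (β × List (Pt (Fin 3) X β φ)) :=
    fun w => (zf (Um v (t + 1)) c w, zf (Um v (t + 1)) d w) with hZ'
  have hTu : T' u := ⟨hX, hNP⟩
  have hT0 : P.Pr T' ≠ 0 := (FP.Pr_pos_of (S := T') hp hTu).ne'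
  have hTf : Fac (ZQ D v q) T' := fun a e hae => by
    obtain ⟨h1, h2⟩ := KDL.ZQ_TH.1 hae
    show (XLq v q b a = XLq v q b w0 ∧ NPq D v q a = NPq D v q w0) = (XLq v q b e = XLq v q b w0 ∧ NPq D v q e = NPq D v q w0)
    rw [h1 b, h2]
  have hpT : (P.cond T').p u ≠ 0 := (FP.cond_p_ne hT0).2 ⟨hTu, hp⟩
  -- the event
  set V : Pt (Fin 3) X β φ → Prop := Vq D v t q b w0 with hV
  have hTV : ∀ a, T' a ↔ (V a ∧ Cq D t q c d w0 a) := fun a => T_iff hv hall hq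
  have hV0 : P.Pr V ≠ 0 := (FP.Pr_pos_of (S := V) hp ((hTV u).1 hTu).1).ne'
  have hCf : Fac Z' (Cq D t q c d w0) := fun a e hae => by
    have h1 : a.2.1 c = e.2.1 c := congrArg (fun z => z.1.1) hae
    have h2 : a.2.1 d = e.2.1 d := congrArg (fun z => z.2.1) hae
    show (q % 5 ≠ 0 → _ ∧ _) = (q % 5 ≠ 0 → _ ∧ _)
    rw [h1, h2]
  have e0 : (fun a => V a ∧ Cq D t q c d w0 a) = T' := funext fun a => propext (hTV a).symm
  have hcc : (P.cond V).cond (Cq D t q c d w0) = P.cond T' := by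
    rw [FP.cond_cond (by rw [e0]; exact hT0), e0]
  have hC0 : (P.cond V).Pr (Cq D t q c d w0) ≠ 0 := by
    have h1 : (P.cond V).p u ≠ 0 := (FP.cond_p_ne hV0).2 ⟨((hTV u).1 hTu).1, hp⟩
    exact (FP.Pr_pos_of (S := Cq D t q c d w0) h1 ((hTV u).1 hTu).2).ne'
  -- the renaming
  have hR : Rnm (P.cond T') (P.cond T') id (ZQ D v q) Z' (FQ v t) (fun i w => w.2.2 i) := by
    refine ⟨⟨fun _ => rfl⟩, fun a e ha he => ?_, fun i a e ha he hae => ?_⟩
    · obtain ⟨a1, _⟩ := cond_supp hT0 ha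
      obtain ⟨e1, _⟩ := cond_supp hT0 he
      exact Z_iff hall hq (a1.1.trans e1.1.symm) (a1.2.trans e1.2.symm)
    · obtain ⟨_, a2⟩ := cond_supp hT0 ha
      obtain ⟨_, e2⟩ := cond_supp hT0 he
      exact top_name H R hS hu hN ht (by omega) a2 e2 (ZQ_Zb q i _ _ hae)
  have key : ∀ {φ1 φ2 : Type} (F1 : Fin 3 → Pt (Fin 3) X β φ → φ1) (F2 : Fin 3 → Pt (Fin 3) X β φ → φ2),
      Rnm (P.cond T') (P.cond T') id (ZQ D v q) Z' F1 F2 → D0 P F1 (ZQ D v q) u = D0 (P.cond V) F2 Z' u := by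
    intro φ1 φ2 F1 F2 hR
    have a1 : D0 (P.cond T') F1 (ZQ D v q) u = D0 P F1 (ZQ D v q) u := D0_cond F1 hT0 hTf hTu
    have a2 : D0 (P.cond T') F1 (ZQ D v q) u = D0 (P.cond T') F2 Z' u := D0_push hR hpT
    have a3 : D0 ((P.cond V).cond (Cq D t q c d w0)) F2 Z' u = D0 (P.cond V) F2 Z' u :=
      D0_cond F2 hC0 hCf ((hTV u).1 hTu).2
    rw [hcc] at a3
    exact a1.symm.trans (a2.trans a3)
  exact ⟨key _ _ hR, fun i0 => key _ _ (hR.two i0)⟩


/-- the distance at the tables of the state `q`: three tops, or the two tops which see the vertex `i0` -/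
def Dq (h : D.Thick al) (v : ℕ → Finset (Fin 3) → X → (Fin 3 → β) → Pt (Fin 3) X β φ) (t q : ℕ) (o : Option (Fin 3))
    (p : Pt (Fin 3) X β φ) : ℝ :=
  match o with
  | Option.none => D0 (D.P h t) (FQ v t) (ZQ D v q) p
  | Option.some i0 => D0 (D.P h t) (Fo (FQ v t) i0) (ZQ D v q) p

end state

section run

open Pool.Agent.GMH.RarX Pool.Agent.GMH.TP Pool.Agent.GMH.KFR Pool.Agent.GMH.V3 Pool.Agent.GMH.TD Pool.Agent.GMH.Dy
open Pool.Agent.GMH.MVI Pool.Agent.GMH.MVIp Pool.Agent.GMH.GamR Pool.Agent.GMH.RarC Pool.Agent.GMH.KF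

/-! ### the class mass -/

variable {X β γ φ : Type} [Fintype X] [Fintype β] [Fintype φ] [Nonempty X] [Nonempty β]
  {D : HD (Fin 3) X β γ φ} {al : ℝ} {h : D.Thick al}
  {v : ℕ → Finset (Fin 3) → X → (Fin 3 → β) → Pt (Fin 3) X β φ}
  {dg : ℕ → X → ℝ} {prr : ℕ → Fin 3 → φ → φ} {T : ℕ} {Lam : ℝ}
  {t q : ℕ} {b c d : Fin 3} {W : Type} [Fintype W] (tb : Tab D prr T W)

/-- **THE CLASS MASS OF THE FAR TUPLES** at the exact vertex `b`, state `q` of the level `t` : `A` any event inside the typical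
letters of `c`, `d` and the far tuples (three tops, or two tops) -/
theorem r0_cls {n N1 : ℝ} (hn : 1 ≤ n) (hN1 : 1 ≤ N1) (H : D.Hyp dg prr al T Lam)
    (R : Run h (pr3 (Fin 3) n N1) (SS1 (Fin 3)) (AdmDep D) v) (hbc : b ≠ c) (hbd : b ≠ d) (hcd : c ≠ d)
    (hq : q / 5 = t) (ht : t ≤ T) (htT : q % 5 ≠ 0 → t < T) {Typ : β → List (Pt (Fin 3) X β φ) → Prop} {M R0 ep : ℝ} {k : ℕ}
    (hM : ∀ c', ∃ s : Finset (List (Pt (Fin 3) X β φ)), (s.card : ℝ) ≤ M ∧ ∀ u, Typ c' u → u ∈ s)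
    {x : Om W X β} (hx : tb.Ps.p x ≠ 0) {L Lo : ℝ} (K : RarC.Cst n al M R0 ep k L)
    (hL : Real.log (tb.Ps.m (XN tb v b (5 * t)) x / tb.Ps.m (XN tb v b q) x) ≤ L)
    (hLo : Real.log (tb.Ps.m (RarC.yN tb v b t) x / tb.Ps.m (XN tb v b (5 * t)) x) + L ≤ Lo)
    {e : ℝ} (he : 0 < e) {o : Option (Fin 3)} {A : Om W X β → Prop}
    (hA : ∀ a, tb.Ps.p a ≠ 0 → XN tb v b q a = XN tb v b q x → A a →
      (Typ (a.2.2 c) (Um v (t + 1) {c} a.1 a.2.2) ∧ Typ (a.2.2 d) (Um v (t + 1) {d} a.1 a.2.2)) ∧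
      2 * e ≤ Dq h v t q o (tb.pt t a)) :
    tb.Ps.ce (XN tb v b q) (fun a => ind (A a)) x ≤ 2 * RarC.ELr n N1 al M R0 ep k L Lo / e ^ 2 := by
  classical
  have hv := R.codes
  have B := RarC.bkR (h := h) hn hN1 R hbc hbd hcd t
  have H0 : Pul tb.Ps (D.P h t) (tb.pt t) := pul_pt h tb ht
  have hp0 : (D.P h t).p (tb.pt t x) ≠ 0 := H0.ne hx
  set p0 : Pt (Fin 3) X β φ := tb.pt t x with hp0d
  set U := Um v (t + 1) with hU
  have I := Ib_Vq (q := q) B hp0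
  -- the class, the event, the cells
  set V1 : Pt (Fin 3) X β φ → Prop := Vq D v t q b p0 with hV1
  set V : Om W X β → Prop := fun a => V1 (tb.pt t a) with hV
  set C1 : Om W X β → Prop := fun a => Cq D t q c d p0 (tb.pt t a) with hC1
  have dec : ∀ a, XN tb v b q a = XN tb v b q x ↔ V a ∧ C1 a := by
    intro a
    have h1 := T_iff (u := tb.pt t a) (w0 := p0) hv B.all hq
    refine Iff.trans ?_ h1
    show (XLo tb v b q a, NPo tb v q a) = (XLo tb v b q x, NPo tb v q x) ↔ _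
    rw [Prod.mk.injEq]
    exact Iff.rfl
  have hVx : V x := ((dec x).1 rfl).1
  have hb : ∀ a, V a → a.2.2 b = x.2.2 b := fun a ha => ha.1.2.1
  have sV : ∀ a, V a → XN tb v b (5 * t) a = XN tb v b (5 * t) x := by
    intro a ha
    rw [RarC.XN_clm, clm_iff]
    exact ha.1
  have fV : Fac (sgt (W := W) D {b} t) V := fun a a' e' => by
    obtain ⟨g1, g2, g3⟩ := sgt_eq.1 e'
    refine I.fac (tb.pt t a) (tb.pt t a') ?_
    show ((tb.pt t a).1, BB D t {b} (tb.pt t a)) = ((tb.pt t a').1, BB D t {b} (tb.pt t a'))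
    exact Prod.ext g1 (BB_eq.2 ⟨g2, congrArg (D.qa t) g1, g3⟩)
  have hm0 : 0 < tb.Ps.m (XN tb v b (5 * t)) x := tb.Ps.m_pos _ hx
  have hmq : 0 < tb.Ps.m (XN tb v b q) x := tb.Ps.m_pos _ hx
  have hVp : 0 < tb.Ps.Pr V := FP.Pr_pos_of (S := V) hx hVx
  have hVq : tb.Ps.m (XN tb v b q) x ≤ tb.Ps.Pr V := tb.Ps.Pr_mono fun a _ ha => ((dec a).1 ha).1
  -- the cells
  have h4 : tb.Ps.Pr V ≤ 4 * tb.Ps.m (XN tb v b q) x := by
    by_cases h0 : q % 5 = 0
    · have h1 : tb.Ps.Pr V ≤ tb.Ps.m (XN tb v b q) x :=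
        tb.Ps.Pr_mono fun a _ ha => (dec a).2 ⟨ha, fun h2 => absurd h0 h2⟩
      linarith
    · have htl := htT h0
      have i1 := RarC.halve tb x hx fV sV
      have h1 := sgt_half tb H {b} htl hx
      have h2 : ({b} : Finset (Fin 3))ᶜ.card = 2 := by
        rw [Finset.card_compl, Finset.card_singleton]
        rfl
      rw [h2] at h1
      have m0 := tb.Ps.m_pos (sgt D {b} t) hx
      have m1 := tb.Ps.m_pos (sgt D {b} (t + 1)) hx
      have h3 : tb.Ps.Pr (fun u => V u ∧ ∀ l, D.qb (t + 1) (u.2.2 l) = D.qb (t + 1) (x.2.2 l)) ≤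
          tb.Ps.m (XN tb v b q) x :=
        tb.Ps.Pr_mono fun a _ ha => (dec a).2 ⟨ha.1, fun _ => ⟨ha.2 c, ha.2 d⟩⟩
      have h5 : tb.Ps.m (sgt D {b} (t + 1)) x * tb.Ps.Pr V ≤ tb.Ps.m (sgt D {b} (t + 1)) x * (4 * tb.Ps.m (XN tb v b q) x) := by
        rw [← i1]
        refine (mul_le_mul h3 h1 m0.le hmq.le).trans (le_of_eq ?_)
        ring
      exact le_of_mul_le_mul_left h5 m1
  -- the surprises
  obtain ⟨o1, o2⟩ := RarC.QC_of (h := h) tb hv B ht hx fV hVx sV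
  have eV1 : (fun p : Pt (Fin 3) X β φ => V (p.1, x.2.1, p.2.1)) = V1 := by
    funext p
    exact I.fac _ _ rfl
  rw [eV1] at o2
  have hL1 : Real.log (1 / (QC h U t b p0).Pr V1) ≤ L := by
    rw [o2]
    exact (Real.log_le_log (div_pos hm0 hVp) (div_le_div_of_nonneg_left hm0.le hmq hVq)).trans hL
  have hLo1 : Real.log (1 / own h t U (pub0 D t U p0) b p0) + L ≤ Lo := by
    rw [o1]
    exact hLo
  have k0 := r0_V (Typ := Typ) (M := M) (L := L) (Lo := Lo) B I hM hL1 hLo1 K.hk K.hep K.hep2 K.hR0 K.hR1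
    (by rw [RarC.half_pr hN1 b d]; exact K.hkL) he
  set θ := (kP2 (pr3 (Fin 3) n N1) al M R0 ep k b d L Lo + kP3 (pr3 (Fin 3) n N1) al b c d Lo) / (2 * e ^ 2) with hθ
  -- the relation in the event
  set F2 : Option (Fin 3) → Pt (Fin 3) X β φ → ℝ := fun o p => match o with
    | Option.none => D0 ((D.P h t).cond V1) (fun i w => w.2.2 i) (fun w => (zf U c w, zf U d w)) p
    | Option.some i0 => D0 ((D.P h t).cond V1) (Fo (fun i w => w.2.2 i) i0) (fun w => (zf U c w, zf U d w)) p with hF2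
  set G : Pt (Fin 3) X β φ → Prop := fun w => (Typ (w.2.1 c) (U {c} w.1 w.2.1) ∧ Typ (w.2.1 d) (U {d} w.1 w.2.1)) ∧
    2 * e ≤ F2 o w with hG
  have k1 : ((D.P h t).cond V1).Pr G ≤ θ := by
    cases o with
    | none => exact k0.1
    | some i0 => exact k0.2 i0
  have hAG : ∀ a, tb.Ps.p a ≠ 0 → XN tb v b q a = XN tb v b q x → A a → G (tb.pt t a) := by
    intro a ha hax hAa
    obtain ⟨g1, g2⟩ := hA a ha hax hAa
    have hXN := (T_iff (u := tb.pt t a) (w0 := p0) hv B.all hq).2 ((dec a).1 hax)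
    have g3 := D0_V (w0 := p0) H R (fun l => mem_SS1.2 (ne_univ l)) (fun hh => (mem_SS1.1 hh) rfl)
      (fun l => zero_lt_one.trans_le (pr3_one hn hN1 _)) B.all ht hq (H0.ne ha) hXN.1 hXN.2
    refine ⟨g1, ?_⟩
    refine g2.trans (le_of_eq ?_)
    cases o with
    | none => exact g3.1
    | some i0 => exact g3.2 i0
  have hV10 : (D.P h t).Pr V1 ≠ 0 := I.ne
  have k2 : tb.Ps.Pr (fun a => XN tb v b q a = XN tb v b q x ∧ A a) ≤ θ * tb.Ps.Pr V := by
    have k3 : tb.Ps.Pr (fun a => XN tb v b q a = XN tb v b q x ∧ A a) ≤ tb.Ps.Pr (fun a => V1 (tb.pt t a) ∧ G (tb.pt t a)) :=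
      tb.Ps.Pr_mono fun a ha hh => ⟨((dec a).1 hh.1).1, hAG a ha hh.1 hh.2⟩
    have k4 : tb.Ps.Pr (fun a => V1 (tb.pt t a) ∧ G (tb.pt t a)) = (D.P h t).Pr (fun p => V1 p ∧ G p) :=
      H0.Pr (fun p => V1 p ∧ G p)
    have k5 : tb.Ps.Pr V = (D.P h t).Pr V1 := H0.Pr V1
    have k6 : (D.P h t).Pr (fun p => V1 p ∧ G p) = ((D.P h t).cond V1).Pr G * (D.P h t).Pr V1 := by
      rw [RarC.cond_pr hV10, div_mul_cancel₀ _ hV10]
    rw [k5]
    refine k3.trans ?_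
    rw [k4, k6]
    exact mul_le_mul_of_nonneg_right k1 ((D.P h t).Pr_nonneg _)
  have hθ0 : 0 ≤ θ := (((D.P h t).cond V1).Pr_nonneg G).trans k1
  rw [RarC.ce_ind, div_le_iff₀ hmq]
  refine k2.trans ((mul_le_mul_of_nonneg_left h4 hθ0).trans ?_)
  -- the prices
  have hb1 : Lb h U t b p0 V1 ≤ Lo := by rw [Lb_eq B I]; linarith
  have n2 : 0 ≤ kP2 (pr3 (Fin 3) n N1) al M R0 ep k b c L Lo := by
    refine le_trans ?_ (pX_le (Typ := Typ) B.swap I hM hL1 hLo1 K.hk K.hep K.hep2 K.hR0 K.hR1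
      (by rw [RarC.half_pr hN1 b c]; exact K.hkL))
    exact add_nonneg (Pool.Agent.GMH.klc_nonneg I.acC _ _) (FP.I_nonneg _ _ _ _)
  have n4 : 0 ≤ klet (pr3 (Fin 3) n N1) al M c Lo :=
    le_trans (Pool.Agent.GMH.klc_nonneg I.acB _ _) (pC_le (Typ := Typ) B I K.hM0 hb1)
  have n5 : 0 ≤ klet (pr3 (Fin 3) n N1) al M d Lo :=
    le_trans (Pool.Agent.GMH.klc_nonneg I.acB _ _) (pC_le (Typ := Typ) B.swap I K.hM0 hb1)
  have hθE : 4 * θ ≤ 2 * RarC.ELr n N1 al M R0 ep k L Lo / e ^ 2 := by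
    rw [← RarC.EL_eq hN1 b c d, hθ]
    have e1 : 4 * ((kP2 (pr3 (Fin 3) n N1) al M R0 ep k b d L Lo + kP3 (pr3 (Fin 3) n N1) al b c d Lo) / (2 * e ^ 2)) =
        2 * (kP2 (pr3 (Fin 3) n N1) al M R0 ep k b d L Lo + kP3 (pr3 (Fin 3) n N1) al b c d Lo) / e ^ 2 := by
      field_simp
      ring
    rw [e1]
    refine div_le_div_of_nonneg_right ?_ (by positivity)
    unfold EL
    linarith
  nlinarith [mul_le_mul_of_nonneg_right hθE hmq.le]

/-! ### alive tuples -/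

/-- the kind `R0` of the three tops -/
theorem kv1_iff3 (c0 : KC) (o : Option (Fin 3)) (hT : q / 5 ≤ T) {a : Om W X β} (ha : tb.Ps.p a ≠ 0) :
    kvq3 h v tb c0 1 o q a ↔ 2 * c0.e1 ≤ Dq h v (q / 5) q Option.none (tb.pt (q / 5) a) := by
  have hp := (pul_pt h tb hT).ne ha
  have h1 := Ap1_iff (D.P h (q / 5)) (FQ v (q / 5)) (Z := ZQ D v q) c0 hp (tup (FQ v (q / 5)) (tb.pt (q / 5) a))
  unfold kvq3 kvF kv0F
  rw [if_neg (by decide)]
  exact ⟨fun hh => h1.1 hh.1, fun hh => ⟨h1.2 hh, fun h2 => absurd h2 (by decide), fun h2 => absurd h2 (by decide)⟩⟩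

/-- the kind `R0` of the two tops which see the vertex `i` -/
theorem kv1_iff2 (c0 : KC) (i : Fin 3) (o : Option (Fin 3)) (hT : q / 5 ≤ T) {a : Om W X β} (ha : tb.Ps.p a ≠ 0) :
    kvq2 h v tb c0 i 1 o q a ↔ 2 * c0.e1 ≤ Dq h v (q / 5) q (Option.some i) (tb.pt (q / 5) a) := by
  have hp := (pul_pt h tb hT).ne ha
  have h1 := Ap1_iff (D.P h (q / 5)) (Fo (FQ v (q / 5)) i) (Z := ZQ D v q) c0 hp
    (tup (Fo (FQ v (q / 5)) i) (tb.pt (q / 5) a))
  unfold kvq2 kvF kv0F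
  rw [if_neg (by decide)]
  exact ⟨fun hh => h1.1 hh.1, fun hh => ⟨h1.2 hh, fun h2 => absurd h2 (by decide), fun h2 => absurd h2 (by decide)⟩⟩

theorem XN_mono' (b : Fin 3) (hq : q / 5 = t) : Fac (XN tb v b q) (XN tb v b (5 * t)) := XN_mono tb b (by omega)

/-- the ratio of the classes is at least one -/
theorem ratio_nn (b : Fin 3) (hq : q / 5 = t) {x : Om W X β} (hx : tb.Ps.p x ≠ 0) :
    0 ≤ Real.log (tb.Ps.m (XN tb v b (5 * t)) x / tb.Ps.m (XN tb v b q) x) := by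
  have h1 := tb.Ps.m_pos (XN tb v b q) hx
  refine Real.log_nonneg ((one_le_div h1).2 ?_)
  exact tb.Ps.E_mono fun u _ => ind_mono fun e => XN_mono' tb b hq u x e

/-- **CLASS MASS OF `R0` AT THE EXACT VERTEX**, state `q` of the level `t`, alive tuples -/
theorem r0_x {n N1 : ℝ} (hn : 1 ≤ n) (hN1 : 1 ≤ N1) (H : D.Hyp dg prr al T Lam)
    (R : Run h (pr3 (Fin 3) n N1) (SS1 (Fin 3)) (AdmDep D) v) (b : Fin 3)
    (hq : q / 5 = t) (ht : t ≤ T) (htT : q % 5 ≠ 0 → t < T) {p : V3.AP} (hX0 : 0 ≤ p.X0) {R0 ep : ℝ} {k : ℕ}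
    {x : Om W X β} (hx : tb.Ps.p x ≠ 0) {L : ℝ} (K : Cst n al (3 * Real.exp p.X0) R0 ep k L)
    (hL : Real.log (tb.Ps.m (XN tb v b (5 * t)) x / tb.Ps.m (XN tb v b q) x) ≤ L)
    {e : ℝ} (he : 0 < e) {o : Option (Fin 3)} {A : Om W X β → Prop} (hal : ∀ a, A a → Alv h v tb p q a)
    (hfar : ∀ a, tb.Ps.p a ≠ 0 → A a → 2 * e ≤ Dq h v t q o (tb.pt t a)) :
    tb.Ps.ce (XN tb v b q) (fun a => ind (A a)) x ≤ 2 * ELr n N1 al (3 * Real.exp p.X0) R0 ep k L (p.X0 + L) / e ^ 2 := by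
  classical
  obtain ⟨c, d, hbc, hbd, hcd⟩ : ∃ c d : Fin 3, b ≠ c ∧ b ≠ d ∧ c ≠ d := by
    have key : ∀ b : Fin 3, ∃ c d : Fin 3, b ≠ c ∧ b ≠ d ∧ c ≠ d := by decide
    exact key b
  have hL0 : 0 ≤ L := (ratio_nn tb b hq hx).trans hL
  by_cases hex : ∃ a, tb.Ps.p a ≠ 0 ∧ XN tb v b q a = XN tb v b q x ∧ A a
  · obtain ⟨a0, ha0, hax, hAa⟩ := hex
    -- the own letter is alive
    have h1 := hal a0 hAa (5 * t) (by omega)
    rw [show 5 * t / 5 = t by omega] at h1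
    have h2 := own_X0 (h := h) (tb := tb) ht ha0 (h1.1 b)
    have e5 : XN tb v b (5 * t) a0 = XN tb v b (5 * t) x := XN_mono' tb b hq a0 x hax
    have m1 : tb.Ps.m (XN tb v b (5 * t)) a0 = tb.Ps.m (XN tb v b (5 * t)) x := tb.Ps.Fac_m (XN tb v b (5 * t)) a0 x e5
    have m2 : tb.Ps.m (yN tb v b t) a0 = tb.Ps.m (yN tb v b t) x :=
      tb.Ps.Fac_m (yN tb v b t) a0 x (XN_yN tb b t a0 x e5)
    rw [m1, m2] at h2
    refine r0_cls (h := h) tb hn hN1 H R hbc hbd hcd hq ht htT (RarN.TyC_card h v t p.X0 (tb.pt t x)) hx K hL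
      (by linarith) he (o := o) fun a ha hax hAa => ⟨?_, hfar a ha hAa⟩
    have h1 := hal a hAa (5 * t) (by omega)
    rw [show 5 * t / 5 = t by omega] at h1
    have h2 : NPq D v (5 * t) (tb.pt t a) = NPq D v (5 * t) (tb.pt t x) :=
      congrArg Prod.snd (XN_mono' tb b hq a x hax)
    have h3 := (pul_pt h tb ht).ne ha
    exact ⟨⟨c, tb.pt t a, h3, h2, rfl, rfl, h1.1 c⟩, ⟨d, tb.pt t a, h3, h2, rfl, rfl, h1.1 d⟩⟩
  · have h0 : tb.Ps.ce (XN tb v b q) (fun a => ind (A a)) x = 0 := by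
      rw [ce_ind]
      have : tb.Ps.Pr (fun u => XN tb v b q u = XN tb v b q x ∧ A u) = 0 := by
        unfold FP.Pr
        rw [tb.Ps.E_congr (g := fun _ => 0) fun u hu => ind_not fun hh => hex ⟨u, hu, hh.1, hh.2⟩, tb.Ps.E_const]
      rw [this, zero_div]
    rw [h0]
    have := ELr_nn (n := n) (N1 := N1) (M := 3 * Real.exp p.X0) (R0 := R0) (ep := ep) (k := k) (L := L) (Lo := p.X0 + L) h hn hN1
      K.hM0 K.hep hL0 (by linarith)
    positivity

/-! ### the node -/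

/-- the share of the small classes of one vertex in the public class -/
theorem small_cls (b : Fin 3) (hq : q / 5 = t) (w : Om W X β) (L : ℝ) :
    tb.Ps.Pr (fun u => NPo tb v q u = NPo tb v q w ∧
      Real.exp L * tb.Ps.m (XN tb v b q) u < tb.Ps.m (XN tb v b (5 * t)) u) ≤
      Real.exp (-L) * tb.Ps.m (NPo tb v (5 * t)) w := by
  classical
  set bad : Om W X β → Prop := fun u => NPo tb v q u = NPo tb v q w ∧
    Real.exp L * tb.Ps.m (XN tb v b q) u < tb.Ps.m (XN tb v b (5 * t)) u with hbad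
  have hN5 : ∀ u u', NPo tb v q u = NPo tb v q u' → NPo tb v (5 * t) u = NPo tb v (5 * t) u' := fun u u' e =>
    RarN.NPo_mono tb (show 5 * t ≤ q by omega) e
  show tb.Ps.E (fun u => ind (bad u)) ≤ Real.exp (-L) * tb.Ps.E (fun u => ind (NPo tb v (5 * t) u = NPo tb v (5 * t) w))
  rw [← tb.Ps.E_ce (XN tb v b (5 * t)) (fun u => ind (bad u)), ← tb.Ps.E_smul]
  refine tb.Ps.E_mono fun u hu => ?_
  by_cases hex : ∃ a, tb.Ps.p a ≠ 0 ∧ XN tb v b (5 * t) a = XN tb v b (5 * t) u ∧ bad a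
  · obtain ⟨a, ha, hau, hb1, hb2⟩ := hex
    have e1 : NPo tb v (5 * t) u = NPo tb v (5 * t) w :=
      (congrArg Prod.snd hau).symm.trans (hN5 a w hb1)
    rw [ind_of e1, mul_one, ce_ind]
    have m1 : tb.Ps.m (XN tb v b (5 * t)) a = tb.Ps.m (XN tb v b (5 * t)) u := tb.Ps.Fac_m (XN tb v b (5 * t)) a u hau
    have p1 := tb.Ps.m_pos (XN tb v b (5 * t)) hu
    rw [div_le_iff₀ p1]
    have h3 : tb.Ps.Pr (fun z => XN tb v b (5 * t) z = XN tb v b (5 * t) u ∧ bad z) ≤ tb.Ps.m (XN tb v b q) a := by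
      refine tb.Ps.Pr_mono fun z _ hz => ?_
      have z1 : XN tb v b (5 * t) z = XN tb v b (5 * t) a := hz.1.trans hau.symm
      have z2 : XLo tb v b (5 * t) z = XLo tb v b (5 * t) a := congrArg Prod.fst z1
      have z3 : (z.2.2 b, Um v (TP.nc (5 * t) {b}) {b} z.1 z.2.2) = (a.2.2 b, Um v (TP.nc (5 * t) {b}) {b} a.1 a.2.2) := z2
      rw [GamR.nc5] at z3
      refine Prod.ext ?_ (hz.2.1.trans hb1.symm)
      show (z.2.2 b, Um v (TP.nc q {b}) {b} z.1 z.2.2) = (a.2.2 b, Um v (TP.nc q {b}) {b} a.1 a.2.2)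
      rw [nc_s hq b]
      exact z3
    rw [m1] at hb2
    have h4 : Real.exp (-L) * (Real.exp L * tb.Ps.m (XN tb v b q) a) < Real.exp (-L) * tb.Ps.m (XN tb v b (5 * t)) u :=
      mul_lt_mul_of_pos_left hb2 (Real.exp_pos _)
    rw [← mul_assoc, ← Real.exp_add, neg_add_cancel, Real.exp_zero, one_mul] at h4
    exact h3.trans h4.le
  · have h0 : tb.Ps.ce (XN tb v b (5 * t)) (fun a => ind (bad a)) u = 0 := by
      rw [ce_ind]
      have : tb.Ps.Pr (fun z => XN tb v b (5 * t) z = XN tb v b (5 * t) u ∧ bad z) = 0 := by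
        unfold FP.Pr
        rw [tb.Ps.E_congr (g := fun _ => 0) fun z hz => ind_not fun hh => hex ⟨z, hz, hh.1, hh.2⟩, tb.Ps.E_const]
      rw [this, zero_div]
    rw [h0]
    exact mul_nonneg (Real.exp_pos _).le (ind_nonneg _)

/-- **CLASS MASS OF `R0` AT THE NODE**, state `q` of the level `t`, alive tuples -/
theorem r0_n {n N1 : ℝ} (hn : 1 ≤ n) (hN1 : 1 ≤ N1) (H : D.Hyp dg prr al T Lam)
    (R : Run h (pr3 (Fin 3) n N1) (SS1 (Fin 3)) (AdmDep D) v) (hq : q / 5 = t) (ht : t ≤ T) (htT : q % 5 ≠ 0 → t < T)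
    {p : V3.AP} (hX0 : 0 ≤ p.X0) {R0 ep : ℝ} {k : ℕ} {x : Om W X β} (hx : tb.Ps.p x ≠ 0) {L lw : ℝ} (hL : 0 ≤ L)
    (K : Cst n al (3 * Real.exp p.X0) R0 ep k L)
    (hlw : Real.exp (-lw) * tb.Ps.m (NPo tb v (5 * t)) x ≤ tb.Ps.m (NPo tb v q) x)
    {e : ℝ} (he : 0 < e) {o : Option (Fin 3)} {A : Om W X β → Prop} (hal : ∀ a, A a → Alv h v tb p q a)
    (hfar : ∀ a, tb.Ps.p a ≠ 0 → A a → 2 * e ≤ Dq h v t q o (tb.pt t a)) :
    tb.Ps.ce (NPo tb v q) (fun a => ind (A a)) x ≤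
      2 * ELr n N1 al (3 * Real.exp p.X0) R0 ep k L (p.X0 + L) / e ^ 2 + Real.exp (lw - L) := by
  classical
  set θ := 2 * ELr n N1 al (3 * Real.exp p.X0) R0 ep k L (p.X0 + L) / e ^ 2 with hθ
  have hθ0 : 0 ≤ θ := by
    have := ELr_nn (n := n) (N1 := N1) (M := 3 * Real.exp p.X0) (R0 := R0) (ep := ep) (k := k) (L := L) (Lo := p.X0 + L) h hn hN1
      K.hM0 K.hep hL (by linarith)
    positivity
  have hm := tb.Ps.m_pos (NPo tb v q) hx
  have hF : Fac (XN tb v 0 q) (NPo tb v q) := fun u u' e' => congrArg Prod.snd e'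
  set bad : Om W X β → Prop := fun u => Real.exp L * tb.Ps.m (XN tb v 0 q) u < tb.Ps.m (XN tb v 0 (5 * t)) u with hbad
  rw [ce_ind, div_le_iff₀ hm]
  have h1 : tb.Ps.Pr (fun u => NPo tb v q u = NPo tb v q x ∧ A u) =
      tb.Ps.E (fun u => ind (NPo tb v q u = NPo tb v q x) * tb.Ps.ce (XN tb v 0 q) (fun a => ind (A a)) u) := by
    rw [tb.Ps.E_mul_ce (h := fun u => ind (NPo tb v q u = NPo tb v q x)) (fun u u' e' => by
      show ind (NPo tb v q u = NPo tb v q x) = ind (NPo tb v q u' = NPo tb v q x)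
      rw [hF u u' e'])]
    exact tb.Ps.E_congr fun u _ => ind_and _ _
  have h2 : tb.Ps.E (fun u => ind (NPo tb v q u = NPo tb v q x) * tb.Ps.ce (XN tb v 0 q) (fun a => ind (A a)) u) ≤
      tb.Ps.E (fun u => θ * ind (NPo tb v q u = NPo tb v q x) + ind (NPo tb v q u = NPo tb v q x ∧ bad u)) := by
    refine tb.Ps.E_mono fun u hu => ?_
    by_cases hz : NPo tb v q u = NPo tb v q x
    · rw [ind_of hz, one_mul, mul_one]
      by_cases hb : bad u
      · rw [ind_of ⟨hz, hb⟩]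
        have h3 : tb.Ps.ce (XN tb v 0 q) (fun a => ind (A a)) u ≤ 1 := by
          have p1 := tb.Ps.m_pos (XN tb v 0 q) hu
          rw [ce_ind, div_le_one p1]
          exact tb.Ps.Pr_mono fun z _ hz' => hz'.1
        linarith
      · rw [ind_not (fun hh : NPo tb v q u = NPo tb v q x ∧ bad u => hb hh.2), add_zero]
        have p1 := tb.Ps.m_pos (XN tb v 0 q) hu
        have p2 := tb.Ps.m_pos (XN tb v 0 (5 * t)) hu
        refine r0_x tb hn hN1 H R 0 hq ht htT hX0 hu K ?_ he hal hfar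
        rw [Real.log_le_iff_le_exp (div_pos p2 p1), div_le_iff₀ p1]
        exact not_lt.1 hb
    · rw [ind_not hz, zero_mul, mul_zero, zero_add]
      exact ind_nonneg _
  have h3 := small_cls (v := v) tb 0 hq x L
  rw [h1]
  refine h2.trans ?_
  rw [tb.Ps.E_add, tb.Ps.E_smul]
  have h4 : tb.Ps.E (fun u => ind (NPo tb v q u = NPo tb v q x)) = tb.Ps.m (NPo tb v q) x := rfl
  rw [h4, add_mul]
  have h5 : Real.exp (-L) * tb.Ps.m (NPo tb v (5 * t)) x ≤ Real.exp (lw - L) * tb.Ps.m (NPo tb v q) x := by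
    have h6 := mul_le_mul_of_nonneg_left hlw (Real.exp_pos (lw - L)).le
    rw [← mul_assoc, ← Real.exp_add] at h6
    rwa [show lw - L + -lw = -L by ring] at h6
  have h6 : tb.Ps.E (fun u => ind (NPo tb v q u = NPo tb v q x ∧ bad u)) ≤ Real.exp (lw - L) * tb.Ps.m (NPo tb v q) x :=
    le_trans h3 h5
  linarith

end run



end

end Pool.Agent.GMH.RarR0
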