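import Pool.Agent.GMH.RarB

/-!
# GMH/RarV0 (helper89): abstract part of the label inequality in the mean (row RarV)

* `rt_part`, **`klc_part`** : `Q' A (I_A (F; T | Z) + klc (Q' A, Q; F | Z)) ≤ I (F; T | Z) + klc (Q', Q; F | Z)`, `A` an event of `T`;
* `Hc_opt` : entropy of a map which is given on an event;
* `klc_disint` : relative entropy as a mean over classes;
* `I_tr` : information of a truncated top;
* `sel` : a class where a price is at most twice its mean and which keeps a fourth of the mass.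
-/

set_option autoImplicit false
set_option linter.unusedSectionVars false

namespace Pool.Agent.GMH.RarV

open Finset Pool.Agent.PWZ Pool.Agent.M3 Pool.Agent.GM Pool.Agent.GM.Harm Pool.Agent.GMH

section abs

variable {Om : Type*} [Fintype Om] {κ ζ ι χ : Type*}

/-- the chain rule on an event of the additions -/
theorem rt_part {Q' Q : FP Om} (hac : Q'.Ac Q) (F : Om → κ) (Z : Om → ζ) (T : Om → ι) {A : Om → Prop} (hA : Fac T A)
    (hA0 : Q'.Pr A ≠ 0) :
    Q'.E (fun v => ind (A v) * Real.log (rt (Q'.cond fun w => T w = T v) Q F Z v)) =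
      Q'.Pr A * ((Q'.cond A).I F T Z + (Q'.cond A).klc Q F Z) := by
  have hac' : (Q'.cond A).Ac Q := FP.Ac.trans (Q'.cond_ac A) hac
  rw [I_add_klc hac' F Z T, FP.Pr_mul_cond_E hA0]
  refine Q'.E_congr fun v hv => ?_
  by_cases hAv : A v
  · have e : (fun w => A w ∧ T w = T v) = fun w => T w = T v := by
      funext w
      refine propext ⟨fun hh => hh.2, fun hh => ⟨?_, hh⟩⟩
      rw [hA w v hh]
      exact hAv
    have h0 : Q'.Pr (fun w => A w ∧ T w = T v) ≠ 0 :=
      (FP.Pr_pos_of (S := fun w => A w ∧ T w = T v) hv ⟨hAv, rfl⟩).ne'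
    rw [FP.cond_cond h0, e]
  · rw [ind_not hAv, zero_mul, zero_mul]

/-- **CHAIN RULE ON AN EVENT OF THE ADDITIONS** -/
theorem klc_part {Q' Q : FP Om} (hac : Q'.Ac Q) (F : Om → κ) (Z : Om → ζ) (T : Om → ι) {A : Om → Prop} (hA : Fac T A)
    (hA0 : Q'.Pr A ≠ 0) :
    Q'.Pr A * ((Q'.cond A).I F T Z + (Q'.cond A).klc Q F Z) ≤ Q'.I F T Z + Q'.klc Q F Z := by
  rw [I_add_klc hac F Z T, ← rt_part hac F Z T hA hA0]
  set r : Om → ℝ := fun v => Real.log (rt (Q'.cond fun w => T w = T v) Q F Z v) with hr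
  have h1 : Q'.E r = Q'.E (fun v => ind (A v) * r v) + Q'.E (fun v => ind (¬ A v) * r v) := by
    rw [← FP.E_add]
    refine Q'.E_congr fun v _ => ?_
    by_cases hv : A v
    · rw [ind_of hv, ind_not (not_not.2 hv)]; ring
    · rw [ind_not hv, ind_of hv]; ring
  have h2 : 0 ≤ Q'.E (fun v => ind (¬ A v) * r v) := by
    by_cases h0 : Q'.Pr (fun v => ¬ A v) = 0
    · refine le_of_eq ?_
      rw [← Q'.E_const 0]
      refine Q'.E_congr fun v hv => ?_
      by_cases hA' : A v
      · rw [ind_not (not_not.2 hA'), zero_mul]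
      · exact absurd h0 (FP.Pr_pos_of (S := fun v => ¬ A v) hv hA').ne'
    · rw [rt_part hac F Z T (A := fun v => ¬ A v) (fun v w hvw => congrArg Not (hA v w hvw)) h0]
      exact mul_nonneg (Q'.Pr_nonneg _) (add_nonneg (FP.I_nonneg _ _ _ _)
        (klc_nonneg (FP.Ac.trans (Q'.cond_ac _) hac) _ _))
  rw [h1]
  linarith

open Classical in
/-- entropy of a map which is given on an event -/
theorem Hc_opt (P : FP Om) {V : Om → Prop} {Y : Om → κ} {Z : Om → ι} (hV0 : P.Pr V ≠ 0) {M : ℝ}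
    (hM : ∀ w, (P.cond V).p w ≠ 0 → ∃ s : Finset κ, (s.card : ℝ) ≤ M ∧ ∀ v, (P.cond V).p v ≠ 0 → Z v = Z w → Y v ∈ s) :
    P.Hc (fun w => if V w then some (Y w) else Option.none) Z ≤ P.Pr V * (Real.log (1 / P.Pr V) + 1 + Real.log M) := by
  set G : Om → Option κ := fun w => if V w then some (Y w) else Option.none with hG
  have hpos : 0 < P.Pr V := lt_of_le_of_ne (P.Pr_nonneg V) (Ne.symm hV0)
  have h1 : P.Hc G Z ≤ P.Hc (fun w => (G w, V w)) Z := P.Hc_mono Z ((Fac.fst _ _).trans (Fac.fst _ _))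
  have h2 : P.Hc (fun w => (G w, V w)) Z = P.Hc V Z + P.Hc G (fun w => (V w, Z w)) := P.Hc_chain _ _ _
  have h3 : P.Hc V Z ≤ P.Pr V * (Real.log (1 / P.Pr V) + 1) := (P.Hc_le_H V Z).trans (H_event_le hpos)
  have h4 : P.Hc G (fun w => (V w, Z w)) = P.Pr V * (P.cond V).Hc G (fun w => (V w, Z w)) :=
    Hc_cut hV0 (Fac.fst _ _) (fun v w hv hw => by
      show (if V v then some (Y v) else Option.none) = if V w then some (Y w) else Option.none
      rw [if_neg hv, if_neg hw])
  have h5 : (P.cond V).Hc G (fun w => (V w, Z w)) ≤ Real.log M := by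
    refine Hc_le_card _ _ _ fun w hw => ?_
    obtain ⟨s, hs1, hs2⟩ := hM w hw
    refine ⟨s.image some, ?_, fun v hv hvw => ?_⟩
    · have : ((s.image some).card : ℝ) ≤ s.card := by exact_mod_cast Finset.card_image_le
      exact this.trans hs1
    · show (if V v then some (Y v) else Option.none) ∈ s.image some
      rw [if_pos (cond_supp hV0 hv).1]
      exact Finset.mem_image_of_mem _ (hs2 v hv (Prod.mk.inj hvw).2)
  have h6 := mul_le_mul_of_nonneg_left h5 hpos.le
  have h7 : P.Pr V * (Real.log (1 / P.Pr V) + 1 + Real.log M) =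
      P.Pr V * (Real.log (1 / P.Pr V) + 1) + P.Pr V * Real.log M := by ring
  rw [h7]
  linarith

/-- relative entropy as a mean over the classes -/
theorem klc_disint {Q P : FP Om} (hac : Q.Ac P) (F : Om → κ) (Z : Om → ζ) (C : Om → χ) (hC : Fac Z C) :
    Q.klc P F Z = Q.E (fun w => (Q.cond fun v => C v = C w).klc (P.cond fun v => C v = C w) F Z) := by
  set L : Om → ℝ := fun w => Real.log (Q.m (fun v => (F v, Z v)) w / Q.m Z w /
    (P.m (fun v => (F v, Z v)) w / P.m Z w)) with hL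
  have h1 : ∀ w, Q.p w ≠ 0 → (Q.cond fun v => C v = C w).klc (P.cond fun v => C v = C w) F Z = Q.ce C L w := by
    intro w hw
    have h0 : Q.Pr (fun v => C v = C w) ≠ 0 := (FP.Pr_pos_of (S := fun v => C v = C w) hw rfl).ne'
    have k0 : P.Pr (fun v => C v = C w) ≠ 0 := (FP.Pr_pos_of (S := fun v => C v = C w) (hac w hw) rfl).ne'
    have h2 : (Q.cond fun v => C v = C w).klc (P.cond fun v => C v = C w) F Z = (Q.cond fun v => C v = C w).E L := by
      unfold FP.klc
      refine FP.E_congr _ fun u hu => ?_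
      obtain ⟨hu1, hu2⟩ := cond_supp h0 hu
      have hZ : Fac Z (fun v => C v = C w) := fun a b hab => by
        show (C a = C w) = (C b = C w)
        rw [hC a b hab]
      have hZ' : Fac (fun v => (F v, Z v)) (fun v => C v = C w) := fun a b hab => hZ a b (congrArg Prod.snd hab)
      rw [cond_m_of_fac h0 (Z := Z) hZ hu1, cond_m_of_fac h0 (Z := fun v => (F v, Z v)) hZ' hu1,
        cond_m_of_fac k0 (Z := Z) hZ hu1, cond_m_of_fac k0 (Z := fun v => (F v, Z v)) hZ' hu1, hL]
      simp only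
      congr 1
      have a1 := Q.m_pos Z hu2
      have a2 := Q.m_pos (fun v => (F v, Z v)) hu2
      have a3 := P.m_pos Z (hac u hu2)
      have a4 := P.m_pos (fun v => (F v, Z v)) (hac u hu2)
      field_simp
    rw [h2, FP.cond_E h0]
    rfl
  rw [Q.E_congr h1, Q.E_ce]
  rfl

/-- **SELECTION** : a class where the price is at most twice its mean and which keeps a fourth of the mass -/
theorem sel {P : FP Om} {V : Om → Prop} (hV0 : P.Pr V ≠ 0) {C : Om → χ} {g : Om → ℝ}
    (hg0 : ∀ w, (P.cond V).p w ≠ 0 → 0 ≤ g w) {k : ℝ} (hk : 0 < k) (hg : (P.cond V).E g ≤ k) :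
    ∃ w, (P.cond V).p w ≠ 0 ∧ g w ≤ 2 * k ∧ P.Pr V / 4 ≤ P.ce C (fun u => ind (V u)) w := by
  classical
  by_contra hcon
  push Not at hcon
  have hpos : 0 < P.Pr V := lt_of_le_of_ne (P.Pr_nonneg V) (Ne.symm hV0)
  set q : Om → ℝ := P.ce C (fun u => ind (V u)) with hq
  set Bd : Om → Prop := fun w => q w < P.Pr V / 4 with hBd
  have hf : Fac C (fun w => ind (Bd w)) := Fac.ind fun v w e => by
    show q v < P.Pr V / 4 ↔ q w < P.Pr V / 4
    rw [hq, P.ce_fac C _ v w e]
  -- mass of the bad classes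
  have h1 : (P.cond V).Pr Bd ≤ 1 / 4 := by
    show (P.cond V).E (fun w => ind (Bd w)) ≤ 1 / 4
    rw [FP.cond_E hV0, div_le_iff₀ hpos]
    have h2 : P.E (fun w => ind (V w) * ind (Bd w)) = P.E (fun w => ind (Bd w) * q w) := by
      rw [P.E_mul_ce hf]
      exact P.E_congr fun w _ => mul_comm _ _
    rw [h2]
    have h3 : P.E (fun w => ind (Bd w) * q w) ≤ P.E (fun _ => P.Pr V / 4) := P.E_mono fun w _ => by
      by_cases hb : Bd w
      · rw [ind_of hb, one_mul]; exact le_of_lt hb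
      · rw [ind_not hb, zero_mul]; positivity
    rw [P.E_const] at h3
    linarith
  -- the mean of the price
  have h4 : (P.cond V).E (fun w => 2 * k * (1 - ind (Bd w))) ≤ (P.cond V).E g := by
    refine (P.cond V).E_mono fun w hw => ?_
    by_cases hb : Bd w
    · rw [ind_of hb, sub_self, mul_zero]; exact hg0 w hw
    · rw [ind_not hb, sub_zero, mul_one]
      by_contra hlt
      exact hb (hcon w hw (le_of_not_ge hlt))
  rw [FP.E_smul, FP.E_sub, FP.E_const] at h4
  have h5 : (P.cond V).E (fun w => ind (Bd w)) = (P.cond V).Pr Bd := rfl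
  rw [h5] at h4
  nlinarith

end abs

section tr

variable {K X β φ υ : Type} [Fintype K] [DecidableEq K] [Fintype X] [Fintype β] [Fintype φ]
  [Nonempty X] [Nonempty β] {U : Finset K → X → (K → β) → υ}

/-- information of a truncated top -/
theorem I_tr (R : FP (Pt K X β φ)) {τ : Type*} (Typ : β → υ → Prop) (e l : K) (Y : Pt K X β φ → τ) :
    R.I (fun w => fc (zt U Typ e w) (w.2.2 l)) Y (zt U Typ e) ≤ R.I (fun w => w.2.2 l) Y (zf U e) := by
  set T : Pt K X β φ → Prop := fun v => Typ (v.2.1 e) (U {e} v.1 v.2.1) with hT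
  set F' : Pt K X β φ → Option φ := fun w => fc (zt U Typ e w) (w.2.2 l) with hF'
  have hoff : ∀ v w, ¬ T v → ¬ T w → F' v = F' w := fun v w hv hw => by
    show fc (zt U Typ e v) (v.2.2 l) = fc (zt U Typ e w) (w.2.2 l)
    rw [fc_neg hv, fc_neg hw]
  have fz : Fac (zf U e) T := typ_zf (Typ := Typ)
  have ft : Fac (zt U Typ e) T := fun v w e' => propext (typ_zt e')
  have h1 : R.I F' Y (zf U e) ≤ R.I (fun w => w.2.2 l) Y (zf U e) := by
    refine R.I_mono (X := fun w => w.2.2 l) (X' := F') Y fun v w hvw => ?_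
    simp only [Prod.mk.injEq] at hvw
    show fc (zt U Typ e v) (v.2.2 l) = fc (zt U Typ e w) (w.2.2 l)
    rw [hvw.1, RarX.zt_of_zf (Typ := Typ) e v w hvw.2]
  refine le_trans (le_of_eq ?_) h1
  by_cases h0 : R.Pr T = 0
  · have hno : ∀ v, R.p v ≠ 0 → ¬ T v := fun v hv hTv => (FP.Pr_pos_of (S := T) hv hTv).ne' h0
    have z1 : ∀ {σ : Type _} (Z : Pt K X β φ → σ), R.I F' Y Z = 0 := by
      intro σ Z
      rw [R.I_comm]
      refine le_antisymm ?_ (R.I_nonneg _ _ _)
      rw [R.I_comm]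
      refine (R.I_le_Hc F' Y Z).trans ?_
      refine (Hc_le_card R F' Z (M := 1) fun w hw => ⟨{F' w}, by simp, fun v hv _ => ?_⟩).trans (by rw [Real.log_one])
      rw [Finset.mem_singleton]
      exact hoff v w (hno v hv) (hno w hw)
    rw [z1, z1]
  · rw [R.I_comm F', R.I_comm F', I_cut h0 ft hoff, I_cut h0 fz hoff]
    congr 1
    refine I_supp (fun _ _ _ _ => Iff.rfl) (fun _ _ _ _ => Iff.rfl) fun v w hv hw => ?_
    exact zt_iff (cond_supp h0 hw).1

end tr

end Pool.Agent.GMH.RarV
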