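import Pool.Agent.GMH.HotNS
import Pool.Agent.GMH.RarN3

/-!
# GMH/RarV1 (helper9): RARITY OF THE DENSE VERTICES INSIDE A PUBLIC EVENT, the faces of the exact vertex (part (A) of RarV)

Frame `Bk` of `BitKL`, `E` = event of (hidden point, node) in the public class of `w0` (`In`), `V ⊂ E` = event of (hidden
point, exact point of `c`), `y = P(V)/P(E)`.  The surprise of `E` is paid once, at the public price; of `V` only the bit
inside `E` is paid at the price of the letter of `c`.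
* `far_wl` : `b` hardwired, event `E'` of (hidden point, exact `b`), `act` = event of (hidden point, exact `b`, exact `c`),
  additions to the letter of `c` : `1_act` and on `act` the top which sees `b`, `c`;
* `wl_cond` : from the label on an event to the law inside the event;
* **`far2`** : `N_2 (I_V (top of {c, d}; point and typical letter of b, top of {b, c} | what it sees) + klc)` is at most
  `2 N_0 (L + log (M + 1) + 1)/y + 2 N_c (log (1/y) + 1 + log (1/al))`;
* **`face_bc`**, **`face_bd`** : the same in the words of `BitKL` (exact vertex `b`, reference law = public class).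
-/

set_option autoImplicit false
set_option linter.unusedSectionVars false
set_option linter.unusedVariables false

namespace Pool.Agent.GMH.RarV

open Finset Pool.Agent.PWZ Pool.Agent.M3 Pool.Agent.GM Pool.Agent.GM.Harm Pool.Agent.GMH Pool.Agent.GMH.RarN

section abs

variable {Om : Type*} [Fintype Om] {P Q : FP Om} {κ τ ρ ζ : Type*}

/-- **from the label on an event to the law inside the event** -/
theorem wl_cond (hac : Q.Ac P) {X : Om → τ} {Y : Om → ρ} {Z : Om → ζ} {act : Om → Prop} (h0 : Q.Pr act ≠ 0) :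
    Q.Pr act * ((Q.cond act).klc P Y Z + (Q.cond act).I Y X Z) ≤ Q.klc P Y Z + Q.I Y (wl act X) Z := by
  set W : Om → Option τ × ζ := fun w => (wl act X w, Z w) with hW
  have hWZ : Fac W Z := Fac.snd _ _
  have hWa : Fac W act := (Fac.fst _ _).trans (ind_wl_fac act X)
  have e1 : Q.I Y W Z = Q.I Y (wl act X) Z := by
    rw [Q.I_comm, Q.I_comm Y (wl act X) Z]
    exact le_antisymm (Q.I_mono Y (X := wl act X) (X' := W) (Fac.refl _)) (Q.I_mono Y ((Fac.fst _ _).trans (Fac.fst _ _)))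
  rw [← e1, ← E_klp hac hWZ]
  have hacc : (Q.cond act).Ac Q := FP.cond_ac _ _
  have hac2 : (Q.cond act).Ac P := fun w hw => hac w (hacc w hw)
  set W2 : Om → τ × ζ := fun w => (X w, Z w) with hW2
  have e3 : (Q.cond act).I Y W2 Z = (Q.cond act).I Y X Z := by
    rw [FP.I_comm, FP.I_comm _ Y X Z]
    exact le_antisymm (FP.I_mono _ Y (X := X) (X' := W2) (Fac.refl _)) (FP.I_mono _ Y ((Fac.fst _ _).trans (Fac.fst _ _)))
  rw [← e3, ← E_klp (Q := Q.cond act) (P := P) hac2 (Fac.snd _ _ : Fac W2 Z), FP.cond_E h0, mul_div_cancel₀ _ h0]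
  refine Q.E_mono fun w hw => ?_
  have h1 := klp_nonneg (X := Y) hac hWZ hw
  by_cases ha : act w
  · rw [ind_of ha, one_mul]
    refine le_of_eq ?_
    -- the two rows agree
    have h2 : ∀ f, (Q.cond act).pv W2 Y w f = Q.pv W Y w f := by
      intro f
      rw [← cond_pv hWa h0 Y ha f]
      refine pv_supp (fun v hv => ?_) (fun _ _ => rfl) f
      have hav : act v := (cond_supp h0 hv).1
      rw [hW2, hW]
      simp only [Prod.mk.injEq]
      rw [wl_eq ha]
      exact ⟨fun hh => ⟨⟨hav, hh.1⟩, hh.2⟩, fun hh => ⟨hh.1.2, hh.2⟩⟩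
    unfold klp
    exact Finset.sum_congr rfl fun f _ => by rw [h2 f]
  · rw [ind_not ha, zero_mul]
    exact h1

/-- a mean over a subevent of a quantity divided by the fraction of the subevent in the cell -/
theorem sub_div {E V : Om → Prop} (hVE : ∀ v, V v → E v) (hV : P.Pr V ≠ 0) (T : Om → τ) {f : Om → ℝ}
    (hf : ∀ v w, E v → E w → T v = T w → f v = f w) (f0 : ∀ w, P.p w ≠ 0 → E w → 0 ≤ f w) :
    (P.cond V).E (fun w => f w / (P.cond (fun v => E v ∧ T v = T w)).Pr V) ≤ P.Pr E / P.Pr V * (P.cond E).E f := by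
  classical
  have hV0 : 0 < P.Pr V := lt_of_le_of_ne (P.Pr_nonneg _) (Ne.symm hV)
  have hE0 : P.Pr E ≠ 0 := (lt_of_lt_of_le hV0 (P.Pr_mono fun v _ hv => hVE v hv)).ne'
  set Kk : Om → Prop × τ := fun w => (E w, T w) with hK
  set pi : Om → ℝ := fun w => P.ce Kk (fun v => ind (V v)) w with hpi
  have e1 : ∀ w, P.p w ≠ 0 → E w → (P.cond (fun v => E v ∧ T v = T w)).Pr V = pi w := by
    intro w hw hEw
    have e : (fun v => E v ∧ T v = T w) = fun v => Kk v = Kk w := by
      funext v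
      refine propext ?_
      show _ ↔ (E v, T v) = (E w, T w)
      rw [Prod.mk.injEq]
      exact ⟨fun hh => ⟨propext ⟨fun _ => hEw, fun _ => hh.1⟩, hh.2⟩, fun hh => ⟨by rw [hh.1]; exact hEw, hh.2⟩⟩
    rw [e]
    exact (P.ce_eq_cond Kk _ hw).symm
  have pi0 : ∀ w, 0 ≤ pi w := fun w => P.ce_nonneg (fun v _ => ind_nonneg _) w
  set g : Om → ℝ := fun w => ind (E w) * (f w / pi w) with hg
  have hgf : Fac Kk g := by
    intro v w hvw
    have h1 : E v = E w := congrArg Prod.fst hvw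
    have h2 : T v = T w := congrArg Prod.snd hvw
    have h3 : pi v = pi w := P.ce_fac Kk _ v w hvw
    show ind (E v) * (f v / pi v) = ind (E w) * (f w / pi w)
    by_cases hE : E w
    · rw [h1, hf v w (by rw [h1]; exact hE) hE h2, h3]
    · rw [ind_not hE, ind_not (by rw [h1]; exact hE : ¬ E v), zero_mul, zero_mul]
  rw [FP.cond_E hV, FP.cond_E hE0, div_le_iff₀ hV0]
  have e2 : P.E (fun w => ind (V w) * (f w / (P.cond (fun v => E v ∧ T v = T w)).Pr V)) = P.E (fun w => g w * ind (V w)) := by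
    refine P.E_congr fun w hw => ?_
    by_cases hVw : V w
    · rw [ind_of hVw, e1 w hw (hVE w hVw), hg]
      simp only []
      rw [ind_of (hVE w hVw)]
      ring
    · rw [ind_not hVw, zero_mul, mul_zero]
  have e3 : P.E (fun w => g w * ind (V w)) ≤ P.E (fun w => ind (E w) * f w) := by
    rw [← P.E_mul_ce hgf]
    refine P.E_mono fun w hw => ?_
    show ind (E w) * (f w / pi w) * pi w ≤ ind (E w) * f w
    by_cases hE : E w
    · rw [ind_of hE, one_mul, one_mul]
      rcases eq_or_ne (pi w) 0 with h0 | h0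
      · rw [h0, mul_zero]
        exact f0 w hw hE
      · rw [div_mul_cancel₀ _ h0]
    · rw [ind_not hE, zero_mul, zero_mul, zero_mul]
  rw [e2]
  refine e3.trans (le_of_eq ?_)
  have hE1 : P.Pr E ≠ 0 := hE0
  field_simp

/-- the mean surprise of the subevent in the cell -/
theorem sub_log {E V : Om → Prop} (hVE : ∀ v, V v → E v) (hV : P.Pr V ≠ 0) (T : Om → τ) :
    (P.cond V).E (fun w => Real.log (1 / (P.cond (fun v => E v ∧ T v = T w)).Pr V)) ≤ Real.log (1 / (P.Pr V / P.Pr E)) := by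
  have hV0 : 0 < P.Pr V := lt_of_le_of_ne (P.Pr_nonneg _) (Ne.symm hV)
  have hE0 : 0 < P.Pr E := lt_of_lt_of_le hV0 (P.Pr_mono fun v _ hv => hVE v hv)
  set y : ℝ := P.Pr V / P.Pr E with hy
  have y0 : 0 < y := div_pos hV0 hE0
  have k := sub_div (P := P) hVE hV T (f := fun _ => (1:ℝ)) (fun _ _ _ _ _ => rfl) (fun _ _ _ => zero_le_one)
  rw [FP.E_const, mul_one] at k
  have h1 : (P.cond V).E (fun w => Real.log (1 / (P.cond (fun v => E v ∧ T v = T w)).Pr V)) ≤
      (P.cond V).E (fun w => (Real.log (1 / y) - 1) + y * (1 / (P.cond (fun v => E v ∧ T v = T w)).Pr V)) := by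
    refine FP.E_mono _ fun w hw => ?_
    obtain ⟨hVw, hp⟩ := (FP.cond_p_ne hV).1 hw
    have hEw : P.Pr (fun v => E v ∧ T v = T w) ≠ 0 :=
      (FP.Pr_pos_of (S := fun v => E v ∧ T v = T w) hp ⟨hVE w hVw, rfl⟩).ne'
    have hpos : 0 < (P.cond (fun v => E v ∧ T v = T w)).Pr V := by
      have h2 : (P.cond (fun v => E v ∧ T v = T w)).p w ≠ 0 := (FP.cond_p_ne hEw).2 ⟨⟨hVE w hVw, rfl⟩, hp⟩
      exact FP.Pr_pos_of (S := V) h2 hVw
    have h3 : Real.log (y * (1 / (P.cond (fun v => E v ∧ T v = T w)).Pr V)) ≤ _ :=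
      Real.log_le_sub_one_of_pos (mul_pos y0 (one_div_pos.2 hpos))
    rw [Real.log_mul y0.ne' (one_div_pos.2 hpos).ne'] at h3
    have h4 : Real.log (1 / y) = - Real.log y := by rw [one_div, Real.log_inv]
    linarith
  refine h1.trans ?_
  rw [FP.E_add, FP.E_const, FP.E_smul]
  have h2 : y * (P.cond V).E (fun w => 1 / (P.cond (fun v => E v ∧ T v = T w)).Pr V) ≤ 1 := by
    have h3 := mul_le_mul_of_nonneg_left k y0.le
    refine h3.trans (le_of_eq ?_)
    rw [hy]
    field_simp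
  linarith

end abs

section inst

variable {K X β γ φ υ : Type} [Fintype K] [DecidableEq K] [Fintype X] [Fintype β] [Fintype φ] [Nonempty X] [Nonempty β]
  {D : HD K X β γ φ} {al : ℝ} {h : D.Thick al} {N : Finset K → ℝ} {S : Finset (Finset K)}
  {U : Finset K → X → (K → β) → υ} {t : ℕ} {b c d : K} {w0 : Pt K X β φ} {V : Pt K X β φ → Prop}
  {Typ : β → υ → Prop} {M L : ℝ}

/-- **two levels at a hardwired vertex** : event `E` of (hidden point, exact `b`), in the letter of `c` the bit of an event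
`act` of (hidden point, exact `b`, exact `c`) and on it the top of the face `{b, c}` -/
theorem far_wl (B : Bk h N S U t b c d) {w : Pt K X β φ} (hw : (D.P h t).p w ≠ 0) {E : Pt K X β φ → Prop}
    (hE : EvI D t {b} E) (hEw : E w) (hsub : ∀ v, E v → xc D U t {b} w v) {act : Pt K X β φ → Prop}
    (hact : Fac (fun w => (w.1, BB D t {b, c} w, w.2.2 d)) act) :
    N (univ.erase b) * (((D.P h t).cond E).klc (D.P h t) (fun v => v.2.2 b) (Zf D U t b) +
      ((D.P h t).cond E).I (fun v => v.2.2 b) (wl act (fun v => v.2.2 d)) (Zf D U t b)) ≤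
      2 * N ∅ * (Real.log (1 / ((D.P h t).cond (xc D U t {b} w)).Pr E) + 1) +
        2 * (N {c} * (((D.P h t).cond E).Pr act *
        (Real.log (1 / ((D.P h t).cond E).Pr act) + 1 + Real.log (1 / al)))) := by
  classical
  set J : Finset K := univ.erase b with hJ
  have hcJ : c ∈ J := Finset.mem_erase.2 ⟨B.bc.symm, mem_univ c⟩
  have hdJ : d ∈ J := Finset.mem_erase.2 ⟨B.bd.symm, mem_univ d⟩
  have hdisj : Disjoint J ({b} : Finset K) := by
    rw [Finset.disjoint_singleton_right]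
    exact fun hh => (Finset.mem_erase.1 hh).1 rfl
  set QX := (D.P h t).cond (xc D U t {b} w) with hQX
  have hxn : (D.P h t).Pr (xc D U t {b} w) ≠ 0 := xc_ne hw
  have hXw : QX.p w ≠ 0 := (FP.cond_p_ne hxn).2 ⟨xc_self U t {b} w, hw⟩
  have hE0 : QX.Pr E ≠ 0 := (FP.Pr_pos_of (S := E) hXw hEw).ne'
  have hEP : (D.P h t).Pr E ≠ 0 := (FP.Pr_pos_of (S := E) hw hEw).ne'
  have hPQ : QX.cond E = (D.P h t).cond E := by
    have e : (fun v => xc D U t {b} w v ∧ E v) = E := by
      funext v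
      exact propext ⟨fun hh => hh.2, fun hh => ⟨hsub v hh, hh⟩⟩
    rw [hQX, FP.cond_cond (by rw [e]; exact hEP), e]
  set Q := (D.P h t).cond E with hQ
  set Xl : Pt K X β φ → φ := fun v => v.2.2 d with hXl
  set G : Finset K → Pt K X β φ → Option φ := fun J' w => if J' = {c} then wl act Xl w else Option.none with hG
  have htl : (univ.erase d : Finset K) ⊆ ({b} : Finset K) ∪ {c} ∧ ∃ i ∈ ({b} : Finset K), i ≠ d := by
    refine ⟨fun j hj => ?_, b, Finset.mem_singleton_self b, B.bd⟩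
    rw [Finset.mem_union, Finset.mem_singleton, Finset.mem_singleton]
    rcases B.all j with h7 | h7 | h7
    · exact Or.inl h7
    · exact Or.inr h7
    · exact absurd h7 (Finset.mem_erase.1 hj).1
  have hGI : GI D t {b} G := by
    intro J' v u hvw
    simp only [Prod.mk.injEq] at hvw
    obtain ⟨h1, h2, h4⟩ := hvw
    show (if J' = {c} then wl act Xl v else Option.none) = if J' = {c} then wl act Xl u else Option.none
    by_cases hJ' : J' = {c}
    · rw [if_pos hJ', if_pos hJ']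
      subst hJ'
      have h5 := congrFun h4 d
      unfold tl at h5
      rw [if_pos htl, if_pos htl] at h5
      have h6 : v.2.2 d = u.2.2 d := Option.some.inj h5
      have h7 : act v = act u := hact v u (by
        simp only [Prod.mk.injEq]
        exact ⟨h1, h2, h6⟩)
      have h8 : Xl v = Xl u := h6
      unfold wl
      rw [h7, h8]
    · rw [if_neg hJ', if_neg hJ']
  set m := hwm D t {b} w.2.1 with hm
  set PE := (FP.pr ((D.P h t).cond (xc D U t ∅ w)) (coinT h t)).cond fun w => E (m w) with hPE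
  -- the law
  have hx0 : (D.P h t).Pr (xc D U t ∅ w) ≠ 0 := xc_ne hw
  obtain ⟨hne, hpul⟩ := hw_pul h (I := {b}) (Finset.disjoint_empty_left {b}) (V := xc D U t ∅ w)
    (xc_fac (U := U) ∅ w B.dep B.era) (fun v w hv hw => hv.2.trans hw.2.symm) (w0 := w) (xc_self U t ∅ w) hx0
    (c := w.2.1) (fun _ _ => rfl)
  rw [← xc_hwV] at hpul
  have hpE : Pul PE Q m := by
    have h1 := pul_cond hpul hE0
    rw [← hQX, hPQ] at h1
    exact h1
  have hpi : PE.Pr (fun w => act (m w)) = Q.Pr act := hpE.Pr act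
  have hal1 : 1 ≤ 1 / al := by
    rw [le_div_iff₀ h.pos, one_mul]
    exact hal_one h b
  have hcost : ∑ J' ∈ S, N J' * cost PE (fun I w => BB D t I w.1) (fun I w => LL U I w.1) (fun J' w => G J' (m w)) J' ≤
      N {c} * (Q.Pr act * (Real.log (1 / Q.Pr act) + 1 + Real.log (1 / al))) := by
    have hc0 : cost PE (fun I w => BB D t I w.1) (fun I w => LL U I w.1) (fun J' w => G J' (m w)) {c} ≤
        Q.Pr act * (Real.log (1 / Q.Pr act) + 1 + Real.log (1 / al)) := by
      unfold cost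
      have e : (fun (J' : Finset K) (w : Pt K X β φ × (K → Cn K X β φ)) => G J' (m w)) {c} =
          wl (fun w => act (m w)) (fun w => Xl (m w)) := by
        funext w
        show (if ({c} : Finset K) = {c} then wl act Xl (m w) else Option.none) = _
        rw [if_pos rfl]
        rfl
      rw [e, ← hpi]
      refine Hc_wl PE _ _ _ hal1 fun w' hw' _ => ?_
      set s0 : Finset φ := univ.filter fun F => al ≤ D.kf t d w'.1.1 (hwy {b} w.2.1 w'.1.2.1) F with hs0
      have hcard : (s0.card : ℝ) ≤ 1 / al := poss_card h d w'.1.1 (hwy {b} w.2.1 w'.1.2.1)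
      refine ⟨s0, hcard, fun v hv _ hvw => ?_⟩
      have hv' := (pr_supp ((D.P h t).cond (xc D U t ∅ w)) (coinT h t)).1 (FP.cond_ac _ _ v hv)
      simp only [Prod.mk.injEq] at hvw
      obtain ⟨-, -, h3⟩ := hvw
      rw [BB_eq] at h3
      obtain ⟨h3, h4, h5⟩ := h3
      refine Finset.mem_filter.2 ⟨mem_univ _, ?_⟩
      show al ≤ D.kf t d w'.1.1 (hwy {b} w.2.1 w'.1.2.1)
        (if ∃ i ∈ ({b} : Finset K), i ≠ d then rd D t v.2 d v.1.1 (hwy {b} w.2.1 v.1.2.1) else v.1.2.2 d)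
      rw [if_pos ⟨b, Finset.mem_singleton_self b, B.bd⟩]
      refine rd_poss hv'.2 d h4 (fun j hj => ?_) fun j => ?_
      · unfold hwy
        by_cases hjb : j ∈ ({b} : Finset K)
        · rw [if_pos hjb, if_pos hjb]
        · rw [if_neg hjb, if_neg hjb]
          refine h3 j ?_
          rcases B.all j with h7 | h7 | h7
          · exact absurd (Finset.mem_singleton.2 h7) hjb
          · exact Finset.mem_singleton.2 h7
          · exact absurd h7 hj
      · unfold hwy
        by_cases hjb : j ∈ ({b} : Finset K)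
        · rw [if_pos hjb, if_pos hjb]
        · rw [if_neg hjb, if_neg hjb]; exact h5 j
    have hcJ' : ∀ J', J' ≠ {c} → cost PE (fun I w => BB D t I w.1) (fun I w => LL U I w.1)
        (fun J' w => G J' (m w)) J' = 0 := by
      intro J' hJ'
      refine cost_const fun v w => ?_
      show (if J' = {c} then _ else Option.none) = if J' = {c} then _ else Option.none
      rw [if_neg hJ', if_neg hJ']
    have h2 : ∀ J' ∈ S, N J' * cost PE (fun I w => BB D t I w.1) (fun I w => LL U I w.1)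
        (fun J' w => G J' (m w)) J' ≤ if J' = {c} then N {c} * (Q.Pr act *
          (Real.log (1 / Q.Pr act) + 1 + Real.log (1 / al))) else 0 := by
      intro J' hJ'
      by_cases hJ0 : J' = {c}
      · subst hJ0
        rw [if_pos rfl]
        exact mul_le_mul_of_nonneg_left hc0 (B.nn {c} (B.s1 c))
      · rw [if_neg hJ0, hcJ' J' hJ0, mul_zero]
    refine (Finset.sum_le_sum h2).trans (le_of_eq ?_)
    rw [Finset.sum_ite_eq' S {c}, if_pos (B.s1 c)]
  have h1 := ex_bound (h := h) B.dep B.sat B.nn B.era B.s0 (I := {b}) (J0 := J) (B.s2 b) ⟨c, hcJ⟩ hdisj (w0 := w) hw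
    hE hE0 hGI hcost
  rw [← hQX, hPQ] at h1
  change N J * (Q.klc QX (LL U J) (Zf D U t b) + Q.I (LL U J) (lo G J) (Zf D U t b)) ≤ _ at h1
  have hac : Q.Ac QX := by
    rw [← hPQ]
    exact FP.cond_ac _ _
  have e1 : Q.klc (D.P h t) (fun w => w.2.2 b) (Zf D U t b) ≤ Q.klc QX (LL U J) (Zf D U t b) := by
    rw [klc_ref B hw fun v hv => ⟨hsub v ((FP.cond_p_ne hEP).1 hv).1, ((FP.cond_p_ne hEP).1 hv).2⟩]
    refine klc_mono hac fun v w hvw => ?_
    have h4 : LL U J v = LL U J w := congrArg Prod.fst hvw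
    exact (LL_eq.1 h4).2 b rfl
  have e2 : Q.I (fun w => w.2.2 b) (wl act Xl) (Zf D U t b) ≤ Q.I (LL U J) (lo G J) (Zf D U t b) := by
    refine le_trans (FP.I_mono _ (X := LL U J) (X' := fun w => w.2.2 b) _ fun v w hvw => ?_) ?_
    · have h4 : LL U J v = LL U J w := congrArg Prod.fst hvw
      exact (LL_eq.1 h4).2 b rfl
    · rw [FP.I_comm, FP.I_comm _ (LL U J) (lo G J)]
      refine FP.I_mono _ (X := lo G J) (X' := wl act Xl) _ fun v w hvw => ?_
      have h4 : lo G J v = lo G J w := congrArg Prod.fst hvw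
      have hcss : ({c} : Finset K) ⊂ J := by
        rw [Finset.ssubset_iff_of_subset (Finset.singleton_subset_iff.2 hcJ)]
        exact ⟨d, hdJ, fun hh => B.cd (Finset.mem_singleton.1 hh).symm⟩
      have h5 := lo_eq.1 h4 {c} hcss
      have h6 : (if ({c} : Finset K) = {c} then wl act Xl v else Option.none) =
        if ({c} : Finset K) = {c} then wl act Xl w else Option.none := h5
      rw [if_pos rfl, if_pos rfl] at h6
      exact h6
  have hNJ := B.nn J (B.s2 b)
  have h2 := mul_le_mul_of_nonneg_left (add_le_add e1 e2) hNJ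
  linarith

/-- **THE EXACT FACE INSIDE THE EVENT, with its pair**, mean over the foreign vertex `b` -/
theorem far2 (B : Bk h N S U t b c d) {E : Pt K X β φ → Prop} (I : In h U t w0 E) (fV : Fac (Ah D t {c}) V)
    (sV : ∀ v, V v → E v) (hV : (D.P h t).Pr V ≠ 0)
    (hM : ∀ c', ∃ s : Finset υ, (s.card : ℝ) ≤ M ∧ ∀ u, Typ c' u → u ∈ s) (hM0 : 0 ≤ M)
    (hL : Real.log (1 / ((D.P h t).cond (xc D U t ∅ w0)).Pr E) ≤ L) {y : ℝ} (hy : 0 < y)
    (hyV : y * (D.P h t).Pr E ≤ (D.P h t).Pr V) :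
    N (univ.erase b) * (((D.P h t).cond V).I (fun w => w.2.2 b) (fun w => (tz U Typ b w, w.2.2 d)) (Zf D U t b) +
      ((D.P h t).cond V).klc (D.P h t) (fun w => w.2.2 b) (Zf D U t b)) ≤
      2 * N ∅ * (L + Real.log (M + 1) + 1) / y + 2 * (N {c} * (Real.log (1 / y) + 1 + Real.log (1 / al))) := by
  classical
  set P := D.P h t with hP
  have hV0 : 0 < P.Pr V := lt_of_le_of_ne (P.Pr_nonneg _) (Ne.symm hV)
  have hE0 : 0 < P.Pr E := lt_of_lt_of_le hV0 (P.Pr_mono fun v _ hv => sV v hv)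
  have hN0 := B.nn ∅ B.s0
  have hNe := B.n2 b
  have hNc := B.n1 c
  set Q := P.cond V with hQ
  have hac : Q.Ac P := FP.cond_ac _ _
  set Ez : Pt K X β φ → Pt K X β φ → Prop := fun w v => E v ∧ tz U Typ b v = tz U Typ b w with hEz
  set Sf : Pt K X β φ → ℝ := fun w => Real.log (1 / (P.cond (xc D U t {b} w)).Pr (Ez w)) with hSf
  have hs := RarN.surp B I {b} (Y := tz U Typ b) (fun v w hv hw e => tz_BB Typ hv hw e)
  have hH := Hc_tz (U := U) (Typ := Typ) hM (P.cond E) b (Z := BB D t {b}) (fun v w hvw => by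
    rw [BB_eq] at hvw
    exact hvw.1 b (Finset.mem_singleton_self b))
  -- the events of the foreign vertex
  have hEzf : ∀ w, Fac (Ah D t {b}) (Ez w) := by
    intro w v u hvu
    show (E v ∧ tz U Typ b v = tz U Typ b w) = (E u ∧ tz U Typ b u = tz U Typ b w)
    rw [Ah_up (I := {b}) I.fac v u hvu, tz_fac B Typ b v u hvu]
  have hEzx : ∀ w, E w → ∀ v, Ez w v → xc D U t {b} w v := fun w hw v hv =>
    (xc_I (I.sub w hw)).2 ⟨I.sub v hv.1, tz_BB Typ (I.sub v hv.1) (I.sub w hw) hv.2⟩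
  have hSf0 : ∀ w, P.p w ≠ 0 → E w → 0 ≤ Sf w + 1 := by
    intro w hw hEw
    have hx0 : P.Pr (xc D U t {b} w) ≠ 0 := xc_ne hw
    have hXw : (P.cond (xc D U t {b} w)).p w ≠ 0 := (FP.cond_p_ne hx0).2 ⟨xc_self U t {b} w, hw⟩
    have h1 : 0 < (P.cond (xc D U t {b} w)).Pr (Ez w) := FP.Pr_pos_of (S := Ez w) hXw ⟨hEw, rfl⟩
    have h2 : (P.cond (xc D U t {b} w)).Pr (Ez w) ≤ 1 := FP.Pr_le_one _ _
    have h3 : 0 ≤ Sf w := Real.log_nonneg (by rw [le_div_iff₀ h1]; linarith)
    linarith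
  have hSff : ∀ v w, E v → E w → tz U Typ b v = tz U Typ b w → Sf v + 1 = Sf w + 1 := by
    intro v w hv hw hvw
    have e1 : xc D U t {b} v = xc D U t {b} w := by
      have h1 : BB D t {b} v = BB D t {b} w := tz_BB Typ (I.sub v hv) (I.sub w hw) hvw
      have h2 : le (LL U) ∅ v = le (LL U) ∅ w := (I.sub v hv).1.trans (I.sub w hw).1.symm
      funext u
      show (le (LL U) ∅ u = le (LL U) ∅ v ∧ BB D t {b} u = BB D t {b} v) =
        (le (LL U) ∅ u = le (LL U) ∅ w ∧ BB D t {b} u = BB D t {b} w)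
      rw [h1, h2]
    have e2 : Ez v = Ez w := by
      funext u
      show (E u ∧ tz U Typ b u = tz U Typ b v) = (E u ∧ tz U Typ b u = tz U Typ b w)
      rw [hvw]
    show Real.log (1 / (P.cond (xc D U t {b} v)).Pr (Ez v)) + 1 = Real.log (1 / (P.cond (xc D U t {b} w)).Pr (Ez w)) + 1
    rw [e1, e2]
  -- one value
  have key : ∀ w, Q.p w ≠ 0 → N (univ.erase b) * ((Q.cond fun v => tz U Typ b v = tz U Typ b w).I (fun w => w.2.2 b)
      (fun w => w.2.2 d) (Zf D U t b) + (Q.cond fun v => tz U Typ b v = tz U Typ b w).klc P (fun w => w.2.2 b) (Zf D U t b)) ≤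
      2 * N ∅ * ((Sf w + 1) / (P.cond (Ez w)).Pr V) + 2 * (N {c} * (Real.log (1 / (P.cond (Ez w)).Pr V) +
        (1 + Real.log (1 / al)))) := by
    intro w hw
    obtain ⟨hVw, hpw⟩ := (FP.cond_p_ne hV).1 hw
    have hEw := sV w hVw
    have hEz0 : P.Pr (Ez w) ≠ 0 := (FP.Pr_pos_of (S := Ez w) hpw ⟨hEw, rfl⟩).ne'
    have hEzw : (P.cond (Ez w)).p w ≠ 0 := (FP.cond_p_ne hEz0).2 ⟨⟨hEw, rfl⟩, hpw⟩
    have hpi : 0 < (P.cond (Ez w)).Pr V := FP.Pr_pos_of (S := V) hEzw hVw
    set pi := (P.cond (Ez w)).Pr V with hpid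
    have k1 := far_wl B hpw (E := Ez w) (fun v u hvu => by
      have hvu' : Ah D t {b} v = Ah D t {b} u := by
        simp only [Prod.mk.injEq] at hvu
        unfold Ah
        rw [Prod.mk.injEq]
        exact ⟨hvu.1, hvu.2.1⟩
      exact hEzf w v u hvu') ⟨hEw, rfl⟩ (hEzx w hEw) (act := V) (fun v u hvu => by
      simp only [Prod.mk.injEq] at hvu
      refine fV v u ?_
      unfold Ah
      rw [Prod.mk.injEq, BB_eq]
      have h2 := hvu.2.1
      rw [BB_eq] at h2
      exact ⟨hvu.1, fun j hj => h2.1 j (Finset.mem_insert_of_mem hj), h2.2⟩)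
    have k2 := wl_cond (P := P) (Q := P.cond (Ez w)) (FP.cond_ac _ _) (X := fun w => w.2.2 d) (Y := fun w => w.2.2 b)
      (Z := Zf D U t b) (act := V) hpi.ne'
    have e0 : (P.cond (Ez w)).cond V = Q.cond (fun v => tz U Typ b v = tz U Typ b w) := by
      have e : (fun v => Ez w v ∧ V v) = fun v => V v ∧ tz U Typ b v = tz U Typ b w := by
        funext v
        exact propext ⟨fun hh => ⟨hh.2, hh.1.2⟩, fun hh => ⟨⟨sV v hh.1, hh.2⟩, hh.1⟩⟩
      have h3 : P.Pr (fun v => V v ∧ tz U Typ b v = tz U Typ b w) ≠ 0 :=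
        (FP.Pr_pos_of (S := fun v => V v ∧ tz U Typ b v = tz U Typ b w) hpw ⟨hVw, rfl⟩).ne'
      rw [FP.cond_cond (by rw [e]; exact h3), e, hQ, FP.cond_cond h3]
    rw [e0] at k2
    have k3 := (mul_le_mul_of_nonneg_left k2 hNe.le).trans k1
    set A := (Q.cond fun v => tz U Typ b v = tz U Typ b w).I (fun w => w.2.2 b) (fun w => w.2.2 d) (Zf D U t b)
    set A' := (Q.cond fun v => tz U Typ b v = tz U Typ b w).klc P (fun w => w.2.2 b) (Zf D U t b)
    have k4 : pi * (N (univ.erase b) * (A + A')) ≤ 2 * N ∅ * (Sf w + 1) +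
        pi * (2 * (N {c} * (Real.log (1 / pi) + (1 + Real.log (1 / al))))) := by
      have h5 : pi * (N (univ.erase b) * (A + A')) = N (univ.erase b) * (pi * (A' + A)) := by ring
      rw [h5]
      refine k3.trans (le_of_eq ?_)
      show 2 * N ∅ * (Sf w + 1) + 2 * (N {c} * (pi * (Real.log (1 / pi) + 1 + Real.log (1 / al)))) = _
      ring
    have h6 : N (univ.erase b) * (A + A') = pi * (N (univ.erase b) * (A + A')) / pi := by field_simp
    rw [h6, div_le_iff₀ hpi]
    refine k4.trans (le_of_eq ?_)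
    field_simp
  rw [IK_cond hac, ← FP.E_smul]
  refine (Q.E_mono key).trans ?_
  rw [FP.E_add, FP.E_smul, FP.E_smul, FP.E_smul, FP.E_add, FP.E_const]
  have m1 := sub_div (P := P) (E := E) (V := V) sV hV (tz U Typ b) (f := fun w => Sf w + 1) hSff hSf0
  have m2 := sub_log (P := P) (E := E) (V := V) sV hV (tz U Typ b)
  have hyE : P.Pr E / P.Pr V ≤ 1 / y := by
    rw [div_le_div_iff₀ hV0 hy]
    linarith
  have m3 : (P.cond E).E (fun w => Sf w + 1) ≤ L + Real.log (M + 1) + 1 := by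
    rw [FP.E_add, FP.E_const]
    have h1 : (P.cond E).E Sf = _ := hs
    rw [h1]
    linarith
  have m30 : 0 ≤ (P.cond E).E (fun w => Sf w + 1) := FP.E_nonneg _ fun w hw => by
    obtain ⟨h1, h2⟩ := (FP.cond_p_ne hE0.ne').1 hw
    exact hSf0 w h2 h1
  have m4 : P.Pr E / P.Pr V * (P.cond E).E (fun w => Sf w + 1) ≤ (L + Real.log (M + 1) + 1) / y := by
    have h1 := mul_le_mul hyE m3 m30 (by positivity)
    refine h1.trans (le_of_eq ?_)
    ring
  have m5 : Real.log (1 / (P.Pr V / P.Pr E)) ≤ Real.log (1 / y) := by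
    refine Real.log_le_log (by positivity) ?_
    rw [one_div_div]
    exact hyE
  have f1 : 2 * N ∅ * Q.E (fun w => (Sf w + 1) / (P.cond (Ez w)).Pr V) ≤ 2 * N ∅ * (L + Real.log (M + 1) + 1) / y := by
    have h1 := mul_le_mul_of_nonneg_left (m1.trans m4) (show 0 ≤ 2 * N ∅ by linarith)
    refine h1.trans (le_of_eq ?_)
    ring
  have f2 : Q.E (fun w => Real.log (1 / (P.cond (Ez w)).Pr V)) ≤ Real.log (1 / y) := m2.trans m5
  have f3 := mul_le_mul_of_nonneg_left (add_le_add_left f2 (1 + Real.log (1 / al))) hNc.le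
  have f4 : 2 * (N {c} * (Q.E (fun w => Real.log (1 / (P.cond (Ez w)).Pr V)) + (1 + Real.log (1 / al)))) ≤
      2 * (N {c} * (Real.log (1 / y) + 1 + Real.log (1 / al))) := by linarith
  exact add_le_add f1 f4

theorem tz_zt (e : K) : tz (φ := φ) U Typ e = zt U Typ e := rfl

/-- the reference law of a top inside the public class -/
theorem klc_pub (B : Bk h N S U t b c d) {Q : FP (Pt K X β φ)} (hw0 : (D.P h t).p w0 ≠ 0)
    (hQ : ∀ v, Q.p v ≠ 0 → xc D U t ∅ w0 v ∧ (D.P h t).p v ≠ 0) {ρ : Type*} (F : Pt K X β φ → ρ) :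
    Q.klc ((D.P h t).cond (xc D U t ∅ w0)) F (Zf D U t b) = Q.klc (D.P h t) F (Zf D U t b) := by
  have hC0 : (D.P h t).Pr (xc D U t ∅ w0) ≠ 0 := xc_ne hw0
  unfold FP.klc
  refine Q.E_congr fun v hv => ?_
  obtain ⟨h1, h2⟩ := hQ v hv
  have e : ∀ u, Zf D U t b u = Zf D U t b v → xc D U t ∅ w0 u := by
    intro u hu
    have h3 := Zf_pub B hu
    exact ⟨h3.1.trans h1.1, h3.2.trans h1.2⟩
  have m1 : ((D.P h t).cond (xc D U t ∅ w0)).m (fun u => (F u, Zf D U t b u)) v =
      (D.P h t).m (fun u => (F u, Zf D U t b u)) v / (D.P h t).Pr (xc D U t ∅ w0) := by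
    show ((D.P h t).cond (xc D U t ∅ w0)).E _ = _
    rw [FP.cond_E hC0]
    congr 1
    refine (D.P h t).E_congr fun u _ => ?_
    by_cases hu : (F u, Zf D U t b u) = (F v, Zf D U t b v)
    · rw [ind_of (e u (Prod.mk.inj hu).2), one_mul]
    · rw [ind_not hu, mul_zero]
  have m2 : ((D.P h t).cond (xc D U t ∅ w0)).m (Zf D U t b) v =
      (D.P h t).m (Zf D U t b) v / (D.P h t).Pr (xc D U t ∅ w0) := by
    show ((D.P h t).cond (xc D U t ∅ w0)).E _ = _
    rw [FP.cond_E hC0]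
    congr 1
    refine (D.P h t).E_congr fun u _ => ?_
    by_cases hu : Zf D U t b u = Zf D U t b v
    · rw [ind_of (e u hu), one_mul]
    · rw [ind_not hu, mul_zero]
  rw [m1, m2]
  have h3 : (D.P h t).m (fun u => (F u, Zf D U t b u)) v / (D.P h t).Pr (xc D U t ∅ w0) /
      ((D.P h t).m (Zf D U t b) v / (D.P h t).Pr (xc D U t ∅ w0)) =
      (D.P h t).m (fun u => (F u, Zf D U t b u)) v / (D.P h t).m (Zf D U t b) v := by
    have := (D.P h t).m_pos (Zf D U t b) h2
    field_simp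
  rw [h3]

/-- **`far2` in the words of `BitKL`** : reference law = public class, conditions = points and letters of `c`, `d` -/
theorem far2_z (B : Bk h N S U t b c d) {E : Pt K X β φ → Prop} (I : In h U t w0 E) (fV : Fac (Ah D t {c}) V)
    (sV : ∀ v, V v → E v) (hV : (D.P h t).Pr V ≠ 0)
    (hM : ∀ c', ∃ s : Finset υ, (s.card : ℝ) ≤ M ∧ ∀ u, Typ c' u → u ∈ s) (hM0 : 0 ≤ M)
    (hL : Real.log (1 / ((D.P h t).cond (xc D U t ∅ w0)).Pr E) ≤ L) {y : ℝ} (hy : 0 < y)
    (hyV : y * (D.P h t).Pr E ≤ (D.P h t).Pr V) :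
    N (univ.erase b) * (((D.P h t).cond V).klc ((D.P h t).cond (xc D U t ∅ w0)) (fun w => w.2.2 b)
        (fun w => (zf U c w, zf U d w)) +
      ((D.P h t).cond V).I (fun w => w.2.2 b) (fun w => (zt U Typ b w, w.2.2 d)) (fun w => (zf U c w, zf U d w))) ≤
      2 * N ∅ * (L + Real.log (M + 1) + 1) / y + 2 * (N {c} * (Real.log (1 / y) + 1 + Real.log (1 / al))) := by
  have k := far2 (Typ := Typ) B I fV sV hV hM hM0 hL hy hyV
  have hsup : ∀ v, ((D.P h t).cond V).p v ≠ 0 → xc D U t ∅ w0 v ∧ (D.P h t).p v ≠ 0 := fun v hv => by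
    obtain ⟨h1, h2⟩ := (FP.cond_p_ne hV).1 hv
    exact ⟨I.sub v (sV v h1), h2⟩
  have hac : ((D.P h t).cond V).Ac ((D.P h t).cond (xc D U t ∅ w0)) := fun v hv =>
    (FP.cond_p_ne (xc_ne I.supp)).2 (hsup v hv)
  have hZ : ∀ v w, xc D U t ∅ w0 v → xc D U t ∅ w0 w →
      ((zf U c v, zf U d v) = (zf U c w, zf U d w) ↔ Zf D U t b v = Zf D U t b w) := by
    intro v w hv hw
    rw [Zf_iff B (hv.1.trans hw.1.symm) (hv.2.trans hw.2.symm), Prod.mk.injEq]
  have e1 : ((D.P h t).cond V).klc ((D.P h t).cond (xc D U t ∅ w0)) (fun w => w.2.2 b) (fun w => (zf U c w, zf U d w)) =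
      ((D.P h t).cond V).klc (D.P h t) (fun w => w.2.2 b) (Zf D U t b) := by
    rw [← klc_pub B I.supp hsup]
    exact klc_congr_supp hac (fun v w hv hw => hZ v w ((FP.cond_p_ne (xc_ne I.supp)).1 hv).1
      ((FP.cond_p_ne (xc_ne I.supp)).1 hw).1) (fun _ _ _ _ _ => Iff.rfl)
  have e2 : ((D.P h t).cond V).I (fun w => w.2.2 b) (fun w => (zt U Typ b w, w.2.2 d)) (fun w => (zf U c w, zf U d w)) =
      ((D.P h t).cond V).I (fun w => w.2.2 b) (fun w => (tz U Typ b w, w.2.2 d)) (Zf D U t b) :=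
    I_supp (fun _ _ _ _ => Iff.rfl) (fun _ _ _ _ => Iff.rfl)
      (fun v w hv hw => hZ v w (hsup v hv).1 (hsup w hw).1)
  rw [e1, e2]
  linarith

/-- the face `{b, c}` of the exact vertex `b` (top `w.2.2 d`), hint = vertex `d` and the top of `{b, d}` -/
theorem face_bc (B : Bk h N S U t b c d) {E : Pt K X β φ → Prop} (I : In h U t w0 E) (fV : Fac (Ah D t {b}) V)
    (sV : ∀ v, V v → E v) (hV : (D.P h t).Pr V ≠ 0)
    (hM : ∀ c', ∃ s : Finset υ, (s.card : ℝ) ≤ M ∧ ∀ u, Typ c' u → u ∈ s) (hM0 : 0 ≤ M)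
    (hL : Real.log (1 / ((D.P h t).cond (xc D U t ∅ w0)).Pr E) ≤ L) {y : ℝ} (hy : 0 < y)
    (hyV : y * (D.P h t).Pr E ≤ (D.P h t).Pr V) :
    N (univ.erase d) * (((D.P h t).cond V).klc ((D.P h t).cond (xc D U t ∅ w0)) (fun w => w.2.2 d)
        (fun w => (zf U b w, zf U c w)) +
      ((D.P h t).cond V).I (fun w => w.2.2 d) (fun w => (zt U Typ d w, w.2.2 c)) (fun w => (zf U b w, zf U c w))) ≤
      2 * N ∅ * (L + Real.log (M + 1) + 1) / y + 2 * (N {b} * (Real.log (1 / y) + 1 + Real.log (1 / al))) :=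
  far2_z B.rot' I fV sV hV hM hM0 hL hy hyV

/-- the face `{b, d}` of the exact vertex `b` (top `w.2.2 c`), hint = vertex `c` and the top of `{b, c}` -/
theorem face_bd (B : Bk h N S U t b c d) {E : Pt K X β φ → Prop} (I : In h U t w0 E) (fV : Fac (Ah D t {b}) V)
    (sV : ∀ v, V v → E v) (hV : (D.P h t).Pr V ≠ 0)
    (hM : ∀ c', ∃ s : Finset υ, (s.card : ℝ) ≤ M ∧ ∀ u, Typ c' u → u ∈ s) (hM0 : 0 ≤ M)
    (hL : Real.log (1 / ((D.P h t).cond (xc D U t ∅ w0)).Pr E) ≤ L) {y : ℝ} (hy : 0 < y)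
    (hyV : y * (D.P h t).Pr E ≤ (D.P h t).Pr V) :
    N (univ.erase c) * (((D.P h t).cond V).klc ((D.P h t).cond (xc D U t ∅ w0)) (fun w => w.2.2 c)
        (fun w => (zf U b w, zf U d w)) +
      ((D.P h t).cond V).I (fun w => w.2.2 c) (fun w => (zt U Typ c w, w.2.2 d)) (fun w => (zf U b w, zf U d w))) ≤
      2 * N ∅ * (L + Real.log (M + 1) + 1) / y + 2 * (N {b} * (Real.log (1 / y) + 1 + Real.log (1 / al))) :=
  far2_z B.rot I fV sV hV hM hM0 hL hy hyV

end inst

end Pool.Agent.GMH.RarV
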