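import Pool.Agent.GMH.RarN2
import Pool.Agent.GMH.RarB

/-!
# GMH/RarV2 (helper27): THE PRICES OF THE TWO TOPS, MEAN OVER THE EXACT VERTEX (RarV, part B1)

`V` = any event of positive mass, `Q = P.cond V`, `Q_w` = `Q` given the class `clm D U t b` of the exact vertex `b`
(public class, exact point and own letter of `b`).
* `klc_disint` : relative entropy as a mean over the classes of a map, reference law = `P` given the class;
* `I_trunc0` : from the full to the truncated letters;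
* **`rarV_X`** : mean of `pX` of `Q_w` against `QC` is at most the price of the top `{b, c}` given the full letters of `b`
  and `c` : `Q.klc P F_bc (Zf d) + Q.I F_bc (zt d, F_bd) (Zf d)`;
* **`rarV_Y`** : the same for `pY` and the top `{b, d}` (only the truncated letter of `c` beside it).
-/

set_option autoImplicit false
set_option linter.unusedSectionVars false

namespace Pool.Agent.GMH.RarX

open Finset Pool.Agent.PWZ Pool.Agent.M3 Pool.Agent.GM Pool.Agent.GM.Harm Pool.Agent.GMH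

section gen

variable {Om : Type*} [Fintype Om] {κ κ' ι ζ ζ' χ : Type*}

/-- masses inside a class -/
theorem m_cls {τ : Type*} (R : FP Om) (K : Om → χ) (Y : Om → τ) {w u : Om} (hR : R.Pr (fun v => K v = K w) ≠ 0)
    (hu : K u = K w) :
    (R.cond fun v => K v = K w).m Y u = R.m (fun v => (Y v, K v)) u / R.Pr (fun v => K v = K w) := by
  unfold FP.m
  rw [FP.cond_E hR]
  congr 1
  refine R.E_congr fun v _ => ?_
  rw [← ind_and]
  congr 1
  rw [Prod.mk.injEq, hu]
  exact propext ⟨fun hh => ⟨hh.2, hh.1⟩, fun hh => ⟨hh.2, hh.1⟩⟩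

/-- **the relative entropy as a mean over the classes** of `K` -/
theorem klc_disint {Q P : FP Om} (hac : Q.Ac P) (X : Om → κ) (Z : Om → ζ) (K : Om → χ) :
    Q.klc P X (fun v => (Z v, K v)) =
      Q.E (fun w => (Q.cond fun v => K v = K w).klc (P.cond fun v => K v = K w) X Z) := by
  set L : Om → ℝ := fun w => Real.log (Q.m (fun v => (X v, (Z v, K v))) w / Q.m (fun v => (Z v, K v)) w /
    (P.m (fun v => (X v, (Z v, K v))) w / P.m (fun v => (Z v, K v)) w)) with hL
  have h1 : ∀ w, Q.p w ≠ 0 → (Q.cond fun v => K v = K w).klc (P.cond fun v => K v = K w) X Z = Q.ce K L w := by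
    intro w hw
    have hQ0 : Q.Pr (fun v => K v = K w) ≠ 0 := (FP.Pr_pos_of (S := fun v => K v = K w) hw rfl).ne'
    have hP0 : P.Pr (fun v => K v = K w) ≠ 0 := (FP.Pr_pos_of (S := fun v => K v = K w) (hac w hw) rfl).ne'
    rw [Q.ce_eq_cond K L hw]
    unfold FP.klc
    refine FP.E_congr _ fun u hu => ?_
    obtain ⟨hu1, hu2⟩ := cond_supp hQ0 hu
    rw [m_cls Q K (fun v => (X v, Z v)) hQ0 hu1, m_cls Q K Z hQ0 hu1, m_cls P K (fun v => (X v, Z v)) hP0 hu1,
      m_cls P K Z hP0 hu1, div_div_div_cancel_right₀ hQ0, div_div_div_cancel_right₀ hP0]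
    have m1 : ∀ R : FP Om, R.m (fun v => ((X v, Z v), K v)) u = R.m (fun v => (X v, (Z v, K v))) u := fun R =>
      R.m_congr (fun a b h => by simp only [Prod.mk.injEq] at h ⊢; exact ⟨h.1.1, h.1.2, h.2⟩)
        (fun a b h => by simp only [Prod.mk.injEq] at h ⊢; exact ⟨⟨h.1, h.2.1⟩, h.2.2⟩) u
    rw [m1 Q, m1 P]
  rw [Q.E_congr h1, Q.E_ce]
  rfl

theorem I_const0 (P : FP Om) (Y : Om → ι) (Z : Om → ζ) : P.I (fun _ => ()) Y Z = 0 := by
  refine le_antisymm ((P.I_le_Hc _ _ _).trans (le_of_eq ?_)) (P.I_nonneg _ _ _)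
  unfold FP.Hc
  rw [P.H_congr (X := fun w : Om => ((), Z w)) (Y := Z) (Fac.snd _ _) ((Fac.const _ ()).prod (Fac.refl _)), sub_self]

/-- **from the full to the truncated letters** -/
theorem I_trunc0 {Q : FP Om} {X : Om → κ} {X' : Om → κ'} {Y : Om → ι} {Z : Om → ζ} {Z' : Om → ζ'} {T : Om → Prop}
    (hT : Fac Z T) (hT' : Fac Z' T)
    (h1 : ∀ v w, Q.p v ≠ 0 → Q.p w ≠ 0 → T v → T w → (Z' v = Z' w ↔ Z v = Z w))
    (h2 : ∀ v w, Q.p v ≠ 0 → Q.p w ≠ 0 → T v → T w → (X' v = X' w ↔ X v = X w))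
    (h3 : ∀ v w, ¬ T v → ¬ T w → X' v = X' w) : Q.I X' Y Z' ≤ Q.I X Y Z := by
  rw [I_disint Q X' Y Z' T hT', I_disint Q X Y Z T hT]
  refine Q.E_mono fun w hw => ?_
  have h0 : Q.Pr (fun v => T v = T w) ≠ 0 := (FP.Pr_pos_of (S := fun v => T v = T w) hw rfl).ne'
  by_cases hTw : T w
  · refine le_of_eq (I_supp ?_ (fun _ _ _ _ => Iff.rfl) ?_)
    · intro u v hu hv
      obtain ⟨a, b⟩ := cond_supp h0 hu
      obtain ⟨c, d⟩ := cond_supp h0 hv
      exact h2 u v b d (by rw [a]; exact hTw) (by rw [c]; exact hTw)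
    · intro u v hu hv
      obtain ⟨a, b⟩ := cond_supp h0 hu
      obtain ⟨c, d⟩ := cond_supp h0 hv
      exact h1 u v b d (by rw [a]; exact hTw) (by rw [c]; exact hTw)
  · have e : (Q.cond fun v => T v = T w).I X' Y Z' = (Q.cond fun v => T v = T w).I (fun _ => ()) Y Z' := by
      refine I_supp (fun u v hu hv => ?_) (fun _ _ _ _ => Iff.rfl) fun _ _ _ _ => Iff.rfl
      obtain ⟨a, b⟩ := cond_supp h0 hu
      obtain ⟨c, d⟩ := cond_supp h0 hv
      exact ⟨fun _ => rfl, fun _ => h3 u v (by rw [a]; exact hTw) (by rw [c]; exact hTw)⟩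
    rw [e, I_const0]
    exact FP.I_nonneg _ _ _ _

end gen

section inst

variable {K X β γ φ υ : Type} [Fintype K] [DecidableEq K] [Fintype X] [Fintype β] [Fintype φ] [Nonempty X] [Nonempty β]
  {D : HD K X β γ φ} {al : ℝ} {h : D.Thick al} {N : Finset K → ℝ} {S : Finset (Finset K)}
  {U : Finset K → X → (K → β) → υ} {t : ℕ} {b c d : K} {V : Pt K X β φ → Prop} {Typ : β → υ → Prop}

/-- `V` inside the class of the exact vertex of `w` -/
noncomputable def Qw (h : D.Thick al) (U : Finset K → X → (K → β) → υ) (t : ℕ) (b : K) (V : Pt K X β φ → Prop)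
    (w : Pt K X β φ) : FP (Pt K X β φ) := (D.P h t).cond fun v => V v ∧ clm D U t b v = clm D U t b w

theorem Qw_eq (hV0 : (D.P h t).Pr V ≠ 0) {w : Pt K X β φ} (hw : ((D.P h t).cond V).p w ≠ 0) :
    Qw h U t b V w = ((D.P h t).cond V).cond fun v => clm D U t b v = clm D U t b w := by
  obtain ⟨h1, h2⟩ := cond_supp hV0 hw
  unfold Qw
  rw [FP.cond_cond (FP.Pr_pos_of (S := fun v => V v ∧ clm D U t b v = clm D U t b w) h2 ⟨h1, rfl⟩).ne']

theorem QC_clm (w : Pt K X β φ) : QC h U t b w = (D.P h t).cond fun v => clm D U t b v = clm D U t b w := by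
  unfold QC
  congr 1
  funext v
  exact propext clm_iff.symm

/-- the event inside the class is an event of (hidden point, exact point of `b`) inside the class -/
theorem Ib_w (B : Bk h N S U t b c d) (fV : Fac (Ah D t {b}) V) (hV0 : (D.P h t).Pr V ≠ 0) {w : Pt K X β φ}
    (hw : ((D.P h t).cond V).p w ≠ 0) : Ib h U t b w (fun v => V v ∧ clm D U t b v = clm D U t b w) where
  fac := fun v u hvu => by
    have h1 := clsb_Ah B.dep (pub0_C (D := D) (U := U) (t := t) w) B.oth (w0 := w) (b := b) v u hvu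
    show (V v ∧ clm D U t b v = clm D U t b w) = (V u ∧ clm D U t b u = clm D U t b w)
    rw [fV v u hvu, propext clm_iff, propext (clm_iff (v := u)), h1]
  self := ⟨(cond_supp hV0 hw).1, rfl⟩
  supp := (cond_supp hV0 hw).2
  sub := fun _ hv => clm_iff.1 hv.2

/-- the mass as a mean over the classes -/
theorem Qw_Pr (hV0 : (D.P h t).Pr V ≠ 0) (A : Pt K X β φ → Prop) :
    ((D.P h t).cond V).E (fun w => (Qw h U t b V w).Pr A) = ((D.P h t).cond V).Pr A := by
  show _ = ((D.P h t).cond V).E (fun v => ind (A v))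
  rw [← E_disint ((D.P h t).cond V) (clm D U t b) (fun v => ind (A v))]
  refine FP.E_congr _ fun w hw => ?_
  rw [Qw_eq hV0 hw]
  rfl

/-- the full letters of `b` and `c` are the class and the letter of `c` -/
theorem Zf_clm (B : Bk h N S U t b c d) {v w : Pt K X β φ} :
    Zf D U t d v = Zf D U t d w ↔ (zf U c v = zf U c w ∧ clm D U t b v = clm D U t b w) := by
  have key : ∀ {v w : Pt K X β φ}, clm D U t b v = clm D U t b w ↔
      (le (LL U) ∅ v = le (LL U) ∅ w ∧ BB D t ∅ v = BB D t ∅ w) ∧ zf U b v = zf U b w := by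
    intro v w
    unfold clm zf
    rw [Prod.mk.injEq, Prod.mk.injEq]
  constructor
  · intro hh
    have h1 := Zf_pub B.rot' hh
    have h2 := (Zf_iff B.rot' h1.1 h1.2).1 hh
    exact ⟨h2.2, key.2 ⟨h1, h2.1⟩⟩
  · intro hh
    have h1 := key.1 hh.2
    exact (Zf_iff B.rot' h1.1.1 h1.1.2).2 ⟨h1.2, hh.1⟩

/-- **the relative entropy of the masked top** -/
theorem rarV_klc (B : Bk h N S U t b c d) (hV0 : (D.P h t).Pr V ≠ 0) :
    ((D.P h t).cond V).E (fun w => (Qw h U t b V w).klc (QC h U t b w) (fun v => fc (zt U Typ c v) (v.2.2 d)) (zt U Typ c)) ≤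
      ((D.P h t).cond V).klc (D.P h t) (fun v => v.2.2 d) (Zf D U t d) := by
  have hac : ((D.P h t).cond V).Ac (D.P h t) := FP.cond_ac _ _
  have e1 : ((D.P h t).cond V).E (fun w => (Qw h U t b V w).klc (QC h U t b w)
      (fun v => fc (zt U Typ c v) (v.2.2 d)) (zt U Typ c)) = ((D.P h t).cond V).klc (D.P h t)
        (fun v => fc (zt U Typ c v) (v.2.2 d)) (fun v => (zt U Typ c v, clm D U t b v)) := by
    rw [klc_disint hac]
    refine FP.E_congr _ fun w hw => ?_
    rw [Qw_eq hV0 hw, QC_clm]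
  rw [e1]
  refine klc_trunc hac (T := fun v => Typ (v.2.1 c) (U {c} v.1 v.2.1)) ?_ ?_ ?_ ?_
  · intro v w hvw
    have h1 := ((Zf_clm B).1 hvw).1
    exact typ_zf v w h1
  · intro v w _ _ hT
    rw [Zf_clm B, Prod.mk.injEq, zt_iff hT]
  · intro v w _ _ hT hz
    have hTv := typ_of ((Zf_clm B).1 hz).1 hT
    show fc (zt U Typ c v) (v.2.2 d) = fc (zt U Typ c w) (w.2.2 d) ↔ v.2.2 d = w.2.2 d
    rw [fc_pos hTv, fc_pos hT]
    exact ⟨fun hh => Option.some_injective _ hh, fun hh => by rw [hh]⟩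
  · intro v w _ _ hT hz
    have hTv : ¬ Typ (v.2.1 c) (U {c} v.1 v.2.1) := fun hh => hT ((typ_zt (Prod.mk.inj hz).1).1 hh)
    show fc (zt U Typ c v) (v.2.2 d) = fc (zt U Typ c w) (w.2.2 d)
    rw [fc_neg hTv, fc_neg hT]

/-- **the information of the masked top** about anything -/
theorem rarV_I {τ : Type} (B : Bk h N S U t b c d) (hV0 : (D.P h t).Pr V ≠ 0) (Y : Pt K X β φ → τ) :
    ((D.P h t).cond V).E (fun w => (Qw h U t b V w).I (fun v => fc (zt U Typ c v) (v.2.2 d)) Y (zt U Typ c)) ≤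
      ((D.P h t).cond V).I (fun v => v.2.2 d) Y (Zf D U t d) := by
  have e1 : ((D.P h t).cond V).E (fun w => (Qw h U t b V w).I (fun v => fc (zt U Typ c v) (v.2.2 d)) Y (zt U Typ c)) =
      ((D.P h t).cond V).I (fun v => fc (zt U Typ c v) (v.2.2 d)) Y (fun v => (zt U Typ c v, clm D U t b v)) := by
    rw [I_disint ((D.P h t).cond V) _ _ (fun v => (zt U Typ c v, clm D U t b v)) (clm D U t b) (Fac.snd _ _)]
    refine FP.E_congr _ fun w hw => ?_
    rw [Qw_eq hV0 hw]
    have h0 : ((D.P h t).cond V).Pr (fun v => clm D U t b v = clm D U t b w) ≠ 0 :=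
      (FP.Pr_pos_of (S := fun v => clm D U t b v = clm D U t b w) hw rfl).ne'
    refine I_supp (fun _ _ _ _ => Iff.rfl) (fun _ _ _ _ => Iff.rfl) fun u v hu hv => ?_
    have a := (cond_supp h0 hu).1
    have b' := (cond_supp h0 hv).1
    exact ⟨fun hh => by rw [Prod.mk.injEq]; exact ⟨hh, a.trans b'.symm⟩, fun hh => (Prod.mk.inj hh).1⟩
  rw [e1]
  refine I_trunc0 (T := fun v => Typ (v.2.1 c) (U {c} v.1 v.2.1)) ?_ ?_ ?_ ?_ ?_
  · intro v w hvw
    exact typ_zf v w ((Zf_clm B).1 hvw).1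
  · intro v w hvw
    exact propext (typ_zt (Prod.mk.inj hvw).1)
  · intro v w _ _ _ hT
    rw [Zf_clm B, Prod.mk.injEq, zt_iff hT]
  · intro v w _ _ hTv hT
    show fc (zt U Typ c v) (v.2.2 d) = fc (zt U Typ c w) (w.2.2 d) ↔ v.2.2 d = w.2.2 d
    rw [fc_pos hTv, fc_pos hT]
    exact ⟨fun hh => Option.some_injective _ hh, fun hh => by rw [hh]⟩
  · intro v w hTv hT
    show fc (zt U Typ c v) (v.2.2 d) = fc (zt U Typ c w) (w.2.2 d)
    rw [fc_neg hTv, fc_neg hT]

/-- **THE MEAN OF `pX`** -/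
theorem rarV_X (B : Bk h N S U t b c d) (hV0 : (D.P h t).Pr V ≠ 0) :
    ((D.P h t).cond V).E (fun w => pX (Qw h U t b V w) (QC h U t b w) (zt U Typ c) (zt U Typ d)
      (fun v => fc (zt U Typ c v) (v.2.2 d)) (fun v => fc (zt U Typ d v) (v.2.2 c))) ≤
    ((D.P h t).cond V).klc (D.P h t) (fun v => v.2.2 d) (Zf D U t d) +
      ((D.P h t).cond V).I (fun v => v.2.2 d) (fun v => (zt U Typ d v, v.2.2 c)) (Zf D U t d) := by
  unfold pX
  rw [FP.E_add]
  refine add_le_add (rarV_klc B hV0) ((rarV_I B hV0 _).trans ?_)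
  rw [FP.I_comm, FP.I_comm (X := fun v : Pt K X β φ => v.2.2 d)]
  refine FP.I_mono _ _ fun v w hvw => ?_
  rw [Prod.mk.injEq, Prod.mk.injEq] at hvw
  show (zt U Typ d v, fc (zt U Typ d v) (v.2.2 c)) = (zt U Typ d w, fc (zt U Typ d w) (w.2.2 c))
  rw [hvw.1.1, hvw.1.2]

/-- **THE MEAN OF `pY`** -/
theorem rarV_Y (B : Bk h N S U t b c d) (hV0 : (D.P h t).Pr V ≠ 0) :
    ((D.P h t).cond V).E (fun w => pY (Qw h U t b V w) (QC h U t b w) (zt U Typ c) (zt U Typ d)
      (fun v => fc (zt U Typ d v) (v.2.2 c))) ≤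
    ((D.P h t).cond V).klc (D.P h t) (fun v => v.2.2 c) (Zf D U t c) +
      ((D.P h t).cond V).I (fun v => v.2.2 c) (fun v => (zt U Typ c v, v.2.2 d)) (Zf D U t c) := by
  unfold pY
  rw [FP.E_add]
  refine add_le_add (rarV_klc B.swap hV0) ((rarV_I B.swap hV0 _).trans ?_)
  rw [FP.I_comm, FP.I_comm (X := fun v : Pt K X β φ => v.2.2 c)]
  refine FP.I_mono _ _ fun v w hvw => ?_
  rw [Prod.mk.injEq, Prod.mk.injEq] at hvw
  exact hvw.1.1

end inst

end Pool.Agent.GMH.RarX
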