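import Pool.Agent.GMH.RarB
import Pool.Agent.GMH.RarN2

/-!
# GMH/RarV3 (helper54): THE MEAN SURPRISE AND THE MEAN PRICES inside an event of the exact vertex (row RarV, part B2)

`P = D.P h t`, `C0 = xc D U t ∅ w0` public class, `V` = event of (hidden point, exact point of `b`) inside it, own letters of
`b` typical on it (`M` typical letters at most at a point).  At a point `w` of `V` : `V_w := V` and the class `clm` of `w`,
an event `Ib` at `w` (`Ib_of`).
* **`surp`** : `E_{P(. | V)} log (1 / QB_w (V_w)) ≤ log (P C0 / P V) + log M`;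
* **`mC`**, **`mD`**, **`mW`** : means over `w ~ P(. | V)` of `pC`, `pD`, `pW` of `Q_w = P(. | V_w)` : `klet`, `kP3` at
  `log (P C0 / P V) + log M`; `mC0`, `mD0`, `mW0` : the same for the law `QC_w` of the class of `w` (`surp0`);
  `mC1`, `mD1`, `mW1` : the same for a larger event `V1` (`surp1`).
-/

set_option autoImplicit false
set_option linter.unusedSectionVars false

namespace Pool.Agent.GMH.RarV3

open Finset Pool.Agent.PWZ Pool.Agent.M3 Pool.Agent.GM Pool.Agent.GM.Harm Pool.Agent.GMH Pool.Agent.GMH.RarX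

section inst

variable {K X β γ φ υ : Type} [Fintype K] [DecidableEq K] [Fintype X] [Fintype β] [Fintype φ] [Nonempty X] [Nonempty β]
  {D : HD K X β γ φ} {al : ℝ} {h : D.Thick al} {N : Finset K → ℝ} {S : Finset (Finset K)}
  {U : Finset K → X → (K → β) → υ} {t : ℕ} {b c d : K} {w0 : Pt K X β φ} {V : Pt K X β φ → Prop}
  {Typ : β → υ → Prop} {M L : ℝ}

/-- the event at a point of `V` -/
theorem Ib_of (B : Bk h N S U t b c d) (fV : Fac (Ah D t {b}) V) {w : Pt K X β φ} (hw : (D.P h t).p w ≠ 0) (hV : V w) :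
    Ib h U t b w (fun v => V v ∧ clm D U t b v = clm D U t b w) where
  fac := fun v u hvu => by
    show (V v ∧ clm D U t b v = clm D U t b w) = (V u ∧ clm D U t b u = clm D U t b w)
    have h1 := clsb_Ah B.dep (pub0_C (D := D) (U := U) (t := t) w) B.oth (w0 := w) v u hvu
    rw [fV v u hvu, propext (clm_iff (v := v) (w0 := w)), propext (clm_iff (v := u) (w0 := w)), h1]
  self := ⟨hV, rfl⟩
  supp := hw
  sub := fun v hv => clm_iff.1 hv.2

/-- the class at a point -/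
theorem Ib_cls (B : Bk h N S U t b c d) {w : Pt K X β φ} (hw : (D.P h t).p w ≠ 0) :
    Ib h U t b w (clsb U (pub0 D t U w) b w) where
  fac := clsb_Ah B.dep (pub0_C w) B.oth
  self := ⟨rfl, rfl, rfl⟩
  supp := hw
  sub := fun _ hv => hv

/-- **THE MEAN SURPRISE** -/
theorem surp (B : Bk h N S U t b c d) (fV : Fac (Ah D t {b}) V) (sV : ∀ v, V v → xc D U t ∅ w0 v)
    (hV0 : (D.P h t).Pr V ≠ 0) (hT : ∀ v, V v → Typ (v.2.1 b) (U {b} v.1 v.2.1))
    (hM : ∀ c', ∃ s : Finset υ, (s.card : ℝ) ≤ M ∧ ∀ u, Typ c' u → u ∈ s) :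
    ((D.P h t).cond V).E (fun w => Lb h U t b w (fun v => V v ∧ clm D U t b v = clm D U t b w)) ≤
      Real.log ((D.P h t).Pr (xc D U t ∅ w0) / (D.P h t).Pr V) + Real.log M := by
  classical
  set P := D.P h t with hP
  set C := xc D U t ∅ w0 with hC
  set R := P.cond C with hR
  set Q := P.cond V with hQ
  have p3 : 0 < P.Pr V := lt_of_le_of_ne (P.Pr_nonneg _) (Ne.symm hV0)
  have p4 : 0 < P.Pr C := lt_of_lt_of_le p3 (P.Pr_mono fun v _ hv => sV v hv)
  have hC0 : P.Pr C ≠ 0 := p4.ne'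
  have hac : Q.Ac R := fun w hw => by
    obtain ⟨h1, h2⟩ := (FP.cond_p_ne hV0).1 hw
    exact (FP.cond_p_ne hC0).2 ⟨sV w h1, h2⟩
  -- the three parts
  have k1 : 0 ≤ Q.kl R (BB D t {b}) := FP.kl_nonneg hac _
  have k2 : Q.Hc (clm D U t b) (BB D t {b}) ≤ Real.log M := by
    refine Hc_le_card Q _ _ fun w hw => ?_
    obtain ⟨hVw, hpw⟩ := (FP.cond_p_ne hV0).1 hw
    obtain ⟨T, hT1, hT2⟩ := hM (w.2.1 b)
    refine ⟨T.image fun u => ((le (LL U) ∅ w, BB D t ∅ w), (w.2.1 b, u)), ?_, fun v hv hvw => ?_⟩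
    · have a1 : ((T.image fun u => ((le (LL U) ∅ w, BB D t ∅ w), (w.2.1 b, u))).card : ℝ) ≤ (T.card : ℝ) := by
        exact_mod_cast Finset.card_image_le
      linarith
    · obtain ⟨hVv, hpv⟩ := (FP.cond_p_ne hV0).1 hv
      have hb : v.2.1 b = w.2.1 b := by
        rw [BB_eq] at hvw
        exact hvw.1 b (Finset.mem_singleton_self b)
      have e1 : le (LL U) ∅ v = le (LL U) ∅ w := (sV v hVv).1.trans (sV w hVw).1.symm
      have e2 : BB D t ∅ v = BB D t ∅ w := (sV v hVv).2.trans (sV w hVw).2.symm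
      refine Finset.mem_image.2 ⟨U {b} v.1 v.2.1, hT2 _ (by rw [← hb]; exact hT v hVv), ?_⟩
      unfold clm
      rw [e1, e2, hb]
  have key : Q.E (fun w => Lb h U t b w (fun v => V v ∧ clm D U t b v = clm D U t b w)) =
      Real.log (P.Pr C / P.Pr V) - Q.kl R (BB D t {b}) + Q.Hc (clm D U t b) (BB D t {b}) := by
    rw [Hc_eq_E_log, ← Q.E_const (Real.log (P.Pr C / P.Pr V))]
    unfold FP.kl
    rw [← FP.E_sub, ← FP.E_add]
    refine Q.E_congr fun w hw => ?_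
    obtain ⟨hVw, hpw⟩ := (FP.cond_p_ne hV0).1 hw
    have hCw := sV w hVw
    have hx0 : P.Pr (xc D U t {b} w) ≠ 0 := xc_ne hpw
    have I := Ib_of B fV hpw hVw
    -- the masses
    have m1 : (QB h U t b w).Pr (fun v => V v ∧ clm D U t b v = clm D U t b w) =
        P.Pr (fun v => V v ∧ clm D U t b v = clm D U t b w) / P.Pr (xc D U t {b} w) := by
      unfold QB
      rw [FP.cond_Pr hx0]
      congr 2
      funext v
      exact propext ⟨fun hh => hh.2, fun hh => ⟨I.inx hh, hh⟩⟩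
    have m2 : Q.m (fun v => (clm D U t b v, BB D t {b} v)) w =
        P.Pr (fun v => V v ∧ clm D U t b v = clm D U t b w) / P.Pr V := by
      show (P.cond V).E _ = _
      rw [FP.cond_E hV0]
      congr 1
      unfold FP.Pr
      refine P.E_congr fun v _ => ?_
      by_cases hv : V v
      · by_cases hy : clm D U t b v = clm D U t b w
        · have h1 : (clm D U t b v, BB D t {b} v) = (clm D U t b w, BB D t {b} w) := by
            rw [hy, (I.inx (v := v) ⟨hv, hy⟩).2]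
          rw [ind_of hv, ind_of h1, ind_of ⟨hv, hy⟩, one_mul]
        · have h1 : ¬ (clm D U t b v, BB D t {b} v) = (clm D U t b w, BB D t {b} w) := fun hh => hy (Prod.mk.inj hh).1
          rw [ind_of hv, ind_not h1, ind_not (fun hh => hy hh.2 : ¬ (V v ∧ clm D U t b v = clm D U t b w)), mul_zero]
      · have h2 : ¬ (V v ∧ clm D U t b v = clm D U t b w) := fun hh => hv hh.1
        rw [ind_not hv, ind_not h2, zero_mul]
    have m3 : R.m (BB D t {b}) w = P.Pr (xc D U t {b} w) / P.Pr C := by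
      show (P.cond C).E _ = _
      rw [FP.cond_E hC0]
      congr 1
      unfold FP.Pr
      refine P.E_congr fun v _ => ?_
      have e : ind (xc D U t {b} w v) = ind (C v) * ind (BB D t {b} v = BB D t {b} w) := by
        rw [← ind_and]
        congr 1
        exact propext (RarN.xc_I hCw)
      rw [e]
    have p1 : 0 < P.Pr (fun v => V v ∧ clm D U t b v = clm D U t b w) :=
      FP.Pr_pos_of (S := fun v => V v ∧ clm D U t b v = clm D U t b w) hpw ⟨hVw, rfl⟩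
    have p2 : 0 < P.Pr (xc D U t {b} w) := lt_of_le_of_ne (P.Pr_nonneg _) (Ne.symm hx0)
    have p5 : 0 < Q.m (BB D t {b}) w := Q.m_pos _ hw
    unfold Lb
    rw [m1, m2, m3, ← Real.log_div (by positivity) (by positivity), ← Real.log_mul (by positivity) (by positivity)]
    congr 1
    field_simp
  rw [key]
  linarith

/-- the mean surprise of the class -/
theorem surp0 (B : Bk h N S U t b c d) (fV : Fac (Ah D t {b}) V) (sV : ∀ v, V v → xc D U t ∅ w0 v)
    (hV0 : (D.P h t).Pr V ≠ 0) (hT : ∀ v, V v → Typ (v.2.1 b) (U {b} v.1 v.2.1))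
    (hM : ∀ c', ∃ s : Finset υ, (s.card : ℝ) ≤ M ∧ ∀ u, Typ c' u → u ∈ s) :
    ((D.P h t).cond V).E (fun w => Lb h U t b w (clsb U (pub0 D t U w) b w)) ≤
      Real.log ((D.P h t).Pr (xc D U t ∅ w0) / (D.P h t).Pr V) + Real.log M := by
  refine le_trans (((D.P h t).cond V).E_mono fun w hw => ?_) (surp B fV sV hV0 hT hM)
  obtain ⟨hVw, hpw⟩ := (FP.cond_p_ne hV0).1 hw
  have I := Ib_of B fV hpw hVw
  have h1 : (QB h U t b w).Pr (fun v => V v ∧ clm D U t b v = clm D U t b w) ≤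
      (QB h U t b w).Pr (clsb U (pub0 D t U w) b w) := (QB h U t b w).Pr_mono fun v _ hv => I.sub v hv
  have h0 : 0 < (QB h U t b w).Pr (fun v => V v ∧ clm D U t b v = clm D U t b w) :=
    lt_of_le_of_ne ((QB h U t b w).Pr_nonneg _) I.neB.symm
  exact Real.log_le_log (one_div_pos.2 (lt_of_lt_of_le h0 h1)) (one_div_le_one_div_of_le h0 h1)

/-! ### the prices are affine in the surprise -/

theorem klet_E (B : Bk h N S U t b c d) {Q : FP (Pt K X β φ)} {f : Pt K X β φ → ℝ} (hf : Q.E f ≤ L) :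
    Q.E (fun w => klet N al M c (f w)) ≤ klet N al M c L := by
  have hN0 := B.nn ∅ B.s0
  have hNc := B.n1 c
  have e : Q.E (fun w => klet N al M c (f w)) = klet N al M c (Q.E f) := by
    have e1 : ∀ w, klet N al M c (f w) = f w * (2 * N ∅ / N {c}) +
        (2 * N ∅ + 2 * (N ∅ * Real.log ((M + 1) * (1 / al)))) / N {c} := by
      intro w
      unfold klet
      field_simp
      ring
    rw [Q.E_congr fun w _ => e1 w, FP.E_add, FP.E_const, FP.E_mul_const]
    unfold klet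
    field_simp
    ring
  rw [e]
  unfold klet
  gcongr

theorem kP3_E (B : Bk h N S U t b c d) {Q : FP (Pt K X β φ)} {f : Pt K X β φ → ℝ} (hf : Q.E f ≤ L) :
    Q.E (fun w => kP3 N al b c d (f w)) ≤ kP3 N al b c d L := by
  have hN0 := B.nn ∅ B.s0
  have hNe := B.n2 b
  have e : Q.E (fun w => kP3 N al b c d (f w)) = kP3 N al b c d (Q.E f) := by
    have e1 : ∀ w, kP3 N al b c d (f w) = f w * (2 * N ∅ / N (univ.erase b)) +
        (2 * N ∅ + 2 * ((N {c} + N {d}) * Real.log (1 / al))) / N (univ.erase b) := by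
      intro w
      unfold kP3
      field_simp
      ring
    rw [Q.E_congr fun w _ => e1 w, FP.E_add, FP.E_const, FP.E_mul_const]
    unfold kP3
    field_simp
    ring
  rw [e]
  unfold kP3
  gcongr

/-! ### the means of the prices, events -/

theorem mC (B : Bk h N S U t b c d) (fV : Fac (Ah D t {b}) V) (sV : ∀ v, V v → xc D U t ∅ w0 v)
    (hV0 : (D.P h t).Pr V ≠ 0) (hT : ∀ v, V v → Typ (v.2.1 b) (U {b} v.1 v.2.1)) (hM0 : 0 ≤ M)
    (hM : ∀ c', ∃ s : Finset υ, (s.card : ℝ) ≤ M ∧ ∀ u, Typ c' u → u ∈ s) :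
    ((D.P h t).cond V).E (fun w => pC ((D.P h t).cond (fun v => V v ∧ clm D U t b v = clm D U t b w)) (QB h U t b w)
      (zt U Typ c)) ≤
      klet N al M c (Real.log ((D.P h t).Pr (xc D U t ∅ w0) / (D.P h t).Pr V) + Real.log M) := by
  refine le_trans (((D.P h t).cond V).E_mono fun w hw => ?_) (klet_E B (surp B fV sV hV0 hT hM))
  obtain ⟨hVw, hpw⟩ := (FP.cond_p_ne hV0).1 hw
  exact pC_le B (Ib_of B fV hpw hVw) hM0 le_rfl

theorem mD (B : Bk h N S U t b c d) (fV : Fac (Ah D t {b}) V) (sV : ∀ v, V v → xc D U t ∅ w0 v)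
    (hV0 : (D.P h t).Pr V ≠ 0) (hT : ∀ v, V v → Typ (v.2.1 b) (U {b} v.1 v.2.1)) (hM0 : 0 ≤ M)
    (hM : ∀ c', ∃ s : Finset υ, (s.card : ℝ) ≤ M ∧ ∀ u, Typ c' u → u ∈ s) :
    ((D.P h t).cond V).E (fun w => pD ((D.P h t).cond (fun v => V v ∧ clm D U t b v = clm D U t b w)) (QB h U t b w)
      (zt U Typ c) (zt U Typ d)) ≤
      klet N al M d (Real.log ((D.P h t).Pr (xc D U t ∅ w0) / (D.P h t).Pr V) + Real.log M) +
        klet N al M c (Real.log ((D.P h t).Pr (xc D U t ∅ w0) / (D.P h t).Pr V) + Real.log M) := by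
  have hs := surp B fV sV hV0 hT hM
  have h1 : ((D.P h t).cond V).E (fun w => pD ((D.P h t).cond (fun v => V v ∧ clm D U t b v = clm D U t b w))
      (QB h U t b w) (zt U Typ c) (zt U Typ d)) ≤ ((D.P h t).cond V).E (fun w =>
      klet N al M d (Lb h U t b w (fun v => V v ∧ clm D U t b v = clm D U t b w)) +
        klet N al M c (Lb h U t b w (fun v => V v ∧ clm D U t b v = clm D U t b w))) := by
    refine ((D.P h t).cond V).E_mono fun w hw => ?_
    obtain ⟨hVw, hpw⟩ := (FP.cond_p_ne hV0).1 hw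
    exact pD_le B (Ib_of B fV hpw hVw) hM0 hM le_rfl
  rw [FP.E_add] at h1
  exact h1.trans (add_le_add (klet_E B.swap hs) (klet_E B hs))

theorem mW (B : Bk h N S U t b c d) (fV : Fac (Ah D t {b}) V) (sV : ∀ v, V v → xc D U t ∅ w0 v)
    (hV0 : (D.P h t).Pr V ≠ 0) (hT : ∀ v, V v → Typ (v.2.1 b) (U {b} v.1 v.2.1))
    (hM : ∀ c', ∃ s : Finset υ, (s.card : ℝ) ≤ M ∧ ∀ u, Typ c' u → u ∈ s) :
    ((D.P h t).cond V).E (fun w => pW ((D.P h t).cond (fun v => V v ∧ clm D U t b v = clm D U t b w)) (QB h U t b w)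
      (fun w => (zf U c w, zf U d w)) (fun w => fc (zt U Typ c w) (w.2.2 d)) (fun w => fc (zt U Typ d w) (w.2.2 c))
      (fun w => w.2.2 b)) ≤
      kP3 N al b c d (Real.log ((D.P h t).Pr (xc D U t ∅ w0) / (D.P h t).Pr V) + Real.log M) := by
  refine le_trans (((D.P h t).cond V).E_mono fun w hw => ?_) (kP3_E B (surp B fV sV hV0 hT hM))
  obtain ⟨hVw, hpw⟩ := (FP.cond_p_ne hV0).1 hw
  exact pW_le B (Ib_of B fV hpw hVw) le_rfl

/-! ### the means of the prices, the class -/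

theorem mC0 (B : Bk h N S U t b c d) (fV : Fac (Ah D t {b}) V) (sV : ∀ v, V v → xc D U t ∅ w0 v)
    (hV0 : (D.P h t).Pr V ≠ 0) (hT : ∀ v, V v → Typ (v.2.1 b) (U {b} v.1 v.2.1)) (hM0 : 0 ≤ M)
    (hM : ∀ c', ∃ s : Finset υ, (s.card : ℝ) ≤ M ∧ ∀ u, Typ c' u → u ∈ s) :
    ((D.P h t).cond V).E (fun w => pC (QC h U t b w) (QB h U t b w) (zt U Typ c)) ≤
      klet N al M c (Real.log ((D.P h t).Pr (xc D U t ∅ w0) / (D.P h t).Pr V) + Real.log M) := by
  refine le_trans (((D.P h t).cond V).E_mono fun w hw => ?_) (klet_E B (surp0 B fV sV hV0 hT hM))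
  obtain ⟨hVw, hpw⟩ := (FP.cond_p_ne hV0).1 hw
  exact pC_le B (Ib_cls B hpw) hM0 le_rfl

theorem mD0 (B : Bk h N S U t b c d) (fV : Fac (Ah D t {b}) V) (sV : ∀ v, V v → xc D U t ∅ w0 v)
    (hV0 : (D.P h t).Pr V ≠ 0) (hT : ∀ v, V v → Typ (v.2.1 b) (U {b} v.1 v.2.1)) (hM0 : 0 ≤ M)
    (hM : ∀ c', ∃ s : Finset υ, (s.card : ℝ) ≤ M ∧ ∀ u, Typ c' u → u ∈ s) :
    ((D.P h t).cond V).E (fun w => pD (QC h U t b w) (QB h U t b w) (zt U Typ c) (zt U Typ d)) ≤
      klet N al M d (Real.log ((D.P h t).Pr (xc D U t ∅ w0) / (D.P h t).Pr V) + Real.log M) +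
        klet N al M c (Real.log ((D.P h t).Pr (xc D U t ∅ w0) / (D.P h t).Pr V) + Real.log M) := by
  have hs := surp0 B fV sV hV0 hT hM
  have h1 : ((D.P h t).cond V).E (fun w => pD (QC h U t b w) (QB h U t b w) (zt U Typ c) (zt U Typ d)) ≤
      ((D.P h t).cond V).E (fun w => klet N al M d (Lb h U t b w (clsb U (pub0 D t U w) b w)) +
        klet N al M c (Lb h U t b w (clsb U (pub0 D t U w) b w))) := by
    refine ((D.P h t).cond V).E_mono fun w hw => ?_
    obtain ⟨hVw, hpw⟩ := (FP.cond_p_ne hV0).1 hw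
    exact pD_le B (Ib_cls B hpw) hM0 hM le_rfl
  rw [FP.E_add] at h1
  exact h1.trans (add_le_add (klet_E B.swap hs) (klet_E B hs))

theorem mW0 (B : Bk h N S U t b c d) (fV : Fac (Ah D t {b}) V) (sV : ∀ v, V v → xc D U t ∅ w0 v)
    (hV0 : (D.P h t).Pr V ≠ 0) (hT : ∀ v, V v → Typ (v.2.1 b) (U {b} v.1 v.2.1))
    (hM : ∀ c', ∃ s : Finset υ, (s.card : ℝ) ≤ M ∧ ∀ u, Typ c' u → u ∈ s) :
    ((D.P h t).cond V).E (fun w => pW (QC h U t b w) (QB h U t b w)
      (fun w => (zf U c w, zf U d w)) (fun w => fc (zt U Typ c w) (w.2.2 d)) (fun w => fc (zt U Typ d w) (w.2.2 c))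
      (fun w => w.2.2 b)) ≤
      kP3 N al b c d (Real.log ((D.P h t).Pr (xc D U t ∅ w0) / (D.P h t).Pr V) + Real.log M) := by
  refine le_trans (((D.P h t).cond V).E_mono fun w hw => ?_) (kP3_E B (surp0 B fV sV hV0 hT hM))
  obtain ⟨hVw, hpw⟩ := (FP.cond_p_ne hV0).1 hw
  exact pW_le B (Ib_cls B hpw) le_rfl

/-! ### the means of the prices, a larger event `V1` -/

/-- the mean surprise of a larger event -/
theorem surp1 (B : Bk h N S U t b c d) (fV : Fac (Ah D t {b}) V) (sV : ∀ v, V v → xc D U t ∅ w0 v)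
    (hV0 : (D.P h t).Pr V ≠ 0) (hT : ∀ v, V v → Typ (v.2.1 b) (U {b} v.1 v.2.1))
    (hM : ∀ c', ∃ s : Finset υ, (s.card : ℝ) ≤ M ∧ ∀ u, Typ c' u → u ∈ s) {V1 : Pt K X β φ → Prop}
    (sV1 : ∀ v, V v → V1 v) :
    ((D.P h t).cond V).E (fun w => Lb h U t b w (fun v => V1 v ∧ clm D U t b v = clm D U t b w)) ≤
      Real.log ((D.P h t).Pr (xc D U t ∅ w0) / (D.P h t).Pr V) + Real.log M := by
  refine le_trans (((D.P h t).cond V).E_mono fun w hw => ?_) (surp B fV sV hV0 hT hM)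
  obtain ⟨hVw, hpw⟩ := (FP.cond_p_ne hV0).1 hw
  have I := Ib_of B fV hpw hVw
  have h1 : (QB h U t b w).Pr (fun v => V v ∧ clm D U t b v = clm D U t b w) ≤
      (QB h U t b w).Pr (fun v => V1 v ∧ clm D U t b v = clm D U t b w) :=
    (QB h U t b w).Pr_mono fun v _ hv => ⟨sV1 v hv.1, hv.2⟩
  have h0 : 0 < (QB h U t b w).Pr (fun v => V v ∧ clm D U t b v = clm D U t b w) :=
    lt_of_le_of_ne ((QB h U t b w).Pr_nonneg _) I.neB.symm
  exact Real.log_le_log (one_div_pos.2 (lt_of_lt_of_le h0 h1)) (one_div_le_one_div_of_le h0 h1)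

theorem mC1 (B : Bk h N S U t b c d) (fV : Fac (Ah D t {b}) V) (sV : ∀ v, V v → xc D U t ∅ w0 v)
    (hV0 : (D.P h t).Pr V ≠ 0) (hT : ∀ v, V v → Typ (v.2.1 b) (U {b} v.1 v.2.1)) (hM0 : 0 ≤ M)
    (hM : ∀ c', ∃ s : Finset υ, (s.card : ℝ) ≤ M ∧ ∀ u, Typ c' u → u ∈ s) {V1 : Pt K X β φ → Prop}
    (fV1 : Fac (Ah D t {b}) V1) (sV1 : ∀ v, V v → V1 v) :
    ((D.P h t).cond V).E (fun w => pC ((D.P h t).cond (fun v => V1 v ∧ clm D U t b v = clm D U t b w)) (QB h U t b w)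
      (zt U Typ c)) ≤
      klet N al M c (Real.log ((D.P h t).Pr (xc D U t ∅ w0) / (D.P h t).Pr V) + Real.log M) := by
  refine le_trans (((D.P h t).cond V).E_mono fun w hw => ?_) (klet_E B (surp1 B fV sV hV0 hT hM sV1))
  obtain ⟨hVw, hpw⟩ := (FP.cond_p_ne hV0).1 hw
  exact pC_le B (Ib_of B fV1 hpw (sV1 w hVw)) hM0 le_rfl

theorem mD1 (B : Bk h N S U t b c d) (fV : Fac (Ah D t {b}) V) (sV : ∀ v, V v → xc D U t ∅ w0 v)
    (hV0 : (D.P h t).Pr V ≠ 0) (hT : ∀ v, V v → Typ (v.2.1 b) (U {b} v.1 v.2.1)) (hM0 : 0 ≤ M)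
    (hM : ∀ c', ∃ s : Finset υ, (s.card : ℝ) ≤ M ∧ ∀ u, Typ c' u → u ∈ s) {V1 : Pt K X β φ → Prop}
    (fV1 : Fac (Ah D t {b}) V1) (sV1 : ∀ v, V v → V1 v) :
    ((D.P h t).cond V).E (fun w => pD ((D.P h t).cond (fun v => V1 v ∧ clm D U t b v = clm D U t b w)) (QB h U t b w)
      (zt U Typ c) (zt U Typ d)) ≤
      klet N al M d (Real.log ((D.P h t).Pr (xc D U t ∅ w0) / (D.P h t).Pr V) + Real.log M) +
        klet N al M c (Real.log ((D.P h t).Pr (xc D U t ∅ w0) / (D.P h t).Pr V) + Real.log M) := by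
  have hs := surp1 B fV sV hV0 hT hM sV1
  have h1 : ((D.P h t).cond V).E (fun w => pD ((D.P h t).cond (fun v => V1 v ∧ clm D U t b v = clm D U t b w))
      (QB h U t b w) (zt U Typ c) (zt U Typ d)) ≤ ((D.P h t).cond V).E (fun w =>
      klet N al M d (Lb h U t b w (fun v => V1 v ∧ clm D U t b v = clm D U t b w)) +
        klet N al M c (Lb h U t b w (fun v => V1 v ∧ clm D U t b v = clm D U t b w))) := by
    refine ((D.P h t).cond V).E_mono fun w hw => ?_
    obtain ⟨hVw, hpw⟩ := (FP.cond_p_ne hV0).1 hw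
    exact pD_le B (Ib_of B fV1 hpw (sV1 w hVw)) hM0 hM le_rfl
  rw [FP.E_add] at h1
  exact h1.trans (add_le_add (klet_E B.swap hs) (klet_E B hs))

theorem mW1 (B : Bk h N S U t b c d) (fV : Fac (Ah D t {b}) V) (sV : ∀ v, V v → xc D U t ∅ w0 v)
    (hV0 : (D.P h t).Pr V ≠ 0) (hT : ∀ v, V v → Typ (v.2.1 b) (U {b} v.1 v.2.1))
    (hM : ∀ c', ∃ s : Finset υ, (s.card : ℝ) ≤ M ∧ ∀ u, Typ c' u → u ∈ s) {V1 : Pt K X β φ → Prop}
    (fV1 : Fac (Ah D t {b}) V1) (sV1 : ∀ v, V v → V1 v) :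
    ((D.P h t).cond V).E (fun w => pW ((D.P h t).cond (fun v => V1 v ∧ clm D U t b v = clm D U t b w)) (QB h U t b w)
      (fun w => (zf U c w, zf U d w)) (fun w => fc (zt U Typ c w) (w.2.2 d)) (fun w => fc (zt U Typ d w) (w.2.2 c))
      (fun w => w.2.2 b)) ≤
      kP3 N al b c d (Real.log ((D.P h t).Pr (xc D U t ∅ w0) / (D.P h t).Pr V) + Real.log M) := by
  refine le_trans (((D.P h t).cond V).E_mono fun w hw => ?_) (kP3_E B (surp1 B fV sV hV0 hT hM sV1))
  obtain ⟨hVw, hpw⟩ := (FP.cond_p_ne hV0).1 hw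
  exact pW_le B (Ib_of B fV1 hpw (sV1 w hVw)) le_rfl

end inst

end Pool.Agent.GMH.RarV3
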