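import Pool.Agent.GMH.RarV1
import Pool.Agent.GMH.RarV2
import Pool.Agent.GMH.RarV3

/-!
# GMH/RarV4 (helper9; row RarV, part (B3)): THE MASS OF A RELATION INSIDE A DENSE EVENT OF THE EXACT VERTEX AT A NODE

`E` = event of (hidden point, node) inside the public class `C0` of `p0`, `log (1 / P (E | C0)) ≤ L`; `V` = event of (hidden point,
exact point of `b`) inside `E` with `y Pr E ≤ Pr V`, own letter of `b` typical on it; `V1 ⊇ V` an event of the same kind in the
public class, whose surprise in every class of `b` is at most `L'` and where the relation `A` has the mass `eta`.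
* `rel_pt` : `rel5` at a point of `V`;
* `kP2_E` : the price of the rows is affine in the surprise from the public class;
* **`sv_le`** : `P (A | V) ≤ 2 fV d + 4 fV c + 1025 EL L' (LS + L') + 1024 eta`, `LS = L + log (1/y) + log M`,
  `fV e` = price of the face without `e` in the mean (`RarV1`).
-/

set_option autoImplicit false
set_option linter.unusedSectionVars false

namespace Pool.Agent.GMH.RarV4

open Finset Pool.Agent.PWZ Pool.Agent.M3 Pool.Agent.GM Pool.Agent.GM.Harm Pool.Agent.GMH Pool.Agent.GMH.RarX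
open Pool.Agent.GMH.RarN (Rn In)

section inst

variable {K X β γ φ υ : Type} [Fintype K] [DecidableEq K] [Fintype X] [Fintype β] [Fintype φ] [Nonempty X] [Nonempty β]
  {D : HD K X β γ φ} {al : ℝ} {h : D.Thick al} {N : Finset K → ℝ} {S : Finset (Finset K)}
  {U : Finset K → X → (K → β) → υ} {t : ℕ} {b c d : K} {w0 : Pt K X β φ} {V V' : Pt K X β φ → Prop}
  {Typ : β → υ → Prop} {M L L' Lo R0 ep : ℝ} {k : ℕ}

/-- **THE RELATION AT A POINT** : `rel5` for the two events -/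
theorem rel_pt (I : Ib h U t b w0 V) (I' : Ib h U t b w0 V') {A : Pt K X β φ → Prop} (H : Rl h U t b c d w0 Typ A) :
    ((D.P h t).cond V).Pr A ≤
      pW ((D.P h t).cond V) (QB h U t b w0) (fun w => (zf U c w, zf U d w)) (fun w => fc (zt U Typ c w) (w.2.2 d))
        (fun w => fc (zt U Typ d w) (w.2.2 c)) (fun w => w.2.2 b) +
      2 * (pX ((D.P h t).cond V) (QC h U t b w0) (zt U Typ c) (zt U Typ d) (fun w => fc (zt U Typ c w) (w.2.2 d))
          (fun w => fc (zt U Typ d w) (w.2.2 c)) +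
        2 * pY ((D.P h t).cond V) (QC h U t b w0) (zt U Typ c) (zt U Typ d) (fun w => fc (zt U Typ d w) (w.2.2 c)) +
        4 * pD ((D.P h t).cond V) (QB h U t b w0) (zt U Typ c) (zt U Typ d) +
        8 * pC ((D.P h t).cond V) (QB h U t b w0) (zt U Typ c)) +
      32 * (2 * pC ((D.P h t).cond V') (QB h U t b w0) (zt U Typ c) +
        4 * pD ((D.P h t).cond V') (QB h U t b w0) (zt U Typ c) (zt U Typ d) +
        8 * pY ((D.P h t).cond V') (QC h U t b w0) (zt U Typ c) (zt U Typ d) (fun w => fc (zt U Typ d w) (w.2.2 c)) +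
        16 * pX ((D.P h t).cond V') (QC h U t b w0) (zt U Typ c) (zt U Typ d) (fun w => fc (zt U Typ c w) (w.2.2 d))
          (fun w => fc (zt U Typ d w) (w.2.2 c))) +
      1024 * (pW ((D.P h t).cond V') (QB h U t b w0) (fun w => (zf U c w, zf U d w))
        (fun w => fc (zt U Typ c w) (w.2.2 d)) (fun w => fc (zt U Typ d w) (w.2.2 c)) (fun w => w.2.2 b) +
        ((D.P h t).cond V').Pr A) := by
  classical
  set Q := (D.P h t).cond V with hQ
  set Q' := (D.P h t).cond V' with hQ'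
  set R := QC h U t b w0 with hR
  set B0 := QB h U t b w0 with hB0
  set G := gg5 h U t b c d w0 Typ A with hG
  have key := rel5 (Q := Q) (Q' := Q') (R := R) (B := B0) (C := zt U Typ c) (D := zt U Typ d)
    (Zf := fun w => (zf U c w, zf U d w))
    (X := fun w => fc (zt U Typ c w) (w.2.2 d)) (Y := fun w => fc (zt U Typ d w) (w.2.2 c)) (W := fun w => w.2.2 b)
    (gg := G) I.acC I.acB I'.acC I'.acB (fun v w hvw => by
      simp only [Prod.mk.injEq] at hvw
      show (zt U Typ c v, zt U Typ d v) = (zt U Typ c w, zt U Typ d w)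
      rw [zt_of_zf (U := U) (Typ := Typ) c v w hvw.1, zt_of_zf (U := U) (Typ := Typ) d v w hvw.2])
    (fun v w x y z hz h1 h2 => by
      obtain ⟨u, hu, hcu, hA, g1, g2, -⟩ := hz
      obtain ⟨tc, td⟩ := H.typ u hu hcu hA
      have a1 : zf U c w = zf U c u := (zt_iff tc).1 g1.symm
      have a2 : zf U d w = zf U d u := (zt_iff td).1 g2.symm
      have a3 : zf U c v = zf U c u := (zt_iff tc).1 (h1.trans g1.symm)
      have a4 : zf U d v = zf U d u := (zt_iff td).1 (h2.trans g2.symm)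
      show (zf U c v, zf U d v) = (zf U c w, zf U d w)
      rw [a1, a2, a3, a4])
  have eQ : Q.Pr (fun w => G (zt U Typ c w) (zt U Typ d w) (fc (zt U Typ c w) (w.2.2 d)) (fc (zt U Typ d w) (w.2.2 c))
      (w.2.2 b)) = Q.Pr A := by
    refine Q.E_congr fun w hw => ?_
    obtain ⟨hw1, hw2⟩ := cond_supp I.ne hw
    exact congrArg ind (propext (gg5_iff H hw2 (I.sub w hw1)))
  have eR : Q'.Pr (fun w => G (zt U Typ c w) (zt U Typ d w) (fc (zt U Typ c w) (w.2.2 d)) (fc (zt U Typ d w) (w.2.2 c))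
      (w.2.2 b)) = Q'.Pr A := by
    refine Q'.E_congr fun w hw => ?_
    obtain ⟨hw1, hw2⟩ := cond_supp I'.ne hw
    exact congrArg ind (propext (gg5_iff H hw2 (I'.sub w hw1)))
  rw [eQ, eR] at key
  exact key

/-- the price of the rows is affine in the surprise from the public class -/
theorem kP2_E (B : Bk h N S U t b c d) {Q : FP (Pt K X β φ)} {f : Pt K X β φ → ℝ} (hf : Q.E f ≤ Lo) :
    Q.E (fun w => kP2 N al M R0 ep k b d L' (f w)) ≤ kP2 N al M R0 ep k b d L' Lo := by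
  have hN0 := B.nn ∅ B.s0
  have hNb := B.n1 b
  have hNd := B.n1 d
  have hNe := B.n2 d
  have e1 : ∀ x : ℝ, kP2 N al M R0 ep k b d L' x = x * (2 * (2 * N ∅ / N {d}) / (N (univ.erase d) / (2 * N {b}))) +
      kP2 N al M R0 ep k b d L' 0 := by
    intro x
    unfold kP2
    ring
  rw [Q.E_congr fun w _ => e1 (f w), FP.E_add, FP.E_const, FP.E_mul_const, e1 Lo]
  have h1 : 0 ≤ 2 * (2 * N ∅ / N {d}) / (N (univ.erase d) / (2 * N {b})) := by positivity
  have h2 := mul_le_mul_of_nonneg_right hf h1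
  linarith

/-- the relation in the class of the exact vertex -/
theorem Rl_of (B : Bk h N S U t b c d) {A : Pt K X β φ → Prop} (H : Rn h U t b c d w0 Typ A) {w : Pt K X β φ}
    (hw : xc D U t ∅ w0 w) : Rl h U t b c d w Typ A := by
  have hcl : ∀ v, clsb U (pub0 D t U w) b w v → xc D U t ∅ w0 v := fun v hv => by
    have h2 : (le (LL U) ∅ v, BB D t ∅ v) = (le (LL U) ∅ w, BB D t ∅ w) := hv.1
    rw [Prod.mk.injEq] at h2
    exact ⟨h2.1.trans hw.1, h2.2.trans hw.2⟩
  refine ⟨fun v u hv hu hcv hcu z1 z2 l1 l2 l3 hA => ?_, fun v hv hcv hA => ?_⟩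
  · have zb : zf U b v = zf U b u := by
      unfold zf
      rw [hcv.2.1, hcu.2.1, hcv.2.2, hcu.2.2]
    refine H.fac v u hv hu (hcl v hcv) (hcl u hcu) (fun e => ?_) (fun e => ?_) hA
    · rcases B.all e with rfl | rfl | rfl
      · exact zb
      · exact z1
      · exact z2
    · rcases B.all e with rfl | rfl | rfl
      · exact l1
      · exact l2
      · exact l3
  · have h1 := H.typ v hv (hcl v hcv) hA
    exact ⟨h1 c, h1 d⟩

/-- surprise of the own letter and of the class -/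
theorem own_le (B : Bk h N S U t b c d) {w : Pt K X β φ} (hw : (D.P h t).p w ≠ 0) :
    Real.log (1 / own h t U (pub0 D t U w) b w) ≤ Lb h U t b w (clsb U (pub0 D t U w) b w) := by
  have I := RarV3.Ib_cls B hw
  rw [Lb_eq B I]
  have h1 : 0 < (QC h U t b w).Pr (clsb U (pub0 D t U w) b w) := lt_of_le_of_ne ((QC h U t b w).Pr_nonneg _) I.neC.symm
  have h2 : 0 ≤ Real.log (1 / (QC h U t b w).Pr (clsb U (pub0 D t U w) b w)) :=
    Real.log_nonneg (by rw [le_div_iff₀ h1, one_mul]; exact (QC h U t b w).Pr_le_one _)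
  linarith

/-- price of the face without `e`, in the mean -/
noncomputable def fV (N : Finset K → ℝ) (al M : ℝ) (b e : K) (L y : ℝ) : ℝ :=
  (2 * N ∅ * (L + Real.log (M + 1) + 1) / y + 2 * (N {b} * (Real.log (1 / y) + 1 + Real.log (1 / al)))) / N (univ.erase e)

/-- the surprise of the dense event, from the public class -/
theorem log_V {P : FP (Pt K X β φ)} {C E : Pt K X β φ → Prop} (hEC : ∀ v, E v → C v) (hVE : ∀ v, V v → E v)
    (hV0 : P.Pr V ≠ 0) (hL : Real.log (1 / (P.cond C).Pr E) ≤ L) {y : ℝ} (hy : 0 < y) (hyV : y * P.Pr E ≤ P.Pr V) :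
    Real.log (P.Pr C / P.Pr V) ≤ L + Real.log (1 / y) := by
  have pV : 0 < P.Pr V := lt_of_le_of_ne (P.Pr_nonneg _) (Ne.symm hV0)
  have pE : 0 < P.Pr E := lt_of_lt_of_le pV (P.Pr_mono fun v _ hv => hVE v hv)
  have pC : 0 < P.Pr C := lt_of_lt_of_le pE (P.Pr_mono fun v _ hv => hEC v hv)
  have e1 : (P.cond C).Pr E = P.Pr E / P.Pr C := by
    rw [FP.cond_Pr pC.ne']
    congr 2
    funext v
    exact propext ⟨fun hh => hh.2, fun hh => ⟨hEC v hh, hh⟩⟩
  rw [e1, one_div_div] at hL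
  have e2 : P.Pr C / P.Pr V = P.Pr C / P.Pr E * (P.Pr E / P.Pr V) := by field_simp
  rw [e2, Real.log_mul (by positivity) (by positivity)]
  have h1 : Real.log (P.Pr E / P.Pr V) ≤ Real.log (1 / y) := by
    refine Real.log_le_log (by positivity) ?_
    rw [div_le_div_iff₀ pV hy]
    linarith
  linarith

/-- **THE MASS OF A RELATION INSIDE A DENSE EVENT OF THE EXACT VERTEX AT A NODE**, own letter typical at every point of `V` -/
theorem sv_le0 (B : Bk h N S U t b c d) {p0 : Pt K X β φ} {E V1 A : Pt K X β φ → Prop} (hM0 : 0 < M)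
    (hM : ∀ c', ∃ s : Finset υ, (s.card : ℝ) ≤ M ∧ ∀ u, Typ c' u → u ∈ s) (fE : Fac (Ah D t ∅) E)
    (sE : ∀ p, E p → xc D U t ∅ p0 p) (fV' : Fac (Ah D t {b}) V) (sV : ∀ p, V p → E p) (hV0 : (D.P h t).Pr V ≠ 0)
    (fV1 : Fac (Ah D t {b}) V1) (sV1 : ∀ p, V p → V1 p) (H : Rn h U t b c d p0 Typ A)
    (hT : ∀ p, V p → Typ (p.2.1 b) (U {b} p.1 p.2.1))
    (hL : Real.log (1 / ((D.P h t).cond (xc D U t ∅ p0)).Pr E) ≤ L) {y : ℝ} (hy : 0 < y)
    (hyV : y * (D.P h t).Pr E ≤ (D.P h t).Pr V) {eta : ℝ}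
    (hq : ∀ p, (D.P h t).p p ≠ 0 → V p →
      Real.exp (-L') * (D.P h t).m (clm D U t b) p ≤ (D.P h t).Pr (fun u => V1 u ∧ clm D U t b u = clm D U t b p) ∧
      ((D.P h t).cond (fun u => V1 u ∧ clm D U t b u = clm D U t b p)).Pr A ≤ eta)
    (hk : 0 < k) (hep : 0 < ep) (hep2 : ep ≤ 1 / 2) (hR0 : Real.log (1 / ep) ≤ R0) (hR1 : Real.log (1 / al) ≤ R0)
    (hkd : N (univ.erase d) / (2 * N {b}) * (R0 + L' / (N (univ.erase d) / (2 * N {b}))) ≤ 2 * k)
    (hkc : N (univ.erase c) / (2 * N {b}) * (R0 + L' / (N (univ.erase c) / (2 * N {b}))) ≤ 2 * k) :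
    ((D.P h t).cond V).Pr A ≤ 2 * fV N al M b d L y + 4 * fV N al M b c L y +
      1025 * EL N al M R0 ep k b c d L' (L + Real.log (1 / y) + Real.log M + L') + 1024 * eta := by
  classical
  set P := D.P h t with hP
  set Q := P.cond V with hQ
  set LS := L + Real.log (1 / y) + Real.log M with hLS
  have hM0' : 0 ≤ M := hM0.le
  -- a point of the event
  obtain ⟨w1, hw1, hVw1⟩ : ∃ w1, P.p w1 ≠ 0 ∧ V w1 := by
    by_contra hno
    push Not at hno
    refine hV0 ?_
    unfold FP.Pr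
    rw [P.E_congr (g := fun _ => 0) fun w hw => ind_not (hno w hw), P.E_const]
  have hx1 : xc D U t ∅ p0 w1 := sE w1 (sV w1 hVw1)
  have ex : xc D U t ∅ w1 = xc D U t ∅ p0 := by
    funext v
    exact propext ⟨fun hh => ⟨hh.1.trans hx1.1, hh.2.trans hx1.2⟩, fun hh => ⟨hh.1.trans hx1.1.symm, hh.2.trans hx1.2.symm⟩⟩
  have In1 : In h U t w1 E := ⟨fE, sV w1 hVw1, hw1, fun v hv => by rw [ex]; exact sE v hv⟩
  have hL1 : Real.log (1 / (P.cond (xc D U t ∅ w1)).Pr E) ≤ L := by rw [ex]; exact hL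
  have sVp : ∀ v, V v → xc D U t ∅ p0 v := fun v hv => sE v (sV v hv)
  have hlog : Real.log (P.Pr (xc D U t ∅ p0) / P.Pr V) + Real.log M ≤ LS := by
    have := log_V sE sV hV0 hL hy hyV
    rw [hLS]
    linarith
  have hN0 := B.nn ∅ B.s0
  -- the surprises at `L'`
  have hq1 : ∀ w, Q.p w ≠ 0 → Real.log (1 / (QC h U t b w).Pr (fun v => V1 v ∧ clm D U t b v = clm D U t b w)) ≤ L' := by
    intro w hw
    obtain ⟨hVw, hpw⟩ := cond_supp hV0 hw
    have I := RarV3.Ib_of B fV1 hpw (sV1 w hVw)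
    have hc0 : 0 < P.Pr (fun v => clm D U t b v = clm D U t b w) :=
      FP.Pr_pos_of (S := fun v => clm D U t b v = clm D U t b w) hpw rfl
    have e1 : (QC h U t b w).Pr (fun v => V1 v ∧ clm D U t b v = clm D U t b w) =
        P.Pr (fun v => V1 v ∧ clm D U t b v = clm D U t b w) / P.Pr (fun v => clm D U t b v = clm D U t b w) := by
      rw [QC_clm, FP.cond_Pr hc0.ne']
      congr 2
      funext v
      exact propext ⟨fun hh => hh.2, fun hh => ⟨hh.2, hh⟩⟩
    have h1 := (hq w hpw hVw).1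
    have p1 : 0 < P.Pr (fun v => V1 v ∧ clm D U t b v = clm D U t b w) :=
      FP.Pr_pos_of (S := fun v => V1 v ∧ clm D U t b v = clm D U t b w) hpw ⟨sV1 w hVw, rfl⟩
    have h2 : P.Pr (fun v => clm D U t b v = clm D U t b w) = P.m (clm D U t b) w := rfl
    rw [e1, one_div_div, ← Real.log_exp L']
    refine Real.log_le_log (by positivity) ?_
    rw [div_le_iff₀ p1, h2]
    have h3 : P.m (clm D U t b) w = Real.exp L' * (Real.exp (-L') * P.m (clm D U t b) w) := by
      rw [← mul_assoc, ← Real.exp_add]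
      simp
    rw [h3]
    exact mul_le_mul_of_nonneg_left h1 (Real.exp_pos _).le
  have hL'0 : 0 ≤ L' := by
    have h1 := hq1 w1 ((FP.cond_p_ne hV0).2 ⟨hVw1, hw1⟩)
    have I := RarV3.Ib_of B fV1 hw1 (sV1 w1 hVw1)
    refine le_trans (Real.log_nonneg ?_) h1
    have h2 : 0 < (QC h U t b w1).Pr (fun v => V1 v ∧ clm D U t b v = clm D U t b w1) :=
      lt_of_le_of_ne ((QC h U t b w1).Pr_nonneg _) I.neC.symm
    rw [le_div_iff₀ h2, one_mul]
    exact (QC h U t b w1).Pr_le_one _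
  -- monotonicity in the surprise
  have mkl : ∀ e : K, ∀ {x : ℝ}, x ≤ LS → klet N al M e x ≤ klet N al M e (LS + L') := fun e x hx => by
    have hNc := B.n1 e
    unfold klet
    refine div_le_div_of_nonneg_right ?_ hNc.le
    have := mul_le_mul_of_nonneg_left (show x + 1 ≤ LS + L' + 1 by linarith) (show 0 ≤ 2 * N ∅ by linarith)
    linarith
  have mk3 : ∀ {x : ℝ}, x ≤ LS → kP3 N al b c d x ≤ kP3 N al b c d (LS + L') := fun {x} hx => by
    have hNc := B.n2 b
    unfold kP3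
    refine div_le_div_of_nonneg_right ?_ hNc.le
    have := mul_le_mul_of_nonneg_left (show x + 1 ≤ LS + L' + 1 by linarith) (show 0 ≤ 2 * N ∅ by linarith)
    linarith
  -- the means of the prices, the dense event
  have qC := (RarV3.mC (Typ := Typ) B fV' sVp hV0 hT hM0' hM).trans (mkl c hlog)
  have qD := (RarV3.mD (Typ := Typ) B fV' sVp hV0 hT hM0' hM).trans (add_le_add (mkl d hlog) (mkl c hlog))
  have qW := (RarV3.mW (Typ := Typ) B fV' sVp hV0 hT hM).trans (mk3 hlog)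
  have qX : Q.E (fun w => pX (Qw h U t b V w) (QC h U t b w) (zt U Typ c) (zt U Typ d)
      (fun v => fc (zt U Typ c v) (v.2.2 d)) (fun v => fc (zt U Typ d v) (v.2.2 c))) ≤ fV N al M b d L y := by
    refine (rarV_X (Typ := Typ) B hV0).trans ?_
    have k1 := RarV.far2 (Typ := Typ) B.rot' In1 fV' sV hV0 hM hM0' hL1 hy hyV
    unfold fV
    rw [le_div_iff₀ (B.n2 d)]
    refine le_trans (le_of_eq ?_) k1
    rw [mul_comm, add_comm]
    rfl
  have qY : Q.E (fun w => pY (Qw h U t b V w) (QC h U t b w) (zt U Typ c) (zt U Typ d)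
      (fun v => fc (zt U Typ d v) (v.2.2 c))) ≤ fV N al M b c L y := by
    refine (rarV_Y (Typ := Typ) B hV0).trans ?_
    have k1 := RarV.far2 (Typ := Typ) B.rot In1 fV' sV hV0 hM hM0' hL1 hy hyV
    unfold fV
    rw [le_div_iff₀ (B.n2 c)]
    refine le_trans (le_of_eq ?_) k1
    rw [mul_comm, add_comm]
    rfl
  -- the means of the prices, the larger event
  have rC := (RarV3.mC1 (Typ := Typ) B fV' sVp hV0 hT hM0' hM fV1 sV1).trans (mkl c hlog)
  have rD := (RarV3.mD1 (Typ := Typ) B fV' sVp hV0 hT hM0' hM fV1 sV1).trans (add_le_add (mkl d hlog) (mkl c hlog))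
  have rW := (RarV3.mW1 (Typ := Typ) B fV' sVp hV0 hT hM fV1 sV1).trans (mk3 hlog)
  have hown : Q.E (fun w => Lb h U t b w (clsb U (pub0 D t U w) b w) + L') ≤ LS + L' := by
    rw [FP.E_add, FP.E_const]
    have := RarV3.surp0 (Typ := Typ) B fV' sVp hV0 hT hM
    linarith
  have y1 : ∀ P : FP (Pt K X β φ), P.I (fun w => fc (zt U Typ c w) (w.2.2 d))
      (fun w => (zt U Typ d w, fc (zt U Typ d w) (w.2.2 c))) (zt U Typ c) ≤
      P.I (fun w => fc (zt U Typ c w) (w.2.2 d)) (fun w => ((w.2.1 d, U {d} w.1 w.2.1), w.2.2 c)) (zt U Typ c) := by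
    intro P
    rw [FP.I_comm, FP.I_comm (X := fun w : Pt K X β φ => fc (zt U Typ c w) (w.2.2 d))]
    refine FP.I_mono _ _ (fun v w hvw => ?_)
    rw [Prod.mk.injEq, Prod.mk.injEq] at hvw
    have : zt U Typ d v = zt U Typ d w := zt_of_zf d v w hvw.1.1
    show (zt U Typ d v, fc (zt U Typ d v) (v.2.2 c)) = (zt U Typ d w, fc (zt U Typ d w) (w.2.2 c))
    rw [this, hvw.1.2]
  have y2 : ∀ P : FP (Pt K X β φ), P.I (fun w => fc (zt U Typ d w) (w.2.2 c)) (zt U Typ c) (zt U Typ d) ≤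
      P.I (fun w => fc (zt U Typ d w) (w.2.2 c)) (fun w => ((w.2.1 c, U {c} w.1 w.2.1), w.2.2 d)) (zt U Typ d) := by
    intro P
    rw [FP.I_comm, FP.I_comm (X := fun w : Pt K X β φ => fc (zt U Typ d w) (w.2.2 c))]
    refine FP.I_mono _ _ (fun v w hvw => ?_)
    rw [Prod.mk.injEq, Prod.mk.injEq] at hvw
    exact zt_of_zf c v w hvw.1.1
  have rX : Q.E (fun w => pX (P.cond (fun v => V1 v ∧ clm D U t b v = clm D U t b w)) (QC h U t b w) (zt U Typ c)
      (zt U Typ d) (fun v => fc (zt U Typ c v) (v.2.2 d)) (fun v => fc (zt U Typ d v) (v.2.2 c))) ≤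
      kP2 N al M R0 ep k b d L' (LS + L') := by
    refine le_trans (Q.E_mono fun w hw => ?_) (kP2_E B hown)
    obtain ⟨hVw, hpw⟩ := cond_supp hV0 hw
    have I := RarV3.Ib_of B fV1 hpw (sV1 w hVw)
    have h1 := pX_le (Typ := Typ) B I hM (hq1 w hw) (add_le_add (own_le B hpw) le_rfl) hk hep hep2 hR0 hR1 hkd
    unfold pX
    linarith [y1 (P.cond (fun v => V1 v ∧ clm D U t b v = clm D U t b w))]
  have rY : Q.E (fun w => pY (P.cond (fun v => V1 v ∧ clm D U t b v = clm D U t b w)) (QC h U t b w) (zt U Typ c)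
      (zt U Typ d) (fun v => fc (zt U Typ d v) (v.2.2 c))) ≤ kP2 N al M R0 ep k b c L' (LS + L') := by
    refine le_trans (Q.E_mono fun w hw => ?_) (kP2_E B.swap hown)
    obtain ⟨hVw, hpw⟩ := cond_supp hV0 hw
    have I := RarV3.Ib_of B fV1 hpw (sV1 w hVw)
    have h1 := pX_le (Typ := Typ) B.swap I hM (hq1 w hw) (add_le_add (own_le B hpw) le_rfl) hk hep hep2 hR0 hR1 hkc
    unfold pY
    linarith [y2 (P.cond (fun v => V1 v ∧ clm D U t b v = clm D U t b w))]
  -- the mass as a mean over the classes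
  have tot : Q.Pr A ≤ Q.E (fun w =>
      pW (Qw h U t b V w) (QB h U t b w) (fun w => (zf U c w, zf U d w)) (fun w => fc (zt U Typ c w) (w.2.2 d))
        (fun w => fc (zt U Typ d w) (w.2.2 c)) (fun w => w.2.2 b) +
      2 * (pX (Qw h U t b V w) (QC h U t b w) (zt U Typ c) (zt U Typ d) (fun w => fc (zt U Typ c w) (w.2.2 d))
          (fun w => fc (zt U Typ d w) (w.2.2 c)) +
        2 * pY (Qw h U t b V w) (QC h U t b w) (zt U Typ c) (zt U Typ d) (fun w => fc (zt U Typ d w) (w.2.2 c)) +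
        4 * pD (Qw h U t b V w) (QB h U t b w) (zt U Typ c) (zt U Typ d) +
        8 * pC (Qw h U t b V w) (QB h U t b w) (zt U Typ c)) +
      32 * (2 * pC (P.cond (fun v => V1 v ∧ clm D U t b v = clm D U t b w)) (QB h U t b w) (zt U Typ c) +
        4 * pD (P.cond (fun v => V1 v ∧ clm D U t b v = clm D U t b w)) (QB h U t b w) (zt U Typ c) (zt U Typ d) +
        8 * pY (P.cond (fun v => V1 v ∧ clm D U t b v = clm D U t b w)) (QC h U t b w) (zt U Typ c) (zt U Typ d)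
          (fun w => fc (zt U Typ d w) (w.2.2 c)) +
        16 * pX (P.cond (fun v => V1 v ∧ clm D U t b v = clm D U t b w)) (QC h U t b w) (zt U Typ c) (zt U Typ d)
          (fun w => fc (zt U Typ c w) (w.2.2 d)) (fun w => fc (zt U Typ d w) (w.2.2 c))) +
      1024 * (pW (P.cond (fun v => V1 v ∧ clm D U t b v = clm D U t b w)) (QB h U t b w) (fun w => (zf U c w, zf U d w))
        (fun w => fc (zt U Typ c w) (w.2.2 d)) (fun w => fc (zt U Typ d w) (w.2.2 c)) (fun w => w.2.2 b) + eta)) := by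
    rw [hQ, ← Qw_Pr (h := h) (U := U) (t := t) (b := b) hV0 A]
    refine FP.E_mono _ fun w hw => ?_
    obtain ⟨hVw, hpw⟩ := cond_supp hV0 hw
    have I := RarV3.Ib_of B fV' hpw hVw
    have I' := RarV3.Ib_of B fV1 hpw (sV1 w hVw)
    have h1 := rel_pt I I' (Rl_of B H (sVp w hVw))
    have h2 := (hq w hpw hVw).2
    refine h1.trans ?_
    unfold Qw
    linarith
  refine tot.trans ?_
  simp only [FP.E_add, FP.E_smul, FP.E_const]
  have qC' : Q.E (fun w => pC (Qw h U t b V w) (QB h U t b w) (zt U Typ c)) ≤ klet N al M c (LS + L') := qC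
  have qD' : Q.E (fun w => pD (Qw h U t b V w) (QB h U t b w) (zt U Typ c) (zt U Typ d)) ≤
      klet N al M d (LS + L') + klet N al M c (LS + L') := qD
  have qW' : Q.E (fun w => pW (Qw h U t b V w) (QB h U t b w) (fun w => (zf U c w, zf U d w))
      (fun w => fc (zt U Typ c w) (w.2.2 d)) (fun w => fc (zt U Typ d w) (w.2.2 c)) (fun w => w.2.2 b)) ≤
      kP3 N al b c d (LS + L') := qW
  -- signs
  have hwQ : Q.p w1 ≠ 0 := (FP.cond_p_ne hV0).2 ⟨hVw1, hw1⟩
  have n1 : 0 ≤ kP2 N al M R0 ep k b d L' (LS + L') := by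
    refine le_trans (Q.E_nonneg fun w hw => ?_) rX
    obtain ⟨hVw, hpw⟩ := cond_supp hV0 hw
    exact add_nonneg (Pool.Agent.GMH.klc_nonneg (RarV3.Ib_of B fV1 hpw (sV1 w hVw)).acC _ _) (FP.I_nonneg _ _ _ _)
  have n2 : 0 ≤ kP2 N al M R0 ep k b c L' (LS + L') := by
    refine le_trans (Q.E_nonneg fun w hw => ?_) rY
    obtain ⟨hVw, hpw⟩ := cond_supp hV0 hw
    exact add_nonneg (Pool.Agent.GMH.klc_nonneg (RarV3.Ib_of B fV1 hpw (sV1 w hVw)).acC _ _) (FP.I_nonneg _ _ _ _)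
  have n3 : 0 ≤ kP3 N al b c d (LS + L') := by
    refine le_trans (Q.E_nonneg fun w hw => ?_) rW
    obtain ⟨hVw, hpw⟩ := cond_supp hV0 hw
    exact add_nonneg (Pool.Agent.GMH.klc_nonneg (RarV3.Ib_of B fV1 hpw (sV1 w hVw)).acB _ _) (FP.I_nonneg _ _ _ _)
  have n4 : 0 ≤ klet N al M c (LS + L') := by
    refine le_trans (Q.E_nonneg fun w hw => ?_) rC
    obtain ⟨hVw, hpw⟩ := cond_supp hV0 hw
    exact Pool.Agent.GMH.klc_nonneg (RarV3.Ib_of B fV1 hpw (sV1 w hVw)).acB _ _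
  have n5 : 0 ≤ klet N al M d (LS + L') := by
    refine le_trans (Q.E_nonneg fun w hw => ?_)
      ((RarV3.mC1 (Typ := Typ) B.swap fV' sVp hV0 hT hM0' hM fV1 sV1).trans (mkl d hlog))
    obtain ⟨hVw, hpw⟩ := cond_supp hV0 hw
    exact Pool.Agent.GMH.klc_nonneg (RarV3.Ib_of B fV1 hpw (sV1 w hVw)).acB _ _
  unfold EL
  linarith

/-- **THE MASS OF A RELATION INSIDE A DENSE EVENT OF THE EXACT VERTEX AT A NODE** (the text of `RarV.SV`) -/
theorem sv_le (B : Bk h N S U t b c d) {p0 : Pt K X β φ} {E V1 A : Pt K X β φ → Prop} (hM0 : 0 < M)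
    (hM : ∀ c', ∃ s : Finset υ, (s.card : ℝ) ≤ M ∧ ∀ u, Typ c' u → u ∈ s) (fE : Fac (Ah D t ∅) E)
    (sE : ∀ p, E p → xc D U t ∅ p0 p) (fV' : Fac (Ah D t {b}) V) (sV : ∀ p, V p → E p) (hV0 : (D.P h t).Pr V ≠ 0)
    (fV1 : Fac (Ah D t {b}) V1) (sV1 : ∀ p, V p → V1 p) (H : Rn h U t b c d p0 Typ A)
    (hT : ∀ p, (D.P h t).p p ≠ 0 → V p → Typ (p.2.1 b) (U {b} p.1 p.2.1))
    (hL : Real.log (1 / ((D.P h t).cond (xc D U t ∅ p0)).Pr E) ≤ L) {y : ℝ} (hy : 0 < y)
    (hyV : y * (D.P h t).Pr E ≤ (D.P h t).Pr V) {eta : ℝ}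
    (hq : ∀ p, (D.P h t).p p ≠ 0 → V p →
      Real.exp (-L') * (D.P h t).m (clm D U t b) p ≤ (D.P h t).Pr (fun u => V1 u ∧ clm D U t b u = clm D U t b p) ∧
      ((D.P h t).cond (fun u => V1 u ∧ clm D U t b u = clm D U t b p)).Pr A ≤ eta)
    (hk : 0 < k) (hep : 0 < ep) (hep2 : ep ≤ 1 / 2) (hR0 : Real.log (1 / ep) ≤ R0) (hR1 : Real.log (1 / al) ≤ R0)
    (hkd : N (univ.erase d) / (2 * N {b}) * (R0 + L' / (N (univ.erase d) / (2 * N {b}))) ≤ 2 * k)
    (hkc : N (univ.erase c) / (2 * N {b}) * (R0 + L' / (N (univ.erase c) / (2 * N {b}))) ≤ 2 * k) :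
    ((D.P h t).cond V).Pr A ≤ 2 * fV N al M b d L y + 4 * fV N al M b c L y +
      1025 * EL N al M R0 ep k b c d L' (L + Real.log (1 / y) + Real.log M + L') + 1024 * eta := by
  classical
  set P := D.P h t with hP
  set Vt : Pt K X β φ → Prop := fun v => V v ∧ Typ (v.2.1 b) (U {b} v.1 v.2.1) with hVt
  have hPr : P.Pr Vt = P.Pr V := P.Pr_congr fun w hw => ⟨fun hh => hh.1, fun hh => ⟨hh, hT w hw hh⟩⟩
  have hVt0 : P.Pr Vt ≠ 0 := by rw [hPr]; exact hV0
  have hcond : (P.cond V).Pr A = (P.cond Vt).Pr A := by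
    rw [FP.cond_Pr hV0, FP.cond_Pr hVt0, hPr]
    congr 1
    exact P.Pr_congr fun w hw => ⟨fun hh => ⟨⟨hh.1, hT w hw hh.1⟩, hh.2⟩, fun hh => ⟨hh.1.1, hh.2⟩⟩
  rw [hcond]
  refine sv_le0 (V := Vt) B hM0 hM fE sE (fun v u hvu => ?_) (fun p hp => sV p hp.1) hVt0 fV1 (fun p hp => sV1 p hp.1) H
    (fun p hp => hp.2) hL hy (by rw [← hP, hPr]; exact hyV) (fun p hp hVp => hq p hp hVp.1) hk hep hep2 hR0 hR1 hkd hkc
  have h1 := clsb_Ah B.dep (pub0_C (D := D) (U := U) (t := t) v) B.oth (w0 := v) (b := b) v u hvu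
  have h2 : clsb U (pub0 D t U v) b v u := h1 ▸ (⟨rfl, rfl, rfl⟩ : clsb U (pub0 D t U v) b v v)
  show (_ ∧ _) = (_ ∧ _)
  rw [fV' v u hvu, h2.2.1, h2.2.2]

end inst

end Pool.Agent.GMH.RarV4
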