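import Pool.Agent.GMH.RarC5

/-!
# GMH/RarV5 (helper64; row RarV, part (C)): DENSE EXACT VERTICES AT A NODE ARE RARE, SPACE WITH TABLES

* `SV` : the static statement (a dense event `V` of the exact vertex `b` inside an event `E` of (hidden point, node)): the mass of a
  relation of three letters in `V` is at most `F`;
* `half1` : cells of the next time in the sight of the exact vertex;
* **`cls_v`** : `5t ≤ q ≤ 5t+4`, `q ≤ s`: in the class of `s` the mass of `{y0 ≤ P (good, y1 < P(A | exact b, s) | node, s)}` is at most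
  `exp (-L1)`;
* `tot_v` : the same for the whole law inside an event of the class of `s`.
-/

set_option autoImplicit false
set_option linter.unusedSectionVars false

namespace Pool.Agent.GMH.RarV

open Finset Pool.Agent.PWZ Pool.Agent.M3 Pool.Agent.GM Pool.Agent.GM.Harm Pool.Agent.GMH
open Pool.Agent.GMH.TP Pool.Agent.GMH.TD Pool.Agent.GMH.Dy Pool.Agent.GMH.MVI Pool.Agent.GMH.MVIp
open Pool.Agent.GMH.GamR Pool.Agent.GMH.KF
open Pool.Agent.GMH.RarN (Rn RnO AE AE_of AE_to AE_Rn TyC TyC_card NPs_iff NPo_mono Wc cls_mass cls_mass' cls_low NPq_xc)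
open Pool.Agent.GMH.RarC (XN_clm XN_sgtS)
open Pool.Agent.GMH.RarX (clm)

noncomputable section

/-! ### the static statement -/

section stat

variable {K X β γ φ υ : Type} [Fintype K] [DecidableEq K] [Fintype X] [Fintype β] [Fintype φ] [Nonempty X] [Nonempty β]
  {D : HD K X β γ φ} {al : ℝ}

/-- the mass of a relation inside a dense event `V` of the exact vertex `b`, `V` inside the event `E` of (hidden point, node);
`V1` : class of the relation, its mass `eta` and its surprise `L'` are known in every class of the exact vertex -/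
def SV (h : D.Thick al) (U : Finset K → X → (K → β) → υ) (t : ℕ) (b c d : K) (M L y L' eta F : ℝ) : Prop :=
  ∀ (p0 : Pt K X β φ) (Typ : β → υ → Prop) (E V V1 A : Pt K X β φ → Prop), (D.P h t).p p0 ≠ 0 →
    (∀ c', ∃ s : Finset υ, (s.card : ℝ) ≤ M ∧ ∀ u, Typ c' u → u ∈ s) →
    Fac (Ah D t ∅) E → (∀ p, E p → xc D U t ∅ p0 p) → Fac (Ah D t {b}) V → (∀ p, V p → E p) → (D.P h t).Pr V ≠ 0 →
    Fac (Ah D t {b}) V1 → (∀ p, V1 p → xc D U t ∅ p0 p) → (∀ p, V p → V1 p) → Rn h U t b c d p0 Typ A →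
    (∀ p, (D.P h t).p p ≠ 0 → V p → Typ (p.2.1 b) (U {b} p.1 p.2.1)) →
    Real.log (1 / ((D.P h t).cond (xc D U t ∅ p0)).Pr E) ≤ L → y * (D.P h t).Pr E ≤ (D.P h t).Pr V →
    (∀ p, (D.P h t).p p ≠ 0 → V p →
      Real.exp (-L') * (D.P h t).m (clm D U t b) p ≤ (D.P h t).Pr (fun u => V1 u ∧ clm D U t b u = clm D U t b p) ∧
      ((D.P h t).cond (fun u => V1 u ∧ clm D U t b u = clm D U t b p)).Pr A ≤ eta) →
    ((D.P h t).cond V).Pr A ≤ F

end stat

variable {X β γ φ : Type} [Fintype X] [Fintype β] [Fintype φ] [Nonempty X] [Nonempty β]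
variable {D : HD (Fin 3) X β γ φ} {al : ℝ} {h : D.Thick al} {prr : ℕ → Fin 3 → φ → φ} {T : ℕ} {W : Type} [Fintype W]
variable {tb : Tab D prr T W} {v : ℕ → Finset (Fin 3) → X → (Fin 3 → β) → Pt (Fin 3) X β φ}

/-- cells of the next time, exact vertex -/
theorem half1 {dg : ℕ → X → ℝ} {Lam : ℝ} (H : D.Hyp dg prr al T Lam) (b : Fin 3) {t : ℕ} (ht : t < T) {g : Om W X β → ℝ}
    (hg : ∀ u, 0 ≤ g u) {w : Om W X β} (hw : tb.Ps.p w ≠ 0) :
    tb.Ps.ce (sgt D {b} (t + 1)) g w ≤ 4 * tb.Ps.ce (sgt D {b} t) g w := by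
  have h1 := sgt_half tb H {b} ht hw
  have h2 : (({b} : Finset (Fin 3))ᶜ).card = 2 := by
    rw [Finset.card_compl, Finset.card_singleton]
    rfl
  rw [h2] at h1
  have h3 : tb.Ps.E (fun u => ind (sgt D {b} (t + 1) u = sgt D {b} (t + 1) w) * g u) ≤
      tb.Ps.E (fun u => ind (sgt D {b} t u = sgt D {b} t w) * g u) := by
    refine tb.Ps.E_mono fun u _ => mul_le_mul_of_nonneg_right (ind_mono fun e => ?_) (hg u)
    obtain ⟨e1, e2, e3⟩ := sgt_eq.1 e
    exact sgt_eq.2 ⟨e1, e2, fun j => D.rb t _ _ (e3 j)⟩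
  have p1 := tb.Ps.m_pos (sgt D {b} t) hw
  have p2 := tb.Ps.m_pos (sgt D {b} (t + 1)) hw
  have h4 : 0 ≤ tb.Ps.E (fun u => ind (sgt D {b} t u = sgt D {b} t w) * g u) :=
    tb.Ps.E_nonneg fun u _ => mul_nonneg (ind_nonneg _) (hg u)
  unfold FP.ce
  rw [div_le_iff₀ p2, mul_div_assoc', div_mul_eq_mul_div, le_div_iff₀ p1]
  nlinarith

/-- a positive conditional mean has a point -/
theorem ce_ex {Om κ : Type*} [Fintype Om] {P : FP Om} {Z : Om → κ} {A : Om → Prop} {w : Om}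
    (hp : 0 < P.ce Z (fun u => ind (A u)) w) : ∃ u, P.p u ≠ 0 ∧ Z u = Z w ∧ A u := by
  by_contra hno
  push Not at hno
  have h1 : P.ce Z (fun u => ind (A u)) w = 0 := by
    unfold FP.ce
    rw [P.E_congr (g := fun _ => 0) fun u hu => ?_, P.E_const, zero_div]
    by_cases hz : Z u = Z w
    · show ind (Z u = Z w) * ind (A u) = 0
      rw [ind_not (hno u hu hz), mul_zero]
    · show ind (Z u = Z w) * ind (A u) = 0
      rw [ind_not hz, zero_mul]
  linarith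

/-- mass of a dense event -/
theorem pr_dens {Om κ : Type*} [Fintype Om] (P : FP Om) {Z : Om → κ} {V A : Om → Prop} (hV : Fac Z V) {y : ℝ}
    (hy : ∀ w, V w → y ≤ P.ce Z (fun u => ind (A u)) w) : y * P.Pr V ≤ P.Pr (fun u => V u ∧ A u) := by
  have e1 : P.Pr (fun u => V u ∧ A u) = P.E (fun u => ind (V u) * P.ce Z (fun u => ind (A u)) u) := by
    rw [P.E_mul_ce (hV.comp fun q => ind q)]
    exact P.E_congr fun w _ => ind_and _ _
  rw [e1]
  unfold FP.Pr
  rw [← FP.E_smul]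
  refine P.E_mono fun u _ => ?_
  by_cases hu : V u
  · rw [ind_of hu, one_mul, mul_one]
    exact hy u hu
  · rw [ind_not hu, zero_mul, mul_zero]

/-- **DENSE EXACT VERTICES IN A CLASS OF THE RUN** -/
theorem cls_v {n N1 : ℝ} (hn : 1 ≤ n) (hN1 : 1 ≤ N1) (R : Run h (pr3 (Fin 3) n N1) (SS1 (Fin 3)) (AdmDep D) v)
    {dg : ℕ → X → ℝ} {Lam : ℝ} (H : D.Hyp dg prr al T Lam) {t q s : ℕ} (ht : t ≤ T)
    (hst : TP.nn s = t ∨ (TP.nn s = t + 1 ∧ t < T)) (h5 : 5 * t ≤ q) (hq4 : q ≤ 5 * t + 4) (hss : q ≤ s)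
    {X0 L1 lw lw2 y0 y1 eta F : ℝ} {w0 : Om W X β} (hw0 : tb.Ps.p w0 ≠ 0) {A G : Om W X β → Prop}
    (HA : RnO tb h v t q X0 w0 A) {b c d : Fin 3} (fG : Fac (sgt (W := W) D {b} (TP.nn s)) G) (hy0 : 0 < y0) (hy1 : 0 < y1)
    (hl : Real.exp (-lw) * tb.Ps.m (NPo tb v (5 * t)) w0 ≤ tb.Ps.m (NPo tb v s) w0)
    (hq : ∀ u, tb.Ps.p u ≠ 0 → NPo tb v s u = NPo tb v s w0 → G u →
      Real.exp (-lw2) * tb.Ps.m (XN tb v b (5 * t)) u ≤ tb.Ps.m (XN tb v b q) u ∧
        tb.Ps.ce (XN tb v b q) (fun u => ind (A u)) u ≤ eta)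
    (hS : SV h (Um v (t + 1)) t b c d (3 * Real.exp X0) (L1 + lw) (y0 / 8) lw2 eta F) (hF : F < y1 / 4) :
    tb.Ps.ce (NPo tb v s) (fun u => ind (y0 ≤ tb.Ps.ce (sgt D ∅ (TP.nn s))
      (fun u => ind (G u ∧ y1 < tb.Ps.ce (sgt D {b} (TP.nn s)) (fun u => ind (A u)) u)) u)) w0 ≤ Real.exp (-L1) := by
  classical
  have hv := R.codes
  have H0 : Pul tb.Ps (D.P h t) (tb.pt t) := pul_pt h tb ht
  have h5s : 5 * t ≤ s := h5.trans hss
  have hM0 : 0 ≤ 3 * Real.exp X0 := by positivity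
  -- the relation, the dense exact vertices, the dense nodes, at the sights of the time `t`
  set A1 : Om W X β → Prop := fun u => (A u ∧ G u) ∧ NPo tb v s u = NPo tb v s w0 with hA1
  set VB : Om W X β → Prop := fun u => y1 / 4 ≤ tb.Ps.ce (sgt D {b} t) (fun u => ind (A1 u)) u with hVB
  set Gd : Om W X β → Prop := fun u => y0 / 8 ≤ tb.Ps.ce (sgt D ∅ t) (fun u => ind (VB u)) u with hGd
  set VO : Om W X β → Prop := fun u => NPo tb v (5 * t) u = NPo tb v (5 * t) w0 ∧ Wc D v s w0 u ∧ Gd u with hVO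
  set V1O : Om W X β → Prop := fun u => NPo tb v (5 * t) u = NPo tb v (5 * t) w0 ∧ Wc D v q w0 u with hV1O
  have fM : Fac (sgt (W := W) D ∅ t) (NPo tb v (5 * t)) := GamR.NP_sgt tb hv t
  have fbe : Fac (sgt (W := W) D {b} t) (sgt D ∅ t) := fun a e hab => by
    obtain ⟨g1, g2, g3⟩ := sgt_eq.1 hab
    exact sgt_eq.2 ⟨g1, fun j hj => absurd hj (Finset.notMem_empty j), g3⟩
  have fVB : Fac (sgt (W := W) D {b} t) VB := fun a e hab => by
    show (_ ≤ _) = (_ ≤ _)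
    rw [tb.Ps.ce_fac (sgt D {b} t) (fun u => ind (A1 u)) a e hab]
  have fGd : Fac (sgt (W := W) D ∅ t) Gd := fun a e hab => by
    show (_ ≤ _) = (_ ≤ _)
    rw [tb.Ps.ce_fac (sgt D ∅ t) (fun u => ind (VB u)) a e hab]
  have fVO : Fac (sgt (W := W) D ∅ t) VO := fun a e hab => by
    have e1 := fM a e hab
    have e2 := (sgt_eq.1 hab).1
    have e3 := fGd a e hab
    show (_ ∧ _ ∧ _) = (_ ∧ _ ∧ _)
    unfold Wc
    rw [e1, e2, e3]
  have fV1O : Fac (sgt (W := W) D ∅ t) V1O := fun a e hab => by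
    have e1 := fM a e hab
    have e2 := (sgt_eq.1 hab).1
    show (_ ∧ _) = (_ ∧ _)
    unfold Wc
    rw [e1, e2]
  -- a point of the relation over a dense exact vertex
  have hex1 : ∀ u, VB u → ∃ z, tb.Ps.p z ≠ 0 ∧ sgt D {b} t z = sgt D {b} t u ∧ A1 z := fun u hu =>
    ce_ex (lt_of_lt_of_le (by linarith) hu)
  -- the densities at the cells of `s`
  have hd1 : ∀ u, tb.Ps.p u ≠ 0 → NPo tb v s u = NPo tb v s w0 → G u →
      y1 < tb.Ps.ce (sgt D {b} (TP.nn s)) (fun u => ind (A u)) u → VB u := by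
    intro u hu h1 hG h2
    have e1 : tb.Ps.ce (sgt D {b} (TP.nn s)) (fun u => ind (A u)) u =
        tb.Ps.ce (sgt D {b} (TP.nn s)) (fun u => ind (A1 u)) u := by
      refine GamR.ce_sup tb.Ps fun z _ hz => ?_
      have e2 : NPo tb v s z = NPo tb v s w0 := (congrArg Prod.snd (XN_sgtS tb hv b s z u hz)).trans h1
      have e3 : G z := by rw [fG z u hz]; exact hG
      have e4 : A1 z = A z := propext ⟨fun hh => hh.1.1, fun hh => ⟨⟨hh, e3⟩, e2⟩⟩
      rw [e4]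
    have e4 : tb.Ps.ce (sgt D {b} (TP.nn s)) (fun u => ind (A1 u)) u ≤ 4 * tb.Ps.ce (sgt D {b} t) (fun u => ind (A1 u)) u := by
      rcases hst with h3 | ⟨h3, h4⟩
      · rw [h3]
        have := tb.Ps.ce_nonneg (X := sgt (W := W) D {b} t) (f := fun u => ind (A1 u)) (fun _ _ => ind_nonneg _) u
        linarith
      · rw [h3]
        exact half1 H b h4 (fun _ => ind_nonneg _) hu
    show y1 / 4 ≤ _
    linarith
  have hd0 : ∀ u, tb.Ps.p u ≠ 0 → NPo tb v s u = NPo tb v s w0 → y0 ≤ tb.Ps.ce (sgt D ∅ (TP.nn s))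
      (fun u => ind (G u ∧ y1 < tb.Ps.ce (sgt D {b} (TP.nn s)) (fun u => ind (A u)) u)) u → Gd u := by
    intro u hu h1 h2
    have e1 : tb.Ps.ce (sgt D ∅ (TP.nn s))
        (fun u => ind (G u ∧ y1 < tb.Ps.ce (sgt D {b} (TP.nn s)) (fun u => ind (A u)) u)) u ≤
        tb.Ps.ce (sgt D ∅ (TP.nn s)) (fun u => ind (VB u)) u := by
      unfold FP.ce
      refine div_le_div_of_nonneg_right (tb.Ps.E_mono fun z hz => ?_) (tb.Ps.m_nonneg _ _)
      by_cases hzu : sgt D ∅ (TP.nn s) z = sgt D ∅ (TP.nn s) u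
      · rw [ind_of hzu, one_mul, one_mul]
        refine ind_mono fun hh => hd1 z hz ?_ hh.1 hh.2
        exact (NPq_sgt tb hv le_rfl (TP.nc_le s ∅) ∅ 0 z u hzu).trans h1
      · rw [ind_not hzu, zero_mul, zero_mul]
    have e4 : tb.Ps.ce (sgt D ∅ (TP.nn s)) (fun u => ind (VB u)) u ≤ 8 * tb.Ps.ce (sgt D ∅ t) (fun u => ind (VB u)) u := by
      rcases hst with h3 | ⟨h3, h4⟩
      · rw [h3]
        have := tb.Ps.ce_nonneg (X := sgt (W := W) D ∅ t) (f := fun u => ind (VB u)) (fun _ _ => ind_nonneg _) u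
        linarith
      · rw [h3]
        exact GamR.half_ge tb H h4 (fun _ => ind_nonneg _) hu
    show y0 / 8 ≤ _
    linarith
  -- the mass of the event of nodes
  have k1 := cls_mass (tb := tb) hv (t := t) h5s hw0 fGd
  have k2 := cls_mass' (tb := tb) hv (t := t) h5s hw0
  have lo1 := cls_low (tb := tb) hv h5s hw0 hl
  set mY := tb.Ps.m (fun u => (GamR.Yc D (TP.nn s) u, NPo tb v (5 * t) u)) w0 with hmY
  have pY : 0 < mY := tb.Ps.m_pos _ hw0
  set pV := tb.Ps.ce (NPo tb v (5 * t)) (fun u => ind (VO u)) w0 with hpV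
  set p1 := tb.Ps.ce (NPo tb v (5 * t)) (fun u => ind (NPo tb v (5 * t) u = NPo tb v (5 * t) w0 ∧ Wc D v s w0 u)) w0 with hp1
  have hp1pos : 0 < p1 := lt_of_lt_of_le (Real.exp_pos _) lo1
  have k3 : tb.Ps.ce (NPo tb v s) (fun u => ind (y0 ≤ tb.Ps.ce (sgt D ∅ (TP.nn s))
      (fun u => ind (G u ∧ y1 < tb.Ps.ce (sgt D {b} (TP.nn s)) (fun u => ind (A u)) u)) u)) w0 * p1 ≤ pV := by
    have e1 : tb.Ps.E (fun u => ind (NPo tb v s u = NPo tb v s w0) * ind (y0 ≤ tb.Ps.ce (sgt D ∅ (TP.nn s))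
        (fun u => ind (G u ∧ y1 < tb.Ps.ce (sgt D {b} (TP.nn s)) (fun u => ind (A u)) u)) u)) ≤ mY * pV := by
      rw [← k1]
      refine tb.Ps.E_mono fun u hu => ?_
      rw [← ind_and]
      exact ind_mono fun hh => ⟨hh.1, hd0 u hu hh.1 hh.2⟩
    unfold FP.ce at *
    rw [k2, div_mul_eq_mul_div, div_le_iff₀ (mul_pos pY hp1pos)]
    nlinarith
  by_contra hcon
  have hcon' := not_le.1 hcon
  have hpV1 : Real.exp (-(L1 + lw)) ≤ pV := by
    refine le_trans ?_ k3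
    rw [neg_add, Real.exp_add]
    exact mul_le_mul hcon'.le lo1 (Real.exp_pos _).le ((Real.exp_pos _).le.trans hcon'.le)
  have hpVpos : 0 < pV := lt_of_lt_of_le (Real.exp_pos _) hpV1
  obtain ⟨w1, hw1, hw1c, hVw⟩ := ce_ex hpVpos
  have hp1w : (D.P h t).p (tb.pt t w1) ≠ 0 := H0.ne hw1
  -- the dense event
  set VV : Om W X β → Prop := fun u => VO u ∧ VB u with hVV
  have fVV : Fac (sgt (W := W) D {b} t) VV := fun a e hab => by
    have e1 := fVO a e (fbe a e hab)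
    have e2 := fVB a e hab
    show (_ ∧ _) = (_ ∧ _)
    rw [e1, e2]
  have nVO : 0 < tb.Ps.Pr VO := FP.Pr_pos_of (S := VO) hw1 hVw
  have dVV : y0 / 8 * tb.Ps.Pr VO ≤ tb.Ps.Pr VV := pr_dens tb.Ps fVO fun w hw => hw.2.2
  have nVV : 0 < tb.Ps.Pr VV := lt_of_lt_of_le (by positivity) dVV
  -- the events on the space of the time `t`
  set E' : Pt (Fin 3) X β φ → Prop := fun p => VO (p.1, w0.2.1, p.2.1) with hE'
  set V' : Pt (Fin 3) X β φ → Prop := fun p => VV (p.1, w0.2.1, p.2.1) with hV'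
  set V1' : Pt (Fin 3) X β φ → Prop := fun p => V1O (p.1, w0.2.1, p.2.1) with hV1'
  have eE : VO = fun u => E' (tb.pt t u) := by
    funext u
    exact fVO u (u.1, w0.2.1, u.2.2) (sgt_eq.2 ⟨rfl, fun _ _ => rfl, fun _ => rfl⟩)
  have eV : VV = fun u => V' (tb.pt t u) := by
    funext u
    exact fVV u (u.1, w0.2.1, u.2.2) (sgt_eq.2 ⟨rfl, fun _ _ => rfl, fun _ => rfl⟩)
  have eV1 : V1O = fun u => V1' (tb.pt t u) := by
    funext u
    exact fV1O u (u.1, w0.2.1, u.2.2) (sgt_eq.2 ⟨rfl, fun _ _ => rfl, fun _ => rfl⟩)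
  have hAhs : ∀ a e : Pt (Fin 3) X β φ, Ah D t ∅ a = Ah D t ∅ e →
      sgt (W := W) D ∅ t (a.1, w0.2.1, a.2.1) = sgt D ∅ t (e.1, w0.2.1, e.2.1) := fun a e hae => by
    unfold Ah at hae
    rw [Prod.mk.injEq, BB_eq] at hae
    exact sgt_eq.2 ⟨hae.1, fun j hj => absurd hj (Finset.notMem_empty j), hae.2.2.2⟩
  have hAhb : ∀ a e : Pt (Fin 3) X β φ, Ah D t {b} a = Ah D t {b} e →
      sgt (W := W) D {b} t (a.1, w0.2.1, a.2.1) = sgt D {b} t (e.1, w0.2.1, e.2.1) := fun a e hae => by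
    unfold Ah at hae
    rw [Prod.mk.injEq, BB_eq] at hae
    exact sgt_eq.2 ⟨hae.1, hae.2.1, hae.2.2.2⟩
  have hAb0 : ∀ a e : Pt (Fin 3) X β φ, Ah D t {b} a = Ah D t {b} e → Ah D t ∅ a = Ah D t ∅ e := fun a e hae => by
    unfold Ah at hae ⊢
    rw [Prod.mk.injEq, BB_eq] at hae ⊢
    exact ⟨hae.1, fun j hj => absurd hj (Finset.notMem_empty j), hae.2.2⟩
  have hcls : ∀ p : Pt (Fin 3) X β φ, NPo tb v (5 * t) (p.1, w0.2.1, p.2.1) = NPo tb v (5 * t) w0 →
      xc D (Um v (t + 1)) t ∅ (tb.pt t w1) p := fun p hp => by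
    refine NPq_xc.1 ?_
    have e1 : TP.NPq D v (5 * t) p = NPo tb v (5 * t) (p.1, w0.2.1, p.2.1) := rfl
    have e2 : TP.NPq D v (5 * t) (tb.pt t w1) = NPo tb v (5 * t) w1 := rfl
    rw [e1, e2, hp, hVw.1]
  have hC0n : (D.P h t).Pr (xc D (Um v (t + 1)) t ∅ (tb.pt t w1)) ≠ 0 := xc_ne hp1w
  -- the law of the points
  have hpr : ∀ (G1 : Om W X β → Prop) (G2 : Pt (Fin 3) X β φ → Prop), (∀ u, tb.Ps.p u ≠ 0 → (G1 u ↔ G2 (tb.pt t u))) →
      (D.P h t).Pr G2 = tb.Ps.Pr G1 := by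
    intro G1 G2 hGG
    rw [← H0.Pr]
    exact tb.Ps.Pr_congr fun u hu => (hGG u hu).symm
  have hLE : Real.log (1 / ((D.P h t).cond (xc D (Um v (t + 1)) t ∅ (tb.pt t w1))).Pr E') ≤ L1 + lw := by
    have e0 : (fun u => xc D (Um v (t + 1)) t ∅ (tb.pt t w1) (tb.pt t u)) =
        fun u => NPo tb v (5 * t) u = NPo tb v (5 * t) w1 := by
      funext u
      exact propext (NPq_xc (D := D) (v := v) (p := tb.pt t u) (q := tb.pt t w1)).symm
    have e1 := pul_cond H0 hC0n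
    rw [e0] at e1
    have e2 : ((D.P h t).cond (xc D (Um v (t + 1)) t ∅ (tb.pt t w1))).Pr E' = pV := by
      rw [← e1.Pr E', ← eE, hpV, tb.Ps.ce_fac (NPo tb v (5 * t)) _ w0 w1 hVw.1.symm]
      exact (tb.Ps.ce_eq_cond (NPo tb v (5 * t)) _ hw1).symm
    rw [e2, one_div, Real.log_inv]
    have := Real.log_le_log (Real.exp_pos _) hpV1
    rw [Real.log_exp] at this
    linarith
  -- a point of the dense event and a point of the relation over it
  have hpt : ∀ p, (D.P h t).p p ≠ 0 → V' p → ∃ w z, tb.Ps.p w ≠ 0 ∧ tb.pt t w = p ∧ VV w ∧ tb.Ps.p z ≠ 0 ∧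
      sgt D {b} t z = sgt D {b} t w ∧ A1 z := by
    intro p hp hVp
    obtain ⟨w, hw, hwp⟩ := RarC.pul_ex H0 hp
    have h1 : VV w := by
      have h2 : VV w = V' (tb.pt t w) := congrFun eV w
      rw [h2, hwp]
      exact hVp
    obtain ⟨z, hz1, hz2, hz3⟩ := hex1 w h1.2
    exact ⟨w, z, hw, hwp, h1, hz1, hz2, hz3⟩
  have hWq : ∀ u, Wc D v s w0 u → Wc D v q w0 u := fun u hu => by
    have h2 : NPo tb v s (u.1, u.2.1, w0.2.2) = NPo tb v s w0 := (NPs_iff tb hv).2 ⟨fun _ => rfl, hu⟩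
    have h3 := NPo_mono tb hss h2
    exact ((NPs_iff tb hv).1 h3).2
  have key := hS (tb.pt t w1) (TyC h v t X0 (tb.pt t w0)) E' V' V1' (AE tb v t q s w0 A) hp1w (TyC_card h v t X0 (tb.pt t w0))
    (fun a e hae => fVO _ _ (hAhs a e hae)) (fun p hp => hcls p hp.1) (fun a e hae => fVV _ _ (hAhb a e hae))
    (fun p hp => hp.1) (by rw [hpr VV V' fun u _ => Iff.of_eq (congrFun eV u)]; exact nVV.ne')
    (fun a e hae => fV1O _ _ (hAhs a e (hAb0 a e hae))) (fun p hp => hcls p hp.1) (fun p hp => ⟨hp.1.1, hWq _ hp.1.2.1⟩)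
    (AE_Rn (s := s) (b := b) (c := c) (d := d) hn hN1 R ht h5 HA (p1 := tb.pt t w1) hVw.1)
    (fun p hp hVp => by
      obtain ⟨w, z, hw, rfl, h1, hz1, hz2, hz3⟩ := hpt p hp hVp
      have g1 : XN tb v b (5 * t) z = XN tb v b (5 * t) w := RarC.XN_sgt tb hv b t z w hz2
      have g2 := congrArg Prod.fst g1
      have g3 : z.2.2 b = w.2.2 b := congrArg Prod.fst g2
      have g4 : Um v (TP.nc (5 * t) {b}) {b} z.1 z.2.2 = Um v (TP.nc (5 * t) {b}) {b} w.1 w.2.2 := congrArg Prod.snd g2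
      rw [GamR.nc5] at g4
      exact ⟨b, tb.pt t z, H0.ne hz1, NPo_mono tb h5s hz3.2, g3, g4, HA.typ z hz1 (NPo_mono tb hss hz3.2) hz3.1.1 b⟩)
    hLE (by rw [hpr VO E' fun u _ => Iff.of_eq (congrFun eE u), hpr VV V' fun u _ => Iff.of_eq (congrFun eV u)]; exact dVV)
    (fun p hp hVp => by
      obtain ⟨w, z, hw, rfl, h1, hz1, hz2, hz3⟩ := hpt p hp hVp
      have g1 : XN tb v b (5 * t) z = XN tb v b (5 * t) w := RarC.XN_sgt tb hv b t z w hz2
      obtain ⟨q1, q2⟩ := hq z hz1 hz3.2 hz3.1.2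
      have c1 : ∀ u, (clm D (Um v (t + 1)) t b (tb.pt t u) = clm D (Um v (t + 1)) t b (tb.pt t w)) ↔
          XN tb v b (5 * t) u = XN tb v b (5 * t) z := fun u => by
        rw [← XN_clm tb b t, g1]
      have m1 : (D.P h t).m (clm D (Um v (t + 1)) t b) (tb.pt t w) = tb.Ps.m (XN tb v b (5 * t)) z :=
        hpr (fun u => XN tb v b (5 * t) u = XN tb v b (5 * t) z)
          (fun p => clm D (Um v (t + 1)) t b p = clm D (Um v (t + 1)) t b (tb.pt t w)) fun u _ => (c1 u).symm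
      have m2 : (D.P h t).Pr (fun p => V1' p ∧ clm D (Um v (t + 1)) t b p = clm D (Um v (t + 1)) t b (tb.pt t w)) =
          tb.Ps.Pr (fun u => V1O u ∧ XN tb v b (5 * t) u = XN tb v b (5 * t) z) :=
        hpr _ _ fun u _ => by
          rw [c1 u]
          exact and_congr_left fun _ => Iff.of_eq (congrFun eV1 u)
      have l1 : tb.Ps.m (XN tb v b q) z ≤ tb.Ps.Pr (fun u => V1O u ∧ XN tb v b (5 * t) u = XN tb v b (5 * t) z) := by
        refine tb.Ps.Pr_mono fun u _ hu => ?_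
        have a1 : NPo tb v q u = NPo tb v q w0 := (congrArg Prod.snd hu).trans (NPo_mono tb hss hz3.2)
        exact ⟨⟨NPo_mono tb h5 a1, ((NPs_iff tb hv).1 a1).2⟩, RarC.XN_mono tb b h5 u z hu⟩
      have pm := tb.Ps.m_pos (XN tb v b q) hz1
      have n1 : 0 < tb.Ps.Pr (fun u => V1O u ∧ XN tb v b (5 * t) u = XN tb v b (5 * t) z) := pm.trans_le l1
      refine ⟨?_, ?_⟩
      · rw [m1, m2]
        exact q1.trans l1
      · rw [FP.cond_Pr (by rw [m2]; exact n1.ne'), m2]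
        have m3 : (D.P h t).Pr (fun p => (V1' p ∧ clm D (Um v (t + 1)) t b p = clm D (Um v (t + 1)) t b (tb.pt t w)) ∧
            AE tb v t q s w0 A p) = tb.Ps.Pr (fun u => (V1O u ∧ XN tb v b (5 * t) u = XN tb v b (5 * t) z) ∧
              AE tb v t q s w0 A (tb.pt t u)) :=
          hpr _ _ fun u _ => by
            rw [c1 u]
            exact and_congr_left fun _ => and_congr_left fun _ => Iff.of_eq (congrFun eV1 u)
        rw [m3, div_le_iff₀ n1]
        have l2 : tb.Ps.Pr (fun u => (V1O u ∧ XN tb v b (5 * t) u = XN tb v b (5 * t) z) ∧ AE tb v t q s w0 A (tb.pt t u)) ≤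
            tb.Ps.ce (XN tb v b q) (fun u => ind (A u)) z * tb.Ps.m (XN tb v b q) z := by
          unfold FP.ce
          rw [div_mul_cancel₀ _ pm.ne']
          refine tb.Ps.E_mono fun u hu => ?_
          rw [← ind_and]
          refine ind_mono fun hh => ?_
          obtain ⟨a1, a2⟩ := AE_to hv hss HA hu hh.1.1.2 hh.2
          refine ⟨?_, a1⟩
          have a3 : NPo tb v q u = NPo tb v q z := a2.trans (NPo_mono tb hss hz3.2).symm
          have a4 := congrArg Prod.fst hh.1.2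
          have a5 : u.2.2 b = z.2.2 b := congrArg Prod.fst a4
          have a6 : Um v (TP.nc (5 * t) {b}) {b} u.1 u.2.2 = Um v (TP.nc (5 * t) {b}) {b} z.1 z.2.2 := congrArg Prod.snd a4
          refine Prod.ext (Prod.ext a5 ?_) a3
          show Um v (TP.nc q {b}) {b} u.1 u.2.2 = Um v (TP.nc q {b}) {b} z.1 z.2.2
          rw [GamR.nc5] at a6
          rw [RarN.ncp b, show q / 5 + 1 = t + 1 by omega]
          exact a6
        have e0 : 0 ≤ tb.Ps.m (XN tb v b q) z := pm.le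
        have e1 := mul_le_mul_of_nonneg_right q2 e0
        have eta0 : 0 ≤ eta := (tb.Ps.ce_nonneg (X := XN tb v b q) (f := fun u => ind (A u)) (fun _ _ => ind_nonneg _) z).trans q2
        have e2 := mul_le_mul_of_nonneg_left l1 eta0
        linarith)
  -- the lower bound
  have lb : y1 / 4 * tb.Ps.Pr VV ≤ tb.Ps.Pr (fun u => VV u ∧ A1 u) := pr_dens tb.Ps fVV fun w hw => hw.2
  have nV' : (D.P h t).Pr V' ≠ 0 := by rw [hpr VV V' fun u _ => Iff.of_eq (congrFun eV u)]; exact nVV.ne'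
  rw [FP.cond_Pr nV', hpr VV V' fun u _ => Iff.of_eq (congrFun eV u), div_le_iff₀ nVV] at key
  have e5 : tb.Ps.Pr (fun u => VV u ∧ A1 u) ≤ (D.P h t).Pr (fun p => V' p ∧ AE tb v t q s w0 A p) := by
    rw [hpr (fun u => V' (tb.pt t u) ∧ AE tb v t q s w0 A (tb.pt t u)) (fun p => V' p ∧ AE tb v t q s w0 A p) fun u _ => Iff.rfl]
    refine tb.Ps.Pr_mono fun u hu hh => ⟨?_, AE_of hss hu hh.2.2 hh.2.1.1⟩
    have h2 : VV u = V' (tb.pt t u) := congrFun eV u
    rw [← h2]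
    exact hh.1
  have e6 : F * tb.Ps.Pr VV < y1 / 4 * tb.Ps.Pr VV := mul_lt_mul_of_pos_right hF nVV
  linarith

/-- **THE WHOLE LAW**, inside an event `C` of the class of `s` -/
theorem tot_v {n N1 : ℝ} (hn : 1 ≤ n) (hN1 : 1 ≤ N1) (R : Run h (pr3 (Fin 3) n N1) (SS1 (Fin 3)) (AdmDep D) v)
    {dg : ℕ → X → ℝ} {Lam : ℝ} (H : D.Hyp dg prr al T Lam) {t q s : ℕ} (ht : t ≤ T)
    (hst : TP.nn s = t ∨ (TP.nn s = t + 1 ∧ t < T)) (h5 : 5 * t ≤ q) (hq4 : q ≤ 5 * t + 4) (hss : q ≤ s)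
    {X0 L1 lw lw2 y0 y1 eta F : ℝ} {A G C : Om W X β → Prop} {b c d : Fin 3} (hC : Fac (NPo tb v s) C)
    (fG : Fac (sgt (W := W) D {b} (TP.nn s)) G) (hy0 : 0 < y0) (hy1 : 0 < y1)
    (hw : ∀ w, tb.Ps.p w ≠ 0 → C w → RnO tb h v t q X0 w A ∧
      Real.exp (-lw) * tb.Ps.m (NPo tb v (5 * t)) w ≤ tb.Ps.m (NPo tb v s) w)
    (hq : ∀ u, tb.Ps.p u ≠ 0 → C u → G u →
      Real.exp (-lw2) * tb.Ps.m (XN tb v b (5 * t)) u ≤ tb.Ps.m (XN tb v b q) u ∧
        tb.Ps.ce (XN tb v b q) (fun u => ind (A u)) u ≤ eta)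
    (hS : SV h (Um v (t + 1)) t b c d (3 * Real.exp X0) (L1 + lw) (y0 / 8) lw2 eta F) (hF : F < y1 / 4) :
    tb.Ps.Pr (fun w => C w ∧ y0 ≤ tb.Ps.ce (sgt D ∅ (TP.nn s))
      (fun u => ind (G u ∧ y1 < tb.Ps.ce (sgt D {b} (TP.nn s)) (fun u => ind (A u)) u)) w) ≤
      Real.exp (-L1) * tb.Ps.Pr C := by
  classical
  have e1 : tb.Ps.Pr (fun w => C w ∧ y0 ≤ tb.Ps.ce (sgt D ∅ (TP.nn s))
      (fun u => ind (G u ∧ y1 < tb.Ps.ce (sgt D {b} (TP.nn s)) (fun u => ind (A u)) u)) w) =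
      tb.Ps.E (fun w => ind (C w) * tb.Ps.ce (NPo tb v s) (fun w => ind (y0 ≤ tb.Ps.ce (sgt D ∅ (TP.nn s))
        (fun u => ind (G u ∧ y1 < tb.Ps.ce (sgt D {b} (TP.nn s)) (fun u => ind (A u)) u)) w)) w) := by
    rw [tb.Ps.E_mul_ce (hC.comp fun q => ind q)]
    exact tb.Ps.E_congr fun w _ => ind_and _ _
  rw [e1]
  show _ ≤ Real.exp (-L1) * tb.Ps.E (fun w => ind (C w))
  rw [← tb.Ps.E_smul]
  refine tb.Ps.E_mono fun w hpw => ?_
  by_cases hCw : C w
  · rw [ind_of hCw, one_mul, mul_one]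
    obtain ⟨g1, g2⟩ := hw w hpw hCw
    exact cls_v hn hN1 R H ht hst h5 hq4 hss hpw g1 fG hy0 hy1 g2
      (fun u hu e hG => hq u hu (by rw [hC u w e]; exact hCw) hG) hS hF
  · rw [ind_not hCw, zero_mul, mul_zero]

/-- the good values of the class of the exact vertex at the state `q` of the level `t` -/
def Gx (tb : Tab D prr T W) (v : ℕ → Finset (Fin 3) → X → (Fin 3 → β) → Pt (Fin 3) X β φ) (b : Fin 3) (dg : ℕ → X → ℝ)
    (lam : ℝ) (t q : ℕ) (w : Om W X β) : Prop :=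
  (5 * t < q → RarC.hvX tb v b dg lam t w) ∧ (5 * t + 1 < q → RarC.gX tb v b lam t w)

/-- **PER STEP** : state `q = 5 t + j`, `j ≤ 4`, sight and event `C` at `s`, `q ≤ s ≤ 5 t + 5`, class masses of the exact vertex
at `q` -/
theorem stepV {n N1 : ℝ} (hn : 1 ≤ n) (hN1 : 1 ≤ N1) (R : Run h (pr3 (Fin 3) n N1) (SS1 (Fin 3)) (AdmDep D) v)
    {dg : ℕ → X → ℝ} {Lam : ℝ} (H : D.Hyp dg prr al T Lam) {t q s : ℕ} (hsT : s = 5 * t ∧ t ≤ T ∨ t < T) (h5 : 5 * t ≤ q)
    (hq4 : q ≤ 5 * t + 4) (hqs : q ≤ s) (hs : s ≤ 5 * t + 5) {p : V3.AP}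
    {lam L1 y0 y1 eta F : ℝ} (hlam : 0 ≤ lam) (hy0 : 0 < y0) (hy1 : 0 < y1) {A C : Om W X β → Prop} {b c d : Fin 3}
    (hA : RarN.Sn tb v q A) (hal : ∀ w, A w → Alv h v tb p q w) (hC : Fac (NPo tb v s) C)
    (hdg : ∀ w, tb.Ps.p w ≠ 0 → C w → 5 * t < s → GamR.hvy tb v dg lam t w)
    (hhz : ∀ w, tb.Ps.p w ≠ 0 → C w → 5 * t + 1 < s → RarN.hz tb v t w)
    (hm : ∀ w, tb.Ps.p w ≠ 0 → C w → tb.Ps.m (XN tb v b (5 * t)) w ≤ Real.exp (2 * lam + 3) * tb.Ps.m (XN tb v b q) w →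
      tb.Ps.ce (XN tb v b q) (fun u => ind (A u)) w ≤ eta)
    (hS : SV h (Um v (t + 1)) t b c d (3 * Real.exp p.X0) (L1 + (lam + 4)) (y0 / 8) (2 * lam + 3) eta F) (hF : F < y1 / 4) :
    tb.Ps.Pr (fun w => C w ∧ y0 ≤ tb.Ps.ce (sgt D ∅ (TP.nn s))
      (fun u => ind (Gx tb v b dg lam t q u ∧ y1 < tb.Ps.ce (sgt D {b} (TP.nn s)) (fun u => ind (A u)) u)) w) ≤
      Real.exp (-L1) * tb.Ps.Pr C := by
  classical
  have hv := R.codes
  have ht : t ≤ T := by
    rcases hsT with h1 | h1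
    · exact h1.2
    · exact h1.le
  have hst : TP.nn s = t ∨ (TP.nn s = t + 1 ∧ t < T) := by
    rcases hsT with h1 | h1
    · left
      rw [h1.1, GamR.nn5]
    · obtain ⟨j, hj⟩ := Nat.exists_eq_add_of_le (h5.trans hqs)
      rcases Nat.eq_zero_or_pos j with h2 | h2
      · left
        rw [hj, h2, add_zero, GamR.nn5]
      · right
        rw [hj]
        exact ⟨TP.nn_j t h2 (by omega), h1⟩
  have hnc : ∀ e, TP.nc q {e} = t + 1 := fun e => by rw [RarN.ncp e]; omega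
  have fG : Fac (sgt (W := W) D {b} (TP.nn s)) (Gx tb v b dg lam t q) := fun a e hab => by
    have h1 : XN tb v b s a = XN tb v b s e := XN_sgtS tb hv b s a e hab
    unfold Gx
    refine propext (and_congr ?_ ?_)
    · refine forall_congr' fun h2 => ?_
      rcases hsT with h3 | h3
      · exact absurd h2 (by omega)
      · exact RarC.hvX_fac H h3 (by omega) h1
    · exact forall_congr' fun h2 => RarC.gX_fac (by omega) h1
  have hsh : ∀ u, tb.Ps.p u ≠ 0 → C u → Gx tb v b dg lam t q u →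
      tb.Ps.m (XN tb v b (5 * t)) u ≤ Real.exp (2 * lam + 3) * tb.Ps.m (XN tb v b q) u := by
    intro u hu hCu hGu
    obtain ⟨j, hj⟩ := Nat.exists_eq_add_of_le h5
    have h6 : j = 0 ∧ t ≤ T ∨ t < T := by
      rcases hsT with h1 | h1
      · left
        exact ⟨by omega, h1.2⟩
      · exact Or.inr h1
    have h7 := RarC.lowX (tb := tb) (v := v) (b := b) (t := t) (lam := lam) hv H h6 (by omega) hu hlam
      (fun h1 => hGu.1 (by omega)) (fun h1 => hGu.2 (by omega)) (fun h1 => by omega)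
    rw [← hj] at h7
    have p0 := tb.Ps.m_pos (XN tb v b (5 * t)) hu
    have pj := tb.Ps.m_pos (XN tb v b q) hu
    rw [Real.log_le_iff_le_exp (div_pos p0 pj), div_le_iff₀ pj] at h7
    exact h7
  refine tot_v hn hN1 R H ht hst h5 hq4 hqs (X0 := p.X0) (L1 := L1) (lw := lam + 4) (lw2 := 2 * lam + 3) hC fG hy0 hy1
    (fun w hw hCw => ⟨RarN.RnO_of h5 (by omega) hnc le_rfl w hA hal, ?_⟩)
    (fun u hu hCu hGu => ⟨?_, hm u hu hCu (hsh u hu hCu hGu)⟩) hS hF
  · obtain ⟨j, hj⟩ := Nat.exists_eq_add_of_le (h5.trans hqs)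
    rcases hsT with h1 | h1
    · rw [h1.1]
      have h2 : Real.exp (-(lam + 4)) ≤ 1 := Real.exp_le_one_iff.2 (by linarith)
      have := mul_le_mul_of_nonneg_right h2 (tb.Ps.m_pos (NPo tb v (5 * t)) hw).le
      linarith
    · rw [hj]
      exact RarN.low5 hv H h1 (by omega) hw hlam (fun _ => hdg w hw hCw (by omega)) (fun _ => hhz w hw hCw (by omega))
  · have h7 := hsh u hu hCu hGu
    rw [Real.exp_neg]
    have e0 := Real.exp_pos (2 * lam + 3)
    rw [inv_mul_le_iff₀ e0]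
    exact h7

/-- **EVERY STEP** : `q ≤ s ≤ q + 1`, relation of the start `τ ≤ q` (tables of `eT τ`) cut by `Alv p q`, event `C` of the public
class at `s`; heavy and light levels together -/
theorem vert_step {n N1 : ℝ} (hn : 1 ≤ n) (hN1 : 1 ≤ N1) (R : Run h (pr3 (Fin 3) n N1) (SS1 (Fin 3)) (AdmDep D) v)
    {dg : ℕ → X → ℝ} {Lam : ℝ} (H : D.Hyp dg prr al T Lam) {q s : ℕ} (hqs : q ≤ s) (hs : s ≤ q + 1) (hsT : s ≤ 5 * T)
    {p : V3.AP} {lam L1 y0 y1 eta F : ℝ} (hlam : 0 ≤ lam) (hy0 : 0 < y0) (hy1 : 0 < y1) {b c d : Fin 3} {τ : Om W X β → ℕ}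
    (hτ : ∀ u w, tb.Ps.p u ≠ 0 → tb.Ps.p w ≠ 0 → RarN.Es tb v q u w → τ u = τ w) (hle : ∀ w, τ w ≤ q)
    (hτl : ∀ u, ltL v tb q u → ltL v tb (τ u) u ∧ τ u / 5 = q / 5)
    {B : ℕ → Om W X β → Prop} (hB : ∀ e ≤ 5 * T, RarN.Sn tb v e (B e)) (hBal : ∀ e w, B e w → Alv h v tb p e w)
    {C : Om W X β → Prop} (hC : Fac (NPo tb v s) C)
    (hCl : q % 5 = 1 → s = q + 1 → ∀ w, tb.Ps.p w ≠ 0 → C w → RarN.hz tb v (q / 5) w)
    (hm : ∀ w, tb.Ps.p w ≠ 0 → C w → (5 * (q / 5) + 1 < s → RarN.hz tb v (q / 5) w) →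
      tb.Ps.m (XN tb v b (5 * (q / 5))) w ≤ Real.exp (2 * lam + 3) * tb.Ps.m (XN tb v b q) w →
      tb.Ps.ce (XN tb v b q) (fun u => ind (RarN.At' tb v τ B u ∧ Alv h v tb p q u)) w ≤ eta)
    (hmL : ∀ w, tb.Ps.p w ≠ 0 → C w → 5 * (q / 5) + 1 < s → ¬ RarN.hz tb v (q / 5) w →
      tb.Ps.ce (XN tb v b (5 * (q / 5 + 1))) (fun u => ind (RarN.At' tb v τ B u ∧ Alv h v tb p q u)) w ≤ eta)
    (hS : ∀ t ≤ T, SV h (Um v (t + 1)) t b c d (3 * Real.exp p.X0) (L1 + (lam + 4)) (y0 / 16) (2 * lam + 3) eta F)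
    (hF : F < y1 / 4) :
    tb.Ps.Pr (fun w => C w ∧ y0 ≤ tb.Ps.ce (sgt D ∅ (TP.nn s)) (fun u => ind (y1 < tb.Ps.ce (sgt D {b} (TP.nn s))
      (fun u => ind (RarN.At' tb v τ B u ∧ Alv h v tb p q u)) u)) w) ≤
      Real.exp (-L1) * tb.Ps.Pr C + tb.Ps.Pr (fun w => 5 * (q / 5) < s ∧ ¬ GamR.hvy tb v dg lam (q / 5) w) +
        2 / y0 * tb.Ps.Pr (fun w => 5 * (q / 5) < s ∧ RarC.exX tb v b dg lam (q / 5) w) := by
  classical
  have hv := R.codes
  set t := q / 5 with ht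
  have hsT' : s = 5 * t ∧ t ≤ T ∨ t < T := by omega
  have htT : t ≤ T := by omega
  have hs5 : s ≤ 5 * t + 5 := by omega
  have hBq : ∀ e ≤ q, RarN.Sn tb v q (B e) := fun e he => (hB e (by omega)).mono he (by omega)
  set A : Om W X β → Prop := fun u => RarN.At' tb v τ B u ∧ Alv h v tb p q u with hA
  set CH : Om W X β → Prop := fun w => C w ∧ (5 * t < s → GamR.hvy tb v dg lam t w) ∧
    (5 * t + 1 < s → RarN.hz tb v t w) with hCH
  set CL : Om W X β → Prop := fun w => C w ∧ 5 * t + 1 < s ∧ ¬ RarN.hz tb v t w with hCLd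
  set dns : Om W X β → Prop := fun u => y1 < tb.Ps.ce (sgt D {b} (TP.nn s)) (fun u => ind (A u)) u with hdns
  set bad : Om W X β → Prop := fun w => y0 ≤ tb.Ps.ce (sgt D ∅ (TP.nn s)) (fun u => ind (dns u)) w with hbad
  set exc : Om W X β → Prop := fun w => 5 * t < s ∧ RarC.exX tb v b dg lam t w with hexc
  have fCH : Fac (NPo tb v s) CH := by
    intro u w e
    have e1 := hC u w e
    show (_ ∧ (_ → _) ∧ (_ → _)) = (_ ∧ (_ → _) ∧ (_ → _))
    rw [e1]
    refine propext (and_congr_right fun _ => and_congr ?_ ?_)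
    · refine forall_congr' fun h1 => ?_
      rcases hsT' with h2 | h2
      · exact absurd h1 (by omega)
      · exact RarN.hvy_NP H h2 h1 e
    · exact forall_congr' fun h1 => RarN.hz_fac (by omega) e
  have fN : Fac (sgt (W := W) D ∅ (TP.nn s)) (NPo tb v s) := NPq_sgt tb hv le_rfl (TP.nc_le s ∅) ∅ 0
  -- heavy
  set badG : Om W X β → Prop := fun w => y0 / 2 ≤ tb.Ps.ce (sgt D ∅ (TP.nn s))
    (fun u => ind (Gx tb v b dg lam t q u ∧ dns u)) w with hbadG
  have k1 : tb.Ps.Pr (fun w => CH w ∧ badG w) ≤ Real.exp (-L1) * tb.Ps.Pr CH := by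
    set A' : Om W X β → Prop := fun u => (eT v tb (τ u) u ≤ q ∧ RarN.At' tb v τ B u) ∧ Alv h v tb p q u with hA'
    have hAA : ∀ w, tb.Ps.p w ≠ 0 → CH w → ∀ u, tb.Ps.p u ≠ 0 → NPo tb v q u = NPo tb v q w → (A u ↔ A' u) := by
      intro w hw hCw u hu he
      have h1 : eT v tb (τ u) u ≤ q := RarN.eT_le (hle u) fun h2 => by
        have h3 := hCw.2.2 (by omega)
        exact (RarN.hz_fac (by omega) he).2 h3
      exact ⟨fun hh => ⟨⟨h1, hh.1⟩, hh.2⟩, fun hh => ⟨hh.1.2, hh.2⟩⟩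
    have h1 := stepV (h := h) (tb := tb) (v := v) (b := b) (c := c) (d := d) (t := t) (q := q) (s := s) hn hN1 R H
      hsT' (by omega) (by omega) hqs hs5 hlam (show 0 < y0 / 2 by linarith) hy1 (A := A') (C := CH) (L1 := L1) (eta := eta)
      ((RarN.Sn_cut hτ hle hBq).and (RarN.Sn_Alv p (by omega))) (fun w hw => hw.2) fCH (fun w _ hw h1 => hw.2.1 h1)
      (fun w _ hw h1 => hw.2.2 h1) (fun w hw hCw hgd => by
        refine le_trans (le_of_eq ?_) (hm w hw hCw.1 (fun h2 => hCw.2.2 h2) hgd)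
        exact GamR.ce_sup tb.Ps fun u hu he => by rw [← propext (hAA w hw hCw u hu (congrArg Prod.snd he))])
      (by rw [show y0 / 2 / 8 = y0 / 16 by ring]; exact hS t htT) hF
    refine le_trans (le_of_eq ?_) h1
    refine tb.Ps.Pr_congr fun w hw => ?_
    by_cases hCw : CH w
    · have e0 : tb.Ps.ce (sgt D ∅ (TP.nn s)) (fun u => ind (Gx tb v b dg lam t q u ∧ dns u)) w =
          tb.Ps.ce (sgt D ∅ (TP.nn s)) (fun u => ind (Gx tb v b dg lam t q u ∧
            y1 < tb.Ps.ce (sgt D {b} (TP.nn s)) (fun u => ind (A' u)) u)) w := by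
        refine GamR.ce_sup tb.Ps fun u hu he => ?_
        have e1 : NPo tb v s u = NPo tb v s w := fN u w he
        have hCu : CH u := by rw [fCH u w e1]; exact hCw
        have e2 : tb.Ps.ce (sgt D {b} (TP.nn s)) (fun u => ind (A u)) u =
            tb.Ps.ce (sgt D {b} (TP.nn s)) (fun u => ind (A' u)) u :=
          RarC.ce_clsX hv hqs fun z hz he => hAA u hu hCu z hz (congrArg Prod.snd he)
        show ind (_ ∧ y1 < _) = ind (_ ∧ y1 < _)
        rw [e2]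
      show CH w ∧ y0 / 2 ≤ _ ↔ _
      rw [e0]
    · exact ⟨fun hh => absurd hh.1 hCw, fun hh => absurd hh.1 hCw⟩
  -- the exceptional values
  have k0 : tb.Ps.Pr (fun w => y0 / 2 ≤ tb.Ps.ce (sgt D ∅ (TP.nn s)) (fun u => ind (exc u)) w) ≤
      2 / y0 * tb.Ps.Pr exc := by
    have h1 := pr_dens tb.Ps (Z := sgt (W := W) D ∅ (TP.nn s)) (A := exc) (y := y0 / 2)
      (V := fun w => y0 / 2 ≤ tb.Ps.ce (sgt D ∅ (TP.nn s)) (fun u => ind (exc u)) w)
      (fun a e hab => by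
        show (_ ≤ _) = (_ ≤ _)
        rw [tb.Ps.ce_fac (sgt D ∅ (TP.nn s)) (fun u => ind (exc u)) a e hab]) (fun w hw => hw)
    have h2 : tb.Ps.Pr (fun u => y0 / 2 ≤ tb.Ps.ce (sgt D ∅ (TP.nn s)) (fun u => ind (exc u)) u ∧ exc u) ≤ tb.Ps.Pr exc :=
      tb.Ps.Pr_mono fun w _ hh => hh.2
    rw [div_mul_eq_mul_div, le_div_iff₀ hy0]
    linarith
  have kH : ∀ w, tb.Ps.p w ≠ 0 → CH w → bad w →
      badG w ∨ y0 / 2 ≤ tb.Ps.ce (sgt D ∅ (TP.nn s)) (fun u => ind (exc u)) w := by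
    intro w hw hCw hb
    have h1 : tb.Ps.ce (sgt D ∅ (TP.nn s)) (fun u => ind (dns u)) w ≤
        tb.Ps.ce (sgt D ∅ (TP.nn s)) (fun u => ind (Gx tb v b dg lam t q u ∧ dns u) + ind (exc u)) w := by
      refine GamR.ce_sup_le tb.Ps fun u hu he => ?_
      have e1 : NPo tb v s u = NPo tb v s w := fN u w he
      have hCu : CH u := by rw [fCH u w e1]; exact hCw
      by_cases hd : dns u
      · rw [ind_of hd]
        by_cases hg : Gx tb v b dg lam t q u
        · rw [ind_of (⟨hg, hd⟩ : Gx tb v b dg lam t q u ∧ dns u)]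
          linarith [ind_nonneg (exc u)]
        · have hx : exc u := by
            by_contra hno
            refine hg ⟨fun a => ?_, fun a => ?_⟩
            · by_contra hx
              exact hno ⟨by omega, Or.inl hx⟩
            · by_contra hx
              exact hno ⟨by omega, Or.inr ⟨hCu.2.2 (by omega), hx⟩⟩
          rw [ind_of hx]
          linarith [ind_nonneg (Gx tb v b dg lam t q u ∧ dns u)]
      · rw [ind_not hd]
        linarith [ind_nonneg (exc u), ind_nonneg (Gx tb v b dg lam t q u ∧ dns u)]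
    rw [tb.Ps.ce_add] at h1
    have h2 : y0 ≤ tb.Ps.ce (sgt D ∅ (TP.nn s)) (fun u => ind (dns u)) w := hb
    by_contra hno
    push Not at hno
    have h3 := hno.1
    have h4 : tb.Ps.ce (sgt D ∅ (TP.nn s)) (fun u => ind (Gx tb v b dg lam t q u ∧ dns u)) w < y0 / 2 := not_le.1 h3
    linarith [hno.2]
  -- light
  have k2 : tb.Ps.Pr (fun w => CL w ∧ bad w) ≤ Real.exp (-L1) * tb.Ps.Pr CL := by
    by_cases h2 : 5 * t + 2 ≤ q
    · have htT' : t < T := by omega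
      have fCL : Fac (NPo tb v (5 * (t + 1))) CL := by
        intro u w e
        have e2 := NPo_mono tb (show s ≤ 5 * (t + 1) by omega) e
        have e1 := hC u w e2
        show (_ ∧ _ ∧ _) = (_ ∧ _ ∧ _)
        rw [e1]
        exact propext (and_congr_right fun _ => and_congr_right fun _ => not_congr (RarN.hz_fac (by omega) e2))
      have hAA : ∀ w, tb.Ps.p w ≠ 0 → CL w → ∀ u, tb.Ps.p u ≠ 0 → NPo tb v (5 * t + 2) u = NPo tb v (5 * t + 2) w →
          (A u ↔ B (5 * (t + 1)) u) := by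
        intro w hw hc u hu e
        have h3 : ¬ RarN.hz tb v t u := fun hh => hc.2.2 ((RarN.hz_fac le_rfl e).1 hh)
        have h4 : ltL v tb q u := by
          refine ⟨by omega, ?_⟩
          rw [← ht]
          exact not_le.1 h3
        obtain ⟨h5, h6⟩ := hτl u h4
        have h7 : eT v tb (τ u) u = 5 * (t + 1) := by
          unfold eT
          rw [if_pos h5, h6]
          ring
        have h8 : RarN.At' tb v τ B u ↔ B (5 * (t + 1)) u := by
          unfold RarN.At'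
          rw [h7]
        refine ⟨fun hh => h8.1 hh.1, fun hh => ⟨h8.2 hh, ?_⟩⟩
        exact Alv_anti (h := h) (v := v) (tb := tb) (show q ≤ 5 * (t + 1) by omega) (hBal _ u hh)
      have en : TP.nn s = TP.nn (5 * (t + 1)) := by
        obtain ⟨j, hj⟩ := Nat.exists_eq_add_of_le (show 5 * t ≤ s by omega)
        rw [hj, TP.nn_j t (by omega) (by omega), GamR.nn5]
      have h1 := stepV (h := h) (tb := tb) (v := v) (b := b) (c := c) (d := d) (t := t + 1) (q := 5 * (t + 1))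
        (s := 5 * (t + 1)) hn hN1 R H (Or.inl ⟨rfl, htT'⟩) le_rfl (by omega) le_rfl (by omega) hlam
        (show 0 < y0 / 2 by linarith) hy1 (L1 := L1) (eta := eta)
        (A := B (5 * (t + 1))) (C := CL) (hB _ (by omega)) (hBal _) fCL (fun w _ _ h1 => absurd h1 (lt_irrefl _))
        (fun w _ _ h1 => absurd h1 (by omega)) (fun w hw hCw _ => by
          refine le_trans (le_of_eq ?_) (hmL w hw hCw.1 hCw.2.1 hCw.2.2)
          refine GamR.ce_sup tb.Ps fun u hu he => ?_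
          have e2 : NPo tb v (5 * t + 2) u = NPo tb v (5 * t + 2) w :=
            congrArg Prod.snd (RarC.XN_mono tb b (show 5 * t + 2 ≤ 5 * (t + 1) by omega) u w he)
          rw [← propext (hAA w hw hCw u hu e2)])
        (by rw [show y0 / 2 / 8 = y0 / 16 by ring]; exact hS (t + 1) htT') hF
      refine le_trans (tb.Ps.Pr_mono fun w hw hh => ⟨hh.1, ?_⟩) h1
      have hb : y0 ≤ tb.Ps.ce (sgt D ∅ (TP.nn s)) (fun u => ind (dns u)) w := hh.2
      have e3 : tb.Ps.ce (sgt D ∅ (TP.nn s)) (fun u => ind (dns u)) w =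
          tb.Ps.ce (sgt D ∅ (TP.nn (5 * (t + 1)))) (fun u => ind (Gx tb v b dg lam (t + 1) (5 * (t + 1)) u ∧
            y1 < tb.Ps.ce (sgt D {b} (TP.nn (5 * (t + 1)))) (fun u => ind (B (5 * (t + 1)) u)) u)) w := by
        rw [← en]
        refine GamR.ce_sup tb.Ps fun u hu he => ?_
        have e1 : NPo tb v (5 * (t + 1)) u = NPo tb v (5 * (t + 1)) w :=
          NPq_sgt tb hv le_rfl (TP.nc_le (5 * (t + 1)) ∅) ∅ 0 u w (by rw [← en]; exact he)
        have hCu : CL u := by rw [fCL u w e1]; exact hh.1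
        have e2 : tb.Ps.ce (sgt D {b} (TP.nn s)) (fun u => ind (A u)) u =
            tb.Ps.ce (sgt D {b} (TP.nn s)) (fun u => ind (B (5 * (t + 1)) u)) u := by
          rw [en]
          exact RarC.ce_clsX hv le_rfl fun z hz he => hAA u hu hCu z hz
            (congrArg Prod.snd (RarC.XN_mono tb b (show 5 * t + 2 ≤ 5 * (t + 1) by omega) z u he))
        show ind (y1 < _) = ind (_ ∧ y1 < _)
        rw [e2]
        congr 1
        refine propext ⟨fun hh => ⟨⟨fun a => absurd a (by omega), fun a => absurd a (by omega)⟩, hh⟩, fun hh => hh.2⟩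
      rw [← e3]
      linarith
    · have h3 : ∀ w, tb.Ps.p w ≠ 0 → ¬ CL w := fun w hw hc => by
        have h4 := hc.2.1
        exact hc.2.2 (hCl (by omega) (by omega) w hw hc.1)
      have h4 : tb.Ps.Pr (fun w => CL w ∧ bad w) = 0 := by
        unfold FP.Pr
        rw [tb.Ps.E_congr (g := fun _ => 0) fun w hw => ind_not fun hh => h3 w hw hh.1, tb.Ps.E_const]
      rw [h4]
      exact mul_nonneg (Real.exp_pos _).le (tb.Ps.Pr_nonneg _)
  have k4 : tb.Ps.Pr (fun w => C w ∧ bad w) ≤ tb.Ps.Pr (fun w => CH w ∧ badG w) + tb.Ps.Pr (fun w => CL w ∧ bad w) +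
      tb.Ps.Pr (fun w => 5 * t < s ∧ ¬ GamR.hvy tb v dg lam t w) +
      tb.Ps.Pr (fun w => y0 / 2 ≤ tb.Ps.ce (sgt D ∅ (TP.nn s)) (fun u => ind (exc u)) w) := by
    unfold FP.Pr
    rw [← FP.E_add, ← FP.E_add, ← FP.E_add]
    refine tb.Ps.E_mono fun w hw => ?_
    have n1 := ind_nonneg (CH w ∧ badG w)
    have n2 := ind_nonneg (CL w ∧ bad w)
    have n3 := ind_nonneg (5 * t < s ∧ ¬ GamR.hvy tb v dg lam t w)
    have n4 := ind_nonneg (y0 / 2 ≤ tb.Ps.ce (sgt D ∅ (TP.nn s)) (fun u => ind (exc u)) w)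
    by_cases h1 : C w ∧ bad w
    · rw [ind_of h1]
      by_cases h2 : 5 * t < s ∧ ¬ GamR.hvy tb v dg lam t w
      · rw [ind_of h2]
        linarith
      · by_cases h3 : 5 * t + 1 < s ∧ ¬ RarN.hz tb v t w
        · rw [ind_of (⟨⟨h1.1, h3.1, h3.2⟩, h1.2⟩ : CL w ∧ bad w)]
          linarith
        · have h4 : CH w := ⟨h1.1, fun a => by_contra fun b => h2 ⟨a, b⟩, fun a => by_contra fun b => h3 ⟨a, b⟩⟩
          rcases kH w hw h4 h1.2 with h5 | h5
          · rw [ind_of (⟨h4, h5⟩ : CH w ∧ badG w)]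
            linarith
          · rw [ind_of h5]
            linarith
    · rw [ind_not h1]
      linarith
  have k5 : tb.Ps.Pr CH + tb.Ps.Pr CL ≤ tb.Ps.Pr C := by
    unfold FP.Pr
    rw [← FP.E_add]
    refine tb.Ps.E_mono fun w _ => ?_
    by_cases h1 : C w
    · rw [ind_of h1]
      by_cases h3 : 5 * t + 1 < s ∧ ¬ RarN.hz tb v t w
      · rw [ind_not (fun hh => h3.2 (hh.2.2 h3.1) : ¬ CH w)]
        have := ind_le_one (CL w)
        linarith
      · rw [ind_not (fun hh => h3 hh.2 : ¬ CL w)]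
        have := ind_le_one (CH w)
        linarith
    · rw [ind_not h1, ind_not (fun hh => h1 hh.1 : ¬ CH w), ind_not (fun hh => h1 hh.1 : ¬ CL w), add_zero]
  have k6 := mul_le_mul_of_nonneg_left k5 (Real.exp_pos (-L1)).le
  rw [mul_add] at k6
  show tb.Ps.Pr (fun w => C w ∧ bad w) ≤ _
  linarith

end

end Pool.Agent.GMH.RarV
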