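import Pool.Agent.GMH.RarV5
import Pool.Agent.GMH.RarC6

/-!
# GMH/RarV6 (helper64; row RarV, part (C)): DENSE EXACT VERTICES AT THE PUBLIC ENDS, SUM OVER THE STEPS

* **`vert_all`** : `Σ_{q < 5 T} P (E q, y0 ≤ P (y1 < P (A q, alive at q | S {b} (q + 1)) | S ∅ (q + 1))) ≤ exp (-L1) Σ P (C q) +
  160 exp (-lam) n N1 Lam + 2 / y0 * 800 exp (-lam) n N1 Lam`: `A q` = relation of the tables of the life of `b` which runs at `q`,
  `E q` inside `C q` = an event of the public class at `q + 1` which is not a removal; class masses `RarC.Cm`, static head `SV`.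
-/

set_option autoImplicit false
set_option linter.unusedSectionVars false

namespace Pool.Agent.GMH.RarV

open Finset Pool.Agent.PWZ Pool.Agent.M3 Pool.Agent.GM Pool.Agent.GM.Harm Pool.Agent.GMH
open Pool.Agent.GMH.TP Pool.Agent.GMH.TD Pool.Agent.GMH.Dy Pool.Agent.GMH.MVI Pool.Agent.GMH.MVIp
open Pool.Agent.GMH.GamR Pool.Agent.GMH.KF Pool.Agent.GMH.MV Pool.Agent.GMH.ExK
open Pool.Agent.GMH.TRF (ruO rpO)
open Pool.Agent.GMH.RarC (RX AX Cm ltL_of exX exX_sum XN_clm XN_sgtS)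

noncomputable section

variable {X β γ φ : Type} [Fintype X] [Fintype β] [Fintype φ] [Nonempty X] [Nonempty β]
variable {D : HD (Fin 3) X β γ φ} {al : ℝ} {h : D.Thick al} {prr : ℕ → Fin 3 → φ → φ} {T : ℕ} {W : Type} [Fintype W]
variable {tb : Tab D prr T W} {v : ℕ → Finset (Fin 3) → X → (Fin 3 → β) → Pt (Fin 3) X β φ}
variable {b c d : Fin 3}

variable (tb)
variable {d1 kb d0 k0 p1 z : ℝ} (hd1 : 0 < d1) (hd11 : d1 ≤ 1) (hkb : 0 < kb) (hd0 : 0 < d0)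
  (hd01 : d0 ≤ 1) (hk0 : 0 < k0) (hp1 : 0 < p1) (hz0 : 0 < z)

/-- **DENSE EXACT VERTICES AT THE PUBLIC ENDS** -/
theorem vert_all {n N1 : ℝ} (hn : 1 ≤ n) (hN1 : 1 ≤ N1) (R : Run h (pr3 (Fin 3) n N1) (SS1 (Fin 3)) (AdmDep D) v)
    {dg : ℕ → X → ℝ} {Lam : ℝ} (H : D.Hyp dg prr al T Lam) {p : V3.AP} {lam L1 y0 y1 eta F : ℝ} (hlam : 3 ≤ lam)
    (hy0 : 0 < y0) (hy1 : 0 < y1) {B : ℕ → Om W X β → Prop} (hB : RX h tb v p B)
    (hT : Cm (v := v) h tb hd1 hd11 hkb hd0 hd01 hk0 hp1 hz0 p b B (2 * lam + 3) eta)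
    (hS : ∀ t ≤ T, SV h (Um v (t + 1)) t b c d (3 * Real.exp p.X0) (L1 + (lam + 4)) (y0 / 16) (2 * lam + 3) eta F)
    (hF : F < y1 / 4) {C E : ℕ → Om W X β → Prop} (hC : ∀ q < 5 * T, Fac (NPo tb v (q + 1)) (C q))
    (hCr : ∀ q < 5 * T, ∀ w, C q w → ¬ ruO tb v q w) (hE : ∀ q < 5 * T, ∀ w, tb.Ps.p w ≠ 0 → E q w → C q w) :
    ∑ q ∈ range (5 * T), tb.Ps.Pr (fun w => E q w ∧ y0 ≤ tb.Ps.ce (sgt D ∅ (TP.nn (q + 1)))
        (fun u => ind (y1 < tb.Ps.ce (sgt D {b} (TP.nn (q + 1)))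
          (fun u => ind (AX tb (v := v) hd1 hd11 hkb hd0 hd01 hk0 hp1 hz0 b B q u ∧ Alv h v tb p q u)) u)) w) ≤
      Real.exp (-L1) * ∑ q ∈ range (5 * T), tb.Ps.Pr (C q) + 160 * Real.exp (-lam) * (n * N1 * Lam) +
        2 / y0 * (800 * Real.exp (-lam) * (n * N1 * Lam)) := by
  have h1 : ∀ q ∈ range (5 * T), tb.Ps.Pr (fun w => E q w ∧ y0 ≤ tb.Ps.ce (sgt D ∅ (TP.nn (q + 1)))
        (fun u => ind (y1 < tb.Ps.ce (sgt D {b} (TP.nn (q + 1)))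
          (fun u => ind (AX tb (v := v) hd1 hd11 hkb hd0 hd01 hk0 hp1 hz0 b B q u ∧ Alv h v tb p q u)) u)) w) ≤
      Real.exp (-L1) * tb.Ps.Pr (C q) + tb.Ps.Pr (RarN.light tb v dg lam q) +
        2 / y0 * tb.Ps.Pr (exX tb v b dg lam (q / 5)) := fun q hq => by
    have hq' := mem_range.1 hq
    have h2 := vert_step (h := h) (tb := tb) (v := v) (b := b) (c := c) (d := d) hn hN1 R H (q := q) (s := q + 1) (Nat.le_succ q)
      le_rfl (by omega) (lam := lam) (by linarith) hy0 hy1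
      (τ := tauS (MSi tb (v := v) d1 kb d0 k0 p1 z hd1 hd11 hkb hd0 hd01 hk0 hp1 hz0) b q)
      (fun u w _ _ he => MV.tauS_fac (M := MSi tb (v := v) d1 kb d0 k0 p1 z hd1 hd11 hkb hd0 hd01 hk0 hp1 hz0) b q u w
        (Prod.ext (he.2.1 b) he.1))
      (fun w => CK.stg_le _ _) (fun u hl => KDV.ltL_tauS (tb := tb) hd1 hd11 hkb hd0 hd01 hk0 hp1 hz0 hl b)
      hB.sn hB.al (hC q hq') (fun h3 _ w _ hc => RarN.nru_hz tb h3 (hCr q hq' w hc))
      (fun w hw _ _ h5 => hT.own q hq'.le w hw h5)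
      (fun w hw hc h3 h4 => by
        have h5 : 5 * (q / 5) + 1 < q := by
          rcases Nat.lt_or_ge (5 * (q / 5) + 1) q with h6 | h6
          · exact h6
          · exact absurd (RarN.nru_hz tb (by omega) (hCr q hq' w hc)) h4
        exact hT.light q hq'.le w hw (ltL_of tb h5 h4)) hS hF
    have h3 : tb.Ps.Pr (fun w => E q w ∧ y0 ≤ tb.Ps.ce (sgt D ∅ (TP.nn (q + 1)))
        (fun u => ind (y1 < tb.Ps.ce (sgt D {b} (TP.nn (q + 1)))
          (fun u => ind (AX tb (v := v) hd1 hd11 hkb hd0 hd01 hk0 hp1 hz0 b B q u ∧ Alv h v tb p q u)) u)) w) ≤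
        tb.Ps.Pr (fun w => C q w ∧ y0 ≤ tb.Ps.ce (sgt D ∅ (TP.nn (q + 1)))
        (fun u => ind (y1 < tb.Ps.ce (sgt D {b} (TP.nn (q + 1)))
          (fun u => ind (AX tb (v := v) hd1 hd11 hkb hd0 hd01 hk0 hp1 hz0 b B q u ∧ Alv h v tb p q u)) u)) w) :=
      tb.Ps.Pr_mono fun w hw hh => ⟨hE q hq' w hw hh.1, hh.2⟩
    have h4 : tb.Ps.Pr (fun w => 5 * (q / 5) < q + 1 ∧ ¬ GamR.hvy tb v dg lam (q / 5) w) ≤ tb.Ps.Pr (RarN.light tb v dg lam q) :=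
      tb.Ps.Pr_mono fun w _ hh => hh.2
    have h5 : tb.Ps.Pr (fun w => 5 * (q / 5) < q + 1 ∧ exX tb v b dg lam (q / 5) w) ≤ tb.Ps.Pr (exX tb v b dg lam (q / 5)) :=
      tb.Ps.Pr_mono fun w _ hh => hh.2
    have h6 := mul_le_mul_of_nonneg_left h5 (show 0 ≤ 2 / y0 by positivity)
    refine h3.trans (h2.trans ?_)
    linarith
  refine (Finset.sum_le_sum h1).trans ?_
  rw [Finset.sum_add_distrib, Finset.sum_add_distrib, ← Finset.mul_sum, ← Finset.mul_sum]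
  have h3 := exX_sum tb hn hN1 R H b hlam
  have h4 := RarN.light_sum tb hn hN1 R H (lam := lam) (by linarith)
  have h5 := mul_le_mul_of_nonneg_left h3 (show 0 ≤ 2 / y0 by positivity)
  linarith

end

end Pool.Agent.GMH.RarV
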