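import Pool.Agent.GMH.RarV6
import Pool.Agent.GMH.RarC7
import Pool.Agent.GMH.RarNF
import Pool.Agent.GMH.UnmAB

/-!
# GMH/RarV7 (helper64; row RarV, part (C)): DENSE EXACT VERTICES AT THE PUBLIC ENDS OVER `Ctx` (the sum `B2` of `GMH/MV5U`)

* `PE C ka q` : a public end after the step `q` (or the last step), not a removal;
* `SVC` : the static statement `SV` for all levels of a run, `L = L1 + (lam + 4)`, `L' = 2 lam + 3`, `y0 / 16`, `F < y1 / 4`;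
* `pe_raw` : the sum over the steps of a run; `NumV` : the numbers, `L1 = 5 pQ`, `lam = n x^(-(sl + 20))`, `y0 ≥ 1 / N1`;
  **`numV_all`**; **`peV_all`** : the sum is at most `x^(-s)`;
* **`b2_all`** : `SU.B2 (C.U ka) (AB.GQ Q) yp ru (5 T) y0 y1 b ≤ x^(-s)`.
-/

set_option autoImplicit false
set_option linter.unusedSectionVars false

namespace Pool.Agent.GMH.RarV

open Finset Pool.Agent.PWZ Pool.Agent.M3 Pool.Agent.GM Pool.Agent.GM.Harm Pool.Agent.GMH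
open Pool.Agent.GMH.Dy Pool.Agent.GMH.MVI Pool.Agent.GMH.MVIp Pool.Agent.GMH.KF
open Pool.Agent.GMH.GamR (XN)
open Pool.Agent.GMH.UV (US Kd tv Rn)
open Pool.Agent.GMH.TRF (ruO rpO)
open Pool.Agent.GMH.ExK
open Pool.Agent.GMH.CX Pool.Agent.GMH.V3 Pool.Agent.GMH.CT
open Pool.Agent.GMH.RarN (Bv KSub ofCT ix4)
open Pool.Agent.GMH.RarC (HmX SubX Bv_sn RX Cm)

noncomputable section

section ctx

variable (C : Ctx) (ka : ℕ)

/-- a public end after the step (or the last step), not a removal -/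
def PE (q : ℕ) (w : C.O) : Prop := (MV.nu (C.M ka) (q + 1) w = q + 1 ∨ q + 1 = 5 * C.T) ∧ ¬ ruO C.tb C.v q w

/-- **the static statement for all levels of a run** -/
def SVC (b : Fin 3) (L1 lam y0 y1 eta : ℝ) : Prop :=
  ∃ (c d : Fin 3) (F : ℝ), F < y1 / 4 ∧ ∀ t ≤ C.T,
    SV C.h (Um C.v (t + 1)) t b c d (3 * Real.exp C.p.X0) (L1 + (lam + 4)) (y0 / 16) (2 * lam + 3) eta F

theorem pe_fac (q : ℕ) : Fac (NPo C.tb C.v (q + 1)) (PE C ka q) := fun a e hab => by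
  have h1 := MV.nu_fac (M := C.M ka) (q + 1) a e hab
  have h2 := RarN.ruO_fac (tb := C.tb) (v := C.v) q a e hab
  show ((_ ∨ _) ∧ ¬ _) = ((_ ∨ _) ∧ ¬ _)
  rw [h1, h2]

theorem pe_cnt : ∑ q ∈ range (5 * C.T), C.tb.Ps.Pr (PE C ka q) ≤ MV.N0 (C.M ka) (5 * C.T) + 1 := by
  have h1 : ∀ q ∈ range (5 * C.T), C.tb.Ps.Pr (PE C ka q) ≤
      C.tb.Ps.Pr (fun w => MV.nu (C.M ka) (q + 1) w = q + 1) + (if q + 1 = 5 * C.T then 1 else 0) := fun q _ => by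
    split_ifs with h2
    · have h3 := C.tb.Ps.Pr_le_one (PE C ka q)
      have h4 := C.tb.Ps.Pr_nonneg (fun w => MV.nu (C.M ka) (q + 1) w = q + 1)
      linarith
    · rw [add_zero]
      exact C.tb.Ps.Pr_mono fun w _ hh => hh.1.resolve_right h2
  refine (Finset.sum_le_sum h1).trans ?_
  rw [Finset.sum_add_distrib]
  refine add_le_add le_rfl ?_
  rcases Nat.eq_zero_or_pos (5 * C.T) with h2 | h2
  · rw [h2]
    simp
  · rw [Finset.sum_eq_single (5 * C.T - 1) (fun q _ h3 => if_neg (by omega)) (fun h3 => absurd (mem_range.2 (by omega)) h3)]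
    split_ifs <;> norm_num

variable {lam L1 y0 y1 eta : ℝ} {b : Fin 3} {fr : Option (Fin 3)} {c : KC} {κ : Fin 10} {o : Option (Fin 3)}

theorem pe_raw {A : ℕ → C.O → Prop} (hlam : 3 ≤ lam) (hy0 : 0 < y0) (hy1 : 0 < y1) (he : 0 ≤ eta)
    (hm : HmX C ka (2 * lam + 3) b fr c κ o eta) (hS : SVC C b L1 lam y0 y1 eta)
    (hA : ∀ q ≤ 5 * C.T, ∀ w, C.tb.Ps.p w ≠ 0 → A q w → SR C.h C.v C.tb fr C.p c κ o (MV.tauS (C.M ka) b q w) w ∧
      Alv C.h C.v C.tb C.p q w)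
    {E : ℕ → C.O → Prop} (hE : ∀ q < 5 * C.T, ∀ w, C.tb.Ps.p w ≠ 0 → E q w → PE C ka q w) :
    ∑ q ∈ range (5 * C.T), C.tb.Ps.Pr (fun w => E q w ∧ y0 < C.tb.Ps.ce (sgt C.D ∅ (TP.nn (q + 1)))
        (fun u => ind (y1 < C.tb.Ps.ce (sgt C.D {b} (TP.nn (q + 1))) (fun u => ind (A q u)) u)) w) ≤
      Real.exp (-L1) * (MV.N0 (C.M ka) (5 * C.T) + 1) + 160 * Real.exp (-lam) * (C.n * C.N1 * C.Lam) +
        2 / y0 * (800 * Real.exp (-lam) * (C.n * C.N1 * C.Lam)) := by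
  obtain ⟨c', d', F, hF, hS'⟩ := hS
  have k1 := vert_all (h := C.h) C.tb (C.d1_pos ka) (C.d1_le ka) (C.kb_pos ka) C.d0_pos C.d0_le C.d0_pos C.p1_pos
    (C.z_pos ka) C.n1 C.N11 C.R C.H hlam hy0 hy1 (B := Bv C.h C.v C.tb C.p fr c κ o)
    ⟨Bv_sn C, fun e w hb => hb.2⟩ ⟨he, hm.1, hm.2⟩ hS' hF (C := PE C ka) (E := E)
    (fun q _ => pe_fac C ka q) (fun q _ w hc => hc.2) hE
  have k2 := mul_le_mul_of_nonneg_left (pe_cnt C ka) (Real.exp_pos (-L1)).le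
  refine le_trans (Finset.sum_le_sum fun q hq => C.tb.Ps.Pr_mono fun w _ hh => ⟨hh.1, hh.2.le.trans ?_⟩)
    (k1.trans (by linarith))
  exact C.tb.Ps.ce_mono (fun u hu => ind_mono fun g => lt_of_lt_of_le g
    (C.tb.Ps.ce_mono (fun x hx => ind_mono fun g' => hA q (mem_range.1 hq).le x hx g') u)) w

/-- the numbers -/
structure NumV (sl s : ℕ) : Prop where
  l3 : 3 ≤ lr C.Lam sl C.c0
  hN : Real.exp (-(5 * MVN.pQ C.Lam C.c0)) * (MV.N0 (C.M ka) (5 * C.T) + 1) ≤ ix C.Lam s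
  he : 160 * Real.exp (-(lr C.Lam sl C.c0)) * (C.n * C.N1 * C.Lam) ≤ ix C.Lam s
  hy : ∀ y0, (C.N1)⁻¹ ≤ y0 → 2 / y0 * (800 * Real.exp (-(lr C.Lam sl C.c0)) * (C.n * C.N1 * C.Lam)) ≤ ix C.Lam s

end ctx

/-- the exceptional values against a threshold `1 / N1` -/
theorem vx_e (A sl s : ℕ) : CT.Ev fun c0 Lam =>
    1600 * Real.exp (-(lr Lam sl c0)) * (pw Lam c0 * pw Lam (c1F A c0) * Lam) * pw Lam (c1F A c0) ≤ ix Lam s := by
  refine (exp_n A (sl + 20) (s + 11)).mono fun c0 Lam hL h => ?_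
  have h1 := N2_le hL (A := A) (c0 := c0) (c := 1600) (by norm_num)
  have p1 := pw_pos hL (c1F A c0)
  have p0 := pw_pos hL c0
  have h3 : 1600 * (pw Lam c0 * pw Lam (c1F A c0) * Lam) * pw Lam (c1F A c0) ≤ pw Lam (c1F A c0 + c0 + 11 + c1F A c0) := by
    rw [CT.pw_add]
    exact mul_le_mul_of_nonneg_right h1 p1.le
  have h2 := V_rare hL (V := 1600 * (pw Lam c0 * pw Lam (c1F A c0) * Lam) * pw Lam (c1F A c0))
    (e := Real.exp (-(lr Lam sl c0))) (N := c1F A c0 + c0 + 11 + c1F A c0) (s := s) (by positivity) h3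
    (h.trans (ix_anti hL (by nlinarith)))
  refine le_trans (le_of_eq ?_) h2
  ring

/-- **THE NUMBERS FOR ALL RUNS** -/
theorem numV_all (A ka sl s : ℕ) : AllC A (fun C => NumV C ka sl s) := by
  have h1 := AllC.of_Ev (A := A) (ofCT (CT.n_big A (sl + 20) 1))
  have h2 := AllC.of_Ev (A := A) (ofCT (CT.n_big A 0 (s + 1)))
  have h3 := AllC.of_Ev (A := A) (ofCT (rx_e A sl s (c := 160) (by norm_num)))
  have h4 := AllC.of_Ev (A := A) (ofCT (vx_e A sl s))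
  refine (((h1.and h2).and (h3.and h4)).and ((n0_all A ka).and (AllC.all fun C hC => hC))).mono fun C hh => ?_
  obtain ⟨⟨⟨g1, g2⟩, g3, g4⟩, g5, hCA⟩ := hh
  have hL := C.hL
  have e1 : C.N1 = pw C.Lam (c1F A C.c0) := by
    rw [← hCA]
    rfl
  have e3 : C.n = pw C.Lam C.c0 := rfl
  have c1 : (0 : ℝ) ≤ (c1F A C.c0 : ℝ) := Nat.cast_nonneg _
  have c2 : (0 : ℝ) ≤ (C.c0 : ℝ) := Nat.cast_nonneg _
  refine ⟨?_, ?_, ?_, fun y0 hy => ?_⟩
  · show 3 ≤ pw C.Lam C.c0 * ix C.Lam (sl + 20)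
    refine le_trans ?_ g1
    push_cast
    nlinarith
  · have p1 : pw C.Lam C.c0 * ix C.Lam 0 ≤ MVN.pQ C.Lam C.c0 := by
      refine (mul_le_of_le_one_right (CT.pw_pos hL _).le (ix_le_one hL _)).trans ?_
      exact pw_mono hL (by omega)
    have p2 : Real.exp (-(MVN.pQ C.Lam C.c0)) ≤ ix C.Lam (s + 1) := by
      refine exp_pw hL (s + 1) (le_trans ?_ (g2.trans p1))
      push_cast
      have a1 : (0 : ℝ) ≤ ((s : ℝ) + 1) * (2 * C.Lam) := by positivity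
      nlinarith
    have p3 := ix4 hL s
    have p4 : (1 : ℝ) ≤ Real.exp (4 * MVN.pQ C.Lam C.c0) := Real.one_le_exp (by
      have : 0 ≤ MVN.pQ C.Lam C.c0 := (CT.pw_pos hL _).le
      linarith)
    have p5 : Real.exp (-(5 * MVN.pQ C.Lam C.c0)) * (MV.N0 (C.M ka) (5 * C.T) + 1) ≤
        Real.exp (-(5 * MVN.pQ C.Lam C.c0)) * (2 * Real.exp (4 * MVN.pQ C.Lam C.c0)) :=
      mul_le_mul_of_nonneg_left (by linarith) (Real.exp_pos _).le
    have p6 : Real.exp (-(5 * MVN.pQ C.Lam C.c0)) * (2 * Real.exp (4 * MVN.pQ C.Lam C.c0)) =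
        2 * Real.exp (-(MVN.pQ C.Lam C.c0)) := by
      have e : Real.exp (-(5 * MVN.pQ C.Lam C.c0)) * Real.exp (4 * MVN.pQ C.Lam C.c0) = Real.exp (-(MVN.pQ C.Lam C.c0)) := by
        rw [← Real.exp_add]
        congr 1
        ring
      rw [← e]
      ring
    have p7 := ix_pos hL (s + 1)
    linarith
  · rw [e1, e3]
    exact g3
  · have n1 : 0 < C.N1 := by
      rw [e1]
      exact CT.pw_pos hL _
    have y1 : 0 < y0 := lt_of_lt_of_le (inv_pos.2 n1) hy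
    have y2 : 2 / y0 ≤ 2 * C.N1 := by
      rw [div_le_iff₀ y1]
      have := mul_le_mul_of_nonneg_left hy (show 0 ≤ 2 * C.N1 by linarith)
      rw [mul_assoc, mul_inv_cancel₀ n1.ne', mul_one] at this
      exact this
    have y3 := mul_le_mul_of_nonneg_right y2 (show 0 ≤ 800 * Real.exp (-(lr C.Lam sl C.c0)) * (C.n * C.N1 * C.Lam) by
      have := C.nN_nn
      have := Real.exp_pos (-(lr C.Lam sl C.c0))
      positivity)
    refine y3.trans (le_trans (le_of_eq ?_) g4)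
    rw [e1, e3]
    ring

/-- **THE SUM OVER A RUN** -/
theorem peV_all (A ka sl s : ℕ) : AllC A (fun C => ∀ (b : Fin 3) (fr : Option (Fin 3)) (c : KC) (κ : Fin 10)
    (o : Option (Fin 3)) (R : ℕ → C.O → Prop) (y0 y1 eta : ℝ), (C.N1)⁻¹ ≤ y0 → 0 < y1 → 0 ≤ eta →
    HmX C ka (2 * lr C.Lam sl C.c0 + 3) b fr c κ o eta → SVC C b (5 * MVN.pQ C.Lam C.c0) (lr C.Lam sl C.c0) y0 y1 eta →
    (∀ q ≤ 5 * C.T, ∀ w, C.tb.Ps.p w ≠ 0 → R q w → SR C.h C.v C.tb fr C.p c κ o (MV.tauS (C.M ka) b q w) w ∧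
      Alv C.h C.v C.tb C.p q w) →
    ∀ E : ℕ → C.O → Prop, (∀ q < 5 * C.T, ∀ w, C.tb.Ps.p w ≠ 0 → E q w → PE C ka q w) →
    ∑ q ∈ range (5 * C.T), C.tb.Ps.Pr (fun w => E q w ∧ y0 < C.tb.Ps.ce (sgt C.D ∅ (TP.nn (q + 1)))
        (fun u => ind (y1 < C.tb.Ps.ce (sgt C.D {b} (TP.nn (q + 1))) (fun u => ind (R q u)) u)) w) ≤ ix C.Lam s) := by
  refine (numV_all A ka sl (s + 1)).mono fun C hh b fr c κ o R y0 y1 eta hy0 hy1 he hm hS hR E hE => ?_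
  have hL := C.hL
  have n1 : 0 < C.N1 := zero_lt_one.trans_le C.N11
  have h1 := pe_raw C ka hh.l3 (lt_of_lt_of_le (inv_pos.2 n1) hy0) hy1 he hm hS hR hE
  have h2 := ix4 hL s
  have h5 := ix_pos hL (s + 1)
  linarith [hh.hN, hh.he, hh.hy y0 hy0]

/-- **THE SUM `B2` OF THE STRETCHES** -/
theorem b2_all (A ka sl s : ℕ) : AllC A (fun C => ∀ (b : Fin 3) (fr : Option (Fin 3)) (c : KC) (κ : Fin 10) (Q : Kd C.O)
    (y0 y1 eta : ℝ), KSub C Q fr c κ → (C.N1)⁻¹ ≤ y0 → 0 < y1 → 0 ≤ eta →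
    HmX C ka (2 * lr C.Lam sl C.c0 + 3) b fr c κ (some b) eta →
    SVC C b (5 * MVN.pQ C.Lam C.c0) (lr C.Lam sl C.c0) y0 y1 eta →
    ∀ (yp : ℝ) (ru : ℕ → C.O → Prop), (∀ q w, ruO C.tb C.v q w → ru q w) →
    SU.B2 (C.U ka) (AB.GQ Q) yp ru (5 * C.T) y0 y1 b ≤ ix C.Lam s) := by
  refine (peV_all A ka sl s).mono fun C hh b fr c κ Q y0 y1 eta hQ hy0 hy1 he hm hS yp ru hru => ?_
  have h1 := hh b fr c κ (some b) (fun q w => SU.Rc (C.U ka) (AB.GQ Q) b q w) y0 y1 eta hy0 hy1 he hm hS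
    (fun q _ w _ hw => ⟨hQ.sub _ _ _ hw.1.2, hQ.al _ _ hw.2⟩)
    (fun q w => SU.pg (C.U ka) yp ru q w) (fun q _ w _ hw => ⟨Or.inl hw.1, fun hr => hw.2.1 (hru q w hr)⟩)
  exact h1

end

end Pool.Agent.GMH.RarV
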