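import Pool.Agent.GMH.RarV4
import Pool.Agent.GMH.RarV5

/-!
# GMH/RarV9 (helper9; row RarV): THE STATIC HEAD `SV` FOR A RUN

* **`SV_run`** : `SV h (Um v (t + 1)) t b c d M L y L' eta F` for every time `t`, `F = 6 fVr + 1025 ELr L' (LS + L') + 1024 eta`,
  `LS = L + log (1/y) + log M`;
* `fVr_le`, **`SV_num`** : the same in numbers (`Cst_of`, `ELr_le` of `RarC4`).
-/

set_option autoImplicit false
set_option linter.unusedSectionVars false

namespace Pool.Agent.GMH.RarV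

open Finset Pool.Agent.PWZ Pool.Agent.M3 Pool.Agent.GM Pool.Agent.GM.Harm Pool.Agent.GMH
open Pool.Agent.GMH.TP Pool.Agent.GMH.TD Pool.Agent.GMH.Dy Pool.Agent.GMH.MVI Pool.Agent.GMH.MVIp
open Pool.Agent.GMH.GamR Pool.Agent.GMH.KF
open Pool.Agent.GMH.RarC (Cst ELr bkR EL_eq Cst_of ELr_le)
open Pool.Agent.GMH.RarX (EL)

noncomputable section

variable {X β γ φ : Type} [Fintype X] [Fintype β] [Fintype φ] [Nonempty X] [Nonempty β]
variable {D : HD (Fin 3) X β γ φ} {al : ℝ} {h : D.Thick al} {v : ℕ → Finset (Fin 3) → X → (Fin 3 → β) → Pt (Fin 3) X β φ}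

/-- price of a face of the exact vertex, in the mean, for a run -/
def fVr (n N1 al M L y : ℝ) : ℝ :=
  (2 * (L + Real.log (M + 1) + 1) / y + 2 * (N1 * (Real.log (1 / y) + 1 + Real.log (1 / al)))) / (n * N1)

theorem fV_eq {n N1 M L y : ℝ} (b e : Fin 3) :
    RarV4.fV (pr3 (Fin 3) n N1) al M b e L y = fVr n N1 al M L y := by
  unfold RarV4.fV fVr
  rw [V3.VT.prN0, V3.VT.prN1, pr3_top (by decide)]
  simp only [mul_one]

/-- **THE STATIC HEAD FOR A RUN** -/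
theorem SV_run {n N1 : ℝ} (hn : 1 ≤ n) (hN1 : 1 ≤ N1) (R : Run h (pr3 (Fin 3) n N1) (SS1 (Fin 3)) (AdmDep D) v)
    {b c d : Fin 3} (hbc : b ≠ c) (hbd : b ≠ d) (hcd : c ≠ d) {M L y L' R0 ep eta : ℝ} {k : ℕ} (hM0 : 0 < M) (hy : 0 < y)
    (Kc : Cst n al M R0 ep k L') (t : ℕ) :
    SV h (Um v (t + 1)) t b c d M L y L' eta (6 * fVr n N1 al M L y +
      1025 * ELr n N1 al M R0 ep k L' (L + Real.log (1 / y) + Real.log M + L') + 1024 * eta) := by
  intro p0 Typ E V V1 A hp0 hM fE sE fV sV hV0 fV1 _ sV1 H hT hL hyV hq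
  have B := bkR (h := h) hn hN1 R hbc hbd hcd t
  have K1 := Kc.hkL
  have h1 := RarV4.sv_le (L' := L') B hM0 hM fE sE fV sV hV0 fV1 sV1 H hT hL hy hyV hq Kc.hk Kc.hep Kc.hep2 Kc.hR0 Kc.hR1
    (by rw [RarC.half_pr hN1 b d]; exact K1) (by rw [RarC.half_pr hN1 b c]; exact K1)
  rw [EL_eq hN1, fV_eq, fV_eq] at h1
  linarith

theorem SV.mono {υ : Type} {U : Finset (Fin 3) → X → (Fin 3 → β) → υ} {t : ℕ} {b c d : Fin 3}
    {M L y L' eta F F' : ℝ} (hS : SV h U t b c d M L y L' eta F) (hF : F ≤ F') : SV h U t b c d M L y L' eta F' :=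
  fun p0 Typ E V V1 A h0 h1 h2 h3 h4 h5 h6 h7 h8 h9 h10 h11 h12 h13 h14 =>
    (hS p0 Typ E V V1 A h0 h1 h2 h3 h4 h5 h6 h7 h8 h9 h10 h11 h12 h13 h14).trans hF

theorem fVr_le {n N1 M Lam L y Z : ℝ} (hn : 0 < n) (hN1 : 0 < N1) (hy : 0 < y) (hal : Real.log (1 / al) ≤ Lam)
    (hZ : Real.log (M + 1) ≤ Z) :
    fVr n N1 al M L y ≤ 2 * (L + Z + 1) / (y * n * N1) + 2 * (Real.log (1 / y) + 1 + Lam) / n := by
  have e1 : fVr n N1 al M L y = 2 * (L + Real.log (M + 1) + 1) / (y * n * N1) +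
      2 * (Real.log (1 / y) + 1 + Real.log (1 / al)) / n := by
    unfold fVr
    field_simp
  rw [e1]
  refine add_le_add (div_le_div_of_nonneg_right (by linarith) (by positivity)) (div_le_div_of_nonneg_right (by linarith) hn.le)

/-- **THE STATIC HEAD IN NUMBERS** -/
theorem SV_num {n N1 : ℝ} (hn : 2 ≤ n) (hN1 : 1 ≤ N1) (R : Run h (pr3 (Fin 3) n N1) (SS1 (Fin 3)) (AdmDep D) v)
    {b c d : Fin 3} (hbc : b ≠ c) (hbd : b ≠ d) (hcd : c ≠ d) {M L y L' R0 Lam Z eta : ℝ} (hM : 1 ≤ M) (hy : 0 < y)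
    (hy1 : y ≤ 1) (hL : 0 ≤ L) (hL'0 : 0 ≤ L') (hL' : L' ≤ n) (hR0 : Real.log n ≤ R0) (hR1 : Real.log (1 / al) ≤ R0)
    (hR : R0 ≤ n) (hal : Real.log (1 / al) ≤ Lam) (hZ : Real.log ((M + 1) * (1 / al + 1)) ≤ Z) (t : ℕ) :
    SV h (Um v (t + 1)) t b c d M L y L' eta
      (6 * (2 * (L + Z + 1) / (y * n * N1) + 2 * (Real.log (1 / y) + 1 + Lam) / n) +
        1025 * ((4 * L' + 12 * Lam + 28 + (R0 + 2) ^ 2) / n +
          (40 * (L + Real.log (1 / y) + Z + L' + 1) + 40 * n * Z) / N1) + 1024 * eta) := by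
  have hn0 : 0 < n := by linarith
  have hN0 : 0 < N1 := by linarith
  obtain ⟨k, hk1, hk2⟩ : ∃ k : ℕ, n ^ 2 ≤ k ∧ (k : ℝ) ≤ 2 * n ^ 2 := by
    refine ⟨⌈n ^ 2⌉₊, Nat.le_ceil _, ?_⟩
    have := Nat.ceil_lt_add_one (show 0 ≤ n ^ 2 by positivity)
    nlinarith
  have Kc : Cst n al M R0 (1 / n) k L' := Cst_of (Lam := Lam) hn (by linarith) hR0 hR1 hR hL'0 hL' hk1
  have h1 := SV_run (h := h) (eta := eta) (L := L) (by linarith) hN1 R hbc hbd hcd (by linarith) hy Kc t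
  have ha1 : 1 ≤ 1 / al := by
    rw [le_div_iff₀ h.pos, one_mul]
    exact hal_one h 0
  have z1 : Real.log (M + 1) ≤ Z := le_trans (Real.log_le_log (by linarith) (by nlinarith)) hZ
  have z2 : Real.log M ≤ Z := le_trans (Real.log_le_log (by linarith) (by nlinarith)) hZ
  have z3 : 0 ≤ Real.log M := Real.log_nonneg hM
  have z4 : 0 ≤ Real.log (1 / y) := Real.log_nonneg (by rw [le_div_iff₀ hy]; linarith)
  have z5 : 0 ≤ R0 := (Real.log_nonneg (by linarith)).trans hR0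
  refine h1.mono ?_
  have h2 := fVr_le (al := al) (M := M) (L := L) (y := y) hn0 hN0 hy hal z1
  have h3 := ELr_le (L := L') (Lo := L + Real.log (1 / y) + Real.log M + L') (R0 := R0) h hn hN1 (show 0 ≤ M by linarith) hal hL'0
    hL' (by linarith) z5 hk1 hk2 hZ
  have h4 : (40 * (L + Real.log (1 / y) + Real.log M + L' + 1) + 40 * n * Z) / N1 ≤
      (40 * (L + Real.log (1 / y) + Z + L' + 1) + 40 * n * Z) / N1 :=
    div_le_div_of_nonneg_right (by linarith) hN0.le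
  linarith

end

end Pool.Agent.GMH.RarV
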