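import Pool.Agent.GMH.Sharp

/-!
# GMH/RealEnds (helper39): real ends of an epoch (3550 (B), R1 - R3), every number of vertices

`a` is fixed; the vertices `x i` are independent with weights `μ`; `T s x` = the significance time is `≤ s`.
`Ev J s x` : `P(T ≤ s | x_J) ≥ q |J|`  (`J = univ`: `T ≤ s`).  `Tp s x` : the REAL END `T' = min_J E_J` is `≤ s`.

* `R1` : if no `E_I ≤ s`, `l ∉ I`, at the point `x`, then `P(T' ≤ s | x_(-l)) ≤ 1/4`;
* `R2` : `P(T' ≤ n) ≤ C P(T' = T ≤ n)`;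
* `R3` : labels of index sets `J`, stopping times `σ J (x_J)`, a sparse static relation `h`.
-/

set_option autoImplicit false
set_option linter.unusedSectionVars false

namespace Pool.Agent.GMH

open Finset Pool.Agent.PWZ Pool.Agent.GM

noncomputable section

variable {ι Pt : Type} [Fintype ι] [DecidableEq ι] [Fintype Pt]

/-- the thresholds -/
structure Thr (ι : Type) [Fintype ι] where
  q : ℕ → ℝ
  pos : ∀ i, 0 < q i
  top : q (Fintype.card ι) = 1
  step : ∀ i < Fintype.card ι, q i ≤ q (i + 1) ^ 2 / 2 ^ (Fintype.card ι + 2)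

namespace Thr

variable (Q : Thr ι)

theorem le_one {i : ℕ} (hi : i ≤ Fintype.card ι) : Q.q i ≤ 1 := by
  obtain ⟨d, hd⟩ := Nat.exists_eq_add_of_le hi
  induction d generalizing i with
  | zero =>
    rw [add_zero] at hd
    rw [← hd, Q.top]
  | succ d ih =>
    have h1 := Q.step i (by omega)
    have h2 := ih (i := i + 1) (by omega) (by omega)
    have h3 := Q.pos (i + 1)
    have h4 : (1 : ℝ) ≤ 2 ^ (Fintype.card ι + 2) := one_le_pow₀ (by norm_num)
    refine h1.trans ?_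
    rw [div_le_one (by positivity)]
    nlinarith

theorem mono {i j : ℕ} (hij : i ≤ j) (hj : j ≤ Fintype.card ι) : Q.q i ≤ Q.q j := by
  induction j, hij using Nat.le_induction with
  | base => exact le_rfl
  | succ j hij ih =>
    refine (ih (by omega)).trans ?_
    have h1 := Q.step j (by omega)
    have h2 := Q.le_one (i := j + 1) (by omega)
    have h3 := Q.pos (j + 1)
    have h4 : (1 : ℝ) ≤ 2 ^ (Fintype.card ι + 2) := one_le_pow₀ (by norm_num)
    refine h1.trans ?_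
    rw [div_le_iff₀ (by positivity)]
    nlinarith

/-- `q i ≤ q j q j' / 2^(k+2)` for `i < j, j'` -/
theorem two {i j j' : ℕ} (h1 : i < j) (h2 : i < j') (hj : j ≤ Fintype.card ι) (hj' : j' ≤ Fintype.card ι) :
    Q.q i ≤ Q.q j' * Q.q j / 2 ^ (Fintype.card ι + 2) := by
  refine (Q.step i (by omega)).trans ?_
  have a1 := Q.mono (i := i + 1) (j := j) (by omega) hj
  have a2 := Q.mono (i := i + 1) (j := j') (by omega) hj'
  have a3 := Q.pos (i + 1)
  refine div_le_div_of_nonneg_right ?_ (by positivity)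
  rw [sq]
  exact mul_le_mul a2 a1 a3.le (a3.le.trans a2)

/-- such thresholds exist -/
theorem exists_thr (ι : Type) [Fintype ι] : Nonempty (Thr ι) := by
  set k := Fintype.card ι
  let q : ℕ → ℝ := fun i => Nat.rec (motive := fun _ => ℝ) 1 (fun _ r => r ^ 2 / 2 ^ (k + 2)) (k - i)
  have hpos : ∀ d : ℕ, 0 < (Nat.rec (motive := fun _ => ℝ) 1 (fun _ r => r ^ 2 / 2 ^ (k + 2)) d : ℝ) := by
    intro d
    induction d with
    | zero => exact one_pos
    | succ d ih => exact div_pos (pow_pos ih 2) (by positivity)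
  refine ⟨⟨q, fun i => hpos _, ?_, fun i hi => ?_⟩⟩
  · show (Nat.rec (motive := fun _ => ℝ) 1 (fun _ r => r ^ 2 / 2 ^ (k + 2)) (k - k) : ℝ) = 1
    rw [Nat.sub_self]
    rfl
  · have h1 : k - i = (k - (i + 1)) + 1 := by
      have : i < k := hi
      omega
    show (Nat.rec (motive := fun _ => ℝ) 1 (fun _ r => r ^ 2 / 2 ^ (k + 2)) (k - i) : ℝ) ≤
      (Nat.rec (motive := fun _ => ℝ) 1 (fun _ r => r ^ 2 / 2 ^ (k + 2)) (k - (i + 1)) : ℝ) ^ 2 / 2 ^ (k + 2)
    rw [h1]

end Thr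

/-- real ends -/
structure RE (ι Pt : Type) [Fintype ι] [DecidableEq ι] [Fintype Pt] where
  μ : Wts ι Pt
  Q : Thr ι
  /-- the significance time is `≤ s` -/
  T : ℕ → (ι → Pt) → Prop
  Tmono : ∀ s x, T s x → T (s + 1) x

namespace RE

variable (R : RE ι Pt)

theorem T_le {s t : ℕ} (h : s ≤ t) {x : ι → Pt} (hx : R.T s x) : R.T t x := by
  induction t, h using Nat.le_induction with
  | base => exact hx
  | succ n _ ih => exact R.Tmono n x ih

/-- `P(T ≤ s | x_J)` -/
def pT (J : Finset ι) (s : ℕ) (x : ι → Pt) : ℝ := R.μ.Av Jᶜ (fun z => ind (R.T s z)) x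

/-- `E_J ≤ s` -/
def Ev (J : Finset ι) (s : ℕ) (x : ι → Pt) : Prop := R.Q.q J.card ≤ R.pT J s x

/-- `T' ≤ s` -/
def Tp (s : ℕ) (x : ι → Pt) : Prop := ∃ J, R.Ev J s x

theorem pT_nonneg (J : Finset ι) (s : ℕ) (x : ι → Pt) : 0 ≤ R.pT J s x :=
  R.μ.Av_nonneg _ _ fun _ _ => ind_nonneg _

theorem pT_le {s t : ℕ} (h : s ≤ t) (J : Finset ι) (x : ι → Pt) : R.pT J s x ≤ R.pT J t x :=
  R.μ.Av_mono _ _ fun _ _ => ind_mono fun hz => R.T_le h hz

theorem pT_dep (J : Finset ι) (s : ℕ) : Dep J (R.pT J s) := by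
  have := R.μ.Av_dep Jᶜ (fun z => ind (R.T s z))
  rwa [compl_compl] at this

theorem Ev_le {s t : ℕ} (h : s ≤ t) {J : Finset ι} {x : ι → Pt} (hx : R.Ev J s x) : R.Ev J t x :=
  le_trans hx (R.pT_le h J x)

theorem Tp_le {s t : ℕ} (h : s ≤ t) {x : ι → Pt} (hx : R.Tp s x) : R.Tp t x := by
  obtain ⟨J, hJ⟩ := hx
  exact ⟨J, R.Ev_le h hJ⟩

theorem Ev_iff {J : Finset ι} {s : ℕ} {x y : ι → Pt} (h : ∀ i ∈ J, x i = y i) : R.Ev J s x ↔ R.Ev J s y := by
  unfold Ev
  rw [R.pT_dep J s x y h]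

theorem Ev_univ {s : ℕ} {x : ι → Pt} : R.Ev univ s x ↔ R.T s x := by
  unfold Ev pT
  rw [Finset.card_univ, R.Q.top, compl_univ, R.μ.Av_empty]
  by_cases h : R.T s x
  · rw [ind_of h]
    exact iff_of_true le_rfl h
  · rw [ind_not h]
    exact iff_of_false (by norm_num) h

theorem T_Tp {s : ℕ} {x : ι → Pt} (h : R.T s x) : R.Tp s x := ⟨univ, R.Ev_univ.2 h⟩

/-- `E_J ≤ s` given `x_(-s')` : Markov -/
theorem Av_Ev (J s' : Finset ι) (s : ℕ) (x : ι → Pt) :
    R.μ.Av s' (fun z => ind (R.Ev J s z)) x * R.Q.q J.card ≤ R.pT (J \ s') s x := by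
  have h1 : R.pT (J \ s') s x = R.μ.Av s' (R.pT J s) x := by
    unfold pT
    have h2 : (J \ s')ᶜ = s' ∪ Jᶜ := by
      ext i
      simp only [mem_compl, mem_sdiff, mem_union]
      tauto
    rw [h2]
    exact (R.μ.Av_Av s' Jᶜ _ x).symm
  rw [h1, mul_comm, ← R.μ.Av_smul]
  refine R.μ.Av_mono _ _ fun z _ => ?_
  by_cases h : R.Ev J s z
  · rw [ind_of h, mul_one]
    exact h
  · rw [ind_not h, mul_zero]
    exact R.pT_nonneg J s z

/-- **R1** : no survivors problem -/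
theorem R1 {l : ι} {s : ℕ} {x : ι → Pt} (h : ∀ I : Finset ι, l ∉ I → ¬ R.Ev I s x) :
    R.μ.Av {l} (fun z => ind (R.Tp s z)) x ≤ 1 / 4 := by
  have h1 : R.μ.Av {l} (fun z => ind (R.Tp s z)) x ≤
      R.μ.Av {l} (fun z => ∑ J ∈ (univ : Finset (Finset ι)).filter (fun J => l ∈ J), ind (R.Ev J s z)) x := by
    refine R.μ.Av_mono _ _ fun z hz => ?_
    by_cases hT : R.Tp s z
    · obtain ⟨J, hJ⟩ := id hT
      have hl : l ∈ J := by
        by_contra hl
        refine h J hl ((R.Ev_iff fun i hi => ?_).1 hJ)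
        exact hz i fun h2 => hl (by rwa [mem_singleton.1 h2] at hi)
      rw [ind_of hT]
      calc (1 : ℝ) = ind (R.Ev J s z) := (ind_of hJ).symm
        _ ≤ _ := Finset.single_le_sum (f := fun J => ind (R.Ev J s z)) (fun J _ => ind_nonneg _)
            (mem_filter.2 ⟨mem_univ J, hl⟩)
    · rw [ind_not hT]
      exact Finset.sum_nonneg fun J _ => ind_nonneg _
  refine h1.trans ?_
  rw [R.μ.Av_sum]
  have h2 : ∀ J ∈ (univ : Finset (Finset ι)).filter (fun J => l ∈ J),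
      R.μ.Av {l} (fun z => ind (R.Ev J s z)) x ≤ 1 / 2 ^ (Fintype.card ι + 2) := by
    intro J hJ
    have hl : l ∈ J := (mem_filter.1 hJ).2
    have h3 := R.Av_Ev J {l} s x
    have h4 : R.pT (J \ {l}) s x < R.Q.q (J \ {l}).card := by
      have := h (J \ {l}) (by simp)
      exact not_le.1 this
    have hc : (J \ {l}).card = J.card - 1 := by
      rw [Finset.card_sdiff_of_subset (singleton_subset_iff.2 hl), card_singleton]
    have hJ1 : 0 < J.card := Finset.card_pos.2 ⟨l, hl⟩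
    have hJk : J.card ≤ Fintype.card ι := Finset.card_le_univ J
    have h5 := R.Q.step (J.card - 1) (by omega)
    rw [Nat.sub_add_cancel hJ1] at h5
    rw [hc] at h4
    have h6 := R.Q.le_one hJk
    have h7 := R.Q.pos J.card
    have h8 : (0 : ℝ) < 2 ^ (Fintype.card ι + 2) := by positivity
    have h9 : R.μ.Av {l} (fun z => ind (R.Ev J s z)) x * R.Q.q J.card ≤
        R.Q.q J.card ^ 2 / 2 ^ (Fintype.card ι + 2) := h3.trans (h4.le.trans h5)
    have h10 : R.μ.Av {l} (fun z => ind (R.Ev J s z)) x ≤ R.Q.q J.card / 2 ^ (Fintype.card ι + 2) := by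
      refine le_of_mul_le_mul_right ?_ h7
      refine h9.trans (le_of_eq ?_)
      ring
    exact h10.trans (div_le_div_of_nonneg_right h6 h8.le)
  refine (Finset.sum_le_card_nsmul _ _ _ h2).trans ?_
  have h3 : ((univ : Finset (Finset ι)).filter (fun J => l ∈ J)).card ≤ 2 ^ Fintype.card ι := by
    refine (Finset.card_filter_le _ _).trans ?_
    rw [Finset.card_univ, Fintype.card_finset]
  rw [nsmul_eq_mul]
  have h4 : (((univ : Finset (Finset ι)).filter (fun J => l ∈ J)).card : ℝ) ≤ 2 ^ Fintype.card ι := by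
    exact_mod_cast h3
  calc _ ≤ (2 : ℝ) ^ Fintype.card ι * (1 / 2 ^ (Fintype.card ι + 2)) :=
        mul_le_mul_of_nonneg_right h4 (by positivity)
    _ = 1 / 4 := by
        rw [pow_add]
        field_simp
        norm_num

/-- `σ ≤ T'` -/
def Ge (σ : ℕ) (x : ι → Pt) : Prop := ∀ s < σ, ¬ R.Tp s x

/-- given `x_(-l)` the event `σ ≤ T'` is impossible or has probability at least `3/4` -/
theorem Ge_or {l : ι} {J : Finset ι} (hl : l ∉ J) {σ : (ι → Pt) → ℕ} (hσ : Dep J σ) (x : ι → Pt) :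
    ind (R.Ge (σ x) x) ≤ 4 / 3 * R.μ.Av {l} (fun z => ind (R.Ge (σ z) z)) x := by
  by_cases h : R.Ge (σ x) x
  · rw [ind_of h]
    have h0 : ∀ z, (∀ i ∉ ({l} : Finset ι), z i = x i) → σ z = σ x := fun z hz =>
      hσ z x fun i hi => hz i fun h2 => hl (by rwa [mem_singleton.1 h2] at hi)
    suffices hs : 3 / 4 ≤ R.μ.Av {l} (fun z => ind (R.Ge (σ z) z)) x by linarith
    rcases Nat.eq_zero_or_pos (σ x) with h1 | h1
    · have h2 : R.μ.Av {l} (fun z => ind (R.Ge (σ z) z)) x = R.μ.Av {l} (fun _ => 1) x := by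
        refine R.μ.Av_congr _ _ fun z hz => ?_
        rw [h0 z hz, h1]
        exact ind_of fun s hs => absurd hs (Nat.not_lt_zero s)
      rw [h2, R.μ.Av_const]
      norm_num
    · have h2 : ∀ I : Finset ι, l ∉ I → ¬ R.Ev I (σ x - 1) x := fun I _ hI => h (σ x - 1) (by omega) ⟨I, hI⟩
      have h3 := R.R1 h2
      have h4 : R.μ.Av {l} (fun z => 1 - ind (R.Tp (σ x - 1) z)) x ≤ R.μ.Av {l} (fun z => ind (R.Ge (σ z) z)) x := by
        refine R.μ.Av_mono _ _ fun z hz => ?_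
        rw [h0 z hz]
        by_cases h5 : R.Tp (σ x - 1) z
        · rw [ind_of h5, sub_self]
          exact ind_nonneg _
        · rw [ind_not h5, sub_zero, ind_of]
          intro s hs hT
          exact h5 (R.Tp_le (by omega) hT)
      rw [R.μ.Av_sub, R.μ.Av_const] at h4
      linarith
  · rw [ind_not h]
    exact mul_nonneg (by norm_num) (R.μ.Av_nonneg _ _ fun _ _ => ind_nonneg _)

/-- **R3** : `s1` coordinates, each missed by a label `J l` with stopping time `σ l (x_(J l))`; `m` = all these labels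
rise before the real end -/
theorem R3 {s1 : Finset ι} (hs1 : s1.Nonempty) (J : ι → Finset ι) (hJ : ∀ l ∈ s1, l ∉ J l)
    (σ : ι → (ι → Pt) → ℕ) (hσ : ∀ l ∈ s1, Dep (J l) (σ l)) (h : (ι → Pt) → Prop) (m : (ι → Pt) → ℝ)
    (hm : ∀ l ∈ s1, ∀ x, m x ≤ ind (R.Ge (σ l x) x)) {lam : ℝ} (h0 : 0 ≤ lam) (x : ι → Pt)
    (hH : R.μ.Av s1 (fun z => ind (h z)) x ≤ lam) :
    R.μ.Av s1 (fun z => ind (h z) * m z) x ≤
      4 / 3 * lam ^ ((1 : ℝ) / s1.card) * ∑ l ∈ s1, R.μ.Av s1 (fun z => ind (R.Ge (σ l z) z)) x := by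
  have h1 := R.μ.sharp_rpow h0 h m (fun l x => 4 / 3 * R.μ.Av {l} (fun z => ind (R.Ge (σ l z) z)) x) hs1
    (fun l _ => by
      have h2 := R.μ.Av_dep {l} (fun z => ind (R.Ge (σ l z) z))
      intro a b hab
      show 4 / 3 * _ = 4 / 3 * _
      rw [h2 a b fun i hi => hab i (mem_erase.2 ⟨fun h3 => (mem_compl.1 hi) (mem_singleton.2 h3), mem_univ i⟩)])
    (fun l _ x => mul_nonneg (by norm_num) (R.μ.Av_nonneg _ _ fun _ _ => ind_nonneg _))
    (fun l hl x => (hm l hl x).trans (R.Ge_or (hJ l hl) (hσ l hl) x)) x hH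
  refine h1.trans (le_of_eq ?_)
  have h2 : ∀ l ∈ s1, R.μ.Av s1 (fun x => 4 / 3 * R.μ.Av {l} (fun z => ind (R.Ge (σ l z) z)) x) x =
      4 / 3 * R.μ.Av s1 (fun z => ind (R.Ge (σ l z) z)) x := by
    intro l hl
    rw [R.μ.Av_smul]
    congr 1
    show R.μ.Av s1 (R.μ.Av {l} _) x = _
    rw [R.μ.Av_Av, union_eq_left.2 (singleton_subset_iff.2 hl)]
  rw [Finset.sum_congr rfl h2, ← Finset.mul_sum]
  ring

/-! ### the count -/

/-- `T' = T ≤ n` -/
def G (n : ℕ) (x : ι → Pt) : Prop := ∃ t ≤ n, R.T t x ∧ ∀ s < t, ¬ R.Tp s x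

/-- `E_J ≤ n` and no smaller set ends before -/
def A (n : ℕ) (J : Finset ι) (x : ι → Pt) : Prop := ∃ t ≤ n, R.Ev J t x ∧ ∀ I, I ⊂ J → ¬ R.Ev I t x

theorem A_dep (n : ℕ) (J : Finset ι) : Dep J (fun x => ind (R.A n J x)) := by
  intro x y h
  have h1 : R.A n J x ↔ R.A n J y := by
    unfold A
    refine exists_congr fun t => and_congr_right fun _ => and_congr (R.Ev_iff h) ?_
    refine forall_congr' fun I => ?_
    constructor
    · intro h2 hI h3
      exact h2 hI ((R.Ev_iff fun i hi => h i (hI.1 hi)).2 h3)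
    · intro h2 hI h3
      exact h2 hI ((R.Ev_iff fun i hi => h i (hI.1 hi)).1 h3)
  show ind (R.A n J x) = ind (R.A n J y)
  rw [propext h1]

/-- a minimal index set -/
theorem exists_min {s : ℕ} {x : ι → Pt} (h : R.Tp s x) : ∃ J, R.Ev J s x ∧ ∀ I, I ⊂ J → ¬ R.Ev I s x := by
  classical
  obtain ⟨J, hJ⟩ := h
  induction J using Finset.strongInduction with
  | H J ih =>
    by_cases h1 : ∃ I, I ⊂ J ∧ R.Ev I s x
    · obtain ⟨I, hI, hE⟩ := h1
      exact ih I hI hE
    · exact ⟨J, hJ, fun I hI hE => h1 ⟨I, hI, hE⟩⟩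

theorem A_univ {n : ℕ} {x : ι → Pt} (h : R.A n univ x) : R.G n x := by
  classical
  obtain ⟨t, ht, h1, h2⟩ := h
  have hex : ∃ t, R.T t x := ⟨t, R.Ev_univ.1 h1⟩
  refine ⟨Nat.find hex, (Nat.find_min' hex (R.Ev_univ.1 h1)).trans ht, Nat.find_spec hex, fun s hs hT => ?_⟩
  obtain ⟨J, hJ⟩ := hT
  by_cases hJu : J = univ
  · rw [hJu] at hJ
    exact Nat.find_min hex hs (R.Ev_univ.1 hJ)
  · refine h2 J (Finset.ssubset_univ_iff.2 hJu) (R.Ev_le ?_ hJ)
    exact hs.le.trans (Nat.find_min' hex (R.Ev_univ.1 h1))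

/-- one index set -/
theorem A_step {n : ℕ} {J : Finset ι} {x : ι → Pt} (h : R.A n J x) :
    3 / 4 * R.Q.q J.card ≤ R.μ.Av Jᶜ (fun z => ind (R.G n z)) x +
      ∑ J' ∈ (univ : Finset (Finset ι)).filter (fun J' => J ⊂ J'), R.μ.Av Jᶜ (fun z => ind (R.A n J' z)) x := by
  classical
  -- the first time of `J`
  obtain ⟨t0, ht0, hE0, hI0⟩ := h
  have hex : ∃ t, R.Ev J t x := ⟨t0, hE0⟩
  set t := Nat.find hex with ht
  have htt : t ≤ t0 := Nat.find_min' hex hE0
  have hEt : R.Ev J t x := Nat.find_spec hex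
  have hlt : ∀ s < t, ¬ R.Ev J s x := fun s hs => Nat.find_min hex hs
  have hI : ∀ I, I ⊂ J → ¬ R.Ev I t x := fun I hI hE => hI0 I hI (R.Ev_le htt hE)
  set F := (univ : Finset (Finset ι)).filter (fun J' => ¬ J ⊆ J' ∧ ¬ J' ⊆ J) with hF
  have key : ∀ z, (∀ i ∉ Jᶜ, z i = x i) → ind (R.T t z) ≤ ind (R.G n z) +
      ∑ J' ∈ (univ : Finset (Finset ι)).filter (fun J' => J ⊂ J'), ind (R.A n J' z) +
      ∑ J' ∈ F, ind (R.Ev J' t z) := by
    intro z hz
    have hzJ : ∀ i ∈ J, z i = x i := fun i hi => hz i (by rw [mem_compl, not_not]; exact hi)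
    have s1 : 0 ≤ ∑ J' ∈ (univ : Finset (Finset ι)).filter (fun J' => J ⊂ J'), ind (R.A n J' z) :=
      Finset.sum_nonneg fun _ _ => ind_nonneg _
    have s2 : 0 ≤ ∑ J' ∈ F, ind (R.Ev J' t z) := Finset.sum_nonneg fun _ _ => ind_nonneg _
    have s0 := ind_nonneg (R.G n z)
    by_cases hT : R.T t z
    · rw [ind_of hT]
      have hex' : ∃ s, R.Tp s z := ⟨t, R.T_Tp hT⟩
      set t' := Nat.find hex' with ht'
      have h1 : t' ≤ t := Nat.find_min' hex' (R.T_Tp hT)
      have h2 : R.Tp t' z := Nat.find_spec hex'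
      have h3 : ∀ s < t', ¬ R.Tp s z := fun s hs => Nat.find_min hex' hs
      by_cases hT' : R.T t' z
      · have hG : R.G n z := ⟨t', h1.trans (htt.trans ht0), hT', h3⟩
        rw [ind_of hG]
        linarith
      · obtain ⟨J', hE', hmin⟩ := R.exists_min h2
        have hA : R.A n J' z := ⟨t', h1.trans (htt.trans ht0), hE', hmin⟩
        have hnu : J' ≠ univ := fun h => hT' (R.Ev_univ.1 (h ▸ hE'))
        have hnJ : J' ≠ J := by
          intro h4
          rw [h4] at hE'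
          have h5 : R.Ev J t' x := (R.Ev_iff hzJ).1 hE'
          have h6 : ¬ t' < t := fun h7 => hlt t' h7 h5
          have h7 : t' = t := le_antisymm h1 (not_lt.1 h6)
          rw [h7] at hT'
          exact hT' hT
        have hnsub : ¬ J' ⊆ J := by
          intro h4
          have h5 : R.Ev J' t z := R.Ev_le h1 hE'
          exact hI J' ⟨h4, fun h6 => hnJ (Finset.Subset.antisymm h4 h6)⟩
            ((R.Ev_iff fun i hi => hzJ i (h4 hi)).1 h5)
        by_cases hsub : J ⊆ J'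
        · have h5 : (1 : ℝ) ≤ ∑ J' ∈ (univ : Finset (Finset ι)).filter (fun J' => J ⊂ J'), ind (R.A n J' z) := by
            calc (1 : ℝ) = ind (R.A n J' z) := (ind_of hA).symm
              _ ≤ _ := Finset.single_le_sum (f := fun J' => ind (R.A n J' z)) (fun _ _ => ind_nonneg _)
                  (mem_filter.2 ⟨mem_univ _, hsub, hnsub⟩)
          linarith
        · have h5 : (1 : ℝ) ≤ ∑ J' ∈ F, ind (R.Ev J' t z) := by
            calc (1 : ℝ) = ind (R.Ev J' t z) := (ind_of (R.Ev_le h1 hE')).symm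
              _ ≤ _ := Finset.single_le_sum (f := fun J' => ind (R.Ev J' t z)) (fun _ _ => ind_nonneg _)
                  (mem_filter.2 ⟨mem_univ _, hsub, hnsub⟩)
          linarith
    · rw [ind_not hT]
      linarith
  have h1 : R.Q.q J.card ≤ R.pT J t x := hEt
  have h2 := R.μ.Av_mono Jᶜ x key
  rw [R.μ.Av_add, R.μ.Av_add, R.μ.Av_sum, R.μ.Av_sum] at h2
  have h3 : ∑ J' ∈ F, R.μ.Av Jᶜ (fun z => ind (R.Ev J' t z)) x ≤ 1 / 4 * R.Q.q J.card := by
    have h4 : ∀ J' ∈ F, R.μ.Av Jᶜ (fun z => ind (R.Ev J' t z)) x ≤ R.Q.q J.card / 2 ^ (Fintype.card ι + 2) := by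
      intro J' hJ'
      obtain ⟨-, n1, n2⟩ := mem_filter.1 hJ'
      have h5 := R.Av_Ev J' Jᶜ t x
      have h6 : J' \ Jᶜ = J ∩ J' := by
        ext i
        simp only [mem_sdiff, mem_compl, mem_inter]
        tauto
      rw [h6] at h5
      have s1 : J ∩ J' ⊂ J := ⟨inter_subset_left, fun h => n1 fun i hi => (mem_inter.1 (h hi)).2⟩
      have s2 : J ∩ J' ⊂ J' := ⟨inter_subset_right, fun h => n2 fun i hi => (mem_inter.1 (h hi)).1⟩
      have h7 : R.pT (J ∩ J') t x < R.Q.q (J ∩ J').card := not_le.1 (hI _ s1)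
      have h8 := R.Q.two (Finset.card_lt_card s1) (Finset.card_lt_card s2) (Finset.card_le_univ J)
        (Finset.card_le_univ J')
      have h9 := R.Q.pos J'.card
      refine le_of_mul_le_mul_right ?_ h9
      refine (h5.trans (h7.le.trans h8)).trans (le_of_eq ?_)
      ring
    refine (Finset.sum_le_card_nsmul _ _ _ h4).trans ?_
    have h5 : F.card ≤ 2 ^ Fintype.card ι := by
      refine (Finset.card_filter_le _ _).trans ?_
      rw [Finset.card_univ, Fintype.card_finset]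
    rw [nsmul_eq_mul]
    have h6 : (F.card : ℝ) ≤ 2 ^ Fintype.card ι := by exact_mod_cast h5
    have h7 := R.Q.pos J.card
    calc (F.card : ℝ) * (R.Q.q J.card / 2 ^ (Fintype.card ι + 2))
        ≤ 2 ^ Fintype.card ι * (R.Q.q J.card / 2 ^ (Fintype.card ι + 2)) :=
          mul_le_mul_of_nonneg_right h6 (by positivity)
      _ = 1 / 4 * R.Q.q J.card := by
          rw [pow_add]
          field_simp
          norm_num
  have h4 : R.pT J t x = R.μ.Av Jᶜ (fun z => ind (R.T t z)) x := rfl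
  linarith

theorem Ex_nonneg {μ : Wts ι Pt} {f : (ι → Pt) → ℝ} (h : ∀ x, 0 ≤ f x) : 0 ≤ μ.Ex f :=
  Finset.sum_nonneg fun z _ => mul_nonneg (Finset.prod_nonneg fun i _ => μ.nn i _) (h z)

theorem Ex_mono {μ : Wts ι Pt} {f g : (ι → Pt) → ℝ} (h : ∀ x, f x ≤ g x) : μ.Ex f ≤ μ.Ex g :=
  Finset.sum_le_sum fun z _ => mul_le_mul_of_nonneg_left (h z) (Finset.prod_nonneg fun i _ => μ.nn i _)

theorem Ex_add {μ : Wts ι Pt} (f g : (ι → Pt) → ℝ) : μ.Ex (fun x => f x + g x) = μ.Ex f + μ.Ex g := by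
  unfold Wts.Ex
  rw [← Finset.sum_add_distrib]
  exact Finset.sum_congr rfl fun z _ => by ring

theorem Ex_smul {μ : Wts ι Pt} (c : ℝ) (f : (ι → Pt) → ℝ) : μ.Ex (fun x => c * f x) = c * μ.Ex f := by
  unfold Wts.Ex
  rw [Finset.mul_sum]
  exact Finset.sum_congr rfl fun z _ => by ring

theorem Ex_sum {μ : Wts ι Pt} {α : Type*} (S : Finset α) (f : α → (ι → Pt) → ℝ) :
    μ.Ex (fun x => ∑ a ∈ S, f a x) = ∑ a ∈ S, μ.Ex (f a) := by
  unfold Wts.Ex
  rw [Finset.sum_comm]
  exact Finset.sum_congr rfl fun z _ => by rw [Finset.mul_sum]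

/-- the integrated step -/
theorem e_step [Nonempty Pt] (n : ℕ) (J : Finset ι) :
    3 / 4 * R.Q.q J.card * R.μ.Ex (fun x => ind (R.A n J x)) ≤ R.μ.Ex (fun x => ind (R.G n x)) +
      ∑ J' ∈ (univ : Finset (Finset ι)).filter (fun J' => J ⊂ J'), R.μ.Ex (fun x => ind (R.A n J' x)) := by
  have h1 : ∀ x, 3 / 4 * R.Q.q J.card * ind (R.A n J x) ≤ R.μ.Av Jᶜ (fun z => ind (R.G n z)) x +
      ∑ J' ∈ (univ : Finset (Finset ι)).filter (fun J' => J ⊂ J'), R.μ.Av Jᶜ (fun z => ind (R.A n J' z)) x := by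
    intro x
    by_cases h : R.A n J x
    · rw [ind_of h, mul_one]
      exact R.A_step h
    · rw [ind_not h, mul_zero]
      exact add_nonneg (R.μ.Av_nonneg _ _ fun _ _ => ind_nonneg _)
        (Finset.sum_nonneg fun _ _ => R.μ.Av_nonneg _ _ fun _ _ => ind_nonneg _)
  have h2 := Ex_mono (μ := R.μ) h1
  rw [Ex_smul, Ex_add, Ex_sum, R.μ.Ex_Av] at h2
  refine h2.trans (le_of_eq ?_)
  congr 1
  exact Finset.sum_congr rfl fun J' _ => R.μ.Ex_Av Jᶜ _

/-- **R2** : `P(T' ≤ n) ≤ C P(T' = T ≤ n)` -/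
theorem R2 [Nonempty Pt] (n : ℕ) :
    R.μ.Ex (fun x => ind (R.Tp n x)) ≤
      2 ^ Fintype.card ι * (2 ^ (Fintype.card ι + 2) / R.Q.q 0) ^ Fintype.card ι *
        R.μ.Ex (fun x => ind (R.G n x)) := by
  classical
  set k := Fintype.card ι with hk
  set g := R.μ.Ex (fun x => ind (R.G n x)) with hg
  have hg0 : 0 ≤ g := Ex_nonneg fun x => ind_nonneg _
  set C : ℝ := 2 ^ (k + 2) / R.Q.q 0 with hC
  have hq0 := R.Q.pos 0
  have hq1 : R.Q.q 0 ≤ 1 := R.Q.le_one (Nat.zero_le _)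
  have hC1 : 1 ≤ C := by
    rw [hC, le_div_iff₀ hq0, one_mul]
    exact hq1.trans (one_le_pow₀ (by norm_num))
  have hu : R.μ.Ex (fun x => ind (R.A n univ x)) ≤ g :=
    Ex_mono fun x => ind_mono fun h => R.A_univ h
  have key : ∀ d : ℕ, ∀ J : Finset ι, k - J.card ≤ d → R.μ.Ex (fun x => ind (R.A n J x)) ≤ C ^ d * g := by
    intro d
    induction d with
    | zero =>
      intro J hJ
      have h1 : J = univ := by
        rw [← Finset.card_eq_iff_eq_univ]
        exact le_antisymm (Finset.card_le_univ J) (by omega)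
      rw [h1, pow_zero, one_mul]
      exact hu
    | succ d ih =>
      intro J hJ
      by_cases hJd : k - J.card ≤ d
      · refine (ih J hJd).trans ?_
        rw [pow_succ]
        have : 0 ≤ C ^ d * g := mul_nonneg (pow_nonneg (by linarith) d) hg0
        nlinarith
      · have h1 := R.e_step n J
        have h2 : ∑ J' ∈ (univ : Finset (Finset ι)).filter (fun J' => J ⊂ J'),
            R.μ.Ex (fun x => ind (R.A n J' x)) ≤ (2 : ℝ) ^ k * (C ^ d * g) := by
          have h3 : ∀ J' ∈ (univ : Finset (Finset ι)).filter (fun J' => J ⊂ J'),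
              R.μ.Ex (fun x => ind (R.A n J' x)) ≤ C ^ d * g := by
            intro J' hJ'
            have h4 := Finset.card_lt_card (mem_filter.1 hJ').2
            exact ih J' (by omega)
          refine (Finset.sum_le_card_nsmul _ _ _ h3).trans ?_
          rw [nsmul_eq_mul]
          refine mul_le_mul_of_nonneg_right ?_ (mul_nonneg (pow_nonneg (by linarith) d) hg0)
          have h5 : ((univ : Finset (Finset ι)).filter (fun J' => J ⊂ J')).card ≤ 2 ^ k := by
            refine (Finset.card_filter_le _ _).trans ?_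
            rw [Finset.card_univ, Fintype.card_finset]
          exact_mod_cast h5
        have h3 : R.Q.q 0 ≤ R.Q.q J.card := R.Q.mono (Nat.zero_le _) (Finset.card_le_univ J)
        have h4 : 0 ≤ R.μ.Ex (fun x => ind (R.A n J x)) := Ex_nonneg fun x => ind_nonneg _
        have h5 : 3 / 4 * R.Q.q 0 * R.μ.Ex (fun x => ind (R.A n J x)) ≤ g + 2 ^ k * (C ^ d * g) := by
          have h6 : 3 / 4 * R.Q.q 0 * R.μ.Ex (fun x => ind (R.A n J x)) ≤
              3 / 4 * R.Q.q J.card * R.μ.Ex (fun x => ind (R.A n J x)) := by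
            refine mul_le_mul_of_nonneg_right ?_ h4
            linarith
          linarith
        have h6 : 1 ≤ C ^ d := one_le_pow₀ hC1
        have h7 : (1 : ℝ) ≤ 2 ^ k := one_le_pow₀ (by norm_num)
        have h8 : g ≤ 2 ^ k * (C ^ d * g) := by
          have : g ≤ C ^ d * g := by nlinarith
          have h9 : 0 ≤ C ^ d * g := mul_nonneg (by linarith) hg0
          nlinarith
        have h9 : 3 / 4 * R.Q.q 0 * R.μ.Ex (fun x => ind (R.A n J x)) ≤ 2 * (2 ^ k * (C ^ d * g)) := by linarith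
        have h10 : C ^ (d + 1) * g * (3 / 4 * R.Q.q 0) = 3 * (2 ^ k * (C ^ d * g)) := by
          rw [pow_succ, hC, pow_add]
          field_simp
          ring
        have h11 : 0 ≤ 2 ^ k * (C ^ d * g) := mul_nonneg (by linarith) (mul_nonneg (by linarith) hg0)
        have h12 : (0 : ℝ) < 3 / 4 * R.Q.q 0 := by linarith
        refine le_of_mul_le_mul_left ?_ h12
        calc 3 / 4 * R.Q.q 0 * R.μ.Ex (fun x => ind (R.A n J x)) ≤ 2 * (2 ^ k * (C ^ d * g)) := h9
          _ ≤ 3 * (2 ^ k * (C ^ d * g)) := by linarith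
          _ = C ^ (d + 1) * g * (3 / 4 * R.Q.q 0) := h10.symm
          _ = 3 / 4 * R.Q.q 0 * (C ^ (d + 1) * g) := by ring
  have h1 : R.μ.Ex (fun x => ind (R.Tp n x)) ≤ R.μ.Ex (fun x => ∑ J : Finset ι, ind (R.A n J x)) := by
    refine Ex_mono fun x => ?_
    by_cases h : R.Tp n x
    · obtain ⟨J, hJ, hmin⟩ := R.exists_min h
      have hA : R.A n J x := ⟨n, le_rfl, hJ, hmin⟩
      rw [ind_of h]
      calc (1 : ℝ) = ind (R.A n J x) := (ind_of hA).symm
        _ ≤ _ := Finset.single_le_sum (f := fun J => ind (R.A n J x)) (fun _ _ => ind_nonneg _) (mem_univ J)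
    · rw [ind_not h]
      exact Finset.sum_nonneg fun _ _ => ind_nonneg _
  rw [Ex_sum] at h1
  refine h1.trans ?_
  have h2 : ∀ J ∈ (univ : Finset (Finset ι)), R.μ.Ex (fun x => ind (R.A n J x)) ≤ C ^ k * g := fun J _ =>
    key k J (Nat.sub_le _ _)
  refine (Finset.sum_le_card_nsmul _ _ _ h2).trans (le_of_eq ?_)
  rw [nsmul_eq_mul, Finset.card_univ, Fintype.card_finset]
  push_cast
  rw [← hk]
  ring

end RE

end

end Pool.Agent.GMH
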