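import Pool.Agent.GMH.RegT
import Pool.Agent.GMH.TwoSplit

/-!
# GMH/RegT2: the region of the cut in the frame two (helper63)

`Rg2 c r i b t w f` = the region `RegT` of `GMH/RegT` for the letters `Fo (FQ v t) i` in the step `s2 b` (`GMH/TwoSplit`);
`Rg2_fac`, `Rg2_strong` : a tuple of the region has a strong top `j ≠ i`.
-/

set_option autoImplicit false
set_option linter.unusedSectionVars false

namespace Pool.Agent.GMH.TP

open Finset Pool.Agent.PWZ Pool.Agent.M3 Pool.Agent.GM Pool.Agent.GM.Harm Pool.Agent.GMH Pool.Agent.GMH.NZ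
open Pool.Agent.GMH.V3 Pool.Agent.GMH.KF

noncomputable section

variable {X β γ φ : Type} [Fintype X] [Fintype β] [Fintype φ] [Nonempty X] [Nonempty β]
variable {D : HD (Fin 3) X β γ φ} {al : ℝ} (h : D.Thick al) (v : ℕ → Finset (Fin 3) → X → (Fin 3 → β) → Pt (Fin 3) X β φ)

/-- **THE REGION OF THE STEP** `s2 b` in the frame two -/
def Rg2 (c : KC) (r : RC) (i : Fin 3) (b : Bool) (t : ℕ) (w : Pt (Fin 3) X β φ) (f : T2 X β φ) : Prop :=
  RegT (D.P h t) (ZQ D v (qs (s2 b) t)) (ZbQ D v (qs (s2 b) t)) (Fo (FQ v t) i) (ZbQ D v (qe (s2 b) t)) c r w f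

theorem Rg2_fac (c : KC) (r : RC) (i : Fin 3) (b : Bool) (t : ℕ) (f : T2 X β φ) :
    Fac (VZ (φ := φ) D v (s2 b) t) (fun w => Rg2 h v c r i b t w f) :=
  RegT_fac (D.P h t) (Fo (FQ v t) i) (V := ZQ D v (qe (s2 b) t)) (fun j => ZQ_Zb _ j)
    (fun j a b' hab => ZQ_Zb _ j a b' (Prod.mk.inj hab).1) c r f

/-- the ratio of the entry in the names of `GMH/TwoSplit` -/
theorem rF_rS2 (i : Fin 3) (b : Bool) (t : ℕ) (j : Fin 3) (w : Pt (Fin 3) X β φ) (x : Option (Tt X β φ)) :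
    rF (D.P h t) (ZbQ D v (qs (s2 b) t)) (Fo (FQ v t) i) (ZbQ D v (qe (s2 b) t)) j w x =
      rS2 h v i (s2 b) t j w x := rfl

/-- a tuple of the region has a strong top other than `i`, for letters of the frame -/
theorem Rg2_strong {c : KC} {r : RC} (hB : 1 ≤ r.B) {i : Fin 3} {b : Bool} {t : ℕ} {w : Pt (Fin 3) X β φ}
    (hw : (D.P h t).p w ≠ 0) {f : T2 X β φ} (hf : ∀ j, j ≠ i → ∃ x, f j = some x) (hR : Rg2 h v c r i b t w f) :
    ∃ j, j ≠ i ∧ ∃ x, f j = some x ∧ r.B < rS h v (s2 b) t j w x := by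
  obtain ⟨j, hj⟩ := RegT_strong hR
  have h1 : r.B < rS2 h v i (s2 b) t j w (f j) := hj
  have h2 : j ≠ i := by
    rintro rfl
    exact absurd (h1.trans_le (rS2_self (s2 b) t hw (f j))) (not_lt.2 hB)
  obtain ⟨x, hx⟩ := hf j h2
  rw [hx, rS2_some _ _ h2] at h1
  exact ⟨j, h2, x, hx, h1⟩

/-- at the true tuple -/
theorem Rg2_true {c : KC} {r : RC} (hB : 1 ≤ r.B) {i : Fin 3} {b : Bool} {t : ℕ} {w : Pt (Fin 3) X β φ}
    (hw : (D.P h t).p w ≠ 0) (hR : Rg2 h v c r i b t w (tup (Fo (FQ v t) i) w)) :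
    ∃ j, j ≠ i ∧ r.B < rS h v (s2 b) t j w (FQ v t j w) := by
  obtain ⟨j, hj, x, hx, h1⟩ := Rg2_strong h v hB hw (fun j hj => ⟨_, Fo_some t hj w⟩) hR
  rw [Fo_some t hj w] at hx
  rw [← Option.some.inj hx] at h1
  exact ⟨j, hj, h1⟩

end

end Pool.Agent.GMH.TP
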