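import Pool.Agent.GMH.FoL
import Pool.Agent.GMH.RegT2
import Pool.Agent.GMH.Bef2

/-!
# GMH/RegC2: the region of the frame two and the kinds (helper77; row BEF of TWO, static part)

One law, frame `Fo F i0` (the entry `i0` is trivial), a tuple `f` with `f i0 = none` :
* `bad_none` : the trivial entry is bad only in `R0`; `no_pair` : the pair kinds of the other vertices do not occur without a
  bad top (`e2 ≤ e3`, `0 < dH`);
* `sG` : thin (`sF`) or a strong single (`sS l`, some `l`); `ns_le` : `m ≤ exp eS * q` outside the strong singles;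
* `pair_kind` : no strong single, no bad top, density `> 1 + d` : the tuple is of the pair kind `kH i0`;
* `reg2_cases` : a true pair of the region `Rg2` is in `sG` with two active tops, or in `RegB` (single strong letter, thin letter
  strong), or of a released kind of `rK2 i` with two active tops;
* `sgO2_le` : the static event of `GMH/Bef2` for `Rg2`, `rK2 i`.
-/

set_option autoImplicit false
set_option linter.unusedSectionVars false

namespace Pool.Agent.GMH.KF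

open Finset Pool.Agent.PWZ Pool.Agent.M3 Pool.Agent.GMH Pool.Agent.GMH.TP

noncomputable section

/-! ### one law -/

section one

variable {Om : Type*} [Fintype Om] {P : FP Om} {α β φ : Type*} {Z : Om → β} {Zb : Fin 3 → Om → α}
  {F : Fin 3 → Om → φ} {i0 : Fin 3}

theorem mem_Fo_none {g : Fin 3 → Option φ} (hg : g ∈ let_ (Fo F i0)) : g i0 = Option.none :=
  FoL.mem_Fn (Fintype.mem_piFinset.1 hg i0)

/-- the trivial entry can be added -/
theorem pS_add {S S' : Finset (Fin 3)} (hS : ∀ j ∈ S', j ≠ i0 → j ∈ S) (hS' : S ⊆ S') (w : Om) {g : Fin 3 → Option φ}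
    (hg : g i0 = Option.none) : pS P Z (Fo F i0) S' w g = pS P Z (Fo F i0) S w g := by
  unfold pS
  refine P.ce_congr (fun u _ => ?_) w
  congr 1
  refine propext ⟨fun h j hj => h j (hS' hj), fun h j hj => ?_⟩
  by_cases hj0 : j = i0
  · subst hj0
    rw [hg]
    exact FoL.Fn_app u
  · exact h j (hS j hj hj0)

theorem prod_add {f : Fin 3 → ℝ} (h1 : f i0 = 1) (S : Finset (Fin 3)) : ∏ j ∈ insert i0 S, f j = ∏ j ∈ S, f j := by
  classical
  by_cases h : i0 ∈ S
  · rw [Finset.insert_eq_of_mem h]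
  · rw [Finset.prod_insert h, h1, one_mul]

/-- the distance does not see the trivial entry -/
theorem tvn_add {w : Om} (hw : P.p w ≠ 0) {S : Finset (Fin 3)} (hS : i0 ∉ S) {f : Fin 3 → Option φ} (hf : f i0 = Option.none) :
    tvn P Z (Fo F i0) (insert i0 S) w f = tvn P Z (Fo F i0) S w f := by
  classical
  unfold tvn
  refine Finset.sum_congr rfl fun g hg => ?_
  have hg0 : g i0 = Option.none := mem_Fo_none hg
  have e1 : (∀ j ∈ insert i0 S, g j = f j) = (∀ j ∈ S, g j = f j) := by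
    refine propext ⟨fun h j hj => h j (Finset.mem_insert_of_mem hj), fun h j hj => ?_⟩
    rcases Finset.mem_insert.1 hj with h1 | h1
    · rw [h1, hg0, hf]
    · exact h j h1
  have e2 : pS P Z (Fo F i0) (insert i0 S) w g = pS P Z (Fo F i0) S w g :=
    pS_add (fun j hj hj0 => (Finset.mem_insert.1 hj).resolve_left hj0) (Finset.subset_insert _ _) w hg0
  have e3 : (univ \ S : Finset (Fin 3)) = insert i0 (univ \ insert i0 S) := by
    ext j
    simp only [Finset.mem_sdiff, Finset.mem_univ, true_and, Finset.mem_insert, not_or]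
    constructor
    · intro h
      by_cases hj : j = i0
      · exact Or.inl hj
      · exact Or.inr ⟨hj, h⟩
    · rintro (h | h)
      · rw [h]; exact hS
      · exact h.2
  have e4 : ∏ j ∈ univ \ S, mF P Z (Fo F i0) j w (g j) = ∏ j ∈ univ \ insert i0 S, mF P Z (Fo F i0) j w (g j) := by
    rw [e3]
    exact prod_add (f := fun j => mF P Z (Fo F i0) j w (g j)) (by
      show mF P Z (Fo F i0) i0 w (g i0) = 1
      rw [hg0]
      exact FoL.mF_Fn P F i0 Z hw) _
  rw [e1, e2, e4]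

/-- the trivial entry is bad only in `R0` -/
theorem bad_none {c : KC} (h12 : c.e1 ≤ c.e2) {w : Om} (hw : P.p w ≠ 0) {f : Fin 3 → Option φ} (hf : f i0 = Option.none)
    (hb : bad P Z (Fo F i0) c i0 w f) : Ap P Z (Fo F i0) c 1 w f := by
  have h1 := hb.2
  have e1 : tvn P Z (Fo F i0) {i0} w f = tvn P Z (Fo F i0) ∅ w f := by
    have := tvn_add (P := P) (Z := Z) (F := F) (i0 := i0) hw (S := ∅) (Finset.notMem_empty _) hf
    simpa using this
  have e2 : pS P Z (Fo F i0) {i0} w f = 1 := by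
    rw [pS_one, hf]
    exact FoL.mF_Fn P F i0 Z hw
  rw [e1, e2, mul_one] at h1
  show 2 * c.e1 ≤ tvn P Z (Fo F i0) ∅ w f
  linarith

/-- property of the pair of the vertex `j` -/
def pairP (P : FP Om) {φ' : Type*} (Z : Om → β) (G : Fin 3 → Om → φ') (c : KC) (j : Fin 3) (w : Om) (f : Fin 3 → φ') : Prop :=
  0 < pS P Z G (opp j) w f ∧ (c.dH ≤ |dens P Z G (opp j) w f - 1| ∨
    2 * c.e3 * pS P Z G (opp j) w f ≤ tvn P Z G (opp j) w f)

theorem Ap_pair {φ' : Type*} {G : Fin 3 → Om → φ'} {c : KC} (j : Fin 3) {w : Om} {f : Fin 3 → φ'} :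
    Ap P Z G c (6 + j.1) w f ↔ pairP P Z G c j w f := by
  fin_cases j <;> exact Iff.rfl

/-- the other pairs do not occur without a bad top -/
theorem no_pair {c : KC} (h23 : c.e2 ≤ c.e3) (hdH : 0 < c.dH) {w : Om} (hw : P.p w ≠ 0) {f : Fin 3 → Option φ}
    (hf : f i0 = Option.none) {j : Fin 3} (hj : j ≠ i0) (hp : pairP P Z (Fo F i0) c j w f) :
    ∃ l, l ≠ i0 ∧ bad P Z (Fo F i0) c l w f := by
  obtain ⟨l, hl, hlj, ho⟩ : ∃ l : Fin 3, l ≠ i0 ∧ l ≠ j ∧ opp j = insert i0 ({l} : Finset (Fin 3)) := by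
    have key : ∀ i0 j : Fin 3, j ≠ i0 → ∃ l : Fin 3, l ≠ i0 ∧ l ≠ j ∧ univ.erase j = insert i0 ({l} : Finset (Fin 3)) := by
      decide
    exact key i0 j hj
  have hi : i0 ∉ ({l} : Finset (Fin 3)) := fun h => hl (Finset.mem_singleton.1 h).symm
  have e1 : pS P Z (Fo F i0) (opp j) w f = pS P Z (Fo F i0) {l} w f := by
    rw [ho]
    exact pS_add (fun j' hj' hj0 => (Finset.mem_insert.1 hj').resolve_left hj0) (Finset.subset_insert _ _) w hf
  have e2 : tvn P Z (Fo F i0) (opp j) w f = tvn P Z (Fo F i0) {l} w f := by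
    rw [ho]
    exact tvn_add hw hi hf
  obtain ⟨h0, h1⟩ := hp
  rw [e1] at h0
  refine ⟨l, hl, h0, ?_⟩
  rcases h1 with h1 | h1
  · exfalso
    have e3 : ∏ k ∈ opp j, mF P Z (Fo F i0) k w (f k) = pS P Z (Fo F i0) {l} w f := by
      rw [ho, prod_add (f := fun k => mF P Z (Fo F i0) k w (f k)) (by
        show mF P Z (Fo F i0) i0 w (f i0) = 1
        rw [hf]
        exact FoL.mF_Fn P F i0 Z hw), Finset.prod_singleton, pS_one]
    have e4 : dens P Z (Fo F i0) (opp j) w f = 1 := by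
      unfold dens
      rw [e1, e3]
      exact div_self h0.ne'
    rw [e4, sub_self, abs_zero] at h1
    linarith
  · rw [e1, e2] at h1
    have h2 : 2 * c.e2 * pS P Z (Fo F i0) {l} w f ≤ 2 * c.e3 * pS P Z (Fo F i0) {l} w f :=
      mul_le_mul_of_nonneg_right (by linarith) h0.le
    exact h2.trans h1

/-- thin, or a strong single -/
def sG (P : FP Om) {φ' : Type*} (Z : Om → β) (Zb : Fin 3 → Om → α) (G : Fin 3 → Om → φ') (c : KC) (w : Om)
    (f : Fin 3 → φ') : Prop := sF P Z Zb G c w ∨ ∃ l, sS P Z Zb G c l w f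

/-- outside the strong singles the law given all thin letters is at most `exp eS` times the own law -/
theorem ns_le {φ' : Type*} {G : Fin 3 → Om → φ'} {c : KC} {l : Fin 3} {w : Om} {f : Fin 3 → φ'}
    (hs : ¬ sS P Z Zb G c l w f) (hm : 0 < mF P Z G l w (f l)) (hq : 0 < qF P Zb G l w (f l)) :
    mF P Z G l w (f l) ≤ Real.exp c.eS * qF P Zb G l w (f l) := by
  have h1 : Real.log (mF P Z G l w (f l) / qF P Zb G l w (f l)) < c.eS := by
    unfold sS at hs
    exact lt_of_le_of_lt (le_abs_self _) (not_le.1 hs)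
  rw [Real.log_lt_iff_lt_exp (div_pos hm hq), div_lt_iff₀ hq] at h1
  exact h1.le

/-- **THE PAIR KIND** -/
theorem pair_kind {c : KC} (h12 : c.e1 ≤ c.e2) (h23 : c.e2 ≤ c.e3) (hdH : 0 < c.dH) {d : ℝ}
    (hd : (1 + c.dH) * Real.exp (2 * c.eS) ≤ 1 + d) {w : Om} (hw : P.p w ≠ 0) {f : Fin 3 → Option φ}
    (hf : f i0 = Option.none) (hfm : ∀ j, 0 < mF P Z (Fo F i0) j w (f j)) (hq : ∀ j, 0 < qF P Zb (Fo F i0) j w (f j))
    (hs : ∀ j, ¬ sS P Z Zb (Fo F i0) c j w f) (h1 : ¬ Ap P Z (Fo F i0) c 1 w f)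
    (hb : ∀ j, j ≠ i0 → ¬ bad P Z (Fo F i0) c j w f)
    (hC : (1 + d) * ∏ j, qF P Zb (Fo F i0) j w (f j) < pF P Z (Fo F i0) w f) :
    kdF P Z (Fo F i0) c (kH i0) w f := by
  classical
  have hb' : ∀ j, ¬ bad P Z (Fo F i0) c j w f := fun j => by
    by_cases hj : j = i0
    · subst hj
      exact fun hh => h1 (bad_none h12 hw hf hh)
    · exact hb j hj
  have hkH : (kH i0).1 = 6 + i0.1 := by
    have key : ∀ i : Fin 3, (kH i).1 = 6 + i.1 := by decide
    exact key i0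
  -- the density of the pair
  have hu : (univ : Finset (Fin 3)) = insert i0 (opp i0) := by
    unfold opp
    rw [Finset.insert_erase (mem_univ i0)]
  have ep : pF P Z (Fo F i0) w f = pS P Z (Fo F i0) (opp i0) w f := by
    rw [← pS_univ P (Fo F i0) w f]
    exact pS_add (fun j _ hj => Finset.mem_erase.2 ⟨hj, mem_univ j⟩) (Finset.subset_univ _) w hf
  have eq : ∏ j, qF P Zb (Fo F i0) j w (f j) = ∏ j ∈ opp i0, qF P Zb (Fo F i0) j w (f j) := by
    rw [hu]
    exact prod_add (f := fun j => qF P Zb (Fo F i0) j w (f j)) (by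
      show qF P Zb (Fo F i0) i0 w (f i0) = 1
      rw [hf]
      exact FoL.qF_Fn P F i0 Zb hw) _
  have hpr : 0 < ∏ j ∈ opp i0, qF P Zb (Fo F i0) j w (f j) := Finset.prod_pos fun j _ => hq j
  have hm : ∀ j, mF P Z (Fo F i0) j w (f j) ≤ Real.exp c.eS * qF P Zb (Fo F i0) j w (f j) := fun j =>
    ns_le (hs j) (hfm j) (hq j)
  have hmp : ∏ j ∈ opp i0, mF P Z (Fo F i0) j w (f j) ≤
      Real.exp (2 * c.eS) * ∏ j ∈ opp i0, qF P Zb (Fo F i0) j w (f j) := by
    refine (Finset.prod_le_prod (fun j _ => mF_nn P (Fo F i0) j w (f j)) fun j _ => hm j).trans (le_of_eq ?_)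
    have hc : (opp i0).card = 2 := by
      have key : ∀ i : Fin 3, (univ.erase i : Finset (Fin 3)).card = 2 := by decide
      exact key i0
    rw [Finset.prod_mul_distrib, Finset.prod_const, hc, ← Real.exp_nat_mul]
    push_cast
    rfl
  have hd1 : 0 < 1 + c.dH := by linarith
  have hbig : (1 + c.dH) * ∏ j ∈ opp i0, mF P Z (Fo F i0) j w (f j) < pS P Z (Fo F i0) (opp i0) w f := by
    rw [← ep]
    refine lt_of_le_of_lt ?_ hC
    rw [eq]
    calc (1 + c.dH) * ∏ j ∈ opp i0, mF P Z (Fo F i0) j w (f j) ≤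
        (1 + c.dH) * (Real.exp (2 * c.eS) * ∏ j ∈ opp i0, qF P Zb (Fo F i0) j w (f j)) :=
          mul_le_mul_of_nonneg_left hmp hd1.le
      _ = ((1 + c.dH) * Real.exp (2 * c.eS)) * ∏ j ∈ opp i0, qF P Zb (Fo F i0) j w (f j) := by ring
      _ ≤ _ := mul_le_mul_of_nonneg_right hd hpr.le
  have hmn : 0 ≤ ∏ j ∈ opp i0, mF P Z (Fo F i0) j w (f j) := Finset.prod_nonneg fun j _ => mF_nn P (Fo F i0) j w (f j)
  have hps : 0 < pS P Z (Fo F i0) (opp i0) w f := lt_of_le_of_lt (mul_nonneg hd1.le hmn) hbig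
  have hmpos : 0 < ∏ j ∈ opp i0, mF P Z (Fo F i0) j w (f j) := by
    refine Finset.prod_pos fun j hj => ?_
    have h2 : pS P Z (Fo F i0) (opp i0) w f ≤ pS P Z (Fo F i0) {j} w f :=
      pS_anti P (Fo F i0) (Finset.singleton_subset_iff.2 hj) w f
    rw [pS_one] at h2
    linarith
  have hdn : c.dH ≤ |dens P Z (Fo F i0) (opp i0) w f - 1| := by
    refine le_trans ?_ (le_abs_self _)
    have h2 : 1 + c.dH ≤ dens P Z (Fo F i0) (opp i0) w f := by
      unfold dens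
      rw [le_div_iff₀ hmpos]
      exact hbig.le
    linarith
  refine ⟨?_, fun j hj => ?_⟩
  · rw [hkH, Ap_pair]
    exact ⟨hps, Or.inl hdn⟩
  · rw [hkH] at hj
    have hi := i0.2
    intro hA
    have hj5 : j < 6 ∨ ∃ l : Fin 3, l ≠ i0 ∧ j = 6 + l.1 := by
      by_cases h6 : j < 6
      · exact Or.inl h6
      · refine Or.inr ⟨⟨j - 6, by omega⟩, fun hh => ?_, ?_⟩
        · have := congrArg Fin.val hh
          simp only at this
          omega
        · show j = 6 + (j - 6)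
          omega
    rcases hj5 with h6 | ⟨l, hl, rfl⟩
    · have h7 : j = 0 ∨ j = 1 ∨ j = 2 ∨ j = 3 ∨ j = 4 ∨ j = 5 := by omega
      rcases h7 with rfl | rfl | rfl | rfl | rfl | rfl
      · exact hA
      · exact h1 hA
      · exact hb' 0 hA.1
      · exact hb' 1 hA.1
      · exact hb' 2 hA.1
      · rcases hA with hA | hA | hA
        · exact hb' 0 hA.1
        · exact hb' 0 hA.1
        · exact hb' 1 hA.1
    · obtain ⟨l', hl', hbad⟩ := no_pair h23 hdH hw hf hl ((Ap_pair l).1 hA)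
      exact hb' l' hbad

end one

end

end Pool.Agent.GMH.KF

namespace Pool.Agent.GMH.TRF

open Finset Pool.Agent.PWZ Pool.Agent.M3 Pool.Agent.GM Pool.Agent.GM.Harm Pool.Agent.GMH Pool.Agent.GMH.NZ
open Pool.Agent.GMH.V3 Pool.Agent.GMH.TP Pool.Agent.GMH.TD Pool.Agent.GMH.Dy Pool.Agent.GMH.MV Pool.Agent.GMH.MVI
open Pool.Agent.GMH.UV Pool.Agent.GMH.KF Pool.Agent.GMH.CK

noncomputable section

/-! ### the region -/

variable {X β γ φ : Type} [Fintype X] [Fintype β] [Fintype φ] [Nonempty X] [Nonempty β]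
variable {D : HD (Fin 3) X β γ φ} {al : ℝ} (h : D.Thick al) {prr : ℕ → Fin 3 → φ → φ} {T : ℕ} {W : Type} [Fintype W]
variable (tb : Tab D prr T W) (v : ℕ → Finset (Fin 3) → X → (Fin 3 → β) → Pt (Fin 3) X β φ)

/-- the other two vertices are all vertices `≠ i` -/
theorem oth2 {i j k : Fin 3} (hj : j ≠ i) (hk : k ≠ i) (hjk : j ≠ k) {l : Fin 3} (hl : l ≠ i) : l = j ∨ l = k := by
  have key : ∀ i j k l : Fin 3, j ≠ i → k ≠ i → j ≠ k → l ≠ i → l = j ∨ l = k := by decide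
  exact key i j k l hj hk hjk hl

variable {v} in
/-- the own probability of the true letter of the frame -/
theorem q_ge {dg : ℕ → X → ℝ} {Lam : ℝ} (H : D.Hyp dg prr al T Lam) {N : Finset (Fin 3) → ℝ}
    (R : Run h N (SS1 (Fin 3)) (AdmDep D) v) (hN : ∀ l : Fin 3, 0 < N (univ.erase l)) {t q : ℕ} (ht : t ≤ T)
    (hq : 5 * t ≤ q) (i j : Fin 3) {w : Pt (Fin 3) X β φ} (hw : (D.P h t).p w ≠ 0) :
    Real.exp (-Lam) ≤ qF (D.P h t) (ZbQ D v q) (Fo (FQ v t) i) j w (tup (Fo (FQ v t) i) w j) := by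
  by_cases hj : j = i
  · subst hj
    rw [Fo_none t w, FoL.qF_Fn (D.P h t) (FQ v t) j (ZbQ D v q) hw]
    have := H.Lam1
    exact Real.exp_le_one_iff.2 (by linarith)
  · rw [Fo_some t hj w, FoL.qF_Fo (D.P h t) (FQ v t) i (ZbQ D v q) hj]
    have h1 := spF_le H R hN ht hq j hw
    have h2 : qF (D.P h t) (ZbQ D v q) (FQ v t) j w (FQ v t j w) =
        (D.P h t).m (fun u => (FQ v t j u, ZbQ D v q j u)) w / (D.P h t).m (ZbQ D v q j) w :=
      (D.P h t).pv_self (ZbQ D v q j) (FQ v t j) w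
    have m1 := (D.P h t).m_pos (ZbQ D v q j) hw
    have m2 := (D.P h t).m_pos (fun u => (FQ v t j u, ZbQ D v q j u)) hw
    rw [h2]
    have h3 : (D.P h t).m (fun u => (FQ v t j u, ZbQ D v q j u)) w / (D.P h t).m (ZbQ D v q j) w =
        Real.exp (-sp (D.P h t) (FQ v t j) (ZbQ D v q j) w) := by
      unfold sp
      rw [neg_sub, Real.exp_sub, Real.exp_log m1, Real.exp_log m2]
    rw [h3]
    exact Real.exp_le_exp.2 (by linarith)

variable {v} in
/-- **THE CASES OF THE REGION OF THE FRAME TWO** -/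
theorem reg2_cases {t : ℕ} {c : KC} {r : RC} {e : ℝ} (he0 : 0 ≤ e) (hB : 1 + e ≤ r.B) (hee : e ≤ r.e1) (h12 : c.e1 ≤ c.e2)
    (h23 : c.e2 ≤ c.e3) (hdH : 0 < c.dH) (hd : (1 + c.dH) * Real.exp (2 * c.eS) ≤ 1 + r.d) (i : Fin 3) (b : Bool)
    {w : Pt (Fin 3) X β φ} (hw : (D.P h t).p w ≠ 0) (hR : Rg2 h v c r i b t w (tup (Fo (FQ v t) i) w)) :
    (sG (D.P h t) (ZQ D v (qs (s2 b) t)) (ZbQ D v (qs (s2 b) t)) (Fo (FQ v t) i) c w (tup (Fo (FQ v t) i) w) ∧
      ∀ j, j ≠ i → e < |rS h v (s2 b) t j w (FQ v t j w) - 1|) ∨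
    RegB (D.P h t) (ZQ D v (qs (s2 b) t)) (ZbQ D v (qs (s2 b) t)) (Fo (FQ v t) i) (ZbQ D v (qe (s2 b) t)) r w
      (tup (Fo (FQ v t) i) w) ∨
    ∃ k ∈ rK2 i, rel2 h v c r.B i (rK2 i) b t k w (tup (Fo (FQ v t) i) w) ∧
      ∀ j, j ≠ i → e < |rS h v (s2 b) t j w (FQ v t j w) - 1| := by
  classical
  have hB1 : 1 ≤ r.B := by linarith
  -- ratios above one are at visible tops
  have hvis : ∀ j, 1 < rS2 h v i (s2 b) t j w (tup (Fo (FQ v t) i) w j) → j ≠ i := by
    rintro j hj rfl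
    exact absurd hj (not_lt.2 (rS2_self (s2 b) t hw _))
  have hrS : ∀ j, j ≠ i → rS2 h v i (s2 b) t j w (tup (Fo (FQ v t) i) w j) = rS h v (s2 b) t j w (FQ v t j w) := by
    intro j hj
    rw [Fo_some t hj w, rS2_some _ _ hj]
  have hact : ∀ {x : ℝ}, 1 + e < x → e < |x - 1| := fun {x} hx => lt_of_lt_of_le (by linarith) (le_abs_self _)
  have hmem5 : ∀ k : Fin 10, k = 1 ∨ k = 2 ∨ k = 3 ∨ k = 4 ∨ k = 5 → k ∈ rK2 i := by
    intro k hk
    unfold rK2
    simp only [Finset.mem_insert, Finset.mem_singleton]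
    tauto
  -- a strong bad top gives a released kind
  have hbadk : ∀ j, j ≠ i → r.B < rS h v (s2 b) t j w (FQ v t j w) →
      bad (D.P h t) (ZQ D v (qs (s2 b) t)) (Fo (FQ v t) i) c j w (tup (Fo (FQ v t) i) w) →
      ∃ k ∈ rK2 i, rel2 h v c r.B i (rK2 i) b t k w (tup (Fo (FQ v t) i) w) := by
    intro j hj hsj hbj
    have hk := bad_kd hbj
    have hact2 : ∀ k, act2 h v c r.B i b t k w (tup (Fo (FQ v t) i) w) := fun k =>
      (act2_true b t k w).2 (Or.inr ⟨j, hj, Or.inr hbj, hsj⟩)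
    rcases hk with hk | hk | hk | hk | hk
    · exact ⟨1, hmem5 1 (by tauto), hmem5 1 (by tauto), hk, hact2 1⟩
    · exact ⟨2, hmem5 2 (by tauto), hmem5 2 (by tauto), hk, hact2 2⟩
    · exact ⟨3, hmem5 3 (by tauto), hmem5 3 (by tauto), hk, hact2 3⟩
    · exact ⟨4, hmem5 4 (by tauto), hmem5 4 (by tauto), hk, hact2 4⟩
    · exact ⟨5, hmem5 5 (by tauto), hmem5 5 (by tauto), hk, hact2 5⟩
  rcases hR with ⟨j, k, hkj, hsj, hbd, hrk⟩ | hRB | ⟨j, k, hjk, hsj, hsk, hC⟩
  · -- (A)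
    have hsj' : r.B < rS2 h v i (s2 b) t j w (tup (Fo (FQ v t) i) w j) := hsj
    have hrk' : 1 + r.e1 < rS2 h v i (s2 b) t k w (tup (Fo (FQ v t) i) w k) := hrk
    have hj : j ≠ i := hvis j (by linarith)
    have hk : k ≠ i := hvis k (by linarith)
    rw [hrS j hj] at hsj'
    rw [hrS k hk] at hrk'
    have hfin : ∀ l, l ≠ i → e < |rS h v (s2 b) t l w (FQ v t l w) - 1| := by
      intro l hl
      rcases oth2 hj hk hkj.symm hl with rfl | rfl
      · exact hact (by linarith)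
      · exact hact (by linarith)
    rcases hbd with h1 | h1
    · exact Or.inl ⟨Or.inl h1, hfin⟩
    · have hbj : bad (D.P h t) (ZQ D v (qs (s2 b) t)) (Fo (FQ v t) i) c j w (tup (Fo (FQ v t) i) w) :=
        (bad_letter (D.P h t) (Fo (FQ v t) i) c j w (f := fun _ => tup (Fo (FQ v t) i) w j)
          (g := tup (Fo (FQ v t) i) w) rfl).1 h1
      obtain ⟨kk, hkk, hrel⟩ := hbadk j hj hsj' hbj
      exact Or.inr (Or.inr ⟨kk, hkk, hrel, hfin⟩)
  · exact Or.inr (Or.inl hRB)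
  · -- (C)
    have hsj' : r.B < rS2 h v i (s2 b) t j w (tup (Fo (FQ v t) i) w j) := hsj
    have hsk' : r.B < rS2 h v i (s2 b) t k w (tup (Fo (FQ v t) i) w k) := hsk
    have hj : j ≠ i := hvis j (by linarith)
    have hk : k ≠ i := hvis k (by linarith)
    rw [hrS j hj] at hsj'
    rw [hrS k hk] at hsk'
    have hstr : ∀ l, l ≠ i → r.B < rS h v (s2 b) t l w (FQ v t l w) := by
      intro l hl
      rcases oth2 hj hk hjk hl with rfl | rfl
      · exact hsj'
      · exact hsk'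
    have hfin : ∀ l, l ≠ i → e < |rS h v (s2 b) t l w (FQ v t l w) - 1| := fun l hl => hact (by linarith [hstr l hl])
    by_cases hs : ∃ l, sS (D.P h t) (ZQ D v (qs (s2 b) t)) (ZbQ D v (qs (s2 b) t)) (Fo (FQ v t) i) c l w
        (tup (Fo (FQ v t) i) w)
    · exact Or.inl ⟨Or.inr hs, hfin⟩
    push Not at hs
    right; right
    by_cases h1 : Ap (D.P h t) (ZQ D v (qs (s2 b) t)) (Fo (FQ v t) i) c 1 w (tup (Fo (FQ v t) i) w)
    · have hk1 : kdF (D.P h t) (ZQ D v (qs (s2 b) t)) (Fo (FQ v t) i) c 1 w (tup (Fo (FQ v t) i) w) := by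
        obtain ⟨k', hk', hd'⟩ := Ap_kd (k := 1) h1
        have key : ∀ k' : Fin 10, k' ≤ 1 → k' = 0 ∨ k' = 1 := by decide
        rcases key k' hk' with rfl | rfl
        · exact absurd hd'.1 (fun hh => hh)
        · exact hd'
      exact ⟨1, hmem5 1 (by tauto), ⟨hmem5 1 (by tauto), hk1, (act2_true b t 1 w).2 (Or.inl rfl)⟩, hfin⟩
    · by_cases hb : ∃ l, l ≠ i ∧ bad (D.P h t) (ZQ D v (qs (s2 b) t)) (Fo (FQ v t) i) c l w (tup (Fo (FQ v t) i) w)
      · obtain ⟨l, hl, hbl⟩ := hb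
        obtain ⟨kk, hkk, hrel⟩ := hbadk l hl (hstr l hl) hbl
        exact ⟨kk, hkk, hrel, hfin⟩
      · push Not at hb
        have hkd := pair_kind (P := D.P h t) (Z := ZQ D v (qs (s2 b) t)) (Zb := ZbQ D v (qs (s2 b) t)) (F := FQ v t)
          (i0 := i) h12 h23 hdH hd hw (Fo_none t w) (fun j => (D.P h t).pv_self_pos _ _ hw)
          (fun j => (D.P h t).pv_self_pos _ _ hw) hs h1 hb hC
        have hmem : kH i ∈ rK2 i := by
          unfold rK2
          simp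
        refine ⟨kH i, hmem, ⟨hmem, hkd, (act2_true b t (kH i) w).2 (Or.inr ⟨j, hj, Or.inl rfl, hsj'⟩)⟩, hfin⟩

/-! ### the static event of `GMH/Bef2` -/

theorem s2_sO {q : ℕ} (hq : stO2 q) : s2 (b2 q) = sO q := by
  rcases hq with h1 | h1
  · have e1 : b2 q = false := by unfold b2; rw [if_pos h1]
    rw [e1, sO_v1 h1]
    rfl
  · have e1 : b2 q = true := by unfold b2; rw [if_neg (by omega)]
    rw [e1, sO_v4 h1]
    rfl

variable (c : KC) (r : RC) (i : Fin 3) (A : Bool → ℕ → Pt (Fin 3) X β φ → Prop)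

/-- the static event: thin points or strong singles with two active tops, and single strong letters -/
def stB2 (e : ℝ) (q : ℕ) (w : Om W X β) : Prop := stO2 q ∧ aO2 tb A q w ∧ rgO2 tb v i (Rg2 h v c r i) q w ∧
  ((sG (D.P h (q / 5)) (ZQ D v (qs (sO q) (q / 5))) (ZbQ D v (qs (sO q) (q / 5))) (Fo (FQ v (q / 5)) i) c (tb.pt (q / 5) w)
      (tup (Fo (FQ v (q / 5)) i) (tb.pt (q / 5) w)) ∧ ac2 h tb v i e q w) ∨
    RegB (D.P h (q / 5)) (ZQ D v (qs (sO q) (q / 5))) (ZbQ D v (qs (sO q) (q / 5))) (Fo (FQ v (q / 5)) i)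
      (ZbQ D v (qe (sO q) (q / 5))) r (tb.pt (q / 5) w) (tup (Fo (FQ v (q / 5)) i) (tb.pt (q / 5) w)))

variable {v c r i A} in
/-- **THE STATIC PART OF THE UNRELEASED SUM** -/
theorem sgO2_le {e : ℝ} (he0 : 0 ≤ e) (hB : 1 + e ≤ r.B) (hee : e ≤ r.e1) (h12 : c.e1 ≤ c.e2) (h23 : c.e2 ≤ c.e3)
    (hdH : 0 < c.dH) (hd : (1 + c.dH) * Real.exp (2 * c.eS) ≤ 1 + r.d) {q : ℕ}
    (hq : q / 5 ≤ T) : tb.Ps.Pr (sgO2 h tb v c r.B i (rK2 i) A (Rg2 h v c r i) e q) ≤ tb.Ps.Pr (stB2 h tb v c r i A e q) := by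
  refine tb.Ps.Pr_mono fun w hw hh => ?_
  obtain ⟨hs, ha, hR, hn⟩ := hh
  have hp : (D.P h (q / 5)).p (tb.pt (q / 5) w) ≠ 0 := (pul_pt h tb hq).ne hw
  have hq5 : q % 5 ≠ 0 := by
    rcases hs with h1 | h1 <;> omega
  have e1 := s2_sO hs
  rcases reg2_cases h he0 hB hee h12 h23 hdH hd i (b2 q) hp hR with ⟨h1, hact⟩ | h1 | ⟨k, hk, hrel, hact⟩
  · rw [e1] at h1
    refine ⟨hs, ha, hR, Or.inl ⟨h1, fun j hj => ⟨hq5, ?_⟩⟩⟩
    have h2 := hact j hj
    rw [e1] at h2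
    exact h2
  · rw [e1] at h1
    exact ⟨hs, ha, hR, Or.inr h1⟩
  · refine absurd ⟨k, hk, hrel, fun j hj => ⟨hq5, ?_⟩⟩ hn
    have h2 := hact j hj
    rw [e1] at h2
    exact h2

end

end Pool.Agent.GMH.TRF
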