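import Pool.Agent.GMH.UnrD2

/-!
# GMH/RegDh: the region (d) at the true triple, three tops (helper77)

* `hot3` : `hotF` at the true letters of the tops `j`, `k` is `hotQ` of the third vertex, if `m_l ≤ s q_l`;
* `regD_hot` : the region (d) at the true triple: a thin strong point, and either a strong single of a rising top, or a vertex
  `i` with a hot pair (`GMH/HotK`, level `log E`) and a top `j ≠ i` which rises `> 1 + e3`;
* `rd3_cases` : the same for the substeps of a run (`Rd3` of `GMH/RegD`), with `ssO`, `hotq`, `rtO`.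
-/

set_option autoImplicit false
set_option linter.unusedSectionVars false

namespace Pool.Agent.GMH.KF

open Finset Pool.Agent.PWZ Pool.Agent.M3 Pool.Agent.GMH

noncomputable section

variable {Om : Type*} [Fintype Om] {P : FP Om} {α β γ φ : Type*} {Z : Om → β} {Zb : Fin 3 → Om → α}
  {F : Fin 3 → Om → φ} {Y : Fin 3 → Om → γ}

/-- a hot pair of true letters -/
theorem hot3 {E s : ℝ} (hE : 0 < E) {i j k : Fin 3} (hj : j ≠ i) (hk : k ≠ i) (hjk : j ≠ k) {w : Om} (hw : P.p w ≠ 0)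
    (hs : ∀ l, l ≠ i → mF P Z F l w (F l w) ≤ s * qF P Zb F l w (F l w))
    (hh : hotF P Z Zb F E j k w (F j w) (F k w)) : hotQ P Z Zb F (Real.log E) s i w (tup F w) := by
  have ho : opp i = {j, k} := by
    have key : ∀ i j k : Fin 3, j ≠ i → k ≠ i → j ≠ k → univ.erase i = ({j, k} : Finset (Fin 3)) := by decide
    exact key i j k hj hk hjk
  unfold hotF at hh
  rw [mF2_pS] at hh
  refine ⟨fun l hl => ⟨true_q P F hw l, hs l (Finset.ne_of_mem_erase hl)⟩, ?_⟩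
  rw [ho, Real.exp_log hE, Finset.prod_pair hjk]
  exact hh.le

/-- **REGION (d) AT THE TRUE TRIPLE** -/
theorem regD_hot {c : KC} {B E e3 s : ℝ} (hE : 0 < E) (hs1 : Real.exp c.eS ≤ s) {w : Om} (hw : P.p w ≠ 0)
    (hR : RegD P Z Zb F Y B E e3 w (tup F w)) :
    (∃ j, B < tF P Z Zb Y j w) ∧ ((∃ i, hotQ P Z Zb F (Real.log E) s i w (tup F w) ∧
      ∃ j, j ≠ i ∧ 1 + e3 < rF P Zb F Y j w (F j w)) ∨
      ∃ l, sS P Z Zb F c l w (tup F w) ∧ 1 + e3 < rF P Zb F Y l w (F l w)) := by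
  classical
  obtain ⟨hss, _, j, k, hjk, hhot, hrj, hrk⟩ := hR
  refine ⟨hss, ?_⟩
  by_cases h1 : sS P Z Zb F c j w (tup F w)
  · exact Or.inr ⟨j, h1, hrj⟩
  by_cases h2 : sS P Z Zb F c k w (tup F w)
  · exact Or.inr ⟨k, h2, hrk⟩
  obtain ⟨i, hji, hki⟩ : ∃ i : Fin 3, j ≠ i ∧ k ≠ i := by
    have key : ∀ j k : Fin 3, j ≠ k → ∃ i : Fin 3, j ≠ i ∧ k ≠ i := by decide
    exact key j k hjk
  refine Or.inl ⟨i, hot3 hE hji hki hjk hw (fun l hl => ?_) hhot, j, hji, hrj⟩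
  have hlk : l = j ∨ l = k := by
    have key : ∀ i j k l : Fin 3, j ≠ i → k ≠ i → j ≠ k → l ≠ i → l = j ∨ l = k := by decide
    exact key i j k l hji hki hjk hl
  rcases hlk with rfl | rfl
  · exact mq_le hs1 hw h1
  · exact mq_le hs1 hw h2

end

end Pool.Agent.GMH.KF

namespace Pool.Agent.GMH.TRF

open Finset Pool.Agent.PWZ Pool.Agent.M3 Pool.Agent.GM Pool.Agent.GM.Harm Pool.Agent.GMH Pool.Agent.GMH.NZ
open Pool.Agent.GMH.V3 Pool.Agent.GMH.TP Pool.Agent.GMH.TD Pool.Agent.GMH.Dy Pool.Agent.GMH.MV Pool.Agent.GMH.MVI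
open Pool.Agent.GMH.UV Pool.Agent.GMH.KF Pool.Agent.GMH.CK

noncomputable section

variable {X β γ φ : Type} [Fintype X] [Fintype β] [Fintype φ] [Nonempty X] [Nonempty β]
variable {D : HD (Fin 3) X β γ φ} {al : ℝ} (h : D.Thick al) {prr : ℕ → Fin 3 → φ → φ} {T : ℕ} {W : Type} [Fintype W]
variable (tb : Tab D prr T W) {v : ℕ → Finset (Fin 3) → X → (Fin 3 → β) → Pt (Fin 3) X β φ}

/-- own probability of the true letter, three tops -/
theorem q3_ge {dg : ℕ → X → ℝ} {Lam : ℝ} (H : D.Hyp dg prr al T Lam) {N : Finset (Fin 3) → ℝ}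
    (R : Run h N (SS1 (Fin 3)) (AdmDep D) v) (hN : ∀ l : Fin 3, 0 < N (univ.erase l)) {t q : ℕ} (ht : t ≤ T)
    (hq : 5 * t ≤ q) (l : Fin 3) {w : Pt (Fin 3) X β φ} (hw : (D.P h t).p w ≠ 0) :
    Real.exp (-Lam) ≤ qF (D.P h t) (ZbQ D v q) (FQ v t) l w (FQ v t l w) := by
  obtain ⟨i, hi⟩ : ∃ i : Fin 3, l ≠ i := by
    have key : ∀ l : Fin 3, ∃ i : Fin 3, l ≠ i := by decide
    exact key l
  have h1 := q_ge h H R hN ht hq i l hw
  rwa [Fo_some t hi w, FoL.qF_Fo (D.P h t) (FQ v t) i (ZbQ D v q) hi] at h1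

/-- **THE REGION (d) AT THE TRUE TRIPLE**, substeps `q % 5 = 1, 4` -/
theorem rd3_cases {c : KC} {B E s e3 : ℝ} (hE : 0 < E) (hs : Real.exp c.eS ≤ s) {q : ℕ} (hq : q / 5 ≤ T)
    (hst : q % 5 = 1 ∨ q % 5 = 4) {w : Om W X β} (hw : tb.Ps.p w ≠ 0)
    (hR : Rd3 h v B E e3 (sO q) (q / 5) (tb.pt (q / 5) w) (tup (FQ v (q / 5)) (tb.pt (q / 5) w))) :
    ssO h tb v B q w ∧ ((∃ i, hotq h v tb i (Real.log E) s q w ∧ ∃ j, j ≠ i ∧ 1 + e3 < rtO h tb v j q w) ∨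
      ∃ l, sSO h tb v c l q w ∧ 1 + e3 < rtO h tb v l q w) := by
  have hp : (D.P h (q / 5)).p (tb.pt (q / 5) w) ≠ 0 := (pul_pt h tb hq).ne hw
  have e2 : qs (sO q) (q / 5) = q := by
    rw [← s2_sO hst]
    exact qs_s2 hst
  have hR' : RegD (D.P h (q / 5)) (ZQ D v q) (ZbQ D v q) (FQ v (q / 5)) (ZbQ D v (qe (sO q) (q / 5))) B E e3
      (tb.pt (q / 5) w) (tup (FQ v (q / 5)) (tb.pt (q / 5) w)) := by
    have := hR
    unfold Rd3 at this
    rw [e2] at this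
    exact this
  obtain ⟨h1, h2⟩ := regD_hot (c := c) (s := s) hE hs hp hR'
  have hrt : ∀ j, 1 + e3 < rF (D.P h (q / 5)) (ZbQ D v q) (FQ v (q / 5)) (ZbQ D v (qe (sO q) (q / 5))) j (tb.pt (q / 5) w)
      (FQ v (q / 5) j (tb.pt (q / 5) w)) → 1 + e3 < rtO h tb v j q w := fun j hj => by
    unfold rtO rS
    rw [e2]
    exact hj
  refine ⟨h1, ?_⟩
  rcases h2 with ⟨i, hi, j, hj, hr⟩ | ⟨l, hs', hr⟩
  · exact Or.inl ⟨i, hi, j, hj, hrt j hr⟩
  · exact Or.inr ⟨l, hs', hrt l hr⟩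

end

end Pool.Agent.GMH.TRF
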