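import Pool.Agent.GMH.RegT
import Pool.Agent.GMH.KinMs

/-!
# GMH/RegK (helper55): THE REGION OF THE CUT AND THE KINDS (row C7 of H3.LEAN, statics of the unreleased tuples)

Frame of `GMH/KinF`, `RegT` of `GMH/RegT`; `r i` = ratio of the letter of the top `i`.
* `bp i j` : the pair of the tops `i`, `j` is bad; `wkH i a` : relation of a weak top `a` with the top `i` (a is bad, or `i` is not
  bad and the pair is bad, or the other pair is not bad and the density is high); `Wk i` : `i` strong, some `a ≠ i` with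
  `r a ≤ B` and `wkH i a`;
* `reg_class` : a tuple of the region is thin (`sF`), single (`sS`), weak (`Wk i`), or of a kind with active faces (`AC`);
* `wk_mass` : given the strong letter of `i`, the relation `wkH i a` has mass at most `kap c` under the marginal of `a`;
* `wk_le` : the weak tuples in the mean: `B (kap c + 2 eF) P (A, i and b strong) + E (A, RowN2 i b a)` summed, `RowN2 i b a` =
  distance of the new row of the two strong letters from the product with the weak top.
-/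

set_option autoImplicit false
set_option linter.unusedSectionVars false

namespace Pool.Agent.GMH.KF

open Finset Pool.Agent.PWZ Pool.Agent.M3 Pool.Agent.GMH

noncomputable section

variable {Om : Type*} [Fintype Om] (P : FP Om) {α β γ φ ν : Type*} {Z : Om → β} {Zb : Fin 3 → Om → α}
  (F : Fin 3 → Om → φ) {Y : Fin 3 → Om → γ} {V : Om → ν}

/-! ### sums over the tuples -/

/-- the tuple with the letters `x`, `y`, `z` at `i`, `j` and the third top -/
def tp (i j : Fin 3) (x y z : φ) : Fin 3 → φ := fun k => if k = i then x else if k = j then y else z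

theorem tp_i {i j : Fin 3} (x y z : φ) : tp i j x y z i = x := if_pos rfl

theorem tp_j {i j : Fin 3} (h : i ≠ j) (x y z : φ) : tp i j x y z j = y := by
  unfold tp
  rw [if_neg h.symm, if_pos rfl]

theorem tp_l {i j l : Fin 3} (h : i ≠ l) (h' : j ≠ l) (x y z : φ) : tp i j x y z l = z := by
  unfold tp
  rw [if_neg h.symm, if_neg h'.symm]

theorem fin3_l {i j l k : Fin 3} (hij : i ≠ j) (hil : i ≠ l) (hjl : j ≠ l) (h1 : k ≠ i) (h2 : k ≠ j) : k = l := by
  have a := Fin.val_ne_of_ne hij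
  have b := Fin.val_ne_of_ne hil
  have c := Fin.val_ne_of_ne hjl
  have d := Fin.val_ne_of_ne h1
  have e := Fin.val_ne_of_ne h2
  refine Fin.ext ?_
  omega

theorem tp_self {i j l : Fin 3} (hij : i ≠ j) (hil : i ≠ l) (hjl : j ≠ l) (f : Fin 3 → φ) :
    tp i j (f i) (f j) (f l) = f := by
  funext k
  unfold tp
  by_cases h1 : k = i
  · rw [if_pos h1, h1]
  · by_cases h2 : k = j
    · rw [if_neg h1, if_pos h2, h2]
    · rw [if_neg h1, if_neg h2, fin3_l hij hil hjl h1 h2]

/-- **sums over the tuples, letter by letter** -/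
theorem sum3 {i j l : Fin 3} (hij : i ≠ j) (hil : i ≠ l) (hjl : j ≠ l) (G : (Fin 3 → φ) → ℝ) :
    ∑ f ∈ let_ F, G f = ∑ x ∈ vals (F i), ∑ y ∈ vals (F j), ∑ z ∈ vals (F l), G (tp i j x y z) := by
  classical
  have h1 : ∑ f ∈ let_ F, G f = ∑ t ∈ vals (F i) ×ˢ (vals (F j) ×ˢ vals (F l)), G (tp i j t.1 t.2.1 t.2.2) := by
    refine Finset.sum_bij' (fun f _ => (f i, f j, f l)) (fun t _ => tp i j t.1 t.2.1 t.2.2) ?_ ?_ ?_ ?_ ?_
    · intro f hf
      have hf' := Fintype.mem_piFinset.1 hf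
      simp only [Finset.mem_product]
      exact ⟨hf' i, hf' j, hf' l⟩
    · intro t ht
      simp only [Finset.mem_product] at ht
      refine Fintype.mem_piFinset.2 fun k => ?_
      by_cases h1 : k = i
      · subst h1; rw [tp_i]; exact ht.1
      · by_cases h2 : k = j
        · subst h2; rw [tp_j hij]; exact ht.2.1
        · obtain rfl := fin3_l hij hil hjl h1 h2
          rw [tp_l hil hjl]; exact ht.2.2
    · intro f _
      exact tp_self hij hil hjl f
    · intro t _
      show (tp i j t.1 t.2.1 t.2.2 i, tp i j t.1 t.2.1 t.2.2 j, tp i j t.1 t.2.1 t.2.2 l) = t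
      rw [tp_i, tp_j hij, tp_l hil hjl]
    · intro f _
      show G f = G (tp i j (f i) (f j) (f l))
      rw [tp_self hij hil hjl]
  rw [h1, Finset.sum_product]
  exact Finset.sum_congr rfl fun x _ => by rw [Finset.sum_product]

/-! ### masses given one letter -/

section mass

variable {w : Om} (hw : P.p w ≠ 0)

include hw in
/-- the mean of the distances of `pS`, letters of `S0` fixed -/
theorem pS_meanx {S0 S : Finset (Fin 3)} (hS : S0 ⊆ S) (f0 : Fin 3 → φ) :
    ∑ f ∈ let_ F, ind (∀ i ∈ S0, f i = f0 i) * (mS P F Z S w f * |pS P Z F S w f - ∏ i ∈ S, mF P Z F i w (f i)|) ≤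
      ∑ g ∈ let_ F, ind (∀ i ∈ S0, g i = f0 i) * |pF P Z F w g - ∏ i, mF P Z F i w (g i)| := by
  have h1 : ∑ f ∈ let_ F, ind (∀ i ∈ S0, f i = f0 i) * (mS P F Z S w f *
      |pS P Z F S w f - ∏ i ∈ S, mF P Z F i w (f i)|) ≤
      ∑ f ∈ let_ F, ∑ g ∈ let_ F, (ind (∀ i ∈ S, g i = f i) * mS P F Z S w f) *
        (ind (∀ i ∈ S0, g i = f0 i) * |pF P Z F w g - ∏ i, mF P Z F i w (g i)|) := by
    refine Finset.sum_le_sum fun f hf => ?_
    refine (mul_le_mul_of_nonneg_left (mul_le_mul_of_nonneg_left (pS_dist P F S hw hf) (mS_nn P F S w f))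
      (ind_nonneg _)).trans (le_of_eq ?_)
    rw [Finset.mul_sum, Finset.mul_sum]
    refine Finset.sum_congr rfl fun g _ => ?_
    by_cases h : ∀ i ∈ S, g i = f i
    · have e : (∀ i ∈ S0, f i = f0 i) = (∀ i ∈ S0, g i = f0 i) := propext
        ⟨fun hh i hi => (h i (hS hi)).trans (hh i hi), fun hh i hi => (h i (hS hi)).symm.trans (hh i hi)⟩
      rw [e]
      ring
    · rw [ind_not h]
      ring
  refine h1.trans ?_
  rw [Finset.sum_comm]
  refine le_of_eq (Finset.sum_congr rfl fun g hg => ?_)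
  rw [← Finset.sum_mul, one_S P F S hw hg, one_mul]

include hw in
/-- the mean of `tvn S`, letters of `S0` fixed -/
theorem tvn_meanx {S0 S : Finset (Fin 3)} (hS : S0 ⊆ S) (f0 : Fin 3 → φ) :
    ∑ f ∈ let_ F, ind (∀ i ∈ S0, f i = f0 i) * (mS P F Z S w f * tvn P Z F S w f) ≤
      2 * ∑ g ∈ let_ F, ind (∀ i ∈ S0, g i = f0 i) * |pF P Z F w g - ∏ i, mF P Z F i w (g i)| := by
  have h1 : ∑ f ∈ let_ F, ind (∀ i ∈ S0, f i = f0 i) * (mS P F Z S w f * tvn P Z F S w f) =
      ∑ g ∈ let_ F, ind (∀ i ∈ S0, g i = f0 i) * |pF P Z F w g - pS P Z F S w g * mS P F Z S w g| := by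
    unfold tvn
    have h2 : ∀ f, ind (∀ i ∈ S0, f i = f0 i) * (mS P F Z S w f * ∑ g ∈ let_ F, ind (∀ i ∈ S, g i = f i) *
        |pF P Z F w g - pS P Z F S w g * ∏ i ∈ univ \ S, mF P Z F i w (g i)|) =
        ∑ g ∈ let_ F, (ind (∀ i ∈ S, g i = f i) * mS P F Z S w f) * (ind (∀ i ∈ S0, g i = f0 i) *
          |pF P Z F w g - pS P Z F S w g * ∏ i ∈ univ \ S, mF P Z F i w (g i)|) := fun f => by
      rw [Finset.mul_sum, Finset.mul_sum]
      refine Finset.sum_congr rfl fun g _ => ?_
      by_cases h : ∀ i ∈ S, g i = f i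
      · have e : (∀ i ∈ S0, f i = f0 i) = (∀ i ∈ S0, g i = f0 i) := propext
          ⟨fun hh i hi => (h i (hS hi)).trans (hh i hi), fun hh i hi => (h i (hS hi)).symm.trans (hh i hi)⟩
        rw [e]
        ring
      · rw [ind_not h]
        ring
    rw [Finset.sum_congr rfl fun f _ => h2 f, Finset.sum_comm]
    refine Finset.sum_congr rfl fun g hg => ?_
    rw [← Finset.sum_mul, one_S P F S hw hg, one_mul]
    rfl
  rw [h1]
  have h3 : ∀ g, ind (∀ i ∈ S0, g i = f0 i) * |pF P Z F w g - pS P Z F S w g * mS P F Z S w g| ≤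
      ind (∀ i ∈ S0, g i = f0 i) * |pF P Z F w g - ∏ i, mF P Z F i w (g i)| +
        ind (∀ i ∈ S0, g i = f0 i) * (mS P F Z S w g * |pS P Z F S w g - ∏ i ∈ S, mF P Z F i w (g i)|) := by
    intro g
    rw [← mul_add]
    refine mul_le_mul_of_nonneg_left ?_ (ind_nonneg _)
    have e1 : pF P Z F w g - pS P Z F S w g * mS P F Z S w g = (pF P Z F w g - ∏ i, mF P Z F i w (g i)) +
        -(mS P F Z S w g * (pS P Z F S w g - ∏ i ∈ S, mF P Z F i w (g i))) := by
      rw [prod_split P F S w g]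
      ring
    rw [e1]
    refine (abs_add_le _ _).trans (le_of_eq ?_)
    rw [abs_neg, abs_mul, abs_of_nonneg (mS_nn P F S w g)]
  refine (Finset.sum_le_sum fun g _ => h3 g).trans ?_
  rw [Finset.sum_add_distrib]
  have h4 := pS_meanx P F (Z := Z) hw hS f0
  linarith

/-- the row of a letter against the marginals -/
theorem row_tvn (i : Fin 3) (f0 : Fin 3 → φ) : ∑ g ∈ let_ F, ind (∀ k ∈ ({i} : Finset (Fin 3)), g k = f0 k) *
    |pF P Z F w g - ∏ k, mF P Z F k w (g k)| = tvn P Z F {i} w f0 := by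
  unfold tvn
  refine Finset.sum_congr rfl fun g _ => ?_
  rw [prod_split P F {i} w g, Finset.prod_singleton, pS_one P F]
  rfl

include hw in
/-- **mass of a relation of the tops of `S ∋ i`, given the letter of `i`** -/
theorem row_mass {S : Finset (Fin 3)} {i : Fin 3} (hi : i ∈ S) (f0 : Fin 3 → φ) {H : (Fin 3 → φ) → Prop} {A B : ℝ}
    (hA : 0 ≤ A) (hB : 0 ≤ B)
    (hp : ∀ f, f ∈ let_ F → H f → f i = f0 i →
      ∏ k ∈ S, mF P Z F k w (f k) ≤ A * |pS P Z F S w f - ∏ k ∈ S, mF P Z F k w (f k)| + B * tvn P Z F S w f) :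
    ∑ f ∈ let_ F, ind (f i = f0 i) * ((∏ k, mF P Z F k w (f k)) * ind (H f)) ≤ (A + 2 * B) * tvn P Z F {i} w f0 := by
  have hS : ({i} : Finset (Fin 3)) ⊆ S := Finset.singleton_subset_iff.2 hi
  have e : ∀ f : Fin 3 → φ, (∀ k ∈ ({i} : Finset (Fin 3)), f k = f0 k) = (f i = f0 i) := fun f => propext
    ⟨fun h => h i (Finset.mem_singleton_self i), fun h k hk => by rw [Finset.mem_singleton.1 hk]; exact h⟩
  have h4 : ∀ f ∈ let_ F, ind (f i = f0 i) * ((∏ k, mF P Z F k w (f k)) * ind (H f)) ≤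
      A * (ind (∀ k ∈ ({i} : Finset (Fin 3)), f k = f0 k) * (mS P F Z S w f *
        |pS P Z F S w f - ∏ k ∈ S, mF P Z F k w (f k)|)) +
      B * (ind (∀ k ∈ ({i} : Finset (Fin 3)), f k = f0 k) * (mS P F Z S w f * tvn P Z F S w f)) := by
    intro f hf
    have m0 := mS_nn P F (Z := Z) S w f
    have t0 : 0 ≤ tvn P Z F S w f := Finset.sum_nonneg fun _ _ => mul_nonneg (ind_nonneg _) (abs_nonneg _)
    have a0 := abs_nonneg (pS P Z F S w f - ∏ k ∈ S, mF P Z F k w (f k))
    rw [e f]
    by_cases h1 : f i = f0 i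
    · by_cases h : H f
      · rw [ind_of h1, ind_of h, prod_split P F S w f]
        have := mul_le_mul_of_nonneg_left (hp f hf h h1) m0
        nlinarith
      · rw [ind_not h, mul_zero, mul_zero, ind_of h1]
        positivity
    · rw [ind_not h1]
      simp
  refine (Finset.sum_le_sum h4).trans ?_
  rw [Finset.sum_add_distrib, ← Finset.mul_sum, ← Finset.mul_sum]
  have h5 := mul_le_mul_of_nonneg_left (pS_meanx P F (Z := Z) hw hS f0) hA
  have h6 := mul_le_mul_of_nonneg_left (tvn_meanx P F (Z := Z) hw hS f0) hB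
  rw [row_tvn P F (Z := Z) (w := w) i f0] at h5 h6
  linarith

end mass

/-! ### the relations of the weak tops -/

variable (Z) in
/-- the pair of the tops `i`, `j` is bad -/
def bp (c : KC) (i j : Fin 3) (w : Om) (f : Fin 3 → φ) : Prop := 0 < pS P Z F {i, j} w f ∧
  (c.dH ≤ |dens P Z F {i, j} w f - 1| ∨ 2 * c.e3 * pS P Z F {i, j} w f ≤ tvn P Z F {i, j} w f)

variable (Z) in
/-- relation of the weak top `a` with the top `i`; `b` the third top -/
def wkH (c : KC) (i a b : Fin 3) (w : Om) (f : Fin 3 → φ) : Prop := bad P Z F c a w f ∨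
  (¬ bad P Z F c i w f ∧ bp P Z F c i a w f) ∨ (¬ bp P Z F c i b w f ∧ 1 + 4 * c.dH ≤ dens P Z F univ w f)

variable (Z Zb Y) in
/-- a weak top `a` beside two strong tops `i`, `b` -/
def Wk (c : KC) (r : RC) (i : Fin 3) (w : Om) (f : Fin 3 → φ) : Prop := r.B < rF P Zb F Y i w (f i) ∧
  ∃ a b : Fin 3, i ≠ a ∧ i ≠ b ∧ a ≠ b ∧ rF P Zb F Y a w (f a) ≤ r.B ∧ r.B < rF P Zb F Y b w (f b) ∧
    wkH P Z F c i a b w f

variable (Z Zb Y) in
/-- the active faces of the kinds -/
def AC (c : KC) (r : RC) (k : Fin 10) (w : Om) (f : Fin 3 → φ) : Prop :=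
  (k = 1 ∧ ∃ i j : Fin 3, i ≠ j ∧ r.B < rF P Zb F Y i w (f i) ∧ 1 + r.e1 < rF P Zb F Y j w (f j)) ∨
  (∃ i : Fin 3, k.1 = i.1 + 2 ∧ bad P Z F c i w f ∧ r.B < rF P Zb F Y i w (f i) ∧
    ∃ j, j ≠ i ∧ 1 + r.e1 < rF P Zb F Y j w (f j)) ∨
  (k = 5 ∧ ∃ i : Fin 3, bad P Z F c i w f ∧ r.B < rF P Zb F Y i w (f i) ∧
    ∃ j, j ≠ i ∧ 1 + r.e1 < rF P Zb F Y j w (f j)) ∨
  (∃ v : Fin 3, k.1 = v.1 + 6 ∧ ∀ i, i ≠ v → r.B < rF P Zb F Y i w (f i)) ∨
  (k = 9 ∧ ∀ i, r.B < rF P Zb F Y i w (f i))

/-! ### classification -/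

section cls

variable {c : KC} {r : RC} {w : Om} {f : Fin 3 → φ}

theorem kd_no_bad {k : Fin 10} (hk : 6 ≤ k.1) (h : kdF P Z F c k w f) (i : Fin 3) : ¬ bad P Z F c i w f := by
  intro hb
  rcases bad_kd hb with h1 | h1 | h1 | h1 | h1
  · have := kdF_dis h h1; subst this; exact absurd hk (by decide)
  · have := kdF_dis h h1; subst this; exact absurd hk (by decide)
  · have := kdF_dis h h1; subst this; exact absurd hk (by decide)
  · have := kdF_dis h h1; subst this; exact absurd hk (by decide)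
  · have := kdF_dis h h1; subst this; exact absurd hk (by decide)

theorem opp_eq {i a v : Fin 3} (h1 : i ≠ a) (h2 : i ≠ v) (h3 : a ≠ v) : opp v = {i, a} := by
  have key : ∀ i k j : Fin 3, i ≠ k → i ≠ j → k ≠ j → univ.erase j = ({i, k} : Finset (Fin 3)) := by decide
  exact key i a v h1 h2 h3

theorem Ap_bp {i a v : Fin 3} (h1 : i ≠ a) (h2 : i ≠ v) (h3 : a ≠ v) :
    Ap P Z F c (v.1 + 6) w f ↔ bp P Z F c i a w f := by
  unfold bp
  rw [← opp_eq h1 h2 h3]
  fin_cases v <;> exact Iff.rfl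

/-- a tuple with two strong letters and a high density -/
theorem two_class (he : 1 + r.e1 ≤ r.B) {i k : Fin 3} (hik : i ≠ k) (hi : r.B < rF P Zb F Y i w (f i))
    (hk : r.B < rF P Zb F Y k w (f k)) (hd : 1 + 4 * c.dH ≤ dens P Z F univ w f) :
    (∃ k : Fin 10, kdF P Z F c k w f ∧ AC P Z Zb F Y c r k w f) ∨ ∃ i, Wk P Z Zb F Y c r i w f := by
  have h9 : Ap P Z F c (9 : Fin 10).1 w f := hd
  obtain ⟨j, hj, hkd⟩ := Ap_kd h9
  -- strong and bad
  by_cases hsb : ∃ l, bad P Z F c l w f ∧ r.B < rF P Zb F Y l w (f l)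
  · obtain ⟨l, hl, hB⟩ := hsb
    have h2 : ∃ j, j ≠ l ∧ 1 + r.e1 < rF P Zb F Y j w (f j) := by
      by_cases h : i = l
      · exact ⟨k, fun hh => hik (h.trans hh.symm), lt_of_le_of_lt he hk⟩
      · exact ⟨i, h, lt_of_le_of_lt he hi⟩
    rcases bad_kd hl with h1 | h1 | h1 | h1 | h1
    · exact Or.inl ⟨1, h1, Or.inl ⟨rfl, i, k, hik, hi, lt_of_le_of_lt he hk⟩⟩
    · refine Or.inl ⟨2, h1, Or.inr (Or.inl ⟨0, rfl, ?_⟩)⟩
      have h3 : l = 0 := by
        by_contra hne
        have key : ∀ l : Fin 3, l ≠ 0 → l = 1 ∨ l = 2 := by decide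
        rcases key l hne with h4 | h4
        · exact h1.1.2.1 (h4 ▸ hl)
        · exact h1.1.2.2 (h4 ▸ hl)
      subst h3
      exact ⟨hl, hB, h2⟩
    · refine Or.inl ⟨3, h1, Or.inr (Or.inl ⟨1, rfl, ?_⟩)⟩
      have h3 : l = 1 := by
        by_contra hne
        have key : ∀ l : Fin 3, l ≠ 1 → l = 0 ∨ l = 2 := by decide
        rcases key l hne with h4 | h4
        · exact h1.1.2.1 (h4 ▸ hl)
        · exact h1.1.2.2 (h4 ▸ hl)
      subst h3
      exact ⟨hl, hB, h2⟩
    · refine Or.inl ⟨4, h1, Or.inr (Or.inl ⟨2, rfl, ?_⟩)⟩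
      have h3 : l = 2 := by
        by_contra hne
        have key : ∀ l : Fin 3, l ≠ 2 → l = 0 ∨ l = 1 := by decide
        rcases key l hne with h4 | h4
        · exact h1.1.2.1 (h4 ▸ hl)
        · exact h1.1.2.2 (h4 ▸ hl)
      subst h3
      exact ⟨hl, hB, h2⟩
    · exact Or.inl ⟨5, h1, Or.inr (Or.inr (Or.inl ⟨rfl, l, hl, hB, h2⟩))⟩
  · push Not at hsb
    -- a bad top is weak
    by_cases hbd : ∃ l, bad P Z F c l w f
    · obtain ⟨l, hl⟩ := hbd
      have hw := hsb l hl
      have hil : i ≠ l := fun h => absurd (h ▸ hi) (not_lt.2 hw)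
      have hkl : k ≠ l := fun h => absurd (h ▸ hk) (not_lt.2 hw)
      exact Or.inr ⟨i, hi, l, k, hil, hik, hkl.symm, hw, hk, Or.inl hl⟩
    · push Not at hbd
      have hj6 : j = 1 ∨ 6 ≤ j.1 := by
        have key : ∀ j : Fin 10, j ≠ 0 → j ≠ 2 → j ≠ 3 → j ≠ 4 → j ≠ 5 → j = 1 ∨ 6 ≤ j.1 := by decide
        refine key j ?_ ?_ ?_ ?_ ?_
        · rintro rfl; exact hkd.1
        · rintro rfl; exact hbd 0 hkd.1.1
        · rintro rfl; exact hbd 1 hkd.1.1
        · rintro rfl; exact hbd 2 hkd.1.1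
        · rintro rfl
          rcases hkd.1 with h1 | h1 | h1
          · exact hbd 0 h1.1
          · exact hbd 0 h1.1
          · exact hbd 1 h1.1
      rcases hj6 with rfl | hj6
      · exact Or.inl ⟨1, hkd, Or.inl ⟨rfl, i, k, hik, hi, lt_of_le_of_lt he hk⟩⟩
      · by_cases h9 : j = 9
        · subst h9
          by_cases hall : ∀ l, r.B < rF P Zb F Y l w (f l)
          · exact Or.inl ⟨9, hkd, Or.inr (Or.inr (Or.inr (Or.inr ⟨rfl, hall⟩)))⟩
          · push Not at hall
            obtain ⟨l, hl⟩ := hall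
            have hil : i ≠ l := fun h => absurd (h ▸ hi) (not_lt.2 hl)
            have hkl : k ≠ l := fun h => absurd (h ▸ hk) (not_lt.2 hl)
            refine Or.inr ⟨i, hi, l, k, hil, hik, hkl.symm, hl, hk, Or.inr (Or.inr ⟨?_, hd⟩)⟩
            have h1 := hkd.2 (l.1 + 6) (by
              have := l.2
              show l.1 + 6 < 9
              omega)
            rwa [Ap_bp P F hik hil hkl] at h1
        · obtain ⟨v, hv⟩ : ∃ v : Fin 3, j.1 = v.1 + 6 := by
            have h1 := j.2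
            have h2 : j.1 ≠ 9 := fun h => h9 (Fin.ext h)
            exact ⟨⟨j.1 - 6, by omega⟩, by show j.1 = j.1 - 6 + 6; omega⟩
          by_cases hall : ∀ l, l ≠ v → r.B < rF P Zb F Y l w (f l)
          · exact Or.inl ⟨j, hkd, Or.inr (Or.inr (Or.inr (Or.inl ⟨v, hv, hall⟩)))⟩
          · push Not at hall
            obtain ⟨a, hav, ha⟩ := hall
            have hia : i ≠ a := fun h => absurd (h ▸ hi) (not_lt.2 ha)
            have hka : k ≠ a := fun h => absurd (h ▸ hk) (not_lt.2 ha)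
            -- the strong top different from `v`
            obtain ⟨b, hb, hba, hbv, hvv⟩ : ∃ b, r.B < rF P Zb F Y b w (f b) ∧ b ≠ a ∧ b ≠ v ∧
                r.B < rF P Zb F Y v w (f v) := by
              by_cases h : i = v
              · exact ⟨k, hk, hka, fun hh => hik (h.trans hh.symm), h ▸ hi⟩
              · refine ⟨i, hi, hia, h, ?_⟩
                have : k = v := fin3_l hia h hav hik.symm hka
                exact this ▸ hk
            refine Or.inr ⟨b, hb, a, v, hba, hbv, hav, ha, hvv, Or.inr (Or.inl ⟨hbd b, ?_⟩)⟩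
            have h1 : Ap P Z F c (v.1 + 6) w f := hv ▸ hkd.1
            rwa [Ap_bp P F hba hbv hav] at h1

/-- **THE REGION**: a tuple of the region is thin, single, weak, or of a kind with active faces -/
theorem reg_class (he : 1 + r.e1 ≤ r.B) (hd : (1 + 4 * c.dH) * Real.exp (3 * c.eS) ≤ 1 + r.d)
    (hdH : 0 ≤ c.dH) (hS0 : 0 ≤ c.eS)
    (hreg : RegA P Z Zb F Y c r w f ∨ RegB P Z Zb F Y r w f ∨ RegC P Z Zb F Y r w f) (hs : ¬ sF P Z Zb F c w)
    (hss : ∀ i, ¬ sS P Z Zb F c i w f) (hm : ∀ i, 0 < mF P Z F i w (f i)) (hq : ∀ i, 0 < qF P Zb F i w (f i)) :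
    (∃ k : Fin 10, kdF P Z F c k w f ∧ AC P Z Zb F Y c r k w f) ∨ ∃ i, Wk P Z Zb F Y c r i w f := by
  have hlog : ∀ i, Real.log (mF P Z F i w (f i) / qF P Zb F i w (f i)) < c.eS := fun i => by
    have h1 := hss i
    unfold sS at h1
    exact lt_of_le_of_lt (le_abs_self _) (not_le.1 h1)
  have hmq : ∀ i, mF P Z F i w (f i) < Real.exp c.eS * qF P Zb F i w (f i) := fun i => by
    have h1 := hlog i
    rw [Real.log_lt_iff_lt_exp (div_pos (hm i) (hq i)), div_lt_iff₀ (hq i)] at h1
    exact h1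
  rcases hreg with ⟨i, k, hki, hB, hb, hr⟩ | ⟨i, hB, hb⟩ | ⟨i, k, hik, hi, hk, hp⟩
  · -- a bad row
    left
    have hbi : bad P Z F c i w f := by
      rcases hb with h1 | h1
      · exact absurd h1 hs
      · exact (bad_letter P F c i w (f := fun _ => f i) (g := f) rfl).1 h1
    rcases bad_kd hbi with h1 | h1 | h1 | h1 | h1
    · exact ⟨1, h1, Or.inl ⟨rfl, i, k, hki.symm, hB, hr⟩⟩
    · refine ⟨2, h1, Or.inr (Or.inl ⟨0, rfl, ?_⟩)⟩
      have h3 : i = 0 := by
        by_contra hne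
        have key : ∀ l : Fin 3, l ≠ 0 → l = 1 ∨ l = 2 := by decide
        rcases key i hne with h4 | h4
        · exact h1.1.2.1 (h4 ▸ hbi)
        · exact h1.1.2.2 (h4 ▸ hbi)
      subst h3
      exact ⟨hbi, hB, k, hki, hr⟩
    · refine ⟨3, h1, Or.inr (Or.inl ⟨1, rfl, ?_⟩)⟩
      have h3 : i = 1 := by
        by_contra hne
        have key : ∀ l : Fin 3, l ≠ 1 → l = 0 ∨ l = 2 := by decide
        rcases key i hne with h4 | h4
        · exact h1.1.2.1 (h4 ▸ hbi)
        · exact h1.1.2.2 (h4 ▸ hbi)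
      subst h3
      exact ⟨hbi, hB, k, hki, hr⟩
    · refine ⟨4, h1, Or.inr (Or.inl ⟨2, rfl, ?_⟩)⟩
      have h3 : i = 2 := by
        by_contra hne
        have key : ∀ l : Fin 3, l ≠ 2 → l = 0 ∨ l = 1 := by decide
        rcases key i hne with h4 | h4
        · exact h1.1.2.1 (h4 ▸ hbi)
        · exact h1.1.2.2 (h4 ▸ hbi)
      subst h3
      exact ⟨hbi, hB, k, hki, hr⟩
    · exact ⟨5, h1, Or.inr (Or.inr (Or.inl ⟨rfl, i, hbi, hB, k, hki, hr⟩))⟩
  · -- a single
    exfalso
    have h1 := hb.2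
    have h2 := hmq i
    have h3 : Real.exp c.eS ≤ Real.exp (3 * c.eS) := Real.exp_le_exp.2 (by linarith)
    have h4 : Real.exp (3 * c.eS) ≤ (1 + 4 * c.dH) * Real.exp (3 * c.eS) :=
      le_mul_of_one_le_left (Real.exp_pos _).le (by linarith)
    have h5 : Real.exp c.eS ≤ 1 + r.d := h3.trans (h4.trans hd)
    have h6 := mul_le_mul_of_nonneg_right h5 (hq i).le
    linarith
  · -- two strong letters
    refine two_class P F he hik hi hk ?_
    have hpm : (0 : ℝ) < ∏ j, mF P Z F j w (f j) := Finset.prod_pos fun j _ => hm j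
    have h1 : ∏ j, mF P Z F j w (f j) ≤ Real.exp (3 * c.eS) * ∏ j, qF P Zb F j w (f j) := by
      have h2 : ∏ j, mF P Z F j w (f j) ≤ ∏ j, (Real.exp c.eS * qF P Zb F j w (f j)) :=
        Finset.prod_le_prod (fun j _ => (hm j).le) fun j _ => (hmq j).le
      rw [Finset.prod_mul_distrib, Finset.prod_const, Finset.card_univ, Fintype.card_fin] at h2
      refine h2.trans (le_of_eq ?_)
      rw [← Real.exp_nat_mul]
      norm_num
    have hpq : (0 : ℝ) < ∏ j, qF P Zb F j w (f j) := Finset.prod_pos fun j _ => hq j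
    show 1 + 4 * c.dH ≤ pS P Z F univ w f / ∏ j ∈ univ, mF P Z F j w (f j)
    rw [pS_univ P F, le_div_iff₀ hpm]
    have h3 : (1 + 4 * c.dH) * ∏ j, mF P Z F j w (f j) ≤
        ((1 + 4 * c.dH) * Real.exp (3 * c.eS)) * ∏ j, qF P Zb F j w (f j) := by
      rw [mul_assoc]
      exact mul_le_mul_of_nonneg_left h1 (by linarith)
    exact h3.trans ((mul_le_mul_of_nonneg_right hd hpq.le).trans hp.le)

end cls

/-! ### mass of the weak relations -/

/-- mass of the weak relations -/
def kap (c : KC) : ℝ := 2 * c.e1 / c.e2 + (2 / c.dH + 4 / c.e3) * c.e2 + c.e3 / c.dH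

section wm

variable {c : KC} {w : Om} (hw : P.p w ≠ 0)

include hw in
theorem sum_m (i : Fin 3) : ∑ x ∈ vals (F i), mF P Z F i w x = 1 := P.pv_sum Z (F i) hw

include hw in
/-- a bad top -/
theorem m1 (h2 : 0 < c.e2) (hR : ¬ 2 * c.e1 ≤ tvn P Z F ∅ w (tup F w)) (a : Fin 3) (g : φ → Fin 3 → φ)
    (hg : ∀ z, g z a = z) : ∑ z ∈ vals (F a), mF P Z F a w z * ind (bad P Z F c a w (g z)) ≤ 2 * c.e1 / c.e2 := by
  have e1 : ∑ z ∈ vals (F a), mF P Z F a w z * ind (bad P Z F c a w (g z)) =
      P.ce Z (fun u => ind (bad P Z F c a w (tup F u))) w := by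
    have h := P.sum_pv (W := Z) (F a) (F := fun _ z => ind (bad P Z F c a w (g z))) (fun _ _ _ _ => rfl) w
    have h3 : (fun u => ind (bad P Z F c a w (g (F a u)))) = fun u => ind (bad P Z F c a w (tup F u)) := by
      funext u
      rw [show bad P Z F c a w (g (F a u)) = bad P Z F c a w (tup F u) from propext
        (bad_letter P F c a w (by rw [hg]; rfl))]
    rw [← h3]
    exact h
  rw [e1]
  have h1 := bad_mass P F (Z := Z) h2 a hw
  have h3 : D0 P F Z w ≤ 2 * c.e1 := by
    have h4 : 2 * c.e1 ≤ tvn P Z F ∅ w (tup F w) ↔ _ := Ap1_iff P F c hw (tup F w)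
    rw [h4] at hR
    exact (not_le.1 hR).le
  refine h1.trans ?_
  rw [mul_comm, mul_one_div]
  exact div_le_div_of_nonneg_right h3 h2.le

include hw in
/-- a bad pair beside a good letter -/
theorem m2 (h3 : 0 < c.e3) (hd : 0 < c.dH) (hd2 : c.dH ≤ 1 / 2) (h2 : 0 < c.e2) {i a b : Fin 3} (hia : i ≠ a)
    (hib : i ≠ b) (hab : a ≠ b) {x y : φ} (hx : x ∈ vals (F i)) (hy : y ∈ vals (F b)) :
    ∑ z ∈ vals (F a), mF P Z F a w z * ind (¬ bad P Z F c i w (tp i b x y z) ∧ bp P Z F c i a w (tp i b x y z)) ≤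
      (2 / c.dH + 4 / c.e3) * c.e2 := by
  classical
  have hm0 : 0 ≤ mF P Z F i w x := mF_nn P F i w x
  have h4 : 0 ≤ (2 / c.dH + 4 / c.e3) * c.e2 := by positivity
  -- the letter
  by_cases hbad : bad P Z F c i w (fun _ => x)
  · refine le_trans (le_of_eq (Finset.sum_eq_zero fun z _ => ?_)) h4
    rw [ind_not, mul_zero]
    rintro ⟨h5, _⟩
    exact h5 ((bad_letter P F c i w (by rw [tp_i])).1 hbad)
  -- the relation of the pair depends on two letters
  have hcong : ∀ f g : Fin 3 → φ, f i = g i → f a = g a → (bp P Z F c i a w f ↔ bp P Z F c i a w g) := by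
    intro f g h5 h6
    have h7 : ∀ k ∈ ({i, a} : Finset (Fin 3)), f k = g k := by
      intro k hk
      rcases Finset.mem_insert.1 hk with h8 | h8
      · rw [h8]; exact h5
      · rw [Finset.mem_singleton.1 h8]; exact h6
    unfold bp
    rw [pS_cong P F w h7, dens_cong P F w h7, tvn_cong P F w h7]
  have hrow := row_mass P F (Z := Z) hw (S := {i, a}) (i := i) (by simp) (fun _ => x)
    (H := fun f => bp P Z F c i a w f) (A := 1 / c.dH) (B := 1 / c.e3) (by positivity) (by positivity) (by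
      intro f _ hb _
      have hpos : 0 < ∏ k ∈ ({i, a} : Finset (Fin 3)), mF P Z F k w (f k) := prod_pos_of P F hb.1
      set M := ∏ k ∈ ({i, a} : Finset (Fin 3)), mF P Z F k w (f k) with hM
      have t0 : 0 ≤ tvn P Z F {i, a} w f := Finset.sum_nonneg fun _ _ => mul_nonneg (ind_nonneg _) (abs_nonneg _)
      have hdens : dens P Z F {i, a} w f - 1 = (pS P Z F {i, a} w f - M) / M := by
        show pS P Z F {i, a} w f / M - 1 = _
        field_simp
      by_cases h5 : c.dH ≤ |dens P Z F {i, a} w f - 1|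
      · rw [hdens, abs_div, abs_of_pos hpos, le_div_iff₀ hpos] at h5
        have h6 : M ≤ 1 / c.dH * |pS P Z F {i, a} w f - M| := by
          rw [one_div, ← div_eq_inv_mul, le_div_iff₀ hd]
          linarith
        have : 0 ≤ 1 / c.e3 * tvn P Z F {i, a} w f := by positivity
        linarith
      · have h6 : 2 * c.e3 * pS P Z F {i, a} w f ≤ tvn P Z F {i, a} w f := hb.2.resolve_left h5
        rw [hdens, abs_div, abs_of_pos hpos, not_le, div_lt_iff₀ hpos] at h5
        have h7 := (abs_lt.1 h5).1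
        have h8 : M ≤ 2 * pS P Z F {i, a} w f := by nlinarith
        have h9 : M ≤ 1 / c.e3 * tvn P Z F {i, a} w f := by
          rw [one_div, ← div_eq_inv_mul, le_div_iff₀ h3]
          nlinarith
        have : 0 ≤ 1 / c.dH * |pS P Z F {i, a} w f - M| := by positivity
        linarith)
  -- the left side letter by letter
  have e1 : ∑ f ∈ let_ F, ind (f i = x) * ((∏ k, mF P Z F k w (f k)) * ind (bp P Z F c i a w f)) =
      mF P Z F i w x * ∑ z ∈ vals (F a), mF P Z F a w z * ind (bp P Z F c i a w (tp i b x y z)) := by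
    rw [sum3 F hia hib hab, Finset.sum_eq_single x]
    · rw [Finset.mul_sum]
      refine Finset.sum_congr rfl fun z _ => ?_
      have h5 : ∀ t ∈ vals (F b), ind (tp i a x z t i = x) * ((∏ k, mF P Z F k w (tp i a x z t k)) *
          ind (bp P Z F c i a w (tp i a x z t))) =
          mF P Z F b w t * (mF P Z F i w x * (mF P Z F a w z * ind (bp P Z F c i a w (tp i b x y z)))) := by
        intro t _
        rw [tp_i, ind_of rfl, one_mul]
        have h6 : ∏ k, mF P Z F k w (tp i a x z t k) = mF P Z F i w x * mF P Z F a w z * mF P Z F b w t := by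
          have hu : (univ : Finset (Fin 3)) = {i, a, b} := by
            have key : ∀ i j k : Fin 3, i ≠ j → i ≠ k → j ≠ k → (univ : Finset (Fin 3)) = {i, j, k} := by decide
            exact key i a b hia hib hab
          rw [hu, Finset.prod_insert (by simp [hia, hib]), Finset.prod_pair hab, tp_i, tp_j hia, tp_l hib hab]
          ring
        have h7 : bp P Z F c i a w (tp i a x z t) = bp P Z F c i a w (tp i b x y z) := propext
          (hcong _ _ (by rw [tp_i, tp_i]) (by rw [tp_j hia, tp_l hia hab.symm]))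
        rw [h6, h7]
        ring
      rw [Finset.sum_congr rfl h5, ← Finset.sum_mul, sum_m P F hw b, one_mul]
    · intro x' _ hx'
      refine Finset.sum_eq_zero fun z _ => Finset.sum_eq_zero fun t _ => ?_
      rw [tp_i, ind_not hx', zero_mul]
    · exact fun h => absurd hx h
  rw [e1] at hrow
  rw [bad_iff P F] at hbad
  have hle : ∑ z ∈ vals (F a), mF P Z F a w z * ind (¬ bad P Z F c i w (tp i b x y z) ∧
      bp P Z F c i a w (tp i b x y z)) ≤
      ∑ z ∈ vals (F a), mF P Z F a w z * ind (bp P Z F c i a w (tp i b x y z)) :=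
    Finset.sum_le_sum fun z _ => mul_le_mul_of_nonneg_left (ind_mono fun h => h.2) (mF_nn P F a w z)
  refine hle.trans ?_
  rcases hm0.eq_or_lt with h5 | h5
  · -- probability zero
    refine le_trans (le_of_eq (Finset.sum_eq_zero fun z _ => ?_)) h4
    rw [ind_not, mul_zero]
    intro hb
    have h6 := prod_pos_of P F hb.1
    rw [Finset.prod_pair hia, tp_i, ← h5, zero_mul] at h6
    exact lt_irrefl _ h6
  · have h6 : tvn P Z F {i} w (fun _ => x) < 2 * c.e2 * mF P Z F i w x := by
      by_contra h7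
      refine hbad ⟨h5, ?_⟩
      have h8 := not_lt.1 h7
      refine h8.trans (le_of_eq ?_)
      unfold tvn
      refine Finset.sum_congr rfl fun g _ => ?_
      have h9 : (∀ k ∈ ({i} : Finset (Fin 3)), g k = x) = (g i = x) := propext
        ⟨fun h => h i (Finset.mem_singleton_self i), fun h k hk => by rw [Finset.mem_singleton.1 hk]; exact h⟩
      have h10 : (univ \ {i} : Finset (Fin 3)) = univ.erase i := by
        have key : ∀ i : Fin 3, (univ \ {i} : Finset (Fin 3)) = univ.erase i := by decide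
        exact key i
      rw [h9, h10, pS_one P F]
    have h7 : mF P Z F i w x * ∑ z ∈ vals (F a), mF P Z F a w z * ind (bp P Z F c i a w (tp i b x y z)) ≤
        mF P Z F i w x * ((2 / c.dH + 4 / c.e3) * c.e2) := by
      refine hrow.trans ?_
      have h8 := mul_le_mul_of_nonneg_left h6.le (show 0 ≤ 1 / c.dH + 2 * (1 / c.e3) by positivity)
      refine h8.trans (le_of_eq ?_)
      ring
    exact le_of_mul_le_mul_left h7 h5

include hw in
/-- high density over a good pair -/
theorem m3 (h3 : 0 < c.e3) (hd : 0 < c.dH) (hd2 : c.dH ≤ 1 / 2) {i a b : Fin 3} (hia : i ≠ a)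
    (hib : i ≠ b) (hab : a ≠ b) {x y : φ} (hx : x ∈ vals (F i)) (hy : y ∈ vals (F b)) :
    ∑ z ∈ vals (F a), mF P Z F a w z * ind (¬ bp P Z F c i b w (tp i b x y z) ∧
      1 + 4 * c.dH ≤ dens P Z F univ w (tp i b x y z)) ≤ c.e3 / c.dH := by
  classical
  have h4 : 0 ≤ c.e3 / c.dH := by positivity
  by_cases hv : (vals (F a)).Nonempty
  swap
  · rw [Finset.not_nonempty_iff_eq_empty.1 hv, Finset.sum_empty]
    exact h4
  obtain ⟨z0, hz0⟩ := hv
  set f0 : Fin 3 → φ := tp i b x y z0 with hf0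
  have hk : ∀ z, ∀ k ∈ ({i, b} : Finset (Fin 3)), tp i b x y z k = f0 k := by
    intro z k hk
    rcases Finset.mem_insert.1 hk with h8 | h8
    · rw [h8, hf0, tp_i, tp_i]
    · rw [Finset.mem_singleton.1 h8, hf0, tp_j hib, tp_j hib]
  have hbp : ∀ z, bp P Z F c i b w (tp i b x y z) ↔ bp P Z F c i b w f0 := by
    intro z
    unfold bp
    rw [pS_cong P F w (hk z), dens_cong P F w (hk z), tvn_cong P F w (hk z)]
  set pr := pS P Z F {i, b} w f0 with hpr
  have hpr0 : 0 ≤ pr := pS_nn P F _ w f0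
  have hprz : ∀ z, pS P Z F {i, b} w (tp i b x y z) = pr := fun z => pS_cong P F w (hk z)
  rcases hpr0.eq_or_lt with h5 | h5
  · -- probability zero
    refine le_trans (le_of_eq (Finset.sum_eq_zero fun z _ => ?_)) h4
    rw [ind_not, mul_zero]
    rintro ⟨_, h6⟩
    have h7 : pS P Z F univ w (tp i b x y z) ≤ pr := by
      rw [← hprz z]
      exact pS_anti P F (Finset.subset_univ _) w _
    have h8 : pS P Z F univ w (tp i b x y z) = 0 := le_antisymm (h7.trans h5.symm.le) (pS_nn P F _ w _)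
    have h9 : dens P Z F univ w (tp i b x y z) = 0 := by
      show pS P Z F univ w (tp i b x y z) / _ = 0
      rw [h8, zero_div]
    rw [h9] at h6
    linarith
  · by_cases hb : bp P Z F c i b w f0
    · refine le_trans (le_of_eq (Finset.sum_eq_zero fun z _ => ?_)) h4
      rw [ind_not, mul_zero]
      rintro ⟨h6, _⟩
      exact h6 ((hbp z).2 hb)
    · have h6 : |dens P Z F {i, b} w f0 - 1| < c.dH ∧ tvn P Z F {i, b} w f0 < 2 * c.e3 * pr := by
        unfold bp at hb
        push Not at hb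
        exact hb h5
      have hM : 0 < ∏ k ∈ ({i, b} : Finset (Fin 3)), mF P Z F k w (f0 k) := prod_pos_of P F h5
      have e2 : ∏ k ∈ ({i, b} : Finset (Fin 3)), mF P Z F k w (f0 k) = mF P Z F i w x * mF P Z F b w y := by
        rw [Finset.prod_pair hib, hf0, tp_i, tp_j hib]
      set M := mF P Z F i w x * mF P Z F b w y with hMd
      rw [e2] at hM
      have h7 : pr ≤ (1 + c.dH) * M := by
        have h8 := (abs_lt.1 h6.1).2
        have h9 : dens P Z F {i, b} w f0 = pr / M := by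
          show pr / ∏ k ∈ ({i, b} : Finset (Fin 3)), mF P Z F k w (f0 k) = _
          rw [e2]
        rw [h9, sub_lt_iff_lt_add, div_lt_iff₀ hM] at h8
        linarith
      -- one letter
      have h8 : ∀ z ∈ vals (F a), mF P Z F a w z * ind (¬ bp P Z F c i b w (tp i b x y z) ∧
          1 + 4 * c.dH ≤ dens P Z F univ w (tp i b x y z)) ≤
          1 / (2 * c.dH * pr) * |pF P Z F w (tp i b x y z) - pr * mF P Z F a w z| := by
        intro z _
        have hmz : 0 ≤ mF P Z F a w z := mF_nn P F a w z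
        have hr : 0 ≤ 1 / (2 * c.dH * pr) * |pF P Z F w (tp i b x y z) - pr * mF P Z F a w z| := by positivity
        by_cases h9 : ¬ bp P Z F c i b w (tp i b x y z) ∧ 1 + 4 * c.dH ≤ dens P Z F univ w (tp i b x y z)
        · rw [ind_of h9, mul_one]
          rcases hmz.eq_or_lt with h10 | h10
          · rw [← h10]; rw [← h10] at hr; exact hr
          · have h11 : dens P Z F univ w (tp i b x y z) = pF P Z F w (tp i b x y z) / (M * mF P Z F a w z) := by
              show pS P Z F univ w (tp i b x y z) / ∏ k, mF P Z F k w (tp i b x y z k) = _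
              have hu : (univ : Finset (Fin 3)) = {i, b, a} := by
                have key : ∀ i j k : Fin 3, i ≠ j → i ≠ k → j ≠ k → (univ : Finset (Fin 3)) = {i, j, k} := by decide
                exact key i b a hib hia hab.symm
              rw [pS_univ P F]
              congr 1
              rw [hu, Finset.prod_insert (by simp [hia, hib]), Finset.prod_pair hab.symm, tp_i, tp_j hib,
                tp_l hia hab.symm]
              ring
            have h12 := h9.2
            rw [h11, le_div_iff₀ (mul_pos hM h10)] at h12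
            have h13 : 2 * c.dH * pr * mF P Z F a w z ≤ pF P Z F w (tp i b x y z) - pr * mF P Z F a w z := by
              have h14 : pr * mF P Z F a w z ≤ (1 + c.dH) * M * mF P Z F a w z :=
                mul_le_mul_of_nonneg_right h7 h10.le
              have h15 : 0 < M * mF P Z F a w z := mul_pos hM h10
              have h16 : 2 * c.dH * (pr * mF P Z F a w z) ≤ 2 * c.dH * ((1 + c.dH) * M * mF P Z F a w z) :=
                mul_le_mul_of_nonneg_left h14 (by linarith)
              have h17 : 2 * c.dH * ((1 + c.dH) * (M * mF P Z F a w z)) ≤ 3 * c.dH * (M * mF P Z F a w z) := by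
                have h18 : 2 * c.dH * (1 + c.dH) ≤ 3 * c.dH := by nlinarith
                calc _ = (2 * c.dH * (1 + c.dH)) * (M * mF P Z F a w z) := by ring
                  _ ≤ _ := mul_le_mul_of_nonneg_right h18 h15.le
              nlinarith
            have h14 := h13.trans (le_abs_self _)
            rw [one_div, ← div_eq_inv_mul, le_div_iff₀ (by positivity)]
            linarith
        · rw [ind_not h9, mul_zero]
          exact hr
      -- the sum is `tvn`
      have e3 : tvn P Z F {i, b} w f0 = ∑ z ∈ vals (F a), |pF P Z F w (tp i b x y z) - pr * mF P Z F a w z| := by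
        unfold tvn
        have hc : (univ \ {i, b} : Finset (Fin 3)) = {a} := by
          have key : ∀ i k j : Fin 3, i ≠ k → i ≠ j → k ≠ j → (univ \ {i, k} : Finset (Fin 3)) = {j} := by decide
          exact key i b a hib hia hab.symm
        rw [hc, sum3 F hib hia hab.symm, Finset.sum_eq_single x]
        · rw [Finset.sum_eq_single y]
          · refine Finset.sum_congr rfl fun z _ => ?_
            rw [ind_of (hk z), one_mul, hprz z, Finset.prod_singleton, tp_l hia hab.symm]
          · intro y' _ hy'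
            refine Finset.sum_eq_zero fun z _ => ?_
            rw [ind_not, zero_mul]
            intro hh
            have := hh b (by simp)
            rw [tp_j hib, hf0, tp_j hib] at this
            exact hy' this
          · exact fun h => absurd hy h
        · intro x' _ hx'
          refine Finset.sum_eq_zero fun y' _ => Finset.sum_eq_zero fun z _ => ?_
          rw [ind_not, zero_mul]
          intro hh
          have := hh i (by simp)
          rw [tp_i, hf0, tp_i] at this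
          exact hx' this
        · exact fun h => absurd hx h
      refine (Finset.sum_le_sum h8).trans ?_
      rw [← Finset.mul_sum, ← e3]
      have h9 := mul_le_mul_of_nonneg_left h6.2.le (show 0 ≤ 1 / (2 * c.dH * pr) by positivity)
      refine h9.trans (le_of_eq ?_)
      field_simp

include hw in
/-- **mass of the weak relations under the own law** -/
theorem wk_mass (h2 : 0 < c.e2) (h3 : 0 < c.e3) (hd : 0 < c.dH) (hd2 : c.dH ≤ 1 / 2)
    (hR : ¬ 2 * c.e1 ≤ tvn P Z F ∅ w (tup F w)) (hs : ¬ sF P Z Zb F c w) {i a b : Fin 3} (hia : i ≠ a)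
    (hib : i ≠ b) (hab : a ≠ b) {x y : φ} (hx : x ∈ vals (F i)) (hy : y ∈ vals (F b)) :
    ∑ z ∈ vals (F a), qF P Zb F a w z * ind (wkH P Z F c i a b w (tp i b x y z)) ≤ kap c + 2 * c.eF := by
  have hm : ∑ z ∈ vals (F a), mF P Z F a w z * ind (wkH P Z F c i a b w (tp i b x y z)) ≤ kap c := by
    have k1 := m1 P F (Z := Z) hw h2 hR a (fun z => tp i b x y z) fun z => tp_l hia hab.symm _ _ _
    have k2 := m2 P F (Z := Z) hw h3 hd hd2 h2 hia hib hab hx hy
    have k3 := m3 P F (Z := Z) hw h3 hd hd2 hia hib hab hx hy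
    have k4 : ∀ z ∈ vals (F a), mF P Z F a w z * ind (wkH P Z F c i a b w (tp i b x y z)) ≤
        mF P Z F a w z * ind (bad P Z F c a w (tp i b x y z)) +
        mF P Z F a w z * ind (¬ bad P Z F c i w (tp i b x y z) ∧ bp P Z F c i a w (tp i b x y z)) +
        mF P Z F a w z * ind (¬ bp P Z F c i b w (tp i b x y z) ∧ 1 + 4 * c.dH ≤ dens P Z F univ w (tp i b x y z)) := by
      intro z _
      have h0 := mF_nn P F (Z := Z) a w z
      rw [← mul_add, ← mul_add]
      refine mul_le_mul_of_nonneg_left ?_ h0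
      have n1 := ind_nonneg (bad P Z F c a w (tp i b x y z))
      have n2 := ind_nonneg (¬ bad P Z F c i w (tp i b x y z) ∧ bp P Z F c i a w (tp i b x y z))
      have n3 := ind_nonneg (¬ bp P Z F c i b w (tp i b x y z) ∧ 1 + 4 * c.dH ≤ dens P Z F univ w (tp i b x y z))
      by_cases h : wkH P Z F c i a b w (tp i b x y z)
      · rw [ind_of h]
        rcases h with h | h | h
        · rw [ind_of h]; linarith
        · rw [ind_of h]; linarith
        · rw [ind_of h]; linarith
      · rw [ind_not h]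
        linarith
    refine (Finset.sum_le_sum k4).trans ?_
    rw [Finset.sum_add_distrib, Finset.sum_add_distrib]
    unfold kap
    linarith
  have ht : tv1n P Z Zb F a w < 2 * c.eF := by
    unfold sF at hs
    push Not at hs
    exact hs a
  have h5 : ∀ z ∈ vals (F a), qF P Zb F a w z * ind (wkH P Z F c i a b w (tp i b x y z)) ≤
      mF P Z F a w z * ind (wkH P Z F c i a b w (tp i b x y z)) + |mF P Z F a w z - qF P Zb F a w z| := by
    intro z _
    have h6 := neg_abs_le (mF P Z F a w z - qF P Zb F a w z)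
    have h7 := abs_nonneg (mF P Z F a w z - qF P Zb F a w z)
    by_cases h : wkH P Z F c i a b w (tp i b x y z)
    · rw [ind_of h]; linarith
    · rw [ind_not h]; linarith
  refine (Finset.sum_le_sum h5).trans ?_
  rw [Finset.sum_add_distrib]
  unfold tv1n at ht
  linarith

end wm

/-! ### the weak tuples in the mean -/

variable (Z Zb Y V) in
/-- distance of the new row of two strong letters of `i`, `b` from the product with the weak top `a` -/
def RowN2 (B : ℝ) (i b a : Fin 3) (w : Om) : ℝ := ∑ f ∈ let_ F, ind (B < rF P Zb F Y i w (f i)) *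
  (ind (B < rF P Zb F Y b w (f b)) * |P.pv (fun u => (V u, Z u)) (tup F) w f -
    P.pv (fun u => (V u, Z u)) (fun u => (F i u, F b u)) w (f i, f b) * qF' P Zb F Y a w (f a)|)

theorem RowN2_nn (B : ℝ) (i b a : Fin 3) (w : Om) : 0 ≤ RowN2 P Z Zb F Y V B i b a w :=
  Finset.sum_nonneg fun _ _ => mul_nonneg (ind_nonneg _) (mul_nonneg (ind_nonneg _) (abs_nonneg _))

section wk

variable {c : KC} {r : RC}

theorem bp_fac (c : KC) (i j : Fin 3) (f : Fin 3 → φ) : Fac Z (fun w => bp P Z F c i j w f) := by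
  intro a b hab
  have h1 : ∀ S, pS P Z F S a f = pS P Z F S b f := fun S => pS_fac P F S f a b hab
  have h2 : ∀ S, tvn P Z F S a f = tvn P Z F S b f := fun S => tvn_fac P F S f a b hab
  have h3 : ∀ S, dens P Z F S a f = dens P Z F S b f := fun S => dens_fac P F S f a b hab
  show bp P Z F c i j a f = bp P Z F c i j b f
  unfold bp
  rw [h1, h2, h3]

theorem wkH_fac (c : KC) (i a b : Fin 3) (f : Fin 3 → φ) : Fac Z (fun w => wkH P Z F c i a b w f) := by
  intro x y hxy
  have h1 : ∀ i, bad P Z F c i x f = bad P Z F c i y f := fun i => bad_fac P F c i f x y hxy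
  have h2 : ∀ i j, bp P Z F c i j x f = bp P Z F c i j y f := fun i j => bp_fac P F c i j f x y hxy
  have h3 : ∀ S, dens P Z F S x f = dens P Z F S y f := fun S => dens_fac P F S f x y hxy
  show wkH P Z F c i a b x f = wkH P Z F c i a b y f
  unfold wkH
  rw [h1, h1, h2, h2, h3]

/-- one weak top at one point -/
theorem wk_pt {w : Om} (hw : P.p w ≠ 0) (hB : 0 ≤ r.B) (h2 : 0 < c.e2) (h3 : 0 < c.e3) (hd : 0 < c.dH)
    (hd2 : c.dH ≤ 1 / 2) (hR : ¬ 2 * c.e1 ≤ tvn P Z F ∅ w (tup F w)) (hs : ¬ sF P Z Zb F c w) {i a b : Fin 3} (hia : i ≠ a)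
    (hib : i ≠ b) (hab : a ≠ b) :
    ∑ f ∈ let_ F, P.pv (fun u => (V u, Z u)) (tup F) w f * ind (r.B < rF P Zb F Y i w (f i) ∧
      rF P Zb F Y a w (f a) ≤ r.B ∧ r.B < rF P Zb F Y b w (f b) ∧ wkH P Z F c i a b w f) ≤
      r.B * (kap c + 2 * c.eF) * (∑ x ∈ vals (F i), ∑ y ∈ vals (F b),
        P.pv (fun u => (V u, Z u)) (fun u => (F i u, F b u)) w (x, y) *
        ind (r.B < rF P Zb F Y i w x ∧ r.B < rF P Zb F Y b w y)) + RowN2 P Z Zb F Y V r.B i b a w := by
  classical
  set PV := fun f => P.pv (fun u => (V u, Z u)) (tup F) w f with hPV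
  set PI := fun x y => P.pv (fun u => (V u, Z u)) (fun u => (F i u, F b u)) w (x, y) with hPI
  have p0 : ∀ x y, 0 ≤ PI x y := fun x y => P.pv_nonneg _ _ _ _
  -- the product
  have e1 : ∀ f ∈ let_ F, PV f * ind (r.B < rF P Zb F Y i w (f i) ∧ rF P Zb F Y a w (f a) ≤ r.B ∧
      r.B < rF P Zb F Y b w (f b) ∧ wkH P Z F c i a b w f) ≤ PI (f i) (f b) * qF' P Zb F Y a w (f a) *
        ind (r.B < rF P Zb F Y i w (f i) ∧ rF P Zb F Y a w (f a) ≤ r.B ∧ r.B < rF P Zb F Y b w (f b) ∧
          wkH P Z F c i a b w f) +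
      ind (r.B < rF P Zb F Y i w (f i)) * (ind (r.B < rF P Zb F Y b w (f b)) *
        |PV f - PI (f i) (f b) * qF' P Zb F Y a w (f a)|) := by
    intro f _
    by_cases h : r.B < rF P Zb F Y i w (f i) ∧ rF P Zb F Y a w (f a) ≤ r.B ∧ r.B < rF P Zb F Y b w (f b) ∧
      wkH P Z F c i a b w f
    · rw [ind_of h, ind_of h.1, ind_of h.2.2.1, mul_one, mul_one, one_mul, one_mul]
      have := le_abs_self (PV f - PI (f i) (f b) * qF' P Zb F Y a w (f a))
      linarith
    · rw [ind_not h, mul_zero, mul_zero, zero_add]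
      exact mul_nonneg (ind_nonneg _) (mul_nonneg (ind_nonneg _) (abs_nonneg _))
  refine (Finset.sum_le_sum e1).trans ?_
  rw [Finset.sum_add_distrib]
  refine add_le_add ?_ le_rfl
  -- letter by letter
  rw [sum3 F hib hia hab.symm, Finset.mul_sum]
  refine Finset.sum_le_sum fun x hx => ?_
  rw [Finset.mul_sum]
  refine Finset.sum_le_sum fun y hy => ?_
  have q0 : ∀ k y, 0 ≤ qF' P Zb F Y k w y := fun k y => P.pv_nonneg _ _ _ _
  have e3 : ∀ z ∈ vals (F a), PI (tp i b x y z i) (tp i b x y z b) * qF' P Zb F Y a w (tp i b x y z a) *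
      ind (r.B < rF P Zb F Y i w (tp i b x y z i) ∧ rF P Zb F Y a w (tp i b x y z a) ≤ r.B ∧
        r.B < rF P Zb F Y b w (tp i b x y z b) ∧ wkH P Z F c i a b w (tp i b x y z)) ≤
      (PI x y * ind (r.B < rF P Zb F Y i w x ∧ r.B < rF P Zb F Y b w y) * r.B) *
        (qF P Zb F a w z * ind (wkH P Z F c i a b w (tp i b x y z))) := by
    intro z _
    rw [tp_i, tp_j hib, tp_l hia hab.symm]
    have hq : 0 ≤ qF P Zb F a w z := P.pv_nonneg _ _ _ _
    by_cases h : r.B < rF P Zb F Y i w x ∧ rF P Zb F Y a w z ≤ r.B ∧ r.B < rF P Zb F Y b w y ∧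
      wkH P Z F c i a b w (tp i b x y z)
    · rw [ind_of h, ind_of (⟨h.1, h.2.2.1⟩ : r.B < rF P Zb F Y i w x ∧ r.B < rF P Zb F Y b w y), ind_of h.2.2.2,
        mul_one, mul_one, mul_one, ← rq_F P F Y (Zb := Zb) hw a z]
      have h4 : rF P Zb F Y a w z * qF P Zb F a w z ≤ r.B * qF P Zb F a w z :=
        mul_le_mul_of_nonneg_right h.2.1 hq
      have h5 := mul_le_mul_of_nonneg_left h4 (p0 x y)
      linarith
    · rw [ind_not h, mul_zero]
      exact mul_nonneg (mul_nonneg (mul_nonneg (p0 x y) (ind_nonneg _)) hB) (mul_nonneg hq (ind_nonneg _))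
  refine (Finset.sum_le_sum e3).trans ?_
  rw [← Finset.mul_sum]
  have h6 := wk_mass P F (Zb := Zb) hw h2 h3 hd hd2 hR hs hia hib hab hx hy
  have h7 : 0 ≤ PI x y * ind (r.B < rF P Zb F Y i w x ∧ r.B < rF P Zb F Y b w y) * r.B :=
    mul_nonneg (mul_nonneg (p0 x y) (ind_nonneg _)) hB
  refine (mul_le_mul_of_nonneg_left h6 h7).trans (le_of_eq ?_)
  ring

/-- both strong, in the mean -/
theorem strong2_mean (hZ : ∀ i, Fac Z (Zb i)) (hV : ∀ i, Fac (fun u => (V u, Z u)) (Y i)) {B : ℝ} {A : Om → Prop}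
    (hA : Fac (fun u => (V u, Z u)) A) (i b : Fin 3) :
    P.Pr (fun w => A w ∧ B < rF P Zb F Y i w (F i w) ∧ B < rF P Zb F Y b w (F b w)) = P.E (fun w => ind (A w) *
        ∑ x ∈ vals (F i), ∑ y ∈ vals (F b), P.pv (fun u => (V u, Z u)) (fun u => (F i u, F b u)) w (x, y) *
          ind (B < rF P Zb F Y i w x ∧ B < rF P Zb F Y b w y)) := by
  classical
  have hf : ∀ x y, Fac (fun u => (V u, Z u)) (fun u => ind (B < rF P Zb F Y i u x ∧ B < rF P Zb F Y b u y)) := by
    intro x y a b' hab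
    have hy : ∀ i, (fun u => (Y i u, Z u)) a = (fun u => (Y i u, Z u)) b' := fun i =>
      Prod.ext (hV i a b' hab) (Prod.mk.inj hab).2
    have e1 : rF P Zb F Y i a x = rF P Zb F Y i b' x := rF_fac P F hZ i x a b' (hy i)
    have e2 : rF P Zb F Y b a y = rF P Zb F Y b b' y := rF_fac P F hZ b y a b' (hy b)
    show ind _ = ind _
    rw [e1, e2]
  have h2 : ∀ w, ∑ x ∈ vals (F i), ∑ y ∈ vals (F b), P.pv (fun u => (V u, Z u)) (fun u => (F i u, F b u)) w (x, y) *
      ind (B < rF P Zb F Y i w x ∧ B < rF P Zb F Y b w y) =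
      P.ce (fun u => (V u, Z u)) (fun u => ind (B < rF P Zb F Y i u (F i u) ∧ B < rF P Zb F Y b u (F b u))) w := by
    intro w
    have e1 : ∀ x y, P.pv (fun u => (V u, Z u)) (fun u => (F i u, F b u)) w (x, y) *
        ind (B < rF P Zb F Y i w x ∧ B < rF P Zb F Y b w y) =
        P.ce (fun u => (V u, Z u)) (fun u => ind (B < rF P Zb F Y i u x ∧ B < rF P Zb F Y b u y) *
          ind ((F i u, F b u) = (x, y))) w := by
      intro x y
      rw [P.ce_mul (hf x y)]
      exact mul_comm _ _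
    simp only [e1]
    have e2 : ∀ x, ∑ y ∈ vals (F b), P.ce (fun u => (V u, Z u)) (fun u => ind (B < rF P Zb F Y i u x ∧
        B < rF P Zb F Y b u y) * ind ((F i u, F b u) = (x, y))) w =
        P.ce (fun u => (V u, Z u)) (fun u => ∑ y ∈ vals (F b), ind (B < rF P Zb F Y i u x ∧ B < rF P Zb F Y b u y) *
          ind ((F i u, F b u) = (x, y))) w := fun x => (P.ce_sum _ _ _ _).symm
    simp only [e2]
    rw [← P.ce_sum]
    refine P.ce_congr (fun u _ => ?_) w
    have hx : F i u ∈ vals (F i) := Finset.mem_image_of_mem _ (mem_univ u)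
    have hy : F b u ∈ vals (F b) := Finset.mem_image_of_mem _ (mem_univ u)
    rw [Finset.sum_eq_single (F i u)]
    · rw [Finset.sum_eq_single (F b u)]
      · rw [ind_of rfl, mul_one]
      · intro y _ hne
        rw [ind_not (fun hh => hne (Prod.mk.inj hh).2.symm), mul_zero]
      · exact fun hh => absurd hy hh
    · intro x _ hne
      refine Finset.sum_eq_zero fun y _ => ?_
      rw [ind_not (fun hh => hne (Prod.mk.inj hh).1.symm), mul_zero]
    · exact fun hh => absurd hx hh
  simp only [h2]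
  rw [P.E_mul_ce (Fac.ind fun x y hxy => iff_of_eq (hA x y hxy)) _]
  exact P.E_congr fun w _ => by rw [ind_and]

/-- **THE WEAK TUPLES IN THE MEAN** -/
theorem wk_le (hZ : ∀ i, Fac Z (Zb i)) (hV : ∀ i, Fac (fun u => (V u, Z u)) (Y i)) (hB : 0 ≤ r.B) (h2 : 0 < c.e2)
    (h3 : 0 < c.e3) (hd : 0 < c.dH) (hd2 : c.dH ≤ 1 / 2) {A : Om → Prop} (hA : Fac (fun u => (V u, Z u)) A)
    (hA1 : ∀ w, P.p w ≠ 0 → A w → ¬ sF P Z Zb F c w ∧ ¬ 2 * c.e1 ≤ tvn P Z F ∅ w (tup F w)) :
    P.Pr (fun w => A w ∧ ∃ i, Wk P Z Zb F Y c r i w (tup F w)) ≤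
      ∑ i : Fin 3, ((r.B * (kap c + 2 * c.eF) * P.Pr (fun w => A w ∧ r.B < rF P Zb F Y i w (F i w) ∧
          r.B < rF P Zb F Y (i + 2) w (F (i + 2) w)) + P.E (fun w => ind (A w) * RowN2 P Z Zb F Y V r.B i (i + 2) (i + 1) w)) +
        (r.B * (kap c + 2 * c.eF) * P.Pr (fun w => A w ∧ r.B < rF P Zb F Y i w (F i w) ∧
          r.B < rF P Zb F Y (i + 1) w (F (i + 1) w)) + P.E (fun w => ind (A w) * RowN2 P Z Zb F Y V r.B i (i + 1) (i + 2) w))) := by
  classical
  -- the relation of three tops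
  set G : Fin 3 → Fin 3 → Fin 3 → Om → (Fin 3 → φ) → Prop := fun i a b w f => r.B < rF P Zb F Y i w (f i) ∧
    rF P Zb F Y a w (f a) ≤ r.B ∧ r.B < rF P Zb F Y b w (f b) ∧ wkH P Z F c i a b w f with hG
  have hGf : ∀ i a b f, Fac (fun u => (V u, Z u)) (fun w => G i a b w f) := by
    intro i a b f x y hxy
    have hz : Z x = Z y := (Prod.mk.inj hxy).2
    have hy : ∀ i, (fun u => (Y i u, Z u)) x = (fun u => (Y i u, Z u)) y := fun i => Prod.ext (hV i x y hxy) hz
    have e1 : ∀ i, rF P Zb F Y i x (f i) = rF P Zb F Y i y (f i) := fun i => rF_fac P F hZ i (f i) x y (hy i)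
    have e2 : wkH P Z F c i a b x f = wkH P Z F c i a b y f := wkH_fac P F c i a b f x y hz
    show G i a b x f = G i a b y f
    simp only [hG, e1, e2]
  have h1 : ∀ i a b, i ≠ a → i ≠ b → a ≠ b → P.Pr (fun w => A w ∧ G i a b w (tup F w)) ≤
      r.B * (kap c + 2 * c.eF) * P.Pr (fun w => A w ∧ r.B < rF P Zb F Y i w (F i w) ∧ r.B < rF P Zb F Y b w (F b w)) +
        P.E (fun w => ind (A w) * RowN2 P Z Zb F Y V r.B i b a w) := by
    intro i a b hia hib hab
    have e1 : P.Pr (fun w => A w ∧ G i a b w (tup F w)) = P.E (fun w => ind (A w) *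
        ∑ f ∈ let_ F, P.pv (fun u => (V u, Z u)) (tup F) w f * ind (G i a b w f)) := by
      rw [← E_tup P F (W := fun u => (V u, Z u)) (al := fun w => ind (A w)) (Fac.ind fun x y hxy => iff_of_eq (hA x y hxy))
        (g := fun w f => ind (G i a b w f)) fun f => Fac.ind fun x y hxy => iff_of_eq (hGf i a b f x y hxy)]
      exact P.E_congr fun w _ => by rw [ind_and]
    rw [e1, strong2_mean P F hZ hV hA i b, ← P.E_smul, ← P.E_add]
    refine P.E_mono fun w hw => ?_
    by_cases hAw : A w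
    · obtain ⟨hs, hR⟩ := hA1 w hw hAw
      rw [ind_of hAw, one_mul, one_mul, one_mul]
      exact wk_pt P F hw hB h2 h3 hd hd2 hR hs hia hib hab
    · rw [ind_not hAw]
      simp
  -- the six triples
  have h4 : P.Pr (fun w => A w ∧ ∃ i, Wk P Z Zb F Y c r i w (tup F w)) ≤
      ∑ i, (P.Pr (fun w => A w ∧ G i (i + 1) (i + 2) w (tup F w)) + P.Pr (fun w => A w ∧ G i (i + 2) (i + 1) w (tup F w))) := by
    unfold FP.Pr
    rw [Finset.sum_congr rfl fun i _ => (P.E_add _ _).symm, ← P.E_sum]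
    refine P.E_mono fun w _ => ?_
    by_cases h : A w ∧ ∃ i, Wk P Z Zb F Y c r i w (tup F w)
    · obtain ⟨hAw, i, hi, a, b, hia, hib, hab, ha, hb, hk⟩ := h
      rw [ind_of ⟨hAw, i, hi, a, b, hia, hib, hab, ha, hb, hk⟩]
      have h5 : 1 ≤ ind (A w ∧ G i (i + 1) (i + 2) w (tup F w)) + ind (A w ∧ G i (i + 2) (i + 1) w (tup F w)) := by
        have key : ∀ i a b : Fin 3, i ≠ a → i ≠ b → a ≠ b → (a = i + 1 ∧ b = i + 2) ∨ (a = i + 2 ∧ b = i + 1) := by
          decide
        rcases key i a b hia hib hab with ⟨rfl, rfl⟩ | ⟨rfl, rfl⟩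
        · rw [ind_of (⟨hAw, hi, ha, hb, hk⟩ : A w ∧ G i (i + 1) (i + 2) w (tup F w))]
          linarith [ind_nonneg (A w ∧ G i (i + 2) (i + 1) w (tup F w))]
        · rw [ind_of (⟨hAw, hi, ha, hb, hk⟩ : A w ∧ G i (i + 2) (i + 1) w (tup F w))]
          linarith [ind_nonneg (A w ∧ G i (i + 1) (i + 2) w (tup F w))]
      refine h5.trans (Finset.single_le_sum (f := fun i => ind (A w ∧ G i (i + 1) (i + 2) w (tup F w)) +
        ind (A w ∧ G i (i + 2) (i + 1) w (tup F w))) (fun j _ => add_nonneg (ind_nonneg _) (ind_nonneg _))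
        (Finset.mem_univ i))
    · rw [ind_not h]
      exact Finset.sum_nonneg fun j _ => add_nonneg (ind_nonneg _) (ind_nonneg _)
  refine h4.trans (Finset.sum_le_sum fun i _ => ?_)
  have key : ∀ i : Fin 3, i ≠ i + 1 ∧ i ≠ i + 2 ∧ i + 1 ≠ i + 2 := by decide
  obtain ⟨k1, k2, k3⟩ := key i
  exact add_le_add (h1 i (i + 1) (i + 2) k1 k2 k3) (h1 i (i + 2) (i + 1) k2 k1 k3.symm)

end wk

end

end Pool.Agent.GMH.KF
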