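import Pool.Agent.GMH.Key3R
import Pool.Agent.GMH.TopSplit

/-!
# GMH/RegT: the region of the cut (helper78)

`RC` = thresholds: strong letters `B`, rising letters `1 + e1`, density `1 + d`.  One law `P`, `Z` = all thin letters, `Zb i` =
what the top `i` sees, `F i` the tops, `Y i` = what the top `i` sees after the additions, `rF` = ratio of a letter, `tF` =
ratio of the missing thin letter.
* `bdT` : the row of the letter is bad, or the tops have a bad own law (thin);
* `RegT` : (a) a strong letter with `bdT` and another letter rising `> 1 + e1`; (b) a strong letter, the missing thin letter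
  strong, and the letter more frequent by `1 + d` given all thin letters; (c) two strong letters and density `> 1 + d`;
* `RegT_strong`, `RegT_fac`, `Rg3`, `Rg3_fac` : the region of the steps of `GMH/TopSplit`.
-/

set_option autoImplicit false
set_option linter.unusedSectionVars false

namespace Pool.Agent.GMH.KF

open Finset Pool.Agent.PWZ Pool.Agent.M3 Pool.Agent.GMH

noncomputable section

/-- thresholds of the region -/
structure RC where
  B : ℝ
  e1 : ℝ
  d : ℝ

section fr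

variable {Om : Type*} [Fintype Om] (P : FP Om) {α β γ φ : Type*} (Z : Om → β) (Zb : Fin 3 → Om → α) (F : Fin 3 → Om → φ)
  (Y : Fin 3 → Om → γ)

/-- the row of the letter `x` of the top `i` is not under control -/
def bdT (c : KC) (w : Om) (i : Fin 3) (x : φ) : Prop := sF P Z Zb F c w ∨ bad P Z F c i w (fun _ => x)

/-- (a) strong letter with a bad row, another letter rising -/
def RegA (c : KC) (r : RC) (w : Om) (f : Fin 3 → φ) : Prop :=
  ∃ i k : Fin 3, k ≠ i ∧ r.B < rF P Zb F Y i w (f i) ∧ bdT P Z Zb F c w i (f i) ∧ 1 + r.e1 < rF P Zb F Y k w (f k)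

/-- (b) strong letter, missing thin letter strong, letter more frequent given all thin letters -/
def RegB (r : RC) (w : Om) (f : Fin 3 → φ) : Prop :=
  ∃ i : Fin 3, r.B < rF P Zb F Y i w (f i) ∧ bxF P F Y (Z := Z) (Zb := Zb) r.B r.d i w (f i)

/-- (c) two strong letters, high density -/
def RegC (r : RC) (w : Om) (f : Fin 3 → φ) : Prop :=
  ∃ i k : Fin 3, i ≠ k ∧ r.B < rF P Zb F Y i w (f i) ∧ r.B < rF P Zb F Y k w (f k) ∧
    (1 + r.d) * ∏ j, qF P Zb F j w (f j) < pF P Z F w f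

/-- **THE REGION OF THE CUT** -/
def RegT (c : KC) (r : RC) (w : Om) (f : Fin 3 → φ) : Prop :=
  RegA P Z Zb F Y c r w f ∨ RegB P Z Zb F Y r w f ∨ RegC P Z Zb F Y r w f

variable {P Z Zb F Y}

/-- a tuple of the region has a strong letter -/
theorem RegT_strong {c : KC} {r : RC} {w : Om} {f : Fin 3 → φ} (h : RegT P Z Zb F Y c r w f) :
    ∃ i, r.B < rF P Zb F Y i w (f i) := by
  rcases h with ⟨i, _, _, h1, _⟩ | ⟨i, h1, _⟩ | ⟨i, _, _, h1, _⟩ <;> exact ⟨i, h1⟩

variable (P F)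

theorem rF_fac (hZ : ∀ i, Fac Z (Zb i)) (i : Fin 3) (x : φ) : Fac (fun u => (Y i u, Z u)) (fun w => rF P Zb F Y i w x) := by
  intro a b hab
  have h1 : Y i a = Y i b ∧ Z a = Z b := Prod.mk.inj hab
  show rr P (Zb i) (F i) (Y i) a (Y i a) x = rr P (Zb i) (F i) (Y i) b (Y i b) x
  rw [h1.1]
  exact rr_fac P (Zb i) (F i) (Y i) _ x a b (hZ i a b h1.2)

theorem tF_fac (hZ : ∀ i, Fac Z (Zb i)) (i : Fin 3) : Fac (fun u => (Y i u, Z u)) (fun w => tF P Z Zb Y i w) := by
  intro a b hab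
  have h1 : Y i a = Y i b ∧ Z a = Z b := Prod.mk.inj hab
  have h2 : Zb i a = Zb i b := hZ i a b h1.2
  show tau P (Zb i) Z (Y i) a (Y i a) = tau P (Zb i) Z (Y i) b (Y i b)
  have h3 : P.pv Z (Y i) a (Y i b) = P.pv Z (Y i) b (Y i b) := P.pv_fac Z (Y i) (Y i b) a b h1.2
  have h4 : P.pv (Zb i) (Y i) a (Y i b) = P.pv (Zb i) (Y i) b (Y i b) := P.pv_fac (Zb i) (Y i) (Y i b) a b h2
  unfold tau
  rw [h1.1, h3, h4]

/-- the region is a relation of the thin letters, the additions and the tuple -/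
theorem RegT_fac {ν : Type*} {V : Om → ν} (hZ : ∀ i, Fac Z (Zb i)) (hV : ∀ i, Fac (fun u => (V u, Z u)) (Y i)) (c : KC)
    (r : RC) (f : Fin 3 → φ) : Fac (fun u => (V u, Z u)) (fun w => RegT P Z Zb F Y c r w f) := by
  intro a b hab
  have hz : Z a = Z b := (Prod.mk.inj hab).2
  have hy : ∀ i, (fun u => (Y i u, Z u)) a = (fun u => (Y i u, Z u)) b := fun i => Prod.ext (hV i a b hab) hz
  have h1 : ∀ i, rF P Zb F Y i a (f i) = rF P Zb F Y i b (f i) := fun i => rF_fac P F hZ i (f i) a b (hy i)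
  have h2 : ∀ i, tF P Z Zb Y i a = tF P Z Zb Y i b := fun i => tF_fac P hZ i a b (hy i)
  have h3 : ∀ i x, qF P Zb F i a x = qF P Zb F i b x := fun i x => qF_fac P F hZ i x a b hz
  have h4 : ∀ i x, mF P Z F i a x = mF P Z F i b x := fun i x => mF_fac P F i x a b hz
  have h5 : pF P Z F a f = pF P Z F b f := P.pv_fac Z (tup F) f a b hz
  have h6 : sF P Z Zb F c a = sF P Z Zb F c b := sF_fac P F hZ c a b hz
  have h7 : ∀ i, bad P Z F c i a (fun _ => f i) = bad P Z F c i b (fun _ => f i) := fun i =>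
    bad_fac P F c i (fun _ => f i) a b hz
  show RegT P Z Zb F Y c r a f = RegT P Z Zb F Y c r b f
  unfold RegT RegA RegB RegC bdT bxF
  simp only [h1, h2, h3, h4, h5, h6, h7]

end fr

end

end Pool.Agent.GMH.KF

namespace Pool.Agent.GMH.TP

open Finset Pool.Agent.PWZ Pool.Agent.M3 Pool.Agent.GM Pool.Agent.GM.Harm Pool.Agent.GMH Pool.Agent.GMH.NZ
open Pool.Agent.GMH.V3 Pool.Agent.GMH.KF

noncomputable section

variable {X β γ φ : Type} [Fintype X] [Fintype β] [Fintype φ] [Nonempty X] [Nonempty β]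
variable {D : HD (Fin 3) X β γ φ} {al : ℝ} (h : D.Thick al) (v : ℕ → Finset (Fin 3) → X → (Fin 3 → β) → Pt (Fin 3) X β φ)

/-- **THE REGION OF THE STEP** `(s, t)` -/
def Rg3 (c : KC) (r : RC) (s : Fin 6) (t : ℕ) (w : Pt (Fin 3) X β φ) (f : Tu X β φ) : Prop :=
  RegT (D.P h t) (ZQ D v (qs s t)) (ZbQ D v (qs s t)) (FQ v t) (ZbQ D v (qe s t)) c r w f

theorem Rg3_fac (c : KC) (r : RC) (s : Fin 6) (t : ℕ) (f : Tu X β φ) :
    Fac (VZ (φ := φ) D v s t) (fun w => Rg3 h v c r s t w f) :=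
  RegT_fac (D.P h t) (FQ v t) (V := ZQ D v (qe s t)) (fun i => ZQ_Zb _ i)
    (fun i a b hab => ZQ_Zb _ i a b (Prod.mk.inj hab).1) c r f

/-- in the names of `GMH/TopAct` -/
theorem rF_rS (s : Fin 6) (t : ℕ) (i : Fin 3) (w : Pt (Fin 3) X β φ) (x : Tt X β φ) :
    rF (D.P h t) (ZbQ D v (qs s t)) (FQ v t) (ZbQ D v (qe s t)) i w x = rS h v s t i w x := rfl

/-- a tuple of the region has a strong letter -/
theorem Rg3_strong {c : KC} {r : RC} {s : Fin 6} {t : ℕ} {w : Pt (Fin 3) X β φ} {f : Tu X β φ}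
    (hR : Rg3 h v c r s t w f) : ∃ i, r.B < rS h v s t i w (f i) := RegT_strong hR

end

end Pool.Agent.GMH.TP
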