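import Pool.Agent.GMH.PayPV
import Pool.Agent.GMH.PayPB
import Pool.Agent.GMH.PayNu
import Pool.Agent.GMH.PayRl
import Pool.Agent.GMH.CtxL
import Pool.Agent.GMH.CtxN
import Pool.Agent.GMH.ConPn

/-!
# GMH/ZonC: the common facts of the zones over `Ctx` (helper52)

`M0 = C.U ka` (clock `tv` = `tauS`).
* `onTab`, `onS`, `seen`, `np`, `cn` : the run instance on the table space;
* `rn` : what the covers ask of the run; `tck`, `tckM` : thickness;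
* `pnum` : the numbers of the public payments; **`pays_all`** : every public cover by own rows is paid by `x^(lm + 8)`;
* `ns_all` : the number of the public starts; `zo` : the zone of a kind.
-/

set_option autoImplicit false
set_option linter.unusedSectionVars false

namespace Pool.Agent.GMH.ZonC

open Finset Pool.Agent.PWZ Pool.Agent.M3 Pool.Agent.GM Pool.Agent.GM.Harm Pool.Agent.GMH
open Pool.Agent.GMH.V3 Pool.Agent.GMH.TP Pool.Agent.GMH.TD Pool.Agent.GMH.Dy Pool.Agent.GMH.CX Pool.Agent.GMH.TabF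
open Pool.Agent.GMH.PayPI (Rn Pays Zo An0 kP PNum M0p SeT)
open Pool.Agent.GMH.UV (US Kd Seen tv Prv)
open Pool.Agent.GMH.UV0 (OnTab zzn ubn NS)
open Pool.Agent.GMH.MVI (NPo XLo)
open Pool.Agent.GMH.CT (Rd Rounds Rc ix ix_pos ix_nn kE kth kep Jf Kf Mp th2f)
open Pool.Agent.GMH.PayP (OnS ed)

noncomputable section

variable (C : Ctx) (ka : ℕ)

theorem nn_s (q : ℕ) : TP.nn (q + 1) ≤ TP.nn q + 1 := by
  have h1 : q = 5 * (q / 5) + q % 5 := by omega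
  have h2 : q + 1 = 5 * (q / 5) + (q % 5 + 1) := by omega
  conv_lhs => rw [h2]
  conv_rhs => rw [h1]
  rw [TP.nn_add _ _ (by omega), TP.nn_add _ _ (by omega)]
  unfold TP.nnj
  split_ifs <;> omega

theorem onTab : OnTab (C.U ka) C.tb TP.nn where
  hP := rfl
  hS := fun _ _ _ _ => Iff.rfl
  ht := nn_succ_le
  ht1 := nn_s

theorem onS : OnS (C.U ka) C.tb TP.nn where
  hP := rfl
  hS := fun _ _ _ _ => Iff.rfl

theorem seen : Seen (C.U ka) := seen_i C.tb C.codes _ _ _ _ _ _ _ _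

theorem np (q : ℕ) (w w' : C.O) (e : NPo C.tb C.v q w = NPo C.tb C.v q w') : (C.U ka).NP q w = (C.U ka).NP q w' := e

theorem cn (j : Fin 3) (n : ℕ) (a b : C.O) (e1 : XLo C.tb C.v j n a = XLo C.tb C.v j n b)
    (e2 : NPo C.tb C.v n a = NPo C.tb C.v n b) : UV.tv (C.U ka) j n a = UV.tv (C.U ka) j n b :=
  MV.tauS_fac (M := (C.U ka).toMS) j n a b (Prod.ext e1 e2)

theorem rn : Rn C.h C.v C.tb (C.U ka) (pr3 (Fin 3) C.n C.N1) (SS1 (Fin 3)) C.dg C.Lam where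
  H := C.H
  R := C.R
  hS := Ctx.hSe
  hu := Ctx.hSu
  hN := C.hNe
  hv := C.codes
  hnu := fun n a b e => UV.nu_S (seen C ka) (E := ∅) (le_refl n) a b e

/-- **the numbers of the public payments** -/
theorem pnum {A : ℕ} (hA : 80 ≤ A) (kL k1 k2 : ℕ) : CT.Ev fun c0 Lam => ∀ (al X0 eps L : ℝ) (T : ℕ), Real.exp (-Lam) ≤ al →
    0 ≤ X0 → X0 ≤ pw Lam (16 * c0) → 0 ≤ L → L ≤ pw Lam kL → eps ≤ ix Lam (kE kL k1 k2 + 8) →
    PNum (pw Lam c0) (pw Lam (c1F A c0)) (kP Lam k1 k2 c0) T (ix Lam k2) (2 * Real.exp X0) (2 * (1 / al)) (2 * (1 / al)) eps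
      (Jf Lam kL k1 k2) L (ix Lam (kep kL k1 k2)) (ix Lam (kth kL k1 k2)) (th2f Lam A kL k1 k2 c0) := by
  refine ((CT.payp_num A kL k1 k2 1).and (CT.Ev.ge (40 + (kE kL k1 k2 + 8 + (kth kL k1 k2 + k1 + 2))))).mono
    fun c0 Lam hL h al X0 eps L T hal h0 hX L0 hLb he => ?_
  obtain ⟨h1, hc⟩ := h
  have al0 : 0 < al := lt_of_lt_of_le (Real.exp_pos _) hal
  obtain ⟨a1, a2, a3, a4, a5, a6, a7, a8, a9, _⟩ := h1 L _ _ eps 0 hLb
    (PayPI.log_pub hL A kL k1 k2 (c0 := c0) hA (by omega) (by omega) h0 hX) (PayPI.log_prv hL kL k1 k2 (c0 := c0) hc hal)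
    he le_rfl (Real.exp_pos _).le
  refine ⟨pw_one hL _, pw_one hL _, by positivity, by positivity, by positivity, a1, ix_pos hL _, ix_pos hL _, ix_nn hL _,
    L0, a4, a5, a6, a3, a7, a8, ?_⟩
  have e1 : M0p (kP Lam k1 k2 c0) (2 * Real.exp X0) (Jf Lam kL k1 k2) T =
      ((2 * Mp Lam c0 + 1 : ℕ) : ℝ) ^ Jf Lam kL k1 k2 * (1 + 2 * Real.exp X0) ^ Jf Lam kL k1 k2 := by
    unfold M0p
    rw [show (kP Lam k1 k2 c0).M * 2 + 1 = 2 * Mp Lam c0 + 1 by rw [mul_comm]; rfl]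
  rw [e1]
  refine a9.trans (le_of_eq ?_)
  show _ = ix Lam k2 * (ix Lam (kth kL k1 k2) * ix Lam k1) * _
  ring

/-- **the number of the public starts** -/
theorem ns_all (A ka : ℕ) : AllC A (fun C => NS (C.U ka) (5 * C.T) ≤ Real.exp (pw C.Lam (15 * C.c0))) := by
  refine ((st0_all A ka).and (CX.of_Ev (A := A) (CT.Ev.ge 1))).mono fun C h => ?_
  obtain ⟨h1, hc⟩ := h
  have hL := C.hL
  have e1 : NS (C.U ka) (5 * C.T) = ∑ s ∈ range (5 * C.T), (C.M ka).P.Pr (fun w => MV.nu (C.M ka) s w = s) := rfl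
  rw [e1]
  refine h1.trans ?_
  have p1 : MVN.pQ C.Lam C.c0 = pw C.Lam (8 * C.c0) := rfl
  rw [p1]
  have p2 := CT.pw_ge1 hL (8 * C.c0)
  have p3 : pw C.Lam (8 * C.c0 + 2) ≤ pw C.Lam (15 * C.c0) := CT.pw_mono hL (by omega)
  have p4 : 5 * pw C.Lam (8 * C.c0) ≤ pw C.Lam (8 * C.c0 + 2) := by
    have h7 : pw C.Lam (8 * C.c0 + 2) = pw C.Lam (8 * C.c0) * pw C.Lam 2 := CT.pw_add _ _ _
    have h8 := CT.pw_ge hL 2
    norm_num at h8
    rw [h7]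
    nlinarith
  have h2 : (1 : ℝ) ≤ Real.exp (4 * pw C.Lam (8 * C.c0)) := Real.one_le_exp (by linarith)
  have h3 : (2 : ℝ) ≤ Real.exp (pw C.Lam (8 * C.c0)) := by
    have := Real.add_one_le_exp (pw C.Lam (8 * C.c0))
    linarith
  calc 1 + Real.exp (4 * pw C.Lam (8 * C.c0)) ≤ 2 * Real.exp (4 * pw C.Lam (8 * C.c0)) := by linarith
    _ ≤ Real.exp (pw C.Lam (8 * C.c0)) * Real.exp (4 * pw C.Lam (8 * C.c0)) :=
        mul_le_mul_of_nonneg_right h3 (Real.exp_pos _).le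
    _ = Real.exp (5 * pw C.Lam (8 * C.c0)) := by
        rw [← Real.exp_add]
        congr 1
        ring
    _ ≤ _ := Real.exp_le_exp.2 (by linarith)

theorem ns_nn (C : Ctx) (ka T : ℕ) : 0 ≤ NS (C.U ka) T := Finset.sum_nonneg fun _ _ => FP.Pr_nonneg _ _

theorem X0_nn (C : Ctx) : 0 ≤ C.p.X0 := (CT.pw_pos C.hL _).le

/-- **EVERY PUBLIC COVER BY OWN ROWS IS PAID** -/
theorem pays_all {A : ℕ} (hA : 80 ≤ A) (ka kL k1 k2 : ℕ) : AllC A (fun C => ∀ (w0 : C.O) (zp : ℕ → ℕ → C.O → Prop)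
    (eps L : ℝ), (∀ n s w, zp n s w → s ≤ ed (C.U ka).toMS (5 * C.T) n w) → 0 ≤ L → L ≤ pw C.Lam kL →
    eps ≤ ix C.Lam (kE kL k1 k2 + 8) →
    Pays C.h C.v C.tb (C.U ka) w0 (kP C.Lam k1 k2 C.c0) zp (2 * Real.exp C.p.X0) (2 * (1 / C.al)) (2 * (1 / C.al)) eps
      (Jf C.Lam kL k1 k2) L (pw C.Lam (k2 + 4))) := by
  refine ((((ns_all A ka).and (CX.of_Ev (A := A) (pnum hA kL k1 k2))).and (CX.of_Ev (A := A) (CT.payp_err A kL k1 k2 1))).and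
    ((CX.of_Ev (A := A) (CT.n0_exp A kL k1 k2 hA)).and (CX.of_Ev (A := A) (CT.Ev.ge (3 * A))))).and
    (AllC.all fun C hC => hC) |>.mono fun C hh => ?_
  obtain ⟨⟨⟨⟨h1, h2⟩, h3⟩, ⟨h4, hc⟩⟩, hA'⟩ := hh
  subst hA'
  intro w0 zp eps L hz L0 hLb he
  have hL := C.hL
  have e1 : C.p.X0 = pw C.Lam (cXF C.A C.c0) := rfl
  have hX : C.p.X0 ≤ pw C.Lam (16 * C.c0) := by
    rw [e1]
    exact CT.pw_mono hL (by unfold cXF; omega)
  have p := h2 C.al C.p.X0 eps L C.T (TstZ.exp_al C.H C.h) (X0_nn C) hX L0 hLb he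
  have h5 := PayPI.pays (M := C.U ka) (w0 := w0) (zz := zp) (k := kP C.Lam k1 k2 C.c0) C.H C.R (onS C ka) (seen C ka)
    (np C ka) hz (ix_pos hL k2) p
  have h6 := h3 _ (ns_nn C ka (5 * C.T)) (h1.trans h4)
  intro i u1 u2 A g C0 C1 C2 a1 a2 a3 O hg
  refine (h5 i u1 u2 A g C0 C1 C2 a1 a2 a3 O hg).trans ?_
  have h7 : ix C.Lam 1 ≤ 1 := CT.ix_le_one hL 1
  have h8 : 40 * C.Lam + 32 * Real.sqrt (th2f C.Lam C.A kL k1 k2 C.c0) * NS (C.U ka) (5 * C.T) ≤ 41 * C.Lam := by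
    linarith
  have h9 : 41 * C.Lam ≤ pw C.Lam 4 := CT.cLam hL (c := 41) 3 (by norm_num)
  show _ / ix C.Lam k2 ≤ _
  rw [div_le_iff₀ (ix_pos hL k2), CT.pw_add_ix hL]
  exact h8.trans h9

/-- the times of the zones are before the end of the epoch -/
theorem zzn_ed {C : Ctx} {ka : ℕ} {M : US C.O} (e : M.toMS = (C.U ka).toMS) {Q : Kd C.O} (n s : ℕ) (w : C.O)
    (hz : zzn M Q (5 * C.T) n s w) : s ≤ ed (C.U ka).toMS (5 * C.T) n w := by
  have h1 : MV.nu M.toMS s w = n := hz.2.1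
  rw [e] at h1
  exact (PayP.lt_ed hz.1 h1).le

/-- **the zone of a kind**, any theory `M` over the run; `rel` = relations of the exact lives (`tauS`), `ub` = bits -/
theorem zo {C : Ctx} {ka : ℕ} {M : US C.O} (hO : OnTab M C.tb TP.nn) (HS : Seen M) {Q : Kd C.O}
    {ub : Fin 3 → ℕ → ℕ → C.O → Prop} {R : ℕ → C.O → Prop} {rel : Fin 3 → ℕ → C.O → Prop} {Vk J : Finset (Fin 3)}
    (hub : ∀ j n s a b, n ≤ s → sgt C.D {j} (TP.nn s) a = sgt C.D {j} (TP.nn s) b → (ub j n s a ↔ ub j n s b))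
    (hut : ∀ j n s w, ub j n s w → UV.tv (C.U ka) j s w ≤ n) (hR : SeT C.v C.tb J R)
    (hrel : ∀ j ∈ Vk, SeT C.v C.tb J (rel j))
    (hal : ∀ n < 5 * C.T, ∀ w, C.tb.Ps.p w ≠ 0 → R n w → Alv C.h C.v C.tb C.p (eT C.v C.tb n w) w) :
    Zo C.h C.v C.tb (C.U ka) J C.p.X0 (fun n s w => zzn M Q (5 * C.T) n s w) ub R rel Vk where
  hCN := cn C ka
  hzn := fun _ _ _ hz => UV0.zzn_le hz
  hzz := fun _ s a b _ e => UV0.zzn_S hO HS s a b e
  hub := hub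
  hut := hut
  hR := hR
  hrel := hrel
  hX := fun n hn w hw hr j => PayPI.Alv_typ C.h (hal n hn w hw hr) j

/-- the zone of a kind in the run instance -/
theorem zoU {C : Ctx} {ka : ℕ} {Q : Kd C.O} {R : ℕ → C.O → Prop} {rel : Fin 3 → ℕ → C.O → Prop} {Vk J : Finset (Fin 3)}
    (hR : SeT C.v C.tb J R) (hrel : ∀ j ∈ Vk, SeT C.v C.tb J (rel j))
    (hal : ∀ n < 5 * C.T, ∀ w, C.tb.Ps.p w ≠ 0 → R n w → Alv C.h C.v C.tb C.p (eT C.v C.tb n w) w) :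
    Zo C.h C.v C.tb (C.U ka) J C.p.X0 (fun n s w => zzn (C.U ka) Q (5 * C.T) n s w)
      (fun j n s w => ubn (C.U ka) Q n j s w) R rel Vk :=
  zo (onTab C ka) (seen C ka) (fun j _ s a b _ e => UV0.ubn_S (onTab C ka) (seen C ka) j s a b e) (fun _ _ _ _ hh => hh.2.2)
    hR hrel hal

/-! ### in a round -/

/-- the weights of the covers -/
theorem b_le (r : Rd) {Lam : ℝ} (hL : 2 ≤ Lam) (hg : 12 ≤ r.kg) : 6 * pw Lam (r.lm + 4) ≤ pw Lam (r.kg + r.lm) := by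
  have h1 : pw Lam (r.lm + 4 + 2) ≤ pw Lam (r.kg + r.lm) := CT.pw_mono hL (by omega)
  have h2 := CT.pw_ge hL 2
  have h3 : pw Lam (r.lm + 4 + 2) = pw Lam (r.lm + 4) * pw Lam 2 := CT.pw_add _ _ _
  have h4 := CT.pw_pos hL (r.lm + 4)
  norm_num at h2
  rw [h3] at h1
  nlinarith

/-- the starts against the pieces -/
theorem ns_rare (A ka : ℕ) (r : Rd) : AllC A (fun C =>
    1 / (ix C.Lam r.m1 * ((Mp C.Lam C.c0 : ℝ) + 1)) * NS (C.U ka) (5 * C.T) ≤ ix C.Lam (r.kL + 52)) :=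
  ((ns_all A ka).and (CX.of_Ev (A := A) (CT.Mp_rare A r.m1 (r.kL + 52)))).mono fun _ h => h.2 _ h.1

/-- thickness of the tests, three tops -/
theorem tck (C : Ctx) : TstZ.Tck C.h C.v (FQ C.v) C.T C.Lam := TstZ.tck_FQ C.H C.R Ctx.hSe Ctx.hSu C.hNe
theorem tckM (C : Ctx) : TstZ.TckM C.h C.v (FQ C.v) C.T C.Lam := TstZ.tckM_FQ C.H C.R Ctx.hSe Ctx.hSu C.hNe

/-- thickness of the tests, two tops -/
theorem tck2 (C : Ctx) (i : Fin 3) : TstZ.Tck C.h C.v (fun t => Fo (FQ C.v t) i) C.T C.Lam :=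
  TstZ.tck_Fo (tck C) (by linarith [C.hL]) i
theorem tckM2 (C : Ctx) (i : Fin 3) : TstZ.TckM C.h C.v (fun t => Fo (FQ C.v t) i) C.T C.Lam :=
  TstZ.tckM_Fo (tckM C) (by linarith [C.hL]) i

end

end Pool.Agent.GMH.ZonC
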