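import Pool.Agent.GMH.RelFC
import Pool.Agent.GMH.UnmAB
import Pool.Agent.GMH.ZonC

/-!
# GMH/RelAB (helper28): the released sum of the three tops over `Ctx` in the two theories of `GMH/UnmAB` (row A6)

`Q k` : the kinds of the run (`C.Q3 c k`), `Kv k` : the vertices without status in the relation of the public tables, `yp` : the
threshold of the stretches.
* `bR`, `zR` : the bits of the run (`AB.btAB`, `AB.zAB` at `C.U ka`); `bR_pos`, `zR_pos` : seen by the positions;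
* `rlB_AB` : the released weight of `GMH/StpT` is `rels` of `A` plus `rels` of `B`;
* **`rel_AB`** : the field `rel` of `Fu` from `RelK` of the two theories, the signed sums, the thrown and the overlap sums.
-/

set_option autoImplicit false
set_option linter.unusedSectionVars false

namespace Pool.Agent.GMH.CX

open Finset Pool.Agent.PWZ Pool.Agent.M3 Pool.Agent.GM Pool.Agent.GM.Harm Pool.Agent.GMH Pool.Agent.GMH.NZ
open Pool.Agent.GMH.V3 Pool.Agent.GMH.TP Pool.Agent.GMH.TD Pool.Agent.GMH.Dy Pool.Agent.GMH.KF Pool.Agent.GMH.TRF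
open Pool.Agent.GMH.UV (US Kd Stps StpOK Prv Seen RelU RelG RelK RelNum I1 I2 rels)
open Pool.Agent.GMH.CT (ix Rc)

noncomputable section

section bits

variable (C : Ctx) (ka : ℕ) (yp : ℝ) (Q : Fin 10 → Kd C.O) (Kv : Fin 10 → Finset (Fin 3))

/-- the bits of the vertices of the run -/
def bR (k : Fin 10) (i : Fin 3) (q : ℕ) : C.O → Prop := AB.btAB (C.U ka) (Q k) yp (Kv k) (ZonC.seen C ka) i q

/-- the bits of the node of the run -/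
def zR (k : Fin 10) (q : ℕ) : C.O → Prop := AB.zAB (C.U ka) (Q k) yp (Kv k) (ZonC.seen C ka) q

theorem bR_fac (k : Fin 10) (i : Fin 3) (q : ℕ) : Fac (sgt (W := C.W) C.D {i} (TP.nn q)) (bR C ka yp Q Kv k i q) :=
  fun _ _ e => propext (AB.btAB_S (ZonC.seen C ka) i le_rfl e)

theorem zR_fac (k : Fin 10) (q : ℕ) : Fac (sgt (W := C.W) C.D ∅ (TP.nn q)) (zR C ka yp Q Kv k q) :=
  fun _ _ e => propext (AB.zAB_S (ZonC.seen C ka) le_rfl e)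

theorem bR_pos (k : Fin 10) (i : Fin 3) (q : ℕ) : Pos (bR C ka yp Q Kv k i q) := pos_of (bR_fac C ka yp Q Kv k i q)

theorem zR_pos (k : Fin 10) (q : ℕ) : Pos (zR C ka yp Q Kv k q) := pos_of (zR_fac C ka yp Q Kv k q)

/-- the real steps of the kind `k` -/
abbrev stR (c : KC) (B : ℝ) (gM : Fin 10 → ℕ → C.O → Prop) (k : Fin 10) : Stps (Om := C.O) :=
  stps C.h C.tb C.v c B (C.aN ka) gM C.Kf k

variable {C ka yp Q Kv}

/-- **THE RELEASED WEIGHT** of the kind `k` in the two theories -/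
theorem rlB_AB {c : KC} {B : ℝ} {gM : Fin 10 → ℕ → C.O → Prop} (k : Fin 10) (hV : (Q k).Vk = vk k) (q : ℕ) (w : C.O) :
    rlB C.h C.tb C.v c B (C.aN ka) (bR C ka yp Q Kv) (zR C ka yp Q Kv) gM k q w =
      rels (AB.MA (C.U ka) yp (ZonC.seen C ka)) (AB.QA (C.U ka) (Q k)) (stR C ka c B gM k) q w +
      rels (AB.MB (C.U ka) (Q k) yp (ZonC.seen C ka)) (AB.QB (C.U ka) (Q k) (Kv k))
        (AB.StB (C.U ka) (Q k) yp (stR C ka c B gM k) (ZonC.seen C ka)) q w := by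
  rw [← AB.rels_AB (K := Kv k) (ZonC.seen C ka) (fun v q hr => rp_ru C.tb hr)]
  unfold rlB AB.rlAB
  rw [hV]
  rfl

end bits

/-- **THE RELEASED SUM OF THE THREE TOPS** (`Fu.rel`) in the two theories -/
theorem rel_AB (C : Ctx) (ka : ℕ) (yp : ℝ) (Q : Fin 10 → Kd C.O) (Kv : Fin 10 → Finset (Fin 3)) (hV : ∀ k ∈ rK, (Q k).Vk = vk k)
    {c : KC} {B : ℝ} {gM : Fin 10 → ℕ → C.O → Prop} {QA' QB' : Fin 10 → Kd C.O} {CA CB : Fin 10 → Stps (Om := C.O)}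
    {rA rB : Fin 10 → CT.Rd} {kaA kaB : Fin 10 → ℕ} {cA eA yA zA cB eB yB zB : Fin 10 → ℝ} {dA dB KA KB : ℝ}
    (hA : ∀ k ∈ rK, RelK (rA k) C.Lam (kaA k) (cA k) (eA k) (yA k) (zA k) (AB.MA (C.U ka) yp (ZonC.seen C ka))
      (AB.QA (C.U ka) (Q k)) (QA' k) (CA k) (stR C ka c B gM k) (5 * C.T) dA KA)
    (hB : ∀ k ∈ rK, RelK (rB k) C.Lam (kaB k) (cB k) (eB k) (yB k) (zB k) (AB.MB (C.U ka) (Q k) yp (ZonC.seen C ka))
      (AB.QB (C.U ka) (Q k) (Kv k)) (QB' k) (CB k) (AB.StB (C.U ka) (Q k) yp (stR C ka c B gM k) (ZonC.seen C ka))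
      (5 * C.T) dB KB)
    {c1 : ℝ} (hc0 : 0 ≤ c1) (hc1 : c1 ≤ 4 ^ 17)
    (iA1 : ∀ v ∈ vk 1, I1 (AB.MA (C.U ka) yp (ZonC.seen C ka)) (AB.QA (C.U ka) (Q 1)) (5 * C.T) v ≤ c1 * ix C.Lam 44)
    (iA2 : ∀ v, ∑ k ∈ ({2, 3, 4, 5} : Finset (Fin 10)), (if v ∈ vk k then
      I1 (AB.MA (C.U ka) yp (ZonC.seen C ka)) (AB.QA (C.U ka) (Q k)) (5 * C.T) v else 0) ≤ c1 * ix C.Lam 44)
    (iB1 : ∀ v ∈ vk 1, I1 (AB.MB (C.U ka) (Q 1) yp (ZonC.seen C ka)) (AB.QB (C.U ka) (Q 1) (Kv 1)) (5 * C.T) v ≤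
      c1 * ix C.Lam 44)
    (iB2 : ∀ v, ∑ k ∈ ({2, 3, 4, 5} : Finset (Fin 10)), (if v ∈ vk k then
      I1 (AB.MB (C.U ka) (Q k) yp (ZonC.seen C ka)) (AB.QB (C.U ka) (Q k) (Kv k)) (5 * C.T) v else 0) ≤ c1 * ix C.Lam 44)
    (zA2 : ∀ k ∈ rK, I2 (AB.MA (C.U ka) yp (ZonC.seen C ka)) (AB.QA (C.U ka) (Q k)) (5 * C.T) ≤ c1 * ix C.Lam 44)
    (zB2 : ∀ k ∈ rK, I2 (AB.MB (C.U ka) (Q k) yp (ZonC.seen C ka)) (AB.QB (C.U ka) (Q k) (Kv k)) (5 * C.T) ≤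
      c1 * ix C.Lam 44)
    (hth : 3 * C.Lam * ∑ k ∈ rK, ∑ q ∈ range (5 * C.T), C.tb.Ps.Pr (thO C.h C.tb C.v c B (C.aN ka) (bR C ka yp Q Kv)
      (zR C ka yp Q Kv) gM k q) ≤ ix C.Lam 24)
    (hov : 3 * C.Lam * ∑ k ∈ rK, ∑ q ∈ range (5 * C.T), ∑ i ∈ vk k, ∑ j ∈ vk k,
      (if i < j then C.tb.Ps.Pr (ovO C.h C.tb C.v c B (C.aN ka) (bR C ka yp Q Kv) gM k i j q) else 0) ≤ ix C.Lam 24) :
    ∑ t ∈ range C.T, ∑ s, RelS C.h C.v c B (fun k i q => lft (bR C ka yp Q Kv k i q)) (fun k q => lft (zR C ka yp Q Kv k q))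
      (C.aN ka) C.Kf s t ≤ (pw C.Lam 17)⁻¹ := by
  have h44 : 0 ≤ c1 * ix C.Lam 44 := mul_nonneg hc0 (CT.ix_nn C.hL 44)
  have r1 : (1 : Fin 10) ∈ rK := by decide
  have r2 : ∀ k ∈ ({2, 3, 4, 5} : Finset (Fin 10)), k ∈ rK := by decide
  refine rel_ctx C ka (bR_pos C ka yp Q Kv) (zR_pos C ka yp Q Kv)
    (MA := fun _ => AB.MA (C.U ka) yp (ZonC.seen C ka)) (MB := fun k => AB.MB (C.U ka) (Q k) yp (ZonC.seen C ka))
    (fun _ => rfl) (fun _ => rfl) (QA := fun k => AB.QA (C.U ka) (Q k)) (QB := fun k => AB.QB (C.U ka) (Q k) (Kv k))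
    (SA := stR C ka c B gM) (SB := fun k => AB.StB (C.U ka) (Q k) yp (stR C ka c B gM k) (ZonC.seen C ka))
    (fun k hk q _ w _ => ?_) hA hB hc0 hc1 (fun v => ?_) (fun v => ?_) (fun v => ?_) (fun v => ?_) zA2 zB2 hth hov
  · rw [rlB_AB k (hV k hk), add_mul]
    rfl
  · by_cases hv : v ∈ vk 1
    · rw [if_pos (show v ∈ (AB.QA (C.U ka) (Q 1)).Vk by rw [show (AB.QA (C.U ka) (Q 1)).Vk = (Q 1).Vk from rfl, hV 1 r1]; exact hv)]
      exact iA1 v hv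
    · rw [if_neg (show ¬ v ∈ (AB.QA (C.U ka) (Q 1)).Vk by rw [show (AB.QA (C.U ka) (Q 1)).Vk = (Q 1).Vk from rfl, hV 1 r1]; exact hv)]
      exact h44
  · refine le_trans (le_of_eq (Finset.sum_congr rfl fun k hk => ?_)) (iA2 v)
    rw [show (AB.QA (C.U ka) (Q k)).Vk = (Q k).Vk from rfl, hV k (r2 k hk)]
  · by_cases hv : v ∈ vk 1
    · rw [if_pos (show v ∈ (AB.QB (C.U ka) (Q 1) (Kv 1)).Vk by
        rw [show (AB.QB (C.U ka) (Q 1) (Kv 1)).Vk = (Q 1).Vk from rfl, hV 1 r1]; exact hv)]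
      exact iB1 v hv
    · rw [if_neg (show ¬ v ∈ (AB.QB (C.U ka) (Q 1) (Kv 1)).Vk by
        rw [show (AB.QB (C.U ka) (Q 1) (Kv 1)).Vk = (Q 1).Vk from rfl, hV 1 r1]; exact hv)]
      exact h44
  · refine le_trans (le_of_eq (Finset.sum_congr rfl fun k hk => ?_)) (iB2 v)
    rw [show (AB.QB (C.U ka) (Q k) (Kv k)).Vk = (Q k).Vk from rfl, hV k (r2 k hk)]

end

end Pool.Agent.GMH.CX
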