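import Pool.Agent.GMH.RelF

/-!
# GMH/RelB (helper58): THE NUMBERS OF THE DECISIONS BY BOOTSTRAP (row A6)

The bounds of the removals which are not good (thrown sums) need a priori numbers of the decisions; the numbers need these bounds.
`N (n) = NA M Q n` starts at `0` and grows by at most `4` per step.
* `RelU` : the inputs of `RelC` for all final times `n ≤ N` at once, the bounds `ng`, `ngz` at `n` under `NA M Q n ≤ x^Z + 4`;
* **`RelU.boot`** : `RelC` at every `n ≤ N`.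
-/

set_option autoImplicit false
set_option linter.unusedSectionVars false

namespace Pool.Agent.GMH.UV

open Finset Pool.Agent.PWZ Pool.Agent.M3 Pool.Agent.GMH.TD Pool.Agent.GMH.CK Pool.Agent.GMH.MV Pool.Agent.GMH.UnmL
open Pool.Agent.GMH.V3 Pool.Agent.GMH.CT

noncomputable section

variable {Om : Type} [Fintype Om]

/-- the inputs for all final times -/
structure RelU (r : Rd) (Lam : ℝ) (ka : ℕ) (c e y y0 : ℝ) (M : US Om) (Q Q' : Kd Om) (A : Stps (Om := Om)) (N : ℕ) :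
    Prop where
  sn : Seen M
  ss : StS M A
  sc : StpC M A
  vk : Q.Vk.card ≤ 3
  uB : Q.uB = ix Lam r.uB
  u0 : Q.u0 = ix Lam r.u0
  ng : ∀ n ≤ N, NA M Q n ≤ pw Lam r.Z + 4 → ∀ v ∈ Q.Vk, ∑ q ∈ range n, M.P.Pr (ngk M Q A v q) ≤ c * ix Lam r.sq * NA M Q n + e
  af : ∀ v ∈ Q.Vk, ∑ q ∈ range N, M.P.Pr (fun w => afv M Q A v q w ∧ y < Dev M Q v q w) ≤ e
  rd : ∀ v ∈ Q.Vk, ∑ q ∈ range N, M.P.Pr (fun w => rdv M Q A v q w ∧ ix Lam r.uB ^ 2 < Mx M Q' v (q + 1) w) ≤ e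
  fv : ∀ n ≤ N, ∀ v ∈ Q.Vk, M.P.Pr (fun w => bet M Q v n w ∧ y < Mx M Q v n w) ≤ e
  ex : ∀ v ∈ Q.Vk, ∑ q ∈ range N, M.P.Pr (exv M Q Q' A v q) ≤ pw Lam r.km
  sf : ∀ v ∈ Q.Vk, ∑ n ∈ range N, M.P.Pr (fun w => sf M A n w ∧ y0 < Dn M Q (some v) n w) ≤ e
  ngz : ∀ n ≤ N, NA M Q n ≤ pw Lam r.Z + 4 → ∀ o, ∑ q ∈ range n, M.P.Pr (ng0 M Q A o q) ≤ c * ix Lam r.sq * NA M Q n + e
  afz : ∀ o, ∑ q ∈ range N, M.P.Pr (fun w => af0 M Q A q w ∧ y < De0 M Q o q w) ≤ e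
  rdz : ∑ q ∈ range N, M.P.Pr (fun w => rd0 M Q A q w ∧ ix Lam r.u0 ^ 2 < Dn M Q' none (q + 1) w) ≤ e
  fz : ∀ n ≤ N, ∀ o, M.P.Pr (fun w => Z0 M Q n w ∧ y < Dn M Q o n w) ≤ e
  exz : ∀ o, ∑ q ∈ range N, M.P.Pr (ex0 M Q Q' A o q) ≤ pw Lam r.kz

variable {r : Rd} {Lam : ℝ} {ka : ℕ} {c e y y0 : ℝ} {M : US Om} {Q Q' : Kd Om} {A : Stps (Om := Om)} {N : ℕ}

theorem NA_zero (M : US Om) (Q : Kd Om) : NA M Q 0 = 0 := by
  unfold NA NT Nz
  simp

/-- one step -/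
theorem NA_succ (M : US Om) (Q : Kd Om) (hV : Q.Vk.card ≤ 3) (n : ℕ) : NA M Q (n + 1) ≤ NA M Q n + 4 := by
  have h1 : ∀ v ∈ Q.Vk, NT M Q v (n + 1) ≤ NT M Q v n + 1 := fun v _ => by
    unfold NT
    rw [Finset.sum_range_succ]
    exact add_le_add le_rfl (M.P.Pr_le_one _)
  have h2 : Nz M Q (n + 1) ≤ Nz M Q n + 1 := by
    unfold Nz
    rw [Finset.sum_range_succ]
    exact add_le_add le_rfl (M.P.Pr_le_one _)
  have h3 := Finset.sum_le_sum h1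
  rw [Finset.sum_add_distrib, Finset.sum_const, nsmul_eq_mul, mul_one] at h3
  have h4 : (Q.Vk.card : ℝ) ≤ 3 := by exact_mod_cast hV
  unfold NA
  linarith

private theorem mono_sum {f : ℕ → ℝ} (hf : ∀ q, 0 ≤ f q) {n : ℕ} (hn : n ≤ N) {x : ℝ} (h : ∑ q ∈ range N, f q ≤ x) :
    ∑ q ∈ range n, f q ≤ x :=
  (Finset.sum_le_sum_of_subset_of_nonneg (Finset.range_mono hn) fun q _ _ => hf q).trans h

namespace RelU

variable (h : RelU r Lam ka c e y y0 M Q Q' A N) (g : RelNum r Lam ka c e y y0)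

include h

/-- the inputs at one final time -/
theorem toC {n : ℕ} (hn : n ≤ N) (hN : NA M Q n ≤ pw Lam r.Z + 4) : RelC r Lam ka c e y y0 M Q Q' A n where
  sn := h.sn
  ss := h.ss
  sc := h.sc
  vk := h.vk
  uB := h.uB
  u0 := h.u0
  ng := h.ng n hn hN
  af := fun v hv => mono_sum (fun _ => FP.Pr_nonneg _ _) hn (h.af v hv)
  rd := fun v hv => mono_sum (fun _ => FP.Pr_nonneg _ _) hn (h.rd v hv)
  fv := h.fv n hn
  ex := fun v hv => mono_sum (fun _ => FP.Pr_nonneg _ _) hn (h.ex v hv)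
  sf := fun v hv => mono_sum (fun _ => FP.Pr_nonneg _ _) hn (h.sf v hv)
  ngz := h.ngz n hn hN
  afz := fun o => mono_sum (fun _ => FP.Pr_nonneg _ _) hn (h.afz o)
  rdz := mono_sum (fun _ => FP.Pr_nonneg _ _) hn h.rdz
  fz := h.fz n hn
  exz := fun o => mono_sum (fun _ => FP.Pr_nonneg _ _) hn (h.exz o)

include g

/-- **BOOTSTRAP** -/
theorem boot : ∀ n ≤ N, RelC r Lam ka c e y y0 M Q Q' A n ∧ NA M Q n ≤ pw Lam r.Z := by
  have key : ∀ n, n ≤ N → NA M Q n ≤ pw Lam r.Z + 4 → RelC r Lam ka c e y y0 M Q Q' A n ∧ NA M Q n ≤ pw Lam r.Z :=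
    fun n hn hN => ⟨h.toC hn hN, ((h.toC hn hN).num g).2.2⟩
  intro n
  induction n with
  | zero =>
    intro hn
    refine key 0 hn ?_
    rw [NA_zero]
    have := pw_pos g.hL r.Z
    linarith
  | succ n ih =>
    intro hn
    obtain ⟨-, h2⟩ := ih (by omega)
    have h3 := NA_succ M Q h.vk n
    exact key (n + 1) hn (by linarith)

/-- at the final time -/
theorem fin : RelC r Lam ka c e y y0 M Q Q' A N := (h.boot g N le_rfl).1

end RelU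

end

end Pool.Agent.GMH.UV
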