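import Pool.Agent.GMH.UnmP

/-!
# GMH/RelM (helper28): THE MASS OF THE DECIDED TUPLES, AT THE DECISIONS AND AT THE ZONES (row A6)

`R` = any relation of the tables, `G` = any event at the removals (`good`).
* `mass_v` : `Σ Pr(T^v = s, R (life))` is at most the mass at the removals which end a decided life (with `G`, without `G`),
  plus `y` per decision, the rare a-free ends, the final time: this bounds `NB + NC` of `GMH/UVZ`;
* `mass_0` : the same for the zones: this bounds `NA` of `GMH/UV0`.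
-/

set_option autoImplicit false
set_option linter.unusedSectionVars false

namespace Pool.Agent.GMH.UV

open Finset Pool.Agent.PWZ Pool.Agent.M3 Pool.Agent.GMH.TD Pool.Agent.GMH.CK Pool.Agent.GMH.MV Pool.Agent.GMH.UnmL
open Pool.Agent.GMH.Gdy (ce_congr_on)

noncomputable section

variable {Om : Type} [Fintype Om] {M : US Om} {Q : Kd Om} {A : Stps (Om := Om)}

/-- **THE MASS AT THE DECISIONS OF THE VERTEX `v`** -/
theorem mass_v (H : Seen M) (HS : StS M A) {v : Fin 3} (R : ℕ → Om → Prop) (G : ℕ → Om → Prop) {y : ℝ} (hy : 0 ≤ y) (T : ℕ) :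
    ∑ s ∈ range T, M.P.Pr (fun w => tkx M Q v s w ∧ R (tv M v s w) w) ≤
      ∑ q ∈ range T, M.P.Pr (fun w => (A.rp v q w ∨ A.ru q w) ∧ R (tv M v q w) w ∧ bet M Q v q w ∧ G q w) +
      ∑ q ∈ range T, M.P.Pr (fun w => (A.rp v q w ∨ A.ru q w) ∧ R (tv M v q w) w ∧ bet M Q v q w ∧ ¬ G q w) +
      (y * NT M Q v T + ∑ q ∈ range T, M.P.Pr (fun w => afv M Q A v q w ∧
        y < M.P.ce (M.S {v} (q + 1)) (fun u => ind (R (tv M v q u) u)) w)) +
      M.P.Pr (fun w => R (tv M v T w) w ∧ bet M Q v T w) := by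
  have h2 : ∑ s ∈ range T, M.P.Pr (fun w => tkx M Q v s w ∧ R (tv M v s w) w) ≤
      ∑ q ∈ range T, M.P.Pr (fun w => tv M v (q + 1) w = q + 1 ∧ R (tv M v q w) w ∧ bet M Q v q w) +
      M.P.Pr (fun w => R (tv M v T w) w ∧ bet M Q v T w) := by
    refine Pr_ends (C := M.Cv v) (fun w s s' h h' e => tkx_one h.1 h'.1 e) (fun w s q h a b c => ?_)
      (fun w s hs h e => ?_)
    · have hb : tv M v q w = tv M v s w := b
      have l1 : tv M v s w ≤ s := stg_le _ _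
      exact ⟨c, by rw [hb]; exact h.2, bet_iff.2 ⟨s, by rw [hb]; exact l1, a, h.1⟩⟩
    · have hb : tv M v T w = tv M v s w := e
      have l1 : tv M v s w ≤ s := stg_le _ _
      exact ⟨by rw [hb]; exact h.2, bet_iff.2 ⟨s, by rw [hb]; exact l1, hs.le, h.1⟩⟩
  have h3 : ∑ q ∈ range T, M.P.Pr (fun w => tv M v (q + 1) w = q + 1 ∧ R (tv M v q w) w ∧
      bet M Q v q w) ≤
      ∑ q ∈ range T, M.P.Pr (fun w => (A.rp v q w ∨ A.ru q w) ∧ R (tv M v q w) w ∧ bet M Q v q w ∧ G q w) +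
      ∑ q ∈ range T, M.P.Pr (fun w => (A.rp v q w ∨ A.ru q w) ∧ R (tv M v q w) w ∧ bet M Q v q w ∧ ¬ G q w) +
      ∑ q ∈ range T, M.P.Pr (fun w => afv M Q A v q w ∧ R (tv M v q w) w) := by
    rw [← Finset.sum_add_distrib, ← Finset.sum_add_distrib]
    refine Finset.sum_le_sum fun q _ => (M.P.Pr_mono (t := fun w =>
      (((A.rp v q w ∨ A.ru q w) ∧ R (tv M v q w) w ∧ bet M Q v q w ∧ G q w) ∨
      ((A.rp v q w ∨ A.ru q w) ∧ R (tv M v q w) w ∧ bet M Q v q w ∧ ¬ G q w)) ∨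
      (afv M Q A v q w ∧ R (tv M v q w) w)) fun w _ h => ?_).trans ((M.P.Pr_or_le _ _).trans
        (add_le_add (M.P.Pr_or_le _ _) le_rfl))
    obtain ⟨a, b, c⟩ := h
    by_cases h4 : A.rp v q w ∨ A.ru q w
    · by_cases h5 : G q w
      · exact Or.inl (Or.inl ⟨h4, b, c, h5⟩)
      · exact Or.inl (Or.inr ⟨h4, b, c, h5⟩)
    · exact Or.inr ⟨⟨a, c, fun h => h4 (Or.inl h), fun h => h4 (Or.inr h)⟩, b⟩
  have h4 : ∑ q ∈ range T, M.P.Pr (fun w => afv M Q A v q w ∧ R (tv M v q w) w) ≤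
      y * NT M Q v T + ∑ q ∈ range T, M.P.Pr (fun w => afv M Q A v q w ∧
        y < M.P.ce (M.S {v} (q + 1)) (fun u => ind (R (tv M v q u) u)) w) := by
    have g1 : ∀ q ∈ range T, M.P.Pr (fun w => afv M Q A v q w ∧ R (tv M v q w) w) ≤
        y * M.P.Pr (afv M Q A v q) + M.P.Pr (fun w => afv M Q A v q w ∧
          y < M.P.ce (M.S {v} (q + 1)) (fun u => ind (R (tv M v q u) u)) w) := fun q _ =>
      dens_le (Z := M.S {v} (q + 1)) (fun x w e => afv_S H HS v q e) _ hy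
    refine (Finset.sum_le_sum g1).trans ?_
    rw [Finset.sum_add_distrib, ← Finset.mul_sum]
    have g2 := mul_le_mul_of_nonneg_left (afv_cnt (M := M) (Q := Q) (A := A) v T) hy
    linarith
  linarith

/-- **THE MASS AT THE ZONES** -/
theorem mass_0 (H : Seen M) (HS : StS M A) (R : ℕ → Om → Prop) (G : ℕ → Om → Prop) {y : ℝ} (hy : 0 ≤ y) (T : ℕ) :
    ∑ s ∈ range T, M.P.Pr (fun w => zt M Q s w ∧ R (nu M.toMS s w) w) ≤
      ∑ q ∈ range T, M.P.Pr (fun w => A.ru q w ∧ Z0 M Q q w ∧ R (nu M.toMS q w) w ∧ G q w) +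
      ∑ q ∈ range T, M.P.Pr (fun w => A.ru q w ∧ Z0 M Q q w ∧ R (nu M.toMS q w) w ∧ ¬ G q w) +
      (y * Nz M Q T + ∑ q ∈ range T, M.P.Pr (fun w => af0 M Q A q w ∧
        y < M.P.ce (M.S ∅ (q + 1)) (fun u => ind (R (nu M.toMS q u) u)) w)) +
      M.P.Pr (fun w => R (nu M.toMS T w) w ∧ Z0 M Q T w) := by
  have h2 : ∑ s ∈ range T, M.P.Pr (fun w => zt M Q s w ∧ R (nu M.toMS s w) w) ≤
      ∑ q ∈ range T, M.P.Pr (fun w => nu M.toMS (q + 1) w = q + 1 ∧ Z0 M Q q w ∧ R (nu M.toMS q w) w) +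
      M.P.Pr (fun w => R (nu M.toMS T w) w ∧ Z0 M Q T w) := by
    refine Pr_ends (C := C0 M.toMS) (fun w s s' h h' e => zt_one h.1 h'.1 e) (fun w s q h a b c => ?_)
      (fun w s hs h e => ?_)
    · have hb : nu M.toMS q w = nu M.toMS s w := b
      have l1 : nu M.toMS s w ≤ s := stg_le _ _
      exact ⟨c, Z0_iff.2 ⟨s, by rw [hb]; exact l1, a, h.1⟩, by rw [hb]; exact h.2⟩
    · have hb : nu M.toMS T w = nu M.toMS s w := e
      have l1 : nu M.toMS s w ≤ s := stg_le _ _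
      exact ⟨by rw [hb]; exact h.2, Z0_iff.2 ⟨s, by rw [hb]; exact l1, hs.le, h.1⟩⟩
  have h3 : ∑ q ∈ range T, M.P.Pr (fun w => nu M.toMS (q + 1) w = q + 1 ∧ Z0 M Q q w ∧ R (nu M.toMS q w) w) ≤
      ∑ q ∈ range T, M.P.Pr (fun w => A.ru q w ∧ Z0 M Q q w ∧ R (nu M.toMS q w) w ∧ G q w) +
      ∑ q ∈ range T, M.P.Pr (fun w => A.ru q w ∧ Z0 M Q q w ∧ R (nu M.toMS q w) w ∧ ¬ G q w) +
      ∑ q ∈ range T, M.P.Pr (fun w => af0 M Q A q w ∧ R (nu M.toMS q w) w) := by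
    rw [← Finset.sum_add_distrib, ← Finset.sum_add_distrib]
    refine Finset.sum_le_sum fun q _ => (M.P.Pr_mono (t := fun w =>
      ((A.ru q w ∧ Z0 M Q q w ∧ R (nu M.toMS q w) w ∧ G q w) ∨
      (A.ru q w ∧ Z0 M Q q w ∧ R (nu M.toMS q w) w ∧ ¬ G q w)) ∨
      (af0 M Q A q w ∧ R (nu M.toMS q w) w)) fun w _ h => ?_).trans ((M.P.Pr_or_le _ _).trans
        (add_le_add (M.P.Pr_or_le _ _) le_rfl))
    obtain ⟨a, b, c⟩ := h
    by_cases h4 : A.ru q w
    · by_cases h5 : G q w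
      · exact Or.inl (Or.inl ⟨h4, b, c, h5⟩)
      · exact Or.inl (Or.inr ⟨h4, b, c, h5⟩)
    · exact Or.inr ⟨⟨a, b, h4⟩, c⟩
  have h4 : ∑ q ∈ range T, M.P.Pr (fun w => af0 M Q A q w ∧ R (nu M.toMS q w) w) ≤
      y * Nz M Q T + ∑ q ∈ range T, M.P.Pr (fun w => af0 M Q A q w ∧
        y < M.P.ce (M.S ∅ (q + 1)) (fun u => ind (R (nu M.toMS q u) u)) w) := by
    have g1 : ∀ q ∈ range T, M.P.Pr (fun w => af0 M Q A q w ∧ R (nu M.toMS q w) w) ≤
        y * M.P.Pr (af0 M Q A q) + M.P.Pr (fun w => af0 M Q A q w ∧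
          y < M.P.ce (M.S ∅ (q + 1)) (fun u => ind (R (nu M.toMS q u) u)) w) := fun q _ =>
      dens_le (Z := M.S ∅ (q + 1)) (fun x w e => af0_S H HS q e) _ hy
    refine (Finset.sum_le_sum g1).trans ?_
    rw [Finset.sum_add_distrib, ← Finset.mul_sum]
    have g2 := mul_le_mul_of_nonneg_left (af0_cnt (M := M) (Q := Q) (A := A) T) hy
    linarith
  linarith

end

end Pool.Agent.GMH.UV
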