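import Pool.Agent.GMH.UnmP

/-!
# GMH/UnmP2 (helper58): THE PARTNERS AT THE NEXT PUBLIC START, COUNTED PER DECISION (H3.UNM, U.2 (iv))

`UnmP.prt_le` counts all the public starts of the decided lives (up to `exp (4 Q)`).  Here only the FIRST public start after
the decision is used: `fpn v n`.  At most one per decided life.
* `fpn_cnt` : `∑ P (fpn v n) ≤ NT v`; `fpn_sf` : it is not after a removal;
* **`prt_le2`** : the partners: `ux NT v' + (u0/ux) NT v + (y0/ux) NT v + rare`; **`lost_le2`** : the lost lives.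
-/

set_option autoImplicit false
set_option linter.unusedSectionVars false

namespace Pool.Agent.GMH.UV

open Finset Pool.Agent.PWZ Pool.Agent.M3 Pool.Agent.GMH.TD Pool.Agent.GMH.CK Pool.Agent.GMH.MV Pool.Agent.GMH.UnmL
open Pool.Agent.GMH.Gdy (ce_congr_on)

noncomputable section

variable {Om : Type} [Fintype Om] (M : US Om) (Q : Kd Om)

/-- the first public start after the decision, in the life -/
def fpn (v : Fin 3) (n : ℕ) (w : Om) : Prop :=
  nu M.toMS n w = n ∧ tv M v n w < n ∧ bet M Q v n w ∧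
    ∀ n', tv M v n w < n' → n' < n → nu M.toMS n' w = n' → ¬ bet M Q v n' w

variable {M Q} {A : Stps (Om := Om)} {δ : ℝ}

theorem fpn_S (H : Seen M) (v : Fin 3) {n s' : ℕ} (h : n ≤ s') {a b : Om} (e : M.S {v} s' a = M.S {v} s' b) :
    fpn M Q v n a ↔ fpn M Q v n b := by
  have e0 : M.S ∅ s' a = M.S ∅ s' b := M.mS ∅ {v} s' (Finset.empty_subset _) a b e
  unfold fpn
  rw [nu_S H h a b e0, tau_S H v h a b e, bet_S H v h e]
  refine and_congr_right fun _ => and_congr_right fun _ => and_congr_right fun _ => forall_congr' fun n' =>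
    forall_congr' fun _ => forall_congr' fun hn => ?_
  rw [nu_S H (hn.le.trans h) a b e0, bet_S H v (hn.le.trans h) e]

/-- two in the same life are equal -/
theorem fpn_one {v : Fin 3} {n n' : ℕ} {w : Om} (h : fpn M Q v n w) (h' : fpn M Q v n' w)
    (e : tv M v n w = tv M v n' w) : n = n' := by
  rcases lt_trichotomy n n' with h1 | h1 | h1
  · exact absurd h.2.2.1 (h'.2.2.2 n (by rw [← e]; exact h.2.1) h1 h.1)
  · exact h1
  · exact absurd h'.2.2.1 (h.2.2.2 n' (by rw [e]; exact h'.2.1) h1 h'.1)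

/-- at most one per decision -/
theorem fpn_cnt (v : Fin 3) (T : ℕ) : ∑ n ∈ range T, M.P.Pr (fpn M Q v n) ≤ NT M Q v T := by
  unfold NT
  refine Pr_inj (l := tv M v) (fun w _ n hn h => ?_) (fun w _ n _ n' _ h h' e => fpn_one h h' e)
  obtain ⟨s, a, b, c⟩ := bet_iff.1 h.2.2.1
  exact ⟨s, lt_of_le_of_lt b hn, c, stg_mid rfl a b⟩

/-- it is not after a removal -/
theorem fpn_sf (HA : StpOK M Q A δ) {v : Fin 3} {n : ℕ} {w : Om} (hw : M.P.p w ≠ 0) (h : fpn M Q v n w) :
    sf M A n w := by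
  have hn : 0 < n := by
    have := h.2.1
    omega
  refine ⟨h.1, hn, fun h5 => ?_⟩
  have h6 := HA.endu w hw v (n - 1) h5
  rw [show n - 1 + 1 = n by omega] at h6
  have := h.2.1
  omega

/-- existence -/
theorem fpn_ex {v : Fin 3} {q m : ℕ} {w : Om} (h1 : tv M v q w < m) (h2 : m ≤ q) (h3 : nu M.toMS m w = m)
    (h4 : bet M Q v m w) : ∃ n, n ≤ m ∧ tv M v q w < n ∧ fpn M Q v n w := by
  classical
  have hex : ∃ n, tv M v q w < n ∧ nu M.toMS n w = n ∧ bet M Q v n w := ⟨m, h1, h3, h4⟩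
  obtain ⟨k1, k2, k3⟩ := Nat.find_spec hex
  have k4 : Nat.find hex ≤ m := Nat.find_min' hex ⟨h1, h3, h4⟩
  have k5 : tv M v (Nat.find hex) w = tv M v q w := stg_mid rfl k1.le (k4.trans h2)
  refine ⟨Nat.find hex, k4, k1, k2, by rw [k5]; exact k1, k3, fun n' a b c d => ?_⟩
  exact Nat.find_min hex b ⟨by rw [← k5]; exact a, c, d⟩

/-- **THE PARTNERS** -/
theorem prt_le2 (H : Seen M) (HS : StS M A) (HA : StpOK M Q A δ) (HP : Prv M Q) {v : Fin 3} (hv : v ∈ Q.Vk)
    {ux y0 : ℝ} (x0 : 0 < ux)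
    (u0 : 0 ≤ Q.u0) (hy : 0 ≤ y0) (T : ℕ) :
    ∑ q ∈ range T, M.P.Pr (lpr M Q A v q) ≤ ∑ v' ∈ Q.Vk.erase v, (ux * NT M Q v' T + Q.u0 / ux * NT M Q v T +
      (y0 / ux * NT M Q v T + ∑ n ∈ range T, M.P.Pr (fun w => sf M A n w ∧ y0 < Dn M Q (some v') n w))) := by
  classical
  -- the three cases
  set B1 : Fin 3 → ℕ → Om → Prop := fun v' q w => A.ru q w ∧ ka M Q v' q w ∧
    ∃ r, tv M v' q w ≤ r ∧ r ≤ q ∧ dx M Q ux v' r w with hB1
  set B2 : Fin 3 → ℕ → Om → Prop := fun v' q w => A.ru q w ∧ ∃ s, tv M v q w ≤ s ∧ s ≤ q ∧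
    (tkx M Q v s w ∧ ¬ Z0 M Q s w ∧ tv M v s w ≤ nu M.toMS s w) ∧ al M Q ux v' s w with hB2
  set B3 : Fin 3 → ℕ → Om → Prop := fun v' q w => A.ru q w ∧ ∃ n, tv M v q w ≤ n ∧ n ≤ q ∧
    fpn M Q v n w ∧ al M Q ux v' n w with hB3
  have key : ∀ q w, M.P.p w ≠ 0 → ind (lpr M Q A v q w) ≤
      ∑ v' ∈ Q.Vk.erase v, (ind (B1 v' q w) + ind (B2 v' q w) + ind (B3 v' q w)) := by
    intro q w hw
    have n0 : ∀ v', 0 ≤ ind (B1 v' q w) + ind (B2 v' q w) + ind (B3 v' q w) := fun v' => by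
      have := ind_nonneg (B1 v' q w)
      have := ind_nonneg (B2 v' q w)
      have := ind_nonneg (B3 v' q w)
      linarith
    by_cases h : lpr M Q A v q w
    · rw [ind_of h]
      obtain ⟨_, _, hb, hp⟩ := h
      obtain ⟨s, a, b, c⟩ := bet_iff.1 hb
      obtain ⟨v', hv', hne, k1, k2, k3, k4⟩ := prt_cases HA hw hp a b c
      have hg := hp.1
      have hu := hp.2.1
      have hb2 : bet M Q v' q w := bet_mono b k1.symm k3
      have hkd : ka M Q v' q w :=
        ⟨Q.hkv v' hv' _ _ (HA.gdv w hw v' hv' q hg (Or.inr hu) (Or.inl hb2)), HA.gal hw hg hu⟩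
      have hlst := HA.lst w hw v hv q hg hu
      have hs : tv M v s w = tv M v q w := stg_mid rfl a b
      have l1 : tv M v' s w ≤ s := stg_le _ _
      have hin : v' ∈ Q.Vk.erase v := Finset.mem_erase.2 ⟨hne, hv'⟩
      refine le_trans ?_ (Finset.single_le_sum (f := fun v' => ind (B1 v' q w) + ind (B2 v' q w) + ind (B3 v' q w))
        (fun v' _ => n0 v') hin)
      have m1 := ind_nonneg (B1 v' q w)
      have m2 := ind_nonneg (B2 v' q w)
      have m3 := ind_nonneg (B3 v' q w)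
      rcases k4 with k4 | k4
      · -- the same public epoch
        have hz : ¬ Z0 M Q s w := fun hz => c.1.2.1 ⟨hz, by rw [hs, ← k4]; exact hlst⟩
        rcases lt_or_ge (Mg M Q v' s w) ux with h5 | h5
        · have : ind (B1 v' q w) = 1 := ind_of ⟨hu, hkd, s, by rw [← k1]; exact l1, b, k3, h5⟩
          show (1 : ℝ) ≤ ind (B1 v' q w) + ind (B2 v' q w) + ind (B3 v' q w)
          linarith
        · have : ind (B2 v' q w) = 1 := ind_of ⟨hu, s, a, b, ⟨c, hz, by rw [hs, ← k4]; exact hlst⟩,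
            by rw [k1, ← k4]; exact k2, h5⟩
          show (1 : ℝ) ≤ ind (B1 v' q w) + ind (B2 v' q w) + ind (B3 v' q w)
          linarith
      · -- the decision was before the public start: the first public start after the decision
        have hnq : nu M.toMS q w ≤ q := stg_le _ _
        have e2 : tv M v (nu M.toMS q w) w = tv M v q w := stg_mid rfl hlst hnq
        have hbv : bet M Q v (nu M.toMS q w) w := bet_iff.2 ⟨s, by rw [e2]; exact a, k4.le, c⟩
        obtain ⟨n, n1, n2, n3⟩ := fpn_ex (lt_of_le_of_lt a k4) hnq (stg_idem _ _) hbv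
        have hn : n ≤ q := n1.trans hnq
        have e3 : tv M v n w = tv M v q w := stg_mid rfl n2.le hn
        have hsn : s ≤ n := by
          obtain ⟨s', a', b', c'⟩ := bet_iff.1 n3.2.2.1
          have e4 : tv M v s' w = tv M v n w := stg_mid rfl a' b'
          have e5 : s = s' := tkx_one c c' (by rw [hs, e4, e3])
          rw [e5]
          exact b'
        have l2 : tv M v' q w ≤ n := by
          rw [← k1]
          exact l1.trans hsn
        have e6 : tv M v' n w = tv M v' q w := stg_mid rfl l2 hn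
        have hb' : bet M Q v' n w := bet_mono hsn (e6.trans k1.symm) k3
        rcases lt_or_ge (Mg M Q v' n w) ux with h5 | h5
        · have : ind (B1 v' q w) = 1 := ind_of ⟨hu, hkd, n, l2, hn, hb', h5⟩
          show (1 : ℝ) ≤ ind (B1 v' q w) + ind (B2 v' q w) + ind (B3 v' q w)
          linarith
        · have : ind (B3 v' q w) = 1 := ind_of ⟨hu, n, n2.le, hn, n3, by
            rw [e6, n3.1]
            exact l2, h5⟩
          show (1 : ℝ) ≤ ind (B1 v' q w) + ind (B2 v' q w) + ind (B3 v' q w)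
          linarith
    · rw [ind_not h]
      exact Finset.sum_nonneg fun v' _ => n0 v'
  have h1 : ∑ q ∈ range T, M.P.Pr (lpr M Q A v q) ≤ ∑ v' ∈ Q.Vk.erase v, (∑ q ∈ range T, M.P.Pr (B1 v' q) +
      ∑ q ∈ range T, M.P.Pr (B2 v' q) + ∑ q ∈ range T, M.P.Pr (B3 v' q)) := by
    have h2 : ∀ q ∈ range T, M.P.Pr (lpr M Q A v q) ≤ ∑ v' ∈ Q.Vk.erase v,
        (M.P.Pr (B1 v' q) + M.P.Pr (B2 v' q) + M.P.Pr (B3 v' q)) := by
      intro q _
      unfold FP.Pr
      rw [Finset.sum_congr rfl fun v' _ => by rw [← FP.E_add, ← FP.E_add], ← FP.E_sum]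
      exact M.P.E_mono fun w hw => key q w hw
    refine (Finset.sum_le_sum h2).trans (le_of_eq ?_)
    rw [Finset.sum_comm]
    refine Finset.sum_congr rfl fun v' _ => ?_
    rw [Finset.sum_add_distrib, Finset.sum_add_distrib]
  refine h1.trans (Finset.sum_le_sum fun v' hv' => ?_)
  have hne : v ≠ v' := fun e => (Finset.mem_erase.1 hv').1 e.symm
  have c1 : ∑ q ∈ range T, M.P.Pr (B1 v' q) ≤ ux * NT M Q v' T :=
    drop_le H x0.le (E := A.ru) (fun w hw q h => HA.endu w hw v' q h) T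
  have c2 : ∑ q ∈ range T, M.P.Pr (B2 v' q) ≤ Q.u0 / ux * NT M Q v T := by
    have d1 : ∑ q ∈ range T, M.P.Pr (B2 v' q) ≤
        ∑ s ∈ range T, M.P.Pr (fun w => (tkx M Q v s w ∧ ¬ Z0 M Q s w ∧ tv M v s w ≤ nu M.toMS s w) ∧
          al M Q ux v' s w) := by
      refine Pr_inj (l := tv M v) (fun w _ q hq h => ?_) (fun w hw q _ q' _ h h' e => ?_)
      · obtain ⟨_, s, a, b, c, d⟩ := h
        exact ⟨s, by omega, ⟨c, d⟩, stg_mid rfl a b⟩
      · exact end_one (C := M.Cv v) (HA.endu w hw v q h.1) (HA.endu w hw v q' h'.1) e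
    refine d1.trans ?_
    unfold NT
    rw [Finset.mul_sum]
    refine Finset.sum_le_sum fun s _ => ?_
    refine (alive_le H (HS.ci v v' hne) x0 (f := fun w => tkx M Q v s w ∧ ¬ Z0 M Q s w ∧ tv M v s w ≤ nu M.toMS s w)
      (c := Q.u0) (fun x w e => ?_)
      (fun w hw h => ?_)).trans (mul_le_mul_of_nonneg_left (M.P.Pr_mono fun w _ h => h.1) (div_nonneg u0 x0.le))
    · rw [tkx_S H v le_rfl e, Z0_S H le_rfl (M.mS ∅ {v} s (Finset.empty_subset _) x w e), tau_S H v le_rfl x w e,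
        nu_S H le_rfl x w e]
    · refine (Dn_le H (some v') s w).trans (le_of_lt ?_)
      exact M0_lt_of (fun h3 => h.2.1 ⟨s, stg_le _ _, le_rfl, h3⟩) (HP.xz w hw v s h.1.1.2.2 h.2.2)
  have c3 : ∑ q ∈ range T, M.P.Pr (B3 v' q) ≤ y0 / ux * NT M Q v T +
      ∑ n ∈ range T, M.P.Pr (fun w => sf M A n w ∧ y0 < Dn M Q (some v') n w) := by
    have d1 : ∑ q ∈ range T, M.P.Pr (B3 v' q) ≤
        ∑ n ∈ range T, M.P.Pr (fun w => fpn M Q v n w ∧ al M Q ux v' n w) := by
      refine Pr_inj (l := tv M v) (fun w _ q hq h => ?_) (fun w hw q _ q' _ h h' e => ?_)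
      · obtain ⟨_, n, a, b, c, d⟩ := h
        exact ⟨n, by omega, ⟨c, d⟩, stg_mid rfl a b⟩
      · exact end_one (C := M.Cv v) (HA.endu w hw v q h.1) (HA.endu w hw v q' h'.1) e
    have d2 : ∀ n ∈ range T, M.P.Pr (fun w => fpn M Q v n w ∧ al M Q ux v' n w) ≤
        y0 / ux * M.P.Pr (fpn M Q v n) + M.P.Pr (fun w => sf M A n w ∧ y0 < Dn M Q (some v') n w) := by
      intro n _
      have d3 := alive_le H (HS.ci v v' hne) x0 (s := n) (f := fun w => fpn M Q v n w ∧ ¬ y0 < Dn M Q (some v') n w)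
        (c := y0) (fun x w e => by
          have e0 := M.mS ∅ {v} n (Finset.empty_subset _) x w e
          show (fpn M Q v n x ∧ ¬ y0 < Dn M Q (some v') n x) ↔ (fpn M Q v n w ∧ ¬ y0 < Dn M Q (some v') n w)
          rw [fpn_S H v le_rfl e, Dn_S (some v') n x w e0])
        (fun w _ h => not_lt.1 h.2)
      have d4 : M.P.Pr (fun w => fpn M Q v n w ∧ al M Q ux v' n w) ≤
          M.P.Pr (fun w => (fpn M Q v n w ∧ ¬ y0 < Dn M Q (some v') n w) ∧ al M Q ux v' n w) +
          M.P.Pr (fun w => sf M A n w ∧ y0 < Dn M Q (some v') n w) := by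
        refine (M.P.Pr_mono fun w hw h => ?_).trans (M.P.Pr_or_le _ _)
        by_cases h7 : y0 < Dn M Q (some v') n w
        · exact Or.inr ⟨fpn_sf HA hw h.1, h7⟩
        · exact Or.inl ⟨⟨h.1, h7⟩, h.2⟩
      have d5 := mul_le_mul_of_nonneg_left (M.P.Pr_mono (s := fun w => fpn M Q v n w ∧ ¬ y0 < Dn M Q (some v') n w)
        (t := fpn M Q v n) fun w _ h => h.1) (div_nonneg hy x0.le)
      linarith
    refine d1.trans ((Finset.sum_le_sum d2).trans ?_)
    rw [Finset.sum_add_distrib, ← Finset.mul_sum]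
    have d6 := mul_le_mul_of_nonneg_left (fpn_cnt (M := M) (Q := Q) v T) (div_nonneg hy x0.le)
    linarith
  linarith

/-- **THE LOST LIVES OF THE VERTEX `v`** -/
theorem lost_le2 (H : Seen M) (HS : StS M A) (HA : StpOK M Q A δ) (HP : Prv M Q) {v : Fin 3} (hv : v ∈ Q.Vk)
    {ux y0 y : ℝ} (x0 : 0 < ux)
    (u0 : 0 ≤ Q.u0) (hy0 : 0 ≤ y0) (hy : 0 ≤ y) (T : ℕ) :
    ∑ q ∈ range T, M.P.Pr (lost M Q A v q) ≤ ∑ q ∈ range T, M.P.Pr (ngv M Q A v q) +
      (y * NT M Q v T + ∑ q ∈ range T, M.P.Pr (fun w => afv M Q A v q w ∧ y < Dev M Q v q w)) +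
      ∑ v' ∈ Q.Vk.erase v, (ux * NT M Q v' T + Q.u0 / ux * NT M Q v T + (y0 / ux * NT M Q v T +
        ∑ n ∈ range T, M.P.Pr (fun w => sf M A n w ∧ y0 < Dn M Q (some v') n w))) := by
  have h1 : ∑ q ∈ range T, M.P.Pr (lost M Q A v q) ≤ ∑ q ∈ range T, M.P.Pr (ngv M Q A v q) +
      ∑ q ∈ range T, M.P.Pr (fun w => afv M Q A v q w ∧ Q.kv (some v) (tv M v q w) w) +
      ∑ q ∈ range T, M.P.Pr (lpr M Q A v q) := by
    rw [← Finset.sum_add_distrib, ← Finset.sum_add_distrib]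
    refine Finset.sum_le_sum fun q _ => ?_
    unfold FP.Pr
    rw [← FP.E_add, ← FP.E_add]
    refine M.P.E_mono fun w _ => ?_
    have n1 := ind_nonneg (ngv M Q A v q w)
    have n2 := ind_nonneg (afv M Q A v q w ∧ Q.kv (some v) (tv M v q w) w)
    have n3 := ind_nonneg (lpr M Q A v q w)
    by_cases h : lost M Q A v q w
    · rw [ind_of h]
      obtain ⟨a, b, c, d⟩ := h
      rcases d with ⟨d1, d2⟩ | ⟨d1, d2⟩ | ⟨d1, d2⟩ | d
      · have : ind (afv M Q A v q w ∧ Q.kv (some v) (tv M v q w) w) = 1 :=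
          ind_of ⟨⟨a, c, d1, d2⟩, Q.hkv v hv _ _ b⟩
        linarith
      · have : ind (ngv M Q A v q w) = 1 := ind_of ⟨Or.inl d1, b, c, d2⟩
        linarith
      · have : ind (ngv M Q A v q w) = 1 := ind_of ⟨Or.inr d1, b, c, d2⟩
        linarith
      · have : ind (lpr M Q A v q w) = 1 := ind_of ⟨a, b, c, d⟩
        linarith
    · rw [ind_not h]
      linarith
  have h2 := af_le (M := M) (Q := Q) (A := A) H HS v hy T
  have h3 := prt_le2 H HS HA HP hv x0 u0 hy0 T
  linarith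

end

end Pool.Agent.GMH.UV
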