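import Pool.Agent.GMH.RelN
import Pool.Agent.GMH.RelM
import Pool.Agent.GMH.UnmSt
import Pool.Agent.GMH.UnmP2

/-!
# GMH/RelF (helper28): THE RELEASED SUM OF ONE KIND (row A6), over any `US`, any kind, any removals

One round `r`, cut `K`, `N` = all decisions of the vertices of the kind and all zones.
* `RelIn` : the inputs: counts (`ng`, `af`, `rd`, `fv`, `ex` at the vertices and at the node, `sf` at the public starts), the
  signed sums over the lives (`i1`) and over the zones (`i2`);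
* `RelIn.num` : `NT ≤ x^T`, `Nz ≤ x^Z`, `N ≤ x^Z`;
* `RelIn.mass`, `RelIn.mass0` : the mass of the tuples of the relation of the density at the decisions, at the zones;
* `RelIn.lost_v`, `RelIn.lost_0` : the lost lives and zones;
* **`RelIn.total`** : the sum of the releases is at most `x^(-24)`.

The counts are taken over COUNTING steps `A` (`A.gd` = alive and unmoved in the relation of the densities, no kind); the real
steps `B` have the same removals, `RelG` : the tuples of the relation which are not good (helper58).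
-/

set_option autoImplicit false
set_option linter.unusedSectionVars false

namespace Pool.Agent.GMH.UV

open Finset Pool.Agent.PWZ Pool.Agent.M3 Pool.Agent.GMH.TD Pool.Agent.GMH.CK Pool.Agent.GMH.MV Pool.Agent.GMH.UnmL
open Pool.Agent.GMH.V3 Pool.Agent.GMH.CT

noncomputable section

variable {Om : Type} [Fintype Om]

/-- all decisions of the vertices of the kind and all zones -/
def NA (M : US Om) (Q : Kd Om) (T : ℕ) : ℝ := ∑ v ∈ Q.Vk, NT M Q v T + Nz M Q T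

/-- the counts: what is not a signed sum -/
structure RelC (r : Rd) (Lam : ℝ) (ka : ℕ) (c e y y0 : ℝ) (M : US Om) (Q Q' : Kd Om) (A : Stps (Om := Om)) (T : ℕ) :
    Prop where
  sn : Seen M
  ss : StS M A
  sc : StpC M A
  vk : Q.Vk.card ≤ 3
  uB : Q.uB = ix Lam r.uB
  u0 : Q.u0 = ix Lam r.u0
  ng : ∀ v ∈ Q.Vk, ∑ q ∈ range T, M.P.Pr (ngk M Q A v q) ≤ c * ix Lam r.sq * NA M Q T + e
  af : ∀ v ∈ Q.Vk, ∑ q ∈ range T, M.P.Pr (fun w => afv M Q A v q w ∧ y < Dev M Q v q w) ≤ e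
  rd : ∀ v ∈ Q.Vk, ∑ q ∈ range T, M.P.Pr (fun w => rdv M Q A v q w ∧ ix Lam r.uB ^ 2 < Mx M Q' v (q + 1) w) ≤ e
  fv : ∀ v ∈ Q.Vk, M.P.Pr (fun w => bet M Q v T w ∧ y < Mx M Q v T w) ≤ e
  ex : ∀ v ∈ Q.Vk, ∑ q ∈ range T, M.P.Pr (exv M Q Q' A v q) ≤ pw Lam r.km
  sf : ∀ v ∈ Q.Vk, ∑ n ∈ range T, M.P.Pr (fun w => sf M A n w ∧ y0 < Dn M Q (some v) n w) ≤ e
  ngz : ∀ o, ∑ q ∈ range T, M.P.Pr (ng0 M Q A o q) ≤ c * ix Lam r.sq * NA M Q T + e
  afz : ∀ o, ∑ q ∈ range T, M.P.Pr (fun w => af0 M Q A q w ∧ y < De0 M Q o q w) ≤ e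
  rdz : ∑ q ∈ range T, M.P.Pr (fun w => rd0 M Q A q w ∧ ix Lam r.u0 ^ 2 < Dn M Q' none (q + 1) w) ≤ e
  fz : ∀ o, M.P.Pr (fun w => Z0 M Q T w ∧ y < Dn M Q o T w) ≤ e
  exz : ∀ o, ∑ q ∈ range T, M.P.Pr (ex0 M Q Q' A o q) ≤ pw Lam r.kz

/-- the real steps `B` over the counting steps `A` : the same removals, few tuples of the relation are not good; the lost
zones of `B` are lost for some `B0` (theory of the stretches: `B0` without the priority, otherwise `B0 = B`) -/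
structure RelG (r : Rd) (Lam c e : ℝ) (M : US Om) (Q : Kd Om) (A B : Stps (Om := Om)) (T : ℕ) : Prop where
  rp : B.rp = A.rp
  ru : B.ru = A.ru
  ngv : ∀ v ∈ Q.Vk, ∑ q ∈ range T, M.P.Pr (ngv M Q B v q) ≤ c * ix Lam r.sq * NA M Q T + e
  ngz : ∃ B0 : Stps (Om := Om), B0.rp = A.rp ∧ B0.ru = A.ru ∧
    (∀ w, M.P.p w ≠ 0 → ∀ q, lost0 M Q B q w → lost0 M Q B0 q w) ∧
    ∑ q ∈ range T, M.P.Pr (ngd0 M Q B0 q) ≤ c * ix Lam r.sq * NA M Q T + e

/-- the numbers -/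
structure RelNum (r : Rd) (Lam : ℝ) (ka : ℕ) (c e y y0 : ℝ) : Prop where
  hL : 2 ≤ Lam
  hka : r.m1 + 64 ≤ ka
  c0 : 0 ≤ c
  hc : c ≤ 4 ^ 8
  e1 : e ≤ 1
  hy0 : 0 ≤ y
  hy : y ≤ c * ix Lam ka
  hz0 : 0 ≤ y0
  hz : y0 ≤ c * ix Lam ka

variable {r : Rd} {Lam : ℝ} {ka : ℕ} {c e y y0 : ℝ} {M : US Om} {Q Q' : Kd Om} {A : Stps (Om := Om)} {T : ℕ}

theorem NA_nonneg (M : US Om) (Q : Kd Om) (T : ℕ) : 0 ≤ NA M Q T :=
  add_nonneg (Finset.sum_nonneg fun _ _ => NT_nonneg _ _) (Nz_nonneg _)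

/-- at the final time -/
theorem fin_kv (H : Seen M) (v : Fin 3) {y : ℝ} (hy : 0 ≤ y) (T : ℕ) :
    M.P.Pr (fun w => Q.kv (some v) (tv M v T w) w ∧ bet M Q v T w) ≤
      y + M.P.Pr (fun w => bet M Q v T w ∧ y < Mx M Q v T w) := by
  have h1 := fin_v (M := M) (Q := Q) H v hy T
  have h2 := mul_le_mul_of_nonneg_left (M.P.Pr_le_one (bet M Q v T)) hy
  linarith

theorem fin_0v (H : Seen M) (o : Option (Fin 3)) {y : ℝ} (hy : 0 ≤ y) (T : ℕ) :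
    M.P.Pr (fun w => Rn M Q o (nu M.toMS T w) w ∧ Z0 M Q T w) ≤
      y + M.P.Pr (fun w => Z0 M Q T w ∧ y < Dn M Q o T w) := by
  have h1 := fin_0 (M := M) (Q := Q) H o hy T
  have h2 := mul_le_mul_of_nonneg_left (M.P.Pr_le_one (Z0 M Q T)) hy
  linarith

namespace RelG

/-- `B0 = B` -/
theorem of {B : Stps (Om := Om)} (rp : B.rp = A.rp) (ru : B.ru = A.ru)
    (h1 : ∀ v ∈ Q.Vk, ∑ q ∈ range T, M.P.Pr (UV.ngv M Q B v q) ≤ c * ix Lam r.sq * NA M Q T + e)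
    (h2 : ∑ q ∈ range T, M.P.Pr (ngd0 M Q B q) ≤ c * ix Lam r.sq * NA M Q T + e) : RelG r Lam c e M Q A B T :=
  ⟨rp, ru, h1, B, rp, ru, fun _ _ _ h => h, h2⟩

variable {B : Stps (Om := Om)} (k : RelG r Lam c e M Q A B T)

include k

theorem ss (h : StS M A) : StS M B :=
  ⟨fun q x w e => by rw [k.ru]; exact h.ru q x w e, fun v q x w e => by rw [k.rp]; exact h.rp v q x w e, h.ci⟩

theorem sc (h : StpC M A) : StpC M B :=
  ⟨fun w hw v q e => h.endp w hw v q (by rw [← k.rp]; exact e), fun w hw v q e => h.endu w hw v q (by rw [← k.ru]; exact e),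
    fun w hw q e => h.end0 w hw q (by rw [← k.ru]; exact e),
    fun w hw v q e e' => h.disj w hw v q (by rw [← k.rp]; exact e) (by rw [← k.ru]; exact e')⟩

theorem afv (v : Fin 3) (q : ℕ) : UV.afv M Q B v q = UV.afv M Q A v q := by
  unfold UV.afv
  rw [k.rp, k.ru]

theorem af0 (q : ℕ) : UV.af0 M Q B q = UV.af0 M Q A q := by
  unfold UV.af0
  rw [k.ru]

theorem sf (n : ℕ) : UV.sf M B n = UV.sf M A n := by
  unfold UV.sf
  rw [k.ru]

theorem rdv (v : Fin 3) (q : ℕ) : UV.rdv M Q B v q = UV.rdv M Q A v q := by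
  unfold UV.rdv
  rw [k.rp, k.ru]

theorem rd0 (q : ℕ) : UV.rd0 M Q B q = UV.rd0 M Q A q := by
  unfold UV.rd0
  rw [k.ru]

end RelG

namespace RelC

/-- the counting steps themselves -/
theorem self (h : RelC r Lam ka c e y y0 M Q Q' A T) : RelG r Lam c e M Q A A T :=
  RelG.of rfl rfl (fun v hv => (Finset.sum_le_sum fun q _ => M.P.Pr_mono fun w _ hw =>
      ⟨hw.1, Q.hkv v hv _ _ hw.2.1, hw.2.2⟩).trans (h.ng v hv))
    ((Finset.sum_le_sum fun q _ => M.P.Pr_mono fun w _ hw => ⟨hw.1, hw.2.1, Q.hkn _ _ hw.2.2.1, hw.2.2.2⟩).trans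
      (h.ngz none))

variable {B : Stps (Om := Om)} (h : RelC r Lam ka c e y y0 M Q Q' A T) (g : RelNum r Lam ka c e y y0)

include h g

theorem y1 : y ≤ 1 := by
  have h1 := c_yB r g.hL g.hka (c := c) (g.hc.trans (by norm_num))
  have h2 := ix_le_one g.hL r.uB
  have := g.hy
  linarith

/-- **THE NUMBERS** -/
theorem num : (∀ v ∈ Q.Vk, NT M Q v T ≤ pw Lam r.T) ∧ Nz M Q T ≤ pw Lam r.Z ∧ NA M Q T ≤ pw Lam r.Z := by
  have hc10 : c ≤ 4 ^ 10 := g.hc.trans (by norm_num)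
  have e1 : 2 / ix Lam r.uB = 2 / Q.uB := by rw [h.uB]
  have e0 : 2 / ix Lam r.u0 = 2 / Q.u0 := by rw [h.u0]
  have hyl := h.y1 g
  refine NN_cl r g.hL (ι := Fin 3) (κ := Option (Fin 3)) (by rw [Fintype.card_option, Fintype.card_fin]) h.vk
    (NT := fun v => NT M Q v T) (Nz := Nz M Q T) (X := fun _ => pw Lam r.km)
    (rr := fun v => ∑ q ∈ range T, M.P.Pr (fun w => rdv M Q A v q w ∧ ix Lam r.uB ^ 2 < Mx M Q' v (q + 1) w))
    (ng := fun v => ∑ q ∈ range T, M.P.Pr (ngk M Q A v q))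
    (ra := fun v => ∑ q ∈ range T, M.P.Pr (fun w => afv M Q A v q w ∧ y < Dev M Q v q w))
    (fi := fun v => M.P.Pr (fun w => Q.kv (some v) (tv M v T w) w ∧ bet M Q v T w))
    (X0 := pw Lam r.kz)
    (rr0 := ∑ q ∈ range T, M.P.Pr (fun w => rd0 M Q A q w ∧ ix Lam r.u0 ^ 2 < Dn M Q' none (q + 1) w))
    (ng0 := fun o => ∑ q ∈ range T, M.P.Pr (UV.ng0 M Q A o q))
    (ra0 := fun o => ∑ q ∈ range T, M.P.Pr (fun w => af0 M Q A q w ∧ y < De0 M Q o q w))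
    (fi0 := fun o => M.P.Pr (fun w => Rn M Q o (nu M.toMS T w) w ∧ Z0 M Q T w))
    (fun v => NT_nonneg v T) (Nz_nonneg T) g.c0 g.hc g.e1 (fun v hv => ?_) ?_ (fun _ _ => le_rfl) h.rd h.ng h.af
    (fun v hv => ?_) le_rfl h.rdz h.ngz h.afz (fun o => ?_)
  · have h1 := NT_le (M := M) (Q := Q) (Q' := Q') (A := A) h.sn h.ss h.sc v (y := y) (us := ix Lam r.uB ^ 2)
      (X := pw Lam r.km) (by rw [h.uB]; exact ix_pos g.hL _) g.hy0 (sq_nonneg _) T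
      (by rw [h.uB]; exact g.hy.trans (c_yB r g.hL g.hka hc10)) (by rw [h.uB]; exact c_sat r g.hL) (h.ex v hv)
    rw [e1]
    exact h1
  · have h1 := Nz_le (M := M) (Q := Q) (Q' := Q') (A := A) h.sn h.ss h.sc (y := y) (us := ix Lam r.u0 ^ 2)
      (X := pw Lam r.kz) (by rw [h.u0]; exact ix_pos g.hL _) g.hy0 (sq_nonneg _) T
      (by rw [h.u0]; have := g.hy.trans (c_y0 r g.hL g.hka hc10); linarith)
      (by rw [h.u0]; have := c_sat0 r g.hL; linarith) h.exz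
    rw [e0]
    exact h1
  · have h1 := fin_kv (M := M) (Q := Q) h.sn v g.hy0 T
    have h2 := h.fv v hv
    show M.P.Pr (fun w => Q.kv (some v) (tv M v T w) w ∧ bet M Q v T w) ≤ 1 + e
    linarith
  · have h1 := fin_0v (M := M) (Q := Q) h.sn o g.hy0 T
    have h2 := h.fz o
    show M.P.Pr (fun w => Rn M Q o (nu M.toMS T w) w ∧ Z0 M Q T w) ≤ 1 + e
    linarith

/-- **THE MASS OF THE TUPLES AT THE DECISIONS** -/
theorem mass {v : Fin 3} (hv : v ∈ Q.Vk) :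
    ∑ s ∈ range T, M.P.Pr (fun w => tkx M Q v s w ∧ Q.kv (some v) (tv M v s w) w) ≤ 16 * pw Lam r.km := by
  obtain ⟨n1, n2, n3⟩ := h.num g
  have hc10 : c ≤ 4 ^ 10 := g.hc.trans (by norm_num)
  have h1 := mass_v (M := M) (Q := Q) (A := A) h.sn h.ss (v := v) (fun τ w => Q.kv (some v) τ w) (fun q w => A.gd q w)
    g.hy0 T
  have h2 := hx_v (M := M) (Q := Q) (Q' := Q') (A := A) h.sn h.ss h.sc v (us := ix Lam r.uB ^ 2)
    (X := pw Lam r.km) (sq_nonneg _) T (h.ex v hv)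
  have h3 := h.rd v hv
  have h4 := fin_kv (M := M) (Q := Q) h.sn v g.hy0 T
  have h5 := h.fv v hv
  refine mass_cl r g.hL g.hka (NT := NT M Q v T) (N := NA M Q T)
    (x := pw Lam r.km + ∑ q ∈ range T, M.P.Pr (fun w => rdv M Q A v q w ∧ ix Lam r.uB ^ 2 < Mx M Q' v (q + 1) w))
    (ng := ∑ q ∈ range T, M.P.Pr (ngk M Q A v q))
    (ra := ∑ q ∈ range T, M.P.Pr (fun w => afv M Q A v q w ∧ y < Dev M Q v q w))
    (fi := M.P.Pr (fun w => Q.kv (some v) (tv M v T w) w ∧ bet M Q v T w)) (c := c) (e := e) (y := y)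
    (NT_nonneg v T) (n1 v hv) (NA_nonneg M Q T) n3 hc10 g.e1 g.hy (by linarith) (h.ng v hv) (h.af v hv) (by linarith) ?_
  refine h1.trans ?_
  show ∑ q ∈ range T, M.P.Pr (rmv M Q A v q) + ∑ q ∈ range T, M.P.Pr (ngk M Q A v q) +
    (y * NT M Q v T + ∑ q ∈ range T, M.P.Pr (fun w => afv M Q A v q w ∧ y < Dev M Q v q w)) +
      M.P.Pr (fun w => Q.kv (some v) (tv M v T w) w ∧ bet M Q v T w) ≤ _
  linarith

/-- **THE MASS OF THE TUPLES AT THE ZONES** -/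
theorem mass0 (hkz : r.kz ≤ r.km) (o : Option (Fin 3)) :
    ∑ s ∈ range T, M.P.Pr (fun w => zt M Q s w ∧ Rn M Q o (nu M.toMS s w) w) ≤ 16 * pw Lam r.km := by
  obtain ⟨n1, n2, n3⟩ := h.num g
  have hc10 : c ≤ 4 ^ 10 := g.hc.trans (by norm_num)
  have h1 := mass_0 (M := M) (Q := Q) (A := A) h.sn h.ss (fun n w => Rn M Q o n w) (fun q w => A.gd q w) g.hy0 T
  have h2 := hx_0 (M := M) (Q := Q) (Q' := Q') (A := A) h.sn h.ss h.sc o (us := ix Lam r.u0 ^ 2)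
    (X := pw Lam r.kz) (sq_nonneg _) T (h.exz o)
  have h3 := h.rdz
  have h4 := fin_0v (M := M) (Q := Q) h.sn o g.hy0 T
  have h5 := h.fz o
  refine mass0_cl r g.hL hkz g.hka (Nz := Nz M Q T) (N := NA M Q T)
    (x := pw Lam r.kz + ∑ q ∈ range T, M.P.Pr (fun w => rd0 M Q A q w ∧ ix Lam r.u0 ^ 2 < Dn M Q' none (q + 1) w))
    (ng := ∑ q ∈ range T, M.P.Pr (UV.ng0 M Q A o q))
    (ra := ∑ q ∈ range T, M.P.Pr (fun w => af0 M Q A q w ∧ y < De0 M Q o q w))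
    (fi := M.P.Pr (fun w => Rn M Q o (nu M.toMS T w) w ∧ Z0 M Q T w)) (c := c) (e := e) (y := y)
    (Nz_nonneg T) n2 (NA_nonneg M Q T) n3 hc10 g.e1 g.hy (by linarith) (h.ngz o) (h.afz o) (by linarith) ?_
  refine h1.trans ?_
  show ∑ q ∈ range T, M.P.Pr (rm0 M Q A o q) + ∑ q ∈ range T, M.P.Pr (UV.ng0 M Q A o q) +
    (y * Nz M Q T + ∑ q ∈ range T, M.P.Pr (fun w => af0 M Q A q w ∧ y < De0 M Q o q w)) +
      M.P.Pr (fun w => Rn M Q o (nu M.toMS T w) w ∧ Z0 M Q T w) ≤ _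
  linarith

/-- **THE LOST LIVES** -/
theorem lost_v (kB : RelG r Lam c e M Q A B T) {δ K : ℝ} (ok : StpOK M Q B δ) (hP : Prv M Q) (K0 : 0 ≤ K)
    (hK : K ≤ pw Lam r.kL) (heK : K * e ≤ ix Lam 44) {v : Fin 3} (hv : v ∈ Q.Vk) :
    K * (∑ q ∈ range T, M.P.Pr (lost M Q B v q) + M.P.Pr (fun w => Q.kd (some v) (tv M v T w) w ∧ bet M Q v T w)) ≤
      16 * ix Lam 44 := by
  obtain ⟨n1, n2, n3⟩ := h.num g
  have hc10 : c ≤ 4 ^ 10 := g.hc.trans (by norm_num)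
  have h1 := lost_le2 (M := M) (Q := Q) (A := B) h.sn (kB.ss h.ss) ok hP hv (ux := ix Lam r.g0) (y0 := y0) (y := y)
    (ix_pos g.hL _) (by rw [h.u0]; exact (ix_pos g.hL _).le) g.hz0 g.hy0 T
  rw [h.u0] at h1
  refine lost_cl r g.hL g.hka K0 hK hc10 heK (E := Q.Vk.erase v) (by
      rw [Finset.card_erase_of_mem hv]
      have := h.vk
      omega) (NT := NT M Q v T) (NT' := fun v' => NT M Q v' T) (NT_nonneg v T) (n1 v hv) (fun v' _ => NT_nonneg v' T)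
    (fun v' hv' => n1 v' (Finset.mem_of_mem_erase hv')) (N := NA M Q T)
    (ng := ∑ q ∈ range T, M.P.Pr (ngv M Q B v q))
    (ra := ∑ q ∈ range T, M.P.Pr (fun w => afv M Q B v q w ∧ y < Dev M Q v q w)) (y := y) (y0 := y0)
    (rs := fun v' => ∑ n ∈ range T, M.P.Pr (fun w => UV.sf M B n w ∧ y0 < Dn M Q (some v') n w))
    (NA_nonneg M Q T) n3 g.hy g.hz (kB.ngv v hv) (by simp only [kB.afv]; exact h.af v hv)
    (fun v' hv' => by simp only [kB.sf]; exact h.sf v' (Finset.mem_of_mem_erase hv')) h1 ?_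
  have h4 := fin_vk (M := M) (Q := Q) h.sn hv g.hy0 T
  have h5 := h.fv v hv
  have h6 := mul_le_mul_of_nonneg_left (M.P.Pr_le_one (bet M Q v T)) g.hy0
  linarith

/-- **THE LOST ZONES** -/
theorem lost_0 (kB : RelG r Lam c e M Q A B T) {K : ℝ} (K0 : 0 ≤ K) (hK : K ≤ pw Lam r.kL) (heK : K * e ≤ ix Lam 44) :
    K * (∑ q ∈ range T, M.P.Pr (lost0 M Q B q) + M.P.Pr (fun w => Q.kd none (nu M.toMS T w) w ∧ Z0 M Q T w)) ≤
      8 * ix Lam 44 := by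
  obtain ⟨B0, p0, u0, lz, nz⟩ := kB.ngz
  have ss0 : StS M B0 := ⟨fun q x w e => by rw [u0]; exact h.ss.ru q x w e,
    fun v q x w e => by rw [p0]; exact h.ss.rp v q x w e, h.ss.ci⟩
  obtain ⟨n1, n2, n3⟩ := h.num g
  have hc10 : c ≤ 4 ^ 10 := g.hc.trans (by norm_num)
  have h0 : ∑ q ∈ range T, M.P.Pr (lost0 M Q B q) ≤ ∑ q ∈ range T, M.P.Pr (lost0 M Q B0 q) :=
    Finset.sum_le_sum fun q _ => M.P.Pr_mono fun w hw hl => lz w hw q hl
  have h1 := h0.trans (lost0_le (M := M) (Q := Q) (A := B0) h.sn ss0 (y := y) g.hy0 T)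
  refine lost0_cl r g.hL g.hka K0 hK hc10 heK (Nz := Nz M Q T) (N := NA M Q T) (Nz_nonneg T) n2 (NA_nonneg M Q T) n3
    (ng := ∑ q ∈ range T, M.P.Pr (ngd0 M Q B0 q))
    (ra := ∑ q ∈ range T, M.P.Pr (fun w => af0 M Q B0 q w ∧ y < De0 M Q none q w)) (y := y) g.hy
    nz (by
      refine le_trans (le_of_eq (Finset.sum_congr rfl fun q _ => ?_)) (h.afz none)
      unfold af0
      rw [u0]) h1 ?_
  have h4 := fin_0k (M := M) (Q := Q) h.sn g.hy0 T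
  have h5 := h.fz none
  have h6 := mul_le_mul_of_nonneg_left (M.P.Pr_le_one (Z0 M Q T)) g.hy0
  linarith

/-- **THE RELEASED SUM OF ONE KIND**, the signed sums on the right side -/
theorem total_raw (kB : RelG r Lam c e M Q A B T) {δ K : ℝ} (ok : StpOK M Q B δ) (hP : Prv M Q) (K0 : 0 ≤ K)
    (hK : K ≤ pw Lam r.kL) (heK : K * e ≤ ix Lam 44) (hlo : ∀ w, M.P.p w ≠ 0 → ∀ o τ, -K ≤ Q.psi o τ w)
    (hδ : δ * pw Lam r.Z ≤ ix Lam 44)
    (hδ0 : 0 ≤ δ) :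
    ∑ q ∈ range T, M.P.E (fun w => rels M Q B q w * B.g q w) ≤
      ∑ v ∈ Q.Vk, ∑ τ ∈ range T, M.P.E (fun w => ind (tv M v τ w = τ ∧ dcv M Q T v τ w) * Q.psi (some v) τ w) +
      ∑ n ∈ range T, M.P.E (fun w => ind (nu M.toMS n w = n ∧ dc0 M Q T n w) * Q.psi none n w) + 60 * ix Lam 44 := by
  obtain ⟨n1, n2, n3⟩ := h.num g
  have h1 := signed_total (M := M) (Q := Q) (A := B) ok T K0 hlo
  have i44 := ix_pos g.hL 44
  have r1 : ∀ v ∈ Q.Vk, δ * ∑ q ∈ range T, M.P.Pr (relv M Q B v q) ≤ ix Lam 44 := fun v hv => by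
    have a1 : ∑ q ∈ range T, M.P.Pr (relv M Q B v q) ≤ ∑ q ∈ range T, M.P.Pr (rdv M Q B v q) :=
      Finset.sum_le_sum fun q _ => M.P.Pr_mono fun w _ hw => by
        rcases hw.2 with b | b
        · exact ⟨Or.inl b.1, b.2⟩
        · exact ⟨Or.inr b.1, b.2.1⟩
    have a2 := rdv_cnt (M := M) (Q := Q) (A := B) (kB.sc h.sc) v T
    have a3 := n1 v hv
    have a4 : pw Lam r.T ≤ pw Lam r.Z := pw_mono g.hL (by have := r.ord; unfold Rd.T at *; omega)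
    exact (mul_le_mul_of_nonneg_left (by linarith) hδ0).trans hδ
  have r2 : δ * ∑ q ∈ range T, M.P.Pr (rel0 M Q B q) ≤ ix Lam 44 := by
    have a1 : ∑ q ∈ range T, M.P.Pr (rel0 M Q B q) ≤ ∑ q ∈ range T, M.P.Pr (rd0 M Q B q) :=
      Finset.sum_le_sum fun q _ => M.P.Pr_mono fun w _ hw => ⟨hw.2.1, hw.2.2.1⟩
    have a2 := rd0_cnt (M := M) (Q := Q) (A := B) (kB.sc h.sc) T
    exact (mul_le_mul_of_nonneg_left (by linarith) hδ0).trans hδ
  have r3 := h.lost_0 g kB K0 hK heK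
  set I1 : Fin 3 → ℝ := fun v =>
    ∑ τ ∈ range T, M.P.E (fun w => ind (tv M v τ w = τ ∧ dcv M Q T v τ w) * Q.psi (some v) τ w) with hI1
  have r4 : ∑ v ∈ Q.Vk, (I1 v + K * (∑ q ∈ range T, M.P.Pr (lost M Q B v q) +
      M.P.Pr (fun w => Q.kd (some v) (tv M v T w) w ∧ bet M Q v T w)) + δ * ∑ q ∈ range T, M.P.Pr (relv M Q B v q)) ≤
      ∑ v ∈ Q.Vk, I1 v + 51 * ix Lam 44 := by
    have a1 : ∀ v ∈ Q.Vk, I1 v + K * (∑ q ∈ range T, M.P.Pr (lost M Q B v q) +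
        M.P.Pr (fun w => Q.kd (some v) (tv M v T w) w ∧ bet M Q v T w)) + δ * ∑ q ∈ range T, M.P.Pr (relv M Q B v q) ≤
        I1 v + 17 * ix Lam 44 := fun v hv => by
      have b1 := h.lost_v g kB ok hP K0 hK heK hv
      have b2 := r1 v hv
      linarith
    refine (Finset.sum_le_sum a1).trans ?_
    rw [Finset.sum_add_distrib, Finset.sum_const, nsmul_eq_mul]
    have a2 : ((Q.Vk.card : ℕ) : ℝ) ≤ 3 := by exact_mod_cast h.vk
    nlinarith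
  linarith

/-- **THE RELEASED SUM OF ONE KIND** -/
theorem total (kB : RelG r Lam c e M Q A B T) {δ K c1 : ℝ} (ok : StpOK M Q B δ) (hP : Prv M Q) (K0 : 0 ≤ K)
    (hK : K ≤ pw Lam r.kL) (heK : K * e ≤ ix Lam 44) (hlo : ∀ w, M.P.p w ≠ 0 → ∀ o τ, -K ≤ Q.psi o τ w)
    (hδ : δ * pw Lam r.Z ≤ ix Lam 44)
    (hδ0 : 0 ≤ δ) (hc1 : c1 ≤ 4 ^ 18)
    (i1 : ∑ v ∈ Q.Vk, ∑ τ ∈ range T, M.P.E (fun w => ind (tv M v τ w = τ ∧ dcv M Q T v τ w) * Q.psi (some v) τ w) ≤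
      c1 * ix Lam 44)
    (i2 : ∑ n ∈ range T, M.P.E (fun w => ind (nu M.toMS n w = n ∧ dc0 M Q T n w) * Q.psi none n w) ≤ c1 * ix Lam 44) :
    ∑ q ∈ range T, M.P.E (fun w => rels M Q B q w * B.g q w) ≤ ix Lam 24 := by
  have h1 := h.total_raw g kB ok hP K0 hK heK hlo hδ hδ0
  have h2 : ∑ q ∈ range T, M.P.E (fun w => rels M Q B q w * B.g q w) ≤ (2 * c1 + 60) * ix Lam 44 := by linarith
  exact h2.trans (CT.tot g.hL (by norm_num at hc1 ⊢; linarith))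

end RelC

/-- **A GROUP OF KINDS** : the sums over the lives are bounded together -/
theorem rel_grp {ι : Type*} {G : Finset ι} (hG : G.card ≤ 9) {Lam c1 : ℝ} (hL : 2 ≤ Lam) (hc0 : 0 ≤ c1) (hc1 : c1 ≤ 4 ^ 17)
    {Sk I2 : ι → ℝ} {I1 : ι → Fin 3 → ℝ} {V : ι → Finset (Fin 3)}
    (hS : ∀ k ∈ G, Sk k ≤ ∑ v ∈ V k, I1 k v + I2 k + 60 * ix Lam 44)
    (h1 : ∀ v, ∑ k ∈ G, (if v ∈ V k then I1 k v else 0) ≤ c1 * ix Lam 44) (h2 : ∀ k ∈ G, I2 k ≤ c1 * ix Lam 44) :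
    ∑ k ∈ G, Sk k ≤ ix Lam 24 := by
  classical
  have i44 := ix_pos hL 44
  have a1 : ∑ k ∈ G, Sk k ≤ ∑ k ∈ G, (∑ v ∈ V k, I1 k v + (c1 + 60) * ix Lam 44) :=
    Finset.sum_le_sum fun k hk => by
      have b1 := hS k hk
      have b2 := h2 k hk
      linarith
  have a2 : ∑ k ∈ G, ∑ v ∈ V k, I1 k v = ∑ v : Fin 3, ∑ k ∈ G, (if v ∈ V k then I1 k v else 0) := by
    rw [Finset.sum_comm]
    refine Finset.sum_congr rfl fun k _ => ?_
    rw [← Finset.sum_filter]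
    refine Finset.sum_congr ?_ fun _ _ => rfl
    ext v
    simp
  have a3 : ∑ v : Fin 3, ∑ k ∈ G, (if v ∈ V k then I1 k v else 0) ≤ 3 * (c1 * ix Lam 44) := by
    refine (Finset.sum_le_card_nsmul _ _ _ fun v _ => h1 v).trans (le_of_eq ?_)
    rw [nsmul_eq_mul, Finset.card_univ, Fintype.card_fin]
    norm_num
  have a4 : ∑ k ∈ G, (c1 + 60) * ix Lam 44 ≤ 9 * ((c1 + 60) * ix Lam 44) := by
    rw [Finset.sum_const, nsmul_eq_mul]
    exact mul_le_mul_of_nonneg_right (by exact_mod_cast hG) (mul_nonneg (by linarith) i44.le)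
  rw [Finset.sum_add_distrib, a2] at a1
  have a5 : ∑ k ∈ G, Sk k ≤ (12 * c1 + 540) * ix Lam 44 := by linarith
  exact a5.trans (CT.tot hL (by norm_num at hc1 ⊢; linarith))

end

end Pool.Agent.GMH.UV
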