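import Pool.Agent.GMH.RelFull
import Pool.Agent.GMH.RelB
import Pool.Agent.GMH.StpI
import Pool.Agent.GMH.CtxK
import Pool.Agent.GMH.ClsC
import Pool.Agent.GMH.Fin0

/-!
# GMH/RelFC (helper28): the released sum of the three tops over `Ctx` (row A6, field `Fu.rel`)

* `Kc_kL`, `relNum_rd`, `del_num` : the numbers of `RelK` (`y = y0 = ix sq`, loss `32 d1 + 128 d0`, cut `C.Kc`);
* `relK_ctx` : `RelK` from `RelU`, `RelG`, `StpOK`, `Prv`;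
* **`rel_ctx`** : `∑_t ∑_s RelS ≤ (pw Lam 17)⁻¹` for the alive sets `C.aN ka` and the cut `C.Kf`.
-/

set_option autoImplicit false
set_option linter.unusedSectionVars false

namespace Pool.Agent.GMH.CX

open Finset Pool.Agent.PWZ Pool.Agent.M3 Pool.Agent.GM Pool.Agent.GM.Harm Pool.Agent.GMH Pool.Agent.GMH.NZ
open Pool.Agent.GMH.V3 Pool.Agent.GMH.TP Pool.Agent.GMH.TD Pool.Agent.GMH.Dy Pool.Agent.GMH.KF Pool.Agent.GMH.TRF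
open Pool.Agent.GMH.UV (US Kd Stps StpOK Prv RelU RelG RelK RelNum I1 I2 rels)
open Pool.Agent.GMH.CT (ix Rc)

noncomputable section

/-- the loss of the test at a release -/
def dlt (C : Ctx) (ka : ℕ) : ℝ := 32 * MVN.d1 C.Lam ka C.c0 + 128 * MVN.d0 C.Lam C.c0

theorem dlt_nn (C : Ctx) (ka : ℕ) : 0 ≤ dlt C ka := by
  have h1 := C.d1_pos ka
  have h2 := C.d0_pos
  unfold dlt
  linarith

/-- the cut against the cost -/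
theorem Kc_kL (C : Ctx) (k : ℕ) : C.Kc ≤ pw C.Lam (CT.rd Rc k).kL := by
  rw [(Rc.kL_eq _ (CT.rd_mem Rc k)).1]
  have h1 := CT.Rc_L4 C.hL
  have h2 := CT.Rounds.K_nn Rc C.hL
  have h3 := C.hL
  unfold Ctx.Kc
  linarith

/-- the numbers of the densities -/
theorem relNum_rd (C : Ctx) (k : ℕ) {c e : ℝ} (hc1 : 1 ≤ c) (hc : c ≤ 4 ^ 8) (he : e ≤ 1) :
    RelNum (CT.rd Rc k) C.Lam (CT.rd Rc k).sq c e (ix C.Lam (CT.rd Rc k).sq) (ix C.Lam (CT.rd Rc k).sq) where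
  hL := C.hL
  hka := by unfold CT.Rd.sq; omega
  c0 := by linarith
  hc := hc
  e1 := he
  hy0 := CT.ix_nn C.hL _
  hy := by have := CT.ix_nn C.hL (CT.rd Rc k).sq; nlinarith
  hz0 := CT.ix_nn C.hL _
  hz := by have := CT.ix_nn C.hL (CT.rd Rc k).sq; nlinarith

/-- the loss is small -/
theorem del_num (A ka : ℕ) : AllC A (fun C => ∀ k : Fin 10, dlt C ka * pw C.Lam (CT.rd Rc k.1).Z ≤ ix C.Lam 44) := by
  refine AllC.fin (fun k : Fin 10 => ?_)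
  refine (AllC.of_Ev (CLM.d_num ka ((CT.rd Rc k.1).Z + 44))).mono fun C h => ?_
  have h1 : dlt C ka ≤ ix C.Lam ((CT.rd Rc k.1).Z + 44) := by
    have a1 := C.d1_pos ka
    have a2 := C.d0_pos
    have a3 := CT.ix_nn C.hL ((CT.rd Rc k.1).Z + 44)
    unfold dlt
    linarith [h.1, h.2]
  refine (mul_le_mul_of_nonneg_right h1 (CT.pw_pos C.hL _).le).trans (le_of_eq ?_)
  rw [mul_comm]
  exact CT.pw_ix_add C.hL _ _

/-- **ONE KIND IN ONE THEORY** -/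
theorem relK_ctx (A ka : ℕ) : AllC A (fun C => ∀ (k : Fin 10) (M : US C.O) (Q Q' : Kd C.O) (SC SR : Stps (Om := C.O))
    (c e : ℝ), 1 ≤ c → c ≤ 4 ^ 8 → e ≤ ix C.Lam (44 + Rc.kL) →
    RelU (CT.rd Rc k.1) C.Lam (CT.rd Rc k.1).sq c e (ix C.Lam (CT.rd Rc k.1).sq) (ix C.Lam (CT.rd Rc k.1).sq) M Q Q' SC (5 * C.T) →
    RelG (CT.rd Rc k.1) C.Lam c e M Q SC SR (5 * C.T) → StpOK M Q SR (dlt C ka) → Prv M Q →
    (∀ o τ w, -C.Kc ≤ Q.psi o τ w) →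
    RelK (CT.rd Rc k.1) C.Lam (CT.rd Rc k.1).sq c e (ix C.Lam (CT.rd Rc k.1).sq) (ix C.Lam (CT.rd Rc k.1).sq) M Q Q' SC SR (5 * C.T)
      (dlt C ka) C.Kc) := by
  refine (del_num A ka).mono fun C hd k M Q Q' SC SR c e hc1 hc he hU hG ok pv lo => ?_
  have he1 : e ≤ 1 := he.trans (CT.ix_le_one C.hL _)
  have hN := relNum_rd C k.1 hc1 hc he1
  refine ⟨hU.fin hN, hN, hG, ok, pv, fun w _ o τ => lo o τ w, C.Kc_nn, Kc_kL C k.1, ?_, dlt_nn C ka, hd k⟩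
  have h1 := mul_le_mul_of_nonneg_left he C.Kc_nn
  have h2 : C.Kc * ix C.Lam (44 + Rc.kL) ≤ pw C.Lam Rc.kL * ix C.Lam (44 + Rc.kL) := by
    have h3 := Kc_kL C k.1
    rw [(Rc.kL_eq _ (CT.rd_mem Rc k.1)).1] at h3
    exact mul_le_mul_of_nonneg_right h3 (CT.ix_nn C.hL _)
  refine h1.trans (h2.trans (le_of_eq ?_))
  rw [add_comm 44]
  exact CT.pw_ix_add C.hL _ _

/-- **THE RELEASED SUM OF THE THREE TOPS** over `Ctx`, two theories -/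
theorem rel_ctx (C : Ctx) (ka : ℕ) {c : KC} {B : ℝ} {bO : Fin 10 → Fin 3 → ℕ → C.O → Prop} {zO : Fin 10 → ℕ → C.O → Prop}
    {gM : Fin 10 → ℕ → C.O → Prop} (hb : ∀ k i q, Pos (bO k i q)) (hz : ∀ k q, Pos (zO k q))
    {MA MB : Fin 10 → US C.O} (hPA : ∀ k, (MA k).P = C.tb.Ps) (hPB : ∀ k, (MB k).P = C.tb.Ps)
    {QA QA' QB QB' : Fin 10 → Kd C.O} {CA SA CB SB : Fin 10 → Stps (Om := C.O)}
    (hrl : ∀ k ∈ rK, ∀ q < 5 * C.T, ∀ w, C.tb.Ps.p w ≠ 0 →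
      rlB C.h C.tb C.v c B (C.aN ka) bO zO gM k q w * gO C.h C.tb C.v C.Kf q w =
      rels (MA k) (QA k) (SA k) q w * (SA k).g q w + rels (MB k) (QB k) (SB k) q w * (SB k).g q w)
    {rA rB : Fin 10 → CT.Rd} {kaA kaB : Fin 10 → ℕ} {cA eA yA zA cB eB yB zB : Fin 10 → ℝ} {dA dB KA KB : ℝ}
    (hA : ∀ k ∈ rK, RelK (rA k) C.Lam (kaA k) (cA k) (eA k) (yA k) (zA k) (MA k) (QA k) (QA' k) (CA k) (SA k)
      (5 * C.T) dA KA)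
    (hB : ∀ k ∈ rK, RelK (rB k) C.Lam (kaB k) (cB k) (eB k) (yB k) (zB k) (MB k) (QB k) (QB' k) (CB k) (SB k)
      (5 * C.T) dB KB)
    {c1 : ℝ} (hc0 : 0 ≤ c1) (hc1 : c1 ≤ 4 ^ 17)
    (iA1 : ∀ v, (if v ∈ (QA 1).Vk then I1 (MA 1) (QA 1) (5 * C.T) v else 0) ≤ c1 * ix C.Lam 44)
    (iA2 : ∀ v, ∑ k ∈ ({2, 3, 4, 5} : Finset (Fin 10)), (if v ∈ (QA k).Vk then I1 (MA k) (QA k) (5 * C.T) v else 0) ≤
      c1 * ix C.Lam 44)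
    (iB1 : ∀ v, (if v ∈ (QB 1).Vk then I1 (MB 1) (QB 1) (5 * C.T) v else 0) ≤ c1 * ix C.Lam 44)
    (iB2 : ∀ v, ∑ k ∈ ({2, 3, 4, 5} : Finset (Fin 10)), (if v ∈ (QB k).Vk then I1 (MB k) (QB k) (5 * C.T) v else 0) ≤
      c1 * ix C.Lam 44)
    (zA2 : ∀ k ∈ rK, I2 (MA k) (QA k) (5 * C.T) ≤ c1 * ix C.Lam 44)
    (zB2 : ∀ k ∈ rK, I2 (MB k) (QB k) (5 * C.T) ≤ c1 * ix C.Lam 44)
    (hth : 3 * C.Lam * ∑ k ∈ rK, ∑ q ∈ range (5 * C.T), C.tb.Ps.Pr (thO C.h C.tb C.v c B (C.aN ka) bO zO gM k q) ≤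
      ix C.Lam 24)
    (hov : 3 * C.Lam * ∑ k ∈ rK, ∑ q ∈ range (5 * C.T), ∑ i ∈ vk k, ∑ j ∈ vk k,
      (if i < j then C.tb.Ps.Pr (ovO C.h C.tb C.v c B (C.aN ka) bO gM k i j q) else 0) ≤ ix C.Lam 24) :
    ∑ t ∈ range C.T, ∑ s, RelS C.h C.v c B (fun k i q => lft (bO k i q)) (fun k q => lft (zO k q)) (C.aN ka) C.Kf s t ≤
      (pw C.Lam 17)⁻¹ :=
  relFull C.h C.tb C.hL C.H C.R C.hNe hb hz (fun t _ u hu => aN_1 C.h C.v C.p C.Gq (C.st ka) (C.sp ka) t u hu)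
    (fun t _ u hu => aN_5 C.h C.v C.p C.Gq (C.st ka) (C.sp ka) t u hu) C.Kf_nn C.Kf_le hPA hPB hrl hA hB hc0 hc1 iA1 iA2 iB1
    iB2 zA2 zB2 hth hov

end

end Pool.Agent.GMH.CX
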