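import Pool.Agent.GMH.RelF
import Pool.Agent.GMH.StpT

/-!
# GMH/RelFull (helper28): THE RELEASED SUM OF THE THREE TOPS (row A6, `Fu.rel`), from the two theories `A`, `B` of the stretches

* `UV.RelK` : all inputs of one kind in one theory (`US`), `RelK.tot`;
* `relFull` : `∑_t ∑_s RelS ≤ (pw Lam 17)⁻¹` : the released weight is the sum of the weights of the two theories; the signed
  sums of the lives are bounded per group of kinds (`{1}`, `{2, 3, 4, 5}`), the signed sums of the zones per kind.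
-/

set_option autoImplicit false
set_option linter.unusedSectionVars false

namespace Pool.Agent.GMH.UV

open Finset Pool.Agent.PWZ Pool.Agent.M3 Pool.Agent.GMH.TD Pool.Agent.GMH.CK Pool.Agent.GMH.MV Pool.Agent.GMH.UnmL
open Pool.Agent.GMH.V3 Pool.Agent.GMH.CT

noncomputable section

variable {Om : Type} [Fintype Om]

/-- the signed sum over the lives of `v` -/
def I1 (M : US Om) (Q : Kd Om) (T : ℕ) (v : Fin 3) : ℝ :=
  ∑ τ ∈ range T, M.P.E (fun w => ind (tv M v τ w = τ ∧ dcv M Q T v τ w) * Q.psi (some v) τ w)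

/-- the signed sum over the zones -/
def I2 (M : US Om) (Q : Kd Om) (T : ℕ) : ℝ :=
  ∑ n ∈ range T, M.P.E (fun w => ind (nu M.toMS n w = n ∧ dc0 M Q T n w) * Q.psi Option.none n w)

/-- all inputs of one kind in one theory: `A` the counting steps, `B` the real steps -/
structure RelK (r : Rd) (Lam : ℝ) (ka : ℕ) (c e y y0 : ℝ) (M : US Om) (Q Q' : Kd Om) (A B : Stps (Om := Om)) (T : ℕ)
    (δ K : ℝ) : Prop where
  C : RelC r Lam ka c e y y0 M Q Q' A T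
  N : RelNum r Lam ka c e y y0
  G : RelG r Lam c e M Q A B T
  ok : StpOK M Q B δ
  pv : Prv M Q
  lo : ∀ w, M.P.p w ≠ 0 → ∀ o τ, -K ≤ Q.psi o τ w
  K0 : 0 ≤ K
  hK : K ≤ pw Lam r.kL
  eK : K * e ≤ ix Lam 44
  d0 : 0 ≤ δ
  hd : δ * pw Lam r.Z ≤ ix Lam 44

theorem RelK.tot {r : Rd} {Lam : ℝ} {ka : ℕ} {c e y y0 : ℝ} {M : US Om} {Q Q' : Kd Om} {A B : Stps (Om := Om)} {T : ℕ}
    {δ K : ℝ} (h : RelK r Lam ka c e y y0 M Q Q' A B T δ K) :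
    ∑ q ∈ range T, M.P.E (fun w => rels M Q B q w * B.g q w) ≤
      ∑ v ∈ Q.Vk, I1 M Q T v + I2 M Q T + 60 * ix Lam 44 :=
  h.C.total_raw h.N h.G h.ok h.pv h.K0 h.hK h.eK h.lo h.hd h.d0

/-- a group of kinds of one theory -/
theorem RelK.grp {Lam : ℝ} (hL : 2 ≤ Lam) {G : Finset (Fin 10)} (hG : G.card ≤ 9) {c1 : ℝ} (hc0 : 0 ≤ c1) (hc1 : c1 ≤ 4 ^ 17)
    {r : Fin 10 → Rd} {ka : Fin 10 → ℕ} {c e y y0 : Fin 10 → ℝ} {M : Fin 10 → US Om} {Q Q' : Fin 10 → Kd Om}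
    {A B : Fin 10 → Stps (Om := Om)} {T : ℕ} {δ K : ℝ}
    (h : ∀ k ∈ G, RelK (r k) Lam (ka k) (c k) (e k) (y k) (y0 k) (M k) (Q k) (Q' k) (A k) (B k) T δ K)
    (h1 : ∀ v, ∑ k ∈ G, (if v ∈ (Q k).Vk then I1 (M k) (Q k) T v else 0) ≤ c1 * ix Lam 44)
    (h2 : ∀ k ∈ G, I2 (M k) (Q k) T ≤ c1 * ix Lam 44) :
    ∑ k ∈ G, ∑ q ∈ range T, (M k).P.E (fun w => rels (M k) (Q k) (B k) q w * (B k).g q w) ≤ ix Lam 24 :=
  rel_grp hG hL hc0 hc1 (fun k hk => (h k hk).tot) h1 h2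

end

end Pool.Agent.GMH.UV

namespace Pool.Agent.GMH.TRF

open Finset Pool.Agent.PWZ Pool.Agent.M3 Pool.Agent.GM Pool.Agent.GM.Harm Pool.Agent.GMH Pool.Agent.GMH.NZ
open Pool.Agent.GMH.V3 Pool.Agent.GMH.TP Pool.Agent.GMH.TD Pool.Agent.GMH.Dy Pool.Agent.GMH.MV Pool.Agent.GMH.MVI
open Pool.Agent.GMH.UV Pool.Agent.GMH.KF Pool.Agent.GMH.CK Pool.Agent.GMH.CT

noncomputable section

theorem sum_rK5 (f : Fin 10 → ℝ) : ∑ k ∈ rK, f k = f 1 + ∑ k ∈ ({2, 3, 4, 5} : Finset (Fin 10)), f k := by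
  have e : rK = insert 1 ({2, 3, 4, 5} : Finset (Fin 10)) := by decide
  rw [e, Finset.sum_insert (by decide)]

variable {X β γ φ : Type} [Fintype X] [Fintype β] [Fintype φ] [Nonempty X] [Nonempty β]
variable {D : HD (Fin 3) X β γ φ} {al : ℝ} (h : D.Thick al) {prr : ℕ → Fin 3 → φ → φ} {T : ℕ} {W : Type} [Fintype W]
variable (tb : Tab D prr T W) {v : ℕ → Finset (Fin 3) → X → (Fin 3 → β) → Pt (Fin 3) X β φ}
variable {c : KC} {B : ℝ} {A : Fin 6 → ℕ → Pt (Fin 3) X β φ → Prop}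
  {bO : Fin 10 → Fin 3 → ℕ → Om W X β → Prop} {zO : Fin 10 → ℕ → Om W X β → Prop}
  {gM : Fin 10 → ℕ → Om W X β → Prop}

/-- **THE RELEASED SUM OF THE THREE TOPS** -/
theorem relFull {dg : ℕ → X → ℝ} {Lam : ℝ} (hL : 2 ≤ Lam) (H : D.Hyp dg prr al T Lam) {N : Finset (Fin 3) → ℝ}
    (R : Run h N (SS1 (Fin 3)) (AdmDep D) v) (hN : ∀ l : Fin 3, 0 < N (univ.erase l))
    (hb : ∀ k i q, Pos (bO k i q)) (hz : ∀ k q, Pos (zO k q))
    (hA1 : ∀ t < T, ∀ u, A 1 t u → ¬ HV h v t u) (hA5 : ∀ t < T, ∀ u, A 5 t u → HV h v t u) {K : ℝ} (hK : 0 ≤ K)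
    (hK3 : K ≤ 3 * Lam) {MA MB : Fin 10 → US (Om W X β)} (hPA : ∀ k, (MA k).P = tb.Ps) (hPB : ∀ k, (MB k).P = tb.Ps)
    {QA QA' QB QB' : Fin 10 → Kd (Om W X β)} {CA SA CB SB : Fin 10 → Stps (Om := Om W X β)}
    (hrl : ∀ k ∈ rK, ∀ q < 5 * T, ∀ w, tb.Ps.p w ≠ 0 → rlB h tb v c B A bO zO gM k q w * gO h tb v K q w =
      rels (MA k) (QA k) (SA k) q w * (SA k).g q w + rels (MB k) (QB k) (SB k) q w * (SB k).g q w)
    {rA rB : Fin 10 → Rd} {kaA kaB : Fin 10 → ℕ} {cA eA yA zA cB eB yB zB : Fin 10 → ℝ} {dA dB KA KB : ℝ}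
    (hA : ∀ k ∈ rK, RelK (rA k) Lam (kaA k) (cA k) (eA k) (yA k) (zA k) (MA k) (QA k) (QA' k) (CA k) (SA k) (5 * T)
      dA KA)
    (hB : ∀ k ∈ rK, RelK (rB k) Lam (kaB k) (cB k) (eB k) (yB k) (zB k) (MB k) (QB k) (QB' k) (CB k) (SB k) (5 * T)
      dB KB)
    {c1 : ℝ} (hc0 : 0 ≤ c1) (hc1 : c1 ≤ 4 ^ 17)
    (iA1 : ∀ v, (if v ∈ (QA 1).Vk then I1 (MA 1) (QA 1) (5 * T) v else 0) ≤ c1 * ix Lam 44)
    (iA2 : ∀ v, ∑ k ∈ ({2, 3, 4, 5} : Finset (Fin 10)), (if v ∈ (QA k).Vk then I1 (MA k) (QA k) (5 * T) v else 0) ≤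
      c1 * ix Lam 44)
    (iB1 : ∀ v, (if v ∈ (QB 1).Vk then I1 (MB 1) (QB 1) (5 * T) v else 0) ≤ c1 * ix Lam 44)
    (iB2 : ∀ v, ∑ k ∈ ({2, 3, 4, 5} : Finset (Fin 10)), (if v ∈ (QB k).Vk then I1 (MB k) (QB k) (5 * T) v else 0) ≤
      c1 * ix Lam 44)
    (zA2 : ∀ k ∈ rK, I2 (MA k) (QA k) (5 * T) ≤ c1 * ix Lam 44) (zB2 : ∀ k ∈ rK, I2 (MB k) (QB k) (5 * T) ≤ c1 * ix Lam 44)
    (hth : 3 * Lam * ∑ k ∈ rK, ∑ q ∈ range (5 * T), tb.Ps.Pr (thO h tb v c B A bO zO gM k q) ≤ ix Lam 24)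
    (hov : 3 * Lam * ∑ k ∈ rK, ∑ q ∈ range (5 * T), ∑ i ∈ vk k, ∑ j ∈ vk k,
      (if i < j then tb.Ps.Pr (ovO h tb v c B A bO gM k i j q) else 0) ≤ ix Lam 24) :
    ∑ t ∈ range T, ∑ s, RelS h v c B (fun k i q => lft (bO k i q)) (fun k q => lft (zO k q)) A K s t ≤
      (pw Lam 17)⁻¹ := by
  classical
  have h1 := relS_le (h := h) (tb := tb) (c := c) (B := B) (A := A) (gM := gM) H R hN hb hz hA1 hA5 hK hK3
  have r1 : (1 : Fin 10) ∈ rK := by decide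
  have r2 : ∀ k ∈ ({2, 3, 4, 5} : Finset (Fin 10)), k ∈ rK := by decide
  -- the groups
  have gA1 := RelK.grp (G := {1}) hL (by simp) hc0 hc1 (fun k hk => hA k (by rw [Finset.mem_singleton.1 hk]; exact r1))
    (fun v => by rw [Finset.sum_singleton]; exact iA1 v)
    (fun k hk => zA2 k (by rw [Finset.mem_singleton.1 hk]; exact r1))
  have gA2 := RelK.grp hL (by decide) hc0 hc1 (fun k hk => hA k (r2 k hk)) iA2 (fun k hk => zA2 k (r2 k hk))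
  have gB1 := RelK.grp (G := {1}) hL (by simp) hc0 hc1 (fun k hk => hB k (by rw [Finset.mem_singleton.1 hk]; exact r1))
    (fun v => by rw [Finset.sum_singleton]; exact iB1 v)
    (fun k hk => zB2 k (by rw [Finset.mem_singleton.1 hk]; exact r1))
  have gB2 := RelK.grp hL (by decide) hc0 hc1 (fun k hk => hB k (r2 k hk)) iB2 (fun k hk => zB2 k (r2 k hk))
  simp only [hPA] at gA1 gA2
  simp only [hPB] at gB1 gB2
  rw [Finset.sum_singleton] at gA1 gB1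
  -- the split
  have e1 : ∑ k ∈ rK, ∑ q ∈ range (5 * T), tb.Ps.E (fun w => rlB h tb v c B A bO zO gM k q w * gO h tb v K q w) =
      ∑ k ∈ rK, ∑ q ∈ range (5 * T), tb.Ps.E (fun w => rels (MA k) (QA k) (SA k) q w * (SA k).g q w) +
      ∑ k ∈ rK, ∑ q ∈ range (5 * T), tb.Ps.E (fun w => rels (MB k) (QB k) (SB k) q w * (SB k).g q w) := by
    rw [← Finset.sum_add_distrib]
    refine Finset.sum_congr rfl fun k hk => ?_
    rw [← Finset.sum_add_distrib]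
    refine Finset.sum_congr rfl fun q hq => ?_
    rw [← tb.Ps.E_add]
    exact tb.Ps.E_congr fun w hw => hrl k hk q (Finset.mem_range.1 hq) w hw
  rw [e1, sum_rK5, sum_rK5] at h1
  have h2 : 7 * ix Lam 24 ≤ ix Lam 17 := CT.fin hL (a := 2) (CT.cst hL 2 (by norm_num)) (by norm_num)
  have h3 := ix_nn hL 24
  show _ ≤ ix Lam 17
  linarith

end

end Pool.Agent.GMH.TRF
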