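import Pool.Agent.GMH.Key3S
import Pool.Agent.GMH.RelP

/-!
# GMH.RelT: the relative price on top of `lossC_rel` (helper89; notes 3965 (A), 3975 (D), chain form)

`xi` an event (released), `T` the labels which the weight may see, `W = ((V, Z), labels in T)`,
`pi = rpi P (V, Z) F T xi` = conditional probability of `xi` given `W`, as a function of the tuple.
* `rgC_price` : for `al` a weight, function of `(V, Z)`, with values in `[0, 1]`:
  `E al rgC(pi) ≤ E al (1_xi max(psi, -K) + (1 - 1_xi) 1_Reg (psi⁺ + log (1/eta))) + 2 (Lam + log (1/eta)) P(xi) B^(1/2)`,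
  `B` a bound of the relative entropy of the tuple given `W` inside the event;
* `lossC_price` : Lemma S with it;
* `lossC_price_and` : the event may be cut down to the alive set (`al` an indicator), the bound `B` is asked there only.
-/

set_option autoImplicit false
set_option linter.unusedSectionVars false
set_option linter.unusedVariables false

namespace Pool.Agent.GMH

open Finset Pool.Agent.PWZ Pool.Agent.M3 Pool.Agent.GM

noncomputable section

section relt

variable {Om : Type*} [Fintype Om] (P : FP Om) {I α β γ φ ν : Type*} [Fintype I] [DecidableEq I]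
  {Z : Om → β} {Zb : I → Om → α} (F : I → Om → φ) {Y : I → Om → γ} {V : Om → ν}

/-- the released part, signed and cut at `-K`, and the cut part of the others, at the true tuple -/
def sgC (P : FP Om) (Z : Om → β) (Zb : I → Om → α) (F : I → Om → φ) (eta K : ℝ) (Reg : Om → (I → φ) → Prop)
    (xi : Om → Prop) (w : Om) : ℝ :=
  ind (xi w) * max (psC P Z Zb F w (tup F w)) (-K) +
    (1 - ind (xi w)) * (ind (Reg w (tup F w)) * (max (psC P Z Zb F w (tup F w)) 0 + Real.log (1 / eta)))

/-- **THE PRICE OF THE WEIGHT** -/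
theorem rgC_price (hZ : ∀ i, Fac Z (Zb i)) {eta : ℝ} (heta : 0 < eta) (heta1 : eta ≤ 1) {al : Om → ℝ}
    (hal : Fac (fun u => (V u, Z u)) al) (h0 : ∀ w, 0 ≤ al w) (h1 : ∀ w, al w ≤ 1) {Reg : Om → (I → φ) → Prop}
    (hR : ∀ f, Fac (fun u => (V u, Z u)) (fun w => Reg w f)) (T : Finset I) (xi : Om → Prop) {K Lam B : ℝ} (hK : 0 ≤ K)
    (hKL : K ≤ Lam) (hpsi : ∀ w, P.p w ≠ 0 → al w ≠ 0 → psC P Z Zb F w (tup F w) ≤ Lam)
    (hB : P.Pr xi ≠ 0 → (P.cond xi).klc P (tup F) (fun w => ((V w, Z w), res F T w)) ≤ B) :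
    P.E (fun w => al w * rgC P Z Zb F eta Reg (rpi P (fun u => (V u, Z u)) F T (fun u => ind (xi u))) w (tup F w)) ≤
      P.E (fun w => al w * sgC P Z Zb F eta K Reg xi w) +
        2 * (Lam + Real.log (1 / eta)) * (P.Pr xi * Real.sqrt B) := by
  classical
  set l : ℝ := Real.log (1 / eta) with hl
  have hl0 : 0 ≤ l := Real.log_nonneg (by rw [le_div_iff₀ heta, one_mul]; exact heta1)
  have hL0 : 0 ≤ Lam + l := by linarith
  set W : Om → (ν × β) × ({i // i ∈ T} → φ) := fun w => ((V w, Z w), res F T w) with hW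
  set u1 : Om → ℝ := fun w => max (psC P Z Zb F w (tup F w)) (-K) with hu1
  set u2 : Om → ℝ := fun w => ind (Reg w (tup F w)) * (max (psC P Z Zb F w (tup F w)) 0 + l) with hu2
  set h : Om → ℝ := fun w => max (-(Lam + l)) (min (al w * (u1 w - u2 w)) (Lam + l)) with hh
  -- the function of the tuple and of `W`
  have fu : Fac (fun w => (tup F w, W w)) (fun w => al w * (u1 w - u2 w)) := by
    intro a b hab
    have hab' : tup F a = tup F b ∧ (V a = V b ∧ Z a = Z b) ∧ res F T a = res F T b := by
      simpa only [hW, Prod.mk.injEq] using hab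
    obtain ⟨g1, ⟨g2, g3⟩, -⟩ := hab'
    have e1 : al a = al b := hal a b (by simp only [Prod.mk.injEq]; exact ⟨g2, g3⟩)
    have e2 : psC P Z Zb F a (tup F a) = psC P Z Zb F b (tup F b) := by
      rw [g1]
      exact psC_fac P F hZ (tup F b) a b g3
    have e3 : ind (Reg a (tup F a)) = ind (Reg b (tup F b)) := by
      rw [g1]
      have : Reg a (tup F b) = Reg b (tup F b) := hR (tup F b) a b (by simp only [Prod.mk.injEq]; exact ⟨g2, g3⟩)
      rw [this]
    simp only [hu1, hu2, e1, e2, e3]
  have fh : Fac (fun w => (tup F w, W w)) h := fu.comp (fun x => max (-(Lam + l)) (min x (Lam + l)))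
  have bh : ∀ w, |h w| ≤ Lam + l := by
    intro w
    rw [abs_le]
    exact ⟨le_max_left _ _, max_le (by linarith) (min_le_right _ _)⟩
  -- on the support nothing is cut
  have eh : ∀ w, P.p w ≠ 0 → h w = al w * (u1 w - u2 w) := by
    intro w hw
    have hb : |al w * (u1 w - u2 w)| ≤ Lam + l := by
      by_cases ha : al w = 0
      · rw [ha, zero_mul, abs_zero]; exact hL0
      · rw [abs_mul, abs_of_nonneg (h0 w)]
        have h2 := hpsi w hw ha
        have h3 : |u1 w - u2 w| ≤ Lam + l := by
          simp only [hu1, hu2]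
          rw [abs_le]
          by_cases hR : Reg w (tup F w)
          · rw [ind_of hR, one_mul]
            rcases le_total (psC P Z Zb F w (tup F w)) 0 with h3 | h3
            · rw [max_eq_right h3]
              have h4 := le_max_right (psC P Z Zb F w (tup F w)) (-K)
              have h5 : max (psC P Z Zb F w (tup F w)) (-K) ≤ 0 := max_le h3 (by linarith)
              constructor <;> linarith
            · rw [max_eq_left h3, max_eq_left (by linarith : -K ≤ psC P Z Zb F w (tup F w))]
              constructor <;> linarith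
          · rw [ind_not hR, zero_mul, sub_zero]
            have h4 := le_max_right (psC P Z Zb F w (tup F w)) (-K)
            have h5 : max (psC P Z Zb F w (tup F w)) (-K) ≤ Lam := max_le h2 (by linarith)
            constructor <;> linarith
        calc al w * |u1 w - u2 w| ≤ 1 * (Lam + l) := mul_le_mul (h1 w) h3 (abs_nonneg _) zero_le_one
          _ = _ := one_mul _
    obtain ⟨b1, b2⟩ := abs_le.1 hb
    simp only [hh]
    rw [min_eq_left b2, max_eq_right b1]
  have k2 := price_event_le (P := P) (xi := xi) (Y := tup F) (W := W) (h := h) fh hL0 bh hB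
  have k3 := (abs_le.1 k2).2
  have k4 : P.E (fun w => P.ce W (fun v => ind (xi v)) w * h w) =
      P.E (fun w => P.ce W (fun v => ind (xi v)) w * (al w * (u1 w - u2 w))) :=
    P.E_congr fun w hw => by rw [eh w hw]
  have k5 : P.E (fun w => ind (xi w) * h w) = P.E (fun w => ind (xi w) * (al w * (u1 w - u2 w))) :=
    P.E_congr fun w hw => by rw [eh w hw]
  rw [k4, k5] at k3
  -- the weight at the true tuple
  have k1 : P.E (fun w => al w * rgC P Z Zb F eta Reg (rpi P (fun u => (V u, Z u)) F T (fun u => ind (xi u))) w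
      (tup F w)) ≤ P.E (fun w => al w * (P.ce W (fun v => ind (xi v)) w * u1 w +
        (1 - P.ce W (fun v => ind (xi v)) w) * u2 w)) := by
    refine P.E_mono fun w hw => ?_
    refine mul_le_mul_of_nonneg_left ?_ (h0 w)
    unfold rgC
    rw [rpi_tup]
    have := mul_le_mul_of_nonneg_left (le_max_left (psC P Z Zb F w (tup F w)) (-K))
      (P.ce_nonneg (X := W) (f := fun v => ind (xi v)) (fun u _ => ind_nonneg _) w)
    simp only [hu1, hu2]
    have e : P.ce (fun u => ((V u, Z u), res F T u)) (fun u => ind (xi u)) w = P.ce W (fun v => ind (xi v)) w := rfl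
    rw [e]
    linarith
  have k6 : P.E (fun w => al w * (P.ce W (fun v => ind (xi v)) w * u1 w +
        (1 - P.ce W (fun v => ind (xi v)) w) * u2 w)) =
      P.E (fun w => al w * sgC P Z Zb F eta K Reg xi w) +
        (P.E (fun w => P.ce W (fun v => ind (xi v)) w * (al w * (u1 w - u2 w))) -
          P.E (fun w => ind (xi w) * (al w * (u1 w - u2 w)))) := by
    rw [← P.E_sub, ← P.E_add]
    refine P.E_congr fun w _ => ?_
    simp only [sgC, hu1, hu2]
    ring
  rw [k6] at k1
  linarith

/-- **LEMMA S WITH RELEASED EVENTS AND THE RELATIVE PRICE** -/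
theorem lossC_price (hZ : ∀ i, Fac Z (Zb i)) (hV : ∀ i, Fac (fun u => (V u, Z u)) (Y i)) {eta : ℝ} (heta : 0 < eta)
    (heta1 : eta ≤ 1) {al : Om → ℝ} (hal : Fac (fun u => (V u, Z u)) al) (h0 : ∀ w, 0 ≤ al w) (h1 : ∀ w, al w ≤ 1)
    {Reg : Om → (I → φ) → Prop} (hR : ∀ f, Fac (fun u => (V u, Z u)) (fun w => Reg w f)) (T : Finset I) (xi : Om → Prop)
    {K Lam B : ℝ} (hK : 0 ≤ K) (hKL : K ≤ Lam)
    (hpsi : ∀ w, P.p w ≠ 0 → al w ≠ 0 → psC P Z Zb F w (tup F w) ≤ Lam)
    (hB : P.Pr xi ≠ 0 → (P.cond xi).klc P (tup F) (fun w => ((V w, Z w), res F T w)) ≤ B) :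
    P.E (fun w => al w * lossC P Z Zb F Y V w) ≤ P.E (fun w => al w * sgC P Z Zb F eta K Reg xi w) +
      2 * (Lam + Real.log (1 / eta)) * (P.Pr xi * Real.sqrt B) +
      P.E (fun w => al w * ∑ f ∈ let_ F, (∏ i, P.pv (fun u => (Y i u, Zb i u)) (F i) w (f i)) *
        ((1 - rpi P (fun u => (V u, Z u)) F T (fun u => ind (xi u)) w f) * (G0C P Z Zb F eta Reg w f - 1))) := by
  have k1 := lossC_rel P F hZ hV (eta := eta) hal h0 hR
    (pi := rpi P (fun u => (V u, Z u)) F T (fun u => ind (xi u))) (fun f => rpi_fac P f)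
    (fun w f => rpi_nonneg P (fun u => ind_nonneg _) w f) (fun w f => rpi_le_one P (fun u => ind_le_one _) w f)
  have k2 := rgC_price P F hZ heta heta1 hal h0 h1 hR T xi hK hKL hpsi hB
  linarith

/-- the released event cut down to the alive set -/
theorem lossC_price_and (hZ : ∀ i, Fac Z (Zb i)) (hV : ∀ i, Fac (fun u => (V u, Z u)) (Y i)) {eta : ℝ} (heta : 0 < eta)
    (heta1 : eta ≤ 1) {Al : Om → Prop} (hal : Fac (fun u => (V u, Z u)) Al)
    {Reg : Om → (I → φ) → Prop} (hR : ∀ f, Fac (fun u => (V u, Z u)) (fun w => Reg w f)) (T : Finset I) (xi : Om → Prop)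
    {K Lam B : ℝ} (hK : 0 ≤ K) (hKL : K ≤ Lam)
    (hpsi : ∀ w, P.p w ≠ 0 → Al w → psC P Z Zb F w (tup F w) ≤ Lam)
    (hB : P.Pr (fun w => Al w ∧ xi w) ≠ 0 →
      (P.cond (fun w => Al w ∧ xi w)).klc P (tup F) (fun w => ((V w, Z w), res F T w)) ≤ B) :
    P.E (fun w => ind (Al w) * lossC P Z Zb F Y V w) ≤ P.E (fun w => ind (Al w) * sgC P Z Zb F eta K Reg xi w) +
      2 * (Lam + Real.log (1 / eta)) * (P.Pr (fun w => Al w ∧ xi w) * Real.sqrt B) +
      P.E (fun w => ind (Al w) * ∑ f ∈ let_ F, (∏ i, P.pv (fun u => (Y i u, Zb i u)) (F i) w (f i)) *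
        ((1 - rpi P (fun u => (V u, Z u)) F T (fun u => ind (xi u)) w f) * (G0C P Z Zb F eta Reg w f - 1))) := by
  have fal : Fac (fun u => (V u, Z u)) (fun w => ind (Al w)) := hal.comp (fun q => ind q)
  have hn : ∀ w, ind (Al w) ≠ 0 → Al w := fun w h => by
    by_contra h2
    exact h (ind_not h2)
  have k1 := lossC_price P F hZ hV heta heta1 (al := fun w => ind (Al w)) fal (fun w => ind_nonneg _)
    (fun w => ind_le_one _) hR T (fun w => Al w ∧ xi w) hK hKL (fun w hw ha => hpsi w hw (hn w ha)) hB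
  have e1 : P.E (fun w => ind (Al w) * sgC P Z Zb F eta K Reg (fun w => Al w ∧ xi w) w) =
      P.E (fun w => ind (Al w) * sgC P Z Zb F eta K Reg xi w) := by
    refine P.E_congr fun w _ => ?_
    by_cases h : Al w
    · have : (Al w ∧ xi w) = xi w := propext ⟨fun h2 => h2.2, fun h2 => ⟨h, h2⟩⟩
      simp only [sgC, this]
    · rw [ind_not h, zero_mul, zero_mul]
  have e2 : P.E (fun w => ind (Al w) * ∑ f ∈ let_ F, (∏ i, P.pv (fun u => (Y i u, Zb i u)) (F i) w (f i)) *
        ((1 - rpi P (fun u => (V u, Z u)) F T (fun u => ind (Al u ∧ xi u)) w f) * (G0C P Z Zb F eta Reg w f - 1))) =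
      P.E (fun w => ind (Al w) * ∑ f ∈ let_ F, (∏ i, P.pv (fun u => (Y i u, Zb i u)) (F i) w (f i)) *
        ((1 - rpi P (fun u => (V u, Z u)) F T (fun u => ind (xi u)) w f) * (G0C P Z Zb F eta Reg w f - 1))) := by
    refine P.E_congr fun w _ => ?_
    by_cases h : Al w
    · congr 1
      refine Finset.sum_congr rfl fun f _ => ?_
      congr 3
      unfold rpi
      congr 1
      refine P.E_congr fun u _ => ?_
      by_cases h2 : (V u, Z u) = (V w, Z w) ∧ ∀ i ∈ T, F i u = f i
      · have h3 : Al u := by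
          have : Al u = Al w := hal u w h2.1
          rw [this]; exact h
        have : (Al u ∧ xi u) = xi u := propext ⟨fun h4 => h4.2, fun h4 => ⟨h3, h4⟩⟩
        simp only [this]
      · rw [ind_not h2, zero_mul, zero_mul]
    · rw [ind_not h, zero_mul, zero_mul]
  rw [e1, e2] at k1
  exact k1

end relt

end

end Pool.Agent.GMH
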