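import Pool.Agent.GMH.Key3S

/-!
# GMH.RelTl: the tail of Lemma S with released weights (helper33)

The last sum of `Key3S.lossC_rel`, `∑ ∏ q' (1 - pi) (G0 - 1)`, with `pi = rpi` given `(V, Z)` and the letters in `T`:
* `tail_sum`, `tail_split` : by the letter at `i0` when the weight only sees that letter (`T = {i0}`): inert letters carry
  no release; `tail_none` : `T = ∅`, one factor `1 - P(xi | V, Z)`; `rowC` = mean of the cut density over the tuples with a
  given letter at `i0`.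
-/

set_option autoImplicit false
set_option linter.unusedSectionVars false
set_option linter.unusedVariables false

namespace Pool.Agent.GMH

open Finset Pool.Agent.PWZ Pool.Agent.M3 Pool.Agent.GM

noncomputable section

section reltl

variable {Om : Type*} [Fintype Om] (P : FP Om) {I α β γ φ ν : Type*} [Fintype I] [DecidableEq I]
  {Z : Om → β} {Zb : I → Om → α} (F : I → Om → φ) {Y : I → Om → γ} {V : Om → ν}

open Classical in
/-- mean of the cut density over the tuples with the letter `x` at `i0` -/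
def rowC (eta : ℝ) (Reg : Om → (I → φ) → Prop) (Zb : I → Om → α) (Z : Om → β) (Y : I → Om → γ) (i0 : I) (w : Om)
    (x : φ) : ℝ :=
  ∑ f ∈ (let_ F).filter (fun f => f i0 = x), (∏ i ∈ univ.erase i0, P.pv (fun u => (Y i u, Zb i u)) (F i) w (f i)) *
    G0C P Z Zb F eta Reg w f

theorem G0C_tab (hZ : ∀ i, Fac Z (Zb i)) (hV : ∀ i, Fac (fun u => (V u, Z u)) (Y i)) {w : Om} (hw : P.p w ≠ 0)
    (eta : ℝ) (Reg : Om → (I → φ) → Prop) (f : I → φ) :
    G0C P Z Zb F eta Reg w f = (tabC P Z Zb F Y V hZ hV hw).G0 eta (Reg w) f := rfl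

theorem rowC_tab (hZ : ∀ i, Fac Z (Zb i)) (hV : ∀ i, Fac (fun u => (V u, Z u)) (Y i)) {w : Om} (hw : P.p w ≠ 0)
    (eta : ℝ) (Reg : Om → (I → φ) → Prop) (i0 : I) (x : φ) :
    rowC P F eta Reg Zb Z Y i0 w x =
      (tabC P Z Zb F Y V hZ hV hw).row ((tabC P Z Zb F Y V hZ hV hw).G0 eta (Reg w)) i0 x := rfl

theorem rowC_nn {eta : ℝ} {Reg : Om → (I → φ) → Prop} (i0 : I) (w : Om) (x : φ) :
    0 ≤ rowC P F eta Reg Zb Z Y i0 w x := by
  classical
  unfold rowC
  exact Finset.sum_nonneg fun f _ => mul_nonneg (Finset.prod_nonneg fun i _ => P.pv_nonneg _ _ _ _)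
    (G0C_nn P F eta Reg f)

/-- a letter at `i0` as a tuple, for weights which only see that letter -/
theorem rpi_const {κ : Type*} {N' : Om → κ} {i0 : I} {xi : Om → ℝ} (w : Om) (f : I → φ) :
    rpi P N' F {i0} xi w f = rpi P N' F {i0} xi w (Function.const I (f i0)) :=
  rpi_dep P fun i hi => by rw [Finset.mem_singleton.1 hi]; rfl

/-- the tail by the letter at `i0`, `T = {i0}` -/
theorem tail_sum (hZ : ∀ i, Fac Z (Zb i)) (hV : ∀ i, Fac (fun u => (V u, Z u)) (Y i)) (i0 : I) (xi : Om → ℝ) (eta : ℝ)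
    (Reg : Om → (I → φ) → Prop) {w : Om} (hw : P.p w ≠ 0) :
    ∑ f ∈ let_ F, (∏ i, P.pv (fun u => (Y i u, Zb i u)) (F i) w (f i)) *
        ((1 - rpi P (fun u => (V u, Z u)) F {i0} xi w f) * (G0C P Z Zb F eta Reg w f - 1)) =
      ∑ x ∈ vals (F i0), P.pv (fun u => (Y i0 u, Zb i0 u)) (F i0) w x *
        ((1 - rpi P (fun u => (V u, Z u)) F {i0} xi w (Function.const I x)) * (rowC P F eta Reg Zb Z Y i0 w x - 1)) := by
  have h := (tabC P Z Zb F Y V hZ hV hw).sum_row ((tabC P Z Zb F Y V hZ hV hw).G0 eta (Reg w)) i0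
    (fun x => 1 - rpi P (fun u => (V u, Z u)) F {i0} xi w (Function.const I x))
  refine Eq.trans (Finset.sum_congr rfl fun f _ => ?_) h
  rw [rpi_const]
  rfl

/-- the tail by the letter at `i0`: `Act w x` = the letter is not inert; inert letters carry no release -/
theorem tail_split (hZ : ∀ i, Fac Z (Zb i)) (hV : ∀ i, Fac (fun u => (V u, Z u)) (Y i)) (i0 : I) {xi : Om → ℝ}
    (h0 : ∀ w, 0 ≤ xi w) (h1 : ∀ w, xi w ≤ 1) (eta : ℝ) (Reg : Om → (I → φ) → Prop) (Act : Om → φ → Prop)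
    (hAct : ∀ x, Fac (fun u => (V u, Z u)) (fun w => Act w x)) (hin : ∀ w, P.p w ≠ 0 → ¬ Act w (F i0 w) → xi w = 0)
    {w : Om} (hw : P.p w ≠ 0) :
    ∑ f ∈ let_ F, (∏ i, P.pv (fun u => (Y i u, Zb i u)) (F i) w (f i)) *
        ((1 - rpi P (fun u => (V u, Z u)) F {i0} xi w f) * (G0C P Z Zb F eta Reg w f - 1)) ≤
      ∑ x ∈ vals (F i0), P.pv (fun u => (Y i0 u, Zb i0 u)) (F i0) w x *
        (ind (¬ Act w x) * (rowC P F eta Reg Zb Z Y i0 w x - 1) +
          ind (Act w x) * max (rowC P F eta Reg Zb Z Y i0 w x - 1) 0) := by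
  rw [tail_sum P F hZ hV i0 xi eta Reg hw]
  refine Finset.sum_le_sum fun x _ => ?_
  refine mul_le_mul_of_nonneg_left ?_ (P.pv_nonneg _ _ _ _)
  have p0 := rpi_nonneg P (N' := fun u => (V u, Z u)) (f := F) (T := {i0}) h0 w (Function.const I x)
  have p1 := rpi_le_one P (N' := fun u => (V u, Z u)) (f := F) (T := {i0}) h1 w (Function.const I x)
  by_cases hx : Act w x
  · rw [ind_of hx, ind_not (not_not.2 hx), zero_mul, zero_add, one_mul]
    have h5 := le_max_left (rowC P F eta Reg Zb Z Y i0 w x - 1) 0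
    have h6 := le_max_right (rowC P F eta Reg Zb Z Y i0 w x - 1) 0
    nlinarith
  · have hz : rpi P (fun u => (V u, Z u)) F {i0} xi w (Function.const I x) = 0 := by
      unfold rpi
      have : P.E (fun u => ind ((V u, Z u) = (V w, Z w) ∧ ∀ i ∈ ({i0} : Finset I), F i u = Function.const I x i) * xi u) =
          P.E (fun _ => (0 : ℝ)) := by
        refine P.E_congr fun u hu => ?_
        by_cases hc : (V u, Z u) = (V w, Z w) ∧ ∀ i ∈ ({i0} : Finset I), F i u = Function.const I x i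
        · have h2 : F i0 u = x := hc.2 i0 (Finset.mem_singleton_self i0)
          have h3 : Act u x = Act w x := hAct x u w hc.1
          have h4 : ¬ Act u (F i0 u) := by rw [h2, h3]; exact hx
          rw [hin u hu h4, mul_zero]
        · rw [ind_not hc, zero_mul]
      rw [this, P.E_const, zero_div]
    rw [hz, ind_not hx, ind_of hx, zero_mul, add_zero, one_mul, sub_zero, one_mul]

/-- the tail, `T = ∅`: one factor for the whole node -/
theorem tail_none (xi : Om → ℝ) (eta : ℝ) (Reg : Om → (I → φ) → Prop) {w : Om} (hw : P.p w ≠ 0) :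
    ∑ f ∈ let_ F, (∏ i, P.pv (fun u => (Y i u, Zb i u)) (F i) w (f i)) *
        ((1 - rpi P (fun u => (V u, Z u)) F ∅ xi w f) * (G0C P Z Zb F eta Reg w f - 1)) =
      (1 - P.ce (fun u => (V u, Z u)) xi w) *
        (∑ f ∈ let_ F, (∏ i, P.pv (fun u => (Y i u, Zb i u)) (F i) w (f i)) * G0C P Z Zb F eta Reg w f - 1) := by
  have hone : ∑ f ∈ let_ F, ∏ i, P.pv (fun u => (Y i u, Zb i u)) (F i) w (f i) = 1 := by
    unfold let_
    rw [← Finset.prod_univ_sum (fun i => vals (F i)) (fun i x => P.pv (fun u => (Y i u, Zb i u)) (F i) w x)]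
    exact Finset.prod_eq_one fun i _ => P.pv_sum _ _ hw
  have hr : ∀ f : I → φ, rpi P (fun u => (V u, Z u)) F ∅ xi w f = P.ce (fun u => (V u, Z u)) xi w := by
    intro f
    unfold rpi FP.ce FP.m FP.Pr
    have h : ∀ u, ((V u, Z u) = (V w, Z w) ∧ ∀ i ∈ (∅ : Finset I), F i u = f i) = ((V u, Z u) = (V w, Z w)) := by
      intro u
      refine propext ⟨fun h => h.1, fun h => ⟨h, fun i hi => absurd hi (Finset.notMem_empty i)⟩⟩
    simp only [h]
  simp only [hr]
  have e1 : ∀ f : I → φ, (∏ i, P.pv (fun u => (Y i u, Zb i u)) (F i) w (f i)) *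
      ((1 - P.ce (fun u => (V u, Z u)) xi w) * (G0C P Z Zb F eta Reg w f - 1)) =
      (1 - P.ce (fun u => (V u, Z u)) xi w) * ((∏ i, P.pv (fun u => (Y i u, Zb i u)) (F i) w (f i)) *
        G0C P Z Zb F eta Reg w f - ∏ i, P.pv (fun u => (Y i u, Zb i u)) (F i) w (f i)) := fun f => by ring
  simp only [e1]
  rw [← Finset.mul_sum, Finset.sum_sub_distrib, hone]

end reltl

end

end Pool.Agent.GMH
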