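import Pool.Agent.GMH.StpT2
import Pool.Agent.GMH.ConT1

/-!
# GMH/RelTwo (helper35): the released sum of the frame two at the vertex `i`, closed (row A6 of the frames two)

* `close_two` : at most `6` kinds, each at most `x^-24`, thrown part at most `x^-24` : the sum is at most `x^-17`;
* `relTwo` : `∑_t ∑_b RelS2 ≤ (pw Lam 17)⁻¹` from the signed sums `∑_q E (rels g)` of the kinds and the thrown sum;
* `relTwo_sum` : the same from the total of the signed sums; `relTwo_g` : from the three groups `{1}`, `{2, 3, 4, 5}`, `{kH i}`.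
-/

set_option autoImplicit false
set_option linter.unusedSectionVars false

namespace Pool.Agent.GMH.TRF

open Finset Pool.Agent.PWZ Pool.Agent.M3 Pool.Agent.GM Pool.Agent.GM.Harm Pool.Agent.GMH Pool.Agent.GMH.NZ
open Pool.Agent.GMH.V3 Pool.Agent.GMH.TP Pool.Agent.GMH.TD Pool.Agent.GMH.Dy Pool.Agent.GMH.MV Pool.Agent.GMH.MVI
open Pool.Agent.GMH.UV Pool.Agent.GMH.KF Pool.Agent.GMH.CK Pool.Agent.GMH.CT

noncomputable section

/-- closing the sum over the kinds -/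
theorem close_two {Lam : ℝ} (hL : 2 ≤ Lam) {rk : Finset (Fin 10)} (hc : rk.card ≤ 6) {S Th : ℝ} {Sg : Fin 10 → ℝ}
    (h : S ≤ ∑ k ∈ rk, Sg k + Th) (hs : ∀ k ∈ rk, Sg k ≤ ix Lam 24) (hT : Th ≤ ix Lam 24) : S ≤ (pw Lam 17)⁻¹ := by
  have h1 : ∑ k ∈ rk, Sg k ≤ 6 * ix Lam 24 := by
    refine (Finset.sum_le_card_nsmul _ _ _ hs).trans ?_
    rw [nsmul_eq_mul]
    exact mul_le_mul_of_nonneg_right (by exact_mod_cast hc) (ix_nn hL 24)
  have h2 : 7 * ix Lam 24 ≤ ix Lam 17 := CT.fin hL (a := 2) (CT.cst hL 2 (by norm_num)) (by norm_num)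
  show S ≤ ix Lam 17
  linarith

theorem rK2_card6 (i : Fin 3) : (rK2 i).card ≤ 6 := by
  unfold rK2
  refine (Finset.card_insert_le _ _).trans ?_
  have h1 : ({2, 3, 4, 5, kH i} : Finset (Fin 10)).card ≤ 5 := Finset.card_le_five
  omega

/-- sums over the released kinds of the frame two by groups -/
theorem sum_rK2 (i : Fin 3) (f : Fin 10 → ℝ) : ∑ k ∈ rK2 i, f k = f 1 + (f 2 + f 3 + f 4 + f 5) + f (kH i) := by
  unfold rK2
  fin_cases i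
  · show ∑ k ∈ ({1, 2, 3, 4, 5, 6} : Finset (Fin 10)), f k = f 1 + (f 2 + f 3 + f 4 + f 5) + f 6
    rw [Finset.sum_insert (by decide), Finset.sum_insert (by decide), Finset.sum_insert (by decide),
      Finset.sum_insert (by decide), Finset.sum_insert (by decide), Finset.sum_singleton]
    ring
  · show ∑ k ∈ ({1, 2, 3, 4, 5, 7} : Finset (Fin 10)), f k = f 1 + (f 2 + f 3 + f 4 + f 5) + f 7
    rw [Finset.sum_insert (by decide), Finset.sum_insert (by decide), Finset.sum_insert (by decide),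
      Finset.sum_insert (by decide), Finset.sum_insert (by decide), Finset.sum_singleton]
    ring
  · show ∑ k ∈ ({1, 2, 3, 4, 5, 8} : Finset (Fin 10)), f k = f 1 + (f 2 + f 3 + f 4 + f 5) + f 8
    rw [Finset.sum_insert (by decide), Finset.sum_insert (by decide), Finset.sum_insert (by decide),
      Finset.sum_insert (by decide), Finset.sum_insert (by decide), Finset.sum_singleton]
    ring

variable {X β γ φ : Type} [Fintype X] [Fintype β] [Fintype φ] [Nonempty X] [Nonempty β]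
variable {D : HD (Fin 3) X β γ φ} {al : ℝ} (h : D.Thick al) {prr : ℕ → Fin 3 → φ → φ} {T : ℕ} {W : Type} [Fintype W]
variable (tb : Tab D prr T W) {v : ℕ → Finset (Fin 3) → X → (Fin 3 → β) → Pt (Fin 3) X β φ}
variable {c : KC} {B : ℝ} {i : Fin 3} {rk : Finset (Fin 10)} {A : Bool → ℕ → Pt (Fin 3) X β φ → Prop}
  {gM : Fin 10 → ℕ → Om W X β → Prop}
variable (hv : Codes D v) {d1 kb d0 k0 p1 z : ℝ} (hd1 : 0 < d1) (hd11 : d1 ≤ 1) (hkb : 0 < kb) (hd0 : 0 < d0)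
  (hd01 : d0 ≤ 1) (hk0 : 0 < k0) (hp1 : 0 < p1) (hz : 0 < z) (Qk : Fin 10 → Kd (Om W X β))

/-- **THE RELEASED SUM OF THE FRAME TWO** -/
theorem relTwo {dg : ℕ → X → ℝ} {Lam : ℝ} (hL : 2 ≤ Lam) (H : D.Hyp dg prr al T Lam) {N : Finset (Fin 3) → ℝ}
    (R : Run h N (SS1 (Fin 3)) (AdmDep D) v) (hN : ∀ l : Fin 3, 0 < N (univ.erase l)) (hVk : ∀ k, (Qk k).Vk = {i})
    (hA1 : ∀ t < T, ∀ u, A false t u → ¬ HV h v t u) (hA3 : ∀ t < T, ∀ u, A true t u → HV h v t u) {K : ℝ}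
    (hK : 0 ≤ K) (hc : rk.card ≤ 6)
    (hs : ∀ k ∈ rk, ∑ q ∈ range (5 * T), tb.Ps.E (fun w =>
      rels (USi tb hv d1 kb d0 k0 p1 z hd1 hd11 hkb hd0 hd01 hk0 hp1 hz) (Qk k)
        (stps2 h tb v c B i rk A gM K k) q w * gO2 h tb v i K q w) ≤ ix Lam 24)
    (hT : 3 * Lam * ∑ k ∈ rk, ∑ q ∈ range (5 * T), tb.Ps.Pr (thO2 h tb v c B i rk A
      (bO2 Qk (USi tb hv d1 kb d0 k0 p1 z hd1 hd11 hkb hd0 hd01 hk0 hp1 hz) i)
      (zO2 Qk (USi tb hv d1 kb d0 k0 p1 z hd1 hd11 hkb hd0 hd01 hk0 hp1 hz)) gM k q) ≤ ix Lam 24) :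
    ∑ t ∈ range T, ∑ b, RelS2 h v c B i rk
        (fun k q => lft (bO2 Qk (USi tb hv d1 kb d0 k0 p1 z hd1 hd11 hkb hd0 hd01 hk0 hp1 hz) i k q))
        (fun k q => lft (zO2 Qk (USi tb hv d1 kb d0 k0 p1 z hd1 hd11 hkb hd0 hd01 hk0 hp1 hz) k q)) A K b t ≤
      (pw Lam 17)⁻¹ :=
  close_two hL hc (relS2_unm (h := h) (tb := tb) (c := c) (B := B) (i := i) (rk := rk) (A := A) (gM := gM) hv hd1 hd11
    hkb hd0 hd01 hk0 hp1 hz Qk H R hN hVk hA1 hA3 hK) hs hT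

/-- **THE RELEASED SUM OF THE FRAME TWO**, from the total of the signed sums -/
theorem relTwo_sum {dg : ℕ → X → ℝ} {Lam : ℝ} (hL : 2 ≤ Lam) (H : D.Hyp dg prr al T Lam) {N : Finset (Fin 3) → ℝ}
    (R : Run h N (SS1 (Fin 3)) (AdmDep D) v) (hN : ∀ l : Fin 3, 0 < N (univ.erase l)) (hVk : ∀ k, (Qk k).Vk = {i})
    (hA1 : ∀ t < T, ∀ u, A false t u → ¬ HV h v t u) (hA3 : ∀ t < T, ∀ u, A true t u → HV h v t u) {K : ℝ}
    (hK : 0 ≤ K)
    (hs : ∑ k ∈ rk, ∑ q ∈ range (5 * T), tb.Ps.E (fun w =>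
      rels (USi tb hv d1 kb d0 k0 p1 z hd1 hd11 hkb hd0 hd01 hk0 hp1 hz) (Qk k)
        (stps2 h tb v c B i rk A gM K k) q w * gO2 h tb v i K q w) ≤ 6 * ix Lam 24)
    (hT : 3 * Lam * ∑ k ∈ rk, ∑ q ∈ range (5 * T), tb.Ps.Pr (thO2 h tb v c B i rk A
      (bO2 Qk (USi tb hv d1 kb d0 k0 p1 z hd1 hd11 hkb hd0 hd01 hk0 hp1 hz) i)
      (zO2 Qk (USi tb hv d1 kb d0 k0 p1 z hd1 hd11 hkb hd0 hd01 hk0 hp1 hz)) gM k q) ≤ ix Lam 24) :
    ∑ t ∈ range T, ∑ b, RelS2 h v c B i rk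
        (fun k q => lft (bO2 Qk (USi tb hv d1 kb d0 k0 p1 z hd1 hd11 hkb hd0 hd01 hk0 hp1 hz) i k q))
        (fun k q => lft (zO2 Qk (USi tb hv d1 kb d0 k0 p1 z hd1 hd11 hkb hd0 hd01 hk0 hp1 hz) k q)) A K b t ≤
      (pw Lam 17)⁻¹ := by
  have h1 := relS2_unm (h := h) (tb := tb) (c := c) (B := B) (i := i) (rk := rk) (A := A) (gM := gM) hv hd1 hd11
    hkb hd0 hd01 hk0 hp1 hz Qk H R hN hVk hA1 hA3 hK
  have h2 : 7 * ix Lam 24 ≤ ix Lam 17 := CT.fin hL (a := 2) (CT.cst hL 2 (by norm_num)) (by norm_num)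
  refine h1.trans ?_
  show _ ≤ ix Lam 17
  linarith

/-- **THE RELEASED SUM OF THE FRAME TWO**, kinds `rK2 i`, three groups of kinds -/
theorem relTwo_g {dg : ℕ → X → ℝ} {Lam : ℝ} (hL : 2 ≤ Lam) (H : D.Hyp dg prr al T Lam) {N : Finset (Fin 3) → ℝ}
    (R : Run h N (SS1 (Fin 3)) (AdmDep D) v) (hN : ∀ l : Fin 3, 0 < N (univ.erase l)) (hVk : ∀ k, (Qk k).Vk = {i})
    (hA1 : ∀ t < T, ∀ u, A false t u → ¬ HV h v t u) (hA3 : ∀ t < T, ∀ u, A true t u → HV h v t u) {K : ℝ}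
    (hK : 0 ≤ K) {S : Fin 10 → ℝ}
    (hS : ∀ k ∈ rK2 i, ∑ q ∈ range (5 * T), tb.Ps.E (fun w =>
      rels (USi tb hv d1 kb d0 k0 p1 z hd1 hd11 hkb hd0 hd01 hk0 hp1 hz) (Qk k)
        (stps2 h tb v c B i (rK2 i) A gM K k) q w * gO2 h tb v i K q w) ≤ S k)
    (s1 : S 1 ≤ ix Lam 24) (s2 : S 2 + S 3 + S 4 + S 5 ≤ ix Lam 24) (s6 : S (kH i) ≤ ix Lam 24)
    (hT : 3 * Lam * ∑ k ∈ rK2 i, ∑ q ∈ range (5 * T), tb.Ps.Pr (thO2 h tb v c B i (rK2 i) A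
      (bO2 Qk (USi tb hv d1 kb d0 k0 p1 z hd1 hd11 hkb hd0 hd01 hk0 hp1 hz) i)
      (zO2 Qk (USi tb hv d1 kb d0 k0 p1 z hd1 hd11 hkb hd0 hd01 hk0 hp1 hz)) gM k q) ≤ ix Lam 24) :
    ∑ t ∈ range T, ∑ b, RelS2 h v c B i (rK2 i)
        (fun k q => lft (bO2 Qk (USi tb hv d1 kb d0 k0 p1 z hd1 hd11 hkb hd0 hd01 hk0 hp1 hz) i k q))
        (fun k q => lft (zO2 Qk (USi tb hv d1 kb d0 k0 p1 z hd1 hd11 hkb hd0 hd01 hk0 hp1 hz) k q)) A K b t ≤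
      (pw Lam 17)⁻¹ := by
  refine relTwo_sum (h := h) (tb := tb) (c := c) (B := B) (i := i) (rk := rK2 i) (A := A) (gM := gM) hv hd1 hd11
    hkb hd0 hd01 hk0 hp1 hz Qk hL H R hN hVk hA1 hA3 hK ?_ hT
  refine (Finset.sum_le_sum hS).trans ?_
  rw [sum_rK2]
  have := ix_nn hL 24
  linarith

end

end Pool.Agent.GMH.TRF
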