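import Pool.Agent.GMH.RelTwo
import Pool.Agent.GMH.RelFC
import Pool.Agent.GMH.ZonC

/-!
# GMH/RelTwoC (helper35): the released sum of the frame two at the vertex `i` over `Ctx` (row A6, field `Tw.rel`)

Kinds `C.Q2 ka c i k`, `k ∈ rK2 i`, data `C.U ka`, alive sets `C.aV ka i`, cut `C.Kf`; bits `bet`, `Z0` of the kinds.
* `bW`, `zW` : the bits; `stW` : the real steps of a kind;
* **`rel2_ctx`** : `∑_t ∑_b RelS2 ≤ (pw Lam 17)⁻¹` from `RelK` of the kinds, the signed sums of the lives per group of kinds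
  (`{1}`, `{2, 3, 4, 5}`, `{kH i}`), of the zones per kind, and the thrown sum.
-/

set_option autoImplicit false
set_option linter.unusedSectionVars false

namespace Pool.Agent.GMH.CX

open Finset Pool.Agent.PWZ Pool.Agent.M3 Pool.Agent.GM Pool.Agent.GM.Harm Pool.Agent.GMH Pool.Agent.GMH.NZ
open Pool.Agent.GMH.V3 Pool.Agent.GMH.TP Pool.Agent.GMH.TD Pool.Agent.GMH.Dy Pool.Agent.GMH.KF Pool.Agent.GMH.TRF
open Pool.Agent.GMH.UV (US Kd Stps StpOK Prv RelU RelG RelK RelNum I1 I2 rels)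
open Pool.Agent.GMH.CT (ix Rc)

noncomputable section

/-- the bits of the lives of the vertex `i` -/
def bW (C : Ctx) (ka : ℕ) (c : KC) (i : Fin 3) (k : Fin 10) (q : ℕ) : C.O → Prop := bO2 (C.Q2 ka c i) (C.U ka) i k q

/-- the bits of the zones -/
def zW (C : Ctx) (ka : ℕ) (c : KC) (i : Fin 3) (k : Fin 10) (q : ℕ) : C.O → Prop := zO2 (C.Q2 ka c i) (C.U ka) k q

theorem bW_pos (C : Ctx) (ka : ℕ) (c : KC) (i : Fin 3) (k : Fin 10) (q : ℕ) : Pos (bW C ka c i k q) :=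
  bO2_pos C.tb C.codes _ _ _ _ _ _ _ _ (C.Q2 ka c i) k q

theorem zW_pos (C : Ctx) (ka : ℕ) (c : KC) (i : Fin 3) (k : Fin 10) (q : ℕ) : Pos (zW C ka c i k q) :=
  zO2_pos C.tb C.codes _ _ _ _ _ _ _ _ (C.Q2 ka c i) k q

/-- the real steps of the kind `k` of the frame two -/
abbrev stW (C : Ctx) (ka : ℕ) (c : KC) (B : ℝ) (i : Fin 3) (gM : Fin 10 → ℕ → C.O → Prop) (k : Fin 10) :
    Stps (Om := C.O) := stps2 C.h C.tb C.v c B i (rK2 i) (C.aV ka i) gM C.Kf k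

theorem r_one (i : Fin 3) : (1 : Fin 10) ∈ rK2 i := by
  revert i
  decide

theorem r_grp (i : Fin 3) : ∀ k ∈ ({2, 3, 4, 5} : Finset (Fin 10)), k ∈ rK2 i := by
  revert i
  decide

theorem r_pair (i : Fin 3) : kH i ∈ rK2 i := by
  revert i
  decide

/-- the signed sums of a group -/
theorem i1_one {C : Ctx} {ka : ℕ} {c : KC} {i : Fin 3} {G : Finset (Fin 10)} {x : ℝ} (hx : 0 ≤ x)
    (h : ∑ k ∈ G, I1 (C.U ka) (C.Q2 ka c i k) (5 * C.T) i ≤ x) (v : Fin 3) :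
    ∑ k ∈ G, (if v ∈ (C.Q2 ka c i k).Vk then I1 (C.U ka) (C.Q2 ka c i k) (5 * C.T) v else 0) ≤ x := by
  by_cases hv : v = i
  · subst hv
    refine le_trans (le_of_eq (Finset.sum_congr rfl fun k _ => ?_)) h
    rw [C.Q2_Vk, if_pos (Finset.mem_singleton.2 rfl)]
  · refine le_trans (le_of_eq ?_) hx
    refine Finset.sum_eq_zero fun k _ => ?_
    rw [C.Q2_Vk, if_neg fun h => hv (Finset.mem_singleton.1 h)]

/-- **THE RELEASED SUM OF THE FRAME TWO** over `Ctx` -/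
theorem rel2_ctx (C : Ctx) (ka : ℕ) (i : Fin 3) {c : KC} {B : ℝ} {gM : Fin 10 → ℕ → C.O → Prop} {Q' : Fin 10 → Kd C.O}
    {SC : Fin 10 → Stps (Om := C.O)} {r : Fin 10 → CT.Rd} {kk : Fin 10 → ℕ} {cc ee yy zz : Fin 10 → ℝ} {δ K : ℝ}
    (hK : ∀ k ∈ rK2 i, RelK (r k) C.Lam (kk k) (cc k) (ee k) (yy k) (zz k) (C.U ka) (C.Q2 ka c i k) (Q' k) (SC k)
      (stW C ka c B i gM k) (5 * C.T) δ K)
    {c1 : ℝ} (hc0 : 0 ≤ c1) (hc1 : c1 ≤ 4 ^ 17)
    (i1 : I1 (C.U ka) (C.Q2 ka c i 1) (5 * C.T) i ≤ c1 * ix C.Lam 44)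
    (i2 : ∑ k ∈ ({2, 3, 4, 5} : Finset (Fin 10)), I1 (C.U ka) (C.Q2 ka c i k) (5 * C.T) i ≤ c1 * ix C.Lam 44)
    (i6 : I1 (C.U ka) (C.Q2 ka c i (kH i)) (5 * C.T) i ≤ c1 * ix C.Lam 44)
    (z2 : ∀ k ∈ rK2 i, I2 (C.U ka) (C.Q2 ka c i k) (5 * C.T) ≤ c1 * ix C.Lam 44)
    (hth : 3 * C.Lam * ∑ k ∈ rK2 i, ∑ q ∈ range (5 * C.T), C.tb.Ps.Pr (thO2 C.h C.tb C.v c B i (rK2 i) (C.aV ka i)
      (bW C ka c i) (zW C ka c i) gM k q) ≤ ix C.Lam 24) :
    ∑ t ∈ range C.T, ∑ b, RelS2 C.h C.v c B i (rK2 i) (fun k q => lft (bW C ka c i k q)) (fun k q => lft (zW C ka c i k q))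
      (C.aV ka i) C.Kf b t ≤ (pw C.Lam 17)⁻¹ := by
  have h44 : 0 ≤ c1 * ix C.Lam 44 := mul_nonneg hc0 (CT.ix_nn C.hL 44)
  have r1 := r_one i
  have r2 := r_grp i
  have r6 := r_pair i
  have g1 := RelK.grp (G := {1}) C.hL (by simp) hc0 hc1 (fun k hk => hK k (by rw [Finset.mem_singleton.1 hk]; exact r1))
    (i1_one (G := {1}) h44 (by rw [Finset.sum_singleton]; exact i1))
    (fun k hk => z2 k (by rw [Finset.mem_singleton.1 hk]; exact r1))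
  have g2 := RelK.grp C.hL (by decide) hc0 hc1 (fun k hk => hK k (r2 k hk)) (i1_one h44 i2) (fun k hk => z2 k (r2 k hk))
  have g6 := RelK.grp (G := {kH i}) C.hL (by simp) hc0 hc1 (fun k hk => hK k (by rw [Finset.mem_singleton.1 hk]; exact r6))
    (i1_one (G := {kH i}) h44 (by rw [Finset.sum_singleton]; exact i6))
    (fun k hk => z2 k (by rw [Finset.mem_singleton.1 hk]; exact r6))
  rw [Finset.sum_singleton] at g1 g6
  rw [Finset.sum_insert (by decide), Finset.sum_insert (by decide), Finset.sum_insert (by decide),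
    Finset.sum_singleton] at g2
  exact relTwo_g (h := C.h) (tb := C.tb) (c := c) (B := B) (i := i) (A := C.aV ka i) (gM := gM) C.codes (C.d1_pos ka)
    (C.d1_le ka) (C.kb_pos ka) C.d0_pos C.d0_le C.d0_pos C.p1_pos (C.z_pos ka) (C.Q2 ka c i) C.hL C.H C.R C.hNe
    (fun k => C.Q2_Vk ka c i k) (fun t _ u hu => hu.1.1.2) (fun t _ u hu => hu.1.1.2) C.Kf_nn
    (S := fun k => ∑ q ∈ range (5 * C.T), (C.U ka).P.E (fun w =>
      rels (C.U ka) (C.Q2 ka c i k) (stW C ka c B i gM k) q w * (stW C ka c B i gM k).g q w))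
    (fun k _ => le_rfl) g1 (by linarith) g6 hth

end

end Pool.Agent.GMH.CX
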