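import Pool.Agent.GMH.RelAB
import Pool.Agent.GMH.ExitY
import Pool.Agent.GMH.Bef2

/-!
# GMH/RelUAB (helper28): the inputs `RelU` of the two theories over `Ctx` (row A6)

* `stS_run`, `enAB_run` : the removals of the run are seen, they end the clocks (any good tuples);
* `RarF` : the rare fields (`af`, `rd`, `fv`, `sf`, `afz`, `rdz`, `fz`) with `y = y0 = ix sq`; `NgF` : the fields `ng`, `ngz`;
* **`relU_A`**, **`relU_B`** : `RelU` of `(MA, QA)`, `(MB, QB)` for the kind `k` of the three tops, counting steps `C.A0`;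
  **`relK_A`**, **`relK_B`** : `RelK`.
-/

set_option autoImplicit false
set_option linter.unusedSectionVars false

namespace Pool.Agent.GMH.CX

open Finset Pool.Agent.PWZ Pool.Agent.M3 Pool.Agent.GM Pool.Agent.GM.Harm Pool.Agent.GMH Pool.Agent.GMH.NZ
open Pool.Agent.GMH.V3 Pool.Agent.GMH.TP Pool.Agent.GMH.TD Pool.Agent.GMH.Dy Pool.Agent.GMH.KF Pool.Agent.GMH.TRF
open Pool.Agent.GMH.UV Pool.Agent.GMH.MV Pool.Agent.GMH.MVI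
open Pool.Agent.GMH.CT (ix Rc)

noncomputable section

section rare

variable {Om : Type} [Fintype Om]

/-- the rare fields of `RelU`, thresholds `ix sq` -/
structure RarF (r : CT.Rd) (Lam e : ℝ) (M : US Om) (Q Q' : Kd Om) (A : Stps (Om := Om)) (N : ℕ) : Prop where
  af : ∀ v ∈ Q.Vk, ∑ q ∈ range N, M.P.Pr (fun w => afv M Q A v q w ∧ ix Lam r.sq < Dev M Q v q w) ≤ e
  rd : ∀ v ∈ Q.Vk, ∑ q ∈ range N, M.P.Pr (fun w => rdv M Q A v q w ∧ ix Lam r.uB ^ 2 < Mx M Q' v (q + 1) w) ≤ e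
  fv : ∀ n ≤ N, ∀ v ∈ Q.Vk, M.P.Pr (fun w => bet M Q v n w ∧ ix Lam r.sq < Mx M Q v n w) ≤ e
  sf : ∀ v ∈ Q.Vk, ∑ n ∈ range N, M.P.Pr (fun w => sf M A n w ∧ ix Lam r.sq < Dn M Q (some v) n w) ≤ e
  afz : ∀ o, ∑ q ∈ range N, M.P.Pr (fun w => af0 M Q A q w ∧ ix Lam r.sq < De0 M Q o q w) ≤ e
  rdz : ∑ q ∈ range N, M.P.Pr (fun w => rd0 M Q A q w ∧ ix Lam r.u0 ^ 2 < Dn M Q' Option.none (q + 1) w) ≤ e
  fz : ∀ n ≤ N, ∀ o, M.P.Pr (fun w => Z0 M Q n w ∧ ix Lam r.sq < Dn M Q o n w) ≤ e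

/-- the fields `ng`, `ngz` of `RelU` -/
structure NgF (r : CT.Rd) (Lam c e : ℝ) (M : US Om) (Q : Kd Om) (A : Stps (Om := Om)) (N : ℕ) : Prop where
  ng : ∀ n ≤ N, NA M Q n ≤ pw Lam r.Z + 4 → ∀ v ∈ Q.Vk, ∑ q ∈ range n, M.P.Pr (ngk M Q A v q) ≤ c * ix Lam r.sq * NA M Q n + e
  ngz : ∀ n ≤ N, NA M Q n ≤ pw Lam r.Z + 4 → ∀ o, ∑ q ∈ range n, M.P.Pr (ng0 M Q A o q) ≤ c * ix Lam r.sq * NA M Q n + e

/-- `RelU` from its parts -/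
theorem relU_of {r : CT.Rd} {Lam : ℝ} {ka : ℕ} {c e : ℝ} {M : US Om} {Q Q' : Kd Om} {A : Stps (Om := Om)} {N : ℕ}
    (sn : Seen M) (ss : StS M A) (sc : StpC M A) (vk : Q.Vk.card ≤ 3) (uB : Q.uB = ix Lam r.uB) (u0 : Q.u0 = ix Lam r.u0)
    (hR : RarF r Lam e M Q Q' A N) (hn : NgF r Lam c e M Q A N)
    (ex : ∀ v ∈ Q.Vk, ∑ q ∈ range N, M.P.Pr (exv M Q Q' A v q) ≤ pw Lam r.km)
    (exz : ∀ o, ∑ q ∈ range N, M.P.Pr (ex0 M Q Q' A o q) ≤ pw Lam r.kz) :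
    RelU r Lam ka c e (ix Lam r.sq) (ix Lam r.sq) M Q Q' A N :=
  ⟨sn, ss, sc, vk, uB, u0, hn.ng, hR.af, hR.rd, hR.fv, ex, hR.sf, hn.ngz, hR.afz, hR.rdz, hR.fz, exz⟩

end rare

section run

variable (C : Ctx) (ka : ℕ)

/-- the removals of the run are seen -/
theorem stS_run {A : Stps (Om := C.O)} (hrp : A.rp = rpO C.tb C.v) (hru : A.ru = ruO C.tb C.v) : StS (C.U ka) A where
  ru := fun q x w e => by
    rw [hru]
    unfold ruO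
    refine and_congr_right fun _ => ?_
    have e1 : NPo C.tb C.v (q + 1) x = NPo C.tb C.v (q + 1) w :=
      MVIp.NPq_sgt C.tb C.codes le_rfl (nc_le (q + 1) ∅) ∅ 0 x w e
    have e0 : NPo C.tb C.v q x = NPo C.tb C.v q w := NPo_fac C.tb q x w e1
    rw [C.tb.Ps.Fac_m (NPo C.tb C.v (q + 1)) x w e1, C.tb.Ps.Fac_m (NPo C.tb C.v q) x w e0]
  rp := fun j q x w e => by
    rw [hrp]
    unfold rpO
    refine and_congr_right fun hq => ?_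
    have e1 : NPo C.tb C.v (q + 1) x = NPo C.tb C.v (q + 1) w :=
      MVIp.NPq_sgt C.tb C.codes le_rfl (nc_le (q + 1) ∅) {j} 0 x w e
    have g1 : XLo C.tb C.v j (q + 1) x = XLo C.tb C.v j (q + 1) w :=
      MVIp.XLq_sgt C.tb C.codes (nc_le (q + 1) {j}) (Finset.mem_singleton_self j) 0 x w e
    have e0 : NPo C.tb C.v q x = NPo C.tb C.v q w := NPo_fac C.tb q x w e1
    have g0 : XLo C.tb C.v j q x = XLo C.tb C.v j q w := XLo_fac C.tb j q x w g1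
    have e5 : NPo C.tb C.v (5 * (q / 5) + 1) x = NPo C.tb C.v (5 * (q / 5) + 1) w := NPo_le C.tb C.v (by omega) x w e0
    have e6 : NPo C.tb C.v (5 * (q / 5) + 2) x = NPo C.tb C.v (5 * (q / 5) + 2) w := NPo_le C.tb C.v (by omega) x w e0
    have m1 := C.tb.Ps.Fac_m (fun u => (XLo C.tb C.v j (q + 1) u, NPo C.tb C.v (q + 1) u)) x w (Prod.ext g1 e1)
    have m0 := C.tb.Ps.Fac_m (fun u => (XLo C.tb C.v j q u, NPo C.tb C.v q u)) x w (Prod.ext g0 e0)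
    rw [m1, m0, C.tb.Ps.Fac_m (NPo C.tb C.v (5 * (q / 5) + 1)) x w e5, C.tb.Ps.Fac_m (NPo C.tb C.v (5 * (q / 5) + 2)) x w e6]
  ci := fun j j' hjj => Dy.ci_vv C.tb TP.nn hjj

/-- the removals of the run end the clocks -/
theorem enAB_run {A : Stps (Om := C.O)} (hrp : A.rp = rpO C.tb C.v) (hru : A.ru = ruO C.tb C.v) : AB.EnAB (C.U ka) A where
  endp := fun w _ v q h => tau_lt _ (Or.inr (lt_rp C.tb (C.d1_pos ka) (C.d1_le ka) (C.kb_pos ka) C.d0_pos C.d0_le C.d0_pos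
    C.p1_pos (C.z_pos ka) (by rw [hrp] at h; exact h)))
  endu := fun w _ v q h => tau_lt _ (Or.inl (lt_ru C.tb (C.d1_pos ka) (C.d1_le ka) (C.kb_pos ka) C.d0_pos C.d0_le C.d0_pos
    C.p1_pos (C.z_pos ka) (by rw [hru] at h; exact h)))
  end0 := fun w _ q h => nu_lt _ (lt_ru C.tb (C.d1_pos ka) (C.d1_le ka) (C.kb_pos ka) C.d0_pos C.d0_le C.d0_pos
    C.p1_pos (C.z_pos ka) (by rw [hru] at h; exact h))
  disj := fun w _ v q h h' => by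
    rw [hrp] at h
    rw [hru] at h'
    exact rp_ru C.tb h h'

variable {C ka} (hT : ExK.Tny C ka Rc) {c : KC} (hc : CT.KcB Rc C.Lam c) (yp : ℝ) (K : Finset (Fin 3)) (k : Fin 10)

include hT hc

/-- **THEORY A** -/
theorem relU_A {cc e : ℝ}
    (hR : RarF (CT.rd Rc k.1) C.Lam e (AB.MA (C.U ka) yp (ZonC.seen C ka)) (AB.QA (C.U ka) (C.Q3 c k)) (C.S3 k)
      (C.A0 ka (AB.MA (C.U ka) yp (ZonC.seen C ka)) (AB.QA (C.U ka) (C.Q3 c k))) (5 * C.T))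
    (hn : NgF (CT.rd Rc k.1) C.Lam cc e (AB.MA (C.U ka) yp (ZonC.seen C ka)) (AB.QA (C.U ka) (C.Q3 c k))
      (C.A0 ka (AB.MA (C.U ka) yp (ZonC.seen C ka)) (AB.QA (C.U ka) (C.Q3 c k))) (5 * C.T)) :
    RelU (CT.rd Rc k.1) C.Lam (CT.rd Rc k.1).sq cc e (ix C.Lam (CT.rd Rc k.1).sq) (ix C.Lam (CT.rd Rc k.1).sq)
      (AB.MA (C.U ka) yp (ZonC.seen C ka)) (AB.QA (C.U ka) (C.Q3 c k)) (C.S3 k)
      (C.A0 ka (AB.MA (C.U ka) yp (ZonC.seen C ka)) (AB.QA (C.U ka) (C.Q3 c k))) (5 * C.T) :=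
  relU_of (AB.seenA _ _ _) (AB.stsA _ (stS_run C ka rfl rfl)) (AB.stcA _ (enAB_run C ka rfl rfl))
    ((Finset.card_le_univ _).trans (by rw [Fintype.card_fin])) rfl rfl hR hn (fun v _ => exA_v hT hc _ k (A0_X v))
    (fun o => exA_0 hT hc _ k (A0_0 o))

/-- **THEORY B** -/
theorem relU_B {cc e : ℝ}
    (hR : RarF (CT.rd Rc k.1) C.Lam e (AB.MB (C.U ka) (C.Q3 c k) yp (ZonC.seen C ka)) (AB.QB (C.U ka) (C.Q3 c k) K) (C.S3 k)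
      (C.A0 ka (AB.MB (C.U ka) (C.Q3 c k) yp (ZonC.seen C ka)) (AB.QB (C.U ka) (C.Q3 c k) K)) (5 * C.T))
    (hn : NgF (CT.rd Rc k.1) C.Lam cc e (AB.MB (C.U ka) (C.Q3 c k) yp (ZonC.seen C ka)) (AB.QB (C.U ka) (C.Q3 c k) K)
      (C.A0 ka (AB.MB (C.U ka) (C.Q3 c k) yp (ZonC.seen C ka)) (AB.QB (C.U ka) (C.Q3 c k) K)) (5 * C.T)) :
    RelU (CT.rd Rc k.1) C.Lam (CT.rd Rc k.1).sq cc e (ix C.Lam (CT.rd Rc k.1).sq) (ix C.Lam (CT.rd Rc k.1).sq)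
      (AB.MB (C.U ka) (C.Q3 c k) yp (ZonC.seen C ka)) (AB.QB (C.U ka) (C.Q3 c k) K) (C.S3 k)
      (C.A0 ka (AB.MB (C.U ka) (C.Q3 c k) yp (ZonC.seen C ka)) (AB.QB (C.U ka) (C.Q3 c k) K)) (5 * C.T) :=
  relU_of (AB.seenB _ _ _ _) (AB.stsB _ (stS_run C ka rfl rfl)) (AB.stcB _ (enAB_run C ka rfl rfl))
    ((Finset.card_le_univ _).trans (by rw [Fintype.card_fin])) rfl rfl hR hn (fun v _ => exB_v hT hc _ k (A0_X v))
    (fun o => exB_0 hT hc _ k (A0_0 o))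

end run

/-- the tests of the kinds are cut -/
theorem psiA_lo (C : Ctx) (ka : ℕ) (c : KC) (k : Fin 10) (o : Option (Fin 3)) (τ : ℕ) (w : C.O) :
    -C.Kc ≤ (AB.QA (C.U ka) (C.Q3 c k)).psi o τ w := by
  cases o <;> exact le_max_right _ _

theorem psiB_lo (C : Ctx) (ka : ℕ) (c : KC) (k : Fin 10) (K : Finset (Fin 3)) (o : Option (Fin 3)) (τ : ℕ) (w : C.O) :
    -C.Kc ≤ (AB.QB (C.U ka) (C.Q3 c k) K).psi o τ w := by
  cases o <;> exact le_max_right _ _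

/-- **ONE KIND IN THEORY A** -/
theorem relK_A (A ka : ℕ) : AllC A (fun C => ∀ c, CT.KcB Rc C.Lam c → ∀ (yp : ℝ) (K : Finset (Fin 3)) (k : Fin 10) (cc e : ℝ),
    1 ≤ cc → cc ≤ 4 ^ 8 → e ≤ ix C.Lam (44 + Rc.kL) → ∀ S : Stps (Om := C.O),
    RarF (CT.rd Rc k.1) C.Lam e (AB.MA (C.U ka) yp (ZonC.seen C ka)) (AB.QA (C.U ka) (C.Q3 c k)) (C.S3 k)
      (C.A0 ka (AB.MA (C.U ka) yp (ZonC.seen C ka)) (AB.QA (C.U ka) (C.Q3 c k))) (5 * C.T) →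
    NgF (CT.rd Rc k.1) C.Lam cc e (AB.MA (C.U ka) yp (ZonC.seen C ka)) (AB.QA (C.U ka) (C.Q3 c k))
      (C.A0 ka (AB.MA (C.U ka) yp (ZonC.seen C ka)) (AB.QA (C.U ka) (C.Q3 c k))) (5 * C.T) →
    RelG (CT.rd Rc k.1) C.Lam cc e (AB.MA (C.U ka) yp (ZonC.seen C ka)) (AB.QA (C.U ka) (C.Q3 c k))
      (C.A0 ka (AB.MA (C.U ka) yp (ZonC.seen C ka)) (AB.QA (C.U ka) (C.Q3 c k))) S (5 * C.T) →
    AB.OkAB (C.U ka) (C.Q3 c k) yp K S (ZonC.seen C ka) (dlt C ka) →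
    RelK (CT.rd Rc k.1) C.Lam (CT.rd Rc k.1).sq cc e (ix C.Lam (CT.rd Rc k.1).sq) (ix C.Lam (CT.rd Rc k.1).sq)
      (AB.MA (C.U ka) yp (ZonC.seen C ka)) (AB.QA (C.U ka) (C.Q3 c k)) (C.S3 k)
      (C.A0 ka (AB.MA (C.U ka) yp (ZonC.seen C ka)) (AB.QA (C.U ka) (C.Q3 c k))) S (5 * C.T) (dlt C ka) C.Kc) := by
  refine ((relK_ctx A ka).and (ExK.tny_all A ka Rc)).mono fun C h c hc yp K k cc e hc1 hc8 he S hR hn hG ok => ?_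
  exact h.1 k _ _ _ _ _ cc e hc1 hc8 he (relU_A h.2 hc yp k hR hn) hG (AB.okA _ ok) (AB.prvA _) (psiA_lo C ka c k)

/-- **ONE KIND IN THEORY B** -/
theorem relK_B (A ka : ℕ) : AllC A (fun C => ∀ c, CT.KcB Rc C.Lam c → ∀ (yp : ℝ) (K : Finset (Fin 3)) (k : Fin 10) (cc e : ℝ),
    1 ≤ cc → cc ≤ 4 ^ 8 → e ≤ ix C.Lam (44 + Rc.kL) → ∀ S : Stps (Om := C.O),
    RarF (CT.rd Rc k.1) C.Lam e (AB.MB (C.U ka) (C.Q3 c k) yp (ZonC.seen C ka)) (AB.QB (C.U ka) (C.Q3 c k) K) (C.S3 k)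
      (C.A0 ka (AB.MB (C.U ka) (C.Q3 c k) yp (ZonC.seen C ka)) (AB.QB (C.U ka) (C.Q3 c k) K)) (5 * C.T) →
    NgF (CT.rd Rc k.1) C.Lam cc e (AB.MB (C.U ka) (C.Q3 c k) yp (ZonC.seen C ka)) (AB.QB (C.U ka) (C.Q3 c k) K)
      (C.A0 ka (AB.MB (C.U ka) (C.Q3 c k) yp (ZonC.seen C ka)) (AB.QB (C.U ka) (C.Q3 c k) K)) (5 * C.T) →
    RelG (CT.rd Rc k.1) C.Lam cc e (AB.MB (C.U ka) (C.Q3 c k) yp (ZonC.seen C ka)) (AB.QB (C.U ka) (C.Q3 c k) K)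
      (C.A0 ka (AB.MB (C.U ka) (C.Q3 c k) yp (ZonC.seen C ka)) (AB.QB (C.U ka) (C.Q3 c k) K))
      (AB.StB (C.U ka) (C.Q3 c k) yp S (ZonC.seen C ka)) (5 * C.T) →
    AB.OkAB (C.U ka) (C.Q3 c k) yp K S (ZonC.seen C ka) (dlt C ka) →
    RelK (CT.rd Rc k.1) C.Lam (CT.rd Rc k.1).sq cc e (ix C.Lam (CT.rd Rc k.1).sq) (ix C.Lam (CT.rd Rc k.1).sq)
      (AB.MB (C.U ka) (C.Q3 c k) yp (ZonC.seen C ka)) (AB.QB (C.U ka) (C.Q3 c k) K) (C.S3 k)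
      (C.A0 ka (AB.MB (C.U ka) (C.Q3 c k) yp (ZonC.seen C ka)) (AB.QB (C.U ka) (C.Q3 c k) K))
      (AB.StB (C.U ka) (C.Q3 c k) yp S (ZonC.seen C ka)) (5 * C.T) (dlt C ka) C.Kc) := by
  refine ((relK_ctx A ka).and (ExK.tny_all A ka Rc)).mono fun C h c hc yp K k cc e hc1 hc8 he S hR hn hG ok => ?_
  exact h.1 k _ _ _ _ _ cc e hc1 hc8 he (relU_B h.2 hc yp K k hR hn) hG (AB.okB _ ok) (AB.prvB _)
    (psiB_lo C ka c k K)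

end

end Pool.Agent.GMH.CX
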