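import Pool.Agent.GMH.RZ11
import Pool.Agent.GMH.ActO
import Pool.Agent.GMH.ConTM2
import Pool.Agent.GMH.CtxN

/-!
# GMH/RestA (helper45): REST (H3.MOV, M.8) with events which see the tables, final form

* `av tb f` : mean of `f` over the tables, the positions fixed; `E_av`;
* `Rsq M b c d q` : nothing listed over the thin triple, moved at `b` at the public start, `c` and `d` without status;
* `rest_ev` : the sum over the public light values of `Rsq`, alive, `BC q`, `BD q`; `BC q` sees the hidden point, the points of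
  `b`, `d`, the new public information and all tables, `BD q` the same with `b`, `c` (`yt_sees` : the sight `Yt` of a face is
  of this form; `ac_sees` : the activity);
* `rest_C` : over `Ctx`, at most `(pw Lam K)⁻¹`.
-/

set_option autoImplicit false
set_option linter.unusedSectionVars false

namespace Pool.Agent.GMH.RSA

open Finset Pool.Agent.PWZ Pool.Agent.M3 Pool.Agent.GM Pool.Agent.GM.Harm Pool.Agent.GMH Pool.Agent.GMH.NZ
open Pool.Agent.GMH.V3 Pool.Agent.GMH.TP Pool.Agent.GMH.TD Pool.Agent.GMH.Dy Pool.Agent.GMH.MV Pool.Agent.GMH.MVI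
open Pool.Agent.GMH.UV Pool.Agent.GMH.KF Pool.Agent.GMH.TRF Pool.Agent.GMH.RZ

noncomputable section

variable {X β γ φ : Type} [Fintype X] [Fintype β] [Fintype φ] [Nonempty X] [Nonempty β]
variable {D : HD (Fin 3) X β γ φ} {al : ℝ} {h : D.Thick al} {prr : ℕ → Fin 3 → φ → φ} {T : ℕ} {W : Type} [Fintype W]
variable (tb : Tab D prr T W) {v : ℕ → Finset (Fin 3) → X → (Fin 3 → β) → Pt (Fin 3) X β φ}

/-! ### the mean over the tables -/

/-- mean over the tables, the positions fixed -/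
def av (f : Om W X β → ℝ) (w : Om W X β) : ℝ := ∑ ω : Fin 3 → W, (∏ i, (tb.Q i).p (ω i)) * f (w.1, ω, w.2.2)

theorem tab_nn (ω : Fin 3 → W) : 0 ≤ ∏ i, (tb.Q i).p (ω i) := Finset.prod_nonneg fun i _ => (tb.Q i).nn (ω i)

theorem tab_tot : ∑ ω : Fin 3 → W, ∏ i, (tb.Q i).p (ω i) = 1 := by
  classical
  have h2 := Finset.prod_univ_sum (fun _ : Fin 3 => (univ : Finset W)) (fun i ω => (tb.Q i).p ω)
  rw [Fintype.piFinset_univ] at h2
  rw [← h2]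
  exact Finset.prod_eq_one fun i _ => (tb.Q i).tot

theorem av_nonneg {f : Om W X β → ℝ} (hf : ∀ w, 0 ≤ f w) (w : Om W X β) : 0 ≤ av tb f w :=
  Finset.sum_nonneg fun ω _ => mul_nonneg (tab_nn tb ω) (hf _)

theorem av_mono {f g : Om W X β → ℝ} (hf : ∀ w, f w ≤ g w) (w : Om W X β) : av tb f w ≤ av tb g w :=
  Finset.sum_le_sum fun ω _ => mul_le_mul_of_nonneg_left (hf _) (tab_nn tb ω)

theorem av_le_one {f : Om W X β → ℝ} (hf : ∀ w, f w ≤ 1) (w : Om W X β) : av tb f w ≤ 1 := by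
  have h1 := av_mono tb (g := fun _ => (1 : ℝ)) hf w
  refine h1.trans ?_
  unfold av
  simp only [mul_one]
  rw [tab_tot]

/-- the mean sees what the function sees besides the tables -/
theorem av_fac {κ : Type*} {G : Om W X β → κ} (hG : Pos G) {f : Om W X β → ℝ} (hf : Fac (fun w => (G w, w.2.1)) f) :
    Fac G (av tb f) := by
  intro a b e
  unfold av
  refine Finset.sum_congr rfl fun ω _ => ?_
  rw [hf (a.1, ω, a.2.2) (b.1, ω, b.2.2) (Prod.ext ?_ rfl)]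
  show G (a.1, ω, a.2.2) = G (b.1, ω, b.2.2)
  rw [hG (a.1, ω, a.2.2) a rfl, hG (b.1, ω, b.2.2) b rfl]
  exact e

/-- **the mean over the tables** -/
theorem E_av {g f : Om W X β → ℝ} (hg : Pos g) : tb.Ps.E (fun w => g w * av tb f w) = tb.Ps.E (fun w => g w * f w) := by
  classical
  unfold FP.E
  rw [Fintype.sum_prod_type, Fintype.sum_prod_type]
  refine Finset.sum_congr rfl fun x _ => ?_
  rw [Fintype.sum_prod_type_right, Fintype.sum_prod_type_right]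
  refine Finset.sum_congr rfl fun y _ => ?_
  rcases isEmpty_or_nonempty (Fin 3 → W) with hW | ⟨⟨ω0⟩⟩
  · rw [Finset.univ_eq_empty, Finset.sum_empty, Finset.sum_empty]
  have hgω : ∀ ω : Fin 3 → W, g (x, ω, y) = g (x, ω0, y) := fun ω => hg _ _ rfl
  have e2 : ∀ ω : Fin 3 → W, tb.Ps.p (x, ω, y) * (g (x, ω, y) * av tb f (x, ω, y)) =
      (∏ i, (tb.Q i).p (ω i)) * ((g (x, ω0, y) * av tb f (x, ω0, y)) /
        (Fintype.card X * (Fintype.card β : ℝ) ^ 3)) := by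
    intro ω
    have h2 : av tb f (x, ω, y) = av tb f (x, ω0, y) := rfl
    show (∏ i, (tb.Q i).p (ω i)) / (Fintype.card X * (Fintype.card β : ℝ) ^ 3) * (g (x, ω, y) * av tb f (x, ω, y)) = _
    rw [hgω ω, h2]
    ring
  rw [Finset.sum_congr rfl fun ω _ => e2 ω, ← Finset.sum_mul, tab_tot, one_mul]
  have e3 : ∀ ω : Fin 3 → W, tb.Ps.p (x, ω, y) * (g (x, ω, y) * f (x, ω, y)) =
      (∏ i, (tb.Q i).p (ω i)) * f (x, ω, y) * (g (x, ω0, y) / (Fintype.card X * (Fintype.card β : ℝ) ^ 3)) := by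
    intro ω
    show (∏ i, (tb.Q i).p (ω i)) / (Fintype.card X * (Fintype.card β : ℝ) ^ 3) * (g (x, ω, y) * f (x, ω, y)) = _
    rw [hgω ω]
    ring
  rw [Finset.sum_congr rfl fun ω _ => e3 ω, ← Finset.sum_mul]
  unfold av
  ring

/-! ### functions of the positions -/

theorem lJq_pos (J : Finset (Fin 3)) (r : ℕ) {a b : Pt (Fin 3) X β φ} (h1 : a.1 = b.1) (h2 : a.2.1 = b.2.1) :
    lJq h v J r a = lJq h v J r b := by
  refine TD.lJq_eq (NPr_pos r a b (Prod.ext h1 h2)) ?_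
  unfold LJ
  funext j
  by_cases hj : j ∈ J
  · rw [if_pos hj, if_pos hj, XLr_eq h1 h2]
  · rw [if_neg hj, if_neg hj]

theorem alz_pos (X1 : ℝ) (r : ℕ) {a b : Pt (Fin 3) X β φ} (h1 : a.1 = b.1) (h2 : a.2.1 = b.2.1) :
    Alz h v X1 r a ↔ Alz h v X1 r b := by
  unfold Alz
  refine forall_congr' fun J => ?_
  rw [lJq_pos J r h1 h2]

/-- nothing listed over the thin triple, moved at `b` at the public start, `c` and `d` without status -/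
def Rsq {Ωm : Type} [Fintype Ωm] (M : MS Ωm) (b c d : Fin 3) (q : ℕ) (w : Ωm) : Prop :=
  (¬ 0 < M.P.ce (TH M q) (fun u => ind (Lst M (nu M q w) q u)) w) ∧ Mv M b (nu M q w) w ∧
    ¬ hys M c (nu M q w) w ∧ ¬ hys M d (nu M q w) w

theorem rsq_rst {Ωm : Type} [Fintype Ωm] {M : MS Ωm} {b c d : Fin 3} {q : ℕ} {w : Ωm} (hw : M.P.p w ≠ 0)
    (hr : Rsq M b c d q w) : Rst M b c d q w := by
  refine ⟨fun g => hr.1 ?_, hr.2⟩
  unfold FP.ce
  refine div_pos ?_ (M.P.m_pos (TH M q) hw)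
  have e1 : M.P.E (fun u => ind (TH M q u = TH M q w) * ind (Lst M (nu M q w) q u)) =
      M.P.Pr (fun u => TH M q u = TH M q w ∧ Lst M (nu M q w) q u) := by
    unfold FP.Pr
    exact M.P.E_congr fun u _ => by rw [ind_and]
  rw [e1]
  exact FP.Pr_pos_of hw ⟨rfl, g⟩

theorem pos_NPo (s : ℕ) : Pos (NPo (W := W) tb v s) := fun a b e => by
  have h1 : a.1 = b.1 := ps_1 e
  have h2 : a.2.2 = b.2.2 := ps_2 e
  exact RZ.NPq_pos s (a := tb.pt 0 a) (b := tb.pt 0 b) h1 h2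

theorem pos_XLo (c : Fin 3) (s : ℕ) : Pos (XLo (W := W) tb v c s) := fun a b e => by
  have h1 : a.1 = b.1 := ps_1 e
  have h2 : a.2.2 = b.2.2 := ps_2 e
  exact RZ.XLq_pos s c (a := tb.pt 0 a) (b := tb.pt 0 b) h1 h2

section run

variable {d1 kb d0 k0 p1s z : ℝ} (hd1 : 0 < d1) (hd11 : d1 ≤ 1) (hkb : 0 < kb) (hd0 : 0 < d0) (hd01 : d0 ≤ 1) (hk0 : 0 < k0)
  (hp1s : 0 < p1s) (hz : 0 < z)

theorem pos_nu (s : ℕ) : Pos (nu (MSi tb (v := v) d1 kb d0 k0 p1s z hd1 hd11 hkb hd0 hd01 hk0 hp1s hz) s) := fun a b e =>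
  nu_fac (MSi tb (v := v) d1 kb d0 k0 p1s z hd1 hd11 hkb hd0 hd01 hk0 hp1s hz) s a b (pos_NPo tb s a b e)

theorem pos_TH (s : ℕ) : Pos (TH (MSi tb (v := v) d1 kb d0 k0 p1s z hd1 hd11 hkb hd0 hd01 hk0 hp1s hz) s) := fun a b e =>
  Prod.ext (funext fun j => pos_XLo tb j s a b e) (pos_NPo tb s a b e)

theorem pos_CN' (c : Fin 3) (s : ℕ) : Pos (CN (MSi tb (v := v) d1 kb d0 k0 p1s z hd1 hd11 hkb hd0 hd01 hk0 hp1s hz) c s) :=
  fun a b e => Prod.ext (pos_XLo tb c s a b e) (pos_NPo tb s a b e)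

theorem pos_lt (s : ℕ) : Pos (lt5 (MSi tb (v := v) d1 kb d0 k0 p1s z hd1 hd11 hkb hd0 hd01 hk0 hp1s hz) (NPo tb v) s) :=
  fun a b e => lt5_fac (MSi tb (v := v) d1 kb d0 k0 p1s z hd1 hd11 hkb hd0 hd01 hk0 hp1s hz) s a b (pos_NPo tb (s + 1) a b e)

/-- **`Rsq` sees the positions only** -/
theorem pos_Rsq (b c d : Fin 3) (q : ℕ) :
    Pos (Rsq (MSi tb (v := v) d1 kb d0 k0 p1s z hd1 hd11 hkb hd0 hd01 hk0 hp1s hz) b c d q) := by
  intro x y e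
  set M := MSi tb (v := v) d1 kb d0 k0 p1s z hd1 hd11 hkb hd0 hd01 hk0 hp1s hz with hM
  have e1 : nu M q x = nu M q y := pos_nu tb hd1 hd11 hkb hd0 hd01 hk0 hp1s hz q x y e
  unfold Rsq
  rw [e1]
  have e2 : M.P.ce (TH M q) (fun u => ind (Lst M (nu M q y) q u)) x = M.P.ce (TH M q) (fun u => ind (Lst M (nu M q y) q u)) y :=
    M.P.ce_fac (TH M q) _ x y (pos_TH tb hd1 hd11 hkb hd0 hd01 hk0 hp1s hz q x y e)
  have e3 : Mv M b (nu M q y) x = Mv M b (nu M q y) y :=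
    Mv_fac M b (nu M q y) x y (pos_TH tb hd1 hd11 hkb hd0 hd01 hk0 hp1s hz _ x y e)
  have e4 : ∀ c : Fin 3, hys M c (nu M q y) x = hys M c (nu M q y) y := fun c =>
    hys_fac M c (nu M q y) x y (pos_CN' tb hd1 hd11 hkb hd0 hd01 hk0 hp1s hz c _ x y e)
  rw [e2, e3, e4 c, e4 d]

end run

/-- the event `B` sees the hidden point, the points of `J`, the new public information of the step `s`, and the tables -/
def Sees (tb : Tab D prr T W) (v : ℕ → Finset (Fin 3) → X → (Fin 3 → β) → Pt (Fin 3) X β φ) (J : Finset (Fin 3)) (s : ℕ)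
    (B : Om W X β → Prop) : Prop :=
  Fac (fun w : Om W X β => ((w.1, PJ J (tb.pt 0 w), NPo tb v (s + 1) w), w.2.1)) B

theorem pos_see (J : Finset (Fin 3)) (s : ℕ) :
    Pos (fun w : Om W X β => (w.1, PJ J (tb.pt 0 w), NPo tb v (s + 1) w)) := by
  intro a b e
  have h1 : a.1 = b.1 := ps_1 e
  have h2 : a.2.2 = b.2.2 := ps_2 e
  have h3 : PJ J (tb.pt 0 a) = PJ J (tb.pt 0 b) := by
    unfold PJ
    funext j
    show (if j ∈ J then some (a.2.2 j) else Option.none) = if j ∈ J then some (b.2.2 j) else Option.none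
    rw [h2]
  show (a.1, PJ J (tb.pt 0 a), NPo tb v (s + 1) a) = (b.1, PJ J (tb.pt 0 b), NPo tb v (s + 1) b)
  rw [h1, h3, pos_NPo tb (s + 1) a b e]

/-- **what a face sees** -/
theorem yt_sees {b c d : Fin 3} (hall : ∀ j : Fin 3, j = b ∨ j = c ∨ j = d) {q : ℕ} (hq : q % 5 ≠ 0)
    {B : Om W X β → Prop} (hB : Fac (Yt X D W TP.nn c q) B) : Sees tb v {b, d} q B := by
  intro x y e
  refine hB x y (Yt_eq.2 ⟨sgt_eq.2 ⟨?_, fun j hj => ?_, fun j => ?_⟩, ?_⟩)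
  · exact congrArg (fun t => t.1.1) e
  · have h1 : PJ {b, d} (tb.pt 0 x) = PJ {b, d} (tb.pt 0 y) := congrArg (fun t => t.1.2.1) e
    have hj' : j ∈ ({b, d} : Finset (Fin 3)) := by
      rw [mem_compl, mem_singleton] at hj
      rcases hall j with h2 | h2 | h2
      · rw [h2]
        exact mem_insert_self _ _
      · exact absurd h2 hj
      · rw [h2]
        exact mem_insert_of_mem (mem_singleton_self _)
    exact TD.PJ_iff.1 h1 j hj'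
  · have h1 : NPo tb v (q + 1) x = NPo tb v (q + 1) y := congrArg (fun t => t.1.2.2) e
    have h2 : ((Um v (nc (q + 1) ∅) ∅ x.1 x.2.2, (D.qa (TP.nn (q + 1)) x.1, fun j => D.qb (TP.nn (q + 1)) (x.2.2 j))) :
        List (Pt (Fin 3) X β φ) × (γ × (Fin 3 → γ))) =
      (Um v (nc (q + 1) ∅) ∅ y.1 y.2.2, (D.qa (TP.nn (q + 1)) y.1, fun j => D.qb (TP.nn (q + 1)) (y.2.2 j))) := h1
    rw [MVIp.nn_code hq] at h2
    exact congrFun (congrArg (fun t => t.2.2) h2) j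
  · exact congrFun (congrArg (fun t => t.2) e) c

section run

variable {dg : ℕ → X → ℝ} {Lam : ℝ}

/-- **REST WITH EVENTS** : the sum over the public light values -/
theorem rest_ev {n N1 : ℝ} (hn : 1 ≤ n) (hN1 : 1 ≤ N1) (R : Run h (pr3 (Fin 3) n N1) (SS1 (Fin 3)) (AdmDep D) v)
    (H : D.Hyp dg prr al T Lam) {d1 kb d0 k0 p1s z : ℝ} (hd1 : 0 < d1) (hd11 : d1 ≤ 1) (hkb : 0 < kb) (hd0 : 0 < d0)
    (hd01 : d0 ≤ 1) (hk0 : 0 < k0) (hp1s : 0 < p1s) (hz : 0 < z)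
    {b c d : Fin 3} (hall : ∀ j : Fin 3, j = b ∨ j = c ∨ j = d)
    (hbc : b ≠ c) (hbd : b ≠ d) (hcd : c ≠ d) {p1 X1 X2 x dl : ℝ} {K : ℕ} (hpar : ParZ N1 x p1 X1 X2 d0 k0 dl K)
    (hdl1 : 64 * dl ≤ 1) (hsm : 12 * d0 ≤ Real.exp (-(4 * Lam)))
    {k4 k2 p2 e kl : ℝ} (hk4 : 0 < k4) (hk2 : 12 * d0 ≤ k2) (hp2 : 12 * d0 ≤ p2)
    (he : 0 < e) (hkl : k0 < kl) (hc1 : 2 * e * k4 ≤ p1) (hc2 : 2 * e * p2 ≤ p1) (hc3 : 2 * e * (k2 / k4) ≤ p1)
    {BC BD : ℕ → Om W X β → Prop} (hBC : ∀ s, s % 5 ≠ 0 → Sees tb v {b, d} s (BC s))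
    (hBD : ∀ s, s % 5 ≠ 0 → Sees tb v {b, c} s (BD s)) :
    ∑ s ∈ range (5 * T), tb.Ps.Pr (fun w =>
        lt5 (MSi tb (v := v) d1 kb d0 k0 p1s z hd1 hd11 hkb hd0 hd01 hk0 hp1s hz) (NPo tb v) s w ∧
        Rsq (MSi tb (v := v) d1 kb d0 k0 p1s z hd1 hd11 hkb hd0 hd01 hk0 hp1s hz) b c d s w ∧
        Alz h v X1 (RZ.rho (nu (MSi tb (v := v) d1 kb d0 k0 p1s z hd1 hd11 hkb hd0 hd01 hk0 hp1s hz) s w)) (tb.pt 0 w) ∧
        BC s w ∧ BD s w) ≤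
      x / 2 * (∑ s ∈ range (5 * T), tb.Ps.Pr (fun w =>
          lt5 (MSi tb (v := v) d1 kb d0 k0 p1s z hd1 hd11 hkb hd0 hd01 hk0 hp1s hz) (NPo tb v) s w ∧ BC s w) +
        ∑ s ∈ range (5 * T), tb.Ps.Pr (fun w =>
          lt5 (MSi tb (v := v) d1 kb d0 k0 p1s z hd1 hd11 hkb hd0 hd01 hk0 hp1s hz) (NPo tb v) s w ∧ BD s w)) +
      2 * ErB (MSi tb (v := v) d1 kb d0 k0 p1s z hd1 hd11 hkb hd0 hd01 hk0 hp1s hz) T n N1 Lam X1 X2 x dl K +
      ThC (6 * n * N1 * Lam) Lam (12 * n * Lam) k2 p2 e kl kb p1s k0 := by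
  classical
  set M := MSi tb (v := v) d1 kb d0 k0 p1s z hd1 hd11 hkb hd0 hd01 hk0 hp1s hz with hM
  -- events of the code steps
  have see : ∀ (J : Finset (Fin 3)) (B : ℕ → Om W X β → Prop), (∀ s, s % 5 ≠ 0 → Sees tb v J s (B s)) → ∀ s,
      Fac (fun w : Om W X β => ((w.1, PJ J (tb.pt 0 w), NPo tb v (s + 1) w), w.2.1))
        (fun w => ind (s % 5 ≠ 0 ∧ B s w)) := by
    intro J B hB s x y e
    show ind (s % 5 ≠ 0 ∧ B s x) = ind (s % 5 ≠ 0 ∧ B s y)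
    by_cases hs : s % 5 ≠ 0
    · have e1 : B s x = B s y := hB s hs x y e
      rw [e1]
    · rw [ind_not fun hh : s % 5 ≠ 0 ∧ B s x => hs hh.1, ind_not fun hh : s % 5 ≠ 0 ∧ B s y => hs hh.1]
  have h1 := rest_MSi (tb := tb) hn hN1 R H hd1 hd11 hkb hd0 hd01 hk0 hp1s hz hall hbc hbd hcd hpar hdl1 hsm hk4 hk2 hp2 he
    hkl hc1 hc2 hc3
    (gC := fun s => av tb fun w => ind (s % 5 ≠ 0 ∧ BC s w)) (gD := fun s => av tb fun w => ind (s % 5 ≠ 0 ∧ BD s w))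
    (Wt := fun s => av tb fun w => ind (s % 5 ≠ 0 ∧ BC s w) * ind (s % 5 ≠ 0 ∧ BD s w))
    (fun s => av_fac tb (pos_see tb {b, d} s) (see {b, d} BC hBC s))
    (fun s => av_fac tb (pos_see tb {b, c} s) (see {b, c} BD hBD s))
    (fun s w => av_le_one tb (fun w => ind_le_one _) w) (fun s w => av_le_one tb (fun w => ind_le_one _) w)
    (fun s w => av_nonneg tb (fun w => mul_nonneg (ind_nonneg _) (ind_nonneg _)) w)
    (fun s w => av_mono tb (fun w => mul_le_of_le_one_right (ind_nonneg _) (ind_le_one _)) w)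
    (fun s w => av_mono tb (fun w => mul_le_of_le_one_left (ind_nonneg _) (ind_le_one _)) w)
  rw [← hM] at h1
  -- the left side
  have left : ∀ s ∈ range (5 * T), tb.Ps.Pr (fun w => lt5 M (NPo tb v) s w ∧ Rsq M b c d s w ∧
      Alz h v X1 (RZ.rho (nu M s w)) (tb.pt 0 w) ∧ BC s w ∧ BD s w) ≤
      tb.Ps.E (fun w => ind (lt5 M (NPo tb v) s w) * (ind (Rst M b c d s w ∧
        Alz h v X1 (RZ.rho (nu M s w)) (tb.pt 0 w)) * av tb (fun w => ind (s % 5 ≠ 0 ∧ BC s w) * ind (s % 5 ≠ 0 ∧ BD s w)) w)) := by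
    intro s _
    have hp : Pos (fun w => ind (lt5 M (NPo tb v) s w ∧ Rsq M b c d s w ∧ Alz h v X1 (RZ.rho (nu M s w)) (tb.pt 0 w))) := by
      intro x y e
      have e1 : lt5 M (NPo tb v) s x = lt5 M (NPo tb v) s y := pos_lt tb hd1 hd11 hkb hd0 hd01 hk0 hp1s hz s x y e
      have e2 : Rsq M b c d s x = Rsq M b c d s y := pos_Rsq tb hd1 hd11 hkb hd0 hd01 hk0 hp1s hz b c d s x y e
      have e3 : nu M s x = nu M s y := pos_nu tb hd1 hd11 hkb hd0 hd01 hk0 hp1s hz s x y e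
      have e4 : Alz h v X1 (RZ.rho (nu M s y)) (tb.pt 0 x) = Alz h v X1 (RZ.rho (nu M s y)) (tb.pt 0 y) :=
        propext (alz_pos X1 _ (a := tb.pt 0 x) (b := tb.pt 0 y) (ps_1 e : x.1 = y.1) (ps_2 e : x.2.2 = y.2.2))
      show ind (lt5 M (NPo tb v) s x ∧ Rsq M b c d s x ∧ Alz h v X1 (RZ.rho (nu M s x)) (tb.pt 0 x)) =
        ind (lt5 M (NPo tb v) s y ∧ Rsq M b c d s y ∧ Alz h v X1 (RZ.rho (nu M s y)) (tb.pt 0 y))
      rw [e1, e2, e3, e4]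
    have e0 : tb.Ps.Pr (fun w => lt5 M (NPo tb v) s w ∧ Rsq M b c d s w ∧
        Alz h v X1 (RZ.rho (nu M s w)) (tb.pt 0 w) ∧ BC s w ∧ BD s w) =
        tb.Ps.E (fun w => ind (lt5 M (NPo tb v) s w ∧ Rsq M b c d s w ∧ Alz h v X1 (RZ.rho (nu M s w)) (tb.pt 0 w)) *
          (ind (s % 5 ≠ 0 ∧ BC s w) * ind (s % 5 ≠ 0 ∧ BD s w))) := by
      unfold FP.Pr
      refine tb.Ps.E_congr fun w _ => ?_
      rw [← ind_and, ← ind_and]
      congr 1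
      refine propext ⟨fun hh => ⟨⟨hh.1, hh.2.1, hh.2.2.1⟩, ⟨hh.1.1, hh.2.2.2.1⟩, hh.1.1, hh.2.2.2.2⟩, fun hh =>
        ⟨hh.1.1, hh.1.2.1, hh.1.2.2, hh.2.1.2, hh.2.2.2⟩⟩
    rw [e0, ← E_av tb hp]
    refine tb.Ps.E_mono fun w hw => ?_
    have n0 : 0 ≤ av tb (fun w => ind (s % 5 ≠ 0 ∧ BC s w) * ind (s % 5 ≠ 0 ∧ BD s w)) w :=
      av_nonneg tb (fun w => mul_nonneg (ind_nonneg _) (ind_nonneg _)) w
    rw [← mul_assoc, ← ind_and]
    refine mul_le_mul_of_nonneg_right (ind_mono fun hh => ⟨hh.1, rsq_rst (M := M) hw hh.2.1, hh.2.2⟩) n0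
  -- the right side
  have right : ∀ (B : ℕ → Om W X β → Prop), ∑ s ∈ range (5 * T), tb.Ps.E (fun w => ind (lt5 M (NPo tb v) s w) *
      av tb (fun w => ind (s % 5 ≠ 0 ∧ B s w)) w) ≤
      ∑ s ∈ range (5 * T), tb.Ps.Pr (fun w => lt5 M (NPo tb v) s w ∧ B s w) := by
    intro B
    refine Finset.sum_le_sum fun s _ => ?_
    have hp : Pos (fun w => ind (lt5 M (NPo tb v) s w)) := fun x y e => by
      have e1 : lt5 M (NPo tb v) s x = lt5 M (NPo tb v) s y := pos_lt tb hd1 hd11 hkb hd0 hd01 hk0 hp1s hz s x y e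
      show ind (lt5 M (NPo tb v) s x) = ind (lt5 M (NPo tb v) s y)
      rw [e1]
    rw [E_av tb hp]
    unfold FP.Pr
    refine tb.Ps.E_mono fun w _ => ?_
    rw [← ind_and]
    exact ind_mono fun hh => ⟨hh.1, hh.2.2⟩
  have hx : 0 ≤ x / 2 := by
    have := hpar.x0
    linarith
  refine (Finset.sum_le_sum left).trans (h1.trans ?_)
  have r1 := mul_le_mul_of_nonneg_left (add_le_add (right BC) (right BD)) hx
  linarith

end run

/-! ### over `Ctx` -/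

open Pool.Agent.GMH.CX Pool.Agent.GMH.CTM

/-- numbers, the sum `Sg` of two weights -/
theorem two_kG {Lam : ℝ} (hL : 2 ≤ Lam) {a b : ℝ} {kG : ℕ} (ha : a ≤ pw Lam kG) (hb : b ≤ pw Lam kG) :
    a + b ≤ pw Lam (kG + 1) := by
  have h1 : pw Lam (kG + 1) = pw Lam kG * (2 * Lam) := by unfold pw; ring
  have h2 := pw_one hL kG
  rw [h1]
  nlinarith

/-- **REST OVER `Ctx`** -/
theorem rest_C {A : ℕ} (hA : 80 ≤ A) (ka kG K : ℕ) : AllC A (fun C => ∀ b c d : Fin 3, (∀ j : Fin 3, j = b ∨ j = c ∨ j = d) →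
    b ≠ c → b ≠ d → c ≠ d → ∀ BC BD : ℕ → C.O → Prop, (∀ s, s % 5 ≠ 0 → Sees C.tb C.v {b, d} s (BC s)) →
    (∀ s, s % 5 ≠ 0 → Sees C.tb C.v {b, c} s (BD s)) →
    ∑ s ∈ range (5 * C.T), C.tb.Ps.Pr (fun w => lt5 (C.M ka) (NPo C.tb C.v) s w ∧ BC s w) ≤ pw C.Lam kG →
    ∑ s ∈ range (5 * C.T), C.tb.Ps.Pr (fun w => lt5 (C.M ka) (NPo C.tb C.v) s w ∧ BD s w) ≤ pw C.Lam kG →
    ∀ X1 : ℝ, 0 ≤ X1 → X1 ≤ pw C.Lam (cXF C.A C.c0 + 2) →
    ∑ s ∈ range (5 * C.T), C.tb.Ps.Pr (fun w => lt5 (C.M ka) (NPo C.tb C.v) s w ∧ Rsq (C.M ka) b c d s w ∧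
      Alz C.h C.v X1 (RZ.rho (nu (C.M ka) s w)) (C.tb.pt 0 w) ∧ BC s w ∧ BD s w) ≤ (pw C.Lam K)⁻¹) := by
  have n1 := AllC.of_Ev (A := A) (((restS_num hA ka).and (parz_num hA)).and ((restM_num hA ka (kG + 1) K).and
    (d0_small A ka)))
  obtain ⟨m, hm⟩ := (n0_all A ka).and n1
  refine ⟨m, fun C hCA hc b c d hall hbc hbd hcd BC BD hBC hBD sC sD X1 x0 x1 => ?_⟩
  obtain ⟨hN0, ⟨hs, hp⟩, hr, hd0⟩ := hm C hCA hc
  subst hCA
  obtain ⟨s1, s2, s3, s4, s5, s6, s7, s8⟩ := hs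
  obtain ⟨_, _, _, d1, _, _⟩ := hd0
  have nn0 : 0 ≤ N0 (C.M ka) (5 * C.T) := sum_nonneg fun _ _ => FP.Pr_nonneg _ _
  have q0 : (0 : ℝ) ≤ (pw C.Lam (c1F C.A C.c0))⁻¹ := inv_nonneg.2 (MVN.pw_pos C.hL _).le
  have kle : MVN.d0 C.Lam C.c0 ≤ Real.exp (-(MVN.pQ C.Lam C.c0 / 2)) := by
    unfold MVN.d0
    refine Real.exp_le_exp.2 ?_
    have := pQ_pos C.hL C.c0
    linarith
  have hpar := hp (pw C.Lam (c1F C.A C.c0))⁻¹ (MVN.d0 C.Lam C.c0) (MVN.d0 C.Lam C.c0) X1 q0 le_rfl (by linarith) kle x0 x1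
  have h1 := rest_ev (tb := C.tb) C.n1 C.N11 C.R C.H (C.d1_pos ka) (C.d1_le ka) (C.kb_pos ka) C.d0_pos C.d0_le C.d0_pos
    C.p1_pos (C.z_pos ka) hall hbc hbd hcd hpar s1 s2 (k4 := k4 C.Lam ka C.c0) (k2 := k2 C.Lam ka C.c0)
    (p2 := pi2 C.Lam C.A C.c0) (e := e0 C.Lam C.A C.c0) (kl := kl C.Lam C.c0) (Real.exp_pos _) s3 s4
    (MVN.pw_pos C.hL _) s5 s6 s7 s8 hBC hBD
  refine h1.trans ?_
  have sg0 : 0 ≤ ∑ s ∈ range (5 * C.T), C.tb.Ps.Pr (fun w => lt5 (C.M ka) (NPo C.tb C.v) s w ∧ BC s w) +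
      ∑ s ∈ range (5 * C.T), C.tb.Ps.Pr (fun w => lt5 (C.M ka) (NPo C.tb C.v) s w ∧ BD s w) :=
    add_nonneg (sum_nonneg fun _ _ => C.tb.Ps.Pr_nonneg _) (sum_nonneg fun _ _ => C.tb.Ps.Pr_nonneg _)
  exact hr _ _ X1 sg0 (two_kG C.hL sC sD) nn0 hN0 x0 x1

end

end Pool.Agent.GMH.RSA
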