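import Pool.Agent.GMH.TD10

/-!
# GMH/RestM (helper37): TWO SIDED COVERS WITH TWO THRESHOLDS (H3.MOV, M.8), one world

As `GMH/Cov2`, `GMH/TD10`: `V` covered by the rows of a sample of `U` with the threshold `u`, `U` covered by the columns of a
sample of `V` with the threshold `u'`.  A newly covered `V` costs `h u'`, a newly covered `U` costs `h u`, what is uncovered
costs `u / 2` per weight (the weight sees the node and `U`).
-/

set_option autoImplicit false
set_option linter.unusedSectionVars false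

namespace Pool.Agent.GMH.Gdy

open Finset Pool.Agent.PWZ Pool.Agent.M3

noncomputable section

variable {Om : Type*} [Fintype Om] {P : FP Om} {κ κ' : ℕ → Type*} {cU : ∀ t, Om → κ t} {cV : ∀ t, Om → κ' t}
  {α ω : Type*} {U : Om → α} {V : Om → ω} {R : α → ω → Prop} {u u' : ℝ}

/-- one side: `V` newly covered at the time `s + 1`, `U` not covered before -/
theorem new_le2 (hI : P.Indep U V) (hU : ∀ s, Fac U (cU s)) (hV : ∀ s, Fac V (cV s))
    {HV HU : ℕ → Om → Prop} {M M' : ℕ} (hH : ∀ r v w, V v = V w → (HV r v ↔ HV r w))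
    (hH' : ∀ r v w, U v = U w → (HU r v ↔ HU r w)) (hu' : 0 < u') (fU : Filt cU) {h : ℝ} (h0 : 0 ≤ h) {s T : ℕ}
    (hs : s < T) (hm : ∀ w, P.p w ≠ 0 → P.m (cU s) w ≤ h * P.m (cU (s + 1)) w) {e : Om → ℝ}
    (he : Fac (pair cU cV (s + 1)) e) (he0 : ∀ w, 0 ≤ e w) :
    P.E (fun w => e w * ind (cov P cV u HV M (s + 1 + 1) w ∧ ¬ cov P cV u HV M (s + 1) w) *
        ind (R (U w) (V w) ∧ ¬ cov P cU u' HU M' (s + 1) w)) ≤
      h * u' / 2 * P.E (fun w => e w * ind (cov P cV u HV M (s + 1 + 1) w ∧ ¬ cov P cV u HV M (s + 1) w)) +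
        P.E (fun w => e w * ind (cov P cV u HV M (s + 1 + 1) w ∧ ¬ cov P cV u HV M (s + 1) w) *
          ind (badV P cU V U (fun v a => R a v) u' HU M' T w)) := by
  set n : Om → ℝ := fun w => ind (cov P cV u HV M (s + 1 + 1) w ∧ ¬ cov P cV u HV M (s + 1) w) with hn
  have hnf : Fac V n := Fac.ind fun v w hvw => by
    rw [cov_fac hV hH (s + 1 + 1) v w hvw, cov_fac hV hH (s + 1) v w hvw]
  have hf : Fac (fun w => (pair cV cU (s + 1) w, V w)) (fun w => e w * n w) := by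
    refine Fac.mul (fun v w hvw => he v w ?_) (fun v w hvw => hnf v w ?_)
    · have h3 : pair cV cU (s + 1) v = pair cV cU (s + 1) w ∧ V v = V w := Prod.mk.injEq _ _ _ _ ▸ hvw
      exact pair_eq.2 ⟨(pair_eq.1 h3.1).2, (pair_eq.1 h3.1).1⟩
    · have h3 : pair cV cU (s + 1) v = pair cV cU (s + 1) w ∧ V v = V w := Prod.mk.injEq _ _ _ _ ▸ hvw
      exact h3.2
  have h1 := P.E_mul_ce hf (fun w => ind (R (U w) (V w) ∧ ¬ cov P cU u' HU M' (s + 1) w))
  rw [← FP.E_smul, ← FP.E_add]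
  show P.E (fun w => e w * n w * ind (R (U w) (V w) ∧ ¬ cov P cU u' HU M' (s + 1) w)) ≤ _
  rw [← h1]
  refine P.E_mono fun w hw => ?_
  have h2 := ce_unc (P := P) (U := V) (V := U) (cU := cV) (cV := cU) (R := fun v a => R a v) (u := u') (H := HU)
    (M := M') hI.symm hV hU hH' (s + 1) (s + 1) hw
  have h3 : P.ce (fun w => (pair cV cU (s + 1) w, V w))
      (fun w => ind (R (U w) (V w) ∧ ¬ cov P cU u' HU M' (s + 1) w)) w =
      cp P cU (s + 1) (fun v => row U (fun v a => R a v) (V w) v ∧ ¬ cov P cU u' HU M' (s + 1) v) w := h2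
  rw [h3]
  have h4 : 0 ≤ e w * n w := mul_nonneg (he0 w) (ind_nonneg _)
  by_cases hb : badV P cU V U (fun v a => R a v) u' HU M' T w
  · rw [ind_of hb]
    have h5 : cp P cU (s + 1) (fun v => row U (fun v a => R a v) (V w) v ∧ ¬ cov P cU u' HU M' (s + 1) v) w ≤ 1 :=
      P.ce_le_const (fun _ _ => ind_le_one _) hw
    have h6 : 0 ≤ h * u' / 2 := by positivity
    nlinarith [mul_nonneg h6 h4]
  · rw [ind_not hb]
    have h5 : cp P cU s (fun v => row U (fun v a => R a v) (V w) v ∧ ¬ cov P cU u' HU M' (s + 1) v) w ≤ u' / 2 := by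
      by_contra hcon
      exact hb ⟨s, hs, (not_le.1 hcon).le⟩
    have h6 := cp_ratio (P := P) (Y := cU) (h := h) (s := s) (t := s + 1) (fU s) hw (hm w hw)
      (fun v => row U (fun v a => R a v) (V w) v ∧ ¬ cov P cU u' HU M' (s + 1) v)
    have h7 : cp P cU (s + 1) (fun v => row U (fun v a => R a v) (V w) v ∧ ¬ cov P cU u' HU M' (s + 1) v) w ≤
        h * u' / 2 := by
      refine h6.trans ?_
      have := mul_le_mul_of_nonneg_left h5 h0
      linarith
    nlinarith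

/-- one side, all times -/
theorem side_le2 (hI : P.Indep U V) (hU : ∀ s, Fac U (cU s)) (hV : ∀ s, Fac V (cV s)) (fU : Filt cU) (fV : Filt cV)
    {HV HU : ℕ → Om → Prop} {M M' : ℕ} (hH : ∀ r v w, V v = V w → (HV r v ↔ HV r w))
    (hH' : ∀ r v w, U v = U w → (HU r v ↔ HU r w)) (hu : 0 < u) (hu' : 0 < u') {h : ℝ} (h0 : 0 ≤ h) {T : ℕ}
    (hm : ∀ s w, P.p w ≠ 0 → P.m (cU s) w ≤ h * P.m (cU (s + 1)) w) {σ : Om → ℕ} (hσ : Stp (pair cU cV) σ)
    (hT : ∀ w, σ w < T) :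
    P.E (fun w => ∑ s ∈ range T, ind (s < σ w) * ind (cov P cV u HV M (s + 1 + 1) w ∧ ¬ cov P cV u HV M (s + 1) w) *
        ind (R (U w) (V w) ∧ ¬ cov P cU u' HU M' (s + 1) w)) ≤
      h * u' * P.E (fun w => Phi P cV u HV M (σ w) w) + P.Pr (badV P cU V U (fun v a => R a v) u' HU M' T) := by
  have h1 := covV_le (P := P) (u := u) (H := HV) (M := M) hI hU hV fU fV hH hu hσ
  set n : ℕ → Om → ℝ := fun s w => ind (s < σ w) *
    ind (cov P cV u HV M (s + 1 + 1) w ∧ ¬ cov P cV u HV M (s + 1) w) with hn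
  have hn1 : ∀ w, ∑ s ∈ range T, n s w = ind (cov P cV u HV M (σ w + 1) w ∧ ¬ cov P cV u HV M 1 w) := fun w =>
    sum_new hT w
  rw [FP.E_sum]
  have h2 : ∀ s ∈ range T, P.E (fun w => n s w * ind (R (U w) (V w) ∧ ¬ cov P cU u' HU M' (s + 1) w)) ≤
      h * u' / 2 * P.E (n s) + P.E (fun w => n s w * ind (badV P cU V U (fun v a => R a v) u' HU M' T w)) := by
    intro s hs
    refine new_le2 hI hU hV hH hH' hu' fU h0 (mem_range.1 hs) (hm s) (e := fun w => ind (s < σ w)) ?_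
      (fun w => ind_nonneg _)
    exact ((pair_filt fU fV) s).trans (hσ.lt_fac s)
  refine (Finset.sum_le_sum h2).trans ?_
  rw [Finset.sum_add_distrib, ← Finset.mul_sum, ← FP.E_sum, ← FP.E_sum]
  have h3 : P.E (fun w => ∑ s ∈ range T, n s w) ≤ P.Pr (fun w => cov P cV u HV M (σ w + 1) w) := by
    refine P.E_mono fun w _ => ?_
    rw [hn1 w]
    exact ind_mono fun h => h.1
  have h4 : P.E (fun w => ∑ s ∈ range T, n s w * ind (badV P cU V U (fun v a => R a v) u' HU M' T w)) ≤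
      P.Pr (badV P cU V U (fun v a => R a v) u' HU M' T) := by
    refine P.E_mono fun w _ => ?_
    rw [← Finset.sum_mul, hn1 w]
    exact mul_le_of_le_one_left (ind_nonneg _) (ind_le_one _)
  have h5 : 0 ≤ h * u' / 2 := by positivity
  have h6 := mul_le_mul_of_nonneg_left (h3.trans h1) h5
  linarith

/-- **COVER LEMMA for two vertices** -/
theorem cover22 (hI : P.Indep U V) (hU : ∀ s, Fac U (cU s)) (hV : ∀ s, Fac V (cV s)) (fU : Filt cU) (fV : Filt cV)
    {HV HU : ℕ → Om → Prop} {M M' : ℕ} (hH : ∀ r v w, V v = V w → (HV r v ↔ HV r w))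
    (hH' : ∀ r v w, U v = U w → (HU r v ↔ HU r w)) (hu : 0 < u) (hu' : 0 < u') {h : ℝ} (h0 : 0 ≤ h) {T : ℕ}
    (hmU : ∀ s w, P.p w ≠ 0 → P.m (cU s) w ≤ h * P.m (cU (s + 1)) w)
    (hmV : ∀ s w, P.p w ≠ 0 → P.m (cV s) w ≤ h * P.m (cV (s + 1)) w) {σ : Om → ℕ} (hσ : Stp (pair cU cV) σ)
    (hT : ∀ w, σ w < T) :
    P.Pr (fun w => R (U w) (V w) ∧ (cov P cV u HV M (σ w + 1) w ∨ cov P cU u' HU M' (σ w + 1) w) ∧
        ¬ (cov P cV u HV M 1 w ∨ cov P cU u' HU M' 1 w)) ≤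
      (h * u' * P.E (fun w => Phi P cV u HV M (σ w) w) + h * u * P.E (fun w => Phi P cU u' HU M' (σ w) w)) +
        (P.Pr (badV P cV U V R u HV M T) + P.Pr (badV P cU V U (fun v a => R a v) u' HU M' T)) := by
  have h1 := side_le2 (u := u) (u' := u') (R := R) (M := M) (M' := M') hI hU hV fU fV hH hH' hu hu' h0 (T := T) hmU hσ hT
  have h2 := side_le2 (u := u') (u' := u) (P := P) (U := V) (V := U) (cU := cV) (cV := cU) (R := fun v a => R a v) (M := M') (M' := M)
    hI.symm hV hU fV fU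
    hH' hH hu' hu h0 (T := T) hmV hσ.swap hT
  have h3 : P.Pr (fun w => R (U w) (V w) ∧ (cov P cV u HV M (σ w + 1) w ∨ cov P cU u' HU M' (σ w + 1) w) ∧
        ¬ (cov P cV u HV M 1 w ∨ cov P cU u' HU M' 1 w)) ≤
      P.E (fun w => ∑ s ∈ range T, ind (s < σ w) *
        ind (cov P cV u HV M (s + 1 + 1) w ∧ ¬ cov P cV u HV M (s + 1) w) *
        ind (R (U w) (V w) ∧ ¬ cov P cU u' HU M' (s + 1) w)) +
      P.E (fun w => ∑ s ∈ range T, ind (s < σ w) *
        ind (cov P cU u' HU M' (s + 1 + 1) w ∧ ¬ cov P cU u' HU M' (s + 1) w) *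
        ind ((fun v a => R a v) (V w) (U w) ∧ ¬ cov P cV u HV M (s + 1) w)) := by
    rw [← FP.E_add]
    refine P.E_mono fun w _ => ?_
    have n1 : ∀ s ∈ range T, 0 ≤ ind (s < σ w) *
        ind (cov P cV u HV M (s + 1 + 1) w ∧ ¬ cov P cV u HV M (s + 1) w) *
        ind (R (U w) (V w) ∧ ¬ cov P cU u' HU M' (s + 1) w) := fun s _ =>
      mul_nonneg (mul_nonneg (ind_nonneg _) (ind_nonneg _)) (ind_nonneg _)
    have n2 : ∀ s ∈ range T, 0 ≤ ind (s < σ w) *
        ind (cov P cU u' HU M' (s + 1 + 1) w ∧ ¬ cov P cU u' HU M' (s + 1) w) *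
        ind ((fun v a => R a v) (V w) (U w) ∧ ¬ cov P cV u HV M (s + 1) w) := fun s _ =>
      mul_nonneg (mul_nonneg (ind_nonneg _) (ind_nonneg _)) (ind_nonneg _)
    by_cases hw : R (U w) (V w) ∧ (cov P cV u HV M (σ w + 1) w ∨ cov P cU u' HU M' (σ w + 1) w) ∧
        ¬ (cov P cV u HV M 1 w ∨ cov P cU u' HU M' 1 w)
    · rw [ind_of hw]
      -- the first time
      classical
      obtain ⟨hR, hσc, h0c⟩ := hw
      set p : ℕ → Prop := fun t => cov P cV u HV M (t + 1) w ∨ cov P cU u' HU M' (t + 1) w with hp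
      have hex : ∃ t, p t := ⟨σ w, hσc⟩
      set t0 := Nat.find hex with ht0
      have hpt : p t0 := Nat.find_spec hex
      have hmin : ∀ t < t0, ¬ p t := fun t ht => Nat.find_min hex ht
      have htσ : t0 ≤ σ w := Nat.find_min' hex hσc
      have ht1 : 1 ≤ t0 := by
        rcases Nat.eq_zero_or_pos t0 with h | h
        · rw [h] at hpt
          exact absurd hpt h0c
        · exact h
      obtain ⟨s, hs⟩ : ∃ s, t0 = s + 1 := ⟨t0 - 1, by omega⟩
      have hns := hmin s (by omega)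
      have hsT : s ∈ range T := mem_range.2 (by have := hT w; omega)
      rw [hs] at hpt
      have hns' : ¬ cov P cV u HV M (s + 1) w ∧ ¬ cov P cU u' HU M' (s + 1) w := not_or.1 hns
      rcases hpt with hD | hC
      · have h5 := Finset.single_le_sum n1 hsT
        have h6 := Finset.sum_nonneg n2
        rw [ind_of (show s < σ w by omega), ind_of (show _ ∧ _ from ⟨hD, hns'.1⟩),
          ind_of (show _ ∧ _ from ⟨hR, hns'.2⟩)] at h5
        linarith
      · have h5 := Finset.single_le_sum n2 hsT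
        have h6 := Finset.sum_nonneg n1
        rw [ind_of (show s < σ w by omega), ind_of (show _ ∧ _ from ⟨hC, hns'.2⟩),
          ind_of (show _ ∧ _ from ⟨hR, hns'.1⟩)] at h5
        linarith
    · rw [ind_not hw]
      exact add_nonneg (Finset.sum_nonneg n1) (Finset.sum_nonneg n2)
  have h4 : P.Pr (badV P cV U V (fun v a => (fun v a => R a v) a v) u HV M T) = P.Pr (badV P cV U V R u HV M T) := rfl
  rw [h4] at h2
  linarith

/-- one world, given samples -/
theorem world_pt2 (hI : P.Indep U V) (hU : ∀ s, Fac U (cU s)) (hV : ∀ s, Fac V (cV s))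
    (fU : Filt cU) (fV : Filt cV) (hu : 0 < u) (hu' : 0 < u') {h : ℝ} (h0 : 0 ≤ h)
    (hmU : ∀ s w, P.p w ≠ 0 → P.m (cU s) w ≤ h * P.m (cU (s + 1)) w)
    (hmV : ∀ s w, P.p w ≠ 0 → P.m (cV s) w ≤ h * P.m (cV (s + 1)) w) {σ : Om → ℕ} (hσ : Stp (pair cU cV) σ) {T : ℕ}
    (hT : ∀ w, σ w < T) {g : ℕ → Om → ℝ} (hg : ∀ s, Fac (fun w => (pair cU cV s w, U w)) (g s)) (hg0 : ∀ s w, 0 ≤ g s w)
    (hg1 : ∀ s w, g s w ≤ 1) (M : ℕ) {HV HU : ℕ → Om → Prop} (hH : ∀ r v w, V v = V w → (HV r v ↔ HV r w))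
    (hH' : ∀ r v w, U v = U w → (HU r v ↔ HU r w)) :
    P.E (fun w => ind (R (U w) (V w)) * g (σ w) w) ≤
      u / 2 * P.E (fun w => g (σ w) w) +
      (h * u' * P.E (fun w => Phi P cV u HV M (σ w) w) + P.Pr (fun w => 0 < Phi P cV u HV M 0 w)) +
      (h * u * P.E (fun w => Phi P cU u' HU M (σ w) w) + P.Pr (fun w => 0 < Phi P cU u' HU M 0 w)) +
      2 * P.Pr (badV P cV U V R u HV M T) + P.Pr (badV P cU V U (fun v a => R a v) u' HU M T) := by
  have h1 := cover22 (u := u) (u' := u') (R := R) (M := M) (M' := M) hI hU hV fU fV hH hH' hu hu' h0 hmU hmV hσ hT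
  have h2 := rest2 (R := R) (M := M) hI hU hV fU fV hH hu hσ hT hg hg0
  have h3 : P.E (fun w => ind (badV P cV U V R u HV M T w) * g (σ w) w) ≤ P.Pr (badV P cV U V R u HV M T) :=
    P.E_mono fun w _ => mul_le_of_le_one_right (ind_nonneg _) (hg1 _ _)
  have h4 : P.E (fun w => ind (R (U w) (V w)) * g (σ w) w) ≤
      P.E (fun w => ind (R (U w) (V w) ∧ ¬ cov P cV u HV M (σ w + 1) w) * g (σ w) w) +
      (P.Pr (fun w => R (U w) (V w) ∧ (cov P cV u HV M (σ w + 1) w ∨ cov P cU u' HU M (σ w + 1) w) ∧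
        ¬ (cov P cV u HV M 1 w ∨ cov P cU u' HU M 1 w)) +
      (P.Pr (fun w => 0 < Phi P cV u HV M 0 w) + P.Pr (fun w => 0 < Phi P cU u' HU M 0 w))) := by
    unfold FP.Pr
    rw [← FP.E_add, ← FP.E_add, ← FP.E_add]
    refine P.E_mono fun w _ => ?_
    have a1 : 0 ≤ ind (R (U w) (V w) ∧ ¬ cov P cV u HV M (σ w + 1) w) * g (σ w) w :=
      mul_nonneg (ind_nonneg _) (hg0 _ _)
    have a2 := ind_nonneg (R (U w) (V w) ∧ (cov P cV u HV M (σ w + 1) w ∨ cov P cU u' HU M (σ w + 1) w) ∧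
        ¬ (cov P cV u HV M 1 w ∨ cov P cU u' HU M 1 w))
    have a3 := ind_nonneg (0 < Phi P cV u HV M 0 w)
    have a4 := ind_nonneg (0 < Phi P cU u' HU M 0 w)
    by_cases hR : R (U w) (V w)
    · rw [ind_of hR, one_mul]
      have hg1' := hg1 (σ w) w
      by_cases hc : cov P cV u HV M (σ w + 1) w
      · by_cases c1 : cov P cV u HV M 1 w
        · rw [ind_of (cov_one_pos hu c1)]
          linarith
        · by_cases c2 : cov P cU u' HU M 1 w
          · rw [ind_of (cov_one_pos hu' c2)]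
            linarith
          · rw [ind_of (show R (U w) (V w) ∧ (cov P cV u HV M (σ w + 1) w ∨ cov P cU u' HU M (σ w + 1) w) ∧
              ¬ (cov P cV u HV M 1 w ∨ cov P cU u' HU M 1 w) from ⟨hR, Or.inl hc, not_or.2 ⟨c1, c2⟩⟩)]
            linarith
      · rw [ind_of (show R (U w) (V w) ∧ ¬ cov P cV u HV M (σ w + 1) w from ⟨hR, hc⟩), one_mul]
        linarith
    · rw [ind_not hR, zero_mul]
      linarith
  linarith

/-- **ONE WORLD** -/
theorem world_le2 [Fintype α] [Fintype ω] (hI : P.Indep U V) (hU : ∀ s, Fac U (cU s)) (hV : ∀ s, Fac V (cV s))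
    (fU : Filt cU) (fV : Filt cV) (hu : 0 < u) (hu' : 0 < u') {h : ℝ} (h0 : 0 ≤ h)
    (hmU : ∀ s w, P.p w ≠ 0 → P.m (cU s) w ≤ h * P.m (cU (s + 1)) w)
    (hmV : ∀ s w, P.p w ≠ 0 → P.m (cV s) w ≤ h * P.m (cV (s + 1)) w) {σ : Om → ℕ} (hσ : Stp (pair cU cV) σ) {T : ℕ}
    (hT : ∀ w, σ w < T) {g : ℕ → Om → ℝ} (hg : ∀ s, Fac (fun w => (pair cU cV s w, U w)) (g s)) (hg0 : ∀ s w, 0 ≤ g s w)
    (hg1 : ∀ s w, g s w ≤ 1) (M : ℕ) :
    P.E (fun w => ind (R (U w) (V w)) * g (σ w) w) ≤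
      u / 2 * P.E (fun w => g (σ w) w) +
      ∑ us : Fin M → α, sw (fun a => P.Pr (fun w => U w = a)) us *
        (h * u' * P.E (fun w => Phi P cV u (rows (row V R) us) M (σ w) w) +
          P.Pr (fun w => 0 < Phi P cV u (rows (row V R) us) M 0 w)) +
      ∑ vs : Fin M → ω, sw (fun b => P.Pr (fun w => V w = b)) vs *
        (h * u * P.E (fun w => Phi P cU u' (rows (row U (fun b a => R a b)) vs) M (σ w) w) +
          P.Pr (fun w => 0 < Phi P cU u' (rows (row U (fun b a => R a b)) vs) M 0 w)) +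
      4 / (u * (M + 1)) + 2 / (u' * (M + 1)) := by
  classical
  set qU : α → ℝ := fun a => P.Pr (fun w => U w = a) with hqU
  set qV : ω → ℝ := fun b => P.Pr (fun w => V w = b) with hqV
  have oneU : ∑ us : Fin M → α, sw qU us = 1 := sw_sum (sum_law U) M
  have oneV : ∑ vs : Fin M → ω, sw qV vs = 1 := sw_sum (sum_law V) M
  have nU : ∀ us : Fin M → α, 0 ≤ sw qU us := sw_nonneg (fun a => P.Pr_nonneg _)
  have nV : ∀ vs : Fin M → ω, 0 ≤ sw qV vs := sw_nonneg (fun a => P.Pr_nonneg _)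
  set L := P.E (fun w => ind (R (U w) (V w)) * g (σ w) w) with hL
  set G0 := u / 2 * P.E (fun w => g (σ w) w) with hG0
  set A : (Fin M → α) → ℝ := fun us => h * u' * P.E (fun w => Phi P cV u (rows (row V R) us) M (σ w) w) +
          P.Pr (fun w => 0 < Phi P cV u (rows (row V R) us) M 0 w) with hA
  set B : (Fin M → ω) → ℝ := fun vs => h * u * P.E (fun w => Phi P cU u' (rows (row U (fun b a => R a b)) vs) M (σ w) w) +
          P.Pr (fun w => 0 < Phi P cU u' (rows (row U (fun b a => R a b)) vs) M 0 w) with hB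
  set bA : (Fin M → α) → ℝ := fun us => P.Pr (badV P cV U V R u (rows (row V R) us) M T) with hbA
  set bB : (Fin M → ω) → ℝ := fun vs =>
    P.Pr (badV P cU V U (fun v a => R a v) u' (rows (row U (fun b a => R a b)) vs) M T) with hbB
  have key : ∀ us vs, L ≤ G0 + A us + B vs + 2 * bA us + bB vs := fun us vs =>
    world_pt2 (R := R) hI hU hV fU fV hu hu' h0 hmU hmV hσ hT hg hg0 hg1 M (rows_fac us) (rows_fac vs)
  have bad1 : ∑ us, sw qU us * bA us ≤ 2 / (u * (M + 1)) := badV_le (R := R) hI hV fV hu M T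
  have bad2 : ∑ vs, sw qV vs * bB vs ≤ 2 / (u' * (M + 1)) := badV_le (R := fun b a => R a b) hI.symm hU fU hu' M T
  -- mean over `us`
  have s1 : ∀ vs, L ≤ G0 + ∑ us, sw qU us * A us + B vs + 2 * ∑ us, sw qU us * bA us + bB vs := by
    intro vs
    have h1 : ∑ us, sw qU us * L ≤ ∑ us, sw qU us * (G0 + A us + B vs + 2 * bA us + bB vs) :=
      Finset.sum_le_sum fun us _ => mul_le_mul_of_nonneg_left (key us vs) (nU us)
    rw [← Finset.sum_mul, oneU, one_mul] at h1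
    refine h1.trans (le_of_eq ?_)
    have h2 : ∀ us, sw qU us * (G0 + A us + B vs + 2 * bA us + bB vs) =
        sw qU us * (G0 + B vs + bB vs) + sw qU us * A us + 2 * (sw qU us * bA us) := fun us => by ring
    rw [Finset.sum_congr rfl fun us _ => h2 us, Finset.sum_add_distrib, Finset.sum_add_distrib, ← Finset.sum_mul,
      oneU, ← Finset.mul_sum]
    ring
  have s2 : L ≤ G0 + ∑ us, sw qU us * A us + ∑ vs, sw qV vs * B vs + 2 * ∑ us, sw qU us * bA us +
      ∑ vs, sw qV vs * bB vs := by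
    have h1 : ∑ vs, sw qV vs * L ≤
        ∑ vs, sw qV vs * (G0 + ∑ us, sw qU us * A us + B vs + 2 * ∑ us, sw qU us * bA us + bB vs) :=
      Finset.sum_le_sum fun vs _ => mul_le_mul_of_nonneg_left (s1 vs) (nV vs)
    rw [← Finset.sum_mul, oneV, one_mul] at h1
    refine h1.trans (le_of_eq ?_)
    have h2 : ∀ vs, sw qV vs * (G0 + ∑ us, sw qU us * A us + B vs + 2 * ∑ us, sw qU us * bA us + bB vs) =
        sw qV vs * (G0 + ∑ us, sw qU us * A us + 2 * ∑ us, sw qU us * bA us) + sw qV vs * B vs +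
          sw qV vs * bB vs := fun vs => by ring
    rw [Finset.sum_congr rfl fun vs _ => h2 vs, Finset.sum_add_distrib, Finset.sum_add_distrib, ← Finset.sum_mul,
      oneV]
    ring
  have h6 : 4 / (u * (M + 1)) = 2 * (2 / (u * (M + 1) : ℝ)) := by ring
  rw [h6]
  linarith

end

end Pool.Agent.GMH.Gdy
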