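import Pool.Agent.GMH.RowA

/-!
# GMH.RowC0: coin tables for the labels, definitions (helper27)

One table `θ l : (x, y) ↦ letter` for every label `l`, all entries independent, entry `(x, y)` with the law `kf t l x y`;
the label at `(x, y)` is read at the representative of `(y on univ - l, node)`: `rd`.
-/

set_option autoImplicit false
set_option linter.unusedSectionVars false

namespace Pool.Agent.GMH

open Finset Pool.Agent.PWZ Pool.Agent.M3 Pool.Agent.GM Pool.Agent.GM.Harm

section coin

variable {K X β γ φ υ : Type} [Fintype K] [DecidableEq K] [Fintype X] [Fintype β] [Fintype φ] [Nonempty X] [Nonempty β]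
  {D : HD K X β γ φ} {al : ℝ} (h : D.Thick al)

/-- coin table of the label `l` -/
noncomputable def coinF (t : ℕ) (l : K) : FP (Cn K X β φ) :=
  @FPpi (X × (K → β)) φ _ (decI K X β) _ fun i => kf1 h t l i.1 i.2

/-- coin tables of all labels -/
noncomputable def coinT (t : ℕ) : FP (K → Cn K X β φ) := FPpi fun l => coinF h t l

/-- reading of the label `l` at `(x, y)` -/
noncomputable def rd (D : HD K X β γ φ) (t : ℕ) (θ : K → Cn K X β φ) (l : K) (x : X) (y : K → β) : φ :=
  θ l (x, rep D t (univ.erase l) y)

theorem rd_dep {t : ℕ} (θ : K → Cn K X β φ) (l : K) (x : X) {y y' : K → β} (h1 : ∀ j, j ≠ l → y j = y' j)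
    (h2 : ∀ j, D.qb t (y j) = D.qb t (y' j)) : rd D t θ l x y = rd D t θ l x y' := by
  unfold rd
  rw [rep_eq (fun j hj => h1 j (Finset.ne_of_mem_erase hj)) h2]

end coin

end Pool.Agent.GMH
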