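import Pool.Agent.GMH.PayGU
import Pool.Agent.GMH.KinRw
import Pool.Agent.GMH.HotK

/-!
# GMH/RowU (helper83): THE UNSIGNED KINDS AT THE EXACT VERTEX `b` HAVE RARE ROWS AND COLUMNS (input `OneM` of GMH/PayGU)

Any frame `Fr j` = function of `FQ v (e / 5) j` (three tops: `FQ`; two tops: `Fo FQ i`).
* `oneM_of_RowS` : `OneM` out of the row masses of GMH/KinRw, for a relation which does not see the top `b`;
* `oneM_pair` (`κ = b + 6`, visible relation at `b`), `oneM_bad` (the running top is bad), `oneM_hot` (hot pair of GMH/HotK);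
* `kvF_six` : the visible relation of a pair kind at its vertex; `kv_dep` : it does not see the top `b`.
Columns: exchange `c` and `d`.
-/

set_option autoImplicit false
set_option linter.unusedSectionVars false

namespace Pool.Agent.GMH.KF

open Finset Pool.Agent.PWZ Pool.Agent.M3 Pool.Agent.GMH

noncomputable section

variable {Om : Type*} [Fintype Om] (P : FP Om) {β φ : Type*} {Z : Om → β} (F : Fin 3 → Om → φ)

/-- **visible relation of a pair kind at its vertex** -/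
theorem kvF_six {c : KC} {κ : Fin 10} {b : Fin 3} (hκ : κ.1 = b.1 + 6) {w : Om} {f : Fin 3 → φ} :
    kvF P Z F c κ (some b) w f ↔
      (Pr2 P F c Z b w f ∧ ¬ Ap P Z F c 1 w f ∧ ∀ j, j ≠ b → ¬ bad P Z F c j w f) := by
  have hb := b.2
  have h9 : κ.1 ≠ 9 := by omega
  unfold kvF kv0F
  rw [if_neg (show ¬ (2 ≤ κ.1 ∧ κ.1 ≤ 5) by omega), hκ, Pr2_iff P F c b w f]
  constructor
  · rintro ⟨h1, h2, _⟩
    exact ⟨h1, (h2 (by omega)).1, fun j hj => (h2 (by omega)).2 j (Or.inr fun e => hj (Option.some_injective _ e))⟩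
  · rintro ⟨h1, h2, h3⟩
    refine ⟨h1, fun _ => ⟨h2, fun j hj => ?_⟩, fun e => absurd e (by omega)⟩
    rcases hj with hj | hj
    · omega
    · exact h3 j fun e => hj (by rw [e])

/-- the visible relation of a pair kind at its vertex does not see the third top -/
theorem kv_dep {c : KC} {κ : Fin 10} {b : Fin 3} (hκ : κ.1 = b.1 + 6) {w : Om} {f g : Fin 3 → φ}
    (h : ∀ j, j ≠ b → f j = g j) (hf : kvF P Z F c κ (some b) w f) : kvF P Z F c κ (some b) w g := by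
  rw [kvF_six P F hκ] at hf ⊢
  obtain ⟨h1, h2, h3⟩ := hf
  have h4 : ∀ l ∈ opp b, f l = g l := fun l hl => h l (Finset.ne_of_mem_erase hl)
  refine ⟨?_, fun h5 => h2 ((Ap1_const P F f g).2 h5), fun j hj h5 => h3 j hj ?_⟩
  · unfold Pr2 at h1 ⊢
    rwa [pS_cong P F w h4, tvn_cong P F w h4, dens_cong P F w h4] at h1
  · rwa [bad_letter P F c j w (h j hj)]

end

end Pool.Agent.GMH.KF

namespace Pool.Agent.GMH.PayG

open Finset Pool.Agent.PWZ Pool.Agent.M3 Pool.Agent.GM Pool.Agent.GM.Harm Pool.Agent.GMH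
open Pool.Agent.GMH.Dy Pool.Agent.GMH.TP
open Pool.Agent.GMH.KF (KC)

noncomputable section

variable {X β γ φ : Type} [Fintype X] [Fintype β] [Fintype φ] [Nonempty X] [Nonempty β]
variable {D : HD (Fin 3) X β γ φ} {al : ℝ} {h : D.Thick al}
variable {v : ℕ → Finset (Fin 3) → X → (Fin 3 → β) → Pt (Fin 3) X β φ}
variable {b c d : Fin 3} {e : ℕ} {q t : ℝ} {kv : Pt (Fin 3) X β φ → Prop} {c' : KC}
variable {Φ : Type*} {Fr : Fin 3 → Pt (Fin 3) X β φ → Φ}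

/-- **`OneM` OUT OF THE ROW MASSES** : the relation `K` does not see the top `b` -/
theorem oneM_of_RowS {K : Pt (Fin 3) X β φ → (Fin 3 → Φ) → Prop} (h3 : ∀ j, j = b ∨ j = c ∨ j = d) (hcd : c ≠ d)
    (hK : ∀ f, Fac (ZQ D v e) (fun a => K a f)) (hdep : ∀ a f g, (∀ j, j ≠ b → f j = g j) → K a f → K a g)
    (hFr : ∀ j, Fac (FQ v (e / 5) j) (Fr j)) (hR : KF.RowS (D.P h (e / 5)) (ZbQ D v e) Fr K c q)
    (hkv : ∀ p, (D.P h (e / 5)).p p ≠ 0 → kv p → K p (tup Fr p)) : OneM h v kv e c d q := by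
  intro p1 hp1
  refine le_trans (FP.ce_mono _ (fun u _ => ind_mono ?_) _) (hR p1 hp1 (tup Fr p1) (tup_mem _ _))
  rintro ⟨p2, a1, a2, a3, a4⟩
  have g := Prod.mk.inj (show (FQ v (e / 5) d p2, ZQ D v e p2) = (FQ v (e / 5) d p1, ZQ D v e p1) from a2)
  have h1 : K p2 (tup Fr p2) = K p1 (tup Fr p2) := hK (tup Fr p2) p2 p1 g.2
  have h2 := hkv p2 a1 a4
  rw [h1] at h2
  refine hdep _ _ _ (fun j hj => ?_) h2
  rcases h3 j with h4 | h4 | h4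
  · exact absurd h4 hj
  · subst h4
    rw [Function.update_self]
    exact hFr j _ _ a3
  · subst h4
    rw [Function.update_of_ne hcd.symm]
    exact hFr j _ _ g.1

/-- the thin condition of the state -/
theorem thin_fac (t : ℝ) (Fr : Fin 3 → Pt (Fin 3) X β φ → Φ) : Fac (ZQ D v e) (fun a => ∀ l,
    KF.tv1n (D.P h (e / 5)) (ZQ D v e) (ZbQ D v e) Fr l a < t) := by
  intro a b' hab
  have h1 : ∀ l, KF.tv1n (D.P h (e / 5)) (ZQ D v e) (ZbQ D v e) Fr l a =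
      KF.tv1n (D.P h (e / 5)) (ZQ D v e) (ZbQ D v e) Fr l b' := fun l =>
    KF.tv1n_fac _ _ (fun i => ZQ_Zb e i) l a b' hab
  show (∀ l, _ < t) = (∀ l, _ < t)
  simp only [h1]

/-- **A PAIR KIND AT ITS VERTEX** `κ = b + 6` (the kind, or its visible relation): rows of `c`, top of the row `d` -/
theorem oneM_pair (h3 : ∀ j, j = b ∨ j = c ∨ j = d) (hbc : b ≠ c) (hcd : c ≠ d) (e2 : 0 ≤ c'.e2) (e3 : 0 < c'.e3)
    (hd : 0 < c'.dH) (t0 : 0 ≤ t) {κ : Fin 10} (hκ : κ.1 = b.1 + 6) (hFr : ∀ j, Fac (FQ v (e / 5) j) (Fr j))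
    (hkv : ∀ p, (D.P h (e / 5)).p p ≠ 0 → kv p →
      KF.kvF (D.P h (e / 5)) (ZQ D v e) Fr c' κ (some b) p (tup Fr p) ∧
        ∀ l, KF.tv1n (D.P h (e / 5)) (ZQ D v e) (ZbQ D v e) Fr l p < t) :
    OneM h v kv e c d (2 * c'.e2 * (1 / c'.dH + 1 + 1 / c'.e3) + t) :=
  oneM_of_RowS (K := fun a f => KF.kvF (D.P h (e / 5)) (ZQ D v e) Fr c' κ (some b) a f ∧
      ∀ l, KF.tv1n (D.P h (e / 5)) (ZQ D v e) (ZbQ D v e) Fr l a < t) h3 hcd
    (fun f a a' hab => by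
      have h1 : KF.kvF (D.P h (e / 5)) (ZQ D v e) Fr c' κ (some b) a f =
          KF.kvF (D.P h (e / 5)) (ZQ D v e) Fr c' κ (some b) a' f := KF.kvF_fac c' κ (some b) f a a' hab
      have h2 : (∀ l, KF.tv1n (D.P h (e / 5)) (ZQ D v e) (ZbQ D v e) Fr l a < t) =
          ∀ l, KF.tv1n (D.P h (e / 5)) (ZQ D v e) (ZbQ D v e) Fr l a' < t := thin_fac t Fr a a' hab
      show (_ ∧ _) = (_ ∧ _)
      rw [h1, h2])
    (fun _ _ _ hfg hf => ⟨KF.kv_dep _ _ hκ hfg hf.1, hf.2⟩) hFr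
    (KF.kv_pair (D.P h (e / 5)) Fr (Z := ZQ D v e) (Zb := ZbQ D v e) e2 e3 hd t0 hκ hbc.symm (Or.inr rfl)) hkv

/-- **THE RUNNING TOP IS BAD** (two bad tops) -/
theorem oneM_bad (h3 : ∀ j, j = b ∨ j = c ∨ j = d) (hbc : b ≠ c) (hcd : c ≠ d) (e1 : 0 ≤ c'.e1) (e2 : 0 < c'.e2)
    (t0 : 0 ≤ t) (hFr : ∀ j, Fac (FQ v (e / 5) j) (Fr j))
    (hkv : ∀ p, (D.P h (e / 5)).p p ≠ 0 → kv p →
      (¬ KF.Ap (D.P h (e / 5)) (ZQ D v e) Fr c' 1 p (tup Fr p) ∧ KF.bad (D.P h (e / 5)) (ZQ D v e) Fr c' c p (tup Fr p)) ∧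
        ∀ l, KF.tv1n (D.P h (e / 5)) (ZQ D v e) (ZbQ D v e) Fr l p < t) :
    OneM h v kv e c d (2 * c'.e1 / c'.e2 + t) :=
  oneM_of_RowS (K := fun a f => (¬ KF.Ap (D.P h (e / 5)) (ZQ D v e) Fr c' 1 a f ∧
      KF.bad (D.P h (e / 5)) (ZQ D v e) Fr c' c a f) ∧
      ∀ l, KF.tv1n (D.P h (e / 5)) (ZQ D v e) (ZbQ D v e) Fr l a < t) h3 hcd
    (fun f a a' hab => by
      have h1 : KF.Ap (D.P h (e / 5)) (ZQ D v e) Fr c' 1 a f = KF.Ap (D.P h (e / 5)) (ZQ D v e) Fr c' 1 a' f :=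
        KF.Ap_fac _ _ c' 1 f a a' hab
      have h4 : KF.bad (D.P h (e / 5)) (ZQ D v e) Fr c' c a f = KF.bad (D.P h (e / 5)) (ZQ D v e) Fr c' c a' f :=
        KF.bad_fac _ _ c' c f a a' hab
      have h2 : (∀ l, KF.tv1n (D.P h (e / 5)) (ZQ D v e) (ZbQ D v e) Fr l a < t) =
          ∀ l, KF.tv1n (D.P h (e / 5)) (ZQ D v e) (ZbQ D v e) Fr l a' < t := thin_fac t Fr a a' hab
      show ((_ ∧ _) ∧ _) = ((_ ∧ _) ∧ _)
      rw [h1, h4, h2])
    (fun a f g hfg hf => ⟨⟨fun h5 => hf.1.1 ((KF.Ap1_const _ _ f g).2 h5), by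
      rw [← KF.bad_letter _ _ c' c a (hfg c hbc.symm)]
      exact hf.1.2⟩, hf.2⟩) hFr
    ((KF.bad_RowS (D.P h (e / 5)) Fr (Z := ZQ D v e) (Zb := ZbQ D v e) e1 e2 t0 c).mono _ _ le_rfl
      fun _ _ _ _ hh => ⟨⟨hh.1.1, hh.2⟩, hh.1.2⟩) hkv

/-- **A HOT PAIR AT THE EXACT VERTEX** -/
theorem oneM_hot (h3 : ∀ j, j = b ∨ j = c ∨ j = d) (hbc : b ≠ c) (hbd : b ≠ d) (hcd : c ≠ d) (a s : ℝ) (hs : 0 ≤ s)
    (hFr : ∀ j, Fac (FQ v (e / 5) j) (Fr j))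
    (hkv : ∀ p, (D.P h (e / 5)).p p ≠ 0 → kv p →
      KF.hotQ (D.P h (e / 5)) (ZQ D v e) (ZbQ D v e) Fr a s b p (tup Fr p)) :
    OneM h v kv e c d (s * Real.exp (-a)) := by
  have h4 : KF.opp b = {d, c} := by
    have key : ∀ b c d : Fin 3, b ≠ c → b ≠ d → c ≠ d → univ.erase b = ({d, c} : Finset (Fin 3)) := by decide
    exact key b c d hbc hbd hcd
  exact oneM_of_RowS (K := fun p f => KF.hotQ (D.P h (e / 5)) (ZQ D v e) (ZbQ D v e) Fr a s b p f) h3 hcd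
    (fun f => KF.hotQ_fac _ _ (fun i => ZQ_Zb e i) a s b f)
    (fun p f g hfg hf => (KF.hotQ_dep _ _ _ _ a s b p fun l hl => hfg l (Finset.ne_of_mem_erase hl)).1 hf) hFr
    (fun w _ f _ => KF.hotQ_row_ce (D.P h (e / 5)) Fr (Z := ZQ D v e) (Zb := ZbQ D v e) a hs h4 hcd.symm w f) hkv

end

end Pool.Agent.GMH.PayG
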