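import Pool.Agent.GMH.SglO
import Pool.Agent.GMH.AlvT
import Pool.Agent.GMH.ConTK

/-!
# GMH/SglC (helper77): SG AND SD OF FULL AND TWO FROM THE HEADS OF KIND S

* `KS` : the heads of kind S at the removals, for any set `Xp` of removals (the expensive ones): `ex` : bad singles at `Xp`;
  `ga` : off `Xp`, the top `l` itself active; `gb` : off `Xp`, the other two tops active; `gc` : off `Xp`, `l` and its missing
  thin letter strong;
* `s1_sum`, `s2_sum`, `s3_sum` : the closed list of `GMH/SglO` is at most `2 δ`;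
* `sg2_sum`, `sd2_sum` : the sums of `stB2`, `sfO2` of the frame two (`8 δ`, `6 δ`); `sg3_sum`, `ss3_sum`, `ud3_sum` : the sums of
  `stB3`, `ssB3` (`42 δ`, `36 δ`) and of the unreleased tuples of the region (d), three tops.
-/

set_option autoImplicit false
set_option linter.unusedSectionVars false

namespace Pool.Agent.GMH.TRF

open Finset Pool.Agent.PWZ Pool.Agent.M3 Pool.Agent.GM Pool.Agent.GM.Harm Pool.Agent.GMH Pool.Agent.GMH.NZ
open Pool.Agent.GMH.V3 Pool.Agent.GMH.TP Pool.Agent.GMH.TD Pool.Agent.GMH.Dy Pool.Agent.GMH.MV Pool.Agent.GMH.MVI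
open Pool.Agent.GMH.UV Pool.Agent.GMH.KF Pool.Agent.GMH.CK

noncomputable section

variable {X β γ φ : Type} [Fintype X] [Fintype β] [Fintype φ] [Nonempty X] [Nonempty β]
variable {D : HD (Fin 3) X β γ φ} {al : ℝ} (h : D.Thick al) {prr : ℕ → Fin 3 → φ → φ} {T : ℕ} {W : Type} [Fintype W]
variable (tb : Tab D prr T W) (v : ℕ → Finset (Fin 3) → X → (Fin 3 → β) → Pt (Fin 3) X β φ)

/-- the missing thin letter of `l` is strong -/
def tsO (B : ℝ) (l : Fin 3) (q : ℕ) (w : Om W X β) : Prop :=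
  B < Pool.Agent.GMH.tF (D.P h (q / 5)) (ZQ D v q) (ZbQ D v q) (ZbQ D v (qe (sO q) (q / 5))) l (tb.pt (q / 5) w)

/-- the alive family, asked for at the removals only -/
def alR (Al : ℕ → Om W X β → Prop) (q : ℕ) (w : Om W X β) : Prop := rmq tb v q w → Al q w

/-- **THE HEADS OF KIND S AT THE REMOVALS** -/
structure KS (c : KC) (Al Xp : ℕ → Om W X β → Prop) (B e e3 δ : ℝ) : Prop where
  d0 : 0 ≤ δ
  ex : ∀ l, ∑ q ∈ range (5 * T), tb.Ps.Pr (fun w => (rmq tb v q w ∧ Xp q w) ∧ Al q w ∧ bsO h tb v c l q w) ≤ δ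
  ga : ∀ l, ∑ q ∈ range (5 * T), tb.Ps.Pr (fun w => (rmq tb v q w ∧ ¬ Xp q w) ∧ Al q w ∧ bsO h tb v c l q w ∧
    acO h tb v e3 l q w) ≤ δ
  gb : ∀ l x y, l ≠ x → l ≠ y → x ≠ y → ∑ q ∈ range (5 * T), tb.Ps.Pr (fun w => (rmq tb v q w ∧ ¬ Xp q w) ∧ Al q w ∧
    bsO h tb v c l q w ∧ acO h tb v e x q w ∧ acO h tb v e y q w) ≤ δ
  gc : ∀ l, ∑ q ∈ range (5 * T), tb.Ps.Pr (fun w => (rmq tb v q w ∧ ¬ Xp q w) ∧ Al q w ∧ B < rtO h tb v l q w ∧
    tsO h tb v B l q w) ≤ δ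

variable {h tb v} {c : KC} {Al Xp : ℕ → Om W X β → Prop} {B e e3 δ : ℝ}

/-- two cases -/
theorem ks_two {E E1 E2 : ℕ → Om W X β → Prop} (hE : ∀ q w, tb.Ps.p w ≠ 0 → E q w → E1 q w ∨ E2 q w)
    (h1 : ∑ q ∈ range (5 * T), tb.Ps.Pr (E1 q) ≤ δ) (h2 : ∑ q ∈ range (5 * T), tb.Ps.Pr (E2 q) ≤ δ) :
    ∑ q ∈ range (5 * T), tb.Ps.Pr (E q) ≤ 2 * δ := by
  have h3 : ∑ q ∈ range (5 * T), tb.Ps.Pr (E q) ≤ ∑ q ∈ range (5 * T), (tb.Ps.Pr (E1 q) + tb.Ps.Pr (E2 q)) :=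
    Finset.sum_le_sum fun q _ => (tb.Ps.Pr_mono fun w hw hh => hE q w hw hh).trans (tb.Ps.Pr_or_le _ _)
  rw [Finset.sum_add_distrib] at h3
  linarith

/-- the alive family may be asked for at the removals only -/
theorem KS.imp (K : KS h tb v c Al Xp B e e3 δ) : KS h tb v c (alR tb v Al) Xp B e e3 δ where
  d0 := K.d0
  ex := fun l => le_trans (Finset.sum_le_sum fun _ _ => tb.Ps.Pr_mono fun _ _ hh => ⟨hh.1, hh.2.1 hh.1.1, hh.2.2⟩) (K.ex l)
  ga := fun l => le_trans (Finset.sum_le_sum fun _ _ => tb.Ps.Pr_mono fun _ _ hh => ⟨hh.1, hh.2.1 hh.1.1, hh.2.2⟩) (K.ga l)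
  gb := fun l x y h1 h2 h3 => le_trans (Finset.sum_le_sum fun _ _ => tb.Ps.Pr_mono fun _ _ hh =>
    ⟨hh.1, hh.2.1 hh.1.1, hh.2.2⟩) (K.gb l x y h1 h2 h3)
  gc := fun l => le_trans (Finset.sum_le_sum fun _ _ => tb.Ps.Pr_mono fun _ _ hh => ⟨hh.1, hh.2.1 hh.1.1, hh.2.2⟩) (K.gc l)

variable (K : KS h tb v c Al Xp B e e3 δ)

include K

/-- **(S1)** -/
theorem s1_sum (he : e3 ≤ e) (l : Fin 3) {x y : Fin 3} (hxy : x ≠ y) :
    ∑ q ∈ range (5 * T), tb.Ps.Pr (S1O h tb v c Al e l x y q) ≤ 2 * δ := by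
  have hac : ∀ j q w, acO h tb v e j q w → acO h tb v e3 j q w := fun j q w hh => ⟨hh.1, lt_of_le_of_lt he hh.2⟩
  by_cases hx : l = x
  · refine ks_two (fun q w _ hh => ?_) (K.ex l) (K.ga l)
    obtain ⟨h1, h2, h3, h4, h5⟩ := hh
    by_cases hX : Xp q w
    · exact Or.inl ⟨⟨h1, hX⟩, h2, h3⟩
    · refine Or.inr ⟨⟨h1, hX⟩, h2, h3, ?_⟩
      subst hx
      exact hac _ q w h4
  · by_cases hy : l = y
    · refine ks_two (fun q w _ hh => ?_) (K.ex l) (K.ga l)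
      obtain ⟨h1, h2, h3, h4, h5⟩ := hh
      by_cases hX : Xp q w
      · exact Or.inl ⟨⟨h1, hX⟩, h2, h3⟩
      · refine Or.inr ⟨⟨h1, hX⟩, h2, h3, ?_⟩
        subst hy
        exact hac _ q w h5
    · refine ks_two (fun q w _ hh => ?_) (K.ex l) (K.gb l x y hx hy hxy)
      obtain ⟨h1, h2, h3, h4, h5⟩ := hh
      by_cases hX : Xp q w
      · exact Or.inl ⟨⟨h1, hX⟩, h2, h3⟩
      · exact Or.inr ⟨⟨h1, hX⟩, h2, h3, h4, h5⟩

/-- **(S2)** -/
theorem s2_sum (B' : ℝ) (l : Fin 3) : ∑ q ∈ range (5 * T), tb.Ps.Pr (S2O h tb v c Al B' e3 l q) ≤ 2 * δ := by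
  refine ks_two (fun q w _ hh => ?_) (K.ex l) (K.ga l)
  obtain ⟨h1, h2, _, h4, h5⟩ := hh
  by_cases hX : Xp q w
  · exact Or.inl ⟨⟨h1, hX⟩, h2, Or.inr h4⟩
  · refine Or.inr ⟨⟨h1, hX⟩, h2, Or.inr h4, ?_, ?_⟩
    · have := rmq_mod h1
      omega
    · refine lt_of_lt_of_le ?_ (le_abs_self _)
      linarith

/-- **(S3)** : `exp eS ≤ 1 + d` -/
theorem s3_sum {d : ℝ} (hd : Real.exp c.eS ≤ 1 + d) (l : Fin 3) :
    ∑ q ∈ range (5 * T), tb.Ps.Pr (S3O h tb v Al B d l q) ≤ 2 * δ := by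
  have hsum : ∑ q ∈ range (5 * T), tb.Ps.Pr (S3O h tb v Al B d l q) = ∑ q ∈ range (5 * T), tb.Ps.Pr
      (fun w => S3O h tb v Al B d l q w ∧ q / 5 ≤ T) := by
    refine Finset.sum_congr rfl fun q hq => ?_
    have hq' : q / 5 ≤ T := by
      have := Finset.mem_range.1 hq
      omega
    unfold FP.Pr
    exact tb.Ps.E_congr fun w _ => congrArg ind (propext ⟨fun hh => ⟨hh, hq'⟩, fun hh => hh.1⟩)
  rw [hsum]
  refine ks_two (E := fun q w => S3O h tb v Al B d l q w ∧ q / 5 ≤ T) (fun q w hw hh => ?_) (K.ex l) (K.gc l)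
  obtain ⟨⟨h1, h2, h3, h4, h5⟩, hqT⟩ := hh
  have hp : (D.P h (q / 5)).p (tb.pt (q / 5) w) ≠ 0 := (pul_pt h tb hqT).ne hw
  by_cases hX : Xp q w
  · refine Or.inl ⟨⟨h1, hX⟩, h2, Or.inr ?_⟩
    have hq0 := true_q (D.P h (q / 5)) (FQ v (q / 5)) (Zb := ZbQ D v q) hp l
    have hm0 := true_m (D.P h (q / 5)) (FQ v (q / 5)) (Z := ZQ D v q) hp l
    show c.eS ≤ |Real.log (mF (D.P h (q / 5)) (ZQ D v q) (FQ v (q / 5)) l (tb.pt (q / 5) w)
      (FQ v (q / 5) l (tb.pt (q / 5) w)) / qF (D.P h (q / 5)) (ZbQ D v q) (FQ v (q / 5)) l (tb.pt (q / 5) w)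
      (FQ v (q / 5) l (tb.pt (q / 5) w)))|
    refine le_trans ?_ (le_abs_self _)
    rw [Real.le_log_iff_exp_le (div_pos hm0 hq0), le_div_iff₀ hq0]
    have h6 := mul_le_mul_of_nonneg_right hd hq0.le
    linarith
  · exact Or.inr ⟨⟨h1, hX⟩, h2, h3, h4⟩

section two

variable {r : RC} {i : Fin 3} {A : Bool → ℕ → Pt (Fin 3) X β φ → Prop}

/-- **SG OF THE FRAME TWO** -/
theorem sg2_sum (he : e3 ≤ e) (hF : 0 < c.eF) (hS : 0 < c.eS) (hB : 1 ≤ r.B) (hBB : r.B = B)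
    (hd : Real.exp c.eS ≤ 1 + r.d) (hA1 : ∀ t < T, ∀ u, A false t u → ¬ HV h v t u)
    (hA3 : ∀ t < T, ∀ u, A true t u → lpv h v i t u ∧ HV h v t u)
    (hAl : ∀ q < 5 * T, ∀ w, tb.Ps.p w ≠ 0 → stO2 q → aO2 tb A q w → Al q w) :
    ∑ q ∈ range (5 * T), tb.Ps.Pr (stB2 h tb v c r i A e q) ≤ 8 * δ := by
  obtain ⟨j, k, hj, hk, hjk⟩ : ∃ j k : Fin 3, j ≠ i ∧ k ≠ i ∧ j ≠ k := by
    have key : ∀ i : Fin 3, ∃ j k : Fin 3, j ≠ i ∧ k ≠ i ∧ j ≠ k := by decide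
    exact key i
  have h1 : ∑ q ∈ range (5 * T), tb.Ps.Pr (stB2 h tb v c r i A e q) ≤ ∑ q ∈ range (5 * T),
      ((tb.Ps.Pr (S1O h tb v c Al e j j k q) + tb.Ps.Pr (S1O h tb v c Al e k j k q)) +
      (tb.Ps.Pr (S3O h tb v Al r.B r.d j q) + tb.Ps.Pr (S3O h tb v Al r.B r.d k q))) :=
    Finset.sum_le_sum fun q hq => by
      have hq' := Finset.mem_range.1 hq
      exact stB2_le hF hS hB (by omega) (hA1 (q / 5) (by omega)) (hA3 (q / 5) (by omega)) (hAl q hq') hj hk hjk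
  simp only [Finset.sum_add_distrib] at h1
  have a1 := s1_sum K he j hjk
  have a2 := s1_sum K he k hjk
  have a3 := s3_sum K hd j
  have a4 := s3_sum K hd k
  rw [hBB] at h1
  linarith

/-- **SD OF THE FRAME TWO** -/
theorem sd2_sum (B' : ℝ) (hA1 : ∀ t < T, ∀ u, A false t u → ¬ HV h v t u)
    (hA3 : ∀ t < T, ∀ u, A true t u → lpv h v i t u ∧ HV h v t u)
    (hAl : ∀ q < 5 * T, ∀ w, tb.Ps.p w ≠ 0 → stO2 q → aO2 tb A q w → Al q w) :
    ∑ q ∈ range (5 * T), tb.Ps.Pr (sfO2 h tb v c i A B' e3 q) ≤ 6 * δ := by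
  have h1 : ∑ q ∈ range (5 * T), tb.Ps.Pr (sfO2 h tb v c i A B' e3 q) ≤ ∑ q ∈ range (5 * T),
      ∑ l, tb.Ps.Pr (S2O h tb v c Al B' e3 l q) :=
    Finset.sum_le_sum fun q hq => by
      have hq' := Finset.mem_range.1 hq
      exact sfO2_le (by omega) (hA1 (q / 5) (by omega)) (hA3 (q / 5) (by omega)) (hAl q hq')
  rw [Finset.sum_comm, Fin.sum_univ_three] at h1
  have a0 := s2_sum K B' 0
  have a1 := s2_sum K B' 1
  have a2 := s2_sum K B' 2
  linarith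

end two

section three

variable {r : RC} {A : Fin 6 → ℕ → Pt (Fin 3) X β φ → Prop}

/-- **SG OF THE THREE TOPS** -/
theorem sg3_sum (he : e3 ≤ e) (hee : e ≤ r.e1) (heB : 1 + e ≤ r.B) (hBB : r.B = B) (hd : Real.exp c.eS ≤ 1 + r.d)
    (hAl : ∀ q < 5 * T, ∀ w, tb.Ps.p w ≠ 0 → rmq tb v q w → aO tb A q w → Al q w) :
    ∑ q ∈ range (5 * T), tb.Ps.Pr (stB3 h tb v c r A q) ≤ 42 * δ := by
  have h1 : ∑ q ∈ range (5 * T), tb.Ps.Pr (stB3 h tb v c r A q) ≤ ∑ q ∈ range (5 * T),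
      (∑ l, ∑ x, ∑ y ∈ univ.erase x, tb.Ps.Pr (S1O h tb v c (alR tb v Al) e l x y q) +
      ∑ l, tb.Ps.Pr (S3O h tb v (alR tb v Al) r.B r.d l q)) :=
    Finset.sum_le_sum fun q hq => stB3_le hee heB (fun w hw ha hr => hAl q (Finset.mem_range.1 hq) w hw hr ha)
  rw [Finset.sum_add_distrib] at h1
  have h2 : ∑ q ∈ range (5 * T), ∑ l, ∑ x, ∑ y ∈ univ.erase x, tb.Ps.Pr (S1O h tb v c (alR tb v Al) e l x y q) ≤ 36 * δ := by
    rw [Finset.sum_comm]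
    have h3 : ∀ l ∈ (univ : Finset (Fin 3)), ∑ q ∈ range (5 * T), ∑ x, ∑ y ∈ univ.erase x,
        tb.Ps.Pr (S1O h tb v c (alR tb v Al) e l x y q) ≤ 12 * δ := by
      intro l _
      rw [Finset.sum_comm]
      have h4 : ∀ x ∈ (univ : Finset (Fin 3)), ∑ q ∈ range (5 * T), ∑ y ∈ univ.erase x,
          tb.Ps.Pr (S1O h tb v c (alR tb v Al) e l x y q) ≤ 4 * δ := by
        intro x _
        rw [Finset.sum_comm]
        have h5 : ∀ y ∈ univ.erase x, ∑ q ∈ range (5 * T), tb.Ps.Pr (S1O h tb v c (alR tb v Al) e l x y q) ≤ 2 * δ := fun y hy =>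
          s1_sum K.imp he l (Finset.ne_of_mem_erase hy).symm
        refine (Finset.sum_le_sum h5).trans (le_of_eq ?_)
        rw [Finset.sum_const, nsmul_eq_mul]
        have hc : (univ.erase x : Finset (Fin 3)).card = 2 := by
          have key : ∀ x : Fin 3, (univ.erase x : Finset (Fin 3)).card = 2 := by decide
          exact key x
        rw [hc]
        push_cast
        ring
      refine (Finset.sum_le_sum h4).trans (le_of_eq ?_)
      rw [Finset.sum_const, nsmul_eq_mul, Finset.card_univ, Fintype.card_fin]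
      push_cast
      ring
    refine (Finset.sum_le_sum h3).trans (le_of_eq ?_)
    rw [Finset.sum_const, nsmul_eq_mul, Finset.card_univ, Fintype.card_fin]
    push_cast
    ring
  have h3 : ∑ q ∈ range (5 * T), ∑ l, tb.Ps.Pr (S3O h tb v (alR tb v Al) r.B r.d l q) ≤ 6 * δ := by
    rw [Finset.sum_comm, Fin.sum_univ_three, hBB]
    have a0 := s3_sum K.imp hd 0
    have a1 := s3_sum K.imp hd 1
    have a2 := s3_sum K.imp hd 2
    linarith
  linarith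

/-- **THE STRONG SINGLES OF THE THREE TOPS** -/
theorem ss3_sum (he : e3 ≤ e) (hee : e ≤ r.e1) (heB : 1 + e ≤ r.B)
    (hAl : ∀ q < 5 * T, ∀ w, tb.Ps.p w ≠ 0 → rmq tb v q w → aO tb A q w → Al q w) :
    ∑ l, ∑ q ∈ range (5 * T), tb.Ps.Pr (ssB3 h tb v c r A l q) ≤ 36 * δ := by
  have h3 : ∀ l ∈ (univ : Finset (Fin 3)), ∑ q ∈ range (5 * T), tb.Ps.Pr (ssB3 h tb v c r A l q) ≤ 12 * δ := by
    intro l _
    have h0 : ∑ q ∈ range (5 * T), tb.Ps.Pr (ssB3 h tb v c r A l q) ≤ ∑ q ∈ range (5 * T),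
        ∑ x, ∑ y ∈ univ.erase x, tb.Ps.Pr (S1O h tb v c (alR tb v Al) e l x y q) :=
      Finset.sum_le_sum fun q hq => ssB3_le hee heB l (fun w hw ha hr => hAl q (Finset.mem_range.1 hq) w hw hr ha)
    refine h0.trans ?_
    rw [Finset.sum_comm]
    have h4 : ∀ x ∈ (univ : Finset (Fin 3)), ∑ q ∈ range (5 * T), ∑ y ∈ univ.erase x,
        tb.Ps.Pr (S1O h tb v c (alR tb v Al) e l x y q) ≤ 4 * δ := by
      intro x _
      rw [Finset.sum_comm]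
      have h5 : ∀ y ∈ univ.erase x, ∑ q ∈ range (5 * T), tb.Ps.Pr (S1O h tb v c (alR tb v Al) e l x y q) ≤ 2 * δ := fun y hy =>
        s1_sum K.imp he l (Finset.ne_of_mem_erase hy).symm
      refine (Finset.sum_le_sum h5).trans (le_of_eq ?_)
      rw [Finset.sum_const, nsmul_eq_mul]
      have hc : (univ.erase x : Finset (Fin 3)).card = 2 := by
        have key : ∀ x : Fin 3, (univ.erase x : Finset (Fin 3)).card = 2 := by decide
        exact key x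
      rw [hc]
      push_cast
      ring
    refine (Finset.sum_le_sum h4).trans (le_of_eq ?_)
    rw [Finset.sum_const, nsmul_eq_mul, Finset.card_univ, Fintype.card_fin]
    push_cast
    ring
  refine (Finset.sum_le_sum h3).trans (le_of_eq ?_)
  rw [Finset.sum_const, nsmul_eq_mul, Finset.card_univ, Fintype.card_fin]
  push_cast
  ring

variable {bO : Fin 10 → Fin 3 → ℕ → Om W X β → Prop} {zO : Fin 10 → ℕ → Om W X β → Prop}

/-- **THE UNRELEASED TUPLES OF THE REGION (d), THREE TOPS** -/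
theorem ud3_sum {B0 B' E s : ℝ} (hE : 0 < E) (hs : Real.exp c.eS ≤ s)
    (hAl : ∀ q < 5 * T, ∀ w, tb.Ps.p w ≠ 0 → rmq tb v q w → aO tb A q w → Al q w) :
    ∑ q ∈ range (5 * T), tb.Ps.Pr (unO h tb v c B0 A (Rd3 h v B' E e3) bO zO q) ≤
      ∑ i, ∑ q ∈ range (5 * T), tb.Ps.Pr (hdO3 h tb v i A B' (Real.log E) s e3 q) + 6 * δ := by
  have h1 : ∑ q ∈ range (5 * T), tb.Ps.Pr (unO h tb v c B0 A (Rd3 h v B' E e3) bO zO q) ≤ ∑ q ∈ range (5 * T),
      (∑ i, tb.Ps.Pr (hdO3 h tb v i A B' (Real.log E) s e3 q) + ∑ l, tb.Ps.Pr (S2O h tb v c (alR tb v Al) B' e3 l q)) :=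
    Finset.sum_le_sum fun q hq => by
      have hq' := Finset.mem_range.1 hq
      exact unD3_le hE hs (by omega) (fun w hw ha hr => hAl q hq' w hw hr ha)
  rw [Finset.sum_add_distrib, Finset.sum_comm, Finset.sum_comm (s := range (5 * T)) (t := (univ : Finset (Fin 3)))
    (f := fun q l => tb.Ps.Pr (S2O h tb v c (alR tb v Al) B' e3 l q)), Fin.sum_univ_three (f := fun l => ∑ q ∈ range (5 * T),
      tb.Ps.Pr (S2O h tb v c (alR tb v Al) B' e3 l q))] at h1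
  have a0 := s2_sum K.imp B' 0
  have a1 := s2_sum K.imp B' 1
  have a2 := s2_sum K.imp B' 2
  linarith

end three

end

end Pool.Agent.GMH.TRF
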