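import Pool.Agent.GMH.Dyn
import Pool.Agent.GMH.TabF
import Pool.Agent.GMH.RegT
import Pool.Agent.GMH.MVS
import Pool.Agent.GMH.RZ9

/-!
# GMH/SngDef (helper37): KIND S at the EXPENSIVE PUBLIC REMOVALS, definitions (row C9)

`M` = data of the moved part on the space with tables (`RZ.Rp tb v M`).
* `lf F s w` = log probability of the family `F` given all points and the public class; `ps i s` = log ratio of the single of
  the top `i` (`log m_i / q_i`); `SA` = strong and alive;
* `CX i s` = letters of the side opposite to `i` with its top (their points inside), `PX i` its points;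
* `rwX i ν H w u` : the letter of `i` of `u` is related to the side letters of `w` (relation `H`, class of `ν` of `w`);
  `clX` : the side letters of `u` are related to the letter of `i` of `w`;
* `LinR` : linear rarity at every state; `Fre` : masses of the fresh relation at the removals; `RelX` : static relation with
  small exact masses; `exq` : expensive public removal.
-/

set_option autoImplicit false
set_option linter.unusedSectionVars false

namespace Pool.Agent.GMH.Sng

open Finset Pool.Agent.PWZ Pool.Agent.M3 Pool.Agent.GM Pool.Agent.GM.Harm Pool.Agent.GMH Pool.Agent.GMH.TD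
open Pool.Agent.GMH.Dy Pool.Agent.GMH.MV Pool.Agent.GMH.MVI Pool.Agent.GMH.RZ Pool.Agent.GMH.KF

noncomputable section

section abs

variable {Om : Type} [Fintype Om] (M : MS Om)

/-- log probability of the family `F` given all points and the public class -/
def lf (F : Finset (Fin 3) × Finset (Fin 3)) (s : ℕ) (w : Om) : ℝ := lq M.P M.NP (LF M F) (YF M F) s w

/-- **the single of the top `i`** : log ratio of its law given all thin letters and its own law, at the true label -/
def ps (i : Fin 3) (s : ℕ) (w : Om) : ℝ :=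
  lf M (univ, {i}) s w - lf M (univ, ∅) s w - (lf M (univ.erase i, {i}) s w - lf M (univ.erase i, ∅) s w)

/-- alive letters: one thin letter, the side opposite to `i` with its top -/
def alX (X1 : ℝ) (i : Fin 3) (s : ℕ) (w : Om) : Prop :=
  (∀ j, -X1 ≤ lf M ({j}, ∅) s w) ∧ -X1 ≤ lf M (univ.erase i, {i}) s w

/-- strong single (positive or negative), alive -/
def SA (X1 e : ℝ) (i : Fin 3) (s : ℕ) (w : Om) : Prop := e ≤ |ps M i s w| ∧ alX M X1 i s w

open Classical in
/-- letters of the side opposite to `i` with its top -/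
def CX (i : Fin 3) (s : ℕ) (w : Om) : (Fin 3 → Option M.lam) × M.ph :=
  (fun j => if j ≠ i then some (M.XL j s w) else Option.none, M.TF i s w)

open Classical in
/-- points of the side opposite to `i` -/
def PX (i : Fin 3) (w : Om) : Fin 3 → Option M.η := fun j => if j ≠ i then some (M.YP j w) else Option.none

/-- the letter of `i` of `u` is related to the side letters of `w` -/
def rwX (i : Fin 3) (ν : ℕ) (H : Om → Prop) (w u : Om) : Prop :=
  ∃ z, M.P.p z ≠ 0 ∧ M.NP ν z = M.NP ν w ∧ CX M i ν z = CX M i ν w ∧ M.XL i ν z = M.XL i ν u ∧ H z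

/-- the side letters of `u` are related to the letter of `i` of `w` -/
def clX (i : Fin 3) (ν : ℕ) (H : Om → Prop) (w u : Om) : Prop :=
  ∃ z, M.P.p z ≠ 0 ∧ M.NP ν z = M.NP ν w ∧ M.XL i ν z = M.XL i ν w ∧ CX M i ν z = CX M i ν u ∧ H z

/-- **static relation with small exact masses at every state** (`UY` = all points and the public class) -/
structure RelX (i : Fin 3) (p1 X1 : ℝ) (H : ℕ → Om → Prop) : Prop where
  fac : ∀ ν a b, M.P.p a ≠ 0 → M.P.p b ≠ 0 → M.NP ν a = M.NP ν b → CX M i ν a = CX M i ν b → M.XL i ν a = M.XL i ν b →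
    H ν a → H ν b
  row : ∀ ν w, M.P.p w ≠ 0 → H ν w → M.P.ce (AHR.UY M ν) (fun u => ind (rwX M i ν (H ν) w u)) w ≤ p1
  col : ∀ ν w, M.P.p w ≠ 0 → H ν w → M.P.ce (AHR.UY M ν) (fun u => ind (clX M i ν (H ν) w u)) w ≤ p1
  al : ∀ ν w, M.P.p w ≠ 0 → H ν w → alX M X1 i ν w

/-- expensive public removal at the state `q` -/
def exq (L0 : ℝ) (q : ℕ) (w : Om) : Prop :=
  q % 5 = 1 ∧ M.P.m (M.NP (q + 1)) w < Real.exp (-L0) * M.P.m (M.NP q) w

/-- log of the probability of the hidden event which is cut out at the state `q` from the saturated class of `5 (q / 5)` -/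
def LC (q : ℕ) (w : Om) : ℝ := Real.log (M.P.m (M.NP (5 * (q / 5))) w / M.P.m (M.NP q) w)

/-- the same at the end `s + 1` of an epoch, from the saturated class before the step `s` -/
def LE (s : ℕ) (w : Om) : ℝ := Real.log (M.P.m (M.NP (5 * (s / 5))) w / M.P.m (M.NP (s + 1)) w)

/-- **the fresh relation at the states before a public code** (facts of saturation): conditional masses; the digit is not light -/
structure Fre (T : ℕ) (X1 e e0 : ℝ) : Prop where
  row : ∀ i q w, M.P.p w ≠ 0 → q % 5 = 1 → q < 5 * T → LC M q w ≤ X1 → -X1 ≤ lf M (univ.erase i, {i}) q w →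
    M.P.ce (fun u => (CX M i q u, M.NP q u)) (fun u => ind (SA M X1 e i q u)) w ≤ e0
  col : ∀ i q w, M.P.p w ≠ 0 → q % 5 = 1 → q < 5 * T → LC M q w ≤ X1 → -X1 ≤ lf M ({i}, ∅) q w →
    M.P.ce (fun u => (M.XL i q u, M.NP q u)) (fun u => ind (SA M X1 e i q u)) w ≤ e0

/-- **what the points see** : exact masses of letters depend on their own points, the points of one side are independent of the
letters of the other side and of the public value of the code step -/
structure PtI (T : ℕ) : Prop where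
  xd : ∀ i q (A : Om → Prop), Fac (fun u => (M.XL i q u, M.NP q u)) A → ∀ a b, M.P.p a ≠ 0 → M.P.p b ≠ 0 →
    M.YP i a = M.YP i b → M.NP q a = M.NP q b →
    M.P.ce (AHR.UY M q) (fun u => ind (A u)) a = M.P.ce (AHR.UY M q) (fun u => ind (A u)) b
  xc : ∀ i q (A : Om → Prop), Fac (fun u => (CX M i q u, M.NP q u)) A → ∀ a b, M.P.p a ≠ 0 → M.P.p b ≠ 0 →
    PX M i a = PX M i b → M.NP q a = M.NP q b →
    M.P.ce (AHR.UY M q) (fun u => ind (A u)) a = M.P.ce (AHR.UY M q) (fun u => ind (A u)) b
  md : ∀ i q (f g : Om → ℝ), q % 5 = 1 → q < 5 * T → Fac (fun u => (CX M i q u, M.NP (q + 1) u)) f →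
    Fac (fun u => (M.YP i u, M.NP q u)) g → ∀ w, M.P.p w ≠ 0 →
    M.P.ce (M.NP (q + 1)) (fun u => f u * g u) w = M.P.ce (M.NP (q + 1)) f w * M.P.ce (M.NP q) g w
  mc : ∀ i q (f g : Om → ℝ), q % 5 = 1 → q < 5 * T → Fac (fun u => (M.XL i q u, M.NP (q + 1) u)) f →
    Fac (fun u => (PX M i u, M.NP q u)) g → ∀ w, M.P.p w ≠ 0 →
    M.P.ce (M.NP (q + 1)) (fun u => f u * g u) w = M.P.ce (M.NP (q + 1)) f w * M.P.ce (M.NP q) g w

/-- clock of kind S : the public clock, starts only at the states `5 t`, `5 t + 1` -/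
def CS (ν k : ℕ) (w : Om) : Prop := k % 5 ≤ 1 ∧ ν < nu M k w

/-- start of the epoch of kind S -/
def nS : ℕ → Om → ℕ := CK.stg (CS M)

/-- **the static relation of the epochs of kind S** : strong alive single, the exact masses of its row and of its column are
at most `p1` -/
def HS (X1 e p1 : ℝ) (i : Fin 3) (ν : ℕ) (w : Om) : Prop :=
  SA M X1 e i ν w ∧ M.P.ce (AHR.UY M ν) (fun u => ind (rwX M i ν (SA M X1 e i ν) w u)) w ≤ p1 ∧
    M.P.ce (AHR.UY M ν) (fun u => ind (clX M i ν (SA M X1 e i ν) w u)) w ≤ p1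

end abs

section tab

variable {X β γ φ υ : Type} [Fintype X] [Fintype β] [Fintype φ] [Nonempty X] [Nonempty β]
variable {W : Type} [Fintype W] (M : MS (Om W X β))

/-- **linear rarity at the states `5 t`, `5 t + 1`** : `E` an event of the hidden point (and the class), `A` an event of one letter
(`fD`) or of the side letters with alive thin letters (`fC`); `bD`, `bC` : class mass from the mass given the other side -/
structure LinR (T : ℕ) (X1 a b c : ℝ) : Prop where
  fD : ∀ i q (A E : Om W X β → Prop), q % 5 ≤ 1 → q ≤ 5 * T → Fac (fun u => (M.XL i q u, M.NP q u)) A →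
    Fac (fun u : Om W X β => (u.1, M.NP q u)) E → ∀ w, M.P.p w ≠ 0 → 0 < M.P.ce (M.NP q) (fun u => ind (E u)) w →
    M.P.ce (M.NP q) (fun u => ind (E u ∧ A u)) w ≤ M.P.ce (M.NP q) (fun u => ind (E u)) w *
      (a * (Real.log (1 / M.P.ce (M.NP q) (fun u => ind (E u)) w) + (b + LC M q w)) + c * M.P.ce (M.NP q) (fun u => ind (A u)) w)
  fC : ∀ i q (A E : Om W X β → Prop), q % 5 ≤ 1 → q ≤ 5 * T → Fac (fun u => (CX M i q u, M.NP q u)) A →
    (∀ u, M.P.p u ≠ 0 → A u → ∀ j, j ≠ i → -X1 ≤ lf M ({j}, ∅) q u) →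
    Fac (fun u : Om W X β => (u.1, M.NP q u)) E → ∀ w, M.P.p w ≠ 0 → 0 < M.P.ce (M.NP q) (fun u => ind (E u)) w →
    M.P.ce (M.NP q) (fun u => ind (E u ∧ A u)) w ≤ M.P.ce (M.NP q) (fun u => ind (E u)) w *
      (a * (Real.log (1 / M.P.ce (M.NP q) (fun u => ind (E u)) w) + (b + LC M q w)) + c * M.P.ce (M.NP q) (fun u => ind (A u)) w)
  bD : ∀ i q (A : Om W X β → Prop), q % 5 ≤ 1 → q ≤ 5 * T → Fac (fun u => (M.XL i q u, M.NP q u)) A → ∀ w, M.P.p w ≠ 0 →
    -X1 ≤ lf M (univ.erase i, {i}) q w →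
    M.P.ce (M.NP q) (fun u => ind (A u)) w ≤ a * (b + LC M q w) + c * M.P.ce (fun u => (CX M i q u, M.NP q u)) (fun u => ind (A u)) w
  bC : ∀ i q (A : Om W X β → Prop), q % 5 ≤ 1 → q ≤ 5 * T → Fac (fun u => (CX M i q u, M.NP q u)) A →
    (∀ u, M.P.p u ≠ 0 → A u → ∀ j, j ≠ i → -X1 ≤ lf M ({j}, ∅) q u) → ∀ w, M.P.p w ≠ 0 → -X1 ≤ lf M ({i}, ∅) q w →
    M.P.ce (M.NP q) (fun u => ind (A u)) w ≤ a * (b + LC M q w) + c * M.P.ce (fun u => (M.XL i q u, M.NP q u)) (fun u => ind (A u)) w

end tab

end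

end Pool.Agent.GMH.Sng
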