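import Pool.Agent.GMH.SngG1

/-!
# GMH/SngJ (helper80): the missing letter between any two states of a step (kind `S`, part G1)

Law of the time `t`, states `5 t ≤ q < 5 t + 5`, `q ≤ e ≤ 5 t + 5`, top `i`; alive pairs of letters at the state `e`.
* `Ev`, `Ew` : what the top `i` sees at a state = an event known at exact points with the cells of the state;
* `misq` : the letter of the vertex `i`, cells of two states;
* `sp_Ce` : the public letter of the state `e` at exact points; `sp_TQe` : the top and the thin labels, from the pair;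
* **`mis_run2`** : `P (A, B < tF i) ≤ 96 √((Lz + X1 + Lam + 1) / N1) P (A)`.
-/

set_option autoImplicit false
set_option linter.unusedSectionVars false

namespace Pool.Agent.GMH.SngA

open Finset Pool.Agent.PWZ Pool.Agent.M3 Pool.Agent.GM Pool.Agent.GM.Harm Pool.Agent.GMH Pool.Agent.GMH.RarX

section cls

variable {K X β γ φ υ : Type} [Fintype K] [DecidableEq K] [Fintype X] [Fintype β] [Fintype φ] [Nonempty X] [Nonempty β]
  {D : HD K X β γ φ} {al : ℝ} {h : D.Thick al} {N : Finset K → ℝ} {S : Finset (Finset K)}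
  {U : Finset K → X → (K → β) → υ} {t s1 s2 : ℕ} {b c d : K} {w0 : Pt K X β φ} {V V1 V2 V3 : Pt K X β φ → Prop}
  {L : ℝ} {I : Finset K}

/-- law of the letter with the cells of the time `s` -/
theorem lw_VH (B : Bk h N S U t b c d) (J : Ix h U t I w0 V) (hIc : ∀ j, j ≠ c → j ∈ I) (hcI : c ∉ I) (s : ℕ)
    (z : β × υ) : lw ((D.P h t).cond (VH D s univ w0 V)) (zf U c) z =
      ind (D.qb s z.1 = D.qb s (w0.2.1 c)) * lw ((D.P h t).cond V) (zf U c) z / (QX h U t I w0).Pr (HC D s w0) := by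
  have h0 := hc_eq (t' := s) B J hIc hcI
  have h1 := VH_Pr (t' := s) (Jc := univ) J (fun v => zf U c v = z)
  rw [HJ_univ, h0] at h1
  have h2 : lw ((D.P h t).cond (VH D s univ w0 V)) (zf U c) z =
    ((D.P h t).cond (VH D s univ w0 V)).Pr (fun v => zf U c v = z) := rfl
  rw [h2, h1]
  congr 1
  have h3 : lw ((D.P h t).cond V) (zf U c) z = ((D.P h t).cond V).Pr (fun v => zf U c v = z) := rfl
  rw [h3]
  unfold FP.Pr
  rw [← FP.E_smul]
  refine FP.E_congr _ fun v hv => ?_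
  obtain ⟨hv1, hv2⟩ := cond_supp J.ne hv
  have hx := (J.sub v hv1).2
  rw [BB_eq] at hx
  rw [← ind_and]
  refine congrArg ind (propext ⟨fun hh => ⟨?_, hh.2⟩, fun hh => ⟨fun j => ?_, hh.2⟩⟩)
  · have h4 : v.2.1 c = z.1 := congrArg Prod.fst hh.2
    rw [← h4]
    exact hh.1 c
  · by_cases hj : j = c
    · have h4 : v.2.1 c = z.1 := congrArg Prod.fst hh.2
      rw [hj, h4]
      exact hh.1
    · rw [hx.1 j (hIc j hj)]

theorem cell_one (w0 : Pt K X β φ) (s : ℕ) : (QX h U t I w0).Pr (HC D s w0) ≤ 1 := FP.Pr_le_one _ _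

/-- law of the letter inside the event, from the law in the class -/
theorem l1_0 (B : Bk h N S U t b c d) (J : Ix h U t I w0 V) (hcI : c ∉ I) (hL : LX h U t I w0 V ≤ L) :
    ∑ z ∈ vals (zf (φ := φ) U c), |lw ((D.P h t).cond V) (zf U c) z - lw (QX h U t I w0) (zf U c) z| ≤
      Real.sqrt (2 * kI N c L) := by
  have h2 := J.kl_le B hcI hL
  exact (V3.l1_kl J.acX (zf U c)).trans (Real.sqrt_le_sqrt (by linarith))

/-- **THE LETTER WITH THE CELLS OF TWO STATES** -/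
theorem misq (B : Bk h N S U t b c d) (J1 : Ix h U t I w0 V1) (J2 : Ix h U t I w0 V2) (J3 : Ix h U t I w0 V3)
    (hIc : ∀ j, j ≠ c → j ∈ I) (hcI : c ∉ I) (h1 : LX h U t I w0 V1 ≤ L) (h2 : LX h U t I w0 V2 ≤ L)
    (h3 : LX h U t I w0 V3 ≤ L) (hs1 : 1 / 2 ≤ (QX h U t I w0).Pr (HC D s1 w0))
    (hs2 : (QX h U t I w0).Pr (HC D s2 w0) ≠ 0) (hss : ∀ y, D.qb s1 y = D.qb s1 (w0.2.1 c) → D.qb s2 y = D.qb s2 (w0.2.1 c)) :
    ((D.P h t).cond (VH D s1 univ w0 V3)).Pr (fun w =>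
      4 * ((D.P h t).cond (VH D s2 univ w0 V2)).m (zf U c) w < ((D.P h t).cond (VH D s1 univ w0 V1)).m (zf U c) w) ≤
      12 * Real.sqrt (2 * kI N c L) := by
  set θ1 := (QX h U t I w0).Pr (HC D s1 w0) with hθ1
  set θ2 := (QX h U t I w0).Pr (HC D s2 w0) with hθ2
  have p1 : 0 < θ1 := lt_of_lt_of_le (by norm_num) hs1
  have p2 : 0 < θ2 := lt_of_le_of_ne (FP.Pr_nonneg _ _) hs2.symm
  have u2 : θ2 ≤ 1 := FP.Pr_le_one _ _
  have e := Pr_lw ((D.P h t).cond (VH D s1 univ w0 V3)) (zf U c) (fun z =>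
    4 * lw ((D.P h t).cond (VH D s2 univ w0 V2)) (zf U c) z < lw ((D.P h t).cond (VH D s1 univ w0 V1)) (zf U c) z)
  refine le_trans (le_of_eq e) ?_
  have key : ∀ z ∈ vals (zf (φ := φ) U c), ind (4 * lw ((D.P h t).cond (VH D s2 univ w0 V2)) (zf U c) z <
      lw ((D.P h t).cond (VH D s1 univ w0 V1)) (zf U c) z) * lw ((D.P h t).cond (VH D s1 univ w0 V3)) (zf U c) z ≤
      2 * (ind (2 * lw ((D.P h t).cond V2) (zf U c) z < lw ((D.P h t).cond V1) (zf U c) z) *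
        lw ((D.P h t).cond V3) (zf U c) z) := by
    intro z _
    rw [lw_VH B J1 hIc hcI s1 z, lw_VH B J2 hIc hcI s2 z, lw_VH B J3 hIc hcI s1 z, ← hθ1, ← hθ2]
    have n1 := lw_nonneg ((D.P h t).cond V1) (zf U c) z
    have n2 := lw_nonneg ((D.P h t).cond V2) (zf U c) z
    have n3 := lw_nonneg ((D.P h t).cond V3) (zf U c) z
    by_cases hz : D.qb s1 z.1 = D.qb s1 (w0.2.1 c)
    · rw [ind_of hz, ind_of (hss _ hz), one_mul, one_mul, one_mul]
      by_cases hh : 4 * (lw ((D.P h t).cond V2) (zf U c) z / θ2) < lw ((D.P h t).cond V1) (zf U c) z / θ1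
      · have hh2 : 2 * lw ((D.P h t).cond V2) (zf U c) z < lw ((D.P h t).cond V1) (zf U c) z := by
          rw [lt_div_iff₀ p1] at hh
          have a1 : lw ((D.P h t).cond V2) (zf U c) z ≤ lw ((D.P h t).cond V2) (zf U c) z / θ2 := by
            rw [le_div_iff₀ p2]
            exact mul_le_of_le_one_right n2 u2
          have a2 : 2 * lw ((D.P h t).cond V2) (zf U c) z ≤ 4 * (lw ((D.P h t).cond V2) (zf U c) z / θ2) * θ1 := by
            have a3 : 0 ≤ lw ((D.P h t).cond V2) (zf U c) z / θ2 := div_nonneg n2 p2.le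
            nlinarith
          linarith
        rw [ind_of hh, ind_of hh2, one_mul, one_mul, div_le_iff₀ p1]
        nlinarith
      · rw [ind_not hh, zero_mul]
        exact mul_nonneg zero_le_two (mul_nonneg (ind_nonneg _) n3)
    · rw [ind_not hz]
      simp only [zero_mul, zero_div, mul_zero]
      exact mul_nonneg zero_le_two (mul_nonneg (ind_nonneg _) n3)
  refine (Finset.sum_le_sum key).trans ?_
  rw [← Finset.mul_sum]
  have k2 := three_M (vals (zf U c)) (R := fun z => lw (QX h U t I w0) (zf U c) z)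
    (l1_0 B J1 hcI h1) (l1_0 B J2 hcI h2) (l1_0 B J3 hcI h3)
  linarith

end cls

end Pool.Agent.GMH.SngA

namespace Pool.Agent.GMH.TP

open Finset Pool.Agent.PWZ Pool.Agent.M3 Pool.Agent.GM Pool.Agent.GM.Harm Pool.Agent.GMH Pool.Agent.GMH.NZ
open Pool.Agent.GMH.V3

noncomputable section

namespace SngG

section run

variable {X β γ φ : Type} [Fintype X] [Fintype β] [Fintype φ] [Nonempty X] [Nonempty β]
variable {D : HD (Fin 3) X β γ φ} {al : ℝ} {h : D.Thick al} {v : ℕ → Finset (Fin 3) → X → (Fin 3 → β) → Pt (Fin 3) X β φ}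
variable {t q e : ℕ} {i j k : Fin 3} {w0 : Pt (Fin 3) X β φ}

/-- hidden event of the state `q`, at the points of `w` -/
def hE (D : HD (Fin 3) X β γ φ) (v : ℕ → Finset (Fin 3) → X → (Fin 3 → β) → Pt (Fin 3) X β φ) (q : ℕ) (i : Fin 3)
    (w u : Pt (Fin 3) X β φ) : Prop :=
  D.qa (nn q) u.1 = D.qa (nn q) w.1 ∧ Um v (nc q ∅) ∅ u.1 w.2.1 = Um v (nc q ∅) ∅ w.1 w.2.1 ∧
    ∀ l, l ≠ i → Um v (nc q {l}) {l} u.1 w.2.1 = Um v (nc q {l}) {l} w.1 w.2.1

/-- the event of the thin labels of the state `q` -/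
def Ev (D : HD (Fin 3) X β γ φ) (v : ℕ → Finset (Fin 3) → X → (Fin 3 → β) → Pt (Fin 3) X β φ) (t q : ℕ) (i : Fin 3)
    (w u : Pt (Fin 3) X β φ) : Prop :=
  xc D (Um v (t + 1)) t (univ.erase i) w u ∧ hE D v q i w u

/-- the event of the thin labels and the top -/
def Ew (D : HD (Fin 3) X β γ φ) (v : ℕ → Finset (Fin 3) → X → (Fin 3 → β) → Pt (Fin 3) X β φ) (t q : ℕ) (i : Fin 3)
    (w u : Pt (Fin 3) X β φ) : Prop :=
  Ev D v t q i w u ∧ (Um v (t + 1) (univ.erase i) u.1 w.2.1 = Um v (t + 1) (univ.erase i) w.1 w.2.1 ∧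
    u.2.2 i = w.2.2 i)

theorem nc_ge (hq : 5 * t ≤ q) {J : Finset (Fin 3)} (hJ : pth J) : t + 1 ≤ nc q J := by
  have h1 := nc_mono hq hJ
  have h2 := nc_add t 0 hJ (by omega)
  rw [add_zero] at h2
  rw [h2] at h1
  unfold ncj at h1
  omega

theorem nn_ge (hq : 5 * t ≤ q) : t ≤ nn q := by
  have h1 := nn_mono hq
  rwa [nn_0] at h1

theorem Ev_iff (hv : Codes D v) (hq : 5 * t ≤ q) (w u : Pt (Fin 3) X β φ) :
    SngA.VH D (nn q) univ w (Ev D v t q i w) u ↔ ZbQ D v q i u = ZbQ D v q i w := by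
  rw [Zb_iff]
  constructor
  · rintro ⟨⟨⟨h2, h3⟩, h4, h5, h6⟩, h7⟩
    rw [BB_eq] at h3
    have hc : ∀ l, D.qb (nn q) (u.2.1 l) = D.qb (nn q) (w.2.1 l) := fun l => h7 l (mem_univ l)
    have hy : ∀ l, l ≠ i → u.2.1 l = w.2.1 l := fun l hl => h3.1 l (Finset.mem_erase.2 ⟨hl, mem_univ l⟩)
    refine ⟨hy, Prod.ext h4 (funext hc), ?_, fun l hl => ?_⟩
    · rw [Um_codes hv (n := nn q) (nc_le q ∅) ∅ u.1 (y := u.2.1) (y' := w.2.1)
        (fun j hj => absurd hj (Finset.notMem_empty j)) hc]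
      exact h5
    · rw [Um_codes hv (n := nn q) (nc_le q {l}) {l} u.1 (y := u.2.1) (y' := w.2.1)
        (fun j hj => by rw [Finset.mem_singleton.1 hj]; exact hy l hl) hc]
      exact h6 l hl
  · rintro ⟨hy, hn', g0, g1⟩
    have hc : ∀ l, D.qb (nn q) (u.2.1 l) = D.qb (nn q) (w.2.1 l) := fun l => congrFun (congrArg Prod.snd hn') l
    have hnt := nd_older (nn_ge hq) hn'
    refine ⟨⟨⟨?_, ?_⟩, congrArg Prod.fst hn', ?_, fun l hl => ?_⟩, fun l _ => hc l⟩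
    · rw [le_eq]
      intro J hJ
      rw [Finset.subset_empty.1 hJ, TriB.LL_thin pth0]
      exact Um_older (nc_ge hq pth0) g0
    · rw [BB_eq]
      exact ⟨fun l hl => hy l (Finset.mem_erase.1 hl).1, congrArg Prod.fst hnt,
        fun l => congrFun (congrArg Prod.snd hnt) l⟩
    · rw [← Um_codes hv (n := nn q) (nc_le q ∅) ∅ u.1 (y := u.2.1) (y' := w.2.1)
        (fun j hj => absurd hj (Finset.notMem_empty j)) hc]
      exact g0
    · rw [← Um_codes hv (n := nn q) (nc_le q {l}) {l} u.1 (y := u.2.1) (y' := w.2.1)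
        (fun j hj => by rw [Finset.mem_singleton.1 hj]; exact hy l hl) hc]
      exact g1 l hl

/-- the top of a point of the class -/
theorem top_at (hv : Codes D v) (hq : 5 * t ≤ q) {w u : Pt (Fin 3) X β φ} (hz : ZbQ D v q i u = ZbQ D v q i w) :
    Um v (t + 1) (univ.erase i) u.1 u.2.1 = Um v (t + 1) (univ.erase i) u.1 w.2.1 := by
  have h2 := Zb_iff.1 hz
  refine Um_codes hv (n := t) (le_refl _) (univ.erase i) u.1 (y := u.2.1) (y' := w.2.1)
      (fun j hj => h2.1 j (Finset.mem_erase.1 hj).1) fun l => ?_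
  have h3 := nd_older (nn_ge hq) h2.2.1
  exact congrFun (congrArg Prod.snd h3) l

theorem Ew_iff (hv : Codes D v) (hq : 5 * t ≤ q) (w u : Pt (Fin 3) X β φ) :
    SngA.VH D (nn q) univ w (Ew D v t q i w) u ↔ (FQ v t i u, ZbQ D v q i u) = (FQ v t i w, ZbQ D v q i w) := by
  have hb := Ev_iff (i := i) hv hq w u
  have key : SngA.VH D (nn q) univ w (Ew D v t q i w) u ↔ SngA.VH D (nn q) univ w (Ev D v t q i w) u ∧
      (Um v (t + 1) (univ.erase i) u.1 w.2.1 = Um v (t + 1) (univ.erase i) w.1 w.2.1 ∧ u.2.2 i = w.2.2 i) := by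
    unfold SngA.VH Ew
    tauto
  have hp : (FQ v t i u, ZbQ D v q i u) = (FQ v t i w, ZbQ D v q i w) ↔
      ((Um v (t + 1) (univ.erase i) u.1 u.2.1 = Um v (t + 1) (univ.erase i) w.1 w.2.1 ∧ u.2.2 i = w.2.2 i) ∧
        ZbQ D v q i u = ZbQ D v q i w) := pair_iff.trans (and_congr_left fun _ => FQ_iff)
  rw [key, hb, hp]
  constructor
  · rintro ⟨h1, h2, h3⟩
    exact ⟨⟨(top_at hv hq h1).trans h2, h3⟩, h1⟩
  · rintro ⟨⟨h2, h3⟩, h1⟩
    exact ⟨h1, (top_at hv hq h1).symm.trans h2, h3⟩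

theorem Ev_ix {N : Finset (Fin 3) → ℝ} {S : Finset (Finset (Fin 3))} (B : Bk h N S (Um v (t + 1)) t j i k) (q : ℕ)
    {w : Pt (Fin 3) X β φ} (hw : (D.P h t).p w ≠ 0) :
    SngA.Ix h (Um v (t + 1)) t (univ.erase i) w (Ev D v t q i w) where
  ev := by
    intro a e hae
    simp only [Prod.mk.injEq] at hae
    have h1 := xc_fac (U := Um v (t + 1)) (univ.erase i) w B.dep B.era a e (Prod.ext hae.1 hae.2.1)
    show (_ ∧ _) = (_ ∧ _)
    unfold hE
    rw [h1, hae.1]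
  self := ⟨xc_self _ _ _ w, rfl, rfl, fun _ _ => rfl⟩
  supp := hw
  sub := fun _ hh => hh.1

theorem Ew_ix {N : Finset (Fin 3) → ℝ} {S : Finset (Finset (Fin 3))} (B : Bk h N S (Um v (t + 1)) t j i k) (q : ℕ)
    {w : Pt (Fin 3) X β φ} (hw : (D.P h t).p w ≠ 0) :
    SngA.Ix h (Um v (t + 1)) t (univ.erase i) w (Ew D v t q i w) where
  ev := by
    intro a e hae
    have h1 := (Ev_ix B q hw).ev a e hae
    simp only [Prod.mk.injEq] at hae
    obtain ⟨g1, g2, g3⟩ := hae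
    have h3 := congrFun g3 i
    unfold tl at h3
    have hji : ∃ l ∈ (univ.erase i : Finset (Fin 3)), l ≠ i := ⟨j, Finset.mem_erase.2 ⟨B.bc, mem_univ j⟩, B.bc⟩
    rw [if_pos ⟨Finset.Subset.refl _, hji⟩, if_pos ⟨Finset.Subset.refl _, hji⟩] at h3
    have h4 := Option.some.inj h3
    show (_ ∧ _) = (_ ∧ _)
    rw [h1, g1, h4]
  self := ⟨(Ev_ix B q hw).self, rfl, rfl⟩
  supp := hw
  sub := fun _ hh => hh.1.1

theorem hE_mono {w u : Pt (Fin 3) X β φ} (hqe : q ≤ e) (hh : hE D v e i w u) : hE D v q i w u := by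
  obtain ⟨g2, g3, g4⟩ := hh
  refine ⟨qa_mono D (nn_mono hqe) g2, ?_, fun l hl => ?_⟩
  · exact Um_older (a := (u.1, w.2)) (b := w) (nc_mono hqe pth0) g3
  · exact Um_older (a := (u.1, w.2)) (b := w) (nc_mono hqe (pth1 l)) (g4 l hl)

/-- public letter of the state `q` and the points other than `i` -/
def Ce (D : HD (Fin 3) X β γ φ) (v : ℕ → Finset (Fin 3) → X → (Fin 3 → β) → Pt (Fin 3) X β φ) (q : ℕ) (i : Fin 3)
    (w : Pt (Fin 3) X β φ) : (Fin 3 → Option β) × (List (Pt (Fin 3) X β φ) × (γ × (Fin 3 → γ))) :=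
  (fun l => if l = i then Option.none else some (w.2.1 l), NPq D v q w)

theorem Ce_iff {a e' : Pt (Fin 3) X β φ} : Ce D v q i a = Ce D v q i e' ↔
    (∀ l, l ≠ i → a.2.1 l = e'.2.1 l) ∧ NPq D v q a = NPq D v q e' := by
  unfold Ce
  rw [pair_iff]
  refine and_congr_left fun _ => ⟨fun hh l hl => ?_, fun hh => funext fun l => ?_⟩
  · have h1 := congrFun hh l
    rw [if_neg hl, if_neg hl] at h1
    exact Option.some.inj h1
  · by_cases hl : l = i
    · rw [if_pos hl, if_pos hl]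
    · rw [if_neg hl, if_neg hl, hh l hl]

theorem NPq_iff {a e' : Pt (Fin 3) X β φ} : NPq D v q a = NPq D v q e' ↔
    Um v (nc q ∅) ∅ a.1 a.2.1 = Um v (nc q ∅) ∅ e'.1 e'.2.1 ∧ nd D (nn q) a = nd D (nn q) e' := by
  unfold NPq NP
  exact pair_iff

theorem NPq_old (hqe : q ≤ e) : Fac (NPq (φ := φ) D v e) (NPq D v q) := by
  intro a b hab
  obtain ⟨h1, h2⟩ := NPq_iff.1 hab
  exact NPq_iff.2 ⟨Um_older (nc_mono hqe pth0) h1, nd_older (nn_mono hqe) h2⟩

theorem Ce_old (hqe : q ≤ e) : Fac (Ce (φ := φ) D v e i) (Ce D v q i) := by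
  intro a b hab
  obtain ⟨h1, h2⟩ := Ce_iff.1 hab
  exact Ce_iff.2 ⟨h1, NPq_old hqe a b h2⟩

theorem Zb_Ce (q : ℕ) (i : Fin 3) : Fac (ZbQ (φ := φ) D v q i) (Ce D v q i) := by
  intro a b hab
  obtain ⟨h1, h2, h3, -⟩ := Zb_iff.1 hab
  exact Ce_iff.2 ⟨h1, NPq_iff.2 ⟨h3, h2⟩⟩

theorem Ce_0 {a e' : Pt (Fin 3) X β φ} : Ce D v (5 * t) i a = Ce D v (5 * t) i e' ↔
    xc D (Um v (t + 1)) t (univ.erase i) e' a := by
  rw [Ce_iff, NP_0]
  unfold xc
  rw [le_eq, BB_eq]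
  constructor
  · rintro ⟨g1, g2, g3⟩
    refine ⟨fun J hJ => ?_, fun l hl => g1 l (Finset.mem_erase.1 hl).1, congrArg Prod.fst g3,
      fun l => congrFun (congrArg Prod.snd g3) l⟩
    rw [Finset.subset_empty.1 hJ, TriB.LL_thin pth0]
    exact g2
  · rintro ⟨g1, g2, g3, g4⟩
    exact ⟨fun l hl => g2 l (Finset.mem_erase.2 ⟨hl, mem_univ l⟩), (TriB.LL_thin pth0).1 (g1 ∅ (Finset.Subset.refl _)),
      Prod.ext g3 (funext g4)⟩

/-- the cells of a state have mass at least `1 / 2`, all points exact up to `i` -/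
theorem cell_ge {dg : ℕ → X → ℝ} {prr : ℕ → Fin 3 → φ → φ} {T : ℕ} {Lam : ℝ} (H : D.Hyp dg prr al T Lam)
    {N : Finset (Fin 3) → ℝ} {S : Finset (Finset (Fin 3))} (B : Bk h N S (Um v (t + 1)) t j i k) (ht : t < T)
    (hq : 5 * t ≤ q) (hq5 : q ≤ 5 * t + 5) {w : Pt (Fin 3) X β φ} (hw : (D.P h t).p w ≠ 0) :
    1 / 2 ≤ (SngA.QX h (Um v (t + 1)) t (univ.erase i) w).Pr (SngA.HC D (nn q) w) := by
  have hn : nn q = t ∨ nn q = t + 1 := by
    have h1 := nn_ge hq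
    have h2 := nn_mono hq5
    rw [TriB.nn_5] at h2
    omega
  have hIc : ∀ l, l ≠ i → l ∈ (univ.erase i : Finset (Fin 3)) := fun l hl => Finset.mem_erase.2 ⟨hl, mem_univ l⟩
  have hiI : i ∉ (univ.erase i : Finset (Fin 3)) := Finset.notMem_erase i univ
  rcases hn with h1 | h1
  · rw [h1]
    refine SngA.hc_half (t' := t) le_rfl (fun y => ?_) B hw hIc hiI
    have : (0 : ℝ) ≤ ((D.cB t y).card : ℝ) := Nat.cast_nonneg _
    linarith
  · rw [h1]
    refine SngA.hc_half (t' := t + 1) (Nat.le_succ t) (fun y => ?_) B hw hIc hiI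
    rcases H.half t ht with h1 | h1
    · rw [h1 y]
      have : (0 : ℝ) ≤ ((D.cB t y).card : ℝ) := Nat.cast_nonneg _
      linarith
    · rw [← h1 y]
      push_cast
      exact le_rfl


/-! ### the surprise of the later public letter -/

/-- hidden event of the public letter of the state `e` -/
def hQ (D : HD (Fin 3) X β γ φ) (v : ℕ → Finset (Fin 3) → X → (Fin 3 → β) → Pt (Fin 3) X β φ) (e : ℕ)
    (w u : Pt (Fin 3) X β φ) : Prop :=
  D.qa (nn e) u.1 = D.qa (nn e) w.1 ∧ Um v (nc e ∅) ∅ u.1 w.2.1 = Um v (nc e ∅) ∅ w.1 w.2.1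

theorem hQ_ix {N : Finset (Fin 3) → ℝ} {S : Finset (Finset (Fin 3))} (B : Bk h N S (Um v (t + 1)) t j i k) (e : ℕ)
    (I : Finset (Fin 3)) {w : Pt (Fin 3) X β φ} (hw : (D.P h t).p w ≠ 0) :
    SngA.Ix h (Um v (t + 1)) t I w (fun u => xc D (Um v (t + 1)) t I w u ∧ hQ D v e w u) where
  ev := by
    intro a b hab
    simp only [Prod.mk.injEq] at hab
    have h1 := xc_fac (U := Um v (t + 1)) I w B.dep B.era a b (Prod.ext hab.1 hab.2.1)
    show (_ ∧ _) = (_ ∧ _)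
    unfold hQ
    rw [h1, hab.1]
  self := ⟨xc_self _ _ _ w, rfl, rfl⟩
  supp := hw
  sub := fun _ hh => hh.1

/-- the public letter in the class = the hidden event and the cells -/
theorem NP_hQ (hv : Codes D v) (w u : Pt (Fin 3) X β φ) : NPq D v e u = NPq D v e w ↔
    hQ D v e w u ∧ SngA.HC D (nn e) w u := by
  rw [NPq_iff]
  constructor
  · rintro ⟨g1, g2⟩
    have hc : ∀ l, D.qb (nn e) (u.2.1 l) = D.qb (nn e) (w.2.1 l) := fun l => congrFun (congrArg Prod.snd g2) l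
    refine ⟨⟨congrArg Prod.fst g2, ?_⟩, hc⟩
    rw [← Um_codes hv (n := nn e) (nc_le e ∅) ∅ u.1 (y := u.2.1) (y' := w.2.1)
      (fun j hj => absurd hj (Finset.notMem_empty j)) hc]
    exact g1
  · rintro ⟨⟨g2, g3⟩, g4⟩
    refine ⟨?_, Prod.ext g2 (funext g4)⟩
    rw [Um_codes hv (n := nn e) (nc_le e ∅) ∅ u.1 (y := u.2.1) (y' := w.2.1)
      (fun j hj => absurd hj (Finset.notMem_empty j)) g4]
    exact g3

/-- **THE LATER PUBLIC LETTER AT EXACT POINTS** -/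
theorem sp_Ce {dg : ℕ → X → ℝ} {prr : ℕ → Fin 3 → φ → φ} {T : ℕ} {Lam : ℝ} (H : D.Hyp dg prr al T Lam) (hv : Codes D v)
    {N : Finset (Fin 3) → ℝ} {S : Finset (Finset (Fin 3))} (B : Bk h N S (Um v (t + 1)) t j i k) (ht : t < T)
    (he0 : 5 * t ≤ e) (he : e ≤ 5 * t + 5) {w : Pt (Fin 3) X β φ} (hw : (D.P h t).p w ≠ 0) :
    sp (D.P h t) (Ce D v e i) (Ce D v (5 * t) i) w ≤
      Real.log 2 + sp (D.P h t) (NPq D v e) (NPq D v (5 * t)) w := by
  set P := D.P h t with hP'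
  set U := Um v (t + 1) with hU
  set I : Finset (Fin 3) := univ.erase i with hI
  have m0 : 0 < P.m (Ce D v (5 * t) i) w := P.m_pos _ hw
  have m1 : 0 < P.m (Ce D v e i) w := P.m_pos _ hw
  have n0 : 0 < P.m (NPq D v (5 * t)) w := P.m_pos _ hw
  have n1 : 0 < P.m (NPq D v e) w := P.m_pos _ hw
  have JI := hQ_ix B e I hw
  have e0 : P.Pr (xc D U t I w) = P.m (Ce D v (5 * t) i) w := P.E_congr fun u _ => congrArg ind (propext Ce_0.symm)
  have hIc : ∀ l, l ≠ i → l ∈ I := fun l hl => Finset.mem_erase.2 ⟨hl, mem_univ l⟩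
  have hiI : i ∉ I := Finset.notMem_erase i univ
  have e1 : P.m (Ce D v e i) w =
      P.Pr (fun u => (xc D U t I w u ∧ hQ D v e w u) ∧ SngA.HC D (nn e) w u) := by
    refine P.E_congr fun u _ => congrArg ind (propext ?_)
    constructor
    · intro hh
      have h1 := (NP_hQ hv w u).1 (Ce_iff.1 hh).2
      exact ⟨⟨Ce_0.1 (Ce_old he0 u w hh), h1.1⟩, h1.2⟩
    · rintro ⟨⟨g1, g2⟩, g4⟩
      exact Ce_iff.2 ⟨(Ce_iff.1 (Ce_0.2 g1)).1, (NP_hQ hv w u).2 ⟨g2, g4⟩⟩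
  have e2 : P.Pr (fun u => (xc D U t I w u ∧ hQ D v e w u) ∧ SngA.HC D (nn e) w u) =
      P.Pr (fun u => xc D U t I w u ∧ hQ D v e w u) *
        (P.cond fun u => xc D U t I w u ∧ hQ D v e w u).Pr (SngA.HC D (nn e) w) := by
    show _ = _ * (P.cond fun u => xc D U t I w u ∧ hQ D v e w u).E (fun u => ind (SngA.HC D (nn e) w u))
    rw [FP.cond_E JI.ne, mul_div_cancel₀ _ JI.ne]
    exact P.E_congr fun u _ => ind_and _ _
  have e3 : 1 / 2 ≤ (P.cond fun u => xc D U t I w u ∧ hQ D v e w u).Pr (SngA.HC D (nn e) w) := by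
    have h1 := SngA.hc_eq (t' := nn e) B JI hIc hiI
    exact (cell_ge H B ht he0 he hw).trans (le_of_eq h1.symm)
  have e4 : P.Pr (fun u => xc D U t I w u ∧ hQ D v e w u) =
      P.m (Ce D v (5 * t) i) w * (SngA.QX h U t I w).Pr (hQ D v e w) := by
    rw [← e0]
    show _ = _ * ((D.P h t).cond (xc D U t I w)).E (fun u => ind (hQ D v e w u))
    rw [FP.cond_E (xc_ne hw), mul_div_cancel₀ _ (xc_ne hw)]
    exact P.E_congr fun u _ => ind_and _ _
  have e5 : (SngA.QX h U t I w).Pr (hQ D v e w) = (SngA.QX h U t ∅ w).Pr (hQ D v e w) := by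
    have p1 := SngA.Ix.pr_pt B (hQ_ix B e ∅ hw) (fun l => B.era l) j
    have p2 := SngA.Ix.pr_pt B (hQ_ix B e {j} hw) (er_no j) k
    have q0 := QX_and (v := v) ∅ hw (hQ D v e w)
    have q1 := QX_and (v := v) {j} hw (hQ D v e w)
    rw [er_ins B.bc B.bd B.cd] at p2
    have p2' : (SngA.QX h U t I w).Pr (fun u => xc D U t {j} w u ∧ hQ D v e w u) =
        (SngA.QX h U t {j} w).Pr (fun u => xc D U t {j} w u ∧ hQ D v e w u) := p2
    have p1' : (SngA.QX h U t {j} w).Pr (fun u => xc D U t ∅ w u ∧ hQ D v e w u) =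
        (SngA.QX h U t ∅ w).Pr (fun u => xc D U t ∅ w u ∧ hQ D v e w u) := p1
    have r1 : (SngA.QX h U t I w).Pr (fun u => xc D U t {j} w u ∧ hQ D v e w u) =
        (SngA.QX h U t I w).Pr (hQ D v e w) := by
      refine FP.E_congr _ fun u hu => congrArg ind (propext ⟨fun hh => hh.2, fun hh => ⟨?_, hh⟩⟩)
      have h1 := SngA.QX_supp hw hu
      refine ⟨h1.1, ?_⟩
      have h2 := h1.2
      rw [BB_eq] at h2 ⊢
      exact ⟨fun l hl => h2.1 l (by rw [Finset.mem_singleton.1 hl]; exact hIc j B.bc), h2.2⟩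
    have r0 : (SngA.QX h U t {j} w).Pr (fun u => xc D U t ∅ w u ∧ hQ D v e w u) =
        (SngA.QX h U t {j} w).Pr (hQ D v e w) := by
      refine FP.E_congr _ fun u hu => congrArg ind (propext ⟨fun hh => hh.2, fun hh => ⟨?_, hh⟩⟩)
      have h1 := SngA.QX_supp hw hu
      refine ⟨h1.1, ?_⟩
      have h2 := h1.2
      rw [BB_eq] at h2 ⊢
      exact ⟨fun l hl => absurd hl (Finset.notMem_empty l), h2.2⟩
    rw [← r1, p2', q1, ← r0, p1', q0]
  have e6 : P.m (NPq D v e) w / P.m (NPq D v (5 * t)) w ≤ (SngA.QX h U t ∅ w).Pr (hQ D v e w) := by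
    show _ ≤ ((D.P h t).cond (xc D U t ∅ w)).E (fun u => ind (hQ D v e w u))
    rw [FP.cond_E (xc_ne hw)]
    have gx : ∀ u : Pt (Fin 3) X β φ, xc D U t ∅ w u ↔ NPq D v (5 * t) u = NPq D v (5 * t) w := by
      intro u
      rw [NP_0]
      unfold xc
      rw [le_eq, BB_eq]
      constructor
      · rintro ⟨g1, g2, g3, g4⟩
        exact ⟨(TriB.LL_thin pth0).1 (g1 ∅ (Finset.Subset.refl _)), Prod.ext g3 (funext g4)⟩
      · rintro ⟨g1, g2⟩
        refine ⟨fun J hJ => ?_, fun l hl => absurd hl (Finset.notMem_empty l), congrArg Prod.fst g2,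
          fun l => congrFun (congrArg Prod.snd g2) l⟩
        rw [Finset.subset_empty.1 hJ, TriB.LL_thin pth0]
        exact g1
    have g0 : (D.P h t).Pr (xc D U t ∅ w) = P.m (NPq D v (5 * t)) w :=
      P.E_congr fun u _ => congrArg ind (propext (gx u))
    rw [g0]
    refine div_le_div_of_nonneg_right ?_ n0.le
    unfold FP.m
    refine P.E_mono fun u _ => ?_
    rw [← ind_and]
    exact ind_mono fun hh => ⟨(gx u).2 (NPq_old he0 u w hh), ((NP_hQ hv w u).1 hh).1⟩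
  have k1 : P.m (Ce D v (5 * t) i) w * (P.m (NPq D v e) w / P.m (NPq D v (5 * t)) w) * (1 / 2) ≤
      P.m (Ce D v e i) w := by
    rw [e1, e2, e4, e5]
    have z1 : 0 ≤ P.m (NPq D v e) w / P.m (NPq D v (5 * t)) w := (div_pos n1 n0).le
    exact mul_le_mul (mul_le_mul_of_nonneg_left e6 m0.le) e3 (by norm_num) (mul_nonneg m0.le (z1.trans e6))
  have k2 := Real.log_le_log (by positivity) k1
  rw [Real.log_mul (by positivity) (by norm_num), Real.log_mul m0.ne' (by positivity), Real.log_div n1.ne' n0.ne',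
    one_div, Real.log_inv] at k2
  unfold sp
  rw [P.m_congr (X := fun a => (Ce D v e i a, Ce D v (5 * t) i a)) (Y := Ce D v e i) (Fac.fst _ _)
      ((Fac.refl _).prod (Ce_old he0)) w,
    P.m_congr (X := fun a => (NPq D v e a, NPq D v (5 * t) a)) (Y := NPq D v e) (Fac.fst _ _)
      ((Fac.refl _).prod (NPq_old he0)) w]
  linarith

/-! ### the surprise of the top and the thin labels -/

/-- the top and the thin labels of the state `e` -/
def Te (D : HD (Fin 3) X β γ φ) (v : ℕ → Finset (Fin 3) → X → (Fin 3 → β) → Pt (Fin 3) X β φ) (t e : ℕ) (i : Fin 3)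
    (w : Pt (Fin 3) X β φ) := (FQ v t i w, ZbQ D v e i w)

theorem Te_Ce (t e : ℕ) (i : Fin 3) : Fac (Te (φ := φ) D v t e i) (Ce D v e i) := fun a b hab =>
  Zb_Ce e i a b (congrArg Prod.snd hab)

/-- the thin labels of the other vertices, from the pair -/
theorem sp_Zb (h : D.Thick al) (bc : j ≠ i) (bd : j ≠ k) (cd : i ≠ k) (t e : ℕ) (w : Pt (Fin 3) X β φ) :
    sp (D.P h t) (ZbQ D v e i) (Ce D v e i) w = spQ h v e j k w := by
  unfold spQ
  rw [sp_xy h (f := fun u => (XLq v e j u, XLq v e k u)) (g := fun u => (u.2.1 j, u.2.1 k, NPq D v e u))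
    (fun _ _ _ _ => rfl) (fun _ _ _ _ => rfl) (e / 5) t w]
  have hl : ∀ l, l ≠ i → l = j ∨ l = k := by
    intro l hl
    rcases TriB.all3 bc bd cd l with h1 | h1 | h1
    · exact Or.inl h1
    · exact absurd h1 hl
    · exact Or.inr h1
  have hCe : ∀ a b : Pt (Fin 3) X β φ, Ce D v e i a = Ce D v e i b ↔
      (a.2.1 j, a.2.1 k, NPq D v e a) = (b.2.1 j, b.2.1 k, NPq D v e b) := by
    intro a b
    rw [Ce_iff]
    constructor
    · rintro ⟨h1, h2⟩
      exact pair_iff.2 ⟨h1 j bc, pair_iff.2 ⟨h1 k cd.symm, h2⟩⟩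
    · intro hh
      obtain ⟨h1, h4⟩ := pair_iff.1 hh
      obtain ⟨h2, h3⟩ := pair_iff.1 h4
      refine ⟨fun l hli => ?_, h3⟩
      rcases hl l hli with h5 | h5
      · rw [h5]; exact h1
      · rw [h5]; exact h2
  refine sp_congr (D.P h t) (fun a b hab => ?_) (fun a b hab => (hCe a b).1 hab) (fun a b hab => ?_)
    (fun a b hab => (hCe a b).2 hab) w
  · obtain ⟨h1, -⟩ := pair_iff.1 hab
    obtain ⟨g1, -, -, g4⟩ := Zb_iff.1 h1
    refine pair_iff.2 ⟨?_, ?_⟩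
    · show (a.2.1 j, Um v (nc e {j}) {j} a.1 a.2.1) = (b.2.1 j, Um v (nc e {j}) {j} b.1 b.2.1)
      rw [g1 j bc, g4 j bc]
    · show (a.2.1 k, Um v (nc e {k}) {k} a.1 a.2.1) = (b.2.1 k, Um v (nc e {k}) {k} b.1 b.2.1)
      rw [g1 k cd.symm, g4 k cd.symm]
  · obtain ⟨h1, h2⟩ := pair_iff.1 hab
    obtain ⟨f1, f2⟩ := pair_iff.1 h1
    obtain ⟨g1, g2⟩ := Ce_iff.1 ((hCe a b).2 h2)
    obtain ⟨k1, k2⟩ := NPq_iff.1 g2
    refine Zb_iff.2 ⟨g1, k2, k1, fun l hli => ?_⟩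
    rcases hl l hli with rfl | rfl
    · exact congrArg Prod.snd f1
    · exact congrArg Prod.snd f2

theorem sp_Te {dg : ℕ → X → ℝ} {prr : ℕ → Fin 3 → φ → φ} {T : ℕ} {Lam : ℝ} (H : D.Hyp dg prr al T Lam)
    {N : Finset (Fin 3) → ℝ} (R : Run h N (SS1 (Fin 3)) (AdmDep D) v) (hN : ∀ l : Fin 3, 0 < N (univ.erase l))
    (ht : t ≤ T) (he0 : 5 * t ≤ e) (bc : j ≠ i) (bd : j ≠ k) (cd : i ≠ k) {w : Pt (Fin 3) X β φ}
    (hw : (D.P h t).p w ≠ 0) : sp (D.P h t) (Te D v t e i) (Ce D v e i) w ≤ spQ h v e j k w + Lam := by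
  have h1 : sp (D.P h t) (Te D v t e i) (Ce D v e i) w = sp (D.P h t) (ZbQ D v e i) (Ce D v e i) w +
      sp (D.P h t) (FQ v t i) (fun u => (ZbQ D v e i u, Ce D v e i u)) w :=
    sp_chain (D.P h t) (FQ v t i) (ZbQ D v e i) (Ce D v e i) w
  have h2 : sp (D.P h t) (FQ v t i) (fun u => (ZbQ D v e i u, Ce D v e i u)) w =
      sp (D.P h t) (FQ v t i) (ZbQ D v e i) w :=
    sp_congr (D.P h t) (Fac.fst _ _) (Fac.fst _ _) (Fac.fst _ _) ((Fac.refl _).prod (Zb_Ce e i)) w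
  have h3 := sp_Zb_le H R (fun l => mem_SS1.2 (Finset.erase_ne_self.2 (mem_univ l))) (fun hh => mem_SS1.1 hh rfl) hN ht
    he0 i hw
  have h4 : Real.log (1 / al) ≤ Lam := by
    rw [one_div, Real.log_inv]
    have h5 := Real.log_le_log (Real.exp_pos _) H.alL
    rw [Real.log_exp] at h5
    linarith
  rw [h1, h2, sp_Zb h bc bd cd]
  linarith

theorem sp_T0 {dg : ℕ → X → ℝ} {prr : ℕ → Fin 3 → φ → φ} {T : ℕ} {n N1 Lam : ℝ} (hn : 1 ≤ n) (hN1 : 1 ≤ N1)
    (H : D.Hyp dg prr al T Lam) (R : Run h (pr3 (Fin 3) n N1) (SS1 (Fin 3)) (AdmDep D) v) (ht : t < T)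
    (he0 : 5 * t ≤ e) (he : e ≤ 5 * t + 5) (bc : j ≠ i) (bd : j ≠ k) (cd : i ≠ k) {w : Pt (Fin 3) X β φ}
    (hw : (D.P h t).p w ≠ 0) {X1 Lz : ℝ} (h1 : spQ h v e j k w ≤ X1)
    (h2 : sp (D.P h t) (NPq D v e) (NPq D v (5 * t)) w ≤ Lz) :
    sp (D.P h t) (Te D v t e i) (Ce D v (5 * t) i) w ≤ Lz + Real.log 2 + (X1 + Lam) := by
  have h4 : sp (D.P h t) (Te D v t e i) (Ce D v (5 * t) i) w =
      sp (D.P h t) (Ce D v e i) (Ce D v (5 * t) i) w + sp (D.P h t) (Te D v t e i) (Ce D v e i) w := by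
    have h5 : sp (D.P h t) (Te D v t e i) (Ce D v (5 * t) i) w =
        sp (D.P h t) (fun u => (Te D v t e i u, Ce D v e i u)) (Ce D v (5 * t) i) w :=
      sp_congr (D.P h t) (fun a b hab => by
        have h6 := (pair_iff.1 hab).1
        exact pair_iff.2 ⟨h6, Te_Ce t e i a b h6⟩) (Fac.refl _)
        (fun a b hab => (pair_iff.1 (pair_iff.1 hab).1).1) (Fac.refl _) w
    have h7 : sp (D.P h t) (Te D v t e i) (fun u => (Ce D v e i u, Ce D v (5 * t) i u)) w =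
        sp (D.P h t) (Te D v t e i) (Ce D v e i) w :=
      sp_congr (D.P h t) (Fac.fst _ _) (Fac.fst _ _) (Fac.fst _ _) ((Fac.refl _).prod (Ce_old he0)) w
    rw [h5, sp_chain, h7]
  have h5 := sp_Ce H R.codes (TriB.Bk_run hn hN1 R bc bd cd t) ht he0 he hw
  have h6 := sp_Te H R (fun l => zero_lt_one.trans_le (pr3_one hn hN1 _)) ht.le he0 bc bd cd hw
  linarith

/-! ### the missing letter -/

theorem nc_lt (hq : 5 * t ≤ q) (hq5 : q < 5 * t + 5) (l : Fin 3) : nc q {l} = t + 1 := by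
  have h1 : q = 5 * t + (q - 5 * t) := by omega
  rw [h1, nc_add t (q - 5 * t) (pth1 l) (by omega)]
  have key : ∀ l : Fin 3, rk {l} = 4 := by decide
  unfold ncj
  rw [key l, if_neg (by omega)]

/-- thin ratio at two states = quotient of the masses of the letter -/
theorem tF_e (hqe : q ≤ e) (hc : nc q {i} = t + 1) {w u : Pt (Fin 3) X β φ} (hw : (D.P h t).p w ≠ 0)
    (hu : ZbQ D v e i u = ZbQ D v e i w) :
    tF (D.P h t) (ZQ D v q) (ZbQ D v q) (ZbQ D v e) i u =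
      ((D.P h t).cond (fun a => ZbQ D v e i a = ZbQ D v e i w)).m (zf (Um v (t + 1)) i) u /
        ((D.P h t).cond (fun a => ZbQ D v q i a = ZbQ D v q i w)).m (zf (Um v (t + 1)) i) u := by
  have hu' : ZbQ D v q i u = ZbQ D v q i w := ZbQ_mono hqe i u w hu
  rw [FP.cond_m_fibre _ _ _ hw hu, FP.cond_m_fibre _ _ _ hw hu']
  unfold tF tau
  rw [FP.pv_self, FP.pv_self]
  have hzf : ∀ a b : Pt (Fin 3) X β φ, zf (Um v (t + 1)) i a = zf (Um v (t + 1)) i b ↔
      (a.2.1 i = b.2.1 i ∧ Um v (nc q {i}) {i} a.1 a.2.1 = Um v (nc q {i}) {i} b.1 b.2.1) := by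
    intro a b
    rw [hc]
    unfold zf
    exact pair_iff
  have e1 : (D.P h t).m (fun a => (ZbQ D v e i a, ZQ D v q a)) u =
      (D.P h t).m (fun a => (zf (Um v (t + 1)) i a, ZbQ D v e i a)) u := by
    refine FP.m_congr _ (fun a b hab => ?_) (fun a b hab => ?_) u
    · obtain ⟨h1, h2⟩ := pair_iff.1 hab
      exact pair_iff.2 ⟨(hzf a b).2 (ZQ_iff.1 h2).2, h1⟩
    · obtain ⟨h1, h2⟩ := pair_iff.1 hab
      exact pair_iff.2 ⟨h2, ZQ_iff.2 ⟨ZbQ_mono hqe i a b h2, (hzf a b).1 h1⟩⟩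
  have e2 : (D.P h t).m (ZQ D v q) u = (D.P h t).m (fun a => (zf (Um v (t + 1)) i a, ZbQ D v q i a)) u := by
    refine FP.m_congr _ (fun a b hab => ?_) (fun a b hab => ?_) u
    · obtain ⟨h1, h2⟩ := ZQ_iff.1 hab
      exact pair_iff.2 ⟨(hzf a b).2 h2, h1⟩
    · obtain ⟨h1, h2⟩ := pair_iff.1 hab
      exact ZQ_iff.2 ⟨h2, (hzf a b).1 h1⟩
  have e3 : (D.P h t).m (fun a => (ZbQ D v e i a, ZbQ D v q i a)) u = (D.P h t).m (ZbQ D v e i) w := by
    rw [FP.m_congr _ (X := fun a => (ZbQ D v e i a, ZbQ D v q i a)) (Y := ZbQ D v e i)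
      (Fac.fst _ _) ((Fac.refl _).prod (ZbQ_mono hqe i)) u]
    exact FP.Fac_m _ _ u w hu
  have e4 : (D.P h t).m (ZbQ D v q i) u = (D.P h t).m (ZbQ D v q i) w := FP.Fac_m _ _ u w hu'
  rw [e1, e2, e3, e4, div_div_div_comm]

/-- **THE MISSING LETTER IN ONE CLASS** -/
theorem mis_cls2 {dg : ℕ → X → ℝ} {prr : ℕ → Fin 3 → φ → φ} {T : ℕ} {Lam : ℝ} (H : D.Hyp dg prr al T Lam)
    (hv : Codes D v) {N : Finset (Fin 3) → ℝ} {S : Finset (Finset (Fin 3))} (B : Bk h N S (Um v (t + 1)) t j i k)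
    (ht : t < T) (hq : 5 * t ≤ q) (hq5 : q < 5 * t + 5) (hqe : q ≤ e) (he : e ≤ 5 * t + 5) {w : Pt (Fin 3) X β φ}
    (hw : (D.P h t).p w ≠ 0) {L : ℝ} (hL : sp (D.P h t) (Te D v t e i) (Ce D v (5 * t) i) w ≤ L) {Bd : ℝ}
    (hB : 4 ≤ Bd) :
    (D.P h t).ce (Te D v t e i) (fun u => ind (Bd < tF (D.P h t) (ZQ D v q) (ZbQ D v q) (ZbQ D v e) i u)) w ≤
      12 * Real.sqrt (2 * SngA.kI N i L) := by
  have he0 := hq.trans hqe
  have J2 := Ev_ix B q hw
  have J1 := Ev_ix B e hw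
  have J3 := Ew_ix B e hw
  have E2 := VH_eq (Ev_iff (i := i) hv hq w)
  have E1 := VH_eq (Ev_iff (i := i) hv he0 w)
  have E3 := VH_eq (Ew_iff (i := i) hv he0 w)
  have h32 : ∀ u, Ew D v t e i w u → Ev D v t e i w u := fun u hu => hu.1
  have h12 : ∀ u, Ev D v t e i w u → Ev D v t q i w u := fun u hu => ⟨hu.1, hE_mono hqe hu.2⟩
  have l3 : SngA.LX h (Um v (t + 1)) t (univ.erase i) w (Ew D v t e i w) ≤ L := by
    refine le_trans ?_ hL
    have x0 : 0 < (D.P h t).m (Ce D v (5 * t) i) w := (D.P h t).m_pos _ hw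
    have t0 : 0 < (D.P h t).m (Te D v t e i) w := (D.P h t).m_pos _ hw
    have k1 : (D.P h t).m (Te D v t e i) w / (D.P h t).m (Ce D v (5 * t) i) w ≤
        (SngA.QX h (Um v (t + 1)) t (univ.erase i) w).Pr (Ew D v t e i w) := by
      unfold SngA.QX FP.Pr
      rw [FP.cond_E (xc_ne hw)]
      have e1 : (D.P h t).Pr (xc D (Um v (t + 1)) t (univ.erase i) w) = (D.P h t).m (Ce D v (5 * t) i) w := by
        refine (D.P h t).E_congr fun u _ => ?_
        exact congrArg ind (propext Ce_0.symm)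
      rw [e1]
      refine div_le_div_of_nonneg_right ?_ x0.le
      unfold FP.m
      refine (D.P h t).E_mono fun u _ => ?_
      rw [← ind_and]
      refine ind_mono fun hh => ?_
      have h1 : SngA.VH D (nn e) univ w (Ew D v t e i w) u := by
        rw [E3]
        exact hh
      exact ⟨h1.1.1.1, h1.1⟩
    have q0 := div_pos t0 x0
    have k2 := Real.log_le_log (one_div_pos.2 (q0.trans_le k1)) (one_div_le_one_div_of_le q0 k1)
    unfold SngA.LX
    refine k2.trans (le_of_eq ?_)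
    rw [one_div_div, Real.log_div x0.ne' t0.ne']
    unfold sp
    rw [(D.P h t).m_congr (X := fun a => (Te D v t e i a, Ce D v (5 * t) i a)) (Y := Te D v t e i) (Fac.fst _ _)
      ((Fac.refl _).prod ((Te_Ce t e i).trans (Ce_old he0))) w]
  have l1 := (J3.LX_mono h32).trans l3
  have l2 := (J3.LX_mono fun u hu => h12 u (h32 u hu)).trans l3
  have c1 := cell_ge H B ht he0 he hw
  have c2 := cell_ge H B ht hq hq5.le hw
  have key := SngA.misq (s1 := nn e) (s2 := nn q) B J1 J2 J3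
    (fun l hl => Finset.mem_erase.2 ⟨hl, mem_univ l⟩) (Finset.notMem_erase i univ) l1 l2 l3 c1
    (lt_of_lt_of_le (by norm_num) c2).ne' (fun y hy => qb_mono D (nn_mono hqe) hy)
  rw [(D.P h t).ce_eq_cond _ _ hw]
  rw [E1, E2, E3] at key
  refine le_trans (FP.E_mono _ fun u hu => ?_) key
  have hne : (D.P h t).Pr (fun a => (FQ v t i a, ZbQ D v e i a) = (FQ v t i w, ZbQ D v e i w)) ≠ 0 :=
    ((D.P h t).m_pos (fun a => (FQ v t i a, ZbQ D v e i a)) hw).ne'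
  obtain ⟨u1, u2⟩ := cond_supp hne hu
  have hu5 : ZbQ D v e i u = ZbQ D v e i w := congrArg Prod.snd u1
  refine ind_mono fun hh => ?_
  rw [tF_e hqe (nc_lt hq hq5 i) hw hu5] at hh
  have m0 : 0 < ((D.P h t).cond (fun a => ZbQ D v q i a = ZbQ D v q i w)).m (zf (Um v (t + 1)) i) u := by
    refine FP.m_pos _ _ ?_
    exact (FP.cond_p_ne ((D.P h t).m_pos (ZbQ D v q i) hw).ne').2 ⟨ZbQ_mono hqe i u w hu5, u2⟩
  rw [lt_div_iff₀ m0] at hh
  exact lt_of_le_of_lt (mul_le_mul_of_nonneg_right hB m0.le) hh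

/-- **THE MISSING LETTER IN A RUN**, alive pairs, any end state of the step -/
theorem mis_run2 {n N1 : ℝ} (hn : 1 ≤ n) (hN1 : 1 ≤ N1) {dg : ℕ → X → ℝ} {prr : ℕ → Fin 3 → φ → φ} {T : ℕ} {Lam : ℝ}
    (H : D.Hyp dg prr al T Lam) (R : Run h (pr3 (Fin 3) n N1) (SS1 (Fin 3)) (AdmDep D) v) {t q e : ℕ} (ht : t < T)
    (hq : 5 * t ≤ q) (hq5 : q < 5 * t + 5) (hqe : q ≤ e) (he : e ≤ 5 * t + 5) (i : Fin 3) {X1 Lz : ℝ}
    {A : Pt (Fin 3) X β φ → Prop} (hA : Fac (fun w => (FQ v t i w, ZbQ D v e i w)) A)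
    (hal2 : ∀ w, (D.P h t).p w ≠ 0 → A w → ∀ j k, j ≠ i → k ≠ i → j ≠ k → spQ h v e j k w ≤ X1)
    (hLz : ∀ w, (D.P h t).p w ≠ 0 → A w → sp (D.P h t) (NPq D v e) (NPq D v (5 * t)) w ≤ Lz)
    {B : ℝ} (hB : 4 ≤ B) :
    (D.P h t).Pr (fun w => A w ∧ B < tF (D.P h t) (ZQ D v q) (ZbQ D v q) (ZbQ D v e) i w) ≤
      96 * Real.sqrt ((Lz + X1 + Lam + 1) / N1) * (D.P h t).Pr A := by
  classical
  obtain ⟨j, k, bc, bd, cd⟩ : ∃ j k, j ≠ i ∧ j ≠ k ∧ i ≠ k := by
    have key : ∀ i : Fin 3, ∃ j k, j ≠ i ∧ j ≠ k ∧ i ≠ k := by decide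
    exact key i
  have Bt := TriB.Bk_run hn hN1 R bc bd cd t
  by_cases hex : ∃ w, (D.P h t).p w ≠ 0 ∧ A w
  swap
  · have e0 : (D.P h t).Pr (fun w => A w ∧ B < tF (D.P h t) (ZQ D v q) (ZbQ D v q) (ZbQ D v e) i w) = 0 := by
      unfold FP.Pr
      rw [(D.P h t).E_congr (g := fun _ => 0) fun w hw => ind_not fun hh => hex ⟨w, hw, hh.1⟩, FP.E_const]
    rw [e0]
    have h1 := (D.P h t).Pr_nonneg A
    positivity
  obtain ⟨wz, pz, az⟩ := hex
  have hLz0 : 0 ≤ Lz := (sp_nonneg (D.P h t) _ _ pz).trans (hLz wz pz az)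
  have hX1 : 0 ≤ X1 := by
    refine le_trans ?_ (hal2 wz pz az j k bc cd.symm bd)
    rw [← sp_Zb h bc bd cd t e wz]
    exact sp_nonneg (D.P h t) _ _ pz
  have hl2 : Real.log 2 ≤ 1 := by
    have := Real.log_le_sub_one_of_pos (show (0 : ℝ) < 2 by norm_num)
    linarith
  have hl0 : 0 ≤ Real.log 2 := Real.log_nonneg (by norm_num)
  set L := Lz + Real.log 2 + (X1 + Lam) with hLd
  set Tb : Pt (Fin 3) X β φ → Prop := fun w => B < tF (D.P h t) (ZQ D v q) (ZbQ D v q) (ZbQ D v e) i w with hTb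
  have hAT : Fac (Te D v t e i) A := hA
  have e1 : (D.P h t).Pr (fun w => A w ∧ Tb w) =
      (D.P h t).E (fun w => ind (A w) * (D.P h t).ce (Te D v t e i) (fun u => ind (Tb u)) w) := by
    rw [FP.E_mul_ce _ (h := fun w => ind (A w)) (Fac.ind fun a b hab => by
      rw [show A a = A b from hAT a b hab])]
    exact (D.P h t).E_congr fun w _ => ind_and _ _
  have e2 : 12 * Real.sqrt (2 * SngA.kI (pr3 (Fin 3) n N1) i L) ≤ 96 * Real.sqrt ((Lz + X1 + Lam + 1) / N1) := by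
    unfold SngA.kI
    rw [pr3_e, pr3_s]
    have hN0 : 0 < N1 := by linarith
    have hLam := H.Lam1
    have h1 : 2 * (2 * 1 * (L + 1) / N1) ≤ 8 ^ 2 * ((Lz + X1 + Lam + 1) / N1) := by
      rw [mul_div_assoc', mul_div_assoc', div_le_div_iff_of_pos_right hN0, hLd]
      nlinarith
    have h2 := Real.sqrt_le_sqrt h1
    have h3 : Real.sqrt (8 ^ 2 * ((Lz + X1 + Lam + 1) / N1)) = 8 * Real.sqrt ((Lz + X1 + Lam + 1) / N1) := by
      rw [Real.sqrt_mul (by norm_num), Real.sqrt_sq (by norm_num)]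
    rw [h3] at h2
    linarith
  have e3 : 96 * Real.sqrt ((Lz + X1 + Lam + 1) / N1) * (D.P h t).Pr A =
      (D.P h t).E (fun w => 96 * Real.sqrt ((Lz + X1 + Lam + 1) / N1) * ind (A w)) := by
    unfold FP.Pr
    rw [FP.E_smul]
  show (D.P h t).Pr (fun w => A w ∧ Tb w) ≤ _
  rw [e1, e3]
  refine (D.P h t).E_mono fun w hw => ?_
  by_cases ha : A w
  · rw [ind_of ha, one_mul, mul_one]
    exact (mis_cls2 H R.codes Bt ht hq hq5 hqe he hw (sp_T0 hn hN1 H R ht (hq.trans hqe) he bc bd cd hw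
      (hal2 w hw ha j k bc cd.symm bd) (hLz w hw ha)) hB).trans e2
  · rw [ind_not ha, zero_mul, mul_zero]

end run

end SngG

end

end Pool.Agent.GMH.TP
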