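import Pool.Agent.GMH.ActO
import Pool.Agent.GMH.RmCnt
import Pool.Agent.GMH.CtxD
import Pool.Agent.GMH.FoSum
import Pool.Agent.GMH.SngDef
import Pool.Agent.GMH.RZ11
import Pool.Agent.GMH.SngJ

/-!
# GMH/SngG2 (helper21): KIND S, block GIB, part (G2): strong tops with a strong missing letter, all cheap steps

* `sgX B s t i` : in the step `(s, t)` the top `i` is strong (`B < rS`) and its missing thin letter is strong (`B < tF`);
* `one_core`, `sum_core` : one step, all times (helper80's `mis_run2`, activity of the tops);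
* `sum_Ar` : alive points (`Ar`), law of the time; `sum_tab` : alive points (`Alv`), table space;
* **`gib_t`**, **`gib_q`** : the same over `Ctx`: digit steps, public values with surprisal at most `L0`, joint private steps.
-/

set_option autoImplicit false
set_option linter.unusedSectionVars false

namespace Pool.Agent.GMH.SngG

open Finset Pool.Agent.PWZ Pool.Agent.M3 Pool.Agent.GM Pool.Agent.GM.Harm Pool.Agent.GMH Pool.Agent.GMH.NZ
open Pool.Agent.GMH.V3 Pool.Agent.GMH.TP Pool.Agent.GMH.KF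

noncomputable section

variable {X β γ φ : Type} [Fintype X] [Fintype β] [Fintype φ] [Nonempty X] [Nonempty β]
variable {D : HD (Fin 3) X β γ φ} {al : ℝ} (h : D.Thick al) (v : ℕ → Finset (Fin 3) → X → (Fin 3 → β) → Pt (Fin 3) X β φ)

/-! ### the events of one time -/

/-- a top sees the letters of its vertices -/
theorem Zb_XL (q : ℕ) {i k : Fin 3} (hk : k ≠ i) : Fac (ZbQ (φ := φ) D v q i) (XLq v q k) := by
  intro a b hab
  unfold ZbQ at hab
  have h1 : lo (SL (φ := φ) v q) (univ.erase i) a = lo (SL v q) (univ.erase i) b := (Prod.mk.inj hab).1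
  have h2 := BB_eq.1 (Prod.mk.inj hab).2
  have h3 := lo_eq.1 h1 {k} ((Zb_idx i {k}).2 (Or.inr ⟨k, hk, rfl⟩))
  unfold SL at h3
  exact Prod.ext (h2.1 k (Finset.mem_erase.2 ⟨hk, mem_univ k⟩)) (LL_eq.1 h3).1


theorem Zb_ss (q : ℕ) {i k : Fin 3} (hk : k ≠ i) : Fac (ZbQ (φ := φ) D v q i) (ssQ h v q k) := by
  intro a b hab
  have h1 := Zb_XL (φ := φ) (D := D) v q hk a b hab
  have h2 := Zb_NPq (φ := φ) (D := D) (v := v) q i a b hab
  have h3 : a.2.1 k = b.2.1 k := congrArg Prod.fst h1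
  exact sp_fac _ _ _ a b (Prod.ext h1 (Prod.ext h3 h2))

/-- the light private value is seen by its vertex -/
theorem lpv_fac (j : Fin 3) (t : ℕ) :
    Fac (fun w : Pt (Fin 3) X β φ => (XLq v (5 * t + 5) j w, NPq D v (5 * t + 5) w)) (lpv h v j t) := by
  intro a b hab
  have h1 : XLq v (5 * t + 5) j a = XLq v (5 * t + 5) j b := congrArg Prod.fst hab
  have h2 : NPq D v (5 * t + 5) a = NPq D v (5 * t + 5) b := congrArg Prod.snd hab
  have h3 : XLq v (5 * t + 4) j a = XLq v (5 * t + 4) j b := CKB.XLq_fac (5 * t + 4) j a b h1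
  have h4 : NPq D v (5 * t + 4) a = NPq D v (5 * t + 4) b := NPq_mono (by omega) a b h2
  have h5 : (fun u : Pt (Fin 3) X β φ => (XLq v (5 * t + 4) j u, NPq D v (5 * t + 4) u)) a =
      (fun u => (XLq v (5 * t + 4) j u, NPq D v (5 * t + 4) u)) b := Prod.ext h3 h4
  show lpv h v j t a = lpv h v j t b
  unfold lpv FP.m
  rw [hab, h5]

/-- a strong letter of a top -/
def stg (B : ℝ) (s : Fin 6) (t : ℕ) (i : Fin 3) (w : Pt (Fin 3) X β φ) : Prop := B < rS h v s t i w (FQ v t i w)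

/-- **a strong top whose missing thin letter is strong** -/
def sgX (B : ℝ) (s : Fin 6) (t : ℕ) (i : Fin 3) (w : Pt (Fin 3) X β φ) : Prop := stg h v B s t i w ∧
  B < tF (D.P h t) (ZQ D v (qs s t)) (ZbQ D v (qs s t)) (ZbQ D v (qe s t)) i w

/-- cheap public value -/
def chp (L0 : ℝ) (t : ℕ) (w : Pt (Fin 3) X β φ) : Prop :=
  Real.exp (-L0) * (D.P h t).m (NPq D v (5 * t + 1)) w ≤ (D.P h t).m (NPq D v (5 * t + 2)) w

theorem chp_fac (L0 : ℝ) (t : ℕ) : Fac (NPq (φ := φ) D v (5 * t + 2)) (chp h v L0 t) := by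
  intro a b h2
  have h1 := NPq_mono (φ := φ) (D := D) (v := v) (show 5 * t + 1 ≤ 5 * t + 2 by omega) a b h2
  show chp h v L0 t a = chp h v L0 t b
  unfold chp FP.m
  rw [h1, h2]

/-- the digit is not too small in the class -/
def dgd (dl : ℝ) (t : ℕ) (w : Pt (Fin 3) X β φ) : Prop :=
  dl * (D.P h t).m (NPq D v (5 * t)) w ≤ (D.P h t).m (NPq D v (5 * t + 1)) w

theorem dgd_fac (dl : ℝ) (t : ℕ) : Fac (NPq (φ := φ) D v (5 * t + 1)) (dgd h v dl t) := by
  intro a b h2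
  have h1 := NPq_mono (φ := φ) (D := D) (v := v) (show 5 * t ≤ 5 * t + 1 by omega) a b h2
  show dgd h v dl t a = dgd h v dl t b
  unfold dgd FP.m
  rw [h1, h2]

/-- the letters which the top `i` sees are alive at the state `e` -/
def alP (X1 : ℝ) (e : ℕ) (i : Fin 3) (w : Pt (Fin 3) X β φ) : Prop :=
  ∀ j k, j ≠ i → k ≠ i → j ≠ k → spQ h v e j k w ≤ X1

theorem Zb_sp (q : ℕ) {i j k : Fin 3} (hj : j ≠ i) (hk : k ≠ i) : Fac (ZbQ (φ := φ) D v q i) (spQ h v q j k) := by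
  intro a b hab
  have h1 := Zb_XL (φ := φ) (D := D) v q hj a b hab
  have h2 := Zb_XL (φ := φ) (D := D) v q hk a b hab
  have h3 := Zb_NPq (φ := φ) (D := D) (v := v) q i a b hab
  have h4 : a.2.1 j = b.2.1 j := congrArg Prod.fst h1
  have h5 : a.2.1 k = b.2.1 k := congrArg Prod.fst h2
  exact sp_fac _ _ _ a b (Prod.ext (Prod.ext h1 h2) (Prod.ext h4 (Prod.ext h5 h3)))

theorem alP_fac (X1 : ℝ) (e : ℕ) (i : Fin 3) : Fac (ZbQ (φ := φ) D v e i) (alP h v X1 e i) := by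
  intro a b hab
  refine propext ⟨fun hh j k hj hk hjk => ?_, fun hh j k hj hk hjk => ?_⟩
  · rw [← Zb_sp h v e hj hk a b hab]; exact hh j k hj hk hjk
  · rw [Zb_sp h v e hj hk a b hab]; exact hh j k hj hk hjk

theorem alP_of {p : AP} {e : ℕ} {w : Pt (Fin 3) X β φ} (hA : AQ h v p e w) (i : Fin 3) : alP h v p.X1 e i w :=
  fun j k _ _ hjk => hA.2 j k hjk

variable {h v} {dg : ℕ → X → ℝ} {prr : ℕ → Fin 3 → φ → φ} {T : ℕ} {Lam : ℝ} {n N1 : ℝ}

theorem stg_fac (B : ℝ) (s : Fin 6) (t : ℕ) (i : Fin 3) :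
    Fac (fun w => (FQ v t i w, ZbQ D v (qe s t) i w)) (stg h v B s t i) := by
  intro a b hab
  have f1 : FQ v t i a = FQ v t i b := congrArg Prod.fst hab
  have f2 : ZbQ D v (qe s t) i a = ZbQ D v (qe s t) i b := congrArg Prod.snd hab
  have f3 : ZbQ D v (qs s t) i a = ZbQ D v (qs s t) i b := ZbQ_mono (qs_le_qe _ _) i _ _ f2
  show (B < rS h v s t i a (FQ v t i a)) = (B < rS h v s t i b (FQ v t i b))
  have e : rS h v s t i a (FQ v t i a) = rS h v s t i b (FQ v t i b) := by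
    unfold rS
    rw [f1, f2]
    exact rr_fac (D.P h t) (ZbQ D v (qs s t) i) (FQ v t i) (ZbQ D v (qe s t) i) _ _ _ _ f3
  rw [e]

/-- surprisal of a later public value -/
theorem sp_NPq {q e : ℕ} (t : ℕ) (hqe : q ≤ e) (w : Pt (Fin 3) X β φ) :
    sp (D.P h t) (NPq D v e) (NPq D v q) w =
      Real.log ((D.P h t).m (NPq D v q) w) - Real.log ((D.P h t).m (NPq D v e) w) := by
  have e0 : (D.P h t).m (fun u => (NPq D v e u, NPq D v q u)) w = (D.P h t).m (NPq D v e) w := by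
    unfold FP.m
    refine (D.P h t).E_congr fun u _ => ?_
    refine ind_cg ⟨fun hh => (Prod.mk.inj hh).1, fun hh => ?_⟩
    exact Prod.ext hh (NPq_mono hqe u w hh)
  unfold sp
  rw [e0]

theorem NPq_last (t : ℕ) : NPq (φ := φ) D v (5 * t + 5) = NPq D v (5 * t + 2) := by
  funext u
  unfold NPq
  rw [nc_emp t (le_refl 2) (by omega), nc_emp t (show 2 ≤ 5 by omega) le_rfl, nn_j t (show 1 ≤ 2 by omega) (by omega),
    nn_j t (show 1 ≤ 5 by omega) le_rfl]

/-- the digit -/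
theorem spN_dig {t : ℕ} {w : Pt (Fin 3) X β φ} (hw : (D.P h t).p w ≠ 0) {dl : ℝ} (hdl : 0 < dl) (h1 : dgd h v dl t w) :
    Real.log ((D.P h t).m (NPq D v (5 * t)) w) - Real.log ((D.P h t).m (NPq D v (5 * t + 1)) w) ≤ Real.log (1 / dl) := by
  have m0 := (D.P h t).m_pos (NPq D v (5 * t)) hw
  have h4 := Real.log_le_log (by positivity) h1
  rw [Real.log_mul hdl.ne' m0.ne'] at h4
  rw [one_div, Real.log_inv]
  linarith

/-- the public value -/
theorem spN_val {t : ℕ} {w : Pt (Fin 3) X β φ} (hw : (D.P h t).p w ≠ 0) {L : ℝ} (h2 : chp h v L t w) :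
    Real.log ((D.P h t).m (NPq D v (5 * t + 1)) w) - Real.log ((D.P h t).m (NPq D v (5 * t + 2)) w) ≤ L := by
  have m1 := (D.P h t).m_pos (NPq D v (5 * t + 1)) hw
  have h3 : Real.exp (-L) * (D.P h t).m (NPq D v (5 * t + 1)) w ≤ (D.P h t).m (NPq D v (5 * t + 2)) w := h2
  have h4 := Real.log_le_log (by positivity) h3
  rw [Real.log_mul (Real.exp_pos _).ne' m1.ne', Real.log_exp] at h4
  linarith

/-- the public value of the step, if there is one, is cheap -/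
def chS (h : D.Thick al) (v : ℕ → Finset (Fin 3) → X → (Fin 3 → β) → Pt (Fin 3) X β φ) (L : ℝ) (s : Fin 6) (t : ℕ)
    (w : Pt (Fin 3) X β φ) : Prop := s = 0 ∨ chp h v L t w

/-- the four steps -/
def st4 (s : Fin 6) : Prop := s = 0 ∨ s = 1 ∨ s = 2 ∨ s = 5

theorem sp_step {s : Fin 6} (hs : st4 s) {t : ℕ} {w : Pt (Fin 3) X β φ} (hw : (D.P h t).p w ≠ 0) {L dl : ℝ} (hL : 0 ≤ L)
    (hdl : 0 < dl) (h1 : dgd h v dl t w) (h2 : chS h v L s t w) :
    sp (D.P h t) (NPq D v (qe s t)) (NPq D v (5 * t)) w ≤ L + Real.log (1 / dl) := by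
  have k1 := spN_dig hw hdl h1
  have hq : 5 * t ≤ qe s t := by fin_cases s <;> simp [qe] <;> omega
  rw [sp_NPq t hq]
  rcases hs with rfl | hs
  · have e : qe 0 t = 5 * t + 1 := rfl
    rw [e]
    linarith
  · have h3 : chp h v L t w := by
      rcases h2 with h2 | h2
      · rcases hs with rfl | rfl | rfl <;> exact absurd h2 (by decide)
      · exact h2
    have k2 := spN_val hw h3
    have e : NPq (φ := φ) D v (qe s t) = NPq D v (5 * t + 2) := by
      rcases hs with rfl | rfl | rfl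
      · exact NPq_last t
      · rfl
      · exact NPq_last t
    rw [e]
    linarith

/-- **ONE STEP** -/
theorem one_core (hn : 1 ≤ n) (hN1 : 1 ≤ N1) (H : D.Hyp dg prr al T Lam)
    (R : Run h (pr3 (Fin 3) n N1) (SS1 (Fin 3)) (AdmDep D) v) {X1 L dl : ℝ} (hL : 0 ≤ L) (hdl : 0 < dl)
    {t : ℕ} (ht : t < T) {s : Fin 6} (hs : st4 s) {i : Fin 3} {B : ℝ} (hB : 4 ≤ B) :
    (D.P h t).Pr (fun w => (alP h v X1 (qe s t) i w ∧ dgd h v dl t w ∧ chS h v L s t w) ∧ sgX h v B s t i w) ≤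
      96 * Real.sqrt ((L + Real.log (1 / dl) + X1 + Lam + 1) / N1) * (D.P h t).Pr (stg h v B s t i) := by
  have q1 : 5 * t ≤ qs s t := by fin_cases s <;> simp [qs] <;> omega
  have q2 : qs s t < qe s t := by fin_cases s <;> simp [qs, qe] <;> omega
  have q3 : qe s t ≤ 5 * t + 5 := by fin_cases s <;> simp [qe] <;> omega
  have q4 : 5 * t + 1 ≤ qe s t := by fin_cases s <;> simp [qe] <;> omega
  have key := TP.SngG.mis_run2 (h := h) (v := v) hn hN1 H R ht q1 (q2.trans_le q3) q2.le q3 i (X1 := X1) (Lz := L + Real.log (1 / dl))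
    (A := fun w => (alP h v X1 (qe s t) i w ∧ dgd h v dl t w ∧ chS h v L s t w) ∧ stg h v B s t i w)
    (fun a b hab => by
      have hZ : ZbQ D v (qe s t) i a = ZbQ D v (qe s t) i b := congrArg Prod.snd hab
      have hN := Zb_NPq (φ := φ) (D := D) (v := v) (qe s t) i a b hZ
      have e1 := alP_fac h v X1 (qe s t) i a b hZ
      have e2 := dgd_fac h v dl t a b (NPq_mono q4 a b hN)
      have e3 : chS h v L s t a = chS h v L s t b := by
        unfold chS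
        by_cases h0 : s = 0
        · exact propext ⟨fun _ => Or.inl h0, fun _ => Or.inl h0⟩
        · have q5 : 5 * t + 2 ≤ qe s t := by
            fin_cases s
            · exact absurd rfl h0
            all_goals simp [qe]
          rw [chp_fac h v L t a b (NPq_mono q5 a b hN)]
      have e5 := stg_fac (h := h) B s t i a b hab
      show ((_ ∧ _ ∧ _) ∧ _) = ((_ ∧ _ ∧ _) ∧ _)
      rw [e1, e2, e3, e5])
    (fun w _ hw => hw.1.1) (fun w hp hw => sp_step hs hp hL hdl hw.1.2.1 hw.1.2.2) hB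
  refine le_trans ((D.P h t).Pr_mono fun w _ hh => ?_) (key.trans (mul_le_mul_of_nonneg_left
    ((D.P h t).Pr_mono fun w _ hh => hh.2) (by positivity)))
  exact ⟨⟨hh.1, hh.2.1⟩, hh.2.2⟩

/-- **ALL TIMES** -/
theorem sum_core (hn : 1 ≤ n) (hN1 : 1 ≤ N1) (H : D.Hyp dg prr al T Lam)
    (R : Run h (pr3 (Fin 3) n N1) (SS1 (Fin 3)) (AdmDep D) v) {X1 L dl : ℝ} (hL : 0 ≤ L) (hdl : 0 < dl)
    {B : ℝ} (hB : 4 ≤ B) (i : Fin 3) :
    ∑ t ∈ range T, ∑ s, (D.P h t).Pr (fun w => st4 s ∧ (alP h v X1 (qe s t) i w ∧ dgd h v dl t w ∧ chS h v L s t w) ∧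
      sgX h v B s t i w) ≤
      96 * Real.sqrt ((L + Real.log (1 / dl) + X1 + Lam + 1) / N1) * (240 * Lam) := by
  have hK : 0 ≤ 96 * Real.sqrt ((L + Real.log (1 / dl) + X1 + Lam + 1) / N1) := by positivity
  have h1 := ga_real h H R hn hN1 i one_pos le_rfl (aw := fun _ _ _ => 1) (fun _ _ _ => le_rfl)
  rw [one_pow, div_one] at h1
  have h2 : ∀ t ∈ range T, ∀ s : Fin 6, (D.P h t).Pr (fun w => st4 s ∧ (alP h v X1 (qe s t) i w ∧ dgd h v dl t w ∧
      chS h v L s t w) ∧ sgX h v B s t i w) ≤ 96 * Real.sqrt ((L + Real.log (1 / dl) + X1 + Lam + 1) / N1) *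
      (D.P h t).E (fun w => 1 * ind (1 < |rS h v s t i w (FQ v t i w) - 1|)) := by
    intro t ht s
    by_cases hs : st4 s
    · have h3 := one_core hn hN1 H R hL hdl (Finset.mem_range.1 ht) hs (X1 := X1) (i := i) hB
      refine le_trans ((D.P h t).Pr_mono fun w _ hh => hh.2) (h3.trans (mul_le_mul_of_nonneg_left ?_ hK))
      refine (D.P h t).E_mono fun w _ => ?_
      rw [one_mul]
      refine ind_mono fun hh => lt_of_lt_of_le ?_ (le_abs_self _)
      have h4 : B < rS h v s t i w (FQ v t i w) := hh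
      linarith
    · refine le_trans (le_of_eq ?_) (mul_nonneg hK ((D.P h t).E_nonneg fun w _ => ?_))
      · unfold FP.Pr
        have e0 : (fun w => ind (st4 s ∧ (alP h v X1 (qe s t) i w ∧ dgd h v dl t w ∧ chS h v L s t w) ∧
            sgX h v B s t i w)) = fun _ => (0 : ℝ) := funext fun w => ind_not fun hh => hs hh.1
        rw [e0]
        unfold FP.E
        simp
      · rw [one_mul]
        exact ind_nonneg _
  have h5 := Finset.sum_le_sum fun t ht => Finset.sum_le_sum fun s (_ : s ∈ (univ : Finset (Fin 6))) => h2 t ht s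
  simp only [← Finset.mul_sum] at h5
  exact h5.trans (mul_le_mul_of_nonneg_left h1 hK)

/-! ### alive points, law of the time -/

/-- alive at the step -/
def arS (h : D.Thick al) (v : ℕ → Finset (Fin 3) → X → (Fin 3 → β) → Pt (Fin 3) X β φ) (p : AP) (s : Fin 6) (t : ℕ)
    (w : Pt (Fin 3) X β φ) : Prop := (s = 0 ∧ Ar h v p (2 * t) w) ∨ (s ≠ 0 ∧ Ar h v p (2 * t + 1) w)

theorem arS_of {p : AP} {Gd : ℕ → Pt (Fin 3) X β φ → Prop} {s : Fin 6} {t : ℕ} {w : Pt (Fin 3) X β φ}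
    (hA : aS h v p Gd s t w) : arS h v p s t w := by
  fin_cases s
  · exact Or.inl ⟨rfl, hA.1⟩
  all_goals exact Or.inr ⟨by decide, hA.1⟩

/-- heavy public values are cheap -/
theorem chp_HV {t : ℕ} {w : Pt (Fin 3) X β φ} (hA : HV h v t w) {L : ℝ} (hL : Real.log 2 ≤ L) : chp h v L t w := by
  have h1 : (D.P h t).m (NPq D v (5 * t + 1)) w ≤ 2 * (D.P h t).m (NPq D v (5 * t + 2)) w := hA
  have h0 := (D.P h t).m_nonneg (NPq D v (5 * t + 1)) w
  have h2 : Real.exp (-L) ≤ 1 / 2 := by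
    have h3 : Real.exp (-L) ≤ Real.exp (-Real.log 2) := Real.exp_le_exp.2 (by linarith)
    have e2 : Real.exp (-Real.log 2) = 1 / 2 := by rw [Real.exp_neg, Real.exp_log (by norm_num), one_div]
    rwa [e2] at h3
  show Real.exp (-L) * (D.P h t).m (NPq D v (5 * t + 1)) w ≤ (D.P h t).m (NPq D v (5 * t + 2)) w
  nlinarith

theorem chS_of {p : AP} {Gd : ℕ → Pt (Fin 3) X β φ → Prop} {s : Fin 6} {t : ℕ} {w : Pt (Fin 3) X β φ}
    (hA : aS h v p Gd s t w) {L : ℝ} (hL : Real.log 2 ≤ L) (h1 : s = 1 → chp h v L t w) : chS h v L s t w := by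
  fin_cases s
  · exact Or.inl rfl
  · exact Or.inr (h1 rfl)
  all_goals exact Or.inr (chp_HV hA.2 hL)

theorem dgd_of {p : AP} {t : ℕ} {w : Pt (Fin 3) X β φ} (hA : Ar h v p (2 * t + 1) w) : dgd h v p.dl t w := by
  have h5 := hA.1.2 t le_rfl
  unfold dgl at h5
  have e1 : (D.P h t).m (fun u => ((), NP D v (t + 1) t u)) w = (D.P h t).m (NPq D v (5 * t)) w := by
    unfold FP.m
    refine (D.P h t).E_congr fun u _ => ind_cg ?_
    unfold NPq
    have hn0 : nc (5 * t) ∅ = t + 1 := by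
      have h1 := nc_add t 0 (J := ∅) pth_emp (by omega)
      rw [add_zero] at h1
      rw [h1]
      unfold ncj
      rw [if_neg (Nat.not_lt_zero _), add_zero]
    rw [hn0, nn_0]
    exact ⟨fun hh => (Prod.mk.inj hh).2, fun hh => Prod.ext rfl hh⟩
  have e2 : (D.P h t).m (fun u => ((), NP D v (t + 1) (t + 1) u)) w = (D.P h t).m (NPq D v (5 * t + 1)) w := by
    unfold FP.m
    refine (D.P h t).E_congr fun u _ => ind_cg ?_
    unfold NPq
    rw [nc_1 t pth_emp, nn_1]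
    exact ⟨fun hh => (Prod.mk.inj hh).2, fun hh => Prod.ext rfl hh⟩
  rw [e1, e2] at h5
  exact h5

/-- the next alive condition -/
theorem next_al {p : AP} {s : Fin 6} (hs : st4 s) {t : ℕ} {w : Pt (Fin 3) X β φ} (hw : (D.P h t).p w ≠ 0)
    (hA : arS h v p s t w) (i : Fin 3) : (alP h v p.X1 (qe s t) i w ∧ dgd h v p.dl t w) ∨
      (Ar h v p (2 * t) w ∧ ¬ Ar h v p (2 * t + 1) w) ∨ (Ar h v p (2 * t + 1) w ∧ ¬ Ar h v p (2 * (t + 1)) w) := by
  rcases hA with ⟨h0, hA⟩ | ⟨h0, hA⟩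
  · by_cases h1 : Ar h v p (2 * t + 1) w
    · left
      subst h0
      exact ⟨alP_of h v (AQ_1 h p h1) i, dgd_of h1⟩
    · exact Or.inr (Or.inl ⟨hA, h1⟩)
  · by_cases h1 : Ar h v p (2 * (t + 1)) w
    · left
      refine ⟨?_, dgd_of hA⟩
      rcases hs with rfl | rfl | rfl | rfl
      · exact absurd rfl h0
      · exact alP_of h v (AQ_0 h p h1) i
      · exact alP_of h v (AQ_of h p (le_refl 2) (by omega) hw h1) i
      · exact alP_of h v (AQ_0 h p h1) i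
    · exact Or.inr (Or.inr ⟨hA, h1⟩)

/-- **ALL TIMES, ALIVE POINTS** -/
theorem sum_Ar (hn : 1 ≤ n) (hN1 : 1 ≤ N1) (H : D.Hyp dg prr al T Lam)
    (R : Run h (pr3 (Fin 3) n N1) (SS1 (Fin 3)) (AdmDep D) v) {p : AP} (hdl : 0 < p.dl) {L : ℝ} (hL : 0 ≤ L)
    {B : ℝ} (hB : 4 ≤ B) (i : Fin 3) :
    ∑ t ∈ range T, ∑ s, (D.P h t).Pr (fun w => st4 s ∧ arS h v p s t w ∧ chS h v L s t w ∧ sgX h v B s t i w) ≤
      96 * Real.sqrt ((L + Real.log (1 / p.dl) + p.X1 + Lam + 1) / N1) * (240 * Lam) +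
        6 * (D.P h T).Pr (fun w => ¬ Ar h v p (2 * T) w) := by
  have h1 := sum_core hn hN1 H R hL hdl hB i (X1 := p.X1) (h := h) (v := v)
  have h2 := TT.killT (h := h) (T := T) H (a := Ar h v p) (fun r w hw => Ar_mono h p (Nat.le_succ r) hw)
    (fun r x y F F' => propext (Ar_lab h p r x y F F'))
  have h3 : ∀ t ∈ range T, ∀ s : Fin 6,
      (D.P h t).Pr (fun w => st4 s ∧ arS h v p s t w ∧ chS h v L s t w ∧ sgX h v B s t i w) ≤
      (D.P h t).Pr (fun w => st4 s ∧ (alP h v p.X1 (qe s t) i w ∧ dgd h v p.dl t w ∧ chS h v L s t w) ∧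
        sgX h v B s t i w) + ((D.P h t).Pr (fun w => Ar h v p (2 * t) w ∧ ¬ Ar h v p (2 * t + 1) w) +
      (D.P h (t + 1)).Pr (fun w => Ar h v p (2 * t + 1) w ∧ ¬ Ar h v p (2 * (t + 1)) w)) := by
    intro t _ s
    have e : (D.P h (t + 1)).Pr (fun w => Ar h v p (2 * t + 1) w ∧ ¬ Ar h v p (2 * (t + 1)) w) =
        (D.P h t).Pr (fun w => Ar h v p (2 * t + 1) w ∧ ¬ Ar h v p (2 * (t + 1)) w) :=
      Pr_xy h (fun x y F F' => by
        show (_ ∧ ¬ _) = (_ ∧ ¬ _)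
        rw [propext (Ar_lab h p (2 * t + 1) x y F F'), propext (Ar_lab h p (2 * (t + 1)) x y F F')]) (t + 1) t
    rw [e]
    refine le_trans ((D.P h t).Pr_mono fun w hw hh => ?_) (((D.P h t).Pr_or_le _ _).trans
      (add_le_add le_rfl ((D.P h t).Pr_or_le _ _)))
    obtain ⟨g1, g2, g3, g4⟩ := hh
    rcases next_al g1 hw g2 i with hc | hc
    · exact Or.inl ⟨g1, ⟨hc.1, hc.2, g3⟩, g4⟩
    · exact Or.inr hc
  have h4 := Finset.sum_le_sum fun t ht => Finset.sum_le_sum fun s (_ : s ∈ (univ : Finset (Fin 6))) => h3 t ht s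
  refine h4.trans ?_
  have h6 : ∑ t ∈ range T, ∑ _s : Fin 6, ((D.P h t).Pr (fun w => Ar h v p (2 * t) w ∧ ¬ Ar h v p (2 * t + 1) w) +
      (D.P h (t + 1)).Pr (fun w => Ar h v p (2 * t + 1) w ∧ ¬ Ar h v p (2 * (t + 1)) w)) =
      6 * ∑ t ∈ range T, ((D.P h t).Pr (fun w => Ar h v p (2 * t) w ∧ ¬ Ar h v p (2 * t + 1) w) +
      (D.P h (t + 1)).Pr (fun w => Ar h v p (2 * t + 1) w ∧ ¬ Ar h v p (2 * (t + 1)) w)) := by
    rw [Finset.mul_sum]
    refine Finset.sum_congr rfl fun t _ => ?_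
    rw [Finset.sum_const, Finset.card_univ, Fintype.card_fin, nsmul_eq_mul]
    push_cast
    rfl
  have h7 : ∀ t, ∑ s : Fin 6, ((D.P h t).Pr (fun w => st4 s ∧ (alP h v p.X1 (qe s t) i w ∧ dgd h v p.dl t w ∧
      chS h v L s t w) ∧ sgX h v B s t i w) + ((D.P h t).Pr (fun w => Ar h v p (2 * t) w ∧ ¬ Ar h v p (2 * t + 1) w) +
      (D.P h (t + 1)).Pr (fun w => Ar h v p (2 * t + 1) w ∧ ¬ Ar h v p (2 * (t + 1)) w))) =
      ∑ s : Fin 6, (D.P h t).Pr (fun w => st4 s ∧ (alP h v p.X1 (qe s t) i w ∧ dgd h v p.dl t w ∧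
      chS h v L s t w) ∧ sgX h v B s t i w) + ∑ _s : Fin 6, ((D.P h t).Pr (fun w => Ar h v p (2 * t) w ∧
      ¬ Ar h v p (2 * t + 1) w) + (D.P h (t + 1)).Pr (fun w => Ar h v p (2 * t + 1) w ∧ ¬ Ar h v p (2 * (t + 1)) w)) :=
    fun t => Finset.sum_add_distrib
  rw [Finset.sum_congr rfl fun t _ => h7 t, Finset.sum_add_distrib, h6]
  exact add_le_add h1 (mul_le_mul_of_nonneg_left h2 (by norm_num))

/-! ### on the table space -/

open Pool.Agent.GMH.TD Pool.Agent.GMH.Dy Pool.Agent.GMH.MV Pool.Agent.GMH.MVI Pool.Agent.GMH.TRF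

section tab

variable {W : Type} [Fintype W] (tb : Tab D prr T W)

variable (h v) in
/-- at the step of the state `q` the top `i` is strong and its missing letter is strong -/
def sgO (B : ℝ) (i : Fin 3) (q : ℕ) (w : Om W X β) : Prop := sgX h v B (sO q) (q / 5) i (tb.pt (q / 5) w)

variable (v) in
/-- public step with a cheap value, or joint private step at a heavy public value -/
def rmO (L0 : ℝ) (q : ℕ) (w : Om W X β) : Prop :=
  (q % 5 = 1 ∧ Real.exp (-L0) * tb.Ps.m (NPo tb v q) w ≤ tb.Ps.m (NPo tb v (q + 1)) w) ∨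
  (q % 5 = 4 ∧ tb.Ps.m (NPo tb v (5 * (q / 5) + 1)) w ≤ 2 * tb.Ps.m (NPo tb v (5 * (q / 5) + 2)) w)

variable {tb}

/-- a removal which is not an expensive public value -/
theorem rmO_of {L0 : ℝ} {q : ℕ} {w : Om W X β} (h1 : ruO tb v q w ∨ ∃ j, rpO tb v j q w)
    (h2 : ¬ (q % 5 = 1 ∧ tb.Ps.m (NPo tb v (q + 1)) w < Real.exp (-L0) * tb.Ps.m (NPo tb v q) w)) : rmO v tb L0 q w := by
  rcases h1 with h1 | ⟨j, h1⟩
  · exact Or.inl ⟨h1.1, not_lt.1 fun hh => h2 ⟨h1.1, hh⟩⟩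
  · exact Or.inr ⟨h1.1, h1.2.2⟩

theorem dgd_0 (dl : ℝ) (t : ℕ) : (D.P h t).Pr (fun w => ¬ dgd h v dl t w) =
    (D.P h 0).Pr (fun w => ¬ dgq h v dl (2 * t + 1) w) := by
  have hx : ∀ q, XY (NPq (φ := φ) D v q) := fun q => xy_NPq q
  have e1 : ∀ w, dgd h v dl t w ↔ dgq h v dl (2 * t + 1) w := by
    intro w
    have f0 : NPr v D (2 * t + 1 - 1) = NPq (φ := φ) D v (5 * t) := by
      funext u
      have hn0 : nc (5 * t) ∅ = t + 1 := by
        have h1 := nc_add t 0 (J := ∅) pth_emp (by omega)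
        rw [add_zero] at h1
        rw [h1]
        unfold ncj
        rw [if_neg (Nat.not_lt_zero _), add_zero]
      have e : 2 * t + 1 - 1 = 2 * t := by omega
      rw [e, NPr_even]
      unfold NPq
      rw [hn0, nn_0]
    have f1 : NPr v D (2 * t + 1) = NPq (φ := φ) D v (5 * t + 1) := by
      funext u
      rw [NPr_odd]
      unfold NPq
      rw [nc_1 t pth_emp, nn_1]
    unfold dgd dgq
    rw [f0, f1, TP.m_xy h (hx (5 * t)) t 0 w, TP.m_xy h (hx (5 * t + 1)) t 0 w]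
    exact ⟨fun hh _ => hh, fun hh => hh (by omega)⟩
  simp only [e1]
  refine Pr_xy h (fun x y F F' => ?_) t 0
  show (¬ dgq h v dl (2 * t + 1) (x, y, F)) = ¬ dgq h v dl (2 * t + 1) (x, y, F')
  have e2 : ∀ r, NPr v D r (x, y, F) = NPr v D r (x, y, F') := fun r => rfl
  unfold dgq FP.m
  simp only [e2]

/-- **ALL TIMES, TABLE SPACE** -/
theorem sum_tab (hn : 1 ≤ n) (hN1 : 1 ≤ N1) (H : D.Hyp dg prr al T Lam)
    (R : Run h (pr3 (Fin 3) n N1) (SS1 (Fin 3)) (AdmDep D) v) {p : AP} {dl : ℝ} (hdl : 0 < dl)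
    (hdl1 : 64 * dl ≤ 1) {L : ℝ} (hL : Real.log 2 ≤ L) {B : ℝ} (hB : 4 ≤ B) (i : Fin 3) :
    ∑ q ∈ range (5 * T), tb.Ps.Pr (fun w => rmO v tb L q w ∧ Alv h v tb p q w ∧ sgO h v tb B i q w) ≤
      96 * Real.sqrt ((L + Real.log (1 / dl) + p.X1 + Lam + 1) / N1) * (240 * Lam) +
        2 * (tb.Ps.Pr (fun w => ¬ Alv h v tb p (5 * T) w) + TnB n N1 Lam dl) := by
  have hL0 : 0 ≤ L := (Real.log_nonneg (by norm_num)).trans hL
  have h1 := sum_core hn hN1 H R hL0 hdl hB i (X1 := p.X1) (h := h) (v := v)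
  have h2 := RZ.tny_le hn hN1 R H hdl hdl1
  have h3 : ∑ t ∈ range T, tb.Ps.Pr (fun w => Alv h v tb p (5 * t) w ∧ ¬ Alv h v tb p (5 * (t + 1)) w) ≤
      tb.Ps.Pr (fun w => ¬ Alv h v tb p (5 * T) w) := by
    have key : ∀ w, ∑ t ∈ range T, ind (Alv h v tb p (5 * t) w ∧ ¬ Alv h v tb p (5 * (t + 1)) w) ≤
        ind (¬ Alv h v tb p (5 * T) w) := by
      intro w
      have h4 : ∀ m, ∑ t ∈ range m, ind (Alv h v tb p (5 * t) w ∧ ¬ Alv h v tb p (5 * (t + 1)) w) =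
          ind (Alv h v tb p (5 * 0) w) - ind (Alv h v tb p (5 * m) w) := by
        intro m
        induction m with
        | zero => simp
        | succ m ih =>
          rw [Finset.sum_range_succ, ih]
          by_cases g1 : Alv h v tb p (5 * (m + 1)) w
          · rw [ind_of g1, ind_of (Dy.Alv_anti h tb (v := v) (q' := 5 * m) (by omega) g1),
              ind_not (fun hh : Alv h v tb p (5 * m) w ∧ ¬ Alv h v tb p (5 * (m + 1)) w => hh.2 g1)]
            ring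
          · by_cases g0 : Alv h v tb p (5 * m) w
            · rw [ind_not g1, ind_of g0, ind_of (⟨g0, g1⟩ : Alv h v tb p (5 * m) w ∧ ¬ Alv h v tb p (5 * (m + 1)) w)]
              ring
            · rw [ind_not g1, ind_not g0,
                ind_not (fun hh : Alv h v tb p (5 * m) w ∧ ¬ Alv h v tb p (5 * (m + 1)) w => g0 hh.1)]
              ring
      rw [h4]
      have h5 := ind_le_one (Alv h v tb p (5 * 0) w)
      by_cases g : Alv h v tb p (5 * T) w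
      · rw [ind_of g, ind_not (fun hh : ¬ Alv h v tb p (5 * T) w => hh g)]
        linarith
      · rw [ind_not g, ind_of g]
        linarith
    unfold FP.Pr
    rw [← tb.Ps.E_sum]
    exact tb.Ps.E_mono fun w _ => key w
  -- one time
  have h6 : ∀ t ∈ range T, tb.Ps.Pr (fun w => rmO v tb L (5 * t) w ∧ Alv h v tb p (5 * t) w ∧ sgO h v tb B i (5 * t) w) +
      tb.Ps.Pr (fun w => rmO v tb L (5 * t + 1) w ∧ Alv h v tb p (5 * t + 1) w ∧ sgO h v tb B i (5 * t + 1) w) +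
      tb.Ps.Pr (fun w => rmO v tb L (5 * t + 2) w ∧ Alv h v tb p (5 * t + 2) w ∧ sgO h v tb B i (5 * t + 2) w) +
      tb.Ps.Pr (fun w => rmO v tb L (5 * t + 3) w ∧ Alv h v tb p (5 * t + 3) w ∧ sgO h v tb B i (5 * t + 3) w) +
      tb.Ps.Pr (fun w => rmO v tb L (5 * t + 4) w ∧ Alv h v tb p (5 * t + 4) w ∧ sgO h v tb B i (5 * t + 4) w) ≤
      ∑ s, (D.P h t).Pr (fun w => st4 s ∧ (alP h v p.X1 (qe s t) i w ∧ dgd h v dl t w ∧ chS h v L s t w) ∧
        sgX h v B s t i w) + 2 * (tb.Ps.Pr (fun w => Alv h v tb p (5 * t) w ∧ ¬ Alv h v tb p (5 * (t + 1)) w) +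
        (D.P h 0).Pr (fun w => ¬ dgq h v dl (2 * t + 1) w)) := by
    intro t ht
    have ht' := (Finset.mem_range.1 ht).le
    have none : ∀ q, q % 5 ≠ 1 → q % 5 ≠ 4 → tb.Ps.Pr (fun w => rmO v tb L q w ∧ Alv h v tb p q w ∧
        sgO h v tb B i q w) = 0 := by
      intro q h1 h4
      unfold FP.Pr
      have e0 : (fun w => ind (rmO v tb L q w ∧ Alv h v tb p q w ∧ sgO h v tb B i q w)) = fun _ => (0 : ℝ) :=
        funext fun w => ind_not fun hh => by
          rcases hh.1 with h5 | h5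
          · exact h1 h5.1
          · exact h4 h5.1
      rw [e0]
      unfold FP.E
      simp
    have step : ∀ s : Fin 6, (s = 1 ∨ s = 5) → ∀ q, q / 5 = t → sO q = s → qe s t = 5 * t + 5 → 5 * t ≤ q →
        (∀ w, rmO v tb L q w → chp h v L t (tb.pt t w)) →
        tb.Ps.Pr (fun w => rmO v tb L q w ∧ Alv h v tb p q w ∧ sgO h v tb B i q w) ≤
        (D.P h t).Pr (fun w => st4 s ∧ (alP h v p.X1 (qe s t) i w ∧ dgd h v dl t w ∧ chS h v L s t w) ∧
          sgX h v B s t i w) + (tb.Ps.Pr (fun w => Alv h v tb p (5 * t) w ∧ ¬ Alv h v tb p (5 * (t + 1)) w) +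
        (D.P h 0).Pr (fun w => ¬ dgq h v dl (2 * t + 1) w)) := by
      intro s hs q hq hsO hqe hq5 hch
      rw [← dgd_0 (h := h) (v := v) dl t]
      have e1 : ∀ U : Pt (Fin 3) X β φ → Prop, (D.P h t).Pr U = tb.Ps.Pr (fun w => U (tb.pt t w)) := fun U => by
        unfold FP.Pr
        rw [← (pul_pt h tb ht').E]
      rw [e1, e1]
      refine le_trans (tb.Ps.Pr_mono fun w hw hh => ?_) ((tb.Ps.Pr_or_le _ _).trans (add_le_add le_rfl (tb.Ps.Pr_or_le _ _)))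
      obtain ⟨g1, g2, g3⟩ := hh
      by_cases k1 : Alv h v tb p (5 * (t + 1)) w
      · by_cases k2 : dgd h v dl t (tb.pt t w)
        · left
          have k3 : AQ h v p (5 * t + 5) (tb.pt t w) := by
            have k4 := k1 (5 * (t + 1)) le_rfl
            have e5 : 5 * (t + 1) / 5 = t + 1 := by omega
            rw [e5] at k4
            exact (iff_of_eq (AQ_xy (h := h) (v := v) p (5 * (t + 1)) _ _ _ _)).1 k4
          unfold sgO at g3
          rw [hsO, hq] at g3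
          refine ⟨?_, ⟨?_, k2, Or.inr (hch w g1)⟩, g3⟩
          · rcases hs with rfl | rfl
            · exact Or.inr (Or.inl rfl)
            · exact Or.inr (Or.inr (Or.inr rfl))
          · rw [hqe]
            exact alP_of h v k3 i
        · exact Or.inr (Or.inr k2)
      · exact Or.inr (Or.inl ⟨Dy.Alv_anti h v tb hq5 g2, k1⟩)
    have a0 := none (5 * t) (by omega) (by omega)
    have a2 := none (5 * t + 2) (by omega) (by omega)
    have a3 := none (5 * t + 3) (by omega) (by omega)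
    have a1 := step 1 (Or.inl rfl) (5 * t + 1) (by omega) (sO_1 t) rfl (by omega) fun w hw => by
      rcases hw with hw | hw
      · have h5 := hw.2
        rw [m_NPo h tb v ht', m_NPo h tb v ht'] at h5
        exact h5
      · exact absurd hw.1 (by omega)
    have a4 := step 5 (Or.inr rfl) (5 * t + 4) (by omega) (sO_3 t 2) rfl (by omega) fun w hw => by
      rcases hw with hw | hw
      · exact absurd hw.1 (by omega)
      · have h5 := hw.2
        have e5 : (5 * t + 4) / 5 = t := by omega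
        rw [e5] at h5
        exact chp_HV ((HV_pt h tb v ht' w).2 h5) hL
    have nn : ∀ s : Fin 6, 0 ≤ (D.P h t).Pr (fun w => st4 s ∧ (alP h v p.X1 (qe s t) i w ∧ dgd h v dl t w ∧
        chS h v L s t w) ∧ sgX h v B s t i w) := fun s => (D.P h t).Pr_nonneg _
    rw [a0, a2, a3, Fin.sum_univ_six]
    have n0 := nn 0
    have n2 := nn 2
    have n3 := nn 3
    have n4 := nn 4
    linarith
  rw [sum_five]
  refine (Finset.sum_le_sum h6).trans ?_
  rw [Finset.sum_add_distrib, ← Finset.mul_sum, Finset.sum_add_distrib]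
  unfold Tny at h2
  linarith

end tab

/-! ### numbers -/

open Pool.Agent.GMH.CTM Pool.Agent.GMH.CX

theorem gib_num {A : ℕ} (hA : 80 ≤ A) (K : ℕ) : Ev (fun c0 Lam => ∀ L0 : ℝ, L0 ≤ pw Lam (c1F A c0) * CT.ix Lam (2 * K + 60) →
    ∀ d : ℝ, 0 ≤ d → d ≤ (pw Lam (c0 + A))⁻¹ →
    96 * Real.sqrt ((L0 + Real.log (1 / (apF Lam A c0).dl) + (apF Lam A c0).X1 + Lam + 1) / pw Lam (c1F A c0)) * (240 * Lam) +
      6 * (d + TnB (pw Lam c0) (pw Lam (c1F A c0)) Lam (apF Lam A c0).dl) ≤ CT.ix Lam K) := by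
  refine (Ev.ge (K + 8)).mono fun c0 Lam hL hc L0 hL0 d hd0 hd => ?_
  have hx : (4 : ℝ) ≤ 2 * Lam := by linarith
  have hx0 : (0 : ℝ) < 2 * Lam := by linarith
  have hLam : (0 : ℝ) < Lam := by linarith
  have h1 := c1_big (c0 := c0) hA
  have pz : ∀ c : ℕ, pw Lam c = (2 * Lam) ^ (c : ℤ) := fun c => by unfold pw; rw [zpow_natCast]
  have ipz : ∀ c : ℕ, (pw Lam c)⁻¹ = (2 * Lam) ^ (-(c : ℤ)) := fun c => by rw [pz, zpow_neg]
  have hX1 : (apF Lam A c0).X1 = 3 * pw Lam (cXF A c0) := rfl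
  have hde : (apF Lam A c0).dl = (pw Lam (4 * c1F A c0))⁻¹ := rfl
  have hcX : cXF A c0 = 3 * c0 + 3 * A := rfl
  rw [hX1, hde]
  -- the four terms
  have a1 : L0 ≤ (2 * Lam) ^ ((c1F A c0 : ℤ) - 2 * K - 60) := by
    refine hL0.trans (le_of_eq ?_)
    unfold CT.ix
    rw [ipz, pz, ← zpow_add₀ hx0.ne']
    congr 1
    push_cast
    ring
  have a2 : Real.log (1 / (pw Lam (4 * c1F A c0))⁻¹) ≤ (2 * Lam) ^ ((c1F A c0 : ℤ) - 2 * K - 60) := by
    rw [one_div, inv_inv]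
    unfold pw
    rw [Real.log_pow]
    have q3 := Fn.nat hx (c1F A c0)
    have q4 : (4 : ℝ) * ((c1F A c0 : ℝ) * (2 * Lam)) ≤ (2 * Lam) ^ ((1 : ℤ) + (((c1F A c0 : ℤ) / 2 + 1) + 1)) := by
      refine Fn.mul2 hx (by positivity) (by simpa using Fn.cst hx 1 (c := 4) (by norm_num)) ?_
      exact Fn.mul2 hx hx0.le q3 (by rw [zpow_one])
    have q5 := CT.log_two hL
    have q6 : ((4 * c1F A c0 : ℕ) : ℝ) * Real.log (2 * Lam) ≤ (4 : ℝ) * ((c1F A c0 : ℝ) * (2 * Lam)) := by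
      push_cast
      have : (0 : ℝ) ≤ 4 * (c1F A c0 : ℝ) := by positivity
      nlinarith
    refine q6.trans (q4.trans (Fn.zle hx ?_))
    omega
  have a3 : 3 * pw Lam (cXF A c0) ≤ (2 * Lam) ^ ((c1F A c0 : ℤ) - 2 * K - 60) := by
    refine (Fn.mul2 hx (zero_le_one.trans (pw_one hL _)) (Fn.cst hx 1 (c := 3) (by norm_num))
      (le_of_eq (pz _))).trans (Fn.zle hx ?_)
    rw [hcX]
    push_cast
    omega
  have a4 : Lam + 1 ≤ (2 * Lam) ^ ((c1F A c0 : ℤ) - 2 * K - 60) := by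
    have q1 : Lam + 1 ≤ (2 * Lam) ^ (1 : ℤ) := by rw [zpow_one]; linarith
    refine q1.trans (Fn.zle hx ?_)
    omega
  have a5 := Fn.add2 hx (Fn.add2 hx a1 a2) (Fn.add2 hx a3 a4)
  have a6 : (L0 + Real.log (1 / (pw Lam (4 * c1F A c0))⁻¹) + 3 * pw Lam (cXF A c0) + Lam + 1) / pw Lam (c1F A c0) ≤
      (2 * Lam) ^ (2 * (-(K : ℤ) - 29)) := by
    rw [div_eq_mul_inv]
    have q1 := Fn.mul2 hx (inv_pos.2 (zero_lt_one.trans_le (pw_one hL (c1F A c0)))).le a5 (le_of_eq (ipz (c1F A c0)))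
    refine le_trans (le_of_eq ?_) (q1.trans (Fn.zle hx ?_))
    · ring
    · omega
  have a7 := Fn.sqrt_le hx a6
  have a8 : 96 * Real.sqrt ((L0 + Real.log (1 / (pw Lam (4 * c1F A c0))⁻¹) + 3 * pw Lam (cXF A c0) + Lam + 1) /
      pw Lam (c1F A c0)) * (240 * Lam) ≤ (2 * Lam) ^ (-(K : ℤ) - 2) := by
    have q1 : 96 * Real.sqrt ((L0 + Real.log (1 / (pw Lam (4 * c1F A c0))⁻¹) + 3 * pw Lam (cXF A c0) + Lam + 1) /
        pw Lam (c1F A c0)) ≤ (2 * Lam) ^ (((4 : ℕ) : ℤ) + (-(K : ℤ) - 29)) :=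
      Fn.mul2 hx (Real.sqrt_nonneg _) (Fn.cst hx 4 (c := 96) (by norm_num)) a7
    have q2 : 240 * Lam ≤ (2 * Lam) ^ (((4 : ℕ) : ℤ) + 1) :=
      Fn.mul2 hx hLam.le (Fn.cst hx 4 (c := 240) (by norm_num)) (by rw [zpow_one]; linarith)
    refine (Fn.mul2 hx (by positivity) q1 q2).trans (Fn.zle hx ?_)
    push_cast
    omega
  have b1 : 6 * d ≤ (2 * Lam) ^ (-(K : ℤ) - 2) := by
    refine (Fn.mul2 hx hd0 (Fn.cst hx 2 (c := 6) (by norm_num)) (hd.trans (le_of_eq (ipz _)))).trans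
      (Fn.zle hx ?_)
    push_cast
    omega
  have b2 : 6 * TnB (pw Lam c0) (pw Lam (c1F A c0)) Lam (pw Lam (4 * c1F A c0))⁻¹ ≤ (2 * Lam) ^ (-(K : ℤ) - 2) := by
    unfold TnB
    have q1 : 6 * 64 * 64 * (pw Lam (4 * c1F A c0))⁻¹ ≤ (2 * Lam) ^ (((8 : ℕ) : ℤ) + (-((4 * c1F A c0 : ℕ) : ℤ))) :=
      Fn.mul2 hx (inv_pos.2 (zero_lt_one.trans_le (pw_one hL _))).le (Fn.cst hx 8 (c := 6 * 64 * 64) (by norm_num))
        (le_of_eq (ipz _))
    have q2 : pw Lam c0 * pw Lam (c1F A c0) * Lam ≤ (2 * Lam) ^ ((c0 : ℤ) + (c1F A c0 : ℤ) + 1) := by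
      refine Fn.mul2 hx hLam.le (Fn.mul2 hx (zero_le_one.trans (pw_one hL _)) (le_of_eq (pz _)) (le_of_eq (pz _))) ?_
      rw [zpow_one]
      linarith
    have q3 := Fn.mul2 hx (mul_nonneg (mul_nonneg (zero_le_one.trans (pw_one hL c0)) (zero_le_one.trans (pw_one hL _))) hLam.le)
      q1 q2
    refine le_trans (le_of_eq ?_) (q3.trans (Fn.zle hx ?_))
    · ring
    · push_cast
      omega
  have c1 := Fn.add2 hx (a := -(K : ℤ) - 1) (a8.trans (Fn.zle hx (by omega)))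
    ((Fn.add2 hx b1 b2).trans (Fn.zle hx (by omega)))
  have c2 : CT.ix Lam K = (2 * Lam) ^ (-(K : ℤ)) := ipz K
  rw [c2]
  refine le_trans (le_of_eq ?_) (c1.trans (Fn.zle hx (by omega)))
  ring

/-- **(G2) ON THE LAW OF THE TIME** : digit, cheap or heavy public value, joint private step -/
theorem gib_t {A : ℕ} (hA : 80 ≤ A) (K : ℕ) : AllC A (fun C => ∀ L0 : ℝ, Real.log 2 ≤ L0 →
    L0 ≤ C.N1 * CT.ix C.Lam (2 * K + 60) → ∀ B : ℝ, 4 ≤ B → ∀ i : Fin 3,
    ∑ t ∈ range C.T, ∑ s, (C.D.P C.h t).Pr (fun w => st4 s ∧ arS C.h C.v C.p s t w ∧ chS C.h C.v L0 s t w ∧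
      sgX C.h C.v B s t i w) ≤ CT.ix C.Lam K) := by
  refine ((AllC.of_Ev (gib_num hA K)).and (AllC.all fun C hC => hC)).mono fun C hh L0 hl hL0 B hB i => ?_
  obtain ⟨h1, hC⟩ := hh
  subst hC
  have hdl : 0 < C.p.dl := inv_pos.2 (zero_lt_one.trans_le (pw_one C.hL _))
  have h2 := sum_Ar C.n1 C.N11 C.H C.R hdl ((Real.log_nonneg (by norm_num)).trans hl) hB i (h := C.h) (v := C.v) (p := C.p)
  have h3 := h1 L0 hL0 ((C.D.P C.h C.T).Pr fun w => ¬ Ar C.h C.v C.p (2 * C.T) w) ((C.D.P C.h C.T).Pr_nonneg _) C.hd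
  have h4 : 0 ≤ TnB (pw C.Lam C.c0) (pw C.Lam (c1F C.A C.c0)) C.Lam C.p.dl := by
    have := pw_one C.hL C.c0
    have := pw_one C.hL (c1F C.A C.c0)
    have := C.hL
    unfold TnB
    positivity
  refine h2.trans (le_trans ?_ h3)
  have h5 : 0 ≤ TnB (pw C.Lam C.c0) (pw C.Lam (c1F C.A C.c0)) C.Lam (apF C.Lam C.A C.c0).dl := h4
  rw [mul_add]
  refine add_le_add le_rfl ?_
  linarith

/-- **(G2) ON THE TABLE SPACE** : the removals which are not expensive public values -/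
theorem gib_q {A : ℕ} (hA : 80 ≤ A) (K : ℕ) : AllC A (fun C => ∀ L0 : ℝ, Real.log 2 ≤ L0 →
    L0 ≤ C.N1 * CT.ix C.Lam (2 * K + 60) → ∀ B : ℝ, 4 ≤ B → ∀ i : Fin 3,
    ∑ q ∈ range (5 * C.T), C.tb.Ps.Pr (fun w => rmO C.v C.tb L0 q w ∧ Alv C.h C.v C.tb C.p q w ∧
      sgO C.h C.v C.tb B i q w) ≤ CT.ix C.Lam K) := by
  refine ((AllC.of_Ev (gib_num hA K)).and (AllC.all fun C hC => hC)).mono fun C hh L0 hl hL0 B hB i => ?_
  obtain ⟨h1, hC⟩ := hh
  subst hC
  have hdl : 0 < C.p.dl := inv_pos.2 (zero_lt_one.trans_le (pw_one C.hL _))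
  have hdl1 : 64 * C.p.dl ≤ 1 := by
    have h2 : C.p.dl ≤ (pw C.Lam 3)⁻¹ := inv_anti₀ (zero_lt_one.trans_le (pw_one C.hL _)) (CT.pw_mono C.hL (by
      have := c1_big (c0 := C.c0) hA
      omega))
    have h3 : (pw C.Lam 3)⁻¹ ≤ ((4 : ℝ) ^ 3)⁻¹ := CT.ix_four C.hL 3
    have h4 : ((4 : ℝ) ^ 3)⁻¹ = 1 / 64 := by norm_num
    linarith
  have h2 := sum_tab (tb := C.tb) C.n1 C.N11 C.H C.R hdl hdl1 hl hB i (h := C.h) (v := C.v) (p := C.p)
  have h3 := h1 L0 hL0 (C.tb.Ps.Pr (fun w => ¬ Alv C.h C.v C.tb C.p (5 * C.T) w)) (C.tb.Ps.Pr_nonneg _) C.dead_le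
  have h4 : 0 ≤ TnB (pw C.Lam C.c0) (pw C.Lam (c1F C.A C.c0)) C.Lam C.p.dl := by
    have := pw_one C.hL C.c0
    have := pw_one C.hL (c1F C.A C.c0)
    have := C.hL
    unfold TnB
    positivity
  have h5 := C.tb.Ps.Pr_nonneg (fun w => ¬ Alv C.h C.v C.tb C.p (5 * C.T) w)
  refine h2.trans (le_trans ?_ h3)
  refine add_le_add le_rfl ?_
  show 2 * (_ + TnB (pw C.Lam C.c0) (pw C.Lam (c1F C.A C.c0)) C.Lam C.p.dl) ≤
    6 * (_ + TnB (pw C.Lam C.c0) (pw C.Lam (c1F C.A C.c0)) C.Lam C.p.dl)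
  linarith

end

end Pool.Agent.GMH.SngG
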