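import Pool.Agent.GMH.SglC
import Pool.Agent.GMH.SngG2
import Pool.Agent.GMH.Fin0

/-!
# GMH/SglK (helper77): THE HEADS OF KIND S OVER `Ctx`

* `Xpq C L0` : the expensive public removals; `KSC C c B L0 e e3 δ` : `KS` for the alive points `Alv` of the run;
* `hal_N`, `hal_V` : the points of FULL (of TWO) at a removal are alive; `aV_1`, `aV_3` : the steps of TWO;
* `ksc_of` : `KSC` from the head (G2) of `GMH/SngG2` and the named heads (EXP), (G3a), (G3b) in the form of kind S (`rmO`);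
* `sg_two`, `sd_two` : (SG), (SD) of `UnrD2.unrTwoD`.
-/

set_option autoImplicit false
set_option linter.unusedSectionVars false

namespace Pool.Agent.GMH.CX

open Finset Pool.Agent.PWZ Pool.Agent.M3 Pool.Agent.GM Pool.Agent.GM.Harm Pool.Agent.GMH Pool.Agent.GMH.NZ
open Pool.Agent.GMH.V3 Pool.Agent.GMH.TP Pool.Agent.GMH.TD Pool.Agent.GMH.Dy Pool.Agent.GMH.KF Pool.Agent.GMH.MVT
open Pool.Agent.GMH.TRF Pool.Agent.GMH.UV Pool.Agent.GMH.MVI Pool.Agent.GMH.MV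

noncomputable section

variable (C : Ctx) (ka : ℕ)

/-- the expensive public removals -/
def Xpq (L0 : ℝ) (q : ℕ) (w : C.O) : Prop :=
  q % 5 = 1 ∧ C.tb.Ps.m (NPo C.tb C.v (q + 1)) w < Real.exp (-L0) * C.tb.Ps.m (NPo C.tb C.v q) w

/-- **the heads of kind S over one run** -/
abbrev KSC (c : KC) (B L0 e e3 δ : ℝ) : Prop :=
  KS C.h C.tb C.v c (Alv C.h C.v C.tb C.p) (Xpq C L0) B e e3 δ

theorem hal_N : ∀ q < 5 * C.T, ∀ w, C.tb.Ps.p w ≠ 0 → rmq C.tb C.v q w → aO C.tb (C.aN ka) q w →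
    Alv C.h C.v C.tb C.p q w := fun _ hq _ hw hr ha => alv_sR C.tb (by omega) (rmq_mod hr) hw (aT_aO C.tb (rmq_mod hr) ha)

theorem hal_V (i : Fin 3) : ∀ q < 5 * C.T, ∀ w, C.tb.Ps.p w ≠ 0 → stO2 q → aO2 C.tb (C.aV ka i) q w →
    Alv C.h C.v C.tb C.p q w := fun _ hq _ hw hst ha => alv_sR C.tb (by omega) hst hw (aT_aO2 C.tb ha)

theorem aV_1 (i : Fin 3) : ∀ t < C.T, ∀ u, C.aV ka i false t u → ¬ HV C.h C.v t u := fun _ _ _ hu => hu.1.1.2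

theorem aV_3 (i : Fin 3) : ∀ t < C.T, ∀ u, C.aV ka i true t u → lpv C.h C.v i t u ∧ HV C.h C.v t u := fun t _ u hu =>
  ⟨(fstV_some (s := fun j => lft (sts (C.U ka).toMS j (5 * t + 4)) u ∧ lpv C.h C.v j t u) (i := i) hu.2).2, hu.1.1.2⟩

variable {C}

/-- **the heads of kind S of the run, from the named heads** -/
theorem ksc_of {c : KC} {B L0 e e3 δ : ℝ} (d0 : 0 ≤ δ)
    (ex : ∀ l, ∑ q ∈ range (5 * C.T), C.tb.Ps.Pr (fun w => Xpq C L0 q w ∧ Alv C.h C.v C.tb C.p q w ∧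
      bsO C.h C.tb C.v c l q w) ≤ δ)
    (ga : ∀ l, ∑ q ∈ range (5 * C.T), C.tb.Ps.Pr (fun w => SngG.rmO C.v C.tb L0 q w ∧ Alv C.h C.v C.tb C.p q w ∧
      bsO C.h C.tb C.v c l q w ∧ acO C.h C.tb C.v e3 l q w) ≤ δ)
    (gb : ∀ l x y, l ≠ x → l ≠ y → x ≠ y → ∑ q ∈ range (5 * C.T), C.tb.Ps.Pr (fun w => SngG.rmO C.v C.tb L0 q w ∧
      Alv C.h C.v C.tb C.p q w ∧ bsO C.h C.tb C.v c l q w ∧ acO C.h C.tb C.v e x q w ∧ acO C.h C.tb C.v e y q w) ≤ δ)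
    (gc : ∀ l, ∑ q ∈ range (5 * C.T), C.tb.Ps.Pr (fun w => SngG.rmO C.v C.tb L0 q w ∧ Alv C.h C.v C.tb C.p q w ∧
      SngG.sgO C.h C.v C.tb B l q w) ≤ δ) : KSC C c B L0 e e3 δ := by
  have hrm : ∀ q w, rmq C.tb C.v q w ∧ ¬ Xpq C L0 q w → SngG.rmO C.v C.tb L0 q w := fun q w hh => SngG.rmO_of hh.1 hh.2
  refine ⟨d0, fun l => ?_, fun l => ?_, fun l x y h1 h2 h3 => ?_, fun l => ?_⟩
  · exact le_trans (Finset.sum_le_sum fun q _ => C.tb.Ps.Pr_mono fun w _ hh => ⟨hh.1.2, hh.2⟩) (ex l)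
  · exact le_trans (Finset.sum_le_sum fun q _ => C.tb.Ps.Pr_mono fun w _ hh => ⟨hrm q w hh.1, hh.2⟩) (ga l)
  · exact le_trans (Finset.sum_le_sum fun q _ => C.tb.Ps.Pr_mono fun w _ hh => ⟨hrm q w hh.1, hh.2⟩) (gb l x y h1 h2 h3)
  · refine le_trans (Finset.sum_le_sum fun q _ => C.tb.Ps.Pr_mono fun w _ hh => ⟨hrm q w hh.1, hh.2.1, hh.2.2.1, ?_⟩) (gc l)
    rw [qs_rm (rmq_mod hh.1.1)]
    exact hh.2.2.2

/-- the cost of a measure -/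
theorem ks_cost (C : Ctx) {L δ S : ℝ} {k m s : ℕ} {a : ℝ} (hL0 : 0 ≤ L) (hL : L ≤ pw C.Lam k)
    (hδ : δ ≤ CT.ix C.Lam (k + m + s)) (ha : a ≤ 4 ^ m) (ha0 : 0 ≤ a) (hS : S ≤ a * δ) : L * S ≤ CT.ix C.Lam s := by
  have h1 : L * S ≤ L * (a * CT.ix C.Lam (k + m + s)) :=
    mul_le_mul_of_nonneg_left (hS.trans (mul_le_mul_of_nonneg_left hδ ha0)) hL0
  have h2 : L * a ≤ pw C.Lam (k + m) := CT.mul_pw C.hL ha0 hL (CT.cst C.hL m ha)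
  have h3 := CT.fin C.hL (k := k + m + s) (s := s) h2 le_rfl
  refine h1.trans (le_trans (le_of_eq ?_) h3)
  ring

variable {ka} {c : KC} {B L0 e e3 δ : ℝ} (K : KSC C c B L0 e e3 δ) {r : RC} {i : Fin 3} {L : ℝ} {k : ℕ}

include K

/-- **(SG) of TWO** -/
theorem sg_two (hL0 : 0 ≤ L) (hL : L ≤ pw C.Lam k) (hδ : δ ≤ CT.ix C.Lam (k + 2 + 24)) (he : e3 ≤ e) (hF : 0 < c.eF)
    (hS : 0 < c.eS) (hB : 1 ≤ r.B) (hBB : r.B = B) (hd : Real.exp c.eS ≤ 1 + r.d) :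
    L * ∑ q ∈ range (5 * C.T), C.tb.Ps.Pr (stB2 C.h C.tb C.v c r i (C.aV ka i) e q) ≤ CT.ix C.Lam 24 :=
  ks_cost C hL0 hL hδ (by norm_num) (by norm_num : (0 : ℝ) ≤ 8)
    (sg2_sum K he hF hS hB hBB hd (aV_1 C ka i) (aV_3 C ka i) (hal_V C ka i))

/-- **(SD) of TWO** -/
theorem sd_two (B' : ℝ) (hL0 : 0 ≤ L) (hL : L ≤ pw C.Lam k) (hδ : δ ≤ CT.ix C.Lam (k + 2 + 24)) :
    L * ∑ q ∈ range (5 * C.T), C.tb.Ps.Pr (sfO2 C.h C.tb C.v c i (C.aV ka i) B' e3 q) ≤ CT.ix C.Lam 24 :=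
  ks_cost C hL0 hL hδ (by norm_num) (by norm_num : (0 : ℝ) ≤ 6)
    (sd2_sum K B' (aV_1 C ka i) (aV_3 C ka i) (hal_V C ka i))

/-- **(S1)** of `unrFull`, `Al := alR` -/
theorem s1_full (hL0 : 0 ≤ L) (hL : L ≤ pw C.Lam k) (hδ : δ ≤ CT.ix C.Lam (k + 1 + 30)) (he : e3 ≤ e) (l x y : Fin 3)
    (hxy : x ≠ y) : L * ∑ q ∈ range (5 * C.T), C.tb.Ps.Pr
      (S1O C.h C.tb C.v c (alR C.tb C.v (Alv C.h C.v C.tb C.p)) e l x y q) ≤ CT.ix C.Lam 30 :=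
  ks_cost C hL0 hL hδ (by norm_num) (by norm_num : (0 : ℝ) ≤ 2) (s1_sum K.imp he l hxy)

/-- **(S2)** of `unrFull` -/
theorem s2_full (B' : ℝ) (hL0 : 0 ≤ L) (hL : L ≤ pw C.Lam k) (hδ : δ ≤ CT.ix C.Lam (k + 1 + 30)) (l : Fin 3) :
    L * ∑ q ∈ range (5 * C.T), C.tb.Ps.Pr
      (S2O C.h C.tb C.v c (alR C.tb C.v (Alv C.h C.v C.tb C.p)) B' e3 l q) ≤ CT.ix C.Lam 30 :=
  ks_cost C hL0 hL hδ (by norm_num) (by norm_num : (0 : ℝ) ≤ 2) (s2_sum K.imp B' l)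

/-- **(S3)** of `unrFull` -/
theorem s3_full {d : ℝ} (hd : Real.exp c.eS ≤ 1 + d) (hL0 : 0 ≤ L) (hL : L ≤ pw C.Lam k)
    (hδ : δ ≤ CT.ix C.Lam (k + 1 + 30)) (l : Fin 3) : L * ∑ q ∈ range (5 * C.T), C.tb.Ps.Pr
      (S3O C.h C.tb C.v (alR C.tb C.v (Alv C.h C.v C.tb C.p)) B d l q) ≤ CT.ix C.Lam 30 :=
  ks_cost C hL0 hL hδ (by norm_num) (by norm_num : (0 : ℝ) ≤ 2) (s3_sum K.imp hd l)

omit K in
/-- the alive family of `unrFull` -/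
theorem hal_F (C : Ctx) (ka : ℕ) : ∀ q < 5 * C.T, ∀ w, C.tb.Ps.p w ≠ 0 → aO C.tb (C.aN ka) q w →
    alR C.tb C.v (Alv C.h C.v C.tb C.p) q w := fun q hq w hw ha hr => hal_N C ka q hq w hw hr ha

end

end Pool.Agent.GMH.CX
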