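import Pool.Agent.GMH.RegC2
import Pool.Agent.GMH.ConT3
import Pool.Agent.GMH.MVT

/-!
# GMH/UnrTwo: the unreleased sums of the frame two, assembly (helper77; second half of `twoOK2`)

* `unr2_num` : the numbers of the rounds: `L (∑_(k ∈ rK2 i) √uB (240 Lam / e ^ 2) + ST + TN + SG) ≤ 4 x^(-24)`;
* `unrTwo_gen` : `∑_t ∑_b UnrS2 ≤ 4 x^(-24)` for any alive sets with a light value of `i` in the private steps, from the three sums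
  (ST) `stkO2` : undecided in the zone, (TN) `tnO2` : at a removal, two active tops, not good, (SG) `stB2` : thin points
  with two active tops and single strong letters;
* `unrTwo` : the same for the alive sets `aV` with the status `stP`, `spP` of `GMH/MVT`.
-/

set_option autoImplicit false
set_option linter.unusedSectionVars false

namespace Pool.Agent.GMH.TRF

open Finset Pool.Agent.PWZ Pool.Agent.M3 Pool.Agent.GM Pool.Agent.GM.Harm Pool.Agent.GMH Pool.Agent.GMH.NZ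
open Pool.Agent.GMH.V3 Pool.Agent.GMH.TP Pool.Agent.GMH.TD Pool.Agent.GMH.Dy Pool.Agent.GMH.MV Pool.Agent.GMH.MVI
open Pool.Agent.GMH.UV Pool.Agent.GMH.KF Pool.Agent.GMH.CK

noncomputable section

/-! ### numbers -/

theorem rd_kL (R : CT.Rounds) (k : ℕ) : (CT.rd R k).kL = R.kL := by
  unfold CT.rd
  split_ifs <;> rfl

theorem rd_kg (R : CT.Rounds) (k : ℕ) : (CT.rd R k).kg = R.kg := by
  unfold CT.rd
  split_ifs <;> rfl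

/-- sixteen parts of `x^(-24)` -/
theorem ix_24_17 {Lam : ℝ} (hL : 2 ≤ Lam) : (16 : ℝ) * CT.ix Lam 24 ≤ (pw Lam 17)⁻¹ :=
  CT.cst_ix (Lam := Lam) hL (j := 7) (s := 17) (by norm_num)

/-- **THE NUMBERS OF THE UNRELEASED SUM** -/
theorem unr2_num (RR : CT.Rounds) {Lam : ℝ} (hL : 2 ≤ Lam) {rk : Finset (Fin 10)} (hrk : rk.card ≤ 10) {uB : Fin 10 → ℝ}
    (hU : ∀ k ∈ rk, uB k = CT.ix Lam (CT.rd RR k).uB) {L GA S1 S2 S3 : ℝ} (hL0 : 0 ≤ L) (hLb : L ≤ pw Lam RR.kL)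
    (hG0 : 0 ≤ GA) (hGA : GA ≤ pw Lam RR.kg) (h1 : L * S1 ≤ CT.ix Lam 24) (h2 : L * S2 ≤ CT.ix Lam 24)
    (h3 : L * S3 ≤ CT.ix Lam 24) :
    L * (∑ k ∈ rk, Real.sqrt (uB k) * GA + S1 + S2 + S3) ≤ 4 * CT.ix Lam 24 := by
  have h4 : L * ∑ k ∈ rk, Real.sqrt (uB k) * GA ≤ CT.ix Lam 24 := by
    rw [Finset.mul_sum]
    have h5 : ∀ k ∈ rk, L * (Real.sqrt (uB k) * GA) ≤ CT.ix Lam 44 := fun k hk => by
      rw [hU k hk, CT.sqrt_uB (CT.rd RR k) hL]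
      have h6 := CT.t_before (CT.rd RR k) hL (c := 1) (L := L) (GA := GA) (by norm_num) hL0 (by rw [rd_kL]; exact hLb) hG0
        (by rw [rd_kg]; exact hGA)
      refine le_trans (le_of_eq ?_) h6
      ring
    refine (Finset.sum_le_sum h5).trans ?_
    rw [Finset.sum_const, nsmul_eq_mul]
    have h7 : (rk.card : ℝ) ≤ 10 := by exact_mod_cast hrk
    exact CT.tot hL (h7.trans (by norm_num))
  have h8 : L * (∑ k ∈ rk, Real.sqrt (uB k) * GA + S1 + S2 + S3) =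
      L * ∑ k ∈ rk, Real.sqrt (uB k) * GA + L * S1 + L * S2 + L * S3 := by ring
  rw [h8]
  linarith

variable {X β γ φ : Type} [Fintype X] [Fintype β] [Fintype φ] [Nonempty X] [Nonempty β]
variable {D : HD (Fin 3) X β γ φ} {al : ℝ} (h : D.Thick al) {prr : ℕ → Fin 3 → φ → φ} {T : ℕ} {W : Type} [Fintype W]
variable (tb : Tab D prr T W) {v : ℕ → Finset (Fin 3) → X → (Fin 3 → β) → Pt (Fin 3) X β φ}
variable (hv : Codes D v) {d1 kb d0 k0 p1 z : ℝ} (hd1 : 0 < d1) (hd11 : d1 ≤ 1) (hkb : 0 < kb) (hd0 : 0 < d0)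
  (hd01 : d0 ≤ 1) (hk0 : 0 < k0) (hp1 : 0 < p1) (hz : 0 < z)
variable (Qk : Fin 10 → Kd (Om W X β))

theorem rK2_le10 (i : Fin 3) : (rK2 i).card ≤ 10 := (Finset.card_le_univ _).trans (le_of_eq (Fintype.card_fin 10))

/-- **THE UNRELEASED SUMS OF THE FRAME TWO**, any alive sets -/
theorem unrTwo_gen {dg : ℕ → X → ℝ} {Lam : ℝ} (H : D.Hyp dg prr al T Lam) (hL : 2 ≤ Lam) {n N1 : ℝ}
    (R : Run h (pr3 (Fin 3) n N1) (SS1 (Fin 3)) (AdmDep D) v) (hn : 1 ≤ n) (hN1 : 1 ≤ N1)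
    {c : KC} {r : RC} {i : Fin 3} {A : Bool → ℕ → Pt (Fin 3) X β φ → Prop} {gM : Fin 10 → ℕ → Om W X β → Prop}
    (hA1 : ∀ t < T, ∀ u, A false t u → ¬ HV h v t u) (hA3 : ∀ t < T, ∀ u, A true t u → lpv h v i t u ∧ HV h v t u)
    {e : ℝ} (he : 0 < e) (he1 : e ≤ 1) (hB : 1 + e ≤ r.B) (hee : e ≤ r.e1) (h12 : c.e1 ≤ c.e2) (h23 : c.e2 ≤ c.e3)
    (hdH : 0 < c.dH) (hd : (1 + c.dH) * Real.exp (2 * c.eS) ≤ 1 + r.d)
    {eta : ℝ} (heta : 0 < eta) (heta1 : eta ≤ 1) (hVk : ∀ k, (Qk k).Vk = {i})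
    (hkd : ∀ k ∈ rK2 i, ∀ w, tb.Ps.p w ≠ 0 → ∀ q, gdO2 h tb v c r.B i (rK2 i) A gM k q w →
      (rpO tb v i q w ∨ ruO tb v q w) →
      (Qk k).kd (some i) (tv (USi tb hv d1 kb d0 k0 p1 z hd1 hd11 hkb hd0 hd01 hk0 hp1 hz) i q w) w)
    (RR : CT.Rounds) (hU : ∀ k ∈ rK2 i, (Qk k).uB = CT.ix Lam (CT.rd RR k).uB)
    (hLb : 3 * Lam + Real.log (1 / eta) ≤ pw Lam RR.kL) (hGA : 240 * Lam / e ^ 2 ≤ pw Lam RR.kg)
    (ST : (3 * Lam + Real.log (1 / eta)) * ∑ k ∈ rK2 i, ∑ q ∈ range (5 * T), tb.Ps.Pr (stkO2 h tb v Qk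
      (USi tb hv d1 kb d0 k0 p1 z hd1 hd11 hkb hd0 hd01 hk0 hp1 hz) c r.B i (rK2 i) A gM e k q) ≤ CT.ix Lam 24)
    (TN : (3 * Lam + Real.log (1 / eta)) * ∑ k ∈ rK2 i, ∑ q ∈ range (5 * T),
      tb.Ps.Pr (tnO2 h tb v c r.B i (rK2 i) A gM e k q) ≤ CT.ix Lam 24)
    (SG : (3 * Lam + Real.log (1 / eta)) * ∑ q ∈ range (5 * T), tb.Ps.Pr (stB2 h tb v c r i A e q) ≤ CT.ix Lam 24) :
    ∑ t ∈ range T, ∑ b, UnrS2 h v c r.B i (rK2 i) (Rg2 h v c r i)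
        (fun k q => lft (bO2 Qk (USi tb hv d1 kb d0 k0 p1 z hd1 hd11 hkb hd0 hd01 hk0 hp1 hz) i k q))
        (fun k q => lft (zO2 Qk (USi tb hv d1 kb d0 k0 p1 z hd1 hd11 hkb hd0 hd01 hk0 hp1 hz) k q)) A eta b t ≤
      4 * CT.ix Lam 24 := by
  classical
  have hlog : 0 ≤ Real.log (1 / eta) := Real.log_nonneg (by rw [le_div_iff₀ heta]; linarith)
  have hLc : 0 ≤ 3 * Lam + Real.log (1 / eta) := by linarith
  have hN : ∀ l : Fin 3, 0 < pr3 (Fin 3) n N1 (univ.erase l) := fun l => zero_lt_one.trans_le (pr3_one hn hN1 _)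
  have h1 := unrS2_le (v := v) (c := c) (B := r.B) (i := i) (rk := rK2 i) (A := A) (Rg := Rg2 h v c r i) (gM := gM) h tb hv hd1
    hd11 hkb hd0 hd01 hk0 hp1 hz Qk H R hn hN1 hA1 he he1 heta heta1 hVk hkd
  have h2 : ∑ q ∈ range (5 * T), tb.Ps.Pr (hvO2 tb v i A (Rg2 h v c r i) q) = 0 :=
    Finset.sum_eq_zero fun q hq => by
      have hq' := Finset.mem_range.1 hq
      exact hvO2_zero (h := h) (by omega) (hA3 (q / 5) (by omega))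
  have h3 : ∑ q ∈ range (5 * T), tb.Ps.Pr (sgO2 h tb v c r.B i (rK2 i) A (Rg2 h v c r i) e q) ≤
      ∑ q ∈ range (5 * T), tb.Ps.Pr (stB2 h tb v c r i A e q) := Finset.sum_le_sum fun q hq => by
    have hq' := Finset.mem_range.1 hq
    exact sgO2_le h tb he.le hB hee h12 h23 hdH hd (by omega)
  have hG0 : 0 ≤ 240 * Lam / e ^ 2 := by positivity
  have h4 := unr2_num RR hL (rk := rK2 i) (rK2_le10 i) (uB := fun k => (Qk k).uB) hU hLc hLb hG0 hGA ST TN SG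
  refine h1.trans (le_trans (mul_le_mul_of_nonneg_left ?_ hLc) h4)
  rw [h2]
  linarith

/-- **THE UNRELEASED SUMS OF THE FRAME TWO**, alive sets of the run -/
theorem unrTwo {dg : ℕ → X → ℝ} {Lam : ℝ} (H : D.Hyp dg prr al T Lam) (hL : 2 ≤ Lam) {n N1 : ℝ}
    (R : Run h (pr3 (Fin 3) n N1) (SS1 (Fin 3)) (AdmDep D) v) (hn : 1 ≤ n) (hN1 : 1 ≤ N1)
    {c : KC} {r : RC} {i : Fin 3} {p : AP} {Gd : ℕ → Pt (Fin 3) X β φ → Prop}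
    {st : ℕ → Pt (Fin 3) X β φ → Option (Fin 3)} {gM : Fin 10 → ℕ → Om W X β → Prop}
    {e : ℝ} (he : 0 < e) (he1 : e ≤ 1) (hB : 1 + e ≤ r.B) (hee : e ≤ r.e1) (h12 : c.e1 ≤ c.e2) (h23 : c.e2 ≤ c.e3)
    (hdH : 0 < c.dH) (hd : (1 + c.dH) * Real.exp (2 * c.eS) ≤ 1 + r.d)
    {eta : ℝ} (heta : 0 < eta) (heta1 : eta ≤ 1) (hVk : ∀ k, (Qk k).Vk = {i})
    (hkd : ∀ k ∈ rK2 i, ∀ w, tb.Ps.p w ≠ 0 → ∀ q, gdO2 h tb v c r.B i (rK2 i)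
      (TP.aV h v p Gd st (MVT.spP h (MSi tb (v := v) d1 kb d0 k0 p1 z hd1 hd11 hkb hd0 hd01 hk0 hp1 hz) v) i) gM k q w →
      (rpO tb v i q w ∨ ruO tb v q w) →
      (Qk k).kd (some i) (tv (USi tb hv d1 kb d0 k0 p1 z hd1 hd11 hkb hd0 hd01 hk0 hp1 hz) i q w) w)
    (RR : CT.Rounds) (hU : ∀ k ∈ rK2 i, (Qk k).uB = CT.ix Lam (CT.rd RR k).uB)
    (hLb : 3 * Lam + Real.log (1 / eta) ≤ pw Lam RR.kL) (hGA : 240 * Lam / e ^ 2 ≤ pw Lam RR.kg)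
    (ST : (3 * Lam + Real.log (1 / eta)) * ∑ k ∈ rK2 i, ∑ q ∈ range (5 * T), tb.Ps.Pr (stkO2 h tb v Qk
      (USi tb hv d1 kb d0 k0 p1 z hd1 hd11 hkb hd0 hd01 hk0 hp1 hz) c r.B i (rK2 i)
      (TP.aV h v p Gd st (MVT.spP h (MSi tb (v := v) d1 kb d0 k0 p1 z hd1 hd11 hkb hd0 hd01 hk0 hp1 hz) v) i) gM e k q) ≤
        CT.ix Lam 24)
    (TN : (3 * Lam + Real.log (1 / eta)) * ∑ k ∈ rK2 i, ∑ q ∈ range (5 * T),
      tb.Ps.Pr (tnO2 h tb v c r.B i (rK2 i)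
      (TP.aV h v p Gd st (MVT.spP h (MSi tb (v := v) d1 kb d0 k0 p1 z hd1 hd11 hkb hd0 hd01 hk0 hp1 hz) v) i) gM e k q) ≤
        CT.ix Lam 24)
    (SG : (3 * Lam + Real.log (1 / eta)) * ∑ q ∈ range (5 * T), tb.Ps.Pr (stB2 h tb v c r i
      (TP.aV h v p Gd st (MVT.spP h (MSi tb (v := v) d1 kb d0 k0 p1 z hd1 hd11 hkb hd0 hd01 hk0 hp1 hz) v) i) e q) ≤
        CT.ix Lam 24) :
    ∑ t ∈ range T, ∑ b, UnrS2 h v c r.B i (rK2 i) (Rg2 h v c r i)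
        (fun k q => lft (bO2 Qk (USi tb hv d1 kb d0 k0 p1 z hd1 hd11 hkb hd0 hd01 hk0 hp1 hz) i k q))
        (fun k q => lft (zO2 Qk (USi tb hv d1 kb d0 k0 p1 z hd1 hd11 hkb hd0 hd01 hk0 hp1 hz) k q))
        (TP.aV h v p Gd st (MVT.spP h (MSi tb (v := v) d1 kb d0 k0 p1 z hd1 hd11 hkb hd0 hd01 hk0 hp1 hz) v) i) eta b t ≤
      4 * CT.ix Lam 24 :=
  unrTwo_gen h tb hv hd1 hd11 hkb hd0 hd01 hk0 hp1 hz Qk H hL R hn hN1 (fun _ _ _ hu => hu.1.1.2)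
    (fun t _ u hu => ⟨(MVT.fstV_some (s := fun j => lft (sts (MSi tb (v := v) d1 kb d0 k0 p1 z hd1 hd11 hkb hd0 hd01 hk0 hp1 hz)
      j (5 * t + 4)) u ∧ lpv h v j t u) (i := i) hu.2).2, hu.1.1.2⟩) he he1 hB hee h12 h23 hdH hd
    heta heta1 hVk hkd RR hU hLb hGA ST TN SG

end

end Pool.Agent.GMH.TRF
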