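import Pool.Agent.GMH.RegD
import Pool.Agent.GMH.HotK
import Pool.Agent.GMH.UnrTwo
import Pool.Agent.GMH.StpI2

/-!
# GMH/UnrD2: the unreleased sums of the frame two for the region (d), hot pairs; `hUnr` of `twoOK2` (helper77)

* `hotF_hotQ` : a hot pair of the frame `Fo F i` at the true pair is hot in the sense of `GMH/HotK`, if the marginals given all
  thin letters are at most `s` times the own laws; `mq_le` : so it is without a strong single, `exp eS ≤ s`;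
* `ssO q` : thin strong point in the substep `q`; `hdO2 q` : alive, thin strong point, hot pair of the vertex `i`, one of its
  tops rising `> 1 + e3`; `sfO2 q` : the same with a strong single `sSO l` of a rising top `l` instead of hot;
* `rd2_cases` : the region (d) at the true pair; `unrD2_le` : `∑_t ∑_b UnrS2 (Rd2) ≤ (3 Lam + log (1 / eta)) ∑_q (Pr hdO2 +
  Pr sfO2)`;
* `unrTwoD` : **`hUnr` of `twoOK2`** for the region `Rg2` or `Rd2`, alive sets of the run, from five sums.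
-/

set_option autoImplicit false
set_option linter.unusedSectionVars false

namespace Pool.Agent.GMH.KF

open Finset Pool.Agent.PWZ Pool.Agent.M3 Pool.Agent.GMH

noncomputable section

section one

variable {Om : Type*} [Fintype Om] {P : FP Om} {α β φ : Type*} {Z : Om → β} {Zb : Fin 3 → Om → α}
  {F : Fin 3 → Om → φ} {i : Fin 3}

theorem mF2_pS {j k : Fin 3} (w : Om) : mF2 P Z F j k w (F j w) (F k w) = pS P Z F {j, k} w (tup F w) := by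
  unfold mF2 FP.pv pS
  refine P.ce_congr (fun u _ => ?_) w
  congr 1
  refine propext ⟨fun hh l hl => ?_, fun hh => ?_⟩
  · rcases Finset.mem_insert.1 hl with rfl | h1
    · exact (Prod.mk.inj hh).1
    · rw [Finset.mem_singleton] at h1
      subst h1
      exact (Prod.mk.inj hh).2
  · exact Prod.ext (hh j (by simp)) (hh k (by simp))

/-- **a hot pair of the frame is hot in the sense of `GMH/HotK`** -/
theorem hotF_hotQ {E s : ℝ} (hE : 0 < E) {j k : Fin 3} (hj : j ≠ i) (hk : k ≠ i) (hjk : j ≠ k) {w : Om} (hw : P.p w ≠ 0)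
    (hs : ∀ l, l ≠ i → mF P Z F l w (F l w) ≤ s * qF P Zb F l w (F l w))
    (hh : hotF P Z Zb (Fo F i) E j k w (some (F j w)) (some (F k w))) :
    hotQ P Z Zb F (Real.log E) s i w (tup F w) := by
  have ho : opp i = {j, k} := by
    have key : ∀ i j k : Fin 3, j ≠ i → k ≠ i → j ≠ k → univ.erase i = ({j, k} : Finset (Fin 3)) := by decide
    exact key i j k hj hk hjk
  unfold hotF at hh
  rw [FoL.qF_Fo P F i Zb hj, FoL.qF_Fo P F i Zb hk, FoL.mF2_Fo P F i Z hj hk, mF2_pS] at hh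
  refine ⟨fun l hl => ⟨true_q P F hw l, hs l (Finset.ne_of_mem_erase hl)⟩, ?_⟩
  rw [ho, Real.exp_log hE, Finset.prod_pair hjk]
  exact hh.le

/-- without a strong single the law given all thin letters is at most `s` times the own law -/
theorem mq_le {c : KC} {s : ℝ} (hs1 : Real.exp c.eS ≤ s) {w : Om} (hw : P.p w ≠ 0) {l : Fin 3}
    (hs : ¬ sS P Z Zb F c l w (tup F w)) : mF P Z F l w (F l w) ≤ s * qF P Zb F l w (F l w) := by
  have h1 := ns_le (P := P) (Z := Z) (Zb := Zb) (G := F) (c := c) (l := l) (w := w) (f := tup F w) hs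
    (P.pv_self_pos _ _ hw) (P.pv_self_pos _ _ hw)
  exact h1.trans (mul_le_mul_of_nonneg_right hs1 (P.pv_nonneg _ _ _ _))

end one

end

end Pool.Agent.GMH.KF

namespace Pool.Agent.GMH.TRF

open Finset Pool.Agent.PWZ Pool.Agent.M3 Pool.Agent.GM Pool.Agent.GM.Harm Pool.Agent.GMH Pool.Agent.GMH.NZ
open Pool.Agent.GMH.V3 Pool.Agent.GMH.TP Pool.Agent.GMH.TD Pool.Agent.GMH.Dy Pool.Agent.GMH.MV Pool.Agent.GMH.MVI
open Pool.Agent.GMH.UV Pool.Agent.GMH.KF Pool.Agent.GMH.CK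

noncomputable section

variable {X β γ φ : Type} [Fintype X] [Fintype β] [Fintype φ] [Nonempty X] [Nonempty β]
variable {D : HD (Fin 3) X β γ φ} {al : ℝ} (h : D.Thick al) {prr : ℕ → Fin 3 → φ → φ} {T : ℕ} {W : Type} [Fintype W]
variable (tb : Tab D prr T W) (v : ℕ → Finset (Fin 3) → X → (Fin 3 → β) → Pt (Fin 3) X β φ)

/-- a thin strong point in the substep `q` -/
def ssO (B : ℝ) (q : ℕ) (w : Om W X β) : Prop :=
  ∃ j, B < Pool.Agent.GMH.tF (D.P h (q / 5)) (ZQ D v q) (ZbQ D v q) (ZbQ D v (qe (sO q) (q / 5))) j (tb.pt (q / 5) w)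

variable (c : KC) (i : Fin 3) (A : Bool → ℕ → Pt (Fin 3) X β φ → Prop)

/-- strong single of the top `l` at the state `q` (true letter) -/
def sSO (l : Fin 3) (q : ℕ) (w : Om W X β) : Prop :=
  sS (D.P h (q / 5)) (ZQ D v q) (ZbQ D v q) (FQ v (q / 5)) c l (tb.pt (q / 5) w) (tup (FQ v (q / 5)) (tb.pt (q / 5) w))

/-- alive thin strong point, hot pair of the vertex `i`, one of its tops rising -/
def hdO2 (B a s e3 : ℝ) (q : ℕ) (w : Om W X β) : Prop :=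
  (q % 5 = 1 ∨ q % 5 = 4) ∧ (aO2 tb A q w ∧ ssO h tb v B q w) ∧ hotq h v tb i a s q w ∧
    ∃ j, j ≠ i ∧ 1 + e3 < rtO h tb v j q w

/-- alive thin strong point, strong single of a rising top -/
def sfO2 (B e3 : ℝ) (q : ℕ) (w : Om W X β) : Prop :=
  (q % 5 = 1 ∨ q % 5 = 4) ∧ (aO2 tb A q w ∧ ssO h tb v B q w) ∧
    ∃ l, l ≠ i ∧ sSO h tb v c l q w ∧ 1 + e3 < rtO h tb v l q w

variable {v c i A}

/-- **THE REGION (d) AT THE TRUE PAIR** -/
theorem rd2_cases {B E s e3 : ℝ} (hE : 0 < E) (he3 : 0 ≤ e3) (hs : Real.exp c.eS ≤ s) {q : ℕ} (hq : q / 5 ≤ T)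
    (hst : stO2 q) {w : Om W X β} (hw : tb.Ps.p w ≠ 0) (ha : aO2 tb A q w) (hR : rgO2 tb v i (Rd2 h v B E e3 i) q w) :
    hdO2 h tb v i A B (Real.log E) s e3 q w ∨ sfO2 h tb v c i A B e3 q w := by
  classical
  have hp : (D.P h (q / 5)).p (tb.pt (q / 5) w) ≠ 0 := (pul_pt h tb hq).ne hw
  have e1 : s2 (b2 q) = sO q := s2_sO hst
  have e2 : qs (sO q) (q / 5) = q := by
    rw [← e1]
    exact qs_s2 hst
  have hR' : RegD (D.P h (q / 5)) (ZQ D v q) (ZbQ D v q) (Fo (FQ v (q / 5)) i) (ZbQ D v (qe (sO q) (q / 5))) B E e3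
      (tb.pt (q / 5) w) (tup (Fo (FQ v (q / 5)) i) (tb.pt (q / 5) w)) := by
    have := hR
    unfold rgO2 Rd2 at this
    rw [e1, e2] at this
    exact this
  obtain ⟨hss, _, j, k, hjk, hhot, hrj, hrk⟩ := hR'
  have hss' : ssO h tb v B q w := hss
  have hj : j ≠ i := by
    rintro rfl
    rw [Fo_none (q / 5) (tb.pt (q / 5) w), FoL.rF_Fn (D.P h (q / 5)) (FQ v (q / 5)) j (ZbQ D v q) _ hp] at hrj
    linarith
  have hk : k ≠ i := by
    rintro rfl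
    rw [Fo_none (q / 5) (tb.pt (q / 5) w), FoL.rF_Fn (D.P h (q / 5)) (FQ v (q / 5)) k (ZbQ D v q) _ hp] at hrk
    linarith
  rw [Fo_some (q / 5) hj (tb.pt (q / 5) w)] at hhot hrj
  rw [Fo_some (q / 5) hk (tb.pt (q / 5) w)] at hhot hrk
  have hrt : 1 + e3 < rtO h tb v j q w := by
    rw [FoL.rF_Fo (D.P h (q / 5)) (FQ v (q / 5)) i (ZbQ D v q) _ hj] at hrj
    unfold rtO rS
    rw [e2]
    exact hrj
  have hrt' : 1 + e3 < rtO h tb v k q w := by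
    rw [FoL.rF_Fo (D.P h (q / 5)) (FQ v (q / 5)) i (ZbQ D v q) _ hk] at hrk
    unfold rtO rS
    rw [e2]
    exact hrk
  by_cases h1 : sSO h tb v c j q w
  · exact Or.inr ⟨hst, ⟨ha, hss'⟩, j, hj, h1, hrt⟩
  by_cases h2 : sSO h tb v c k q w
  · exact Or.inr ⟨hst, ⟨ha, hss'⟩, k, hk, h2, hrt'⟩
  refine Or.inl ⟨hst, ⟨ha, hss'⟩, hotF_hotQ hE hj hk hjk hp (fun l hl => ?_) hhot, j, hj, hrt⟩
  rcases oth2 hj hk hjk hl with rfl | rfl
  · exact mq_le hs hp h1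
  · exact mq_le hs hp h2

variable {rk : Finset (Fin 10)} {bO zO : Fin 10 → ℕ → Om W X β → Prop}

/-- **THE UNRELEASED SUMS OF THE REGION (d)** -/
theorem unrD2_le {dg : ℕ → X → ℝ} {Lam : ℝ} (H : D.Hyp dg prr al T Lam) {N : Finset (Fin 3) → ℝ}
    (R : Run h N (SS1 (Fin 3)) (AdmDep D) v) (hN : ∀ l : Fin 3, 0 < N (univ.erase l))
    (hb : ∀ k q, Pos (bO k q)) (hz : ∀ k q, Pos (zO k q)) (hA1 : ∀ t < T, ∀ u, A false t u → ¬ HV h v t u)
    {eta : ℝ} (heta : 0 < eta) (heta1 : eta ≤ 1)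
    {B0 B E s e3 : ℝ} (hE : 0 < E) (he3 : 0 ≤ e3) (hs : Real.exp c.eS ≤ s) :
    ∑ t ∈ range T, ∑ b, UnrS2 h v c B0 i rk (Rd2 h v B E e3 i) (fun k q => lft (bO k q)) (fun k q => lft (zO k q)) A eta b t ≤
      (3 * Lam + Real.log (1 / eta)) * (∑ q ∈ range (5 * T), tb.Ps.Pr (hdO2 h tb v i A B (Real.log E) s e3 q) +
        ∑ q ∈ range (5 * T), tb.Ps.Pr (sfO2 h tb v c i A B e3 q)) := by
  have hlog : 0 ≤ Real.log (1 / eta) := Real.log_nonneg (by rw [le_div_iff₀ heta]; linarith)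
  have hLc : 0 ≤ 3 * Lam + Real.log (1 / eta) := by linarith [H.Lam1]
  refine (unrS2_tr (h := h) (tb := tb) (v := v) (c := c) (B := B0) (i := i) (rk := rk) (A := A) (Rg := Rd2 h v B E e3 i) H R hN
    hb hz hA1 heta heta1).trans (mul_le_mul_of_nonneg_left ?_ hLc)
  rw [← Finset.sum_add_distrib]
  refine Finset.sum_le_sum fun q hq => ?_
  have hq' := Finset.mem_range.1 hq
  refine le_trans (tb.Ps.Pr_mono fun w hw hh => ?_) (tb.Ps.Pr_or_le _ _)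
  exact rd2_cases h tb hE he3 hs (by omega) hh.1 hw hh.2.1 hh.2.2.1

section fin

variable (hv : Codes D v) {d1 kb d0 k0 p1 z : ℝ} (hd1 : 0 < d1) (hd11 : d1 ≤ 1) (hkb : 0 < kb) (hd0 : 0 < d0)
  (hd01 : d0 ≤ 1) (hk0 : 0 < k0) (hp1 : 0 < p1) (hz : 0 < z)
variable (Qk : Fin 10 → Kd (Om W X β))

/-- **THE UNRELEASED SUMS OF THE FRAME TWO, BOTH REGIONS** (`hUnr` of `twoOK2`), alive sets of the run -/
theorem unrTwoD {dg : ℕ → X → ℝ} {Lam : ℝ} (H : D.Hyp dg prr al T Lam) (hL : 2 ≤ Lam) {n N1 : ℝ}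
    (R : Run h (pr3 (Fin 3) n N1) (SS1 (Fin 3)) (AdmDep D) v) (hn : 1 ≤ n) (hN1 : 1 ≤ N1)
    {r : RC} {p : AP} {Gd : ℕ → Pt (Fin 3) X β φ → Prop}
    {st : ℕ → Pt (Fin 3) X β φ → Option (Fin 3)} {gM : Fin 10 → ℕ → Om W X β → Prop}
    {e : ℝ} (he : 0 < e) (he1 : e ≤ 1) (hB : 1 + e ≤ r.B) (hee : e ≤ r.e1) (h12 : c.e1 ≤ c.e2) (h23 : c.e2 ≤ c.e3)
    (hdH : 0 < c.dH) (hd : (1 + c.dH) * Real.exp (2 * c.eS) ≤ 1 + r.d)
    {eta : ℝ} (heta : 0 < eta) (heta1 : eta ≤ 1) (hVk : ∀ k, (Qk k).Vk = {i})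
    (hkd : ∀ k ∈ rK2 i, ∀ w, tb.Ps.p w ≠ 0 → ∀ q, gdO2 h tb v c r.B i (rK2 i)
      (TP.aV h v p Gd st (MVT.spP h (MSi tb (v := v) d1 kb d0 k0 p1 z hd1 hd11 hkb hd0 hd01 hk0 hp1 hz) v) i) gM k q w →
      (rpO tb v i q w ∨ ruO tb v q w) →
      (Qk k).kd (some i) (tv (USi tb hv d1 kb d0 k0 p1 z hd1 hd11 hkb hd0 hd01 hk0 hp1 hz) i q w) w)
    (RR : CT.Rounds) (hU : ∀ k ∈ rK2 i, (Qk k).uB = CT.ix Lam (CT.rd RR k).uB)
    (hLb : 3 * Lam + Real.log (1 / eta) ≤ pw Lam RR.kL) (hGA : 240 * Lam / e ^ 2 ≤ pw Lam RR.kg)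
    (ST : (3 * Lam + Real.log (1 / eta)) * ∑ k ∈ rK2 i, ∑ q ∈ range (5 * T), tb.Ps.Pr (stkO2 h tb v Qk
      (USi tb hv d1 kb d0 k0 p1 z hd1 hd11 hkb hd0 hd01 hk0 hp1 hz) c r.B i (rK2 i)
      (TP.aV h v p Gd st (MVT.spP h (MSi tb (v := v) d1 kb d0 k0 p1 z hd1 hd11 hkb hd0 hd01 hk0 hp1 hz) v) i) gM e k q) ≤
        CT.ix Lam 24)
    (TN : (3 * Lam + Real.log (1 / eta)) * ∑ k ∈ rK2 i, ∑ q ∈ range (5 * T),
      tb.Ps.Pr (tnO2 h tb v c r.B i (rK2 i)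
      (TP.aV h v p Gd st (MVT.spP h (MSi tb (v := v) d1 kb d0 k0 p1 z hd1 hd11 hkb hd0 hd01 hk0 hp1 hz) v) i) gM e k q) ≤
        CT.ix Lam 24)
    (SG : (3 * Lam + Real.log (1 / eta)) * ∑ q ∈ range (5 * T), tb.Ps.Pr (stB2 h tb v c r i
      (TP.aV h v p Gd st (MVT.spP h (MSi tb (v := v) d1 kb d0 k0 p1 z hd1 hd11 hkb hd0 hd01 hk0 hp1 hz) v) i) e q) ≤
        CT.ix Lam 24)
    {B E s e3 : ℝ} (hE : 0 < E) (he3 : 0 ≤ e3) (hs : Real.exp c.eS ≤ s)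
    (HD : (3 * Lam + Real.log (1 / eta)) * ∑ q ∈ range (5 * T), tb.Ps.Pr (hdO2 h tb v i
      (TP.aV h v p Gd st (MVT.spP h (MSi tb (v := v) d1 kb d0 k0 p1 z hd1 hd11 hkb hd0 hd01 hk0 hp1 hz) v) i)
      B (Real.log E) s e3 q) ≤ CT.ix Lam 24)
    (SD : (3 * Lam + Real.log (1 / eta)) * ∑ q ∈ range (5 * T), tb.Ps.Pr (sfO2 h tb v c i
      (TP.aV h v p Gd st (MVT.spP h (MSi tb (v := v) d1 kb d0 k0 p1 z hd1 hd11 hkb hd0 hd01 hk0 hp1 hz) v) i)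
      B e3 q) ≤ CT.ix Lam 24) :
    ∑ t ∈ range T, ∑ b, UnrS2 h v c r.B i (rK2 i) (fun b t w f => Rg2 h v c r i b t w f ∨ Rd2 h v B E e3 i b t w f)
        (fun k q => lft (bO2 Qk (USi tb hv d1 kb d0 k0 p1 z hd1 hd11 hkb hd0 hd01 hk0 hp1 hz) i k q))
        (fun k q => lft (zO2 Qk (USi tb hv d1 kb d0 k0 p1 z hd1 hd11 hkb hd0 hd01 hk0 hp1 hz) k q))
        (TP.aV h v p Gd st (MVT.spP h (MSi tb (v := v) d1 kb d0 k0 p1 z hd1 hd11 hkb hd0 hd01 hk0 hp1 hz) v) i) eta b t ≤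
      (pw Lam 17)⁻¹ := by
  have hN : ∀ l : Fin 3, 0 < pr3 (Fin 3) n N1 (univ.erase l) := fun l => zero_lt_one.trans_le (pr3_one hn hN1 _)
  have h1 := unrTwo h tb hv hd1 hd11 hkb hd0 hd01 hk0 hp1 hz Qk H hL R hn hN1 he he1 hB hee h12 h23 hdH hd heta heta1 hVk
    hkd RR hU hLb hGA ST TN SG
  have h2 := unrD2_le h tb (c := c) (i := i) (rk := rK2 i) (B0 := r.B) (B := B) (E := E) (s := s) (e3 := e3)
    (A := TP.aV h v p Gd st (MVT.spP h (MSi tb (v := v) d1 kb d0 k0 p1 z hd1 hd11 hkb hd0 hd01 hk0 hp1 hz) v) i) H R hN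
    (bO2_pos (i := i) tb hv hd1 hd11 hkb hd0 hd01 hk0 hp1 hz Qk) (zO2_pos tb hv hd1 hd11 hkb hd0 hd01 hk0 hp1 hz Qk)
    (fun _ _ _ hu => hu.1.1.2) heta heta1 hE he3 hs
  rw [mul_add] at h2
  refine le_trans (Finset.sum_le_sum fun t _ => Finset.sum_le_sum fun b _ => UnrS2_or _ heta heta1 b t) ?_
  simp only [Finset.sum_add_distrib]
  have h3 := ix_24_17 hL
  have h4 := CT.ix_nn hL 24
  linarith

end fin

end

end Pool.Agent.GMH.TRF
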