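import Pool.Agent.GMH.UnrC
import Pool.Agent.GMH.UnrD2
import Pool.Agent.GMH.RegDh

/-!
# GMH/SglO (helper77): THE CLOSED LIST OF KIND S FOR THE UNRELEASED SUMS (FULL, TWO, region (d))

Everything at the tops `FQ` (no frame `Fo`), at a removal (`rmq q`), for any alive family `Al`:
* `bsO l q` : the single of the top `l` is bad at the state `q`: thin law (`2 eF ≤ tv1n l`) or strong single (`sS l`);
* `S1O l x y` : `bsO l`, the tops `x`, `y` are active; `S2O l` : thin strong point, strong single of the rising top `l`;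
  `S3O l` : `l` strong, the missing thin letter of `l` strong, `l` more frequent given all thin letters;
* `stB2_le`, `sfO2_le` : the events of the frame two; `stB3_le`, `ssB3_le` : the events of the three tops;
* `unD3_le` : the unreleased tuples of the region (d), three tops: hot pairs (`heO`-form `hdO3`) and `S2O`.
-/

set_option autoImplicit false
set_option linter.unusedSectionVars false

namespace Pool.Agent.GMH.KF

open Finset Pool.Agent.PWZ Pool.Agent.M3 Pool.Agent.GMH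

noncomputable section

section one

variable {Om : Type*} [Fintype Om] {P : FP Om} {α β γ φ : Type*} {Z : Om → β} {Zb : Fin 3 → Om → α}
  {F : Fin 3 → Om → φ} {Y : Fin 3 → Om → γ} {i : Fin 3} {c : KC} {r : RC}

/-- the single of the top `l` is bad -/
def sL (P : FP Om) {φ' : Type*} (Z : Om → β) (Zb : Fin 3 → Om → α) (G : Fin 3 → Om → φ') (c : KC) (l : Fin 3) (w : Om)
    (f : Fin 3 → φ') : Prop := 2 * c.eF ≤ tv1n P Z Zb G l w ∨ sS P Z Zb G c l w f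

theorem sG_sL {φ' : Type*} {G : Fin 3 → Om → φ'} {w : Om} {f : Fin 3 → φ'} (hh : sG P Z Zb G c w f) :
    ∃ l, sL P Z Zb G c l w f := by
  rcases hh with ⟨l, h1⟩ | ⟨l, h1⟩
  · exact ⟨l, Or.inl h1⟩
  · exact ⟨l, Or.inr h1⟩

theorem Fo_tup {l : Fin 3} (hl : l ≠ i) (w : Om) : tup (Fo F i) w l = some (F l w) := FoL.Fo_app hl w

/-- **the singles of the frame two are the singles of its tops** -/
theorem sL_Fo (hF : 0 < c.eF) (hS : 0 < c.eS) {w : Om} (hw : P.p w ≠ 0) {l : Fin 3}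
    (hh : sL P Z Zb (Fo F i) c l w (tup (Fo F i) w)) : l ≠ i ∧ sL P Z Zb F c l w (tup F w) := by
  by_cases hl : l = i
  · subst hl
    exfalso
    have e1 : tup (Fo F l) w l = Option.none := FoL.Fn_app w
    rcases hh with h1 | h1
    · have e2 : tv1n P Z Zb (Fo F l) l w = 0 := by
        unfold tv1n
        rw [FoL.sum_Fn w, FoL.mF_Fn P F l Z hw, FoL.qF_Fn P F l Zb hw, sub_self, abs_zero]
      rw [e2] at h1
      linarith
    · unfold sS at h1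
      rw [e1, FoL.mF_Fn P F l Z hw, FoL.qF_Fn P F l Zb hw, div_one, Real.log_one, abs_zero] at h1
      linarith
  · refine ⟨hl, ?_⟩
    rcases hh with h1 | h1
    · refine Or.inl ?_
      have e2 : tv1n P Z Zb (Fo F i) l w = tv1n P Z Zb F l w := by
        unfold tv1n
        rw [FoL.sum_Fo hl]
        exact Finset.sum_congr rfl fun x _ => by rw [FoL.mF_Fo P F i Z hl, FoL.qF_Fo P F i Zb hl]
      rwa [e2] at h1
    · refine Or.inr ?_
      unfold sS at h1 ⊢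
      rw [Fo_tup hl, FoL.mF_Fo P F i Z hl, FoL.qF_Fo P F i Zb hl] at h1
      exact h1

/-- **the part (b) of the region of the frame two** -/
theorem RegB_Fo (hB : 1 ≤ r.B) {w : Om} (hw : P.p w ≠ 0)
    (hh : RegB P Z Zb (Fo F i) Y r w (tup (Fo F i) w)) : ∃ l, l ≠ i ∧ r.B < rF P Zb F Y l w (F l w) ∧
      bxF P F Y (Z := Z) (Zb := Zb) r.B r.d l w (F l w) := by
  obtain ⟨l, h1, h2⟩ := hh
  have hl : l ≠ i := by
    rintro rfl
    have e1 : tup (Fo F l) w l = Option.none := FoL.Fn_app w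
    rw [e1, FoL.rF_Fn P F l Zb _ hw] at h1
    linarith
  rw [Fo_tup hl] at h1 h2
  refine ⟨l, hl, ?_, ?_⟩
  · rwa [FoL.rF_Fo P F i Zb _ hl] at h1
  · refine ⟨h2.1, ?_⟩
    have h3 := h2.2
    rwa [FoL.mF_Fo P F i Z hl, FoL.qF_Fo P F i Zb hl] at h3

end one

end

end Pool.Agent.GMH.KF

namespace Pool.Agent.GMH.TRF

open Finset Pool.Agent.PWZ Pool.Agent.M3 Pool.Agent.GM Pool.Agent.GM.Harm Pool.Agent.GMH Pool.Agent.GMH.NZ
open Pool.Agent.GMH.V3 Pool.Agent.GMH.TP Pool.Agent.GMH.TD Pool.Agent.GMH.Dy Pool.Agent.GMH.MV Pool.Agent.GMH.MVI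
open Pool.Agent.GMH.UV Pool.Agent.GMH.KF Pool.Agent.GMH.CK

noncomputable section

variable {X β γ φ : Type} [Fintype X] [Fintype β] [Fintype φ] [Nonempty X] [Nonempty β]
variable {D : HD (Fin 3) X β γ φ} {al : ℝ} (h : D.Thick al) {prr : ℕ → Fin 3 → φ → φ} {T : ℕ} {W : Type} [Fintype W]
variable (tb : Tab D prr T W) (v : ℕ → Finset (Fin 3) → X → (Fin 3 → β) → Pt (Fin 3) X β φ)
variable (c : KC) (Al : ℕ → Om W X β → Prop)

/-! ### the closed list -/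

/-- a removal -/
def rmq (q : ℕ) (w : Om W X β) : Prop := ruO tb v q w ∨ ∃ i, rpO tb v i q w

/-- the single of the top `l` is bad in the state `q` -/
def bsO (l : Fin 3) (q : ℕ) (w : Om W X β) : Prop :=
  sL (D.P h (q / 5)) (ZQ D v q) (ZbQ D v q) (FQ v (q / 5)) c l (tb.pt (q / 5) w) (tup (FQ v (q / 5)) (tb.pt (q / 5) w))

/-- **(S1)** bad single of `l`, the tops `x`, `y` are active -/
def S1O (e : ℝ) (l x y : Fin 3) (q : ℕ) (w : Om W X β) : Prop :=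
  rmq tb v q w ∧ Al q w ∧ bsO h tb v c l q w ∧ acO h tb v e x q w ∧ acO h tb v e y q w

/-- **(S2)** thin strong point, strong single of the rising top `l` -/
def S2O (B e3 : ℝ) (l : Fin 3) (q : ℕ) (w : Om W X β) : Prop :=
  rmq tb v q w ∧ Al q w ∧ ssO h tb v B q w ∧ sSO h tb v c l q w ∧ 1 + e3 < rtO h tb v l q w

/-- **(S3)** `l` strong, the missing thin letter of `l` strong, `l` more frequent given all thin letters -/
def S3O (B d : ℝ) (l : Fin 3) (q : ℕ) (w : Om W X β) : Prop :=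
  rmq tb v q w ∧ Al q w ∧ B < rtO h tb v l q w ∧
    bxF (D.P h (q / 5)) (FQ v (q / 5)) (ZbQ D v (qe (sO q) (q / 5))) (Z := ZQ D v q) (Zb := ZbQ D v q) B d l
      (tb.pt (q / 5) w) (FQ v (q / 5) l (tb.pt (q / 5) w))

variable {h tb v c Al}

theorem rmq_mod {q : ℕ} {w : Om W X β} (hr : rmq tb v q w) : q % 5 = 1 ∨ q % 5 = 4 :=
  hr.imp (fun h => h.1) fun ⟨_, h⟩ => h.1

theorem rtO_rF {q : ℕ} (hq : q % 5 = 1 ∨ q % 5 = 4) (j : Fin 3) (w : Om W X β) : rtO h tb v j q w =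
    rF (D.P h (q / 5)) (ZbQ D v q) (FQ v (q / 5)) (ZbQ D v (qe (sO q) (q / 5))) j (tb.pt (q / 5) w)
      (FQ v (q / 5) j (tb.pt (q / 5) w)) := by
  unfold rtO rS
  rw [qs_rm hq]
  rfl

/-! ### the frame two -/

section two

variable {r : RC} {i : Fin 3} {A : Bool → ℕ → Pt (Fin 3) X β φ → Prop}

/-- the alive substeps of the frame two are removals -/
theorem rmq_two {q : ℕ} (hq : q / 5 ≤ T) (hst : stO2 q) (hA1 : ∀ u, A false (q / 5) u → ¬ HV h v (q / 5) u)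
    (hA3 : ∀ u, A true (q / 5) u → lpv h v i (q / 5) u ∧ HV h v (q / 5) u) {w : Om W X β} (ha : aO2 tb A q w) :
    rmq tb v q w := by
  rcases hst with h1 | h1
  · refine Or.inl ⟨h1, ?_⟩
    have hb2 : b2 q = false := by unfold b2; rw [if_pos h1]
    have ha' : A false (q / 5) (tb.pt (q / 5) w) := by
      have := ha
      unfold aO2 at this
      rw [hb2] at this
      exact this
    have h2 := hA1 _ ha'
    rw [HV_q hq w, not_le] at h2
    have e1 : 5 * (q / 5) + 1 = q := by omega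
    have e2 : 5 * (q / 5) + 2 = q + 1 := by omega
    rw [e1, e2] at h2
    exact h2
  · obtain ⟨t, rfl⟩ : ∃ t, q = 5 * t + 4 := ⟨q / 5, by omega⟩
    have hd : (5 * t + 4) / 5 = t := by omega
    rw [hd] at hq hA3
    have ha' := ha
    unfold aO2 at ha'
    rw [hd, b2_4] at ha'
    obtain ⟨h2, h3⟩ := hA3 _ ha'
    rw [HV_q hq w] at h3
    refine Or.inr ⟨i, h1, (LVp_pt h tb v hq i (5 * t + 4) w).1 h2, ?_⟩
    rw [hd]
    exact h3

/-- the singles of the frame two -/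
theorem sG_bsO (hF : 0 < c.eF) (hS : 0 < c.eS) {q : ℕ} (hq : q / 5 ≤ T) {w : Om W X β} (hw : tb.Ps.p w ≠ 0)
    (hh : sG (D.P h (q / 5)) (ZQ D v q) (ZbQ D v q) (Fo (FQ v (q / 5)) i) c (tb.pt (q / 5) w)
      (tup (Fo (FQ v (q / 5)) i) (tb.pt (q / 5) w))) : ∃ l, l ≠ i ∧ bsO h tb v c l q w := by
  obtain ⟨l, hl⟩ := sG_sL hh
  exact ⟨l, sL_Fo hF hS ((pul_pt h tb hq).ne hw) hl⟩

/-- **THE STATIC EVENT OF THE FRAME TWO** -/
theorem stB2_le (hF : 0 < c.eF) (hS : 0 < c.eS) (hB : 1 ≤ r.B) {e : ℝ} {q : ℕ} (hq : q / 5 ≤ T)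
    (hA1 : ∀ u, A false (q / 5) u → ¬ HV h v (q / 5) u)
    (hA3 : ∀ u, A true (q / 5) u → lpv h v i (q / 5) u ∧ HV h v (q / 5) u)
    (hAl : ∀ w, tb.Ps.p w ≠ 0 → stO2 q → aO2 tb A q w → Al q w) {j k : Fin 3} (hj : j ≠ i) (hk : k ≠ i) (hjk : j ≠ k) :
    tb.Ps.Pr (stB2 h tb v c r i A e q) ≤ (tb.Ps.Pr (S1O h tb v c Al e j j k q) + tb.Ps.Pr (S1O h tb v c Al e k j k q)) +
      (tb.Ps.Pr (S3O h tb v Al r.B r.d j q) + tb.Ps.Pr (S3O h tb v Al r.B r.d k q)) := by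
  have h0 : tb.Ps.Pr (stB2 h tb v c r i A e q) ≤ tb.Ps.Pr (fun w =>
      (S1O h tb v c Al e j j k q w ∨ S1O h tb v c Al e k j k q w) ∨
      (S3O h tb v Al r.B r.d j q w ∨ S3O h tb v Al r.B r.d k q w)) := by
    refine tb.Ps.Pr_mono fun w hw hh => ?_
    obtain ⟨hst, ha, _, h1⟩ := hh
    have hrm := rmq_two (h := h) (tb := tb) (v := v) hq hst hA1 hA3 ha
    have hal := hAl w hw hst ha
    have hm := rmq_mod hrm
    have e2 := qs_rm hm
    have hp : (D.P h (q / 5)).p (tb.pt (q / 5) w) ≠ 0 := (pul_pt h tb hq).ne hw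
    rw [e2] at h1
    rcases h1 with ⟨h1, h2⟩ | h1
    · obtain ⟨l, hl, h3⟩ := sG_bsO (h := h) (tb := tb) (v := v) hF hS hq hw h1
      rcases oth2 hj hk hjk hl with rfl | rfl
      · exact Or.inl (Or.inl ⟨hrm, hal, h3, h2 _ hj, h2 _ hk⟩)
      · exact Or.inl (Or.inr ⟨hrm, hal, h3, h2 _ hj, h2 _ hk⟩)
    · obtain ⟨l, hl, h3, h4⟩ := RegB_Fo hB hp h1
      have h5 : r.B < rtO h tb v l q w := by
        rw [rtO_rF hm]
        exact h3
      rcases oth2 hj hk hjk hl with rfl | rfl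
      · exact Or.inr (Or.inl ⟨hrm, hal, h5, h4⟩)
      · exact Or.inr (Or.inr ⟨hrm, hal, h5, h4⟩)
  refine h0.trans ((tb.Ps.Pr_or_le _ _).trans (add_le_add (tb.Ps.Pr_or_le _ _) (tb.Ps.Pr_or_le _ _)))

/-- **THE THIN STRONG EVENT OF THE FRAME TWO** -/
theorem sfO2_le {B e3 : ℝ} {q : ℕ} (hq : q / 5 ≤ T)
    (hA1 : ∀ u, A false (q / 5) u → ¬ HV h v (q / 5) u)
    (hA3 : ∀ u, A true (q / 5) u → lpv h v i (q / 5) u ∧ HV h v (q / 5) u)
    (hAl : ∀ w, tb.Ps.p w ≠ 0 → stO2 q → aO2 tb A q w → Al q w) :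
    tb.Ps.Pr (sfO2 h tb v c i A B e3 q) ≤ ∑ l, tb.Ps.Pr (S2O h tb v c Al B e3 l q) := by
  have h0 : tb.Ps.Pr (sfO2 h tb v c i A B e3 q) ≤ tb.Ps.Pr (fun w => ∃ l ∈ (univ : Finset (Fin 3)),
      S2O h tb v c Al B e3 l q w) := by
    refine tb.Ps.Pr_mono fun w hw hh => ?_
    obtain ⟨hst, ⟨ha, hss⟩, l, _, h1, hx⟩ := hh
    exact ⟨l, mem_univ l, rmq_two (h := h) (tb := tb) (v := v) hq hst hA1 hA3 ha, hAl w hw hst ha, hss, h1, hx⟩
  exact h0.trans (tb.Ps.Pr_ex_le _ _)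

end two

/-! ### the three tops -/

section three

variable {r : RC} {A : Fin 6 → ℕ → Pt (Fin 3) X β φ → Prop}

/-- **THE STATIC EVENT OF THE THREE TOPS** -/
theorem stB3_le {e : ℝ} (hee : e ≤ r.e1) (heB : 1 + e ≤ r.B) {q : ℕ}
    (hAl : ∀ w, tb.Ps.p w ≠ 0 → aO tb A q w → Al q w) :
    tb.Ps.Pr (stB3 h tb v c r A q) ≤ ∑ l, ∑ x, ∑ y ∈ univ.erase x, tb.Ps.Pr (S1O h tb v c Al e l x y q) +
      ∑ l, tb.Ps.Pr (S3O h tb v Al r.B r.d l q) := by
  have h0 : tb.Ps.Pr (stB3 h tb v c r A q) ≤ tb.Ps.Pr (fun w =>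
      (∃ l ∈ (univ : Finset (Fin 3)), ∃ x ∈ (univ : Finset (Fin 3)), ∃ y ∈ univ.erase x, S1O h tb v c Al e l x y q w) ∨
      (∃ l ∈ (univ : Finset (Fin 3)), S3O h tb v Al r.B r.d l q w)) := by
    refine tb.Ps.Pr_mono fun w hw hh => ?_
    obtain ⟨⟨hr, ha, _⟩, h1⟩ := hh
    have hm := rm_mod hr
    rcases h1 with ⟨⟨l, hl⟩, x, y, hxy, hs⟩ | ⟨l, h2, h3⟩
    · obtain ⟨a1, a2⟩ := srO_ac (h := h) (tb := tb) (v := v) hee heB (q := q) (by omega) hs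
      exact Or.inl ⟨l, mem_univ l, x, mem_univ x, y, Finset.mem_erase.2 ⟨hxy.symm, mem_univ y⟩, hr, hAl w hw ha,
        Or.inl hl, a1, a2⟩
    · refine Or.inr ⟨l, mem_univ l, hr, hAl w hw ha, ?_, h3⟩
      rw [rtO_rF hm]
      exact h2
  refine h0.trans ((tb.Ps.Pr_or_le _ _).trans (add_le_add ?_ (tb.Ps.Pr_ex_le _ _)))
  refine (tb.Ps.Pr_ex_le _ _).trans (Finset.sum_le_sum fun l _ => ?_)
  exact (tb.Ps.Pr_ex_le _ _).trans (Finset.sum_le_sum fun x _ => tb.Ps.Pr_ex_le _ _)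

/-- **THE STRONG SINGLES OF THE THREE TOPS** -/
theorem ssB3_le {e : ℝ} (hee : e ≤ r.e1) (heB : 1 + e ≤ r.B) {q : ℕ} (l : Fin 3)
    (hAl : ∀ w, tb.Ps.p w ≠ 0 → aO tb A q w → Al q w) :
    tb.Ps.Pr (ssB3 h tb v c r A l q) ≤ ∑ x, ∑ y ∈ univ.erase x, tb.Ps.Pr (S1O h tb v c Al e l x y q) := by
  have h0 : tb.Ps.Pr (ssB3 h tb v c r A l q) ≤ tb.Ps.Pr (fun w =>
      ∃ x ∈ (univ : Finset (Fin 3)), ∃ y ∈ univ.erase x, S1O h tb v c Al e l x y q w) := by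
    refine tb.Ps.Pr_mono fun w hw hh => ?_
    obtain ⟨⟨hr, ha, _⟩, ⟨_, hl⟩, x, y, hxy, hs⟩ := hh
    have hm := rm_mod hr
    obtain ⟨a1, a2⟩ := srO_ac (h := h) (tb := tb) (v := v) hee heB (q := q) (by omega) hs
    exact ⟨x, mem_univ x, y, Finset.mem_erase.2 ⟨hxy.symm, mem_univ y⟩, hr, hAl w hw ha, Or.inr hl, a1, a2⟩
  exact h0.trans ((tb.Ps.Pr_ex_le _ _).trans (Finset.sum_le_sum fun x _ => tb.Ps.Pr_ex_le _ _))

variable {bO : Fin 10 → Fin 3 → ℕ → Om W X β → Prop} {zO : Fin 10 → ℕ → Om W X β → Prop}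

/-- hot pair of the vertex `i` at an alive thin strong point, one of its tops rises (form of `heO` of `GMH/HotE`) -/
def hdO3 (h : D.Thick al) (tb : Tab D prr T W) (v : ℕ → Finset (Fin 3) → X → (Fin 3 → β) → Pt (Fin 3) X β φ) (i : Fin 3)
    (A : Fin 6 → ℕ → Pt (Fin 3) X β φ → Prop) (B a s e3 : ℝ) (q : ℕ) (w : Om W X β) : Prop :=
  (q % 5 = 1 ∨ q % 5 = 4) ∧ (rmq tb v q w ∧ aO tb A q w ∧ ssO h tb v B q w) ∧ hotq h v tb i a s q w ∧
    ∃ j, j ≠ i ∧ 1 + e3 < rtO h tb v j q w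

/-- **THE UNRELEASED TUPLES OF THE REGION (d), THREE TOPS** -/
theorem unD3_le {B0 B E s e3 : ℝ} (hE : 0 < E) (hs : Real.exp c.eS ≤ s) {q : ℕ} (hq : q / 5 ≤ T)
    (hAl : ∀ w, tb.Ps.p w ≠ 0 → aO tb A q w → Al q w) :
    tb.Ps.Pr (unO h tb v c B0 A (Rd3 h v B E e3) bO zO q) ≤ ∑ i, tb.Ps.Pr (hdO3 h tb v i A B (Real.log E) s e3 q) +
      ∑ l, tb.Ps.Pr (S2O h tb v c Al B e3 l q) := by
  have h0 : tb.Ps.Pr (unO h tb v c B0 A (Rd3 h v B E e3) bO zO q) ≤ tb.Ps.Pr (fun w =>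
      (∃ i ∈ (univ : Finset (Fin 3)), hdO3 h tb v i A B (Real.log E) s e3 q w) ∨
      (∃ l ∈ (univ : Finset (Fin 3)), S2O h tb v c Al B e3 l q w)) := by
    refine tb.Ps.Pr_mono fun w hw hh => ?_
    obtain ⟨hr, ha, hR, _⟩ := hh
    have hm := rm_mod hr
    obtain ⟨hss, h1⟩ := rd3_cases (h := h) (tb := tb) (v := v) (c := c) (E := E) (s := s) (e3 := e3) hE hs hq hm hw hR
    rcases h1 with ⟨i, hi, hx⟩ | ⟨l, hl, hx⟩
    · exact Or.inl ⟨i, mem_univ i, hm, ⟨hr, ha, hss⟩, hi, hx⟩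
    · exact Or.inr ⟨l, mem_univ l, hr, hAl w hw ha, hss, hl, hx⟩
  exact h0.trans ((tb.Ps.Pr_or_le _ _).trans (add_le_add (tb.Ps.Pr_ex_le _ _) (tb.Ps.Pr_ex_le _ _)))

end three

end

end Pool.Agent.GMH.TRF
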