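import Pool.Agent.GMH.Av

/-!
# GMH/Sharp (helper39): sharp transition lemma (3554 (3)), every number of vertices

`H` a set of measure `≤ lam ^ card s` in the coordinates `s`; `g l ≥ 0` does not depend on the coordinate `l`,
`m ≤ g l` for all `l ∈ s`.  Then `E 1_H m ≤ lam ∑ E (g l)`.
-/

set_option autoImplicit false
set_option linter.unusedSectionVars false

namespace Pool.Agent.GMH

open Finset Pool.Agent.PWZ Pool.Agent.GM

noncomputable section

variable {ι Pt : Type} [Fintype ι] [DecidableEq ι] [Fintype Pt]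

namespace Wts

variable (μ : Wts ι Pt)

theorem Av_update_of {i : ι} {s : Finset ι} {g : (ι → Pt) → ℝ} (hg : Dep (univ.erase i) g) (x : ι → Pt) (y : Pt) :
    μ.Av s g (Function.update x i y) = μ.Av s g x := by
  refine μ.Av_dep_of hg (s := s) _ _ fun j hj => ?_
  have h1 : j ≠ i := (mem_erase.1 (mem_sdiff.1 hj).1).1
  rw [Function.update_of_ne h1]

theorem Av_insert_of {i : ι} {s : Finset ι} (hi : i ∉ s) {g : (ι → Pt) → ℝ} (hg : Dep (univ.erase i) g)
    (x : ι → Pt) : μ.Av (insert i s) g x = μ.Av s g x := by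
  rw [μ.Av_insert hi, Finset.sum_congr rfl fun y _ => by rw [μ.Av_update_of hg x y], ← Finset.sum_mul, μ.one,
    one_mul]

/-- **sharp transition lemma** -/
theorem sharp {lam : ℝ} (h0 : 0 < lam) (H : (ι → Pt) → Prop) (m : (ι → Pt) → ℝ) (g : ι → (ι → Pt) → ℝ)
    (s : Finset ι) (hg : ∀ l ∈ s, Dep (univ.erase l) (g l)) (hg0 : ∀ l ∈ s, ∀ x, 0 ≤ g l x)
    (hm : ∀ l ∈ s, ∀ x, m x ≤ g l x) (x : ι → Pt)
    (hH : μ.Av s (fun z => ind (H z)) x < lam ^ s.card ∨
      (s.Nonempty ∧ μ.Av s (fun z => ind (H z)) x ≤ lam ^ s.card)) :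
    μ.Av s (fun z => ind (H z) * m z) x ≤ lam * ∑ l ∈ s, μ.Av s (g l) x := by
  induction s using Finset.induction_on generalizing x with
  | empty =>
    rw [μ.Av_empty, Finset.card_empty, pow_zero] at hH
    rw [μ.Av_empty]
    rcases hH with hH | ⟨hH, _⟩
    · have h1 : ¬ H x := by
        intro h
        rw [ind_of h] at hH
        exact lt_irrefl _ hH
      rw [ind_not h1]
      simp
    · exact absurd hH (by simp)
  | insert i s hi ih =>
    have hle : μ.Av (insert i s) (fun z => ind (H z)) x ≤ lam ^ (s.card + 1) := by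
      rw [Finset.card_insert_of_notMem hi] at hH
      rcases hH with h | h
      · exact h.le
      · exact h.2
    rw [μ.Av_insert hi] at hle
    set B : Pt → Prop := fun y => lam ^ s.card ≤ μ.Av s (fun z => ind (H z)) (Function.update x i y) with hB
    have hpow : 0 < lam ^ s.card := pow_pos h0 _
    have hPB : ∑ y, μ.w i y * ind (B y) ≤ lam := by
      have h1 : (∑ y, μ.w i y * ind (B y)) * lam ^ s.card ≤ lam * lam ^ s.card := by
        rw [Finset.sum_mul]
        calc ∑ y, μ.w i y * ind (B y) * lam ^ s.card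
            ≤ ∑ y, μ.w i y * μ.Av s (fun z => ind (H z)) (Function.update x i y) := by
              refine Finset.sum_le_sum fun y _ => ?_
              rw [mul_assoc]
              refine mul_le_mul_of_nonneg_left ?_ (μ.nn i y)
              by_cases h : B y
              · rw [ind_of h, one_mul]
                exact h
              · rw [ind_not h, zero_mul]
                exact μ.Av_nonneg s _ fun z _ => ind_nonneg _
          _ ≤ lam ^ (s.card + 1) := hle
          _ = lam * lam ^ s.card := by ring
      exact le_of_mul_le_mul_right h1 hpow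
    have hgi := hg i (mem_insert_self i s)
    have hG0 : 0 ≤ μ.Av s (g i) x := μ.Av_nonneg s x fun z _ => hg0 i (mem_insert_self i s) z
    have key : ∀ y, μ.Av s (fun z => ind (H z) * m z) (Function.update x i y) ≤
        ind (B y) * μ.Av s (g i) x + lam * ∑ l ∈ s, μ.Av s (g l) (Function.update x i y) := by
      intro y
      have hs0 : 0 ≤ lam * ∑ l ∈ s, μ.Av s (g l) (Function.update x i y) :=
        mul_nonneg h0.le (Finset.sum_nonneg fun l hl => μ.Av_nonneg s _ fun z _ => hg0 l (mem_insert_of_mem hl) z)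
      by_cases h : B y
      · rw [ind_of h, one_mul]
        have h2 : μ.Av s (fun z => ind (H z) * m z) (Function.update x i y) ≤ μ.Av s (g i) x := by
          rw [← μ.Av_update_of hgi x y]
          refine μ.Av_mono s _ fun z _ => ?_
          by_cases hz : H z
          · rw [ind_of hz, one_mul]
            exact hm i (mem_insert_self i s) z
          · rw [ind_not hz, zero_mul]
            exact hg0 i (mem_insert_self i s) z
        linarith
      · rw [ind_not h, zero_mul, zero_add]
        exact ih (fun l hl => hg l (mem_insert_of_mem hl)) (fun l hl => hg0 l (mem_insert_of_mem hl))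
          (fun l hl => hm l (mem_insert_of_mem hl)) _ (Or.inl (not_le.1 h))
    rw [μ.Av_insert hi]
    calc ∑ y, μ.w i y * μ.Av s (fun z => ind (H z) * m z) (Function.update x i y)
        ≤ ∑ y, μ.w i y * (ind (B y) * μ.Av s (g i) x +
            lam * ∑ l ∈ s, μ.Av s (g l) (Function.update x i y)) :=
          Finset.sum_le_sum fun y _ => mul_le_mul_of_nonneg_left (key y) (μ.nn i y)
      _ = (∑ y, μ.w i y * ind (B y)) * μ.Av s (g i) x +
            lam * ∑ l ∈ s, ∑ y, μ.w i y * μ.Av s (g l) (Function.update x i y) := by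
          rw [Finset.sum_mul, Finset.sum_comm, Finset.mul_sum, ← Finset.sum_add_distrib]
          refine Finset.sum_congr rfl fun y _ => ?_
          rw [Finset.mul_sum, Finset.mul_sum]
          simp only [mul_add, Finset.mul_sum]
          congr 1
          · ring
          · refine Finset.sum_congr rfl fun l _ => ?_
            ring
      _ ≤ lam * μ.Av s (g i) x + lam * ∑ l ∈ s, μ.Av (insert i s) (g l) x := by
          refine add_le_add (mul_le_mul_of_nonneg_right hPB hG0) (le_of_eq ?_)
          congr 1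
          exact Finset.sum_congr rfl fun l _ => (μ.Av_insert hi (g l) x).symm
      _ = lam * ∑ l ∈ insert i s, μ.Av (insert i s) (g l) x := by
          rw [Finset.sum_insert hi, μ.Av_insert_of hi hgi]
          ring

/-- the form with the measure of `H` and a root -/
theorem sharp_rpow {lam : ℝ} (h0 : 0 ≤ lam) (H : (ι → Pt) → Prop) (m : (ι → Pt) → ℝ) (g : ι → (ι → Pt) → ℝ)
    {s : Finset ι} (hs : s.Nonempty) (hg : ∀ l ∈ s, Dep (univ.erase l) (g l)) (hg0 : ∀ l ∈ s, ∀ x, 0 ≤ g l x)
    (hm : ∀ l ∈ s, ∀ x, m x ≤ g l x) (x : ι → Pt) (hH : μ.Av s (fun z => ind (H z)) x ≤ lam) :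
    μ.Av s (fun z => ind (H z) * m z) x ≤ lam ^ ((1 : ℝ) / s.card) * ∑ l ∈ s, μ.Av s (g l) x := by
  have hG : 0 ≤ ∑ l ∈ s, μ.Av s (g l) x :=
    Finset.sum_nonneg fun l hl => μ.Av_nonneg s _ fun z _ => hg0 l hl z
  have hc : s.card ≠ 0 := (Finset.card_pos.2 hs).ne'
  rcases h0.lt_or_eq with h | h
  · refine μ.sharp (Real.rpow_pos_of_pos h _) H m g s hg hg0 hm x (Or.inr ⟨hs, ?_⟩)
    rw [← Real.rpow_natCast, ← Real.rpow_mul h0, one_div, inv_mul_cancel₀ (by exact_mod_cast hc), Real.rpow_one]
    exact hH
  · rw [← h] at hH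
    rw [← h, Real.zero_rpow (by
      rw [one_div]
      exact inv_ne_zero (by exact_mod_cast hc)), zero_mul]
    refine le_of_forall_pos_le_add fun ε hε => ?_
    set S := ∑ l ∈ s, μ.Av s (g l) x
    have h1 := μ.sharp (lam := ε / (S + 1)) (div_pos hε (by linarith)) H m g s hg hg0 hm x
      (Or.inr ⟨hs, hH.trans (pow_nonneg (div_nonneg hε.le (by linarith)) _)⟩)
    refine h1.trans ?_
    rw [zero_add, div_mul_eq_mul_div, div_le_iff₀ (by linarith)]
    nlinarith

end Wts

end

end Pool.Agent.GMH
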