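import Pool.Agent.GMH.Cov2

/-!
# GMH/Simp3 (helper28): the simplex cover lemma for three vertices with two strong faces (notes 3935 (2), 3949 (5)(b))

`X`, `Y`, `Z` three independent vertices, `cX`, `cY`, `cZ` their cells, `H` a static set of triples, `D1`, `D2`, `D3` the
covered faces (`D1 s` = the face Y Z is covered before the time `s`, and so on, `¬ D 0`), `σ < T` a stopping time of the
nodes, `S1 s`, `S2 s` = sets of faces Y Z, faces X Z readable at the node of the time `s`.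
`bd3` = at some time `s < T`, given the exact vertex `Z`, the triples of `H` whose face X Y is not covered at the time
`s` have density `> u` (`bd1`, `bd2` in the same way); `h` = bound of the shrinking of the cells in one time.

* `simp3` : `P (H, S1, S2 at σ) ≤ 3/2 √u (P S1 + P S2) + (4 + 2 h) √u ∑ P (D i (σ+1)) + 2 ∑ P (D i 1) + 3 ∑ P (bd i)`.
-/

set_option autoImplicit false
set_option linter.unusedSectionVars false

namespace Pool.Agent.GMH.Simp3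

open Finset Pool.Agent.PWZ Pool.Agent.M3 Pool.Agent.GMH.Gdy

noncomputable section

variable {Om : Type*} [Fintype Om] {P : FP Om} {α β γ : Type*} {κ₁ κ₂ κ₃ : ℕ → Type*}
  {X : Om → α} {Y : Om → β} {Z : Om → γ} {cX : ∀ t, Om → κ₁ t} {cY : ∀ t, Om → κ₂ t} {cZ : ∀ t, Om → κ₃ t}

/-- three independent vertices with their cells -/
structure T3 (P : FP Om) (X : Om → α) (Y : Om → β) (Z : Om → γ) (cX : ∀ t, Om → κ₁ t) (cY : ∀ t, Om → κ₂ t)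
    (cZ : ∀ t, Om → κ₃ t) : Prop where
  iX : P.Indep X (fun w => (Y w, Z w))
  iY : P.Indep Y (fun w => (X w, Z w))
  iZ : P.Indep Z (fun w => (X w, Y w))
  fX : ∀ s, Fac X (cX s)
  fY : ∀ s, Fac Y (cY s)
  fZ : ∀ s, Fac Z (cZ s)
  gX : Filt cX
  gY : Filt cY
  gZ : Filt cZ

theorem fac_swap (X : Om → α) (Y : Om → β) : Fac (fun w => (X w, Y w)) (fun w => (Y w, X w)) := fun v w h => by
  have h1 : X v = X w ∧ Y v = Y w := Prod.mk.injEq _ _ _ _ ▸ h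
  show (Y v, X v) = (Y w, X w)
  rw [h1.1, h1.2]

theorem T3.swap (h : T3 P X Y Z cX cY cZ) : T3 P Y X Z cY cX cZ where
  iX := h.iY
  iY := h.iX
  iZ := h.iZ.mono (Fac.refl _) (fac_swap X Y)
  fX := h.fY
  fY := h.fX
  fZ := h.fZ
  gX := h.gY
  gY := h.gX
  gZ := h.gZ

theorem T3.rot (h : T3 P X Y Z cX cY cZ) : T3 P Y Z X cY cZ cX where
  iX := h.iY.mono (Fac.refl _) (fac_swap X Z)
  iY := h.iZ.mono (Fac.refl _) (fac_swap X Y)
  iZ := h.iX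
  fX := h.fY
  fY := h.fZ
  fZ := h.fX
  gX := h.gY
  gY := h.gZ
  gZ := h.gX

/-! ## densities over a face and at a vertex -/

/-- density over the exact face Y Z, the other vertex in its cell -/
def fd (P : FP Om) (cX : ∀ t, Om → κ₁ t) (Y : Om → β) (Z : Om → γ) (s : ℕ) (A : Om → Prop) (w : Om) : ℝ :=
  P.ce (fun v => (cX s v, (Y v, Z v))) (fun v => ind (A v)) w

/-- density at the exact vertex `Z`, the others in their cells -/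
def vd (P : FP Om) (cX : ∀ t, Om → κ₁ t) (cY : ∀ t, Om → κ₂ t) (Z : Om → γ) (s : ℕ) (A : Om → Prop) (w : Om) : ℝ :=
  P.ce (fun v => (cX s v, (cY s v, Z v))) (fun v => ind (A v)) w

theorem fd_fac (s : ℕ) (A : Om → Prop) {v w : Om} (h1 : cX s v = cX s w) (h2 : Y v = Y w) (h3 : Z v = Z w) :
    fd P cX Y Z s A v = fd P cX Y Z s A w := by
  refine P.ce_fac (fun v => (cX s v, (Y v, Z v))) _ v w ?_
  show (cX s v, (Y v, Z v)) = (cX s w, (Y w, Z w))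
  rw [h1, h2, h3]

theorem vd_fac (s : ℕ) (A : Om → Prop) {v w : Om} (h1 : cX s v = cX s w) (h2 : cY s v = cY s w) (h3 : Z v = Z w) :
    vd P cX cY Z s A v = vd P cX cY Z s A w := by
  refine P.ce_fac (fun v => (cX s v, (cY s v, Z v))) _ v w ?_
  show (cX s v, (cY s v, Z v)) = (cX s w, (cY s w, Z w))
  rw [h1, h2, h3]

theorem fd_swap (s : ℕ) (A : Om → Prop) (w : Om) : fd P cX Z Y s A w = fd P cX Y Z s A w := by
  refine P.ce_congr_map (fun v w h => ?_) (fun v w h => ?_) _ w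
  · have h1 : cX s v = cX s w ∧ (Z v = Z w ∧ Y v = Y w) := by
      have := Prod.mk.injEq _ _ _ _ ▸ h
      exact ⟨this.1, Prod.mk.injEq _ _ _ _ ▸ this.2⟩
    show (cX s v, (Y v, Z v)) = (cX s w, (Y w, Z w))
    rw [h1.1, h1.2.1, h1.2.2]
  · have h1 : cX s v = cX s w ∧ (Y v = Y w ∧ Z v = Z w) := by
      have := Prod.mk.injEq _ _ _ _ ▸ h
      exact ⟨this.1, Prod.mk.injEq _ _ _ _ ▸ this.2⟩
    show (cX s v, (Z v, Y v)) = (cX s w, (Z w, Y w))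
    rw [h1.1, h1.2.1, h1.2.2]

theorem vd_swap (s : ℕ) (A : Om → Prop) (w : Om) : vd P cY cX Z s A w = vd P cX cY Z s A w := by
  refine P.ce_congr_map (fun v w h => ?_) (fun v w h => ?_) _ w
  · have h1 : cY s v = cY s w ∧ (cX s v = cX s w ∧ Z v = Z w) := by
      have := Prod.mk.injEq _ _ _ _ ▸ h
      exact ⟨this.1, Prod.mk.injEq _ _ _ _ ▸ this.2⟩
    show (cX s v, (cY s v, Z v)) = (cX s w, (cY s w, Z w))
    rw [h1.1, h1.2.1, h1.2.2]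
  · have h1 : cX s v = cX s w ∧ (cY s v = cY s w ∧ Z v = Z w) := by
      have := Prod.mk.injEq _ _ _ _ ▸ h
      exact ⟨this.1, Prod.mk.injEq _ _ _ _ ▸ this.2⟩
    show (cY s v, (cX s v, Z v)) = (cY s w, (cX s w, Z w))
    rw [h1.1, h1.2.1, h1.2.2]

/-- few triples over a face -/
theorem lo {A B : Om → Prop} {s : ℕ} {g : ℝ}
    (hB : ∀ v w, cX s v = cX s w → Y v = Y w → Z v = Z w → (B v ↔ B w))
    (hg : ∀ w, P.p w ≠ 0 → B w → fd P cX Y Z s A w ≤ g) : P.Pr (fun w => B w ∧ A w) ≤ g * P.Pr B := by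
  have hfac : Fac (fun v => (cX s v, (Y v, Z v))) (fun w => ind (B w)) := by
    refine Fac.ind fun v w h => ?_
    have h1 := (Prod.mk.injEq _ _ _ _ ▸ h : cX s v = cX s w ∧ (Y v, Z v) = (Y w, Z w))
    have h2 := (Prod.mk.injEq _ _ _ _ ▸ h1.2 : Y v = Y w ∧ Z v = Z w)
    exact hB v w h1.1 h2.1 h2.2
  have h1 : P.Pr (fun w => B w ∧ A w) = P.E (fun w => ind (B w) * fd P cX Y Z s A w) := by
    unfold FP.Pr fd
    rw [P.E_mul_ce hfac]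
    exact P.E_congr fun w _ => ind_and _ _
  rw [h1]
  unfold FP.Pr
  rw [← FP.E_smul]
  refine P.E_mono fun w hw => ?_
  by_cases hb : B w
  · rw [ind_of hb, one_mul, mul_one]
    exact hg w hw hb
  · rw [ind_not hb, zero_mul, mul_zero]

/-- the exact vertex of `X` can be forgotten for events of face Y Z and the cell of `X` -/
theorem forget (hT : T3 P X Y Z cX cY cZ) {s : ℕ} {f : Om → ℝ} (hf : Fac (fun w => (cX s w, (Y w, Z w))) f) {w : Om}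
    (hw : P.p w ≠ 0) :
    P.ce (fun v => (cY s v, (X v, Z v))) f w = P.ce (fun v => (cX s v, (cY s v, Z v))) f w := by
  have h1 := P.ce_indep_eq hT.iY (ζ := cY s) (φ := fun v => (cX s v, Z v)) (ψ := fun v => (X v, Z v)) (hT.fY s)
    (Fac.refl _) (fun v w h => by
      have h1 := (Prod.mk.injEq _ _ _ _ ▸ h : X v = X w ∧ Z v = Z w)
      show (cX s v, Z v) = (cX s w, Z w)
      rw [hT.fX s v w h1.1, h1.2]) (f := f) (fun v w h => by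
      have h1 := (Prod.mk.injEq _ _ _ _ ▸ h : Y v = Y w ∧ (cX s v, Z v) = (cX s w, Z w))
      have h2 := (Prod.mk.injEq _ _ _ _ ▸ h1.2 : cX s v = cX s w ∧ Z v = Z w)
      refine hf v w ?_
      show (cX s v, (Y v, Z v)) = (cX s w, (Y w, Z w))
      rw [h1.1, h2.1, h2.2]) hw
  rw [h1]
  refine P.ce_congr_map (fun v w h => ?_) (fun v w h => ?_) _ w
  · have h1 := (Prod.mk.injEq _ _ _ _ ▸ h : cY s v = cY s w ∧ (cX s v, Z v) = (cX s w, Z w))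
    have h2 := (Prod.mk.injEq _ _ _ _ ▸ h1.2 : cX s v = cX s w ∧ Z v = Z w)
    show (cX s v, (cY s v, Z v)) = (cX s w, (cY s w, Z w))
    rw [h1.1, h2.1, h2.2]
  · have h1 := (Prod.mk.injEq _ _ _ _ ▸ h : cX s v = cX s w ∧ (cY s v, Z v) = (cY s w, Z w))
    have h2 := (Prod.mk.injEq _ _ _ _ ▸ h1.2 : cY s v = cY s w ∧ Z v = Z w)
    show (cY s v, (cX s v, Z v)) = (cY s w, (cX s w, Z w))
    rw [h1.1, h2.1, h2.2]

/-- many triples over a face: seldom, also for an event of the exact `X` -/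
theorem hi (hT : T3 P X Y Z cX cY cZ) {A B : Om → Prop} {s : ℕ} {g u' : ℝ} (hg : 0 < g) (hu : 0 ≤ u')
    (hB : ∀ v w, cY s v = cY s w → X v = X w → Z v = Z w → (B v ↔ B w)) :
    P.Pr (fun w => B w ∧ g ≤ fd P cX Y Z s A w) ≤
      u' / g * P.Pr B + P.Pr (fun w => B w ∧ u' < vd P cX cY Z s A w) := by
  have hfac : Fac (fun v => (cY s v, (X v, Z v))) (fun w => ind (B w)) := by
    refine Fac.ind fun v w h => ?_
    have h1 := (Prod.mk.injEq _ _ _ _ ▸ h : cY s v = cY s w ∧ (X v, Z v) = (X w, Z w))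
    have h2 := (Prod.mk.injEq _ _ _ _ ▸ h1.2 : X v = X w ∧ Z v = Z w)
    exact hB v w h1.1 h2.1 h2.2
  have hfac2 : Fac (fun w => (cX s w, (Y w, Z w))) (fun w => ind (g ≤ fd P cX Y Z s A w)) := by
    refine Fac.ind fun v w h => ?_
    have h1 := (Prod.mk.injEq _ _ _ _ ▸ h : cX s v = cX s w ∧ (Y v, Z v) = (Y w, Z w))
    have h2 := (Prod.mk.injEq _ _ _ _ ▸ h1.2 : Y v = Y w ∧ Z v = Z w)
    rw [fd_fac s A h1.1 h2.1 h2.2]
  have h1 : P.Pr (fun w => B w ∧ g ≤ fd P cX Y Z s A w) =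
      P.E (fun w => ind (B w) * P.ce (fun v => (cY s v, (X v, Z v))) (fun w => ind (g ≤ fd P cX Y Z s A w)) w) := by
    rw [P.E_mul_ce hfac]
    unfold FP.Pr
    exact P.E_congr fun w _ => ind_and _ _
  rw [h1]
  unfold FP.Pr
  rw [← FP.E_smul, ← FP.E_add]
  refine P.E_mono fun w hw => ?_
  rw [forget hT hfac2 hw]
  by_cases hb : B w
  · rw [ind_of hb, one_mul, mul_one]
    by_cases hv : u' < vd P cX cY Z s A w
    · rw [ind_of ⟨hb, hv⟩]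
      have h2 : P.ce (fun v => (cX s v, (cY s v, Z v))) (fun w => ind (g ≤ fd P cX Y Z s A w)) w ≤ 1 :=
        P.ce_le_const (fun _ _ => ind_le_one _) hw
      have h3 : 0 ≤ u' / g := by positivity
      linarith
    · rw [ind_not (fun h => hv h.2), add_zero]
      have hXY : Fac (fun v => (cX s v, (Y v, Z v))) (fun v => (cX s v, (cY s v, Z v))) := fun v w h => by
        have h1 := (Prod.mk.injEq _ _ _ _ ▸ h : cX s v = cX s w ∧ (Y v, Z v) = (Y w, Z w))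
        have h2 := (Prod.mk.injEq _ _ _ _ ▸ h1.2 : Y v = Y w ∧ Z v = Z w)
        show (cX s v, (cY s v, Z v)) = (cX s w, (cY s w, Z w))
        rw [h1.1, hT.fY s v w h2.1, h2.2]
      have h2 : P.ce (fun v => (cX s v, (cY s v, Z v))) (fun w => ind (g ≤ fd P cX Y Z s A w)) w ≤
          P.ce (fun v => (cX s v, (cY s v, Z v))) (fun w => g⁻¹ * fd P cX Y Z s A w) w := by
        refine P.ce_mono (fun v _ => ?_) w
        have h0 : 0 ≤ fd P cX Y Z s A v := P.ce_nonneg (fun _ _ => ind_nonneg _) v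
        by_cases hc : g ≤ fd P cX Y Z s A v
        · rw [ind_of hc, ← mul_inv_cancel₀ hg.ne', mul_comm]
          exact mul_le_mul_of_nonneg_left hc (inv_nonneg.2 hg.le)
        · rw [ind_not hc]
          exact mul_nonneg (inv_nonneg.2 hg.le) h0
      have h3 : P.ce (fun v => (cX s v, (cY s v, Z v))) (fun w => g⁻¹ * fd P cX Y Z s A w) w =
          g⁻¹ * vd P cX cY Z s A w := by
        rw [P.ce_smul]
        congr 1
        exact P.ce_tower hXY _ w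
      rw [h3] at h2
      refine h2.trans ?_
      rw [div_eq_inv_mul]
      exact mul_le_mul_of_nonneg_left (not_lt.1 hv) (inv_nonneg.2 hg.le)
  · rw [ind_not hb, zero_mul, mul_zero, zero_add]
    exact ind_nonneg _

/-! ## stopping times and covers -/

/-- a stopping time of the nodes -/
def St3 (cX : ∀ t, Om → κ₁ t) (cY : ∀ t, Om → κ₂ t) (cZ : ∀ t, Om → κ₃ t) (σ : Om → ℕ) : Prop :=
  ∀ s v w, cX s v = cX s w → cY s v = cY s w → cZ s v = cZ s w → (σ v ≤ s ↔ σ w ≤ s)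

theorem St3.swap {σ : Om → ℕ} (h : St3 cX cY cZ σ) : St3 cY cX cZ σ := fun s v w h1 h2 h3 => h s v w h2 h1 h3

theorem St3.rot {σ : Om → ℕ} (h : St3 cX cY cZ σ) : St3 cY cZ cX σ := fun s v w h1 h2 h3 => h s v w h3 h1 h2

theorem St3.ge (hT : T3 P X Y Z cX cY cZ) {σ : Om → ℕ} (h : St3 cX cY cZ σ) {s : ℕ} {v w : Om} (h1 : cX s v = cX s w)
    (h2 : cY s v = cY s w) (h3 : cZ s v = cZ s w) : s ≤ σ v ↔ s ≤ σ w := by
  rcases Nat.eq_zero_or_pos s with rfl | hs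
  · simp
  · have h4 := h (s - 1) v w (hT.gX.le (Nat.sub_le s 1) v w h1) (hT.gY.le (Nat.sub_le s 1) v w h2)
      (hT.gZ.le (Nat.sub_le s 1) v w h3)
    omega

theorem St3.eq (hT : T3 P X Y Z cX cY cZ) {σ : Om → ℕ} (h : St3 cX cY cZ σ) {s : ℕ} {v w : Om} (h1 : cX s v = cX s w)
    (h2 : cY s v = cY s w) (h3 : cZ s v = cZ s w) : σ v = s ↔ σ w = s := by
  have h4 := h s v w h1 h2 h3
  have h5 := h.ge hT h1 h2 h3
  omega

/-- covered faces: `D1 s` a set of faces Y Z covered before the time `s`, and so on -/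
structure C3 (X : Om → α) (Y : Om → β) (Z : Om → γ) (D1 D2 D3 : ℕ → Om → Prop) : Prop where
  h1 : ∀ s v w, Y v = Y w → Z v = Z w → (D1 s v ↔ D1 s w)
  h2 : ∀ s v w, X v = X w → Z v = Z w → (D2 s v ↔ D2 s w)
  h3 : ∀ s v w, X v = X w → Y v = Y w → (D3 s v ↔ D3 s w)
  m1 : ∀ s w, D1 s w → D1 (s + 1) w
  m2 : ∀ s w, D2 s w → D2 (s + 1) w
  m3 : ∀ s w, D3 s w → D3 (s + 1) w
  z1 : ∀ w, ¬ D1 0 w
  z2 : ∀ w, ¬ D2 0 w
  z3 : ∀ w, ¬ D3 0 w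

theorem C3.swap {D1 D2 D3 : ℕ → Om → Prop} (h : C3 X Y Z D1 D2 D3) : C3 Y X Z D2 D1 D3 where
  h1 := h.h2
  h2 := h.h1
  h3 := fun s v w a b => h.h3 s v w b a
  m1 := h.m2
  m2 := h.m1
  m3 := h.m3
  z1 := h.z2
  z2 := h.z1
  z3 := h.z3

theorem C3.rot {D1 D2 D3 : ℕ → Om → Prop} (h : C3 X Y Z D1 D2 D3) : C3 Y Z X D2 D3 D1 where
  h1 := fun s v w a b => h.h2 s v w b a
  h2 := fun s v w a b => h.h3 s v w b a
  h3 := h.h1
  m1 := h.m2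
  m2 := h.m3
  m3 := h.m1
  z1 := h.z2
  z2 := h.z3
  z3 := h.z1

theorem mono_of {D : ℕ → Om → Prop} (h : ∀ s w, D s w → D (s + 1) w) {s t : ℕ} (hst : s ≤ t) {w : Om}
    (hw : D s w) : D t w := by
  induction t with
  | zero =>
    have : s = 0 := by omega
    rw [← this]
    exact hw
  | succ t ih =>
    rcases Nat.lt_or_ge t s with h1 | h1
    · have : s = t + 1 := by omega
      rw [← this]
      exact hw
    · exact h t w (ih h1)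

theorem ex_new {D : ℕ → Om → Prop} (hz : ∀ w, ¬ D 0 w) {s : ℕ} {w : Om} (hw : D (s + 1) w) :
    ∃ t ≤ s, D (t + 1) w ∧ ¬ D t w := by
  induction s with
  | zero => exact ⟨0, le_refl _, hw, hz w⟩
  | succ s ih =>
    by_cases h : D (s + 1) w
    · obtain ⟨t, ht, h'⟩ := ih h
      exact ⟨t, by omega, h'⟩
    · exact ⟨s + 1, le_refl _, hw, h⟩

theorem new_one {D : ℕ → Om → Prop} (h : ∀ s w, D s w → D (s + 1) w) {w : Om} (s s' : ℕ)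
    (h1 : D (s + 1) w ∧ ¬ D s w) (h2 : D (s' + 1) w ∧ ¬ D s' w) : s = s' := by
  rcases lt_trichotomy s s' with h3 | h3 | h3
  · exact absurd (mono_of h h3 h1.1) h2.2
  · exact h3
  · exact absurd (mono_of h h3 h2.1) h1.2

theorem sum_ind' {A : ℕ → Prop} (h1 : ∀ s s', A s → A s' → s = s') (T : ℕ) :
    ∑ s ∈ range T, ind (A s) = ind (∃ s < T, A s) := by
  by_cases h : ∃ s < T, A s
  · obtain ⟨s, hs, hA⟩ := h
    rw [ind_of ⟨s, hs, hA⟩, Finset.sum_eq_single s, ind_of hA]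
    · intro b _ hb
      exact ind_not fun h => hb (h1 b s h hA)
    · intro h
      exact absurd (mem_range.2 hs) h
  · rw [ind_not h]
    refine Finset.sum_eq_zero fun s hs => ind_not fun hA => h ⟨s, mem_range.1 hs, hA⟩

/-- the event `at some time < T`, at most one time -/
theorem Pr_sum {A : ℕ → Om → Prop} (h1 : ∀ w s s', A s w → A s' w → s = s') (T : ℕ) :
    ∑ s ∈ range T, P.Pr (A s) = P.Pr (fun w => ∃ s < T, A s w) := by
  unfold FP.Pr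
  rw [← FP.E_sum]
  exact P.E_congr fun w _ => sum_ind' (h1 w) T

/-- the exact vertex `Z` is bad: its uncovered triples have density `> u` at some time -/
def bd (P : FP Om) (cX : ∀ t, Om → κ₁ t) (cY : ∀ t, Om → κ₂ t) (Z : Om → γ) (u : ℝ) (T : ℕ) (H : Om → Prop)
    (D : ℕ → Om → Prop) (w : Om) : Prop := ∃ s < T, u < vd P cX cY Z s (fun v => H v ∧ ¬ D (s + 1) v) w

theorem bd_swap {u : ℝ} {T : ℕ} {H : Om → Prop} {D : ℕ → Om → Prop} :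
    bd P cY cX Z u T H D = bd P cX cY Z u T H D := by
  funext w
  unfold bd
  refine propext (exists_congr fun s => and_congr_right fun _ => ?_)
  rw [vd_swap (cX := cX) (cY := cY) (Z := Z)]

/-- the cells at the exact vertex `Z` shrink by a bounded factor -/
def rt (P : FP Om) (cX : ∀ t, Om → κ₁ t) (cY : ∀ t, Om → κ₂ t) (Z : Om → γ) (h : ℝ) : Prop :=
  ∀ s w, P.p w ≠ 0 → P.m (fun v => (cX s v, (cY s v, Z v))) w ≤ h * P.m (fun v => (cX (s + 1) v, (cY (s + 1) v, Z v))) w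

theorem rt.swap {h : ℝ} (hr : rt P cX cY Z h) : rt P cY cX Z h := by
  intro s w hw
  have e : ∀ t, P.m (fun v => (cY t v, (cX t v, Z v))) w = P.m (fun v => (cX t v, (cY t v, Z v))) w := by
    intro t
    refine P.m_congr (fun v w h => ?_) (fun v w h => ?_) w
    · have h1 := (Prod.mk.injEq _ _ _ _ ▸ h : cY t v = cY t w ∧ (cX t v, Z v) = (cX t w, Z w))
      have h2 := (Prod.mk.injEq _ _ _ _ ▸ h1.2 : cX t v = cX t w ∧ Z v = Z w)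
      show (cX t v, (cY t v, Z v)) = (cX t w, (cY t w, Z w))
      rw [h1.1, h2.1, h2.2]
    · have h1 := (Prod.mk.injEq _ _ _ _ ▸ h : cX t v = cX t w ∧ (cY t v, Z v) = (cY t w, Z w))
      have h2 := (Prod.mk.injEq _ _ _ _ ▸ h1.2 : cY t v = cY t w ∧ Z v = Z w)
      show (cY t v, (cX t v, Z v)) = (cY t w, (cX t w, Z w))
      rw [h1.1, h2.1, h2.2]
  rw [e, e]
  exact hr s w hw

theorem vd_ratio (hT : T3 P X Y Z cX cY cZ) {h : ℝ} (hr : rt P cX cY Z h) (s : ℕ) (A : Om → Prop) {w : Om}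
    (hw : P.p w ≠ 0) : vd P cX cY Z (s + 1) A w ≤ h * vd P cX cY Z s A w := by
  refine cp_ratio (P := P) (Y := fun t v => (cX t v, (cY t v, Z v))) (h := h) (s := s) (t := s + 1) ?_ hw (hr s w hw) A
  intro v w h
  have h1 := (Prod.mk.injEq _ _ _ _ ▸ h : cX (s + 1) v = cX (s + 1) w ∧ (cY (s + 1) v, Z v) = (cY (s + 1) w, Z w))
  have h2 := (Prod.mk.injEq _ _ _ _ ▸ h1.2 : cY (s + 1) v = cY (s + 1) w ∧ Z v = Z w)
  show (cX s v, (cY s v, Z v)) = (cX s w, (cY s w, Z w))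
  rw [hT.gX s v w h1.1, hT.gY s v w h2.1, h2.2]

variable {D1 D2 D3 : ℕ → Om → Prop} {H : Om → Prop} {σ : Om → ℕ} {T : ℕ} {g u h : ℝ}

/-- **all faces covered**, `D1` first, `D2` second, `D3` last -/
theorem lastly (hT : T3 P X Y Z cX cY cZ) (hC : C3 X Y Z D1 D2 D3) (hσ : St3 cX cY cZ σ) (hTσ : ∀ w, σ w < T)
    (hr : rt P cX cY Z h) (hg : 0 < g) (hu : 0 ≤ u) (hh : 0 ≤ h) :
    P.Pr (fun w => H w ∧ ∃ s ≤ σ w, (D2 (s + 1) w ∧ ¬ D2 s w) ∧ D1 (s + 1) w ∧ ¬ D3 s w) ≤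
      g * P.Pr (fun w => D1 (σ w + 1) w) + h * u / g * P.Pr (fun w => D2 (σ w + 1) w) +
        P.Pr (fun w => D2 1 w) + P.Pr (bd P cX cY Z u T H D3) := by
  set V : ℕ → Om → Prop := fun s w => H w ∧ ¬ D3 s w with hV
  set Dh : ℕ → Om → Prop := fun s w => D1 (s + 1) w ∧ fd P cX Y Z s (V s) w < g with hDh
  set fD : ℕ → Om → Prop := fun s w => (Dh s w ∧ ∀ s' < s, ¬ Dh s' w) ∧ s ≤ σ w with hfD
  set n2 : ℕ → Om → Prop := fun s w => (D2 (s + 1) w ∧ ¬ D2 s w) ∧ s ≤ σ w with hn2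
  have hDhf : ∀ s s' v w, s' ≤ s → cX s v = cX s w → Y v = Y w → Z v = Z w → (Dh s' v ↔ Dh s' w) := by
    intro s s' v w hs h1 h2 h3
    rw [hDh]
    simp only
    rw [hC.h1 (s' + 1) v w h2 h3, fd_fac s' (V s') (hT.gX.le hs v w h1) h2 h3]
  have hfDf : ∀ s v w, cX s v = cX s w → Y v = Y w → Z v = Z w → (fD s v ↔ fD s w) := by
    intro s v w h1 h2 h3
    rw [hfD]
    simp only
    rw [hDhf s s v w (le_refl _) h1 h2 h3, hσ.ge hT h1 (hT.fY s v w h2) (hT.fZ s v w h3)]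
    refine and_congr_left fun _ => and_congr_right fun _ => forall_congr' fun s' => forall_congr' fun hs' => ?_
    rw [hDhf s s' v w hs'.le h1 h2 h3]
  have hn2f : ∀ s v w, cY s v = cY s w → X v = X w → Z v = Z w → (n2 s v ↔ n2 s w) := by
    intro s v w h1 h2 h3
    rw [hn2]
    simp only
    rw [hC.h2 (s + 1) v w h2 h3, hC.h2 s v w h2 h3, hσ.ge hT (hT.fX s v w h2) h1 (hT.fZ s v w h3)]
  have hfD1 : ∀ w s s', fD s w → fD s' w → s = s' := by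
    intro w s s' h1 h2
    rcases lt_trichotomy s s' with h3 | h3 | h3
    · exact absurd h1.1.1 (h2.1.2 s h3)
    · exact h3
    · exact absurd h2.1.1 (h1.1.2 s' h3)
  have hn21 : ∀ w s s', n2 s w → n2 s' w → s = s' := fun w s s' h1 h2 => new_one hC.m2 s s' h1.1 h2.1
  -- the two possibilities
  have hor : ∀ w, (H w ∧ ∃ s ≤ σ w, (D2 (s + 1) w ∧ ¬ D2 s w) ∧ D1 (s + 1) w ∧ ¬ D3 s w) →
      (∃ s < T, fD s w ∧ V s w) ∨ (∃ s < T, n2 s w ∧ g ≤ fd P cX Y Z s (V s) w) := by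
    rintro w ⟨hH, s, hs, hn, h1, h3⟩
    by_cases hc : g ≤ fd P cX Y Z s (V s) w
    · exact Or.inr ⟨s, lt_of_le_of_lt hs (hTσ w), ⟨hn, hs⟩, hc⟩
    · refine Or.inl ?_
      classical
      have hex : ∃ t, Dh t w := ⟨s, h1, not_le.1 hc⟩
      have h4 := Nat.find_min' hex ⟨h1, not_le.1 hc⟩
      refine ⟨Nat.find hex, lt_of_le_of_lt (h4.trans hs) (hTσ w), ⟨⟨Nat.find_spec hex, fun s' hs' =>
        Nat.find_min hex hs'⟩, h4.trans hs⟩, hH, fun h5 => h3 (mono_of hC.m3 h4 h5)⟩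
  refine (P.Pr_mono fun w _ hw => hor w hw).trans ((P.Pr_or_le _ _).trans ?_)
  have hA : P.Pr (fun w => ∃ s < T, fD s w ∧ V s w) ≤ g * P.Pr (fun w => D1 (σ w + 1) w) := by
    rw [← Pr_sum (A := fun s w => fD s w ∧ V s w) (fun w s s' h1 h2 => hfD1 w s s' h1.1 h2.1) T]
    have h1 : ∀ s ∈ range T, P.Pr (fun w => fD s w ∧ V s w) ≤ g * P.Pr (fD s) := fun s _ =>
      lo (P := P) (cX := cX) (Y := Y) (Z := Z) (hfDf s) (fun w _ hw => hw.1.1.2.le)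
    refine (Finset.sum_le_sum h1).trans ?_
    rw [← Finset.mul_sum, Pr_sum hfD1 T]
    refine mul_le_mul_of_nonneg_left (P.Pr_mono fun w _ hw => ?_) hg.le
    obtain ⟨s, _, hs⟩ := hw
    exact mono_of hC.m1 (by have := hs.2; omega) hs.1.1.1
  have hB : P.Pr (fun w => ∃ s < T, n2 s w ∧ g ≤ fd P cX Y Z s (V s) w) ≤
      h * u / g * P.Pr (fun w => D2 (σ w + 1) w) + P.Pr (fun w => D2 1 w) + P.Pr (bd P cX cY Z u T H D3) := by
    rw [← Pr_sum (A := fun s w => n2 s w ∧ g ≤ fd P cX Y Z s (V s) w) (fun w s s' h1 h2 => hn21 w s s' h1.1 h2.1) T]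
    have h1 : ∀ s ∈ range T, P.Pr (fun w => n2 s w ∧ g ≤ fd P cX Y Z s (V s) w) ≤
        h * u / g * P.Pr (n2 s) + P.Pr (fun w => n2 s w ∧ h * u < vd P cX cY Z s (V s) w) := fun s _ =>
      hi hT hg (mul_nonneg hh hu) (hn2f s)
    refine (Finset.sum_le_sum h1).trans ?_
    rw [Finset.sum_add_distrib, ← Finset.mul_sum, Pr_sum hn21 T,
      Pr_sum (A := fun s w => n2 s w ∧ h * u < vd P cX cY Z s (V s) w) (fun w s s' h1 h2 => hn21 w s s' h1.1 h2.1) T]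
    have h2 : h * u / g * P.Pr (fun w => ∃ s < T, n2 s w) ≤ h * u / g * P.Pr (fun w => D2 (σ w + 1) w) := by
      refine mul_le_mul_of_nonneg_left (P.Pr_mono fun w _ hw => ?_) (by positivity)
      obtain ⟨s, _, hs⟩ := hw
      exact mono_of hC.m2 (by have := hs.2; omega) hs.1.1
    have h3 : P.Pr (fun w => ∃ s < T, n2 s w ∧ h * u < vd P cX cY Z s (V s) w) ≤
        P.Pr (fun w => D2 1 w) + P.Pr (bd P cX cY Z u T H D3) := by
      refine (P.Pr_mono fun w hw hs => ?_).trans (P.Pr_or_le _ _)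
      obtain ⟨s, hsT, hn, hv⟩ := hs
      rcases Nat.eq_zero_or_pos s with rfl | hs0
      · exact Or.inl hn.1.1
      · refine Or.inr ?_
        obtain ⟨t, rfl⟩ : ∃ t, s = t + 1 := ⟨s - 1, by omega⟩
        have h4 := vd_ratio hT hr t (V (t + 1)) hw
        refine ⟨t, by omega, ?_⟩
        have h5 : h * u < h * vd P cX cY Z t (V (t + 1)) w := lt_of_lt_of_le hv h4
        exact lt_of_mul_lt_mul_left h5 hh
    linarith
  linarith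

/-- the face `D1` is covered, the face `D3` is not, `S` a strong set of faces X Z -/
theorem mid (hT : T3 P X Y Z cX cY cZ) (hC : C3 X Y Z D1 D2 D3) (hσ : St3 cX cY cZ σ) (hTσ : ∀ w, σ w < T)
    (hg : 0 < g) (hu : 0 ≤ u) {S : ℕ → Om → Prop}
    (hS : ∀ s v w, cY s v = cY s w → X v = X w → Z v = Z w → (S s v ↔ S s w)) :
    P.Pr (fun w => H w ∧ D1 (σ w + 1) w ∧ ¬ D3 (σ w + 1) w ∧ S (σ w) w) ≤
      g * P.Pr (fun w => D1 (σ w + 1) w) + u / g * P.Pr (fun w => S (σ w) w) + P.Pr (bd P cX cY Z u T H D3) := by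
  set V : ℕ → Om → Prop := fun s w => H w ∧ ¬ D3 (s + 1) w with hV
  set B1 : ℕ → Om → Prop := fun s w => (D1 (s + 1) w ∧ fd P cX Y Z s (V s) w ≤ g) ∧ σ w = s with hB1
  set B2 : ℕ → Om → Prop := fun s w => S s w ∧ σ w = s with hB2
  have hone1 : ∀ w s s', B1 s w → B1 s' w → s = s' := fun w s s' h1 h2 => by rw [← h1.2, h2.2]
  have hone2 : ∀ w s s', B2 s w → B2 s' w → s = s' := fun w s s' h1 h2 => by rw [← h1.2, h2.2]
  have hor : ∀ w, (H w ∧ D1 (σ w + 1) w ∧ ¬ D3 (σ w + 1) w ∧ S (σ w) w) →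
      (∃ s < T, B1 s w ∧ V s w) ∨ (∃ s < T, B2 s w ∧ g ≤ fd P cX Y Z s (V s) w) := by
    rintro w ⟨hH, h1, h3, h4⟩
    rcases le_total (fd P cX Y Z (σ w) (V (σ w)) w) g with h5 | h5
    · exact Or.inl ⟨σ w, hTσ w, ⟨⟨h1, h5⟩, rfl⟩, hH, h3⟩
    · exact Or.inr ⟨σ w, hTσ w, ⟨h4, rfl⟩, h5⟩
  refine (P.Pr_mono fun w _ hw => hor w hw).trans ((P.Pr_or_le _ _).trans ?_)
  have hA : P.Pr (fun w => ∃ s < T, B1 s w ∧ V s w) ≤ g * P.Pr (fun w => D1 (σ w + 1) w) := by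
    rw [← Pr_sum (A := fun s w => B1 s w ∧ V s w) (fun w s s' h1 h2 => hone1 w s s' h1.1 h2.1) T]
    have h1 : ∀ s ∈ range T, P.Pr (fun w => B1 s w ∧ V s w) ≤ g * P.Pr (B1 s) := fun s _ => by
      refine lo (P := P) (cX := cX) (Y := Y) (Z := Z) (fun v w h1 h2 h3 => ?_) (fun w _ hw => hw.1.2)
      rw [hB1]
      simp only
      rw [hC.h1 (s + 1) v w h2 h3, fd_fac s (V s) h1 h2 h3, hσ.eq hT h1 (hT.fY s v w h2) (hT.fZ s v w h3)]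
    refine (Finset.sum_le_sum h1).trans ?_
    rw [← Finset.mul_sum, Pr_sum hone1 T]
    refine mul_le_mul_of_nonneg_left (P.Pr_mono fun w _ hw => ?_) hg.le
    obtain ⟨s, _, hs⟩ := hw
    rw [hs.2]
    exact hs.1.1
  have hB : P.Pr (fun w => ∃ s < T, B2 s w ∧ g ≤ fd P cX Y Z s (V s) w) ≤
      u / g * P.Pr (fun w => S (σ w) w) + P.Pr (bd P cX cY Z u T H D3) := by
    rw [← Pr_sum (A := fun s w => B2 s w ∧ g ≤ fd P cX Y Z s (V s) w) (fun w s s' h1 h2 => hone2 w s s' h1.1 h2.1) T]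
    have h1 : ∀ s ∈ range T, P.Pr (fun w => B2 s w ∧ g ≤ fd P cX Y Z s (V s) w) ≤
        u / g * P.Pr (B2 s) + P.Pr (fun w => B2 s w ∧ u < vd P cX cY Z s (V s) w) := fun s _ => by
      refine hi hT hg hu (fun v w h1 h2 h3 => ?_)
      rw [hB2]
      simp only
      rw [hS s v w h1 h2 h3, hσ.eq hT (hT.fX s v w h2) h1 (hT.fZ s v w h3)]
    refine (Finset.sum_le_sum h1).trans ?_
    rw [Finset.sum_add_distrib, ← Finset.mul_sum, Pr_sum hone2 T,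
      Pr_sum (A := fun s w => B2 s w ∧ u < vd P cX cY Z s (V s) w) (fun w s s' h1 h2 => hone2 w s s' h1.1 h2.1) T]
    have h2 : u / g * P.Pr (fun w => ∃ s < T, B2 s w) ≤ u / g * P.Pr (fun w => S (σ w) w) := by
      refine mul_le_mul_of_nonneg_left (P.Pr_mono fun w _ hw => ?_) (by positivity)
      obtain ⟨s, _, hs⟩ := hw
      rw [hs.2]
      exact hs.1
    have h3 : P.Pr (fun w => ∃ s < T, B2 s w ∧ u < vd P cX cY Z s (V s) w) ≤ P.Pr (bd P cX cY Z u T H D3) :=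
      P.Pr_mono fun w _ ⟨s, hsT, _, hv⟩ => ⟨s, hsT, hv⟩
    linarith
  linarith

/-- the densities of two faces at their common exact vertex multiply -/
theorem ce_prod (hT : T3 P X Y Z cX cY cZ) {s : ℕ} {A B : Om → Prop}
    (hA : ∀ v w, cX s v = cX s w → Y v = Y w → Z v = Z w → (A v ↔ A w))
    (hB : ∀ v w, cY s v = cY s w → X v = X w → Z v = Z w → (B v ↔ B w)) {w : Om} (hw : P.p w ≠ 0) :
    vd P cX cY Z s (fun v => A v ∧ B v) w = vd P cX cY Z s A w * vd P cX cY Z s B w := by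
  have hfA : Fac (fun w => (cX s w, (Y w, Z w))) (fun w => ind (A w)) := by
    refine Fac.ind fun v w h => ?_
    have h1 := (Prod.mk.injEq _ _ _ _ ▸ h : cX s v = cX s w ∧ (Y v, Z v) = (Y w, Z w))
    have h2 := (Prod.mk.injEq _ _ _ _ ▸ h1.2 : Y v = Y w ∧ Z v = Z w)
    exact hA v w h1.1 h2.1 h2.2
  have hfB : Fac (fun v => (cY s v, (X v, Z v))) (fun w => ind (B w)) := by
    refine Fac.ind fun v w h => ?_
    have h1 := (Prod.mk.injEq _ _ _ _ ▸ h : cY s v = cY s w ∧ (X v, Z v) = (X w, Z w))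
    have h2 := (Prod.mk.injEq _ _ _ _ ▸ h1.2 : X v = X w ∧ Z v = Z w)
    exact hB v w h1.1 h2.1 h2.2
  have hXY : Fac (fun v => (cY s v, (X v, Z v))) (fun v => (cX s v, (cY s v, Z v))) := fun v w h => by
    have h1 := (Prod.mk.injEq _ _ _ _ ▸ h : cY s v = cY s w ∧ (X v, Z v) = (X w, Z w))
    have h2 := (Prod.mk.injEq _ _ _ _ ▸ h1.2 : X v = X w ∧ Z v = Z w)
    show (cX s v, (cY s v, Z v)) = (cX s w, (cY s w, Z w))
    rw [hT.fX s v w h2.1, h1.1, h2.2]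
  unfold vd
  have e1 : (fun v => ind (A v ∧ B v)) = fun v => ind (B v) * ind (A v) := by
    funext v
    rw [ind_and, mul_comm]
  rw [e1, ← P.ce_tower hXY]
  have e2 : ∀ v, P.p v ≠ 0 → P.ce (fun v => (cY s v, (X v, Z v))) (fun v => ind (B v) * ind (A v)) v =
      P.ce (fun v => (cX s v, (cY s v, Z v))) (fun v => ind (A v)) v * ind (B v) := by
    intro v hv
    rw [P.ce_mul hfB, forget hT hfA hv, mul_comm]
  rw [P.ce_congr e2, P.ce_mul (P.ce_fac _ _)]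

/-- the face `D3` is not covered, two strong faces -/
theorem top (hT : T3 P X Y Z cX cY cZ) (hσ : St3 cX cY cZ σ) (hTσ : ∀ w, σ w < T)
    (hu : 0 ≤ u) {S1 S2 : ℕ → Om → Prop}
    (hS1 : ∀ s v w, cX s v = cX s w → Y v = Y w → Z v = Z w → (S1 s v ↔ S1 s w))
    (hS2 : ∀ s v w, cY s v = cY s w → X v = X w → Z v = Z w → (S2 s v ↔ S2 s w)) :
    P.Pr (fun w => H w ∧ ¬ D3 (σ w + 1) w ∧ S1 (σ w) w ∧ S2 (σ w) w) ≤
      Real.sqrt u / 2 * (P.Pr (fun w => S1 (σ w) w) + P.Pr (fun w => S2 (σ w) w)) + P.Pr (bd P cX cY Z u T H D3) := by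
  set V : ℕ → Om → Prop := fun s w => H w ∧ ¬ D3 (s + 1) w with hV
  have hσf : ∀ s, Fac (fun v => (cX s v, (cY s v, Z v))) (fun w => ind (σ w = s)) := by
    intro s
    refine Fac.ind fun v w h => ?_
    have h1 := (Prod.mk.injEq _ _ _ _ ▸ h : cX s v = cX s w ∧ (cY s v, Z v) = (cY s w, Z w))
    have h2 := (Prod.mk.injEq _ _ _ _ ▸ h1.2 : cY s v = cY s w ∧ Z v = Z w)
    exact hσ.eq hT h1.1 h2.1 (hT.fZ s v w h2.2)
  have e0 : ∀ A : ℕ → Om → Prop, P.Pr (fun w => A (σ w) w) =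
      ∑ s ∈ range T, P.E (fun w => ind (σ w = s) * vd P cX cY Z s (A s) w) := by
    intro A
    unfold FP.Pr
    rw [E_stop hTσ (fun s w => ind (A s w))]
    refine Finset.sum_congr rfl fun s _ => ?_
    exact (P.E_mul_ce (hσf s) (fun w => ind (A s w))).symm
  have e1 : P.Pr (fun w => H w ∧ ¬ D3 (σ w + 1) w ∧ S1 (σ w) w ∧ S2 (σ w) w) =
      ∑ s ∈ range T, P.E (fun w => ind (σ w = s) * vd P cX cY Z s (fun v => V s v ∧ S1 s v ∧ S2 s v) w) := by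
    rw [← e0 (fun s v => V s v ∧ S1 s v ∧ S2 s v)]
    refine P.Pr_congr fun w _ => ?_
    rw [hV]
    simp only [and_assoc]
  rw [e1, e0 S1, e0 S2, ← Finset.sum_add_distrib, Finset.mul_sum]
  have h1 : ∀ s ∈ range T, P.E (fun w => ind (σ w = s) * vd P cX cY Z s (fun v => V s v ∧ S1 s v ∧ S2 s v) w) ≤
      Real.sqrt u / 2 * (P.E (fun w => ind (σ w = s) * vd P cX cY Z s (S1 s) w) +
        P.E (fun w => ind (σ w = s) * vd P cX cY Z s (S2 s) w)) +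
      P.Pr (fun w => σ w = s ∧ u < vd P cX cY Z s (V s) w) := by
    intro s _
    unfold FP.Pr
    rw [← FP.E_add, ← FP.E_smul, ← FP.E_add]
    refine P.E_mono fun w hw => ?_
    by_cases hs : σ w = s
    · rw [ind_of hs, one_mul, one_mul, one_mul]
      have ha : 0 ≤ vd P cX cY Z s (S1 s) w := P.ce_nonneg (fun _ _ => ind_nonneg _) w
      have hb : 0 ≤ vd P cX cY Z s (S2 s) w := P.ce_nonneg (fun _ _ => ind_nonneg _) w
      have hq : 0 ≤ Real.sqrt u := Real.sqrt_nonneg u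
      by_cases hv : u < vd P cX cY Z s (V s) w
      · rw [ind_of ⟨hs, hv⟩]
        have h2 : vd P cX cY Z s (fun v => V s v ∧ S1 s v ∧ S2 s v) w ≤ 1 :=
          P.ce_le_const (fun _ _ => ind_le_one _) hw
        have h3 : 0 ≤ Real.sqrt u / 2 * (vd P cX cY Z s (S1 s) w + vd P cX cY Z s (S2 s) w) := by positivity
        linarith
      · rw [ind_not (fun h => hv h.2), add_zero]
        set a := vd P cX cY Z s (S1 s) w with haa
        set b := vd P cX cY Z s (S2 s) w with hbb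
        set m := vd P cX cY Z s (fun v => V s v ∧ S1 s v ∧ S2 s v) w with hm
        have hm0 : 0 ≤ m := P.ce_nonneg (fun _ _ => ind_nonneg _) w
        have h2 : m ≤ u := le_trans (P.ce_mono (fun v _ => ind_mono fun h => h.1) w) (not_lt.1 hv)
        have h3 : m ≤ a * b := by
          rw [haa, hbb, ← ce_prod hT (hS1 s) (hS2 s) hw]
          exact P.ce_mono (fun v _ => ind_mono fun h => h.2) w
        have h4 : m * m ≤ u * (a * b) := mul_le_mul h2 h3 hm0 hu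
        have h5 : m ≤ Real.sqrt u * Real.sqrt (a * b) := by
          rw [← Real.sqrt_mul hu]
          exact Real.le_sqrt_of_sq_le (by rw [sq]; exact h4)
        have h6 : Real.sqrt (a * b) ≤ (a + b) / 2 := by
          refine Real.sqrt_le_iff.2 ⟨by linarith, ?_⟩
          nlinarith [sq_nonneg (a - b)]
        calc m ≤ Real.sqrt u * Real.sqrt (a * b) := h5
          _ ≤ Real.sqrt u * ((a + b) / 2) := mul_le_mul_of_nonneg_left h6 hq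
          _ = _ := by ring
    · rw [ind_not hs, zero_mul, zero_mul, zero_mul, add_zero, mul_zero, zero_add]
      exact ind_nonneg _
  refine (Finset.sum_le_sum h1).trans ?_
  rw [Finset.sum_add_distrib]
  have h2 : ∑ s ∈ range T, P.Pr (fun w => σ w = s ∧ u < vd P cX cY Z s (V s) w) ≤ P.Pr (bd P cX cY Z u T H D3) := by
    rw [Pr_sum (A := fun s w => σ w = s ∧ u < vd P cX cY Z s (V s) w) (fun w s s' h1 h2 => by rw [← h1.1, h2.1]) T]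
    exact P.Pr_mono fun w _ ⟨s, hsT, _, hv⟩ => ⟨s, hsT, hv⟩
  linarith

/-- **the simplex cover lemma for three vertices, two strong faces** -/
theorem simp3 (hT : T3 P X Y Z cX cY cZ) (hC : C3 X Y Z D1 D2 D3) (hσ : St3 cX cY cZ σ) (hTσ : ∀ w, σ w < T)
    (hr1 : rt P cY cZ X h) (hr2 : rt P cX cZ Y h) (hr3 : rt P cX cY Z h) (hu : 0 < u) (hh : 0 ≤ h)
    {S1 S2 : ℕ → Om → Prop}
    (hS1 : ∀ s v w, cX s v = cX s w → Y v = Y w → Z v = Z w → (S1 s v ↔ S1 s w))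
    (hS2 : ∀ s v w, cY s v = cY s w → X v = X w → Z v = Z w → (S2 s v ↔ S2 s w)) :
    P.Pr (fun w => H w ∧ S1 (σ w) w ∧ S2 (σ w) w) ≤
      3 / 2 * Real.sqrt u * (P.Pr (fun w => S1 (σ w) w) + P.Pr (fun w => S2 (σ w) w)) +
      (4 + 2 * h) * Real.sqrt u * (P.Pr (fun w => D1 (σ w + 1) w) + P.Pr (fun w => D2 (σ w + 1) w) +
        P.Pr (fun w => D3 (σ w + 1) w)) +
      2 * (P.Pr (fun w => D1 1 w) + P.Pr (fun w => D2 1 w) + P.Pr (fun w => D3 1 w)) +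
      3 * (P.Pr (bd P cY cZ X u T H D1) + P.Pr (bd P cX cZ Y u T H D2) + P.Pr (bd P cX cY Z u T H D3)) := by
  have hg : 0 < Real.sqrt u := Real.sqrt_pos.2 hu
  have hgg : u / Real.sqrt u = Real.sqrt u := Real.div_sqrt
  have hgh : h * u / Real.sqrt u = h * Real.sqrt u := by rw [mul_div_assoc, hgg]
  have hS1' : ∀ s v w, cX s v = cX s w → Z v = Z w → Y v = Y w → (S1 s v ↔ S1 s w) :=
    fun s v w a b c => hS1 s v w a c b
  have hS2' : ∀ s v w, cY s v = cY s w → Z v = Z w → X v = X w → (S2 s v ↔ S2 s w) :=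
    fun s v w a b c => hS2 s v w a c b
  -- the ordered cases
  have t1 := top (H := H) (D3 := D3) (u := u) hT hσ hTσ hu.le hS1 hS2
  have t2 := mid (H := H) (g := Real.sqrt u) (u := u) hT.rot.swap hC.rot.swap hσ.rot.swap hTσ hg hu.le hS2'
  have t3 := mid (H := H) (g := Real.sqrt u) (u := u) hT.rot.rot hC.rot.rot hσ.rot.rot hTσ hg hu.le hS1'
  have l1 := lastly (H := H) (g := Real.sqrt u) (u := u) hT hC hσ hTσ hr3 hg hu.le hh
  have l2 := lastly (H := H) (g := Real.sqrt u) (u := u) hT.swap hC.swap hσ.swap hTσ hr3.swap hg hu.le hh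
  have l3 := lastly (H := H) (g := Real.sqrt u) (u := u) hT.rot hC.rot hσ.rot hTσ hr1 hg hu.le hh
  have l4 := lastly (H := H) (g := Real.sqrt u) (u := u) hT.rot.swap hC.rot.swap hσ.rot.swap hTσ hr1.swap hg hu.le hh
  have l5 := lastly (H := H) (g := Real.sqrt u) (u := u) hT.rot.rot hC.rot.rot hσ.rot.rot hTσ hr2.swap hg hu.le hh
  have l6 := lastly (H := H) (g := Real.sqrt u) (u := u) hT.rot.rot.swap hC.rot.rot.swap hσ.rot.rot.swap hTσ hr2 hg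
    hu.le hh
  rw [hgg] at t2 t3
  rw [hgh] at l1 l2 l3 l4 l5 l6
  rw [bd_swap (cX := cX) (cY := cY) (Z := Z)] at l2
  rw [bd_swap (cX := cY) (cY := cZ) (Z := X)] at l4 t2
  rw [bd_swap (cX := cX) (cY := cZ) (Z := Y)] at l5 t3
  have key : ∀ w, (H w ∧ S1 (σ w) w ∧ S2 (σ w) w) →
      (H w ∧ ¬ D3 (σ w + 1) w ∧ S1 (σ w) w ∧ S2 (σ w) w) ∨
      (H w ∧ D3 (σ w + 1) w ∧ ¬ D1 (σ w + 1) w ∧ S2 (σ w) w) ∨
      (H w ∧ D3 (σ w + 1) w ∧ ¬ D2 (σ w + 1) w ∧ S1 (σ w) w) ∨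
      (H w ∧ ∃ s ≤ σ w, (D2 (s + 1) w ∧ ¬ D2 s w) ∧ D1 (s + 1) w ∧ ¬ D3 s w) ∨
      (H w ∧ ∃ s ≤ σ w, (D1 (s + 1) w ∧ ¬ D1 s w) ∧ D2 (s + 1) w ∧ ¬ D3 s w) ∨
      (H w ∧ ∃ s ≤ σ w, (D3 (s + 1) w ∧ ¬ D3 s w) ∧ D2 (s + 1) w ∧ ¬ D1 s w) ∨
      (H w ∧ ∃ s ≤ σ w, (D2 (s + 1) w ∧ ¬ D2 s w) ∧ D3 (s + 1) w ∧ ¬ D1 s w) ∨
      (H w ∧ ∃ s ≤ σ w, (D1 (s + 1) w ∧ ¬ D1 s w) ∧ D3 (s + 1) w ∧ ¬ D2 s w) ∨
      (H w ∧ ∃ s ≤ σ w, (D3 (s + 1) w ∧ ¬ D3 s w) ∧ D1 (s + 1) w ∧ ¬ D2 s w) := by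
    rintro w ⟨hH, h1, h2⟩
    by_cases c3 : D3 (σ w + 1) w
    swap
    · exact Or.inl ⟨hH, c3, h1, h2⟩
    by_cases c1 : D1 (σ w + 1) w
    swap
    · exact Or.inr (Or.inl ⟨hH, c3, c1, h2⟩)
    by_cases c2 : D2 (σ w + 1) w
    swap
    · exact Or.inr (Or.inr (Or.inl ⟨hH, c3, c2, h1⟩))
    obtain ⟨s1, hs1, n1⟩ := ex_new hC.z1 c1
    obtain ⟨s2, hs2, n2⟩ := ex_new hC.z2 c2
    obtain ⟨s3, hs3, n3⟩ := ex_new hC.z3 c3
    have a1 : ∀ s, s ≤ s1 → ¬ D1 s w := fun s hs hd => n1.2 (mono_of hC.m1 hs hd)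
    have a2 : ∀ s, s ≤ s2 → ¬ D2 s w := fun s hs hd => n2.2 (mono_of hC.m2 hs hd)
    have a3 : ∀ s, s ≤ s3 → ¬ D3 s w := fun s hs hd => n3.2 (mono_of hC.m3 hs hd)
    have b1 : ∀ s, s1 ≤ s → D1 (s + 1) w := fun s hs => mono_of hC.m1 (by omega) n1.1
    have b2 : ∀ s, s2 ≤ s → D2 (s + 1) w := fun s hs => mono_of hC.m2 (by omega) n2.1
    have b3 : ∀ s, s3 ≤ s → D3 (s + 1) w := fun s hs => mono_of hC.m3 (by omega) n3.1
    refine Or.inr (Or.inr (Or.inr ?_))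
    rcases le_total s1 s2 with h12 | h12
    · rcases le_total s2 s3 with h23 | h23
      · exact Or.inl ⟨hH, s2, hs2, n2, b1 s2 h12, a3 s2 h23⟩
      · rcases le_total s1 s3 with h13 | h13
        · exact Or.inr (Or.inr (Or.inr (Or.inr (Or.inr ⟨hH, s3, hs3, n3, b1 s3 h13, a2 s3 h23⟩))))
        · exact Or.inr (Or.inr (Or.inr (Or.inr (Or.inl ⟨hH, s1, hs1, n1, b3 s1 h13, a2 s1 h12⟩))))
    · rcases le_total s1 s3 with h13 | h13
      · exact Or.inr (Or.inl ⟨hH, s1, hs1, n1, b2 s1 h12, a3 s1 h13⟩)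
      · rcases le_total s2 s3 with h23 | h23
        · exact Or.inr (Or.inr (Or.inl ⟨hH, s3, hs3, n3, b2 s3 h23, a1 s3 h13⟩))
        · exact Or.inr (Or.inr (Or.inr (Or.inl ⟨hH, s2, hs2, n2, b3 s2 h23, a1 s2 h12⟩)))
  have h0 := P.Pr_mono (s := fun w => H w ∧ S1 (σ w) w ∧ S2 (σ w) w) (fun w _ hw => key w hw)
  have u1 := P.Pr_or_le (fun w => H w ∧ ¬ D3 (σ w + 1) w ∧ S1 (σ w) w ∧ S2 (σ w) w) (fun w =>
      (H w ∧ D3 (σ w + 1) w ∧ ¬ D1 (σ w + 1) w ∧ S2 (σ w) w) ∨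
      (H w ∧ D3 (σ w + 1) w ∧ ¬ D2 (σ w + 1) w ∧ S1 (σ w) w) ∨
      (H w ∧ ∃ s ≤ σ w, (D2 (s + 1) w ∧ ¬ D2 s w) ∧ D1 (s + 1) w ∧ ¬ D3 s w) ∨
      (H w ∧ ∃ s ≤ σ w, (D1 (s + 1) w ∧ ¬ D1 s w) ∧ D2 (s + 1) w ∧ ¬ D3 s w) ∨
      (H w ∧ ∃ s ≤ σ w, (D3 (s + 1) w ∧ ¬ D3 s w) ∧ D2 (s + 1) w ∧ ¬ D1 s w) ∨
      (H w ∧ ∃ s ≤ σ w, (D2 (s + 1) w ∧ ¬ D2 s w) ∧ D3 (s + 1) w ∧ ¬ D1 s w) ∨
      (H w ∧ ∃ s ≤ σ w, (D1 (s + 1) w ∧ ¬ D1 s w) ∧ D3 (s + 1) w ∧ ¬ D2 s w) ∨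
      (H w ∧ ∃ s ≤ σ w, (D3 (s + 1) w ∧ ¬ D3 s w) ∧ D1 (s + 1) w ∧ ¬ D2 s w))
  have u2 := P.Pr_or_le (fun w => H w ∧ D3 (σ w + 1) w ∧ ¬ D1 (σ w + 1) w ∧ S2 (σ w) w) (fun w =>
      (H w ∧ D3 (σ w + 1) w ∧ ¬ D2 (σ w + 1) w ∧ S1 (σ w) w) ∨
      (H w ∧ ∃ s ≤ σ w, (D2 (s + 1) w ∧ ¬ D2 s w) ∧ D1 (s + 1) w ∧ ¬ D3 s w) ∨
      (H w ∧ ∃ s ≤ σ w, (D1 (s + 1) w ∧ ¬ D1 s w) ∧ D2 (s + 1) w ∧ ¬ D3 s w) ∨
      (H w ∧ ∃ s ≤ σ w, (D3 (s + 1) w ∧ ¬ D3 s w) ∧ D2 (s + 1) w ∧ ¬ D1 s w) ∨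
      (H w ∧ ∃ s ≤ σ w, (D2 (s + 1) w ∧ ¬ D2 s w) ∧ D3 (s + 1) w ∧ ¬ D1 s w) ∨
      (H w ∧ ∃ s ≤ σ w, (D1 (s + 1) w ∧ ¬ D1 s w) ∧ D3 (s + 1) w ∧ ¬ D2 s w) ∨
      (H w ∧ ∃ s ≤ σ w, (D3 (s + 1) w ∧ ¬ D3 s w) ∧ D1 (s + 1) w ∧ ¬ D2 s w))
  have u3 := P.Pr_or_le (fun w => H w ∧ D3 (σ w + 1) w ∧ ¬ D2 (σ w + 1) w ∧ S1 (σ w) w) (fun w =>
      (H w ∧ ∃ s ≤ σ w, (D2 (s + 1) w ∧ ¬ D2 s w) ∧ D1 (s + 1) w ∧ ¬ D3 s w) ∨
      (H w ∧ ∃ s ≤ σ w, (D1 (s + 1) w ∧ ¬ D1 s w) ∧ D2 (s + 1) w ∧ ¬ D3 s w) ∨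
      (H w ∧ ∃ s ≤ σ w, (D3 (s + 1) w ∧ ¬ D3 s w) ∧ D2 (s + 1) w ∧ ¬ D1 s w) ∨
      (H w ∧ ∃ s ≤ σ w, (D2 (s + 1) w ∧ ¬ D2 s w) ∧ D3 (s + 1) w ∧ ¬ D1 s w) ∨
      (H w ∧ ∃ s ≤ σ w, (D1 (s + 1) w ∧ ¬ D1 s w) ∧ D3 (s + 1) w ∧ ¬ D2 s w) ∨
      (H w ∧ ∃ s ≤ σ w, (D3 (s + 1) w ∧ ¬ D3 s w) ∧ D1 (s + 1) w ∧ ¬ D2 s w))
  have u4 := P.Pr_or_le (fun w => H w ∧ ∃ s ≤ σ w, (D2 (s + 1) w ∧ ¬ D2 s w) ∧ D1 (s + 1) w ∧ ¬ D3 s w) (fun w =>
      (H w ∧ ∃ s ≤ σ w, (D1 (s + 1) w ∧ ¬ D1 s w) ∧ D2 (s + 1) w ∧ ¬ D3 s w) ∨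
      (H w ∧ ∃ s ≤ σ w, (D3 (s + 1) w ∧ ¬ D3 s w) ∧ D2 (s + 1) w ∧ ¬ D1 s w) ∨
      (H w ∧ ∃ s ≤ σ w, (D2 (s + 1) w ∧ ¬ D2 s w) ∧ D3 (s + 1) w ∧ ¬ D1 s w) ∨
      (H w ∧ ∃ s ≤ σ w, (D1 (s + 1) w ∧ ¬ D1 s w) ∧ D3 (s + 1) w ∧ ¬ D2 s w) ∨
      (H w ∧ ∃ s ≤ σ w, (D3 (s + 1) w ∧ ¬ D3 s w) ∧ D1 (s + 1) w ∧ ¬ D2 s w))
  have u5 := P.Pr_or_le (fun w => H w ∧ ∃ s ≤ σ w, (D1 (s + 1) w ∧ ¬ D1 s w) ∧ D2 (s + 1) w ∧ ¬ D3 s w) (fun w =>
      (H w ∧ ∃ s ≤ σ w, (D3 (s + 1) w ∧ ¬ D3 s w) ∧ D2 (s + 1) w ∧ ¬ D1 s w) ∨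
      (H w ∧ ∃ s ≤ σ w, (D2 (s + 1) w ∧ ¬ D2 s w) ∧ D3 (s + 1) w ∧ ¬ D1 s w) ∨
      (H w ∧ ∃ s ≤ σ w, (D1 (s + 1) w ∧ ¬ D1 s w) ∧ D3 (s + 1) w ∧ ¬ D2 s w) ∨
      (H w ∧ ∃ s ≤ σ w, (D3 (s + 1) w ∧ ¬ D3 s w) ∧ D1 (s + 1) w ∧ ¬ D2 s w))
  have u6 := P.Pr_or_le (fun w => H w ∧ ∃ s ≤ σ w, (D3 (s + 1) w ∧ ¬ D3 s w) ∧ D2 (s + 1) w ∧ ¬ D1 s w) (fun w =>
      (H w ∧ ∃ s ≤ σ w, (D2 (s + 1) w ∧ ¬ D2 s w) ∧ D3 (s + 1) w ∧ ¬ D1 s w) ∨
      (H w ∧ ∃ s ≤ σ w, (D1 (s + 1) w ∧ ¬ D1 s w) ∧ D3 (s + 1) w ∧ ¬ D2 s w) ∨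
      (H w ∧ ∃ s ≤ σ w, (D3 (s + 1) w ∧ ¬ D3 s w) ∧ D1 (s + 1) w ∧ ¬ D2 s w))
  have u7 := P.Pr_or_le (fun w => H w ∧ ∃ s ≤ σ w, (D2 (s + 1) w ∧ ¬ D2 s w) ∧ D3 (s + 1) w ∧ ¬ D1 s w) (fun w =>
      (H w ∧ ∃ s ≤ σ w, (D1 (s + 1) w ∧ ¬ D1 s w) ∧ D3 (s + 1) w ∧ ¬ D2 s w) ∨
      (H w ∧ ∃ s ≤ σ w, (D3 (s + 1) w ∧ ¬ D3 s w) ∧ D1 (s + 1) w ∧ ¬ D2 s w))
  have u8 := P.Pr_or_le (fun w => H w ∧ ∃ s ≤ σ w, (D1 (s + 1) w ∧ ¬ D1 s w) ∧ D3 (s + 1) w ∧ ¬ D2 s w) (fun w =>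
      (H w ∧ ∃ s ≤ σ w, (D3 (s + 1) w ∧ ¬ D3 s w) ∧ D1 (s + 1) w ∧ ¬ D2 s w))
  have p1 : 0 ≤ P.Pr (fun w => D1 (σ w + 1) w) := P.Pr_nonneg _
  have p2 : 0 ≤ P.Pr (fun w => D2 (σ w + 1) w) := P.Pr_nonneg _
  have p3 : 0 ≤ P.Pr (fun w => D3 (σ w + 1) w) := P.Pr_nonneg _
  have q1 : 0 ≤ Real.sqrt u * P.Pr (fun w => D1 (σ w + 1) w) := mul_nonneg hg.le p1
  have q2 : 0 ≤ Real.sqrt u * P.Pr (fun w => D2 (σ w + 1) w) := mul_nonneg hg.le p2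
  nlinarith [h0, u1, u2, u3, u4, u5, u6, u7, u8, t1, t2, t3, l1, l2, l3, l4, l5, l6]

end

end Pool.Agent.GMH.Simp3
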