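import Pool.Agent.GMH.RarB
import Pool.Agent.GMH.KinF

/-!
# GMH/SngA (helper80): masses of static relations inside an event of one exact vertex, linear form (kind `S`, part A)

Frame `Bk` of `BitKL`: exact vertex `b`, `V` an event of (hidden point, exact point of `b`) in the class.
* `face_pub` : the far top alone: `N klc (Q, QB; F_cd | ..) ≤ 2 N 0 (Lb V + 1)`;
* `rel_far` : relation of the row (point, truncated letter of `d`, near top `w.2.2 c`) and the foreign letter of `c`: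
  `P (A | V) ≤ 2 klet + 2 E (mass of the foreign letters)`; `rel_far'` the same with one bound `e1` of the masses;
* `Ix` : event known at a set `I` of exact points, `QX`, `LX`; `Ix.one` : one letter; `Ix.two` : two letters; `Ix.top` : the
  far top; `Ix.pr_pt` : the surprise does not depend on other exact points;
* **`rel_pair`** : relation of the letters of `c`, `d` (typical `d`) and of the far top, `I ⊆ {b}`:
  `P (A | V) ≤ 1025 EP + 1024 P (A | V')`, `EP` = sum of the prices; **`rel_W`** (exact vertex, against `QC`), **`rel_pub`**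
  (public events, `I = ∅`, against the public class).
-/

set_option autoImplicit false
set_option linter.unusedSectionVars false

namespace Pool.Agent.GMH.SngA

open Finset Pool.Agent.PWZ Pool.Agent.M3 Pool.Agent.GM Pool.Agent.GM.Harm Pool.Agent.GMH Pool.Agent.GMH.RarX

section cls

variable {K X β γ φ υ : Type} [Fintype K] [DecidableEq K] [Fintype X] [Fintype β] [Fintype φ] [Nonempty X] [Nonempty β]
  {D : HD K X β γ φ} {al : ℝ} {h : D.Thick al} {N : Finset K → ℝ} {S : Finset (Finset K)}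
  {U : Finset K → X → (K → β) → υ} {t : ℕ} {b c d : K} {w0 : Pt K X β φ} {V : Pt K X β φ → Prop}
  {Typ : β → υ → Prop} {M L : ℝ}

/-- **the far top alone** -/
theorem face_pub (B : Bk h N S U t b c d) (I : Ib h U t b w0 V) :
    N (univ.erase b) * ((D.P h t).cond V).klc (QB h U t b w0) (fun w => w.2.2 b) (fun w => (zf U c w, zf U d w)) ≤
      2 * N ∅ * (Lb h U t b w0 V + 1) := by
  classical
  set J : Finset K := univ.erase b with hJ
  have hcJ : c ∈ J := Finset.mem_erase.2 ⟨B.bc.symm, mem_univ c⟩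
  have h1 := ex_pub (h := h) B.dep B.sat B.nn B.era B.s0 (I := {b}) (J0 := J) (B.s2 b) ⟨c, hcJ⟩ (by
    rw [Finset.disjoint_singleton_right]
    exact fun hh => (Finset.mem_erase.1 hh).1 rfl) (w0 := w0) I.supp I.ev I.neB
  have hPQ : ((D.P h t).cond (xc D U t {b} w0)).cond V = (D.P h t).cond V := I.condB
  rw [hPQ] at h1
  change N J * (((D.P h t).cond V).klc (QB h U t b w0) (LL U J) (fun w => (lo (LL U) J w, BB D t J w))) ≤
    2 * N ∅ * (Lb h U t b w0 V + 1) at h1
  have hac : ((D.P h t).cond V).Ac (QB h U t b w0) := I.acB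
  have hfib : ∀ v w, (QB h U t b w0).p v ≠ 0 → (QB h U t b w0).p w ≠ 0 →
      ((zf U c v, zf U d v) = (zf U c w, zf U d w) ↔ (lo (LL U) J v, BB D t J v) = (lo (LL U) J w, BB D t J w)) := by
    intro v w hv hw
    have hx := xc_pub (QB_supp I.supp hv) (QB_supp I.supp hw)
    rw [fib2 (U := U) (p := c) (q := d) (r := b) B.cd B.bc.symm B.bd.symm (fun j => by
      rcases B.all j with h1 | h1 | h1
      · exact Or.inr (Or.inr h1)
      · exact Or.inl h1
      · exact Or.inr (Or.inl h1)) hx.1 hx.2, Prod.mk.injEq]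
  have e1 : ((D.P h t).cond V).klc (QB h U t b w0) (fun w => w.2.2 b) (fun w => (zf U c w, zf U d w)) ≤
      ((D.P h t).cond V).klc (QB h U t b w0) (LL U J) (fun w => (lo (LL U) J w, BB D t J w)) := by
    rw [klc_congr_supp hac (L := fun w => w.2.2 b) (L' := fun w => w.2.2 b) (Z := fun w => (zf U c w, zf U d w))
      (Z' := fun w => (lo (LL U) J w, BB D t J w)) hfib (fun _ _ _ _ _ => Iff.rfl)]
    refine klc_mono hac fun v w hvw => ?_
    have h4 : LL U J v = LL U J w := congrArg Prod.fst hvw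
    exact (LL_eq.1 h4).2 b rfl
  exact (mul_le_mul_of_nonneg_left e1 (B.nn J (B.s2 b))).trans h1

theorem klet_nn (hM0 : 0 ≤ M) (B : Bk h N S U t b c d) (hL : 0 ≤ L) : 0 ≤ klet N al M c L := by
  have h0 := log_nn hM0 h b
  have hN0 := B.nn ∅ B.s0
  unfold klet
  exact div_nonneg (add_nonneg (mul_nonneg (mul_nonneg zero_le_two hN0) (by linarith))
    (mul_nonneg zero_le_two (mul_nonneg hN0 h0))) (B.n1 c).le

theorem Lb_nn (I : Ib h U t b w0 V) : 0 ≤ Lb h U t b w0 V := by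
  have h0 : 0 < (QB h U t b w0).Pr V := lt_of_le_of_ne ((QB h U t b w0).Pr_nonneg _) I.neB.symm
  unfold Lb
  refine Real.log_nonneg ?_
  rw [le_div_iff₀ h0, one_mul]
  exact (QB h U t b w0).Pr_le_one _

theorem kl_let (B : Bk h N S U t b c d) (I : Ib h U t b w0 V) (hM0 : 0 ≤ M) (hL : Lb h U t b w0 V ≤ L) :
    ((D.P h t).cond V).klc (QB h U t b w0) (zf U c) (fun _ => ()) ≤ klet N al M c L := by
  have hN0 := B.nn ∅ B.s0
  have hNc := B.n1 c
  have h0 := log_nn hM0 h b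
  unfold klet
  rw [klc_one I.acB, le_div_iff₀ hNc, mul_comm]
  have h1 := let_one B I
  have h3 : 2 * N ∅ * (Lb h U t b w0 V + 1) ≤ 2 * N ∅ * (L + 1) := mul_le_mul_of_nonneg_left (by linarith) (by linarith)
  have h4 := mul_nonneg hN0 h0
  linarith

theorem I_row (B : Bk h N S U t b c d) (I : Ib h U t b w0 V)
    (hM : ∀ c', ∃ s : Finset υ, (s.card : ℝ) ≤ M ∧ ∀ u, Typ c' u → u ∈ s) (hL : Lb h U t b w0 V ≤ L) :
    ((D.P h t).cond V).I (zf U c) (fun w => (w.2.1 d, yd U Typ c d w)) (fun _ => ()) ≤ klet N al M c L := by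
  have hN0 := B.nn ∅ B.s0
  have hNc := B.n1 c
  unfold klet
  rw [le_div_iff₀ hNc, mul_comm]
  have h2 := let_two B I (Typ := Typ) hM
  have h3 : 2 * N ∅ * (Lb h U t b w0 V + 1) ≤ 2 * N ∅ * (L + 1) := mul_le_mul_of_nonneg_left (by linarith) (by linarith)
  linarith

/-- **A RELATION OF THE ROW OF THE NEAR TOP AND THE FOREIGN LETTER** -/
theorem rel_far (B : Bk h N S U t b c d) (I : Ib h U t b w0 V) (hM0 : 0 ≤ M)
    (hM : ∀ c', ∃ s : Finset υ, (s.card : ℝ) ≤ M ∧ ∀ u, Typ c' u → u ∈ s) (hL : Lb h U t b w0 V ≤ L)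
    (G : β × (Option υ × φ) → β × υ → Prop) :
    ((D.P h t).cond V).Pr (fun w => G (w.2.1 d, yd U Typ c d w) (zf U c w)) ≤ 2 * klet N al M c L +
      2 * ((D.P h t).cond V).E (fun w => (QB h U t b w0).Pr fun v => G (w.2.1 d, yd U Typ c d w) (zf U c v)) := by
  have h1 := fwd (Q := (D.P h t).cond V) (R := QB h U t b w0) I.acB (zf U c) (fun _ => ())
    (fun w => (w.2.1 d, yd U Typ c d w)) (psi := fun r v => ind (G r (zf U c v))) (fun r v w hvw => by
      have e : zf U c v = zf U c w := congrArg Prod.fst hvw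
      show ind (G r (zf U c v)) = ind (G r (zf U c w))
      rw [e]) (fun _ _ => ind_nonneg _) (fun _ _ => ind_le_one _)
  have e1 : ((D.P h t).cond V).E (fun w => (QB h U t b w0).ce (fun _ => ())
      (fun v => ind (G (w.2.1 d, yd U Typ c d w) (zf U c v))) w) =
      ((D.P h t).cond V).E (fun w => (QB h U t b w0).Pr fun v => G (w.2.1 d, yd U Typ c d w) (zf U c v)) :=
    FP.E_congr _ fun w _ => ce_unit _ _
  rw [e1] at h1
  have h2 := kl_let B I hM0 hL
  have h3 := I_row B I hM hL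
  refine h1.trans ?_
  linarith

/-- the same with one bound of the masses, for any event -/
theorem rel_far' (B : Bk h N S U t b c d) (I : Ib h U t b w0 V) (hM0 : 0 ≤ M)
    (hM : ∀ c', ∃ s : Finset υ, (s.card : ℝ) ≤ M ∧ ∀ u, Typ c' u → u ∈ s) (hL : Lb h U t b w0 V ≤ L)
    {G : β × (Option υ × φ) → β × υ → Prop} {A : Pt K X β φ → Prop}
    (hA : ∀ w, (D.P h t).p w ≠ 0 → V w → A w → G (w.2.1 d, yd U Typ c d w) (zf U c w)) {e1 : ℝ} (he0 : 0 ≤ e1)
    (he : ∀ w, (D.P h t).p w ≠ 0 → V w → (∃ v, G (w.2.1 d, yd U Typ c d w) v) →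
      (QB h U t b w0).Pr (fun v => G (w.2.1 d, yd U Typ c d w) (zf U c v)) ≤ e1) :
    ((D.P h t).cond V).Pr A ≤ 2 * klet N al M c L + 2 * e1 := by
  have h1 := rel_far (Typ := Typ) B I hM0 hM hL G
  have h2 : ((D.P h t).cond V).Pr A ≤ ((D.P h t).cond V).Pr (fun w => G (w.2.1 d, yd U Typ c d w) (zf U c w)) := by
    refine FP.Pr_mono _ fun w hw hAw => ?_
    obtain ⟨hVw, hpw⟩ := cond_supp I.ne hw
    exact hA w hpw hVw hAw
  have h3 : ((D.P h t).cond V).E (fun w => (QB h U t b w0).Pr fun v => G (w.2.1 d, yd U Typ c d w) (zf U c v)) ≤ e1 := by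
    refine FP.E_le_const _ fun w hw => ?_
    obtain ⟨hVw, hpw⟩ := cond_supp I.ne hw
    by_cases hex : ∃ v, G (w.2.1 d, yd U Typ c d w) v
    · exact he w hpw hVw hex
    · have e0 : (QB h U t b w0).Pr (fun v => G (w.2.1 d, yd U Typ c d w) (zf U c v)) = 0 := by
        unfold FP.Pr
        rw [FP.E_congr _ (g := fun _ => 0) fun v _ => ind_not (fun hh => hex ⟨_, hh⟩), FP.E_const]
      rw [e0]
      exact he0
  linarith

/-- price of the far top alone -/
noncomputable def kW (N : Finset K → ℝ) (b : K) (L : ℝ) : ℝ := 2 * N ∅ * (L + 1) / N (univ.erase b)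

theorem klc_W (B : Bk h N S U t b c d) (I : Ib h U t b w0 V) (hL : Lb h U t b w0 V ≤ L) :
    ((D.P h t).cond V).klc (QB h U t b w0) (fun w => w.2.2 b) (fun w => (zf U c w, zf U d w)) ≤ kW N b L := by
  have hN0 := B.nn ∅ B.s0
  unfold kW
  rw [le_div_iff₀ (B.n2 b), mul_comm]
  refine (face_pub B I).trans (mul_le_mul_of_nonneg_left (by linarith) (by linarith))

/-! ### events known at a set `I` of exact points -/

/-- an event known at the exact points `I`, inside the class of `w0` -/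
structure Ix (h : D.Thick al) (U : Finset K → X → (K → β) → υ) (t : ℕ) (I : Finset K) (w0 : Pt K X β φ)
    (V : Pt K X β φ → Prop) : Prop where
  ev : EvI D t I V
  self : V w0
  supp : (D.P h t).p w0 ≠ 0
  sub : ∀ v, V v → xc D U t I w0 v

/-- the law given the public class and the exact points `I` -/
noncomputable def QX (h : D.Thick al) (U : Finset K → X → (K → β) → υ) (t : ℕ) (I : Finset K) (w0 : Pt K X β φ) :
    FP (Pt K X β φ) := (D.P h t).cond (xc D U t I w0)

/-- surprise of the event -/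
noncomputable def LX (h : D.Thick al) (U : Finset K → X → (K → β) → υ) (t : ℕ) (I : Finset K) (w0 : Pt K X β φ)
    (V : Pt K X β φ → Prop) : ℝ := Real.log (1 / (QX h U t I w0).Pr V)

theorem Ib_ix (I : Ib h U t b w0 V) : Ix h U t {b} w0 V := ⟨I.ev, I.self, I.supp, fun _ hv => I.inx hv⟩

variable {I : Finset K}

theorem Ix.ne (J : Ix h U t I w0 V) : (D.P h t).Pr V ≠ 0 := (FP.Pr_pos_of (S := V) J.supp J.self).ne'

theorem Ix.condX (J : Ix h U t I w0 V) : (QX h U t I w0).cond V = (D.P h t).cond V := by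
  unfold QX
  have e : (fun v => xc D U t I w0 v ∧ V v) = V := by
    funext v
    exact propext ⟨fun hh => hh.2, fun hh => ⟨J.sub v hh, hh⟩⟩
  rw [FP.cond_cond (by rw [e]; exact J.ne), e]

theorem Ix.neX (J : Ix h U t I w0 V) : (QX h U t I w0).Pr V ≠ 0 := by
  have h1 : (QX h U t I w0).p w0 ≠ 0 := (FP.cond_p_ne (xc_ne J.supp)).2 ⟨xc_self U t I w0, J.supp⟩
  exact (FP.Pr_pos_of (S := V) h1 J.self).ne'

theorem Ix.acX (J : Ix h U t I w0 V) : ((D.P h t).cond V).Ac (QX h U t I w0) := by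
  rw [← J.condX]
  exact FP.cond_ac _ _

theorem QX_supp {v : Pt K X β φ} (hw0 : (D.P h t).p w0 ≠ 0) (hv : (QX h U t I w0).p v ≠ 0) : xc D U t I w0 v :=
  (cond_supp (xc_ne hw0) hv).1

theorem Ix.LX_nn (J : Ix h U t I w0 V) : 0 ≤ LX h U t I w0 V := by
  have h0 : 0 < (QX h U t I w0).Pr V := lt_of_le_of_ne ((QX h U t I w0).Pr_nonneg _) J.neX.symm
  unfold LX
  refine Real.log_nonneg ?_
  rw [le_div_iff₀ h0, one_mul]
  exact (QX h U t I w0).Pr_le_one _

/-- **one letter** -/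
theorem Ix.one (B : Bk h N S U t b c d) (J : Ix h U t I w0 V) {j : K} (hj : j ∉ I) :
    N {j} * ((D.P h t).cond V).kl (QX h U t I w0) (zf U j) ≤ 2 * N ∅ * (LX h U t I w0 V + 1) := by
  have h1 := ex_vert (h := h) B.dep B.sat B.nn B.era B.s0 (I := I) (j := j) (B.s1 j) hj (w0 := w0) J.supp J.ev J.neX
  have hPQ : ((D.P h t).cond (xc D U t I w0)).cond V = (D.P h t).cond V := J.condX
  rw [hPQ] at h1
  refine le_trans (mul_le_mul_of_nonneg_left ?_ (B.n1 j).le) h1
  refine FP.kl_mono J.acX fun v w hvw => ?_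
  simp only [Prod.mk.injEq, BB_eq, LL_eq] at hvw
  show (v.2.1 j, U {j} v.1 v.2.1) = (w.2.1 j, U {j} w.1 w.2.1)
  rw [hvw.2.2.1 j (Finset.mem_singleton_self j), hvw.1.1]

/-- **the far top** -/
theorem Ix.top (B : Bk h N S U t b c d) (J : Ix h U t I w0 V) (hI : I ⊆ {b}) :
    N (univ.erase b) * ((D.P h t).cond V).klc (QX h U t I w0) (fun w => w.2.2 b) (fun w => (zf U c w, zf U d w)) ≤
      2 * N ∅ * (LX h U t I w0 V + 1) := by
  classical
  set F : Finset K := univ.erase b with hF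
  have hcF : c ∈ F := Finset.mem_erase.2 ⟨B.bc.symm, mem_univ c⟩
  have h1 := ex_pub (h := h) B.dep B.sat B.nn B.era B.s0 (I := I) (J0 := F) (B.s2 b) ⟨c, hcF⟩ (by
    refine Finset.disjoint_left.2 fun j hj hjI => ?_
    exact (Finset.mem_erase.1 hj).1 (Finset.mem_singleton.1 (hI hjI))) (w0 := w0) J.supp J.ev J.neX
  have hPQ : ((D.P h t).cond (xc D U t I w0)).cond V = (D.P h t).cond V := J.condX
  rw [hPQ] at h1
  change N F * (((D.P h t).cond V).klc (QX h U t I w0) (LL U F) (fun w => (lo (LL U) F w, BB D t F w))) ≤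
    2 * N ∅ * (LX h U t I w0 V + 1) at h1
  have hac : ((D.P h t).cond V).Ac (QX h U t I w0) := J.acX
  have hfib : ∀ v w, (QX h U t I w0).p v ≠ 0 → (QX h U t I w0).p w ≠ 0 →
      ((zf U c v, zf U d v) = (zf U c w, zf U d w) ↔ (lo (LL U) F v, BB D t F v) = (lo (LL U) F w, BB D t F w)) := by
    intro v w hv hw
    have hx := xc_pub (QX_supp J.supp hv) (QX_supp J.supp hw)
    rw [fib2 (U := U) (p := c) (q := d) (r := b) B.cd B.bc.symm B.bd.symm (fun j => by
      rcases B.all j with h1 | h1 | h1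
      · exact Or.inr (Or.inr h1)
      · exact Or.inl h1
      · exact Or.inr (Or.inl h1)) hx.1 hx.2, Prod.mk.injEq]
  have e1 : ((D.P h t).cond V).klc (QX h U t I w0) (fun w => w.2.2 b) (fun w => (zf U c w, zf U d w)) ≤
      ((D.P h t).cond V).klc (QX h U t I w0) (LL U F) (fun w => (lo (LL U) F w, BB D t F w)) := by
    rw [klc_congr_supp hac (L := fun w => w.2.2 b) (L' := fun w => w.2.2 b) (Z := fun w => (zf U c w, zf U d w))
      (Z' := fun w => (lo (LL U) F w, BB D t F w)) hfib (fun _ _ _ _ _ => Iff.rfl)]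
    refine klc_mono hac fun v w hvw => ?_
    have h4 : LL U F v = LL U F w := congrArg Prod.fst hvw
    exact (LL_eq.1 h4).2 b rfl
  exact (mul_le_mul_of_nonneg_left e1 (B.nn F (B.s2 b))).trans h1

/-- small sets of exact points: the event is a function of the positions -/
theorem Ix.fac (J : Ix h U t I w0 V) (hI : ∀ l : K, ¬ univ.erase l ⊆ I) : Fac (fun w => (w.1, BB D t I w)) V := by
  intro v w hvw
  refine J.ev v w ?_
  simp only [Prod.mk.injEq] at hvw ⊢
  refine ⟨hvw.1, hvw.2, ?_⟩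
  funext l
  unfold tl
  rw [if_neg (fun hh => hI l hh.1), if_neg (fun hh => hI l hh.1)]

/-- other points of the event -/
theorem Ix.mv (J : Ix h U t I w0 V) {w1 : Pt K X β φ} (hV : V w1) (hp : (D.P h t).p w1 ≠ 0) : Ix h U t I w1 V where
  ev := J.ev
  self := hV
  supp := hp
  sub := fun v hv => by
    have h1 := J.sub v hv
    have h2 := J.sub w1 hV
    exact ⟨h1.1.trans h2.1.symm, h1.2.trans h2.2.symm⟩

theorem QX_mv {w1 : Pt K X β φ} (h1 : xc D U t I w0 w1) : QX h U t I w1 = QX h U t I w0 := by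
  unfold QX
  congr 1
  funext v
  show (le (LL U) ∅ v = le (LL U) ∅ w1 ∧ BB D t I v = BB D t I w1) =
    (le (LL U) ∅ v = le (LL U) ∅ w0 ∧ BB D t I v = BB D t I w0)
  rw [h1.1, h1.2]

/-- the event in the class, as an event of the hidden point -/
theorem Ix.hid (J : Ix h U t I w0 V) (hI : ∀ l : K, ¬ univ.erase l ⊆ I) {v : Pt K X β φ} (hv : xc D U t I w0 v) :
    V v = V (v.1, w0.2) := by
  refine J.fac hI v (v.1, w0.2) ?_
  have h1 := hv.2
  rw [BB_eq] at h1
  simp only [Prod.mk.injEq, BB_eq]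
  exact ⟨trivial, h1.1, trivial, h1.2.2⟩

/-- the surprise does not depend on other exact points -/
theorem Ix.pr_pt (B : Bk h N S U t b c d) (J : Ix h U t I w0 V) (hI : ∀ l : K, ¬ univ.erase l ⊆ I) (e : K) :
    ((D.P h t).cond (xc D U t (insert e I) w0)).Pr V = (QX h U t I w0).Pr V := by
  classical
  by_cases heI : e ∈ I
  · rw [Finset.insert_eq_of_mem heI]
    rfl
  set A : Pt K X β φ → Prop := fun v => v.2.1 e = w0.2.1 e with hA
  have hx0 : (D.P h t).Pr (xc D U t I w0) ≠ 0 := xc_ne J.supp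
  have e1 : xc D U t (insert e I) w0 = fun v => xc D U t I w0 v ∧ A v := by
    funext v
    show (le (LL U) ∅ v = le (LL U) ∅ w0 ∧ BB D t (insert e I) v = BB D t (insert e I) w0) =
      ((le (LL U) ∅ v = le (LL U) ∅ w0 ∧ BB D t I v = BB D t I w0) ∧ v.2.1 e = w0.2.1 e)
    rw [BB_eq, BB_eq]
    refine propext ⟨fun hh => ⟨⟨hh.1, fun j hj => hh.2.1 j (Finset.mem_insert_of_mem hj), hh.2.2⟩,
      hh.2.1 e (Finset.mem_insert_self _ _)⟩,
      fun hh => ⟨hh.1.1, fun j hj => ?_, hh.1.2.2⟩⟩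
    rcases Finset.mem_insert.1 hj with h1 | h1
    · rw [h1]; exact hh.2
    · exact hh.1.2.1 j h1
  have hne : (D.P h t).Pr (fun v => xc D U t I w0 v ∧ A v) ≠ 0 :=
    (FP.Pr_pos_of (S := fun v => xc D U t I w0 v ∧ A v) J.supp ⟨xc_self U t I w0, rfl⟩).ne'
  rw [e1, ← FP.cond_cond hne]
  have hw0 : (QX h U t I w0).p w0 ≠ 0 := (FP.cond_p_ne hx0).2 ⟨xc_self U t I w0, J.supp⟩
  have hA0 : (QX h U t I w0).Pr A ≠ 0 := (FP.Pr_pos_of (S := A) hw0 rfl).ne'
  show ((QX h U t I w0).cond A).Pr V = (QX h U t I w0).Pr V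
  have hind := cls_indep3 (h := h) (t := t) (K0 := I) e (V := xc D U t I w0) (xc_fac I w0 B.dep B.era)
    (fun v w hv hw => hv.2.trans hw.2.symm) (xc_self U t I w0) hx0
  unfold FP.Pr
  rw [FP.cond_E hA0]
  have e2 : (QX h U t I w0).E (fun v => ind (A v) * ind (V v)) =
      (QX h U t I w0).E (fun v => ind (A v) * ind (V (v.1, w0.2))) :=
    (QX h U t I w0).E_congr fun v hv => by rw [J.hid hI (QX_supp J.supp hv)]
  have e3 : (QX h U t I w0).E (fun v => ind (V v)) = (QX h U t I w0).E (fun v => ind (V (v.1, w0.2))) :=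
    (QX h U t I w0).E_congr fun v hv => by rw [J.hid hI (QX_supp J.supp hv)]
  have e4 := hind (fun v => ind (A v)) (fun v => ind (V (v.1, w0.2)))
    (Fac.ind fun v w hvw => by
      have h1 : v.2.1 e = w.2.1 e := hvw
      show v.2.1 e = w0.2.1 e ↔ w.2.1 e = w0.2.1 e
      rw [h1]) (Fac.ind fun v w hvw => by
      simp only [Prod.mk.injEq] at hvw
      rw [hvw.1])
  rw [e2, e3]
  have e5 : (QX h U t I w0).E (fun v => ind (A v) * ind (V (v.1, w0.2))) =
      (QX h U t I w0).E (fun v => ind (A v)) * (QX h U t I w0).E (fun v => ind (V (v.1, w0.2))) := e4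
  rw [e5]
  exact mul_div_cancel_left₀ _ hA0

/-- **two letters at one point of `d`**, general label `Tl` of (hidden point, point of `d`) -/
theorem Ix.two_pt {τ : Type} (B : Bk h N S U t b c d) (J : Ix h U t I w0 V) (hI : ∀ l : K, ¬ univ.erase l ⊆ I)
    (hc : c ∉ I) {Tl : Pt K X β φ → τ}
    (hTl : ∀ v w : Pt K X β φ, v.1 = w.1 → v.2.1 d = w.2.1 d → (∀ j, D.qb t (v.2.1 j) = D.qb t (w.2.1 j)) → Tl v = Tl w)
    {M : ℝ} (hM : ∀ d' : β, ∃ s : Finset τ, (s.card : ℝ) ≤ M ∧ ∀ v : Pt K X β φ, v.2.1 d = d' → Tl v ∈ s) :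
    N {c} * (((D.P h t).cond V).cond fun v => v.2.1 d = w0.2.1 d).I (fun w => U {c} w.1 w.2.1) Tl (fun w => w.2.1 c) ≤
      2 * N ∅ * (LX h U t I w0 V + 1) + 2 * (N ∅ * Real.log M) := by
  classical
  have hdI : ∀ j ∈ I, j ∈ insert d I := fun j hj => Finset.mem_insert_of_mem hj
  have hM0 : 0 ≤ M := by
    obtain ⟨s, hs, _⟩ := hM (w0.2.1 d)
    exact le_trans (Nat.cast_nonneg _) hs
  set G : Finset K → Pt K X β φ → Option τ := fun F w => if F = ∅ then some (Tl w) else Option.none with hG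
  have hev : EvI D t (insert d I) V := by
    intro v w hvw
    refine J.fac hI v w ?_
    simp only [Prod.mk.injEq, BB_eq] at hvw ⊢
    exact ⟨hvw.1, fun j hj => hvw.2.1.1 j (hdI j hj), hvw.2.1.2⟩
  have hE0 : ((D.P h t).cond (xc D U t (insert d I) w0)).Pr V ≠ 0 := by
    rw [J.pr_pt B hI d]
    exact J.neX
  have hGI : GI D t (insert d I) G := by
    intro F v w hvw
    simp only [Prod.mk.injEq, BB_eq] at hvw
    obtain ⟨h1, ⟨h2, -, h3⟩, -⟩ := hvw
    show (if F = ∅ then some (Tl v) else Option.none) = if F = ∅ then some (Tl w) else Option.none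
    rw [hTl v w h1 (h2 d (Finset.mem_union_left _ (Finset.mem_insert_self d I))) h3]
  set PE := (FP.pr ((D.P h t).cond (xc D U t ∅ w0)) (coinT h t)).cond fun w => V (hwm D t (insert d I) w0.2.1 w) with hPE
  have hcost : ∑ F ∈ S, N F * cost PE (fun I w => BB D t I w.1) (fun I w => LL U I w.1)
      (fun F w => G F (hwm D t (insert d I) w0.2.1 w)) F ≤ N ∅ * Real.log M := by
    have hc0 : cost PE (fun I w => BB D t I w.1) (fun I w => LL U I w.1)
        (fun F w => G F (hwm D t (insert d I) w0.2.1 w)) ∅ ≤ Real.log M := by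
      unfold cost
      refine Hc_le_card _ _ _ fun w hw => ?_
      obtain ⟨T, hT1, hT2⟩ := hM (w0.2.1 d)
      refine ⟨T.image some, ?_, fun v hv _ => ?_⟩
      · refine le_trans ?_ hT1
        exact_mod_cast Finset.card_image_le
      · show (if (∅ : Finset K) = ∅ then some (Tl (hwm D t (insert d I) w0.2.1 v)) else Option.none) ∈ _
        rw [if_pos rfl]
        refine Finset.mem_image_of_mem _ (hT2 _ ?_)
        show hwy (insert d I) w0.2.1 v.1.2.1 d = w0.2.1 d
        unfold hwy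
        rw [if_pos (Finset.mem_insert_self d I)]
    have hcJ : ∀ F, F ≠ ∅ → cost PE (fun I w => BB D t I w.1) (fun I w => LL U I w.1)
        (fun F w => G F (hwm D t (insert d I) w0.2.1 w)) F = 0 := by
      intro F hF
      refine cost_const fun v w => ?_
      show (if F = ∅ then _ else Option.none) = if F = ∅ then _ else Option.none
      rw [if_neg hF, if_neg hF]
    have h2 : ∀ F ∈ S, N F * cost PE (fun I w => BB D t I w.1) (fun I w => LL U I w.1)
        (fun F w => G F (hwm D t (insert d I) w0.2.1 w)) F ≤ if F = ∅ then N ∅ * Real.log M else 0 := by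
      intro F hF
      by_cases hF0 : F = ∅
      · subst hF0
        rw [if_pos rfl]
        exact mul_le_mul_of_nonneg_left hc0 (B.nn ∅ B.s0)
      · rw [if_neg hF0, hcJ F hF0, mul_zero]
    refine (Finset.sum_le_sum h2).trans (le_of_eq ?_)
    rw [Finset.sum_ite_eq' S ∅, if_pos B.s0]
  have hcI : c ∉ (insert d I : Finset K) := by
    rw [Finset.mem_insert]
    rintro (h1 | h1)
    · exact B.cd h1
    · exact hc h1
  have h1 := ex_bound (h := h) B.dep B.sat B.nn B.era B.s0 (I := insert d I) (J0 := {c}) (B.s1 c)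
    (Finset.singleton_nonempty c) (Finset.disjoint_singleton_left.2 hcI) (w0 := w0) J.supp hev hE0 hGI hcost
  rw [J.pr_pt B hI d] at h1
  -- the law
  have hsub : (fun v => xc D U t (insert d I) w0 v ∧ V v) = fun v => V v ∧ v.2.1 d = w0.2.1 d := by
    funext v
    refine propext ⟨fun hh => ⟨hh.2, ?_⟩, fun hh => ⟨⟨(J.sub v hh.1).1, ?_⟩, hh.1⟩⟩
    · have h2 := hh.1.2
      rw [BB_eq] at h2
      exact h2.1 d (Finset.mem_insert_self d I)
    · have h2 := (J.sub v hh.1).2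
      rw [BB_eq] at h2 ⊢
      refine ⟨fun j hj => ?_, h2.2⟩
      rcases Finset.mem_insert.1 hj with h3 | h3
      · rw [h3]; exact hh.2
      · exact h2.1 j h3
  have hne : (D.P h t).Pr (fun v => V v ∧ v.2.1 d = w0.2.1 d) ≠ 0 :=
    (FP.Pr_pos_of (S := fun v => V v ∧ v.2.1 d = w0.2.1 d) J.supp ⟨J.self, rfl⟩).ne'
  have hlaw : ((D.P h t).cond (xc D U t (insert d I) w0)).cond V = ((D.P h t).cond V).cond fun v => v.2.1 d = w0.2.1 d := by
    rw [FP.cond_cond (by rw [hsub]; exact hne), FP.cond_cond hne, hsub]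
  rw [hlaw] at h1
  set Q1 := ((D.P h t).cond V).cond fun v => v.2.1 d = w0.2.1 d with hQ1
  have hQs : ∀ v, Q1.p v ≠ 0 → V v ∧ (D.P h t).p v ≠ 0 := by
    intro v hv
    have h2 := FP.cond_ac _ _ v hv
    exact cond_supp J.ne h2
  have hac : Q1.Ac ((D.P h t).cond (xc D U t (insert d I) w0)) := by
    rw [← hlaw]
    exact FP.cond_ac _ _
  have hklc := klc_nonneg hac (LL U {c}) (fun w => (lo (LL U) {c} w, BB D t {c} w))
  have hII : Q1.I (fun w => U {c} w.1 w.2.1) Tl (fun w => w.2.1 c) ≤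
      Q1.I (LL U {c}) (lo G {c}) (fun w => (lo (LL U) {c} w, BB D t {c} w)) := by
    have e1 : Q1.I (fun w => U {c} w.1 w.2.1) Tl (fun w => w.2.1 c) =
        Q1.I (fun w => U {c} w.1 w.2.1) Tl (fun w => (lo (LL U) {c} w, BB D t {c} w)) := by
      refine I_supp (fun _ _ _ _ => Iff.rfl) (fun _ _ _ _ => Iff.rfl) fun v w hv hw => ?_
      have hx := xc_pub (J.sub _ (hQs v hv).1) (J.sub _ (hQs w hw).1)
      exact (fib1 (U := U) (p := c) B.oth hx.1 hx.2).symm
    rw [e1]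
    refine le_trans (FP.I_mono _ (X := LL U {c}) (X' := fun w => U {c} w.1 w.2.1) _ fun v w hvw => ?_) ?_
    · have h4 : LL U {c} v = LL U {c} w := congrArg Prod.fst hvw
      exact (LL_eq.1 h4).1
    · rw [FP.I_comm, FP.I_comm _ (LL U {c}) (lo G {c})]
      refine FP.I_mono _ (X := lo G {c}) (X' := Tl) _ fun v w hvw => ?_
      have h4 : lo G {c} v = lo G {c} w := congrArg Prod.fst hvw
      have h5 := lo_eq.1 h4 ∅ (Finset.ssubset_singleton_iff.2 rfl)
      have h6 : (if (∅ : Finset K) = ∅ then some (Tl v) else Option.none) =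
        if (∅ : Finset K) = ∅ then some (Tl w) else Option.none := h5
      rw [if_pos rfl, if_pos rfl] at h6
      exact Option.some.inj h6
  have hNc := (B.n1 c).le
  have h2 := mul_le_mul_of_nonneg_left hII hNc
  have h3 := mul_nonneg hNc hklc
  rw [mul_add] at h1
  unfold LX
  linarith

/-- **two letters**, general label `Tl` of (hidden point, point of `d`) -/
theorem Ix.two {τ : Type} (B : Bk h N S U t b c d) (J : Ix h U t I w0 V) (hI : ∀ l : K, ¬ univ.erase l ⊆ I)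
    (hc : c ∉ I) {Tl : Pt K X β φ → τ}
    (hTl : ∀ v w : Pt K X β φ, v.1 = w.1 → v.2.1 d = w.2.1 d → (∀ j, D.qb t (v.2.1 j) = D.qb t (w.2.1 j)) → Tl v = Tl w)
    {M : ℝ} (hM : ∀ d' : β, ∃ s : Finset τ, (s.card : ℝ) ≤ M ∧ ∀ v : Pt K X β φ, v.2.1 d = d' → Tl v ∈ s) :
    N {c} * ((D.P h t).cond V).I (zf U c) (fun w => (w.2.1 d, Tl w)) (fun _ => ()) ≤
      2 * N ∅ * (LX h U t I w0 V + 1) + 2 * (N ∅ * Real.log M) := by
  classical
  set Q := (D.P h t).cond V with hQ
  set Y : Pt K X β φ → β × τ := fun w => (w.2.1 d, Tl w) with hY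
  set Uc : Pt K X β φ → υ := fun w => U {c} w.1 w.2.1 with hUc
  have hVf : Fac (fun w => (w.1, BB D t I w)) V := J.fac hI
  have hsup : ∀ v, Q.p v ≠ 0 → V v ∧ (D.P h t).p v ≠ 0 := fun v hv => cond_supp J.ne hv
  have hnod : ∀ v w, V v → V w → BB D t I v = BB D t I w := fun v w hv hw => (J.sub v hv).2.trans (J.sub w hw).2.symm
  have hnd : ∀ v, Q.p v ≠ 0 → D.qa t v.1 = D.qa t w0.1 ∧ ∀ j, D.qb t (v.2.1 j) = D.qb t (w0.2.1 j) := by
    intro v hv
    have := (J.sub v (hsup v hv).1).2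
    rw [BB_eq] at this
    exact this.2
  have hqu : ∀ (e : K) (v : Pt K X β φ), Q.p v ≠ 0 → ∀ j, D.qb t (v.2.1 j) = D.qb t (Function.update w0.2.1 e (v.2.1 e) j) := by
    intro e v hv j
    by_cases hje : j = e
    · subst hje; rw [Function.update_self]
    · rw [Function.update_of_ne hje]; exact (hnd v hv).2 j
  -- chain rules
  have c1 : Q.I (zf U c) Y (fun _ => ()) = Q.I (fun w => (Uc w, w.2.1 c)) Y (fun _ => ()) :=
    I_supp (fun v w _ _ => by
      show ((v.2.1 c, Uc v) = (w.2.1 c, Uc w)) ↔ ((Uc v, v.2.1 c) = (Uc w, w.2.1 c))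
      simp only [Prod.mk.injEq]; tauto) (fun _ _ _ _ => Iff.rfl) fun _ _ _ _ => Iff.rfl
  have c2 : Q.I (fun w => (Uc w, w.2.1 c)) Y (fun _ => ()) = Q.I (fun w => w.2.1 c) Y (fun _ => ()) +
      Q.I Uc Y (fun w => (w.2.1 c, ())) := Q.I_chain _ _ _ _
  have c3 : Q.I Uc Y (fun w => (w.2.1 c, ())) = Q.I (fun w => (Tl w, w.2.1 d)) Uc (fun w => (w.2.1 c, ())) := by
    rw [Q.I_comm]
    exact I_supp (fun v w _ _ => by
      show ((v.2.1 d, Tl v) = (w.2.1 d, Tl w)) ↔ ((Tl v, v.2.1 d) = (Tl w, w.2.1 d))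
      simp only [Prod.mk.injEq]; tauto) (fun _ _ _ _ => Iff.rfl) fun _ _ _ _ => Iff.rfl
  have c4 : Q.I (fun w => (Tl w, w.2.1 d)) Uc (fun w => (w.2.1 c, ())) =
      Q.I (fun w => w.2.1 d) Uc (fun w => (w.2.1 c, ())) + Q.I Tl Uc (fun w => (w.2.1 d, w.2.1 c, ())) :=
    Q.I_chain _ _ _ _
  -- the point of `c` is independent of the second row
  have indc := cls_indep3 (h := h) (t := t) (K0 := I) c hVf hnod J.self J.ne
  have indd := cls_indep3 (h := h) (t := t) (K0 := I) d hVf hnod J.self J.ne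
  have z1 : Q.I (fun w => w.2.1 c) Y (fun _ => ()) = 0 := by
    set Y' : Pt K X β φ → β × τ := fun w =>
      (w.2.1 d, Tl (w.1, Function.update w0.2.1 d (w.2.1 d), w0.2.2)) with hY'
    have e1 : Q.I (fun w => w.2.1 c) Y (fun _ => ()) = Q.I (fun w => w.2.1 c) Y' (fun _ => ()) := by
      refine I_congr_eq (fun _ _ => rfl) (fun v hv => ?_) fun _ _ => rfl
      have e2 : Tl v = Tl (v.1, Function.update w0.2.1 d (v.2.1 d), w0.2.2) :=
        hTl _ _ rfl (by
          show v.2.1 d = Function.update w0.2.1 d (v.2.1 d) d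
          rw [Function.update_self]) (hqu d v hv)
      show (v.2.1 d, Tl v) = (v.2.1 d, Tl (v.1, Function.update w0.2.1 d (v.2.1 d), w0.2.2))
      rw [← e2]
    rw [e1]
    refine I_of_indep (indc.mono (Fac.refl _) fun v w hvw => ?_)
    simp only [Prod.mk.injEq] at hvw
    have h2 := congrFun hvw.2.1 d
    simp only [if_neg B.cd.symm] at h2
    have h3 := Option.some.inj h2
    show (v.2.1 d, Tl (v.1, Function.update w0.2.1 d (v.2.1 d), w0.2.2)) =
      (w.2.1 d, Tl (w.1, Function.update w0.2.1 d (w.2.1 d), w0.2.2))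
    rw [h3, hvw.1]
  have z2 : Q.I (fun w => w.2.1 d) Uc (fun w => (w.2.1 c, ())) = 0 := by
    have h1 : Q.I (fun w => (Uc w, w.2.1 c)) (fun w => w.2.1 d) (fun _ => ()) = 0 := by
      have e1 : Q.I (fun w => (Uc w, w.2.1 c)) (fun w => w.2.1 d) (fun _ => ()) =
          Q.I (fun w => (U {c} w.1 (Function.update w0.2.1 c (w.2.1 c)), w.2.1 c)) (fun w => w.2.1 d) (fun _ => ()) := by
        refine I_congr_eq (fun v hv => ?_) (fun _ _ => rfl) fun _ _ => rfl
        have e2 : U {c} v.1 v.2.1 = U {c} v.1 (Function.update w0.2.1 c (v.2.1 c)) :=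
          B.dep {c} v.1 _ _ (fun j hj => by rw [Finset.mem_singleton.1 hj, Function.update_self]) (hqu c v hv)
        show (U {c} v.1 v.2.1, v.2.1 c) = (U {c} v.1 (Function.update w0.2.1 c (v.2.1 c)), v.2.1 c)
        rw [e2]
      rw [e1, Q.I_comm]
      refine I_of_indep (indd.mono (Fac.refl _) fun v w hvw => ?_)
      simp only [Prod.mk.injEq] at hvw
      have h2 := congrFun hvw.2.1 c
      simp only [if_neg B.cd] at h2
      have h3 := Option.some.inj h2
      show (U {c} v.1 (Function.update w0.2.1 c (v.2.1 c)), v.2.1 c) =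
        (U {c} w.1 (Function.update w0.2.1 c (w.2.1 c)), w.2.1 c)
      rw [h3, hvw.1]
    have h2 : Q.I (fun w => (Uc w, w.2.1 c)) (fun w => w.2.1 d) (fun _ => ()) =
        Q.I (fun w => w.2.1 c) (fun w => w.2.1 d) (fun _ => ()) + Q.I Uc (fun w => w.2.1 d) (fun w => (w.2.1 c, ())) :=
      Q.I_chain _ _ _ _
    have h3 := Q.I_nonneg (fun w => w.2.1 c) (fun w => w.2.1 d) (fun _ => ())
    have h4 := Q.I_nonneg Uc (fun w => w.2.1 d) (fun w => (w.2.1 c, ()))
    rw [Q.I_comm]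
    linarith
  -- disintegration over the point of `d`
  have z3 : Q.I Tl Uc (fun w => (w.2.1 d, w.2.1 c, ())) =
      Q.E (fun w => (Q.cond fun v => v.2.1 d = w.2.1 d).I Uc Tl (fun w => w.2.1 c)) := by
    rw [I_disint Q _ _ _ (fun w => w.2.1 d) (Fac.fst _ _)]
    refine Q.E_congr fun w hw => ?_
    rw [FP.I_comm]
    have h0 : Q.Pr (fun v => v.2.1 d = w.2.1 d) ≠ 0 := (FP.Pr_pos_of (S := fun v => v.2.1 d = w.2.1 d) hw rfl).ne'
    refine I_supp (fun _ _ _ _ => Iff.rfl) (fun _ _ _ _ => Iff.rfl) fun u v hu hv => ?_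
    have e1 := (cond_supp h0 hu).1
    have e2 := (cond_supp h0 hv).1
    simp only [Prod.mk.injEq, and_true]
    exact ⟨fun hh => hh.2, fun hh => ⟨e1.trans e2.symm, hh⟩⟩
  rw [c1, c2, c3, c4, z1, z2, z3, zero_add, zero_add, ← FP.E_smul]
  refine Q.E_le_const fun w hw => ?_
  obtain ⟨hVw, hpw⟩ := hsup w hw
  have h1 := Ix.two_pt B (J.mv hVw hpw) hI hc hTl hM
  unfold LX at h1
  rw [QX_mv (J.sub w hVw)] at h1
  exact h1

/-! ### a relation of the letters of `c`, `d` and of the far top -/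

theorem Ix.klc_one (B : Bk h N S U t b c d) (J : Ix h U t I w0 V) (hc : c ∉ I) (hM0 : 0 ≤ M)
    (hL : LX h U t I w0 V ≤ L) :
    ((D.P h t).cond V).klc (QX h U t I w0) (zf U c) (fun _ => ()) ≤ klet N al M c L := by
  have hN0 := B.nn ∅ B.s0
  have hNc := B.n1 c
  have h0 := log_nn hM0 h b
  unfold klet
  rw [_root_.Pool.Agent.GMH.klc_one J.acX, le_div_iff₀ hNc, mul_comm]
  have h1 := J.one B hc
  have h3 : 2 * N ∅ * (LX h U t I w0 V + 1) ≤ 2 * N ∅ * (L + 1) := mul_le_mul_of_nonneg_left (by linarith) (by linarith)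
  have h4 := mul_nonneg hN0 h0
  linarith

theorem Ix.klc_zt (B : Bk h N S U t b c d) (J : Ix h U t I w0 V) (hd : d ∉ I) (hM0 : 0 ≤ M)
    (hL : LX h U t I w0 V ≤ L) :
    ((D.P h t).cond V).klc (QX h U t I w0) (zt U Typ d) (fun _ => ()) ≤ klet N al M d L := by
  have h1 := Ix.klc_one B.swap J hd hM0 hL
  rw [_root_.Pool.Agent.GMH.klc_one J.acX] at h1 ⊢
  exact (FP.kl_mono J.acX (zt_of_zf (U := U) (Typ := Typ) d)).trans h1

theorem Ix.I_zt (B : Bk h N S U t b c d) (J : Ix h U t I w0 V) (hI : ∀ l : K, ¬ univ.erase l ⊆ I) (hc : c ∉ I)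
    (hM0 : 0 ≤ M) (hM : ∀ c', ∃ s : Finset υ, (s.card : ℝ) ≤ M ∧ ∀ u, Typ c' u → u ∈ s) (hL : LX h U t I w0 V ≤ L) :
    ((D.P h t).cond V).I (zt U Typ d) (zf U c) (fun _ => ()) ≤ klet N al M c L := by
  have hN0 := B.nn ∅ B.s0
  have hNc := B.n1 c
  have h2 := Ix.two B J hI hc (Tl := fun w => tru Typ (w.2.1 d) (U {d} w.1 w.2.1)) (tru_dep B Typ) (tru_card hM)
  have h3 : 2 * N ∅ * (LX h U t I w0 V + 1) ≤ 2 * N ∅ * (L + 1) := mul_le_mul_of_nonneg_left (by linarith) (by linarith)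
  have h4 : Real.log (M + 1) ≤ Real.log ((M + 1) * (1 / al)) := by
    have h1 : 1 ≤ 1 / al := by
      rw [le_div_iff₀ h.pos, one_mul]
      exact hal_one h b
    exact Real.log_le_log (by linarith) (le_mul_of_one_le_right (by linarith) h1)
  have h5 := mul_le_mul_of_nonneg_left h4 hN0
  rw [FP.I_comm]
  unfold klet
  rw [le_div_iff₀ hNc, mul_comm]
  have h6 : ((D.P h t).cond V).I (zf U c) (zt U Typ d) (fun _ => ()) =
      ((D.P h t).cond V).I (zf U c) (fun w => (w.2.1 d, tru Typ (w.2.1 d) (U {d} w.1 w.2.1))) (fun _ => ()) := rfl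
  rw [h6]
  linarith

theorem Ix.klc_top (B : Bk h N S U t b c d) (J : Ix h U t I w0 V) (hI : I ⊆ {b}) (hL : LX h U t I w0 V ≤ L) :
    ((D.P h t).cond V).klc (QX h U t I w0) (fun w => w.2.2 b) (fun w => (zf U c w, zf U d w)) ≤ kW N b L := by
  have hN0 := B.nn ∅ B.s0
  unfold kW
  rw [le_div_iff₀ (B.n2 b), mul_comm]
  exact (J.top B hI).trans (mul_le_mul_of_nonneg_left (by linarith) (by linarith))

/-- sum of the prices of the pair of letters and the far top -/
noncomputable def EP (N : Finset K → ℝ) (al M : ℝ) (b c d : K) (L : ℝ) : ℝ :=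
  kW N b L + klet N al M c L + klet N al M d L

/-- a relation of the letters of `c`, `d` and of the far top, inside the set `C0`, alive at typical letters of `d` -/
structure Rp (h : D.Thick al) (U : Finset K → X → (K → β) → υ) (t : ℕ) (b c d : K) (C0 : Pt K X β φ → Prop)
    (Typ : β → υ → Prop) (A : Pt K X β φ → Prop) : Prop where
  fac : ∀ v w, (D.P h t).p v ≠ 0 → (D.P h t).p w ≠ 0 → C0 v → C0 w →
    zf U c v = zf U c w → zf U d v = zf U d w → v.2.2 b = w.2.2 b → A v → A w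
  typ : ∀ w, (D.P h t).p w ≠ 0 → C0 w → A w → Typ (w.2.1 d) (U {d} w.1 w.2.1)

theorem I_const {Om κ ι ζ : Type*} [Fintype Om] (P : FP Om) (k : κ) (Y : Om → ι) (Z : Om → ζ) :
    P.I (fun _ => k) Y Z = 0 := by
  refine le_antisymm ?_ (P.I_nonneg _ _ _)
  refine (P.I_le_Hc _ _ _).trans (le_of_eq ?_)
  unfold FP.Hc
  rw [P.H_congr (X := fun w => ((k : κ), Z w)) (Y := Z) (fun v w e => congrArg Prod.snd e) (fun v w e => by
    show ((k, Z v) : κ × ζ) = (k, Z w)
    rw [e]), sub_self]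

theorem klc_const {Om κ ζ : Type*} [Fintype Om] {Q P : FP Om} (hac : Q.Ac P) (k : κ) (Z : Om → ζ) :
    Q.klc P (fun _ => k) Z = 0 := by
  unfold FP.klc
  rw [Q.E_congr (g := fun _ => 0) fun w hw => ?_, Q.E_const]
  have e : ∀ R : FP Om, R.m (fun v => ((k : κ), Z v)) w = R.m Z w := fun R => by
    unfold FP.m
    refine R.E_congr fun v _ => congrArg ind (propext ⟨fun hh => congrArg Prod.snd hh, fun hh => ?_⟩)
    show ((k, Z v) : κ × ζ) = (k, Z w)
    rw [hh]
  rw [e, e, div_self (Q.m_pos Z hw).ne', div_self (P.m_pos Z (hac w hw)).ne', div_one, Real.log_one]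

/-- **THE MASSES OF A RELATION OF THE LETTERS AND THE FAR TOP** inside two events -/
theorem rel_pair (B : Bk h N S U t b c d) (J : Ix h U t I w0 V) {V' : Pt K X β φ → Prop} (J' : Ix h U t I w0 V')
    (hI : I ⊆ {b}) {C0 : Pt K X β φ → Prop} (hC : ∀ v, V v → C0 v) (hC' : ∀ v, V' v → C0 v)
    {A : Pt K X β φ → Prop} (H : Rp h U t b c d C0 Typ A)
    (hM0 : 0 ≤ M) (hM : ∀ c', ∃ s : Finset υ, (s.card : ℝ) ≤ M ∧ ∀ u, Typ c' u → u ∈ s)
    (hL : LX h U t I w0 V ≤ L) (hL' : LX h U t I w0 V' ≤ L) :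
    ((D.P h t).cond V).Pr A ≤ 1025 * EP N al M b c d L + 1024 * ((D.P h t).cond V').Pr A := by
  classical
  have hsm : ∀ l : K, ¬ univ.erase l ⊆ I := by
    intro l hl
    have h1 : ∀ j, j ≠ l → j = b := fun j hj => Finset.mem_singleton.1 (hI (hl (Finset.mem_erase.2 ⟨hj, mem_univ j⟩)))
    by_cases hcl : c = l
    · exact B.bd (h1 d (fun hh => B.cd (hcl.trans hh.symm))).symm
    · exact B.bc (h1 c hcl).symm
  have hcI : c ∉ I := fun hh => B.bc (Finset.mem_singleton.1 (hI hh)).symm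
  have hdI : d ∉ I := fun hh => B.bd (Finset.mem_singleton.1 (hI hh)).symm
  set Q := (D.P h t).cond V with hQ
  set Q' := (D.P h t).cond V' with hQ'
  set R := QX h U t I w0 with hR
  set G : β × υ → β × Option υ → Unit → Unit → φ → Prop := fun c' d' _ _ z =>
    ∃ v, (D.P h t).p v ≠ 0 ∧ C0 v ∧ A v ∧ zf U c v = c' ∧ zt U Typ d v = d' ∧ v.2.2 b = z with hG
  have key := rel5 (Q := Q) (Q' := Q') (R := R) (B := R) (C := zf U c) (D := zt U Typ d)
    (Zf := fun w => (zf U c w, zf U d w)) (X := fun _ => ()) (Y := fun _ => ()) (W := fun w => w.2.2 b)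
    (gg := G) J.acX J.acX J'.acX J'.acX (fun v w hvw => by
      simp only [Prod.mk.injEq] at hvw
      show (zf U c v, zt U Typ d v) = (zf U c w, zt U Typ d w)
      rw [hvw.1, zt_of_zf (U := U) (Typ := Typ) d v w hvw.2])
    (fun v w x y z hz h1 h2 => by
      obtain ⟨u, hu, hcu, hA, g1, g2, -⟩ := hz
      have td := H.typ u hu hcu hA
      have a2 : zf U d w = zf U d u := (zt_iff td).1 g2.symm
      have a4 : zf U d v = zf U d u := (zt_iff td).1 (h2.trans g2.symm)
      show (zf U c v, zf U d v) = (zf U c w, zf U d w)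
      rw [h1, a2, a4])
  have eQ : ∀ {V0 : Pt K X β φ → Prop}, (D.P h t).Pr V0 ≠ 0 → (∀ v, V0 v → C0 v) →
      ((D.P h t).cond V0).Pr (fun w => G (zf U c w) (zt U Typ d w) () () (w.2.2 b)) = ((D.P h t).cond V0).Pr A := by
    intro V0 h0 hV0
    refine FP.E_congr _ fun w hw => ?_
    obtain ⟨hw1, hw2⟩ := cond_supp h0 hw
    refine congrArg ind (propext ⟨?_, fun hA => ⟨w, hw2, hV0 w hw1, hA, rfl, rfl, rfl⟩⟩)
    rintro ⟨v, hv, hcv, hA, g1, g2, g3⟩
    have td := H.typ v hv hcv hA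
    have z2 : zf U d w = zf U d v := (zt_iff td).1 g2.symm
    exact H.fac v w hv hw2 hcv (hV0 w hw1) g1 z2.symm g3 hA
  rw [eQ J.ne hC, eQ J'.ne hC'] at key
  have zX : ∀ {V0 : Pt K X β φ → Prop}, Ix h U t I w0 V0 →
      pX ((D.P h t).cond V0) R (zf U c) (zt U Typ d) (fun _ => ()) (fun _ => ()) = 0 := by
    intro V0 J0
    unfold pX
    rw [klc_const J0.acX, I_const, add_zero]
  have zY : ∀ {V0 : Pt K X β φ → Prop}, Ix h U t I w0 V0 →
      pY ((D.P h t).cond V0) R (zf U c) (zt U Typ d) (fun _ => ()) = 0 := by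
    intro V0 J0
    unfold pY
    rw [klc_const J0.acX, I_const, add_zero]
  have uC : ∀ {V0 : Pt K X β φ → Prop}, Ix h U t I w0 V0 → LX h U t I w0 V0 ≤ L →
      pC ((D.P h t).cond V0) R (zf U c) ≤ klet N al M c L := fun J0 h0 => J0.klc_one B hcI hM0 h0
  have uD : ∀ {V0 : Pt K X β φ → Prop}, Ix h U t I w0 V0 → LX h U t I w0 V0 ≤ L →
      pD ((D.P h t).cond V0) R (zf U c) (zt U Typ d) ≤ klet N al M d L + klet N al M c L := fun J0 h0 =>
    add_le_add (J0.klc_zt B hdI hM0 h0) (J0.I_zt B hsm hcI hM0 hM h0)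
  have uW : ∀ {V0 : Pt K X β φ → Prop}, Ix h U t I w0 V0 → LX h U t I w0 V0 ≤ L →
      pW ((D.P h t).cond V0) R (fun w => (zf U c w, zf U d w)) (fun _ => ()) (fun _ => ()) (fun w => w.2.2 b) ≤
        kW N b L := by
    intro V0 J0 h0
    unfold pW
    have e1 : ((D.P h t).cond V0).I (fun w : Pt K X β φ => w.2.2 b) (fun _ => (((), ()) : Unit × Unit))
        (fun w => (zf U c w, zf U d w)) = 0 := by
      rw [FP.I_comm]
      exact I_const _ _ _ _
    rw [e1, add_zero]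
    exact J0.klc_top B hI h0
  have x1 := uC J hL
  have x2 := uD J hL
  have x3 := uW J hL
  have x4 := uC J' hL'
  have x5 := uD J' hL'
  have x6 := uW J' hL'
  rw [zX J, zY J, zX J', zY J'] at key
  have n1 : 0 ≤ kW N b L := by
    refine le_trans ?_ x3
    exact add_nonneg (Pool.Agent.GMH.klc_nonneg J.acX _ _) (FP.I_nonneg _ _ _ _)
  have n2 : 0 ≤ klet N al M c L := le_trans (Pool.Agent.GMH.klc_nonneg J.acX _ _) x1
  have n3 : 0 ≤ klet N al M d L := le_trans (Pool.Agent.GMH.klc_nonneg J.acX _ _) (J.klc_zt (Typ := Typ) B hdI hM0 hL)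
  unfold EP
  linarith

/-- **A2: exact vertex**, against the class of the own letter -/
theorem rel_W (B : Bk h N S U t b c d) (J : Ib h U t b w0 V) {A : Pt K X β φ → Prop}
    (H : Rp h U t b c d (clsb U (pub0 D t U w0) b w0) Typ A)
    (hM0 : 0 ≤ M) (hM : ∀ c', ∃ s : Finset υ, (s.card : ℝ) ≤ M ∧ ∀ u, Typ c' u → u ∈ s) (hL : Lb h U t b w0 V ≤ L) :
    ((D.P h t).cond V).Pr A ≤ 1025 * EP N al M b c d L + 1024 * (QC h U t b w0).Pr A :=
  rel_pair B (Ib_ix J) (Ib_ix (J.cls B)) (Finset.Subset.refl _) (fun v hv => J.sub v hv) (fun _ hv => hv) H hM0 hM hL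
    (J.lcls.trans hL)

/-- **public events** -/
theorem rel_pub (B : Bk h N S U t b c d) (J : Ix h U t ∅ w0 V) {A : Pt K X β φ → Prop}
    (H : Rp h U t b c d (xc D U t ∅ w0) Typ A)
    (hM0 : 0 ≤ M) (hM : ∀ c', ∃ s : Finset υ, (s.card : ℝ) ≤ M ∧ ∀ u, Typ c' u → u ∈ s)
    (hL : LX h U t ∅ w0 V ≤ L) :
    ((D.P h t).cond V).Pr A ≤ 1025 * EP N al M b c d L + 1024 * (QX h U t ∅ w0).Pr A := by
  have hf : Fac (fun w => (w.1, BB D t ∅ w, tl (φ := φ) ∅ ∅ w)) (xc D U t ∅ w0) := by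
    intro v w hvw
    refine xc_fac (U := U) ∅ w0 B.dep B.era v w ?_
    simp only [Prod.mk.injEq] at hvw ⊢
    exact ⟨hvw.1, hvw.2.1⟩
  have J' : Ix h U t ∅ w0 (xc D U t ∅ w0) := ⟨hf, xc_self U t ∅ w0, J.supp, fun _ hv => hv⟩
  have hL' : LX h U t ∅ w0 (xc D U t ∅ w0) ≤ LX h U t ∅ w0 V := by
    have h0 : 0 < (QX h U t ∅ w0).Pr V := lt_of_le_of_ne ((QX h U t ∅ w0).Pr_nonneg _) J.neX.symm
    have h2 : (QX h U t ∅ w0).Pr V ≤ (QX h U t ∅ w0).Pr (xc D U t ∅ w0) :=
      (QX h U t ∅ w0).Pr_mono fun v _ hv => J.sub v hv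
    unfold LX
    exact Real.log_le_log (one_div_pos.2 (lt_of_lt_of_le h0 h2)) (one_div_le_one_div_of_le h0 h2)
  exact rel_pair B J J' (Finset.empty_subset _) (fun v hv => J.sub v hv) (fun _ hv => hv) H hM0 hM hL (hL'.trans hL)

end cls

end Pool.Agent.GMH.SngA
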