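import Pool.Agent.GMH.KDT3
import Pool.Agent.GMH.MV9

/-!
# GMH/SngB: kind S, transfer from the removal to the public start (helper61; block (B) of helper37's plan, message 50405)

Data `M : MS`, `ν ≤ s` in one public epoch.
* `stat_fam` : conservation given any family of letters (all points): mass at `ν` of an event of `ν` is at most its mass at `s`
  plus the list;
* `sgl i s w` : log of the law of the top `i` given all thin letters over its own law, at the true top; `sgl_unl`;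
* `tvo i s w` : distance of the two laws (twice); `tvo_unl`;
* `SM eF eS i s` : the relation of kind S at the true tuple (`sF_iff`, `sS_iff`: it is `KF.sF or KF.sS`); `SM_unl`, `SM_unl'` :
  over an unlisted thin triple it is the same at every state of the public epoch, up to `48 d0`, `16 d0` in the thresholds;
* `row_tr`, `row_SM` : mass of a row (class `Zf M i0` of a family `i0`, all points exact) at the public start against its mass
  at the removal; `LP ν s` : something over the thin triple is listed;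
* `Thw i0 i1 ρ s` : thrown away (something over the triple is listed, or one of the two sides has mass `≥ ρ` of such triples),
  `Thw_sum` : the sum at the light public values; **`trf`** : for the other tuples the relation and the masses of the two sides
  go from the state `s` to the public start.
-/

set_option autoImplicit false
set_option linter.unusedSectionVars false

namespace Pool.Agent.GMH.SNB

open Finset Pool.Agent.PWZ Pool.Agent.M3 Pool.Agent.GMH.TD Pool.Agent.GMH.CK Pool.Agent.GMH.MV Pool.Agent.GMH.KDT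
open Pool.Agent.GMH.MV4 Pool.Agent.GMH.KF Pool.Agent.GMH Pool.Agent.GMH.KDL Pool.Agent.GMH.MVI

noncomputable section

/-! ### two laws and their copies, one sided -/

theorem abs_eq_pos (x : ℝ) : |x| = 2 * max x 0 - x := by
  rcases le_total 0 x with h | h
  · rw [abs_of_nonneg h, max_eq_left h]
    ring
  · rw [abs_of_nonpos h, max_eq_right h]
    ring

/-- the distance of two laws is twice the sum of the positive parts over the support of the first -/
theorem tv_pos {G : Type*} (s : Finset G) {p q : G → ℝ} (p0 : ∀ g ∈ s, 0 ≤ p g) (q0 : ∀ g ∈ s, 0 ≤ q g)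
    (h : ∑ g ∈ s, p g = ∑ g ∈ s, q g) :
    ∑ g ∈ s, |p g - q g| = 2 * ∑ g ∈ s.filter (fun g => 0 < p g), max (p g - q g) 0 := by
  classical
  have h1 : ∑ g ∈ s, |p g - q g| = 2 * ∑ g ∈ s, max (p g - q g) 0 := by
    rw [Finset.sum_congr rfl fun g _ => abs_eq_pos (p g - q g), Finset.sum_sub_distrib, ← Finset.mul_sum,
      Finset.sum_sub_distrib, h]
    ring
  rw [h1, Finset.sum_filter]
  congr 1
  refine Finset.sum_congr rfl fun g hg => ?_
  by_cases h2 : 0 < p g
  · rw [if_pos h2]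
  · rw [if_neg h2]
    have h3 : p g = 0 := le_antisymm (not_lt.1 h2) (p0 g hg)
    rw [h3, zero_sub, max_eq_right]
    have := q0 g hg
    linarith

theorem max_lip (a b : ℝ) : |max a 0 - max b 0| ≤ |a - b| := by
  rcases le_total 0 a with h1 | h1 <;> rcases le_total 0 b with h2 | h2
  · rw [max_eq_left h1, max_eq_left h2]
  · rw [max_eq_left h1, max_eq_right h2, sub_zero, abs_of_nonneg h1]
    exact (by linarith : a ≤ a - b).trans (le_abs_self _)
  · rw [max_eq_right h1, max_eq_left h2, zero_sub, abs_neg, abs_of_nonneg h2]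
    have := neg_abs_le (a - b)
    linarith
  · rw [max_eq_right h1, max_eq_right h2, sub_zero, abs_zero]
    exact abs_nonneg _

/-- two laws and their pushed copies: only the support of the first law is asked -/
theorem tv_push_one {G G' : Type*} (s : Finset G) (s' : Finset G') (par : G → G') {p q : G → ℝ} {p' q' : G' → ℝ} {e : ℝ}
    (p0 : ∀ g ∈ s, 0 ≤ p g) (q0 : ∀ g ∈ s, 0 ≤ q g) (p0' : ∀ g ∈ s', 0 ≤ p' g) (q0' : ∀ g ∈ s', 0 ≤ q' g)
    (p1 : ∑ g ∈ s, p g = 1) (q1 : ∑ g ∈ s, q g = 1) (p1' : ∑ g ∈ s', p' g = 1) (q1' : ∑ g ∈ s', q' g = 1)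
    (hs : ∀ g ∈ s, 0 < p g → par g ∈ s')
    (hinj : ∀ a ∈ s, ∀ b ∈ s, 0 < p a → 0 < p b → par a = par b → a = b)
    (hp : ∀ g ∈ s, 0 < p g → |p' (par g) - p g| ≤ e * p g) (hq : ∀ g ∈ s, 0 < p g → |q' (par g) - q g| ≤ e * q g) :
    |(∑ g ∈ s, |p g - q g|) - (∑ g ∈ s', |p' g - q' g|)| ≤ 6 * e := by
  classical
  set A := s.filter fun g => 0 < p g with hA
  have hAs : ∀ g ∈ A, g ∈ s ∧ 0 < p g := fun g hg => Finset.mem_filter.1 hg
  set B := A.image par with hB
  have hinjA : Set.InjOn par (A : Set G) := by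
    intro a ha b hb hab
    exact hinj a (hAs a ha).1 b (hAs b hb).1 (hAs a ha).2 (hAs b hb).2 hab
  have sB : ∀ F : G' → ℝ, ∑ x ∈ B, F x = ∑ g ∈ A, F (par g) := fun F => Finset.sum_image hinjA
  have hBs : B ⊆ s' := by
    intro x hx
    obtain ⟨g, hg, rfl⟩ := Finset.mem_image.1 hx
    exact hs g (hAs g hg).1 (hAs g hg).2
  have hpA : ∑ g ∈ A, p g = 1 := by
    rw [← p1]
    refine Finset.sum_subset (Finset.filter_subset _ s) fun g hg hgA => ?_
    have h1 : ¬ 0 < p g := fun h => hgA (Finset.mem_filter.2 ⟨hg, h⟩)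
    exact le_antisymm (not_lt.1 h1) (p0 g hg)
  have hqA : ∑ g ∈ A, q g ≤ 1 := by
    rw [← q1]
    exact Finset.sum_le_sum_of_subset_of_nonneg (Finset.filter_subset _ s) fun g hg _ => q0 g hg
  have he0 : 0 ≤ e := by
    obtain ⟨g, hg⟩ : A.Nonempty := by
      rw [Finset.nonempty_iff_ne_empty]
      intro h0
      rw [h0, Finset.sum_empty] at hpA
      norm_num at hpA
    have h1 := (abs_nonneg _).trans (hp g (hAs g hg).1 (hAs g hg).2)
    exact nonneg_of_mul_nonneg_left h1 (hAs g hg).2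
  rw [tv_pos s p0 q0 (p1.trans q1.symm)]
  have h2 : ∑ g ∈ s', |p' g - q' g| = 2 * ∑ g ∈ s', max (p' g - q' g) 0 := by
    rw [Finset.sum_congr rfl fun g _ => abs_eq_pos (p' g - q' g), Finset.sum_sub_distrib, ← Finset.mul_sum,
      Finset.sum_sub_distrib, p1', q1']
    ring
  rw [h2, ← Finset.sum_sdiff hBs, sB]
  -- the parents of the support
  have h3 : |∑ g ∈ A, max (p g - q g) 0 - ∑ g ∈ A, max (p' (par g) - q' (par g)) 0| ≤ 2 * e := by
    rw [← Finset.sum_sub_distrib]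
    refine (Finset.abs_sum_le_sum_abs _ _).trans ?_
    have h4 : ∀ g ∈ A, |max (p g - q g) 0 - max (p' (par g) - q' (par g)) 0| ≤ e * p g + e * q g := by
      intro g hg
      refine (max_lip _ _).trans ?_
      have h5 := hp g (hAs g hg).1 (hAs g hg).2
      have h6 := hq g (hAs g hg).1 (hAs g hg).2
      rw [show p g - q g - (p' (par g) - q' (par g)) = -(p' (par g) - p g) + (q' (par g) - q g) by ring]
      refine (abs_add_le _ _).trans ?_
      rw [abs_neg]
      exact add_le_add h5 h6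
    refine (Finset.sum_le_sum h4).trans ?_
    rw [Finset.sum_add_distrib, ← Finset.mul_sum, ← Finset.mul_sum, hpA]
    nlinarith
  -- the rest
  have h7 : 0 ≤ ∑ g ∈ s' \ B, max (p' g - q' g) 0 := Finset.sum_nonneg fun g _ => le_max_right _ _
  have h8 : ∑ g ∈ s' \ B, max (p' g - q' g) 0 ≤ e := by
    have h9 : ∑ g ∈ s' \ B, max (p' g - q' g) 0 ≤ ∑ g ∈ s' \ B, p' g := Finset.sum_le_sum fun g hg => by
      have h10 := q0' g (Finset.mem_sdiff.1 hg).1
      have h11 := p0' g (Finset.mem_sdiff.1 hg).1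
      exact max_le (by linarith) h11
    have h12 : ∑ g ∈ s' \ B, p' g + ∑ g ∈ A, p' (par g) = 1 := by
      rw [← sB, Finset.sum_sdiff hBs, p1']
    have h13 : 1 - e ≤ ∑ g ∈ A, p' (par g) := by
      have h14 : ∑ g ∈ A, (p g - e * p g) ≤ ∑ g ∈ A, p' (par g) := Finset.sum_le_sum fun g hg => by
        have h15 := (abs_le.1 (hp g (hAs g hg).1 (hAs g hg).2)).1
        linarith
      rw [Finset.sum_sub_distrib, ← Finset.mul_sum, hpA] at h14
      linarith
    linarith
  have h16 := abs_le.1 h3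
  rw [abs_le]
  constructor <;> linarith [h16.1, h16.2]

variable {Om : Type} [Fintype Om] {M : MS Om}

/-! ### conservation -/

/-- the class of a family of letters, all points -/
def Zf (M : MS Om) (i : Finset (Fin 3) × Finset (Fin 3)) (s : ℕ) (w : Om) := (LF M i s w, M.NP s w)

theorem Zf_YA (i : Finset (Fin 3) × Finset (Fin 3)) (s : ℕ) :
    Fac (Zf M i s) (fun w => (YF M (univ, univ) w, M.NP s w)) := by
  intro a b hab
  exact Prod.ext (congrArg (fun x => x.2.2) (Prod.mk.inj hab).1) (Prod.mk.inj hab).2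

theorem Zf_le (i : Finset (Fin 3) × Finset (Fin 3)) {r s : ℕ} (h : r ≤ s) : Fac (Zf M i s) (Zf M i r) := by
  intro a b hab
  exact Prod.ext (fac_le (LF_step M i) h a b (Prod.mk.inj hab).1) (fac_le M.hN h a b (Prod.mk.inj hab).2)

theorem Zf_full (i : Finset (Fin 3) × Finset (Fin 3)) (s : ℕ) : Fac (fun w => (LF M (univ, univ) s w, M.NP s w)) (Zf M i s) := by
  intro a b hab
  have h1 := LF_eq.1 (Prod.mk.inj hab).1
  exact Prod.ext (LF_eq.2 ⟨fun j _ => h1.1 j (mem_univ j), fun j _ => h1.2.1 j (mem_univ j), h1.2.2⟩) (Prod.mk.inj hab).2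

/-- **conservation given a family of letters, all points exact** -/
theorem stat_fam (i : Finset (Fin 3) × Finset (Fin 3)) (hd : M.d0 ≤ 1 / 12) {ν s : ℕ} (hs : ν ≤ s) {A : Om → Prop}
    (hA : Fac (fun w => (LF M (univ, univ) ν w, M.NP ν w)) A) {u : Om} (hu : M.P.p u ≠ 0) (h : ¬ Lst M ν s u) :
    M.P.ce (Zf M i ν) (fun x => ind (A x)) u ≤
      M.P.ce (Zf M i s) (fun x => ind (A x ∨ Lst M ν s x)) u + 6 * M.d0 := by
  have hd0 := M.hd0
  have hlog : M.d0 < Real.log 2 := by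
    have := Real.log_two_gt_d9
    linarith
  have hq := keep_q hs hu i h
  have h2 : M.P.ce (Zf M i s) (fun x => ind (¬ (A x ∨ Lst M ν s x))) u ≤
      Real.exp (3 * M.d0) * M.P.ce (Zf M i ν) (fun x => ind (¬ A x)) u :=
    cons hs hlog (Zf_YA i) (Zf_le i hs) (Zf_full i ν) hA hu hq
  rw [ce_compl (Zf M i ν) A hu, ce_compl (Zf M i s) (fun x => A x ∨ Lst M ν s x) hu] at h2
  have h5 : Real.exp (3 * M.d0) ≤ 1 + 6 * M.d0 := by
    have h6 := Real.abs_exp_sub_one_le (x := 3 * M.d0) (by rw [abs_of_pos (by positivity)]; linarith)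
    rw [abs_of_pos (show 0 < 3 * M.d0 by positivity)] at h6
    have := (abs_le.1 h6).2
    linarith
  have h7 : M.P.ce (Zf M i ν) (fun x => ind (A x)) u ≤ 1 := M.P.ce_le_const (fun _ _ => ind_le_one _) hu
  have h8 : 0 ≤ M.P.ce (Zf M i ν) (fun x => ind (A x)) u := M.P.ce_nonneg (fun _ _ => ind_nonneg _) u
  have h6 : Real.exp (3 * M.d0) * (1 - M.P.ce (Zf M i ν) (fun x => ind (A x)) u) ≤
      (1 + 6 * M.d0) * (1 - M.P.ce (Zf M i ν) (fun x => ind (A x)) u) := mul_le_mul_of_nonneg_right h5 (by linarith)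
  nlinarith

/-! ### the single -/

/-- log of the law of the top `i` given all thin letters over its own law, at the true top -/
def sgl (M : MS Om) (i : Fin 3) (s : ℕ) (w : Om) : ℝ := lt M univ {i} s w - lt M (univ.erase i) {i} s w

/-- the single of an unlisted point -/
theorem sgl_unl (i : Fin 3) {s r : ℕ} {w : Om} (hw : M.P.p w ≠ 0) (hl : ¬ Lst M (nu M s w) s w) (hr : nu M s w ≤ r)
    (hrs : r ≤ s) : |sgl M i s w - sgl M i r w| ≤ 16 * M.d0 := by
  have h1 := abs_le.1 (lt_unl univ {i} hw hl hr hrs)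
  have h2 := abs_le.1 (lt_unl (univ.erase i) {i} hw hl hr hrs)
  unfold sgl
  rw [abs_le]
  constructor <;> linarith [h1.1, h1.2, h2.1, h2.2]

/-! ### the distance of the law of one top from its own law -/

/-- distance of the law of the top `i` given all thin letters from its own law (twice) -/
def tvo (M : MS Om) (i : Fin 3) (s : ℕ) (w : Om) : ℝ := tv1n M.P (TH M s) (Zo M s) (Ft M s) i w

theorem mF_lt (i : Fin 3) (s : ℕ) {u : Om} (hu : M.P.p u ≠ 0) :
    mF M.P (TH M s) (Ft M s) i u (Ft M s i u) = Real.exp (lt M univ {i} s u) := by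
  have h1 : mF M.P (TH M s) (Ft M s) i u (Ft M s i u) = vp M {i} s u := mF_vp i s u
  have h2 : M.P.m (TH M s) u = M.P.m (fun w => (LF M (univ, ∅) s w, M.NP s w)) u :=
    M.P.m_congr (X := TH M s) (Y := fun w => (LF M (univ, ∅) s w, M.NP s w))
      (fun a b hab => (L0_TH s).2 hab) (fun a b hab => (L0_TH s).1 hab) u
  rw [h1, vp_m, h2]
  unfold lt
  rw [Real.exp_log (div_pos (M.P.m_pos _ hu) (M.P.m_pos _ hu))]

theorem qF_lt (i : Fin 3) (s : ℕ) {u : Om} (hu : M.P.p u ≠ 0) :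
    qF M.P (Zo M s) (Ft M s) i u (Ft M s i u) = Real.exp (lt M (univ.erase i) {i} s u) := by
  have h1 : qF M.P (Zo M s) (Ft M s) i u (Ft M s i u) =
      M.P.m (fun x => (LF M (univ.erase i, {i}) s x, M.NP s x)) u /
        M.P.m (fun x => (LF M (univ.erase i, ∅) s x, M.NP s x)) u := by
    unfold qF FP.pv FP.ce
    congr 1
    unfold FP.m
    refine M.P.E_congr fun x _ => ?_
    rw [← ind_and]
    refine congrArg ind (propext ⟨fun g => ?_, fun g => ?_⟩)
    · have g1 := LF_eq.1 (Prod.mk.inj g.1).1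
      exact Prod.ext (LF_eq.2 ⟨g1.1, fun j hj => by rw [Finset.mem_singleton.1 hj]; exact g.2, g1.2.2⟩)
        (Prod.mk.inj g.1).2
    · have g1 := LF_eq.1 (Prod.mk.inj g).1
      exact ⟨Prod.ext (LF_eq.2 ⟨g1.1, fun j hj => absurd hj (Finset.notMem_empty j), g1.2.2⟩) (Prod.mk.inj g).2,
        g1.2.1 i (Finset.mem_singleton_self i)⟩
  rw [h1]
  unfold lt
  rw [Real.exp_log (div_pos (M.P.m_pos _ hu) (M.P.m_pos _ hu))]

theorem exp_near {a b x : ℝ} (h : |b - a| ≤ x) (hx : x ≤ 1) : |Real.exp b - Real.exp a| ≤ 2 * x * Real.exp a := by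
  have h1 : Real.exp b - Real.exp a = (Real.exp (b - a) - 1) * Real.exp a := by
    rw [sub_mul, one_mul, ← Real.exp_add, sub_add_cancel]
  rw [h1, abs_mul, abs_of_pos (Real.exp_pos a)]
  refine mul_le_mul_of_nonneg_right ?_ (Real.exp_pos a).le
  refine (Real.abs_exp_sub_one_le (h.trans hx)).trans ?_
  linarith

/-- **the distance is stable over an unlisted triple** -/
theorem tvo_unl (i : Fin 3) (hd : M.d0 ≤ 1 / 100) {s r : ℕ} {w : Om} (hw : M.P.p w ≠ 0)
    (hl : ¬ 0 < M.P.ce (TH M s) (fun u => ind (Lst M (nu M s w) s u)) w) (hr : nu M s w ≤ r) (hrs : r ≤ s) :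
    |tvo M i s w - tvo M i r w| ≤ 96 * M.d0 := by
  have hd0 := M.hd0
  have hlog : 8 * M.d0 < Real.log 2 := by
    have := Real.log_two_gt_d9
    linarith
  have hst : Stb M 0 (8 * M.d0) r s w := stb_nu hw hl hr hrs
  have hun : ∀ u, M.P.p u ≠ 0 → TH M s u = TH M s w → nu M s u = nu M s w ∧ ¬ Lst M (nu M s u) s u := by
    intro u hu huw
    have e0 : nu M s u = nu M s w := nu_fac M s u w (Prod.mk.inj huw).2
    refine ⟨e0, fun g => hl ?_⟩
    rw [e0] at g
    have e1 : M.P.ce (TH M s) (fun x => ind (Lst M (nu M s w) s x)) w =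
        M.P.ce (TH M s) (fun x => ind (Lst M (nu M s w) s x)) u := M.P.ce_fac _ _ w u huw.symm
    rw [e1]
    exact kda_pos (TH M s) hu g
  have key := tv_push_one (vals (Ft M s i)) (vals (Ft M r i)) (prn M r s i)
    (p := fun x => mF M.P (TH M s) (Ft M s) i w x) (q := fun x => qF M.P (Zo M s) (Ft M s) i w x)
    (p' := fun x => mF M.P (TH M r) (Ft M r) i w x) (q' := fun x => qF M.P (Zo M r) (Ft M r) i w x) (e := 16 * M.d0)
    (fun g _ => M.P.pv_nonneg _ _ _ _) (fun g _ => M.P.pv_nonneg _ _ _ _) (fun g _ => M.P.pv_nonneg _ _ _ _)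
    (fun g _ => M.P.pv_nonneg _ _ _ _) (M.P.pv_sum _ _ hw) (M.P.pv_sum _ _ hw) (M.P.pv_sum _ _ hw) (M.P.pv_sum _ _ hw)
    ?_ ?_ ?_ ?_
  · refine key.trans (le_of_eq ?_)
    ring
  · intro x _ hx
    obtain ⟨u, h1, h2, h3⟩ := pv_ex hx
    rw [← h3, prn_eq hrs]
    exact FP.mem_vals _ _
  · intro a _ b _ ha hb hab
    obtain ⟨u, h1, h2, h3⟩ := pv_ex ha
    obtain ⟨u', h1', h2', h3'⟩ := pv_ex hb
    rw [← h3, ← h3', prn_eq hrs, prn_eq hrs] at hab
    have h5 : (LF M (univ, {i}) r u, M.NP r u) = (LF M (univ, {i}) r u', M.NP r u') :=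
      LFu_iff.2 ⟨(TH_le' hrs u w h2).trans (TH_le' hrs u' w h2').symm, fun j hj => by
        rw [Finset.mem_singleton.1 hj]
        exact hab⟩
    have h6 := child_one hlog hrs hst (univ, {i}) h1 h1' h2 h2' (Prod.mk.inj h5).1
    have h7 : (LF M (univ, {i}) s u, M.NP s u) = (LF M (univ, {i}) s u', M.NP s u') :=
      Prod.ext h6 (Prod.mk.inj (h2.trans h2'.symm)).2
    rw [← h3, ← h3']
    exact (LFu_iff.1 h7).2 i (Finset.mem_singleton_self i)
  · intro x _ hx
    obtain ⟨u, h1, h2, h3⟩ := pv_ex hx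
    obtain ⟨e0, hlu⟩ := hun u h1 h2
    rw [← h3, prn_eq hrs]
    have e1 : mF M.P (TH M s) (Ft M s) i w (Ft M s i u) = Real.exp (lt M univ {i} s u) := by
      rw [← mF_lt i s h1]
      exact mF_fac M.P (Z := TH M s) (Ft M s) i _ w u h2.symm
    have e2 : mF M.P (TH M r) (Ft M r) i w (Ft M r i u) = Real.exp (lt M univ {i} r u) := by
      rw [← mF_lt i r h1]
      exact mF_fac M.P (Z := TH M r) (Ft M r) i _ w u (TH_le' hrs u w h2).symm
    show |mF M.P (TH M r) (Ft M r) i w (Ft M r i u) - mF M.P (TH M s) (Ft M s) i w (Ft M s i u)| ≤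
      16 * M.d0 * mF M.P (TH M s) (Ft M s) i w (Ft M s i u)
    rw [e1, e2]
    have h4 := lt_unl univ {i} h1 hlu (by rw [e0]; exact hr) hrs
    rw [abs_sub_comm] at h4
    refine (exp_near h4 (by linarith)).trans (le_of_eq ?_)
    ring
  · intro x _ hx
    obtain ⟨u, h1, h2, h3⟩ := pv_ex hx
    obtain ⟨e0, hlu⟩ := hun u h1 h2
    rw [← h3, prn_eq hrs]
    have e1 : qF M.P (Zo M s) (Ft M s) i w (Ft M s i u) = Real.exp (lt M (univ.erase i) {i} s u) := by
      rw [← qF_lt i s h1]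
      exact qF_fac M.P (Ft M s) (fun i => TH_Zo s i) i _ w u h2.symm
    have e2 : qF M.P (Zo M r) (Ft M r) i w (Ft M r i u) = Real.exp (lt M (univ.erase i) {i} r u) := by
      rw [← qF_lt i r h1]
      exact qF_fac M.P (Ft M r) (fun i => TH_Zo r i) i _ w u (TH_le' hrs u w h2).symm
    show |qF M.P (Zo M r) (Ft M r) i w (Ft M r i u) - qF M.P (Zo M s) (Ft M s) i w (Ft M s i u)| ≤
      16 * M.d0 * qF M.P (Zo M s) (Ft M s) i w (Ft M s i u)
    rw [e1, e2]
    have h4 := lt_unl (univ.erase i) {i} h1 hlu (by rw [e0]; exact hr) hrs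
    rw [abs_sub_comm] at h4
    refine (exp_near h4 (by linarith)).trans (le_of_eq ?_)
    ring

/-! ### the relation of kind S -/

/-- the single top `i` or the law of a top is bad, thresholds `eF`, `eS` -/
def SM (M : MS Om) (eF eS : ℝ) (i : Fin 3) (s : ℕ) (w : Om) : Prop :=
  (∃ j, 2 * eF ≤ tvo M j s w) ∨ eS ≤ |sgl M i s w|

theorem sF_iff (c : KC) (s : ℕ) (w : Om) :
    sF M.P (TH M s) (Zo M s) (Ft M s) c w ↔ ∃ j, 2 * c.eF ≤ tvo M j s w := Iff.rfl

theorem sS_iff (c : KC) (i : Fin 3) (s : ℕ) {w : Om} (hw : M.P.p w ≠ 0) :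
    sS M.P (TH M s) (Zo M s) (Ft M s) c i w (tup (Ft M s) w) ↔ c.eS ≤ |sgl M i s w| := by
  have h1 : mF M.P (TH M s) (Ft M s) i w (tup (Ft M s) w i) = Real.exp (lt M univ {i} s w) := mF_lt i s hw
  have h2 : qF M.P (Zo M s) (Ft M s) i w (tup (Ft M s) w i) = Real.exp (lt M (univ.erase i) {i} s w) := qF_lt i s hw
  unfold sS sgl
  rw [h1, h2, ← Real.exp_sub, Real.log_exp]

/-- **the relation is stable over an unlisted triple**, with thresholds which differ by `48 d0`, `16 d0` -/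
theorem SM_unl {eF eS : ℝ} (i : Fin 3) (hd : M.d0 ≤ 1 / 100) {s r : ℕ} {w : Om} (hw : M.P.p w ≠ 0)
    (hl : ¬ 0 < M.P.ce (TH M s) (fun u => ind (Lst M (nu M s w) s u)) w) (hr : nu M s w ≤ r) (hrs : r ≤ s)
    (h : SM M eF eS i s w) : SM M (eF - 48 * M.d0) (eS - 16 * M.d0) i r w := by
  rcases h with ⟨j, h⟩ | h
  · have h1 := abs_le.1 (tvo_unl j hd hw hl hr hrs)
    exact Or.inl ⟨j, by linarith [h1.2]⟩
  · have h1 := sgl_unl i hw (unl_self hw hl) hr hrs
    have h2 := abs_sub_abs_le_abs_sub (sgl M i s w) (sgl M i r w)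
    exact Or.inr (by linarith)

/-- the same from the earlier state to the later state -/
theorem SM_unl' {eF eS : ℝ} (i : Fin 3) (hd : M.d0 ≤ 1 / 100) {s r : ℕ} {w : Om} (hw : M.P.p w ≠ 0)
    (hl : ¬ 0 < M.P.ce (TH M s) (fun u => ind (Lst M (nu M s w) s u)) w) (hr : nu M s w ≤ r) (hrs : r ≤ s)
    (h : SM M eF eS i r w) : SM M (eF - 48 * M.d0) (eS - 16 * M.d0) i s w := by
  rcases h with ⟨j, h⟩ | h
  · have h1 := abs_le.1 (tvo_unl j hd hw hl hr hrs)
    exact Or.inl ⟨j, by linarith [h1.1]⟩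
  · have h1 := sgl_unl i hw (unl_self hw hl) hr hrs
    have h2 := abs_sub_abs_le_abs_sub (sgl M i r w) (sgl M i s w)
    rw [abs_sub_comm] at h2
    exact Or.inr (by linarith)

theorem SM_mono {eF eF' eS eS' : ℝ} (h1 : eF' ≤ eF) (h2 : eS' ≤ eS) {i : Fin 3} {s : ℕ} {w : Om}
    (h : SM M eF eS i s w) : SM M eF' eS' i s w := by
  rcases h with ⟨j, h⟩ | h
  · exact Or.inl ⟨j, by linarith⟩
  · exact Or.inr (by linarith)

/-! ### masses of rows and columns -/

/-- something over the thin triple is listed -/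
def LP (M : MS Om) (ν s : ℕ) (w : Om) : Prop := 0 < M.P.ce (TH M s) (fun u => ind (Lst M ν s u)) w

/-- **mass of a row at the public start against its mass at the removal** -/
theorem row_tr (i : Finset (Fin 3) × Finset (Fin 3)) (hd : M.d0 ≤ 1 / 12) {ν s : ℕ} (hs : ν ≤ s) {A B : Om → Prop}
    (hA : Fac (fun w => (LF M (univ, univ) ν w, M.NP ν w)) A) {w : Om} (hw : M.P.p w ≠ 0) (h : ¬ Lst M ν s w)
    (hAB : ∀ u, M.P.p u ≠ 0 → Zf M i s u = Zf M i s w → ¬ LP M ν s u → A u → B u) :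
    M.P.ce (Zf M i ν) (fun x => ind (A x)) w ≤ M.P.ce (Zf M i s) (fun x => ind (B x ∨ LP M ν s x)) w + 6 * M.d0 := by
  refine (stat_fam i hd hs hA hw h).trans (add_le_add ?_ le_rfl)
  refine mono_on (M := M) fun u hu huw => ind_mono ?_
  rintro (g | g)
  · by_cases hL : LP M ν s u
    · exact Or.inr hL
    · exact Or.inl (hAB u hu huw hL g)
  · exact Or.inr (kda_pos (TH M s) hu g)

theorem SM_fac (eF eS : ℝ) (i : Fin 3) (s : ℕ) : Fac (fun w => (LF M (univ, univ) s w, M.NP s w)) (SM M eF eS i s) := by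
  intro a b hab
  have h1 : TH M s a = TH M s b := full_TH s a b hab
  have h2 : ∀ j, tvo M j s a = tvo M j s b := fun j => tv1n_fac M.P (Ft M s) (fun i => TH_Zo s i) j a b h1
  have h3 : ∀ S A, lt M S A s a = lt M S A s b := by
    intro S A
    unfold lt
    have g1 : (LF M (S, A) s a, M.NP s a) = (LF M (S, A) s b, M.NP s b) := Zf_full (S, A) s a b hab
    have g2 : (LF M (S, ∅) s a, M.NP s a) = (LF M (S, ∅) s b, M.NP s b) := Zf_full (S, ∅) s a b hab
    have g3 := M.P.Fac_m (fun u => (LF M (S, A) s u, M.NP s u)) a b g1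
    have g4 := M.P.Fac_m (fun u => (LF M (S, ∅) s u, M.NP s u)) a b g2
    rw [g3, g4]
  unfold SM sgl
  simp only [h2, h3]

/-- **rows and columns of kind S**: family `i0` of letters, `ν` = public start of `s` -/
theorem row_SM (i0 : Finset (Fin 3) × Finset (Fin 3)) {eF eS : ℝ} (i : Fin 3) (hd : M.d0 ≤ 1 / 100) {s : ℕ} {w : Om}
    (hw : M.P.p w ≠ 0) (hl : ¬ Lst M (nu M s w) s w) :
    M.P.ce (Zf M i0 (nu M s w)) (fun x => ind (SM M eF eS i (nu M s w) x)) w ≤
      M.P.ce (Zf M i0 s) (fun x => ind (SM M (eF - 48 * M.d0) (eS - 16 * M.d0) i s x ∨ LP M (nu M s w) s x)) w +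
        6 * M.d0 := by
  refine row_tr i0 (by linarith) (stg_le s w) (SM_fac eF eS i _) hw hl ?_
  intro u hu huw hL hA
  have e0 : nu M s u = nu M s w := nu_fac M s u w (Prod.mk.inj huw).2
  refine SM_unl' i hd hu ?_ e0.le (stg_le s w) hA
  rw [e0]
  exact hL

/-! ### what is thrown away at a light public value -/

/-- something over the thin triple is listed, current public epoch -/
def LPn (M : MS Om) (s : ℕ) (w : Om) : Prop := LP M (nu M s w) s w

theorem LPn_fac (s : ℕ) : Fac (TH M s) (LPn M s) := by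
  intro a b hab
  unfold LPn LP
  have e0 : nu M s a = nu M s b := nu_fac M s a b (Prod.mk.inj hab).2
  rw [e0, M.P.ce_fac (TH M s) (fun u => ind (Lst M (nu M s b) s u)) a b hab]

/-- **the mass of the triples with a listed tuple**, any class which is coarser than the thin triple -/
theorem LPn_le {ζ : Type*} {Z : Om → ζ} {Lam : ℝ} (hT : Thk M Lam) (s : ℕ) (hZ : Fac (TH M s) Z) (w : Om) :
    M.P.ce Z (fun u => ind (LPn M s u)) w ≤ Real.exp (4 * Lam) * M.P.ce Z (fun u => ind (Lst M (nu M s u) s u)) w := by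
  rw [← M.P.ce_tower hZ (fun u => ind (Lst M (nu M s u) s u)) w, ← M.P.ce_smul]
  refine mono_on (M := M) fun u hu _ => ?_
  have e1 : M.P.ce (TH M s) (fun x => ind (Lst M (nu M s x) s x)) u =
      M.P.ce (TH M s) (fun x => ind (Lst M (nu M s u) s x)) u := by
    refine ce_fib M.P fun x hx => ?_
    rw [nu_fac M s x u (Prod.mk.inj hx).2]
  rw [e1]
  by_cases h : LPn M s u
  · rw [ind_of h]
    have h2 := hT s (Lst M (nu M s u) s) (Lst_fac M _ s) u hu h
    have h3 : Real.exp (4 * Lam) * Real.exp (-(4 * Lam)) = 1 := by rw [← Real.exp_add, add_neg_cancel, Real.exp_zero]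
    calc (1 : ℝ) = Real.exp (4 * Lam) * Real.exp (-(4 * Lam)) := h3.symm
      _ ≤ _ := mul_le_mul_of_nonneg_left h2 (Real.exp_pos _).le
  · rw [ind_not h]
    exact mul_nonneg (Real.exp_pos _).le (M.P.ce_nonneg (fun _ _ => ind_nonneg _) u)

/-- the side `i0` has a large mass of triples with a listed tuple -/
def LPs (M : MS Om) (i0 : Finset (Fin 3) × Finset (Fin 3)) (ρ : ℝ) (s : ℕ) (w : Om) : Prop :=
  ρ ≤ M.P.ce (Zf M i0 s) (fun u => ind (LPn M s u)) w

theorem LPs_fac (i0 : Finset (Fin 3) × Finset (Fin 3)) (ρ : ℝ) (s : ℕ) : Fac (Zf M i0 s) (LPs M i0 ρ s) := by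
  intro a b hab
  unfold LPs
  rw [M.P.ce_fac (Zf M i0 s) (fun u => ind (LPn M s u)) a b hab]

/-- thrown away: something is listed over the triple, or one of the two sides has a large mass of such triples -/
def Thw (M : MS Om) (i0 i1 : Finset (Fin 3) × Finset (Fin 3)) (ρ : ℝ) (s : ℕ) (w : Om) : Prop :=
  LPn M s w ∨ LPs M i0 ρ s w ∨ LPs M i1 ρ s w

theorem Thw_fac (i0 i1 : Finset (Fin 3) × Finset (Fin 3)) (ρ : ℝ) (s : ℕ) :
    Fac (fun w => (LF M (univ, univ) s w, M.NP s w)) (Thw M i0 i1 ρ s) := by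
  intro a b hab
  unfold Thw
  rw [LPn_fac s a b (full_TH s a b hab), LPs_fac i0 ρ s a b (Zf_full i0 s a b hab),
    LPs_fac i1 ρ s a b (Zf_full i1 s a b hab)]

theorem Thw_mass {Lam : ℝ} (hT : Thk M Lam) (i0 i1 : Finset (Fin 3) × Finset (Fin 3)) {ρ : ℝ} (hρ : 0 < ρ)
    (hρ1 : ρ ≤ 1) (s : ℕ) {w : Om} (hw : M.P.p w ≠ 0) :
    M.P.ce (M.NP s) (fun u => ind (Thw M i0 i1 ρ s u)) w ≤ 3 * (Real.exp (4 * Lam) * M.k0 / ρ) := by
  set m : ℝ := M.P.ce (M.NP s) (fun u => ind (LPn M s u)) w with hm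
  have h1 : m ≤ Real.exp (4 * Lam) * M.k0 := by
    refine (LPn_le hT s (fun a b hab => (Prod.mk.inj hab).2) w).trans ?_
    exact mul_le_mul_of_nonneg_left (Lst_mass' M s hw).le (Real.exp_pos _).le
  have hm0 : 0 ≤ m := M.P.ce_nonneg (fun _ _ => ind_nonneg _) w
  have side : ∀ i, M.P.ce (M.NP s) (fun u => ind (LPs M i ρ s u)) w ≤ m / ρ := by
    intro i
    rw [le_div_iff₀ hρ, mul_comm, ← M.P.ce_smul, hm,
      ← M.P.ce_tower (show Fac (Zf M i s) (M.NP s) from fun a b hab => (Prod.mk.inj hab).2) (fun u => ind (LPn M s u)) w]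
    refine mono_on (M := M) fun u hu _ => ?_
    by_cases h : LPs M i ρ s u
    · rw [ind_of h, mul_one]
      exact h
    · rw [ind_not h, mul_zero]
      exact M.P.ce_nonneg (fun _ _ => ind_nonneg _) u
  have h2 : M.P.ce (M.NP s) (fun u => ind (Thw M i0 i1 ρ s u)) w ≤ m + (m / ρ + m / ρ) := by
    have h3 : M.P.ce (M.NP s) (fun u => ind (Thw M i0 i1 ρ s u)) w ≤
        M.P.ce (M.NP s) (fun u => ind (LPn M s u) + (ind (LPs M i0 ρ s u) + ind (LPs M i1 ρ s u))) w := by
      refine mono_on (M := M) fun u _ _ => ?_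
      have g1 := ind_nonneg (LPn M s u)
      have g2 := ind_nonneg (LPs M i0 ρ s u)
      have g3 := ind_nonneg (LPs M i1 ρ s u)
      by_cases h : Thw M i0 i1 ρ s u
      · rw [ind_of h]
        rcases h with h | h | h
        · rw [ind_of h] at g1 ⊢
          linarith
        · rw [ind_of h] at g2 ⊢
          linarith
        · rw [ind_of h] at g3 ⊢
          linarith
      · rw [ind_not h]
        linarith
    rw [M.P.ce_add, M.P.ce_add] at h3
    linarith [side i0, side i1]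
  have h4 : m ≤ m / ρ := by
    rw [le_div_iff₀ hρ]
    nlinarith
  have h5 : m / ρ ≤ Real.exp (4 * Lam) * M.k0 / ρ := div_le_div_of_nonneg_right h1 hρ.le
  linarith

/-- **THROWN AWAY AT THE LIGHT PUBLIC VALUES** -/
theorem Thw_sum (hP : PrN M) {T : ℕ} {Tot Lam : ℝ} (hT0 : Tot0 M T Tot) (hT : Thk M Lam)
    (i0 i1 : Finset (Fin 3) × Finset (Fin 3)) {ρ q : ℝ} (hρ : 0 < ρ) (hρ1 : ρ ≤ 1) (hq0 : 0 < q) (hq1 : q < 1)
    (hq : 3 * (Real.exp (4 * Lam) * M.k0 / ρ) ≤ q) :
    ∑ s ∈ range T, M.P.Pr (fun w => lt5 M M.NP s w ∧ Thw M i0 i1 ρ s w) ≤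
      2 / Real.log (1 / q) * (Tot + Real.sqrt q * NL M T) :=
  NP_thr hP hT0 (fun s _ => Thw_fac i0 i1 ρ s) hq0 hq1 fun s _ _ hw _ => (Thw_mass hT i0 i1 hρ hρ1 s hw).trans hq

/-- **TRANSFER**, tuples which are not thrown away: the relation, and the masses of the two sides, at the public start -/
theorem trf {i0 i1 : Finset (Fin 3) × Finset (Fin 3)} {ρ eF eS eF' eS' : ℝ} (i : Fin 3) (hd : M.d0 ≤ 1 / 100) {s : ℕ}
    {w : Om} (hw : M.P.p w ≠ 0) (ht : ¬ Thw M i0 i1 ρ s w) {m0 m1 : ℝ}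
    (h0 : M.P.ce (Zf M i0 s) (fun x => ind (SM M (eF' - 48 * M.d0) (eS' - 16 * M.d0) i s x)) w ≤ m0)
    (h1 : M.P.ce (Zf M i1 s) (fun x => ind (SM M (eF' - 48 * M.d0) (eS' - 16 * M.d0) i s x)) w ≤ m1)
    (h : SM M eF eS i s w) : SM M (eF - 48 * M.d0) (eS - 16 * M.d0) i (nu M s w) w ∧
      M.P.ce (Zf M i0 (nu M s w)) (fun x => ind (SM M eF' eS' i (nu M s w) x)) w ≤ m0 + ρ + 6 * M.d0 ∧
      M.P.ce (Zf M i1 (nu M s w)) (fun x => ind (SM M eF' eS' i (nu M s w) x)) w ≤ m1 + ρ + 6 * M.d0 := by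
  have hL : ¬ LPn M s w := fun g => ht (Or.inl g)
  have hl : ¬ Lst M (nu M s w) s w := unl_self hw hL
  have key : ∀ i2, ¬ LPs M i2 ρ s w → ∀ m2,
      M.P.ce (Zf M i2 s) (fun x => ind (SM M (eF' - 48 * M.d0) (eS' - 16 * M.d0) i s x)) w ≤ m2 →
      M.P.ce (Zf M i2 (nu M s w)) (fun x => ind (SM M eF' eS' i (nu M s w) x)) w ≤ m2 + ρ + 6 * M.d0 := by
    intro i2 hs2 m2 hm2
    have g1 := row_SM (eF := eF') (eS := eS') i2 i hd hw hl
    have g2 : M.P.ce (Zf M i2 s) (fun x => ind (SM M (eF' - 48 * M.d0) (eS' - 16 * M.d0) i s x ∨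
        LP M (nu M s w) s x)) w ≤ M.P.ce (Zf M i2 s) (fun x => ind (SM M (eF' - 48 * M.d0) (eS' - 16 * M.d0) i s x) +
          ind (LPn M s x)) w := by
      refine mono_on (M := M) fun u _ huw => ?_
      have e0 : nu M s u = nu M s w := nu_fac M s u w (Prod.mk.inj huw).2
      have e1 : LPn M s u = LP M (nu M s w) s u := by
        unfold LPn
        rw [e0]
      rw [e1]
      have a1 := ind_nonneg (SM M (eF' - 48 * M.d0) (eS' - 16 * M.d0) i s u)
      have a2 := ind_nonneg (LP M (nu M s w) s u)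
      by_cases hh : SM M (eF' - 48 * M.d0) (eS' - 16 * M.d0) i s u ∨ LP M (nu M s w) s u
      · rw [ind_of hh]
        rcases hh with hh | hh
        · rw [ind_of hh]
          linarith
        · rw [ind_of hh]
          linarith
      · rw [ind_not hh]
        linarith
    rw [M.P.ce_add] at g2
    have g3 := (not_le.1 hs2).le
    linarith
  exact ⟨SM_unl i hd hw hL le_rfl (stg_le s w) h, key i0 (fun g => ht (Or.inr (Or.inl g))) m0 h0,
    key i1 (fun g => ht (Or.inr (Or.inr g))) m1 h1⟩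

end

end Pool.Agent.GMH.SNB
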