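import Pool.Agent.GMH.SngDef
import Pool.Agent.GMH.MVI
import Pool.Agent.GMH.TabP

/-!
# GMH/SngP: WHAT THE POINTS SEE on the space with label tables (helper41; row C9, E3 of helper37)

* `split`, `forget` : the points of the vertices in `G` are independent of everything else (hidden point, tables, other points)
  given their cells; also after every information `N` seen by the others which contains the cells;
* `ptI_gen`, `ptI_MSi` : `Sng.PtI`.
-/

set_option autoImplicit false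
set_option linter.unusedSectionVars false

namespace Pool.Agent.GMH.Sng

open Finset Pool.Agent.PWZ Pool.Agent.M3 Pool.Agent.GM Pool.Agent.GM.Harm Pool.Agent.GMH Pool.Agent.GMH.NZ
open Pool.Agent.GMH.V3 Pool.Agent.GMH.TP Pool.Agent.GMH.TD Pool.Agent.GMH.Dy Pool.Agent.GMH.CKB Pool.Agent.GMH.MV
open Pool.Agent.GMH.MVI
open Pool.Agent.GMH.Crd (Ind Rel Sg rel_top rel_zero rel_succ)

noncomputable section

theorem ce_cls {Om κ : Type*} [Fintype Om] (P : FP Om) {N : Om → κ} {f g : Om → ℝ} {w : Om}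
    (hfg : ∀ u, P.p u ≠ 0 → N u = N w → f u = g u) : P.ce N f w = P.ce N g w := by
  unfold FP.ce
  congr 1
  refine P.E_congr fun u hu => ?_
  by_cases h1 : N u = N w
  · rw [hfg u hu h1]
  · rw [ind_not h1, zero_mul, zero_mul]

variable {X β γ φ υ : Type} [Fintype X] [Fintype β] [Fintype φ] [Nonempty X] [Nonempty β]
variable {D : HD (Fin 3) X β γ φ} {prr : ℕ → Fin 3 → φ → φ} {T : ℕ} {W : Type} [Fintype W]

/-! ### the points of `G` and the rest -/

variable (D) in
/-- all but the points of `G`, and their cells -/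
def XG (G : Finset (Fin 3)) (n : ℕ) (w : Om W X β) : X × (Fin 3 → W) × (Fin 3 → Option β) × (Fin 3 → γ) :=
  (w.1, w.2.1, (fun j => if j ∈ G then Option.none else some (w.2.2 j)), fun j => D.qb n (w.2.2 j))

/-- the points of `G` -/
def YG (G : Finset (Fin 3)) (w : Om W X β) : Fin 3 → Option β := fun j => if j ∈ G then some (w.2.2 j) else Option.none

variable (D) in
/-- the cells of the points of `G` -/
def AG (G : Finset (Fin 3)) (n : ℕ) (w : Om W X β) : Fin 3 → Option γ :=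
  fun j => if j ∈ G then some (D.qb n (w.2.2 j)) else Option.none

theorem XG_eq {G : Finset (Fin 3)} {n : ℕ} {a b : Om W X β} : XG D G n a = XG D G n b ↔
    a.1 = b.1 ∧ a.2.1 = b.2.1 ∧ (∀ j, j ∉ G → a.2.2 j = b.2.2 j) ∧ ∀ j, D.qb n (a.2.2 j) = D.qb n (b.2.2 j) := by
  unfold XG
  rw [Prod.mk.injEq, Prod.mk.injEq, Prod.mk.injEq]
  refine and_congr_right fun _ => and_congr_right fun _ => and_congr ?_ funext_iff
  rw [funext_iff]
  refine forall_congr' fun j => ?_
  by_cases hj : j ∈ G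
  · rw [if_pos hj, if_pos hj]
    exact ⟨fun _ hh => absurd hj hh, fun _ => rfl⟩
  · rw [if_neg hj, if_neg hj]
    exact ⟨fun hh _ => Option.some.inj hh, fun hh => by rw [hh hj]⟩

theorem YG_eq {G : Finset (Fin 3)} {a b : Om W X β} : YG G a = YG G b ↔ ∀ j, j ∈ G → a.2.2 j = b.2.2 j := by
  unfold YG
  rw [funext_iff]
  refine forall_congr' fun j => ?_
  by_cases hj : j ∈ G
  · rw [if_pos hj, if_pos hj]
    exact ⟨fun hh _ => Option.some.inj hh, fun hh => by rw [hh hj]⟩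
  · rw [if_neg hj, if_neg hj]
    exact ⟨fun _ hh => absurd hh hj, fun _ => rfl⟩

theorem AG_eq {G : Finset (Fin 3)} {n : ℕ} {a b : Om W X β} : AG D G n a = AG D G n b ↔
    ∀ j, j ∈ G → D.qb n (a.2.2 j) = D.qb n (b.2.2 j) := by
  unfold AG
  rw [funext_iff]
  refine forall_congr' fun j => ?_
  by_cases hj : j ∈ G
  · rw [if_pos hj, if_pos hj]
    exact ⟨fun hh _ => Option.some.inj hh, fun hh => by rw [hh hj]⟩
  · rw [if_neg hj, if_neg hj]
    exact ⟨fun _ hh => absurd hh hj, fun _ => rfl⟩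

/-- levels: points only -/
def lv0 (c : Fin 3 → ℕ∞) : Unit ⊕ (Fin 3 ⊕ Fin 3) → ℕ∞
  | Sum.inl _ => 0
  | Sum.inr (Sum.inl _) => 0
  | Sum.inr (Sum.inr j) => c j

theorem sg0_iff {α : Type*} {c : Fin 3 → ℕ∞} {A : Om W X β → α} :
    Sg (Dy.nn (W := W) D) CC (lv0 c) A ↔ ∀ v w, A v = A w ↔ ∀ j, Dy.Rp D (c j) (v.2.2 j) (w.2.2 j) := by
  unfold Sg
  refine forall_congr' fun v => forall_congr' fun w => ?_
  have e : (∀ i, Rel (Dy.nn (W := W) D) i (lv0 c i) (CC i v) (CC i w)) ↔ ∀ j, Dy.Rp D (c j) (v.2.2 j) (w.2.2 j) := by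
    constructor
    · intro hr j
      exact hr (Sum.inr (Sum.inr j))
    · intro h3 i
      match i with
      | Sum.inl _ => exact rel_zero
      | Sum.inr (Sum.inl _) => exact rel_zero
      | Sum.inr (Sum.inr j) => exact h3 j
  rw [e]

theorem rp_some {G : Finset (Fin 3)} {n : ℕ} {j : Fin 3} {a b : β} :
    Dy.Rp D (if j ∈ G then ((n + 1 : ℕ) : ℕ∞) else 0) a b ↔ (j ∈ G → D.qb n a = D.qb n b) := by
  by_cases hj : j ∈ G
  · rw [if_pos hj]
    constructor
    · intro hr _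
      exact hr.2 n (by exact_mod_cast Nat.lt_succ_self _)
    · intro hr
      refine ⟨fun hh => absurd hh (ENat.natCast_ne_top _), fun s hs => ?_⟩
      have hs' : s < n + 1 := by exact_mod_cast hs
      exact qb_mono D (show s ≤ n by omega) (hr hj)
  · rw [if_neg hj]
    exact ⟨fun _ hh => absurd hh hj, fun _ => ⟨fun hh => absurd hh (by simp), fun s hs => absurd hs (by simp)⟩⟩

/-- **the points of `G` against the rest, given their cells** -/
theorem ci_G (tb : Tab D prr T W) (G : Finset (Fin 3)) (n : ℕ) :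
    tb.Ps.CI (AG (W := W) D G n) (XG D G n) (YG G) := by
  refine Crd.ci (n := Dy.nn (W := W) D) (ind_Ps (tb := tb)) (p := lvl (eS univ) (eC Gᶜ fun _ => n)) (q := lv0 (eS G))
    (r := lv0 fun j => if j ∈ G then ((n + 1 : ℕ) : ℕ∞) else 0) ?_ ?_ ?_ ?_
  · rw [sg_iff]
    intro v w
    rw [XG_eq]
    simp only [rp_eC, mem_univ, forall_true_left, mem_compl]
    constructor
    · rintro ⟨h1, h2, h3, h4⟩
      exact ⟨h1, fun i => congrFun h2 i, fun j => ⟨h3 j, h4 j⟩⟩
    · rintro ⟨h1, h2, h3⟩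
      exact ⟨h1, funext h2, fun j => (h3 j).1, fun j => (h3 j).2⟩
  · rw [sg0_iff]
    intro v w
    rw [YG_eq]
    exact forall_congr' fun j => rp_eS.symm
  · rw [sg0_iff]
    intro v w
    rw [AG_eq]
    exact forall_congr' fun j => rp_some.symm
  · intro i
    match i with
    | Sum.inl _ => exact (min_eq_right (zero_le)).symm
    | Sum.inr (Sum.inl _) => exact (min_eq_right (zero_le)).symm
    | Sum.inr (Sum.inr j) =>
      show (if j ∈ G then ((n + 1 : ℕ) : ℕ∞) else 0) = min (eC Gᶜ (fun _ => n) j) (eS G j)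
      unfold eC eS
      by_cases hj : j ∈ G
      · rw [if_pos hj, if_pos hj, if_neg (fun hh => (mem_compl.1 hh) hj)]
        exact (min_eq_left le_top).symm
      · rw [if_neg hj, if_neg hj]
        exact (min_eq_right (zero_le)).symm

/-- **splitting** after every information of the rest which contains the cells -/
theorem split (tb : Tab D prr T W) {G : Finset (Fin 3)} {n : ℕ} {κ : Type*} {N : Om W X β → κ} (hN : Fac (XG D G n) N)
    (hA : Fac N (AG D G n)) {f g : Om W X β → ℝ} (hf : Fac (XG D G n) f) (hg : Fac (YG G) g) (w : Om W X β) :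
    tb.Ps.ce N (fun u => f u * g u) w = tb.Ps.ce N f w * tb.Ps.ce (AG D G n) g w := by
  rw [← tb.Ps.ce_tower hN (fun u => f u * g u) w]
  rw [tb.Ps.ce_congr (g := fun u => f u * tb.Ps.ce (AG D G n) g u) (fun u hu => ?_) w]
  · exact tb.Ps.ce_mul' (hA.trans (tb.Ps.ce_fac _ _)) f w
  · rw [tb.Ps.ce_mul hf g u, Crd.ce_ci (ci_G tb G n) (hN.trans hA) hg hu]

/-- the points of `G` do not see the rest -/
theorem split1 (tb : Tab D prr T W) {G : Finset (Fin 3)} {n : ℕ} {κ : Type*} {N : Om W X β → κ} (hN : Fac (XG D G n) N)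
    (hA : Fac N (AG D G n)) {g : Om W X β → ℝ} (hg : Fac (YG G) g) {w : Om W X β} (hw : tb.Ps.p w ≠ 0) :
    tb.Ps.ce N g w = tb.Ps.ce (AG D G n) g w := by
  have h1 := split tb hN hA (f := fun _ => 1) (fun _ _ _ => rfl) hg w
  rw [tb.Ps.ce_const N 1 hw, one_mul] at h1
  rw [← h1]
  exact tb.Ps.ce_congr (fun u _ => (one_mul _).symm) w

/-- **forgetting the points of `G`** -/
theorem forget (tb : Tab D prr T W) {G : Finset (Fin 3)} {n : ℕ} {κ : Type*} {N : Om W X β → κ} (hN : Fac (XG D G n) N)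
    (hA : Fac N (AG D G n)) {f : Om W X β → ℝ} (hf : Fac (XG D G n) f) {w : Om W X β} (hw : tb.Ps.p w ≠ 0) :
    tb.Ps.ce (fun u => (N u, YG G u)) f w = tb.Ps.ce N f w := by
  have fg : Fac (YG (W := W) (X := X) G) (fun u => ind (YG G u = YG G w)) := fun a b hab => by
    show ind (YG G a = YG G w) = ind (YG G b = YG G w)
    rw [hab]
  have h1 := split tb hN hA hf fg w
  have h2 := split1 tb hN hA fg hw
  have m0 := tb.Ps.m_pos N hw
  have m1 := tb.Ps.m_pos (fun u => (N u, YG G u)) hw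
  have e1 : tb.Ps.m (fun u => (N u, YG G u)) w = tb.Ps.m N w * tb.Ps.ce N (fun u => ind (YG G u = YG G w)) w := by
    unfold FP.ce
    rw [mul_div_cancel₀ _ m0.ne']
    unfold FP.m
    refine tb.Ps.E_congr fun u _ => ?_
    rw [← ind_and]
    congr 1
    simp only [Prod.mk.injEq]
  have e2 : tb.Ps.E (fun u => ind ((N u, YG G u) = (N w, YG G w)) * f u) =
      tb.Ps.m N w * tb.Ps.ce N (fun u => f u * ind (YG G u = YG G w)) w := by
    unfold FP.ce
    rw [mul_div_cancel₀ _ m0.ne']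
    refine tb.Ps.E_congr fun u _ => ?_
    rw [show ((N u, YG G u) = (N w, YG G w)) = (N u = N w ∧ YG G u = YG G w) by rw [Prod.mk.injEq], ind_and]
    ring
  have hk : tb.Ps.ce N (fun u => ind (YG G u = YG G w)) w ≠ 0 := by
    intro h0
    rw [h0, mul_zero] at e1
    exact m1.ne' e1
  show tb.Ps.E (fun u => ind ((N u, YG G u) = (N w, YG G w)) * f u) / tb.Ps.m (fun u => (N u, YG G u)) w = _
  rw [e2, e1, h1, ← h2]
  field_simp

/-! ### the letters and the public information -/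

variable {v : ℕ → Finset (Fin 3) → X → (Fin 3 → β) → υ}

/-- the public information sees the hidden point and the cells -/
theorem NPo_cells (tb : Tab D prr T W) (hv : Codes D v) (q : ℕ) {a b : Om W X β} (h1 : a.1 = b.1)
    (h2 : ∀ j, D.qb (TP.nn q) (a.2.2 j) = D.qb (TP.nn q) (b.2.2 j)) : NPo tb v q a = NPo tb v q b := by
  have h4 := nc_le q ∅
  show NPq D v q (tb.pt 0 a) = NPq D v q (tb.pt 0 b)
  unfold NPq
  rw [NP_eq, nd_eq]
  show Um v (nc q ∅) ∅ a.1 a.2.2 = Um v (nc q ∅) ∅ b.1 b.2.2 ∧ D.qa (TP.nn q) a.1 = D.qa (TP.nn q) b.1 ∧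
    ∀ j, D.qb (TP.nn q) (a.2.2 j) = D.qb (TP.nn q) (b.2.2 j)
  rw [h1]
  refine ⟨?_, rfl, h2⟩
  rw [Um_iff]
  intro r hr
  exact hv r ∅ b.1 a.2.2 b.2.2 (fun j hj => absurd hj (Finset.notMem_empty j)) fun j => qb_mono D (by omega) (h2 j)

theorem NPo_XG (tb : Tab D prr T W) (hv : Codes D v) (q : ℕ) (G : Finset (Fin 3)) :
    Fac (XG D G (TP.nn q)) (NPo tb v q) := fun _ _ hab =>
  NPo_cells tb hv q (XG_eq.1 hab).1 (XG_eq.1 hab).2.2.2

theorem NPo_cell (tb : Tab D prr T W) (q : ℕ) {a b : Om W X β} (h : NPo tb v q a = NPo tb v q b) (j : Fin 3) :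
    D.qb (TP.nn q) (a.2.2 j) = D.qb (TP.nn q) (b.2.2 j) := by
  have h1 : nd D (TP.nn q) (tb.pt 0 a) = nd D (TP.nn q) (tb.pt 0 b) := congrArg Prod.snd h
  exact (nd_eq.1 h1).2 j

theorem NPo_AG (tb : Tab D prr T W) (q : ℕ) (G : Finset (Fin 3)) : Fac (NPo tb v q) (AG D G (TP.nn q)) := fun _ _ hab =>
  AG_eq.2 fun j _ => NPo_cell tb q hab j

/-- the letter of a vertex outside `G` -/
theorem XLo_XG (tb : Tab D prr T W) (hv : Codes D v) (q : ℕ) {G : Finset (Fin 3)} {i : Fin 3} (hi : i ∉ G) :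
    Fac (XG D G (TP.nn q)) (XLo tb v i q) := by
  intro a b hab
  obtain ⟨h1, _, h3, h4⟩ := XG_eq.1 hab
  have h5 := nc_le q {i}
  show XLq v q i (tb.pt 0 a) = XLq v q i (tb.pt 0 b)
  unfold XLq
  rw [XL_eq]
  show a.2.2 i = b.2.2 i ∧ Um v (nc q {i}) {i} a.1 a.2.2 = Um v (nc q {i}) {i} b.1 b.2.2
  refine ⟨h3 i hi, ?_⟩
  rw [Um_iff, h1]
  intro r hr
  refine hv r {i} b.1 a.2.2 b.2.2 (fun j hj => ?_) fun j => qb_mono D (by omega) (h4 j)
  rw [Finset.mem_singleton.1 hj]
  exact h3 i hi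

/-- the history of the label of a face -/
theorem TFo_XG (tb : Tab D prr T W) (q : ℕ) (i : Fin 3) : Fac (XG D {i} (TP.nn q)) (TFo tb i q) := by
  intro a b hab
  obtain ⟨h1, h2, h3, h4⟩ := XG_eq.1 hab
  funext t
  unfold TFo
  by_cases ht : t ≤ q / 5 ∧ t ≤ T
  · rw [if_pos ht, if_pos ht, h1, h2]
    congr 1
    exact tb.dep t i _ _ _ _ (fun j hj => h3 j (fun hh => hj (Finset.mem_singleton.1 hh)))
      (qb_mono D (ht.1.trans (nn_le q)) (h4 i))
  · rw [if_neg ht, if_neg ht]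

/-- **the points of `G` against the rest at a step with the same node** -/
theorem md_gen (tb : Tab D prr T W) (hv : Codes D v) {q : ℕ} (hn : TP.nn (q + 1) = TP.nn q) {G : Finset (Fin 3)}
    {f g : Om W X β → ℝ} (hf : Fac (XG D G (TP.nn q)) f) (hg : Fac (fun u => (YG G u, NPo tb v q u)) g) {w : Om W X β}
    (hw : tb.Ps.p w ≠ 0) :
    tb.Ps.ce (NPo tb v (q + 1)) (fun u => f u * g u) w =
      tb.Ps.ce (NPo tb v (q + 1)) f w * tb.Ps.ce (NPo tb v q) g w := by
  classical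
  set z : Om W X β → Om W X β := fun u => (w.1, w.2.1, fun j => if j ∈ G then u.2.2 j else w.2.2 j) with hz
  have hgz : ∀ u, NPo tb v q u = NPo tb v q w → g u = g (z u) := by
    intro u hu
    refine hg u (z u) (Prod.ext (YG_eq.2 fun j hj => ?_) ?_)
    · show u.2.2 j = if j ∈ G then u.2.2 j else w.2.2 j
      rw [if_pos hj]
    · refine hu.trans (NPo_cells tb hv q rfl fun j => ?_)
      show D.qb (TP.nn q) (w.2.2 j) = D.qb (TP.nn q) (if j ∈ G then u.2.2 j else w.2.2 j)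
      by_cases hj : j ∈ G
      · rw [if_pos hj]
        exact (NPo_cell tb q hu j).symm
      · rw [if_neg hj]
  have hgY : Fac (YG G) (fun u => g (z u)) := by
    intro a b hab
    have h1 := YG_eq.1 hab
    have h2 : z a = z b := by
      refine Prod.ext rfl (Prod.ext rfl (funext fun j => ?_))
      show (if j ∈ G then a.2.2 j else w.2.2 j) = (if j ∈ G then b.2.2 j else w.2.2 j)
      by_cases hj : j ∈ G
      · rw [if_pos hj, if_pos hj, h1 j hj]
      · rw [if_neg hj, if_neg hj]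
    show g (z a) = g (z b)
    rw [h2]
  have hN1 : Fac (XG D G (TP.nn q)) (NPo tb v (q + 1)) := by
    rw [← hn]
    exact NPo_XG tb hv (q + 1) G
  have hA1 : Fac (NPo tb v (q + 1)) (AG D G (TP.nn q)) := by
    rw [← hn]
    exact NPo_AG tb (q + 1) G
  have e1 : tb.Ps.ce (NPo tb v (q + 1)) (fun u => f u * g u) w =
      tb.Ps.ce (NPo tb v (q + 1)) (fun u => f u * g (z u)) w :=
    ce_cls tb.Ps fun u _ hu => by rw [hgz u (NPo_fac tb q u w hu)]
  have e2 : tb.Ps.ce (NPo tb v q) g w = tb.Ps.ce (NPo tb v q) (fun u => g (z u)) w :=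
    ce_cls tb.Ps fun u _ hu => hgz u hu
  rw [e1, e2, split tb hN1 hA1 hf hgY w, split1 tb (NPo_XG tb hv q G) (NPo_AG tb q G) hgY hw]

/-- **WHAT THE POINTS SEE**, any data which see the space with tables like `MSi` -/
theorem ptI_gen (tb : Tab D prr T W) (hv : Codes D v) {M : MS (Om W X β)} (hM : RZ.Rp tb v M)
    (hT : ∀ i s a b, M.TF i s a = M.TF i s b ↔ TFo tb i s a = TFo tb i s b) (T' : ℕ) : PtI M T' := by
  classical
  have hX : ∀ q i, Fac (XG D (univ.erase i) (TP.nn q)) (fun u => (M.XL i q u, M.NP q u)) := fun q i a b hab =>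
    Prod.ext ((hM.X i q a b).2 (XLo_XG tb hv q (Finset.notMem_erase i univ) a b hab))
      ((hM.N q a b).2 (NPo_XG tb hv q _ a b hab))
  have hC0 : ∀ q i, Fac (XG D {i} (TP.nn q)) (CX M i q) := fun q i a b hab => by
    refine Prod.ext (funext fun j => ?_) ((hT i q a b).2 (TFo_XG tb q i a b hab))
    show (if j ≠ i then some (M.XL j q a) else Option.none) = (if j ≠ i then some (M.XL j q b) else Option.none)
    by_cases hj : j ≠ i
    · rw [if_pos hj, if_pos hj, (hM.X j q a b).2 (XLo_XG tb hv q (fun hh => hj (Finset.mem_singleton.1 hh)) a b hab)]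
    · rw [if_neg hj, if_neg hj]
  have hC : ∀ q i, Fac (XG D {i} (TP.nn q)) (fun u => (CX M i q u, M.NP q u)) := fun q i a b hab =>
    Prod.ext (hC0 q i a b hab) ((hM.N q a b).2 (NPo_XG tb hv q _ a b hab))
  have hPX : ∀ i (a b : Om W X β), PX M i a = PX M i b ↔ YG (univ.erase i) a = YG (univ.erase i) b := by
    intro i a b
    rw [YG_eq]
    unfold PX
    rw [funext_iff]
    refine forall_congr' fun j => ?_
    rw [Finset.mem_erase, and_iff_left (mem_univ j)]
    by_cases hj : j ≠ i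
    · rw [if_pos hj, if_pos hj]
      exact ⟨fun hh _ => (hM.Y j a b).1 (Option.some.inj hh), fun hh => by rw [(hM.Y j a b).2 (hh hj)]⟩
    · rw [if_neg hj, if_neg hj]
      exact ⟨fun _ hh => absurd hh hj, fun _ => rfl⟩
  have hUY : ∀ q (a b : Om W X β), AHR.UY M q a = AHR.UY M q b ↔ (∀ j, a.2.2 j = b.2.2 j) ∧ NPo tb v q a = NPo tb v q b := by
    intro q a b
    unfold AHR.UY
    rw [Prod.mk.injEq, MVI.YF_eq]
    exact and_congr (forall_congr' fun j => hM.Y j a b) (hM.N q a b)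
  refine ⟨?_, ?_, ?_, ?_⟩
  · intro i q A hA a b ha hb hab1 hab2
    rw [hM.P] at ha hb ⊢
    set G : Finset (Fin 3) := univ.erase i with hG
    set N' : Om W X β → β × (List υ × (γ × (Fin 3 → γ))) := fun u => (u.2.2 i, NPo tb v q u) with hN'
    have f1 : Fac (XG D G (TP.nn q)) N' := fun x y hxy =>
      Prod.ext ((XG_eq.1 hxy).2.2.1 i (Finset.notMem_erase i univ)) (NPo_XG tb hv q G x y hxy)
    have f2 : Fac N' (AG D G (TP.nn q)) := fun x y hxy => NPo_AG tb q G x y (Prod.mk.inj hxy).2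
    have f3 : Fac (XG D G (TP.nn q)) (fun u => ind (A u)) := fun x y hxy => by
      show ind (A x) = ind (A y)
      rw [hA x y (hX q i x y hxy)]
    have f4 : ∀ w : Om W X β, tb.Ps.ce (AHR.UY M q) (fun u => ind (A u)) w =
        tb.Ps.ce (fun u => (N' u, YG G u)) (fun u => ind (A u)) w := fun w => by
      refine tb.Ps.ce_congr_map (fun x y hxy => ?_) (fun x y hxy => ?_) _ w
      · obtain ⟨h1, h2⟩ := (hUY q x y).1 hxy
        exact Prod.ext (Prod.ext (h1 i) h2) (YG_eq.2 fun j _ => h1 j)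
      · have h1 := (Prod.mk.inj (Prod.mk.inj hxy).1).1
        have h2 := (Prod.mk.inj (Prod.mk.inj hxy).1).2
        have h3 := YG_eq.1 (Prod.mk.inj hxy).2
        refine (hUY q x y).2 ⟨fun j => ?_, h2⟩
        by_cases hj : j = i
        · rw [hj]; exact h1
        · exact h3 j (Finset.mem_erase.2 ⟨hj, mem_univ j⟩)
    rw [f4, f4, forget tb f1 f2 f3 ha, forget tb f1 f2 f3 hb]
    exact tb.Ps.ce_fac N' _ a b (Prod.ext ((hM.Y i a b).1 hab1) ((hM.N q a b).1 hab2))
  · intro i q A hA a b ha hb hab1 hab2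
    rw [hM.P] at ha hb ⊢
    set N' : Om W X β → (Fin 3 → Option β) × (List υ × (γ × (Fin 3 → γ))) := fun u =>
      (YG (univ.erase i) u, NPo tb v q u) with hN'
    have f1 : Fac (XG D {i} (TP.nn q)) N' := fun x y hxy =>
      Prod.ext (YG_eq.2 fun j hj => (XG_eq.1 hxy).2.2.1 j fun hh => (Finset.mem_erase.1 hj).1 (Finset.mem_singleton.1 hh))
        (NPo_XG tb hv q {i} x y hxy)
    have f2 : Fac N' (AG D {i} (TP.nn q)) := fun x y hxy => NPo_AG tb q {i} x y (Prod.mk.inj hxy).2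
    have f3 : Fac (XG D {i} (TP.nn q)) (fun u => ind (A u)) := fun x y hxy => by
      show ind (A x) = ind (A y)
      rw [hA x y (hC q i x y hxy)]
    have f4 : ∀ w : Om W X β, tb.Ps.ce (AHR.UY M q) (fun u => ind (A u)) w =
        tb.Ps.ce (fun u => (N' u, YG {i} u)) (fun u => ind (A u)) w := fun w => by
      refine tb.Ps.ce_congr_map (fun x y hxy => ?_) (fun x y hxy => ?_) _ w
      · obtain ⟨h1, h2⟩ := (hUY q x y).1 hxy
        exact Prod.ext (Prod.ext (YG_eq.2 fun j _ => h1 j) h2) (YG_eq.2 fun j _ => h1 j)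
      · have h1 := YG_eq.1 (Prod.mk.inj (Prod.mk.inj hxy).1).1
        have h2 := (Prod.mk.inj (Prod.mk.inj hxy).1).2
        have h3 := YG_eq.1 (Prod.mk.inj hxy).2
        refine (hUY q x y).2 ⟨fun j => ?_, h2⟩
        by_cases hj : j = i
        · exact h3 j (by rw [hj]; exact Finset.mem_singleton_self i)
        · exact h1 j (Finset.mem_erase.2 ⟨hj, mem_univ j⟩)
    rw [f4, f4, forget tb f1 f2 f3 ha, forget tb f1 f2 f3 hb]
    exact tb.Ps.ce_fac N' _ a b (Prod.ext ((hPX i a b).1 hab1) ((hM.N q a b).1 hab2))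
  · intro i q f g hq _ hf hg w hw
    rw [hM.P] at hw ⊢
    have hn : TP.nn (q + 1) = TP.nn q := by
      obtain ⟨t, rfl⟩ : ∃ t, q = 5 * t + 1 := ⟨q / 5, by omega⟩
      rw [show 5 * t + 1 + 1 = 5 * t + 2 by ring, nn_add t 2 (by omega), nn_add t 1 (by omega)]
      rfl
    have hN2 : ∀ s (k : Om W X β → ℝ), tb.Ps.ce (M.NP s) k w = tb.Ps.ce (NPo tb v s) k w := fun s k =>
      tb.Ps.ce_congr_map (fun a b hab => (hM.N s a b).1 hab) (fun a b hab => (hM.N s a b).2 hab) k w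
    rw [hN2, hN2, hN2]
    refine md_gen tb hv hn (G := {i}) (fun a b hab => hf a b (Prod.ext (hC0 q i a b hab) ((hM.N (q + 1) a b).2 ?_)))
      (fun a b hab => hg a b (Prod.ext ((hM.Y i a b).2 ?_) ((hM.N q a b).2 (Prod.mk.inj hab).2))) hw
    · have h1 := NPo_XG tb hv (q + 1) {i}
      rw [hn] at h1
      exact h1 a b hab
    · exact YG_eq.1 (Prod.mk.inj hab).1 i (Finset.mem_singleton_self i)
  · intro i q f g hq _ hf hg w hw
    rw [hM.P] at hw ⊢
    have hn : TP.nn (q + 1) = TP.nn q := by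
      obtain ⟨t, rfl⟩ : ∃ t, q = 5 * t + 1 := ⟨q / 5, by omega⟩
      rw [show 5 * t + 1 + 1 = 5 * t + 2 by ring, nn_add t 2 (by omega), nn_add t 1 (by omega)]
      rfl
    have hN2 : ∀ s (k : Om W X β → ℝ), tb.Ps.ce (M.NP s) k w = tb.Ps.ce (NPo tb v s) k w := fun s k =>
      tb.Ps.ce_congr_map (fun a b hab => (hM.N s a b).1 hab) (fun a b hab => (hM.N s a b).2 hab) k w
    rw [hN2, hN2, hN2]
    refine md_gen tb hv hn (G := univ.erase i) (fun a b hab => hf a b (Prod.ext ?_ ((hM.N (q + 1) a b).2 ?_)))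
      (fun a b hab => hg a b (Prod.ext ((hPX i a b).2 (Prod.mk.inj hab).1) ((hM.N q a b).2 (Prod.mk.inj hab).2))) hw
    · exact (Prod.mk.inj (hX q i a b hab)).1
    · have h1 := NPo_XG tb hv (q + 1) (univ.erase i)
      rw [hn] at h1
      exact h1 a b hab

/-- **(E3)** `PtI` for the data of the moved part -/
theorem ptI_MSi (tb : Tab D prr T W) (hv : Codes D v) {d1 kb d0 k0 p1 z : ℝ} (hd1 : 0 < d1)
    (hd11 : d1 ≤ 1) (hkb : 0 < kb) (hd0 : 0 < d0) (hd01 : d0 ≤ 1) (hk0 : 0 < k0) (hp1 : 0 < p1) (hz : 0 < z) (T' : ℕ) :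
    PtI (MSi tb (v := v) d1 kb d0 k0 p1 z hd1 hd11 hkb hd0 hd01 hk0 hp1 hz) T' :=
  ptI_gen tb hv (RZ.rp_MSi tb v hd1 hd11 hkb hd0 hd01 hk0 hp1 hz) (fun _ _ _ _ => Iff.rfl) T'

end

end Pool.Agent.GMH.Sng
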