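import Pool.Agent.GMH.SngR
import Pool.Agent.GMH.SngP
import Pool.Agent.GMH.SngB
import Pool.Agent.GMH.TopAl
import Pool.Agent.GMH.TopPsi
import Pool.Agent.GMH.KDL3

/-!
# GMH/SngAl (helper61): alive tuples and strong singles of the run are those of the data `MSi` (row (E9b) of helper37's table)

* `ps_sgl` : the single of `SngDef` is the single of `SngB`; `sS_ps` : `sS` of the tops `FQ` at the true tuple is `eS ≤ |ps|`;
* `ssQ_lf` : the surprisal of a thin letter is `- lf ({j}, ∅)`; `spQ_sp_lf` : `- lf (univ.erase i, {i})` is the surprisal of the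
  pair and of the top;
* `alX_of` : alive in the sense of `AQ` gives `alX`, with `X1 + Lam`; `SA_of`, `SA_ofS`.
-/

set_option autoImplicit false
set_option linter.unusedSectionVars false

namespace Pool.Agent.GMH.Sng

open Finset Pool.Agent.PWZ Pool.Agent.M3 Pool.Agent.GM Pool.Agent.GM.Harm Pool.Agent.GMH Pool.Agent.GMH.NZ
open Pool.Agent.GMH.V3 Pool.Agent.GMH.TP Pool.Agent.GMH.TD Pool.Agent.GMH.Dy Pool.Agent.GMH.MV Pool.Agent.GMH.MVI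
open Pool.Agent.GMH.CK Pool.Agent.GMH.KF Pool.Agent.GMH.KFR Pool.Agent.GMH.KDL

noncomputable section

/-! ### the single -/

section abs

variable {Om : Type} [Fintype Om] {M : MS Om}

theorem lf_lt (S A : Finset (Fin 3)) (q : ℕ) {w : Om} (hw : M.P.p w ≠ 0) :
    lf M (S, A) q w - lf M (S, ∅) q w = lt M S A q w := (lt_pub hw S A q).symm

/-- the single of `SngDef` is the single of `SngB` -/
theorem ps_sgl (i : Fin 3) (q : ℕ) {w : Om} (hw : M.P.p w ≠ 0) : ps M i q w = SNB.sgl M i q w := by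
  unfold ps SNB.sgl
  rw [lf_lt univ {i} q hw, lf_lt (univ.erase i) {i} q hw]

end abs

/-! ### the run -/

variable {X β γ φ : Type} [Fintype X] [Fintype β] [Fintype φ] [Nonempty X] [Nonempty β]
variable {D : HD (Fin 3) X β γ φ} {al : ℝ} {h : D.Thick al} {N : Finset (Fin 3) → ℝ}
  {v : ℕ → Finset (Fin 3) → X → (Fin 3 → β) → Pt (Fin 3) X β φ}
variable {dg : ℕ → X → ℝ} {prr : ℕ → Fin 3 → φ → φ} {T : ℕ} {Lam : ℝ} {W : Type} [Fintype W] (tb : Tab D prr T W)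
variable {d1 kb d0 k0 p1 z : ℝ} (hd1 : 0 < d1) (hd11 : d1 ≤ 1) (hkb : 0 < kb) (hd0 : 0 < d0) (hd01 : d0 ≤ 1) (hk0 : 0 < k0)
  (hp1 : 0 < p1) (hz : 0 < z)

/-- **bad singles of the run are strong singles of the data** -/
theorem sS_ps {SS : Finset (Finset (Fin 3))} (H : D.Hyp dg prr al T Lam) (R : Run h N SS (AdmDep D) v)
    (hS : ∀ l, univ.erase l ∈ SS) (hu : univ ∉ SS) (hN : ∀ l, 0 < N (univ.erase l)) {q : ℕ} (hq : q / 5 ≤ T)
    {w : Om W X β} (hw : tb.Ps.p w ≠ 0) (c : KC) (i : Fin 3) :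
    sS (D.P h (q / 5)) (ZQ D v q) (ZbQ D v q) (FQ v (q / 5)) c i (tb.pt (q / 5) w)
        (tup (FQ v (q / 5)) (tb.pt (q / 5) w)) ↔
      c.eS ≤ |ps (MSi tb (v := v) d1 kb d0 k0 p1 z hd1 hd11 hkb hd0 hd01 hk0 hp1 hz) i q w| := by
  have h1 := sS_ms tb hd1 hd11 hkb hd0 hd01 hk0 hp1 hz H R hS hu hN hq hw c i
  have h2 := SNB.sS_iff (M := MSi tb (v := v) d1 kb d0 k0 p1 z hd1 hd11 hkb hd0 hd01 hk0 hp1 hz) c i q (w := w) hw
  have h3 := ps_sgl (M := MSi tb (v := v) d1 kb d0 k0 p1 z hd1 hd11 hkb hd0 hd01 hk0 hp1 hz) i q (w := w) hw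
  rw [h3]
  exact h1.trans h2

/-- what the top `i` sees -/
theorem Zb_of {i j k : Fin 3} (hij : j ≠ i) (hik : k ≠ i) (hjk : j ≠ k) {q : ℕ} {x y : Pt (Fin 3) X β φ} :
    ZbQ D v q i x = ZbQ D v q i y ↔ XLq v q j x = XLq v q j y ∧ XLq v q k x = XLq v q k y ∧ NPq D v q x = NPq D v q y := by
  have hmem : ∀ l : Fin 3, l ∈ univ.erase i ↔ l = j ∨ l = k := by
    intro l
    rw [Finset.mem_erase]
    have key : ∀ i j k l : Fin 3, j ≠ i → k ≠ i → j ≠ k → (l ≠ i ↔ l = j ∨ l = k) := by decide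
    have := key i j k l hij hik hjk
    exact ⟨fun hh => this.1 hh.1, fun hh => ⟨this.2 hh, mem_univ l⟩⟩
  have hs1 : ∀ l : Fin 3, l = j ∨ l = k → ({l} : Finset (Fin 3)) ⊂ univ.erase i := by
    have key : ∀ i j k : Fin 3, j ≠ i → k ≠ i → j ≠ k → ∀ l : Fin 3, (l = j ∨ l = k) →
      ({l} : Finset (Fin 3)) ⊂ univ.erase i := by decide
    exact key i j k hij hik hjk
  have hs0 : (∅ : Finset (Fin 3)) ⊂ univ.erase i := by
    have key : ∀ i : Fin 3, (∅ : Finset (Fin 3)) ⊂ univ.erase i := by decide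
    exact key i
  have hs2 : ∀ I : Finset (Fin 3), I ⊂ univ.erase i → I = ∅ ∨ I = {j} ∨ I = {k} := by
    have key : ∀ i j k : Fin 3, j ≠ i → k ≠ i → j ≠ k → ∀ I : Finset (Fin 3), I ⊂ univ.erase i →
      I = ∅ ∨ I = {j} ∨ I = {k} := by decide
    exact key i j k hij hik hjk
  have hSL : ∀ I : Finset (Fin 3), I.card ≤ 1 → (SL (φ := φ) v q I x = SL v q I y ↔
      Um v (nc q I) I x.1 x.2.1 = Um v (nc q I) I y.1 y.2.1) := by
    intro I hI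
    unfold SL
    rw [LL_eq]
    refine ⟨fun hh => hh.1, fun hh => ⟨hh, fun l hl => ?_⟩⟩
    exfalso
    rw [← hl, Finset.card_erase_of_mem (Finset.mem_univ l), Finset.card_univ, Fintype.card_fin] at hI
    omega
  have c0 : (∅ : Finset (Fin 3)).card ≤ 1 := by simp
  have c1 : ∀ l : Fin 3, ({l} : Finset (Fin 3)).card ≤ 1 := fun l => by simp
  unfold ZbQ XLq NPq
  rw [Prod.mk.injEq, lo_eq, BB_eq, XL_eq, XL_eq, NP_eq, V3.nd_eq]
  constructor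
  · rintro ⟨h1, h2, h3, h4⟩
    exact ⟨⟨h2 j ((hmem j).2 (Or.inl rfl)), (hSL {j} (c1 j)).1 (h1 {j} (hs1 j (Or.inl rfl)))⟩,
      ⟨h2 k ((hmem k).2 (Or.inr rfl)), (hSL {k} (c1 k)).1 (h1 {k} (hs1 k (Or.inr rfl)))⟩,
      (hSL ∅ c0).1 (h1 ∅ hs0), h3, h4⟩
  · rintro ⟨⟨h1, h2⟩, ⟨h3, h4⟩, h5, h6, h7⟩
    refine ⟨fun I hI => ?_, fun l hl => ?_, h6, h7⟩
    · rcases hs2 I hI with rfl | rfl | rfl
      · exact (hSL ∅ c0).2 h5
      · exact (hSL {j} (c1 j)).2 h2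
      · exact (hSL {k} (c1 k)).2 h4
    · rcases (hmem l).1 hl with rfl | rfl
      · exact h1
      · exact h3

/-- equal partitions on the support have equal masses -/
theorem m_supp {Om : Type*} [Fintype Om] (P : FP Om) {ζ ξ : Type*} {Z : Om → ζ} {Y : Om → ξ} {w : Om}
    (hZY : ∀ u, P.p u ≠ 0 → (Z u = Z w ↔ Y u = Y w)) : P.m Z w = P.m Y w :=
  P.E_congr fun u hu => congrArg ind (propext (hZY u hu))

/-- the surprisal of a thin letter -/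
theorem ssQ_lf (hv : Codes D v) {q : ℕ} (hq : q / 5 ≤ T) {w : Om W X β} (hw : tb.Ps.p w ≠ 0) (j : Fin 3) :
    ssQ h v q j (tb.pt (q / 5) w) = -lf (MSi tb (v := v) d1 kb d0 k0 p1 z hd1 hd11 hkb hd0 hd01 hk0 hp1 hz) ({j}, ∅) q w := by
  have hI := ptI_MSi tb hv hd1 hd11 hkb hd0 hd01 hk0 hp1 hz T
  have h1 := mD hI j q (w := w) hw
  have hp := pul_pt h tb hq
  have p1' := (MSi tb (v := v) d1 kb d0 k0 p1 z hd1 hd11 hkb hd0 hd01 hk0 hp1 hz).P.m_pos (fun u =>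
    ((MSi tb (v := v) d1 kb d0 k0 p1 z hd1 hd11 hkb hd0 hd01 hk0 hp1 hz).XL j q u,
      (MSi tb (v := v) d1 kb d0 k0 p1 z hd1 hd11 hkb hd0 hd01 hk0 hp1 hz).NP q u)) (w := w) hw
  have h2 := congrArg Real.log h1
  rw [Real.log_mul (Real.exp_pos _).ne' p1'.ne', Real.log_exp] at h2
  have e1 : (D.P h (q / 5)).m (fun u => (u.2.1 j, NPq D v q u)) (tb.pt (q / 5) w) =
      (MSi tb (v := v) d1 kb d0 k0 p1 z hd1 hd11 hkb hd0 hd01 hk0 hp1 hz).P.m (fun u =>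
        ((MSi tb (v := v) d1 kb d0 k0 p1 z hd1 hd11 hkb hd0 hd01 hk0 hp1 hz).YP j u,
        (MSi tb (v := v) d1 kb d0 k0 p1 z hd1 hd11 hkb hd0 hd01 hk0 hp1 hz).NP q u)) w :=
    (hp.m (fun u => (u.2.1 j, NPq D v q u)) w).symm
  have e2 : (D.P h (q / 5)).m (fun u => (XLq v q j u, (u.2.1 j, NPq D v q u))) (tb.pt (q / 5) w) =
      (MSi tb (v := v) d1 kb d0 k0 p1 z hd1 hd11 hkb hd0 hd01 hk0 hp1 hz).P.m (fun u =>
        ((MSi tb (v := v) d1 kb d0 k0 p1 z hd1 hd11 hkb hd0 hd01 hk0 hp1 hz).XL j q u,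
        (MSi tb (v := v) d1 kb d0 k0 p1 z hd1 hd11 hkb hd0 hd01 hk0 hp1 hz).NP q u)) w := by
    rw [← hp.m (fun u => (XLq v q j u, (u.2.1 j, NPq D v q u))) w]
    refine m_supp tb.Ps fun u _ => ⟨fun g => ?_, fun g => ?_⟩
    · have g1 := Prod.mk.inj g
      exact Prod.ext g1.1 (Prod.mk.inj g1.2).2
    · have g1 := Prod.mk.inj g
      have g0 : XLq v q j (tb.pt (q / 5) u) = XLq v q j (tb.pt (q / 5) w) := g1.1
      have g5 : (tb.pt (q / 5) u).2.1 j = (tb.pt (q / 5) w).2.1 j := congrArg Prod.fst g0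
      exact Prod.ext g0 (Prod.ext g5 g1.2)
  unfold ssQ sp
  rw [e1, e2, h2]
  ring

/-- the surprisal of a side with its top -/
theorem spQ_sp_lf (H : D.Hyp dg prr al T Lam) (R : Run h N (SS1 (Fin 3)) (AdmDep D) v)
    (hN : ∀ l : Fin 3, 0 < N (univ.erase l)) {q : ℕ} (hq : q / 5 ≤ T) {w : Om W X β} (hw : tb.Ps.p w ≠ 0) {i j k : Fin 3}
    (hij : j ≠ i) (hik : k ≠ i) (hjk : j ≠ k) :
    spQ h v q j k (tb.pt (q / 5) w) + sp (D.P h (q / 5)) (FQ v (q / 5) i) (ZbQ D v q i) (tb.pt (q / 5) w) =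
      -lf (MSi tb (v := v) d1 kb d0 k0 p1 z hd1 hd11 hkb hd0 hd01 hk0 hp1 hz) (univ.erase i, {i}) q w := by
  have hS : ∀ l : Fin 3, univ.erase l ∈ SS1 (Fin 3) := fun l => mem_SS1.2 (Finset.erase_ne_self.2 (mem_univ l))
  have hu : (univ : Finset (Fin 3)) ∉ SS1 (Fin 3) := fun hh => mem_SS1.1 hh rfl
  have hI := ptI_MSi tb R.codes hd1 hd11 hkb hd0 hd01 hk0 hp1 hz T
  have h1 := mC hI i q (w := w) hw
  have hp := pul_pt h tb hq
  have p1' := (MSi tb (v := v) d1 kb d0 k0 p1 z hd1 hd11 hkb hd0 hd01 hk0 hp1 hz).P.m_pos (fun u =>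
    (CX (MSi tb (v := v) d1 kb d0 k0 p1 z hd1 hd11 hkb hd0 hd01 hk0 hp1 hz) i q u,
      (MSi tb (v := v) d1 kb d0 k0 p1 z hd1 hd11 hkb hd0 hd01 hk0 hp1 hz).NP q u)) (w := w) hw
  have h2 := congrArg Real.log h1
  rw [Real.log_mul (Real.exp_pos _).ne' p1'.ne', Real.log_exp] at h2
  have hlk : ∀ l : Fin 3, l ≠ i → l = j ∨ l = k := by
    have key : ∀ i j k : Fin 3, j ≠ i → k ≠ i → j ≠ k → ∀ l : Fin 3, l ≠ i → l = j ∨ l = k := by decide
    exact key i j k hij hik hjk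
  -- the points of the side
  have e1 : (D.P h (q / 5)).m (fun u => (u.2.1 j, u.2.1 k, NPq D v q u)) (tb.pt (q / 5) w) =
      (MSi tb (v := v) d1 kb d0 k0 p1 z hd1 hd11 hkb hd0 hd01 hk0 hp1 hz).P.m (fun u =>
        (PX (MSi tb (v := v) d1 kb d0 k0 p1 z hd1 hd11 hkb hd0 hd01 hk0 hp1 hz) i u,
        (MSi tb (v := v) d1 kb d0 k0 p1 z hd1 hd11 hkb hd0 hd01 hk0 hp1 hz).NP q u)) w := by
    rw [← hp.m (fun u => (u.2.1 j, u.2.1 k, NPq D v q u)) w]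
    refine m_supp tb.Ps fun u _ => ⟨fun g => ?_, fun g => ?_⟩
    · have g1 := Prod.mk.inj g
      have g2 := Prod.mk.inj g1.2
      refine Prod.ext (PX_eq.2 fun l hl => ?_) g2.2
      rcases hlk l hl with rfl | rfl
      · exact g1.1
      · exact g2.1
    · have g1 := Prod.mk.inj g
      have g2 := PX_eq.1 g1.1
      exact Prod.ext (g2 j hij) (Prod.ext (g2 k hik) g1.2)
  -- the letters of the side
  have e2 : (D.P h (q / 5)).m (fun u => ((XLq v q j u, XLq v q k u), (u.2.1 j, u.2.1 k, NPq D v q u))) (tb.pt (q / 5) w) =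
      (D.P h (q / 5)).m (ZbQ D v q i) (tb.pt (q / 5) w) := by
    refine m_supp (D.P h (q / 5)) fun u _ => ⟨fun g => ?_, fun g => ?_⟩
    · have g1 := Prod.mk.inj g
      have g2 := Prod.mk.inj g1.1
      exact (Zb_of hij hik hjk).2 ⟨g2.1, g2.2, (Prod.mk.inj (Prod.mk.inj g1.2).2).2⟩
    · obtain ⟨g1, g2, g3⟩ := (Zb_of hij hik hjk).1 g
      have g4 : u.2.1 j = (tb.pt (q / 5) w).2.1 j := congrArg Prod.fst g1
      have g5 : u.2.1 k = (tb.pt (q / 5) w).2.1 k := congrArg Prod.fst g2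
      exact Prod.ext (Prod.ext g1 g2) (Prod.ext g4 (Prod.ext g5 g3))
  -- the side with its top
  have e3 : (D.P h (q / 5)).m (fun u => (FQ v (q / 5) i u, ZbQ D v q i u)) (tb.pt (q / 5) w) =
      (MSi tb (v := v) d1 kb d0 k0 p1 z hd1 hd11 hkb hd0 hd01 hk0 hp1 hz).P.m (fun u =>
        (CX (MSi tb (v := v) d1 kb d0 k0 p1 z hd1 hd11 hkb hd0 hd01 hk0 hp1 hz) i q u,
        (MSi tb (v := v) d1 kb d0 k0 p1 z hd1 hd11 hkb hd0 hd01 hk0 hp1 hz).NP q u)) w := by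
    rw [← hp.m (fun u => (FQ v (q / 5) i u, ZbQ D v q i u)) w]
    refine m_supp tb.Ps fun u hu' => ⟨fun g => ?_, fun g => ?_⟩
    · have g1 := Prod.mk.inj g
      have g3 := (Zb_of hij hik hjk).1 g1.2
      refine Prod.ext (CX_eq.2 ⟨fun l hl => ?_, (FQ_TF tb H R hS hu hN hq i hu' hw g1.2).2 g1.1⟩) g3.2.2
      rcases hlk l hl with rfl | rfl
      · exact g3.1
      · exact g3.2.1
    · have g1 := Prod.mk.inj g
      have g2 := CX_eq.1 g1.1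
      have g4 : ZbQ D v q i (tb.pt (q / 5) u) = ZbQ D v q i (tb.pt (q / 5) w) :=
        (Zb_of hij hik hjk).2 ⟨g2.1 j hij, g2.1 k hik, g1.2⟩
      exact Prod.ext ((FQ_TF tb H R hS hu hN hq i hu' hw g4).1 g2.2) g4
  unfold spQ sp
  rw [e1, e2, e3, h2]
  ring

/-- **alive in the sense of `AQ`** -/
theorem alX_of (H : D.Hyp dg prr al T Lam) (R : Run h N (SS1 (Fin 3)) (AdmDep D) v)
    (hN : ∀ l : Fin 3, 0 < N (univ.erase l)) {q : ℕ} (hq : q / 5 ≤ T) {w : Om W X β} (hw : tb.Ps.p w ≠ 0) {p : AP}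
    (hp : p.X0 ≤ p.X1) (ha : AQ h v p q (tb.pt (q / 5) w)) (i : Fin 3) :
    alX (MSi tb (v := v) d1 kb d0 k0 p1 z hd1 hd11 hkb hd0 hd01 hk0 hp1 hz) (p.X1 + Lam) i q w := by
  have hL := H.Lam1
  refine ⟨fun j => ?_, ?_⟩
  · have h1 := ssQ_lf (h := h) tb hd1 hd11 hkb hd0 hd01 hk0 hp1 hz R.codes hq hw j
    have h2 := ha.1 j
    linarith
  · obtain ⟨j, k, hij, hik, hjk⟩ : ∃ j k : Fin 3, j ≠ i ∧ k ≠ i ∧ j ≠ k := by
      revert i
      decide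
    have h1 := spQ_sp_lf (h := h) tb hd1 hd11 hkb hd0 hd01 hk0 hp1 hz H R hN hq hw hij hik hjk
    have h2 := ha.2 j k hjk
    have h3 := spF_le H R hN hq (Nat.mul_div_le q 5) i ((pul_pt h tb hq).ne hw)
    linarith

/-- strong alive single of the data from the run -/
theorem SA_of (H : D.Hyp dg prr al T Lam) (R : Run h N (SS1 (Fin 3)) (AdmDep D) v)
    (hN : ∀ l : Fin 3, 0 < N (univ.erase l)) {q : ℕ} (hq : q / 5 ≤ T) {w : Om W X β} (hw : tb.Ps.p w ≠ 0) {p : AP}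
    (hp : p.X0 ≤ p.X1) (ha : AQ h v p q (tb.pt (q / 5) w)) {X1 e : ℝ} (hX : p.X1 + Lam ≤ X1) (i : Fin 3)
    (hs : e ≤ |ps (MSi tb (v := v) d1 kb d0 k0 p1 z hd1 hd11 hkb hd0 hd01 hk0 hp1 hz) i q w|) :
    SA (MSi tb (v := v) d1 kb d0 k0 p1 z hd1 hd11 hkb hd0 hd01 hk0 hp1 hz) X1 e i q w := by
  have h1 := alX_of (h := h) tb hd1 hd11 hkb hd0 hd01 hk0 hp1 hz H R hN hq hw hp ha i
  exact ⟨hs, fun j => (neg_le_neg hX).trans (h1.1 j), (neg_le_neg hX).trans h1.2⟩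

/-- the same with `sS` of the tops `FQ` at the true tuple -/
theorem SA_ofS (H : D.Hyp dg prr al T Lam) (R : Run h N (SS1 (Fin 3)) (AdmDep D) v)
    (hN : ∀ l : Fin 3, 0 < N (univ.erase l)) {q : ℕ} (hq : q / 5 ≤ T) {w : Om W X β} (hw : tb.Ps.p w ≠ 0) {p : AP}
    (hp : p.X0 ≤ p.X1) (ha : AQ h v p q (tb.pt (q / 5) w)) {X1 e : ℝ} (hX : p.X1 + Lam ≤ X1) (c : KC) (he : e ≤ c.eS)
    (i : Fin 3) (hs : sS (D.P h (q / 5)) (ZQ D v q) (ZbQ D v q) (FQ v (q / 5)) c i (tb.pt (q / 5) w)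
        (tup (FQ v (q / 5)) (tb.pt (q / 5) w))) :
    SA (MSi tb (v := v) d1 kb d0 k0 p1 z hd1 hd11 hkb hd0 hd01 hk0 hp1 hz) X1 e i q w :=
  SA_of tb hd1 hd11 hkb hd0 hd01 hk0 hp1 hz H R hN hq hw hp ha hX i
    (he.trans ((sS_ps tb hd1 hd11 hkb hd0 hd01 hk0 hp1 hz H R
      (fun l => mem_SS1.2 (Finset.erase_ne_self.2 (mem_univ l))) (fun hh => mem_SS1.1 hh rfl) hN hq hw c i).1 hs))

end

end Pool.Agent.GMH.Sng
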