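import Pool.Agent.GMH.TabF
import Pool.Agent.GMH.RestM

/-!
# GMH/SngC1 (helper73): ONE PUBLIC EPOCH ON THE TABLE SPACE, TWO SIDED COVERS (kind S, block (C))

`(G, S')` and `(F, S)` complementary groups of points and tables (`Cp`), `Hr` a static relation (any property of the point of
the table space), start event `S0` seen by the hidden point and the cells of the level `n`, `σ` a stopping time of the cells
`sgt D ∅ (tm s)`, `g s` a weight which sees the node and the group `(G, S')`.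

World of `w` = `tb.Wl n w` (hidden point and cells of the level `n`).  Samples = points of the table space, `pj w0 G S'` is the
part which is read.  `rowT F S Hr us` = the rows, `PhT` = the potential in the world of `w`, `wtT` = weight of a sample.
* `epoch_tab` : one epoch; `epoch_sym` : the same with the roles named.
-/

set_option autoImplicit false
set_option linter.unusedSectionVars false

namespace Pool.Agent.GMH.SngC

open Finset Pool.Agent.PWZ Pool.Agent.M3 Pool.Agent.GM Pool.Agent.GM.Harm Pool.Agent.GMH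
open Pool.Agent.GMH.Gdy Pool.Agent.GMH.Dy Pool.Agent.GMH.TabF

noncomputable section

variable {X β γ φ : Type} [Fintype X] [Fintype β] [Fintype φ] [Nonempty X] [Nonempty β]
variable {D : HD (Fin 3) X β γ φ} {al : ℝ} {prr : ℕ → Fin 3 → φ → φ} {T : ℕ} {W : Type} [Fintype W]

/-- complementary groups of points and tables -/
structure Cp (G S' F S : Finset (Fin 3)) : Prop where
  gf : G ∩ F ⊆ ∅
  gu : G ∪ F = univ
  sf : S' ∩ S ⊆ ∅
  su : S' ∪ S = univ

theorem Cp.swap {G S' F S : Finset (Fin 3)} (h : Cp G S' F S) : Cp F S G S' :=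
  ⟨by rw [Finset.inter_comm]; exact h.gf, by rw [Finset.union_comm]; exact h.gu,
    by rw [Finset.inter_comm]; exact h.sf, by rw [Finset.union_comm]; exact h.su⟩

/-- the relation between the part `(G, S')` of `a` and the part `(F, S)` of `b` -/
def RT (F S : Finset (Fin 3)) (Hr : Om W X β → Prop) (a b : Om W X β) : Prop := Hr (mx F S b a)

theorem RT_pj (w0 : Om W X β) {G S' F S : Finset (Fin 3)} (hc : Cp G S' F S) (Hr : Om W X β → Prop) (w : Om W X β) :
    RT F S Hr (pj w0 G S' w) (pj w0 F S w) ↔ Hr w := by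
  unfold RT
  have e : mx F S (pj w0 F S w) (pj w0 G S' w) = w := by
    unfold mx pj
    refine Prod.ext rfl (Prod.ext (funext fun i => ?_) (funext fun j => ?_))
    · show (if i ∈ S then (if i ∈ S then w.2.1 i else w0.2.1 i) else if i ∈ S' then w.2.1 i else w0.2.1 i) = w.2.1 i
      by_cases h : i ∈ S
      · rw [if_pos h, if_pos h]
      · rw [if_neg h, if_pos ((Finset.mem_union.1 (hc.su ▸ mem_univ i)).resolve_right h)]
    · show (if j ∈ F then (if j ∈ F then w.2.2 j else w0.2.2 j) else if j ∈ G then w.2.2 j else w0.2.2 j) = w.2.2 j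
      by_cases h : j ∈ F
      · rw [if_pos h, if_pos h]
      · rw [if_neg h, if_pos ((Finset.mem_union.1 (hc.gu ▸ mem_univ j)).resolve_right h)]
  rw [e]

/-- the rows of a sample `us` of the group `(G, S')`, as sets of the part `(F, S)` -/
def rwT (w0 : Om W X β) (F S : Finset (Fin 3)) (R : Om W X β → Om W X β → Prop) {M : ℕ} (us : Fin M → Om W X β) :
    ℕ → Om W X β → Prop := rows (row (pj w0 F S) R) us

variable (tb : Tab D prr T W)

/-- the potential of the cover of the group `(F, S)` by the rows of a sample of the other group, in the world of `w` -/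
def PhT (w0 : Om W X β) (n : ℕ) (tm : ℕ → ℕ) (F S : Finset (Fin 3)) (R : Om W X β → Om W X β → Prop) (x : ℝ) {M : ℕ}
    (us : Fin M → Om W X β) (s : ℕ) (w : Om W X β) : ℝ :=
  Gdy.Phi (tb.Wl n w) (fun t => si D ∅ F ∅ (tm t)) x (rwT w0 F S R us) M s w

/-- weight of a sample of the group `(G, S')` in the world of `w` -/
def wtT (w0 : Om W X β) (n : ℕ) (G S' : Finset (Fin 3)) {M : ℕ} (us : Fin M → Om W X β) (w : Om W X β) : ℝ :=
  sw (fun a => (tb.Wl n w).Pr fun y => pj w0 G S' y = a) us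

variable {tb}

theorem wtT_nonneg {w0 : Om W X β} {n : ℕ} {G S' : Finset (Fin 3)} {M : ℕ} (us : Fin M → Om W X β) (w : Om W X β) :
    0 ≤ wtT tb w0 n G S' us w := sw_nonneg (fun _ => FP.Pr_nonneg _ _) us

theorem wtT_sum (w0 : Om W X β) (n : ℕ) (G S' : Finset (Fin 3)) (M : ℕ) (w : Om W X β) :
    ∑ us : Fin M → Om W X β, wtT tb w0 n G S' us w = 1 :=
  sw_sum (Gdy.sum_law (P := tb.Wl n w) fun y => pj w0 G S' y) M

theorem Wl_cll {n : ℕ} {w w' : Om W X β} (e : cll D n w = cll D n w') : tb.Wl n w = tb.Wl n w' := by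
  unfold Tab.Wl
  rw [e]

theorem Wl_pos {n : ℕ} {w z : Om W X β} (h : (tb.Wl n z).p w ≠ 0) : cll D n w = cll D n z := ((Wl_supp tb).1 h).2

/-- the mass of the node in a world is the product of the masses of the cells of the two groups -/
theorem m_split {n : ℕ} (F : Finset (Fin 3)) (m : ℕ) (z w : Om W X β) :
    (tb.Wl n z).m (sgt D ∅ m) w = (tb.Wl n z).m (si D ∅ F ∅ m) w * (tb.Wl n z).m (si D ∅ Fᶜ ∅ m) w := by
  set P := tb.Wl n z with hP
  have hw : Wd D P ∅ n := wo_Wl tb n z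
  have hI : P.Indep (si (W := W) (X := X) D F ∅ ∅ m) (si D Fᶜ ∅ ∅ m) :=
    si_indep hw (by rw [Finset.inter_compl]) (by simp) m m
  have h1 : Fac (si (W := W) (X := X) D F ∅ ∅ m) (si D ∅ F ∅ m) :=
    si_fac (Finset.empty_subset _) (fun j hj => Or.inl hj) (Finset.Subset.refl _)
  have h2 : Fac (si (W := W) (X := X) D Fᶜ ∅ ∅ m) (si D ∅ Fᶜ ∅ m) :=
    si_fac (Finset.empty_subset _) (fun j hj => Or.inl hj) (Finset.Subset.refl _)
  have h3 := hI (fun v => ind (si D ∅ F ∅ m v = si D ∅ F ∅ m w)) (fun v => ind (si D ∅ Fᶜ ∅ m v = si D ∅ Fᶜ ∅ m w))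
    (Fac.ind fun v v' e => by rw [h1 v v' e]) (Fac.ind fun v v' e => by rw [h2 v v' e])
  unfold FP.m
  rw [← h3]
  refine P.E_congr fun v _ => ?_
  rw [← ind_and]
  congr 1
  rw [sgt_eq, si_eq, si_eq]
  refine propext ⟨fun e => ⟨⟨e.1, by simp, by simp, fun j _ => e.2.2 j⟩, e.1, by simp, by simp, fun j _ => e.2.2 j⟩,
    fun e => ⟨e.1.1, by simp, fun j => ?_⟩⟩
  by_cases hj : j ∈ F
  · exact e.1.2.2.2 j hj
  · exact e.2.2.2.2 j (Finset.mem_compl.2 hj)

/-- the masses of the sights of a group, one time -/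
theorem half_si {dg : ℕ → X → ℝ} {Lam : ℝ} (H : D.Hyp dg prr al T Lam) {n : ℕ} (F : Finset (Fin 3)) {m m' : ℕ}
    (hm : m' = m ∨ (m' = m + 1 ∧ m < T)) {z w : Om W X β} (hw : (tb.Wl n z).p w ≠ 0) :
    (tb.Wl n z).m (si D ∅ F ∅ m) w ≤ 8 * (tb.Wl n z).m (si D ∅ F ∅ m') w := by
  have p0 : ∀ (K : Finset (Fin 3)) (k : ℕ), 0 < (tb.Wl n z).m (si D ∅ K ∅ k) w := fun K k => (tb.Wl n z).m_pos _ hw
  rcases hm with h | ⟨h, hT⟩
  · rw [h]
    have := p0 F m
    linarith
  · rw [h]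
    have h1 : (tb.Wl n z).m (sgt D ∅ m) w ≤ 8 * (tb.Wl n z).m (sgt D ∅ (m + 1)) w := by
      rw [Wl_eq]
      exact WE_half tb H hT (by rw [← Wl_eq]; exact hw)
    rw [m_split F m z w, m_split F (m + 1) z w] at h1
    have h2 : (tb.Wl n z).m (si D ∅ Fᶜ ∅ (m + 1)) w ≤ (tb.Wl n z).m (si D ∅ Fᶜ ∅ m) w :=
      (tb.Wl n z).m_anti (si_fac (Finset.Subset.refl _) (fun j hj => Or.inr ⟨hj, Nat.le_succ m⟩)
        (Finset.Subset.refl _)) w
    have a := p0 F m
    have b := p0 F (m + 1)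
    have c := p0 Fᶜ m
    have d := p0 Fᶜ (m + 1)
    have h3 : 8 * ((tb.Wl n z).m (si D ∅ F ∅ (m + 1)) w * (tb.Wl n z).m (si D ∅ Fᶜ ∅ (m + 1)) w) ≤
        8 * ((tb.Wl n z).m (si D ∅ F ∅ (m + 1)) w * (tb.Wl n z).m (si D ∅ Fᶜ ∅ m) w) := by
      have := mul_le_mul_of_nonneg_left h2 b.le
      linarith
    have h4 : (tb.Wl n z).m (si D ∅ F ∅ m) w * (tb.Wl n z).m (si D ∅ Fᶜ ∅ m) w ≤
        8 * (tb.Wl n z).m (si D ∅ F ∅ (m + 1)) w * (tb.Wl n z).m (si D ∅ Fᶜ ∅ m) w := by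
      linarith
    exact le_of_mul_le_mul_right h4 c

/-- **ONE EPOCH, ONE WORLD** -/
theorem epoch_wt {dg : ℕ → X → ℝ} {Lam : ℝ} (H : D.Hyp dg prr al T Lam) (w0 : Om W X β) {G S' F S : Finset (Fin 3)}
    (hc : Cp G S' F S) {n : ℕ} {tm : ℕ → ℕ} (ht : ∀ s, tm (s + 1) = tm s ∨ (tm (s + 1) = tm s + 1 ∧ tm s < T))
    (Hr : Om W X β → Prop) {σ : Om W X β → ℕ} (hσ : Stp (fun s => sgt D ∅ (tm s)) σ) {T' : ℕ} (hT : ∀ w, σ w < T')
    {g : ℕ → Om W X β → ℝ} (hg : ∀ s, Fac (si D G univ S' (tm s)) (g s)) (hg0 : ∀ s w, 0 ≤ g s w)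
    (hg1 : ∀ s w, g s w ≤ 1) {x : ℝ} (hx : 0 < x) (M : ℕ) (z : Om W X β) :
    (tb.Wl n z).E (fun w => ind (Hr w) * g (σ w) w) ≤
      x / 2 * (tb.Wl n z).E (fun w => g (σ w) w) +
      (tb.Wl n z).E (fun w => ∑ us : Fin M → Om W X β, wtT tb w0 n G S' us w *
        (8 * x * PhT tb w0 n tm F S (RT F S Hr) x us (σ w) w + ind (0 < PhT tb w0 n tm F S (RT F S Hr) x us 0 w))) +
      (tb.Wl n z).E (fun w => ∑ us : Fin M → Om W X β, wtT tb w0 n F S us w *
        (8 * x * PhT tb w0 n tm G S' (fun b a => RT F S Hr a b) x us (σ w) w +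
          ind (0 < PhT tb w0 n tm G S' (fun b a => RT F S Hr a b) x us 0 w))) +
      6 / (x * (M + 1)) := by
  classical
  set P := tb.Wl n z with hP
  have hw : Wd D P ∅ n := wo_Wl tb n z
  have hI : P.Indep (pj w0 G S') (pj w0 F S) :=
    (si_indep hw (E1 := G) (E2 := F) hc.gf hc.sf 0 0).mono (pj_fac w0 _ _ 0) (pj_fac w0 _ _ 0)
  have hU : ∀ s, Fac (pj w0 G S') (si (W := W) (X := X) D ∅ G ∅ (tm s)) := fun s =>
    fac_pj' w0 (Finset.empty_subset _) (Finset.Subset.refl _) (Finset.empty_subset _)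
  have hV : ∀ s, Fac (pj w0 F S) (si (W := W) (X := X) D ∅ F ∅ (tm s)) := fun s =>
    fac_pj' w0 (Finset.empty_subset _) (Finset.Subset.refl _) (Finset.empty_subset _)
  have htm : ∀ s, tm s ≤ tm (s + 1) := fun s => by
    rcases ht s with h | h
    · exact h.ge
    · omega
  have fF : ∀ K : Finset (Fin 3), Filt (fun s => si (W := W) (X := X) D ∅ K ∅ (tm s)) := fun K s =>
    si_fac (Finset.Subset.refl _) (fun j hj => Or.inr ⟨hj, htm s⟩) (Finset.Subset.refl _)
  have hnd : ∀ s v w, pair (fun s => si (W := W) (X := X) D ∅ G ∅ (tm s)) (fun s => si D ∅ F ∅ (tm s)) s v =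
      pair (fun s => si (W := W) (X := X) D ∅ G ∅ (tm s)) (fun s => si D ∅ F ∅ (tm s)) s w →
      sgt D ∅ (tm s) v = sgt D ∅ (tm s) w := by
    intro s v w e
    obtain ⟨e1, e2⟩ := Prod.mk.inj e
    rw [si_eq] at e1 e2
    rw [sgt_eq]
    refine ⟨e1.1, fun j hj => absurd hj (Finset.notMem_empty j), fun j => ?_⟩
    rcases Finset.mem_union.1 (show j ∈ G ∪ F from hc.gu ▸ mem_univ j) with hj | hj
    · exact e1.2.2.2 j hj
    · exact e2.2.2.2 j hj
  have hσ' : Stp (pair (fun s => si (W := W) (X := X) D ∅ G ∅ (tm s)) (fun s => si D ∅ F ∅ (tm s))) σ :=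
    fun s v w e => hσ s v w (hnd s v w e)
  have hg' : ∀ s, Fac (fun w => (pair (fun s => si (W := W) (X := X) D ∅ G ∅ (tm s)) (fun s => si D ∅ F ∅ (tm s)) s w,
      pj w0 G S' w)) (g s) := by
    intro s v w e
    obtain ⟨e1, e2⟩ := Prod.mk.inj e
    have e3 := sgt_eq.1 (hnd s v w e1)
    have e4 := pj_eq.1 e2
    exact hg s v w (si_eq.2 ⟨e3.1, e4.2.1, e4.2.2, fun j _ => e3.2.2 j⟩)
  have main := world_le (P := P) (U := pj w0 G S') (V := pj w0 F S) (R := RT F S Hr)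
    (cU := fun s => si (W := W) (X := X) D ∅ G ∅ (tm s)) (cV := fun s => si (W := W) (X := X) D ∅ F ∅ (tm s))
    hI hU hV (fF G) (fF F) hx (h := 8) (by norm_num) (fun s w hw => half_si H G (ht s) hw)
    (fun s w hw => half_si H F (ht s) hw) hσ' hT hg' hg0 hg1 M
  have e1 : P.E (fun w => ind (RT F S Hr (pj w0 G S' w) (pj w0 F S w)) * g (σ w) w) =
      P.E (fun w => ind (Hr w) * g (σ w) w) := P.E_congr fun w _ => by rw [propext (RT_pj w0 hc Hr w)]
  have hworld : ∀ w, P.p w ≠ 0 → tb.Wl n w = P := fun w hw => Wl_cll (Wl_pos hw)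
  have e3 : ∑ us : Fin M → Om W X β, sw (fun a => P.Pr (fun w => pj w0 G S' w = a)) us *
        (8 * x * P.E (fun w => Gdy.Phi P (fun s => si D ∅ F ∅ (tm s)) x (rows (row (pj w0 F S) (RT F S Hr)) us) M (σ w) w) +
          P.Pr (fun w => 0 < Gdy.Phi P (fun s => si D ∅ F ∅ (tm s)) x (rows (row (pj w0 F S) (RT F S Hr)) us) M 0 w)) =
      P.E (fun w => ∑ us : Fin M → Om W X β, wtT tb w0 n G S' us w *
        (8 * x * PhT tb w0 n tm F S (RT F S Hr) x us (σ w) w +
          ind (0 < PhT tb w0 n tm F S (RT F S Hr) x us 0 w))) := by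
    rw [P.E_sum]
    refine Finset.sum_congr rfl fun us _ => ?_
    unfold FP.Pr
    rw [← P.E_smul, ← P.E_add, ← P.E_smul]
    refine P.E_congr fun u hu => ?_
    unfold wtT PhT
    rw [hworld u hu]
    rfl
  have e4 : ∑ us : Fin M → Om W X β, sw (fun a => P.Pr (fun w => pj w0 F S w = a)) us *
        (8 * x * P.E (fun w => Gdy.Phi P (fun s => si D ∅ G ∅ (tm s)) x
            (rows (row (pj w0 G S') (fun b a => RT F S Hr a b)) us) M (σ w) w) +
          P.Pr (fun w => 0 < Gdy.Phi P (fun s => si D ∅ G ∅ (tm s)) x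
            (rows (row (pj w0 G S') (fun b a => RT F S Hr a b)) us) M 0 w)) =
      P.E (fun w => ∑ us : Fin M → Om W X β, wtT tb w0 n F S us w *
        (8 * x * PhT tb w0 n tm G S' (fun b a => RT F S Hr a b) x us (σ w) w +
          ind (0 < PhT tb w0 n tm G S' (fun b a => RT F S Hr a b) x us 0 w))) := by
    rw [P.E_sum]
    refine Finset.sum_congr rfl fun us _ => ?_
    unfold FP.Pr
    rw [← P.E_smul, ← P.E_add, ← P.E_smul]
    refine P.E_congr fun u hu => ?_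
    unfold wtT PhT
    rw [hworld u hu]
    rfl
  rw [e1, e3, e4] at main
  exact main

/-- **ONE EPOCH** -/
theorem epoch_tab {dg : ℕ → X → ℝ} {Lam : ℝ} (H : D.Hyp dg prr al T Lam) (w0 : Om W X β) {G S' F S : Finset (Fin 3)}
    (hc : Cp G S' F S) {n : ℕ} {tm : ℕ → ℕ} (ht : ∀ s, tm (s + 1) = tm s ∨ (tm (s + 1) = tm s + 1 ∧ tm s < T))
    (Hr S0 : Om W X β → Prop) (hS : ∀ v w, cll D n v = cll D n w → (S0 v ↔ S0 w))
    {σ : Om W X β → ℕ} (hσ : Stp (fun s => sgt D ∅ (tm s)) σ) {T' : ℕ} (hT : ∀ w, σ w < T')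
    {g : ℕ → Om W X β → ℝ} (hg : ∀ s, Fac (si D G univ S' (tm s)) (g s)) (hg0 : ∀ s w, 0 ≤ g s w)
    (hg1 : ∀ s w, g s w ≤ 1) {x : ℝ} (hx : 0 < x) (M : ℕ) :
    tb.Ps.E (fun w => ind (S0 w) * (ind (Hr w) * g (σ w) w)) ≤
      x / 2 * tb.Ps.E (fun w => ind (S0 w) * g (σ w) w) +
      tb.Ps.E (fun w => ind (S0 w) * ∑ us : Fin M → Om W X β, wtT tb w0 n G S' us w *
        (8 * x * PhT tb w0 n tm F S (RT F S Hr) x us (σ w) w + ind (0 < PhT tb w0 n tm F S (RT F S Hr) x us 0 w))) +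
      tb.Ps.E (fun w => ind (S0 w) * ∑ us : Fin M → Om W X β, wtT tb w0 n F S us w *
        (8 * x * PhT tb w0 n tm G S' (fun b a => RT F S Hr a b) x us (σ w) w +
          ind (0 < PhT tb w0 n tm G S' (fun b a => RT F S Hr a b) x us 0 w))) +
      6 / (x * (M + 1)) * tb.Ps.Pr S0 := by
  classical
  have hSf : Fac (cll D n) (fun w => ind (S0 w)) := Fac.ind hS
  have key : ∀ f : Om W X β → ℝ, tb.Ps.E (fun w => ind (S0 w) * f w) =
      tb.Ps.E (fun w => ind (S0 w) * (tb.Wl n w).E f) := by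
    intro f
    rw [← tb.Ps.E_mul_ce hSf f]
    refine tb.Ps.E_congr fun w hw => ?_
    rw [tb.Ps.ce_eq_cond (cll D n) f hw]
    rfl
  unfold FP.Pr
  rw [key (fun w => ind (Hr w) * g (σ w) w), key (fun w => g (σ w) w),
    key (fun w => ∑ us : Fin M → Om W X β, wtT tb w0 n G S' us w *
        (8 * x * PhT tb w0 n tm F S (RT F S Hr) x us (σ w) w + ind (0 < PhT tb w0 n tm F S (RT F S Hr) x us 0 w))),
    key (fun w => ∑ us : Fin M → Om W X β, wtT tb w0 n F S us w *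
        (8 * x * PhT tb w0 n tm G S' (fun b a => RT F S Hr a b) x us (σ w) w +
          ind (0 < PhT tb w0 n tm G S' (fun b a => RT F S Hr a b) x us 0 w))),
    ← FP.E_smul, ← FP.E_smul, ← FP.E_add, ← FP.E_add, ← FP.E_add]
  refine tb.Ps.E_mono fun w _ => ?_
  have h2 := epoch_wt (tb := tb) (n := n) H w0 hc ht Hr hσ hT hg hg0 hg1 hx M w
  have h3 := mul_le_mul_of_nonneg_left h2 (ind_nonneg (S0 w))
  refine h3.trans (le_of_eq ?_)
  ring

end

end Pool.Agent.GMH.SngC
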