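import Pool.Agent.GMH.SngC1
import Pool.Agent.GMH.MV5

/-!
# GMH/SngC2 (helper73): THE EPOCHS OF A RUN ON THE TABLE SPACE (kind S, block (C))

Any clock `C` (`stg C s` = start of the epoch of the state `s`, seen by `sgt D ∅ (lv s)`), states `s ≤ T'`, levels `lv`.
* `ln ν` : number of the steps of the epoch which starts at `ν`; `ln_iff` : end steps; `sum_ep` : a sum over the end steps
  as a sum over the starts;
* `PhE ν q` : potential at the state `q` of the cover of the epoch `ν`;
* **`epochs_tab`** : `Σ E 1_(En s) 1_(R (stg s)) gs s ≤ x/2 Σ E 1_(En s) gs s + potentials at the ends and at the starts`.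
-/

set_option autoImplicit false
set_option linter.unusedSectionVars false

namespace Pool.Agent.GMH.SngC

open Finset Pool.Agent.PWZ Pool.Agent.M3 Pool.Agent.GM Pool.Agent.GM.Harm Pool.Agent.GMH
open Pool.Agent.GMH.Gdy Pool.Agent.GMH.Dy Pool.Agent.GMH.TabF Pool.Agent.GMH.CK
open Pool.Agent.GMH.Str (En)

noncomputable section

/-! ## the length of an epoch -/

section len

variable {Om : Type*} {C : ℕ → ℕ → Om → Prop} {T' ν : ℕ}

theorem ln_ex (C : ℕ → ℕ → Om → Prop) (T' ν : ℕ) (w : Om) :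
    ∃ k, 1 ≤ k ∧ (stg C (ν + k) w = ν + k ∨ T' ≤ ν + k) := ⟨T' + 1, by omega, Or.inr (by omega)⟩

open Classical in
/-- number of the steps of the epoch which starts at `ν` -/
def ln (C : ℕ → ℕ → Om → Prop) (T' ν : ℕ) (w : Om) : ℕ := Nat.find (ln_ex C T' ν w)

theorem ln_spec (w : Om) : 1 ≤ ln C T' ν w ∧ (stg C (ν + ln C T' ν w) w = ν + ln C T' ν w ∨ T' ≤ ν + ln C T' ν w) := by
  classical
  exact Nat.find_spec (ln_ex C T' ν w)

theorem ln_min {w : Om} {k : ℕ} (h1 : 1 ≤ k) (h2 : stg C (ν + k) w = ν + k ∨ T' ≤ ν + k) : ln C T' ν w ≤ k := by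
  classical
  exact Nat.find_min' (ln_ex C T' ν w) ⟨h1, h2⟩

theorem ln_cap (hν : ν < T') (w : Om) : ν + ln C T' ν w ≤ T' := by
  have := ln_min (C := C) (T' := T') (ν := ν) (w := w) (k := T' - ν) (by omega) (Or.inr (by omega))
  omega

theorem ln_le_iff {w : Om} {k : ℕ} : ln C T' ν w ≤ k ↔ ∃ k' ≤ k, 1 ≤ k' ∧ (stg C (ν + k') w = ν + k' ∨ T' ≤ ν + k') :=
  ⟨fun h => ⟨_, h, (ln_spec w).1, (ln_spec w).2⟩, fun ⟨_, h1, h2, h3⟩ => (ln_min h2 h3).trans h1⟩

/-- inside the epoch the clock does not move -/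
theorem ln_mid {w : Om} (h : stg C ν w = ν) {k : ℕ} (hk : k < ln C T' ν w) : stg C (ν + k) w = ν := by
  induction k with
  | zero => exact h
  | succ k ih =>
    have h1 := ih (by omega)
    rcases stg_or (C := C) (ν + k) w with h2 | h2
    · have h3 := ln_min (C := C) (T' := T') (ν := ν) (w := w) (k := k + 1) (by omega) (Or.inl (by rw [← Nat.add_assoc]; exact h2))
      omega
    · rw [← Nat.add_assoc, h2]
      exact h1

/-- the end step of the epoch -/
theorem ln_iff (_hν : ν < T') {s : ℕ} (hs : s < T') {w : Om} :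
    (stg C ν w = ν ∧ s + 1 = ν + ln C T' ν w) ↔ (En C T' s w ∧ stg C s w = ν) := by
  constructor
  · rintro ⟨h1, h2⟩
    obtain ⟨h3, h4⟩ := ln_spec (C := C) (T' := T') (ν := ν) w
    refine ⟨?_, ?_⟩
    · rw [← h2] at h4
      rcases h4 with h4 | h4
      · exact Or.inl h4
      · exact Or.inr (by omega)
    · have h5 := ln_mid (T' := T') h1 (k := ln C T' ν w - 1) (by omega)
      have e : ν + (ln C T' ν w - 1) = s := by omega
      rw [e] at h5
      exact h5
  · rintro ⟨h1, h2⟩
    have hνs : ν ≤ s := by rw [← h2]; exact stg_le s w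
    have h3 : stg C ν w = ν := stg_mid h2 le_rfl hνs
    refine ⟨h3, ?_⟩
    have h4 : ln C T' ν w ≤ s + 1 - ν := by
      refine ln_min (by omega) ?_
      have e : ν + (s + 1 - ν) = s + 1 := by omega
      rw [e]
      rcases h1 with h1 | h1
      · exact Or.inl h1
      · exact Or.inr (by omega)
    have h5 : s + 1 - ν ≤ ln C T' ν w := by
      by_contra hc
      obtain ⟨h6, h7⟩ := ln_spec (C := C) (T' := T') (ν := ν) w
      rcases h7 with h7 | h7
      · have h8 : stg C (ν + ln C T' ν w) w = ν := stg_mid h2 (by omega) (by omega)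
        omega
      · omega
    omega

/-- **a sum over the end steps is a sum over the starts** -/
theorem sum_ep (f : ℕ → ℕ → ℝ) (w : Om) : ∑ s ∈ range T', ind (En C T' s w) * f (stg C s w) s =
    ∑ ν ∈ range T', ind (stg C ν w = ν) * f ν (ν + ln C T' ν w - 1) := by
  classical
  have h1 : ∀ s ∈ range T', ind (En C T' s w) * f (stg C s w) s =
      ∑ ν ∈ range T', ind (En C T' s w ∧ stg C s w = ν) * f ν s := by
    intro s hs
    rw [Finset.sum_eq_single_of_mem (stg C s w) (mem_range.2 ((stg_le s w).trans_lt (mem_range.1 hs)))]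
    · rw [show (En C T' s w ∧ stg C s w = stg C s w) = En C T' s w from propext ⟨fun h => h.1, fun h => ⟨h, rfl⟩⟩]
    · intro ν _ hne
      rw [ind_not fun h => hne h.2.symm, zero_mul]
  have h2 : ∀ ν ∈ range T', ∑ s ∈ range T', ind (En C T' s w ∧ stg C s w = ν) * f ν s =
      ind (stg C ν w = ν) * f ν (ν + ln C T' ν w - 1) := by
    intro ν hν
    have hν' := mem_range.1 hν
    have hc := ln_cap (C := C) hν' w
    have hp := (ln_spec (C := C) (T' := T') (ν := ν) w).1
    have e1 : ∀ s ∈ range T', ind (En C T' s w ∧ stg C s w = ν) * f ν s =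
        ind (stg C ν w = ν ∧ s + 1 = ν + ln C T' ν w) * f ν s := by
      intro s hs
      rw [← propext (ln_iff (C := C) hν' (mem_range.1 hs) (w := w))]
    rw [Finset.sum_congr rfl e1, Finset.sum_eq_single_of_mem (ν + ln C T' ν w - 1) (mem_range.2 (by omega))]
    · rw [show (stg C ν w = ν ∧ ν + ln C T' ν w - 1 + 1 = ν + ln C T' ν w) = (stg C ν w = ν) from
        propext ⟨fun h => h.1, fun h => ⟨h, by omega⟩⟩]
    · intro s _ hne
      rw [ind_not fun h => hne (by omega), zero_mul]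
  rw [Finset.sum_congr rfl h1, Finset.sum_comm]
  exact Finset.sum_congr rfl h2

end len

/-! ## the run on the table space -/

variable {X β γ φ : Type} [Fintype X] [Fintype β] [Fintype φ] [Nonempty X] [Nonempty β]
variable {D : HD (Fin 3) X β γ φ} {al : ℝ} {prr : ℕ → Fin 3 → φ → φ} {T : ℕ} {W : Type} [Fintype W]

section run

variable (tb : Tab D prr T W)

/-- potential at the state `q` of the cover of the group `(F, S)` in the epoch which starts at `ν` -/
def PhE (w0 : Om W X β) (lv : ℕ → ℕ) (T' : ℕ) (F S : Finset (Fin 3)) (Rl : Om W X β → Om W X β → Prop) (x : ℝ) {M : ℕ}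
    (us : Fin M → Om W X β) (ν q : ℕ) (w : Om W X β) : ℝ :=
  PhT tb w0 (lv ν) (fun k => lv (min (ν + k) T')) F S Rl x us (q - ν) w

variable {tb}

/-- **ALL EPOCHS** -/
theorem epochs_tab {dg : ℕ → X → ℝ} {Lam : ℝ} (H : D.Hyp dg prr al T Lam) (w0 : Om W X β) {G S' F S : Finset (Fin 3)}
    (hc : Cp G S' F S) {C : ℕ → ℕ → Om W X β → Prop} {lv : ℕ → ℕ} {T' : ℕ}
    (hlv : ∀ q < T', lv (q + 1) = lv q ∨ (lv (q + 1) = lv q + 1 ∧ lv q < T))
    (hs : ∀ k ≤ T', Fac (sgt D ∅ (lv k)) (stg C k)) (R : ℕ → Om W X β → Prop) {gs : ℕ → Om W X β → ℝ}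
    (hg : ∀ s < T', Fac (si D G univ S' (lv (s + 1))) (gs s)) (hg0 : ∀ s w, 0 ≤ gs s w) (hg1 : ∀ s w, gs s w ≤ 1)
    {x : ℝ} (hx : 0 < x) (M : ℕ) :
    ∑ s ∈ range T', tb.Ps.E (fun w => ind (En C T' s w) * (ind (R (stg C s w) w) * gs s w)) ≤
      x / 2 * ∑ s ∈ range T', tb.Ps.E (fun w => ind (En C T' s w) * gs s w) +
      (8 * x * ∑ s ∈ range T', tb.Ps.E (fun w => ind (En C T' s w) * ∑ us : Fin M → Om W X β,
          wtT tb w0 (lv (stg C s w)) G S' us w * PhE tb w0 lv T' F S (RT F S (R (stg C s w))) x us (stg C s w) (s + 1) w) +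
        ∑ ν ∈ range T', tb.Ps.E (fun w => ind (stg C ν w = ν) * ∑ us : Fin M → Om W X β,
          wtT tb w0 (lv ν) G S' us w * ind (0 < PhE tb w0 lv T' F S (RT F S (R ν)) x us ν ν w))) +
      (8 * x * ∑ s ∈ range T', tb.Ps.E (fun w => ind (En C T' s w) * ∑ us : Fin M → Om W X β,
          wtT tb w0 (lv (stg C s w)) F S us w *
            PhE tb w0 lv T' G S' (fun b a => RT F S (R (stg C s w)) a b) x us (stg C s w) (s + 1) w) +
        ∑ ν ∈ range T', tb.Ps.E (fun w => ind (stg C ν w = ν) * ∑ us : Fin M → Om W X β,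
          wtT tb w0 (lv ν) F S us w * ind (0 < PhE tb w0 lv T' G S' (fun b a => RT F S (R ν) a b) x us ν ν w))) +
      6 / (x * (M + 1)) * ∑ ν ∈ range T', tb.Ps.Pr (fun w => stg C ν w = ν) := by
  classical
  have hl1 : ∀ q < T', lv q ≤ lv (q + 1) := fun q hq => by
    rcases hlv q hq with h | h
    · exact h.ge
    · omega
  have hmono : ∀ p q, p ≤ q → q ≤ T' → lv p ≤ lv q := by
    intro p q hpq
    induction q, hpq using Nat.le_induction with
    | base => exact fun _ => le_rfl
    | succ q _ ih => exact fun hq => (ih (by omega)).trans (hl1 q (by omega))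
  have hsg : ∀ {p q : ℕ} (_ : p ≤ q) (_ : q ≤ T') {a b : Om W X β}, sgt D ∅ (lv q) a = sgt D ∅ (lv q) b →
      sgt D ∅ (lv p) a = sgt D ∅ (lv p) b := by
    intro p q h1 h2 a b e
    rw [sgt_eq] at e ⊢
    exact ⟨e.1, e.2.1, fun j => Dy.qb_mono (hmono p q h1 h2) (e.2.2 j)⟩
  have key : ∀ ν ∈ range T', tb.Ps.E (fun w => ind (stg C ν w = ν) * (ind (R ν w) * gs (ν + ln C T' ν w - 1) w)) ≤
      x / 2 * tb.Ps.E (fun w => ind (stg C ν w = ν) * gs (ν + ln C T' ν w - 1) w) +
      (8 * x * tb.Ps.E (fun w => ind (stg C ν w = ν) * ∑ us : Fin M → Om W X β, wtT tb w0 (lv ν) G S' us w *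
          PhE tb w0 lv T' F S (RT F S (R ν)) x us ν (ν + ln C T' ν w - 1 + 1) w) +
        tb.Ps.E (fun w => ind (stg C ν w = ν) * ∑ us : Fin M → Om W X β, wtT tb w0 (lv ν) G S' us w *
          ind (0 < PhE tb w0 lv T' F S (RT F S (R ν)) x us ν ν w))) +
      (8 * x * tb.Ps.E (fun w => ind (stg C ν w = ν) * ∑ us : Fin M → Om W X β, wtT tb w0 (lv ν) F S us w *
          PhE tb w0 lv T' G S' (fun b a => RT F S (R ν) a b) x us ν (ν + ln C T' ν w - 1 + 1) w) +
        tb.Ps.E (fun w => ind (stg C ν w = ν) * ∑ us : Fin M → Om W X β, wtT tb w0 (lv ν) F S us w *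
          ind (0 < PhE tb w0 lv T' G S' (fun b a => RT F S (R ν) a b) x us ν ν w))) +
      6 / (x * (M + 1)) * tb.Ps.Pr (fun w => stg C ν w = ν) := by
    intro ν hν
    have hν' := mem_range.1 hν
    set tm : ℕ → ℕ := fun k => lv (min (ν + k) T') with htm
    have ht : ∀ k, tm (k + 1) = tm k ∨ (tm (k + 1) = tm k + 1 ∧ tm k < T) := by
      intro k
      by_cases hk : ν + k < T'
      · have e1 : min (ν + (k + 1)) T' = ν + k + 1 := by omega
        have e2 : min (ν + k) T' = ν + k := by omega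
        show lv (min (ν + (k + 1)) T') = lv (min (ν + k) T') ∨ _
        rw [htm]
        simp only [e1, e2]
        exact hlv (ν + k) hk
      · have e1 : min (ν + (k + 1)) T' = T' := by omega
        have e2 : min (ν + k) T' = T' := by omega
        left
        show lv (min (ν + (k + 1)) T') = lv (min (ν + k) T')
        rw [e1, e2]
    have hS : ∀ v w, cll D (lv ν) v = cll D (lv ν) w → (stg C ν v = ν ↔ stg C ν w = ν) := fun v w e => by
      rw [hs ν hν'.le v w ((cll_sgt (lv ν)).1 e)]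
    have hσ : Stp (fun k => sgt (W := W) (X := X) D ∅ (tm k)) (ln C T' ν) := by
      intro k a b e
      have e' : sgt D ∅ (lv (min (ν + k) T')) a = sgt D ∅ (lv (min (ν + k) T')) b := e
      by_cases hk : ν + k ≤ T'
      · rw [min_eq_left hk] at e'
        rw [ln_le_iff, ln_le_iff]
        refine exists_congr fun k' => and_congr_right fun hk' => and_congr_right fun _ => ?_
        rw [hs (ν + k') (by omega) a b (hsg (by omega) hk e')]
      · have h1 := ln_cap (C := C) hν' a
        have h2 := ln_cap (C := C) hν' b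
        exact iff_of_true (by omega) (by omega)
    set g : ℕ → Om W X β → ℝ := fun k w => if 1 ≤ k ∧ ν + k ≤ T' then gs (ν + k - 1) w else 0 with hgd
    have hg' : ∀ k, Fac (si D G univ S' (tm k)) (g k) := by
      intro k a b e
      show (if 1 ≤ k ∧ ν + k ≤ T' then gs (ν + k - 1) a else 0) = if 1 ≤ k ∧ ν + k ≤ T' then gs (ν + k - 1) b else 0
      by_cases hk : 1 ≤ k ∧ ν + k ≤ T'
      · rw [if_pos hk, if_pos hk]
        have e1 : ν + k - 1 + 1 = ν + k := by omega
        have e' : si D G univ S' (lv (min (ν + k) T')) a = si D G univ S' (lv (min (ν + k) T')) b := e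
        rw [min_eq_left hk.2] at e'
        refine hg (ν + k - 1) (by omega) a b ?_
        rw [e1]
        exact e'
      · rw [if_neg hk, if_neg hk]
    have hg0' : ∀ k w, 0 ≤ g k w := by
      intro k w
      show 0 ≤ if 1 ≤ k ∧ ν + k ≤ T' then gs (ν + k - 1) w else 0
      split_ifs
      · exact hg0 _ _
      · exact le_rfl
    have hg1' : ∀ k w, g k w ≤ 1 := by
      intro k w
      show (if 1 ≤ k ∧ ν + k ≤ T' then gs (ν + k - 1) w else 0) ≤ 1
      split_ifs
      · exact hg1 _ _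
      · exact zero_le_one
    have main := epoch_tab (tb := tb) (n := lv ν) H w0 hc ht (R ν) (fun w => stg C ν w = ν) hS hσ (T' := T' + 1)
      (fun w => by have := ln_cap (C := C) hν' w; omega) hg' hg0' hg1' hx M
    have eg : ∀ w, g (ln C T' ν w) w = gs (ν + ln C T' ν w - 1) w := by
      intro w
      show (if 1 ≤ ln C T' ν w ∧ ν + ln C T' ν w ≤ T' then gs (ν + ln C T' ν w - 1) w else 0) = _
      rw [if_pos ⟨(ln_spec (C := C) (T' := T') (ν := ν) w).1, ln_cap hν' w⟩]
    have eP : ∀ (F S : Finset (Fin 3)) (Rl : Om W X β → Om W X β → Prop) (us : Fin M → Om W X β) w,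
        PhE tb w0 lv T' F S Rl x us ν (ν + ln C T' ν w - 1 + 1) w = PhT tb w0 (lv ν) tm F S Rl x us (ln C T' ν w) w := by
      intro F S Rl us w
      have h1 := (ln_spec (C := C) (T' := T') (ν := ν) w).1
      unfold PhE
      rw [show ν + ln C T' ν w - 1 + 1 - ν = ln C T' ν w by omega]
    have eP0 : ∀ (F S : Finset (Fin 3)) (Rl : Om W X β → Om W X β → Prop) (us : Fin M → Om W X β) w,
        PhE tb w0 lv T' F S Rl x us ν ν w = PhT tb w0 (lv ν) tm F S Rl x us 0 w := by
      intro F S Rl us w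
      unfold PhE
      rw [Nat.sub_self]
    simp only [eg] at main
    refine main.trans (le_of_eq ?_)
    have e1 : ∀ (A B F S : Finset (Fin 3)) (Rl : Om W X β → Om W X β → Prop),
        tb.Ps.E (fun w => ind (stg C ν w = ν) * ∑ us : Fin M → Om W X β, wtT tb w0 (lv ν) A B us w *
          (8 * x * PhT tb w0 (lv ν) tm F S Rl x us (ln C T' ν w) w + ind (0 < PhT tb w0 (lv ν) tm F S Rl x us 0 w))) =
        8 * x * tb.Ps.E (fun w => ind (stg C ν w = ν) * ∑ us : Fin M → Om W X β, wtT tb w0 (lv ν) A B us w *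
          PhE tb w0 lv T' F S Rl x us ν (ν + ln C T' ν w - 1 + 1) w) +
        tb.Ps.E (fun w => ind (stg C ν w = ν) * ∑ us : Fin M → Om W X β, wtT tb w0 (lv ν) A B us w *
          ind (0 < PhE tb w0 lv T' F S Rl x us ν ν w)) := by
      intro A B F S Rl
      rw [← FP.E_smul, ← FP.E_add]
      refine tb.Ps.E_congr fun w _ => ?_
      simp only [eP, eP0]
      have e2 : ∑ us : Fin M → Om W X β, wtT tb w0 (lv ν) A B us w *
          (8 * x * PhT tb w0 (lv ν) tm F S Rl x us (ln C T' ν w) w + ind (0 < PhT tb w0 (lv ν) tm F S Rl x us 0 w)) =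
          8 * x * ∑ us : Fin M → Om W X β, wtT tb w0 (lv ν) A B us w * PhT tb w0 (lv ν) tm F S Rl x us (ln C T' ν w) w +
          ∑ us : Fin M → Om W X β, wtT tb w0 (lv ν) A B us w * ind (0 < PhT tb w0 (lv ν) tm F S Rl x us 0 w) := by
        rw [Finset.mul_sum, ← Finset.sum_add_distrib]
        exact Finset.sum_congr rfl fun us _ => by ring
      rw [e2]
      ring
    rw [e1, e1]
  -- sums over the end steps
  have sw1 : ∀ f : ℕ → ℕ → Om W X β → ℝ, ∑ s ∈ range T', tb.Ps.E (fun w => ind (En C T' s w) * f (stg C s w) s w) =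
      ∑ ν ∈ range T', tb.Ps.E (fun w => ind (stg C ν w = ν) * f ν (ν + ln C T' ν w - 1) w) := by
    intro f
    rw [← FP.E_sum, ← FP.E_sum]
    exact tb.Ps.E_congr fun w _ => sum_ep (fun ν s => f ν s w) w
  rw [sw1 (fun ν s w => ind (R ν w) * gs s w), sw1 (fun _ s w => gs s w),
    sw1 (fun ν s w => ∑ us : Fin M → Om W X β, wtT tb w0 (lv ν) G S' us w *
      PhE tb w0 lv T' F S (RT F S (R ν)) x us ν (s + 1) w),
    sw1 (fun ν s w => ∑ us : Fin M → Om W X β, wtT tb w0 (lv ν) F S us w *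
      PhE tb w0 lv T' G S' (fun b a => RT F S (R ν) a b) x us ν (s + 1) w)]
  refine (Finset.sum_le_sum key).trans (le_of_eq ?_)
  simp only [Finset.sum_add_distrib, ← Finset.mul_sum]

end run

end

end Pool.Agent.GMH.SngC
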