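import Pool.Agent.GMH.SngC2
import Pool.Agent.GMH.CovI
import Pool.Agent.GMH.TD10

/-!
# GMH/SngC3 (helper73): THE ROWS WHICH CARRY THE POTENTIAL (kind S, block (C))

* `cmT` : the mass of the rows `I` of a sample at a node, on the whole space; `PhE_cm` : if the potential of the cover is
  positive at the state `q`, some rows `I ≠ ∅` have `PhE ≤ cmT I` and `|I| x/4 ≤ cmT I`.
-/

set_option autoImplicit false
set_option linter.unusedSectionVars false

namespace Pool.Agent.GMH.SngC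

open Finset Pool.Agent.PWZ Pool.Agent.M3 Pool.Agent.GM Pool.Agent.GM.Harm Pool.Agent.GMH
open Pool.Agent.GMH.Gdy Pool.Agent.GMH.Dy Pool.Agent.GMH.TabF Pool.Agent.GMH.CK

noncomputable section

variable {X β γ φ : Type} [Fintype X] [Fintype β] [Fintype φ] [Nonempty X] [Nonempty β]
variable {D : HD (Fin 3) X β γ φ} {al : ℝ} {prr : ℕ → Fin 3 → φ → φ} {T : ℕ} {W : Type} [Fintype W]

variable (tb : Tab D prr T W)

/-- the mass of the rows `I` of the sample `us` at the node of the level `m` of `w` -/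
def cmT (w0 : Om W X β) (F S : Finset (Fin 3)) (Rl : Om W X β → Om W X β → Prop) {M : ℕ} (us : Fin M → Om W X β)
    (I : Finset (Fin M)) (m : ℕ) (w : Om W X β) : ℝ :=
  tb.Ps.ce (sgt D ∅ m) (fun u => ind (∃ i ∈ I, Rl (us i) (pj w0 F S u))) w

variable {tb}

theorem cmT_nonneg {w0 : Om W X β} {F S : Finset (Fin 3)} {Rl : Om W X β → Om W X β → Prop} {M : ℕ}
    {us : Fin M → Om W X β} {I : Finset (Fin M)} {m : ℕ} (w : Om W X β) : 0 ≤ cmT tb w0 F S Rl us I m w :=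
  tb.Ps.ce_nonneg (fun _ _ => ind_nonneg _) w

theorem PhE_nonneg {w0 : Om W X β} {lv : ℕ → ℕ} {T' : ℕ} {F S : Finset (Fin 3)} {Rl : Om W X β → Om W X β → Prop} {x : ℝ}
    {M : ℕ} {us : Fin M → Om W X β} {ν q : ℕ} (w : Om W X β) : 0 ≤ PhE tb w0 lv T' F S Rl x us ν q w :=
  Gdy.Phi_nonneg _ _

theorem PhE_le_one {w0 : Om W X β} {lv : ℕ → ℕ} {T' : ℕ} {F S : Finset (Fin 3)} {Rl : Om W X β → Om W X β → Prop}
    {x : ℝ} (hx : 0 < x) {M : ℕ} {us : Fin M → Om W X β} {ν q : ℕ} {w : Om W X β} (hw : tb.Ps.p w ≠ 0) :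
    PhE tb w0 lv T' F S Rl x us ν q w ≤ 1 :=
  Phi_le_one hx ((Wl_supp tb).2 ⟨hw, rfl⟩)

/-- **THE ROWS WHICH CARRY THE POTENTIAL** -/
theorem PhE_cm {w0 : Om W X β} {lv : ℕ → ℕ} {T' : ℕ} {F S : Finset (Fin 3)} {Rl : Om W X β → Om W X β → Prop} {x : ℝ}
    (hx : 0 < x) {M : ℕ} (us : Fin M → Om W X β) {ν q : ℕ} (hνq : ν ≤ q) (hq : q ≤ T') (hlv : lv ν ≤ lv q)
    {w : Om W X β} (hw : tb.Ps.p w ≠ 0) (hP : 0 < PhE tb w0 lv T' F S Rl x us ν q w) :
    ∃ I : Finset (Fin M), I.Nonempty ∧ PhE tb w0 lv T' F S Rl x us ν q w ≤ cmT tb w0 F S Rl us I (lv q) w ∧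
      I.card * x / 4 ≤ cmT tb w0 F S Rl us I (lv q) w := by
  classical
  set P0 := tb.Wl (lv ν) w with hP0
  set H0 := rwT w0 F S Rl us with hH0
  set c0 : ∀ t, Om W X β → _ := fun t => si (W := W) (X := X) D ∅ F ∅ (lv (min (ν + t) T')) with hc0
  set I0 := Iset P0 c0 x H0 M (q - ν) w with hI0
  have hIM : ∀ r ∈ I0, r < M := fun r hr => (mem_Iset.1 hr).1
  set I : Finset (Fin M) := univ.filter fun i => i.1 ∈ I0 with hI
  have himg : I.image Fin.val = I0 := by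
    ext r
    simp only [Finset.mem_image, hI, Finset.mem_filter, Finset.mem_univ, true_and]
    constructor
    · rintro ⟨i, hi, rfl⟩
      exact hi
    · intro hr
      exact ⟨⟨r, hIM r hr⟩, hr, rfl⟩
  have hcard : I.card = I0.card := by
    rw [← himg, Finset.card_image_of_injective _ Fin.val_injective]
  have hP' : 0 < Gdy.Phi P0 c0 x H0 M (q - ν) w := hP
  have hne0 : I0.Nonempty := Iset_nonempty hP'
  have hne : I.Nonempty := by
    obtain ⟨r, hr⟩ := hne0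
    exact ⟨⟨r, hIM r hr⟩, Finset.mem_filter.2 ⟨Finset.mem_univ _, hr⟩⟩
  have hww : P0.p w ≠ 0 := by
    rw [hP0]
    exact (Wl_supp tb).2 ⟨hw, rfl⟩
  have e0 : lv (min (ν + (q - ν)) T') = lv q := by
    congr 1
    omega
  have hkp : Gdy.kp P0 c0 x H0 M (q - ν) w ≤ cmT tb w0 F S Rl us I (lv q) w := by
    refine (kp_le (q - ν) w).trans (le_of_eq ?_)
    have e1 : (fun v : Om W X β => ind (∃ r ∈ I0, H0 r v)) = fun u => ind (∃ i ∈ I, Rl (us i) (pj w0 F S u)) := by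
      funext u
      congr 1
      refine propext ⟨?_, ?_⟩
      · rintro ⟨r, hr, hrM, h1⟩
        exact ⟨⟨r, hrM⟩, Finset.mem_filter.2 ⟨Finset.mem_univ _, hr⟩, h1⟩
      · rintro ⟨i, hi, h1⟩
        exact ⟨i.1, (Finset.mem_filter.1 hi).2, i.2, h1⟩
    have hfac : Fac (pj w0 (∅ ∪ F) S) (fun u : Om W X β => ind (∃ i ∈ I, Rl (us i) (pj w0 F S u))) := by
      intro a b e
      rw [Finset.empty_union] at e
      simp only [e]
    have e2 := face_ch (P := P0) (E0 := ∅) (n := lv ν) (wo_Wl tb (lv ν) w) w0 F S (lv q) hfac hww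
    show P0.ce (si D ∅ F ∅ (lv (min (ν + (q - ν)) T'))) (fun v : Om W X β => ind (∃ r ∈ I0, H0 r v)) w = _
    rw [e0, e1, e2]
    have hww' : (WE tb ∅ (lv ν) w).p w ≠ 0 := by rw [← Wl_eq]; exact hww
    rw [hP0, Wl_eq, WE_ce tb (Finset.Subset.refl _) hlv _ hww']
    rfl
  refine ⟨I, hne, (Phi_le_kp hx (q - ν) w).trans hkp, ?_⟩
  rw [hcard]
  have h5 := card_le_kp (P := P0) (X := c0) (u := x) (H := H0) (M := M) (q - ν) w
  have h6 : (I0.card : ℝ) * x / 4 = I0.card * (x / 4) := by ring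
  rw [h6]
  exact h5.trans hkp

end

end Pool.Agent.GMH.SngC
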