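import Pool.Agent.GMH.Gdy

/-!
# GMH/SngC4 (helper73): A POTENTIAL AGAINST LINEAR RARITY (kind S, block (C)), abstract

Finite probability space `P`, node `nd`, event `V` of the node, potential `φ`; at every node of `V` with `0 < φ` a name `τ` of
size `sz τ ≥ 1` and a set `R τ` with `φ ≤ P (R τ | node)` and `sz τ x/4 ≤ P (R τ | node)`.
LINEAR RARITY: `P (E ∩ R τ) ≤ P E (K (log (m / P E) + b) + e sz τ)` for all events `E ⊆ V` of the node; few names:
`Σ exp (- c sz τ) ≤ 1`; `8 (K c + e) ≤ x`.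
* `lin_end` : `E (1_V φ)` and `x/4 P V` are at most `2 K P V (log (m / P V) + b + 1)`;
* `lin_pos` : `P (V, 0 < φ) ≤ P V exp (- x / (16 K))` if `log (m / P V) ≤ x / (32 K)`;
* `lin_val` : `E (1_V φ) ≤ P V (6 K log (m / P V) + exp (- x / (16 K)))`;
* `lin_step` : the sum over the values of a later class.
-/

set_option autoImplicit false
set_option linter.unusedSectionVars false

namespace Pool.Agent.GMH.SngC

open Finset Pool.Agent.PWZ Pool.Agent.M3

noncomputable section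

/-- one term of an entropy -/
theorem ent_one {a p b : ℝ} (ha : 0 < a) (hp : 0 < p) : a * Real.log (p / a) ≤ a * b + p * Real.exp (-b) := by
  have h1 : Real.log (p / a) - b = Real.log (p * Real.exp (-b) / a) := by
    rw [mul_div_right_comm, Real.log_mul (div_pos hp ha).ne' (Real.exp_pos _).ne', Real.log_exp]
    ring
  have h2 : Real.log (p * Real.exp (-b) / a) ≤ p * Real.exp (-b) / a - 1 :=
    Real.log_le_sub_one_of_pos (div_pos (mul_pos hp (Real.exp_pos _)) ha)
  rw [← h1] at h2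
  have h3 := mul_le_mul_of_nonneg_left h2 ha.le
  have h4 : a * (p * Real.exp (-b) / a - 1) = p * Real.exp (-b) - a := by
    field_simp
  nlinarith

variable {Om : Type*} [Fintype Om] {P : FP Om} {κ : Type*} {nd : Om → κ} {Nm : Type*} {τ : Om → Nm} {sz : Nm → ℕ}
  {R : Nm → Om → Prop} {V : Om → Prop} {φ : Om → ℝ} {x m K b e c : ℝ}

/-- **ONE EVENT** : potential against linear rarity -/
theorem lin_end (hτ : Fac nd τ) (hV : Fac nd V) (Ns : Finset Nm)
    (h0 : ∀ w, P.p w ≠ 0 → V w → τ w ∈ Ns ∧ 1 ≤ sz (τ w) ∧ φ w ≤ P.ce nd (fun u => ind (R (τ w) u)) w ∧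
      sz (τ w) * x / 4 ≤ P.ce nd (fun u => ind (R (τ w) u)) w)
    (hR : ∀ t ∈ Ns, ∀ E : Om → Prop, Fac nd E → (∀ w, E w → V w) → P.Pr E ≠ 0 →
      P.Pr (fun u => E u ∧ R t u) ≤ P.Pr E * (K * (Real.log (m / P.Pr E) + b) + e * sz t))
    (hc : ∑ t ∈ Ns.filter (fun t => 1 ≤ sz t), Real.exp (-(c * sz t)) ≤ 1) (hK : 0 ≤ K) (hb : 0 ≤ b)
    (hm : P.Pr V ≤ m) (hVp : 0 < P.Pr V) (hx : 8 * (K * c + e) ≤ x) :
    P.E (fun w => ind (V w) * φ w) ≤ 2 * (K * (P.Pr V * (Real.log (m / P.Pr V) + b + 1))) ∧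
      x / 4 * P.Pr V ≤ 2 * (K * (P.Pr V * (Real.log (m / P.Pr V) + b + 1))) := by
  classical
  set p := P.Pr V with hp
  set N1 := Ns.filter (fun t => 1 ≤ sz t) with hN1
  set Ev : Nm → Om → Prop := fun t w => V w ∧ τ w = t with hEv
  have hEf : ∀ t, Fac nd (Ev t) := fun t v w hvw => by
    show (V v ∧ τ v = t) = (V w ∧ τ w = t)
    rw [hV v w hvw, hτ v w hvw]
  -- the covered mass
  set S : ℝ := ∑ t ∈ N1, P.Pr (fun u => Ev t u ∧ R t u) with hS
  have hmem : ∀ w, P.p w ≠ 0 → V w → τ w ∈ N1 := fun w hw hv =>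
    Finset.mem_filter.2 ⟨(h0 w hw hv).1, (h0 w hw hv).2.1⟩
  have hS1 : S = P.E (fun w => ind (V w) * P.ce nd (fun u => ind (R (τ w) u)) w) := by
    rw [hS]
    have e1 : ∀ t, P.Pr (fun u => Ev t u ∧ R t u) = P.E (fun w => ind (Ev t w) * P.ce nd (fun u => ind (R t u)) w) := by
      intro t
      rw [P.E_mul_ce (Fac.ind fun v w hvw => by rw [hEf t v w hvw])]
      unfold FP.Pr
      exact P.E_congr fun u _ => ind_and _ _
    simp only [e1]
    rw [← P.E_sum]
    refine P.E_congr fun w hw => ?_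
    by_cases hv : V w
    · rw [Finset.sum_eq_single_of_mem (τ w) (hmem w hw hv), ind_of hv, ind_of (show Ev (τ w) w from ⟨hv, rfl⟩)]
      intro t _ hne
      rw [ind_not (show ¬ Ev t w from fun h => hne h.2.symm), zero_mul]
    · rw [ind_not hv, zero_mul]
      exact Finset.sum_eq_zero fun t _ => by rw [ind_not (show ¬ Ev t w from fun h => hv h.1), zero_mul]
  have hSφ : P.E (fun w => ind (V w) * φ w) ≤ S := by
    rw [hS1]
    refine P.E_mono fun w hw => ?_
    by_cases hv : V w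
    · exact mul_le_mul_of_nonneg_left (h0 w hw hv).2.2.1 (ind_nonneg _)
    · rw [ind_not hv, zero_mul, zero_mul]
  -- the sizes
  have hsz : ∑ t ∈ N1, (sz t : ℝ) * P.Pr (Ev t) = P.E (fun w => ind (V w) * sz (τ w)) := by
    unfold FP.Pr
    simp only [← P.E_smul]
    rw [← P.E_sum]
    refine P.E_congr fun w hw => ?_
    by_cases hv : V w
    · rw [Finset.sum_eq_single_of_mem (τ w) (hmem w hw hv), ind_of hv, ind_of (show Ev (τ w) w from ⟨hv, rfl⟩)]
      · ring
      · intro t _ hne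
        rw [ind_not (show ¬ Ev t w from fun h => hne h.2.symm), mul_zero]
    · rw [ind_not hv, zero_mul]
      exact Finset.sum_eq_zero fun t _ => by rw [ind_not (show ¬ Ev t w from fun h => hv h.1), mul_zero]
  have hSz : x / 4 * ∑ t ∈ N1, (sz t : ℝ) * P.Pr (Ev t) ≤ S := by
    rw [hsz, hS1, ← P.E_smul]
    refine P.E_mono fun w hw => ?_
    by_cases hv : V w
    · rw [ind_of hv, one_mul, one_mul]
      have := (h0 w hw hv).2.2.2
      linarith
    · rw [ind_not hv, zero_mul, zero_mul, mul_zero]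
  have hpV : ∑ t ∈ N1, P.Pr (Ev t) = p := by
    unfold FP.Pr
    rw [← P.E_sum, hp]
    unfold FP.Pr
    refine P.E_congr fun w hw => ?_
    by_cases hv : V w
    · rw [Finset.sum_eq_single_of_mem (τ w) (hmem w hw hv), ind_of hv, ind_of (show Ev (τ w) w from ⟨hv, rfl⟩)]
      intro t _ hne
      rw [ind_not (show ¬ Ev t w from fun h => hne h.2.symm)]
    · rw [ind_not hv]
      exact Finset.sum_eq_zero fun t _ => by rw [ind_not (show ¬ Ev t w from fun h => hv h.1)]
  have hzp : p ≤ ∑ t ∈ N1, (sz t : ℝ) * P.Pr (Ev t) := by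
    rw [← hpV]
    refine Finset.sum_le_sum fun t ht => ?_
    have h1 : (1 : ℝ) ≤ sz t := by exact_mod_cast (Finset.mem_filter.1 ht).2
    have h2 := P.Pr_nonneg (Ev t)
    nlinarith
  -- linear rarity
  have hm0 : 0 < m := hVp.trans_le hm
  have hone : ∀ t ∈ N1, P.Pr (fun u => Ev t u ∧ R t u) ≤
      K * (P.Pr (Ev t) * (Real.log (m / p) + b)) + (K * (P.Pr (Ev t) * (c * sz t)) + K * (p * Real.exp (-(c * sz t)))) +
        e * (sz t * P.Pr (Ev t)) := by
    intro t ht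
    have htN : t ∈ Ns := (Finset.mem_filter.1 ht).1
    by_cases hz : P.Pr (Ev t) = 0
    · have h1 : P.Pr (fun u => Ev t u ∧ R t u) ≤ P.Pr (Ev t) := P.Pr_mono fun _ _ h => h.1
      rw [hz] at h1 ⊢
      have h2 : 0 ≤ K * (p * Real.exp (-(c * sz t))) := mul_nonneg hK (mul_nonneg hVp.le (Real.exp_pos _).le)
      simp only [zero_mul, mul_zero, zero_add, add_zero]
      linarith
    · have hpos : 0 < P.Pr (Ev t) := lt_of_le_of_ne (P.Pr_nonneg _) (Ne.symm hz)
      have h1 := hR t htN (Ev t) (hEf t) (fun w hw => hw.1) hz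
      have h2 : Real.log (m / P.Pr (Ev t)) = Real.log (m / p) + Real.log (p / P.Pr (Ev t)) := by
        rw [Real.log_div hm0.ne' hz, Real.log_div hm0.ne' hVp.ne', Real.log_div hVp.ne' hz]
        ring
      have h3 := mul_le_mul_of_nonneg_left (ent_one (b := c * sz t) hpos hVp) hK
      rw [h2] at h1
      refine h1.trans (le_of_sub_nonneg ?_)
      have h4 : K * (P.Pr (Ev t) * (Real.log (m / p) + b)) + (K * (P.Pr (Ev t) * (c * sz t)) +
          K * (p * Real.exp (-(c * sz t)))) + e * (sz t * P.Pr (Ev t)) -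
          P.Pr (Ev t) * (K * (Real.log (m / p) + Real.log (p / P.Pr (Ev t)) + b) + e * sz t) =
          K * (P.Pr (Ev t) * (c * sz t) + p * Real.exp (-(c * sz t))) -
            K * (P.Pr (Ev t) * Real.log (p / P.Pr (Ev t))) := by ring
      rw [h4]
      linarith
  have hsum : S ≤ K * (p * (Real.log (m / p) + b)) + K * p + (K * c + e) * ∑ t ∈ N1, (sz t : ℝ) * P.Pr (Ev t) := by
    rw [hS]
    refine (Finset.sum_le_sum hone).trans ?_
    rw [Finset.sum_add_distrib, Finset.sum_add_distrib, Finset.sum_add_distrib]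
    have e1 : ∑ t ∈ N1, K * (P.Pr (Ev t) * (Real.log (m / p) + b)) = K * (p * (Real.log (m / p) + b)) := by
      rw [← Finset.mul_sum, ← Finset.sum_mul, hpV]
    have e2 : ∑ t ∈ N1, K * (P.Pr (Ev t) * (c * sz t)) = K * c * ∑ t ∈ N1, (sz t : ℝ) * P.Pr (Ev t) := by
      rw [Finset.mul_sum]
      exact Finset.sum_congr rfl fun t _ => by ring
    have e3 : ∑ t ∈ N1, K * (p * Real.exp (-(c * sz t))) ≤ K * p := by
      rw [← Finset.mul_sum, ← Finset.mul_sum]
      exact mul_le_mul_of_nonneg_left (mul_le_of_le_one_right hVp.le hc) hK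
    have e4 : ∑ t ∈ N1, e * (sz t * P.Pr (Ev t)) = e * ∑ t ∈ N1, (sz t : ℝ) * P.Pr (Ev t) := by
      rw [Finset.mul_sum]
    rw [e1, e2, e4]
    linarith
  have hZ0 : 0 ≤ ∑ t ∈ N1, (sz t : ℝ) * P.Pr (Ev t) :=
    Finset.sum_nonneg fun t _ => mul_nonneg (Nat.cast_nonneg _) (P.Pr_nonneg _)
  have hfin : S ≤ 2 * (K * (p * (Real.log (m / p) + b + 1))) := by
    have h1 : (K * c + e) * ∑ t ∈ N1, (sz t : ℝ) * P.Pr (Ev t) ≤ x / 8 * ∑ t ∈ N1, (sz t : ℝ) * P.Pr (Ev t) :=
      mul_le_mul_of_nonneg_right (by linarith) hZ0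
    nlinarith
  refine ⟨hSφ.trans hfin, ?_⟩
  by_cases hx0 : 0 ≤ x
  · have h1 : x / 4 * p ≤ x / 4 * ∑ t ∈ N1, (sz t : ℝ) * P.Pr (Ev t) :=
      mul_le_mul_of_nonneg_left hzp (by linarith)
    exact (h1.trans hSz).trans hfin
  · have h1 : x / 4 * p ≤ 0 := mul_nonpos_of_nonpos_of_nonneg (by linarith [not_le.1 hx0]) hVp.le
    have h2 : 0 ≤ Real.log (m / p) := Real.log_nonneg (by rw [le_div_iff₀ hVp, one_mul]; exact hm)
    have h3 : 0 ≤ 2 * (K * (p * (Real.log (m / p) + b + 1))) := by positivity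
    linarith

/-- the hypotheses on the nodes of the event `V` with `0 < φ` -/
structure Lin (P : FP Om) (nd : Om → κ) (τ : Om → Nm) (sz : Nm → ℕ) (R : Nm → Om → Prop) (V : Om → Prop) (φ : Om → ℝ)
    (x m K b e c : ℝ) : Prop where
  ft : Fac nd τ
  fV : Fac nd V
  fp : Fac nd φ
  nn : ∀ w, 0 ≤ φ w
  le1 : ∀ w, P.p w ≠ 0 → φ w ≤ 1
  nm : ∃ Ns : Finset Nm, (∀ w, P.p w ≠ 0 → V w → 0 < φ w → τ w ∈ Ns ∧ 1 ≤ sz (τ w) ∧
      φ w ≤ P.ce nd (fun u => ind (R (τ w) u)) w ∧ sz (τ w) * x / 4 ≤ P.ce nd (fun u => ind (R (τ w) u)) w) ∧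
    (∀ t ∈ Ns, ∀ E : Om → Prop, Fac nd E → (∀ w, E w → V w) → P.Pr E ≠ 0 →
      P.Pr (fun u => E u ∧ R t u) ≤ P.Pr E * (K * (Real.log (m / P.Pr E) + b) + e * sz t)) ∧
    ∑ t ∈ Ns.filter (fun t => 1 ≤ sz t), Real.exp (-(c * sz t)) ≤ 1
  hK : 0 < K
  hb : 0 ≤ b
  hbx : b + 1 ≤ x / (32 * K)
  hm : P.Pr V ≤ m
  hx : 8 * (K * c + e) ≤ x

/-- the two bounds for the event `V, 0 < φ` -/
theorem Lin.two (L : Lin P nd τ sz R V φ x m K b e c) (hp : 0 < P.Pr (fun w => V w ∧ 0 < φ w)) :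
    P.E (fun w => ind (V w) * φ w) ≤ 2 * (K * (P.Pr (fun w => V w ∧ 0 < φ w) *
        (Real.log (m / P.Pr (fun w => V w ∧ 0 < φ w)) + b + 1))) ∧
      x / 4 ≤ 2 * (K * (Real.log (m / P.Pr (fun w => V w ∧ 0 < φ w)) + b + 1)) := by
  obtain ⟨Ns, h1, h2, h3⟩ := L.nm
  have hfac : Fac nd (fun w => V w ∧ 0 < φ w) := fun v w hvw => by
    show (V v ∧ 0 < φ v) = (V w ∧ 0 < φ w)
    rw [L.fV v w hvw, L.fp v w hvw]
  have main := lin_end (P := P) (nd := nd) (τ := τ) (sz := sz) (R := R) (V := fun w => V w ∧ 0 < φ w) (φ := φ) (x := x)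
    (m := m) (K := K) (b := b) (e := e) (c := c) L.ft hfac Ns (fun w hw hv => h1 w hw hv.1 hv.2)
    (fun t ht E hE hEV hne => h2 t ht E hE (fun w hw => (hEV w hw).1) hne) h3 L.hK.le L.hb
    ((P.Pr_mono fun _ _ h => h.1).trans L.hm) hp L.hx
  refine ⟨le_trans (le_of_eq ?_) main.1, ?_⟩
  · refine P.E_congr fun w _ => ?_
    by_cases hv : V w
    · rcases (L.nn w).eq_or_lt with h | h
      · rw [← h, mul_zero, mul_zero]
      · rw [ind_of hv, ind_of (show V w ∧ 0 < φ w from ⟨hv, h⟩)]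
    · rw [ind_not hv, ind_not (show ¬ (V w ∧ 0 < φ w) from fun h => hv h.1)]
  · have h4 := main.2
    set p' := P.Pr (fun w => V w ∧ 0 < φ w) with hp'
    have h5 : 2 * (K * (p' * (Real.log (m / p') + b + 1))) = 2 * (K * (Real.log (m / p') + b + 1)) * p' := by ring
    rw [h5] at h4
    exact le_of_mul_le_mul_right h4 hp

/-- **A POSITIVE POTENTIAL IS RARE** in an event of small cost -/
theorem Lin.pos (L : Lin P nd τ sz R V φ x m K b e c) (hc : Real.log (m / P.Pr V) ≤ x / (32 * K)) :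
    P.Pr (fun w => V w ∧ 0 < φ w) ≤ P.Pr V * Real.exp (-(x / (16 * K))) := by
  have hK := L.hK
  rcases (P.Pr_nonneg (fun w => V w ∧ 0 < φ w)).eq_or_lt with h | h
  · rw [← h]
    exact mul_nonneg (P.Pr_nonneg _) (Real.exp_pos _).le
  · obtain ⟨-, h1⟩ := L.two h
    set p' := P.Pr (fun w => V w ∧ 0 < φ w) with hp'
    have hle : p' ≤ P.Pr V := P.Pr_mono fun _ _ h => h.1
    have hV0 : 0 < P.Pr V := h.trans_le hle
    have hm0 : 0 < m := hV0.trans_le L.hm
    have h2 : Real.log (m / p') = Real.log (m / P.Pr V) + Real.log (P.Pr V / p') := by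
      rw [Real.log_div hm0.ne' h.ne', Real.log_div hm0.ne' hV0.ne', Real.log_div hV0.ne' h.ne']
      ring
    have h3 : x / (8 * K) ≤ Real.log (m / p') + b + 1 := by
      rw [div_le_iff₀ (by positivity)]
      nlinarith
    have e1 : x / (8 * K) = 4 * (x / (32 * K)) := by
      field_simp
      ring
    have e2 : x / (16 * K) = 2 * (x / (32 * K)) := by
      field_simp
      ring
    have h4 : x / (16 * K) ≤ Real.log (P.Pr V / p') := by
      have := L.hbx
      linarith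
    have h5 : Real.exp (x / (16 * K)) ≤ P.Pr V / p' := by
      rw [← Real.exp_log (div_pos hV0 h)]
      exact Real.exp_le_exp.2 h4
    rw [Real.exp_neg, ← div_eq_mul_inv, le_div_iff₀ (Real.exp_pos _)]
    rw [le_div_iff₀ h] at h5
    linarith

/-- **THE POTENTIAL AT A VALUE** -/
theorem Lin.val (L : Lin P nd τ sz R V φ x m K b e c) :
    P.E (fun w => ind (V w) * φ w) ≤ P.Pr V * (6 * K * Real.log (m / P.Pr V) + Real.exp (-(x / (16 * K)))) := by
  have hK := L.hK
  have hEle : P.E (fun w => ind (V w) * φ w) ≤ P.Pr (fun w => V w ∧ 0 < φ w) := by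
    unfold FP.Pr
    refine P.E_mono fun w hw => ?_
    by_cases hv : V w
    · rcases (L.nn w).eq_or_lt with h | h
      · rw [← h, mul_zero]
        exact ind_nonneg _
      · rw [ind_of hv, ind_of (show V w ∧ 0 < φ w from ⟨hv, h⟩), one_mul]
        exact L.le1 w hw
    · rw [ind_not hv, zero_mul]
      exact ind_nonneg _
  rcases (P.Pr_nonneg V).eq_or_lt with hV0 | hV0
  · have h1 : P.Pr (fun w => V w ∧ 0 < φ w) ≤ P.Pr V := P.Pr_mono fun _ _ h => h.1
    rw [← hV0, zero_mul]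
    rw [← hV0] at h1
    exact hEle.trans h1
  have hL0 : 0 ≤ Real.log (m / P.Pr V) := Real.log_nonneg (by rw [le_div_iff₀ hV0, one_mul]; exact L.hm)
  by_cases hc : Real.log (m / P.Pr V) ≤ x / (32 * K)
  · refine hEle.trans ((L.pos hc).trans ?_)
    refine mul_le_mul_of_nonneg_left ?_ hV0.le
    have : 0 ≤ 6 * K * Real.log (m / P.Pr V) := by positivity
    linarith
  · have hc := not_le.1 hc
    rcases (P.Pr_nonneg (fun w => V w ∧ 0 < φ w)).eq_or_lt with h | h
    · refine hEle.trans ?_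
      rw [← h]
      exact mul_nonneg hV0.le (add_nonneg (by positivity) (Real.exp_pos _).le)
    · obtain ⟨h1, -⟩ := L.two h
      set p' := P.Pr (fun w => V w ∧ 0 < φ w) with hp'
      have hle : p' ≤ P.Pr V := P.Pr_mono fun _ _ h => h.1
      have hm0 : 0 < m := hV0.trans_le L.hm
      have h2 : Real.log (m / p') = Real.log (m / P.Pr V) + Real.log (P.Pr V / p') := by
        rw [Real.log_div hm0.ne' h.ne', Real.log_div hm0.ne' hV0.ne', Real.log_div hV0.ne' h.ne']
        ring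
      have h3 := ent_one (b := 0) h hV0
      rw [mul_zero, zero_add, neg_zero, Real.exp_zero, mul_one] at h3
      have h4 : b + 1 ≤ Real.log (m / P.Pr V) := L.hbx.trans hc.le
      have h5 : 1 ≤ Real.log (m / P.Pr V) := by linarith [L.hb]
      have h6 : p' * (Real.log (m / p') + b + 1) ≤ 3 * (P.Pr V * Real.log (m / P.Pr V)) := by
        rw [h2]
        have a1 : p' * (Real.log (m / P.Pr V) + (b + 1)) ≤ P.Pr V * (2 * Real.log (m / P.Pr V)) :=
          mul_le_mul hle (by linarith) (by linarith [L.hb]) hV0.le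
        have a2 : P.Pr V ≤ P.Pr V * Real.log (m / P.Pr V) := by nlinarith
        nlinarith
      have h7 := mul_le_mul_of_nonneg_left h6 (mul_pos two_pos hK).le
      have h8 : 0 ≤ P.Pr V * Real.exp (-(x / (16 * K))) := mul_nonneg hV0.le (Real.exp_pos _).le
      have h9 : 2 * (K * (p' * (Real.log (m / p') + b + 1))) = 2 * K * (p' * (Real.log (m / p') + b + 1)) := by ring
      rw [h9] at h1
      nlinarith

/-- **ONE STEP** : `Z` the old class, `Z'` the values (old class and more), `G` an event of the values -/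
theorem lin_step {ζ ζ' : Type*} {Z : Om → ζ} {Z' : Om → ζ'} (hZ : Fac Z' Z) {G : Om → Prop} (hG : Fac Z' G)
    (L : ∀ w, P.p w ≠ 0 → G w → ∃ τ : Om → Nm, ∃ sz : Nm → ℕ, ∃ R : Nm → Om → Prop,
      Lin P nd τ sz R (fun u => Z' u = Z' w) φ x (P.m Z w) K b e c) :
    P.E (fun w => ind (G w) * φ w) ≤
      P.E (fun w => ind (G w) * (6 * K * Real.log (P.m Z w / P.m Z' w) + Real.exp (-(x / (16 * K))))) := by
  have hi : Fac Z' (fun w => ind (G w)) := Fac.ind fun v w hvw => by rw [hG v w hvw]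
  have h1 : P.E (fun w => ind (G w) * φ w) = P.E (fun w => ind (G w) * P.ce Z' φ w) := (P.E_mul_ce hi φ).symm
  rw [h1]
  refine P.E_mono fun w hw => ?_
  by_cases hg : G w
  · obtain ⟨τ, sz, R, L⟩ := L w hw hg
    rw [ind_of hg, one_mul, one_mul]
    have h2 := L.val
    have h3 : P.Pr (fun u => Z' u = Z' w) = P.m Z' w := rfl
    have h4 : 0 < P.m Z' w := P.m_pos Z' hw
    rw [h3] at h2
    show P.E (fun u => ind (Z' u = Z' w) * φ u) / P.m Z' w ≤ _
    rw [div_le_iff₀ h4, mul_comm]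
    exact h2
  · rw [ind_not hg, zero_mul, zero_mul]

/-- **THE START** -/
theorem lin_start {ζ : Type*} {Z : Om → ζ} {G : Om → Prop} (hG : Fac Z G)
    (L : ∀ w, P.p w ≠ 0 → G w → ∃ τ : Om → Nm, ∃ sz : Nm → ℕ, ∃ R : Nm → Om → Prop,
      Lin P nd τ sz R (fun u => Z u = Z w) φ x (P.m Z w) K b e c) :
    P.Pr (fun w => G w ∧ 0 < φ w) ≤ P.Pr G * Real.exp (-(x / (16 * K))) := by
  have hi : Fac Z (fun w => ind (G w)) := Fac.ind fun v w hvw => by rw [hG v w hvw]
  have h1 : P.Pr (fun w => G w ∧ 0 < φ w) = P.E (fun w => ind (G w) * P.ce Z (fun u => ind (0 < φ u)) w) := by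
    rw [P.E_mul_ce hi]
    unfold FP.Pr
    exact P.E_congr fun u _ => ind_and _ _
  unfold FP.Pr at h1 ⊢
  rw [h1, ← P.E_mul_const]
  refine P.E_mono fun w hw => ?_
  by_cases hg : G w
  · obtain ⟨τ, sz, R, L⟩ := L w hw hg
    rw [ind_of hg, one_mul, one_mul]
    have h3 : P.Pr (fun u => Z u = Z w) = P.m Z w := rfl
    have h4 : 0 < P.m Z w := P.m_pos Z hw
    have hK := L.hK
    have h2 := L.pos (by
      rw [h3, div_self h4.ne', Real.log_one]
      have := L.hbx
      have := L.hb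
      linarith)
    rw [h3] at h2
    have h5 : P.E (fun u => ind (Z u = Z w) * ind (0 < φ u)) = P.Pr (fun u => Z u = Z w ∧ 0 < φ u) := by
      unfold FP.Pr
      exact P.E_congr fun u _ => (ind_and _ _).symm
    show P.E (fun u => ind (Z u = Z w) * ind (0 < φ u)) / P.m Z w ≤ _
    rw [h5, div_le_iff₀ h4, mul_comm]
    exact h2
  · rw [ind_not hg, zero_mul, zero_mul]

end

end Pool.Agent.GMH.SngC
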