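import Pool.Agent.GMH.SngC3
import Pool.Agent.GMH.SngC4

/-!
# GMH/SngC5 (helper73): SAMPLES WITHOUT HIDDEN POINT (kind S, block (C))

* `Sm W β` = tables and points; `wsT` = weight of a sample of the group `(G, S')` (tables and points only) in the world of `w`;
  `wtT_sm` : sums over the samples; `wsT_cells` : the weight sees the cells only; `wsT_sum`;
* `gl F S a u` = hidden point, the points of `F` and the tables of `S` of `u`, the rest of the sample point `a`;
  `RG` : the relation of a row read on glued points; `cmT_sm`.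
* `Ok n G S' a w` : the sample point `a` has positive weight in the world of `w`; `gl_supp`, `gl_si`, `gl_cell`.
-/

set_option autoImplicit false
set_option linter.unusedSectionVars false

namespace Pool.Agent.GMH.SngC

open Finset Pool.Agent.PWZ Pool.Agent.M3 Pool.Agent.GM Pool.Agent.GM.Harm Pool.Agent.GMH
open Pool.Agent.GMH.Gdy Pool.Agent.GMH.Dy Pool.Agent.GMH.TabF Pool.Agent.GMH.CK

noncomputable section

/-- tables and points -/
abbrev Sm (W β : Type) := (Fin 3 → W) × (Fin 3 → β)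

variable {X β γ φ : Type} [Fintype X] [Fintype β] [Fintype φ] [Nonempty X] [Nonempty β]
variable {D : HD (Fin 3) X β γ φ} {al : ℝ} {prr : ℕ → Fin 3 → φ → φ} {T : ℕ} {W : Type} [Fintype W]

variable (tb : Tab D prr T W)

/-- weight of a sample (tables and points) of the group `(G, S')` in the world of `w` -/
def wsT (w0 : Om W X β) (n : ℕ) (G S' : Finset (Fin 3)) {M : ℕ} (sm : Fin M → Sm W β) (w : Om W X β) : ℝ :=
  sw (fun a => (tb.Wl n w).Pr fun y => (pj w0 G S' y).2 = a) sm

variable {tb}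

theorem wsT_nonneg {w0 : Om W X β} {n : ℕ} {G S' : Finset (Fin 3)} {M : ℕ} (sm : Fin M → Sm W β) (w : Om W X β) :
    0 ≤ wsT tb w0 n G S' sm w := sw_nonneg (fun _ => FP.Pr_nonneg _ _) sm

theorem wsT_sum (w0 : Om W X β) (n : ℕ) (G S' : Finset (Fin 3)) (M : ℕ) (w : Om W X β) :
    ∑ sm : Fin M → Sm W β, wsT tb w0 n G S' sm w = 1 := by
  classical
  exact sw_sum (Gdy.sum_law (P := tb.Wl n w) fun y => (pj w0 G S' y).2) M

/-- **sums over the samples** -/
theorem wtT_sm (w0 : Om W X β) (n : ℕ) (G S' : Finset (Fin 3)) (M : ℕ) (w : Om W X β) (f : (Fin M → Om W X β) → ℝ) :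
    ∑ us : Fin M → Om W X β, wtT tb w0 n G S' us w * f us =
      ∑ sm : Fin M → Sm W β, wsT tb w0 n G S' sm w * f (fun k => (w.1, sm k)) := by
  classical
  have h1 : ∀ us : Fin M → Om W X β, (¬ ∀ k, (us k).1 = w.1) → wtT tb w0 n G S' us w * f us = 0 := by
    intro us hne
    push Not at hne
    obtain ⟨k, hk⟩ := hne
    have h2 : (tb.Wl n w).Pr (fun y => pj w0 G S' y = us k) = 0 := by
      unfold FP.Pr
      rw [(tb.Wl n w).E_congr (g := fun _ => 0) fun y hy => ind_not fun e => hk ?_, FP.E_const]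
      rw [← e]
      show y.1 = w.1
      exact (cll_eq.1 (Wl_pos hy)).1
    unfold wtT sw
    rw [Finset.prod_eq_zero (mem_univ k) h2, zero_mul]
  have h2 : ∑ us : Fin M → Om W X β, wtT tb w0 n G S' us w * f us =
      ∑ us ∈ (univ : Finset (Fin M → Om W X β)).filter (fun us => ∀ k, (us k).1 = w.1), wtT tb w0 n G S' us w * f us := by
    rw [Finset.sum_filter]
    refine Finset.sum_congr rfl fun us _ => ?_
    split_ifs with h
    · rfl
    · exact h1 us h
  rw [h2]
  refine Finset.sum_nbij' (i := fun us k => (us k).2) (j := fun sm k => (w.1, sm k)) (fun _ _ => mem_univ _)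
    (fun sm _ => Finset.mem_filter.2 ⟨mem_univ _, fun _ => rfl⟩) ?_ (fun _ _ => rfl) ?_
  · intro us hus
    funext k
    exact Prod.ext ((Finset.mem_filter.1 hus).2 k).symm rfl
  · intro us hus
    have hus' := (Finset.mem_filter.1 hus).2
    have e1 : (fun k => (w.1, (us k).2)) = us := funext fun k => Prod.ext (hus' k).symm rfl
    rw [e1]
    congr 1
    unfold wtT wsT sw
    refine Finset.prod_congr rfl fun k _ => ?_
    refine FP.Pr_congr _ fun y hy => ?_
    have e2 : (pj w0 G S' y).1 = (us k).1 := by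
      rw [hus' k]
      exact (cll_eq.1 (Wl_pos hy)).1
    exact ⟨fun e => by rw [e], fun e => Prod.ext e2 e⟩

variable (tb) in
/-- the law does not see the value of the hidden point -/
theorem hid_E (x x' : X) (g : Sm W β → ℝ) :
    tb.Ps.E (fun u => ind (u.1 = x) * g u.2) = tb.Ps.E (fun u => ind (u.1 = x') * g u.2) := by
  classical
  have key : ∀ x : X, tb.Ps.E (fun u => ind (u.1 = x) * g u.2) =
      ∑ s : Sm W β, (∏ i, (tb.Q i).p (s.1 i)) / (Fintype.card X * (Fintype.card β : ℝ) ^ 3) * g s := by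
    intro x
    show ∑ u : X × Sm W β, tb.Ps.p u * (ind (u.1 = x) * g u.2) = _
    rw [Fintype.sum_prod_type, Finset.sum_eq_single x]
    · refine Finset.sum_congr rfl fun s _ => ?_
      rw [ind_of rfl, one_mul]
      rfl
    · intro y _ hy
      exact Finset.sum_eq_zero fun s _ => by rw [ind_not hy, zero_mul, mul_zero]
    · exact fun h => absurd (mem_univ x) h
  rw [key, key]

/-- the worlds of two points with the same cells : tables and points have the same law -/
theorem Wl_hid {n : ℕ} {w w' : Om W X β} (hc : ∀ j, D.qb n (w.2.2 j) = D.qb n (w'.2.2 j)) (A : Sm W β → Prop) :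
    (tb.Wl n w).Pr (fun y => A y.2) = (tb.Wl n w').Pr (fun y => A y.2) := by
  have key : ∀ v : Om W X β, ∀ f : Sm W β → ℝ, tb.Ps.E (fun u => ind (cll D n u = cll D n v) * f u.2) =
      tb.Ps.E (fun u => ind (u.1 = v.1) * (ind (∀ j, D.qb n (u.2.2 j) = D.qb n (v.2.2 j)) * f u.2)) := by
    intro v f
    refine tb.Ps.E_congr fun u _ => ?_
    rw [← mul_assoc, ← ind_and]
    congr 2
    exact propext cll_eq
  have e1 : ∀ f : Sm W β → ℝ, tb.Ps.E (fun u => ind (cll D n u = cll D n w) * f u.2) =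
      tb.Ps.E (fun u => ind (cll D n u = cll D n w') * f u.2) := by
    intro f
    rw [key, key, hid_E tb w.1 w'.1 (fun s => ind (∀ j, D.qb n (s.2 j) = D.qb n (w.2.2 j)) * f s)]
    refine tb.Ps.E_congr fun u _ => ?_
    congr 3
    exact propext (forall_congr' fun j => by rw [hc j])
  have e2 : tb.Ps.Pr (fun u => cll D n u = cll D n w) = tb.Ps.Pr (fun u => cll D n u = cll D n w') := by
    have h1 := e1 fun _ => 1
    simp only [mul_one] at h1
    exact h1
  show ((tb.Ps.cond fun u => cll D n u = cll D n w)).E (fun y => ind (A y.2)) =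
    ((tb.Ps.cond fun u => cll D n u = cll D n w')).E (fun y => ind (A y.2))
  rw [FP.cond_E (Wl_ne tb n w), FP.cond_E (Wl_ne tb n w'), e1 fun s => ind (A s), e2]

/-- **the weight sees the cells only** -/
theorem wsT_cells {w0 : Om W X β} {n : ℕ} {G S' : Finset (Fin 3)} {M : ℕ} (sm : Fin M → Sm W β) {w w' : Om W X β}
    (hc : ∀ j, D.qb n (w.2.2 j) = D.qb n (w'.2.2 j)) : wsT tb w0 n G S' sm w = wsT tb w0 n G S' sm w' := by
  unfold wsT sw
  refine Finset.prod_congr rfl fun k _ => ?_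
  exact Wl_hid hc (fun s => ((fun i => if i ∈ S' then s.1 i else w0.2.1 i), fun j => if j ∈ G then s.2 j else w0.2.2 j) =
    sm k)

/-! ### glued points -/

/-- hidden point, points of `F` and tables of `S` of `u`, the rest of the sample point `a` -/
def gl (F S : Finset (Fin 3)) (a : Sm W β) (u : Om W X β) : Om W X β :=
  (u.1, (fun i => if i ∈ S then u.2.1 i else a.1 i), fun j => if j ∈ F then u.2.2 j else a.2 j)

/-- the relation of a row, read on glued points -/
def RG (w0 : Om W X β) (F S : Finset (Fin 3)) (Rl : Om W X β → Om W X β → Prop) (H : Om W X β → Prop) : Prop :=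
  ∀ (a : Sm W β) (u : Om W X β), Rl (u.1, a) (pj w0 F S u) ↔ H (gl F S a u)

theorem RG_one (w0 : Om W X β) (F S : Finset (Fin 3)) (H : Om W X β → Prop) : RG w0 F S (RT F S H) H := by
  intro a u
  have e : mx F S (pj w0 F S u) (u.1, a) = gl F S a u := by
    unfold mx pj gl
    refine Prod.ext rfl (Prod.ext (funext fun i => ?_) (funext fun j => ?_))
    · show (if i ∈ S then (if i ∈ S then u.2.1 i else w0.2.1 i) else a.1 i) = if i ∈ S then u.2.1 i else a.1 i
      by_cases h : i ∈ S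
      · rw [if_pos h, if_pos h, if_pos h]
      · rw [if_neg h, if_neg h]
    · show (if j ∈ F then (if j ∈ F then u.2.2 j else w0.2.2 j) else a.2 j) = if j ∈ F then u.2.2 j else a.2 j
      by_cases h : j ∈ F
      · rw [if_pos h, if_pos h, if_pos h]
      · rw [if_neg h, if_neg h]
  unfold RT
  rw [e]

theorem RG_two (w0 : Om W X β) {G S' F S : Finset (Fin 3)} (hc : Cp G S' F S) (H : Om W X β → Prop) :
    RG w0 G S' (fun b a => RT F S H a b) H := by
  intro a u
  have e : mx F S (u.1, a) (pj w0 G S' u) = gl G S' a u := by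
    unfold mx pj gl
    refine Prod.ext rfl (Prod.ext (funext fun i => ?_) (funext fun j => ?_))
    · show (if i ∈ S then a.1 i else if i ∈ S' then u.2.1 i else w0.2.1 i) = if i ∈ S' then u.2.1 i else a.1 i
      by_cases h : i ∈ S
      · have h' : i ∉ S' := fun h2 => absurd (hc.sf (Finset.mem_inter.2 ⟨h2, h⟩)) (notMem_empty i)
        rw [if_pos h, if_neg h']
      · have h' : i ∈ S' := (Finset.mem_union.1 (hc.su ▸ mem_univ i)).resolve_right h
        rw [if_neg h, if_pos h', if_pos h']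
    · show (if j ∈ F then a.2 j else if j ∈ G then u.2.2 j else w0.2.2 j) = if j ∈ G then u.2.2 j else a.2 j
      by_cases h : j ∈ F
      · have h' : j ∉ G := fun h2 => absurd (hc.gf (Finset.mem_inter.2 ⟨h2, h⟩)) (notMem_empty j)
        rw [if_pos h, if_neg h']
      · have h' : j ∈ G := (Finset.mem_union.1 (hc.gu ▸ mem_univ j)).resolve_right h
        rw [if_neg h, if_pos h', if_pos h']
  show H (mx F S (u.1, a) (pj w0 G S' u)) ↔ H (gl G S' a u)
  rw [e]

/-- the mass of the rows `I`, on glued points -/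
theorem cmT_sm {w0 : Om W X β} {F S : Finset (Fin 3)} {Rl : Om W X β → Om W X β → Prop} {H : Om W X β → Prop}
    (hRG : RG w0 F S Rl H) {M : ℕ} (sm : Fin M → Sm W β) (I : Finset (Fin M)) (m : ℕ) (w : Om W X β) :
    cmT tb w0 F S Rl (fun k => (w.1, sm k)) I m w =
      tb.Ps.ce (sgt D ∅ m) (fun u => ind (∃ k ∈ I, H (gl F S (sm k) u))) w := by
  unfold cmT
  refine ce_congr_on fun u _ hu => ?_
  congr 1
  refine propext (exists_congr fun k => and_congr_right fun _ => ?_)
  rw [← hRG (sm k) u, (sgt_eq.1 hu).1]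

/-- the sample point `a` has positive weight in the world of `w` -/
def Ok (tb : Tab D prr T W) (w0 : Om W X β) (n : ℕ) (G S' : Finset (Fin 3)) (a : Sm W β) (w : Om W X β) : Prop :=
  ∃ y, tb.Ps.p y ≠ 0 ∧ cll D n y = cll D n w ∧ (pj w0 G S' y).2 = a

theorem ok_of_wsT {w0 : Om W X β} {n : ℕ} {G S' : Finset (Fin 3)} {M : ℕ} {sm : Fin M → Sm W β} {w : Om W X β}
    (h : wsT tb w0 n G S' sm w ≠ 0) (k : Fin M) : Ok tb w0 n G S' (sm k) w := by
  by_contra hne
  refine h ?_
  unfold wsT sw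
  refine Finset.prod_eq_zero (mem_univ k) ?_
  show (tb.Wl n w).E (fun y => ind ((pj w0 G S' y).2 = sm k)) = 0
  rw [(tb.Wl n w).E_congr (g := fun _ => 0) fun y hy => ind_not fun e => hne ⟨y, ((Wl_supp tb).1 hy).1, Wl_pos hy, e⟩,
    FP.E_const]

theorem Ok.mono {w0 : Om W X β} {n : ℕ} {G S' : Finset (Fin 3)} {a : Sm W β} {w w' : Om W X β}
    (h : Ok tb w0 n G S' a w) (hc : ∀ j, D.qb n (w.2.2 j) = D.qb n (w'.2.2 j)) : Ok tb w0 n G S' a w' := by
  obtain ⟨y, h1, h2, h3⟩ := h
  refine ⟨(w'.1, y.2), ?_, ?_, h3⟩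
  · intro h4
    apply h1
    have e : tb.Ps.p (w'.1, y.2) = tb.Ps.p y := rfl
    rw [← e]
    exact h4
  · refine cll_eq.2 ⟨rfl, fun j => ?_⟩
    rw [← hc j]
    exact (cll_eq.1 h2).2 j

/-- glued points are in the support -/
theorem gl_supp {w0 : Om W X β} {n : ℕ} {G S' F S : Finset (Fin 3)} (hc : Cp G S' F S) {a : Sm W β} {w u : Om W X β}
    (h : Ok tb w0 n G S' a w) (hu : tb.Ps.p u ≠ 0) : tb.Ps.p (gl F S a u) ≠ 0 := by
  obtain ⟨y, h1, -, h3⟩ := h
  have hX : (Fintype.card X : ℝ) * (Fintype.card β : ℝ) ^ 3 ≠ 0 := by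
    have h4 : (Fintype.card X : ℝ) ≠ 0 := by exact_mod_cast Fintype.card_ne_zero
    have h5 : (Fintype.card β : ℝ) ≠ 0 := by exact_mod_cast Fintype.card_ne_zero
    exact mul_ne_zero h4 (pow_ne_zero _ h5)
  have key : ∀ v : Om W X β, tb.Ps.p v ≠ 0 ↔ ∀ i, (tb.Q i).p (v.2.1 i) ≠ 0 := by
    intro v
    show (∏ i, (tb.Q i).p (v.2.1 i)) / ((Fintype.card X : ℝ) * (Fintype.card β : ℝ) ^ 3) ≠ 0 ↔ _
    rw [div_ne_zero_iff, Finset.prod_ne_zero_iff]
    exact ⟨fun hh i => hh.1 i (mem_univ i), fun hh => ⟨fun i _ => hh i, hX⟩⟩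
  rw [key] at h1 hu ⊢
  intro i
  show (tb.Q i).p (if i ∈ S then u.2.1 i else a.1 i) ≠ 0
  by_cases h : i ∈ S
  · rw [if_pos h]
    exact hu i
  · have h' : i ∈ S' := (Finset.mem_union.1 (hc.su ▸ mem_univ i)).resolve_right h
    rw [if_neg h]
    have e : a.1 i = y.2.1 i := by
      rw [← h3]
      show (if i ∈ S' then y.2.1 i else w0.2.1 i) = y.2.1 i
      rw [if_pos h']
    rw [e]
    exact h1 i

/-- cells of a glued point -/
theorem gl_cell {w0 : Om W X β} {n : ℕ} {G S' F S : Finset (Fin 3)} (hc : Cp G S' F S) {a : Sm W β} {w u : Om W X β}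
    (h : Ok tb w0 n G S' a w) (hu : ∀ j, D.qb n (u.2.2 j) = D.qb n (w.2.2 j)) (j : Fin 3) :
    D.qb n ((gl F S a u).2.2 j) = D.qb n (w.2.2 j) := by
  obtain ⟨y, -, h2, h3⟩ := h
  show D.qb n (if j ∈ F then u.2.2 j else a.2 j) = D.qb n (w.2.2 j)
  by_cases h : j ∈ F
  · rw [if_pos h]
    exact hu j
  · have h' : j ∈ G := (Finset.mem_union.1 (hc.gu ▸ mem_univ j)).resolve_right h
    rw [if_neg h]
    have e : a.2 j = y.2.2 j := by
      rw [← h3]
      show (if j ∈ G then y.2.2 j else w0.2.2 j) = y.2.2 j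
      rw [if_pos h']
    rw [e]
    exact (cll_eq.1 h2).2 j

/-- the side of the sample of a glued point -/
theorem gl_siG {w0 : Om W X β} {n : ℕ} {G S' F S : Finset (Fin 3)} (hc : Cp G S' F S) {a : Sm W β} {w u v : Om W X β}
    (h : Ok tb w0 n G S' a w) (hu : ∀ j, D.qb n (u.2.2 j) = D.qb n (w.2.2 j))
    (hv : ∀ j, D.qb n (v.2.2 j) = D.qb n (w.2.2 j)) (huv : u.1 = v.1) :
    si D G univ S' n (gl F S a u) = si D G univ S' n (gl F S a v) := by
  refine si_eq.2 ⟨huv, fun i hi => ?_, fun j hj => ?_, fun j _ => ?_⟩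
  · have h' : i ∉ S := fun h2 => absurd (hc.sf (Finset.mem_inter.2 ⟨hi, h2⟩)) (notMem_empty i)
    show (if i ∈ S then u.2.1 i else a.1 i) = if i ∈ S then v.2.1 i else a.1 i
    rw [if_neg h', if_neg h']
  · have h' : j ∉ F := fun h2 => absurd (hc.gf (Finset.mem_inter.2 ⟨hj, h2⟩)) (notMem_empty j)
    show (if j ∈ F then u.2.2 j else a.2 j) = if j ∈ F then v.2.2 j else a.2 j
    rw [if_neg h', if_neg h']
  · rw [gl_cell hc h hu j, gl_cell hc h hv j]

/-- the other side of a glued point -/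
theorem gl_siF {w0 : Om W X β} {n : ℕ} {G S' F S : Finset (Fin 3)} (hc : Cp G S' F S) {a : Sm W β} {w u : Om W X β}
    (h : Ok tb w0 n G S' a w) (hu : ∀ j, D.qb n (u.2.2 j) = D.qb n (w.2.2 j)) :
    si D F univ S n (gl F S a u) = si D F univ S n u := by
  refine si_eq.2 ⟨rfl, fun i hi => ?_, fun j hj => ?_, fun j _ => ?_⟩
  · show (if i ∈ S then u.2.1 i else a.1 i) = u.2.1 i
    rw [if_pos hi]
  · show (if j ∈ F then u.2.2 j else a.2 j) = u.2.2 j
    rw [if_pos hj]
  · rw [gl_cell hc h hu j, hu j]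

end

end Pool.Agent.GMH.SngC
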