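import Pool.Agent.GMH.SngC5

/-!
# GMH/SngC6 (helper73): NAMES OF THE ROWS, ONE DIRECTION (kind S, block (C))

* `szn t` = number of the rows named by `t : Fin M → Option L`; `nms A` = names with letters in `A`; `names_sum`;
* `relT` : the letter `g` of the group of the sample is related to the letter of the other group of `u`; `RN t` its union over
  the named rows;
* **`dir_lin`** : the potential of the cover at the state `q'` satisfies `Lin` if the linear rarity holds for the sets `RN t`.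
-/

set_option autoImplicit false
set_option linter.unusedSectionVars false

namespace Pool.Agent.GMH.SngC

open Finset Pool.Agent.PWZ Pool.Agent.M3 Pool.Agent.GM Pool.Agent.GM.Harm Pool.Agent.GMH
open Pool.Agent.GMH.Gdy Pool.Agent.GMH.Dy Pool.Agent.GMH.TabF Pool.Agent.GMH.CK

noncomputable section

/-! ### names -/

section names

variable {L : Type} {M : ℕ}

open Classical in
/-- number of the named rows -/
def szn (t : Fin M → Option L) : ℕ := (univ.filter fun k => t k ≠ none).card

open Classical in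
/-- names with letters in `A` -/
def nms (A : Fin M → Finset L) : Finset (Fin M → Option L) := Fintype.piFinset fun k => (A k).insertNone

theorem exp_szn (c : ℝ) (t : Fin M → Option L) :
    Real.exp (-(c * szn t)) = ∏ k, (if t k = none then 1 else Real.exp (-c)) := by
  classical
  unfold szn
  rw [Finset.prod_ite, Finset.prod_const_one, one_mul, Finset.prod_const, ← Real.exp_nat_mul]
  congr 1
  ring

/-- **few names** -/
theorem names_sum (A : Fin M → Finset L) {B c : ℝ} (hB : ∀ k, ((A k).card : ℝ) ≤ B) (h : M * (B * Real.exp (-c)) ≤ 1 / 2) :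
    ∑ t ∈ (nms A).filter (fun t => 1 ≤ szn t), Real.exp (-(c * szn t)) ≤ 1 := by
  classical
  set f : (Fin M → Option L) → ℝ := fun t => Real.exp (-(c * szn t)) with hf
  have f0 : ∀ t, 0 ≤ f t := fun t => (Real.exp_pos _).le
  -- the sum over all names
  have h1 : ∑ t ∈ nms A, f t = ∏ k, (1 + (A k).card * Real.exp (-c)) := by
    rw [hf]
    simp only [exp_szn]
    unfold nms
    rw [← Finset.prod_univ_sum (fun k => (A k).insertNone) (fun _ o => if o = none then 1 else Real.exp (-c))]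
    refine Finset.prod_congr rfl fun k _ => ?_
    have e : (A k).insertNone = insert none ((A k).map Function.Embedding.some) := by
      ext o
      cases o with
      | none => simp
      | some a => simp
    rw [e, Finset.sum_insert (by simp), if_pos rfl, Finset.sum_map]
    congr 1
    rw [Finset.sum_congr rfl (fun a _ => if_neg (by simp)), Finset.sum_const, nsmul_eq_mul]
  have h2 : ∏ k, (1 + ((A k).card : ℝ) * Real.exp (-c)) ≤ Real.exp (1 / 2) := by
    have h3 : ∏ k, (1 + ((A k).card : ℝ) * Real.exp (-c)) ≤ ∏ _k : Fin M, Real.exp (B * Real.exp (-c)) := by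
      refine Finset.prod_le_prod (fun k _ => by positivity) fun k _ => ?_
      have h4 : ((A k).card : ℝ) * Real.exp (-c) ≤ B * Real.exp (-c) :=
        mul_le_mul_of_nonneg_right (hB k) (Real.exp_pos _).le
      have h5 := Real.add_one_le_exp (B * Real.exp (-c))
      linarith
    refine h3.trans ?_
    rw [Finset.prod_const, Finset.card_univ, Fintype.card_fin, ← Real.exp_nat_mul]
    exact Real.exp_le_exp.2 h
  have h6 : Real.exp (1 / 2) ≤ 2 := by
    have h7 : Real.exp (1 / 2) * Real.exp (1 / 2) = Real.exp 1 := by rw [← Real.exp_add]; norm_num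
    have h8 := Real.exp_one_lt_d9
    have h9 := Real.exp_pos (1 / 2)
    nlinarith
  -- the empty name
  have hn : (fun _ => none) ∈ nms A := by
    unfold nms
    rw [Fintype.mem_piFinset]
    intro k
    simp
  have h0 : szn (fun _ : Fin M => (none : Option L)) = 0 := by
    unfold szn
    rw [Finset.card_eq_zero, Finset.filter_eq_empty_iff]
    intro k _ hk
    exact hk rfl
  have h3 : ∑ t ∈ (nms A).filter (fun t => 1 ≤ szn t), f t + 1 ≤ ∑ t ∈ nms A, f t := by
    rw [← Finset.sum_filter_add_sum_filter_not (nms A) (fun t => 1 ≤ szn t) f]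
    refine add_le_add le_rfl ?_
    refine le_trans (le_of_eq ?_) (Finset.single_le_sum (f := f) (fun t _ => f0 t)
      (Finset.mem_filter.2 ⟨hn, by rw [h0]; omega⟩))
    rw [hf]
    simp only [h0]
    rw [Nat.cast_zero, mul_zero, neg_zero, Real.exp_zero]
  linarith

end names

variable {X β γ φ : Type} [Fintype X] [Fintype β] [Fintype φ] [Nonempty X] [Nonempty β]
variable {D : HD (Fin 3) X β γ φ} {al : ℝ} {prr : ℕ → Fin 3 → φ → φ} {T : ℕ} {W : Type} [Fintype W]
variable {tb : Tab D prr T W} {LG LF κ : Type}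

/-- the letter `g` of the group of the sample is related to the letter of the other group of `u` -/
def relT (tb : Tab D prr T W) (N : Om W X β → κ) (lG : Om W X β → LG) (lF : Om W X β → LF) (H : Om W X β → Prop) (g : LG)
    (u : Om W X β) : Prop := ∃ z, tb.Ps.p z ≠ 0 ∧ N z = N u ∧ lG z = g ∧ lF z = lF u ∧ H z

/-- the union over the named rows -/
def RN (tb : Tab D prr T W) (N : Om W X β → κ) (lG : Om W X β → LG) (lF : Om W X β → LF) (H : Om W X β → Prop) {M : ℕ}
    (t : Fin M → Option LG) (u : Om W X β) : Prop := ∃ k g, t k = some g ∧ relT tb N lG lF H g u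

open Classical in
/-- a choice -/
def pick {M : ℕ} (p : Finset (Fin M) → Prop) : Finset (Fin M) := if h : ∃ J, p J then h.choose else ∅

theorem pick_spec {M : ℕ} {p : Finset (Fin M) → Prop} (h : ∃ J, p J) : p (pick p) := by
  classical
  unfold pick
  rw [dif_pos h]
  exact h.choose_spec

theorem mono_sup {Om ι : Type*} [Fintype Om] (P : FP Om) {Y : Om → ι} {f g : Om → ℝ} {w : Om}
    (hfg : ∀ u, P.p u ≠ 0 → Y u = Y w → f u ≤ g u) : P.ce Y f w ≤ P.ce Y g w := by
  unfold FP.ce
  refine div_le_div_of_nonneg_right (P.E_mono fun u hu => ?_) (P.m_nonneg _ _)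
  by_cases hy : Y u = Y w
  · exact mul_le_mul_of_nonneg_left (hfg u hu hy) (ind_nonneg _)
  · rw [ind_not hy, zero_mul, zero_mul]

theorem Phi_fac {Om : Type*} [Fintype Om] {P : FP Om} {κ : ℕ → Type*} {X : ∀ t, Om → κ t} {u : ℝ} {H : ℕ → Om → Prop}
    {M : ℕ} (s : ℕ) : Fac (X s) (Gdy.Phi P X u H M s) := by
  intro a b hab
  unfold Gdy.Phi
  exact Finset.sum_congr rfl fun r _ => by rw [cp_fac s (Nn P X u H M r (s + 1)) a b hab]

open Classical in
/-- **ONE DIRECTION** : the potential of a cover against linear rarity -/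
theorem dir_lin {w0 : Om W X β} {G S' F S : Finset (Fin 3)} (hc : Cp G S' F S) {lv : ℕ → ℕ} {T' ν q' : ℕ}
    (hνq : ν ≤ q') (hq : q' ≤ T') (hlv : lv ν ≤ lv q') {H : Om W X β → Prop} {Rl : Om W X β → Om W X β → Prop}
    (hRG : RG w0 F S Rl H) {x : ℝ} (hx : 0 < x) {M : ℕ} (sm : Fin M → Sm W β) {N : Om W X β → κ} {lG : Om W X β → LG}
    {lF : Om W X β → LF} (hN : Fac (sgt D ∅ (lv ν)) N) (hG : Fac (si D G univ S' (lv ν)) lG)
    (hF : Fac (si D F univ S (lv ν)) lF) {V : Om W X β → Prop} (hV : Fac (sgt D ∅ (lv q')) V) {w : Om W X β}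
    (hVc : ∀ u, V u → ∀ j, D.qb (lv ν) (u.2.2 j) = D.qb (lv ν) (w.2.2 j))
    (hok : ∀ k, Ok tb w0 (lv ν) G S' (sm k) w) {m K b e c B : ℝ} (hK : 0 < K) (hb : 0 ≤ b)
    (hbx : b + 1 ≤ x / (32 * K)) (hm : tb.Ps.Pr V ≤ m) (hxe : 8 * (K * c + e) ≤ x)
    (hB : ∀ k, (((univ.filter fun u => tb.Ps.p u ≠ 0 ∧ V u ∧ H (gl F S (sm k) u)).image
      fun u => lG (gl F S (sm k) u)).card : ℝ) ≤ B) (hMB : M * (B * Real.exp (-c)) ≤ 1 / 2)
    (hR : ∀ t : Fin M → Option LG, (∀ k g, t k = some g → ∃ u, tb.Ps.p u ≠ 0 ∧ V u ∧ H (gl F S (sm k) u) ∧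
        lG (gl F S (sm k) u) = g) → 1 ≤ szn t → ∀ E : Om W X β → Prop, Fac (sgt D ∅ (lv q')) E → (∀ u, E u → V u) →
      tb.Ps.Pr E ≠ 0 → tb.Ps.Pr (fun u => E u ∧ RN tb N lG lF H t u) ≤
        tb.Ps.Pr E * (K * (Real.log (m / tb.Ps.Pr E) + b) + e * szn t)) :
    ∃ τ : Om W X β → (Fin M → Option LG), Lin tb.Ps (sgt D ∅ (lv q')) τ szn (RN tb N lG lF H) V
      (fun u => PhE tb w0 lv T' F S Rl x (fun k => (u.1, sm k)) ν q' u) x m K b e c := by
  classical
  set nd : Om W X β → _ := sgt (W := W) (X := X) D ∅ (lv q') with hnd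
  set ph : Om W X β → ℝ := fun u => PhE tb w0 lv T' F S Rl x (fun k => (u.1, sm k)) ν q' u with hph
  set cm : Finset (Fin M) → Om W X β → ℝ := fun I u =>
    tb.Ps.ce nd (fun v => ind (∃ k ∈ I, H (gl F S (sm k) v))) u with hcm
  have hcell : ∀ a b : Om W X β, nd a = nd b → a.1 = b.1 ∧ ∀ j, D.qb (lv ν) (a.2.2 j) = D.qb (lv ν) (b.2.2 j) := by
    intro a b hab
    have h1 := sgt_eq.1 hab
    exact ⟨h1.1, fun j => Dy.qb_mono hlv (h1.2.2 j)⟩
  have fph : Fac nd ph := by
    intro a b hab
    obtain ⟨h1, h2⟩ := hcell a b hab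
    have e1 : tb.Wl (lv ν) a = tb.Wl (lv ν) b := Wl_cll (cll_eq.2 ⟨h1, h2⟩)
    have e2 : lv (min (ν + (q' - ν)) T') = lv q' := by
      congr 1
      omega
    show PhE tb w0 lv T' F S Rl x (fun k => (a.1, sm k)) ν q' a = PhE tb w0 lv T' F S Rl x (fun k => (b.1, sm k)) ν q' b
    unfold PhE PhT
    rw [h1, e1]
    refine Phi_fac (q' - ν) a b ?_
    show si D ∅ F ∅ (lv (min (ν + (q' - ν)) T')) a = si D ∅ F ∅ (lv (min (ν + (q' - ν)) T')) b
    rw [e2]
    have h3 := sgt_eq.1 hab
    exact si_eq.2 ⟨h3.1, fun i hi => absurd hi (notMem_empty i), fun j hj => absurd hj (notMem_empty j),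
      fun j _ => h3.2.2 j⟩
  -- the chosen rows
  set pr : Om W X β → Finset (Fin M) → Prop := fun u I => I.Nonempty ∧ ph u ≤ cm I u ∧ I.card * x / 4 ≤ cm I u with hpr
  have fpr : Fac nd pr := by
    intro a b hab
    funext I
    show (I.Nonempty ∧ ph a ≤ cm I a ∧ I.card * x / 4 ≤ cm I a) = (I.Nonempty ∧ ph b ≤ cm I b ∧ I.card * x / 4 ≤ cm I b)
    have e1 : cm I a = cm I b := tb.Ps.ce_fac nd _ a b hab
    rw [fph a b hab, e1]
  set I : Om W X β → Finset (Fin M) := fun u => pick (pr u) with hI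
  have fI : Fac nd I := fun a b hab => congrArg pick (fpr a b hab)
  set J : Om W X β → Finset (Fin M) := fun u => (I u).filter fun k => ∃ v, tb.Ps.p v ≠ 0 ∧ nd v = nd u ∧
    H (gl F S (sm k) v) with hJ
  have fJ : Fac nd J := by
    intro a b hab
    show (I a).filter (fun k => ∃ v, tb.Ps.p v ≠ 0 ∧ nd v = nd a ∧ H (gl F S (sm k) v)) =
      (I b).filter fun k => ∃ v, tb.Ps.p v ≠ 0 ∧ nd v = nd b ∧ H (gl F S (sm k) v)
    rw [fI a b hab, hab]
  -- letters of the samples
  set gk : Om W X β → Fin M → LG := fun u k => lG (gl F S (sm k) u) with hgk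
  have hgk' : ∀ a b : Om W X β, V a → nd a = nd b → ∀ k, gk a k = gk b k := by
    intro a b ha hab k
    obtain ⟨h1, h2⟩ := hcell a b hab
    have h3 := hVc a ha
    exact hG _ _ (gl_siG hc (hok k) h3 (fun j => by rw [← h2 j]; exact h3 j) h1)
  set tau : Om W X β → (Fin M → Option LG) := fun u k => if V u ∧ k ∈ J u then some (gk u k) else none with htau
  have ftau : Fac nd tau := by
    intro a b hab
    funext k
    show (if V a ∧ k ∈ J a then some (gk a k) else none) = if V b ∧ k ∈ J b then some (gk b k) else none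
    have e1 : V a = V b := hV a b hab
    have e2 : J a = J b := fJ a b hab
    by_cases h : V a ∧ k ∈ J a
    · rw [if_pos h, if_pos (by rw [← e1, ← e2]; exact h), hgk' a b h.1 hab k]
    · rw [if_neg h, if_neg (by rw [← e1, ← e2]; exact h)]
  set A : Fin M → Finset LG := fun k => (univ.filter fun u => tb.Ps.p u ≠ 0 ∧ V u ∧ H (gl F S (sm k) u)).image
      fun u => lG (gl F S (sm k) u) with hA
  have hJA : ∀ u, V u → ∀ k ∈ J u, ∃ v, tb.Ps.p v ≠ 0 ∧ V v ∧ nd v = nd u ∧ H (gl F S (sm k) v) ∧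
      lG (gl F S (sm k) v) = gk u k := by
    intro u hu k hk
    obtain ⟨v, hv, hvu, hHv⟩ := (Finset.mem_filter.1 hk).2
    have hVv : V v := by rw [hV v u hvu]; exact hu
    exact ⟨v, hv, hVv, hvu, hHv, hgk' v u hVv hvu k⟩
  have htA : ∀ u, tau u ∈ nms A := by
    intro u
    unfold nms
    rw [Fintype.mem_piFinset]
    intro k
    show (if V u ∧ k ∈ J u then some (gk u k) else none) ∈ (A k).insertNone
    by_cases h : V u ∧ k ∈ J u
    · rw [if_pos h, Finset.some_mem_insertNone]
      obtain ⟨v, h1, h2, -, h4, h5⟩ := hJA u h.1 k h.2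
      exact Finset.mem_image.2 ⟨v, Finset.mem_filter.2 ⟨mem_univ v, h1, h2, h4⟩, h5⟩
    · rw [if_neg h]
      exact Finset.none_mem_insertNone
  have hsz : ∀ u, V u → szn (tau u) = (J u).card := by
    intro u hu
    unfold szn
    congr 1
    ext k
    rw [Finset.mem_filter]
    constructor
    · rintro ⟨-, h⟩
      by_contra hk
      exact h (if_neg fun hh => hk hh.2)
    · intro hk
      refine ⟨mem_univ k, ?_⟩
      show (if V u ∧ k ∈ J u then some (gk u k) else none) ≠ none
      rw [if_pos ⟨hu, hk⟩]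
      exact Option.some_ne_none _
  refine ⟨tau, ?_⟩
  refine ⟨ftau, hV, fph, fun u => PhE_nonneg u, fun u hu => PhE_le_one hx hu, ⟨nms A, ?_, ?_, ?_⟩, hK, hb, hbx, hm, hxe⟩
  · -- the nodes
    intro u hu hVu hpos
    obtain ⟨I0, h1, h2, h3⟩ := PhE_cm (tb := tb) (w0 := w0) (lv := lv) (T' := T') (F := F) (S := S) (Rl := Rl) hx
      (fun k => (u.1, sm k)) hνq hq hlv hu hpos
    have e1 := cmT_sm (tb := tb) hRG sm I0 (lv q') u
    rw [e1] at h2 h3
    have hex : ∃ J, pr u J := ⟨I0, h1, h2, h3⟩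
    have hIu : pr u (I u) := pick_spec hex
    obtain ⟨i1, i2, i3⟩ := hIu
    have hle : cm (I u) u ≤ tb.Ps.ce nd (fun v => ind (RN tb N lG lF H (tau u) v)) u := by
      refine mono_sup tb.Ps fun v hv hvu => ind_mono ?_
      rintro ⟨k, hk, hHk⟩
      have hkJ : k ∈ J u := Finset.mem_filter.2 ⟨hk, v, hv, hvu, hHk⟩
      have hVv : V v := by rw [hV v u hvu]; exact hVu
      have hcv := hVc v hVv
      refine ⟨k, gk u k, if_pos ⟨hVu, hkJ⟩, gl F S (sm k) v, gl_supp hc (hok k) hv, ?_, ?_, ?_, hHk⟩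
      · refine hN _ _ (sgt_eq.2 ⟨rfl, fun j hj => absurd hj (notMem_empty j), fun j => ?_⟩)
        rw [gl_cell hc (hok k) hcv j, hcv j]
      · exact hgk' v u hVv hvu k
      · exact hF _ _ (gl_siF hc (hok k) hcv)
    have hJI : ((J u).card : ℝ) ≤ (I u).card := by
      exact_mod_cast Finset.card_le_card (Finset.filter_subset _ _)
    have hpos2 : 0 < cm (I u) u := lt_of_lt_of_le hpos i2
    have hJn : (J u).Nonempty := by
      by_contra hJe
      rw [Finset.not_nonempty_iff_eq_empty] at hJe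
      have h0 : cm (I u) u = 0 := by
        show tb.Ps.ce nd (fun v => ind (∃ k ∈ I u, H (gl F S (sm k) v))) u = 0
        have h4 : tb.Ps.ce nd (fun v => ind (∃ k ∈ I u, H (gl F S (sm k) v))) u = tb.Ps.ce nd (fun _ => 0) u := by
          refine ce_congr_on fun v hv hvu => ind_not ?_
          rintro ⟨k, hk, hHk⟩
          have : k ∈ J u := Finset.mem_filter.2 ⟨hk, v, hv, hvu, hHk⟩
          rw [hJe] at this
          exact absurd this (notMem_empty k)
        rw [h4, tb.Ps.ce_const nd 0 hu]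
      linarith
    refine ⟨htA u, ?_, i2.trans hle, ?_⟩
    · rw [hsz u hVu]
      exact Finset.card_pos.2 hJn
    · rw [hsz u hVu]
      have h4 : ((J u).card : ℝ) * x / 4 ≤ (I u).card * x / 4 := by
        have := mul_le_mul_of_nonneg_right hJI hx.le
        linarith
      exact h4.trans (i3.trans hle)
  · -- linear rarity
    intro t ht E hE hEV hE0
    have hlt : ∀ k g, t k = some g → ∃ u, tb.Ps.p u ≠ 0 ∧ V u ∧ H (gl F S (sm k) u) ∧ lG (gl F S (sm k) u) = g := by
      intro k g hk
      unfold nms at ht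
      rw [Fintype.mem_piFinset] at ht
      have h1 := ht k
      rw [hk, Finset.some_mem_insertNone] at h1
      obtain ⟨u, h2, h3⟩ := Finset.mem_image.1 h1
      obtain ⟨-, h4, h5, h6⟩ := Finset.mem_filter.1 h2
      exact ⟨u, h4, h5, h6, h3⟩
    by_cases h1 : 1 ≤ szn t
    · exact hR t hlt h1 E hE hEV hE0
    · have h2 : ∀ k, t k = none := by
        intro k
        by_contra hk
        refine h1 ?_
        unfold szn
        exact Finset.card_pos.2 ⟨k, Finset.mem_filter.2 ⟨mem_univ k, hk⟩⟩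
      have h3 : tb.Ps.Pr (fun u => E u ∧ RN tb N lG lF H t u) = 0 := by
        unfold FP.Pr
        rw [tb.Ps.E_congr (g := fun _ => 0) fun u _ => ind_not ?_, FP.E_const]
        rintro ⟨-, k, g, hk, -⟩
        rw [h2 k] at hk
        exact absurd hk (by simp)
      rw [h3]
      have h4 : 0 < tb.Ps.Pr E := lt_of_le_of_ne (tb.Ps.Pr_nonneg _) (Ne.symm hE0)
      have h5 : tb.Ps.Pr E ≤ m := (tb.Ps.Pr_mono fun u _ hu => hEV u hu).trans hm
      have h6 : 0 ≤ Real.log (m / tb.Ps.Pr E) := Real.log_nonneg (by rw [le_div_iff₀ h4, one_mul]; exact h5)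
      have h7 : szn t = 0 := by omega
      rw [h7, Nat.cast_zero, mul_zero, add_zero]
      positivity
  · exact names_sum A hB hMB

end

end Pool.Agent.GMH.SngC
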