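import Pool.Agent.GMH.SngC6
import Pool.Agent.GMH.SngDef
import Pool.Agent.GMH.MV9

/-!
# GMH/SngC7 (helper73): LINEAR RARITY FOR EVENTS OF A NODE (kind S, block (C))

* `Sees tb M` : what the data of `M` see (cells, own points, own table);
* `hat M q E` : the event of the hidden point under an event `E` of a node of the same or of the next level; `hat_le` : its
  probability is at most `8 P E` (half cells);
* **`lin_hat`** : linear rarity for the hat (`LinR`) gives linear rarity for `E`, with the class `5 (q / 5)`.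
-/

set_option autoImplicit false
set_option linter.unusedSectionVars false

namespace Pool.Agent.GMH.SngC

open Finset Pool.Agent.PWZ Pool.Agent.M3 Pool.Agent.GM Pool.Agent.GM.Harm Pool.Agent.GMH
open Pool.Agent.GMH.Gdy Pool.Agent.GMH.Dy Pool.Agent.GMH.TabF Pool.Agent.GMH.CK Pool.Agent.GMH.MV Pool.Agent.GMH.Sng

noncomputable section

variable {X β γ φ : Type} [Fintype X] [Fintype β] [Fintype φ] [Nonempty X] [Nonempty β]
variable {D : HD (Fin 3) X β γ φ} {al : ℝ} {prr : ℕ → Fin 3 → φ → φ} {T : ℕ} {W : Type} [Fintype W]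

/-- what the data of `M` see -/
structure Sees (tb : Tab D prr T W) (M : MS (Om W X β)) : Prop where
  P : M.P = tb.Ps
  N : ∀ q, Fac (sgt D ∅ (TP.nn q)) (M.NP q)
  c : ∀ q a b, M.NP q a = M.NP q b → ∀ j, D.qb (TP.nn q) (a.2.2 j) = D.qb (TP.nn q) (b.2.2 j)
  X : ∀ j q, Fac (si D {j} univ ∅ (TP.nn q)) (M.XL j q)
  C : ∀ i q, Fac (si D (univ.erase i) univ {i} (TP.nn q)) (CX M i q)
  Y : ∀ j a b, M.YP j a = M.YP j b ↔ a.2.2 j = b.2.2 j

variable {tb : Tab D prr T W} {M : MS (Om W X β)}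

/-- the event of the hidden point under `E` -/
def hat (M : MS (Om W X β)) (q : ℕ) (E : Om W X β → Prop) (u : Om W X β) : Prop :=
  ∃ u', E u' ∧ u'.1 = u.1 ∧ M.NP q u' = M.NP q u

theorem hat_fac (q : ℕ) (E : Om W X β → Prop) : Fac (fun u : Om W X β => (u.1, M.NP q u)) (hat M q E) := by
  intro a b hab
  obtain ⟨h1, h2⟩ := Prod.mk.inj hab
  unfold hat
  rw [h1, h2]

theorem hat_self {q : ℕ} {E : Om W X β → Prop} {u : Om W X β} (h : E u) : hat M q E u := ⟨u, h, rfl, rfl⟩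

/-- **half cells** -/
theorem hat_le {dg : ℕ → X → ℝ} {Lam : ℝ} (H : D.Hyp dg prr al T Lam) (hS : Sees tb M) {q n' : ℕ}
    (hn : n' = TP.nn q ∨ (n' = TP.nn q + 1 ∧ TP.nn q < T)) {E : Om W X β → Prop} (hE : Fac (sgt D ∅ n') E) :
    tb.Ps.Pr (hat M q E) ≤ 8 * tb.Ps.Pr E := by
  have key : ∀ u, tb.Ps.p u ≠ 0 → ind (hat M q E u) ≤ 8 * tb.Ps.ce (sgt D ∅ (TP.nn q)) (fun v => ind (E v)) u := by
    intro u hu
    have h0 : 0 ≤ tb.Ps.ce (sgt D ∅ (TP.nn q)) (fun v => ind (E v)) u := tb.Ps.ce_nonneg (fun _ _ => ind_nonneg _) u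
    by_cases hh : hat M q E u
    · rw [ind_of hh]
      obtain ⟨u', h1, h2, h3⟩ := hh
      obtain ⟨u2, g1, g2, g3⟩ := exists_supp (tb := tb) u'
      have hE2 : E u2 := by
        rw [hE u2 u' (sgt_eq.2 ⟨g2, fun j hj => absurd hj (notMem_empty j), fun j => by rw [g3]⟩)]
        exact h1
      have e1 : sgt D ∅ (TP.nn q) u = sgt D ∅ (TP.nn q) u2 := by
        refine sgt_eq.2 ⟨?_, fun j hj => absurd hj (notMem_empty j), fun j => ?_⟩
        · rw [g2, h2]
        · rw [g3]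
          exact (hS.c q u' u h3 j).symm
      rw [tb.Ps.ce_fac (sgt D ∅ (TP.nn q)) (fun v => ind (E v)) u u2 e1]
      have hm1 : 0 < tb.Ps.m (sgt D ∅ (TP.nn q)) u2 := tb.Ps.m_pos _ g1
      have h4 : tb.Ps.m (sgt D ∅ n') u2 / tb.Ps.m (sgt D ∅ (TP.nn q)) u2 ≤
          tb.Ps.ce (sgt D ∅ (TP.nn q)) (fun v => ind (E v)) u2 := by
        show _ ≤ tb.Ps.E (fun v => ind (sgt D ∅ (TP.nn q) v = sgt D ∅ (TP.nn q) u2) * ind (E v)) /
          tb.Ps.m (sgt D ∅ (TP.nn q)) u2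
        refine div_le_div_of_nonneg_right ?_ hm1.le
        show tb.Ps.E (fun v => ind (sgt D ∅ n' v = sgt D ∅ n' u2)) ≤ _
        refine tb.Ps.E_mono fun v _ => ?_
        rw [← ind_and]
        refine ind_mono fun hv => ⟨?_, ?_⟩
        · have hv' := sgt_eq.1 hv
          refine sgt_eq.2 ⟨hv'.1, fun j hj => absurd hj (notMem_empty j), fun j => ?_⟩
          refine Dy.qb_mono ?_ (hv'.2.2 j)
          rcases hn with h | h <;> omega
        · rw [hE v u2 hv]
          exact hE2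
      have h5 : tb.Ps.m (sgt D ∅ (TP.nn q)) u2 ≤ 8 * tb.Ps.m (sgt D ∅ n') u2 := by
        rcases hn with h | ⟨h, hT⟩
        · rw [h]
          linarith
        · rw [h]
          have h6 := sgt_half tb H ∅ hT (w := u2) g1
          have h7 : (2 : ℝ) ^ ((∅ : Finset (Fin 3))ᶜ.card) = 8 := by
            rw [Finset.compl_empty, Finset.card_univ, Fintype.card_fin]
            norm_num
          rw [h7] at h6
          exact h6
      have h8 : 1 / 8 ≤ tb.Ps.m (sgt D ∅ n') u2 / tb.Ps.m (sgt D ∅ (TP.nn q)) u2 := by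
        rw [le_div_iff₀ hm1]
        linarith
      linarith
    · rw [ind_not hh]
      linarith
  unfold FP.Pr
  rw [← tb.Ps.E_ce (sgt D ∅ (TP.nn q)) (fun v => ind (E v)), ← tb.Ps.E_smul]
  exact tb.Ps.E_mono key

/-- **linear rarity for events of a node** -/
theorem lin_hat {dg : ℕ → X → ℝ} {Lam : ℝ} (H : D.Hyp dg prr al T Lam) (hS : Sees tb M) {q n' : ℕ}
    (hn : n' = TP.nn q ∨ (n' = TP.nn q + 1 ∧ TP.nn q < T)) {E A : Om W X β → Prop} (hE : Fac (sgt D ∅ n') E)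
    {w : Om W X β} (hw : tb.Ps.p w ≠ 0) (hEw : ∀ u, E u → M.NP q u = M.NP q w) (hE0 : tb.Ps.Pr E ≠ 0) {a b c0 : ℝ}
    (ha : 0 ≤ a) (hb : 0 ≤ b) (hc0 : 0 ≤ c0)
    (hL : 0 < M.P.ce (M.NP q) (fun u => ind (hat M q E u)) w →
      M.P.ce (M.NP q) (fun u => ind (hat M q E u ∧ A u)) w ≤ M.P.ce (M.NP q) (fun u => ind (hat M q E u)) w *
        (a * (Real.log (1 / M.P.ce (M.NP q) (fun u => ind (hat M q E u)) w) + (b + LC M q w)) + c0)) :
    tb.Ps.Pr (fun u => E u ∧ A u) ≤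
      tb.Ps.Pr E * (8 * a * (Real.log (M.P.m (M.NP (5 * (q / 5))) w / tb.Ps.Pr E) + b) + 8 * c0) := by
  have hwM : M.P.p w ≠ 0 := by rw [hS.P]; exact hw
  have hmq : 0 < M.P.m (M.NP q) w := M.P.m_pos _ hwM
  have hm5 : M.P.m (M.NP q) w ≤ M.P.m (M.NP (5 * (q / 5))) w := M.P.m_anti (TD.fac_le M.hN (by omega)) w
  have hcls : ∀ u, hat M q E u → M.NP q u = M.NP q w := by
    rintro u ⟨u', h1, -, h3⟩
    rw [← h3]
    exact hEw u' h1
  have hce : ∀ B : Om W X β → Prop, (∀ u, B u → M.NP q u = M.NP q w) →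
      M.P.ce (M.NP q) (fun u => ind (B u)) w = tb.Ps.Pr B / M.P.m (M.NP q) w := by
    intro B hB
    unfold FP.ce FP.Pr
    rw [← hS.P]
    congr 1
    refine M.P.E_congr fun u _ => ?_
    show ind (M.NP q u = M.NP q w) * ind (B u) = ind (B u)
    by_cases h : B u
    · rw [ind_of h, ind_of (hB u h), mul_one]
    · rw [ind_not h, mul_zero]
  set pe := tb.Ps.Pr E with hpe
  set ph := tb.Ps.Pr (hat M q E) with hph
  have hpe0 : 0 < pe := lt_of_le_of_ne (tb.Ps.Pr_nonneg _) (Ne.symm hE0)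
  have h1 : pe ≤ ph := tb.Ps.Pr_mono fun u _ h => hat_self h
  have hph0 : 0 < ph := hpe0.trans_le h1
  have h2 : ph ≤ 8 * pe := hat_le H hS hn hE
  have e1 := hce (hat M q E) hcls
  have e2 := hce (fun u => hat M q E u ∧ A u) (fun u h => hcls u h.1)
  have h3 : 0 < M.P.ce (M.NP q) (fun u => ind (hat M q E u)) w := by
    rw [e1]
    exact div_pos hph0 hmq
  have h4 := hL h3
  rw [e1, e2, div_le_iff₀ hmq] at h4
  have e3 : Real.log (1 / (ph / M.P.m (M.NP q) w)) + (b + LC M q w) =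
      Real.log (M.P.m (M.NP (5 * (q / 5))) w / ph) + b := by
    unfold LC
    have hm5' : 0 < M.P.m (M.NP (5 * (q / 5))) w := hmq.trans_le hm5
    rw [one_div_div, Real.log_div hmq.ne' hph0.ne', Real.log_div hm5'.ne' hmq.ne', Real.log_div hm5'.ne' hph0.ne']
    ring
  rw [e3] at h4
  have hm5' : 0 < M.P.m (M.NP (5 * (q / 5))) w := hmq.trans_le hm5
  have h5 : Real.log (M.P.m (M.NP (5 * (q / 5))) w / ph) ≤ Real.log (M.P.m (M.NP (5 * (q / 5))) w / pe) :=
    Real.log_le_log (div_pos hm5' hph0) (div_le_div_of_nonneg_left hm5'.le hpe0 h1)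
  have hple : pe ≤ M.P.m (M.NP (5 * (q / 5))) w := by
    refine le_trans ?_ hm5
    have h6 : pe ≤ tb.Ps.Pr (fun u => M.NP q u = M.NP q w) := tb.Ps.Pr_mono fun u _ h => hEw u h
    have h7 : tb.Ps.Pr (fun u => M.NP q u = M.NP q w) = M.P.m (M.NP q) w := by rw [hS.P]; rfl
    rw [h7] at h6
    exact h6
  have h6 : 0 ≤ Real.log (M.P.m (M.NP (5 * (q / 5))) w / pe) :=
    Real.log_nonneg (by rw [le_div_iff₀ hpe0, one_mul]; exact hple)
  set L := Real.log (M.P.m (M.NP (5 * (q / 5))) w / pe) with hLdef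
  have h7 : tb.Ps.Pr (fun u => E u ∧ A u) ≤ tb.Ps.Pr (fun u => hat M q E u ∧ A u) :=
    tb.Ps.Pr_mono fun u _ h => ⟨hat_self h.1, h.2⟩
  have h8 : ph / M.P.m (M.NP q) w * (a * (Real.log (M.P.m (M.NP (5 * (q / 5))) w / ph) + b) + c0) *
      M.P.m (M.NP q) w = ph * (a * (Real.log (M.P.m (M.NP (5 * (q / 5))) w / ph) + b) + c0) := by
    field_simp
  rw [h8] at h4
  have h9 : a * (Real.log (M.P.m (M.NP (5 * (q / 5))) w / ph) + b) + c0 ≤ a * (L + b) + c0 := by
    have := mul_le_mul_of_nonneg_left (add_le_add_left h5 b) ha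
    linarith
  have h10 : 0 ≤ a * (L + b) + c0 := by positivity
  have h11 : ph * (a * (Real.log (M.P.m (M.NP (5 * (q / 5))) w / ph) + b) + c0) ≤ ph * (a * (L + b) + c0) :=
    mul_le_mul_of_nonneg_left h9 hph0.le
  have h12 : ph * (a * (L + b) + c0) ≤ 8 * pe * (a * (L + b) + c0) := mul_le_mul_of_nonneg_right h2 h10
  have h13 : pe * (8 * a * (L + b) + 8 * c0) = 8 * pe * (a * (L + b) + c0) := by ring
  rw [h13]
  linarith

end

end Pool.Agent.GMH.SngC
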