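import Pool.Agent.GMH.SngC7

/-!
# GMH/SngC8 (helper73): THE TWO POTENTIALS SATISFY `Lin` (kind S, block (C))

`Inp M X1` = inputs of the other modules (masses forward, dead letters are listed, log probabilities of thin letters, number of
alive letters).  `ν = nS M q w`, class state `q` (`q % 5 ≤ 1`), potential state `q'` (`q' = q` or the end of the epoch).
* `row_all`, `col_all` : exact masses of rows at all points; `RN_mass` : class mass of named rows;
* **`lin_D`** : cover of the letters of `i` by rows of the sides; **`lin_C`** : cover of the sides by rows of letters of `i`.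
-/

set_option autoImplicit false
set_option linter.unusedSectionVars false

namespace Pool.Agent.GMH.SngC

open Finset Pool.Agent.PWZ Pool.Agent.M3 Pool.Agent.GM Pool.Agent.GM.Harm Pool.Agent.GMH
open Pool.Agent.GMH.Gdy Pool.Agent.GMH.Dy Pool.Agent.GMH.TabF Pool.Agent.GMH.CK Pool.Agent.GMH.MV Pool.Agent.GMH.Sng

noncomputable section

/-! ### the clock -/

section clock

variable {Om : Type} [Fintype Om] {M : MS Om}

theorem nS_le (q : ℕ) (w : Om) : nS M q w ≤ q := stg_le q w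

theorem nu_nS {q : ℕ} (hq : q % 5 ≤ 1) (w : Om) : nu M q w ≤ nS M q w := by
  cases q with
  | zero => exact (stg_le 0 w).trans (Nat.zero_le _)
  | succ k =>
    by_cases h : CS M (stg (CS M) k w) (k + 1) w
    · have h1 : nS M (k + 1) w = k + 1 := stg_pos h
      rw [h1]
      exact stg_le (k + 1) w
    · have h1 : nS M (k + 1) w = stg (CS M) k w := stg_neg h
      rw [h1]
      by_contra h2
      exact h ⟨hq, not_le.1 h2⟩

/-- **masses forward** -/
def Q1 (M : MS Om) : Prop := ∀ q r w, M.P.p w ≠ 0 → nu M q w ≤ r → r ≤ q → ∀ A : Om → Prop,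
  Fac (fun u => (LF M (univ, univ) r u, M.NP r u)) A → ∀ p : ℝ,
  (∀ u, M.P.p u ≠ 0 → M.NP r u = M.NP r w → M.P.ce (AHR.UY M r) (fun v => ind (A v)) u ≤ p) →
  M.P.ce (M.NP q) (fun u => ind (A u)) w ≤ 2 * p + M.k0

/-- **alive at `r`, dead at `q`** : listed -/
def Q2 (M : MS Om) : Prop := ∀ q r u, M.P.p u ≠ 0 → nu M q u ≤ r → r ≤ q → ∀ (F : Finset (Fin 3) × Finset (Fin 3)) (X : ℝ),
  -X ≤ lf M F r u → lf M F q u < -(X + 4 * M.d0) → Lst M (nu M q u) q u

/-- inputs of the other modules -/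
structure Inp (M : MS Om) (X1 : ℝ) : Prop where
  q1 : Q1 M
  q2 : Q2 M
  lf1 : ∀ j q a b, M.P.p a ≠ 0 → M.P.p b ≠ 0 → M.XL j q a = M.XL j q b → M.NP q a = M.NP q b →
    lf M ({j}, ∅) q a = lf M ({j}, ∅) q b
  cD : ∀ i q (y : M.η) (κ : M.κ) (S : Finset Om), (∀ z ∈ S, M.P.p z ≠ 0 ∧ M.YP i z = y ∧ M.NP q z = κ ∧
    -X1 ≤ lf M ({i}, ∅) q z) → ∀ s : Finset M.lam, (∀ g ∈ s, ∃ z ∈ S, M.XL i q z = g) → (s.card : ℝ) ≤ Real.exp X1
  cC : ∀ i q (y : Fin 3 → Option M.η) (κ : M.κ) (S : Finset Om), (∀ z ∈ S, M.P.p z ≠ 0 ∧ PX M i z = y ∧ M.NP q z = κ ∧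
    -X1 ≤ lf M (univ.erase i, {i}) q z) → ∀ s : Finset ((Fin 3 → Option M.lam) × M.ph),
    (∀ g ∈ s, ∃ z ∈ S, CX M i q z = g) → (s.card : ℝ) ≤ Real.exp X1

/-! ### letters -/

theorem CX_eq {i : Fin 3} {q : ℕ} {a b : Om} : CX M i q a = CX M i q b ↔
    (∀ j, j ≠ i → M.XL j q a = M.XL j q b) ∧ M.TF i q a = M.TF i q b := by
  classical
  unfold CX
  rw [Prod.mk.injEq, funext_iff]
  refine and_congr_left fun _ => forall_congr' fun j => ?_
  by_cases h : j ≠ i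
  · rw [if_pos h, if_pos h, Option.some.injEq]
    exact ⟨fun e _ => e, fun e => e h⟩
  · rw [if_neg h, if_neg h]
    exact ⟨fun _ hh => absurd hh h, fun _ => rfl⟩

theorem CX_mono (i : Fin 3) {r q : ℕ} (h : r ≤ q) : Fac (CX M i q) (CX M i r) := by
  intro a b hab
  rw [CX_eq] at hab ⊢
  exact ⟨fun j hj => TD.fac_le (M.hX j) h a b (hab.1 j hj), TD.fac_le (M.hT i) h a b hab.2⟩

theorem PX_of_CX {i : Fin 3} {q : ℕ} {a b : Om} (h : CX M i q a = CX M i q b) : PX M i a = PX M i b := by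
  classical
  have h1 := (CX_eq.1 h).1
  unfold PX
  funext j
  by_cases hj : j ≠ i
  · rw [if_pos hj, if_pos hj, M.hXY j q a b (h1 j hj)]
  · rw [if_neg hj, if_neg hj]

/-! ### exact masses at all points -/

theorem rwX_congr {i : Fin 3} {ν : ℕ} {H : Om → Prop} {w w' : Om} (h1 : M.NP ν w = M.NP ν w')
    (h2 : CX M i ν w = CX M i ν w') : rwX M i ν H w = rwX M i ν H w' := by
  funext u
  unfold rwX
  rw [h1, h2]

theorem clX_congr {i : Fin 3} {ν : ℕ} {H : Om → Prop} {w w' : Om} (h1 : M.NP ν w = M.NP ν w')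
    (h2 : M.XL i ν w = M.XL i ν w') : clX M i ν H w = clX M i ν H w' := by
  funext u
  unfold clX
  rw [h1, h2]

theorem ce_zero_of {ζ : Type*} {Z : Om → ζ} {A : Om → Prop} {u : Om} (hu : M.P.p u ≠ 0)
    (h : ¬ ∃ v, M.P.p v ≠ 0 ∧ Z v = Z u ∧ A v) : M.P.ce Z (fun v => ind (A v)) u = 0 := by
  rw [ce_congr_on (g := fun _ => 0) fun v hv hvu => ind_not fun hA => h ⟨v, hv, hvu, hA⟩, M.P.ce_const Z 0 hu]

/-- the row of a tuple of the relation, all points -/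
theorem row_all {T : ℕ} (hP : PtI M T) {i : Fin 3} {p1 X1 : ℝ} {Hs : ℕ → Om → Prop} (hR : RelX M i p1 X1 Hs) {ν : ℕ}
    {z0 u : Om} (hz : M.P.p z0 ≠ 0) (hH : Hs ν z0) (hu : M.P.p u ≠ 0) (hN : M.NP ν u = M.NP ν z0) :
    M.P.ce (AHR.UY M ν) (fun v => ind (rwX M i ν (Hs ν) z0 v)) u ≤ p1 := by
  by_cases h : ∃ v, M.P.p v ≠ 0 ∧ AHR.UY M ν v = AHR.UY M ν u ∧ rwX M i ν (Hs ν) z0 v
  · obtain ⟨v, hv, hvu, z, h1, h2, h3, h4, h5⟩ := h
    rw [rwX_congr (w := z0) (w' := z) h2.symm h3.symm]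
    have hA : Fac (fun u => (M.XL i ν u, M.NP ν u)) (rwX M i ν (Hs ν) z) := by
      intro a b hab
      unfold rwX
      rw [(Prod.mk.inj hab).1]
    have hy : M.YP i u = M.YP i z := by
      have e1 := congrFun (Prod.mk.inj hvu).1 i
      have e2 : M.YP i v = M.YP i u := e1
      rw [← e2]
      exact (M.hXY i ν z v h4).symm
    rw [hP.xd i ν _ hA u z hu h1 hy (hN.trans h2.symm)]
    exact hR.row ν z h1 h5
  · rw [ce_zero_of hu h]
    exact (M.P.ce_nonneg (fun _ _ => ind_nonneg _) z0).trans (hR.row ν z0 hz hH)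

/-- the column of a tuple of the relation, all points -/
theorem col_all {T : ℕ} (hP : PtI M T) {i : Fin 3} {p1 X1 : ℝ} {Hs : ℕ → Om → Prop} (hR : RelX M i p1 X1 Hs) {ν : ℕ}
    {z0 u : Om} (hz : M.P.p z0 ≠ 0) (hH : Hs ν z0) (hu : M.P.p u ≠ 0) (hN : M.NP ν u = M.NP ν z0) :
    M.P.ce (AHR.UY M ν) (fun v => ind (clX M i ν (Hs ν) z0 v)) u ≤ p1 := by
  by_cases h : ∃ v, M.P.p v ≠ 0 ∧ AHR.UY M ν v = AHR.UY M ν u ∧ clX M i ν (Hs ν) z0 v
  · obtain ⟨v, hv, hvu, z, h1, h2, h3, h4, h5⟩ := h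
    rw [clX_congr (w := z0) (w' := z) h2.symm h3.symm]
    have hA : Fac (fun u => (CX M i ν u, M.NP ν u)) (clX M i ν (Hs ν) z) := by
      intro a b hab
      unfold clX
      rw [(Prod.mk.inj hab).1]
    have hy : PX M i u = PX M i z := by
      have e1 : PX M i v = PX M i u := by
        classical
        unfold PX
        funext j
        have e2 : M.YP j v = M.YP j u := congrFun (Prod.mk.inj hvu).1 j
        rw [e2]
      rw [← e1]
      exact (PX_of_CX h4).symm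
    rw [hP.xc i ν _ hA u z hu h1 hy (hN.trans h2.symm)]
    exact hR.col ν z h1 h5
  · rw [ce_zero_of hu h]
    exact (M.P.ce_nonneg (fun _ _ => ind_nonneg _) z0).trans (hR.col ν z0 hz hH)

end clock

variable {X β γ φ : Type} [Fintype X] [Fintype β] [Fintype φ] [Nonempty X] [Nonempty β]
variable {D : HD (Fin 3) X β γ φ} {al : ℝ} {prr : ℕ → Fin 3 → φ → φ} {T : ℕ} {W : Type} [Fintype W]
variable {tb : Tab D prr T W} {M : MS (Om W X β)}

/-- class mass of the named rows -/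
theorem RN_mass {ζ : Type*} {Z : Om W X β → ζ} {κ LG LF : Type} {N : Om W X β → κ} {lG : Om W X β → LG}
    {lF : Om W X β → LF} {H : Om W X β → Prop} {Ms : ℕ} {t : Fin Ms → Option LG} {w : Om W X β} {B : ℝ}
    (hB : ∀ k g, t k = some g → tb.Ps.ce Z (fun u => ind (relT tb N lG lF H g u)) w ≤ B) :
    tb.Ps.ce Z (fun u => ind (RN tb N lG lF H t u)) w ≤ szn t * B := by
  classical
  set K := univ.filter fun k => t k ≠ Option.none with hK
  have h1 : ∀ u, ind (RN tb N lG lF H t u) ≤ ∑ k ∈ K, ind (∃ g, t k = some g ∧ relT tb N lG lF H g u) := by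
    intro u
    refine le_trans (ind_mono ?_) (FP.ind_ex_le K fun k => ∃ g, t k = some g ∧ relT tb N lG lF H g u)
    rintro ⟨k, g, hk, hr⟩
    exact ⟨k, Finset.mem_filter.2 ⟨mem_univ k, by rw [hk]; exact Option.some_ne_none g⟩, g, hk, hr⟩
  refine (tb.Ps.ce_mono (fun u _ => h1 u) w).trans ?_
  rw [tb.Ps.ce_sum]
  have h2 : ∀ k ∈ K, tb.Ps.ce Z (fun u => ind (∃ g, t k = some g ∧ relT tb N lG lF H g u)) w ≤ B := by
    intro k hk
    obtain ⟨g, hg⟩ := Option.ne_none_iff_exists'.1 (Finset.mem_filter.1 hk).2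
    refine le_trans (tb.Ps.ce_mono (fun u _ => ind_mono ?_) w) (hB k g hg)
    rintro ⟨g', hg', hr⟩
    rw [hg] at hg'
    rw [Option.some.injEq] at hg'
    rw [hg']
    exact hr
  refine (Finset.sum_le_sum h2).trans (le_of_eq ?_)
  rw [Finset.sum_const, nsmul_eq_mul]
  congr 2

/-- levels : class state and potential state -/
structure Lv (T q q' : ℕ) : Prop where
  m : q % 5 ≤ 1
  le : q ≤ q'
  cap : q' ≤ 5 * T
  n : TP.nn q' = TP.nn q ∨ (TP.nn q' = TP.nn q + 1 ∧ TP.nn q < T)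

theorem cpD (i : Fin 3) : Cp (univ.erase i) univ {i} ∅ where
  gf := fun j hj => absurd (Finset.mem_singleton.1 (Finset.mem_inter.1 hj).2)
    (Finset.ne_of_mem_erase (Finset.mem_inter.1 hj).1)
  gu := Finset.eq_univ_of_forall fun j => by
    by_cases h : j = i
    · exact Finset.mem_union_right _ (Finset.mem_singleton.2 h)
    · exact Finset.mem_union_left _ (Finset.mem_erase.2 ⟨h, mem_univ j⟩)
  sf := by simp
  su := by simp

/-- the samples, the class and the numbers -/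
structure Num (tb : Tab D prr T W) (M : MS (Om W X β)) (p1 X1 X2 a b c x cc : ℝ) (Ms : ℕ) : Prop where
  a0 : 0 < a
  b0 : 0 ≤ b
  c0 : 0 ≤ c
  x0 : 0 < x
  bx : b + 1 ≤ x / (32 * (24 * a))
  xe : 8 * (24 * a * cc + 8 * c * (2 * p1 + 3 * M.k0)) ≤ x
  mb : Ms * (Real.exp X1 * Real.exp (-cc)) ≤ 1 / 2
  X2 : X1 + 4 * M.d0 ≤ X2

theorem Sees.sup (hS : Sees tb M) {w : Om W X β} : M.P.p w ≠ 0 ↔ tb.Ps.p w ≠ 0 := by rw [hS.P]

/-- the class of a glued point -/
theorem gl_NP (hS : Sees tb M) {w0 : Om W X β} {G S' F S : Finset (Fin 3)} (hc : Cp G S' F S) {ν : ℕ} {a : Sm W β}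
    {w u : Om W X β} (hok : Ok tb w0 (TP.nn ν) G S' a w) (hu : M.NP ν u = M.NP ν w) :
    M.NP ν (gl F S a u) = M.NP ν w := by
  rw [← hu]
  have h1 := hS.c ν u w hu
  refine hS.N ν _ _ (sgt_eq.2 ⟨rfl, fun j hj => absurd hj (notMem_empty j), fun j => ?_⟩)
  rw [gl_cell hc hok h1 j, h1 j]

/-- **COVER OF THE LETTERS OF `i`** by rows of the sides -/
theorem lin_D {dg : ℕ → X → ℝ} {Lam : ℝ} (H : D.Hyp dg prr al T Lam) (hS : Sees tb M) {p1 X1 X2 a b c x cc : ℝ} {Ms : ℕ}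
    (hI : Inp M X1) (hP : PtI M T) (hL : LinR M T X2 a b c) (hn : Num tb M p1 X1 X2 a b c x cc Ms) {i : Fin 3}
    {Hs : ℕ → Om W X β → Prop} (hR : RelX M i p1 X1 Hs) {q q' : ℕ} (hq : Lv T q q') (w0 : Om W X β) {w : Om W X β}
    (hw : tb.Ps.p w ≠ 0) (sm : Fin Ms → Sm W β)
    (hok : ∀ k, Ok tb w0 (TP.nn (nS M q w)) (univ.erase i) univ (sm k) w) :
    ∃ τ : Om W X β → (Fin Ms → Option ((Fin 3 → Option M.lam) × M.ph)),
      Lin tb.Ps (sgt D ∅ (TP.nn q')) τ szn (RN tb (M.NP (nS M q w)) (CX M i (nS M q w)) (M.XL i (nS M q w))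
      (Hs (nS M q w))) (fun u => M.NP q' u = M.NP q' w) (fun u => PhE tb w0 TP.nn (5 * T) {i} ∅
        (RT {i} ∅ (Hs (nS M q w))) x (fun k => (u.1, sm k)) (nS M q w) q' u) x (M.P.m (M.NP (5 * (q / 5))) w) (24 * a) b
      (8 * c * (2 * p1 + 3 * M.k0)) cc := by
  classical
  set ν := nS M q w with hν
  have hνq : ν ≤ q := nS_le q w
  have hc := cpD i
  have hwM : M.P.p w ≠ 0 := hS.sup.2 hw
  have hp1 : 0 ≤ p1 ∨ ∀ ν z, M.P.p z ≠ 0 → ¬ Hs ν z := by
    by_cases h : ∃ ν z, M.P.p z ≠ 0 ∧ Hs ν z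
    · obtain ⟨ν, z, hz, hH⟩ := h
      exact Or.inl ((M.P.ce_nonneg (fun _ _ => ind_nonneg _) z).trans (hR.row ν z hz hH))
    · exact Or.inr fun ν z hz hH => h ⟨ν, z, hz, hH⟩
  have hk0 := M.hk0
  have hVw : ∀ u, M.NP q' u = M.NP q' w → M.NP q u = M.NP q w := fun u hu => TD.fac_le M.hN hq.le u w hu
  have hVν : ∀ u, M.NP q' u = M.NP q' w → M.NP ν u = M.NP ν w := fun u hu =>
    TD.fac_le M.hN (hνq.trans hq.le) u w hu
  have fG : Fac (si D (univ.erase i) univ univ (TP.nn ν)) (CX M i ν) := fun a b hab => by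
    refine hS.C i ν a b ?_
    rw [si_eq] at hab ⊢
    exact ⟨hab.1, fun i _ => hab.2.1 i (mem_univ i), hab.2.2⟩
  refine dir_lin (tb := tb) hc (hνq.trans hq.le) hq.cap (TP.nn_mono (hνq.trans hq.le)) (RG_one w0 {i} ∅ (Hs ν)) hn.x0 sm
    (hS.N ν) fG (hS.X i ν) (V := fun u => M.NP q' u = M.NP q' w) (fun a b hab => ?_) (w := w) (fun u hu j =>
      hS.c ν u w (hVν u hu) j) hok (by have := hn.a0; positivity) hn.b0 hn.bx ?_ hn.xe (B := Real.exp X1) ?_ hn.mb ?_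
  · show (M.NP q' a = M.NP q' w) = (M.NP q' b = M.NP q' w)
    rw [hS.N q' a b hab]
  · have h1 : tb.Ps.Pr (fun u => M.NP q' u = M.NP q' w) = M.P.m (M.NP q') w := by rw [hS.P]; rfl
    rw [h1]
    refine M.P.m_anti (TD.fac_le M.hN ?_) w
    have := hq.le
    omega
  · -- alive letters of a sample point
    intro k
    set S : Finset (Om W X β) := (univ.filter fun u => tb.Ps.p u ≠ 0 ∧ M.NP q' u = M.NP q' w ∧
      Hs ν (gl {i} ∅ (sm k) u)).image fun u => gl {i} ∅ (sm k) u with hSdef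
    refine hI.cC i ν (fun j => if j ≠ i then some (M.YP j (gl {i} ∅ (sm k) w)) else Option.none) (M.NP ν w) S ?_ _ ?_
    · intro z hz
      obtain ⟨u, hu, rfl⟩ := Finset.mem_image.1 hz
      obtain ⟨-, h1, h2, h3⟩ := Finset.mem_filter.1 hu
      have hzp : M.P.p (gl {i} ∅ (sm k) u) ≠ 0 := hS.sup.2 (gl_supp hc (hok k) h1)
      refine ⟨hzp, ?_, gl_NP hS hc (hok k) (hVν u h2), (hR.al ν _ hzp h3).2⟩
      unfold PX
      funext j
      by_cases hj : j ≠ i
      · rw [if_pos hj, if_pos hj]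
        congr 1
        rw [hS.Y j]
        show (if j ∈ ({i} : Finset (Fin 3)) then u.2.2 j else (sm k).2 j) =
          if j ∈ ({i} : Finset (Fin 3)) then w.2.2 j else (sm k).2 j
        have hj' : j ∉ ({i} : Finset (Fin 3)) := by simpa using hj
        rw [if_neg hj', if_neg hj']
      · rw [if_neg hj, if_neg hj]
    · intro g hg
      obtain ⟨u, hu, hug⟩ := (@Finset.mem_image _ _ (_) _ _ _).1 hg
      exact ⟨gl {i} ∅ (sm k) u, Finset.mem_image.2 ⟨u, by convert hu, rfl⟩, hug⟩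
  · -- linear rarity
    intro t ht ht1 E hE hEV hE0
    have hEw : ∀ u, E u → M.NP q u = M.NP q w := fun u hu => hVw u (hEV u hu)
    set A := RN tb (M.NP ν) (CX M i ν) (M.XL i ν) (Hs ν) t with hA
    have fA : Fac (fun u => (M.XL i q u, M.NP q u)) A := by
      intro u v huv
      obtain ⟨h1, h2⟩ := Prod.mk.inj huv
      show RN tb (M.NP ν) (CX M i ν) (M.XL i ν) (Hs ν) t u = RN tb (M.NP ν) (CX M i ν) (M.XL i ν) (Hs ν) t v
      unfold RN relT
      rw [TD.fac_le M.hN hνq u v h2, TD.fac_le (M.hX i) hνq u v h1]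
    -- class mass
    have hmass : M.P.ce (M.NP q) (fun u => ind (A u)) w ≤ szn t * (2 * p1 + M.k0) := by
      rw [hS.P]
      refine RN_mass fun k g hk => ?_
      obtain ⟨u0, h1, h2, h3, h4⟩ := ht k g hk
      set z0 := gl {i} ∅ (sm k) u0 with hz0
      have hz0p : M.P.p z0 ≠ 0 := hS.sup.2 (gl_supp hc (hok k) h1)
      have hz0N : M.NP ν z0 = M.NP ν w := gl_NP hS hc (hok k) (hVν u0 h2)
      have fg : Fac (fun u => (LF M (univ, univ) ν u, M.NP ν u)) (relT tb (M.NP ν) (CX M i ν) (M.XL i ν) (Hs ν) g) := by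
        intro u v huv
        obtain ⟨g1, g2⟩ := Prod.mk.inj huv
        unfold relT
        rw [g2, ((AHR.LF_iff M (univ, univ) ν).1 g1).1 i (mem_univ i)]
      rw [← hS.P]
      refine hI.q1 q ν w hwM (nu_nS hq.m w) hνq _ fg p1 fun u hu huN => ?_
      have h5 : M.P.ce (AHR.UY M ν) (fun v => ind (relT tb (M.NP ν) (CX M i ν) (M.XL i ν) (Hs ν) g v)) u =
          M.P.ce (AHR.UY M ν) (fun v => ind (rwX M i ν (Hs ν) z0 v)) u := by
        refine ce_congr_on fun v _ hvu => ?_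
        congr 1
        have hvN : M.NP ν v = M.NP ν z0 := by
          rw [(Prod.mk.inj hvu).2, huN, hz0N]
        unfold relT rwX
        rw [hvN, h4, hS.P]
      rw [h5]
      exact row_all hP hR hz0p h3 hu (huN.trans hz0N.symm)
    have hB0 : 0 ≤ 2 * p1 + M.k0 := by
      have h1 := (M.P.ce_nonneg (fun _ _ => ind_nonneg _) w).trans hmass
      have h2 : (0 : ℝ) < szn t := by exact_mod_cast (show 0 < szn t from ht1)
      by_contra hneg
      have := mul_neg_of_pos_of_neg h2 (not_le.1 hneg)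
      linarith
    have hc0 : 0 ≤ c * (szn t * (2 * p1 + M.k0)) := mul_nonneg hn.c0 (mul_nonneg (Nat.cast_nonneg _) hB0)
    have key := lin_hat H hS hq.n hE hw hEw hE0 (A := A) hn.a0.le hn.b0 hc0 (fun hpos => by
      refine (hL.fD i q A (hat M q E) hq.m (hq.le.trans hq.cap) fA (hat_fac q E) w hwM hpos).trans ?_
      refine mul_le_mul_of_nonneg_left ?_ hpos.le
      have := mul_le_mul_of_nonneg_left hmass hn.c0
      linarith)
    refine key.trans (mul_le_mul_of_nonneg_left ?_ (tb.Ps.Pr_nonneg _))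
    have hE1 : 0 < tb.Ps.Pr E := lt_of_le_of_ne (tb.Ps.Pr_nonneg _) (Ne.symm hE0)
    have hm5 : tb.Ps.Pr E ≤ M.P.m (M.NP (5 * (q / 5))) w := by
      have h6 : tb.Ps.Pr E ≤ tb.Ps.Pr (fun u => M.NP q u = M.NP q w) := tb.Ps.Pr_mono fun u _ h => hEw u h
      have h7 : tb.Ps.Pr (fun u => M.NP q u = M.NP q w) = M.P.m (M.NP q) w := by rw [hS.P]; rfl
      rw [h7] at h6
      exact h6.trans (M.P.m_anti (TD.fac_le M.hN (by omega)) w)
    have hlog : 0 ≤ Real.log (M.P.m (M.NP (5 * (q / 5))) w / tb.Ps.Pr E) :=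
      Real.log_nonneg (by rw [le_div_iff₀ hE1, one_mul]; exact hm5)
    have h8 : 0 ≤ a * (Real.log (M.P.m (M.NP (5 * (q / 5))) w / tb.Ps.Pr E) + b) :=
      mul_nonneg hn.a0.le (add_nonneg hlog hn.b0)
    have h9 : 0 ≤ c * (szn t * M.k0) := mul_nonneg hn.c0 (mul_nonneg (Nat.cast_nonneg _) hk0.le)
    nlinarith

/-- thin letter of `j` alive at `r`, dead at `q` -/
def Dd (M : MS (Om W X β)) (X1 X2 : ℝ) (r q : ℕ) (j : Fin 3) (u : Om W X β) : Prop :=
  ∃ z, M.P.p z ≠ 0 ∧ M.XL j q z = M.XL j q u ∧ M.NP q z = M.NP q u ∧ -X1 ≤ lf M ({j}, ∅) r z ∧ lf M ({j}, ∅) q z < -X2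

theorem Dd_mass {X1 X2 : ℝ} (hI : Inp M X1) (hX : X1 + 4 * M.d0 ≤ X2) {r q : ℕ} (hr : r ≤ q) {w : Om W X β}
    (hw : M.P.p w ≠ 0) (hnu : nu M q w ≤ r) (j : Fin 3) :
    M.P.ce (M.NP q) (fun u => ind (Dd M X1 X2 r q j u)) w ≤ M.k0 := by
  refine le_trans (mono_sup M.P fun u hu huw => ind_mono ?_) (Lst_mass' M q hw).le
  rintro ⟨z, h1, h2, h3, h4, h5⟩
  have e1 : lf M ({j}, ∅) r z = lf M ({j}, ∅) r u :=
    hI.lf1 j r z u h1 hu (TD.fac_le (M.hX j) hr z u h2) (TD.fac_le M.hN hr z u h3)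
  have e2 : lf M ({j}, ∅) q z = lf M ({j}, ∅) q u := hI.lf1 j q z u h1 hu h2 h3
  rw [e1] at h4
  rw [e2] at h5
  have e3 : nu M q u = nu M q w := nu_fac M q u w huw
  exact hI.q2 q r u hu (by rw [e3]; exact hnu) hr _ X1 h4 (by linarith)

/-- **COVER OF THE SIDES** by rows of letters of `i` -/
theorem lin_C {dg : ℕ → X → ℝ} {Lam : ℝ} (H : D.Hyp dg prr al T Lam) (hS : Sees tb M) {p1 X1 X2 a b c x cc : ℝ} {Ms : ℕ}
    (hI : Inp M X1) (hP : PtI M T) (hL : LinR M T X2 a b c) (hn : Num tb M p1 X1 X2 a b c x cc Ms) {i : Fin 3}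
    {Hs : ℕ → Om W X β → Prop} (hR : RelX M i p1 X1 Hs) {q q' : ℕ} (hq : Lv T q q') (w0 : Om W X β) {w : Om W X β}
    (hw : tb.Ps.p w ≠ 0) (sm : Fin Ms → Sm W β) (hok : ∀ k, Ok tb w0 (TP.nn (nS M q w)) {i} ∅ (sm k) w) :
    ∃ τ : Om W X β → (Fin Ms → Option M.lam),
      Lin tb.Ps (sgt D ∅ (TP.nn q')) τ szn (RN tb (M.NP (nS M q w)) (M.XL i (nS M q w)) (CX M i (nS M q w))
      (Hs (nS M q w))) (fun u => M.NP q' u = M.NP q' w) (fun u => PhE tb w0 TP.nn (5 * T) (univ.erase i) univ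
        (fun b a => RT {i} ∅ (Hs (nS M q w)) a b) x (fun k => (u.1, sm k)) (nS M q w) q' u) x
        (M.P.m (M.NP (5 * (q / 5))) w) (24 * a) b (8 * c * (2 * p1 + 3 * M.k0)) cc := by
  classical
  set ν := nS M q w with hν
  have hνq : ν ≤ q := nS_le q w
  have hc : Cp {i} ∅ (univ.erase i) univ := (cpD i).swap
  have hwM : M.P.p w ≠ 0 := hS.sup.2 hw
  have hk0 := M.hk0
  have hVw : ∀ u, M.NP q' u = M.NP q' w → M.NP q u = M.NP q w := fun u hu => TD.fac_le M.hN hq.le u w hu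
  have hVν : ∀ u, M.NP q' u = M.NP q' w → M.NP ν u = M.NP ν w := fun u hu =>
    TD.fac_le M.hN (hνq.trans hq.le) u w hu
  have fF : Fac (si D (univ.erase i) univ univ (TP.nn ν)) (CX M i ν) := fun a b hab => by
    refine hS.C i ν a b ?_
    rw [si_eq] at hab ⊢
    exact ⟨hab.1, fun i _ => hab.2.1 i (mem_univ i), hab.2.2⟩
  refine dir_lin (tb := tb) hc (hνq.trans hq.le) hq.cap (TP.nn_mono (hνq.trans hq.le)) (RG_two w0 (cpD i) (Hs ν)) hn.x0 sm
    (hS.N ν) (hS.X i ν) fF (V := fun u => M.NP q' u = M.NP q' w) (fun a b hab => ?_) (w := w) (fun u hu j =>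
      hS.c ν u w (hVν u hu) j) hok (by have := hn.a0; positivity) hn.b0 hn.bx ?_ hn.xe (B := Real.exp X1) ?_ hn.mb ?_
  · show (M.NP q' a = M.NP q' w) = (M.NP q' b = M.NP q' w)
    rw [hS.N q' a b hab]
  · have h1 : tb.Ps.Pr (fun u => M.NP q' u = M.NP q' w) = M.P.m (M.NP q') w := by rw [hS.P]; rfl
    rw [h1]
    refine M.P.m_anti (TD.fac_le M.hN ?_) w
    have := hq.le
    omega
  · -- alive letters of a sample point
    intro k
    set S : Finset (Om W X β) := (univ.filter fun u => tb.Ps.p u ≠ 0 ∧ M.NP q' u = M.NP q' w ∧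
      Hs ν (gl (univ.erase i) univ (sm k) u)).image fun u => gl (univ.erase i) univ (sm k) u with hSdef
    refine hI.cD i ν (M.YP i (gl (univ.erase i) univ (sm k) w)) (M.NP ν w) S ?_ _ ?_
    · intro z hz
      obtain ⟨u, hu, rfl⟩ := Finset.mem_image.1 hz
      obtain ⟨-, h1, h2, h3⟩ := Finset.mem_filter.1 hu
      have hzp : M.P.p (gl (univ.erase i) univ (sm k) u) ≠ 0 := hS.sup.2 (gl_supp hc (hok k) h1)
      refine ⟨hzp, ?_, gl_NP hS hc (hok k) (hVν u h2), (hR.al ν _ hzp h3).1 i⟩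
      rw [hS.Y i]
      show (if i ∈ univ.erase i then u.2.2 i else (sm k).2 i) = if i ∈ univ.erase i then w.2.2 i else (sm k).2 i
      have hj' : i ∉ univ.erase i := Finset.notMem_erase i univ
      rw [if_neg hj', if_neg hj']
    · intro g hg
      obtain ⟨u, hu, hug⟩ := (@Finset.mem_image _ _ (_) _ _ _).1 hg
      exact ⟨gl (univ.erase i) univ (sm k) u, Finset.mem_image.2 ⟨u, by convert hu, rfl⟩, hug⟩
  · -- linear rarity
    intro t ht ht1 E hE hEV hE0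
    have hEw : ∀ u, E u → M.NP q u = M.NP q w := fun u hu => hVw u (hEV u hu)
    set A := RN tb (M.NP ν) (M.XL i ν) (CX M i ν) (Hs ν) t with hA
    set A1 : Om W X β → Prop := fun u => A u ∧ ∃ z, M.P.p z ≠ 0 ∧ CX M i q z = CX M i q u ∧ M.NP q z = M.NP q u ∧
      ∀ j, j ≠ i → -X2 ≤ lf M ({j}, ∅) q z with hA1
    have fA : Fac (fun u => (CX M i q u, M.NP q u)) A := by
      intro u v huv
      obtain ⟨h1, h2⟩ := Prod.mk.inj huv
      show RN tb (M.NP ν) (M.XL i ν) (CX M i ν) (Hs ν) t u = RN tb (M.NP ν) (M.XL i ν) (CX M i ν) (Hs ν) t v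
      unfold RN relT
      rw [TD.fac_le M.hN hνq u v h2, CX_mono i hνq u v h1]
    have fA1 : Fac (fun u => (CX M i q u, M.NP q u)) A1 := by
      intro u v huv
      obtain ⟨h1, h2⟩ := Prod.mk.inj huv
      show (A u ∧ ∃ z, M.P.p z ≠ 0 ∧ CX M i q z = CX M i q u ∧ M.NP q z = M.NP q u ∧
        ∀ j, j ≠ i → -X2 ≤ lf M ({j}, ∅) q z) = (A v ∧ ∃ z, M.P.p z ≠ 0 ∧ CX M i q z = CX M i q v ∧
        M.NP q z = M.NP q v ∧ ∀ j, j ≠ i → -X2 ≤ lf M ({j}, ∅) q z)
      rw [fA u v huv, h1, h2]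
    have fD : ∀ j, Fac (fun u => (M.XL j q u, M.NP q u)) (Dd M X1 X2 ν q j) := by
      intro j u v huv
      obtain ⟨h1, h2⟩ := Prod.mk.inj huv
      unfold Dd
      rw [h1, h2]
    -- class mass
    have hmass : M.P.ce (M.NP q) (fun u => ind (A u)) w ≤ szn t * (2 * p1 + M.k0) := by
      rw [hS.P]
      refine RN_mass fun k g hk => ?_
      obtain ⟨u0, h1, h2, h3, h4⟩ := ht k g hk
      set z0 := gl (univ.erase i) univ (sm k) u0 with hz0
      have hz0p : M.P.p z0 ≠ 0 := hS.sup.2 (gl_supp hc (hok k) h1)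
      have hz0N : M.NP ν z0 = M.NP ν w := gl_NP hS hc (hok k) (hVν u0 h2)
      have fg : Fac (fun u => (LF M (univ, univ) ν u, M.NP ν u)) (relT tb (M.NP ν) (M.XL i ν) (CX M i ν) (Hs ν) g) := by
        intro u v huv
        obtain ⟨g1, g2⟩ := Prod.mk.inj huv
        have g3 := (AHR.LF_iff M (univ, univ) ν).1 g1
        have g4 : CX M i ν u = CX M i ν v := CX_eq.2 ⟨fun j _ => g3.1 j (mem_univ j), g3.2.1 i (mem_univ i)⟩
        unfold relT
        rw [g2, g4]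
      rw [← hS.P]
      refine hI.q1 q ν w hwM (nu_nS hq.m w) hνq _ fg p1 fun u hu huN => ?_
      have h5 : M.P.ce (AHR.UY M ν) (fun v => ind (relT tb (M.NP ν) (M.XL i ν) (CX M i ν) (Hs ν) g v)) u =
          M.P.ce (AHR.UY M ν) (fun v => ind (clX M i ν (Hs ν) z0 v)) u := by
        refine ce_congr_on fun v _ hvu => ?_
        congr 1
        have hvN : M.NP ν v = M.NP ν z0 := by
          rw [(Prod.mk.inj hvu).2, huN, hz0N]
        unfold relT clX
        rw [hvN, h4, hS.P]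
      rw [h5]
      exact col_all hP hR hz0p h3 hu (huN.trans hz0N.symm)
    have hmass1 : M.P.ce (M.NP q) (fun u => ind (A1 u)) w ≤ szn t * (2 * p1 + M.k0) :=
      (M.P.ce_mono (fun u _ => ind_mono fun h => h.1) w).trans hmass
    have hB0 : 0 ≤ 2 * p1 + M.k0 := by
      have h1 := (M.P.ce_nonneg (fun _ _ => ind_nonneg _) w).trans hmass
      have h2 : (0 : ℝ) < szn t := by exact_mod_cast (show 0 < szn t from ht1)
      by_contra hneg
      have := mul_neg_of_pos_of_neg h2 (not_le.1 hneg)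
      linarith
    have hc0 : 0 ≤ c * (szn t * (2 * p1 + M.k0)) := mul_nonneg hn.c0 (mul_nonneg (Nat.cast_nonneg _) hB0)
    have key1 := lin_hat H hS hq.n hE hw hEw hE0 (A := A1) hn.a0.le hn.b0 hc0 (fun hpos => by
      refine (hL.fC i q A1 (hat M q E) hq.m (hq.le.trans hq.cap) fA1 ?_ (hat_fac q E) w hwM hpos).trans ?_
      · rintro u hu ⟨-, z, g1, g2, g3, g4⟩ j hj
        rw [← hI.lf1 j q z u g1 hu ((CX_eq.1 g2).1 j hj) g3]
        exact g4 j hj
      · refine mul_le_mul_of_nonneg_left ?_ hpos.le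
        have := mul_le_mul_of_nonneg_left hmass1 hn.c0
        linarith)
    have key2 : ∀ j, tb.Ps.Pr (fun u => E u ∧ Dd M X1 X2 ν q j u) ≤
        tb.Ps.Pr E * (8 * a * (Real.log (M.P.m (M.NP (5 * (q / 5))) w / tb.Ps.Pr E) + b) + 8 * (c * M.k0)) := fun j =>
      lin_hat H hS hq.n hE hw hEw hE0 (A := Dd M X1 X2 ν q j) hn.a0.le hn.b0 (mul_nonneg hn.c0 hk0.le) (fun hpos => by
        refine (hL.fD j q _ (hat M q E) hq.m (hq.le.trans hq.cap) (fD j) (hat_fac q E) w hwM hpos).trans ?_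
        refine mul_le_mul_of_nonneg_left ?_ hpos.le
        have := mul_le_mul_of_nonneg_left (Dd_mass hI hn.X2 hνq hwM (nu_nS hq.m w) j) hn.c0
        linarith)
    have hsplit : tb.Ps.Pr (fun u => E u ∧ A u) ≤ tb.Ps.Pr (fun u => E u ∧ A1 u) +
        ∑ j ∈ univ.erase i, tb.Ps.Pr (fun u => E u ∧ Dd M X1 X2 ν q j u) := by
      have h1 : tb.Ps.Pr (fun u => E u ∧ A u) ≤ tb.Ps.Pr (fun u => (E u ∧ A1 u) ∨
          ∃ j ∈ univ.erase i, E u ∧ Dd M X1 X2 ν q j u) := by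
        refine tb.Ps.Pr_mono fun u hu hEA => ?_
        have huM : M.P.p u ≠ 0 := hS.sup.2 hu
        by_cases hal : ∀ j, j ≠ i → -X2 ≤ lf M ({j}, ∅) q u
        · exact Or.inl ⟨hEA.1, hEA.2, u, huM, rfl, rfl, hal⟩
        · push Not at hal
          obtain ⟨j, hj, hlt⟩ := hal
          refine Or.inr ⟨j, Finset.mem_erase.2 ⟨hj, mem_univ j⟩, hEA.1, u, huM, rfl, rfl, ?_, hlt⟩
          obtain ⟨k, g, -, z, z1, z2, -, z4, z5⟩ := hEA.2
          have hzM : M.P.p z ≠ 0 := hS.sup.2 z1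
          rw [← hI.lf1 j ν z u hzM huM ((CX_eq.1 z4).1 j hj) z2]
          exact (hR.al ν z hzM z5).1 j
      exact h1.trans ((tb.Ps.Pr_or_le _ _).trans (add_le_add le_rfl (tb.Ps.Pr_ex_le _ _)))
    have hsum : ∑ j ∈ univ.erase i, tb.Ps.Pr (fun u => E u ∧ Dd M X1 X2 ν q j u) ≤
        2 * (tb.Ps.Pr E * (8 * a * (Real.log (M.P.m (M.NP (5 * (q / 5))) w / tb.Ps.Pr E) + b) + 8 * (c * M.k0))) := by
      refine (Finset.sum_le_sum fun j _ => key2 j).trans (le_of_eq ?_)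
      rw [Finset.sum_const, Finset.card_erase_of_mem (mem_univ i), Finset.card_univ, Fintype.card_fin, nsmul_eq_mul]
      norm_num
    refine (hsplit.trans (add_le_add key1 hsum)).trans ?_
    have hsz : (1 : ℝ) ≤ szn t := by exact_mod_cast ht1
    have h9 : 0 ≤ c * M.k0 := mul_nonneg hn.c0 hk0.le
    have h10 : c * M.k0 ≤ c * M.k0 * szn t := by nlinarith
    have hE1 : 0 ≤ tb.Ps.Pr E := tb.Ps.Pr_nonneg _
    have h11 : tb.Ps.Pr E * (8 * a * (Real.log (M.P.m (M.NP (5 * (q / 5))) w / tb.Ps.Pr E) + b) +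
        8 * (c * (szn t * (2 * p1 + M.k0)))) + 2 * (tb.Ps.Pr E * (8 * a * (Real.log (M.P.m (M.NP (5 * (q / 5))) w /
        tb.Ps.Pr E) + b) + 8 * (c * M.k0))) = tb.Ps.Pr E * (24 * a * (Real.log (M.P.m (M.NP (5 * (q / 5))) w /
        tb.Ps.Pr E) + b) + 8 * (c * (szn t * (2 * p1 + M.k0))) + 16 * (c * M.k0)) := by ring
    rw [h11]
    refine mul_le_mul_of_nonneg_left ?_ hE1
    nlinarith

end

end Pool.Agent.GMH.SngC
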