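import Pool.Agent.GMH.SngDef
import Pool.Agent.GMH.SngB

/-!
# GMH/SngK (helper61): the clock of kind S and the letters at its starts (rows (E1) of helper37's table, (Q) of helper73)

Any data `M : MS`.
* `nS_le`, `nS_mod`, `nu_le_nS`, `nS_step`, `nS_const`, `exq_end`, `nS_count`, `nS_sum` : the clock `nS`;
* `lf_unl`, `ps_unl`, `SA_unl` : an unlisted tuple; `alive_dead` : a letter which was alive and is dead now is listed;
* `SA_fac`, `HS_rel` : `HS` is a static relation with small exact masses;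
* `mass_fwdU`, `mass_fwd`, `mass_fwd2` (Q1), `alive_dead'` (Q2) : masses forward in a public epoch, from any time of it.
-/

set_option autoImplicit false
set_option linter.unusedSectionVars false

namespace Pool.Agent.GMH.Sng

open Finset Pool.Agent.PWZ Pool.Agent.M3 Pool.Agent.GMH Pool.Agent.GMH.TD
open Pool.Agent.GMH.MV Pool.Agent.GMH.MVI Pool.Agent.GMH.SNB Pool.Agent.GMH.KDT

noncomputable section

variable {Om : Type} [Fintype Om] {M : MS Om}

/-! ### the clock -/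

theorem nS_le (k : ℕ) (w : Om) : nS M k w ≤ k := CK.stg_le k w

theorem nS_mod (k : ℕ) (w : Om) : nS M k w % 5 ≤ 1 := by
  induction k with
  | zero =>
    show 0 % 5 ≤ 1
    omega
  | succ k ih =>
    by_cases h : CS M (nS M k w) (k + 1) w
    · rw [show nS M (k + 1) w = k + 1 from CK.stg_pos h]
      exact h.1
    · rw [show nS M (k + 1) w = nS M k w from CK.stg_neg h]
      exact ih

theorem nu_le_nS {k : ℕ} (hk : k % 5 ≤ 1) (w : Om) : nu M k w ≤ nS M k w := by
  rcases k with _ | k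
  · exact (CK.stg_le 0 w).trans (Nat.zero_le _)
  · by_contra hc
    push Not at hc
    rcases CK.stg_or (C := CS M) k w with h | h
    · have h1 : nS M (k + 1) w = k + 1 := h
      have h2 : nu M (k + 1) w ≤ k + 1 := CK.stg_le (k + 1) w
      omega
    · have h1 : nS M (k + 1) w = nS M k w := h
      have h2 : nS M (k + 1) w = k + 1 := CK.stg_pos ⟨hk, by
        show nS M k w < nu M (k + 1) w
        rw [← h1]
        exact hc⟩
      have h3 : nS M k w ≤ k := nS_le k w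
      omega

theorem nS_step {k : ℕ} (hk : 2 ≤ (k + 1) % 5) (w : Om) : nS M (k + 1) w = nS M k w :=
  CK.stg_neg fun h => by
    have := h.1
    omega

/-- no starts at `5 t + 2`, `5 t + 3`, `5 t + 4` -/
theorem nS_const (t : ℕ) (w : Om) : nS M (5 * t + 4) w = nS M (5 * t + 1) w := by
  rw [nS_step (k := 5 * t + 3) (by omega), nS_step (k := 5 * t + 2) (by omega), nS_step (k := 5 * t + 1) (by omega)]

/-- an expensive value is light -/
theorem exq_lt5 {L0 : ℝ} (hL : Real.log 2 ≤ L0) {q : ℕ} (hcd : M.cd q) {w : Om} (hw : M.P.p w ≠ 0) (h : exq M L0 q w) :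
    lt5 M M.NP q w := by
  refine ⟨hcd, ?_⟩
  have h1 : Real.exp (-L0) ≤ 1 / 2 := by
    calc Real.exp (-L0) ≤ Real.exp (-Real.log 2) := Real.exp_le_exp.2 (by linarith)
      _ = 1 / 2 := by
        rw [Real.exp_neg, Real.exp_log (by norm_num)]
        norm_num
  have h2 := M.P.m_pos (M.NP q) hw
  have h3 := h.2
  nlinarith

/-- **the epoch ends after an expensive value** -/
theorem exq_end {L0 : ℝ} (hL : Real.log 2 ≤ L0) {t : ℕ} (hcd : M.cd (5 * t + 1)) {w : Om} (hw : M.P.p w ≠ 0)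
    (h : exq M L0 (5 * t + 1) w) : nS M (5 * t + 5) w = 5 * t + 5 := by
  have h1 := exq_lt5 hL hcd hw h
  have h2 : nu M (5 * t + 1 + 1) w = 5 * t + 1 + 1 := CK.stg_pos (Or.inl h1)
  have h3 : nu M (5 * t + 1 + 1) w ≤ nu M (5 * t + 5) w := CK.stg_mono (by omega) w
  have h4 : nS M (5 * t + 4) w ≤ 5 * t + 1 := by
    rw [nS_const]
    exact nS_le _ w
  exact CK.stg_pos (k := 5 * t + 4) ⟨by omega, by
    show nS M (5 * t + 4) w < nu M (5 * t + 4 + 1) w
    have h5 : nu M (5 * t + 4 + 1) w = nu M (5 * t + 5) w := rfl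
    omega⟩

/-- the number of the starts, at one point -/
theorem nS_count (K : ℕ) (w : Om) : ∑ k ∈ range (K + 1), ind (nS M k w = k) ≤
    1 + ∑ s ∈ range K, ind (nu M (s + 1) w = s + 1) := by
  have key : ∀ k, ∑ j ∈ range (k + 1), ind (nS M j w = j) ≤ 1 + ∑ s ∈ range (nS M k w), ind (nu M (s + 1) w = s + 1) := by
    intro k
    induction k with
    | zero =>
      rw [Finset.sum_range_one]
      have h1 := ind_le_one (nS M 0 w = 0)
      have h2 : 0 ≤ ∑ s ∈ range (nS M 0 w), ind (nu M (s + 1) w = s + 1) := sum_nonneg fun _ _ => ind_nonneg _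
      linarith
    | succ k ih =>
      rw [Finset.sum_range_succ]
      by_cases h : CS M (nS M k w) (k + 1) w
      · have h1 : nS M (k + 1) w = k + 1 := CK.stg_pos h
        have h2 : nS M k w ≤ k + 1 := (nS_le k w).trans (Nat.le_succ k)
        rw [h1, ind_of rfl]
        have h3 : nu M (k + 1) w ≤ k + 1 := CK.stg_le (k + 1) w
        have h4 : nS M k w < nu M (k + 1) w := h.2
        have h5 : nu M (nu M (k + 1) w) w = nu M (k + 1) w := CK.stg_idem (k + 1) w
        have h8 := Finset.sum_range_add_sum_Ico (fun s => ind (nu M (s + 1) w = s + 1)) h2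
        rw [← h8]
        have h6 : (1 : ℝ) ≤ ∑ s ∈ Ico (nS M k w) (k + 1), ind (nu M (s + 1) w = s + 1) := by
          have h7 : ind (nu M (nu M (k + 1) w - 1 + 1) w = nu M (k + 1) w - 1 + 1) = 1 := by
            rw [Nat.sub_add_cancel (by omega)]
            exact ind_of h5
          rw [← h7]
          exact single_le_sum (f := fun s => ind (nu M (s + 1) w = s + 1)) (fun _ _ => ind_nonneg _)
            (mem_Ico.2 ⟨by omega, by omega⟩)
        linarith
      · have h1 : nS M (k + 1) w = nS M k w := CK.stg_neg h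
        have h2 : nS M k w ≤ k := nS_le k w
        rw [h1, ind_not (by omega), add_zero]
        exact ih
  refine (key K).trans (add_le_add le_rfl ?_)
  exact sum_le_sum_of_subset_of_nonneg (range_mono (nS_le K w)) fun _ _ _ => ind_nonneg _

/-- **the number of the starts** -/
theorem nS_sum (T : ℕ) : ∑ k ∈ range (5 * T + 1), M.P.Pr (fun w => nS M k w = k) ≤ 1 + N0 M (5 * T) := by
  have h1 : ∑ k ∈ range (5 * T + 1), M.P.Pr (fun w => nS M k w = k) =
      M.P.E (fun w => ∑ k ∈ range (5 * T + 1), ind (nS M k w = k)) := by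
    rw [M.P.E_sum]
    rfl
  have h2 : 1 + N0 M (5 * T) = M.P.E (fun w => 1 + ∑ s ∈ range (5 * T), ind (nu M (s + 1) w = s + 1)) := by
    rw [M.P.E_add, M.P.E_const, M.P.E_sum]
    rfl
  rw [h1, h2]
  exact M.P.E_mono fun w _ => nS_count (5 * T) w

/-! ### letters of an unlisted tuple -/

theorem lf_unl (F : Finset (Fin 3) × Finset (Fin 3)) {q r : ℕ} {w : Om} (hw : M.P.p w ≠ 0) (hr : nu M q w ≤ r) (hrq : r ≤ q)
    (hl : ¬ Lst M (nu M q w) q w) : |lf M F q w - lf M F r w| ≤ 4 * M.d0 := by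
  have hl2 : ¬ Lst M (nu M q w) r w := Lst_mono hrq hl
  have q1 := abs_le.1 (AHR.lq_move (LF_step M F) (hr.trans hrq) hw (MV4.not_mv (hr.trans hrq) hl F))
  have q3 := abs_le.1 (AHR.lq_move (LF_step M F) hr hw (MV4.not_mv hr hl2 F))
  unfold lf
  rw [abs_le]
  constructor <;> linarith [q1.1, q1.2, q3.1, q3.2]

theorem ps_unl (i : Fin 3) {q r : ℕ} {w : Om} (hw : M.P.p w ≠ 0) (hr : nu M q w ≤ r) (hrq : r ≤ q)
    (hl : ¬ Lst M (nu M q w) q w) : |ps M i q w - ps M i r w| ≤ 16 * M.d0 := by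
  have h1 := abs_le.1 (lf_unl (univ, {i}) hw hr hrq hl)
  have h2 := abs_le.1 (lf_unl (univ, ∅) hw hr hrq hl)
  have h3 := abs_le.1 (lf_unl (univ.erase i, {i}) hw hr hrq hl)
  have h4 := abs_le.1 (lf_unl (univ.erase i, ∅) hw hr hrq hl)
  unfold ps
  rw [abs_le]
  constructor <;> linarith [h1.1, h1.2, h2.1, h2.2, h3.1, h3.2, h4.1, h4.2]

theorem SA_mono {X1 X2 e e' : ℝ} (h1 : X1 ≤ X2) (h2 : e' ≤ e) {i : Fin 3} {s : ℕ} {w : Om} (h : SA M X1 e i s w) :
    SA M X2 e' i s w :=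
  ⟨h2.trans h.1, fun j => (neg_le_neg h1).trans (h.2.1 j), (neg_le_neg h1).trans h.2.2⟩

/-- strong alive singles, from the removal to an earlier state of the public epoch -/
theorem SA_unl {X1 e : ℝ} (i : Fin 3) {q r : ℕ} {w : Om} (hw : M.P.p w ≠ 0) (hr : nu M q w ≤ r) (hrq : r ≤ q)
    (hl : ¬ Lst M (nu M q w) q w) (h : SA M X1 e i q w) : SA M (X1 + 4 * M.d0) (e - 16 * M.d0) i r w := by
  have h1 := (abs_sub_abs_le_abs_sub (ps M i q w) (ps M i r w)).trans (ps_unl i hw hr hrq hl)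
  refine ⟨by linarith [h.1], fun j => ?_, ?_⟩
  · have h2 := abs_le.1 (lf_unl ({j}, ∅) hw hr hrq hl)
    linarith [h.2.1 j, h2.2]
  · have h2 := abs_le.1 (lf_unl (univ.erase i, {i}) hw hr hrq hl)
    linarith [h.2.2, h2.2]

/-- the same forward -/
theorem SA_unl' {X1 e : ℝ} (i : Fin 3) {q r : ℕ} {w : Om} (hw : M.P.p w ≠ 0) (hr : nu M q w ≤ r) (hrq : r ≤ q)
    (hl : ¬ Lst M (nu M q w) q w) (h : SA M X1 e i r w) : SA M (X1 + 4 * M.d0) (e - 16 * M.d0) i q w := by
  have h1 := (abs_sub_abs_le_abs_sub (ps M i r w) (ps M i q w)).trans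
    ((abs_sub_comm _ _).le.trans (ps_unl i hw hr hrq hl))
  refine ⟨by linarith [h.1], fun j => ?_, ?_⟩
  · have h2 := abs_le.1 (lf_unl ({j}, ∅) hw hr hrq hl)
    linarith [h.2.1 j, h2.1]
  · have h2 := abs_le.1 (lf_unl (univ.erase i, {i}) hw hr hrq hl)
    linarith [h.2.2, h2.1]

/-- **a letter which was alive and is dead now is listed** -/
theorem alive_dead (F : Finset (Fin 3) × Finset (Fin 3)) {X1 : ℝ} {q r : ℕ} {w : Om} (hw : M.P.p w ≠ 0) (hr : nu M q w ≤ r)
    (hrq : r ≤ q) (h1 : -X1 ≤ lf M F r w) (h2 : lf M F q w < -(X1 + 4 * M.d0)) : Lst M (nu M q w) q w := by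
  by_contra hl
  have h3 := abs_le.1 (lf_unl F hw hr hrq hl)
  linarith [h3.1]

/-! ### the static relation -/

theorem LF_fac (F : Finset (Fin 3) × Finset (Fin 3)) {i : Fin 3} {s : ℕ} {a b : Om} (h1 : M.NP s a = M.NP s b)
    (h2 : M.XL i s a = M.XL i s b) (h3 : CX M i s a = CX M i s b) (hF : F.2 ⊆ {i}) :
    (LF M F s a, M.NP s a) = (LF M F s b, M.NP s b) := by
  have hX : ∀ j, M.XL j s a = M.XL j s b := by
    intro j
    by_cases hj : j = i
    · rw [hj, h2]
    · have h4 := congrFun (Prod.mk.inj h3).1 j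
      simp only [if_pos (show j ≠ i from hj), Option.some.injEq] at h4
      exact h4
  refine Prod.ext (LF_eq.2 ⟨fun j _ => hX j, fun j hj => ?_, YF_eq.2 fun j => M.hXY j s a b (hX j)⟩) h1
  rw [Finset.mem_singleton.1 (hF hj)]
  exact (Prod.mk.inj h3).2

theorem UY_fac {i : Fin 3} {s : ℕ} {a b : Om} (h1 : M.NP s a = M.NP s b) (h2 : M.XL i s a = M.XL i s b)
    (h3 : CX M i s a = CX M i s b) : AHR.UY M s a = AHR.UY M s b := by
  have h4 := LF_fac (∅, ∅) h1 h2 h3 (Finset.empty_subset _)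
  exact Prod.ext (congrArg (fun x => x.2.2) (Prod.mk.inj h4).1) h1

theorem lf_fac (F : Finset (Fin 3) × Finset (Fin 3)) {i : Fin 3} {s : ℕ} {a b : Om} (h1 : M.NP s a = M.NP s b)
    (h2 : M.XL i s a = M.XL i s b) (h3 : CX M i s a = CX M i s b) (hF : F.2 ⊆ {i}) : lf M F s a = lf M F s b := by
  have g1 := M.P.Fac_m (fun u => (LF M F s u, M.NP s u)) a b (LF_fac F h1 h2 h3 hF)
  have g2 := M.P.Fac_m (AHR.UY M s) a b (UY_fac h1 h2 h3)
  show Real.log (M.P.m (fun u => (LF M F s u, M.NP s u)) a / M.P.m (AHR.UY M s) a) =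
    Real.log (M.P.m (fun u => (LF M F s u, M.NP s u)) b / M.P.m (AHR.UY M s) b)
  rw [g1, g2]

theorem SA_fac {X1 e : ℝ} {i : Fin 3} {s : ℕ} {a b : Om} (h1 : M.NP s a = M.NP s b) (h2 : M.XL i s a = M.XL i s b)
    (h3 : CX M i s a = CX M i s b) : SA M X1 e i s a ↔ SA M X1 e i s b := by
  unfold SA alX ps
  rw [lf_fac (univ, {i}) h1 h2 h3 (Finset.Subset.refl _), lf_fac (univ, ∅) h1 h2 h3 (Finset.empty_subset _),
    lf_fac (univ.erase i, {i}) h1 h2 h3 (Finset.Subset.refl _), lf_fac (univ.erase i, ∅) h1 h2 h3 (Finset.empty_subset _)]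
  have h4 : ∀ j, lf M ({j}, ∅) s a = lf M ({j}, ∅) s b := fun j => lf_fac _ h1 h2 h3 (Finset.empty_subset _)
  simp only [h4]

theorem rwX_mono {i : Fin 3} {ν : ℕ} {H H' : Om → Prop} (h : ∀ z, H z → H' z) {w u : Om} (g : rwX M i ν H w u) :
    rwX M i ν H' w u := by
  obtain ⟨z, h1, h2, h3, h4, h5⟩ := g
  exact ⟨z, h1, h2, h3, h4, h z h5⟩

theorem clX_mono {i : Fin 3} {ν : ℕ} {H H' : Om → Prop} (h : ∀ z, H z → H' z) {w u : Om} (g : clX M i ν H w u) :
    clX M i ν H' w u := by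
  obtain ⟨z, h1, h2, h3, h4, h5⟩ := g
  exact ⟨z, h1, h2, h3, h4, h z h5⟩

theorem ce_ind_mono {ζ : Type*} {Z : Om → ζ} {A B : Om → Prop} {w : Om}
    (h : ∀ u, M.P.p u ≠ 0 → Z u = Z w → A u → B u) : M.P.ce Z (fun u => ind (A u)) w ≤ M.P.ce Z (fun u => ind (B u)) w :=
  MV4.mono_on (M := M) fun u hu huw => ind_mono (h u hu huw)

/-- **`HS` is a static relation with small exact masses** -/
theorem HS_rel (i : Fin 3) (p1 X1 e : ℝ) : RelX M i p1 X1 (HS M X1 e p1 i) := by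
  refine ⟨?_, ?_, ?_, fun ν w _ h => h.1.2⟩
  · intro ν a b _ _ h1 h3 h2 h
    have e1 : AHR.UY M ν a = AHR.UY M ν b := UY_fac h1 h2 h3
    have e2 : rwX M i ν (SA M X1 e i ν) a = rwX M i ν (SA M X1 e i ν) b := by
      funext u
      unfold rwX
      rw [h1, h3]
    have e3 : clX M i ν (SA M X1 e i ν) a = clX M i ν (SA M X1 e i ν) b := by
      funext u
      unfold clX
      rw [h1, h2]
    refine ⟨(SA_fac h1 h2 h3).1 h.1, ?_, ?_⟩
    · have h4 := h.2.1
      rw [e2, M.P.ce_fac (AHR.UY M ν) _ a b e1] at h4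
      exact h4
    · have h4 := h.2.2
      rw [e3, M.P.ce_fac (AHR.UY M ν) _ a b e1] at h4
      exact h4
  · intro ν w _ h
    exact (ce_ind_mono fun u _ _ g => rwX_mono (fun z hz => hz.1) g).trans h.2.1
  · intro ν w _ h
    exact (ce_ind_mono fun u _ _ g => clX_mono (fun z hz => hz.1) g).trans h.2.2

/-! ### masses forward -/

/-- an unlisted tuple does not move between any two times of the public epoch -/
theorem not_mv2 {q r : ℕ} {ν : ℕ} (hr : ν ≤ r) (hrq : r ≤ q) {u : Om} (hu : M.P.p u ≠ 0) (hl : ¬ Lst M ν q u)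
    (F : Finset (Fin 3) × Finset (Fin 3)) : ¬ Mv1 M.P M.NP (LF M F) (YF M F) (2 * M.d0) r q u := by
  have h1 := MV4.not_mv (hr.trans hrq) hl F
  have h2 := MV4.not_mv hr (Lst_mono hrq hl) F
  unfold Mv1 at h1 h2 ⊢
  push Not at h1 h2 ⊢
  obtain ⟨a1, b1⟩ := h1
  obtain ⟨a2, b2⟩ := h2
  have e1 := Finset.sum_Ico_consecutive (fun j => ai M.P M.NP (LF M F) (YF M F) j u) hr hrq
  have e2 := Finset.sum_Ico_consecutive (fun j => bi M.P M.NP (LF M F) (YF M F) j u) hr hrq
  have h3 : 0 ≤ ∑ j ∈ Ico ν r, bi M.P M.NP (LF M F) (YF M F) j u :=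
    Finset.sum_nonneg fun j _ => bi_nonneg M.P (LF_step M F) j hu
  have hd0 := M.hd0
  have a1' := abs_lt.1 a1
  have a2' := abs_lt.1 a2
  refine ⟨?_, by linarith⟩
  rw [abs_lt]
  constructor <;> linarith [a1'.1, a1'.2, a2'.1, a2'.2]

/-- **exact masses forward** : the unlisted part of a set at all points -/
theorem mass_fwdU (hd : 2 * M.d0 < Real.log 2) {q r ν : ℕ} (hr : ν ≤ r) (hrq : r ≤ q) {A : Om → Prop}
    (hA : Fac (fun u => (LF M (univ, univ) r u, M.NP r u)) A) {u : Om} (hu : M.P.p u ≠ 0) :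
    M.P.ce (AHR.UY M q) (fun x => ind (A x ∧ ¬ Lst M ν q x)) u ≤
      Real.exp (2 * M.d0) * M.P.ce (AHR.UY M r) (fun x => ind (A x)) u := by
  have h1 := unm_le (P := M.P) (N := M.NP) (L := LF M (univ, univ)) (Y := YF M (univ, univ)) M.hN
    (LF_step M (univ, univ)) (LF_YF M (univ, univ)) hd hrq hA hu
  refine le_trans (ce_ind_mono fun x hx _ g => ?_) h1
  exact ⟨not_mv2 hr hrq hx g.2 (univ, univ), g.1⟩

/-- **class masses forward** (any time `r` of the public epoch): exact masses at most `p` at `r` give a class mass at most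
`e^(2 d0) p + k0` at `q` -/
theorem mass_fwd (hd : 2 * M.d0 < Real.log 2) {q r : ℕ} {w : Om} (hw : M.P.p w ≠ 0) (hr : nu M q w ≤ r) (hrq : r ≤ q)
    {A : Om → Prop} (hA : Fac (fun u => (LF M (univ, univ) r u, M.NP r u)) A) {p : ℝ}
    (hp : ∀ u, M.P.p u ≠ 0 → M.NP r u = M.NP r w → M.P.ce (AHR.UY M r) (fun x => ind (A x)) u ≤ p) :
    M.P.ce (M.NP q) (fun u => ind (A u)) w ≤ Real.exp (2 * M.d0) * p + M.k0 := by
  have h1 : M.P.ce (M.NP q) (fun u => ind (A u)) w ≤ M.P.ce (M.NP q) (fun u => ind (A u ∧ ¬ Lst M (nu M q w) q u) +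
      ind (Lst M (nu M q w) q u)) w := by
    refine MV4.mono_on (M := M) fun u _ _ => ?_
    by_cases g2 : Lst M (nu M q w) q u
    · have h3 := ind_nonneg (A u ∧ ¬ Lst M (nu M q w) q u)
      have h4 := ind_le_one (A u)
      rw [ind_of g2]
      linarith
    · rw [ind_not g2, add_zero]
      exact ind_mono fun g => ⟨g, g2⟩
  rw [M.P.ce_add] at h1
  have h2 := Lst_mass M q hw
  have h3 : M.P.ce (M.NP q) (fun u => ind (A u ∧ ¬ Lst M (nu M q w) q u)) w ≤ Real.exp (2 * M.d0) * p := by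
    have hfac : Fac (AHR.UY M q) (M.NP q) := fun a b hab => (Prod.mk.inj hab).2
    rw [← M.P.ce_tower hfac]
    refine (MV4.mono_on (M := M) (g := fun _ => Real.exp (2 * M.d0) * p) fun u hu huw => ?_).trans
      (M.P.ce_const _ _ hw).le
    exact (mass_fwdU hd hr hrq hA hu).trans
      (mul_le_mul_of_nonneg_left (hp u hu (fac_le M.hN hrq u w huw)) (Real.exp_pos _).le)
  linarith

/-- row (Q1) of helper73 -/
theorem mass_fwd2 (hd : 2 * M.d0 < Real.log 2) {q r : ℕ} {w : Om} (hw : M.P.p w ≠ 0) (hr : nu M q w ≤ r) (hrq : r ≤ q)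
    {A : Om → Prop} (hA : Fac (fun u => (LF M (univ, univ) r u, M.NP r u)) A) {p : ℝ} (hp0 : 0 ≤ p)
    (hp : ∀ u, M.P.p u ≠ 0 → M.NP r u = M.NP r w → M.P.ce (AHR.UY M r) (fun x => ind (A x)) u ≤ p) :
    M.P.ce (M.NP q) (fun u => ind (A u)) w ≤ 2 * p + M.k0 := by
  refine (mass_fwd hd hw hr hrq hA hp).trans (add_le_add (mul_le_mul_of_nonneg_right ?_ hp0) le_rfl)
  calc Real.exp (2 * M.d0) ≤ Real.exp (Real.log 2) := Real.exp_le_exp.2 hd.le
    _ = 2 := Real.exp_log (by norm_num)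

/-- row (Q2) of helper73 -/
theorem alive_dead' (F : Finset (Fin 3) × Finset (Fin 3)) {X1 : ℝ} {q r : ℕ} {w u : Om} (hu : M.P.p u ≠ 0)
    (huw : M.NP q u = M.NP q w) (hr : nu M q w ≤ r) (hrq : r ≤ q) (h1 : -X1 ≤ lf M F r u)
    (h2 : lf M F q u < -(X1 + 4 * M.d0)) : Lst M (nu M q w) q u := by
  have e : nu M q u = nu M q w := nu_fac M q u w huw
  have h3 := alive_dead F hu (by rw [e]; exact hr) hrq h1 h2
  rwa [e] at h3

end

end Pool.Agent.GMH.Sng
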