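import Pool.Agent.GMH.SngC8
import Pool.Agent.GMH.SngK

/-!
# GMH/SngC9 (helper73): THE COVER OF THE EXPENSIVE PUBLIC REMOVALS WITH A STATIC RELATION (kind S, rows (E5), (E6))

`Inp`, `Sees`, `Num`, `LinR`, `PtI`, `RelX` as in SngC8; clock `CS M`, starts `nS M`.
* `Lin.val'` : the potential at a value, only expensive values pay;
* `smp_core` : average over the samples; `Pt` : the two bounds of one value, `Pt_D`, `Pt_C` : both directions;
* **`pot_end`**, **`pot_start`** : the two sums;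
* **`cov_sum`** : `Σ_t Pr (exq (5 t + 1), Hs (nS (5 t + 1)))` is at most `x/2 Σ_t Pr (exq (5 t + 1))` + small terms.
-/

set_option autoImplicit false
set_option linter.unusedSectionVars false

namespace Pool.Agent.GMH.SngC

open Finset Pool.Agent.PWZ Pool.Agent.M3 Pool.Agent.GM Pool.Agent.GM.Harm Pool.Agent.GMH
open Pool.Agent.GMH.Gdy Pool.Agent.GMH.Dy Pool.Agent.GMH.TabF Pool.Agent.GMH.CK Pool.Agent.GMH.MV Pool.Agent.GMH.Sng
open Pool.Agent.GMH.Str (En)

noncomputable section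

/-! ### one value -/

section val

variable {Om : Type*} [Fintype Om] {P : FP Om} {κ : Type*} {nd : Om → κ} {Nm : Type*} {τ : Om → Nm} {sz : Nm → ℕ}
  {R : Nm → Om → Prop} {V : Om → Prop} {φ : Om → ℝ} {x m K b e c : ℝ}

theorem Lin.le_pos (L : Lin P nd τ sz R V φ x m K b e c) :
    P.E (fun w => ind (V w) * φ w) ≤ P.Pr (fun w => V w ∧ 0 < φ w) := by
  unfold FP.Pr
  refine P.E_mono fun w hw => ?_
  by_cases hv : V w
  · rcases (L.nn w).eq_or_lt with h | h
    · rw [← h, mul_zero]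
      exact ind_nonneg _
    · rw [ind_of hv, ind_of (show V w ∧ 0 < φ w from ⟨hv, h⟩), one_mul]
      exact L.le1 w hw
  · rw [ind_not hv, zero_mul]
    exact ind_nonneg _

/-- **only expensive values pay** -/
theorem Lin.val' (L : Lin P nd τ sz R V φ x m K b e c) :
    P.E (fun w => ind (V w) * φ w) ≤ P.Pr V * (6 * K * (Real.log (m / P.Pr V) *
      ind (x / (32 * K) < Real.log (m / P.Pr V))) + Real.exp (-(x / (16 * K)))) := by
  by_cases h : x / (32 * K) < Real.log (m / P.Pr V)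
  · rw [ind_of h, mul_one]
    exact L.val
  · rw [ind_not h, mul_zero, mul_zero, zero_add]
    exact L.le_pos.trans (L.pos (not_lt.1 h))

/-- **average over the samples** -/
theorem smp_core {ζ S : Type*} [Fintype S] {Z : Om → ζ} {G : Om → Prop} (hG : Fac Z G) {wt : S → Om → ℝ}
    (hwt : ∀ s, Fac Z (wt s)) (h0 : ∀ s w, 0 ≤ wt s w) (h1 : ∀ w, ∑ s, wt s w = 1) {f : S → Om → ℝ} {B : Om → ℝ}
    (hf : ∀ w, P.p w ≠ 0 → G w → ∀ s, wt s w ≠ 0 → P.ce Z (f s) w ≤ B w) :
    P.E (fun w => ind (G w) * ∑ s, wt s w * f s w) ≤ P.E (fun w => ind (G w) * B w) := by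
  have e1 : P.E (fun w => ind (G w) * ∑ s, wt s w * f s w) = P.E (fun w => ∑ s, ind (G w) * wt s w * P.ce Z (f s) w) := by
    rw [P.E_sum]
    have e2 : ∀ s, P.E (fun w => ind (G w) * wt s w * P.ce Z (f s) w) = P.E (fun w => ind (G w) * wt s w * f s w) :=
      fun s => P.E_mul_ce (h := fun w => ind (G w) * wt s w) (fun a b hab => by
        show ind (G a) * wt s a = ind (G b) * wt s b
        rw [hG a b hab, hwt s a b hab]) (f s)
    simp only [e2]
    rw [← P.E_sum]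
    refine P.E_congr fun w _ => ?_
    rw [Finset.mul_sum]
    exact Finset.sum_congr rfl fun s _ => (mul_assoc _ _ _).symm
  rw [e1]
  refine P.E_mono fun w hw => ?_
  by_cases hg : G w
  · rw [ind_of hg, one_mul]
    have h2 : ∑ s, 1 * wt s w * P.ce Z (f s) w ≤ ∑ s, wt s w * B w := by
      refine Finset.sum_le_sum fun s _ => ?_
      rw [one_mul]
      by_cases hs : wt s w = 0
      · rw [hs, zero_mul, zero_mul]
      · exact mul_le_mul_of_nonneg_left (hf w hw hg s hs) (h0 s w)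
    refine h2.trans (le_of_eq ?_)
    rw [← Finset.sum_mul, h1, one_mul]
  · rw [ind_not hg, zero_mul]
    exact (Finset.sum_eq_zero fun s _ => by rw [zero_mul, zero_mul]).le

end val

/-! ### the clock and the levels -/

section lev

variable {Om : Type} [Fintype Om] {M : MS Om}

theorem nS_fac (q : ℕ) : Fac (M.NP q) (nS M q) := by
  refine stg_fac (N := M.NP) M.hN (fun ν k _ a b hab => ?_) q
  unfold Sng.CS
  rw [nu_fac M (k + 1) a b hab]

theorem En_fac (T' s : ℕ) : Fac (M.NP (s + 1)) (En (CS M) T' s) := by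
  intro a b hab
  have h1 : stg (CS M) (s + 1) a = stg (CS M) (s + 1) b := nS_fac (s + 1) a b hab
  unfold En
  rw [h1]

/-- ends only after the steps `5 t`, `5 t + 4` -/
theorem En_mod {T s : ℕ} {w : Om} (h : En (CS M) (5 * T) s w) : s % 5 = 4 ∨ s % 5 = 0 := by
  rcases h with h | h
  · have h1 : CS M (stg (CS M) s w) (s + 1) w := stg_end h
    have h2 := h1.1
    omega
  · omega

/-- the state of the class of the step `s` -/
def qs (s : ℕ) : ℕ := if s % 5 = 4 then s - 3 else s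

theorem qs_nS {s : ℕ} (w : Om) : nS M (qs s) w = nS M s w := by
  unfold qs
  split_ifs with h
  · obtain ⟨t, rfl⟩ : ∃ t, s = 5 * t + 4 := ⟨s / 5, by omega⟩
    rw [show 5 * t + 4 - 3 = 5 * t + 1 by omega, nS_const]
  · rfl

theorem nn_eq (q : ℕ) : TP.nn q = (q + 4) / 5 := by
  unfold TP.nn TP.nnj
  split_ifs with h <;> omega

theorem qs_lv {T s : ℕ} (hs : s < 5 * T) (h : s % 5 = 4 ∨ s % 5 = 0) : Lv T (qs s) (s + 1) := by
  have e1 := nn_eq (s + 1)
  have e2 := nn_eq (qs s)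
  have hq : (s % 5 = 4 ∧ qs s = s - 3) ∨ (s % 5 = 0 ∧ qs s = s) := by
    unfold qs
    rcases h with h | h
    · left
      exact ⟨h, if_pos h⟩
    · right
      exact ⟨h, if_neg (by omega)⟩
  refine ⟨by omega, by omega, by omega, ?_⟩
  rw [e1, e2]
  omega

theorem qs_five {s : ℕ} (h : s % 5 = 4 ∨ s % 5 = 0) : 5 * (qs s / 5) = 5 * (s / 5) := by
  have hq : (s % 5 = 4 ∧ qs s = s - 3) ∨ (s % 5 = 0 ∧ qs s = s) := by
    unfold qs
    rcases h with h | h
    · left
      exact ⟨h, if_pos h⟩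
    · right
      exact ⟨h, if_neg (by omega)⟩
  omega

theorem lv_self {T q : ℕ} (hm : q % 5 ≤ 1) (h : q < 5 * T) : Lv T q q := ⟨hm, le_rfl, h.le, Or.inl rfl⟩

theorem lv_step (T : ℕ) : ∀ q < 5 * T, TP.nn (q + 1) = TP.nn q ∨ (TP.nn (q + 1) = TP.nn q + 1 ∧ TP.nn q < T) := by
  intro q hq
  rw [nn_eq, nn_eq]
  omega

/-- sums over the states `5 t + r` -/
theorem sum_res (g : ℕ → ℝ) {r : ℕ} (hr : r < 5) (T : ℕ) :
    ∑ s ∈ range (5 * T), (if s % 5 = r then g s else 0) = ∑ t ∈ range T, g (5 * t + r) := by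
  induction T with
  | zero => simp
  | succ T ih =>
    have e : 5 * (T + 1) = 5 * T + 1 + 1 + 1 + 1 + 1 := by ring
    rw [e, Finset.sum_range_succ, Finset.sum_range_succ, Finset.sum_range_succ, Finset.sum_range_succ,
      Finset.sum_range_succ, ih, Finset.sum_range_succ]
    have a0 : (5 * T) % 5 = 0 := by omega
    have a1 : (5 * T + 1) % 5 = 1 := by omega
    have a2 : (5 * T + 1 + 1) % 5 = 2 := by omega
    have a3 : (5 * T + 1 + 1 + 1) % 5 = 3 := by omega
    have a4 : (5 * T + 1 + 1 + 1 + 1) % 5 = 4 := by omega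
    rw [a0, a1, a2, a3, a4]
    interval_cases r <;> simp

end lev

/-! ### the two sums -/

variable {X β γ φ : Type} [Fintype X] [Fintype β] [Fintype φ] [Nonempty X] [Nonempty β]
variable {D : HD (Fin 3) X β γ φ} {al : ℝ} {prr : ℕ → Fin 3 → φ → φ} {T : ℕ} {W : Type} [Fintype W]

/-- **the two bounds at one value**, for samples of positive weight -/
structure PtB (tb : Tab D prr T W) (M : MS (Om W X β)) (w0 : Om W X β) (G S' F S : Finset (Fin 3))
    (Rl : ℕ → Om W X β → Om W X β → Prop) (x K : ℝ) (Ms : ℕ) : Prop where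
  val : ∀ q q' w, Lv T q q' → tb.Ps.p w ≠ 0 → ∀ sm : Fin Ms → Sm W β,
    (∀ k, Ok tb w0 (TP.nn (nS M q w)) G S' (sm k) w) →
    tb.Ps.ce (M.NP q') (fun u => PhE tb w0 TP.nn (5 * T) F S (Rl (nS M q w)) x (fun k => (u.1, sm k)) (nS M q w) q' u) w ≤
      6 * K * (Real.log (M.P.m (M.NP (5 * (q / 5))) w / M.P.m (M.NP q') w) *
        ind (x / (32 * K) < Real.log (M.P.m (M.NP (5 * (q / 5))) w / M.P.m (M.NP q') w))) + Real.exp (-(x / (16 * K)))
  pos : ∀ q q' w, Lv T q q' → tb.Ps.p w ≠ 0 → ∀ sm : Fin Ms → Sm W β,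
    (∀ k, Ok tb w0 (TP.nn (nS M q w)) G S' (sm k) w) →
    tb.Ps.ce (M.NP q') (fun u => ind (0 < PhE tb w0 TP.nn (5 * T) F S (Rl (nS M q w)) x (fun k => (u.1, sm k))
      (nS M q w) q' u)) w ≤
      ind (x / (32 * K) < Real.log (M.P.m (M.NP (5 * (q / 5))) w / M.P.m (M.NP q') w)) + Real.exp (-(x / (16 * K)))

variable {tb : Tab D prr T W} {M : MS (Om W X β)}

/-- from `Lin` -/
theorem ptB_of (hP : M.P = tb.Ps) {w0 : Om W X β} {G S' F S : Finset (Fin 3)}
    {Rl : ℕ → Om W X β → Om W X β → Prop} {x K b e c : ℝ} {Ms : ℕ} {Nm : ℕ → Type} {sz : ∀ n, Nm n → ℕ}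
    (h : ∀ q q' w, Lv T q q' → tb.Ps.p w ≠ 0 → ∀ sm : Fin Ms → Sm W β,
      (∀ k, Ok tb w0 (TP.nn (nS M q w)) G S' (sm k) w) →
      ∃ (R : Nm (nS M q w) → Om W X β → Prop) (τ : Om W X β → Nm (nS M q w)), Lin tb.Ps (sgt D ∅ (TP.nn q')) τ
        (sz (nS M q w)) R (fun u => M.NP q' u = M.NP q' w) (fun u => PhE tb w0 TP.nn (5 * T) F S (Rl (nS M q w)) x
        (fun k => (u.1, sm k)) (nS M q w) q' u) x (M.P.m (M.NP (5 * (q / 5))) w) K b e c) :
    PtB tb M w0 G S' F S Rl x K Ms := by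
  constructor
  · intro q q' w hq hw sm hok
    obtain ⟨R, τ, L⟩ := h q q' w hq hw sm hok
    have h2 := L.val'
    have h3 : tb.Ps.Pr (fun u => M.NP q' u = M.NP q' w) = M.P.m (M.NP q') w := by rw [hP]; rfl
    have h4 : 0 < M.P.m (M.NP q') w := by rw [hP]; exact tb.Ps.m_pos (M.NP q') hw
    rw [h3] at h2
    have h5 : tb.Ps.m (M.NP q') w = M.P.m (M.NP q') w := by rw [hP]
    show tb.Ps.E _ / tb.Ps.m (M.NP q') w ≤ _
    rw [h5, div_le_iff₀ h4, mul_comm (_ + _)]
    exact h2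
  · intro q q' w hq hw sm hok
    obtain ⟨R, τ, L⟩ := h q q' w hq hw sm hok
    by_cases hc : x / (32 * K) < Real.log (M.P.m (M.NP (5 * (q / 5))) w / M.P.m (M.NP q') w)
    · rw [ind_of hc]
      have h6 := tb.Ps.ce_mono (X := M.NP q') (f := fun u => ind (0 < PhE tb w0 TP.nn (5 * T) F S (Rl (nS M q w)) x
        (fun k => (u.1, sm k)) (nS M q w) q' u)) (g := fun _ => 1) (fun u _ => ind_le_one _) w
      rw [tb.Ps.ce_const _ _ hw] at h6
      have := (Real.exp_pos (-(x / (16 * K)))).le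
      linarith
    · rw [ind_not hc, zero_add]
      have h3 : tb.Ps.Pr (fun u => M.NP q' u = M.NP q' w) = M.P.m (M.NP q') w := by rw [hP]; rfl
      have h4 : 0 < M.P.m (M.NP q') w := by rw [hP]; exact tb.Ps.m_pos (M.NP q') hw
      have h2 := L.pos (by rw [h3]; exact not_lt.1 hc)
      rw [h3] at h2
      have h5 : tb.Ps.m (M.NP q') w = M.P.m (M.NP q') w := by rw [hP]
      show tb.Ps.E _ / tb.Ps.m (M.NP q') w ≤ _
      rw [h5, div_le_iff₀ h4, mul_comm (Real.exp _)]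
      refine le_trans (le_of_eq ?_) h2
      unfold FP.Pr
      exact tb.Ps.E_congr fun u _ => (ind_and _ _).symm

/-- the weights of the samples are functions of the class -/
theorem ws_fac (hS : Sees tb M) (w0 : Om W X β) {q q' : ℕ} (hqq : q ≤ q') (G S' : Finset (Fin 3)) {Ms : ℕ}
    (sm : Fin Ms → Sm W β) : Fac (M.NP q') (fun w => wsT tb w0 (TP.nn (nS M q w)) G S' sm w) := by
  intro a b hab
  have h1 : M.NP q a = M.NP q b := TD.fac_le M.hN hqq a b hab
  have h2 : nS M q a = nS M q b := nS_fac q a b h1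
  have h3 : M.NP (nS M q b) a = M.NP (nS M q b) b := TD.fac_le M.hN (nS_le q b) a b h1
  show wsT tb w0 (TP.nn (nS M q a)) G S' sm a = wsT tb w0 (TP.nn (nS M q b)) G S' sm b
  rw [h2]
  exact wsT_cells sm (hS.c (nS M q b) a b h3)

variable {w0 : Om W X β} {G S' F S : Finset (Fin 3)} {Rl : ℕ → Om W X β → Om W X β → Prop} {x K : ℝ} {Ms : ℕ}

/-- **one step of the ends** -/
theorem end_one (hS : Sees tb M) (hB : PtB tb M w0 G S' F S Rl x K Ms) {s : ℕ} (hs : s < 5 * T) :
    tb.Ps.E (fun w => ind (En (CS M) (5 * T) s w) * ∑ us : Fin Ms → Om W X β,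
      wtT tb w0 (TP.nn (nS M s w)) G S' us w *
        PhE tb w0 TP.nn (5 * T) F S (Rl (nS M s w)) x us (nS M s w) (s + 1) w) ≤
    6 * K * tb.Ps.E (fun w => ind (En (CS M) (5 * T) s w) * (LE M s w * ind (x / (32 * K) < LE M s w))) +
      Real.exp (-(x / (16 * K))) * tb.Ps.Pr (En (CS M) (5 * T) s) := by
  classical
  have h2 : 6 * K * tb.Ps.E (fun w => ind (En (CS M) (5 * T) s w) * (LE M s w * ind (x / (32 * K) < LE M s w))) +
      Real.exp (-(x / (16 * K))) * tb.Ps.Pr (En (CS M) (5 * T) s) = tb.Ps.E (fun w => ind (En (CS M) (5 * T) s w) *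
      (6 * K * (LE M s w * ind (x / (32 * K) < LE M s w)) + Real.exp (-(x / (16 * K))))) := by
    unfold FP.Pr
    rw [← tb.Ps.E_smul, ← tb.Ps.E_smul, ← tb.Ps.E_add]
    exact tb.Ps.E_congr fun w _ => by ring
  rw [h2]
  by_cases hm : s % 5 = 4 ∨ s % 5 = 0
  · have hlv := qs_lv hs hm
    refine le_trans (le_of_eq ?_) (smp_core (P := tb.Ps) (Z := M.NP (s + 1)) (G := En (CS M) (5 * T) s)
      (En_fac (5 * T) s) (wt := fun sm w => wsT tb w0 (TP.nn (nS M (qs s) w)) G S' sm w)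
      (fun sm => ws_fac hS w0 hlv.le G S' sm) (fun sm w => wsT_nonneg sm w) (fun w => wsT_sum w0 _ G S' Ms w)
      (f := fun sm w => PhE tb w0 TP.nn (5 * T) F S (Rl (nS M (qs s) w)) x (fun k => (w.1, sm k)) (nS M (qs s) w)
        (s + 1) w) (B := fun w => 6 * K * (LE M s w * ind (x / (32 * K) < LE M s w)) + Real.exp (-(x / (16 * K))))
      fun w hw _ sm hsm => ?_)
    · refine tb.Ps.E_congr fun w _ => ?_
      rw [wtT_sm, qs_nS]
    · have h3 : tb.Ps.ce (M.NP (s + 1)) (fun u => PhE tb w0 TP.nn (5 * T) F S (Rl (nS M (qs s) u)) x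
          (fun k => (u.1, sm k)) (nS M (qs s) u) (s + 1) u) w = tb.Ps.ce (M.NP (s + 1)) (fun u => PhE tb w0 TP.nn (5 * T)
          F S (Rl (nS M (qs s) w)) x (fun k => (u.1, sm k)) (nS M (qs s) w) (s + 1) u) w := by
        refine ce_congr_on fun u _ huw => ?_
        rw [nS_fac (qs s) u w (TD.fac_le M.hN hlv.le u w huw)]
      show tb.Ps.ce (M.NP (s + 1)) (fun u => PhE tb w0 TP.nn (5 * T) F S (Rl (nS M (qs s) u)) x
          (fun k => (u.1, sm k)) (nS M (qs s) u) (s + 1) u) w ≤ _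
      rw [h3]
      have h4 := hB.val (qs s) (s + 1) w hlv hw sm (fun k => ok_of_wsT hsm k)
      rw [qs_five hm] at h4
      exact h4
  · refine le_trans (le_of_eq (b := tb.Ps.E (fun _ => 0)) ?_) (le_trans (le_of_eq (a := tb.Ps.E (fun _ => 0))
      (b := tb.Ps.E (fun w => ind (En (CS M) (5 * T) s w) *
      (6 * K * (LE M s w * ind (x / (32 * K) < LE M s w)) + Real.exp (-(x / (16 * K)))))) ?_) le_rfl)
    · exact tb.Ps.E_congr fun w _ => by rw [ind_not fun h => hm (En_mod h), zero_mul]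
    · exact tb.Ps.E_congr fun w _ => by rw [ind_not fun h => hm (En_mod h), zero_mul]

/-- the number of the ends is the number of the starts -/
theorem ends_eq (T' : ℕ) : ∑ s ∈ range T', tb.Ps.Pr (En (CS M) T' s) =
    ∑ ν ∈ range T', tb.Ps.Pr (fun w => nS M ν w = ν) := by
  unfold FP.Pr
  rw [← tb.Ps.E_sum, ← tb.Ps.E_sum]
  refine tb.Ps.E_congr fun w _ => ?_
  have h := sum_ep (C := CS M) (T' := T') (fun _ _ => (1 : ℝ)) w
  simp only [mul_one] at h
  exact h

/-- **THE POTENTIALS AT THE ENDS** -/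
theorem pot_end (hS : Sees tb M) (hB : PtB tb M w0 G S' F S Rl x K Ms) :
    ∑ s ∈ range (5 * T), tb.Ps.E (fun w => ind (En (CS M) (5 * T) s w) * ∑ us : Fin Ms → Om W X β,
      wtT tb w0 (TP.nn (stg (CS M) s w)) G S' us w *
        PhE tb w0 TP.nn (5 * T) F S (Rl (stg (CS M) s w)) x us (stg (CS M) s w) (s + 1) w) ≤
    6 * K * ∑ s ∈ range (5 * T), tb.Ps.E (fun w => ind (En (CS M) (5 * T) s w) *
        (LE M s w * ind (x / (32 * K) < LE M s w))) +
      Real.exp (-(x / (16 * K))) * ∑ ν ∈ range (5 * T), tb.Ps.Pr (fun w => nS M ν w = ν) := by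
  refine (Finset.sum_le_sum fun s hs => end_one hS hB (mem_range.1 hs)).trans (le_of_eq ?_)
  rw [Finset.sum_add_distrib, ← Finset.mul_sum, ← Finset.mul_sum, ends_eq (tb := tb) (M := M) (5 * T)]

/-- **THE POTENTIALS AT THE STARTS** -/
theorem pot_start (hS : Sees tb M) (hB : PtB tb M w0 G S' F S Rl x K Ms) (hx : 0 ≤ x / (32 * K)) :
    ∑ ν ∈ range (5 * T), tb.Ps.E (fun w => ind (stg (CS M) ν w = ν) * ∑ us : Fin Ms → Om W X β,
      wtT tb w0 (TP.nn ν) G S' us w * ind (0 < PhE tb w0 TP.nn (5 * T) F S (Rl ν) x us ν ν w)) ≤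
    Real.exp (-(x / (16 * K))) * ∑ ν ∈ range (5 * T), tb.Ps.Pr (fun w => nS M ν w = ν) +
      ∑ t ∈ range T, tb.Ps.Pr (fun w => x / (32 * K) < LC M (5 * t + 1) w) := by
  classical
  have key : ∀ ν ∈ range (5 * T), tb.Ps.E (fun w => ind (stg (CS M) ν w = ν) * ∑ us : Fin Ms → Om W X β,
      wtT tb w0 (TP.nn ν) G S' us w * ind (0 < PhE tb w0 TP.nn (5 * T) F S (Rl ν) x us ν ν w)) ≤
      Real.exp (-(x / (16 * K))) * tb.Ps.Pr (fun w => nS M ν w = ν) +
      (if ν % 5 = 1 then tb.Ps.Pr (fun w => x / (32 * K) < LC M ν w) else 0) := by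
    intro ν hν
    have hν' := mem_range.1 hν
    by_cases hm : ν % 5 ≤ 1
    · have hlv := lv_self hm hν'
      have h1 : tb.Ps.E (fun w => ind (stg (CS M) ν w = ν) * ∑ us : Fin Ms → Om W X β,
          wtT tb w0 (TP.nn ν) G S' us w * ind (0 < PhE tb w0 TP.nn (5 * T) F S (Rl ν) x us ν ν w)) ≤
          tb.Ps.E (fun w => ind (nS M ν w = ν) * (ind (x / (32 * K) < LC M ν w) + Real.exp (-(x / (16 * K))))) := by
        refine le_trans (le_of_eq ?_) (smp_core (P := tb.Ps) (Z := M.NP ν) (G := fun w => nS M ν w = ν)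
          (fun a b hab => by
            show (nS M ν a = ν) = (nS M ν b = ν)
            rw [nS_fac ν a b hab]) (wt := fun sm w => wsT tb w0 (TP.nn (nS M ν w)) G S' sm w)
          (fun sm => ws_fac hS w0 le_rfl G S' sm) (fun sm w => wsT_nonneg sm w) (fun w => wsT_sum w0 _ G S' Ms w)
          (f := fun sm w => ind (0 < PhE tb w0 TP.nn (5 * T) F S (Rl (nS M ν w)) x (fun k => (w.1, sm k)) (nS M ν w)
            ν w)) (B := fun w => ind (x / (32 * K) < LC M ν w) + Real.exp (-(x / (16 * K))))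
          fun w hw _ sm hsm => ?_)
        · refine tb.Ps.E_congr fun w _ => ?_
          by_cases hn : nS M ν w = ν
          · rw [show (stg (CS M) ν w = ν) = (nS M ν w = ν) from rfl, wtT_sm, hn]
          · rw [show (stg (CS M) ν w = ν) = (nS M ν w = ν) from rfl, ind_not hn, zero_mul, zero_mul]
        · have h3 : tb.Ps.ce (M.NP ν) (fun u => ind (0 < PhE tb w0 TP.nn (5 * T) F S (Rl (nS M ν u)) x
              (fun k => (u.1, sm k)) (nS M ν u) ν u)) w = tb.Ps.ce (M.NP ν) (fun u => ind (0 < PhE tb w0 TP.nn (5 * T)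
              F S (Rl (nS M ν w)) x (fun k => (u.1, sm k)) (nS M ν w) ν u)) w := by
            refine ce_congr_on fun u _ huw => ?_
            rw [nS_fac ν u w huw]
          show tb.Ps.ce (M.NP ν) (fun u => ind (0 < PhE tb w0 TP.nn (5 * T) F S (Rl (nS M ν u)) x
              (fun k => (u.1, sm k)) (nS M ν u) ν u)) w ≤ _
          rw [h3]
          exact hB.pos ν ν w hlv hw sm (fun k => ok_of_wsT hsm k)
      refine h1.trans ?_
      have h5 : tb.Ps.E (fun w => ind (nS M ν w = ν) * (ind (x / (32 * K) < LC M ν w) + Real.exp (-(x / (16 * K))))) =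
          Real.exp (-(x / (16 * K))) * tb.Ps.Pr (fun w => nS M ν w = ν) +
          tb.Ps.E (fun w => ind (nS M ν w = ν) * ind (x / (32 * K) < LC M ν w)) := by
        unfold FP.Pr
        rw [← tb.Ps.E_smul, ← tb.Ps.E_add]
        exact tb.Ps.E_congr fun w _ => by ring
      rw [h5]
      refine add_le_add le_rfl ?_
      split_ifs with h6
      · refine tb.Ps.E_mono fun w _ => ?_
        exact mul_le_of_le_one_left (ind_nonneg _) (ind_le_one _)
      · refine le_of_eq ((tb.Ps.E_congr (g := fun _ => 0) fun w hw => ?_).trans (tb.Ps.E_const 0))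
        have h7 : LC M ν w = 0 := by
          have h8 : M.P.p w ≠ 0 := hS.sup.2 hw
          unfold LC
          rw [show 5 * (ν / 5) = ν by omega, div_self (M.P.m_pos (M.NP ν) h8).ne', Real.log_one]
        rw [h7, ind_not (not_lt.2 hx), mul_zero]
    · have h1 : ∀ w, ¬ nS M ν w = ν := fun w h => hm (by have := nS_mod (M := M) ν w; rw [h] at this; exact this)
      have h2 : tb.Ps.E (fun w => ind (stg (CS M) ν w = ν) * ∑ us : Fin Ms → Om W X β,
          wtT tb w0 (TP.nn ν) G S' us w * ind (0 < PhE tb w0 TP.nn (5 * T) F S (Rl ν) x us ν ν w)) = 0 :=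
        (tb.Ps.E_congr (g := fun _ => 0) fun w _ => by
          rw [show (stg (CS M) ν w = ν) = (nS M ν w = ν) from rfl, ind_not (h1 w), zero_mul]).trans (tb.Ps.E_const 0)
      rw [h2, if_neg (by omega), add_zero]
      exact mul_nonneg (Real.exp_pos _).le (tb.Ps.Pr_nonneg _)
  refine (Finset.sum_le_sum key).trans (le_of_eq ?_)
  rw [Finset.sum_add_distrib, ← Finset.mul_sum, sum_res (fun ν => tb.Ps.Pr (fun w => x / (32 * K) < LC M ν w))
    (by norm_num) T]

/-! ### both directions -/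

/-- cover of the letters of `i` by rows of the sides -/
theorem ptB_D {dg : ℕ → X → ℝ} {Lam : ℝ} (H : D.Hyp dg prr al T Lam) (hS : Sees tb M) {p1 X1 X2 a b c x cc : ℝ} {Ms : ℕ}
    (hI : Inp M X1) (hP : PtI M T) (hL : LinR M T X2 a b c) (hn : Num tb M p1 X1 X2 a b c x cc Ms) {i : Fin 3}
    {Hs : ℕ → Om W X β → Prop} (hR : RelX M i p1 X1 Hs) (w0 : Om W X β) :
    PtB tb M w0 (univ.erase i) univ {i} ∅ (fun ν => RT {i} ∅ (Hs ν)) x (24 * a) Ms := by
  refine ptB_of hS.P (Nm := fun _ => Fin Ms → Option ((Fin 3 → Option M.lam) × M.ph)) (sz := fun _ => szn)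
    (b := b) (e := 8 * c * (2 * p1 + 3 * M.k0)) (c := cc) fun q q' w hq hw sm hok => ?_
  obtain ⟨τ, L⟩ := lin_D H hS hI hP hL hn hR hq w0 hw sm hok
  exact ⟨_, τ, L⟩

/-- cover of the sides by rows of letters of `i` -/
theorem ptB_C {dg : ℕ → X → ℝ} {Lam : ℝ} (H : D.Hyp dg prr al T Lam) (hS : Sees tb M) {p1 X1 X2 a b c x cc : ℝ} {Ms : ℕ}
    (hI : Inp M X1) (hP : PtI M T) (hL : LinR M T X2 a b c) (hn : Num tb M p1 X1 X2 a b c x cc Ms) {i : Fin 3}
    {Hs : ℕ → Om W X β → Prop} (hR : RelX M i p1 X1 Hs) (w0 : Om W X β) :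
    PtB tb M w0 {i} ∅ (univ.erase i) univ (fun ν b a => RT {i} ∅ (Hs ν) a b) x (24 * a) Ms := by
  refine ptB_of hS.P (Nm := fun _ => Fin Ms → Option M.lam) (sz := fun _ => szn)
    (b := b) (e := 8 * c * (2 * p1 + 3 * M.k0)) (c := cc) fun q q' w hq hw sm hok => ?_
  obtain ⟨τ, L⟩ := lin_C H hS hI hP hL hn hR hq w0 hw sm hok
  exact ⟨_, τ, L⟩

/-! ### the cover -/

theorem exq_fac (M : MS (Om W X β)) (L0 : ℝ) (q : ℕ) : Fac (M.NP (q + 1)) (exq M L0 q) := by
  intro a b hab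
  unfold exq
  rw [M.P.Fac_m (M.NP (q + 1)) a b hab, M.P.Fac_m (M.NP q) a b (M.hN q a b hab)]

/-- **COVER OF THE EXPENSIVE PUBLIC REMOVALS WITH THE STATIC RELATION** (rows (E5), (E6)) -/
theorem cov_sum {dg : ℕ → X → ℝ} {Lam : ℝ} (H : D.Hyp dg prr al T Lam) (hS : Sees tb M) {p1 X1 X2 a b c x cc : ℝ} {Ms : ℕ}
    (hI : Inp M X1) (hP : PtI M T) (hL : LinR M T X2 a b c) (hn : Num tb M p1 X1 X2 a b c x cc Ms) {i : Fin 3}
    {Hs : ℕ → Om W X β → Prop} (hR : RelX M i p1 X1 Hs) (hcd : ∀ t < T, M.cd (5 * t + 1)) {L0 : ℝ}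
    (hL0 : Real.log 2 ≤ L0) :
    ∑ t ∈ range T, M.P.Pr (fun w => exq M L0 (5 * t + 1) w ∧ Hs (nS M (5 * t + 1) w) w) ≤
      x / 2 * ∑ t ∈ range T, M.P.Pr (exq M L0 (5 * t + 1)) +
      2304 * x * a * ∑ s ∈ range (5 * T), M.P.E (fun w => ind (En (CS M) (5 * T) s w) *
        (LE M s w * ind (x / (768 * a) < LE M s w))) +
      ((16 * x + 2) * Real.exp (-(x / (384 * a))) + 6 / (x * (Ms + 1))) *
        ∑ ν ∈ range (5 * T), M.P.Pr (fun w => nS M ν w = ν) +
      2 * ∑ t ∈ range T, M.P.Pr (fun w => x / (768 * a) < LC M (5 * t + 1) w) := by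
  classical
  have hPs := hS.P
  obtain ⟨w0⟩ : Nonempty (Om W X β) := by
    by_contra hne
    rw [not_nonempty_iff] at hne
    have h1 := tb.Ps.tot
    rw [Finset.univ_eq_empty, Finset.sum_empty] at h1
    exact zero_ne_one h1
  set gs : ℕ → Om W X β → ℝ := fun s w => if s % 5 = 4 then ind (exq M L0 (s - 3) w) else 0 with hgs
  have hg : ∀ s < 5 * T, Fac (si D (univ.erase i) univ univ (TP.nn (s + 1))) (gs s) := by
    intro s _ u v huv
    show (if s % 5 = 4 then ind (exq M L0 (s - 3) u) else 0) = if s % 5 = 4 then ind (exq M L0 (s - 3) v) else 0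
    split_ifs with h
    · have h1 : M.NP (s + 1) u = M.NP (s + 1) v := by
        refine hS.N (s + 1) u v (sgt_eq.2 ?_)
        rw [si_eq] at huv
        exact ⟨huv.1, fun j hj => absurd hj (notMem_empty j), fun j => huv.2.2.2 j (mem_univ j)⟩
      rw [exq_fac M L0 (s - 3) u v (TD.fac_le M.hN (by omega) u v h1)]
    · rfl
  have hg0 : ∀ s w, 0 ≤ gs s w := by
    intro s w
    show 0 ≤ if s % 5 = 4 then ind (exq M L0 (s - 3) w) else 0
    split_ifs
    · exact ind_nonneg _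
    · exact le_rfl
  have hg1 : ∀ s w, gs s w ≤ 1 := by
    intro s w
    show (if s % 5 = 4 then ind (exq M L0 (s - 3) w) else 0) ≤ 1
    split_ifs
    · exact ind_le_one _
    · exact zero_le_one
  have main := epochs_tab (tb := tb) H w0 (cpD i) (C := CS M) (lv := TP.nn) (T' := 5 * T) (lv_step T)
    (fun k _ => (hS.N k).trans (nS_fac k)) Hs hg hg0 hg1 hn.x0 Ms
  have hx := hn.x0
  have ha := hn.a0
  have hx32 : 0 ≤ x / (32 * (24 * a)) := by positivity
  have e1 := pot_end hS (ptB_D H hS hI hP hL hn hR w0)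
  have e2 := pot_end hS (ptB_C H hS hI hP hL hn hR w0)
  have s1 := pot_start hS (ptB_D H hS hI hP hL hn hR w0) hx32
  have s2 := pot_start hS (ptB_C H hS hI hP hL hn hR w0) hx32
  rw [show 32 * (24 * a) = 768 * a by ring, show 16 * (24 * a) = 384 * a by ring] at e1 e2 s1 s2
  rw [hPs]
  set EL := ∑ s ∈ range (5 * T), tb.Ps.E (fun w => ind (En (CS M) (5 * T) s w) *
        (LE M s w * ind (x / (768 * a) < LE M s w))) with hEL
  set NS := ∑ ν ∈ range (5 * T), tb.Ps.Pr (fun w => nS M ν w = ν) with hNS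
  set TL := ∑ t ∈ range T, tb.Ps.Pr (fun w => x / (768 * a) < LC M (5 * t + 1) w) with hTL
  -- left side
  have hl : ∑ t ∈ range T, tb.Ps.Pr (fun w => exq M L0 (5 * t + 1) w ∧ Hs (nS M (5 * t + 1) w) w) ≤
      ∑ s ∈ range (5 * T), tb.Ps.E (fun w => ind (En (CS M) (5 * T) s w) *
        (ind (Hs (stg (CS M) s w) w) * gs s w)) := by
    rw [← sum_res (fun s => tb.Ps.Pr (fun w => exq M L0 (s - 3) w ∧ Hs (nS M (s - 3) w) w)) (show 4 < 5 by norm_num)
      T |>.trans (Finset.sum_congr rfl fun t _ => by rw [show 5 * t + 4 - 3 = 5 * t + 1 by omega])]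
    refine Finset.sum_le_sum fun s hs => ?_
    split_ifs with h4
    · refine tb.Ps.E_mono fun w hw => ?_
      by_cases hE : exq M L0 (s - 3) w ∧ Hs (nS M (s - 3) w) w
      · obtain ⟨t, rfl⟩ : ∃ t, s = 5 * t + 4 := ⟨s / 5, by omega⟩
        have hs' := mem_range.1 hs
        rw [show 5 * t + 4 - 3 = 5 * t + 1 by omega] at hE
        have hend : En (CS M) (5 * T) (5 * t + 4) w :=
          Or.inl (exq_end hL0 (hcd t (by omega)) (hS.sup.2 hw) hE.1)
        have hst : stg (CS M) (5 * t + 4) w = nS M (5 * t + 1) w := nS_const t w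
        rw [show 5 * t + 4 - 3 = 5 * t + 1 by omega, ind_of hE, ind_of hend, hst, ind_of hE.2]
        show (1 : ℝ) ≤ 1 * (1 * if (5 * t + 4) % 5 = 4 then ind (exq M L0 (5 * t + 4 - 3) w) else 0)
        rw [if_pos (by omega), show 5 * t + 4 - 3 = 5 * t + 1 by omega, ind_of hE.1]
        norm_num
      · rw [ind_not hE]
        exact mul_nonneg (ind_nonneg _) (mul_nonneg (ind_nonneg _) (hg0 _ _))
    · exact tb.Ps.E_nonneg fun w _ => mul_nonneg (ind_nonneg _) (mul_nonneg (ind_nonneg _) (hg0 _ _))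
  -- first term
  have hr : ∑ s ∈ range (5 * T), tb.Ps.E (fun w => ind (En (CS M) (5 * T) s w) * gs s w) ≤
      ∑ t ∈ range T, tb.Ps.Pr (exq M L0 (5 * t + 1)) := by
    rw [← sum_res (fun s => tb.Ps.Pr (exq M L0 (s - 3))) (show 4 < 5 by norm_num)
      T |>.trans (Finset.sum_congr rfl fun t _ => by rw [show 5 * t + 4 - 3 = 5 * t + 1 by omega])]
    refine Finset.sum_le_sum fun s hs => ?_
    split_ifs with h4
    · refine tb.Ps.E_mono fun w _ => ?_
      show ind (En (CS M) (5 * T) s w) * (if s % 5 = 4 then ind (exq M L0 (s - 3) w) else 0) ≤ ind (exq M L0 (s - 3) w)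
      rw [if_pos h4]
      exact mul_le_of_le_one_left (ind_nonneg _) (ind_le_one _)
    · refine le_of_eq ((tb.Ps.E_congr (g := fun _ => 0) fun w _ => ?_).trans (tb.Ps.E_const 0))
      show ind (En (CS M) (5 * T) s w) * (if s % 5 = 4 then ind (exq M L0 (s - 3) w) else 0) = 0
      rw [if_neg h4, mul_zero]
  refine hl.trans (main.trans ?_)
  have hr' := mul_le_mul_of_nonneg_left hr (by positivity : (0 : ℝ) ≤ x / 2)
  have e1' := mul_le_mul_of_nonneg_left e1 (by positivity : (0 : ℝ) ≤ 8 * x)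
  have e2' := mul_le_mul_of_nonneg_left e2 (by positivity : (0 : ℝ) ≤ 8 * x)
  have hNS' : ∑ ν ∈ range (5 * T), tb.Ps.Pr (fun w => stg (CS M) ν w = ν) = NS := rfl
  rw [hNS']
  refine (add_le_add (add_le_add (add_le_add hr' (add_le_add e1' s1)) (add_le_add e2' s2)) le_rfl).trans (le_of_eq ?_)
  ring

end

end Pool.Agent.GMH.SngC
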