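import Pool.Agent.GMH.SngDef

/-!
# GMH/SngPt (helper82): OWN POINTS (kind S, piece (P) of block (C))

`M` = data of the moved part on the space with tables: `RpT tb v M` = `RZ.Rp tb v M` and the bridge of the tops.
* (P3) `NP_sgt`, `XL_si`, `TF_si`, `CX_si` : what the letters see; `NP_cell`, `sgt_NP` : the cells are seen by the class, hidden
  point and class = the node;
* (P1) `own` : a function of the hidden point, of the cells, of the points `F` and of the tables `S` : its mean given all points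
  and the public class is a function of the points `F` and of the class (no support needed); `ce_own` : any class between;
* (P2) `evL`, `evL_si`, `lf_ce`, `exp_lf`, `lf_fac`, `lf_XL`, `lf_CX` : the log probabilities of the letters are functions of
  these letters and of the class.
-/

set_option autoImplicit false
set_option linter.unusedSectionVars false

namespace Pool.Agent.GMH.SngPt

open Finset Pool.Agent.PWZ Pool.Agent.M3 Pool.Agent.GM Pool.Agent.GM.Harm Pool.Agent.GMH Pool.Agent.GMH.TD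
open Pool.Agent.GMH.Dy Pool.Agent.GMH.MV Pool.Agent.GMH.MVI Pool.Agent.GMH.RZ Pool.Agent.GMH.TabF Pool.Agent.GMH.Sng
open Pool.Agent.GMH.V3

noncomputable section

/-! ## abstract part -/

section abs

variable {Om : Type} [Fintype Om] {M : MS Om}

theorem CX_iff {i : Fin 3} {q : ℕ} {a b : Om} :
    CX M i q a = CX M i q b ↔ (∀ j, j ≠ i → M.XL j q a = M.XL j q b) ∧ M.TF i q a = M.TF i q b := by
  unfold CX
  rw [Prod.mk.injEq, funext_iff]
  refine and_congr_left fun _ => forall_congr' fun j => ?_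
  by_cases hj : j ≠ i
  · rw [if_pos hj, if_pos hj]
    exact ⟨fun hh _ => Option.some.inj hh, fun hh => by rw [hh hj]⟩
  · rw [if_neg hj, if_neg hj]
    exact ⟨fun _ h2 => absurd h2 hj, fun _ => rfl⟩

variable (M) in
/-- the letters of the family `F` of `u` are those of `a` -/
def evL (F : Finset (Fin 3) × Finset (Fin 3)) (q : ℕ) (a u : Om) : Prop :=
  (∀ j ∈ F.1, M.XL j q u = M.XL j q a) ∧ ∀ t ∈ F.2, M.TF t q u = M.TF t q a

theorem UY_eq {q : ℕ} {a b : Om} : AHR.UY M q a = AHR.UY M q b ↔ (∀ j, M.YP j a = M.YP j b) ∧ M.NP q a = M.NP q b := by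
  unfold AHR.UY
  rw [Prod.mk.injEq, YF_eq]

theorem UY_NP (q : ℕ) : Fac (AHR.UY M q) (M.NP q) := fun _ _ e => (UY_eq.1 e).2

theorem m_LF (F : Finset (Fin 3) × Finset (Fin 3)) (q : ℕ) (w : Om) :
    M.P.m (fun u => (LF M F q u, M.NP q u)) w =
      M.P.E (fun u => ind (AHR.UY M q u = AHR.UY M q w) * ind (evL M F q w u)) := by
  unfold FP.m
  refine M.P.E_congr fun u _ => ?_
  rw [← ind_and]
  congr 1
  rw [Prod.mk.injEq, LF_eq, YF_eq, UY_eq]
  refine propext ⟨fun hh => ⟨⟨hh.1.2.2, hh.2⟩, hh.1.1, hh.1.2.1⟩, fun hh => ⟨⟨hh.2.1, hh.2.2, hh.1.1⟩, hh.1.2⟩⟩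

/-- the log probability of the letters is the log of a conditional probability -/
theorem lf_ce (F : Finset (Fin 3) × Finset (Fin 3)) (q : ℕ) (w : Om) :
    lf M F q w = Real.log (M.P.ce (AHR.UY M q) (fun u => ind (evL M F q w u)) w) := by
  show Real.log (M.P.m (fun u => (LF M F q u, M.NP q u)) w / M.P.m (fun u => (YF M F u, M.NP q u)) w) = _
  rw [m_LF]
  rfl

theorem ce_evL_pos (F : Finset (Fin 3) × Finset (Fin 3)) (q : ℕ) {w : Om} (hw : M.P.p w ≠ 0) :
    0 < M.P.ce (AHR.UY M q) (fun u => ind (evL M F q w u)) w := by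
  unfold FP.ce
  refine div_pos ?_ (M.P.m_pos _ hw)
  rw [← m_LF]
  exact M.P.m_pos _ hw

theorem exp_lf (F : Finset (Fin 3) × Finset (Fin 3)) (q : ℕ) {w : Om} (hw : M.P.p w ≠ 0) :
    Real.exp (lf M F q w) = M.P.ce (AHR.UY M q) (fun u => ind (evL M F q w u)) w := by
  rw [lf_ce, Real.exp_log (ce_evL_pos F q hw)]

theorem lf_nonpos (F : Finset (Fin 3) × Finset (Fin 3)) (q : ℕ) {w : Om} (hw : M.P.p w ≠ 0) : lf M F q w ≤ 0 := by
  rw [lf_ce]
  exact Real.log_nonpos (M.P.ce_nonneg (fun _ _ => ind_nonneg _) w) (M.P.ce_le_const (fun _ _ => ind_le_one _) hw)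

/-- alive letters -/
theorem alive_iff (F : Finset (Fin 3) × Finset (Fin 3)) (q : ℕ) {w : Om} (hw : M.P.p w ≠ 0) (x : ℝ) :
    x ≤ lf M F q w ↔ Real.exp x ≤ M.P.ce (AHR.UY M q) (fun u => ind (evL M F q w u)) w := by
  rw [← exp_lf F q hw, Real.exp_le_exp]

theorem evL_one (j : Fin 3) (q : ℕ) (a u : Om) : evL M ({j}, ∅) q a u ↔ M.XL j q u = M.XL j q a := by
  unfold evL
  constructor
  · exact fun hh => hh.1 j (mem_singleton_self j)
  · intro hh
    refine ⟨fun l hl => ?_, fun t ht => absurd ht (Finset.notMem_empty t)⟩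
    rw [Finset.mem_singleton.1 hl]
    exact hh

theorem evL_top (i : Fin 3) (q : ℕ) (a u : Om) : evL M (univ.erase i, {i}) q a u ↔ CX M i q u = CX M i q a := by
  rw [CX_iff]
  unfold evL
  constructor
  · exact fun hh => ⟨fun j hj => hh.1 j (Finset.mem_erase.2 ⟨hj, mem_univ j⟩), hh.2 i (mem_singleton_self i)⟩
  · intro hh
    refine ⟨fun l hl => hh.1 l (Finset.mem_erase.1 hl).1, fun t ht => ?_⟩
    rw [Finset.mem_singleton.1 ht]
    exact hh.2

end abs

/-! ## the space with tables -/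

variable {X β γ φ υ : Type} [Fintype X] [Fintype β] [Fintype φ] [Nonempty X] [Nonempty β]
variable {D : HD (Fin 3) X β γ φ} {v : ℕ → Finset (Fin 3) → X → (Fin 3 → β) → υ}
variable {prr : ℕ → Fin 3 → φ → φ} {T : ℕ} {W : Type} [Fintype W]

/-- the data `M` sees the space with tables like `MVI.MSi`, the tops too -/
structure RpT (tb : Tab D prr T W) (v : ℕ → Finset (Fin 3) → X → (Fin 3 → β) → υ) (M : MS (Om W X β)) : Prop
    extends RZ.Rp tb v M where
  TF : ∀ i s a b, M.TF i s a = M.TF i s b ↔ TFo tb i s a = TFo tb i s b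

theorem rpT_MSi (tb : Tab D prr T W) (v : ℕ → Finset (Fin 3) → X → (Fin 3 → β) → υ) {d1 kb d0 k0 p1 z : ℝ} (hd1 : 0 < d1)
    (hd11 : d1 ≤ 1) (hkb : 0 < kb) (hd0 : 0 < d0) (hd01 : d0 ≤ 1) (hk0 : 0 < k0) (hp1 : 0 < p1) (hz : 0 < z) :
    RpT tb v (MSi tb (v := v) d1 kb d0 k0 p1 z hd1 hd11 hkb hd0 hd01 hk0 hp1 hz) where
  toRp := rp_MSi tb v hd1 hd11 hkb hd0 hd01 hk0 hp1 hz
  TF := fun _ _ _ _ => Iff.rfl

variable {tb : Tab D prr T W} {M : MS (Om W X β)}

/-- all points and the class -/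
theorem UY_iff (hM : RZ.Rp tb v M) {q : ℕ} {a b : Om W X β} :
    AHR.UY M q a = AHR.UY M q b ↔ a.2.2 = b.2.2 ∧ M.NP q a = M.NP q b := by
  rw [UY_eq, funext_iff]
  exact and_congr_left fun _ => forall_congr' fun j => hM.Y j a b

/-- the class sees the cells -/
theorem NP_cell (hM : RZ.Rp tb v M) {q : ℕ} {a b : Om W X β} (e : M.NP q a = M.NP q b) (j : Fin 3) :
    D.qb (TP.nn q) (a.2.2 j) = D.qb (TP.nn q) (b.2.2 j) :=
  congrFun (congrArg (fun z => z.2.2) ((hM.N q a b).1 e)) j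

/-- (P3) the class is a function of the hidden point and of the cells -/
theorem NP_sgt (hv : Codes D v) (hM : RZ.Rp tb v M) (q : ℕ) : Fac (sgt D ∅ (TP.nn q)) (M.NP q) := by
  intro a b e
  obtain ⟨h1, -, h3⟩ := sgt_eq.1 e
  refine (hM.N q a b).2 ?_
  show (Um v (TP.nc q ∅) ∅ a.1 a.2.2, (D.qa (TP.nn q) a.1, fun j => D.qb (TP.nn q) (a.2.2 j))) =
    (Um v (TP.nc q ∅) ∅ b.1 b.2.2, (D.qa (TP.nn q) b.1, fun j => D.qb (TP.nn q) (b.2.2 j)))
  rw [h1, Um_codes hv (TP.nc_le q ∅) ∅ b.1 (fun j hj => absurd hj (Finset.notMem_empty j)) h3,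
    show (fun j => D.qb (TP.nn q) (a.2.2 j)) = fun j => D.qb (TP.nn q) (b.2.2 j) from funext h3]

/-- hidden point and class = the node -/
theorem sgt_NP (hv : Codes D v) (hM : RZ.Rp tb v M) {q : ℕ} {a b : Om W X β} :
    sgt D ∅ (TP.nn q) a = sgt D ∅ (TP.nn q) b ↔ a.1 = b.1 ∧ M.NP q a = M.NP q b := by
  constructor
  · exact fun e => ⟨(sgt_eq.1 e).1, NP_sgt hv hM q a b e⟩
  · exact fun e => sgt_eq.2 ⟨e.1, fun j hj => absurd hj (Finset.notMem_empty j), NP_cell hM e.2⟩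

/-- (P3) a thin letter -/
theorem XL_si (hv : Codes D v) (hM : RZ.Rp tb v M) (j : Fin 3) (q : ℕ) : Fac (si D {j} univ ∅ (TP.nn q)) (M.XL j q) := by
  intro a b e
  obtain ⟨h1, -, h3, h4⟩ := si_eq.1 e
  refine (hM.X j q a b).2 ?_
  show (a.2.2 j, Um v (TP.nc q {j}) {j} a.1 a.2.2) = (b.2.2 j, Um v (TP.nc q {j}) {j} b.1 b.2.2)
  rw [h1, h3 j (mem_singleton_self j), Um_codes hv (TP.nc_le q {j}) {j} b.1 h3 fun l => h4 l (mem_univ l)]

theorem XL_pt (hM : RZ.Rp tb v M) {j : Fin 3} {q : ℕ} {a b : Om W X β} (e : M.XL j q a = M.XL j q b) :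
    a.2.2 j = b.2.2 j := (hM.Y j a b).1 (M.hXY j q a b e)

/-- (P3) a top -/
theorem TF_si (hM : RpT tb v M) (i : Fin 3) (q : ℕ) : Fac (si D (univ.erase i) univ {i} (TP.nn q)) (M.TF i q) := by
  intro a b e
  obtain ⟨h1, h2, h3, h4⟩ := si_eq.1 e
  refine (hM.TF i q a b).2 (funext fun t => ?_)
  unfold TFo
  by_cases ht : t ≤ q / 5 ∧ t ≤ T
  · rw [if_pos ht, if_pos ht, h1, h2 i (mem_singleton_self i)]
    congr 1
    exact tb.dep t i _ _ _ _ (fun j hj => h3 j (Finset.mem_erase.2 ⟨hj, mem_univ j⟩))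
      (Dy.qb_mono (ht.1.trans (TP.nn_le q)) (h4 i (mem_univ i)))
  · rw [if_neg ht, if_neg ht]

/-- (P3) the letters of a family whose points contain those of its tops -/
theorem evL_si (hv : Codes D v) (hM : RpT tb v M) {F : Finset (Fin 3) × Finset (Fin 3)} (hF : ∀ t ∈ F.2, univ.erase t ⊆ F.1)
    (q : ℕ) {a b : Om W X β} (e : si D F.1 univ F.2 (TP.nn q) a = si D F.1 univ F.2 (TP.nn q) b) : evL M F q a b := by
  refine ⟨fun j hj => ?_, fun t ht => ?_⟩
  · exact XL_si hv hM.toRp j q _ _ (si_fac (Finset.singleton_subset_iff.2 hj) (fun l _ => Or.inr ⟨mem_univ l, le_rfl⟩)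
      (Finset.empty_subset _) _ _ e.symm)
  · exact TF_si hM t q _ _ (si_fac (hF t ht) (fun l _ => Or.inr ⟨mem_univ l, le_rfl⟩)
      (Finset.singleton_subset_iff.2 ht) _ _ e.symm)

/-- (P3) the letters of the side opposite to `i`, with its top -/
theorem CX_si (hv : Codes D v) (hM : RpT tb v M) (i : Fin 3) (q : ℕ) :
    Fac (si D (univ.erase i) univ {i} (TP.nn q)) (CX M i q) := by
  intro a b e
  refine ((evL_top i q a b).1 (evL_si hv hM (F := (univ.erase i, {i})) (fun t ht => ?_) q e)).symm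
  rw [Finset.mem_singleton.1 ht]

theorem evL_fac (hv : Codes D v) (hM : RpT tb v M) {F : Finset (Fin 3) × Finset (Fin 3)} (hF : ∀ t ∈ F.2, univ.erase t ⊆ F.1)
    (q : ℕ) (a : Om W X β) : Fac (si D F.1 univ F.2 (TP.nn q)) (evL M F q a) := by
  intro u u' e
  have h1 := evL_si hv hM hF q e
  refine propext ⟨fun hh => ⟨fun j hj => ?_, fun t ht => ?_⟩, fun hh => ⟨fun j hj => ?_, fun t ht => ?_⟩⟩
  · rw [h1.1 j hj]; exact hh.1 j hj
  · rw [h1.2 t ht]; exact hh.2 t ht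
  · rw [← h1.1 j hj]; exact hh.1 j hj
  · rw [← h1.2 t ht]; exact hh.2 t ht

/-! ### (P1) own points -/

/-- the law does not see the points -/
theorem p_pts (x : X) (ω : Fin 3 → W) (y y' : Fin 3 → β) : tb.Ps.p (x, ω, y) = tb.Ps.p (x, ω, y') := rfl

theorem E_fix (y : Fin 3 → β) (f : Om W X β → ℝ) :
    tb.Ps.E (fun u => ind (u.2.2 = y) * f u) = ∑ x : X, ∑ ω : Fin 3 → W, tb.Ps.p (x, ω, y) * f (x, ω, y) := by
  unfold FP.E
  rw [Fintype.sum_prod_type]
  refine Finset.sum_congr rfl fun x _ => ?_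
  rw [Fintype.sum_prod_type]
  refine Finset.sum_congr rfl fun ω _ => ?_
  rw [Finset.sum_eq_single y]
  · show tb.Ps.p (x, ω, y) * (ind (y = y) * f (x, ω, y)) = _
    rw [ind_of rfl, one_mul]
  · intro y' _ hy
    show tb.Ps.p (x, ω, y') * (ind (y' = y) * f (x, ω, y')) = 0
    rw [ind_not hy, zero_mul, mul_zero]
  · exact fun hn => absurd (mem_univ y) hn

/-- **(P1) OWN POINTS** -/
theorem own (hv : Codes D v) (hM : RZ.Rp tb v M) {F S : Finset (Fin 3)} {q : ℕ} {f : Om W X β → ℝ}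
    (hf : Fac (si D F univ S (TP.nn q)) f) {a b : Om W X β} (hN : M.NP q a = M.NP q b) (hF : ∀ j ∈ F, a.2.2 j = b.2.2 j) :
    M.P.ce (AHR.UY M q) f a = M.P.ce (AHR.UY M q) f b := by
  have key : ∀ g : Om W X β → ℝ, Fac (si D F univ S (TP.nn q)) g →
      M.P.E (fun u => ind (AHR.UY M q u = AHR.UY M q a) * g u) = M.P.E (fun u => ind (AHR.UY M q u = AHR.UY M q b) * g u) := by
    intro g hg
    have e1 : ∀ c : Om W X β, M.P.E (fun u => ind (AHR.UY M q u = AHR.UY M q c) * g u) =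
        ∑ x : X, ∑ ω : Fin 3 → W, tb.Ps.p (x, ω, c.2.2) * (ind (M.NP q (x, ω, c.2.2) = M.NP q c) * g (x, ω, c.2.2)) := by
      intro c
      rw [← E_fix (tb := tb) c.2.2 (fun u => ind (M.NP q u = M.NP q c) * g u), hM.P]
      refine tb.Ps.E_congr fun u _ => ?_
      rw [← mul_assoc, ← ind_and, show (AHR.UY M q u = AHR.UY M q c) = _ from propext (UY_iff hM)]
    rw [e1, e1]
    refine Finset.sum_congr rfl fun x _ => Finset.sum_congr rfl fun ω _ => ?_
    have hc := NP_cell hM hN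
    have e2 : M.NP q (x, ω, a.2.2) = M.NP q (x, ω, b.2.2) :=
      NP_sgt hv hM q _ _ (sgt_eq.2 ⟨rfl, fun j hj => absurd hj (Finset.notMem_empty j), hc⟩)
    have e3 : g (x, ω, a.2.2) = g (x, ω, b.2.2) := hg _ _ (si_eq.2 ⟨rfl, fun _ _ => rfl, hF, fun j _ => hc j⟩)
    rw [e2, e3, hN]
    rfl
  have h1 := key f hf
  have h2 := key (fun _ => 1) (fun _ _ _ => rfl)
  simp only [mul_one] at h2
  unfold FP.ce FP.m
  rw [h1, h2]

/-- own points, events -/
theorem own' (hv : Codes D v) (hM : RZ.Rp tb v M) {F S : Finset (Fin 3)} {q : ℕ} {A : Om W X β → Prop}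
    (hA : Fac (si D F univ S (TP.nn q)) A) {a b : Om W X β} (hN : M.NP q a = M.NP q b) (hF : ∀ j ∈ F, a.2.2 j = b.2.2 j) :
    M.P.ce (AHR.UY M q) (fun u => ind (A u)) a = M.P.ce (AHR.UY M q) (fun u => ind (A u)) b :=
  own hv hM (F := F) (S := S) (Fac.ind fun u u' e => by rw [hA u u' e]) hN hF

/-- **any class between** the points `F` with the public class and all points with the public class -/
theorem ce_own (hv : Codes D v) (hM : RZ.Rp tb v M) {F S : Finset (Fin 3)} {q : ℕ} {f : Om W X β → ℝ}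
    (hf : Fac (si D F univ S (TP.nn q)) f) {ζ : Type*} {Z : Om W X β → ζ} (h1 : Fac (AHR.UY M q) Z)
    (h2 : ∀ a b, Z a = Z b → M.NP q a = M.NP q b ∧ ∀ j ∈ F, a.2.2 j = b.2.2 j) {w : Om W X β} (hw : M.P.p w ≠ 0) :
    M.P.ce Z f w = M.P.ce (AHR.UY M q) f w := by
  rw [← M.P.ce_tower h1 f w]
  exact M.P.ce_of_fac (fun a b e => own hv hM hf (h2 a b e).1 (h2 a b e).2) hw

/-! ### (P2) the log probabilities of the letters -/

/-- **(P2)** -/
theorem lf_fac (hv : Codes D v) (hM : RpT tb v M) {F : Finset (Fin 3) × Finset (Fin 3)} (hF : ∀ t ∈ F.2, univ.erase t ⊆ F.1)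
    {q : ℕ} {a b : Om W X β} (hN : M.NP q a = M.NP q b) (he : evL M F q a b) : lf M F q a = lf M F q b := by
  rw [lf_ce, lf_ce]
  have e1 : (fun u => ind (evL M F q a u)) = fun u => ind (evL M F q b u) := by
    funext u
    congr 1
    refine propext ⟨fun hh => ⟨fun j hj => ?_, fun t ht => ?_⟩, fun hh => ⟨fun j hj => ?_, fun t ht => ?_⟩⟩
    · rw [hh.1 j hj, he.1 j hj]
    · rw [hh.2 t ht, he.2 t ht]
    · rw [hh.1 j hj, he.1 j hj]
    · rw [hh.2 t ht, he.2 t ht]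
  rw [e1]
  congr 1
  exact own' hv hM.toRp (evL_fac hv hM hF q b) hN fun j hj => (XL_pt hM.toRp (he.1 j hj)).symm

/-- one thin letter -/
theorem lf_XL (hv : Codes D v) (hM : RpT tb v M) (j : Fin 3) (q : ℕ) :
    Fac (fun u => (M.XL j q u, M.NP q u)) (lf M ({j}, ∅) q) := fun a b e =>
  lf_fac hv hM (F := ({j}, ∅)) (fun t ht => absurd ht (Finset.notMem_empty t)) (Prod.mk.inj e).2
    ((evL_one j q a b).2 (Prod.mk.inj e).1.symm)

/-- the side opposite to `i` with its top -/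
theorem lf_CX (hv : Codes D v) (hM : RpT tb v M) (i : Fin 3) (q : ℕ) :
    Fac (fun u => (CX M i q u, M.NP q u)) (lf M (univ.erase i, {i}) q) := fun a b e =>
  lf_fac hv hM (F := (univ.erase i, {i})) (fun t ht => by rw [Finset.mem_singleton.1 ht]) (Prod.mk.inj e).2
    ((evL_top i q a b).2 (Prod.mk.inj e).1.symm)

/-- the side letters see the thin letters different from `i` -/
theorem CX_XL {Om : Type} [Fintype Om] {M : MS Om} {i j : Fin 3} (hj : j ≠ i) (q : ℕ) : Fac (CX M i q) (M.XL j q) :=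
  fun _ _ e => (CX_iff.1 e).1 j hj

/-- alive thin letters of the side are a property of the side letters -/
theorem lf_CX_one (hv : Codes D v) (hM : RpT tb v M) {i j : Fin 3} (hj : j ≠ i) (q : ℕ) :
    Fac (fun u => (CX M i q u, M.NP q u)) (lf M ({j}, ∅) q) := fun a b e =>
  lf_XL hv hM j q a b (Prod.ext (CX_XL hj q a b (Prod.mk.inj e).1) (Prod.mk.inj e).2)

/-! ### (P4) the number of the alive letters -/

/-- **(P4)** : letters `Z` of a family `F`, one class, the same points of `F` -/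
theorem card_let (hv : Codes D v) (hM : RpT tb v M) {F : Finset (Fin 3) × Finset (Fin 3)} (hF : ∀ t ∈ F.2, univ.erase t ⊆ F.1)
    {q : ℕ} {X1 : ℝ} {ζ : Type*} {Z : Om W X β → ζ} (hZ : ∀ a b, evL M F q a b ↔ Z b = Z a) (S : Finset ζ) {z0 : Om W X β}
    (hz0 : M.P.p z0 ≠ 0) (hS : ∀ l ∈ S, ∃ z, M.P.p z ≠ 0 ∧ M.NP q z = M.NP q z0 ∧ (∀ j ∈ F.1, z.2.2 j = z0.2.2 j) ∧ Z z = l ∧
      -X1 ≤ lf M F q z) : (S.card : ℝ) ≤ Real.exp X1 := by
  have h1 : ∀ l ∈ S, Real.exp (-X1) ≤ M.P.ce (AHR.UY M q) (fun u => ind (Z u = l)) z0 := by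
    intro l hl
    obtain ⟨z, hz, hN, hY, hl', h2⟩ := hS l hl
    have h3 := (alive_iff F q hz (-X1)).1 h2
    have e : (fun u => ind (evL M F q z u)) = fun u => ind (Z u = l) := by
      funext u
      rw [show evL M F q z u = (Z u = l) from propext (by rw [hZ, hl'])]
    rw [own' hv hM.toRp (evL_fac hv hM hF q z) hN hY, e] at h3
    exact h3
  have h2 := Finset.sum_le_sum h1
  rw [Finset.sum_const, nsmul_eq_mul, ← M.P.ce_sum] at h2
  have h3 : M.P.ce (AHR.UY M q) (fun u => ∑ l ∈ S, ind (Z u = l)) z0 ≤ 1 := by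
    refine M.P.ce_le_const (fun u _ => ?_) hz0
    by_cases hu : Z u ∈ S
    · rw [Finset.sum_eq_single (Z u) (fun b _ hb => ind_not fun h => hb h.symm) (fun h => absurd hu h)]
      exact ind_le_one _
    · rw [Finset.sum_eq_zero fun b hb => ind_not fun h => hu (by rw [h]; exact hb)]
      exact zero_le_one
  have h4 : (S.card : ℝ) * Real.exp (-X1) ≤ 1 := h2.trans h3
  rw [Real.exp_neg, ← div_eq_mul_inv, div_le_one (Real.exp_pos _)] at h4
  exact h4

theorem card_img {ζ : Type*} [DecidableEq ζ] (hv : Codes D v) (hM : RpT tb v M) {F : Finset (Fin 3) × Finset (Fin 3)}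
    (hF : ∀ t ∈ F.2, univ.erase t ⊆ F.1) {q : ℕ} {X1 : ℝ} {Z : Om W X β → ζ} (hZ : ∀ a b, evL M F q a b ↔ Z b = Z a)
    (A : Finset (Om W X β)) (hs : ∀ z ∈ A, M.P.p z ≠ 0) (hN : ∀ z ∈ A, ∀ z' ∈ A, M.NP q z = M.NP q z')
    (hY : ∀ z ∈ A, ∀ z' ∈ A, ∀ j ∈ F.1, z.2.2 j = z'.2.2 j) (ha : ∀ z ∈ A, -X1 ≤ lf M F q z) :
    ((A.image Z).card : ℝ) ≤ Real.exp X1 := by
  rcases A.eq_empty_or_nonempty with h0 | ⟨z0, h0⟩
  · rw [h0, Finset.image_empty, Finset.card_empty, Nat.cast_zero]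
    exact (Real.exp_pos _).le
  refine card_let hv hM hF hZ (A.image Z) (hs z0 h0) fun l hl => ?_
  obtain ⟨z, hz, rfl⟩ := Finset.mem_image.1 hl
  exact ⟨z, hs z hz, hN z hz z0 h0, hY z hz z0 h0, rfl, ha z hz⟩

open Classical in
/-- (P4) thin letters of `i` over one point -/
theorem card_XL (hv : Codes D v) (hM : RpT tb v M) (i : Fin 3) {q : ℕ} {X1 : ℝ} (A : Finset (Om W X β))
    (hs : ∀ z ∈ A, M.P.p z ≠ 0) (hN : ∀ z ∈ A, ∀ z' ∈ A, M.NP q z = M.NP q z')
    (hY : ∀ z ∈ A, ∀ z' ∈ A, M.YP i z = M.YP i z') (ha : ∀ z ∈ A, -X1 ≤ lf M ({i}, ∅) q z) :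
    ((A.image (M.XL i q)).card : ℝ) ≤ Real.exp X1 :=
  card_img hv hM (F := ({i}, ∅)) (fun t ht => absurd ht (Finset.notMem_empty t)) (fun a b => evL_one i q a b) A hs hN
    (fun z hz z' hz' j hj => by
      rw [Finset.mem_singleton.1 hj]
      exact (hM.toRp.Y i z z').1 (hY z hz z' hz')) ha

theorem PX_iff {Om : Type} [Fintype Om] {M : MS Om} {i : Fin 3} {a b : Om} :
    PX M i a = PX M i b ↔ ∀ j, j ≠ i → M.YP j a = M.YP j b := by
  unfold PX
  rw [funext_iff]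
  refine forall_congr' fun j => ?_
  by_cases hj : j ≠ i
  · rw [if_pos hj, if_pos hj]
    exact ⟨fun hh _ => Option.some.inj hh, fun hh => by rw [hh hj]⟩
  · rw [if_neg hj, if_neg hj]
    exact ⟨fun _ h2 => absurd h2 hj, fun _ => rfl⟩

open Classical in
/-- (P4) side letters over the points of the side -/
theorem card_CX (hv : Codes D v) (hM : RpT tb v M) (i : Fin 3) {q : ℕ} {X1 : ℝ} (A : Finset (Om W X β))
    (hs : ∀ z ∈ A, M.P.p z ≠ 0) (hN : ∀ z ∈ A, ∀ z' ∈ A, M.NP q z = M.NP q z')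
    (hY : ∀ z ∈ A, ∀ z' ∈ A, PX M i z = PX M i z') (ha : ∀ z ∈ A, -X1 ≤ lf M (univ.erase i, {i}) q z) :
    ((A.image (CX M i q)).card : ℝ) ≤ Real.exp X1 :=
  card_img hv hM (F := (univ.erase i, {i})) (fun t ht => by rw [Finset.mem_singleton.1 ht])
    (fun a b => evL_top i q a b) A hs hN
    (fun z hz z' hz' j hj => (hM.toRp.Y j z z').1 (PX_iff.1 (hY z hz z' hz') j (Finset.mem_erase.1 hj).1)) ha

end

end Pool.Agent.GMH.SngPt
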