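import Pool.Agent.GMH.SngC8
import Pool.Agent.GMH.SngK
import Pool.Agent.GMH.SngPt

/-!
# GMH/SngCI (helper82): INSTANCES of the structures `Sees`, `Inp` of block (C) (kind S)

For `hM : SngPt.RpT tb v M` (the data of the moved part on the space with tables, with the tops; `SngPt.rpT_MSi` for `MSi`).
* `sees_of : Sees tb M`, `inp_of : Inp M X1` (under `2 d0 < log 2`).
-/

set_option autoImplicit false
set_option linter.unusedSectionVars false

namespace Pool.Agent.GMH.SngC

open Finset Pool.Agent.PWZ Pool.Agent.M3 Pool.Agent.GM Pool.Agent.GM.Harm Pool.Agent.GMH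
open Pool.Agent.GMH.Dy Pool.Agent.GMH.TabF Pool.Agent.GMH.MV Pool.Agent.GMH.Sng

noncomputable section

variable {X β γ φ υ : Type} [Fintype X] [Fintype β] [Fintype φ] [Nonempty X] [Nonempty β]
variable {D : HD (Fin 3) X β γ φ} {v : ℕ → Finset (Fin 3) → X → (Fin 3 → β) → υ}
variable {prr : ℕ → Fin 3 → φ → φ} {T : ℕ} {W : Type} [Fintype W]
variable {tb : Tab D prr T W} {M : MS (Om W X β)}

/-- **what the data see** -/
theorem sees_of (hv : Codes D v) (hM : SngPt.RpT tb v M) : Sees tb M where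
  P := hM.P
  N := fun q => SngPt.NP_sgt hv hM.toRp q
  c := fun _ _ _ e j => SngPt.NP_cell hM.toRp e j
  X := fun j q => SngPt.XL_si hv hM.toRp j q
  C := fun i q => SngPt.CX_si hv hM i q
  Y := fun j a b => hM.Y j a b

/-- **the inputs of the other modules** -/
theorem inp_of (hv : Codes D v) (hM : SngPt.RpT tb v M) (hd : 2 * M.d0 < Real.log 2) (X1 : ℝ) : Inp M X1 where
  q1 := fun _ _ w hw hr hrq _ hA p hp =>
    mass_fwd2 hd hw hr hrq hA ((M.P.ce_nonneg (fun _ _ => ind_nonneg _) w).trans (hp w hw rfl)) hp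
  q2 := fun _ _ _ hu hr hrq F _ h1 h2 => alive_dead F hu hr hrq h1 h2
  lf1 := fun j q a b _ _ e1 e2 => SngPt.lf_XL hv hM j q a b (Prod.ext e1 e2)
  cD := by
    intro i q y κ S hS s hs
    rcases s.eq_empty_or_nonempty with h0 | ⟨g0, h0⟩
    · rw [h0, Finset.card_empty, Nat.cast_zero]
      exact (Real.exp_pos _).le
    obtain ⟨z0, hz0, -⟩ := hs g0 h0
    obtain ⟨a1, a2, a3, -⟩ := hS z0 hz0
    refine SngPt.card_let hv hM (F := ({i}, ∅)) (fun t ht => absurd ht (Finset.notMem_empty t))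
      (fun a b => SngPt.evL_one i q a b) s a1 fun g hg => ?_
    obtain ⟨z, hz, h1⟩ := hs g hg
    obtain ⟨b1, b2, b3, b4⟩ := hS z hz
    refine ⟨z, b1, b3.trans a3.symm, fun j hj => ?_, h1, b4⟩
    rw [Finset.mem_singleton.1 hj]
    exact (hM.Y i z z0).1 (b2.trans a2.symm)
  cC := by
    intro i q y κ S hS s hs
    rcases s.eq_empty_or_nonempty with h0 | ⟨g0, h0⟩
    · rw [h0, Finset.card_empty, Nat.cast_zero]
      exact (Real.exp_pos _).le
    obtain ⟨z0, hz0, -⟩ := hs g0 h0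
    obtain ⟨a1, a2, a3, -⟩ := hS z0 hz0
    refine SngPt.card_let hv hM (F := (univ.erase i, {i})) (fun t ht => by rw [Finset.mem_singleton.1 ht])
      (fun a b => SngPt.evL_top i q a b) s a1 fun g hg => ?_
    obtain ⟨z, hz, h1⟩ := hs g hg
    obtain ⟨b1, b2, b3, b4⟩ := hS z hz
    refine ⟨z, b1, b3.trans a3.symm, fun j hj => ?_, h1, b4⟩
    exact (hM.Y j z z0).1 (SngPt.PX_iff.1 (b2.trans a2.symm) j (Finset.mem_erase.1 hj).1)

end

end Pool.Agent.GMH.SngC
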