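import Pool.Agent.GMH.SngDef
import Pool.Agent.GMH.RZ11

/-!
# GMH/SngE (helper14): KIND S, costs of the public codes and tiny digits (row E7 = (R1) - (R4))

For `M` with `Rp tb v M` and a run:
* `m_NP`, `E_code`, `cost_sum` : total cost of the public codes;
* `lc_tiny`, `lc_sum` : the digit steps with `lam < LC (5 t + 1)`;
* `le_sum` : the ends of the epochs with `lam < LE s`;
* `exq_sum` : number of the expensive public removals.
-/

set_option autoImplicit false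
set_option linter.unusedSectionVars false

namespace Pool.Agent.GMH.Sng

open Finset Pool.Agent.PWZ Pool.Agent.M3 Pool.Agent.GM Pool.Agent.GM.Harm Pool.Agent.GMH Pool.Agent.GMH.TD
open Pool.Agent.GMH.Dy Pool.Agent.GMH.MV Pool.Agent.GMH.MVI Pool.Agent.GMH.RZ Pool.Agent.GMH.KF Pool.Agent.GMH.NZ
open Pool.Agent.GMH.V3 Pool.Agent.GMH.TP

noncomputable section

section gen

variable {X β γ φ υ : Type} [Fintype X] [Fintype β] [Fintype φ] [Nonempty X] [Nonempty β]
variable {D : HD (Fin 3) X β γ φ} {al : ℝ} {h : D.Thick al} {v : ℕ → Finset (Fin 3) → X → (Fin 3 → β) → υ}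
variable {prr : ℕ → Fin 3 → φ → φ} {T : ℕ} {W : Type} [Fintype W] {tb : Tab D prr T W} {M : MS (Om W X β)}

include h in
/-- masses of the public classes -/
theorem m_NP (hM : Rp tb v M) (s : ℕ) (w : Om W X β) :
    M.P.m (M.NP s) w = (D.P h 0).m (NPq D v s) (tb.pt 0 w) := by
  have h1 := (pul_pt h tb (Nat.zero_le T)).m (NPq D v s) w
  rw [← h1, hM.P]
  unfold FP.m
  refine tb.Ps.E_congr fun u _ => ?_
  rw [ind_cg (hM.N s u w)]
  rfl

theorem m_pair (s : ℕ) (w : Pt (Fin 3) X β φ) :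
    (D.P h 0).m (fun u => (NPq D v (s + 1) u, NPq D v s u)) w = (D.P h 0).m (NPq D v (s + 1)) w := by
  unfold FP.m
  refine FP.E_congr _ fun u _ => ?_
  refine ind_cg ⟨fun e => (Prod.mk.inj e).1, fun e => Prod.ext e (CKB.NPq_fac s u w e)⟩

include h in
/-- the cost of a public step -/
theorem E_step (hM : Rp tb v M) (s : ℕ) :
    M.P.E (fun w => Real.log (M.P.m (M.NP s) w / M.P.m (M.NP (s + 1)) w)) =
      (D.P h 0).Hc (NPq D v (s + 1)) (NPq D v s) := by
  rw [Hc_eq_E_log]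
  simp only [m_NP (h := h) hM, m_pair]
  rw [hM.P]
  exact (pul_pt h tb (Nat.zero_le T)).E
    (fun p => Real.log ((D.P h 0).m (NPq D v s) p / (D.P h 0).m (NPq D v (s + 1)) p))

/-- masses decrease -/
theorem m_le (s : ℕ) (w : Om W X β) : M.P.m (M.NP (s + 1)) w ≤ M.P.m (M.NP s) w := M.P.m_anti (M.hN s) w

theorem log_nonneg' {s : ℕ} {w : Om W X β} (hw : M.P.p w ≠ 0) :
    0 ≤ Real.log (M.P.m (M.NP s) w / M.P.m (M.NP (s + 1)) w) :=
  Real.log_nonneg (by rw [le_div_iff₀ (M.P.m_pos _ hw), one_mul]; exact m_le s w)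

theorem LC_eq (t : ℕ) (w : Om W X β) :
    LC M (5 * t + 1) w = Real.log (M.P.m (M.NP (5 * t)) w / M.P.m (M.NP (5 * t + 1)) w) := by
  unfold LC
  rw [show 5 * ((5 * t + 1) / 5) = 5 * t by omega]

theorem LE_zero (t : ℕ) (w : Om W X β) : LE M (5 * t) w = LC M (5 * t + 1) w := by
  rw [LC_eq]
  unfold LE
  rw [show 5 * (5 * t / 5) = 5 * t by omega]

include h in
theorem m_late (hM : Rp tb v M) (t : ℕ) (w : Om W X β) :
    M.P.m (M.NP (5 * t + 4 + 1)) w = M.P.m (M.NP (5 * t + 1 + 1)) w := by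
  have e : ∀ q, 2 ≤ q % 5 → NPq (φ := φ) D v (q + 1) = NPq D v q := fun q hq => NPq_code v hq
  rw [m_NP (h := h) hM, m_NP (h := h) hM, e (5 * t + 4) (by omega), show 5 * t + 4 = 5 * t + 3 + 1 by ring,
    e (5 * t + 3) (by omega), show 5 * t + 3 = 5 * t + 2 + 1 by ring, e (5 * t + 2) (by omega)]

include h in
theorem LE_four (hM : Rp tb v M) (t : ℕ) {w : Om W X β} (hw : M.P.p w ≠ 0) :
    LE M (5 * t + 4) w = LC M (5 * t + 1) w +
      Real.log (M.P.m (M.NP (5 * t + 1)) w / M.P.m (M.NP (5 * t + 1 + 1)) w) := by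
  rw [LC_eq]
  unfold LE
  rw [show 5 * ((5 * t + 4) / 5) = 5 * t by omega, m_late (h := h) hM]
  have a := (M.P.m_pos (M.NP (5 * t)) hw).ne'
  have b := (M.P.m_pos (M.NP (5 * t + 1)) hw).ne'
  have c := (M.P.m_pos (M.NP (5 * t + 1 + 1)) hw).ne'
  rw [Real.log_div a c, Real.log_div a b, Real.log_div b c]
  ring

theorem LC_nonneg {t : ℕ} {w : Om W X β} (hw : M.P.p w ≠ 0) : 0 ≤ LC M (5 * t + 1) w := by
  rw [LC_eq]
  exact log_nonneg' hw

end gen

/-- the layers of a real number -/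
theorem layers {x lam : ℝ} {K : ℕ} (hK : x ≤ lam + K) :
    (1 + x) * ind (lam < x) ≤ (1 + lam) * ind (lam < x) + ∑ j ∈ range K, ind (lam + j < x) := by
  by_cases hx : lam < x
  · rw [ind_of hx, mul_one, mul_one]
    have h1 : x - lam ≤ ∑ j ∈ range K, ind (lam + j < x) := by
      set m : ℕ := ⌈x - lam⌉₊ with hm
      have h2 : x - lam ≤ m := Nat.le_ceil _
      have h3 : m ≤ K := Nat.ceil_le.2 (by linarith)
      have h4 : ∀ j ∈ range m, lam + (j : ℝ) < x := by
        intro j hj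
        have h5 : j < ⌈x - lam⌉₊ := Finset.mem_range.1 hj
        have h6 := Nat.lt_ceil.1 h5
        linarith
      calc x - lam ≤ (m : ℝ) := h2
        _ = ∑ j ∈ range m, ind (lam + (j : ℝ) < x) := by
            rw [Finset.sum_congr rfl fun j hj => ind_of (h4 j hj), Finset.sum_const, Finset.card_range, nsmul_eq_mul,
              mul_one]
        _ ≤ _ := Finset.sum_le_sum_of_subset_of_nonneg (Finset.range_mono h3) fun _ _ _ => ind_nonneg _
    linarith
  · rw [ind_not hx, mul_zero, mul_zero, zero_add]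
    exact Finset.sum_nonneg fun _ _ => ind_nonneg _

theorem geo_two (K : ℕ) : ∑ j ∈ range K, Real.exp (-(j : ℝ)) ≤ 2 := by
  have h1 : ∀ j : ℕ, Real.exp (-(j : ℝ)) = Real.exp (-1) ^ j := by
    intro j
    rw [← Real.exp_nat_mul]
    congr 1
    ring
  simp only [h1]
  have h0 : Real.exp (-1) ≤ 1 / 2 := by
    rw [Real.exp_neg, one_div]
    refine inv_anti₀ (by norm_num) ?_
    have := Real.add_one_le_exp (1 : ℝ)
    linarith
  have h2 : ∑ i ∈ range K, Real.exp (-1) ^ i ≤ ∑' i : ℕ, Real.exp (-1) ^ i :=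
    (summable_geometric_of_lt_one (Real.exp_pos _).le (by linarith)).sum_le_tsum _
      (fun i _ => pow_nonneg (Real.exp_pos _).le i)
  rw [tsum_geometric_of_lt_one (Real.exp_pos _).le (by linarith)] at h2
  refine h2.trans ?_
  rw [inv_le_comm₀ (by linarith) (by norm_num)]
  linarith

section run

variable {X β γ φ : Type} [Fintype X] [Fintype β] [Fintype φ] [Nonempty X] [Nonempty β]
variable {D : HD (Fin 3) X β γ φ} {al : ℝ} {h : D.Thick al} {v : ℕ → Finset (Fin 3) → X → (Fin 3 → β) → Pt (Fin 3) X β φ}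
variable {dg : ℕ → X → ℝ} {prr : ℕ → Fin 3 → φ → φ} {T : ℕ} {Lam : ℝ} {W : Type} [Fintype W] {tb : Tab D prr T W}
variable {M : MS (Om W X β)}

/-- **(R1)** the cost of the public codes, at the code steps -/
theorem cost_code {n N1 : ℝ} (hn : 1 ≤ n) (hN1 : 1 ≤ N1) (R : Run h (pr3 (Fin 3) n N1) (SS1 (Fin 3)) (AdmDep D) v)
    (H : D.Hyp dg prr al T Lam) (hM : Rp tb v M) :
    ∑ t ∈ range T, M.P.E (fun w => Real.log (M.P.m (M.NP (5 * t + 1)) w / M.P.m (M.NP (5 * t + 1 + 1)) w)) ≤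
      3 * (n * N1 * Lam) := by
  have h1 := MVI.cost_pub hn hN1 R H
  rw [Finset.sum_range_succ'] at h1
  have h2 := cst_nonneg h (v := v) 0 ∅
  refine le_trans (le_of_eq ?_) (by linarith : ∑ t ∈ range T, cst h v (t + 1) ∅ ≤ 3 * (n * N1 * Lam))
  refine Finset.sum_congr rfl fun t _ => ?_
  rw [E_step (h := h) hM, CKB.Hc_NPq h 0 t]

/-- **(R1)** the cost of the public codes, all steps which are not digit steps -/
theorem cost_sum {n N1 : ℝ} (hn : 1 ≤ n) (hN1 : 1 ≤ N1) (R : Run h (pr3 (Fin 3) n N1) (SS1 (Fin 3)) (AdmDep D) v)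
    (H : D.Hyp dg prr al T Lam) (hM : Rp tb v M) :
    ∑ q ∈ range (5 * T), ind (q % 5 ≠ 0) * M.P.E (fun w => Real.log (M.P.m (M.NP q) w / M.P.m (M.NP (q + 1)) w)) ≤
      3 * (n * N1 * Lam) := by
  have h1 := MVI.cost_pub hn hN1 R H
  rw [Finset.sum_range_succ'] at h1
  have h2 := cst_nonneg h (v := v) 0 ∅
  have h3 : ∑ q ∈ range (5 * T), ind (q % 5 ≠ 0) * M.P.E (fun w => Real.log (M.P.m (M.NP q) w / M.P.m (M.NP (q + 1)) w)) ≤
      ∑ q ∈ range (5 * T), ind (q % 5 = 1) * cst h v (q / 5 + 1) ∅ := by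
    refine Finset.sum_le_sum fun q _ => ?_
    by_cases hq : q % 5 = 0
    · rw [ind_not (fun hh => hh hq), zero_mul]
      exact mul_nonneg (ind_nonneg _) (cst_nonneg h _ _)
    · rw [ind_of hq, one_mul, E_step (h := h) hM]
      exact Hc_NPq_any h v 0 q hq
  rw [sum_pub] at h3
  linarith

/-- **(R3)** number of the expensive public removals -/
theorem exq_sum {n N1 : ℝ} (hn : 1 ≤ n) (hN1 : 1 ≤ N1) (R : Run h (pr3 (Fin 3) n N1) (SS1 (Fin 3)) (AdmDep D) v)
    (H : D.Hyp dg prr al T Lam) (hM : Rp tb v M) {L0 : ℝ} (hL0 : 0 < L0) :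
    ∑ q ∈ range (5 * T), M.P.Pr (exq M L0 q) ≤ 3 * (n * N1 * Lam) / L0 := by
  rw [le_div_iff₀ hL0, Finset.sum_mul]
  refine le_trans (Finset.sum_le_sum fun q _ => ?_) (cost_sum hn hN1 R H hM)
  unfold FP.Pr
  rw [mul_comm, ← M.P.E_smul]
  by_cases hq : q % 5 = 1
  · rw [ind_of (show q % 5 ≠ 0 by omega), one_mul]
    refine M.P.E_mono fun w hw => ?_
    by_cases he : exq M L0 q w
    · rw [ind_of he, mul_one]
      have h1 := he.2
      have h2 := M.P.m_pos (M.NP (q + 1)) hw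
      have h3 : Real.exp L0 ≤ M.P.m (M.NP q) w / M.P.m (M.NP (q + 1)) w := by
        rw [le_div_iff₀ h2]
        have h4 := mul_le_mul_of_nonneg_left h1.le (Real.exp_pos L0).le
        rw [← mul_assoc, ← Real.exp_add, add_neg_cancel, Real.exp_zero, one_mul] at h4
        exact h4
      have h4 := Real.log_le_log (Real.exp_pos _) h3
      rwa [Real.log_exp] at h4
    · rw [ind_not he, mul_zero]
      exact log_nonneg' hw
  · have h1 : ∀ w, ¬ exq M L0 q w := fun w he => hq he.1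
    have h2 : M.P.E (fun w => L0 * ind (exq M L0 q w)) = M.P.E (fun _ => 0) :=
      M.P.E_congr fun w _ => by rw [ind_not (h1 w), mul_zero]
    rw [h2, M.P.E_const]
    exact mul_nonneg (ind_nonneg _) (M.P.E_nonneg fun w hw => log_nonneg' hw)

/-- **(R2)** tiny digits -/
theorem lc_tiny {n N1 : ℝ} (hn : 1 ≤ n) (hN1 : 1 ≤ N1) (R : Run h (pr3 (Fin 3) n N1) (SS1 (Fin 3)) (AdmDep D) v)
    (H : D.Hyp dg prr al T Lam) (hM : Rp tb v M) {lam : ℝ} (hl : 64 * Real.exp (-lam) ≤ 1) :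
    ∑ t ∈ range T, M.P.Pr (fun w => lam < LC M (5 * t + 1) w) ≤ TnB n N1 Lam (Real.exp (-lam)) := by
  refine le_trans ?_ (tny_le hn hN1 R H (Real.exp_pos _) hl)
  unfold Tny
  refine Finset.sum_le_sum fun t _ => ?_
  have h1 := E_to (h := h) hM (fun p => ind (¬ dgq h v (Real.exp (-lam)) (2 * t + 1) p))
  unfold FP.Pr
  rw [← h1]
  refine M.P.E_mono fun w hw => ?_
  refine ind_mono fun hlt hdg => ?_
  have h2 := hdg (by omega)
  have e0 : V3.NPr v D (2 * t) = NPq (φ := φ) D v (5 * t) := by rw [NPq_rho, rho_0]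
  have e1 : V3.NPr v D (2 * t + 1) = NPq (φ := φ) D v (5 * t + 1) := by rw [NPq_rho, rho_1]
  rw [show 2 * t + 1 - 1 = 2 * t by omega, e0, e1, ← m_NP (h := h) hM, ← m_NP (h := h) hM] at h2
  have hlt : lam < LC M (5 * t + 1) w := hlt
  rw [LC_eq] at hlt
  have h3 := M.P.m_pos (M.NP (5 * t + 1)) hw
  have h4 := M.P.m_pos (M.NP (5 * t)) hw
  have h5 : M.P.m (M.NP (5 * t)) w / M.P.m (M.NP (5 * t + 1)) w ≤ Real.exp lam := by
    rw [div_le_iff₀ h3]
    have h6 := mul_le_mul_of_nonneg_left h2 (Real.exp_pos lam).le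
    rw [← mul_assoc, ← Real.exp_add, add_neg_cancel, Real.exp_zero, one_mul] at h6
    exact h6
  have h6 := Real.log_le_log (div_pos h4 h3) h5
  rw [Real.log_exp] at h6
  linarith

/-- **(R2')** layers of the tiny digits -/
theorem lc_sum {n N1 : ℝ} (hn : 1 ≤ n) (hN1 : 1 ≤ N1) (R : Run h (pr3 (Fin 3) n N1) (SS1 (Fin 3)) (AdmDep D) v)
    (H : D.Hyp dg prr al T Lam) (hM : Rp tb v M) {lam : ℝ} (hl0 : 0 ≤ lam) (hl : 64 * Real.exp (-lam) ≤ 1) :
    ∑ t ∈ range T, M.P.E (fun w => (1 + LC M (5 * t + 1) w) * ind (lam < LC M (5 * t + 1) w)) ≤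
      (lam + 3) * TnB n N1 Lam (Real.exp (-lam)) := by
  classical
  obtain ⟨K, hK⟩ : ∃ K : ℕ, ∀ t ∈ range T, ∀ w : Om W X β, LC M (5 * t + 1) w ≤ lam + K := by
    refine ⟨(range T).sup fun t => (univ : Finset (Om W X β)).sup fun w => ⌈LC M (5 * t + 1) w⌉₊, fun t ht w => ?_⟩
    have h1 : ⌈LC M (5 * t + 1) w⌉₊ ≤ (range T).sup fun t => (univ : Finset (Om W X β)).sup fun w => ⌈LC M (5 * t + 1) w⌉₊ :=
      le_trans (Finset.le_sup (f := fun w => ⌈LC M (5 * t + 1) w⌉₊) (mem_univ w))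
        (Finset.le_sup (f := fun t => (univ : Finset (Om W X β)).sup fun w => ⌈LC M (5 * t + 1) w⌉₊) ht)
    have h2 : LC M (5 * t + 1) w ≤ (⌈LC M (5 * t + 1) w⌉₊ : ℝ) := Nat.le_ceil _
    have h3 : (⌈LC M (5 * t + 1) w⌉₊ : ℝ) ≤
        (((range T).sup fun t => (univ : Finset (Om W X β)).sup fun w => ⌈LC M (5 * t + 1) w⌉₊ : ℕ) : ℝ) := by
      exact_mod_cast h1
    linarith
  have h1 : ∀ t ∈ range T, M.P.E (fun w => (1 + LC M (5 * t + 1) w) * ind (lam < LC M (5 * t + 1) w)) ≤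
      (1 + lam) * M.P.Pr (fun w => lam < LC M (5 * t + 1) w) +
        ∑ j ∈ range K, M.P.Pr (fun w => lam + j < LC M (5 * t + 1) w) := by
    intro t ht
    unfold FP.Pr
    rw [← M.P.E_smul, ← M.P.E_sum, ← M.P.E_add]
    exact M.P.E_mono fun w _ => layers (hK t ht w)
  refine (Finset.sum_le_sum h1).trans ?_
  rw [Finset.sum_add_distrib, ← Finset.mul_sum, Finset.sum_comm]
  have h2 := lc_tiny hn hN1 R H hM hl
  have hTn : ∀ y : ℝ, TnB n N1 Lam (Real.exp (-lam) * y) = TnB n N1 Lam (Real.exp (-lam)) * y := by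
    intro y
    unfold TnB
    ring
  have hT0 : 0 ≤ TnB n N1 Lam (Real.exp (-lam)) := by
    have h3 : 0 ≤ ∑ t ∈ range T, M.P.Pr (fun w => lam < LC M (5 * t + 1) w) :=
      Finset.sum_nonneg fun _ _ => M.P.Pr_nonneg _
    exact h3.trans h2
  have h3 : ∀ j ∈ range K, ∑ t ∈ range T, M.P.Pr (fun w => lam + (j : ℝ) < LC M (5 * t + 1) w) ≤
      TnB n N1 Lam (Real.exp (-lam)) * Real.exp (-(j : ℝ)) := by
    intro j _
    have hj : (0 : ℝ) ≤ j := Nat.cast_nonneg j
    have e1 : Real.exp (-(lam + j)) = Real.exp (-lam) * Real.exp (-(j : ℝ)) := by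
      rw [← Real.exp_add]
      congr 1
      ring
    have h4 : 64 * Real.exp (-(lam + j)) ≤ 1 := by
      refine le_trans (mul_le_mul_of_nonneg_left (Real.exp_le_exp.2 ?_) (by norm_num)) hl
      linarith
    have h5 := lc_tiny hn hN1 R H hM h4
    rw [e1, hTn] at h5
    exact h5
  have h4 : ∑ j ∈ range K, ∑ t ∈ range T, M.P.Pr (fun w => lam + (j : ℝ) < LC M (5 * t + 1) w) ≤
      TnB n N1 Lam (Real.exp (-lam)) * 2 := by
    refine (Finset.sum_le_sum h3).trans ?_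
    rw [← Finset.mul_sum]
    exact mul_le_mul_of_nonneg_left (geo_two K) hT0
  have h5 := mul_le_mul_of_nonneg_left h2 (show 0 ≤ 1 + lam by linarith)
  linarith

/-- **(R4)** the ends of the epochs -/
theorem le_sum {n N1 : ℝ} (hn : 1 ≤ n) (hN1 : 1 ≤ N1) (R : Run h (pr3 (Fin 3) n N1) (SS1 (Fin 3)) (AdmDep D) v)
    (H : D.Hyp dg prr al T Lam) (hM : Rp tb v M) {lam : ℝ} (hl0 : 0 ≤ lam) (hl : 64 * Real.exp (-(lam / 2)) ≤ 1)
    (Ev : ℕ → Om W X β → Prop) (hEv : ∀ s w, Ev s w → s % 5 = 4 ∨ s % 5 = 0) :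
    ∑ s ∈ range (5 * T), M.P.E (fun w => ind (Ev s w) * (LE M s w * ind (lam < LE M s w))) ≤
      6 * (n * N1 * Lam) + 3 * ((lam / 2 + 3) * TnB n N1 Lam (Real.exp (-(lam / 2)))) := by
  have h1 := lc_sum hn hN1 R H hM (show 0 ≤ lam / 2 by linarith) hl
  have h2 := cost_code hn hN1 R H hM
  set A : ℕ → ℝ := fun t => M.P.E (fun w => (1 + LC M (5 * t + 1) w) * ind (lam / 2 < LC M (5 * t + 1) w)) with hA
  set B : ℕ → ℝ := fun t =>
    M.P.E (fun w => Real.log (M.P.m (M.NP (5 * t + 1)) w / M.P.m (M.NP (5 * t + 1 + 1)) w)) with hB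
  set F : ℕ → ℝ := fun s => M.P.E (fun w => ind (Ev s w) * (LE M s w * ind (lam < LE M s w))) with hF
  have hz : ∀ s, s % 5 ≠ 4 → s % 5 ≠ 0 → F s = 0 := by
    intro s a b
    have h3 : ∀ w, ¬ Ev s w := fun w hw => (hEv s w hw).elim a b
    have h4 : F s = M.P.E (fun _ => 0) := M.P.E_congr fun w _ => by rw [ind_not (h3 w), zero_mul]
    rw [h4, M.P.E_const]
  have h0 : ∀ t, F (5 * t) ≤ A t := by
    intro t
    refine M.P.E_mono fun w hw => ?_
    have h3 := LC_nonneg (t := t) hw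
    show ind (Ev (5 * t) w) * (LE M (5 * t) w * ind (lam < LE M (5 * t) w)) ≤ _
    rw [LE_zero]
    by_cases hlt : lam < LC M (5 * t + 1) w
    · rw [ind_of hlt, ind_of (show lam / 2 < LC M (5 * t + 1) w by linarith), mul_one, mul_one]
      have := mul_le_of_le_one_left h3 (ind_le_one (Ev (5 * t) w))
      linarith
    · rw [ind_not hlt, mul_zero, mul_zero]
      exact mul_nonneg (by linarith) (ind_nonneg _)
  have h4 : ∀ t, F (5 * t + 4) ≤ 2 * A t + 2 * B t := by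
    intro t
    rw [hA, hB]
    simp only
    rw [← M.P.E_smul, ← M.P.E_smul, ← M.P.E_add]
    refine M.P.E_mono fun w hw => ?_
    have h3 := LC_nonneg (t := t) hw
    have h5 := log_nonneg' (M := M) (s := 5 * t + 1) hw
    show ind (Ev (5 * t + 4) w) * (LE M (5 * t + 4) w * ind (lam < LE M (5 * t + 4) w)) ≤ _
    rw [LE_four (h := h) hM t hw]
    set x := LC M (5 * t + 1) w with hx
    set y := Real.log (M.P.m (M.NP (5 * t + 1)) w / M.P.m (M.NP (5 * t + 1 + 1)) w) with hy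
    have h6 : 0 ≤ (1 + x) * ind (lam / 2 < x) := mul_nonneg (by linarith) (ind_nonneg _)
    by_cases hlt : lam < x + y
    · rw [ind_of hlt, mul_one]
      have h7 := mul_le_of_le_one_left (show 0 ≤ x + y by linarith) (ind_le_one (Ev (5 * t + 4) w))
      rcases le_total x y with hxy | hxy
      · linarith
      · rw [ind_of (show lam / 2 < x by linarith), mul_one]
        linarith
    · rw [ind_not hlt, mul_zero, mul_zero]
      linarith
  have key : ∀ S : ℕ, ∑ s ∈ range (5 * S), F s ≤ ∑ t ∈ range S, (3 * A t + 2 * B t) := by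
    intro S
    induction S with
    | zero => simp
    | succ S ih =>
      rw [show 5 * (S + 1) = 5 * S + 1 + 1 + 1 + 1 + 1 by ring, Finset.sum_range_succ, Finset.sum_range_succ,
        Finset.sum_range_succ, Finset.sum_range_succ, Finset.sum_range_succ, Finset.sum_range_succ _ S,
        hz (5 * S + 1) (by omega) (by omega), hz (5 * S + 1 + 1) (by omega) (by omega),
        hz (5 * S + 1 + 1 + 1) (by omega) (by omega)]
      have a1 := h0 S
      have a2 := h4 S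
      rw [show 5 * S + 1 + 1 + 1 + 1 = 5 * S + 4 by ring]
      linarith
  refine (key T).trans ?_
  rw [Finset.sum_add_distrib, ← Finset.mul_sum, ← Finset.mul_sum]
  linarith

end run

end

end Pool.Agent.GMH.Sng
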