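import Pool.Agent.GMH.SngA

/-!
# GMH/SngM (helper18): masses of the abnormal singles (kind `S`, part A3)

Abstract part: `P` = law given what the top sees below, `z` = missing letter, `X` = top, `R` = law of the class.
* `Tst P R z tau` : the two laws are `tau`-close on test functions of `z`;
* `mass_e` : mass under `R` of the letters at which one value of the top changes its probability;
* `tv_e` : mean distance of the law of the top given the letter from its law without it;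
* `log_big` : `e ≤ |log (m / q)|` gives `(e / 2) m ≤ |m - q|` and `(e / 2) q ≤ |m - q|`.
-/

set_option autoImplicit false
set_option linter.unusedSectionVars false

namespace Pool.Agent.GMH.SngM

open Finset Pool.Agent.PWZ Pool.Agent.M3 Pool.Agent.GM Pool.Agent.GM.Harm Pool.Agent.GMH Pool.Agent.GMH.RarX
open Pool.Agent.GMH.SngA

section gen

variable {Om : Type*} [Fintype Om] {P R : FP Om} {ζ χ : Type*} {z : Om → ζ} {X : Om → χ}

/-- the two laws are `tau`-close on test functions of `z` -/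
def Tst (P R : FP Om) (z : Om → ζ) (tau : ℝ) : Prop :=
  ∀ f : Om → ℝ, Fac z f → (∀ w, |f w| ≤ 1) → |P.E f - R.E f| ≤ tau

theorem Tst.mass {tau : ℝ} (h : Tst P R z tau) {A : Om → Prop} (hA : Fac z A) : R.Pr A ≤ P.Pr A + tau := by
  have h1 := h (fun w => ind (A w)) (Fac.ind fun v w hvw => by rw [hA v w hvw]) (fun w => by
    rw [abs_of_nonneg (ind_nonneg _)]
    exact ind_le_one _)
  have h2 := (abs_le.1 h1).1
  show R.E (fun w => ind (A w)) ≤ P.E (fun w => ind (A w)) + tau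
  linarith

theorem Tst.mass' {tau : ℝ} (h : Tst P R z tau) {A : Om → Prop} (hA : Fac z A) : P.Pr A ≤ R.Pr A + tau := by
  have h1 := h (fun w => ind (A w)) (Fac.ind fun v w hvw => by rw [hA v w hvw]) (fun w => by
    rw [abs_of_nonneg (ind_nonneg _)]
    exact ind_le_one _)
  have h2 := (abs_le.1 h1).2
  show P.E (fun w => ind (A w)) ≤ R.E (fun w => ind (A w)) + tau
  linarith

theorem Tst.nn {tau : ℝ} (h : Tst P R z tau) : 0 ≤ tau :=
  (abs_nonneg _).trans (h (fun _ => 0) (fun _ _ _ => rfl) (fun _ => by rw [abs_zero]; norm_num))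

theorem Tst.mono {tau tau' : ℝ} (h : Tst P R z tau) (ht : tau ≤ tau') : Tst P R z tau' :=
  fun f hf hb => (h f hf hb).trans ht

/-- from the relative entropy -/
theorem Tst.of_kl (hac : P.Ac R) {k : ℝ} (hk : P.kl R z ≤ k) : Tst P R z (Real.sqrt (2 * k)) := by
  intro f hf hb
  have h1 := FP.pinsker_test hac hf hb
  rw [one_mul] at h1
  exact h1.trans (Real.sqrt_le_sqrt (by linarith))

/-- conditional law through `z` -/
theorem cond_x {x : χ} (hx : P.Pr (fun w => X w = x) ≠ 0) {f : Om → ℝ} (hf : Fac z f) :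
    (P.cond fun w => X w = x).E f = P.E (fun w => f w * P.pv z X w x) / P.Pr (fun w => X w = x) := by
  rw [FP.cond_E hx]
  congr 1
  unfold FP.pv
  rw [P.E_mul_ce hf]
  exact P.E_congr fun w _ => mul_comm _ _

/-- one value of the top -/
theorem e_one {x : χ} {t1 t2 : ℝ} (hx : P.Pr (fun w => X w = x) ≠ 0)
    (h1 : Tst (P.cond fun w => X w = x) R z t1) (h2 : Tst P R z t2) {A : Om → Prop} (hA : Fac z A) :
    P.E (fun w => ind (A w) * |P.pv z X w x - P.Pr (fun w => X w = x)|) ≤ P.Pr (fun w => X w = x) * (t1 + t2) := by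
  classical
  set q := P.Pr (fun w => X w = x) with hq
  have hq0 : 0 < q := lt_of_le_of_ne (P.Pr_nonneg _) hx.symm
  set f : Om → ℝ := fun w => ind (A w) * (if q ≤ P.pv z X w x then 1 else -1) with hf
  have ff : Fac z f := by
    intro v w hvw
    have e1 : A v = A w := hA v w hvw
    have e2 : P.pv z X v x = P.pv z X w x := P.pv_fac z X x v w hvw
    show ind (A v) * (if q ≤ P.pv z X v x then 1 else -1) = ind (A w) * (if q ≤ P.pv z X w x then 1 else -1)
    rw [e1, e2]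
  have fb : ∀ w, |f w| ≤ 1 := by
    intro w
    show |ind (A w) * (if q ≤ P.pv z X w x then 1 else -1)| ≤ 1
    rw [abs_mul, abs_of_nonneg (ind_nonneg _)]
    have e : |(if q ≤ P.pv z X w x then (1 : ℝ) else -1)| = 1 := by split_ifs <;> norm_num
    rw [e, mul_one]
    exact ind_le_one _
  have g1 := (abs_le.1 (h1 f ff fb)).2
  have g2 := (abs_le.1 (h2 f ff fb)).1
  rw [cond_x hx ff] at g1
  have g3 : P.E (fun w => f w * P.pv z X w x) / q ≤ P.E f + (t1 + t2) := by linarith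
  rw [div_le_iff₀ hq0] at g3
  have g4 : P.E (fun w => ind (A w) * |P.pv z X w x - q|) = P.E (fun w => f w * P.pv z X w x) - q * P.E f := by
    rw [← P.E_smul, ← P.E_sub]
    refine P.E_congr fun w _ => ?_
    show ind (A w) * |P.pv z X w x - q| = ind (A w) * (if q ≤ P.pv z X w x then 1 else -1) * P.pv z X w x -
      q * (ind (A w) * (if q ≤ P.pv z X w x then 1 else -1))
    by_cases hc : q ≤ P.pv z X w x
    · rw [if_pos hc, abs_of_nonneg (by linarith)]
      ring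
    · rw [if_neg hc, abs_of_nonpos (by linarith [not_le.1 hc])]
      ring
  rw [g4]
  nlinarith

/-- **mass of the letters which change one value of the top** -/
theorem mass_e {x : χ} {t1 t2 e : ℝ} (he : 0 < e) (hx : P.Pr (fun w => X w = x) ≠ 0)
    (h1 : Tst (P.cond fun w => X w = x) R z t1) (h2 : Tst P R z t2) {A : Om → Prop} (hA : Fac z A)
    (hAe : ∀ w, P.p w ≠ 0 → A w → e * P.Pr (fun w => X w = x) ≤ |P.pv z X w x - P.Pr (fun w => X w = x)|) :
    R.Pr A ≤ (t1 + t2) / e + t2 := by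
  have g1 := e_one hx h1 h2 hA
  set q := P.Pr (fun w => X w = x) with hq
  have hq0 : 0 < q := lt_of_le_of_ne (P.Pr_nonneg _) hx.symm
  have g2 : e * q * P.Pr A ≤ P.E (fun w => ind (A w) * |P.pv z X w x - q|) := by
    have e1 : e * q * P.Pr A = P.E (fun w => e * q * ind (A w)) := (P.E_smul _ _).symm
    rw [e1]
    refine P.E_mono fun w hw => ?_
    by_cases hAw : A w
    · rw [ind_of hAw, mul_one, one_mul]
      exact hAe w hw hAw
    · rw [ind_not hAw, mul_zero, zero_mul]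
  have g3 : P.Pr A ≤ (t1 + t2) / e := by
    rw [le_div_iff₀ he]
    have g4 : q * (P.Pr A * e) ≤ q * (t1 + t2) := by nlinarith
    exact le_of_mul_le_mul_left g4 hq0
  have g5 := h2.mass hA
  linarith

theorem sum_Pr (P : FP Om) (X : Om → χ) : ∑ x ∈ vals X, P.Pr (fun w => X w = x) = 1 := by
  obtain ⟨w, hw⟩ := P.exists_p_ne
  have h1 := P.pv_sum (fun _ => ()) X hw
  rw [← h1]
  refine Finset.sum_congr rfl fun x _ => ?_
  unfold FP.pv
  rw [ce_unit]
  rfl

/-- **mean distance of the law of the top given the letter from its law without it** -/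
theorem tv_e {t1 t2 : ℝ} (h1 : ∀ x, P.Pr (fun w => X w = x) ≠ 0 → Tst (P.cond fun w => X w = x) R z t1)
    (h2 : Tst P R z t2) : P.E (fun w => ∑ x ∈ vals X, |P.pv z X w x - P.Pr (fun w => X w = x)|) ≤ t1 + t2 := by
  rw [FP.E_sum]
  have g1 : ∀ x ∈ vals X, P.E (fun w => |P.pv z X w x - P.Pr (fun w => X w = x)|) ≤
      P.Pr (fun w => X w = x) * (t1 + t2) := by
    intro x _
    by_cases hx : P.Pr (fun w => X w = x) = 0
    · rw [hx, zero_mul]
      refine le_of_eq ?_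
      have e1 : P.E (fun w => P.pv z X w x) = 0 := by
        unfold FP.pv
        rw [P.E_ce]
        exact hx
      have e2 : ∀ w, |P.pv z X w x - 0| = P.pv z X w x := fun w => by
        rw [sub_zero, abs_of_nonneg (P.pv_nonneg _ _ _ _)]
      simp only [e2]
      exact e1
    · have g2 := e_one (A := fun _ => True) hx (h1 x hx) h2 (fun _ _ _ => rfl)
      have e1 : P.E (fun w => ind True * |P.pv z X w x - P.Pr (fun w => X w = x)|) =
          P.E (fun w => |P.pv z X w x - P.Pr (fun w => X w = x)|) :=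
        P.E_congr fun w _ => by rw [ind_of trivial, one_mul]
      rw [e1] at g2
      exact g2
  refine (Finset.sum_le_sum g1).trans (le_of_eq ?_)
  rw [← Finset.sum_mul, sum_Pr, one_mul]

/-- a large logarithm -/
theorem log_big {m q e : ℝ} (hm : 0 ≤ m) (hq : 0 ≤ q) (he : 0 < e) (he1 : e ≤ 1) (h : e ≤ |Real.log (m / q)|) :
    e / 2 * m ≤ |m - q| ∧ e / 2 * q ≤ |m - q| := by
  have hq0 : 0 < q := by
    rcases hq.eq_or_lt with h1 | h1
    · rw [← h1, div_zero, Real.log_zero, abs_zero] at h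
      linarith
    · exact h1
  have hm0 : 0 < m := by
    rcases hm.eq_or_lt with h1 | h1
    · rw [← h1, zero_div, Real.log_zero, abs_zero] at h
      linarith
    · exact h1
  have key : ∀ a b : ℝ, 0 < a → 0 < b → e ≤ Real.log (a / b) → e / 2 * a ≤ a - b ∧ e / 2 * b ≤ a - b := by
    intro a b ha hb hl
    have h1 : Real.exp e * b ≤ a := by
      rw [← le_div_iff₀ hb]
      exact (Real.le_log_iff_exp_le (by positivity)).1 hl
    have h2 := Real.add_one_le_exp e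
    have h3 := exp_neg_le_lin he.le he1
    have h4 : Real.exp (-e) * (Real.exp e * b) = b := by
      rw [← mul_assoc, ← Real.exp_add, neg_add_cancel, Real.exp_zero, one_mul]
    have h5 : b ≤ Real.exp (-e) * a := by
      rw [← h4]
      exact mul_le_mul_of_nonneg_left h1 (Real.exp_pos _).le
    constructor <;> nlinarith
  rcases le_total 0 (Real.log (m / q)) with h1 | h1
  · rw [abs_of_nonneg h1] at h
    obtain ⟨g1, g2⟩ := key m q hm0 hq0 h
    have g3 : 0 ≤ m - q := le_trans (by positivity) g1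
    rw [abs_of_nonneg g3]
    exact ⟨g1, g2⟩
  · rw [abs_of_nonpos h1] at h
    have e1 : -Real.log (m / q) = Real.log (q / m) := by rw [← Real.log_inv, inv_div]
    rw [e1] at h
    obtain ⟨g1, g2⟩ := key q m hq0 hm0 h
    have g3 : 0 ≤ q - m := le_trans (by positivity) g1
    rw [abs_of_nonpos (by linarith), neg_sub]
    exact ⟨g2, g1⟩

theorem pv_cond {ι : Type*} {C : Om → Prop} {Z : Om → ι} (hC : P.Pr C ≠ 0) (X : Om → χ) (w : Om) (x : χ) :
    (P.cond C).pv Z X w x =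
      P.E (fun u => ind (C u ∧ Z u = Z w) * ind (X u = x)) / P.E (fun u => ind (C u ∧ Z u = Z w)) := by
  unfold FP.pv FP.ce FP.m
  rw [FP.cond_E hC, FP.cond_E hC, div_div_div_cancel_right₀ hC]
  congr 1
  · refine P.E_congr fun u _ => ?_
    rw [ind_and, mul_assoc]
  · exact P.E_congr fun u _ => (ind_and _ _).symm

/-- the same conditional law, two descriptions -/
theorem pv_two {ι ι' : Type*} {C1 C2 : Om → Prop} {Z1 : Om → ι} {Z2 : Om → ι'} (h1 : P.Pr C1 ≠ 0) (h2 : P.Pr C2 ≠ 0)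
    (X : Om → χ) {w : Om} (hcc : ∀ u, P.p u ≠ 0 → ((C1 u ∧ Z1 u = Z1 w) ↔ (C2 u ∧ Z2 u = Z2 w))) (x : χ) :
    (P.cond C1).pv Z1 X w x = (P.cond C2).pv Z2 X w x := by
  rw [pv_cond h1, pv_cond h2]
  congr 1
  · refine P.E_congr fun u hu => ?_
    rw [propext (hcc u hu)]
  · refine P.E_congr fun u hu => ?_
    rw [propext (hcc u hu)]

end gen

section cls

variable {K X β γ φ υ ι : Type} [Fintype K] [DecidableEq K] [Fintype X] [Fintype β] [Fintype φ] [Nonempty X] [Nonempty β]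
  {D : HD K X β γ φ} {al : ℝ} {h : D.Thick al} {N : Finset K → ℝ} {S : Finset (Finset K)}
  {U : Finset K → X → (K → β) → υ} {t : ℕ} {b c d : K} {w0 w1 : Pt K X β φ} {V : Pt K X β φ → Prop}
  {Typ : β → υ → Prop} {M L : ℝ} {W : Pt K X β φ → ι} {E0 : Pt K X β φ → Prop}

/-- what the near top `c` sees: event, own letter, letter of `d` -/
def TT (D : HD K X β γ φ) (U : Finset K → X → (K → β) → υ) (t : ℕ) (b d : K) (E0 : Pt K X β φ → Prop)
    (w0 w1 v : Pt K X β φ) : Prop := E0 v ∧ clsb U (pub0 D t U w0) b w0 v ∧ zf U d v = zf U d w1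

/-- the same with the top -/
def TX (D : HD K X β γ φ) (U : Finset K → X → (K → β) → υ) (t : ℕ) (b c d : K) (E0 : Pt K X β φ → Prop)
    (w0 w1 v : Pt K X β φ) : Prop := TT D U t b d E0 w0 w1 v ∧ v.2.2 c = w1.2.2 c

theorem TT_bb (w1 : Pt K X β φ) {v w : Pt K X β φ} (hv : TT D U t b d E0 w0 w1 v) (hw : TT D U t b d E0 w0 w1 w) :
    xc D U t {b, d} w v := by
  have h1 : (le (LL U) ∅ v, BB D t ∅ v) = (le (LL U) ∅ w, BB D t ∅ w) := hv.2.1.1.trans hw.2.1.1.symm
  have h2 := hv.2.2.trans hw.2.2.symm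
  rw [Prod.mk.injEq, BB_eq] at h1
  refine ⟨h1.1, ?_⟩
  rw [BB_eq]
  refine ⟨fun j hj => ?_, h1.2.2⟩
  rcases Finset.mem_insert.1 hj with h3 | h3
  · rw [h3]; exact hv.2.1.2.1.trans hw.2.1.2.1.symm
  · rw [Finset.mem_singleton.1 h3]; exact congrArg Prod.fst h2

theorem TT_fac (B : Bk h N S U t b c d) (hE : Fac (fun w : Pt K X β φ => w.1) E0) :
    Fac (fun w => (w.1, BB D t {b, d} w)) (TT D U t b d E0 w0 w1) := by
  intro v w hvw
  simp only [Prod.mk.injEq, BB_eq] at hvw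
  obtain ⟨h1, h2, h3⟩ := hvw
  have e1 : E0 v = E0 w := hE v w h1
  have e2 : clsb U (pub0 D t U w0) b w0 v = clsb U (pub0 D t U w0) b w0 w := by
    refine clsb_Ah B.dep (pub0_C w0) B.oth v w ?_
    unfold Ah
    simp only [Prod.mk.injEq, BB_eq]
    exact ⟨h1, fun j hj => h2 j (by rw [Finset.mem_singleton.1 hj]; simp), h3⟩
  have e3 : zf U d v = zf U d w := by
    unfold zf
    rw [Prod.mk.injEq]
    have h4 : v.2.1 d = w.2.1 d := h2 d (by simp)
    refine ⟨h4, ?_⟩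
    rw [h1]
    exact B.dep {d} w.1 v.2.1 w.2.1 (fun j hj => by rw [Finset.mem_singleton.1 hj]; exact h4) h3.2
  show (E0 v ∧ clsb U (pub0 D t U w0) b w0 v ∧ zf U d v = zf U d w1) =
    (E0 w ∧ clsb U (pub0 D t U w0) b w0 w ∧ zf U d w = zf U d w1)
  rw [e1, e2, e3]

theorem TT_ix (B : Bk h N S U t b c d) (hE : Fac (fun w : Pt K X β φ => w.1) E0) (hp : (D.P h t).p w1 ≠ 0)
    (hE1 : E0 w1) (hc : clsb U (pub0 D t U w0) b w0 w1) : SngA.Ix h U t {b, d} w1 (TT D U t b d E0 w0 w1) where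
  ev := fun v w hvw => by
    simp only [Prod.mk.injEq] at hvw
    exact TT_fac B hE v w (by rw [Prod.mk.injEq]; exact ⟨hvw.1, hvw.2.1⟩)
  self := ⟨hE1, hc, rfl⟩
  supp := hp
  sub := fun v hv => TT_bb w1 hv ⟨hE1, hc, rfl⟩

theorem TX_ix (B : Bk h N S U t b c d) (hE : Fac (fun w : Pt K X β φ => w.1) E0) (hp : (D.P h t).p w1 ≠ 0)
    (hE1 : E0 w1) (hc : clsb U (pub0 D t U w0) b w0 w1) : SngA.Ix h U t {b, d} w1 (TX D U t b c d E0 w0 w1) where
  ev := fun v w hvw => by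
    simp only [Prod.mk.injEq] at hvw
    have e1 := TT_fac (w0 := w0) (w1 := w1) B hE v w (by rw [Prod.mk.injEq]; exact ⟨hvw.1, hvw.2.1⟩)
    have e2 := congrFun hvw.2.2 c
    unfold tl at e2
    have hcb : univ.erase c ⊆ ({b, d} : Finset K) := by
      intro j hj
      rcases B.all j with h1 | h1 | h1
      · rw [h1]; simp
      · exact absurd h1 (Finset.mem_erase.1 hj).1
      · rw [h1]; simp
    rw [if_pos ⟨hcb, b, by simp, B.bc⟩, if_pos ⟨hcb, b, by simp, B.bc⟩] at e2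
    have e3 := Option.some.inj e2
    show (TT D U t b d E0 w0 w1 v ∧ v.2.2 c = w1.2.2 c) = (TT D U t b d E0 w0 w1 w ∧ w.2.2 c = w1.2.2 c)
    rw [e1, e3]
  self := ⟨⟨hE1, hc, rfl⟩, rfl⟩
  supp := hp
  sub := fun v hv => TT_bb w1 hv.1 ⟨hE1, hc, rfl⟩

/-- distance of the letter of `c` inside an event known at the other exact points -/
theorem ix_tst (B : Bk h N S U t b c d) {I : Finset K} (J : SngA.Ix h U t I w1 V) {j : K} (hj : j ∉ I) {Lt : ℝ}
    (hL : LX h U t I w1 V ≤ Lt) :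
    Tst ((D.P h t).cond V) (QX h U t I w1) (zf U j) (Real.sqrt (4 * N ∅ * (Lt + 1) / N {j})) := by
  have h1 := J.one B hj
  have hN0 := B.nn ∅ B.s0
  have hNj := B.n1 j
  have h2 : ((D.P h t).cond V).kl (QX h U t I w1) (zf U j) ≤ 2 * N ∅ * (Lt + 1) / N {j} := by
    rw [le_div_iff₀ hNj, mul_comm]
    exact h1.trans (mul_le_mul_of_nonneg_left (by linarith) (by linarith))
  have h3 := Tst.of_kl J.acX h2
  rw [show 2 * (2 * N ∅ * (Lt + 1) / N {j}) = 4 * N ∅ * (Lt + 1) / N {j} by ring] at h3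
  exact h3

/-- the letter of `c` does not see the point of `d` -/
theorem QX_zf (B : Bk h N S U t b c d) (hw1 : (D.P h t).p w1 ≠ 0) {A : Pt K X β φ → Prop} (hA : Fac (zf U c) A) :
    (QX h U t {b, d} w1).Pr A = (QB h U t b w1).Pr A := by
  classical
  set C : Pt K X β φ → Prop := fun v => v.2.1 d = w1.2.1 d with hC
  have e1 : xc D U t {b, d} w1 = fun v => xc D U t {b} w1 v ∧ C v := by
    funext v
    show (le (LL U) ∅ v = le (LL U) ∅ w1 ∧ BB D t {b, d} v = BB D t {b, d} w1) =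
      ((le (LL U) ∅ v = le (LL U) ∅ w1 ∧ BB D t {b} v = BB D t {b} w1) ∧ v.2.1 d = w1.2.1 d)
    rw [BB_eq, BB_eq]
    refine propext ⟨fun hh => ⟨⟨hh.1, fun j hj => hh.2.1 j (by rw [Finset.mem_singleton.1 hj]; simp), hh.2.2⟩,
      hh.2.1 d (by simp)⟩, fun hh => ⟨hh.1.1, fun j hj => ?_, hh.1.2.2⟩⟩
    rcases Finset.mem_insert.1 hj with h1 | h1
    · rw [h1]; exact hh.1.2.1 b (Finset.mem_singleton_self b)
    · rw [Finset.mem_singleton.1 h1]; exact hh.2
  have hx0 : (D.P h t).Pr (xc D U t {b} w1) ≠ 0 := xc_ne hw1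
  have hne : (D.P h t).Pr (fun v => xc D U t {b} w1 v ∧ C v) ≠ 0 :=
    (FP.Pr_pos_of (S := fun v => xc D U t {b} w1 v ∧ C v) hw1 ⟨xc_self U t {b} w1, rfl⟩).ne'
  have hC0 : (QB h U t b w1).Pr C ≠ 0 :=
    (FP.Pr_pos_of (S := C) ((FP.cond_p_ne hx0).2 ⟨xc_self U t {b} w1, hw1⟩) rfl).ne'
  have e2 : QX h U t {b, d} w1 = (QB h U t b w1).cond C := by
    unfold QX QB
    rw [FP.cond_cond hne, e1]
  have hind := cls_indep3 (h := h) (t := t) (K0 := {b}) d (V := xc D U t {b} w1) (xc_fac {b} w1 B.dep B.era)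
    (fun v w hv hw => hv.2.trans hw.2.symm) (xc_self U t {b} w1) hx0
  -- the letter of `c` in the class
  set A' : Pt K X β φ → Prop := fun v => A (v.1, Function.update w1.2.1 c (v.2.1 c), v.2.2) with hA'
  have hAA : ∀ v, (QB h U t b w1).p v ≠ 0 → A v = A' v := by
    intro v hv
    have h1 := (cond_supp hx0 hv).1.2
    rw [BB_eq] at h1
    refine hA v (v.1, Function.update w1.2.1 c (v.2.1 c), v.2.2) ?_
    unfold zf
    rw [Prod.mk.injEq]
    refine ⟨?_, ?_⟩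
    · show v.2.1 c = Function.update w1.2.1 c (v.2.1 c) c
      rw [Function.update_self]
    · refine B.dep {c} v.1 v.2.1 (Function.update w1.2.1 c (v.2.1 c)) (fun j hj => ?_) fun j => ?_
      · rw [Finset.mem_singleton.1 hj, Function.update_self]
      · by_cases hjc : j = c
        · subst hjc; rw [Function.update_self]
        · rw [Function.update_of_ne hjc]; exact h1.2.2 j
  have hA'f : ∀ v w : Pt K X β φ, v.1 = w.1 → v.2.1 c = w.2.1 c → A' v = A' w := by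
    intro v w h1 h2
    refine hA _ _ ?_
    unfold zf
    rw [Prod.mk.injEq]
    show Function.update w1.2.1 c (v.2.1 c) c = Function.update w1.2.1 c (w.2.1 c) c ∧
      U {c} v.1 (Function.update w1.2.1 c (v.2.1 c)) = U {c} w.1 (Function.update w1.2.1 c (w.2.1 c))
    rw [h1, h2]
    exact ⟨rfl, rfl⟩
  have e3 : ∀ R : FP (Pt K X β φ), R.Ac (QB h U t b w1) → R.Pr A = R.Pr A' := fun R hR =>
    R.E_congr fun v hv => by rw [hAA v (hR v hv)]
  rw [e2, e3 _ (FP.cond_ac _ _), e3 _ (FP.Ac.refl _)]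
  refine cond_ind hind (A := C) (fun v w hvw => ?_) hC0 (g := fun v => ind (A' v)) (fun v w hvw => ?_)
  · have h1 : v.2.1 d = w.2.1 d := hvw
    show (v.2.1 d = w1.2.1 d) = (w.2.1 d = w1.2.1 d)
    rw [h1]
  · simp only [Prod.mk.injEq] at hvw
    have h1 := congrFun hvw.2.1 c
    simp only [if_neg B.cd] at h1
    have h2 := Option.some.inj h1
    show ind (A' v) = ind (A' w)
    rw [hA'f v w hvw.1 h2]

theorem TT_ne (hp : (D.P h t).p w1 ≠ 0) (hE1 : E0 w1) (hc : clsb U (pub0 D t U w0) b w0 w1) :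
    (D.P h t).Pr (TT D U t b d E0 w0 w1) ≠ 0 :=
  (FP.Pr_pos_of (S := TT D U t b d E0 w0 w1) hp ⟨hE1, hc, rfl⟩).ne'

theorem E0_ne (hp : (D.P h t).p w1 ≠ 0) (hE1 : E0 w1) : (D.P h t).Pr E0 ≠ 0 := (FP.Pr_pos_of (S := E0) hp hE1).ne'

/-- law of one top given all letters, inside the event -/
noncomputable def mI (h : D.Thick al) (t : ℕ) (E0 : Pt K X β φ → Prop) (W : Pt K X β φ → ι) (i : K) (w : Pt K X β φ)
    (x : φ) : ℝ := ((D.P h t).cond E0).pv W (fun w => w.2.2 i) w x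

/-- own law of one top, inside the event -/
noncomputable def qI (h : D.Thick al) (U : Finset K → X → (K → β) → υ) (t : ℕ) (E0 : Pt K X β φ → Prop) (i : K)
    (w : Pt K X β φ) (x : φ) : ℝ := ((D.P h t).cond E0).pv (Zo D U t i) (fun w => w.2.2 i) w x

/-- law of the near top given all letters -/
theorem mC_eq (B : Bk h N S U t b c d) (Hw : Wb h U t b c d w0 W) (hp : (D.P h t).p w1 ≠ 0) (hE1 : E0 w1)
    (hc : clsb U (pub0 D t U w0) b w0 w1) {w2 : Pt K X β φ} (h2 : TT D U t b d E0 w0 w1 w2) (hp2 : (D.P h t).p w2 ≠ 0)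
    (x : φ) : mI h t E0 W c w2 x =
      ((D.P h t).cond (TT D U t b d E0 w0 w1)).pv (zf U c) (fun w => w.2.2 c) w2 x := by
  refine pv_two (E0_ne hp hE1) (TT_ne hp hE1 hc) (fun w : Pt K X β φ => w.2.2 c) (fun u hu => ?_) x
  constructor
  · rintro ⟨g1, g2⟩
    have g3 : clsb U (pub0 D t U w0) b w0 u := (iff_of_eq (Hw.cls B u w2 g2)).2 h2.2.1
    have g4 := (Hw.iff B hu hp2 g3 h2.2.1).1 g2
    exact ⟨⟨g1, g3, g4.2.trans h2.2.2⟩, g4.1⟩
  · rintro ⟨g1, g2⟩
    exact ⟨g1.1, (Hw.iff B hu hp2 g1.2.1 h2.2.1).2 ⟨g2, g1.2.2.trans h2.2.2.symm⟩⟩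

/-- own law of the near top -/
theorem qC_eq (B : Bk h N S U t b c d) (hp : (D.P h t).p w1 ≠ 0) (hE1 : E0 w1)
    (hc : clsb U (pub0 D t U w0) b w0 w1) {w2 : Pt K X β φ} (h2 : TT D U t b d E0 w0 w1 w2) (x : φ) :
    qI h U t E0 c w2 x =
      ((D.P h t).cond (TT D U t b d E0 w0 w1)).Pr (fun w => w.2.2 c = x) := by
  have e1 : qI h U t E0 c w2 x =
      ((D.P h t).cond (TT D U t b d E0 w0 w1)).pv (fun _ => ()) (fun w => w.2.2 c) w2 x := by
    refine pv_two (E0_ne hp hE1) (TT_ne hp hE1 hc) (fun w : Pt K X β φ => w.2.2 c) (fun u hu => ?_) x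
    constructor
    · rintro ⟨g1, g2⟩
      have g3 : clsb U (pub0 D t U w0) b w0 u := (iff_of_eq (cls_Zc B u w2 g2)).2 h2.2.1
      exact ⟨⟨g1, g3, ((fibC B g3 h2.2.1).1 g2).trans h2.2.2⟩, rfl⟩
    · rintro ⟨g1, _⟩
      exact ⟨g1.1, (fibC B g1.2.1 h2.2.1).2 (g1.2.2.trans h2.2.2.symm)⟩
  rw [e1]
  unfold FP.pv
  rw [ce_unit]
  rfl

/-- the near top is abnormal for its missing letter -/
def bigC (h : D.Thick al) (U : Finset K → X → (K → β) → υ) (t : ℕ) (E0 : Pt K X β φ → Prop) (W : Pt K X β φ → ι) (e : ℝ)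
    (c : K) (w : Pt K X β φ) : Prop :=
  e ≤ |Real.log (mI h t E0 W c w (w.2.2 c) / qI h U t E0 c w (w.2.2 c))|

theorem TX_cond (w1 : Pt K X β φ) (hX : (D.P h t).Pr (TX D U t b c d E0 w0 w1) ≠ 0) :
    ((D.P h t).cond (TT D U t b d E0 w0 w1)).cond (fun w => w.2.2 c = w1.2.2 c) =
      (D.P h t).cond (TX D U t b c d E0 w0 w1) := FP.cond_cond hX

/-- bound of one row -/
noncomputable def eS1 (N : Finset K → ℝ) (c : K) (eS Lt : ℝ) : ℝ := 5 / eS * Real.sqrt (4 * N ∅ * (Lt + 1) / N {c})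

/-- **class mass of the letters of `c` for which one value of the near top is abnormal** -/
theorem near_mass (B : Bk h N S U t b c d) (hE : Fac (fun w : Pt K X β φ => w.1) E0) (Hw : Wb h U t b c d w0 W)
    (hp : (D.P h t).p w1 ≠ 0) (hE1 : E0 w1) (hc : clsb U (pub0 D t U w0) b w0 w1) {Lt eS : ℝ} (he : 0 < eS) (he1 : eS ≤ 1)
    (hL : LX h U t {b, d} w1 (TX D U t b c d E0 w0 w1) ≤ Lt) :
    (QB h U t b w1).Pr (fun v => ∃ w2, (D.P h t).p w2 ≠ 0 ∧ TX D U t b c d E0 w0 w1 w2 ∧ bigC h U t E0 W eS c w2 ∧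
      zf U c w2 = zf U c v) ≤ eS1 N c eS Lt := by
  classical
  set tau := Real.sqrt (4 * N ∅ * (Lt + 1) / N {c}) with htau
  have JT := TT_ix (b := b) (d := d) (E0 := E0) (w0 := w0) B hE hp hE1 hc
  have JX := TX_ix (b := b) (c := c) (d := d) (E0 := E0) (w0 := w0) B hE hp hE1 hc
  have hcI : c ∉ ({b, d} : Finset K) := by
    simp only [Finset.mem_insert, Finset.mem_singleton, not_or]
    exact ⟨B.bc.symm, B.cd⟩
  have hXne := JX.ne
  -- the event without the top has the smaller surprise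
  have hLT : LX h U t {b, d} w1 (TT D U t b d E0 w0 w1) ≤ Lt := by
    refine le_trans ?_ hL
    have h0 : 0 < (QX h U t {b, d} w1).Pr (TX D U t b c d E0 w0 w1) :=
      lt_of_le_of_ne ((QX h U t {b, d} w1).Pr_nonneg _) JX.neX.symm
    have h2 : (QX h U t {b, d} w1).Pr (TX D U t b c d E0 w0 w1) ≤ (QX h U t {b, d} w1).Pr (TT D U t b d E0 w0 w1) :=
      (QX h U t {b, d} w1).Pr_mono fun v _ hv => hv.1
    unfold LX
    exact Real.log_le_log (one_div_pos.2 (lt_of_lt_of_le h0 h2)) (one_div_le_one_div_of_le h0 h2)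
  have t2 := ix_tst B JT hcI hLT
  have t1 := ix_tst B JX hcI hL
  rw [← TX_cond w1 hXne] at t1
  set P' := (D.P h t).cond (TT D U t b d E0 w0 w1) with hP'
  have hq0 : P'.Pr (fun w => w.2.2 c = w1.2.2 c) ≠ 0 := by
    have h1 : P'.p w1 ≠ 0 := (FP.cond_p_ne JT.ne).2 ⟨JT.self, hp⟩
    exact (FP.Pr_pos_of (S := fun w : Pt K X β φ => w.2.2 c = w1.2.2 c) h1 rfl).ne'
  set A : Pt K X β φ → Prop := fun v => ∃ w2, (D.P h t).p w2 ≠ 0 ∧ TX D U t b c d E0 w0 w1 w2 ∧ bigC h U t E0 W eS c w2 ∧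
      zf U c w2 = zf U c v with hA
  have fA : Fac (zf U c) A := by
    intro v w hvw
    have e : zf U c v = zf U c w := hvw
    show (∃ w2, _ ∧ _ ∧ _ ∧ zf U c w2 = zf U c v) = (∃ w2, _ ∧ _ ∧ _ ∧ zf U c w2 = zf U c w)
    rw [e]
  have hAe : ∀ w, P'.p w ≠ 0 → A w → eS / 2 * P'.Pr (fun w => w.2.2 c = w1.2.2 c) ≤
      |P'.pv (zf U c) (fun w => w.2.2 c) w (w1.2.2 c) - P'.Pr (fun w => w.2.2 c = w1.2.2 c)| := by
    rintro w hw ⟨w2, g1, g2, g3, g4⟩
    unfold bigC at g3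
    rw [mC_eq B Hw hp hE1 hc g2.1 g1, qC_eq B hp hE1 hc g2.1, g2.2] at g3
    have e1 : P'.pv (zf U c) (fun w => w.2.2 c) w2 (w1.2.2 c) = P'.pv (zf U c) (fun w => w.2.2 c) w (w1.2.2 c) :=
      P'.pv_fac (zf U c) (fun w => w.2.2 c) (w1.2.2 c) w2 w g4
    rw [← hP', e1] at g3
    exact (log_big (P'.pv_nonneg _ _ _ _) (P'.Pr_nonneg _) he he1 g3).2
  have k1 := mass_e (R := QX h U t {b, d} w1) (z := zf U c) (X := fun w : Pt K X β φ => w.2.2 c)
    (x := w1.2.2 c) (half_pos he) hq0 t1 t2 fA hAe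
  rw [QX_zf B hp fA] at k1
  refine k1.trans ?_
  unfold eS1
  rw [← htau]
  have h0 : 0 ≤ tau := Real.sqrt_nonneg _
  have e1 : (tau + tau) / (eS / 2) = 4 / eS * tau := by
    field_simp
    ring
  rw [e1]
  have e2 : tau ≤ 1 / eS * tau := by
    have : 1 ≤ 1 / eS := by rw [le_div_iff₀ he, one_mul]; exact he1
    nlinarith
  have e3 : 5 / eS * tau = 4 / eS * tau + 1 / eS * tau := by ring
  rw [e3]
  linarith

theorem QB_cls (B : Bk h N S U t b c d) (I : Ib h U t b w0 V) (hc : clsb U (pub0 D t U w0) b w0 w1) :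
    QB h U t b w1 = QB h U t b w0 := QX_mv (I := {b}) ((I.cls B).inx hc)

theorem typ_row {w2 : Pt K X β φ} (ht1 : Typ (w1.2.1 d) (U {d} w1.1 w1.2.1)) (ht2 : Typ (w2.2.1 d) (U {d} w2.1 w2.2.1))
    (hr : (w2.2.1 d, yd U Typ c d w2) = (w1.2.1 d, yd U Typ c d w1)) :
    zf U d w2 = zf U d w1 ∧ w2.2.2 c = w1.2.2 c := by
  unfold yd at hr
  simp only [Prod.mk.injEq] at hr
  refine ⟨?_, hr.2.2⟩
  have h1 := hr.2.1
  unfold tru at h1
  rw [if_pos ht1, if_pos ht2] at h1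
  unfold zf
  rw [Prod.mk.injEq]
  exact ⟨hr.1, Option.some.inj h1⟩

/-- **A NEAR TOP ABNORMAL FOR ITS MISSING LETTER, under an event of the exact vertex** -/
theorem near_S (B : Bk h N S U t b c d) (I : Ib h U t b w0 V) (hE : Fac (fun w : Pt K X β φ => w.1) E0)
    (hVE : ∀ v, V v → E0 v) (Hw : Wb h U t b c d w0 W) (hM0 : 0 ≤ M)
    (hM : ∀ c', ∃ s : Finset υ, (s.card : ℝ) ≤ M ∧ ∀ u, Typ c' u → u ∈ s) (hL : Lb h U t b w0 V ≤ L) {Lt eS : ℝ}
    (he : 0 < eS) (he1 : eS ≤ 1) :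
    ((D.P h t).cond V).Pr (fun w => bigC h U t E0 W eS c w ∧ Typ (w.2.1 d) (U {d} w.1 w.2.1) ∧
      LX h U t {b, d} w (TX D U t b c d E0 w0 w) ≤ Lt) ≤ 2 * klet N al M c L + 2 * eS1 N c eS Lt := by
  classical
  have h0 : 0 ≤ eS1 N c eS Lt := mul_nonneg (by positivity) (Real.sqrt_nonneg _)
  refine rel_far' (Typ := Typ) B I hM0 hM hL
    (G := fun r z => ∃ w1, (D.P h t).p w1 ≠ 0 ∧ E0 w1 ∧ clsb U (pub0 D t U w0) b w0 w1 ∧
      (w1.2.1 d, yd U Typ c d w1) = r ∧ Typ (w1.2.1 d) (U {d} w1.1 w1.2.1) ∧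
      LX h U t {b, d} w1 (TX D U t b c d E0 w0 w1) ≤ Lt ∧ bigC h U t E0 W eS c w1 ∧ zf U c w1 = z)
    (fun w hpw hVw hA => ⟨w, hpw, hVE w hVw, I.sub w hVw, rfl, hA.2.1, hA.2.2, hA.1, rfl⟩) h0 ?_
  rintro w hpw hVw ⟨_, w1, p1, e1, c1, r1, t1, l1, s1, rfl⟩
  have k1 := near_mass B hE Hw p1 e1 c1 he he1 l1
  rw [QB_cls B I c1] at k1
  refine le_trans (FP.Pr_mono _ fun v _ hv => ?_) k1
  obtain ⟨w2, p2, e2, c2, r2, t2, l2, s2, z2⟩ := hv
  obtain ⟨g1, g2⟩ := typ_row (c := c) t1 t2 (r2.trans r1.symm)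
  exact ⟨w2, p2, ⟨⟨e2, c2, g1⟩, g2⟩, s2, z2⟩

/-! ### the surprise of the row -/

theorem TX_al (B : Bk h N S U t b c d) (hE : Fac (fun w : Pt K X β φ => w.1) E0) (hp : (D.P h t).p w1 ≠ 0)
    (hE1 : E0 w1) (hc : clsb U (pub0 D t U w0) b w0 w1) :
    al ≤ ((D.P h t).cond (TT D U t b d E0 w0 w1)).Pr (fun w => w.2.2 c = w1.2.2 c) := by
  classical
  have JT := TT_ix (b := b) (d := d) (E0 := E0) (w0 := w0) B hE hp hE1 hc
  have hw : ((D.P h t).cond (TT D U t b d E0 w0 w1)).p w1 ≠ 0 := (FP.cond_p_ne JT.ne).2 ⟨JT.self, hp⟩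
  have k1 := thickF (h := h) (V := TT D U t b d E0 w0 w1) (w0 := w1) (K0 := {b, d}) (c := d) (d := c)
    (TT_fac B hE) (fun v w hv hw => (TT_bb w1 hv hw).2) JT.self JT.ne B.cd.symm (fun j h1 h2 => by
      rcases B.all j with h3 | h3 | h3
      · rw [h3]; simp
      · exact absurd h3 h2
      · exact absurd h3 h1) (hal_one h b) U (fun _ _ => True) hw
  set P' := (D.P h t).cond (TT D U t b d E0 w0 w1) with hP'
  have e1 : P'.m (fun w => zc U (fun _ _ => True) d w1.2.1 w.1 (w.2.1 d)) w1 = 1 := by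
    unfold FP.m
    rw [P'.E_congr (g := fun _ => 1) fun u hu => ?_, P'.E_const]
    have h1 := (cond_supp JT.ne hu).1
    refine ind_of ?_
    have h2 := (TT_bb w1 h1 JT.self).2
    rw [BB_eq] at h2
    have h3 : u.2.1 d = w1.2.1 d := h2.1 d (by simp)
    have h4 : U {d} u.1 w1.2.1 = U {d} w1.1 w1.2.1 := by
      have h5 := congrArg Prod.snd h1.2.2
      have h6 : U {d} u.1 u.2.1 = U {d} w1.1 w1.2.1 := h5
      rw [← h6]
      exact B.dep {d} u.1 w1.2.1 u.2.1 (fun j hj => by rw [Finset.mem_singleton.1 hj]; exact h3.symm)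
        fun j => (h2.2.2 j).symm
    show zc U (fun _ _ => True) d w1.2.1 u.1 (u.2.1 d) = zc U (fun _ _ => True) d w1.2.1 w1.1 (w1.2.1 d)
    unfold zc
    rw [h3, Function.update_eq_self, h4]
  rw [e1, mul_one] at k1
  refine k1.trans (P'.E_mono fun u _ => ind_mono fun hu => ?_)
  have h1 := (Prod.mk.inj hu).1
  unfold fc zc tru at h1
  rw [if_pos trivial, if_pos trivial] at h1
  exact Option.some.inj h1

theorem LX_TX (B : Bk h N S U t b c d) (hE : Fac (fun w : Pt K X β φ => w.1) E0) (hp : (D.P h t).p w1 ≠ 0)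
    (hE1 : E0 w1) (hc : clsb U (pub0 D t U w0) b w0 w1) : LX h U t {b, d} w1 (TX D U t b c d E0 w0 w1) ≤
    LX h U t {b, d} w1 (TT D U t b d E0 w0 w1) + Real.log (1 / al) := by
  have JT := TT_ix (b := b) (d := d) (E0 := E0) (w0 := w0) B hE hp hE1 hc
  have JX := TX_ix (b := b) (c := c) (d := d) (E0 := E0) (w0 := w0) B hE hp hE1 hc
  have k1 := TX_al B hE hp hE1 hc
  rw [← JT.condX] at k1
  unfold FP.Pr at k1
  rw [FP.cond_E JT.neX] at k1
  set Q := QX h U t {b, d} w1 with hQ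
  have hT0 : 0 < Q.Pr (TT D U t b d E0 w0 w1) := lt_of_le_of_ne (Q.Pr_nonneg _) JT.neX.symm
  have hX0 : 0 < Q.Pr (TX D U t b c d E0 w0 w1) := lt_of_le_of_ne (Q.Pr_nonneg _) JX.neX.symm
  have e1 : Q.E (fun w => ind (TT D U t b d E0 w0 w1 w) * ind (w.2.2 c = w1.2.2 c)) = Q.Pr (TX D U t b c d E0 w0 w1) :=
    Q.E_congr fun w _ => (ind_and _ _).symm
  rw [e1, le_div_iff₀ hT0] at k1
  have hal := h.pos
  unfold LX
  rw [← Real.log_mul (by positivity) (by positivity)]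
  refine Real.log_le_log (by positivity) ?_
  rw [div_mul_div_comm, one_mul, one_div_le_one_div hX0 (by positivity)]
  linarith

/-- the law of the class, with the event -/
def V0 (D : HD K X β γ φ) (U : Finset K → X → (K → β) → υ) (t : ℕ) (b : K) (E0 : Pt K X β φ → Prop)
    (w0 v : Pt K X β φ) : Prop := E0 v ∧ clsb U (pub0 D t U w0) b w0 v

theorem V0_ib (B : Bk h N S U t b c d) (hE : Fac (fun w : Pt K X β φ => w.1) E0) (hw0 : (D.P h t).p w0 ≠ 0) (h0 : E0 w0) :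
    Ib h U t b w0 (V0 D U t b E0 w0) where
  fac := fun v w hvw => by
    have e1 : clsb U (pub0 D t U w0) b w0 v = clsb U (pub0 D t U w0) b w0 w := clsb_Ah B.dep (pub0_C w0) B.oth v w hvw
    have e2 : E0 v = E0 w := by
      unfold Ah at hvw
      exact hE v w (Prod.mk.inj hvw).1
    show (E0 v ∧ clsb U (pub0 D t U w0) b w0 v) = (E0 w ∧ clsb U (pub0 D t U w0) b w0 w)
    rw [e1, e2]
  self := ⟨h0, (clsb_facts (b := b) (pub0_C w0) rfl).1⟩
  supp := hw0
  sub := fun _ hv => hv.2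

/-- the letter of `d` is not much less probable inside the class and the event -/
def ptyp (h : D.Thick al) (U : Finset K → X → (K → β) → υ) (t : ℕ) (b d : K) (E0 : Pt K X β φ → Prop)
    (w0 w : Pt K X β φ) : Prop :=
  (QB h U t b w0).Pr (V0 D U t b E0 w0) / 2 ≤ (QB h U t b w0).ce (zf U d) (fun u => ind (V0 D U t b E0 w0 u)) w

theorem ptyp_fac : Fac (zf U d) (ptyp h U t b d E0 w0) := by
  intro v w hvw
  have e := (QB h U t b w0).ce_fac (zf U d) (fun u => ind (V0 D U t b E0 w0 u)) v w hvw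
  show ((QB h U t b w0).Pr (V0 D U t b E0 w0) / 2 ≤ _) = ((QB h U t b w0).Pr (V0 D U t b E0 w0) / 2 ≤ _)
  rw [e]

/-- **atypical pairs of letters** -/
theorem ptyp_bad (B : Bk h N S U t b c d) (I : Ib h U t b w0 V) (hE : Fac (fun w : Pt K X β φ => w.1) E0)
    (hVE : ∀ v, V v → E0 v) {L1 : ℝ} (hL : Lb h U t b w0 V ≤ L) (hL1 : Lb h U t b w0 (V0 D U t b E0 w0) ≤ L1) :
    ((D.P h t).cond V).Pr (fun w => ¬ ptyp h U t b d E0 w0 w) ≤
      2 * N ∅ * (L + 1) / N {d} + 4 * Real.sqrt (4 * N ∅ * (L1 + 1) / N {d}) := by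
  have I0 := V0_ib (E0 := E0) B hE I.supp (hVE w0 I.self)
  have hN0 := B.nn ∅ B.s0
  have hNd := B.n1 d
  set Q := QB h U t b w0 with hQ
  set A : Pt K X β φ → Prop := fun w => ¬ ptyp h U t b d E0 w0 w with hA
  have fA : Fac (zf U d) A := fun v w hvw => by
    show (¬ ptyp h U t b d E0 w0 v) = (¬ ptyp h U t b d E0 w0 w)
    rw [ptyp_fac (h := h) (b := b) (E0 := E0) (w0 := w0) v w hvw]
  -- from the event to the class
  have h1 := fwd (Q := (D.P h t).cond V) (R := Q) I.acB (zf U d) (fun _ => ()) (fun _ => ())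
    (psi := fun _ v => ind (A v)) (fun _ v w hvw => by
      show ind (A v) = ind (A w)
      rw [fA v w (Prod.mk.inj hvw).1]) (fun _ _ => ind_nonneg _) (fun _ _ => ind_le_one _)
  have e1 : ((D.P h t).cond V).E (fun w => Q.ce (fun _ => ()) (fun v => ind (A v)) w) = Q.Pr A := by
    rw [FP.E_congr _ fun w _ => ce_unit _ _, FP.E_const]
    rfl
  have e2 := I_unit ((D.P h t).cond V) (zf U d)
  rw [e1, e2, klc_one I.acB] at h1
  have h2 : ((D.P h t).cond V).kl Q (zf U d) ≤ 2 * N ∅ * (L + 1) / N {d} := by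
    rw [le_div_iff₀ hNd, mul_comm]
    have h3 := let_one B.swap I
    exact h3.trans (mul_le_mul_of_nonneg_left (by linarith) (by linarith))
  -- the class and the event
  have h4 : Tst ((D.P h t).cond (V0 D U t b E0 w0)) Q (zf U d) (Real.sqrt (4 * N ∅ * (L1 + 1) / N {d})) := by
    have h5 : ((D.P h t).cond (V0 D U t b E0 w0)).kl Q (zf U d) ≤ 2 * N ∅ * (L1 + 1) / N {d} := by
      rw [le_div_iff₀ hNd, mul_comm]
      have h3 := let_one B.swap I0
      exact h3.trans (mul_le_mul_of_nonneg_left (by linarith) (by linarith))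
    have h6 := Tst.of_kl I0.acB h5
    rw [show 2 * (2 * N ∅ * (L1 + 1) / N {d}) = 4 * N ∅ * (L1 + 1) / N {d} by ring] at h6
    exact h6
  have h5 := h4.mass fA
  have h6 : ((D.P h t).cond (V0 D U t b E0 w0)).Pr A ≤ 1 / 2 * Q.Pr A := by
    have hv0 : 0 < Q.Pr (V0 D U t b E0 w0) := lt_of_le_of_ne (Q.Pr_nonneg _) I0.neB.symm
    rw [← I0.condB]
    show (Q.cond (V0 D U t b E0 w0)).E (fun w => ind (A w)) ≤ _
    rw [FP.cond_E I0.neB, div_le_iff₀ hv0]
    have e3 : Q.E (fun w => ind (V0 D U t b E0 w0 w) * ind (A w)) =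
        Q.E (fun w => ind (A w) * Q.ce (zf U d) (fun u => ind (V0 D U t b E0 w0 u)) w) := by
      rw [Q.E_mul_ce (Fac.ind fun v w hvw => by rw [fA v w hvw])]
      exact Q.E_congr fun w _ => mul_comm _ _
    rw [e3]
    have e4 : 1 / 2 * Q.Pr A * Q.Pr (V0 D U t b E0 w0) =
        Q.E (fun w => Q.Pr (V0 D U t b E0 w0) / 2 * ind (A w)) := by
      rw [Q.E_smul]
      show _ = Q.Pr (V0 D U t b E0 w0) / 2 * Q.Pr A
      ring
    rw [e4]
    refine Q.E_mono fun w _ => ?_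
    by_cases hAw : A w
    · rw [ind_of hAw, one_mul, mul_one]
      have : ¬ (Q.Pr (V0 D U t b E0 w0) / 2 ≤ Q.ce (zf U d) (fun u => ind (V0 D U t b E0 w0 u)) w) := hAw
      exact (not_le.1 this).le
    · rw [ind_not hAw, zero_mul, mul_zero]
  have h7 : Q.Pr A ≤ 2 * Real.sqrt (4 * N ∅ * (L1 + 1) / N {d}) := by linarith
  show ((D.P h t).cond V).E (fun w => ind (A w)) ≤ _
  linarith

end cls

end Pool.Agent.GMH.SngM
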