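import Pool.Agent.GMH.SngT
import Pool.Agent.GMH.SngM

/-!
# GMH/SngF (helper18): CLASS FACTS OF KIND S AT EVERY STATE (frame `Bk`)

`VH t' univ w0 V` = event `V` of (hidden point, exact points `I`) in the saturated class, with the cells of the time `t'` of all
points.
* `Uns e A` : `A` does not see the point `e`; `pt_drop`, `VH_drops` : such points can be dropped from the half cells,
  `ex_drop` : may be exact;
* `let_lin` : linear rarity of a letter (`LinR.fD`), `let_side` : against the side letters with their top (`LinR.bD`);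
* `face_lin` : linear rarity of two letters with their top (`LinR.fC`), `face_let` : against the letter of the third vertex
  (`LinR.bC`), `face_let'` : back.
-/

set_option autoImplicit false
set_option linter.unusedSectionVars false

namespace Pool.Agent.GMH.SngF

open Finset Pool.Agent.PWZ Pool.Agent.M3 Pool.Agent.GM Pool.Agent.GM.Harm Pool.Agent.GMH Pool.Agent.GMH.RarX
open Pool.Agent.GMH.SngA

section cls

variable {K X β γ φ υ : Type} [Fintype K] [DecidableEq K] [Fintype X] [Fintype β] [Fintype φ] [Nonempty X] [Nonempty β]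
  {D : HD K X β γ φ} {al : ℝ} {h : D.Thick al} {N : Finset K → ℝ} {S : Finset (Finset K)}
  {U : Finset K → X → (K → β) → υ} {t t' : ℕ} {b c d : K} {w0 : Pt K X β φ} {V : Pt K X β φ → Prop}
  {Typ : β → υ → Prop} {M L : ℝ} {I Jc : Finset K} {e : K} {A : Pt K X β φ → Prop} {G : β → Prop}

/-- `A` does not see the point `e` -/
def Uns (h : D.Thick al) (t : ℕ) (V : Pt K X β φ → Prop) (e : K) (A : Pt K X β φ → Prop) : Prop :=
  ∀ v w, (D.P h t).p v ≠ 0 → (D.P h t).p w ≠ 0 → V v → V w → v.1 = w.1 → (∀ j, j ≠ e → v.2.1 j = w.2.1 j) →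
    v.2.2 e = w.2.2 e → A v → A w

theorem Uns.and {A B : Pt K X β φ → Prop} (hA : Uns h t V e A) (hB : Uns h t V e B) : Uns h t V e (fun v => A v ∧ B v) :=
  fun v w a b c1 c2 c3 c4 c5 hh => ⟨hA v w a b c1 c2 c3 c4 c5 hh.1, hB v w a b c1 c2 c3 c4 c5 hh.2⟩

theorem Uns.mono {V' : Pt K X β φ → Prop} (hA : Uns h t V e A) (hV : ∀ v, V' v → V v) : Uns h t V' e A :=
  fun v w a b c1 c2 c3 c4 c5 hh => hA v w a b (hV v c1) (hV w c2) c3 c4 c5 hh

theorem HJ_uns (he : e ∉ Jc) : Uns h t V e (HJ D t' Jc w0) := by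
  intro v w _ _ _ _ _ h2 _ hv j hj
  rw [← h2 j (fun hh => he (hh ▸ hj))]
  exact hv j hj

/-- an event of the hidden point -/
theorem hid_uns (hA : ∀ v w : Pt K X β φ, v.1 = w.1 → A v → A w) : Uns h t V e A :=
  fun v w _ _ _ _ h1 _ _ hv => hA v w h1 hv

/-- **the point `e` is independent of the events which do not see it** -/
theorem pt_drop (J : SngA.Ix h U t I w0 V) (hI : ∀ l : K, ¬ univ.erase l ⊆ I) (hA : Uns h t V e A) :
    ((D.P h t).cond V).Pr (fun v => G (v.2.1 e) ∧ A v) =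
      ((D.P h t).cond V).Pr (fun v => G (v.2.1 e)) * ((D.P h t).cond V).Pr A := by
  classical
  have hnod : ∀ v w, V v → V w → BB D t I v = BB D t I w := fun v w hv hw => (J.sub v hv).2.trans (J.sub w hw).2.symm
  have hind := cls_indep3 (h := h) (t := t) (K0 := I) e (J.fac hI) hnod J.self J.ne
  set A1 : Pt K X β φ → Prop := fun p => ∃ v, (D.P h t).p v ≠ 0 ∧ V v ∧ v.1 = p.1 ∧ (∀ j, j ≠ e → v.2.1 j = p.2.1 j) ∧
    v.2.2 e = p.2.2 e ∧ A v with hA1
  have e1 : ∀ v, ((D.P h t).cond V).p v ≠ 0 → A v = A1 v := by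
    intro v hv
    obtain ⟨h1, h2⟩ := cond_supp J.ne hv
    refine propext ⟨fun hh => ⟨v, h2, h1, rfl, fun _ _ => rfl, rfl, hh⟩, ?_⟩
    rintro ⟨u, a1, a2, a3, a4, a5, a6⟩
    exact hA u v a1 h2 a2 h1 a3 a4 a5 a6
  have h4 := hind (fun v => ind (G (v.2.1 e))) (fun v => ind (A1 v))
    (Fac.ind fun v w hvw => by
      have h1 : v.2.1 e = w.2.1 e := hvw
      show G (v.2.1 e) ↔ G (w.2.1 e)
      rw [h1]) (Fac.ind fun v w hvw => by
      simp only [Prod.mk.injEq] at hvw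
      obtain ⟨g1, g2, g3⟩ := hvw
      have g4 : ∀ j, j ≠ e → v.2.1 j = w.2.1 j := by
        intro j hj
        have g5 := congrFun g2 j
        rw [if_neg hj, if_neg hj] at g5
        exact Option.some.inj g5
      show A1 v ↔ A1 w
      constructor
      · rintro ⟨u, a1, a2, a3, a4, a5, a6⟩
        exact ⟨u, a1, a2, a3.trans g1, fun j hj => (a4 j hj).trans (g4 j hj), a5.trans g3, a6⟩
      · rintro ⟨u, a1, a2, a3, a4, a5, a6⟩
        exact ⟨u, a1, a2, a3.trans g1.symm, fun j hj => (a4 j hj).trans (g4 j hj).symm, a5.trans g3.symm, a6⟩)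
  have h5 : ((D.P h t).cond V).E (fun v => ind (G (v.2.1 e)) * ind (A1 v)) =
      ((D.P h t).cond V).E (fun v => ind (G (v.2.1 e))) * ((D.P h t).cond V).E (fun v => ind (A1 v)) := h4
  unfold FP.Pr
  rw [show ((D.P h t).cond V).E (fun v => ind (G (v.2.1 e) ∧ A v)) =
      ((D.P h t).cond V).E (fun v => ind (G (v.2.1 e)) * ind (A1 v)) from
      FP.E_congr _ fun v hv => by rw [e1 v hv, ind_and],
    show ((D.P h t).cond V).E (fun v => ind (A v)) = ((D.P h t).cond V).E (fun v => ind (A1 v)) from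
      FP.E_congr _ fun v hv => by rw [e1 v hv]]
  exact h5

theorem cond_Pr {P : FP (Pt K X β φ)} {C : Pt K X β φ → Prop} (hC : P.Pr C ≠ 0) (A : Pt K X β φ → Prop) :
    (P.cond C).Pr A = P.Pr (fun v => C v ∧ A v) / P.Pr C := by
  have h1 := FP.cond_E (P := P) hC (fun v => ind (A v))
  show (P.cond C).E (fun v => ind (A v)) = _
  rw [h1]
  congr 1
  exact P.E_congr fun v _ => (ind_and _ _).symm

/-- the same inside the half cells of the other points -/
theorem pt_cond (J : SngA.Ix h U t I w0 V) (hI : ∀ l : K, ¬ univ.erase l ⊆ I) (hG : G (w0.2.1 e)) (he : e ∉ Jc)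
    (hA : Uns h t V e A) :
    ((D.P h t).cond (fun v => V v ∧ (G (v.2.1 e) ∧ HJ D t' Jc w0 v))).Pr A =
      ((D.P h t).cond (VH D t' Jc w0 V)).Pr A := by
  have hw : ((D.P h t).cond V).p w0 ≠ 0 := (FP.cond_p_ne J.ne).2 ⟨J.self, J.supp⟩
  have hne : (D.P h t).Pr (fun v => V v ∧ (G (v.2.1 e) ∧ HJ D t' Jc w0 v)) ≠ 0 :=
    (FP.Pr_pos_of (S := fun v => V v ∧ (G (v.2.1 e) ∧ HJ D t' Jc w0 v)) J.supp ⟨J.self, hG, HJ_self t' Jc w0⟩).ne'
  have hne1 : ((D.P h t).cond V).Pr (fun v => G (v.2.1 e) ∧ HJ D t' Jc w0 v) ≠ 0 :=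
    (FP.Pr_pos_of (S := fun v => G (v.2.1 e) ∧ HJ D t' Jc w0 v) hw ⟨hG, HJ_self t' Jc w0⟩).ne'
  have hG0 : ((D.P h t).cond V).Pr (fun v => G (v.2.1 e)) ≠ 0 :=
    (FP.Pr_pos_of (S := fun v : Pt K X β φ => G (v.2.1 e)) hw hG).ne'
  rw [← FP.cond_cond hne, cond_Pr hne1, VH_Pr J, pt_drop J hI (HJ_uns he)]
  have e1 : ((D.P h t).cond V).Pr (fun v => (G (v.2.1 e) ∧ HJ D t' Jc w0 v) ∧ A v) =
      ((D.P h t).cond V).Pr (fun v => G (v.2.1 e) ∧ (HJ D t' Jc w0 v ∧ A v)) := by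
    congr 1
    funext v
    exact propext and_assoc
  rw [e1, pt_drop J hI ((HJ_uns he).and hA), mul_div_mul_left _ _ hG0]

/-- **points which the event does not see can be dropped from the half cells** -/
theorem VH_drop (J : SngA.Ix h U t I w0 V) (hI : ∀ l : K, ¬ univ.erase l ⊆ I) (he : e ∉ Jc) (hA : Uns h t V e A) :
    ((D.P h t).cond (VH D t' (insert e Jc) w0 V)).Pr A = ((D.P h t).cond (VH D t' Jc w0 V)).Pr A := by
  have e1 : VH D t' (insert e Jc) w0 V =
      fun v => V v ∧ (D.qb t' (v.2.1 e) = D.qb t' (w0.2.1 e) ∧ HJ D t' Jc w0 v) := by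
    funext v
    refine propext ⟨fun hh => ⟨hh.1, hh.2 e (Finset.mem_insert_self _ _), fun j hj => hh.2 j (Finset.mem_insert_of_mem hj)⟩,
      fun hh => ⟨hh.1, fun j hj => ?_⟩⟩
    rcases Finset.mem_insert.1 hj with h1 | h1
    · rw [h1]; exact hh.2.1
    · exact hh.2.2 j h1
  rw [e1]
  exact pt_cond (G := fun z => D.qb t' z = D.qb t' (w0.2.1 e)) J hI rfl he hA

theorem VH_drops (J : SngA.Ix h U t I w0 V) (hI : ∀ l : K, ¬ univ.erase l ⊆ I) {s : Finset K} (hd : Disjoint s Jc)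
    (hA : ∀ e ∈ s, Uns h t V e A) :
    ((D.P h t).cond (VH D t' (s ∪ Jc) w0 V)).Pr A = ((D.P h t).cond (VH D t' Jc w0 V)).Pr A := by
  induction s using Finset.induction_on with
  | empty => rw [Finset.empty_union]
  | insert a s ha ih =>
    have hd1 := Finset.disjoint_insert_left.1 hd
    rw [Finset.insert_union, VH_drop J hI (fun hh => ?_) (hA a (Finset.mem_insert_self a s))]
    · exact ih hd1.2 fun e he => hA e (Finset.mem_insert_of_mem he)
    · rcases Finset.mem_union.1 hh with h1 | h1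
      · exact ha h1
      · exact hd1.1 h1

/-- **a point which the event does not see may be exact** -/
theorem ex_drop (J : SngA.Ix h U t I w0 V) (hI : ∀ l : K, ¬ univ.erase l ⊆ I) (he : e ∈ Jc) (hA : Uns h t V e A) :
    ((D.P h t).cond (VH D t' Jc w0 fun v => V v ∧ v.2.1 e = w0.2.1 e)).Pr A =
      ((D.P h t).cond (VH D t' Jc w0 V)).Pr A := by
  have e1 : VH D t' Jc w0 (fun v => V v ∧ v.2.1 e = w0.2.1 e) =
      fun v => V v ∧ (v.2.1 e = w0.2.1 e ∧ HJ D t' (Jc.erase e) w0 v) := by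
    funext v
    refine propext ⟨fun hh => ⟨hh.1.1, hh.1.2, fun j hj => hh.2 j (Finset.mem_of_mem_erase hj)⟩,
      fun hh => ⟨⟨hh.1, hh.2.1⟩, fun j hj => ?_⟩⟩
    by_cases h1 : j = e
    · rw [h1, hh.2.1]
    · exact hh.2.2 j (Finset.mem_erase.2 ⟨h1, hj⟩)
  rw [e1, pt_cond (G := fun z => z = w0.2.1 e) J hI rfl (Finset.notMem_erase e Jc) hA,
    ← VH_drop J hI (Finset.notMem_erase e Jc) hA, Finset.insert_erase he]

/-- the event with the exact point -/
theorem Ix_ins (J : SngA.Ix h U t I w0 V) (hI : ∀ l : K, ¬ univ.erase l ⊆ I) (e : K) :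
    SngA.Ix h U t (insert e I) w0 (fun v => V v ∧ v.2.1 e = w0.2.1 e) where
  ev := by
    intro v w hvw
    simp only [Prod.mk.injEq, BB_eq] at hvw
    obtain ⟨h1, ⟨h2, h3⟩, h4⟩ := hvw
    have e1 : V v = V w := J.fac hI v w (by
      simp only [Prod.mk.injEq, BB_eq]
      exact ⟨h1, fun j hj => h2 j (Finset.mem_insert_of_mem hj), h3⟩)
    have e2 : v.2.1 e = w.2.1 e := h2 e (Finset.mem_insert_self _ _)
    show (V v ∧ v.2.1 e = w0.2.1 e) = (V w ∧ w.2.1 e = w0.2.1 e)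
    rw [e1, e2]
  self := ⟨J.self, rfl⟩
  supp := J.supp
  sub := fun v hv => by
    have h1 := J.sub v hv.1
    refine ⟨h1.1, ?_⟩
    have h2 := h1.2
    rw [BB_eq] at h2 ⊢
    refine ⟨fun j hj => ?_, h2.2⟩
    rcases Finset.mem_insert.1 hj with h3 | h3
    · rw [h3]; exact hv.2
    · exact h2.1 j h3

/-- the surprise of the event with the exact point -/
theorem LX_ins (B : Bk h N S U t b c d) (J : SngA.Ix h U t I w0 V) (hI : ∀ l : K, ¬ univ.erase l ⊆ I) (e : K) :
    LX h U t (insert e I) w0 (fun v => V v ∧ v.2.1 e = w0.2.1 e) = LX h U t I w0 V := by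
  have e1 : (QX h U t (insert e I) w0).Pr (fun v => V v ∧ v.2.1 e = w0.2.1 e) = (QX h U t (insert e I) w0).Pr V := by
    refine FP.E_congr _ fun v hv => ?_
    have h1 := QX_supp (U := U) (I := insert e I) J.supp hv
    have h2 := h1.2
    rw [BB_eq] at h2
    exact congrArg ind (propext ⟨fun hh => hh.1, fun hh => ⟨hh, h2.1 e (Finset.mem_insert_self _ _)⟩⟩)
  have e2 : (QX h U t (insert e I) w0).Pr V = (QX h U t I w0).Pr V := SngA.Ix.pr_pt B J hI e
  unfold LX
  rw [e1, e2]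

/-! ### one letter -/

/-- letter events do not see the other points -/
theorem let_uns (B : Bk h N S U t b c d) (hV : ∀ v w, V v → V w → ∀ j, D.qb t (v.2.1 j) = D.qb t (w.2.1 j))
    {i : K} (he : e ≠ i) (g : β × υ → Prop) : Uns h t V e (fun v => g (zf U i v)) := by
  intro v w _ _ hVv hVw h1 h2 _ hv
  have e1 : zf U i v = zf U i w := by
    unfold zf
    have h3 : v.2.1 i = w.2.1 i := h2 i he.symm
    rw [Prod.mk.injEq]
    refine ⟨h3, ?_⟩
    rw [h1]
    exact B.dep {i} w.1 v.2.1 w.2.1 (fun j hj => by rw [Finset.mem_singleton.1 hj]; exact h3) (hV v w hVv hVw)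
  rw [← e1]
  exact hv

/-- the cells of two points of the event -/
theorem Ix_qb (J : SngA.Ix h U t I w0 V) : ∀ v w, V v → V w → ∀ j, D.qb t (v.2.1 j) = D.qb t (w.2.1 j) := by
  intro v w hv hw j
  have h1 := (J.sub v hv).2.trans (J.sub w hw).2.symm
  rw [BB_eq] at h1
  exact h1.2.2 j

theorem fw0 {Ω κ : Type*} [Fintype Ω] {Q R : FP Ω} (hac : Q.Ac R) (Z : Ω → κ) (g : κ → Prop) :
    Q.Pr (fun w => g (Z w)) ≤ Q.kl R Z + 2 * R.Pr (fun w => g (Z w)) := by
  have h1 := fwd (Q := Q) (R := R) hac Z (fun _ => ()) (fun _ => ()) (psi := fun _ v => ind (g (Z v)))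
    (fun _ v w hvw => by
      have e : Z v = Z w := congrArg Prod.fst hvw
      show ind (g (Z v)) = ind (g (Z w))
      rw [e]) (fun _ _ => ind_nonneg _) (fun _ _ => ind_le_one _)
  have e1 : Q.E (fun w => R.ce (fun _ => ()) (fun v => ind (g (Z v))) w) = R.Pr (fun v => g (Z v)) := by
    rw [FP.E_congr _ (g := fun _ => R.Pr (fun v => g (Z v))) fun w _ => ce_unit _ _, FP.E_const]
  have e2 : Q.I Z (fun _ => ()) (fun _ => ()) = 0 := by
    rw [FP.I_comm]
    exact I_const _ _ _ _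
  rw [e2, klc_one hac] at h1
  rw [e1] at h1
  show Q.E (fun w => ind (g (Z w))) ≤ _
  linarith

theorem bw0 {Ω κ : Type*} [Fintype Ω] {Q R : FP Ω} (hac : Q.Ac R) (Z : Ω → κ) (g : κ → Prop) :
    R.Pr (fun w => g (Z w)) ≤ 2 * (Q.kl R Z + Q.Pr (fun w => g (Z w))) := by
  have h1 := bwd (Q := Q) (R := R) hac Z (fun _ => ()) (fun _ => ()) (psi := fun _ v => ind (g (Z v)))
    (fun _ v w hvw => by
      have e : Z v = Z w := congrArg Prod.fst hvw
      show ind (g (Z v)) = ind (g (Z w))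
      rw [e]) (fun _ _ => ind_nonneg _) (fun _ _ => ind_le_one _)
  have e1 : Q.E (fun w => R.ce (fun _ => ()) (fun v => ind (g (Z v))) w) = R.Pr (fun v => g (Z v)) := by
    rw [FP.E_congr _ (g := fun _ => R.Pr (fun v => g (Z v))) fun w _ => ce_unit _ _, FP.E_const]
  have e2 : Q.I Z (fun _ => ()) (fun _ => ()) = 0 := by
    rw [FP.I_comm]
    exact I_const _ _ _ _
  rw [e2, klc_one hac] at h1
  rw [e1] at h1
  have e3 : Q.Pr (fun w => g (Z w)) = Q.E (fun w => ind (g (Z w))) := rfl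
  rw [e3]
  linarith

theorem small_empty (B : Bk h N S U t b c d) : ∀ l : K, ¬ univ.erase l ⊆ (∅ : Finset K) := B.era

/-- the half cells of one point -/
def gc (D : HD K X β γ φ) (t' : ℕ) (w0 : Pt K X β φ) (i : K) (g : β × υ → Prop) (z : β × υ) : Prop :=
  D.qb t' z.1 = D.qb t' (w0.2.1 i) ∧ g z

theorem gc_iff {i : K} (g : β × υ → Prop) (v : Pt K X β φ) :
    gc D t' w0 i g (zf U i v) ↔ (HJ D t' {i} w0 v ∧ g (zf U i v)) := by
  refine and_congr ⟨fun hh j hj => ?_, fun hh => hh i (Finset.mem_singleton_self i)⟩ Iff.rfl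
  rw [Finset.mem_singleton.1 hj]
  exact hh

/-- the letter of `c` sees only its own half cell -/
theorem let_one (B : Bk h N S U t b c d) (J : SngA.Ix h U t I w0 V) (hI : ∀ l : K, ¬ univ.erase l ⊆ I)
    (g : β × υ → Prop) {i : K} : ((D.P h t).cond (VH D t' univ w0 V)).Pr (fun v => g (zf U i v)) =
      ((D.P h t).cond (VH D t' {i} w0 V)).Pr (fun v => g (zf U i v)) := by
  have h1 := VH_drops (t' := t') (Jc := {i}) (s := univ.erase i) (A := fun v => g (zf U i v)) J hI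
    (Finset.disjoint_singleton_right.2 (Finset.notMem_erase i univ))
    (fun e he => let_uns B (Ix_qb J) (Finset.mem_erase.1 he).1 g)
  have e1 : univ.erase i ∪ {i} = (univ : Finset K) := by
    rw [Finset.union_comm, ← Finset.insert_eq, Finset.insert_erase (mem_univ i)]
  rw [e1] at h1
  exact h1

/-- from a public event to the law of the letter in the class -/
theorem let_up (htt : t ≤ t') (hh : ∀ y, ((D.cB t y).card : ℝ) ≤ 2 * (D.cB t' y).card) (B : Bk h N S U t b c d)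
    (J : SngA.Ix h U t ∅ w0 V) (hL : LX h U t ∅ w0 V ≤ L) (g : β × υ → Prop) :
    ((D.P h t).cond (VH D t' univ w0 V)).Pr (fun v => g (zf U c v)) ≤
      2 ^ Fintype.card K * (kI N c L + 2 * (QX h U t ∅ w0).Pr (fun v => gc D t' w0 c g (zf U c v))) := by
  rw [let_one B J B.era]
  refine (hc_up J (hc_small htt hh J B.era) _).trans (mul_le_mul_of_nonneg_left ?_ (by positivity))
  have e1 : ((D.P h t).cond V).Pr (fun v => HJ D t' {c} w0 v ∧ g (zf U c v)) =
      ((D.P h t).cond V).Pr (fun v => gc D t' w0 c g (zf U c v)) := by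
    congr 1
    funext v
    exact propext (gc_iff g v).symm
  rw [e1]
  have h1 := fw0 J.acX (zf U c) (gc D t' w0 c g)
  have h2 := J.kl_le B (Finset.notMem_empty c) hL
  linarith

/-- from the law of the letter in the class to an event -/
theorem let_dn (B : Bk h N S U t b c d) (J : SngA.Ix h U t I w0 V) (hcI : c ∉ I) (hL : LX h U t I w0 V ≤ L)
    (g : β × υ → Prop) : (QX h U t I w0).Pr (fun v => gc D t' w0 c g (zf U c v)) ≤
      2 * (kI N c L + ((D.P h t).cond (VH D t' {c} w0 V)).Pr (fun v => g (zf U c v))) := by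
  have h1 := bw0 J.acX (zf U c) (gc D t' w0 c g)
  have h2 := J.kl_le B hcI hL
  have h3 := hc_dn (t' := t') (Jc := {c}) J (fun v => g (zf U c v))
  have e1 : ((D.P h t).cond V).Pr (fun v => HJ D t' {c} w0 v ∧ g (zf U c v)) =
      ((D.P h t).cond V).Pr (fun v => gc D t' w0 c g (zf U c v)) := by
    congr 1
    funext v
    exact propext (gc_iff g v).symm
  rw [e1] at h3
  linarith

/-- **LINEAR RARITY OF ONE LETTER** -/
theorem let_lin (htt : t ≤ t') (hh : ∀ y, ((D.cB t y).card : ℝ) ≤ 2 * (D.cB t' y).card) (B : Bk h N S U t b c d)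
    {V1 V3 : Pt K X β φ → Prop} (J1 : SngA.Ix h U t ∅ w0 V1) (J3 : SngA.Ix h U t ∅ w0 V3) {L1 L3 : ℝ}
    (h1 : LX h U t ∅ w0 V1 ≤ L1) (h3 : LX h U t ∅ w0 V3 ≤ L3) (g : β × υ → Prop) :
    ((D.P h t).cond (VH D t' univ w0 V3)).Pr (fun v => g (zf U c v)) ≤ 2 ^ Fintype.card K * (kI N c L3 + 4 * kI N c L1 +
      4 * ((D.P h t).cond (VH D t' univ w0 V1)).Pr (fun v => g (zf U c v))) := by
  refine (let_up htt hh B J3 h3 g).trans (mul_le_mul_of_nonneg_left ?_ (by positivity))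
  have g1 := let_dn (t' := t') B J1 (Finset.notMem_empty c) h1 g
  rw [← let_one B J1 B.era] at g1
  linarith

/-! ### the letter and the other side -/

/-- a point which the event does not see may be exact, in the class -/
theorem QX_ins (B : Bk h N S U t b c d) (hw0 : (D.P h t).p w0 ≠ 0) (hI : ∀ l : K, ¬ univ.erase l ⊆ I)
    (hA : Uns h t (xc D U t I w0) e A) : (QX h U t (insert e I) w0).Pr A = (QX h U t I w0).Pr A := by
  have J : SngA.Ix h U t I w0 (xc D U t I w0) := Ix_cls B hw0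
  have h1 := pt_cond (t' := t) (Jc := ∅) (G := fun z => z = w0.2.1 e) J hI rfl (Finset.notMem_empty e) hA
  have e1 : (fun v => xc D U t I w0 v ∧ (v.2.1 e = w0.2.1 e ∧ HJ D t ∅ w0 v)) = xc D U t (insert e I) w0 := by
    funext v
    show ((le (LL U) ∅ v = le (LL U) ∅ w0 ∧ BB D t I v = BB D t I w0) ∧ (v.2.1 e = w0.2.1 e ∧ HJ D t ∅ w0 v)) =
      (le (LL U) ∅ v = le (LL U) ∅ w0 ∧ BB D t (insert e I) v = BB D t (insert e I) w0)
    rw [BB_eq, BB_eq]
    refine propext ⟨fun hh => ⟨hh.1.1, fun j hj => ?_, hh.1.2.2⟩, fun hh => ⟨⟨hh.1, fun j hj =>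
      hh.2.1 j (Finset.mem_insert_of_mem hj), hh.2.2⟩, hh.2.1 e (Finset.mem_insert_self _ _),
      fun j hj => absurd hj (Finset.notMem_empty j)⟩⟩
    rcases Finset.mem_insert.1 hj with h3 | h3
    · rw [h3]; exact hh.2.1
    · exact hh.1.2.1 j h3
  have e2 : VH D t ∅ w0 (xc D U t I w0) = xc D U t I w0 := by
    funext v
    exact propext ⟨fun hh => hh.1, fun hh => ⟨hh, fun j hj => absurd hj (Finset.notMem_empty j)⟩⟩
  rw [e1, e2] at h1
  exact h1

theorem small_one (B : Bk h N S U t b c d) (e : K) : ∀ l : K, ¬ univ.erase l ⊆ ({e} : Finset K) := by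
  intro l hl
  have h1 : ∀ j, j ≠ l → j = e := fun j hj => Finset.mem_singleton.1 (hl (Finset.mem_erase.2 ⟨hj, mem_univ j⟩))
  by_cases hb : b = l
  · exact B.cd ((h1 c (fun hh => B.bc (hb.trans hh.symm))).trans (h1 d (fun hh => B.bd (hb.trans hh.symm))).symm)
  · by_cases hc : c = l
    · exact B.bd ((h1 b hb).trans (h1 d (fun hh => B.cd (hc.trans hh.symm))).symm)
    · exact B.bc ((h1 b hb).trans (h1 c hc).symm)

theorem erase_eq (B : Bk h N S U t b c d) : univ.erase c = insert b ({d} : Finset K) := by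
  ext j
  rw [Finset.mem_erase, Finset.mem_insert, Finset.mem_singleton]
  constructor
  · rintro ⟨h1, -⟩
    rcases B.all j with h2 | h2 | h2
    · exact Or.inl h2
    · exact absurd h2 h1
    · exact Or.inr h2
  · rintro (h1 | h1)
    · exact ⟨fun hh => B.bc (h1.symm.trans hh), mem_univ j⟩
    · exact ⟨fun hh => B.cd (hh.symm.trans h1), mem_univ j⟩

/-- the law of the letter of `c` does not see the other points -/
theorem QX_side (B : Bk h N S U t b c d) (hw0 : (D.P h t).p w0 ≠ 0) (g : β × υ → Prop) :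
    (QX h U t (univ.erase c) w0).Pr (fun v => g (zf U c v)) = (QX h U t ∅ w0).Pr (fun v => g (zf U c v)) := by
  have u : ∀ {I' : Finset K} {e : K}, e ≠ c → Uns h t (xc D U t I' w0) e (fun v => g (zf U c v)) := by
    intro I' e he
    exact let_uns B (Ix_qb (Ix_cls (I := I') B hw0)) he g
  have h1 := QX_ins (I := {d}) B hw0 (small_one B d) (u B.bc)
  have h2 := QX_ins (I := ∅) B hw0 B.era (u B.cd.symm)
  rw [erase_eq B, h1]
  exact h2

/-- **THE LETTER AGAINST THE OTHER SIDE** -/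
theorem let_side (htt : t ≤ t') (hh : ∀ y, ((D.cB t y).card : ℝ) ≤ 2 * (D.cB t' y).card) (B : Bk h N S U t b c d)
    {V1 V2 : Pt K X β φ → Prop} (J1 : SngA.Ix h U t ∅ w0 V1) (J2 : SngA.Ix h U t (univ.erase c) w0 V2) {L1 L2 : ℝ}
    (h1 : LX h U t ∅ w0 V1 ≤ L1) (h2 : LX h U t (univ.erase c) w0 V2 ≤ L2) (g : β × υ → Prop) :
    ((D.P h t).cond (VH D t' univ w0 V1)).Pr (fun v => g (zf U c v)) ≤ 2 ^ Fintype.card K * (kI N c L1 + 4 * kI N c L2 +
      4 * ((D.P h t).cond (VH D t' univ w0 V2)).Pr (fun v => g (zf U c v))) := by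
  refine (let_up htt hh B J1 h1 g).trans (mul_le_mul_of_nonneg_left ?_ (by positivity))
  have g1 := let_dn (t' := t') B J2 (Finset.notMem_erase c univ) h2 g
  rw [QX_side B J1.supp] at g1
  have e1 : VH D t' {c} w0 V2 = VH D t' univ w0 V2 := by
    funext v
    refine propext ⟨fun hv => ⟨hv.1, fun j _ => ?_⟩, fun hv => ⟨hv.1, fun j _ => hv.2 j (mem_univ j)⟩⟩
    by_cases hj : j = c
    · rw [hj]; exact hv.2 c (Finset.mem_singleton_self c)
    · have h3 := (J2.sub v hv.1).2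
      rw [BB_eq] at h3
      rw [h3.1 j (Finset.mem_erase.2 ⟨hj, mem_univ j⟩)]
  rw [e1] at g1
  linarith

/-! ### two letters with their top -/

/-- relation of the letters of `c`, `d` and of the top `b` -/
def fR (U : Finset K → X → (K → β) → υ) (b c d : K) (G : β × υ → β × υ → φ → Prop) (v : Pt K X β φ) : Prop :=
  G (zf U c v) (zf U d v) (v.2.2 b)

theorem fR_uns (B : Bk h N S U t b c d) (hV : ∀ v w, V v → V w → ∀ j, D.qb t (v.2.1 j) = D.qb t (w.2.1 j))
    (G : β × υ → β × υ → φ → Prop) : Uns h t V b (fR U b c d G) := by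
  intro v w a1 a2 hVv hVw h1 h2 h3 hv
  have key : ∀ i, b ≠ i → zf U i v = zf U i w := by
    intro i hi
    have h4 := let_uns (h := h) (V := V) B hV hi (fun z => zf U i v = z) v w a1 a2 hVv hVw h1 h2 h3 rfl
    exact h4
  show G (zf U c w) (zf U d w) (w.2.2 b)
  rw [← key c B.bc, ← key d B.bd, ← h3]
  exact hv

theorem fR_rp (C0 : Pt K X β φ → Prop) {G : β × υ → β × υ → φ → Prop} (hG : ∀ x y z, G x y z → Typ y.1 y.2) :
    Rp h U t b c d C0 Typ (fR U b c d G) := by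
  refine ⟨fun v w _ _ _ _ h1 h2 h3 hA => ?_, fun w _ _ hA => hG _ _ _ hA⟩
  show G (zf U c w) (zf U d w) (w.2.2 b)
  rw [← h1, ← h2, ← h3]
  exact hA

/-- **LINEAR RARITY OF TWO LETTERS WITH THEIR TOP** -/
theorem face_lin (htt : t ≤ t') (hh : ∀ y, ((D.cB t y).card : ℝ) ≤ 2 * (D.cB t' y).card) (B : Bk h N S U t b c d)
    {V1 V3 : Pt K X β φ → Prop} (J1 : SngA.Ix h U t ∅ w0 V1) (J3 : SngA.Ix h U t ∅ w0 V3)
    (h1 : LX h U t ∅ w0 V1 ≤ L) (h3 : LX h U t ∅ w0 V3 ≤ L) {G : β × υ → β × υ → φ → Prop}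
    (hG : ∀ x y z, G x y z → Typ y.1 y.2)
    (hM0 : 0 ≤ M) (hM : ∀ c', ∃ s : Finset υ, (s.card : ℝ) ≤ M ∧ ∀ u, Typ c' u → u ∈ s) :
    ((D.P h t).cond (VH D t' univ w0 V3)).Pr (fR U b c d G) ≤ 2 ^ Fintype.card K * (1025 * EP N al M b c d L +
      1024 * ((D.P h t).cond (VH D t' univ w0 V1)).Pr (fR U b c d G)) := by
  have e1 := VH_drop (t' := t') (Jc := univ.erase b) J3 B.era (Finset.notMem_erase b univ) (fR_uns B (Ix_qb J3) G)
  have e2 := VH_drop (t' := t') (Jc := univ.erase b) J1 B.era (Finset.notMem_erase b univ) (fR_uns B (Ix_qb J1) G)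
  rw [Finset.insert_erase (mem_univ b)] at e1 e2
  rw [e1, e2]
  exact rel_pair_H (C0 := xc D U t ∅ w0) htt hh B J3 J1 (Finset.empty_subset _)
    (fun j hj hjb => absurd hjb (Finset.mem_erase.1 hj).1)
    (fun v hv => J3.sub v hv) (fun v hv => J1.sub v hv) (fun v hv => hv) (fR_rp _ hG) hM0 hM h3 h1

/-- **TWO LETTERS WITH THEIR TOP AGAINST THE EXACT THIRD VERTEX**, both directions -/
theorem face_let (htt : t ≤ t') (hh : ∀ y, ((D.cB t y).card : ℝ) ≤ 2 * (D.cB t' y).card) (B : Bk h N S U t b c d)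
    {V1 V4 : Pt K X β φ → Prop} (J1 : SngA.Ix h U t ∅ w0 V1) (J4 : SngA.Ix h U t {b} w0 V4)
    (h1 : LX h U t ∅ w0 V1 ≤ L) (h4 : LX h U t {b} w0 V4 ≤ L) {G : β × υ → β × υ → φ → Prop}
    (hG : ∀ x y z, G x y z → Typ y.1 y.2)
    (hM0 : 0 ≤ M) (hM : ∀ c', ∃ s : Finset υ, (s.card : ℝ) ≤ M ∧ ∀ u, Typ c' u → u ∈ s) :
    ((D.P h t).cond (VH D t' univ w0 V1)).Pr (fR U b c d G) ≤ 2 ^ Fintype.card K * (1025 * EP N al M b c d L +
      1024 * ((D.P h t).cond (VH D t' univ w0 V4)).Pr (fR U b c d G)) ∧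
    ((D.P h t).cond (VH D t' univ w0 V4)).Pr (fR U b c d G) ≤ 2 ^ Fintype.card K * (1025 * EP N al M b c d L +
      1024 * ((D.P h t).cond (VH D t' univ w0 V1)).Pr (fR U b c d G)) := by
  have e2 := ex_drop (t' := t') J1 B.era (mem_univ b) (fR_uns B (Ix_qb J1) G)
  have J2 := Ix_ins J1 B.era b
  have h2 := LX_ins B J1 B.era b
  rw [LawfulSingleton.insert_empty_eq b] at J2 h2
  rw [← e2]
  constructor
  · exact rel_pair_H (C0 := xc D U t {b} w0) htt hh B J2 J4 (Finset.Subset.refl _)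
      (fun j _ _ => Finset.mem_singleton_self b)
      (fun v hv => J2.sub v hv) (fun v hv => J4.sub v hv) (fun v hv => hv) (fR_rp _ hG) hM0 hM (h2.le.trans h1) h4
  · exact rel_pair_H (C0 := xc D U t {b} w0) htt hh B J4 J2 (Finset.Subset.refl _)
      (fun j _ _ => Finset.mem_singleton_self b)
      (fun v hv => J4.sub v hv) (fun v hv => J2.sub v hv) (fun v hv => hv) (fR_rp _ hG) hM0 hM h4 (h2.le.trans h1)

end cls

/-! ### ratios of conditional laws -/

section rat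

variable {Om κ ζ : Type*} [Fintype Om] {Q R : FP Om} {Z : Om → ζ} {W : Om → κ}

/-- ratio of the conditional laws above `e^x` -/
def bg (Q R : FP Om) (Z : Om → ζ) (W : Om → κ) (x : ℝ) (w : Om) : Prop :=
  Real.exp x * R.pv Z W w (W w) < Q.pv Z W w (W w)

theorem bg_fac (x : ℝ) : Fac (fun w => (W w, Z w)) (bg Q R Z W x) := by
  intro v w hvw
  simp only [Prod.mk.injEq] at hvw
  have e1 : ∀ P : FP Om, P.pv Z W v (W v) = P.pv Z W w (W w) := fun P => by
    rw [hvw.1]
    exact P.pv_fac Z W (W w) v w hvw.2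
  unfold bg
  rw [e1, e1]

theorem ce_bg (P : FP Om) (x : ℝ) (w : Om) : P.ce Z (fun u => ind (bg Q R Z W x u)) w =
    ∑ v ∈ vals W, P.pv Z W w v * ind (Real.exp x * R.pv Z W w v < Q.pv Z W w v) := by
  rw [P.sum_pv (W := Z) W (F := fun u v => ind (Real.exp x * R.pv Z W u v < Q.pv Z W u v)) fun v a b hab => by
    show ind (Real.exp x * R.pv Z W a v < Q.pv Z W a v) = ind (Real.exp x * R.pv Z W b v < Q.pv Z W b v)
    have e1 : R.pv Z W a v = R.pv Z W b v := R.pv_fac Z W v a b hab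
    have e2 : Q.pv Z W a v = Q.pv Z W b v := Q.pv_fac Z W v a b hab
    rw [e1, e2]]
  rfl

theorem ce_bg_le (x : ℝ) (w : Om) : Real.exp x * R.ce Z (fun u => ind (bg Q R Z W x u)) w ≤
    Q.ce Z (fun u => ind (bg Q R Z W x u)) w := by
  rw [ce_bg, ce_bg, Finset.mul_sum]
  refine Finset.sum_le_sum fun v _ => ?_
  by_cases hv : Real.exp x * R.pv Z W w v < Q.pv Z W w v
  · rw [ind_of hv, mul_one, mul_one]
    exact hv.le
  · rw [ind_not hv, mul_zero, mul_zero, mul_zero]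

theorem I_triv (P : FP Om) : P.I W (fun _ : Om => ()) Z = 0 := by
  rw [FP.I_comm]
  exact I_const _ _ _ _

/-- **the conditional law is rarely above the reference** -/
theorem bg_up (hac : Q.Ac R) {x : ℝ} (h0 : 0 < x) (h1 : x ≤ 1) : Q.Pr (bg Q R Z W x) ≤ 8 * Q.klc R W Z / x ^ 2 := by
  have k0 := klc_nonneg hac W Z
  set l : ℝ := x / 2 with hl
  have k1 := klc_dv_row hac W Z (fun _ : Om => ()) (psi := fun _ v => l * ind (bg Q R Z W x v)) (fun _ =>
    (Fac.ind fun v w hvw => by rw [bg_fac x v w hvw]).comp (fun y => l * y))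
  rw [I_triv] at k1
  have hl0 : 0 ≤ l := by rw [hl]; linarith
  have hl1 : l ≤ 1 := by rw [hl]; linarith
  have hex : Real.exp l ≤ 1 + l + l ^ 2 := by
    have h2 := Real.abs_exp_sub_one_sub_id_le (x := l) (by rw [abs_of_nonneg hl0]; exact hl1)
    have h3 := (abs_le.1 h2).2
    linarith
  have hpt : ∀ v, Real.exp (l * ind (bg Q R Z W x v)) = 1 + (Real.exp l - 1) * ind (bg Q R Z W x v) := by
    intro v
    by_cases hv : bg Q R Z W x v
    · rw [ind_of hv, mul_one, mul_one]; ring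
    · rw [ind_not hv, mul_zero, mul_zero, Real.exp_zero, add_zero]
  have hex0 : 0 ≤ Real.exp l - 1 := by
    have := Real.one_le_exp hl0
    linarith
  have key : Q.E (fun w => Real.log (R.ce Z (fun v => Real.exp (l * ind (bg Q R Z W x v))) w)) ≤
      Q.E (fun w => ((l + l ^ 2) / (1 + x)) * Q.ce Z (fun u => ind (bg Q R Z W x u)) w) := by
    refine Q.E_mono fun w hw => ?_
    have h2 := Real.log_le_sub_one_of_pos (ce_exp_pos hac Z (fun v => l * ind (bg Q R Z W x v)) hw)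
    have h3 : R.ce Z (fun v => Real.exp (l * ind (bg Q R Z W x v))) w =
        1 + (Real.exp l - 1) * R.ce Z (fun u => ind (bg Q R Z W x u)) w := by
      simp only [hpt]
      rw [R.ce_add Z (fun _ => 1) (fun v => (Real.exp l - 1) * ind (bg Q R Z W x v)) w, R.ce_const _ _ (hac w hw), R.ce_smul]
    have h4 := ce_bg_le (Q := Q) (R := R) (Z := Z) (W := W) x w
    have h5 : 0 ≤ R.ce Z (fun u => ind (bg Q R Z W x u)) w := R.ce_nonneg (fun _ _ => ind_nonneg _) w
    have h6 := Real.add_one_le_exp x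
    have h7 : (1 + x) * R.ce Z (fun u => ind (bg Q R Z W x u)) w ≤ Q.ce Z (fun u => ind (bg Q R Z W x u)) w :=
      (mul_le_mul_of_nonneg_right (by linarith) h5).trans h4
    have h8 : R.ce Z (fun u => ind (bg Q R Z W x u)) w ≤ Q.ce Z (fun u => ind (bg Q R Z W x u)) w / (1 + x) := by
      rw [le_div_iff₀ (by linarith), mul_comm]
      exact h7
    have h9 : (Real.exp l - 1) * R.ce Z (fun u => ind (bg Q R Z W x u)) w ≤
        (l + l ^ 2) * (Q.ce Z (fun u => ind (bg Q R Z W x u)) w / (1 + x)) :=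
      mul_le_mul (by linarith) h8 h5 (by positivity)
    have h10 : (l + l ^ 2) * (Q.ce Z (fun u => ind (bg Q R Z W x u)) w / (1 + x)) =
      ((l + l ^ 2) / (1 + x)) * Q.ce Z (fun u => ind (bg Q R Z W x u)) w := by ring
    linarith
  rw [FP.E_smul, Q.E_ce] at key
  rw [FP.E_smul] at k1
  have e1 : Q.E (fun w => ind (bg Q R Z W x w)) = Q.Pr (bg Q R Z W x) := rfl
  rw [e1] at k1 key
  have h11 : 0 ≤ Q.Pr (bg Q R Z W x) := Q.Pr_nonneg _
  rw [le_div_iff₀ (by positivity)]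
  have h12 : (l - (l + l ^ 2) / (1 + x)) * Q.Pr (bg Q R Z W x) ≤ Q.klc R W Z := by
    rw [sub_mul]; linarith
  have h13 : x ^ 2 / 8 ≤ l - (l + l ^ 2) / (1 + x) := by
    rw [hl, le_sub_iff_add_le, ← le_sub_iff_add_le', div_le_iff₀ (by linarith)]
    nlinarith
  have h14 := mul_le_mul_of_nonneg_right h13 h11
  linarith

/-- **the reference is rarely above the conditional law** -/
theorem bg_dn (hac : Q.Ac R) {x : ℝ} (h0 : 0 < x) (h1 : x ≤ 1) : Q.Pr (bg R Q Z W x) ≤ 8 * Q.klc R W Z / x ^ 2 := by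
  have k0 := klc_nonneg hac W Z
  set l : ℝ := x / 2 with hl
  have k1 := klc_dv_row hac W Z (fun _ : Om => ()) (psi := fun _ v => -l * ind (bg R Q Z W x v)) (fun _ =>
    (Fac.ind fun v w hvw => by rw [bg_fac x v w hvw]).comp (fun y => -l * y))
  rw [I_triv] at k1
  have hl0 : 0 ≤ l := by rw [hl]; linarith
  have hpt : ∀ v, Real.exp (-l * ind (bg R Q Z W x v)) = 1 + (Real.exp (-l) - 1) * ind (bg R Q Z W x v) := by
    intro v
    by_cases hv : bg R Q Z W x v
    · rw [ind_of hv, mul_one, mul_one]; ring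
    · rw [ind_not hv, mul_zero, mul_zero, Real.exp_zero, add_zero]
  have hem : Real.exp (-l) ≤ 1 / (1 + l) := by
    rw [Real.exp_neg, ← one_div]
    exact one_div_le_one_div_of_le (by linarith) (by have := Real.add_one_le_exp l; linarith)
  have hem2 : l / (1 + l) ≤ 1 - Real.exp (-l) := by
    have : l / (1 + l) = 1 - 1 / (1 + l) := by
      rw [eq_sub_iff_add_eq, ← add_div, add_comm l 1]
      exact div_self (by linarith)
    linarith
  have key : Q.E (fun w => Real.log (R.ce Z (fun v => Real.exp (-l * ind (bg R Q Z W x v))) w)) ≤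
      Q.E (fun w => (-(l / (1 + l) * (1 + x))) * Q.ce Z (fun u => ind (bg R Q Z W x u)) w) := by
    refine Q.E_mono fun w hw => ?_
    have h2 := Real.log_le_sub_one_of_pos (ce_exp_pos hac Z (fun v => -l * ind (bg R Q Z W x v)) hw)
    have h3 : R.ce Z (fun v => Real.exp (-l * ind (bg R Q Z W x v))) w =
        1 + (Real.exp (-l) - 1) * R.ce Z (fun u => ind (bg R Q Z W x u)) w := by
      simp only [hpt]
      rw [R.ce_add Z (fun _ => 1) (fun v => (Real.exp (-l) - 1) * ind (bg R Q Z W x v)) w, R.ce_const _ _ (hac w hw), R.ce_smul]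
    have h4 := ce_bg_le (Q := R) (R := Q) (Z := Z) (W := W) x w
    have h5 : 0 ≤ Q.ce Z (fun u => ind (bg R Q Z W x u)) w := Q.ce_nonneg (fun _ _ => ind_nonneg _) w
    have h6 := Real.add_one_le_exp x
    have h7 : (1 + x) * Q.ce Z (fun u => ind (bg R Q Z W x u)) w ≤ R.ce Z (fun u => ind (bg R Q Z W x u)) w :=
      (mul_le_mul_of_nonneg_right (by linarith) h5).trans h4
    have h8 : l / (1 + l) * ((1 + x) * Q.ce Z (fun u => ind (bg R Q Z W x u)) w) ≤
        (1 - Real.exp (-l)) * R.ce Z (fun u => ind (bg R Q Z W x u)) w :=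
      mul_le_mul hem2 h7 (by positivity) (le_trans (by positivity) hem2)
    have h9 : l / (1 + l) * ((1 + x) * Q.ce Z (fun u => ind (bg R Q Z W x u)) w) =
      (l / (1 + l) * (1 + x)) * Q.ce Z (fun u => ind (bg R Q Z W x u)) w := by ring
    linarith
  rw [FP.E_smul, Q.E_ce] at key
  rw [FP.E_smul] at k1
  have e1 : Q.E (fun w => ind (bg R Q Z W x w)) = Q.Pr (bg R Q Z W x) := rfl
  rw [e1] at k1 key
  have h11 : 0 ≤ Q.Pr (bg R Q Z W x) := Q.Pr_nonneg _
  rw [le_div_iff₀ (by positivity)]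
  have h12 : (l / (1 + l) * (1 + x) - l) * Q.Pr (bg R Q Z W x) ≤ Q.klc R W Z := by
    rw [sub_mul]; linarith
  have h13 : x ^ 2 / 8 ≤ l / (1 + l) * (1 + x) - l := by
    have h15 : l / (1 + l) * (1 + x) - l = l * (x - l) / (1 + l) := by
      field_simp
      ring
    rw [h15, le_div_iff₀ (by linarith), hl]
    nlinarith
  have h14 := mul_le_mul_of_nonneg_right h13 h11
  linarith

end rat



section top

variable {K X β γ φ υ : Type} [Fintype K] [DecidableEq K] [Fintype X] [Fintype β] [Fintype φ] [Nonempty X] [Nonempty β]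
  {D : HD K X β γ φ} {al : ℝ} {h : D.Thick al} {N : Finset K → ℝ} {S : Finset (Finset K)}
  {U : Finset K → X → (K → β) → υ} {t t' : ℕ} {b c d : K} {w0 : Pt K X β φ} {V : Pt K X β φ → Prop}
  {Typ : β → υ → Prop} {M L : ℝ} {I Jc : Finset K} {e : K} {A : Pt K X β φ → Prop} {G : β → Prop}

/-- the two letters which the top `b` sees -/
def Zf2 (U : Finset K → X → (K → β) → υ) (c d : K) (w : Pt K X β φ) : (β × υ) × (β × υ) := (zf U c w, zf U d w)

/-- the label of the top `b` -/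
def Wb2 (b : K) (w : Pt K X β φ) : φ := w.2.2 b

/-- inside half cells -/
theorem up_all (J : SngA.Ix h U t I w0 V) (htt : t ≤ t') (hh : ∀ y, ((D.cB t y).card : ℝ) ≤ 2 * (D.cB t' y).card)
    (hI : ∀ l : K, ¬ univ.erase l ⊆ I) (A : Pt K X β φ → Prop) :
    ((D.P h t).cond (VH D t' univ w0 V)).Pr A ≤ 2 ^ Fintype.card K * ((D.P h t).cond V).Pr A :=
  (hc_up J (hc_small htt hh J hI) A).trans (mul_le_mul_of_nonneg_left (FP.Pr_mono _ fun _ _ hv => hv.2) (by positivity))

/-- **THE TOP GIVEN THE THIRD LETTER** : its law is rarely far above its law without it -/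
theorem top_let (htt : t ≤ t') (hh : ∀ y, ((D.cB t y).card : ℝ) ≤ 2 * (D.cB t' y).card) (B : Bk h N S U t b c d)
    {V1 V4 : Pt K X β φ → Prop} (J1 : SngA.Ix h U t ∅ w0 V1) (J4 : SngA.Ix h U t {b} w0 V4)
    (h41 : ∀ v, V4 v → V1 v) (h1 : LX h U t ∅ w0 V1 ≤ L) (h4 : LX h U t {b} w0 V4 ≤ L)
    (hM0 : 0 ≤ M) (hM : ∀ c', ∃ s : Finset υ, (s.card : ℝ) ≤ M ∧ ∀ u, Typ c' u → u ∈ s) {x : ℝ} (h0 : 0 < x) (hx1 : x ≤ 1) :
    ((D.P h t).cond (VH D t' univ w0 V4)).Pr (fun v => Typ (v.2.1 d) (U {d} v.1 v.2.1) ∧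
      Real.exp (3 * x) * ((D.P h t).cond (fun v => V1 v ∧ v.2.1 b = w0.2.1 b)).pv (Zf2 U c d) (Wb2 b) v (v.2.2 b) ≤
        ((D.P h t).cond V4).pv (Zf2 U c d) (Wb2 b) v (v.2.2 b)) ≤
      2 ^ Fintype.card K * (1025 * EP N al M b c d L + 2 ^ Fintype.card K * (8200 * kW N b L / x ^ 2)) := by
  classical
  have J2 := Ix_ins J1 B.era b
  have h2 := LX_ins B J1 B.era b
  rw [LawfulSingleton.insert_empty_eq b] at J2 h2
  set V2 : Pt K X β φ → Prop := fun v => V1 v ∧ v.2.1 b = w0.2.1 b with hV2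
  have hL2 : LX h U t {b} w0 V2 ≤ L := h2.le.trans h1
  set R := QX h U t {b} w0 with hR
  have hsm := small_one B b
  have hV42 : ∀ v, V4 v → V2 v := by
    intro v hv
    refine ⟨h41 v hv, ?_⟩
    have h3 := (J4.sub v hv).2
    rw [BB_eq] at h3
    exact h3.1 b (Finset.mem_singleton_self b)
  have kk4 := J4.klc_top B (Finset.Subset.refl _) h4
  have kk2 := J2.klc_top B (Finset.Subset.refl _) hL2
  have b4 := bg_up J4.acX (Z := Zf2 U c d) (W := Wb2 b) h0 hx1
  have b2 := bg_dn J2.acX (Z := Zf2 U c d) (W := Wb2 b) h0 hx1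
  have b4' : ((D.P h t).cond V4).Pr (bg ((D.P h t).cond V4) R (Zf2 U c d) (Wb2 b) x) ≤ 8 * kW N b L / x ^ 2 :=
    b4.trans (div_le_div_of_nonneg_right (mul_le_mul_of_nonneg_left kk4 (by norm_num)) (by positivity))
  have b2' : ((D.P h t).cond V2).Pr (bg R ((D.P h t).cond V2) (Zf2 U c d) (Wb2 b) x) ≤ 8 * kW N b L / x ^ 2 :=
    b2.trans (div_le_div_of_nonneg_right (mul_le_mul_of_nonneg_left kk2 (by norm_num)) (by positivity))
  set A2 : Pt K X β φ → Prop := fun v => Typ (v.2.1 d) (U {d} v.1 v.2.1) ∧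
    bg R ((D.P h t).cond V2) (Zf2 U c d) (Wb2 b) x v with hA2
  have hRp : Rp h U t b c d (VH D t' univ w0 (xc D U t {b} w0)) Typ A2 := by
    refine ⟨fun v w _ _ _ _ g1 g2 g3 hA => ?_, fun w _ _ hA => hA.1⟩
    have e1 : (fun w : Pt K X β φ => (Wb2 b w, Zf2 U c d w)) v = (fun w => (Wb2 b w, Zf2 U c d w)) w := by
      show (v.2.2 b, (zf U c v, zf U d v)) = (w.2.2 b, (zf U c w, zf U d w))
      rw [g1, g2, g3]
    refine ⟨?_, ?_⟩
    · have g4 := hA.1
      unfold zf at g2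
      rw [Prod.mk.injEq] at g2
      rw [← g2.1, ← g2.2]
      exact g4
    · have e2 := bg_fac (Q := R) (R := (D.P h t).cond V2) (Z := Zf2 U c d) (W := Wb2 b) x v w e1
      rw [← e2]
      exact hA.2
  have key := rel_pair_H (C0 := xc D U t {b} w0) htt hh B J4 J2 (Finset.Subset.refl _)
      (fun j _ _ => Finset.mem_singleton_self b)
      (fun v hv => J4.sub v hv) (fun v hv => J2.sub v hv) (fun v hv => hv) hRp hM0 hM h4 hL2
  have k2 : ((D.P h t).cond (VH D t' univ w0 V2)).Pr A2 ≤ 2 ^ Fintype.card K * (8 * kW N b L / x ^ 2) := by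
    refine (up_all J2 htt hh hsm A2).trans (mul_le_mul_of_nonneg_left ?_ (by positivity))
    exact (FP.Pr_mono _ fun v _ hv => hv.2).trans b2'
  have k4 : ((D.P h t).cond (VH D t' univ w0 V4)).Pr (bg ((D.P h t).cond V4) R (Zf2 U c d) (Wb2 b) x) ≤
      2 ^ Fintype.card K * (8 * kW N b L / x ^ 2) :=
    (up_all J4 htt hh hsm _).trans (mul_le_mul_of_nonneg_left b4' (by positivity))
  have hsub : ((D.P h t).cond (VH D t' univ w0 V4)).Pr (fun v => Typ (v.2.1 d) (U {d} v.1 v.2.1) ∧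
      Real.exp (3 * x) * ((D.P h t).cond V2).pv (Zf2 U c d) (Wb2 b) v (v.2.2 b) ≤
        ((D.P h t).cond V4).pv (Zf2 U c d) (Wb2 b) v (v.2.2 b)) ≤
      ((D.P h t).cond (VH D t' univ w0 V4)).Pr (bg ((D.P h t).cond V4) R (Zf2 U c d) (Wb2 b) x) +
      ((D.P h t).cond (VH D t' univ w0 V4)).Pr A2 := by
    refine le_trans (FP.Pr_mono _ fun v hv hE => ?_) (FP.Pr_or_le _ _ _)
    by_contra hno
    obtain ⟨n1, n2⟩ := not_or.1 hno
    have hv4 := (cond_supp (VH_ne J4) hv)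
    have hp2 : ((D.P h t).cond V2).p v ≠ 0 := (FP.cond_p_ne J2.ne).2 ⟨hV42 v hv4.1.1, hv4.2⟩
    have n3 : ¬ bg R ((D.P h t).cond V2) (Zf2 U c d) (Wb2 b) x v := fun hh => n2 ⟨hE.1, hh⟩
    unfold bg at n1 n3
    rw [not_lt] at n1 n3
    have hpos : 0 < ((D.P h t).cond V2).pv (Zf2 U c d) (Wb2 b) v (v.2.2 b) := by
      have e1 := FP.pv_self ((D.P h t).cond V2) (Zf2 U c d) (Wb2 b) v
      have e2 : ((D.P h t).cond V2).pv (Zf2 U c d) (Wb2 b) v (v.2.2 b) =
        ((D.P h t).cond V2).pv (Zf2 U c d) (Wb2 b) v (Wb2 b v) := rfl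
      rw [e2, e1]
      exact div_pos (FP.m_pos _ _ hp2) (FP.m_pos _ _ hp2)
    have g1 : ((D.P h t).cond V4).pv (Zf2 U c d) (Wb2 b) v (v.2.2 b) ≤
        Real.exp x * (Real.exp x * ((D.P h t).cond V2).pv (Zf2 U c d) (Wb2 b) v (v.2.2 b)) :=
      n1.trans (mul_le_mul_of_nonneg_left n3 (Real.exp_pos x).le)
    have g2 := hE.2.trans g1
    rw [← mul_assoc, ← Real.exp_add] at g2
    have g3 := le_of_mul_le_mul_right g2 hpos
    have g4 := Real.exp_le_exp.1 g3
    linarith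
  have hkW : 0 ≤ 8 * kW N b L / x ^ 2 := (FP.Pr_nonneg _ _).trans b4'
  have p1 : (1 : ℝ) ≤ 2 ^ Fintype.card K := one_le_pow₀ (by norm_num)
  have k5 : 2 ^ Fintype.card K * (1025 * EP N al M b c d L + 1024 * ((D.P h t).cond (VH D t' univ w0 V2)).Pr A2) ≤
      2 ^ Fintype.card K * (1025 * EP N al M b c d L + 1024 * (2 ^ Fintype.card K * (8 * kW N b L / x ^ 2))) :=
    mul_le_mul_of_nonneg_left (add_le_add le_rfl (mul_le_mul_of_nonneg_left k2 (by norm_num))) (by positivity)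
  have k6 : 2 ^ Fintype.card K * (8 * kW N b L / x ^ 2) ≤
      2 ^ Fintype.card K * (2 ^ Fintype.card K * (8 * kW N b L / x ^ 2)) :=
    mul_le_mul_of_nonneg_left (le_mul_of_one_le_left hkW p1) (by positivity)
  have e3 : (8200 : ℝ) * kW N b L / x ^ 2 = 1025 * (8 * kW N b L / x ^ 2) := by ring
  rw [e3]
  refine hsub.trans ?_
  calc _ ≤ 2 ^ Fintype.card K * (2 ^ Fintype.card K * (8 * kW N b L / x ^ 2)) +
        2 ^ Fintype.card K * (1025 * EP N al M b c d L + 1024 * (2 ^ Fintype.card K * (8 * kW N b L / x ^ 2))) :=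
        add_le_add (k4.trans k6) (key.trans k5)
    _ = _ := by ring

end top

end Pool.Agent.GMH.SngF
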