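import Pool.Agent.GMH.SngG

/-!
# GMH/SngF2 (helper18): the law of the top given the third letter is rarely far below its law without it

`top_dn` : the other direction of `SngF.top_let`.
-/

set_option autoImplicit false
set_option linter.unusedSectionVars false

namespace Pool.Agent.GMH.SngF

open Finset Pool.Agent.PWZ Pool.Agent.M3 Pool.Agent.GM Pool.Agent.GM.Harm Pool.Agent.GMH Pool.Agent.GMH.RarX
open Pool.Agent.GMH.SngA

section top

variable {K X β γ φ υ : Type} [Fintype K] [DecidableEq K] [Fintype X] [Fintype β] [Fintype φ] [Nonempty X] [Nonempty β]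
  {D : HD K X β γ φ} {al : ℝ} {h : D.Thick al} {N : Finset K → ℝ} {S : Finset (Finset K)}
  {U : Finset K → X → (K → β) → υ} {t t' : ℕ} {b c d : K} {w0 : Pt K X β φ} {V : Pt K X β φ → Prop}
  {Typ : β → υ → Prop} {M L : ℝ} {I Jc : Finset K} {e : K} {A : Pt K X β φ → Prop} {G : β → Prop}

/-- **THE TOP GIVEN THE THIRD LETTER** : its law is rarely far below its law without it -/
theorem top_dn (htt : t ≤ t') (hh : ∀ y, ((D.cB t y).card : ℝ) ≤ 2 * (D.cB t' y).card) (B : Bk h N S U t b c d)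
    {V1 V4 : Pt K X β φ → Prop} (J1 : SngA.Ix h U t ∅ w0 V1) (J4 : SngA.Ix h U t {b} w0 V4)
    (h41 : ∀ v, V4 v → V1 v) (h1 : LX h U t ∅ w0 V1 ≤ L) (h4 : LX h U t {b} w0 V4 ≤ L)
    (hM0 : 0 ≤ M) (hM : ∀ c', ∃ s : Finset υ, (s.card : ℝ) ≤ M ∧ ∀ u, Typ c' u → u ∈ s) {x : ℝ} (h0 : 0 < x) (hx1 : x ≤ 1) :
    ((D.P h t).cond (VH D t' univ w0 V4)).Pr (fun v => Typ (v.2.1 d) (U {d} v.1 v.2.1) ∧
      Real.exp (3 * x) * ((D.P h t).cond V4).pv (Zf2 U c d) (Wb2 b) v (v.2.2 b) ≤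
        ((D.P h t).cond (fun v => V1 v ∧ v.2.1 b = w0.2.1 b)).pv (Zf2 U c d) (Wb2 b) v (v.2.2 b)) ≤
      2 ^ Fintype.card K * (1025 * EP N al M b c d L + 2 ^ Fintype.card K * (8200 * kW N b L / x ^ 2)) := by
  classical
  have J2 := Ix_ins J1 B.era b
  have h2 := LX_ins B J1 B.era b
  rw [LawfulSingleton.insert_empty_eq b] at J2 h2
  set V2 : Pt K X β φ → Prop := fun v => V1 v ∧ v.2.1 b = w0.2.1 b with hV2
  have hL2 : LX h U t {b} w0 V2 ≤ L := h2.le.trans h1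
  set R := QX h U t {b} w0 with hR
  have hsm := small_one B b
  have hV42 : ∀ v, V4 v → V2 v := by
    intro v hv
    refine ⟨h41 v hv, ?_⟩
    have h3 := (J4.sub v hv).2
    rw [BB_eq] at h3
    exact h3.1 b (Finset.mem_singleton_self b)
  have kk4 := J4.klc_top B (Finset.Subset.refl _) h4
  have kk2 := J2.klc_top B (Finset.Subset.refl _) hL2
  have b4 := bg_dn J4.acX (Z := Zf2 U c d) (W := Wb2 b) h0 hx1
  have b2 := bg_up J2.acX (Z := Zf2 U c d) (W := Wb2 b) h0 hx1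
  have b4' : ((D.P h t).cond V4).Pr (bg R ((D.P h t).cond V4) (Zf2 U c d) (Wb2 b) x) ≤ 8 * kW N b L / x ^ 2 :=
    b4.trans (div_le_div_of_nonneg_right (mul_le_mul_of_nonneg_left kk4 (by norm_num)) (by positivity))
  have b2' : ((D.P h t).cond V2).Pr (bg ((D.P h t).cond V2) R (Zf2 U c d) (Wb2 b) x) ≤ 8 * kW N b L / x ^ 2 :=
    b2.trans (div_le_div_of_nonneg_right (mul_le_mul_of_nonneg_left kk2 (by norm_num)) (by positivity))
  set A2 : Pt K X β φ → Prop := fun v => Typ (v.2.1 d) (U {d} v.1 v.2.1) ∧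
    bg ((D.P h t).cond V2) R (Zf2 U c d) (Wb2 b) x v with hA2
  have hRp : Rp h U t b c d (VH D t' univ w0 (xc D U t {b} w0)) Typ A2 := by
    refine ⟨fun v w _ _ _ _ g1 g2 g3 hA => ?_, fun w _ _ hA => hA.1⟩
    have e1 : (fun w : Pt K X β φ => (Wb2 b w, Zf2 U c d w)) v = (fun w => (Wb2 b w, Zf2 U c d w)) w := by
      show (v.2.2 b, (zf U c v, zf U d v)) = (w.2.2 b, (zf U c w, zf U d w))
      rw [g1, g2, g3]
    refine ⟨?_, ?_⟩
    · have g4 := hA.1
      unfold zf at g2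
      rw [Prod.mk.injEq] at g2
      rw [← g2.1, ← g2.2]
      exact g4
    · have e2 := bg_fac (Q := (D.P h t).cond V2) (R := R) (Z := Zf2 U c d) (W := Wb2 b) x v w e1
      rw [← e2]
      exact hA.2
  have key := rel_pair_H (C0 := xc D U t {b} w0) htt hh B J4 J2 (Finset.Subset.refl _)
      (fun j _ _ => Finset.mem_singleton_self b)
      (fun v hv => J4.sub v hv) (fun v hv => J2.sub v hv) (fun v hv => hv) hRp hM0 hM h4 hL2
  have k2 : ((D.P h t).cond (VH D t' univ w0 V2)).Pr A2 ≤ 2 ^ Fintype.card K * (8 * kW N b L / x ^ 2) := by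
    refine (up_all J2 htt hh hsm A2).trans (mul_le_mul_of_nonneg_left ?_ (by positivity))
    exact (FP.Pr_mono _ fun v _ hv => hv.2).trans b2'
  have k4 : ((D.P h t).cond (VH D t' univ w0 V4)).Pr (bg R ((D.P h t).cond V4) (Zf2 U c d) (Wb2 b) x) ≤
      2 ^ Fintype.card K * (8 * kW N b L / x ^ 2) :=
    (up_all J4 htt hh hsm _).trans (mul_le_mul_of_nonneg_left b4' (by positivity))
  have hsub : ((D.P h t).cond (VH D t' univ w0 V4)).Pr (fun v => Typ (v.2.1 d) (U {d} v.1 v.2.1) ∧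
      Real.exp (3 * x) * ((D.P h t).cond V4).pv (Zf2 U c d) (Wb2 b) v (v.2.2 b) ≤
        ((D.P h t).cond V2).pv (Zf2 U c d) (Wb2 b) v (v.2.2 b)) ≤
      ((D.P h t).cond (VH D t' univ w0 V4)).Pr (bg R ((D.P h t).cond V4) (Zf2 U c d) (Wb2 b) x) +
      ((D.P h t).cond (VH D t' univ w0 V4)).Pr A2 := by
    refine le_trans (FP.Pr_mono _ fun v hv hE => ?_) (FP.Pr_or_le _ _ _)
    by_contra hno
    obtain ⟨n1, n2⟩ := not_or.1 hno
    have hv4 := (cond_supp (VH_ne J4) hv)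
    have hp4 : ((D.P h t).cond V4).p v ≠ 0 := (FP.cond_p_ne J4.ne).2 ⟨hv4.1.1, hv4.2⟩
    have n3 : ¬ bg ((D.P h t).cond V2) R (Zf2 U c d) (Wb2 b) x v := fun hh => n2 ⟨hE.1, hh⟩
    unfold bg at n1 n3
    rw [not_lt] at n1 n3
    have hpos : 0 < ((D.P h t).cond V4).pv (Zf2 U c d) (Wb2 b) v (v.2.2 b) := by
      have e1 := FP.pv_self ((D.P h t).cond V4) (Zf2 U c d) (Wb2 b) v
      have e2 : ((D.P h t).cond V4).pv (Zf2 U c d) (Wb2 b) v (v.2.2 b) =
        ((D.P h t).cond V4).pv (Zf2 U c d) (Wb2 b) v (Wb2 b v) := rfl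
      rw [e2, e1]
      exact div_pos (FP.m_pos _ _ hp4) (FP.m_pos _ _ hp4)
    have g1 : ((D.P h t).cond V2).pv (Zf2 U c d) (Wb2 b) v (v.2.2 b) ≤
        Real.exp x * (Real.exp x * ((D.P h t).cond V4).pv (Zf2 U c d) (Wb2 b) v (v.2.2 b)) :=
      n3.trans (mul_le_mul_of_nonneg_left n1 (Real.exp_pos x).le)
    have g2 := hE.2.trans g1
    rw [← mul_assoc, ← Real.exp_add] at g2
    have g3 := le_of_mul_le_mul_right g2 hpos
    have g4 := Real.exp_le_exp.1 g3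
    linarith
  have hkW : 0 ≤ 8 * kW N b L / x ^ 2 := (FP.Pr_nonneg _ _).trans b4'
  have p1 : (1 : ℝ) ≤ 2 ^ Fintype.card K := one_le_pow₀ (by norm_num)
  have k5 : 2 ^ Fintype.card K * (1025 * EP N al M b c d L + 1024 * ((D.P h t).cond (VH D t' univ w0 V2)).Pr A2) ≤
      2 ^ Fintype.card K * (1025 * EP N al M b c d L + 1024 * (2 ^ Fintype.card K * (8 * kW N b L / x ^ 2))) :=
    mul_le_mul_of_nonneg_left (add_le_add le_rfl (mul_le_mul_of_nonneg_left k2 (by norm_num))) (by positivity)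
  have k6 : 2 ^ Fintype.card K * (8 * kW N b L / x ^ 2) ≤
      2 ^ Fintype.card K * (2 ^ Fintype.card K * (8 * kW N b L / x ^ 2)) :=
    mul_le_mul_of_nonneg_left (le_mul_of_one_le_left hkW p1) (by positivity)
  have e3 : (8200 : ℝ) * kW N b L / x ^ 2 = 1025 * (8 * kW N b L / x ^ 2) := by ring
  rw [e3]
  refine hsub.trans ?_
  calc _ ≤ 2 ^ Fintype.card K * (2 ^ Fintype.card K * (8 * kW N b L / x ^ 2)) +
        2 ^ Fintype.card K * (1025 * EP N al M b c d L + 1024 * (2 ^ Fintype.card K * (8 * kW N b L / x ^ 2))) :=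
        add_le_add (k4.trans k6) (key.trans k5)
    _ = _ := by ring

end top

end Pool.Agent.GMH.SngF
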