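import Pool.Agent.GMH.SngF

/-!
# GMH/SngG (helper18): exact points, sides and singles in the frame `Bk`

`V1` : event of the hidden point in the saturated class (`Ix ∅`); `XI I V1 w0` : the points `I` are those of `w0`;
`ev F w0` : the letters `F.1` and the labels `F.2` are those of `w0`.
* `XI_step`, `XI_all` : exact points which the event does not see;
* `V4` : the letter of `b` is that of `w0`; `VS`, `VT` : the letters of `b`, `d` (with the top `c`);
  `LX_V4`, `LX_VT` : surprise = surprise of `V1` + surprise given all points;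
* `ratio_row`, `ratio_col` : the single of the top as ratio of masses of the missing letter, of conditional laws of the top.
-/

set_option autoImplicit false
set_option linter.unusedSectionVars false

namespace Pool.Agent.GMH.SngF

open Finset Pool.Agent.PWZ Pool.Agent.M3 Pool.Agent.GM Pool.Agent.GM.Harm Pool.Agent.GMH Pool.Agent.GMH.RarX
open Pool.Agent.GMH.SngA

section cls

variable {K X β γ φ υ : Type} [Fintype K] [DecidableEq K] [Fintype X] [Fintype β] [Fintype φ] [Nonempty X] [Nonempty β]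
  {D : HD K X β γ φ} {al : ℝ} {h : D.Thick al} {N : Finset K → ℝ} {S : Finset (Finset K)}
  {U : Finset K → X → (K → β) → υ} {t t' : ℕ} {b c d : K} {w0 : Pt K X β φ} {V V1 : Pt K X β φ → Prop}
  {Typ : β → υ → Prop} {M L : ℝ} {I Jc : Finset K} {e : K} {A : Pt K X β φ → Prop} {G : β → Prop}

/-- **the point `e` is independent of the events which do not see it** (any number of exact points) -/
theorem pt_ind (hf : Fac (fun w => (w.1, BB D t I w)) V) (hnod : ∀ v w, V v → V w → BB D t I v = BB D t I w)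
    (hV : V w0) (hne : (D.P h t).Pr V ≠ 0) (hA : Uns h t V e A) :
    ((D.P h t).cond V).Pr (fun v => G (v.2.1 e) ∧ A v) =
      ((D.P h t).cond V).Pr (fun v => G (v.2.1 e)) * ((D.P h t).cond V).Pr A := by
  classical
  have hind := cls_indep3 (h := h) (t := t) (K0 := I) e hf hnod hV hne
  set A1 : Pt K X β φ → Prop := fun p => ∃ v, (D.P h t).p v ≠ 0 ∧ V v ∧ v.1 = p.1 ∧ (∀ j, j ≠ e → v.2.1 j = p.2.1 j) ∧
    v.2.2 e = p.2.2 e ∧ A v with hA1
  have e1 : ∀ v, ((D.P h t).cond V).p v ≠ 0 → A v = A1 v := by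
    intro v hv
    obtain ⟨h1, h2⟩ := cond_supp hne hv
    refine propext ⟨fun hh => ⟨v, h2, h1, rfl, fun _ _ => rfl, rfl, hh⟩, ?_⟩
    rintro ⟨u, a1, a2, a3, a4, a5, a6⟩
    exact hA u v a1 h2 a2 h1 a3 a4 a5 a6
  have h4 := hind (fun v => ind (G (v.2.1 e))) (fun v => ind (A1 v))
    (Fac.ind fun v w hvw => by
      have h1 : v.2.1 e = w.2.1 e := hvw
      show G (v.2.1 e) ↔ G (w.2.1 e)
      rw [h1]) (Fac.ind fun v w hvw => by
      simp only [Prod.mk.injEq] at hvw
      obtain ⟨g1, g2, g3⟩ := hvw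
      have g4 : ∀ j, j ≠ e → v.2.1 j = w.2.1 j := by
        intro j hj
        have g5 := congrFun g2 j
        rw [if_neg hj, if_neg hj] at g5
        exact Option.some.inj g5
      show A1 v ↔ A1 w
      constructor
      · rintro ⟨u, a1, a2, a3, a4, a5, a6⟩
        exact ⟨u, a1, a2, a3.trans g1, fun j hj => (a4 j hj).trans (g4 j hj), a5.trans g3, a6⟩
      · rintro ⟨u, a1, a2, a3, a4, a5, a6⟩
        exact ⟨u, a1, a2, a3.trans g1.symm, fun j hj => (a4 j hj).trans (g4 j hj).symm, a5.trans g3.symm, a6⟩)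
  have h5 : ((D.P h t).cond V).E (fun v => ind (G (v.2.1 e)) * ind (A1 v)) =
      ((D.P h t).cond V).E (fun v => ind (G (v.2.1 e))) * ((D.P h t).cond V).E (fun v => ind (A1 v)) := h4
  unfold FP.Pr
  rw [show ((D.P h t).cond V).E (fun v => ind (G (v.2.1 e) ∧ A v)) =
      ((D.P h t).cond V).E (fun v => ind (G (v.2.1 e)) * ind (A1 v)) from
      FP.E_congr _ fun v hv => by rw [e1 v hv, ind_and],
    show ((D.P h t).cond V).E (fun v => ind (A v)) = ((D.P h t).cond V).E (fun v => ind (A1 v)) from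
      FP.E_congr _ fun v hv => by rw [e1 v hv]]
  exact h5

/-- the points `I` are exact -/
def XI (I : Finset K) (V1 : Pt K X β φ → Prop) (w0 v : Pt K X β φ) : Prop := V1 v ∧ ∀ j ∈ I, v.2.1 j = w0.2.1 j

theorem XI_empty : XI ∅ V1 w0 = V1 := by
  funext v
  exact propext ⟨fun hh => hh.1, fun hh => ⟨hh, fun j hj => absurd hj (Finset.notMem_empty j)⟩⟩

theorem XI_insert : XI (insert e I) V1 w0 = fun v => XI I V1 w0 v ∧ v.2.1 e = w0.2.1 e := by
  funext v
  refine propext ⟨fun hh => ⟨⟨hh.1, fun j hj => hh.2 j (Finset.mem_insert_of_mem hj)⟩, hh.2 e (Finset.mem_insert_self _ _)⟩,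
    fun hh => ⟨hh.1.1, fun j hj => ?_⟩⟩
  rcases Finset.mem_insert.1 hj with h1 | h1
  · rw [h1]; exact hh.2
  · exact hh.1.2 j h1

theorem XI_fac (B : Bk h N S U t b c d) (J : SngA.Ix h U t ∅ w0 V1) (I : Finset K) :
    Fac (fun w => (w.1, BB D t I w)) (XI I V1 w0) := by
  intro v w hvw
  simp only [Prod.mk.injEq, BB_eq] at hvw
  obtain ⟨h1, h2, h3⟩ := hvw
  have e1 : V1 v = V1 w := J.fac B.era v w (by
    simp only [Prod.mk.injEq, BB_eq]
    exact ⟨h1, fun j hj => absurd hj (Finset.notMem_empty j), h3⟩)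
  have e2 : (∀ j ∈ I, v.2.1 j = w0.2.1 j) = ∀ j ∈ I, w.2.1 j = w0.2.1 j :=
    propext ⟨fun hh j hj => (h2 j hj).symm.trans (hh j hj), fun hh j hj => (h2 j hj).trans (hh j hj)⟩
  show (V1 v ∧ ∀ j ∈ I, v.2.1 j = w0.2.1 j) = (V1 w ∧ ∀ j ∈ I, w.2.1 j = w0.2.1 j)
  rw [e1, e2]

theorem XI_sub (J : SngA.Ix h U t ∅ w0 V1) {v : Pt K X β φ} (hv : XI I V1 w0 v) : xc D U t I w0 v := by
  have h1 := J.sub v hv.1
  refine ⟨h1.1, ?_⟩
  have h2 := h1.2
  rw [BB_eq] at h2 ⊢
  exact ⟨hv.2, h2.2⟩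

theorem XI_self (J : SngA.Ix h U t ∅ w0 V1) : XI I V1 w0 w0 := ⟨J.self, fun _ _ => rfl⟩

theorem XI_ne (J : SngA.Ix h U t ∅ w0 V1) : (D.P h t).Pr (XI I V1 w0) ≠ 0 :=
  (FP.Pr_pos_of (S := XI I V1 w0) J.supp (XI_self J)).ne'

theorem XI_nod (J : SngA.Ix h U t ∅ w0 V1) : ∀ v w, XI I V1 w0 v → XI I V1 w0 w → BB D t I v = BB D t I w :=
  fun _ _ hv hw => (XI_sub J hv).2.trans (XI_sub J hw).2.symm

theorem XI_qb (J : SngA.Ix h U t ∅ w0 V1) : ∀ v w, XI I V1 w0 v → XI I V1 w0 w → ∀ j, D.qb t (v.2.1 j) = D.qb t (w.2.1 j) :=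
  fun v w hv hw j => Ix_qb J v w hv.1 hw.1 j

/-- the event with exact points is known at them -/
theorem XI_ix (B : Bk h N S U t b c d) (J : SngA.Ix h U t ∅ w0 V1) (I : Finset K) : SngA.Ix h U t I w0 (XI I V1 w0) where
  ev := by
    intro v w hvw
    refine XI_fac B J I v w ?_
    simp only [Prod.mk.injEq] at hvw ⊢
    exact ⟨hvw.1, hvw.2.1⟩
  self := XI_self J
  supp := J.supp
  sub := fun _ hv => XI_sub J hv

/-- an exact point which the event does not see -/
theorem XI_step (B : Bk h N S U t b c d) (J : SngA.Ix h U t ∅ w0 V1) (hA : Uns h t (XI I V1 w0) e A) :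
    ((D.P h t).cond (XI (insert e I) V1 w0)).Pr A = ((D.P h t).cond (XI I V1 w0)).Pr A := by
  have hne : (D.P h t).Pr (fun v => XI I V1 w0 v ∧ v.2.1 e = w0.2.1 e) ≠ 0 := by
    rw [← XI_insert]
    exact XI_ne J
  have hw : ((D.P h t).cond (XI I V1 w0)).p w0 ≠ 0 := (FP.cond_p_ne (XI_ne J)).2 ⟨XI_self J, J.supp⟩
  have h0 : ((D.P h t).cond (XI I V1 w0)).Pr (fun v => v.2.1 e = w0.2.1 e) ≠ 0 :=
    (FP.Pr_pos_of (S := fun v : Pt K X β φ => v.2.1 e = w0.2.1 e) hw rfl).ne'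
  rw [XI_insert, ← FP.cond_cond hne, cond_Pr h0]
  have h1 := pt_ind (G := fun z => z = w0.2.1 e) (XI_fac B J I) (XI_nod J) (XI_self J) (XI_ne J) hA
  rw [h1, mul_div_cancel_left₀ _ h0]

/-- the surprise does not see exact points -/
theorem LX_XI (B : Bk h N S U t b c d) (J : SngA.Ix h U t ∅ w0 V1) (hI : ∀ l : K, ¬ univ.erase l ⊆ I) (e : K) :
    LX h U t (insert e I) w0 (XI (insert e I) V1 w0) = LX h U t I w0 (XI I V1 w0) := by
  rw [XI_insert]
  exact LX_ins B (XI_ix B J I) hI e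

theorem LX_one (B : Bk h N S U t b c d) (J : SngA.Ix h U t ∅ w0 V1) (e : K) :
    LX h U t {e} w0 (XI {e} V1 w0) = LX h U t ∅ w0 V1 := by
  have h1 := LX_XI B J B.era e
  rw [LawfulSingleton.insert_empty_eq e, XI_empty] at h1
  exact h1

theorem LX_side (B : Bk h N S U t b c d) (J : SngA.Ix h U t ∅ w0 V1) :
    LX h U t (univ.erase c) w0 (XI (univ.erase c) V1 w0) = LX h U t ∅ w0 V1 := by
  rw [erase_eq B, LX_XI B J (small_one B d) b, LX_one B J d]

/-- the surprise of a smaller event -/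
theorem LX_and (J : SngA.Ix h U t I w0 V) (A : Pt K X β φ → Prop) (hA : A w0) :
    LX h U t I w0 (fun v => V v ∧ A v) = LX h U t I w0 V + Real.log (1 / ((D.P h t).cond V).Pr A) := by
  have h1 : (QX h U t I w0).Pr (fun v => V v ∧ A v) = (QX h U t I w0).Pr V * ((D.P h t).cond V).Pr A := by
    rw [← J.condX, cond_Pr J.neX]
    exact (mul_div_cancel₀ _ J.neX).symm
  have h2 : 0 < (QX h U t I w0).Pr V := lt_of_le_of_ne ((QX h U t I w0).Pr_nonneg _) J.neX.symm
  have hw : ((D.P h t).cond V).p w0 ≠ 0 := (FP.cond_p_ne J.ne).2 ⟨J.self, J.supp⟩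
  have h3 : 0 < ((D.P h t).cond V).Pr A := FP.Pr_pos_of (S := A) hw hA
  unfold LX
  rw [h1, ← Real.log_mul (by positivity) (by positivity)]
  congr 1
  field_simp

/-! ### letters and labels of a family -/

/-- the letters `F.1` and the labels `F.2` are those of `w0` -/
def ev (U : Finset K → X → (K → β) → υ) (F : Finset K × Finset K) (w0 v : Pt K X β φ) : Prop :=
  (∀ j ∈ F.1, zf U j v = zf U j w0) ∧ ∀ i ∈ F.2, v.2.2 i = w0.2.2 i

theorem ev_self (F : Finset K × Finset K) : ev U F w0 w0 := ⟨fun _ _ => rfl, fun _ _ => rfl⟩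

/-- the event does not see `e` if the letter of `e` and the labels of the other vertices are not in the family -/
theorem ev_uns (B : Bk h N S U t b c d) (hV : ∀ v w, V v → V w → ∀ j, D.qb t (v.2.1 j) = D.qb t (w.2.1 j))
    {F : Finset K × Finset K} (h1 : e ∉ F.1) (h2 : ∀ i ∈ F.2, i = e) : Uns h t V e (ev U F w0) := by
  intro v w a1 a2 hVv hVw g1 g2 g3 hv
  refine ⟨fun j hj => ?_, fun i hi => ?_⟩
  · have h4 := let_uns (h := h) (V := V) B hV (fun hh : e = j => h1 (hh ▸ hj)) (fun z => zf U j v = z) v w a1 a2 hVv hVw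
      g1 g2 g3 rfl
    exact h4.symm.trans (hv.1 j hj)
  · have h5 := hv.2 i hi
    rw [h2 i hi] at h5 ⊢
    rw [← g3]
    exact h5

/-- the letter of `b` is that of `w0` -/
def V4 (U : Finset K → X → (K → β) → υ) (b : K) (V1 : Pt K X β φ → Prop) (w0 v : Pt K X β φ) : Prop :=
  XI {b} V1 w0 v ∧ ev U ({b}, ∅) w0 v

/-- the letters of `b`, `d` and the labels `L` are those of `w0` -/
def VF (U : Finset K → X → (K → β) → υ) (c : K) (L : Finset K) (V1 : Pt K X β φ → Prop) (w0 v : Pt K X β φ) : Prop :=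
  XI (univ.erase c) V1 w0 v ∧ ev U (univ.erase c, L) w0 v

theorem V4_ix (B : Bk h N S U t b c d) (J : SngA.Ix h U t ∅ w0 V1) : SngA.Ix h U t {b} w0 (V4 U b V1 w0) where
  ev := by
    intro v w hvw
    simp only [Prod.mk.injEq] at hvw
    have e1 := XI_fac B J {b} v w (by rw [Prod.mk.injEq]; exact ⟨hvw.1, hvw.2.1⟩)
    have h2 := hvw.2.1
    rw [BB_eq] at h2
    have h3 : v.2.1 b = w.2.1 b := h2.1 b (Finset.mem_singleton_self b)
    have e2 : zf U b v = zf U b w := by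
      unfold zf
      rw [Prod.mk.injEq, hvw.1]
      exact ⟨h3, B.dep {b} w.1 v.2.1 w.2.1 (fun j hj => by rw [Finset.mem_singleton.1 hj]; exact h3) h2.2.2⟩
    have e3 : ev U ({b}, ∅) w0 v = ev U ({b}, ∅) w0 w := by
      refine propext ⟨fun hh => ⟨fun j hj => ?_, fun i hi => absurd hi (Finset.notMem_empty i)⟩,
        fun hh => ⟨fun j hj => ?_, fun i hi => absurd hi (Finset.notMem_empty i)⟩⟩
      · rw [Finset.mem_singleton.1 hj, ← e2]; exact hh.1 b (Finset.mem_singleton_self b)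
      · rw [Finset.mem_singleton.1 hj, e2]; exact hh.1 b (Finset.mem_singleton_self b)
    show (XI {b} V1 w0 v ∧ ev U ({b}, ∅) w0 v) = (XI {b} V1 w0 w ∧ ev U ({b}, ∅) w0 w)
    rw [e1, e3]
  self := ⟨XI_self J, ev_self _⟩
  supp := J.supp
  sub := fun _ hv => XI_sub J hv.1

theorem VF_ix (B : Bk h N S U t b c d) (J : SngA.Ix h U t ∅ w0 V1) {L : Finset K} (hL : ∀ i ∈ L, i = c) :
    SngA.Ix h U t (univ.erase c) w0 (VF U c L V1 w0) where
  ev := by
    intro v w hvw
    simp only [Prod.mk.injEq] at hvw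
    have e1 := XI_fac B J (univ.erase c) v w (by rw [Prod.mk.injEq]; exact ⟨hvw.1, hvw.2.1⟩)
    have h2 := hvw.2.1
    rw [BB_eq] at h2
    have e2 : ∀ j ∈ univ.erase c, zf U j v = zf U j w := by
      intro j hj
      have h3 : v.2.1 j = w.2.1 j := h2.1 j hj
      unfold zf
      rw [Prod.mk.injEq, hvw.1]
      exact ⟨h3, B.dep {j} w.1 v.2.1 w.2.1 (fun k hk => by rw [Finset.mem_singleton.1 hk]; exact h3) h2.2.2⟩
    have e4 : v.2.2 c = w.2.2 c := by
      have e2 := congrFun hvw.2.2 c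
      unfold tl at e2
      have hcb : b ∈ univ.erase c := Finset.mem_erase.2 ⟨B.bc, mem_univ b⟩
      rw [if_pos ⟨Finset.Subset.refl _, b, hcb, B.bc⟩, if_pos ⟨Finset.Subset.refl _, b, hcb, B.bc⟩] at e2
      exact Option.some.inj e2
    have e3 : ev U (univ.erase c, L) w0 v = ev U (univ.erase c, L) w0 w := by
      refine propext ⟨fun hh => ⟨fun j hj => ?_, fun i hi => ?_⟩, fun hh => ⟨fun j hj => ?_, fun i hi => ?_⟩⟩
      · rw [← e2 j hj]; exact hh.1 j hj
      · have h5 := hh.2 i hi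
        rw [hL i hi] at h5 ⊢
        rw [← e4]
        exact h5
      · rw [e2 j hj]; exact hh.1 j hj
      · have h5 := hh.2 i hi
        rw [hL i hi] at h5 ⊢
        rw [e4]
        exact h5
    show (XI (univ.erase c) V1 w0 v ∧ ev U (univ.erase c, L) w0 v) = (XI (univ.erase c) V1 w0 w ∧ ev U (univ.erase c, L) w0 w)
    rw [e1, e3]
  self := ⟨XI_self J, ev_self _⟩
  supp := J.supp
  sub := fun _ hv => XI_sub J hv.1

/-- the letter of `b` does not see the other points -/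
theorem ev_b_all (B : Bk h N S U t b c d) (J : SngA.Ix h U t ∅ w0 V1) :
    ((D.P h t).cond (XI univ V1 w0)).Pr (ev U ({b}, ∅) w0) = ((D.P h t).cond (XI {b} V1 w0)).Pr (ev U ({b}, ∅) w0) := by
  have u : ∀ (I' : Finset K) (e : K), e ≠ b → Uns h t (XI I' V1 w0) e (ev U ({b}, ∅) w0) := by
    intro I' e he
    exact ev_uns B (XI_qb J) (fun hh => he (Finset.mem_singleton.1 hh)) (fun i hi => absurd hi (Finset.notMem_empty i))
  have e1 : (univ : Finset K) = insert d (insert c {b}) := by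
    ext j
    simp only [Finset.mem_univ, Finset.mem_insert, Finset.mem_singleton, true_iff]
    rcases B.all j with h2 | h2 | h2
    · exact Or.inr (Or.inr h2)
    · exact Or.inr (Or.inl h2)
    · exact Or.inl h2
  rw [e1, XI_step B J (u (insert c {b}) d B.bd.symm), XI_step B J (u {b} c B.bc.symm)]

/-- the side of `c` does not see the point `c` -/
theorem ev_side_all (B : Bk h N S U t b c d) (J : SngA.Ix h U t ∅ w0 V1) {L : Finset K} (hL : ∀ i ∈ L, i = c) :
    ((D.P h t).cond (XI univ V1 w0)).Pr (ev U (univ.erase c, L) w0) =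
      ((D.P h t).cond (XI (univ.erase c) V1 w0)).Pr (ev U (univ.erase c, L) w0) := by
  have h1 := XI_step (I := univ.erase c) (e := c) B J (ev_uns (w0 := w0) (F := (univ.erase c, L)) B (XI_qb J)
    (Finset.notMem_erase c univ) hL)
  rw [Finset.insert_erase (mem_univ c)] at h1
  exact h1

theorem LX_V4 (B : Bk h N S U t b c d) (J : SngA.Ix h U t ∅ w0 V1) : LX h U t {b} w0 (V4 U b V1 w0) =
    LX h U t ∅ w0 V1 + Real.log (1 / ((D.P h t).cond (XI univ V1 w0)).Pr (ev U ({b}, ∅) w0)) := by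
  rw [ev_b_all B J, ← LX_one B J b]
  exact LX_and (XI_ix B J {b}) _ (ev_self _)

theorem LX_VF (B : Bk h N S U t b c d) (J : SngA.Ix h U t ∅ w0 V1) {L : Finset K} (hL : ∀ i ∈ L, i = c) :
    LX h U t (univ.erase c) w0 (VF U c L V1 w0) =
    LX h U t ∅ w0 V1 + Real.log (1 / ((D.P h t).cond (XI univ V1 w0)).Pr (ev U (univ.erase c, L) w0)) := by
  rw [ev_side_all B J hL, ← LX_side B J]
  exact LX_and (XI_ix B J (univ.erase c)) _ (ev_self _)

/-! ### the single of the top -/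

/-- log probability of the family given all points -/
noncomputable def lfE (h : D.Thick al) (U : Finset K → X → (K → β) → υ) (t : ℕ) (V1 : Pt K X β φ → Prop) (F : Finset K × Finset K)
    (u : Pt K X β φ) : ℝ := Real.log (((D.P h t).cond (XI univ V1 u)).Pr (ev U F u))

/-- the single of the top `i` -/
noncomputable def psE (h : D.Thick al) (U : Finset K → X → (K → β) → υ) (t : ℕ) (V1 : Pt K X β φ → Prop) (i : K) (u : Pt K X β φ) : ℝ :=
  lfE h U t V1 (univ, {i}) u - lfE h U t V1 (univ, ∅) u -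
    (lfE h U t V1 (univ.erase i, {i}) u - lfE h U t V1 (univ.erase i, ∅) u)

theorem cond_pos {V : Pt K X β φ → Prop} {u : Pt K X β φ} (hp : (D.P h t).p u ≠ 0) (hV : V u) (hA : A u) :
    0 < ((D.P h t).cond V).Pr A := by
  have h1 : (D.P h t).Pr V ≠ 0 := (FP.Pr_pos_of (S := V) hp hV).ne'
  exact FP.Pr_pos_of (S := A) ((FP.cond_p_ne h1).2 ⟨hV, hp⟩) hA

theorem lfE_eq {F : Finset K × Finset K} {u : Pt K X β φ} (hp : (D.P h t).p u ≠ 0) (hV : V1 u) :
    lfE h U t V1 F u = Real.log ((D.P h t).Pr (fun v => XI univ V1 u v ∧ ev U F u v)) -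
      Real.log ((D.P h t).Pr (XI univ V1 u)) := by
  have h0 : XI univ V1 u u := ⟨hV, fun _ _ => rfl⟩
  have h1 : (D.P h t).Pr (XI univ V1 u) ≠ 0 := (FP.Pr_pos_of (S := XI univ V1 u) hp h0).ne'
  have h2 : (D.P h t).Pr (fun v => XI univ V1 u v ∧ ev U F u v) ≠ 0 :=
    (FP.Pr_pos_of (S := fun v => XI univ V1 u v ∧ ev U F u v) hp ⟨h0, ev_self F⟩).ne'
  unfold lfE
  rw [cond_Pr h1, Real.log_div h2 h1]

/-- conditional law of the top at the true label -/
theorem pv_ratio {P : FP (Pt K X β φ)} {C : Pt K X β φ → Prop} {ζ : Type*} {Z : Pt K X β φ → ζ} (hC : P.Pr C ≠ 0)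
    (b : K) (u : Pt K X β φ) : (P.cond C).pv Z (Wb2 b) u (u.2.2 b) =
      P.Pr (fun v => (C v ∧ Z v = Z u) ∧ v.2.2 b = u.2.2 b) / P.Pr (fun v => C v ∧ Z v = Z u) := by
  rw [SngM.pv_cond hC]
  congr 1
  exact P.E_congr fun v _ => (ind_and _ _).symm

/-- **the single of the top is the ratio of its laws with and without the letter of `b`** -/
theorem ratio_col (B : Bk h N S U t b c d) (J : SngA.Ix h U t ∅ w0 V1) {u : Pt K X β φ} (hp : (D.P h t).p u ≠ 0)
    (hu : V4 U b V1 w0 u) :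
    Real.exp (psE h U t V1 b u) * ((D.P h t).cond (fun v => V1 v ∧ v.2.1 b = w0.2.1 b)).pv (Zf2 U c d) (Wb2 b) u (u.2.2 b) =
      ((D.P h t).cond (V4 U b V1 w0)).pv (Zf2 U c d) (Wb2 b) u (u.2.2 b) := by
  have hV1 : V1 u := hu.1.1
  have hub : u.2.1 b = w0.2.1 b := hu.1.2 b (Finset.mem_singleton_self b)
  have hzb : zf U b u = zf U b w0 := hu.2.1 b (Finset.mem_singleton_self b)
  have n1 : (D.P h t).Pr (fun v => V1 v ∧ v.2.1 b = w0.2.1 b) ≠ 0 :=
    (FP.Pr_pos_of (S := fun v => V1 v ∧ v.2.1 b = w0.2.1 b) hp ⟨hV1, hub⟩).ne'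
  have n4 : (D.P h t).Pr (V4 U b V1 w0) ≠ 0 := (V4_ix B J).ne
  have h0 : XI univ V1 u u := ⟨hV1, fun _ _ => rfl⟩
  -- events
  have eZ4 : (fun v => V4 U b V1 w0 v ∧ Zf2 U c d v = Zf2 U c d u) = fun v => XI univ V1 u v ∧ ev U (univ, ∅) u v := by
    funext v
    refine propext ⟨fun hh => ?_, fun hh => ?_⟩
    · obtain ⟨h1, h2⟩ := hh
      unfold Zf2 at h2
      rw [Prod.mk.injEq] at h2
      have hall : ∀ j, zf U j v = zf U j u := by
        intro j
        rcases B.all j with rfl | rfl | rfl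
        · exact (h1.2.1 j (Finset.mem_singleton_self j)).trans hzb.symm
        · exact h2.1
        · exact h2.2
      exact ⟨⟨h1.1.1, fun j _ => congrArg Prod.fst (hall j)⟩, fun j _ => hall j, fun i hi => absurd hi (Finset.notMem_empty i)⟩
    · obtain ⟨h1, h2⟩ := hh
      refine ⟨⟨⟨h1.1, fun j hj => ?_⟩, fun j hj => ?_, fun i hi => absurd hi (Finset.notMem_empty i)⟩, ?_⟩
      · rw [Finset.mem_singleton.1 hj]; exact (h1.2 b (mem_univ b)).trans hub
      · rw [Finset.mem_singleton.1 hj]; exact (h2.1 b (mem_univ b)).trans hzb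
      · show (zf U c v, zf U d v) = (zf U c u, zf U d u)
        rw [h2.1 c (mem_univ c), h2.1 d (mem_univ d)]
  have eW4 : (fun v => (V4 U b V1 w0 v ∧ Zf2 U c d v = Zf2 U c d u) ∧ v.2.2 b = u.2.2 b) =
      fun v => XI univ V1 u v ∧ ev U (univ, {b}) u v := by
    funext v
    have e0 := congrFun eZ4 v
    refine propext ⟨fun hh => ?_, fun hh => ?_⟩
    · have h1 : XI univ V1 u v ∧ ev U (univ, ∅) u v := by rw [← e0]; exact hh.1
      exact ⟨h1.1, h1.2.1, fun i hi => by rw [Finset.mem_singleton.1 hi]; exact hh.2⟩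
    · have h1 : V4 U b V1 w0 v ∧ Zf2 U c d v = Zf2 U c d u := by
        rw [e0]; exact ⟨hh.1, hh.2.1, fun i hi => absurd hi (Finset.notMem_empty i)⟩
      exact ⟨h1, hh.2.2 b (Finset.mem_singleton_self b)⟩
  have eZ1 : (fun v => (V1 v ∧ v.2.1 b = w0.2.1 b) ∧ Zf2 U c d v = Zf2 U c d u) =
      fun v => XI univ V1 u v ∧ ev U (univ.erase b, ∅) u v := by
    funext v
    refine propext ⟨fun hh => ?_, fun hh => ?_⟩
    · obtain ⟨h1, h2⟩ := hh
      unfold Zf2 at h2
      rw [Prod.mk.injEq] at h2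
      have hall : ∀ j, j ≠ b → zf U j v = zf U j u := by
        intro j hj
        rcases B.all j with rfl | rfl | rfl
        · exact absurd rfl hj
        · exact h2.1
        · exact h2.2
      refine ⟨⟨h1.1, fun j _ => ?_⟩, fun j hj => hall j (Finset.mem_erase.1 hj).1,
        fun i hi => absurd hi (Finset.notMem_empty i)⟩
      by_cases hj : j = b
      · rw [hj]; exact h1.2.trans hub.symm
      · exact congrArg Prod.fst (hall j hj)
    · obtain ⟨h1, h2⟩ := hh
      refine ⟨⟨h1.1, (h1.2 b (mem_univ b)).trans hub⟩, ?_⟩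
      show (zf U c v, zf U d v) = (zf U c u, zf U d u)
      rw [h2.1 c (Finset.mem_erase.2 ⟨B.bc.symm, mem_univ c⟩), h2.1 d (Finset.mem_erase.2 ⟨B.bd.symm, mem_univ d⟩)]
  have eW1 : (fun v => ((V1 v ∧ v.2.1 b = w0.2.1 b) ∧ Zf2 U c d v = Zf2 U c d u) ∧ v.2.2 b = u.2.2 b) =
      fun v => XI univ V1 u v ∧ ev U (univ.erase b, {b}) u v := by
    funext v
    have e0 := congrFun eZ1 v
    refine propext ⟨fun hh => ?_, fun hh => ?_⟩
    · have h1 : XI univ V1 u v ∧ ev U (univ.erase b, ∅) u v := by rw [← e0]; exact hh.1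
      exact ⟨h1.1, h1.2.1, fun i hi => by rw [Finset.mem_singleton.1 hi]; exact hh.2⟩
    · have h1 : (V1 v ∧ v.2.1 b = w0.2.1 b) ∧ Zf2 U c d v = Zf2 U c d u := by
        rw [e0]; exact ⟨hh.1, hh.2.1, fun i hi => absurd hi (Finset.notMem_empty i)⟩
      exact ⟨h1, hh.2.2 b (Finset.mem_singleton_self b)⟩
  rw [pv_ratio n1, pv_ratio n4, eZ4, eW4, eZ1, eW1]
  have q : ∀ F : Finset K × Finset K, 0 < (D.P h t).Pr (fun v => XI univ V1 u v ∧ ev U F u v) := fun F =>
    FP.Pr_pos_of (S := fun v => XI univ V1 u v ∧ ev U F u v) hp ⟨h0, ev_self F⟩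
  have q1 := q (univ, {b})
  have q2 := q (univ, ∅)
  have q3 := q (univ.erase b, {b})
  have q4 := q (univ.erase b, ∅)
  unfold psE
  rw [lfE_eq hp hV1, lfE_eq hp hV1, lfE_eq hp hV1, lfE_eq hp hV1]
  set x1 := (D.P h t).Pr (fun v => XI univ V1 u v ∧ ev U (univ, {b}) u v)
  set x2 := (D.P h t).Pr (fun v => XI univ V1 u v ∧ ev U (univ, ∅) u v)
  set x3 := (D.P h t).Pr (fun v => XI univ V1 u v ∧ ev U (univ.erase b, {b}) u v)
  set x4 := (D.P h t).Pr (fun v => XI univ V1 u v ∧ ev U (univ.erase b, ∅) u v)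
  have e1 : Real.log x1 - Real.log ((D.P h t).Pr (XI univ V1 u)) - (Real.log x2 - Real.log ((D.P h t).Pr (XI univ V1 u))) -
      (Real.log x3 - Real.log ((D.P h t).Pr (XI univ V1 u)) - (Real.log x4 - Real.log ((D.P h t).Pr (XI univ V1 u)))) =
      Real.log (x1 / x2 / (x3 / x4)) := by
    rw [Real.log_div (div_pos q1 q2).ne' (div_pos q3 q4).ne', Real.log_div q1.ne' q2.ne', Real.log_div q3.ne' q4.ne']
    ring
  rw [e1, Real.exp_log (div_pos (div_pos q1 q2) (div_pos q3 q4))]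
  field_simp

/-- **the single of the top is the ratio of the masses of the missing letter** -/
theorem ratio_row (B : Bk h N S U t b c d) (J : SngA.Ix h U t ∅ w0 V1) {u : Pt K X β φ}
    (hp : (D.P h t).p u ≠ 0) (hu : VH D t' univ w0 (VF U c {c} V1 w0) u) :
    psE h U t V1 c u = Real.log (((D.P h t).cond (VH D t' univ w0 (VF U c {c} V1 w0))).m (zf U c) u /
      ((D.P h t).cond (VH D t' univ w0 (VF U c ∅ V1 w0))).m (zf U c) u) := by
  classical
  have hV1 : V1 u := hu.1.1.1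
  have hpt : ∀ j, j ≠ c → u.2.1 j = w0.2.1 j := fun j hj => hu.1.1.2 j (Finset.mem_erase.2 ⟨hj, mem_univ j⟩)
  have hz : ∀ j, j ≠ c → zf U j u = zf U j w0 := fun j hj => hu.1.2.1 j (Finset.mem_erase.2 ⟨hj, mem_univ j⟩)
  have hl : u.2.2 c = w0.2.2 c := hu.1.2.2 c (Finset.mem_singleton_self c)
  have hcell : ∀ j, D.qb t' (u.2.1 j) = D.qb t' (w0.2.1 j) := fun j => hu.2 j (mem_univ j)
  have h0 : XI univ V1 u u := ⟨hV1, fun _ _ => rfl⟩
  set V : Pt K X β φ → Prop := XI (univ.erase c) V1 w0 with hVd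
  have hVne : (D.P h t).Pr V ≠ 0 := XI_ne J
  have hVu : V u := hu.1.1
  have hpV : ((D.P h t).cond V).p u ≠ 0 := (FP.cond_p_ne hVne).2 ⟨hVu, hp⟩
  -- families with and without the label
  have key : ∀ L : Finset K, (∀ i ∈ L, i = c) →
      ((D.P h t).cond (VH D t' univ w0 (VF U c L V1 w0))).m (zf U c) u *
        (((D.P h t).cond V).Pr (fun v => D.qb t' (v.2.1 c) = D.qb t' (w0.2.1 c)) *
          (D.P h t).Pr (fun v => XI univ V1 u v ∧ ev U (univ.erase c, L) u v)) =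
      ((D.P h t).cond V).Pr (fun v => v.2.1 c = u.2.1 c) *
        (D.P h t).Pr (fun v => XI univ V1 u v ∧ ev U (univ, L) u v) := by
    intro L hL
    have hLu : ∀ i ∈ L, u.2.2 i = w0.2.2 i := fun i hi => by rw [hL i hi]; exact hl
    have hC : VH D t' univ w0 (VF U c L V1 w0) u :=
      ⟨⟨hVu, fun j hj => hz j (Finset.mem_erase.1 hj).1, hLu⟩, hu.2⟩
    have hCne : (D.P h t).Pr (VH D t' univ w0 (VF U c L V1 w0)) ≠ 0 :=
      (FP.Pr_pos_of (S := VH D t' univ w0 (VF U c L V1 w0)) hp hC).ne'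
    have m1 : ((D.P h t).cond (VH D t' univ w0 (VF U c L V1 w0))).m (zf U c) u =
        (D.P h t).Pr (fun v => VH D t' univ w0 (VF U c L V1 w0) v ∧ zf U c v = zf U c u) /
          (D.P h t).Pr (VH D t' univ w0 (VF U c L V1 w0)) := cond_Pr hCne _
    have e1 : (fun v => VH D t' univ w0 (VF U c L V1 w0) v ∧ zf U c v = zf U c u) =
        fun v => XI univ V1 u v ∧ ev U (univ, L) u v := by
      funext v
      refine propext ⟨fun hh => ?_, fun hh => ?_⟩
      · obtain ⟨⟨⟨h1, h2⟩, h3⟩, h4⟩ := hh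
        have hall : ∀ j, zf U j v = zf U j u := by
          intro j
          by_cases hj : j = c
          · rw [hj]; exact h4
          · exact (h2.1 j (Finset.mem_erase.2 ⟨hj, mem_univ j⟩)).trans (hz j hj).symm
        exact ⟨⟨h1.1, fun j _ => congrArg Prod.fst (hall j)⟩, fun j _ => hall j,
          fun i hi => (h2.2 i hi).trans (hLu i hi).symm⟩
      · obtain ⟨h1, h2⟩ := hh
        refine ⟨⟨⟨⟨h1.1, fun j hj => ?_⟩, fun j hj => ?_, fun i hi => (h2.2 i hi).trans (hLu i hi)⟩, fun j _ => ?_⟩, h2.1 c (mem_univ c)⟩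
        · exact (h1.2 j (mem_univ j)).trans (hpt j (Finset.mem_erase.1 hj).1)
        · exact (h2.1 j (mem_univ j)).trans (hz j (Finset.mem_erase.1 hj).1)
        · rw [h1.2 j (mem_univ j)]; exact hcell j
    have uA : Uns h t V c (ev U (univ.erase c, L) w0) := ev_uns B (XI_qb J) (Finset.notMem_erase c univ) hL
    have i1 := pt_ind (G := fun z => D.qb t' z = D.qb t' (w0.2.1 c)) (XI_fac B J _) (XI_nod J) (XI_self J) (XI_ne J) uA
    have i2 := pt_ind (G := fun z => z = u.2.1 c) (XI_fac B J _) (XI_nod J) (XI_self J) (XI_ne J) uA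
    -- the masses
    have e2 : (D.P h t).Pr (VH D t' univ w0 (VF U c L V1 w0)) = (D.P h t).Pr V *
        (((D.P h t).cond V).Pr (fun v => D.qb t' (v.2.1 c) = D.qb t' (w0.2.1 c)) *
          ((D.P h t).cond V).Pr (ev U (univ.erase c, L) w0)) := by
      rw [← i1, cond_Pr hVne, mul_div_cancel₀ _ hVne]
      congr 1
      funext v
      refine propext ⟨fun hh => ⟨hh.1.1, hh.2 c (mem_univ c), hh.1.2⟩, fun hh => ⟨⟨hh.1, hh.2.2⟩, fun j _ => ?_⟩⟩
      by_cases hj : j = c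
      · rw [hj]; exact hh.2.1
      · rw [hh.1.2 j (Finset.mem_erase.2 ⟨hj, mem_univ j⟩)]
    have e3 : (D.P h t).Pr (fun v => XI univ V1 u v ∧ ev U (univ.erase c, L) u v) = (D.P h t).Pr V *
        (((D.P h t).cond V).Pr (fun v => v.2.1 c = u.2.1 c) *
          ((D.P h t).cond V).Pr (ev U (univ.erase c, L) w0)) := by
      rw [← i2, cond_Pr hVne, mul_div_cancel₀ _ hVne]
      congr 1
      funext v
      refine propext ⟨fun hh => ?_, fun hh => ?_⟩
      · obtain ⟨h1, h2⟩ := hh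
        refine ⟨⟨h1.1, fun j hj => (h1.2 j (mem_univ j)).trans (hpt j (Finset.mem_erase.1 hj).1)⟩, h1.2 c (mem_univ c),
          fun j hj => (h2.1 j hj).trans (hz j (Finset.mem_erase.1 hj).1), fun i hi => (h2.2 i hi).trans (hLu i hi)⟩
      · obtain ⟨h1, h2, h3⟩ := hh
        refine ⟨⟨h1.1, fun j _ => ?_⟩, fun j hj => (h3.1 j hj).trans (hz j (Finset.mem_erase.1 hj).1).symm,
          fun i hi => (h3.2 i hi).trans (hLu i hi).symm⟩
        by_cases hj : j = c
        · rw [hj]; exact h2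
        · exact (h1.2 j (Finset.mem_erase.2 ⟨hj, mem_univ j⟩)).trans (hpt j hj).symm
    have hcell0 : ((D.P h t).cond V).Pr (fun v => D.qb t' (v.2.1 c) = D.qb t' (w0.2.1 c)) ≠ 0 :=
      (FP.Pr_pos_of (S := fun v : Pt K X β φ => D.qb t' (v.2.1 c) = D.qb t' (w0.2.1 c)) hpV (hcell c)).ne'
    have hev0 : ((D.P h t).cond V).Pr (ev U (univ.erase c, L) w0) ≠ 0 :=
      (FP.Pr_pos_of (S := ev U (univ.erase c, L) w0) hpV
        ⟨fun j hj => hz j (Finset.mem_erase.1 hj).1, hLu⟩).ne'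
    rw [m1, e1, e2, e3]
    field_simp
  have q : ∀ F : Finset K × Finset K, 0 < (D.P h t).Pr (fun v => XI univ V1 u v ∧ ev U F u v) := fun F =>
    FP.Pr_pos_of (S := fun v => XI univ V1 u v ∧ ev U F u v) hp ⟨h0, ev_self F⟩
  have q1 := q (univ, {c})
  have q2 := q (univ, ∅)
  have q3 := q (univ.erase c, {c})
  have q4 := q (univ.erase c, ∅)
  have kT := key {c} fun i hi => Finset.mem_singleton.1 hi
  have kS := key ∅ fun i hi => absurd hi (Finset.notMem_empty i)
  have hcellp : 0 < ((D.P h t).cond V).Pr (fun v => D.qb t' (v.2.1 c) = D.qb t' (w0.2.1 c)) :=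
    FP.Pr_pos_of (S := fun v : Pt K X β φ => D.qb t' (v.2.1 c) = D.qb t' (w0.2.1 c)) hpV (hcell c)
  have hptp : 0 < ((D.P h t).cond V).Pr (fun v => v.2.1 c = u.2.1 c) :=
    FP.Pr_pos_of (S := fun v : Pt K X β φ => v.2.1 c = u.2.1 c) hpV rfl
  unfold psE
  rw [lfE_eq hp hV1, lfE_eq hp hV1, lfE_eq hp hV1, lfE_eq hp hV1]
  set x1 := (D.P h t).Pr (fun v => XI univ V1 u v ∧ ev U (univ, {c}) u v)
  set x2 := (D.P h t).Pr (fun v => XI univ V1 u v ∧ ev U (univ, ∅) u v)
  set x3 := (D.P h t).Pr (fun v => XI univ V1 u v ∧ ev U (univ.erase c, {c}) u v)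
  set x4 := (D.P h t).Pr (fun v => XI univ V1 u v ∧ ev U (univ.erase c, ∅) u v)
  set mT := ((D.P h t).cond (VH D t' univ w0 (VF U c {c} V1 w0))).m (zf U c) u
  set mS := ((D.P h t).cond (VH D t' univ w0 (VF U c ∅ V1 w0))).m (zf U c) u
  set r1 := ((D.P h t).cond V).Pr (fun v => D.qb t' (v.2.1 c) = D.qb t' (w0.2.1 c))
  set r2 := ((D.P h t).cond V).Pr (fun v => v.2.1 c = u.2.1 c)
  have eT : mT = r2 * x1 / (r1 * x3) := by
    rw [eq_div_iff (mul_pos hcellp q3).ne']
    exact kT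
  have eS : mS = r2 * x2 / (r1 * x4) := by
    rw [eq_div_iff (mul_pos hcellp q4).ne']
    exact kS
  have e1 : Real.log x1 - Real.log ((D.P h t).Pr (XI univ V1 u)) - (Real.log x2 - Real.log ((D.P h t).Pr (XI univ V1 u))) -
      (Real.log x3 - Real.log ((D.P h t).Pr (XI univ V1 u)) - (Real.log x4 - Real.log ((D.P h t).Pr (XI univ V1 u)))) =
      Real.log (x1 / x2 / (x3 / x4)) := by
    rw [Real.log_div (div_pos q1 q2).ne' (div_pos q3 q4).ne', Real.log_div q1.ne' q2.ne', Real.log_div q3.ne' q4.ne']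
    ring
  rw [e1]
  congr 1
  rw [eT, eS]
  field_simp

end cls

end Pool.Agent.GMH.SngF
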