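import Pool.Agent.GMH.SngT

/-!
# GMH/SngG0 (helper80): the missing letter at exact points, sharp half cells; large surprises of a top (kind `S`)

* `box_half1`, `hc_half` : all points exact up to `c`: the half cells have mass at least `1 / 2`;
* `l1_2`, **`mis2`** : `P (2 m2 < m1 | V3) ≤ 12 √(2 kI)`;
* **`bad_gen`** : few values of `T` for one value of `J` and `P (J | C)` not small: `P (A, P (T | C) small) ≤ exp (-n) P (R)`.
-/

set_option autoImplicit false
set_option linter.unusedSectionVars false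

namespace Pool.Agent.GMH.SngA

open Finset Pool.Agent.PWZ Pool.Agent.M3 Pool.Agent.GM Pool.Agent.GM.Harm Pool.Agent.GMH Pool.Agent.GMH.RarX

section gen

variable {Om τ ι κ : Type*} [Fintype Om] (P : FP Om)

/-- **large surprises of a map with few values** -/
theorem bad_gen {T : Om → τ} {J : Om → ι} {C : Om → κ} (hTC : Fac T C) (hJC : Fac J C) {A R : Om → Prop}
    (hR : Fac J R) (hAR : ∀ w, P.p w ≠ 0 → A w → R w) {X0 Y0 n : ℝ}
    (hsp : ∀ w, P.p w ≠ 0 → A w → sp P J C w ≤ X0)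
    (hfew : ∀ w0, P.p w0 ≠ 0 → A w0 → ∃ s : Finset τ, (s.card : ℝ) ≤ Real.exp Y0 ∧
      ∀ w, P.p w ≠ 0 → A w → J w = J w0 → T w ∈ s) :
    P.Pr (fun w => A w ∧ X0 + Y0 + n < sp P T C w) ≤ Real.exp (-n) * P.Pr R := by
  classical
  have key : ∀ w0, P.p w0 ≠ 0 → P.ce J (fun w => ind (A w ∧ X0 + Y0 + n < sp P T C w)) w0 ≤
      Real.exp (-n) * ind (R w0) := by
    intro w0 hw0
    by_cases hex : ∃ w, P.p w ≠ 0 ∧ A w ∧ J w = J w0
    · obtain ⟨w1, p1, a1, j1⟩ := hex
      have hR0 : R w0 := by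
        have h1 : R w1 = R w0 := hR w1 w0 j1
        rw [← h1]
        exact hAR w1 p1 a1
      rw [ind_of hR0, mul_one]
      obtain ⟨s, hs1, hs2⟩ := hfew w1 p1 a1
      have mJ : 0 < P.m J w0 := P.m_pos J hw0
      have eJ : P.m J w1 = P.m J w0 := P.Fac_m J w1 w0 j1
      have eC : P.m C w1 = P.m C w0 := P.Fac_m C w1 w0 (hJC w1 w0 j1)
      have hs := hsp w1 p1 a1
      unfold sp at hs
      rw [P.m_congr (X := fun v => (J v, C v)) (Y := J) (Fac.fst J C) ((Fac.refl J).prod hJC) w1, eJ, eC,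
        ← Real.log_div (P.m_pos C hw0).ne' mJ.ne'] at hs
      have hs' := Real.exp_le_exp.2 hs
      rw [Real.exp_log (div_pos (P.m_pos C hw0) mJ), div_le_iff₀ mJ] at hs'
      unfold FP.ce
      rw [div_le_iff₀ mJ]
      have h1 : P.E (fun v => ind (J v = J w0) * ind (A v ∧ X0 + Y0 + n < sp P T C v)) ≤
          ∑ x ∈ s, P.E (fun v => ind (J v = J w0 ∧ A v ∧ X0 + Y0 + n < sp P T C v ∧ T v = x)) := by
        rw [← P.E_sum]
        refine P.E_mono fun v hv => ?_
        rw [← ind_and]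
        by_cases hh : J v = J w0 ∧ A v ∧ X0 + Y0 + n < sp P T C v
        · rw [ind_of hh]
          have h2 := hs2 v hv hh.2.1 (hh.1.trans j1.symm)
          refine le_trans (le_of_eq ?_) (Finset.single_le_sum (f := fun x => ind (J v = J w0 ∧ A v ∧
            X0 + Y0 + n < sp P T C v ∧ T v = x)) (fun x _ => ind_nonneg _) h2)
          exact (ind_of (⟨hh.1, hh.2.1, hh.2.2, rfl⟩ : J v = J w0 ∧ A v ∧
            X0 + Y0 + n < sp P T C v ∧ T v = T v)).symm
        · rw [ind_not hh]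
          exact Finset.sum_nonneg fun x _ => ind_nonneg _
      refine h1.trans ?_
      have h3 : ∀ x ∈ s, P.E (fun v => ind (J v = J w0 ∧ A v ∧ X0 + Y0 + n < sp P T C v ∧ T v = x)) ≤
          Real.exp (-(X0 + Y0 + n)) * (Real.exp X0 * P.m J w0) := by
        intro x _
        by_cases hx : ∃ v, P.p v ≠ 0 ∧ J v = J w0 ∧ A v ∧ X0 + Y0 + n < sp P T C v ∧ T v = x
        · obtain ⟨v, pv, g1, g2, g3, g4⟩ := hx
          have mT := P.m_pos T pv
          have e1 : P.E (fun v => ind (J v = J w0 ∧ A v ∧ X0 + Y0 + n < sp P T C v ∧ T v = x)) ≤ P.m T v := by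
            unfold FP.m
            refine P.E_mono fun u _ => ind_mono fun hh => ?_
            exact hh.2.2.2.trans g4.symm
          have e2 : P.m C v = P.m C w0 := P.Fac_m C v w0 (hJC v w0 g1)
          unfold sp at g3
          rw [P.m_congr (X := fun v => (T v, C v)) (Y := T) (Fac.fst T C) ((Fac.refl T).prod hTC) v, e2,
            ← Real.log_div (P.m_pos C hw0).ne' mT.ne', Real.lt_log_iff_exp_lt (div_pos (P.m_pos C hw0) mT),
            lt_div_iff₀ mT] at g3
          have e3 : P.m T v ≤ Real.exp (-(X0 + Y0 + n)) * P.m C w0 := by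
            have h4 := mul_le_mul_of_nonneg_left g3.le (Real.exp_pos (-(X0 + Y0 + n))).le
            rwa [← mul_assoc, ← Real.exp_add, neg_add_cancel, Real.exp_zero, one_mul] at h4
          exact e1.trans (e3.trans (mul_le_mul_of_nonneg_left hs' (Real.exp_pos _).le))
        · have e1 : P.E (fun v => ind (J v = J w0 ∧ A v ∧ X0 + Y0 + n < sp P T C v ∧ T v = x)) = 0 := by
            rw [P.E_congr (g := fun _ => 0) fun v hv => ind_not fun hh => hx ⟨v, hv, hh⟩, P.E_const]
          rw [e1]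
          positivity
      refine (Finset.sum_le_sum h3).trans ?_
      rw [Finset.sum_const, nsmul_eq_mul]
      have h5 : (0 : ℝ) ≤ Real.exp (-(X0 + Y0 + n)) * (Real.exp X0 * P.m J w0) := by positivity
      refine (mul_le_mul_of_nonneg_right hs1 h5).trans (le_of_eq ?_)
      have h6 : Real.exp (-n) = Real.exp Y0 * (Real.exp (-(X0 + Y0 + n)) * Real.exp X0) := by
        rw [← Real.exp_add, ← Real.exp_add]
        congr 1
        ring
      rw [h6]
      ring
    · have e1 : P.ce J (fun w => ind (A w ∧ X0 + Y0 + n < sp P T C w)) w0 = 0 := by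
        unfold FP.ce
        rw [P.E_congr (g := fun _ => 0) fun v hv => ?_, P.E_const, zero_div]
        by_cases hj : J v = J w0
        · have h7 : ind (A v ∧ X0 + Y0 + n < sp P T C v) = 0 := ind_not fun hh => hex ⟨v, hv, hh.1, hj⟩
          show ind (J v = J w0) * ind (A v ∧ X0 + Y0 + n < sp P T C v) = 0
          rw [h7, mul_zero]
        · rw [ind_not hj, zero_mul]
      rw [e1]
      exact mul_nonneg (Real.exp_pos _).le (ind_nonneg _)
  unfold FP.Pr
  rw [← P.E_ce J (fun w => ind (A w ∧ X0 + Y0 + n < sp P T C w)), ← P.E_smul]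
  exact P.E_mono fun w hw => key w hw

end gen

section cls

variable {K X β γ φ υ : Type} [Fintype K] [DecidableEq K] [Fintype X] [Fintype β] [Fintype φ] [Nonempty X] [Nonempty β]
  {D : HD K X β γ φ} {al : ℝ} {h : D.Thick al} {N : Finset K → ℝ} {S : Finset (Finset K)}
  {U : Finset K → X → (K → β) → υ} {t t' : ℕ} {b c d : K} {w0 : Pt K X β φ} {V : Pt K X β φ → Prop}
  {L : ℝ} {I : Finset K}

/-- one free point -/
theorem box_half1 (htt : t ≤ t') (hh : ∀ y, ((D.cB t y).card : ℝ) ≤ 2 * (D.cB t' y).card) (hIc : ∀ j, j ≠ c → j ∈ I)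
    (hcI : c ∉ I) (y0 : K → β) :
    1 / 2 ≤ (∑ y ∈ Fintype.piFinset (bxs D t I y0), ind (∀ j, D.qb t' (y j) = D.qb t' (y0 j))) /
      bsz (bxs D t I y0) := by
  classical
  set sb : K → Finset β := fun j => (bxs D t I y0 j).filter fun z => D.qb t' z = D.qb t' (y0 j) with hsb
  have hS : ∀ j, (bxs D t I y0 j).Nonempty := fun j => bxs_ne (D := D) t I y0 j
  have e1 : ∑ y ∈ Fintype.piFinset (bxs D t I y0), ind (∀ j, D.qb t' (y j) = D.qb t' (y0 j)) =
      ((Fintype.piFinset sb).card : ℝ) := by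
    have e2 : Fintype.piFinset sb = (Fintype.piFinset (bxs D t I y0)).filter fun y =>
        ∀ j, D.qb t' (y j) = D.qb t' (y0 j) := by
      ext y
      rw [Finset.mem_filter, Fintype.mem_piFinset, Fintype.mem_piFinset]
      simp only [hsb, Finset.mem_filter]
      exact ⟨fun hh => ⟨fun j => (hh j).1, fun j => (hh j).2⟩, fun hh j => ⟨hh.1 j, hh.2 j⟩⟩
    rw [e2, Finset.card_filter]
    push_cast
    refine Finset.sum_congr rfl fun y _ => ?_
    by_cases hy : ∀ j, D.qb t' (y j) = D.qb t' (y0 j)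
    · rw [ind_of hy, if_pos hy]
    · rw [ind_not hy, if_neg hy]
  have e3 : ((Fintype.piFinset sb).card : ℝ) = ∏ j, ((sb j).card : ℝ) := by
    rw [Fintype.card_piFinset]
    push_cast
    rfl
  have h1 : bsz (bxs D t I y0) ≤ 2 * ∏ j, ((sb j).card : ℝ) := by
    have e4 : (2 : ℝ) * ∏ j, ((sb j).card : ℝ) = ∏ j, ((if j = c then (2 : ℝ) else 1) * ((sb j).card : ℝ)) := by
      rw [Finset.prod_mul_distrib, Finset.prod_ite_eq' univ c, if_pos (mem_univ c)]
    rw [e4]
    unfold bsz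
    refine Finset.prod_le_prod (fun j _ => Nat.cast_nonneg _) fun j _ => ?_
    by_cases hj : j ∈ I
    · have e5 : bxs D t I y0 j = {y0 j} := by unfold bxs; rw [if_pos hj]
      have e6 : sb j = {y0 j} := by
        rw [hsb]
        simp only [e5]
        rw [Finset.filter_eq_self]
        intro z hz
        rw [Finset.mem_singleton.1 hz]
      have hjc : j ≠ c := fun e => hcI (e ▸ hj)
      rw [e5, e6, Finset.card_singleton, if_neg hjc]
      norm_num
    · have e5 : bxs D t I y0 j = D.cB t (y0 j) := by unfold bxs; rw [if_neg hj]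
      have hjc : j = c := by
        by_contra hjc
        exact hj (hIc j hjc)
      rw [e5, if_pos hjc]
      refine (hh (y0 j)).trans (mul_le_mul_of_nonneg_left ?_ zero_le_two)
      have e6 : D.cB t' (y0 j) ⊆ sb j := by
        intro z hz
        rw [hsb]
        simp only [Finset.mem_filter]
        rw [e5]
        exact ⟨cB_sub htt _ hz, mcB'.1 hz⟩
      exact_mod_cast Finset.card_le_card e6
  rw [e1, e3, div_le_div_iff₀ (by positivity) (bsz_pos hS), one_mul, mul_comm]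
  exact h1

/-- **half cells, all points exact up to `c`** -/
theorem hc_half (htt : t ≤ t') (hh : ∀ y, ((D.cB t y).card : ℝ) ≤ 2 * (D.cB t' y).card) (B : Bk h N S U t b c d)
    (hw0 : (D.P h t).p w0 ≠ 0) (hIc : ∀ j, j ≠ c → j ∈ I) (hcI : c ∉ I) :
    1 / 2 ≤ (QX h U t I w0).Pr (HC D t' w0) := by
  classical
  have hx0 : (D.P h t).Pr (xc D U t I w0) ≠ 0 := xc_ne hw0
  have hS := fun j => bxs_ne (D := D) t I w0.2.1 j
  have h1 := cls_law h (V := xc D U t I w0) (K0 := I) (w0 := w0) (xc_fac I w0 B.dep B.era)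
    (fun v w hv hw => hv.2.trans hw.2.symm)
    (xc_self U t I w0) hx0 (fun v => ind (HC D t' w0 v))
  have h2 : ∀ x, (Bx h t x (bxs D t I w0.2.1)).E (fun u => ind (HC D t' w0 (x, u))) =
      (∑ y ∈ Fintype.piFinset (bxs D t I w0.2.1), ind (∀ j, D.qb t' (y j) = D.qb t' (w0.2.1 j))) /
        bsz (bxs D t I w0.2.1) := fun x => Bx_pts h hS t x fun y => ind (∀ j, D.qb t' (y j) = D.qb t' (w0.2.1 j))
  have h3 := box_half1 (D := D) htt hh hIc hcI w0.2.1
  unfold QX FP.Pr
  rw [h1]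
  simp only [h2]
  have hden : (FP.unif X).E (fun x => ind (xc D U t I w0 (x, w0.2))) ≠ 0 := by
    have h4 := FP.Pr_pos_of (P := FP.unif X) (S := fun x => xc D U t I w0 (x, w0.2)) (w := w0.1) (by
      show (Fintype.card X : ℝ)⁻¹ ≠ 0
      exact inv_ne_zero (by exact_mod_cast Fintype.card_ne_zero)) (xc_self U t I w0)
    exact h4.ne'
  rw [(FP.unif X).E_mul_const, mul_div_assoc, mul_comm, div_mul_cancel₀ _ hden]
  exact h3

/-- **the law of the missing letter** -/
theorem l1_2 (htt : t ≤ t') (hh : ∀ y, ((D.cB t y).card : ℝ) ≤ 2 * (D.cB t' y).card) (B : Bk h N S U t b c d)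
    (J : Ix h U t I w0 V) (hIc : ∀ j, j ≠ c → j ∈ I) (hcI : c ∉ I) (hL : LX h U t I w0 V ≤ L) :
    ∑ z ∈ vals (zf (φ := φ) U c), |lw ((D.P h t).cond (VH D t' univ w0 V)) (zf U c) z -
      lw ((D.P h t).cond (VH D t' univ w0 (xc D U t I w0))) (zf U c) z| ≤
      2 * Real.sqrt (2 * kI N c L) := by
  classical
  have Jc := Ix_cls (I := I) B J.supp
  have hq := hc_eq (t' := t') B J hIc hcI
  have hq' := hc_eq (t' := t') B Jc hIc hcI
  have hθ := hc_half (U := U) (t' := t') htt hh B J.supp hIc hcI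
  set θ := (QX h U t I w0).Pr (HC D t' w0) with hθd
  have hθ0 : 0 < θ := lt_of_lt_of_le (by norm_num) hθ
  have hlw : ∀ {V0 : Pt K X β φ → Prop}, Ix h U t I w0 V0 → ((D.P h t).cond V0).Pr (HC D t' w0) = θ → ∀ z,
      lw ((D.P h t).cond (VH D t' univ w0 V0)) (zf U c) z =
        ind (D.qb t' z.1 = D.qb t' (w0.2.1 c)) * lw ((D.P h t).cond V0) (zf U c) z / θ := by
    intro V0 J0 h0 z
    have h1 := VH_Pr (t' := t') (Jc := univ) J0 (fun v => zf U c v = z)
    rw [HJ_univ, h0] at h1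
    have h2 : lw ((D.P h t).cond (VH D t' univ w0 V0)) (zf U c) z =
      ((D.P h t).cond (VH D t' univ w0 V0)).Pr (fun v => zf U c v = z) := rfl
    rw [h2, h1]
    congr 1
    have h3 : lw ((D.P h t).cond V0) (zf U c) z = ((D.P h t).cond V0).Pr (fun v => zf U c v = z) := rfl
    rw [h3]
    unfold FP.Pr
    rw [← FP.E_smul]
    refine FP.E_congr _ fun v hv => ?_
    obtain ⟨hv1, hv2⟩ := cond_supp J0.ne hv
    have hx := (J0.sub v hv1).2
    rw [BB_eq] at hx
    rw [← ind_and]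
    refine congrArg ind (propext ⟨fun hh => ⟨?_, hh.2⟩, fun hh => ⟨fun j => ?_, hh.2⟩⟩)
    · have h4 : v.2.1 c = z.1 := congrArg Prod.fst hh.2
      rw [← h4]
      exact hh.1 c
    · by_cases hj : j = c
      · have h4 : v.2.1 c = z.1 := congrArg Prod.fst hh.2
        rw [hj, h4]
        exact hh.1
      · rw [hx.1 j (hIc j hj)]
  have hac : ((D.P h t).cond V).Ac (QX h U t I w0) := J.acX
  have h1 := V3.l1_kl hac (zf U c)
  have h2 := J.kl_le B hcI hL
  have h3 : Real.sqrt (2 * ((D.P h t).cond V).kl (QX h U t I w0) (zf U c)) ≤ Real.sqrt (2 * kI N c L) :=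
    Real.sqrt_le_sqrt (by linarith)
  have h4 : ∀ z ∈ vals (zf (φ := φ) U c), |lw ((D.P h t).cond (VH D t' univ w0 V)) (zf U c) z -
      lw ((D.P h t).cond (VH D t' univ w0 (xc D U t I w0))) (zf U c) z| ≤
      2 * |lw ((D.P h t).cond V) (zf U c) z - lw (QX h U t I w0) (zf U c) z| := by
    intro z _
    rw [hlw J hq z, hlw Jc hq' z, ← sub_div, ← mul_sub, abs_div, abs_mul, abs_of_pos hθ0, div_le_iff₀ hθ0]
    have n1 := ind_nonneg (D.qb t' z.1 = D.qb t' (w0.2.1 c))
    have n2 := ind_le_one (D.qb t' z.1 = D.qb t' (w0.2.1 c))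
    rw [abs_of_nonneg n1]
    have e1 : (D.P h t).cond (xc D U t I w0) = QX h U t I w0 := rfl
    rw [e1]
    have a0 := abs_nonneg (lw ((D.P h t).cond V) (zf U c) z - lw (QX h U t I w0) (zf U c) z)
    have h5 : (1 : ℝ) ≤ 2 * θ := by linarith
    calc ind (D.qb t' z.1 = D.qb t' (w0.2.1 c)) * |lw ((D.P h t).cond V) (zf U c) z - lw (QX h U t I w0) (zf U c) z|
        ≤ 1 * |lw ((D.P h t).cond V) (zf U c) z - lw (QX h U t I w0) (zf U c) z| := mul_le_mul_of_nonneg_right n2 a0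
      _ ≤ (2 * θ) * |lw ((D.P h t).cond V) (zf U c) z - lw (QX h U t I w0) (zf U c) z| :=
          mul_le_mul_of_nonneg_right h5 a0
      _ = _ := by ring
  refine (Finset.sum_le_sum h4).trans ?_
  rw [← Finset.mul_sum]
  exact mul_le_mul_of_nonneg_left (h1.trans h3) zero_le_two

variable {V1 V2 V3 : Pt K X β φ → Prop}

/-- **THE MISSING LETTER IS NOT STRONG** -/
theorem mis2 (htt : t ≤ t') (hh : ∀ y, ((D.cB t y).card : ℝ) ≤ 2 * (D.cB t' y).card) (B : Bk h N S U t b c d)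
    (J1 : Ix h U t I w0 V1) (J2 : Ix h U t I w0 V2) (J3 : Ix h U t I w0 V3) (hIc : ∀ j, j ≠ c → j ∈ I) (hcI : c ∉ I)
    (h1 : LX h U t I w0 V1 ≤ L) (h2 : LX h U t I w0 V2 ≤ L) (h3 : LX h U t I w0 V3 ≤ L) :
    ((D.P h t).cond (VH D t' univ w0 V3)).Pr (fun w =>
      2 * ((D.P h t).cond (VH D t' univ w0 V2)).m (zf U c) w < ((D.P h t).cond (VH D t' univ w0 V1)).m (zf U c) w) ≤
      12 * Real.sqrt (2 * kI N c L) := by
  have e := Pr_lw ((D.P h t).cond (VH D t' univ w0 V3)) (zf U c) (fun z =>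
    2 * lw ((D.P h t).cond (VH D t' univ w0 V2)) (zf U c) z < lw ((D.P h t).cond (VH D t' univ w0 V1)) (zf U c) z)
  refine le_trans (le_of_eq e) ?_
  refine (three_M (vals (zf U c)) (R := fun z => lw ((D.P h t).cond (VH D t' univ w0 (xc D U t I w0))) (zf U c) z)
    (l1_2 htt hh B J1 hIc hcI h1) (l1_2 htt hh B J2 hIc hcI h2) (l1_2 htt hh B J3 hIc hcI h3)).trans (le_of_eq ?_)
  ring

/-- **THE SINGLE LETTER**, sharp half cells -/
theorem sgl2 (htt : t ≤ t') (hh : ∀ y, ((D.cB t y).card : ℝ) ≤ 2 * (D.cB t' y).card) (B : Bk h N S U t b c d)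
    (J1 : Ix h U t I w0 V1) (J2 : Ix h U t I w0 V2) (J3 : Ix h U t I w0 V3) (hIc : ∀ j, j ≠ c → j ∈ I) (hcI : c ∉ I)
    (h1 : LX h U t I w0 V1 ≤ L) (h2 : LX h U t I w0 V2 ≤ L) (h3 : LX h U t I w0 V3 ≤ L) {e : ℝ} (he : 0 < e)
    (he1 : e ≤ 1) :
    ((D.P h t).cond (VH D t' univ w0 V3)).Pr (fun w => e ≤ |Real.log
      (((D.P h t).cond (VH D t' univ w0 V1)).m (zf U c) w / ((D.P h t).cond (VH D t' univ w0 V2)).m (zf U c) w)|) ≤
      (2 + 4 / e) * (2 * Real.sqrt (2 * kI N c L)) := by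
  have e0 := Pr_lw ((D.P h t).cond (VH D t' univ w0 V3)) (zf U c) (fun z => e ≤ |Real.log
    (lw ((D.P h t).cond (VH D t' univ w0 V1)) (zf U c) z / lw ((D.P h t).cond (VH D t' univ w0 V2)) (zf U c) z)|)
  refine le_trans (le_of_eq e0) ?_
  exact three_S (vals (zf U c)) (R := fun z => lw ((D.P h t).cond (VH D t' univ w0 (xc D U t I w0))) (zf U c) z)
    (fun z => lw_nonneg _ _ _) (fun z => lw_nonneg _ _ _) he he1 (l1_2 htt hh B J1 hIc hcI h1)
    (l1_2 htt hh B J2 hIc hcI h2) (l1_2 htt hh B J3 hIc hcI h3)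

end cls

end Pool.Agent.GMH.SngA
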