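import Pool.Agent.GMH.SngG0
import Pool.Agent.GMH.TriB

/-!
# GMH/SngG1 (helper80): the missing letter in a run (kind `S`, part G1)

Law of the time `t`, states `5 t + 1 ≤ q < 5 t + 5` and `5 t + 5`, top `i`.
* `Zb_iff`, `V2_iff`, `V3_iff` : what the top `i` sees = an event known at exact points with half cells;
* `tF_eq` : the thin ratio `tF i` = quotient of the masses of the letter of `i` in the two cells;
* `large` : the surprise of (top `i`, thin labels) given the public class is small up to `exp (-n)`;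
* **`mis_run`** : `P (A, B < tF i) ≤ 96 √((Lz + 2 X0 + Lam + n + 1) / N1) P (A) + exp (-n) P (R0)`.
-/

set_option autoImplicit false
set_option linter.unusedSectionVars false

namespace Pool.Agent.GMH.TP

open Finset Pool.Agent.PWZ Pool.Agent.M3 Pool.Agent.GM Pool.Agent.GM.Harm Pool.Agent.GMH Pool.Agent.GMH.NZ
open Pool.Agent.GMH.V3

noncomputable section

namespace SngG

section run

variable {X β γ φ : Type} [Fintype X] [Fintype β] [Fintype φ] [Nonempty X] [Nonempty β]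
variable {D : HD (Fin 3) X β γ φ} {al : ℝ} {h : D.Thick al} {v : ℕ → Finset (Fin 3) → X → (Fin 3 → β) → Pt (Fin 3) X β φ}
variable {t q : ℕ} {i j k : Fin 3} {w0 : Pt (Fin 3) X β φ}

theorem sub_cases {i : Fin 3} {J : Finset (Fin 3)} (hJ : J ⊂ univ.erase i) : J = ∅ ∨ ∃ l, l ≠ i ∧ J = {l} := by
  revert i J
  decide

theorem sing_lt {i l : Fin 3} (hl : l ≠ i) : ({l} : Finset (Fin 3)) ⊂ univ.erase i := by
  revert i l
  decide

theorem emp_lt (i : Fin 3) : (∅ : Finset (Fin 3)) ⊂ univ.erase i := by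
  revert i
  decide

theorem pth0 : pth (∅ : Finset (Fin 3)) := by unfold pth; simp

theorem pth1 (l : Fin 3) : pth ({l} : Finset (Fin 3)) := by unfold pth; simp

/-- what the top `i` sees -/
theorem Zb_iff {a e : Pt (Fin 3) X β φ} : ZbQ D v q i a = ZbQ D v q i e ↔
    (∀ l, l ≠ i → a.2.1 l = e.2.1 l) ∧ nd D (nn q) a = nd D (nn q) e ∧
      Um v (nc q ∅) ∅ a.1 a.2.1 = Um v (nc q ∅) ∅ e.1 e.2.1 ∧
      ∀ l, l ≠ i → Um v (nc q {l}) {l} a.1 a.2.1 = Um v (nc q {l}) {l} e.1 e.2.1 := by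
  unfold ZbQ
  rw [Prod.mk.injEq, lo_eq, BB_eq]
  constructor
  · rintro ⟨h1, h2, h3, h4⟩
    refine ⟨fun l hl => h2 l (Finset.mem_erase.2 ⟨hl, mem_univ l⟩), Prod.ext h3 (funext h4), ?_, fun l hl => ?_⟩
    · exact (TriB.LL_thin pth0).1 (h1 ∅ (emp_lt i))
    · exact (TriB.LL_thin (pth1 l)).1 (h1 {l} (sing_lt hl))
  · rintro ⟨h1, h2, h3, h4⟩
    refine ⟨fun J hJ => ?_, fun l hl => h1 l (Finset.mem_erase.1 hl).1, congrArg Prod.fst h2,
      fun l => congrFun (congrArg Prod.snd h2) l⟩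
    rcases sub_cases hJ with rfl | ⟨l, hl, rfl⟩
    · exact (TriB.LL_thin pth0).2 h3
    · exact (TriB.LL_thin (pth1 l)).2 (h4 l hl)

/-- all thin labels = what the top `i` sees and the letter of `i` -/
theorem ZQ_iff {a e : Pt (Fin 3) X β φ} : ZQ D v q a = ZQ D v q e ↔
    ZbQ D v q i a = ZbQ D v q i e ∧ (a.2.1 i = e.2.1 i ∧ Um v (nc q {i}) {i} a.1 a.2.1 = Um v (nc q {i}) {i} e.1 e.2.1) := by
  constructor
  · intro hh
    refine ⟨ZQ_Zb q i a e hh, ?_⟩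
    have h1 := ZQ_XLq (φ := φ) (D := D) (v := v) q i a e hh
    exact ⟨congrArg Prod.fst h1, congrArg Prod.snd h1⟩
  · rintro ⟨h0, h1, h2⟩
    obtain ⟨g1, g2, g3, g4⟩ := Zb_iff.1 h0
    unfold ZQ
    refine Prod.ext (funext fun J => ?_) (Prod.ext (funext fun l => ?_) g2)
    · obtain ⟨J, hJ⟩ := J
      show SL (φ := φ) v q J a = SL v q J e
      have key : ∀ J : Finset (Fin 3), J.card ≤ 1 → J = ∅ ∨ ∃ l, J = {l} := by decide
      unfold SL
      rcases key J hJ with rfl | ⟨l, rfl⟩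
      · exact (TriB.LL_thin pth0).2 g3
      · refine (TriB.LL_thin (pth1 l)).2 ?_
        by_cases hl : l = i
        · rw [hl]; exact h2
        · exact g4 l hl
    · show a.2.1 l = e.2.1 l
      by_cases hl : l = i
      · rw [hl]; exact h1
      · exact g1 l hl

/-- hidden event of the later labels, at the cells of `w` -/
def hV (D : HD (Fin 3) X β γ φ) (v : ℕ → Finset (Fin 3) → X → (Fin 3 → β) → Pt (Fin 3) X β φ) (t s0 s1 : ℕ) (i : Fin 3)
    (w u : Pt (Fin 3) X β φ) : Prop :=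
  D.qa (t + 1) u.1 = D.qa (t + 1) w.1 ∧ Um v s0 ∅ u.1 w.2.1 = Um v s0 ∅ w.1 w.2.1 ∧
    ∀ l, l ≠ i → Um v s1 {l} u.1 w.2.1 = Um v s1 {l} w.1 w.2.1

/-- the event of the thin labels -/
def V2 (D : HD (Fin 3) X β γ φ) (v : ℕ → Finset (Fin 3) → X → (Fin 3 → β) → Pt (Fin 3) X β φ) (t s0 s1 : ℕ) (i : Fin 3)
    (w u : Pt (Fin 3) X β φ) : Prop :=
  xc D (Um v (t + 1)) t (univ.erase i) w u ∧ hV D v t s0 s1 i w u

/-- the event of the thin labels and the top -/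
def V3 (D : HD (Fin 3) X β γ φ) (v : ℕ → Finset (Fin 3) → X → (Fin 3 → β) → Pt (Fin 3) X β φ) (t s0 s1 : ℕ) (i : Fin 3)
    (w u : Pt (Fin 3) X β φ) : Prop :=
  V2 D v t s0 s1 i w u ∧ (Um v (t + 1) (univ.erase i) u.1 w.2.1 = Um v (t + 1) (univ.erase i) w.1 w.2.1 ∧
    u.2.2 i = w.2.2 i)

theorem V2_iff (hv : Codes D v) {s0 s1 : ℕ} (h0 : s0 ≤ t + 2) (h0' : t + 1 ≤ s0) (h1 : s1 ≤ t + 2)
    (hn : nn q = t + 1) (e0 : nc q ∅ = s0) (e1 : ∀ l, l ≠ i → nc q {l} = s1) (w u : Pt (Fin 3) X β φ) :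
    SngA.VH D (t + 1) univ w (V2 D v t s0 s1 i w) u ↔ ZbQ D v q i u = ZbQ D v q i w := by
  rw [Zb_iff, hn, e0]
  constructor
  · rintro ⟨⟨⟨h2, h3⟩, h4, h5, h6⟩, h7⟩
    rw [BB_eq] at h3
    have hc : ∀ l, D.qb (t + 1) (u.2.1 l) = D.qb (t + 1) (w.2.1 l) := fun l => h7 l (mem_univ l)
    have hy : ∀ l, l ≠ i → u.2.1 l = w.2.1 l := fun l hl => h3.1 l (Finset.mem_erase.2 ⟨hl, mem_univ l⟩)
    refine ⟨hy, Prod.ext h4 (funext hc), ?_, fun l hl => ?_⟩
    · rw [Um_codes hv (n := t + 1) h0 ∅ u.1 (y := u.2.1) (y' := w.2.1)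
        (fun j hj => absurd hj (Finset.notMem_empty j)) hc]
      exact h5
    · rw [e1 l hl, Um_codes hv (n := t + 1) h1 {l} u.1 (y := u.2.1) (y' := w.2.1)
        (fun j hj => by rw [Finset.mem_singleton.1 hj]; exact hy l hl) hc]
      exact h6 l hl
  · rintro ⟨hy, hn', g0, g1⟩
    have hc : ∀ l, D.qb (t + 1) (u.2.1 l) = D.qb (t + 1) (w.2.1 l) := fun l => congrFun (congrArg Prod.snd hn') l
    have hnt := nd_older (Nat.le_succ t) hn'
    refine ⟨⟨⟨?_, ?_⟩, congrArg Prod.fst hn', ?_, fun l hl => ?_⟩, fun l _ => hc l⟩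
    · rw [le_eq]
      intro J hJ
      rw [Finset.subset_empty.1 hJ, TriB.LL_thin pth0]
      exact Um_older h0' g0
    · rw [BB_eq]
      exact ⟨fun l hl => hy l (Finset.mem_erase.1 hl).1, congrArg Prod.fst hnt,
        fun l => congrFun (congrArg Prod.snd hnt) l⟩
    · rw [← Um_codes hv (n := t + 1) h0 ∅ u.1 (y := u.2.1) (y' := w.2.1)
        (fun j hj => absurd hj (Finset.notMem_empty j)) hc]
      exact g0
    · have h6 := g1 l hl
      rw [e1 l hl] at h6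
      rw [← Um_codes hv (n := t + 1) h1 {l} u.1 (y := u.2.1) (y' := w.2.1)
        (fun j hj => by rw [Finset.mem_singleton.1 hj]; exact hy l hl) hc]
      exact h6

theorem FQ_iff {a e : Pt (Fin 3) X β φ} : FQ v t i a = FQ v t i e ↔
    Um v (t + 1) (univ.erase i) a.1 a.2.1 = Um v (t + 1) (univ.erase i) e.1 e.2.1 ∧ a.2.2 i = e.2.2 i := by
  show LL (Um v (t + 1)) (univ.erase i) a = LL (Um v (t + 1)) (univ.erase i) e ↔ _
  rw [LL_eq]
  refine and_congr_right fun _ => ⟨fun hh => hh i rfl, fun hh l hl => ?_⟩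
  rw [Pool.Agent.GMH.erase_inj' hl]
  exact hh

theorem V3_iff (hv : Codes D v) {s0 s1 : ℕ} (h0 : s0 ≤ t + 2) (h0' : t + 1 ≤ s0) (h1 : s1 ≤ t + 2)
    (hn : nn q = t + 1) (e0 : nc q ∅ = s0) (e1 : ∀ l, l ≠ i → nc q {l} = s1) (w u : Pt (Fin 3) X β φ) :
    SngA.VH D (t + 1) univ w (V3 D v t s0 s1 i w) u ↔ (FQ v t i u, ZbQ D v q i u) = (FQ v t i w, ZbQ D v q i w) := by
  have hb := V2_iff (i := i) hv h0 h0' h1 hn e0 e1 w u
  have key : SngA.VH D (t + 1) univ w (V3 D v t s0 s1 i w) u ↔ SngA.VH D (t + 1) univ w (V2 D v t s0 s1 i w) u ∧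
      (Um v (t + 1) (univ.erase i) u.1 w.2.1 = Um v (t + 1) (univ.erase i) w.1 w.2.1 ∧ u.2.2 i = w.2.2 i) := by
    unfold SngA.VH V3
    tauto
  have hp : (FQ v t i u, ZbQ D v q i u) = (FQ v t i w, ZbQ D v q i w) ↔
      ((Um v (t + 1) (univ.erase i) u.1 u.2.1 = Um v (t + 1) (univ.erase i) w.1 w.2.1 ∧ u.2.2 i = w.2.2 i) ∧
        ZbQ D v q i u = ZbQ D v q i w) := pair_iff.trans (and_congr_left fun _ => FQ_iff)
  rw [key, hb, hp]
  refine ⟨fun hh => ⟨⟨?_, hh.2.2⟩, hh.1⟩, fun hh => ⟨hh.2, ?_, hh.1.2⟩⟩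
  · have h2 := Zb_iff.1 hh.1
    rw [Um_codes hv (n := t) (le_refl _) (univ.erase i) u.1 (y := u.2.1) (y' := w.2.1)
      (fun j hj => h2.1 j (Finset.mem_erase.1 hj).1) fun l => by
        have h3 := nd_older (by rw [hn]; omega : t ≤ nn q) h2.2.1
        exact congrFun (congrArg Prod.snd h3) l]
    exact hh.2.1
  · have h2 := Zb_iff.1 hh.2
    rw [← Um_codes hv (n := t) (le_refl _) (univ.erase i) u.1 (y := u.2.1) (y' := w.2.1)
      (fun j hj => h2.1 j (Finset.mem_erase.1 hj).1) fun l => by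
        have h3 := nd_older (by rw [hn]; omega : t ≤ nn q) h2.2.1
        exact congrFun (congrArg Prod.snd h3) l]
    exact hh.1.1

/-! ### the events at exact points -/

variable {n N1 Lam : ℝ}

theorem ev_hV (s0 s1 : ℕ) (w : Pt (Fin 3) X β φ) :
    Fac (fun u : Pt (Fin 3) X β φ => u.1) (hV D v t s0 s1 i w) := by
  intro a e hae
  have h1 : a.1 = e.1 := hae
  unfold hV
  rw [h1]

theorem V2_ix {N : Finset (Fin 3) → ℝ} {S : Finset (Finset (Fin 3))} (B : Bk h N S (Um v (t + 1)) t j i k) (s0 s1 : ℕ)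
    {w : Pt (Fin 3) X β φ} (hw : (D.P h t).p w ≠ 0) :
    SngA.Ix h (Um v (t + 1)) t (univ.erase i) w (V2 D v t s0 s1 i w) where
  ev := by
    intro a e hae
    simp only [Prod.mk.injEq] at hae
    have h1 := xc_fac (U := Um v (t + 1)) (univ.erase i) w B.dep B.era a e (Prod.ext hae.1 hae.2.1)
    have h2 := ev_hV (D := D) (v := v) (t := t) (i := i) s0 s1 w a e hae.1
    show (_ ∧ _) = (_ ∧ _)
    rw [h1, h2]
  self := ⟨xc_self _ _ _ w, rfl, rfl, fun _ _ => rfl⟩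
  supp := hw
  sub := fun _ hh => hh.1

theorem V3_ix {N : Finset (Fin 3) → ℝ} {S : Finset (Finset (Fin 3))} (B : Bk h N S (Um v (t + 1)) t j i k) (s0 s1 : ℕ)
    {w : Pt (Fin 3) X β φ} (hw : (D.P h t).p w ≠ 0) :
    SngA.Ix h (Um v (t + 1)) t (univ.erase i) w (V3 D v t s0 s1 i w) where
  ev := by
    intro a e hae
    have h1 := (V2_ix B s0 s1 hw).ev a e hae
    simp only [Prod.mk.injEq] at hae
    obtain ⟨g1, g2, g3⟩ := hae
    have h3 := congrFun g3 i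
    unfold tl at h3
    have hji : ∃ l ∈ (univ.erase i : Finset (Fin 3)), l ≠ i := ⟨j, Finset.mem_erase.2 ⟨B.bc, mem_univ j⟩, B.bc⟩
    rw [if_pos ⟨Finset.Subset.refl _, hji⟩, if_pos ⟨Finset.Subset.refl _, hji⟩] at h3
    have h4 := Option.some.inj h3
    show (_ ∧ _) = (_ ∧ _)
    rw [h1, g1, h4]
  self := ⟨(V2_ix B s0 s1 hw).self, rfl, rfl⟩
  supp := hw
  sub := fun _ hh => hh.1.1


/-! ### the public classes with exact points -/

/-- public letter of the time, node and the points other than `i` -/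
def Cm (D : HD (Fin 3) X β γ φ) (v : ℕ → Finset (Fin 3) → X → (Fin 3 → β) → Pt (Fin 3) X β φ) (s : ℕ) (i : Fin 3)
    (w : Pt (Fin 3) X β φ) :
    (Finset (Fin 3) → Option (List (Pt (Fin 3) X β φ) × (Fin 3 → Option φ))) × ((Fin 3 → Option β) × (γ × (Fin 3 → γ))) :=
  (le (LL (Um v (s + 1))) ∅ w, BB D s (univ.erase i) w)

theorem Cm_xc {s : ℕ} {w u : Pt (Fin 3) X β φ} :
    xc D (Um v (s + 1)) s (univ.erase i) w u ↔ Cm D v s i u = Cm D v s i w := by
  unfold Cm xc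
  exact pair_iff.symm

theorem Cm_iff {s : ℕ} {a e : Pt (Fin 3) X β φ} : Cm D v s i a = Cm D v s i e ↔
    Um v (s + 1) ∅ a.1 a.2.1 = Um v (s + 1) ∅ e.1 e.2.1 ∧ (∀ l, l ≠ i → a.2.1 l = e.2.1 l) ∧ nd D s a = nd D s e := by
  unfold Cm
  rw [pair_iff, le_eq, BB_eq]
  constructor
  · rintro ⟨h1, h2, h3, h4⟩
    exact ⟨(TriB.LL_thin pth0).1 (h1 ∅ (Finset.Subset.refl _)), fun l hl => h2 l (Finset.mem_erase.2 ⟨hl, mem_univ l⟩),
      Prod.ext h3 (funext h4)⟩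
  · rintro ⟨h1, h2, h3⟩
    refine ⟨fun J hJ => ?_, fun l hl => h2 l (Finset.mem_erase.1 hl).1, congrArg Prod.fst h3,
      fun l => congrFun (congrArg Prod.snd h3) l⟩
    rw [Finset.subset_empty.1 hJ, TriB.LL_thin pth0]
    exact h1

theorem Cm_old : Fac (Cm (φ := φ) D v (t + 1) i) (Cm D v t i) := by
  intro a e hae
  obtain ⟨h1, h2, h3⟩ := Cm_iff.1 hae
  exact Cm_iff.2 ⟨Um_older (Nat.le_succ _) h1, h2, nd_older (Nat.le_succ _) h3⟩

theorem Zb5_Cm : Fac (ZbQ (φ := φ) D v (5 * t + 5) i) (Cm D v (t + 1) i) := by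
  intro a e hae
  obtain ⟨h1, h2, h3, -⟩ := Zb_iff.1 hae
  rw [TriB.nn_5] at h2
  rw [TriB.nc_5 pth0] at h3
  exact Cm_iff.2 ⟨h3, h1, h2⟩

/-- the top and the thin labels -/
def TQ (D : HD (Fin 3) X β γ φ) (v : ℕ → Finset (Fin 3) → X → (Fin 3 → β) → Pt (Fin 3) X β φ) (t : ℕ) (i : Fin 3)
    (w : Pt (Fin 3) X β φ) := (FQ v t i w, ZbQ D v (5 * t + 5) i w)

theorem TQ_Cm : Fac (TQ (φ := φ) D v t i) (Cm D v (t + 1) i) := fun a e hae =>
  Zb5_Cm a e (congrArg Prod.snd hae)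

theorem NP_0 {a e : Pt (Fin 3) X β φ} : NPq D v (5 * t) a = NPq D v (5 * t) e ↔
    Um v (t + 1) ∅ a.1 a.2.1 = Um v (t + 1) ∅ e.1 e.2.1 ∧ nd D t a = nd D t e := by
  have h1 : nc (5 * t) ∅ = t + 1 := by
    have h2 := nc_add t 0 (J := ∅) pth0 (by omega)
    rw [add_zero] at h2
    rw [h2]
    unfold ncj
    rw [if_neg (by omega)]
  unfold NPq NP
  rw [h1, nn_0, Prod.mk.injEq]

/-! ### thin ratio -/

theorem tF_eq (hq : q ≤ 5 * t + 5) (hc : nc q {i} = t + 1) {w u : Pt (Fin 3) X β φ} (hw : (D.P h t).p w ≠ 0)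
    (hu : ZbQ D v (5 * t + 5) i u = ZbQ D v (5 * t + 5) i w) :
    tF (D.P h t) (ZQ D v q) (ZbQ D v q) (ZbQ D v (5 * t + 5)) i u =
      ((D.P h t).cond (fun a => ZbQ D v (5 * t + 5) i a = ZbQ D v (5 * t + 5) i w)).m (zf (Um v (t + 1)) i) u /
        ((D.P h t).cond (fun a => ZbQ D v q i a = ZbQ D v q i w)).m (zf (Um v (t + 1)) i) u := by
  have hu' : ZbQ D v q i u = ZbQ D v q i w := ZbQ_mono hq i u w hu
  rw [FP.cond_m_fibre _ _ _ hw hu, FP.cond_m_fibre _ _ _ hw hu']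
  unfold tF tau
  rw [FP.pv_self, FP.pv_self]
  have hzf : ∀ a e : Pt (Fin 3) X β φ, zf (Um v (t + 1)) i a = zf (Um v (t + 1)) i e ↔
      (a.2.1 i = e.2.1 i ∧ Um v (nc q {i}) {i} a.1 a.2.1 = Um v (nc q {i}) {i} e.1 e.2.1) := by
    intro a e
    rw [hc]
    unfold zf
    exact pair_iff
  have e1 : (D.P h t).m (fun a => (ZbQ D v (5 * t + 5) i a, ZQ D v q a)) u =
      (D.P h t).m (fun a => (zf (Um v (t + 1)) i a, ZbQ D v (5 * t + 5) i a)) u := by
    refine FP.m_congr _ (fun a e hae => ?_) (fun a e hae => ?_) u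
    · obtain ⟨h1, h2⟩ := pair_iff.1 hae
      exact pair_iff.2 ⟨(hzf a e).2 (ZQ_iff.1 h2).2, h1⟩
    · obtain ⟨h1, h2⟩ := pair_iff.1 hae
      exact pair_iff.2 ⟨h2, ZQ_iff.2 ⟨ZbQ_mono hq i a e h2, (hzf a e).1 h1⟩⟩
  have e2 : (D.P h t).m (ZQ D v q) u = (D.P h t).m (fun a => (zf (Um v (t + 1)) i a, ZbQ D v q i a)) u := by
    refine FP.m_congr _ (fun a e hae => ?_) (fun a e hae => ?_) u
    · obtain ⟨h1, h2⟩ := ZQ_iff.1 hae
      exact pair_iff.2 ⟨(hzf a e).2 h2, h1⟩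
    · obtain ⟨h1, h2⟩ := pair_iff.1 hae
      exact ZQ_iff.2 ⟨h2, (hzf a e).1 h1⟩
  have e3 : (D.P h t).m (fun a => (ZbQ D v (5 * t + 5) i a, ZbQ D v q i a)) u =
      (D.P h t).m (ZbQ D v (5 * t + 5) i) w := by
    rw [FP.m_congr _ (X := fun a => (ZbQ D v (5 * t + 5) i a, ZbQ D v q i a)) (Y := ZbQ D v (5 * t + 5) i)
      (Fac.fst _ _) ((Fac.refl _).prod (ZbQ_mono hq i)) u]
    exact FP.Fac_m _ _ u w hu
  have e4 : (D.P h t).m (ZbQ D v q i) u = (D.P h t).m (ZbQ D v q i) w := FP.Fac_m _ _ u w hu'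
  rw [e1, e2, e3, e4, div_div_div_comm]

theorem nc_i (hq : 5 * t + 1 ≤ q) (hq5 : q < 5 * t + 5) (l : Fin 3) : nc q {l} = t + 1 := by
  have h1 : q = 5 * t + (q - 5 * t) := by omega
  rw [h1, nc_add t (q - 5 * t) (pth1 l) (by omega)]
  have key : ∀ l : Fin 3, rk {l} = 4 := by decide
  unfold ncj
  rw [key l, if_neg (by omega)]

theorem nc_e (hq : 5 * t + 1 ≤ q) (hq5 : q < 5 * t + 5) : t + 1 ≤ nc q ∅ ∧ nc q ∅ ≤ t + 2 := by
  have h1 : q = 5 * t + (q - 5 * t) := by omega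
  rw [h1, nc_add t (q - 5 * t) pth0 (by omega)]
  unfold ncj
  split_ifs <;> omega

theorem VH_eq {P Q : Pt (Fin 3) X β φ → Prop} (hh : ∀ u, P u ↔ Q u) : P = Q := funext fun u => propext (hh u)

/-- **THE MISSING LETTER IN ONE CLASS** -/
theorem mis_cls {dg : ℕ → X → ℝ} {prr : ℕ → Fin 3 → φ → φ} {T : ℕ} (H : D.Hyp dg prr al T Lam) (hv : Codes D v)
    {N : Finset (Fin 3) → ℝ} {S : Finset (Finset (Fin 3))} (B : Bk h N S (Um v (t + 1)) t j i k) (ht : t < T)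
    (hq : 5 * t + 1 ≤ q) (hq5 : q < 5 * t + 5) {w : Pt (Fin 3) X β φ} (hw : (D.P h t).p w ≠ 0) {L : ℝ}
    (hL : sp (D.P h t) (TQ D v t i) (Cm D v t i) w ≤ L) {Bd : ℝ} (hB : 2 ≤ Bd) :
    (D.P h t).ce (TQ D v t i) (fun u => ind (Bd < tF (D.P h t) (ZQ D v q) (ZbQ D v q) (ZbQ D v (5 * t + 5)) i u)) w ≤
      12 * Real.sqrt (2 * SngA.kI N i L) := by
  have hn : nn q = t + 1 := TriB.nn_q hq hq5.le
  obtain ⟨c1, c2⟩ := nc_e hq hq5
  have hhh : ∀ y, ((D.cB t y).card : ℝ) ≤ 2 * (D.cB (t + 1) y).card := by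
    intro y
    rcases H.half t ht with h1 | h1
    · rw [h1 y]
      have : (0 : ℝ) ≤ ((D.cB t y).card : ℝ) := Nat.cast_nonneg _
      linarith
    · rw [← h1 y]
      push_cast
      exact le_rfl
  have J2 := V2_ix B (nc q ∅) (t + 1) hw
  have J1 := V2_ix B (t + 2) (t + 2) hw
  have J3 := V3_ix B (t + 2) (t + 2) hw
  have E2 := VH_eq (V2_iff (i := i) hv c2 c1 (by omega) hn rfl (fun l _ => nc_i hq hq5 l) w)
  have E1 := VH_eq (V2_iff (q := 5 * t + 5) (i := i) hv le_rfl (by omega) le_rfl TriB.nn_5 (TriB.nc_5 pth0)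
    (fun l _ => TriB.nc_5 (pth1 l)) w)
  have E3 := VH_eq (V3_iff (q := 5 * t + 5) (i := i) hv le_rfl (by omega) le_rfl TriB.nn_5 (TriB.nc_5 pth0)
    (fun l _ => TriB.nc_5 (pth1 l)) w)
  have h32 : ∀ u, V3 D v t (t + 2) (t + 2) i w u → V2 D v t (t + 2) (t + 2) i w u := fun u hu => hu.1
  have h12 : ∀ u, V2 D v t (t + 2) (t + 2) i w u → V2 D v t (nc q ∅) (t + 1) i w u := by
    rintro u ⟨g1, g2, g3, g4⟩
    refine ⟨g1, g2, ?_, fun l hl => ?_⟩
    · exact Um_older (a := (u.1, w.2)) (b := w) c2 g3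
    · exact Um_older (a := (u.1, w.2)) (b := w) (Nat.le_succ _) (g4 l hl)
  have l3 : SngA.LX h (Um v (t + 1)) t (univ.erase i) w (V3 D v t (t + 2) (t + 2) i w) ≤ L := by
    refine le_trans ?_ hL
    have x0 : 0 < (D.P h t).m (Cm D v t i) w := (D.P h t).m_pos _ hw
    have t0 : 0 < (D.P h t).m (TQ D v t i) w := (D.P h t).m_pos _ hw
    have k1 : (D.P h t).m (TQ D v t i) w / (D.P h t).m (Cm D v t i) w ≤
        (SngA.QX h (Um v (t + 1)) t (univ.erase i) w).Pr (V3 D v t (t + 2) (t + 2) i w) := by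
      unfold SngA.QX FP.Pr
      rw [FP.cond_E (xc_ne hw)]
      have e1 : (D.P h t).Pr (xc D (Um v (t + 1)) t (univ.erase i) w) = (D.P h t).m (Cm D v t i) w := by
        refine (D.P h t).E_congr fun u _ => ?_
        exact congrArg ind (propext Cm_xc)
      rw [e1]
      refine div_le_div_of_nonneg_right ?_ x0.le
      unfold FP.m
      refine (D.P h t).E_mono fun u _ => ?_
      rw [← ind_and]
      refine ind_mono fun hh => ?_
      have h1 : SngA.VH D (t + 1) univ w (V3 D v t (t + 2) (t + 2) i w) u := by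
        rw [E3]
        exact hh
      exact ⟨h1.1.1.1, h1.1⟩
    have q0 := div_pos t0 x0
    have k2 := Real.log_le_log (one_div_pos.2 (q0.trans_le k1)) (one_div_le_one_div_of_le q0 k1)
    unfold SngA.LX
    refine k2.trans (le_of_eq ?_)
    rw [one_div_div, Real.log_div x0.ne' t0.ne']
    unfold sp
    rw [(D.P h t).m_congr (X := fun a => (TQ D v t i a, Cm D v t i a)) (Y := TQ D v t i) (Fac.fst _ _)
      ((Fac.refl _).prod (TQ_Cm.trans Cm_old)) w]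
  have l1 := (J3.LX_mono h32).trans l3
  have l2 := (J3.LX_mono fun u hu => h12 u (h32 u hu)).trans l3
  have key := SngA.mis2 (t' := t + 1) (Nat.le_succ t) hhh B J1 J2 J3
    (fun l hl => Finset.mem_erase.2 ⟨hl, mem_univ l⟩) (Finset.notMem_erase i univ) l1 l2 l3
  rw [(D.P h t).ce_eq_cond _ _ hw]
  rw [E1, E2, E3] at key
  refine le_trans (FP.E_mono _ fun u hu => ?_) key
  have hne : (D.P h t).Pr (fun a => (FQ v t i a, ZbQ D v (5 * t + 5) i a) = (FQ v t i w, ZbQ D v (5 * t + 5) i w)) ≠ 0 :=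
    ((D.P h t).m_pos (fun a => (FQ v t i a, ZbQ D v (5 * t + 5) i a)) hw).ne'
  obtain ⟨u1, u2⟩ := cond_supp hne hu
  have hu5 : ZbQ D v (5 * t + 5) i u = ZbQ D v (5 * t + 5) i w := congrArg Prod.snd u1
  refine ind_mono fun hh => ?_
  rw [tF_eq hq5.le (nc_i hq hq5 i) hw hu5] at hh
  have m0 : 0 < ((D.P h t).cond (fun a => ZbQ D v q i a = ZbQ D v q i w)).m (zf (Um v (t + 1)) i) u := by
    refine FP.m_pos _ _ ?_
    exact (FP.cond_p_ne ((D.P h t).m_pos (ZbQ D v q i) hw).ne').2 ⟨ZbQ_mono hq5.le i u w hu5, u2⟩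
  rw [lt_div_iff₀ m0] at hh
  exact lt_of_le_of_lt (mul_le_mul_of_nonneg_right hB m0.le) hh


/-! ### the surprise of the later public letter -/

theorem er_ins {i j k : Fin 3} (bc : j ≠ i) (bd : j ≠ k) (cd : i ≠ k) : insert k ({j} : Finset (Fin 3)) = univ.erase i := by
  revert i j k
  decide

theorem er_no (j : Fin 3) (l : Fin 3) : ¬ univ.erase l ⊆ ({j} : Finset (Fin 3)) := by
  revert j l
  decide

/-- hidden event of the later public letter -/
def hP (D : HD (Fin 3) X β γ φ) (v : ℕ → Finset (Fin 3) → X → (Fin 3 → β) → Pt (Fin 3) X β φ) (t : ℕ)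
    (w u : Pt (Fin 3) X β φ) : Prop :=
  D.qa (t + 1) u.1 = D.qa (t + 1) w.1 ∧ Um v (t + 2) ∅ u.1 w.2.1 = Um v (t + 2) ∅ w.1 w.2.1

theorem hP_ix {N : Finset (Fin 3) → ℝ} {S : Finset (Finset (Fin 3))} (B : Bk h N S (Um v (t + 1)) t j i k)
    (I : Finset (Fin 3)) {w : Pt (Fin 3) X β φ} (hw : (D.P h t).p w ≠ 0) :
    SngA.Ix h (Um v (t + 1)) t I w (fun u => xc D (Um v (t + 1)) t I w u ∧ hP D v t w u) where
  ev := by
    intro a e hae
    simp only [Prod.mk.injEq] at hae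
    have h1 := xc_fac (U := Um v (t + 1)) I w B.dep B.era a e (Prod.ext hae.1 hae.2.1)
    show (_ ∧ _) = (_ ∧ _)
    unfold hP
    rw [h1, hae.1]
  self := ⟨xc_self _ _ _ w, rfl, rfl⟩
  supp := hw
  sub := fun _ hh => hh.1

theorem QX_and (I : Finset (Fin 3)) {w : Pt (Fin 3) X β φ} (hw : (D.P h t).p w ≠ 0) (A : Pt (Fin 3) X β φ → Prop) :
    (SngA.QX h (Um v (t + 1)) t I w).Pr (fun u => xc D (Um v (t + 1)) t I w u ∧ A u) =
      (SngA.QX h (Um v (t + 1)) t I w).Pr A := by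
  refine FP.E_congr _ fun u hu => ?_
  have h1 := SngA.QX_supp hw hu
  exact congrArg ind (propext ⟨fun hh => hh.2, fun hh => ⟨h1, hh⟩⟩)

/-- **THE LATER PUBLIC LETTER AT EXACT POINTS** -/
theorem sp_Cm {dg : ℕ → X → ℝ} {prr : ℕ → Fin 3 → φ → φ} {T : ℕ} (H : D.Hyp dg prr al T Lam) (hv : Codes D v)
    {N : Finset (Fin 3) → ℝ} {S : Finset (Finset (Fin 3))} (B : Bk h N S (Um v (t + 1)) t j i k) (ht : t < T)
    {w : Pt (Fin 3) X β φ} (hw : (D.P h t).p w ≠ 0) :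
    sp (D.P h t) (Cm D v (t + 1) i) (Cm D v t i) w ≤
      Real.log 2 + sp (D.P h t) (NPq D v (5 * t + 5)) (NPq D v (5 * t)) w := by
  have hhh : ∀ y, ((D.cB t y).card : ℝ) ≤ 2 * (D.cB (t + 1) y).card := by
    intro y
    rcases H.half t ht with h1 | h1
    · rw [h1 y]
      have : (0 : ℝ) ≤ ((D.cB t y).card : ℝ) := Nat.cast_nonneg _
      linarith
    · rw [← h1 y]
      push_cast
      exact le_rfl
  set P := D.P h t with hP'
  set U := Um v (t + 1) with hU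
  set I : Finset (Fin 3) := univ.erase i with hI
  have m0 : 0 < P.m (Cm D v t i) w := P.m_pos _ hw
  have m1 : 0 < P.m (Cm D v (t + 1) i) w := P.m_pos _ hw
  have n0 : 0 < P.m (NPq D v (5 * t)) w := P.m_pos _ hw
  have n1 : 0 < P.m (NPq D v (5 * t + 5)) w := P.m_pos _ hw
  -- the event at the exact points
  have JI := hP_ix B I hw
  have e0 : P.Pr (xc D U t I w) = P.m (Cm D v t i) w := P.E_congr fun u _ => congrArg ind (propext Cm_xc)
  have hIc : ∀ l, l ≠ i → l ∈ I := fun l hl => Finset.mem_erase.2 ⟨hl, mem_univ l⟩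
  have hiI : i ∉ I := Finset.notMem_erase i univ
  -- `C1` = the event with the half cells
  have e1 : P.m (Cm D v (t + 1) i) w =
      P.Pr (fun u => (xc D U t I w u ∧ hP D v t w u) ∧ SngA.HC D (t + 1) w u) := by
    refine P.E_congr fun u _ => congrArg ind (propext ?_)
    constructor
    · intro hh
      obtain ⟨g1, g2, g3⟩ := Cm_iff.1 hh
      have hc : ∀ l, D.qb (t + 1) (u.2.1 l) = D.qb (t + 1) (w.2.1 l) := fun l => congrFun (congrArg Prod.snd g3) l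
      refine ⟨⟨Cm_xc.2 (Cm_old u w hh), congrArg Prod.fst g3, ?_⟩, hc⟩
      rw [← Um_codes hv (n := t + 1) le_rfl ∅ u.1 (y := u.2.1) (y' := w.2.1)
        (fun j hj => absurd hj (Finset.notMem_empty j)) hc]
      exact g1
    · rintro ⟨⟨g1, g2, g3⟩, g4⟩
      obtain ⟨-, k2, -⟩ := Cm_iff.1 (Cm_xc.1 g1)
      refine Cm_iff.2 ⟨?_, k2, Prod.ext g2 (funext g4)⟩
      rw [Um_codes hv (n := t + 1) le_rfl ∅ u.1 (y := u.2.1) (y' := w.2.1)
        (fun j hj => absurd hj (Finset.notMem_empty j)) g4]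
      exact g3
  have e2 : P.Pr (fun u => (xc D U t I w u ∧ hP D v t w u) ∧ SngA.HC D (t + 1) w u) =
      P.Pr (fun u => xc D U t I w u ∧ hP D v t w u) *
        (P.cond fun u => xc D U t I w u ∧ hP D v t w u).Pr (SngA.HC D (t + 1) w) := by
    show _ = _ * (P.cond fun u => xc D U t I w u ∧ hP D v t w u).E (fun u => ind (SngA.HC D (t + 1) w u))
    rw [FP.cond_E JI.ne, mul_div_cancel₀ _ JI.ne]
    exact P.E_congr fun u _ => ind_and _ _
  have e3 : 1 / 2 ≤ (P.cond fun u => xc D U t I w u ∧ hP D v t w u).Pr (SngA.HC D (t + 1) w) := by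
    have h1 := SngA.hc_eq (t' := t + 1) B JI hIc hiI
    have h2 : 1 / 2 ≤ (SngA.QX h U t I w).Pr (SngA.HC D (t + 1) w) :=
      SngA.hc_half (t' := t + 1) (Nat.le_succ t) hhh B hw hIc hiI
    exact h2.trans (le_of_eq h1.symm)
  have e4 : P.Pr (fun u => xc D U t I w u ∧ hP D v t w u) =
      P.m (Cm D v t i) w * (SngA.QX h U t I w).Pr (hP D v t w) := by
    rw [← e0]
    show _ = _ * ((D.P h t).cond (xc D U t I w)).E (fun u => ind (hP D v t w u))
    rw [FP.cond_E (xc_ne hw), mul_div_cancel₀ _ (xc_ne hw)]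
    exact P.E_congr fun u _ => ind_and _ _
  -- the probability does not see the exact points
  have e5 : (SngA.QX h U t I w).Pr (hP D v t w) = (SngA.QX h U t ∅ w).Pr (hP D v t w) := by
    have p1 := SngA.Ix.pr_pt B (hP_ix B ∅ hw) (fun l => B.era l) j
    have p2 := SngA.Ix.pr_pt B (hP_ix B {j} hw) (er_no j) k
    have q0 := QX_and (v := v) ∅ hw (hP D v t w)
    have q1 := QX_and (v := v) {j} hw (hP D v t w)
    rw [er_ins B.bc B.bd B.cd] at p2
    have p2' : (SngA.QX h U t I w).Pr (fun u => xc D U t {j} w u ∧ hP D v t w u) =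
        (SngA.QX h U t {j} w).Pr (fun u => xc D U t {j} w u ∧ hP D v t w u) := p2
    have p1' : (SngA.QX h U t {j} w).Pr (fun u => xc D U t ∅ w u ∧ hP D v t w u) =
        (SngA.QX h U t ∅ w).Pr (fun u => xc D U t ∅ w u ∧ hP D v t w u) := p1
    have r1 : (SngA.QX h U t I w).Pr (fun u => xc D U t {j} w u ∧ hP D v t w u) =
        (SngA.QX h U t I w).Pr (hP D v t w) := by
      refine FP.E_congr _ fun u hu => congrArg ind (propext ⟨fun hh => hh.2, fun hh => ⟨?_, hh⟩⟩)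
      have h1 := SngA.QX_supp hw hu
      refine ⟨h1.1, ?_⟩
      have h2 := h1.2
      rw [BB_eq] at h2 ⊢
      exact ⟨fun l hl => h2.1 l (by rw [Finset.mem_singleton.1 hl]; exact hIc j B.bc), h2.2⟩
    have r0 : (SngA.QX h U t {j} w).Pr (fun u => xc D U t ∅ w u ∧ hP D v t w u) =
        (SngA.QX h U t {j} w).Pr (hP D v t w) := by
      refine FP.E_congr _ fun u hu => congrArg ind (propext ⟨fun hh => hh.2, fun hh => ⟨?_, hh⟩⟩)
      have h1 := SngA.QX_supp hw hu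
      refine ⟨h1.1, ?_⟩
      have h2 := h1.2
      rw [BB_eq] at h2 ⊢
      exact ⟨fun l hl => absurd hl (Finset.notMem_empty l), h2.2⟩
    rw [← r1, p2', q1, ← r0, p1', q0]
  have e6 : P.m (NPq D v (5 * t + 5)) w / P.m (NPq D v (5 * t)) w ≤ (SngA.QX h U t ∅ w).Pr (hP D v t w) := by
    show _ ≤ ((D.P h t).cond (xc D U t ∅ w)).E (fun u => ind (hP D v t w u))
    rw [FP.cond_E (xc_ne hw)]
    have g0 : (D.P h t).Pr (xc D U t ∅ w) = P.m (NPq D v (5 * t)) w := by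
      refine P.E_congr fun u _ => congrArg ind (propext ?_)
      rw [NP_0]
      unfold xc
      rw [le_eq, BB_eq]
      constructor
      · rintro ⟨g1, g2, g3, g4⟩
        exact ⟨(TriB.LL_thin pth0).1 (g1 ∅ (Finset.Subset.refl _)), Prod.ext g3 (funext g4)⟩
      · rintro ⟨g1, g2⟩
        refine ⟨fun J hJ => ?_, fun l hl => absurd hl (Finset.notMem_empty l), congrArg Prod.fst g2,
          fun l => congrFun (congrArg Prod.snd g2) l⟩
        rw [Finset.subset_empty.1 hJ, TriB.LL_thin pth0]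
        exact g1
    rw [g0]
    refine div_le_div_of_nonneg_right ?_ n0.le
    unfold FP.m
    refine P.E_mono fun u _ => ?_
    rw [← ind_and]
    refine ind_mono fun hh => ?_
    obtain ⟨g1, g2⟩ := TriB.NPq_5.1 hh
    have hc : ∀ l, D.qb (t + 1) (u.2.1 l) = D.qb (t + 1) (w.2.1 l) := fun l => congrFun (congrArg Prod.snd g2) l
    have g3 := nd_older (Nat.le_succ t) g2
    refine ⟨⟨?_, ?_⟩, congrArg Prod.fst g2, ?_⟩
    · rw [le_eq]
      intro J hJ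
      rw [Finset.subset_empty.1 hJ, TriB.LL_thin pth0]
      exact Um_older (Nat.le_succ _) g1
    · rw [BB_eq]
      exact ⟨fun l hl => absurd hl (Finset.notMem_empty l), congrArg Prod.fst g3,
        fun l => congrFun (congrArg Prod.snd g3) l⟩
    · rw [← Um_codes hv (n := t + 1) le_rfl ∅ u.1 (y := u.2.1) (y' := w.2.1)
        (fun j hj => absurd hj (Finset.notMem_empty j)) hc]
      exact g1
  have k1 : P.m (Cm D v t i) w * (P.m (NPq D v (5 * t + 5)) w / P.m (NPq D v (5 * t)) w) * (1 / 2) ≤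
      P.m (Cm D v (t + 1) i) w := by
    rw [e1, e2, e4, e5]
    have z1 : 0 ≤ P.m (NPq D v (5 * t + 5)) w / P.m (NPq D v (5 * t)) w := (div_pos n1 n0).le
    exact mul_le_mul (mul_le_mul_of_nonneg_left e6 m0.le) e3 (by norm_num) (mul_nonneg m0.le (z1.trans e6))
  have k2 := Real.log_le_log (by positivity) k1
  rw [Real.log_mul (by positivity) (by norm_num), Real.log_mul m0.ne' (by positivity), Real.log_div n1.ne' n0.ne',
    one_div, Real.log_inv] at k2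
  unfold sp
  rw [P.m_congr (X := fun a => (Cm D v (t + 1) i a, Cm D v t i a)) (Y := Cm D v (t + 1) i) (Fac.fst _ _)
      ((Fac.refl _).prod Cm_old) w]
  have hNN : Fac (NPq (φ := φ) D v (5 * t + 5)) (NPq D v (5 * t)) := by
    intro a e hae
    obtain ⟨g1, g2⟩ := TriB.NPq_5.1 hae
    exact NP_0.2 ⟨Um_older (Nat.le_succ _) g1, nd_older (Nat.le_succ t) g2⟩
  rw [P.m_congr (X := fun a => (NPq D v (5 * t + 5) a, NPq D v (5 * t) a)) (Y := NPq D v (5 * t + 5)) (Fac.fst _ _)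
      ((Fac.refl _).prod hNN) w]
  linarith


/-! ### the surprise of a letter at exact points -/

theorem lt_xy (s : ℕ) (i : Fin 3) : XY (Cm (φ := φ) D v s i) := by
  intro x y F F'
  exact Cm_iff.2 ⟨rfl, fun _ _ => rfl, rfl⟩

/-- **a letter is as surprising at one exact point as at two** -/
theorem ss_Cm {N : Finset (Fin 3) → ℝ} {S : Finset (Finset (Fin 3))}
    (B : Bk h N S (Um v (t + 2)) (t + 1) j i k) {w : Pt (Fin 3) X β φ} (hw : (D.P h t).p w ≠ 0) :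
    sp (D.P h t) (XLq v (5 * t + 5) j) (Cm D v (t + 1) i) w = ssQ h v (5 * t + 5) j w := by
  -- a point of the later law with the same hidden point and points
  obtain ⟨F, hF⟩ : ∃ F, (D.P h (t + 1)).p (w.1, w.2.1, F) ≠ 0 := by
    by_contra hno
    push Not at hno
    have hm : (D.P h t).m (fun u : Pt (Fin 3) X β φ => (u.1, u.2.1)) w ≠ 0 := ((D.P h t).m_pos _ hw).ne'
    have hm' : (D.P h (t + 1)).m (fun u : Pt (Fin 3) X β φ => (u.1, u.2.1)) w = 0 := by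
      unfold FP.m
      rw [(D.P h (t + 1)).E_congr (g := fun _ => 0) fun u hu => ?_, FP.E_const]
      refine ind_not fun hh => hu ?_
      obtain ⟨h1, h2⟩ := pair_iff.1 hh
      have e : u = (w.1, w.2.1, u.2.2) := Prod.ext h1 (Prod.ext h2 rfl)
      rw [e]
      exact hno _
    rw [m_xy h (f := fun u : Pt (Fin 3) X β φ => (u.1, u.2.1)) (fun _ _ _ _ => rfl) t (t + 1)] at hm
    exact hm hm'
  set w' : Pt (Fin 3) X β φ := (w.1, w.2.1, F) with hw'
  have hX : XY (XLq (φ := φ) v (5 * t + 5) j) := xy_XLq _ _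
  have e1 : sp (D.P h t) (XLq v (5 * t + 5) j) (Cm D v (t + 1) i) w =
      sp (D.P h (t + 1)) (XLq v (5 * t + 5) j) (Cm D v (t + 1) i) w' := by
    rw [sp_xy h hX (lt_xy (t + 1) i) t (t + 1) w]
    exact sp_fac _ _ _ w w' (Prod.ext (hX w.1 w.2.1 w.2.2 F) (lt_xy (t + 1) i w.1 w.2.1 w.2.2 F))
  have e2 : ssQ h v (5 * t + 5) j w = ssQ h v (5 * t + 5) j w' := sp_fac _ _ _ w w' rfl
  rw [e1, e2, ← TriB.own_ss hF]
  set P := D.P h (t + 1) with hP
  set U := Um v (t + 2) with hU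
  set V : Pt (Fin 3) X β φ → Prop := clsb U (pub0 D (t + 1) U w') j w' with hV
  have J : SngA.Ix h U (t + 1) {j} w' V := by
    refine SngA.Ib_ix ⟨?_, ⟨rfl, rfl, rfl⟩, hF, fun _ hh => hh⟩
    exact clsb_Ah B.dep (pub0_C w') B.oth
  have p1 := SngA.Ix.pr_pt B J (er_no j) k
  rw [er_ins B.bc B.bd B.cd] at p1
  have p2 : (QB h U (t + 1) j w').Pr V = (P.cond (xc D U (t + 1) (univ.erase i) w')).Pr V := p1.symm
  rw [p2]
  have x0 : 0 < P.m (Cm D v (t + 1) i) w' := P.m_pos _ hF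
  have g0 : P.Pr (xc D U (t + 1) (univ.erase i) w') = P.m (Cm D v (t + 1) i) w' :=
    P.E_congr fun u _ => congrArg ind (propext Cm_xc)
  have g1 : (P.cond (xc D U (t + 1) (univ.erase i) w')).Pr V =
      P.m (fun u => (XLq v (5 * t + 5) j u, Cm D v (t + 1) i u)) w' / P.m (Cm D v (t + 1) i) w' := by
    show ((D.P h (t + 1)).cond (xc D U (t + 1) (univ.erase i) w')).E (fun u => ind (V u)) = _
    rw [FP.cond_E (xc_ne hF)]
    have g2 : (D.P h (t + 1)).Pr (xc D U (t + 1) (univ.erase i) w') = P.m (Cm D v (t + 1) i) w' := g0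
    rw [g2]
    congr 1
    refine P.E_congr fun u _ => ?_
    rw [← ind_and]
    refine congrArg ind (propext ?_)
    constructor
    · rintro ⟨h1, h2⟩
      exact pair_iff.2 ⟨(TriB.clsb_iff.1 h2).1, Cm_xc.1 h1⟩
    · intro hh
      obtain ⟨h1, h2⟩ := pair_iff.1 hh
      obtain ⟨h3, h4, h5⟩ := Cm_iff.1 h2
      exact ⟨Cm_xc.2 h2, TriB.clsb_iff.2 ⟨h1, h4 j B.bc, TriB.NPq_5.2 ⟨h3, h5⟩⟩⟩
  have x1 : 0 < P.m (fun u => (XLq v (5 * t + 5) j u, Cm D v (t + 1) i u)) w' := P.m_pos _ hF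
  rw [g1, one_div_div, Real.log_div x0.ne' x1.ne']
  rfl

/-! ### few tops -/

theorem few_of {Om τ κ : Type*} (Ok : Om → Prop) (T : Om → τ) (G : Om → κ) (s : Finset κ)
    (hG : ∀ w, Ok w → G w ∈ s) (hT : ∀ w w', Ok w → Ok w' → G w = G w' → T w = T w') :
    ∃ s' : Finset τ, s'.card ≤ s.card ∧ ∀ w, Ok w → T w ∈ s' := by
  classical
  by_cases h0 : ∃ w, Ok w
  · obtain ⟨w0, hw0⟩ := h0
    refine ⟨s.image fun x => if hx : ∃ w, Ok w ∧ G w = x then T hx.choose else T w0, Finset.card_image_le,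
      fun w hw => Finset.mem_image.2 ⟨G w, hG w hw, ?_⟩⟩
    have hx : ∃ w', Ok w' ∧ G w' = G w := ⟨w, hw, rfl⟩
    rw [dif_pos hx]
    exact hT _ _ hx.choose_spec.1 hw hx.choose_spec.2
  · exact ⟨∅, Nat.zero_le _, fun w hw => absurd ⟨w, hw⟩ h0⟩

/-- few values of the top and the thin labels -/
theorem few_TQ {dg : ℕ → X → ℝ} {prr : ℕ → Fin 3 → φ → φ} {T : ℕ} (H : D.Hyp dg prr al T Lam)
    {N : Finset (Fin 3) → ℝ} (R : Run h N (SS1 (Fin 3)) (AdmDep D) v) (hN : ∀ l : Fin 3, 0 < N (univ.erase l))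
    (ht : t < T) (bc : j ≠ i) (bd : j ≠ k) (cd : i ≠ k) {X0 : ℝ} {A : Pt (Fin 3) X β φ → Prop}
    (hal : ∀ w, (D.P h t).p w ≠ 0 → A w → ssQ h v (5 * t + 5) k w ≤ X0) (w0 : Pt (Fin 3) X β φ) :
    ∃ s : Finset (_ × _), (s.card : ℝ) ≤ Real.exp (X0 + Lam) ∧ ∀ w, (D.P h t).p w ≠ 0 → A w →
      (XLq v (5 * t + 5) j w, Cm D v (t + 1) i w) = (XLq v (5 * t + 5) j w0, Cm D v (t + 1) i w0) →
        TQ D v t i w ∈ s := by
  classical
  obtain ⟨s1, c1, g1⟩ := TriB.few (D.P h t) (XLq v (5 * t + 5) k) (fun u => (u.2.1 k, NPq D v (5 * t + 5) u))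
    (w0.2.1 k, NPq D v (5 * t + 5) w0) X0
  set s2 : Finset φ := univ.filter fun F => al ≤ D.kf t i w0.1 w0.2.1 F with hs2
  have c2 : (s2.card : ℝ) ≤ 1 / al := poss_card h i w0.1 w0.2.1
  have hal' : 1 / al ≤ Real.exp Lam := by
    rw [div_le_iff₀ h.pos]
    have h3 := mul_le_mul_of_nonneg_left H.alL (Real.exp_pos Lam).le
    rwa [← Real.exp_add, add_neg_cancel, Real.exp_zero] at h3
  set Ok : Pt (Fin 3) X β φ → Prop := fun w => (D.P h t).p w ≠ 0 ∧ A w ∧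
    (XLq v (5 * t + 5) j w, Cm D v (t + 1) i w) = (XLq v (5 * t + 5) j w0, Cm D v (t + 1) i w0) with hOk
  have hki : k ≠ i := cd.symm
  obtain ⟨s, hs1, hs2'⟩ := few_of Ok (TQ D v t i) (fun w => (XLq v (5 * t + 5) k w, w.2.2 i)) (s1 ×ˢ s2)
    (fun w hw => by
      obtain ⟨p, a, e⟩ := hw
      obtain ⟨e1, e2⟩ := pair_iff.1 e
      obtain ⟨f1, f2, f3⟩ := Cm_iff.1 e2
      refine Finset.mem_product.2 ⟨g1 w p ?_ ?_, ?_⟩
      · exact pair_iff.2 ⟨f2 k hki, TriB.NPq_5.2 ⟨f1, f3⟩⟩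
      · rw [← TriB.ssQ_at (5 * t + 5) k w t]
        exact hal w p a
      · show w.2.2 i ∈ s2
        rw [hs2]
        refine Finset.mem_filter.2 ⟨mem_univ _, ?_⟩
        have h5 : D.kf t i w.1 w.2.1 (w.2.2 i) ≠ 0 := by
          have h3 : (∏ l, D.kf t l w.1 w.2.1 (w.2.2 l)) / (Fintype.card X * (Fintype.card β : ℝ) ^ Fintype.card (Fin 3)) ≠ 0 := p
          exact Finset.prod_ne_zero_iff.1 (div_ne_zero_iff.1 h3).1 i (mem_univ i)
        have f4 := nd_older (Nat.le_succ t) f3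
        have h6 : D.kf t i w.1 w0.2.1 = D.kf t i w.1 w.2.1 := D.dep t i w.1 w0.2.1 w.2.1 (fun l hl => (f2 l hl).symm)
          (congrFun (congrArg Prod.snd f4) i).symm
        rw [← h6] at h5
        exact h.thick t i w.1 w0.1 w0.2.1 (w.2.2 i) (congrArg Prod.fst f4) h5)
    (fun w w' hw hw' hG => by
      obtain ⟨p, -, e⟩ := hw
      obtain ⟨p', -, e'⟩ := hw'
      obtain ⟨b1, b2⟩ := pair_iff.1 (e.trans e'.symm)
      obtain ⟨f1, f2, f3⟩ := Cm_iff.1 b2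
      obtain ⟨k1, k2⟩ := pair_iff.1 hG
      have hz : ZbQ D v (5 * t + 5) i w = ZbQ D v (5 * t + 5) i w' := by
        refine Zb_iff.2 ⟨f2, by rw [TriB.nn_5]; exact f3, by rw [TriB.nc_5 pth0]; exact f1, fun l hl => ?_⟩
        have hlj : l = j ∨ l = k := by
          rcases TriB.all3 bc bd cd l with h1 | h1 | h1
          · exact Or.inl h1
          · exact absurd h1 hl
          · exact Or.inr h1
        rcases hlj with rfl | rfl
        · exact congrArg Prod.snd b1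
        · exact congrArg Prod.snd k1
      have hf : FQ v t i w = FQ v t i w' :=
        (top_name H R (fun l => mem_SS1.2 (Finset.erase_ne_self.2 (mem_univ l))) (fun hh => mem_SS1.1 hh rfl) hN ht.le
          (by omega) p p' hz).2 k2
      show (FQ v t i w, ZbQ D v (5 * t + 5) i w) = (FQ v t i w', ZbQ D v (5 * t + 5) i w')
      rw [hf, hz])
  refine ⟨s, ?_, fun w hw hA hJ => hs2' w ⟨hw, hA, hJ⟩⟩
  have h1 : (s.card : ℝ) ≤ (s1.card : ℝ) * s2.card := by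
    have := Finset.card_product s1 s2
    rw [this] at hs1
    exact_mod_cast hs1
  rw [Real.exp_add]
  exact h1.trans (mul_le_mul c1 (c2.trans hal') (Nat.cast_nonneg _) (Real.exp_pos _).le)


/-! ### the missing letter -/

theorem pr3_e (n N1 : ℝ) : pr3 (Fin 3) n N1 ∅ = 1 := by
  unfold pr3
  rw [if_pos Finset.card_empty]

theorem pr3_s (n N1 : ℝ) (b : Fin 3) : pr3 (Fin 3) n N1 {b} = N1 := by
  unfold pr3
  rw [if_neg (by rw [Finset.card_singleton]; norm_num), if_pos (Finset.card_singleton b)]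

/-- **the surprise of the top and the thin labels is small** up to `exp (-n)` -/
theorem large (hn : 1 ≤ n) (hN1 : 1 ≤ N1) {dg : ℕ → X → ℝ} {prr : ℕ → Fin 3 → φ → φ} {T : ℕ}
    (H : D.Hyp dg prr al T Lam) (R : Run h (pr3 (Fin 3) n N1) (SS1 (Fin 3)) (AdmDep D) v) (ht : t < T) (bc : j ≠ i)
    {X0 : ℝ} {A R0 : Pt (Fin 3) X β φ → Prop}
    (hR : Fac (fun w => (XLq v (5 * t + 5) j w, NPq D v (5 * t + 5) w)) R0) (hAR : ∀ w, A w → R0 w)
    (hal : ∀ w, (D.P h t).p w ≠ 0 → A w → ∀ k, k ≠ i → ssQ h v (5 * t + 5) k w ≤ X0) :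
    (D.P h t).Pr (fun w => A w ∧ X0 + (X0 + Lam) + n < sp (D.P h t) (TQ D v t i) (Cm D v (t + 1) i) w) ≤
      Real.exp (-n) * (D.P h t).Pr R0 := by
  obtain ⟨k, bd, cd⟩ : ∃ k, j ≠ k ∧ i ≠ k := by
    have key : ∀ i j : Fin 3, ∃ k, j ≠ k ∧ i ≠ k := by decide
    exact key i j
  have B := TriB.Bk_run hn hN1 R bc bd cd (t + 1)
  refine SngA.bad_gen (D.P h t) (J := fun w => (XLq v (5 * t + 5) j w, Cm D v (t + 1) i w)) TQ_Cm (Fac.snd _ _) ?_
    (fun w _ hw => hAR w hw) (fun w hw hA => ?_) fun w0 _ _ => ?_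
  · intro a e hae
    obtain ⟨h1, h2⟩ := pair_iff.1 hae
    obtain ⟨f1, f2, f3⟩ := Cm_iff.1 h2
    exact hR a e (pair_iff.2 ⟨h1, TriB.NPq_5.2 ⟨f1, f3⟩⟩)
  · have h1 : sp (D.P h t) (fun w => (XLq v (5 * t + 5) j w, Cm D v (t + 1) i w)) (Cm D v (t + 1) i) w =
        sp (D.P h t) (XLq v (5 * t + 5) j) (Cm D v (t + 1) i) w :=
      sp_congr (D.P h t) (fun a e hae => (pair_iff.1 (pair_iff.1 hae).1).1) (Fac.refl _)
        (fun a e hae => by
          obtain ⟨h1, h2⟩ := pair_iff.1 hae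
          exact pair_iff.2 ⟨h1, h2⟩) (Fac.refl _) w
    rw [h1, ss_Cm B hw]
    exact hal w hw hA j bc
  · exact few_TQ H R (fun l => zero_lt_one.trans_le (pr3_one hn hN1 _)) ht bc bd cd
      (fun w hw hA => hal w hw hA k cd.symm) w0

/-- **THE MISSING LETTER IN A RUN** -/
theorem mis_run' (hn : 1 ≤ n) (hN1 : 1 ≤ N1) {dg : ℕ → X → ℝ} {prr : ℕ → Fin 3 → φ → φ} {T : ℕ}
    (H : D.Hyp dg prr al T Lam) (R : Run h (pr3 (Fin 3) n N1) (SS1 (Fin 3)) (AdmDep D) v) (ht : t < T)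
    (hq : 5 * t + 1 ≤ q) (hq5 : q < 5 * t + 5) (hj : j ≠ i) {X0 Lz : ℝ} (hX0 : 0 ≤ X0)
    {A R0 : Pt (Fin 3) X β φ → Prop} (hA : Fac (fun w => (FQ v t i w, ZbQ D v (5 * t + 5) i w)) A)
    (hR : Fac (fun w => (XLq v (5 * t + 5) j w, NPq D v (5 * t + 5) w)) R0) (hAR : ∀ w, A w → R0 w)
    (hal : ∀ w, (D.P h t).p w ≠ 0 → A w → ∀ k, k ≠ i → ssQ h v (5 * t + 5) k w ≤ X0)
    (hLz : ∀ w, (D.P h t).p w ≠ 0 → A w → sp (D.P h t) (NPq D v (5 * t + 5)) (NPq D v (5 * t)) w ≤ Lz)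
    {B : ℝ} (hB : 2 ≤ B) :
    (D.P h t).Pr (fun w => A w ∧ B < tF (D.P h t) (ZQ D v q) (ZbQ D v q) (ZbQ D v (5 * t + 5)) i w) ≤
      34 * Real.sqrt ((Lz + 2 * X0 + Lam + n + 1) / N1) * (D.P h t).Pr A + Real.exp (-n) * (D.P h t).Pr R0 := by
  classical
  obtain ⟨k, bd, cd⟩ : ∃ k, j ≠ k ∧ i ≠ k := by
    have key : ∀ i j : Fin 3, ∃ k, j ≠ k ∧ i ≠ k := by decide
    exact key i j
  have Bt := TriB.Bk_run hn hN1 R hj bd cd t
  by_cases hex : ∃ w, (D.P h t).p w ≠ 0 ∧ A w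
  swap
  · have e0 : (D.P h t).Pr (fun w => A w ∧ B < tF (D.P h t) (ZQ D v q) (ZbQ D v q) (ZbQ D v (5 * t + 5)) i w) = 0 := by
      unfold FP.Pr
      rw [(D.P h t).E_congr (g := fun _ => 0) fun w hw => ind_not fun hh => hex ⟨w, hw, hh.1⟩, FP.E_const]
    rw [e0]
    have h1 := (D.P h t).Pr_nonneg A
    have h2 := (D.P h t).Pr_nonneg R0
    positivity
  obtain ⟨wz, pz, az⟩ := hex
  have hLz0 : 0 ≤ Lz := (sp_nonneg (D.P h t) _ _ pz).trans (hLz wz pz az)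
  have hl2 : Real.log 2 ≤ 1 := by
    have := Real.log_le_sub_one_of_pos (show (0 : ℝ) < 2 by norm_num)
    linarith
  have hl0 : 0 ≤ Real.log 2 := Real.log_nonneg (by norm_num)
  set L := Lz + Real.log 2 + (X0 + (X0 + Lam) + n) with hLd
  set Tb : Pt (Fin 3) X β φ → Prop := fun w =>
    B < tF (D.P h t) (ZQ D v q) (ZbQ D v q) (ZbQ D v (5 * t + 5)) i w with hTb
  set G : Pt (Fin 3) X β φ → Prop := fun w => sp (D.P h t) (TQ D v t i) (Cm D v t i) w ≤ L with hG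
  have hAT : Fac (TQ D v t i) A := hA
  have hGT : Fac (TQ D v t i) G := by
    intro a e hae
    have h1 : sp (D.P h t) (TQ D v t i) (Cm D v t i) a = sp (D.P h t) (TQ D v t i) (Cm D v t i) e :=
      sp_fac _ _ _ a e (pair_iff.2 ⟨hae, (TQ_Cm.trans Cm_old) a e hae⟩)
    show (_ ≤ L) = (_ ≤ L)
    rw [h1]
  have k1 : (D.P h t).Pr (fun w => A w ∧ Tb w) ≤ (D.P h t).Pr (fun w => (A w ∧ G w) ∧ Tb w) +
      (D.P h t).Pr (fun w => A w ∧ X0 + (X0 + Lam) + n < sp (D.P h t) (TQ D v t i) (Cm D v (t + 1) i) w) := by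
    unfold FP.Pr
    rw [← FP.E_add]
    refine (D.P h t).E_mono fun w hw => ?_
    by_cases ha : A w ∧ Tb w
    · rw [ind_of ha]
      by_cases hg : G w
      · rw [ind_of (⟨⟨ha.1, hg⟩, ha.2⟩ : (A w ∧ G w) ∧ Tb w)]
        linarith [ind_nonneg (A w ∧ X0 + (X0 + Lam) + n < sp (D.P h t) (TQ D v t i) (Cm D v (t + 1) i) w)]
      · have h2 : X0 + (X0 + Lam) + n < sp (D.P h t) (TQ D v t i) (Cm D v (t + 1) i) w := by
          have h3 : L < sp (D.P h t) (TQ D v t i) (Cm D v t i) w := not_le.1 hg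
          have h4 : sp (D.P h t) (TQ D v t i) (Cm D v t i) w =
              sp (D.P h t) (Cm D v (t + 1) i) (Cm D v t i) w + sp (D.P h t) (TQ D v t i) (Cm D v (t + 1) i) w := by
            have h5 : sp (D.P h t) (TQ D v t i) (Cm D v t i) w =
                sp (D.P h t) (fun u => (TQ D v t i u, Cm D v (t + 1) i u)) (Cm D v t i) w :=
              sp_congr (D.P h t) (fun a e hae => by
                have h6 := (pair_iff.1 hae).1
                exact pair_iff.2 ⟨h6, TQ_Cm a e h6⟩) (Fac.refl _)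
                (fun a e hae => (pair_iff.1 (pair_iff.1 hae).1).1) (Fac.refl _) w
            have h7 : sp (D.P h t) (TQ D v t i) (fun u => (Cm D v (t + 1) i u, Cm D v t i u)) w =
                sp (D.P h t) (TQ D v t i) (Cm D v (t + 1) i) w :=
              sp_congr (D.P h t) (Fac.fst _ _) (Fac.fst _ _) (Fac.fst _ _) ((Fac.refl _).prod Cm_old) w
            rw [h5, sp_chain, h7]
          have h5 := sp_Cm H R.codes Bt ht hw
          have h6 := hLz w hw ha.1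
          linarith
        rw [ind_of (⟨ha.1, h2⟩ : A w ∧ X0 + (X0 + Lam) + n < sp (D.P h t) (TQ D v t i) (Cm D v (t + 1) i) w)]
        linarith [ind_nonneg ((A w ∧ G w) ∧ Tb w)]
    · rw [ind_not ha]
      exact add_nonneg (ind_nonneg _) (ind_nonneg _)
  have k2 : (D.P h t).Pr (fun w => (A w ∧ G w) ∧ Tb w) ≤
      34 * Real.sqrt ((Lz + 2 * X0 + Lam + n + 1) / N1) * (D.P h t).Pr A := by
    have e1 : (D.P h t).Pr (fun w => (A w ∧ G w) ∧ Tb w) =
        (D.P h t).E (fun w => ind (A w ∧ G w) * (D.P h t).ce (TQ D v t i) (fun u => ind (Tb u)) w) := by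
      rw [FP.E_mul_ce _ (h := fun w => ind (A w ∧ G w)) (Fac.ind fun a e hae => by
        show (A a ∧ G a) ↔ (A e ∧ G e)
        rw [show A a = A e from hAT a e hae, show G a = G e from hGT a e hae])]
      exact (D.P h t).E_congr fun w _ => ind_and _ _
    have e2 : 12 * Real.sqrt (2 * SngA.kI (pr3 (Fin 3) n N1) i L) ≤
        34 * Real.sqrt ((Lz + 2 * X0 + Lam + n + 1) / N1) := by
      unfold SngA.kI
      rw [pr3_e, pr3_s]
      have hN0 : 0 < N1 := by linarith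
      have hLam := H.Lam1
      have h1 : 2 * (2 * 1 * (L + 1) / N1) ≤ (17 / 6) ^ 2 * ((Lz + 2 * X0 + Lam + n + 1) / N1) := by
        rw [mul_div_assoc', mul_div_assoc', div_le_div_iff_of_pos_right hN0, hLd]
        nlinarith
      have h2 := Real.sqrt_le_sqrt h1
      have h3 : Real.sqrt ((17 / 6) ^ 2 * ((Lz + 2 * X0 + Lam + n + 1) / N1)) =
          17 / 6 * Real.sqrt ((Lz + 2 * X0 + Lam + n + 1) / N1) := by
        rw [Real.sqrt_mul (by norm_num), Real.sqrt_sq (by norm_num)]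
      rw [h3] at h2
      linarith
    rw [e1]
    have e3 : 34 * Real.sqrt ((Lz + 2 * X0 + Lam + n + 1) / N1) * (D.P h t).Pr A =
        (D.P h t).E (fun w => 34 * Real.sqrt ((Lz + 2 * X0 + Lam + n + 1) / N1) * ind (A w)) := by
      unfold FP.Pr
      rw [FP.E_smul]
    rw [e3]
    refine (D.P h t).E_mono fun w hw => ?_
    by_cases ha : A w ∧ G w
    · rw [ind_of ha, one_mul, ind_of ha.1, mul_one]
      exact (mis_cls H R.codes Bt ht hq hq5 hw ha.2 hB).trans e2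
    · rw [ind_not ha, zero_mul]
      have := ind_nonneg (A w)
      positivity
  have k3 := large hn hN1 H R ht hj hR hAR hal
  linarith

/-- **THE MISSING LETTER IN A RUN** -/
theorem mis_run {n N1 : ℝ} (hn : 1 ≤ n) (hN1 : 1 ≤ N1) {dg : ℕ → X → ℝ} {prr : ℕ → Fin 3 → φ → φ} {T : ℕ} {Lam : ℝ}
    (H : D.Hyp dg prr al T Lam) (R : Run h (pr3 (Fin 3) n N1) (SS1 (Fin 3)) (AdmDep D) v) {t q : ℕ} (ht : t < T)
    (hq : 5 * t + 1 ≤ q) (hq5 : q < 5 * t + 5) {i j : Fin 3} (hj : j ≠ i) {X0 Lz : ℝ} (hX0 : 0 ≤ X0)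
    {A R0 : Pt (Fin 3) X β φ → Prop} (hA : Fac (fun w => (FQ v t i w, ZbQ D v (5 * t + 5) i w)) A)
    (hR : Fac (fun w => (XLq v (5 * t + 5) j w, NPq D v (5 * t + 5) w)) R0) (hAR : ∀ w, A w → R0 w)
    (hal : ∀ w, (D.P h t).p w ≠ 0 → A w → ∀ k, k ≠ i → ssQ h v (5 * t + 5) k w ≤ X0)
    (hLz : ∀ w, (D.P h t).p w ≠ 0 → A w → sp (D.P h t) (NPq D v (5 * t + 5)) (NPq D v (5 * t)) w ≤ Lz)
    {B : ℝ} (hB : 2 ≤ B) :
    (D.P h t).Pr (fun w => A w ∧ B < tF (D.P h t) (ZQ D v q) (ZbQ D v q) (ZbQ D v (5 * t + 5)) i w) ≤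
      96 * Real.sqrt ((Lz + 2 * X0 + Lam + n + 1) / N1) * (D.P h t).Pr A + Real.exp (-n) * (D.P h t).Pr R0 := by
  have h1 := mis_run' hn hN1 H R ht hq hq5 hj hX0 hA hR hAR hal hLz hB
  have h2 := mul_nonneg (Real.sqrt_nonneg ((Lz + 2 * X0 + Lam + n + 1) / N1)) ((D.P h t).Pr_nonneg A)
  linarith

end run

end SngG

end

end Pool.Agent.GMH.TP
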