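import Pool.Agent.GMH.SngS
import Pool.Agent.GMH.SglO
import Pool.Agent.GMH.SngM

/-!
# GMH/SngG3 (helper21): KIND S, block GIB, part (G3a): the single of an ACTIVE top is bad, all cheap steps

* `sum_tv`, `tv_cls` : the distance of the law of the top given the thin letters from its own law, in the mean over the missing
  letter, is the distance of the law of the missing letter given the top from its own law, in the mean over the top;
* `LX_Te`, `l1_top`, `tr_cls` : one class: the law of the missing letter with and without the top at the old state; from the class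
  of the top and the thin labels of the later state to the old class;
* `bad_cls`, `bad_run` : `P (A, sL i) ≤ (64 (6/eS + 1/eF) √((Lo + X1 + Lam + 1)/N1) + 32 √((Ln + X1 + Lam + 1)/N1)) P (A)`;
* **`g3a_t`**, **`g3a_q`** : over `Ctx`, the top active (`e < |r - 1|`); `s1a_q`, `s2a_q` : the parts of `S1O`, `S2O`.
-/

set_option autoImplicit false
set_option linter.unusedSectionVars false

namespace Pool.Agent.GMH.SngG

open Finset Pool.Agent.PWZ Pool.Agent.M3 Pool.Agent.GM Pool.Agent.GM.Harm Pool.Agent.GMH Pool.Agent.GMH.NZ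

noncomputable section

/-! ### distances -/

section tv

variable {Om : Type*} [Fintype Om] (Q : FP Om) {κ ι : Type*}

theorem lw2_comm (Z : Om → κ) (F : Om → ι) (z : κ) (x : ι) : lw2 Q Z F z x = lw2 Q F Z x z := by
  unfold lw2
  exact Q.E_congr fun w _ => mul_comm _ _

theorem lw2_le (Z : Om → κ) (F : Om → ι) (z : κ) (x : ι) : lw2 Q Z F z x ≤ lw Q Z z := by
  unfold lw2 lw
  exact Q.E_mono fun w _ => mul_le_of_le_one_right (ind_nonneg _) (ind_le_one _)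

theorem sum_tv (Z : Om → κ) (F : Om → ι) : Q.E (fun u => ∑ x ∈ vals F, |Q.pv Z F u x - lw Q F x|) =
    ∑ z ∈ vals Z, ∑ x ∈ vals F, |lw2 Q Z F z x - lw Q Z z * lw Q F x| := by
  have e1 : Q.E (fun u => ∑ x ∈ vals F, |Q.pv Z F u x - lw Q F x|) =
      Q.E (fun u => (fun z => ∑ x ∈ vals F, |lw2 Q Z F z x / lw Q Z z - lw Q F x|) (Z u)) := rfl
  rw [e1, ← sum_lw Q Z (fun z => ∑ x ∈ vals F, |lw2 Q Z F z x / lw Q Z z - lw Q F x|)]
  refine Finset.sum_congr rfl fun z _ => ?_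
  rw [Finset.mul_sum]
  refine Finset.sum_congr rfl fun x _ => ?_
  have n0 := lw_nonneg Q Z z
  by_cases h0 : lw Q Z z = 0
  · have h2 : lw2 Q Z F z x = 0 := le_antisymm ((lw2_le Q Z F z x).trans h0.le) (lw2_nonneg Q Z F z x)
    rw [h0, h2]
    simp
  · have p0 : 0 < lw Q Z z := lt_of_le_of_ne n0 (Ne.symm h0)
    rw [← abs_of_pos p0, ← abs_mul, abs_of_pos p0, mul_sub, mul_div_cancel₀ _ h0]

/-- **the two mean distances** -/
theorem sum_tv2 (Z : Om → κ) (F : Om → ι) : Q.E (fun u => ∑ x ∈ vals F, |Q.pv Z F u x - lw Q F x|) =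
    Q.E (fun u => ∑ z ∈ vals Z, |Q.pv F Z u z - lw Q Z z|) := by
  rw [sum_tv, sum_tv, Finset.sum_comm]
  refine Finset.sum_congr rfl fun x _ => Finset.sum_congr rfl fun z _ => ?_
  rw [lw2_comm, mul_comm]

end tv

section tvc

variable {Om : Type*} [Fintype Om] {P : FP Om} {α β' ζ φ' : Type*} {Zb : Om → α} {ZZ : Om → β'} {zz : Om → ζ} {F : Om → φ'}

/-- **in one class** -/
theorem tv_cls (hZ : ∀ a b, ZZ a = ZZ b ↔ (Zb a = Zb b ∧ zz a = zz b)) {w : Om} (hw : P.p w ≠ 0) :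
    P.ce Zb (fun u => ∑ x ∈ vals F, |P.pv ZZ F u x - P.pv Zb F u x|) w =
    P.ce Zb (fun u => ∑ z ∈ vals zz, |lw (P.cond (fun a => (F a, Zb a) = (F u, Zb u))) zz z -
      lw (P.cond (fun a => Zb a = Zb u)) zz z|) w := by
  have hne : P.Pr (fun a => Zb a = Zb w) ≠ 0 := (P.m_pos Zb hw).ne'
  rw [P.ce_eq_cond _ _ hw, P.ce_eq_cond _ _ hw]
  have h1 : (P.cond (fun a => Zb a = Zb w)).E (fun u => ∑ x ∈ vals F, |P.pv ZZ F u x - P.pv Zb F u x|) =
      (P.cond (fun a => Zb a = Zb w)).E (fun u => ∑ x ∈ vals F, |(P.cond (fun a => Zb a = Zb w)).pv zz F u x -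
        lw (P.cond (fun a => Zb a = Zb w)) F x|) := by
    refine FP.E_congr _ fun u hu => ?_
    obtain ⟨u1, u2⟩ := cond_supp hne hu
    refine Finset.sum_congr rfl fun x _ => ?_
    have e1 : P.pv ZZ F u x = (P.cond (fun a => Zb a = Zb w)).pv zz F u x := by
      rw [SngM.pv_cond hne]
      unfold FP.pv FP.ce FP.m
      have e0 : ∀ a, (ZZ a = ZZ u) = (Zb a = Zb w ∧ zz a = zz u) := fun a => propext (by rw [hZ, u1])
      simp only [e0]
    have e2 : P.pv Zb F u x = lw (P.cond (fun a => Zb a = Zb w)) F x := by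
      unfold FP.pv
      rw [P.ce_eq_cond _ _ u2, u1]
      rfl
    rw [e1, e2]
  rw [h1, sum_tv2]
  refine FP.E_congr _ fun u hu => ?_
  obtain ⟨u1, u2⟩ := cond_supp hne hu
  refine Finset.sum_congr rfl fun z _ => ?_
  have e1 : (P.cond (fun a => Zb a = Zb w)).pv F zz u z = lw (P.cond (fun a => (F a, Zb a) = (F u, Zb u))) zz z := by
    have hne2 : P.Pr (fun a => (F a, Zb a) = (F u, Zb u)) ≠ 0 := (P.m_pos (fun a => (F a, Zb a)) u2).ne'
    rw [SngM.pv_cond hne]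
    unfold lw
    rw [FP.cond_E hne2]
    have e0 : ∀ a, ((F a, Zb a) = (F u, Zb u)) = (Zb a = Zb w ∧ F a = F u) := fun a => propext (by
      rw [Prod.mk.injEq, u1]
      exact and_comm)
    unfold FP.Pr
    simp only [e0]
  rw [e1, u1]

end tvc

/-! ### one class -/

open Pool.Agent.GMH.V3 Pool.Agent.GMH.TP Pool.Agent.GMH.KF Pool.Agent.GMH.TP.SngG

section cls

variable {X β γ φ : Type} [Fintype X] [Fintype β] [Fintype φ] [Nonempty X] [Nonempty β]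
variable {D : HD (Fin 3) X β γ φ} {al : ℝ} {h : D.Thick al} {v : ℕ → Finset (Fin 3) → X → (Fin 3 → β) → Pt (Fin 3) X β φ}
variable {t q e : ℕ} {i j k : Fin 3} {dg : ℕ → X → ℝ} {prr : ℕ → Fin 3 → φ → φ} {T : ℕ} {Lam : ℝ} {n N1 : ℝ}

/-- the surprise of the event and the surprise of the top with the thin labels -/
theorem LX_Te (hv : Codes D v) {N : Finset (Fin 3) → ℝ} {S : Finset (Finset (Fin 3))}
    (B : Bk h N S (Um v (t + 1)) t j i k) (he0 : 5 * t ≤ e) {w : Pt (Fin 3) X β φ} (hw : (D.P h t).p w ≠ 0) :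
    SngA.LX h (Um v (t + 1)) t (univ.erase i) w (Ew D v t e i w) ≤
      sp (D.P h t) (Te D v t e i) (Ce D v (5 * t) i) w := by
  have E3 := VH_eq (Ew_iff (i := i) hv he0 w)
  have x0 : 0 < (D.P h t).m (Ce D v (5 * t) i) w := (D.P h t).m_pos _ hw
  have t0 : 0 < (D.P h t).m (Te D v t e i) w := (D.P h t).m_pos _ hw
  have k1 : (D.P h t).m (Te D v t e i) w / (D.P h t).m (Ce D v (5 * t) i) w ≤
      (SngA.QX h (Um v (t + 1)) t (univ.erase i) w).Pr (Ew D v t e i w) := by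
    unfold SngA.QX FP.Pr
    rw [FP.cond_E (xc_ne hw)]
    have e1 : (D.P h t).Pr (xc D (Um v (t + 1)) t (univ.erase i) w) = (D.P h t).m (Ce D v (5 * t) i) w := by
      refine (D.P h t).E_congr fun u _ => ?_
      exact congrArg ind (propext Ce_0.symm)
    rw [e1]
    refine div_le_div_of_nonneg_right ?_ x0.le
    unfold FP.m
    refine (D.P h t).E_mono fun u _ => ?_
    rw [← ind_and]
    refine ind_mono fun hh => ?_
    have h1 : SngA.VH D (TP.nn e) univ w (Ew D v t e i w) u := by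
      rw [E3]
      exact hh
    exact ⟨h1.1.1.1, h1.1⟩
  have q0 := div_pos t0 x0
  have k2 := Real.log_le_log (one_div_pos.2 (q0.trans_le k1)) (one_div_le_one_div_of_le q0 k1)
  unfold SngA.LX
  refine k2.trans (le_of_eq ?_)
  rw [one_div_div, Real.log_div x0.ne' t0.ne']
  unfold sp
  rw [(D.P h t).m_congr (X := fun a => (Te D v t e i a, Ce D v (5 * t) i a)) (Y := Te D v t e i) (Fac.fst _ _)
    ((Fac.refl _).prod ((Te_Ce t e i).trans (Ce_old he0))) w]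

theorem er_c (i : Fin 3) : ∀ l, l ≠ i → l ∈ (univ.erase i : Finset (Fin 3)) := fun l hl => Finset.mem_erase.2 ⟨hl, mem_univ l⟩

/-- **THE MISSING LETTER WITH AND WITHOUT THE TOP**, one state -/
theorem l1_top (H : D.Hyp dg prr al T Lam) (hv : Codes D v) {N : Finset (Fin 3) → ℝ} {S : Finset (Finset (Fin 3))}
    (B : Bk h N S (Um v (t + 1)) t j i k) (ht : t < T) (hq : 5 * t ≤ q) (hq5 : q ≤ 5 * t + 5)
    {w : Pt (Fin 3) X β φ} (hw : (D.P h t).p w ≠ 0) {L : ℝ}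
    (hL : sp (D.P h t) (Te D v t q i) (Ce D v (5 * t) i) w ≤ L) :
    ∑ z ∈ vals (zf (φ := φ) (Um v (t + 1)) i),
      |lw ((D.P h t).cond (fun a => (FQ v t i a, ZbQ D v q i a) = (FQ v t i w, ZbQ D v q i w))) (zf (Um v (t + 1)) i) z -
        lw ((D.P h t).cond (fun a => ZbQ D v q i a = ZbQ D v q i w)) (zf (Um v (t + 1)) i) z| ≤
      4 * Real.sqrt (2 * SngA.kI N i L) := by
  have J2 := Ev_ix B q hw
  have J1 := Ew_ix B q hw
  have E2 := VH_eq (Ev_iff (i := i) hv hq w)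
  have E1 := VH_eq (Ew_iff (i := i) hv hq w)
  have l1 := (LX_Te hv B hq hw).trans hL
  have l2 := (J1.LX_mono (V' := Ev D v t q i w) fun u hu => hu.1).trans l1
  have c2 := cell_ge H B ht hq hq5 hw
  have hiI : i ∉ (univ.erase i : Finset (Fin 3)) := Finset.notMem_erase i univ
  rw [← E1, ← E2]
  set θ := (SngA.QX h (Um v (t + 1)) t (univ.erase i) w).Pr (SngA.HC D (TP.nn q) w) with hθ
  have p0 : 0 < θ := lt_of_lt_of_le (by norm_num) c2
  set R := SngA.QX h (Um v (t + 1)) t (univ.erase i) w with hR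
  have key : ∀ z ∈ vals (zf (φ := φ) (Um v (t + 1)) i),
      |lw ((D.P h t).cond (SngA.VH D (TP.nn q) univ w (Ew D v t q i w))) (zf (Um v (t + 1)) i) z -
        lw ((D.P h t).cond (SngA.VH D (TP.nn q) univ w (Ev D v t q i w))) (zf (Um v (t + 1)) i) z| ≤
      2 * |lw ((D.P h t).cond (Ew D v t q i w)) (zf (Um v (t + 1)) i) z - lw R (zf (Um v (t + 1)) i) z| +
      2 * |lw ((D.P h t).cond (Ev D v t q i w)) (zf (Um v (t + 1)) i) z - lw R (zf (Um v (t + 1)) i) z| := by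
    intro z _
    rw [SngA.lw_VH B J1 (er_c i) hiI (TP.nn q) z, SngA.lw_VH B J2 (er_c i) hiI (TP.nn q) z, ← hθ, ← sub_div, ← mul_sub,
      abs_div, abs_mul, abs_of_pos p0, div_le_iff₀ p0, abs_of_nonneg (ind_nonneg _)]
    have a1 := abs_sub_le (lw ((D.P h t).cond (Ew D v t q i w)) (zf (Um v (t + 1)) i) z) (lw R (zf (Um v (t + 1)) i) z)
      (lw ((D.P h t).cond (Ev D v t q i w)) (zf (Um v (t + 1)) i) z)
    rw [abs_sub_comm (lw R (zf (Um v (t + 1)) i) z)] at a1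
    have a2 := abs_nonneg (lw ((D.P h t).cond (Ew D v t q i w)) (zf (Um v (t + 1)) i) z - lw R (zf (Um v (t + 1)) i) z)
    have a3 := abs_nonneg (lw ((D.P h t).cond (Ev D v t q i w)) (zf (Um v (t + 1)) i) z - lw R (zf (Um v (t + 1)) i) z)
    have a4 := mul_le_mul_of_nonneg_right (ind_le_one (D.qb (TP.nn q) z.1 = D.qb (TP.nn q) (w.2.1 i)))
      (abs_nonneg (lw ((D.P h t).cond (Ew D v t q i w)) (zf (Um v (t + 1)) i) z -
        lw ((D.P h t).cond (Ev D v t q i w)) (zf (Um v (t + 1)) i) z))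
    nlinarith
  refine (Finset.sum_le_sum key).trans ?_
  rw [Finset.sum_add_distrib, ← Finset.mul_sum, ← Finset.mul_sum]
  have b1 := SngA.l1_0 B J1 hiI l1
  have b2 := SngA.l1_0 B J2 hiI l2
  linarith

/-- **FROM THE CLASS OF THE TOP AND THE THIN LABELS OF THE LATER STATE TO THE OLD CLASS** -/
theorem tr_cls (H : D.Hyp dg prr al T Lam) (hv : Codes D v) {N : Finset (Fin 3) → ℝ} {S : Finset (Finset (Fin 3))}
    (B : Bk h N S (Um v (t + 1)) t j i k) (ht : t < T) (hq : 5 * t ≤ q) (hqe : q ≤ e) (he : e ≤ 5 * t + 5)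
    {w : Pt (Fin 3) X β φ} (hw : (D.P h t).p w ≠ 0) {L : ℝ}
    (hL : sp (D.P h t) (Te D v t e i) (Ce D v (5 * t) i) w ≤ L) (G : β × List (Pt (Fin 3) X β φ) → Prop) :
    (D.P h t).ce (Te D v t e i) (fun u => ind (G (zf (Um v (t + 1)) i u))) w ≤
      2 * (D.P h t).ce (ZbQ D v q i) (fun u => ind (G (zf (Um v (t + 1)) i u))) w + 4 * Real.sqrt (2 * SngA.kI N i L) := by
  have he0 := hq.trans hqe
  have J2 := Ev_ix B q hw
  have J3 := Ew_ix B e hw
  have E2 := VH_eq (Ev_iff (i := i) hv hq w)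
  have E3 := VH_eq (Ew_iff (i := i) hv he0 w)
  have l3 := (LX_Te hv B he0 hw).trans hL
  have l2 := (J3.LX_mono (V' := Ev D v t q i w) fun u hu => ⟨hu.1.1, hE_mono hqe hu.1.2⟩).trans l3
  have c1 := cell_ge H B ht he0 he hw
  have c2 := cell_ge H B ht hq (hqe.trans he) hw
  have hiI : i ∉ (univ.erase i : Finset (Fin 3)) := Finset.notMem_erase i univ
  rw [(D.P h t).ce_eq_cond _ _ hw, (D.P h t).ce_eq_cond _ _ hw]
  have e3 : (fun a => Te D v t e i a = Te D v t e i w) = SngA.VH D (TP.nn e) univ w (Ew D v t e i w) := E3.symm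
  rw [e3, ← E2]
  set R := SngA.QX h (Um v (t + 1)) t (univ.erase i) w with hR
  set θ1 := R.Pr (SngA.HC D (TP.nn e) w) with hθ1
  set θ2 := R.Pr (SngA.HC D (TP.nn q) w) with hθ2
  have p1 : 0 < θ1 := lt_of_lt_of_le (by norm_num) c1
  have p2 : 0 < θ2 := lt_of_lt_of_le (by norm_num) c2
  have u2 : θ2 ≤ 1 := FP.Pr_le_one _ _
  have a1 := SngA.Pr_lw ((D.P h t).cond (SngA.VH D (TP.nn e) univ w (Ew D v t e i w))) (zf (Um v (t + 1)) i) G
  have a2 := SngA.Pr_lw ((D.P h t).cond (SngA.VH D (TP.nn q) univ w (Ev D v t q i w))) (zf (Um v (t + 1)) i) G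
  show ((D.P h t).cond (SngA.VH D (TP.nn e) univ w (Ew D v t e i w))).Pr (fun u => G (zf (Um v (t + 1)) i u)) ≤
    2 * ((D.P h t).cond (SngA.VH D (TP.nn q) univ w (Ev D v t q i w))).Pr (fun u => G (zf (Um v (t + 1)) i u)) + _
  rw [a1, a2]
  have key : ∀ z ∈ vals (zf (φ := φ) (Um v (t + 1)) i),
      ind (G z) * lw ((D.P h t).cond (SngA.VH D (TP.nn e) univ w (Ew D v t e i w))) (zf (Um v (t + 1)) i) z ≤
      2 * (ind (G z) * lw ((D.P h t).cond (SngA.VH D (TP.nn q) univ w (Ev D v t q i w))) (zf (Um v (t + 1)) i) z) +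
      (2 * |lw ((D.P h t).cond (Ew D v t e i w)) (zf (Um v (t + 1)) i) z - lw R (zf (Um v (t + 1)) i) z| +
      2 * |lw ((D.P h t).cond (Ev D v t q i w)) (zf (Um v (t + 1)) i) z - lw R (zf (Um v (t + 1)) i) z|) := by
    intro z _
    rw [SngA.lw_VH B J3 (er_c i) hiI (TP.nn e) z, SngA.lw_VH B J2 (er_c i) hiI (TP.nn q) z, ← hR, ← hθ1, ← hθ2]
    have n2 := lw_nonneg ((D.P h t).cond (Ev D v t q i w)) (zf (Um v (t + 1)) i) z
    have n3 := lw_nonneg ((D.P h t).cond (Ew D v t e i w)) (zf (Um v (t + 1)) i) z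
    have b1 := le_abs_self (lw ((D.P h t).cond (Ew D v t e i w)) (zf (Um v (t + 1)) i) z - lw R (zf (Um v (t + 1)) i) z)
    have b2 := neg_abs_le (lw ((D.P h t).cond (Ev D v t q i w)) (zf (Um v (t + 1)) i) z - lw R (zf (Um v (t + 1)) i) z)
    have b3 := abs_nonneg (lw ((D.P h t).cond (Ew D v t e i w)) (zf (Um v (t + 1)) i) z - lw R (zf (Um v (t + 1)) i) z)
    have b4 := abs_nonneg (lw ((D.P h t).cond (Ev D v t q i w)) (zf (Um v (t + 1)) i) z - lw R (zf (Um v (t + 1)) i) z)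
    by_cases hG : G z
    · rw [ind_of hG, one_mul, one_mul]
      by_cases hz : D.qb (TP.nn e) z.1 = D.qb (TP.nn e) (w.2.1 i)
      · rw [ind_of hz, ind_of (qb_mono D (TP.nn_mono hqe) hz), one_mul, one_mul]
        have d1 : lw ((D.P h t).cond (Ew D v t e i w)) (zf (Um v (t + 1)) i) z / θ1 ≤
            2 * lw ((D.P h t).cond (Ew D v t e i w)) (zf (Um v (t + 1)) i) z := by
          rw [div_le_iff₀ p1]
          nlinarith
        have d2 : lw ((D.P h t).cond (Ev D v t q i w)) (zf (Um v (t + 1)) i) z ≤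
            lw ((D.P h t).cond (Ev D v t q i w)) (zf (Um v (t + 1)) i) z / θ2 := by
          rw [le_div_iff₀ p2]
          exact mul_le_of_le_one_right n2 u2
        linarith
      · rw [ind_not hz, zero_mul, zero_div]
        have := div_nonneg (mul_nonneg (ind_nonneg (D.qb (TP.nn q) z.1 = D.qb (TP.nn q) (w.2.1 i))) n2) p2.le
        linarith
    · rw [ind_not hG, zero_mul, zero_mul]
      linarith
  refine (Finset.sum_le_sum key).trans ?_
  rw [Finset.sum_add_distrib, Finset.sum_add_distrib, ← Finset.mul_sum, ← Finset.mul_sum, ← Finset.mul_sum]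
  have f1 := SngA.l1_0 B J3 hiI l3
  have f2 := SngA.l1_0 B J2 hiI l2
  linarith

theorem ZQ_zf (hc : nc q {i} = t + 1) (a b : Pt (Fin 3) X β φ) : ZQ D v q a = ZQ D v q b ↔
    (ZbQ D v q i a = ZbQ D v q i b ∧ zf (Um v (t + 1)) i a = zf (Um v (t + 1)) i b) := by
  rw [ZQ_iff (i := i), hc]
  refine and_congr_right fun _ => ?_
  unfold zf
  exact pair_iff.symm

/-- the density of the top against its own law = the quotient of the masses of the missing letter -/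
theorem rat_zf (hc : nc q {i} = t + 1) {w u : Pt (Fin 3) X β φ} (hw : (D.P h t).p w ≠ 0) (hF : FQ v t i u = FQ v t i w)
    (hu : ZbQ D v q i u = ZbQ D v q i w) :
    mF (D.P h t) (ZQ D v q) (FQ v t) i u (FQ v t i u) / qF (D.P h t) (ZbQ D v q) (FQ v t) i u (FQ v t i u) =
    lw ((D.P h t).cond (fun a => (FQ v t i a, ZbQ D v q i a) = (FQ v t i w, ZbQ D v q i w))) (zf (Um v (t + 1)) i)
        (zf (Um v (t + 1)) i u) /
      lw ((D.P h t).cond (fun a => ZbQ D v q i a = ZbQ D v q i w)) (zf (Um v (t + 1)) i) (zf (Um v (t + 1)) i u) := by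
  have e1 : lw ((D.P h t).cond (fun a => (FQ v t i a, ZbQ D v q i a) = (FQ v t i w, ZbQ D v q i w))) (zf (Um v (t + 1)) i)
      (zf (Um v (t + 1)) i u) = (D.P h t).m (fun a => (zf (Um v (t + 1)) i a, (FQ v t i a, ZbQ D v q i a))) u /
        (D.P h t).m (fun a => (FQ v t i a, ZbQ D v q i a)) w :=
    FP.cond_m_fibre (D.P h t) (zf (Um v (t + 1)) i) (fun a => (FQ v t i a, ZbQ D v q i a)) hw (Prod.ext hF hu)
  have e2 : lw ((D.P h t).cond (fun a => ZbQ D v q i a = ZbQ D v q i w)) (zf (Um v (t + 1)) i) (zf (Um v (t + 1)) i u) =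
      (D.P h t).m (fun a => (zf (Um v (t + 1)) i a, ZbQ D v q i a)) u / (D.P h t).m (ZbQ D v q i) w :=
    FP.cond_m_fibre (D.P h t) (zf (Um v (t + 1)) i) (ZbQ D v q i) hw hu
  have e3 : mF (D.P h t) (ZQ D v q) (FQ v t) i u (FQ v t i u) =
      (D.P h t).m (fun a => (zf (Um v (t + 1)) i a, (FQ v t i a, ZbQ D v q i a))) u /
        (D.P h t).m (fun a => (zf (Um v (t + 1)) i a, ZbQ D v q i a)) u := by
    unfold mF
    rw [FP.pv_self]
    congr 1
    · refine FP.m_congr _ (fun a b hab => ?_) (fun a b hab => ?_) u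
      · obtain ⟨h1, h2⟩ := pair_iff.1 hab
        obtain ⟨h3, h4⟩ := (ZQ_zf hc a b).1 h2
        exact pair_iff.2 ⟨h4, pair_iff.2 ⟨h1, h3⟩⟩
      · obtain ⟨h1, h2⟩ := pair_iff.1 hab
        obtain ⟨h3, h4⟩ := pair_iff.1 h2
        exact pair_iff.2 ⟨h3, (ZQ_zf hc a b).2 ⟨h4, h1⟩⟩
    · refine FP.m_congr _ (fun a b hab => ?_) (fun a b hab => ?_) u
      · obtain ⟨h3, h4⟩ := (ZQ_zf hc a b).1 hab
        exact pair_iff.2 ⟨h4, h3⟩
      · obtain ⟨h1, h2⟩ := pair_iff.1 hab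
        exact (ZQ_zf hc a b).2 ⟨h2, h1⟩
  have e4 : qF (D.P h t) (ZbQ D v q) (FQ v t) i u (FQ v t i u) =
      (D.P h t).m (fun a => (FQ v t i a, ZbQ D v q i a)) w / (D.P h t).m (ZbQ D v q i) w := by
    unfold qF
    rw [FP.pv_self, FP.Fac_m _ _ u w hu]
    congr 1
    exact FP.Fac_m _ (fun a => (FQ v t i a, ZbQ D v q i a)) u w (Prod.ext hF hu)
  rw [e1, e2, e3, e4, div_div_div_comm]

theorem ce_on {Om ι : Type*} [Fintype Om] {P : FP Om} {Y : Om → ι} {f g : Om → ℝ} {w : Om} (hw : P.p w ≠ 0)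
    (hh : ∀ u, P.p u ≠ 0 → Y u = Y w → f u ≤ g u) : P.ce Y f w ≤ P.ce Y g w := by
  have hne : P.Pr (fun a => Y a = Y w) ≠ 0 := (P.m_pos Y hw).ne'
  rw [P.ce_eq_cond _ _ hw, P.ce_eq_cond _ _ hw]
  refine FP.E_mono _ fun u hu => ?_
  obtain ⟨u1, u2⟩ := cond_supp hne hu
  exact hh u u2 u1

/-- **A BAD SINGLE IN ONE CLASS** -/
theorem bad_cls (H : D.Hyp dg prr al T Lam) (hv : Codes D v) {N : Finset (Fin 3) → ℝ} {S : Finset (Finset (Fin 3))}
    (B : Bk h N S (Um v (t + 1)) t j i k) (ht : t < T) (hq : 5 * t ≤ q) (hq5 : q < 5 * t + 5) (hqe : q ≤ e)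
    (he : e ≤ 5 * t + 5) {w : Pt (Fin 3) X β φ} (hw : (D.P h t).p w ≠ 0) {c : KC} (hF : 0 < c.eF) (hS : 0 < c.eS)
    (hS1 : c.eS ≤ 1) {Lo Ln : ℝ} (hLo : ∀ u, (D.P h t).p u ≠ 0 → ZbQ D v q i u = ZbQ D v q i w →
      sp (D.P h t) (Te D v t q i) (Ce D v (5 * t) i) u ≤ Lo)
    (hLn : sp (D.P h t) (Te D v t e i) (Ce D v (5 * t) i) w ≤ Ln) :
    (D.P h t).ce (Te D v t e i) (fun u => ind (sL (D.P h t) (ZQ D v q) (ZbQ D v q) (FQ v t) c i u (tup (FQ v t) u))) w ≤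
      2 * ((2 + 4 / c.eS + 1 / (2 * c.eF)) * (4 * Real.sqrt (2 * SngA.kI N i Lo))) +
        4 * Real.sqrt (2 * SngA.kI N i Ln) := by
  classical
  have hc := nc_lt hq hq5 i
  set δ := 4 * Real.sqrt (2 * SngA.kI N i Lo) with hδ
  have hδ0 : 0 ≤ δ := by positivity
  set m1 : β × List (Pt (Fin 3) X β φ) → ℝ :=
    lw ((D.P h t).cond (fun a => (FQ v t i a, ZbQ D v q i a) = (FQ v t i w, ZbQ D v q i w))) (zf (Um v (t + 1)) i) with hm1
  set m2 : β × List (Pt (Fin 3) X β φ) → ℝ :=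
    lw ((D.P h t).cond (fun a => ZbQ D v q i a = ZbQ D v q i w)) (zf (Um v (t + 1)) i) with hm2
  set G1 : β × List (Pt (Fin 3) X β φ) → Prop := fun z => ∃ a, ZbQ D v q i a = ZbQ D v q i w ∧
    zf (Um v (t + 1)) i a = z ∧ 2 * c.eF ≤ tv1n (D.P h t) (ZQ D v q) (ZbQ D v q) (FQ v t) i a with hG1
  set G2 : β × List (Pt (Fin 3) X β φ) → Prop := fun z => c.eS ≤ |Real.log (m1 z / m2 z)| with hG2
  have hfac := tv1n_fac (D.P h t) (FQ v t) (Z := ZQ D v q) (Zb := ZbQ D v q) (fun i => ZQ_Zb q i) i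
  -- the event is a property of the missing letter
  have s1 : (D.P h t).ce (Te D v t e i) (fun u => ind (sL (D.P h t) (ZQ D v q) (ZbQ D v q) (FQ v t) c i u
      (tup (FQ v t) u))) w ≤ (D.P h t).ce (Te D v t e i) (fun u => ind (G1 (zf (Um v (t + 1)) i u) ∨
        G2 (zf (Um v (t + 1)) i u))) w := by
    refine ce_on hw fun u _ hu => ind_mono fun hh => ?_
    have u1 : FQ v t i u = FQ v t i w := congrArg Prod.fst hu
    have u2 : ZbQ D v e i u = ZbQ D v e i w := congrArg Prod.snd hu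
    have u3 : ZbQ D v q i u = ZbQ D v q i w := ZbQ_mono hqe i u w u2
    rcases hh with hh | hh
    · exact Or.inl ⟨u, u3, rfl, hh⟩
    · refine Or.inr ?_
      have h1 : c.eS ≤ |Real.log (mF (D.P h t) (ZQ D v q) (FQ v t) i u (FQ v t i u) /
        qF (D.P h t) (ZbQ D v q) (FQ v t) i u (FQ v t i u))| := hh
      rw [rat_zf hc hw u1 u3] at h1
      exact h1
  have s2 := tr_cls H hv B ht hq hqe he hw hLn (fun z => G1 z ∨ G2 z)
  -- the old class
  have s3 : (D.P h t).ce (ZbQ D v q i) (fun u => ind (G1 (zf (Um v (t + 1)) i u) ∨ G2 (zf (Um v (t + 1)) i u))) w ≤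
      1 / (2 * c.eF) * δ + (2 + 4 / c.eS) * δ := by
    have t1 : (D.P h t).ce (ZbQ D v q i) (fun u => ind (G1 (zf (Um v (t + 1)) i u) ∨ G2 (zf (Um v (t + 1)) i u))) w ≤
        (D.P h t).ce (ZbQ D v q i) (fun u => 1 / (2 * c.eF) * tv1n (D.P h t) (ZQ D v q) (ZbQ D v q) (FQ v t) i u) w +
        (D.P h t).ce (ZbQ D v q i) (fun u => ind (G2 (zf (Um v (t + 1)) i u))) w := by
      rw [← FP.ce_add]
      refine ce_on hw fun u _ hu => (ind_or_le _ _).trans (add_le_add ?_ le_rfl)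
      have n0 : 0 ≤ tv1n (D.P h t) (ZQ D v q) (ZbQ D v q) (FQ v t) i u := Finset.sum_nonneg fun _ _ => abs_nonneg _
      by_cases hg : G1 (zf (Um v (t + 1)) i u)
      · rw [ind_of hg]
        obtain ⟨a, a1, a2, a3⟩ := hg
        have a4 : ZQ D v q a = ZQ D v q u := (ZQ_zf hc a u).2 ⟨a1.trans hu.symm, a2⟩
        have a5 : tv1n (D.P h t) (ZQ D v q) (ZbQ D v q) (FQ v t) i a =
          tv1n (D.P h t) (ZQ D v q) (ZbQ D v q) (FQ v t) i u := hfac a u a4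
        rw [a5] at a3
        rw [one_div, inv_mul_eq_div, le_div_iff₀ (by positivity)]
        linarith
      · rw [ind_not hg]
        positivity
    refine t1.trans (add_le_add ?_ ?_)
    · rw [FP.ce_smul]
      refine mul_le_mul_of_nonneg_left ?_ (by positivity)
      have e1 : (D.P h t).ce (ZbQ D v q i) (fun u => tv1n (D.P h t) (ZQ D v q) (ZbQ D v q) (FQ v t) i u) w =
          (D.P h t).ce (ZbQ D v q i) (fun u => ∑ z ∈ vals (zf (φ := φ) (Um v (t + 1)) i),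
            |lw ((D.P h t).cond (fun a => (FQ v t i a, ZbQ D v q i a) = (FQ v t i u, ZbQ D v q i u)))
              (zf (Um v (t + 1)) i) z -
            lw ((D.P h t).cond (fun a => ZbQ D v q i a = ZbQ D v q i u)) (zf (Um v (t + 1)) i) z|) w :=
        tv_cls (F := FQ v t i) (ZQ_zf hc) hw
      rw [e1]
      refine (ce_on hw (g := fun _ => δ) fun u hu1 hu => ?_).trans (le_of_eq ((D.P h t).ce_const _ _ hw))
      exact l1_top H hv B ht hq hq5.le hu1 (hLo u hu1 hu)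
    · rw [(D.P h t).ce_eq_cond _ _ hw]
      have a1 := SngA.Pr_lw ((D.P h t).cond (fun a => ZbQ D v q i a = ZbQ D v q i w)) (zf (Um v (t + 1)) i) G2
      show ((D.P h t).cond (fun a => ZbQ D v q i a = ZbQ D v q i w)).Pr (fun u => G2 (zf (Um v (t + 1)) i u)) ≤ _
      rw [a1]
      have b1 := l1_top H hv B ht hq hq5.le hw (hLo w hw rfl)
      refine SngA.three_S (vals (zf (Um v (t + 1)) i)) (r1 := m1) (r2 := m2) (r3 := m2) (R := m2)
        (fun z => lw_nonneg _ _ _) (fun z => lw_nonneg _ _ _) hS hS1 b1 ?_ ?_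
      · simpa using hδ0
      · simpa using hδ0
  have e0 : 2 * ((2 + 4 / c.eS + 1 / (2 * c.eF)) * δ) = 2 * (1 / (2 * c.eF) * δ + (2 + 4 / c.eS) * δ) := by ring
  rw [e0]
  linarith

/-- **A BAD SINGLE IN A RUN** -/
theorem bad_run (hn : 1 ≤ n) (hN1 : 1 ≤ N1) (H : D.Hyp dg prr al T Lam)
    (R : Run h (pr3 (Fin 3) n N1) (SS1 (Fin 3)) (AdmDep D) v) (ht : t < T) (hq : 5 * t ≤ q) (hq5 : q < 5 * t + 5)
    (hqe : q ≤ e) (he : e ≤ 5 * t + 5) (i : Fin 3) {X1 Lo Ln : ℝ} {A : Pt (Fin 3) X β φ → Prop} (hA : Fac (Te D v t e i) A)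
    (a1 : ∀ w, (D.P h t).p w ≠ 0 → A w → alP h v X1 e i w) (a2 : ∀ w, (D.P h t).p w ≠ 0 → A w → alP h v X1 q i w)
    (b1 : ∀ w, (D.P h t).p w ≠ 0 → A w → sp (D.P h t) (NPq D v e) (NPq D v (5 * t)) w ≤ Ln)
    (b2 : ∀ w, (D.P h t).p w ≠ 0 → A w → sp (D.P h t) (NPq D v q) (NPq D v (5 * t)) w ≤ Lo)
    {c : KC} (hF : 0 < c.eF) (hS : 0 < c.eS) (hS1 : c.eS ≤ 1) :
    (D.P h t).Pr (fun w => A w ∧ sL (D.P h t) (ZQ D v q) (ZbQ D v q) (FQ v t) c i w (tup (FQ v t) w)) ≤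
      (64 * (2 + 4 / c.eS + 1 / (2 * c.eF)) * Real.sqrt ((Lo + X1 + Lam + 1) / N1) +
        32 * Real.sqrt ((Ln + X1 + Lam + 1) / N1)) * (D.P h t).Pr A := by
  classical
  obtain ⟨j, k, bc, bd, cd⟩ : ∃ j k, j ≠ i ∧ j ≠ k ∧ i ≠ k := by
    have key : ∀ i : Fin 3, ∃ j k, j ≠ i ∧ j ≠ k ∧ i ≠ k := by decide
    exact key i
  have Bt := TriB.Bk_run hn hN1 R bc bd cd t
  set ρ := 64 * (2 + 4 / c.eS + 1 / (2 * c.eF)) * Real.sqrt ((Lo + X1 + Lam + 1) / N1) +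
        32 * Real.sqrt ((Ln + X1 + Lam + 1) / N1) with hρ
  have hρ0 : 0 ≤ ρ := by positivity
  set Tb : Pt (Fin 3) X β φ → Prop := fun w =>
    sL (D.P h t) (ZQ D v q) (ZbQ D v q) (FQ v t) c i w (tup (FQ v t) w) with hTb
  have e1 : (D.P h t).Pr (fun w => A w ∧ Tb w) =
      (D.P h t).E (fun w => ind (A w) * (D.P h t).ce (Te D v t e i) (fun u => ind (Tb u)) w) := by
    rw [FP.E_mul_ce _ (h := fun w => ind (A w)) (Fac.ind fun a b hab => by
      rw [show A a = A b from hA a b hab])]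
    exact (D.P h t).E_congr fun w _ => ind_and _ _
  have e3 : ρ * (D.P h t).Pr A = (D.P h t).E (fun w => ρ * ind (A w)) := by
    unfold FP.Pr
    rw [FP.E_smul]
  show (D.P h t).Pr (fun w => A w ∧ Tb w) ≤ _
  rw [e1, e3]
  refine (D.P h t).E_mono fun w hw => ?_
  by_cases ha : A w
  swap
  · rw [ind_not ha, zero_mul, mul_zero]
  rw [ind_of ha, one_mul, mul_one]
  have hX1 : 0 ≤ X1 := by
    refine le_trans ?_ (a1 w hw ha j k bc cd.symm bd)
    rw [← sp_Zb h bc bd cd t e w]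
    exact sp_nonneg (D.P h t) _ _ hw
  have hl2 : Real.log 2 ≤ 1 := by
    have := Real.log_le_sub_one_of_pos (show (0 : ℝ) < 2 by norm_num)
    linarith
  have hLam := H.Lam1
  have hN0 : 0 < N1 := by linarith
  have key : ∀ L : ℝ, 0 ≤ L → Real.sqrt (2 * SngA.kI (pr3 (Fin 3) n N1) i (L + Real.log 2 + (X1 + Lam))) ≤
      8 * Real.sqrt ((L + X1 + Lam + 1) / N1) := by
    intro L hL0
    unfold SngA.kI
    rw [pr3_e, pr3_s]
    have h1 : 2 * (2 * 1 * (L + Real.log 2 + (X1 + Lam) + 1) / N1) ≤ 8 ^ 2 * ((L + X1 + Lam + 1) / N1) := by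
      rw [mul_div_assoc', mul_div_assoc', div_le_div_iff_of_pos_right hN0]
      nlinarith
    have h2 := Real.sqrt_le_sqrt h1
    have h3 : Real.sqrt (8 ^ 2 * ((L + X1 + Lam + 1) / N1)) = 8 * Real.sqrt ((L + X1 + Lam + 1) / N1) := by
      rw [Real.sqrt_mul (by norm_num), Real.sqrt_sq (by norm_num)]
    rwa [h3] at h2
  have hLo0 : 0 ≤ Lo := (sp_nonneg (D.P h t) _ _ hw).trans (b2 w hw ha)
  have hLn0 : 0 ≤ Ln := (sp_nonneg (D.P h t) _ _ hw).trans (b1 w hw ha)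
  have k1 := bad_cls H R.codes Bt ht hq hq5 hqe he hw hF hS hS1 (Lo := Lo + Real.log 2 + (X1 + Lam))
    (Ln := Ln + Real.log 2 + (X1 + Lam)) (fun u hu hz => by
      refine sp_T0 hn hN1 H R ht hq hq5.le bc bd cd hu ?_ ?_
      · have := a2 w hw ha j k bc cd.symm bd
        rwa [← Zb_sp h v q bc cd.symm u w hz] at this
      · have h1 := b2 w hw ha
        rw [sp_NPq t hq] at h1 ⊢
        have h2 := Zb_NPq (φ := φ) (D := D) (v := v) q i u w hz
        have h3 := NPq_mono (φ := φ) (D := D) (v := v) hq u w h2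
        rwa [FP.Fac_m _ _ u w h2, FP.Fac_m _ _ u w h3])
    (sp_T0 hn hN1 H R ht (hq.trans hqe) he bc bd cd hw (a1 w hw ha j k bc cd.symm bd) (b1 w hw ha))
  refine k1.trans ?_
  have k2 := key Lo hLo0
  have k3 := key Ln hLn0
  have n1 : 0 ≤ 2 + 4 / c.eS + 1 / (2 * c.eF) := by positivity
  have k4 := mul_le_mul_of_nonneg_left k2 n1
  rw [hρ]
  nlinarith

/-! ### the cheap steps -/

variable (h v) in
/-- the top `i` is active in the step -/
def acX (e : ℝ) (s : Fin 6) (t : ℕ) (i : Fin 3) (w : Pt (Fin 3) X β φ) : Prop := e < |rS h v s t i w (FQ v t i w) - 1|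

variable (h v) in
/-- the single of the top `i` is bad at the old state of the step -/
def bsX (c : KC) (s : Fin 6) (t : ℕ) (i : Fin 3) (w : Pt (Fin 3) X β φ) : Prop :=
  sL (D.P h t) (ZQ D v (qs s t)) (ZbQ D v (qs s t)) (FQ v t) c i w (tup (FQ v t) w)

theorem acX_fac (e : ℝ) (s : Fin 6) (t : ℕ) (i : Fin 3) :
    Fac (fun w => (FQ v t i w, ZbQ D v (qe s t) i w)) (acX h v e s t i) := by
  intro a b hab
  have f1 : FQ v t i a = FQ v t i b := congrArg Prod.fst hab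
  have f2 : ZbQ D v (qe s t) i a = ZbQ D v (qe s t) i b := congrArg Prod.snd hab
  have f3 : ZbQ D v (qs s t) i a = ZbQ D v (qs s t) i b := ZbQ_mono (qs_le_qe _ _) i _ _ f2
  show (e < |rS h v s t i a (FQ v t i a) - 1|) = (e < |rS h v s t i b (FQ v t i b) - 1|)
  have e : rS h v s t i a (FQ v t i a) = rS h v s t i b (FQ v t i b) := by
    unfold rS
    rw [f1, f2]
    exact rr_fac (D.P h t) (ZbQ D v (qs s t) i) (FQ v t i) (ZbQ D v (qe s t) i) _ _ _ _ f3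
  rw [e]

/-- the bound of one class -/
def rhB (c : KC) (Lam N1 dl X1 L : ℝ) : ℝ :=
  64 * (2 + 4 / c.eS + 1 / (2 * c.eF)) * Real.sqrt ((Real.log 2 + Real.log (1 / dl) + X1 + Lam + 1) / N1) +
    32 * Real.sqrt ((L + Real.log (1 / dl) + X1 + Lam + 1) / N1)

/-- **ONE STEP** -/
theorem one_bad (hn : 1 ≤ n) (hN1 : 1 ≤ N1) (H : D.Hyp dg prr al T Lam)
    (R : Run h (pr3 (Fin 3) n N1) (SS1 (Fin 3)) (AdmDep D) v) {p : AP} (hdl : 0 < p.dl) (hdl1 : p.dl ≤ 1) {L : ℝ}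
    (hL : Real.log 2 ≤ L) (ht : t < T) {s : Fin 6} (hs : st4 s) {i : Fin 3} {c : KC} (hF : 0 < c.eF) (hS : 0 < c.eS)
    (hS1 : c.eS ≤ 1) (e : ℝ) :
    (D.P h t).Pr (fun w => aT h v p L s t w ∧ (acX h v e s t i w ∧ bsX h v c s t i w)) ≤
      rhB c Lam N1 p.dl p.X1 L * (D.P h t).Pr (acX h v e s t i) := by
  have q1 : 5 * t ≤ qs s t := by fin_cases s <;> simp [qs] <;> omega
  have q2 : qs s t < qe s t := by fin_cases s <;> simp [qs, qe] <;> omega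
  have q3 : qe s t ≤ 5 * t + 5 := by fin_cases s <;> simp [qe] <;> omega
  have q4 : 5 * t + 1 ≤ qe s t := by fin_cases s <;> simp [qe] <;> omega
  have key := bad_run (h := h) (v := v) hn hN1 H R ht q1 (q2.trans_le q3) q2.le q3 i (X1 := p.X1)
    (Lo := Real.log 2 + Real.log (1 / p.dl)) (Ln := L + Real.log (1 / p.dl))
    (A := fun w => (alP h v p.X1 (qe s t) i w ∧ alP h v p.X1 (qs s t) i w ∧ dgd h v p.dl t w ∧ chT h v L s t w) ∧
      acX h v e s t i w)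
    (fun a b hab => by
      have hZ : ZbQ D v (qe s t) i a = ZbQ D v (qe s t) i b := congrArg Prod.snd hab
      have hZ' : ZbQ D v (qs s t) i a = ZbQ D v (qs s t) i b := ZbQ_mono (qs_le_qe _ _) i _ _ hZ
      have hN := Zb_NPq (φ := φ) (D := D) (v := v) (qe s t) i a b hZ
      have e1 := alP_fac h v p.X1 (qe s t) i a b hZ
      have e1' := alP_fac h v p.X1 (qs s t) i a b hZ'
      have e2 := dgd_fac h v p.dl t a b (NPq_mono q4 a b hN)
      have e3 := chT_fac (h := h) hs L t a b hN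
      have e5 := acX_fac (h := h) e s t i a b hab
      show ((_ ∧ _ ∧ _ ∧ _) ∧ _) = ((_ ∧ _ ∧ _ ∧ _) ∧ _)
      rw [e1, e1', e2, e3, e5])
    (fun w _ hw => hw.1.1) (fun w _ hw => hw.1.2.1) (fun w hp hw => sp_new hs hp hL hdl hw.1.2.2.1 hw.1.2.2.2)
    (fun w hp hw => sp_old hs hp hdl hdl1 hw.1.2.2.1 hw.1.2.2.2) hF hS hS1
  have hρ0 : 0 ≤ rhB c Lam N1 p.dl p.X1 L := by
    unfold rhB
    positivity
  refine le_trans ((D.P h t).Pr_mono fun w _ hh => ?_) (key.trans (mul_le_mul_of_nonneg_left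
    ((D.P h t).Pr_mono fun w _ hh => hh.2) hρ0))
  obtain ⟨⟨g1, g2, g3, g4⟩, g5, g6⟩ := hh
  exact ⟨⟨⟨alP_of h v g2 i, alP_of h v g1 i, g3, g4⟩, g5⟩, g6⟩

/-- **ALL TIMES** -/
theorem sum_bad (hn : 1 ≤ n) (hN1 : 1 ≤ N1) (H : D.Hyp dg prr al T Lam)
    (R : Run h (pr3 (Fin 3) n N1) (SS1 (Fin 3)) (AdmDep D) v) {p : AP} (hdl : 0 < p.dl) (hdl1 : p.dl ≤ 1) {L : ℝ}
    (hL : Real.log 2 ≤ L) (i : Fin 3) {c : KC} (hF : 0 < c.eF) (hS : 0 < c.eS) (hS1 : c.eS ≤ 1) {e : ℝ} (he : 0 < e)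
    (he1 : e ≤ 1) :
    ∑ t ∈ range T, ∑ s, (D.P h t).Pr (fun w => st4 s ∧ aT h v p L s t w ∧ (acX h v e s t i w ∧ bsX h v c s t i w)) ≤
      rhB c Lam N1 p.dl p.X1 L * (240 * Lam / e ^ 2) := by
  have hρ0 : 0 ≤ rhB c Lam N1 p.dl p.X1 L := by
    unfold rhB
    positivity
  have h1 := ga_real h H R hn hN1 i he he1 (aw := fun _ _ _ => 1) (fun _ _ _ => le_rfl)
  have h2 : ∀ t ∈ range T, ∀ s : Fin 6, (D.P h t).Pr (fun w => st4 s ∧ aT h v p L s t w ∧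
      (acX h v e s t i w ∧ bsX h v c s t i w)) ≤ rhB c Lam N1 p.dl p.X1 L *
      (D.P h t).E (fun w => 1 * ind (e < |rS h v s t i w (FQ v t i w) - 1|)) := by
    intro t ht s
    by_cases hs : st4 s
    · have h3 := one_bad hn hN1 H R hdl hdl1 hL (Finset.mem_range.1 ht) hs (i := i) hF hS hS1 e
      refine le_trans ((D.P h t).Pr_mono fun w _ hh => hh.2) (h3.trans (mul_le_mul_of_nonneg_left ?_ hρ0))
      refine (D.P h t).E_mono fun w _ => ?_
      rw [one_mul]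
      exact le_rfl
    · refine le_trans (le_of_eq ?_) (mul_nonneg hρ0 ((D.P h t).E_nonneg fun w _ => ?_))
      · unfold FP.Pr
        have e0 : (fun w => ind (st4 s ∧ aT h v p L s t w ∧ (acX h v e s t i w ∧ bsX h v c s t i w))) =
            fun _ => (0 : ℝ) := funext fun w => ind_not fun hh => hs hh.1
        rw [e0]
        unfold FP.E
        simp
      · rw [one_mul]
        exact ind_nonneg _
  have h5 := Finset.sum_le_sum fun t ht => Finset.sum_le_sum fun s (_ : s ∈ (univ : Finset (Fin 6))) => h2 t ht s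
  simp only [← Finset.mul_sum] at h5
  exact h5.trans (mul_le_mul_of_nonneg_left h1 hρ0)

end cls

/-! ### numbers -/

open Pool.Agent.GMH.CTM Pool.Agent.GMH.CX Pool.Agent.GMH.TRF Pool.Agent.GMH.TD Pool.Agent.GMH.Dy Pool.Agent.GMH.MV
open Pool.Agent.GMH.MVI

theorem ix_two {Lam : ℝ} (hL : 2 ≤ Lam) (K : ℕ) : CT.ix Lam (K + 1) + CT.ix Lam (K + 1) ≤ CT.ix Lam K := by
  rw [CT.ix_add]
  have h1 : CT.ix Lam 1 ≤ 1 / 2 := by
    unfold CT.ix
    rw [CT.pw_one', one_div]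
    exact inv_anti₀ (by norm_num) (by linarith)
  have h2 := CT.ix_pos hL K
  nlinarith

theorem g3a_num {A : ℕ} (hA : 80 ≤ A) (K k : ℕ) : CTM.Ev (fun c0 Lam => ∀ L0 e : ℝ, ∀ c : KC,
    L0 ≤ pw Lam (c1F A c0) * CT.ix Lam (2 * K + 4 * k + 60) → CT.ix Lam k ≤ e → CT.ix Lam k ≤ c.eS →
    CT.ix Lam (2 * c0 + k) ≤ c.eF →
    rhB c Lam (pw Lam (c1F A c0)) (apF Lam A c0).dl (apF Lam A c0).X1 L0 * (240 * Lam / e ^ 2) ≤ CT.ix Lam K) := by
  refine (CTM.Ev.ge (K + 3 * k + 10)).mono fun c0 Lam hL hc L0 e c hL0 he hS hF => ?_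
  have hx : (4 : ℝ) ≤ 2 * Lam := by linarith
  have hx0 : (0 : ℝ) < 2 * Lam := by linarith
  have hLam : (0 : ℝ) < Lam := by linarith
  have h1 := c1_big (c0 := c0) hA
  have pz : ∀ c : ℕ, pw Lam c = (2 * Lam) ^ (c : ℤ) := fun c => by unfold pw; rw [zpow_natCast]
  have ipz : ∀ c : ℕ, (pw Lam c)⁻¹ = (2 * Lam) ^ (-(c : ℤ)) := fun c => by rw [pz, zpow_neg]
  have izp : ∀ c : ℕ, CT.ix Lam c = (2 * Lam) ^ (-(c : ℤ)) := ipz
  have hX1 : (apF Lam A c0).X1 = 3 * pw Lam (cXF A c0) := rfl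
  have hde : (apF Lam A c0).dl = (pw Lam (4 * c1F A c0))⁻¹ := rfl
  have hcX : cXF A c0 = 3 * c0 + 3 * A := rfl
  unfold rhB
  rw [hX1, hde]
  have ie0 := CT.ix_pos hL k
  have e0 : 0 < e := ie0.trans_le he
  have eS0 : 0 < c.eS := ie0.trans_le hS
  have eF0 : 0 < c.eF := (CT.ix_pos hL _).trans_le hF
  -- inverses
  have inv_le : ∀ (m : ℕ) (y : ℝ), CT.ix Lam m ≤ y → 1 / y ≤ (2 * Lam) ^ (m : ℤ) := by
    intro m y hy
    have y0 : 0 < y := (CT.ix_pos hL m).trans_le hy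
    rw [div_le_iff₀ y0]
    have h2 := mul_le_mul_of_nonneg_left hy (zpow_pos hx0 (m : ℤ)).le
    rw [izp, ← zpow_add₀ hx0.ne', add_neg_cancel, zpow_zero] at h2
    exact h2
  -- the terms
  have t2 : Real.log 2 ≤ (2 * Lam) ^ (0 : ℤ) := by
    rw [zpow_zero]
    have := Real.log_le_sub_one_of_pos (show (0 : ℝ) < 2 by norm_num)
    linarith
  have a1 : L0 ≤ (2 * Lam) ^ ((c1F A c0 : ℤ) - 2 * K - 4 * k - 60) := by
    refine hL0.trans (le_of_eq ?_)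
    rw [izp, pz, ← zpow_add₀ hx0.ne']
    congr 1
    push_cast
    ring
  have a2 : Real.log (1 / (pw Lam (4 * c1F A c0))⁻¹) ≤ (2 * Lam) ^ ((c1F A c0 : ℤ) / 2 + 3) := by
    rw [one_div, inv_inv]
    unfold pw
    rw [Real.log_pow]
    have q3 := Fn.nat hx (c1F A c0)
    have q4 : (4 : ℝ) * ((c1F A c0 : ℝ) * (2 * Lam)) ≤ (2 * Lam) ^ ((1 : ℤ) + (((c1F A c0 : ℤ) / 2 + 1) + 1)) := by
      refine Fn.mul2 hx (by positivity) (by simpa using Fn.cst hx 1 (c := 4) (by norm_num)) ?_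
      exact Fn.mul2 hx hx0.le q3 (by rw [zpow_one])
    have q5 := CT.log_two hL
    have q6 : ((4 * c1F A c0 : ℕ) : ℝ) * Real.log (2 * Lam) ≤ (4 : ℝ) * ((c1F A c0 : ℝ) * (2 * Lam)) := by
      push_cast
      have : (0 : ℝ) ≤ 4 * (c1F A c0 : ℝ) := by positivity
      nlinarith
    refine q6.trans (q4.trans (Fn.zle hx ?_))
    omega
  have a3 : 3 * pw Lam (cXF A c0) ≤ (2 * Lam) ^ ((c1F A c0 : ℤ) / 2 + 3) := by
    refine (Fn.mul2 hx (zero_le_one.trans (pw_one hL _)) (Fn.cst hx 1 (c := 3) (by norm_num))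
      (le_of_eq (pz _))).trans (Fn.zle hx ?_)
    rw [hcX]
    push_cast
    omega
  have a4 : Lam + 1 ≤ (2 * Lam) ^ (1 : ℤ) := by rw [zpow_one]; linarith
  -- the old states
  have b1 : Real.log 2 + Real.log (1 / (pw Lam (4 * c1F A c0))⁻¹) + 3 * pw Lam (cXF A c0) + Lam + 1 ≤
      (2 * Lam) ^ ((c1F A c0 : ℤ) / 2 + 5) := by
    have c1 := Fn.add2 hx (t2.trans (Fn.zle hx (show (0 : ℤ) ≤ (c1F A c0 : ℤ) / 2 + 3 by omega))) a2
    have c2 := Fn.add2 hx a3 (a4.trans (Fn.zle hx (show (1 : ℤ) ≤ (c1F A c0 : ℤ) / 2 + 3 by omega)))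
    have c3 := Fn.add2 hx c1 c2
    refine le_trans (le_of_eq ?_) (c3.trans (Fn.zle hx (by omega)))
    ring
  have b2 : Real.sqrt ((Real.log 2 + Real.log (1 / (pw Lam (4 * c1F A c0))⁻¹) + 3 * pw Lam (cXF A c0) + Lam + 1) /
      pw Lam (c1F A c0)) ≤ (2 * Lam) ^ (-((c1F A c0 : ℤ) / 4) + 3) := by
    refine Fn.sqrt_le hx ?_
    rw [div_eq_mul_inv]
    have q1 := Fn.mul2 hx (inv_pos.2 (zero_lt_one.trans_le (pw_one hL (c1F A c0)))).le b1 (le_of_eq (ipz (c1F A c0)))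
    refine q1.trans (Fn.zle hx ?_)
    omega
  have b3 : 2 + 4 / c.eS + 1 / (2 * c.eF) ≤ (2 * Lam) ^ ((2 * c0 : ℤ) + k + 3) := by
    have d1 := inv_le k c.eS hS
    have d2 := inv_le (2 * c0 + k) c.eF hF
    have d3 : 4 / c.eS ≤ (2 * Lam) ^ ((2 * c0 : ℤ) + k + 1) := by
      have : 4 / c.eS = 4 * (1 / c.eS) := by ring
      rw [this]
      refine (Fn.mul2 hx (by positivity) (Fn.cst hx 1 (c := 4) (by norm_num)) d1).trans (Fn.zle hx ?_)
      push_cast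
      omega
    have d4 : 1 / (2 * c.eF) ≤ (2 * Lam) ^ ((2 * c0 : ℤ) + k + 1) := by
      have : 1 / (2 * c.eF) ≤ 1 / c.eF := one_div_le_one_div_of_le eF0 (by linarith)
      refine this.trans (d2.trans (Fn.zle hx ?_))
      push_cast
      omega
    have d5 : (2 : ℝ) ≤ (2 * Lam) ^ ((2 * c0 : ℤ) + k + 2) :=
      (Fn.cst hx 1 (c := 2) (by norm_num)).trans (Fn.zle hx (by push_cast; omega))
    have d6 := Fn.add2 hx d3 d4
    have d7 := Fn.add2 hx d5 (d6.trans (Fn.zle hx (show (2 * c0 : ℤ) + k + 1 + 1 ≤ (2 * c0 : ℤ) + k + 2 by omega)))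
    refine le_trans (le_of_eq ?_) (d7.trans (Fn.zle hx (by omega)))
    ring
  have b4 : 64 * (2 + 4 / c.eS + 1 / (2 * c.eF)) * Real.sqrt ((Real.log 2 +
      Real.log (1 / (pw Lam (4 * c1F A c0))⁻¹) + 3 * pw Lam (cXF A c0) + Lam + 1) / pw Lam (c1F A c0)) ≤
      (2 * Lam) ^ (-(K : ℤ) - 2 * k - 7) := by
    have q1 := Fn.mul2 hx (v := 2 + 4 / c.eS + 1 / (2 * c.eF)) (by positivity) (Fn.cst hx 3 (c := 64) (by norm_num)) b3
    refine (Fn.mul2 hx (Real.sqrt_nonneg _) q1 b2).trans (Fn.zle hx ?_)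
    push_cast
    omega
  -- the new states
  have g1 : L0 + Real.log (1 / (pw Lam (4 * c1F A c0))⁻¹) + 3 * pw Lam (cXF A c0) + Lam + 1 ≤
      (2 * Lam) ^ ((c1F A c0 : ℤ) - 2 * K - 4 * k - 58) := by
    have c1 := Fn.add2 hx a1 (a2.trans (Fn.zle hx
      (show (c1F A c0 : ℤ) / 2 + 3 ≤ (c1F A c0 : ℤ) - 2 * K - 4 * k - 60 by omega)))
    have c2 := Fn.add2 hx (a3.trans (Fn.zle hx
      (show (c1F A c0 : ℤ) / 2 + 3 ≤ (c1F A c0 : ℤ) - 2 * K - 4 * k - 60 by omega)))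
      (a4.trans (Fn.zle hx (show (1 : ℤ) ≤ (c1F A c0 : ℤ) - 2 * K - 4 * k - 60 by omega)))
    have c3 := Fn.add2 hx c1 c2
    refine le_trans (le_of_eq ?_) (c3.trans (Fn.zle hx (by omega)))
    ring
  have g2 : Real.sqrt ((L0 + Real.log (1 / (pw Lam (4 * c1F A c0))⁻¹) + 3 * pw Lam (cXF A c0) + Lam + 1) /
      pw Lam (c1F A c0)) ≤ (2 * Lam) ^ (-(K : ℤ) - 2 * k - 29) := by
    refine Fn.sqrt_le hx ?_
    rw [div_eq_mul_inv]
    have q1 := Fn.mul2 hx (inv_pos.2 (zero_lt_one.trans_le (pw_one hL (c1F A c0)))).le g1 (le_of_eq (ipz (c1F A c0)))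
    refine q1.trans (Fn.zle hx ?_)
    omega
  have g3 : 32 * Real.sqrt ((L0 + Real.log (1 / (pw Lam (4 * c1F A c0))⁻¹) + 3 * pw Lam (cXF A c0) + Lam + 1) /
      pw Lam (c1F A c0)) ≤ (2 * Lam) ^ (-(K : ℤ) - 2 * k - 7) := by
    refine (Fn.mul2 hx (Real.sqrt_nonneg _) (Fn.cst hx 3 (c := 32) (by norm_num)) g2).trans (Fn.zle hx ?_)
    push_cast
    omega
  have g4 := Fn.add2 hx b4 g3
  have g5 : 240 * Lam / e ^ 2 ≤ (2 * Lam) ^ ((2 : ℤ) * k + 5) := by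
    have d1 := inv_le k e he
    have q1 : 240 * Lam ≤ (2 * Lam) ^ (((4 : ℕ) : ℤ) + 1) :=
      Fn.mul2 hx hLam.le (Fn.cst hx 4 (c := 240) (by norm_num)) (by rw [zpow_one]; linarith)
    have q2 := Fn.mul2 hx (by positivity) (Fn.mul2 hx (by positivity) q1 d1) d1
    refine le_trans (le_of_eq ?_) (q2.trans (Fn.zle hx ?_))
    · field_simp
    · push_cast
      omega
  rw [izp]
  refine (Fn.mul2 hx (by positivity) g4 g5).trans (Fn.zle hx ?_)
  omega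

/-- **(G3a) ON THE LAW OF THE TIME** -/
theorem g3a_t {A : ℕ} (hA : 80 ≤ A) (K k : ℕ) : AllC A (fun C => ∀ L0 : ℝ, Real.log 2 ≤ L0 →
    L0 ≤ C.N1 * CT.ix C.Lam (2 * K + 4 * k + 62) → ∀ e : ℝ, CT.ix C.Lam k ≤ e → e ≤ 1 → ∀ c : KC, CT.ix C.Lam k ≤ c.eS →
    c.eS ≤ 1 → CT.ix C.Lam (2 * C.c0 + k) ≤ c.eF → ∀ i : Fin 3,
    ∑ t ∈ range C.T, ∑ s, (C.D.P C.h t).Pr (fun w => st4 s ∧ arS C.h C.v C.p s t w ∧ chT C.h C.v L0 s t w ∧
      (acX C.h C.v e s t i w ∧ bsX C.h C.v c s t i w)) ≤ CT.ix C.Lam K) := by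
  refine ((AllC.of_Ev (g3a_num hA (K + 1) k)).and3 (ctx_t hA (K + 1)) (AllC.all fun C hC => hC)).mono
    fun C hh L0 hl hL0 e he he1 c hS hS1 hF i => ?_
  obtain ⟨h1, h2, hC⟩ := hh
  subst hC
  have hdl : 0 < C.p.dl := inv_pos.2 (zero_lt_one.trans_le (pw_one C.hL _))
  have hdl1 : C.p.dl ≤ 1 := inv_le_one_of_one_le₀ (pw_one C.hL _)
  have h3 := h1 L0 e c (by
    have e1 : 2 * (K + 1) + 4 * k + 60 = 2 * K + 4 * k + 62 := by ring
    rw [e1]
    exact hL0) he hS hF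
  have h4 := sum_bad C.n1 C.N11 C.H C.R hdl hdl1 hl i ((CT.ix_pos C.hL _).trans_le hF) ((CT.ix_pos C.hL _).trans_le hS) hS1
    ((CT.ix_pos C.hL _).trans_le he) he1 (h := C.h) (v := C.v) (p := C.p)
  have h5 := h2 L0 _ (fun s t w => acX C.h C.v e s t i w ∧ bsX C.h C.v c s t i w) (h4.trans h3)
  exact h5.trans (ix_two C.hL K)

/-- **(G3a) ON THE TABLE SPACE** : the removals which are not expensive public values -/
theorem g3a_q {A : ℕ} (hA : 80 ≤ A) (K k : ℕ) : AllC A (fun C => ∀ L0 : ℝ, Real.log 2 ≤ L0 →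
    L0 ≤ C.N1 * CT.ix C.Lam (2 * K + 4 * k + 62) → ∀ e : ℝ, CT.ix C.Lam k ≤ e → e ≤ 1 → ∀ c : KC, CT.ix C.Lam k ≤ c.eS →
    c.eS ≤ 1 → CT.ix C.Lam (2 * C.c0 + k) ≤ c.eF → ∀ i : Fin 3,
    ∑ q ∈ range (5 * C.T), C.tb.Ps.Pr (fun w => rmO C.v C.tb L0 q w ∧ Alv C.h C.v C.tb C.p q w ∧
      (acO C.h C.tb C.v e i q w ∧ bsO C.h C.tb C.v c i q w)) ≤ CT.ix C.Lam K) := by
  refine ((AllC.of_Ev (g3a_num hA (K + 1) k)).and3 (ctx_q hA (K + 1)) (AllC.all fun C hC => hC)).mono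
    fun C hh L0 hl hL0 e he he1 c hS hS1 hF i => ?_
  obtain ⟨h1, h2, hC⟩ := hh
  subst hC
  have hdl : 0 < C.p.dl := inv_pos.2 (zero_lt_one.trans_le (pw_one C.hL _))
  have hdl1 : C.p.dl ≤ 1 := inv_le_one_of_one_le₀ (pw_one C.hL _)
  have h3 := h1 L0 e c (by
    have e1 : 2 * (K + 1) + 4 * k + 60 = 2 * K + 4 * k + 62 := by ring
    rw [e1]
    exact hL0) he hS hF
  have h4 := sum_bad C.n1 C.N11 C.H C.R hdl hdl1 hl i ((CT.ix_pos C.hL _).trans_le hF) ((CT.ix_pos C.hL _).trans_le hS) hS1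
    ((CT.ix_pos C.hL _).trans_le he) he1 (h := C.h) (v := C.v) (p := C.p)
  have h5 := h2 L0 _ (fun s t w => acX C.h C.v e s t i w ∧ bsX C.h C.v c s t i w) (h4.trans h3)
  refine le_trans (Finset.sum_le_sum fun q _ => C.tb.Ps.Pr_mono fun w _ hh => ?_) (h5.trans (ix_two C.hL K))
  obtain ⟨g1, g2, g3, g4⟩ := hh
  refine ⟨g1, g2, g3.2, ?_⟩
  have hq : q % 5 = 1 ∨ q % 5 = 4 := g1.imp (fun h => h.1) fun h => h.1
  unfold bsO at g4
  unfold bsX
  rw [qs_rm hq]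
  exact g4

/-- expensive public value -/
def exO {X β γ φ : Type} [Fintype X] [Fintype β] [Fintype φ] [Nonempty X] [Nonempty β] {D : HD (Fin 3) X β γ φ}
    {prr : ℕ → Fin 3 → φ → φ} {T : ℕ} {W : Type} [Fintype W] (v : ℕ → Finset (Fin 3) → X → (Fin 3 → β) → Pt (Fin 3) X β φ)
    (tb : Tab D prr T W) (L0 : ℝ) (q : ℕ) (w : Om W X β) : Prop :=
  q % 5 = 1 ∧ tb.Ps.m (NPo tb v (q + 1)) w < Real.exp (-L0) * tb.Ps.m (NPo tb v q) w

/-- **(S1) with `l` among the active tops**, not expensive -/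
theorem s1a_q {A : ℕ} (hA : 80 ≤ A) (K k : ℕ) : AllC A (fun C => ∀ L0 : ℝ, Real.log 2 ≤ L0 →
    L0 ≤ C.N1 * CT.ix C.Lam (2 * K + 4 * k + 62) → ∀ e : ℝ, CT.ix C.Lam k ≤ e → e ≤ 1 → ∀ c : KC, CT.ix C.Lam k ≤ c.eS →
    c.eS ≤ 1 → CT.ix C.Lam (2 * C.c0 + k) ≤ c.eF → ∀ Al : ℕ → C.O → Prop,
    (∀ q w, Al q w → Alv C.h C.v C.tb C.p q w) → ∀ l x y : Fin 3, (x = l ∨ y = l) →
    ∑ q ∈ range (5 * C.T), C.tb.Ps.Pr (fun w => S1O C.h C.tb C.v c Al e l x y q w ∧ ¬ exO C.v C.tb L0 q w) ≤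
      CT.ix C.Lam K) := by
  refine (g3a_q hA K k).mono fun C hh L0 hl hL0 e he he1 c hS hS1 hF Al hAl l x y hxy => ?_
  refine le_trans (Finset.sum_le_sum fun q _ => C.tb.Ps.Pr_mono fun w _ hg => ?_) (hh L0 hl hL0 e he he1 c hS hS1 hF l)
  obtain ⟨⟨g1, g2, g3, g4, g5⟩, g6⟩ := hg
  refine ⟨rmO_of g1 g6, hAl q w g2, ?_, g3⟩
  rcases hxy with rfl | rfl
  · exact g4
  · exact g5

/-- **(S2) with `l` the rising top**, not expensive -/
theorem s2a_q {A : ℕ} (hA : 80 ≤ A) (K k : ℕ) : AllC A (fun C => ∀ L0 : ℝ, Real.log 2 ≤ L0 →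
    L0 ≤ C.N1 * CT.ix C.Lam (2 * K + 4 * k + 62) → ∀ e : ℝ, CT.ix C.Lam k ≤ e → e ≤ 1 → ∀ c : KC, CT.ix C.Lam k ≤ c.eS →
    c.eS ≤ 1 → CT.ix C.Lam (2 * C.c0 + k) ≤ c.eF → ∀ Al : ℕ → C.O → Prop,
    (∀ q w, Al q w → Alv C.h C.v C.tb C.p q w) → ∀ (B : ℝ) (l : Fin 3),
    ∑ q ∈ range (5 * C.T), C.tb.Ps.Pr (fun w => S2O C.h C.tb C.v c Al B e l l q w ∧ ¬ exO C.v C.tb L0 q w) ≤
      CT.ix C.Lam K) := by
  refine (g3a_q hA K k).mono fun C hh L0 hl hL0 e he he1 c hS hS1 hF Al hAl B l => ?_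
  refine le_trans (Finset.sum_le_sum fun q _ => C.tb.Ps.Pr_mono fun w _ hg => ?_) (hh L0 hl hL0 e he he1 c hS hS1 hF l)
  obtain ⟨⟨g1, g2, g3, g4, g5⟩, g6⟩ := hg
  have hm := rmq_mod g1
  refine ⟨rmO_of g1 g6, hAl q w g2, ⟨by omega, lt_of_lt_of_le (by linarith) (le_abs_self _)⟩, g4⟩

end

end Pool.Agent.GMH.SngG
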