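import Pool.Agent.GMH.SngA

/-!
# GMH/SngH (helper80): half cells: a state between two saturated states (kind `S`, part A)

`HC t' w0` : the cells of the time `t'` of all points are those of `w0`.  The cells of the time `t'` are at least half of the
cells of the time `t` (`hh`).
* `hc_small` : `P (HC | V) ≥ 2^(-|K|)` for an event `V` of (hidden point, exact points `I`) (`Ix`), `hc_one` : all points exact
  up to one, the near top allowed in the event;
* `HJ`, `VH` : the same for the points of `Jc`; `hc_up` : `P (A | V, HJ) ≤ 2^|K| P (A, HJ | V)`, `hc_dn`;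
* **`rel_pair_H`** : the masses of a relation of two letters and the far top at the states with half cells.
-/

set_option autoImplicit false
set_option linter.unusedSectionVars false

namespace Pool.Agent.GMH.SngA

open Finset Pool.Agent.PWZ Pool.Agent.M3 Pool.Agent.GM Pool.Agent.GM.Harm Pool.Agent.GMH Pool.Agent.GMH.RarX

section cls

variable {K X β γ φ υ : Type} [Fintype K] [DecidableEq K] [Fintype X] [Fintype β] [Fintype φ] [Nonempty X] [Nonempty β]
  {D : HD K X β γ φ} {al : ℝ} {h : D.Thick al} {N : Finset K → ℝ} {S : Finset (Finset K)}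
  {U : Finset K → X → (K → β) → υ} {t t' : ℕ} {b c d : K} {w0 : Pt K X β φ} {V : Pt K X β φ → Prop}
  {Typ : β → υ → Prop} {M L : ℝ} {I : Finset K}

/-- the cells of the time `t'` of all points are those of `w0` -/
def HC (D : HD K X β γ φ) (t' : ℕ) (w0 v : Pt K X β φ) : Prop := ∀ j, D.qb t' (v.2.1 j) = D.qb t' (w0.2.1 j)

omit [Fintype K] [DecidableEq K] [Fintype X] [Fintype β] [Fintype φ] [Nonempty X] [Nonempty β] in
theorem HC_self (t' : ℕ) (w0 : Pt K X β φ) : HC D t' w0 w0 := fun _ => rfl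

omit [Fintype K] [DecidableEq K] [Fintype X] [Fintype φ] [Nonempty X] [Nonempty β] in
theorem mcB' {b b' : β} : b' ∈ D.cB t b ↔ D.qb t b' = D.qb t b := by
  simp only [HD.cB, Finset.mem_filter, Finset.mem_univ, true_and]

omit [Fintype K] [DecidableEq K] [Fintype X] [Fintype φ] [Nonempty X] [Nonempty β] in
theorem cB_sub (htt : t ≤ t') (y : β) : D.cB t' y ⊆ D.cB t y := by
  classical
  intro z hz
  have key : ∀ n, t ≤ n → ∀ a b : β, D.qb n a = D.qb n b → D.qb t a = D.qb t b := by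
    intro n hn
    induction hn with
    | refl => exact fun _ _ h => h
    | step _ ih => exact fun a b h => ih a b (D.rb _ a b h)
  exact mcB'.2 (key t' htt z y (mcB'.1 hz))

/-- number of the points of the box with the right cells -/
theorem box_half (htt : t ≤ t') (hh : ∀ y, ((D.cB t y).card : ℝ) ≤ 2 * (D.cB t' y).card) (I : Finset K) (y0 : K → β) :
    1 / 2 ^ Fintype.card K ≤ (∑ y ∈ Fintype.piFinset (bxs D t I y0), ind (∀ j, D.qb t' (y j) = D.qb t' (y0 j))) /
      bsz (bxs D t I y0) := by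
  classical
  set sb : K → Finset β := fun j => (bxs D t I y0 j).filter fun z => D.qb t' z = D.qb t' (y0 j) with hsb
  have hS : ∀ j, (bxs D t I y0 j).Nonempty := fun j => bxs_ne (D := D) t I y0 j
  have e1 : ∑ y ∈ Fintype.piFinset (bxs D t I y0), ind (∀ j, D.qb t' (y j) = D.qb t' (y0 j)) =
      ((Fintype.piFinset sb).card : ℝ) := by
    have e2 : Fintype.piFinset sb = (Fintype.piFinset (bxs D t I y0)).filter fun y =>
        ∀ j, D.qb t' (y j) = D.qb t' (y0 j) := by
      ext y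
      rw [Finset.mem_filter, Fintype.mem_piFinset, Fintype.mem_piFinset]
      simp only [hsb, Finset.mem_filter]
      exact ⟨fun hh => ⟨fun j => (hh j).1, fun j => (hh j).2⟩, fun hh j => ⟨hh.1 j, hh.2 j⟩⟩
    rw [e2, Finset.card_filter]
    push_cast
    refine Finset.sum_congr rfl fun y _ => ?_
    by_cases hy : ∀ j, D.qb t' (y j) = D.qb t' (y0 j)
    · rw [ind_of hy, if_pos hy]
    · rw [ind_not hy, if_neg hy]
  have e3 : ((Fintype.piFinset sb).card : ℝ) = ∏ j, ((sb j).card : ℝ) := by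
    rw [Fintype.card_piFinset]
    push_cast
    rfl
  have h1 : bsz (bxs D t I y0) ≤ 2 ^ Fintype.card K * ∏ j, ((sb j).card : ℝ) := by
    have e4 : (2 : ℝ) ^ Fintype.card K * ∏ j, ((sb j).card : ℝ) = ∏ j, (2 * ((sb j).card : ℝ)) := by
      rw [Finset.prod_mul_distrib, Finset.prod_const, Finset.card_univ]
    rw [e4]
    unfold bsz
    refine Finset.prod_le_prod (fun j _ => Nat.cast_nonneg _) fun j _ => ?_
    by_cases hj : j ∈ I
    · have e5 : bxs D t I y0 j = {y0 j} := by unfold bxs; rw [if_pos hj]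
      have e6 : sb j = {y0 j} := by
        rw [hsb]
        simp only [e5]
        rw [Finset.filter_eq_self]
        intro z hz
        rw [Finset.mem_singleton.1 hz]
      rw [e5, e6, Finset.card_singleton]
      norm_num
    · have e5 : bxs D t I y0 j = D.cB t (y0 j) := by unfold bxs; rw [if_neg hj]
      rw [e5]
      refine (hh (y0 j)).trans (mul_le_mul_of_nonneg_left ?_ zero_le_two)
      have e6 : D.cB t' (y0 j) ⊆ sb j := by
        intro z hz
        rw [hsb]
        simp only [Finset.mem_filter]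
        rw [e5]
        exact ⟨cB_sub htt _ hz, mcB'.1 hz⟩
      exact_mod_cast Finset.card_le_card e6
  rw [e1, e3, div_le_div_iff₀ (by positivity) (bsz_pos hS), one_mul, mul_comm]
  exact h1

/-- **the half cells have a large mass** -/
theorem hc_small (htt : t ≤ t') (hh : ∀ y, ((D.cB t y).card : ℝ) ≤ 2 * (D.cB t' y).card) (J : Ix h U t I w0 V)
    (hI : ∀ l : K, ¬ univ.erase l ⊆ I) : 1 / 2 ^ Fintype.card K ≤ ((D.P h t).cond V).Pr (HC D t' w0) := by
  classical
  have hS := fun j => bxs_ne (D := D) t I w0.2.1 j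
  have hnod : ∀ v w, V v → V w → BB D t I v = BB D t I w := fun v w hv hw => (J.sub v hv).2.trans (J.sub w hw).2.symm
  have h1 := cls_law h (J.fac hI) hnod J.self J.ne (fun v => ind (HC D t' w0 v))
  have h2 : ∀ x, (Bx h t x (bxs D t I w0.2.1)).E (fun u => ind (HC D t' w0 (x, u))) =
      (∑ y ∈ Fintype.piFinset (bxs D t I w0.2.1), ind (∀ j, D.qb t' (y j) = D.qb t' (w0.2.1 j))) /
        bsz (bxs D t I w0.2.1) := fun x => Bx_pts h hS t x fun y => ind (∀ j, D.qb t' (y j) = D.qb t' (w0.2.1 j))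
  have h3 := box_half (D := D) htt hh I w0.2.1
  unfold FP.Pr
  rw [h1]
  simp only [h2]
  have hden : (FP.unif X).E (fun x => ind (V (x, w0.2))) ≠ 0 := by
    have h4 := FP.Pr_pos_of (P := FP.unif X) (S := fun x => V (x, w0.2)) (w := w0.1) (by
      show (Fintype.card X : ℝ)⁻¹ ≠ 0
      exact inv_ne_zero (by exact_mod_cast Fintype.card_ne_zero)) J.self
    exact h4.ne'
  rw [(FP.unif X).E_mul_const, mul_div_assoc, mul_comm, div_mul_cancel₀ _ hden]
  exact h3

/-- all points exact up to `c`: the near top may be in the event -/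
theorem hc_one (htt : t ≤ t') (hh : ∀ y, ((D.cB t y).card : ℝ) ≤ 2 * (D.cB t' y).card) (B : Bk h N S U t b c d)
    (J : Ix h U t I w0 V) (hIc : ∀ j, j ≠ c → j ∈ I) (hcI : c ∉ I) :
    1 / 2 ^ Fintype.card K ≤ ((D.P h t).cond V).Pr (HC D t' w0) := by
  classical
  have hx0 : (D.P h t).Pr (xc D U t I w0) ≠ 0 := xc_ne J.supp
  have hind := cls_indep3 (h := h) (t := t) (K0 := I) c (V := xc D U t I w0) (xc_fac I w0 B.dep B.era)
    (fun v w hv hw => hv.2.trans hw.2.symm) (xc_self U t I w0) hx0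
  set Cc : Pt K X β φ → Prop := fun v => D.qb t' (v.2.1 c) = D.qb t' (w0.2.1 c) with hCc
  set V1 : Pt K X β φ → Prop := fun v => V (v.1, w0.2.1, fun l => if l = c then v.2.2 l else w0.2.2 l) with hV1
  have hsup : ∀ v, (QX h U t I w0).p v ≠ 0 → xc D U t I w0 v := fun v hv => QX_supp J.supp hv
  have eV : ∀ v, (QX h U t I w0).p v ≠ 0 → V v = V1 v := by
    intro v hv
    rw [ev_cls J.ev (hsup v hv).2]
    refine J.ev _ _ ?_
    simp only [Prod.mk.injEq, BB_eq]
    refine ⟨trivial, ⟨fun _ _ => trivial, trivial, fun _ => trivial⟩, ?_⟩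
    funext l
    unfold tl
    by_cases hl : univ.erase l ⊆ I ∧ ∃ i ∈ I, i ≠ l
    · have hlj : l = c := by
        by_contra hlj
        exact hcI (hl.1 (Finset.mem_erase.2 ⟨fun hh => hlj hh.symm, mem_univ c⟩))
      rw [if_pos hl, if_pos hl]
      show some (v.2.2 l) = some (if l = c then v.2.2 l else w0.2.2 l)
      rw [if_pos hlj]
    · rw [if_neg hl, if_neg hl]
  have eH : ∀ v, (QX h U t I w0).p v ≠ 0 → HC D t' w0 v = Cc v := by
    intro v hv
    refine propext ⟨fun hh => hh c, fun hh j => ?_⟩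
    by_cases hj : j = c
    · rw [hj]; exact hh
    · have h1 := (hsup v hv).2
      rw [BB_eq] at h1
      rw [h1.1 j (hIc j hj)]
  have e4 := hind (fun v => ind (Cc v)) (fun v => ind (V1 v))
    (Fac.ind fun v w hvw => by
      have h1 : v.2.1 c = w.2.1 c := hvw
      show D.qb t' (v.2.1 c) = D.qb t' (w0.2.1 c) ↔ D.qb t' (w.2.1 c) = D.qb t' (w0.2.1 c)
      rw [h1]) (Fac.ind fun v w hvw => by
      simp only [Prod.mk.injEq] at hvw
      show V (v.1, w0.2.1, fun l => if l = c then v.2.2 l else w0.2.2 l) ↔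
        V (w.1, w0.2.1, fun l => if l = c then w.2.2 l else w0.2.2 l)
      have : (fun l => if l = c then v.2.2 l else w0.2.2 l) = fun l => if l = c then w.2.2 l else w0.2.2 l := by
        funext l
        by_cases hl : l = c
        · rw [if_pos hl, if_pos hl, hl, hvw.2.2]
        · rw [if_neg hl, if_neg hl]
      rw [this, hvw.1])
  have e5 : (QX h U t I w0).E (fun v => ind (Cc v) * ind (V1 v)) =
      (QX h U t I w0).E (fun v => ind (Cc v)) * (QX h U t I w0).E (fun v => ind (V1 v)) := e4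
  have e6 : (QX h U t I w0).Pr V = (QX h U t I w0).E (fun v => ind (V1 v)) :=
    (QX h U t I w0).E_congr fun v hv => by rw [eV v hv]
  have e7 : ((D.P h t).cond V).Pr (HC D t' w0) = (QX h U t I w0).E (fun v => ind (Cc v)) := by
    rw [← J.condX]
    unfold FP.Pr
    rw [FP.cond_E J.neX, e6, div_eq_iff (by rw [← e6]; exact J.neX), ← e5]
    refine (QX h U t I w0).E_congr fun v hv => ?_
    rw [eV v hv, eH v hv, mul_comm]
  rw [e7]
  have e8 : (QX h U t I w0).E (fun v => ind (Cc v)) = (QX h U t I w0).E (fun v => ind (HC D t' w0 v)) :=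
    (QX h U t I w0).E_congr fun v hv => by rw [eH v hv]
  rw [e8]
  -- the law of the points in the class
  have hS := fun j => bxs_ne (D := D) t I w0.2.1 j
  have h1 := cls_law h (V := xc D U t I w0) (K0 := I) (w0 := w0) (xc_fac I w0 B.dep B.era)
    (fun v w hv hw => hv.2.trans hw.2.symm)
    (xc_self U t I w0) hx0 (fun v => ind (HC D t' w0 v))
  have h2 : ∀ x, (Bx h t x (bxs D t I w0.2.1)).E (fun u => ind (HC D t' w0 (x, u))) =
      (∑ y ∈ Fintype.piFinset (bxs D t I w0.2.1), ind (∀ j, D.qb t' (y j) = D.qb t' (w0.2.1 j))) /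
        bsz (bxs D t I w0.2.1) := fun x => Bx_pts h hS t x fun y => ind (∀ j, D.qb t' (y j) = D.qb t' (w0.2.1 j))
  have h3 := box_half (D := D) htt hh I w0.2.1
  unfold QX
  rw [h1]
  simp only [h2]
  have hden : (FP.unif X).E (fun x => ind (xc D U t I w0 (x, w0.2))) ≠ 0 := by
    have h4 := FP.Pr_pos_of (P := FP.unif X) (S := fun x => xc D U t I w0 (x, w0.2)) (w := w0.1) (by
      show (Fintype.card X : ℝ)⁻¹ ≠ 0
      exact inv_ne_zero (by exact_mod_cast Fintype.card_ne_zero)) (xc_self U t I w0)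
    exact h4.ne'
  rw [(FP.unif X).E_mul_const, mul_div_assoc, mul_comm, div_mul_cancel₀ _ hden]
  exact h3

/-- the cells of the time `t'` of the points `Jc` are those of `w0` -/
def HJ (D : HD K X β γ φ) (t' : ℕ) (Jc : Finset K) (w0 v : Pt K X β φ) : Prop :=
  ∀ j ∈ Jc, D.qb t' (v.2.1 j) = D.qb t' (w0.2.1 j)

variable {Jc : Finset K}

omit [Fintype K] [DecidableEq K] [Fintype X] [Fintype β] [Fintype φ] [Nonempty X] [Nonempty β] in
theorem HJ_self (t' : ℕ) (Jc : Finset K) (w0 : Pt K X β φ) : HJ D t' Jc w0 w0 := fun _ _ => rfl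

omit [DecidableEq K] [Fintype X] [Fintype β] [Fintype φ] [Nonempty X] [Nonempty β] in
theorem HJ_univ : HJ D t' univ w0 = HC D t' w0 := by
  funext v
  exact propext ⟨fun hh j => hh j (mem_univ j), fun hh j _ => hh j⟩

theorem HJ_ge (hθ : 1 / 2 ^ Fintype.card K ≤ ((D.P h t).cond V).Pr (HC D t' w0)) (Jc : Finset K) :
    1 / 2 ^ Fintype.card K ≤ ((D.P h t).cond V).Pr (HJ D t' Jc w0) :=
  hθ.trans (FP.Pr_mono _ fun _ _ hv j _ => hv j)

/-- the event with the half cells -/
def VH (D : HD K X β γ φ) (t' : ℕ) (Jc : Finset K) (w0 : Pt K X β φ) (V : Pt K X β φ → Prop) (v : Pt K X β φ) : Prop :=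
  V v ∧ HJ D t' Jc w0 v

theorem VH_ne (J : Ix h U t I w0 V) : (D.P h t).Pr (VH D t' Jc w0 V) ≠ 0 :=
  (FP.Pr_pos_of (S := VH D t' Jc w0 V) J.supp ⟨J.self, HJ_self t' Jc w0⟩).ne'

theorem VH_cond (J : Ix h U t I w0 V) :
    ((D.P h t).cond V).cond (HJ D t' Jc w0) = (D.P h t).cond (VH D t' Jc w0 V) := FP.cond_cond (VH_ne J)

theorem HJ_ne (J : Ix h U t I w0 V) : ((D.P h t).cond V).Pr (HJ D t' Jc w0) ≠ 0 :=
  (FP.Pr_pos_of (S := HJ D t' Jc w0) ((FP.cond_p_ne J.ne).2 ⟨J.self, J.supp⟩) (HJ_self t' Jc w0)).ne'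

theorem VH_Pr (J : Ix h U t I w0 V) (A : Pt K X β φ → Prop) : ((D.P h t).cond (VH D t' Jc w0 V)).Pr A =
    ((D.P h t).cond V).Pr (fun v => HJ D t' Jc w0 v ∧ A v) / ((D.P h t).cond V).Pr (HJ D t' Jc w0) := by
  rw [← VH_cond J]
  have h1 := FP.cond_E (P := (D.P h t).cond V) (HJ_ne (t' := t') (Jc := Jc) J) (fun v => ind (A v))
  show (((D.P h t).cond V).cond (HJ D t' Jc w0)).E (fun v => ind (A v)) = _
  rw [h1]
  congr 1
  exact FP.E_congr _ fun v _ => (ind_and _ _).symm

/-- from the event with the half cells to the event -/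
theorem hc_up (J : Ix h U t I w0 V) (hθ : 1 / 2 ^ Fintype.card K ≤ ((D.P h t).cond V).Pr (HC D t' w0))
    (A : Pt K X β φ → Prop) : ((D.P h t).cond (VH D t' Jc w0 V)).Pr A ≤
      2 ^ Fintype.card K * ((D.P h t).cond V).Pr (fun v => HJ D t' Jc w0 v ∧ A v) := by
  have h0 : 0 < ((D.P h t).cond V).Pr (HJ D t' Jc w0) := lt_of_le_of_ne (FP.Pr_nonneg _ _) (HJ_ne J).symm
  have hθ' := HJ_ge hθ Jc
  rw [VH_Pr J, div_le_iff₀ h0]
  have h1 := FP.Pr_nonneg ((D.P h t).cond V) (fun v => HJ D t' Jc w0 v ∧ A v)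
  have h2 : (1 : ℝ) ≤ 2 ^ Fintype.card K * ((D.P h t).cond V).Pr (HJ D t' Jc w0) := by
    rw [div_le_iff₀ (by positivity)] at hθ'
    rw [mul_comm]
    exact hθ'
  calc ((D.P h t).cond V).Pr (fun v => HJ D t' Jc w0 v ∧ A v) = 1 * _ := (one_mul _).symm
    _ ≤ (2 ^ Fintype.card K * ((D.P h t).cond V).Pr (HJ D t' Jc w0)) * _ := mul_le_mul_of_nonneg_right h2 h1
    _ = _ := by ring

/-- from the event to the event with the half cells -/
theorem hc_dn (J : Ix h U t I w0 V) (A : Pt K X β φ → Prop) :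
    ((D.P h t).cond V).Pr (fun v => HJ D t' Jc w0 v ∧ A v) ≤ ((D.P h t).cond (VH D t' Jc w0 V)).Pr A := by
  have h0 : 0 < ((D.P h t).cond V).Pr (HJ D t' Jc w0) := lt_of_le_of_ne (FP.Pr_nonneg _ _) (HJ_ne J).symm
  have h3 := FP.Pr_le_one ((D.P h t).cond V) (HJ D t' Jc w0)
  rw [VH_Pr J, le_div_iff₀ h0]
  exact mul_le_of_le_one_right (FP.Pr_nonneg _ _) h3

/-- **THE MASSES OF A RELATION AT THE STATES WITH HALF CELLS** -/
theorem rel_pair_H (htt : t ≤ t') (hh : ∀ y, ((D.cB t y).card : ℝ) ≤ 2 * (D.cB t' y).card) (B : Bk h N S U t b c d)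
    (J : Ix h U t I w0 V) {V' : Pt K X β φ → Prop} (J' : Ix h U t I w0 V')
    (hI : I ⊆ {b}) (hJc : ∀ j ∈ Jc, j = b → b ∈ I) {C0 : Pt K X β φ → Prop} (hC : ∀ v, V v → C0 v)
    (hC' : ∀ v, V' v → C0 v) (hCx : ∀ v, C0 v → xc D U t I w0 v)
    {A : Pt K X β φ → Prop} (H : Rp h U t b c d (VH D t' Jc w0 C0) Typ A)
    (hM0 : 0 ≤ M) (hM : ∀ c', ∃ s : Finset υ, (s.card : ℝ) ≤ M ∧ ∀ u, Typ c' u → u ∈ s)
    (hL : LX h U t I w0 V ≤ L) (hL' : LX h U t I w0 V' ≤ L) :
    ((D.P h t).cond (VH D t' Jc w0 V)).Pr A ≤ 2 ^ Fintype.card K * (1025 * EP N al M b c d L +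
      1024 * ((D.P h t).cond (VH D t' Jc w0 V')).Pr A) := by
  have hsm : ∀ l : K, ¬ univ.erase l ⊆ I := by
    intro l hl
    have h1 : ∀ j, j ≠ l → j = b := fun j hj => Finset.mem_singleton.1 (hI (hl (Finset.mem_erase.2 ⟨hj, mem_univ j⟩)))
    by_cases hcl : c = l
    · exact B.bd (h1 d (fun hh => B.cd (hcl.trans hh.symm))).symm
    · exact B.bc (h1 c hcl).symm
  have hHJ : ∀ v w, C0 v → C0 w → zf U c v = zf U c w → zf U d v = zf U d w → HJ D t' Jc w0 v → HJ D t' Jc w0 w := by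
    intro v w hv hw h1 h2 h3 j hj
    rw [← h3 j hj]
    rcases B.all j with rfl | rfl | rfl
    · have e1 := (hCx v hv).2
      have e2 := (hCx w hw).2
      rw [BB_eq] at e1 e2
      have hbI := hJc j hj rfl
      rw [e1.1 j hbI, e2.1 j hbI]
    · unfold zf at h1
      rw [Prod.mk.injEq] at h1
      rw [h1.1]
    · unfold zf at h2
      rw [Prod.mk.injEq] at h2
      rw [h2.1]
  have H' : Rp h U t b c d C0 Typ (fun v => HJ D t' Jc w0 v ∧ A v) := by
    refine ⟨fun v w hv hw cv cw h1 h2 h3 hA => ?_, fun w hw cw hA => H.typ w hw ⟨cw, hA.1⟩ hA.2⟩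
    have h4 := hHJ v w cv cw h1 h2 hA.1
    exact ⟨h4, H.fac v w hv hw ⟨cv, hA.1⟩ ⟨cw, h4⟩ h1 h2 h3 hA.2⟩
  have h1 := rel_pair B J J' hI hC hC' H' hM0 hM hL hL'
  refine (hc_up J (hc_small htt hh J hsm) A).trans (mul_le_mul_of_nonneg_left (h1.trans ?_) (by positivity))
  exact add_le_add le_rfl (mul_le_mul_of_nonneg_left (hc_dn J' A) (by norm_num))

end cls

end Pool.Agent.GMH.SngA
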