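import Pool.Agent.GMH.SngG
import Pool.Agent.GMH.SngPt
import Pool.Agent.GMH.TriB
import Pool.Agent.GMH.RarN4

/-!
# GMH/SngL (helper18): `LinR` and `Fre` on the space with tables (kind S, (E4))

`q = 5 t + j`, `j ≤ 1`, `U = Um v (t + 1)`, `p0 = tb.pt t w` : the class of `NP q` is `VH` (half cells of the time `nn q`) of
`V1q` = saturated class and the digit of the hidden point.
* `ce_ev` : conditional expectations through the projection `pt t`; `NP_vh`, `XL_zf`, `TF_lab`, `CX_vt` : dictionary;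
* **`linR`**, **`fre`**.
-/

set_option autoImplicit false
set_option linter.unusedSectionVars false

namespace Pool.Agent.GMH.SngL

open Finset Pool.Agent.PWZ Pool.Agent.M3 Pool.Agent.GM Pool.Agent.GM.Harm Pool.Agent.GMH Pool.Agent.GMH.RarX
open Pool.Agent.GMH.SngA Pool.Agent.GMH.SngF Pool.Agent.GMH.MV Pool.Agent.GMH.MVI Pool.Agent.GMH.Sng Pool.Agent.GMH.SngPt
open Pool.Agent.GMH.V3 Pool.Agent.GMH.TP Pool.Agent.GMH.Dy Pool.Agent.GMH.TD

noncomputable section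

/-! ### through the projection -/

section gen

variable {Om Om' : Type*} [Fintype Om] [Fintype Om'] {P : FP Om} {P' : FP Om'} {π : Om → Om'}

theorem E_ev (H : Pul P P' π) {C : Om → Prop} {C' : Om' → Prop} (hC : ∀ u, P.p u ≠ 0 → (C u ↔ C' (π u)))
    {f : Om → ℝ} {f' : Om' → ℝ} (hf : ∀ u, P.p u ≠ 0 → C' (π u) → f u = f' (π u)) :
    P.E (fun u => ind (C u) * f u) = P'.E (fun u => ind (C' u) * f' u) := by
  rw [← H.E]
  refine P.E_congr fun u hu => ?_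
  rw [propext (hC u hu)]
  by_cases h1 : C' (π u)
  · rw [hf u hu h1]
  · rw [ind_not h1, zero_mul, zero_mul]

/-- conditional expectations through the projection -/
theorem ce_ev (H : Pul P P' π) {ζ : Type*} {Z : Om → ζ} {w : Om} {C : Om' → Prop}
    (hC : ∀ u, P.p u ≠ 0 → (Z u = Z w ↔ C (π u))) {f : Om → ℝ} {f' : Om' → ℝ}
    (hf : ∀ u, P.p u ≠ 0 → C (π u) → f u = f' (π u)) (hne : P'.Pr C ≠ 0) : P.ce Z f w = (P'.cond C).E f' := by
  rw [FP.cond_E hne]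
  unfold FP.ce
  congr 1
  · exact E_ev H hC hf
  · have h1 := E_ev H (C := fun u => Z u = Z w) (C' := C) hC (f := fun _ => 1) (f' := fun _ => 1) fun _ _ _ => rfl
    simp only [mul_one] at h1
    exact h1

/-- upper bound -/
theorem ce_le (H : Pul P P' π) {ζ : Type*} {Z : Om → ζ} {w : Om} {C : Om' → Prop}
    (hC : ∀ u, P.p u ≠ 0 → (Z u = Z w ↔ C (π u))) {A : Om → Prop} {A' : Om' → Prop}
    (hA : ∀ u, P.p u ≠ 0 → C (π u) → A u → A' (π u)) (hne : P'.Pr C ≠ 0) :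
    P.ce Z (fun u => ind (A u)) w ≤ (P'.cond C).Pr A' := by
  have h0 : 0 < P'.Pr C := lt_of_le_of_ne (P'.Pr_nonneg _) hne.symm
  have h1 := E_ev H (C := fun u => Z u = Z w) (C' := C) hC (f := fun _ => 1) (f' := fun _ => 1) fun _ _ _ => rfl
  simp only [mul_one] at h1
  have h2 : P.m Z w = P'.Pr C := h1
  show P.ce Z (fun u => ind (A u)) w ≤ (P'.cond C).E (fun p => ind (A' p))
  rw [FP.cond_E hne]
  unfold FP.ce
  rw [h2]
  refine div_le_div_of_nonneg_right ?_ h0.le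
  rw [← H.E]
  refine P.E_mono fun u hu => ?_
  rw [propext (hC u hu)]
  by_cases h3 : C (π u)
  · rw [ind_of h3, one_mul, one_mul]
    show ind (A u) ≤ ind (A' (π u))
    by_cases h4 : A u
    · rw [ind_of h4, ind_of (hA u hu h3 h4)]
    · rw [ind_not h4]; exact ind_nonneg _
  · rw [ind_not h3, zero_mul, zero_mul]

theorem ce_ex {Om ζ : Type*} [Fintype Om] {P : FP Om} {Z : Om → ζ} {E : Om → Prop} {w : Om}
    (hpos : 0 < P.ce Z (fun u => ind (E u)) w) : ∃ u, P.p u ≠ 0 ∧ Z u = Z w ∧ E u := by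
  by_contra hno
  refine hpos.ne' ?_
  unfold FP.ce
  rw [P.E_congr (g := fun _ => 0) fun u hu => ?_, P.E_const, zero_div]
  show ind (Z u = Z w) * ind (E u) = 0
  by_cases h1 : Z u = Z w
  · rw [ind_not (fun h2 : E u => hno ⟨u, hu, h1, h2⟩), mul_zero]
  · rw [ind_not h1, zero_mul]

/-- probabilities -/
theorem m_ev (H : Pul P P' π) {ζ : Type*} {Z : Om → ζ} {w : Om} {C : Om' → Prop}
    (hC : ∀ u, P.p u ≠ 0 → (Z u = Z w ↔ C (π u))) : P.m Z w = P'.Pr C := by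
  have h1 := E_ev H (C := fun u => Z u = Z w) (C' := C) hC (f := fun _ => 1) (f' := fun _ => 1) fun _ _ _ => rfl
  simp only [mul_one] at h1
  exact h1

end gen

/-! ### the dictionary -/

variable {X β γ φ : Type} [Fintype X] [Fintype β] [Fintype φ] [Nonempty X] [Nonempty β]
variable {D : HD (Fin 3) X β γ φ} {al : ℝ} {h : D.Thick al} {prr : ℕ → Fin 3 → φ → φ} {T : ℕ} {W : Type} [Fintype W]

section dict

variable {v : ℕ → Finset (Fin 3) → X → (Fin 3 → β) → Pt (Fin 3) X β φ} {tb : Tab D prr T W} {M : MS (Om W X β)} {q t j : ℕ}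

theorem q_div (hq : q = 5 * t + j) (hj : j ≤ 1) : q / 5 = t := by omega

theorem nc_q (hq : q = 5 * t + j) (hj : j ≤ 1) (J : Finset (Fin 3)) : nc q J = t + 1 := by
  have key : ∀ J : Finset (Fin 3), 1 ≤ rk J := by decide
  have h1 := key J
  unfold nc ncj
  rw [show q / 5 = t by omega, show q % 5 = j by omega, if_neg (by omega)]

theorem nn_q (hq : q = 5 * t + j) (hj : j ≤ 1) : TP.nn q = t + j := by
  unfold TP.nn nnj
  rw [show q / 5 = t by omega, show q % 5 = j by omega]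
  split_ifs with h1
  · omega
  · omega

variable (D v) in
/-- the hidden event of the state -/
def V1q (t t' : ℕ) (p0 p : Pt (Fin 3) X β φ) : Prop := xc D (Um v (t + 1)) t ∅ p0 p ∧ D.qa t' p.1 = D.qa t' p0.1

/-- the class of `NPq q` -/
theorem NPq_vh (hq : q = 5 * t + j) (hj : j ≤ 1) {p p0 : Pt (Fin 3) X β φ} : NPq D v q p = NPq D v q p0 ↔
    VH D (TP.nn q) univ p0 (V1q D v t (TP.nn q) p0) p := by
  have e1 : NPq D v q p = NPq D v q p0 ↔ Um v (nc q ∅) ∅ p.1 p.2.1 = Um v (nc q ∅) ∅ p0.1 p0.2.1 ∧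
      D.qa (TP.nn q) p.1 = D.qa (TP.nn q) p0.1 ∧ ∀ j, D.qb (TP.nn q) (p.2.1 j) = D.qb (TP.nn q) (p0.2.1 j) := by
    show ((Um v (nc q ∅) ∅ p.1 p.2.1, (D.qa (TP.nn q) p.1, fun j => D.qb (TP.nn q) (p.2.1 j))) =
      (Um v (nc q ∅) ∅ p0.1 p0.2.1, (D.qa (TP.nn q) p0.1, fun j => D.qb (TP.nn q) (p0.2.1 j)))) ↔ _
    rw [Prod.mk.injEq, Prod.mk.injEq, funext_iff]
  constructor
  · intro hh
    have h1 := NPq_mono (show 5 * t ≤ q by omega) p p0 hh
    have h2 := RarN.NPq_xc.1 h1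
    have h3 := e1.1 hh
    exact ⟨⟨h2, h3.2.1⟩, fun j _ => h3.2.2 j⟩
  · intro hh
    have h2 := RarN.NPq_xc.2 hh.1.1
    have h3 : Um v (nc (5 * t) ∅) ∅ p.1 p.2.1 = Um v (nc (5 * t) ∅) ∅ p0.1 p0.2.1 := congrArg Prod.fst h2
    rw [nc_q (q := 5 * t) (t := t) (j := 0) (by omega) (by omega)] at h3
    refine e1.2 ⟨?_, hh.1.2, fun j => hh.2 j (mem_univ j)⟩
    rw [nc_q hq hj]
    exact h3

theorem NP_vh (hM : RZ.Rp tb v M) (hq : q = 5 * t + j) (hj : j ≤ 1) {u w : Om W X β} : M.NP q u = M.NP q w ↔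
    VH D (TP.nn q) univ (tb.pt t w) (V1q D v t (TP.nn q) (tb.pt t w)) (tb.pt t u) := by
  rw [hM.N q u w]
  exact NPq_vh (p := tb.pt t u) (p0 := tb.pt t w) hq hj

theorem XL_zf (hM : RZ.Rp tb v M) (hq : q = 5 * t + j) (hj : j ≤ 1) (i : Fin 3) {u w : Om W X β} :
    M.XL i q u = M.XL i q w ↔ zf (Um v (t + 1)) i (tb.pt t u) = zf (Um v (t + 1)) i (tb.pt t w) := by
  rw [hM.X i q u w]
  have e : ∀ u : Om W X β, XLo tb v i q u = zf (Um v (t + 1)) i (tb.pt t u) := fun u => by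
    show (u.2.2 i, Um v (nc q {i}) {i} u.1 u.2.2) = (u.2.2 i, Um v (t + 1) {i} u.1 u.2.2)
    rw [nc_q hq hj]
  rw [e, e]

theorem TF_lab (hM : RpT tb v M) (hq : q = 5 * t + j) (hj : j ≤ 1) (ht : t ≤ T) (i : Fin 3) {u w : Om W X β}
    (hu : tb.Ps.p u ≠ 0) (hw : tb.Ps.p w ≠ 0) : M.TF i q u = M.TF i q w ↔ (tb.pt t u).2.2 i = (tb.pt t w).2.2 i := by
  rw [hM.TF i q u w]
  constructor
  · intro hh
    have h1 := congrFun hh t
    unfold TFo at h1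
    rw [if_pos ⟨by omega, ht⟩, if_pos ⟨by omega, ht⟩] at h1
    exact Option.some.inj h1
  · intro hh
    funext s
    unfold TFo
    by_cases hs : s ≤ q / 5 ∧ s ≤ T
    · rw [if_pos hs, if_pos hs]
      congr 1
      exact lab_hist tb (show s ≤ t by omega) ht i hu hw hh
    · rw [if_neg hs, if_neg hs]

/-- the letters of a family -/
theorem evL_ev (hM : RpT tb v M) (hq : q = 5 * t + j) (hj : j ≤ 1) (ht : t ≤ T) (F : Finset (Fin 3) × Finset (Fin 3))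
    {u w : Om W X β} (hu : tb.Ps.p u ≠ 0) (hw : tb.Ps.p w ≠ 0) :
    evL M F q w u ↔ ev (Um v (t + 1)) F (tb.pt t w) (tb.pt t u) := by
  unfold evL ev
  exact and_congr (forall_congr' fun k => forall_congr' fun _ => XL_zf hM.toRp hq hj k)
    (forall_congr' fun k => forall_congr' fun _ => TF_lab hM hq hj ht k hu hw)

/-- all points and the class -/
theorem UY_XI (hM : RZ.Rp tb v M) (hq : q = 5 * t + j) (hj : j ≤ 1) {u w : Om W X β} :
    AHR.UY M q u = AHR.UY M q w ↔ XI univ (V1q D v t (TP.nn q) (tb.pt t w)) (tb.pt t w) (tb.pt t u) := by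
  rw [SngPt.UY_iff hM, NP_vh hM hq hj]
  constructor
  · rintro ⟨h1, h2⟩
    exact ⟨h2.1, fun k _ => congrFun h1 k⟩
  · rintro ⟨h1, h2⟩
    have h3 : u.2.2 = w.2.2 := funext fun k => h2 k (mem_univ k)
    exact ⟨h3, h1, fun k _ => by
      show D.qb (TP.nn q) (u.2.2 k) = D.qb (TP.nn q) (w.2.2 k)
      rw [h3]⟩

theorem V1q_self (t' : ℕ) (p0 : Pt (Fin 3) X β φ) : V1q D v t t' p0 p0 := ⟨xc_self _ t ∅ p0, rfl⟩

/-- the event does not depend on the point of the class -/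
theorem V1q_mv {t' : ℕ} {p0 p1 : Pt (Fin 3) X β φ} (h1 : V1q D v t t' p0 p1) : V1q D v t t' p1 = V1q D v t t' p0 := by
  funext p
  refine propext ⟨fun hh => ⟨⟨hh.1.1.trans h1.1.1, hh.1.2.trans h1.1.2⟩, hh.2.trans h1.2⟩,
    fun hh => ⟨⟨hh.1.1.trans h1.1.1.symm, hh.1.2.trans h1.1.2.symm⟩, hh.2.trans h1.2.symm⟩⟩

theorem VH_mv {t' : ℕ} {V : Pt (Fin 3) X β φ → Prop} {p0 p1 : Pt (Fin 3) X β φ} (h1 : HJ D t' univ p0 p1) :
    VH D t' univ p1 V = VH D t' univ p0 V := by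
  funext p
  refine propext ⟨fun hh => ⟨hh.1, fun j hj => (hh.2 j hj).trans (h1 j hj)⟩,
    fun hh => ⟨hh.1, fun j hj => (hh.2 j hj).trans (h1 j hj).symm⟩⟩

end dict

/-! ### the frame of the run -/

section run

variable {v : ℕ → Finset (Fin 3) → X → (Fin 3 → β) → Pt (Fin 3) X β φ} {tb : Tab D prr T W} {M : MS (Om W X β)}
  {q t j : ℕ} {n N1 Lam : ℝ} {dg : ℕ → X → ℝ}

theorem V1q_ix (hn : 1 ≤ n) (hN1 : 1 ≤ N1) (R : Run h (pr3 (Fin 3) n N1) (SS1 (Fin 3)) (AdmDep D) v) (t' : ℕ)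
    {p0 : Pt (Fin 3) X β φ} (hp : (D.P h t).p p0 ≠ 0) :
    SngA.Ix h (Um v (t + 1)) t ∅ p0 (V1q D v t t' p0) where
  ev := by
    intro p p' hpp
    have B := TriB.Bk_run hn hN1 R (b := 0) (c := 1) (d := 2) (by decide) (by decide) (by decide) t
    simp only [Prod.mk.injEq] at hpp
    have e1 : xc D (Um v (t + 1)) t ∅ p0 p = xc D (Um v (t + 1)) t ∅ p0 p' :=
      xc_fac (U := Um v (t + 1)) ∅ p0 B.dep B.era p p' (by rw [Prod.mk.injEq]; exact ⟨hpp.1, hpp.2.1⟩)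
    show (xc D (Um v (t + 1)) t ∅ p0 p ∧ D.qa t' p.1 = D.qa t' p0.1) =
      (xc D (Um v (t + 1)) t ∅ p0 p' ∧ D.qa t' p'.1 = D.qa t' p0.1)
    rw [e1, hpp.1]
  self := V1q_self t' p0
  supp := hp
  sub := fun _ hv => hv.1

/-- half cells -/
theorem half_q (H : D.Hyp dg prr al T Lam) (hq : q = 5 * t + j) (hj : j ≤ 1) (hqT : q ≤ 5 * T) :
    t ≤ TP.nn q ∧ ∀ y, ((D.cB t y).card : ℝ) ≤ 2 * (D.cB (TP.nn q) y).card := by
  rw [nn_q hq hj]
  refine ⟨by omega, fun y => ?_⟩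
  rcases Nat.le_one_iff_eq_zero_or_eq_one.1 hj with h0 | h1
  · rw [h0, add_zero]
    have : (0 : ℝ) ≤ (D.cB t y).card := Nat.cast_nonneg _
    linarith
  · rw [h1]
    rcases H.half t (by omega) with h2 | h2
    · rw [h2 y]
      have : (0 : ℝ) ≤ (D.cB t y).card := Nat.cast_nonneg _
      linarith
    · have h3 := h2 y
      have h4 : ((D.cB t y).card : ℝ) = 2 * ((D.cB (t + 1) y).card : ℝ) := by
        rw [← h3]; push_cast; ring
      rw [h4]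

/-- surprise of the hidden event of the state -/
theorem LX_LC (hn : 1 ≤ n) (hN1 : 1 ≤ N1) (R : Run h (pr3 (Fin 3) n N1) (SS1 (Fin 3)) (AdmDep D) v) (hM : RZ.Rp tb v M)
    (hq : q = 5 * t + j) (hj : j ≤ 1) (ht : t ≤ T) {w : Om W X β} (hw : tb.Ps.p w ≠ 0) :
    LX h (Um v (t + 1)) t ∅ (tb.pt t w) (V1q D v t (TP.nn q) (tb.pt t w)) ≤ LC M q w := by
  have H := pul_pt h tb ht
  have hp := H.ne hw
  have J := V1q_ix (t := t) hn hN1 R (TP.nn q) hp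
  have e1 : M.P.m (M.NP (5 * (q / 5))) w = (D.P h t).Pr (xc D (Um v (t + 1)) t ∅ (tb.pt t w)) := by
    rw [show q / 5 = t by omega, hM.P]
    refine m_ev H fun u _ => ?_
    rw [hM.N (5 * t) u w]
    exact RarN.NPq_xc (p := tb.pt t u) (q := tb.pt t w)
  have e2 : M.P.m (M.NP q) w = (D.P h t).Pr (VH D (TP.nn q) univ (tb.pt t w) (V1q D v t (TP.nn q) (tb.pt t w))) := by
    rw [hM.P]
    exact m_ev H fun u _ => NP_vh hM hq hj
  have e3 : (QX h (Um v (t + 1)) t ∅ (tb.pt t w)).Pr (V1q D v t (TP.nn q) (tb.pt t w)) =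
      (D.P h t).Pr (V1q D v t (TP.nn q) (tb.pt t w)) / (D.P h t).Pr (xc D (Um v (t + 1)) t ∅ (tb.pt t w)) := by
    unfold QX
    rw [cond_Pr (xc_ne hp)]
    congr 1
    refine FP.E_congr _ fun u _ => congrArg ind (propext ⟨fun hh => hh.2, fun hh => ⟨hh.1, hh⟩⟩)
  have q1 : 0 < (D.P h t).Pr (xc D (Um v (t + 1)) t ∅ (tb.pt t w)) :=
    FP.Pr_pos_of (S := xc D (Um v (t + 1)) t ∅ (tb.pt t w)) hp (xc_self _ t ∅ _)
  have q2 : 0 < (D.P h t).Pr (VH D (TP.nn q) univ (tb.pt t w) (V1q D v t (TP.nn q) (tb.pt t w))) :=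
    FP.Pr_pos_of (S := VH D (TP.nn q) univ (tb.pt t w) (V1q D v t (TP.nn q) (tb.pt t w))) hp
      ⟨V1q_self _ _, HJ_self _ _ _⟩
  have q3 : (D.P h t).Pr (VH D (TP.nn q) univ (tb.pt t w) (V1q D v t (TP.nn q) (tb.pt t w))) ≤
      (D.P h t).Pr (V1q D v t (TP.nn q) (tb.pt t w)) := (D.P h t).Pr_mono fun u _ hu => hu.1
  unfold LX LC
  rw [e1, e2, e3, one_div_div]
  exact Real.log_le_log (div_pos q1 (lt_of_lt_of_le q2 q3)) (div_le_div_of_nonneg_left q1.le q2 q3)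

/-- log probability of a family -/
theorem lf_lfE (hM : RpT tb v M) (hq : q = 5 * t + j) (hj : j ≤ 1) (ht : t ≤ T) (F : Finset (Fin 3) × Finset (Fin 3))
    {w : Om W X β} (hw : tb.Ps.p w ≠ 0) :
    lf M F q w = lfE h (Um v (t + 1)) t (V1q D v t (TP.nn q) (tb.pt t w)) F (tb.pt t w) := by
  have H := pul_pt h tb ht
  have hp := H.ne hw
  rw [lf_ce]
  unfold lfE
  congr 1
  rw [hM.P]
  refine ce_ev H (fun u _ => UY_XI hM.toRp hq hj) (fun u hu _ => ?_)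
    (FP.Pr_pos_of (S := XI univ (V1q D v t (TP.nn q) (tb.pt t w)) (tb.pt t w)) hp ⟨V1q_self _ _, fun _ _ => rfl⟩).ne'
  exact congrArg ind (propext (evL_ev hM hq hj ht F hu hw))

/-- the same at another point of the class -/
theorem lf_lfE' (hM : RpT tb v M) (hq : q = 5 * t + j) (hj : j ≤ 1) (ht : t ≤ T) (F : Finset (Fin 3) × Finset (Fin 3))
    {u w : Om W X β} (hu : tb.Ps.p u ≠ 0) (huw : M.NP q u = M.NP q w) :
    lf M F q u = lfE h (Um v (t + 1)) t (V1q D v t (TP.nn q) (tb.pt t w)) F (tb.pt t u) := by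
  rw [lf_lfE (h := h) hM hq hj ht F hu, V1q_mv ((NP_vh hM.toRp hq hj).1 huw).1]

theorem ps_psE (hM : RpT tb v M) (hq : q = 5 * t + j) (hj : j ≤ 1) (ht : t ≤ T) (i : Fin 3)
    {u w : Om W X β} (hu : tb.Ps.p u ≠ 0) (huw : M.NP q u = M.NP q w) :
    ps M i q u = psE h (Um v (t + 1)) t (V1q D v t (TP.nn q) (tb.pt t w)) i (tb.pt t u) := by
  unfold ps psE
  rw [lf_lfE' (h := h) hM hq hj ht _ hu huw, lf_lfE' (h := h) hM hq hj ht _ hu huw,
    lf_lfE' (h := h) hM hq hj ht _ hu huw, lf_lfE' (h := h) hM hq hj ht _ hu huw]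

/-! ### events -/

/-- the hidden event -/
def Eh (M : MS (Om W X β)) (q : ℕ) (w : Om W X β) (E : Om W X β → Prop) (p : Pt (Fin 3) X β φ) : Prop :=
  ∃ u : Om W X β, u.1 = p.1 ∧ M.NP q u = M.NP q w ∧ E u

/-- the letter event -/
def gL (tb : Tab D prr T W) (v : ℕ → Finset (Fin 3) → X → (Fin 3 → β) → Pt (Fin 3) X β φ) (M : MS (Om W X β))
    (q t : ℕ) (w : Om W X β) (i : Fin 3) (A : Om W X β → Prop) (z : β × List (Pt (Fin 3) X β φ)) : Prop :=
  ∃ u : Om W X β, tb.Ps.p u ≠ 0 ∧ M.NP q u = M.NP q w ∧ zf (Um v (t + 1)) i (tb.pt t u) = z ∧ A u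

theorem Eh_iff {E : Om W X β → Prop} (hE : Fac (fun u : Om W X β => (u.1, M.NP q u)) E) {u w : Om W X β}
    (huw : M.NP q u = M.NP q w) (t : ℕ) : E u ↔ Eh M q w E (tb.pt t u) := by
  constructor
  · exact fun hh => ⟨u, rfl, huw, hh⟩
  · rintro ⟨u', h1, h2, h3⟩
    have h4 : (fun u : Om W X β => (u.1, M.NP q u)) u' = (fun u : Om W X β => (u.1, M.NP q u)) u :=
      Prod.ext h1 (h2.trans huw.symm)
    rw [← hE u' u h4]
    exact h3

theorem gL_iff (hM : RZ.Rp tb v M) (hq : q = 5 * t + j) (hj : j ≤ 1) {i : Fin 3} {A : Om W X β → Prop}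
    (hA : Fac (fun u => (M.XL i q u, M.NP q u)) A) {u w : Om W X β} (hu : tb.Ps.p u ≠ 0) (huw : M.NP q u = M.NP q w) :
    A u ↔ gL tb v M q t w i A (zf (Um v (t + 1)) i (tb.pt t u)) := by
  constructor
  · exact fun hh => ⟨u, hu, huw, rfl, hh⟩
  · rintro ⟨u', h1, h2, h3, h4⟩
    have h5 : (fun u => (M.XL i q u, M.NP q u)) u' = (fun u => (M.XL i q u, M.NP q u)) u :=
      Prod.ext ((XL_zf hM hq hj i).2 h3) (h2.trans huw.symm)
    rw [← hA u' u h5]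
    exact h4

/-- the class law -/
theorem ce_NP (hM : RZ.Rp tb v M) (hq : q = 5 * t + j) (hj : j ≤ 1) (ht : t ≤ T) {w : Om W X β}
    (hw : tb.Ps.p w ≠ 0) {A : Om W X β → Prop} {A' : Pt (Fin 3) X β φ → Prop}
    (hA : ∀ u, tb.Ps.p u ≠ 0 → M.NP q u = M.NP q w → (A u ↔ A' (tb.pt t u))) :
    M.P.ce (M.NP q) (fun u => ind (A u)) w =
      ((D.P h t).cond (VH D (TP.nn q) univ (tb.pt t w) (V1q D v t (TP.nn q) (tb.pt t w)))).Pr A' := by
  have H := pul_pt h tb ht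
  have hp := H.ne hw
  rw [hM.P]
  refine ce_ev H (fun u _ => NP_vh hM hq hj) (fun u hu hC => congrArg ind (propext (hA u hu ((NP_vh hM hq hj).2 hC))))
    (FP.Pr_pos_of (S := VH D (TP.nn q) univ (tb.pt t w) (V1q D v t (TP.nn q) (tb.pt t w))) hp
      ⟨V1q_self _ _, HJ_self _ _ _⟩).ne'

theorem oth2 (i : Fin 3) : ∃ b d : Fin 3, b ≠ i ∧ b ≠ d ∧ i ≠ d := by
  have key : ∀ i : Fin 3, ∃ b d : Fin 3, b ≠ i ∧ b ≠ d ∧ i ≠ d := by decide
  exact key i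

/-- the event `E` inside the state -/
theorem V3_ix (hn : 1 ≤ n) (hN1 : 1 ≤ N1) (R : Run h (pr3 (Fin 3) n N1) (SS1 (Fin 3)) (AdmDep D) v) {w : Om W X β}
    (hp : (D.P h t).p (tb.pt t w) ≠ 0) {E : Om W X β → Prop} (hE : E w) :
    SngA.Ix h (Um v (t + 1)) t ∅ (tb.pt t w)
      (fun p => V1q D v t (TP.nn q) (tb.pt t w) p ∧ Eh M q w E p) where
  ev := by
    intro p p' hpp
    have J := V1q_ix (t := t) hn hN1 R (TP.nn q) hp
    have e1 := J.ev p p' hpp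
    simp only [Prod.mk.injEq] at hpp
    have e2 : Eh M q w E p = Eh M q w E p' := by
      unfold Eh
      rw [hpp.1]
    show (V1q D v t (TP.nn q) (tb.pt t w) p ∧ Eh M q w E p) = (V1q D v t (TP.nn q) (tb.pt t w) p' ∧ Eh M q w E p')
    rw [e1, e2]
  self := ⟨V1q_self _ _, w, rfl, rfl, hE⟩
  supp := hp
  sub := fun _ hv => hv.1.1

/-- its surprise, its law -/
theorem V3_facts (hn : 1 ≤ n) (hN1 : 1 ≤ N1) (R : Run h (pr3 (Fin 3) n N1) (SS1 (Fin 3)) (AdmDep D) v)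
    (hM : RZ.Rp tb v M) (hq : q = 5 * t + j) (hj : j ≤ 1) (ht : t ≤ T) {w : Om W X β} (hw : tb.Ps.p w ≠ 0)
    {E : Om W X β → Prop} (hEf : Fac (fun u : Om W X β => (u.1, M.NP q u)) E) (hE : E w) :
    LX h (Um v (t + 1)) t ∅ (tb.pt t w) (fun p => V1q D v t (TP.nn q) (tb.pt t w) p ∧ Eh M q w E p) ≤
      LC M q w + Real.log (1 / M.P.ce (M.NP q) (fun u => ind (E u)) w) ∧
    ∀ (A : Om W X β → Prop) (A' : Pt (Fin 3) X β φ → Prop),
      (∀ u, tb.Ps.p u ≠ 0 → M.NP q u = M.NP q w → (A u ↔ A' (tb.pt t u))) →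
      M.P.ce (M.NP q) (fun u => ind (E u ∧ A u)) w = M.P.ce (M.NP q) (fun u => ind (E u)) w *
        ((D.P h t).cond (VH D (TP.nn q) univ (tb.pt t w)
          (fun p => V1q D v t (TP.nn q) (tb.pt t w) p ∧ Eh M q w E p))).Pr A' := by
  have H := pul_pt h tb ht
  have hp := H.ne hw
  have J := V1q_ix (t := t) hn hN1 R (TP.nn q) hp
  have B := TriB.Bk_run hn hN1 R (b := 0) (c := 1) (d := 2) (by decide) (by decide) (by decide) t
  have e1 : M.P.ce (M.NP q) (fun u => ind (E u)) w =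
      ((D.P h t).cond (VH D (TP.nn q) univ (tb.pt t w) (V1q D v t (TP.nn q) (tb.pt t w)))).Pr (Eh M q w E) :=
    ce_NP hM hq hj ht hw fun u _ huw => Eh_iff hEf huw t
  have hEw : Eh M q w E (tb.pt t w) := ⟨w, rfl, rfl, hE⟩
  have hhid : ∀ e ∈ (univ : Finset (Fin 3)), Uns h t (V1q D v t (TP.nn q) (tb.pt t w)) e (Eh M q w E) := fun e _ =>
    hid_uns fun p p' h1 hh => by
      obtain ⟨u, h2, h3, h4⟩ := hh
      exact ⟨u, h2.trans h1, h3, h4⟩
  constructor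
  · have h1 := LX_and J (Eh M q w E) hEw
    have h2 := VH_drops (t' := TP.nn q) (Jc := ∅) (s := univ) J B.era (Finset.disjoint_empty_right _) hhid
    rw [Finset.union_empty] at h2
    have e2 : VH D (TP.nn q) ∅ (tb.pt t w) (V1q D v t (TP.nn q) (tb.pt t w)) = V1q D v t (TP.nn q) (tb.pt t w) := by
      funext p
      exact propext ⟨fun hh => hh.1, fun hh => ⟨hh, fun j hj => absurd hj (Finset.notMem_empty j)⟩⟩
    rw [e2] at h2
    rw [h1, ← h2, e1]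
    have h3 := LX_LC hn hN1 R hM hq hj ht hw
    linarith
  · intro A A' hA
    set C := VH D (TP.nn q) univ (tb.pt t w) (V1q D v t (TP.nn q) (tb.pt t w)) with hC
    have hCne : (D.P h t).Pr C ≠ 0 := (FP.Pr_pos_of (S := C) hp ⟨V1q_self _ _, HJ_self _ _ _⟩).ne'
    have e2 : M.P.ce (M.NP q) (fun u => ind (E u ∧ A u)) w = ((D.P h t).cond C).Pr (fun p => Eh M q w E p ∧ A' p) :=
      ce_NP hM hq hj ht hw fun u hu huw => and_congr (Eh_iff hEf huw t) (hA u hu huw)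
    have e3 : VH D (TP.nn q) univ (tb.pt t w) (fun p => V1q D v t (TP.nn q) (tb.pt t w) p ∧ Eh M q w E p) =
        fun p => C p ∧ Eh M q w E p := by
      funext p
      exact propext ⟨fun hh => ⟨⟨hh.1.1, hh.2⟩, hh.1.2⟩, fun hh => ⟨⟨hh.1.1, hh.2⟩, hh.1.2⟩⟩
    have hne2 : (D.P h t).Pr (fun p => C p ∧ Eh M q w E p) ≠ 0 :=
      (FP.Pr_pos_of (S := fun p => C p ∧ Eh M q w E p) hp ⟨⟨V1q_self _ _, HJ_self _ _ _⟩, hEw⟩).ne'
    have hpos : ((D.P h t).cond C).Pr (Eh M q w E) ≠ 0 :=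
      (cond_pos hp (V := C) ⟨V1q_self _ _, HJ_self _ _ _⟩ hEw).ne'
    rw [e3, ← FP.cond_cond hne2, cond_Pr hpos, e2, e1, mul_div_cancel₀ _ hpos]

/-! ### numbers -/

theorem pr3_0 : pr3 (Fin 3) n N1 ∅ = 1 := by
  unfold pr3
  rw [if_pos Finset.card_empty]

theorem pr3_1 (i : Fin 3) : pr3 (Fin 3) n N1 {i} = N1 := by
  unfold pr3
  rw [if_neg (by rw [Finset.card_singleton]; norm_num), if_pos (Finset.card_singleton i)]

theorem pr3_2 (i : Fin 3) : pr3 (Fin 3) n N1 (univ.erase i) = n * N1 := by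
  have key : ∀ i : Fin 3, (univ.erase i).card = 2 := by decide
  unfold pr3
  rw [if_neg (by rw [key i]; norm_num), if_neg (by rw [key i]; norm_num)]

theorem kI_eq (i : Fin 3) (L : ℝ) : kI (pr3 (Fin 3) n N1) i L = 2 * (L + 1) / N1 := by
  unfold kI
  rw [pr3_0, pr3_1, mul_one]

theorem kW_le (hn : 1 ≤ n) (hN1 : 1 ≤ N1) (i : Fin 3) {L : ℝ} (hL : 0 ≤ L) : kW (pr3 (Fin 3) n N1) i L ≤ 2 * (L + 1) / N1 := by
  unfold kW
  rw [pr3_0, pr3_2, mul_one]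
  exact div_le_div_of_nonneg_left (by positivity) (by linarith) (by nlinarith)

theorem EP_le (hn : 1 ≤ n) (hN1 : 1 ≤ N1) {al X1 Lam : ℝ} (hal : 0 < al) (haL : Real.exp (-Lam) ≤ al) (hX : 0 ≤ X1)
    (b c d : Fin 3) {L : ℝ} (hL : 0 ≤ L) :
    SngA.EP (pr3 (Fin 3) n N1) al (Real.exp X1) b c d L ≤ (6 * (L + 1) + 4 * (X1 + Lam + 1)) / N1 := by
  have h1 := kW_le hn hN1 b hL
  have h2 : Real.log ((Real.exp X1 + 1) * (1 / al)) ≤ X1 + Lam + 1 := by
    rw [Real.log_le_iff_le_exp (by positivity)]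
    have h3 : 1 / al ≤ Real.exp Lam := by
      rw [div_le_iff₀ hal]
      have h4 := mul_le_mul_of_nonneg_left haL (Real.exp_pos Lam).le
      rw [← Real.exp_add, add_neg_cancel, Real.exp_zero] at h4
      exact h4
    have h5 : Real.exp X1 + 1 ≤ Real.exp (X1 + 1) := by
      rw [Real.exp_add]
      have h6 := Real.add_one_le_exp (1 : ℝ)
      have h7 := Real.one_le_exp hX
      nlinarith [Real.exp_pos X1]
    calc (Real.exp X1 + 1) * (1 / al) ≤ Real.exp (X1 + 1) * Real.exp Lam :=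
          mul_le_mul h5 h3 (by positivity) (Real.exp_pos _).le
      _ = Real.exp (X1 + Lam + 1) := by rw [← Real.exp_add]; congr 1; ring
  unfold SngA.EP klet
  rw [pr3_0, pr3_1, pr3_1]
  have h8 : kW (pr3 (Fin 3) n N1) b L + (2 * 1 * (L + 1) + 2 * (1 * Real.log ((Real.exp X1 + 1) * (1 / al)))) / N1 +
      (2 * 1 * (L + 1) + 2 * (1 * Real.log ((Real.exp X1 + 1) * (1 / al)))) / N1 ≤
      2 * (L + 1) / N1 + (2 * 1 * (L + 1) + 2 * (1 * (X1 + Lam + 1))) / N1 +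
      (2 * 1 * (L + 1) + 2 * (1 * (X1 + Lam + 1))) / N1 := by
    have h9 : (2 * 1 * (L + 1) + 2 * (1 * Real.log ((Real.exp X1 + 1) * (1 / al)))) / N1 ≤
        (2 * 1 * (L + 1) + 2 * (1 * (X1 + Lam + 1))) / N1 :=
      div_le_div_of_nonneg_right (by linarith) (by linarith)
    linarith
  refine h8.trans (le_of_eq ?_)
  ring

/-! ### alive letters -/

/-- letters with a large mass at their point -/
def Ty (h : D.Thick al) (v : ℕ → Finset (Fin 3) → X → (Fin 3 → β) → Pt (Fin 3) X β φ) (t : ℕ)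
    (V1 : Pt (Fin 3) X β φ → Prop) (d : Fin 3) (X1 : ℝ) (y : β) (u : List (Pt (Fin 3) X β φ)) : Prop :=
  Real.exp (-X1) ≤ ((D.P h t).cond (fun p => V1 p ∧ p.2.1 d = y)).Pr (fun p => Um v (t + 1) {d} p.1 p.2.1 = u)

theorem Ty_card (V1 : Pt (Fin 3) X β φ → Prop) (d : Fin 3) (X1 : ℝ) (y : β) :
    ∃ s : Finset (List (Pt (Fin 3) X β φ)), (s.card : ℝ) ≤ Real.exp X1 ∧ ∀ u, Ty h v t V1 d X1 y u → u ∈ s := by
  classical
  set Q := (D.P h t).cond (fun p => V1 p ∧ p.2.1 d = y) with hQ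
  set F : Pt (Fin 3) X β φ → List (Pt (Fin 3) X β φ) := fun p => Um v (t + 1) {d} p.1 p.2.1 with hF
  refine ⟨(vals F).filter fun u => Real.exp (-X1) ≤ Q.Pr (fun p => F p = u), ?_, fun u hu => ?_⟩
  · have h1 : (((vals F).filter fun u => Real.exp (-X1) ≤ Q.Pr (fun p => F p = u)).card : ℝ) * Real.exp (-X1) ≤ 1 := by
      rw [← SngM.sum_Pr Q F, ← nsmul_eq_mul]
      refine (Finset.card_nsmul_le_sum _ _ _ fun u hu => (Finset.mem_filter.1 hu).2).trans ?_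
      exact Finset.sum_le_sum_of_subset_of_nonneg (Finset.filter_subset _ _) fun u _ _ => Q.Pr_nonneg _
    have h2 := mul_le_mul_of_nonneg_right h1 (Real.exp_pos X1).le
    rw [mul_assoc, ← Real.exp_add, neg_add_cancel, Real.exp_zero, mul_one, one_mul] at h2
    exact h2
  · rw [Finset.mem_filter]
    have h1 : Real.exp (-X1) ≤ Q.Pr (fun p => F p = u) := hu
    refine ⟨?_, h1⟩
    have h2 : Q.Pr (fun p => F p = u) ≠ 0 := (lt_of_lt_of_le (Real.exp_pos _) h1).ne'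
    obtain ⟨p, _, hp⟩ : ∃ p, Q.p p ≠ 0 ∧ F p = u := by
      by_contra hno
      refine h2 ?_
      unfold FP.Pr
      rw [Q.E_congr (g := fun _ => 0) fun p hp => ind_not fun hh => hno ⟨p, hp, hh⟩, Q.E_const]
    rw [← hp]
    exact FP.mem_vals F p

/-- alive letters are typical -/
theorem Ty_of (hn : 1 ≤ n) (hN1 : 1 ≤ N1) (R : Run h (pr3 (Fin 3) n N1) (SS1 (Fin 3)) (AdmDep D) v) (hM : RpT tb v M)
    (hq : q = 5 * t + j) (hj : j ≤ 1) (ht : t ≤ T) {d : Fin 3} {X1 : ℝ} {u w : Om W X β} (hu : tb.Ps.p u ≠ 0)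
    (huw : M.NP q u = M.NP q w) (hal : -X1 ≤ lf M ({d}, ∅) q u) :
    Ty h v t (V1q D v t (TP.nn q) (tb.pt t w)) d X1 ((tb.pt t u).2.1 d)
      (Um v (t + 1) {d} (tb.pt t u).1 (tb.pt t u).2.1) := by
  have H := pul_pt h tb ht
  have hp := H.ne hu
  have hV : V1q D v t (TP.nn q) (tb.pt t w) (tb.pt t u) := ((NP_vh hM.toRp hq hj).1 huw).1
  obtain ⟨c, b, hcd, hcb, hdb⟩ := oth2 d
  have B := TriB.Bk_run hn hN1 R (b := d) (c := c) (d := b) hcd.symm hdb hcb t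
  have J : SngA.Ix h (Um v (t + 1)) t ∅ (tb.pt t u) (V1q D v t (TP.nn q) (tb.pt t w)) := by
    have J1 := V1q_ix (t := t) hn hN1 R (TP.nn q) hp
    rw [V1q_mv hV] at J1
    exact J1
  rw [lf_lfE' (h := h) hM hq hj ht _ hu huw] at hal
  unfold lfE at hal
  rw [ev_b_all B J] at hal
  have hpos : 0 < ((D.P h t).cond (XI {d} (V1q D v t (TP.nn q) (tb.pt t w)) (tb.pt t u))).Pr
      (ev (Um v (t + 1)) ({d}, ∅) (tb.pt t u)) := cond_pos hp (XI_self J) (ev_self _)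
  have h1 := (Real.le_log_iff_exp_le hpos).1 hal
  unfold Ty
  refine h1.trans (le_of_eq ?_)
  have e1 : XI {d} (V1q D v t (TP.nn q) (tb.pt t w)) (tb.pt t u) =
      fun p => V1q D v t (TP.nn q) (tb.pt t w) p ∧ p.2.1 d = (tb.pt t u).2.1 d := by
    funext p
    exact propext ⟨fun hh => ⟨hh.1, hh.2 d (Finset.mem_singleton_self d)⟩,
      fun hh => ⟨hh.1, fun k hk => by rw [Finset.mem_singleton.1 hk]; exact hh.2⟩⟩
  have hne : (D.P h t).Pr (fun p => V1q D v t (TP.nn q) (tb.pt t w) p ∧ p.2.1 d = (tb.pt t u).2.1 d) ≠ 0 := by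
    rw [← e1]
    exact XI_ne J
  rw [e1]
  refine FP.E_congr _ fun p hpp => congrArg ind (propext ?_)
  obtain ⟨h2, -⟩ := cond_supp hne hpp
  constructor
  · exact fun hh => congrArg Prod.snd (hh.1 d (Finset.mem_singleton_self d))
  · intro hh
    refine ⟨fun k hk => ?_, fun k hk => absurd hk (Finset.notMem_empty k)⟩
    rw [Finset.mem_singleton.1 hk]
    exact Prod.ext h2.2 hh

/-! ### other points of the class -/

theorem LC_mv (hM : RZ.Rp tb v M) {u w : Om W X β} (huw : M.NP q u = M.NP q w) : LC M q u = LC M q w := by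
  have h1 : M.NP (5 * (q / 5)) u = M.NP (5 * (q / 5)) w :=
    (hM.N _ _ _).2 (RarN.NPo_mono tb (show 5 * (q / 5) ≤ q by omega) ((hM.N _ _ _).1 huw))
  unfold LC FP.m
  rw [h1, huw]

theorem LC_nn (hn : 1 ≤ n) (hN1 : 1 ≤ N1) (R : Run h (pr3 (Fin 3) n N1) (SS1 (Fin 3)) (AdmDep D) v) (hM : RZ.Rp tb v M)
    (hq : q = 5 * t + j) (hj : j ≤ 1) (ht : t ≤ T) {w : Om W X β} (hw : tb.Ps.p w ≠ 0) : 0 ≤ LC M q w :=
  (V1q_ix (t := t) hn hN1 R (TP.nn q) ((pul_pt h tb ht).ne hw)).LX_nn.trans (LX_LC hn hN1 R hM hq hj ht hw)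

theorem log_nnE {P : FP (Om W X β)} {ζ : Type*} {Z : Om W X β → ζ} {E : Om W X β → Prop} {w : Om W X β}
    (hw : P.p w ≠ 0) (hpos : 0 < P.ce Z (fun u => ind (E u)) w) : 0 ≤ Real.log (1 / P.ce Z (fun u => ind (E u)) w) := by
  refine Real.log_nonneg ?_
  rw [le_div_iff₀ hpos, one_mul]
  exact P.ce_le_const (fun _ _ => ind_le_one _) hw

/-! ### linear rarity -/

/-- **(fD)** -/
theorem fD (hn : 1 ≤ n) (hN1 : 1 ≤ N1) (R : Run h (pr3 (Fin 3) n N1) (SS1 (Fin 3)) (AdmDep D) v)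
    (H : D.Hyp dg prr al T Lam) (hM : RZ.Rp tb v M) (hq : q = 5 * t + j) (hj : j ≤ 1) (hqT : q ≤ 5 * T) (i : Fin 3)
    {A E : Om W X β → Prop} (hA : Fac (fun u => (M.XL i q u, M.NP q u)) A)
    (hE : Fac (fun u : Om W X β => (u.1, M.NP q u)) E) {w : Om W X β} (hw : tb.Ps.p w ≠ 0)
    (hpos : 0 < M.P.ce (M.NP q) (fun u => ind (E u)) w) :
    M.P.ce (M.NP q) (fun u => ind (E u ∧ A u)) w ≤ M.P.ce (M.NP q) (fun u => ind (E u)) w *
      (80 / N1 * (Real.log (1 / M.P.ce (M.NP q) (fun u => ind (E u)) w) + (1 + LC M q w)) +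
        32 * M.P.ce (M.NP q) (fun u => ind (A u)) w) := by
  obtain ⟨w1, hw1, h1, h2⟩ := ce_ex hpos
  rw [hM.P] at hw1
  have mv : ∀ f : Om W X β → ℝ, M.P.ce (M.NP q) f w = M.P.ce (M.NP q) f w1 := fun f => (M.P.ce_fac (M.NP q) f w1 w h1).symm
  rw [mv, mv, mv, ← LC_mv hM h1]
  rw [mv] at hpos
  have ht : t ≤ T := by omega
  have hp := (pul_pt h tb ht).ne hw1
  obtain ⟨b, d, hbi, hbd, hid⟩ := oth2 i
  have B := TriB.Bk_run hn hN1 R (b := b) (c := i) (d := d) hbi hbd hid t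
  have J1 := V1q_ix (t := t) hn hN1 R (TP.nn q) hp
  have J3 := V3_ix (M := M) (q := q) hn hN1 R hp h2
  obtain ⟨f1, f2⟩ := V3_facts (h := h) hn hN1 R hM hq hj ht hw1 hE h2
  obtain ⟨g1, g2⟩ := half_q H hq hj hqT
  have hgA : ∀ u, tb.Ps.p u ≠ 0 → M.NP q u = M.NP q w1 →
      (A u ↔ gL tb v M q t w1 i A (zf (Um v (t + 1)) i (tb.pt t u))) := fun u hu huw => gL_iff hM hq hj hA hu huw
  rw [f2 A (fun p => gL tb v M q t w1 i A (zf (Um v (t + 1)) i p)) hgA]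
  have k1 := let_lin g1 g2 B J1 J3 (LX_LC hn hN1 R hM hq hj ht hw1) f1 (gL tb v M q t w1 i A)
  rw [← ce_NP (h := h) (A := A) hM hq hj ht hw1 hgA, kI_eq, kI_eq] at k1
  refine mul_le_mul_of_nonneg_left (k1.trans ?_) hpos.le
  have c8 : (2 : ℝ) ^ Fintype.card (Fin 3) = 8 := by rw [Fintype.card_fin]; norm_num
  rw [c8]
  have hl := log_nnE (P := M.P) (by rw [hM.P]; exact hw1) hpos
  have hLC := LC_nn hn hN1 R hM hq hj ht hw1
  set l := Real.log (1 / M.P.ce (M.NP q) (fun u => ind (E u)) w1)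
  set c := LC M q w1
  set a := M.P.ce (M.NP q) (fun u => ind (A u)) w1
  have e1 : 8 * (2 * (c + l + 1) / N1 + 4 * (2 * (c + 1) / N1) + 4 * a) = (16 * (c + l + 1) + 64 * (c + 1)) / N1 + 32 * a := by
    ring
  have e2 : 80 / N1 * (l + (1 + c)) = (80 * (l + (1 + c))) / N1 := by ring
  rw [e1, e2]
  refine add_le_add (div_le_div_of_nonneg_right ?_ (by linarith)) le_rfl
  linarith

/-- the side letters and the class -/
theorem CX_vt (hM : RpT tb v M) (hq : q = 5 * t + j) (hj : j ≤ 1) (ht : t ≤ T) (i : Fin 3)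
    {u w : Om W X β} (hu : tb.Ps.p u ≠ 0) (hw : tb.Ps.p w ≠ 0) :
    ((CX M i q u, M.NP q u) = (CX M i q w, M.NP q w)) ↔
      VH D (TP.nn q) univ (tb.pt t w) (VF (Um v (t + 1)) i {i} (V1q D v t (TP.nn q) (tb.pt t w)) (tb.pt t w)) (tb.pt t u) := by
  rw [Prod.mk.injEq, ← evL_top, evL_ev hM hq hj ht _ hu hw, NP_vh hM.toRp hq hj]
  constructor
  · rintro ⟨h1, h2⟩
    exact ⟨⟨⟨h2.1, fun k hk => congrArg Prod.fst (h1.1 k hk)⟩, h1⟩, h2.2⟩
  · rintro ⟨⟨h1, h2⟩, h3⟩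
    exact ⟨h2, h1.1, h3⟩

/-- the letter and the class -/
theorem XL_v4 (hM : RpT tb v M) (hq : q = 5 * t + j) (hj : j ≤ 1) (i : Fin 3) {u w : Om W X β} :
    ((M.XL i q u, M.NP q u) = (M.XL i q w, M.NP q w)) ↔
      VH D (TP.nn q) univ (tb.pt t w) (V4 (Um v (t + 1)) i (V1q D v t (TP.nn q) (tb.pt t w)) (tb.pt t w)) (tb.pt t u) := by
  rw [Prod.mk.injEq, XL_zf hM.toRp hq hj, NP_vh hM.toRp hq hj]
  constructor
  · rintro ⟨h1, h2⟩
    exact ⟨⟨⟨h2.1, fun k hk => by rw [Finset.mem_singleton.1 hk]; exact congrArg Prod.fst h1⟩,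
      fun k hk => by rw [Finset.mem_singleton.1 hk]; exact h1, fun k hk => absurd hk (Finset.notMem_empty k)⟩, h2.2⟩
  · rintro ⟨⟨h1, h2⟩, h3⟩
    exact ⟨h2.1 i (Finset.mem_singleton_self i), h1.1, h3⟩

/-- surprise of the side -/
theorem LX_side_le (hn : 1 ≤ n) (hN1 : 1 ≤ N1) (R : Run h (pr3 (Fin 3) n N1) (SS1 (Fin 3)) (AdmDep D) v) (hM : RpT tb v M)
    (hq : q = 5 * t + j) (hj : j ≤ 1) (ht : t ≤ T) (i : Fin 3) {w : Om W X β} (hw : tb.Ps.p w ≠ 0) {X1 : ℝ}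
    (hal : -X1 ≤ lf M (univ.erase i, {i}) q w) :
    LX h (Um v (t + 1)) t (univ.erase i) (tb.pt t w)
      (VF (Um v (t + 1)) i {i} (V1q D v t (TP.nn q) (tb.pt t w)) (tb.pt t w)) ≤ LC M q w + X1 := by
  have hp := (pul_pt h tb ht).ne hw
  obtain ⟨b, d, hbi, hbd, hid⟩ := oth2 i
  have B := TriB.Bk_run hn hN1 R (b := b) (c := i) (d := d) hbi hbd hid t
  have J1 := V1q_ix (t := t) hn hN1 R (TP.nn q) hp
  rw [LX_VF B J1 (fun k hk => Finset.mem_singleton.1 hk)]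
  rw [lf_lfE (h := h) hM hq hj ht _ hw] at hal
  unfold lfE at hal
  have h1 := LX_LC hn hN1 R hM.toRp hq hj ht hw
  rw [one_div, Real.log_inv]
  linarith

/-- surprise of the letter -/
theorem LX_let_le (hn : 1 ≤ n) (hN1 : 1 ≤ N1) (R : Run h (pr3 (Fin 3) n N1) (SS1 (Fin 3)) (AdmDep D) v) (hM : RpT tb v M)
    (hq : q = 5 * t + j) (hj : j ≤ 1) (ht : t ≤ T) (i : Fin 3) {w : Om W X β} (hw : tb.Ps.p w ≠ 0) {X1 : ℝ}
    (hal : -X1 ≤ lf M ({i}, ∅) q w) :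
    LX h (Um v (t + 1)) t {i} (tb.pt t w) (V4 (Um v (t + 1)) i (V1q D v t (TP.nn q) (tb.pt t w)) (tb.pt t w)) ≤
      LC M q w + X1 := by
  have hp := (pul_pt h tb ht).ne hw
  obtain ⟨c, d, hci, hcd, hid⟩ := oth2 i
  have B := TriB.Bk_run hn hN1 R (b := i) (c := c) (d := d) hci.symm hid hcd t
  have J1 := V1q_ix (t := t) hn hN1 R (TP.nn q) hp
  rw [LX_V4 B J1]
  rw [lf_lfE (h := h) hM hq hj ht _ hw] at hal
  unfold lfE at hal
  have h1 := LX_LC hn hN1 R hM.toRp hq hj ht hw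
  rw [one_div, Real.log_inv]
  linarith

/-- **(bD)** -/
theorem bD (hn : 1 ≤ n) (hN1 : 1 ≤ N1) (R : Run h (pr3 (Fin 3) n N1) (SS1 (Fin 3)) (AdmDep D) v)
    (H : D.Hyp dg prr al T Lam) (hM : RpT tb v M) (hq : q = 5 * t + j) (hj : j ≤ 1) (hqT : q ≤ 5 * T) (i : Fin 3)
    {A : Om W X β → Prop} (hA : Fac (fun u => (M.XL i q u, M.NP q u)) A) {w : Om W X β} (hw : tb.Ps.p w ≠ 0) {X1 : ℝ}
    (hX : 0 ≤ X1) (hal : -X1 ≤ lf M (univ.erase i, {i}) q w) :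
    M.P.ce (M.NP q) (fun u => ind (A u)) w ≤ 80 / N1 * (X1 + 1 + LC M q w) +
      32 * M.P.ce (fun u => (CX M i q u, M.NP q u)) (fun u => ind (A u)) w := by
  have ht : t ≤ T := by omega
  have hp := (pul_pt h tb ht).ne hw
  obtain ⟨b, d, hbi, hbd, hid⟩ := oth2 i
  have B := TriB.Bk_run hn hN1 R (b := b) (c := i) (d := d) hbi hbd hid t
  have J1 := V1q_ix (t := t) hn hN1 R (TP.nn q) hp
  have J2 := VF_ix (L := {i}) B J1 (fun k hk => Finset.mem_singleton.1 hk)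
  obtain ⟨g1, g2⟩ := half_q H hq hj hqT
  have hgA : ∀ u, tb.Ps.p u ≠ 0 → M.NP q u = M.NP q w →
      (A u ↔ gL tb v M q t w i A (zf (Um v (t + 1)) i (tb.pt t u))) := fun u hu huw => gL_iff hM.toRp hq hj hA hu huw
  have k1 := let_side g1 g2 B J1 J2 (LX_LC hn hN1 R hM.toRp hq hj ht hw) (LX_side_le hn hN1 R hM hq hj ht i hw hal)
    (gL tb v M q t w i A)
  have e2 : M.P.ce (fun u => (CX M i q u, M.NP q u)) (fun u => ind (A u)) w =
      ((D.P h t).cond (VH D (TP.nn q) univ (tb.pt t w)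
        (VF (Um v (t + 1)) i {i} (V1q D v t (TP.nn q) (tb.pt t w)) (tb.pt t w)))).Pr
          (fun p => gL tb v M q t w i A (zf (Um v (t + 1)) i p)) := by
    rw [hM.P]
    exact ce_ev (pul_pt h tb ht) (fun u hu => CX_vt hM hq hj ht i hu hw)
      (fun u hu hC => congrArg ind (propext (hgA u hu (Prod.mk.inj ((CX_vt hM hq hj ht i hu hw).2 hC)).2)))
      (VH_ne J2)
  rw [← ce_NP (h := h) (A := A) hM.toRp hq hj ht hw hgA, ← e2, kI_eq, kI_eq] at k1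
  refine k1.trans ?_
  have c8 : (2 : ℝ) ^ Fintype.card (Fin 3) = 8 := by rw [Fintype.card_fin]; norm_num
  rw [c8]
  have hLC := LC_nn hn hN1 R hM.toRp hq hj ht hw
  set c := LC M q w
  set a := M.P.ce (fun u => (CX M i q u, M.NP q u)) (fun u => ind (A u)) w
  have e1 : 8 * (2 * (c + 1) / N1 + 4 * (2 * (c + X1 + 1) / N1) + 4 * a) =
    (16 * (c + 1) + 64 * (c + X1 + 1)) / N1 + 32 * a := by ring
  have e3 : 80 / N1 * (X1 + 1 + c) = (80 * (X1 + 1 + c)) / N1 := by ring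
  rw [e1, e3]
  refine add_le_add (div_le_div_of_nonneg_right ?_ (by linarith)) le_rfl
  linarith

/-! ### the side letters -/

/-- relation of the side letters -/
def gC (tb : Tab D prr T W) (v : ℕ → Finset (Fin 3) → X → (Fin 3 → β) → Pt (Fin 3) X β φ) (M : MS (Om W X β))
    (q t : ℕ) (w : Om W X β) (b c d : Fin 3) (A : Om W X β → Prop) (x y : β × List (Pt (Fin 3) X β φ)) (z : φ) : Prop :=
  ∃ u : Om W X β, tb.Ps.p u ≠ 0 ∧ M.NP q u = M.NP q w ∧ zf (Um v (t + 1)) c (tb.pt t u) = x ∧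
    zf (Um v (t + 1)) d (tb.pt t u) = y ∧ (tb.pt t u).2.2 b = z ∧ A u

theorem gC_iff (hM : RpT tb v M) (hq : q = 5 * t + j) (hj : j ≤ 1) (ht : t ≤ T) {b c d : Fin 3} (hbc : b ≠ c)
    (hbd : b ≠ d) (hcd : c ≠ d) {A : Om W X β → Prop} (hA : Fac (fun u => (CX M b q u, M.NP q u)) A)
    {u w : Om W X β} (hu : tb.Ps.p u ≠ 0) (huw : M.NP q u = M.NP q w) :
    A u ↔ fR (Um v (t + 1)) b c d (gC tb v M q t w b c d A) (tb.pt t u) := by
  constructor
  · exact fun hh => ⟨u, hu, huw, rfl, rfl, rfl, hh⟩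
  · rintro ⟨u', h1, h2, h3, h4, h5, h6⟩
    have key : ∀ b c d k : Fin 3, b ≠ c → b ≠ d → c ≠ d → k ≠ b → k = c ∨ k = d := by decide
    have h7 : (fun u => (CX M b q u, M.NP q u)) u' = (fun u => (CX M b q u, M.NP q u)) u := by
      refine Prod.ext (CX_iff.2 ⟨fun k hk => ?_, (TF_lab hM hq hj ht b h1 hu).2 h5⟩) (h2.trans huw.symm)
      rcases key b c d k hbc hbd hcd hk with h8 | h8
      · rw [h8]; exact (XL_zf hM.toRp hq hj c).2 h3
      · rw [h8]; exact (XL_zf hM.toRp hq hj d).2 h4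
    rw [← hA u' u h7]
    exact h6

theorem gC_typ (hn : 1 ≤ n) (hN1 : 1 ≤ N1) (R : Run h (pr3 (Fin 3) n N1) (SS1 (Fin 3)) (AdmDep D) v) (hM : RpT tb v M)
    (hq : q = 5 * t + j) (hj : j ≤ 1) (ht : t ≤ T) {b c d : Fin 3} {A : Om W X β → Prop} {X1 : ℝ} {w : Om W X β}
    (hAl : ∀ u, tb.Ps.p u ≠ 0 → M.NP q u = M.NP q w → A u → -X1 ≤ lf M ({d}, ∅) q u)
    (x y : β × List (Pt (Fin 3) X β φ)) (z : φ) (hG : gC tb v M q t w b c d A x y z) :
    Ty h v t (V1q D v t (TP.nn q) (tb.pt t w)) d X1 y.1 y.2 := by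
  obtain ⟨u, h1, h2, h3, h4, h5, h6⟩ := hG
  have h7 := Ty_of (h := h) (j := j) hn hN1 R hM hq hj ht h1 h2 (hAl u h1 h2 h6)
  rw [← h4]
  exact h7

/-- **(fC)** -/
theorem fC (hn : 1 ≤ n) (hN1 : 1 ≤ N1) (R : Run h (pr3 (Fin 3) n N1) (SS1 (Fin 3)) (AdmDep D) v)
    (H : D.Hyp dg prr al T Lam) (hM : RpT tb v M) (hq : q = 5 * t + j) (hj : j ≤ 1) (hqT : q ≤ 5 * T) (i : Fin 3)
    {A E : Om W X β → Prop} (hA : Fac (fun u => (CX M i q u, M.NP q u)) A) {X1 : ℝ} (hX : 0 ≤ X1)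
    (hAl : ∀ u, tb.Ps.p u ≠ 0 → A u → ∀ k, k ≠ i → -X1 ≤ lf M ({k}, ∅) q u)
    (hE : Fac (fun u : Om W X β => (u.1, M.NP q u)) E) {w : Om W X β} (hw : tb.Ps.p w ≠ 0)
    (hpos : 0 < M.P.ce (M.NP q) (fun u => ind (E u)) w) :
    M.P.ce (M.NP q) (fun u => ind (E u ∧ A u)) w ≤ M.P.ce (M.NP q) (fun u => ind (E u)) w *
      (82000 / N1 * (Real.log (1 / M.P.ce (M.NP q) (fun u => ind (E u)) w) + (X1 + Lam + 1 + LC M q w)) +
        8192 * M.P.ce (M.NP q) (fun u => ind (A u)) w) := by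
  obtain ⟨w1, hw1, h1, h2⟩ := ce_ex hpos
  rw [hM.P] at hw1
  have mv : ∀ f : Om W X β → ℝ, M.P.ce (M.NP q) f w = M.P.ce (M.NP q) f w1 := fun f => (M.P.ce_fac (M.NP q) f w1 w h1).symm
  rw [mv, mv, mv, ← LC_mv hM.toRp h1]
  rw [mv] at hpos
  have ht : t ≤ T := by omega
  have hp := (pul_pt h tb ht).ne hw1
  obtain ⟨c, d, hci, hcd, hid⟩ := oth2 i
  have B := TriB.Bk_run hn hN1 R (b := i) (c := c) (d := d) hci.symm hid hcd t
  have J1 := V1q_ix (t := t) hn hN1 R (TP.nn q) hp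
  have J3 := V3_ix (M := M) (q := q) hn hN1 R hp h2
  obtain ⟨f1, f2⟩ := V3_facts (h := h) hn hN1 R hM.toRp hq hj ht hw1 hE h2
  obtain ⟨g1, g2⟩ := half_q H hq hj hqT
  have hgA : ∀ u, tb.Ps.p u ≠ 0 → M.NP q u = M.NP q w1 →
      (A u ↔ fR (Um v (t + 1)) i c d (gC tb v M q t w1 i c d A) (tb.pt t u)) := fun u hu huw =>
    gC_iff hM hq hj ht hci.symm hid hcd hA hu huw
  rw [f2 A _ hgA]
  have hl := log_nnE (P := M.P) (by rw [hM.P]; exact hw1) hpos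
  have hLC := LC_nn hn hN1 R hM.toRp hq hj ht hw1
  have k1 := face_lin (Typ := Ty h v t (V1q D v t (TP.nn q) (tb.pt t w1)) d X1) (M := Real.exp X1) g1 g2 B J1 J3
    ((LX_LC hn hN1 R hM.toRp hq hj ht hw1).trans (le_add_of_nonneg_right hl)) f1
    (G := gC tb v M q t w1 i c d A)
    (gC_typ hn hN1 R hM hq hj ht fun u hu _ hAu => hAl u hu hAu d hid.symm)
    (Real.exp_pos X1).le (Ty_card _ d X1)
  rw [← ce_NP (h := h) (A := A) hM.toRp hq hj ht hw1 hgA] at k1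
  refine mul_le_mul_of_nonneg_left (k1.trans ?_) hpos.le
  have c8 : (2 : ℝ) ^ Fintype.card (Fin 3) = 8 := by rw [Fintype.card_fin]; norm_num
  rw [c8]
  have k2 := EP_le hn hN1 (Lam := Lam) h.pos H.alL hX i c d (add_nonneg hLC hl)
  have hL1 := H.Lam1
  set l := Real.log (1 / M.P.ce (M.NP q) (fun u => ind (E u)) w1)
  set cc := LC M q w1
  set a := M.P.ce (M.NP q) (fun u => ind (A u)) w1
  have e1 : 8 * (1025 * SngA.EP (pr3 (Fin 3) n N1) al (Real.exp X1) i c d (cc + l) + 1024 * a) ≤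
      8 * (1025 * ((6 * (cc + l + 1) + 4 * (X1 + Lam + 1)) / N1) + 1024 * a) := by linarith
  refine e1.trans ?_
  have e2 : 8 * (1025 * ((6 * (cc + l + 1) + 4 * (X1 + Lam + 1)) / N1) + 1024 * a) =
      (8200 * (6 * (cc + l + 1) + 4 * (X1 + Lam + 1))) / N1 + 8192 * a := by ring
  have e3 : 82000 / N1 * (l + (X1 + Lam + 1 + cc)) = (82000 * (l + (X1 + Lam + 1 + cc))) / N1 := by ring
  rw [e2, e3]
  refine add_le_add (div_le_div_of_nonneg_right ?_ (by linarith)) le_rfl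
  linarith

/-- **(bC)** -/
theorem bC (hn : 1 ≤ n) (hN1 : 1 ≤ N1) (R : Run h (pr3 (Fin 3) n N1) (SS1 (Fin 3)) (AdmDep D) v)
    (H : D.Hyp dg prr al T Lam) (hM : RpT tb v M) (hq : q = 5 * t + j) (hj : j ≤ 1) (hqT : q ≤ 5 * T) (i : Fin 3)
    {A : Om W X β → Prop} (hA : Fac (fun u => (CX M i q u, M.NP q u)) A) {X1 : ℝ} (hX : 0 ≤ X1)
    (hAl : ∀ u, tb.Ps.p u ≠ 0 → A u → ∀ k, k ≠ i → -X1 ≤ lf M ({k}, ∅) q u)
    {w : Om W X β} (hw : tb.Ps.p w ≠ 0) (hal : -X1 ≤ lf M ({i}, ∅) q w) :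
    M.P.ce (M.NP q) (fun u => ind (A u)) w ≤ 82000 / N1 * (X1 + Lam + 1 + LC M q w) +
      8192 * M.P.ce (fun u => (M.XL i q u, M.NP q u)) (fun u => ind (A u)) w := by
  have ht : t ≤ T := by omega
  have hp := (pul_pt h tb ht).ne hw
  obtain ⟨c, d, hci, hcd, hid⟩ := oth2 i
  have B := TriB.Bk_run hn hN1 R (b := i) (c := c) (d := d) hci.symm hid hcd t
  have J1 := V1q_ix (t := t) hn hN1 R (TP.nn q) hp
  have J4 := V4_ix B J1
  obtain ⟨g1, g2⟩ := half_q H hq hj hqT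
  have hgA : ∀ u, tb.Ps.p u ≠ 0 → M.NP q u = M.NP q w →
      (A u ↔ fR (Um v (t + 1)) i c d (gC tb v M q t w i c d A) (tb.pt t u)) := fun u hu huw =>
    gC_iff hM hq hj ht hci.symm hid hcd hA hu huw
  have hLC := LC_nn hn hN1 R hM.toRp hq hj ht hw
  have k1 := (face_let (Typ := Ty h v t (V1q D v t (TP.nn q) (tb.pt t w)) d X1) (M := Real.exp X1) g1 g2 B J1 J4
    ((LX_LC hn hN1 R hM.toRp hq hj ht hw).trans (le_add_of_nonneg_right hX)) (LX_let_le hn hN1 R hM hq hj ht i hw hal)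
    (G := gC tb v M q t w i c d A)
    (gC_typ hn hN1 R hM hq hj ht fun u hu _ hAu => hAl u hu hAu d hid.symm)
    (Real.exp_pos X1).le (Ty_card _ d X1)).1
  have e2 : M.P.ce (fun u => (M.XL i q u, M.NP q u)) (fun u => ind (A u)) w =
      ((D.P h t).cond (VH D (TP.nn q) univ (tb.pt t w)
        (V4 (Um v (t + 1)) i (V1q D v t (TP.nn q) (tb.pt t w)) (tb.pt t w)))).Pr
          (fR (Um v (t + 1)) i c d (gC tb v M q t w i c d A)) := by
    rw [hM.P]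
    exact ce_ev (pul_pt h tb ht) (fun u _ => XL_v4 hM hq hj i)
      (fun u hu hC => congrArg ind (propext (hgA u hu (Prod.mk.inj ((XL_v4 hM hq hj i).2 hC)).2)))
      (VH_ne J4)
  rw [← ce_NP (h := h) (A := A) hM.toRp hq hj ht hw hgA, ← e2] at k1
  refine k1.trans ?_
  have c8 : (2 : ℝ) ^ Fintype.card (Fin 3) = 8 := by rw [Fintype.card_fin]; norm_num
  rw [c8]
  have k2 := EP_le hn hN1 (Lam := Lam) h.pos H.alL hX i c d (add_nonneg hLC hX)
  have hL1 := H.Lam1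
  set cc := LC M q w
  set a := M.P.ce (fun u => (M.XL i q u, M.NP q u)) (fun u => ind (A u)) w
  have e1 : 8 * (1025 * SngA.EP (pr3 (Fin 3) n N1) al (Real.exp X1) i c d (cc + X1) + 1024 * a) ≤
      8 * (1025 * ((6 * (cc + X1 + 1) + 4 * (X1 + Lam + 1)) / N1) + 1024 * a) := by linarith
  refine e1.trans ?_
  have e4 : 8 * (1025 * ((6 * (cc + X1 + 1) + 4 * (X1 + Lam + 1)) / N1) + 1024 * a) =
      (8200 * (6 * (cc + X1 + 1) + 4 * (X1 + Lam + 1))) / N1 + 8192 * a := by ring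
  have e3 : 82000 / N1 * (X1 + Lam + 1 + cc) = (82000 * (X1 + Lam + 1 + cc)) / N1 := by ring
  rw [e4, e3]
  refine add_le_add (div_le_div_of_nonneg_right ?_ (by linarith)) le_rfl
  linarith

/-- **LINEAR RARITY ON THE SPACE WITH TABLES** -/
theorem linR (hn : 1 ≤ n) (hN1 : 1 ≤ N1) (R : Run h (pr3 (Fin 3) n N1) (SS1 (Fin 3)) (AdmDep D) v)
    (H : D.Hyp dg prr al T Lam) (hM : RpT tb v M) {X1 : ℝ} (hX : 0 ≤ X1) :
    LinR M T X1 (82000 / N1) (X1 + Lam + 1) 8192 := by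
  have hL1 := H.Lam1
  have hN0 : 0 < N1 := by linarith
  have hqd : ∀ {q : ℕ}, q % 5 ≤ 1 → q = 5 * (q / 5) + q % 5 := fun {q} _ => by omega
  refine ⟨fun i q A E h1 h2 hA hE w hw hpos => ?_, fun i q A E h1 h2 hA hAl hE w hw hpos => ?_,
    fun i q A h1 h2 hA w hw hal => ?_, fun i q A h1 h2 hA hAl w hw hal => ?_⟩
  · rw [hM.P] at hw
    have k := fD hn hN1 R H hM.toRp (hqd h1) h1 h2 i hA hE hw hpos
    refine k.trans (mul_le_mul_of_nonneg_left ?_ hpos.le)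
    have hl := log_nnE (P := M.P) (by rw [hM.P]; exact hw) hpos
    have hLC := LC_nn hn hN1 R hM.toRp (hqd h1) h1 (by omega) hw
    have ha : 0 ≤ M.P.ce (M.NP q) (fun u => ind (A u)) w := M.P.ce_nonneg (fun _ _ => ind_nonneg _) w
    refine add_le_add (mul_le_mul (div_le_div_of_nonneg_right (by norm_num) hN0.le) (by linarith) (by linarith)
      (by positivity)) (mul_le_mul_of_nonneg_right (by norm_num) ha)
  · rw [hM.P] at hw
    refine fC hn hN1 R H hM (hqd h1) h1 h2 i hA hX (fun u hu hAu k hk => hAl u ?_ hAu k hk) hE hw hpos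
    rw [hM.P]
    exact hu
  · rw [hM.P] at hw
    have k := bD hn hN1 R H hM (hqd h1) h1 h2 i hA hw hX hal
    refine k.trans ?_
    have hLC := LC_nn hn hN1 R hM.toRp (hqd h1) h1 (by omega) hw
    have ha : 0 ≤ M.P.ce (fun u => (CX M i q u, M.NP q u)) (fun u => ind (A u)) w :=
      M.P.ce_nonneg (fun _ _ => ind_nonneg _) w
    refine add_le_add (mul_le_mul (div_le_div_of_nonneg_right (by norm_num) hN0.le) (by linarith) (by linarith)
      (by positivity)) (mul_le_mul_of_nonneg_right (by norm_num) ha)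
  · rw [hM.P] at hw
    refine bC hn hN1 R H hM (hqd h1) h1 h2 i hA hX (fun u hu hAu k hk => hAl u ?_ hAu k hk) hw hal
    rw [hM.P]
    exact hu

end run

end

end Pool.Agent.GMH.SngL
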