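import Pool.Agent.GMH.SngL
import Pool.Agent.GMH.SngF2

/-!
# GMH/SngL2 (helper18): `Fre` on the space with tables (kind S, (E4))

* `fre_row` : inside the side letters with their top, the missing letter (`SngT.sgl_le`, `ratio_row`);
* `fre_col` : inside the letter, the side with its top (`top_let`, `top_dn`, `ratio_col`);
* **`fre`**.
-/

set_option autoImplicit false
set_option linter.unusedSectionVars false

namespace Pool.Agent.GMH.SngL

open Finset Pool.Agent.PWZ Pool.Agent.M3 Pool.Agent.GM Pool.Agent.GM.Harm Pool.Agent.GMH Pool.Agent.GMH.RarX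
open Pool.Agent.GMH.SngA Pool.Agent.GMH.SngF Pool.Agent.GMH.MV Pool.Agent.GMH.MVI Pool.Agent.GMH.Sng Pool.Agent.GMH.SngPt
open Pool.Agent.GMH.V3 Pool.Agent.GMH.TP Pool.Agent.GMH.Dy Pool.Agent.GMH.TD

noncomputable section

variable {X β γ φ : Type} [Fintype X] [Fintype β] [Fintype φ] [Nonempty X] [Nonempty β]
variable {D : HD (Fin 3) X β γ φ} {al : ℝ} {h : D.Thick al} {prr : ℕ → Fin 3 → φ → φ} {T : ℕ} {W : Type} [Fintype W]
variable {v : ℕ → Finset (Fin 3) → X → (Fin 3 → β) → Pt (Fin 3) X β φ} {tb : Tab D prr T W} {M : MS (Om W X β)}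
  {q t j : ℕ} {n N1 Lam : ℝ} {dg : ℕ → X → ℝ}

/-- number of the fresh relation -/
def eF0 (N1 Lam X1 e : ℝ) : ℝ := 10 ^ 8 / e ^ 2 * Real.sqrt ((X1 + Lam + 1) / N1)

theorem eF0_row {X1 e : ℝ} (hN1 : 1 ≤ N1) (hX : 0 ≤ X1) (hL : 1 ≤ Lam) (he : 0 < e) (he1 : e ≤ 1) :
    (2 + 4 / e) * (8 * Real.sqrt (2 * (2 * (2 * X1 + 1) / N1))) ≤ eF0 N1 Lam X1 e := by
  set y := (X1 + Lam + 1) / N1 with hy
  have hy0 : 0 ≤ y := by rw [hy]; positivity
  have h1 : 2 * (2 * (2 * X1 + 1) / N1) ≤ 9 * y := by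
    rw [hy, ← mul_div_assoc, ← mul_div_assoc, div_le_div_iff_of_pos_right (by linarith)]
    linarith
  have h2 : Real.sqrt (2 * (2 * (2 * X1 + 1) / N1)) ≤ 3 * Real.sqrt y := by
    refine (Real.sqrt_le_sqrt h1).trans (le_of_eq ?_)
    rw [Real.sqrt_mul (by norm_num), show (9 : ℝ) = 3 ^ 2 by norm_num, Real.sqrt_sq (by norm_num)]
  have h3 : (2 : ℝ) + 4 / e ≤ 6 / e ^ 2 := by
    rw [le_div_iff₀ (by positivity)]
    have h4 : (2 + 4 / e) * e ^ 2 = 2 * e ^ 2 + 4 * e := by field_simp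
    rw [h4]
    nlinarith
  have s0 := Real.sqrt_nonneg y
  have h5 : (2 + 4 / e) * (8 * Real.sqrt (2 * (2 * (2 * X1 + 1) / N1))) ≤ 6 / e ^ 2 * (8 * (3 * Real.sqrt y)) :=
    mul_le_mul h3 (by linarith) (by positivity) (by positivity)
  refine h5.trans ?_
  unfold eF0
  rw [← hy, show 6 / e ^ 2 * (8 * (3 * Real.sqrt y)) = 144 / e ^ 2 * Real.sqrt y by ring]
  exact mul_le_mul_of_nonneg_right (div_le_div_of_nonneg_right (by norm_num) (by positivity)) s0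

theorem eF0_col {X1 e : ℝ} (hN1 : 1 ≤ N1) (hX : 0 ≤ X1) (hL : 1 ≤ Lam) (he : 0 < e) (he1 : e ≤ 1) {p EPv kWv : ℝ}
    (hp1 : p ≤ 1) (hEP : EPv ≤ (6 * (2 * X1 + 1) + 4 * (X1 + Lam + 1)) / N1) (hkW : kWv ≤ 2 * (2 * X1 + 1) / N1)
    (hp : p ≤ 2 * (8 * (1025 * EPv + 8 * (8200 * kWv / (e / 3) ^ 2)))) : p ≤ eF0 N1 Lam X1 e := by
  set y := (X1 + Lam + 1) / N1 with hy
  have hy0 : 0 ≤ y := by rw [hy]; positivity
  have s0 := Real.sqrt_nonneg y
  have he2 : 0 < e ^ 2 := by positivity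
  have hc : (1 : ℝ) ≤ 10 ^ 8 / e ^ 2 := by
    rw [le_div_iff₀ he2]
    nlinarith
  unfold eF0
  rw [← hy]
  rcases le_total y 1 with h1 | h1
  · have h2 : y ≤ Real.sqrt y := by
      have h3 := Real.sqrt_le_one.2 h1
      have h4 := Real.mul_self_sqrt hy0
      nlinarith
    have h3 : EPv ≤ 16 * y := by
      refine hEP.trans ?_
      rw [hy, ← mul_div_assoc, div_le_div_iff_of_pos_right (by linarith)]
      linarith
    have h4 : kWv ≤ 4 * y := by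
      refine hkW.trans ?_
      rw [hy, ← mul_div_assoc, div_le_div_iff_of_pos_right (by linarith)]
      linarith
    have h5 : 8200 * kWv / (e / 3) ^ 2 ≤ 8200 * (4 * y) / (e / 3) ^ 2 :=
      div_le_div_of_nonneg_right (by linarith) (by positivity)
    have h6 : 8200 * (4 * y) / (e / 3) ^ 2 = 295200 * (y / e ^ 2) := by field_simp; ring
    have h7 : y ≤ y / e ^ 2 := by
      rw [le_div_iff₀ he2]
      exact mul_le_of_le_one_right hy0 (by nlinarith)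
    have h8 : p ≤ 40000000 * (y / e ^ 2) := by
      have h9 : 0 ≤ y / e ^ 2 := by positivity
      rw [h6] at h5
      linarith
    refine h8.trans ?_
    have h10 : 40000000 * (y / e ^ 2) = 40000000 / e ^ 2 * y := by ring
    rw [h10]
    exact mul_le_mul (div_le_div_of_nonneg_right (by norm_num) he2.le) h2 hy0 (by positivity)
  · have h2 : (1 : ℝ) ≤ Real.sqrt y := Real.one_le_sqrt.2 h1
    nlinarith

/-- **the row of the fresh relation** -/
theorem fre_row (hn : 1 ≤ n) (hN1 : 1 ≤ N1) (R : Run h (pr3 (Fin 3) n N1) (SS1 (Fin 3)) (AdmDep D) v)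
    (H : D.Hyp dg prr al T Lam) (hM : RpT tb v M) (hq : q = 5 * t + j) (hj : j ≤ 1) (hqT : q ≤ 5 * T) (i : Fin 3)
    {w : Om W X β} (hw : tb.Ps.p w ≠ 0) {X1 e : ℝ} (hX : 0 ≤ X1) (he : 0 < e) (he1 : e ≤ 1) (hLC : LC M q w ≤ X1)
    (hal : -X1 ≤ lf M (univ.erase i, {i}) q w) :
    M.P.ce (fun u => (CX M i q u, M.NP q u)) (fun u => ind (SA M X1 e i q u)) w ≤ eF0 N1 Lam X1 e := by
  have ht : t ≤ T := by omega
  have hp := (pul_pt h tb ht).ne hw
  obtain ⟨b, d, hbi, hbd, hid⟩ := oth2 i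
  have B := TriB.Bk_run hn hN1 R (b := b) (c := i) (d := d) hbi hbd hid t
  have J1 := V1q_ix (t := t) hn hN1 R (TP.nn q) hp
  have JT := VF_ix (L := {i}) B J1 (fun k hk => Finset.mem_singleton.1 hk)
  have JS := VF_ix (L := ∅) B J1 (fun k hk => absurd hk (Finset.notMem_empty k))
  obtain ⟨g1, g2⟩ := half_q H hq hj hqT
  have lT : LX h (Um v (t + 1)) t (univ.erase i) (tb.pt t w)
      (VF (Um v (t + 1)) i {i} (V1q D v t (TP.nn q) (tb.pt t w)) (tb.pt t w)) ≤ 2 * X1 :=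
    (LX_side_le hn hN1 R hM hq hj ht i hw hal).trans (by linarith)
  have lS : LX h (Um v (t + 1)) t (univ.erase i) (tb.pt t w)
      (VF (Um v (t + 1)) i ∅ (V1q D v t (TP.nn q) (tb.pt t w)) (tb.pt t w)) ≤ 2 * X1 :=
    (JT.LX_mono fun p hh => ⟨hh.1, hh.2.1, fun k hk => absurd hk (Finset.notMem_empty k)⟩).trans lT
  have k1 := sgl_le (t' := TP.nn q) g1 g2 B JT JS JT (fun k hk => Finset.mem_erase.2 ⟨hk, mem_univ k⟩)
    (Finset.notMem_erase i univ) lT lS lT he he1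
  rw [kI_eq] at k1
  have c8 : (2 : ℝ) ^ Fintype.card (Fin 3) = 8 := by rw [Fintype.card_fin]; norm_num
  rw [c8] at k1
  refine le_trans ?_ (k1.trans (eF0_row hN1 hX H.Lam1 he he1))
  rw [hM.P]
  refine ce_le (pul_pt h tb ht) (fun u hu => CX_vt hM hq hj ht i hu hw) (fun u hu hC hS => ?_) (VH_ne JT)
  have huw := (Prod.mk.inj ((CX_vt hM hq hj ht i hu hw).2 hC)).2
  have h1 := ps_psE (h := h) hM hq hj ht i hu huw
  have h2 := ratio_row (t' := TP.nn q) B J1 ((pul_pt h tb ht).ne hu) hC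
  have h3 : e ≤ |ps M i q u| := hS.1
  rw [h1, h2] at h3
  exact h3

/-- **the column of the fresh relation** -/
theorem fre_col (hn : 1 ≤ n) (hN1 : 1 ≤ N1) (R : Run h (pr3 (Fin 3) n N1) (SS1 (Fin 3)) (AdmDep D) v)
    (H : D.Hyp dg prr al T Lam) (hM : RpT tb v M) (hq : q = 5 * t + j) (hj : j ≤ 1) (hqT : q ≤ 5 * T) (i : Fin 3)
    {w : Om W X β} (hw : tb.Ps.p w ≠ 0) {X1 e : ℝ} (hX : 0 ≤ X1) (he : 0 < e) (he1 : e ≤ 1) (hLC : LC M q w ≤ X1)
    (hal : -X1 ≤ lf M ({i}, ∅) q w) :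
    M.P.ce (fun u => (M.XL i q u, M.NP q u)) (fun u => ind (SA M X1 e i q u)) w ≤ eF0 N1 Lam X1 e := by
  have ht : t ≤ T := by omega
  have hp := (pul_pt h tb ht).ne hw
  obtain ⟨c, d, hci, hcd, hid⟩ := oth2 i
  have B := TriB.Bk_run hn hN1 R (b := i) (c := c) (d := d) hci.symm hid hcd t
  have J1 := V1q_ix (t := t) hn hN1 R (TP.nn q) hp
  have J4 := V4_ix B J1
  obtain ⟨g1, g2⟩ := half_q H hq hj hqT
  have l1 : LX h (Um v (t + 1)) t ∅ (tb.pt t w) (V1q D v t (TP.nn q) (tb.pt t w)) ≤ 2 * X1 :=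
    (LX_LC hn hN1 R hM.toRp hq hj ht hw).trans (by linarith)
  have l4 : LX h (Um v (t + 1)) t {i} (tb.pt t w) (V4 (Um v (t + 1)) i (V1q D v t (TP.nn q) (tb.pt t w)) (tb.pt t w)) ≤
      2 * X1 := (LX_let_le hn hN1 R hM hq hj ht i hw hal).trans (by linarith)
  have hx0 : 0 < e / 3 := by linarith
  have hx1 : e / 3 ≤ 1 := by linarith
  have h41 : ∀ p, V4 (Um v (t + 1)) i (V1q D v t (TP.nn q) (tb.pt t w)) (tb.pt t w) p →
      V1q D v t (TP.nn q) (tb.pt t w) p := fun p hh => hh.1.1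
  have ku := top_let (Typ := Ty h v t (V1q D v t (TP.nn q) (tb.pt t w)) d X1) (M := Real.exp X1) g1 g2 B J1 J4 h41 l1 l4
    (Real.exp_pos X1).le (Ty_card _ d X1) hx0 hx1
  have kd := top_dn (Typ := Ty h v t (V1q D v t (TP.nn q) (tb.pt t w)) d X1) (M := Real.exp X1) g1 g2 B J1 J4 h41 l1 l4
    (Real.exp_pos X1).le (Ty_card _ d X1) hx0 hx1
  have c8 : (2 : ℝ) ^ Fintype.card (Fin 3) = 8 := by rw [Fintype.card_fin]; norm_num
  rw [c8] at ku kd
  have hone : M.P.ce (fun u => (M.XL i q u, M.NP q u)) (fun u => ind (SA M X1 e i q u)) w ≤ 1 :=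
    M.P.ce_le_const (fun _ _ => ind_le_one _) (by rw [hM.P]; exact hw)
  refine eF0_col hN1 hX H.Lam1 he he1 hone
    (EP_le hn hN1 (Lam := Lam) h.pos H.alL hX i c d (L := 2 * X1) (by linarith))
    (kW_le hn hN1 i (L := 2 * X1) (by linarith)) ?_
  have hsub : M.P.ce (fun u => (M.XL i q u, M.NP q u)) (fun u => ind (SA M X1 e i q u)) w ≤
      ((D.P h t).cond (VH D (TP.nn q) univ (tb.pt t w)
        (V4 (Um v (t + 1)) i (V1q D v t (TP.nn q) (tb.pt t w)) (tb.pt t w)))).Pr (fun p =>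
        (Ty h v t (V1q D v t (TP.nn q) (tb.pt t w)) d X1 (p.2.1 d) (Um v (t + 1) {d} p.1 p.2.1) ∧
          Real.exp (3 * (e / 3)) * ((D.P h t).cond (fun p => V1q D v t (TP.nn q) (tb.pt t w) p ∧
            p.2.1 i = (tb.pt t w).2.1 i)).pv (Zf2 (Um v (t + 1)) c d) (Wb2 i) p (p.2.2 i) ≤
          ((D.P h t).cond (V4 (Um v (t + 1)) i (V1q D v t (TP.nn q) (tb.pt t w)) (tb.pt t w))).pv
            (Zf2 (Um v (t + 1)) c d) (Wb2 i) p (p.2.2 i)) ∨
        (Ty h v t (V1q D v t (TP.nn q) (tb.pt t w)) d X1 (p.2.1 d) (Um v (t + 1) {d} p.1 p.2.1) ∧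
          Real.exp (3 * (e / 3)) * ((D.P h t).cond (V4 (Um v (t + 1)) i (V1q D v t (TP.nn q) (tb.pt t w))
            (tb.pt t w))).pv (Zf2 (Um v (t + 1)) c d) (Wb2 i) p (p.2.2 i) ≤
          ((D.P h t).cond (fun p => V1q D v t (TP.nn q) (tb.pt t w) p ∧
            p.2.1 i = (tb.pt t w).2.1 i)).pv (Zf2 (Um v (t + 1)) c d) (Wb2 i) p (p.2.2 i))) := by
    rw [hM.P]
    refine ce_le (pul_pt h tb ht) (fun u _ => XL_v4 hM hq hj i) (fun u hu hC hS => ?_) (VH_ne J4)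
    have huw := (Prod.mk.inj ((XL_v4 hM hq hj i).2 hC)).2
    have hty := Ty_of (h := h) hn hN1 R hM hq hj ht hu huw (hS.2.1 d)
    have h1 := ps_psE (h := h) hM hq hj ht i hu huw
    have hpu := (pul_pt h tb ht).ne hu
    have h2 := ratio_col B J1 hpu hC.1
    have h3 : e ≤ |ps M i q u| := hS.1
    rw [h1] at h3
    have e3 : 3 * (e / 3) = e := by ring
    rw [e3]
    have n1 : 0 ≤ ((D.P h t).cond (fun p => V1q D v t (TP.nn q) (tb.pt t w) p ∧
            p.2.1 i = (tb.pt t w).2.1 i)).pv (Zf2 (Um v (t + 1)) c d) (Wb2 i) (tb.pt t u) ((tb.pt t u).2.2 i) :=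
      FP.pv_nonneg _ _ _ _ _
    rcases le_abs.1 h3 with h4 | h4
    · left
      refine ⟨hty, ?_⟩
      rw [← h2]
      exact mul_le_mul_of_nonneg_right (Real.exp_le_exp.2 h4) n1
    · right
      refine ⟨hty, ?_⟩
      rw [← h2, ← mul_assoc, ← Real.exp_add]
      have h5 : Real.exp (e + psE h (Um v (t + 1)) t (V1q D v t (TP.nn q) (tb.pt t w)) i (tb.pt t u)) ≤ 1 :=
        Real.exp_le_one_iff.2 (by linarith)
      exact mul_le_of_le_one_left n1 h5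
  refine hsub.trans ((FP.Pr_or_le _ _ _).trans ?_)
  linarith

/-- **THE FRESH RELATION ON THE SPACE WITH TABLES** -/
theorem fre (hn : 1 ≤ n) (hN1 : 1 ≤ N1) (R : Run h (pr3 (Fin 3) n N1) (SS1 (Fin 3)) (AdmDep D) v)
    (H : D.Hyp dg prr al T Lam) (hM : RpT tb v M) {X1 e : ℝ} (hX : 0 ≤ X1) (he : 0 < e) (he1 : e ≤ 1) :
    Fre M T X1 e (eF0 N1 Lam X1 e) := by
  have hqd : ∀ {q : ℕ}, q % 5 = 1 → q = 5 * (q / 5) + 1 := fun {q} _ => by omega
  refine ⟨fun i q w hw h1 h2 hLC hal => ?_, fun i q w hw h1 h2 hLC hal => ?_⟩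
  · rw [hM.P] at hw
    exact fre_row hn hN1 R H hM (hqd h1) le_rfl h2.le i hw hX he he1 hLC hal
  · rw [hM.P] at hw
    exact fre_col hn hN1 R H hM (hqd h1) le_rfl h2.le i hw hX he he1 hLC hal

end

end Pool.Agent.GMH.SngL
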