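import Pool.Agent.GMH.ConEF
import Pool.Agent.GMH.TDP

/-!
# GMH/SngNum (helper14): THE NUMBERS OF KIND S AT THE EXPENSIVE PUBLIC REMOVALS

`n = x^c0`, `N1 = x^N`, `N = c1F A c0`; parameters: `xS = x^(-(9 c0 + kx))` (threshold of the covers), `p1S = x^(-12 c0)` (exact
masses of the relation), `MsS = ⌈exp (5 pQ)⌉` (number of the samples), `ccS = X1 + log (2 MsS)`, `L0S = N1 / n^6`.
Data of the run: `a N1 ≤ n^2`, `b ≤ n^5`, `c ≤ n^2`, `X1 ≤ n^5`, `e0 ≤ n^(-40)`, number of the epochs `≤ 1 + exp (4 pQ)`.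
* `num_c` : the conditions of `SngC.Num`; `red_c` : the conditions of `red`;
* `cov_num` : the right side of `cov_sum`; `red_num` : the error terms of `red`; `SE_le` : number of the expensive removals.
-/

set_option autoImplicit false
set_option linter.unusedSectionVars false
set_option linter.unusedVariables false

namespace Pool.Agent.GMH.SngN

open Pool.Agent.GMH Pool.Agent.GMH.V3 Pool.Agent.GMH.CT Pool.Agent.GMH.CTM Pool.Agent.GMH.MVN

noncomputable section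

/-- threshold of the covers -/
def xS (Lam : ℝ) (c0 kx : ℕ) : ℝ := ix Lam (9 * c0 + kx)

/-- exact masses of the relation -/
def p1S (Lam : ℝ) (c0 : ℕ) : ℝ := ix Lam (12 * c0)

/-- number of the samples -/
def MsS (Lam : ℝ) (c0 : ℕ) : ℕ := ⌈Real.exp (5 * pQ Lam c0)⌉₊

/-- log of the number of the guesses -/
def ccS (Lam : ℝ) (c0 : ℕ) (X1 : ℝ) : ℝ := X1 + Real.log (2 * MsS Lam c0)

/-- threshold of the expensive values -/
def L0S (Lam : ℝ) (A c0 : ℕ) : ℝ := pw Lam (c1F A c0) * ix Lam (6 * c0)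

section pt

variable {Lam : ℝ} (hL : 2 ≤ Lam)

include hL

/-- a natural number is at most a small power -/
theorem nat16 (N : ℕ) : (N : ℝ) ≤ pw Lam (N / 16 + 3) := by
  have h1 : N ≤ 16 * (N / 16 + 1) := by omega
  have h2 : (N : ℝ) ≤ 16 * ((N / 16 + 1 : ℕ) : ℝ) := by exact_mod_cast h1
  refine h2.trans ?_
  have h3 := mul_pw hL (Nat.cast_nonneg (N / 16 + 1)) (CT.cst hL 2 (c := 16) (by norm_num)) (nat_le hL (N / 16 + 1))
  refine h3.trans (CT.pw_mono hL (by omega))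

theorem x_pw : 2 * Lam ≤ pw Lam 1 := by rw [pw_one']

/-- exponentials against powers -/
theorem exp_ix {k : ℕ} {y : ℝ} (h : (k : ℝ) * (2 * Lam) ≤ y) : Real.exp (-y) ≤ ix Lam k := by
  have h1 := Fn.expneg (show (4 : ℝ) ≤ 2 * Lam by linarith) k h
  unfold ix
  rw [ipz]
  exact h1

variable {A c0 kx K : ℕ} (hA : 80 ≤ A)

/-- the bound of `a` -/
theorem a_le {a : ℝ} (ha : a * pw Lam (c1F A c0) ≤ pw Lam (2 * c0)) (hN : 2 * c0 ≤ c1F A c0) :
    a ≤ ix Lam (c1F A c0 - 2 * c0) := by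
  have h1 := CT.pw_pos hL (c1F A c0)
  have h2 : a = a * pw Lam (c1F A c0) * ix Lam (c1F A c0) := by
    rw [mul_assoc, pw_ix hL, mul_one]
  rw [h2]
  exact CT.fin hL ha (by omega)

include hA

/-- `lam` is large -/
theorem lam_ge {a : ℝ} (ha0 : 0 < a) (ha : a * pw Lam (c1F A c0) ≤ pw Lam (2 * c0)) (hc : kx + K + 200 ≤ c0) :
    pw Lam (c1F A c0 - 11 * c0 - kx - 5) ≤ xS Lam c0 kx / (768 * a) := by
  have hN := c1_big (c0 := c0) hA
  have h1 := a_le hL ha (by omega)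
  rw [le_div_iff₀ (by positivity)]
  have h2 : 768 * a ≤ ix Lam (c1F A c0 - 2 * c0 - 5) := by
    have h3 := cst_ix hL (c := 768) (j := 5) (s := c1F A c0 - 2 * c0 - 5) (by norm_num)
    rw [show 5 + (c1F A c0 - 2 * c0 - 5) = c1F A c0 - 2 * c0 by omega] at h3
    linarith
  refine (mul_le_mul_of_nonneg_left h2 (CT.pw_pos hL _).le).trans ?_
  exact CT.fin hL le_rfl (by omega)

theorem lam_big {a : ℝ} (ha0 : 0 < a) (ha : a * pw Lam (c1F A c0) ≤ pw Lam (2 * c0)) (hc : kx + K + 200 ≤ c0) :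
    ((10 * c1F A c0 : ℕ) : ℝ) * (2 * Lam) ≤ xS Lam c0 kx / (768 * a) / 2 := by
  have hN := c1_big (c0 := c0) hA
  have h1 := lam_ge hL hA (K := K) ha0 ha hc
  have h2 := mul_pw hL (show (0 : ℝ) ≤ 2 * Lam by linarith)
    (mul_pw hL (Nat.cast_nonneg (c1F A c0)) (CT.cst hL 3 (c := 20) (by norm_num)) (nat16 hL (c1F A c0))) (x_pw hL)
  have h3 := CT.pw_mono hL (show 3 + (c1F A c0 / 16 + 3) + 1 ≤ c1F A c0 - 11 * c0 - kx - 5 by omega)
  push_cast
  linarith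

theorem lam_Q {a : ℝ} (ha0 : 0 < a) (ha : a * pw Lam (c1F A c0) ≤ pw Lam (2 * c0)) (hc : kx + K + 200 ≤ c0) :
    4 * pQ Lam c0 ≤ xS Lam c0 kx / (768 * a) := by
  have hN := c1_big (c0 := c0) hA
  refine le_trans ?_ (lam_ge hL hA (K := K) ha0 ha hc)
  have h1 := mul_pw hL (CT.pw_pos hL (8 * c0)).le (CT.cst hL 1 (c := 4) (by norm_num)) le_rfl
  unfold pQ
  exact h1.trans (CT.pw_mono hL (by omega))

theorem exp_lam {a : ℝ} (ha0 : 0 < a) (ha : a * pw Lam (c1F A c0) ≤ pw Lam (2 * c0)) (hc : kx + K + 200 ≤ c0) :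
    Real.exp (-(xS Lam c0 kx / (768 * a) / 2)) ≤ ix Lam (10 * c1F A c0) :=
  exp_ix hL (lam_big hL hA (K := K) ha0 ha hc)

/-- the hypothesis of `lc_tiny`, `le_sum` -/
theorem exp64 {a : ℝ} (ha0 : 0 < a) (ha : a * pw Lam (c1F A c0) ≤ pw Lam (2 * c0)) (hc : kx + K + 200 ≤ c0) :
    64 * Real.exp (-(xS Lam c0 kx / (768 * a) / 2)) ≤ 1 ∧ 64 * Real.exp (-(xS Lam c0 kx / (768 * a))) ≤ 1 := by
  have hN := c1_big (c0 := c0) hA
  have h1 := exp_lam hL hA (K := K) ha0 ha hc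
  have h2 := cst_ix hL (c := 64) (j := 3) (s := 0) (by norm_num)
  rw [ix_zero] at h2
  have h3 := ix_anti hL (show 3 + 0 ≤ 10 * c1F A c0 by omega)
  have h4 : 0 < xS Lam c0 kx / (768 * a) := div_pos (ix_pos hL _) (by positivity)
  have h5 : Real.exp (-(xS Lam c0 kx / (768 * a))) ≤ Real.exp (-(xS Lam c0 kx / (768 * a) / 2)) :=
    Real.exp_le_exp.2 (by linarith)
  exact ⟨by linarith, by linarith⟩

omit hA in
theorem big80 (hc : 200 ≤ c0) : ((80 * c0 : ℕ) : ℝ) * (2 * Lam) ≤ pw Lam (8 * c0) / 4 := by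
  have h1 := mul_pw hL (show (0 : ℝ) ≤ 2 * Lam by linarith)
    (mul_pw hL (Nat.cast_nonneg c0) (CT.cst hL 5 (c := 320) (by norm_num)) (nat_le hL c0)) (x_pw hL)
  have h2 := CT.pw_mono hL (show 5 + c0 + 1 ≤ 8 * c0 by omega)
  push_cast
  linarith

omit hA in
theorem exp_Q4 (hc : 200 ≤ c0) : Real.exp (-(pw Lam (8 * c0) / 4)) ≤ ix Lam (80 * c0) := exp_ix hL (big80 hL hc)

omit hA in
theorem d0_le80 (hc : 200 ≤ c0) : d0 Lam c0 ≤ ix Lam (80 * c0) := by
  unfold d0 pQ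
  refine le_trans (Real.exp_le_exp.2 ?_) (exp_Q4 hL hc)
  have := CT.pw_pos hL (8 * c0)
  linarith

omit hA in
theorem MsS_ge : Real.exp (5 * pQ Lam c0) ≤ (MsS Lam c0 : ℝ) := Nat.le_ceil _

omit hA in
theorem MsS_pos : (0 : ℝ) < (MsS Lam c0 : ℝ) := (Real.exp_pos _).trans_le (MsS_ge hL)

omit hA in
theorem MsS_le : (MsS Lam c0 : ℝ) ≤ 2 * Real.exp (5 * pQ Lam c0) := by
  have h1 := (Nat.ceil_lt_add_one (Real.exp_pos (5 * pQ Lam c0)).le).le
  have h2 : (1 : ℝ) ≤ Real.exp (5 * pQ Lam c0) := Real.one_le_exp (by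
    have := CT.pw_pos hL (8 * c0)
    unfold pQ
    linarith)
  unfold MsS
  linarith

omit hA in
theorem log_Ms : Real.log (2 * MsS Lam c0) ≤ pw Lam (8 * c0 + 2) := by
  have h0 := MsS_pos (c0 := c0) hL
  have h1 : 2 * (MsS Lam c0 : ℝ) ≤ 4 * Real.exp (5 * pQ Lam c0) := by
    have := MsS_le (c0 := c0) hL
    linarith
  have h2 := Real.log_le_log (by positivity) h1
  rw [Real.log_mul (by norm_num) (Real.exp_pos _).ne', Real.log_exp] at h2
  have h3 : Real.log 4 ≤ 3 := by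
    have := Real.log_le_sub_one_of_pos (show (0 : ℝ) < 4 by norm_num)
    linarith
  have h4 := pw_ge1 hL (8 * c0)
  have h5 : pw Lam (8 * c0 + 2) = pw Lam (8 * c0) * pw Lam 2 := CT.pw_add _ _ _
  have h6 := pw_ge hL 2
  have h7 := mul_le_mul_of_nonneg_left h6 (CT.pw_pos hL (8 * c0)).le
  rw [h5]
  unfold pQ at h2
  linarith

/-- **the conditions of `Num`** -/
theorem num_c (hc : kx + K + 200 ≤ c0) {a b c X1 : ℝ} (ha0 : 0 < a)
    (ha : a * pw Lam (c1F A c0) ≤ pw Lam (2 * c0)) (hb : b ≤ pw Lam (5 * c0)) (hc0 : 0 ≤ c) (hc1 : c ≤ pw Lam (2 * c0))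
    (hX : X1 ≤ pw Lam (5 * c0)) :
    b + 1 ≤ xS Lam c0 kx / (32 * (24 * a)) ∧
    8 * (24 * a * ccS Lam c0 X1 + 8 * c * (2 * p1S Lam c0 + 3 * d0 Lam c0)) ≤ xS Lam c0 kx ∧
    (MsS Lam c0 : ℝ) * (Real.exp X1 * Real.exp (-ccS Lam c0 X1)) ≤ 1 / 2 ∧ X1 + 4 * d0 Lam c0 ≤ X1 + 1 := by
  have hN := c1_big (c0 := c0) hA
  have hM := MsS_pos (c0 := c0) hL
  have hd := d0_le80 hL (c0 := c0) (by omega)
  have hd0 : 0 < d0 Lam c0 := Real.exp_pos _
  refine ⟨?_, ?_, ?_, ?_⟩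
  · have e : 32 * (24 * a) = 768 * a := by ring
    rw [e]
    refine le_trans ?_ (lam_ge hL hA (K := K) ha0 ha hc)
    refine (add_pw hL hb (pw_ge1 hL _)).trans (CT.pw_mono hL (by omega))
  · have h1 : ccS Lam c0 X1 ≤ pw Lam (8 * c0 + 3) := by
      unfold ccS
      exact add_pw hL (hX.trans (CT.pw_mono hL (by omega))) (log_Ms hL)
    have h2 : 24 * a * ccS Lam c0 X1 ≤ ix Lam (9 * c0 + kx + 3) := by
      have h3 := a_le hL ha (by omega)
      have h4 : 0 ≤ 24 * a := by positivity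
      calc 24 * a * ccS Lam c0 X1 ≤ 24 * a * pw Lam (8 * c0 + 3) := mul_le_mul_of_nonneg_left h1 h4
        _ ≤ 24 * ix Lam (c1F A c0 - 2 * c0) * pw Lam (8 * c0 + 3) :=
            mul_le_mul_of_nonneg_right (mul_le_mul_of_nonneg_left h3 (by norm_num)) (CT.pw_pos hL _).le
        _ = 24 * pw Lam (8 * c0 + 3) * ix Lam (c1F A c0 - 2 * c0) := by ring
        _ ≤ _ := fin2 hL (CT.pw_pos hL _).le (CT.cst hL 3 (c := 24) (by norm_num)) le_rfl (by omega)
    have h3 : 8 * c * (2 * p1S Lam c0 + 3 * d0 Lam c0) ≤ ix Lam (9 * c0 + kx + 3) := by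
      have h4 : d0 Lam c0 ≤ p1S Lam c0 := hd.trans (ix_anti hL (by omega))
      have h5 : 8 * c * (2 * p1S Lam c0 + 3 * d0 Lam c0) ≤ 8 * c * (5 * p1S Lam c0) :=
        mul_le_mul_of_nonneg_left (by linarith) (by positivity)
      refine h5.trans ?_
      have h6 : 8 * c * (5 * p1S Lam c0) = 40 * c * ix Lam (12 * c0) := by
        unfold p1S
        ring
      rw [h6]
      exact fin2 hL hc0 (CT.cst hL 3 (c := 40) (by norm_num)) hc1 (by omega)
    have h4 := cst_ix hL (c := 16) (j := 3) (s := 9 * c0 + kx) (by norm_num)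
    rw [show 3 + (9 * c0 + kx) = 9 * c0 + kx + 3 by omega] at h4
    unfold xS
    linarith
  · unfold ccS
    rw [neg_add, Real.exp_add, ← mul_assoc (Real.exp X1), ← Real.exp_add, add_neg_cancel, Real.exp_zero, one_mul,
      Real.exp_neg, Real.exp_log (by positivity)]
    rw [mul_inv, ← mul_assoc, mul_comm (MsS Lam c0 : ℝ), mul_assoc, mul_inv_cancel₀ hM.ne']
    norm_num
  · have h1 : 4 * ix Lam (80 * c0) ≤ 1 := by
      have h2 := cst_ix hL (c := 4) (j := 1) (s := 0) (by norm_num)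
      rw [ix_zero] at h2
      have h3 := ix_anti hL (show 1 + 0 ≤ 80 * c0 by omega)
      linarith
    linarith

omit hA in
theorem L0_pos : 0 < L0S Lam A c0 := mul_pos (CT.pw_pos hL _) (ix_pos hL _)

theorem L0_ge (hc : 1 ≤ c0) : 4 ≤ L0S Lam A c0 := by
  have hN := c1_big (c0 := c0) hA
  unfold L0S
  have h1 : pw Lam (c1F A c0) = pw Lam (6 * c0) * pw Lam (c1F A c0 - 6 * c0) := by
    rw [← CT.pw_add]
    congr 1
    omega
  rw [h1, mul_right_comm, pw_ix hL, one_mul]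
  have h2 := pw_ge hL 1
  have h3 := CT.pw_mono hL (show 1 ≤ c1F A c0 - 6 * c0 by omega)
  linarith

theorem L0_log (hc : 1 ≤ c0) : Real.log 2 < L0S Lam A c0 := by
  have h1 := L0_ge hL hA hc
  have h2 := Real.log_two_lt_d9
  linarith

omit hA in
/-- **the number of the expensive removals** -/
theorem SE_le : 3 * (pw Lam c0 * pw Lam (c1F A c0) * Lam) / L0S Lam A c0 ≤ pw Lam (7 * c0 + 3) := by
  have h0 := L0_pos (A := A) (c0 := c0) hL
  have hLam : (0 : ℝ) ≤ Lam := by linarith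
  rw [div_le_iff₀ h0]
  unfold L0S
  have h1 : pw Lam (7 * c0 + 3) = pw Lam c0 * pw Lam (6 * c0) * pw Lam 3 := by
    rw [← CT.pw_add, ← CT.pw_add]
    congr 1
    omega
  rw [h1]
  have h2 : pw Lam c0 * pw Lam (6 * c0) * pw Lam 3 * (pw Lam (c1F A c0) * ix Lam (6 * c0)) =
      pw Lam 3 * (pw Lam c0 * pw Lam (c1F A c0)) * (pw Lam (6 * c0) * ix Lam (6 * c0)) := by ring
  rw [h2, pw_ix hL, mul_one]
  have h3 : 3 * Lam ≤ pw Lam 3 := by
    have h4 := cLam hL (c := 3) 1 (by norm_num)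
    exact h4.trans (CT.pw_mono hL (by omega))
  have h4 : 0 ≤ pw Lam c0 * pw Lam (c1F A c0) := mul_nonneg (CT.pw_pos hL _).le (CT.pw_pos hL _).le
  have h5 := mul_le_mul_of_nonneg_right h3 h4
  linarith

/-- tiny probabilities -/
theorem TnB_le {y : ℝ} (hy : y ≤ ix Lam (10 * c1F A c0)) (hc : kx + K + 200 ≤ c0) {c : ℝ} (hc1 : 0 ≤ c) (hc2 : c ≤ 4 ^ 6) :
    c * TD.TnB (pw Lam c0) (pw Lam (c1F A c0)) Lam y ≤ ix Lam (K + 3) := by
  have hN := c1_big (c0 := c0) hA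
  have hLam : (0 : ℝ) ≤ Lam := by linarith
  have h1 : TD.TnB (pw Lam c0) (pw Lam (c1F A c0)) Lam y ≤
      4096 * pw Lam c0 * pw Lam (c1F A c0) * Lam * ix Lam (10 * c1F A c0) := by
    unfold TD.TnB
    have h2 : 0 ≤ 4096 * pw Lam c0 * pw Lam (c1F A c0) * Lam := by
      have := CT.pw_pos hL c0
      have := CT.pw_pos hL (c1F A c0)
      positivity
    have h3 := mul_le_mul_of_nonneg_left hy h2
    linarith
  have h2 := mul_le_mul_of_nonneg_left h1 hc1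
  refine h2.trans ?_
  have h3 : c * (4096 * pw Lam c0 * pw Lam (c1F A c0) * Lam * ix Lam (10 * c1F A c0)) =
      c * 4096 * pw Lam c0 * pw Lam (c1F A c0) * Lam * ix Lam (10 * c1F A c0) := by ring
  rw [h3]
  have h4 : c * 4096 ≤ 4 ^ 12 := by
    have := mul_le_mul_of_nonneg_right hc2 (show (0 : ℝ) ≤ 4096 by norm_num)
    norm_num at this ⊢
    linarith
  exact fin4 hL (CT.pw_pos hL _).le (CT.pw_pos hL _).le hLam (CT.cst hL 12 h4) le_rfl le_rfl (Lam_le hL) (by omega)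

/-- **the right side of `cov_sum`** -/
theorem cov_num (hc : kx + K + 200 ≤ c0) {a SE NS : ℝ} (ha0 : 0 < a)
    (ha : a * pw Lam (c1F A c0) ≤ pw Lam (2 * c0)) (hSE0 : 0 ≤ SE) (hSE : SE ≤ pw Lam (7 * c0 + 3))
    (hN00 : 0 ≤ NS) (hN0 : NS ≤ 1 + Real.exp (4 * pQ Lam c0)) :
    xS Lam c0 kx / 2 * SE + 2304 * xS Lam c0 kx * a * (6 * (pw Lam c0 * pw Lam (c1F A c0) * Lam) +
      3 * ((xS Lam c0 kx / (768 * a) / 2 + 3) * TD.TnB (pw Lam c0) (pw Lam (c1F A c0)) Lam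
        (Real.exp (-(xS Lam c0 kx / (768 * a) / 2))))) +
      ((16 * xS Lam c0 kx + 2) * Real.exp (-(xS Lam c0 kx / (384 * a))) + 6 / (xS Lam c0 kx * (MsS Lam c0 + 1))) * NS +
      2 * TD.TnB (pw Lam c0) (pw Lam (c1F A c0)) Lam (Real.exp (-(xS Lam c0 kx / (768 * a)))) ≤ ix Lam K := by
  have hN := c1_big (c0 := c0) hA
  have hLam : (0 : ℝ) ≤ Lam := by linarith
  have hx0 : 0 < xS Lam c0 kx := ix_pos hL _
  have hx1 : xS Lam c0 kx ≤ 1 := ix_le_one hL _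
  have hE := exp_lam hL hA (K := K) ha0 ha hc
  have hQ := lam_Q hL hA (K := K) ha0 ha hc
  have haN := a_le hL ha (by omega)
  have hlam0 : 0 < xS Lam c0 kx / (768 * a) := by positivity
  obtain ⟨lam, hlam⟩ : ∃ lam, lam = xS Lam c0 kx / (768 * a) := ⟨_, rfl⟩
  have e2 : xS Lam c0 kx / (384 * a) = 2 * lam := by
    rw [hlam]
    field_simp
    ring
  rw [← hlam] at hE hlam0 hQ
  have he1 : Real.exp (-lam) ≤ ix Lam (10 * c1F A c0) := le_trans (Real.exp_le_exp.2 (by linarith)) hE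
  rw [e2, ← hlam]
  have hNS2 : NS ≤ 2 * Real.exp (4 * pQ Lam c0) := by
    have h1 : (1 : ℝ) ≤ Real.exp (4 * pQ Lam c0) := Real.one_le_exp (by
      have := CT.pw_pos hL (8 * c0)
      unfold pQ
      linarith)
    linarith
  have hT0 : ∀ y : ℝ, 0 ≤ y → 0 ≤ TD.TnB (pw Lam c0) (pw Lam (c1F A c0)) Lam y := by
    intro y hy
    unfold TD.TnB
    have := CT.pw_pos hL c0
    have := CT.pw_pos hL (c1F A c0)
    positivity
  -- the pieces
  have p1 : xS Lam c0 kx / 2 * SE ≤ ix Lam (K + 3) := by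
    have h1 : xS Lam c0 kx / 2 * SE ≤ SE * ix Lam (9 * c0 + kx) := by
      unfold xS at hx0 ⊢
      nlinarith [mul_nonneg hx0.le hSE0]
    exact h1.trans (CT.fin hL hSE (by omega))
  have p2 : 2304 * xS Lam c0 kx * a * (6 * (pw Lam c0 * pw Lam (c1F A c0) * Lam)) ≤ ix Lam (K + 3) := by
    have e : 2304 * xS Lam c0 kx * a * (6 * (pw Lam c0 * pw Lam (c1F A c0) * Lam)) =
        13824 * (a * pw Lam (c1F A c0)) * pw Lam c0 * Lam * ix Lam (9 * c0 + kx) := by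
      unfold xS
      ring
    rw [e]
    exact fin4 hL (mul_nonneg ha0.le (CT.pw_pos hL _).le) (CT.pw_pos hL _).le hLam
      (CT.cst hL 7 (c := 13824) (by norm_num)) ha le_rfl (Lam_le hL) (by omega)
  have p3 : 2304 * xS Lam c0 kx * a * (3 * ((lam / 2 + 3) * TD.TnB (pw Lam c0) (pw Lam (c1F A c0)) Lam
      (Real.exp (-(lam / 2))))) ≤ ix Lam (K + 3) := by
    have h1 : a * (lam / 2 + 3) ≤ 1 / 4 := by
      have h2 : a * lam = xS Lam c0 kx / 768 := by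
        rw [hlam]
        field_simp
      have h3 := cst_ix hL (c := 216) (j := 4) (s := 0) (by norm_num)
      rw [ix_zero] at h3
      have h4 := ix_anti hL (show 4 + 0 ≤ c1F A c0 - 2 * c0 by omega)
      nlinarith
    have h2 := hT0 _ (Real.exp_pos (-(lam / 2))).le
    have h3 : 2304 * xS Lam c0 kx * a * (3 * ((lam / 2 + 3) * TD.TnB (pw Lam c0) (pw Lam (c1F A c0)) Lam
        (Real.exp (-(lam / 2))))) = (6912 * xS Lam c0 kx) * (a * (lam / 2 + 3)) *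
        TD.TnB (pw Lam c0) (pw Lam (c1F A c0)) Lam (Real.exp (-(lam / 2))) := by ring
    rw [h3]
    have h4 : (6912 * xS Lam c0 kx) * (a * (lam / 2 + 3)) ≤ 1728 := by
      have h5 : 0 ≤ a * (lam / 2 + 3) := by positivity
      have h6 : 6912 * xS Lam c0 kx ≤ 6912 := by linarith
      calc _ ≤ 6912 * (a * (lam / 2 + 3)) := mul_le_mul_of_nonneg_right h6 h5
        _ ≤ 1728 := by linarith
    refine (mul_le_mul_of_nonneg_right h4 h2).trans ?_
    exact TnB_le hL hA hE hc (by norm_num) (by norm_num)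
  have p4 : (16 * xS Lam c0 kx + 2) * Real.exp (-(2 * lam)) * NS ≤ ix Lam (K + 3) := by
    have h1 : (16 * xS Lam c0 kx + 2) * Real.exp (-(2 * lam)) * NS ≤
        18 * Real.exp (-(2 * lam)) * (2 * Real.exp (4 * pQ Lam c0)) :=
      mul_le_mul (mul_le_mul_of_nonneg_right (by linarith) (Real.exp_pos _).le) hNS2 hN00
        (mul_nonneg (by norm_num) (Real.exp_pos _).le)
    have h2 : 18 * Real.exp (-(2 * lam)) * (2 * Real.exp (4 * pQ Lam c0)) = 36 * Real.exp (-(2 * lam) + 4 * pQ Lam c0) := by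
      rw [Real.exp_add]
      ring
    have h3 : Real.exp (-(2 * lam) + 4 * pQ Lam c0) ≤ ix Lam (10 * c1F A c0) :=
      le_trans (Real.exp_le_exp.2 (by linarith)) he1
    rw [h2] at h1
    have h4 : 36 * ix Lam (10 * c1F A c0) ≤ ix Lam (K + 3) :=
      CT.fin hL (CT.cst hL 3 (c := 36) (by norm_num)) (by omega)
    linarith
  have p5 : 2 * TD.TnB (pw Lam c0) (pw Lam (c1F A c0)) Lam (Real.exp (-lam)) ≤ ix Lam (K + 3) :=
    TnB_le hL hA he1 hc (by norm_num) (by norm_num)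
  have p6 : 6 / (xS Lam c0 kx * (MsS Lam c0 + 1)) * NS ≤ ix Lam (K + 3) := by
    have h1 := MsS_ge (c0 := c0) hL
    have h2 : 1 / ((MsS Lam c0 : ℝ) + 1) ≤ Real.exp (-(5 * pQ Lam c0)) := by
      rw [Real.exp_neg, one_div]
      exact inv_anti₀ (Real.exp_pos _) (by linarith)
    have h3 : 6 / (xS Lam c0 kx * (MsS Lam c0 + 1)) * NS =
        6 * pw Lam (9 * c0 + kx) * NS * (1 / ((MsS Lam c0 : ℝ) + 1)) := by
      have h4 : xS Lam c0 kx = (pw Lam (9 * c0 + kx))⁻¹ := rfl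
      have h5 := CT.pw_pos hL (9 * c0 + kx)
      rw [h4]
      field_simp
    rw [h3]
    have h4 : 0 ≤ 6 * pw Lam (9 * c0 + kx) := by
      have := CT.pw_pos hL (9 * c0 + kx)
      positivity
    have h5 : 6 * pw Lam (9 * c0 + kx) * NS * (1 / ((MsS Lam c0 : ℝ) + 1)) ≤
        6 * pw Lam (9 * c0 + kx) * (2 * Real.exp (4 * pQ Lam c0)) * Real.exp (-(5 * pQ Lam c0)) :=
      mul_le_mul (mul_le_mul_of_nonneg_left hNS2 h4) h2 (by positivity)
        (mul_nonneg h4 (mul_nonneg (by norm_num) (Real.exp_pos _).le))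
    refine h5.trans ?_
    have h6 : 6 * pw Lam (9 * c0 + kx) * (2 * Real.exp (4 * pQ Lam c0)) * Real.exp (-(5 * pQ Lam c0)) =
        12 * pw Lam (9 * c0 + kx) * d0 Lam c0 := by
      have h7 : Real.exp (4 * pQ Lam c0) * Real.exp (-(5 * pQ Lam c0)) = d0 Lam c0 := by
        unfold d0
        rw [← Real.exp_add]
        congr 1
        ring
      rw [← h7]
      ring
    rw [h6]
    have h7 : 0 ≤ 12 * pw Lam (9 * c0 + kx) := by
      have := CT.pw_pos hL (9 * c0 + kx)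
      positivity
    refine (mul_le_mul_of_nonneg_left (d0_le80 hL (c0 := c0) (by omega)) h7).trans ?_
    exact fin2 hL (CT.pw_pos hL _).le (CT.cst hL 2 (c := 12) (by norm_num)) le_rfl (by omega)
  have h8 := cst_ix hL (c := 8) (j := 3) (s := K) (by norm_num)
  rw [add_comm 3 K] at h8
  have h9 := ix_pos hL (K + 3)
  have e3 : ((16 * xS Lam c0 kx + 2) * Real.exp (-(2 * lam)) + 6 / (xS Lam c0 kx * (MsS Lam c0 + 1))) * NS =
      (16 * xS Lam c0 kx + 2) * Real.exp (-(2 * lam)) * NS + 6 / (xS Lam c0 kx * (MsS Lam c0 + 1)) * NS := by ring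
  rw [e3, mul_add (2304 * xS Lam c0 kx * a)]
  linarith

/-! ### the error terms of `red` -/

omit hA in
theorem logd0 : Real.log (1 / d0 Lam c0) = pw Lam (8 * c0) := by
  unfold d0 pQ
  rw [one_div, Real.log_inv, Real.log_exp, neg_neg]

omit hA in
theorem sqrt_d0 : Real.sqrt (d0 Lam c0) = Real.exp (-(pw Lam (8 * c0) / 2)) := by
  unfold d0 pQ
  rw [show -pw Lam (8 * c0) = -(pw Lam (8 * c0) / 2) + -(pw Lam (8 * c0) / 2) by ring, Real.exp_add,
    Real.sqrt_mul_self (Real.exp_pos _).le]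

omit hA in
theorem exp_X {X1 : ℝ} (hc : 200 ≤ c0) (hX : X1 ≤ pw Lam (5 * c0)) :
    Real.exp (X1 + 2) * Real.sqrt (d0 Lam c0) ≤ ix Lam (80 * c0) := by
  rw [sqrt_d0 hL, ← Real.exp_add]
  have h1 : X1 + 2 ≤ pw Lam (8 * c0) / 4 := by
    have h2 := mul_pw hL (show 0 ≤ pw Lam (5 * c0 + 1) from (CT.pw_pos hL _).le) (CT.cst hL 1 (c := 4) (by norm_num)) le_rfl
    have h3 := CT.pw_mono hL (show 1 + (5 * c0 + 1) ≤ 8 * c0 by omega)
    have h4 : X1 + 2 ≤ pw Lam (5 * c0 + 1) := by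
      have h5 := pw_ge hL 1
      have h6 := CT.pw_mono hL (show 1 ≤ 5 * c0 by omega)
      exact add_pw hL hX (by linarith)
    linarith
  refine le_trans (Real.exp_le_exp.2 ?_) (exp_Q4 hL hc)
  linarith

omit hA in
theorem sqrt_le80 (hc : 200 ≤ c0) : Real.sqrt (d0 Lam c0) ≤ ix Lam (80 * c0) := by
  rw [sqrt_d0 hL]
  refine le_trans (Real.exp_le_exp.2 ?_) (exp_Q4 hL hc)
  have := CT.pw_pos hL (8 * c0)
  linarith

omit hA in
/-- **the conditions of `red`** -/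
theorem red_c (hc : 200 ≤ c0) {e : ℝ} (he : ix Lam (20 * c0) ≤ e) :
    48 * d0 Lam c0 ≤ e / 4 ∧ 4 * d0 Lam c0 ≤ 1 ∧
      12 * d0 Lam c0 + 2 * Real.sqrt (d0 Lam c0) ≤ p1S Lam c0 / 4 ∧ d0 Lam c0 < 1 ∧ 2 * d0 Lam c0 < Real.log 2 := by
  have h1 := d0_le80 hL hc
  have h2 := sqrt_le80 hL hc
  have h3 := cst_ix hL (c := 192) (j := 4) (s := 20 * c0) (by norm_num)
  have h4 := ix_anti hL (show 4 + 20 * c0 ≤ 80 * c0 by omega)
  have h5 := ix_le_one hL (20 * c0)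
  have h6 : 0 < d0 Lam c0 := Real.exp_pos _
  have h7 := ix_anti hL (show 12 * c0 ≤ 20 * c0 by omega)
  have h8 := Real.log_two_gt_d9
  unfold p1S
  refine ⟨by linarith, by linarith, by linarith, by linarith, by linarith⟩

/-- **the error terms of `red`** (`hn` : `c0` is large) -/
theorem red_num (hc : kx + K + 200 ≤ c0) (hn : ((10 * c1F A c0 : ℕ) : ℝ) * (2 * Lam) ≤ pw Lam c0)
    {a b c X1 e0 SE Tot NLs : ℝ} (ha0 : 0 ≤ a) (ha : a * pw Lam (c1F A c0) ≤ pw Lam (2 * c0)) (hbX : 0 ≤ b + X1)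
    (hb : b ≤ pw Lam (5 * c0)) (hc0 : 0 ≤ c) (hc1 : c ≤ pw Lam (2 * c0)) (hX : X1 ≤ pw Lam (5 * c0))
    (hX0 : pw Lam c0 ≤ X1) (he0 : 0 ≤ e0) (he1 : e0 ≤ ix Lam (40 * c0)) (hSE0 : 0 ≤ SE)
    (hSE : SE ≤ pw Lam (7 * c0 + 3)) (hT : Tot ≤ pw Lam (c0 + 10)) (hNL0 : 0 ≤ NLs) (hNL : NLs ≤ pw Lam (2 * c1F A c0)) :
    2 / Real.log (1 / d0 Lam c0) * (Tot + Real.sqrt (d0 Lam c0) * NLs) +
      TD.TnB (pw Lam c0) (pw Lam (c1F A c0)) Lam (Real.exp (-X1)) +
      (3 * Real.sqrt (d0 Lam c0) + 8 * (a * (b + X1) + c * (e0 + Real.exp (X1 + 2) * Real.sqrt (d0 Lam c0)) +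
        d0 Lam c0) / p1S Lam c0) * SE ≤ ix Lam K := by
  have hN := c1_big (c0 := c0) hA
  have hLam : (0 : ℝ) ≤ Lam := by linarith
  have s80 := sqrt_le80 hL (c0 := c0) (by omega)
  have s0 : 0 ≤ Real.sqrt (d0 Lam c0) := Real.sqrt_nonneg _
  have d80 := d0_le80 hL (c0 := c0) (by omega)
  have d00 : 0 < d0 Lam c0 := Real.exp_pos _
  have hXe := exp_X hL (c0 := c0) (by omega) hX
  have haN := a_le hL ha (by omega)
  have p1 : 2 / Real.log (1 / d0 Lam c0) * (Tot + Real.sqrt (d0 Lam c0) * NLs) ≤ ix Lam (K + 3) := by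
    rw [logd0 hL]
    have h1 : Real.sqrt (d0 Lam c0) ≤ ix Lam (2 * c1F A c0) := by
      rw [sqrt_d0 hL]
      refine exp_ix hL ?_
      have h2 := mul_pw hL (CT.pw_pos hL c0).le (CT.cst hL 1 (c := 2) (by norm_num)) (le_refl (pw Lam c0))
      have h3 := CT.pw_mono hL (show 1 + c0 ≤ 8 * c0 by omega)
      have h4 : ((2 * c1F A c0 : ℕ) : ℝ) * (2 * Lam) ≤ ((10 * c1F A c0 : ℕ) : ℝ) * (2 * Lam) := by
        refine mul_le_mul_of_nonneg_right ?_ (by linarith)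
        exact_mod_cast (show 2 * c1F A c0 ≤ 10 * c1F A c0 by omega)
      linarith
    have h2 : Real.sqrt (d0 Lam c0) * NLs ≤ 1 := by
      have h3 := mul_le_mul h1 hNL hNL0 (ix_nn hL _)
      rw [mul_comm (ix Lam (2 * c1F A c0)), pw_ix hL] at h3
      exact h3
    have h3 : Tot + Real.sqrt (d0 Lam c0) * NLs ≤ pw Lam (c0 + 11) :=
      add_pw hL hT (h2.trans (pw_ge1 hL _))
    have h4 : 2 / pw Lam (8 * c0) * (Tot + Real.sqrt (d0 Lam c0) * NLs) ≤ 2 / pw Lam (8 * c0) * pw Lam (c0 + 11) :=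
      mul_le_mul_of_nonneg_left h3 (div_nonneg (by norm_num) (CT.pw_pos hL _).le)
    refine h4.trans ?_
    have h5 : 2 / pw Lam (8 * c0) * pw Lam (c0 + 11) = 2 * pw Lam (c0 + 11) * ix Lam (8 * c0) := by
      unfold ix
      rw [div_eq_mul_inv]
      ring
    rw [h5]
    exact fin2 hL (CT.pw_pos hL _).le (CT.cst hL 1 (c := 2) (by norm_num)) le_rfl (by omega)
  have p2 : TD.TnB (pw Lam c0) (pw Lam (c1F A c0)) Lam (Real.exp (-X1)) ≤ ix Lam (K + 3) := by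
    have h1 := TnB_le (c := 1) hL hA (exp_ix hL (hn.trans hX0)) hc (by norm_num) (by norm_num)
    rwa [one_mul] at h1
  have p3 : (3 * Real.sqrt (d0 Lam c0) + 8 * (a * (b + X1) + c * (e0 + Real.exp (X1 + 2) * Real.sqrt (d0 Lam c0)) +
        d0 Lam c0) / p1S Lam c0) * SE ≤ ix Lam (K + 3) := by
    have h1 : a * (b + X1) ≤ ix Lam (38 * c0 - 2) := by
      have h2 : b + X1 ≤ pw Lam (5 * c0 + 1) := add_pw hL hb hX
      have h3 := mul_le_mul haN h2 hbX (ix_nn hL _)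
      rw [mul_comm (ix Lam (c1F A c0 - 2 * c0))] at h3
      exact h3.trans (CT.fin hL le_rfl (by omega))
    have h2 : c * (e0 + Real.exp (X1 + 2) * Real.sqrt (d0 Lam c0)) ≤ ix Lam (38 * c0 - 2) := by
      have h3 : e0 + Real.exp (X1 + 2) * Real.sqrt (d0 Lam c0) ≤ ix Lam (40 * c0 - 1) := by
        have h4 := add_ix hL (s := 40 * c0 - 1) (u := e0) (v := Real.exp (X1 + 2) * Real.sqrt (d0 Lam c0))
          (by rw [show 40 * c0 - 1 + 1 = 40 * c0 by omega]; exact he1)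
          (by rw [show 40 * c0 - 1 + 1 = 40 * c0 by omega]; exact hXe.trans (ix_anti hL (by omega)))
        exact h4
      have h4 : 0 ≤ e0 + Real.exp (X1 + 2) * Real.sqrt (d0 Lam c0) := by positivity
      have h5 := mul_le_mul hc1 h3 h4 (CT.pw_pos hL _).le
      exact h5.trans (CT.fin hL le_rfl (by omega))
    have h3 : d0 Lam c0 ≤ ix Lam (38 * c0 - 2) := d80.trans (ix_anti hL (by omega))
    have h4 : 8 * (a * (b + X1) + c * (e0 + Real.exp (X1 + 2) * Real.sqrt (d0 Lam c0)) + d0 Lam c0) / p1S Lam c0 ≤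
        ix Lam (26 * c0 - 6) := by
      unfold p1S
      rw [div_ix hL]
      have h5 : 8 * (a * (b + X1) + c * (e0 + Real.exp (X1 + 2) * Real.sqrt (d0 Lam c0)) + d0 Lam c0) ≤
          24 * ix Lam (38 * c0 - 2) := by linarith
      have h6 := mul_le_mul_of_nonneg_right h5 (CT.pw_pos hL (12 * c0)).le
      refine h6.trans ?_
      rw [mul_right_comm]
      exact fin2 hL (CT.pw_pos hL _).le (CT.cst hL 3 (c := 24) (by norm_num)) le_rfl (by omega)
    have h5 : 3 * Real.sqrt (d0 Lam c0) ≤ ix Lam (26 * c0 - 6) := by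
      have h6 := cst_ix hL (c := 3) (j := 1) (s := 26 * c0 - 6) (by norm_num)
      have h7 := ix_anti hL (show 1 + (26 * c0 - 6) ≤ 80 * c0 by omega)
      linarith
    have h6 : 3 * Real.sqrt (d0 Lam c0) + 8 * (a * (b + X1) + c * (e0 + Real.exp (X1 + 2) * Real.sqrt (d0 Lam c0)) +
        d0 Lam c0) / p1S Lam c0 ≤ 2 * ix Lam (26 * c0 - 6) := by linarith
    refine (mul_le_mul_of_nonneg_right h6 hSE0).trans ?_
    rw [mul_right_comm]
    exact fin2 hL hSE0 (CT.cst hL 1 (c := 2) (by norm_num)) hSE (by omega)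
  have h8 := cst_ix hL (c := 3) (j := 3) (s := K) (by norm_num)
  rw [add_comm 3 K] at h8
  linarith

end pt

/-- `c0` is large -/
theorem ev_n (A : ℕ) : CTM.Ev (fun c0 Lam => ((10 * c1F A c0 : ℕ) : ℝ) * (2 * Lam) ≤ pw Lam c0) := by
  refine (ell_pe A 0 40).mono fun c0 Lam hL h => ?_
  have h1 : pe Lam 0 c0 = pw Lam c0 := by
    unfold pe
    rw [pw_zero, div_one]
  rw [h1] at h
  unfold ell at h
  have h2 : 0 ≤ (c1F A c0 : ℝ) * Lam := mul_nonneg (Nat.cast_nonneg _) (by linarith)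
  have h3 : 0 ≤ (c0 : ℝ) * Lam := mul_nonneg (Nat.cast_nonneg _) (by linarith)
  push_cast at h ⊢
  nlinarith

end

end Pool.Agent.GMH.SngN
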