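import Pool.Agent.GMH.SngK

/-!
# GMH/SngR (helper61): KIND S, reduction to static relations (row (E2) of helper37's table)

`red` : the strong alive singles at the expensive public removals are, up to the listed tuples, the tiny digits, the bad points
and `8 (a (b + X1) + c (e0 + e^(X1+2) sqrt k0) + k0) / p1` of the removals, in the static relation `HS` of their epoch.
* `own`, `lfD`, `lfC` : exact masses and `lf`; `mass_bwd` : exact masses backward; `pts_val` : points and the public value;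
* `side_bd` : an exact mass which does not see the side of `w` is seldom large when the class mass is small (Markov);
* `kap_row`, `kap_col` : class masses of the static row and column.
-/

set_option autoImplicit false
set_option linter.unusedSectionVars false

namespace Pool.Agent.GMH.Sng

open Finset Pool.Agent.PWZ Pool.Agent.M3 Pool.Agent.GMH Pool.Agent.GMH.TD
open Pool.Agent.GMH.MV Pool.Agent.GMH.MVI Pool.Agent.GMH.SNB Pool.Agent.GMH.KDT

noncomputable section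

variable {Om : Type} [Fintype Om] {M : MS Om}

/-- class masses from the masses given the other side (the part of `LinR` which is used here) -/
structure BnR (M : MS Om) (T : ℕ) (X1 a b c : ℝ) : Prop where
  bD : ∀ i q (A : Om → Prop), q % 5 ≤ 1 → q ≤ 5 * T → Fac (fun u => (M.XL i q u, M.NP q u)) A → ∀ w, M.P.p w ≠ 0 →
    -X1 ≤ lf M (univ.erase i, {i}) q w →
    M.P.ce (M.NP q) (fun u => ind (A u)) w ≤ a * (b + LC M q w) + c * M.P.ce (fun u => (CX M i q u, M.NP q u)) (fun u => ind (A u)) w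
  bC : ∀ i q (A : Om → Prop), q % 5 ≤ 1 → q ≤ 5 * T → Fac (fun u => (CX M i q u, M.NP q u)) A →
    (∀ u, M.P.p u ≠ 0 → A u → ∀ j, j ≠ i → -X1 ≤ lf M ({j}, ∅) q u) → ∀ w, M.P.p w ≠ 0 → -X1 ≤ lf M ({i}, ∅) q w →
    M.P.ce (M.NP q) (fun u => ind (A u)) w ≤ a * (b + LC M q w) + c * M.P.ce (fun u => (M.XL i q u, M.NP q u)) (fun u => ind (A u)) w

/-! ### generalities -/

theorem ce_ind_iff {ζ : Type*} {Z : Om → ζ} {A B : Om → Prop} {w : Om}
    (h : ∀ u, M.P.p u ≠ 0 → Z u = Z w → (A u ↔ B u)) : M.P.ce Z (fun u => ind (A u)) w = M.P.ce Z (fun u => ind (B u)) w :=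
  le_antisymm (ce_ind_mono fun u hu huw => (h u hu huw).1) (ce_ind_mono fun u hu huw => (h u hu huw).2)

theorem ce_ind_nonneg {ζ : Type*} (Z : Om → ζ) (A : Om → Prop) (w : Om) : 0 ≤ M.P.ce Z (fun u => ind (A u)) w :=
  M.P.ce_nonneg (fun _ _ => ind_nonneg _) w

theorem ce_ind_le_one {ζ : Type*} (Z : Om → ζ) (A : Om → Prop) {w : Om} (hw : M.P.p w ≠ 0) :
    M.P.ce Z (fun u => ind (A u)) w ≤ 1 := M.P.ce_le_const (fun _ _ => ind_le_one _) hw

/-- union bound -/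
theorem ce_ind_or {ζ : Type*} {Z : Om → ζ} {A B C : Om → Prop} {w : Om}
    (h : ∀ u, M.P.p u ≠ 0 → Z u = Z w → A u → B u ∨ C u) :
    M.P.ce Z (fun u => ind (A u)) w ≤ M.P.ce Z (fun u => ind (B u)) w + M.P.ce Z (fun u => ind (C u)) w := by
  rw [← M.P.ce_add]
  refine MV4.mono_on (M := M) fun u hu huw => ?_
  by_cases g : A u
  · rcases h u hu huw g with g1 | g1
    · rw [ind_of g, ind_of g1]
      have := ind_nonneg (C u)
      linarith
    · rw [ind_of g, ind_of g1]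
      have := ind_nonneg (B u)
      linarith
  · rw [ind_not g]
    exact add_nonneg (ind_nonneg _) (ind_nonneg _)

/-- Markov for a conditional mass -/
theorem ce_mk {ζ ξ : Type*} {Y : Om → ζ} {Z : Om → ξ} (hYZ : Fac Y Z) (A : Om → Prop) {θ : ℝ} (hθ : 0 < θ) (w : Om) :
    M.P.ce Z (fun u => ind (θ ≤ M.P.ce Y (fun x => ind (A x)) u)) w ≤ M.P.ce Z (fun x => ind (A x)) w / θ := by
  rw [le_div_iff₀ hθ, mul_comm, ← M.P.ce_smul, ← M.P.ce_tower hYZ (fun x => ind (A x))]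
  refine M.P.ce_mono (fun u _ => ?_) w
  by_cases h : θ ≤ M.P.ce Y (fun x => ind (A x)) u
  · rw [ind_of h, mul_one]
    exact h
  · rw [ind_not h, mul_zero]
    exact ce_ind_nonneg Y A u

/-- a mass given a finer class -/
theorem ce_fine {ζ ξ : Type*} {Z : Om → ζ} {Y : Om → ξ} (hZY : Fac Z Y) {θ : ℝ} {w : Om} (hw : M.P.p w ≠ 0)
    (hm : M.P.m Y w ≤ θ * M.P.m Z w) (A : Om → Prop) :
    M.P.ce Z (fun u => ind (A u)) w ≤ θ * M.P.ce Y (fun u => ind (A u)) w := by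
  have p1 := M.P.m_pos Z hw
  have p2 := M.P.m_pos Y hw
  have h1 : M.P.E (fun v => ind (Z v = Z w) * ind (A v)) ≤ M.P.E (fun v => ind (Y v = Y w) * ind (A v)) :=
    M.P.E_mono fun v _ => mul_le_mul_of_nonneg_right (ind_mono fun h => hZY v w h) (ind_nonneg _)
  have h2 : 0 ≤ M.P.E (fun v => ind (Y v = Y w) * ind (A v)) :=
    M.P.E_nonneg fun v _ => mul_nonneg (ind_nonneg _) (ind_nonneg _)
  unfold FP.ce
  rw [div_le_iff₀ p1]
  have h3 : θ * (M.P.E (fun v => ind (Y v = Y w) * ind (A v)) / M.P.m Y w) * M.P.m Z w =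
      M.P.E (fun v => ind (Y v = Y w) * ind (A v)) * (θ * M.P.m Z w / M.P.m Y w) := by ring
  rw [h3]
  have h4 : 1 ≤ θ * M.P.m Z w / M.P.m Y w := by
    rw [le_div_iff₀ p2, one_mul]
    exact hm
  calc M.P.E (fun v => ind (Z v = Z w) * ind (A v)) ≤ M.P.E (fun v => ind (Y v = Y w) * ind (A v)) * 1 := by
        rw [mul_one]
        exact h1
    _ ≤ _ := mul_le_mul_of_nonneg_left h4 h2

/-- the mass of a finer class -/
theorem ce_mcl {ζ ξ : Type*} {Z : Om → ζ} {Y : Om → ξ} (hZY : Fac Z Y) (w : Om) :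
    M.P.ce Y (fun u => ind (Z u = Z w)) w = M.P.m Z w / M.P.m Y w := by
  unfold FP.ce
  congr 1
  refine M.P.E_congr fun v _ => ?_
  rw [← ind_and]
  exact congrArg ind (propext ⟨fun g => g.2, fun g => ⟨hZY v w g, g⟩⟩)

/-- a finer class and an independent function -/
theorem cls_ind {ζ ξ ξ' : Type*} {Z : Om → ζ} {N' : Om → ξ} {N : Om → ξ'} (hZ : Fac Z N') {g : Om → ℝ} {w : Om}
    (hw : M.P.p w ≠ 0) (h : M.P.ce N' (fun u => ind (Z u = Z w) * g u) w =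
      M.P.ce N' (fun u => ind (Z u = Z w)) w * M.P.ce N g w) : M.P.ce Z g w = M.P.ce N g w := by
  have p1 := M.P.m_pos Z hw
  have p2 := M.P.m_pos N' hw
  rw [ce_mcl hZ] at h
  have h1 : M.P.ce N' (fun u => ind (Z u = Z w) * g u) w = M.P.ce Z g w * (M.P.m Z w / M.P.m N' w) := by
    have h2 : M.P.E (fun v => ind (N' v = N' w) * (ind (Z v = Z w) * g v)) = M.P.E (fun v => ind (Z v = Z w) * g v) := by
      refine M.P.E_congr fun v _ => ?_
      rw [← mul_assoc, ← ind_and]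
      exact congrArg (fun x => x * g v) (congrArg ind (propext ⟨fun g => g.2, fun g => ⟨hZ v w g, g⟩⟩))
    unfold FP.ce
    rw [h2]
    field_simp
  rw [h1, mul_comm] at h
  exact mul_left_cancel₀ (div_pos p1 p2).ne' h

/-! ### letters and exact masses -/

theorem CX_eq {i : Fin 3} {q : ℕ} {a b : Om} : CX M i q a = CX M i q b ↔
    (∀ j, j ≠ i → M.XL j q a = M.XL j q b) ∧ M.TF i q a = M.TF i q b := by
  unfold CX
  rw [Prod.mk.injEq, funext_iff]
  refine and_congr (forall_congr' fun j => ?_) Iff.rfl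
  by_cases h : j ≠ i
  · rw [if_pos h, if_pos h, Option.some.injEq]
    exact ⟨fun g _ => g, fun g => g h⟩
  · rw [if_neg h, if_neg h]
    exact ⟨fun _ g => absurd g h, fun _ => rfl⟩

theorem PX_eq {i : Fin 3} {a b : Om} : PX M i a = PX M i b ↔ ∀ j, j ≠ i → M.YP j a = M.YP j b := by
  unfold PX
  rw [funext_iff]
  refine forall_congr' fun j => ?_
  by_cases h : j ≠ i
  · rw [if_pos h, if_pos h, Option.some.injEq]
    exact ⟨fun g _ => g, fun g => g h⟩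
  · rw [if_neg h, if_neg h]
    exact ⟨fun _ g => absurd g h, fun _ => rfl⟩

theorem UY_eq {q : ℕ} {a b : Om} : AHR.UY M q a = AHR.UY M q b ↔ (∀ j, M.YP j a = M.YP j b) ∧ M.NP q a = M.NP q b := by
  unfold AHR.UY
  rw [Prod.mk.injEq, YF_eq]

theorem UY_YP (i : Fin 3) (q : ℕ) : Fac (AHR.UY M q) (fun u => (M.YP i u, M.NP q u)) := fun a b hab =>
  Prod.ext ((UY_eq.1 hab).1 i) (UY_eq.1 hab).2

theorem UY_PX (i : Fin 3) (q : ℕ) : Fac (AHR.UY M q) (fun u => (PX M i u, M.NP q u)) := fun a b hab =>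
  Prod.ext (PX_eq.2 fun j _ => (UY_eq.1 hab).1 j) (UY_eq.1 hab).2

theorem UY_NP (q : ℕ) : Fac (AHR.UY M q) (M.NP q) := fun _ _ hab => (UY_eq.1 hab).2

theorem YP_NP (i : Fin 3) (q : ℕ) : Fac (fun u => (M.YP i u, M.NP q u)) (M.NP q) := fun _ _ hab => (Prod.mk.inj hab).2

theorem PX_NP (i : Fin 3) (q : ℕ) : Fac (fun u => (PX M i u, M.NP q u)) (M.NP q) := fun _ _ hab => (Prod.mk.inj hab).2

theorem XL_YP (i : Fin 3) (q : ℕ) : Fac (fun u => (M.XL i q u, M.NP q u)) (fun u => (M.YP i u, M.NP q u)) := fun a b hab =>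
  Prod.ext (M.hXY i q a b (Prod.mk.inj hab).1) (Prod.mk.inj hab).2

theorem CX_PX (i : Fin 3) (q : ℕ) : Fac (fun u => (CX M i q u, M.NP q u)) (fun u => (PX M i u, M.NP q u)) := fun a b hab =>
  Prod.ext (PX_eq.2 fun j hj => M.hXY j q a b ((CX_eq.1 (Prod.mk.inj hab).1).1 j hj)) (Prod.mk.inj hab).2

theorem XL_le (i : Fin 3) {r q : ℕ} (hrq : r ≤ q) {a b : Om} (h : M.XL i q a = M.XL i q b) : M.XL i r a = M.XL i r b :=
  fac_le (M.hX i) hrq a b h

theorem CX_le (i : Fin 3) {r q : ℕ} (hrq : r ≤ q) {a b : Om} (h : CX M i q a = CX M i q b) : CX M i r a = CX M i r b :=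
  CX_eq.2 ⟨fun j hj => XL_le j hrq ((CX_eq.1 h).1 j hj), fac_le (M.hT i) hrq a b (CX_eq.1 h).2⟩

theorem NP_le {r q : ℕ} (hrq : r ≤ q) {a b : Om} (h : M.NP q a = M.NP q b) : M.NP r a = M.NP r b := fac_le M.hN hrq a b h

theorem lf_exp (F : Finset (Fin 3) × Finset (Fin 3)) (q : ℕ) {w : Om} (hw : M.P.p w ≠ 0) :
    Real.exp (lf M F q w) = M.P.ce (AHR.UY M q) (fun u => ind (LF M F q u = LF M F q w)) w := by
  have p1 := M.P.m_pos (fun u => (LF M F q u, M.NP q u)) hw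
  have p2 := M.P.m_pos (AHR.UY M q) hw
  have h1 : lf M F q w = Real.log (M.P.m (fun u => (LF M F q u, M.NP q u)) w / M.P.m (AHR.UY M q) w) := rfl
  rw [h1, Real.exp_log (div_pos p1 p2), ← ce_mcl (M := M) (Z := fun u => (LF M F q u, M.NP q u)) (Y := AHR.UY M q)
    (fun a b hab => UY_eq.2 ⟨YF_eq.1 (LF_eq.1 (Prod.mk.inj hab).1).2.2, (Prod.mk.inj hab).2⟩)]
  refine ce_ind_iff fun u _ huw => ?_
  rw [Prod.mk.injEq]
  exact ⟨fun h => h.1, fun h => ⟨h, (UY_eq.1 huw).2⟩⟩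

theorem lfD (i : Fin 3) (q : ℕ) {w : Om} (hw : M.P.p w ≠ 0) : Real.exp (lf M ({i}, ∅) q w) =
    M.P.ce (AHR.UY M q) (fun u => ind (M.XL i q u = M.XL i q w)) w := by
  rw [lf_exp _ _ hw]
  refine ce_ind_iff fun u _ huw => ?_
  rw [LF_eq]
  constructor
  · intro h
    exact h.1 i (mem_singleton_self i)
  · intro h
    refine ⟨fun j hj => ?_, fun j hj => absurd hj (notMem_empty j), YF_eq.2 (UY_eq.1 huw).1⟩
    rw [mem_singleton.1 hj]
    exact h

theorem lfC (i : Fin 3) (q : ℕ) {w : Om} (hw : M.P.p w ≠ 0) : Real.exp (lf M (univ.erase i, {i}) q w) =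
    M.P.ce (AHR.UY M q) (fun u => ind (CX M i q u = CX M i q w)) w := by
  rw [lf_exp _ _ hw]
  refine ce_ind_iff fun u _ huw => ?_
  rw [LF_eq, CX_eq]
  constructor
  · intro h
    exact ⟨fun j hj => h.1 j (mem_erase.2 ⟨hj, mem_univ j⟩), h.2.1 i (mem_singleton_self i)⟩
  · intro h
    refine ⟨fun j hj => h.1 j (mem_erase.1 hj).1, fun j hj => ?_, YF_eq.2 (UY_eq.1 huw).1⟩
    rw [mem_singleton.1 hj]
    exact h.2

/-- a mass at all points which is constant on a coarser class of points -/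
theorem own {ζ : Type*} {Z : Om → ζ} {q : ℕ} (hZ : Fac (AHR.UY M q) Z) {f : Om → ℝ} {w : Om} (hw : M.P.p w ≠ 0)
    (h : ∀ u, M.P.p u ≠ 0 → Z u = Z w → M.P.ce (AHR.UY M q) f u = M.P.ce (AHR.UY M q) f w) :
    M.P.ce Z f w = M.P.ce (AHR.UY M q) f w := by
  rw [← M.P.ce_tower hZ]
  refine le_antisymm ?_ ?_
  · exact (MV4.mono_on (M := M) (g := fun _ => M.P.ce (AHR.UY M q) f w) fun u hu huw => (h u hu huw).le).trans
      (M.P.ce_const _ _ hw).le
  · exact (M.P.ce_const Z _ hw).symm.le.trans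
      (MV4.mono_on (M := M) (f := fun _ => M.P.ce (AHR.UY M q) f w) fun u hu huw => (h u hu huw).symm.le)

variable {T : ℕ}

/-- the mass of a letter over its own points -/
theorem mD (hI : PtI M T) (i : Fin 3) (q : ℕ) {w : Om} (hw : M.P.p w ≠ 0) : M.P.m (fun u => (M.YP i u, M.NP q u)) w =
    Real.exp (-lf M ({i}, ∅) q w) * M.P.m (fun u => (M.XL i q u, M.NP q u)) w := by
  have p2 := M.P.m_pos (fun u => (M.YP i u, M.NP q u)) hw
  have h1 := ce_mcl (M := M) (XL_YP (M := M) i q) w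
  have h2 := own (M := M) (UY_YP (M := M) i q) (f := fun u => ind ((M.XL i q u, M.NP q u) = (M.XL i q w, M.NP q w))) hw
    (fun u hu huw => hI.xd i q (fun u => (M.XL i q u, M.NP q u) = (M.XL i q w, M.NP q w))
      (fun a b hab => congrArg (fun z => z = (M.XL i q w, M.NP q w)) hab) u w hu hw (Prod.mk.inj huw).1 (Prod.mk.inj huw).2)
  have h3 : M.P.ce (AHR.UY M q) (fun u => ind ((M.XL i q u, M.NP q u) = (M.XL i q w, M.NP q w))) w =
      Real.exp (lf M ({i}, ∅) q w) := by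
    rw [lfD i q hw]
    refine ce_ind_iff fun u _ huw => ?_
    rw [Prod.mk.injEq]
    exact ⟨fun h => h.1, fun h => ⟨h, (UY_eq.1 huw).2⟩⟩
  rw [h1, h3, div_eq_iff p2.ne'] at h2
  rw [h2, ← mul_assoc, ← Real.exp_add, neg_add_cancel, Real.exp_zero, one_mul]

/-- the same for the letters of a side -/
theorem mC (hI : PtI M T) (i : Fin 3) (q : ℕ) {w : Om} (hw : M.P.p w ≠ 0) : M.P.m (fun u => (PX M i u, M.NP q u)) w =
    Real.exp (-lf M (univ.erase i, {i}) q w) * M.P.m (fun u => (CX M i q u, M.NP q u)) w := by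
  have p2 := M.P.m_pos (fun u => (PX M i u, M.NP q u)) hw
  have h1 := ce_mcl (M := M) (CX_PX (M := M) i q) w
  have h2 := own (M := M) (UY_PX (M := M) i q) (f := fun u => ind ((CX M i q u, M.NP q u) = (CX M i q w, M.NP q w))) hw
    (fun u hu huw => hI.xc i q (fun u => (CX M i q u, M.NP q u) = (CX M i q w, M.NP q w))
      (fun a b hab => congrArg (fun z => z = (CX M i q w, M.NP q w)) hab) u w hu hw (Prod.mk.inj huw).1 (Prod.mk.inj huw).2)
  have h3 : M.P.ce (AHR.UY M q) (fun u => ind ((CX M i q u, M.NP q u) = (CX M i q w, M.NP q w))) w =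
      Real.exp (lf M (univ.erase i, {i}) q w) := by
    rw [lfC i q hw]
    refine ce_ind_iff fun u _ huw => ?_
    rw [Prod.mk.injEq]
    exact ⟨fun h => h.1, fun h => ⟨h, (UY_eq.1 huw).2⟩⟩
  rw [h1, h3, div_eq_iff p2.ne'] at h2
  rw [h2, ← mul_assoc, ← Real.exp_add, neg_add_cancel, Real.exp_zero, one_mul]

/-- the mass of one letter is a function of the letter -/
theorem lf_own (hI : PtI M T) (j : Fin 3) (q : ℕ) {a b : Om} (ha : M.P.p a ≠ 0) (hb : M.P.p b ≠ 0)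
    (h1 : M.XL j q a = M.XL j q b) (h2 : M.NP q a = M.NP q b) : lf M ({j}, ∅) q a = lf M ({j}, ∅) q b := by
  refine Real.exp_injective ?_
  rw [lfD j q ha, lfD j q hb]
  have h3 := hI.xd j q (fun u => M.XL j q u = M.XL j q a) (fun x y hxy => congrArg (fun z => z = M.XL j q a) (Prod.mk.inj hxy).1) a b ha hb
    (M.hXY j q a b h1) h2
  rw [h3]
  refine ce_ind_iff fun u _ _ => ?_
  rw [h1]

/-! ### masses backward, points and values -/

/-- **exact masses backward** -/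
theorem mass_bwd (hd : 4 * M.d0 ≤ 1) {q r ν : ℕ} (hr : ν ≤ r) (hrq : r ≤ q) {A : Om → Prop}
    (hA : Fac (fun u => (LF M (univ, univ) r u, M.NP r u)) A) {u : Om} (hu : M.P.p u ≠ 0) :
    M.P.ce (AHR.UY M r) (fun x => ind (A x)) u ≤ M.P.ce (AHR.UY M q) (fun x => ind (A x)) u +
      M.P.ce (AHR.UY M q) (fun x => ind (Lst M ν q x)) u + 4 * M.d0 := by
  have hd0 := M.hd0
  have hlog : 2 * M.d0 < Real.log 2 := by
    have := Real.log_two_gt_d9
    linarith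
  have h1 := mass_fwdU (M := M) hlog hr hrq (A := fun x => ¬ A x) (fun a b hab => congrArg Not (hA a b hab)) hu
  rw [MV4.ce_compl (M := M) (AHR.UY M r) A hu] at h1
  have h2 : M.P.ce (AHR.UY M q) (fun x => ind (¬ (A x ∨ Lst M ν q x))) u ≤
      M.P.ce (AHR.UY M q) (fun x => ind (¬ A x ∧ ¬ Lst M ν q x)) u := ce_ind_mono fun x _ _ g => not_or.1 g
  rw [MV4.ce_compl (M := M) (AHR.UY M q) (fun x => A x ∨ Lst M ν q x) hu] at h2
  have h3 : M.P.ce (AHR.UY M q) (fun x => ind (A x ∨ Lst M ν q x)) u ≤ M.P.ce (AHR.UY M q) (fun x => ind (A x)) u +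
      M.P.ce (AHR.UY M q) (fun x => ind (Lst M ν q x)) u := ce_ind_or fun x _ _ g => g
  have h4 := ce_ind_nonneg (M := M) (AHR.UY M r) A u
  have h5 := ce_ind_le_one (M := M) (AHR.UY M r) A hu
  have h6 : Real.exp (2 * M.d0) ≤ 1 + 4 * M.d0 := by
    have h7 := Real.abs_exp_sub_one_le (x := 2 * M.d0) (by rw [abs_of_pos (by linarith)]; linarith)
    rw [abs_of_pos (show 0 < 2 * M.d0 by linarith)] at h7
    have h8 := (abs_le.1 h7).2
    linarith
  have h7 : Real.exp (2 * M.d0) * (1 - M.P.ce (AHR.UY M r) (fun x => ind (A x)) u) ≤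
      (1 + 4 * M.d0) * (1 - M.P.ce (AHR.UY M r) (fun x => ind (A x)) u) := mul_le_mul_of_nonneg_right h6 (by linarith)
  nlinarith

/-- the points do not see the public value of a code step -/
theorem pts_val (hP : PrN M) {q : ℕ} (hcd : M.cd q) {g : Om → ℝ} (hg : Fac (AHR.UY M q) g) (hg0 : ∀ u, 0 ≤ g u) {w : Om}
    (hw : M.P.p w ≠ 0) : M.P.ce (M.NP (q + 1)) g w ≤ M.P.ce (M.NP q) g w := by
  have p1 := M.P.m_pos (M.NP (q + 1)) hw
  have p2 := M.P.m_pos (M.NP q) hw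
  set φ : Om → ℝ := M.P.ce (AHR.UY M q) (fun x => ind (M.NP (q + 1) x = M.NP (q + 1) w)) with hφ
  -- the mass of the value at all points
  have h1 : ∀ u, M.P.p u ≠ 0 → φ u ≤ ind (M.NP q u = M.NP q w) * (M.P.m (M.NP (q + 1)) w / M.P.m (M.NP q) w) := by
    intro u hu
    by_cases hex : ∃ v, M.P.p v ≠ 0 ∧ AHR.UY M q v = AHR.UY M q u ∧ M.NP (q + 1) v = M.NP (q + 1) w
    · obtain ⟨v, hv, hvu, hvw⟩ := hex
      have e1 : φ u = φ v := (M.P.ce_fac (AHR.UY M q) _ v u hvu).symm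
      have e2 : M.NP q u = M.NP q w := (UY_eq.1 hvu).2.symm.trans (M.hN q v w hvw)
      have e3 : φ v = M.P.m (fun u => (YF M (univ, univ) u, M.NP (q + 1) u)) v / M.P.m (AHR.UY M q) v := by
        rw [← ce_mcl (M := M) (Z := fun u => (YF M (univ, univ) u, M.NP (q + 1) u)) (Y := AHR.UY M q)
          (fun a b hab => Prod.ext (Prod.mk.inj hab).1 (M.hN q a b (Prod.mk.inj hab).2))]
        refine ce_ind_iff fun x _ hx => ?_
        rw [Prod.mk.injEq, hvw]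
        exact ⟨fun h => ⟨(Prod.mk.inj hx).1, h⟩, fun h => h.2⟩
      have e4 := hP q hcd v hv
      have e5 : M.P.m (M.NP q) v = M.P.m (M.NP q) w := M.P.Fac_m _ _ _ (M.hN q v w hvw)
      have e6 : M.P.m (M.NP (q + 1)) v = M.P.m (M.NP (q + 1)) w := M.P.Fac_m _ _ _ hvw
      rw [e5, e6] at e4
      have p3 := M.P.m_pos (AHR.UY M q) hv
      rw [e1, e3, ind_of e2, one_mul, div_le_div_iff₀ p3 p2, e4]
      exact le_of_eq (mul_comm _ _)
    · have e1 : φ u = M.P.ce (AHR.UY M q) (fun _ => 0) u := by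
        refine le_antisymm (MV4.mono_on (M := M) fun x hx hxu => ?_) (MV4.mono_on (M := M) fun x hx hxu => ind_nonneg _)
        rw [ind_not fun h => hex ⟨x, hx, hxu, h⟩]
      rw [e1, M.P.ce_const _ _ hu]
      exact mul_nonneg (ind_nonneg _) (div_pos p1 p2).le
  have h2 : M.P.E (fun v => ind (M.NP (q + 1) v = M.NP (q + 1) w) * g v) = M.P.E (fun v => g v * φ v) := by
    rw [hφ, M.P.E_mul_ce hg]
    exact M.P.E_congr fun v _ => mul_comm _ _
  have h3 : M.P.E (fun v => g v * φ v) ≤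
      M.P.E (fun v => ind (M.NP q v = M.NP q w) * g v) * (M.P.m (M.NP (q + 1)) w / M.P.m (M.NP q) w) := by
    rw [← M.P.E_mul_const]
    refine M.P.E_mono fun v hv => ?_
    calc g v * φ v ≤ g v * (ind (M.NP q v = M.NP q w) * (M.P.m (M.NP (q + 1)) w / M.P.m (M.NP q) w)) :=
          mul_le_mul_of_nonneg_left (h1 v hv) (hg0 v)
      _ = _ := by ring
  unfold FP.ce
  rw [h2, div_le_iff₀ p1]
  refine h3.trans (le_of_eq ?_)
  field_simp

theorem exq_fac (L0 : ℝ) (q : ℕ) : Fac (M.NP (q + 1)) (exq M L0 q) := by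
  intro a b hab
  unfold exq
  rw [M.P.Fac_m (M.NP (q + 1)) a b hab, M.P.Fac_m (M.NP q) a b (M.hN q a b hab)]

/-- an event of the points at the expensive values -/
theorem pt_bd (hP : PrN M) {q : ℕ} (hcd : M.cd q) (L0 : ℝ) {ζ : Type*} {Z : Om → ζ} (h1 : Fac (AHR.UY M q) Z)
    (h2 : Fac Z (M.NP q)) {B : Om → Prop} {θ k : ℝ} (hθ : 0 < θ)
    (hB : ∀ w, M.P.p w ≠ 0 → M.P.ce (M.NP q) (fun u => ind (B u)) w ≤ k) :
    M.P.Pr (fun w => exq M L0 q w ∧ θ ≤ M.P.ce Z (fun u => ind (B u)) w) ≤ k / θ * M.P.Pr (exq M L0 q) := by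
  have hfac : Fac (AHR.UY M q) (fun w => ind (θ ≤ M.P.ce Z (fun u => ind (B u)) w)) :=
    Fac.ind fun a b hab => by rw [M.P.ce_fac Z _ a b (h1 a b hab)]
  have e1 : M.P.Pr (fun w => exq M L0 q w ∧ θ ≤ M.P.ce Z (fun u => ind (B u)) w) =
      M.P.E (fun w => ind (exq M L0 q w) * M.P.ce (M.NP (q + 1)) (fun x => ind (θ ≤ M.P.ce Z (fun u => ind (B u)) x)) w) := by
    rw [M.P.E_mul_ce (Fac.ind fun a b hab => by rw [exq_fac L0 q a b hab])]
    exact M.P.E_congr fun w _ => ind_and _ _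
  rw [e1]
  have e2 : k / θ * M.P.Pr (exq M L0 q) = M.P.E (fun w => ind (exq M L0 q w) * (k / θ)) := by
    rw [M.P.E_mul_const, mul_comm]
    rfl
  rw [e2]
  refine M.P.E_mono fun w hw => mul_le_mul_of_nonneg_left ?_ (ind_nonneg _)
  refine (pts_val hP hcd hfac (fun _ => ind_nonneg _) hw).trans ?_
  exact (ce_mk h2 B hθ w).trans (div_le_div_of_nonneg_right (hB w hw) hθ.le)

/-- **the exact mass does not see the side of `w`** -/
theorem side_bd {q : ℕ} (L0 : ℝ) {ζ ψ : Type*} {Z : Om → ζ} {Y : Om → ψ}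
    (hUY : Fac (AHR.UY M q) (fun u => (Y u, M.NP q u)))
    (hind : ∀ g : Om → ℝ, Fac (fun u => (Y u, M.NP q u)) g → ∀ w, M.P.p w ≠ 0 →
      M.P.ce (fun u => (Z u, M.NP (q + 1) u)) g w = M.P.ce (M.NP q) g w) {R : Om → Om → Prop}
    (hR : ∀ a b, Z a = Z b → M.NP q a = M.NP q b → R a = R b)
    (hx : ∀ w a b, M.P.p a ≠ 0 → M.P.p b ≠ 0 → Y a = Y b → M.NP q a = M.NP q b →
      M.P.ce (AHR.UY M q) (fun u => ind (R w u)) a = M.P.ce (AHR.UY M q) (fun u => ind (R w u)) b) {θ κ : ℝ}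
    (hθ : 0 < θ) (hκ : 0 ≤ κ) :
    M.P.Pr (fun w => exq M L0 q w ∧ (M.P.ce (M.NP q) (fun u => ind (R w u)) w ≤ κ ∧
      θ ≤ M.P.ce (AHR.UY M q) (fun u => ind (R w u)) w)) ≤ κ / θ * M.P.Pr (exq M L0 q) := by
  have e2 : κ / θ * M.P.Pr (exq M L0 q) = M.P.E (fun w => ind (exq M L0 q w) * (κ / θ)) := by
    rw [M.P.E_mul_const, mul_comm]
    rfl
  rw [e2]
  show M.P.E _ ≤ _
  rw [← M.P.E_ce (fun u => (Z u, M.NP (q + 1) u))]
  refine M.P.E_mono fun w hw => ?_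
  by_cases hE : exq M L0 q w ∧ M.P.ce (M.NP q) (fun u => ind (R w u)) w ≤ κ
  · rw [ind_of hE.1, one_mul]
    set g : Om → ℝ := fun u => ind (∃ v, M.P.p v ≠ 0 ∧ (Y v, M.NP q v) = (Y u, M.NP q u) ∧
      θ ≤ M.P.ce (AHR.UY M q) (fun x => ind (R w x)) v) with hg
    have hgf : Fac (fun u => (Y u, M.NP q u)) g := Fac.ind fun a b hab => by
      have hab' : (Y a, M.NP q a) = (Y b, M.NP q b) := hab
      rw [hab']
    have h1 : M.P.ce (fun u => (Z u, M.NP (q + 1) u)) (fun u => ind (exq M L0 q u ∧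
        (M.P.ce (M.NP q) (fun x => ind (R u x)) u ≤ κ ∧ θ ≤ M.P.ce (AHR.UY M q) (fun x => ind (R u x)) u))) w ≤
        M.P.ce (fun u => (Z u, M.NP (q + 1) u)) g w := by
      refine MV4.mono_on (M := M) fun u hu huw => ind_mono fun h => ⟨u, hu, rfl, ?_⟩
      have e3 : R w = R u := hR w u (Prod.mk.inj huw).1.symm (M.hN q _ _ (Prod.mk.inj huw).2).symm
      rw [e3]
      exact h.2.2
    refine h1.trans ?_
    rw [hind g hgf w hw]
    have h2 : M.P.ce (M.NP q) g w ≤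
        M.P.ce (M.NP q) (fun u => ind (θ ≤ M.P.ce (AHR.UY M q) (fun x => ind (R w x)) u)) w := by
      refine MV4.mono_on (M := M) fun u hu _ => ind_mono ?_
      rintro ⟨v, hv, hvu, h⟩
      rw [← hx w v u hv hu (Prod.mk.inj hvu).1 (Prod.mk.inj hvu).2]
      exact h
    exact h2.trans ((ce_mk (UY_NP (M := M) q) (R w) hθ w).trans (div_le_div_of_nonneg_right hE.2 hθ.le))
  · have h1 : M.P.ce (fun u => (Z u, M.NP (q + 1) u)) (fun u => ind (exq M L0 q u ∧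
        (M.P.ce (M.NP q) (fun x => ind (R u x)) u ≤ κ ∧ θ ≤ M.P.ce (AHR.UY M q) (fun x => ind (R u x)) u))) w ≤
        M.P.ce (fun u => (Z u, M.NP (q + 1) u)) (fun _ => 0) w := by
      refine MV4.mono_on (M := M) fun u hu huw => ?_
      rw [ind_not]
      rintro ⟨g1, g2, _⟩
      have e3 : R u = R w := hR u w (Prod.mk.inj huw).1 (M.hN q _ _ (Prod.mk.inj huw).2)
      refine hE ⟨?_, ?_⟩
      · rw [← exq_fac L0 q u w (Prod.mk.inj huw).2]
        exact g1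
      · rw [e3, M.P.ce_fac (M.NP q) _ u w (M.hN q _ _ (Prod.mk.inj huw).2)] at g2
        exact g2
    refine h1.trans ?_
    rw [M.P.ce_const _ _ hw]
    exact mul_nonneg (ind_nonneg _) (div_nonneg hκ hθ.le)

theorem ind_row (hI : PtI M T) (i : Fin 3) {q : ℕ} (hq : q % 5 = 1) (hqT : q < 5 * T) (g : Om → ℝ)
    (hg : Fac (fun u => (M.YP i u, M.NP q u)) g) (w : Om) (hw : M.P.p w ≠ 0) :
    M.P.ce (fun u => (CX M i q u, M.NP (q + 1) u)) g w = M.P.ce (M.NP q) g w := by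
  refine cls_ind (N' := M.NP (q + 1)) (fun a b hab => (Prod.mk.inj hab).2) hw ?_
  exact hI.md i q (fun u => ind ((CX M i q u, M.NP (q + 1) u) = (CX M i q w, M.NP (q + 1) w))) g hq hqT
    (Fac.ind fun a b hab => by rw [hab]) hg w hw

theorem ind_col (hI : PtI M T) (i : Fin 3) {q : ℕ} (hq : q % 5 = 1) (hqT : q < 5 * T) (g : Om → ℝ)
    (hg : Fac (fun u => (PX M i u, M.NP q u)) g) (w : Om) (hw : M.P.p w ≠ 0) :
    M.P.ce (fun u => (M.XL i q u, M.NP (q + 1) u)) g w = M.P.ce (M.NP q) g w := by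
  refine cls_ind (N' := M.NP (q + 1)) (fun a b hab => (Prod.mk.inj hab).2) hw ?_
  exact hI.mc i q (fun u => ind ((M.XL i q u, M.NP (q + 1) u) = (M.XL i q w, M.NP (q + 1) w))) g hq hqT
    (Fac.ind fun a b hab => by rw [hab]) hg w hw

/-! ### the static row and column -/

theorem nS_fac (q : ℕ) : Fac (M.NP q) (nS M q) := by
  refine CK.stg_fac (N := M.NP) M.hN (fun ν k _ a b hab => ?_) q
  unfold CS
  rw [nu_fac M (k + 1) a b hab]

/-- static row of the epoch of `q` -/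
def RW (M : MS Om) (X e : ℝ) (i : Fin 3) (q : ℕ) (w u : Om) : Prop := rwX M i (nS M q w) (SA M X e i (nS M q w)) w u

/-- static column of the epoch of `q` -/
def CW (M : MS Om) (X e : ℝ) (i : Fin 3) (q : ℕ) (w u : Om) : Prop := clX M i (nS M q w) (SA M X e i (nS M q w)) w u

variable {X e : ℝ}

theorem RW_congr (i : Fin 3) (q : ℕ) (a b : Om) (h1 : CX M i q a = CX M i q b) (h2 : M.NP q a = M.NP q b) :
    RW M X e i q a = RW M X e i q b := by
  funext u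
  unfold RW rwX
  rw [nS_fac q a b h2, NP_le (nS_le q b) h2, CX_le i (nS_le q b) h1]

theorem CW_congr (i : Fin 3) (q : ℕ) (a b : Om) (h1 : M.XL i q a = M.XL i q b) (h2 : M.NP q a = M.NP q b) :
    CW M X e i q a = CW M X e i q b := by
  funext u
  unfold CW clX
  rw [nS_fac q a b h2, NP_le (nS_le q b) h2, XL_le i (nS_le q b) h1]

theorem RW_fac (i : Fin 3) (q : ℕ) (w : Om) : Fac (fun u => (M.XL i q u, M.NP q u)) (RW M X e i q w) := by
  intro a b hab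
  unfold RW rwX
  rw [XL_le i (nS_le q w) (Prod.mk.inj hab).1]

theorem CW_fac (i : Fin 3) (q : ℕ) (w : Om) : Fac (fun u => (CX M i q u, M.NP q u)) (CW M X e i q w) := by
  intro a b hab
  unfold CW clX
  rw [CX_le i (nS_le q w) (Prod.mk.inj hab).1]

theorem RW_full (i : Fin 3) (q : ℕ) (w : Om) :
    Fac (fun u => (LF M (univ, univ) (nS M q w) u, M.NP (nS M q w) u)) (RW M X e i q w) := by
  intro a b hab
  unfold RW rwX
  rw [(LF_eq.1 (Prod.mk.inj hab).1).1 i (mem_univ i)]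

theorem CW_full (i : Fin 3) (q : ℕ) (w : Om) :
    Fac (fun u => (LF M (univ, univ) (nS M q w) u, M.NP (nS M q w) u)) (CW M X e i q w) := by
  intro a b hab
  have h1 := LF_eq.1 (Prod.mk.inj hab).1
  have h2 : CX M i (nS M q w) a = CX M i (nS M q w) b := CX_eq.2 ⟨fun j _ => h1.1 j (mem_univ j), h1.2.1 i (mem_univ i)⟩
  unfold CW clX
  rw [h2]

theorem RW_sub (i : Fin 3) {q : ℕ} {w u : Om} (h1 : CX M i q u = CX M i q w) (h2 : M.NP q u = M.NP q w)
    (h : RW M X e i q w u) : SA M X e i (nS M q w) u := by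
  obtain ⟨z, _, g1, g2, g3, g4⟩ := h
  have k1 := NP_le (M := M) (nS_le (M := M) q w) h2
  have k2 := CX_le (M := M) i (nS_le (M := M) q w) h1
  exact (SA_fac (g1.trans k1.symm) g3 (g2.trans k2.symm)).1 g4

theorem CW_sub (i : Fin 3) {q : ℕ} {w u : Om} (h1 : M.XL i q u = M.XL i q w) (h2 : M.NP q u = M.NP q w)
    (h : CW M X e i q w u) : SA M X e i (nS M q w) u := by
  obtain ⟨z, _, g1, g2, g3, g4⟩ := h
  have k1 := NP_le (M := M) (nS_le (M := M) q w) h2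
  have k2 := XL_le (M := M) i (nS_le (M := M) q w) h1
  exact (SA_fac (g1.trans k1.symm) (g2.trans k2.symm) g3).1 g4

variable {X1 a b c e0 : ℝ}

/-- the static relation is fresh or listed -/
theorem SA_fwd (h48 : 48 * M.d0 ≤ e / 4) (h4 : 4 * M.d0 ≤ 1) (i : Fin 3) {q : ℕ} (hq : q % 5 ≤ 1) {w u : Om}
    (hu : M.P.p u ≠ 0) (huw : M.NP q u = M.NP q w) (h : SA M (X1 + 1) (e / 2) i (nS M q w) u) :
    SA M (X1 + 2) (e / 4) i q u ∨ Lst M (nu M q u) q u := by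
  by_cases hl : Lst M (nu M q u) q u
  · exact Or.inr hl
  · have hd0 := M.hd0
    rw [← nS_fac q u w huw] at h
    exact Or.inl (SA_mono (by linarith) (by linarith) (SA_unl' i hu (nu_le_nS hq u) (nS_le q u) hl h))

/-- **class mass of the static row** -/
theorem kap_row (hB : BnR M T (X1 + 2) a b c) (hF : Fre M T (X1 + 2) (e / 4) e0) (hI : PtI M T) (ha : 0 ≤ a) (hc : 0 ≤ c)
    (h48 : 48 * M.d0 ≤ e / 4) (h4 : 4 * M.d0 ≤ 1) (i : Fin 3) {q : ℕ} (hq : q % 5 = 1) (hqT : q < 5 * T) {w : Om}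
    (hw : M.P.p w ≠ 0) (hLC : LC M q w ≤ X1) (hal : -X1 ≤ lf M (univ.erase i, {i}) q w) {k : ℝ}
    (hpt : M.P.ce (fun u => (PX M i u, M.NP q u)) (fun u => ind (Lst M (nu M q u) q u)) w ≤ k) :
    M.P.ce (M.NP q) (fun u => ind (RW M (X1 + 1) (e / 2) i q w u)) w ≤ a * (b + X1) + c * (e0 + Real.exp (X1 + 2) * k) := by
  have h1 := hB.bD i q (RW M (X1 + 1) (e / 2) i q w) hq.le hqT.le (RW_fac i q w) w hw (by linarith)
  have h2 : M.P.ce (fun u => (CX M i q u, M.NP q u)) (fun u => ind (RW M (X1 + 1) (e / 2) i q w u)) w ≤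
      M.P.ce (fun u => (CX M i q u, M.NP q u)) (fun u => ind (SA M (X1 + 2) (e / 4) i q u)) w +
      M.P.ce (fun u => (CX M i q u, M.NP q u)) (fun u => ind (Lst M (nu M q u) q u)) w :=
    ce_ind_or fun u hu huw g => SA_fwd h48 h4 i hq.le hu (Prod.mk.inj huw).2
      (RW_sub i (Prod.mk.inj huw).1 (Prod.mk.inj huw).2 g)
  have h3 := hF.row i q w hw hq hqT (by linarith) (by linarith)
  have pm := M.P.m_pos (fun u => (CX M i q u, M.NP q u)) hw
  have h5 := ce_fine (M := M) (CX_PX (M := M) i q) (θ := Real.exp (X1 + 2)) hw (by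
    rw [mC hI i q hw]
    exact mul_le_mul_of_nonneg_right (Real.exp_le_exp.2 (by linarith)) pm.le) (fun u => Lst M (nu M q u) q u)
  have h6 := mul_le_mul_of_nonneg_left hpt (Real.exp_pos (X1 + 2)).le
  have h7 := mul_le_mul_of_nonneg_left (h2.trans (add_le_add h3 (h5.trans h6))) hc
  have h8 := mul_le_mul_of_nonneg_left (show b + LC M q w ≤ b + X1 by linarith) ha
  linarith

/-- **class mass of the static column** -/
theorem kap_col (hB : BnR M T (X1 + 2) a b c) (hF : Fre M T (X1 + 2) (e / 4) e0) (hI : PtI M T) (ha : 0 ≤ a) (hc : 0 ≤ c)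
    (h48 : 48 * M.d0 ≤ e / 4) (h4 : 4 * M.d0 ≤ 1) (i : Fin 3) {q : ℕ} (hq : q % 5 = 1) (hqT : q < 5 * T) {w : Om}
    (hw : M.P.p w ≠ 0) (hLC : LC M q w ≤ X1) (hal : -X1 ≤ lf M ({i}, ∅) q w) {k : ℝ}
    (hpt : M.P.ce (fun u => (M.YP i u, M.NP q u)) (fun u => ind (Lst M (nu M q u) q u)) w ≤ k) :
    M.P.ce (M.NP q) (fun u => ind (CW M (X1 + 1) (e / 2) i q w u)) w ≤
      a * (b + X1) + c * (e0 + Real.exp (X1 + 2) * k) + M.k0 := by
  have hd0 := M.hd0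
  set A : Om → Prop := fun u => ∃ v, M.P.p v ≠ 0 ∧ (CX M i q v, M.NP q v) = (CX M i q u, M.NP q u) ∧ M.NP q v = M.NP q w ∧
    CW M (X1 + 1) (e / 2) i q w v ∧ ∀ j, j ≠ i → -(X1 + 2) ≤ lf M ({j}, ∅) q v with hA
  have hAf : Fac (fun u => (CX M i q u, M.NP q u)) A := by
    intro x y hxy
    have hxy' : (CX M i q x, M.NP q x) = (CX M i q y, M.NP q y) := hxy
    simp only [hA, hxy']
  have hAl : ∀ u, M.P.p u ≠ 0 → A u → ∀ j, j ≠ i → -(X1 + 2) ≤ lf M ({j}, ∅) q u := by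
    rintro u hu ⟨v, hv, g1, _, _, g4⟩ j hj
    rw [← lf_own hI j q hv hu ((CX_eq.1 (Prod.mk.inj g1).1).1 j hj) (Prod.mk.inj g1).2]
    exact g4 j hj
  have h1 := hB.bC i q A hq.le hqT.le hAf hAl w hw (by linarith)
  -- the dead letters are listed
  have h0 : M.P.ce (M.NP q) (fun u => ind (CW M (X1 + 1) (e / 2) i q w u)) w ≤ M.P.ce (M.NP q) (fun u => ind (A u)) w +
      M.P.ce (M.NP q) (fun u => ind (Lst M (nu M q w) q u)) w := by
    refine ce_ind_or fun u hu huw g => ?_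
    by_cases hall : ∀ j, j ≠ i → -(X1 + 2) ≤ lf M ({j}, ∅) q u
    · exact Or.inl ⟨u, hu, rfl, huw, g, hall⟩
    · push Not at hall
      obtain ⟨j, hj, hj2⟩ := hall
      obtain ⟨z, hz, g1, g2, g3, g4⟩ := g
      have k1 : M.NP (nS M q w) z = M.NP (nS M q w) u := g1.trans (NP_le (nS_le q w) huw).symm
      have k2 := lf_own hI j (nS M q w) hz hu ((CX_eq.1 g3).1 j hj) k1
      have k3 : -(X1 + 1) ≤ lf M ({j}, ∅) (nS M q w) u := by
        rw [← k2]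
        exact g4.2.1 j
      exact Or.inr (alive_dead' ({j}, ∅) hu huw (nu_le_nS hq.le w) (nS_le q w) k3 (by linarith))
  have h0' := Lst_mass M q hw
  have h2 : M.P.ce (fun u => (M.XL i q u, M.NP q u)) (fun u => ind (A u)) w ≤
      M.P.ce (fun u => (M.XL i q u, M.NP q u)) (fun u => ind (SA M (X1 + 2) (e / 4) i q u)) w +
      M.P.ce (fun u => (M.XL i q u, M.NP q u)) (fun u => ind (Lst M (nu M q u) q u)) w := by
    refine ce_ind_or fun u hu huw g => ?_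
    obtain ⟨v, hv, g1, _, g3, _⟩ := g
    have g5 : CW M (X1 + 1) (e / 2) i q w u := by
      rw [← CW_fac i q w v u g1]
      exact g3
    exact SA_fwd h48 h4 i hq.le hu (Prod.mk.inj huw).2 (CW_sub i (Prod.mk.inj huw).1 (Prod.mk.inj huw).2 g5)
  have h3 := hF.col i q w hw hq hqT (by linarith) (by linarith)
  have pm := M.P.m_pos (fun u => (M.XL i q u, M.NP q u)) hw
  have h5 := ce_fine (M := M) (XL_YP (M := M) i q) (θ := Real.exp (X1 + 2)) hw (by
    rw [mD hI i q hw]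
    exact mul_le_mul_of_nonneg_right (Real.exp_le_exp.2 (by linarith)) pm.le) (fun u => Lst M (nu M q u) q u)
  have h6 := mul_le_mul_of_nonneg_left hpt (Real.exp_pos (X1 + 2)).le
  have h7 := mul_le_mul_of_nonneg_left (h2.trans (add_le_add h3 (h5.trans h6))) hc
  have h8 := mul_le_mul_of_nonneg_left (show b + LC M q w ≤ b + X1 by linarith) ha
  linarith

/-! ### the reduction -/

theorem sum5 (f : ℕ → ℝ) (T : ℕ) : ∑ q ∈ range (5 * T), (if q % 5 = 1 then f q else 0) = ∑ t ∈ range T, f (5 * t + 1) := by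
  induction T with
  | zero => simp
  | succ T ih =>
    rw [show 5 * (T + 1) = 5 * T + 1 + 1 + 1 + 1 + 1 by ring, Finset.sum_range_succ, Finset.sum_range_succ,
      Finset.sum_range_succ, Finset.sum_range_succ, Finset.sum_range_succ, ih, Finset.sum_range_succ,
      if_neg (by omega), if_pos (by omega), if_neg (by omega), if_neg (by omega), if_neg (by omega)]
    ring

variable {p1 L0 : ℝ}

/-- **one removal** -/
theorem red_one (hPr : PrN M) (hB : BnR M T (X1 + 2) a b c) (hF : Fre M T (X1 + 2) (e / 4) e0) (hI : PtI M T)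
    (ha : 0 ≤ a) (hc : 0 ≤ c) (hbX : 0 ≤ b + X1) (he0 : 0 ≤ e0) (h48 : 48 * M.d0 ≤ e / 4) (h4 : 4 * M.d0 ≤ 1)
    (hp : 12 * M.d0 + 2 * Real.sqrt M.k0 ≤ p1 / 4) (hL : Real.log 2 ≤ L0) (i : Fin 3) {q : ℕ} (hcd : M.cd q)
    (hq : q % 5 = 1) (hqT : q < 5 * T) :
    M.P.Pr (fun w => exq M L0 q w ∧ SA M X1 e i q w) ≤
      M.P.Pr (fun w => exq M L0 q w ∧ HS M (X1 + 1) (e / 2) p1 i (nS M q w) w) +
      M.P.Pr (fun w => lt5 M M.NP q w ∧ Lst M (nu M q w) q w) + M.P.Pr (fun w => X1 < LC M q w) +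
      (3 * Real.sqrt M.k0 + 8 * (a * (b + X1) + c * (e0 + Real.exp (X1 + 2) * Real.sqrt M.k0) + M.k0) / p1) *
        M.P.Pr (exq M L0 q) := by
  have hd0 := M.hd0
  have hk0 := M.hk0
  have hs : 0 < Real.sqrt M.k0 := Real.sqrt_pos.2 hk0
  have hp1 : 0 < p1 := by linarith
  have hX2 := Real.exp_pos (X1 + 2)
  set κ1 : ℝ := a * (b + X1) + c * (e0 + Real.exp (X1 + 2) * Real.sqrt M.k0) with hκ1
  have hκ0 : 0 ≤ κ1 := add_nonneg (mul_nonneg ha hbX) (mul_nonneg hc (add_nonneg he0 (mul_pos hX2 hs).le))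
  set BL : Om → Prop := fun u => Lst M (nu M q u) q u with hBL
  have hBm : ∀ w, M.P.p w ≠ 0 → M.P.ce (M.NP q) (fun u => ind (BL u)) w ≤ M.k0 := fun w hw => (Lst_mass' M q hw).le
  have hks : M.k0 / Real.sqrt M.k0 = Real.sqrt M.k0 := by
    rw [div_eq_iff hs.ne', Real.mul_self_sqrt hk0.le]
  have t3 := pt_bd hPr hcd L0 (Z := AHR.UY M q) (Fac.refl _) (UY_NP q) hs hBm
  have t4 := pt_bd hPr hcd L0 (Z := fun u => (PX M i u, M.NP q u)) (UY_PX i q) (PX_NP i q) hs hBm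
  have t5 := pt_bd hPr hcd L0 (Z := fun u => (M.YP i u, M.NP q u)) (UY_YP i q) (YP_NP i q) hs hBm
  rw [hks] at t3 t4 t5
  have t6 := side_bd (M := M) (q := q) L0 (Z := CX M i q) (Y := M.YP i) (UY_YP i q) (ind_row hI i hq hqT)
    (R := RW M (X1 + 1) (e / 2) i q) (RW_congr i q)
    (fun w x y hx hy h1 h2 => hI.xd i q (RW M (X1 + 1) (e / 2) i q w) (RW_fac i q w) x y hx hy h1 h2)
    (θ := p1 / 2) (κ := κ1) (by linarith) hκ0
  have t7 := side_bd (M := M) (q := q) L0 (Z := M.XL i q) (Y := PX M i) (UY_PX i q) (ind_col hI i hq hqT)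
    (R := CW M (X1 + 1) (e / 2) i q) (CW_congr i q)
    (fun w x y hx hy h1 h2 => hI.xc i q (CW M (X1 + 1) (e / 2) i q w) (CW_fac i q w) x y hx hy h1 h2)
    (θ := p1 / 2) (κ := κ1 + M.k0) (by linarith) (add_nonneg hκ0 hk0.le)
  -- the pointwise decomposition
  have key : ∀ w, M.P.p w ≠ 0 → exq M L0 q w ∧ SA M X1 e i q w →
      (exq M L0 q w ∧ HS M (X1 + 1) (e / 2) p1 i (nS M q w) w) ∨ ((lt5 M M.NP q w ∧ Lst M (nu M q w) q w) ∨
      (X1 < LC M q w ∨ ((exq M L0 q w ∧ Real.sqrt M.k0 ≤ M.P.ce (AHR.UY M q) (fun u => ind (BL u)) w) ∨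
      ((exq M L0 q w ∧ Real.sqrt M.k0 ≤ M.P.ce (fun u => (PX M i u, M.NP q u)) (fun u => ind (BL u)) w) ∨
      ((exq M L0 q w ∧ Real.sqrt M.k0 ≤ M.P.ce (fun u => (M.YP i u, M.NP q u)) (fun u => ind (BL u)) w) ∨
      ((exq M L0 q w ∧ (M.P.ce (M.NP q) (fun u => ind (RW M (X1 + 1) (e / 2) i q w u)) w ≤ κ1 ∧
        p1 / 2 ≤ M.P.ce (AHR.UY M q) (fun u => ind (RW M (X1 + 1) (e / 2) i q w u)) w)) ∨
      (exq M L0 q w ∧ (M.P.ce (M.NP q) (fun u => ind (CW M (X1 + 1) (e / 2) i q w u)) w ≤ κ1 + M.k0 ∧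
        p1 / 2 ≤ M.P.ce (AHR.UY M q) (fun u => ind (CW M (X1 + 1) (e / 2) i q w u)) w)))))))) := by
    rintro w hw ⟨hE, hS⟩
    by_cases c2 : Lst M (nu M q w) q w
    · exact Or.inr (Or.inl ⟨exq_lt5 hL hcd hw hE, c2⟩)
    by_cases c3 : X1 < LC M q w
    · exact Or.inr (Or.inr (Or.inl c3))
    by_cases c4 : Real.sqrt M.k0 ≤ M.P.ce (AHR.UY M q) (fun u => ind (BL u)) w
    · exact Or.inr (Or.inr (Or.inr (Or.inl ⟨hE, c4⟩)))
    by_cases c5 : Real.sqrt M.k0 ≤ M.P.ce (fun u => (PX M i u, M.NP q u)) (fun u => ind (BL u)) w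
    · exact Or.inr (Or.inr (Or.inr (Or.inr (Or.inl ⟨hE, c5⟩))))
    by_cases c6 : Real.sqrt M.k0 ≤ M.P.ce (fun u => (M.YP i u, M.NP q u)) (fun u => ind (BL u)) w
    · exact Or.inr (Or.inr (Or.inr (Or.inr (Or.inr (Or.inl ⟨hE, c6⟩)))))
    push Not at c3 c4 c5 c6
    have hr := nu_le_nS (M := M) hq.le w
    have hrq := nS_le (M := M) q w
    have hSr : SA M (X1 + 1) (e / 2) i (nS M q w) w :=
      SA_mono (by linarith) (by linarith) (SA_unl i hw hr hrq c2 hS)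
    have hLu : M.P.ce (AHR.UY M q) (fun x => ind (Lst M (nu M q w) q x)) w < Real.sqrt M.k0 := by
      refine lt_of_le_of_lt (le_of_eq (ce_ind_iff fun u _ huw => ?_)) c4
      rw [nu_fac M q w u (UY_eq.1 huw).2.symm]
    by_cases c7 : M.P.ce (AHR.UY M (nS M q w)) (fun u => ind (RW M (X1 + 1) (e / 2) i q w u)) w ≤ p1
    · by_cases c8 : M.P.ce (AHR.UY M (nS M q w)) (fun u => ind (CW M (X1 + 1) (e / 2) i q w u)) w ≤ p1
      · exact Or.inl ⟨hE, hSr, c7, c8⟩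
      · push Not at c8
        have k1 := mass_bwd (M := M) h4 hr hrq (CW_full (X := X1 + 1) (e := e / 2) i q w) hw
        have k2 := kap_col hB hF hI ha hc h48 h4 i hq hqT hw c3 (hS.2.1 i) c6.le
        refine Or.inr (Or.inr (Or.inr (Or.inr (Or.inr (Or.inr (Or.inr ⟨hE, k2, ?_⟩))))))
        linarith
    · push Not at c7
      have k1 := mass_bwd (M := M) h4 hr hrq (RW_full (X := X1 + 1) (e := e / 2) i q w) hw
      have k2 := kap_row hB hF hI ha hc h48 h4 i hq hqT hw c3 hS.2.2 c5.le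
      refine Or.inr (Or.inr (Or.inr (Or.inr (Or.inr (Or.inr (Or.inl ⟨hE, k2, ?_⟩))))))
      linarith
  have hsum := M.P.Pr_mono key
  have u1 := M.P.Pr_or_le (fun w => exq M L0 q w ∧ HS M (X1 + 1) (e / 2) p1 i (nS M q w) w) (fun w =>
      ((lt5 M M.NP q w ∧ Lst M (nu M q w) q w) ∨
      (X1 < LC M q w ∨ ((exq M L0 q w ∧ Real.sqrt M.k0 ≤ M.P.ce (AHR.UY M q) (fun u => ind (BL u)) w) ∨
      ((exq M L0 q w ∧ Real.sqrt M.k0 ≤ M.P.ce (fun u => (PX M i u, M.NP q u)) (fun u => ind (BL u)) w) ∨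
      ((exq M L0 q w ∧ Real.sqrt M.k0 ≤ M.P.ce (fun u => (M.YP i u, M.NP q u)) (fun u => ind (BL u)) w) ∨
      ((exq M L0 q w ∧ (M.P.ce (M.NP q) (fun u => ind (RW M (X1 + 1) (e / 2) i q w u)) w ≤ κ1 ∧
        p1 / 2 ≤ M.P.ce (AHR.UY M q) (fun u => ind (RW M (X1 + 1) (e / 2) i q w u)) w)) ∨
      (exq M L0 q w ∧ (M.P.ce (M.NP q) (fun u => ind (CW M (X1 + 1) (e / 2) i q w u)) w ≤ κ1 + M.k0 ∧
        p1 / 2 ≤ M.P.ce (AHR.UY M q) (fun u => ind (CW M (X1 + 1) (e / 2) i q w u)) w)))))))))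
  have u2 := M.P.Pr_or_le (fun w => lt5 M M.NP q w ∧ Lst M (nu M q w) q w) (fun w =>
      (X1 < LC M q w ∨ ((exq M L0 q w ∧ Real.sqrt M.k0 ≤ M.P.ce (AHR.UY M q) (fun u => ind (BL u)) w) ∨
      ((exq M L0 q w ∧ Real.sqrt M.k0 ≤ M.P.ce (fun u => (PX M i u, M.NP q u)) (fun u => ind (BL u)) w) ∨
      ((exq M L0 q w ∧ Real.sqrt M.k0 ≤ M.P.ce (fun u => (M.YP i u, M.NP q u)) (fun u => ind (BL u)) w) ∨
      ((exq M L0 q w ∧ (M.P.ce (M.NP q) (fun u => ind (RW M (X1 + 1) (e / 2) i q w u)) w ≤ κ1 ∧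
        p1 / 2 ≤ M.P.ce (AHR.UY M q) (fun u => ind (RW M (X1 + 1) (e / 2) i q w u)) w)) ∨
      (exq M L0 q w ∧ (M.P.ce (M.NP q) (fun u => ind (CW M (X1 + 1) (e / 2) i q w u)) w ≤ κ1 + M.k0 ∧
        p1 / 2 ≤ M.P.ce (AHR.UY M q) (fun u => ind (CW M (X1 + 1) (e / 2) i q w u)) w))))))))
  have u3 := M.P.Pr_or_le (fun w => X1 < LC M q w) (fun w =>
      ((exq M L0 q w ∧ Real.sqrt M.k0 ≤ M.P.ce (AHR.UY M q) (fun u => ind (BL u)) w) ∨
      ((exq M L0 q w ∧ Real.sqrt M.k0 ≤ M.P.ce (fun u => (PX M i u, M.NP q u)) (fun u => ind (BL u)) w) ∨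
      ((exq M L0 q w ∧ Real.sqrt M.k0 ≤ M.P.ce (fun u => (M.YP i u, M.NP q u)) (fun u => ind (BL u)) w) ∨
      ((exq M L0 q w ∧ (M.P.ce (M.NP q) (fun u => ind (RW M (X1 + 1) (e / 2) i q w u)) w ≤ κ1 ∧
        p1 / 2 ≤ M.P.ce (AHR.UY M q) (fun u => ind (RW M (X1 + 1) (e / 2) i q w u)) w)) ∨
      (exq M L0 q w ∧ (M.P.ce (M.NP q) (fun u => ind (CW M (X1 + 1) (e / 2) i q w u)) w ≤ κ1 + M.k0 ∧
        p1 / 2 ≤ M.P.ce (AHR.UY M q) (fun u => ind (CW M (X1 + 1) (e / 2) i q w u)) w)))))))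
  have u4 := M.P.Pr_or_le (fun w => exq M L0 q w ∧ Real.sqrt M.k0 ≤ M.P.ce (AHR.UY M q) (fun u => ind (BL u)) w) (fun w =>
      ((exq M L0 q w ∧ Real.sqrt M.k0 ≤ M.P.ce (fun u => (PX M i u, M.NP q u)) (fun u => ind (BL u)) w) ∨
      ((exq M L0 q w ∧ Real.sqrt M.k0 ≤ M.P.ce (fun u => (M.YP i u, M.NP q u)) (fun u => ind (BL u)) w) ∨
      ((exq M L0 q w ∧ (M.P.ce (M.NP q) (fun u => ind (RW M (X1 + 1) (e / 2) i q w u)) w ≤ κ1 ∧
        p1 / 2 ≤ M.P.ce (AHR.UY M q) (fun u => ind (RW M (X1 + 1) (e / 2) i q w u)) w)) ∨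
      (exq M L0 q w ∧ (M.P.ce (M.NP q) (fun u => ind (CW M (X1 + 1) (e / 2) i q w u)) w ≤ κ1 + M.k0 ∧
        p1 / 2 ≤ M.P.ce (AHR.UY M q) (fun u => ind (CW M (X1 + 1) (e / 2) i q w u)) w))))))
  have u5 := M.P.Pr_or_le (fun w => exq M L0 q w ∧
      Real.sqrt M.k0 ≤ M.P.ce (fun u => (PX M i u, M.NP q u)) (fun u => ind (BL u)) w) (fun w =>
      ((exq M L0 q w ∧ Real.sqrt M.k0 ≤ M.P.ce (fun u => (M.YP i u, M.NP q u)) (fun u => ind (BL u)) w) ∨
      ((exq M L0 q w ∧ (M.P.ce (M.NP q) (fun u => ind (RW M (X1 + 1) (e / 2) i q w u)) w ≤ κ1 ∧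
        p1 / 2 ≤ M.P.ce (AHR.UY M q) (fun u => ind (RW M (X1 + 1) (e / 2) i q w u)) w)) ∨
      (exq M L0 q w ∧ (M.P.ce (M.NP q) (fun u => ind (CW M (X1 + 1) (e / 2) i q w u)) w ≤ κ1 + M.k0 ∧
        p1 / 2 ≤ M.P.ce (AHR.UY M q) (fun u => ind (CW M (X1 + 1) (e / 2) i q w u)) w)))))
  have u6 := M.P.Pr_or_le (fun w => exq M L0 q w ∧
      Real.sqrt M.k0 ≤ M.P.ce (fun u => (M.YP i u, M.NP q u)) (fun u => ind (BL u)) w) (fun w =>
      ((exq M L0 q w ∧ (M.P.ce (M.NP q) (fun u => ind (RW M (X1 + 1) (e / 2) i q w u)) w ≤ κ1 ∧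
        p1 / 2 ≤ M.P.ce (AHR.UY M q) (fun u => ind (RW M (X1 + 1) (e / 2) i q w u)) w)) ∨
      (exq M L0 q w ∧ (M.P.ce (M.NP q) (fun u => ind (CW M (X1 + 1) (e / 2) i q w u)) w ≤ κ1 + M.k0 ∧
        p1 / 2 ≤ M.P.ce (AHR.UY M q) (fun u => ind (CW M (X1 + 1) (e / 2) i q w u)) w))))
  have u7 := M.P.Pr_or_le (fun w => exq M L0 q w ∧ (M.P.ce (M.NP q) (fun u => ind (RW M (X1 + 1) (e / 2) i q w u)) w ≤ κ1 ∧
        p1 / 2 ≤ M.P.ce (AHR.UY M q) (fun u => ind (RW M (X1 + 1) (e / 2) i q w u)) w)) (fun w =>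
      (exq M L0 q w ∧ (M.P.ce (M.NP q) (fun u => ind (CW M (X1 + 1) (e / 2) i q w u)) w ≤ κ1 + M.k0 ∧
        p1 / 2 ≤ M.P.ce (AHR.UY M q) (fun u => ind (CW M (X1 + 1) (e / 2) i q w u)) w)))
  have hPx := M.P.Pr_nonneg (exq M L0 q)
  have hfin : κ1 / (p1 / 2) * M.P.Pr (exq M L0 q) + (κ1 + M.k0) / (p1 / 2) * M.P.Pr (exq M L0 q) ≤
      8 * (κ1 + M.k0) / p1 * M.P.Pr (exq M L0 q) := by
    rw [← add_mul]
    refine mul_le_mul_of_nonneg_right ?_ hPx
    rw [← add_div, div_le_div_iff₀ (by linarith) hp1]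
    nlinarith
  have e9 : (3 * Real.sqrt M.k0 + 8 * (κ1 + M.k0) / p1) * M.P.Pr (exq M L0 q) =
      Real.sqrt M.k0 * M.P.Pr (exq M L0 q) + Real.sqrt M.k0 * M.P.Pr (exq M L0 q) +
      Real.sqrt M.k0 * M.P.Pr (exq M L0 q) + 8 * (κ1 + M.k0) / p1 * M.P.Pr (exq M L0 q) := by ring
  rw [e9]
  linarith

/-- **REDUCTION TO THE STATIC RELATIONS** (row (E2)) -/
theorem red (hPr : PrN M) {Tot : ℝ} (hT : Tot0 M (5 * T) Tot) (hk : M.k0 < 1) (hB : BnR M T (X1 + 2) a b c)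
    (hF : Fre M T (X1 + 2) (e / 4) e0) (hI : PtI M T) (ha : 0 ≤ a) (hc : 0 ≤ c) (hbX : 0 ≤ b + X1) (he0 : 0 ≤ e0)
    (h48 : 48 * M.d0 ≤ e / 4) (h4 : 4 * M.d0 ≤ 1) (hp : 12 * M.d0 + 2 * Real.sqrt M.k0 ≤ p1 / 4) (hL : Real.log 2 ≤ L0)
    (hcd : ∀ q, q % 5 = 1 → q < 5 * T → M.cd q) (i : Fin 3) :
    ∑ q ∈ range (5 * T), M.P.Pr (fun w => exq M L0 q w ∧ SA M X1 e i q w) ≤
      ∑ q ∈ range (5 * T), M.P.Pr (fun w => exq M L0 q w ∧ HS M (X1 + 1) (e / 2) p1 i (nS M q w) w) +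
      2 / Real.log (1 / M.k0) * (Tot + Real.sqrt M.k0 * NL M (5 * T)) +
      ∑ t ∈ range T, M.P.Pr (fun w => X1 < LC M (5 * t + 1) w) +
      (3 * Real.sqrt M.k0 + 8 * (a * (b + X1) + c * (e0 + Real.exp (X1 + 2) * Real.sqrt M.k0) + M.k0) / p1) *
        ∑ q ∈ range (5 * T), M.P.Pr (exq M L0 q) := by
  have h1 : ∀ q ∈ range (5 * T), M.P.Pr (fun w => exq M L0 q w ∧ SA M X1 e i q w) ≤
      M.P.Pr (fun w => exq M L0 q w ∧ HS M (X1 + 1) (e / 2) p1 i (nS M q w) w) +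
      M.P.Pr (fun w => lt5 M M.NP q w ∧ Lst M (nu M q w) q w) +
      (if q % 5 = 1 then M.P.Pr (fun w => X1 < LC M q w) else 0) +
      (3 * Real.sqrt M.k0 + 8 * (a * (b + X1) + c * (e0 + Real.exp (X1 + 2) * Real.sqrt M.k0) + M.k0) / p1) *
        M.P.Pr (exq M L0 q) := by
    intro q hqT
    by_cases hq : q % 5 = 1
    · rw [if_pos hq]
      exact red_one hPr hB hF hI ha hc hbX he0 h48 h4 hp hL i (hcd q hq (mem_range.1 hqT)) hq (mem_range.1 hqT)
    · rw [if_neg hq]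
      have e1 : M.P.Pr (fun w => exq M L0 q w ∧ SA M X1 e i q w) = 0 := by
        show M.P.E _ = 0
        rw [M.P.E_congr (g := fun _ => (0 : ℝ)) fun w _ => ind_not fun h => hq h.1.1, M.P.E_const]
      have e2 : M.P.Pr (exq M L0 q) = 0 := by
        show M.P.E _ = 0
        rw [M.P.E_congr (g := fun _ => (0 : ℝ)) fun w _ => ind_not fun h => hq h.1, M.P.E_const]
      rw [e1, e2, mul_zero, add_zero, add_zero]
      exact add_nonneg (M.P.Pr_nonneg _) (M.P.Pr_nonneg _)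
  have h2 := Finset.sum_le_sum h1
  rw [Finset.sum_add_distrib, Finset.sum_add_distrib, Finset.sum_add_distrib, ← Finset.mul_sum,
    sum5 (fun q => M.P.Pr (fun w => X1 < LC M q w))] at h2
  have h3 := Lst_thr hPr hT hk
  linarith

end

section tab

open Pool.Agent.GM Pool.Agent.GM.Harm Pool.Agent.GMH.Dy Pool.Agent.GMH.RZ Pool.Agent.GMH.KF

variable {X β : Type} [Fintype X] [Fintype β] [Nonempty X] [Nonempty β] {W : Type} [Fintype W] {M : MS (Om W X β)}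

theorem LinR.bn {T : ℕ} {X1 a b c : ℝ} (h : LinR M T X1 a b c) : BnR M T X1 a b c := ⟨h.bD, h.bC⟩

end tab

end Pool.Agent.GMH.Sng
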