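import Pool.Agent.GMH.SngJ
import Pool.Agent.GMH.SngM
import Pool.Agent.GMH.KinF

/-!
# GMH/SngR1 (helper80): laws of the letter with the cells of a state (abstract part of the row form, kind `S`)

* `three_S2` : three laws near one law, different distances;
* `l1_cell`, `Tst_cell` : law of the letter with the cells of a state;
* `set_cells`, `sgl_cells` : the bad sets of the true law, from the laws near the clean one.
(The run part `row_T` was planned on top of this file; it was not written.)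
-/

set_option autoImplicit false
set_option linter.unusedSectionVars false

namespace Pool.Agent.GMH.SngA

open Finset Pool.Agent.PWZ Pool.Agent.M3 Pool.Agent.GM Pool.Agent.GM.Harm Pool.Agent.GMH Pool.Agent.GMH.RarX

section three

variable {κ : Type*} (s : Finset κ) {r1 r2 r3 R : κ → ℝ}

/-- three laws near one law: the logarithm of the quotient of the first two -/
theorem three_S2 (n1 : ∀ z, 0 ≤ r1 z) (n2 : ∀ z, 0 ≤ r2 z) {e δ1 δ2 δ3 : ℝ} (he : 0 < e) (he1 : e ≤ 1)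
    (h1 : ∑ z ∈ s, |r1 z - R z| ≤ δ1) (h2 : ∑ z ∈ s, |r2 z - R z| ≤ δ2)
    (h3 : ∑ z ∈ s, |r3 z - R z| ≤ δ3) :
    ∑ z ∈ s, ind (e ≤ |Real.log (r1 z / r2 z)|) * r3 z ≤ δ3 + (1 + 2 / e) * δ1 + 2 / e * δ2 := by
  have h4 : ∀ z ∈ s, ind (e ≤ |Real.log (r1 z / r2 z)|) * r3 z ≤
      |r3 z - R z| + (1 + 2 / e) * |r1 z - R z| + 2 / e * |r2 z - R z| := by
    intro z _
    have a1 := le_abs_self (r3 z - R z)
    have b1 := abs_nonneg (r3 z - R z)
    have b2 := abs_nonneg (r1 z - R z)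
    have b3 := abs_nonneg (r2 z - R z)
    by_cases h : e ≤ |Real.log (r1 z / r2 z)|
    · rw [ind_of h, one_mul]
      have key : r1 z ≤ 2 / e * |r1 z - r2 z| := by
        have := (SngM.log_big (n1 z) (n2 z) he he1 h).1
        rw [div_mul_eq_mul_div, le_div_iff₀ he]
        linarith
      have k1 : |r1 z - r2 z| ≤ |r1 z - R z| + |r2 z - R z| := by
        have := abs_sub_le (r1 z) (R z) (r2 z)
        rw [abs_sub_comm (R z) (r2 z)] at this
        exact this
      have k2 := mul_le_mul_of_nonneg_left k1 (show 0 ≤ 2 / e by positivity)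
      have k3 : r3 z ≤ |r3 z - R z| + |r1 z - R z| + r1 z := by
        have := neg_abs_le (r1 z - R z)
        linarith
      nlinarith
    · rw [ind_not h, zero_mul]
      positivity
  refine (Finset.sum_le_sum h4).trans ?_
  rw [Finset.sum_add_distrib, Finset.sum_add_distrib, ← Finset.mul_sum, ← Finset.mul_sum]
  have c1 : 0 ≤ 1 + 2 / e := by positivity
  have c2 : 0 ≤ 2 / e := by positivity
  have d1 := mul_le_mul_of_nonneg_left h1 c1
  have d2 := mul_le_mul_of_nonneg_left h2 c2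
  linarith

end three

section cls

variable {K X β γ φ υ : Type} [Fintype K] [DecidableEq K] [Fintype X] [Fintype β] [Fintype φ] [Nonempty X] [Nonempty β]
  {D : HD K X β γ φ} {al : ℝ} {h : D.Thick al} {N : Finset K → ℝ} {S : Finset (Finset K)}
  {U : Finset K → X → (K → β) → υ} {t s1 s2 : ℕ} {b c d : K} {w0 : Pt K X β φ} {V V1 V2 V3 : Pt K X β φ → Prop}
  {L : ℝ} {I : Finset K}

/-- law of the letter with the cells of the time `s` -/
theorem l1_cell (B : Bk h N S U t b c d) (J : Ix h U t I w0 V) (hIc : ∀ j, j ≠ c → j ∈ I) (hcI : c ∉ I)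
    (hL : LX h U t I w0 V ≤ L) (s : ℕ) (hs : 1 / 2 ≤ (QX h U t I w0).Pr (HC D s w0)) :
    ∑ z ∈ vals (zf (φ := φ) U c), |lw ((D.P h t).cond (VH D s univ w0 V)) (zf U c) z -
      lw ((D.P h t).cond (VH D s univ w0 (xc D U t I w0))) (zf U c) z| ≤ 2 * Real.sqrt (2 * kI N c L) := by
  have Jc := Ix_cls (I := I) B J.supp
  have h1 := l1_0 B J hcI hL
  set θ := (QX h U t I w0).Pr (HC D s w0) with hθ
  have p1 : 0 < θ := lt_of_lt_of_le (by norm_num) hs
  have h4 : ∀ z ∈ vals (zf (φ := φ) U c), |lw ((D.P h t).cond (VH D s univ w0 V)) (zf U c) z -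
      lw ((D.P h t).cond (VH D s univ w0 (xc D U t I w0))) (zf U c) z| ≤
      2 * |lw ((D.P h t).cond V) (zf U c) z - lw (QX h U t I w0) (zf U c) z| := by
    intro z _
    rw [lw_VH B J hIc hcI s z, lw_VH B Jc hIc hcI s z, ← sub_div, ← mul_sub, abs_div, abs_mul, ← hθ, abs_of_pos p1,
      div_le_iff₀ p1, abs_of_nonneg (ind_nonneg _)]
    have e1 : (D.P h t).cond (xc D U t I w0) = QX h U t I w0 := rfl
    rw [e1]
    have n2 := ind_le_one (D.qb s z.1 = D.qb s (w0.2.1 c))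
    have a0 := abs_nonneg (lw ((D.P h t).cond V) (zf U c) z - lw (QX h U t I w0) (zf U c) z)
    have h5 : (1 : ℝ) ≤ 2 * θ := by linarith
    calc ind (D.qb s z.1 = D.qb s (w0.2.1 c)) * |lw ((D.P h t).cond V) (zf U c) z - lw (QX h U t I w0) (zf U c) z|
        ≤ 1 * |lw ((D.P h t).cond V) (zf U c) z - lw (QX h U t I w0) (zf U c) z| := mul_le_mul_of_nonneg_right n2 a0
      _ ≤ (2 * θ) * |lw ((D.P h t).cond V) (zf U c) z - lw (QX h U t I w0) (zf U c) z| :=
          mul_le_mul_of_nonneg_right h5 a0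
      _ = _ := by ring
  refine (Finset.sum_le_sum h4).trans ?_
  rw [← Finset.mul_sum]
  exact mul_le_mul_of_nonneg_left h1 zero_le_two

theorem E_lw {Om κ : Type*} [Fintype Om] (P : FP Om) (Z : Om → κ) {f : Om → ℝ} (hf : Fac Z f) :
    ∃ g : κ → ℝ, (∀ w, f w = g (Z w)) ∧ P.E f = ∑ z ∈ vals Z, g z * lw P Z z := by
  classical
  refine ⟨fun z => if hz : ∃ w, Z w = z then f hz.choose else 0, fun w => ?_, ?_⟩
  · have hz : ∃ w', Z w' = Z w := ⟨w, rfl⟩
    simp only [dif_pos hz]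
    exact (hf _ _ hz.choose_spec).symm
  · have h1 := sum_lw P Z (fun z => if hz : ∃ w, Z w = z then f hz.choose else 0)
    have h2 : P.E f = P.E (fun w => (fun z => if hz : ∃ w, Z w = z then f hz.choose else 0) (Z w)) := by
      refine P.E_congr fun w _ => ?_
      have hz : ∃ w', Z w' = Z w := ⟨w, rfl⟩
      simp only [dif_pos hz]
      exact (hf _ _ hz.choose_spec).symm
    rw [h2, ← h1]
    exact Finset.sum_congr rfl fun z _ => mul_comm _ _

/-- from the distance of the laws to test functions -/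
theorem Tst_of_lw {Om κ : Type*} [Fintype Om] {P R : FP Om} {Z : Om → κ} {tau : ℝ}
    (h1 : ∑ z ∈ vals Z, |lw P Z z - lw R Z z| ≤ tau) : SngM.Tst P R Z tau := by
  classical
  intro f hf hb
  set g : κ → ℝ := fun z => if hz : ∃ w, Z w = z then f hz.choose else 0 with hg
  have hgf : ∀ w, f w = g (Z w) := fun w => by
    have hz : ∃ w', Z w' = Z w := ⟨w, rfl⟩
    simp only [hg, dif_pos hz]
    exact (hf _ _ hz.choose_spec).symm
  have hgb : ∀ z, |g z| ≤ 1 := fun z => by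
    simp only [hg]
    by_cases hz : ∃ w, Z w = z
    · rw [dif_pos hz]; exact hb _
    · rw [dif_neg hz, abs_zero]; exact zero_le_one
  have e : ∀ Q : FP Om, Q.E f = ∑ z ∈ vals Z, lw Q Z z * g z := fun Q => by
    rw [sum_lw Q Z g]
    exact Q.E_congr fun w _ => hgf w
  rw [e P, e R, ← Finset.sum_sub_distrib]
  refine (Finset.abs_sum_le_sum_abs _ _).trans ((Finset.sum_le_sum fun z _ => ?_).trans h1)
  rw [← sub_mul, abs_mul]
  exact mul_le_of_le_one_right (abs_nonneg _) (hgb z)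

theorem Tst_cell (B : Bk h N S U t b c d) (J : Ix h U t I w0 V) (hIc : ∀ j, j ≠ c → j ∈ I) (hcI : c ∉ I)
    (hL : LX h U t I w0 V ≤ L) (s : ℕ) (hs : 1 / 2 ≤ (QX h U t I w0).Pr (HC D s w0)) :
    SngM.Tst ((D.P h t).cond (VH D s univ w0 V)) ((D.P h t).cond (VH D s univ w0 (xc D U t I w0))) (zf U c)
      (2 * Real.sqrt (2 * kI N c L)) := Tst_of_lw (l1_cell B J hIc hcI hL s hs)

/-- **a set of letters in the cells of two states** -/
theorem set_cells (B : Bk h N S U t b c d) (J2 : Ix h U t I w0 V2) (J3 : Ix h U t I w0 V3)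
    (hIc : ∀ j, j ≠ c → j ∈ I) (hcI : c ∉ I) {L2 L3 : ℝ} (h2 : LX h U t I w0 V2 ≤ L2)
    (h3 : LX h U t I w0 V3 ≤ L3) (hs1 : 1 / 2 ≤ (QX h U t I w0).Pr (HC D s1 w0))
    (hs2 : (QX h U t I w0).Pr (HC D s2 w0) ≠ 0) (hss : ∀ y, D.qb s1 y = D.qb s1 (w0.2.1 c) → D.qb s2 y = D.qb s2 (w0.2.1 c))
    (G : β × υ → Prop) :
    ((D.P h t).cond (VH D s1 univ w0 V3)).Pr (fun w => G (zf U c w)) ≤ 2 * (Real.sqrt (2 * kI N c L3) +
      Real.sqrt (2 * kI N c L2) + ((D.P h t).cond (VH D s2 univ w0 V2)).Pr (fun w => G (zf U c w))) := by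
  set θ1 := (QX h U t I w0).Pr (HC D s1 w0) with hθ1
  set θ2 := (QX h U t I w0).Pr (HC D s2 w0) with hθ2
  have p1 : 0 < θ1 := lt_of_lt_of_le (by norm_num) hs1
  have p2 : 0 < θ2 := lt_of_le_of_ne (FP.Pr_nonneg _ _) hs2.symm
  have u2 : θ2 ≤ 1 := FP.Pr_le_one _ _
  rw [Pr_lw _ (zf U c) G, Pr_lw _ (zf U c) G]
  have key : ∀ z ∈ vals (zf (φ := φ) U c), ind (G z) * lw ((D.P h t).cond (VH D s1 univ w0 V3)) (zf U c) z ≤
      2 * (|lw ((D.P h t).cond V3) (zf U c) z - lw (QX h U t I w0) (zf U c) z| +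
        |lw ((D.P h t).cond V2) (zf U c) z - lw (QX h U t I w0) (zf U c) z| +
        ind (G z) * lw ((D.P h t).cond (VH D s2 univ w0 V2)) (zf U c) z) := by
    intro z _
    rw [lw_VH B J3 hIc hcI s1 z, lw_VH B J2 hIc hcI s2 z, ← hθ1, ← hθ2]
    have n2 := lw_nonneg ((D.P h t).cond V2) (zf U c) z
    have n3 := lw_nonneg ((D.P h t).cond V3) (zf U c) z
    have a3 := abs_nonneg (lw ((D.P h t).cond V3) (zf U c) z - lw (QX h U t I w0) (zf U c) z)
    have a2 := abs_nonneg (lw ((D.P h t).cond V2) (zf U c) z - lw (QX h U t I w0) (zf U c) z)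
    by_cases hz : D.qb s1 z.1 = D.qb s1 (w0.2.1 c)
    · rw [ind_of hz, ind_of (hss _ hz), one_mul, one_mul]
      by_cases hG : G z
      · rw [ind_of hG, one_mul, one_mul, div_le_iff₀ p1]
        have b1 := le_abs_self (lw ((D.P h t).cond V3) (zf U c) z - lw (QX h U t I w0) (zf U c) z)
        have b2 := neg_abs_le (lw ((D.P h t).cond V2) (zf U c) z - lw (QX h U t I w0) (zf U c) z)
        have b3 : lw ((D.P h t).cond V2) (zf U c) z ≤ lw ((D.P h t).cond V2) (zf U c) z / θ2 := by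
          rw [le_div_iff₀ p2]
          exact mul_le_of_le_one_right n2 u2
        have b4 : 0 ≤ lw ((D.P h t).cond V2) (zf U c) z / θ2 := div_nonneg n2 p2.le
        have b5 : lw ((D.P h t).cond V3) (zf U c) z ≤ |lw ((D.P h t).cond V3) (zf U c) z - lw (QX h U t I w0) (zf U c) z| +
            |lw ((D.P h t).cond V2) (zf U c) z - lw (QX h U t I w0) (zf U c) z| +
            lw ((D.P h t).cond V2) (zf U c) z / θ2 := by linarith
        have b6 : 0 ≤ |lw ((D.P h t).cond V3) (zf U c) z - lw (QX h U t I w0) (zf U c) z| +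
            |lw ((D.P h t).cond V2) (zf U c) z - lw (QX h U t I w0) (zf U c) z| +
            lw ((D.P h t).cond V2) (zf U c) z / θ2 := by linarith
        nlinarith
      · rw [ind_not hG, zero_mul, zero_mul]
        linarith
    · rw [ind_not hz, zero_mul, zero_div, mul_zero]
      have : 0 ≤ ind (G z) * (ind (D.qb s2 z.1 = D.qb s2 (w0.2.1 c)) * lw ((D.P h t).cond V2) (zf U c) z / θ2) :=
        mul_nonneg (ind_nonneg _) (div_nonneg (mul_nonneg (ind_nonneg _) n2) p2.le)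
      linarith
  refine (Finset.sum_le_sum key).trans ?_
  rw [← Finset.mul_sum, Finset.sum_add_distrib, Finset.sum_add_distrib]
  have k3 := l1_0 B J3 hcI h3
  have k2 := l1_0 B J2 hcI h2
  linarith

/-- **THE SINGLE LETTER IN THE CELLS OF TWO STATES** -/
theorem sgl_cells (B : Bk h N S U t b c d) (J1 : Ix h U t I w0 V1) (J2 : Ix h U t I w0 V2) (J3 : Ix h U t I w0 V3)
    (hIc : ∀ j, j ≠ c → j ∈ I) (hcI : c ∉ I) {L2 L3 : ℝ} (h1 : LX h U t I w0 V1 ≤ L2) (h2 : LX h U t I w0 V2 ≤ L2)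
    (h3 : LX h U t I w0 V3 ≤ L3) (hs1 : 1 / 2 ≤ (QX h U t I w0).Pr (HC D s1 w0))
    (hs2 : (QX h U t I w0).Pr (HC D s2 w0) ≠ 0) (hss : ∀ y, D.qb s1 y = D.qb s1 (w0.2.1 c) → D.qb s2 y = D.qb s2 (w0.2.1 c))
    {e : ℝ} (he : 0 < e) (he1 : e ≤ 1) :
    ((D.P h t).cond (VH D s1 univ w0 V3)).Pr (fun w => e ≤ |Real.log
      (((D.P h t).cond (VH D s2 univ w0 V1)).m (zf U c) w / ((D.P h t).cond (VH D s2 univ w0 V2)).m (zf U c) w)|) ≤
      2 * (Real.sqrt (2 * kI N c L3) + (1 + 4 / e) * Real.sqrt (2 * kI N c L2)) := by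
  set θ1 := (QX h U t I w0).Pr (HC D s1 w0) with hθ1
  set θ2 := (QX h U t I w0).Pr (HC D s2 w0) with hθ2
  have p1 : 0 < θ1 := lt_of_lt_of_le (by norm_num) hs1
  have p2 : 0 < θ2 := lt_of_le_of_ne (FP.Pr_nonneg _ _) hs2.symm
  have e0 := Pr_lw ((D.P h t).cond (VH D s1 univ w0 V3)) (zf U c) (fun z => e ≤ |Real.log
    (lw ((D.P h t).cond (VH D s2 univ w0 V1)) (zf U c) z / lw ((D.P h t).cond (VH D s2 univ w0 V2)) (zf U c) z)|)
  refine le_trans (le_of_eq e0) ?_
  have key : ∀ z ∈ vals (zf (φ := φ) U c), ind (e ≤ |Real.log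
      (lw ((D.P h t).cond (VH D s2 univ w0 V1)) (zf U c) z / lw ((D.P h t).cond (VH D s2 univ w0 V2)) (zf U c) z)|) *
      lw ((D.P h t).cond (VH D s1 univ w0 V3)) (zf U c) z ≤
      2 * (ind (e ≤ |Real.log (lw ((D.P h t).cond V1) (zf U c) z / lw ((D.P h t).cond V2) (zf U c) z)|) *
        lw ((D.P h t).cond V3) (zf U c) z) := by
    intro z _
    rw [lw_VH B J1 hIc hcI s2 z, lw_VH B J2 hIc hcI s2 z, lw_VH B J3 hIc hcI s1 z, ← hθ1, ← hθ2]
    have n3 := lw_nonneg ((D.P h t).cond V3) (zf U c) z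
    by_cases hz : D.qb s1 z.1 = D.qb s1 (w0.2.1 c)
    · rw [ind_of hz, ind_of (hss _ hz), one_mul, one_mul, one_mul, div_div_div_cancel_right₀ p2.ne']
      have i0 := ind_nonneg (e ≤ |Real.log (lw ((D.P h t).cond V1) (zf U c) z / lw ((D.P h t).cond V2) (zf U c) z)|)
      have b1 : lw ((D.P h t).cond V3) (zf U c) z / θ1 ≤ 2 * lw ((D.P h t).cond V3) (zf U c) z := by
        rw [div_le_iff₀ p1]
        nlinarith
      have b2 := mul_le_mul_of_nonneg_left b1 i0
      linarith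
    · rw [ind_not hz]
      simp only [zero_mul, zero_div, mul_zero]
      exact mul_nonneg zero_le_two (mul_nonneg (ind_nonneg _) n3)
  refine (Finset.sum_le_sum key).trans ?_
  rw [← Finset.mul_sum]
  have k2 := three_S2 (vals (zf U c)) (R := fun z => lw (QX h U t I w0) (zf U c) z)
    (fun z => lw_nonneg ((D.P h t).cond V1) (zf U c) z) (fun z => lw_nonneg ((D.P h t).cond V2) (zf U c) z) he he1
    (l1_0 B J1 hcI h1) (l1_0 B J2 hcI h2) (l1_0 B J3 hcI h3)
  have k3 : Real.sqrt (2 * kI N c L3) + (1 + 2 / e) * Real.sqrt (2 * kI N c L2) + 2 / e * Real.sqrt (2 * kI N c L2) =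
      Real.sqrt (2 * kI N c L3) + (1 + 4 / e) * Real.sqrt (2 * kI N c L2) := by ring
  linarith

end cls

end Pool.Agent.GMH.SngA
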