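import Pool.Agent.GMH.SngR
import Pool.Agent.GMH.SngB

/-!
# GMH/SngS (helper61): EXP_SF, the law of a top against its own law at the expensive public removals (row (E9a))

Same chain as `SngR.red`, for the thin relation `e ≤ tvo i` (distance of the law of the top `i` given all thin letters from its own
law), thin alive.
* `tvo_eq`, `tvo_le` : the distance is twice the mean of the positive part of `1 - exp (- ps)`, so at most
  `2 (e' + P (e' ≤ ps | thin letters))`;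
* `FT` : fresh relation; `fresh_row`, `fresh_col` : its masses given one side, from `Fre` (Markov, mean over the top);
* `HF` : the static relation of the epochs; `HF_rel : RelX M i p1 X1 (HF M X1 e p1 i)`;
* **`redF`** : the reduction to `HF`.
-/

set_option autoImplicit false
set_option linter.unusedSectionVars false

namespace Pool.Agent.GMH.Sng

open Finset Pool.Agent.PWZ Pool.Agent.M3 Pool.Agent.GMH.TD Pool.Agent.GMH.CK Pool.Agent.GMH.MV Pool.Agent.GMH.KDT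
open Pool.Agent.GMH.KF Pool.Agent.GMH Pool.Agent.GMH.KDL Pool.Agent.GMH.MVI Pool.Agent.GMH.SNB

noncomputable section

variable {Om : Type} [Fintype Om] {M : MS Om}

/-! ### the distance and the strong singles -/

theorem ps_sgl' (i : Fin 3) (q : ℕ) {w : Om} (hw : M.P.p w ≠ 0) :
    ps M i q w = lt M univ {i} q w - lt M (univ.erase i) {i} q w := by
  unfold ps
  rw [lt_pub hw, lt_pub hw]
  rfl

/-- **the distance is the mean of the positive part** -/
theorem tvo_eq (i : Fin 3) (s : ℕ) {w : Om} (hw : M.P.p w ≠ 0) :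
    tvo M i s w = 2 * M.P.ce (TH M s) (fun u => max (1 - Real.exp (-ps M i s u)) 0) w := by
  classical
  have hm0 : ∀ x, 0 ≤ mF M.P (TH M s) (Ft M s) i w x := fun x => M.P.pv_nonneg _ _ _ _
  have hq0 : ∀ x, 0 ≤ qF M.P (Zo M s) (Ft M s) i w x := fun x => M.P.pv_nonneg _ _ _ _
  have hm1 : ∑ x ∈ vals (Ft M s i), mF M.P (TH M s) (Ft M s) i w x = 1 := M.P.pv_sum _ _ hw
  have hq1 : ∑ x ∈ vals (Ft M s i), qF M.P (Zo M s) (Ft M s) i w x = 1 := M.P.pv_sum _ _ hw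
  have h1 := tv_pos (vals (Ft M s i)) (p := fun x => mF M.P (TH M s) (Ft M s) i w x)
    (q := fun x => qF M.P (Zo M s) (Ft M s) i w x) (fun x _ => hm0 x) (fun x _ => hq0 x) (hm1.trans hq1.symm)
  have h2 : tvo M i s w = ∑ x ∈ vals (Ft M s i), |mF M.P (TH M s) (Ft M s) i w x - qF M.P (Zo M s) (Ft M s) i w x| := rfl
  rw [h2, h1]
  congr 1
  have hF : ∀ x, Fac (TH M s) (fun v => max (1 - qF M.P (Zo M s) (Ft M s) i v x / mF M.P (TH M s) (Ft M s) i v x) 0) := by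
    intro x a b hab
    have e1 : mF M.P (TH M s) (Ft M s) i a x = mF M.P (TH M s) (Ft M s) i b x := mF_fac M.P (Ft M s) i x a b hab
    have e2 : qF M.P (Zo M s) (Ft M s) i a x = qF M.P (Zo M s) (Ft M s) i b x :=
      qF_fac M.P (Ft M s) (fun i => TH_Zo s i) i x a b hab
    simp only [e1, e2]
  have h3 := M.P.sum_pv (W := TH M s) (Ft M s i)
    (F := fun v x => max (1 - qF M.P (Zo M s) (Ft M s) i v x / mF M.P (TH M s) (Ft M s) i v x) 0) hF w
  have h4 : M.P.ce (TH M s) (fun u => max (1 - Real.exp (-ps M i s u)) 0) w = M.P.ce (TH M s) (fun u =>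
      max (1 - qF M.P (Zo M s) (Ft M s) i u (Ft M s i u) / mF M.P (TH M s) (Ft M s) i u (Ft M s i u)) 0) w := by
    refine M.P.ce_congr (fun u hu => ?_) w
    rw [mF_lt i s hu, qF_lt i s hu, ← Real.exp_sub, ps_sgl' i s hu, neg_sub]
  rw [h4, ← h3, Finset.sum_filter]
  refine Finset.sum_congr rfl fun x _ => ?_
  show (if 0 < mF M.P (TH M s) (Ft M s) i w x then
    max (mF M.P (TH M s) (Ft M s) i w x - qF M.P (Zo M s) (Ft M s) i w x) 0 else 0) =
    mF M.P (TH M s) (Ft M s) i w x * max (1 - qF M.P (Zo M s) (Ft M s) i w x / mF M.P (TH M s) (Ft M s) i w x) 0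
  by_cases hx : 0 < mF M.P (TH M s) (Ft M s) i w x
  · rw [if_pos hx, mul_max_of_nonneg _ _ hx.le, mul_zero, mul_sub, mul_one, mul_div_cancel₀ _ hx.ne']
  · rw [if_neg hx, le_antisymm (not_lt.1 hx) (hm0 x), zero_mul]

theorem tvo_le (i : Fin 3) (s : ℕ) {w : Om} (hw : M.P.p w ≠ 0) {e : ℝ} (he : 0 ≤ e) :
    tvo M i s w ≤ 2 * (e + M.P.ce (TH M s) (fun u => ind (e ≤ ps M i s u)) w) := by
  rw [tvo_eq i s hw]
  refine mul_le_mul_of_nonneg_left ?_ (by norm_num)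
  have h1 : M.P.ce (TH M s) (fun u => e + ind (e ≤ ps M i s u)) w =
      e + M.P.ce (TH M s) (fun u => ind (e ≤ ps M i s u)) w := by
    rw [M.P.ce_add, M.P.ce_const _ _ hw]
  rw [← h1]
  refine M.P.ce_mono (fun u _ => ?_) w
  by_cases h2 : e ≤ ps M i s u
  · rw [ind_of h2]
    have := Real.exp_pos (-ps M i s u)
    exact max_le (by linarith) (by linarith)
  · rw [ind_not h2, add_zero]
    have h3 := Real.add_one_le_exp (-ps M i s u)
    exact max_le (by linarith [not_le.1 h2]) he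

/-! ### thin letters -/

theorem LF_thin (F : Finset (Fin 3) × Finset (Fin 3)) (hF : F.2 = ∅) {s : ℕ} {a b : Om}
    (h2 : ∀ j, M.XL j s a = M.XL j s b) : LF M F s a = LF M F s b :=
  LF_eq.2 ⟨fun j _ => h2 j, fun j hj => absurd hj (by rw [hF]; exact notMem_empty j),
    YF_eq.2 fun j => M.hXY j s a b (h2 j)⟩

theorem lf_thin (F : Finset (Fin 3) × Finset (Fin 3)) (hF : F.2 = ∅) {s : ℕ} {a b : Om} (h1 : M.NP s a = M.NP s b)
    (h2 : ∀ j, M.XL j s a = M.XL j s b) : lf M F s a = lf M F s b := by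
  have g1 := M.P.Fac_m (fun u => (LF M F s u, M.NP s u)) a b (Prod.ext (LF_thin F hF h2) h1)
  have g2 := M.P.Fac_m (AHR.UY M s) a b (UY_eq.2 ⟨fun j => M.hXY j s a b (h2 j), h1⟩)
  show Real.log (M.P.m (fun u => (LF M F s u, M.NP s u)) a / M.P.m (AHR.UY M s) a) =
    Real.log (M.P.m (fun u => (LF M F s u, M.NP s u)) b / M.P.m (AHR.UY M s) b)
  rw [g1, g2]

theorem TH_iff {s : ℕ} {a b : Om} : TH M s a = TH M s b ↔ (∀ j, M.XL j s a = M.XL j s b) ∧ M.NP s a = M.NP s b :=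
  ⟨fun h => ⟨fun j => congrFun (congrArg Prod.fst h) j, congrArg Prod.snd h⟩, fun h => Prod.ext (funext h.1) h.2⟩

/-- a family with its tops is less likely -/
theorem lf_anti (S A : Finset (Fin 3)) (s : ℕ) {w : Om} (hw : M.P.p w ≠ 0) : lf M (S, A) s w ≤ lf M (S, ∅) s w := by
  have p1 := M.P.m_pos (fun u => (LF M (S, A) s u, M.NP s u)) hw
  have p2 := M.P.m_pos (fun u => (LF M (S, ∅) s u, M.NP s u)) hw
  have p3 := M.P.m_pos (AHR.UY M s) hw
  show Real.log (M.P.m (fun u => (LF M (S, A) s u, M.NP s u)) w / M.P.m (AHR.UY M s) w) ≤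
    Real.log (M.P.m (fun u => (LF M (S, ∅) s u, M.NP s u)) w / M.P.m (AHR.UY M s) w)
  refine Real.log_le_log (div_pos p1 p3) (div_le_div_of_nonneg_right (M.P.m_anti ?_ w) p3.le)
  intro a b hab
  have h1 := LF_eq.1 (Prod.mk.inj hab).1
  exact Prod.ext (LF_eq.2 ⟨h1.1, fun j hj => absurd hj (notMem_empty j), h1.2.2⟩) (Prod.mk.inj hab).2

/-- thin letters are alive -/
def alT (M : MS Om) (X1 : ℝ) (i : Fin 3) (s : ℕ) (w : Om) : Prop :=
  (∀ j, -X1 ≤ lf M ({j}, ∅) s w) ∧ -X1 ≤ lf M (univ.erase i, ∅) s w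

/-- **the fresh thin relation** -/
def FT (M : MS Om) (X1 e : ℝ) (i : Fin 3) (s : ℕ) (w : Om) : Prop := e ≤ tvo M i s w ∧ alT M X1 i s w

theorem alX_alT {X1 : ℝ} {i : Fin 3} {s : ℕ} {w : Om} (hw : M.P.p w ≠ 0) (h : alX M X1 i s w) : alT M X1 i s w :=
  ⟨h.1, h.2.trans (lf_anti _ _ s hw)⟩

theorem tvo_fac (i : Fin 3) (s : ℕ) : Fac (TH M s) (tvo M i s) := tv1n_fac M.P (Ft M s) (fun i => TH_Zo s i) i

theorem FT_thin {X1 e : ℝ} {i : Fin 3} {s : ℕ} {a b : Om} (h1 : M.NP s a = M.NP s b) (h2 : ∀ j, M.XL j s a = M.XL j s b) :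
    FT M X1 e i s a ↔ FT M X1 e i s b := by
  have h3 : ∀ j, lf M ({j}, ∅) s a = lf M ({j}, ∅) s b := fun j => lf_thin _ rfl h1 h2
  unfold FT alT
  rw [tvo_fac i s a b (TH_iff.2 ⟨h2, h1⟩), lf_thin (univ.erase i, ∅) rfl h1 h2]
  simp only [h3]

theorem FT_mono {X1 X2 e e' : ℝ} (h1 : X1 ≤ X2) (h2 : e' ≤ e) {i : Fin 3} {s : ℕ} {w : Om} (h : FT M X1 e i s w) :
    FT M X2 e' i s w := ⟨h2.trans h.1, fun j => (neg_le_neg h1).trans (h.2.1 j), (neg_le_neg h1).trans h.2.2⟩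

theorem unl_of {q : ℕ} {w : Om} (hw : M.P.p w ≠ 0) (h : ¬ LPn M q w) : ¬ Lst M (nu M q w) q w := fun g =>
  h (kda_pos (TH M q) hw g)

/-- the fresh relation backward in a public epoch -/
theorem FT_back {X1 e : ℝ} (i : Fin 3) (hd : M.d0 ≤ 1 / 100) {q r : ℕ} {w : Om} (hw : M.P.p w ≠ 0) (hr : nu M q w ≤ r)
    (hrq : r ≤ q) (hl : ¬ LPn M q w) (h : FT M X1 e i q w) : FT M (X1 + 4 * M.d0) (e - 96 * M.d0) i r w := by
  have hl' := unl_of hw hl
  have h1 := abs_le.1 (tvo_unl i hd hw hl hr hrq)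
  refine ⟨by linarith [h.1, h1.2], fun j => ?_, ?_⟩
  · have h2 := abs_le.1 (lf_unl ({j}, ∅) hw hr hrq hl')
    linarith [h.2.1 j, h2.2]
  · have h2 := abs_le.1 (lf_unl (univ.erase i, ∅) hw hr hrq hl')
    linarith [h.2.2, h2.2]

/-- forward -/
theorem FT_fwd {X1 e : ℝ} (i : Fin 3) (hd : M.d0 ≤ 1 / 100) {q r : ℕ} {w : Om} (hw : M.P.p w ≠ 0) (hr : nu M q w ≤ r)
    (hrq : r ≤ q) (hl : ¬ LPn M q w) (h : FT M X1 e i r w) : FT M (X1 + 4 * M.d0) (e - 96 * M.d0) i q w := by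
  have hl' := unl_of hw hl
  have h1 := abs_le.1 (tvo_unl i hd hw hl hr hrq)
  refine ⟨by linarith [h.1, h1.1], fun j => ?_, ?_⟩
  · have h2 := abs_le.1 (lf_unl ({j}, ∅) hw hr hrq hl')
    linarith [h.2.1 j, h2.1]
  · have h2 := abs_le.1 (lf_unl (univ.erase i, ∅) hw hr hrq hl')
    linarith [h.2.2, h2.1]

/-- alive backward -/
theorem alX_back {X1 : ℝ} (i : Fin 3) {q r : ℕ} {w : Om} (hw : M.P.p w ≠ 0) (hr : nu M q w ≤ r) (hrq : r ≤ q)
    (hl : ¬ Lst M (nu M q w) q w) (h : alX M X1 i q w) : alX M (X1 + 4 * M.d0) i r w := by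
  refine ⟨fun j => ?_, ?_⟩
  · have h2 := abs_le.1 (lf_unl ({j}, ∅) hw hr hrq hl)
    linarith [h.1 j, h2.2]
  · have h2 := abs_le.1 (lf_unl (univ.erase i, {i}) hw hr hrq hl)
    linarith [h.2, h2.2]

theorem alX_mono {X1 X2 : ℝ} (h1 : X1 ≤ X2) {i : Fin 3} {s : ℕ} {w : Om} (h : alX M X1 i s w) : alX M X2 i s w :=
  ⟨fun j => (neg_le_neg h1).trans (h.1 j), (neg_le_neg h1).trans h.2⟩

theorem alX_fac {X1 : ℝ} {i : Fin 3} {s : ℕ} {a b : Om} (h1 : M.NP s a = M.NP s b) (h2 : M.XL i s a = M.XL i s b)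
    (h3 : CX M i s a = CX M i s b) : alX M X1 i s a ↔ alX M X1 i s b := by
  have h4 : ∀ j, lf M ({j}, ∅) s a = lf M ({j}, ∅) s b := fun j => lf_fac _ h1 h2 h3 (Finset.empty_subset _)
  unfold alX
  rw [lf_fac (univ.erase i, {i}) h1 h2 h3 (Finset.Subset.refl _)]
  simp only [h4]

/-! ### the static relation -/

/-- the letter of `i` of `u` is related to the thin side letters of `w` -/
def rwT (M : MS Om) (i : Fin 3) (ν : ℕ) (H : Om → Prop) (w u : Om) : Prop :=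
  ∃ z, M.P.p z ≠ 0 ∧ M.NP ν z = M.NP ν w ∧ (CX M i ν z).1 = (CX M i ν w).1 ∧ M.XL i ν z = M.XL i ν u ∧ H z

/-- the thin side letters of `u` are related to the letter of `i` of `w` -/
def clT (M : MS Om) (i : Fin 3) (ν : ℕ) (H : Om → Prop) (w u : Om) : Prop :=
  ∃ z, M.P.p z ≠ 0 ∧ M.NP ν z = M.NP ν w ∧ M.XL i ν z = M.XL i ν w ∧ (CX M i ν z).1 = (CX M i ν u).1 ∧ H z

/-- **the static relation of the epochs, thin** -/
def HF (M : MS Om) (X1 e p1 : ℝ) (i : Fin 3) (ν : ℕ) (w : Om) : Prop :=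
  (e ≤ tvo M i ν w ∧ alX M X1 i ν w) ∧ M.P.ce (AHR.UY M ν) (fun u => ind (rwT M i ν (FT M X1 e i ν) w u)) w ≤ p1 ∧
    M.P.ce (AHR.UY M ν) (fun u => ind (clT M i ν (FT M X1 e i ν) w u)) w ≤ p1

theorem SX_eq {i : Fin 3} {q : ℕ} {a b : Om} : (CX M i q a).1 = (CX M i q b).1 ↔
    ∀ j, j ≠ i → M.XL j q a = M.XL j q b := by
  unfold CX
  rw [funext_iff]
  refine forall_congr' fun j => ?_
  dsimp only
  by_cases h : j ≠ i
  · rw [if_pos h, if_pos h, Option.some.injEq]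
    exact ⟨fun g _ => g, fun g => g h⟩
  · rw [if_neg h, if_neg h]
    exact ⟨fun _ g => absurd g h, fun _ => rfl⟩

theorem XL_all {i : Fin 3} {q : ℕ} {a b : Om} (h1 : M.XL i q a = M.XL i q b) (h2 : (CX M i q a).1 = (CX M i q b).1)
    (j : Fin 3) : M.XL j q a = M.XL j q b := by
  by_cases h : j = i
  · rw [h, h1]
  · exact SX_eq.1 h2 j h

theorem SX_le (i : Fin 3) {r q : ℕ} (hrq : r ≤ q) {a b : Om} (h : (CX M i q a).1 = (CX M i q b).1) :
    (CX M i r a).1 = (CX M i r b).1 := SX_eq.2 fun j hj => XL_le j hrq (SX_eq.1 h j hj)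

theorem HF_rel (i : Fin 3) (p1 X1 e : ℝ) : RelX M i p1 X1 (HF M X1 e p1 i) := by
  refine ⟨?_, ?_, ?_, fun ν w _ h => h.1.2⟩
  · intro ν a b _ _ h1 h3 h2 h
    have h3' : (CX M i ν a).1 = (CX M i ν b).1 := by rw [h3]
    have e1 : AHR.UY M ν a = AHR.UY M ν b := UY_fac h1 h2 h3
    have e2 : rwT M i ν (FT M X1 e i ν) a = rwT M i ν (FT M X1 e i ν) b := by
      funext u
      unfold rwT
      rw [h1, h3']
    have e3 : clT M i ν (FT M X1 e i ν) a = clT M i ν (FT M X1 e i ν) b := by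
      funext u
      unfold clT
      rw [h1, h2]
    refine ⟨⟨?_, (alX_fac h1 h2 h3).1 h.1.2⟩, ?_, ?_⟩
    · rw [← tvo_fac i ν a b (TH_iff.2 ⟨XL_all h2 h3', h1⟩)]
      exact h.1.1
    · have h4 := h.2.1
      rw [e2, M.P.ce_fac (AHR.UY M ν) _ a b e1] at h4
      exact h4
    · have h4 := h.2.2
      rw [e3, M.P.ce_fac (AHR.UY M ν) _ a b e1] at h4
      exact h4
  · intro ν w _ h
    refine (ce_ind_mono fun u _ _ g => ?_).trans h.2.1
    obtain ⟨z, g0, g1, g2, g3, g4⟩ := g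
    exact ⟨z, g0, g1, by rw [g2], g3, g4.1.1, alX_alT g0 g4.1.2⟩
  · intro ν w _ h
    refine (ce_ind_mono fun u _ _ g => ?_).trans h.2.2
    obtain ⟨z, g0, g1, g2, g3, g4⟩ := g
    exact ⟨z, g0, g1, g2, by rw [g3], g4.1.1, alX_alT g0 g4.1.2⟩

/-! ### fresh masses -/

variable {T : ℕ} {Lam X1 a b c e e0 : ℝ}

/-- the mass of the thin letters of a side over its points -/
theorem mS (hI : PtI M T) (i : Fin 3) (q : ℕ) {w : Om} (hw : M.P.p w ≠ 0) : M.P.m (fun u => (PX M i u, M.NP q u)) w =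
    Real.exp (-lf M (univ.erase i, ∅) q w) * M.P.m (fun u => ((CX M i q u).1, M.NP q u)) w := by
  have hZ : Fac (fun u => ((CX M i q u).1, M.NP q u)) (fun u => (PX M i u, M.NP q u)) := fun a b hab =>
    Prod.ext (PX_eq.2 fun j hj => M.hXY j q a b (SX_eq.1 (Prod.mk.inj hab).1 j hj)) (Prod.mk.inj hab).2
  have p2 := M.P.m_pos (fun u => (PX M i u, M.NP q u)) hw
  have h1 := ce_mcl (M := M) hZ w
  have h2 := own (M := M) (UY_PX (M := M) i q)
    (f := fun u => ind (((CX M i q u).1, M.NP q u) = ((CX M i q w).1, M.NP q w))) hw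
    (fun u hu huw => hI.xc i q (fun u => ((CX M i q u).1, M.NP q u) = ((CX M i q w).1, M.NP q w))
      (fun a b hab => by
        have e1 : CX M i q a = CX M i q b := (Prod.mk.inj hab).1
        have e2 : M.NP q a = M.NP q b := (Prod.mk.inj hab).2
        simp only [e1, e2]) u w hu hw (Prod.mk.inj huw).1 (Prod.mk.inj huw).2)
  have h3 : M.P.ce (AHR.UY M q) (fun u => ind (((CX M i q u).1, M.NP q u) = ((CX M i q w).1, M.NP q w))) w =
      Real.exp (lf M (univ.erase i, ∅) q w) := by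
    rw [lf_exp _ _ hw]
    refine ce_ind_iff fun u _ huw => ?_
    rw [Prod.mk.injEq, LF_eq, SX_eq]
    constructor
    · intro h
      exact ⟨fun j hj => h.1 j (mem_erase.1 hj).1, fun j hj => absurd hj (notMem_empty j), YF_eq.2 (UY_eq.1 huw).1⟩
    · intro h
      exact ⟨fun j hj => h.1 j (mem_erase.2 ⟨hj, mem_univ j⟩), (UY_eq.1 huw).2⟩
  rw [h1, h3, div_eq_iff p2.ne'] at h2
  rw [h2, ← mul_assoc, ← Real.exp_add, neg_add_cancel, Real.exp_zero, one_mul]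

/-- it is a function of these letters -/
theorem lfS_own (hI : PtI M T) (i : Fin 3) (q : ℕ) {x y : Om} (hx : M.P.p x ≠ 0) (hy : M.P.p y ≠ 0)
    (h1 : (CX M i q x).1 = (CX M i q y).1) (h2 : M.NP q x = M.NP q y) :
    lf M (univ.erase i, ∅) q x = lf M (univ.erase i, ∅) q y := by
  have g1 := mS hI i q hx
  have g2 := mS hI i q hy
  have e1 : M.P.m (fun u => (PX M i u, M.NP q u)) x = M.P.m (fun u => (PX M i u, M.NP q u)) y :=
    M.P.Fac_m _ x y (Prod.ext (PX_eq.2 fun j hj => M.hXY j q x y (SX_eq.1 h1 j hj)) h2)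
  have e2 : M.P.m (fun u => ((CX M i q u).1, M.NP q u)) x = M.P.m (fun u => ((CX M i q u).1, M.NP q u)) y :=
    M.P.Fac_m _ x y (Prod.ext h1 h2)
  have p2 := M.P.m_pos (fun u => ((CX M i q u).1, M.NP q u)) hy
  rw [e1, g2, e2] at g1
  have g3 := Real.exp_injective (mul_right_cancel₀ p2.ne' g1)
  linarith

/-- the fresh relation is a large mass of strong alive singles over the thin letters -/
theorem fresh_in (hLam : 0 ≤ Lam) (he : 0 ≤ e) {q : ℕ} (i : Fin 3)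
    (hTop : ∀ w, M.P.p w ≠ 0 → -Lam ≤ lt M (univ.erase i) {i} q w) {u : Om} (hu : M.P.p u ≠ 0) (h : FT M X1 e i q u) :
    e / 4 ≤ M.P.ce (TH M q) (fun x => ind (SA M (X1 + Lam) (e / 4) i q x)) u := by
  have h1 := tvo_le i q hu (e := e / 4) (by linarith)
  have h2 : M.P.ce (TH M q) (fun x => ind (e / 4 ≤ ps M i q x)) u ≤
      M.P.ce (TH M q) (fun x => ind (SA M (X1 + Lam) (e / 4) i q x)) u := by
    refine ce_ind_mono fun x hx hxu g => ?_
    have g2 := TH_iff.1 hxu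
    refine ⟨g.trans (le_abs_self _), fun j => ?_, ?_⟩
    · rw [lf_thin ({j}, ∅) rfl g2.2 g2.1]
      linarith [h.2.1 j]
    · have g3 := hTop x hx
      rw [lt_pub hx] at g3
      have g4 : lf M (univ.erase i, ∅) q x = lf M (univ.erase i, ∅) q u := lf_thin _ rfl g2.2 g2.1
      have g5 := h.2.2
      have g6 : -Lam ≤ lf M (univ.erase i, {i}) q x - lf M (univ.erase i, ∅) q x := g3
      rw [g4] at g6
      linarith
  have h3 := h.1
  linarith

theorem LC_fac (q : ℕ) : Fac (M.NP q) (LC M q) := by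
  intro x y hxy
  unfold LC
  rw [M.P.Fac_m (M.NP q) x y hxy, M.P.Fac_m (M.NP (5 * (q / 5))) x y (NP_le (Nat.mul_div_le q 5) hxy)]

theorem TH_SX (i : Fin 3) (q : ℕ) : Fac (TH M q) (fun u => ((CX M i q u).1, M.NP q u)) := fun _ _ hab =>
  Prod.ext (SX_eq.2 fun j _ => (TH_iff.1 hab).1 j) (TH_iff.1 hab).2

theorem TH_XL (i : Fin 3) (q : ℕ) : Fac (TH M q) (fun u => (M.XL i q u, M.NP q u)) := fun _ _ hab =>
  Prod.ext ((TH_iff.1 hab).1 i) (TH_iff.1 hab).2

theorem CX_SX (i : Fin 3) (q : ℕ) : Fac (fun u => (CX M i q u, M.NP q u)) (fun u => ((CX M i q u).1, M.NP q u)) := by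
  intro x y hxy
  have e1 : CX M i q x = CX M i q y := (Prod.mk.inj hxy).1
  have e2 : (CX M i q x).1 = (CX M i q y).1 := congrArg Prod.fst e1
  exact Prod.ext e2 (Prod.mk.inj hxy).2

/-- the mass of the fresh relation given the thin side -/
theorem fresh_row (hF : Fre M T (X1 + Lam) (e / 4) e0) (hI : PtI M T) (hLam : 0 ≤ Lam) (he : 0 < e) (i : Fin 3) {q : ℕ}
    (hq : q % 5 = 1) (hqT : q < 5 * T) (hTop : ∀ w, M.P.p w ≠ 0 → -Lam ≤ lt M (univ.erase i) {i} q w) {w : Om}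
    (hw : M.P.p w ≠ 0) (hLC : LC M q w ≤ X1 + Lam) (hal : -X1 ≤ lf M (univ.erase i, ∅) q w) :
    M.P.ce (fun u => ((CX M i q u).1, M.NP q u)) (fun u => ind (FT M X1 e i q u)) w ≤ e0 / (e / 4) := by
  have h1 : M.P.ce (fun u => ((CX M i q u).1, M.NP q u)) (fun u => ind (FT M X1 e i q u)) w ≤
      M.P.ce (fun u => ((CX M i q u).1, M.NP q u)) (fun u =>
        ind (e / 4 ≤ M.P.ce (TH M q) (fun x => ind (SA M (X1 + Lam) (e / 4) i q x)) u)) w :=
    ce_ind_mono fun u hu _ g => fresh_in hLam he.le i hTop hu g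
  refine h1.trans ((ce_mk (TH_SX i q) _ (by linarith) w).trans (div_le_div_of_nonneg_right ?_ (by linarith)))
  rw [← M.P.ce_tower (CX_SX i q)]
  refine (MV4.mono_on (M := M) (g := fun _ => e0) fun u hu huw => ?_).trans (M.P.ce_const _ _ hw).le
  have g1 : (CX M i q u).1 = (CX M i q w).1 := (Prod.mk.inj huw).1
  have g2 : M.NP q u = M.NP q w := (Prod.mk.inj huw).2
  refine hF.row i q u hu hq hqT (by rw [LC_fac q u w g2]; exact hLC) ?_
  have g3 := hTop u hu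
  rw [lt_pub hu] at g3
  have g4 : -Lam ≤ lf M (univ.erase i, {i}) q u - lf M (univ.erase i, ∅) q u := g3
  have g5 := lfS_own hI i q hu hw g1 g2
  rw [g5] at g4
  linarith

/-- the mass of the fresh relation given the letter of `i` -/
theorem fresh_col (hF : Fre M T (X1 + Lam) (e / 4) e0) (hLam : 0 ≤ Lam) (he : 0 < e) (i : Fin 3) {q : ℕ}
    (hq : q % 5 = 1) (hqT : q < 5 * T) (hTop : ∀ w, M.P.p w ≠ 0 → -Lam ≤ lt M (univ.erase i) {i} q w) {w : Om}
    (hw : M.P.p w ≠ 0) (hLC : LC M q w ≤ X1 + Lam) (hal : -X1 ≤ lf M ({i}, ∅) q w) :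
    M.P.ce (fun u => (M.XL i q u, M.NP q u)) (fun u => ind (FT M X1 e i q u)) w ≤ e0 / (e / 4) := by
  have h1 : M.P.ce (fun u => (M.XL i q u, M.NP q u)) (fun u => ind (FT M X1 e i q u)) w ≤
      M.P.ce (fun u => (M.XL i q u, M.NP q u)) (fun u =>
        ind (e / 4 ≤ M.P.ce (TH M q) (fun x => ind (SA M (X1 + Lam) (e / 4) i q x)) u)) w :=
    ce_ind_mono fun u hu _ g => fresh_in hLam he.le i hTop hu g
  exact h1.trans ((ce_mk (TH_XL i q) _ (by linarith) w).trans (div_le_div_of_nonneg_right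
    (hF.col i q w hw hq hqT hLC (by linarith)) (by linarith)))

/-- `bD` with the thin side: mean over the top -/
theorem bD_thin (hB : BnR M T (X1 + Lam) a b c) (hI : PtI M T) (i : Fin 3) {q : ℕ} {A : Om → Prop} (hq : q % 5 ≤ 1)
    (hqT : q ≤ 5 * T) (hA : Fac (fun u => (M.XL i q u, M.NP q u)) A)
    (hTop : ∀ w, M.P.p w ≠ 0 → -Lam ≤ lt M (univ.erase i) {i} q w) {w : Om} (hw : M.P.p w ≠ 0)
    (hal : -X1 ≤ lf M (univ.erase i, ∅) q w) : M.P.ce (M.NP q) (fun u => ind (A u)) w ≤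
      a * (b + LC M q w) + c * M.P.ce (fun u => ((CX M i q u).1, M.NP q u)) (fun u => ind (A u)) w := by
  have hN : Fac (fun u => ((CX M i q u).1, M.NP q u)) (M.NP q) := fun _ _ h => (Prod.mk.inj h).2
  have h1 : M.P.ce (fun u => ((CX M i q u).1, M.NP q u)) (M.P.ce (M.NP q) (fun u => ind (A u))) w ≤
      M.P.ce (fun u => ((CX M i q u).1, M.NP q u)) (fun u => a * (b + LC M q w) +
        c * M.P.ce (fun u => (CX M i q u, M.NP q u)) (fun u => ind (A u)) u) w := by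
    refine MV4.mono_on (M := M) fun u hu huw => ?_
    have g1 : (CX M i q u).1 = (CX M i q w).1 := (Prod.mk.inj huw).1
    have g2 : M.NP q u = M.NP q w := (Prod.mk.inj huw).2
    have g3 := hTop u hu
    rw [lt_pub hu] at g3
    have g4 : -Lam ≤ lf M (univ.erase i, {i}) q u - lf M (univ.erase i, ∅) q u := g3
    rw [lfS_own hI i q hu hw g1 g2] at g4
    have g5 := hB.bD i q A hq hqT hA u hu (by linarith)
    rw [LC_fac q u w g2] at g5
    exact g5
  rw [M.P.ce_tower' hN _ hw, M.P.ce_add, M.P.ce_const _ _ hw, M.P.ce_smul, M.P.ce_tower (CX_SX i q)] at h1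
  exact h1

/-! ### the static row and column -/

/-- static thin row of the epoch of `q` -/
def RT (M : MS Om) (X e : ℝ) (i : Fin 3) (q : ℕ) (w u : Om) : Prop := rwT M i (nS M q w) (FT M X e i (nS M q w)) w u

/-- static thin column of the epoch of `q` -/
def CT (M : MS Om) (X e : ℝ) (i : Fin 3) (q : ℕ) (w u : Om) : Prop := clT M i (nS M q w) (FT M X e i (nS M q w)) w u

section stat

variable {X : ℝ}

theorem RT_congr (i : Fin 3) (q : ℕ) (x y : Om) (h1 : CX M i q x = CX M i q y) (h2 : M.NP q x = M.NP q y) :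
    RT M X e i q x = RT M X e i q y := by
  have h3 : (CX M i q x).1 = (CX M i q y).1 := by rw [h1]
  funext u
  unfold RT rwT
  rw [nS_fac q x y h2, NP_le (nS_le q y) h2, SX_le i (nS_le q y) h3]

theorem CT_congr (i : Fin 3) (q : ℕ) (x y : Om) (h1 : M.XL i q x = M.XL i q y) (h2 : M.NP q x = M.NP q y) :
    CT M X e i q x = CT M X e i q y := by
  funext u
  unfold CT clT
  rw [nS_fac q x y h2, NP_le (nS_le q y) h2, XL_le i (nS_le q y) h1]

theorem RT_fac (i : Fin 3) (q : ℕ) (w : Om) : Fac (fun u => (M.XL i q u, M.NP q u)) (RT M X e i q w) := by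
  intro x y hxy
  unfold RT rwT
  rw [XL_le i (nS_le q w) (Prod.mk.inj hxy).1]

theorem CT_facS (i : Fin 3) (q : ℕ) (w : Om) : Fac (fun u => ((CX M i q u).1, M.NP q u)) (CT M X e i q w) := by
  intro x y hxy
  unfold CT clT
  have h3 : (CX M i q x).1 = (CX M i q y).1 := (Prod.mk.inj hxy).1
  rw [SX_le i (nS_le q w) h3]

theorem RT_full (i : Fin 3) (q : ℕ) (w : Om) :
    Fac (fun u => (LF M (univ, univ) (nS M q w) u, M.NP (nS M q w) u)) (RT M X e i q w) := by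
  intro x y hxy
  unfold RT rwT
  rw [(LF_eq.1 (Prod.mk.inj hxy).1).1 i (mem_univ i)]

theorem CT_full (i : Fin 3) (q : ℕ) (w : Om) :
    Fac (fun u => (LF M (univ, univ) (nS M q w) u, M.NP (nS M q w) u)) (CT M X e i q w) := by
  intro x y hxy
  have h1 := LF_eq.1 (Prod.mk.inj hxy).1
  have h2 : (CX M i (nS M q w) x).1 = (CX M i (nS M q w) y).1 := SX_eq.2 fun j _ => h1.1 j (mem_univ j)
  unfold CT clT
  rw [h2]

theorem RT_sub (i : Fin 3) {q : ℕ} {w u : Om} (h1 : (CX M i q u).1 = (CX M i q w).1) (h2 : M.NP q u = M.NP q w)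
    (h : RT M X e i q w u) : FT M X e i (nS M q w) u := by
  obtain ⟨z, _, g1, g2, g3, g4⟩ := h
  have k1 := NP_le (M := M) (nS_le (M := M) q w) h2
  have k2 := SX_le (M := M) i (nS_le (M := M) q w) h1
  exact (FT_thin (g1.trans k1.symm) (XL_all g3 (g2.trans k2.symm))).1 g4

theorem CT_sub (i : Fin 3) {q : ℕ} {w u : Om} (h1 : M.XL i q u = M.XL i q w) (h2 : M.NP q u = M.NP q w)
    (h : CT M X e i q w u) : FT M X e i (nS M q w) u := by
  obtain ⟨z, _, g1, g2, g3, g4⟩ := h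
  have k1 := NP_le (M := M) (nS_le (M := M) q w) h2
  have k2 := XL_le (M := M) i (nS_le (M := M) q w) h1
  exact (FT_thin (g1.trans k1.symm) (XL_all (g2.trans k2.symm) g3)).1 g4

end stat

/-- the static relation is fresh or something is listed over the thin letters -/
theorem FT_fwd' (hd : M.d0 ≤ 1 / 100) (h96 : 96 * M.d0 ≤ e / 4) (i : Fin 3) {q : ℕ} (hq : q % 5 ≤ 1) {w u : Om}
    (hu : M.P.p u ≠ 0) (huw : M.NP q u = M.NP q w) (h : FT M (X1 + 1) (e / 2) i (nS M q w) u) :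
    FT M (X1 + 2) (e / 4) i q u ∨ LPn M q u := by
  by_cases hl : LPn M q u
  · exact Or.inr hl
  · have hd0 := M.hd0
    rw [← nS_fac q u w huw] at h
    exact Or.inl (FT_mono (by linarith) (by linarith) (FT_fwd i hd hu (nu_le_nS hq u) (nS_le q u) hl h))

/-- **class mass of the static thin row** -/
theorem kapT_row (hB : BnR M T (X1 + 2 + Lam) a b c) (hF : Fre M T (X1 + 2 + Lam) (e / 16) e0) (hI : PtI M T)
    (hLam : 0 ≤ Lam) (ha : 0 ≤ a) (hc : 0 ≤ c) (he : 0 < e) (hd : M.d0 ≤ 1 / 100) (h96 : 96 * M.d0 ≤ e / 4) (i : Fin 3)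
    {q : ℕ} (hq : q % 5 = 1) (hqT : q < 5 * T) (hTop : ∀ w, M.P.p w ≠ 0 → -Lam ≤ lt M (univ.erase i) {i} q w) {w : Om}
    (hw : M.P.p w ≠ 0) (hLC : LC M q w ≤ X1) (hal : -X1 ≤ lf M (univ.erase i, ∅) q w) {k : ℝ}
    (hpt : M.P.ce (fun u => (PX M i u, M.NP q u)) (fun u => ind (LPn M q u)) w ≤ k) :
    M.P.ce (M.NP q) (fun u => ind (RT M (X1 + 1) (e / 2) i q w u)) w ≤
      a * (b + X1) + c * (16 / e * e0 + Real.exp (X1 + 2) * k) := by
  have h1 := bD_thin (X1 := X1 + 2) (Lam := Lam) hB hI i hq.le hqT.le (RT_fac (X := X1 + 1) (e := e / 2) i q w) hTop hw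
    (by linarith)
  have h2 : M.P.ce (fun u => ((CX M i q u).1, M.NP q u)) (fun u => ind (RT M (X1 + 1) (e / 2) i q w u)) w ≤
      M.P.ce (fun u => ((CX M i q u).1, M.NP q u)) (fun u => ind (FT M (X1 + 2) (e / 4) i q u)) w +
      M.P.ce (fun u => ((CX M i q u).1, M.NP q u)) (fun u => ind (LPn M q u)) w :=
    ce_ind_or fun u hu huw g => FT_fwd' hd h96 i hq.le hu (Prod.mk.inj huw).2
      (RT_sub i (Prod.mk.inj huw).1 (Prod.mk.inj huw).2 g)
  have h3 := fresh_row (X1 := X1 + 2) (Lam := Lam) (e := e / 4) (e0 := e0) (by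
    have : e / 4 / 4 = e / 16 := by ring
    rw [this]
    exact hF) hI hLam (by linarith) i hq hqT hTop hw (by linarith) (by linarith)
  have h3' : e0 / (e / 4 / 4) = 16 / e * e0 := by
    field_simp
    norm_num
  rw [h3'] at h3
  have hZ : Fac (fun u => ((CX M i q u).1, M.NP q u)) (fun u => (PX M i u, M.NP q u)) := fun x y hxy =>
    Prod.ext (PX_eq.2 fun j hj => M.hXY j q x y (SX_eq.1 (Prod.mk.inj hxy).1 j hj)) (Prod.mk.inj hxy).2
  have pm := M.P.m_pos (fun u => ((CX M i q u).1, M.NP q u)) hw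
  have h5 := ce_fine (M := M) hZ (θ := Real.exp (X1 + 2)) hw (by
    rw [mS hI i q hw]
    exact mul_le_mul_of_nonneg_right (Real.exp_le_exp.2 (by linarith)) pm.le) (fun u => LPn M q u)
  have h6 := mul_le_mul_of_nonneg_left hpt (Real.exp_pos (X1 + 2)).le
  have h7 := mul_le_mul_of_nonneg_left (h2.trans (add_le_add h3 (h5.trans h6))) hc
  have h8 := mul_le_mul_of_nonneg_left (show b + LC M q w ≤ b + X1 by linarith) ha
  linarith

/-- **class mass of the static thin column** -/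
theorem kapT_col (hB : BnR M T (X1 + 2 + Lam) a b c) (hF : Fre M T (X1 + 2 + Lam) (e / 16) e0) (hI : PtI M T)
    (hLam : 0 ≤ Lam) (ha : 0 ≤ a) (hc : 0 ≤ c) (he : 0 < e) (hd : M.d0 ≤ 1 / 100) (h96 : 96 * M.d0 ≤ e / 4) (i : Fin 3)
    {q : ℕ} (hq : q % 5 = 1) (hqT : q < 5 * T) (hTop : ∀ w, M.P.p w ≠ 0 → -Lam ≤ lt M (univ.erase i) {i} q w) {w : Om}
    (hw : M.P.p w ≠ 0) (hLC : LC M q w ≤ X1) (hal : -X1 ≤ lf M ({i}, ∅) q w) {k : ℝ}
    (hpt : M.P.ce (fun u => (M.YP i u, M.NP q u)) (fun u => ind (LPn M q u)) w ≤ k) :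
    M.P.ce (M.NP q) (fun u => ind (CT M (X1 + 1) (e / 2) i q w u)) w ≤
      a * (b + X1) + c * (16 / e * e0 + Real.exp (X1 + 2) * k) + M.k0 := by
  have hd0 := M.hd0
  set A : Om → Prop := fun u => ∃ v, M.P.p v ≠ 0 ∧ (CX M i q v, M.NP q v) = (CX M i q u, M.NP q u) ∧ M.NP q v = M.NP q w ∧
    CT M (X1 + 1) (e / 2) i q w v ∧ ∀ j, j ≠ i → -(X1 + 2) ≤ lf M ({j}, ∅) q v with hA
  have hAf : Fac (fun u => (CX M i q u, M.NP q u)) A := by
    intro x y hxy
    have hxy' : (CX M i q x, M.NP q x) = (CX M i q y, M.NP q y) := hxy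
    simp only [hA, hxy']
  have hAl : ∀ u, M.P.p u ≠ 0 → A u → ∀ j, j ≠ i → -(X1 + 2 + Lam) ≤ lf M ({j}, ∅) q u := by
    rintro u hu ⟨v, hv, g1, _, _, g4⟩ j hj
    rw [← lf_own hI j q hv hu ((CX_eq.1 (Prod.mk.inj g1).1).1 j hj) (Prod.mk.inj g1).2]
    linarith [g4 j hj]
  have h1 := hB.bC i q A hq.le hqT.le hAf hAl w hw (by linarith)
  -- the dead letters are listed
  have h0 : M.P.ce (M.NP q) (fun u => ind (CT M (X1 + 1) (e / 2) i q w u)) w ≤ M.P.ce (M.NP q) (fun u => ind (A u)) w +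
      M.P.ce (M.NP q) (fun u => ind (Lst M (nu M q w) q u)) w := by
    refine ce_ind_or fun u hu huw g => ?_
    by_cases hall : ∀ j, j ≠ i → -(X1 + 2) ≤ lf M ({j}, ∅) q u
    · exact Or.inl ⟨u, hu, rfl, huw, g, hall⟩
    · push Not at hall
      obtain ⟨j, hj, hj2⟩ := hall
      obtain ⟨z, hz, g1, g2, g3, g4⟩ := g
      have k1 : M.NP (nS M q w) z = M.NP (nS M q w) u := g1.trans (NP_le (nS_le q w) huw).symm
      have k2 := lf_own hI j (nS M q w) hz hu (SX_eq.1 g3 j hj) k1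
      have k3 : -(X1 + 1) ≤ lf M ({j}, ∅) (nS M q w) u := by
        rw [← k2]
        exact g4.2.1 j
      exact Or.inr (alive_dead' ({j}, ∅) hu huw (nu_le_nS hq.le w) (nS_le q w) k3 (by linarith))
  have h0' := Lst_mass M q hw
  have h2 : M.P.ce (fun u => (M.XL i q u, M.NP q u)) (fun u => ind (A u)) w ≤
      M.P.ce (fun u => (M.XL i q u, M.NP q u)) (fun u => ind (FT M (X1 + 2) (e / 4) i q u)) w +
      M.P.ce (fun u => (M.XL i q u, M.NP q u)) (fun u => ind (LPn M q u)) w := by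
    refine ce_ind_or fun u hu huw g => ?_
    obtain ⟨v, hv, g1, _, g3, _⟩ := g
    have g5 : CT M (X1 + 1) (e / 2) i q w u := by
      have g6 : CX M i q v = CX M i q u := (Prod.mk.inj g1).1
      have g8 : (CX M i q v).1 = (CX M i q u).1 := congrArg Prod.fst g6
      have g7 : CT M (X1 + 1) (e / 2) i q w v = CT M (X1 + 1) (e / 2) i q w u :=
        CT_facS i q w v u (Prod.ext g8 (Prod.mk.inj g1).2)
      rw [← g7]
      exact g3
    exact FT_fwd' hd h96 i hq.le hu (Prod.mk.inj huw).2 (CT_sub i (Prod.mk.inj huw).1 (Prod.mk.inj huw).2 g5)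
  have h3 := fresh_col (X1 := X1 + 2) (Lam := Lam) (e := e / 4) (e0 := e0) (by
    have : e / 4 / 4 = e / 16 := by ring
    rw [this]
    exact hF) hLam (by linarith) i hq hqT hTop hw (by linarith) (by linarith)
  have h3' : e0 / (e / 4 / 4) = 16 / e * e0 := by
    field_simp
    norm_num
  rw [h3'] at h3
  have pm := M.P.m_pos (fun u => (M.XL i q u, M.NP q u)) hw
  have h5 := ce_fine (M := M) (XL_YP (M := M) i q) (θ := Real.exp (X1 + 2)) hw (by
    rw [mD hI i q hw]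
    exact mul_le_mul_of_nonneg_right (Real.exp_le_exp.2 (by linarith)) pm.le) (fun u => LPn M q u)
  have h6 := mul_le_mul_of_nonneg_left hpt (Real.exp_pos (X1 + 2)).le
  have h7 := mul_le_mul_of_nonneg_left (h2.trans (add_le_add h3 (h5.trans h6))) hc
  have h8 := mul_le_mul_of_nonneg_left (show b + LC M q w ≤ b + X1 by linarith) ha
  linarith

/-! ### the reduction -/

variable {p1 L0 : ℝ}

/-- **one removal** -/
theorem redF_one (hPr : PrN M) (hTh : Thk M Lam) (hB : BnR M T (X1 + 2 + Lam) a b c)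
    (hF : Fre M T (X1 + 2 + Lam) (e / 16) e0) (hI : PtI M T) (hLam : 0 ≤ Lam) (ha : 0 ≤ a) (hc : 0 ≤ c) (hbX : 0 ≤ b + X1)
    (he0 : 0 ≤ e0) (he : 0 < e) (hd : M.d0 ≤ 1 / 100) (h96 : 96 * M.d0 ≤ e / 4)
    (hp : 4 * M.d0 + Real.sqrt (Real.exp (4 * Lam) * M.k0) ≤ p1 / 2) (hL : Real.log 2 ≤ L0) (i : Fin 3) {q : ℕ}
    (hcd : M.cd q) (hq : q % 5 = 1) (hqT : q < 5 * T)
    (hTop : ∀ w, M.P.p w ≠ 0 → -Lam ≤ lt M (univ.erase i) {i} q w) :
    M.P.Pr (fun w => exq M L0 q w ∧ (e ≤ tvo M i q w ∧ alX M X1 i q w)) ≤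
      M.P.Pr (fun w => exq M L0 q w ∧ HF M (X1 + 1) (e / 2) p1 i (nS M q w) w) +
      M.P.Pr (fun w => lt5 M M.NP q w ∧ LPn M q w) + M.P.Pr (fun w => X1 < LC M q w) +
      (3 * Real.sqrt (Real.exp (4 * Lam) * M.k0) + 8 * (a * (b + X1) +
        c * (16 / e * e0 + Real.exp (X1 + 2) * Real.sqrt (Real.exp (4 * Lam) * M.k0)) + M.k0) / p1) *
        M.P.Pr (exq M L0 q) := by
  have hd0 := M.hd0
  set kL : ℝ := Real.exp (4 * Lam) * M.k0 with hkL
  have hk0 : 0 < kL := mul_pos (Real.exp_pos _) M.hk0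
  have hs : 0 < Real.sqrt kL := Real.sqrt_pos.2 hk0
  have hp1 : 0 < p1 := by linarith
  have hX2 := Real.exp_pos (X1 + 2)
  set κ1 : ℝ := a * (b + X1) + c * (16 / e * e0 + Real.exp (X1 + 2) * Real.sqrt kL) with hκ1
  have hκ0 : 0 ≤ κ1 := add_nonneg (mul_nonneg ha hbX) (mul_nonneg hc (add_nonneg
    (mul_nonneg (div_nonneg (by norm_num) he.le) he0) (mul_pos hX2 hs).le))
  have hBm : ∀ w, M.P.p w ≠ 0 → M.P.ce (M.NP q) (fun u => ind (LPn M q u)) w ≤ kL := fun w hw =>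
    (LPn_le hTh q (fun _ _ hab => (TH_iff.1 hab).2) w).trans
      (mul_le_mul_of_nonneg_left (Lst_mass' M q hw).le (Real.exp_pos _).le)
  have hks : kL / Real.sqrt kL = Real.sqrt kL := by
    rw [div_eq_iff hs.ne', Real.mul_self_sqrt hk0.le]
  have t3 := pt_bd hPr hcd L0 (Z := AHR.UY M q) (Fac.refl _) (UY_NP q) hs hBm
  have t4 := pt_bd hPr hcd L0 (Z := fun u => (PX M i u, M.NP q u)) (UY_PX i q) (PX_NP i q) hs hBm
  have t5 := pt_bd hPr hcd L0 (Z := fun u => (M.YP i u, M.NP q u)) (UY_YP i q) (YP_NP i q) hs hBm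
  rw [hks] at t3 t4 t5
  have hCf : ∀ w, Fac (fun u => (CX M i q u, M.NP q u)) (CT M (X1 + 1) (e / 2) i q w) := fun w =>
    (CX_SX i q).trans (CT_facS i q w)
  have t6 := side_bd (M := M) (q := q) L0 (Z := CX M i q) (Y := M.YP i) (UY_YP i q) (ind_row hI i hq hqT)
    (R := RT M (X1 + 1) (e / 2) i q) (RT_congr i q)
    (fun w x y hx hy h1 h2 => hI.xd i q (RT M (X1 + 1) (e / 2) i q w) (RT_fac i q w) x y hx hy h1 h2)
    (θ := p1 / 2) (κ := κ1) (by linarith) hκ0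
  have t7 := side_bd (M := M) (q := q) L0 (Z := M.XL i q) (Y := PX M i) (UY_PX i q) (ind_col hI i hq hqT)
    (R := CT M (X1 + 1) (e / 2) i q) (CT_congr i q)
    (fun w x y hx hy h1 h2 => hI.xc i q (CT M (X1 + 1) (e / 2) i q w) (hCf w) x y hx hy h1 h2)
    (θ := p1 / 2) (κ := κ1 + M.k0) (by linarith) (add_nonneg hκ0 M.hk0.le)
  -- the events
  set E1 : Om → Prop := fun w => exq M L0 q w ∧ HF M (X1 + 1) (e / 2) p1 i (nS M q w) w with hE1
  set E2 : Om → Prop := fun w => lt5 M M.NP q w ∧ LPn M q w with hE2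
  set E3 : Om → Prop := fun w => X1 < LC M q w with hE3
  set E4 : Om → Prop := fun w => exq M L0 q w ∧ Real.sqrt kL ≤ M.P.ce (AHR.UY M q) (fun u => ind (LPn M q u)) w with hE4
  set E5 : Om → Prop := fun w => exq M L0 q w ∧
    Real.sqrt kL ≤ M.P.ce (fun u => (PX M i u, M.NP q u)) (fun u => ind (LPn M q u)) w with hE5
  set E6 : Om → Prop := fun w => exq M L0 q w ∧
    Real.sqrt kL ≤ M.P.ce (fun u => (M.YP i u, M.NP q u)) (fun u => ind (LPn M q u)) w with hE6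
  set E7 : Om → Prop := fun w => exq M L0 q w ∧
    (M.P.ce (M.NP q) (fun u => ind (RT M (X1 + 1) (e / 2) i q w u)) w ≤ κ1 ∧
      p1 / 2 ≤ M.P.ce (AHR.UY M q) (fun u => ind (RT M (X1 + 1) (e / 2) i q w u)) w) with hE7
  set E8 : Om → Prop := fun w => exq M L0 q w ∧
    (M.P.ce (M.NP q) (fun u => ind (CT M (X1 + 1) (e / 2) i q w u)) w ≤ κ1 + M.k0 ∧
      p1 / 2 ≤ M.P.ce (AHR.UY M q) (fun u => ind (CT M (X1 + 1) (e / 2) i q w u)) w) with hE8
  -- the pointwise decomposition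
  have key : ∀ w, M.P.p w ≠ 0 → exq M L0 q w ∧ (e ≤ tvo M i q w ∧ alX M X1 i q w) →
      E1 w ∨ (E2 w ∨ (E3 w ∨ (E4 w ∨ (E5 w ∨ (E6 w ∨ (E7 w ∨ E8 w)))))) := by
    rintro w hw ⟨hE, hS1, hS2⟩
    by_cases c2 : LPn M q w
    · exact Or.inr (Or.inl ⟨exq_lt5 hL hcd hw hE, c2⟩)
    by_cases c3 : X1 < LC M q w
    · exact Or.inr (Or.inr (Or.inl c3))
    by_cases c4 : Real.sqrt kL ≤ M.P.ce (AHR.UY M q) (fun u => ind (LPn M q u)) w
    · exact Or.inr (Or.inr (Or.inr (Or.inl ⟨hE, c4⟩)))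
    by_cases c5 : Real.sqrt kL ≤ M.P.ce (fun u => (PX M i u, M.NP q u)) (fun u => ind (LPn M q u)) w
    · exact Or.inr (Or.inr (Or.inr (Or.inr (Or.inl ⟨hE, c5⟩))))
    by_cases c6 : Real.sqrt kL ≤ M.P.ce (fun u => (M.YP i u, M.NP q u)) (fun u => ind (LPn M q u)) w
    · exact Or.inr (Or.inr (Or.inr (Or.inr (Or.inr (Or.inl ⟨hE, c6⟩)))))
    push Not at c3 c4 c5 c6
    have hr := nu_le_nS (M := M) hq.le w
    have hrq := nS_le (M := M) q w
    have hul := unl_of hw c2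
    have hFq : FT M X1 e i q w := ⟨hS1, alX_alT hw hS2⟩
    have hFr : FT M (X1 + 1) (e / 2) i (nS M q w) w :=
      FT_mono (by linarith) (by linarith) (FT_back i hd hw hr hrq c2 hFq)
    have hAr : alX M (X1 + 1) i (nS M q w) w := alX_mono (by linarith) (alX_back i hw hr hrq hul hS2)
    have hLu : M.P.ce (AHR.UY M q) (fun x => ind (Lst M (nu M q w) q x)) w < Real.sqrt kL := by
      refine lt_of_le_of_lt (ce_ind_mono fun u hu huw g => ?_) c4
      refine kda_pos (TH M q) hu ?_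
      rw [nu_fac M q u w (UY_eq.1 huw).2]
      exact g
    by_cases c7 : M.P.ce (AHR.UY M (nS M q w)) (fun u => ind (RT M (X1 + 1) (e / 2) i q w u)) w ≤ p1
    · by_cases c8 : M.P.ce (AHR.UY M (nS M q w)) (fun u => ind (CT M (X1 + 1) (e / 2) i q w u)) w ≤ p1
      · exact Or.inl ⟨hE, ⟨hFr.1, hAr⟩, c7, c8⟩
      · push Not at c8
        have k1 := mass_bwd (M := M) (by linarith) hr hrq (CT_full (X := X1 + 1) (e := e / 2) i q w) hw
        have k2 := kapT_col hB hF hI hLam ha hc he hd h96 i hq hqT hTop hw c3 (hS2.1 i) c6.le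
        refine Or.inr (Or.inr (Or.inr (Or.inr (Or.inr (Or.inr (Or.inr ⟨hE, k2, ?_⟩))))))
        linarith
    · push Not at c7
      have k1 := mass_bwd (M := M) (by linarith) hr hrq (RT_full (X := X1 + 1) (e := e / 2) i q w) hw
      have k2 := kapT_row hB hF hI hLam ha hc he hd h96 i hq hqT hTop hw c3 hFq.2.2 c5.le
      refine Or.inr (Or.inr (Or.inr (Or.inr (Or.inr (Or.inr (Or.inl ⟨hE, k2, ?_⟩))))))
      linarith
  have hsum := M.P.Pr_mono key
  have u1 := M.P.Pr_or_le E1 (fun w => E2 w ∨ (E3 w ∨ (E4 w ∨ (E5 w ∨ (E6 w ∨ (E7 w ∨ E8 w))))))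
  have u2 := M.P.Pr_or_le E2 (fun w => E3 w ∨ (E4 w ∨ (E5 w ∨ (E6 w ∨ (E7 w ∨ E8 w)))))
  have u3 := M.P.Pr_or_le E3 (fun w => E4 w ∨ (E5 w ∨ (E6 w ∨ (E7 w ∨ E8 w))))
  have u4 := M.P.Pr_or_le E4 (fun w => E5 w ∨ (E6 w ∨ (E7 w ∨ E8 w)))
  have u5 := M.P.Pr_or_le E5 (fun w => E6 w ∨ (E7 w ∨ E8 w))
  have u6 := M.P.Pr_or_le E6 (fun w => E7 w ∨ E8 w)
  have u7 := M.P.Pr_or_le E7 E8
  have hPx := M.P.Pr_nonneg (exq M L0 q)
  have hfin : κ1 / (p1 / 2) * M.P.Pr (exq M L0 q) + (κ1 + M.k0) / (p1 / 2) * M.P.Pr (exq M L0 q) ≤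
      8 * (κ1 + M.k0) / p1 * M.P.Pr (exq M L0 q) := by
    rw [← add_mul]
    refine mul_le_mul_of_nonneg_right ?_ hPx
    rw [← add_div, div_le_div_iff₀ (by linarith) hp1]
    have := M.hk0
    nlinarith
  have e9 : (3 * Real.sqrt kL + 8 * (κ1 + M.k0) / p1) * M.P.Pr (exq M L0 q) =
      Real.sqrt kL * M.P.Pr (exq M L0 q) + Real.sqrt kL * M.P.Pr (exq M L0 q) +
      Real.sqrt kL * M.P.Pr (exq M L0 q) + 8 * (κ1 + M.k0) / p1 * M.P.Pr (exq M L0 q) := by ring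
  rw [e9]
  linarith

/-- **REDUCTION TO THE STATIC THIN RELATIONS** (row (E9a)) -/
theorem redF (hPr : PrN M) {Tot : ℝ} (hT : Tot0 M (5 * T) Tot) (hTh : Thk M Lam)
    (hk : Real.exp (4 * Lam) * M.k0 < 1) (hB : BnR M T (X1 + 2 + Lam) a b c)
    (hF : Fre M T (X1 + 2 + Lam) (e / 16) e0) (hI : PtI M T) (hLam : 0 ≤ Lam) (ha : 0 ≤ a) (hc : 0 ≤ c) (hbX : 0 ≤ b + X1)
    (he0 : 0 ≤ e0) (he : 0 < e) (hd : M.d0 ≤ 1 / 100) (h96 : 96 * M.d0 ≤ e / 4)
    (hp : 4 * M.d0 + Real.sqrt (Real.exp (4 * Lam) * M.k0) ≤ p1 / 2) (hL : Real.log 2 ≤ L0)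
    (hcd : ∀ q, q % 5 = 1 → q < 5 * T → M.cd q) (i : Fin 3)
    (hTop : ∀ q w, q % 5 = 1 → q < 5 * T → M.P.p w ≠ 0 → -Lam ≤ lt M (univ.erase i) {i} q w) :
    ∑ q ∈ range (5 * T), M.P.Pr (fun w => exq M L0 q w ∧ (e ≤ tvo M i q w ∧ alX M X1 i q w)) ≤
      ∑ q ∈ range (5 * T), M.P.Pr (fun w => exq M L0 q w ∧ HF M (X1 + 1) (e / 2) p1 i (nS M q w) w) +
      2 / Real.log (1 / (Real.exp (4 * Lam) * M.k0)) * (Tot + Real.sqrt (Real.exp (4 * Lam) * M.k0) * NL M (5 * T)) +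
      ∑ t ∈ range T, M.P.Pr (fun w => X1 < LC M (5 * t + 1) w) +
      (3 * Real.sqrt (Real.exp (4 * Lam) * M.k0) + 8 * (a * (b + X1) +
        c * (16 / e * e0 + Real.exp (X1 + 2) * Real.sqrt (Real.exp (4 * Lam) * M.k0)) + M.k0) / p1) *
        ∑ q ∈ range (5 * T), M.P.Pr (exq M L0 q) := by
  have h1 : ∀ q ∈ range (5 * T), M.P.Pr (fun w => exq M L0 q w ∧ (e ≤ tvo M i q w ∧ alX M X1 i q w)) ≤
      M.P.Pr (fun w => exq M L0 q w ∧ HF M (X1 + 1) (e / 2) p1 i (nS M q w) w) +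
      M.P.Pr (fun w => lt5 M M.NP q w ∧ LPn M q w) +
      (if q % 5 = 1 then M.P.Pr (fun w => X1 < LC M q w) else 0) +
      (3 * Real.sqrt (Real.exp (4 * Lam) * M.k0) + 8 * (a * (b + X1) +
        c * (16 / e * e0 + Real.exp (X1 + 2) * Real.sqrt (Real.exp (4 * Lam) * M.k0)) + M.k0) / p1) *
        M.P.Pr (exq M L0 q) := by
    intro q hqT
    by_cases hq : q % 5 = 1
    · rw [if_pos hq]
      exact redF_one hPr hTh hB hF hI hLam ha hc hbX he0 he hd h96 hp hL i (hcd q hq (mem_range.1 hqT)) hq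
        (mem_range.1 hqT) (fun w hw => hTop q w hq (mem_range.1 hqT) hw)
    · rw [if_neg hq]
      have e1 : M.P.Pr (fun w => exq M L0 q w ∧ (e ≤ tvo M i q w ∧ alX M X1 i q w)) = 0 := by
        show M.P.E _ = 0
        rw [M.P.E_congr (g := fun _ => (0 : ℝ)) fun w _ => ind_not fun h => hq h.1.1, M.P.E_const]
      have e2 : M.P.Pr (exq M L0 q) = 0 := by
        show M.P.E _ = 0
        rw [M.P.E_congr (g := fun _ => (0 : ℝ)) fun w _ => ind_not fun h => hq h.1, M.P.E_const]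
      rw [e1, e2, mul_zero, add_zero, add_zero]
      exact add_nonneg (M.P.Pr_nonneg _) (M.P.Pr_nonneg _)
  have h2 := Finset.sum_le_sum h1
  rw [Finset.sum_add_distrib, Finset.sum_add_distrib, Finset.sum_add_distrib, ← Finset.mul_sum,
    sum5 (fun q => M.P.Pr (fun w => X1 < LC M q w))] at h2
  have h3 := NP_thr hPr hT (A := fun s => LPn M s) (q := Real.exp (4 * Lam) * M.k0)
    (fun s _ => (MV4.full_TH s).trans (LPn_fac s)) (mul_pos (Real.exp_pos _) M.hk0) hk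
    (fun s _ w hw _ => (LPn_le hTh s (fun _ _ hab => (TH_iff.1 hab).2) w).trans
      (mul_le_mul_of_nonneg_left (Lst_mass' M s hw).le (Real.exp_pos _).le))
  linarith

end

end Pool.Agent.GMH.Sng
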