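import Pool.Agent.GMH.SngH
import Pool.Agent.GMH.RowV

/-!
# GMH/SngT (helper80): the missing letter at exact points (kind `S`, part A)

All points exact up to `c` (`I`), events `V1, V2, V3` of (hidden point, exact points, label `c`) in the class, half cells `HC`.
* `hc_eq` : the mass of the half cells does not depend on the event;
* `l1_H` : distance of the law of the letter of `c` under `V` (half cells) from its law in the class:
  `≤ 2^|K| √(2 kI)`, `kI = 2 N 0 (L + 1) / N c`;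
* **`mis_le`** : `P (2 m2 < m1 | V3) ≤ 6 · 2^|K| √(2 kI)`, `mk` = law of the letter under `Vk`;
* **`sgl_le`** : `P (e ≤ |log (m1 / m2)| | V3) ≤ (2 + 4 / e) 2^|K| √(2 kI)`.
-/

set_option autoImplicit false
set_option linter.unusedSectionVars false

namespace Pool.Agent.GMH.SngA

open Finset Pool.Agent.PWZ Pool.Agent.M3 Pool.Agent.GM Pool.Agent.GM.Harm Pool.Agent.GMH Pool.Agent.GMH.RarX

section three

variable {κ : Type*} (s : Finset κ) {r1 r2 r3 R : κ → ℝ}

/-- three laws near one law: the first is more than twice the second -/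
theorem three_M {δ : ℝ} (h1 : ∑ z ∈ s, |r1 z - R z| ≤ δ) (h2 : ∑ z ∈ s, |r2 z - R z| ≤ δ)
    (h3 : ∑ z ∈ s, |r3 z - R z| ≤ δ) : ∑ z ∈ s, ind (2 * r2 z < r1 z) * r3 z ≤ 6 * δ := by
  have h4 : ∀ z ∈ s, ind (2 * r2 z < r1 z) * r3 z ≤ |r3 z - R z| + 3 * |r1 z - R z| + 2 * |r2 z - R z| := by
    intro z _
    have a1 := le_abs_self (r3 z - R z)
    have a2 := neg_abs_le (r1 z - R z)
    have a3 := le_abs_self (r1 z - R z)
    have a4 := neg_abs_le (r2 z - R z)
    have b1 := abs_nonneg (r3 z - R z)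
    have b2 := abs_nonneg (r1 z - R z)
    have b3 := abs_nonneg (r2 z - R z)
    by_cases h : 2 * r2 z < r1 z
    · rw [ind_of h, one_mul]
      linarith
    · rw [ind_not h, zero_mul]
      positivity
  refine (Finset.sum_le_sum h4).trans ?_
  rw [Finset.sum_add_distrib, Finset.sum_add_distrib, ← Finset.mul_sum, ← Finset.mul_sum]
  linarith

/-- three laws near one law: the logarithm of the quotient of the first two -/
theorem three_S (n1 : ∀ z, 0 ≤ r1 z) (n2 : ∀ z, 0 ≤ r2 z) {e δ : ℝ} (he : 0 < e) (he1 : e ≤ 1)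
    (h1 : ∑ z ∈ s, |r1 z - R z| ≤ δ) (h2 : ∑ z ∈ s, |r2 z - R z| ≤ δ)
    (h3 : ∑ z ∈ s, |r3 z - R z| ≤ δ) :
    ∑ z ∈ s, ind (e ≤ |Real.log (r1 z / r2 z)|) * r3 z ≤ (2 + 4 / e) * δ := by
  have h4 : ∀ z ∈ s, ind (e ≤ |Real.log (r1 z / r2 z)|) * r3 z ≤
      |r3 z - R z| + (1 + 2 / e) * |r1 z - R z| + 2 / e * |r2 z - R z| := by
    intro z _
    have a1 := le_abs_self (r3 z - R z)
    have b1 := abs_nonneg (r3 z - R z)
    have b2 := abs_nonneg (r1 z - R z)
    have b3 := abs_nonneg (r2 z - R z)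
    by_cases h : e ≤ |Real.log (r1 z / r2 z)|
    · rw [ind_of h, one_mul]
      have p1 : 0 < r1 z := by
        refine lt_of_le_of_ne (n1 z) fun hh => ?_
        rw [← hh, zero_div, Real.log_zero, abs_zero] at h
        linarith
      have p2 : 0 < r2 z := by
        refine lt_of_le_of_ne (n2 z) fun hh => ?_
        rw [← hh, div_zero, Real.log_zero, abs_zero] at h
        linarith
      have key : r1 z ≤ 2 / e * |r1 z - r2 z| := by
        have hexp : Real.exp (-e) ≤ 1 - e / 2 := exp_neg_le_lin he.le he1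
        rw [div_mul_eq_mul_div, le_div_iff₀ he]
        rcases le_abs'.1 h with h5 | h5
        · -- `r1 ≤ exp (-e) r2`
          have h6 : r1 z / r2 z ≤ Real.exp (-e) := by
            rw [← Real.log_le_iff_le_exp (div_pos p1 p2)]
            linarith
          rw [div_le_iff₀ p2] at h6
          have h7 : r1 z ≤ (1 - e / 2) * r2 z := h6.trans (mul_le_mul_of_nonneg_right hexp p2.le)
          have h8 : r2 z - r1 z ≤ |r1 z - r2 z| := by rw [abs_sub_comm]; exact le_abs_self _
          have h9 : 0 ≤ e / 2 * r2 z := by positivity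
          have h10 : r1 z ≤ r2 z := by linarith
          have h11 := mul_le_mul_of_nonneg_left h10 he.le
          linarith
        · have h6 : r2 z / r1 z ≤ Real.exp (-e) := by
            rw [← Real.log_le_iff_le_exp (div_pos p2 p1)]
            have : Real.log (r2 z / r1 z) = - Real.log (r1 z / r2 z) := by
              rw [← Real.log_inv, inv_div]
            linarith
          rw [div_le_iff₀ p1] at h6
          have h7 : r2 z ≤ (1 - e / 2) * r1 z := h6.trans (mul_le_mul_of_nonneg_right hexp p1.le)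
          have h8 : r1 z - r2 z ≤ |r1 z - r2 z| := le_abs_self _
          linarith
      have k1 : |r1 z - r2 z| ≤ |r1 z - R z| + |r2 z - R z| := by
        have := abs_sub_le (r1 z) (R z) (r2 z)
        rw [abs_sub_comm (R z) (r2 z)] at this
        exact this
      have k2 := mul_le_mul_of_nonneg_left k1 (show 0 ≤ 2 / e by positivity)
      have k3 : r3 z ≤ |r3 z - R z| + |r1 z - R z| + r1 z := by
        have := neg_abs_le (r1 z - R z)
        linarith
      nlinarith
    · rw [ind_not h, zero_mul]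
      positivity
  refine (Finset.sum_le_sum h4).trans ?_
  rw [Finset.sum_add_distrib, Finset.sum_add_distrib, ← Finset.mul_sum, ← Finset.mul_sum]
  have c1 : 0 ≤ 1 + 2 / e := by positivity
  have c2 : 0 ≤ 2 / e := by positivity
  have d1 := mul_le_mul_of_nonneg_left h1 c1
  have d2 := mul_le_mul_of_nonneg_left h2 c2
  have : (2 + 4 / e) * δ = δ + (1 + 2 / e) * δ + 2 / e * δ := by ring
  linarith

end three

section cls

variable {K X β γ φ υ : Type} [Fintype K] [DecidableEq K] [Fintype X] [Fintype β] [Fintype φ] [Nonempty X] [Nonempty β]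
  {D : HD K X β γ φ} {al : ℝ} {h : D.Thick al} {N : Finset K → ℝ} {S : Finset (Finset K)}
  {U : Finset K → X → (K → β) → υ} {t t' : ℕ} {b c d : K} {w0 : Pt K X β φ} {V : Pt K X β φ → Prop}
  {Typ : β → υ → Prop} {M L : ℝ} {I : Finset K}

/-- the class as an event -/
theorem Ix_cls (B : Bk h N S U t b c d) (hw0 : (D.P h t).p w0 ≠ 0) : Ix h U t I w0 (xc D U t I w0) where
  ev := by
    intro v w hvw
    refine xc_fac (U := U) I w0 B.dep B.era v w ?_
    simp only [Prod.mk.injEq] at hvw ⊢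
    exact ⟨hvw.1, hvw.2.1⟩
  self := xc_self U t I w0
  supp := hw0
  sub := fun _ hv => hv

theorem Ix.LX_cls (J : Ix h U t I w0 V) : LX h U t I w0 (xc D U t I w0) ≤ LX h U t I w0 V := by
  have h0 : 0 < (QX h U t I w0).Pr V := lt_of_le_of_ne ((QX h U t I w0).Pr_nonneg _) J.neX.symm
  have h2 : (QX h U t I w0).Pr V ≤ (QX h U t I w0).Pr (xc D U t I w0) :=
    (QX h U t I w0).Pr_mono fun v _ hv => J.sub v hv
  unfold LX
  exact Real.log_le_log (one_div_pos.2 (lt_of_lt_of_le h0 h2)) (one_div_le_one_div_of_le h0 h2)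

/-- a smaller event has the larger surprise -/
theorem Ix.LX_mono (J : Ix h U t I w0 V) {V' : Pt K X β φ → Prop} (hVV : ∀ v, V v → V' v) :
    LX h U t I w0 V' ≤ LX h U t I w0 V := by
  have h0 : 0 < (QX h U t I w0).Pr V := lt_of_le_of_ne ((QX h U t I w0).Pr_nonneg _) J.neX.symm
  have h2 : (QX h U t I w0).Pr V ≤ (QX h U t I w0).Pr V' := (QX h U t I w0).Pr_mono fun v _ hv => hVV v hv
  unfold LX
  exact Real.log_le_log (one_div_pos.2 (lt_of_lt_of_le h0 h2)) (one_div_le_one_div_of_le h0 h2)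

/-- the mass of the half cells does not depend on the event -/
theorem hc_eq (B : Bk h N S U t b c d) (J : Ix h U t I w0 V) (hIc : ∀ j, j ≠ c → j ∈ I) (hcI : c ∉ I) :
    ((D.P h t).cond V).Pr (HC D t' w0) = (QX h U t I w0).Pr (HC D t' w0) := by
  classical
  have hx0 : (D.P h t).Pr (xc D U t I w0) ≠ 0 := xc_ne J.supp
  have hind := cls_indep3 (h := h) (t := t) (K0 := I) c (V := xc D U t I w0) (xc_fac I w0 B.dep B.era)
    (fun v w hv hw => hv.2.trans hw.2.symm) (xc_self U t I w0) hx0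
  set Cc : Pt K X β φ → Prop := fun v => D.qb t' (v.2.1 c) = D.qb t' (w0.2.1 c) with hCc
  set V1 : Pt K X β φ → Prop := fun v => V (v.1, w0.2.1, fun l => if l = c then v.2.2 l else w0.2.2 l) with hV1
  have hsup : ∀ v, (QX h U t I w0).p v ≠ 0 → xc D U t I w0 v := fun v hv => QX_supp J.supp hv
  have eV : ∀ v, (QX h U t I w0).p v ≠ 0 → V v = V1 v := by
    intro v hv
    rw [ev_cls J.ev (hsup v hv).2]
    refine J.ev _ _ ?_
    simp only [Prod.mk.injEq, BB_eq]
    refine ⟨trivial, ⟨fun _ _ => trivial, trivial, fun _ => trivial⟩, ?_⟩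
    funext l
    unfold tl
    by_cases hl : univ.erase l ⊆ I ∧ ∃ i ∈ I, i ≠ l
    · have hlj : l = c := by
        by_contra hlj
        exact hcI (hl.1 (Finset.mem_erase.2 ⟨fun hh => hlj hh.symm, mem_univ c⟩))
      rw [if_pos hl, if_pos hl]
      show some (v.2.2 l) = some (if l = c then v.2.2 l else w0.2.2 l)
      rw [if_pos hlj]
    · rw [if_neg hl, if_neg hl]
  have eH : ∀ v, (QX h U t I w0).p v ≠ 0 → HC D t' w0 v = Cc v := by
    intro v hv
    refine propext ⟨fun hh => hh c, fun hh j => ?_⟩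
    by_cases hj : j = c
    · rw [hj]; exact hh
    · have h1 := (hsup v hv).2
      rw [BB_eq] at h1
      rw [h1.1 j (hIc j hj)]
  have e4 := hind (fun v => ind (Cc v)) (fun v => ind (V1 v))
    (Fac.ind fun v w hvw => by
      have h1 : v.2.1 c = w.2.1 c := hvw
      show D.qb t' (v.2.1 c) = D.qb t' (w0.2.1 c) ↔ D.qb t' (w.2.1 c) = D.qb t' (w0.2.1 c)
      rw [h1]) (Fac.ind fun v w hvw => by
      simp only [Prod.mk.injEq] at hvw
      show V (v.1, w0.2.1, fun l => if l = c then v.2.2 l else w0.2.2 l) ↔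
        V (w.1, w0.2.1, fun l => if l = c then w.2.2 l else w0.2.2 l)
      have : (fun l => if l = c then v.2.2 l else w0.2.2 l) = fun l => if l = c then w.2.2 l else w0.2.2 l := by
        funext l
        by_cases hl : l = c
        · rw [if_pos hl, if_pos hl, hl, hvw.2.2]
        · rw [if_neg hl, if_neg hl]
      rw [this, hvw.1])
  have e5 : (QX h U t I w0).E (fun v => ind (Cc v) * ind (V1 v)) =
      (QX h U t I w0).E (fun v => ind (Cc v)) * (QX h U t I w0).E (fun v => ind (V1 v)) := e4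
  have e6 : (QX h U t I w0).Pr V = (QX h U t I w0).E (fun v => ind (V1 v)) :=
    (QX h U t I w0).E_congr fun v hv => by rw [eV v hv]
  have e8 : (QX h U t I w0).Pr (HC D t' w0) = (QX h U t I w0).E (fun v => ind (Cc v)) :=
    (QX h U t I w0).E_congr fun v hv => by rw [eH v hv]
  rw [e8, ← J.condX]
  unfold FP.Pr
  rw [FP.cond_E J.neX, e6, div_eq_iff (by rw [← e6]; exact J.neX), ← e5]
  refine (QX h U t I w0).E_congr fun v hv => ?_
  rw [eV v hv, eH v hv, mul_comm]

/-- price of one letter -/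
noncomputable def kI (N : Finset K → ℝ) (c : K) (L : ℝ) : ℝ := 2 * N ∅ * (L + 1) / N {c}

theorem Ix.kl_le (B : Bk h N S U t b c d) (J : Ix h U t I w0 V) (hcI : c ∉ I) (hL : LX h U t I w0 V ≤ L) :
    ((D.P h t).cond V).kl (QX h U t I w0) (zf U c) ≤ kI N c L := by
  have hN0 := B.nn ∅ B.s0
  unfold kI
  rw [le_div_iff₀ (B.n1 c), mul_comm]
  exact (J.one B hcI).trans (mul_le_mul_of_nonneg_left (by linarith) (by linarith))

/-- **the law of the missing letter** -/
theorem l1_H (htt : t ≤ t') (hh : ∀ y, ((D.cB t y).card : ℝ) ≤ 2 * (D.cB t' y).card) (B : Bk h N S U t b c d)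
    (J : Ix h U t I w0 V) (hIc : ∀ j, j ≠ c → j ∈ I) (hcI : c ∉ I) (hL : LX h U t I w0 V ≤ L) :
    ∑ z ∈ vals (zf (φ := φ) U c), |lw ((D.P h t).cond (VH D t' univ w0 V)) (zf U c) z -
      lw ((D.P h t).cond (VH D t' univ w0 (xc D U t I w0))) (zf U c) z| ≤
      2 ^ Fintype.card K * Real.sqrt (2 * kI N c L) := by
  classical
  have Jc := Ix_cls (I := I) B J.supp
  have hθ := hc_one (t' := t') htt hh B J hIc hcI
  have hq := hc_eq (t' := t') B J hIc hcI
  have hq' := hc_eq (t' := t') B Jc hIc hcI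
  set θ := (QX h U t I w0).Pr (HC D t' w0) with hθd
  rw [hq] at hθ
  have hθ0 : 0 < θ := lt_of_lt_of_le (by positivity) hθ
  have hlw : ∀ {V0 : Pt K X β φ → Prop}, Ix h U t I w0 V0 → ((D.P h t).cond V0).Pr (HC D t' w0) = θ → ∀ z,
      lw ((D.P h t).cond (VH D t' univ w0 V0)) (zf U c) z =
        ind (D.qb t' z.1 = D.qb t' (w0.2.1 c)) * lw ((D.P h t).cond V0) (zf U c) z / θ := by
    intro V0 J0 h0 z
    have h1 := VH_Pr (t' := t') (Jc := univ) J0 (fun v => zf U c v = z)
    rw [HJ_univ, h0] at h1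
    have h2 : lw ((D.P h t).cond (VH D t' univ w0 V0)) (zf U c) z =
      ((D.P h t).cond (VH D t' univ w0 V0)).Pr (fun v => zf U c v = z) := rfl
    rw [h2, h1]
    congr 1
    have h3 : lw ((D.P h t).cond V0) (zf U c) z = ((D.P h t).cond V0).Pr (fun v => zf U c v = z) := rfl
    rw [h3]
    unfold FP.Pr
    rw [← FP.E_smul]
    refine FP.E_congr _ fun v hv => ?_
    obtain ⟨hv1, hv2⟩ := cond_supp J0.ne hv
    have hx := (J0.sub v hv1).2
    rw [BB_eq] at hx
    rw [← ind_and]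
    refine congrArg ind (propext ⟨fun hh => ⟨?_, hh.2⟩, fun hh => ⟨fun j => ?_, hh.2⟩⟩)
    · have h4 : v.2.1 c = z.1 := congrArg Prod.fst hh.2
      rw [← h4]
      exact hh.1 c
    · by_cases hj : j = c
      · have h4 : v.2.1 c = z.1 := congrArg Prod.fst hh.2
        rw [hj, h4]
        exact hh.1
      · rw [hx.1 j (hIc j hj)]
  have hac : ((D.P h t).cond V).Ac (QX h U t I w0) := J.acX
  have h1 := V3.l1_kl hac (zf U c)
  have h2 := J.kl_le B hcI hL
  have h3 : Real.sqrt (2 * ((D.P h t).cond V).kl (QX h U t I w0) (zf U c)) ≤ Real.sqrt (2 * kI N c L) :=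
    Real.sqrt_le_sqrt (by linarith)
  have h4 : ∀ z ∈ vals (zf (φ := φ) U c), |lw ((D.P h t).cond (VH D t' univ w0 V)) (zf U c) z -
      lw ((D.P h t).cond (VH D t' univ w0 (xc D U t I w0))) (zf U c) z| ≤
      2 ^ Fintype.card K * |lw ((D.P h t).cond V) (zf U c) z - lw (QX h U t I w0) (zf U c) z| := by
    intro z _
    rw [hlw J hq z, hlw Jc hq' z, ← sub_div, ← mul_sub, abs_div, abs_mul, abs_of_pos hθ0, div_le_iff₀ hθ0]
    have n1 := ind_nonneg (D.qb t' z.1 = D.qb t' (w0.2.1 c))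
    have n2 := ind_le_one (D.qb t' z.1 = D.qb t' (w0.2.1 c))
    rw [abs_of_nonneg n1]
    have e1 : (D.P h t).cond (xc D U t I w0) = QX h U t I w0 := rfl
    rw [e1]
    have a0 := abs_nonneg (lw ((D.P h t).cond V) (zf U c) z - lw (QX h U t I w0) (zf U c) z)
    have h5 : (1 : ℝ) ≤ 2 ^ Fintype.card K * θ := by
      rw [div_le_iff₀ (by positivity)] at hθ
      rw [mul_comm]
      exact hθ
    calc ind (D.qb t' z.1 = D.qb t' (w0.2.1 c)) * |lw ((D.P h t).cond V) (zf U c) z - lw (QX h U t I w0) (zf U c) z|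
        ≤ 1 * |lw ((D.P h t).cond V) (zf U c) z - lw (QX h U t I w0) (zf U c) z| := mul_le_mul_of_nonneg_right n2 a0
      _ ≤ (2 ^ Fintype.card K * θ) * |lw ((D.P h t).cond V) (zf U c) z - lw (QX h U t I w0) (zf U c) z| :=
          mul_le_mul_of_nonneg_right h5 a0
      _ = _ := by ring
  refine (Finset.sum_le_sum h4).trans ?_
  rw [← Finset.mul_sum]
  exact mul_le_mul_of_nonneg_left (h1.trans h3) (by positivity)

/-- probability of a property of the letter -/
theorem Pr_lw {Om κ : Type*} [Fintype Om] (P : FP Om) (Z : Om → κ) (G : κ → Prop) :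
    P.Pr (fun w => G (Z w)) = ∑ z ∈ vals Z, ind (G z) * lw P Z z := by
  have h1 := sum_lw P Z (fun z => ind (G z))
  show P.E (fun w => ind (G (Z w))) = _
  rw [← h1]
  exact Finset.sum_congr rfl fun z _ => mul_comm _ _

variable {V1 V2 V3 : Pt K X β φ → Prop}

/-- **THE MISSING LETTER IS NOT STRONG** -/
theorem mis_le (htt : t ≤ t') (hh : ∀ y, ((D.cB t y).card : ℝ) ≤ 2 * (D.cB t' y).card) (B : Bk h N S U t b c d)
    (J1 : Ix h U t I w0 V1) (J2 : Ix h U t I w0 V2) (J3 : Ix h U t I w0 V3) (hIc : ∀ j, j ≠ c → j ∈ I) (hcI : c ∉ I)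
    (h1 : LX h U t I w0 V1 ≤ L) (h2 : LX h U t I w0 V2 ≤ L) (h3 : LX h U t I w0 V3 ≤ L) :
    ((D.P h t).cond (VH D t' univ w0 V3)).Pr (fun w =>
      2 * ((D.P h t).cond (VH D t' univ w0 V2)).m (zf U c) w < ((D.P h t).cond (VH D t' univ w0 V1)).m (zf U c) w) ≤
      6 * (2 ^ Fintype.card K * Real.sqrt (2 * kI N c L)) := by
  have e := Pr_lw ((D.P h t).cond (VH D t' univ w0 V3)) (zf U c) (fun z =>
    2 * lw ((D.P h t).cond (VH D t' univ w0 V2)) (zf U c) z < lw ((D.P h t).cond (VH D t' univ w0 V1)) (zf U c) z)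
  refine le_trans (le_of_eq e) ?_
  exact three_M (vals (zf U c)) (R := fun z => lw ((D.P h t).cond (VH D t' univ w0 (xc D U t I w0))) (zf U c) z)
    (l1_H htt hh B J1 hIc hcI h1) (l1_H htt hh B J2 hIc hcI h2) (l1_H htt hh B J3 hIc hcI h3)

/-- **THE SINGLE LETTER** -/
theorem sgl_le (htt : t ≤ t') (hh : ∀ y, ((D.cB t y).card : ℝ) ≤ 2 * (D.cB t' y).card) (B : Bk h N S U t b c d)
    (J1 : Ix h U t I w0 V1) (J2 : Ix h U t I w0 V2) (J3 : Ix h U t I w0 V3) (hIc : ∀ j, j ≠ c → j ∈ I) (hcI : c ∉ I)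
    (h1 : LX h U t I w0 V1 ≤ L) (h2 : LX h U t I w0 V2 ≤ L) (h3 : LX h U t I w0 V3 ≤ L) {e : ℝ} (he : 0 < e)
    (he1 : e ≤ 1) :
    ((D.P h t).cond (VH D t' univ w0 V3)).Pr (fun w => e ≤ |Real.log
      (((D.P h t).cond (VH D t' univ w0 V1)).m (zf U c) w / ((D.P h t).cond (VH D t' univ w0 V2)).m (zf U c) w)|) ≤
      (2 + 4 / e) * (2 ^ Fintype.card K * Real.sqrt (2 * kI N c L)) := by
  have e0 := Pr_lw ((D.P h t).cond (VH D t' univ w0 V3)) (zf U c) (fun z => e ≤ |Real.log
    (lw ((D.P h t).cond (VH D t' univ w0 V1)) (zf U c) z / lw ((D.P h t).cond (VH D t' univ w0 V2)) (zf U c) z)|)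
  refine le_trans (le_of_eq e0) ?_
  exact three_S (vals (zf U c)) (R := fun z => lw ((D.P h t).cond (VH D t' univ w0 (xc D U t I w0))) (zf U c) z)
    (fun z => lw_nonneg _ _ _) (fun z => lw_nonneg _ _ _) he he1 (l1_H htt hh B J1 hIc hcI h1)
    (l1_H htt hh B J2 hIc hcI h2) (l1_H htt hh B J3 hIc hcI h3)

end cls

end Pool.Agent.GMH.SngA
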