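import Pool.Agent.GMH.Key3Y

/-!
# GMH/SsP: the weak part at a thin strong point (helper79)

`R(f) = prod hwk r_i - 1 - sum xi_i`.  `hot` : `D0 prod q < p`.  Region `RD` : weak tuple, hot, some `1 + e3 < r_i`.
* not hot: `|p - prod q| <= D0 prod q`, Cauchy-Schwarz: `(tv D0 gg_i gg_k)^(1/2)`;
* hot, in `RD`: `R - prod r = 2 - sum r <= 3 (1 - prod r)^+`; hot, all `r_i <= 1 + e3`: `R <= 2 (1 - prod r)^+ + 18 e3`;
  hot with a strong letter: `R <= 2`.
`KT.ss_le` : one table; `ss_point` : the weak part `WKGF` of `GMH/Key3R`.  No hypothesis about pairs or rows.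
-/

set_option autoImplicit false
set_option linter.unusedSectionVars false
set_option linter.unusedVariables false

namespace Pool.Agent.GMH

open Finset Pool.Agent.PWZ Pool.Agent.M3

noncomputable section

/-! ### three numbers -/

theorem R_abs_le {a b c B : ℝ} (hB : 0 ≤ B) (hc : |c| ≤ B) :
    |(1 + a) * (1 + b) * (1 + c) - 1 - (a + b + c)| ≤ (1 + B) * (|a| * |b| + |a| * |c| + |b| * |c|) := by
  have e : (1 + a) * (1 + b) * (1 + c) - 1 - (a + b + c) = a * b + a * c + b * c + a * b * c := by ring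
  rw [e]
  have h1 : |a * b + a * c + b * c + a * b * c| ≤ |a| * |b| + |a| * |c| + |b| * |c| + |a| * |b| * |c| := by
    refine (abs_add_le _ _).trans (add_le_add ((abs_add_le _ _).trans (add_le_add ((abs_add_le _ _).trans
      (add_le_add ?_ ?_)) ?_)) ?_)
    · rw [abs_mul]
    · rw [abs_mul]
    · rw [abs_mul]
    · rw [abs_mul, abs_mul]
  have h2 : |a| * |b| * |c| ≤ |a| * |b| * B := mul_le_mul_of_nonneg_left hc (mul_nonneg (abs_nonneg _) (abs_nonneg _))
  have h3 : 0 ≤ |a| * |c| := mul_nonneg (abs_nonneg _) (abs_nonneg _)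
  have h4 : 0 ≤ |b| * |c| := mul_nonneg (abs_nonneg _) (abs_nonneg _)
  nlinarith [mul_nonneg hB h3, mul_nonneg hB h4]

theorem kill_le1 {x y z : ℝ} (hx : 0 ≤ x) (hy : 0 ≤ y) (hz : 0 ≤ z) : 2 - (x + y + z) ≤ 3 * max (1 - x * y * z) 0 := by
  by_cases h : 2 ≤ x + y + z
  · have := le_max_right (1 - x * y * z) 0
    linarith
  · have h' : x + y + z < 2 := not_le.1 h
    have h1 : x * y ≤ (x + y) ^ 2 / 4 := by nlinarith [sq_nonneg (x - y)]
    have h2 : (x + y) * z ≤ 1 := by nlinarith [sq_nonneg (x + y - z)]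
    have h3 : x * y * z ≤ (x + y) / 4 := by
      have a1 : x * y * z ≤ (x + y) ^ 2 / 4 * z := mul_le_mul_of_nonneg_right h1 hz
      have a2 : (x + y) * ((x + y) * z) ≤ (x + y) * 1 := mul_le_mul_of_nonneg_left h2 (by linarith)
      nlinarith
    have := le_max_left (1 - x * y * z) 0
    linarith

theorem kill_le2 {x y z e : ℝ} (hx : 0 ≤ x) (hy : 0 ≤ y) (hz : 0 ≤ z) (he : 0 ≤ e) (he1 : e ≤ 1) (hx1 : x ≤ 1 + e)
    (hy1 : y ≤ 1 + e) (hz1 : z ≤ 1 + e) : x * y * z + 2 - (x + y + z) ≤ 2 * max (1 - x * y * z) 0 + 18 * e := by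
  have hs : (1 + e) * (1 + e) ≤ 1 + 3 * e := by nlinarith
  have k : ∀ a b c : ℝ, 0 ≤ a → 0 ≤ b → 0 ≤ c → b ≤ 1 + e → c ≤ 1 + e → a * b * c ≤ a + 3 * e * a := by
    intro a b c ha hb hc hb1 hc1
    have h1 : b * c ≤ (1 + e) * (1 + e) := mul_le_mul hb1 hc1 hc (by linarith)
    have h2 : a * (b * c) ≤ a * (1 + 3 * e) := mul_le_mul_of_nonneg_left (h1.trans hs) ha
    nlinarith
  have k1 := k x y z hx hy hz hy1 hz1
  have k2 := k y x z hy hx hz hx1 hz1
  have k3 := k z x y hz hx hy hx1 hy1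
  have e2 : y * x * z = x * y * z := by ring
  have e3 : z * x * y = x * y * z := by ring
  rw [e2] at k2
  rw [e3] at k3
  have h5 : e * x ≤ e * 2 := mul_le_mul_of_nonneg_left (by linarith) he
  have h6 : e * y ≤ e * 2 := mul_le_mul_of_nonneg_left (by linarith) he
  have h7 : e * z ≤ e * 2 := mul_le_mul_of_nonneg_left (by linarith) he
  have := le_max_left (1 - x * y * z) 0
  nlinarith

namespace KT

variable {φ : Type*} {S : Fin 3 → Finset φ} (t : KT S)

/-- hot tuple -/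
def hot (D0 : ℝ) (f : Fin 3 → φ) : Prop := D0 * t.pq f < t.p f

/-- distance of the law of the tops from the product of the own laws -/
def tv : ℝ := ∑ f ∈ Fintype.piFinset S, |t.p f - t.pq f|

/-- second moment of the weak ratio -/
def gg (B : ℝ) (i : Fin 3) : ℝ := ∑ x ∈ S i, t.q i x * t.xi B i x ^ 2

/-- region of the thin strong points: weak, hot, a rising letter -/
def RD (B e3 D0 : ℝ) (f : Fin 3 → φ) : Prop := (∀ i, t.r i (f i) ≤ B) ∧ (∃ i, 1 + e3 < t.r i (f i)) ∧ t.hot D0 f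

/-- kills of the weak hot tuples -/
def KH (B D0 : ℝ) : ℝ := ∑ f ∈ Fintype.piFinset S, ind ((∀ i, t.r i (f i) ≤ B) ∧ t.hot D0 f) *
  (t.p f * max (1 - ∏ i, t.r i (f i)) 0)

/-- mass of the hot tuples -/
def MH (D0 : ℝ) : ℝ := ∑ f ∈ Fintype.piFinset S, ind (t.hot D0 f) * t.p f

theorem gg_nn (B : ℝ) (i : Fin 3) : 0 ≤ t.gg B i := Finset.sum_nonneg fun x hx => mul_nonneg (t.q_nn i x hx) (sq_nonneg _)

theorem tv_nn : 0 ≤ t.tv := Finset.sum_nonneg fun _ _ => abs_nonneg _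

theorem KH_nn (B D0 : ℝ) : 0 ≤ t.KH B D0 := Finset.sum_nonneg fun f hf => mul_nonneg (ind_nonneg _)
  (mul_nonneg (t.p_nn f hf) (le_max_right _ _))

theorem MH_nn (D0 : ℝ) : 0 ≤ t.MH D0 := Finset.sum_nonneg fun f hf => mul_nonneg (ind_nonneg _) (t.p_nn f hf)

/-- second moments of two tops -/
theorem sum_two_sq {i k : Fin 3} (hik : i ≠ k) (B : ℝ) : ∑ f ∈ Fintype.piFinset S, t.pq f * (t.xi B i (f i) ^ 2 *
    t.xi B k (f k) ^ 2) = t.gg B i * t.gg B k := by
  classical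
  have h := sum_prod_at S i (fun x => t.q i x * t.xi B i x ^ 2)
    (fun j y => if j = k then t.q j y * t.xi B j y ^ 2 else t.q j y)
  have e1 : ∏ j ∈ univ.erase i, ∑ y ∈ S j, (if j = k then t.q j y * t.xi B j y ^ 2 else t.q j y) = t.gg B k := by
    rw [← Finset.mul_prod_erase (univ.erase i) _ (Finset.mem_erase.2 ⟨hik.symm, mem_univ k⟩)]
    have e2 : ∏ j ∈ (univ.erase i).erase k, ∑ y ∈ S j, (if j = k then t.q j y * t.xi B j y ^ 2 else t.q j y) = 1 := by
      refine Finset.prod_eq_one fun j hj => ?_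
      have hjk := Finset.ne_of_mem_erase hj
      simp only [if_neg hjk]
      exact t.q_one j
    rw [e2, mul_one]
    unfold gg
    simp only [if_true]
  rw [e1] at h
  have e3 : ∑ x ∈ S i, t.q i x * t.xi B i x ^ 2 = t.gg B i := rfl
  rw [e3] at h
  rw [← h]
  refine Finset.sum_congr rfl fun f _ => ?_
  have e4 : ∏ j ∈ univ.erase i, (if j = k then t.q j (f j) * t.xi B j (f j) ^ 2 else t.q j (f j)) =
      (∏ j ∈ univ.erase i, t.q j (f j)) * t.xi B k (f k) ^ 2 := by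
    rw [← Finset.mul_prod_erase (univ.erase i) _ (Finset.mem_erase.2 ⟨hik.symm, mem_univ k⟩),
      ← Finset.mul_prod_erase (univ.erase i) (fun j => t.q j (f j)) (Finset.mem_erase.2 ⟨hik.symm, mem_univ k⟩), if_pos rfl]
    have e5 : ∏ j ∈ (univ.erase i).erase k, (if j = k then t.q j (f j) * t.xi B j (f j) ^ 2 else t.q j (f j)) =
        ∏ j ∈ (univ.erase i).erase k, t.q j (f j) :=
      Finset.prod_congr rfl fun j hj => by rw [if_neg (Finset.ne_of_mem_erase hj)]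
    rw [e5]
    ring
  rw [e4]
  unfold pq
  rw [← Finset.mul_prod_erase univ (fun j => t.q j (f j)) (mem_univ i)]
  ring

/-- **NOT HOT**, Cauchy-Schwarz -/
theorem cs_two {i k : Fin 3} (hik : i ≠ k) (B : ℝ) {D0 : ℝ} (hD : 1 ≤ D0) :
    ∑ f ∈ Fintype.piFinset S, ind (¬ t.hot D0 f) * (|t.p f - t.pq f| * (|t.xi B i (f i)| * |t.xi B k (f k)|)) ≤
      Real.sqrt (t.tv * D0 * (t.gg B i * t.gg B k)) := by
  have hnh : ∀ f ∈ Fintype.piFinset S, ¬ t.hot D0 f → |t.p f - t.pq f| ≤ D0 * t.pq f := by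
    intro f hf hh
    have h1 : t.p f ≤ D0 * t.pq f := not_lt.1 hh
    have h2 := t.pq_nn hf
    have h3 := t.p_nn f hf
    have h4 : t.pq f ≤ D0 * t.pq f := le_mul_of_one_le_left h2 hD
    rw [abs_le]
    constructor <;> linarith
  have c := Finset.sum_mul_sq_le_sq_mul_sq (Fintype.piFinset S) (fun f => Real.sqrt |t.p f - t.pq f|)
    (fun f => ind (¬ t.hot D0 f) * (Real.sqrt |t.p f - t.pq f| * (|t.xi B i (f i)| * |t.xi B k (f k)|)))
  have e1 : ∑ f ∈ Fintype.piFinset S, Real.sqrt |t.p f - t.pq f| * (ind (¬ t.hot D0 f) * (Real.sqrt |t.p f - t.pq f| *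
      (|t.xi B i (f i)| * |t.xi B k (f k)|))) =
      ∑ f ∈ Fintype.piFinset S, ind (¬ t.hot D0 f) * (|t.p f - t.pq f| * (|t.xi B i (f i)| * |t.xi B k (f k)|)) := by
    refine Finset.sum_congr rfl fun f _ => ?_
    have := Real.mul_self_sqrt (abs_nonneg (t.p f - t.pq f))
    calc _ = ind (¬ t.hot D0 f) * ((Real.sqrt |t.p f - t.pq f| * Real.sqrt |t.p f - t.pq f|) *
        (|t.xi B i (f i)| * |t.xi B k (f k)|)) := by ring
      _ = _ := by rw [this]
  have e2 : ∑ f ∈ Fintype.piFinset S, Real.sqrt |t.p f - t.pq f| ^ 2 = t.tv :=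
    Finset.sum_congr rfl fun f _ => Real.sq_sqrt (abs_nonneg _)
  have e3 : ∑ f ∈ Fintype.piFinset S, (ind (¬ t.hot D0 f) * (Real.sqrt |t.p f - t.pq f| *
      (|t.xi B i (f i)| * |t.xi B k (f k)|))) ^ 2 ≤ D0 * (t.gg B i * t.gg B k) := by
    rw [← t.sum_two_sq hik B, Finset.mul_sum]
    refine Finset.sum_le_sum fun f hf => ?_
    have h1 : (ind (¬ t.hot D0 f) * (Real.sqrt |t.p f - t.pq f| * (|t.xi B i (f i)| * |t.xi B k (f k)|))) ^ 2 =
        ind (¬ t.hot D0 f) ^ 2 * (Real.sqrt |t.p f - t.pq f| ^ 2 * (|t.xi B i (f i)| ^ 2 * |t.xi B k (f k)| ^ 2)) := by ring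
    rw [h1, Real.sq_sqrt (abs_nonneg _), sq_abs, sq_abs]
    have h2 : 0 ≤ t.xi B i (f i) ^ 2 * t.xi B k (f k) ^ 2 := mul_nonneg (sq_nonneg _) (sq_nonneg _)
    by_cases hh : t.hot D0 f
    · rw [ind_not (not_not.2 hh)]
      have := t.pq_nn hf
      have : 0 ≤ D0 * (t.pq f * (t.xi B i (f i) ^ 2 * t.xi B k (f k) ^ 2)) := by positivity
      simpa using this
    · rw [ind_of hh]
      have h3 := mul_le_mul_of_nonneg_right (hnh f hf hh) h2
      linarith
  rw [e1, e2] at c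
  refine Real.le_sqrt_of_sq_le (c.trans ?_)
  have := mul_le_mul_of_nonneg_left e3 t.tv_nn
  linarith

variable {B e3 D0 eta a0 : ℝ} {Reg : (Fin 3 → φ) → Prop} {G a : (Fin 3 → φ) → ℝ}

/-- one hot tuple -/
theorem hot_term (hB : 1 ≤ B) (he3 : 0 ≤ e3) (he31 : e3 ≤ 1) {f : Fin 3 → φ} (hf : f ∈ Fintype.piFinset S)
    (hh : t.hot D0 f) :
    max ((∏ i, hwk B (t.r i (f i))) - 1 - ∑ i, t.xi B i (f i) - ind (t.RD B e3 D0 f) * ∏ i, t.r i (f i)) 0 ≤
      ind (∀ i, t.r i (f i) ≤ B) * (3 * max (1 - ∏ i, t.r i (f i)) 0 + 18 * e3) +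
        2 * ∑ i, ind (B < t.r i (f i)) := by
  have hr : ∀ i, 0 ≤ t.r i (f i) := fun i => t.r_nn (Fintype.mem_piFinset.1 hf i)
  have hm0 := le_max_right (1 - ∏ i, t.r i (f i)) 0
  have hs0 : 0 ≤ 2 * ∑ i, ind (B < t.r i (f i)) := mul_nonneg (by norm_num) (Finset.sum_nonneg fun _ _ => ind_nonneg _)
  by_cases hw : ∀ i, t.r i (f i) ≤ B
  · have hk : ∀ i, hwk B (t.r i (f i)) = t.r i (f i) := by
      intro i
      unfold hwk
      rw [ind_of (not_lt.2 (hw i)), one_mul]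
    have hx : ∀ i, t.xi B i (f i) = t.r i (f i) - 1 := fun i => by unfold xi; rw [hk]
    have hP1 : (∏ i, hwk B (t.r i (f i))) = ∏ i, t.r i (f i) := Finset.prod_congr rfl fun i _ => hk i
    have hP : ∏ i, t.r i (f i) = t.r 0 (f 0) * t.r 1 (f 1) * t.r 2 (f 2) := Fin.prod_univ_three _
    have hS : ∑ i, t.xi B i (f i) = (t.r 0 (f 0) + t.r 1 (f 1) + t.r 2 (f 2)) - 3 := by
      rw [Fin.sum_univ_three, hx, hx, hx]
      ring
    rw [ind_of hw, one_mul, hP1, hS, hP]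
    rw [hP] at hm0
    refine max_le ?_ (by linarith)
    by_cases hD : t.RD B e3 D0 f
    · rw [ind_of hD]
      have := kill_le1 (hr 0) (hr 1) (hr 2)
      linarith
    · rw [ind_not hD]
      have h1 : ∀ i, t.r i (f i) ≤ 1 + e3 := by
        intro i
        by_contra hc
        exact hD ⟨hw, ⟨i, not_le.1 hc⟩, hh⟩
      have := kill_le2 (hr 0) (hr 1) (hr 2) he3 he31 (h1 0) (h1 1) (h1 2)
      linarith
  · have hD : ¬ t.RD B e3 D0 f := fun h => hw h.1
    rw [ind_not hD, ind_not hw, zero_mul, zero_mul, sub_zero, zero_add]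
    push Not at hw
    obtain ⟨i, hi⟩ := hw
    rw [t.prod_hwk_strong ⟨i, hi⟩]
    have h1 : (1 : ℝ) ≤ ∑ i, ind (B < t.r i (f i)) := by
      have := Finset.single_le_sum (f := fun i => ind (B < t.r i (f i))) (fun j _ => ind_nonneg _) (mem_univ i)
      rw [ind_of hi] at this
      exact this
    have h2 : -∑ i, t.xi B i (f i) ≤ 3 := by
      have h3 : ∀ i, -1 ≤ t.xi B i (f i) := fun i => by
        unfold xi
        have := hwk_nonneg (B := B) (hr i)
        linarith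
      rw [Fin.sum_univ_three]
      linarith [h3 0, h3 1, h3 2]
    refine max_le ?_ (by linarith)
    linarith

/-- **THE WEAK PART AT A THIN STRONG POINT** -/
theorem ss_le (hB : 1 ≤ B) (he3 : 0 ≤ e3) (he31 : e3 ≤ 1) (hD : 1 ≤ D0) (ha0 : 0 ≤ a0)
    (hG : ∀ F ∈ Fintype.piFinset S, ¬ Reg F → G F = t.p F / t.pq F) (hGR : ∀ F ∈ Fintype.piFinset S, Reg F → G F ≤ 1)
    (hReg : ∀ F ∈ Fintype.piFinset S, (¬ ∃ i, B < t.r i (F i)) → (Reg F ↔ t.RD B e3 D0 F))
    (hap : ∀ F, 0 ≤ a F) (ha : ∀ F ∈ Fintype.piFinset S, (¬ ∃ i, B < t.r i (F i)) → ¬ Reg F → a F = a0) :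
    ∑ F ∈ Fintype.piFinset S, ind (¬ ∃ i, B < t.r i (F i)) * ((∏ i, t.q' i (F i)) * (a F * (G F - 1))) ≤
      a0 * (∑ i, t.ph B i + (1 + B) * (Real.sqrt (t.tv * D0 * (t.gg B 0 * t.gg B 1)) +
        Real.sqrt (t.tv * D0 * (t.gg B 0 * t.gg B 2)) + Real.sqrt (t.tv * D0 * (t.gg B 1 * t.gg B 2))) +
        3 * t.KH B D0 + 18 * e3 * t.MH D0 + 2 * ∑ i, ∑ x ∈ S i, t.mg i x * ind (B < t.r i x)) := by
  have hB0 : (0 : ℝ) ≤ B := by linarith
  -- one tuple
  have s1 : ∀ f ∈ Fintype.piFinset S, ind (¬ ∃ i, B < t.r i (f i)) * ((∏ i, t.q' i (f i)) * (a f * (G f - 1))) ≤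
      a0 * ((t.p f - t.pq f) * ((∏ i, hwk B (t.r i (f i))) - ind (t.RD B e3 D0 f) * ∏ i, t.r i (f i))) := by
    intro f hf
    by_cases hs : ∃ i, B < t.r i (f i)
    · have hD' : ¬ t.RD B e3 D0 f := fun h => by
        obtain ⟨i, hi⟩ := hs
        exact absurd (h.1 i) (not_le.2 hi)
      rw [ind_not (not_not.2 hs), t.prod_hwk_strong hs, ind_not hD']
      simp
    · rw [ind_of hs, t.prod_hwk_weak hs, one_mul]
      by_cases hR : Reg f
      · rw [ind_of ((hReg f hf hs).1 hR), one_mul, sub_self, mul_zero, mul_zero]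
        have h1 : 0 ≤ ∏ i, t.q' i (f i) := t.pq'_nn hf
        exact mul_nonpos_of_nonneg_of_nonpos h1 (mul_nonpos_of_nonneg_of_nonpos (hap f) (by
          have := hGR f hf hR
          linarith))
      · rw [ind_not (fun h => hR ((hReg f hf hs).2 h)), zero_mul, sub_zero, ha f hf hs hR]
        have h1 := t.term_off hf (hG f hf hR)
        calc (∏ i, t.q' i (f i)) * (a0 * (G f - 1)) = a0 * ((∏ i, t.q' i (f i)) * (G f - 1)) := by ring
          _ = a0 * ((∏ i, t.r i (f i)) * (t.p f - t.pq f)) := by rw [h1]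
          _ ≤ _ := le_of_eq (by ring)
  refine (Finset.sum_le_sum s1).trans ?_
  rw [← Finset.mul_sum]
  refine mul_le_mul_of_nonneg_left ?_ ha0
  -- expansion
  set R : (Fin 3 → φ) → ℝ := fun f => (∏ i, hwk B (t.r i (f i))) - 1 - ∑ i, t.xi B i (f i) with hRdef
  have e0 : ∑ f ∈ Fintype.piFinset S, (t.p f - t.pq f) = 0 := by
    rw [Finset.sum_sub_distrib, t.p_one]
    have h := t.sum_q_one (0 : Fin 3) (fun _ => (1 : ℝ))
    simp only [mul_one] at h
    rw [h, t.q_one 0, sub_self]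
  have e1 : ∀ i, ∑ f ∈ Fintype.piFinset S, (t.p f - t.pq f) * t.xi B i (f i) = t.ph B i := by
    intro i
    have h1 := t.sum_mg i (fun x => t.xi B i x)
    have h2 := t.sum_q_one i (fun x => t.xi B i x)
    unfold ph
    simp only [sub_mul]
    rw [Finset.sum_sub_distrib, h1, h2, Finset.sum_sub_distrib]
  have e2 : ∑ f ∈ Fintype.piFinset S, (t.p f - t.pq f) * ((∏ i, hwk B (t.r i (f i))) -
      ind (t.RD B e3 D0 f) * ∏ i, t.r i (f i)) = ∑ i, t.ph B i + ∑ f ∈ Fintype.piFinset S, (t.p f - t.pq f) *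
        (R f - ind (t.RD B e3 D0 f) * ∏ i, t.r i (f i)) := by
    have h1 : ∀ f, (t.p f - t.pq f) * ((∏ i, hwk B (t.r i (f i))) - ind (t.RD B e3 D0 f) * ∏ i, t.r i (f i)) =
        (t.p f - t.pq f) + ∑ i, (t.p f - t.pq f) * t.xi B i (f i) + (t.p f - t.pq f) *
        (R f - ind (t.RD B e3 D0 f) * ∏ i, t.r i (f i)) := by
      intro f
      simp only [hRdef]
      rw [← Finset.mul_sum]
      ring
    simp only [h1]
    rw [Finset.sum_add_distrib, Finset.sum_add_distrib, e0, zero_add, Finset.sum_comm]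
    simp only [e1]
  rw [e2]
  -- the two parts
  have s2 : ∀ f ∈ Fintype.piFinset S, (t.p f - t.pq f) * (R f - ind (t.RD B e3 D0 f) * ∏ i, t.r i (f i)) ≤
      (1 + B) * (ind (¬ t.hot D0 f) * (|t.p f - t.pq f| * (|t.xi B 0 (f 0)| * |t.xi B 1 (f 1)|)) +
        ind (¬ t.hot D0 f) * (|t.p f - t.pq f| * (|t.xi B 0 (f 0)| * |t.xi B 2 (f 2)|)) +
        ind (¬ t.hot D0 f) * (|t.p f - t.pq f| * (|t.xi B 1 (f 1)| * |t.xi B 2 (f 2)|))) +
      (3 * (ind ((∀ i, t.r i (f i) ≤ B) ∧ t.hot D0 f) * (t.p f * max (1 - ∏ i, t.r i (f i)) 0)) +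
        18 * e3 * (ind (t.hot D0 f) * t.p f) + 2 * ∑ i, t.p f * ind (B < t.r i (f i))) := by
    intro f hf
    have hp := t.p_nn f hf
    have hq := t.pq_nn hf
    have hm0 := le_max_right (1 - ∏ i, t.r i (f i)) 0
    have n3 : 0 ≤ 2 * ∑ i, t.p f * ind (B < t.r i (f i)) := mul_nonneg (by norm_num)
      (Finset.sum_nonneg fun _ _ => mul_nonneg hp (ind_nonneg _))
    by_cases hh : t.hot D0 f
    · rw [ind_not (not_not.2 hh)]
      have h1 := t.hot_term hB he3 he31 hf hh (D0 := D0)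
      have h2 : t.p f - t.pq f ≤ t.p f := by linarith
      have h3 : 0 ≤ t.p f - t.pq f := by
        have : D0 * t.pq f < t.p f := hh
        have := le_mul_of_one_le_left hq hD
        linarith
      have h4 : (t.p f - t.pq f) * (R f - ind (t.RD B e3 D0 f) * ∏ i, t.r i (f i)) ≤
          t.p f * max (R f - ind (t.RD B e3 D0 f) * ∏ i, t.r i (f i)) 0 :=
        (mul_le_mul_of_nonneg_left (le_max_left _ _) h3).trans (mul_le_mul_of_nonneg_right h2 (le_max_right _ _))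
      have h5 := mul_le_mul_of_nonneg_left h1 hp
      have h6 : ind ((∀ i, t.r i (f i) ≤ B) ∧ t.hot D0 f) = ind (∀ i, t.r i (f i) ≤ B) := by
        congr 1
        exact propext ⟨fun h => h.1, fun h => ⟨h, hh⟩⟩
      rw [h6, ind_of hh, ← Finset.mul_sum]
      have h7 : ind (∀ i, t.r i (f i) ≤ B) * (18 * e3 * t.p f) ≤ 18 * e3 * t.p f :=
        mul_le_of_le_one_left (by positivity) (ind_le_one _)
      simp only [zero_mul, add_zero, mul_zero, zero_add, one_mul]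
      have h8 : t.p f * (ind (∀ i, t.r i (f i) ≤ B) * (3 * max (1 - ∏ i, t.r i (f i)) 0 + 18 * e3) +
          2 * ∑ i, ind (B < t.r i (f i))) = 3 * (ind (∀ i, t.r i (f i) ≤ B) * (t.p f * max (1 - ∏ i, t.r i (f i)) 0)) +
          ind (∀ i, t.r i (f i) ≤ B) * (18 * e3 * t.p f) + 2 * (t.p f * ∑ i, ind (B < t.r i (f i))) := by ring
      rw [h8] at h5
      linarith
    · have hD' : ¬ t.RD B e3 D0 f := fun h => hh h.2.2
      rw [ind_of hh, ind_not hD', ind_not (fun h : (∀ i, t.r i (f i) ≤ B) ∧ t.hot D0 f => hh h.2), ind_not hh]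
      simp only [zero_mul, sub_zero, mul_zero, zero_add, one_mul, add_zero]
      have h1 : |R f| ≤ (1 + B) * (|t.xi B 0 (f 0)| * |t.xi B 1 (f 1)| + |t.xi B 0 (f 0)| * |t.xi B 2 (f 2)| +
          |t.xi B 1 (f 1)| * |t.xi B 2 (f 2)|) := by
        have h2 := R_abs_le (a := t.xi B 0 (f 0)) (b := t.xi B 1 (f 1)) hB0
          (t.abs_xi_le hB (Fintype.mem_piFinset.1 hf 2))
        have h3 : R f = (1 + t.xi B 0 (f 0)) * (1 + t.xi B 1 (f 1)) * (1 + t.xi B 2 (f 2)) - 1 -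
            (t.xi B 0 (f 0) + t.xi B 1 (f 1) + t.xi B 2 (f 2)) := by
          simp only [hRdef]
          rw [Fin.prod_univ_three, Fin.sum_univ_three]
          unfold xi
          ring
        rw [h3]
        exact h2
      have h4 : (t.p f - t.pq f) * R f ≤ |t.p f - t.pq f| * |R f| := (le_abs_self _).trans (le_of_eq (abs_mul _ _))
      have h5 := mul_le_mul_of_nonneg_left h1 (abs_nonneg (t.p f - t.pq f))
      have h6 : |t.p f - t.pq f| * ((1 + B) * (|t.xi B 0 (f 0)| * |t.xi B 1 (f 1)| + |t.xi B 0 (f 0)| * |t.xi B 2 (f 2)| +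
          |t.xi B 1 (f 1)| * |t.xi B 2 (f 2)|)) = (1 + B) * (|t.p f - t.pq f| * (|t.xi B 0 (f 0)| * |t.xi B 1 (f 1)|) +
          |t.p f - t.pq f| * (|t.xi B 0 (f 0)| * |t.xi B 2 (f 2)|) +
          |t.p f - t.pq f| * (|t.xi B 1 (f 1)| * |t.xi B 2 (f 2)|)) := by ring
      rw [h6] at h5
      linarith
  have s3 := Finset.sum_le_sum s2
  have c01 := t.cs_two (show (0 : Fin 3) ≠ 1 by decide) B hD
  have c02 := t.cs_two (show (0 : Fin 3) ≠ 2 by decide) B hD
  have c12 := t.cs_two (show (1 : Fin 3) ≠ 2 by decide) B hD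
  have e5 : ∑ f ∈ Fintype.piFinset S, ∑ i, t.p f * ind (B < t.r i (f i)) = ∑ i, ∑ x ∈ S i, t.mg i x * ind (B < t.r i x) := by
    rw [Finset.sum_comm]
    exact Finset.sum_congr rfl fun i _ => t.sum_mg i (fun x => ind (B < t.r i x))
  rw [Finset.sum_add_distrib, ← Finset.mul_sum, Finset.sum_add_distrib, Finset.sum_add_distrib, Finset.sum_add_distrib,
    Finset.sum_add_distrib, ← Finset.mul_sum, ← Finset.mul_sum, ← Finset.mul_sum, e5] at s3
  have s4 := mul_le_mul_of_nonneg_left (add_le_add (add_le_add c01 c02) c12) (show 0 ≤ 1 + B by linarith)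
  unfold KH MH
  linarith

end KT

end

end Pool.Agent.GMH
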