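import Pool.Agent.GMH.SsP

/-!
# GMH/SsP2: the weak part at any point by superhot pairs (helper79)

`E` = threshold of the superhot pairs `E q_i q_k < m_ik`.  No hypothesis on rows, pairs or thin letters:
`WK <= sum ph_i + (1 + B) sum_(i<k) ((tv ((E + 1) (gg_i gg_k)))^(1/2) + 2 PH_ik)`.
* `KT.cs_pair`, `KT.wk_pair` : one table;
* `TVp`, `GGF`, `PHF`, `wkg_pair` : the weak part `WKGF` of `GMH/Key3R` at a point, release weight constant on weak tuples.
-/

set_option autoImplicit false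
set_option linter.unusedSectionVars false
set_option linter.unusedVariables false

namespace Pool.Agent.GMH

open Finset Pool.Agent.PWZ Pool.Agent.M3

noncomputable section

namespace KT

variable {φ : Type*} {S : Fin 3 → Finset φ} (t : KT S)

theorem sum_fib2 (i k : Fin 3) (f : (Fin 3 → φ) → ℝ) (A : φ → φ → ℝ) :
    ∑ F ∈ Fintype.piFinset S, f F * A (F i) (F k) =
      ∑ x ∈ S i, ∑ y ∈ S k, (∑ F ∈ Fintype.piFinset S, ind (F i = x ∧ F k = y) * f F) * A x y := by
  classical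
  have h1 : ∀ F ∈ Fintype.piFinset S, f F * A (F i) (F k) =
      ∑ x ∈ S i, ∑ y ∈ S k, (ind (F i = x ∧ F k = y) * f F) * A x y := by
    intro F hF
    have hm := Fintype.mem_piFinset.1 hF
    rw [Finset.sum_eq_single (F i)]
    · rw [Finset.sum_eq_single (F k)]
      · rw [ind_of ⟨rfl, rfl⟩, one_mul]
      · intro y _ hy
        rw [ind_not (fun hh => hy hh.2.symm), zero_mul, zero_mul]
      · intro hh; exact absurd (hm k) hh
    · intro x _ hx
      refine Finset.sum_eq_zero fun y _ => ?_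
      rw [ind_not (fun hh => hx hh.1.symm), zero_mul, zero_mul]
    · intro hh; exact absurd (hm i) hh
  rw [Finset.sum_congr rfl h1, Finset.sum_comm]
  refine Finset.sum_congr rfl fun x _ => ?_
  rw [Finset.sum_comm]
  refine Finset.sum_congr rfl fun y _ => ?_
  rw [Finset.sum_mul]

theorem pq_at {i k : Fin 3} (hik : i ≠ k) {x y : φ} (hx : x ∈ S i) (hy : y ∈ S k) :
    ∑ F ∈ Fintype.piFinset S, ind (F i = x ∧ F k = y) * t.pq F = t.q i x * t.q k y := by
  classical
  have h := t.sum_pq_two hik (fun z => ind (z = x)) (fun z => ind (z = y))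
  have e1 : ∑ z ∈ S i, t.q i z * ind (z = x) = t.q i x := by
    rw [Finset.sum_eq_single x]
    · rw [ind_of rfl, mul_one]
    · intro z _ hz
      rw [ind_not hz, mul_zero]
    · intro hh; exact absurd hx hh
  have e2 : ∑ z ∈ S k, t.q k z * ind (z = y) = t.q k y := by
    rw [Finset.sum_eq_single y]
    · rw [ind_of rfl, mul_one]
    · intro z _ hz
      rw [ind_not hz, mul_zero]
    · intro hh; exact absurd hy hh
  rw [e1, e2] at h
  rw [← h]
  refine Finset.sum_congr rfl fun F _ => ?_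
  rw [← ind_and]
  ring

theorem sum_pq_fib {i k : Fin 3} (hik : i ≠ k) (A : φ → φ → ℝ) :
    ∑ F ∈ Fintype.piFinset S, t.pq F * A (F i) (F k) = ∑ x ∈ S i, ∑ y ∈ S k, t.q i x * t.q k y * A x y := by
  rw [sum_fib2 i k t.pq A]
  exact Finset.sum_congr rfl fun x hx => Finset.sum_congr rfl fun y hy => by rw [t.pq_at hik hx hy]

theorem sum_p_fib (i k : Fin 3) (A : φ → φ → ℝ) :
    ∑ F ∈ Fintype.piFinset S, t.p F * A (F i) (F k) = ∑ x ∈ S i, ∑ y ∈ S k, t.mg2 i k x y * A x y :=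
  sum_fib2 i k t.p A

/-- superhot pair -/
def shp (E : ℝ) (i k : Fin 3) (x y : φ) : Prop := E * (t.q i x * t.q k y) < t.mg2 i k x y

/-- weight of the superhot pairs -/
def PH (B E : ℝ) (i k : Fin 3) : ℝ :=
  ∑ x ∈ S i, ∑ y ∈ S k, t.mg2 i k x y * (ind (t.shp E i k x y) * (|t.xi B i x| * |t.xi B k y|))

theorem PH_nn (B E : ℝ) (i k : Fin 3) : 0 ≤ t.PH B E i k := Finset.sum_nonneg fun x _ => Finset.sum_nonneg fun y _ =>
  mul_nonneg (t.mg2_nn i k x y) (mul_nonneg (ind_nonneg _) (mul_nonneg (abs_nonneg _) (abs_nonneg _)))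

theorem abs_diff_le {f : Fin 3 → φ} (hf : f ∈ Fintype.piFinset S) : |t.p f - t.pq f| ≤ t.p f + t.pq f := by
  have h1 := t.p_nn f hf
  have h2 := t.pq_nn hf
  rw [abs_le]
  constructor <;> linarith

/-- **ONE PAIR OF TOPS** -/
theorem cs_pair {i k : Fin 3} (hik : i ≠ k) (B : ℝ) {E : ℝ} (hE : 1 ≤ E) :
    ∑ f ∈ Fintype.piFinset S, |t.p f - t.pq f| * (|t.xi B i (f i)| * |t.xi B k (f k)|) ≤
      Real.sqrt (t.tv * ((E + 1) * (t.gg B i * t.gg B k))) + 2 * t.PH B E i k := by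
  -- split
  have e0 : ∑ f ∈ Fintype.piFinset S, |t.p f - t.pq f| * (|t.xi B i (f i)| * |t.xi B k (f k)|) =
      ∑ f ∈ Fintype.piFinset S, |t.p f - t.pq f| * (ind (¬ t.shp E i k (f i) (f k)) * (|t.xi B i (f i)| * |t.xi B k (f k)|)) +
      ∑ f ∈ Fintype.piFinset S, |t.p f - t.pq f| * (ind (t.shp E i k (f i) (f k)) * (|t.xi B i (f i)| * |t.xi B k (f k)|)) := by
    rw [← Finset.sum_add_distrib]
    refine Finset.sum_congr rfl fun f _ => ?_
    by_cases hh : t.shp E i k (f i) (f k)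
    · rw [ind_of hh, ind_not (not_not.2 hh)]; ring
    · rw [ind_not hh, ind_of hh]; ring
  rw [e0]
  refine add_le_add ?_ ?_
  · -- Cauchy-Schwarz
    have c := Finset.sum_mul_sq_le_sq_mul_sq (Fintype.piFinset S) (fun f => Real.sqrt |t.p f - t.pq f|)
      (fun f => Real.sqrt |t.p f - t.pq f| * (ind (¬ t.shp E i k (f i) (f k)) * (|t.xi B i (f i)| * |t.xi B k (f k)|)))
    have e1 : ∑ f ∈ Fintype.piFinset S, Real.sqrt |t.p f - t.pq f| * (Real.sqrt |t.p f - t.pq f| *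
        (ind (¬ t.shp E i k (f i) (f k)) * (|t.xi B i (f i)| * |t.xi B k (f k)|))) =
        ∑ f ∈ Fintype.piFinset S, |t.p f - t.pq f| * (ind (¬ t.shp E i k (f i) (f k)) *
          (|t.xi B i (f i)| * |t.xi B k (f k)|)) := by
      refine Finset.sum_congr rfl fun f _ => ?_
      rw [← mul_assoc, Real.mul_self_sqrt (abs_nonneg _)]
    have e2 : ∑ f ∈ Fintype.piFinset S, Real.sqrt |t.p f - t.pq f| ^ 2 = t.tv :=
      Finset.sum_congr rfl fun f _ => Real.sq_sqrt (abs_nonneg _)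
    have e3 : ∑ f ∈ Fintype.piFinset S, (Real.sqrt |t.p f - t.pq f| * (ind (¬ t.shp E i k (f i) (f k)) *
        (|t.xi B i (f i)| * |t.xi B k (f k)|))) ^ 2 ≤ (E + 1) * (t.gg B i * t.gg B k) := by
      have s1 : ∀ f ∈ Fintype.piFinset S, (Real.sqrt |t.p f - t.pq f| * (ind (¬ t.shp E i k (f i) (f k)) *
          (|t.xi B i (f i)| * |t.xi B k (f k)|))) ^ 2 ≤ (t.p f + t.pq f) * (ind (¬ t.shp E i k (f i) (f k)) *
            (t.xi B i (f i) ^ 2 * t.xi B k (f k) ^ 2)) := by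
        intro f hf
        have h1 : (Real.sqrt |t.p f - t.pq f| * (ind (¬ t.shp E i k (f i) (f k)) *
          (|t.xi B i (f i)| * |t.xi B k (f k)|))) ^ 2 = Real.sqrt |t.p f - t.pq f| ^ 2 *
            (ind (¬ t.shp E i k (f i) (f k)) ^ 2 * (|t.xi B i (f i)| ^ 2 * |t.xi B k (f k)| ^ 2)) := by ring
        have h2 : ind (¬ t.shp E i k (f i) (f k)) ^ 2 = ind (¬ t.shp E i k (f i) (f k)) := by
          by_cases hh : t.shp E i k (f i) (f k)
          · rw [ind_not (not_not.2 hh)]; ring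
          · rw [ind_of hh]; ring
        rw [h1, Real.sq_sqrt (abs_nonneg _), sq_abs, sq_abs, h2]
        exact mul_le_mul_of_nonneg_right (t.abs_diff_le hf) (mul_nonneg (ind_nonneg _)
          (mul_nonneg (sq_nonneg _) (sq_nonneg _)))
      refine (Finset.sum_le_sum s1).trans ?_
      simp only [add_mul]
      rw [Finset.sum_add_distrib, t.sum_p_fib i k (fun x y => ind (¬ t.shp E i k x y) * (t.xi B i x ^ 2 * t.xi B k y ^ 2)),
        t.sum_pq_fib hik (fun x y => ind (¬ t.shp E i k x y) * (t.xi B i x ^ 2 * t.xi B k y ^ 2)), ← Finset.sum_add_distrib]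
      have e4 : E * (t.gg B i * t.gg B k) + 1 * (t.gg B i * t.gg B k) = ∑ x ∈ S i, ∑ y ∈ S k, (E + 1) *
          (t.q i x * t.q k y * (t.xi B i x ^ 2 * t.xi B k y ^ 2)) := by
        rw [← add_mul]
        unfold gg
        rw [Finset.sum_mul_sum, Finset.mul_sum]
        refine Finset.sum_congr rfl fun x _ => ?_
        rw [Finset.mul_sum]
        exact Finset.sum_congr rfl fun y _ => by ring
      rw [e4]
      refine Finset.sum_le_sum fun x hx => ?_
      rw [← Finset.sum_add_distrib]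
      refine Finset.sum_le_sum fun y hy => ?_
      have n1 : 0 ≤ t.xi B i x ^ 2 * t.xi B k y ^ 2 := mul_nonneg (sq_nonneg _) (sq_nonneg _)
      have n2 : 0 ≤ t.q i x * t.q k y := mul_nonneg (t.q_nn i x hx) (t.q_nn k y hy)
      by_cases hh : t.shp E i k x y
      · rw [ind_not (not_not.2 hh)]
        simp only [zero_mul, mul_zero, add_zero]
        positivity
      · rw [ind_of hh]
        have h5 : t.mg2 i k x y ≤ E * (t.q i x * t.q k y) := not_lt.1 hh
        have h6 := mul_le_mul_of_nonneg_right h5 n1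
        linarith
    rw [e1, e2] at c
    exact Real.le_sqrt_of_sq_le (c.trans (mul_le_mul_of_nonneg_left e3 t.tv_nn))
  · have s1 : ∀ f ∈ Fintype.piFinset S, |t.p f - t.pq f| * (ind (t.shp E i k (f i) (f k)) *
        (|t.xi B i (f i)| * |t.xi B k (f k)|)) ≤ (t.p f + t.pq f) * (ind (t.shp E i k (f i) (f k)) *
          (|t.xi B i (f i)| * |t.xi B k (f k)|)) := fun f hf =>
      mul_le_mul_of_nonneg_right (t.abs_diff_le hf) (mul_nonneg (ind_nonneg _) (mul_nonneg (abs_nonneg _) (abs_nonneg _)))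
    refine (Finset.sum_le_sum s1).trans ?_
    simp only [add_mul]
    rw [Finset.sum_add_distrib, t.sum_p_fib i k (fun x y => ind (t.shp E i k x y) * (|t.xi B i x| * |t.xi B k y|)),
      t.sum_pq_fib hik (fun x y => ind (t.shp E i k x y) * (|t.xi B i x| * |t.xi B k y|)), ← Finset.sum_add_distrib]
    unfold PH
    rw [Finset.mul_sum]
    refine Finset.sum_le_sum fun x hx => ?_
    rw [Finset.mul_sum, ← Finset.sum_add_distrib]
    refine Finset.sum_le_sum fun y hy => ?_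
    have n1 : 0 ≤ |t.xi B i x| * |t.xi B k y| := mul_nonneg (abs_nonneg _) (abs_nonneg _)
    have n2 : 0 ≤ t.q i x * t.q k y := mul_nonneg (t.q_nn i x hx) (t.q_nn k y hy)
    by_cases hh : t.shp E i k x y
    · rw [ind_of hh, one_mul]
      have h5 : E * (t.q i x * t.q k y) < t.mg2 i k x y := hh
      have h6 : t.q i x * t.q k y ≤ E * (t.q i x * t.q k y) := le_mul_of_one_le_left n2 hE
      have h7 := mul_le_mul_of_nonneg_right (h6.trans h5.le) n1
      linarith
    · rw [ind_not hh]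
      simp

/-- **THE WEAK PART BY SUPERHOT PAIRS** -/
theorem wk_pair {B : ℝ} (hB : 1 ≤ B) {E : ℝ} (hE : 1 ≤ E) :
    t.WK B ≤ ∑ i, t.ph B i + (1 + B) *
      ((Real.sqrt (t.tv * ((E + 1) * (t.gg B 0 * t.gg B 1))) + 2 * t.PH B E 0 1) +
        (Real.sqrt (t.tv * ((E + 1) * (t.gg B 0 * t.gg B 2))) + 2 * t.PH B E 0 2) +
        (Real.sqrt (t.tv * ((E + 1) * (t.gg B 1 * t.gg B 2))) + 2 * t.PH B E 1 2)) := by
  have hB0 : (0 : ℝ) ≤ B := by linarith
  set R : (Fin 3 → φ) → ℝ := fun f => (∏ i, hwk B (t.r i (f i))) - 1 - ∑ i, t.xi B i (f i) with hRdef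
  have e0 : ∑ f ∈ Fintype.piFinset S, (t.p f - t.pq f) = 0 := by
    rw [Finset.sum_sub_distrib, t.p_one]
    have h := t.sum_q_one (0 : Fin 3) (fun _ => (1 : ℝ))
    simp only [mul_one] at h
    rw [h, t.q_one 0, sub_self]
  have e1 : ∀ i, ∑ f ∈ Fintype.piFinset S, (t.p f - t.pq f) * t.xi B i (f i) = t.ph B i := fun i =>
    t.sum_diff_one i (fun x => t.xi B i x)
  have e2 : t.WK B = ∑ i, t.ph B i + ∑ f ∈ Fintype.piFinset S, (t.p f - t.pq f) * R f := by
    unfold WK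
    have h1 : ∀ f, (∏ i, hwk B (t.r i (f i))) * (t.p f - t.pq f) =
        (t.p f - t.pq f) + ∑ i, (t.p f - t.pq f) * t.xi B i (f i) + (t.p f - t.pq f) * R f := by
      intro f
      simp only [hRdef]
      rw [← Finset.mul_sum]
      ring
    simp only [h1]
    rw [Finset.sum_add_distrib, Finset.sum_add_distrib, e0, zero_add, Finset.sum_comm]
    simp only [e1]
  rw [e2]
  have s2 : ∀ f ∈ Fintype.piFinset S, (t.p f - t.pq f) * R f ≤
      (1 + B) * (|t.p f - t.pq f| * (|t.xi B 0 (f 0)| * |t.xi B 1 (f 1)|) +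
        |t.p f - t.pq f| * (|t.xi B 0 (f 0)| * |t.xi B 2 (f 2)|) +
        |t.p f - t.pq f| * (|t.xi B 1 (f 1)| * |t.xi B 2 (f 2)|)) := by
    intro f hf
    have h1 : |R f| ≤ (1 + B) * (|t.xi B 0 (f 0)| * |t.xi B 1 (f 1)| + |t.xi B 0 (f 0)| * |t.xi B 2 (f 2)| +
        |t.xi B 1 (f 1)| * |t.xi B 2 (f 2)|) := by
      have h2 := R_abs_le (a := t.xi B 0 (f 0)) (b := t.xi B 1 (f 1)) hB0
        (t.abs_xi_le hB (Fintype.mem_piFinset.1 hf 2))
      have h3 : R f = (1 + t.xi B 0 (f 0)) * (1 + t.xi B 1 (f 1)) * (1 + t.xi B 2 (f 2)) - 1 -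
          (t.xi B 0 (f 0) + t.xi B 1 (f 1) + t.xi B 2 (f 2)) := by
        simp only [hRdef]
        rw [Fin.prod_univ_three, Fin.sum_univ_three]
        unfold xi
        ring
      rw [h3]
      exact h2
    have h4 : (t.p f - t.pq f) * R f ≤ |t.p f - t.pq f| * |R f| := (le_abs_self _).trans (le_of_eq (abs_mul _ _))
    have h5 := mul_le_mul_of_nonneg_left h1 (abs_nonneg (t.p f - t.pq f))
    have h6 : |t.p f - t.pq f| * ((1 + B) * (|t.xi B 0 (f 0)| * |t.xi B 1 (f 1)| + |t.xi B 0 (f 0)| * |t.xi B 2 (f 2)| +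
        |t.xi B 1 (f 1)| * |t.xi B 2 (f 2)|)) = (1 + B) * (|t.p f - t.pq f| * (|t.xi B 0 (f 0)| * |t.xi B 1 (f 1)|) +
        |t.p f - t.pq f| * (|t.xi B 0 (f 0)| * |t.xi B 2 (f 2)|) +
        |t.p f - t.pq f| * (|t.xi B 1 (f 1)| * |t.xi B 2 (f 2)|)) := by ring
    rw [h6] at h5
    linarith
  have s3 := Finset.sum_le_sum s2
  rw [← Finset.mul_sum, Finset.sum_add_distrib, Finset.sum_add_distrib] at s3
  have c01 := t.cs_pair (show (0 : Fin 3) ≠ 1 by decide) B hE
  have c02 := t.cs_pair (show (0 : Fin 3) ≠ 2 by decide) B hE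
  have c12 := t.cs_pair (show (1 : Fin 3) ≠ 2 by decide) B hE
  have s4 := mul_le_mul_of_nonneg_left (add_le_add (add_le_add c01 c02) c12) (show 0 ≤ 1 + B by linarith)
  linarith

end KT

/-! ### at a point -/

section pt

variable {Om : Type*} [Fintype Om] (P : FP Om) {α β γ φ : Type*} {Z : Om → β} {Zb : Fin 3 → Om → α}
  (F : Fin 3 → Om → φ) (Y : Fin 3 → Om → γ)

variable (hZ : ∀ i, Fac Z (Zb i))

variable (Z Zb) in
/-- distance of the law of the tops from the product of the own laws -/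
def TVp (w : Om) : ℝ := ∑ f ∈ let_ F, |pF P Z F w f - ∏ i, qF P Zb F i w (f i)|

/-- second moment of the weak ratio of one top -/
def GGF (B : ℝ) (i : Fin 3) (w : Om) : ℝ := ∑ x ∈ vals (F i), qF P Zb F i w x * xF P F Y (Zb := Zb) B i w x ^ 2

variable (Z Zb) in
/-- weight of the superhot pairs of two tops -/
def PHF (B E : ℝ) (i k : Fin 3) (w : Om) : ℝ := ∑ x ∈ vals (F i), ∑ y ∈ vals (F k), mF2 P Z F i k w x y *
  (ind (E * (qF P Zb F i w x * qF P Zb F k w y) < mF2 P Z F i k w x y) *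
    (|xF P F Y (Zb := Zb) B i w x| * |xF P F Y (Zb := Zb) B k w y|))

variable (Z Zb) in
/-- the second order bound of a pair of tops at a point -/
def SOF (B E : ℝ) (i k : Fin 3) (w : Om) : ℝ :=
  Real.sqrt (TVp P Z Zb F w * ((E + 1) * (GGF P F Y (Zb := Zb) B i w * GGF P F Y (Zb := Zb) B k w))) +
    2 * PHF P Z Zb F Y B E i k w

include hZ in
/-- **THE WEAK PART AT A POINT**, the release weight is the constant `a0` on the weak tuples -/
theorem wkg_pair {B : ℝ} (hB : 1 ≤ B) {E : ℝ} (hE : 1 ≤ E) {G a : Om → (Fin 3 → φ) → ℝ} {Reg : Om → (Fin 3 → φ) → Prop}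
    {a0 : ℝ} {w : Om} (hw : P.p w ≠ 0) (h0 : 0 ≤ a0)
    (ha : ∀ f ∈ let_ F, (¬ ∃ i, B < rF P Zb F Y i w (f i)) → a w f = a0)
    (hG : ∀ f ∈ let_ F, ¬ Reg w f → G w f = pF P Z F w f / ∏ i, qF P Zb F i w (f i))
    (hR : ∀ f ∈ let_ F, (¬ ∃ i, B < rF P Zb F Y i w (f i)) → ¬ Reg w f) :
    WKGF P Zb F Y B a G w ≤ a0 * (∑ i, phi1 P (Zb i) Z (F i) (Y i) B w (Y i w) + (1 + B) *
      (SOF P Z Zb F Y B E 0 1 w + SOF P Z Zb F Y B E 0 2 w + SOF P Z Zb F Y B E 1 2 w)) := by
  classical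
  set t := tK P F Y hZ hw with ht
  have hr : ∀ i x, t.r i x = rF P Zb F Y i w x := tK_r P F Y hZ hw
  have hmg : ∀ i x, t.mg i x = mF P Z F i w x := tK_mg P F Y hZ hw
  have hmg2 : ∀ i k x y, t.mg2 i k x y = mF2 P Z F i k w x y := tK_mg2 P F Y hZ hw
  have hxi : ∀ i x, t.xi B i x = xF P F Y (Zb := Zb) B i w x := tK_xi P F Y hZ hw B
  have e1 : WKGF P Zb F Y B a G w = a0 * t.WK B := by
    unfold WKGF KT.WK
    rw [Finset.mul_sum]
    refine Finset.sum_congr rfl fun f hf => ?_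
    have e7 : (∏ i, hwk B (rF P Zb F Y i w (f i))) = ∏ i, hwk B (t.r i (f i)) :=
      Finset.prod_congr rfl fun i _ => by rw [hr]
    rw [e7]
    by_cases hs : ∃ i, B < t.r i (f i)
    · rw [t.prod_hwk_strong hs]; ring
    · have hs' : ¬ ∃ i, B < rF P Zb F Y i w (f i) := fun ⟨i, hi⟩ => hs ⟨i, by rw [hr]; exact hi⟩
      rw [ha f hf hs', hG f hf (hR f hf hs')]
      have e8 : (∏ i, qF P Zb F i w (f i)) = t.pq f := rfl
      have e9 : pF P Z F w f = t.p f := rfl
      rw [e8, e9]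
      by_cases h : t.pq f = 0
      · rw [t.p_zero hf h, h]; ring
      · field_simp
  have f2 : ∀ i, t.ph B i = phi1 P (Zb i) Z (F i) (Y i) B w (Y i w) := by
    intro i
    unfold KT.ph phi1
    refine Finset.sum_congr rfl fun x _ => ?_
    rw [hmg, hxi]
    rfl
  have f3 : ∀ i, t.gg B i = GGF P F Y (Zb := Zb) B i w := by
    intro i
    unfold KT.gg GGF
    refine Finset.sum_congr rfl fun x _ => ?_
    rw [hxi]
    rfl
  have f4 : ∀ i k, t.PH B E i k = PHF P Z Zb F Y B E i k w := by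
    intro i k
    unfold KT.PH PHF KT.shp
    refine Finset.sum_congr rfl fun x _ => Finset.sum_congr rfl fun y _ => ?_
    rw [hmg2, hxi, hxi]
    rfl
  have f5 : t.tv = TVp P Z Zb F w := rfl
  have k := t.wk_pair hB hE
  simp only [f2, f3, f4, f5] at k
  rw [e1]
  exact mul_le_mul_of_nonneg_left k h0

/-- mean of the second moment at the true additions -/
theorem E_GG {B : ℝ} (hB : Real.exp 2 ≤ B) (i : Fin 3) {al : Om → ℝ} (h1 : ∀ w, al w ≤ 1) :
    P.E (fun w => al w * GGF P F Y (Zb := Zb) B i w) ≤ 2 * B * gn P (Zb i) (F i) (Y i) := by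
  refine le_trans (P.E_mono fun w hw => ?_) (weak_gain P (Zb i) (F i) (Y i) hB)
  refine mul_le_of_le_one_left ?_ (h1 w)
  exact Finset.sum_nonneg fun x _ => mul_nonneg (P.pv_nonneg _ _ _ _) (sq_nonneg _)

end pt

end

end Pool.Agent.GMH
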