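import Pool.Agent.GMH.SsP2

/-!
# GMH/SsP3: the weak part at a thin strong point, superhot pairs with a rising letter cut (helper79)

Region `RP` : weak tuple, some superhot pair `(i, k)` (`E q_i q_k < m_ik`) with `1 + e3 < r_i`.
* `KT.ss_pair_le` : one table; the remaining inputs are kills of superhot pairs `KP`, `e3` times their mass `MP`, the mass of the
  rising letters over `E` (`RI`) and the mass of the strong letters;
* `RPF`, `KPF`, `MPF`, `RIF`, `ss_pair_point` : the same at a point for `WKGF` of `GMH/Key3R`.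
-/

set_option autoImplicit false
set_option linter.unusedSectionVars false
set_option linter.unusedVariables false

namespace Pool.Agent.GMH

open Finset Pool.Agent.PWZ Pool.Agent.M3

noncomputable section

/-! ### numbers -/

theorem pair_num {x y e : ℝ} (hx : 0 ≤ x) (hy : 0 ≤ y) (he : 0 ≤ e) (he1 : e ≤ 1) (hx1 : x ≤ 1 + e) (hy1 : y ≤ 1 + e) :
    (x - 1) * (y - 1) ≤ max (1 - x * y) 0 + e := by
  have h1 := le_max_left (1 - x * y) 0
  have h2 := le_max_right (1 - x * y) 0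
  rcases le_total x 1 with a | a
  · rcases le_total y 1 with b | b
    · nlinarith [mul_nonneg hx (sub_nonneg.2 b), mul_nonneg hy (sub_nonneg.2 a)]
    · nlinarith [mul_nonneg (sub_nonneg.2 a) (sub_nonneg.2 b)]
  · rcases le_total y 1 with b | b
    · nlinarith [mul_nonneg (sub_nonneg.2 a) (sub_nonneg.2 b)]
    · have h3 : (x - 1) * (y - 1) ≤ e * e := mul_le_mul (by linarith) (by linarith) (by linarith) he
      nlinarith

theorem trip_num {x y z e B : ℝ} (hB : 1 ≤ B) (hx : 0 ≤ x) (hy : 0 ≤ y) (hz : 0 ≤ z) (he : 0 ≤ e) (he1 : e ≤ 1)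
    (hx1 : x ≤ 1 + e) (hy1 : y ≤ 1 + e) (hz1 : z ≤ B) :
    (x - 1) * (y - 1) * (z - 1) ≤ B * max (1 - x * y) 0 + (B + 1) * e := by
  have h1 := pair_num hx hy he he1 hx1 hy1
  have h2 := le_max_right (1 - x * y) 0
  rcases le_total 0 ((x - 1) * (y - 1)) with a | a
  · rcases le_total 1 z with c | c
    · have h3 : (x - 1) * (y - 1) * (z - 1) ≤ (x - 1) * (y - 1) * B := mul_le_mul_of_nonneg_left (by linarith) a
      have h4 : (x - 1) * (y - 1) * B ≤ (max (1 - x * y) 0 + e) * B := mul_le_mul_of_nonneg_right h1 (by linarith)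
      nlinarith
    · have h3 : (x - 1) * (y - 1) * (z - 1) ≤ 0 := mul_nonpos_of_nonneg_of_nonpos a (by linarith)
      have : 0 ≤ B * max (1 - x * y) 0 := mul_nonneg (by linarith) h2
      nlinarith
  · -- one letter rises by at most `e`, the other falls
    have h5 : -((x - 1) * (y - 1)) ≤ e := by
      rcases le_total x 1 with b | b
      · have : y ≤ 1 + e := hy1
        have b2 : 0 ≤ 1 - x := by linarith
        have b3 : 1 - x ≤ 1 := by linarith
        have b4 : (1 - x) * (y - 1) ≤ (1 - x) * e := mul_le_mul_of_nonneg_left (by linarith) b2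
        nlinarith [mul_nonneg hx he]
      · rcases le_total y 1 with c2 | c2
        · have b4 : (x - 1) * (1 - y) ≤ e * (1 - y) := mul_le_mul_of_nonneg_right (by linarith) (by linarith)
          nlinarith [mul_nonneg hy he]
        · have := mul_nonneg (sub_nonneg.2 b) (sub_nonneg.2 c2)
          linarith
    rcases le_total 1 z with c | c
    · have h3 : (x - 1) * (y - 1) * (z - 1) ≤ 0 := mul_nonpos_of_nonpos_of_nonneg a (by linarith)
      have : 0 ≤ B * max (1 - x * y) 0 := mul_nonneg (by linarith) h2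
      nlinarith
    · have h3 : (x - 1) * (y - 1) * (z - 1) = (-((x - 1) * (y - 1))) * (1 - z) := by ring
      have h4 : (-((x - 1) * (y - 1))) * (1 - z) ≤ (-((x - 1) * (y - 1))) * 1 :=
        mul_le_mul_of_nonneg_left (by linarith) (by linarith)
      have : 0 ≤ B * max (1 - x * y) 0 := mul_nonneg (by linarith) h2
      rw [h3]
      nlinarith

theorem cut_num {x y z : ℝ} (hx : 0 ≤ x) (hy : 0 ≤ y) (hz : 0 ≤ z) : 2 - (x + y + z) ≤ 2 * max (1 - x * y) 0 := by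
  have h1 := le_max_left (1 - x * y) 0
  have h2 := le_max_right (1 - x * y) 0
  by_cases h : 2 ≤ x + y
  · linarith
  · have h' := not_le.1 h
    nlinarith [sq_nonneg (x - y)]

/-- off the region -/
theorem off_num {x y z e B : ℝ} (hB : 1 ≤ B) (hx : 0 ≤ x) (hy : 0 ≤ y) (hz : 0 ≤ z) (he : 0 ≤ e) (he1 : e ≤ 1)
    (hxB : x ≤ B) (hyB : y ≤ B) (hzB : z ≤ B) {h01 h02 h12 : Prop} (h1 : h01 → x ≤ 1 + e ∧ y ≤ 1 + e)
    (h2 : h02 → x ≤ 1 + e ∧ z ≤ 1 + e) (h3 : h12 → y ≤ 1 + e ∧ z ≤ 1 + e) (hh : h01 ∨ h02 ∨ h12) :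
    x * y * z + 2 - (x + y + z) ≤
      (ind h01 * ((1 + B) * max (1 - x * y) 0 + (B + 2) * e) + ind (¬ h01) * (|x - 1| * |y - 1|)) +
      (ind h02 * ((1 + B) * max (1 - x * z) 0 + (B + 2) * e) + ind (¬ h02) * (|x - 1| * |z - 1|)) +
      (ind h12 * ((1 + B) * max (1 - y * z) 0 + (B + 2) * e) + ind (¬ h12) * (|y - 1| * |z - 1|)) := by
  have e0 : x * y * z + 2 - (x + y + z) = (x - 1) * (y - 1) + (x - 1) * (z - 1) + (y - 1) * (z - 1) +
      (x - 1) * (y - 1) * (z - 1) := by ring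
  -- single pairs, without and with the triple
  have key : ∀ (h : Prop) (a b : ℝ), 0 ≤ a → 0 ≤ b → (h → a ≤ 1 + e ∧ b ≤ 1 + e) →
      (a - 1) * (b - 1) ≤ ind h * ((1 + B) * max (1 - a * b) 0 + (B + 2) * e) + ind (¬ h) * (|a - 1| * |b - 1|) := by
    intro h a b ha hb hk
    by_cases hc : h
    · rw [ind_of hc, ind_not (not_not.2 hc)]
      have := pair_num ha hb he he1 (hk hc).1 (hk hc).2
      have m0 := le_max_right (1 - a * b) 0
      nlinarith [mul_nonneg (show 0 ≤ B by linarith) m0, mul_nonneg (show 0 ≤ B by linarith) he]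
    · rw [ind_not hc, ind_of hc, zero_mul, zero_add, one_mul, ← abs_mul]
      exact le_abs_self _
  have key2 : ∀ (h : Prop) (a b c : ℝ), 0 ≤ a → 0 ≤ b → 0 ≤ c → c ≤ B → (h → a ≤ 1 + e ∧ b ≤ 1 + e) → h →
      (a - 1) * (b - 1) + (a - 1) * (b - 1) * (c - 1) ≤
        ind h * ((1 + B) * max (1 - a * b) 0 + (B + 2) * e) + ind (¬ h) * (|a - 1| * |b - 1|) := by
    intro h a b c ha hb hcc hcB hk hc
    rw [ind_of hc, ind_not (not_not.2 hc)]
    have k1 := pair_num ha hb he he1 (hk hc).1 (hk hc).2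
    have k2 := trip_num hB ha hb hcc he he1 (hk hc).1 (hk hc).2 hcB
    nlinarith
  have a1 := key h01 x y hx hy h1
  have a2 := key h02 x z hx hz h2
  have a3 := key h12 y z hy hz h3
  rw [e0]
  rcases hh with c | c | c
  · have b := key2 h01 x y z hx hy hz hzB h1 c
    linarith
  · have b := key2 h02 x z y hx hz hy hyB h2 c
    have e1 : (x - 1) * (z - 1) * (y - 1) = (x - 1) * (y - 1) * (z - 1) := by ring
    rw [e1] at b
    linarith
  · have b := key2 h12 y z x hy hz hx hxB h3 c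
    have e1 : (y - 1) * (z - 1) * (x - 1) = (x - 1) * (y - 1) * (z - 1) := by ring
    rw [e1] at b
    linarith

namespace KT

variable {φ : Type*} {S : Fin 3 → Finset φ} (t : KT S)

theorem mg2_sy (i k : Fin 3) (x y : φ) : t.mg2 i k x y = t.mg2 k i y x := by
  unfold mg2
  refine Finset.sum_congr rfl fun F _ => ?_
  congr 2
  exact propext and_comm

theorem shp_symm {E : ℝ} {i k : Fin 3} {x y : φ} (h : t.shp E i k x y) : t.shp E k i y x := by
  unfold shp at h ⊢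
  rw [← t.mg2_sy, mul_comm (t.q k y)]
  exact h

/-- region -/
def RP (B e3 E : ℝ) (f : Fin 3 → φ) : Prop :=
  (∀ i, t.r i (f i) ≤ B) ∧ ∃ i k, i ≠ k ∧ t.shp E i k (f i) (f k) ∧ 1 + e3 < t.r i (f i)

/-- kills of superhot pairs -/
def KP (E : ℝ) (i k : Fin 3) : ℝ :=
  ∑ x ∈ S i, ∑ y ∈ S k, t.mg2 i k x y * (ind (t.shp E i k x y) * max (1 - t.r i x * t.r k y) 0)

/-- mass of superhot pairs -/
def MP (E : ℝ) (i k : Fin 3) : ℝ := ∑ x ∈ S i, ∑ y ∈ S k, t.mg2 i k x y * ind (t.shp E i k x y)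

/-- mass of the rising weak letters -/
def RI (B e3 : ℝ) (i : Fin 3) : ℝ := ∑ x ∈ S i, t.mg i x * ind (1 + e3 < t.r i x ∧ t.r i x ≤ B)

/-- some superhot pair -/
def ash (E : ℝ) (f : Fin 3 → φ) : Prop :=
  t.shp E 0 1 (f 0) (f 1) ∨ t.shp E 0 2 (f 0) (f 2) ∨ t.shp E 1 2 (f 1) (f 2)

theorem ash_of {E : ℝ} {f : Fin 3 → φ} {i k : Fin 3} (hik : i ≠ k) (h : t.shp E i k (f i) (f k)) : t.ash E f := by
  have h' := t.shp_symm h
  fin_cases i <;> fin_cases k
  · exact absurd rfl hik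
  · exact Or.inl h
  · exact Or.inr (Or.inl h)
  · exact Or.inl h'
  · exact absurd rfl hik
  · exact Or.inr (Or.inr h)
  · exact Or.inr (Or.inl h')
  · exact Or.inr (Or.inr h')
  · exact absurd rfl hik

theorem sum_mg2_one (i k : Fin 3) : ∑ x ∈ S i, ∑ y ∈ S k, t.mg2 i k x y = 1 := by
  have h := t.sum_p_fib i k (fun _ _ => 1)
  simp only [mul_one] at h
  rw [← h, t.p_one]

theorem sum_mg2_row (i k : Fin 3) (A : φ → ℝ) : ∑ x ∈ S i, ∑ y ∈ S k, t.mg2 i k x y * A x = ∑ x ∈ S i, t.mg i x * A x := by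
  rw [← t.sum_p_fib i k (fun x _ => A x), t.sum_mg i A]

/-- product mass of the superhot pairs -/
theorem qq_sh {E : ℝ} (hE : 0 < E) {i k : Fin 3} (hik : i ≠ k) {A : φ → φ → ℝ} (hA : ∀ x ∈ S i, ∀ y ∈ S k, 0 ≤ A x y) :
    ∑ f ∈ Fintype.piFinset S, t.pq f * (ind (t.shp E i k (f i) (f k)) * A (f i) (f k)) ≤
      1 / E * ∑ x ∈ S i, ∑ y ∈ S k, t.mg2 i k x y * A x y := by
  rw [t.sum_pq_fib hik (fun x y => ind (t.shp E i k x y) * A x y), Finset.mul_sum]
  refine Finset.sum_le_sum fun x hx => ?_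
  rw [Finset.mul_sum]
  refine Finset.sum_le_sum fun y hy => ?_
  have n0 := hA x hx y hy
  have n1 := t.mg2_nn i k x y
  by_cases h : t.shp E i k x y
  · rw [ind_of h, one_mul]
    have h1 : E * (t.q i x * t.q k y) < t.mg2 i k x y := h
    have h2 : t.q i x * t.q k y ≤ 1 / E * t.mg2 i k x y := by
      rw [div_mul_eq_mul_div, one_mul, le_div_iff₀ hE]
      linarith
    have h3 := mul_le_mul_of_nonneg_right h2 n0
    linarith
  · rw [ind_not h]
    have : 0 ≤ 1 / E * (t.mg2 i k x y * A x y) := by positivity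
    linarith

theorem ind_ash_le (E : ℝ) (f : Fin 3 → φ) : ind (t.ash E f) ≤ ind (t.shp E 0 1 (f 0) (f 1)) +
    ind (t.shp E 0 2 (f 0) (f 2)) + ind (t.shp E 1 2 (f 1) (f 2)) := by
  have a0 := ind_nonneg (t.shp E 0 1 (f 0) (f 1))
  have a1 := ind_nonneg (t.shp E 0 2 (f 0) (f 2))
  have a2 := ind_nonneg (t.shp E 1 2 (f 1) (f 2))
  by_cases h : t.ash E f
  · rw [ind_of h]
    rcases h with h | h | h
    · rw [ind_of h]; linarith
    · rw [ind_of h]; linarith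
    · rw [ind_of h]; linarith
  · rw [ind_not h]; linarith

/-- product part of the tuples with a superhot pair -/
theorem cs_ash {i k : Fin 3} (hik : i ≠ k) (B : ℝ) {E : ℝ} (hE : 0 < E) :
    ∑ f ∈ Fintype.piFinset S, t.pq f * (ind (t.ash E f) * (|t.xi B i (f i)| * |t.xi B k (f k)|)) ≤
      Real.sqrt (3 / E * (t.gg B i * t.gg B k)) := by
  have c := Finset.sum_mul_sq_le_sq_mul_sq (Fintype.piFinset S) (fun f => Real.sqrt (t.pq f) * ind (t.ash E f))
    (fun f => Real.sqrt (t.pq f) * (|t.xi B i (f i)| * |t.xi B k (f k)|))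
  have e1 : ∑ f ∈ Fintype.piFinset S, Real.sqrt (t.pq f) * ind (t.ash E f) * (Real.sqrt (t.pq f) *
      (|t.xi B i (f i)| * |t.xi B k (f k)|)) = ∑ f ∈ Fintype.piFinset S, t.pq f * (ind (t.ash E f) *
        (|t.xi B i (f i)| * |t.xi B k (f k)|)) := by
    refine Finset.sum_congr rfl fun f hf => ?_
    have := Real.mul_self_sqrt (t.pq_nn hf)
    calc _ = (Real.sqrt (t.pq f) * Real.sqrt (t.pq f)) * (ind (t.ash E f) * (|t.xi B i (f i)| * |t.xi B k (f k)|)) := by ring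
      _ = _ := by rw [this]
  have e2 : ∑ f ∈ Fintype.piFinset S, (Real.sqrt (t.pq f) * ind (t.ash E f)) ^ 2 ≤ 3 / E := by
    have s : ∀ f ∈ Fintype.piFinset S, (Real.sqrt (t.pq f) * ind (t.ash E f)) ^ 2 ≤
        t.pq f * (ind (t.shp E 0 1 (f 0) (f 1)) * 1) + t.pq f * (ind (t.shp E 0 2 (f 0) (f 2)) * 1) +
          t.pq f * (ind (t.shp E 1 2 (f 1) (f 2)) * 1) := by
      intro f hf
      rw [mul_pow, Real.sq_sqrt (t.pq_nn hf)]
      have h1 : ind (t.ash E f) ^ 2 ≤ ind (t.ash E f) := by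
        have := ind_nonneg (t.ash E f)
        have := ind_le_one (t.ash E f)
        nlinarith
      have h2 := mul_le_mul_of_nonneg_left (h1.trans (t.ind_ash_le E f)) (t.pq_nn hf)
      linarith
    refine (Finset.sum_le_sum s).trans ?_
    rw [Finset.sum_add_distrib, Finset.sum_add_distrib]
    have k1 := t.qq_sh hE (show (0 : Fin 3) ≠ 1 by decide) (A := fun _ _ => 1) (fun _ _ _ _ => zero_le_one)
    have k2 := t.qq_sh hE (show (0 : Fin 3) ≠ 2 by decide) (A := fun _ _ => 1) (fun _ _ _ _ => zero_le_one)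
    have k3 := t.qq_sh hE (show (1 : Fin 3) ≠ 2 by decide) (A := fun _ _ => 1) (fun _ _ _ _ => zero_le_one)
    have o1 := t.sum_mg2_one 0 1
    have o2 := t.sum_mg2_one 0 2
    have o3 := t.sum_mg2_one 1 2
    simp only [mul_one] at k1 k2 k3 ⊢
    rw [o1, mul_one] at k1
    rw [o2, mul_one] at k2
    rw [o3, mul_one] at k3
    have : 3 / E = 1 / E + 1 / E + 1 / E := by ring
    rw [this]
    linarith
  have e3 : ∑ f ∈ Fintype.piFinset S, (Real.sqrt (t.pq f) * (|t.xi B i (f i)| * |t.xi B k (f k)|)) ^ 2 =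
      t.gg B i * t.gg B k := by
    rw [← t.sum_two_sq hik B]
    refine Finset.sum_congr rfl fun f hf => ?_
    rw [mul_pow, Real.sq_sqrt (t.pq_nn hf), mul_pow, sq_abs, sq_abs]
  rw [e1, e3] at c
  exact Real.le_sqrt_of_sq_le (c.trans (mul_le_mul_of_nonneg_right e2 (mul_nonneg (t.gg_nn B i) (t.gg_nn B k))))

/-- nonhot pairs -/
theorem cs_nonhot {i k : Fin 3} (hik : i ≠ k) (B : ℝ) {E : ℝ} (hE : 1 ≤ E) :
    ∑ f ∈ Fintype.piFinset S, |t.p f - t.pq f| * (ind (¬ t.shp E i k (f i) (f k)) * (|t.xi B i (f i)| * |t.xi B k (f k)|)) ≤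
      Real.sqrt (t.tv * ((E + 1) * (t.gg B i * t.gg B k))) := by
  have c := Finset.sum_mul_sq_le_sq_mul_sq (Fintype.piFinset S) (fun f => Real.sqrt |t.p f - t.pq f|)
    (fun f => Real.sqrt |t.p f - t.pq f| * (ind (¬ t.shp E i k (f i) (f k)) * (|t.xi B i (f i)| * |t.xi B k (f k)|)))
  have e1 : ∑ f ∈ Fintype.piFinset S, Real.sqrt |t.p f - t.pq f| * (Real.sqrt |t.p f - t.pq f| *
      (ind (¬ t.shp E i k (f i) (f k)) * (|t.xi B i (f i)| * |t.xi B k (f k)|))) =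
      ∑ f ∈ Fintype.piFinset S, |t.p f - t.pq f| * (ind (¬ t.shp E i k (f i) (f k)) *
        (|t.xi B i (f i)| * |t.xi B k (f k)|)) := by
    refine Finset.sum_congr rfl fun f _ => ?_
    rw [← mul_assoc, Real.mul_self_sqrt (abs_nonneg _)]
  have e2 : ∑ f ∈ Fintype.piFinset S, Real.sqrt |t.p f - t.pq f| ^ 2 = t.tv :=
    Finset.sum_congr rfl fun f _ => Real.sq_sqrt (abs_nonneg _)
  have e3 : ∑ f ∈ Fintype.piFinset S, (Real.sqrt |t.p f - t.pq f| * (ind (¬ t.shp E i k (f i) (f k)) *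
      (|t.xi B i (f i)| * |t.xi B k (f k)|))) ^ 2 ≤ (E + 1) * (t.gg B i * t.gg B k) := by
    have s1 : ∀ f ∈ Fintype.piFinset S, (Real.sqrt |t.p f - t.pq f| * (ind (¬ t.shp E i k (f i) (f k)) *
        (|t.xi B i (f i)| * |t.xi B k (f k)|))) ^ 2 ≤ (t.p f + t.pq f) * (ind (¬ t.shp E i k (f i) (f k)) *
          (t.xi B i (f i) ^ 2 * t.xi B k (f k) ^ 2)) := by
      intro f hf
      have h1 : (Real.sqrt |t.p f - t.pq f| * (ind (¬ t.shp E i k (f i) (f k)) *
        (|t.xi B i (f i)| * |t.xi B k (f k)|))) ^ 2 = Real.sqrt |t.p f - t.pq f| ^ 2 *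
          (ind (¬ t.shp E i k (f i) (f k)) ^ 2 * (|t.xi B i (f i)| ^ 2 * |t.xi B k (f k)| ^ 2)) := by ring
      have h2 : ind (¬ t.shp E i k (f i) (f k)) ^ 2 = ind (¬ t.shp E i k (f i) (f k)) := by
        by_cases hh : t.shp E i k (f i) (f k)
        · rw [ind_not (not_not.2 hh)]; ring
        · rw [ind_of hh]; ring
      rw [h1, Real.sq_sqrt (abs_nonneg _), sq_abs, sq_abs, h2]
      exact mul_le_mul_of_nonneg_right (t.abs_diff_le hf) (mul_nonneg (ind_nonneg _)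
        (mul_nonneg (sq_nonneg _) (sq_nonneg _)))
    refine (Finset.sum_le_sum s1).trans ?_
    simp only [add_mul]
    rw [Finset.sum_add_distrib, t.sum_p_fib i k (fun x y => ind (¬ t.shp E i k x y) * (t.xi B i x ^ 2 * t.xi B k y ^ 2)),
      t.sum_pq_fib hik (fun x y => ind (¬ t.shp E i k x y) * (t.xi B i x ^ 2 * t.xi B k y ^ 2)), ← Finset.sum_add_distrib]
    have e4 : E * (t.gg B i * t.gg B k) + 1 * (t.gg B i * t.gg B k) = ∑ x ∈ S i, ∑ y ∈ S k, (E + 1) *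
        (t.q i x * t.q k y * (t.xi B i x ^ 2 * t.xi B k y ^ 2)) := by
      rw [← add_mul]
      unfold gg
      rw [Finset.sum_mul_sum, Finset.mul_sum]
      refine Finset.sum_congr rfl fun x _ => ?_
      rw [Finset.mul_sum]
      exact Finset.sum_congr rfl fun y _ => by ring
    rw [e4]
    refine Finset.sum_le_sum fun x hx => ?_
    rw [← Finset.sum_add_distrib]
    refine Finset.sum_le_sum fun y hy => ?_
    have n1 : 0 ≤ t.xi B i x ^ 2 * t.xi B k y ^ 2 := mul_nonneg (sq_nonneg _) (sq_nonneg _)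
    have n2 : 0 ≤ t.q i x * t.q k y := mul_nonneg (t.q_nn i x hx) (t.q_nn k y hy)
    by_cases hh : t.shp E i k x y
    · rw [ind_not (not_not.2 hh)]
      simp only [zero_mul, mul_zero, add_zero]
      positivity
    · rw [ind_of hh]
      have h5 : t.mg2 i k x y ≤ E * (t.q i x * t.q k y) := not_lt.1 hh
      have h6 := mul_le_mul_of_nonneg_right h5 n1
      linarith
  rw [e1, e2] at c
  exact Real.le_sqrt_of_sq_le (c.trans (mul_le_mul_of_nonneg_left e3 t.tv_nn))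

/-- the sum over the pairs with a superhot pair and a rising letter -/
theorem rp_sum {B e3 E : ℝ} (hB : 1 ≤ B) (hE : 0 < E) :
    ∑ f ∈ Fintype.piFinset S, ind (t.RP B e3 E f) * (t.pq f * ∏ i, t.r i (f i)) ≤
      2 * B ^ 3 / E * ∑ i, t.RI B e3 i := by
  classical
  have hB0 : (0 : ℝ) ≤ B := by linarith
  -- one tuple
  have s1 : ∀ f ∈ Fintype.piFinset S, ind (t.RP B e3 E f) * (t.pq f * ∏ i, t.r i (f i)) ≤
      B ^ 3 * ∑ i, ∑ k ∈ univ.erase i, t.pq f * (ind (t.shp E i k (f i) (f k)) *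
        ind (1 + e3 < t.r i (f i) ∧ t.r i (f i) ≤ B)) := by
    intro f hf
    have hq := t.pq_nn hf
    have n0 : ∀ i, ∀ k, 0 ≤ t.pq f * (ind (t.shp E i k (f i) (f k)) * ind (1 + e3 < t.r i (f i) ∧ t.r i (f i) ≤ B)) :=
      fun i k => mul_nonneg hq (mul_nonneg (ind_nonneg _) (ind_nonneg _))
    have n1 : 0 ≤ ∑ i, ∑ k ∈ univ.erase i, t.pq f * (ind (t.shp E i k (f i) (f k)) *
        ind (1 + e3 < t.r i (f i) ∧ t.r i (f i) ≤ B)) :=
      Finset.sum_nonneg fun i _ => Finset.sum_nonneg fun k _ => n0 i k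
    by_cases h : t.RP B e3 E f
    · have hRP := h
      obtain ⟨hw, i, k, hik, hs, hr⟩ := h
      rw [ind_of hRP, one_mul]
      have h1 : ∏ j, t.r j (f j) ≤ B ^ 3 := by
        have := Finset.prod_le_prod (s := (univ : Finset (Fin 3))) (f := fun j => t.r j (f j)) (g := fun _ => B)
          (fun j _ => t.r_nn (Fintype.mem_piFinset.1 hf j)) (fun j _ => hw j)
        simpa using this
      have h2 : t.pq f ≤ ∑ i, ∑ k ∈ univ.erase i, t.pq f * (ind (t.shp E i k (f i) (f k)) *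
          ind (1 + e3 < t.r i (f i) ∧ t.r i (f i) ≤ B)) := by
        have a1 := Finset.single_le_sum (f := fun i => ∑ k ∈ univ.erase i, t.pq f * (ind (t.shp E i k (f i) (f k)) *
          ind (1 + e3 < t.r i (f i) ∧ t.r i (f i) ≤ B))) (fun i _ => Finset.sum_nonneg fun k _ => n0 i k) (mem_univ i)
        have a2 := Finset.single_le_sum (f := fun k => t.pq f * (ind (t.shp E i k (f i) (f k)) *
          ind (1 + e3 < t.r i (f i) ∧ t.r i (f i) ≤ B))) (fun k _ => n0 i k) (Finset.mem_erase.2 ⟨hik.symm, mem_univ k⟩)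
        have a3 : t.pq f * (ind (t.shp E i k (f i) (f k)) * ind (1 + e3 < t.r i (f i) ∧ t.r i (f i) ≤ B)) = t.pq f := by
          rw [ind_of hs, ind_of (⟨hr, hw i⟩ : 1 + e3 < t.r i (f i) ∧ t.r i (f i) ≤ B), one_mul, mul_one]

        linarith
      calc t.pq f * ∏ j, t.r j (f j) ≤ t.pq f * B ^ 3 := mul_le_mul_of_nonneg_left h1 hq
        _ = B ^ 3 * t.pq f := by ring
        _ ≤ _ := mul_le_mul_of_nonneg_left h2 (by positivity)
    · rw [ind_not h, zero_mul]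
      positivity
  refine (Finset.sum_le_sum s1).trans ?_
  rw [← Finset.mul_sum]
  have e1 : ∑ f ∈ Fintype.piFinset S, ∑ i, ∑ k ∈ univ.erase i, t.pq f * (ind (t.shp E i k (f i) (f k)) *
        ind (1 + e3 < t.r i (f i) ∧ t.r i (f i) ≤ B)) = ∑ i, ∑ k ∈ univ.erase i, ∑ f ∈ Fintype.piFinset S,
          t.pq f * (ind (t.shp E i k (f i) (f k)) * ind (1 + e3 < t.r i (f i) ∧ t.r i (f i) ≤ B)) := by
    rw [Finset.sum_comm]
    exact Finset.sum_congr rfl fun i _ => Finset.sum_comm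
  rw [e1]
  have s2 : ∀ i, ∑ k ∈ univ.erase i, ∑ f ∈ Fintype.piFinset S, t.pq f * (ind (t.shp E i k (f i) (f k)) *
      ind (1 + e3 < t.r i (f i) ∧ t.r i (f i) ≤ B)) ≤ 2 * (1 / E * t.RI B e3 i) := by
    intro i
    have s3 : ∀ k ∈ univ.erase i, ∑ f ∈ Fintype.piFinset S, t.pq f * (ind (t.shp E i k (f i) (f k)) *
        ind (1 + e3 < t.r i (f i) ∧ t.r i (f i) ≤ B)) ≤ 1 / E * t.RI B e3 i := by
      intro k hk
      have h := t.qq_sh hE (Finset.ne_of_mem_erase hk).symm (A := fun x _ => ind (1 + e3 < t.r i x ∧ t.r i x ≤ B))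
        (fun _ _ _ _ => ind_nonneg _)
      rw [t.sum_mg2_row i k (fun x => ind (1 + e3 < t.r i x ∧ t.r i x ≤ B))] at h
      exact h
    have h := Finset.sum_le_sum s3
    rw [Finset.sum_const, Finset.card_erase_of_mem (mem_univ i), Finset.card_univ, Fintype.card_fin, nsmul_eq_mul] at h
    have e2 : ((3 - 1 : ℕ) : ℝ) = 2 := by norm_num
    rw [e2] at h
    exact h
  have s4 := Finset.sum_le_sum fun i (_ : i ∈ (univ : Finset (Fin 3))) => s2 i
  rw [← Finset.mul_sum, ← Finset.mul_sum] at s4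
  have s5 := mul_le_mul_of_nonneg_left s4 (show (0 : ℝ) ≤ B ^ 3 by positivity)
  refine s5.trans (le_of_eq ?_)
  ring

/-- bound of one tuple with a superhot pair, weight `p` -/
def bp (B e3 E : ℝ) (f : Fin 3 → φ) : ℝ :=
  (ind (t.shp E 0 1 (f 0) (f 1)) * ((1 + B) * max (1 - t.r 0 (f 0) * t.r 1 (f 1)) 0 + (B + 2) * e3) +
    ind (¬ t.shp E 0 1 (f 0) (f 1)) * (|t.xi B 0 (f 0)| * |t.xi B 1 (f 1)|)) +
  (ind (t.shp E 0 2 (f 0) (f 2)) * ((1 + B) * max (1 - t.r 0 (f 0) * t.r 2 (f 2)) 0 + (B + 2) * e3) +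
    ind (¬ t.shp E 0 2 (f 0) (f 2)) * (|t.xi B 0 (f 0)| * |t.xi B 2 (f 2)|)) +
  (ind (t.shp E 1 2 (f 1) (f 2)) * ((1 + B) * max (1 - t.r 1 (f 1) * t.r 2 (f 2)) 0 + (B + 2) * e3) +
    ind (¬ t.shp E 1 2 (f 1) (f 2)) * (|t.xi B 1 (f 1)| * |t.xi B 2 (f 2)|))

theorem bp_nn {B e3 E : ℝ} (hB : 1 ≤ B) (he3 : 0 ≤ e3) (f : Fin 3 → φ) : 0 ≤ t.bp B e3 E f := by
  have key : ∀ (h : Prop) (a b c d : ℝ), 0 ≤ ind h * ((1 + B) * max (1 - a * b) 0 + (B + 2) * e3) +
      ind (¬ h) * (|c| * |d|) := fun h a b c d => by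
    have := le_max_right (1 - a * b) 0
    have := ind_nonneg h
    have := ind_nonneg (¬ h)
    positivity
  unfold bp
  exact add_nonneg (add_nonneg (key _ _ _ _ _) (key _ _ _ _ _)) (key _ _ _ _ _)

variable {B e3 E a0 : ℝ} {Reg : (Fin 3 → φ) → Prop} {G a : (Fin 3 → φ) → ℝ}

/-- **one tuple with a superhot pair** -/
theorem hot_pt (hB : 1 ≤ B) (he3 : 0 ≤ e3) (he31 : e3 ≤ 1) {f : Fin 3 → φ} (hf : f ∈ Fintype.piFinset S)
    (hh : t.ash E f) :
    (∏ i, hwk B (t.r i (f i))) - 1 - ∑ i, t.xi B i (f i) - ind (t.RP B e3 E f) * ∏ i, t.r i (f i) ≤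
      t.bp B e3 E f + 2 * ∑ i, ind (B < t.r i (f i)) := by
  have hr : ∀ i, 0 ≤ t.r i (f i) := fun i => t.r_nn (Fintype.mem_piFinset.1 hf i)
  have hs0 : 0 ≤ 2 * ∑ i, ind (B < t.r i (f i)) := mul_nonneg (by norm_num) (Finset.sum_nonneg fun _ _ => ind_nonneg _)
  have hb0 := t.bp_nn (E := E) hB he3 f
  by_cases hw : ∀ i, t.r i (f i) ≤ B
  · have hk : ∀ i, hwk B (t.r i (f i)) = t.r i (f i) := by
      intro i
      unfold hwk
      rw [ind_of (not_lt.2 (hw i)), one_mul]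
    have hx : ∀ i, t.xi B i (f i) = t.r i (f i) - 1 := fun i => by unfold xi; rw [hk]
    have hP1 : (∏ i, hwk B (t.r i (f i))) = ∏ i, t.r i (f i) := Finset.prod_congr rfl fun i _ => hk i
    have hP : ∏ i, t.r i (f i) = t.r 0 (f 0) * t.r 1 (f 1) * t.r 2 (f 2) := Fin.prod_univ_three _
    have hS : ∑ i, t.xi B i (f i) = (t.r 0 (f 0) + t.r 1 (f 1) + t.r 2 (f 2)) - 3 := by
      rw [Fin.sum_univ_three, hx, hx, hx]
      ring
    rw [hP1, hS, hP]
    by_cases hD : t.RP B e3 E f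
    · rw [ind_of hD]
      obtain ⟨_, i, k, hik, hs, _⟩ := hD
      have k01 := cut_num (hr 0) (hr 1) (hr 2)
      have k02 := cut_num (hr 0) (hr 2) (hr 1)
      have k12 := cut_num (hr 1) (hr 2) (hr 0)
      have n01 := le_max_right (1 - t.r 0 (f 0) * t.r 1 (f 1)) 0
      have n02 := le_max_right (1 - t.r 0 (f 0) * t.r 2 (f 2)) 0
      have n12 := le_max_right (1 - t.r 1 (f 1) * t.r 2 (f 2)) 0
      have key : ∀ (h : Prop) (a b c d : ℝ), 0 ≤ ind h * ((1 + B) * max (1 - a * b) 0 + (B + 2) * e3) +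
          ind (¬ h) * (|c| * |d|) := fun h a b c d => by
        have := le_max_right (1 - a * b) 0
        have := ind_nonneg h
        have := ind_nonneg (¬ h)
        positivity
      have key2 : ∀ (h : Prop) (a b c d : ℝ), h → 2 * max (1 - a * b) 0 ≤
          ind h * ((1 + B) * max (1 - a * b) 0 + (B + 2) * e3) + ind (¬ h) * (|c| * |d|) := fun h a b c d hh => by
        rw [ind_of hh, ind_not (not_not.2 hh), zero_mul, add_zero, one_mul]
        have := le_max_right (1 - a * b) 0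
        nlinarith [mul_nonneg (show 0 ≤ B - 1 by linarith) this, mul_nonneg (show 0 ≤ B + 2 by linarith) he3]
      unfold bp
      have q01 := key (t.shp E 0 1 (f 0) (f 1)) (t.r 0 (f 0)) (t.r 1 (f 1)) (t.xi B 0 (f 0)) (t.xi B 1 (f 1))
      have q02 := key (t.shp E 0 2 (f 0) (f 2)) (t.r 0 (f 0)) (t.r 2 (f 2)) (t.xi B 0 (f 0)) (t.xi B 2 (f 2))
      have q12 := key (t.shp E 1 2 (f 1) (f 2)) (t.r 1 (f 1)) (t.r 2 (f 2)) (t.xi B 1 (f 1)) (t.xi B 2 (f 2))
      rcases hh with c | c | c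
      · have := key2 _ (t.r 0 (f 0)) (t.r 1 (f 1)) (t.xi B 0 (f 0)) (t.xi B 1 (f 1)) c
        linarith
      · have := key2 _ (t.r 0 (f 0)) (t.r 2 (f 2)) (t.xi B 0 (f 0)) (t.xi B 2 (f 2)) c
        linarith
      · have := key2 _ (t.r 1 (f 1)) (t.r 2 (f 2)) (t.xi B 1 (f 1)) (t.xi B 2 (f 2)) c
        linarith
    · rw [ind_not hD]
      have hnr : ∀ i k, i ≠ k → t.shp E i k (f i) (f k) → t.r i (f i) ≤ 1 + e3 := by
        intro i k hik hs
        by_contra hc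
        exact hD ⟨hw, i, k, hik, hs, not_le.1 hc⟩
      have o := off_num (h01 := t.shp E 0 1 (f 0) (f 1)) (h02 := t.shp E 0 2 (f 0) (f 2)) (h12 := t.shp E 1 2 (f 1) (f 2))
        hB (hr 0) (hr 1) (hr 2) he3 he31 (hw 0) (hw 1) (hw 2)
        (fun c => ⟨hnr 0 1 (by decide) c, hnr 1 0 (by decide) (t.shp_symm c)⟩)
        (fun c => ⟨hnr 0 2 (by decide) c, hnr 2 0 (by decide) (t.shp_symm c)⟩)
        (fun c => ⟨hnr 1 2 (by decide) c, hnr 2 1 (by decide) (t.shp_symm c)⟩) hh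
      unfold bp
      rw [hx 0, hx 1, hx 2]
      linarith
  · have hD : ¬ t.RP B e3 E f := fun h => hw h.1
    rw [ind_not hD, zero_mul, sub_zero]
    push Not at hw
    obtain ⟨i, hi⟩ := hw
    rw [t.prod_hwk_strong ⟨i, hi⟩]
    have h1 : (1 : ℝ) ≤ ∑ i, ind (B < t.r i (f i)) := by
      have := Finset.single_le_sum (f := fun i => ind (B < t.r i (f i))) (fun j _ => ind_nonneg _) (mem_univ i)
      rw [ind_of hi] at this
      exact this
    have h2 : -∑ i, t.xi B i (f i) ≤ 3 := by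
      have h3 : ∀ i, -1 ≤ t.xi B i (f i) := fun i => by
        unfold xi
        have := hwk_nonneg (B := B) (hr i)
        linarith
      rw [Fin.sum_univ_three]
      linarith [h3 0, h3 1, h3 2]
    linarith

/-- **THE WEAK PART AT A THIN STRONG POINT, PAIRS** -/
theorem ss_pair_le (hB : 1 ≤ B) (he3 : 0 ≤ e3) (he31 : e3 ≤ 1) (hE : 1 ≤ E) (ha0 : 0 ≤ a0)
    (hG : ∀ F ∈ Fintype.piFinset S, ¬ Reg F → G F = t.p F / t.pq F) (hGR : ∀ F ∈ Fintype.piFinset S, Reg F → G F ≤ 1)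
    (hReg : ∀ F ∈ Fintype.piFinset S, (¬ ∃ i, B < t.r i (F i)) → (Reg F ↔ t.RP B e3 E F))
    (hap : ∀ F, 0 ≤ a F) (ha : ∀ F ∈ Fintype.piFinset S, (¬ ∃ i, B < t.r i (F i)) → ¬ Reg F → a F = a0) :
    ∑ F ∈ Fintype.piFinset S, ind (¬ ∃ i, B < t.r i (F i)) * ((∏ i, t.q' i (F i)) * (a F * (G F - 1))) ≤
      a0 * (∑ i, t.ph B i +
        (1 + B) * (Real.sqrt (t.tv * ((E + 1) * (t.gg B 0 * t.gg B 1))) +
          Real.sqrt (t.tv * ((E + 1) * (t.gg B 0 * t.gg B 2))) + Real.sqrt (t.tv * ((E + 1) * (t.gg B 1 * t.gg B 2)))) +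
        (2 + B) * (Real.sqrt (3 / E * (t.gg B 0 * t.gg B 1)) + Real.sqrt (3 / E * (t.gg B 0 * t.gg B 2)) +
          Real.sqrt (3 / E * (t.gg B 1 * t.gg B 2))) +
        (1 + B) * (t.KP E 0 1 + t.KP E 0 2 + t.KP E 1 2) + (B + 2) * e3 * (t.MP E 0 1 + t.MP E 0 2 + t.MP E 1 2) +
        2 * B ^ 3 / E * ∑ i, t.RI B e3 i + 2 * ∑ i, ∑ x ∈ S i, t.mg i x * ind (B < t.r i x)) := by
  have hB0 : (0 : ℝ) ≤ B := by linarith
  have hE0 : (0 : ℝ) < E := by linarith
  -- one tuple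
  have s1 : ∀ f ∈ Fintype.piFinset S, ind (¬ ∃ i, B < t.r i (f i)) * ((∏ i, t.q' i (f i)) * (a f * (G f - 1))) ≤
      a0 * ((t.p f - t.pq f) * ((∏ i, hwk B (t.r i (f i))) - ind (t.RP B e3 E f) * ∏ i, t.r i (f i))) := by
    intro f hf
    by_cases hs : ∃ i, B < t.r i (f i)
    · have hD' : ¬ t.RP B e3 E f := fun h => by
        obtain ⟨i, hi⟩ := hs
        exact absurd (h.1 i) (not_le.2 hi)
      rw [ind_not (not_not.2 hs), t.prod_hwk_strong hs, ind_not hD']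
      simp
    · rw [ind_of hs, t.prod_hwk_weak hs, one_mul]
      by_cases hR : Reg f
      · rw [ind_of ((hReg f hf hs).1 hR), one_mul, sub_self, mul_zero, mul_zero]
        have h1 : 0 ≤ ∏ i, t.q' i (f i) := t.pq'_nn hf
        exact mul_nonpos_of_nonneg_of_nonpos h1 (mul_nonpos_of_nonneg_of_nonpos (hap f) (by
          have := hGR f hf hR
          linarith))
      · rw [ind_not (fun h => hR ((hReg f hf hs).2 h)), zero_mul, sub_zero, ha f hf hs hR]
        have h1 := t.term_off hf (hG f hf hR)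
        calc (∏ i, t.q' i (f i)) * (a0 * (G f - 1)) = a0 * ((∏ i, t.q' i (f i)) * (G f - 1)) := by ring
          _ = a0 * ((∏ i, t.r i (f i)) * (t.p f - t.pq f)) := by rw [h1]
          _ ≤ _ := le_of_eq (by ring)
  refine (Finset.sum_le_sum s1).trans ?_
  rw [← Finset.mul_sum]
  refine mul_le_mul_of_nonneg_left ?_ ha0
  -- expansion
  set R : (Fin 3 → φ) → ℝ := fun f => (∏ i, hwk B (t.r i (f i))) - 1 - ∑ i, t.xi B i (f i) with hRdef
  have e0 : ∑ f ∈ Fintype.piFinset S, (t.p f - t.pq f) = 0 := by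
    rw [Finset.sum_sub_distrib, t.p_one]
    have h := t.sum_q_one (0 : Fin 3) (fun _ => (1 : ℝ))
    simp only [mul_one] at h
    rw [h, t.q_one 0, sub_self]
  have e1 : ∀ i, ∑ f ∈ Fintype.piFinset S, (t.p f - t.pq f) * t.xi B i (f i) = t.ph B i := fun i =>
    t.sum_diff_one i (fun x => t.xi B i x)
  have e2 : ∑ f ∈ Fintype.piFinset S, (t.p f - t.pq f) * ((∏ i, hwk B (t.r i (f i))) -
      ind (t.RP B e3 E f) * ∏ i, t.r i (f i)) = ∑ i, t.ph B i + ∑ f ∈ Fintype.piFinset S, (t.p f - t.pq f) *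
        (R f - ind (t.RP B e3 E f) * ∏ i, t.r i (f i)) := by
    have h1 : ∀ f, (t.p f - t.pq f) * ((∏ i, hwk B (t.r i (f i))) - ind (t.RP B e3 E f) * ∏ i, t.r i (f i)) =
        (t.p f - t.pq f) + ∑ i, (t.p f - t.pq f) * t.xi B i (f i) + (t.p f - t.pq f) *
        (R f - ind (t.RP B e3 E f) * ∏ i, t.r i (f i)) := by
      intro f
      simp only [hRdef]
      rw [← Finset.mul_sum]
      ring
    simp only [h1]
    rw [Finset.sum_add_distrib, Finset.sum_add_distrib, e0, zero_add, Finset.sum_comm]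
    simp only [e1]
  rw [e2]
  have hRabs : ∀ f ∈ Fintype.piFinset S, |R f| ≤ (1 + B) * (|t.xi B 0 (f 0)| * |t.xi B 1 (f 1)| +
      |t.xi B 0 (f 0)| * |t.xi B 2 (f 2)| + |t.xi B 1 (f 1)| * |t.xi B 2 (f 2)|) := by
    intro f hf
    have h2 := R_abs_le (a := t.xi B 0 (f 0)) (b := t.xi B 1 (f 1)) hB0 (t.abs_xi_le hB (Fintype.mem_piFinset.1 hf 2))
    have h3 : R f = (1 + t.xi B 0 (f 0)) * (1 + t.xi B 1 (f 1)) * (1 + t.xi B 2 (f 2)) - 1 -
        (t.xi B 0 (f 0) + t.xi B 1 (f 1) + t.xi B 2 (f 2)) := by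
      simp only [hRdef]
      rw [Fin.prod_univ_three, Fin.sum_univ_three]
      unfold xi
      ring
    rw [h3]
    exact h2
  -- one tuple again
  have s2 : ∀ f ∈ Fintype.piFinset S, (t.p f - t.pq f) * (R f - ind (t.RP B e3 E f) * ∏ i, t.r i (f i)) ≤
      (1 + B) * (|t.p f - t.pq f| * (ind (¬ t.shp E 0 1 (f 0) (f 1)) * (|t.xi B 0 (f 0)| * |t.xi B 1 (f 1)|)) +
        |t.p f - t.pq f| * (ind (¬ t.shp E 0 2 (f 0) (f 2)) * (|t.xi B 0 (f 0)| * |t.xi B 2 (f 2)|)) +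
        |t.p f - t.pq f| * (ind (¬ t.shp E 1 2 (f 1) (f 2)) * (|t.xi B 1 (f 1)| * |t.xi B 2 (f 2)|))) +
      (2 + B) * (t.pq f * (ind (t.ash E f) * (|t.xi B 0 (f 0)| * |t.xi B 1 (f 1)|)) +
        t.pq f * (ind (t.ash E f) * (|t.xi B 0 (f 0)| * |t.xi B 2 (f 2)|)) +
        t.pq f * (ind (t.ash E f) * (|t.xi B 1 (f 1)| * |t.xi B 2 (f 2)|))) +
      (1 + B) * (t.p f * (ind (t.shp E 0 1 (f 0) (f 1)) * max (1 - t.r 0 (f 0) * t.r 1 (f 1)) 0) +
        t.p f * (ind (t.shp E 0 2 (f 0) (f 2)) * max (1 - t.r 0 (f 0) * t.r 2 (f 2)) 0) +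
        t.p f * (ind (t.shp E 1 2 (f 1) (f 2)) * max (1 - t.r 1 (f 1) * t.r 2 (f 2)) 0)) +
      (B + 2) * e3 * (t.p f * ind (t.shp E 0 1 (f 0) (f 1)) + t.p f * ind (t.shp E 0 2 (f 0) (f 2)) +
        t.p f * ind (t.shp E 1 2 (f 1) (f 2))) +
      ind (t.RP B e3 E f) * (t.pq f * ∏ i, t.r i (f i)) + 2 * ∑ i, t.p f * ind (B < t.r i (f i)) := by
    intro f hf
    have hp := t.p_nn f hf
    have hq := t.pq_nn hf
    have hab := abs_nonneg (t.p f - t.pq f)
    have hRa := hRabs f hf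
    have m01 := le_max_right (1 - t.r 0 (f 0) * t.r 1 (f 1)) 0
    have m02 := le_max_right (1 - t.r 0 (f 0) * t.r 2 (f 2)) 0
    have m12 := le_max_right (1 - t.r 1 (f 1) * t.r 2 (f 2)) 0
    have x01 : 0 ≤ |t.xi B 0 (f 0)| * |t.xi B 1 (f 1)| := mul_nonneg (abs_nonneg _) (abs_nonneg _)
    have x02 : 0 ≤ |t.xi B 0 (f 0)| * |t.xi B 2 (f 2)| := mul_nonneg (abs_nonneg _) (abs_nonneg _)
    have x12 : 0 ≤ |t.xi B 1 (f 1)| * |t.xi B 2 (f 2)| := mul_nonneg (abs_nonneg _) (abs_nonneg _)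
    have i01 := ind_nonneg (t.shp E 0 1 (f 0) (f 1))
    have i02 := ind_nonneg (t.shp E 0 2 (f 0) (f 2))
    have i12 := ind_nonneg (t.shp E 1 2 (f 1) (f 2))
    have ps : 0 ≤ ∑ i, ind (B < t.r i (f i)) := Finset.sum_nonneg fun _ _ => ind_nonneg _
    have rpn : 0 ≤ ind (t.RP B e3 E f) * (t.pq f * ∏ i, t.r i (f i)) :=
      mul_nonneg (ind_nonneg _) (mul_nonneg hq (t.pr_nn hf))
    rw [← Finset.mul_sum]
    by_cases hh : t.ash E f
    · rw [ind_of hh]
      have k1 := t.hot_pt hB he3 he31 hf hh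
      have k2 := mul_le_mul_of_nonneg_left k1 hp
      have k3 : -(t.pq f * R f) ≤ t.pq f * |R f| := by
        have := mul_le_mul_of_nonneg_left (neg_abs_le (R f)) hq
        linarith
      have k4 := mul_le_mul_of_nonneg_left hRa hq
      have k5 : (t.p f - t.pq f) * (R f - ind (t.RP B e3 E f) * ∏ i, t.r i (f i)) =
          t.p f * ((∏ i, hwk B (t.r i (f i))) - 1 - ∑ i, t.xi B i (f i) - ind (t.RP B e3 E f) * ∏ i, t.r i (f i)) -
            t.pq f * R f + ind (t.RP B e3 E f) * (t.pq f * ∏ i, t.r i (f i)) := by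
        simp only [hRdef]
        ring
      rw [k5]
      -- `p` times the nonhot terms
      have kp : ∀ (h : Prop) (u : ℝ), 0 ≤ u → t.p f * (ind (¬ h) * u) ≤ |t.p f - t.pq f| * (ind (¬ h) * u) + t.pq f * u := by
        intro h u hu
        have a1 : t.p f ≤ |t.p f - t.pq f| + t.pq f := by
          have := le_abs_self (t.p f - t.pq f)
          linarith
        have a2 := mul_le_mul_of_nonneg_right a1 (mul_nonneg (ind_nonneg (¬ h)) hu)
        have a3 : t.pq f * (ind (¬ h) * u) ≤ t.pq f * u :=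
          mul_le_mul_of_nonneg_left (mul_le_of_le_one_left hu (ind_le_one _)) hq
        linarith
      have p01 := kp (t.shp E 0 1 (f 0) (f 1)) _ x01
      have p02 := kp (t.shp E 0 2 (f 0) (f 2)) _ x02
      have p12 := kp (t.shp E 1 2 (f 1) (f 2)) _ x12
      have n01 : 0 ≤ |t.p f - t.pq f| * (ind (¬ t.shp E 0 1 (f 0) (f 1)) * (|t.xi B 0 (f 0)| * |t.xi B 1 (f 1)|)) :=
        mul_nonneg hab (mul_nonneg (ind_nonneg _) x01)
      have n02 : 0 ≤ |t.p f - t.pq f| * (ind (¬ t.shp E 0 2 (f 0) (f 2)) * (|t.xi B 0 (f 0)| * |t.xi B 2 (f 2)|)) :=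
        mul_nonneg hab (mul_nonneg (ind_nonneg _) x02)
      have n12 : 0 ≤ |t.p f - t.pq f| * (ind (¬ t.shp E 1 2 (f 1) (f 2)) * (|t.xi B 1 (f 1)| * |t.xi B 2 (f 2)|)) :=
        mul_nonneg hab (mul_nonneg (ind_nonneg _) x12)
      have hbp : t.p f * t.bp B e3 E f =
          (1 + B) * (t.p f * (ind (t.shp E 0 1 (f 0) (f 1)) * max (1 - t.r 0 (f 0) * t.r 1 (f 1)) 0) +
        t.p f * (ind (t.shp E 0 2 (f 0) (f 2)) * max (1 - t.r 0 (f 0) * t.r 2 (f 2)) 0) +
        t.p f * (ind (t.shp E 1 2 (f 1) (f 2)) * max (1 - t.r 1 (f 1) * t.r 2 (f 2)) 0)) +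
      (B + 2) * e3 * (t.p f * ind (t.shp E 0 1 (f 0) (f 1)) + t.p f * ind (t.shp E 0 2 (f 0) (f 2)) +
        t.p f * ind (t.shp E 1 2 (f 1) (f 2))) +
        (t.p f * (ind (¬ t.shp E 0 1 (f 0) (f 1)) * (|t.xi B 0 (f 0)| * |t.xi B 1 (f 1)|)) +
          t.p f * (ind (¬ t.shp E 0 2 (f 0) (f 2)) * (|t.xi B 0 (f 0)| * |t.xi B 2 (f 2)|)) +
          t.p f * (ind (¬ t.shp E 1 2 (f 1) (f 2)) * (|t.xi B 1 (f 1)| * |t.xi B 2 (f 2)|))) := by
        unfold bp
        ring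
      rw [mul_add, hbp] at k2
      have b01 := mul_nonneg hB0 n01
      have b02 := mul_nonneg hB0 n02
      have b12 := mul_nonneg hB0 n12
      have q01 := mul_nonneg hq x01
      have q02 := mul_nonneg hq x02
      have q12 := mul_nonneg hq x12
      simp only [one_mul]
      have k6 : t.pq f * ((1 + B) * (|t.xi B 0 (f 0)| * |t.xi B 1 (f 1)| + |t.xi B 0 (f 0)| * |t.xi B 2 (f 2)| +
          |t.xi B 1 (f 1)| * |t.xi B 2 (f 2)|)) = (1 + B) * (t.pq f * (|t.xi B 0 (f 0)| * |t.xi B 1 (f 1)|) +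
          t.pq f * (|t.xi B 0 (f 0)| * |t.xi B 2 (f 2)|) + t.pq f * (|t.xi B 1 (f 1)| * |t.xi B 2 (f 2)|)) := by ring
      rw [k6] at k4
      linarith
    · have hD' : ¬ t.RP B e3 E f := fun h => by
        obtain ⟨_, i, k, hik, hs, _⟩ := h
        exact hh (t.ash_of hik hs)
      have h01 : ¬ t.shp E 0 1 (f 0) (f 1) := fun h => hh (Or.inl h)
      have h02 : ¬ t.shp E 0 2 (f 0) (f 2) := fun h => hh (Or.inr (Or.inl h))
      have h12 : ¬ t.shp E 1 2 (f 1) (f 2) := fun h => hh (Or.inr (Or.inr h))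
      rw [ind_not hh, ind_not hD', ind_of h01, ind_of h02, ind_of h12, ind_not h01, ind_not h02, ind_not h12]
      have h4 : (t.p f - t.pq f) * R f ≤ |t.p f - t.pq f| * |R f| := (le_abs_self _).trans (le_of_eq (abs_mul _ _))
      have h5 := mul_le_mul_of_nonneg_left hRa hab
      have h6 : |t.p f - t.pq f| * ((1 + B) * (|t.xi B 0 (f 0)| * |t.xi B 1 (f 1)| + |t.xi B 0 (f 0)| * |t.xi B 2 (f 2)| +
          |t.xi B 1 (f 1)| * |t.xi B 2 (f 2)|)) = (1 + B) * (|t.p f - t.pq f| * (|t.xi B 0 (f 0)| * |t.xi B 1 (f 1)|) +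
          |t.p f - t.pq f| * (|t.xi B 0 (f 0)| * |t.xi B 2 (f 2)|) +
          |t.p f - t.pq f| * (|t.xi B 1 (f 1)| * |t.xi B 2 (f 2)|)) := by ring
      rw [h6] at h5
      have hps := mul_nonneg hp ps
      simp only [zero_mul, mul_zero, sub_zero, one_mul, add_zero]
      linarith
  have s3 := Finset.sum_le_sum s2
  simp only [Finset.sum_add_distrib, ← Finset.mul_sum] at s3
  have c01 := t.cs_nonhot (show (0 : Fin 3) ≠ 1 by decide) B hE
  have c02 := t.cs_nonhot (show (0 : Fin 3) ≠ 2 by decide) B hE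
  have c12 := t.cs_nonhot (show (1 : Fin 3) ≠ 2 by decide) B hE
  have d01 := t.cs_ash (show (0 : Fin 3) ≠ 1 by decide) B hE0
  have d02 := t.cs_ash (show (0 : Fin 3) ≠ 2 by decide) B hE0
  have d12 := t.cs_ash (show (1 : Fin 3) ≠ 2 by decide) B hE0
  have s4 := mul_le_mul_of_nonneg_left (add_le_add (add_le_add c01 c02) c12) (show 0 ≤ 1 + B by linarith)
  have s5 := mul_le_mul_of_nonneg_left (add_le_add (add_le_add d01 d02) d12) (show 0 ≤ 2 + B by linarith)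
  have rp := t.rp_sum (e3 := e3) hB hE0
  have e5 : ∑ f ∈ Fintype.piFinset S, ∑ i, t.p f * ind (B < t.r i (f i)) = ∑ i, ∑ x ∈ S i, t.mg i x * ind (B < t.r i x) := by
    rw [Finset.sum_comm]
    exact Finset.sum_congr rfl fun i _ => t.sum_mg i (fun x => ind (B < t.r i x))
  have e6 : ∀ i k, ∑ f ∈ Fintype.piFinset S, t.p f * (ind (t.shp E i k (f i) (f k)) * max (1 - t.r i (f i) * t.r k (f k)) 0) =
      t.KP E i k := fun i k => t.sum_p_fib i k (fun x y => ind (t.shp E i k x y) * max (1 - t.r i x * t.r k y) 0)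
  have e7 : ∀ i k, ∑ f ∈ Fintype.piFinset S, t.p f * ind (t.shp E i k (f i) (f k)) = t.MP E i k := fun i k =>
    t.sum_p_fib i k (fun x y => ind (t.shp E i k x y))
  have e8 : ∑ f ∈ Fintype.piFinset S, t.p f * ∑ i, ind (B < t.r i (f i)) =
      ∑ f ∈ Fintype.piFinset S, ∑ i, t.p f * ind (B < t.r i (f i)) :=
    Finset.sum_congr rfl fun f _ => Finset.mul_sum _ _ _
  first
    | rw [e6 0 1, e6 0 2, e6 1 2, e7 0 1, e7 0 2, e7 1 2, e5] at s3
    | rw [e6 0 1, e6 0 2, e6 1 2, e7 0 1, e7 0 2, e7 1 2, e8, e5] at s3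
  linarith

end KT

end

end Pool.Agent.GMH
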