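import Pool.Agent.GMH.SsP3

/-!
# GMH/SsP4: the weak part at a thin strong point, superhot pairs with TWO rising letters cut (helper79)

Region `RP2` : weak tuple, some superhot pair `(i, k)` (`E q_i q_k < m_ik`) with `1 + e3 < r_i` and `1 + e3 < r_k`.  A cut
tuple has value `2 - sum r <= 0`.  `T i k` : the pairs which are treated by kills; the other superhot pairs are left in
absolute value.
* `KT.ss_pair_le2` : one table; kills are PRODUCTS `KQ = sum_(superhot) m2 (1 - r_i)^+ (1 - r_k)^+`, only for the pairs in `T`.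
-/

set_option autoImplicit false
set_option linter.unusedSectionVars false
set_option linter.unusedVariables false

namespace Pool.Agent.GMH

open Finset Pool.Agent.PWZ Pool.Agent.M3

noncomputable section

/-! ### numbers -/

/-- product of the falls -/
def fal (x y : ℝ) : ℝ := max (1 - x) 0 * max (1 - y) 0

theorem fal_nn (x y : ℝ) : 0 ≤ fal x y := mul_nonneg (le_max_right _ _) (le_max_right _ _)

theorem pair_num2 {x y e B : ℝ} (hB : 1 ≤ B) (hx : 0 ≤ x) (hy : 0 ≤ y) (he : 0 ≤ e) (hxB : x ≤ B) (hyB : y ≤ B)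
    (hr : ¬ (1 + e < x ∧ 1 + e < y)) : (x - 1) * (y - 1) ≤ fal x y + B * e := by
  have hBe : 0 ≤ B * e := mul_nonneg (by linarith) he
  have f0 := fal_nn x y
  rcases le_total x 1 with a | a
  · rcases le_total y 1 with b | b
    · have h1 : fal x y = (1 - x) * (1 - y) := by
        unfold fal
        rw [max_eq_left (by linarith), max_eq_left (by linarith)]
      rw [h1]
      nlinarith
    · nlinarith [mul_nonneg (sub_nonneg.2 a) (sub_nonneg.2 b)]
  · rcases le_total y 1 with b | b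
    · nlinarith [mul_nonneg (sub_nonneg.2 a) (sub_nonneg.2 b)]
    · by_cases h : 1 + e < x
      · have hy1 : y ≤ 1 + e := not_lt.1 fun h2 => hr ⟨h, h2⟩
        have h3 : (x - 1) * (y - 1) ≤ B * e := mul_le_mul (by linarith) (by linarith) (by linarith) (by linarith)
        linarith
      · have hx1 : x ≤ 1 + e := not_lt.1 h
        have h3 : (x - 1) * (y - 1) ≤ e * B := mul_le_mul (by linarith) (by linarith) (by linarith) he
        nlinarith

/-- the triple product, all letters at least `1` -/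
theorem trip_up {x y z e B : ℝ} (hB : 1 ≤ B) (he : 0 ≤ e) (hxB : x ≤ B) (hyB : y ≤ B) (hzB : z ≤ B) (hx : 1 ≤ x)
    (hy : 1 ≤ y) (hz : 1 ≤ z) (hr : ¬ (1 + e < x ∧ 1 + e < y)) : (x - 1) * (y - 1) * (z - 1) ≤ B ^ 2 * e := by
  have h1 : (x - 1) * (y - 1) ≤ B * e := by
    by_cases h : 1 + e < x
    · have hy1 : y ≤ 1 + e := not_lt.1 fun h2 => hr ⟨h, h2⟩
      exact mul_le_mul (by linarith) (by linarith) (by linarith) (by linarith)
    · have hx1 : x ≤ 1 + e := not_lt.1 h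
      have h3 : (x - 1) * (y - 1) ≤ e * B := mul_le_mul (by linarith) (by linarith) (by linarith) he
      nlinarith
  have h2 : (x - 1) * (y - 1) * (z - 1) ≤ B * e * B :=
    mul_le_mul h1 (by linarith) (by linarith) (mul_nonneg (by linarith) he)
  nlinarith

/-- off the region: `h` = superhot, `g` = superhot and treated by kills -/
theorem off_num2 {x y z e B : ℝ} (hB : 1 ≤ B) (hx : 0 ≤ x) (hy : 0 ≤ y) (hz : 0 ≤ z) (he : 0 ≤ e)
    (hxB : x ≤ B) (hyB : y ≤ B) (hzB : z ≤ B) {h01 h02 h12 T01 T02 T12 : Prop} (h1 : h01 → ¬ (1 + e < x ∧ 1 + e < y))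
    (h2 : h02 → ¬ (1 + e < x ∧ 1 + e < z)) (h3 : h12 → ¬ (1 + e < y ∧ 1 + e < z)) (hh : h01 ∨ h02 ∨ h12) :
    x * y * z + 2 - (x + y + z) ≤
      (ind (h01 ∧ T01) * ((1 + B) * fal x y + (B + B ^ 2) * e) + ind (¬ (h01 ∧ T01)) * ((1 + B) * (|x - 1| * |y - 1|))) +
      (ind (h02 ∧ T02) * ((1 + B) * fal x z + (B + B ^ 2) * e) + ind (¬ (h02 ∧ T02)) * ((1 + B) * (|x - 1| * |z - 1|))) +
      (ind (h12 ∧ T12) * ((1 + B) * fal y z + (B + B ^ 2) * e) + ind (¬ (h12 ∧ T12)) * ((1 + B) * (|y - 1| * |z - 1|))) := by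
  have hB0 : 0 ≤ B := by linarith
  have e0 : x * y * z + 2 - (x + y + z) = (x - 1) * (y - 1) + (x - 1) * (z - 1) + (y - 1) * (z - 1) +
      (x - 1) * (y - 1) * (z - 1) := by ring
  have hBe : 0 ≤ B * e := mul_nonneg hB0 he
  have hB2e : 0 ≤ B ^ 2 * e := by positivity
  -- the pair part of one pair
  have k1 : ∀ (h T : Prop) (a b : ℝ), 0 ≤ a → 0 ≤ b → a ≤ B → b ≤ B → (h → ¬ (1 + e < a ∧ 1 + e < b)) →
      (a - 1) * (b - 1) ≤ ind (h ∧ T) * (fal a b + B * e) + ind (¬ (h ∧ T)) * (|a - 1| * |b - 1|) := by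
    intro h T a b ha hb haB hbB hk
    by_cases hc : h ∧ T
    · rw [ind_of hc, ind_not (not_not.2 hc)]
      have := pair_num2 hB ha hb he haB hbB (hk hc.1)
      linarith
    · rw [ind_not hc, ind_of hc, zero_mul, zero_add, one_mul, ← abs_mul]
      exact le_abs_self _
  -- the triple part which goes to one pair
  have k2 : ∀ (h T : Prop) (a b c : ℝ), 0 ≤ c → c ≤ B → a ≤ 1 → b ≤ 1 → 1 ≤ c →
      (a - 1) * (b - 1) * (c - 1) ≤ ind (h ∧ T) * (B * fal a b + B ^ 2 * e) + ind (¬ (h ∧ T)) * (B * (|a - 1| * |b - 1|)) := by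
    intro h T a b c hc0 hcB ha hb hc1
    have h5 : 0 ≤ (a - 1) * (b - 1) := mul_nonneg_of_nonpos_of_nonpos (by linarith) (by linarith)
    have h6 : (a - 1) * (b - 1) * (c - 1) ≤ (a - 1) * (b - 1) * B := mul_le_mul_of_nonneg_left (by linarith) h5
    have h7 : fal a b = (a - 1) * (b - 1) := by
      unfold fal
      rw [max_eq_left (by linarith), max_eq_left (by linarith)]
      ring
    have h8 : |a - 1| * |b - 1| = (a - 1) * (b - 1) := by rw [← abs_mul, abs_of_nonneg h5]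
    rw [h7, h8]
    by_cases hg : h ∧ T
    · rw [ind_of hg, ind_not (not_not.2 hg)]
      linarith
    · rw [ind_not hg, ind_of hg]
      linarith
  have k3 : ∀ (h T : Prop) (a b c : ℝ), a ≤ B → b ≤ B → c ≤ B → 1 ≤ a → 1 ≤ b → 1 ≤ c → h →
      (h → ¬ (1 + e < a ∧ 1 + e < b)) →
      (a - 1) * (b - 1) * (c - 1) ≤ ind (h ∧ T) * (B * fal a b + B ^ 2 * e) + ind (¬ (h ∧ T)) * (B * (|a - 1| * |b - 1|)) := by
    intro h T a b c haB hbB hcB ha hb hc hh' hk
    by_cases hg : h ∧ T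
    · rw [ind_of hg, ind_not (not_not.2 hg)]
      have := trip_up hB he haB hbB hcB ha hb hc (hk hg.1)
      have := mul_nonneg hB0 (fal_nn a b)
      linarith
    · rw [ind_not hg, ind_of hg]
      have h5 : 0 ≤ (a - 1) * (b - 1) := mul_nonneg (by linarith) (by linarith)
      have h6 : (a - 1) * (b - 1) * (c - 1) ≤ (a - 1) * (b - 1) * B := mul_le_mul_of_nonneg_left (by linarith) h5
      have h8 : |a - 1| * |b - 1| = (a - 1) * (b - 1) := by rw [← abs_mul, abs_of_nonneg h5]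
      rw [h8]
      linarith
  -- the part of a pair is nonnegative
  have k4 : ∀ (h T : Prop) (a b : ℝ), 0 ≤ ind (h ∧ T) * (B * fal a b + B ^ 2 * e) +
      ind (¬ (h ∧ T)) * (B * (|a - 1| * |b - 1|)) := fun h T a b => by
    have := fal_nn a b
    have := ind_nonneg (h ∧ T)
    have := ind_nonneg (¬ (h ∧ T))
    positivity
  have a1 := k1 h01 T01 x y hx hy hxB hyB h1
  have a2 := k1 h02 T02 x z hx hz hxB hzB h2
  have a3 := k1 h12 T12 y z hy hz hyB hzB h3
  have n1 := k4 h01 T01 x y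
  have n2 := k4 h02 T02 x z
  have n3 := k4 h12 T12 y z
  -- the triple product
  have tp : (x - 1) * (y - 1) * (z - 1) ≤
      (ind (h01 ∧ T01) * (B * fal x y + B ^ 2 * e) + ind (¬ (h01 ∧ T01)) * (B * (|x - 1| * |y - 1|))) +
      (ind (h02 ∧ T02) * (B * fal x z + B ^ 2 * e) + ind (¬ (h02 ∧ T02)) * (B * (|x - 1| * |z - 1|))) +
      (ind (h12 ∧ T12) * (B * fal y z + B ^ 2 * e) + ind (¬ (h12 ∧ T12)) * (B * (|y - 1| * |z - 1|))) := by
    have s1 : (x - 1) * (z - 1) * (y - 1) = (x - 1) * (y - 1) * (z - 1) := by ring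
    have s2 : (y - 1) * (z - 1) * (x - 1) = (x - 1) * (y - 1) * (z - 1) := by ring
    rcases le_total x 1 with ax | ax
    · rcases le_total y 1 with ay | ay
      · rcases le_total z 1 with az | az
        · have : (x - 1) * (y - 1) * (z - 1) ≤ 0 := mul_nonpos_of_nonneg_of_nonpos
            (mul_nonneg_of_nonpos_of_nonpos (by linarith) (by linarith)) (by linarith)
          linarith
        · have := k2 h01 T01 x y z hz hzB ax ay az
          linarith
      · rcases le_total z 1 with az | az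
        · have := k2 h02 T02 x z y hy hyB ax az ay
          rw [s1] at this
          linarith
        · have : (x - 1) * (y - 1) * (z - 1) ≤ 0 := by
            have h5 : 0 ≤ (y - 1) * (z - 1) := mul_nonneg (by linarith) (by linarith)
            nlinarith
          linarith
    · rcases le_total y 1 with ay | ay
      · rcases le_total z 1 with az | az
        · have := k2 h12 T12 y z x hx hxB ay az ax
          rw [s2] at this
          linarith
        · have : (x - 1) * (y - 1) * (z - 1) ≤ 0 := by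
            have h5 : 0 ≤ (x - 1) * (z - 1) := mul_nonneg (by linarith) (by linarith)
            nlinarith
          linarith
      · rcases le_total z 1 with az | az
        · have : (x - 1) * (y - 1) * (z - 1) ≤ 0 := by
            have h5 : 0 ≤ (x - 1) * (y - 1) := mul_nonneg (by linarith) (by linarith)
            nlinarith
          linarith
        · rcases hh with c | c | c
          · have := k3 h01 T01 x y z hxB hyB hzB ax ay az c h1
            linarith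
          · have := k3 h02 T02 x z y hxB hzB hyB ax az ay c h2
            rw [s1] at this
            linarith
          · have := k3 h12 T12 y z x hyB hzB hxB ay az ax c h3
            rw [s2] at this
            linarith
  rw [e0]
  have f : ∀ (h T : Prop) (a b : ℝ), ind (h ∧ T) * ((1 + B) * fal a b + (B + B ^ 2) * e) + ind (¬ (h ∧ T)) *
      ((1 + B) * (|a - 1| * |b - 1|)) = (ind (h ∧ T) * (fal a b + B * e) + ind (¬ (h ∧ T)) * (|a - 1| * |b - 1|)) +
      (ind (h ∧ T) * (B * fal a b + B ^ 2 * e) + ind (¬ (h ∧ T)) * (B * (|a - 1| * |b - 1|))) := by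
    intro h T a b
    ring
  rw [f, f, f]
  linarith

namespace KT

variable {φ : Type*} {S : Fin 3 → Finset φ} (t : KT S)

/-- region: superhot pair, both letters rising -/
def RP2 (B e3 E : ℝ) (f : Fin 3 → φ) : Prop :=
  (∀ i, t.r i (f i) ≤ B) ∧ ∃ i k, i ≠ k ∧ t.shp E i k (f i) (f k) ∧ 1 + e3 < t.r i (f i) ∧ 1 + e3 < t.r k (f k)

theorem RP2_RP {B e3 E : ℝ} {f : Fin 3 → φ} (h : t.RP2 B e3 E f) : t.RP B e3 E f := by
  obtain ⟨h1, i, k, hik, hs, hr, _⟩ := h
  exact ⟨h1, i, k, hik, hs, hr⟩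

/-- products of the kills of the superhot pairs -/
def KQ (E : ℝ) (i k : Fin 3) : ℝ :=
  ∑ x ∈ S i, ∑ y ∈ S k, t.mg2 i k x y * (ind (t.shp E i k x y) * fal (t.r i x) (t.r k y))

theorem KQ_nn (E : ℝ) (i k : Fin 3) : 0 ≤ t.KQ E i k := Finset.sum_nonneg fun x _ => Finset.sum_nonneg fun y _ =>
  mul_nonneg (t.mg2_nn i k x y) (mul_nonneg (ind_nonneg _) (fal_nn _ _))

/-- superhot pairs in absolute value -/
def AQ2 (B E : ℝ) (i k : Fin 3) : ℝ :=
  ∑ x ∈ S i, ∑ y ∈ S k, t.mg2 i k x y * (ind (t.shp E i k x y) * (|t.xi B i x| * |t.xi B k y|))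

theorem AQ2_nn (B E : ℝ) (i k : Fin 3) : 0 ≤ t.AQ2 B E i k := Finset.sum_nonneg fun x _ => Finset.sum_nonneg fun y _ =>
  mul_nonneg (t.mg2_nn i k x y) (mul_nonneg (ind_nonneg _) (mul_nonneg (abs_nonneg _) (abs_nonneg _)))

/-- at most twice the difference -/
theorem AQ2_le {B E : ℝ} (hE : 2 ≤ E) (i k : Fin 3) : t.AQ2 B E i k ≤ 2 * t.PA B i k := by
  unfold AQ2 PA
  rw [Finset.mul_sum]
  refine Finset.sum_le_sum fun x hx => ?_
  rw [Finset.mul_sum]
  refine Finset.sum_le_sum fun y hy => ?_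
  have n0 : 0 ≤ |t.xi B i x| * |t.xi B k y| := mul_nonneg (abs_nonneg _) (abs_nonneg _)
  have n1 : 0 ≤ t.q i x * t.q k y := mul_nonneg (t.q_nn i x hx) (t.q_nn k y hy)
  by_cases h : t.shp E i k x y
  · rw [ind_of h, one_mul]
    have h1 : E * (t.q i x * t.q k y) < t.mg2 i k x y := h
    have h2 : t.mg2 i k x y ≤ 2 * |t.mg2 i k x y - t.q i x * t.q k y| := by
      have h3 := le_abs_self (t.mg2 i k x y - t.q i x * t.q k y)
      nlinarith [mul_le_mul_of_nonneg_right hE n1]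
    have h4 := mul_le_mul_of_nonneg_right h2 n0
    linarith
  · rw [ind_not h]
    have : 0 ≤ |t.mg2 i k x y - t.q i x * t.q k y| * (|t.xi B i x| * |t.xi B k y|) := mul_nonneg (abs_nonneg _) n0
    linarith

/-- bound of one tuple with a superhot pair, weight `p` -/
def bp2 (B e3 E : ℝ) (T : Fin 3 → Fin 3 → Prop) (f : Fin 3 → φ) : ℝ :=
  (ind (t.shp E 0 1 (f 0) (f 1) ∧ T 0 1) * ((1 + B) * fal (t.r 0 (f 0)) (t.r 1 (f 1)) + (B + B ^ 2) * e3) +
    ind (¬ (t.shp E 0 1 (f 0) (f 1) ∧ T 0 1)) * ((1 + B) * (|t.xi B 0 (f 0)| * |t.xi B 1 (f 1)|))) +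
  (ind (t.shp E 0 2 (f 0) (f 2) ∧ T 0 2) * ((1 + B) * fal (t.r 0 (f 0)) (t.r 2 (f 2)) + (B + B ^ 2) * e3) +
    ind (¬ (t.shp E 0 2 (f 0) (f 2) ∧ T 0 2)) * ((1 + B) * (|t.xi B 0 (f 0)| * |t.xi B 2 (f 2)|))) +
  (ind (t.shp E 1 2 (f 1) (f 2) ∧ T 1 2) * ((1 + B) * fal (t.r 1 (f 1)) (t.r 2 (f 2)) + (B + B ^ 2) * e3) +
    ind (¬ (t.shp E 1 2 (f 1) (f 2) ∧ T 1 2)) * ((1 + B) * (|t.xi B 1 (f 1)| * |t.xi B 2 (f 2)|)))

variable {T : Fin 3 → Fin 3 → Prop}

theorem bp2_nn {B e3 E : ℝ} (hB : 1 ≤ B) (he3 : 0 ≤ e3) (f : Fin 3 → φ) : 0 ≤ t.bp2 B e3 E T f := by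
  have key : ∀ (h : Prop) (a b c d : ℝ), 0 ≤ ind h * ((1 + B) * fal a b + (B + B ^ 2) * e3) +
      ind (¬ h) * ((1 + B) * (|c| * |d|)) := fun h a b c d => by
    have := fal_nn a b
    have := ind_nonneg h
    have := ind_nonneg (¬ h)
    positivity
  unfold bp2
  exact add_nonneg (add_nonneg (key _ _ _ _ _) (key _ _ _ _ _)) (key _ _ _ _ _)

variable {B e3 E a0 : ℝ} {Reg : (Fin 3 → φ) → Prop} {G a : (Fin 3 → φ) → ℝ}

/-- **one tuple with a superhot pair** -/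
theorem hot_pt2 (hB : 1 ≤ B) (he3 : 0 ≤ e3) {f : Fin 3 → φ} (hf : f ∈ Fintype.piFinset S)
    (hh : t.ash E f) :
    (∏ i, hwk B (t.r i (f i))) - 1 - ∑ i, t.xi B i (f i) - ind (t.RP2 B e3 E f) * ∏ i, t.r i (f i) ≤
      t.bp2 B e3 E T f + 2 * ∑ i, ind (B < t.r i (f i)) := by
  have hr : ∀ i, 0 ≤ t.r i (f i) := fun i => t.r_nn (Fintype.mem_piFinset.1 hf i)
  have hs0 : 0 ≤ 2 * ∑ i, ind (B < t.r i (f i)) := mul_nonneg (by norm_num) (Finset.sum_nonneg fun _ _ => ind_nonneg _)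
  have hb0 := t.bp2_nn (E := E) (T := T) hB he3 f
  by_cases hw : ∀ i, t.r i (f i) ≤ B
  · have hk : ∀ i, hwk B (t.r i (f i)) = t.r i (f i) := by
      intro i
      unfold hwk
      rw [ind_of (not_lt.2 (hw i)), one_mul]
    have hx : ∀ i, t.xi B i (f i) = t.r i (f i) - 1 := fun i => by unfold xi; rw [hk]
    have hP1 : (∏ i, hwk B (t.r i (f i))) = ∏ i, t.r i (f i) := Finset.prod_congr rfl fun i _ => hk i
    have hP : ∏ i, t.r i (f i) = t.r 0 (f 0) * t.r 1 (f 1) * t.r 2 (f 2) := Fin.prod_univ_three _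
    have hS : ∑ i, t.xi B i (f i) = (t.r 0 (f 0) + t.r 1 (f 1) + t.r 2 (f 2)) - 3 := by
      rw [Fin.sum_univ_three, hx, hx, hx]
      ring
    rw [hP1, hS, hP]
    by_cases hD : t.RP2 B e3 E f
    · rw [ind_of hD]
      obtain ⟨_, i, k, hik, _, hi, hk'⟩ := hD
      have h2 : 2 ≤ t.r 0 (f 0) + t.r 1 (f 1) + t.r 2 (f 2) := by
        have r0 := hr 0
        have r1 := hr 1
        have r2 := hr 2
        have h3 : ∑ j ∈ ({i, k} : Finset (Fin 3)), t.r j (f j) ≤ ∑ j, t.r j (f j) :=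
          Finset.sum_le_sum_of_subset_of_nonneg (Finset.subset_univ _) fun j _ _ => hr j
        rw [Finset.sum_pair hik, Fin.sum_univ_three] at h3
        linarith
      linarith
    · rw [ind_not hD]
      have hnr : ∀ i k, i ≠ k → t.shp E i k (f i) (f k) → ¬ (1 + e3 < t.r i (f i) ∧ 1 + e3 < t.r k (f k)) := by
        intro i k hik hs hc
        exact hD ⟨hw, i, k, hik, hs, hc.1, hc.2⟩
      have o := off_num2 (h01 := t.shp E 0 1 (f 0) (f 1)) (h02 := t.shp E 0 2 (f 0) (f 2)) (h12 := t.shp E 1 2 (f 1) (f 2))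
        (T01 := T 0 1) (T02 := T 0 2) (T12 := T 1 2)
        hB (hr 0) (hr 1) (hr 2) he3 (hw 0) (hw 1) (hw 2)
        (fun c => hnr 0 1 (by decide) c) (fun c => hnr 0 2 (by decide) c) (fun c => hnr 1 2 (by decide) c) hh
      unfold bp2
      rw [hx 0, hx 1, hx 2]
      linarith
  · have hD : ¬ t.RP2 B e3 E f := fun h => hw h.1
    rw [ind_not hD, zero_mul, sub_zero]
    push Not at hw
    obtain ⟨i, hi⟩ := hw
    rw [t.prod_hwk_strong ⟨i, hi⟩]
    have h1 : (1 : ℝ) ≤ ∑ i, ind (B < t.r i (f i)) := by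
      have := Finset.single_le_sum (f := fun i => ind (B < t.r i (f i))) (fun j _ => ind_nonneg _) (mem_univ i)
      rw [ind_of hi] at this
      exact this
    have h2 : -∑ i, t.xi B i (f i) ≤ 3 := by
      have h3 : ∀ i, -1 ≤ t.xi B i (f i) := fun i => by
        unfold xi
        have := hwk_nonneg (B := B) (hr i)
        linarith
      rw [Fin.sum_univ_three]
      linarith [h3 0, h3 1, h3 2]
    linarith

/-- **THE WEAK PART AT A THIN STRONG POINT, PAIRS** -/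
theorem ss_pair_le2 (hB : 1 ≤ B) (he3 : 0 ≤ e3) (hE : 1 ≤ E) (ha0 : 0 ≤ a0)
    (hG : ∀ F ∈ Fintype.piFinset S, ¬ Reg F → G F = t.p F / t.pq F) (hGR : ∀ F ∈ Fintype.piFinset S, Reg F → G F ≤ 1)
    (hReg : ∀ F ∈ Fintype.piFinset S, (¬ ∃ i, B < t.r i (F i)) → (Reg F ↔ t.RP2 B e3 E F))
    (hap : ∀ F, 0 ≤ a F) (ha : ∀ F ∈ Fintype.piFinset S, (¬ ∃ i, B < t.r i (F i)) → ¬ Reg F → a F = a0) :
    ∑ F ∈ Fintype.piFinset S, ind (¬ ∃ i, B < t.r i (F i)) * ((∏ i, t.q' i (F i)) * (a F * (G F - 1))) ≤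
      a0 * (∑ i, t.ph B i +
        (1 + B) * (Real.sqrt (t.tv * ((E + 1) * (t.gg B 0 * t.gg B 1))) +
          Real.sqrt (t.tv * ((E + 1) * (t.gg B 0 * t.gg B 2))) + Real.sqrt (t.tv * ((E + 1) * (t.gg B 1 * t.gg B 2)))) +
        (2 + 2 * B) * (Real.sqrt (3 / E * (t.gg B 0 * t.gg B 1)) + Real.sqrt (3 / E * (t.gg B 0 * t.gg B 2)) +
          Real.sqrt (3 / E * (t.gg B 1 * t.gg B 2))) +
        (1 + B) * (ind (T 0 1) * t.KQ E 0 1 + ind (T 0 2) * t.KQ E 0 2 + ind (T 1 2) * t.KQ E 1 2) +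
        (B + B ^ 2) * e3 * (ind (T 0 1) * t.MP E 0 1 + ind (T 0 2) * t.MP E 0 2 + ind (T 1 2) * t.MP E 1 2) +
        (1 + B) * (ind (¬ T 0 1) * t.AQ2 B E 0 1 + ind (¬ T 0 2) * t.AQ2 B E 0 2 + ind (¬ T 1 2) * t.AQ2 B E 1 2) +
        2 * B ^ 3 / E * ∑ i, t.RI B e3 i + 2 * ∑ i, ∑ x ∈ S i, t.mg i x * ind (B < t.r i x)) := by
  have hB0 : (0 : ℝ) ≤ B := by linarith
  have hE0 : (0 : ℝ) < E := by linarith
  -- one tuple
  have s1 : ∀ f ∈ Fintype.piFinset S, ind (¬ ∃ i, B < t.r i (f i)) * ((∏ i, t.q' i (f i)) * (a f * (G f - 1))) ≤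
      a0 * ((t.p f - t.pq f) * ((∏ i, hwk B (t.r i (f i))) - ind (t.RP2 B e3 E f) * ∏ i, t.r i (f i))) := by
    intro f hf
    by_cases hs : ∃ i, B < t.r i (f i)
    · have hD' : ¬ t.RP2 B e3 E f := fun h => by
        obtain ⟨i, hi⟩ := hs
        exact absurd (h.1 i) (not_le.2 hi)
      rw [ind_not (not_not.2 hs), t.prod_hwk_strong hs, ind_not hD']
      simp
    · rw [ind_of hs, t.prod_hwk_weak hs, one_mul]
      by_cases hR : Reg f
      · rw [ind_of ((hReg f hf hs).1 hR), one_mul, sub_self, mul_zero, mul_zero]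
        have h1 : 0 ≤ ∏ i, t.q' i (f i) := t.pq'_nn hf
        exact mul_nonpos_of_nonneg_of_nonpos h1 (mul_nonpos_of_nonneg_of_nonpos (hap f) (by
          have := hGR f hf hR
          linarith))
      · rw [ind_not (fun h => hR ((hReg f hf hs).2 h)), zero_mul, sub_zero, ha f hf hs hR]
        have h1 := t.term_off hf (hG f hf hR)
        calc (∏ i, t.q' i (f i)) * (a0 * (G f - 1)) = a0 * ((∏ i, t.q' i (f i)) * (G f - 1)) := by ring
          _ = a0 * ((∏ i, t.r i (f i)) * (t.p f - t.pq f)) := by rw [h1]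
          _ ≤ _ := le_of_eq (by ring)
  refine (Finset.sum_le_sum s1).trans ?_
  rw [← Finset.mul_sum]
  refine mul_le_mul_of_nonneg_left ?_ ha0
  -- expansion
  set R : (Fin 3 → φ) → ℝ := fun f => (∏ i, hwk B (t.r i (f i))) - 1 - ∑ i, t.xi B i (f i) with hRdef
  have e0 : ∑ f ∈ Fintype.piFinset S, (t.p f - t.pq f) = 0 := by
    rw [Finset.sum_sub_distrib, t.p_one]
    have h := t.sum_q_one (0 : Fin 3) (fun _ => (1 : ℝ))
    simp only [mul_one] at h
    rw [h, t.q_one 0, sub_self]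
  have e1 : ∀ i, ∑ f ∈ Fintype.piFinset S, (t.p f - t.pq f) * t.xi B i (f i) = t.ph B i := fun i =>
    t.sum_diff_one i (fun x => t.xi B i x)
  have e2 : ∑ f ∈ Fintype.piFinset S, (t.p f - t.pq f) * ((∏ i, hwk B (t.r i (f i))) -
      ind (t.RP2 B e3 E f) * ∏ i, t.r i (f i)) = ∑ i, t.ph B i + ∑ f ∈ Fintype.piFinset S, (t.p f - t.pq f) *
        (R f - ind (t.RP2 B e3 E f) * ∏ i, t.r i (f i)) := by
    have h1 : ∀ f, (t.p f - t.pq f) * ((∏ i, hwk B (t.r i (f i))) - ind (t.RP2 B e3 E f) * ∏ i, t.r i (f i)) =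
        (t.p f - t.pq f) + ∑ i, (t.p f - t.pq f) * t.xi B i (f i) + (t.p f - t.pq f) *
        (R f - ind (t.RP2 B e3 E f) * ∏ i, t.r i (f i)) := by
      intro f
      simp only [hRdef]
      rw [← Finset.mul_sum]
      ring
    simp only [h1]
    rw [Finset.sum_add_distrib, Finset.sum_add_distrib, e0, zero_add, Finset.sum_comm]
    simp only [e1]
  rw [e2]
  have hRabs : ∀ f ∈ Fintype.piFinset S, |R f| ≤ (1 + B) * (|t.xi B 0 (f 0)| * |t.xi B 1 (f 1)| +
      |t.xi B 0 (f 0)| * |t.xi B 2 (f 2)| + |t.xi B 1 (f 1)| * |t.xi B 2 (f 2)|) := by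
    intro f hf
    have h2 := R_abs_le (a := t.xi B 0 (f 0)) (b := t.xi B 1 (f 1)) hB0 (t.abs_xi_le hB (Fintype.mem_piFinset.1 hf 2))
    have h3 : R f = (1 + t.xi B 0 (f 0)) * (1 + t.xi B 1 (f 1)) * (1 + t.xi B 2 (f 2)) - 1 -
        (t.xi B 0 (f 0) + t.xi B 1 (f 1) + t.xi B 2 (f 2)) := by
      simp only [hRdef]
      rw [Fin.prod_univ_three, Fin.sum_univ_three]
      unfold xi
      ring
    rw [h3]
    exact h2
  -- one tuple again
  have s2 : ∀ f ∈ Fintype.piFinset S, (t.p f - t.pq f) * (R f - ind (t.RP2 B e3 E f) * ∏ i, t.r i (f i)) ≤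
      (1 + B) * (|t.p f - t.pq f| * (ind (¬ t.shp E 0 1 (f 0) (f 1)) * (|t.xi B 0 (f 0)| * |t.xi B 1 (f 1)|)) +
        |t.p f - t.pq f| * (ind (¬ t.shp E 0 2 (f 0) (f 2)) * (|t.xi B 0 (f 0)| * |t.xi B 2 (f 2)|)) +
        |t.p f - t.pq f| * (ind (¬ t.shp E 1 2 (f 1) (f 2)) * (|t.xi B 1 (f 1)| * |t.xi B 2 (f 2)|))) +
      (2 + 2 * B) * (t.pq f * (ind (t.ash E f) * (|t.xi B 0 (f 0)| * |t.xi B 1 (f 1)|)) +
        t.pq f * (ind (t.ash E f) * (|t.xi B 0 (f 0)| * |t.xi B 2 (f 2)|)) +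
        t.pq f * (ind (t.ash E f) * (|t.xi B 1 (f 1)| * |t.xi B 2 (f 2)|))) +
      (1 + B) * (ind (T 0 1) * (t.p f * (ind (t.shp E 0 1 (f 0) (f 1)) * fal (t.r 0 (f 0)) (t.r 1 (f 1)))) +
        ind (T 0 2) * (t.p f * (ind (t.shp E 0 2 (f 0) (f 2)) * fal (t.r 0 (f 0)) (t.r 2 (f 2)))) +
        ind (T 1 2) * (t.p f * (ind (t.shp E 1 2 (f 1) (f 2)) * fal (t.r 1 (f 1)) (t.r 2 (f 2))))) +
      (B + B ^ 2) * e3 * (ind (T 0 1) * (t.p f * ind (t.shp E 0 1 (f 0) (f 1))) +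
        ind (T 0 2) * (t.p f * ind (t.shp E 0 2 (f 0) (f 2))) + ind (T 1 2) * (t.p f * ind (t.shp E 1 2 (f 1) (f 2)))) +
      (1 + B) * (ind (¬ T 0 1) * (t.p f * (ind (t.shp E 0 1 (f 0) (f 1)) * (|t.xi B 0 (f 0)| * |t.xi B 1 (f 1)|))) +
        ind (¬ T 0 2) * (t.p f * (ind (t.shp E 0 2 (f 0) (f 2)) * (|t.xi B 0 (f 0)| * |t.xi B 2 (f 2)|))) +
        ind (¬ T 1 2) * (t.p f * (ind (t.shp E 1 2 (f 1) (f 2)) * (|t.xi B 1 (f 1)| * |t.xi B 2 (f 2)|)))) +
      ind (t.RP2 B e3 E f) * (t.pq f * ∏ i, t.r i (f i)) + 2 * ∑ i, t.p f * ind (B < t.r i (f i)) := by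
    intro f hf
    have hp := t.p_nn f hf
    have hq := t.pq_nn hf
    have hab := abs_nonneg (t.p f - t.pq f)
    have hRa := hRabs f hf
    have x01 : 0 ≤ |t.xi B 0 (f 0)| * |t.xi B 1 (f 1)| := mul_nonneg (abs_nonneg _) (abs_nonneg _)
    have x02 : 0 ≤ |t.xi B 0 (f 0)| * |t.xi B 2 (f 2)| := mul_nonneg (abs_nonneg _) (abs_nonneg _)
    have x12 : 0 ≤ |t.xi B 1 (f 1)| * |t.xi B 2 (f 2)| := mul_nonneg (abs_nonneg _) (abs_nonneg _)
    have i01 := ind_nonneg (t.shp E 0 1 (f 0) (f 1))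
    have i02 := ind_nonneg (t.shp E 0 2 (f 0) (f 2))
    have i12 := ind_nonneg (t.shp E 1 2 (f 1) (f 2))
    have ps : 0 ≤ ∑ i, ind (B < t.r i (f i)) := Finset.sum_nonneg fun _ _ => ind_nonneg _
    have rpn : 0 ≤ ind (t.RP2 B e3 E f) * (t.pq f * ∏ i, t.r i (f i)) :=
      mul_nonneg (ind_nonneg _) (mul_nonneg hq (t.pr_nn hf))
    rw [← Finset.mul_sum]
    by_cases hh : t.ash E f
    · rw [ind_of hh]
      have k1 := t.hot_pt2 (T := T) hB he3 hf hh
      have k2 := mul_le_mul_of_nonneg_left k1 hp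
      have k3 : -(t.pq f * R f) ≤ t.pq f * |R f| := by
        have := mul_le_mul_of_nonneg_left (neg_abs_le (R f)) hq
        linarith
      have k4 := mul_le_mul_of_nonneg_left hRa hq
      have k5 : (t.p f - t.pq f) * (R f - ind (t.RP2 B e3 E f) * ∏ i, t.r i (f i)) =
          t.p f * ((∏ i, hwk B (t.r i (f i))) - 1 - ∑ i, t.xi B i (f i) - ind (t.RP2 B e3 E f) * ∏ i, t.r i (f i)) -
            t.pq f * R f + ind (t.RP2 B e3 E f) * (t.pq f * ∏ i, t.r i (f i)) := by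
        simp only [hRdef]
        ring
      rw [k5]
      -- one pair with the weight `p`
      have kp : ∀ (h T' : Prop) (u v : ℝ), 0 ≤ u → 0 ≤ v → t.p f * (ind (h ∧ T') * ((1 + B) * v + (B + B ^ 2) * e3) +
          ind (¬ (h ∧ T')) * ((1 + B) * u)) ≤
          (1 + B) * (|t.p f - t.pq f| * (ind (¬ h) * u)) + (1 + B) * (t.pq f * u) +
          (1 + B) * (ind T' * (t.p f * (ind h * v))) + (B + B ^ 2) * e3 * (ind T' * (t.p f * ind h)) +
          (1 + B) * (ind (¬ T') * (t.p f * (ind h * u))) := by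
        intro h T' u v hu hv
        have a1 : t.p f ≤ |t.p f - t.pq f| + t.pq f := by
          have := le_abs_self (t.p f - t.pq f)
          linarith
        have a2 := mul_le_mul_of_nonneg_right a1 hu
        have a3 : 0 ≤ t.pq f * u := mul_nonneg hq hu
        have a4 : 0 ≤ (1 + B) * (t.pq f * u) := mul_nonneg (by linarith) a3
        have a5 : 0 ≤ |t.p f - t.pq f| * u := mul_nonneg hab hu
        by_cases c1 : h
        · by_cases c2 : T'
          · rw [ind_of (⟨c1, c2⟩ : h ∧ T'), ind_not (not_not.2 (⟨c1, c2⟩ : h ∧ T')), ind_of c1, ind_of c2,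
              ind_not (not_not.2 c1), ind_not (not_not.2 c2)]
            simp only [zero_mul, mul_zero, add_zero, one_mul, mul_one, zero_add]
            linarith
          · rw [ind_not (fun c : h ∧ T' => c2 c.2), ind_of (fun c : h ∧ T' => c2 c.2), ind_of c1, ind_not c2,
              ind_not (not_not.2 c1), ind_of c2]
            simp only [zero_mul, mul_zero, add_zero, one_mul, mul_one, zero_add]
            linarith
        · rw [ind_not (fun c : h ∧ T' => c1 c.1), ind_of (fun c : h ∧ T' => c1 c.1), ind_not c1, ind_of c1]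
          simp only [zero_mul, mul_zero, add_zero, one_mul, mul_one, zero_add]
          have := mul_le_mul_of_nonneg_left a2 (show 0 ≤ 1 + B by linarith)
          linarith
      have p01 := kp (t.shp E 0 1 (f 0) (f 1)) (T 0 1) _ _ x01 (fal_nn (t.r 0 (f 0)) (t.r 1 (f 1)))
      have p02 := kp (t.shp E 0 2 (f 0) (f 2)) (T 0 2) _ _ x02 (fal_nn (t.r 0 (f 0)) (t.r 2 (f 2)))
      have p12 := kp (t.shp E 1 2 (f 1) (f 2)) (T 1 2) _ _ x12 (fal_nn (t.r 1 (f 1)) (t.r 2 (f 2)))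
      have hbp : t.p f * t.bp2 B e3 E T f =
          t.p f * (ind (t.shp E 0 1 (f 0) (f 1) ∧ T 0 1) * ((1 + B) * fal (t.r 0 (f 0)) (t.r 1 (f 1)) + (B + B ^ 2) * e3) +
            ind (¬ (t.shp E 0 1 (f 0) (f 1) ∧ T 0 1)) * ((1 + B) * (|t.xi B 0 (f 0)| * |t.xi B 1 (f 1)|))) +
          t.p f * (ind (t.shp E 0 2 (f 0) (f 2) ∧ T 0 2) * ((1 + B) * fal (t.r 0 (f 0)) (t.r 2 (f 2)) + (B + B ^ 2) * e3) +
            ind (¬ (t.shp E 0 2 (f 0) (f 2) ∧ T 0 2)) * ((1 + B) * (|t.xi B 0 (f 0)| * |t.xi B 2 (f 2)|))) +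
          t.p f * (ind (t.shp E 1 2 (f 1) (f 2) ∧ T 1 2) * ((1 + B) * fal (t.r 1 (f 1)) (t.r 2 (f 2)) + (B + B ^ 2) * e3) +
            ind (¬ (t.shp E 1 2 (f 1) (f 2) ∧ T 1 2)) * ((1 + B) * (|t.xi B 1 (f 1)| * |t.xi B 2 (f 2)|))) := by
        unfold bp2
        ring
      rw [mul_add, hbp] at k2
      have q01 := mul_nonneg hq x01
      have q02 := mul_nonneg hq x02
      have q12 := mul_nonneg hq x12
      simp only [one_mul]
      have k6 : t.pq f * ((1 + B) * (|t.xi B 0 (f 0)| * |t.xi B 1 (f 1)| + |t.xi B 0 (f 0)| * |t.xi B 2 (f 2)| +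
          |t.xi B 1 (f 1)| * |t.xi B 2 (f 2)|)) = (1 + B) * (t.pq f * (|t.xi B 0 (f 0)| * |t.xi B 1 (f 1)|) +
          t.pq f * (|t.xi B 0 (f 0)| * |t.xi B 2 (f 2)|) + t.pq f * (|t.xi B 1 (f 1)| * |t.xi B 2 (f 2)|)) := by ring
      rw [k6] at k4
      linarith
    · have hD' : ¬ t.RP2 B e3 E f := fun h => by
        obtain ⟨_, i, k, hik, hs, _⟩ := h
        exact hh (t.ash_of hik hs)
      have h01 : ¬ t.shp E 0 1 (f 0) (f 1) := fun h => hh (Or.inl h)
      have h02 : ¬ t.shp E 0 2 (f 0) (f 2) := fun h => hh (Or.inr (Or.inl h))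
      have h12 : ¬ t.shp E 1 2 (f 1) (f 2) := fun h => hh (Or.inr (Or.inr h))
      rw [ind_not hh, ind_not hD', ind_of h01, ind_of h02, ind_of h12, ind_not h01, ind_not h02, ind_not h12]
      have h4 : (t.p f - t.pq f) * R f ≤ |t.p f - t.pq f| * |R f| := (le_abs_self _).trans (le_of_eq (abs_mul _ _))
      have h5 := mul_le_mul_of_nonneg_left hRa hab
      have h6 : |t.p f - t.pq f| * ((1 + B) * (|t.xi B 0 (f 0)| * |t.xi B 1 (f 1)| + |t.xi B 0 (f 0)| * |t.xi B 2 (f 2)| +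
          |t.xi B 1 (f 1)| * |t.xi B 2 (f 2)|)) = (1 + B) * (|t.p f - t.pq f| * (|t.xi B 0 (f 0)| * |t.xi B 1 (f 1)|) +
          |t.p f - t.pq f| * (|t.xi B 0 (f 0)| * |t.xi B 2 (f 2)|) +
          |t.p f - t.pq f| * (|t.xi B 1 (f 1)| * |t.xi B 2 (f 2)|)) := by ring
      rw [h6] at h5
      have hps := mul_nonneg hp ps
      simp only [zero_mul, mul_zero, sub_zero, one_mul, add_zero]
      linarith
  have s3 := Finset.sum_le_sum s2
  simp only [Finset.sum_add_distrib, ← Finset.mul_sum] at s3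
  have c01 := t.cs_nonhot (show (0 : Fin 3) ≠ 1 by decide) B hE
  have c02 := t.cs_nonhot (show (0 : Fin 3) ≠ 2 by decide) B hE
  have c12 := t.cs_nonhot (show (1 : Fin 3) ≠ 2 by decide) B hE
  have d01 := t.cs_ash (show (0 : Fin 3) ≠ 1 by decide) B hE0
  have d02 := t.cs_ash (show (0 : Fin 3) ≠ 2 by decide) B hE0
  have d12 := t.cs_ash (show (1 : Fin 3) ≠ 2 by decide) B hE0
  have s4 := mul_le_mul_of_nonneg_left (add_le_add (add_le_add c01 c02) c12) (show 0 ≤ 1 + B by linarith)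
  have s5 := mul_le_mul_of_nonneg_left (add_le_add (add_le_add d01 d02) d12) (show 0 ≤ 2 + 2 * B by linarith)
  have rp := t.rp_sum (e3 := e3) hB hE0
  have rp' : ∑ f ∈ Fintype.piFinset S, ind (t.RP2 B e3 E f) * (t.pq f * ∏ i, t.r i (f i)) ≤
      2 * B ^ 3 / E * ∑ i, t.RI B e3 i := by
    refine le_trans (Finset.sum_le_sum fun f hf => ?_) rp
    exact mul_le_mul_of_nonneg_right (ind_mono fun h => t.RP2_RP h) (mul_nonneg (t.pq_nn hf) (t.pr_nn hf))
  have e5 : ∑ f ∈ Fintype.piFinset S, ∑ i, t.p f * ind (B < t.r i (f i)) = ∑ i, ∑ x ∈ S i, t.mg i x * ind (B < t.r i x) := by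
    rw [Finset.sum_comm]
    exact Finset.sum_congr rfl fun i _ => t.sum_mg i (fun x => ind (B < t.r i x))
  have e6 : ∀ i k, ∑ f ∈ Fintype.piFinset S, t.p f * (ind (t.shp E i k (f i) (f k)) * fal (t.r i (f i)) (t.r k (f k))) =
      t.KQ E i k := fun i k => t.sum_p_fib i k (fun x y => ind (t.shp E i k x y) * fal (t.r i x) (t.r k y))
  have e7 : ∀ i k, ∑ f ∈ Fintype.piFinset S, t.p f * ind (t.shp E i k (f i) (f k)) = t.MP E i k := fun i k =>
    t.sum_p_fib i k (fun x y => ind (t.shp E i k x y))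
  have e9 : ∀ i k, ∑ f ∈ Fintype.piFinset S, t.p f * (ind (t.shp E i k (f i) (f k)) * (|t.xi B i (f i)| * |t.xi B k (f k)|)) =
      t.AQ2 B E i k := fun i k => t.sum_p_fib i k (fun x y => ind (t.shp E i k x y) * (|t.xi B i x| * |t.xi B k y|))
  have e8 : ∑ f ∈ Fintype.piFinset S, t.p f * ∑ i, ind (B < t.r i (f i)) =
      ∑ f ∈ Fintype.piFinset S, ∑ i, t.p f * ind (B < t.r i (f i)) :=
    Finset.sum_congr rfl fun f _ => Finset.mul_sum _ _ _
  simp only [e6, e7, e9] at s3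
  first
    | rw [e5] at s3
    | rw [e8, e5] at s3
  linarith

end KT

end

end Pool.Agent.GMH
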