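import Pool.Agent.GMH.StkR
import Pool.Agent.GMH.RarND
import Pool.Agent.GMH.ConRn
import Pool.Agent.GMH.RelN
import Pool.Agent.GMH.Bef2

/-!
# GMH/StkC (helper3): THE PRIVATE REMOVALS IN THE ZONE OVER `Ctx` (row ST)

* `Ov C M` : clocks `M` over the sights of the run (`ov_U` : the run instance; theories `A`, `B` : the same law and node);
* `stk_ctx` : `StkR.stk_gen` over `Ctx`, class masses `RarN.Hm`, numbers `RarN.HyN` (`GMH/RarND`);
* `stk_num`, **`stk_allM`**, `stk_all` : `lam = L1 = n^16`, threshold `2 x^(-sq)` of the round `r`, class masses at most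
  `4^8 x^(-q)`: `L ∑_q Pr (rpO i q, kv (some i) (tv i q), blk i q, Alv q) ≤ x^(-40)` for `L ≤ x^kL`, `Nz ≤ x^Z`;
* **`stk_two`** : `L ∑_(k ∈ rk) ∑_q Pr (stkO2 k q) ≤ x^(-24)` (input (ST) of `UnrTwo`).
-/

set_option autoImplicit false
set_option linter.unusedSectionVars false

namespace Pool.Agent.GMH.StkR

open Finset Pool.Agent.PWZ Pool.Agent.M3 Pool.Agent.GM Pool.Agent.GM.Harm Pool.Agent.GMH
open Pool.Agent.GMH.Dy Pool.Agent.GMH.MVI Pool.Agent.GMH.MVIp Pool.Agent.GMH.KF Pool.Agent.GMH.RarN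
open Pool.Agent.GMH.UV (US Kd tv Rn dA blk Nz stk_le)
open Pool.Agent.GMH.ExK
open Pool.Agent.GMH.CX Pool.Agent.GMH.V3 Pool.Agent.GMH.CTM
open Pool.Agent.GMH.CT (ix)

section ctx

variable (C : Ctx) (ka : ℕ)

variable {lam L1 eta y : ℝ} {fr : Option (Fin 3)} {c : KC} {κ : Fin 10} {o : Option (Fin 3)}

/-- the event of the private removals in the zone, alive, any clocks `M` -/
def stkE (M : US C.O) (Q : Kd C.O) (i : Fin 3) (q : ℕ) (w : C.O) : Prop :=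
  TRF.rpO C.tb C.v i q w ∧ Q.kv (Option.some i) (tv M i q w) w ∧ blk M Q i q w ∧ Alv C.h C.v C.tb C.p q w

/-- **the clocks `M` over the sights of the run** (the theories `A`, `B` : the same law, the same node) -/
structure Ov (M : US C.O) : Prop where
  hP : M.P = C.tb.Ps
  hS : ∀ s u w, M.S ∅ s u = M.S ∅ s w ↔ sgt C.D ∅ (TP.nn s) u = sgt C.D ∅ (TP.nn s) w
  hs : UV.Seen M
  hE : ∀ i w, C.tb.Ps.p w ≠ 0 → ∀ q, TRF.rpO C.tb C.v i q w → tv M i (q + 1) w = q + 1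

/-- the run instance -/
theorem ov_U : Ov C (C.U ka) where
  hP := rfl
  hS := fun _ _ _ => Iff.rfl
  hs := seen_i C.tb C.codes (C.d1_pos ka) (C.d1_le ka) (C.kb_pos ka) C.d0_pos C.d0_le C.d0_pos C.p1_pos (C.z_pos ka)
  hE := fun i w _ q hr => TRF.tauS_lt2 _ (Or.inr (TRF.lt_rp2 C.tb C.codes (C.d1_pos ka) (C.d1_le ka) (C.kb_pos ka) C.d0_pos
    C.d0_le C.d0_pos C.p1_pos (C.z_pos ka) hr))

/-- **OVER `Ctx`** -/
theorem stk_ctx {M : US C.O} (hM : Ov C M) {Q : Kd C.O} {i : Fin 3} (hlam : 2 ≤ lam) (hL1 : 0 ≤ L1) (hy0 : 0 < y)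
    (hGa : ∀ w, C.tb.Ps.p w ≠ 0 → ∀ n, Alv C.h C.v C.tb C.p n w → Q.al n w)
    (hK : ∀ q < 5 * C.T, ∀ w, C.tb.Ps.p w ≠ 0 → Rn M Q (Option.some i) (MV.nu M.toMS q w) w → Alv C.h C.v C.tb C.p q w →
      SR C.h C.v C.tb fr C.p c κ o (tauO (C.U ka) (Option.some i) q w) w)
    (hm : Hm C ka lam (Option.some i) fr c κ o eta) (hy : HyN C lam L1 eta y) :
    ∑ q ∈ range (5 * C.T), C.tb.Ps.Pr (stkE C M Q i q) ≤
      y * Nz M Q (5 * C.T) + (2 / y + 1) * (pw C.Lam (C.c0 + C.A))⁻¹ +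
        Real.exp (C.p.X0 - L1) * (12 * C.n * C.N1 * C.Lam) + 32 * Real.exp (-lam) * (C.n * C.N1 * C.Lam) := by
  have hy' : 54 * (L1 + 2 * (lam + 4) + 2 * C.p.X0 + 5) / C.N1 + 54 * C.Lam / C.n + 2 * eta < y / 16 := by
    unfold HyN at hy
    linarith
  have k1 := stk_gen (h := C.h) C.tb C.n1 C.N11 C.R C.H hM.hP hM.hS hM.hs (Q := Q) (i := i) (hM.hE i) (pX0 C) hlam hL1 hy0 hGa
    (τ := fun q => tauO (C.U ka) (Option.some i) q)
    (fun q hq u w hu hw he => tauO_es C.tb C.codes (C.d1_pos ka) (C.d1_le ka) (C.kb_pos ka) C.d0_pos C.d0_le C.d0_pos C.p1_pos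
      (C.z_pos ka) (Option.some i) (by omega) hu hw he)
    (fun q w => tauO_le _ (Option.some i) q w) (B := Bv C.h C.v C.tb C.p fr c κ o)
    (fun e he => (Sn_cv C.n1 C.N11 C.R C.H fr c κ o (by omega)).and (Sn_Alv C.p (by omega)))
    hK (fun q hq w hw ho => hm q hq.le w hw ho) hy'
  have k2 := mul_le_mul_of_nonneg_left C.dead_le (show 0 ≤ 2 / y + 1 by positivity)
  refine k1.trans ?_
  refine add_le_add (add_le_add (add_le_add le_rfl k2) le_rfl) le_rfl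

end ctx

open Pool.Agent.GMH.CT in
/-- **THE NUMBERS** -/
theorem stk_num {A : ℕ} (hA : 80 ≤ A) (sq K : ℕ) (hs : 20 ≤ sq) : CT.Ev fun c0 Lam =>
    (∀ eta : ℝ, eta ≤ 4 ^ 8 * ix Lam (2 * sq) →
      54 * (pw Lam (16 * c0) + 2 * (pw Lam (16 * c0) + 4) + 2 * pw Lam (cXF A c0) + 5) / pw Lam (c1F A c0) +
        54 * Lam / pw Lam c0 + 2 * eta < 2 * ix Lam sq / 2 / 8) ∧
    (2 / (2 * ix Lam sq) + 1) * (pw Lam (c0 + A))⁻¹ + Real.exp (pw Lam (cXF A c0) - pw Lam (16 * c0)) *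
      (12 * pw Lam c0 * pw Lam (c1F A c0) * Lam) + 32 * Real.exp (-(pw Lam (16 * c0))) *
        (pw Lam c0 * pw Lam (c1F A c0) * Lam) ≤ ix Lam K := by
  refine ((CT.rn_num hA sq hs).and ((CT.rn_V A (K + 1)).and ((CT.poly_exp A 0).and ((CT.rn_e A (K + 1) (c := 32)
    (by norm_num)).and (CT.Ev.ge (3 * A + sq + K + 8)))))).mono fun c0 Lam hL hh => ?_
  obtain ⟨n1, n2, n3, n4, hc⟩ := hh
  refine ⟨fun eta he => ?_, ?_⟩
  · have := n1 eta he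
    linarith
  · have hL0 : (0 : ℝ) < Lam := by linarith
    -- the dead points
    have a1 : (2 / (2 * ix Lam sq) + 1) * (pw Lam (c0 + A))⁻¹ ≤ ix Lam (K + 1) := by
      have b1 : 2 / (2 * ix Lam sq) = pw Lam sq := by
        rw [← CT.inv_ix hL sq]
        have := CT.ix_pos hL sq
        field_simp
      have b2 : pw Lam sq + 1 ≤ pw Lam (sq + 1) := by
        have h1 := CT.pw_ge1 hL sq
        rw [CT.pw_succ]
        nlinarith
      rw [b1]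
      exact CT.fin hL (k := c0 + A) b2 (by omega)
    -- the own letter
    have a2 : Real.exp (pw Lam (cXF A c0) - pw Lam (16 * c0)) * (12 * pw Lam c0 * pw Lam (c1F A c0) * Lam) ≤
        ix Lam (K + 1) := by
      have b1 : 12 * pw Lam c0 * pw Lam (c1F A c0) * Lam ≤ Real.exp (pw Lam c0) := by
        have h1 := CT.N2_le hL (A := A) (c0 := c0) (c := 12) (by norm_num)
        rw [CT.ix_zero, mul_one] at n3
        refine le_trans (le_of_eq ?_) (h1.trans n3)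
        ring
      have b2 : Real.exp (pw Lam (cXF A c0)) * (12 * pw Lam c0 * pw Lam (c1F A c0) * Lam) ≤ Real.exp (pw Lam (15 * c0)) := by
        refine (mul_le_mul_of_nonneg_left b1 (Real.exp_pos _).le).trans ?_
        rw [← Real.exp_add]
        refine Real.exp_le_exp.2 ?_
        have h1 : pw Lam (cXF A c0) ≤ pw Lam (4 * c0) := CT.X0_le hL (by omega)
        have h2 : pw Lam c0 ≤ pw Lam (4 * c0) := CT.pw_mono hL (by omega)
        have h3 : 2 * pw Lam (4 * c0) ≤ pw Lam (1 + 4 * c0) :=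
          CT.mul_pw hL (CT.pw_pos hL _).le (CT.cst hL 1 (by norm_num)) le_rfl
        have h4 : pw Lam (1 + 4 * c0) ≤ pw Lam (15 * c0) := CT.pw_mono hL (by omega)
        linarith
      have b3 := n2 _ b2
      have b4 : Real.exp (pw Lam (cXF A c0) - pw Lam (16 * c0)) = Real.exp (-(pw Lam (16 * c0))) * Real.exp (pw Lam (cXF A c0)) := by
        rw [← Real.exp_add]
        congr 1
        ring
      rw [b4, mul_assoc]
      exact b3
    have a3 := CT.add_ix hL (u := Real.exp (pw Lam (cXF A c0) - pw Lam (16 * c0)) * (12 * pw Lam c0 * pw Lam (c1F A c0) * Lam))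
      (v := 0) (s := K) a2 (CT.ix_nn hL _)
    have a4 : 4 * ix Lam (K + 1) ≤ ix Lam K := by
      have := CT.cst_ix hL (c := 4) (j := 1) (s := K) (by norm_num)
      rwa [add_comm 1 K] at this
    have a5 := CT.ix_nn hL (K + 1)
    linarith

/-- **THE PRIVATE REMOVALS IN THE ZONE, all runs** -/
theorem stk_all0 {A : ℕ} (hA : 80 ≤ A) (ka sq K : ℕ) (hs : 20 ≤ sq) : AllC A fun C => ∀ M : US C.O, Ov C M →
    ∀ (Q : Kd C.O) (i : Fin 3)
    (fr : Option (Fin 3)) (c : KC) (κ : Fin 10) (o : Option (Fin 3)) (eta : ℝ), eta ≤ 4 ^ 8 * ix C.Lam (2 * sq) →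
    (∀ w, C.tb.Ps.p w ≠ 0 → ∀ n, Alv C.h C.v C.tb C.p n w → Q.al n w) →
    (∀ q < 5 * C.T, ∀ w, C.tb.Ps.p w ≠ 0 → Rn M Q (Option.some i) (MV.nu M.toMS q w) w → Alv C.h C.v C.tb C.p q w →
      SR C.h C.v C.tb fr C.p c κ o (tauO (C.U ka) (Option.some i) q w) w) →
    Hm C ka (pw C.Lam (16 * C.c0)) (Option.some i) fr c κ o eta →
    ∑ q ∈ range (5 * C.T), C.tb.Ps.Pr (stkE C M Q i q) ≤ 2 * ix C.Lam sq * Nz M Q (5 * C.T) + ix C.Lam K := by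
  obtain ⟨m, hm⟩ := (stk_num hA sq K hs).ex
  refine ⟨max m 1, fun C hC hc M hM Q i fr c κ o eta he hGa hK hHm => ?_⟩
  have hL := C.hL
  obtain ⟨n1, n2⟩ := hm C.c0 ((le_max_left _ _).trans hc) C.Lam hL
  subst hC
  have e0 : C.p.X0 = pw C.Lam (cXF C.A C.c0) := rfl
  have p1 := CT.pw_ge1 hL (16 * C.c0)
  have h2 : (2 : ℝ) ≤ pw C.Lam (16 * C.c0) := by
    have h1 : pw C.Lam 1 ≤ pw C.Lam (16 * C.c0) := CT.pw_mono hL (by
      have := (le_max_right m 1).trans hc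
      omega)
    rw [CT.pw_one'] at h1
    linarith
  have k := stk_ctx C ka hM (lam := pw C.Lam (16 * C.c0)) (L1 := pw C.Lam (16 * C.c0)) (eta := eta) (y := 2 * ix C.Lam sq)
    (fr := fr) (c := c) (κ := κ) (o := o) (Q := Q) (i := i) h2 (by linarith) (by have := CT.ix_pos hL sq; positivity) hGa hK hHm
    (n1 eta he)
  refine k.trans ?_
  have e1 : Real.exp (C.p.X0 - pw C.Lam (16 * C.c0)) * (12 * C.n * C.N1 * C.Lam) =
    Real.exp (pw C.Lam (cXF C.A C.c0) - pw C.Lam (16 * C.c0)) *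
      (12 * pw C.Lam C.c0 * pw C.Lam (c1F C.A C.c0) * C.Lam) := rfl
  have e2 : 32 * Real.exp (-(pw C.Lam (16 * C.c0))) * (C.n * C.N1 * C.Lam) = 32 * Real.exp (-(pw C.Lam (16 * C.c0))) *
        (pw C.Lam C.c0 * pw C.Lam (c1F C.A C.c0) * C.Lam) := rfl
  rw [e1, e2]
  linarith

/-- **THE PRIVATE REMOVALS IN THE ZONE, ONE ROUND, any clocks over the sights of the run** -/
theorem stk_allM {A : ℕ} (hA : 80 ≤ A) (ka : ℕ) (r : CT.Rd) : AllC A fun C => ∀ M : US C.O, Ov C M → ∀ (Q : Kd C.O) (i : Fin 3)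
    (fr : Option (Fin 3)) (c : KC) (κ : Fin 10) (o : Option (Fin 3)) (eta : ℝ), eta ≤ 4 ^ 8 * ix C.Lam r.q →
    (∀ w, C.tb.Ps.p w ≠ 0 → ∀ n, Alv C.h C.v C.tb C.p n w → Q.al n w) →
    (∀ q < 5 * C.T, ∀ w, C.tb.Ps.p w ≠ 0 → Rn M Q (Option.some i) (MV.nu M.toMS q w) w → Alv C.h C.v C.tb C.p q w →
      SR C.h C.v C.tb fr C.p c κ o (tauO (C.U ka) (Option.some i) q w) w) →
    Hm C ka (pw C.Lam (16 * C.c0)) (Option.some i) fr c κ o eta → ∀ L : ℝ, 0 ≤ L → L ≤ pw C.Lam r.kL →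
    Nz M Q (5 * C.T) ≤ pw C.Lam r.Z →
    L * ∑ q ∈ range (5 * C.T), C.tb.Ps.Pr (stkE C M Q i q) ≤ ix C.Lam 40 := by
  refine (stk_all0 hA ka r.sq (r.kL + 41) (by unfold CT.Rd.sq; omega)).mono fun C hC M hM Q i fr c κ o eta he hGa hK hHm L hL0
    hLk hN => ?_
  have hL := C.hL
  have e1 : r.q = 2 * r.sq := by unfold CT.Rd.q CT.Rd.sq; ring
  rw [e1] at he
  have k := hC M hM Q i fr c κ o eta he hGa hK hHm
  have k2 := mul_le_mul_of_nonneg_left k hL0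
  refine k2.trans ?_
  rw [mul_add]
  have a1 : L * (2 * ix C.Lam r.sq * Nz M Q (5 * C.T)) ≤ ix C.Lam 41 := by
    have b0 : 0 ≤ Nz M Q (5 * C.T) := UV.Nz_nonneg _
    have b1 : 2 * L * Nz M Q (5 * C.T) ≤ pw C.Lam (1 + r.kL + r.Z) :=
      CT.mul_pw hL b0 (CT.mul_pw hL hL0 (CT.cst hL 1 (by norm_num)) hLk) hN
    have b2 := CT.fin hL (k := r.sq) (s := 41) b1 (by unfold CT.Rd.sq CT.Rd.m1; omega)
    refine le_trans (le_of_eq ?_) b2
    ring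
  have a2 : L * ix C.Lam (r.kL + 41) ≤ ix C.Lam 41 := CT.fin hL hLk le_rfl
  exact CT.add_ix hL a1 a2

/-- **THE PRIVATE REMOVALS IN THE ZONE, ONE ROUND, the run instance** -/
theorem stk_all {A : ℕ} (hA : 80 ≤ A) (ka : ℕ) (r : CT.Rd) : AllC A fun C => ∀ (Q : Kd C.O) (i : Fin 3)
    (fr : Option (Fin 3)) (c : KC) (κ : Fin 10) (o : Option (Fin 3)) (eta : ℝ), eta ≤ 4 ^ 8 * ix C.Lam r.q →
    (∀ w, C.tb.Ps.p w ≠ 0 → ∀ n, Alv C.h C.v C.tb C.p n w → Q.al n w) →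
    (∀ τ w, C.tb.Ps.p w ≠ 0 → Q.kv (Option.some i) τ w → SR C.h C.v C.tb fr C.p c κ o τ w) →
    Hm C ka (pw C.Lam (16 * C.c0)) (Option.some i) fr c κ o eta → ∀ L : ℝ, 0 ≤ L → L ≤ pw C.Lam r.kL →
    Nz (C.U ka) Q (5 * C.T) ≤ pw C.Lam r.Z →
    L * ∑ q ∈ range (5 * C.T), C.tb.Ps.Pr (stkE C (C.U ka) Q i q) ≤ ix C.Lam 40 :=
  (stk_allM hA ka r).mono fun C hC Q i fr c κ o eta he hGa hK hHm L hL0 hLk hN =>
    hC (C.U ka) (ov_U C ka) Q i fr c κ o eta he hGa (fun _ _ w hw hR _ => hK _ w hw hR.1) hHm L hL0 hLk hN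

/-- **INPUT (ST) OF THE FRAME TWO** -/
theorem stk_two {A : ℕ} (hA : 80 ≤ A) (ka : ℕ) (RR : CT.Rounds) : AllC A fun C => ∀ (i : Fin 3) (Qk : Fin 10 → Kd C.O)
    (rk : Finset (Fin 10)) (cc : KC) (B : ℝ) (Al : Bool → ℕ → Pt (Fin 3) C.X C.β C.φ → Prop) (gM : Fin 10 → ℕ → C.O → Prop)
    (e : ℝ) (fr : Option (Fin 3)) (c : KC) (o : Option (Fin 3)) (eta : Fin 10 → ℝ),
    (∀ k ∈ rk, eta k ≤ 4 ^ 8 * ix C.Lam (CT.rd RR k).q) →
    (∀ k ∈ rk, ∀ w, C.tb.Ps.p w ≠ 0 → ∀ n, Alv C.h C.v C.tb C.p n w → (Qk k).al n w) →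
    (∀ k ∈ rk, ∀ τ w, C.tb.Ps.p w ≠ 0 → (Qk k).kv (Option.some i) τ w → SR C.h C.v C.tb fr C.p c k o τ w) →
    (∀ k ∈ rk, Hm C ka (pw C.Lam (16 * C.c0)) (Option.some i) fr c k o (eta k)) →
    (∀ k ∈ rk, ∀ w, C.tb.Ps.p w ≠ 0 → ∀ q, TRF.gdO2 C.h C.tb C.v cc B i rk Al gM k q w → TRF.rpO C.tb C.v i q w →
      (Qk k).kv (Option.some i) (tv (C.U ka) i q w) w ∧ Alv C.h C.v C.tb C.p q w) → ∀ L : ℝ, 0 ≤ L → L ≤ pw C.Lam RR.kL →
    (∀ k ∈ rk, Nz (C.U ka) (Qk k) (5 * C.T) ≤ pw C.Lam (CT.rd RR k).Z) →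
    L * ∑ k ∈ rk, ∑ q ∈ range (5 * C.T), C.tb.Ps.Pr (TRF.stkO2 C.h C.tb C.v Qk (C.U ka) cc B i rk Al gM e k q) ≤
      ix C.Lam 24 := by
  refine (AllC.fin (ι := Fin 10) fun k => stk_all hA ka (CT.rd RR k)).mono fun C hC i Qk rk cc B Al gM e fr c o eta he hGa hK
    hHm hgd L hL0 hLk hN => ?_
  have hL := C.hL
  rw [Finset.mul_sum]
  have key : ∀ k ∈ rk, L * ∑ q ∈ range (5 * C.T), C.tb.Ps.Pr (TRF.stkO2 C.h C.tb C.v Qk (C.U ka) cc B i rk Al gM e k q) ≤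
      ix C.Lam 40 := fun k hk => by
    have kL : (CT.rd RR k).kL = RR.kL := by
      unfold CT.rd
      split_ifs <;> rfl
    refine le_trans (mul_le_mul_of_nonneg_left ?_ hL0) (hC k (Qk k) i fr c k o (eta k) (he k hk) (hGa k hk) (hK k hk) (hHm k hk) L hL0
      (by rw [kL]; exact hLk) (hN k hk))
    refine Finset.sum_le_sum fun q _ => C.tb.Ps.Pr_mono fun w hw hh => ?_
    obtain ⟨g1, _, g3, _, g5⟩ := hh
    obtain ⟨a1, a2⟩ := hgd k hk w hw q g1 g3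
    exact ⟨g3, a1, g5, a2⟩
  refine (Finset.sum_le_sum key).trans ?_
  rw [Finset.sum_const, nsmul_eq_mul]
  have h7 : (rk.card : ℝ) ≤ 4 ^ 2 := by
    have : rk.card ≤ 10 := (Finset.card_le_univ _).trans (le_of_eq (Fintype.card_fin 10))
    have h8 : (rk.card : ℝ) ≤ 10 := by exact_mod_cast this
    exact h8.trans (by norm_num)
  exact CT.fin hL (CT.cst hL 2 h7) (by norm_num)

end Pool.Agent.GMH.StkR
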