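import Pool.Agent.GMH.UnmP2

/-!
# GMH/StkP (helper7): PRIVATE REMOVALS IN THE ZONE (row ST; H3.UNM, U.2, last item), any kind, any frame

`v` has a life of the public start (`tv v q ≤ nu q`), the zone has begun, `v` is not decided: the vertex is blocked, nothing is
released at a private removal of `v`.  `G q` = alive at the state `q` (decreasing).
* `dG y v s` : density given the node of (relation of `v` at the public start, alive at the public start);
* `stk_le` : `∑_q Pr (rp q, kv (some v) (tv v q), blk v q, G q) ≤ y Nz + (2 / y) Pr (¬ G T) + ∑_q Pr (rp q, y / 2 < density of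
  (relation, alive at q) given the node)`: the first time in the zone with density at most `y`; the last sum is the rarity of
  the node at a private removal.
-/

set_option autoImplicit false
set_option linter.unusedSectionVars false

namespace Pool.Agent.GMH.UV

open Finset Pool.Agent.PWZ Pool.Agent.M3 Pool.Agent.GMH.TD Pool.Agent.GMH.CK Pool.Agent.GMH.MV Pool.Agent.GMH.UnmL

noncomputable section

variable {Om : Type} [Fintype Om]

/-! ### first times -/

/-- first time of `B` in its epoch -/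
def fte (C : ℕ → ℕ → Om → Prop) (B : ℕ → Om → Prop) (s : ℕ) (w : Om) : Prop :=
  B s w ∧ ∀ s', stg C s w ≤ s' → s' < s → ¬ B s' w

theorem fte_ex {C : ℕ → ℕ → Om → Prop} {B : ℕ → Om → Prop} {s : ℕ} {w : Om} (h : B s w) :
    ∃ r, r ≤ s ∧ fte C B r w ∧ stg C r w = stg C s w := by
  classical
  have hex : ∃ r, stg C s w ≤ r ∧ B r w := ⟨s, stg_le _ _, h⟩
  have h4 : Nat.find hex ≤ s := Nat.find_min' hex ⟨stg_le _ _, h⟩
  have h7 : stg C (Nat.find hex) w = stg C s w := stg_mid rfl (Nat.find_spec hex).1 h4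
  refine ⟨Nat.find hex, h4, ⟨(Nat.find_spec hex).2, ?_⟩, h7⟩
  intro s' h5 h6 h8
  exact Nat.find_min hex h6 ⟨by rw [← h7]; exact h5, h8⟩

theorem fte_one {C : ℕ → ℕ → Om → Prop} {B : ℕ → Om → Prop} {s s' : ℕ} {w : Om} (h : fte C B s w) (h' : fte C B s' w)
    (e : stg C s w = stg C s' w) : s = s' := by
  have l1 : stg C s w ≤ s := stg_le _ _
  have l2 : stg C s' w ≤ s' := stg_le _ _
  rcases lt_trichotomy s s' with h1 | h1 | h1
  · exact absurd h.1 (h'.2 s (by omega) h1)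
  · exact h1
  · exact absurd h'.1 (h.2 s' (by omega) h1)

theorem fte_S {C : ℕ → ℕ → Om → Prop} {B : ℕ → Om → Prop} {κ : Type*} {S : ℕ → Om → κ} (fS : ∀ s, Fac (S (s + 1)) (S s))
    (hC : ∀ s, Fac (S s) (stg C s)) (hB : ∀ s x w, S s x = S s w → (B s x ↔ B s w)) (s : ℕ) {a b : Om}
    (e : S s a = S s b) : fte C B s a ↔ fte C B s b := by
  have hst : ∀ s' ≤ s, S s' a = S s' b := fun s' hs' => by
    have : ∀ d, ∀ a b, S (s' + d) a = S (s' + d) b → S s' a = S s' b := by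
      intro d
      induction d with
      | zero => exact fun _ _ h => h
      | succ d ih => exact fun x y h => ih x y (fS _ x y h)
    exact this (s - s') a b (by rw [Nat.add_sub_cancel' hs']; exact e)
  unfold fte
  rw [hC s a b e]
  exact and_congr (hB s a b e) (forall_congr' fun r => forall_congr' fun _ => forall_congr' fun hr =>
    not_congr (hB r a b (hst r hr.le)))

/-! ### the blocked vertices -/

variable (M : US Om) (Q : Kd Om) (G : ℕ → Om → Prop)

/-- density in the node: relation of `v` at the public start, alive at the public start -/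
def dG (v : Fin 3) (s : ℕ) (w : Om) : ℝ :=
  M.P.ce (M.S ∅ s) (fun u => ind (Rn M Q (some v) (nu M.toMS s u) u ∧ G (nu M.toMS s u) u)) w

/-- density in the node: relation of `v` at the public start, alive at `s` -/
def dA (v : Fin 3) (s : ℕ) (w : Om) : ℝ :=
  M.P.ce (M.S ∅ s) (fun u => ind (Rn M Q (some v) (nu M.toMS s u) u ∧ G s u)) w

/-- density in the node: alive at the public start, dead at `s` -/
def dD (s : ℕ) (w : Om) : ℝ := M.P.ce (M.S ∅ s) (fun u => ind (G (nu M.toMS s u) u ∧ ¬ G s u)) w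

variable {M Q G}

theorem dG_split (v : Fin 3) (s : ℕ) (w : Om) : dG M Q G v s w ≤ dA M Q G v s w + dD M G s w := by
  unfold dG dA dD
  rw [← M.P.ce_add]
  refine M.P.ce_mono (fun u _ => ?_) w
  by_cases h : Rn M Q (some v) (nu M.toMS s u) u ∧ G (nu M.toMS s u) u
  · rw [ind_of h]
    by_cases h2 : G s u
    · rw [ind_of (⟨h.1, h2⟩ : Rn M Q (some v) (nu M.toMS s u) u ∧ G s u)]
      have := ind_nonneg (G (nu M.toMS s u) u ∧ ¬ G s u)
      linarith
    · rw [ind_of (⟨h.2, h2⟩ : G (nu M.toMS s u) u ∧ ¬ G s u)]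
      have := ind_nonneg (Rn M Q (some v) (nu M.toMS s u) u ∧ G s u)
      linarith
  · rw [ind_not h]
    have h1 := ind_nonneg (G (nu M.toMS s u) u ∧ ¬ G s u)
    have h2 := ind_nonneg (Rn M Q (some v) (nu M.toMS s u) u ∧ G s u)
    linarith

/-- two blocked ends in the same public epoch are equal -/
theorem blk_one {v : Fin 3} {q q' : ℕ} {w : Om} (h : tv M v (q + 1) w = q + 1) (h' : tv M v (q' + 1) w = q' + 1)
    (hb : tv M v q w ≤ nu M.toMS q w) (hb' : tv M v q' w ≤ nu M.toMS q' w) (e : nu M.toMS q w = nu M.toMS q' w) : q = q' := by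
  by_contra hne
  have l1 : nu M.toMS q w ≤ q := stg_le _ _
  have l2 : nu M.toMS q' w ≤ q' := stg_le _ _
  rcases Nat.lt_or_gt_of_ne hne with h1 | h1
  · have h3 : tv M v (q + 1) w ≤ tv M v q' w := stg_mono (show q + 1 ≤ q' by omega) w
    omega
  · have h3 : tv M v (q' + 1) w ≤ tv M v q w := stg_mono (show q' + 1 ≤ q by omega) w
    omega

/-- the low densities in the zone -/
theorem low_le (Hs : Seen M) (hGm : ∀ w, M.P.p w ≠ 0 → ∀ q q', q ≤ q' → G q' w → G q w)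
    (hGa : ∀ w, M.P.p w ≠ 0 → ∀ n, G n w → Q.al n w) {E : ℕ → Om → Prop} {v : Fin 3}
    (hE : ∀ w, M.P.p w ≠ 0 → ∀ q, E q w → tv M v (q + 1) w = q + 1) {y : ℝ} (hy : 0 ≤ y) (T : ℕ) :
    ∑ q ∈ range T, M.P.Pr (fun w => (E q w ∧ Q.kv (some v) (tv M v q w) w ∧ blk M Q v q w ∧ G q w) ∧ dG M Q G v q w ≤ y) ≤
      y * Nz M Q T := by
  set B : ℕ → Om → Prop := fun s w => Z0 M Q s w ∧ dG M Q G v s w ≤ y with hB
  have hBS : ∀ s x w, M.S ∅ s x = M.S ∅ s w → (B s x ↔ B s w) := fun s x w e => by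
    have h1 : dG M Q G v s x = dG M Q G v s w := M.P.ce_fac (M.S ∅ s) _ x w e
    show (_ ∧ _) ↔ (_ ∧ _)
    rw [Z0_S Hs le_rfl e, h1]
  have h1 : ∑ q ∈ range T, M.P.Pr (fun w => (E q w ∧ Q.kv (some v) (tv M v q w) w ∧ blk M Q v q w ∧ G q w) ∧
      dG M Q G v q w ≤ y) ≤ ∑ s ∈ range T, M.P.Pr (fun w => fte (C0 M.toMS) B s w ∧
        (Rn M Q (some v) (nu M.toMS s w) w ∧ G (nu M.toMS s w) w)) := by
    refine Pr_inj (l := nu M.toMS) (fun w hw q hq h => ?_) (fun w hw q _ q' _ h h' e => ?_)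
    · obtain ⟨⟨_, hk, hb, hG⟩, hd⟩ := h
      obtain ⟨r, a, b, c⟩ := fte_ex (C := C0 M.toMS) (B := B) (s := q) (w := w) ⟨hb.1, hd⟩
      have c' : nu M.toMS r w = nu M.toMS q w := c
      refine ⟨r, lt_of_le_of_lt a hq, ⟨b, ?_, ?_⟩, c⟩
      · rw [c']
        exact Rn_of hb.2 ⟨hk, hGa w hw _ (hGm w hw _ _ (stg_le _ _) hG)⟩
      · rw [c']
        exact hGm w hw _ _ (stg_le _ _) hG
    · exact blk_one (hE w hw q h.1.1) (hE w hw q' h'.1.1) h.1.2.2.1.2 h'.1.2.2.1.2 e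
  have h2 : ∑ s ∈ range T, M.P.Pr (fte (C0 M.toMS) B s) ≤ Nz M Q T := by
    unfold Nz
    refine Pr_inj (l := nu M.toMS) (fun w _ s hs h => ?_) (fun w _ s _ s' _ h h' e => fte_one h h' e)
    obtain ⟨s', a, b, c⟩ := Z0_iff.1 h.1.1
    exact ⟨s', lt_of_le_of_lt b hs, c, stg_mid rfl a b⟩
  have h3 : ∀ s, M.P.Pr (fun w => fte (C0 M.toMS) B s w ∧ (Rn M Q (some v) (nu M.toMS s w) w ∧ G (nu M.toMS s w) w)) ≤
      y * M.P.Pr (fte (C0 M.toMS) B s) := fun s =>
    dens_lt (Z := M.S ∅ s) (fun x w e => fte_S (C := C0 M.toMS) (S := M.S ∅) (fun s => M.fS ∅ s)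
      (fun s => nu_S Hs le_rfl) hBS s e) _ fun w _ h => h.1.2
  refine h1.trans ((Finset.sum_le_sum fun s _ => h3 s).trans ?_)
  rw [← Finset.mul_sum]
  exact mul_le_mul_of_nonneg_left h2 hy

/-- the nodes with many dead tuples -/
theorem high_le (Hs : Seen M) (hGm : ∀ w, M.P.p w ≠ 0 → ∀ q q', q ≤ q' → G q' w → G q w) {E : ℕ → Om → Prop} {v : Fin 3}
    (hE : ∀ w, M.P.p w ≠ 0 → ∀ q, E q w → tv M v (q + 1) w = q + 1) {y : ℝ} (hy : 0 < y) (T : ℕ) :
    ∑ q ∈ range T, M.P.Pr (fun w => (E q w ∧ tv M v q w ≤ nu M.toMS q w) ∧ y < dD M G q w) ≤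
      1 / y * M.P.Pr (fun w => ¬ G T w) := by
  set B : ℕ → Om → Prop := fun s w => y < dD M G s w with hB
  have hBS : ∀ s x w, M.S ∅ s x = M.S ∅ s w → (B s x ↔ B s w) := fun s x w e => by
    have h1 : dD M G s x = dD M G s w := M.P.ce_fac (M.S ∅ s) _ x w e
    show (_ < _) ↔ (_ < _)
    rw [h1]
  have h1 : ∑ q ∈ range T, M.P.Pr (fun w => (E q w ∧ tv M v q w ≤ nu M.toMS q w) ∧ y < dD M G q w) ≤
      ∑ s ∈ range T, M.P.Pr (fte (C0 M.toMS) B s) := by
    refine Pr_inj (l := nu M.toMS) (fun w _ q hq h => ?_) (fun w hw q _ q' _ h h' e => ?_)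
    · obtain ⟨r, a, b, c⟩ := fte_ex (C := C0 M.toMS) (B := B) (s := q) (w := w) h.2
      exact ⟨r, lt_of_le_of_lt a hq, b, c⟩
    · exact blk_one (hE w hw q h.1.1) (hE w hw q' h'.1.1) h.1.2 h'.1.2 e
  have h3 : ∀ s, y * M.P.Pr (fte (C0 M.toMS) B s) ≤
      M.P.Pr (fun w => fte (C0 M.toMS) B s w ∧ (G (nu M.toMS s w) w ∧ ¬ G s w)) := fun s =>
    dens_ge (Z := M.S ∅ s) (fun x w e => fte_S (C := C0 M.toMS) (S := M.S ∅) (fun s => M.fS ∅ s)
      (fun s => nu_S Hs le_rfl) hBS s e) _ fun w _ h => h.1.le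
  have h4 : ∑ s ∈ range T, M.P.Pr (fun w => fte (C0 M.toMS) B s w ∧ (G (nu M.toMS s w) w ∧ ¬ G s w)) ≤
      M.P.Pr (fun w => ¬ G T w) := by
    classical
    unfold FP.Pr
    rw [← FP.E_sum]
    refine M.P.E_mono fun w hw => ?_
    by_cases hT : G T w
    · rw [ind_not (fun hh : ¬ G T w => hh hT)]
      exact le_of_eq (Finset.sum_eq_zero fun s hs => ind_not fun hh => hh.2.2 (hGm w hw s T (mem_range.1 hs).le hT))
    · rw [ind_of hT]
      have k1 : ∀ s ∈ range T, ∀ s' ∈ range T, s < s' →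
          (fte (C0 M.toMS) B s w ∧ (G (nu M.toMS s w) w ∧ ¬ G s w)) →
          (fte (C0 M.toMS) B s' w ∧ (G (nu M.toMS s' w) w ∧ ¬ G s' w)) → False := by
        intro s _ s' _ hss hs hs'
        rcases Nat.lt_or_ge s (nu M.toMS s' w) with h5 | h5
        · exact hs.2.2 (hGm w hw _ _ h5.le hs'.2.1)
        · have h6 : nu M.toMS s w = nu M.toMS s' w := stg_mid rfl h5 hss.le
          have h7 := fte_one (C := C0 M.toMS) hs.1 hs'.1 h6
          omega
      by_cases hex : ∃ s ∈ range T, (fte (C0 M.toMS) B s w ∧ (G (nu M.toMS s w) w ∧ ¬ G s w))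
      · obtain ⟨s, hs, h5⟩ := hex
        rw [← Finset.add_sum_erase _ _ hs, Finset.sum_eq_zero, add_zero]
        · exact ind_le_one _
        · intro s' hs'
          refine ind_not fun h6 => ?_
          have h7 := Finset.mem_erase.1 hs'
          rcases lt_or_gt_of_ne h7.1 with h8 | h8
          · exact k1 s' h7.2 s hs h8 h6 h5
          · exact k1 s hs s' h7.2 h8 h5 h6
      · rw [Finset.sum_eq_zero]
        · exact zero_le_one
        · intro s hs
          exact ind_not fun h6 => hex ⟨s, hs, h6⟩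
  have h5 : y * ∑ s ∈ range T, M.P.Pr (fte (C0 M.toMS) B s) ≤ M.P.Pr (fun w => ¬ G T w) := by
    rw [Finset.mul_sum]
    exact (Finset.sum_le_sum fun s _ => h3 s).trans h4
  refine h1.trans ?_
  rw [one_div, ← div_eq_inv_mul, le_div_iff₀ hy, mul_comm]
  exact h5

/-- **PRIVATE REMOVALS IN THE ZONE** -/
theorem stk_le (Hs : Seen M) (hGm : ∀ w, M.P.p w ≠ 0 → ∀ q q', q ≤ q' → G q' w → G q w)
    (hGa : ∀ w, M.P.p w ≠ 0 → ∀ n, G n w → Q.al n w) {E : ℕ → Om → Prop} {v : Fin 3}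
    (hE : ∀ w, M.P.p w ≠ 0 → ∀ q, E q w → tv M v (q + 1) w = q + 1) {y : ℝ} (hy : 0 < y) (T : ℕ) :
    ∑ q ∈ range T, M.P.Pr (fun w => E q w ∧ Q.kv (some v) (tv M v q w) w ∧ blk M Q v q w ∧ G q w) ≤
      y * Nz M Q T + 2 / y * M.P.Pr (fun w => ¬ G T w) +
        ∑ q ∈ range T, M.P.Pr (fun w => E q w ∧ G q w ∧ y / 2 < dA M Q G v q w) := by
  have h1 := low_le (Q := Q) (G := G) Hs hGm hGa hE hy.le T
  have h2 := high_le (G := G) Hs hGm hE (y := y / 2) (by linarith) T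
  have h3 : ∀ q ∈ range T, M.P.Pr (fun w => E q w ∧ Q.kv (some v) (tv M v q w) w ∧ blk M Q v q w ∧ G q w) ≤
      M.P.Pr (fun w => (E q w ∧ Q.kv (some v) (tv M v q w) w ∧ blk M Q v q w ∧ G q w) ∧ dG M Q G v q w ≤ y) +
      M.P.Pr (fun w => (E q w ∧ tv M v q w ≤ nu M.toMS q w) ∧ y / 2 < dD M G q w) +
      M.P.Pr (fun w => E q w ∧ G q w ∧ y / 2 < dA M Q G v q w) := by
    intro q _
    unfold FP.Pr
    rw [← FP.E_add, ← FP.E_add]
    refine M.P.E_mono fun w _ => ?_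
    have n1 := ind_nonneg ((E q w ∧ Q.kv (some v) (tv M v q w) w ∧ blk M Q v q w ∧ G q w) ∧ dG M Q G v q w ≤ y)
    have n2 := ind_nonneg ((E q w ∧ tv M v q w ≤ nu M.toMS q w) ∧ y / 2 < dD M G q w)
    have n3 := ind_nonneg (E q w ∧ G q w ∧ y / 2 < dA M Q G v q w)
    by_cases h : E q w ∧ Q.kv (some v) (tv M v q w) w ∧ blk M Q v q w ∧ G q w
    · rw [ind_of h]
      rcases le_or_gt (dG M Q G v q w) y with h4 | h4
      · rw [ind_of (⟨h, h4⟩ : (E q w ∧ Q.kv (some v) (tv M v q w) w ∧ blk M Q v q w ∧ G q w) ∧ dG M Q G v q w ≤ y)]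
        linarith
      · have h5 := dG_split (M := M) (Q := Q) (G := G) v q w
        rcases lt_or_ge (y / 2) (dD M G q w) with h6 | h6
        · rw [ind_of (⟨⟨h.1, h.2.2.1.2⟩, h6⟩ : (E q w ∧ tv M v q w ≤ nu M.toMS q w) ∧ y / 2 < dD M G q w)]
          linarith
        · rw [ind_of (⟨h.1, h.2.2.2, by linarith⟩ : E q w ∧ G q w ∧ y / 2 < dA M Q G v q w)]
          linarith
    · rw [ind_not h]
      linarith
  refine (Finset.sum_le_sum h3).trans ?_
  rw [Finset.sum_add_distrib, Finset.sum_add_distrib]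
  have e : 1 / (y / 2) = 2 / y := by
    field_simp
  rw [e] at h2
  linarith

end

end Pool.Agent.GMH.UV
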