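import Pool.Agent.GMH.StkP
import Pool.Agent.GMH.StpT2
import Pool.Agent.GMH.RarN8
import Pool.Agent.GMH.CtxD

/-!
# GMH/StkR (helper3): THE RARE SUM OF THE PRIVATE REMOVALS IN THE ZONE (row ST; plan of helper7)

At a private removal of `i` (state `q = 5 t + 4`) the class of the exact `i` has a light value.
* `own_letter` : an event `B` of the node (hidden point, cells) which is rare in the public class is rare in the class of the
  exact `i` with a typical letter: `Pr (C, B) ≤ exp (X0 - L1) Pr C`;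
* `own_step` : per step, the relation of a start `τ ≤ q` cut by `Alv p q` has density `≥ y` given the node (class mass at `okq`);
* `own_sum` : the sum over the steps: `exp (X0 - L1) ∑ Pr (rpO i q) + 32 e^(-lam) n N1 Lam + Pr (not Alv (5 T))`;
* **`stk_gen`** : the same for any clocks `M` over the sights of the run (theories `A`, `B`), any starts of the relation;
* **`stk_sum`** : with `StkP.stk_le`: `∑_q Pr (rpO i q, kv (some i) (tv i q), blk i q, Alv q) ≤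
  y Nz + (2 / y + 1) Pr (not Alv (5 T)) + exp (X0 - L1) NLx i + 32 e^(-lam) n N1 Lam`.
-/

set_option autoImplicit false
set_option linter.unusedSectionVars false

namespace Pool.Agent.GMH.StkR

open Finset Pool.Agent.PWZ Pool.Agent.M3 Pool.Agent.GM Pool.Agent.GM.Harm Pool.Agent.GMH
open Pool.Agent.GMH.Dy Pool.Agent.GMH.MVI Pool.Agent.GMH.MVIp Pool.Agent.GMH.KF Pool.Agent.GMH.RarN
open Pool.Agent.GMH.UV (US Kd tv Rn dA blk Nz stk_le)

section om

variable {X β γ φ : Type} [Fintype X] [Fintype β] [Fintype φ] [Nonempty X] [Nonempty β]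
variable {D : HD (Fin 3) X β γ φ} {al : ℝ} {h : D.Thick al} {prr : ℕ → Fin 3 → φ → φ} {T : ℕ} {W : Type} [Fintype W]
variable {tb : Tab D prr T W} {v : ℕ → Finset (Fin 3) → X → (Fin 3 → β) → Pt (Fin 3) X β φ}

/-- **THE OWN LETTER** : an event of the node, rare in the public class, is rare in the classes of the exact `i` -/
theorem own_letter (hv : Codes D v) {q : ℕ} {i : Fin 3} (eN : NPo tb v (q + 1) = NPo tb v q) {B C : Om W X β → Prop}
    (hB : Fac (sgt D ∅ (TP.nn q)) B) (hC : Fac (fun w => (XLo tb v i (q + 1) w, NPo tb v (q + 1) w)) C) {X0 L1 : ℝ}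
    (hX : ∀ w, tb.Ps.p w ≠ 0 → C w → Real.exp (-X0) * tb.Ps.m (fun u => (u.2.2 i, NPo tb v q u)) w ≤
      tb.Ps.m (fun u => (XLo tb v i (q + 1) u, NPo tb v (q + 1) u)) w)
    (hBm : ∀ w, tb.Ps.p w ≠ 0 → C w → tb.Ps.Pr (fun u => NPo tb v q u = NPo tb v q w ∧ B u) ≤
      Real.exp (-L1) * tb.Ps.m (NPo tb v q) w) :
    tb.Ps.Pr (fun w => C w ∧ B w) ≤ Real.exp (X0 - L1) * tb.Ps.Pr C := by
  classical
  set K : Om W X β → (β × List (Pt (Fin 3) X β φ)) × (List (Pt (Fin 3) X β φ) × (γ × (Fin 3 → γ))) :=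
    fun w => (XLo tb v i (q + 1) w, NPo tb v (q + 1) w) with hK
  -- the class of `w`
  have key : ∀ w, tb.Ps.p w ≠ 0 → C w → tb.Ps.E (fun u => ind (K u = K w) * ind (B u)) ≤
      Real.exp (X0 - L1) * tb.Ps.m K w := by
    intro w hw hCw
    by_cases hex : ∃ u, tb.Ps.p u ≠ 0 ∧ K u = K w ∧ B u
    · obtain ⟨u0, hu0, hKu, hBu⟩ := hex
      have hCu : C u0 := by rw [hC u0 w hKu]; exact hCw
      have hMs : Fac (sgt (W := W) D ∅ (TP.nn q)) (fun u => (B u, NPo tb v q u)) :=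
        hB.prod (NPq_sgt tb hv le_rfl (TP.nc_le q ∅) ∅ 0)
      have hNn : Fac (NPo tb v q) (ndE (W := W) D ∅ (TP.nn q)) := NPq_ndE tb (v := v) q 0
      have hMn : Fac (fun u => (B u, NPo tb v q u)) (ndE (W := W) D ∅ (TP.nn q)) := fun a b e =>
        hNn a b (Prod.mk.inj e).2
      have hY : Fac (fun w : Om W X β => w.2.2) (fun w : Om W X β => w.2.2 i) := fun a b e => congrFun e i
      have k1 := pr_key tb ∅ (TP.nn q) hMs hMn hY u0
      have k2 := pr_key tb ∅ (TP.nn q) (NPq_sgt tb hv le_rfl (TP.nc_le q ∅) ∅ 0) hNn hY u0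
      have k2' : tb.Ps.m (fun u => (u.2.2 i, NPo tb v q u)) u0 =
        tb.Ps.ce (ndE D ∅ (TP.nn q)) (fun u => ind (u.2.2 i = u0.2.2 i)) u0 * tb.Ps.m (NPo tb v q) u0 := k2
      set κ := tb.Ps.ce (ndE D ∅ (TP.nn q)) (fun u => ind (u.2.2 i = u0.2.2 i)) u0 with hκ
      have hκ0 : 0 ≤ κ := tb.Ps.ce_nonneg (fun _ _ => ind_nonneg _) u0
      have e1 : tb.Ps.m (fun u => (B u, NPo tb v q u)) u0 =
          tb.Ps.Pr (fun u => NPo tb v q u = NPo tb v q u0 ∧ B u) := by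
        unfold FP.m FP.Pr
        refine tb.Ps.E_congr fun u _ => ?_
        congr 1
        refine propext ⟨fun e => ⟨(Prod.mk.inj e).2, ?_⟩, fun e => Prod.ext (propext ⟨fun _ => hBu, fun _ => e.2⟩) e.1⟩
        rw [(Prod.mk.inj e).1]
        exact hBu
      have h1 : tb.Ps.E (fun u => ind (K u = K w) * ind (B u)) ≤ tb.Ps.m (fun u => (u.2.2 i, (B u, NPo tb v q u))) u0 := by
        unfold FP.m
        refine tb.Ps.E_mono fun u _ => ?_
        rw [← ind_and]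
        refine ind_mono fun hh => ?_
        have g1 : K u = K u0 := hh.1.trans hKu.symm
        have g2 : XLo tb v i (q + 1) u = XLo tb v i (q + 1) u0 := (Prod.mk.inj g1).1
        have g3 : NPo tb v (q + 1) u = NPo tb v (q + 1) u0 := (Prod.mk.inj g1).2
        rw [eN] at g3
        have g4 : u.2.2 i = u0.2.2 i := congrArg Prod.fst g2
        exact Prod.ext g4 (Prod.ext (propext ⟨fun _ => hBu, fun _ => hh.2⟩) g3)
      have h2 := mul_le_mul_of_nonneg_left (hBm u0 hu0 hCu) hκ0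
      have h3 := hX u0 hu0 hCu
      have e2 : tb.Ps.m K u0 = tb.Ps.m K w := tb.Ps.Fac_m K u0 w hKu
      have h4 : tb.Ps.m (fun u => (u.2.2 i, NPo tb v q u)) u0 ≤ Real.exp X0 * tb.Ps.m K u0 := by
        have := mul_le_mul_of_nonneg_left h3 (Real.exp_pos X0).le
        rw [← mul_assoc, ← Real.exp_add, add_neg_cancel, Real.exp_zero, one_mul] at this
        exact this
      have h5 := mul_le_mul_of_nonneg_left h4 (Real.exp_pos (-L1)).le
      rw [e1] at k1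
      calc tb.Ps.E (fun u => ind (K u = K w) * ind (B u)) ≤ _ := h1
        _ = κ * tb.Ps.Pr (fun u => NPo tb v q u = NPo tb v q u0 ∧ B u) := k1
        _ ≤ κ * (Real.exp (-L1) * tb.Ps.m (NPo tb v q) u0) := h2
        _ = Real.exp (-L1) * tb.Ps.m (fun u => (u.2.2 i, NPo tb v q u)) u0 := by rw [k2']; ring
        _ ≤ Real.exp (-L1) * (Real.exp X0 * tb.Ps.m K u0) := h5
        _ = Real.exp (X0 - L1) * tb.Ps.m K w := by
          rw [e2, ← mul_assoc, ← Real.exp_add]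
          congr 2
          ring
    · have h1 : tb.Ps.E (fun u => ind (K u = K w) * ind (B u)) = 0 := by
        rw [tb.Ps.E_congr (g := fun _ => 0) fun u hu => ?_, tb.Ps.E_const]
        rw [← ind_and]
        exact ind_not fun hh => hex ⟨u, hu, hh.1, hh.2⟩
      rw [h1]
      exact mul_nonneg (Real.exp_pos _).le (tb.Ps.m_pos K hw).le
  have e1 : tb.Ps.Pr (fun w => C w ∧ B w) = tb.Ps.E (fun w => ind (C w) * tb.Ps.ce K (fun u => ind (B u)) w) := by
    rw [tb.Ps.E_mul_ce (Fac.ind fun u w e => by rw [hC u w e])]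
    exact tb.Ps.E_congr fun w _ => ind_and _ _
  rw [e1]
  unfold FP.Pr
  rw [← FP.E_smul]
  refine tb.Ps.E_mono fun w hw => ?_
  by_cases hCw : C w
  · rw [ind_of hCw, one_mul, mul_one]
    have p0 := tb.Ps.m_pos K hw
    unfold FP.ce
    rw [div_le_iff₀ p0]
    exact key w hw hCw
  · rw [ind_not hCw, zero_mul, mul_zero]

/-- **PER STEP** : the private step of a heavy level, the density of a relation given the node, inside an event of the class of
the exact `i` with a typical letter -/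
theorem own_step {n N1 : ℝ} (hn : 1 ≤ n) (hN1 : 1 ≤ N1) (R : Run h (pr3 (Fin 3) n N1) (SS1 (Fin 3)) (AdmDep D) v)
    {dg : ℕ → X → ℝ} {Lam : ℝ} (H : D.Hyp dg prr al T Lam) {q : ℕ} (hq4 : q % 5 = 4) (hqT : q < 5 * T) {i : Fin 3}
    {p : V3.AP} (hX0 : 0 ≤ p.X0) {lam L1 eta y : ℝ} (hlam : 0 ≤ lam) (hL1 : 0 ≤ L1) {τ : Om W X β → ℕ}
    (hτ : ∀ u w, tb.Ps.p u ≠ 0 → tb.Ps.p w ≠ 0 → Es tb v q u w → τ u = τ w) (hle : ∀ w, τ w ≤ q)
    {B : ℕ → Om W X β → Prop} (hB : ∀ e ≤ q, Sn tb v q (B e)) {C : Om W X β → Prop}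
    (hC : Fac (fun w => (XLo tb v i (q + 1) w, NPo tb v (q + 1) w)) C)
    (hCx : ∀ w, tb.Ps.p w ≠ 0 → C w → TP.ssQ h v (q + 1) i (tb.pt ((q + 1) / 5) w) ≤ p.X0)
    (hdg : ∀ w, tb.Ps.p w ≠ 0 → C w → GamR.hvy tb v dg lam (q / 5) w)
    (hhz : ∀ w, tb.Ps.p w ≠ 0 → C w → hz tb v (q / 5) w)
    (hm : ∀ w, tb.Ps.p w ≠ 0 → C w → okq tb v lam q w →
      tb.Ps.ce (NPo tb v q) (fun u => ind (At' tb v τ B u ∧ Alv h v tb p q u)) w ≤ eta)
    (hy : 54 * (L1 + 2 * (lam + 4) + 2 * p.X0 + 5) / N1 + 54 * Lam / n + 2 * eta < y / 8) :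
    tb.Ps.Pr (fun w => C w ∧ y ≤ tb.Ps.ce (sgt D ∅ (TP.nn q)) (fun u => ind (At' tb v τ B u ∧ Alv h v tb p q u)) w) ≤
      Real.exp (p.X0 - L1) * tb.Ps.Pr C := by
  classical
  have hv := R.codes
  set t := q / 5 with ht
  have hq : q = 5 * t + 4 := by omega
  have htT : t < T := by omega
  have eN : NPo tb v (q + 1) = NPo tb v q := by
    rw [hq, NPo_2 (tb := tb) (v := v) (t := t) (show 2 ≤ 4 by norm_num) (by norm_num)]
    exact NPo_2 (tb := tb) (v := v) (t := t) (show 2 ≤ 5 by norm_num) le_rfl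
  refine own_letter (tb := tb) hv eN (fun a b e => ?_) hC (fun w hw hCw => ?_) fun w hw hCw => ?_
  · rw [tb.Ps.ce_fac (sgt D ∅ (TP.nn q)) _ a b e]
  · -- the letter is typical
    have h1 := hCx w hw hCw
    have hq5 : (q + 1) / 5 ≤ T := by omega
    have H0 : Pul tb.Ps (D.P h ((q + 1) / 5)) (tb.pt ((q + 1) / 5)) := pul_pt h tb hq5
    have m1 : tb.Ps.m (fun u => (u.2.2 i, NPo tb v (q + 1) u)) w =
        (D.P h ((q + 1) / 5)).m (fun u => (u.2.1 i, TP.NPq D v (q + 1) u)) (tb.pt ((q + 1) / 5) w) :=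
      H0.m (fun u => (u.2.1 i, TP.NPq D v (q + 1) u)) w
    have m2 : tb.Ps.m (fun u => (XLo tb v i (q + 1) u, (u.2.2 i, NPo tb v (q + 1) u))) w =
        (D.P h ((q + 1) / 5)).m (fun u => (TP.XLq v (q + 1) i u, (u.2.1 i, TP.NPq D v (q + 1) u)))
          (tb.pt ((q + 1) / 5) w) :=
      H0.m (fun u => (TP.XLq v (q + 1) i u, (u.2.1 i, TP.NPq D v (q + 1) u))) w
    have m3 : tb.Ps.m (fun u => (XLo tb v i (q + 1) u, NPo tb v (q + 1) u)) w =
        tb.Ps.m (fun u => (XLo tb v i (q + 1) u, (u.2.2 i, NPo tb v (q + 1) u))) w := by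
      unfold FP.m
      refine tb.Ps.E_congr fun u _ => ?_
      congr 1
      refine propext ⟨fun e => ?_, fun e => ?_⟩
      · have g1 : XLo tb v i (q + 1) u = XLo tb v i (q + 1) w := (Prod.mk.inj e).1
        have g2 : u.2.2 i = w.2.2 i := congrArg Prod.fst g1
        exact Prod.ext g1 (Prod.ext g2 (Prod.mk.inj e).2)
      · exact Prod.ext (Prod.mk.inj e).1 (Prod.mk.inj (Prod.mk.inj e).2).2
    have p1 := tb.Ps.m_pos (fun u => (u.2.2 i, NPo tb v (q + 1) u)) hw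
    have p2 := tb.Ps.m_pos (fun u => (XLo tb v i (q + 1) u, NPo tb v (q + 1) u)) hw
    have h2 : Real.log (tb.Ps.m (fun u => (u.2.2 i, NPo tb v (q + 1) u)) w) -
        Real.log (tb.Ps.m (fun u => (XLo tb v i (q + 1) u, NPo tb v (q + 1) u)) w) ≤ p.X0 := by
      rw [m1, m3, m2]
      exact h1
    rw [← eN]
    have h3 : Real.log (Real.exp (-p.X0) * tb.Ps.m (fun u => (u.2.2 i, NPo tb v (q + 1) u)) w) ≤
        Real.log (tb.Ps.m (fun u => (XLo tb v i (q + 1) u, NPo tb v (q + 1) u)) w) := by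
      rw [Real.log_mul (Real.exp_pos _).ne' p1.ne', Real.log_exp]
      linarith
    exact (Real.log_le_log_iff (mul_pos (Real.exp_pos _) p1) p2).1 h3
  · -- rare in the public class
    have hCq : Fac (NPo tb v q) (fun u => NPo tb v q u = NPo tb v q w) := fun a b e => by
      show (NPo tb v q a = _) = (NPo tb v q b = _)
      rw [e]
    have hNz : ∀ u, tb.Ps.p u ≠ 0 → NPo tb v q u = NPo tb v q w → hz tb v t u := fun u _ e =>
      (hz_fac (by omega) e).2 (hhz w hw hCw)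
    have k := step_B (h := h) (tb := tb) hn hN1 R H (q := q) (s := q) (Or.inr (by omega)) le_rfl (by omega) hX0 hlam hL1 hτ hle
      hB hCq (fun u _ e _ => (hvy_NP H htT (by omega) e).2 (hdg w hw hCw)) (fun u hu e _ => hNz u hu e)
      (fun u hu e => by
        rw [tb.Ps.ce_fac (NPo tb v q) _ u w e]
        refine hm w hw hCw (Or.inr ?_)
        have k0 := low5 (tb := tb) hv H (t := t) (j := 4) htT (by norm_num) hw hlam (fun _ => hdg w hw hCw) (fun _ => hhz w hw hCw)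
        rw [← hq] at k0
        exact k0) hy
    exact k

/-- the ends: alive at `q`, not alive at `q + 1` -/
theorem die_sum (p : V3.AP) (N : ℕ) :
    ∑ q ∈ range N, tb.Ps.Pr (fun w => Alv h v tb p q w ∧ ¬ Alv h v tb p (q + 1) w) ≤
      tb.Ps.Pr (fun w => ¬ Alv h v tb p N w) := by
  induction N with
  | zero => rw [Finset.sum_range_zero]; exact tb.Ps.Pr_nonneg _
  | succ N ih =>
    rw [Finset.sum_range_succ]
    refine (add_le_add ih le_rfl).trans ?_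
    unfold FP.Pr
    rw [← FP.E_add]
    refine tb.Ps.E_mono fun w _ => ?_
    by_cases h1 : Alv h v tb p (N + 1) w
    · have h2 : Alv h v tb p N w := Alv_anti h v tb (Nat.le_succ N) h1
      rw [ind_not (fun hh : ¬ Alv h v tb p N w => hh h2), ind_not (fun hh : Alv h v tb p N w ∧ ¬ Alv h v tb p (N + 1) w => hh.2 h1),
        add_zero]
      exact ind_nonneg _
    · rw [ind_of h1]
      by_cases h2 : Alv h v tb p N w
      · rw [ind_not (fun hh : ¬ Alv h v tb p N w => hh h2), zero_add]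
        exact ind_le_one _
      · rw [ind_of h2, ind_not (fun hh : Alv h v tb p N w ∧ ¬ Alv h v tb p (N + 1) w => h2 hh.1), add_zero]

theorem sum_four (f : ℕ → ℝ) (T : ℕ) : ∑ q ∈ range (5 * T), (if q % 5 = 4 then f (q / 5) else 0) = ∑ t ∈ range T, f t := by
  induction T with
  | zero => simp
  | succ T ih =>
    rw [show 5 * (T + 1) = 5 * T + 1 + 1 + 1 + 1 + 1 by ring, Finset.sum_range_succ, Finset.sum_range_succ, Finset.sum_range_succ,
      Finset.sum_range_succ, Finset.sum_range_succ, ih, Finset.sum_range_succ]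
    rw [if_neg (show ¬ 5 * T % 5 = 4 by omega), if_neg (show ¬ (5 * T + 1) % 5 = 4 by omega),
      if_neg (show ¬ (5 * T + 1 + 1) % 5 = 4 by omega), if_neg (show ¬ (5 * T + 1 + 1 + 1) % 5 = 4 by omega),
      if_pos (show (5 * T + 1 + 1 + 1 + 1) % 5 = 4 by omega), show (5 * T + 1 + 1 + 1 + 1) / 5 = T by omega]
    ring

section clk

variable (tb)
variable (hv : Codes D v) {d1 kb d0 k0 p1 z : ℝ} (hd1 : 0 < d1) (hd11 : d1 ≤ 1) (hkb : 0 < kb) (hd0 : 0 < d0)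
  (hd01 : d0 ≤ 1) (hk0 : 0 < k0) (hp1 : 0 < p1) (hz0 : 0 < z)

/-- a private removal is seen by the class of the exact vertex after the step -/
theorem rpO_fac {i : Fin 3} {q : ℕ} {a b : Om W X β} (e : (XLo tb v i (q + 1) a, NPo tb v (q + 1) a) =
    (XLo tb v i (q + 1) b, NPo tb v (q + 1) b)) : TRF.rpO tb v i q a ↔ TRF.rpO tb v i q b := by
  have g1 : XLo tb v i (q + 1) a = XLo tb v i (q + 1) b := (Prod.mk.inj e).1
  have e1 : NPo tb v (q + 1) a = NPo tb v (q + 1) b := (Prod.mk.inj e).2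
  unfold TRF.rpO
  refine and_congr_right fun hq => ?_
  have e0 : NPo tb v q a = NPo tb v q b := NPo_fac tb q a b e1
  have g0 : XLo tb v i q a = XLo tb v i q b := XLo_fac tb i q a b g1
  have e5 : NPo tb v (5 * (q / 5) + 1) a = NPo tb v (5 * (q / 5) + 1) b := NPo_mono tb (by omega) e0
  have e6 : NPo tb v (5 * (q / 5) + 2) a = NPo tb v (5 * (q / 5) + 2) b := NPo_mono tb (by omega) e0
  have m1 := tb.Ps.Fac_m (fun u => (XLo tb v i (q + 1) u, NPo tb v (q + 1) u)) a b (Prod.ext g1 e1)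
  have m0 := tb.Ps.Fac_m (fun u => (XLo tb v i q u, NPo tb v q u)) a b (Prod.ext g0 e0)
  rw [m1, m0, tb.Ps.Fac_m (NPo tb v (5 * (q / 5) + 1)) a b e5, tb.Ps.Fac_m (NPo tb v (5 * (q / 5) + 2)) a b e6]

/-- the surprisal of the letter is seen by the class -/
theorem ssQ_fac {i : Fin 3} {q : ℕ} {a b : Om W X β} (e : (XLo tb v i q a, NPo tb v q a) = (XLo tb v i q b, NPo tb v q b)) :
    TP.ssQ h v q i (tb.pt (q / 5) a) = TP.ssQ h v q i (tb.pt (q / 5) b) := by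
  have g1 : TP.XLq v q i (tb.pt (q / 5) a) = TP.XLq v q i (tb.pt (q / 5) b) := (Prod.mk.inj e).1
  have g2 : TP.NPq D v q (tb.pt (q / 5) a) = TP.NPq D v q (tb.pt (q / 5) b) := (Prod.mk.inj e).2
  have g3 : (tb.pt (q / 5) a).2.1 i = (tb.pt (q / 5) b).2.1 i := congrArg Prod.fst g1
  exact V3.sp_fac _ _ _ _ _ (Prod.ext g1 (Prod.ext g3 g2))

section nod

variable {n N1 : ℝ} (hn : 1 ≤ n) (hN1 : 1 ≤ N1) (R : Run h (pr3 (Fin 3) n N1) (SS1 (Fin 3)) (AdmDep D) v)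
  {dg : ℕ → X → ℝ} {Lam : ℝ} (H : D.Hyp dg prr al T Lam)

include hn hN1 R H

/-- **SUM OVER THE STEPS** : private removals of `i`, dense nodes -/
theorem own_sum {i : Fin 3} {p : V3.AP} (hX0 : 0 ≤ p.X0) {lam L1 eta y : ℝ} (hlam : 2 ≤ lam) (hL1 : 0 ≤ L1)
    {τ : ℕ → Om W X β → ℕ}
    (hτ : ∀ q < 5 * T, ∀ u w, tb.Ps.p u ≠ 0 → tb.Ps.p w ≠ 0 → Es tb v q u w → τ q u = τ q w) (hle : ∀ q w, τ q w ≤ q)
    {B : ℕ → Om W X β → Prop} (hB : ∀ e ≤ 5 * T, Sn tb v e (B e))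
    {A : ℕ → Om W X β → Prop} (hA : ∀ q < 5 * T, ∀ w, tb.Ps.p w ≠ 0 → A q w → Alv h v tb p q w → At' tb v (τ q) B w)
    (hm : ∀ q < 5 * T, ∀ w, tb.Ps.p w ≠ 0 → okq tb v lam q w →
      tb.Ps.ce (NPo tb v q) (fun u => ind (At' tb v (τ q) B u ∧ Alv h v tb p q u)) w ≤ eta)
    (hy : 54 * (L1 + 2 * (lam + 4) + 2 * p.X0 + 5) / N1 + 54 * Lam / n + 2 * eta < y / 8) :
    ∑ q ∈ range (5 * T), tb.Ps.Pr (fun w => TRF.rpO tb v i q w ∧ Alv h v tb p q w ∧
        y < tb.Ps.ce (sgt D ∅ (TP.nn q)) (fun u => ind (A q u ∧ Alv h v tb p q u)) w) ≤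
      Real.exp (p.X0 - L1) * ∑ q ∈ range (5 * T), tb.Ps.Pr (TRF.rpO tb v i q) +
        32 * Real.exp (-lam) * (n * N1 * Lam) + tb.Ps.Pr (fun w => ¬ Alv h v tb p (5 * T) w) := by
  classical
  have he : Real.exp (-lam) ≤ 1 / 4 := by
    have h1 : Real.exp (-lam) ≤ Real.exp (-2) := Real.exp_le_exp.2 (by linarith)
    have h2 : Real.exp (-2) ≤ 1 / 4 := by
      have h3 := Real.exp_one_gt_d9
      have h4 : Real.exp 2 = Real.exp 1 * Real.exp 1 := by rw [← Real.exp_add]; norm_num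
      rw [Real.exp_neg, one_div]
      exact inv_anti₀ (by norm_num) (by rw [h4]; nlinarith)
    exact h1.trans h2
  have key : ∀ q ∈ range (5 * T), tb.Ps.Pr (fun w => TRF.rpO tb v i q w ∧ Alv h v tb p q w ∧
        y < tb.Ps.ce (sgt D ∅ (TP.nn q)) (fun u => ind (A q u ∧ Alv h v tb p q u)) w) ≤
      Real.exp (p.X0 - L1) * tb.Ps.Pr (TRF.rpO tb v i q) +
        (if q % 5 = 4 then tb.Ps.Pr (fun w => ¬ GamR.hvy tb v dg lam (q / 5) w) else 0) +
        tb.Ps.Pr (fun w => Alv h v tb p q w ∧ ¬ Alv h v tb p (q + 1) w) := by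
    intro q hq
    have hqT := mem_range.1 hq
    have m0 := mul_nonneg (Real.exp_pos (p.X0 - L1)).le (tb.Ps.Pr_nonneg (TRF.rpO tb v i q))
    have m2 := tb.Ps.Pr_nonneg (fun w => Alv h v tb p q w ∧ ¬ Alv h v tb p (q + 1) w)
    by_cases hq4 : q % 5 = 4
    · rw [if_pos hq4]
      set C : Om W X β → Prop := fun w => TRF.rpO tb v i q w ∧
        TP.ssQ h v (q + 1) i (tb.pt ((q + 1) / 5) w) ≤ p.X0 ∧ GamR.hvy tb v dg lam (q / 5) w with hC
      have fC : Fac (fun w => (XLo tb v i (q + 1) w, NPo tb v (q + 1) w)) C := by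
        intro a b e
        show (_ ∧ _ ∧ _) = (_ ∧ _ ∧ _)
        rw [propext (rpO_fac tb e), ssQ_fac (h := h) tb e,
          propext (hvy_NP H (show q / 5 < T by omega) (show 5 * (q / 5) < q + 1 by omega) (Prod.mk.inj e).2)]
      have e1 : ∀ w, tb.Ps.ce (sgt D ∅ (TP.nn q)) (fun u => ind (A q u ∧ Alv h v tb p q u)) w ≤
          tb.Ps.ce (sgt D ∅ (TP.nn q)) (fun u => ind (At' tb v (τ q) B u ∧ Alv h v tb p q u)) w := fun w =>
        tb.Ps.ce_mono (fun u hu => ind_mono fun g => ⟨hA q hqT u hu g.1 g.2, g.2⟩) w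
      have k := own_step (h := h) (tb := tb) hn hN1 R H hq4 hqT (i := i) hX0 (lam := lam) (by linarith) hL1 (τ := τ q)
        (hτ q hqT) (hle q)
        (B := B) (fun e he => (hB e (by omega)).mono he (by omega)) fC (fun w _ hc => hc.2.1) (fun w _ hc => hc.2.2)
        (fun w _ hc => hc.1.2.2) (eta := eta) (y := y) (fun w hw _ ho => hm q hqT w hw ho) hy
      have k1 : tb.Ps.Pr C ≤ tb.Ps.Pr (TRF.rpO tb v i q) := tb.Ps.Pr_mono fun w _ hc => hc.1
      have k2 := k.trans (mul_le_mul_of_nonneg_left k1 (Real.exp_pos _).le)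
      refine le_trans (tb.Ps.Pr_mono (t := fun w => (C w ∧ y ≤ tb.Ps.ce (sgt D ∅ (TP.nn q))
        (fun u => ind (At' tb v (τ q) B u ∧ Alv h v tb p q u)) w) ∨
          (¬ GamR.hvy tb v dg lam (q / 5) w ∨ (Alv h v tb p q w ∧ ¬ Alv h v tb p (q + 1) w))) fun w hw hh => ?_)
        (le_trans (tb.Ps.Pr_or_le _ _) ?_)
      · obtain ⟨g1, g2, g3⟩ := hh
        by_cases c1 : GamR.hvy tb v dg lam (q / 5) w
        · by_cases c2 : TP.ssQ h v (q + 1) i (tb.pt ((q + 1) / 5) w) ≤ p.X0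
          · exact Or.inl ⟨⟨g1, c2, c1⟩, g3.le.trans (e1 w)⟩
          · exact Or.inr (Or.inr ⟨g2, fun g4 => c2 ((g4 (q + 1) le_rfl).1 i)⟩)
        · exact Or.inr (Or.inl c1)
      · have k3 := tb.Ps.Pr_or_le (fun w => ¬ GamR.hvy tb v dg lam (q / 5) w)
          (fun w => Alv h v tb p q w ∧ ¬ Alv h v tb p (q + 1) w)
        linarith
    · rw [if_neg hq4]
      have h0 : tb.Ps.Pr (fun w => TRF.rpO tb v i q w ∧ Alv h v tb p q w ∧
          y < tb.Ps.ce (sgt D ∅ (TP.nn q)) (fun u => ind (A q u ∧ Alv h v tb p q u)) w) = 0 := by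
        unfold FP.Pr
        rw [tb.Ps.E_congr (g := fun _ => 0) fun w _ => ind_not fun hh => hq4 hh.1.1, tb.Ps.E_const]
      rw [h0]
      linarith
  refine (Finset.sum_le_sum key).trans ?_
  rw [Finset.sum_add_distrib, Finset.sum_add_distrib, ← Finset.mul_sum,
    sum_four (fun t => tb.Ps.Pr (fun w => ¬ GamR.hvy tb v dg lam t w))]
  have h1 := GamR.sum_light tb hn hN1 R H he
  have h2 := die_sum (h := h) (tb := tb) (v := v) p (5 * T)
  linarith

/-- number of the private removals -/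
theorem rp_num (i : Fin 3) : ∑ q ∈ range (5 * T), tb.Ps.Pr (TRF.rpO tb v i q) ≤ 12 * n * N1 * Lam := by
  have k := MVI.nlx (h := h) tb (v := v) (d1 := 1) (kb := 1) (d0 := 1) (k0 := 1) (p1 := 1) (z := 1) one_pos le_rfl one_pos one_pos
    le_rfl one_pos one_pos one_pos hn hN1 R H i
  refine le_trans ?_ k
  unfold MV.NLx
  exact Finset.sum_le_sum fun q _ => tb.Ps.Pr_mono fun w _ hr => ⟨by show q % 5 ≠ 0; rw [hr.1]; omega, hr.2.1⟩

/-- **THE PRIVATE REMOVALS IN THE ZONE**, any clocks `M` over the sights of the run, any starts `τ` of the relation -/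
theorem stk_gen {M : US (Om W X β)} (hP : M.P = tb.Ps)
    (hS : ∀ s u w, M.S ∅ s u = M.S ∅ s w ↔ sgt D ∅ (TP.nn s) u = sgt D ∅ (TP.nn s) w) (Hs : UV.Seen M) {Q : Kd (Om W X β)}
    {i : Fin 3} (hE : ∀ w, tb.Ps.p w ≠ 0 → ∀ q, TRF.rpO tb v i q w → tv M i (q + 1) w = q + 1)
    {p : V3.AP} (hX0 : 0 ≤ p.X0) {lam L1 eta y : ℝ} (hlam : 2 ≤ lam)
    (hL1 : 0 ≤ L1) (hy0 : 0 < y) (hGa : ∀ w, tb.Ps.p w ≠ 0 → ∀ n, Alv h v tb p n w → Q.al n w)
    {τ : ℕ → Om W X β → ℕ}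
    (hτ : ∀ q < 5 * T, ∀ u w, tb.Ps.p u ≠ 0 → tb.Ps.p w ≠ 0 → Es tb v q u w → τ q u = τ q w) (hle : ∀ q w, τ q w ≤ q)
    {B : ℕ → Om W X β → Prop} (hB : ∀ e ≤ 5 * T, Sn tb v e (B e))
    (hA : ∀ q < 5 * T, ∀ w, tb.Ps.p w ≠ 0 → Rn M Q (Option.some i) (MV.nu M.toMS q w) w → Alv h v tb p q w →
      At' tb v (τ q) B w)
    (hm : ∀ q < 5 * T, ∀ w, tb.Ps.p w ≠ 0 → okq tb v lam q w →
      tb.Ps.ce (NPo tb v q) (fun u => ind (At' tb v (τ q) B u ∧ Alv h v tb p q u)) w ≤ eta)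
    (hy : 54 * (L1 + 2 * (lam + 4) + 2 * p.X0 + 5) / N1 + 54 * Lam / n + 2 * eta < y / 16) :
    ∑ q ∈ range (5 * T), tb.Ps.Pr (fun w => TRF.rpO tb v i q w ∧ Q.kv (Option.some i) (tv M i q w) w ∧
        blk M Q i q w ∧ Alv h v tb p q w) ≤
      y * Nz M Q (5 * T) + (2 / y + 1) * tb.Ps.Pr (fun w => ¬ Alv h v tb p (5 * T) w) +
        Real.exp (p.X0 - L1) * (12 * n * N1 * Lam) + 32 * Real.exp (-lam) * (n * N1 * Lam) := by
  classical
  have k1 := stk_le (M := M) (Q := Q) (G := Alv h v tb p) Hs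
    (fun w _ q q' hq hA' => Alv_anti h v tb hq hA') (fun w hw n => hGa w (by rw [← hP]; exact hw) n) (E := TRF.rpO tb v i) (v := i)
    (fun w hw q hr => hE w (by rw [← hP]; exact hw) q hr) hy0 (5 * T)
  have k2 := own_sum (h := h) tb hn hN1 R H (i := i) hX0 (lam := lam) (L1 := L1) (eta := eta)
    (y := y / 2) hlam hL1 hτ hle hB (A := fun q u => Rn M Q (Option.some i) (MV.nu M.toMS q u) u) hA hm (by linarith)
  have k4 := mul_le_mul_of_nonneg_left (rp_num (h := h) tb hn hN1 R H i) (Real.exp_pos (p.X0 - L1)).le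
  have k6 : ∀ q w, dA M Q (Alv h v tb p) i q w = tb.Ps.ce (sgt D ∅ (TP.nn q)) (fun u => ind (Rn M Q (Option.some i)
          (MV.nu M.toMS q u) u ∧ Alv h v tb p q u)) w := fun q w => by
    unfold dA
    rw [hP]
    exact tb.Ps.ce_congr_map (fun a b e => (hS q a b).1 e) (fun a b e => (hS q a b).2 e) _ w
  have k5 : ∑ q ∈ range (5 * T), M.P.Pr (fun w => TRF.rpO tb v i q w ∧ Alv h v tb p q w ∧
      y / 2 < dA M Q (Alv h v tb p) i q w) = ∑ q ∈ range (5 * T), tb.Ps.Pr (fun w => TRF.rpO tb v i q w ∧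
        Alv h v tb p q w ∧ y / 2 < tb.Ps.ce (sgt D ∅ (TP.nn q)) (fun u => ind (Rn M Q (Option.some i)
          (MV.nu M.toMS q u) u ∧ Alv h v tb p q u)) w) := by
    rw [hP]
    simp only [k6]
  rw [k5, hP] at k1
  refine k1.trans ?_
  linarith

/-- **THE PRIVATE REMOVALS IN THE ZONE** -/
theorem stk_sum {Q : Kd (Om W X β)} {i : Fin 3} {p : V3.AP} (hX0 : 0 ≤ p.X0) {lam L1 eta y : ℝ} (hlam : 2 ≤ lam)
    (hL1 : 0 ≤ L1) (hy0 : 0 < y) (hGa : ∀ w, tb.Ps.p w ≠ 0 → ∀ n, Alv h v tb p n w → Q.al n w)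
    {B : ℕ → Om W X β → Prop} (hB : ∀ e ≤ 5 * T, Sn tb v e (B e))
    (hA : ∀ q < 5 * T, ∀ w, tb.Ps.p w ≠ 0 →
      Rn (USi tb hv d1 kb d0 k0 p1 z hd1 hd11 hkb hd0 hd01 hk0 hp1 hz0) Q (Option.some i)
        (MV.nu (USi tb hv d1 kb d0 k0 p1 z hd1 hd11 hkb hd0 hd01 hk0 hp1 hz0).toMS q w) w → Alv h v tb p q w →
      At' tb v (tauO (USi tb hv d1 kb d0 k0 p1 z hd1 hd11 hkb hd0 hd01 hk0 hp1 hz0) (Option.some i) q) B w)
    (hm : ∀ q < 5 * T, ∀ w, tb.Ps.p w ≠ 0 → okq tb v lam q w → tb.Ps.ce (NPo tb v q) (fun u => ind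
      (At' tb v (tauO (USi tb hv d1 kb d0 k0 p1 z hd1 hd11 hkb hd0 hd01 hk0 hp1 hz0) (Option.some i) q) B u ∧
        Alv h v tb p q u)) w ≤ eta)
    (hy : 54 * (L1 + 2 * (lam + 4) + 2 * p.X0 + 5) / N1 + 54 * Lam / n + 2 * eta < y / 16) :
    ∑ q ∈ range (5 * T), tb.Ps.Pr (fun w => TRF.rpO tb v i q w ∧
        Q.kv (Option.some i) (tv (USi tb hv d1 kb d0 k0 p1 z hd1 hd11 hkb hd0 hd01 hk0 hp1 hz0) i q w) w ∧
        blk (USi tb hv d1 kb d0 k0 p1 z hd1 hd11 hkb hd0 hd01 hk0 hp1 hz0) Q i q w ∧ Alv h v tb p q w) ≤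
      y * Nz (USi tb hv d1 kb d0 k0 p1 z hd1 hd11 hkb hd0 hd01 hk0 hp1 hz0) Q (5 * T) +
        (2 / y + 1) * tb.Ps.Pr (fun w => ¬ Alv h v tb p (5 * T) w) +
        Real.exp (p.X0 - L1) *
          MV.NLx (USi tb hv d1 kb d0 k0 p1 z hd1 hd11 hkb hd0 hd01 hk0 hp1 hz0).toMS i (5 * T) +
        32 * Real.exp (-lam) * (n * N1 * Lam) := by
  classical
  set M := USi tb hv d1 kb d0 k0 p1 z hd1 hd11 hkb hd0 hd01 hk0 hp1 hz0 with hM
  have k1 := stk_le (M := M) (Q := Q) (G := Alv h v tb p) (seen_i tb hv hd1 hd11 hkb hd0 hd01 hk0 hp1 hz0)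
    (fun w _ q q' hq hA' => Alv_anti h v tb hq hA') hGa (E := TRF.rpO tb v i) (v := i)
    (fun w _ q hr => TRF.tauS_lt2 _ (Or.inr (TRF.lt_rp2 tb hv hd1 hd11 hkb hd0 hd01 hk0 hp1 hz0 hr))) hy0 (5 * T)
  have k2 := own_sum (h := h) tb hn hN1 R H (i := i) hX0 (lam := lam) (L1 := L1) (eta := eta)
    (y := y / 2) hlam hL1 (τ := fun q => tauO M (Option.some i) q)
    (fun q hq u w hu hw he => tauO_es tb hv hd1 hd11 hkb hd0 hd01 hk0 hp1 hz0 (Option.some i) (by omega) hu hw he)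
    (fun q w => tauO_le _ (Option.some i) q w) hB (A := fun q u => Rn M Q (Option.some i) (MV.nu M.toMS q u) u) hA hm
    (by linarith)
  have k3 : ∑ q ∈ range (5 * T), tb.Ps.Pr (TRF.rpO tb v i q) ≤ MV.NLx M.toMS i (5 * T) := by
    unfold MV.NLx
    exact Finset.sum_le_sum fun q _ => tb.Ps.Pr_mono fun w _ hr => TRF.lt_rp2 tb hv hd1 hd11 hkb hd0 hd01 hk0 hp1 hz0 hr
  have k4 := mul_le_mul_of_nonneg_left k3 (Real.exp_pos (p.X0 - L1)).le
  have k5 : ∑ q ∈ range (5 * T), M.P.Pr (fun w => TRF.rpO tb v i q w ∧ Alv h v tb p q w ∧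
      y / 2 < dA M Q (Alv h v tb p) i q w) = ∑ q ∈ range (5 * T), tb.Ps.Pr (fun w => TRF.rpO tb v i q w ∧
        Alv h v tb p q w ∧ y / 2 < tb.Ps.ce (sgt D ∅ (TP.nn q)) (fun u => ind (Rn M Q (Option.some i)
          (MV.nu M.toMS q u) u ∧ Alv h v tb p q u)) w) := rfl
  rw [k5] at k1
  refine k1.trans ?_
  have e1 : M.P = tb.Ps := rfl
  rw [e1]
  linarith

end nod

end clk

end om

end Pool.Agent.GMH.StkR
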