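import Pool.Agent.GMH.V3P
import Pool.Agent.GMH.ConA
import Pool.Agent.GMH.Stmt

/-!
# GMH/StmtA: the frame of HARM(3) with the alive set of the assembly, helper91

`K = Fin 3`.  Half steps: `r = 2 t` = state of the time `t` after the split, `r = 2 t + 1` = the same law and codes, node of
the time `t + 1` (after the digit).  `tm r = r / 2` = time of the law and of the codes, `nn r = (r + 1) / 2` = time of the node.
Alive at `r`: for all `q ≤ r`
* `TTr` : every thin letter has surprisal at most `X0` given its point and the public information;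
* `PPr` : every pair of thin letters has surprisal at most `X1`;
* `PBr` : public: the conditional probability of dead single letters is at most `e0`, and (odd `q`) the digit has
  probability at least `dl` given the public information;
* `DGr` : (odd `q`) the digit has probability at least `dl` given one, two, three thin letters.
-/

set_option autoImplicit false
set_option linter.unusedSectionVars false

namespace Pool.Agent.GMH.V3

open Finset Pool.Agent.PWZ Pool.Agent.M3 Pool.Agent.GM Pool.Agent.GM.Harm Pool.Agent.GMH Pool.Agent.GMH.NZ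

/-- time of the law and of the codes at the half step `r` -/
def tm (r : ℕ) : ℕ := r / 2

/-- time of the node at the half step `r` -/
def nt (r : ℕ) : ℕ := (r + 1) / 2

/-- parameters of the alive set -/
structure AP where
  X0 : ℝ
  X1 : ℝ
  e0 : ℝ
  dl : ℝ

noncomputable section

variable {X β γ φ υ : Type} [Fintype X] [Fintype β] [Fintype φ] [Nonempty X] [Nonempty β]
variable {D : HD (Fin 3) X β γ φ} {al : ℝ} (h : D.Thick al) (v : ℕ → Finset (Fin 3) → X → (Fin 3 → β) → υ)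

/-- the law of the half step -/
def Pr' (r : ℕ) : FP (Pt (Fin 3) X β φ) := D.P h (tm r)

/-- the public information of the half step -/
def NPr (D : HD (Fin 3) X β γ φ) (r : ℕ) (w : Pt (Fin 3) X β φ) : List υ × (γ × (Fin 3 → γ)) :=
  NP D v (tm r + 1) (nt r) w

/-- the letter of the vertex `i` at the half step -/
def XLr (r : ℕ) (i : Fin 3) (w : Pt (Fin 3) X β φ) : β × List υ := XL v (tm r + 1) i w

/-- surprisal of the thin letter of `i` -/
def sps (r : ℕ) (i : Fin 3) (w : Pt (Fin 3) X β φ) : ℝ :=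
  sp (Pr' h r) (XLr v r i) (fun u => (u.2.1 i, NPr v D r u)) w

/-- surprisal of the pair of thin letters of `i`, `k` -/
def spp (r : ℕ) (i k : Fin 3) (w : Pt (Fin 3) X β φ) : ℝ :=
  sp (Pr' h r) (fun u => (XLr v r i u, XLr v r k u)) (fun u => (u.2.1 i, u.2.1 k, NPr v D r u)) w

/-- the letter of `i` is alive -/
def TTr (p : AP) (r : ℕ) (i : Fin 3) (w : Pt (Fin 3) X β φ) : Prop := ∀ q ≤ r, sps h v q i w ≤ p.X0

/-- the pairs are alive -/
def PPr (p : AP) (r : ℕ) (w : Pt (Fin 3) X β φ) : Prop := ∀ q ≤ r, ∀ i k, i ≠ k → spp h v q i k w ≤ p.X1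

/-- the digit of the time `t` has probability at least `dl` given `Z` and the public information -/
def dgl {κ : Type*} (p : AP) (t : ℕ) (Z : Pt (Fin 3) X β φ → κ) (w : Pt (Fin 3) X β φ) : Prop :=
  p.dl * (D.P h t).m (fun u => (Z u, NP D v (t + 1) t u)) w ≤
    (D.P h t).m (fun u => (Z u, NP D v (t + 1) (t + 1) u)) w

/-- public conditions -/
def PBr (p : AP) (r : ℕ) (w : Pt (Fin 3) X β φ) : Prop :=
  (∀ q ≤ r, ∀ i, (Pr' h q).ce (NPr v D q) (fun u => ind (¬ TTr h v p q i u)) w ≤ p.e0) ∧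
  ∀ t, 2 * t + 1 ≤ r → dgl h v p t (fun _ => ()) w

/-- the digits are likely given the thin letters -/
def DGr (p : AP) (r : ℕ) (w : Pt (Fin 3) X β φ) : Prop :=
  ∀ t, 2 * t + 1 ≤ r → (∀ i, dgl h v p t (XL v (t + 1) i) w) ∧
    (∀ i k, i ≠ k → dgl h v p t (fun u => (XL v (t + 1) i u, XL v (t + 1) k u)) w) ∧
    dgl h v p t (fun u => (XL v (t + 1) 0 u, XL v (t + 1) 1 u, XL v (t + 1) 2 u)) w

/-- **ALIVE** -/
def Ar (p : AP) (r : ℕ) (w : Pt (Fin 3) X β φ) : Prop :=
  PBr h v p r w ∧ (∀ i, TTr h v p r i w) ∧ PPr h v p r w ∧ DGr h v p r w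

/-- the good event -/
def GA (p : AP) (dg : ℕ → X → ℝ) (t : ℕ) (w : Pt (Fin 3) X β φ) : Prop :=
  Ar h v p (2 * t) w ∧ ∀ J ∈ SS (Fin 3), |ul (UU v) h dg J t w| ≤ 1 / 2

/-! ### measurability -/

/-- a function of `X` and `Z` which depends on masses only -/
theorem sp_fac {Om κ ι : Type*} [Fintype Om] (P : FP Om) (X : Om → κ) (Z : Om → ι) : Fac (fun w => (X w, Z w)) (sp P X Z) := by
  intro a b hab
  have h1 : Z a = Z b := congrArg Prod.snd hab
  unfold sp FP.m
  have e1 : ∀ u, (Z u = Z a) = (Z u = Z b) := fun u => by rw [h1]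
  have e2 : ∀ u, ((X u, Z u) = (X a, Z a)) = ((X u, Z u) = (X b, Z b)) := fun u => by
    have hab' : (X a, Z a) = (X b, Z b) := hab
    rw [hab']
  simp only [e1, e2]

variable {v}

/-- the thin labels and the node of the half step -/
def TH (v : ℕ → Finset (Fin 3) → X → (Fin 3 → β) → υ) (D : HD (Fin 3) X β γ φ) (r : ℕ) (w : Pt (Fin 3) X β φ) :
    (Fin 3 → β × List υ) × (List υ × (γ × (Fin 3 → γ))) := (fun i => XLr v r i w, NPr v D r w)

theorem tm_mono {q r : ℕ} (h : q ≤ r) : tm q ≤ tm r := Nat.div_le_div_right h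

theorem nt_mono {q r : ℕ} (h : q ≤ r) : nt q ≤ nt r := Nat.div_le_div_right (by omega)

theorem Um_older {s t : ℕ} (hst : s ≤ t) {I : Finset (Fin 3)} {a b : Pt (Fin 3) X β φ}
    (hab : Um v t I a.1 a.2.1 = Um v t I b.1 b.2.1) : Um v s I a.1 a.2.1 = Um v s I b.1 b.2.1 := by
  unfold Um at hab ⊢
  rw [List.map_inj_left] at hab ⊢
  exact fun r hr => hab r (List.mem_range.2 (by have := List.mem_range.1 hr; omega))

theorem nd_older {s t : ℕ} (hst : s ≤ t) {a b : Pt (Fin 3) X β φ} (hab : nd D t a = nd D t b) : nd D s a = nd D s b := by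
  have h1 : D.qa t a.1 = D.qa t b.1 := congrArg Prod.fst hab
  have h2 : (fun j => D.qb t (a.2.1 j)) = fun j => D.qb t (b.2.1 j) := congrArg Prod.snd hab
  exact Prod.ext (qa_mono D hst h1) (funext fun j => qb_mono D hst (congrFun h2 j))

theorem NPr_older {q r : ℕ} (hqr : q ≤ r) {a b : Pt (Fin 3) X β φ} (hab : NPr v D r a = NPr v D r b) :
    NPr v D q a = NPr v D q b := by
  have h1 : Um v (tm r + 1) ∅ a.1 a.2.1 = Um v (tm r + 1) ∅ b.1 b.2.1 := congrArg Prod.fst hab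
  have h2 : nd D (nt r) a = nd D (nt r) b := congrArg Prod.snd hab
  exact Prod.ext (Um_older (by have := tm_mono hqr; omega) h1) (nd_older (nt_mono hqr) h2)

theorem XLr_older {q r : ℕ} (hqr : q ≤ r) {i : Fin 3} {a b : Pt (Fin 3) X β φ} (hab : XLr v r i a = XLr v r i b) :
    XLr v q i a = XLr v q i b := by
  have h1 : a.2.1 i = b.2.1 i := congrArg Prod.fst hab
  have h2 : Um v (tm r + 1) {i} a.1 a.2.1 = Um v (tm r + 1) {i} b.1 b.2.1 := congrArg Prod.snd hab
  exact Prod.ext h1 (Um_older (by have := tm_mono hqr; omega) h2)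

theorem TH_older {q r : ℕ} (hqr : q ≤ r) {a b : Pt (Fin 3) X β φ} (hab : TH v D r a = TH v D r b) :
    TH v D q a = TH v D q b := by
  have h1 : (fun i => XLr v r i a) = fun i => XLr v r i b := congrArg Prod.fst hab
  have h2 : NPr v D r a = NPr v D r b := congrArg Prod.snd hab
  exact Prod.ext (funext fun i => XLr_older hqr (congrFun h1 i)) (NPr_older hqr h2)

theorem sps_fac {r : ℕ} {i : Fin 3} : Fac (fun w => (XLr v r i w, NPr v D r w)) (sps h v r i) := by
  intro a b hab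
  have h1 : XLr v r i a = XLr v r i b := congrArg Prod.fst hab
  have h2 : NPr v D r a = NPr v D r b := congrArg Prod.snd hab
  have h3 : a.2.1 i = b.2.1 i := congrArg Prod.fst h1
  exact sp_fac _ _ _ a b (Prod.ext h1 (Prod.ext h3 h2))

theorem spp_fac {r : ℕ} {i k : Fin 3} : Fac (TH v D r) (spp h v r i k) := by
  intro a b hab
  have h1 := congrArg Prod.fst hab
  have h2 : NPr v D r a = NPr v D r b := congrArg Prod.snd hab
  have hi : XLr v r i a = XLr v r i b := congrFun h1 i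
  have hk : XLr v r k a = XLr v r k b := congrFun h1 k
  have h3 : a.2.1 i = b.2.1 i := congrArg Prod.fst hi
  have h4 : a.2.1 k = b.2.1 k := congrArg Prod.fst hk
  exact sp_fac _ _ _ a b (Prod.ext (Prod.ext hi hk) (Prod.ext h3 (Prod.ext h4 h2)))

theorem TTr_fac (p : AP) {r : ℕ} {i : Fin 3} {a b : Pt (Fin 3) X β φ}
    (hab : (XLr v r i a, NPr v D r a) = (XLr v r i b, NPr v D r b)) : TTr h v p r i a ↔ TTr h v p r i b := by
  have h1 : XLr v r i a = XLr v r i b := congrArg Prod.fst hab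
  have h2 : NPr v D r a = NPr v D r b := congrArg Prod.snd hab
  have e : ∀ q ≤ r, sps h v q i a = sps h v q i b := fun q hq =>
    sps_fac h a b (Prod.ext (XLr_older hq h1) (NPr_older hq h2))
  exact ⟨fun H q hq => (e q hq) ▸ H q hq, fun H q hq => (e q hq).symm ▸ H q hq⟩

theorem dgl_fac {κ : Type*} (p : AP) {t : ℕ} {Z : Pt (Fin 3) X β φ → κ} {a b : Pt (Fin 3) X β φ} (hZ : Z a = Z b)
    (hN : NP D v (t + 1) (t + 1) a = NP D v (t + 1) (t + 1) b) : dgl h v p t Z a ↔ dgl h v p t Z b := by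
  have hN1 : Um v (t + 1) ∅ a.1 a.2.1 = Um v (t + 1) ∅ b.1 b.2.1 := congrArg Prod.fst hN
  have hN2 : nd D (t + 1) a = nd D (t + 1) b := congrArg Prod.snd hN
  have hN' : NP D v (t + 1) t a = NP D v (t + 1) t b := Prod.ext hN1 (nd_older (Nat.le_succ t) hN2)
  have e1 : (Z a, NP D v (t + 1) t a) = (Z b, NP D v (t + 1) t b) := Prod.ext hZ hN'
  have e2 : (Z a, NP D v (t + 1) (t + 1) a) = (Z b, NP D v (t + 1) (t + 1) b) := Prod.ext hZ hN
  unfold dgl
  rw [(D.P h t).Fac_m (fun u => (Z u, NP D v (t + 1) t u)) a b e1,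
    (D.P h t).Fac_m (fun u => (Z u, NP D v (t + 1) (t + 1) u)) a b e2]

theorem NPr_odd (t : ℕ) : NPr (φ := φ) v D (2 * t + 1) = NP D v (t + 1) (t + 1) := by
  unfold NPr tm nt
  rw [show (2 * t + 1) / 2 = t by omega, show (2 * t + 1 + 1) / 2 = t + 1 by omega]

theorem NPr_even (t : ℕ) : NPr (φ := φ) v D (2 * t) = NP D v (t + 1) t := by
  unfold NPr tm nt
  rw [show (2 * t) / 2 = t by omega, show (2 * t + 1) / 2 = t by omega]

theorem XLr_odd (t : ℕ) (i : Fin 3) : XLr (φ := φ) v (2 * t + 1) i = XL v (t + 1) i := by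
  unfold XLr tm
  rw [show (2 * t + 1) / 2 = t by omega]

theorem XLr_even (t : ℕ) (i : Fin 3) : XLr (φ := φ) v (2 * t) i = XL v (t + 1) i := by
  unfold XLr tm
  rw [show (2 * t) / 2 = t by omega]

theorem Pr_odd (t : ℕ) : Pr' h (2 * t + 1) = D.P h t := by
  unfold Pr' tm
  rw [show (2 * t + 1) / 2 = t by omega]

theorem Pr_even (t : ℕ) : Pr' h (2 * t) = D.P h t := by
  unfold Pr' tm
  rw [show (2 * t) / 2 = t by omega]

theorem PBr_fac (p : AP) {r : ℕ} {a b : Pt (Fin 3) X β φ} (hab : NPr v D r a = NPr v D r b) :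
    PBr h v p r a ↔ PBr h v p r b := by
  have e1 : ∀ q ≤ r, ∀ i, (Pr' h q).ce (NPr v D q) (fun u => ind (¬ TTr h v p q i u)) a =
      (Pr' h q).ce (NPr v D q) (fun u => ind (¬ TTr h v p q i u)) b := fun q hq i =>
    (Pr' h q).ce_fac _ _ a b (NPr_older hq hab)
  have e2 : ∀ t, 2 * t + 1 ≤ r → (dgl h v p t (fun _ => ()) a ↔ dgl h v p t (fun _ => ()) b) := fun t ht =>
    dgl_fac h p rfl (by have := NPr_older ht hab; rwa [NPr_odd] at this)
  unfold PBr
  constructor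
  · rintro ⟨h1, h2⟩
    exact ⟨fun q hq i => (e1 q hq i) ▸ h1 q hq i, fun t ht => (e2 t ht).1 (h2 t ht)⟩
  · rintro ⟨h1, h2⟩
    exact ⟨fun q hq i => (e1 q hq i).symm ▸ h1 q hq i, fun t ht => (e2 t ht).2 (h2 t ht)⟩

theorem PPr_fac (p : AP) {r : ℕ} {a b : Pt (Fin 3) X β φ} (hab : TH v D r a = TH v D r b) :
    PPr h v p r a ↔ PPr h v p r b := by
  have e : ∀ q ≤ r, ∀ i k, spp h v q i k a = spp h v q i k b := fun q hq i k => spp_fac h a b (TH_older hq hab)
  exact ⟨fun H q hq i k hik => (e q hq i k) ▸ H q hq i k hik, fun H q hq i k hik => (e q hq i k).symm ▸ H q hq i k hik⟩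

theorem DGr_fac (p : AP) {r : ℕ} {a b : Pt (Fin 3) X β φ} (hab : TH v D r a = TH v D r b) :
    DGr h v p r a ↔ DGr h v p r b := by
  have key : ∀ t, 2 * t + 1 ≤ r → (∀ i, XL v (t + 1) i a = XL v (t + 1) i b) ∧
      NP D v (t + 1) (t + 1) a = NP D v (t + 1) (t + 1) b := by
    intro t ht
    have h1 := TH_older ht hab
    have h2 := congrArg Prod.fst h1
    have h3 : NPr v D (2 * t + 1) a = NPr v D (2 * t + 1) b := congrArg Prod.snd h1
    refine ⟨fun i => ?_, by rwa [NPr_odd] at h3⟩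
    have h4 : XLr v (2 * t + 1) i a = XLr v (2 * t + 1) i b := congrFun h2 i
    rwa [XLr_odd] at h4
  unfold DGr
  constructor
  · intro H t ht
    obtain ⟨k1, k2⟩ := key t ht
    obtain ⟨h1, h2, h3⟩ := H t ht
    exact ⟨fun i => (dgl_fac h p (k1 i) k2).1 (h1 i), fun i k hik => (dgl_fac h p (Prod.ext (k1 i) (k1 k)) k2).1 (h2 i k hik),
      (dgl_fac h p (Prod.ext (k1 0) (Prod.ext (k1 1) (k1 2))) k2).1 h3⟩
  · intro H t ht
    obtain ⟨k1, k2⟩ := key t ht
    obtain ⟨h1, h2, h3⟩ := H t ht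
    exact ⟨fun i => (dgl_fac h p (k1 i) k2).2 (h1 i), fun i k hik => (dgl_fac h p (Prod.ext (k1 i) (k1 k)) k2).2 (h2 i k hik),
      (dgl_fac h p (Prod.ext (k1 0) (Prod.ext (k1 1) (k1 2))) k2).2 h3⟩

/-- **alive is a function of the thin labels, the points and the node** -/
theorem Ar_fac (p : AP) {r : ℕ} {a b : Pt (Fin 3) X β φ} (hab : TH v D r a = TH v D r b) : Ar h v p r a ↔ Ar h v p r b := by
  have h1 := congrArg Prod.fst hab
  have h2 : NPr v D r a = NPr v D r b := congrArg Prod.snd hab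
  unfold Ar
  rw [PBr_fac h p h2, PPr_fac h p hab, DGr_fac h p hab]
  have e : (∀ i, TTr h v p r i a) ↔ ∀ i, TTr h v p r i b := forall_congr' fun i =>
    TTr_fac h p (Prod.ext (congrFun h1 i) h2)
  rw [e]

theorem Ar_mono (p : AP) {q r : ℕ} (hqr : q ≤ r) {w : Pt (Fin 3) X β φ} (hw : Ar h v p r w) : Ar h v p q w := by
  obtain ⟨⟨h1, h1'⟩, h2, h3, h4⟩ := hw
  exact ⟨⟨fun s hs => h1 s (hs.trans hqr), fun t ht => h1' t (ht.trans hqr)⟩, fun i s hs => h2 i s (hs.trans hqr),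
    fun s hs => h3 s (hs.trans hqr), fun t ht => h4 t (ht.trans hqr)⟩

/-- alive does not see the top letters -/
theorem Ar_lab (p : AP) (r : ℕ) (x : X) (y : Fin 3 → β) (F F' : Fin 3 → φ) :
    Ar h v p r (x, y, F) ↔ Ar h v p r (x, y, F') := Ar_fac h p rfl

/-- the thin labels in the form of `ConA` determine `TH` -/
theorem TH_of_all {r s n : ℕ} (hs : tm r + 1 = s) (hn : nt r = n) {a b : Pt (Fin 3) X β φ}
    (hab : (all (LP pth (LL (φ := φ) (Um v s))) a, WW D n a) = (all (LP pth (LL (Um v s))) b, WW D n b)) :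
    TH v D r a = TH v D r b := by
  subst hs
  subst hn
  have h1 : all (LP pth (LL (φ := φ) (Um v (tm r + 1)))) a = all (LP pth (LL (Um v (tm r + 1)))) b := congrArg Prod.fst hab
  have h2 : WW D (nt r) a = WW D (nt r) b := congrArg Prod.snd hab
  have h3 : a.2.1 = b.2.1 := (Prod.mk.inj h2).1
  have h4 : nd D (nt r) a = nd D (nt r) b := (Prod.mk.inj h2).2
  have hl : ∀ I : Finset (Fin 3), pth I → LL (φ := φ) (Um v (tm r + 1)) I a = LL (Um v (tm r + 1)) I b := fun I hI =>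
    congrFun h1 ⟨I, hI⟩
  have hU : ∀ I : Finset (Fin 3), pth I → Um v (tm r + 1) I a.1 a.2.1 = Um v (tm r + 1) I b.1 b.2.1 := fun I hI =>
    congrArg Prod.fst (hl I hI)
  exact Prod.ext (funext fun i => Prod.ext (congrFun h3 i) (hU {i} (by unfold pth; rw [Finset.card_singleton])))
    (Prod.ext (hU ∅ pth0) h4)

/-- the alive structure of the thin level at the half step -/
theorem alv_state (p : AP) (t : ℕ) : Alv D v (t + 1) t (PBr h v p (2 * t)) (TTr h v p (2 * t)) where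
  fp a b hab := PBr_fac h p (by rw [NPr_even]; exact hab)
  ft i a b hab := TTr_fac h p (by
    rw [NPr_even, XLr_even]
    exact Prod.ext (congrArg Prod.snd hab) (congrArg Prod.fst hab))

theorem alv_digit (p : AP) (t : ℕ) : Alv D v (t + 1) (t + 1) (PBr h v p (2 * t + 1)) (TTr h v p (2 * t + 1)) where
  fp a b hab := PBr_fac h p (by rw [NPr_odd]; exact hab)
  ft i a b hab := TTr_fac h p (by
    rw [NPr_odd, XLr_odd]
    exact Prod.ext (congrArg Prod.snd hab) (congrArg Prod.fst hab))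

/-! ### the conclusion -/

variable {dg : ℕ → X → ℝ} {prr : ℕ → Fin 3 → φ → φ} {T : ℕ} {Lam : ℝ}

theorem GA_fac (p : AP) (t : ℕ) {a b : Pt (Fin 3) X β φ} (hab : eA D (UU v) t a = eA D (UU v) t b) :
    GA h v p dg t a ↔ GA h v p dg t b := by
  rw [eA_eq] at hab
  have hl : ∀ I : Finset (Fin 3), I ≠ univ → LL (φ := φ) (Um v (t + 1)) I a = LL (Um v (t + 1)) I b := fun I hI =>
    congrFun hab.1 ⟨I, hI⟩
  have e1 : Ar h v p (2 * t) a ↔ Ar h v p (2 * t) b := by
    refine Ar_fac h p (TH_of_all (s := t + 1) (n := t) (by unfold tm; omega) (by unfold nt; omega) ?_)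
    exact Prod.ext (funext fun I => hl I.1 (pth_sub rfl I.1 I.2)) hab.2
  have e2 : ∀ J ∈ SS (Fin 3), ul (UU v) h dg J t a = ul (UU v) h dg J t b := by
    intro J hJ
    have hJu : J ≠ univ := (Finset.mem_filter.1 hJ).2.2
    refine (D.P h t).ce_fac _ _ a b ?_
    rw [eL_eq hJu]
    exact ⟨lo_eq.2 fun I hI => hl I fun hh => hJu (Finset.univ_subset_iff.1 (hh ▸ hI.1)), WW_BB D t J a b hab.2⟩
  unfold GA
  rw [e1]
  exact and_congr_right fun _ => forall_congr' fun J => forall_congr' fun hJ => by rw [e2 J hJ]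

/-- **THE CONCLUSION OF HARM(3)** from the two numbers which remain -/
theorem concl3A (H : D.Hyp dg prr al T Lam) (hv : Codes D v) (p : AP) {e B Ntop : ℝ} {N : Finset (Fin 3) → ℝ}
    (hN : ∀ J, 1 ≤ N J) (hN2 : ∀ l, N (univ.erase l) ≤ Ntop)
    (hPhi : ∀ t ≤ T, Phi (D.P h t) (BB D t) N (SS1 (Fin 3)) (LL (Um v t)) (Vt v t) ≤ 0)
    (hB : 2 * (2 : ℝ) ^ Fintype.card (Fin 3) * (Fintype.card (Fin 3) * (Ntop * Lam) + Lam) ≤ B)
    (hdead : (D.P h T).Pr (fun w => ¬ Ar h v p (2 * T) w) ≤ e)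
    (hsyn : ∑ t ∈ range T, (D.P h t).E (fun w => ind (GA h v p dg t w) *
      (ua (UU v) h dg t w - exf (SS (Fin 3)) (mm (UU v) h dg) (uu (UU v) h dg) (ul (UU v) h dg) t w) ^ 2) ≤ e) :
    Concl (UU v) h dg prr T B e (GA h v p dg) (fun t w => ¬ Ar h v p (2 * t) w) := by
  obtain ⟨h1, h2, h3⟩ := conM_Phi h H (ne_u (K := Fin 3) rfl) hN hN2 hPhi hB
  exact {
    sys := sys_UU hv
    m2 := h1
    u2 := h2
    l2 := h3
    Gm := fun t _ a b hab => GA_fac h p t hab
    Gl := fun t _ w hw J hJ => hw.2 J hJ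
    Gd := fun t _ w _ hd hl => ⟨not_not.1 hd, hl⟩
    inc := fun t _ x y F hd ha => hd ((Ar_lab h p (2 * t) x y F (fun l => prr t l (F l))).1
      (Ar_mono h p (by omega) ha))
    dq := hdead
    syn := hsyn }

end

/-- the parameters of the alive set as powers of `2 Lam` : `X0 = (2 Lam)^cX`, `X1 = 3 X0`, `e0 = (2 Lam)^(-ce)`,
`dl = (2 Lam)^(-cd)` -/
noncomputable def apn (Lam : ℝ) (cX ce cd : ℕ) : AP where
  X0 := pw Lam cX
  X1 := 3 * pw Lam cX
  e0 := (pw Lam ce)⁻¹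
  dl := (pw Lam cd)⁻¹

/-- **WHAT REMAINS**, two parts: probability of the dead points, synergy on alive points with small lower biases -/
def Rest3A : Prop :=
  ∃ c0 c1 cX ce cd : ℕ, ∀ (X β γ φ : Type) [Fintype X] [Fintype β] [Fintype φ] [Nonempty X] [Nonempty β]
    (D : HD (Fin 3) X β γ φ) (al : ℝ) (h : D.Thick al) (dg : ℕ → X → ℝ) (prr : ℕ → Fin 3 → φ → φ) (T : ℕ) (Lam : ℝ),
    D.Hyp dg prr al T Lam → 2 ≤ Lam → ∀ v : ℕ → Finset (Fin 3) → X → (Fin 3 → β) → Pt (Fin 3) X β φ,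
    Run h (pr3 (Fin 3) (pw Lam c0) (pw Lam c1)) (SS1 (Fin 3)) (AdmDep D) v →
    (D.P h T).Pr (fun w => ¬ Ar h v (apn Lam cX ce cd) (2 * T) w) ≤ Lam⁻¹ ∧
    ∑ t ∈ range T, (D.P h t).E (fun w => ind (GA h v (apn Lam cX ce cd) dg t w) *
      (ua (UU v) h dg t w - exf (SS (Fin 3)) (mm (UU v) h dg) (uu (UU v) h dg) (ul (UU v) h dg) t w) ^ 2) ≤ Lam⁻¹

/-- **HARM(3) from what remains** -/
theorem harmW_of_restA (R : Rest3A) : HarmW (Fin 3) := by
  obtain ⟨c0, c1, cX, ce, cd, R⟩ := R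
  refine ⟨3 * (c0 + c1 + 4) + 1, ?_⟩
  intro X β γ φ _ _ _ _ _ D al h dg prr T Lam H hL
  obtain ⟨v, hv⟩ := exists_run h (pr3 (Fin 3) (pw Lam c0) (pw Lam c1)) (SS1 (Fin 3)) (admDep_ok D)
  obtain ⟨hd, hs⟩ := R X β γ φ D al h dg prr T Lam H hL v hv
  have h0 := pw_one hL c0
  have h1 := pw_one hL c1
  refine ⟨List (Pt (Fin 3) X β φ), UU v, GA h v (apn Lam cX ce cd) dg, fun t w => ¬ Ar h v (apn Lam cX ce cd) (2 * t) w, ?_⟩
  have hL0 : (0 : ℝ) < Lam := by linarith
  refine concl3A h H hv.codes (apn Lam cX ce cd) (N := pr3 (Fin 3) (pw Lam c0) (pw Lam c1))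
    (Ntop := pw Lam c0 * pw Lam c1)
    (fun J => pr3_one h0 h1 J) (fun l => (pr3_top rfl _ _ l).le) (fun t _ => hv.nonpos (admDep_ok D) t) ?_ hd hs
  refine le_trans ?_ (pow_le_exp_log hL (c0 + c1 + 4))
  have e : pw Lam c0 * pw Lam c1 = pw Lam (c0 + c1) := by
    unfold pw
    rw [pow_add]
  rw [e]
  have h2 := pw_one hL (c0 + c1)
  have e2 : (2 * Lam) ^ (c0 + c1 + 4) = pw Lam (c0 + c1) * (2 * Lam) ^ 4 := by
    unfold pw
    rw [pow_add]
  rw [e2]
  have h3 : (16 : ℝ) * 4 * Lam ≤ (2 * Lam) ^ 4 := by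
    have h5 : (8 : ℝ) ≤ Lam ^ 3 := by
      have := pow_le_pow_left₀ (by norm_num : (0 : ℝ) ≤ 2) hL 3
      linarith
    nlinarith
  have h4 : 2 * (2 : ℝ) ^ Fintype.card (Fin 3) * ((Fintype.card (Fin 3) : ℕ) * (pw Lam (c0 + c1) * Lam) + Lam) ≤
      pw Lam (c0 + c1) * (16 * 4 * Lam) := by
    have : Lam ≤ pw Lam (c0 + c1) * Lam := le_mul_of_one_le_left hL0.le h2
    rw [Fintype.card_fin]
    push_cast
    nlinarith
  exact h4.trans (mul_le_mul_of_nonneg_left h3 (by linarith))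

end Pool.Agent.GMH.V3
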