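import Pool.Agent.GMH.StpJ
import Pool.Agent.GMH.DynF

/-!
# GMH/StpK (helper64; row A4): the fields `gdv`, `gdp`, `gd0`, `gdp0`, `lst` of `StpOK` for the kinds of the three tops

`G3 k gM be ze` : what is asked of the good tuples at a removal (alive, not near a threshold, nothing listed over the triple at a
public removal, not moved at `i` at a private removal of `i`, not moved at `i` at the public start if the life of `i` is
decided or the zone is open).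
* `f3_kdv` : a good released tuple has the kind of the start of the life (alive), private removal or public removal with gate;
* `f3_psv` : its log density; `f3_kd0`, `f3_ps0` : the same with the public start; `f3_lst`.
-/

set_option autoImplicit false
set_option linter.unusedSectionVars false

namespace Pool.Agent.GMH.TRF

open Finset Pool.Agent.PWZ Pool.Agent.M3 Pool.Agent.GM Pool.Agent.GM.Harm Pool.Agent.GMH Pool.Agent.GMH.NZ
open Pool.Agent.GMH.V3 Pool.Agent.GMH.TP Pool.Agent.GMH.TD Pool.Agent.GMH.Dy Pool.Agent.GMH.MV Pool.Agent.GMH.MVI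
open Pool.Agent.GMH.UV Pool.Agent.GMH.KF Pool.Agent.GMH.CK Pool.Agent.GMH.KDT

noncomputable section

variable {X β γ φ : Type} [Fintype X] [Fintype β] [Fintype φ] [Nonempty X] [Nonempty β]
variable {D : HD (Fin 3) X β γ φ} {al : ℝ} {h : D.Thick al} {prr : ℕ → Fin 3 → φ → φ} {T : ℕ} {W : Type} [Fintype W]
variable (tb : Tab D prr T W) {v : ℕ → Finset (Fin 3) → X → (Fin 3 → β) → Pt (Fin 3) X β φ}
variable {N : Finset (Fin 3) → ℝ} {SS : Finset (Finset (Fin 3))} {dg : ℕ → X → ℝ} {Lam : ℝ}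
variable {d1 kb d0 k0 p1 z : ℝ} (hd1 : 0 < d1) (hd11 : d1 ≤ 1) (hkb : 0 < kb) (hd0 : 0 < d0) (hd01 : d0 ≤ 1) (hk0 : 0 < k0)
  (hp1 : 0 < p1) (hz : 0 < z)

/-- what is asked of the good tuples at the removals, kind `k` -/
structure G3 (h : D.Thick al) (p : AP) (c : KC) (k : Fin 10) (gM : ℕ → Om W X β → Prop) (be : Fin 3 → ℕ → Om W X β → Prop)
    (ze : ℕ → Om W X β → Prop) : Prop where
  hT : ∀ q w, tb.Ps.p w ≠ 0 → gM q w → q / 5 ≤ T
  hA : ∀ q w, tb.Ps.p w ≠ 0 → gM q w → Alv h v tb p q w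
  hn : ∀ q w, tb.Ps.p w ≠ 0 → gM q w →
    ¬ nrT (MSi tb (v := v) d1 kb d0 k0 p1 z hd1 hd11 hkb hd0 hd01 hk0 hp1 hz) c (1000 * (4 * d1 + 16 * d0)) q w
  hL : ∀ q w, tb.Ps.p w ≠ 0 → gM q w → ruO tb v q w →
    ¬ 0 < tb.Ps.ce (TH (MSi tb (v := v) d1 kb d0 k0 p1 z hd1 hd11 hkb hd0 hd01 hk0 hp1 hz) q) (fun u =>
      ind (Lst (MSi tb (v := v) d1 kb d0 k0 p1 z hd1 hd11 hkb hd0 hd01 hk0 hp1 hz)
        (nu (MSi tb (v := v) d1 kb d0 k0 p1 z hd1 hd11 hkb hd0 hd01 hk0 hp1 hz) q w) q u)) w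
  hP : ∀ q w, tb.Ps.p w ≠ 0 → gM q w → ∀ i ∈ vk k, rpO tb v i q w →
    ¬ MV.Mv (MSi tb (v := v) d1 kb d0 k0 p1 z hd1 hd11 hkb hd0 hd01 hk0 hp1 hz) i q w
  hU : ∀ q w, tb.Ps.p w ≠ 0 → gM q w → ∀ i ∈ vk k, ruO tb v q w → (be i q w ∨ ze q w) →
    ¬ MV.Mv (MSi tb (v := v) d1 kb d0 k0 p1 z hd1 hd11 hkb hd0 hd01 hk0 hp1 hz) i
      (nu (MSi tb (v := v) d1 kb d0 k0 p1 z hd1 hd11 hkb hd0 hd01 hk0 hp1 hz) q w) w

variable {p : AP} {c : KC} {k : Fin 10} {B : ℝ} {A : Fin 6 → ℕ → Pt (Fin 3) X β φ → Prop}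
  {gM : Fin 10 → ℕ → Om W X β → Prop} {be : Fin 3 → ℕ → Om W X β → Prop} {ze : ℕ → Om W X β → Prop}

section kd

variable (H : D.Hyp dg prr al T Lam) (R : Run h N SS (AdmDep D) v) (hS : ∀ l, univ.erase l ∈ SS) (hu : univ ∉ SS)
  (hN : ∀ l, 0 < N (univ.erase l)) (hg : G3 (v := v) tb hd1 hd11 hkb hd0 hd01 hk0 hp1 hz h p c k (gM k) be ze)
  (h3 : 0 < c.dH) (h4 : c.dH ≤ 1 / 4) (he : 4 * d1 + 16 * d0 ≤ 1 / 100)

include H R hS hu hN hg h3 h4 he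

/-- **the relation of the start of the life** -/
theorem f3_kdv {q : ℕ} {w : Om W X β} (hw : tb.Ps.p w ≠ 0) (hgd : gdO h tb v c B A gM k q w) {i : Fin 3} (hi : i ∈ vk k)
    (hr : rpO tb v i q w ∨ ruO tb v q w ∧ (be i q w ∨ ze q w)) :
    ka3 h v tb p c k (MV.tauS (MSi tb (v := v) d1 kb d0 k0 p1 z hd1 hd11 hkb hd0 hd01 hk0 hp1 hz) i q w) w := by
  obtain ⟨-, g1, g2⟩ := hgd
  have hq := hg.hT q w hw g2
  have hk := (rO_kq tb g1).2
  have hl : ¬ ltL v tb q w := hr.elim (fun h => nl_rp tb h) fun h => nl_ru tb h.1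
  obtain ⟨-, g4⟩ := st_rm tb hd1 hd11 hkb hd0 hd01 hk0 hp1 hz i hl
  refine ⟨?_, Alv_anti h v tb g4 (hg.hA q w hw g2)⟩
  rcases hr with hr | ⟨hr, hr'⟩
  · exact (tk_prv tb hd1 hd11 hkb hd0 hd01 hk0 hp1 hz H R hS hu hN h3 h4 (by linarith) hq hw hr (hg.hP q w hw g2 i hi hr)
      (nrT_mono (by linarith) (hg.hn q w hw g2)) k).1 hk
  · exact (tk_pub tb hd1 hd11 hkb hd0 hd01 hk0 hp1 hz H R hS hu hN h3 h4 he hq hw hr (hg.hU q w hw g2 i hi hr hr')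
      (hg.hL q w hw g2 hr) (hg.hn q w hw g2) k).1 hk

/-- **the relation of the public start** -/
theorem f3_kd0 {q : ℕ} {w : Om W X β} (hw : tb.Ps.p w ≠ 0) (hgd : gdO h tb v c B A gM k q w) (hr : ruO tb v q w) :
    ka3 h v tb p c k (MV.nu (MSi tb (v := v) d1 kb d0 k0 p1 z hd1 hd11 hkb hd0 hd01 hk0 hp1 hz) q w) w := by
  obtain ⟨-, g1, g2⟩ := hgd
  have hq := hg.hT q w hw g2
  have hk := (rO_kq tb g1).2
  obtain ⟨-, g4⟩ := st_nu tb hd1 hd11 hkb hd0 hd01 hk0 hp1 hz (nl_ru tb hr)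
  exact ⟨(tk_nu tb hd1 hd11 hkb hd0 hd01 hk0 hp1 hz H R hS hu hN h3 h4 he hq hw hr (hg.hL q w hw g2 hr)
    (hg.hn q w hw g2) k).1 hk, Alv_anti h v tb g4 (hg.hA q w hw g2)⟩

omit h3 h4 he

/-- the log density of the public start -/
theorem f3_ps0 {q : ℕ} {w : Om W X β} (hw : tb.Ps.p w ≠ 0) (hgd : gdO h tb v c B A gM k q w) (hr : ruO tb v q w) (K : ℝ) :
    gO h tb v K q w ≤ max (ps3 h v tb (MV.nu (MSi tb (v := v) d1 kb d0 k0 p1 z hd1 hd11 hkb hd0 hd01 hk0 hp1 hz) q w) w)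
      (-K) + (32 * d1 + 128 * d0) := by
  obtain ⟨-, g1, g2⟩ := hgd
  refine (gO_le tb (by linarith) (tp_nu tb hd1 hd11 hkb hd0 hd01 hk0 hp1 hz H R hS hu hN (hg.hT q w hw g2) hw hr
    (hg.hL q w hw g2 hr))).trans ?_
  linarith

end kd

/-- the lives start before the public epoch -/
theorem f3_lst (hg : G3 (v := v) tb hd1 hd11 hkb hd0 hd01 hk0 hp1 hz h p c k (gM k) be ze) {q : ℕ} {w : Om W X β}
    (hw : tb.Ps.p w ≠ 0) (hgd : gdO h tb v c B A gM k q w) (hr : ruO tb v q w) (i : Fin 3) :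
    MV.tauS (MSi tb (v := v) d1 kb d0 k0 p1 z hd1 hd11 hkb hd0 hd01 hk0 hp1 hz) i q w ≤
      MV.nu (MSi tb (v := v) d1 kb d0 k0 p1 z hd1 hd11 hkb hd0 hd01 hk0 hp1 hz) q w :=
  lst_i tb hd1 hd11 hkb hd0 hd01 hk0 hp1 hz hw (hg.hL q w hw hgd.2.2 hr) i

end

end Pool.Agent.GMH.TRF
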