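import Pool.Agent.GMH.StpK
import Pool.Agent.GMH.KDS

/-!
# GMH/StpL (helper64): `StpOK` for the kinds of the three tops

* `tp_prv1`, `tp_pub1` : the log density at the removal and for the tables `eT τ` of the start of the life, without singles
  (the exact clock sees the public moves);
* `kR3` : relation of a start `τ` of the kind `k`: the kind of the tables `eT τ`, alive, every top at distance `< 4 eF` from
  its own law; `Q3ok` : a kind `Q` of the three tops: `kR3` implies `kd`, `psi ≥ max ps3 (-K)`, alive;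
* `G3` (of `GMH/StpK`) and `nsR` (no superhot top at the removal); `f3_v`, `f3_0` : start of the life, public start;
* **`stpOK_three`** : `StpOK` with `δ = 32 d1 + 32 d0`.
-/

set_option autoImplicit false
set_option linter.unusedSectionVars false

namespace Pool.Agent.GMH.TRF

open Finset Pool.Agent.PWZ Pool.Agent.M3 Pool.Agent.GM Pool.Agent.GM.Harm Pool.Agent.GMH Pool.Agent.GMH.NZ
open Pool.Agent.GMH.V3 Pool.Agent.GMH.TP Pool.Agent.GMH.TD Pool.Agent.GMH.Dy Pool.Agent.GMH.MV Pool.Agent.GMH.MVI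
open Pool.Agent.GMH.UV Pool.Agent.GMH.KF Pool.Agent.GMH.CK Pool.Agent.GMH.KDT Pool.Agent.GMH.KDS

noncomputable section

variable {X β γ φ : Type} [Fintype X] [Fintype β] [Fintype φ] [Nonempty X] [Nonempty β]
variable {D : HD (Fin 3) X β γ φ} {al : ℝ} {h : D.Thick al} {prr : ℕ → Fin 3 → φ → φ} {T : ℕ} {W : Type} [Fintype W]
variable (tb : Tab D prr T W) {v : ℕ → Finset (Fin 3) → X → (Fin 3 → β) → Pt (Fin 3) X β φ}
variable {N : Finset (Fin 3) → ℝ} {SS : Finset (Finset (Fin 3))} {dg : ℕ → X → ℝ} {Lam : ℝ}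
variable {d1 kb d0 k0 p1 z : ℝ} (hd1 : 0 < d1) (hd11 : d1 ≤ 1) (hkb : 0 < kb) (hd0 : 0 < d0) (hd01 : d0 ≤ 1) (hk0 : 0 < k0)
  (hp1 : 0 < p1) (hz : 0 < z)

section tr

variable (H : D.Hyp dg prr al T Lam) (R : Run h N SS (AdmDep D) v) (hS : ∀ l, univ.erase l ∈ SS) (hu : univ ∉ SS)
  (hN : ∀ l, 0 < N (univ.erase l))

include H R hS hu hN

/-- **PRIVATE REMOVAL**, log density, no condition on singles -/
theorem tp_prv1 {q : ℕ} (hq : q / 5 ≤ T) {w : Om W X β} (hw : tb.Ps.p w ≠ 0) {i : Fin 3} (hr : rpO tb v i q w)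
    (hm : ¬ MV.Mv (MSi tb (v := v) d1 kb d0 k0 p1 z hd1 hd11 hkb hd0 hd01 hk0 hp1 hz) i q w) :
    |pq3 h v tb q w -
      ps3 h v tb (MV.tauS (MSi tb (v := v) d1 kb d0 k0 p1 z hd1 hd11 hkb hd0 hd01 hk0 hp1 hz) i q w) w| ≤ 32 * d1 := by
  obtain ⟨g1, g2⟩ := st_rm tb hd1 hd11 hkb hd0 hd01 hk0 hp1 hz i (nl_rp tb hr)
  exact ps_prv1 tb hd1 hd11 hkb hd0 hd01 hk0 hp1 hz H R hS hu hN hq hw hm g1 g2

/-- **PUBLIC REMOVAL**, log density, start of the life of a vertex, no condition on singles -/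
theorem tp_pub1 {q : ℕ} (hq : q / 5 ≤ T) {w : Om W X β} (hw : tb.Ps.p w ≠ 0) (hr : ruO tb v q w) {i : Fin 3}
    (hm : ¬ MV.Mv (MSi tb (v := v) d1 kb d0 k0 p1 z hd1 hd11 hkb hd0 hd01 hk0 hp1 hz) i
      (nu (MSi tb (v := v) d1 kb d0 k0 p1 z hd1 hd11 hkb hd0 hd01 hk0 hp1 hz) q w) w)
    (hL : ¬ 0 < tb.Ps.ce (TH (MSi tb (v := v) d1 kb d0 k0 p1 z hd1 hd11 hkb hd0 hd01 hk0 hp1 hz) q) (fun u =>
      ind (Lst (MSi tb (v := v) d1 kb d0 k0 p1 z hd1 hd11 hkb hd0 hd01 hk0 hp1 hz)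
        (nu (MSi tb (v := v) d1 kb d0 k0 p1 z hd1 hd11 hkb hd0 hd01 hk0 hp1 hz) q w) q u)) w) :
    |pq3 h v tb q w -
      ps3 h v tb (MV.tauS (MSi tb (v := v) d1 kb d0 k0 p1 z hd1 hd11 hkb hd0 hd01 hk0 hp1 hz) i q w) w| ≤
      32 * d1 + 32 * d0 := by
  obtain ⟨g1, g2⟩ := st_rm tb hd1 hd11 hkb hd0 hd01 hk0 hp1 hz i (nl_ru tb hr)
  exact ps_pub1 tb hd1 hd11 hkb hd0 hd01 hk0 hp1 hz H R hS hu hN hq hw hm
    (unl_self (M := MSi tb (v := v) d1 kb d0 k0 p1 z hd1 hd11 hkb hd0 hd01 hk0 hp1 hz) hw hL) g1 g2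

end tr

/-! ### a kind of the three tops -/

/-- relation of a start `τ` : kind of the tables `eT τ`, alive, no top is far from its own law -/
def kR3 (h : D.Thick al) (v : ℕ → Finset (Fin 3) → X → (Fin 3 → β) → Pt (Fin 3) X β φ) (p : AP) (c : KC) (k : Fin 10)
    (τ : ℕ) (w : Om W X β) : Prop :=
  ka3 h v tb p c k τ w ∧ ∀ i, tvq h v tb i (eT v tb τ w) w < 4 * c.eF

/-- `Q` is the kind `k` of the three tops -/
structure Q3ok (h : D.Thick al) (v : ℕ → Finset (Fin 3) → X → (Fin 3 → β) → Pt (Fin 3) X β φ) (p : AP) (c : KC)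
    (k : Fin 10) (K : ℝ) (Q : Kd (Om W X β)) : Prop where
  Vk : Q.Vk ⊆ vk k
  kdv : ∀ i ∈ Q.Vk, ∀ τ w, kR3 tb h v p c k τ w → Q.kd (some i) τ w
  kd0 : ∀ τ w, kR3 tb h v p c k τ w → Q.kd Option.none τ w
  psi : ∀ o τ w, max (ps3 h v tb τ w) (-K) ≤ Q.psi o τ w
  al : ∀ n w, Alv h v tb p n w → Q.al n w

/-- no superhot top at the removals -/
def nsR (h : D.Thick al) (v : ℕ → Finset (Fin 3) → X → (Fin 3 → β) → Pt (Fin 3) X β φ) (c : KC)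
    (gM : ℕ → Om W X β → Prop) : Prop :=
  ∀ q w, tb.Ps.p w ≠ 0 → gM q w → (ruO tb v q w ∨ ∃ i, rpO tb v i q w) →
    ¬ sF (D.P h (q / 5)) (ZQ D v q) (ZbQ D v q) (FQ v (q / 5)) c (tb.pt (q / 5) w)

section fld

variable {p : AP} {c : KC} {k : Fin 10} {B K : ℝ} {A : Fin 6 → ℕ → Pt (Fin 3) X β φ → Prop}
  {gM : Fin 10 → ℕ → Om W X β → Prop} {be : Fin 3 → ℕ → Om W X β → Prop} {ze : ℕ → Om W X β → Prop}
variable (H : D.Hyp dg prr al T Lam) (R : Run h N SS (AdmDep D) v) (hS : ∀ l, univ.erase l ∈ SS) (hu : univ ∉ SS)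
  (hN : ∀ l, 0 < N (univ.erase l)) (hg : G3 (v := v) tb hd1 hd11 hkb hd0 hd01 hk0 hp1 hz h p c k (gM k) be ze)
  (h3 : 0 < c.dH) (h4 : c.dH ≤ 1 / 4) (he : 4 * d1 + 16 * d0 ≤ 1 / 100) (hF : 24 * (d1 + d0) ≤ c.eF)
  (hs : nsR tb h v c (gM k))

include H R hS hu hN hg h3 h4 he hF hs

/-- **the start of the life** : relation and log density -/
theorem f3_v {q : ℕ} {w : Om W X β} (hw : tb.Ps.p w ≠ 0) (hgd : gdO h tb v c B A gM k q w) {i : Fin 3} (hi : i ∈ vk k)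
    (hr : rpO tb v i q w ∨ ruO tb v q w ∧ (be i q w ∨ ze q w)) :
    kR3 tb h v p c k (MV.tauS (MSi tb (v := v) d1 kb d0 k0 p1 z hd1 hd11 hkb hd0 hd01 hk0 hp1 hz) i q w) w ∧
    gO h tb v K q w ≤ max (ps3 h v tb
      (MV.tauS (MSi tb (v := v) d1 kb d0 k0 p1 z hd1 hd11 hkb hd0 hd01 hk0 hp1 hz) i q w) w) (-K) +
        (32 * d1 + 32 * d0) := by
  have g0 := f3_kdv tb hd1 hd11 hkb hd0 hd01 hk0 hp1 hz H R hS hu hN hg h3 h4 he hw hgd hi hr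
  have g2 := hgd.2.2
  have hq := hg.hT q w hw g2
  have hl : ¬ ltL v tb q w := hr.elim (fun h => nl_rp tb h) fun h => nl_ru tb h.1
  obtain ⟨e1, e2⟩ := st_rm tb hd1 hd11 hkb hd0 hd01 hk0 hp1 hz i hl
  have hF' := hs q w hw g2 (hr.elim (fun a => Or.inr ⟨i, a⟩) fun a => Or.inl a.1)
  rcases hr with hr | ⟨hr, hr'⟩
  · have hm := hg.hP q w hw g2 i hi hr
    have g3 : StbN (MSi tb (v := v) d1 kb d0 k0 p1 z hd1 hd11 hkb hd0 hd01 hk0 hp1 hz) (4 * d1)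
      (eT v tb (MV.tauS (MSi tb (v := v) d1 kb d0 k0 p1 z hd1 hd11 hkb hd0 hd01 hk0 hp1 hz) i q w) w) q w :=
      stbN_of hm e1 e2
    refine ⟨⟨g0, nsF_stb tb hd1 hd11 hkb hd0 hd01 hk0 hp1 hz H R hS hu hN (by linarith) (by linarith) (by linarith) hq hw
      e2 g3 hF'⟩, gO_le tb (by linarith) ?_⟩
    have g4 := tp_prv1 tb hd1 hd11 hkb hd0 hd01 hk0 hp1 hz H R hS hu hN hq hw hr hm
    linarith
  · have hm := hg.hU q w hw g2 i hi hr hr'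
    have hL := hg.hL q w hw g2 hr
    have g3 : StbN (MSi tb (v := v) d1 kb d0 k0 p1 z hd1 hd11 hkb hd0 hd01 hk0 hp1 hz) (4 * d1 + 4 * d0)
      (eT v tb (MV.tauS (MSi tb (v := v) d1 kb d0 k0 p1 z hd1 hd11 hkb hd0 hd01 hk0 hp1 hz) i q w) w) q w :=
      stbN_pub hm hL e1 e2
    exact ⟨⟨g0, nsF_stb tb hd1 hd11 hkb hd0 hd01 hk0 hp1 hz H R hS hu hN (by linarith) (by linarith) (by linarith) hq hw
      e2 g3 hF'⟩, gO_le tb (by linarith) (tp_pub1 tb hd1 hd11 hkb hd0 hd01 hk0 hp1 hz H R hS hu hN hq hw hr hm hL)⟩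

/-- **the public start** : relation and log density -/
theorem f3_0 {q : ℕ} {w : Om W X β} (hw : tb.Ps.p w ≠ 0) (hgd : gdO h tb v c B A gM k q w) (hr : ruO tb v q w) :
    kR3 tb h v p c k (MV.nu (MSi tb (v := v) d1 kb d0 k0 p1 z hd1 hd11 hkb hd0 hd01 hk0 hp1 hz) q w) w ∧
    gO h tb v K q w ≤ max (ps3 h v tb
      (MV.nu (MSi tb (v := v) d1 kb d0 k0 p1 z hd1 hd11 hkb hd0 hd01 hk0 hp1 hz) q w) w) (-K) + (32 * d1 + 32 * d0) := by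
  have g0 := f3_kd0 tb hd1 hd11 hkb hd0 hd01 hk0 hp1 hz H R hS hu hN hg h3 h4 he hw hgd hr
  have g2 := hgd.2.2
  have hq := hg.hT q w hw g2
  obtain ⟨e1, e2⟩ := st_nu tb hd1 hd11 hkb hd0 hd01 hk0 hp1 hz (nl_ru tb hr)
  have hF' := hs q w hw g2 (Or.inl hr)
  have hL := hg.hL q w hw g2 hr
  have g3 : StbN (MSi tb (v := v) d1 kb d0 k0 p1 z hd1 hd11 hkb hd0 hd01 hk0 hp1 hz) (4 * d0)
    (eT v tb (MV.nu (MSi tb (v := v) d1 kb d0 k0 p1 z hd1 hd11 hkb hd0 hd01 hk0 hp1 hz) q w) w) q w :=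
    stbN_unl hL e1 e2
  refine ⟨⟨g0, nsF_stb tb hd1 hd11 hkb hd0 hd01 hk0 hp1 hz H R hS hu hN (by linarith) (by linarith) (by linarith) hq hw
    e2 g3 hF'⟩, gO_le tb (by linarith) ?_⟩
  have g4 := tp_nu tb hd1 hd11 hkb hd0 hd01 hk0 hp1 hz H R hS hu hN hq hw hr hL
  linarith

/-- **`StpOK` OF THE THREE TOPS** -/
theorem stpOK_three (hv : Codes D v) {Q : Kd (Om W X β)} (hQ : Q3ok tb h v p c k K Q)
    (hbe : ∀ i ∈ Q.Vk, ∀ q w, bet (USi tb hv d1 kb d0 k0 p1 z hd1 hd11 hkb hd0 hd01 hk0 hp1 hz) Q i q w → be i q w)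
    (hze : ∀ q w, Z0 (USi tb hv d1 kb d0 k0 p1 z hd1 hd11 hkb hd0 hd01 hk0 hp1 hz) Q q w → ze q w) :
    StpOK (USi tb hv d1 kb d0 k0 p1 z hd1 hd11 hkb hd0 hd01 hk0 hp1 hz) Q (stps h tb v c B A gM K k)
      (32 * d1 + 32 * d0) :=
  stpOK_i h tb hv hd1 hd11 hkb hd0 hd01 hk0 hp1 hz
    (fun w hw i hi q hgd hr hb => hQ.kdv i hi _ _
      (f3_v (K := K) tb hd1 hd11 hkb hd0 hd01 hk0 hp1 hz H R hS hu hN hg h3 h4 he hF hs hw hgd (hQ.Vk hi)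
        (hr.imp_right fun a => ⟨a, hb.imp (hbe i hi q w) (hze q w)⟩)).1)
    (fun w hw i hi q hgd hr hb => by
      have g1 := (f3_v (K := K) tb hd1 hd11 hkb hd0 hd01 hk0 hp1 hz H R hS hu hN hg h3 h4 he hF hs hw hgd (hQ.Vk hi)
        (hr.imp_right fun a => ⟨a, Or.inl (hbe i hi q w hb)⟩)).2
      have g2 := hQ.psi (some i) (MV.tauS (MSi tb (v := v) d1 kb d0 k0 p1 z hd1 hd11 hkb hd0 hd01 hk0 hp1 hz) i q w) w
      linarith)
    (fun w hw q hgd hr _ => hQ.kd0 _ _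
      (f3_0 (K := K) tb hd1 hd11 hkb hd0 hd01 hk0 hp1 hz H R hS hu hN hg h3 h4 he hF hs hw hgd hr).1)
    (fun w hw q hgd hr _ => by
      have g1 := (f3_0 (K := K) tb hd1 hd11 hkb hd0 hd01 hk0 hp1 hz H R hS hu hN hg h3 h4 he hF hs hw hgd hr).2
      have g2 := hQ.psi Option.none (MV.nu (MSi tb (v := v) d1 kb d0 k0 p1 z hd1 hd11 hkb hd0 hd01 hk0 hp1 hz) q w) w
      linarith)
    (fun w hw q hgd _ => hQ.al _ w (hg.hA q w hw hgd.2.2))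
    (fun w hw i _ q hgd hr => f3_lst tb hd1 hd11 hkb hd0 hd01 hk0 hp1 hz hg hw hgd hr i)

end fld

end

end Pool.Agent.GMH.TRF
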