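import Pool.Agent.GMH.Gdy
import Pool.Agent.GMH.OneKL
import Pool.Agent.M3.FPInfo

/-!
# GMH.TD0: thin dynamics, abstract definitions (helper27)

`N k` = public information, `L k` = letter, `Y` = points of the letter (a function of the letter).
* `lq k` = log probability of the letter given its points and `N k`; `lqn k` the same with `N (k+1)`;
* `ai k = lqn k - lq k` public increment, `bi k = lqn k - lq (k+1) ≥ 0` birth;
* `Mv1 δ ν k` : the letter has MOVED between `ν` and `k` (sum of the public increments or of the births at least `δ`);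
* `Mvd` : one letter of a finite family has moved; `lit B k` : the public value of the step `k` is LIGHT (odd `k` only);
* `stt` : start of the current epoch: an epoch ends by a light value or when the moved tuples have mass `≥ kp`.
-/

set_option autoImplicit false
set_option linter.unusedSectionVars false

namespace Pool.Agent.GMH.TD

open Finset Pool.Agent.PWZ Pool.Agent.M3

noncomputable section

variable {Om : Type*} [Fintype Om] (P : FP Om) {κ lam η : Type*} (N : ℕ → Om → κ) (L : ℕ → Om → lam) (Y : Om → η)

/-- log probability of the letter given the points and the public information -/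
def lq (k : ℕ) (w : Om) : ℝ := Real.log (P.m (fun u => (L k u, N k u)) w / P.m (fun u => (Y u, N k u)) w)

/-- the same letter, public information of the next time -/
def lqn (k : ℕ) (w : Om) : ℝ := Real.log (P.m (fun u => (L k u, N (k + 1) u)) w / P.m (fun u => (Y u, N (k + 1) u)) w)

/-- public increment -/
def ai (k : ℕ) (w : Om) : ℝ := lqn P N L Y k w - lq P N L Y k w

/-- birth -/
def bi (k : ℕ) (w : Om) : ℝ := lqn P N L Y k w - lq P N L Y (k + 1) w

/-- the letter has moved between `ν` and `k` -/
def Mv1 (δ : ℝ) (ν k : ℕ) (w : Om) : Prop :=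
  δ ≤ |∑ j ∈ Ico ν k, ai P N L Y j w| ∨ δ ≤ ∑ j ∈ Ico ν k, bi P N L Y j w

variable {ι : Type*} {lam' η' : ι → Type*} (Lf : ∀ i, ℕ → Om → lam' i) (Yf : ∀ i, Om → η' i)

/-- one letter of the family has moved -/
def Mvd (δ : ℝ) (ν k : ℕ) (w : Om) : Prop := ∃ i, Mv1 P N (Lf i) (Yf i) δ ν k w

/-- light public value in the step `k → k + 1` (odd steps only) -/
def lit (B : ℝ) (k : ℕ) (w : Om) : Prop := k % 2 = 1 ∧ B * P.m (N (k + 1)) w < P.m (N k) w

open Classical in
/-- start of the current epoch -/
def stt (B δ kp : ℝ) : ℕ → Om → ℕ
  | 0 => fun _ => 0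
  | k + 1 => fun w => if lit P N B k w ∨
      kp ≤ P.ce (N (k + 1)) (fun u => ind (Mvd P N Lf Yf δ (stt B δ kp k w) (k + 1) u)) w then k + 1
    else stt B δ kp k w

end

end Pool.Agent.GMH.TD
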