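import Pool.Agent.GMH.TD1

/-!
# GMH.TD2: thin dynamics, the clock (stub of helper27, proofs helper7)
-/

set_option autoImplicit false
set_option linter.unusedSectionVars false

namespace Pool.Agent.GMH.TD

open Finset Pool.Agent.PWZ Pool.Agent.M3

section clock

variable {Om : Type*} [Fintype Om] {P : FP Om} {κ : Type*} {N : ℕ → Om → κ} {ι : Type*} {lam' η' : ι → Type*}
  {Lf : ∀ i, ℕ → Om → lam' i} {Yf : ∀ i, Om → η' i} {B δ kp : ℝ}

theorem stt_zero (w : Om) : stt P N Lf Yf B δ kp 0 w = 0 := rfl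

/-- the condition of a restart -/
def stc (P : FP Om) (N : ℕ → Om → κ) (Lf : ∀ i, ℕ → Om → lam' i) (Yf : ∀ i, Om → η' i) (B δ kp : ℝ) (k : ℕ) (w : Om) : Prop :=
  lit P N B k w ∨ kp ≤ P.ce (N (k + 1)) (fun u => ind (Mvd P N Lf Yf δ (stt P N Lf Yf B δ kp k w) (k + 1) u)) w

theorem stt_pos {k : ℕ} {w : Om} (h : stc P N Lf Yf B δ kp k w) : stt P N Lf Yf B δ kp (k + 1) w = k + 1 := by
  classical
  show (if _ then _ else _) = _
  exact if_pos h

theorem stt_neg {k : ℕ} {w : Om} (h : ¬ stc P N Lf Yf B δ kp k w) :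
    stt P N Lf Yf B δ kp (k + 1) w = stt P N Lf Yf B δ kp k w := by
  classical
  show (if _ then _ else _) = _
  exact if_neg h

theorem stt_or (k : ℕ) (w : Om) : stt P N Lf Yf B δ kp (k + 1) w = k + 1 ∨
    stt P N Lf Yf B δ kp (k + 1) w = stt P N Lf Yf B δ kp k w := by
  by_cases h : stc P N Lf Yf B δ kp k w
  · exact Or.inl (stt_pos h)
  · exact Or.inr (stt_neg h)

theorem stt_le (k : ℕ) (w : Om) : stt P N Lf Yf B δ kp k w ≤ k := by
  induction k with
  | zero => exact le_of_eq (stt_zero w)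
  | succ k ih =>
    rcases stt_or (P := P) (N := N) (Lf := Lf) (Yf := Yf) (B := B) (δ := δ) (kp := kp) k w with h | h
    · exact le_of_eq h
    · rw [h]
      omega

theorem stt_lit {k : ℕ} {w : Om} (h : lit P N B k w) : stt P N Lf Yf B δ kp (k + 1) w = k + 1 :=
  stt_pos (Or.inl h)

/-- the start of the epoch is a start -/
theorem stt_idem (k : ℕ) (w : Om) :
    stt P N Lf Yf B δ kp (stt P N Lf Yf B δ kp k w) w = stt P N Lf Yf B δ kp k w := by
  induction k with
  | zero => rw [stt_zero, stt_zero]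
  | succ k ih =>
    rcases stt_or (P := P) (N := N) (Lf := Lf) (Yf := Yf) (B := B) (δ := δ) (kp := kp) k w with h | h
    · rw [h, h]
    · rw [h, ih]

theorem stt_mid {k ν j : ℕ} {w : Om} (h : stt P N Lf Yf B δ kp k w = ν) (h1 : ν ≤ j) (h2 : j ≤ k) :
    stt P N Lf Yf B δ kp j w = ν := by
  induction k with
  | zero =>
    obtain rfl : j = 0 := by omega
    exact h
  | succ k ih =>
    rcases Nat.eq_or_lt_of_le h2 with h3 | h3
    · rw [h3]
      exact h
    · rcases stt_or (P := P) (N := N) (Lf := Lf) (Yf := Yf) (B := B) (δ := δ) (kp := kp) k w with h4 | h4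
      · omega
      · exact ih (by rw [← h4]; exact h) (by omega)

theorem lit_fac (hN : ∀ k, Fac (N (k + 1)) (N k)) (k : ℕ) {a b : Om} (hab : N (k + 1) a = N (k + 1) b) :
    lit P N B k a ↔ lit P N B k b := by
  unfold lit
  rw [P.Fac_m (N (k + 1)) a b hab, P.Fac_m (N k) a b (hN k a b hab)]

theorem stc_fac (hN : ∀ k, Fac (N (k + 1)) (N k)) {k : ℕ} (hs : Fac (N k) (stt P N Lf Yf B δ kp k)) {a b : Om}
    (hab : N (k + 1) a = N (k + 1) b) : stc P N Lf Yf B δ kp k a ↔ stc P N Lf Yf B δ kp k b := by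
  unfold stc
  rw [lit_fac hN k hab, hs a b (hN k a b hab), P.ce_fac (N (k + 1)) _ a b hab]

theorem stt_fac (hN : ∀ k, Fac (N (k + 1)) (N k)) (k : ℕ) : Fac (N k) (stt P N Lf Yf B δ kp k) := by
  induction k with
  | zero =>
    intro a b _
    rw [stt_zero, stt_zero]
  | succ k ih =>
    intro a b hab
    have h1 := stc_fac (Lf := Lf) (Yf := Yf) (B := B) (δ := δ) (kp := kp) hN ih hab
    by_cases h : stc P N Lf Yf B δ kp k a
    · rw [stt_pos h, stt_pos (h1.1 h)]
    · rw [stt_neg h, stt_neg (fun h2 => h (h1.2 h2))]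
      exact ih a b (hN k a b hab)

theorem not_Mvd_self (hδ : 0 < δ) (k : ℕ) (w : Om) : ¬ Mvd P N Lf Yf δ k k w := by
  rintro ⟨i, h | h⟩
  · rw [Finset.Ico_self, Finset.sum_empty, abs_zero] at h
    linarith
  · rw [Finset.Ico_self, Finset.sum_empty] at h
    linarith

/-- **inside an epoch the moved tuples have mass less than `kp`** -/
theorem stt_inv (hN : ∀ k, Fac (N (k + 1)) (N k)) (hδ : 0 < δ) (hkp : 0 < kp) (k : ℕ) {w : Om} (hw : P.p w ≠ 0) :
    P.ce (N k) (fun u => ind (Mvd P N Lf Yf δ (stt P N Lf Yf B δ kp k w) k u)) w < kp := by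
  have h0 : ∀ k, stt P N Lf Yf B δ kp k w = k →
      P.ce (N k) (fun u => ind (Mvd P N Lf Yf δ (stt P N Lf Yf B δ kp k w) k u)) w < kp := by
    intro k hk
    rw [hk, P.ce_congr (g := fun _ => (0 : ℝ)) (fun u _ => ind_not (not_Mvd_self hδ k u)), P.ce_const _ _ hw]
    exact hkp
  cases k with
  | zero => exact h0 0 (stt_zero w)
  | succ k =>
    by_cases h : stc P N Lf Yf B δ kp k w
    · exact h0 (k + 1) (stt_pos h)
    · rw [stt_neg h]
      exact not_le.1 fun h2 => h (Or.inr h2)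

theorem stt_end {k : ℕ} {w : Om} (h : stt P N Lf Yf B δ kp (k + 1) w = k + 1) : lit P N B k w ∨
    kp ≤ P.ce (N (k + 1)) (fun u => ind (Mvd P N Lf Yf δ (stt P N Lf Yf B δ kp k w) (k + 1) u)) w := by
  by_contra h2
  have h3 : stt P N Lf Yf B δ kp (k + 1) w = stt P N Lf Yf B δ kp k w := stt_neg h2
  have h4 := stt_le (P := P) (N := N) (Lf := Lf) (Yf := Yf) (B := B) (δ := δ) (kp := kp) k w
  omega

/-- one step: expected number of restarts -/
theorem restart_one [Fintype ι] (hN : ∀ k, Fac (N (k + 1)) (N k)) (hkp : 0 < kp) (k : ℕ) :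
    P.Pr (fun w => stt P N Lf Yf B δ kp (k + 1) w = k + 1) ≤ P.Pr (lit P N B k) +
      (∑ i, (P.Pr (fun w => stt P N Lf Yf B δ kp (k + 1) w = k + 1 ∧
          δ ≤ |∑ j ∈ Ico (stt P N Lf Yf B δ kp k w) (k + 1), ai P N (Lf i) (Yf i) j w|) +
        P.Pr (fun w => stt P N Lf Yf B δ kp (k + 1) w = k + 1 ∧
          δ ≤ ∑ j ∈ Ico (stt P N Lf Yf B δ kp k w) (k + 1), bi P N (Lf i) (Yf i) j w))) / kp := by
  have hs := stt_fac (P := P) (Lf := Lf) (Yf := Yf) (B := B) (δ := δ) (kp := kp) hN k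
  have hs1 := stt_fac (P := P) (Lf := Lf) (Yf := Yf) (B := B) (δ := δ) (kp := kp) hN (k + 1)
  set S : Om → Prop := fun w => stt P N Lf Yf B δ kp (k + 1) w = k + 1 with hS
  set M : Om → Prop := fun w => Mvd P N Lf Yf δ (stt P N Lf Yf B δ kp k w) (k + 1) w with hM
  have e1 : ∀ w, P.ce (N (k + 1)) (fun u => ind (Mvd P N Lf Yf δ (stt P N Lf Yf B δ kp k w) (k + 1) u)) w =
      P.ce (N (k + 1)) (fun u => ind (M u)) w := by
    intro w
    unfold FP.ce
    congr 1
    unfold FP.E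
    refine Finset.sum_congr rfl fun u _ => ?_
    beta_reduce
    by_cases h : N (k + 1) u = N (k + 1) w
    · rw [hM]
      show _ = P.p u * (ind (N (k + 1) u = N (k + 1) w) * ind (Mvd P N Lf Yf δ (stt P N Lf Yf B δ kp k u) (k + 1) u))
      rw [hs u w (hN k u w h)]
    · rw [ind_not h, zero_mul, zero_mul]
  have h1 : P.Pr S ≤ P.Pr (lit P N B k) + P.Pr (fun w => S w ∧ M w) / kp := by
    have h2 : P.Pr (fun w => S w ∧ M w) = P.E (fun w => ind (S w) * P.ce (N (k + 1)) (fun u => ind (M u)) w) := by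
      unfold FP.Pr
      rw [P.E_mul_ce (Fac.ind fun a b hab => by rw [hS]; show (_ = _) ↔ (_ = _); rw [hs1 a b hab])]
      refine P.E_congr fun w _ => ?_
      by_cases h3 : S w
      · by_cases h4 : M w
        · rw [ind_of ⟨h3, h4⟩, ind_of h3, ind_of h4, mul_one]
        · rw [ind_not fun h => h4 h.2, ind_not h4, mul_zero]
      · rw [ind_not fun h => h3 h.1, ind_not h3, zero_mul]
    rw [h2, ← P.E_div_const]
    unfold FP.Pr
    rw [← P.E_add]
    refine P.E_mono fun w hw => ?_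
    have hce : 0 ≤ P.ce (N (k + 1)) (fun u => ind (M u)) w := P.ce_nonneg (fun u _ => ind_nonneg _) w
    by_cases h3 : S w
    · rw [ind_of h3, one_mul]
      rcases stt_end h3 with h4 | h4
      · rw [ind_of h4]
        have := div_nonneg hce hkp.le
        linarith
      · rw [e1 w] at h4
        have h5 : 1 ≤ P.ce (N (k + 1)) (fun u => ind (M u)) w / kp := by
          rw [le_div_iff₀ hkp, one_mul]
          exact h4
        have := ind_nonneg (lit P N B k w)
        linarith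
    · rw [ind_not h3, zero_mul, zero_div, add_zero]
      exact ind_nonneg _
  refine h1.trans ?_
  refine add_le_add le_rfl (div_le_div_of_nonneg_right ?_ hkp.le)
  unfold FP.Pr
  have h2 : P.E (fun w => ind (S w ∧ M w)) ≤ P.E (fun w => ∑ i, (ind (S w ∧
      δ ≤ |∑ j ∈ Ico (stt P N Lf Yf B δ kp k w) (k + 1), ai P N (Lf i) (Yf i) j w|) + ind (S w ∧
      δ ≤ ∑ j ∈ Ico (stt P N Lf Yf B δ kp k w) (k + 1), bi P N (Lf i) (Yf i) j w))) := by
    refine P.E_mono fun w _ => ?_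
    have hnn : ∀ i, 0 ≤ ind (S w ∧
      δ ≤ |∑ j ∈ Ico (stt P N Lf Yf B δ kp k w) (k + 1), ai P N (Lf i) (Yf i) j w|) + ind (S w ∧
      δ ≤ ∑ j ∈ Ico (stt P N Lf Yf B δ kp k w) (k + 1), bi P N (Lf i) (Yf i) j w) := fun i =>
      add_nonneg (ind_nonneg _) (ind_nonneg _)
    by_cases h3 : S w ∧ M w
    · rw [ind_of h3]
      obtain ⟨h4, i, h5 | h5⟩ := h3
      · refine le_trans ?_ (Finset.single_le_sum (fun i _ => hnn i) (Finset.mem_univ i))
        rw [ind_of ⟨h4, h5⟩]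
        have := ind_nonneg (S w ∧ δ ≤ ∑ j ∈ Ico (stt P N Lf Yf B δ kp k w) (k + 1), bi P N (Lf i) (Yf i) j w)
        linarith
      · refine le_trans ?_ (Finset.single_le_sum (fun i _ => hnn i) (Finset.mem_univ i))
        rw [ind_of (p := S w ∧ δ ≤ ∑ j ∈ Ico (stt P N Lf Yf B δ kp k w) (k + 1), bi P N (Lf i) (Yf i) j w) ⟨h4, h5⟩]
        have := ind_nonneg (S w ∧ δ ≤ |∑ j ∈ Ico (stt P N Lf Yf B δ kp k w) (k + 1), ai P N (Lf i) (Yf i) j w|)
        linarith
    · rw [ind_not h3]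
      exact Finset.sum_nonneg fun i _ => hnn i
  refine h2.trans (le_of_eq ?_)
  rw [P.E_sum]
  refine Finset.sum_congr rfl fun i _ => ?_
  rw [P.E_add]

/-- **expected number of epochs** -/
theorem restarts [Fintype ι] (hN : ∀ k, Fac (N (k + 1)) (N k)) (hL : ∀ i k, Fac (Lf i (k + 1)) (Lf i k))
    (hY : ∀ i k, Fac (Lf i k) (Yf i)) (hδ : 0 < δ) (hδ1 : δ ≤ 1) (hkp : 0 < kp) (T : ℕ) {Tot : ℝ}
    (hA : ∀ i, ∑ k ∈ range T, P.E (ai P N (Lf i) (Yf i) k) ≤ Tot)
    (hB : ∀ i, ∑ k ∈ range T, P.E (bi P N (Lf i) (Yf i) k) ≤ Tot) :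
    ∑ k ∈ range T, P.Pr (fun w => stt P N Lf Yf B δ kp (k + 1) w = k + 1) ≤
      ∑ k ∈ range T, P.Pr (lit P N B k) + Fintype.card ι * (4 / δ ^ 2 * Tot) / kp := by
  have h1 := Finset.sum_le_sum fun k (_ : k ∈ range T) =>
    restart_one (P := P) (Lf := Lf) (Yf := Yf) (B := B) (δ := δ) hN hkp k
  refine h1.trans ?_
  rw [Finset.sum_add_distrib, ← Finset.sum_div, Finset.sum_comm]
  refine add_le_add le_rfl (div_le_div_of_nonneg_right ?_ hkp.le)
  have h2 : ∀ i ∈ (Finset.univ : Finset ι), ∑ k ∈ range T,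
      (P.Pr (fun w => stt P N Lf Yf B δ kp (k + 1) w = k + 1 ∧
          δ ≤ |∑ j ∈ Ico (stt P N Lf Yf B δ kp k w) (k + 1), ai P N (Lf i) (Yf i) j w|) +
        P.Pr (fun w => stt P N Lf Yf B δ kp (k + 1) w = k + 1 ∧
          δ ≤ ∑ j ∈ Ico (stt P N Lf Yf B δ kp k w) (k + 1), bi P N (Lf i) (Yf i) j w)) ≤ 4 / δ ^ 2 * Tot := by
    intro i _
    rw [Finset.sum_add_distrib]
    have h3 := moves_a P (Y := Yf i) hN (hL i) (hY i) (st := stt P N Lf Yf B δ kp) (fun w => stt_zero w)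
      (fun k w => stt_or k w) (fun k => stt_fac hN k) hδ hδ1 T
    have h4 := moves_b P (N := N) (Y := Yf i) (hL i) (st := stt P N Lf Yf B δ kp) (fun w => stt_zero w)
      (fun k w => stt_or k w) hδ T
    have h5 : 3 / δ ^ 2 * ∑ k ∈ range T, P.E (ai P N (Lf i) (Yf i) k) ≤ 3 / δ ^ 2 * Tot :=
      mul_le_mul_of_nonneg_left (hA i) (by positivity)
    have hT0 : 0 ≤ Tot := by
      refine le_trans (Finset.sum_nonneg fun k _ => P.E_nonneg fun w hw => ?_) (hB i)
      exact bi_nonneg P (hL i) k hw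
    have h6 : 1 / δ * ∑ k ∈ range T, P.E (bi P N (Lf i) (Yf i) k) ≤ 1 / δ ^ 2 * Tot := by
      refine (mul_le_mul_of_nonneg_left (hB i) (by positivity)).trans ?_
      refine mul_le_mul_of_nonneg_right ?_ hT0
      refine one_div_le_one_div_of_le (by positivity) ?_
      nlinarith
    have h7 : 4 / δ ^ 2 * Tot = 3 / δ ^ 2 * Tot + 1 / δ ^ 2 * Tot := by ring
    rw [h7]
    exact add_le_add (h3.trans h5) (h4.trans h6)
  refine (Finset.sum_le_sum h2).trans (le_of_eq ?_)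
  rw [Finset.sum_const, Finset.card_univ, nsmul_eq_mul]

/-- every time belongs to one epoch -/
theorem sum_epochs (T : ℕ) (f : ℕ → ℝ) (w : Om) : ∑ k ∈ range T, f k =
    ∑ ν ∈ range T, ind (stt P N Lf Yf B δ kp ν w = ν) * ∑ k ∈ Ico ν T, ind (stt P N Lf Yf B δ kp k w = ν) * f k := by
  have h1 : ∀ ν ∈ range T, ind (stt P N Lf Yf B δ kp ν w = ν) *
      ∑ k ∈ Ico ν T, ind (stt P N Lf Yf B δ kp k w = ν) * f k =
      ∑ k ∈ range T, ind (stt P N Lf Yf B δ kp k w = ν) * f k := by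
    intro ν hν
    have hν' := Finset.mem_range.1 hν
    have h2 : ∑ k ∈ Ico ν T, ind (stt P N Lf Yf B δ kp k w = ν) * f k =
        ∑ k ∈ range T, ind (stt P N Lf Yf B δ kp k w = ν) * f k := by
      refine Finset.sum_subset (fun k hk => Finset.mem_range.2 (Finset.mem_Ico.1 hk).2) fun k hk hk2 => ?_
      have hk' := Finset.mem_range.1 hk
      have h3 : k < ν := by
        by_contra h4
        exact hk2 (Finset.mem_Ico.2 ⟨not_lt.1 h4, hk'⟩)
      have h4 := stt_le (P := P) (N := N) (Lf := Lf) (Yf := Yf) (B := B) (δ := δ) (kp := kp) k w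
      rw [ind_not (by omega), zero_mul]
    rw [h2]
    by_cases h3 : stt P N Lf Yf B δ kp ν w = ν
    · rw [ind_of h3, one_mul]
    · rw [ind_not h3, zero_mul]
      symm
      refine Finset.sum_eq_zero fun k _ => ?_
      by_cases h4 : stt P N Lf Yf B δ kp k w = ν
      · exfalso
        refine h3 ?_
        have h5 := stt_idem (P := P) (N := N) (Lf := Lf) (Yf := Yf) (B := B) (δ := δ) (kp := kp) k w
        rw [h4] at h5
        exact h5
      · rw [ind_not h4, zero_mul]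
  rw [Finset.sum_congr rfl h1, Finset.sum_comm]
  refine Finset.sum_congr rfl fun k hk => ?_
  have hk' := Finset.mem_range.1 hk
  have h4 := stt_le (P := P) (N := N) (Lf := Lf) (Yf := Yf) (B := B) (δ := δ) (kp := kp) k w
  rw [Finset.sum_eq_single (stt P N Lf Yf B δ kp k w), ind_of rfl, one_mul]
  · intro ν _ hν
    rw [ind_not fun h => hν h.symm, zero_mul]
  · intro h
    exact absurd (Finset.mem_range.2 (by omega)) h

end clock

end Pool.Agent.GMH.TD
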