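import Pool.Agent.GMH.TD9
import Pool.Agent.GMH.TD2

/-!
# GMH.TD11: thin dynamics, epochs, definitions (helper27)

* `stq` = `STq h v δ kp` the start of the current epoch; `sgm ν` = length of the epoch which starts at `ν` (capped at `2 T`);
* `gW c ν s` : the epoch ends by a light value at `ν + s` at which the letter of `c` is strong;
* `wt e c ν us w` = weight of a sample of points of `c` in the world of `w`;
* `mvc` = conditional probability of the moved tuples given the letters of `insert c J0` and the public information.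
-/

set_option autoImplicit false
set_option linter.unusedSectionVars false

namespace Pool.Agent.GMH.TD

open Finset Pool.Agent.PWZ Pool.Agent.M3 Pool.Agent.GM Pool.Agent.GM.Harm Pool.Agent.GMH Pool.Agent.GMH.NZ
open Pool.Agent.GMH.V3 Pool.Agent.GMH.Gdy

noncomputable section

variable {X β γ φ υ : Type} [Fintype X] [Fintype β] [Fintype φ] [Nonempty X] [Nonempty β]
variable {D : HD (Fin 3) X β γ φ} {al : ℝ} (h : D.Thick al) (v : ℕ → Finset (Fin 3) → X → (Fin 3 → β) → υ)

/-- the epoch which starts at `ν` has an end at `ν + s` (or the time is over) -/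
def EndE (δ kp : ℝ) (T ν s : ℕ) (w : Pt (Fin 3) X β φ) : Prop :=
  1 ≤ s ∧ (STq h v δ kp (ν + s) w = ν + s ∨ 2 * T ≤ ν + s)

theorem exists_EndE (δ kp : ℝ) (T ν : ℕ) (w : Pt (Fin 3) X β φ) : ∃ s, EndE h v δ kp T ν s w :=
  ⟨2 * T + 1, by omega, Or.inr (by omega)⟩

open Classical in
/-- length of the epoch which starts at `ν` -/
def sgm (δ kp : ℝ) (T ν : ℕ) (w : Pt (Fin 3) X β φ) : ℕ := Nat.find (exists_EndE h v δ kp T ν w)

/-- the epoch ends by a light value at `ν + s`, the letter of `c` is strong -/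
def gW (c : Fin 3) (ν s : ℕ) (w : Pt (Fin 3) X β φ) : ℝ :=
  ind (1 ≤ s ∧ ltq h v (ν + s - 1) w ∧ Sq h v c (ν + s - 1) w)

/-- weight of a sample of points of `c` in the world of `w` -/
def wt (e c : Fin 3) (ν : ℕ) {M : ℕ} (us : Fin M → β) (w : Pt (Fin 3) X β φ) : ℝ :=
  sw (fun a => (Wd h v e ν w).Pr fun y => y.2.1 c = a) us

/-- moved tuples given the letters of `insert c J0` and the public information -/
def mvc (δ kp : ℝ) (J0 : Finset (Fin 3)) (c : Fin 3) (r : ℕ) (w : Pt (Fin 3) X β φ) : ℝ :=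
  (D.P h 0).ce (fun u => (LJ v (insert c J0) r u, NPr v D r u)) (fun u => ind (MAq h v δ (STq h v δ kp r w) r u)) w

/-- expected number of epochs -/
def Nep (δ kp : ℝ) (T : ℕ) : ℝ := ∑ ν ∈ range (2 * T), (D.P h 0).Pr fun w => STq h v δ kp ν w = ν

/-- total probability of the tiny digits -/
def Tny (dl : ℝ) (T : ℕ) : ℝ := ∑ t ∈ range T, (D.P h 0).Pr fun w => ¬ dgq h v dl (2 * t + 1) w

end

end Pool.Agent.GMH.TD
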