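import Pool.Agent.GMH.TD11
import Pool.Agent.GMH.TD10
import Pool.Agent.GMH.TD4

/-!
# GMH.TD11A: thin dynamics, one epoch, world by world (helper52, statement of helper27)

In the world `Wd e ν w0` apply `Gdy.world_le` with `U u = u.2.1 c`, `V u = u.2.1 d`, `R = Rel .. ν w0`, cells `cel D T c ν`,
`cel D T d ν`, `h = 2` (`cel_half`), `σ`, `g` = `sgm ν`, `gW c ν` composed with `rho u = upd c d w0 (u.2.1 c) (u.2.1 d)` (in the
world `rho u` and `u` have the same positions; so `σ`, `g` are globally functions of the cells, of the point of `c`); `g` is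
cut off at `2 T - ν`.  Average over `w0`.  `HRq`, `Rel` are symmetric in `c`, `d`; the weights `wt` and the potentials `PhV`
are constant on the world.  In an epoch there is at most one light value.
-/

set_option autoImplicit false
set_option linter.unusedSectionVars false

namespace Pool.Agent.GMH.TD

open Finset Pool.Agent.PWZ Pool.Agent.M3 Pool.Agent.GM Pool.Agent.GM.Harm Pool.Agent.GMH Pool.Agent.GMH.NZ
open Pool.Agent.GMH.V3 Pool.Agent.GMH.Gdy

variable {X β γ φ υ : Type} [Fintype X] [Fintype β] [Fintype φ] [Nonempty X] [Nonempty β]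
variable {D : HD (Fin 3) X β γ φ} {al : ℝ} {h : D.Thick al} {v : ℕ → Finset (Fin 3) → X → (Fin 3 → β) → υ}

namespace EA

/-! ### the length of an epoch -/

section length

variable {δ kp : ℝ} {T ν : ℕ}

theorem sgm_spec (w : Pt (Fin 3) X β φ) : EndE h v δ kp T ν (sgm h v δ kp T ν w) w := by
  classical
  unfold sgm
  exact Nat.find_spec (exists_EndE h v δ kp T ν w)

theorem sgm_min {w : Pt (Fin 3) X β φ} {s : ℕ} (hs : EndE h v δ kp T ν s w) : sgm h v δ kp T ν w ≤ s := by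
  classical
  unfold sgm
  exact Nat.find_min' (exists_EndE h v δ kp T ν w) hs

theorem sgm_cap (hν : ν < 2 * T) (w : Pt (Fin 3) X β φ) : ν + sgm h v δ kp T ν w ≤ 2 * T := by
  have h1 : EndE h v δ kp T ν (2 * T - ν) w := ⟨by omega, Or.inr (by omega)⟩
  have h2 := sgm_min h1
  omega

theorem sgm_le_iff {w : Pt (Fin 3) X β φ} {s : ℕ} : sgm h v δ kp T ν w ≤ s ↔ ∃ s' ≤ s, EndE h v δ kp T ν s' w :=
  ⟨fun h1 => ⟨_, h1, sgm_spec w⟩, fun ⟨_, h1, h2⟩ => (sgm_min h2).trans h1⟩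

theorem STq_fac (r : ℕ) : Fac (NPr (φ := φ) v D r) (STq h v δ kp r) := stt_fac (fun k => NPr_step k) r

theorem EndE_fac {s : ℕ} {a b : Pt (Fin 3) X β φ} (hab : NPr v D (ν + s) a = NPr v D (ν + s) b) :
    EndE h v δ kp T ν s a ↔ EndE h v δ kp T ν s b := by
  unfold EndE
  rw [STq_fac (ν + s) a b hab]

theorem sgm_fac {s : ℕ} {a b : Pt (Fin 3) X β φ} (hab : NPr v D (ν + s) a = NPr v D (ν + s) b) :
    sgm h v δ kp T ν a ≤ s ↔ sgm h v δ kp T ν b ≤ s := by
  rw [sgm_le_iff, sgm_le_iff]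
  exact exists_congr fun s' => and_congr_right fun hs' =>
    EndE_fac (NPr_older (by omega) hab)

theorem ltq_fac {r : ℕ} {a b : Pt (Fin 3) X β φ} (hab : NPr v D (r + 1) a = NPr v D (r + 1) b) :
    ltq h v r a ↔ ltq h v r b := lit_fac (fun k => NPr_step k) r hab

theorem Sq_fac {c : Fin 3} {r : ℕ} {a b : Pt (Fin 3) X β φ} (hab : NPr v D (r + 1) a = NPr v D (r + 1) b)
    (hx : XLr v r c a = XLr v r c b) : Sq h v c r a ↔ Sq h v c r b := by
  have h1 : LJ v {c} r a = LJ v {c} r b := LJ_iff.2 fun j hj => by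
    rw [Finset.mem_singleton.1 hj]
    exact hx
  have h2 : aJq h v {c} r a = aJq h v {c} r b :=
    ai_fac (D.P h 0) (fun k => NPr_step k) (fun k => LJ_PJ {c} k) r a b (Prod.ext h1 hab)
  unfold Sq
  rw [h2]

/-- an epoch has at most one light value, its last one -/
theorem lit_sgm {r : ℕ} {w : Pt (Fin 3) X β φ} (h1 : ν ≤ r) (h2 : r < 2 * T) (h3 : STq h v δ kp r w = ν)
    (h4 : ltq h v r w) : sgm h v δ kp T ν w = r + 1 - ν := by
  have h5 : STq h v δ kp (r + 1) w = r + 1 := stt_lit h4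
  refine le_antisymm (sgm_min ⟨by omega, Or.inl ?_⟩) ?_
  · have e : ν + (r + 1 - ν) = r + 1 := by omega
    rw [e]
    exact h5
  · by_contra hc
    obtain ⟨h6, h7⟩ := sgm_spec (h := h) (v := v) (δ := δ) (kp := kp) (T := T) (ν := ν) w
    set s := sgm h v δ kp T ν w with hs
    rcases h7 with h7 | h7
    · have h8 : STq h v δ kp (ν + s) w = ν := stt_mid h3 (by omega) (by omega)
      omega
    · omega

/-- the light values of an epoch -/
theorem light_le {θ X1 p1 : ℝ} {J0 : Finset (Fin 3)} {c d : Fin 3} (hν : ν < 2 * T) (w : Pt (Fin 3) X β φ) :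
    ∑ r ∈ Ico ν (2 * T), ind (STq h v δ kp r w = ν ∧ ltq h v r w ∧ Sq h v c r w ∧ Sq h v d r w ∧
      HRq h v θ X1 p1 J0 c d ν w) ≤ ind (HRq h v θ X1 p1 J0 c d ν w) * gW h v c ν (sgm h v δ kp T ν w) w := by
  have hcap := sgm_cap (h := h) (v := v) (δ := δ) (kp := kp) hν w
  have hpos : 1 ≤ sgm h v δ kp T ν w := (sgm_spec w).1
  set s := sgm h v δ kp T ν w with hs
  have hmem : ν + s - 1 ∈ Ico ν (2 * T) := Finset.mem_Ico.2 ⟨by omega, by omega⟩
  rw [Finset.sum_eq_single_of_mem (ν + s - 1) hmem]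
  · unfold gW
    rw [← ind_and]
    refine ind_mono ?_
    rintro ⟨_, a2, a3, _, a5⟩
    exact ⟨a5, hpos, a2, a3⟩
  · intro r hr hne
    refine ind_not ?_
    rintro ⟨a1, a2, _⟩
    have h1 := Finset.mem_Ico.1 hr
    have h2 := lit_sgm (T := T) h1.1 h1.2 a1 a2
    omega

end length

/-! ### the position with the points of `c` and `d` -/

section rho

variable {c d e : Fin 3} {J0 : Finset (Fin 3)}

/-- the position `w0` with the points of `c`, `d` as at `u` -/
def rho (c d : Fin 3) (w0 u : Pt (Fin 3) X β φ) : Pt (Fin 3) X β φ := upd c d w0 (u.2.1 c) (u.2.1 d)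

theorem rho_c (hcd : c ≠ d) (w0 u : Pt (Fin 3) X β φ) : (rho c d w0 u).2.1 c = u.2.1 c := by
  show Function.update (Function.update w0.2.1 c (u.2.1 c)) d (u.2.1 d) c = u.2.1 c
  rw [Function.update_of_ne hcd, Function.update_self]

theorem rho_qb {w0 u u' : Pt (Fin 3) X β φ} {n : ℕ} (h1 : D.qb n (u.2.1 c) = D.qb n (u'.2.1 c))
    (h2 : D.qb n (u.2.1 d) = D.qb n (u'.2.1 d)) (j : Fin 3) :
    D.qb n ((rho c d w0 u).2.1 j) = D.qb n ((rho c d w0 u').2.1 j) := by
  show D.qb n (Function.update (Function.update w0.2.1 c (u.2.1 c)) d (u.2.1 d) j) =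
    D.qb n (Function.update (Function.update w0.2.1 c (u'.2.1 c)) d (u'.2.1 d) j)
  by_cases hd : j = d
  · subst hd
    rw [Function.update_self, Function.update_self]
    exact h2
  · rw [Function.update_of_ne hd, Function.update_of_ne hd]
    by_cases hc : j = c
    · subst hc
      rw [Function.update_self, Function.update_self]
      exact h1
    · rw [Function.update_of_ne hc, Function.update_of_ne hc]

theorem pair_qb {T ν s : ℕ} (hs : ν + s ≤ 2 * T) {u u' : Pt (Fin 3) X β φ}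
    (hc : pair (cel D T c ν) (cel D T d ν) s u = pair (cel D T c ν) (cel D T d ν) s u') :
    D.qb (nt (ν + s)) (u.2.1 c) = D.qb (nt (ν + s)) (u'.2.1 c) ∧
      D.qb (nt (ν + s)) (u.2.1 d) = D.qb (nt (ν + s)) (u'.2.1 d) := by
  have hc1 : cel D T c ν s u = cel D T c ν s u' := congrArg Prod.fst hc
  have hc2 : cel D T d ν s u = cel D T d ν s u' := congrArg Prod.snd hc
  unfold cel at hc1 hc2
  rw [min_eq_left hs] at hc1 hc2
  exact ⟨hc1, hc2⟩

/-- the public information at `rho` is a function of the cells -/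
theorem rho_NPr (hv : Codes D v) {T ν s : ℕ} (hs : ν + s ≤ 2 * T) {w0 u u' : Pt (Fin 3) X β φ}
    (hc : pair (cel D T c ν) (cel D T d ν) s u = pair (cel D T c ν) (cel D T d ν) s u') :
    NPr v D (ν + s) (rho c d w0 u) = NPr v D (ν + s) (rho c d w0 u') := by
  obtain ⟨h1, h2⟩ := pair_qb hs hc
  have hq := rho_qb (w0 := w0) h1 h2
  unfold NPr NP nd
  refine Prod.ext ?_ (Prod.ext rfl (funext hq))
  exact Um_codes hv (Nat.succ_le_succ (tm_nt (ν + s))) ∅ w0.1 (fun j hj => absurd hj (Finset.notMem_empty j)) hq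

/-- the letter of `c` at `rho` is a function of the cells and of the point of `c` -/
theorem rho_XLr (hv : Codes D v) (hcd : c ≠ d) {T ν s : ℕ} (hs : ν + s ≤ 2 * T) {w0 u u' : Pt (Fin 3) X β φ}
    (hc : pair (cel D T c ν) (cel D T d ν) s u = pair (cel D T c ν) (cel D T d ν) s u')
    (hcc : u.2.1 c = u'.2.1 c) {r : ℕ} (hr : r ≤ ν + s) :
    XLr v r c (rho c d w0 u) = XLr v r c (rho c d w0 u') := by
  obtain ⟨h1, h2⟩ := pair_qb hs hc
  have hq := rho_qb (w0 := w0) h1 h2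
  have e1 : (rho c d w0 u).2.1 c = (rho c d w0 u').2.1 c := by rw [rho_c hcd, rho_c hcd, hcc]
  unfold XLr XL
  refine Prod.ext e1 ?_
  refine Um_codes hv (n := nt (ν + s)) ?_ {c} w0.1 (fun j hj => ?_) hq
  · exact Nat.succ_le_succ ((tm_mono hr).trans (tm_nt (ν + s)))
  · rw [Finset.mem_singleton.1 hj]
    exact e1

/-- in the world `rho` does not change the position -/
theorem rho_pos (ht : Tri3 J0 e c d) {ν : ℕ} {w0 u : Pt (Fin 3) X β φ} (hu : (Wd h v e ν w0).p u ≠ 0) :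
    ((rho c d w0 u).1, (rho c d w0 u).2.1) = (u.1, u.2.1) := by
  obtain ⟨u1, u2, _, _⟩ := Wd_supp hu
  refine Prod.ext u1.symm ?_
  funext j
  show Function.update (Function.update w0.2.1 c (u.2.1 c)) d (u.2.1 d) j = u.2.1 j
  rcases ht.all j with rfl | rfl | rfl
  · rw [Function.update_of_ne ht.ed, Function.update_of_ne ht.ec, u2]
  · rw [Function.update_of_ne ht.cd, Function.update_self]
  · rw [Function.update_self]

theorem sgm_pos {δ kp : ℝ} {T ν : ℕ} {a b : Pt (Fin 3) X β φ} (hab : (a.1, a.2.1) = (b.1, b.2.1)) :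
    sgm h v δ kp T ν a = sgm h v δ kp T ν b := by
  refine le_antisymm ?_ ?_
  · exact (sgm_fac (NPr_pos _ a b hab)).2 le_rfl
  · exact (sgm_fac (NPr_pos _ a b hab)).1 le_rfl

theorem gW_pos {ν s : ℕ} {a b : Pt (Fin 3) X β φ} (hab : (a.1, a.2.1) = (b.1, b.2.1)) :
    gW h v c ν s a = gW h v c ν s b := by
  unfold gW
  refine ind_cg (and_congr_right fun _ => and_congr (ltq_fac (NPr_pos _ a b hab)) ?_)
  exact Sq_fac (NPr_pos _ a b hab) (XLr_eq (Prod.mk.inj hab).1 (Prod.mk.inj hab).2)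

/-- the static relation is symmetric -/
theorem HRq_symm {θ X1 p1 : ℝ} {ν : ℕ} {w : Pt (Fin 3) X β φ} :
    HRq h v θ X1 p1 J0 d c ν w ↔ HRq h v θ X1 p1 J0 c d ν w := by
  unfold HRq Gd
  constructor
  · rintro ⟨a1, a2, ⟨a3, a4⟩, a5, a6⟩
    exact ⟨a2, a1, ⟨a4, a3⟩, a6, a5⟩
  · rintro ⟨a1, a2, ⟨a3, a4⟩, a5, a6⟩
    exact ⟨a2, a1, ⟨a4, a3⟩, a6, a5⟩

theorem Rel_symm (hcd : c ≠ d) {θ X1 p1 : ℝ} {ν : ℕ} {w : Pt (Fin 3) X β φ} {a b : β} :
    Rel h v θ X1 p1 J0 d c ν w b a ↔ Rel h v θ X1 p1 J0 c d ν w a b := by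
  have e1 : upd d c w b a = upd c d w a b := by
    unfold upd
    rw [Function.update_comm hcd]
  unfold Rel
  rw [e1, HRq_symm]

/-- the static relation is constant on the world -/
theorem Rel_const (ht : Tri3 J0 e c d) {θ X1 p1 : ℝ} {ν : ℕ} {w0 u : Pt (Fin 3) X β φ}
    (hu : (Wd h v e ν w0).p u ≠ 0) (a b : β) :
    Rel h v θ X1 p1 J0 c d ν u a b ↔ Rel h v θ X1 p1 J0 c d ν w0 a b := by
  obtain ⟨u1, u2, u3, _⟩ := Wd_supp hu
  have hp : ((upd c d u a b).1, (upd c d u a b).2.1) = ((upd c d w0 a b).1, (upd c d w0 a b).2.1) := by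
    refine Prod.ext u1 ?_
    funext j
    show Function.update (Function.update u.2.1 c a) d b j = Function.update (Function.update w0.2.1 c a) d b j
    rcases ht.all j with rfl | rfl | rfl
    · rw [Function.update_of_ne ht.ed, Function.update_of_ne ht.ec, Function.update_of_ne ht.ed,
        Function.update_of_ne ht.ec, u2]
    · rw [Function.update_of_ne ht.cd, Function.update_self, Function.update_of_ne ht.cd, Function.update_self]
    · rw [Function.update_self, Function.update_self]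
  unfold Rel
  rw [NPr_pos ν _ _ hp, u3]
  exact and_congr_right fun _ => HRq_fac ht (NPr_pos ν _ _ hp) (LJ_pos _ ν _ _ hp)

theorem Wd_const {ν : ℕ} {w0 u : Pt (Fin 3) X β φ} (hu : (Wd h v e ν w0).p u ≠ 0) :
    Wd h v e ν u = Wd h v e ν w0 := by
  obtain ⟨u1, u2, u3, _⟩ := Wd_supp hu
  unfold Wd
  rw [u1, u2, u3]

theorem wt_const {ν M : ℕ} {w0 u : Pt (Fin 3) X β φ} (hu : (Wd h v e ν w0).p u ≠ 0) (us : Fin M → β) :
    wt h v e c ν us u = wt h v e c ν us w0 := by
  unfold wt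
  rw [Wd_const hu]

theorem PhV_const (ht : Tri3 J0 e c d) {θ X1 p1 x : ℝ} {T ν M s : ℕ} {w0 u : Pt (Fin 3) X β φ}
    (hu : (Wd h v e ν w0).p u ≠ 0) (us : Fin M → β) :
    PhV h v T θ X1 p1 J0 e c d ν x us s u =
      Gdy.Phi (Wd h v e ν w0) (cel D T d ν) x (rows (row (fun y : Pt (Fin 3) X β φ => y.2.1 d)
        (Rel h v θ X1 p1 J0 c d ν w0)) us) M s u := by
  have e1 : Rel h v θ X1 p1 J0 c d ν u = Rel h v θ X1 p1 J0 c d ν w0 := by
    funext a b
    exact propext (Rel_const ht hu a b)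
  unfold PhV Rws
  rw [Wd_const hu, e1]

theorem tri_swap (ht : Tri3 J0 e c d) : Tri3 J0 e d c := ⟨ht.ed, ht.ec, ht.cd.symm, ht.sub⟩

end rho

/-! ### one world -/

theorem epoch_world (hv : Codes D v) {dg : ℕ → X → ℝ} {prr : ℕ → Fin 3 → φ → φ} {T : ℕ} {Lam : ℝ}
    (H : D.Hyp dg prr al T Lam) {J0 : Finset (Fin 3)} {e c d : Fin 3} (ht : Tri3 J0 e c d) {θ X1 p1 x δ kp : ℝ}
    (hx : 0 < x) (M : ℕ) {ν : ℕ} (hν : ν < 2 * T) {w0 : Pt (Fin 3) X β φ} (hw0 : (D.P h 0).p w0 ≠ 0) :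
    (Wd h v e ν w0).E (fun w => ind (HRq h v θ X1 p1 J0 c d ν w) * gW h v c ν (sgm h v δ kp T ν w) w) ≤
      x / 2 * (Wd h v e ν w0).E (fun w => gW h v c ν (sgm h v δ kp T ν w) w) +
      (Wd h v e ν w0).E (fun w => ∑ us : Fin M → β, wt h v e c ν us w *
        (2 * x * PhV h v T θ X1 p1 J0 e c d ν x us (sgm h v δ kp T ν w) w +
          ind (0 < PhV h v T θ X1 p1 J0 e c d ν x us 0 w))) +
      (Wd h v e ν w0).E (fun w => ∑ us : Fin M → β, wt h v e d ν us w *
        (2 * x * PhV h v T θ X1 p1 J0 e d c ν x us (sgm h v δ kp T ν w) w +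
          ind (0 < PhV h v T θ X1 p1 J0 e d c ν x us 0 w))) +
      6 / (x * (M + 1)) := by
  classical
  set W := Wd h v e ν w0 with hW
  set U : Pt (Fin 3) X β φ → β := fun y => y.2.1 c with hU
  set V : Pt (Fin 3) X β φ → β := fun y => y.2.1 d with hV
  set R : β → β → Prop := Rel h v θ X1 p1 J0 c d ν w0 with hR
  set σ : Pt (Fin 3) X β φ → ℕ := fun u => sgm h v δ kp T ν (rho c d w0 u) with hσd
  set g : ℕ → Pt (Fin 3) X β φ → ℝ := fun s u =>
    if ν + s ≤ 2 * T then gW h v c ν s (rho c d w0 u) else 0 with hgd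
  have hσ : Stp (pair (cel D T c ν) (cel D T d ν)) σ := by
    intro s a b hab
    by_cases hs : ν + s ≤ 2 * T
    · exact sgm_fac (rho_NPr hv hs hab)
    · have h1 := sgm_cap (h := h) (v := v) (δ := δ) (kp := kp) hν (rho c d w0 a)
      have h2 := sgm_cap (h := h) (v := v) (δ := δ) (kp := kp) hν (rho c d w0 b)
      exact iff_of_true (show sgm h v δ kp T ν (rho c d w0 a) ≤ s by omega)
        (show sgm h v δ kp T ν (rho c d w0 b) ≤ s by omega)
  have hT : ∀ w, σ w < 2 * T + 1 := fun w => by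
    have h1 := sgm_cap (h := h) (v := v) (δ := δ) (kp := kp) hν (rho c d w0 w)
    show sgm h v δ kp T ν (rho c d w0 w) < 2 * T + 1
    omega
  have hg : ∀ s, Fac (fun w => (pair (cel D T c ν) (cel D T d ν) s w, U w)) (g s) := by
    intro s a b hab
    have h1 : pair (cel D T c ν) (cel D T d ν) s a = pair (cel D T c ν) (cel D T d ν) s b := congrArg Prod.fst hab
    have h2 : a.2.1 c = b.2.1 c := congrArg Prod.snd hab
    show (if ν + s ≤ 2 * T then gW h v c ν s (rho c d w0 a) else 0) =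
      if ν + s ≤ 2 * T then gW h v c ν s (rho c d w0 b) else 0
    by_cases hs : ν + s ≤ 2 * T
    · rw [if_pos hs, if_pos hs]
      unfold gW
      refine ind_cg (and_congr_right fun h1s => ?_)
      have e1 : NPr v D (ν + s - 1 + 1) (rho c d w0 a) = NPr v D (ν + s - 1 + 1) (rho c d w0 b) := by
        have e2 : ν + s - 1 + 1 = ν + s := by omega
        rw [e2]
        exact rho_NPr hv hs h1
      exact and_congr (ltq_fac e1) (Sq_fac e1 (rho_XLr hv ht.cd hs h1 h2 (by omega)))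
    · rw [if_neg hs, if_neg hs]
  have hg0 : ∀ s w, 0 ≤ g s w := by
    intro s w
    show 0 ≤ if ν + s ≤ 2 * T then gW h v c ν s (rho c d w0 w) else 0
    split_ifs
    · exact ind_nonneg _
    · exact le_rfl
  have hg1 : ∀ s w, g s w ≤ 1 := by
    intro s w
    show (if ν + s ≤ 2 * T then gW h v c ν s (rho c d w0 w) else 0) ≤ 1
    split_ifs
    · exact ind_le_one _
    · exact zero_le_one
  have main := world_le (P := W) (U := U) (V := V) (R := R) (cU := cel D T c ν) (cV := cel D T d ν)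
    (Wd_indep hv ht ν hw0) (cel_fac T c ν) (cel_fac T d ν) (cel_filt T c ν) (cel_filt T d ν) hx
    (h := 2) (by norm_num) (fun s w hw => cel_half H hv ht.ec ν hw0 s hw) (fun s w hw => cel_half H hv ht.ed ν hw0 s hw)
    hσ hT hg hg0 hg1 M
  -- in the world
  have eσ : ∀ u, W.p u ≠ 0 → σ u = sgm h v δ kp T ν u := fun u hu => sgm_pos (rho_pos ht hu)
  have eg : ∀ u, W.p u ≠ 0 → g (σ u) u = gW h v c ν (sgm h v δ kp T ν u) u := by
    intro u hu
    have h1 := sgm_cap (h := h) (v := v) (δ := δ) (kp := kp) hν u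
    show (if ν + σ u ≤ 2 * T then gW h v c ν (σ u) (rho c d w0 u) else 0) = _
    rw [eσ u hu, if_pos h1]
    exact gW_pos (rho_pos ht hu)
  have e1 : W.E (fun w => ind (R (U w) (V w)) * g (σ w) w) =
      W.E (fun w => ind (HRq h v θ X1 p1 J0 c d ν w) * gW h v c ν (sgm h v δ kp T ν w) w) := by
    refine W.E_congr fun u hu => ?_
    rw [eg u hu, ind_cg (Rel_wd ht hu)]
  have e2 : W.E (fun w => g (σ w) w) = W.E (fun w => gW h v c ν (sgm h v δ kp T ν w) w) := W.E_congr eg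
  have e3 : ∑ us : Fin M → β, sw (fun a => W.Pr (fun w => U w = a)) us *
        (2 * x * W.E (fun w => Gdy.Phi W (cel D T d ν) x (rows (row V R) us) M (σ w) w) +
          W.Pr (fun w => 0 < Gdy.Phi W (cel D T d ν) x (rows (row V R) us) M 0 w)) =
      W.E (fun w => ∑ us : Fin M → β, wt h v e c ν us w *
        (2 * x * PhV h v T θ X1 p1 J0 e c d ν x us (sgm h v δ kp T ν w) w +
          ind (0 < PhV h v T θ X1 p1 J0 e c d ν x us 0 w))) := by
    rw [W.E_sum]
    refine Finset.sum_congr rfl fun us _ => ?_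
    unfold FP.Pr
    rw [← W.E_smul, ← W.E_add, ← W.E_smul]
    refine W.E_congr fun u hu => ?_
    rw [eσ u hu, wt_const hu, PhV_const ht hu, PhV_const ht hu]
    rfl
  have e4 : ∑ us : Fin M → β, sw (fun a => W.Pr (fun w => V w = a)) us *
        (2 * x * W.E (fun w => Gdy.Phi W (cel D T c ν) x (rows (row U (fun b a => R a b)) us) M (σ w) w) +
          W.Pr (fun w => 0 < Gdy.Phi W (cel D T c ν) x (rows (row U (fun b a => R a b)) us) M 0 w)) =
      W.E (fun w => ∑ us : Fin M → β, wt h v e d ν us w *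
        (2 * x * PhV h v T θ X1 p1 J0 e d c ν x us (sgm h v δ kp T ν w) w +
          ind (0 < PhV h v T θ X1 p1 J0 e d c ν x us 0 w))) := by
    have eR : (fun b a => R a b) = Rel h v θ X1 p1 J0 d c ν w0 := by
      funext b a
      exact propext (Rel_symm ht.cd).symm
    rw [W.E_sum]
    refine Finset.sum_congr rfl fun us _ => ?_
    unfold FP.Pr
    rw [← W.E_smul, ← W.E_add, ← W.E_smul, eR]
    refine W.E_congr fun u hu => ?_
    rw [eσ u hu, wt_const hu, PhV_const (tri_swap ht) hu, PhV_const (tri_swap ht) hu]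
    rfl
  rw [e1, e2, e3, e4] at main
  exact main

end EA

/-! ### one epoch -/

open EA in
theorem epoch_le (hv : Codes D v) {dg : ℕ → X → ℝ} {prr : ℕ → Fin 3 → φ → φ} {T : ℕ} {Lam : ℝ}
    (H : D.Hyp dg prr al T Lam) {J0 : Finset (Fin 3)} {e c d : Fin 3} (ht : Tri3 J0 e c d) {θ X1 p1 u δ kp : ℝ}
    (hu : 0 < u) (M : ℕ) {ν : ℕ} (hν : ν < 2 * T) :
    (D.P h 0).E (fun w => ind (STq h v δ kp ν w = ν) * ∑ r ∈ Ico ν (2 * T), ind (STq h v δ kp r w = ν ∧ ltq h v r w ∧
      Sq h v c r w ∧ Sq h v d r w ∧ HRq h v θ X1 p1 J0 c d ν w)) ≤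
      u / 2 * (D.P h 0).E (fun w => ind (STq h v δ kp ν w = ν) * gW h v c ν (sgm h v δ kp T ν w) w) +
      (D.P h 0).E (fun w => ind (STq h v δ kp ν w = ν) * ∑ us : Fin M → β, wt h v e c ν us w *
        (2 * u * PhV h v T θ X1 p1 J0 e c d ν u us (sgm h v δ kp T ν w) w +
          ind (0 < PhV h v T θ X1 p1 J0 e c d ν u us 0 w))) +
      (D.P h 0).E (fun w => ind (STq h v δ kp ν w = ν) * ∑ us : Fin M → β, wt h v e d ν us w *
        (2 * u * PhV h v T θ X1 p1 J0 e d c ν u us (sgm h v δ kp T ν w) w +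
          ind (0 < PhV h v T θ X1 p1 J0 e d c ν u us 0 w))) +
      6 / (u * (M + 1)) * (D.P h 0).Pr (fun w => STq h v δ kp ν w = ν) := by
  classical
  set P := D.P h 0 with hP
  set Z : Pt (Fin 3) X β φ → X × β × (List υ × (γ × (Fin 3 → γ))) := fun y => (y.1, y.2.1 e, NPr v D ν y) with hZ
  have hS : Fac Z (fun w => ind (STq h v δ kp ν w = ν)) := Fac.ind fun a b hab => by
    have h1 : NPr v D ν a = NPr v D ν b := congrArg Prod.snd (congrArg Prod.snd hab)
    rw [STq_fac ν a b h1]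
  have hce : ∀ (f : Pt (Fin 3) X β φ → ℝ) (w : Pt (Fin 3) X β φ), P.p w ≠ 0 → P.ce Z f w = (Wd h v e ν w).E f :=
    fun f w hw => P.ce_eq_cond Z f hw
  have key : ∀ f : Pt (Fin 3) X β φ → ℝ, P.E (fun w => ind (STq h v δ kp ν w = ν) * f w) =
      P.E (fun w => ind (STq h v δ kp ν w = ν) * (Wd h v e ν w).E f) := by
    intro f
    rw [← P.E_mul_ce hS f]
    refine P.E_congr fun w hw => ?_
    rw [hce f w hw]
  have h1 : P.E (fun w => ind (STq h v δ kp ν w = ν) * ∑ r ∈ Ico ν (2 * T), ind (STq h v δ kp r w = ν ∧ ltq h v r w ∧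
      Sq h v c r w ∧ Sq h v d r w ∧ HRq h v θ X1 p1 J0 c d ν w)) ≤
      P.E (fun w => ind (STq h v δ kp ν w = ν) *
        (ind (HRq h v θ X1 p1 J0 c d ν w) * gW h v c ν (sgm h v δ kp T ν w) w)) :=
    P.E_mono fun w _ => mul_le_mul_of_nonneg_left (light_le hν w) (ind_nonneg _)
  refine h1.trans ?_
  unfold FP.Pr
  rw [key (fun w => ind (HRq h v θ X1 p1 J0 c d ν w) * gW h v c ν (sgm h v δ kp T ν w) w),
    key (fun w => gW h v c ν (sgm h v δ kp T ν w) w),
    key (fun w => ∑ us : Fin M → β, wt h v e c ν us w *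
        (2 * u * PhV h v T θ X1 p1 J0 e c d ν u us (sgm h v δ kp T ν w) w +
          ind (0 < PhV h v T θ X1 p1 J0 e c d ν u us 0 w))),
    key (fun w => ∑ us : Fin M → β, wt h v e d ν us w *
        (2 * u * PhV h v T θ X1 p1 J0 e d c ν u us (sgm h v δ kp T ν w) w +
          ind (0 < PhV h v T θ X1 p1 J0 e d c ν u us 0 w))),
    ← P.E_smul, ← P.E_smul, ← P.E_add, ← P.E_add, ← P.E_add]
  refine P.E_mono fun w hw => ?_
  have h2 := epoch_world (h := h) hv H ht (θ := θ) (X1 := X1) (p1 := p1) (δ := δ) (kp := kp) hu M hν hw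
  have h3 := mul_le_mul_of_nonneg_left h2 (ind_nonneg (STq h v δ kp ν w = ν))
  refine h3.trans (le_of_eq ?_)
  ring

end Pool.Agent.GMH.TD
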