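import Pool.Agent.GMH.TD11
import Pool.Agent.GMH.TD10
import Pool.Agent.GMH.TD4

/-!
# GMH.TD11AX: thin dynamics, tools for the worlds (helper7)

* `world_avg` : mean over the worlds of the mean in the world;
* `same` : positions in one world: `Wd_same`, `Rel_same`, `PhV_in` (the potential in the world of `w`), `swap` (exchange of
  `c` and `d`).
-/

set_option autoImplicit false
set_option linter.unusedSectionVars false

namespace Pool.Agent.GMH.TD

open Finset Pool.Agent.PWZ Pool.Agent.M3 Pool.Agent.GM Pool.Agent.GM.Harm Pool.Agent.GMH Pool.Agent.GMH.NZ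
open Pool.Agent.GMH.V3 Pool.Agent.GMH.Gdy

namespace WX

variable {X β γ φ υ : Type} [Fintype X] [Fintype β] [Fintype φ] [Nonempty X] [Nonempty β]
variable {D : HD (Fin 3) X β γ φ} {al : ℝ} {h : D.Thick al} {v : ℕ → Finset (Fin 3) → X → (Fin 3 → β) → υ}

theorem Wd_same {e : Fin 3} {ν : ℕ} {w u : Pt (Fin 3) X β φ} (hu : (Wd h v e ν w).p u ≠ 0) :
    Wd h v e ν u = Wd h v e ν w := by
  obtain ⟨u1, u2, u3, _⟩ := Wd_supp hu
  unfold Wd
  rw [u1, u2, u3]

/-- mean over the worlds -/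
theorem world_E (e : Fin 3) (ν : ℕ) (f : Pt (Fin 3) X β φ → ℝ) :
    (D.P h 0).E (fun w => (Wd h v e ν w).E f) = (D.P h 0).E f := by
  rw [← (D.P h 0).E_ce (fun u : Pt (Fin 3) X β φ => (u.1, u.2.1 e, NPr v D ν u)) f]
  exact (D.P h 0).E_congr fun w hw => (FP.ce_eq_cond (D.P h 0) _ f hw).symm

/-- **mean over the worlds, the function may depend on the world** -/
theorem world_avg (e : Fin 3) (ν : ℕ) {F : Pt (Fin 3) X β φ → Pt (Fin 3) X β φ → ℝ}
    {f : Pt (Fin 3) X β φ → ℝ} (hF : ∀ w u, (D.P h 0).p w ≠ 0 → (Wd h v e ν w).p u ≠ 0 → F w u = f u) :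
    (D.P h 0).E (fun w => (Wd h v e ν w).E (F w)) = (D.P h 0).E f := by
  rw [← world_E (h := h) (v := v) e ν f]
  exact (D.P h 0).E_congr fun w hw => FP.E_congr _ fun u hu => hF w u hw hu

/-- the same with a weight of the public cell -/
theorem world_avg_mul (e : Fin 3) (ν : ℕ) {F : Pt (Fin 3) X β φ → Pt (Fin 3) X β φ → ℝ}
    {f W : Pt (Fin 3) X β φ → ℝ} (hW : Fac (NPr v D ν) W)
    (hF : ∀ w u, (D.P h 0).p w ≠ 0 → (Wd h v e ν w).p u ≠ 0 → F w u = f u) :
    (D.P h 0).E (fun w => W w * (Wd h v e ν w).E (F w)) = (D.P h 0).E (fun w => W w * f w) := by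
  rw [← world_avg (h := h) (v := v) e ν (F := fun w u => W w * F w u) (f := fun w => W w * f w) fun w u hw hu => ?_]
  · refine (D.P h 0).E_congr fun w _ => ?_
    rw [FP.E_smul]
  · rw [hF w u hw hu, hW w u (Wd_supp hu).2.2.1.symm]

/-- positions of `upd` -/
theorem upd_pos {J0 : Finset (Fin 3)} {e c d : Fin 3} (ht : Tri3 J0 e c d) {w u : Pt (Fin 3) X β φ}
    (h1 : u.1 = w.1) (h2 : u.2.1 e = w.2.1 e) (b b' : β) :
    ((upd c d u b b').1, (upd c d u b b').2.1) = ((upd c d w b b').1, (upd c d w b b').2.1) := by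
  refine Prod.ext h1 ?_
  funext j
  show Function.update (Function.update u.2.1 c b) d b' j = Function.update (Function.update w.2.1 c b) d b' j
  rcases ht.all j with rfl | rfl | rfl
  · rw [Function.update_of_ne ht.ed, Function.update_of_ne ht.ec, Function.update_of_ne ht.ed,
      Function.update_of_ne ht.ec, h2]
  · rw [Function.update_of_ne ht.cd, Function.update_self, Function.update_of_ne ht.cd, Function.update_self]
  · rw [Function.update_self, Function.update_self]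

/-- `upd` of a position of the world gives back the position -/
theorem upd_self {J0 : Finset (Fin 3)} {e c d : Fin 3} (ht : Tri3 J0 e c d) {w u : Pt (Fin 3) X β φ}
    (h1 : u.1 = w.1) (h2 : u.2.1 e = w.2.1 e) :
    ((upd c d w (u.2.1 c) (u.2.1 d)).1, (upd c d w (u.2.1 c) (u.2.1 d)).2.1) = (u.1, u.2.1) := by
  refine Prod.ext h1.symm ?_
  funext j
  show Function.update (Function.update w.2.1 c (u.2.1 c)) d (u.2.1 d) j = u.2.1 j
  rcases ht.all j with rfl | rfl | rfl
  · rw [Function.update_of_ne ht.ed, Function.update_of_ne ht.ec, h2]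
  · rw [Function.update_of_ne ht.cd, Function.update_self]
  · rw [Function.update_self]

/-- the relation is the same for all positions of the world -/
theorem Rel_same {θ X1 p1 : ℝ} {J0 : Finset (Fin 3)} {e c d : Fin 3} (ht : Tri3 J0 e c d) {ν : ℕ}
    {w u : Pt (Fin 3) X β φ} (hu : (Wd h v e ν w).p u ≠ 0) :
    Rel h v θ X1 p1 J0 c d ν u = Rel h v θ X1 p1 J0 c d ν w := by
  obtain ⟨u1, u2, u3, _⟩ := Wd_supp hu
  funext b b'
  have hp := upd_pos ht u1 u2 b b'
  unfold Rel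
  rw [NPr_pos (v := v) (D := D) ν _ _ hp, u3, propext (HRq_fac ht (NPr_pos ν _ _ hp) (LJ_pos _ ν _ _ hp))]

/-- the potential of a position, computed in the world of `w` -/
theorem PhV_in {T : ℕ} {θ X1 p1 : ℝ} {J0 : Finset (Fin 3)} {e c d : Fin 3} (ht : Tri3 J0 e c d) {ν : ℕ} {u : ℝ}
    {M : ℕ} (us : Fin M → β) (s : ℕ) {w x : Pt (Fin 3) X β φ} (hx : (Wd h v e ν w).p x ≠ 0) :
    Gdy.Phi (Wd h v e ν w) (cel D T d ν) u (Rws h v θ X1 p1 J0 c d ν us w) M s x =
      PhV h v T θ X1 p1 J0 e c d ν u us s x := by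
  unfold PhV Rws
  rw [Wd_same hx, Rel_same ht hx]

/-- exchange of `c` and `d` -/
theorem tri_swapX {J0 : Finset (Fin 3)} {e c d : Fin 3} (ht : Tri3 J0 e c d) :
    Tri3 J0 e d c := ⟨ht.ed, ht.ec, ht.cd.symm, ht.sub⟩

theorem HRq_swap {θ X1 p1 : ℝ} {J0 : Finset (Fin 3)} {c d : Fin 3} {ν : ℕ} {w : Pt (Fin 3) X β φ} :
    HRq h v θ X1 p1 J0 d c ν w ↔ HRq h v θ X1 p1 J0 c d ν w := by
  unfold HRq Gd
  tauto

theorem upd_swap {c d : Fin 3} (hcd : c ≠ d) (w : Pt (Fin 3) X β φ) (b b' : β) : upd d c w b' b = upd c d w b b' := by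
  unfold upd
  rw [Function.update_comm hcd]

theorem Rel_swap {θ X1 p1 : ℝ} {J0 : Finset (Fin 3)} {c d : Fin 3} (hcd : c ≠ d) {ν : ℕ} {w : Pt (Fin 3) X β φ} :
    (fun b a => Rel h v θ X1 p1 J0 c d ν w a b) = Rel h v θ X1 p1 J0 d c ν w := by
  funext b a
  unfold Rel
  rw [upd_swap hcd w a b, propext (HRq_swap (h := h) (v := v) (θ := θ) (X1 := X1) (p1 := p1) (J0 := J0) (c := c)
    (d := d) (ν := ν) (w := upd c d w a b))]

end WX

end Pool.Agent.GMH.TD
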