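import Pool.Agent.GMH.TDdef
import Pool.Agent.GMH.TD8
import Pool.Agent.GMH.TD4

/-!
# GMH.TD7A: thin dynamics, the density of an unmoved tuple (statement helper27, proof helper88)
-/

set_option autoImplicit false
set_option linter.unusedSectionVars false

namespace Pool.Agent.GMH.TD

open Finset Pool.Agent.PWZ Pool.Agent.M3 Pool.Agent.GM Pool.Agent.GM.Harm Pool.Agent.GMH Pool.Agent.GMH.NZ
open Pool.Agent.GMH.V3 Pool.Agent.GMH.Gdy

variable {X β γ φ υ : Type} [Fintype X] [Fintype β] [Fintype φ] [Nonempty X] [Nonempty β]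
variable {D : HD (Fin 3) X β γ φ} {al : ℝ} {h : D.Thick al} {v : ℕ → Finset (Fin 3) → X → (Fin 3 → β) → υ}

namespace D7

/-- log probability between two times -/
theorem lq_Ico {Om κ lam η : Type*} [Fintype Om] (P : FP Om) (N : ℕ → Om → κ) (L : ℕ → Om → lam) (Y : Om → η) {ν r : ℕ}
    (hν : ν ≤ r) (w : Om) : lq P N L Y r w - lq P N L Y ν w =
      ∑ j ∈ Ico ν r, ai P N L Y j w - ∑ j ∈ Ico ν r, bi P N L Y j w := by
  induction r, hν using Nat.le_induction with
  | base => simp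
  | succ r hr ih =>
    rw [Finset.sum_Ico_succ_top hr, Finset.sum_Ico_succ_top hr]
    unfold ai bi at ih ⊢
    linarith

/-- a ratio which deviates -/
theorem dev_exp {R R' x θ : ℝ} (hθ0 : 0 < θ) (hθ1 : θ ≤ 1) (hR : 0 ≤ R) (e : R' = R * Real.exp x) (hx : |x| ≤ θ / 8)
    (h : θ < |R - 1|) : θ / 2 < |R' - 1| := by
  obtain ⟨h1, h2⟩ := abs_le.1 hx
  rcases lt_abs.1 h with h3 | h3
  · have h4 := Real.add_one_le_exp x
    have h5 : (1 + θ) * (1 - θ / 8) ≤ R * Real.exp x :=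
      mul_le_mul (by linarith) (by linarith) (by linarith) hR
    refine lt_abs.2 (Or.inl ?_)
    rw [e]
    nlinarith
  · have h4 : Real.exp x ≤ 1 + θ / 4 := by
      have h5 : Real.exp x ≤ Real.exp (θ / 8) := Real.exp_le_exp.2 h2
      have h6 : Real.exp (θ / 8) ≤ 1 / (1 - θ / 8) := Real.exp_bound_div_one_sub_of_interval (by linarith) (by linarith)
      have h7 : 1 / (1 - θ / 8) ≤ 1 + θ / 4 := by
        rw [div_le_iff₀ (by linarith)]
        nlinarith
      linarith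
    have h5 : R * Real.exp x ≤ (1 - θ) * (1 + θ / 4) :=
      mul_le_mul (by linarith) h4 (Real.exp_pos _).le (by linarith)
    refine lt_abs.2 (Or.inr ?_)
    rw [e]
    nlinarith

end D7

open D7

/-- the density does not change much if nothing has moved -/
theorem dev_unmoved (hv : Codes D v) {J0 : Finset (Fin 3)} {e c d : Fin 3} (ht : Tri3 J0 e c d) {ν r : ℕ} (hν : ν ≤ r)
    {δ θ : ℝ} (hθ0 : 0 < θ) (hθ1 : θ ≤ 1) (hδ0 : 0 < δ) (hδ : 64 * δ ≤ θ) {w : Pt (Fin 3) X β φ}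
    (hw : (D.P h 0).p w ≠ 0) (hm : ¬ MAq h v δ ν r w) :
    (dvp h v θ J0 c d r w w → dvp h v (θ / 2) J0 c d ν w w) ∧ (dvp h v θ J0 c d ν w w → dvp h v (θ / 2) J0 c d r w w) ∧
      ∀ J, |lJq h v J r w - lJq h v J ν w| ≤ 2 * δ := by
  have key : ∀ J, |lJq h v J r w - lJq h v J ν w| ≤ 2 * δ := by
    intro J
    have h1 : ¬ Mv1 (D.P h 0) (NPr v D) (LJ v J) (PJ J) δ ν r w := fun hh => hm ⟨J, hh⟩
    unfold Mv1 at h1
    push Not at h1
    have e1 : lJq h v J r w - lJq h v J ν w = ∑ j ∈ Ico ν r, ai (D.P h 0) (NPr v D) (LJ v J) (PJ J) j w -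
        ∑ j ∈ Ico ν r, bi (D.P h 0) (NPr v D) (LJ v J) (PJ J) j w := lq_Ico _ _ _ _ hν w
    have h2 : 0 ≤ ∑ j ∈ Ico ν r, bi (D.P h 0) (NPr v D) (LJ v J) (PJ J) j w :=
      Finset.sum_nonneg fun j _ => bi_nonneg (D.P h 0) (LJ_step J) j hw
    obtain ⟨h3, h4⟩ := abs_lt.1 h1.1
    rw [e1, abs_le]
    constructor <;> linarith [h1.2]
  have hl : ∀ J, lJq h v J r w - lJq h v J ν w ≤ 2 * δ ∧ -(2 * δ) ≤ lJq h v J r w - lJq h v J ν w := fun J =>
    ⟨(abs_le.1 (key J)).2, (abs_le.1 (key J)).1⟩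
  have e1 := rdev_self (h := h) hv ht r hw
  have e2 := rdev_self (h := h) hv ht ν hw
  set A := lJq h v (insert c (insert d J0)) r w + lJq h v J0 r w - lJq h v (insert c J0) r w - lJq h v (insert d J0) r w
    with hA
  set B := lJq h v (insert c (insert d J0)) ν w + lJq h v J0 ν w - lJq h v (insert c J0) ν w - lJq h v (insert d J0) ν w
    with hB
  have hAB : |A - B| ≤ θ / 8 := by
    have k1 := hl (insert c (insert d J0))
    have k2 := hl J0
    have k3 := hl (insert c J0)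
    have k4 := hl (insert d J0)
    rw [abs_le]
    constructor <;> linarith [k1.1, k1.2, k2.1, k2.2, k3.1, k3.2, k4.1, k4.2]
  refine ⟨fun hd => ?_, fun hd => ?_, key⟩
  · unfold dvp at hd ⊢
    refine dev_exp hθ0 hθ1 (x := B - A) (R := rdev h v J0 c d r w w) ?_ ?_ ?_ hd
    · rw [e1]; exact (Real.exp_pos _).le
    · rw [e1, e2, ← Real.exp_add]; congr 1; ring
    · rw [abs_sub_comm]; exact hAB
  · unfold dvp at hd ⊢
    refine dev_exp hθ0 hθ1 (x := A - B) (R := rdev h v J0 c d ν w w) ?_ ?_ hAB hd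
    · rw [e2]; exact (Real.exp_pos _).le
    · rw [e1, e2, ← Real.exp_add]; congr 1; ring

end Pool.Agent.GMH.TD
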