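import Pool.Agent.GMH.TDdef
import Pool.Agent.GMH.TD8
import Pool.Agent.GMH.TD4
import Pool.Agent.GMH.TD7A

/-!
# GMH.TD7: thin dynamics, exceptional rows (helper27)

`row_exc`: if the row at `ν` has mass larger than `p1` at many points of `d`, then at the time `r` the letter of `d` has a law
under `QF (insert c J0)` and `QF J0` which is far from the law of the public cell, or many tuples have moved.
-/

set_option autoImplicit false
set_option linter.unusedSectionVars false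

namespace Pool.Agent.GMH.TD

open Finset Pool.Agent.PWZ Pool.Agent.M3 Pool.Agent.GM Pool.Agent.GM.Harm Pool.Agent.GMH Pool.Agent.GMH.NZ
open Pool.Agent.GMH.V3 Pool.Agent.GMH.Gdy

namespace RX

variable {Om : Type*} [Fintype Om] {κ : Type*}

/-- probability of an event as a sum over the values of a letter -/
theorem Pr_vals (P : FP Om) (L : Om → κ) (A : Om → Prop) : P.Pr A = ∑ μ ∈ vals L, P.Pr (fun u => A u ∧ L u = μ) := by
  classical
  unfold FP.Pr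
  rw [← P.E_sum]
  refine P.E_congr fun u _ => ?_
  have h1 : ∀ μ ∈ vals L, ind (A u ∧ L u = μ) = if μ = L u then ind (A u) else 0 := by
    intro μ _
    by_cases hμ : μ = L u
    · rw [if_pos hμ]
      exact congrArg ind (propext ⟨fun hh => hh.1, fun hh => ⟨hh, hμ.symm⟩⟩)
    · rw [if_neg hμ]
      exact ind_not fun hh => hμ hh.2.symm
  rw [sum_congr rfl h1, sum_ite_eq']
  have h2 : L u ∈ vals L := by
    unfold vals
    exact mem_image_of_mem _ (mem_univ u)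
  rw [if_pos h2]

theorem Pr_fac (P : FP Om) {L : Om → κ} {A : Om → Prop} (fA : Fac L A) (μ : κ) :
    P.Pr (fun u => A u ∧ L u = μ) = ind (∃ u, L u = μ ∧ A u) * lw P L μ := by
  unfold FP.Pr lw
  rw [← P.E_smul]
  refine P.E_congr fun u _ => ?_
  by_cases h1 : L u = μ
  · by_cases h2 : A u
    · rw [ind_of ⟨h2, h1⟩, ind_of ⟨u, h1, h2⟩, ind_of h1, one_mul]
    · rw [ind_not fun hh => h2 hh.1, ind_not, zero_mul]
      rintro ⟨u', h3, h4⟩
      exact h2 ((fA u' u (h3.trans h1.symm)) ▸ h4)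
  · rw [ind_not fun hh => h1 hh.2, ind_not h1, mul_zero]

theorem mono_on (P : FP Om) {ι : Type*} {Y : Om → ι} {f g : Om → ℝ} {w : Om}
    (hfg : ∀ u, P.p u ≠ 0 → Y u = Y w → f u ≤ g u) : P.ce Y f w ≤ P.ce Y g w := by
  unfold FP.ce
  refine div_le_div_of_nonneg_right (P.E_mono fun u hu => ?_) (P.m_nonneg _ _)
  by_cases hy : Y u = Y w
  · exact mul_le_mul_of_nonneg_left (hfg u hu hy) (ind_nonneg _)
  · rw [ind_not hy, zero_mul, zero_mul]

/-- difference of two probabilities of an event of a letter -/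
theorem Pr_le_tv (P Q : FP Om) {L : Om → κ} {A : Om → Prop} (fA : Fac L A) {ε : ℝ}
    (hT : ∑ μ ∈ vals L, |lw Q L μ - lw P L μ| ≤ ε) : Q.Pr A ≤ P.Pr A + ε := by
  rw [Pr_vals Q L A, Pr_vals P L A]
  have h1 : ∀ μ ∈ vals L, Q.Pr (fun u => A u ∧ L u = μ) ≤ P.Pr (fun u => A u ∧ L u = μ) + |lw Q L μ - lw P L μ| := by
    intro μ _
    rw [Pr_fac Q fA, Pr_fac P fA]
    have h2 := ind_nonneg (∃ u, L u = μ ∧ A u)
    have h3 := ind_le_one (∃ u, L u = μ ∧ A u)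
    have h4 := le_abs_self (lw Q L μ - lw P L μ)
    have h5 := abs_nonneg (lw Q L μ - lw P L μ)
    nlinarith
  have h2 := sum_le_sum h1
  rw [sum_add_distrib] at h2
  linarith

/-- three laws of a letter: an event which costs a deviation of the density or moved tuples -/
theorem rowabs {Qc Q1 Q0 : FP Om} {L : Om → κ} {θ ε ε3 : ℝ} (hθ0 : 0 < θ) (hθ1 : θ ≤ 1)
    (hT1 : ∑ μ ∈ vals L, |lw Q1 L μ - lw Qc L μ| ≤ ε) (hT0 : ∑ μ ∈ vals L, |lw Q0 L μ - lw Qc L μ| ≤ ε)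
    {Mv Av : Om → Prop} (fA : Fac L Av) (h3 : Q1.Pr Mv ≤ ε3)
    (hkey : ∀ u, Q1.p u ≠ 0 → ¬ Mv u → Av u → θ / 2 < |rt Q1 Q0 L (L u) - 1|) :
    Qc.Pr Av ≤ 12 / θ * ε + 2 * ε3 := by
  classical
  have hε : 0 ≤ ε := (sum_nonneg fun μ _ => abs_nonneg _).trans hT1
  have e1 : ∀ μ ∈ vals L, Qc.Pr (fun u => Av u ∧ L u = μ) ≤ 6 / θ * |lw Q1 L μ - lw Qc L μ| +
      6 / θ * |lw Q0 L μ - lw Qc L μ| + 2 * Q1.Pr (fun u => Mv u ∧ L u = μ) := by
    intro μ _
    rw [Pr_fac Qc fA]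
    have a1 := abs_nonneg (lw Q1 L μ - lw Qc L μ)
    have a0 := abs_nonneg (lw Q0 L μ - lw Qc L μ)
    have n1 := lw_nonneg Q1 L μ
    have n0 := lw_nonneg Q0 L μ
    have nc := lw_nonneg Qc L μ
    have pm := Q1.Pr_nonneg (fun u => Mv u ∧ L u = μ)
    have h6 : 2 ≤ 6 / θ := by rw [le_div_iff₀ hθ0]; linarith
    have h60 : 0 ≤ 6 / θ := by positivity
    have h4 : 0 < 4 / θ := by positivity
    have b1 : 2 * |lw Q1 L μ - lw Qc L μ| ≤ 6 / θ * |lw Q1 L μ - lw Qc L μ| := mul_le_mul_of_nonneg_right h6 a1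
    have b0 : 2 * |lw Q0 L μ - lw Qc L μ| ≤ 6 / θ * |lw Q0 L μ - lw Qc L μ| := mul_le_mul_of_nonneg_right h6 a0
    have c1 : 0 ≤ 6 / θ * |lw Q1 L μ - lw Qc L μ| := mul_nonneg h60 a1
    have c0 : 0 ≤ 6 / θ * |lw Q0 L μ - lw Qc L μ| := mul_nonneg h60 a0
    by_cases hA : ∃ u, L u = μ ∧ Av u
    · rw [ind_of hA, one_mul]
      by_cases g1 : lw Q1 L μ < lw Qc L μ / 2
      · have := neg_abs_le (lw Q1 L μ - lw Qc L μ)
        linarith
      by_cases g0 : lw Q0 L μ < lw Qc L μ / 2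
      · have := neg_abs_le (lw Q0 L μ - lw Qc L μ)
        linarith
      push Not at g1 g0
      rcases nc.eq_or_lt with hc | hc
      · linarith
      by_cases hM : ∃ u, Q1.p u ≠ 0 ∧ L u = μ ∧ ¬ Mv u
      · obtain ⟨u, hu, huL, huM⟩ := hM
        obtain ⟨u', hu'L, hu'A⟩ := hA
        have hAu : Av u := (fA u' u (hu'L.trans huL.symm)) ▸ hu'A
        have k1 := hkey u hu huM hAu
        rw [huL] at k1
        unfold rt at k1
        have q0 : 0 < lw Q0 L μ := by linarith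
        have k2 : |lw Q1 L μ - lw Q0 L μ| = lw Q0 L μ * |lw Q1 L μ / lw Q0 L μ - 1| := by
          rw [← abs_of_pos q0, ← abs_mul, abs_of_pos q0]
          congr 1
          field_simp
        have k3 : θ / 4 * lw Qc L μ ≤ |lw Q1 L μ - lw Q0 L μ| := by
          rw [k2]
          have : lw Q0 L μ * (θ / 2) ≤ lw Q0 L μ * |lw Q1 L μ / lw Q0 L μ - 1| := mul_le_mul_of_nonneg_left k1.le q0.le
          nlinarith
        have k4 : |lw Q1 L μ - lw Q0 L μ| ≤ |lw Q1 L μ - lw Qc L μ| + |lw Q0 L μ - lw Qc L μ| := by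
          have := abs_sub_le (lw Q1 L μ) (lw Qc L μ) (lw Q0 L μ)
          rw [abs_sub_comm (lw Qc L μ) (lw Q0 L μ)] at this
          exact this
        have k5 : lw Qc L μ ≤ 4 / θ * (|lw Q1 L μ - lw Qc L μ| + |lw Q0 L μ - lw Qc L μ|) := by
          have := mul_le_mul_of_nonneg_left (k3.trans k4) h4.le
          refine le_trans (le_of_eq ?_) this
          field_simp
        have k6 : 4 / θ * (|lw Q1 L μ - lw Qc L μ| + |lw Q0 L μ - lw Qc L μ|) ≤
            6 / θ * (|lw Q1 L μ - lw Qc L μ| + |lw Q0 L μ - lw Qc L μ|) := by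
          refine mul_le_mul_of_nonneg_right ?_ (add_nonneg a1 a0)
          exact div_le_div_of_nonneg_right (by norm_num) hθ0.le
        linarith
      · have k1 : lw Q1 L μ ≤ Q1.Pr (fun u => Mv u ∧ L u = μ) := by
          unfold lw
          refine Q1.E_mono fun u hu => ?_
          by_cases hL : L u = μ
          · have hMu : Mv u := by
              by_contra hh
              exact hM ⟨u, hu, hL, hh⟩
            rw [ind_of hL, ind_of ⟨hMu, hL⟩]
          · rw [ind_not hL]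
            exact ind_nonneg _
        linarith
    · rw [ind_not hA, zero_mul]
      linarith
  rw [Pr_vals Qc L Av]
  refine (sum_le_sum e1).trans ?_
  rw [sum_add_distrib, sum_add_distrib, ← mul_sum, ← mul_sum, ← mul_sum, ← Pr_vals Q1 L Mv]
  have h60 : 0 ≤ 6 / θ := by positivity
  have d1 := mul_le_mul_of_nonneg_left hT1 h60
  have d0 := mul_le_mul_of_nonneg_left hT0 h60
  have e : 12 / θ * ε = 6 / θ * ε + 6 / θ * ε := by ring
  linarith

end RX

open RX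

variable {X β γ φ υ : Type} [Fintype X] [Fintype β] [Fintype φ] [Nonempty X] [Nonempty β]
variable {D : HD (Fin 3) X β γ φ} {al : ℝ} {h : D.Thick al} {v : ℕ → Finset (Fin 3) → X → (Fin 3 → β) → υ}

namespace RX

theorem QF_supp {J : Finset (Fin 3)} {r : ℕ} {w u : Pt (Fin 3) X β φ} (hw : (D.P h 0).p w ≠ 0)
    (hu : (QF h v J r w).p u ≠ 0) : NPr v D r u = NPr v D r w ∧ LJ v J r u = LJ v J r w ∧ (D.P h 0).p u ≠ 0 := by
  have h0 : (D.P h 0).Pr (fun u => NPr v D r u = NPr v D r w ∧ LJ v J r u = LJ v J r w) ≠ 0 := by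
    have h1 : (D.P h 0).m (fun u => (NPr v D r u, LJ v J r u)) w ≤
        (D.P h 0).Pr (fun u => NPr v D r u = NPr v D r w ∧ LJ v J r u = LJ v J r w) := by
      refine (D.P h 0).E_mono fun u _ => ?_
      exact ind_mono fun hh => ⟨(Prod.mk.inj hh).1, (Prod.mk.inj hh).2⟩
    exact (lt_of_lt_of_le ((D.P h 0).m_pos _ hw) h1).ne'
  have h1 := cond_supp h0 hu
  exact ⟨h1.1.1, h1.1.2, h1.2⟩

theorem LJ1 {d : Fin 3} {r : ℕ} {a b : Pt (Fin 3) X β φ} (hab : XLr v r d a = XLr v r d b) : LJ v {d} r a = LJ v {d} r b :=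
  LJ_iff.2 fun j hj => by rw [mem_singleton.1 hj]; exact hab

theorem LJ1' {d : Fin 3} {r : ℕ} {a b : Pt (Fin 3) X β φ} (hab : LJ v {d} r a = LJ v {d} r b) : XLr v r d a = XLr v r d b :=
  LJ_iff.1 hab d (mem_singleton_self d)

theorem LJ_mon {J : Finset (Fin 3)} {ν r : ℕ} {a b : Pt (Fin 3) X β φ} (hab : LJ v J r a = LJ v J r b) (hν : ν ≤ r) :
    LJ v J ν a = LJ v J ν b := LJ_iff.2 fun j hj => XLr_older hν (LJ_iff.1 hab j hj)

theorem clq_Pr0 (r : ℕ) {w : Pt (Fin 3) X β φ} (hw : (D.P h 0).p w ≠ 0) (A : Pt (Fin 3) X β φ → Prop) :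
    (clq h v r w).Pr A = (D.P h 0).ce (NPr v D r) (fun u => ind (A u)) w :=
  ((D.P h 0).ce_eq_cond (NPr v D r) (fun u => ind (A u)) hw).symm

/-- the mass of the deviating letters at `z` -/
noncomputable def gg (h : D.Thick al) (v : ℕ → Finset (Fin 3) → X → (Fin 3 → β) → υ) (θ : ℝ) (J0 : Finset (Fin 3)) (c d : Fin 3)
    (ν : ℕ) (w0 z : Pt (Fin 3) X β φ) : ℝ :=
  (D.P h 0).ce (fun u => (u.2.1 d, NPr v D ν u)) (fun u => ind (dvp h v θ J0 c d ν w0 u)) z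

/-- at one point of `d` -/
theorem pt_ge {J0 : Finset (Fin 3)} {c d : Fin 3} {ν r : ℕ} (hν : ν ≤ r) {δ θ p1 : ℝ} (hp0 : 0 < p1) (hp1 : p1 ≤ 1)
    (hδ0 : 0 < δ) (hδ : δ ≤ 1 / 64) (hδp : 16 * δ ≤ p1) {w0 z : Pt (Fin 3) X β φ} (hz : (D.P h 0).p z ≠ 0)
    (hB : p1 < gg h v θ J0 c d ν w0 z) :
    7 / 8 * p1 ≤ (D.P h 0).ce (fun u => (u.2.1 d, NPr v D r u)) (fun u => ind (dvp h v θ J0 c d ν w0 u)) z +
      (D.P h 0).ce (fun u => (u.2.1 d, NPr v D r u)) (fun u => ind (MJq h v δ {d} ν r u)) z := by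
  have hl2 : δ < Real.log 2 := by
    have := Real.log_two_gt_d9
    linarith
  have fA : Fac (fun w : Pt (Fin 3) X β φ => (LJ v {d} ν w, NPr v D ν w)) (fun u => ¬ dvp h v θ J0 c d ν w0 u) := by
    intro a b hab
    have h1 := LJ1' (Prod.mk.inj hab).1
    have h2 : dvp h v θ J0 c d ν w0 a ↔ dvp h v θ J0 c d ν w0 b := dvp_eq rfl rfl h1
    exact propext (not_congr h2)
  have h1 := unm_le (P := D.P h 0) (N := NPr v D) (L := LJ v {d}) (Y := PJ {d}) NPr_step (LJ_step {d}) (LJ_PJ {d}) hl2 hν fA hz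
  have cv : ∀ (k : ℕ) (f : Pt (Fin 3) X β φ → ℝ), (D.P h 0).ce (fun u => (PJ {d} u, NPr v D k u)) f z =
      (D.P h 0).ce (fun u => (u.2.1 d, NPr v D k u)) f z := by
    intro k f
    refine (D.P h 0).ce_congr_map ?_ ?_ f z
    · intro a b hab
      have := PJ_iff.1 (Prod.mk.inj hab).1 d (mem_singleton_self d)
      exact Prod.ext this (Prod.mk.inj hab).2
    · intro a b hab
      refine Prod.ext (PJ_iff.2 fun j hj => ?_) (Prod.mk.inj hab).2
      rw [mem_singleton.1 hj]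
      exact (Prod.mk.inj hab).1
  rw [cv, cv] at h1
  have h2 : (D.P h 0).ce (fun u => (u.2.1 d, NPr v D ν u)) (fun u => ind (¬ dvp h v θ J0 c d ν w0 u)) z =
      1 - gg h v θ J0 c d ν w0 z := by
    unfold gg
    rw [← (D.P h 0).ce_const (fun u => (u.2.1 d, NPr v D ν u)) 1 hz, ← (D.P h 0).ce_sub]
    exact (D.P h 0).ce_congr (fun u _ => FP.ind_not_eq _) z
  rw [h2] at h1
  have h3 : (1 : ℝ) ≤ (D.P h 0).ce (fun u => (u.2.1 d, NPr v D r u))
        (fun u => ind (¬ Mv1 (D.P h 0) (NPr v D) (LJ v {d}) (PJ {d}) δ ν r u ∧ ¬ dvp h v θ J0 c d ν w0 u)) z +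
      ((D.P h 0).ce (fun u => (u.2.1 d, NPr v D r u)) (fun u => ind (dvp h v θ J0 c d ν w0 u)) z +
      (D.P h 0).ce (fun u => (u.2.1 d, NPr v D r u)) (fun u => ind (MJq h v δ {d} ν r u)) z) := by
    rw [← (D.P h 0).ce_add, ← (D.P h 0).ce_add, ← (D.P h 0).ce_const (fun u => (u.2.1 d, NPr v D r u)) 1 hz]
    refine (D.P h 0).ce_mono (fun u _ => ?_) z
    have e1 := ind_nonneg (¬ Mv1 (D.P h 0) (NPr v D) (LJ v {d}) (PJ {d}) δ ν r u ∧ ¬ dvp h v θ J0 c d ν w0 u)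
    have e2 := ind_nonneg (dvp h v θ J0 c d ν w0 u)
    have e3 := ind_nonneg (MJq h v δ {d} ν r u)
    by_cases a1 : MJq h v δ {d} ν r u
    · rw [ind_of a1]
      linarith
    · by_cases a2 : dvp h v θ J0 c d ν w0 u
      · rw [ind_of a2]
        linarith
      · rw [ind_of (⟨a1, a2⟩ : ¬ Mv1 (D.P h 0) (NPr v D) (LJ v {d}) (PJ {d}) δ ν r u ∧ ¬ dvp h v θ J0 c d ν w0 u)]
        linarith
  have h4 : Real.exp δ ≤ 1 + 2 * δ := by
    have := Real.abs_exp_sub_one_le (x := δ) (by rw [abs_of_pos hδ0]; linarith)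
    rw [abs_of_pos hδ0] at this
    linarith [le_abs_self (Real.exp δ - 1)]
  have h5 : Real.exp δ * (1 - gg h v θ J0 c d ν w0 z) ≤ 1 - 7 / 8 * p1 := by
    have g1 : 1 - gg h v θ J0 c d ν w0 z ≤ 1 - p1 := by linarith
    have g2 : Real.exp δ * (1 - gg h v θ J0 c d ν w0 z) ≤ Real.exp δ * (1 - p1) :=
      mul_le_mul_of_nonneg_left g1 (Real.exp_pos δ).le
    have g3 : Real.exp δ * (1 - p1) ≤ (1 + 2 * δ) * (1 - p1) := mul_le_mul_of_nonneg_right h4 (by linarith)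
    nlinarith
  linarith

end RX

theorem row_exc (_hv : Codes D v) {J0 : Finset (Fin 3)} {e c d : Fin 3} (ht : Tri3 J0 e c d) {ν r : ℕ} (hν : ν ≤ r)
    {δ θ p1 : ℝ} (hθ0 : 0 < θ) (hθ1 : θ ≤ 1) (hp0 : 0 < p1) (hp1 : p1 ≤ 1) (hδ0 : 0 < δ) (hδ : 64 * δ ≤ θ)
    (hδp : 16 * δ ≤ p1) {w0 : Pt (Fin 3) X β φ} (hw : (D.P h 0).p w0 ≠ 0) {ε ε3 ε4 : ℝ}
    (hT1 : ∑ μ ∈ vals (XLr (φ := φ) v r d),
      |lw (QF h v (insert c J0) r w0) (XLr v r d) μ - lw (clq h v r w0) (XLr v r d) μ| ≤ ε)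
    (hT0 : ∑ μ ∈ vals (XLr (φ := φ) v r d), |lw (QF h v J0 r w0) (XLr v r d) μ - lw (clq h v r w0) (XLr v r d) μ| ≤ ε)
    (h3 : (QF h v (insert c J0) r w0).Pr (MAq h v δ ν r) ≤ ε3) (h4 : (clq h v r w0).Pr (MJq h v δ {d} ν r) ≤ ε4) :
    (QF h v (insert c J0) r w0).Pr (fun u => p1 < rowm h v θ J0 c d ν u) ≤
      2 ^ 12 / (p1 * θ) * ε + 64 / p1 * ε3 + 64 / p1 * ε4 := by
  classical
  have hε : 0 ≤ ε := (sum_nonneg fun μ _ => abs_nonneg _).trans hT1
  have hε3 : 0 ≤ ε3 := (FP.Pr_nonneg _ _).trans h3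
  have hε4 : 0 ≤ ε4 := (FP.Pr_nonneg _ _).trans h4
  have hδ64 : δ ≤ 1 / 64 := by linarith
  -- the bad points
  set Bd : Pt (Fin 3) X β φ → Prop := fun u => ∃ z, (D.P h 0).p z ≠ 0 ∧ NPr v D r z = NPr v D r w0 ∧
    z.2.1 d = u.2.1 d ∧ p1 < gg h v θ J0 c d ν w0 z with hBd
  have fB : Fac (XLr v r d) Bd := by
    intro a b hab
    have h1 : a.2.1 d = b.2.1 d := congrArg Prod.fst hab
    rw [hBd]
    simp only [h1]
  have fg : ∀ z z' : Pt (Fin 3) X β φ, z.2.1 d = z'.2.1 d → NPr v D r z = NPr v D r z' →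
      gg h v θ J0 c d ν w0 z = gg h v θ J0 c d ν w0 z' := by
    intro z z' h1 h2
    exact (D.P h 0).ce_fac (fun u => (u.2.1 d, NPr v D ν u)) _ z z' (Prod.ext h1 (NPr_older hν h2))
  have hBg : ∀ u : Pt (Fin 3) X β φ, NPr v D r u = NPr v D r w0 → Bd u → p1 < gg h v θ J0 c d ν w0 u := by
    rintro u hu ⟨z, _, hz2, hz3, hz4⟩
    rw [fg u z hz3.symm (hu.trans hz2.symm)]
    exact hz4
  -- step 0: the event under `Q1` is `Bd`
  have s0 : (QF h v (insert c J0) r w0).Pr (fun u => p1 < rowm h v θ J0 c d ν u) ≤ (QF h v (insert c J0) r w0).Pr Bd := by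
    refine FP.Pr_mono _ fun u hu hh => ?_
    obtain ⟨q1, q2, q3⟩ := QF_supp hw hu
    refine ⟨u, q3, q1, rfl, ?_⟩
    have e1 : rowm h v θ J0 c d ν u = gg h v θ J0 c d ν w0 u := by
      unfold rowm gg
      refine (D.P h 0).ce_congr (fun y _ => ?_) u
      refine congrArg ind (propext ?_)
      exact dvp_eq (NPr_older hν q1) (LJ_mon q2 hν) rfl
    rw [← e1]
    exact hh
  have s1 := Pr_le_tv (clq h v r w0) (QF h v (insert c J0) r w0) fB hT1
  -- step 1: mean over the points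
  have s2 : 7 / 8 * p1 * (clq h v r w0).Pr Bd ≤ (clq h v r w0).Pr (dvp h v θ J0 c d ν w0) + ε4 := by
    have e1 : (clq h v r w0).Pr Bd = (D.P h 0).ce (NPr v D r) (fun u => ind (Bd u)) w0 := clq_Pr0 r hw Bd
    have e2 : (clq h v r w0).Pr (dvp h v θ J0 c d ν w0) =
        (D.P h 0).ce (NPr v D r) (fun u => ind (dvp h v θ J0 c d ν w0 u)) w0 := clq_Pr0 r hw _
    have e3 : (clq h v r w0).Pr (MJq h v δ {d} ν r) =
        (D.P h 0).ce (NPr v D r) (fun u => ind (MJq h v δ {d} ν r u)) w0 := clq_Pr0 r hw _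
    rw [e3] at h4
    rw [e1, e2]
    refine le_trans ?_ (add_le_add_right h4 _)
    have fY : Fac (fun u : Pt (Fin 3) X β φ => (u.2.1 d, NPr v D r u)) (NPr v D r) := fun a b hab => (Prod.mk.inj hab).2
    rw [← (D.P h 0).ce_tower fY (fun u => ind (dvp h v θ J0 c d ν w0 u)),
      ← (D.P h 0).ce_tower fY (fun u => ind (MJq h v δ {d} ν r u)), ← (D.P h 0).ce_add, ← (D.P h 0).ce_smul]
    refine mono_on (D.P h 0) fun z hz hN => ?_
    by_cases hb : Bd z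
    · rw [ind_of hb, mul_one]
      exact pt_ge hν hp0 hp1 hδ0 hδ64 hδp hz (hBg z hN hb)
    · rw [ind_not hb, mul_zero]
      exact add_nonneg ((D.P h 0).ce_nonneg (fun _ _ => ind_nonneg _) z) ((D.P h 0).ce_nonneg (fun _ _ => ind_nonneg _) z)
  -- step 2: the deviating letters
  have s3 : (clq h v r w0).Pr (dvp h v θ J0 c d ν w0) ≤ 12 / θ * ε + 2 * ε3 := by
    refine rowabs hθ0 hθ1 hT1 hT0 ?_ h3 ?_
    · intro a b hab
      exact propext (dvp_eq rfl rfl (XLr_older hν hab))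
    · intro u hu hM hA
      obtain ⟨q1, q2, q3⟩ := QF_supp hw hu
      have h5 : dvp h v θ J0 c d ν u u := by
        refine (dvp_eq (NPr_older hν q1) (LJ_mon q2 hν) rfl).2 hA
      have h6 := (dev_unmoved _hv ht hν hθ0 hθ1 hδ0 hδ q3 hM).2.1 h5
      have h7 : dvp h v (θ / 2) J0 c d r w0 u := (dvp_eq q1 q2 rfl).1 h6
      exact h7
  have hp : 0 < 7 / 8 * p1 := by positivity
  have s4 : (clq h v r w0).Pr Bd ≤ 8 / (7 * p1) * (12 / θ * ε + 2 * ε3 + ε4) := by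
    have e1 : 7 / 8 * p1 * (clq h v r w0).Pr Bd ≤ 12 / θ * ε + 2 * ε3 + ε4 := by linarith
    rw [show (8 : ℝ) / (7 * p1) = (7 / 8 * p1)⁻¹ by field_simp, inv_mul_eq_div, le_div_iff₀ hp, mul_comm]
    exact e1
  have s5 : 8 / (7 * p1) * (12 / θ * ε + 2 * ε3 + ε4) ≤ 96 / (7 * (p1 * θ)) * ε + 16 / p1 * ε3 + 16 / p1 * ε4 := by
    have a1 : 8 / (7 * p1) * (12 / θ * ε) = 96 / (7 * (p1 * θ)) * ε := by field_simp; ring
    have a2 : 8 / (7 * p1) * (2 * ε3) ≤ 16 / p1 * ε3 := by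
      rw [show 8 / (7 * p1) * (2 * ε3) = 16 / 7 / p1 * ε3 by field_simp; ring]
      exact mul_le_mul_of_nonneg_right (div_le_div_of_nonneg_right (by norm_num) hp0.le) hε3
    have a3 : 8 / (7 * p1) * ε4 ≤ 16 / p1 * ε4 := by
      rw [show 8 / (7 * p1) * ε4 = 8 / 7 / p1 * ε4 by field_simp]
      exact mul_le_mul_of_nonneg_right (div_le_div_of_nonneg_right (by norm_num) hp0.le) hε4
    rw [mul_add, mul_add, a1]
    linarith
  have s6 : ε ≤ 1 / (p1 * θ) * ε := by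
    have : 1 ≤ 1 / (p1 * θ) := by
      rw [le_div_iff₀ (by positivity)]
      nlinarith
    nlinarith
  have s7 : 96 / (7 * (p1 * θ)) * ε + 1 / (p1 * θ) * ε ≤ 2 ^ 12 / (p1 * θ) * ε := by
    rw [← add_mul]
    refine mul_le_mul_of_nonneg_right ?_ hε
    rw [show (96 : ℝ) / (7 * (p1 * θ)) + 1 / (p1 * θ) = (96 / 7 + 1) / (p1 * θ) by field_simp]
    exact div_le_div_of_nonneg_right (by norm_num) (by positivity)
  have s8 : 16 / p1 * ε3 ≤ 64 / p1 * ε3 :=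
    mul_le_mul_of_nonneg_right (div_le_div_of_nonneg_right (by norm_num) hp0.le) hε3
  have s9 : 16 / p1 * ε4 ≤ 64 / p1 * ε4 :=
    mul_le_mul_of_nonneg_right (div_le_div_of_nonneg_right (by norm_num) hp0.le) hε4
  linarith

end Pool.Agent.GMH.TD
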