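import Pool.Agent.GMH.TD11
import Pool.Agent.GMH.TD3
import Pool.Agent.GMH.TD7
import Pool.Agent.GMH.TD6

/-!
# GMH.TD11C: thin dynamics, exceptional rows (helper30, statements of helper27)

Odd `r`, `ν = STq r w`.  Given `LJ (insert c J0) r` and `NPr r` the point of `d` (so `rowm .. ν`, a function of `NPr ν`, the
letters of `J0`, `c` and the point of `d`) and `NPr (r + 1)` (so `Sq c r`, a function of `LJ {c} r` and `NPr (r + 1)`) are
independent.  `row_exc` with `ε` from `row_tv` (not tiny digit, else `Tny`; `lJq (insert c J0) ≤ lJq J0`), `ε4 = kp` from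
`stt_inv`, `ε3 = √kp` if `mvc ≤ √kp`.
-/

set_option autoImplicit false
set_option linter.unusedSectionVars false

namespace Pool.Agent.GMH.TD

open Finset Pool.Agent.PWZ Pool.Agent.M3 Pool.Agent.GM Pool.Agent.GM.Harm Pool.Agent.GMH Pool.Agent.GMH.NZ
open Pool.Agent.GMH.V3 Pool.Agent.GMH.Gdy

/-! ## independence -/

section ind

variable {X β γ φ υ : Type} [Fintype X] [Fintype β] [Fintype φ] [Nonempty X] [Nonempty β]
variable {D : HD (Fin 3) X β γ φ} {al : ℝ} {h : D.Thick al} {v : ℕ → Finset (Fin 3) → X → (Fin 3 → β) → υ}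

/-- hidden point and the points other than `d` -/
def oth (d : Fin 3) (u : Pt (Fin 3) X β φ) : X × ({j : Fin 3 // j ≠ d} → β) := (u.1, fun j => u.2.1 j.1)

theorem oth_iff {d : Fin 3} {a b : Pt (Fin 3) X β φ} : oth d a = oth d b ↔ a.1 = b.1 ∧ ∀ j, j ≠ d → a.2.1 j = b.2.1 j := by
  unfold oth
  rw [Prod.mk.injEq, funext_iff]
  exact and_congr_right fun _ => ⟨fun hh j hj => hh ⟨j, hj⟩, fun hh j => hh j.1 j.2⟩

/-- **in a public cell the point of `d` is independent of everything else** -/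
theorem Pc_ind (hv : Codes D v) (t : ℕ) {s n : ℕ} (hs : s ≤ n + 1) (c : Pt (Fin 3) X β φ) (d : Fin 3) :
    (Pc h v t s n c).Indep (oth d) (fun u => u.2.1 d) := by
  refine FP.indep_of_m _ fun w w' _ _ => ?_
  have key : ∀ (a b : Fin 3 → β → ℝ) (G : X → ℝ), (Pc h v t s n c).E (fun u => G u.1 * ∏ j, (a j (u.2.1 j) * b j (u.2.1 j))) =
      (muC D v s n c).E G * ∏ j, (nuC D n c j).E (fun x => a j x * b j x) := fun a b G =>
    Pc_E hv t hs c G (fun j x => a j x * b j x)
  set A : Fin 3 → β → ℝ := fun j x => if j = d then 1 else ind (x = w.2.1 j) with hA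
  set B : Fin 3 → β → ℝ := fun j x => if j = d then ind (x = w'.2.1 d) else 1 with hB
  have eA : ∀ u : Pt (Fin 3) X β φ, ind (oth d u = oth d w) = ind (u.1 = w.1) * ∏ j, A j (u.2.1 j) := by
    intro u
    rw [ind_cg (oth_iff (a := u) (b := w)), ind_and]
    congr 1
    by_cases hh : ∀ j, j ≠ d → u.2.1 j = w.2.1 j
    · rw [ind_of hh]
      refine (Finset.prod_eq_one fun j _ => ?_).symm
      by_cases hj : j = d
      · simp only [hA, if_pos hj]
      · simp only [hA, if_neg hj, ind_of (hh j hj)]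
    · rw [ind_not hh]
      push Not at hh
      obtain ⟨j, hj, hne⟩ := hh
      refine (Finset.prod_eq_zero (mem_univ j) ?_).symm
      simp only [hA, if_neg hj, ind_not hne]
  have eB : ∀ u : Pt (Fin 3) X β φ, ind (u.2.1 d = w'.2.1 d) = ∏ j, B j (u.2.1 j) := by
    intro u
    rw [Finset.prod_eq_single d (fun j _ hj => by simp only [hB, if_neg hj]) (fun hd => absurd (mem_univ d) hd)]
    simp only [hB, if_true]
  have k1 := key A B (fun x => ind (x = w.1))
  have k2 := key A (fun _ _ => 1) (fun x => ind (x = w.1))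
  have k3 := key (fun _ _ => 1) B (fun _ => 1)
  simp only [mul_one, one_mul] at k1 k2 k3
  have e1 : (Pc h v t s n c).E (fun u => ind (oth d u = oth d w) * ind (u.2.1 d = w'.2.1 d)) =
      (muC D v s n c).E (fun x => ind (x = w.1)) * ∏ j, (nuC D n c j).E (fun x => A j x * B j x) := by
    rw [← k1]
    refine FP.E_congr _ fun u _ => ?_
    rw [eA, eB, Finset.prod_mul_distrib]
    ring
  have e2 : (Pc h v t s n c).m (oth d) w = (muC D v s n c).E (fun x => ind (x = w.1)) * ∏ j, (nuC D n c j).E (A j) := by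
    rw [← k2]
    exact FP.E_congr _ fun u _ => eA u
  have e3 : (Pc h v t s n c).m (fun u => u.2.1 d) w' = ∏ j, (nuC D n c j).E (B j) := by
    have k3' := k3
    rw [FP.E_const, one_mul] at k3'
    rw [← k3']
    exact FP.E_congr _ fun u _ => eB u
  show (Pc h v t s n c).E (fun u => ind (oth d u = oth d w) * ind (u.2.1 d = w'.2.1 d)) =
    (Pc h v t s n c).m (oth d) w * (Pc h v t s n c).m (fun u => u.2.1 d) w'
  rw [e1, e2, e3, mul_assoc, ← Finset.prod_mul_distrib]
  congr 1
  refine Finset.prod_congr rfl fun j _ => ?_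
  by_cases hj : j = d
  · simp only [hA, hB, if_pos hj, one_mul]
    rw [FP.E_const, one_mul]
  · simp only [hA, hB, if_neg hj, mul_one]
    rw [FP.E_const, mul_one]

theorem Pcl_eq (r : ℕ) (w : Pt (Fin 3) X β φ) :
    clq h v r w = (D.P h 0).cond fun u => NPr v D r u = NPr v D r w := rfl

/-- moving the point of `d` in its cell: codes -/
theorem Um_up1 (hv : Codes D v) {s n : ℕ} (hs : s ≤ n + 1) {d : Fin 3} {u : Pt (Fin 3) X β φ} {b : β}
    (hb : D.qb n b = D.qb n (u.2.1 d)) {I : Finset (Fin 3)} (hd : d ∉ I) :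
    Um v s I (up1 d u b).1 (up1 d u b).2.1 = Um v s I u.1 u.2.1 := by
  refine Um_codes hv hs I u.1 (fun j hj => ?_) fun j => ?_
  · show Function.update u.2.1 d b j = u.2.1 j
    rw [Function.update_of_ne fun hh : j = d => hd (hh ▸ hj)]
  · show D.qb n (Function.update u.2.1 d b j) = D.qb n (u.2.1 j)
    by_cases hj : j = d
    · rw [hj, Function.update_self]
      exact hb
    · rw [Function.update_of_ne hj]

theorem nd_up1 {n : ℕ} {d : Fin 3} {u : Pt (Fin 3) X β φ} {b : β} (hb : D.qb n b = D.qb n (u.2.1 d)) :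
    nd D n (up1 d u b) = nd D n u := by
  refine Prod.ext rfl (funext fun j => ?_)
  show D.qb n (Function.update u.2.1 d b j) = D.qb n (u.2.1 j)
  by_cases hj : j = d
  · rw [hj, Function.update_self]
    exact hb
  · rw [Function.update_of_ne hj]

theorem NPr_up1 (hv : Codes D v) {r : ℕ} {d : Fin 3} {u : Pt (Fin 3) X β φ} {b : β}
    (hb : D.qb (nt r) b = D.qb (nt r) (u.2.1 d)) : NPr v D r (up1 d u b) = NPr v D r u :=
  Prod.ext (Um_up1 hv (Nat.succ_le_succ (tm_nt r)) hb (Finset.notMem_empty d)) (nd_up1 hb)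

theorem NPr_up1' (hv : Codes D v) {r : ℕ} (hr : r % 2 = 1) {d : Fin 3} {u : Pt (Fin 3) X β φ} {b : β}
    (hb : D.qb (nt r) b = D.qb (nt r) (u.2.1 d)) : NPr v D (r + 1) (up1 d u b) = NPr v D (r + 1) u := by
  have e3 : nt (r + 1) = nt r := by unfold nt; omega
  exact NPr_up1 hv (by rw [e3]; exact hb)

theorem LJ_up1 (hv : Codes D v) {r : ℕ} {d : Fin 3} {u : Pt (Fin 3) X β φ} {b : β}
    (hb : D.qb (nt r) b = D.qb (nt r) (u.2.1 d)) {J : Finset (Fin 3)} (hd : d ∉ J) :
    LJ v J r (up1 d u b) = LJ v J r u := by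
  refine LJ_iff.2 fun j hj => Prod.ext ?_ ?_
  · show Function.update u.2.1 d b j = u.2.1 j
    rw [Function.update_of_ne fun hh : j = d => hd (hh ▸ hj)]
  · exact Um_up1 hv (Nat.succ_le_succ (tm_nt r)) hb (I := {j}) fun hh => hd (Finset.mem_singleton.1 hh ▸ hj)

/-- a function of the positions with the point of `d` replaced is a function of the other points -/
theorem oth_up1 {d : Fin 3} {b : β} {κ : Type*} {f : Pt (Fin 3) X β φ → κ}
    (hf : Fac (fun w : Pt (Fin 3) X β φ => (w.1, w.2.1)) f) : Fac (oth d) fun u : Pt (Fin 3) X β φ => f (up1 d u b) := by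
  intro x y hxy
  obtain ⟨h1, h2⟩ := oth_iff.1 hxy
  refine hf _ _ (Prod.ext h1 (funext fun j => ?_))
  show Function.update x.2.1 d b j = Function.update y.2.1 d b j
  by_cases hj : j = d
  · rw [hj, Function.update_self, Function.update_self]
  · rw [Function.update_of_ne hj, Function.update_of_ne hj, h2 j hj]

/-- in the cell of `w` : the point of `d` of `w` is in the cell of the point of `d` of `u` -/
theorem qb_cell {r : ℕ} {u w : Pt (Fin 3) X β φ} (hN : NPr v D r u = NPr v D r w) (d : Fin 3) :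
    D.qb (nt r) (u.2.1 d) = D.qb (nt r) (w.2.1 d) := congrFun (congrArg Prod.snd (congrArg Prod.snd hN)) d

/-- **the letters of `J` and the next public value on one side, the point of `d` on the other** -/
theorem CI_code (hv : Codes D v) {r : ℕ} (hr : r % 2 = 1) {J : Finset (Fin 3)} {d : Fin 3} (hd : d ∉ J) :
    (D.P h 0).CI (fun u => (LJ v J r u, NPr v D r u)) (fun u => (LJ v J r u, NPr v D (r + 1) u))
      (fun u => ((LJ v J r u, NPr v D r u), u.2.1 d)) := by
  intro f g hf hg w hw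
  have hs : tm r + 1 ≤ nt r + 1 := Nat.succ_le_succ (tm_nt r)
  have hm := (D.P h 0).m_pos (NPr v D r) hw
  have hm' := (D.P h 0).m_pos (fun u => (LJ v J r u, NPr v D r u)) hw
  set Q := clq h v r w with hQ
  have hI : Q.Indep (oth d) (fun u => u.2.1 d) := Pc_ind hv 0 hs w d
  have hsupp : ∀ u, Q.p u ≠ 0 → NPr v D r u = NPr v D r w := fun u hu => ((FP.cond_p_ne hm.ne').1 hu).1
  -- the mean given the letters as a mean in the public cell
  have hE : ∀ k : Pt (Fin 3) X β φ → ℝ, (D.P h 0).ce (fun u => (LJ v J r u, NPr v D r u)) k w =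
      Q.E (fun u => ind (LJ v J r u = LJ v J r w) * k u) / Q.E (fun u => ind (LJ v J r u = LJ v J r w)) := by
    intro k
    have e : ∀ k : Pt (Fin 3) X β φ → ℝ, (D.P h 0).E (fun u => ind ((LJ v J r u, NPr v D r u) = (LJ v J r w, NPr v D r w)) *
        k u) = (D.P h 0).m (NPr v D r) w * Q.E (fun u => ind (LJ v J r u = LJ v J r w) * k u) := by
      intro k
      have h1 := FP.Pr_mul_cond_E (P := D.P h 0) (V := fun u => NPr v D r u = NPr v D r w) hm.ne'
        (fun u => ind (LJ v J r u = LJ v J r w) * k u)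
      refine Eq.trans ?_ h1.symm
      refine (D.P h 0).E_congr fun u _ => ?_
      rw [← mul_assoc, ← ind_and]
      congr 1
      refine ind_cg ⟨fun hh => ⟨(Prod.mk.inj hh).2, (Prod.mk.inj hh).1⟩, fun hh => Prod.ext hh.2 hh.1⟩
    have e1 := e k
    have e0 := e fun _ => 1
    simp only [mul_one] at e0
    have e0' : (D.P h 0).m (fun u => (LJ v J r u, NPr v D r u)) w = (D.P h 0).m (NPr v D r) w *
        Q.E (fun u => ind (LJ v J r u = LJ v J r w)) := e0
    show (D.P h 0).E (fun u => ind ((LJ v J r u, NPr v D r u) = (LJ v J r w, NPr v D r w)) * k u) /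
      (D.P h 0).m (fun u => (LJ v J r u, NPr v D r u)) w = _
    rw [e1, e0', mul_div_mul_left _ _ hm.ne']
  -- the functions of the other points
  set b := w.2.1 d with hb
  have hbc : ∀ u, Q.p u ≠ 0 → D.qb (nt r) b = D.qb (nt r) (u.2.1 d) := fun u hu => (qb_cell (hsupp u hu) d).symm
  set a' : Pt (Fin 3) X β φ → ℝ := fun u => ind (LJ v J r (up1 d u b) = LJ v J r w) with ha'
  set f' : Pt (Fin 3) X β φ → ℝ := fun u => f (up1 d u b) with hf'
  set g' : Pt (Fin 3) X β φ → ℝ := fun u => g (up1 d w (u.2.1 d)) with hg'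
  have fa : Fac (oth d) a' := oth_up1 (d := d) (b := b) (f := fun u => ind (LJ v J r u = LJ v J r w))
    fun x y hxy => by
      show ind (LJ v J r x = LJ v J r w) = ind (LJ v J r y = LJ v J r w)
      rw [LJ_pos J r x y hxy]
  have ff : Fac (oth d) f' := oth_up1 (d := d) (b := b) (f := f) fun x y hxy =>
    hf x y (Prod.ext (LJ_pos J r x y hxy) (NPr_pos (r + 1) x y hxy))
  have fg : Fac (fun u : Pt (Fin 3) X β φ => u.2.1 d) g' := by
    intro x y hxy
    have h1 : x.2.1 d = y.2.1 d := hxy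
    show g (up1 d w (x.2.1 d)) = g (up1 d w (y.2.1 d))
    rw [h1]
  have ea : ∀ u, Q.p u ≠ 0 → ind (LJ v J r u = LJ v J r w) = a' u := by
    intro u hu
    show ind (LJ v J r u = LJ v J r w) = ind (LJ v J r (up1 d u b) = LJ v J r w)
    rw [LJ_up1 hv (hbc u hu) hd]
  have ef : ∀ u, Q.p u ≠ 0 → f u = f' u := by
    intro u hu
    refine hf u (up1 d u b) (Prod.ext (LJ_up1 hv (hbc u hu) hd).symm (NPr_up1' hv hr (hbc u hu)).symm)
  have eg : ∀ u, Q.p u ≠ 0 → LJ v J r u = LJ v J r w → g u = g' u := by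
    intro u hu hL
    have hc : D.qb (nt r) (u.2.1 d) = D.qb (nt r) (w.2.1 d) := (hbc u hu).symm
    refine hg u (up1 d w (u.2.1 d)) ?_
    refine Prod.ext (Prod.ext ?_ ?_) ?_
    · show LJ v J r u = LJ v J r (up1 d w (u.2.1 d))
      rw [LJ_up1 hv hc hd, hL]
    · show NPr v D r u = NPr v D r (up1 d w (u.2.1 d))
      rw [NPr_up1 hv hc, hsupp u hu]
    · show u.2.1 d = Function.update w.2.1 d (u.2.1 d) d
      rw [Function.update_self]
  have m1 : Q.E (fun u => ind (LJ v J r u = LJ v J r w) * (f u * g u)) = Q.E (fun u => a' u * f' u) * Q.E g' := by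
    rw [← hI (fun u => a' u * f' u) g' (fa.mul ff) fg]
    refine FP.E_congr _ fun u hu => ?_
    by_cases hL : LJ v J r u = LJ v J r w
    · rw [ea u hu, ef u hu, eg u hu hL]; ring
    · rw [← ea u hu, ind_not hL]; ring
  have m2 : Q.E (fun u => ind (LJ v J r u = LJ v J r w) * f u) = Q.E (fun u => a' u * f' u) :=
    FP.E_congr _ fun u hu => by rw [ea u hu, ef u hu]
  have m3 : Q.E (fun u => ind (LJ v J r u = LJ v J r w) * g u) = Q.E a' * Q.E g' := by
    rw [← hI a' g' fa fg]
    refine FP.E_congr _ fun u hu => ?_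
    by_cases hL : LJ v J r u = LJ v J r w
    · rw [ea u hu, eg u hu hL]
    · rw [← ea u hu, ind_not hL]; ring
  have m4 : Q.E (fun u => ind (LJ v J r u = LJ v J r w)) = Q.E a' := FP.E_congr _ fun u hu => ea u hu
  have hpos : Q.E a' ≠ 0 := by
    rw [← m4]
    have hw' : Q.p w ≠ 0 := (FP.cond_p_ne hm.ne').2 ⟨rfl, hw⟩
    exact (FP.Pr_pos_of (P := Q) (S := fun u => LJ v J r u = LJ v J r w) hw' rfl).ne'
  rw [hE, hE, hE, m1, m2, m3, m4]
  field_simp

/-- more letters have a smaller probability given their points -/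
theorem lJq_mono (hv : Codes D v) {r : ℕ} {J : Finset (Fin 3)} {c : Fin 3} (hc : c ∉ J) {w : Pt (Fin 3) X β φ}
    (hw : (D.P h 0).p w ≠ 0) : lJq h v (insert c J) r w ≤ lJq h v J r w := by
  have hs : tm r + 1 ≤ nt r + 1 := Nat.succ_le_succ (tm_nt r)
  have hm := (D.P h 0).m_pos (NPr v D r) hw
  set Q := clq h v r w with hQ
  have hI : Q.Indep (oth c) (fun u => u.2.1 c) := Pc_ind hv 0 hs w c
  have hsupp : ∀ u, Q.p u ≠ 0 → NPr v D r u = NPr v D r w := fun u hu => ((FP.cond_p_ne hm.ne').1 hu).1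
  have a1 := (D.P h 0).m_pos (fun u => (LJ v (insert c J) r u, NPr v D r u)) hw
  have a2 := (D.P h 0).m_pos (fun u => (LJ v J r u, NPr v D r u)) hw
  have b1 := (D.P h 0).m_pos (fun u => (PJ (insert c J) u, NPr v D r u)) hw
  have b2 := (D.P h 0).m_pos (fun u => (PJ J u, NPr v D r u)) hw
  -- masses in the cell
  have cell : ∀ (E : Pt (Fin 3) X β φ → Prop), (D.P h 0).E (fun u => ind (NPr v D r u = NPr v D r w ∧ E u)) =
      (D.P h 0).m (NPr v D r) w * Q.Pr E := by
    intro E
    have h1 := FP.Pr_mul_cond_E (P := D.P h 0) (V := fun u => NPr v D r u = NPr v D r w) hm.ne' (fun u => ind (E u))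
    refine Eq.trans ?_ h1.symm
    exact (D.P h 0).E_congr fun u _ => ind_and _ _
  have c1 : (D.P h 0).m (fun u => (LJ v (insert c J) r u, NPr v D r u)) w ≤
      (D.P h 0).m (NPr v D r) w * (Q.Pr (fun u => LJ v J r u = LJ v J r w) * mC D (nt r) w c (w.2.1 c)) := by
    have h1 : Q.Pr (fun u => LJ v J r u = LJ v J r w ∧ u.2.1 c = w.2.1 c) =
        Q.Pr (fun u => LJ v J r u = LJ v J r w) * mC D (nt r) w c (w.2.1 c) := by
      set b := w.2.1 c with hb
      have hbc : ∀ u, Q.p u ≠ 0 → D.qb (nt r) b = D.qb (nt r) (u.2.1 c) := fun u hu => (qb_cell (hsupp u hu) c).symm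
      have fa : Fac (oth c) (fun u : Pt (Fin 3) X β φ => ind (LJ v J r (up1 c u b) = LJ v J r w)) :=
        oth_up1 (d := c) (b := b) (f := fun u => ind (LJ v J r u = LJ v J r w)) fun x y hxy => by
          show ind (LJ v J r x = LJ v J r w) = ind (LJ v J r y = LJ v J r w)
          rw [LJ_pos J r x y hxy]
      have fg : Fac (fun u : Pt (Fin 3) X β φ => u.2.1 c) (fun u : Pt (Fin 3) X β φ => ind (u.2.1 c = b)) := by
        intro x y hxy
        have h1 : x.2.1 c = y.2.1 c := hxy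
        show ind (x.2.1 c = b) = ind (y.2.1 c = b)
        rw [h1]
      have h2 := hI _ _ fa fg
      have e1 : Q.E (fun u => ind (u.2.1 c = b)) = mC D (nt r) w c b := by
        have h3 := Pc_E (h := h) hv 0 hs w (fun _ => 1) (fun j x => if j = c then ind (x = b) else 1)
        simp only [FP.E_const, one_mul] at h3
        have e2 : ∀ j, (nuC D (nt r) w j).E (fun x => if j = c then ind (x = b) else 1) =
            if j = c then mC D (nt r) w c b else 1 := by
          intro j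
          by_cases hj : j = c
          · subst hj
            simp only [if_true]
            rfl
          · simp only [if_neg hj]
            exact FP.E_const _ _
        rw [Finset.prod_congr rfl fun j _ => e2 j, Finset.prod_ite_eq' univ c, if_pos (mem_univ c)] at h3
        rw [← h3]
        refine FP.E_congr _ fun u _ => ?_
        rw [Finset.prod_ite_eq' univ c (fun j => ind (u.2.1 j = b)), if_pos (mem_univ c)]
      rw [e1] at h2
      have e3 : Q.E (fun u => ind (LJ v J r (up1 c u b) = LJ v J r w)) = Q.Pr (fun u => LJ v J r u = LJ v J r w) :=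
        FP.E_congr _ fun u hu => by rw [LJ_up1 hv (hbc u hu) hc]
      rw [e3] at h2
      rw [← h2]
      refine FP.E_congr _ fun u hu => ?_
      rw [ind_and, LJ_up1 hv (hbc u hu) hc]
    rw [← h1, ← cell]
    refine (D.P h 0).E_mono fun u _ => ind_mono fun hh => ?_
    have hL := (Prod.mk.inj hh).1
    exact ⟨(Prod.mk.inj hh).2, LJ_sub (Finset.subset_insert c J) r u w hL,
      congrArg Prod.fst (LJ_iff.1 hL c (Finset.mem_insert_self c J))⟩
  have c2 : (D.P h 0).m (fun u => (LJ v J r u, NPr v D r u)) w =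
      (D.P h 0).m (NPr v D r) w * Q.Pr (fun u => LJ v J r u = LJ v J r w) := by
    rw [← cell]
    refine (D.P h 0).E_congr fun u _ => ind_cg ⟨fun hh => ⟨(Prod.mk.inj hh).2, (Prod.mk.inj hh).1⟩,
      fun hh => Prod.ext hh.2 hh.1⟩
  have c3 : (D.P h 0).m (fun u => (PJ (insert c J) u, NPr v D r u)) w =
      (D.P h 0).m (fun u => (PJ J u, NPr v D r u)) w * mC D (nt r) w c (w.2.1 c) := by
    have h1 : (D.P h 0).m (fun u => (PJ (insert c J) u, NPr v D r u)) w =
        (D.P h 0).m (NPr v D r) w * ∏ j ∈ insert c J, mC D (nt r) w j (w.2.1 j) := m_PJ hv 0 hs (insert c J) w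
    have h2 : (D.P h 0).m (fun u => (PJ J u, NPr v D r u)) w =
        (D.P h 0).m (NPr v D r) w * ∏ j ∈ J, mC D (nt r) w j (w.2.1 j) := m_PJ hv 0 hs J w
    rw [h1, h2, Finset.prod_insert hc]
    ring
  have hmc := mC_pos (D := D) (nt r) w c
  unfold lJq lq
  refine Real.log_le_log (div_pos a1 b1) ?_
  rw [c3, div_le_div_iff₀ (mul_pos b2 hmc) b2]
  calc _ ≤ ((D.P h 0).m (NPr v D r) w * (Q.Pr (fun u => LJ v J r u = LJ v J r w) * mC D (nt r) w c (w.2.1 c))) *
        (D.P h 0).m (fun u => (PJ J u, NPr v D r u)) w := mul_le_mul_of_nonneg_right c1 b2.le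
    _ = _ := by rw [c2]; ring

end ind

/-! ## the sum -/

variable {X β γ φ : Type} [Fintype X] [Fintype β] [Fintype φ] [Nonempty X] [Nonempty β]
variable {D : HD (Fin 3) X β γ φ} {al : ℝ} {h : D.Thick al} {v : ℕ → Finset (Fin 3) → X → (Fin 3 → β) → Pt (Fin 3) X β φ}
  {N : Finset (Fin 3) → ℝ} {S : Finset (Finset (Fin 3))} {N1 : ℝ}

/-- a strong letter at a code step: light value -/
theorem Sq_lit (hv : Codes D v) {r : ℕ} (hr : r % 2 = 1) {i : Fin 3} {w : Pt (Fin 3) X β φ} (hw : (D.P h 0).p w ≠ 0)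
    (hS : Sq h v i r w) : ltq h v r w := by
  refine ⟨hr, ?_⟩
  have k := prod_code (h := h) hv hr {i} hw
  have a1 := (D.P h 0).m_pos (fun x => (LJ v {i} r x, NPr v D (r + 1) x)) hw
  have a2 := (D.P h 0).m_pos (fun x => (LJ v {i} r x, NPr v D r x)) hw
  have b1 := (D.P h 0).m_pos (fun x => (PJ {i} x, NPr v D (r + 1) x)) hw
  have b2 := (D.P h 0).m_pos (fun x => (PJ {i} x, NPr v D r x)) hw
  have c1 := (D.P h 0).m_pos (NPr v D (r + 1)) hw
  have c2 := (D.P h 0).m_pos (NPr v D r) hw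
  have hle : (D.P h 0).m (fun x => (LJ v {i} r x, NPr v D (r + 1) x)) w ≤
      (D.P h 0).m (fun x => (LJ v {i} r x, NPr v D r x)) w := by
    refine (D.P h 0).m_anti (fun a b hab => ?_) w
    exact Prod.ext (Prod.mk.inj hab).1 (NPr_step r a b (Prod.mk.inj hab).2)
  have hS' : 2 ≤ Real.log ((D.P h 0).m (fun x => (LJ v {i} r x, NPr v D (r + 1) x)) w /
      (D.P h 0).m (fun x => (PJ {i} x, NPr v D (r + 1) x)) w) -
      Real.log ((D.P h 0).m (fun x => (LJ v {i} r x, NPr v D r x)) w / (D.P h 0).m (fun x => (PJ {i} x, NPr v D r x)) w) := hS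
  show 2 * (D.P h 0).m (NPr v D (r + 1)) w < (D.P h 0).m (NPr v D r) w
  generalize (D.P h 0).m (fun x => (LJ v {i} r x, NPr v D (r + 1) x)) w = x1 at *
  generalize (D.P h 0).m (fun x => (LJ v {i} r x, NPr v D r x)) w = x2 at *
  generalize (D.P h 0).m (fun x => (PJ {i} x, NPr v D (r + 1) x)) w = y1 at *
  generalize (D.P h 0).m (fun x => (PJ {i} x, NPr v D r x)) w = y2 at *
  generalize (D.P h 0).m (NPr v D (r + 1)) w = z1 at *
  generalize (D.P h 0).m (NPr v D r) w = z2 at *
  rw [← Real.log_div (div_pos a1 b1).ne' (div_pos a2 b2).ne',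
    Real.le_log_iff_exp_le (div_pos (div_pos a1 b1) (div_pos a2 b2))] at hS'
  have e1 : x1 / y1 / (x2 / y2) = (x1 / x2) * (z2 / z1) := by
    field_simp
    linear_combination (-1 : ℝ) * k
  have h2 : x1 / x2 ≤ 1 := div_le_one_of_le₀ hle a2.le
  have h3 : x1 / x2 * (z2 / z1) ≤ z2 / z1 := mul_le_of_le_one_left (div_nonneg c2.le c1.le) h2
  have h4 : (2 : ℝ) < Real.exp 2 := by
    have := Real.add_one_le_exp (2 : ℝ)
    linarith
  have h5 : 2 < z2 / z1 := by
    rw [e1] at hS'
    linarith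
  rwa [lt_div_iff₀ c1] at h5

theorem rows_le (R : Run h N S (AdmDep D) v) (hp : Prc N S N1) {dg : ℕ → X → ℝ} {prr : ℕ → Fin 3 → φ → φ} {T : ℕ}
    {Lam : ℝ} (H : D.Hyp dg prr al T Lam) {J0 : Finset (Fin 3)} {e c d : Fin 3} (ht : Tri3 J0 e c d)
    {θ X1 p1 dl δ kp : ℝ} (hX1 : 0 ≤ X1) (hθ0 : 0 < θ) (hθ1 : θ ≤ 1) (hp0 : 0 < p1) (hp1 : p1 ≤ 1) (hδ0 : 0 < δ)
    (hδ : 64 * δ ≤ θ) (hδp : 16 * δ ≤ p1) (hkp0 : 0 < kp) (hdl : 0 < dl) (hdl1 : dl ≤ 1) :
    ∑ r ∈ range (2 * T), (D.P h 0).Pr (fun w => r % 2 = 1 ∧ ltq h v r w ∧ Sq h v c r w ∧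
        -X1 ≤ lJq h v (insert c J0) r w ∧ p1 < rowm h v θ J0 c d (STq h v δ kp r w) w) ≤
      (2 ^ 12 / (p1 * θ) * (32 * Real.sqrt ((X1 + Real.log (1 / dl) + 1) / N1)) + 64 / p1 * Real.sqrt kp + 64 / p1 * kp) *
        ∑ r ∈ range (2 * T), (D.P h 0).Pr (Sq h v c r) +
      ∑ r ∈ range (2 * T), (D.P h 0).Pr (fun w => ltq h v r w ∧ Real.sqrt kp < mvc h v δ kp J0 c r w) +
      Tny h v dl T := by
  have hv := R.codes
  set κ0 : ℝ := 2 ^ 12 / (p1 * θ) * (32 * Real.sqrt ((X1 + Real.log (1 / dl) + 1) / N1)) + 64 / p1 * Real.sqrt kp +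
    64 / p1 * kp with hκ
  have hκ0 : 0 ≤ κ0 := by positivity
  have hNf : ∀ k, Fac (NPr (φ := φ) v D (k + 1)) (NPr v D k) := fun k => NPr_step k
  have hdJ : d ∉ insert c J0 := by
    rw [Finset.mem_insert, not_or]
    exact ⟨ht.cd.symm, ht.nd⟩
  -- one step
  have one : ∀ r ∈ range (2 * T), (D.P h 0).Pr (fun w => r % 2 = 1 ∧ ltq h v r w ∧ Sq h v c r w ∧
        -X1 ≤ lJq h v (insert c J0) r w ∧ p1 < rowm h v θ J0 c d (STq h v δ kp r w) w) ≤
      κ0 * (D.P h 0).Pr (Sq h v c r) +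
        (D.P h 0).Pr (fun w => ltq h v r w ∧ Real.sqrt kp < mvc h v δ kp J0 c r w) +
        (D.P h 0).Pr (fun w => ¬ dgq h v dl r w) := by
    intro r hr
    have hrT : r < 2 * T := Finset.mem_range.1 hr
    by_cases hodd : r % 2 = 1
    swap
    · have h0 : (D.P h 0).Pr (fun w => r % 2 = 1 ∧ ltq h v r w ∧ Sq h v c r w ∧
          -X1 ≤ lJq h v (insert c J0) r w ∧ p1 < rowm h v θ J0 c d (STq h v δ kp r w) w) = 0 := by
        rw [← FP.E_const (D.P h 0) 0]
        exact (D.P h 0).E_congr fun w _ => ind_not fun hh => hodd hh.1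
      rw [h0]
      have := (D.P h 0).Pr_nonneg (Sq h v c r)
      have := (D.P h 0).Pr_nonneg (fun w => ltq h v r w ∧ Real.sqrt kp < mvc h v δ kp J0 c r w)
      have := (D.P h 0).Pr_nonneg (fun w => ¬ dgq h v dl r w)
      positivity
    -- the three factors
    set F : Pt (Fin 3) X β φ → (Fin 3 → Option (β × List (Pt (Fin 3) X β φ))) × (List (Pt (Fin 3) X β φ) ×
      (γ × (Fin 3 → γ))) := fun u => (LJ v (insert c J0) r u, NPr v D r u) with hF
    set f : Pt (Fin 3) X β φ → ℝ := fun u => ind (ltq h v r u ∧ Sq h v c r u) with hf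
    set g : Pt (Fin 3) X β φ → ℝ := fun u => ind (p1 < rowm h v θ J0 c d (STq h v δ kp r u) u) with hg
    set a0 : Pt (Fin 3) X β φ → ℝ := fun u => ind (-X1 ≤ lJq h v (insert c J0) r u) with ha0
    have stf : Fac (NPr v D r) (STq h v δ kp r) := stt_fac hNf r
    have ff : Fac (fun u => (LJ v (insert c J0) r u, NPr v D (r + 1) u)) f := by
      intro x y hxy
      have h1 := (Prod.mk.inj hxy).1
      have h2 := (Prod.mk.inj hxy).2
      refine ind_cg (and_congr (lit_fac hNf r h2) ?_)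
      have h3 : LJ v {c} r x = LJ v {c} r y :=
        LJ_sub (Finset.singleton_subset_iff.2 (Finset.mem_insert_self c J0)) r x y h1
      have h4 : aJq h v {c} r x = aJq h v {c} r y := ai_fac (D.P h 0) hNf (fun k => LJ_PJ {c} k) r x y (Prod.ext h3 h2)
      show 2 ≤ aJq h v {c} r x ↔ 2 ≤ aJq h v {c} r y
      rw [h4]
    have fg : Fac (fun u => ((LJ v (insert c J0) r u, NPr v D r u), u.2.1 d)) g := by
      intro x y hxy
      have h0 := (Prod.mk.inj hxy).1
      have h1 := (Prod.mk.inj h0).1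
      have h2 := (Prod.mk.inj h0).2
      have h3 := (Prod.mk.inj hxy).2
      have h4 := stf x y h2
      have h5 : STq h v δ kp r y ≤ r := stt_le r y
      refine ind_cg ?_
      rw [h4, rowm_eq (NPr_older h5 h2) (LJ_iff.2 fun j hj => XLr_older h5 (LJ_iff.1 h1 j hj)) h3]
    have fa : Fac F a0 := by
      intro x y hxy
      have h1 := (Prod.mk.inj hxy).1
      have h2 := (Prod.mk.inj hxy).2
      show ind (-X1 ≤ lJq h v (insert c J0) r x) = ind (-X1 ≤ lJq h v (insert c J0) r y)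
      rw [lJq_eq h2 h1]
    have hci := CI_code (h := h) hv hodd hdJ
    have e0 : (D.P h 0).Pr (fun w => r % 2 = 1 ∧ ltq h v r w ∧ Sq h v c r w ∧
          -X1 ≤ lJq h v (insert c J0) r w ∧ p1 < rowm h v θ J0 c d (STq h v δ kp r w) w) =
        (D.P h 0).E (fun w => a0 w * ((D.P h 0).ce F f w * (D.P h 0).ce F g w)) := by
      rw [← hci.E3 fa ff fg]
      refine (D.P h 0).E_congr fun w _ => ?_
      show ind _ = ind _ * (ind _ * ind _)
      rw [← ind_and, ← ind_and]
      refine ind_cg ⟨fun hh => ⟨hh.2.2.2.1, ⟨hh.2.1, hh.2.2.1⟩, hh.2.2.2.2⟩, fun hh => ⟨hodd, hh.2.1.1, hh.2.1.2,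
        hh.1, hh.2.2⟩⟩
    have f0 : ∀ w, 0 ≤ (D.P h 0).ce F f w := fun w => (D.P h 0).ce_nonneg (fun _ _ => ind_nonneg _) w
    have g0 : ∀ w, 0 ≤ (D.P h 0).ce F g w := fun w => (D.P h 0).ce_nonneg (fun _ _ => ind_nonneg _) w
    have g1 : ∀ w, (D.P h 0).p w ≠ 0 → (D.P h 0).ce F g w ≤ 1 := fun w hw => by
      refine ((D.P h 0).ce_mono (fun _ _ => ind_le_one _) w).trans ?_
      exact ((D.P h 0).ce_const F 1 hw).le
    have f1 : ∀ w, (D.P h 0).p w ≠ 0 → (D.P h 0).ce F f w ≤ 1 := fun w hw => by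
      refine ((D.P h 0).ce_mono (fun _ _ => ind_le_one _) w).trans ?_
      exact ((D.P h 0).ce_const F 1 hw).le
    -- the row
    have row : ∀ w, (D.P h 0).p w ≠ 0 → -X1 ≤ lJq h v (insert c J0) r w → dgq h v dl r w →
        mvc h v δ kp J0 c r w ≤ Real.sqrt kp → (D.P h 0).ce F g w ≤ κ0 := by
      intro w hw hX hd hm
      have hν : STq h v δ kp r w ≤ r := stt_le r w
      have eQ : ∀ G : Pt (Fin 3) X β φ → ℝ, (D.P h 0).ce F G w = (QF h v (insert c J0) r w).E G := by
        intro G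
        rw [FP.ce_eq_cond (D.P h 0) F G hw]
        have : (fun u => F u = F w) = fun u => NPr v D r u = NPr v D r w ∧ LJ v (insert c J0) r u =
            LJ v (insert c J0) r w := by
          funext u
          exact propext ⟨fun hh => ⟨(Prod.mk.inj hh).2, (Prod.mk.inj hh).1⟩, fun hh => Prod.ext hh.2 hh.1⟩
        rw [this]
        rfl
      have eST : ∀ u, (QF h v (insert c J0) r w).p u ≠ 0 → STq h v δ kp r u = STq h v δ kp r w := by
        intro u hu
        have h0 : (D.P h 0).Pr (fun u => NPr v D r u = NPr v D r w ∧ LJ v (insert c J0) r u =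
            LJ v (insert c J0) r w) ≠ 0 := (FP.Pr_pos_of hw ⟨rfl, rfl⟩).ne'
        exact stf u w ((FP.cond_p_ne h0).1 hu).1.1
      have k := row_exc (h := h) hv ht hν hθ0 hθ1 hp0 hp1 hδ0 hδ hδp hw
        (ε := 32 * Real.sqrt ((X1 + Real.log (1 / dl) + 1) / N1)) (ε3 := Real.sqrt kp) (ε4 := kp)
        (row_tv R hp H hdl hdl1 hX1 hrT.le hw hd hdJ hX)
        (row_tv R hp H hdl hdl1 hX1 hrT.le hw hd ht.nd (hX.trans (lJq_mono hv ht.nc hw))) ?_ ?_
      · rw [eQ]
        refine le_trans (le_of_eq ?_) k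
        exact FP.E_congr _ fun u hu => by
          show ind (p1 < rowm h v θ J0 c d (STq h v δ kp r u) u) = _
          rw [eST u hu]
      · have h1 : mvc h v δ kp J0 c r w = (QF h v (insert c J0) r w).Pr (MAq h v δ (STq h v δ kp r w) r) :=
          eQ fun u => ind (MAq h v δ (STq h v δ kp r w) r u)
        rw [← h1]
        exact hm
      · have h1 := stt_inv (P := D.P h 0) (Lf := LJ v) (Yf := fun J => PJ J) (B := 2) hNf hδ0 hkp0 r hw
        have h2 : (clq h v r w).Pr (MAq h v δ (STq h v δ kp r w) r) < kp := by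
          have h3 := FP.ce_eq_cond (D.P h 0) (NPr v D r) (fun u => ind (MAq h v δ (STq h v δ kp r w) r u)) hw
          rw [Pcl_eq]
          show ((D.P h 0).cond fun u => NPr v D r u = NPr v D r w).E (fun u => ind (MAq h v δ (STq h v δ kp r w) r u)) < kp
          rw [← h3]
          exact h1
        refine (FP.Pr_mono _ fun u _ hu => ?_).trans h2.le
        exact ⟨{d}, hu⟩
    rw [e0]
    have e1 : (D.P h 0).E (fun w => a0 w * ((D.P h 0).ce F f w * (D.P h 0).ce F g w)) ≤
        (D.P h 0).E (fun w => κ0 * (D.P h 0).ce F f w + ind (Real.sqrt kp < mvc h v δ kp J0 c r w) *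
          (D.P h 0).ce F f w + ind (¬ dgq h v dl r w)) := by
      refine (D.P h 0).E_mono fun w hw => ?_
      have hf0 := f0 w
      have hg0 := g0 w
      have hg1 := g1 w hw
      have hf1 := f1 w hw
      have hfg : (D.P h 0).ce F f w * (D.P h 0).ce F g w ≤ (D.P h 0).ce F f w := mul_le_of_le_one_right hf0 hg1
      have hfg0 : 0 ≤ (D.P h 0).ce F f w * (D.P h 0).ce F g w := mul_nonneg hf0 hg0
      have hi1 := ind_nonneg (Real.sqrt kp < mvc h v δ kp J0 c r w)
      have hi2 := ind_nonneg (¬ dgq h v dl r w)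
      have t1 : 0 ≤ κ0 * (D.P h 0).ce F f w := mul_nonneg hκ0 hf0
      have t2 : 0 ≤ ind (Real.sqrt kp < mvc h v δ kp J0 c r w) * (D.P h 0).ce F f w := mul_nonneg hi1 hf0
      by_cases hX : -X1 ≤ lJq h v (insert c J0) r w
      · have ea : a0 w = 1 := ind_of hX
        rw [ea, one_mul]
        by_cases hd : dgq h v dl r w
        · by_cases hm : Real.sqrt kp < mvc h v δ kp J0 c r w
          · rw [ind_of hm, one_mul]
            linarith
          · have h1 := row w hw hX hd (not_lt.1 hm)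
            have h2 : (D.P h 0).ce F f w * (D.P h 0).ce F g w ≤ κ0 * (D.P h 0).ce F f w := by
              rw [mul_comm κ0]
              exact mul_le_mul_of_nonneg_left h1 hf0
            linarith
        · rw [ind_of hd]
          linarith
      · have ea : a0 w = 0 := ind_not hX
        rw [ea, zero_mul]
        linarith
    refine e1.trans ?_
    rw [FP.E_add, FP.E_add, FP.E_smul, (D.P h 0).E_ce F f]
    have hmf : Fac F (fun w => ind (Real.sqrt kp < mvc h v δ kp J0 c r w)) := by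
      intro x y hxy
      have h2 := (Prod.mk.inj hxy).2
      have h3 : mvc h v δ kp J0 c r x = mvc h v δ kp J0 c r y := by
        unfold mvc
        rw [stf x y h2]
        exact (D.P h 0).ce_fac _ _ x y hxy
      show ind (Real.sqrt kp < mvc h v δ kp J0 c r x) = ind (Real.sqrt kp < mvc h v δ kp J0 c r y)
      rw [h3]
    rw [(D.P h 0).E_mul_ce hmf f]
    have k1 : (D.P h 0).E f ≤ (D.P h 0).Pr (Sq h v c r) := (D.P h 0).E_mono fun w _ => ind_mono fun hh => hh.2
    have k2 : (D.P h 0).E (fun w => ind (Real.sqrt kp < mvc h v δ kp J0 c r w) * f w) ≤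
        (D.P h 0).Pr (fun w => ltq h v r w ∧ Real.sqrt kp < mvc h v δ kp J0 c r w) := by
      refine (D.P h 0).E_mono fun w _ => ?_
      show ind _ * ind _ ≤ ind _
      rw [← ind_and]
      exact ind_mono fun hh => ⟨hh.2.1, hh.1⟩
    have k3 := mul_le_mul_of_nonneg_left k1 hκ0
    have k4 : (D.P h 0).E (fun w => ind (¬ dgq h v dl r w)) = (D.P h 0).Pr (fun w => ¬ dgq h v dl r w) := rfl
    rw [k4]
    linarith
  refine (Finset.sum_le_sum one).trans (le_of_eq ?_)
  rw [Finset.sum_add_distrib, Finset.sum_add_distrib, ← Finset.mul_sum]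
  congr 1
  have ev : ∀ (T : ℕ) (f : ℕ → ℝ), ∑ r ∈ range (2 * T), f r = ∑ t ∈ range T, (f (2 * t) + f (2 * t + 1)) := by
    intro T f
    induction T with
    | zero => simp
    | succ T ih =>
      rw [show 2 * (T + 1) = 2 * T + 1 + 1 by ring, Finset.sum_range_succ, Finset.sum_range_succ, ih,
        Finset.sum_range_succ]
      ring
  rw [ev T]
  unfold Tny
  refine Finset.sum_congr rfl fun t _ => ?_
  have h0 : (D.P h 0).Pr (fun w => ¬ dgq h v dl (2 * t) w) = 0 := by
    rw [← FP.E_const (D.P h 0) 0]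
    refine (D.P h 0).E_congr fun w _ => ind_not fun hh => hh fun h1 => ?_
    omega
  rw [h0, zero_add]

end Pool.Agent.GMH.TD
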