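import Pool.Agent.GMH.TD11
import Pool.Agent.GMH.TD4
import Pool.Agent.GMH.TD3

/-!
# GMH/TD11N: thin dynamics, number of epochs, strong light ends (helper34)

* `Nep_le` : expected number of epochs; `gW_le` : the strong light ends are paid (each half step is the end of one epoch);
* `EN.end_sum` : a sum over the ends of the epochs as a sum over the half steps.
-/

set_option autoImplicit false
set_option linter.unusedSectionVars false

namespace Pool.Agent.GMH.TD

open Finset Pool.Agent.PWZ Pool.Agent.M3 Pool.Agent.GM Pool.Agent.GM.Harm Pool.Agent.GMH Pool.Agent.GMH.NZ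
open Pool.Agent.GMH.V3 Pool.Agent.GMH.Gdy

variable {X β γ φ υ : Type} [Fintype X] [Fintype β] [Fintype φ] [Nonempty X] [Nonempty β]
variable {D : HD (Fin 3) X β γ φ} {al : ℝ} {h : D.Thick al} {v : ℕ → Finset (Fin 3) → X → (Fin 3 → β) → υ}

namespace EN

theorem sgm_spec (δ kp : ℝ) (T ν : ℕ) (w : Pt (Fin 3) X β φ) : EndE h v δ kp T ν (sgm h v δ kp T ν w) w := by
  classical
  unfold sgm
  exact Nat.find_spec (exists_EndE h v δ kp T ν w)

theorem sgm_min {δ kp : ℝ} {T ν : ℕ} {w : Pt (Fin 3) X β φ} {s : ℕ} (hs : s < sgm h v δ kp T ν w) :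
    ¬ EndE h v δ kp T ν s w := by
  classical
  unfold sgm at hs
  exact Nat.find_min (exists_EndE h v δ kp T ν w) hs

theorem sgm_one (δ kp : ℝ) (T ν : ℕ) (w : Pt (Fin 3) X β φ) : 1 ≤ sgm h v δ kp T ν w := (sgm_spec δ kp T ν w).1

/-- the epoch ends before `2 T` -/
theorem sgm_le {δ kp : ℝ} {T ν : ℕ} (hν : ν < 2 * T) (w : Pt (Fin 3) X β φ) : ν + sgm h v δ kp T ν w ≤ 2 * T := by
  by_contra hcon
  push Not at hcon
  have h1 : 2 * T - ν < sgm h v δ kp T ν w := by omega
  refine sgm_min h1 ⟨by omega, Or.inr (by omega)⟩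

/-- inside the epoch the start is `ν` -/
theorem st_in {δ kp : ℝ} {T ν : ℕ} {w : Pt (Fin 3) X β φ} (hst : STq h v δ kp ν w = ν) {s : ℕ}
    (hs : s < sgm h v δ kp T ν w) : STq h v δ kp (ν + s) w = ν := by
  induction s with
  | zero => exact hst
  | succ s ih =>
    have h1 := ih (by omega)
    have h2 : STq h v δ kp (ν + s + 1) w = ν + s + 1 ∨ STq h v δ kp (ν + s + 1) w = STq h v δ kp (ν + s) w :=
      stt_or (ν + s) w
    rcases h2 with h3 | h3
    · exact absurd ⟨by omega, Or.inl h3⟩ (sgm_min hs)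
    · show STq h v δ kp (ν + s + 1) w = ν
      rw [h3, h1]

/-- the last half step of the epoch -/
theorem st_last {δ kp : ℝ} {T ν : ℕ} {w : Pt (Fin 3) X β φ} (hst : STq h v δ kp ν w = ν) :
    STq h v δ kp (ν + sgm h v δ kp T ν w - 1) w = ν := by
  have h1 := sgm_one (h := h) (v := v) δ kp T ν w
  have h2 : ν + sgm h v δ kp T ν w - 1 = ν + (sgm h v δ kp T ν w - 1) := by omega
  rw [h2]
  exact st_in (T := T) hst (by omega)

/-- **a sum over the ends of the epochs as a sum over the half steps** -/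
theorem end_sum {δ kp : ℝ} {T : ℕ} (f : ℕ → ℝ) (hf : ∀ r, 0 ≤ f r) (w : Pt (Fin 3) X β φ) :
    ∑ ν ∈ range (2 * T), ind (STq h v δ kp ν w = ν) * f (ν + sgm h v δ kp T ν w - 1) ≤ ∑ r ∈ range (2 * T), f r := by
  classical
  have h1 : ∑ ν ∈ range (2 * T), ind (STq h v δ kp ν w = ν) * f (ν + sgm h v δ kp T ν w - 1) =
      ∑ ν ∈ (range (2 * T)).filter (fun ν => STq h v δ kp ν w = ν), f (ν + sgm h v δ kp T ν w - 1) := by
    rw [Finset.sum_filter]
    refine Finset.sum_congr rfl fun ν _ => ?_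
    by_cases hh : STq h v δ kp ν w = ν
    · rw [ind_of hh, if_pos hh, one_mul]
    · rw [ind_not hh, if_neg hh, zero_mul]
  rw [h1]
  have hinj : Set.InjOn (fun ν => ν + sgm h v δ kp T ν w - 1)
      ((range (2 * T)).filter (fun ν => STq h v δ kp ν w = ν) : Finset ℕ) := by
    intro a ha b hb hab
    have ha' := (Finset.mem_filter.1 (Finset.mem_coe.1 ha)).2
    have hb' := (Finset.mem_filter.1 (Finset.mem_coe.1 hb)).2
    have h2 := st_last (T := T) ha'
    have h3 := st_last (T := T) hb'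
    simp only at hab
    rw [hab] at h2
    exact h2.symm.trans h3
  rw [← Finset.sum_image (f := f) (g := fun ν => ν + sgm h v δ kp T ν w - 1) (fun a ha b hb => hinj ha hb)]
  refine Finset.sum_le_sum_of_subset_of_nonneg ?_ fun r _ _ => hf r
  intro r hr
  obtain ⟨ν, hν, rfl⟩ := Finset.mem_image.1 hr
  have hν1 := Finset.mem_range.1 (Finset.mem_filter.1 hν).1
  have h4 := sgm_le (h := h) (v := v) (δ := δ) (kp := kp) hν1 w
  have h5 := sgm_one (h := h) (v := v) δ kp T ν w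
  exact Finset.mem_range.2 (by omega)

end EN

/-- the strong light ends are paid -/
theorem gW_le {T : ℕ} {c : Fin 3} {δ kp : ℝ} :
    ∑ ν ∈ range (2 * T), (D.P h 0).E (fun w => ind (STq h v δ kp ν w = ν) * gW h v c ν (sgm h v δ kp T ν w) w) ≤
      ∑ r ∈ range (2 * T), (D.P h 0).E (aJq h v {c} r) := by
  have h1 : ∑ ν ∈ range (2 * T), (D.P h 0).E (fun w => ind (STq h v δ kp ν w = ν) *
      gW h v c ν (sgm h v δ kp T ν w) w) ≤ ∑ r ∈ range (2 * T), (D.P h 0).Pr (fun w => Sq h v c r w) := by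
    have e1 : ∑ r ∈ range (2 * T), (D.P h 0).Pr (fun w => Sq h v c r w) =
        (D.P h 0).E (fun w => ∑ r ∈ range (2 * T), ind (Sq h v c r w)) := by
      rw [FP.E_sum]
      rfl
    rw [e1, ← FP.E_sum]
    refine FP.E_mono _ fun w _ => ?_
    refine le_trans ?_ (EN.end_sum (h := h) (v := v) (δ := δ) (kp := kp) (fun r => ind (Sq h v c r w))
      (fun r => ind_nonneg _) w)
    refine Finset.sum_le_sum fun ν _ => ?_
    refine mul_le_mul_of_nonneg_left ?_ (ind_nonneg _)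
    unfold gW
    exact ind_mono fun hh => hh.2.2
  refine h1.trans ?_
  exact strong_le (P := D.P h 0) (N := NPr v D) (La := LJ v {c}) (Ya := PJ {c}) NPr_step (LJ_step {c}) (LJ_PJ {c}) (2 * T)

/-- **expected number of epochs** -/
theorem Nep_le {δ kp : ℝ} (hδ : 0 < δ) (hδ1 : δ ≤ 1) (hkp : 0 < kp) (T : ℕ) {Tot : ℝ}
    (hA : ∀ J : Finset (Fin 3), ∑ r ∈ range (2 * T), (D.P h 0).E (aJq h v J r) ≤ Tot)
    (hB : ∀ J : Finset (Fin 3), ∑ r ∈ range (2 * T), (D.P h 0).E (bJq h v J r) ≤ Tot) :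
    Nep h v δ kp T ≤ 1 + ∑ r ∈ range (2 * T), (D.P h 0).Pr (ltq h v r) + 8 * (4 / δ ^ 2 * Tot) / kp := by
  have h1 := restarts (P := D.P h 0) (N := NPr v D) (Lf := LJ v) (Yf := fun J => PJ J) (B := 2) (kp := kp)
    NPr_step (fun J => LJ_step J) (fun J => LJ_PJ J) hδ hδ1 hkp (2 * T) hA hB
  have e1 : Fintype.card (Finset (Fin 3)) = 8 := by
    rw [Fintype.card_finset, Fintype.card_fin]
    norm_num
  rw [e1] at h1
  have h2 : Nep h v δ kp T ≤ 1 + ∑ k ∈ range (2 * T), (D.P h 0).Pr (fun w => STq h v δ kp (k + 1) w = k + 1) := by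
    unfold Nep
    rcases Nat.eq_zero_or_pos (2 * T) with h0 | h0
    · rw [h0]
      simp
    · obtain ⟨n, hn⟩ : ∃ n, 2 * T = n + 1 := ⟨2 * T - 1, by omega⟩
      rw [hn, Finset.sum_range_succ', Finset.sum_range_succ (fun k => (D.P h 0).Pr (fun w => STq h v δ kp (k + 1) w = k + 1))]
      have h3 : (D.P h 0).Pr (fun w => STq h v δ kp 0 w = 0) ≤ 1 := FP.Pr_le_one _ _
      have h4 : 0 ≤ (D.P h 0).Pr (fun w => STq h v δ kp (n + 1) w = n + 1) := FP.Pr_nonneg _ _
      linarith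
  refine h2.trans ?_
  have h3 : ∑ k ∈ range (2 * T), (D.P h 0).Pr (fun w => STq h v δ kp (k + 1) w = k + 1) ≤
      ∑ r ∈ range (2 * T), (D.P h 0).Pr (ltq h v r) + 8 * (4 / δ ^ 2 * Tot) / kp := by
    refine le_trans ?_ (h1.trans (le_of_eq ?_))
    · exact le_of_eq rfl
    · push_cast
      rfl
  linarith

end Pool.Agent.GMH.TD
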