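import Pool.Agent.GMH.TDP
import Pool.Agent.GMH.TD11A
import Pool.Agent.GMH.TD11B
import Pool.Agent.GMH.TD11C
import Pool.Agent.GMH.TD11N
import Pool.Agent.GMH.TD5

/-!
# GMH.TD11D: thin dynamics, the odd half steps of one triple (helper27)
-/

set_option autoImplicit false
set_option linter.unusedSectionVars false

namespace Pool.Agent.GMH.TD

open Finset Pool.Agent.PWZ Pool.Agent.M3 Pool.Agent.GM Pool.Agent.GM.Harm Pool.Agent.GMH Pool.Agent.GMH.NZ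
open Pool.Agent.GMH.V3 Pool.Agent.GMH.Gdy

variable {X β γ φ : Type} [Fintype X] [Fintype β] [Fintype φ] [Nonempty X] [Nonempty β]
variable {D : HD (Fin 3) X β γ φ} {al : ℝ} {h : D.Thick al} {v : ℕ → Finset (Fin 3) → X → (Fin 3 → β) → Pt (Fin 3) X β φ}

/-! ### measurability of the moved tuples -/

theorem NPr_leFac {j k : ℕ} (hjk : j ≤ k) : Fac (NPr (φ := φ) v D k) (NPr v D j) := fun _ _ hab => NPr_older hjk hab

theorem LJ_leFac (J : Finset (Fin 3)) {j k : ℕ} (hjk : j ≤ k) : Fac (LJ (φ := φ) v J k) (LJ v J j) := by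
  induction k, hjk using Nat.le_induction with
  | base => exact fun _ _ hab => hab
  | succ k _ ih => exact fun _ _ hab => ih _ _ (LJ_step J k _ _ hab)

theorem MJq_iff {δ : ℝ} {J : Finset (Fin 3)} {ν r : ℕ} {a b : Pt (Fin 3) X β φ} (h1 : NPr v D r a = NPr v D r b)
    (h2 : LJ v J r a = LJ v J r b) : MJq h v δ J ν r a ↔ MJq h v δ J ν r b := by
  have ea : ∀ j ∈ Ico ν r, ai (D.P h 0) (NPr v D) (LJ v J) (PJ J) j a = ai (D.P h 0) (NPr v D) (LJ v J) (PJ J) j b := by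
    intro j hj
    have hjr := (mem_Ico.1 hj).2
    refine ai_fac (D.P h 0) NPr_step (LJ_PJ J) j a b ?_
    show (LJ v J j a, NPr v D (j + 1) a) = (LJ v J j b, NPr v D (j + 1) b)
    rw [LJ_leFac J hjr.le a b h2, NPr_leFac (by omega : j + 1 ≤ r) a b h1]
  have eb : ∀ j ∈ Ico ν r, bi (D.P h 0) (NPr v D) (LJ v J) (PJ J) j a = bi (D.P h 0) (NPr v D) (LJ v J) (PJ J) j b := by
    intro j hj
    have hjr := (mem_Ico.1 hj).2
    refine bi_fac (D.P h 0) (LJ_step J) (LJ_PJ J) j a b ?_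
    show (LJ v J (j + 1) a, NPr v D (j + 1) a) = (LJ v J (j + 1) b, NPr v D (j + 1) b)
    rw [LJ_leFac J (by omega : j + 1 ≤ r) a b h2, NPr_leFac (by omega : j + 1 ≤ r) a b h1]
  unfold MJq Mv1
  rw [sum_congr rfl ea, sum_congr rfl eb]

theorem MAq_iff {δ : ℝ} {ν r : ℕ} {a b : Pt (Fin 3) X β φ} (h1 : NPr v D r a = NPr v D r b)
    (h2 : LJ v univ r a = LJ v univ r b) : MAq h v δ ν r a ↔ MAq h v δ ν r b := by
  unfold MAq Mvd
  refine exists_congr fun J => ?_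
  exact MJq_iff (h := h) (δ := δ) (ν := ν) h1 (LJ_sub (subset_univ J) r a b h2)

theorem STq_fac (δ kp : ℝ) (r : ℕ) : Fac (NPr v D r) (STq h v δ kp r) := stt_fac NPr_step r

/-! ### what is thrown at the light values -/

theorem thr_gen {n N1 Lam : ℝ} (hn : 1 ≤ n) (hN1 : 1 ≤ N1) (R : Run h (pr3 (Fin 3) n N1) (SS1 (Fin 3)) (AdmDep D) v)
    {dg : ℕ → X → ℝ} {prr : ℕ → Fin 3 → φ → φ} {T : ℕ} (H : D.Hyp dg prr al T Lam) (hv : Codes D v) (J : Finset (Fin 3))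
    {A : ℕ → Pt (Fin 3) X β φ → Prop} (hA : ∀ r, Fac (fun w => (LJ v J r w, NPr v D r w)) (A r)) {q : ℝ} (hq0 : 0 < q)
    (hq1 : q < 1) (hq : ∀ r w, (D.P h 0).p w ≠ 0 → (D.P h 0).ce (NPr v D r) (fun u => ind (A r u)) w ≤ q) :
    ∑ r ∈ range (2 * T), (D.P h 0).Pr (fun w => ltq h v r w ∧ A r w) ≤ ThB n N1 Lam q := by
  have hlog : 0 < Real.log (1 / q) := Real.log_pos (by rw [lt_div_iff₀ hq0]; linarith)
  have h1 := thrown (P := D.P h 0) (N := NPr v D) (La := LJ v J) (Ya := PJ J) NPr_step (LJ_step J) (LJ_PJ J)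
    (fun k hk w hw => prod_code hv hk J hw) hA hq0 hq1 hq 2 (2 * T)
  have h2 : ∑ k ∈ range (2 * T), (D.P h 0).E (ai (D.P h 0) (NPr v D) (LJ v J) (PJ J) k) ≤ 9 * n * Lam := incr hn hN1 R H J
  have h3 : ∑ k ∈ range (2 * T), (D.P h 0).Pr (lit (D.P h 0) (NPr v D) 2 k) ≤ 6 * n * N1 * Lam := light_le hn hN1 R H
  have h4 : 1 / 2 * Real.log (1 / q) * ∑ k ∈ range (2 * T), (D.P h 0).Pr (fun w => lit (D.P h 0) (NPr v D) 2 k w ∧ A k w) ≤
      9 * n * Lam + Real.sqrt q * (6 * n * N1 * Lam) :=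
    h1.trans (add_le_add h2 (mul_le_mul_of_nonneg_left h3 (Real.sqrt_nonneg _)))
  have h5 : ∑ k ∈ range (2 * T), (D.P h 0).Pr (fun w => lit (D.P h 0) (NPr v D) 2 k w ∧ A k w) =
      2 / Real.log (1 / q) * (1 / 2 * Real.log (1 / q) *
        ∑ k ∈ range (2 * T), (D.P h 0).Pr (fun w => lit (D.P h 0) (NPr v D) 2 k w ∧ A k w)) := by
    field_simp
  unfold ThB
  refine le_trans (le_of_eq h5) ?_
  exact mul_le_mul_of_nonneg_left h4 (div_pos two_pos hlog).le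

theorem thr_MA {n N1 Lam θ X1 p1 u dl δ kp : ℝ} {M : ℕ} (hP : Pm n N1 Lam θ X1 p1 u dl δ kp M)
    (R : Run h (pr3 (Fin 3) n N1) (SS1 (Fin 3)) (AdmDep D) v) {dg : ℕ → X → ℝ} {prr : ℕ → Fin 3 → φ → φ} {T : ℕ}
    (H : D.Hyp dg prr al T Lam) (hv : Codes D v) :
    ∑ r ∈ range (2 * T), (D.P h 0).Pr (fun w => ltq h v r w ∧ MAq h v δ (STq h v δ kp r w) r w) ≤ ThB n N1 Lam kp := by
  refine thr_gen hP.hn hP.hN1 R H hv univ (A := fun r w => MAq h v δ (STq h v δ kp r w) r w) ?_ hP.hkp0 hP.hkp1 ?_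
  · intro r a b hab
    have hab' : (LJ v univ r a, NPr v D r a) = (LJ v univ r b, NPr v D r b) := hab
    simp only [Prod.mk.injEq] at hab'
    refine propext ?_
    show MAq h v δ (STq h v δ kp r a) r a ↔ MAq h v δ (STq h v δ kp r b) r b
    rw [STq_fac (h := h) δ kp r a b hab'.2]
    exact MAq_iff hab'.2 hab'.1
  · intro r w hw
    have h1 := stt_inv (P := D.P h 0) (N := NPr v D) (Lf := LJ v) (Yf := fun J => PJ J) (B := 2) (δ := δ) (kp := kp)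
      NPr_step hP.hδ0 hP.hkp0 r hw
    refine le_trans (le_of_eq ?_) h1.le
    refine ce_congr_on fun y _ hy => ?_
    show ind (MAq h v δ (STq h v δ kp r y) r y) = ind (MAq h v δ (STq h v δ kp r w) r y)
    rw [STq_fac (h := h) δ kp r y w hy]

theorem thr_mvc {n N1 Lam θ X1 p1 u dl δ kp : ℝ} {M : ℕ} (hP : Pm n N1 Lam θ X1 p1 u dl δ kp M)
    (R : Run h (pr3 (Fin 3) n N1) (SS1 (Fin 3)) (AdmDep D) v) {dg : ℕ → X → ℝ} {prr : ℕ → Fin 3 → φ → φ} {T : ℕ}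
    (H : D.Hyp dg prr al T Lam) (hv : Codes D v) (J0 : Finset (Fin 3)) (c : Fin 3) :
    ∑ r ∈ range (2 * T), (D.P h 0).Pr (fun w => ltq h v r w ∧ Real.sqrt kp < mvc h v δ kp J0 c r w) ≤
      ThB n N1 Lam (Real.sqrt kp) := by
  have hs0 : 0 < Real.sqrt kp := Real.sqrt_pos.2 hP.hkp0
  have hs1 : Real.sqrt kp < 1 := by
    rw [show (1 : ℝ) = Real.sqrt 1 by rw [Real.sqrt_one]]
    exact Real.sqrt_lt_sqrt hP.hkp0.le hP.hkp1
  have hmF : ∀ r, Fac (fun w => (LJ v (insert c J0) r w, NPr v D r w)) (mvc h v δ kp J0 c r) := by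
    intro r a b hab
    have hab' : (LJ v (insert c J0) r a, NPr v D r a) = (LJ v (insert c J0) r b, NPr v D r b) := hab
    have h2 := (Prod.mk.inj hab').2
    unfold mvc
    rw [STq_fac (h := h) δ kp r a b h2]
    exact (D.P h 0).ce_fac _ _ a b hab'
  refine thr_gen hP.hn hP.hN1 R H hv (insert c J0) (A := fun r w => Real.sqrt kp < mvc h v δ kp J0 c r w) ?_ hs0 hs1 ?_
  · intro r a b hab
    show (Real.sqrt kp < mvc h v δ kp J0 c r a) = (Real.sqrt kp < mvc h v δ kp J0 c r b)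
    rw [hmF r a b hab]
  · intro r w hw
    have h1 := stt_inv (P := D.P h 0) (N := NPr v D) (Lf := LJ v) (Yf := fun J => PJ J) (B := 2) (δ := δ) (kp := kp)
      NPr_step hP.hδ0 hP.hkp0 r hw
    have h2 : (D.P h 0).ce (NPr v D r) (mvc h v δ kp J0 c r) w =
        (D.P h 0).ce (NPr v D r) (fun u => ind (MAq h v δ (STq h v δ kp r w) r u)) w := by
      have e1 : (D.P h 0).ce (NPr v D r) (mvc h v δ kp J0 c r) w = (D.P h 0).ce (NPr v D r)
          ((D.P h 0).ce (fun u => (LJ v (insert c J0) r u, NPr v D r u)) (fun u => ind (MAq h v δ (STq h v δ kp r w) r u))) w := by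
        refine ce_congr_on fun y _ hy => ?_
        show (D.P h 0).ce _ (fun u => ind (MAq h v δ (STq h v δ kp r y) r u)) y = _
        rw [STq_fac (h := h) δ kp r y w hy]
      rw [e1]
      exact (D.P h 0).ce_tower (fun a b hab => (Prod.mk.inj hab).2) _ w
    have h3 : Real.sqrt kp * (D.P h 0).ce (NPr v D r) (fun u => ind (Real.sqrt kp < mvc h v δ kp J0 c r u)) w ≤
        (D.P h 0).ce (NPr v D r) (mvc h v δ kp J0 c r) w := by
      rw [← (D.P h 0).ce_smul]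
      refine (D.P h 0).ce_mono (fun y _ => ?_) w
      by_cases hy : Real.sqrt kp < mvc h v δ kp J0 c r y
      · rw [ind_of hy, mul_one]
        exact hy.le
      · rw [ind_not hy, mul_zero]
        exact (D.P h 0).ce_nonneg (fun _ _ => ind_nonneg _) y
    have h4 : Real.sqrt kp * (D.P h 0).ce (NPr v D r) (fun u => ind (Real.sqrt kp < mvc h v δ kp J0 c r u)) w ≤
        Real.sqrt kp * Real.sqrt kp := by
      rw [Real.mul_self_sqrt hP.hkp0.le]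
      exact (h3.trans (le_of_eq h2)).trans h1.le
    exact le_of_mul_le_mul_left h4 hs0

/-! ### odd half steps of one triple -/

theorem Tri3.swD {J0 : Finset (Fin 3)} {e c d : Fin 3} (ht : Tri3 J0 e c d) : Tri3 J0 e d c :=
  ⟨ht.ed, ht.ec, ht.cd.symm, ht.sub⟩

/-- the four cases -/
theorem odd_cases {n N1 Lam θ X1 p1 u dl δ kp : ℝ} {M : ℕ} (hP : Pm n N1 Lam θ X1 p1 u dl δ kp M) (hv : Codes D v)
    {J0 : Finset (Fin 3)} {e c d : Fin 3} (ht : Tri3 J0 e c d) {r : ℕ} (hr : r % 2 = 1) {w : Pt (Fin 3) X β φ}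
    (hw : (D.P h 0).p w ≠ 0) (hE : EvP h v θ X1 J0 c d r w) :
    (ltq h v r w ∧ MAq h v δ (STq h v δ kp r w) r w) ∨
      (r % 2 = 1 ∧ ltq h v r w ∧ Sq h v c r w ∧ -X1 ≤ lJq h v (insert c J0) r w ∧
        p1 < rowm h v (θ / 2) J0 c d (STq h v δ kp r w) w) ∨
      (r % 2 = 1 ∧ ltq h v r w ∧ Sq h v d r w ∧ -X1 ≤ lJq h v (insert d J0) r w ∧
        p1 < rowm h v (θ / 2) J0 d c (STq h v δ kp r w) w) ∨
      (ltq h v r w ∧ Sq h v c r w ∧ Sq h v d r w ∧ HRq h v (θ / 2) (X1 + 1) p1 J0 c d (STq h v δ kp r w) w) := by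
  obtain ⟨hSc, hSd, hd1, hd2, hG⟩ := hE
  have hlt := Sq_lit hv hr hw hSc
  by_cases hm : MAq h v δ (STq h v δ kp r w) r w
  · exact Or.inl ⟨hlt, hm⟩
  refine Or.inr ?_
  by_cases h1 : p1 < rowm h v (θ / 2) J0 c d (STq h v δ kp r w) w
  · exact Or.inl ⟨hr, hlt, hSc, hG.1, h1⟩
  refine Or.inr ?_
  by_cases h2 : p1 < rowm h v (θ / 2) J0 d c (STq h v δ kp r w) w
  · exact Or.inl ⟨hr, hlt, hSd, hG.2, h2⟩
  refine Or.inr ⟨hlt, hSc, hSd, ?_⟩
  have hν : STq h v δ kp r w ≤ r := stt_le r w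
  have h64 : 64 * δ ≤ θ := by linarith [hP.hδ, hP.hδ0]
  have hδ1 : 2 * δ ≤ 1 := by linarith [hP.hδ, hP.hθ1, hP.hδ0]
  obtain ⟨u1, _, u3⟩ := dev_unmoved hv ht hν hP.hθ0 hP.hθ1 hP.hδ0 h64 hw hm
  obtain ⟨u2, _, _⟩ := dev_unmoved hv ht.swD hν hP.hθ0 hP.hθ1 hP.hδ0 h64 hw hm
  refine ⟨u1 hd1, u2 hd2, ⟨?_, ?_⟩, not_lt.1 h1, not_lt.1 h2⟩
  · have := abs_le.1 (u3 (insert c J0))
    linarith [hG.1, this.2]
  · have := abs_le.1 (u3 (insert d J0))
    linarith [hG.2, this.2]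

/-- the static part -/
theorem static_le {n N1 Lam θ X1 p1 u dl δ kp : ℝ} {M : ℕ} (hP : Pm n N1 Lam θ X1 p1 u dl δ kp M) (hv : Codes D v)
    (hp : Prc (pr3 (Fin 3) n N1) (SS1 (Fin 3)) N1)
    (R : Run h (pr3 (Fin 3) n N1) (SS1 (Fin 3)) (AdmDep D) v) {dg : ℕ → X → ℝ} {prr : ℕ → Fin 3 → φ → φ} {T : ℕ}
    (H : D.Hyp dg prr al T Lam) {J0 : Finset (Fin 3)} {e c d : Fin 3} (ht : Tri3 J0 e c d)
    (hNe : Nep h v δ kp T ≤ NeB n N1 Lam δ kp) (hTn : Tny h v dl T ≤ TnB n N1 Lam dl) :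
    ∑ r ∈ range (2 * T), (D.P h 0).Pr (fun w => ltq h v r w ∧ Sq h v c r w ∧ Sq h v d r w ∧
      HRq h v (θ / 2) (X1 + 1) p1 J0 c d (STq h v δ kp r w) w) ≤ CoB n N1 Lam X1 u dl δ kp M := by
  have hX : 0 ≤ X1 + 1 := by linarith [hP.hX1]
  have hδ2 : δ ≤ 1 / 2 := by linarith [hP.hδ, hP.hθ1, hP.hδ0]
  have hu0 := hP.hu
  have e1 : ∑ r ∈ range (2 * T), (D.P h 0).Pr (fun w => ltq h v r w ∧ Sq h v c r w ∧ Sq h v d r w ∧
      HRq h v (θ / 2) (X1 + 1) p1 J0 c d (STq h v δ kp r w) w) =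
      ∑ ν ∈ range (2 * T), (D.P h 0).E (fun w => ind (STq h v δ kp ν w = ν) * ∑ r ∈ Ico ν (2 * T),
        ind (STq h v δ kp r w = ν ∧ ltq h v r w ∧ Sq h v c r w ∧ Sq h v d r w ∧
          HRq h v (θ / 2) (X1 + 1) p1 J0 c d ν w)) := by
    rw [← FP.E_sum]
    have : ∀ s : ℕ → Pt (Fin 3) X β φ → Prop, ∑ r ∈ range (2 * T), (D.P h 0).Pr (s r) =
        (D.P h 0).E (fun w => ∑ r ∈ range (2 * T), ind (s r w)) := fun s => ((D.P h 0).E_sum _ _).symm
    rw [this]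
    refine (D.P h 0).E_congr fun w _ => ?_
    rw [sum_epochs (P := D.P h 0) (N := NPr v D) (Lf := LJ v) (Yf := fun J => PJ J) (B := 2) (δ := δ) (kp := kp) (2 * T) _ w]
    refine sum_congr rfl fun ν _ => ?_
    congr 1
    refine sum_congr rfl fun r _ => ?_
    by_cases hs : STq h v δ kp r w = ν
    · rw [← ind_and]
      refine congrArg ind (propext ⟨fun hh => ?_, fun hh => ?_⟩)
      · obtain ⟨_, a1, a2, a3, a4⟩ := hh
        exact ⟨hs, a1, a2, a3, hs ▸ a4⟩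
      · obtain ⟨_, a1, a2, a3, a4⟩ := hh
        exact ⟨hs, a1, a2, a3, hs.symm ▸ a4⟩
    · have hs' : ¬ stt (D.P h 0) (NPr v D) (LJ v) (fun J => PJ J) 2 δ kp r w = ν := hs
      rw [ind_not hs', zero_mul, ind_not fun hh => hs hh.1]
  rw [e1]
  have e2 : ∀ ν ∈ range (2 * T), _ := fun ν hν => epoch_le (h := h) (v := v) hv H ht (θ := θ / 2) (X1 := X1 + 1) (p1 := p1)
    (δ := δ) (kp := kp) hu0 M (mem_range.1 hν)
  refine (sum_le_sum e2).trans ?_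
  rw [sum_add_distrib, sum_add_distrib, sum_add_distrib, ← mul_sum, ← mul_sum]
  have g1 := (gW_le (h := h) (v := v) (T := T) (c := c) (δ := δ) (kp := kp)).trans (incr hP.hn hP.hN1 R H {c})
  have half : ∀ c d : Fin 3, Tri3 J0 e c d → ∑ ν ∈ range (2 * T),
      (D.P h 0).E (fun w => ind (STq h v δ kp ν w = ν) * ∑ us : Fin M → β, wt h v e c ν us w *
        (2 * u * PhV h v T (θ / 2) (X1 + 1) p1 J0 e c d ν u us (sgm h v δ kp T ν w) w +
          ind (0 < PhV h v T (θ / 2) (X1 + 1) p1 J0 e c d ν u us 0 w))) ≤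
      2 * u * (3 * (9 * n * Lam) + e9 N1 (X1 + 1) u dl M * NeB n N1 Lam δ kp + TnB n N1 Lam dl) +
        (e9 N1 (X1 + 1) u dl M * NeB n N1 Lam δ kp + TnB n N1 Lam dl) := by
    intro c d ht
    have he9 : 0 ≤ e9 N1 (X1 + 1) u dl M := by
      unfold e9
      have := hP.hdl
      positivity
    have q1 := pot_end R hp H ht (θ := θ / 2) (δ := δ) (kp := kp) (u := u) (dl := dl) (M := M) hX hP.hp0.le hu0 hP.hup hP.hkp0
      hP.hkp hP.hδ0 hδ2 hP.hdl (by linarith [hP.hdl1, hP.hdl]) hP.hsm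
    have q2 := pot_start R hp H ht (θ := θ / 2) (δ := δ) (kp := kp) (u := u) (dl := dl) (M := M) hX hP.hp0.le hu0 hP.hup
      hP.hdl (by linarith [hP.hdl1, hP.hdl]) hP.hNu hP.hsm
    have q3 := incr hP.hn hP.hN1 R H {d}
    have q4 := mul_le_mul_of_nonneg_left hNe he9
    have e3 : ∑ ν ∈ range (2 * T), (D.P h 0).E (fun w => ind (STq h v δ kp ν w = ν) * ∑ us : Fin M → β, wt h v e c ν us w *
        (2 * u * PhV h v T (θ / 2) (X1 + 1) p1 J0 e c d ν u us (sgm h v δ kp T ν w) w +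
          ind (0 < PhV h v T (θ / 2) (X1 + 1) p1 J0 e c d ν u us 0 w))) =
        2 * u * ∑ ν ∈ range (2 * T), (D.P h 0).E (fun w => ind (STq h v δ kp ν w = ν) * ∑ us : Fin M → β,
          wt h v e c ν us w * PhV h v T (θ / 2) (X1 + 1) p1 J0 e c d ν u us (sgm h v δ kp T ν w) w) +
        ∑ ν ∈ range (2 * T), (D.P h 0).E (fun w => ind (STq h v δ kp ν w = ν) * ∑ us : Fin M → β,
          wt h v e c ν us w * ind (0 < PhV h v T (θ / 2) (X1 + 1) p1 J0 e c d ν u us 0 w)) := by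
      rw [mul_sum, ← sum_add_distrib]
      refine sum_congr rfl fun ν _ => ?_
      rw [← (D.P h 0).E_smul, ← (D.P h 0).E_add]
      refine (D.P h 0).E_congr fun w _ => ?_
      have e5 : ∑ us : Fin M → β, wt h v e c ν us w *
          (2 * u * PhV h v T (θ / 2) (X1 + 1) p1 J0 e c d ν u us (sgm h v δ kp T ν w) w +
            ind (0 < PhV h v T (θ / 2) (X1 + 1) p1 J0 e c d ν u us 0 w)) =
          2 * u * ∑ us : Fin M → β, wt h v e c ν us w *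
            PhV h v T (θ / 2) (X1 + 1) p1 J0 e c d ν u us (sgm h v δ kp T ν w) w +
          ∑ us : Fin M → β, wt h v e c ν us w * ind (0 < PhV h v T (θ / 2) (X1 + 1) p1 J0 e c d ν u us 0 w) := by
        rw [mul_sum, ← sum_add_distrib]
        exact sum_congr rfl fun us _ => by ring
      rw [e5]
      ring
    rw [e3]
    have q5 : ∑ ν ∈ range (2 * T), (D.P h 0).E (fun w => ind (STq h v δ kp ν w = ν) * ∑ us : Fin M → β,
          wt h v e c ν us w * PhV h v T (θ / 2) (X1 + 1) p1 J0 e c d ν u us (sgm h v δ kp T ν w) w) ≤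
        3 * (9 * n * Lam) + e9 N1 (X1 + 1) u dl M * NeB n N1 Lam δ kp + TnB n N1 Lam dl := by linarith
    have q6 := mul_le_mul_of_nonneg_left q5 (by positivity : (0 : ℝ) ≤ 2 * u)
    linarith
  have h1 := half c d ht
  have h2 := half d c ht.swD
  have h3 : ∑ ν ∈ range (2 * T), (D.P h 0).Pr (fun w => STq h v δ kp ν w = ν) ≤ NeB n N1 Lam δ kp := hNe
  have h4 := mul_le_mul_of_nonneg_left g1 (by positivity : (0 : ℝ) ≤ u / 2)
  have h5 := mul_le_mul_of_nonneg_left h3 (by positivity : (0 : ℝ) ≤ 6 / (u * (M + 1)))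
  unfold CoB
  linarith

theorem odd_le {n N1 Lam θ X1 p1 u dl δ kp : ℝ} {M : ℕ} (hP : Pm n N1 Lam θ X1 p1 u dl δ kp M) (hv : Codes D v)
    (hp : Prc (pr3 (Fin 3) n N1) (SS1 (Fin 3)) N1)
    (R : Run h (pr3 (Fin 3) n N1) (SS1 (Fin 3)) (AdmDep D) v) {dg : ℕ → X → ℝ} {prr : ℕ → Fin 3 → φ → φ} {T : ℕ}
    (H : D.Hyp dg prr al T Lam) {J0 : Finset (Fin 3)} {e c d : Fin 3} (ht : Tri3 J0 e c d)
    (hNe : Nep h v δ kp T ≤ NeB n N1 Lam δ kp) (hTn : Tny h v dl T ≤ TnB n N1 Lam dl) :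
    ∑ r ∈ range (2 * T), (D.P h 0).Pr (fun w => r % 2 = 1 ∧ EvP h v θ X1 J0 c d r w) ≤
      BdO n N1 Lam θ X1 p1 u dl δ kp M := by
  have hdl1 : dl ≤ 1 := by linarith [hP.hdl1, hP.hdl]
  have h1 := thr_MA hP R H hv
  have h4 := static_le hP hv hp R H ht hNe hTn
  have row : ∀ c d : Fin 3, Tri3 J0 e c d → ∑ r ∈ range (2 * T), (D.P h 0).Pr (fun w => r % 2 = 1 ∧ ltq h v r w ∧
      Sq h v c r w ∧ -X1 ≤ lJq h v (insert c J0) r w ∧ p1 < rowm h v (θ / 2) J0 c d (STq h v δ kp r w) w) ≤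
      RoB n N1 Lam θ X1 p1 dl kp := by
    intro c d ht
    have q1 := rows_le R hp H ht (θ := θ / 2) (X1 := X1) (p1 := p1) (dl := dl) (δ := δ) (kp := kp) hP.hX1
      (by linarith [hP.hθ0]) (by linarith [hP.hθ1, hP.hθ0]) hP.hp0 hP.hp1 hP.hδ0 (by linarith [hP.hδ]) hP.hδp hP.hkp0 hP.hdl hdl1
    have q2 := thr_mvc hP R H hv J0 c
    have q3 : ∑ r ∈ range (2 * T), (D.P h 0).Pr (Sq h v c r) ≤ 9 * n * Lam :=
      (strong_le (P := D.P h 0) (N := NPr v D) (La := LJ v {c}) (Ya := PJ {c}) NPr_step (LJ_step {c}) (LJ_PJ {c}) (2 * T)).trans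
        (incr hP.hn hP.hN1 R H {c})
    have hθ := hP.hθ0
    have hp0 := hP.hp0
    have hkp0 := hP.hkp0
    have q4 := mul_le_mul_of_nonneg_left q3 (by positivity : (0 : ℝ) ≤ 2 ^ 12 / (p1 * (θ / 2)) *
      (32 * Real.sqrt ((X1 + Real.log (1 / dl) + 1) / N1)) + 64 / p1 * Real.sqrt kp + 64 / p1 * kp)
    unfold RoB
    linarith
  have h2 := row c d ht
  have h3 := row d c ht.swD
  have key : ∀ r ∈ range (2 * T), (D.P h 0).Pr (fun w => r % 2 = 1 ∧ EvP h v θ X1 J0 c d r w) ≤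
      (D.P h 0).Pr (fun w => ltq h v r w ∧ MAq h v δ (STq h v δ kp r w) r w) +
      (D.P h 0).Pr (fun w => r % 2 = 1 ∧ ltq h v r w ∧ Sq h v c r w ∧ -X1 ≤ lJq h v (insert c J0) r w ∧
        p1 < rowm h v (θ / 2) J0 c d (STq h v δ kp r w) w) +
      (D.P h 0).Pr (fun w => r % 2 = 1 ∧ ltq h v r w ∧ Sq h v d r w ∧ -X1 ≤ lJq h v (insert d J0) r w ∧
        p1 < rowm h v (θ / 2) J0 d c (STq h v δ kp r w) w) +
      (D.P h 0).Pr (fun w => ltq h v r w ∧ Sq h v c r w ∧ Sq h v d r w ∧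
        HRq h v (θ / 2) (X1 + 1) p1 J0 c d (STq h v δ kp r w) w) := by
    intro r _
    refine le_trans ((D.P h 0).Pr_mono (t := fun w => ((( ltq h v r w ∧ MAq h v δ (STq h v δ kp r w) r w) ∨
      (r % 2 = 1 ∧ ltq h v r w ∧ Sq h v c r w ∧ -X1 ≤ lJq h v (insert c J0) r w ∧
        p1 < rowm h v (θ / 2) J0 c d (STq h v δ kp r w) w)) ∨
      (r % 2 = 1 ∧ ltq h v r w ∧ Sq h v d r w ∧ -X1 ≤ lJq h v (insert d J0) r w ∧
        p1 < rowm h v (θ / 2) J0 d c (STq h v δ kp r w) w)) ∨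
      (ltq h v r w ∧ Sq h v c r w ∧ Sq h v d r w ∧ HRq h v (θ / 2) (X1 + 1) p1 J0 c d (STq h v δ kp r w) w)) ?_) ?_
    · intro w hw hh
      rcases odd_cases hP hv ht hh.1 hw hh.2 with a | a | a | a
      · exact Or.inl (Or.inl (Or.inl a))
      · exact Or.inl (Or.inl (Or.inr a))
      · exact Or.inl (Or.inr a)
      · exact Or.inr a
    · refine ((D.P h 0).Pr_or_le _ _).trans (add_le_add_left ?_ _)
      refine ((D.P h 0).Pr_or_le _ _).trans (add_le_add_left ?_ _)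
      exact (D.P h 0).Pr_or_le _ _
  refine (sum_le_sum key).trans ?_
  rw [sum_add_distrib, sum_add_distrib, sum_add_distrib]
  unfold BdO
  linarith

end Pool.Agent.GMH.TD
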