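import Pool.Agent.GMH.TDP
import Pool.Agent.GMH.TD11N
import Pool.Agent.GMH.TD12A
import Pool.Agent.GMH.TD5
import Pool.Agent.GMH.TD3

/-!
# GMH.TD11E: thin dynamics, the totals in the form of `TDP` (helper27)
-/

set_option autoImplicit false
set_option linter.unusedSectionVars false

namespace Pool.Agent.GMH.TD

open Finset Pool.Agent.PWZ Pool.Agent.M3 Pool.Agent.GM Pool.Agent.GM.Harm Pool.Agent.GMH Pool.Agent.GMH.NZ
open Pool.Agent.GMH.V3 Pool.Agent.GMH.Gdy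

variable {X β γ φ : Type} [Fintype X] [Fintype β] [Fintype φ] [Nonempty X] [Nonempty β]
variable {D : HD (Fin 3) X β γ φ} {al : ℝ} {h : D.Thick al} {v : ℕ → Finset (Fin 3) → X → (Fin 3 → β) → Pt (Fin 3) X β φ}

theorem Nep_NeB {n N1 Lam δ kp : ℝ} (hn : 1 ≤ n) (hN1 : 1 ≤ N1) (hδ : 0 < δ) (hδ1 : δ ≤ 1) (hkp : 0 < kp)
    (R : Run h (pr3 (Fin 3) n N1) (SS1 (Fin 3)) (AdmDep D) v) {dg : ℕ → X → ℝ} {prr : ℕ → Fin 3 → φ → φ} {T : ℕ}
    (H : D.Hyp dg prr al T Lam) : Nep h v δ kp T ≤ NeB n N1 Lam δ kp := by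
  have h1 := Nep_le (h := h) (v := v) hδ hδ1 hkp T (Tot := 9 * n * Lam) (fun J => incr hn hN1 R H J) (fun J => by
    have := births hn hN1 R H J
    have h0 : 0 ≤ (D.P h 0).Hc (LJ v J 0) (fun w => (PJ J w, NPr v D 0 w)) := FP.Hc_nonneg _ _ _
    linarith)
  have h2 := light_le hn hN1 R H
  unfold NeB
  linarith

theorem Tny_TnB {n N1 Lam dl : ℝ} (hn : 1 ≤ n) (hN1 : 1 ≤ N1) (hdl : 0 < dl) (hdl1 : 64 * dl ≤ 1)
    (R : Run h (pr3 (Fin 3) n N1) (SS1 (Fin 3)) (AdmDep D) v) (hv : Codes D v) {dg : ℕ → X → ℝ} {prr : ℕ → Fin 3 → φ → φ}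
    {T : ℕ} (H : D.Hyp dg prr al T Lam) : Tny h v dl T ≤ TnB n N1 Lam dl := by
  have h1 := tiny_le (h := h) hv H hdl hdl1
  have h2 := mul_le_mul_of_nonneg_left (bias_le hn hN1 R H) (by positivity : (0 : ℝ) ≤ 64 * dl)
  unfold Tny TnB
  exact h1.trans h2

/-- strong letters in the even half steps -/
theorem Sq_even {n N1 Lam : ℝ} (hn : 1 ≤ n) (hN1 : 1 ≤ N1) (R : Run h (pr3 (Fin 3) n N1) (SS1 (Fin 3)) (AdmDep D) v)
    {dg : ℕ → X → ℝ} {prr : ℕ → Fin 3 → φ → φ} {T : ℕ} (H : D.Hyp dg prr al T Lam) (c : Fin 3) :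
    ∑ t ∈ range T, (D.P h 0).Pr (Sq h v c (2 * t)) ≤ 9 * n * Lam := by
  have h1 : ∑ r ∈ range (2 * T), (D.P h 0).Pr (Sq h v c r) ≤ 9 * n * Lam :=
    (strong_le (P := D.P h 0) (N := NPr v D) (La := LJ v {c}) (Ya := PJ {c}) NPr_step (LJ_step {c}) (LJ_PJ {c}) (2 * T)).trans
      (incr hn hN1 R H {c})
  refine le_trans ?_ h1
  have h2 : ∀ T : ℕ, ∑ t ∈ range T, (D.P h 0).Pr (Sq h v c (2 * t)) ≤ ∑ r ∈ range (2 * T), (D.P h 0).Pr (Sq h v c r) := by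
    intro T
    induction T with
    | zero => simp
    | succ T ih =>
      rw [sum_range_succ, show 2 * (T + 1) = 2 * T + 1 + 1 by ring, sum_range_succ, sum_range_succ]
      linarith [(D.P h 0).Pr_nonneg (Sq h v c (2 * T + 1))]
  exact h2 T

end Pool.Agent.GMH.TD
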