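import Pool.Agent.GMH.TD1
import Pool.Agent.GMH.TD12A

/-!
# GMH.TD12: thin dynamics, digits (plan helper27, proof helper18)

Even half steps `r = 2 t`.  Given the letters of `J0`, `c` and `N_(r+1)`, with `E` = these letters and the digit (an event of the
hidden point): the letter of `d` has the law of the public cell up to `dvC E ≤ sqrt (4 (X1 + log (1/dl) + 1) / N1) P(E)`, and
up to the factor `2` for the cell of the point of `d`.  The deviating letters have small mass in the public cell (`row_tv`).  If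
the digit has probability less than `dl` given the letters: it is light (`Sq`), so `mm ^ 2 ≥ 1/2`.
-/

set_option autoImplicit false
set_option linter.unusedSectionVars false

namespace Pool.Agent.GMH.TD

open Finset Pool.Agent.PWZ Pool.Agent.M3 Pool.Agent.GM Pool.Agent.GM.Harm Pool.Agent.GMH Pool.Agent.GMH.NZ
open Pool.Agent.GMH.V3 Pool.Agent.GMH.Gdy

variable {X β γ φ : Type} [Fintype X] [Fintype β] [Fintype φ] [Nonempty X] [Nonempty β]
variable {D : HD (Fin 3) X β γ φ} {al : ℝ} {h : D.Thick al} {v : ℕ → Finset (Fin 3) → X → (Fin 3 → β) → Pt (Fin 3) X β φ}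
  {N : Finset (Fin 3) → ℝ} {S : Finset (Finset (Fin 3))} {N1 : ℝ}

namespace TA

variable (v) in
/-- hidden points with the letters of `J` as at `w` -/
def GJ (J : Finset (Fin 3)) (s : ℕ) (w : Pt (Fin 3) X β φ) (x : X) : Prop := ∀ j ∈ J, Gl v s w j (XL v s j w) x

theorem ind_all (q : Fin 3 → Prop) : ind (∀ j, q j) = ∏ j, ind (q j) := by
  by_cases hh : ∀ j, q j
  · rw [ind_of hh]
    exact (Finset.prod_eq_one fun j _ => ind_of (hh j)).symm
  · rw [ind_not hh]
    push Not at hh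
    obtain ⟨j, hj⟩ := hh
    exact (Finset.prod_eq_zero (mem_univ j) (ind_not hj)).symm

theorem LJ_cls (hv : Codes D v) {r : ℕ} {u w : Pt (Fin 3) X β φ} (hN : NPr v D r u = NPr v D r w) (J : Finset (Fin 3)) :
    LJ v J r u = LJ v J r w ↔ (∀ j, j ∈ J → u.2.1 j = w.2.1 j) ∧ GJ v J (tm r + 1) w u.1 := by
  have hs : tm r + 1 ≤ nt r + 1 := Nat.succ_le_succ (tm_nt r)
  rw [LJ_iff]
  unfold GJ
  rw [← forall_and]
  refine forall_congr' fun j => ?_
  rw [← imp_and]
  refine imp_congr_right fun _ => ?_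
  exact XL_iff hv hs hN j (XL v (tm r + 1) j w)

/-- **masses in a public cell** -/
theorem cls_E (hv : Codes D v) (r : ℕ) (J : Finset (Fin 3)) (w : Pt (Fin 3) X β φ) (E0 : X → Prop)
    (p : Fin 3 → β → Prop) :
    (D.P h 0).E (fun u => ind (NPr v D r u = NPr v D r w) * (ind (LJ v J r u = LJ v J r w) *
      (ind (E0 u.1) * ∏ j, ind (p j (u.2.1 j))))) =
      (D.P h 0).m (NPr v D r) w * ((muC D v (tm r + 1) (nt r) w).Pr (fun x => GJ v J (tm r + 1) w x ∧ E0 x) *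
        ∏ j, (nuC D (nt r) w j).Pr (fun b => (j ∈ J → b = w.2.1 j) ∧ p j b)) := by
  have hs : tm r + 1 ≤ nt r + 1 := Nat.succ_le_succ (tm_nt r)
  have h1 := cell_E (h := h) hv 0 hs w (fun x => ind (GJ v J (tm r + 1) w x ∧ E0 x))
    (fun j b => ind ((j ∈ J → b = w.2.1 j) ∧ p j b))
  have h2 := cell_Pr (h := h) hv 0 hs w
  have h3 : (D.P h 0).m (NPr v D r) w = (FP.unif X).Pr (cX D v (tm r + 1) (nt r) w) *
      ∏ j, (FP.unif β).Pr (cY D (nt r) w j) := h2
  rw [h3]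
  refine Eq.trans ?_ h1
  refine (D.P h 0).E_congr fun u _ => ?_
  show _ = ind (NPr v D r u = NPr v D r w) * _
  by_cases hN : NPr v D r u = NPr v D r w
  · rw [ind_cg (LJ_cls hv hN J), ind_and, ind_all, ind_and, ← ind_all, ← ind_all, ← ind_all]
    have e1 : ind (∀ j, (j ∈ J → u.2.1 j = w.2.1 j) ∧ p j (u.2.1 j)) =
        ind (∀ j, j ∈ J → u.2.1 j = w.2.1 j) * ind (∀ j, p j (u.2.1 j)) := by
      rw [← ind_and]
      exact ind_cg forall_and
    rw [e1]
    ring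
  · rw [ind_not hN, zero_mul, zero_mul]

/-- the child cell -/
theorem NPr_child (hv : Codes D v) (t : ℕ) (u w : Pt (Fin 3) X β φ) :
    NPr v D (2 * t + 1) u = NPr v D (2 * t + 1) w ↔ NPr v D (2 * t) u = NPr v D (2 * t) w ∧
      (D.qa (t + 1) u.1 = D.qa (t + 1) w.1 ∧ ∀ j, cY D (t + 1) w j (u.2.1 j)) := by
  rw [NPr_odd, NPr_even, NP_iff hv (by omega) w u, NP_iff hv le_rfl w u, cX_succ]
  constructor
  · rintro ⟨⟨h1, h2⟩, h3⟩
    exact ⟨⟨h2, fun j => cY_succ w j _ (h3 j)⟩, h1, h3⟩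
  · rintro ⟨⟨h2, _⟩, h1, h3⟩
    exact ⟨⟨h1, h2⟩, h3⟩

theorem mass_even (hv : Codes D v) (t : ℕ) (J : Finset (Fin 3)) (w : Pt (Fin 3) X β φ) :
    (D.P h 0).m (fun u => (LJ v J (2 * t) u, NPr v D (2 * t) u)) w = (D.P h 0).m (NPr v D (2 * t)) w *
      ((muC D v (t + 1) t w).Pr (GJ v J (t + 1) w) * ∏ j, (nuC D t w j).Pr (fun b => j ∈ J → b = w.2.1 j)) := by
  have h1 := cls_E (h := h) hv (2 * t) J w (fun _ => True) (fun _ _ => True)
  rw [tm_even, nt_even] at h1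
  simp only [and_true, ind_of trivial, Finset.prod_const_one, mul_one] at h1
  refine Eq.trans ?_ h1
  unfold FP.m
  refine (D.P h 0).E_congr fun u _ => ?_
  rw [← ind_and]
  refine ind_cg ?_
  show (LJ v J (2 * t) u, NPr v D (2 * t) u) = (LJ v J (2 * t) w, NPr v D (2 * t) w) ↔ _
  rw [Prod.mk.injEq]
  exact and_comm

/-- letters `J`, points `I` in the child cell -/
theorem mass_odd (hv : Codes D v) (t : ℕ) (J I : Finset (Fin 3)) (w : Pt (Fin 3) X β φ) :
    (D.P h 0).m (fun u => (LJ v J (2 * t) u, PJ I u, NPr v D (2 * t + 1) u)) w = (D.P h 0).m (NPr v D (2 * t)) w *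
      ((muC D v (t + 1) t w).Pr (fun x => GJ v J (t + 1) w x ∧ D.qa (t + 1) x = D.qa (t + 1) w.1) *
        ∏ j, (nuC D t w j).Pr (fun b => (j ∈ J → b = w.2.1 j) ∧ (j ∈ I → b = w.2.1 j) ∧ cY D (t + 1) w j b)) := by
  have h1 := cls_E (h := h) hv (2 * t) J w (fun x => D.qa (t + 1) x = D.qa (t + 1) w.1)
    (fun j b => (j ∈ I → b = w.2.1 j) ∧ cY D (t + 1) w j b)
  rw [tm_even, nt_even] at h1
  refine Eq.trans ?_ h1
  unfold FP.m
  refine (D.P h 0).E_congr fun u _ => ?_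
  rw [← ind_all, ← ind_and, ← ind_and, ← ind_and]
  refine ind_cg ?_
  show (LJ v J (2 * t) u, PJ I u, NPr v D (2 * t + 1) u) = (LJ v J (2 * t) w, PJ I w, NPr v D (2 * t + 1) w) ↔ _
  rw [Prod.mk.injEq, Prod.mk.injEq, NPr_child hv, PJ_iff, forall_and]
  tauto

theorem nu_pos (t : ℕ) (w : Pt (Fin 3) X β φ) (j : Fin 3) {q : β → Prop} (hq : q (w.2.1 j)) : 0 < (nuC D t w j).Pr q := by
  have h1 : (FP.unif β).Pr (cY D t w j) ≠ 0 := V3.unif_ne (cY_self t w j)
  have h2 : ((FP.unif β).cond (cY D t w j)).p (w.2.1 j) ≠ 0 :=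
    (FP.cond_p_ne h1).2 ⟨cY_self t w j, FP.unif_ne β _⟩
  exact FP.Pr_pos_of (P := (FP.unif β).cond (cY D t w j)) (S := q) h2 hq

theorem mu_pos (s t : ℕ) (w : Pt (Fin 3) X β φ) {q : X → Prop} (hq : q w.1) : 0 < (muC D v s t w).Pr q := by
  have h1 : (FP.unif X).Pr (cX D v s t w) ≠ 0 := V3.unif_ne (cX_self s t w)
  have h2 : ((FP.unif X).cond (cX D v s t w)).p w.1 ≠ 0 :=
    (FP.cond_p_ne h1).2 ⟨cX_self s t w, FP.unif_ne X _⟩
  exact FP.Pr_pos_of (P := (FP.unif X).cond (cX D v s t w)) (S := q) h2 hq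

theorem GJ_self (J : Finset (Fin 3)) (s : ℕ) (w : Pt (Fin 3) X β φ) : GJ v J s w w.1 := by
  intro j _
  show Um v s {j} w.1 (Function.update w.2.1 j (w.2.1 j)) = Um v s {j} w.1 w.2.1
  rw [Function.update_eq_self]

/-- the log probability of the letters -/
theorem lJq_even (hv : Codes D v) (t : ℕ) (J : Finset (Fin 3)) {w : Pt (Fin 3) X β φ} (hw : (D.P h 0).p w ≠ 0) :
    lJq h v J (2 * t) w = Real.log ((muC D v (t + 1) t w).Pr (GJ v J (t + 1) w)) := by
  have h1 := mass_even (h := h) hv t J w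
  have h2 : (D.P h 0).m (fun u => (PJ J u, NPr v D (2 * t) u)) w = (D.P h 0).m (NPr v D (2 * t)) w *
      ∏ j, (nuC D t w j).Pr (fun b => j ∈ J → b = w.2.1 j) := by
    have h3 := cls_E (h := h) hv (2 * t) ∅ w (fun _ => True) (fun j b => j ∈ J → b = w.2.1 j)
    rw [tm_even, nt_even] at h3
    have e1 : (muC D v (t + 1) t w).Pr (fun x => GJ v ∅ (t + 1) w x ∧ True) = 1 := by
      have e0 : ∀ x : X, ind (GJ v ∅ (t + 1) w x ∧ True) = 1 := fun x =>
        ind_of ⟨fun j hj => absurd hj (Finset.notMem_empty j), trivial⟩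
      unfold FP.Pr
      simp only [e0]
      exact FP.E_const _ _
    rw [e1, one_mul] at h3
    have e2 : ∀ j : Fin 3, (nuC D t w j).Pr (fun b => (j ∈ (∅ : Finset (Fin 3)) → b = w.2.1 j) ∧ (j ∈ J → b = w.2.1 j)) =
        (nuC D t w j).Pr (fun b => j ∈ J → b = w.2.1 j) := fun j =>
      FP.Pr_congr _ fun b _ => ⟨fun hh => hh.2, fun hh => ⟨fun hj => absurd hj (Finset.notMem_empty j), hh⟩⟩
    rw [Finset.prod_congr rfl fun j _ => e2 j] at h3
    refine Eq.trans ?_ h3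
    unfold FP.m
    refine (D.P h 0).E_congr fun u _ => ?_
    have e3 : LJ v ∅ (2 * t) u = LJ v ∅ (2 * t) w := LJ_iff.2 fun j hj => absurd hj (Finset.notMem_empty j)
    rw [ind_of e3, one_mul, ind_of trivial, one_mul, ← ind_all, ← ind_and]
    refine ind_cg ?_
    show (PJ J u, NPr v D (2 * t) u) = (PJ J w, NPr v D (2 * t) w) ↔ _
    rw [Prod.mk.injEq, PJ_iff]
    exact and_comm
  unfold lJq lq
  rw [h1, h2]
  have a1 : 0 < (D.P h 0).m (NPr v D (2 * t)) w := (D.P h 0).m_pos _ hw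
  have a2 : 0 < ∏ j, (nuC D t w j).Pr (fun b => j ∈ J → b = w.2.1 j) :=
    Finset.prod_pos fun j _ => nu_pos t w j fun _ => rfl
  congr 1
  field_simp

theorem GJ_empty (s : ℕ) (w : Pt (Fin 3) X β φ) (x : X) : GJ v ∅ s w x := fun j hj => absurd hj (Finset.notMem_empty j)

/-- the log probability of the letters in the child cell -/
theorem lqn_even (hv : Codes D v) (t : ℕ) (J : Finset (Fin 3)) {w : Pt (Fin 3) X β φ} (hw : (D.P h 0).p w ≠ 0) :
    lqn (D.P h 0) (NPr v D) (LJ v J) (PJ J) (2 * t) w =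
      Real.log ((muC D v (t + 1) t w).Pr (fun x => GJ v J (t + 1) w x ∧ D.qa (t + 1) x = D.qa (t + 1) w.1) /
        (muC D v (t + 1) t w).Pr (fun x => D.qa (t + 1) x = D.qa (t + 1) w.1)) := by
  have h1 := mass_odd (h := h) hv t J J w
  have h2 := mass_odd (h := h) hv t ∅ J w
  have e1 : (D.P h 0).m (fun u => (LJ v J (2 * t) u, PJ J u, NPr v D (2 * t + 1) u)) w =
      (D.P h 0).m (fun u => (LJ v J (2 * t) u, NPr v D (2 * t + 1) u)) w := by
    refine (D.P h 0).E_congr fun u _ => ind_cg ?_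
    show (LJ v J (2 * t) u, PJ J u, NPr v D (2 * t + 1) u) = (LJ v J (2 * t) w, PJ J w, NPr v D (2 * t + 1) w) ↔
      (LJ v J (2 * t) u, NPr v D (2 * t + 1) u) = (LJ v J (2 * t) w, NPr v D (2 * t + 1) w)
    simp only [Prod.mk.injEq]
    exact ⟨fun hh => ⟨hh.1, hh.2.2⟩, fun hh => ⟨hh.1, LJ_PJ J (2 * t) u w hh.1, hh.2⟩⟩
  have e2 : (D.P h 0).m (fun u => (LJ v ∅ (2 * t) u, PJ J u, NPr v D (2 * t + 1) u)) w =
      (D.P h 0).m (fun u => (PJ J u, NPr v D (2 * t + 1) u)) w := by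
    refine (D.P h 0).E_congr fun u _ => ind_cg ?_
    show (LJ v ∅ (2 * t) u, PJ J u, NPr v D (2 * t + 1) u) = (LJ v ∅ (2 * t) w, PJ J w, NPr v D (2 * t + 1) w) ↔
      (PJ J u, NPr v D (2 * t + 1) u) = (PJ J w, NPr v D (2 * t + 1) w)
    simp only [Prod.mk.injEq]
    exact ⟨fun hh => hh.2, fun hh => ⟨LJ_iff.2 fun j hj => absurd hj (Finset.notMem_empty j), hh⟩⟩
  have e3 : ∀ j : Fin 3, (nuC D t w j).Pr (fun b => (j ∈ J → b = w.2.1 j) ∧ (j ∈ J → b = w.2.1 j) ∧ cY D (t + 1) w j b) =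
      (nuC D t w j).Pr (fun b => (j ∈ (∅ : Finset (Fin 3)) → b = w.2.1 j) ∧ (j ∈ J → b = w.2.1 j) ∧
        cY D (t + 1) w j b) := fun j =>
    FP.Pr_congr _ fun b _ => ⟨fun hh => ⟨fun hj => absurd hj (Finset.notMem_empty j), hh.2⟩, fun hh => ⟨hh.2.1, hh.2⟩⟩
  have e4 : (muC D v (t + 1) t w).Pr (fun x => GJ v ∅ (t + 1) w x ∧ D.qa (t + 1) x = D.qa (t + 1) w.1) =
      (muC D v (t + 1) t w).Pr (fun x => D.qa (t + 1) x = D.qa (t + 1) w.1) :=
    FP.Pr_congr _ fun x _ => ⟨fun hh => hh.2, fun hh => ⟨GJ_empty _ _ _, hh⟩⟩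
  rw [e1, Finset.prod_congr rfl fun j _ => e3 j] at h1
  rw [e2, e4] at h2
  unfold lqn
  rw [h1, h2]
  have a1 : 0 < (D.P h 0).m (NPr v D (2 * t)) w := (D.P h 0).m_pos _ hw
  have a2 : 0 < ∏ j, (nuC D t w j).Pr (fun b => (j ∈ (∅ : Finset (Fin 3)) → b = w.2.1 j) ∧ (j ∈ J → b = w.2.1 j) ∧
      cY D (t + 1) w j b) := Finset.prod_pos fun j _ => nu_pos t w j ⟨fun _ => rfl, fun _ => rfl, cY_self _ _ _⟩
  have a3 : 0 < (muC D v (t + 1) t w).Pr (fun x => D.qa (t + 1) x = D.qa (t + 1) w.1) := mu_pos _ _ _ rfl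
  congr 1
  field_simp

/-- a strong letter at a digit : the digit is light -/
theorem strong_dig (hv : Codes D v) (t : ℕ) (c : Fin 3) {w : Pt (Fin 3) X β φ} (hw : (D.P h 0).p w ≠ 0)
    (hS : Sq h v c (2 * t) w) : (muC D v (t + 1) t w).Pr (fun x => D.qa (t + 1) x = D.qa (t + 1) w.1) ≤ Real.exp (-2) := by
  unfold Sq aJq ai at hS
  have h1 : lq (D.P h 0) (NPr v D) (LJ v {c}) (PJ {c}) (2 * t) w = _ := lJq_even (h := h) hv t {c} hw
  rw [lqn_even hv t {c} hw, h1] at hS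
  set μ := muC D v (t + 1) t w with hμ
  have a1 : 0 < μ.Pr (fun x => GJ v {c} (t + 1) w x ∧ D.qa (t + 1) x = D.qa (t + 1) w.1) :=
    mu_pos _ _ _ ⟨GJ_self _ _ _, rfl⟩
  have a2 : 0 < μ.Pr (fun x => D.qa (t + 1) x = D.qa (t + 1) w.1) := mu_pos _ _ _ rfl
  have a3 : 0 < μ.Pr (GJ v {c} (t + 1) w) := mu_pos _ _ _ (GJ_self _ _ _)
  have a4 : μ.Pr (fun x => GJ v {c} (t + 1) w x ∧ D.qa (t + 1) x = D.qa (t + 1) w.1) ≤ μ.Pr (GJ v {c} (t + 1) w) :=
    FP.Pr_mono _ fun x _ hx => hx.1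
  rw [Real.log_div a1.ne' a2.ne'] at hS
  have a5 := Real.log_le_log a1 a4
  rw [← Real.exp_log a2]
  exact Real.exp_le_exp.2 (by linarith)

/-- the probability of the digit given the letters -/
theorem ce_dig (hv : Codes D v) {dg : ℕ → X → ℝ} {prr : ℕ → Fin 3 → φ → φ} {T : ℕ} {Lam : ℝ} (H : D.Hyp dg prr al T Lam)
    {t : ℕ} (ht : t < T) (J : Finset (Fin 3)) {w : Pt (Fin 3) X β φ} (hw : (D.P h 0).p w ≠ 0) :
    (D.P h 0).ce (fun u => (LJ v J (2 * t) u, NPr v D (2 * t) u)) (fun u => ind (dg t u.1 = dg t w.1)) w =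
      (muC D v (t + 1) t w).Pr (fun x => GJ v J (t + 1) w x ∧ D.qa (t + 1) x = D.qa (t + 1) w.1) /
        (muC D v (t + 1) t w).Pr (GJ v J (t + 1) w) := by
  have h1 := cls_E (h := h) hv (2 * t) J w (fun x => D.qa (t + 1) x = D.qa (t + 1) w.1) (fun _ _ => True)
  rw [tm_even, nt_even] at h1
  simp only [and_true, ind_of trivial, Finset.prod_const_one, mul_one] at h1
  have h2 := mass_even (h := h) hv t J w
  unfold FP.ce
  have e1 : (D.P h 0).E (fun u => ind ((fun u => (LJ v J (2 * t) u, NPr v D (2 * t) u)) u =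
      (fun u => (LJ v J (2 * t) u, NPr v D (2 * t) u)) w) * ind (dg t u.1 = dg t w.1)) =
      (D.P h 0).E (fun u => ind (NPr v D (2 * t) u = NPr v D (2 * t) w) * (ind (LJ v J (2 * t) u = LJ v J (2 * t) w) *
        ind (D.qa (t + 1) u.1 = D.qa (t + 1) w.1))) := by
    refine (D.P h 0).E_congr fun u _ => ?_
    rw [← ind_and, ← ind_and, ← ind_and]
    refine ind_cg ?_
    show (LJ v J (2 * t) u, NPr v D (2 * t) u) = (LJ v J (2 * t) w, NPr v D (2 * t) w) ∧ _ ↔ _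
    rw [Prod.mk.injEq]
    constructor
    · rintro ⟨⟨a1, a2⟩, a3⟩
      have a2' := a2
      rw [NPr_even, NP_iff hv le_rfl w u] at a2'
      exact ⟨a2, a1, (H.dg_cell t ht u.1 w.1).2 ⟨a2'.1.2, a3⟩⟩
    · rintro ⟨a2, a1, a3⟩
      exact ⟨⟨a1, a2⟩, ((H.dg_cell t ht u.1 w.1).1 a3).2⟩
  rw [e1, h1, h2]
  have a1 : 0 < (D.P h 0).m (NPr v D (2 * t)) w := (D.P h 0).m_pos _ hw
  have a2 : 0 < ∏ j, (nuC D t w j).Pr (fun b => j ∈ J → b = w.2.1 j) :=
    Finset.prod_pos fun j _ => nu_pos t w j fun _ => rfl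
  have a3 : 0 < (muC D v (t + 1) t w).Pr (GJ v J (t + 1) w) := mu_pos _ _ _ (GJ_self _ _ _)
  field_simp

theorem nu_half {dg : ℕ → X → ℝ} {prr : ℕ → Fin 3 → φ → φ} {T : ℕ} {Lam : ℝ} (H : D.Hyp dg prr al T Lam) {t : ℕ}
    (ht : t < T) (w : Pt (Fin 3) X β φ) (j : Fin 3) : 1 / 2 ≤ (nuC D t w j).Pr (cY D (t + 1) w j) := by
  have hA : (FP.unif β).Pr (cY D t w j) ≠ 0 := V3.unif_ne (cY_self t w j)
  have hA0 : 0 < (FP.unif β).Pr (cY D t w j) := lt_of_le_of_ne (FP.Pr_nonneg _ _) (Ne.symm hA)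
  have h1 := cY_half H ht w j
  have h2 : (nuC D t w j).Pr (cY D (t + 1) w j) = (FP.unif β).Pr (cY D (t + 1) w j) / (FP.unif β).Pr (cY D t w j) := by
    unfold nuC
    show ((FP.unif β).cond (cY D t w j)).E (fun b => ind (cY D (t + 1) w j b)) = _
    rw [FP.cond_E hA]
    congr 1
    unfold FP.Pr
    refine FP.E_congr _ fun b _ => ?_
    rw [← ind_and]
    exact ind_cg ⟨fun hh => hh.2, fun hh => ⟨cY_succ w j b hh, hh⟩⟩
  rw [h2, le_div_iff₀ hA0]
  linarith

/-- **one row in the child cell** -/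
theorem row_child (hv : Codes D v) {dg : ℕ → X → ℝ} {prr : ℕ → Fin 3 → φ → φ} {T : ℕ} {Lam : ℝ}
    (H : D.Hyp dg prr al T Lam) {t : ℕ} (ht : t < T) {I : Finset (Fin 3)} {d : Fin 3} (hd : d ∉ I)
    {w : Pt (Fin 3) X β φ} (hw : (D.P h 0).p w ≠ 0) (B : β × List (Pt (Fin 3) X β φ) → Prop) {κ : ℝ}
    (hκ : dvC D v (t + 1) t w d (fun x => GJ v I (t + 1) w x ∧ D.qa (t + 1) x = D.qa (t + 1) w.1) ≤
      κ * (muC D v (t + 1) t w).Pr (fun x => GJ v I (t + 1) w x ∧ D.qa (t + 1) x = D.qa (t + 1) w.1)) :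
    (D.P h 0).ce (fun u => (LJ v I (2 * t) u, NPr v D (2 * t + 1) u)) (fun u => ind (B (XLr v (2 * t) d u))) w ≤
      2 * ((clq h v (2 * t) w).Pr (fun u => B (XLr v (2 * t) d u)) + κ) := by
  classical
  set μ := muC D v (t + 1) t w with hμ
  set E : X → Prop := fun x => GJ v I (t + 1) w x ∧ D.qa (t + 1) x = D.qa (t + 1) w.1 with hE
  set M := (D.P h 0).m (NPr v D (2 * t)) w with hM
  set R : ℝ := ∏ j ∈ univ.erase d, (nuC D t w j).Pr (fun b => (j ∈ I → b = w.2.1 j) ∧ cY D (t + 1) w j b) with hR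
  set cd : ℝ := (nuC D t w d).Pr (cY D (t + 1) w d) with hcd
  have hM0 : 0 < M := (D.P h 0).m_pos _ hw
  have hR0 : 0 < R := Finset.prod_pos fun j _ => nu_pos t w j ⟨fun _ => rfl, cY_self _ _ _⟩
  have hE0 : 0 < μ.Pr E := mu_pos _ _ _ ⟨GJ_self _ _ _, rfl⟩
  have hcd0 : 1 / 2 ≤ cd := nu_half H ht w d
  set PB := (clq h v (2 * t) w).Pr (fun u => B (XLr v (2 * t) d u)) with hPB
  have hPB0 : 0 ≤ PB := FP.Pr_nonneg _ _
  -- the denominator
  have den : (D.P h 0).m (fun u => (LJ v I (2 * t) u, NPr v D (2 * t + 1) u)) w = M * (μ.Pr E * (cd * R)) := by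
    have h1 := cls_E (h := h) hv (2 * t) I w (fun x => D.qa (t + 1) x = D.qa (t + 1) w.1) (fun j b => cY D (t + 1) w j b)
    rw [tm_even, nt_even, ← Finset.mul_prod_erase univ (fun j => (nuC D t w j).Pr
      (fun b => (j ∈ I → b = w.2.1 j) ∧ cY D (t + 1) w j b)) (mem_univ d)] at h1
    have e1 : (nuC D t w d).Pr (fun b => (d ∈ I → b = w.2.1 d) ∧ cY D (t + 1) w d b) = cd :=
      FP.Pr_congr _ fun b _ => ⟨fun hh => hh.2, fun hh => ⟨fun hj => absurd hj hd, hh⟩⟩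
    rw [e1] at h1
    refine Eq.trans ?_ h1
    unfold FP.m
    refine (D.P h 0).E_congr fun u _ => ?_
    rw [← ind_all, ← ind_and, ← ind_and, ← ind_and]
    refine ind_cg ?_
    show (LJ v I (2 * t) u, NPr v D (2 * t + 1) u) = (LJ v I (2 * t) w, NPr v D (2 * t + 1) w) ↔ _
    rw [Prod.mk.injEq, NPr_child hv]
    tauto
  -- one letter of `d`
  have one : ∀ z, (D.P h 0).E (fun u => ind ((fun u => (LJ v I (2 * t) u, NPr v D (2 * t + 1) u)) u =
      (fun u => (LJ v I (2 * t) u, NPr v D (2 * t + 1) u)) w) * ind (XLr v (2 * t) d u = z)) ≤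
      M * R * (mC D t w d z.1 * μ.Pr fun x => E x ∧ Gl v (t + 1) w d z x) := by
    intro z
    have h1 := cls_E (h := h) hv (2 * t) I w (fun x => D.qa (t + 1) x = D.qa (t + 1) w.1 ∧ Gl v (t + 1) w d z x)
      (fun j b => if j = d then b = z.1 else cY D (t + 1) w j b)
    rw [tm_even, nt_even, ← Finset.mul_prod_erase univ (fun j => (nuC D t w j).Pr
      (fun b => (j ∈ I → b = w.2.1 j) ∧ if j = d then b = z.1 else cY D (t + 1) w j b)) (mem_univ d)] at h1
    have e1 : (nuC D t w d).Pr (fun b => (d ∈ I → b = w.2.1 d) ∧ if d = d then b = z.1 else cY D (t + 1) w d b) =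
        mC D t w d z.1 := by
      refine FP.Pr_congr _ fun b _ => ?_
      rw [if_pos rfl]
      exact ⟨fun hh => hh.2, fun hh => ⟨fun hj => absurd hj hd, hh⟩⟩
    have e2 : ∏ j ∈ univ.erase d, (nuC D t w j).Pr
        (fun b => (j ∈ I → b = w.2.1 j) ∧ if j = d then b = z.1 else cY D (t + 1) w j b) = R := by
      refine Finset.prod_congr rfl fun j hj => ?_
      have hj' := Finset.ne_of_mem_erase hj
      refine FP.Pr_congr _ fun b _ => ?_
      rw [if_neg hj']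
    have e3 : μ.Pr (fun x => GJ v I (t + 1) w x ∧ (D.qa (t + 1) x = D.qa (t + 1) w.1 ∧ Gl v (t + 1) w d z x)) =
        μ.Pr fun x => E x ∧ Gl v (t + 1) w d z x := FP.Pr_congr _ fun x _ => and_assoc.symm
    rw [e1, e2, e3] at h1
    have e4 : M * R * (mC D t w d z.1 * μ.Pr fun x => E x ∧ Gl v (t + 1) w d z x) =
        M * ((μ.Pr fun x => E x ∧ Gl v (t + 1) w d z x) * (mC D t w d z.1 * R)) := by ring
    rw [e4, ← h1]
    refine (D.P h 0).E_mono fun u _ => ?_
    rw [← ind_all, ← ind_and, ← ind_and, ← ind_and, ← ind_and]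
    refine ind_mono ?_
    rintro ⟨a1, a2⟩
    have a3 : (LJ v I (2 * t) u, NPr v D (2 * t + 1) u) = (LJ v I (2 * t) w, NPr v D (2 * t + 1) w) := a1
    rw [Prod.mk.injEq, NPr_child hv] at a3
    obtain ⟨b1, b2, b3, b4⟩ := a3
    have b5 : NP D v (t + 1) t u = NP D v (t + 1) t w := by rw [← NPr_even]; exact b2
    have b6 : XL v (t + 1) d u = z := by
      have : XLr v (2 * t) d u = XL v (t + 1) d u := by unfold XLr; rw [tm_even]
      rw [← this]; exact a2
    have b7 := (XL_iff hv le_rfl b5 d z).1 b6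
    refine ⟨b2, b1, ⟨b3, b7.2⟩, fun j => ?_⟩
    by_cases hj : j = d
    · rw [if_pos hj, hj]; exact b7.1
    · rw [if_neg hj]; exact b4 j
  -- the numerator
  have num : (D.P h 0).E (fun u => ind ((fun u => (LJ v I (2 * t) u, NPr v D (2 * t + 1) u)) u =
      (fun u => (LJ v I (2 * t) u, NPr v D (2 * t + 1) u)) w) * ind (B (XLr v (2 * t) d u))) ≤
      M * R * (μ.Pr E * PB + κ * μ.Pr E) := by
    have e1 : (D.P h 0).E (fun u => ind ((fun u => (LJ v I (2 * t) u, NPr v D (2 * t + 1) u)) u =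
        (fun u => (LJ v I (2 * t) u, NPr v D (2 * t + 1) u)) w) * ind (B (XLr v (2 * t) d u))) =
        ∑ z ∈ vals (XLr (φ := φ) v (2 * t) d), ind (B z) * (D.P h 0).E (fun u =>
          ind ((fun u => (LJ v I (2 * t) u, NPr v D (2 * t + 1) u)) u =
            (fun u => (LJ v I (2 * t) u, NPr v D (2 * t + 1) u)) w) * ind (XLr v (2 * t) d u = z)) := by
      rw [Finset.sum_congr rfl fun z _ => ((D.P h 0).E_smul (ind (B z)) _).symm, ← (D.P h 0).E_sum]
      refine (D.P h 0).E_congr fun u _ => ?_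
      have h3 := FP.sum_vals (XLr (φ := φ) v (2 * t) d) (fun z => ind (B z)) u
      rw [← h3, Finset.mul_sum]
      exact Finset.sum_congr rfl fun z _ => by ring
    rw [e1]
    have h4 : ∀ z ∈ vals (XLr (φ := φ) v (2 * t) d), ind (B z) * (D.P h 0).E (fun u =>
          ind ((fun u => (LJ v I (2 * t) u, NPr v D (2 * t + 1) u)) u =
            (fun u => (LJ v I (2 * t) u, NPr v D (2 * t + 1) u)) w) * ind (XLr v (2 * t) d u = z)) ≤
        M * R * (μ.Pr E * (lw (clq h v (2 * t) w) (XLr v (2 * t) d) z * ind (B z)) +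
          mC D t w d z.1 * |μ.Pr (fun x => E x ∧ Gl v (t + 1) w d z x) - μ.Pr E * μ.Pr (Gl v (t + 1) w d z)|) := by
      intro z _
      have e2 : lw (clq h v (2 * t) w) (XLr v (2 * t) d) z = mC D t w d z.1 * μ.Pr (Gl v (t + 1) w d z) := by
        have h5 := Pc_lw (h := h) hv 0 (s := t + 1) (n := t) le_rfl w d z
        unfold clq XLr
        rw [tm_even, nt_even]
        exact h5
      rw [e2]
      by_cases hB : B z
      · rw [ind_of hB, one_mul, mul_one]
        refine (one z).trans (mul_le_mul_of_nonneg_left ?_ (mul_nonneg hM0.le hR0.le))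
        have h6 : μ.Pr (fun x => E x ∧ Gl v (t + 1) w d z x) ≤ μ.Pr E * μ.Pr (Gl v (t + 1) w d z) +
            |μ.Pr (fun x => E x ∧ Gl v (t + 1) w d z x) - μ.Pr E * μ.Pr (Gl v (t + 1) w d z)| := by
          have := le_abs_self (μ.Pr (fun x => E x ∧ Gl v (t + 1) w d z x) - μ.Pr E * μ.Pr (Gl v (t + 1) w d z))
          linarith
        have h7 := mul_le_mul_of_nonneg_left h6 (mC_nonneg (D := D) t w d z.1)
        linarith
      · rw [ind_not hB, zero_mul, mul_zero, mul_zero, zero_add]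
        exact mul_nonneg (mul_nonneg hM0.le hR0.le) (mul_nonneg (mC_nonneg _ _ _ _) (abs_nonneg _))
    refine (Finset.sum_le_sum h4).trans ?_
    rw [← Finset.mul_sum, Finset.sum_add_distrib, ← Finset.mul_sum]
    refine mul_le_mul_of_nonneg_left ?_ (mul_nonneg hM0.le hR0.le)
    have h8 : ∑ z ∈ vals (XLr (φ := φ) v (2 * t) d), lw (clq h v (2 * t) w) (XLr v (2 * t) d) z * ind (B z) = PB :=
      sum_lw (clq h v (2 * t) w) (XLr v (2 * t) d) fun z => ind (B z)
    rw [h8]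
    refine add_le_add le_rfl (le_trans (le_of_eq ?_) hκ)
    have e5 : XLr (φ := φ) v (2 * t) d = XL (φ := φ) v (t + 1) d := by
      funext u
      unfold XLr
      rw [tm_even]
    unfold dvC
    rw [e5]
  -- the quotient
  unfold FP.ce
  have hcdp : 0 < cd := lt_of_lt_of_le (by norm_num) hcd0
  rw [den, div_le_iff₀ (mul_pos hM0 (mul_pos hE0 (mul_pos hcdp hR0)))]
  refine num.trans ?_
  have h9 : 0 ≤ κ := by
    by_contra hcon
    have h10 : 0 ≤ dvC D v (t + 1) t w d E :=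
      Finset.sum_nonneg fun z _ => mul_nonneg (mC_nonneg _ _ _ _) (abs_nonneg _)
    have h11 := mul_neg_of_neg_of_pos (not_le.1 hcon) hE0
    linarith
  have h12 : 2 * (PB + κ) * (M * (μ.Pr E * (cd * R))) = 2 * cd * (M * R * (μ.Pr E * (PB + κ))) := by ring
  have h13 : M * R * (μ.Pr E * PB + κ * μ.Pr E) = M * R * (μ.Pr E * (PB + κ)) := by ring
  rw [h12, h13]
  have h14 : 0 ≤ M * R * (μ.Pr E * (PB + κ)) :=
    mul_nonneg (mul_nonneg hM0.le hR0.le) (mul_nonneg hE0.le (add_nonneg hPB0 h9))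
  have h15 := mul_le_mul_of_nonneg_right hcd0 h14
  linarith

/-- labels of the time `t` for the same positions -/
theorem lab_ex (h : D.Thick al) (t : ℕ) {w : Pt (Fin 3) X β φ} (hw : (D.P h 0).p w ≠ 0) :
    ∃ f : Fin 3 → φ, (D.P h t).p (w.1, w.2.1, f) ≠ 0 := by
  by_contra hcon
  push Not at hcon
  have h1 : Fac (fun u : Pt (Fin 3) X β φ => (u.1, u.2.1)) (fun u => ind ((u.1, u.2.1) = (w.1, w.2.1))) := by
    intro a b hab
    have hab' : (a.1, a.2.1) = (b.1, b.2.1) := hab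
    show ind ((a.1, a.2.1) = (w.1, w.2.1)) = ind ((b.1, b.2.1) = (w.1, w.2.1))
    rw [hab']
  have h2 := law0 (h := h) t h1
  have h3 : (D.P h t).E (fun u => ind ((u.1, u.2.1) = (w.1, w.2.1))) = 0 := by
    have h4 : (D.P h t).E (fun u => ind ((u.1, u.2.1) = (w.1, w.2.1))) = (D.P h t).E fun _ => 0 := by
      refine (D.P h t).E_congr fun u hu => ?_
      refine ind_not fun hh => hu ?_
      have h5 : u = (w.1, w.2.1, u.2.2) := Prod.ext (Prod.mk.inj hh).1 (Prod.ext (Prod.mk.inj hh).2 rfl)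
      rw [h5]
      exact hcon _
    rw [h4]
    exact FP.E_const _ _
  rw [h3] at h2
  have h6 : 0 < (D.P h 0).Pr (fun u => (u.1, u.2.1) = (w.1, w.2.1)) := FP.Pr_pos_of hw rfl
  have h7 : (D.P h 0).Pr (fun u => (u.1, u.2.1) = (w.1, w.2.1)) = 0 := h2.symm
  exact h6.ne' h7

/-- `dvC_le` at the law of the time `0` -/
theorem dvC_le0 (R : Run h N S (AdmDep D) v) (hp : Prc N S N1) (t : ℕ) {w : Pt (Fin 3) X β φ}
    (hw : (D.P h 0).p w ≠ 0) (k : Fin 3) {E : X → Prop} {a : ℝ} (ha : Real.exp (-a) ≤ (muC D v (t + 1) t w).Pr E) :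
    dvC D v (t + 1) t w k E ≤ Real.sqrt (4 * (a + 1) / N1) * (muC D v (t + 1) t w).Pr E := by
  obtain ⟨f, hf⟩ := lab_ex h t hw
  exact dvC_le R hp.nn hp.e0 hp.s1 hp.n0 hp.n1 (lt_of_lt_of_le one_pos hp.pos) t hf k (E := E) ha

/-- the mean of the digit and the probability of the digit in the public cell -/
theorem digit_Pr0 (hv : Codes D v) {dg : ℕ → X → ℝ} {prr : ℕ → Fin 3 → φ → φ} {T : ℕ} {Lam : ℝ}
    (H : D.Hyp dg prr al T Lam) {t : ℕ} (ht : t < T) {w : Pt (Fin 3) X β φ} (hw : (D.P h 0).p w ≠ 0) :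
    (muC D v (t + 1) t w).Pr (fun x => D.qa (t + 1) x = D.qa (t + 1) w.1) =
      (1 + dg t w.1 * mm (UU v) h dg t w) / 2 := by
  obtain ⟨f, hf⟩ := lab_ex h t hw
  have h1 := digit_Pr (h := h) hv H ht hf
  have h2 : mm (UU v) h dg t (w.1, w.2.1, f) = mm (UU v) h dg t w := by
    rw [V3.DA.mm_NP, V3.DA.mm_NP]
    exact (D.P h t).ce_fac (NP D v (t + 1) t) _ _ _ rfl
  rw [h2] at h1
  exact h1

/-- the law of the letter of `d` given the letters of `J`, even half steps -/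
theorem QF_even (hv : Codes D v) (t : ℕ) {J : Finset (Fin 3)} {d : Fin 3} (hd : d ∉ J) {w : Pt (Fin 3) X β φ}
    (hw : (D.P h 0).p w ≠ 0) (z : β × List (Pt (Fin 3) X β φ)) :
    lw (QF h v J (2 * t) w) (XLr v (2 * t) d) z = mC D t w d z.1 *
      (muC D v (t + 1) t w).Pr (fun x => GJ v J (t + 1) w x ∧ Gl v (t + 1) w d z x) /
        (muC D v (t + 1) t w).Pr (GJ v J (t + 1) w) := by
  set μ := muC D v (t + 1) t w with hμ
  set M := (D.P h 0).m (NPr v D (2 * t)) w with hM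
  set R : ℝ := ∏ j ∈ univ.erase d, (nuC D t w j).Pr (fun b => j ∈ J → b = w.2.1 j) with hR
  have hM0 : 0 < M := (D.P h 0).m_pos _ hw
  have hR0 : 0 < R := Finset.prod_pos fun j _ => nu_pos t w j fun _ => rfl
  have hG0 : 0 < μ.Pr (GJ v J (t + 1) w) := mu_pos _ _ _ (GJ_self _ _ _)
  have h1 := cls_E (h := h) hv (2 * t) J w (fun x => Gl v (t + 1) w d z x) (fun j b => j = d → b = z.1)
  rw [tm_even, nt_even, ← Finset.mul_prod_erase univ (fun j => (nuC D t w j).Pr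
    (fun b => (j ∈ J → b = w.2.1 j) ∧ (j = d → b = z.1))) (mem_univ d)] at h1
  have e1 : (nuC D t w d).Pr (fun b => (d ∈ J → b = w.2.1 d) ∧ (d = d → b = z.1)) = mC D t w d z.1 :=
    FP.Pr_congr _ fun b _ => ⟨fun hh => hh.2 rfl, fun hh => ⟨fun hj => absurd hj hd, fun _ => hh⟩⟩
  have e2 : ∏ j ∈ univ.erase d, (nuC D t w j).Pr (fun b => (j ∈ J → b = w.2.1 j) ∧ (j = d → b = z.1)) = R := by
    refine Finset.prod_congr rfl fun j hj => ?_
    have hj' := Finset.ne_of_mem_erase hj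
    exact FP.Pr_congr _ fun b _ => ⟨fun hh => hh.1, fun hh => ⟨hh, fun hj2 => absurd hj2 hj'⟩⟩
  rw [e1, e2] at h1
  have h2 := mass_even (h := h) hv t J w
  rw [← Finset.mul_prod_erase univ (fun j => (nuC D t w j).Pr (fun b => j ∈ J → b = w.2.1 j)) (mem_univ d)] at h2
  have e3 : (nuC D t w d).Pr (fun b => d ∈ J → b = w.2.1 d) = 1 := by
    have e0 : ∀ b : β, ind (d ∈ J → b = w.2.1 d) = 1 := fun b => ind_of fun hj => absurd hj hd
    unfold FP.Pr
    simp only [e0]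
    exact FP.E_const _ _
  rw [e3, one_mul, ← hM, ← hR, ← hμ] at h2
  have e4 : (D.P h 0).Pr (fun u => NPr v D (2 * t) u = NPr v D (2 * t) w ∧ LJ v J (2 * t) u = LJ v J (2 * t) w) =
      (D.P h 0).m (fun u => (LJ v J (2 * t) u, NPr v D (2 * t) u)) w := by
    refine (D.P h 0).E_congr fun u _ => ind_cg ?_
    show _ ↔ (LJ v J (2 * t) u, NPr v D (2 * t) u) = (LJ v J (2 * t) w, NPr v D (2 * t) w)
    rw [Prod.mk.injEq]
    exact and_comm
  have h0 : (D.P h 0).Pr (fun u => NPr v D (2 * t) u = NPr v D (2 * t) w ∧ LJ v J (2 * t) u = LJ v J (2 * t) w) ≠ 0 := by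
    rw [e4]
    exact ((D.P h 0).m_pos _ hw).ne'
  unfold lw QF
  rw [FP.cond_E h0, e4, h2]
  have e5 : (D.P h 0).E (fun u => ind (NPr v D (2 * t) u = NPr v D (2 * t) w ∧ LJ v J (2 * t) u = LJ v J (2 * t) w) *
      ind (XLr v (2 * t) d u = z)) = M * ((μ.Pr fun x => GJ v J (t + 1) w x ∧ Gl v (t + 1) w d z x) *
        (mC D t w d z.1 * R)) := by
    rw [← h1]
    refine (D.P h 0).E_congr fun u _ => ?_
    rw [← ind_all, ← ind_and, ← ind_and, ← ind_and, ← ind_and]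
    refine ind_cg ?_
    have b5 : XLr v (2 * t) d u = XL v (t + 1) d u := by unfold XLr; rw [tm_even]
    rw [b5]
    constructor
    · rintro ⟨⟨a1, a2⟩, a3⟩
      have a4 : NP D v (t + 1) t u = NP D v (t + 1) t w := by rw [← NPr_even]; exact a1
      have a5 := (XL_iff hv le_rfl a4 d z).1 a3
      exact ⟨a1, a2, a5.2, fun j hj => by rw [hj]; exact a5.1⟩
    · rintro ⟨a1, a2, a3, a5⟩
      have a4 : NP D v (t + 1) t u = NP D v (t + 1) t w := by rw [← NPr_even]; exact a1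
      exact ⟨⟨a1, a2⟩, (XL_iff hv le_rfl a4 d z).2 ⟨a5 d rfl, a3⟩⟩
  rw [e5]
  field_simp

/-- rows at even half steps -/
theorem row_even (R : Run h N S (AdmDep D) v) (hp : Prc N S N1) (t : ℕ) {J : Finset (Fin 3)} {d : Fin 3} (hd : d ∉ J)
    {w : Pt (Fin 3) X β φ} (hw : (D.P h 0).p w ≠ 0) {X1 : ℝ} (hX : -X1 ≤ lJq h v J (2 * t) w) :
    ∑ z ∈ vals (XLr (φ := φ) v (2 * t) d), |lw (QF h v J (2 * t) w) (XLr v (2 * t) d) z -
      lw (clq h v (2 * t) w) (XLr v (2 * t) d) z| ≤ Real.sqrt (4 * (X1 + 1) / N1) := by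
  have hv := R.codes
  have hG0 : 0 < (muC D v (t + 1) t w).Pr (GJ v J (t + 1) w) := mu_pos _ _ _ (GJ_self _ _ _)
  have ha : Real.exp (-X1) ≤ (muC D v (t + 1) t w).Pr (GJ v J (t + 1) w) := by
    rw [lJq_even hv t J hw] at hX
    rw [← Real.exp_log hG0]
    exact Real.exp_le_exp.2 hX
  have h1 := dvC_le0 R hp t hw d (E := GJ v J (t + 1) w) ha
  rw [← div_le_iff₀ hG0] at h1
  refine le_trans (le_of_eq ?_) h1
  have e5 : XLr (φ := φ) v (2 * t) d = XL (φ := φ) v (t + 1) d := by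
    funext u
    unfold XLr
    rw [tm_even]
  unfold dvC
  rw [Finset.sum_div, e5]
  refine Finset.sum_congr rfl fun z _ => ?_
  have h2 := QF_even (h := h) hv t hd hw z
  rw [e5] at h2
  have h3 : lw (clq h v (2 * t) w) (XL v (t + 1) d) z = mC D t w d z.1 * (muC D v (t + 1) t w).Pr (Gl v (t + 1) w d z) := by
    have h5 := Pc_lw (h := h) hv 0 (s := t + 1) (n := t) le_rfl w d z
    unfold clq
    rw [tm_even, nt_even]
    exact h5
  rw [h2, h3]
  set a := (muC D v (t + 1) t w).Pr (GJ v J (t + 1) w) with ha'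
  set b := (muC D v (t + 1) t w).Pr (fun x => GJ v J (t + 1) w x ∧ Gl v (t + 1) w d z x)
  set g := (muC D v (t + 1) t w).Pr (Gl v (t + 1) w d z)
  have h4 : mC D t w d z.1 * b / a - mC D t w d z.1 * g = mC D t w d z.1 * ((b - a * g) / a) := by
    field_simp
  rw [h4, abs_mul, abs_of_nonneg (mC_nonneg t w d z.1), abs_div, abs_of_pos hG0, mul_div_assoc]

/-- **the deviating letters have small mass in the public cell** -/
theorem base_small (R : Run h N S (AdmDep D) v) (hp : Prc N S N1) {J0 : Finset (Fin 3)} {e c d : Fin 3} (ht : Tri3 J0 e c d)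
    {θ X1 dl : ℝ} (hθ0 : 0 < θ) (hθ1 : θ ≤ 1) (hX1 : 0 ≤ X1) (hdl : 0 < dl) (hdl1 : dl ≤ 1) {t : ℕ}
    {w : Pt (Fin 3) X β φ} (hw : (D.P h 0).p w ≠ 0) (hX : -X1 ≤ lJq h v (insert c J0) (2 * t) w) :
    (clq h v (2 * t) w).Pr (fun u => dvp h v θ J0 c d (2 * t) w u) ≤
      96 / θ * Real.sqrt ((X1 + Real.log (1 / dl) + 1) / N1) := by
  set s := Real.sqrt ((X1 + Real.log (1 / dl) + 1) / N1) with hs
  have hlog : 0 ≤ Real.log (1 / dl) := Real.log_nonneg (by rw [le_div_iff₀ hdl]; linarith)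
  have hN1 : 0 < N1 := lt_of_lt_of_le one_pos hp.pos
  have hsq : Real.sqrt (4 * (X1 + 1) / N1) ≤ 32 * s := by
    have e3 : (32 : ℝ) * s = Real.sqrt (32 ^ 2 * ((X1 + Real.log (1 / dl) + 1) / N1)) := by
      rw [Real.sqrt_mul (by norm_num), Real.sqrt_sq (by norm_num)]
    rw [e3]
    refine Real.sqrt_le_sqrt ?_
    rw [← mul_div_assoc]
    refine div_le_div_of_nonneg_right ?_ hN1.le
    nlinarith
  have hdI : d ∉ insert c J0 := by
    rw [Finset.mem_insert, not_or]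
    exact ⟨ht.cd.symm, ht.nd⟩
  have hX0 : -X1 ≤ lJq h v J0 (2 * t) w := by
    refine hX.trans ?_
    rw [lJq_even R.codes t _ hw, lJq_even R.codes t _ hw]
    refine Real.log_le_log (mu_pos _ _ _ (GJ_self _ _ _)) (FP.Pr_mono _ fun x _ hx j hj => hx j ?_)
    exact Finset.mem_insert_of_mem hj
  have r1 := (row_even R hp t hdI hw hX).trans hsq
  have r0 := (row_even R hp t ht.nd hw hX0).trans hsq
  set Q1 := QF h v (insert c J0) (2 * t) w with hQ1
  set Q0 := QF h v J0 (2 * t) w with hQ0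
  set P := clq h v (2 * t) w with hP
  set L := XLr (φ := φ) v (2 * t) d with hL
  have e1 : P.Pr (fun u => dvp h v θ J0 c d (2 * t) w u) = ∑ z ∈ vals L, lw P L z * ind (θ < |rt Q1 Q0 L z - 1|) :=
    (sum_lw P L fun z => ind (θ < |rt Q1 Q0 L z - 1|)).symm
  have key : ∀ z ∈ vals L, lw P L z * ind (θ < |rt Q1 Q0 L z - 1|) ≤
      1 / θ * (|lw Q1 L z - lw P L z| + |lw Q0 L z - lw P L z|) + |lw Q0 L z - lw P L z| := by
    intro z _
    have a0 : 0 ≤ 1 / θ * (|lw Q1 L z - lw P L z| + |lw Q0 L z - lw P L z|) := by positivity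
    have a1 := abs_nonneg (lw Q0 L z - lw P L z)
    have a2 := neg_abs_le (lw Q0 L z - lw P L z)
    by_cases hz : θ < |rt Q1 Q0 L z - 1|
    · rw [ind_of hz, mul_one]
      rcases eq_or_ne (lw Q0 L z) 0 with h0 | h0
      · rw [h0] at a1 a2 ⊢
        rw [h0] at a0
        linarith
      · have h1 : 0 < lw Q0 L z := lt_of_le_of_ne (lw_nonneg _ _ _) (Ne.symm h0)
        have h2 : θ * lw Q0 L z ≤ |lw Q1 L z - lw Q0 L z| := by
          have h3 : rt Q1 Q0 L z - 1 = (lw Q1 L z - lw Q0 L z) / lw Q0 L z := by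
            unfold rt
            field_simp
          rw [h3, abs_div, abs_of_pos h1, lt_div_iff₀ h1] at hz
          exact hz.le
        have h4 : |lw Q1 L z - lw Q0 L z| ≤ |lw Q1 L z - lw P L z| + |lw Q0 L z - lw P L z| := by
          have := abs_sub_le (lw Q1 L z) (lw P L z) (lw Q0 L z)
          rw [abs_sub_comm (lw P L z)] at this
          exact this
        have h5 : lw Q0 L z ≤ 1 / θ * (|lw Q1 L z - lw P L z| + |lw Q0 L z - lw P L z|) := by
          rw [one_div, inv_mul_eq_div, le_div_iff₀ hθ0]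
          linarith
        linarith
    · rw [ind_not hz, mul_zero]
      linarith
  rw [e1]
  refine (Finset.sum_le_sum key).trans ?_
  rw [Finset.sum_add_distrib, ← Finset.mul_sum, Finset.sum_add_distrib]
  have hs0 : 0 ≤ s := Real.sqrt_nonneg _
  have h6 : 1 / θ * ((∑ z ∈ vals L, |lw Q1 L z - lw P L z|) + ∑ z ∈ vals L, |lw Q0 L z - lw P L z|) ≤
      1 / θ * (32 * s + 32 * s) := mul_le_mul_of_nonneg_left (add_le_add r1 r0) (by positivity)
  have h7 : 32 * s ≤ 1 / θ * (32 * s) := by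
    rw [one_div, inv_mul_eq_div, le_div_iff₀ hθ0]
    nlinarith
  have h8 : 96 / θ * s = 1 / θ * (32 * s + 32 * s) + 1 / θ * (32 * s) := by ring
  rw [h8]
  linarith

/-- light digits given the letters -/
theorem light_dig (hv : Codes D v) {dg : ℕ → X → ℝ} {prr : ℕ → Fin 3 → φ → φ} {T : ℕ} {Lam : ℝ}
    (H : D.Hyp dg prr al T Lam) {t : ℕ} (ht : t < T) (I : Finset (Fin 3)) (c : Fin 3) {dl : ℝ} (hdl : 0 < dl) :
    (D.P h 0).Pr (fun w => Sq h v c (2 * t) w ∧
      (D.P h 0).ce (fun u => (LJ v I (2 * t) u, NPr v D (2 * t) u)) (fun u => ind (dg t u.1 = dg t w.1)) w < dl) ≤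
      4 * dl * (D.P h t).E (fun w => mm (UU v) h dg t w ^ 2) := by
  set m : Pt (Fin 3) X β φ → ℝ := mm (UU v) h dg t with hm
  set P := D.P h 0 with hP
  set V : Pt (Fin 3) X β φ → (Fin 3 → Option (β × List (Pt (Fin 3) X β φ))) × (List (Pt (Fin 3) X β φ) ×
    (γ × (Fin 3 → γ))) := fun u => (LJ v I (2 * t) u, NPr v D (2 * t) u) with hV
  have hmN : Fac (NP (φ := φ) D v (t + 1) t) m := by
    have h3 : m = (D.P h t).ce (NP D v (t + 1) t) (fun u => dg t u.1) := funext fun w => V3.DA.mm_NP h t w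
    rw [h3]
    exact (D.P h t).ce_fac _ _
  have hmV : Fac V m := by
    intro a b hab
    have h4 : NPr v D (2 * t) a = NPr v D (2 * t) b := congrArg Prod.snd hab
    rw [NPr_even] at h4
    exact hmN a b h4
  have hmp : Fac (fun w : Pt (Fin 3) X β φ => (w.1, w.2.1)) (fun w => m w ^ 2) := by
    intro a b hab
    have h4 := NPr_pos (v := v) (D := D) (2 * t) a b hab
    rw [NPr_even] at h4
    show m a ^ 2 = m b ^ 2
    rw [hmN a b h4]
  rw [law0 t hmp, ← P.E_smul]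
  have key : ∀ z : ℝ, P.E (fun w => (ind (1 / 2 ≤ m w ^ 2) * ind (P.ce V (fun u => ind (dg t u.1 = z)) w < dl)) *
      ind (dg t w.1 = z)) ≤ P.E fun w => 2 * dl * m w ^ 2 := by
    intro z
    have hf : Fac V (fun w => ind (1 / 2 ≤ m w ^ 2) * ind (P.ce V (fun u => ind (dg t u.1 = z)) w < dl)) := by
      intro a b hab
      have h5 := hmV a b hab
      have h6 := P.ce_fac V (fun u => ind (dg t u.1 = z)) a b hab
      show ind (1 / 2 ≤ m a ^ 2) * ind (P.ce V (fun u => ind (dg t u.1 = z)) a < dl) =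
        ind (1 / 2 ≤ m b ^ 2) * ind (P.ce V (fun u => ind (dg t u.1 = z)) b < dl)
      rw [h5, h6]
    rw [← P.E_mul_ce hf]
    refine P.E_mono fun w _ => ?_
    by_cases h7 : 1 / 2 ≤ m w ^ 2
    · by_cases h8 : P.ce V (fun u => ind (dg t u.1 = z)) w < dl
      · rw [ind_of h7, ind_of h8, one_mul, one_mul]
        nlinarith
      · rw [ind_not h8, mul_zero, zero_mul]
        positivity
    · rw [ind_not h7, zero_mul, zero_mul]
      positivity
  have h9 : P.Pr (fun w => Sq h v c (2 * t) w ∧ P.ce V (fun u => ind (dg t u.1 = dg t w.1)) w < dl) ≤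
      P.E (fun w => (ind (1 / 2 ≤ m w ^ 2) * ind (P.ce V (fun u => ind (dg t u.1 = 1)) w < dl)) * ind (dg t w.1 = 1) +
        (ind (1 / 2 ≤ m w ^ 2) * ind (P.ce V (fun u => ind (dg t u.1 = -1)) w < dl)) * ind (dg t w.1 = -1)) := by
    refine P.E_mono fun w hw => ?_
    have n1 : 0 ≤ (ind (1 / 2 ≤ m w ^ 2) * ind (P.ce V (fun u => ind (dg t u.1 = 1)) w < dl)) * ind (dg t w.1 = 1) :=
      mul_nonneg (mul_nonneg (ind_nonneg _) (ind_nonneg _)) (ind_nonneg _)
    have n2 : 0 ≤ (ind (1 / 2 ≤ m w ^ 2) * ind (P.ce V (fun u => ind (dg t u.1 = -1)) w < dl)) * ind (dg t w.1 = -1) :=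
      mul_nonneg (mul_nonneg (ind_nonneg _) (ind_nonneg _)) (ind_nonneg _)
    by_cases hq : Sq h v c (2 * t) w ∧ P.ce V (fun u => ind (dg t u.1 = dg t w.1)) w < dl
    · obtain ⟨q1, q2⟩ := hq
      have h10 := strong_dig (h := h) hv t c hw q1
      rw [digit_Pr0 (h := h) hv H ht hw] at h10
      have h11 : Real.exp (-2) ≤ 7 / 50 := by
        have h12 := Real.exp_one_gt_d9
        have h13 : Real.exp 2 = Real.exp 1 * Real.exp 1 := by rw [← Real.exp_add]; norm_num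
        have h14 : (50 / 7 : ℝ) ≤ Real.exp 2 := by rw [h13]; nlinarith
        rw [Real.exp_neg, inv_le_comm₀ (Real.exp_pos 2) (by norm_num)]
        refine le_trans (le_of_eq ?_) h14
        norm_num
      have h15 : dg t w.1 * m w ≤ -(18 / 25) := by linarith
      have h16 : 1 / 2 ≤ m w ^ 2 := by
        rcases H.dg_val t w.1 with h6 | h6 <;> rw [h6] at h15 <;> nlinarith
      rw [ind_of (⟨q1, q2⟩ : Sq h v c (2 * t) w ∧ P.ce V (fun u => ind (dg t u.1 = dg t w.1)) w < dl)]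
      rcases H.dg_val t w.1 with h6 | h6
      · rw [h6] at q2
        have hx : (ind (1 / 2 ≤ m w ^ 2) * ind (P.ce V (fun u => ind (dg t u.1 = 1)) w < dl)) * ind (dg t w.1 = 1) = 1 := by
          rw [ind_of h16, ind_of q2, ind_of h6, one_mul, one_mul]
        linarith
      · rw [h6] at q2
        have hx : (ind (1 / 2 ≤ m w ^ 2) * ind (P.ce V (fun u => ind (dg t u.1 = -1)) w < dl)) * ind (dg t w.1 = -1) = 1 := by
          rw [ind_of h16, ind_of q2, ind_of h6, one_mul, one_mul]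
        linarith
    · rw [ind_not hq]
      linarith
  refine h9.trans ?_
  rw [P.E_add]
  refine (add_le_add (key 1) (key (-1))).trans (le_of_eq ?_)
  rw [← P.E_add]
  exact P.E_congr fun w _ => by ring

theorem QF_eq (J : Finset (Fin 3)) (r : ℕ) {u w : Pt (Fin 3) X β φ} (h1 : NPr v D r u = NPr v D r w)
    (h2 : LJ v J r u = LJ v J r w) : QF h v J r u = QF h v J r w := by
  unfold QF
  rw [h1, h2]

end TA

theorem digits (R : Run h N S (AdmDep D) v) (hp : Prc N S N1) {dg : ℕ → X → ℝ} {prr : ℕ → Fin 3 → φ → φ} {T : ℕ}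
    {Lam : ℝ} (H : D.Hyp dg prr al T Lam) {J0 : Finset (Fin 3)} {e c d : Fin 3} (ht : Tri3 J0 e c d)
    {θ X1 dl : ℝ} (hθ0 : 0 < θ) (hθ1 : θ ≤ 1) (hX1 : 0 ≤ X1) (hdl : 0 < dl) (hdl1 : dl ≤ 1) :
    ∑ t ∈ range T, (D.P h 0).Pr (EvP h v θ X1 J0 c d (2 * t)) ≤
      2 ^ 9 / θ * Real.sqrt ((X1 + Real.log (1 / dl) + 1) / N1) * ∑ t ∈ range T, (D.P h 0).Pr (Sq h v c (2 * t)) +
        4 * dl * ∑ t ∈ range T, (D.P h t).E (fun w => mm (UU v) h dg t w ^ 2) := by
  classical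
  rw [Finset.mul_sum, Finset.mul_sum, ← Finset.sum_add_distrib]
  refine Finset.sum_le_sum fun t ht' => ?_
  have htT : t < T := Finset.mem_range.1 ht'
  have hv := R.codes
  have hN1 : 0 < N1 := lt_of_lt_of_le one_pos hp.pos
  set P := D.P h 0 with hP
  set I : Finset (Fin 3) := insert c J0 with hI
  have hdI : d ∉ I := by
    rw [hI, Finset.mem_insert, not_or]
    exact ⟨ht.cd.symm, ht.nd⟩
  set s := Real.sqrt ((X1 + Real.log (1 / dl) + 1) / N1) with hs
  have hs0 : 0 ≤ s := Real.sqrt_nonneg _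
  have hlog : 0 ≤ Real.log (1 / dl) := Real.log_nonneg (by rw [le_div_iff₀ hdl]; linarith)
  set V : Pt (Fin 3) X β φ → (Fin 3 → Option (β × List (Pt (Fin 3) X β φ))) × (List (Pt (Fin 3) X β φ) ×
    (γ × (Fin 3 → γ))) := fun u => (LJ v I (2 * t) u, NPr v D (2 * t) u) with hV
  set U : Pt (Fin 3) X β φ → (Fin 3 → Option (β × List (Pt (Fin 3) X β φ))) × (List (Pt (Fin 3) X β φ) ×
    (γ × (Fin 3 → γ))) := fun u => (LJ v I (2 * t) u, NPr v D (2 * t + 1) u) with hU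
  set cE : Pt (Fin 3) X β φ → ℝ := fun w => P.ce V (fun u => ind (dg t u.1 = dg t w.1)) w with hcE
  set G : Pt (Fin 3) X β φ → Prop := fun w => Sq h v c (2 * t) w ∧ -X1 ≤ lJq h v I (2 * t) w ∧ dl ≤ cE w with hG
  have hUV : Fac U V := by
    intro a b hab
    have hab' : (LJ v I (2 * t) a, NPr v D (2 * t + 1) a) = (LJ v I (2 * t) b, NPr v D (2 * t + 1) b) := hab
    exact Prod.ext (Prod.mk.inj hab').1 (NPr_step (2 * t) a b (Prod.mk.inj hab').2)
  -- `G` is a function of `U`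
  have hGU : Fac U (fun w => ind (G w)) := by
    intro a b hab
    have hV1 := hUV a b hab
    have hab' : (LJ v I (2 * t) a, NPr v D (2 * t + 1) a) = (LJ v I (2 * t) b, NPr v D (2 * t + 1) b) := hab
    have hL : LJ v I (2 * t) a = LJ v I (2 * t) b := (Prod.mk.inj hab').1
    have hNc : NPr v D (2 * t + 1) a = NPr v D (2 * t + 1) b := (Prod.mk.inj hab').2
    have h1 : aJq h v {c} (2 * t) a = aJq h v {c} (2 * t) b := by
      refine ai_fac (D.P h 0) (fun k => NPr_step k) (fun k => LJ_PJ {c} k) (2 * t) a b ?_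
      refine Prod.ext ?_ hNc
      exact LJ_sub (by rw [hI]; exact Finset.singleton_subset_iff.2 (Finset.mem_insert_self _ _)) (2 * t) a b hL
    have h2 : lJq h v I (2 * t) a = lJq h v I (2 * t) b := lq_fac (D.P h 0) (fun k => LJ_PJ I k) (2 * t) a b hV1
    have h3 : dg t a.1 = dg t b.1 := by
      have h4 := ((TA.NPr_child hv t a b).1 hNc)
      have h5 := h4.1
      rw [TA.NPr_even, NP_iff hv le_rfl b a] at h5
      exact ((H.dg_cell t htT a.1 b.1).1 h4.2.1).2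
    have h6 : cE a = cE b := by
      show P.ce V (fun u => ind (dg t u.1 = dg t a.1)) a = P.ce V (fun u => ind (dg t u.1 = dg t b.1)) b
      rw [h3]
      exact P.ce_fac V _ a b hV1
    refine ind_cg ?_
    show (2 ≤ aJq h v {c} (2 * t) a ∧ -X1 ≤ lJq h v I (2 * t) a ∧ dl ≤ cE a) ↔
      (2 ≤ aJq h v {c} (2 * t) b ∧ -X1 ≤ lJq h v I (2 * t) b ∧ dl ≤ cE b)
    rw [h1, h2, h6]
  -- the good part
  have part1 : P.E (fun w => ind (G w) * ind (dvp h v θ J0 c d (2 * t) w w)) ≤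
      2 ^ 9 / θ * s * P.Pr (Sq h v c (2 * t)) := by
    rw [← P.E_mul_ce hGU]
    unfold FP.Pr
    rw [← P.E_smul]
    refine P.E_mono fun w hw => ?_
    by_cases hg : G w
    · rw [ind_of hg, one_mul, ind_of hg.1, mul_one]
      obtain ⟨-, g2, g3⟩ := hg
      have e1 : P.ce U (fun u => ind (dvp h v θ J0 c d (2 * t) u u)) w =
          P.ce U (fun u => ind (θ < |rt (QF h v I (2 * t) w) (QF h v J0 (2 * t) w) (XLr v (2 * t) d)
            (XLr v (2 * t) d u) - 1|)) w := by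
        unfold FP.ce
        congr 1
        refine P.E_congr fun u _ => ?_
        by_cases hu : U u = U w
        · have h1 := hUV u w hu
          have h2 : NPr v D (2 * t) u = NPr v D (2 * t) w := congrArg Prod.snd h1
          have h3 : LJ v I (2 * t) u = LJ v I (2 * t) w := congrArg Prod.fst h1
          have h4 : LJ v J0 (2 * t) u = LJ v J0 (2 * t) w := LJ_sub (Finset.subset_insert _ _) (2 * t) u w h3
          have h5 := TA.QF_eq (h := h) I (2 * t) h2 h3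
          have h6 := TA.QF_eq (h := h) J0 (2 * t) h2 h4
          unfold dvp rdev
          beta_reduce
          rw [← hI, h5, h6]
        · rw [ind_not hu, zero_mul, zero_mul]
      rw [e1]
      set μ := muC D v (t + 1) t w with hμ
      set E : X → Prop := fun x => TA.GJ v I (t + 1) w x ∧ D.qa (t + 1) x = D.qa (t + 1) w.1 with hE
      have g3' : dl ≤ μ.Pr E / μ.Pr (TA.GJ v I (t + 1) w) := by
        rw [← TA.ce_dig (h := h) hv H htT I hw]
        exact g3
      have a3 : 0 < μ.Pr (TA.GJ v I (t + 1) w) := TA.mu_pos _ _ _ (TA.GJ_self _ _ _)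
      rw [le_div_iff₀ a3] at g3'
      have g2' : Real.exp (-X1) ≤ μ.Pr (TA.GJ v I (t + 1) w) := by
        rw [TA.lJq_even hv t I hw] at g2
        rw [← Real.exp_log a3]
        exact Real.exp_le_exp.2 g2
      have ha : Real.exp (-(X1 + Real.log (1 / dl))) ≤ μ.Pr E := by
        have e2 : Real.exp (-(X1 + Real.log (1 / dl))) = dl * Real.exp (-X1) := by
          rw [one_div, Real.log_inv, neg_add, neg_neg, Real.exp_add, Real.exp_log hdl, mul_comm]
        rw [e2]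
        exact (mul_le_mul_of_nonneg_left g2' hdl.le).trans g3'
      have hκ := TA.dvC_le0 R hp t hw d (E := E) ha
      have hrow := TA.row_child (h := h) hv H htT hdI hw
        (fun z => θ < |rt (QF h v I (2 * t) w) (QF h v J0 (2 * t) w) (XLr v (2 * t) d) z - 1|) hκ
      refine hrow.trans ?_
      have hb := TA.base_small R hp ht hθ0 hθ1 hX1 hdl hdl1 hw g2
      have hb' : (clq h v (2 * t) w).Pr (fun u => θ < |rt (QF h v I (2 * t) w) (QF h v J0 (2 * t) w)
          (XLr v (2 * t) d) (XLr v (2 * t) d u) - 1|) ≤ 96 / θ * s := hb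
      have hk : Real.sqrt (4 * (X1 + Real.log (1 / dl) + 1) / N1) ≤ 2 * s := by
        have e3 : 4 * (X1 + Real.log (1 / dl) + 1) / N1 = 2 ^ 2 * ((X1 + Real.log (1 / dl) + 1) / N1) := by ring
        rw [e3, Real.sqrt_mul (by norm_num), Real.sqrt_sq (by norm_num)]
      have h7 : 2 * s ≤ 1 / θ * (2 * s) := by
        rw [one_div, inv_mul_eq_div, le_div_iff₀ hθ0]
        nlinarith
      have h8 : 0 ≤ 1 / θ * s := by positivity
      have h9 : 2 * (96 / θ * s + 1 / θ * (2 * s)) ≤ 2 ^ 9 / θ * s := by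
        have e4 : 2 * (96 / θ * s + 1 / θ * (2 * s)) = 196 * (1 / θ * s) := by ring
        have e5 : 2 ^ 9 / θ * s = 512 * (1 / θ * s) := by ring
        rw [e4, e5]
        linarith
      linarith
    · rw [ind_not hg, zero_mul]
      have := ind_nonneg (Sq h v c (2 * t) w)
      positivity
  have part2 := TA.light_dig (h := h) hv H htT I c hdl
  have split : P.Pr (EvP h v θ X1 J0 c d (2 * t)) ≤ P.E (fun w => ind (G w) * ind (dvp h v θ J0 c d (2 * t) w w) +
      ind (Sq h v c (2 * t) w ∧ cE w < dl)) := by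
    refine P.E_mono fun w _ => ?_
    have n1 := mul_nonneg (ind_nonneg (G w)) (ind_nonneg (dvp h v θ J0 c d (2 * t) w w))
    have n2 := ind_nonneg (Sq h v c (2 * t) w ∧ cE w < dl)
    by_cases hq : EvP h v θ X1 J0 c d (2 * t) w
    · obtain ⟨q1, _, q3, _, q5⟩ := hq
      by_cases hc : dl ≤ cE w
      · have hg : G w := ⟨q1, q5.1, hc⟩
        rw [ind_of hg, ind_of q3] at n1 ⊢
        have := ind_le_one (EvP h v θ X1 J0 c d (2 * t) w)
        linarith
      · have hg : Sq h v c (2 * t) w ∧ cE w < dl := ⟨q1, not_le.1 hc⟩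
        rw [ind_of hg]
        have := ind_le_one (EvP h v θ X1 J0 c d (2 * t) w)
        linarith
    · rw [ind_not hq]
      linarith
  rw [P.E_add] at split
  refine split.trans (add_le_add part1 ?_)
  exact part2

end Pool.Agent.GMH.TD
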