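import Pool.Agent.GMH.TDdef
import Pool.Agent.GMH.DeadP
import Pool.Agent.GMH.Kill3

/-!
# GMH.TD13: the events of the static level are events of the thin dynamics (helper75)

`AJ J s s' n x y` = number of the hidden points with the letters (codes before `s`) of `J`, the public codes (before `s'`) and
the cell of the time `n` of `x`.  All masses are `AJ * nY / nn`; so `lJq = log (AJ J / AJ ∅)`,
`rdev J0 c d = AJ (J0, c, d) AJ J0 / (AJ (J0, c) AJ (J0, d))`, `D3 = AJ univ (AJ ∅)² / (AJ 0 AJ 1 AJ 2)`.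
-/

set_option autoImplicit false
set_option linter.unusedSectionVars false

namespace Pool.Agent.GMH.TD

open Finset Pool.Agent.PWZ Pool.Agent.M3 Pool.Agent.GM Pool.Agent.GM.Harm Pool.Agent.GMH Pool.Agent.GMH.NZ
open Pool.Agent.GMH.V3 Pool.Agent.GMH.Gdy

noncomputable section

variable {X β γ φ υ : Type} [Fintype X] [Fintype β] [Fintype φ] [Nonempty X] [Nonempty β]
variable {D : HD (Fin 3) X β γ φ} {al : ℝ} (h : D.Thick al) {v : ℕ → Finset (Fin 3) → X → (Fin 3 → β) → υ}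

namespace K13

/-- number of the hidden points with the letters of `J`, the public codes and the cell of `x` -/
def AJ (D : HD (Fin 3) X β γ φ) (v : ℕ → Finset (Fin 3) → X → (Fin 3 → β) → υ) (J : Finset (Fin 3)) (s s' n : ℕ) (x : X)
    (y : Fin 3 → β) : ℝ :=
  ∑ x' : X, ind ((∀ i ∈ J, Um v s {i} x' y = Um v s {i} x y) ∧ Um v s' ∅ x' y = Um v s' ∅ x y ∧ D.qa n x' = D.qa n x)

theorem AJ_pos (J : Finset (Fin 3)) (s s' n : ℕ) (x : X) (y : Fin 3 → β) : 0 < AJ D v J s s' n x y := by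
  unfold AJ
  refine Finset.sum_pos' (fun _ _ => ind_nonneg _) ⟨x, mem_univ _, ?_⟩
  rw [ind_of ⟨fun _ _ => rfl, rfl, rfl⟩]
  exact one_pos

theorem AJ_mono {J J' : Finset (Fin 3)} (hJ : J ⊆ J') (s s' n : ℕ) (x : X) (y : Fin 3 → β) :
    AJ D v J' s s' n x y ≤ AJ D v J s s' n x y := by
  unfold AJ
  exact Finset.sum_le_sum fun x' _ => ind_mono fun hh => ⟨fun i hi => hh.1 i (hJ hi), hh.2⟩

/-- the codes before `s ≤ n + 1` at other points of the same cells -/
theorem Um_cell' (hv : Codes D v) {n s : ℕ} (hs : s ≤ n + 1) {I : Finset (Fin 3)} {x : X} {y y' : Fin 3 → β}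
    (h1 : ∀ j ∈ I, y' j = y j) (h2 : ∀ j, D.qb n (y' j) = D.qb n (y j)) : Um v s I x y' = Um v s I x y := Um_cell hv hs h1 h2

/-- letters of `J` (codes before `s`) -/
def LJs (v : ℕ → Finset (Fin 3) → X → (Fin 3 → β) → υ) (J : Finset (Fin 3)) (s : ℕ) (w : Pt (Fin 3) X β φ) :
    Fin 3 → Option (β × List υ) := fun j => if j ∈ J then some (XL v s j w) else Option.none

theorem LJ_eq (J : Finset (Fin 3)) (r : ℕ) : LJ (φ := φ) v J r = LJs v J (tm r + 1) := rfl

theorem LJs_iff {J : Finset (Fin 3)} {s : ℕ} {u w : Pt (Fin 3) X β φ} :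
    LJs v J s u = LJs v J s w ↔ ∀ i ∈ J, XL v s i u = XL v s i w := by
  constructor
  · intro hh i hi
    have h1 := congrFun hh i
    unfold LJs at h1
    simp only [if_pos hi] at h1
    exact Option.some_injective _ h1
  · intro hh
    funext i
    unfold LJs
    by_cases hi : i ∈ J
    · simp only [if_pos hi]; rw [hh i hi]
    · simp only [if_neg hi]

theorem PJ_iff {J : Finset (Fin 3)} {u w : Pt (Fin 3) X β φ} : PJ J u = PJ J w ↔ ∀ i ∈ J, u.2.1 i = w.2.1 i := by
  constructor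
  · intro hh i hi
    have h1 := congrFun hh i
    unfold PJ at h1
    simp only [if_pos hi] at h1
    exact Option.some_injective _ h1
  · intro hh
    funext i
    unfold PJ
    by_cases hi : i ∈ J
    · simp only [if_pos hi]; rw [hh i hi]
    · simp only [if_neg hi]

/-- **mass of the letters of `J` with the public information** -/
theorem m_LJs (hv : Codes D v) (J : Finset (Fin 3)) {s s' n : ℕ} (hs : s ≤ n + 1) (hs' : s' ≤ n + 1) (t : ℕ)
    (w : Pt (Fin 3) X β φ) :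
    (D.P h t).m (fun u => (LJs v J s u, NP D v s' n u)) w =
      AJ D v J s s' n w.1 w.2.1 * nY D n J w.2.1 / nn X β (Fin 3) := by
  unfold AJ nY
  rw [← m_prod h t]
  refine (D.P h t).E_congr fun u _ => ind_cg ?_
  constructor
  · intro hu
    have h1 : LJs v J s u = LJs v J s w := congrArg (fun z => z.1) hu
    have h2 : NP D v s' n u = NP D v s' n w := congrArg (fun z => z.2) hu
    have h4 : D.qa n u.1 = D.qa n w.1 := congrArg (fun z => z.2.1) h2
    have h5 : ∀ j, D.qb n (u.2.1 j) = D.qb n (w.2.1 j) := congrFun (congrArg (fun z => z.2.2) h2)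
    have h6 : Um v s' ∅ u.1 u.2.1 = Um v s' ∅ w.1 w.2.1 := congrArg (fun z => z.1) h2
    have h7 : ∀ j ∈ J, u.2.1 j = w.2.1 j := fun j hj => congrArg Prod.fst (LJs_iff.1 h1 j hj)
    refine ⟨⟨fun i hi => ?_, ?_, h4⟩, h7, h5⟩
    · have h8 : Um v s {i} u.1 u.2.1 = Um v s {i} w.1 w.2.1 := congrArg Prod.snd (LJs_iff.1 h1 i hi)
      rw [← h8]
      exact Um_cell' hv hs (fun j hj => by rw [Finset.mem_singleton.1 hj]; exact (h7 i hi).symm)
        fun j => (h5 j).symm
    · rw [← h6]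
      exact Um_cell' hv hs' (fun j hj => absurd hj (Finset.notMem_empty j)) fun j => (h5 j).symm
  · rintro ⟨⟨h1, h2, h4⟩, h7, h5⟩
    have e1 : LJs v J s u = LJs v J s w := by
      refine LJs_iff.2 fun i hi => Prod.ext (h7 i hi) ?_
      show Um v s {i} u.1 u.2.1 = Um v s {i} w.1 w.2.1
      rw [← h1 i hi]
      exact Um_cell' hv hs (fun j hj => by rw [Finset.mem_singleton.1 hj]; exact h7 i hi) h5
    have e2 : NP D v s' n u = NP D v s' n w := by
      refine Prod.ext ?_ (Prod.ext h4 (funext h5))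
      show Um v s' ∅ u.1 u.2.1 = Um v s' ∅ w.1 w.2.1
      rw [← h2]
      exact Um_cell' hv hs' (fun j hj => absurd hj (Finset.notMem_empty j)) h5
    exact Prod.ext e1 e2

/-- **mass of the points of `J` with the public information** -/
theorem m_PJs (hv : Codes D v) (J : Finset (Fin 3)) {s' n : ℕ} (hs' : s' ≤ n + 1) (t : ℕ) (w : Pt (Fin 3) X β φ) :
    (D.P h t).m (fun u => (PJ J u, NP D v s' n u)) w =
      AJ D v ∅ 0 s' n w.1 w.2.1 * nY D n J w.2.1 / nn X β (Fin 3) := by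
  unfold AJ nY
  rw [← m_prod h t]
  refine (D.P h t).E_congr fun u _ => ind_cg ?_
  constructor
  · intro hu
    have h1 : PJ J u = PJ J w := congrArg (fun z => z.1) hu
    have h2 : NP D v s' n u = NP D v s' n w := congrArg (fun z => z.2) hu
    have h4 : D.qa n u.1 = D.qa n w.1 := congrArg (fun z => z.2.1) h2
    have h5 : ∀ j, D.qb n (u.2.1 j) = D.qb n (w.2.1 j) := congrFun (congrArg (fun z => z.2.2) h2)
    have h6 : Um v s' ∅ u.1 u.2.1 = Um v s' ∅ w.1 w.2.1 := congrArg (fun z => z.1) h2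
    refine ⟨⟨fun i hi => absurd hi (Finset.notMem_empty i), ?_, h4⟩, PJ_iff.1 h1, h5⟩
    rw [← h6]
    exact Um_cell' hv hs' (fun j hj => absurd hj (Finset.notMem_empty j)) fun j => (h5 j).symm
  · rintro ⟨⟨_, h2, h4⟩, h7, h5⟩
    have e2 : NP D v s' n u = NP D v s' n w := by
      refine Prod.ext ?_ (Prod.ext h4 (funext h5))
      show Um v s' ∅ u.1 u.2.1 = Um v s' ∅ w.1 w.2.1
      rw [← h2]
      exact Um_cell' hv hs' (fun j hj => absurd hj (Finset.notMem_empty j)) h5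
    exact Prod.ext (PJ_iff.2 h7) e2

theorem AJ_empty (s₁ s₂ s' n : ℕ) (x : X) (y : Fin 3 → β) : AJ D v ∅ s₁ s' n x y = AJ D v ∅ s₂ s' n x y := by
  unfold AJ
  refine Finset.sum_congr rfl fun x' _ => ind_cg ?_
  simp

theorem nY_pos (n : ℕ) (J : Finset (Fin 3)) (y : Fin 3 → β) : 0 < nY D n J y := by
  unfold nY
  refine Finset.sum_pos' (fun _ _ => ind_nonneg _) ⟨y, mem_univ _, ?_⟩
  rw [ind_of ⟨fun _ _ => rfl, fun _ => rfl⟩]
  exact one_pos

/-- log probability of the letters (codes before `s`) given the points and the public information -/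
theorem log_LJs (hv : Codes D v) (J : Finset (Fin 3)) {s s' n : ℕ} (hs : s ≤ n + 1) (hs' : s' ≤ n + 1) (t : ℕ)
    (w : Pt (Fin 3) X β φ) :
    Real.log ((D.P h t).m (fun u => (LJs v J s u, NP D v s' n u)) w / (D.P h t).m (fun u => (PJ J u, NP D v s' n u)) w) =
      Real.log (AJ D v J s s' n w.1 w.2.1) - Real.log (AJ D v ∅ 0 s' n w.1 w.2.1) := by
  rw [m_LJs h hv J hs hs' t w, m_PJs h hv J hs' t w]
  have h1 := AJ_pos (D := D) (v := v) J s s' n w.1 w.2.1
  have h2 := AJ_pos (D := D) (v := v) ∅ 0 s' n w.1 w.2.1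
  have h3 := nY_pos (D := D) n J w.2.1
  have h4 := nn_pos (X := X) (β := β) (K := Fin 3)
  rw [← Real.log_div h1.ne' h2.ne']
  congr 1
  field_simp

/-! ### products of the cells -/

theorem nY_pr (n : ℕ) (J : Finset (Fin 3)) (y : Fin 3 → β) :
    nY D n J y = ∏ j, (if j ∈ J then 1 else ((D.cB n (y j)).card : ℝ)) := nY_prodD D n J y

theorem cB_pos (n : ℕ) (b : β) : (0 : ℝ) < ((D.cB n b).card : ℝ) := by
  classical
  have h1 : b ∈ D.cB n b := by
    unfold HD.cB
    exact Finset.mem_filter.2 ⟨mem_univ _, rfl⟩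
  exact_mod_cast Finset.card_pos.2 ⟨b, h1⟩

/-- a point more -/
theorem nY_ins {n : ℕ} {J : Finset (Fin 3)} {d : Fin 3} (hd : d ∉ J) (y : Fin 3 → β) :
    nY D n J y = nY D n (insert d J) y * ((D.cB n (y d)).card : ℝ) := by
  rw [nY_pr, nY_pr]
  have h1 : ∀ j : Fin 3, (if j ∈ J then (1 : ℝ) else ((D.cB n (y j)).card : ℝ)) =
      (if j ∈ insert d J then 1 else ((D.cB n (y j)).card : ℝ)) * (if j = d then ((D.cB n (y d)).card : ℝ) else 1) := by
    intro j
    by_cases hj : j = d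
    · subst hj
      rw [if_neg hd, if_pos (Finset.mem_insert_self _ _), if_pos rfl, one_mul]
    · rw [if_neg hj, mul_one]
      by_cases hJ : j ∈ J
      · rw [if_pos hJ, if_pos (Finset.mem_insert_of_mem hJ)]
      · rw [if_neg hJ, if_neg]
        intro hc
        rcases Finset.mem_insert.1 hc with hc | hc
        · exact hj hc
        · exact hJ hc
  rw [Finset.prod_congr rfl fun j _ => h1 j, Finset.prod_mul_distrib, Finset.prod_ite_eq']
  rw [if_pos (mem_univ _)]

/-! ### masses -/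

theorem pe {μ ν : Type*} {a a' : μ} {b b' : ν} : (a, b) = (a', b') ↔ a = a' ∧ b = b' :=
  ⟨fun hh => Prod.mk.inj hh, fun hh => by rw [hh.1, hh.2]⟩

theorem m_iff {Om κ ι : Type*} [Fintype Om] (P : FP Om) {f : Om → κ} {g : Om → ι} (hfg : ∀ a b, f a = f b ↔ g a = g b)
    (w : Om) : P.m f w = P.m g w :=
  P.m_congr (X := f) (Y := g) (fun a b hab => (hfg a b).1 hab) (fun a b hab => (hfg a b).2 hab) w

section mass

variable (r : ℕ) (w : Pt (Fin 3) X β φ)

/-- the number for the half step `r` -/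
def A (D : HD (Fin 3) X β γ φ) (v : ℕ → Finset (Fin 3) → X → (Fin 3 → β) → υ) (J : Finset (Fin 3)) (r : ℕ)
    (w : Pt (Fin 3) X β φ) : ℝ := AJ D v J (tm r + 1) (tm r + 1) (nt r) w.1 w.2.1

/-- letters of the half step `r`, public information of the half step `r + 1` -/
def A' (D : HD (Fin 3) X β γ φ) (v : ℕ → Finset (Fin 3) → X → (Fin 3 → β) → υ) (J : Finset (Fin 3)) (r : ℕ)
    (w : Pt (Fin 3) X β φ) : ℝ := AJ D v J (tm r + 1) (tm (r + 1) + 1) (nt (r + 1)) w.1 w.2.1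

theorem tmnt (r : ℕ) : tm r + 1 ≤ nt r + 1 := by unfold tm nt; omega

theorem tmnt' (r : ℕ) : tm r + 1 ≤ nt (r + 1) + 1 := by unfold tm nt; omega

theorem A_pos (J : Finset (Fin 3)) : 0 < A D v J r w := AJ_pos _ _ _ _ _ _

theorem A'_pos (J : Finset (Fin 3)) : 0 < A' D v J r w := AJ_pos _ _ _ _ _ _

theorem m_L (hv : Codes D v) (t : ℕ) (J : Finset (Fin 3)) :
    (D.P h t).m (fun u => (LJ v J r u, NPr v D r u)) w = A D v J r w * nY D (nt r) J w.2.1 / nn X β (Fin 3) :=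
  m_LJs h hv J (tmnt r) (tmnt r) t w

theorem m_L' (hv : Codes D v) (t : ℕ) (J : Finset (Fin 3)) :
    (D.P h t).m (fun u => (LJ v J r u, NPr v D (r + 1) u)) w =
      A' D v J r w * nY D (nt (r + 1)) J w.2.1 / nn X β (Fin 3) :=
  m_LJs h hv J (tmnt' r) (tmnt (r + 1)) t w

theorem LJ_empty (a b : Pt (Fin 3) X β φ) : LJ v ∅ r a = LJ v ∅ r b := by
  funext j
  unfold LJ
  simp

theorem m_N (hv : Codes D v) (t : ℕ) :
    (D.P h t).m (NPr v D r) w = A D v ∅ r w * nY D (nt r) ∅ w.2.1 / nn X β (Fin 3) := by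
  rw [← m_L h r w hv t ∅]
  exact m_iff _ (f := NPr v D r) (g := fun u => (LJ v ∅ r u, NPr v D r u))
    (fun a b => ⟨fun hab => Prod.ext (LJ_empty (v := v) r a b) hab, fun hab => congrArg Prod.snd hab⟩) w

theorem m_N' (hv : Codes D v) (t : ℕ) :
    (D.P h t).m (NPr v D (r + 1)) w = A' D v ∅ r w * nY D (nt (r + 1)) ∅ w.2.1 / nn X β (Fin 3) := by
  rw [← m_L' h r w hv t ∅]
  exact m_iff _ (f := NPr v D (r + 1)) (g := fun u => (LJ v ∅ r u, NPr v D (r + 1) u))
    (fun a b => ⟨fun hab => Prod.ext (LJ_empty (v := v) r a b) hab, fun hab => congrArg Prod.snd hab⟩) w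

theorem LJ_iff {J : Finset (Fin 3)} {a b : Pt (Fin 3) X β φ} : LJ v J r a = LJ v J r b ↔ ∀ i ∈ J, XLr v r i a = XLr v r i b :=
  LJs_iff

theorem LJ_one (i : Fin 3) {a b : Pt (Fin 3) X β φ} : XLr v r i a = XLr v r i b ↔ LJ v {i} r a = LJ v {i} r b := by
  rw [LJ_iff]
  simp

/-- the mass of one letter -/
theorem m_X (hv : Codes D v) (t : ℕ) (i : Fin 3) :
    (D.P h t).m (fun u => (XLr v r i u, NPr v D r u)) w = A D v {i} r w * nY D (nt r) {i} w.2.1 / nn X β (Fin 3) := by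
  rw [← m_L h r w hv t {i}]
  exact m_iff _ (f := fun u => (XLr v r i u, NPr v D r u)) (g := fun u => (LJ v {i} r u, NPr v D r u))
    (fun a b => pe.trans ((and_congr_left' (LJ_one r i)).trans pe.symm)) w

theorem m_X' (hv : Codes D v) (t : ℕ) (i : Fin 3) :
    (D.P h t).m (fun u => (XLr v r i u, NPr v D (r + 1) u)) w =
      A' D v {i} r w * nY D (nt (r + 1)) {i} w.2.1 / nn X β (Fin 3) := by
  rw [← m_L' h r w hv t {i}]
  exact m_iff _ (f := fun u => (XLr v r i u, NPr v D (r + 1) u)) (g := fun u => (LJ v {i} r u, NPr v D (r + 1) u))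
    (fun a b => pe.trans ((and_congr_left' (LJ_one r i)).trans pe.symm)) w

/-- the log probability of the letters of `J` -/
theorem lJq_eq (hv : Codes D v) (J : Finset (Fin 3)) :
    lJq h v J r w = Real.log (A D v J r w) - Real.log (A D v ∅ r w) := by
  unfold lJq lq
  have h1 := log_LJs h hv J (tmnt r) (tmnt r) 0 w
  have h2 : AJ D v ∅ 0 (tm r + 1) (nt r) w.1 w.2.1 = A D v ∅ r w := AJ_empty _ _ _ _ _ _
  rw [h2] at h1
  exact h1

/-- the increment -/
theorem aJq_eq (hv : Codes D v) (J : Finset (Fin 3)) :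
    aJq h v J r w = (Real.log (A' D v J r w) - Real.log (A' D v ∅ r w)) -
      (Real.log (A D v J r w) - Real.log (A D v ∅ r w)) := by
  have h0 := lJq_eq h r w hv J
  have h1 := log_LJs h hv J (tmnt' r) (tmnt (r + 1)) 0 w
  have h2 : AJ D v ∅ 0 (tm (r + 1) + 1) (nt (r + 1)) w.1 w.2.1 = A' D v ∅ r w := AJ_empty _ _ _ _ _ _
  rw [h2] at h1
  unfold lJq at h0
  unfold aJq ai
  rw [h0]
  congr 1

end mass

/-! ### densities -/

/-- mass of a letter in a cell -/
theorem k_lw {Om κ ν : Type*} [Fintype Om] (P : FP Om) (X : Om → κ) (N : Om → ν) {w : Om} (hw : P.p w ≠ 0) :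
    lw (P.cond fun u => N u = N w) X (X w) = P.m (fun u => (X u, N u)) w / P.m N w := by
  unfold lw
  rw [FP.cond_E (P.m_pos N hw).ne']
  congr 1
  unfold FP.m
  refine P.E_congr fun u _ => ?_
  rw [← ind_and]
  exact ind_cg ⟨fun hh => Prod.ext hh.2 hh.1, fun hh => ⟨congrArg Prod.snd hh, congrArg Prod.fst hh⟩⟩

/-- mass of a triple in a cell -/
theorem k_lw3 {Om κ ι θ ν : Type*} [Fintype Om] (P : FP Om) (X : Om → κ) (Y : Om → ι) (Z : Om → θ) (N : Om → ν) {w : Om}
    (hw : P.p w ≠ 0) :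
    lw3 (P.cond fun u => N u = N w) X Y Z (X w) (Y w) (Z w) = P.m (fun u => (X u, Y u, Z u, N u)) w / P.m N w := by
  unfold lw3
  rw [FP.cond_E (P.m_pos N hw).ne']
  congr 1
  unfold FP.m
  refine P.E_congr fun u _ => ?_
  rw [← ind_and, ← ind_and, ← ind_and]
  refine ind_cg ⟨fun hh => ?_, fun hh => ?_⟩
  · exact Prod.ext hh.2.1.1 (Prod.ext hh.2.1.2 (Prod.ext hh.2.2 hh.1))
  · simp only [Prod.mk.injEq] at hh
    exact ⟨hh.2.2.2, ⟨hh.1, hh.2.1⟩, hh.2.2.1⟩

section dens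

variable {r : ℕ} {w : Pt (Fin 3) X β φ}

/-- mass of a letter in the cell -/
theorem lw_P (hv : Codes D v) {t : ℕ} (hw : (D.P h t).p w ≠ 0) (i : Fin 3) :
    lw ((D.P h t).cond fun u => NPr v D r u = NPr v D r w) (XLr v r i) (XLr v r i w) =
      (A D v {i} r w * nY D (nt r) {i} w.2.1) / (A D v ∅ r w * nY D (nt r) ∅ w.2.1) := by
  rw [k_lw _ (XLr v r i) (NPr v D r) hw, m_X h r w hv t i, m_N h r w hv t]
  have h4 := (nn_pos (X := X) (β := β) (K := Fin 3)).ne'
  rw [div_div_div_cancel_right₀ h4]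

theorem lw_Q (hv : Codes D v) {t : ℕ} (hw : (D.P h t).p w ≠ 0) (i : Fin 3) :
    lw ((D.P h t).cond fun u => NPr v D (r + 1) u = NPr v D (r + 1) w) (XLr v r i) (XLr v r i w) =
      (A' D v {i} r w * nY D (nt (r + 1)) {i} w.2.1) / (A' D v ∅ r w * nY D (nt (r + 1)) ∅ w.2.1) := by
  rw [k_lw _ (XLr v r i) (NPr v D (r + 1)) hw, m_X' h r w hv t i, m_N' h r w hv t]
  have h4 := (nn_pos (X := X) (β := β) (K := Fin 3)).ne'
  rw [div_div_div_cancel_right₀ h4]

theorem lw2_P (hv : Codes D v) {t : ℕ} (hw : (D.P h t).p w ≠ 0) (i k : Fin 3) :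
    lw2 ((D.P h t).cond fun u => NPr v D r u = NPr v D r w) (XLr v r i) (XLr v r k) (XLr v r i w) (XLr v r k w) =
      (A D v {i, k} r w * nY D (nt r) {i, k} w.2.1) / (A D v ∅ r w * nY D (nt r) ∅ w.2.1) := by
  rw [lw2_eq_m, ← lw_eq_m, k_lw _ (fun u => (XLr v r i u, XLr v r k u)) (NPr v D r) hw, m_N h r w hv t]
  have e : (D.P h t).m (fun u => ((XLr v r i u, XLr v r k u), NPr v D r u)) w =
      (D.P h t).m (fun u => (LJ v {i, k} r u, NPr v D r u)) w := by
    refine m_iff _ (f := fun u => ((XLr v r i u, XLr v r k u), NPr v D r u))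
      (g := fun u => (LJ v {i, k} r u, NPr v D r u)) (fun a b => pe.trans (Iff.trans (and_congr_left' ?_) pe.symm)) w
    rw [LJ_iff]
    refine pe.trans ?_
    simp
  rw [e, m_L h r w hv t]
  have h4 := (nn_pos (X := X) (β := β) (K := Fin 3)).ne'
  rw [div_div_div_cancel_right₀ h4]

theorem lw3_P (hv : Codes D v) {t : ℕ} (hw : (D.P h t).p w ≠ 0) :
    lw3 ((D.P h t).cond fun u => NPr v D r u = NPr v D r w) (XLr v r 0) (XLr v r 1) (XLr v r 2)
        (XLr v r 0 w) (XLr v r 1 w) (XLr v r 2 w) =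
      (A D v univ r w * nY D (nt r) univ w.2.1) / (A D v ∅ r w * nY D (nt r) ∅ w.2.1) := by
  rw [k_lw3 _ (XLr v r 0) (XLr v r 1) (XLr v r 2) (NPr v D r) hw, m_N h r w hv t]
  have e : (D.P h t).m (fun u => (XLr v r 0 u, XLr v r 1 u, XLr v r 2 u, NPr v D r u)) w =
      (D.P h t).m (fun u => (LJ v univ r u, NPr v D r u)) w := by
    refine m_iff _ (f := fun u => (XLr v r 0 u, XLr v r 1 u, XLr v r 2 u, NPr v D r u))
      (g := fun u => (LJ v univ r u, NPr v D r u)) (fun a b => ?_) w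
    constructor
    · intro hh
      obtain ⟨h0, hh⟩ := pe.1 hh
      obtain ⟨h1, hh⟩ := pe.1 hh
      obtain ⟨h2, h3⟩ := pe.1 hh
      refine pe.2 ⟨(LJ_iff r).2 fun i _ => ?_, h3⟩
      fin_cases i
      · exact h0
      · exact h1
      · exact h2
    · intro hh
      obtain ⟨h0, h3⟩ := pe.1 hh
      have h0 := (LJ_iff r).1 h0
      exact pe.2 ⟨h0 0 (mem_univ _), pe.2 ⟨h0 1 (mem_univ _), pe.2 ⟨h0 2 (mem_univ _), h3⟩⟩⟩
  rw [e, m_L h r w hv t]
  have h4 := (nn_pos (X := X) (β := β) (K := Fin 3)).ne'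
  rw [div_div_div_cancel_right₀ h4]

/-- mass of the letter `d` in the cell with the letters of `J` fixed -/
theorem lw_QF (hv : Codes D v) (hw : (D.P h 0).p w ≠ 0) (J : Finset (Fin 3)) (d : Fin 3) :
    lw (QF h v J r w) (XLr v r d) (XLr v r d w) =
      (A D v (insert d J) r w * nY D (nt r) (insert d J) w.2.1) / (A D v J r w * nY D (nt r) J w.2.1) := by
  have e0 : QF h v J r w = (D.P h 0).cond fun u => (LJ v J r u, NPr v D r u) = (LJ v J r w, NPr v D r w) := by
    unfold QF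
    congr 1
    funext u
    exact propext (and_comm.trans pe.symm)
  rw [e0, k_lw _ (XLr v r d) (fun u => (LJ v J r u, NPr v D r u)) hw, m_L h r w hv 0]
  have e : (D.P h 0).m (fun u => (XLr v r d u, (LJ v J r u, NPr v D r u))) w =
      (D.P h 0).m (fun u => (LJ v (insert d J) r u, NPr v D r u)) w := by
    refine m_iff _ (f := fun u => (XLr v r d u, (LJ v J r u, NPr v D r u)))
      (g := fun u => (LJ v (insert d J) r u, NPr v D r u)) (fun a b => ?_) w
    refine pe.trans (Iff.trans (and_congr_right' pe) (Iff.trans ?_ pe.symm))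
    rw [LJ_iff, LJ_iff, Finset.forall_mem_insert, and_assoc]
  rw [e, m_L h r w hv 0]
  have h4 := (nn_pos (X := X) (β := β) (K := Fin 3)).ne'
  rw [div_div_div_cancel_right₀ h4]

/-- **the density at the point itself** -/
theorem rdev_A (hv : Codes D v) (hw : (D.P h 0).p w ≠ 0) {J0 : Finset (Fin 3)} {c d : Fin 3} (hcd : c ≠ d) (hd : d ∉ J0) :
    rdev h v J0 c d r w w = A D v (insert d (insert c J0)) r w * A D v J0 r w /
      (A D v (insert c J0) r w * A D v (insert d J0) r w) := by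
  unfold rdev rt
  rw [lw_QF h hv hw, lw_QF h hv hw]
  have hd' : d ∉ insert c J0 := by
    intro hh
    rcases Finset.mem_insert.1 hh with hh | hh
    · exact hcd hh.symm
    · exact hd hh
  have e1 := nY_ins (D := D) (n := nt r) hd' w.2.1
  have e2 := nY_ins (D := D) (n := nt r) hd w.2.1
  rw [e1, e2]
  have a1 := (A_pos (D := D) (v := v) r w (insert c J0)).ne'
  have a2 := (A_pos (D := D) (v := v) r w (insert d J0)).ne'
  have a3 := (A_pos (D := D) (v := v) r w J0).ne'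
  have b1 := (nY_pos (D := D) (nt r) (insert d (insert c J0)) w.2.1).ne'
  have b2 := (nY_pos (D := D) (nt r) (insert d J0) w.2.1).ne'
  have b3 := (cB_pos (D := D) (nt r) (w.2.1 d)).ne'
  field_simp

/-- the density of a pair -/
theorem Dd_A (hv : Codes D v) {t : ℕ} (hw : (D.P h t).p w ≠ 0) {i k : Fin 3} (hik : i ≠ k) :
    Dd ((D.P h t).cond fun u => NPr v D r u = NPr v D r w) (XLr v r i) (XLr v r k) (XLr v r i w) (XLr v r k w) =
      A D v {i, k} r w * A D v ∅ r w / (A D v {i} r w * A D v {k} r w) := by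
  unfold Dd
  rw [lw2_P h hv hw, lw_P h hv hw, lw_P h hv hw]
  have e1 := nY_ins (D := D) (n := nt r) (J := {k}) (d := i) (by simpa using hik) w.2.1
  have e2 := nY_ins (D := D) (n := nt r) (J := ∅) (d := i) (Finset.notMem_empty _) w.2.1
  have e3 : insert i (∅ : Finset (Fin 3)) = {i} := rfl
  have e4 : insert i ({k} : Finset (Fin 3)) = {i, k} := rfl
  rw [e3] at e2
  rw [e4] at e1
  rw [e1, e2]
  have a1 := (A_pos (D := D) (v := v) r w {i}).ne'
  have a2 := (A_pos (D := D) (v := v) r w {k}).ne'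
  have a3 := (A_pos (D := D) (v := v) r w ∅).ne'
  have b1 := (nY_pos (D := D) (nt r) {i, k} w.2.1).ne'
  have b2 := (nY_pos (D := D) (nt r) {i} w.2.1).ne'
  have b3 := (cB_pos (D := D) (nt r) (w.2.1 i)).ne'
  field_simp

/-- the density of the triple -/
theorem D3_A (hv : Codes D v) {t : ℕ} (hw : (D.P h t).p w ≠ 0) :
    D3 ((D.P h t).cond fun u => NPr v D r u = NPr v D r w) (XLr v r 0) (XLr v r 1) (XLr v r 2)
        (XLr v r 0 w) (XLr v r 1 w) (XLr v r 2 w) =
      A D v univ r w * A D v ∅ r w ^ 2 / (A D v {0} r w * A D v {1} r w * A D v {2} r w) := by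
  unfold D3
  rw [lw3_P h hv hw, lw_P h hv hw, lw_P h hv hw, lw_P h hv hw]
  have e0 : (univ : Finset (Fin 3)) = insert 0 (insert 1 {2}) := rfl
  have f0 := nY_ins (D := D) (n := nt r) (J := ∅) (d := 0) (Finset.notMem_empty _) w.2.1
  have f1 := nY_ins (D := D) (n := nt r) (J := ∅) (d := 1) (Finset.notMem_empty _) w.2.1
  have f2 := nY_ins (D := D) (n := nt r) (J := ∅) (d := 2) (Finset.notMem_empty _) w.2.1
  have g1 := nY_ins (D := D) (n := nt r) (J := {2}) (d := 1) (by decide) w.2.1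
  have g2 := nY_ins (D := D) (n := nt r) (J := insert 1 {2}) (d := 0) (by decide) w.2.1
  rw [← e0] at g2
  change nY D (nt r) ∅ w.2.1 = nY D (nt r) {0} w.2.1 * _ at f0
  change nY D (nt r) ∅ w.2.1 = nY D (nt r) {1} w.2.1 * _ at f1
  change nY D (nt r) ∅ w.2.1 = nY D (nt r) {2} w.2.1 * _ at f2
  rw [g2] at g1
  have a0 := (A_pos (D := D) (v := v) r w {0}).ne'
  have a1 := (A_pos (D := D) (v := v) r w {1}).ne'
  have a2 := (A_pos (D := D) (v := v) r w {2}).ne'
  have a3 := (A_pos (D := D) (v := v) r w ∅).ne'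
  have b3 := (nY_pos (D := D) (nt r) ∅ w.2.1).ne'
  have b4 := (nY_pos (D := D) (nt r) univ w.2.1).ne'
  have b0 := (nY_pos (D := D) (nt r) {0} w.2.1).ne'
  have b1 := (nY_pos (D := D) (nt r) {1} w.2.1).ne'
  have b2 := (nY_pos (D := D) (nt r) {2} w.2.1).ne'
  have c0 := (cB_pos (D := D) (nt r) (w.2.1 0)).ne'
  have c1 := (cB_pos (D := D) (nt r) (w.2.1 1)).ne'
  have c2 := (cB_pos (D := D) (nt r) (w.2.1 2)).ne'
  have key : nY D (nt r) univ w.2.1 * nY D (nt r) ∅ w.2.1 ^ 2 =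
      nY D (nt r) {0} w.2.1 * nY D (nt r) {1} w.2.1 * nY D (nt r) {2} w.2.1 := by
    have k1 : nY D (nt r) {0} w.2.1 = nY D (nt r) ∅ w.2.1 / ((D.cB (nt r) (w.2.1 0)).card : ℝ) := by
      rw [f0]; field_simp
    have k2 : nY D (nt r) {1} w.2.1 = nY D (nt r) ∅ w.2.1 / ((D.cB (nt r) (w.2.1 1)).card : ℝ) := by
      rw [f1]; field_simp
    rw [k1, k2, g1]
    have k3 : nY D (nt r) ∅ w.2.1 = nY D (nt r) univ w.2.1 * ((D.cB (nt r) (w.2.1 0)).card : ℝ) *
        ((D.cB (nt r) (w.2.1 1)).card : ℝ) * ((D.cB (nt r) (w.2.1 2)).card : ℝ) := by rw [f2, g1]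
    rw [k3]
    field_simp
  have k5 : (A D v univ r w * nY D (nt r) univ w.2.1) / (A D v ∅ r w * nY D (nt r) ∅ w.2.1) /
      ((A D v {0} r w * nY D (nt r) {0} w.2.1) / (A D v ∅ r w * nY D (nt r) ∅ w.2.1) *
        ((A D v {1} r w * nY D (nt r) {1} w.2.1) / (A D v ∅ r w * nY D (nt r) ∅ w.2.1)) *
        ((A D v {2} r w * nY D (nt r) {2} w.2.1) / (A D v ∅ r w * nY D (nt r) ∅ w.2.1))) =
      (A D v univ r w * A D v ∅ r w ^ 2 / (A D v {0} r w * A D v {1} r w * A D v {2} r w)) *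
        ((nY D (nt r) univ w.2.1 * nY D (nt r) ∅ w.2.1 ^ 2) /
          (nY D (nt r) {0} w.2.1 * nY D (nt r) {1} w.2.1 * nY D (nt r) {2} w.2.1)) := by
    field_simp
  rw [k5, key, div_self (mul_ne_zero (mul_ne_zero b0 b1) b2), mul_one]

end dens

/-! ### every position has positive probability at every time -/

theorem exists_F (t : ℕ) (x : X) (y : Fin 3 → β) : ∃ F : Fin 3 → φ, (D.P h t).p (x, y, F) ≠ 0 := by
  have h1 : ∀ l : Fin 3, ∃ F, D.kf t l x y F ≠ 0 := by
    intro l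
    by_contra hc
    push Not at hc
    have h2 := h.one t l x y
    rw [Finset.sum_eq_zero fun F _ => hc F] at h2
    exact zero_ne_one h2
  choose F hF using h1
  refine ⟨F, ?_⟩
  show (∏ l, D.kf t l x y (F l)) / nn X β (Fin 3) ≠ 0
  exact div_ne_zero (Finset.prod_ne_zero_iff.2 fun l _ => hF l) nn_pos.ne'

/-- the density at the point itself -/
theorem rdev_A0 (hv : Codes D v) (r : ℕ) (w : Pt (Fin 3) X β φ) {J0 : Finset (Fin 3)} {c d : Fin 3} (hcd : c ≠ d)
    (hd : d ∉ J0) :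
    rdev h v J0 c d r w w = A D v (insert d (insert c J0)) r w * A D v J0 r w /
      (A D v (insert c J0) r w * A D v (insert d J0) r w) := by
  obtain ⟨F, hF⟩ := exists_F h 0 w.1 w.2.1
  exact rdev_A h hv (r := r) (w := (w.1, w.2.1, F)) hF hcd hd

/-! ### strong letters, rare letters -/

section point

variable {dg : ℕ → X → ℝ} {prr : ℕ → Fin 3 → φ → φ} {T : ℕ} {Lam : ℝ} {r : ℕ} {w : Pt (Fin 3) X β φ}

/-- the cell of a point shrinks at most by the factor `2` in a half step -/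
theorem cB_half (H : D.Hyp dg prr al T Lam) (hr : r < 2 * T) (b : β) :
    ((D.cB (nt r) b).card : ℝ) ≤ 2 * ((D.cB (nt (r + 1)) b).card : ℝ) := by
  rcases Nat.even_or_odd' r with ⟨t, ht | ht⟩
  · have e1 : nt r = t := by unfold nt; omega
    have e2 : nt (r + 1) = t + 1 := by unfold nt; omega
    rw [e1, e2]
    rcases H.half t (by omega) with h1 | h1
    · rw [h1 b]
      have := cB_pos (D := D) t b
      linarith
    · have := h1 b
      rw [← this]
      push_cast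
      exact le_rfl
  · have e1 : nt (r + 1) = nt r := by unfold nt; omega
    rw [e1]
    have := cB_pos (D := D) (nt r) b
    linarith

/-- the ratio of a letter in a half step -/
theorem rt_le (H : D.Hyp dg prr al T Lam) (hv : Codes D v) (hr : r < 2 * T) {t : ℕ} (hw : (D.P h t).p w ≠ 0)
    (i : Fin 3) :
    rt ((D.P h t).cond fun u => NPr v D (r + 1) u = NPr v D (r + 1) w)
      ((D.P h t).cond fun u => NPr v D r u = NPr v D r w) (XLr v r i) (XLr v r i w) ≤
      2 * Real.exp (aJq h v {i} r w) := by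
  unfold rt
  rw [lw_Q h hv hw, lw_P h hv hw, aJq_eq h r w hv {i}]
  have a1 := A_pos (D := D) (v := v) r w {i}
  have a2 := A_pos (D := D) (v := v) r w ∅
  have a3 := A'_pos (D := D) (v := v) r w {i}
  have a4 := A'_pos (D := D) (v := v) r w ∅
  have e1 : nY D (nt r) ∅ w.2.1 = nY D (nt r) {i} w.2.1 * _ :=
    nY_ins (D := D) (n := nt r) (J := ∅) (d := i) (Finset.notMem_empty _) w.2.1
  have e2 : nY D (nt (r + 1)) ∅ w.2.1 = nY D (nt (r + 1)) {i} w.2.1 * _ :=
    nY_ins (D := D) (n := nt (r + 1)) (J := ∅) (d := i) (Finset.notMem_empty _) w.2.1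
  rw [e1, e2]
  have b1 := nY_pos (D := D) (nt r) {i} w.2.1
  have b2 := nY_pos (D := D) (nt (r + 1)) {i} w.2.1
  have c1 := cB_pos (D := D) (nt r) (w.2.1 i)
  have c2 := cB_pos (D := D) (nt (r + 1)) (w.2.1 i)
  have hc := cB_half H hr (w.2.1 i)
  have hex : Real.exp (Real.log (A' D v {i} r w) - Real.log (A' D v ∅ r w) -
      (Real.log (A D v {i} r w) - Real.log (A D v ∅ r w))) =
      (A' D v {i} r w / A' D v ∅ r w) / (A D v {i} r w / A D v ∅ r w) := by
    rw [← Real.log_div a3.ne' a4.ne', ← Real.log_div a1.ne' a2.ne', ← Real.log_div (div_pos a3 a4).ne' (div_pos a1 a2).ne',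
      Real.exp_log (div_pos (div_pos a3 a4) (div_pos a1 a2))]
  rw [hex]
  have e3 : (A' D v {i} r w * nY D (nt (r + 1)) {i} w.2.1) /
      (A' D v ∅ r w * (nY D (nt (r + 1)) {i} w.2.1 * ((D.cB (nt (r + 1)) (w.2.1 i)).card : ℝ))) /
      ((A D v {i} r w * nY D (nt r) {i} w.2.1) /
        (A D v ∅ r w * (nY D (nt r) {i} w.2.1 * ((D.cB (nt r) (w.2.1 i)).card : ℝ)))) =
      (A' D v {i} r w / A' D v ∅ r w) / (A D v {i} r w / A D v ∅ r w) *
        (((D.cB (nt r) (w.2.1 i)).card : ℝ) / ((D.cB (nt (r + 1)) (w.2.1 i)).card : ℝ)) := by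
    field_simp
  rw [e3, mul_comm (2 : ℝ)]
  refine mul_le_mul_of_nonneg_left ?_ (div_pos (div_pos a3 a4) (div_pos a1 a2)).le
  rw [div_le_iff₀ c2]
  exact hc

/-- **strong letters** -/
theorem Sq_of_Str (H : D.Hyp dg prr al T Lam) (hv : Codes D v) (hr : r < 2 * T) (hw : (D.P h (tm r)).p w ≠ 0) {B : ℝ}
    (hB : Real.exp 3 ≤ B) {i : Fin 3} (hs : Str h v B r i w) : Sq h v i r w := by
  have h1 : B < rt ((D.P h (tm r)).cond fun u => NPr v D (r + 1) u = NPr v D (r + 1) w)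
      ((D.P h (tm r)).cond fun u => NPr v D r u = NPr v D r w) (XLr v r i) (XLr v r i w) := hs
  have h2 := rt_le h H hv hr hw i
  have h3 : Real.exp 3 < 2 * Real.exp (aJq h v {i} r w) := lt_of_le_of_lt hB (lt_of_lt_of_le h1 h2)
  unfold Sq
  by_contra hc
  rw [not_le] at hc
  have h4 : Real.exp (aJq h v {i} r w) < Real.exp 2 := Real.exp_lt_exp.2 hc
  have h5 : Real.exp 3 = Real.exp 1 * Real.exp 2 := by rw [← Real.exp_add]; norm_num
  have h6 : (2 : ℝ) ≤ Real.exp 1 := by have := Real.add_one_le_exp 1; linarith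
  have h7 := Real.exp_pos 2
  nlinarith

/-- alive letters are not rare -/
theorem lJq_one (hv : Codes D v) (hw : (D.P h (tm r)).p w ≠ 0) {p : AP} {i : Fin 3} (hT : TTr h v p r i w) :
    -p.X0 ≤ lJq h v {i} r w := by
  have h1 := hT r le_rfl
  unfold sps sp at h1
  have e1 : (Pr' h r).m (fun u => (u.2.1 i, NPr v D r u)) w =
      (D.P h (tm r)).m (fun u => (PJ {i} u, NPr v D r u)) w := by
    refine m_iff _ (f := fun u => (u.2.1 i, NPr v D r u)) (g := fun u => (PJ {i} u, NPr v D r u))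
      (fun a b => pe.trans (Iff.trans (and_congr_left' ?_) pe.symm)) w
    rw [PJ_iff]
    simp
  have e2 : (Pr' h r).m (fun u => (XLr v r i u, (u.2.1 i, NPr v D r u))) w =
      (D.P h (tm r)).m (fun u => (XLr v r i u, NPr v D r u)) w := by
    refine m_iff _ (f := fun u => (XLr v r i u, (u.2.1 i, NPr v D r u))) (g := fun u => (XLr v r i u, NPr v D r u))
      (fun a b => ⟨fun hh => ?_, fun hh => ?_⟩) w
    · obtain ⟨k1, k2⟩ := pe.1 hh
      exact pe.2 ⟨k1, (pe.1 k2).2⟩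
    · obtain ⟨k1, k2⟩ := pe.1 hh
      exact pe.2 ⟨k1, pe.2 ⟨congrArg Prod.fst k1, k2⟩⟩
  rw [e1, e2, m_X h r w hv (tm r) i] at h1
  have e3 : (D.P h (tm r)).m (fun u => (PJ {i} u, NPr v D r u)) w =
      A D v ∅ r w * nY D (nt r) {i} w.2.1 / nn X β (Fin 3) := by
    have := m_PJs h hv {i} (tmnt r) (tm r) w
    rw [AJ_empty 0 (tm r + 1)] at this
    exact this
  rw [e3] at h1
  rw [lJq_eq h r w hv]
  have a1 := A_pos (D := D) (v := v) r w {i}
  have a2 := A_pos (D := D) (v := v) r w ∅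
  have b1 := nY_pos (D := D) (nt r) {i} w.2.1
  have h4 := nn_pos (X := X) (β := β) (K := Fin 3)
  rw [Real.log_div (mul_pos a2 b1).ne' h4.ne', Real.log_div (mul_pos a1 b1).ne' h4.ne', Real.log_mul a2.ne' b1.ne',
    Real.log_mul a1.ne' b1.ne'] at h1
  linarith

/-- a hot pair, no letter below -/
theorem EvP_pair (H : D.Hyp dg prr al T Lam) (hv : Codes D v) (hr : r < 2 * T) (hw : (D.P h (tm r)).p w ≠ 0)
    {p : AP} (hX : 0 ≤ p.X0) {B θ : ℝ} (hB : Real.exp 3 ≤ B) {i k : Fin 3}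
    (hik : i ≠ k) (hi : TTr h v p r i w) (hk : TTr h v p r k w) (si : Str h v B r i w) (sk : Str h v B r k w)
    (hd : 1 + θ < A D v {i, k} r w * A D v ∅ r w / (A D v {i} r w * A D v {k} r w)) :
    EvP h v θ (3 * p.X0) ∅ i k r w := by
  have e0 : ∀ c d : Fin 3, c ≠ d → rdev h v ∅ c d r w w =
      A D v (insert d {c}) r w * A D v ∅ r w / (A D v {c} r w * A D v {d} r w) := fun c d hcd =>
    rdev_A0 h hv r w hcd (Finset.notMem_empty d)
  have e1 := e0 i k hik
  have e2 := e0 k i hik.symm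
  have e3 : insert k ({i} : Finset (Fin 3)) = {i, k} := Finset.pair_comm k i
  have e4 : insert i ({k} : Finset (Fin 3)) = {i, k} := rfl
  rw [e3] at e1
  rw [e4, mul_comm (A D v {k} r w)] at e2
  refine ⟨Sq_of_Str h H hv hr hw hB si, Sq_of_Str h H hv hr hw hB sk, ?_, ?_, ?_⟩
  · unfold dvp
    rw [e1]
    exact lt_of_lt_of_le (by linarith) (le_abs_self _)
  · unfold dvp
    rw [e2]
    exact lt_of_lt_of_le (by linarith) (le_abs_self _)
  · have h1 := lJq_one h hv hw hi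
    have h2 := lJq_one h hv hw hk
    exact ⟨show -(3 * p.X0) ≤ lJq h v {i} r w by linarith, show -(3 * p.X0) ≤ lJq h v {k} r w by linarith⟩

/-- **THE EVENTS** -/
theorem EvP_of (H : D.Hyp dg prr al T Lam) (hv : Codes D v) (hr : r < 2 * T) (hw : (D.P h (tm r)).p w ≠ 0)
    {p : AP} (hX : 1 ≤ p.X0) {B η : ℝ} (hη0 : 0 < η) (hη1 : η ≤ 1) (hB : Real.exp 3 ≤ B)
    (hR : Rgr h v p B η r w) :
    (∃ q : Fin 3 × Fin 3, q.1 ≠ q.2 ∧ EvP h v (η / 4) (3 * p.X0) ∅ q.1 q.2 r w) ∨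
      EvP h v (η / 4) (3 * p.X0) {0} 1 2 r w := by
  obtain ⟨_, hR⟩ := hR
  rcases hR with ⟨i, k, hik, hi, hk, si, sk, hd⟩ | ⟨hT, s0, s1, s2, hd⟩
  · left
    have hd' : 1 + η < A D v {i, k} r w * A D v ∅ r w / (A D v {i} r w * A D v {k} r w) := by
      rw [← Dd_A h hv hw hik]
      exact hd
    exact ⟨(i, k), hik, EvP_pair h H hv hr hw (by linarith) hB hik hi hk si sk (by linarith)⟩
  · have hd' : 1 + η < A D v univ r w * A D v ∅ r w ^ 2 / (A D v {0} r w * A D v {1} r w * A D v {2} r w) := by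
      rw [← D3_A h hv hw]
      exact hd
    set aU := A D v univ r w with haU
    set aE := A D v ∅ r w with haE
    set a0 := A D v {0} r w with ha0
    set a1 := A D v {1} r w with ha1
    set a2 := A D v {2} r w with ha2
    set b1 := A D v {0, 1} r w with hb1
    set b2 := A D v {0, 2} r w with hb2
    have pU : 0 < aU := A_pos r w univ
    have pE : 0 < aE := A_pos r w ∅
    have p0 : 0 < a0 := A_pos r w {0}
    have p1 : 0 < a1 := A_pos r w {1}
    have p2 : 0 < a2 := A_pos r w {2}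
    have q1 : 0 < b1 := A_pos r w {0, 1}
    have q2 : 0 < b2 := A_pos r w {0, 2}
    by_cases c1 : 1 + η / 4 < b1 * aE / (a0 * a1)
    · exact Or.inl ⟨(0, 1), by decide, EvP_pair h H hv hr hw (by linarith) hB (by decide) (hT 0) (hT 1)
        s0 s1 c1⟩
    by_cases c2 : 1 + η / 4 < b2 * aE / (a0 * a2)
    · exact Or.inl ⟨(0, 2), by decide, EvP_pair h H hv hr hw (by linarith) hB (by decide) (hT 0) (hT 2)
        s0 s2 c2⟩
    right
    rw [not_lt] at c1 c2
    -- the density of `1`, `2` given `0`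
    have key : 1 + η / 4 < aU * a0 / (b1 * b2) := by
      have e : aU * aE ^ 2 / (a0 * a1 * a2) = (b1 * aE / (a0 * a1)) * (b2 * aE / (a0 * a2)) * (aU * a0 / (b1 * b2)) := by
        field_simp
      rw [e] at hd'
      by_contra hc
      rw [not_lt] at hc
      have f1 : (b1 * aE / (a0 * a1)) * (b2 * aE / (a0 * a2)) ≤ (1 + η / 4) * (1 + η / 4) :=
        mul_le_mul c1 c2 (by positivity) (by linarith)
      have f2 : (b1 * aE / (a0 * a1)) * (b2 * aE / (a0 * a2)) * (aU * a0 / (b1 * b2)) ≤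
          (1 + η / 4) * (1 + η / 4) * (1 + η / 4) := mul_le_mul f1 hc (by positivity) (by positivity)
      have f3 : (1 + η / 4) * (1 + η / 4) * (1 + η / 4) ≤ 1 + η := by nlinarith [mul_nonneg hη0.le (sub_nonneg.2 hη1), mul_nonneg (mul_nonneg hη0.le hη0.le) (sub_nonneg.2 hη1)]
      linarith
    have e0 : ∀ c d : Fin 3, c ≠ d → d ∉ ({0} : Finset (Fin 3)) → rdev h v {0} c d r w w =
        A D v (insert d (insert c {0})) r w * A D v {0} r w / (A D v (insert c {0}) r w * A D v (insert d {0}) r w) :=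
      fun c d hcd hd => rdev_A0 h hv r w hcd hd
    have e1 := e0 1 2 (by decide) (by decide)
    have e2 := e0 2 1 (by decide) (by decide)
    have g1 : insert (1 : Fin 3) ({0} : Finset (Fin 3)) = {0, 1} := by decide
    have g2 : insert (2 : Fin 3) ({0} : Finset (Fin 3)) = {0, 2} := by decide
    have g3 : insert (2 : Fin 3) ({0, 1} : Finset (Fin 3)) = univ := by decide
    have g4 : insert (1 : Fin 3) ({0, 2} : Finset (Fin 3)) = univ := by decide
    rw [g1, g2, g3] at e1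
    rw [g1, g2, g4, mul_comm (A D v {0, 2} r w)] at e2
    have hpair : ∀ J : Finset (Fin 3), -(3 * p.X0) ≤ lJq h v J r w := by
      intro J
      rw [lJq_eq h r w hv]
      have m1 : aU ≤ A D v J r w := AJ_mono (Finset.subset_univ J) _ _ _ _ _
      have m2 := Real.log_le_log pU m1
      have l0 := lJq_one h hv hw (hT 0)
      have l1 := lJq_one h hv hw (hT 1)
      have l2 := lJq_one h hv hw (hT 2)
      rw [lJq_eq h r w hv] at l0 l1 l2
      have m3 : 1 < aU * aE ^ 2 / (a0 * a1 * a2) := by linarith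
      have m4 := Real.log_pos m3
      rw [Real.log_div (by positivity) (by positivity), Real.log_mul pU.ne' (by positivity), Real.log_pow,
        Real.log_mul (by positivity) p2.ne', Real.log_mul p0.ne' p1.ne'] at m4
      push_cast at m4
      linarith
    refine ⟨Sq_of_Str h H hv hr hw hB s1, Sq_of_Str h H hv hr hw hB s2, ?_, ?_, hpair _, hpair _⟩
    · unfold dvp
      rw [e1]
      exact lt_of_lt_of_le (by linarith) (le_abs_self _)
    · unfold dvp
      rw [e2]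
      exact lt_of_lt_of_le (by linarith) (le_abs_self _)

end point

theorem XY_EvP (θ X1 : ℝ) (J0 : Finset (Fin 3)) (c d : Fin 3) (r : ℕ) : XY (EvP h v θ X1 J0 c d r) := fun _ _ _ _ => rfl

end K13

open K13

variable {h}

/-- **from the events of `VDyn` to `EvP`** -/
theorem rgr_sum (hv : Codes D v) {dg : ℕ → X → ℝ} {prr : ℕ → Fin 3 → φ → φ} {T : ℕ} {Lam : ℝ}
    (H : D.Hyp dg prr al T Lam) {p : AP} (hX0 : 1 ≤ p.X0) {B η : ℝ} (hB : Real.exp 3 ≤ B) (hη0 : 0 < η) (hη1 : η ≤ 1)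
    {r : ℕ} (hr : r < 2 * T) :
    (Pr' h r).Pr (fun w => Rgr h v p B η r w) ≤
      ∑ q ∈ (univ : Finset (Fin 3 × Fin 3)).filter (fun q => q.1 ≠ q.2),
        (D.P h 0).Pr (EvP h v (η / 4) (3 * p.X0) ∅ q.1 q.2 r) + (D.P h 0).Pr (EvP h v (η / 4) (3 * p.X0) {0} 1 2 r) := by
  classical
  have h1 : (Pr' h r).Pr (fun w => Rgr h v p B η r w) ≤ (Pr' h r).Pr (fun w =>
      (∃ q ∈ (univ : Finset (Fin 3 × Fin 3)).filter (fun q => q.1 ≠ q.2), EvP h v (η / 4) (3 * p.X0) ∅ q.1 q.2 r w) ∨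
        EvP h v (η / 4) (3 * p.X0) {0} 1 2 r w) := by
    refine FP.Pr_mono _ fun w hw hR => ?_
    rcases EvP_of h H hv hr hw hX0 hη0 hη1 hB hR with ⟨q, hq, hE⟩ | hE
    · exact Or.inl ⟨q, Finset.mem_filter.2 ⟨mem_univ _, hq⟩, hE⟩
    · exact Or.inr hE
  refine h1.trans ?_
  refine (FP.Pr_or_le _ _ _).trans ?_
  have e : ∀ (J0 : Finset (Fin 3)) (c d : Fin 3), (Pr' h r).Pr (EvP h v (η / 4) (3 * p.X0) J0 c d r) =
      (D.P h 0).Pr (EvP h v (η / 4) (3 * p.X0) J0 c d r) := fun J0 c d =>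
    Pr_xy h (XY_EvP h (v := v) (η / 4) (3 * p.X0) J0 c d r) (tm r) 0
  refine add_le_add ?_ (e {0} 1 2).le
  refine ((Pr' h r).Pr_ex_le ((univ : Finset (Fin 3 × Fin 3)).filter (fun q => q.1 ≠ q.2))
    fun q w => EvP h v (η / 4) (3 * p.X0) ∅ q.1 q.2 r w).trans ?_
  exact Finset.sum_le_sum fun q _ => (e ∅ q.1 q.2).le

end

end Pool.Agent.GMH.TD
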