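import Mathlib

/-!
# GMH.TD14A: thin dynamics, the numbers (helper45)

Two real numbers: `a = b^A` (`A` = sum of the small exponents, `2^128 ≤ a`) and `W = N1`, `a^64 ≤ W`.  Parameters:
`u = a^-4`, `p1 = a^-5`, `δ = a^-7`, `kp = exp (-a^4) / W^4`, `e3 = sqrt kp`, `dl = W^-2`, `M = ⌈W^6 exp (2 a^5)⌉`.
-/

set_option autoImplicit false
set_option linter.unusedSectionVars false

namespace Pool.Agent.GMH.TD.Nm

noncomputable section

/-- the two numbers -/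
structure Hy (a W : ℝ) : Prop where
  ha : 2 ^ 128 ≤ a
  hW : a ^ 64 ≤ W

variable {a W : ℝ}

theorem Hy.a1 (H : Hy a W) : 1 ≤ a := le_trans (by norm_num) H.ha

theorem Hy.a0 (H : Hy a W) : 0 < a := lt_of_lt_of_le one_pos H.a1

theorem Hy.W1 (H : Hy a W) : 1 ≤ W := le_trans (one_le_pow₀ H.a1) H.hW

theorem Hy.W0 (H : Hy a W) : 0 < W := lt_of_lt_of_le one_pos H.W1

/-- a constant is absorbed by one power -/
theorem Hy.cl (H : Hy a W) {c : ℝ} (hc : c ≤ 2 ^ 128) {j k : ℕ} (hjk : j < k) : c * a ^ j ≤ a ^ k := by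
  have h1 : a ^ (j + 1) ≤ a ^ k := pow_le_pow_right₀ H.a1 hjk
  have h2 : c * a ^ j ≤ a ^ (j + 1) := by
    rw [pow_succ, mul_comm (a ^ j)]
    exact mul_le_mul_of_nonneg_right (hc.trans H.ha) (pow_nonneg H.a0.le _)
  exact h2.trans h1

theorem Hy.cl' (H : Hy a W) {c : ℝ} (hc : c ≤ 2 ^ 128) {j : ℕ} (hj : 0 < j) : c ≤ a ^ j := by
  have := H.cl hc (j := 0) hj
  simpa using this

theorem Hy.aW (H : Hy a W) {k : ℕ} (hk : k ≤ 64) : a ^ k ≤ W := (pow_le_pow_right₀ H.a1 hk).trans H.hW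

theorem Hy.sqW (H : Hy a W) {k : ℕ} (hk : k ≤ 32) : a ^ k ≤ Real.sqrt W := by
  apply Real.le_sqrt_of_sq_le
  rw [← pow_mul]
  exact H.aW (by omega)

theorem Hy.ssW (H : Hy a W) {k : ℕ} (hk : k ≤ 16) : a ^ k ≤ Real.sqrt (Real.sqrt W) := by
  apply Real.le_sqrt_of_sq_le
  rw [← pow_mul]
  exact H.sqW (by omega)

theorem Hy.log_le (H : Hy a W) : Real.log W ≤ 4 * Real.sqrt (Real.sqrt W) := by
  have h0 : (0:ℝ) ≤ Real.sqrt W := Real.sqrt_nonneg _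
  have h1 : Real.log (Real.sqrt (Real.sqrt W)) = Real.log W / 2 / 2 := by
    rw [Real.log_sqrt h0, Real.log_sqrt H.W0.le]
  have h2 : Real.log (Real.sqrt (Real.sqrt W)) ≤ Real.sqrt (Real.sqrt W) :=
    (Real.log_le_self (Real.sqrt_nonneg _))
  linarith

/-- size of the threshold of the covers -/
def uN (a : ℝ) : ℝ := (a ^ 4)⁻¹

/-- rows -/
def pN (a : ℝ) : ℝ := (a ^ 5)⁻¹

/-- moved letters -/
def dN (a : ℝ) : ℝ := (a ^ 7)⁻¹

/-- clock -/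
def kN (a W : ℝ) : ℝ := Real.exp (-(a ^ 4)) / W ^ 4

/-- square root of the clock -/
def eN (a W : ℝ) : ℝ := Real.exp (-(a ^ 4 / 2)) / W ^ 2

/-- tiny digits -/
def lN (W : ℝ) : ℝ := (W ^ 2)⁻¹

/-- size of the samples -/
def MN (a W : ℝ) : ℕ := ⌈W ^ 6 * Real.exp (2 * a ^ 5)⌉₊

theorem Hy.u0 (H : Hy a W) : 0 < uN a := inv_pos.2 (pow_pos H.a0 _)

theorem Hy.p0 (H : Hy a W) : 0 < pN a := inv_pos.2 (pow_pos H.a0 _)

theorem Hy.d0 (H : Hy a W) : 0 < dN a := inv_pos.2 (pow_pos H.a0 _)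

theorem Hy.k0 (H : Hy a W) : 0 < kN a W := div_pos (Real.exp_pos _) (pow_pos H.W0 _)

theorem Hy.e0 (H : Hy a W) : 0 < eN a W := div_pos (Real.exp_pos _) (pow_pos H.W0 _)

theorem Hy.l0 (H : Hy a W) : 0 < lN W := inv_pos.2 (pow_pos H.W0 _)

/-- `c / a^k ≤ 1 / a^j` -/
theorem Hy.inv_le (H : Hy a W) {c : ℝ} (hc : c ≤ 2 ^ 128) {j k : ℕ} (hjk : j < k) : c * (a ^ k)⁻¹ ≤ (a ^ j)⁻¹ := by
  have h1 := H.cl hc hjk
  have hj : 0 < a ^ j := pow_pos H.a0 _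
  have hk : 0 < a ^ k := pow_pos H.a0 _
  rw [← div_eq_mul_inv, div_le_iff₀ hk, inv_mul_eq_div, le_div_iff₀ hj]
  exact h1

theorem Hy.inv_le1 (H : Hy a W) {k : ℕ} : (a ^ k)⁻¹ ≤ 1 := inv_le_one_of_one_le₀ (one_le_pow₀ H.a1)

theorem Hy.l_le (H : Hy a W) {c : ℝ} (hc : c ≤ 2 ^ 128) : c * lN W ≤ 1 := by
  unfold lN
  rw [← div_eq_mul_inv, div_le_one (pow_pos H.W0 _)]
  calc c ≤ a ^ 1 := H.cl' hc one_pos
    _ ≤ W := H.aW (by norm_num)
    _ ≤ W ^ 2 := by nlinarith [H.W1]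

theorem Hy.up (H : Hy a W) : 2 ^ 12 * pN a ≤ uN a := H.inv_le (by norm_num) (by norm_num)

theorem Hy.dp (H : Hy a W) : 16 * dN a ≤ pN a := H.inv_le (by norm_num) (by norm_num)

theorem Hy.d_le (H : Hy a W) {θ : ℝ} (hθ : (a ^ 2)⁻¹ ≤ θ) : 64 * dN a ≤ θ :=
  (H.inv_le (j := 2) (by norm_num) (by norm_num)).trans hθ

theorem Hy.d_half (H : Hy a W) : dN a ≤ 1 / 2 := by
  have h : 2 * (a ^ 7)⁻¹ ≤ (a ^ 0)⁻¹ := H.inv_le (by norm_num) (by norm_num)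
  unfold dN
  rw [pow_zero, inv_one] at h
  linarith

theorem Hy.p_le1 (H : Hy a W) : pN a ≤ 1 := H.inv_le1

theorem Hy.u_le1 (H : Hy a W) : uN a ≤ 1 := H.inv_le1

theorem Hy.expa (H : Hy a W) (k : ℕ) : a ^ k ≤ Real.exp (k * a) := by
  have h : a ≤ Real.exp a := by linarith [Real.add_one_le_exp a]
  calc a ^ k ≤ (Real.exp a) ^ k := pow_le_pow_left₀ H.a0.le h k
    _ = Real.exp (k * a) := by rw [← Real.exp_nat_mul]

/-- powers against the exponential -/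
theorem Hy.pe (H : Hy a W) {c : ℝ} (hc : c ≤ 2 ^ 128) {k m : ℕ} (hk : k + 1 ≤ 2 ^ 64) (hm : 2 ≤ m) :
    c * a ^ k ≤ Real.exp (a ^ m / 2 ^ 32) := by
  have h1 : c * a ^ k ≤ a ^ (k + 1) := H.cl hc (Nat.lt_succ_self k)
  refine h1.trans ((H.expa (k + 1)).trans (Real.exp_le_exp.2 ?_))
  have h2 : ((k + 1 : ℕ) : ℝ) ≤ 2 ^ 64 := by exact_mod_cast hk
  have h3 : ((k + 1 : ℕ) : ℝ) * a ≤ 2 ^ 64 * a := mul_le_mul_of_nonneg_right h2 H.a0.le
  have h4 : 2 ^ 96 * a ≤ a ^ m := by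
    have := H.cl (c := 2 ^ 96) (by norm_num) (j := 1) (k := m) (by omega)
    simpa using this
  rw [le_div_iff₀ (by norm_num)]
  nlinarith

theorem Hy.e_lt1 (H : Hy a W) : eN a W < 1 := by
  unfold eN
  rw [div_lt_one (pow_pos H.W0 _)]
  calc Real.exp (-(a ^ 4 / 2)) < 1 := by
        rw [Real.exp_lt_one_iff]
        have := pow_pos H.a0 4
        linarith
    _ ≤ W ^ 2 := one_le_pow₀ H.W1

theorem ee : eN a W ^ 2 = kN a W := by
  unfold eN kN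
  rw [div_pow, ← Real.exp_nat_mul, ← pow_mul]
  congr 2
  push_cast
  ring

theorem Hy.sqk (H : Hy a W) : Real.sqrt (kN a W) = eN a W := by
  rw [← ee, Real.sqrt_sq H.e0.le]

theorem Hy.ke (H : Hy a W) : kN a W / eN a W = eN a W := by
  rw [← ee, pow_two, mul_div_assoc, div_self H.e0.ne', mul_one]

theorem Hy.k_lt1 (H : Hy a W) : kN a W < 1 := by
  rw [← ee]
  exact pow_lt_one₀ H.e0.le H.e_lt1 (by norm_num)

theorem Hy.ke_le (H : Hy a W) : kN a W ≤ eN a W := by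
  rw [← ee]
  nlinarith [H.e0, H.e_lt1]

theorem Hy.e_le (H : Hy a W) {c : ℝ} (hc : c ≤ 2 ^ 128) {k : ℕ} (hk : k ≤ 2 ^ 32) :
    c * eN a W ≤ (a ^ k)⁻¹ * (W ^ 2)⁻¹ := by
  unfold eN
  have h1 : c * a ^ k ≤ Real.exp (a ^ 4 / 2 ^ 32) := H.pe hc (by omega) (by norm_num)
  have h2 : Real.exp (a ^ 4 / 2 ^ 32) ≤ Real.exp (a ^ 4 / 2) := Real.exp_le_exp.2 (by
    have := pow_pos H.a0 4
    rw [div_le_div_iff₀ (by norm_num) (by norm_num)]
    nlinarith)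
  have h3 : c * Real.exp (-(a ^ 4 / 2)) ≤ (a ^ k)⁻¹ := by
    rw [Real.exp_neg, ← div_eq_mul_inv, div_le_iff₀ (Real.exp_pos _), inv_mul_eq_div, le_div_iff₀ (pow_pos H.a0 _)]
    exact h1.trans h2
  rw [div_eq_mul_inv, ← mul_assoc]
  exact mul_le_mul_of_nonneg_right h3 (inv_nonneg.2 (pow_nonneg H.W0.le _))

theorem Hy.e_le' (H : Hy a W) {c : ℝ} (hc : c ≤ 2 ^ 128) {k : ℕ} (hk : k ≤ 2 ^ 32) :
    c * eN a W ≤ (a ^ k)⁻¹ := by
  refine (H.e_le hc hk).trans ?_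
  exact mul_le_of_le_one_right (inv_nonneg.2 (pow_nonneg H.a0.le _)) (inv_le_one_of_one_le₀ (one_le_pow₀ H.W1))

theorem Hy.uk (H : Hy a W) : 2 ^ 12 * kN a W ≤ uN a := by
  have h := H.e_le' (c := 2 ^ 12) (by norm_num) (k := 4) (by norm_num)
  have := H.ke_le
  unfold uN
  linarith

/-- logarithm of the clock -/
theorem Hy.logk (H : Hy a W) : a ^ 4 ≤ Real.log (1 / kN a W) := by
  unfold kN
  rw [one_div_div, Real.log_div (pow_ne_zero _ H.W0.ne') (Real.exp_ne_zero _), Real.log_exp, Real.log_pow]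
  have := Real.log_nonneg H.W1
  push_cast
  linarith

theorem Hy.loge (H : Hy a W) : a ^ 4 / 2 ≤ Real.log (1 / eN a W) := by
  unfold eN
  rw [one_div_div, Real.log_div (pow_ne_zero _ H.W0.ne') (Real.exp_ne_zero _), Real.log_exp, Real.log_pow]
  have := Real.log_nonneg H.W1
  push_cast
  linarith

theorem logl : Real.log (1 / lN W) = 2 * Real.log W := by
  unfold lN
  rw [one_div, inv_inv, Real.log_pow]
  push_cast
  ring

/-- the square root which appears everywhere -/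
theorem Hy.sq_le (H : Hy a W) {X1 : ℝ} (hX : X1 ≤ a ^ 2) :
    Real.sqrt ((X1 + Real.log (1 / lN W) + 1) / W) ≤ (a ^ 16)⁻¹ := by
  rw [logl]
  have h1 := H.log_le
  set s := Real.sqrt (Real.sqrt W) with hs
  have hs16 : a ^ 16 ≤ s := H.ssW le_rfl
  have hss : s * s = Real.sqrt W := Real.mul_self_sqrt (Real.sqrt_nonneg _)
  have hW : Real.sqrt W * Real.sqrt W = W := Real.mul_self_sqrt H.W0.le
  have hs0 : 0 < s := lt_of_lt_of_le (pow_pos H.a0 _) hs16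
  have h16 : (16:ℝ) ≤ s := (H.cl' (c := 16) (by norm_num) (by norm_num)).trans hs16
  have ha2 : 1 * a ^ 2 ≤ a ^ 16 := H.cl (by norm_num) (by norm_num)
  have h2 : X1 + 2 * Real.log W + 1 ≤ s * s := by nlinarith
  have h3 : (X1 + 2 * Real.log W + 1) / W ≤ ((a ^ 16)⁻¹) ^ 2 := by
    rw [div_le_iff₀ H.W0, inv_pow, inv_mul_eq_div, le_div_iff₀ (pow_pos (pow_pos H.a0 _) _)]
    have h4 : (a ^ 16) ^ 2 ≤ s * s := by nlinarith [pow_pos H.a0 16]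
    have h5 : 0 ≤ s * s := by positivity
    calc (X1 + 2 * Real.log W + 1) * (a ^ 16) ^ 2 ≤ (s * s) * (s * s) :=
          mul_le_mul h2 h4 (by positivity) h5
      _ = W := by rw [hss, hW]
  calc Real.sqrt ((X1 + 2 * Real.log W + 1) / W) ≤ Real.sqrt (((a ^ 16)⁻¹) ^ 2) := Real.sqrt_le_sqrt h3
    _ = (a ^ 16)⁻¹ := Real.sqrt_sq (inv_nonneg.2 (pow_nonneg H.a0.le _))

theorem Hy.nu (H : Hy a W) : 2 ^ 12 * Real.sqrt ((Real.log (1 / lN W) + 1) / W) ≤ uN a := by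
  have h := H.sq_le (X1 := 0) (by positivity)
  rw [zero_add] at h
  calc 2 ^ 12 * Real.sqrt ((Real.log (1 / lN W) + 1) / W) ≤ 2 ^ 12 * (a ^ 16)⁻¹ :=
        mul_le_mul_of_nonneg_left h (by norm_num)
    _ ≤ (a ^ 4)⁻¹ := H.inv_le (by norm_num) (by norm_num)

theorem Hy.M_le (H : Hy a W) : (MN a W : ℝ) ≤ 2 * (W ^ 6 * Real.exp (2 * a ^ 5)) := by
  have h0 : 0 ≤ W ^ 6 * Real.exp (2 * a ^ 5) := by have := H.W0; positivity
  have h1 : (MN a W : ℝ) < W ^ 6 * Real.exp (2 * a ^ 5) + 1 := Nat.ceil_lt_add_one h0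
  have h2 : 1 ≤ W ^ 6 * Real.exp (2 * a ^ 5) := by
    have h3 : 1 ≤ W ^ 6 := one_le_pow₀ H.W1
    have h4 : 1 ≤ Real.exp (2 * a ^ 5) := Real.one_le_exp (by have := H.a0; positivity)
    nlinarith
  linarith

theorem le_M : W ^ 6 * Real.exp (2 * a ^ 5) ≤ (MN a W : ℝ) := Nat.le_ceil _

/-- the key exponential -/
theorem Hy.key (H : Hy a W) : 64 * W ^ 16 * Real.exp (8 * a ^ 5) ≤ Real.exp (W * uN a / 64) := by
  have hl := H.log_le
  set s := Real.sqrt (Real.sqrt W) with hs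
  have hs16 : a ^ 16 ≤ s := H.ssW le_rfl
  have hss : s * s = Real.sqrt W := Real.mul_self_sqrt (Real.sqrt_nonneg _)
  have hW : Real.sqrt W * Real.sqrt W = W := Real.mul_self_sqrt H.W0.le
  have hs0 : 0 < s := lt_of_lt_of_le (pow_pos H.a0 _) hs16
  have h1 : (64:ℝ) ≤ Real.exp 64 := by linarith [Real.add_one_le_exp (64:ℝ)]
  have h2 : W ^ 16 = Real.exp (16 * Real.log W) := by
    have := Real.exp_nat_mul (Real.log W) 16
    push_cast at this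
    rw [this, Real.exp_log H.W0]
  have h3 : 64 * W ^ 16 * Real.exp (8 * a ^ 5) ≤ Real.exp (64 + 16 * Real.log W + 8 * a ^ 5) := by
    rw [Real.exp_add, Real.exp_add, h2]
    have e1 := Real.exp_pos (16 * Real.log W)
    have e2 := Real.exp_pos (8 * a ^ 5)
    exact mul_le_mul_of_nonneg_right (mul_le_mul_of_nonneg_right h1 e1.le) e2.le
  refine h3.trans (Real.exp_le_exp.2 ?_)
  have h5 : 8 * a ^ 5 ≤ a ^ 16 := H.cl (by norm_num) (by norm_num)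
  have h6 : (64:ℝ) ≤ a ^ 16 := H.cl' (by norm_num) (by norm_num)
  have h7 : 64 + 16 * Real.log W + 8 * a ^ 5 ≤ 66 * s := by linarith
  have h8 : (66:ℝ) ≤ s := (H.cl' (c := 66) (by norm_num) (by norm_num)).trans hs16
  have h9 : 66 * s ≤ s * s := mul_le_mul_of_nonneg_right h8 hs0.le
  have h10 : s * s ≤ W * uN a / 64 := by
    unfold uN
    rw [hss, le_div_iff₀ (by norm_num), ← div_eq_mul_inv, le_div_iff₀ (pow_pos H.a0 _)]
    have h11 : 64 * a ^ 4 ≤ Real.sqrt W := (H.cl (c := 64) (by norm_num) (j := 4) (k := 5) (by norm_num)).trans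
      (H.sqW (by norm_num))
    calc Real.sqrt W * 64 * a ^ 4 = Real.sqrt W * (64 * a ^ 4) := by ring
      _ ≤ Real.sqrt W * Real.sqrt W := mul_le_mul_of_nonneg_left h11 (Real.sqrt_nonneg _)
      _ = W := hW
  linarith

/-- `hsm` of the thin dynamics -/
theorem Hy.sm (H : Hy a W) {X1 : ℝ} (hX : X1 ≤ a ^ 2) :
    2 * (MN a W * Real.exp (2 * X1)) * Real.exp (-(W * uN a / 64)) ≤ (W ^ 10)⁻¹ * Real.exp (-(4 * a ^ 5)) := by
  have hk := H.key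
  have hM := H.M_le
  have hX2 : Real.exp (2 * X1) ≤ Real.exp (2 * a ^ 5) := Real.exp_le_exp.2 (by
    have : 1 * a ^ 2 ≤ a ^ 5 := H.cl (by norm_num) (by norm_num)
    linarith)
  have hW := H.W0
  have e1 := Real.exp_pos (2 * a ^ 5)
  have h1 : 2 * (MN a W * Real.exp (2 * X1)) ≤ 4 * W ^ 6 * Real.exp (4 * a ^ 5) := by
    have h2 : Real.exp (4 * a ^ 5) = Real.exp (2 * a ^ 5) * Real.exp (2 * a ^ 5) := by
      rw [← Real.exp_add]; ring_nf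
    rw [h2]
    have h3 : (MN a W : ℝ) * Real.exp (2 * X1) ≤ 2 * (W ^ 6 * Real.exp (2 * a ^ 5)) * Real.exp (2 * a ^ 5) :=
      mul_le_mul hM hX2 (Real.exp_pos _).le (by positivity)
    linarith
  rw [Real.exp_neg, ← div_eq_mul_inv, div_le_iff₀ (Real.exp_pos _)]
  have h4 : (W ^ 10)⁻¹ * Real.exp (-(4 * a ^ 5)) * (64 * W ^ 16 * Real.exp (8 * a ^ 5)) =
      64 * W ^ 6 * Real.exp (4 * a ^ 5) := by
    have h5 : Real.exp (8 * a ^ 5) = Real.exp (4 * a ^ 5) * Real.exp (4 * a ^ 5) := by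
      rw [← Real.exp_add]; ring_nf
    rw [h5, Real.exp_neg]
    have := (Real.exp_pos (4 * a ^ 5)).ne'
    field_simp
  calc 2 * (MN a W * Real.exp (2 * X1)) ≤ 4 * W ^ 6 * Real.exp (4 * a ^ 5) := h1
    _ ≤ 64 * W ^ 6 * Real.exp (4 * a ^ 5) := by
        have : 0 ≤ W ^ 6 * Real.exp (4 * a ^ 5) := by positivity
        linarith
    _ = (W ^ 10)⁻¹ * Real.exp (-(4 * a ^ 5)) * (64 * W ^ 16 * Real.exp (8 * a ^ 5)) := h4.symm
    _ ≤ _ := mul_le_mul_of_nonneg_left hk (by positivity)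

theorem Hy.sm1 (H : Hy a W) {X1 : ℝ} (hX : X1 ≤ a ^ 2) :
    2 * (MN a W * Real.exp (2 * X1)) * Real.exp (-(W * uN a / 64)) ≤ 1 := by
  refine (H.sm hX).trans ?_
  have h1 : (W ^ 10)⁻¹ ≤ 1 := inv_le_one_of_one_le₀ (one_le_pow₀ H.W1)
  have h2 : Real.exp (-(4 * a ^ 5)) ≤ 1 := Real.exp_le_one_iff.2 (by
    have := pow_pos H.a0 5
    linarith)
  exact mul_le_one₀ h1 (Real.exp_pos _).le h2

/-- the exceptional positions -/
theorem Hy.e9 (H : Hy a W) {X1 : ℝ} (hX : X1 ≤ a ^ 2) :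
    2 * Real.exp 1 * (MN a W * Real.exp (2 * X1)) * Real.exp (-(W * uN a / 64)) / lN W ≤
      (W ^ 7)⁻¹ * Real.exp (-(4 * a ^ 5)) := by
  have h1 := H.sm hX
  have h2 : Real.exp 1 ≤ W := by
    have h3 : Real.exp 1 ≤ 3 := by linarith [Real.exp_one_lt_d9]
    have h4 : (3:ℝ) ≤ a ^ 1 := H.cl' (by norm_num) one_pos
    exact h3.trans (h4.trans (H.aW (by norm_num)))
  have hW := H.W0
  unfold lN
  rw [div_inv_eq_mul]
  have h5 : 2 * Real.exp 1 * (MN a W * Real.exp (2 * X1)) * Real.exp (-(W * uN a / 64)) * W ^ 2 =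
      Real.exp 1 * W ^ 2 * (2 * (MN a W * Real.exp (2 * X1)) * Real.exp (-(W * uN a / 64))) := by ring
  rw [h5]
  calc Real.exp 1 * W ^ 2 * (2 * (MN a W * Real.exp (2 * X1)) * Real.exp (-(W * uN a / 64)))
      ≤ W * W ^ 2 * ((W ^ 10)⁻¹ * Real.exp (-(4 * a ^ 5))) := by
        apply mul_le_mul (mul_le_mul_of_nonneg_right h2 (by positivity)) h1 (by positivity) (by positivity)
    _ = (W ^ 7)⁻¹ * Real.exp (-(4 * a ^ 5)) := by field_simp

variable {n Lam : ℝ}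

/-- number of epochs -/
theorem Hy.nep (H : Hy a W) (hn : 1 ≤ n) (hL : 2 ≤ Lam) (hnL : 64 * n * Lam ≤ a) :
    1 + 6 * n * W * Lam + 8 * (4 / dN a ^ 2 * (9 * n * Lam)) / kN a W ≤ W ^ 5 * Real.exp (a ^ 5) := by
  have hW := H.W0
  have hW1 := H.W1
  have ha := H.a0
  have hnL0 : 0 < n * Lam := by positivity
  have haW : a ≤ W := by simpa using H.aW (k := 1) (by norm_num)
  have h1 : 1 + 6 * n * W * Lam ≤ W ^ 2 := by
    have : 6 * n * W * Lam = 6 * (n * Lam) * W := by ring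
    rw [this]
    have h2 : 6 * (n * Lam) + 1 ≤ a := by nlinarith
    nlinarith
  have h2 : W ^ 2 ≤ W ^ 4 := pow_le_pow_right₀ hW1 (by norm_num)
  have h3 : 8 * (4 / dN a ^ 2 * (9 * n * Lam)) / kN a W ≤ W ^ 4 * (a ^ 16 * Real.exp (a ^ 4)) := by
    have h4 : 8 * (4 / dN a ^ 2 * (9 * n * Lam)) / kN a W =
        W ^ 4 * (a ^ 14 * (288 * (n * Lam)) * Real.exp (a ^ 4)) := by
      unfold dN kN
      rw [Real.exp_neg]
      have := (Real.exp_pos (a ^ 4)).ne'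
      field_simp
      ring
    rw [h4]
    have h5 : 288 * (n * Lam) ≤ a ^ 2 := by
      have : 5 * a ^ 1 ≤ a ^ 2 := H.cl (by norm_num) (by norm_num)
      nlinarith
    have h6 : a ^ 14 * (288 * (n * Lam)) ≤ a ^ 16 := by
      calc a ^ 14 * (288 * (n * Lam)) ≤ a ^ 14 * a ^ 2 := mul_le_mul_of_nonneg_left h5 (by positivity)
        _ = a ^ 16 := by ring
    exact mul_le_mul_of_nonneg_left (mul_le_mul_of_nonneg_right h6 (Real.exp_pos _).le) (by positivity)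
  have h7 : a ^ 16 * Real.exp (a ^ 4) ≤ Real.exp (a ^ 5) := by
    have h8 := H.expa 16
    calc a ^ 16 * Real.exp (a ^ 4) ≤ Real.exp ((16 : ℕ) * a) * Real.exp (a ^ 4) :=
          mul_le_mul_of_nonneg_right h8 (Real.exp_pos _).le
      _ = Real.exp ((16 : ℕ) * a + a ^ 4) := by rw [Real.exp_add]
      _ ≤ Real.exp (a ^ 5) := Real.exp_le_exp.2 (by
        have h9 : 32 * a ^ 1 ≤ a ^ 5 := H.cl (by norm_num) (by norm_num)
        have h10 : 2 * a ^ 4 ≤ a ^ 5 := H.cl (by norm_num) (by norm_num)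
        push_cast
        linarith)
  have h11 : 1 ≤ Real.exp (a ^ 5) := Real.one_le_exp (by positivity)
  have h12 : W ^ 4 * (a ^ 16 * Real.exp (a ^ 4)) ≤ W ^ 4 * Real.exp (a ^ 5) :=
    mul_le_mul_of_nonneg_left h7 (by positivity)
  have h13 : W ^ 4 ≤ W ^ 4 * Real.exp (a ^ 5) := le_mul_of_one_le_right (by positivity) h11
  have h14 : 2 * (W ^ 4 * Real.exp (a ^ 5)) ≤ W ^ 5 * Real.exp (a ^ 5) := by
    have h15 : (2:ℝ) ≤ W := (H.cl' (c := 2) (by norm_num) one_pos).trans (H.aW (by norm_num))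
    have : W ^ 5 * Real.exp (a ^ 5) = W * (W ^ 4 * Real.exp (a ^ 5)) := by ring
    rw [this]
    exact mul_le_mul_of_nonneg_right h15 (by positivity)
  linarith

/-- tiny digits -/
theorem Hy.tny (H : Hy a W) (hnL : 64 * n * Lam ≤ a) : 64 * lN W * (64 * n * W * Lam) ≤ (a ^ 60)⁻¹ := by
  have hW := H.W0
  have h1 : 64 * n * W * Lam = 64 * n * Lam * W := by ring
  unfold lN
  rw [h1]
  have h2 : 64 * (W ^ 2)⁻¹ * (64 * n * Lam * W) = 64 * (64 * n * Lam) / W := by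
    field_simp
  rw [h2, div_le_iff₀ hW, inv_mul_eq_div, le_div_iff₀ (pow_pos H.a0 _)]
  calc 64 * (64 * n * Lam) * a ^ 60 ≤ 64 * a * a ^ 60 :=
        mul_le_mul_of_nonneg_right (mul_le_mul_of_nonneg_left hnL (by norm_num)) (pow_nonneg H.a0.le _)
    _ = 64 * a ^ 61 := by ring
    _ ≤ a ^ 64 := H.cl (by norm_num) (by norm_num)
    _ ≤ W := H.hW

/-- the epochs times the exceptional probability -/
theorem Hy.nep_e9 (H : Hy a W) {X1 Nep : ℝ} (hX : X1 ≤ a ^ 2) (hN : Nep ≤ W ^ 5 * Real.exp (a ^ 5)) :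
    2 * Real.exp 1 * (MN a W * Real.exp (2 * X1)) * Real.exp (-(W * uN a / 64)) / lN W * Nep ≤ (a ^ 64)⁻¹ := by
  have hW := H.W0
  have h1 := H.e9 hX
  have hl := H.l0
  have h0 : 0 ≤ 2 * Real.exp 1 * (MN a W * Real.exp (2 * X1)) * Real.exp (-(W * uN a / 64)) / lN W := by positivity
  calc 2 * Real.exp 1 * (MN a W * Real.exp (2 * X1)) * Real.exp (-(W * uN a / 64)) / lN W * Nep
      ≤ 2 * Real.exp 1 * (MN a W * Real.exp (2 * X1)) * Real.exp (-(W * uN a / 64)) / lN W *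
        (W ^ 5 * Real.exp (a ^ 5)) := mul_le_mul_of_nonneg_left hN h0
    _ ≤ (W ^ 7)⁻¹ * Real.exp (-(4 * a ^ 5)) * (W ^ 5 * Real.exp (a ^ 5)) :=
        mul_le_mul_of_nonneg_right h1 (by positivity)
    _ = (W ^ 2)⁻¹ * Real.exp (-(3 * a ^ 5)) := by
        have h2 : Real.exp (-(4 * a ^ 5)) * Real.exp (a ^ 5) = Real.exp (-(3 * a ^ 5)) := by
          rw [← Real.exp_add]; ring_nf
        rw [← h2]
        field_simp
    _ ≤ (W ^ 2)⁻¹ * 1 := mul_le_mul_of_nonneg_left (Real.exp_le_one_iff.2 (by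
        have := pow_pos H.a0 5
        linarith)) (by positivity)
    _ ≤ (a ^ 64)⁻¹ := by
        rw [mul_one]
        apply inv_anti₀ (pow_pos H.a0 _)
        calc a ^ 64 ≤ W := H.hW
          _ ≤ W ^ 2 := by nlinarith [H.W1]

/-- the epochs against the size of the samples -/
theorem Hy.nep_M (H : Hy a W) {Nep : ℝ} (hN : Nep ≤ W ^ 5 * Real.exp (a ^ 5)) :
    6 / (uN a * (MN a W + 1)) * Nep ≤ (a ^ 59)⁻¹ := by
  have hW := H.W0
  have ha := H.a0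
  have hM := le_M (a := a) (W := W)
  have hM0 : (0:ℝ) < MN a W + 1 := by positivity
  have hu := H.u0
  have h1 : 6 / (uN a * (MN a W + 1)) ≤ 6 * a ^ 4 / (W ^ 6 * Real.exp (2 * a ^ 5)) := by
    unfold uN
    rw [div_le_div_iff₀ (by positivity) (by positivity)]
    have h2 : 6 * a ^ 4 * ((a ^ 4)⁻¹ * (MN a W + 1)) = 6 * (MN a W + 1) := by field_simp
    rw [h2]
    linarith
  have h3 : 0 ≤ 6 / (uN a * (MN a W + 1)) := by positivity
  calc 6 / (uN a * (MN a W + 1)) * Nep ≤ 6 / (uN a * (MN a W + 1)) * (W ^ 5 * Real.exp (a ^ 5)) :=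
        mul_le_mul_of_nonneg_left hN h3
    _ ≤ 6 * a ^ 4 / (W ^ 6 * Real.exp (2 * a ^ 5)) * (W ^ 5 * Real.exp (a ^ 5)) :=
        mul_le_mul_of_nonneg_right h1 (by positivity)
    _ = 6 * a ^ 4 / W * Real.exp (-(a ^ 5)) := by
        have h4 : Real.exp (2 * a ^ 5) = Real.exp (a ^ 5) * Real.exp (a ^ 5) := by
          rw [← Real.exp_add]; ring_nf
        rw [h4, Real.exp_neg]
        have := (Real.exp_pos (a ^ 5)).ne'
        field_simp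
    _ ≤ 6 * a ^ 4 / W * 1 := mul_le_mul_of_nonneg_left (Real.exp_le_one_iff.2 (by
        have := pow_pos H.a0 5
        linarith)) (by positivity)
    _ ≤ (a ^ 59)⁻¹ := by
        rw [mul_one, div_le_iff₀ hW, inv_mul_eq_div, le_div_iff₀ (pow_pos ha _)]
        calc 6 * a ^ 4 * a ^ 59 = 6 * a ^ 63 := by ring
          _ ≤ a ^ 64 := H.cl (by norm_num) (by norm_num)
          _ ≤ W := H.hW

/-- the digits -/
theorem Hy.dig (H : Hy a W) (hn : 1 ≤ n) (hL : 2 ≤ Lam) (hnL : 64 * n * Lam ≤ a) {X1 θ : ℝ} (hX : X1 ≤ a ^ 2)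
    (hθ : (a ^ 2)⁻¹ ≤ θ) :
    2 ^ 9 / θ * Real.sqrt ((X1 + Real.log (1 / lN W) + 1) / W) * (9 * n * Lam) + 4 * lN W * (64 * n * W * Lam) ≤
      (a ^ 8)⁻¹ := by
  have ha := H.a0
  have h1 := H.sq_le hX
  have hθ0 : 0 < θ := lt_of_lt_of_le (inv_pos.2 (pow_pos ha _)) hθ
  have h2 : 2 ^ 9 / θ ≤ 2 ^ 9 * a ^ 2 := by
    rw [div_le_iff₀ hθ0]
    have : 1 ≤ a ^ 2 * θ := by
      have := mul_le_mul_of_nonneg_left hθ (pow_nonneg ha.le 2)
      rwa [mul_inv_cancel₀ (pow_pos ha 2).ne'] at this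
    nlinarith
  have h3 : 9 * n * Lam ≤ a := by nlinarith [mul_pos (lt_of_lt_of_le one_pos hn) (lt_of_lt_of_le two_pos hL)]
  have h30 : 0 ≤ 9 * n * Lam := by positivity
  have h4 : 2 ^ 9 / θ * Real.sqrt ((X1 + Real.log (1 / lN W) + 1) / W) * (9 * n * Lam) ≤
      2 ^ 9 * a ^ 2 * (a ^ 16)⁻¹ * a :=
    mul_le_mul (mul_le_mul h2 h1 (Real.sqrt_nonneg _) (by positivity)) h3 h30 (by positivity)
  have h5 : 2 ^ 9 * a ^ 2 * (a ^ 16)⁻¹ * a = 2 ^ 9 * (a ^ 13)⁻¹ := by field_simp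
  have h6 : 2 ^ 10 * (a ^ 13)⁻¹ ≤ (a ^ 8)⁻¹ := H.inv_le (by norm_num) (by norm_num)
  have h7 := H.tny hnL
  have h8 : 2 * (a ^ 60)⁻¹ ≤ (a ^ 8)⁻¹ := H.inv_le (by norm_num) (by norm_num)
  have h9 : 0 ≤ lN W * (64 * n * W * Lam) := by
    have := H.l0
    have := H.W0
    positivity
  linarith

/-- the exceptional rows -/
theorem Hy.rows (H : Hy a W) (hn : 1 ≤ n) (hL : 2 ≤ Lam) (hnL : 64 * n * Lam ≤ a) {X1 θ : ℝ} (hX : X1 ≤ a ^ 2)
    (hθ : (a ^ 2)⁻¹ ≤ θ) :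
    (2 ^ 12 / (pN a * θ) * (32 * Real.sqrt ((X1 + Real.log (1 / lN W) + 1) / W)) + 64 / pN a * Real.sqrt (kN a W) +
      64 / pN a * kN a W) * (9 * n * Lam) ≤ (a ^ 6)⁻¹ := by
  have ha := H.a0
  have h1 := H.sq_le hX
  have hθ0 : 0 < θ := lt_of_lt_of_le (inv_pos.2 (pow_pos ha _)) hθ
  have hp := H.p0
  have h2 : 2 ^ 12 / (pN a * θ) ≤ 2 ^ 12 * a ^ 7 := by
    unfold pN
    rw [div_le_iff₀ (by positivity)]
    have : 1 ≤ a ^ 2 * θ := by
      have := mul_le_mul_of_nonneg_left hθ (pow_nonneg ha.le 2)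
      rwa [mul_inv_cancel₀ (pow_pos ha 2).ne'] at this
    calc (2:ℝ) ^ 12 = 2 ^ 12 * 1 := by ring
      _ ≤ 2 ^ 12 * (a ^ 2 * θ) := mul_le_mul_of_nonneg_left this (by norm_num)
      _ = 2 ^ 12 * a ^ 7 * ((a ^ 5)⁻¹ * θ) := by field_simp
  have h3 : 9 * n * Lam ≤ a := by nlinarith [mul_pos (lt_of_lt_of_le one_pos hn) (lt_of_lt_of_le two_pos hL)]
  have h30 : 0 ≤ 9 * n * Lam := by positivity
  have h4 : 2 ^ 12 / (pN a * θ) * (32 * Real.sqrt ((X1 + Real.log (1 / lN W) + 1) / W)) ≤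
      2 ^ 12 * a ^ 7 * (32 * (a ^ 16)⁻¹) :=
    mul_le_mul h2 (mul_le_mul_of_nonneg_left h1 (by norm_num)) (by positivity) (by positivity)
  have h5 : 2 ^ 12 * a ^ 7 * (32 * (a ^ 16)⁻¹) = 2 ^ 17 * (a ^ 9)⁻¹ := by field_simp; norm_num
  have h6 : 64 / pN a = 64 * a ^ 5 := by
    unfold pN
    field_simp
  have h7 : 64 * a ^ 5 * eN a W ≤ (a ^ 9)⁻¹ := by
    have h8 := H.e_le' (c := 64) (by norm_num) (k := 14) (by norm_num)
    calc 64 * a ^ 5 * eN a W = a ^ 5 * (64 * eN a W) := by ring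
      _ ≤ a ^ 5 * (a ^ 14)⁻¹ := mul_le_mul_of_nonneg_left h8 (by positivity)
      _ = (a ^ 9)⁻¹ := by field_simp
  have h9 : 64 * a ^ 5 * kN a W ≤ (a ^ 9)⁻¹ :=
    (mul_le_mul_of_nonneg_left H.ke_le (by positivity)).trans h7
  rw [h6, H.sqk]
  have h10 : 2 ^ 12 / (pN a * θ) * (32 * Real.sqrt ((X1 + Real.log (1 / lN W) + 1) / W)) + 64 * a ^ 5 * eN a W +
      64 * a ^ 5 * kN a W ≤ 2 ^ 18 * (a ^ 9)⁻¹ := by
    have : 0 < (a ^ 9)⁻¹ := inv_pos.2 (pow_pos ha _)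
    linarith
  calc _ ≤ 2 ^ 18 * (a ^ 9)⁻¹ * a := mul_le_mul h10 h3 h30 (by positivity)
    _ = 2 ^ 18 * (a ^ 8)⁻¹ := by field_simp
    _ ≤ (a ^ 6)⁻¹ := H.inv_le (by norm_num) (by norm_num)

/-- general form of a thrown part -/
theorem Hy.thr (H : Hy a W) (hn : 1 ≤ n) (hL : 2 ≤ Lam) (hnL : 64 * n * Lam ≤ a) {s l q : ℝ} (hl : a ^ 4 / 2 ≤ l)
    (hq : q * W ≤ 1) (hs : 1 / 2 * l * s ≤ 9 * n * Lam + q * (6 * n * W * Lam)) : s ≤ (a ^ 2)⁻¹ := by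
  have ha := H.a0
  have hnL0 : 0 < n * Lam := by positivity
  have h1 : q * (6 * n * W * Lam) ≤ 6 * (n * Lam) := by
    have : q * (6 * n * W * Lam) = 6 * (n * Lam) * (q * W) := by ring
    rw [this]
    exact mul_le_of_le_one_right (by positivity) hq
  have h2 : 1 / 2 * l * s ≤ a := by nlinarith
  by_contra hc
  push Not at hc
  have h3 : 0 < (a ^ 2)⁻¹ := inv_pos.2 (pow_pos ha _)
  have h4 : 1 / 2 * (a ^ 4 / 2) * (a ^ 2)⁻¹ ≤ 1 / 2 * l * s :=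
    mul_le_mul (mul_le_mul_of_nonneg_left hl (by norm_num)) hc.le h3.le
      (mul_nonneg (by norm_num) ((by positivity : (0:ℝ) ≤ a ^ 4 / 2).trans hl))
  have h5 : 1 / 2 * (a ^ 4 / 2) * (a ^ 2)⁻¹ = a ^ 2 / 4 := by field_simp; norm_num
  have h6 : 8 * a ^ 1 ≤ a ^ 2 := H.cl (by norm_num) (by norm_num)
  rw [h5] at h4
  linarith

/-- what is thrown away with `q = kp` -/
theorem Hy.thrk (H : Hy a W) (hn : 1 ≤ n) (hL : 2 ≤ Lam) (hnL : 64 * n * Lam ≤ a) {s : ℝ}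
    (hs : 1 / 2 * Real.log (1 / kN a W) * s ≤ 9 * n * Lam + Real.sqrt (kN a W) * (6 * n * W * Lam)) :
    s ≤ (a ^ 2)⁻¹ := by
  refine H.thr hn hL hnL (l := Real.log (1 / kN a W)) ?_ ?_ hs
  · have := H.logk
    have := pow_pos H.a0 4
    linarith
  · rw [H.sqk]
    have h1 := H.e_le (c := 1) (by norm_num) (k := 0) (by norm_num)
    rw [one_mul, pow_zero, inv_one, one_mul] at h1
    have hW := H.W0
    calc eN a W * W ≤ (W ^ 2)⁻¹ * W := mul_le_mul_of_nonneg_right h1 hW.le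
      _ = W⁻¹ := by field_simp
      _ ≤ 1 := inv_le_one_of_one_le₀ H.W1

/-- what is thrown away with `q = √kp` -/
theorem Hy.thre (H : Hy a W) (hn : 1 ≤ n) (hL : 2 ≤ Lam) (hnL : 64 * n * Lam ≤ a) {s : ℝ}
    (hs : 1 / 2 * Real.log (1 / Real.sqrt (kN a W)) * s ≤
      9 * n * Lam + Real.sqrt (Real.sqrt (kN a W)) * (6 * n * W * Lam)) :
    s ≤ (a ^ 2)⁻¹ := by
  rw [H.sqk] at hs
  refine H.thr hn hL hnL (l := Real.log (1 / eN a W)) H.loge ?_ hs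
  have hW := H.W0
  have h1 : Real.sqrt (eN a W) ≤ W⁻¹ := by
    apply Real.sqrt_le_iff.2
    refine ⟨(inv_pos.2 hW).le, ?_⟩
    have h1 := H.e_le (c := 1) (by norm_num) (k := 0) (by norm_num)
    rw [one_mul, pow_zero, inv_one, one_mul] at h1
    rwa [inv_pow]
  calc Real.sqrt (eN a W) * W ≤ W⁻¹ * W := mul_le_mul_of_nonneg_right h1 hW.le
    _ = 1 := inv_mul_cancel₀ hW.ne'

/-- the uncovered part -/
theorem Hy.unc (H : Hy a W) (hn : 1 ≤ n) (hL : 2 ≤ Lam) (hnL : 64 * n * Lam ≤ a) :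
    uN a / 2 * (9 * n * Lam) ≤ (a ^ 2)⁻¹ := by
  have ha := H.a0
  have hu := H.u0
  have hnL0 : 0 < n * Lam := by positivity
  calc uN a / 2 * (9 * n * Lam) ≤ uN a / 2 * a := mul_le_mul_of_nonneg_left (by nlinarith) (by positivity)
    _ = 1 / 2 * (a ^ 3)⁻¹ := by unfold uN; field_simp
    _ ≤ (a ^ 2)⁻¹ := H.inv_le (by norm_num) (by norm_num)

/-- the potentials at the ends -/
theorem Hy.pot (H : Hy a W) (hn : 1 ≤ n) (hL : 2 ≤ Lam) (hnL : 64 * n * Lam ≤ a) {x y : ℝ} (hx : x ≤ 1) (hy : y ≤ 1) :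
    2 * uN a * (3 * (9 * n * Lam) + x + y) ≤ (a ^ 2)⁻¹ := by
  have ha := H.a0
  have hu := H.u0
  have hnL0 : 0 < n * Lam := by positivity
  have h2 : (4:ℝ) ≤ a := by simpa using H.cl' (c := 4) (by norm_num) one_pos
  calc 2 * uN a * (3 * (9 * n * Lam) + x + y) ≤ 2 * uN a * (2 * a) :=
        mul_le_mul_of_nonneg_left (by nlinarith) (by positivity)
    _ = 4 * (a ^ 3)⁻¹ := by unfold uN; field_simp; norm_num
    _ ≤ (a ^ 2)⁻¹ := H.inv_le (by norm_num) (by norm_num)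

/-! ### from the exponents -/

/-- the exponents of `ThinDyn` -/
theorem Hy.mk' {b : ℝ} (hb : 4 ≤ b) {A c1 : ℕ} (hA : 64 ≤ A) (hc : 64 * A ≤ c1) : Hy (b ^ A) (b ^ c1) := by
  have hb1 : 1 ≤ b := by linarith
  refine ⟨?_, ?_⟩
  · calc (2:ℝ) ^ 128 = 4 ^ 64 := by norm_num
      _ ≤ b ^ 64 := pow_le_pow_left₀ (by norm_num) hb 64
      _ ≤ b ^ A := pow_le_pow_right₀ hb1 hA
  · rw [← pow_mul]
    exact pow_le_pow_right₀ hb1 (by omega)

/-- constants below powers of `b` -/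
theorem cst_le {b : ℝ} (hb : 4 ≤ b) {c : ℝ} {m k A : ℕ} (hc : c ≤ 4 ^ m) (hk : m + k ≤ A) : c * b ^ k ≤ b ^ A := by
  have hb0 : 0 < b := by linarith
  calc c * b ^ k ≤ b ^ m * b ^ k :=
        mul_le_mul_of_nonneg_right (hc.trans (pow_le_pow_left₀ (by norm_num) hb m)) (by positivity)
    _ = b ^ (m + k) := by rw [pow_add]
    _ ≤ b ^ A := pow_le_pow_right₀ (by linarith) hk

/-- the result of one triple -/
theorem Hy.fin (H : Hy a W) {s : ℝ} (hs : s ≤ 2 ^ 64 * (a ^ 2)⁻¹) : s ≤ (2 ^ 32)⁻¹ * a⁻¹ := by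
  have h1 : 2 ^ 96 * (a ^ 2)⁻¹ ≤ (a ^ 1)⁻¹ := H.inv_le (by norm_num) (by norm_num)
  rw [pow_one] at h1
  refine hs.trans ?_
  rw [← div_eq_inv_mul, le_div_iff₀ (by norm_num)]
  linarith

end

end Pool.Agent.GMH.TD.Nm
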