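import Pool.Agent.GMH.TDP
import Pool.Agent.GMH.TD14A
import Pool.Agent.GMH.Stmt

/-!
# GMH.TD14: thin dynamics, the numbers (helper45; stub of helper27)

`b = 2 Lam ≥ 4`, `A = 64 (c0 + cX + ce + ch + cS + 1)`, `a = b^A`, `W = N1`; the parameters of `GMH/TD14A`.
-/

set_option autoImplicit false
set_option linter.unusedSectionVars false

namespace Pool.Agent.GMH.TD

open Finset Pool.Agent.PWZ Pool.Agent.M3 Pool.Agent.GMH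

namespace Nm

variable {a W n Lam X1 θ : ℝ}

/-- the conditions -/
theorem Hy.pm (H : Hy a W) (hn : 1 ≤ n) (hL : 2 ≤ Lam) (hX0 : 0 ≤ X1) (hX : X1 + 1 ≤ a ^ 2)
    (hθ : (a ^ 2)⁻¹ ≤ θ / 2) (hθ1 : θ ≤ 1) : Pm n W Lam θ X1 (pN a) (uN a) (lN W) (dN a) (kN a W) (MN a W) := by
  have ha := H.a0
  have h2 : 0 < (a ^ 2)⁻¹ := inv_pos.2 (pow_pos ha _)
  exact {
    hn := hn
    hN1 := H.W1
    hL := by linarith
    hθ0 := by linarith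
    hθ1 := hθ1
    hX1 := hX0
    hp0 := H.p0
    hp1 := H.p_le1
    hδ0 := H.d0
    hδ := by have := H.d_le hθ; linarith
    hδp := H.dp
    hu := H.u0
    hu1 := H.u_le1
    hup := H.up
    hkp0 := H.k0
    hkp1 := H.k_lt1
    hkp := H.uk
    hdl := H.l0
    hdl1 := H.l_le (by norm_num)
    hNu := H.nu
    hsm := H.sm1 hX }

theorem Hy.thB_k (H : Hy a W) (hn : 1 ≤ n) (hL : 2 ≤ Lam) (hnL : 64 * n * Lam ≤ a) :
    ThB n W Lam (kN a W) ≤ (a ^ 2)⁻¹ := by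
  refine H.thrk hn hL hnL ?_
  have h1 : 0 < Real.log (1 / kN a W) := lt_of_lt_of_le (pow_pos H.a0 _) H.logk
  unfold ThB
  apply le_of_eq
  field_simp

theorem Hy.thB_e (H : Hy a W) (hn : 1 ≤ n) (hL : 2 ≤ Lam) (hnL : 64 * n * Lam ≤ a) :
    ThB n W Lam (Real.sqrt (kN a W)) ≤ (a ^ 2)⁻¹ := by
  refine H.thre hn hL hnL ?_
  have h1 : 0 < Real.log (1 / Real.sqrt (kN a W)) := by
    rw [H.sqk]
    have := pow_pos H.a0 4
    exact lt_of_lt_of_le (by linarith) H.loge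
  unfold ThB
  apply le_of_eq
  field_simp

theorem Hy.one (H : Hy a W) {k : ℕ} (hk : 2 ≤ k) : (a ^ k)⁻¹ ≤ (a ^ 2)⁻¹ :=
  inv_anti₀ (pow_pos H.a0 _) (pow_le_pow_right₀ H.a1 hk)

/-- everything -/
theorem Hy.all (H : Hy a W) (hn : 1 ≤ n) (hL : 2 ≤ Lam) (hnL : 64 * n * Lam ≤ a)
    (hX : X1 + 1 ≤ a ^ 2) (hθ : (a ^ 2)⁻¹ ≤ θ / 2) :
    7 * (BdE n W Lam θ X1 (lN W) + BdO n W Lam θ X1 (pN a) (uN a) (lN W) (dN a) (kN a W) (MN a W)) ≤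
      2 ^ 64 * (a ^ 2)⁻¹ := by
  have ha := H.a0
  have h2 : 0 < (a ^ 2)⁻¹ := inv_pos.2 (pow_pos ha _)
  have hθ0 : 0 < θ := by linarith
  have hX' : X1 ≤ a ^ 2 := by linarith
  have e1 : BdE n W Lam θ X1 (lN W) ≤ (a ^ 2)⁻¹ :=
    (H.dig hn hL hnL hX' (by linarith : (a ^ 2)⁻¹ ≤ θ)).trans (H.one (by norm_num))
  have e2 := H.thB_k hn hL hnL
  have e3 := H.thB_e hn hL hnL
  have e4 : TnB n W Lam (lN W) ≤ (a ^ 2)⁻¹ := (H.tny hnL).trans (H.one (by norm_num))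
  have e5 : RoB n W Lam θ X1 (pN a) (lN W) (kN a W) ≤ 3 * (a ^ 2)⁻¹ := by
    have := (H.rows hn hL hnL hX' hθ).trans (H.one (k := 6) (by norm_num))
    unfold RoB
    linarith
  have hN : NeB n W Lam (dN a) (kN a W) ≤ W ^ 5 * Real.exp (a ^ 5) := H.nep hn hL hnL
  have e6 : TD.e9 W (X1 + 1) (uN a) (lN W) (MN a W) * NeB n W Lam (dN a) (kN a W) ≤ (a ^ 2)⁻¹ :=
    (H.nep_e9 hX hN).trans (H.one (by norm_num))
  have e7 : 6 / (uN a * (MN a W + 1)) * NeB n W Lam (dN a) (kN a W) ≤ (a ^ 2)⁻¹ :=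
    (H.nep_M hN).trans (H.one (by norm_num))
  have e8 := H.unc hn hL hnL
  have hu := H.u0
  have hu1 := H.u_le1
  have e9' : 12 * uN a * (9 * n * Lam) ≤ 24 * (a ^ 2)⁻¹ := by linarith
  have e10 : (4 * uN a + 2) * (TD.e9 W (X1 + 1) (uN a) (lN W) (MN a W) * NeB n W Lam (dN a) (kN a W) +
      TnB n W Lam (lN W)) ≤ 6 * (2 * (a ^ 2)⁻¹) := by
    refine (mul_le_mul_of_nonneg_left (add_le_add e6 e4) (by linarith)).trans ?_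
    have h3 : (a ^ 2)⁻¹ + (a ^ 2)⁻¹ = 2 * (a ^ 2)⁻¹ := by ring
    rw [h3]
    exact mul_le_mul_of_nonneg_right (by linarith) (by linarith)
  have e11 : CoB n W Lam X1 (uN a) (lN W) (dN a) (kN a W) (MN a W) ≤ 38 * (a ^ 2)⁻¹ := by
    unfold CoB
    linarith
  unfold BdO
  linarith

end Nm

open Nm in
theorem numbers : ∃ C : ℕ, ∀ c0 cX ce ch cS c1 : ℕ, C * (c0 + cX + ce + ch + cS + 1) ≤ c1 → ∀ Lam : ℝ, 2 ≤ Lam →
    ∃ (p1 u dl δ kp : ℝ) (M : ℕ),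
      Pm (pw Lam c0) (pw Lam c1) Lam ((pw Lam ch)⁻¹ / 4) (3 * pw Lam cX) p1 u dl δ kp M ∧
      7 * (BdE (pw Lam c0) (pw Lam c1) Lam ((pw Lam ch)⁻¹ / 4) (3 * pw Lam cX) dl +
        BdO (pw Lam c0) (pw Lam c1) Lam ((pw Lam ch)⁻¹ / 4) (3 * pw Lam cX) p1 u dl δ kp M) ≤ (pw Lam cS)⁻¹ := by
  refine ⟨4096, fun c0 cX ce ch cS c1 hc Lam hL => ?_⟩
  obtain ⟨A, hA⟩ : ∃ A, A = 64 * (c0 + cX + ce + ch + cS + 1) := ⟨_, rfl⟩
  have hb : 4 ≤ 2 * Lam := by linarith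
  have hb1 : 1 ≤ 2 * Lam := by linarith
  have H : Hy ((2 * Lam) ^ A) (pw Lam c1) := Hy.mk' hb (by omega) (by omega)
  have hn : 1 ≤ pw Lam c0 := pw_one hL c0
  have ha1 := H.a1
  have hsq : (2 * Lam) ^ A ≤ ((2 * Lam) ^ A) ^ 2 := by nlinarith
  have hnL : 64 * pw Lam c0 * Lam ≤ (2 * Lam) ^ A := by
    have h1 : (64:ℝ) * (2 * Lam) ^ (c0 + 1) ≤ (2 * Lam) ^ A :=
      cst_le hb (m := 3) (by norm_num) (by omega)
    have h2 : 64 * pw Lam c0 * Lam ≤ 64 * (2 * Lam) ^ (c0 + 1) := by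
      have : 64 * (2 * Lam) ^ (c0 + 1) = 64 * pw Lam c0 * (2 * Lam) := by
        unfold pw
        ring
      rw [this]
      exact mul_le_mul_of_nonneg_left (by linarith) (by linarith)
    exact h2.trans h1
  have hX : 3 * pw Lam cX + 1 ≤ ((2 * Lam) ^ A) ^ 2 := by
    have h1 : (4:ℝ) * (2 * Lam) ^ cX ≤ (2 * Lam) ^ A := cst_le hb (m := 1) (by norm_num) (by omega)
    have h2 : 1 ≤ pw Lam cX := pw_one hL cX
    have h3 : pw Lam cX = (2 * Lam) ^ cX := rfl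
    rw [← h3] at h1
    linarith
  have hθ : (((2 * Lam) ^ A) ^ 2)⁻¹ ≤ (pw Lam ch)⁻¹ / 4 / 2 := by
    have h1 : (8:ℝ) * (2 * Lam) ^ ch ≤ (2 * Lam) ^ A := cst_le hb (m := 2) (by norm_num) (by omega)
    have h2 : 0 < pw Lam ch := lt_of_lt_of_le one_pos (pw_one hL ch)
    have h3 : pw Lam ch = (2 * Lam) ^ ch := rfl
    rw [← h3] at h1
    have h4 : (pw Lam ch)⁻¹ / 4 / 2 = (8 * pw Lam ch)⁻¹ := by
      rw [mul_inv]
      ring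
    rw [h4]
    exact inv_anti₀ (by positivity) (h1.trans hsq)
  have hθ1 : (pw Lam ch)⁻¹ / 4 ≤ 1 := by
    have : (pw Lam ch)⁻¹ ≤ 1 := inv_le_one_of_one_le₀ (pw_one hL ch)
    linarith
  have hX0 : 0 ≤ 3 * pw Lam cX := by have := pw_one hL cX; linarith
  refine ⟨_, _, _, _, _, _, H.pm hn hL hX0 hX hθ hθ1, ?_⟩
  refine (H.fin (H.all hn hL hnL hX hθ)).trans ?_
  have h1 : pw Lam cS ≤ (2 * Lam) ^ A := pow_le_pow_right₀ hb1 (by omega)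
  have h2 : ((2 * Lam) ^ A)⁻¹ ≤ (pw Lam cS)⁻¹ := inv_anti₀ (lt_of_lt_of_le one_pos (pw_one hL cS)) h1
  have h3 : 0 < ((2 * Lam) ^ A)⁻¹ := inv_pos.2 H.a0
  calc (2 ^ 32)⁻¹ * ((2 * Lam) ^ A)⁻¹ ≤ 1 * ((2 * Lam) ^ A)⁻¹ :=
        mul_le_mul_of_nonneg_right (by norm_num) h3.le
    _ ≤ _ := by rw [one_mul]; exact h2

end Pool.Agent.GMH.TD
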