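import Pool.Agent.GMH.TD15
import Pool.Agent.GMH.TD13
import Pool.Agent.GMH.TD14
import Pool.Agent.GMH.TD12
import Pool.Agent.GMH.TD11D

/-!
# GMH.TD15F: **THE THIN DYNAMICS** (helper36)

`thinDyn` : `ThinDyn B` for every `B ≥ exp 3`, from `rgr_sum` (TD13), `digits` (TD12), `odd_le` (TD11D), `numbers` (TD14).
-/

set_option autoImplicit false
set_option linter.unusedSectionVars false

namespace Pool.Agent.GMH.TD

open Finset Pool.Agent.PWZ Pool.Agent.M3 Pool.Agent.GM Pool.Agent.GM.Harm Pool.Agent.GMH Pool.Agent.GMH.NZ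
open Pool.Agent.GMH.V3 Pool.Agent.GMH.Gdy

namespace F15

section hd

variable {X β γ φ : Type} [Fintype X] [Fintype β] [Fintype φ] [Nonempty X] [Nonempty β]
variable {D : HD (Fin 3) X β γ φ} {al : ℝ} {h : D.Thick al} {v : ℕ → Finset (Fin 3) → X → (Fin 3 → β) → Pt (Fin 3) X β φ}
variable {n N1 : ℝ} {dg : ℕ → X → ℝ} {prr : ℕ → Fin 3 → φ → φ} {T : ℕ} {Lam θ X1 p1 u dl δ kp : ℝ} {M : ℕ}

/-- even half steps -/
theorem even_le (R : Run h (pr3 (Fin 3) n N1) (SS1 (Fin 3)) (AdmDep D) v) (H : D.Hyp dg prr al T Lam)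
    {J0 : Finset (Fin 3)} {e c d : Fin 3} (ht : Tri3 J0 e c d) (hP : Pm n N1 Lam θ X1 p1 u dl δ kp M) :
    ∑ t ∈ range T, (D.P h 0).Pr (EvP h v θ X1 J0 c d (2 * t)) ≤ BdE n N1 Lam θ X1 dl := by
  have hdl1 : dl ≤ 1 := by
    have := hP.hdl1
    have := hP.hdl
    linarith
  have h1 := digits R (prc_pr3 hP.hn hP.hN1) H ht hP.hθ0 hP.hθ1 hP.hX1 hP.hdl hdl1
  have h2 := sum_Sq hP.hn hP.hN1 R H c
  have h3 := bias_le hP.hn hP.hN1 R H
  have hθ := hP.hθ0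
  have hd := hP.hdl
  have k1 : 0 ≤ 2 ^ 9 / θ * Real.sqrt ((X1 + Real.log (1 / dl) + 1) / N1) := by positivity
  have k2 : 0 ≤ 4 * dl := by positivity
  have h4 := mul_le_mul_of_nonneg_left h2 k1
  have h5 := mul_le_mul_of_nonneg_left h3 k2
  unfold BdE
  linarith

/-- one triple -/
theorem triple_le (R : Run h (pr3 (Fin 3) n N1) (SS1 (Fin 3)) (AdmDep D) v) (H : D.Hyp dg prr al T Lam)
    {J0 : Finset (Fin 3)} {e c d : Fin 3} (ht : Tri3 J0 e c d) (hP : Pm n N1 Lam θ X1 p1 u dl δ kp M) :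
    ∑ r ∈ range (2 * T), (D.P h 0).Pr (EvP h v θ X1 J0 c d r) ≤
      BdE n N1 Lam θ X1 dl + BdO n N1 Lam θ X1 p1 u dl δ kp M := by
  rw [sum_half]
  refine add_le_add (even_le R H ht hP) ?_
  have h1 := odd_le hP R.codes (prc_pr3 hP.hn hP.hN1) R H ht (ne_le hP R H) (tn_le hP R H)
  rw [sum_half] at h1
  refine le_trans ?_ h1
  have h2 : 0 ≤ ∑ t ∈ range T, (D.P h 0).Pr (fun w => (2 * t) % 2 = 1 ∧ EvP h v θ X1 J0 c d (2 * t) w) :=
    Finset.sum_nonneg fun t _ => (D.P h 0).Pr_nonneg _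
  refine le_trans ?_ (le_add_of_nonneg_left h2)
  exact Finset.sum_le_sum fun t _ => (D.P h 0).Pr_mono fun w _ hw => ⟨by omega, hw⟩

theorem tri_third {c d : Fin 3} (hcd : c ≠ d) : ∃ e, Tri3 ∅ e c d := by
  have key : ∀ c d : Fin 3, c ≠ d → ∃ e : Fin 3, e ≠ c ∧ e ≠ d := by decide
  obtain ⟨e, h1, h2⟩ := key c d hcd
  exact ⟨e, h1, h2, hcd, Finset.empty_subset _⟩

theorem tri_top : Tri3 {0} 0 1 2 := ⟨by decide, by decide, by decide, Finset.Subset.refl _⟩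

/-- all events -/
theorem all_le (R : Run h (pr3 (Fin 3) n N1) (SS1 (Fin 3)) (AdmDep D) v) (H : D.Hyp dg prr al T Lam) {p : AP}
    (hX0 : 1 ≤ p.X0) {B η : ℝ} (hB : Real.exp 3 ≤ B) (hη0 : 0 < η) (hη1 : η ≤ 1)
    (hP : Pm n N1 Lam (η / 4) (3 * p.X0) p1 u dl δ kp M) :
    ∑ r ∈ range (2 * T), (Pr' h r).Pr (fun w => Rgr h v p B η r w) ≤
      7 * (BdE n N1 Lam (η / 4) (3 * p.X0) dl + BdO n N1 Lam (η / 4) (3 * p.X0) p1 u dl δ kp M) := by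
  have h1 : ∑ r ∈ range (2 * T), (Pr' h r).Pr (fun w => Rgr h v p B η r w) ≤
      ∑ r ∈ range (2 * T), (∑ q ∈ (univ : Finset (Fin 3 × Fin 3)).filter (fun q => q.1 ≠ q.2),
        (D.P h 0).Pr (EvP h v (η / 4) (3 * p.X0) ∅ q.1 q.2 r) + (D.P h 0).Pr (EvP h v (η / 4) (3 * p.X0) {0} 1 2 r)) :=
    Finset.sum_le_sum fun r hr => rgr_sum R.codes H hX0 hB hη0 hη1 (Finset.mem_range.1 hr)
  refine h1.trans ?_
  rw [Finset.sum_add_distrib, Finset.sum_comm]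
  have h2 : ∑ q ∈ (univ : Finset (Fin 3 × Fin 3)).filter (fun q => q.1 ≠ q.2), ∑ r ∈ range (2 * T),
        (D.P h 0).Pr (EvP h v (η / 4) (3 * p.X0) ∅ q.1 q.2 r) ≤
      ((univ : Finset (Fin 3 × Fin 3)).filter (fun q => q.1 ≠ q.2)).card •
        (BdE n N1 Lam (η / 4) (3 * p.X0) dl + BdO n N1 Lam (η / 4) (3 * p.X0) p1 u dl δ kp M) := by
    refine Finset.sum_le_card_nsmul _ _ _ fun q hq => ?_
    obtain ⟨e, he⟩ := tri_third (Finset.mem_filter.1 hq).2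
    exact triple_le R H he hP
  have h3 : ((univ : Finset (Fin 3 × Fin 3)).filter (fun q => q.1 ≠ q.2)).card = 6 := by decide
  rw [h3, nsmul_eq_mul] at h2
  have h4 := triple_le R H tri_top hP
  push_cast at h2
  linarith

end hd

end F15

/-- **THE THIN DYNAMICS** -/
theorem thinDyn {B : ℝ} (hB : Real.exp 3 ≤ B) : ThinDyn B := by
  obtain ⟨C, hC⟩ := numbers
  refine ⟨C, fun c0 cX ce ch cS c1 _ _ _ _ _ h6 X β γ φ _ _ _ _ _ D al h dg prr T Lam H hL v R p hpX _ => ?_⟩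
  obtain ⟨p1, u, dl, δ, kp, M, hP, hb⟩ := hC c0 cX ce ch cS c1 h6 Lam hL
  have h2L : (1 : ℝ) ≤ 2 * Lam := by linarith
  have hX : 1 ≤ p.X0 := by
    rw [hpX]
    exact one_le_pow₀ h2L
  have hη : 0 < (pw Lam ch)⁻¹ := inv_pos.2 (pow_pos (by linarith) ch)
  have hη1 : (pw Lam ch)⁻¹ ≤ 1 := inv_le_one_of_one_le₀ (one_le_pow₀ h2L)
  rw [← hpX] at hP hb
  exact (F15.all_le R H hX hB hη hη1 hP).trans hb

/-- the form used by `GMH/Fin3` -/
theorem thinDyn32 : ThinDyn 32 := thinDyn (by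
  have h1 : Real.exp 3 = Real.exp 1 ^ 3 := by
    rw [← Real.exp_nat_mul]
    norm_num
  have h2 := Real.exp_one_lt_d9
  have h3 := Real.exp_pos 1
  rw [h1]
  have h4 : Real.exp 1 ^ 3 ≤ 2.7182818286 ^ 3 := pow_le_pow_left₀ h3.le h2.le 3
  refine h4.trans ?_
  norm_num)

end Pool.Agent.GMH.TD
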