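import Pool.Agent.GMH.TD4

/-!
# GMH/TD4B: thin dynamics, more tools for the worlds (helper34); the statements are in GMH/TD4 (helper30)
-/

set_option autoImplicit false
set_option linter.unusedSectionVars false

namespace Pool.Agent.GMH.TD

open Finset Pool.Agent.PWZ Pool.Agent.M3 Pool.Agent.GM Pool.Agent.GM.Harm Pool.Agent.GMH Pool.Agent.GMH.NZ
open Pool.Agent.GMH.V3 Pool.Agent.GMH.Gdy

variable {X β γ φ υ : Type} [Fintype X] [Fintype β] [Fintype φ] [Nonempty X] [Nonempty β]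
variable {D : HD (Fin 3) X β γ φ} {al : ℝ} {h : D.Thick al} {v : ℕ → Finset (Fin 3) → X → (Fin 3 → β) → υ}

namespace WB

theorem tn (ν : ℕ) : tm ν + 1 ≤ nt ν + 1 := by
  unfold tm nt
  omega

/-- full support on the positions -/
theorem pos_of (t : ℕ) {A : Pt (Fin 3) X β φ → Prop} (w : Pt (Fin 3) X β φ)
    (hA : ∀ u : Pt (Fin 3) X β φ, u.1 = w.1 → u.2.1 = w.2.1 → A u) : (D.P h t).Pr A ≠ 0 := by
  classical
  have h1 : (D.P h t).E (fun u => (fun z : X × (Fin 3 → β) => ind (z = (w.1, w.2.1))) (u.1, u.2.1)) =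
      (FP.unif (X × (Fin 3 → β))).E (fun z => ind (z = (w.1, w.2.1))) :=
    E_pts h t (fun z : X × (Fin 3 → β) => ind (z = (w.1, w.2.1)))
  have h2 : (FP.unif (X × (Fin 3 → β))).Pr (fun z => z = (w.1, w.2.1)) ≠ 0 := unif_ne (a := (w.1, w.2.1)) rfl
  have h3 : (D.P h t).E (fun u => (fun z : X × (Fin 3 → β) => ind (z = (w.1, w.2.1))) (u.1, u.2.1)) ≤ (D.P h t).Pr A := by
    refine FP.E_mono _ fun u _ => ind_mono fun hu => ?_
    have hu' : (u.1, u.2.1) = (w.1, w.2.1) := hu
    exact hA u (Prod.mk.inj hu').1 (Prod.mk.inj hu').2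
  rw [h1] at h3
  have h4 : 0 < (FP.unif (X × (Fin 3 → β))).Pr (fun z => z = (w.1, w.2.1)) :=
    lt_of_le_of_ne (FP.Pr_nonneg _ _) (Ne.symm h2)
  exact (lt_of_lt_of_le h4 h3).ne'

/-- the event of the world -/
def WA (v : ℕ → Finset (Fin 3) → X → (Fin 3 → β) → υ) (D : HD (Fin 3) X β γ φ) (e : Fin 3) (ν : ℕ)
    (w u : Pt (Fin 3) X β φ) : Prop := (u.1, u.2.1 e, NPr v D ν u) = (w.1, w.2.1 e, NPr v D ν w)

theorem NPr_xy (ν : ℕ) {u w : Pt (Fin 3) X β φ} (h1 : u.1 = w.1) (h2 : u.2.1 = w.2.1) :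
    NPr v D ν u = NPr v D ν w := by
  unfold NPr NP nd
  rw [h1, h2]

theorem LJ_xy (J : Finset (Fin 3)) (ν : ℕ) {u w : Pt (Fin 3) X β φ} (h1 : u.1 = w.1) (h2 : u.2.1 = w.2.1) :
    LJ v J ν u = LJ v J ν w := by
  unfold LJ XLr XL
  rw [h1, h2]

theorem WA_ne (e : Fin 3) (ν : ℕ) (w : Pt (Fin 3) X β φ) : (D.P h 0).Pr (WA v D e ν w) ≠ 0 :=
  pos_of 0 w fun u h1 h2 => by
    unfold WA
    rw [NPr_xy ν h1 h2, h1, h2]

theorem Wd_supp {e : Fin 3} {ν : ℕ} {w u : Pt (Fin 3) X β φ} (hu : (Wd h v e ν w).p u ≠ 0) :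
    u.1 = w.1 ∧ u.2.1 e = w.2.1 e ∧ NPr v D ν u = NPr v D ν w := by
  have h1 := (cond_supp (P := D.P h 0) (A := WA v D e ν w) (WA_ne e ν w) hu).1
  unfold WA at h1
  rw [Prod.mk.injEq, Prod.mk.injEq] at h1
  exact h1

/-- means in a world -/
theorem Wd_E (hv : Codes D v) (e : Fin 3) (ν : ℕ) (w : Pt (Fin 3) X β φ) (f : Fin 3 → β → ℝ) :
    (Wd h v e ν w).E (fun u => ∏ j, f j (u.2.1 j)) =
      ∏ j, if j = e then f j (w.2.1 j) else (nuC D (nt ν) w j).E (f j) := by
  classical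
  set s := tm ν + 1 with hs
  set n := nt ν with hn
  have hsn : s ≤ n + 1 := tn ν
  set K0 : ℝ := (FP.unif X).Pr (cX D v s n w) * ∏ j, (FP.unif β).Pr (cY D n w j) with hK
  set a : ℝ := (muC D v s n w).E (fun x => ind (x = w.1)) with ha
  set b : ℝ := mC D n w e (w.2.1 e) with hb
  have key : ∀ f : Fin 3 → β → ℝ, (D.P h 0).E (fun u => ind (WA v D e ν w u) * ∏ j, f j (u.2.1 j)) =
      K0 * (a * (b * ∏ j, if j = e then f j (w.2.1 j) else (nuC D n w j).E (f j))) := by
    intro f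
    have e1 : (D.P h 0).E (fun u => ind (WA v D e ν w u) * ∏ j, f j (u.2.1 j)) =
        (D.P h 0).E (fun u => ind (NP D v s n u = NP D v s n w) * (ind (u.1 = w.1) *
          ∏ j, ((fun (j : Fin 3) (b : β) => (if j = e then ind (b = w.2.1 e) else 1) * f j b) j (u.2.1 j)))) := by
      refine FP.E_congr _ fun u _ => ?_
      simp only
      rw [Finset.prod_mul_distrib, Finset.prod_ite_eq' univ e (fun j => ind (u.2.1 j = w.2.1 e)), if_pos (mem_univ e)]
      have e2 : ind (WA v D e ν w u) = ind (u.1 = w.1) * (ind (u.2.1 e = w.2.1 e) * ind (NP D v s n u = NP D v s n w)) := by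
        rw [← ind_and, ← ind_and]
        refine ind_cg ?_
        unfold WA
        rw [Prod.mk.injEq, Prod.mk.injEq]
        rfl
      rw [e2]
      ring
    rw [e1, cell_E hv 0 hsn w (fun x => ind (x = w.1))
      (fun (j : Fin 3) (b : β) => (if j = e then ind (b = w.2.1 e) else 1) * f j b)]
    congr 1
    congr 1
    have e3 : ∀ j : Fin 3, (nuC D n w j).E (fun b => (if j = e then ind (b = w.2.1 e) else 1) * f j b) =
        (if j = e then b else 1) * (if j = e then f j (w.2.1 j) else (nuC D n w j).E (f j)) := by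
      intro j
      by_cases hj : j = e
      · subst hj
        simp only [if_true]
        rw [hb]
        unfold mC
        rw [← FP.E_mul_const]
        refine FP.E_congr _ fun b' _ => ?_
        by_cases hbb : b' = w.2.1 j
        · rw [hbb]
        · rw [ind_not hbb, zero_mul, zero_mul]
      · simp only [hj, if_false, one_mul]
    rw [Finset.prod_congr rfl fun j _ => e3 j, Finset.prod_mul_distrib, Finset.prod_ite_eq' univ e (fun _ => b),
      if_pos (mem_univ e)]
  have h1 := key (fun _ _ => 1)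
  have e4 : (∏ j : Fin 3, if j = e then (1 : ℝ) else (nuC D n w j).E (fun _ => 1)) = 1 := by
    refine Finset.prod_eq_one fun j _ => ?_
    by_cases hj : j = e
    · rw [if_pos hj]
    · rw [if_neg hj, FP.E_const]
  rw [e4, mul_one] at h1
  have e5 : (D.P h 0).E (fun u => ind (WA v D e ν w u) * ∏ _j : Fin 3, (1 : ℝ)) = (D.P h 0).Pr (WA v D e ν w) := by
    refine FP.E_congr _ fun u _ => ?_
    rw [Finset.prod_const_one, mul_one]
  have hne := WA_ne (h := h) (v := v) e ν w
  rw [e5] at h1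
  have h2 : (Wd h v e ν w).E (fun u => ∏ j, f j (u.2.1 j)) =
      (D.P h 0).E (fun u => ind (WA v D e ν w u) * ∏ j, f j (u.2.1 j)) / (D.P h 0).Pr (WA v D e ν w) :=
    FP.cond_E hne _
  rw [h2, key f, h1]
  rw [h1] at hne
  rw [div_eq_iff hne]
  ring

/-- one point -/
theorem Wd_E1 (hv : Codes D v) {e j : Fin 3} (hj : e ≠ j) (ν : ℕ) (w : Pt (Fin 3) X β φ) (F : β → ℝ) :
    (Wd h v e ν w).E (fun u => F (u.2.1 j)) = (nuC D (nt ν) w j).E F := by
  have h1 := Wd_E (h := h) hv e ν w (fun i b => if i = j then F b else 1)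
  have e1 : (fun u : Pt (Fin 3) X β φ => ∏ i, (fun (i : Fin 3) (b : β) => if i = j then F b else 1) i (u.2.1 i)) =
      fun u => F (u.2.1 j) := by
    funext u
    simp only
    rw [Finset.prod_ite_eq' univ j (fun i => F (u.2.1 i)), if_pos (mem_univ j)]
  rw [e1] at h1
  rw [h1]
  have e2 : ∀ i : Fin 3, (if i = e then (fun (i : Fin 3) (b : β) => if i = j then F b else 1) i (w.2.1 i) else
      (nuC D (nt ν) w i).E ((fun (i : Fin 3) (b : β) => if i = j then F b else 1) i)) =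
      if i = j then (nuC D (nt ν) w i).E F else 1 := by
    intro i
    simp only
    by_cases hi : i = j
    · subst hi
      rw [if_neg (Ne.symm hj), if_pos rfl]
      simp only [if_true]
    · rw [if_neg hi]
      by_cases hie : i = e
      · rw [if_pos hie, if_neg hi]
      · rw [if_neg hie]
        simp only [hi, if_false]
        exact FP.E_const _ _
  rw [Finset.prod_congr rfl fun i _ => e2 i, Finset.prod_ite_eq' univ j (fun i => (nuC D (nt ν) w i).E F),
    if_pos (mem_univ j)]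

/-- two points -/
theorem Wd_E2 (hv : Codes D v) {e c d : Fin 3} (hc : e ≠ c) (hd : e ≠ d) (hcd : c ≠ d) (ν : ℕ)
    (w : Pt (Fin 3) X β φ) (F G : β → ℝ) :
    (Wd h v e ν w).E (fun u => F (u.2.1 c) * G (u.2.1 d)) = (nuC D (nt ν) w c).E F * (nuC D (nt ν) w d).E G := by
  have h1 := Wd_E (h := h) hv e ν w (fun i b => (if i = c then F b else 1) * (if i = d then G b else 1))
  have e1 : (fun u : Pt (Fin 3) X β φ => ∏ i, (fun (i : Fin 3) (b : β) => (if i = c then F b else 1) *
      (if i = d then G b else 1)) i (u.2.1 i)) = fun u => F (u.2.1 c) * G (u.2.1 d) := by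
    funext u
    simp only
    rw [Finset.prod_mul_distrib, Finset.prod_ite_eq' univ c (fun i => F (u.2.1 i)), if_pos (mem_univ c),
      Finset.prod_ite_eq' univ d (fun i => G (u.2.1 i)), if_pos (mem_univ d)]
  rw [e1] at h1
  rw [h1]
  have e2 : ∀ i : Fin 3, (if i = e then (fun (i : Fin 3) (b : β) => (if i = c then F b else 1) *
      (if i = d then G b else 1)) i (w.2.1 i) else
      (nuC D (nt ν) w i).E ((fun (i : Fin 3) (b : β) => (if i = c then F b else 1) * (if i = d then G b else 1)) i)) =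
      (if i = c then (nuC D (nt ν) w i).E F else 1) * (if i = d then (nuC D (nt ν) w i).E G else 1) := by
    intro i
    simp only
    by_cases hi : i = c
    · subst hi
      rw [if_neg (Ne.symm hc), if_pos rfl, if_neg hcd, mul_one]
      simp only [if_true, hcd, if_false, mul_one]
    · by_cases hi' : i = d
      · subst hi'
        rw [if_neg (Ne.symm hd), if_neg hi, if_pos rfl, one_mul]
        simp only [if_true, hi, if_false, one_mul]
      · rw [if_neg hi, if_neg hi']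
        by_cases hie : i = e
        · rw [if_pos hie, if_neg hi, if_neg hi']
        · rw [if_neg hie]
          simp only [hi, hi', if_false]
          rw [mul_one]
          exact FP.E_const _ _
  rw [Finset.prod_congr rfl fun i _ => e2 i, Finset.prod_mul_distrib,
    Finset.prod_ite_eq' univ c (fun i => (nuC D (nt ν) w i).E F), if_pos (mem_univ c),
    Finset.prod_ite_eq' univ d (fun i => (nuC D (nt ν) w i).E G), if_pos (mem_univ d)]

/-- a function of one point -/
theorem fac_pt {j : Fin 3} (w : Pt (Fin 3) X β φ) {f : Pt (Fin 3) X β φ → ℝ}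
    (hf : Fac (fun u : Pt (Fin 3) X β φ => u.2.1 j) f) : ∃ F : β → ℝ, ∀ u, f u = F (u.2.1 j) :=
  ⟨fun b => f (w.1, fun _ => b, w.2.2), fun u => hf u _ rfl⟩

theorem nuC_congr {n : ℕ} {w w' : Pt (Fin 3) X β φ} {j : Fin 3} (hj : D.qb n (w.2.1 j) = D.qb n (w'.2.1 j)) :
    nuC D n w j = nuC D n w' j := by
  unfold nuC
  have : cY D n w j = cY D n w' j := by
    funext b
    unfold cY
    rw [hj]
  rw [this]

/-- probability of a finer cell -/
theorem nuC_cell {n m : ℕ} (hnm : n ≤ m) (w : Pt (Fin 3) X β φ) (j : Fin 3) {b : β} (hb : D.qb n b = D.qb n (w.2.1 j)) :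
    (nuC D n w j).Pr (fun b' => D.qb m b' = D.qb m b) = ((D.cB m b).card : ℝ) / (D.cB n (w.2.1 j)).card := by
  classical
  have hcard : ∀ A : β → Prop, (FP.unif β).Pr A = ((univ.filter A).card : ℝ) / Fintype.card β := by
    intro A
    unfold FP.Pr
    rw [FP.unif_E]
    congr 1
    rw [Finset.card_filter]
    push_cast
    refine Finset.sum_congr rfl fun b _ => ?_
    by_cases hA : A b
    · rw [ind_of hA, if_pos hA]
    · rw [ind_not hA, if_neg hA]
  have hne : (FP.unif β).Pr (cY D n w j) ≠ 0 := unif_ne (cY_self n w j)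
  have hβ : (Fintype.card β : ℝ) ≠ 0 := by exact_mod_cast Fintype.card_ne_zero
  unfold nuC FP.Pr
  rw [FP.cond_E hne]
  have e1 : (FP.unif β).E (fun b' => ind (cY D n w j b') * ind (D.qb m b' = D.qb m b)) =
      (FP.unif β).Pr (fun b' => D.qb m b' = D.qb m b) := by
    refine FP.E_congr _ fun b' _ => ?_
    by_cases hh : D.qb m b' = D.qb m b
    · have h2 : cY D n w j b' := by
        unfold cY
        rw [qb_mono D hnm hh, hb]
      rw [ind_of hh, ind_of h2, one_mul]
    · rw [ind_not hh, mul_zero]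
  rw [e1, hcard, hcard]
  have e2 : (univ.filter fun b' => D.qb m b' = D.qb m b) = D.cB m b := by
    ext b'
    unfold HD.cB
    simp only [Finset.mem_filter]
  have e3 : (univ.filter (cY D n w j)) = D.cB n (w.2.1 j) := by
    ext b'
    unfold HD.cB cY
    simp only [Finset.mem_filter]
  rw [e2, e3]
  have hcB : ((D.cB n (w.2.1 j)).card : ℝ) ≠ 0 := by
    have : w.2.1 j ∈ D.cB n (w.2.1 j) := by
      unfold HD.cB
      simp
    exact_mod_cast (Finset.card_pos.2 ⟨_, this⟩).ne'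
  field_simp

end WB

/-! ### the relation -/

namespace WB

theorem LJ_get {J : Finset (Fin 3)} {ν : ℕ} {u u' : Pt (Fin 3) X β φ} (h2 : LJ v J ν u = LJ v J ν u') {j : Fin 3}
    (hj : j ∈ J) : XLr v ν j u = XLr v ν j u' := by
  have h3 := congrFun h2 j
  unfold LJ at h3
  rw [if_pos hj, if_pos hj] at h3
  exact Option.some.inj h3

theorem LJ_mono {I J : Finset (Fin 3)} (hIJ : I ⊆ J) {ν : ℕ} {u u' : Pt (Fin 3) X β φ}
    (h2 : LJ v J ν u = LJ v J ν u') : LJ v I ν u = LJ v I ν u' := by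
  funext j
  unfold LJ
  by_cases hj : j ∈ I
  · rw [if_pos hj, if_pos hj, LJ_get h2 (hIJ hj)]
  · rw [if_neg hj, if_neg hj]

theorem LJ_PJ' (J : Finset (Fin 3)) (r : ℕ) : Fac (LJ (φ := φ) v J r) (PJ J) := by
  intro a b hab
  funext j
  unfold PJ
  by_cases hj : j ∈ J
  · have h1 : XLr v r j a = XLr v r j b := LJ_get hab hj
    have h2 : a.2.1 j = b.2.1 j := congrArg Prod.fst h1
    rw [if_pos hj, if_pos hj, h2]
  · rw [if_neg hj, if_neg hj]

theorem QF_congr {J : Finset (Fin 3)} {ν : ℕ} {u u' : Pt (Fin 3) X β φ} (h1 : NPr v D ν u = NPr v D ν u')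
    (h2 : LJ v J ν u = LJ v J ν u') : QF h v J ν u = QF h v J ν u' := by
  unfold QF
  rw [h1, h2]

theorem rdev_congr {J0 : Finset (Fin 3)} {c d : Fin 3} {ν : ℕ} {u u' : Pt (Fin 3) X β φ}
    (h1 : NPr v D ν u = NPr v D ν u') (h2 : LJ v (insert c J0) ν u = LJ v (insert c J0) ν u')
    {x x' : Pt (Fin 3) X β φ} (hx : XLr v ν d x = XLr v ν d x') :
    rdev h v J0 c d ν u x = rdev h v J0 c d ν u' x' := by
  unfold rdev
  rw [QF_congr h1 h2, QF_congr h1 (LJ_mono (Finset.subset_insert c J0) h2), hx]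

theorem dvp_congr {θ : ℝ} {J0 : Finset (Fin 3)} {c d : Fin 3} {ν : ℕ} {u u' : Pt (Fin 3) X β φ}
    (h1 : NPr v D ν u = NPr v D ν u') (h2 : LJ v (insert c J0) ν u = LJ v (insert c J0) ν u')
    {x x' : Pt (Fin 3) X β φ} (hx : XLr v ν d x = XLr v ν d x') :
    dvp h v θ J0 c d ν u x ↔ dvp h v θ J0 c d ν u' x' := by
  unfold dvp
  rw [rdev_congr h1 h2 hx]

theorem rowm_congr {θ : ℝ} {J0 : Finset (Fin 3)} {c d : Fin 3} {ν : ℕ} {u u' : Pt (Fin 3) X β φ}
    (h1 : NPr v D ν u = NPr v D ν u') (h2 : LJ v (insert c J0) ν u = LJ v (insert c J0) ν u')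
    (hd : u.2.1 d = u'.2.1 d) : rowm h v θ J0 c d ν u = rowm h v θ J0 c d ν u' := by
  unfold rowm
  have e1 : (fun x => ind (dvp h v θ J0 c d ν u x)) = fun x => ind (dvp h v θ J0 c d ν u' x) := by
    funext x
    exact ind_cg (dvp_congr h1 h2 rfl)
  rw [e1]
  exact (D.P h 0).ce_fac _ _ u u' (Prod.ext hd h1)

theorem lJq_congr {J : Finset (Fin 3)} {ν : ℕ} {u u' : Pt (Fin 3) X β φ} (h1 : NPr v D ν u = NPr v D ν u')
    (h2 : LJ v J ν u = LJ v J ν u') : lJq h v J ν u = lJq h v J ν u' := by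
  unfold lJq
  exact lq_fac (D.P h 0) (N := NPr v D) (L := LJ v J) (Y := PJ J) (fun k => LJ_PJ' J k) ν u u' (Prod.ext h2 h1)

end WB

end Pool.Agent.GMH.TD
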