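import Pool.Agent.GMH.TDdef
import Pool.Agent.GMH.TD8

/-!
# GMH.TD9: thin dynamics, rows and covers, definitions (helper27)

`up1 c w b` = the position `w` with the point `b` at `c`.  `rwA I w u` : the letter of `d` at `u` (state `ν`) is related to the
letters of `J0`, `c` of one of the positions `up1 c w (us i)`, `i ∈ I`.  `cm I r w` = probability of this given the hidden
point, the point of `e` and the public cell at `r` (hidden point and point of `e` as at `w`).
`exq` : some nonempty `I` has `cm ≥ |I| u / 4` and `cm ≥ 4 (8 for odd r)` times the probability in the public cell of the last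
even half step.
-/

set_option autoImplicit false
set_option linter.unusedSectionVars false

namespace Pool.Agent.GMH.TD

open Finset Pool.Agent.PWZ Pool.Agent.M3 Pool.Agent.GM Pool.Agent.GM.Harm Pool.Agent.GMH Pool.Agent.GMH.NZ
open Pool.Agent.GMH.V3 Pool.Agent.GMH.Gdy

noncomputable section

variable {X β γ φ υ : Type} [Fintype X] [Fintype β] [Fintype φ] [Nonempty X] [Nonempty β]
variable {D : HD (Fin 3) X β γ φ} {al : ℝ} (h : D.Thick al) (v : ℕ → Finset (Fin 3) → X → (Fin 3 → β) → υ)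

/-- the position `w` with the point `b` at `c` -/
def up1 (c : Fin 3) (w : Pt (Fin 3) X β φ) (b : β) : Pt (Fin 3) X β φ := (w.1, Function.update w.2.1 c b, w.2.2)

/-- the letter of `d` at `u` is in one of the rows `I` of the sample, hidden point and point of `e` as at `w` -/
def rwA (θ X1 p1 : ℝ) (J0 : Finset (Fin 3)) (c d : Fin 3) (ν : ℕ) {M : ℕ} (us : Fin M → β) (I : Finset (Fin M))
    (w u : Pt (Fin 3) X β φ) : Prop :=
  ∃ i ∈ I, ∃ z, NPr v D ν z = NPr v D ν w ∧ LJ v (insert c J0) ν z = LJ v (insert c J0) ν (up1 c w (us i)) ∧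
    XLr v ν d z = XLr v ν d u ∧ HRq h v θ X1 p1 J0 c d ν z

/-- probability of the rows `I` given the hidden point, the point of `e` and the public cell at `r` -/
def cm (θ X1 p1 : ℝ) (J0 : Finset (Fin 3)) (e c d : Fin 3) (ν : ℕ) {M : ℕ} (us : Fin M → β) (I : Finset (Fin M)) (r : ℕ)
    (w : Pt (Fin 3) X β φ) : ℝ :=
  (D.P h 0).ce (fun z => (z.1, z.2.1 e, NPr v D r z)) (fun z => ind (rwA h v θ X1 p1 J0 c d ν us I w z)) w

/-- exceptional position -/
def exq (θ X1 p1 : ℝ) (J0 : Finset (Fin 3)) (e c d : Fin 3) (ν : ℕ) (u : ℝ) {M : ℕ} (us : Fin M → β) (r : ℕ)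
    (w : Pt (Fin 3) X β φ) : Prop :=
  ∃ I : Finset (Fin M), I.Nonempty ∧ I.card * u / 4 ≤ cm h v θ X1 p1 J0 e c d ν us I r w ∧
    (4 + 4 * ((r % 2 : ℕ) : ℝ)) * (clq h v (r - r % 2) w).Pr (rwA h v θ X1 p1 J0 c d ν us I w) ≤
      cm h v θ X1 p1 J0 e c d ν us I r w

/-- the bound of the exceptional probability -/
def e9 (N1 X1 u dl : ℝ) (M : ℕ) : ℝ := 2 * Real.exp 1 * (M * Real.exp (2 * X1)) * Real.exp (-(N1 * u / 64)) / dl

end

end Pool.Agent.GMH.TD
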