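import Pool.Agent.GMH.TD0
import Pool.Agent.GMH.VDyn
import Pool.Agent.GMH.RowV
import Pool.Agent.GMH.Cov2
import Pool.Agent.GMH.CovI
import Pool.Agent.GMH.Rare

/-!
# GMH.TDdef: thin dynamics of HARM(3), definitions (helper27)

Half steps `r` as in `GMH/StmtA`: public information `NPr v D r`, letters `XLr v r j`; the law is `D.P h 0` (labels play no
role: everything is a function of the positions and of the codes).  Families of letters: `J : Finset (Fin 3)`, `LJ v J r`.
* `lJq`, `aJq`, `bJq`, `MJq`, `MAq` : log probability, increments, moved (one `J`, some `J`); `STq` the clock (light: `2`);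
* `clq r w` = law of the public cell of `w`; `QF J r w` = the same, the letters (and points) of `J` as at `w`;
* `dvp θ J0 c d r w w'` : the density of the letter of `d` at `w'` against the letters of `J0`, `c` at `w`, given the letters
  of `J0`, deviates from `1` by more than `θ`; `rowm` = mass of the deviating letters at the exact point of `d`;
* `Sq i r` strong letter (`2 ≤` public increment); `Gd X1 J0 c d r` : the letters are not too rare;
* `EvP` : the events to be summed; `HRq` : the static relation at the start of an epoch;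
* worlds: `Wd e ν w` (hidden point, point of `e`, public cell at `ν` fixed), `cel`, `Rel`, potentials `PhV`.
-/

set_option autoImplicit false
set_option linter.unusedSectionVars false

namespace Pool.Agent.GMH.TD

open Finset Pool.Agent.PWZ Pool.Agent.M3 Pool.Agent.GM Pool.Agent.GM.Harm Pool.Agent.GMH Pool.Agent.GMH.NZ
open Pool.Agent.GMH.V3 Pool.Agent.GMH.Gdy

noncomputable section

variable {X β γ φ υ : Type} [Fintype X] [Fintype β] [Fintype φ] [Nonempty X] [Nonempty β]
variable {D : HD (Fin 3) X β γ φ} {al : ℝ} (h : D.Thick al) (v : ℕ → Finset (Fin 3) → X → (Fin 3 → β) → υ)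

/-- letters of the vertices in `J` -/
def LJ (J : Finset (Fin 3)) (r : ℕ) (w : Pt (Fin 3) X β φ) : Fin 3 → Option (β × List υ) := fun j =>
  if j ∈ J then some (XLr v r j w) else Option.none

/-- points of the vertices in `J` -/
def PJ (J : Finset (Fin 3)) (w : Pt (Fin 3) X β φ) : Fin 3 → Option β := fun j => if j ∈ J then some (w.2.1 j) else Option.none

/-- log probability of the letters `J` given their points and the public information -/
def lJq (J : Finset (Fin 3)) (r : ℕ) (w : Pt (Fin 3) X β φ) : ℝ := lq (D.P h 0) (NPr v D) (LJ v J) (PJ J) r w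

/-- public increment -/
def aJq (J : Finset (Fin 3)) (r : ℕ) (w : Pt (Fin 3) X β φ) : ℝ := ai (D.P h 0) (NPr v D) (LJ v J) (PJ J) r w

/-- birth -/
def bJq (J : Finset (Fin 3)) (r : ℕ) (w : Pt (Fin 3) X β φ) : ℝ := bi (D.P h 0) (NPr v D) (LJ v J) (PJ J) r w

/-- the letters `J` have moved -/
def MJq (δ : ℝ) (J : Finset (Fin 3)) (ν r : ℕ) (w : Pt (Fin 3) X β φ) : Prop :=
  Mv1 (D.P h 0) (NPr v D) (LJ v J) (PJ J) δ ν r w

/-- some letters have moved -/
def MAq (δ : ℝ) (ν r : ℕ) (w : Pt (Fin 3) X β φ) : Prop := Mvd (D.P h 0) (NPr v D) (LJ v) (fun J => PJ J) δ ν r w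

/-- light public value -/
def ltq (r : ℕ) (w : Pt (Fin 3) X β φ) : Prop := lit (D.P h 0) (NPr v D) 2 r w

/-- start of the current epoch -/
def STq (δ kp : ℝ) (r : ℕ) (w : Pt (Fin 3) X β φ) : ℕ :=
  stt (D.P h 0) (NPr v D) (LJ v) (fun J => PJ J) 2 δ kp r w

/-- law of the public cell -/
def clq (r : ℕ) (w : Pt (Fin 3) X β φ) : FP (Pt (Fin 3) X β φ) := Pc h v 0 (tm r + 1) (nt r) w

/-- the digit of the odd half step `r` is not tiny (no condition for even `r`) -/
def dgq (dl : ℝ) (r : ℕ) (w : Pt (Fin 3) X β φ) : Prop :=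
  r % 2 = 1 → dl * (D.P h 0).m (NPr v D (r - 1)) w ≤ (D.P h 0).m (NPr v D r) w

/-- law of the public cell with the letters (and points) of `J` fixed -/
def QF (J : Finset (Fin 3)) (r : ℕ) (w : Pt (Fin 3) X β φ) : FP (Pt (Fin 3) X β φ) :=
  (D.P h 0).cond fun u => NPr v D r u = NPr v D r w ∧ LJ v J r u = LJ v J r w

/-- density of the letter of `d` at `w'` against the letters of `J0`, `c` at `w`, given the letters of `J0` -/
def rdev (J0 : Finset (Fin 3)) (c d : Fin 3) (r : ℕ) (w w' : Pt (Fin 3) X β φ) : ℝ :=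
  rt (QF h v (insert c J0) r w) (QF h v J0 r w) (XLr v r d) (XLr v r d w')

/-- the density deviates -/
def dvp (θ : ℝ) (J0 : Finset (Fin 3)) (c d : Fin 3) (r : ℕ) (w w' : Pt (Fin 3) X β φ) : Prop :=
  θ < |rdev h v J0 c d r w w' - 1|

/-- mass of the deviating letters at the exact point of `d` -/
def rowm (θ : ℝ) (J0 : Finset (Fin 3)) (c d : Fin 3) (r : ℕ) (w : Pt (Fin 3) X β φ) : ℝ :=
  (D.P h 0).ce (fun u => (u.2.1 d, NPr v D r u)) (fun u => ind (dvp h v θ J0 c d r w u)) w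

/-- strong letter -/
def Sq (i : Fin 3) (r : ℕ) (w : Pt (Fin 3) X β φ) : Prop := 2 ≤ aJq h v {i} r w

/-- the letters are not too rare -/
def Gd (X1 : ℝ) (J0 : Finset (Fin 3)) (c d : Fin 3) (r : ℕ) (w : Pt (Fin 3) X β φ) : Prop :=
  -X1 ≤ lJq h v (insert c J0) r w ∧ -X1 ≤ lJq h v (insert d J0) r w

/-- the events of the thin dynamics -/
def EvP (θ X1 : ℝ) (J0 : Finset (Fin 3)) (c d : Fin 3) (r : ℕ) (w : Pt (Fin 3) X β φ) : Prop :=
  Sq h v c r w ∧ Sq h v d r w ∧ dvp h v θ J0 c d r w w ∧ dvp h v θ J0 d c r w w ∧ Gd h v X1 J0 c d r w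

/-- the static relation at the start `ν` of an epoch -/
def HRq (θ X1 p1 : ℝ) (J0 : Finset (Fin 3)) (c d : Fin 3) (ν : ℕ) (w : Pt (Fin 3) X β φ) : Prop :=
  dvp h v θ J0 c d ν w w ∧ dvp h v θ J0 d c ν w w ∧ Gd h v X1 J0 c d ν w ∧
    rowm h v θ J0 c d ν w ≤ p1 ∧ rowm h v θ J0 d c ν w ≤ p1

/-! ### worlds -/

/-- three different vertices, `J0` is empty or `{e}` -/
structure Tri3 (J0 : Finset (Fin 3)) (e c d : Fin 3) : Prop where
  ec : e ≠ c
  ed : e ≠ d
  cd : c ≠ d
  sub : J0 ⊆ {e}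

/-- the prices of the thin level -/
structure Prc (N : Finset (Fin 3) → ℝ) (S : Finset (Finset (Fin 3))) (N1 : ℝ) : Prop where
  nn : ∀ J ∈ S, 0 ≤ N J
  e0 : ∅ ∈ S
  s1 : ∀ i : Fin 3, {i} ∈ S
  n0 : N ∅ = 1
  n1 : ∀ i : Fin 3, N1 ≤ N {i}
  pos : 1 ≤ N1

/-- hidden point, point of `e` and public cell at `ν` as at `w` -/
def Wd (e : Fin 3) (ν : ℕ) (w : Pt (Fin 3) X β φ) : FP (Pt (Fin 3) X β φ) :=
  (D.P h 0).cond fun u => (u.1, u.2.1 e, NPr v D ν u) = (w.1, w.2.1 e, NPr v D ν w)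

/-- cell of the vertex `j` at the half step `ν + s` (at most `2 T`) -/
def cel (D : HD (Fin 3) X β γ φ) (T : ℕ) (j : Fin 3) (ν s : ℕ) (w : Pt (Fin 3) X β φ) : γ :=
  D.qb (nt (min (ν + s) (2 * T))) (w.2.1 j)

/-- the position `w` with the points `b` at `c` and `b'` at `d` -/
def upd (c d : Fin 3) (w : Pt (Fin 3) X β φ) (b b' : β) : Pt (Fin 3) X β φ :=
  (w.1, Function.update (Function.update w.2.1 c b) d b', w.2.2)

/-- the static relation in the world of `w` : `b` at `c`, `b'` at `d` (both in the cells of `w`) -/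
def Rel (θ X1 p1 : ℝ) (J0 : Finset (Fin 3)) (c d : Fin 3) (ν : ℕ) (w : Pt (Fin 3) X β φ) (b b' : β) : Prop :=
  NPr v D ν (upd c d w b b') = NPr v D ν w ∧ HRq h v θ X1 p1 J0 c d ν (upd c d w b b')

/-- rows of a sample of points of `c`, as sets of points of `d` -/
def Rws (θ X1 p1 : ℝ) (J0 : Finset (Fin 3)) (c d : Fin 3) (ν : ℕ) {M : ℕ} (us : Fin M → β) (w : Pt (Fin 3) X β φ) :
    ℕ → Pt (Fin 3) X β φ → Prop :=
  rows (row (fun u : Pt (Fin 3) X β φ => u.2.1 d) (Rel h v θ X1 p1 J0 c d ν w)) us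

/-- potential of the cover of the vertex `d` by the rows of a sample of points of `c`, in the world of `w`, at `ν + s` -/
def PhV (T : ℕ) (θ X1 p1 : ℝ) (J0 : Finset (Fin 3)) (e c d : Fin 3) (ν : ℕ) (u : ℝ) {M : ℕ} (us : Fin M → β) (s : ℕ)
    (w : Pt (Fin 3) X β φ) : ℝ :=
  Gdy.Phi (Wd h v e ν w) (cel D T d ν) u (Rws h v θ X1 p1 J0 c d ν us w) M s w

end

end Pool.Agent.GMH.TD
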