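import Pool.Agent.GMH.Fin3
import Pool.Agent.GMH.Key3L

/-!
# GMH/TTot: the top level over the thin labels, first half, helper91

`T_total` : the balance of the tops over the thin labels on a decreasing family `a r` of events of the thin labels is at most
the two ends, the killed points and the sums of `LT` (loss of the codes on `a (2t+1)`), `NT` (normalisation of the digits
on the good points `Gd t`) and `DT` (loss of the digits off the good points).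
`TopDynL` : these three sums are small for `a = Ar`; `topLev_of : TopDynL → TopLev`.
-/

set_option autoImplicit false
set_option linter.unusedSectionVars false

namespace Pool.Agent.GMH.V3

open Finset Pool.Agent.PWZ Pool.Agent.M3 Pool.Agent.GM Pool.Agent.GM.Harm Pool.Agent.GMH Pool.Agent.GMH.NZ

section defs

variable {X β γ φ υ : Type} [Fintype X] [Fintype β] [Fintype φ] [Nonempty X] [Nonempty β]
variable {D : HD (Fin 3) X β γ φ} {al : ℝ} (h : D.Thick al) (v : ℕ → Finset (Fin 3) → X → (Fin 3 → β) → υ)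

/-- the loss of the codes of the time `t + 1` on the points of `a` -/
noncomputable def LT (t : ℕ) (a : Pt (Fin 3) X β φ → Prop) : ℝ :=
  (D.P h t).E (fun w => ind (a w) *
    lossC (D.P h t) (ZT D v (t + 1) (t + 1)) (ZbT D v (Equiv.refl (Fin 3)) (t + 1) (t + 1)) (FT v (Equiv.refl (Fin 3)) (t + 1))
      (YT v (Equiv.refl (Fin 3)) (t + 2)) (VT v (t + 2)) w)

/-- the normalisation of the digit on the points of `a` -/
noncomputable def NT (dg : ℕ → X → ℝ) (t : ℕ) (a : Pt (Fin 3) X β φ → Prop) : ℝ :=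
  (D.P h t).E (fun w => ind (a w) * ∑ f ∈ let_ (FT v (Equiv.refl (Fin 3)) (t + 1)),
    (∏ i, (D.P h t).pv (fun u => (dg t u.1, ZbT D v (Equiv.refl (Fin 3)) (t + 1) t i u))
      (FT v (Equiv.refl (Fin 3)) (t + 1) i) w (f i)) *
      (G0C (D.P h t) (ZT D v (t + 1) t) (ZbT D v (Equiv.refl (Fin 3)) (t + 1) t) (FT v (Equiv.refl (Fin 3)) (t + 1)) 1
        (fun _ _ => False) w f - 1))

/-- the loss of the digit of the time `t` on the points of `a` -/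
noncomputable def DT (dg : ℕ → X → ℝ) (t : ℕ) (a : Pt (Fin 3) X β φ → Prop) : ℝ :=
  (D.P h t).E (fun w => ind (a w) * lossC (D.P h t) (ZT D v (t + 1) t) (ZbT D v (Equiv.refl (Fin 3)) (t + 1) t)
    (FT v (Equiv.refl (Fin 3)) (t + 1)) (fun _ u => dg t u.1) (fun u => dg t u.1) w)

end defs

namespace TT

variable {X β γ φ : Type} [Fintype X] [Fintype β] [Fintype φ] [Nonempty X] [Nonempty β]
variable {D : HD (Fin 3) X β γ φ} {al : ℝ} {h : D.Thick al}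
  {v : ℕ → Finset (Fin 3) → X → (Fin 3 → β) → Pt (Fin 3) X β φ}
variable {dg : ℕ → X → ℝ} {prr : ℕ → Fin 3 → φ → φ} {T : ℕ} {Lam : ℝ}

/-- the ends -/
noncomputable def mT (n N1 Lam : ℝ) : ℝ := 54 * n * Lam / N1 + 24 * Lam / n + 12 * Lam / N1

/-- the relative potential at the start, lower bound on any event -/
theorem MA3_ge (H : D.Hyp dg prr al T Lam) {n N1 : ℝ} (R : Run h (pr3 (Fin 3) n N1) (SS1 (Fin 3)) (AdmDep D) v)
    (hn : 1 ≤ n) (hN1 : 1 ≤ N1) {t : ℕ} (ht : t ≤ T) (a : ℕ → Pt (Fin 3) X β φ → Prop) :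
    -(2 * Real.sqrt (mT n N1 Lam)) ≤ MA h v (fun J => J ≠ univ) pth a t := by
  have hK : Fintype.card (Fin 3) = 3 := rfl
  have h1 := iR_ev_ge (D.P h t) (p := fun J : Finset (Fin 3) => J ≠ univ) (p' := pth) down_ne (LL (Um v (t + 1)))
    (WW D t) (a t)
  rw [Mt_MR h (v := v) (t := t) down_ne pth_down (ne_u hK) pth0 (pth_sub hK)] at h1
  have h2 := EndTR.endT3_run hK R H hn hN1 ht
  have h3 := Real.sqrt_le_sqrt h2
  unfold mT
  refine le_trans ?_ h1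
  linarith

/-- killed points -/
theorem killT (_H : D.Hyp dg prr al T Lam) {a : ℕ → Pt (Fin 3) X β φ → Prop} (ha : ∀ r w, a (r + 1) w → a r w)
    (hxy : ∀ r, XY (a r)) :
    ∑ t ∈ range T, ((D.P h t).Pr (fun w => a (2 * t) w ∧ ¬ a (2 * t + 1) w) +
      (D.P h (t + 1)).Pr (fun w => a (2 * t + 1) w ∧ ¬ a (2 * (t + 1)) w)) ≤ (D.P h T).Pr (fun w => ¬ a (2 * T) w) := by
  have h1 := BS.kill_tel (D.P h T) (a := a) ha (2 * T)
  rw [← BS.sum_two fun r => (D.P h T).Pr (fun w => a r w ∧ ¬ a (r + 1) w)] at h1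
  refine le_trans (le_of_eq ?_) h1
  refine Finset.sum_congr rfl fun t _ => ?_
  have e1 : (D.P h t).Pr (fun w => a (2 * t) w ∧ ¬ a (2 * t + 1) w) =
      (D.P h T).Pr (fun w => a (2 * t) w ∧ ¬ a (2 * t + 1) w) :=
    Pr_xy h (BS.xy_and (hxy (2 * t)) (BS.xy_not (hxy (2 * t + 1)))) t T
  have e2 : (D.P h (t + 1)).Pr (fun w => a (2 * t + 1) w ∧ ¬ a (2 * (t + 1)) w) =
      (D.P h T).Pr (fun w => a (2 * t + 1) w ∧ ¬ a (2 * t + 1 + 1) w) :=
    Pr_xy h (BS.xy_and (hxy (2 * t + 1)) (BS.xy_not (hxy (2 * t + 1 + 1)))) (t + 1) T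
  rw [e1, e2]

theorem log_al (H : D.Hyp dg prr al T Lam) (hal : 0 < al) : Real.log (1 / al) ≤ Lam := by
  rw [one_div, Real.log_inv, neg_le]
  exact (Real.le_log_iff_exp_le hal).2 H.alL

end TT

open TT

variable {X β γ φ : Type} [Fintype X] [Fintype β] [Fintype φ] [Nonempty X] [Nonempty β]
variable {D : HD (Fin 3) X β γ φ} {al : ℝ} {h : D.Thick al}
  {v : ℕ → Finset (Fin 3) → X → (Fin 3 → β) → Pt (Fin 3) X β φ}
variable {dg : ℕ → X → ℝ} {prr : ℕ → Fin 3 → φ → φ} {T : ℕ} {Lam : ℝ}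

/-- **THE TOP LEVEL OVER THE THIN LABELS**, reduced to the losses -/
theorem T_total (H : D.Hyp dg prr al T Lam) {n N1 : ℝ} (R : Run h (pr3 (Fin 3) n N1) (SS1 (Fin 3)) (AdmDep D) v)
    (hn : 1 ≤ n) (hN1 : 1 ≤ N1) {a : ℕ → Pt (Fin 3) X β φ → Prop} (ha : ∀ r w, a (r + 1) w → a r w)
    (hxy : ∀ r, XY (a r)) (fa0 : ∀ t < T, Fac (ZT D v (t + 1) t) (a (2 * t)))
    (fa1 : ∀ t < T, Fac (ZT D v (t + 1) (t + 1)) (a (2 * t + 1)))
    {Gd : ℕ → Pt (Fin 3) X β φ → Prop} (fG : ∀ t < T, Fac (ZT D v (t + 1) t) (Gd t)) {eps : ℝ} (heps : 0 < eps)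
    {Pd : ℝ} (hPd : (D.P h T).Pr (fun w => ¬ a (2 * T) w) ≤ Pd) :
    balA h prr v (fun J => J ≠ univ) pth dg T (fun t => a (2 * t)) (fun t => a (2 * t + 1))
      (fun t => gTp h v eps (Gd t) dg 1 t) (fun t => gTp h v eps (Gd t) dg (-1) t) ≤
    mT n N1 Lam + 4 * Real.sqrt (mT n N1 Lam) + 3 * Lam * Pd + T * eps +
      ∑ t ∈ range T, (LT h v t (a (2 * t + 1)) + NT h v dg t (fun w => a (2 * t) w ∧ Gd t w) +
        DT h v dg t (fun w => a (2 * t) w ∧ ¬ Gd t w)) := by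
  have hK : Fintype.card (Fin 3) = 3 := rfl
  have hv := R.codes
  have hL : 1 ≤ Lam := H.Lam1
  have hN0 : ∀ l : Fin 3, 0 < pr3 (Fin 3) n N1 (univ.erase l) := fun l => zero_lt_one.trans_le (pr3_one hn hN1 _)
  have hSl : ∀ l : Fin 3, univ.erase l ∈ SS1 (Fin 3) := fun l => mem_SS1.2 (Finset.erase_ne_self.2 (mem_univ l))
  have hSu : (univ : Finset (Fin 3)) ∉ SS1 (Fin 3) := fun hh => mem_SS1.1 hh rfl
  have hal := log_al H h.pos
  have hPd0 : 0 ≤ Pd := (FP.Pr_nonneg _ _).trans hPd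
  -- the ends
  have e1 := EndTR.MA3_run hK R H hn hN1 (le_refl T) (fun t => a (2 * t))
  have e2 := MA3_ge H R hn hN1 (Nat.zero_le T) (fun t => a (2 * t))
  have hm : 0 ≤ mT n N1 Lam := by unfold mT; positivity
  have e3 := VT.ends (A := MA h v (fun J => J ≠ univ) pth (fun t => a (2 * t)) T) (m := mT n N1 Lam) e1 e2 hm
  -- one time
  have one : ∀ t ∈ range T, (killD h v (fun J => J ≠ univ) pth (fun t => a (2 * t)) (fun t => a (2 * t + 1)) t +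
      lossA h v (fun J => J ≠ univ) pth (fun t => a (2 * t + 1)) t +
      killA h prr v (fun J => J ≠ univ) pth (fun t => a (2 * t)) (fun t => a (2 * t + 1)) t) +
      corA h dg v (fun J => J ≠ univ) pth (fun t => a (2 * t)) t (gTp h v eps (Gd t) dg 1 t)
        (gTp h v eps (Gd t) dg (-1) t) ≤
      3 * Lam * ((D.P h t).Pr (fun w => a (2 * t) w ∧ ¬ a (2 * t + 1) w) +
        (D.P h (t + 1)).Pr (fun w => a (2 * t + 1) w ∧ ¬ a (2 * (t + 1)) w)) + eps +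
      (LT h v t (a (2 * t + 1)) + NT h v dg t (fun w => a (2 * t) w ∧ Gd t w) +
        DT h v dg t (fun w => a (2 * t) w ∧ ¬ Gd t w)) := by
    intro t ht
    have htT := Finset.mem_range.1 ht
    have hold : ∀ r, ∀ w : Pt (Fin 3) X β φ, a r (old prr t w) = a r w := fun r w => hxy r w.1 w.2.1 _ _
    have k1 := killD_top hK H R hSl hSu hN0 htT.le (a := fun t => a (2 * t)) (a' := fun t => a (2 * t + 1))
      (fun w hw => ha (2 * t) w hw)
    have k2 := killA_top hK H R hSl hSu hN0 (show t + 1 ≤ T from htT) (a := fun t => a (2 * t))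
      (a' := fun t => a (2 * t + 1)) (prr := prr) (fun w hw => by
        show a (2 * t + 1) (old prr t w)
        rw [hold]
        exact ha (2 * t + 1) w hw)
    have k3 : (D.P h (t + 1)).Pr (fun w => a (2 * t + 1) (old prr t w) ∧ ¬ a (2 * (t + 1)) w) =
        (D.P h (t + 1)).Pr (fun w => a (2 * t + 1) w ∧ ¬ a (2 * (t + 1)) w) := by
      congr 1
      funext w
      rw [hold]
    have k4 : 3 * Real.log (1 / al) * (D.P h t).Pr (fun w => a (2 * t) w ∧ ¬ a (2 * t + 1) w) ≤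
        3 * Lam * (D.P h t).Pr (fun w => a (2 * t) w ∧ ¬ a (2 * t + 1) w) :=
      mul_le_mul_of_nonneg_right (by linarith) (FP.Pr_nonneg _ _)
    have k5 : 3 * Real.log (1 / al) * (D.P h (t + 1)).Pr (fun w => a (2 * t + 1) w ∧ ¬ a (2 * (t + 1)) w) ≤
        3 * Lam * (D.P h (t + 1)).Pr (fun w => a (2 * t + 1) w ∧ ¬ a (2 * (t + 1)) w) :=
      mul_le_mul_of_nonneg_right (by linarith) (FP.Pr_nonneg _ _)
    have l1 := lossA_le (h := h) hK hv (Equiv.refl (Fin 3)) (a' := fun t => a (2 * t + 1)) (fa1 t htT)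
    have c1 := corA_le (h := h) hK H hv (Equiv.refl (Fin 3)) (a := fun t => a (2 * t)) (fa0 t htT) (fG t htT) heps
    simp only [k3] at k2
    have l2 : (D.P h t).E (fun w => ind (a (2 * t + 1) w) * lossC (D.P h t) (ZT D v (t + 1) (t + 1))
        (ZbT D v (Equiv.refl (Fin 3)) (t + 1) (t + 1)) (FT v (Equiv.refl (Fin 3)) (t + 1))
        (YT v (Equiv.refl (Fin 3)) (t + 2)) (VT v (t + 2)) w) = LT h v t (a (2 * t + 1)) := rfl
    rw [l2] at l1
    have c2 : corA h dg v (fun J => J ≠ univ) pth (fun t => a (2 * t)) t (gTp h v eps (Gd t) dg 1 t)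
        (gTp h v eps (Gd t) dg (-1) t) ≤ NT h v dg t (fun w => a (2 * t) w ∧ Gd t w) +
        DT h v dg t (fun w => a (2 * t) w ∧ ¬ Gd t w) + eps := c1
    linarith
  have h1 := Finset.sum_le_sum one
  have h2 := mul_le_mul_of_nonneg_left ((killT (T := T) H ha hxy).trans hPd) (show 0 ≤ 3 * Lam by linarith)
  rw [Finset.sum_add_distrib] at h1
  have h3 : ∑ t ∈ range T, (3 * Lam * ((D.P h t).Pr (fun w => a (2 * t) w ∧ ¬ a (2 * t + 1) w) +
        (D.P h (t + 1)).Pr (fun w => a (2 * t + 1) w ∧ ¬ a (2 * (t + 1)) w)) + eps +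
      (LT h v t (a (2 * t + 1)) + NT h v dg t (fun w => a (2 * t) w ∧ Gd t w) +
        DT h v dg t (fun w => a (2 * t) w ∧ ¬ Gd t w))) =
      3 * Lam * ∑ t ∈ range T, ((D.P h t).Pr (fun w => a (2 * t) w ∧ ¬ a (2 * t + 1) w) +
        (D.P h (t + 1)).Pr (fun w => a (2 * t + 1) w ∧ ¬ a (2 * (t + 1)) w)) + T * eps +
      ∑ t ∈ range T, (LT h v t (a (2 * t + 1)) + NT h v dg t (fun w => a (2 * t) w ∧ Gd t w) +
        DT h v dg t (fun w => a (2 * t) w ∧ ¬ Gd t w)) := by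
    rw [Finset.sum_add_distrib, Finset.sum_add_distrib, ← Finset.mul_sum, Finset.sum_const, Finset.card_range,
      nsmul_eq_mul]
  rw [h3] at h1
  unfold balA
  linarith

/-! ### TopLev from the three sums -/

/-- **THE LOSSES OF THE TOPS ARE SMALL** : for every large `A` and every `c0` large after `A` -/
def TopDynL : Prop :=
  ∃ C : ℕ, ∀ A ≥ C, ∃ c0m : ℕ, ∀ c0 ≥ c0m, ∀ (X β γ φ : Type) [Fintype X] [Fintype β] [Fintype φ] [Nonempty X]
    [Nonempty β] (D : HD (Fin 3) X β γ φ) (al : ℝ) (h : D.Thick al) (dg : ℕ → X → ℝ) (prr : ℕ → Fin 3 → φ → φ) (T : ℕ)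
    (Lam : ℝ), D.Hyp dg prr al T Lam → 2 ≤ Lam → ∀ v : ℕ → Finset (Fin 3) → X → (Fin 3 → β) → Pt (Fin 3) X β φ,
    Run h (pr3 (Fin 3) (pw Lam c0) (pw Lam (c1F A c0))) (SS1 (Fin 3)) (AdmDep D) v →
    (D.P h T).Pr (fun w => ¬ Ar h v (apF Lam A c0) (2 * T) w) ≤ (pw Lam (c0 + A))⁻¹ →
    ∃ Gd : ℕ → Pt (Fin 3) X β φ → Prop, (∀ t < T, Fac (ZT D v (t + 1) t) (Gd t)) ∧
      (∀ t < T, ∀ w, (D.P h t).p w ≠ 0 → GA h v (apF Lam A c0) dg t w → Gd t w) ∧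
      ∑ t ∈ range T, (LT h v t (Ar h v (apF Lam A c0) (2 * t + 1)) +
        NT h v dg t (fun w => Ar h v (apF Lam A c0) (2 * t) w ∧ Gd t w) +
        DT h v dg t (fun w => Ar h v (apF Lam A c0) (2 * t) w ∧ ¬ Gd t w)) ≤ (pw Lam 13)⁻¹

/-- the numbers -/
theorem top_num {Lam : ℝ} (hL : 2 ≤ Lam) {A c0 : ℕ} (hA : 80 ≤ A) (hc : 80 ≤ c0) {Pd S e : ℝ}
    (hPd : Pd ≤ (pw Lam (c0 + A))⁻¹) (hS : S ≤ (pw Lam 13)⁻¹) (he : e ≤ (pw Lam 20)⁻¹) :
    mT (pw Lam c0) (pw Lam (c1F A c0)) Lam + 4 * Real.sqrt (mT (pw Lam c0) (pw Lam (c1F A c0)) Lam) + 3 * Lam * Pd + e +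
      S ≤ (pw Lam 12)⁻¹ := by
  have hx : (4 : ℝ) ≤ 2 * Lam := by linarith
  have hx0 : (0 : ℝ) < 2 * Lam := by linarith
  have hL0 : (0 : ℝ) < Lam := by linarith
  have h1 := c1_big (c0 := c0) hA
  have pz : ∀ c : ℕ, pw Lam c = (2 * Lam) ^ (c : ℤ) := fun c => by unfold pw; rw [zpow_natCast]
  have ipz : ∀ c : ℕ, (pw Lam c)⁻¹ = (2 * Lam) ^ (-(c : ℤ)) := fun c => by rw [pz, zpow_neg]
  have hLx : Lam ≤ (2 * Lam) ^ (1 : ℤ) := by rw [zpow_one]; linarith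
  have P : ∀ a : ℤ, 0 < (2 * Lam) ^ a := fun a => Fn.zpos hx a
  rw [ipz] at hPd hS he
  rw [ipz, pz, pz]
  have m1 : 54 * (2 * Lam) ^ (c0 : ℤ) * Lam / (2 * Lam) ^ ((c1F A c0 : ℕ) : ℤ) ≤ (2 * Lam) ^ (-62 : ℤ) := by
    have q1 : 54 * (2 * Lam) ^ (c0 : ℤ) * Lam ≤ (2 * Lam) ^ (((3 : ℤ) + c0) + 1) :=
      Fn.mul2 hx hL0.le (Fn.mul2 hx (P _).le (by simpa using Fn.cst hx 3 (c := 54) (by norm_num)) le_rfl) hLx
    rw [div_eq_mul_inv, ← zpow_neg]
    refine (Fn.mul2 hx (P _).le q1 (le_refl ((2 * Lam) ^ (-((c1F A c0 : ℕ) : ℤ))))).trans (Fn.zle hx ?_)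
    omega
  have m2 : 24 * Lam / (2 * Lam) ^ (c0 : ℤ) ≤ (2 * Lam) ^ (-62 : ℤ) := by
    have q1 : 24 * Lam ≤ (2 * Lam) ^ ((3 : ℤ) + 1) :=
      Fn.mul2 hx hL0.le (by simpa using Fn.cst hx 3 (c := 24) (by norm_num)) hLx
    rw [div_eq_mul_inv, ← zpow_neg]
    refine (Fn.mul2 hx (P _).le q1 (le_refl ((2 * Lam) ^ (-(c0 : ℤ))))).trans (Fn.zle hx ?_)
    omega
  have m3 : 12 * Lam / (2 * Lam) ^ ((c1F A c0 : ℕ) : ℤ) ≤ (2 * Lam) ^ (-62 : ℤ) := by
    have q1 : 12 * Lam ≤ (2 * Lam) ^ ((3 : ℤ) + 1) :=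
      Fn.mul2 hx hL0.le (by simpa using Fn.cst hx 3 (c := 12) (by norm_num)) hLx
    rw [div_eq_mul_inv, ← zpow_neg]
    refine (Fn.mul2 hx (P _).le q1 (le_refl ((2 * Lam) ^ (-((c1F A c0 : ℕ) : ℤ))))).trans (Fn.zle hx ?_)
    omega
  have m4 : mT ((2 * Lam) ^ (c0 : ℤ)) ((2 * Lam) ^ ((c1F A c0 : ℕ) : ℤ)) Lam ≤ (2 * Lam) ^ (2 * (-30 : ℤ)) := by
    unfold mT
    exact (Fn.add2 hx (Fn.add2 hx m1 m2) (m3.trans (Fn.zle hx (by norm_num)))).trans (Fn.zle hx (by norm_num))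
  have m5 : 4 * Real.sqrt (mT ((2 * Lam) ^ (c0 : ℤ)) ((2 * Lam) ^ ((c1F A c0 : ℕ) : ℤ)) Lam) ≤
      (2 * Lam) ^ ((1 : ℤ) + (-30)) :=
    Fn.mul2 hx (Real.sqrt_nonneg _) (by simpa using Fn.cst hx 1 (c := 4) (by norm_num)) (Fn.sqrt_le hx m4)
  have m6 : 3 * Lam * Pd ≤ (2 * Lam) ^ (-20 : ℤ) := by
    have q1 : 3 * Lam ≤ (2 * Lam) ^ ((1 : ℤ) + 1) :=
      Fn.mul2 hx hL0.le (by simpa using Fn.cst hx 1 (c := 3) (by norm_num)) hLx
    have q2 : 3 * Lam * Pd ≤ 3 * Lam * (2 * Lam) ^ (-((c0 + A : ℕ) : ℤ)) :=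
      mul_le_mul_of_nonneg_left hPd (by positivity)
    refine q2.trans ((Fn.mul2 hx (P _).le q1 le_rfl).trans (Fn.zle hx ?_))
    push_cast
    omega
  have g4 : (2 * Lam) ^ (2 * (-30 : ℤ)) ≤ (2 * Lam) ^ (-20 : ℤ) := Fn.zle hx (by norm_num)
  have g5 : (2 * Lam) ^ ((1 : ℤ) + (-30)) ≤ (2 * Lam) ^ (-20 : ℤ) := Fn.zle hx (by norm_num)
  have g6 : (4 : ℝ) * (2 * Lam) ^ (-20 : ℤ) ≤ (2 * Lam) ^ (-13 : ℤ) :=
    (Fn.mul2 hx (P _).le (Fn.cst hx 1 (c := 4) (by norm_num)) (le_refl _)).trans (Fn.zle hx (by norm_num))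
  have g7 : (2 : ℝ) * (2 * Lam) ^ (-13 : ℤ) ≤ (2 * Lam) ^ (-12 : ℤ) :=
    (Fn.mul2 hx (P _).le (Fn.cst hx 1 (c := 2) (by norm_num)) (le_refl _)).trans (Fn.zle hx (by norm_num))
  have hS' : S ≤ (2 * Lam) ^ (-13 : ℤ) := hS
  have he' : e ≤ (2 * Lam) ^ (-20 : ℤ) := he
  have t1 := m4.trans g4
  have t2 := m5.trans g5
  show _ ≤ (2 * Lam) ^ (-12 : ℤ)
  linarith

/-- **THE TOP LEVEL FROM THE LOSSES** -/
theorem topLev_of (hT : TopDynL) : TopLev := by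
  obtain ⟨C, hC⟩ := hT
  refine ⟨C + 80, fun A hA => ?_⟩
  obtain ⟨c0m, h0⟩ := hC A (by omega)
  refine ⟨c0m + 80, fun c0 hc0 X β γ φ _ _ _ _ _ D al h dg prr T Lam H hL v R hPd => ?_⟩
  obtain ⟨Gd, fG, hG, hS⟩ := h0 c0 (by omega) X β γ φ D al h dg prr T Lam H hL v R hPd
  set p := apF Lam A c0 with hp
  set eps : ℝ := (pw Lam 20)⁻¹ / (T + 1) with he
  have hp20 : 0 < (pw Lam 20)⁻¹ := inv_pos.2 (zero_lt_one.trans_le (pw_one hL 20))
  have heps : 0 < eps := by rw [he]; positivity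
  have fz0 : ∀ t, Fac (ZT (φ := φ) D v (t + 1) t) (Ar h v p (2 * t)) := fun t a b hab => by
    refine propext (Ar_fac h p (TH_of_all (s := t + 1) (n := t) (by unfold tm; omega) (by unfold nt; omega) hab))
  have fz1 : ∀ t, Fac (ZT (φ := φ) D v (t + 1) (t + 1)) (Ar h v p (2 * t + 1)) := fun t a b hab => by
    refine propext (Ar_fac h p (TH_of_all (s := t + 1) (n := t + 1) (by unfold tm; omega) (by unfold nt; omega) hab))
  have hZ : ∀ s n, Fac (fun w : Pt (Fin 3) X β φ => (all (LP (fun J => J ≠ univ) (LL (Um v s))) w, WW D n w))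
      (ZT D v s n) := fun s n a b hab => by
    simp only [Prod.mk.injEq] at hab
    exact Prod.ext (funext fun J => congrFun hab.1 ⟨J.1, pth_sub rfl J.1 J.2⟩) hab.2
  have hxy : ∀ r, XY (φ := φ) (Ar h v p r) := fun r x y F F' => propext (Ar_lab h p r x y F F')
  have fE : ∀ {s : ℝ}, ∀ t < T, Fac (eA (φ := φ) D (UU v) t) (gTp h v eps (Gd t) dg s t) := fun {s} t ht a b hab => by
    refine gTp_fac (h := h) (dg := dg) rfl (fG t ht) eps s a b ?_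
    rw [eA_eq] at hab
    exact Prod.ext hab.1 hab.2
  refine ⟨fun t => Ar h v p (2 * t), fun t => Ar h v p (2 * t + 1), fun t => gTp h v eps (Gd t) dg 1 t,
    fun t => gTp h v eps (Gd t) dg (-1) t, fun t _ => (hZ _ _).trans (fz0 t), fun t _ => (hZ _ _).trans (fz1 t),
    fun t ht w hw hg => ⟨hg.1, gTp_zero h (hG t ht w hw hg), gTp_zero h (hG t ht w hw hg)⟩, fE, fE, ?_⟩
  have hp1 := pw_one hL c0
  have hp2 := pw_one hL (c1F A c0)
  have h1 := T_total (prr := prr) (a := Ar h v p) H R hp1 hp2 (fun r w hw => Ar_mono h p (Nat.le_succ r) hw) hxy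
    (fun t _ => fz0 t) (fun t _ => fz1 t) fG heps hPd
  refine h1.trans ?_
  have h2 : (T : ℝ) * eps ≤ (pw Lam 20)⁻¹ := by
    rw [he, ← mul_div_assoc, div_le_iff₀ (by positivity)]
    nlinarith [hp20]
  exact top_num hL (by omega) (by omega) le_rfl hS h2

/-- **HARM(3) from the two dynamics** -/
theorem harm3_dyn (hV : ThinDyn 32) (hT : TopDynL) : HarmW (Fin 3) := harm3_of hV (topLev_of hT)

end Pool.Agent.GMH.V3
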