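import Pool.Agent.GMH.PayTs
import Pool.Agent.GMH.GhoX
import Pool.Agent.GMH.GhoF
import Pool.Agent.GMH.TabP2

/-!
# GMH/ThB1 (helper50): THE THIN COVERS OF GHOF ARE PAID ((B1) of the rows and columns at an exact vertex)

Coordinates (helper40): world = law given the hidden point and the cells at the start `ν`; `B` = exact point of the vertex `b`
(samples = points), `C` = (point of the vertex `j`, table of the face `i`), keys = (point, table of their face).
* `Wl_tp` : a table and a point in a world are independent, the point is uniform in its cell; `ce_law` : conditional law of `C`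
  given the cell; `Qc_pt` : law of a point in the public class;
* `thin_class` : `PhV` of GhoF in one public class of the level `t`: `E PhV ≤ (16/t') kcq + bad`.
-/

set_option autoImplicit false
set_option linter.unusedSectionVars false

namespace Pool.Agent.GMH.ThB

open Finset Pool.Agent.PWZ Pool.Agent.M3 Pool.Agent.GM Pool.Agent.GM.Harm Pool.Agent.GMH Pool.Agent.GMH.GhoC
open Pool.Agent.GMH.EpG Pool.Agent.GMH.PayT Pool.Agent.GMH.PayTs Pool.Agent.GMH.GhoX Pool.Agent.GMH.Gdy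
open Pool.Agent.GMH.Dy (Om Tab pul_pt cll cll_eq)

noncomputable section

variable {X β γ φ υ : Type} [Fintype X] [Fintype β] [Fintype φ] [Nonempty X] [Nonempty β]
variable {D : HD (Fin 3) X β γ φ} {al : ℝ} {h : D.Thick al} {prr : ℕ → Fin 3 → φ → φ} {T : ℕ} {W : Type} [Fintype W]
variable {tb : Tab D prr T W} {v : ℕ → Finset (Fin 3) → X → (Fin 3 → β) → υ} {j : Fin 3}

/-! ## laws -/

/-- mean over the cell of `c` at the time `n` -/
def avg (D : HD (Fin 3) X β γ φ) (n : ℕ) (c : β) (f : β → ℝ) : ℝ := (∑ b ∈ D.cB n c, f b) / ((D.cB n c).card : ℝ)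

/-- positions and one table -/
theorem Ps_tab (i : Fin 3) (f : X → (Fin 3 → β) → ℝ) (g : W → ℝ) :
    tb.Ps.E (fun w => f w.1 w.2.2 * g (w.2.1 i)) = tb.Ps.E (fun w => f w.1 w.2.2) * (tb.Q i).E g := by
  rw [Dy.Ps_E', Dy.Ps_E']
  have h1 : ∀ z : X × (Fin 3 → β), (FPpi tb.Q).E (fun ω => f z.1 z.2 * g (ω i)) = f z.1 z.2 * (tb.Q i).E g := fun z => by
    rw [FP.E_smul]
    congr 1
    exact FPpi_E tb.Q i g
  simp only [h1, FP.E_const, FP.E_mul_const]

/-- a table and a point in a world -/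
theorem Wl_tp (n : ℕ) (z : Om W X β) (i j : Fin 3) (F : W → β → ℝ) :
    (tb.Wl n z).E (fun w => F (w.2.1 i) (w.2.2 j)) = (tb.Q i).E fun θ => avg D n (z.2.2 j) (F θ) := by
  classical
  have hne := Dy.Wl_ne (D := D) (tb := tb) n z
  -- sum over the values of the table
  have e1 : ∀ w : Om W X β, ind (cll D n w = cll D n z) * F (w.2.1 i) (w.2.2 j) =
      ∑ θ, (ind (cll D n w = cll D n z) * F θ (w.2.2 j)) * ind (w.2.1 i = θ) := by
    intro w
    rw [sum_eq_single (w.2.1 i)]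
    · rw [ind_of rfl, mul_one]
    · intro θ _ hθ
      rw [show ind (w.2.1 i = θ) = 0 from ind_not fun hh => hθ hh.symm, mul_zero]
    · intro hh
      exact absurd (mem_univ _) hh
  have e2 : ∀ θ, tb.Ps.E (fun w => (ind (cll D n w = cll D n z) * F θ (w.2.2 j)) * ind (w.2.1 i = θ)) =
      tb.Ps.E (fun w => ind (cll D n w = cll D n z) * F θ (w.2.2 j)) * (tb.Q i).p θ := by
    intro θ
    have h1 := Ps_tab (tb := tb) i (fun x y => ind (((x, fun j => D.qb n (y j)) : X × (Fin 3 → γ)) = cll D n z) * F θ (y j))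
      (fun ω => ind (ω = θ))
    have h2 : (tb.Q i).E (fun ω => ind (ω = θ)) = (tb.Q i).p θ := by
      unfold FP.E
      rw [sum_eq_single θ]
      · show (tb.Q i).p θ * ind (θ = θ) = _
        rw [ind_of rfl, mul_one]
      · intro ω _ hω
        show (tb.Q i).p ω * ind (ω = θ) = 0
        rw [ind_not hω, mul_zero]
      · intro hh
        exact absurd (mem_univ _) hh
    rw [h2] at h1
    exact h1
  have e3 : ∀ θ, tb.Ps.E (fun w => ind (cll D n w = cll D n z) * F θ (w.2.2 j)) =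
      tb.Ps.Pr (fun w => cll D n w = cll D n z) * avg D n (z.2.2 j) (F θ) := by
    intro θ
    have h1 := Dy.Wl_pt tb n z j (F θ)
    have h2 : (tb.Wl n z).E (fun w => F θ (w.2.2 j)) =
        tb.Ps.E (fun w => ind (cll D n w = cll D n z) * F θ (w.2.2 j)) / tb.Ps.Pr (fun w => cll D n w = cll D n z) :=
      FP.cond_E hne _
    rw [h1] at h2
    unfold avg
    rw [h2, mul_div_cancel₀ _ hne]
  show (tb.Ps.cond fun w => cll D n w = cll D n z).E _ = _
  rw [FP.cond_E hne, tb.Ps.E_congr fun w _ => e1 w, FP.E_sum, Finset.sum_congr rfl fun θ _ => e2 θ,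
    Finset.sum_congr rfl fun θ _ => by rw [e3 θ]]
  unfold FP.E
  rw [Finset.sum_div]
  refine Finset.sum_congr rfl fun θ _ => ?_
  field_simp

theorem mem_cB {n : ℕ} {c b : β} : b ∈ D.cB n c ↔ D.qb n b = D.qb n c := by
  classical
  unfold HD.cB
  simp only [Finset.mem_filter, Finset.mem_univ, true_and]

/-- a smaller cell -/
theorem avg_sub {n m : ℕ} (hnm : n ≤ m) (c : β) (f : β → ℝ) :
    avg D n c (fun b => ind (D.qb m b = D.qb m c) * f b) =
      (((D.cB m c).card : ℝ) / ((D.cB n c).card : ℝ)) * avg D m c f := by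
  classical
  have h1 : ∑ b ∈ D.cB n c, ind (D.qb m b = D.qb m c) * f b = ∑ b ∈ D.cB m c, f b := by
    have hs : D.cB m c ⊆ D.cB n c := fun b hb => mem_cB.2 (Dy.qb_mono hnm (mem_cB.1 hb))
    rw [← sum_subset hs fun b _ hb => by rw [ind_not fun hh => hb (mem_cB.2 hh), zero_mul]]
    exact sum_congr rfl fun b hb => by rw [ind_of (mem_cB.1 hb), one_mul]
  unfold avg
  rw [h1]
  have h2 := (Dy.cB_pos (D := D) m c).ne'
  have h3 := (Dy.cB_pos (D := D) n c).ne'
  field_simp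

/-- **conditional law of (point, table) given the cell of the point**, world of the time `n` -/
theorem ce_law {n m : ℕ} (hnm : n ≤ m) (w : Om W X β) (i j : Fin 3) (F : W → β → ℝ) :
    (tb.Wl n w).ce (fun x => D.qb m (x.2.2 j)) (fun x => F (x.2.1 i) (x.2.2 j)) w =
      (tb.Q i).E fun θ => avg D m (w.2.2 j) (F θ) := by
  have h1 : (tb.Wl n w).E (fun x => ind (D.qb m (x.2.2 j) = D.qb m (w.2.2 j)) * F (x.2.1 i) (x.2.2 j)) =
      (((D.cB m (w.2.2 j)).card : ℝ) / ((D.cB n (w.2.2 j)).card : ℝ)) *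
        (tb.Q i).E fun θ => avg D m (w.2.2 j) (F θ) := by
    rw [Wl_tp n w i j (fun θ b => ind (D.qb m b = D.qb m (w.2.2 j)) * F θ b), ← FP.E_smul]
    exact FP.E_congr _ fun θ _ => avg_sub hnm _ _
  have h2 : (tb.Wl n w).m (fun x => D.qb m (x.2.2 j)) w =
      (((D.cB m (w.2.2 j)).card : ℝ) / ((D.cB n (w.2.2 j)).card : ℝ)) := by
    have e1 := Dy.Wl_pt tb n w j (fun b => ind (D.qb m b = D.qb m (w.2.2 j)) * 1)
    have e2 := avg_sub (D := D) hnm (w.2.2 j) (fun _ => (1 : ℝ))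
    have e3 : avg D m (w.2.2 j) (fun _ => (1 : ℝ)) = 1 := by
      unfold avg
      rw [sum_const, nsmul_eq_mul, mul_one]
      exact div_self (Dy.cB_pos (D := D) m _).ne'
    rw [e3, mul_one] at e2
    unfold avg at e2
    rw [e2] at e1
    rw [← e1]
    exact FP.E_congr _ fun x _ => (mul_one _).symm
  unfold FP.ce
  rw [h1, h2]
  have h4 := (Dy.cB_pos (D := D) m (w.2.2 j)).ne'
  have h5 := (Dy.cB_pos (D := D) n (w.2.2 j)).ne'
  field_simp

/-- law of the points after conditioning on (hidden point, points) -/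
theorem cond_y {A : Om W X β → Prop} {B : Om W X β → Prop} (hA : Fac (fun w : Om W X β => (w.1, w.2.1)) A)
    (hB : Fac (fun w : Om W X β => w.2.2) B) (h0 : tb.Ps.Pr (fun w => A w ∧ B w) ≠ 0) (g : (Fin 3 → β) → ℝ) :
    (tb.Ps.cond fun w => A w ∧ B w).E (fun w => g w.2.2) = tb.Ps.E (fun w => ind (B w) * g w.2.2) / tb.Ps.Pr B := by
  have hI := Ps_indep (tb := tb)
  have hA' : Fac (fun w : Om W X β => (w.1, w.2.1)) (fun w => ind (A w)) := Fac.ind fun v w e => by rw [hA v w e]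
  have hB' : Fac (fun w : Om W X β => w.2.2) (fun w => ind (B w)) := Fac.ind fun v w e => by rw [hB v w e]
  have hg : Fac (fun w : Om W X β => w.2.2) (fun w => g w.2.2) := fun v w e => by
    have e' : v.2.2 = w.2.2 := e
    show g v.2.2 = g w.2.2
    rw [e']
  have e0 : tb.Ps.Pr (fun w => A w ∧ B w) = tb.Ps.Pr A * tb.Ps.Pr B := by
    have h1 := hI _ _ hA' hB'
    refine Eq.trans ?_ h1
    exact tb.Ps.E_congr fun w _ => ind_and _ _
  have e1 : tb.Ps.E (fun w => ind (A w ∧ B w) * g w.2.2) = tb.Ps.Pr A * tb.Ps.E (fun w => ind (B w) * g w.2.2) := by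
    have h1 := hI _ _ hA' (hB'.mul hg)
    refine Eq.trans ?_ h1
    exact tb.Ps.E_congr fun w _ => by rw [ind_and]; ring
  rw [FP.cond_E h0, e1, e0]
  rw [e0] at h0
  have h1 := left_ne_zero_of_mul h0
  have h2 := right_ne_zero_of_mul h0
  field_simp

/-- law of one point in the public class: uniform in its cell -/
theorem Qc_pt (hv : Codes D v) {t : ℕ} {w0 : Om W X β} (hw0 : tb.Ps.p w0 ≠ 0) (j : Fin 3) (f : β → ℝ) :
    (Qc tb v t w0).E (fun w => f (w.2.2 j)) = avg D t (w0.2.2 j) f := by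
  set B : Om W X β → Prop := fun u => ∀ i, D.qb t (u.2.2 i) = D.qb t (w0.2.2 i) with hBd
  have hB : Fac (fun w : Om W X β => w.2.2) B := fun a b e => by
    have e1 : a.2.2 = b.2.2 := e
    show (∀ i, _) = (∀ i, _)
    rw [e1]
  have e : (fun u : Om W X β => cl D v t u = cl D v t w0) = fun u => (Um v (t + 1) ∅ u.1 w0.2.2 =
      Um v (t + 1) ∅ w0.1 w0.2.2 ∧ D.qa t u.1 = D.qa t w0.1) ∧ B u := by
    funext u
    refine propext ?_
    rw [cl_eq]
    constructor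
    · rintro ⟨a, b, c⟩
      refine ⟨⟨?_, b⟩, c⟩
      rw [← a]
      exact Um_dep hv t ∅ _ _ _ (fun i hi => absurd hi (Finset.notMem_empty i)) fun i => (c i).symm
    · rintro ⟨⟨a, b⟩, c⟩
      refine ⟨?_, b, c⟩
      rw [← a]
      exact Um_dep hv t ∅ _ _ _ (fun i hi => absurd hi (Finset.notMem_empty i)) c
  have h1 : (Qc tb v t w0).E (fun w => f (w.2.2 j)) =
      tb.Ps.E (fun w => ind (B w) * f (w.2.2 j)) / tb.Ps.Pr B := by
    unfold Qc
    have hne := (tb.Ps.m_pos (cl D v t) hw0).ne'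
    have hne' : tb.Ps.Pr (fun u => cl D v t u = cl D v t w0) ≠ 0 := hne
    rw [e] at hne' ⊢
    exact cond_y (tb := tb) (A := fun u => Um v (t + 1) ∅ u.1 w0.2.2 = Um v (t + 1) ∅ w0.1 w0.2.2 ∧
      D.qa t u.1 = D.qa t w0.1) (fun a b e => by
        have e1 := (Prod.mk.inj e).1
        show (_ ∧ _) = (_ ∧ _)
        rw [e1]) hB hne' (fun y => f (y j))
  have h2 : (tb.Wl t w0).E (fun w => f (w.2.2 j)) =
      tb.Ps.E (fun w => ind (B w) * f (w.2.2 j)) / tb.Ps.Pr B := by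
    have e2 : (fun u : Om W X β => cll D t u = cll D t w0) = fun u => (u.1 = w0.1) ∧ B u := by
      funext u
      exact propext cll_eq
    unfold Dy.Tab.Wl
    have hne := Dy.Wl_ne (D := D) (tb := tb) t w0
    rw [e2] at hne ⊢
    exact cond_y (tb := tb) (A := fun u => u.1 = w0.1) (fun a b e => by
        have e1 := (Prod.mk.inj e).1
        show (_ = _) = (_ = _)
        rw [e1]) hB hne (fun y => f (y j))
  rw [h1, ← h2, Dy.Wl_pt]
  rfl

/-! ## support -/

theorem Ps_pne {w : Om W X β} : tb.Ps.p w ≠ 0 ↔ ∀ i, (tb.Q i).p (w.2.1 i) ≠ 0 := by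
  have h1 : (Fintype.card X * (Fintype.card β : ℝ) ^ 3) ≠ 0 := by
    have h2 : (Fintype.card X : ℝ) ≠ 0 := by exact_mod_cast Fintype.card_ne_zero
    have h3 : (Fintype.card β : ℝ) ≠ 0 := by exact_mod_cast Fintype.card_ne_zero
    positivity
  show (∏ i, (tb.Q i).p (w.2.1 i)) / (Fintype.card X * (Fintype.card β : ℝ) ^ 3) ≠ 0 ↔ _
  constructor
  · intro h2 i hi
    exact h2 (by rw [Finset.prod_eq_zero (mem_univ i) hi, zero_div])
  · intro h2
    exact div_ne_zero (Finset.prod_ne_zero_iff.2 fun i _ => h2 i) h1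

/-- another point and another table in a world -/
theorem sup_ex {n : ℕ} {w : Om W X β} (hw : tb.Ps.p w ≠ 0) (i j : Fin 3) {c : β} {θ : W} (hθ : (tb.Q i).p θ ≠ 0)
    (hc : D.qb n c = D.qb n (w.2.2 j)) : ∃ x, (tb.Wl n w).p x ≠ 0 ∧ x.2.2 j = c ∧ x.2.1 i = θ := by
  classical
  refine ⟨(w.1, Function.update w.2.1 i θ, Function.update w.2.2 j c), (Dy.Wl_supp tb).2 ⟨Ps_pne.2 fun l => ?_, cll_eq.2
    ⟨rfl, fun l => ?_⟩⟩, Function.update_self _ _ _, Function.update_self _ _ _⟩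
  · show (tb.Q l).p (Function.update w.2.1 i θ l) ≠ 0
    by_cases hl : l = i
    · subst hl
      rw [Function.update_self]
      exact hθ
    · rw [Function.update_of_ne hl]
      exact Ps_pne.1 hw l
  · show D.qb n (Function.update w.2.2 j c l) = D.qb n (w.2.2 l)
    by_cases hl : l = j
    · subst hl
      rw [Function.update_self]
      exact hc
    · rw [Function.update_of_ne hl]

/-! ## one class -/

/-- the cell of the row vertex at the state `s` -/
def cJ (D : HD (Fin 3) X β γ φ) (j : Fin 3) (s : ℕ) (x : Om W X β) : γ := D.qb (TP.nn s) (x.2.2 j)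

/-- the row coordinate: point and table of the face -/
def CJ (j i : Fin 3) (x : Om W X β) : β × W := (x.2.2 j, x.2.1 i)

/-- the exact point -/
def BJ (b : Fin 3) (x : Om W X β) : β := x.2.2 b

variable (tb) in
/-- the potential of the thin cover in the world of `w` -/
def PhW (b j i : Fin 3) (ν : ℕ) (u v1 : ℝ) {M : ℕ} (z : Fin M → β) {Λ : Type} [Fintype Λ] (G : Om W X β → ℕ → Om W X β → Prop)
    (lab : Om W X β → ℕ → Om W X β → Λ) (q : ℕ) (w : Om W X β) : ℝ :=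
  GhoF.PhV (tb.Wl (TP.nn ν) w) (cJ D j) u (rowsT (GhoA.GF (tb.Wl (TP.nn ν) w) (BJ b) (CJ j i) (G w)) z) M
    (GhoF.Lab (tb.Wl (TP.nn ν) w) (BJ b) (CJ j i) (G w) z (lab w)) v1 q w

/-- **THE THIN COVER IN ONE PUBLIC CLASS** : exact vertex `b`, rows at the vertex `j` with the face `i`, samples `z`; all data of
the world of `w` (sets `G`, labels `lab`, sets of keys `SSf`, own letters `eta`, values `γk`, own rows `own`) may depend on `w` -/
theorem thin_class {N : Finset (Fin 3) → ℝ} {S : Finset (Finset (Fin 3))} (hv : Codes D v) {ν t : ℕ} (hν : ν ≤ 5 * t)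
    (ht : t ≤ T) (hs : SatA (D.P h t) (BB D t) N S (LL (Um v (t + 1))) (Dep D t)) (hN : ∀ J ∈ S, 0 ≤ N J)
    (hKS : ∅ ∈ S) (hN0 : 0 < N ∅) (hjS : {j} ∈ S) {w0 : Om W X β} (hw0 : tb.Ps.p w0 ≠ 0) (b i : Fin 3)
    {M Jm : ℕ} (z : Fin M → β) {Λ Nm : Type} [Fintype Λ] [Fintype Nm] {ι Γ Ee Dk : Type} [Fintype Dk]
    {I : Finset ι} {hi mid lw : ι → ℝ} {R0 δ mu B0 B1 : ℝ} {k : ℕ}
    {f : ι → β → Nm → Ee → β → X × φ → Dk → Γ → ℝ} {Ve : β → Nm → Finset Ee} {Vs : β → Nm → Dk → Finset Γ}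
    (yy : β → β → Fin 3 → β) (κ : β → Nm → Ee → β → X → FP φ)
    (hκ : ∀ bb n e c x F, PoR D (TP.nn ν) i w0.1 (yy bb c) (x, F) → al ≤ (κ bb n e c x).p F)
    (hR : 0 < R0) (hδ : 0 ≤ δ) (hf : ∀ i bb n e c ρ d g, |f i bb n e c ρ d g| ≤ R0) (h1 : ∀ i ∈ I, mid i + δ ≤ hi i)
    (h2 : ∀ i ∈ I, lw i + δ ≤ mid i) (hmu : 0 < mu)
    (hk : (I.card + 1 / mu) * Real.exp (-(k * δ ^ 2 / (8 * R0 ^ 2))) ≤ 1 / 4)
    (hVe : ∀ bb n, ((Ve bb n).card : ℝ) ≤ B0) (hV : ∀ bb n d, ((Vs bb n d).card : ℝ) ≤ B1)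
    {own : Om W X β → β → W → β → X × φ}
    (hown : ∀ w bb θ c, (Qc tb v t w0).p w ≠ 0 → (tb.Q i).p θ ≠ 0 → D.qb t c = D.qb t (w0.2.2 j) →
      (own w bb θ c).1 = lbT D (TP.nn ν) j (Uq v ν {j}) (Xt D (TP.nn ν) (tb.pt t w)) c ∧
        PoR D (TP.nn ν) i w0.1 (yy bb c) (own w bb θ c))
    {R : β → Nm → FP Dk} {eta : Om W X β → β → Nm → Ee} {γk : Om W X β → β → Nm → Dk → Γ}
    {G : Om W X β → ℕ → Om W X β → Prop} {lab : Om W X β → ℕ → Om W X β → Λ} {nm : Λ → Nm}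
    {SSf : Om W X β → ℕ → Om W X β → Dk → Prop} {nmw : Om W X β → β → Nm}
    (hlab : ∀ w s x y, (Qc tb v t w0).p w ≠ 0 → (tb.Wl (TP.nn ν) w).p x ≠ 0 → (tb.Wl (TP.nn ν) w).p y ≠ 0 →
      BJ b x = BJ b y → CJ j i x = CJ j i y → lab w s x = lab w s y)
    (hloc : ∀ w s x y, (Qc tb v t w0).p w ≠ 0 → (tb.Wl (TP.nn ν) w).p x ≠ 0 → (tb.Wl (TP.nn ν) w).p y ≠ 0 →
      BJ b x = BJ b y → cJ D j s x = cJ D j s y → lab w s x = lab w s y → G w s x → G w s y →
        ∀ d, SSf w s x d ↔ SSf w s y d)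
    (hnm : ∀ w s y, (Qc tb v t w0).p w ≠ 0 → (tb.Wl (TP.nn ν) w).p y ≠ 0 → G w s y → nm (lab w s y) = nmw w (y.2.2 b))
    {δ1 : ℝ} (hδ1 : 0 < δ1)
    (hrow : ∀ w s y n, (Qc tb v t w0).p w ≠ 0 → (tb.Wl (TP.nn ν) w).p y ≠ 0 → G w s y → n = nmw w (y.2.2 b) →
      GhoF.Row1 (R (y.2.2 b) n) I hi lw mu
        (rowq ((D.P h t).cond (xc D (Uq v ν) (TP.nn ν) ∅ (tb.pt t w0))) D (TP.nn ν) j
          (Uq v ν {j}) (κ (y.2.2 b) n (eta w (y.2.2 b) n) (y.2.2 j)) (y.2.2 j))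
        (fun i ρ d => f i (y.2.2 b) n (eta w (y.2.2 b) n) (y.2.2 j) ρ d (γk w (y.2.2 b) n d))
        (own w (y.2.2 b) (y.2.1 i) (y.2.2 j))
        (fun d => eta w (y.2.2 b) n ∈ Ve (y.2.2 b) n ∧ γk w (y.2.2 b) n d ∈ Vs (y.2.2 b) n d) δ1 (SSf w s y))
    {u v1 : ℝ} (hv1 : 0 < v1) (hJ : 1 ≤ v1 * Jm)
    {t' : ℝ} (ht' : 0 < t') (htu : Real.exp t' * (1 / al * (2 * mu)) ≤ t' * v1 / 16)
    {x : ℝ} (hx : x ≤ N {j} / N ∅ * v1 / 8)
    (hy : 2 * (Fintype.card (Fin M × Fin Jm × Nm) * (B0 * B1 ^ k) * Real.exp (-x)) ≤ δ1 ^ k / 2) (hB0 : 0 ≤ B0)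
    (hB1 : 0 ≤ B1) :
    (Qc tb v t w0).E (PhW tb b j i ν u v1 z G lab (5 * t)) ≤ 16 / t' * kcq tb v j ν t w0 +
      2 * Real.exp 1 * (Fintype.card (Fin M × Fin Jm × Nm) * (B0 * B1 ^ k) * Real.exp (-x) / (δ1 ^ k / 2)) := by
  classical
  set Q := Qc tb v t w0 with hQ
  set qc := img Q fun w => w.2.2 j with hqc
  have hnn : TP.nn ν ≤ t := by
    have h3 := TP.nn_mono hν
    rwa [nn5] at h3
  have hsupQ : ∀ {w}, Q.p w ≠ 0 → tb.Ps.p w ≠ 0 ∧ cl D v t w = cl D v t w0 := fun {w} hw =>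
    ((FP.cond_p_ne (tb.Ps.m_pos (cl D v t) hw0).ne').1 hw).symm
  have hcell : ∀ {w}, Q.p w ≠ 0 → ∀ l, D.qb t (w.2.2 l) = D.qb t (w0.2.2 l) := fun {w} hw =>
    (cl_eq.1 (hsupQ hw).2).2.2
  have hqcs : ∀ {c}, qc.p c ≠ 0 → D.qb t c = D.qb t (w0.2.2 j) := by
    intro c hc
    by_contra hcon
    refine hc ((FP.E_congr _ fun u hu => ?_).trans (FP.E_const _ 0))
    exact ind_not fun hh => hcon (by rw [← hh]; exact hcell hu j)
  have hCf : ∀ s, Fac (CJ (W := W) (X := X) (β := β) j i) (cJ D j s) := fun s a b' e => by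
    have e1 := (Prod.mk.inj e).1
    show D.qb (TP.nn s) (a.2.2 j) = D.qb (TP.nn s) (b'.2.2 j)
    rw [e1]
  have hfil : Filt (cJ (W := W) (X := X) D j) := fun s a b' e => Dy.qb_mono (TP.nn_succ s) e
  refine class_tabS (h := h) hv hν ht hs hN hKS hN0 hjS hw0 (Lx := Fin M × Fin Jm × Nm) (tb.Q i) (I := I) (hi := hi)
    (mid := mid) (lw := lw) (R0 := R0) (δ := δ) (mu := mu) (B0 := B0) (B1 := B1) (k := k)
    (f := fun i l e c ρ d g => f i (z l.1) l.2.2 e c ρ d g) (own := fun l p c => own p.1 (z l.1) p.2 c)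
    (Ve := fun l => Ve (z l.1) l.2.2) (Vs := fun l => Vs (z l.1) l.2.2) i (fun l => yy (z l.1))
    (fun l => κ (z l.1) l.2.2) (fun l e c x F hF => hκ _ _ _ _ _ _ hF) hR hδ (fun i l => hf i _ _) h1 h2 hmu hk
    (fun l => hVe _ _) (fun l d => hV _ _ d) (fun l w θ c hw hθ hc => hown w _ θ c hw hθ hc)
    (R := fun l => R (z l.1) l.2.2)
    (SS := fun l p => GhoF.SSL (tb.Wl (TP.nn ν) p.1) (cJ D j) (BJ b) (CJ j i) (G p.1) u z (lab p.1) qc
      (fun c => (c, p.2)) v1 (5 * t) nm (Jm := Jm) (SSf p.1) p.1 l)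
    (eta := fun l p => eta p.1 (z l.1) l.2.2) (γk := fun l p => γk p.1 (z l.1) l.2.2)
    (Pc := fun l p => GhoF.PcL (tb.Wl (TP.nn ν) p.1) (cJ D j) (BJ b) (CJ j i) (G p.1) u z (lab p.1) qc
      (fun c => (c, p.2)) v1 (5 * t) nm (Jm := Jm) l) (δ1 := δ1) (u := 4 * v1) hδ1
    (J := fun p => GhoF.JJ (tb.Wl (TP.nn ν) p.1) (cJ D j) (BJ b) (CJ j i) (G p.1) u z (lab p.1) qc
      (fun c => (c, p.2)) v1 (5 * t) nm (Jm := Jm)) ?_ (Phi := PhW tb b j i ν u v1 z G lab (5 * t)) ?_ ht'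
    (htu.trans (le_of_eq (by ring))) (x := x) (hx.trans (le_of_eq (by ring))) hy hB0 hB1
  · -- the family
    intro w θ hw hθ
    have hFA := GhoF.famA (P := tb.Wl (TP.nn ν) w) (cC := cJ D j) (B := BJ b) (C := CJ j i) (G := G w) (u := u) (z := z)
      (lab := lab w) (qc := qc) (e := fun c => (c, θ)) (v := v1) (t := 5 * t) (nm := nm) (Jm := Jm) (SSf := SSf w)
      hCf hfil (fun s x y hx hy hB hC => hlab w s x y hw hx hy hB hC)
      (fun s x y hx hy hB hC hl hG hG' => hloc w s x y hw hx hy hB hC hl hG hG')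
      (R := R) (I := I) (hi := hi) (lo := lw) (mu := mu) (δ1 := δ1)
      (mr := fun b' cθ => rowq ((D.P h t).cond (xc D (Uq v ν) (TP.nn ν) ∅ (tb.pt t w0))) D (TP.nn ν) j
          (Uq v ν {j}) (κ b' (nmw w b') (eta w b' (nmw w b')) cθ.1) cθ.1)
      (F := fun i b' cθ ρ d => f i b' (nmw w b') (eta w b' (nmw w b')) cθ.1 ρ d (γk w b' (nmw w b') d))
      (own := fun b' cθ => own w b' cθ.2 cθ.1)
      (Va := fun b' n d => n = nmw w b' ∧ eta w b' n ∈ Ve b' n ∧ γk w b' n d ∈ Vs b' n d)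
      (fun s y hy hG => by
        have h3 := hnm w s y hw hy hG
        have h4 := hrow w s y (nmw w (y.2.2 b)) hw hy hG rfl
        rw [h3]
        exact ⟨h4.ss, fun d hd hSS => ⟨rfl, h4.al d hd hSS⟩, h4.ho, h4.hm⟩)
      w (fun c hc => by
        have h3 := hqcs hc
        have h4 : D.qb t c = D.qb t (w.2.2 j) := h3.trans (hcell hw j).symm
        obtain ⟨x', hx1, hx2, hx3⟩ := sup_ex (tb := tb) (hsupQ hw).1 i j hθ (Dy.qb_mono hnn h4)
        refine ⟨x', hx1, ?_, ?_⟩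
        · show D.qb (TP.nn (5 * t)) (x'.2.2 j) = D.qb (TP.nn (5 * t)) (w.2.2 j)
          rw [nn5, hx2]
          exact h4
        · show (x'.2.2 j, x'.2.1 i) = (c, θ)
          rw [hx2, hx3]) hv1
    -- a possible key
    have hkey : ∀ l ∈ GhoF.JJ (tb.Wl (TP.nn ν) w) (cJ D j) (BJ b) (CJ j i) (G w) u z (lab w) qc
        (fun c => (c, θ)) v1 (5 * t) nm (Jm := Jm), l.2.2 = nmw w (z l.1) ∧ eta w (z l.1) l.2.2 ∈ Ve (z l.1) l.2.2 := by
      intro l hl
      have h3 := hFA.ss l hl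
      obtain ⟨d, hd1, hd2⟩ : ∃ d, (R (z l.1) l.2.2).p d ≠ 0 ∧ GhoF.SSL (tb.Wl (TP.nn ν) w) (cJ D j) (BJ b) (CJ j i) (G w) u z
          (lab w) qc (fun c => (c, θ)) v1 (5 * t) nm (Jm := Jm) (SSf w) w l d := by
        by_contra hcon
        push Not at hcon
        have h4 : (R (z l.1) l.2.2).Pr (GhoF.SSL (tb.Wl (TP.nn ν) w) (cJ D j) (BJ b) (CJ j i) (G w) u z
          (lab w) qc (fun c => (c, θ)) v1 (5 * t) nm (Jm := Jm) (SSf w) w l) ≤ 0 :=
          FP.E_le_const _ fun d hd => (ind_not (hcon d hd)).le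
        linarith
      have h4 := hFA.al l hl d hd1 hd2
      exact ⟨h4.1, h4.2.1⟩
    exact
      { ss := hFA.ss
        ae := fun l hl => (hkey l hl).2
        al := fun l hl d hd hSS => (hFA.al l hl d hd hSS).2.2
        ho := fun l hl c hc hP i' hi' => by
          have h3 := hFA.ho l hl c hc hP i' hi'
          rw [← (hkey l hl).1] at h3
          exact h3
        hm := fun l hl c hc hP => by
          have h3 := hFA.hm l hl c hc hP
          rw [← (hkey l hl).1] at h3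
          exact h3
        dj := hFA.dj
        dens := by
          have h3 := hFA.dens
          refine le_trans (le_of_eq ?_) h3
          ring }
  · -- the potential
    intro w hw
    have hlaw : ∀ A : β × W → Prop, (tb.Wl (TP.nn ν) w).ce (cJ D j (5 * t)) (fun x => ind (A (CJ j i x))) w =
        (tb.Q i).E (fun θ => qc.Pr (fun c => A (c, θ))) := by
      intro A
      have h3 := ce_law (tb := tb) (show TP.nn ν ≤ TP.nn (5 * t) from TP.nn_mono hν) w i j (fun θ c => ind (A (c, θ)))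
      refine h3.trans (FP.E_congr _ fun θ _ => ?_)
      have h4 : qc.Pr (fun c => A (c, θ)) = avg D t (w0.2.2 j) (fun c => ind (A (c, θ))) := by
        rw [hqc, img_Pr]
        exact Qc_pt hv hw0 j (fun c => ind (A (c, θ)))
      rw [h4, nn5]
      have h5 : D.cB t (w.2.2 j) = D.cB t (w0.2.2 j) := by
        ext c
        rw [mem_cB, mem_cB, hcell hw j]
      unfold avg
      rw [h5]
    have h3 := GhoF.pot_le (P := tb.Wl (TP.nn ν) w) (cC := cJ D j) (B := BJ b) (C := CJ j i) (G := G w) (u := u) (z := z)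
      (lab := lab w) (qc := qc) (v := v1) (t := 5 * t) (nm := nm) (Jm := Jm) (tb.Q i) (eθ := fun θ c => (c, θ))
      hCf (fun s x y hx hy hB hC => hlab w s x y hw hx hy hB hC) hv1 hJ (w := w) hlaw
    refine h3.trans (FP.E_mono _ fun θ _ => sum_le_sum fun l _ => ?_)
    linarith

end

end Pool.Agent.GMH.ThB
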