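import Pool.Agent.GMH.ThB1

/-!
# GMH/ThB2 (helper50): THE THIN COVERS ARE PAID AT ALL PUBLIC ENDS, ends at substates ((B1) and (B2))

The end `q` is collected at the saturated state `upq q = 5 ⌈q/5⌉` of its level (remark of helper15).
* `gain_mono` : a coarser letter gains less (event of the present); `up_abs` : the abstract sum, factor `5`;
* `thin_totalQ` : ends at any state, starts at any state, bound in the class of the level;
* `PhW_up` : the potential grows up to the end of the level; `cover_all` : all public ends of the cover potential, tables of the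
  start `eτ` = start of the epoch or end of the level (RULE L).
-/

set_option autoImplicit false
set_option linter.unusedSectionVars false

namespace Pool.Agent.GMH.ThB2

open Finset Pool.Agent.PWZ Pool.Agent.M3 Pool.Agent.GM Pool.Agent.GM.Harm Pool.Agent.GMH Pool.Agent.GMH.GhoC
open Pool.Agent.GMH.EpG

noncomputable section

/-! ## abstract -/

section abs

variable {Om : Type*} [Fintype Om] {P : FP Om}

/-- a letter and a coarser one -/
theorem sp_two {κ κ' ι : Type*} {X : Om → κ} {X0 : Om → κ'} {Y : Om → ι} (hY : Fac (fun w => (X w, Y w)) X0) (w : Om) :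
    sp P X Y w = sp P X0 Y w + sp P X (fun u => (X0 u, Y u)) w := by
  have h3 := sp_chain P X X0 Y w
  have h4 : sp P (fun v => (X v, X0 v)) Y w = sp P X Y w := by
    refine sp_congr P ?_ (Fac.refl _) ?_ (Fac.refl _) w
    · intro a b hab
      exact (Prod.mk.inj (Prod.mk.inj (show ((X a, X0 a), Y a) = ((X b, X0 b), Y b) from hab)).1).1
    · intro a b hab
      have h5 := hY a b hab
      have h6 := (Prod.mk.inj (show (X a, Y a) = (X b, Y b) from hab)).1
      show (X a, X0 a) = (X b, X0 b)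
      rw [h5, h6]
  rw [← h4, h3]

/-- **a coarser letter gains less** on an event of the present -/
theorem gain_mono {κ κ' ι ι' : Type*} {X : Om → κ} {X0 : Om → κ'} {Z : Om → ι} {Z' : Om → ι'}
    (hX : Fac (fun w => (X w, Z w)) X0) (hZ : Fac Z' Z) {B : Om → Prop} (hB : Fac Z' B) :
    P.E (fun w => ind (B w) * (sp P X0 Z w - sp P X0 Z' w)) ≤ P.E (fun w => ind (B w) * (sp P X Z w - sp P X Z' w)) := by
  have hX' : Fac (fun w => (X w, Z' w)) X0 := fun a b hab => by
    have h6 := Prod.mk.inj (show (X a, Z' a) = (X b, Z' b) from hab)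
    exact hX a b (by
      show (X a, Z a) = (X b, Z b)
      rw [h6.1, hZ a b h6.2])
  have h1 := gain_loc (P := P) X (Z := fun u => (X0 u, Z u)) (Z' := fun u => (X0 u, Z' u)) (B := B)
    (fun a b hab => by
      have h6 := Prod.mk.inj (show (X0 a, Z' a) = (X0 b, Z' b) from hab)
      show (X0 a, Z a) = (X0 b, Z b)
      rw [h6.1, hZ a b h6.2]) (fun a b hab => hB a b (Prod.mk.inj (show (X0 a, Z' a) = (X0 b, Z' b) from hab)).2)
  have h2 : P.E (fun w => ind (B w) * (sp P X Z w - sp P X Z' w)) =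
      P.E (fun w => ind (B w) * (sp P X0 Z w - sp P X0 Z' w)) +
        P.E (fun w => ind (B w) * (sp P X (fun u => (X0 u, Z u)) w - sp P X (fun u => (X0 u, Z' u)) w)) := by
    rw [← P.E_add]
    refine P.E_congr fun w _ => ?_
    rw [sp_two hX w, sp_two hX' w]
    ring
  linarith

/-- the start of the epoch -/
theorem st_of {e : ℕ → Om → Prop} {s q : ℕ} {w : Om} (hs : s < q) (h : e s w) (h0 : ∀ r, s < r → r < q → ¬ e r w) :
    st e q w = s := by
  induction q with
  | zero => omega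
  | succ q ih =>
    rcases Nat.lt_or_ge s q with h1 | h1
    · rw [st_neg (h0 q h1 (Nat.lt_succ_self q))]
      exact ih h1 fun r h2 h3 => h0 r h2 (by omega)
    · obtain rfl : s = q := by omega
      exact st_pos h

/-- the saturated state of the level -/
def upq (q : ℕ) : ℕ := 5 * ((q + 4) / 5)

theorem le_upq (q : ℕ) : q ≤ upq q := by
  unfold upq
  omega

theorem upq_mul (t : ℕ) : upq (5 * t) = 5 * t := by
  unfold upq
  omega

theorem upq_add {t r : ℕ} (h1 : 1 ≤ r) (h2 : r ≤ 5) : upq (5 * t + r) = 5 * (t + 1) := by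
  unfold upq
  omega

/-- sums by residues -/
theorem sum_res (f : ℕ → ℝ) (h0 : ∀ t, f (5 * t) = 0) (n : ℕ) :
    ∑ q ∈ range (5 * n + 1), f q = ∑ r ∈ range 4, ∑ t ∈ range n, f (5 * t + (r + 1)) := by
  have h1 : ∀ n, ∑ q ∈ range (5 * n + 1), f q = ∑ t ∈ range n, ∑ r ∈ range 4, f (5 * t + (r + 1)) := by
    intro n
    induction n with
    | zero =>
      rw [Nat.mul_zero, Nat.zero_add, range_one, sum_singleton, range_zero, sum_empty]
      exact h0 0
    | succ n ih =>
      have e1 : ∑ t ∈ range (n + 1), ∑ r ∈ range 4, f (5 * t + (r + 1)) =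
          ∑ t ∈ range n, ∑ r ∈ range 4, f (5 * t + (r + 1)) + ∑ r ∈ range 4, f (5 * n + (r + 1)) := sum_range_succ _ n
      rw [e1, ← ih, show 5 * (n + 1) + 1 = 5 * n + 1 + 1 + 1 + 1 + 1 + 1 by omega]
      rw [sum_range_succ, sum_range_succ, sum_range_succ, sum_range_succ, sum_range_succ]
      rw [show 5 * n + 1 + 1 + 1 + 1 + 1 = 5 * (n + 1) by omega, h0 (n + 1)]
      have e2 : ∑ r ∈ range 4, f (5 * n + (r + 1)) = f (5 * n + 1) + f (5 * n + 1 + 1) + f (5 * n + 1 + 1 + 1) +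
          f (5 * n + 1 + 1 + 1 + 1) := by
        rw [sum_range_succ, sum_range_succ, sum_range_succ, sum_range_one]
      rw [e2]
      ring
  rw [h1 n, sum_comm]

variable {κ ι : ℕ → Type*} {A : ∀ t, Om → ι t} {S : ∀ t, Om → κ t}

/-- one residue: gains from the state `5 t + r` to the end of the level -/
theorem res_le (hA : Filt A) (hT : ∀ t, Fac (fun w => (S (t + 1) w, A (t + 1) w)) (S t)) {X1 : ℝ} {n : ℕ}
    (hX : P.Hc (S 0) (A 0) + ∑ q ∈ range (5 * n), P.Hc (S (q + 1)) (fun w => (S q w, A (q + 1) w)) ≤ X1) {r : ℕ}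
    (h1 : 1 ≤ r) (h4 : r ≤ 4) {B : ℕ → Om → Prop} (hB : ∀ t, Fac (A (5 * t + r)) (B t)) :
    ∑ t ∈ range n, P.E (fun w => ind (B t w) *
      (sp P (S (5 * t + r)) (A (5 * t + r)) w - sp P (S (5 * t + r)) (A (5 * (t + 1))) w)) ≤ X1 := by
  set e : ℕ → Om → Prop := fun q _ => q % 5 = r ∨ q % 5 = 0 with he
  set e' : ℕ → Om → Prop := fun q w => q % 5 = 0 ∧ 0 < q ∧ B (q / 5 - 1) w with he'
  have hef : ∀ q, Fac (A q) (e q) := fun q a b _ => rfl
  have hef' : ∀ q, Fac (A q) (e' q) := fun q a b hab => by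
    by_cases h5 : q % 5 = 0 ∧ 0 < q
    · have h6 : B (q / 5 - 1) a = B (q / 5 - 1) b := hB (q / 5 - 1) a b (hA.le (by omega) a b hab)
      show (q % 5 = 0 ∧ 0 < q ∧ B (q / 5 - 1) a) = (q % 5 = 0 ∧ 0 < q ∧ B (q / 5 - 1) b)
      rw [h6]
    · exact propext ⟨fun hh => absurd ⟨hh.1, hh.2.1⟩ h5, fun hh => absurd ⟨hh.1, hh.2.1⟩ h5⟩
  have h2 := part_le (P := P) (T := S) (A := A) (e := e) hA hT hef hef' (fun q w hw => Or.inr hw.1) (5 * n)
  refine le_trans ?_ (h2.trans hX)
  have h3 : ∀ t ∈ range n, P.E (fun w => ind (B t w) *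
      (sp P (S (5 * t + r)) (A (5 * t + r)) w - sp P (S (5 * t + r)) (A (5 * (t + 1))) w)) =
      P.E (fun w => ind (e' (5 * (t + 1)) w) * EpG.gn P e S A (5 * (t + 1)) w) := by
    intro t _
    refine P.E_congr fun w _ => ?_
    have h5 : st e (5 * (t + 1)) w = 5 * t + r := st_of (by omega) (Or.inl (by omega)) fun r' h6 h7 hh => by
      rcases hh with hh | hh <;> omega
    have h6 : e' (5 * (t + 1)) w = B t w := by
      show (5 * (t + 1) % 5 = 0 ∧ 0 < 5 * (t + 1) ∧ B (5 * (t + 1) / 5 - 1) w) = B t w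
      rw [show 5 * (t + 1) / 5 - 1 = t by omega]
      exact propext ⟨fun hh => hh.2.2, fun hh => ⟨by omega, by omega, hh⟩⟩
    rw [EpG.gn_eq, h5, h6]
  rw [sum_congr rfl h3]
  have h7 : ∑ t ∈ range n, P.E (fun w => ind (e' (5 * (t + 1)) w) * EpG.gn P e S A (5 * (t + 1)) w) =
      ∑ q ∈ (range n).image (fun t => 5 * (t + 1)), P.E (fun w => ind (e' q w) * EpG.gn P e S A q w) := by
    rw [sum_image]
    intro a _ b _ hab
    simp only at hab
    omega
  rw [h7]
  refine sum_le_sum_of_subset_of_nonneg ?_ fun q _ _ => part_gain hA hef hef' q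
  intro q hq
  obtain ⟨t, ht, rfl⟩ := mem_image.1 hq
  have := mem_range.1 ht
  exact mem_range.2 (by omega)

/-- **ALL ENDS, COLLECTED AT THE END OF THE LEVEL** -/
theorem up_abs (hA : Filt A) (hT : ∀ t, Fac (fun w => (S (t + 1) w, A (t + 1) w)) (S t)) {e e' : ℕ → Om → Prop}
    (he : ∀ t, Fac (A t) (e t)) (he' : ∀ t, Fac (A t) (e' t)) (hee : ∀ t w, e' t w → e t w) {Phi : ℕ → Om → ℝ}
    {c del X1 : ℝ} (hc : 0 ≤ c) {n : ℕ}
    (hX : P.Hc (S 0) (A 0) + ∑ q ∈ range (5 * n), P.Hc (S (q + 1)) (fun w => (S q w, A (q + 1) w)) ≤ X1)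
    (h : ∀ q ≤ 5 * n, ∀ s ≤ q, P.E (fun w => ind (e' q w ∧ st e q w = s) * Phi q w) ≤
      c * P.E (fun w => ind (e' q w ∧ st e q w = s) * (sp P (S s) (A s) w - sp P (S s) (A (upq q)) w)) +
        del * P.Pr (fun w => e' q w ∧ st e q w = s)) :
    ∑ q ∈ range (5 * n + 1), P.E (fun w => ind (e' q w) * Phi q w) ≤
      5 * c * X1 + del * ∑ q ∈ range (5 * n + 1), P.Pr (e' q) := by
  have h1 := (part_le (P := P) (T := S) (A := A) (e := e) hA hT he he' hee (5 * n)).trans hX
  have e1 : ∀ (t : ℕ) (g : Om → ℝ), P.E (fun w => ind (e' t w) * g w) =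
      ∑ s ∈ range (t + 1), P.E (fun w => ind (e' t w ∧ st e t w = s) * g w) := by
    intro t g
    rw [← P.E_sum]
    refine P.E_congr fun w _ => ?_
    have e2 : ∀ s ∈ range (t + 1), ind (e' t w ∧ st e t w = s) * g w = ind (st e t w = s) * (ind (e' t w) * g w) := by
      intro s _
      rw [ind_and]
      ring
    rw [sum_congr rfl e2]
    exact (sum_st (st_le e t w) fun _ => ind (e' t w) * g w).symm
  have e3 : ∀ t, P.E (fun w => ind (e' t w) * EpG.gn P e S A t w) =
      ∑ s ∈ range (t + 1), P.E (fun w => ind (e' t w ∧ st e t w = s) * (sp P (S s) (A s) w - sp P (S s) (A t) w)) := by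
    intro t
    rw [e1 t]
    refine sum_congr rfl fun s _ => P.E_congr fun w _ => ?_
    by_cases hs : e' t w ∧ st e t w = s
    · rw [ind_of hs, one_mul, one_mul, EpG.gn_eq, hs.2]
    · rw [ind_not hs, zero_mul, zero_mul]
  have e4 : ∀ t, P.Pr (e' t) = ∑ s ∈ range (t + 1), P.Pr (fun w => e' t w ∧ st e t w = s) := by
    intro t
    have := e1 t fun _ => 1
    simp only [mul_one] at this
    exact this
  -- the second part
  have hst : ∀ q s, Fac (A q) (fun w => e' q w ∧ st e q w = s) := by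
    intro q s a b hab
    have h2 : e' q a = e' q b := he' q a b hab
    have h3 : st e q a = st e q b := by
      rcases q with _ | q
      · rfl
      · exact st_fac hA he q a b (hA q a b hab)
    show (e' q a ∧ st e q a = s) = (e' q b ∧ st e q b = s)
    rw [h2, h3]
  set F : ℕ → ℝ := fun q => P.E (fun w => ind (e' q w) * (sp P (S q) (A q) w - sp P (S q) (A (upq q)) w)) with hF
  have h2 : ∀ q, ∑ s ∈ range (q + 1), P.E (fun w => ind (e' q w ∧ st e q w = s) *
      (sp P (S s) (A q) w - sp P (S s) (A (upq q)) w)) ≤ F q := by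
    intro q
    rw [hF]
    simp only
    rw [e1 q]
    refine sum_le_sum fun s hs => ?_
    have hsq : s ≤ q := Nat.lt_succ_iff.1 (mem_range.1 hs)
    exact gain_mono (EpG.old hA hT hsq) (hA.le (le_upq q)) ((hA.le (le_upq q)).trans (hst q s))
  have h3 : ∑ q ∈ range (5 * n + 1), F q ≤ 4 * X1 := by
    rw [sum_res F (fun t => by
      rw [hF]
      simp only
      refine (P.E_congr fun w _ => ?_).trans (P.E_const 0)
      rw [upq_mul, sub_self, mul_zero]) n]
    have h4 : ∀ r ∈ range 4, ∑ t ∈ range n, F (5 * t + (r + 1)) ≤ X1 := by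
      intro r hr
      have hr4 := mem_range.1 hr
      refine le_trans (le_of_eq (sum_congr rfl fun t _ => ?_)) (res_le (P := P) hA hT hX (r := r + 1) (by omega) (by omega)
        (B := fun t w => e' (5 * t + (r + 1)) w) fun t => he' _)
      rw [hF]
      simp only
      rw [upq_add (t := t) (r := r + 1) (by omega) (by omega)]
    refine (sum_le_sum h4).trans (le_of_eq ?_)
    rw [sum_const, card_range, nsmul_eq_mul]
    norm_num
  have h5 : ∑ q ∈ range (5 * n + 1), P.E (fun w => ind (e' q w) * Phi q w) ≤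
      c * (∑ q ∈ range (5 * n + 1), P.E (fun w => ind (e' q w) * EpG.gn P e S A q w) + ∑ q ∈ range (5 * n + 1), F q) +
        del * ∑ q ∈ range (5 * n + 1), P.Pr (e' q) := by
    rw [← sum_add_distrib, mul_sum, mul_sum, ← sum_add_distrib]
    refine sum_le_sum fun q hq => ?_
    have hqn : q ≤ 5 * n := Nat.lt_succ_iff.1 (mem_range.1 hq)
    have h6 : P.E (fun w => ind (e' q w) * Phi q w) ≤ c * (∑ s ∈ range (q + 1), P.E (fun w => ind (e' q w ∧ st e q w = s) *
        (sp P (S s) (A s) w - sp P (S s) (A (upq q)) w))) + del * P.Pr (e' q) := by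
      rw [e1 q, e4 q, mul_sum, mul_sum, ← sum_add_distrib]
      exact sum_le_sum fun s hs => h q hqn s (Nat.lt_succ_iff.1 (mem_range.1 hs))
    have h7 : ∑ s ∈ range (q + 1), P.E (fun w => ind (e' q w ∧ st e q w = s) *
        (sp P (S s) (A s) w - sp P (S s) (A (upq q)) w)) = P.E (fun w => ind (e' q w) * EpG.gn P e S A q w) +
        ∑ s ∈ range (q + 1), P.E (fun w => ind (e' q w ∧ st e q w = s) *
          (sp P (S s) (A q) w - sp P (S s) (A (upq q)) w)) := by
      rw [e3 q, ← sum_add_distrib]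
      refine sum_congr rfl fun s _ => ?_
      rw [← P.E_add]
      refine P.E_congr fun w _ => ?_
      ring
    have h8 := h2 q
    have h9 : c * (∑ s ∈ range (q + 1), P.E (fun w => ind (e' q w ∧ st e q w = s) *
        (sp P (S s) (A s) w - sp P (S s) (A (upq q)) w))) ≤ c * (P.E (fun w => ind (e' q w) * EpG.gn P e S A q w) + F q) := by
      refine mul_le_mul_of_nonneg_left ?_ hc
      rw [h7]
      linarith
    linarith
  have h10 : c * (∑ q ∈ range (5 * n + 1), P.E (fun w => ind (e' q w) * EpG.gn P e S A q w) +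
      ∑ q ∈ range (5 * n + 1), F q) ≤ c * (X1 + 4 * X1) := mul_le_mul_of_nonneg_left (add_le_add h1 h3) hc
  have h11 : c * (X1 + 4 * X1) = 5 * c * X1 := by ring
  linarith

end abs

/-! ## the run -/

section run

open Pool.Agent.GMH.PayT Pool.Agent.GMH.PayTs Pool.Agent.GMH.ThB
open Pool.Agent.GMH.Dy (Om Tab)
open Pool.Agent.GMH.MVI (NPo XLo NPo_fac XLo_fac NPo_le XLo_le step_thin start_thin)
open Pool.Agent.GMH.CKB (cq sum_cq)

variable {X β γ φ υ : Type} [Fintype X] [Fintype β] [Fintype φ] [Nonempty X] [Nonempty β]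
variable {D : HD (Fin 3) X β γ φ} {al : ℝ} {h : D.Thick al} {prr : ℕ → Fin 3 → φ → φ} {T : ℕ} {W : Type} [Fintype W]
variable {tb : Tab D prr T W} {v : ℕ → Finset (Fin 3) → X → (Fin 3 → β) → υ} {j : Fin 3}

/-- the level of the end of the level -/
def lvq (q : ℕ) : ℕ := (q + 4) / 5

theorem upq_lvq (q : ℕ) : upq q = 5 * lvq q := rfl

theorem nn_lvq (q : ℕ) : TP.nn q = lvq q := by
  have h1 : q = 5 * (q / 5) + q % 5 := by omega
  conv_lhs => rw [h1]
  rw [TP.nn_add _ _ (by omega)]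
  unfold TP.nnj lvq
  split_ifs <;> omega

theorem nn_upq (q : ℕ) : TP.nn (upq q) = TP.nn q := by
  rw [upq_lvq, nn5, nn_lvq]

/-- the gain in a class is nonnegative -/
theorem kcq_nonneg {ν t : ℕ} (hν : ν ≤ 5 * t) {w : Om W X β} (hw : tb.Ps.p w ≠ 0) : 0 ≤ kcq tb v j ν t w := by
  refine klc_nonneg (fun u hu => ?_) _ _
  have e1 := cond_supp (P := tb.Ps) (A := fun u => cl D v t u = cl D v t w) (tb.Ps.m_pos (cl D v t) hw).ne' hu
  refine (FP.cond_p_ne (tb.Ps.m_pos (NPo tb v ν) hw).ne').2 ⟨?_, e1.2⟩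
  exact NPo_le tb v hν u w (NPo_five.2 e1.1)

/-- no gain at the end of the level -/
theorem kcq_five (t : ℕ) (w : Om W X β) : kcq tb v j (5 * t) t w = 0 := by
  have h1 : Qst tb v (5 * t) w = Qc tb v t w := by
    unfold Qst Qc
    congr 1
    funext u
    exact propext NPo_five
  unfold kcq
  rw [h1]
  have h2 : ∀ {κ ζ : Type} (P : FP (Om W X β)) (L : Om W X β → κ) (Z : Om W X β → ζ), P.klc P L Z = 0 := by
    intro κ ζ P L Z
    refine (P.E_congr fun u hu => ?_).trans (P.E_const 0)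
    have a1 := (P.m_pos (fun u => (L u, Z u)) hu).ne'
    have a2 := (P.m_pos Z hu).ne'
    rw [div_self (div_ne_zero a1 a2), Real.log_one]
  exact h2 _ _ _

/-- **P5, ALL PUBLIC ENDS** : ends `e' q` at any state, starts at any state `ν` = start of the epoch or end of the level -/
theorem thin_totalQ {e e' : ℕ → Om W X β → Prop} (he : ∀ q, Fac (NPo tb v q) (e q)) (he' : ∀ q, Fac (NPo tb v q) (e' q))
    (hee : ∀ q w, e' q w → e q w) {Phi : ℕ → Om W X β → ℝ} {c del X1 : ℝ}
    (hc : 0 ≤ c) {n : ℕ} (hX1 : ∑ t ∈ range (n + 1), cst h v t {j} ≤ X1)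
    (hcl : ∀ q ≤ 5 * n, ∀ w, tb.Ps.p w ≠ 0 → e' q w → ∃ ν, (ν = st e q w ∨ ν = upq q) ∧
      (Qc tb v (lvq q) w).E (Phi q) ≤ c * kcq tb v j ν (lvq q) w + del) :
    ∑ q ∈ range (5 * n + 1), tb.Ps.E (fun w => ind (e' q w) * Phi q w) ≤
      5 * c * X1 + del * ∑ q ∈ range (5 * n + 1), tb.Ps.Pr (e' q) := by
  classical
  have hA := Aq_filt (tb := tb) (v := v) (j := j)
  have hAc : ∀ q, Fac (Aq tb v j q) (NPo tb v q) := fun q => Fac.snd _ _
  have hS : ∀ q, Fac (fun w => (XLo tb v j (q + 1) w, Aq tb v j (q + 1) w)) (XLo tb v j q) := fun q a b hab =>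
    XLo_fac tb j q a b (Prod.mk.inj hab).1
  refine up_abs (P := tb.Ps) (A := fun q => Aq tb v j q) (S := fun q => XLo tb v j q) (e := e) (e' := e')
    (Phi := Phi) (c := c) (del := del) hA hS (fun q => (hAc q).trans (he q)) (fun q => (hAc q).trans (he' q))
    hee hc ?_ ?_
  · refine le_trans ?_ hX1
    have h2 : ∑ q ∈ range (5 * n), tb.Ps.Hc (XLo tb v j (q + 1)) (fun w => (XLo tb v j q w, Aq tb v j (q + 1) w)) ≤
        ∑ q ∈ range (5 * n), cq h v q j := sum_le_sum fun q _ => step_thin h tb q j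
    have h3 : tb.Ps.Hc (XLo tb v j 0) (Aq tb v j 0) ≤ cst h v 0 {j} := start_thin h tb j
    rw [sum_cq] at h2
    rw [sum_range_succ']
    linarith
  · intro q hq s hsq
    have hc5 : Fac (cl (W := W) D v (lvq q)) (NPo tb v (5 * lvq q)) := fun a b e => NPo_five.2 e
    have hc6 : Fac (NPo tb v (5 * lvq q)) (cl (W := W) D v (lvq q)) := fun a b e => NPo_five.1 e
    have hqu : q ≤ 5 * lvq q := le_upq q
    have hB : Fac (cl D v (lvq q)) (fun w : Om W X β => e' q w ∧ st e q w = s) := by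
      intro w w' ew
      have ew' := NPo_le tb v hqu w w' (hc5 w w' ew)
      have h2 : e' q w = e' q w' := he' q w w' ew'
      have h3 : st e q w = st e q w' := by
        rcases q with _ | q
        · rfl
        · have hf : Filt fun q => NPo tb v q := fun q => NPo_fac tb q
          exact st_fac hf he q w w' (hf q w w' ew')
      show (e' q w ∧ st e q w = s) = (e' q w' ∧ st e q w' = s)
      rw [h2, h3]
    have hle := NPo_le tb v (hsq.trans hqu)
    have h4 := glob (P := tb.Ps) (A0 := NPo tb v s) (A1 := cl D v (lvq q)) (XLo tb v j s)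
      (fun u => (u.2.2 j, ndq D s u)) (hc5.trans hle) hB (Phi := Phi q) (c := c)
      (del := del) (fun w hw hb => by
        obtain ⟨ν, h5, h6⟩ := hcl q hq w hw hb.1
        have h7 : kcq tb v j ν (lvq q) w ≤ kcq tb v j s (lvq q) w := by
          rcases h5 with h5 | h5
          · rw [h5, hb.2]
          · rw [h5, upq_lvq, kcq_five]
            exact kcq_nonneg (hsq.trans hqu) hw
        exact h6.trans (add_le_add (mul_le_mul_of_nonneg_left h7 hc) le_rfl))
    refine h4.trans (add_le_add (mul_le_mul_of_nonneg_left (le_of_eq ?_) hc) le_rfl)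
    refine tb.Ps.E_congr fun w _ => ?_
    have hnd : ∀ {a b : Om W X β}, NPo tb v s a = NPo tb v s b → ndq D s a = ndq D s b := fun {a b} e => by
      have h7 := NPo_iff.1 e
      show (D.qa (TP.nn s) a.1, fun i => D.qb (TP.nn s) (a.2.2 i)) = (D.qa (TP.nn s) b.1, fun i => D.qb (TP.nn s) (b.2.2 i))
      rw [h7.2.1, funext h7.2.2]
    have k1 : sp tb.Ps (XLo tb v j s) (fun u => ((u.2.2 j, ndq D s u), NPo tb v s u)) w =
        sp tb.Ps (XLo tb v j s) (Aq tb v j s) w := by
      refine sp_congr tb.Ps (Fac.fst _ _) ?_ (Fac.fst _ _) ?_ w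
      · intro a b hab
        have h6 := Prod.mk.inj hab
        show (a.2.2 j, NPo tb v s a) = (b.2.2 j, NPo tb v s b)
        rw [h6.2, (Prod.mk.inj h6.1).1]
      · intro a b hab
        have h6 := Prod.mk.inj (show (a.2.2 j, NPo tb v s a) = (b.2.2 j, NPo tb v s b) from hab)
        show ((a.2.2 j, ndq D s a), NPo tb v s a) = ((b.2.2 j, ndq D s b), NPo tb v s b)
        rw [hnd h6.2, h6.1, h6.2]
    have k2 : sp tb.Ps (XLo tb v j s) (fun u => ((u.2.2 j, ndq D s u), cl D v (lvq q) u)) w =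
        sp tb.Ps (XLo tb v j s) (Aq tb v j (upq q)) w := by
      refine sp_congr tb.Ps (Fac.fst _ _) ?_ (Fac.fst _ _) ?_ w
      · intro a b hab
        have h6 := Prod.mk.inj hab
        show (a.2.2 j, NPo tb v (upq q) a) = (b.2.2 j, NPo tb v (upq q) b)
        rw [upq_lvq, hc5 a b h6.2, (Prod.mk.inj h6.1).1]
      · intro a b hab
        have h6 := Prod.mk.inj (show (a.2.2 j, NPo tb v (upq q) a) = (b.2.2 j, NPo tb v (upq q) b) from hab)
        rw [upq_lvq] at h6
        show ((a.2.2 j, ndq D s a), cl D v (lvq q) a) = ((b.2.2 j, ndq D s b), cl D v (lvq q) b)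
        rw [hnd (hle a b h6.2), h6.1, hc6 a b h6.2]
    rw [k1, k2]

/-- the potential grows up to the end of the level -/
theorem PhW_up (b i : Fin 3) (ν : ℕ) (u v1 : ℝ) {M : ℕ} (z : Fin M → β) {Λ : Type} [Fintype Λ]
    (G : Om W X β → ℕ → Om W X β → Prop) (lab : Om W X β → ℕ → Om W X β → Λ) (q : ℕ) (w : Om W X β) :
    PhW tb b j i ν u v1 z G lab q w ≤ PhW tb b j i ν u v1 z G lab (upq q) w := by
  unfold PhW GhoF.PhV
  have h1 : ∀ (A : Om W X β → Prop) (x : Om W X β), Gdy.cp (tb.Wl (TP.nn ν) w) (cJ D j) q A x =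
      Gdy.cp (tb.Wl (TP.nn ν) w) (cJ D j) (upq q) A x := by
    intro A x
    unfold Gdy.cp
    refine FP.ce_congr_map _ (fun a b e => ?_) (fun a b e => ?_) _ x
    · show D.qb (TP.nn (upq q)) (a.2.2 j) = D.qb (TP.nn (upq q)) (b.2.2 j)
      rw [nn_upq]
      exact e
    · have e' : D.qb (TP.nn (upq q)) (a.2.2 j) = D.qb (TP.nn (upq q)) (b.2.2 j) := e
      rw [nn_upq] at e'
      exact e'
  simp only [h1]
  refine sum_le_sum_of_subset_of_nonneg (range_subset_range.2 (Nat.succ_le_succ (le_upq q))) fun s _ _ => ?_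
  exact sum_nonneg fun _ _ => sum_nonneg fun _ _ => le_max_right _ _

/-- **ALL PUBLIC ENDS OF THE THIN COVER** : `e q` = cuts (starts of the epochs, and the ends of the levels with a light value),
`e' q` = the ends which are paid, `eτ q` = state of the tables of the epoch which ends (RULE L); the samples `z ν` are seen by the
class of the start `ν`; `hcl` = the result of `thin_class` -/
theorem cover_all {e e' : ℕ → Om W X β → Prop} (he : ∀ q, Fac (NPo tb v q) (e q)) (he' : ∀ q, Fac (NPo tb v q) (e' q))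
    (hee : ∀ q w, e' q w → e q w) {eτ : ℕ → Om W X β → ℕ} (hτ : ∀ q, Fac (NPo tb v q) (eτ q))
    (hst : ∀ q w, tb.Ps.p w ≠ 0 → e' q w → eτ q w = st e q w ∨ eτ q w = upq q) (b i : Fin 3) {u v1 : ℝ} {M : ℕ}
    {z : ℕ → Om W X β → Fin M → β} (hz : ∀ ν, Fac (NPo tb v ν) (z ν)) {Λ : Type} [Fintype Λ]
    {G : ℕ → Om W X β → ℕ → Om W X β → Prop} {lab : ℕ → Om W X β → ℕ → Om W X β → Λ} {c del X1 : ℝ}
    (hc : 0 ≤ c) {n : ℕ} (hX1 : ∑ t ∈ range (n + 1), cst h v t {j} ≤ X1)
    (hcl : ∀ q ≤ 5 * n, ∀ w0, tb.Ps.p w0 ≠ 0 → e' q w0 → (Qc tb v (lvq q) w0).E (PhW tb b j i (eτ q w0) u v1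
      (z (eτ q w0) w0) (G (eτ q w0)) (lab (eτ q w0)) (upq q)) ≤ c * kcq tb v j (eτ q w0) (lvq q) w0 + del) :
    ∑ q ∈ range (5 * n + 1), tb.Ps.E (fun w => ind (e' q w) *
      PhW tb b j i (eτ q w) u v1 (z (eτ q w) w) (G (eτ q w)) (lab (eτ q w)) (upq q) w) ≤
      5 * c * X1 + del * ∑ q ∈ range (5 * n + 1), tb.Ps.Pr (e' q) := by
  refine thin_totalQ (h := h) (e := e) he he' hee hc hX1 fun q hq w0 hw0 he0 => ⟨eτ q w0, hst q w0 hw0 he0, ?_⟩
  refine le_trans (le_of_eq ?_) (hcl q hq w0 hw0 he0)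
  refine FP.E_congr _ fun u hu => ?_
  have e1 := cond_supp (P := tb.Ps) (A := fun u => cl D v (lvq q) u = cl D v (lvq q) w0)
    (tb.Ps.m_pos (cl D v (lvq q)) hw0).ne' hu
  have e2 : NPo tb v (5 * lvq q) u = NPo tb v (5 * lvq q) w0 := NPo_five.2 e1.1
  have e3 : eτ q u = eτ q w0 := hτ q u w0 (NPo_le tb v (le_upq q) u w0 e2)
  have e4 : eτ q w0 ≤ 5 * lvq q := by
    rcases hst q w0 hw0 he0 with h5 | h5
    · rw [h5]
      exact (st_le e q w0).trans (le_upq q)
    · rw [h5, upq_lvq]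
  have e5 : z (eτ q w0) u = z (eτ q w0) w0 := hz _ u w0 (NPo_le tb v e4 u w0 e2)
  show PhW tb b j i (eτ q u) _ v1 (z (eτ q u) u) (G (eτ q u)) (lab (eτ q u)) (upq q) u = _
  rw [e3, e5]

end run

end

end Pool.Agent.GMH.ThB2
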