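import Pool.Agent.GMH.CK3
import Pool.Agent.GMH.ThB2

/-!
# GMH/ThK (helper50): OWN LETTERS WHICH HAVE GAINED SINCE A START, total mass at the cuts (helper40, 47589)

`N` = public class, `L` = letter (with its point `Y`), `lgr r t` = log of `P (L r | Y, N t)` over `P (L r | Y, N r)`.
* `moves_c` : number of restarts with a sum of public increments of absolute value `≥ G`: `≤ X1 / (G - 1)`, both directions
  (`exp (-A) - 1 + A ≥ G - 1`);
* `down_le` : since a start `r` the log ratio of the letter `L r` exceeds the sum of the current increments by more than `x` with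
  probability `≤ e^(-x)`;
* `gain_total` : `∑_q P (e' q, ∃ starts r < t in the stretch since the last cut with lgr r t > 2 G + x) ≤ X1/(G-1) + e^(-x) ∑ P (start)`;
* `gain_run` : the same in the process, `X1` = cost of the thin letter.
-/

set_option autoImplicit false
set_option linter.unusedSectionVars false

namespace Pool.Agent.GMH.ThK

open Finset Pool.Agent.PWZ Pool.Agent.M3 Pool.Agent.GMH.TD

noncomputable section

/-! ## abstract -/

section abs

variable {Om : Type*} [Fintype Om] {P : FP Om} {κ lam η : Type*} {N : ℕ → Om → κ} {L : ℕ → Om → lam} {Y : Om → η}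

theorem phi_big {G x : ℝ} (hG : 2 ≤ G) (hx : G ≤ |x|) : G - 1 ≤ phi x := by
  unfold phi
  rcases le_or_gt 0 x with h | h
  · rw [abs_of_nonneg h] at hx
    have := Real.exp_pos (-x)
    linarith
  · rw [abs_of_neg h] at hx
    have h2 : 1 + (-x) + (-x) ^ 2 / 2 ≤ Real.exp (-x) := Real.quadratic_le_exp_of_nonneg (x := -x) (by linarith)
    nlinarith

/-- **number of restarts after a move of the public part**, any threshold -/
theorem moves_c {st : ℕ → Om → ℕ} (hN : ∀ k, Fac (N (k + 1)) (N k)) (hL : ∀ k, Fac (L (k + 1)) (L k))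
    (hY : ∀ k, Fac (L k) Y) (h0 : ∀ w, st 0 w = 0) (h1 : ∀ k w, st (k + 1) w = k + 1 ∨ st (k + 1) w = st k w)
    (hst : ∀ k, Fac (fun w => (L k w, N k w)) (st k)) {δ c : ℝ} (hφ : ∀ x, δ ≤ |x| → c ≤ phi x) (T : ℕ) :
    c * ∑ k ∈ range T, P.Pr (fun w => st (k + 1) w = k + 1 ∧ δ ≤ |∑ i ∈ Ico (st k w) (k + 1), ai P N L Y i w|) ≤
      ∑ k ∈ range T, P.E (ai P N L Y k) := by
  have hle := TD.st_le h0 h1
  set A : ℕ → Om → ℝ := since (ai P N L Y) st with hA
  have hAs : ∀ k w, ∑ i ∈ Ico (st k w) (k + 1), ai P N L Y i w = A k w + ai P N L Y k w := fun k w =>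
    since_succ _ (hle k w)
  have hNle : ∀ {i k : ℕ}, i ≤ k → Fac (N k) (N i) := fun {i k} hik => by
    induction k, hik using Nat.le_induction with
    | base => exact Fac.refl _
    | succ k _ ih => exact (hN k).trans ih
  have hLle : ∀ {i k : ℕ}, i ≤ k → Fac (L k) (L i) := fun {i k} hik => by
    induction k, hik using Nat.le_induction with
    | base => exact Fac.refl _
    | succ k _ ih => exact (hL k).trans ih
  have hAfac : ∀ k, Fac (fun w => (L k w, N k w)) (A k) := by
    intro k a b hab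
    have e1 := (Prod.mk.inj hab).1
    have e2 := (Prod.mk.inj hab).2
    rw [hA]
    unfold since
    rw [hst k a b hab]
    refine Finset.sum_congr rfl fun i hi => ?_
    have hi2 : i < k := (Finset.mem_Ico.1 hi).2
    refine ai_fac P hN hY i a b ?_
    show (L i a, N (i + 1) a) = (L i b, N (i + 1) b)
    rw [hLle hi2.le a b e1, hNle (Nat.succ_le_of_lt hi2) a b e2]
  have hstep : ∀ k, c * P.Pr (fun w => st (k + 1) w = k + 1 ∧
      δ ≤ |∑ i ∈ Ico (st k w) (k + 1), ai P N L Y i w|) ≤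
      P.E (fun w => phi (A k w)) + P.E (ai P N L Y k) - P.E (fun w => phi (A (k + 1) w)) := by
    intro k
    have s1 : c * P.Pr (fun w => st (k + 1) w = k + 1 ∧
        δ ≤ |∑ i ∈ Ico (st k w) (k + 1), ai P N L Y i w|) ≤
        P.E (fun w => phi (A k w + ai P N L Y k w) - phi (A (k + 1) w)) := by
      unfold FP.Pr
      rw [← P.E_smul]
      refine P.E_mono fun w _ => ?_
      rcases h1 k w with h | h
      · have e1 : A (k + 1) w = 0 := by
          rw [hA]
          unfold since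
          rw [h, Finset.Ico_self, Finset.sum_empty]
        rw [e1, phi_zero, sub_zero]
        by_cases hh : δ ≤ |∑ i ∈ Ico (st k w) (k + 1), ai P N L Y i w|
        · rw [ind_of ⟨h, hh⟩, mul_one]
          rw [hAs] at hh
          exact hφ _ hh
        · rw [ind_not fun hc => hh hc.2, mul_zero]
          exact phi_nonneg _
      · have e1 : A (k + 1) w = A k w + ai P N L Y k w := by
          rw [← hAs k w, hA]
          unfold since
          rw [h]
        rw [e1, sub_self]
        rw [ind_not, mul_zero]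
        rintro ⟨h2, _⟩
        have := hle k w
        omega
    rw [P.E_sub] at s1
    have s2 : P.E (fun w => phi (A k w + ai P N L Y k w)) ≤ P.E (fun w => phi (A k w)) + P.E (ai P N L Y k) := by
      have e1 : ∀ w, phi (A k w + ai P N L Y k w) =
          Real.exp (- A k w) * Real.exp (- ai P N L Y k w) + ((-1 + A k w) + ai P N L Y k w) := by
        intro w
        unfold phi
        rw [neg_add, Real.exp_add]
        ring
      have e2 : P.E (fun w => Real.exp (- A k w) * Real.exp (- ai P N L Y k w)) ≤ P.E (fun w => Real.exp (- A k w)) := by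
        have hf : Fac (fun w => (L k w, N k w)) (fun w => Real.exp (- A k w)) := (hAfac k).comp fun x => Real.exp (-x)
        rw [← P.E_mul_ce hf]
        refine P.E_mono fun w hw => ?_
        have := ce_exp_ai P hN hY k hw
        have h2 := Real.exp_pos (- A k w)
        nlinarith
      have e3 : P.E (fun w => phi (A k w)) = P.E (fun w => Real.exp (- A k w)) + P.E (fun w => -1 + A k w) := by
        rw [← P.E_add]
        refine P.E_congr fun w _ => ?_
        unfold phi
        ring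
      rw [P.E_congr fun w _ => e1 w, P.E_add, P.E_add, e3]
      linarith
    linarith
  have htel : ∀ T, ∑ k ∈ range T, (P.E (fun w => phi (A k w)) + P.E (ai P N L Y k) - P.E (fun w => phi (A (k + 1) w))) =
      P.E (fun w => phi (A 0 w)) - P.E (fun w => phi (A T w)) + ∑ k ∈ range T, P.E (ai P N L Y k) := by
    intro T
    induction T with
    | zero => simp
    | succ T ih =>
      rw [Finset.sum_range_succ, ih, Finset.sum_range_succ]
      ring
  have hA0 : P.E (fun w => phi (A 0 w)) = 0 := by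
    rw [← P.E_const 0]
    refine P.E_congr fun w _ => ?_
    rw [hA]
    unfold since
    rw [h0 w, Finset.Ico_self, Finset.sum_empty, phi_zero]
  have hAT : 0 ≤ P.E (fun w => phi (A T w)) := P.E_nonneg fun w _ => phi_nonneg _
  have hsum := Finset.sum_le_sum fun k (_ : k ∈ range T) => hstep k
  rw [← Finset.mul_sum, htel, hA0] at hsum
  linarith

/-! ### the clock: cuts, and large sums of the current increments -/

variable (P N L Y) in
open Classical in
/-- last cut or large move -/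
def sk (e : ℕ → Om → Prop) (G : ℝ) : ℕ → Om → ℕ
  | 0, _ => 0
  | k + 1, w => if e (k + 1) w ∨ G ≤ |∑ i ∈ Ico (sk e G k w) (k + 1), ai P N L Y i w| then k + 1 else sk e G k w

theorem sk_or (e : ℕ → Om → Prop) (G : ℝ) (k : ℕ) (w : Om) :
    sk P N L Y e G (k + 1) w = k + 1 ∨ sk P N L Y e G (k + 1) w = sk P N L Y e G k w := by
  rw [sk]
  split_ifs
  · exact Or.inl rfl
  · exact Or.inr rfl

theorem sk_pos {e : ℕ → Om → Prop} {G : ℝ} {k : ℕ} {w : Om} (h : e (k + 1) w ∨ G ≤ |∑ i ∈ Ico (sk P N L Y e G k w) (k + 1),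
    ai P N L Y i w|) : sk P N L Y e G (k + 1) w = k + 1 := by
  rw [sk, if_pos h]

theorem sk_neg {e : ℕ → Om → Prop} {G : ℝ} {k : ℕ} {w : Om} (h : ¬ (e (k + 1) w ∨ G ≤ |∑ i ∈ Ico (sk P N L Y e G k w) (k + 1),
    ai P N L Y i w|)) : sk P N L Y e G (k + 1) w = sk P N L Y e G k w := by
  rw [sk, if_neg h]

theorem sk_le (e : ℕ → Om → Prop) (G : ℝ) (k : ℕ) (w : Om) : sk P N L Y e G k w ≤ k := by
  induction k with
  | zero => exact le_rfl
  | succ k ih =>
    rcases sk_or (P := P) (N := N) (L := L) (Y := Y) e G k w with h | h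
    · rw [h]
    · rw [h]
      omega

theorem sk_fac (hN : ∀ k, Fac (N (k + 1)) (N k)) (hL : ∀ k, Fac (L (k + 1)) (L k)) (hY : ∀ k, Fac (L k) Y)
    {e : ℕ → Om → Prop} (he : ∀ k, Fac (N k) (e k)) (G : ℝ) (k : ℕ) :
    Fac (fun w => (L k w, N k w)) (sk P N L Y e G k) := by
  have hNle : ∀ {i k : ℕ}, i ≤ k → Fac (N k) (N i) := fun {i k} hik => by
    induction k, hik using Nat.le_induction with
    | base => exact Fac.refl _
    | succ k _ ih => exact (hN k).trans ih
  have hLle : ∀ {i k : ℕ}, i ≤ k → Fac (L k) (L i) := fun {i k} hik => by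
    induction k, hik using Nat.le_induction with
    | base => exact Fac.refl _
    | succ k _ ih => exact (hL k).trans ih
  induction k with
  | zero => exact fun _ _ _ => rfl
  | succ k ih =>
    intro a b hab
    have e1 := (Prod.mk.inj (show (L (k + 1) a, N (k + 1) a) = (L (k + 1) b, N (k + 1) b) from hab)).1
    have e2 := (Prod.mk.inj (show (L (k + 1) a, N (k + 1) a) = (L (k + 1) b, N (k + 1) b) from hab)).2
    have h1 : sk P N L Y e G k a = sk P N L Y e G k b := ih a b (by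
      show (L k a, N k a) = (L k b, N k b)
      rw [hL k a b e1, hN k a b e2])
    have h2 : e (k + 1) a = e (k + 1) b := he (k + 1) a b e2
    have h3 : ∑ i ∈ Ico (sk P N L Y e G k a) (k + 1), ai P N L Y i a =
        ∑ i ∈ Ico (sk P N L Y e G k b) (k + 1), ai P N L Y i b := by
      rw [h1]
      refine Finset.sum_congr rfl fun i hi => ?_
      have hi2 : i < k + 1 := (Finset.mem_Ico.1 hi).2
      refine ai_fac P hN hY i a b ?_
      show (L i a, N (i + 1) a) = (L i b, N (i + 1) b)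
      rw [hLle hi2.le a b e1, hNle (Nat.succ_le_of_lt hi2) a b e2]
    show sk P N L Y e G (k + 1) a = sk P N L Y e G (k + 1) b
    rw [sk, sk, h2, h3, h1]

/-- no large move in the stretch: the clock stays at its start -/
theorem sk_stay {e : ℕ → Om → Prop} {G : ℝ} {a q : ℕ} {w : Om} (ha : sk P N L Y e G a w = a)
    (he : ∀ k, a < k → k < q → ¬ e k w) (hh : ∀ k, a ≤ k → k + 1 ≤ q →
      ¬ (sk P N L Y e G (k + 1) w = k + 1 ∧ G ≤ |∑ i ∈ Ico (sk P N L Y e G k w) (k + 1), ai P N L Y i w|)) {k : ℕ}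
    (h1 : a ≤ k) (h2 : k < q) : sk P N L Y e G k w = a := by
  induction k, h1 using Nat.le_induction with
  | base => exact ha
  | succ k hk ih =>
    have h3 := ih (by omega)
    rw [sk_neg, h3]
    rintro (h4 | h4)
    · exact he (k + 1) (by omega) h2 h4
    · exact hh k hk (by omega) ⟨sk_pos (Or.inr h4), h4⟩

/-! ### the deviation of the births -/

variable (P N L Y) in
/-- log ratio of the letter `L r`, class of `t` over class of `r` -/
def lgr (r t : ℕ) (w : Om) : ℝ :=
  Real.log (P.m (fun w => (L r w, N t w)) w) - Real.log (P.m (fun w => (Y w, N t w)) w) -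
    (Real.log (P.m (fun w => (L r w, N r w)) w) - Real.log (P.m (fun w => (Y w, N r w)) w))

theorem lgr_self (r : ℕ) (w : Om) : lgr P N L Y r r w = 0 := sub_self _

/-- current increments = increments given the letter `L r`, and the log ratio of `L r` -/
theorem ai_split (r k : ℕ) {w : Om} (hw : P.p w ≠ 0) :
    ai P N L Y (r + k) w = ai P (fun i => N (r + i)) (fun i => L (r + i)) (L r) k w +
      (lgr P N L Y r (r + (k + 1)) w - lgr P N L Y r (r + k) w) := by
  rw [ai_eq P (r + k) hw, ai_eq P k hw]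
  unfold lgr
  have e : r + k + 1 = r + (k + 1) := by omega
  rw [e]
  ring

theorem ai_sum (r k : ℕ) {w : Om} (hw : P.p w ≠ 0) :
    ∑ i ∈ Ico r (r + k), ai P N L Y i w = ∑ i ∈ range k, ai P (fun i => N (r + i)) (fun i => L (r + i)) (L r) i w +
      lgr P N L Y r (r + k) w := by
  induction k with
  | zero => rw [Nat.add_zero, Finset.Ico_self, Finset.sum_empty, Finset.range_zero, Finset.sum_empty, lgr_self, add_zero]
  | succ k ih =>
    rw [show r + (k + 1) = r + k + 1 by omega, Finset.sum_Ico_succ_top (by omega), ih, Finset.sum_range_succ,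
      ai_split r k hw, show r + (k + 1) = r + k + 1 by omega]
    ring

/-- **the log ratio of the letter of a start exceeds the current increments by `x`** : rare -/
theorem down_le (hN : ∀ k, Fac (N (k + 1)) (N k)) (hL : ∀ k, Fac (L (k + 1)) (L k)) (r : ℕ) {sr : Om → Prop}
    (hsr : Fac (fun w => (L r w, N r w)) sr) (x : ℝ) (n : ℕ) :
    P.Pr (fun w => sr w ∧ ∃ k ≤ n, x ≤ lgr P N L Y r (r + k) w - ∑ i ∈ Ico r (r + k), ai P N L Y i w) ≤
      Real.exp (-x) * P.Pr sr := by
  set N' : ℕ → Om → κ := fun i => N (r + i) with hN'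
  set L' : ℕ → Om → lam := fun i => L (r + i) with hL'
  have fN : ∀ k, Fac (N' (k + 1)) (N' k) := fun k => hN (r + k)
  have fL : ∀ k, Fac (L' (k + 1)) (L' k) := fun k => hL (r + k)
  have fY : ∀ k, Fac (L' k) (L r) := fun k => by
    induction k with
    | zero => exact Fac.refl _
    | succ k ih => exact (fL k).trans ih
  have hNle : ∀ {i k : ℕ}, i ≤ k → Fac (N' k) (N' i) := fun {i k} hik => by
    induction k, hik using Nat.le_induction with
    | base => exact Fac.refl _
    | succ k _ ih => exact (fN k).trans ih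
  have hLle : ∀ {i k : ℕ}, i ≤ k → Fac (L' k) (L' i) := fun {i k} hik => by
    induction k, hik using Nat.le_induction with
    | base => exact Fac.refl _
    | succ k _ ih => exact (fL k).trans ih
  set Z : ℕ → Om → ℝ := fun k w => ind (sr w) * Real.exp (-∑ i ∈ range k, ai P N' L' (L r) i w) with hZ
  have fX : Filt fun k w => (L' k w, N' k w) := fun k a b hab => by
    have e1 := Prod.mk.inj (show (L' (k + 1) a, N' (k + 1) a) = (L' (k + 1) b, N' (k + 1) b) from hab)
    show (L' k a, N' k a) = (L' k b, N' k b)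
    rw [fL k a b e1.1, fN k a b e1.2]
  have hsum : ∀ k, Fac (fun w => (L' k w, N' k w)) (fun w => ∑ i ∈ range k, ai P N' L' (L r) i w) := fun k a b hab => by
    have e1 := Prod.mk.inj (show (L' k a, N' k a) = (L' k b, N' k b) from hab)
    refine Finset.sum_congr rfl fun i hi => ?_
    have hi2 : i < k := mem_range.1 hi
    refine ai_fac P fN fY i a b ?_
    show (L' i a, N' (i + 1) a) = (L' i b, N' (i + 1) b)
    rw [hLle hi2.le a b e1.1, hNle (Nat.succ_le_of_lt hi2) a b e1.2]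
  have hs0 : ∀ k, Fac (fun w => (L' k w, N' k w)) (fun w => ind (sr w)) := fun k => Fac.ind fun a b hab => by
    have e1 := Prod.mk.inj (show (L' k a, N' k a) = (L' k b, N' k b) from hab)
    rw [hsr a b (by
      show (L r a, N r a) = (L r b, N r b)
      rw [fY k a b e1.1]
      have := hNle (Nat.zero_le k) a b e1.2
      have e2 : N (r + 0) a = N (r + 0) b := this
      rw [Nat.add_zero] at e2
      rw [e2])]
  have hZf : ∀ k, Fac (fun w => (L' k w, N' k w)) (Z k) := fun k =>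
    (hs0 k).mul ((hsum k).comp fun x => Real.exp (-x))
  have h1 := P.doob_super (X := fun k w => (L' k w, N' k w)) fX (Z := Z) (s := fun _ _ => 0) hZf
    (fun k w _ => mul_nonneg (ind_nonneg _) (Real.exp_pos _).le) (fun _ _ _ => le_rfl) (fun k w hw => by
      have e1 : P.ce (fun w => (L' k w, N' k w)) (Z (k + 1)) w =
          Z k w * P.ce (fun w => (L' k w, N' k w)) (fun w => Real.exp (-ai P N' L' (L r) k w)) w := by
        rw [← P.ce_mul (hZf k)]
        refine P.ce_congr (fun u _ => ?_) w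
        show ind (sr u) * Real.exp (-∑ i ∈ range (k + 1), ai P N' L' (L r) i u) =
          ind (sr u) * Real.exp (-∑ i ∈ range k, ai P N' L' (L r) i u) * Real.exp (-ai P N' L' (L r) k u)
        rw [Finset.sum_range_succ, neg_add, Real.exp_add]
        ring
      have h2 := ce_exp_ai P fN fY k hw
      have h3 : 0 ≤ Z k w := mul_nonneg (ind_nonneg _) (Real.exp_pos _).le
      rw [e1]
      nlinarith) n (c := Real.exp x) (Real.exp_pos x).le
  have h2 : P.E (Z 0) = P.Pr sr := by
    refine P.E_congr fun w _ => ?_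
    show ind (sr w) * Real.exp (-∑ i ∈ range 0, ai P N' L' (L r) i w) = ind (sr w)
    rw [Finset.range_zero, Finset.sum_empty, neg_zero, Real.exp_zero, mul_one]
  have h3 : ∑ t ∈ range n, P.E (fun _ => (0 : ℝ)) = 0 := by
    rw [Finset.sum_congr rfl fun _ _ => P.E_const 0, Finset.sum_const_zero]
  rw [h2, h3, add_zero] at h1
  have h4 : P.Pr (fun w => sr w ∧ ∃ k ≤ n, x ≤ lgr P N L Y r (r + k) w - ∑ i ∈ Ico r (r + k), ai P N L Y i w) ≤
      P.Pr (fun w => ∃ t ≤ n, Real.exp x ≤ Z t w) := by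
    refine P.Pr_mono fun w hw hh => ?_
    obtain ⟨hs, k, hk, hx⟩ := hh
    refine ⟨k, hk, ?_⟩
    rw [ai_sum r k hw] at hx
    show Real.exp x ≤ ind (sr w) * Real.exp (-∑ i ∈ range k, ai P N' L' (L r) i w)
    rw [ind_of hs, one_mul]
    exact Real.exp_le_exp.2 (by linarith)
  rw [Real.exp_neg, inv_mul_eq_div, le_div_iff₀ (Real.exp_pos x), mul_comm]
  exact (mul_le_mul_of_nonneg_left h4 (Real.exp_pos x).le).trans h1

/-! ### the total -/

theorem st_ge {e : ℕ → Om → Prop} {k q : ℕ} {w : Om} (h : e k w) (hk : k < q) : k ≤ EpG.st e q w := by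
  induction q with
  | zero => omega
  | succ q ih =>
    by_cases h1 : e q w
    · rw [EpG.st_pos h1]
      omega
    · rw [EpG.st_neg h1]
      refine ih ?_
      rcases Nat.lt_or_ge k q with h2 | h2
      · exact h2
      · obtain rfl : k = q := by omega
        exact absurd h h1

theorem st_val {e : ℕ → Om → Prop} {q : ℕ} {w : Om} (h : EpG.st e q w ≠ 0) : e (EpG.st e q w) w := by
  induction q with
  | zero => exact absurd rfl h
  | succ q ih =>
    by_cases h1 : e q w
    · rw [EpG.st_pos h1]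
      exact h1
    · rw [EpG.st_neg h1] at h ⊢
      exact ih h

/-- every step is inside one stretch -/
theorem once_le {e e' : ℕ → Om → Prop} (hee : ∀ k w, e' k w → e k w) (k n : ℕ) (w : Om) :
    ∑ q ∈ range n, ind (e' q w ∧ EpG.st e q w ≤ k ∧ k < q) ≤ 1 := by
  refine (GhoC.sum_ind_le (range n) (fun q => e' q w ∧ EpG.st e q w ≤ k ∧ k < q) ?_).trans (ind_le_one _)
  rintro q _ q' _ hne ⟨h1, h2, h3⟩ ⟨h4, h5, h6⟩
  rcases Nat.lt_or_gt_of_ne hne with h7 | h7
  · have := st_ge (hee q w h1) h7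
    omega
  · have := st_ge (hee q' w h4) h7
    omega

/-- **TOTAL MASS OF THE OWN LETTERS WHICH HAVE GAINED** -/
theorem gain_total (hN : ∀ k, Fac (N (k + 1)) (N k)) (hL : ∀ k, Fac (L (k + 1)) (L k)) (hY : ∀ k, Fac (L k) Y)
    {e e' : ℕ → Om → Prop} (he : ∀ k, Fac (N k) (e k)) (hee : ∀ k w, e' k w → e k w) {sr : ℕ → Om → Prop}
    (hsr : ∀ r, Fac (fun w => (L r w, N r w)) (sr r)) {G x : ℝ} (hG : 2 ≤ G) (hx : 0 ≤ x) (n : ℕ) :
    ∑ q ∈ range (n + 1), P.Pr (fun w => e' q w ∧ ∃ r t, EpG.st e q w ≤ r ∧ r ≤ t ∧ t ≤ q ∧ sr r w ∧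
      2 * G + x < lgr P N L Y r t w) ≤
      (∑ k ∈ range n, P.E (ai P N L Y k)) / (G - 1) + Real.exp (-x) * ∑ r ∈ range (n + 1), P.Pr (sr r) := by
  classical
  set hit : ℕ → Om → Prop := fun k w => sk P N L Y e G (k + 1) w = k + 1 ∧
    G ≤ |∑ i ∈ Ico (sk P N L Y e G k w) (k + 1), ai P N L Y i w| with hhit
  set dev : ℕ → Om → Prop := fun r w => sr r w ∧ ∃ k ≤ n, x ≤ lgr P N L Y r (r + k) w -
    ∑ i ∈ Ico r (r + k), ai P N L Y i w with hdev
  -- one end
  have key : ∀ q ≤ n, ∀ w, (e' q w ∧ ∃ r t, EpG.st e q w ≤ r ∧ r ≤ t ∧ t ≤ q ∧ sr r w ∧ 2 * G + x < lgr P N L Y r t w) →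
      (∃ k < n, hit k w ∧ e' q w ∧ EpG.st e q w ≤ k ∧ k < q) ∨
        ∃ r < n + 1, dev r w ∧ e' q w ∧ EpG.st e q w ≤ r ∧ r < q := by
    rintro q hq w ⟨hq', r, t, h1, h2, h3, h4, h5⟩
    set a := EpG.st e q w with ha
    have hrq : r < q := by
      rcases Nat.lt_or_ge r q with h6 | h6
      · exact h6
      · obtain rfl : r = t := by omega
        rw [lgr_self] at h5
        linarith
    by_contra hcon
    rw [not_or] at hcon
    obtain ⟨c1, c2⟩ := hcon
    push Not at c1 c2
    have hska : sk P N L Y e G a w = a := by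
      by_cases h6 : a = 0
      · rw [h6]
        rfl
      · obtain ⟨a', ha'⟩ : ∃ a', a = a' + 1 := ⟨a - 1, by omega⟩
        have h7 : e a w := st_val h6
        rw [ha'] at h7 ⊢
        exact sk_pos (Or.inl h7)
    have hnoe : ∀ k, a < k → k < q → ¬ e k w := fun k h6 h7 h8 => by
      have := st_ge h8 h7
      omega
    have hnoh : ∀ k, a ≤ k → k + 1 ≤ q → ¬ hit k w := fun k h6 h7 h8 => by
      have := c1 k (by omega) h8 hq' h6
      omega
    have hsum : ∀ k, a ≤ k → k ≤ q → |∑ i ∈ Ico a k, ai P N L Y i w| < G := by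
      intro k h6 h7
      rcases Nat.eq_or_lt_of_le h6 with h8 | h8
      · rw [← h8, Finset.Ico_self, Finset.sum_empty, abs_zero]
        linarith
      · obtain ⟨k', rfl⟩ : ∃ k', k = k' + 1 := ⟨k - 1, by omega⟩
        by_contra h9
        have h10 : sk P N L Y e G k' w = a := sk_stay hska hnoe (fun k h11 h12 => hnoh k h11 h12) (by omega) (by omega)
        have h11 : G ≤ |∑ i ∈ Ico (sk P N L Y e G k' w) (k' + 1), ai P N L Y i w| := by
          rw [h10]
          exact not_lt.1 h9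
        exact hnoh k' (by omega) h7 ⟨sk_pos (Or.inr h11), h11⟩
    have h6 := abs_lt.1 (hsum r h1 hrq.le)
    have h7 := abs_lt.1 (hsum t (by omega) h3)
    have h8 := Finset.sum_Ico_consecutive (fun i => ai P N L Y i w) h1 h2
    obtain ⟨k, rfl⟩ : ∃ k, t = r + k := ⟨t - r, by omega⟩
    have h9 : dev r w := ⟨h4, k, by omega, by linarith⟩
    have := c2 r (by omega) h9 hq' h1
    omega
  -- sums
  have s1 : ∀ q ∈ range (n + 1), P.Pr (fun w => e' q w ∧ ∃ r t, EpG.st e q w ≤ r ∧ r ≤ t ∧ t ≤ q ∧ sr r w ∧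
      2 * G + x < lgr P N L Y r t w) ≤ P.E (fun w => ∑ k ∈ range n, ind (hit k w) * ind (e' q w ∧ EpG.st e q w ≤ k ∧ k < q) +
        ∑ r ∈ range (n + 1), ind (dev r w) * ind (e' q w ∧ EpG.st e q w ≤ r ∧ r < q)) := by
    intro q hq
    refine P.E_mono fun w _ => ?_
    have p1 : 0 ≤ ∑ k ∈ range n, ind (hit k w) * ind (e' q w ∧ EpG.st e q w ≤ k ∧ k < q) :=
      Finset.sum_nonneg fun _ _ => mul_nonneg (ind_nonneg _) (ind_nonneg _)
    have p2 : 0 ≤ ∑ r ∈ range (n + 1), ind (dev r w) * ind (e' q w ∧ EpG.st e q w ≤ r ∧ r < q) :=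
      Finset.sum_nonneg fun _ _ => mul_nonneg (ind_nonneg _) (ind_nonneg _)
    by_cases hK : e' q w ∧ ∃ r t, EpG.st e q w ≤ r ∧ r ≤ t ∧ t ≤ q ∧ sr r w ∧ 2 * G + x < lgr P N L Y r t w
    · rw [ind_of hK]
      rcases key q (Nat.lt_succ_iff.1 (mem_range.1 hq)) w hK with ⟨k, hk, h1, h2⟩ | ⟨r, hr, h1, h2⟩
      · have h3 := Finset.single_le_sum (f := fun k => ind (hit k w) * ind (e' q w ∧ EpG.st e q w ≤ k ∧ k < q))
          (fun _ _ => mul_nonneg (ind_nonneg _) (ind_nonneg _)) (mem_range.2 hk)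
        rw [ind_of h1, ind_of h2, one_mul] at h3
        linarith
      · have h3 := Finset.single_le_sum (f := fun r => ind (dev r w) * ind (e' q w ∧ EpG.st e q w ≤ r ∧ r < q))
          (fun _ _ => mul_nonneg (ind_nonneg _) (ind_nonneg _)) (mem_range.2 hr)
        rw [ind_of h1, ind_of h2, one_mul] at h3
        linarith
    · rw [ind_not hK]
      linarith
  have s2 : ∑ q ∈ range (n + 1), P.E (fun w => ∑ k ∈ range n, ind (hit k w) * ind (e' q w ∧ EpG.st e q w ≤ k ∧ k < q) +
      ∑ r ∈ range (n + 1), ind (dev r w) * ind (e' q w ∧ EpG.st e q w ≤ r ∧ r < q)) ≤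
      ∑ k ∈ range n, P.Pr (hit k) + ∑ r ∈ range (n + 1), P.Pr (dev r) := by
    rw [← P.E_sum]
    have e1 : ∑ k ∈ range n, P.Pr (hit k) + ∑ r ∈ range (n + 1), P.Pr (dev r) =
        P.E (fun w => ∑ k ∈ range n, ind (hit k w) + ∑ r ∈ range (n + 1), ind (dev r w)) := by
      rw [P.E_add, P.E_sum, P.E_sum]
      rfl
    rw [e1]
    refine P.E_mono fun w _ => ?_
    rw [Finset.sum_add_distrib, Finset.sum_comm, Finset.sum_comm (s := range (n + 1)) (t := range (n + 1))]
    refine add_le_add (Finset.sum_le_sum fun k _ => ?_) (Finset.sum_le_sum fun r _ => ?_)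
    · rw [← Finset.mul_sum]
      exact mul_le_of_le_one_right (ind_nonneg _) (once_le hee k (n + 1) w)
    · rw [← Finset.mul_sum]
      exact mul_le_of_le_one_right (ind_nonneg _) (once_le hee r (n + 1) w)
  refine (Finset.sum_le_sum s1).trans (s2.trans (add_le_add ?_ ?_))
  · have h1 := moves_c (P := P) (N := N) (L := L) (Y := Y) (st := sk P N L Y e G) hN hL hY (fun _ => rfl)
      (fun k w => sk_or e G k w) (fun k => sk_fac hN hL hY he G k) (δ := G) (c := G - 1) (fun y hy => phi_big hG hy) n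
    rw [le_div_iff₀ (by linarith), mul_comm]
    exact h1
  · rw [Finset.mul_sum]
    exact Finset.sum_le_sum fun r _ => down_le hN hL r (hsr r) x n

end abs

/-! ## the run -/

section run

open Pool.Agent.GM Pool.Agent.GM.Harm Pool.Agent.GMH Pool.Agent.GMH.GhoC
open Pool.Agent.GMH.PayT Pool.Agent.GMH.PayTs Pool.Agent.GMH.GhoX
open Pool.Agent.GMH.Dy (Om Tab)
open Pool.Agent.GMH.MVI (NPo XLo NPo_fac XLo_fac NPo_le XLo_le step_thin start_thin)
open Pool.Agent.GMH.CKB (cq sum_cq)

variable {X β γ φ υ : Type} [Fintype X] [Fintype β] [Fintype φ] [Nonempty X] [Nonempty β]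
variable {D : HD (Fin 3) X β γ φ} {al : ℝ} {h : D.Thick al} {prr : ℕ → Fin 3 → φ → φ} {T : ℕ} {W : Type} [Fintype W]
variable {tb : Tab D prr T W} {v : ℕ → Finset (Fin 3) → X → (Fin 3 → β) → υ} {j : Fin 3}

theorem XLo_pt (q : ℕ) : Fac (XLo tb v j q) (fun u : Om W X β => u.2.2 j) := fun _ _ e =>
  (Prod.mk.inj (show (_, _) = (_, _) from e)).1

/-- in the class of a state the hidden point and the known points are independent -/
theorem Qst_indep (hv : Codes D v) (q : ℕ) (w0 : Om W X β) :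
    (Qst tb v q w0).Indep (fun w => (w.1, w.2.1)) (fun w => w.2.2) := by
  have h1 := indep_cond2 (Ps_indep (tb := tb)) (A := fun u => Uq v q ∅ u.1 w0.2.2 = Uq v q ∅ w0.1 w0.2.2 ∧
      D.qa (TP.nn q) u.1 = D.qa (TP.nn q) w0.1) (B := fun u => ∀ i, D.qb (TP.nn q) (u.2.2 i) = D.qb (TP.nn q) (w0.2.2 i))
      (fun a b e => by
        have e1 := (Prod.mk.inj e).1
        show (_ ∧ _) = (_ ∧ _)
        rw [e1]) (fun a b e => by
        have e1 : a.2.2 = b.2.2 := e
        show (∀ i, _) = (∀ i, _)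
        rw [e1])
  have e : (fun u : Om W X β => NPo tb v q u = NPo tb v q w0) = fun u => ((Uq v q ∅ u.1 w0.2.2 =
      Uq v q ∅ w0.1 w0.2.2 ∧ D.qa (TP.nn q) u.1 = D.qa (TP.nn q) w0.1) ∧
        ∀ i, D.qb (TP.nn q) (u.2.2 i) = D.qb (TP.nn q) (w0.2.2 i)) := by
    funext u
    refine propext ?_
    rw [NPo_iff]
    constructor
    · rintro ⟨a, b, c⟩
      refine ⟨⟨?_, b⟩, c⟩
      rw [Uq_dep hv q ∅ _ _ u.2.2 (fun i hi => absurd hi (Finset.notMem_empty i)) fun i => (c i).symm]
      exact a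
    · rintro ⟨⟨a, b⟩, c⟩
      refine ⟨?_, b, c⟩
      rw [Uq_dep hv q ∅ _ _ u.2.2 (fun i hi => absurd hi (Finset.notMem_empty i)) fun i => (c i).symm] at a
      exact a
  unfold Qst
  rw [e]
  exact h1

/-- **class law of the own letter** : letter of the state `r`, class of the state `q` -/
theorem own_law (hv : Codes D v) {r q : ℕ} (hrq : r ≤ q) {w : Om W X β} (hw : tb.Ps.p w ≠ 0) :
    (Qst tb v q w).Pr (fun u => Uq v r {j} u.1 w.2.2 = Uq v r {j} w.1 w.2.2) =
      tb.Ps.m (fun u => (XLo tb v j r u, NPo tb v q u)) w / tb.Ps.m (fun u => (u.2.2 j, NPo tb v q u)) w := by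
  set P := tb.Ps with hP
  have hcl : P.Pr (fun u => NPo tb v q u = NPo tb v q w) ≠ 0 := (P.m_pos (NPo tb v q) hw).ne'
  have hne := (P.m_pos (fun u => (u.2.2 j, NPo tb v q u)) hw).ne'
  have h1 : P.m (fun u => (u.2.2 j, NPo tb v q u)) w = P.Pr (fun u => NPo tb v q u = NPo tb v q w) *
      (Qst tb v q w).Pr (fun u => u.2.2 j = w.2.2 j) := by
    have e7 : (Qst tb v q w).Pr (fun u => u.2.2 j = w.2.2 j) =
        P.E (fun u => ind (NPo tb v q u = NPo tb v q w) * ind (u.2.2 j = w.2.2 j)) /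
          P.Pr (fun u => NPo tb v q u = NPo tb v q w) := FP.cond_E hcl _
    rw [e7, mul_div_cancel₀ _ hcl]
    refine P.E_congr fun u _ => ?_
    rw [← ind_and]
    refine congrArg ind (propext ⟨fun e => ?_, fun e => ?_⟩)
    · have e1 := Prod.mk.inj (show (u.2.2 j, NPo tb v q u) = (w.2.2 j, NPo tb v q w) from e)
      exact ⟨e1.2, e1.1⟩
    · show (u.2.2 j, NPo tb v q u) = (w.2.2 j, NPo tb v q w)
      rw [e.1, e.2]
  have h2 : P.m (fun u => (XLo tb v j r u, NPo tb v q u)) w = P.Pr (fun u => NPo tb v q u = NPo tb v q w) *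
      ((Qst tb v q w).Pr (fun u => Uq v r {j} u.1 w.2.2 = Uq v r {j} w.1 w.2.2) *
        (Qst tb v q w).Pr (fun u => u.2.2 j = w.2.2 j)) := by
    have e4 := Qst_indep (tb := tb) hv q w (fun u => ind (Uq v r {j} u.1 w.2.2 = Uq v r {j} w.1 w.2.2))
      (fun u => ind (u.2.2 j = w.2.2 j)) (fun a b e => by
        have e5 := (Prod.mk.inj e).1
        show ind (Uq v r {j} a.1 w.2.2 = _) = ind (Uq v r {j} b.1 w.2.2 = _)
        rw [e5]) (fun a b e => by
        have e5 : a.2.2 = b.2.2 := e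
        show ind (a.2.2 j = _) = ind (b.2.2 j = _)
        rw [e5])
    have e6 : (Qst tb v q w).Pr (fun u => Uq v r {j} u.1 w.2.2 = Uq v r {j} w.1 w.2.2) *
        (Qst tb v q w).Pr (fun u => u.2.2 j = w.2.2 j) =
        (Qst tb v q w).E (fun u => ind (Uq v r {j} u.1 w.2.2 = Uq v r {j} w.1 w.2.2) * ind (u.2.2 j = w.2.2 j)) := e4.symm
    rw [e6]
    unfold Qst
    rw [FP.cond_E hcl, mul_div_cancel₀ _ hcl]
    refine P.E_congr fun u _ => ?_
    rw [← ind_and, ← ind_and]
    refine congrArg ind (propext ⟨fun e => ?_, fun e => ?_⟩)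
    · have e1 := Prod.mk.inj (show (XLo tb v j r u, NPo tb v q u) = (XLo tb v j r w, NPo tb v q w) from e)
      have e2 := Prod.mk.inj (show (u.2.2 j, Um v (TP.nc r {j}) {j} u.1 u.2.2) = (w.2.2 j, Um v (TP.nc r {j}) {j} w.1 w.2.2)
        from e1.1)
      have e3 := (NPo_iff.1 (NPo_le tb v hrq u w e1.2)).2.2
      refine ⟨e1.2, ?_, e2.1⟩
      rw [Uq_dep hv r {j} u.1 w.2.2 u.2.2 (fun i hi => by rw [Finset.mem_singleton.1 hi]; exact e2.1.symm) fun i => (e3 i).symm]
      exact e2.2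
    · obtain ⟨a, b, c⟩ := e
      have e3 := (NPo_iff.1 (NPo_le tb v hrq u w a)).2.2
      rw [Uq_dep hv r {j} u.1 w.2.2 u.2.2 (fun i hi => by rw [Finset.mem_singleton.1 hi]; exact c.symm) fun i => (e3 i).symm] at b
      show (XLo tb v j r u, NPo tb v q u) = (XLo tb v j r w, NPo tb v q w)
      rw [a]
      show ((u.2.2 j, Um v (TP.nc r {j}) {j} u.1 u.2.2), _) = ((w.2.2 j, Um v (TP.nc r {j}) {j} w.1 w.2.2), _)
      rw [c, show Um v (TP.nc r {j}) {j} u.1 u.2.2 = Um v (TP.nc r {j}) {j} w.1 w.2.2 from b]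
  have hne2 : (Qst tb v q w).Pr (fun u => u.2.2 j = w.2.2 j) ≠ 0 := fun hh => hne (by rw [h1, hh, mul_zero])
  rw [h1, h2]
  field_simp

/-- **the log ratio as a ratio of class laws** -/
theorem lgr_own (hv : Codes D v) {r t : ℕ} (hrt : r ≤ t) {w : Om W X β} (hw : tb.Ps.p w ≠ 0) {g : ℝ} :
    g < lgr tb.Ps (NPo tb v) (XLo tb v j) (fun u => u.2.2 j) r t w ↔
      Real.exp g * (Qst tb v r w).Pr (fun u => Uq v r {j} u.1 w.2.2 = Uq v r {j} w.1 w.2.2) <
        (Qst tb v t w).Pr (fun u => Uq v r {j} u.1 w.2.2 = Uq v r {j} w.1 w.2.2) := by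
  rw [own_law hv le_rfl hw, own_law hv hrt hw]
  have a1 := tb.Ps.m_pos (fun u => (XLo tb v j r u, NPo tb v r u)) hw
  have a2 := tb.Ps.m_pos (fun u => (u.2.2 j, NPo tb v r u)) hw
  have a3 := tb.Ps.m_pos (fun u => (XLo tb v j r u, NPo tb v t u)) hw
  have a4 := tb.Ps.m_pos (fun u => (u.2.2 j, NPo tb v t u)) hw
  have e1 : lgr tb.Ps (NPo tb v) (XLo tb v j) (fun u => u.2.2 j) r t w =
      Real.log (tb.Ps.m (fun u => (XLo tb v j r u, NPo tb v t u)) w / tb.Ps.m (fun u => (u.2.2 j, NPo tb v t u)) w) -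
        Real.log (tb.Ps.m (fun u => (XLo tb v j r u, NPo tb v r u)) w / tb.Ps.m (fun u => (u.2.2 j, NPo tb v r u)) w) := by
    rw [Real.log_div a3.ne' a4.ne', Real.log_div a1.ne' a2.ne']
    rfl
  rw [e1, lt_sub_iff_add_lt, ← Real.exp_lt_exp, Real.exp_add, Real.exp_log (div_pos a1 a2), Real.exp_log (div_pos a3 a4)]

/-- costs of the thin letter -/
theorem ai_run {X1 : ℝ} {n : ℕ} (hX1 : ∑ t ∈ range (n + 1), cst h v t {j} ≤ X1) :
    ∑ k ∈ range (5 * n), tb.Ps.E (ai tb.Ps (NPo tb v) (XLo tb v j) (fun u => u.2.2 j) k) ≤ X1 := by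
  have h1 := sum_ai tb.Ps (N := NPo tb v) (L := XLo tb v j) (Y := fun u => u.2.2 j) (fun k => XLo_pt k) (5 * n)
  refine h1.trans (le_trans ?_ hX1)
  have h2 : ∀ k ∈ range (5 * n), tb.Ps.E (bi tb.Ps (NPo tb v) (XLo tb v j) (fun u => u.2.2 j) k) ≤ cq h v k j := by
    intro k _
    rw [E_bi tb.Ps (XLo_fac tb j) k]
    refine (tb.Ps.Hc_anti _ ?_).trans (step_thin h tb k j)
    intro a b e
    have e1 := Prod.mk.inj (show (XLo tb v j k a, NPo tb v (k + 1) a) = (XLo tb v j k b, NPo tb v (k + 1) b) from e)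
    have e2 : a.2.2 j = b.2.2 j := XLo_pt k a b e1.1
    show (XLo tb v j k a, a.2.2 j, NPo tb v (k + 1) a) = (XLo tb v j k b, b.2.2 j, NPo tb v (k + 1) b)
    rw [e1.1, e1.2, e2]
  have h3 : tb.Ps.Hc (XLo tb v j 0) (fun w => (w.2.2 j, NPo tb v 0 w)) ≤ cst h v 0 {j} := start_thin h tb j
  have h4 := Finset.sum_le_sum h2
  rw [sum_cq] at h4
  rw [sum_range_succ']
  linarith

/-- **TOTAL MASS OF THE OWN LETTERS WHICH HAVE GAINED, run** : `e` = cuts (public removals, or all starts), `sr` = starts -/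
theorem gain_run (hv : Codes D v) {e e' : ℕ → Om W X β → Prop} (he : ∀ q, Fac (NPo tb v q) (e q))
    (hee : ∀ q w, e' q w → e q w) {sr : ℕ → Om W X β → Prop}
    (hsr : ∀ r, Fac (fun w => (XLo tb v j r w, NPo tb v r w)) (sr r)) {G x X1 : ℝ} (hG : 2 ≤ G) (hx : 0 ≤ x) {n : ℕ}
    (hX1 : ∑ t ∈ range (n + 1), cst h v t {j} ≤ X1) :
    ∑ q ∈ range (5 * n + 1), tb.Ps.Pr (fun w => e' q w ∧ ∃ r t, EpG.st e q w ≤ r ∧ r ≤ t ∧ t ≤ q ∧ sr r w ∧
      Real.exp (2 * G + x) * (Qst tb v r w).Pr (fun u => Uq v r {j} u.1 w.2.2 = Uq v r {j} w.1 w.2.2) <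
        (Qst tb v t w).Pr (fun u => Uq v r {j} u.1 w.2.2 = Uq v r {j} w.1 w.2.2)) ≤
      X1 / (G - 1) + Real.exp (-x) * ∑ r ∈ range (5 * n + 1), tb.Ps.Pr (sr r) := by
  have h1 := gain_total (P := tb.Ps) (N := NPo tb v) (L := XLo tb v j) (Y := fun u => u.2.2 j) (NPo_fac tb)
    (XLo_fac tb j) (fun k => XLo_pt k) he hee hsr hG hx (5 * n)
  refine le_trans (Finset.sum_le_sum fun q _ => tb.Ps.Pr_mono fun w hw hh => ?_) (h1.trans (add_le_add
    (div_le_div_of_nonneg_right (ai_run (h := h) hX1) (by linarith)) le_rfl))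
  obtain ⟨h2, r, t, h3, h4, h5, h6, h7⟩ := hh
  exact ⟨h2, r, t, h3, h4, h5, h6, (lgr_own hv h4 hw).2 h7⟩

end run

end

end Pool.Agent.GMH.ThK
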