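import Pool.Agent.GMH.PrvT
import Pool.Agent.GMH.AlvT
import Pool.Agent.GMH.RestA
import Pool.Agent.GMH.CntB
import Pool.Agent.GMH.TwoV

/-!
# GMH/ThrC (helper45): the tuples thrown away, numbers over `Ctx` (all families)

* `Lsq M q` : a listed tuple over the thin triple; `pub_C` : public removals with `Lsq`;
* `dying` : points which die in one step, disjoint; `prv_C` : private removals of `i` where the tuple has moved at `i` or another
  vertex has status.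
Every sum is at most `(pw Lam K)⁻¹`, every `K`, for all runs with large `c0`.
-/

set_option autoImplicit false
set_option linter.unusedSectionVars false

namespace Pool.Agent.GMH.RSA

open Finset Pool.Agent.PWZ Pool.Agent.M3 Pool.Agent.GM Pool.Agent.GM.Harm Pool.Agent.GMH Pool.Agent.GMH.NZ
open Pool.Agent.GMH.V3 Pool.Agent.GMH.TP Pool.Agent.GMH.TD Pool.Agent.GMH.Dy Pool.Agent.GMH.MV Pool.Agent.GMH.MVI
open Pool.Agent.GMH.UV Pool.Agent.GMH.KF Pool.Agent.GMH.TRF Pool.Agent.GMH.CX Pool.Agent.GMH.CTM Pool.Agent.GMH.MVT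

noncomputable section

/-- a listed tuple over the thin triple -/
def Lsq {Ωm : Type} [Fintype Ωm] (M : MS Ωm) (q : ℕ) (w : Ωm) : Prop :=
  0 < M.P.ce (TH M q) (fun u => ind (Lst M (nu M q w) q u)) w

/-- **PUBLIC REMOVALS WITH A LISTED TUPLE** -/
theorem pub_C (A ka K : ℕ) : AllC A (fun C => ∑ q ∈ range (5 * C.T), C.tb.Ps.Pr (fun w => ruO C.tb C.v q w ∧
    Lsq (C.M ka) q w) ≤ (pw C.Lam K)⁻¹) := by
  obtain ⟨m4, h4⟩ := MVN.thr_num A
  have hthr : Ev (fun c0 Lam => ∀ NL To q : ℝ, 0 < q → q ≤ Real.exp (-(MVN.pQ Lam c0 / 2)) →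
    NL ≤ 100 * (pw Lam c0 * pw Lam (c1F A c0) * Lam) → To ≤ 100 * (pw Lam c0 * Lam) → 0 ≤ NL → 0 ≤ To →
    2 / Real.log (1 / q) * (To + Real.sqrt q * NL) ≤ (pw Lam (6 * c0))⁻¹) := ⟨m4, h4⟩
  have n1 := AllC.of_Ev (A := A) ((hthr.and (Ev.ge K)).and ((d0_small A ka).and (scales A ka 16)))
  refine allc_mono n1 fun C hCA ⟨⟨ht, hc⟩, hd, hs⟩ => ?_
  subst hCA
  have hL := C.hL
  have hL0 : (0 : ℝ) < C.Lam := by linarith
  have q1 := MVN.pw_pos hL C.c0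
  have q2 := MVN.pw_pos hL (c1F C.A C.c0)
  have hk : MVN.d0 C.Lam C.c0 < Real.exp (-(4 * C.Lam)) := by
    have h1 := hd.1
    have h2 := Real.exp_pos (-MVN.pQ C.Lam C.c0)
    have h3 : MVN.d0 C.Lam C.c0 = Real.exp (-MVN.pQ C.Lam C.c0) := rfl
    rw [h3] at h1 ⊢
    linarith
  have h1 := PRT.pub_thr (C.d1_pos ka) (C.d1_le ka) (C.kb_pos ka) C.d0_pos C.d0_le C.d0_pos C.p1_pos (C.z_pos ka) C.n1 C.N11
    C.R C.H C.tb hk
  have e0 : Real.exp (-(4 * C.Lam)) / MVN.d0 C.Lam C.c0 = 1 / (MVN.d0 C.Lam C.c0 / Real.exp (-(4 * C.Lam))) := by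
    rw [one_div_div]
  have hq : MVN.d0 C.Lam C.c0 / Real.exp (-(4 * C.Lam)) ≤ Real.exp (-(MVN.pQ C.Lam C.c0 / 2)) := by
    unfold MVN.d0
    rw [← Real.exp_sub]
    refine Real.exp_le_exp.2 ?_
    have l := Lam_ell hL C.A (c0 := C.c0) (by omega)
    have o := one_ell hL C.A C.c0
    have s1 := hs.1
    have s2 := hs.2.1
    push_cast at s1 s2
    linarith
  have h2 := ht (6 * pw C.Lam C.c0 * pw C.Lam (c1F C.A C.c0) * C.Lam) (12 * pw C.Lam C.c0 * C.Lam)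
    (MVN.d0 C.Lam C.c0 / Real.exp (-(4 * C.Lam))) (div_pos C.d0_pos (Real.exp_pos _)) hq (by
      have : 0 ≤ pw C.Lam C.c0 * pw C.Lam (c1F C.A C.c0) * C.Lam := by positivity
      linarith) (by
      have : 0 ≤ pw C.Lam C.c0 * C.Lam := by positivity
      linarith) (by positivity) (by positivity)
  rw [e0] at h1
  exact h1.trans (h2.trans (ipw_mono hL (by omega)))

/-- points which leave a decreasing event, disjoint -/
theorem dying {Ωm : Type*} [Fintype Ωm] (P : FP Ωm) {B : ℕ → Ωm → Prop} (hB : ∀ q w, B (q + 1) w → B q w) (n : ℕ) :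
    ∑ q ∈ range n, P.Pr (fun w => B q w ∧ ¬ B (q + 1) w) ≤ P.Pr (fun w => ¬ B n w) := by
  have h1 : ∀ w, ∑ q ∈ range n, ind (B q w ∧ ¬ B (q + 1) w) ≤ ind (¬ B n w) := by
    intro w
    have h2 : ∀ m, ∑ q ∈ range m, ind (B q w ∧ ¬ B (q + 1) w) = ind (B 0 w) - ind (B m w) := by
      intro m
      induction m with
      | zero => simp
      | succ m ih =>
        rw [Finset.sum_range_succ, ih]
        by_cases g1 : B (m + 1) w
        · rw [ind_of g1, ind_of (hB m w g1), ind_not (fun hh : B m w ∧ ¬ B (m + 1) w => hh.2 g1)]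
          ring
        · by_cases g0 : B m w
          · rw [ind_not g1, ind_of g0, ind_of (⟨g0, g1⟩ : B m w ∧ ¬ B (m + 1) w)]
            ring
          · rw [ind_not g1, ind_not g0, ind_not (fun hh : B m w ∧ ¬ B (m + 1) w => g0 hh.1)]
            ring
    rw [h2]
    have h3 := ind_le_one (B 0 w)
    by_cases g : B n w
    · rw [ind_of g, ind_not (fun hh : ¬ B n w => hh g)]
      linarith
    · rw [ind_not g, ind_of g]
      linarith
  unfold FP.Pr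
  rw [← P.E_sum]
  exact P.E_mono fun w _ => h1 w

/-- the three vertices -/
theorem two_other (i : Fin 3) : ∃ k m : Fin 3, i ≠ k ∧ i ≠ m ∧ k ≠ m ∧ ∀ j : Fin 3, j = i ∨ j = k ∨ j = m := by
  revert i
  decide

/-- **PRIVATE REMOVALS OF `i`** : moved at `i`, or status of another vertex -/
theorem prv_C {A : ℕ} (hA : 80 ≤ A) (ka K : ℕ) : AllC A (fun C => ∀ i : Fin 3,
    ∑ q ∈ range (5 * C.T), C.tb.Ps.Pr (fun w => rpO C.tb C.v i q w ∧ Alv C.h C.v C.tb C.p q w ∧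
      (Mv (C.M ka) i q w ∨ ∃ c, c ≠ i ∧ sts (C.M ka) c q w)) ≤ (pw C.Lam K)⁻¹) := by
  have n1 := AllC.of_Ev (A := A) (((mv8r_num hA ka (K + 1)).and (ah0_num hA)).and ((z_side A ka).and (Ev.ge (K + 2))))
  refine allc_mono n1 fun C hCA ⟨⟨h1, h2⟩, hz, hc⟩ i => ?_
  subst hCA
  have hL := C.hL
  have hL0 : (0 : ℝ) < C.Lam := by linarith
  have q1 := MVN.pw_pos hL C.c0
  have q2 := MVN.pw_pos hL (c1F C.A C.c0)
  obtain ⟨k, m, hik, him, hkm, _⟩ := two_other i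
  have hX : C.p.X0 = pw C.Lam (cXF C.A C.c0) := rfl
  have hX0 : 0 ≤ C.p.X0 := by rw [hX]; exact (MVN.pw_pos hL _).le
  have hX1 : C.p.X0 ≤ pw C.Lam (cXF C.A C.c0 + 2) := by rw [hX]; exact MVN.pw_mono hL (by omega)
  have g1 := PRT.prv_thr (h := C.h) (C.d1_pos ka) (C.d1_le ka) (C.kb_pos ka) C.d0_pos C.d0_le C.d0_pos C.p1_pos (C.z_pos ka)
    C.n1 C.N11 C.R C.H C.tb hz.1 hik him hkm (L := C.p.X0) (a := 2 * C.p.X0 + pw C.Lam C.c0) (e := e0 C.Lam C.A C.c0) hX0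
    (MVN.pw_pos hL _)
  have g2 := h1 C.p.X0 hX0 hX1
  have g3 := h2 (6 * pw C.Lam C.c0 * C.Lam) (12 * pw C.Lam C.c0 * C.Lam) (by positivity) (by positivity) (by
      have a1 : 0 ≤ pw C.Lam C.c0 * C.Lam := by positivity
      have a2 := pw_one hL (c1F C.A C.c0)
      have a3 : pw C.Lam C.c0 * C.Lam ≤ pw C.Lam C.c0 * pw C.Lam (c1F C.A C.c0) * C.Lam := by nlinarith
      linarith) (by
      have : 0 ≤ pw C.Lam C.c0 * C.Lam := by positivity
      linarith)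
  have g4 := dying C.tb.Ps (B := Alv C.h C.v C.tb C.p) (fun q w hw r hr => hw r (hr.trans (Nat.le_succ q))) (5 * C.T)
  have g5 := g4.trans C.dead_le
  have key : ∑ q ∈ range (5 * C.T), C.tb.Ps.Pr (fun w => rpO C.tb C.v i q w ∧ Alv C.h C.v C.tb C.p q w ∧
      (Mv (C.M ka) i q w ∨ ∃ c, c ≠ i ∧ sts (C.M ka) c q w)) ≤
      ∑ s ∈ range (5 * C.T), C.tb.Ps.Pr (fun w => rpO C.tb C.v i s w ∧ MV8R.alq C.h C.v C.tb (s / 5) (s + 1) C.p.X0 i w ∧
      MV8R.alq C.h C.v C.tb (s / 5) s C.p.X0 k w ∧ (Mv (C.M ka) i s w ∨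
      ∃ c, c ≠ i ∧ hys (C.M ka) c (nu (C.M ka) s w) w)) +
      ∑ q ∈ range (5 * C.T), C.tb.Ps.Pr (fun w => Alv C.h C.v C.tb C.p q w ∧ ¬ Alv C.h C.v C.tb C.p (q + 1) w) := by
    rw [← Finset.sum_add_distrib]
    refine Finset.sum_le_sum fun q hq => le_trans (C.tb.Ps.Pr_mono fun w hw hh => ?_) (RZ.Pr_or C.tb.Ps _ _)
    obtain ⟨r1, r2, r3⟩ := hh
    have hq' := Finset.mem_range.1 hq
    have hq4 : q % 5 = 4 := r1.1
    by_cases hd : Alv C.h C.v C.tb C.p (q + 1) w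
    · left
      refine ⟨r1, ?_, ?_, r3⟩
      · exact MV8R.alq_ss C.tb (t := q / 5) (j := 5) (by omega) le_rfl (by omega) i (r := (q + 1) / 5) (by omega) hw
          ((hd (q + 1) le_rfl).1 i)
      · exact MV8R.alq_ss C.tb (t := q / 5) (j := 4) (by omega) (by omega) (by omega) k (r := q / 5) (by omega) hw
          ((r2 q le_rfl).1 k)
    · exact Or.inr ⟨r2, hd⟩
  refine key.trans ?_
  have e1 := ipw_mono (a := K + 1) (b := C.c0 + C.A) hL (by omega)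
  have e2 := ipw_mono (a := K + 2) (b := 60 * (C.c0 + C.A)) hL (by omega)
  have e3 := ipw_four hL (K + 1)
  have e4 := ipw_four hL K
  have e5 : (0 : ℝ) < (pw C.Lam (K + 1))⁻¹ := inv_pos.2 (MVN.pw_pos hL _)
  have e6 : 16 / e0 C.Lam C.A C.c0 * (1 + 6 * pw C.Lam C.c0 * C.Lam + 2 * (12 * pw C.Lam C.c0 * C.Lam)) =
      4 * (4 / e0 C.Lam C.A C.c0 * (1 + 6 * pw C.Lam C.c0 * C.Lam + 2 * (12 * pw C.Lam C.c0 * C.Lam))) := by ring
  have e7 : 4 * (4 / e0 C.Lam C.A C.c0 * (1 + 6 * pw C.Lam C.c0 * C.Lam + 2 * (12 * pw C.Lam C.c0 * C.Lam))) ≤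
      (pw C.Lam (K + 1))⁻¹ := by
    have e8 : K + 1 + 1 = K + 2 := by omega
    rw [e8] at e3
    linarith
  have g6 : ∑ s ∈ range (5 * C.T), C.tb.Ps.Pr (fun w => rpO C.tb C.v i s w ∧ MV8R.alq C.h C.v C.tb (s / 5) (s + 1) C.p.X0 i w ∧
      MV8R.alq C.h C.v C.tb (s / 5) s C.p.X0 k w ∧ (Mv (C.M ka) i s w ∨
      ∃ c, c ≠ i ∧ hys (C.M ka) c (nu (C.M ka) s w) w)) ≤ (pw C.Lam (K + 1))⁻¹ + (pw C.Lam (K + 1))⁻¹ := by
    refine g1.trans (add_le_add g2 ?_)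
    rw [← e6] at e7
    exact e7
  linarith

end

end Pool.Agent.GMH.RSA
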