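import Pool.Agent.GMH.ThrF0
import Pool.Agent.GMH.ConKC

/-!
# GMH/ThrF (helper45): THE THROWN SUMS OF THE FAMILY FULL (H3.MOV, M.7 - M.9), over `Ctx`, one set of thresholds for all families

* `CG C ka K c` : few removals near the thresholds `c`, three tops and the two tops of every vertex; **`cg_all`** : such `c` exist
  (`KcB R Lam c`, any `eF`);
* `Gd3` : what is known at a good removal; `gd3_of` : alive, at a removal, not `tw3`;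
* **`th_gen`** : any event `N` which implies alive at a removal, and with `Gd3` the event `Sx` (whose sum is small), has a small sum;
  **`tn_gen`** : the same with `Mv v` at the public start excluded, when both faces at `v` are active at public removals;
* **`thr3_C`** : the thrown sums `thO` (all kinds, any cost `L ≤ x^kL`); `thr2_cc` : the thrown sums of TWO for given `c`.
-/

set_option autoImplicit false
set_option linter.unusedSectionVars false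

namespace Pool.Agent.GMH.RSA

open Finset Pool.Agent.PWZ Pool.Agent.M3 Pool.Agent.GM Pool.Agent.GM.Harm Pool.Agent.GMH Pool.Agent.GMH.NZ
open Pool.Agent.GMH.V3 Pool.Agent.GMH.TP Pool.Agent.GMH.TD Pool.Agent.GMH.Dy Pool.Agent.GMH.MV Pool.Agent.GMH.MVI
open Pool.Agent.GMH.UV Pool.Agent.GMH.KF Pool.Agent.GMH.TRF Pool.Agent.GMH.CX Pool.Agent.GMH.CTM Pool.Agent.GMH.MVT
open Pool.Agent.GMH.PRF Pool.Agent.GMH.KDT Pool.Agent.GMH.KDTw

noncomputable section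

/-! ### one set of thresholds -/

/-- the removals of TWO near the thresholds of the two tops -/
def nr2 (C : Ctx) (ka : ℕ) (c : KC) (i : Fin 3) (q : ℕ) (w : C.O) : Prop :=
  (ruO C.tb C.v q w ∨ rpO C.tb C.v i q w) ∧ nrW (C.M ka) c i (xN C.Lam ka C.c0) q w

/-- **GOOD THRESHOLDS** -/
def CG (C : Ctx) (ka K : ℕ) (c : KC) : Prop :=
  ∑ q ∈ range (5 * C.T), C.tb.Ps.Pr (nr3 C ka c q) ≤ (pw C.Lam K)⁻¹ ∧
    ∀ i, ∑ q ∈ range (5 * C.T), C.tb.Ps.Pr (nr2 C ka c i q) ≤ (pw C.Lam K)⁻¹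

theorem CG.mono {C : Ctx} {ka K K' : ℕ} {c : KC} (h : CG C ka K c) (hK : K' ≤ K) : CG C ka K' c :=
  ⟨h.1.trans (ipw_mono C.hL hK), fun i => (h.2 i).trans (ipw_mono C.hL hK)⟩

/-- the removals of the key -/
def kyE (C : Ctx) (k : Option (Fin 3) × ℕ) (w : C.O) : Prop :=
  match k with
  | (Option.none, q) => ruO C.tb C.v q w ∨ ∃ i, rpO C.tb C.v i q w
  | (Option.some i, q) => ruO C.tb C.v q w ∨ rpO C.tb C.v i q w

/-- **GOOD THRESHOLDS EXIST** -/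
theorem cg_all (A ka K : ℕ) (R : CT.Rounds) : AllC A (fun C => ∀ (eF : ℝ), ∃ c : KC, c.eF = eF ∧ CT.KcB R C.Lam c ∧
    CG C ka K c) := by
  classical
  refine allc_mono (CTK.nr_all_K R A ka K) fun C hCA h1 eF => ?_
  subst hCA
  have hL := C.hL
  have hL0 : (0 : ℝ) < C.Lam := by linarith
  have r2 := C.nl ka
  have r3 := fun i => C.nlx ka i
  have r4 := C.nN_nn
  have e0 : pw C.Lam C.c0 * pw C.Lam (c1F C.A C.c0) * C.Lam = C.n * C.N1 * C.Lam := rfl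
  have r5 := rem_sum C.tb (v := C.v) (C.d1_pos ka) (C.d1_le ka) (C.kb_pos ka) C.d0_pos C.d0_le C.d0_pos C.p1_pos (C.z_pos ka)
    (5 * C.T)
  have r6 := fun i => rem_sum2 C.tb C.codes (C.d1_pos ka) (C.d1_le ka) (C.kb_pos ka) C.d0_pos C.d0_le C.d0_pos C.p1_pos
    (C.z_pos ka) i (5 * C.T)
  have s3 : ∑ i : Fin 3, NLx (C.M ka) i (5 * C.T) ≤ ∑ _i : Fin 3, 12 * C.n * C.N1 * C.Lam :=
    Finset.sum_le_sum fun i _ => r3 i
  rw [Finset.sum_const, Finset.card_univ, Fintype.card_fin, nsmul_eq_mul] at s3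
  push_cast at s3
  have t0 : ∑ q ∈ range (5 * C.T), C.tb.Ps.Pr (kyE C (Option.none, q)) ≤ 42 * (C.n * C.N1 * C.Lam) := by
    refine (le_trans (le_of_eq rfl) r5).trans ((add_le_add r2 s3).trans (le_of_eq ?_))
    ring
  have t1 : ∀ i, ∑ q ∈ range (5 * C.T), C.tb.Ps.Pr (kyE C (Option.some i, q)) ≤ 18 * (C.n * C.N1 * C.Lam) := fun i => by
    refine (le_trans (le_of_eq rfl) (r6 i)).trans ((add_le_add r2 (r3 i)).trans (le_of_eq ?_))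
    ring
  obtain ⟨c, g1, g2, g3⟩ := h1 ((univ : Finset (Option (Fin 3))) ×ˢ range (5 * C.T)) (kyE C) (fun k => k.2) (fun k => k.1) eF (by
    rw [Finset.sum_product, Fintype.sum_option, e0]
    have t2 := Finset.sum_le_sum fun (i : Fin 3) (_ : i ∈ univ) => t1 i
    rw [Finset.sum_const, Finset.card_univ, Fintype.card_fin, nsmul_eq_mul] at t2
    push_cast at t2
    linarith)
  refine ⟨c, g1, g2, ?_⟩
  rw [Finset.sum_product, Fintype.sum_option] at g3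
  have z0 : ∀ o : Option (Fin 3), 0 ≤ ∑ q ∈ range (5 * C.T), C.tb.Ps.Pr (fun w => kyE C (o, q) w ∧
      CTK.nrO (C.U ka).toMS c o (CTK.xT C.Lam ka C.c0) q w) := fun o => Finset.sum_nonneg fun q _ => FP.Pr_nonneg _ _
  have z1 := Finset.sum_nonneg fun (i : Fin 3) (_ : i ∈ univ) => z0 (some i)
  have z2 := z0 Option.none
  refine ⟨?_, fun i => ?_⟩
  · refine le_trans (le_of_eq rfl) (le_trans (le_add_of_nonneg_right z1) g3)
  · refine le_trans (le_trans (le_of_eq rfl) (Finset.single_le_sum (f := fun i : Fin 3 => ∑ q ∈ range (5 * C.T),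
      C.tb.Ps.Pr (fun w => kyE C (some i, q) w ∧ CTK.nrO (C.U ka).toMS c (some i) (CTK.xT C.Lam ka C.c0) q w))
      (fun i _ => z0 (some i)) (mem_univ i))) (le_trans (le_add_of_nonneg_left z2) g3)

/-! ### good removals of FULL -/

/-- what is known at a good removal of FULL -/
structure Gd3 (C : Ctx) (ka : ℕ) (c : KC) (S : Finset (Fin 3)) (bO : Fin 3 → ℕ → C.O → Prop) (zO : ℕ → C.O → Prop) (q : ℕ)
    (w : C.O) : Prop where
  hT : q / 5 ≤ C.T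
  alv : Alv C.h C.v C.tb C.p q w
  nr : ¬ nrT (C.M ka) c (xN C.Lam ka C.c0) q w
  lst : ruO C.tb C.v q w → ¬ Lsq (C.M ka) q w
  prv : ∀ i, rpO C.tb C.v i q w → ¬ Mv (C.M ka) i q w
  nst : ∀ i, ¬ sts (C.M ka) i q w
  pub : ruO C.tb C.v q w → ∀ i ∈ S, (bO i q w ∨ zO q w) → ¬ Mv (C.M ka) i (nu (C.M ka) q w) w

/-- the points of FULL, alive -/
abbrev aF (C : Ctx) (ka : ℕ) (Gd : ℕ → C.Q → Prop) : Fin 6 → ℕ → C.Q → Prop :=
  TP.aN C.h C.v C.p Gd (stP (C.M ka)) (spP C.h (C.M ka) C.v)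

/-- a removal -/
def rm3 (C : Ctx) (q : ℕ) (w : C.O) : Prop := (∃ i, rpO C.tb C.v i q w) ∨ ruO C.tb C.v q w

/-- alive letters at the public start -/
theorem alz_aF {C : Ctx} {ka : ℕ} {Gd : ℕ → C.Q → Prop} {q : ℕ} {w : C.O} (hw : C.tb.Ps.p w ≠ 0)
    (ha : aO C.tb (aF C ka Gd) q w) (hr : ruO C.tb C.v q w) :
    RZ.Alz C.h C.v (max C.p.X0 C.p.X1) (RZ.rho (nu (C.M ka) q w)) (C.tb.pt 0 w) :=
  alz_sR C.tb hr.1 hw (aT_aO C.tb (Or.inl hr.1) ha) (MV.nu_le (M := C.M ka) q w)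

/-- moved at `v` at the public start of a public removal of FULL -/
theorem mvU_of {C : Ctx} {ka : ℕ} {Gd : ℕ → C.Q → Prop} {q : ℕ} {w : C.O} (hw : C.tb.Ps.p w ≠ 0)
    (ha : aO C.tb (aF C ka Gd) q w) (hr : ruO C.tb C.v q w) (hl : ¬ Lsq (C.M ka) q w) {b : Fin 3}
    (hm : Mv (C.M ka) b (nu (C.M ka) q w) w) : mvU C ka b q w :=
  ⟨hr, hl, hm, fun i => nst_pub C.tb (C.d1_pos ka) (C.d1_le ka) (C.kb_pos ka) C.d0_pos C.d0_le C.d0_pos C.p1_pos (C.z_pos ka)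
    ha hr i, alz_aF hw ha hr⟩

/-- **GOOD, IF NOT THROWN** -/
theorem gd3_of {C : Ctx} {ka : ℕ} {Gd : ℕ → C.Q → Prop} {c : KC} {S : Finset (Fin 3)} {bO : Fin 3 → ℕ → C.O → Prop}
    {zO : ℕ → C.O → Prop} {q : ℕ} (hq : q < 5 * C.T) {w : C.O} (hw : C.tb.Ps.p w ≠ 0)
    (ha : aO C.tb (aF C ka Gd) q w) (hr : rm3 C q w) (hn : ¬ tw3 C ka c S bO zO q w) : Gd3 C ka c S bO zO q w := by
  have hT : q / 5 ≤ C.T := by omega
  unfold tw3 at hn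
  simp only [not_or] at hn
  obtain ⟨n1, n2, n3, n4⟩ := hn
  have hr' : ruO C.tb C.v q w ∨ ∃ i, rpO C.tb C.v i q w := hr.symm
  have hA : Alv C.h C.v C.tb C.p q w := by
    rcases hr with ⟨i, hi⟩ | hu
    · exact alv_aO C.tb hT hw ha (Or.inl hi)
    · exact alv_aO (i := 0) C.tb hT hw ha (Or.inr hu)
  refine ⟨hT, hA, fun h1 => n1 ⟨hr', h1⟩, fun h1 h2 => n2 ⟨h1, h2⟩, fun i h1 h2 => n3 ⟨i, h1, hA, Or.inl h2⟩, fun j h2 => ?_,
    fun h1 i hi hb h2 => n4 ⟨i, hi, mvU_of hw ha h1 (fun h3 => n2 ⟨h1, h3⟩) h2, hb⟩⟩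
  rcases hr with ⟨i, hi⟩ | hu
  · by_cases hj : j = i
    · subst hj
      exact nst_prv C.tb (C.d1_pos ka) (C.d1_le ka) (C.kb_pos ka) C.d0_pos C.d0_le C.d0_pos C.p1_pos (C.z_pos ka) hT ha hi h2
    · exact n3 ⟨i, hi, hA, Or.inr ⟨j, hj, h2⟩⟩
  · exact nst_pub C.tb (C.d1_pos ka) (C.d1_le ka) (C.kb_pos ka) C.d0_pos C.d0_le C.d0_pos C.p1_pos (C.z_pos ka) ha hu j h2

/-! ### the sums -/

/-- **THROWN EVENTS, GENERAL FORM** -/
theorem th_gen {A : ℕ} (hA : 80 ≤ A) (ka kT K : ℕ) : AllC A (fun C => ∀ c : KC, CG C ka (K + 3) c →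
    ∀ (S : Finset (Fin 3)) (bO : Fin 3 → ℕ → C.O → Prop) (zO : ℕ → C.O → Prop), BitT C.tb C.v S bO zO (pw C.Lam kT) →
    ∀ (Gd : ℕ → C.Q → Prop) (N Sx : ℕ → C.O → Prop),
    ∑ q ∈ range (5 * C.T), C.tb.Ps.Pr (Sx q) ≤ (pw C.Lam (K + 1))⁻¹ →
    (∀ q w, C.tb.Ps.p w ≠ 0 → N q w → aO C.tb (aF C ka Gd) q w ∧ rm3 C q w) →
    (∀ q w, C.tb.Ps.p w ≠ 0 → N q w → Gd3 C ka c S bO zO q w → Sx q w) →
    ∑ q ∈ range (5 * C.T), C.tb.Ps.Pr (N q) ≤ (pw C.Lam K)⁻¹) := by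
  refine allc_mono (tw3_C hA ka kT (K + 1)) fun C hCA h1 c hc S bO zO hB Gd N Sx hS hN hG => ?_
  subst hCA
  have hL := C.hL
  have t1 := h1 c hc.1 S bO zO hB
  have t2 := ipw_four hL K
  have t3 : (0 : ℝ) < (pw C.Lam (K + 1))⁻¹ := inv_pos.2 (MVN.pw_pos hL _)
  have key : ∀ q ∈ range (5 * C.T), C.tb.Ps.Pr (N q) ≤ C.tb.Ps.Pr (tw3 C ka c S bO zO q) + C.tb.Ps.Pr (Sx q) := fun q hq => by
    refine le_trans (C.tb.Ps.Pr_mono fun w hw hh => ?_) (C.tb.Ps.Pr_or_le _ _)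
    obtain ⟨a1, a2⟩ := hN q w hw hh
    by_cases h2 : tw3 C ka c S bO zO q w
    · exact Or.inl h2
    · exact Or.inr (hG q w hw hh (gd3_of (Finset.mem_range.1 hq) hw a1 a2 h2))
  refine (Finset.sum_le_sum key).trans ?_
  rw [Finset.sum_add_distrib]
  linarith

/-- **THROWN EVENTS WITH BOTH FACES AT `v` ACTIVE** -/
theorem tn_gen {A : ℕ} (hA : 80 ≤ A) (ka kT kE K : ℕ) : AllC A (fun C => ∀ c : KC, CG C ka (K + 4) c →
    ∀ (S : Finset (Fin 3)) (bO : Fin 3 → ℕ → C.O → Prop) (zO : ℕ → C.O → Prop), BitT C.tb C.v S bO zO (pw C.Lam kT) →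
    ∀ (v : Fin 3) (e : ℝ), CT.ix C.Lam kE ≤ e → e ≤ 1 →
    ∀ (Gd : ℕ → C.Q → Prop) (N Sx : ℕ → C.O → Prop),
    ∑ q ∈ range (5 * C.T), C.tb.Ps.Pr (Sx q) ≤ (pw C.Lam (K + 2))⁻¹ →
    (∀ q w, C.tb.Ps.p w ≠ 0 → N q w → aO C.tb (aF C ka Gd) q w ∧ rm3 C q w ∧
      (ruO C.tb C.v q w → ∀ j, j ≠ v → acO C.h C.tb C.v e j q w)) →
    (∀ q w, C.tb.Ps.p w ≠ 0 → N q w → Gd3 C ka c S bO zO q w →
      (ruO C.tb C.v q w → ¬ Mv (C.M ka) v (nu (C.M ka) q w) w) → Sx q w) →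
    ∑ q ∈ range (5 * C.T), C.tb.Ps.Pr (N q) ≤ (pw C.Lam K)⁻¹) := by
  refine allc_mono ((th_gen hA ka kT (K + 1)).and (ta3_C hA ka kE (K + 1))) fun C hCA ⟨h1, h2⟩ c hc S bO zO hB v e he he1
    Gd N Sx hS hN hG => ?_
  subst hCA
  have hL := C.hL
  have t1 := h2 v e he he1
  have t2 := ipw_four hL K
  have t3 : (0 : ℝ) < (pw C.Lam (K + 1))⁻¹ := inv_pos.2 (MVN.pw_pos hL _)
  have t4 := h1 c hc S bO zO hB Gd (fun q w => N q w ∧ ¬ ta3 C ka e v q w) Sx hS (fun q w hw hh => by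
    obtain ⟨a1, a2, _⟩ := hN q w hw hh.1
    exact ⟨a1, a2⟩) (fun q w hw hh hg => by
    obtain ⟨a1, a2, a3⟩ := hN q w hw hh.1
    exact hG q w hw hh.1 hg fun hu hm => hh.2 ⟨mvU_of hw a1 hu (hg.lst hu) hm, a3 hu⟩)
  have key : ∀ q ∈ range (5 * C.T), C.tb.Ps.Pr (N q) ≤ C.tb.Ps.Pr (ta3 C ka e v q) +
      C.tb.Ps.Pr (fun w => N q w ∧ ¬ ta3 C ka e v q w) := fun q _ => by
    refine le_trans (C.tb.Ps.Pr_mono fun w _ hh => ?_) (C.tb.Ps.Pr_or_le _ _)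
    by_cases h3 : ta3 C ka e v q w
    · exact Or.inl h3
    · exact Or.inr ⟨hh, h3⟩
  refine (Finset.sum_le_sum key).trans ?_
  rw [Finset.sum_add_distrib]
  linarith

/-- a kind at a removal with its bit -/
theorem btO_rm {C : Ctx} {bO : Fin 10 → Fin 3 → ℕ → C.O → Prop} {zO : Fin 10 → ℕ → C.O → Prop} {k : Fin 10} {q : ℕ} {w : C.O}
    (h : btO C.tb C.v bO zO k q w) : rm3 C q w := by
  rcases h with ⟨i, _, hi⟩ | hu
  · exact Or.inl ⟨i, hi.1⟩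
  · exact Or.inr hu.1

/-- **THE THROWN SUMS OF FULL** : released, not `gM`, with the bits; `gM` is any condition which holds at the good removals off
the events `Sx k` -/
theorem thr3_C {A : ℕ} (hA : 80 ≤ A) (ka kT kL K : ℕ) : AllC A (fun C => ∀ c : KC, CG C ka (kL + K + 5) c →
    ∀ (rk : Finset (Fin 10)) (bO : Fin 10 → Fin 3 → ℕ → C.O → Prop) (zO : Fin 10 → ℕ → C.O → Prop),
    (∀ k ∈ rk, BitT C.tb C.v (vk k) (bO k) (zO k) (pw C.Lam kT)) →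
    ∀ (Gd : ℕ → C.Q → Prop) (B : ℝ) (gM Sx : Fin 10 → ℕ → C.O → Prop),
    (∀ k ∈ rk, ∑ q ∈ range (5 * C.T), C.tb.Ps.Pr (Sx k q) ≤ (pw C.Lam (kL + K + 3))⁻¹) →
    (∀ k ∈ rk, ∀ q w, C.tb.Ps.p w ≠ 0 → thO C.h C.tb C.v c B (aF C ka Gd) bO zO gM k q w →
      Gd3 C ka c (vk k) (bO k) (zO k) q w → Sx k q w) →
    ∀ L : ℝ, 0 ≤ L → L ≤ pw C.Lam kL →
    L * ∑ k ∈ rk, ∑ q ∈ range (5 * C.T), C.tb.Ps.Pr (thO C.h C.tb C.v c B (aF C ka Gd) bO zO gM k q) ≤ CT.ix C.Lam K) := by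
  refine allc_mono (th_gen hA ka kT (kL + K + 2)) fun C hCA h1 c hc rk bO zO hB Gd B gM Sx hS hG L L0 L1 => ?_
  subst hCA
  have hL := C.hL
  have p0 : (0 : ℝ) ≤ (pw C.Lam (kL + K + 2))⁻¹ := (inv_pos.2 (MVN.pw_pos hL _)).le
  have s1 : 16 * (pw C.Lam (kL + K + 2))⁻¹ ≤ (pw C.Lam (kL + K))⁻¹ := by
    have h2 := ipw_four hL (kL + K)
    have h3 := ipw_four hL (kL + K + 1)
    have e1 : kL + K + 1 + 1 = kL + K + 2 := by omega
    rw [e1] at h3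
    linarith
  exact cost_ix hL L0 L1 (rk_sum (fun k hk => h1 c hc (vk k) (bO k) (zO k) (hB k hk) Gd
    (fun q => thO C.h C.tb C.v c B (aF C ka Gd) bO zO gM k q) (Sx k) (hS k hk)
    (fun q w _ hh => ⟨hh.1, btO_rm hh.2.2.2⟩) (hG k hk)) p0 s1)

end

end Pool.Agent.GMH.RSA
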