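import Pool.Agent.GMH.ThrT
import Pool.Agent.GMH.PRctx

/-!
# GMH/ThrF0 (helper45): the parts of the thrown sums of the family FULL (H3.MOV, M.7 - M.9), over `Ctx`

* `mvU C ka b q` : public removal, nothing listed over the thin triple, moved at `b` at the public start, no status, alive;
* `rest_U` : REST with two events `BC`, `BD`; `rest_bit` : the bit of `b` or of the zone (`BitT`); `rest_act` : the two faces at
  `b` are active;
* `near3_C` : thresholds `c` (`KcB R Lam c`) for the three tops, few removals near them;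
* `tw3` : the removals which are not good, `tw3_C` : their sum; `ta3` : moved at `v`, both faces at `v` active, `ta3_C`.
-/

set_option autoImplicit false
set_option linter.unusedSectionVars false

namespace Pool.Agent.GMH.RSA

open Finset Pool.Agent.PWZ Pool.Agent.M3 Pool.Agent.GM Pool.Agent.GM.Harm Pool.Agent.GMH Pool.Agent.GMH.NZ
open Pool.Agent.GMH.V3 Pool.Agent.GMH.TP Pool.Agent.GMH.TD Pool.Agent.GMH.Dy Pool.Agent.GMH.MV Pool.Agent.GMH.MVI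
open Pool.Agent.GMH.UV Pool.Agent.GMH.KF Pool.Agent.GMH.TRF Pool.Agent.GMH.CX Pool.Agent.GMH.CTM Pool.Agent.GMH.MVT
open Pool.Agent.GMH.PRF Pool.Agent.GMH.KDT

noncomputable section

/-- an event of the sight of `E` is seen with the points of `J`, `E` in `J` -/
theorem sgt_sees {X β γ φ : Type} [Fintype X] [Fintype β] [Fintype φ] [Nonempty X] [Nonempty β]
    {D : HD (Fin 3) X β γ φ} {prr : ℕ → Fin 3 → φ → φ} {T : ℕ} {W : Type} [Fintype W] (tb : Tab D prr T W)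
    {v : ℕ → Finset (Fin 3) → X → (Fin 3 → β) → Pt (Fin 3) X β φ} {E J : Finset (Fin 3)}
    (hE : E ⊆ J) {q : ℕ} (hq : q % 5 ≠ 0) {B : Om W X β → Prop} (hB : Fac (sgt D E (TP.nn q)) B) :
    Sees tb v J q B := by
  intro x y e
  have e1 : x.1 = y.1 := congrArg (fun t => t.1.1) e
  have e2 : PJ J (tb.pt 0 x) = PJ J (tb.pt 0 y) := congrArg (fun t => t.1.2.1) e
  have e3 : NPo tb v (q + 1) x = NPo tb v (q + 1) y := congrArg (fun t => t.1.2.2) e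
  have h2 : ((Um v (nc (q + 1) ∅) ∅ x.1 x.2.2, (D.qa (TP.nn (q + 1)) x.1, fun j => D.qb (TP.nn (q + 1)) (x.2.2 j))) :
      List (Pt (Fin 3) X β φ) × (γ × (Fin 3 → γ))) =
    (Um v (nc (q + 1) ∅) ∅ y.1 y.2.2, (D.qa (TP.nn (q + 1)) y.1, fun j => D.qb (TP.nn (q + 1)) (y.2.2 j))) := e3
  rw [MVIp.nn_code hq] at h2
  have h3 : ∀ j, D.qb (TP.nn q) (x.2.2 j) = D.qb (TP.nn q) (y.2.2 j) := fun j => congrFun (congrArg (fun t => t.2.2) h2) j
  exact hB x y (sgt_eq.2 ⟨e1, fun j hj => TD.PJ_iff.1 e2 j (hE hj), h3⟩)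

/-- two events -/
theorem sees_or {X β γ φ : Type} [Fintype X] [Fintype β] [Fintype φ] [Nonempty X] [Nonempty β]
    {D : HD (Fin 3) X β γ φ} {prr : ℕ → Fin 3 → φ → φ} {T : ℕ} {W : Type} [Fintype W] {tb : Tab D prr T W}
    {v : ℕ → Finset (Fin 3) → X → (Fin 3 → β) → Pt (Fin 3) X β φ} {J : Finset (Fin 3)} {q : ℕ} {B B' : Om W X β → Prop}
    (h1 : Sees tb v J q B) (h2 : Sees tb v J q B') (r : Prop) : Sees tb v J q (fun w => r ∧ (B w ∨ B' w)) := by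
  intro x y e
  show (r ∧ (B x ∨ B' x)) = (r ∧ (B y ∨ B' y))
  rw [h1 x y e, h2 x y e]

/-- moved at `b` at the public start of a public removal: nothing listed, no status, alive -/
def mvU (C : Ctx) (ka : ℕ) (b : Fin 3) (q : ℕ) (w : C.O) : Prop :=
  ruO C.tb C.v q w ∧ ¬ Lsq (C.M ka) q w ∧ Mv (C.M ka) b (nu (C.M ka) q w) w ∧ (∀ i, ¬ sts (C.M ka) i q w) ∧
    RZ.Alz C.h C.v (max C.p.X0 C.p.X1) (RZ.rho (nu (C.M ka) q w)) (C.tb.pt 0 w)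

/-- **REST IN FULL** -/
theorem rest_U {A : ℕ} (hA : 80 ≤ A) (ka kG K : ℕ) : AllC A (fun C => ∀ b c d : Fin 3, (∀ j : Fin 3, j = b ∨ j = c ∨ j = d) →
    b ≠ c → b ≠ d → c ≠ d → ∀ BC BD : ℕ → C.O → Prop, (∀ s, s % 5 ≠ 0 → Sees C.tb C.v {b, d} s (BC s)) →
    (∀ s, s % 5 ≠ 0 → Sees C.tb C.v {b, c} s (BD s)) →
    ∑ s ∈ range (5 * C.T), C.tb.Ps.Pr (fun w => lt5 (C.M ka) (NPo C.tb C.v) s w ∧ BC s w) ≤ pw C.Lam kG →
    ∑ s ∈ range (5 * C.T), C.tb.Ps.Pr (fun w => lt5 (C.M ka) (NPo C.tb C.v) s w ∧ BD s w) ≤ pw C.Lam kG →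
    ∑ s ∈ range (5 * C.T), C.tb.Ps.Pr (fun w => mvU C ka b s w ∧ BC s w ∧ BD s w) ≤ (pw C.Lam K)⁻¹) := by
  refine allc_mono (rest_C hA ka kG K) fun C hCA h1 b c d hall hbc hbd hcd BC BD hBC hBD sC sD => ?_
  subst hCA
  have hL := C.hL
  have hX : C.p.X0 = pw C.Lam (cXF C.A C.c0) := rfl
  have hX' : C.p.X1 = 3 * pw C.Lam (cXF C.A C.c0) := rfl
  have p0 := MVN.pw_pos hL (cXF C.A C.c0)
  have hm : max C.p.X0 C.p.X1 = 3 * pw C.Lam (cXF C.A C.c0) := by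
    rw [hX, hX']
    exact max_eq_right (by linarith)
  have h3 : 3 * pw C.Lam (cXF C.A C.c0) ≤ pw C.Lam (cXF C.A C.c0 + 2) := by
    rw [MVN.pw_add hL (cXF C.A C.c0) 2]
    have := MVN.pw_four hL 2
    norm_num at this
    nlinarith
  refine le_trans (Finset.sum_le_sum fun q _ => C.tb.Ps.Pr_mono fun w _ hh => ?_) (h1 b c d hall hbc hbd hcd
    BC BD hBC hBD sC sD (max C.p.X0 C.p.X1) (by rw [hm]; linarith) (by rw [hm]; exact h3))
  obtain ⟨⟨g1, g2, g3, g4, g5⟩, g6, g7⟩ := hh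
  exact ⟨ruO_lt C.tb (C.d1_pos ka) (C.d1_le ka) (C.kb_pos ka) C.d0_pos C.d0_le C.d0_pos C.p1_pos (C.z_pos ka) g1,
    ⟨g2, g3, g4 c, g4 d⟩, g5, g6, g7⟩

/-- **REST WITH THE BITS** : the bit of `b` or the zone -/
theorem rest_bit {A : ℕ} (hA : 80 ≤ A) (ka kT K : ℕ) : AllC A (fun C => ∀ (S : Finset (Fin 3)) (bO : Fin 3 → ℕ → C.O → Prop)
    (zO : ℕ → C.O → Prop), BitT C.tb C.v S bO zO (pw C.Lam kT) → ∀ b ∈ S,
    ∑ q ∈ range (5 * C.T), C.tb.Ps.Pr (fun w => mvU C ka b q w ∧ (bO b q w ∨ zO q w)) ≤ (pw C.Lam K)⁻¹) := by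
  refine allc_mono (rest_U hA ka (kT + 1) K) fun C hCA h1 S bO zO hB b hb => ?_
  subst hCA
  have hL := C.hL
  obtain ⟨c, d, hbc, hbd, hcd, hall⟩ := two_other b
  have sE : ∀ J : Finset (Fin 3), b ∈ J → ∀ s, s % 5 ≠ 0 → Sees C.tb C.v J s (fun w => s % 5 = 1 ∧ (bO b s w ∨ zO s w)) :=
    fun J hJ s hs => sees_or (sgt_sees C.tb (Finset.singleton_subset_iff.2 hJ) hs (hB.fb b hb s))
      (sgt_sees C.tb (Finset.empty_subset J) hs (hB.fz s)) _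
  have sS : ∑ s ∈ range (5 * C.T), C.tb.Ps.Pr (fun w => lt5 (C.M ka) (NPo C.tb C.v) s w ∧ s % 5 = 1 ∧
      (bO b s w ∨ zO s w)) ≤ pw C.Lam (kT + 1) := by
    refine le_trans (Finset.sum_le_sum fun s _ => ?_) ((le_of_eq Finset.sum_add_distrib).trans
      (two_kG hL (hB.nb b hb) hB.nz))
    refine (C.tb.Ps.Pr_mono fun w _ hh => ?_).trans (C.tb.Ps.Pr_or_le _ _)
    obtain ⟨g1, g2, g3⟩ := hh
    have g4 : ruO C.tb C.v s w := ⟨g2, g1.2⟩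
    exact g3.imp (fun g => ⟨Or.inr g4, g⟩) fun g => ⟨g4, g⟩
  refine le_trans (Finset.sum_le_sum fun q _ => C.tb.Ps.Pr_mono fun w _ hh => ?_)
    (h1 b c d hall hbc hbd hcd (fun s w => s % 5 = 1 ∧ (bO b s w ∨ zO s w)) (fun s w => s % 5 = 1 ∧ (bO b s w ∨ zO s w))
      (sE {b, d} (mem_insert_self _ _)) (sE {b, c} (mem_insert_self _ _)) sS sS)
  exact ⟨hh.1, ⟨hh.1.1.1, hh.2⟩, hh.1.1.1, hh.2⟩

/-- numbers of the activity -/
theorem act_num {Lam : ℝ} (hL : 2 ≤ Lam) {e : ℝ} {kE : ℕ} (he : CT.ix Lam kE ≤ e) : 240 * Lam / e ^ 2 ≤ pw Lam (2 * kE + 5) := by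
  have h0 : 0 < CT.ix Lam kE := CT.ix_pos hL _
  have h1 : 0 < pw Lam kE := MVN.pw_pos hL _
  have h2 : 1 ≤ pw Lam kE * e := by
    have h3 : pw Lam kE * CT.ix Lam kE ≤ pw Lam kE * e := mul_le_mul_of_nonneg_left he h1.le
    have h4 : pw Lam kE * CT.ix Lam kE = 1 := by
      unfold CT.ix
      exact mul_inv_cancel₀ h1.ne'
    linarith
  have he0 : 0 < e := lt_of_lt_of_le h0 he
  rw [div_le_iff₀ (by positivity), show 2 * kE + 5 = kE + kE + 5 by omega, MVN.pw_add hL (kE + kE) 5, MVN.pw_add hL kE kE]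
  have h5 : 240 * Lam ≤ pw Lam 5 := by
    have e5 : pw Lam 5 = pw Lam 4 * (2 * Lam) := by unfold pw; ring
    have h6 := MVN.pw_four hL 4
    norm_num at h6
    rw [e5]
    nlinarith
  have h7 : 1 ≤ (pw Lam kE * e) ^ 2 := one_le_pow₀ h2
  have h8 : 0 < pw Lam 5 := MVN.pw_pos hL _
  calc 240 * Lam ≤ pw Lam 5 * 1 := by linarith
    _ ≤ pw Lam 5 * (pw Lam kE * e) ^ 2 := mul_le_mul_of_nonneg_left h7 h8.le
    _ = pw Lam kE * pw Lam kE * pw Lam 5 * e ^ 2 := by ring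

/-- **REST WITH THE ACTIVITY** : both faces at `b` are active -/
theorem rest_act {A : ℕ} (hA : 80 ≤ A) (ka kE K : ℕ) : AllC A (fun C => ∀ b c d : Fin 3,
    b ≠ c → b ≠ d → c ≠ d → ∀ e : ℝ, CT.ix C.Lam kE ≤ e → e ≤ 1 →
    ∑ q ∈ range (5 * C.T), C.tb.Ps.Pr (fun w => mvU C ka b q w ∧ acO C.h C.tb C.v e c q w ∧ acO C.h C.tb C.v e d q w) ≤
      (pw C.Lam K)⁻¹) := by
  refine allc_mono (rest_U hA ka (2 * kE + 5) K) fun C hCA h1 b c d hbc hbd hcd e he he1 => ?_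
  subst hCA
  have hL := C.hL
  have hall : ∀ b c d : Fin 3, b ≠ c → b ≠ d → c ≠ d → ∀ j : Fin 3, j = b ∨ j = c ∨ j = d := by decide
  have h0 : 0 < e := lt_of_lt_of_le (CT.ix_pos hL kE) he
  have sS : ∀ j, ∑ s ∈ range (5 * C.T), C.tb.Ps.Pr (fun w => lt5 (C.M ka) (NPo C.tb C.v) s w ∧
      acO C.h C.tb C.v e j s w) ≤ pw C.Lam (2 * kE + 5) := fun j =>
    (Finset.sum_le_sum fun s _ => C.tb.Ps.Pr_mono fun w _ hh => hh.2).trans
      ((acO_sum C.h C.tb C.H C.R C.n1 C.N11 j h0 he1).trans (act_num hL he))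
  exact h1 b c d (hall b c d hbc hbd hcd) hbc hbd hcd (fun s => acO C.h C.tb C.v e c s) (fun s => acO C.h C.tb C.v e d s)
    (fun s hs => yt_sees C.tb (hall b c d hbc hbd hcd) hs fun x y hxy => propext (acO_Y C.h C.tb C.codes e c s x y hxy))
    (fun s hs => yt_sees C.tb (hall b d c hbd hbc hcd.symm) hs fun x y hxy => propext (acO_Y C.h C.tb C.codes e d s x y hxy))
    (sS c) (sS d)

/-! ### thresholds -/

/-- the removals near the thresholds of the three tops -/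
def nr3 (C : Ctx) (ka : ℕ) (c : KC) (q : ℕ) (w : C.O) : Prop :=
  (ruO C.tb C.v q w ∨ ∃ i, rpO C.tb C.v i q w) ∧ nrT (C.M ka) c (xN C.Lam ka C.c0) q w

/-- **GOOD THRESHOLDS** for the three tops -/
theorem near3_C (A ka K : ℕ) (R : CT.Rounds) : AllC A (fun C => ∀ (eF : ℝ), ∃ c : KC, c.eF = eF ∧
    c.eS = CT.ix C.Lam R.ks ∧ CT.KcB R C.Lam c ∧ ∑ q ∈ range (5 * C.T), C.tb.Ps.Pr (nr3 C ka c q) ≤ (pw C.Lam K)⁻¹) := by
  have n1 := AllC.of_Ev (A := A) ((nr_num A ka).and ((Ev.ge (R.eta1 + R.eta2)).and (Ev.ge (R.eta3 + R.kd + K))))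
  refine allc_mono n1 fun C hCA ⟨⟨m1, m2, m3⟩, c1, c2⟩ eF => ?_
  subst hCA
  have hL := C.hL
  have hL0 : (0 : ℝ) < C.Lam := by linarith
  have ile : ∀ k, k ≤ 40 * (c1F C.A C.c0 + C.c0) → (pw C.Lam (40 * (c1F C.A C.c0 + C.c0)))⁻¹ ≤ CT.ix C.Lam k := fun k hk =>
    ipw_mono hL hk
  have ip : ∀ k, 0 < CT.ix C.Lam k := fun k => CT.ix_pos hL k
  have x0 : 0 ≤ xN C.Lam ka C.c0 := by
    have a1 := C.d1_pos ka
    have a2 := C.d0_pos
    unfold xN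
    positivity
  obtain ⟨c, h1, h2, h3, h4, h5, h6, h7⟩ := nrT_thr (M := C.M ka) (range (5 * C.T))
    (fun q w => ruO C.tb C.v q w ∨ ∃ i, rpO C.tb C.v i q w) id (CT.kc0 R C.Lam eF) (ip _) (ip _) (ip _) (ip _) m1 x0
    (m2.trans (ile _ (by omega))) (m2.trans (ile _ (by omega))) (m2.trans (ile _ (by omega))) (m2.trans (ile _ (by omega)))
  refine ⟨c, h1, h2, CT.KcB.of_thr hL h2 h3 h4 h5 h6, ?_⟩
  refine h7.trans ?_
  have r1 := rem_sum C.tb (v := C.v) (C.d1_pos ka) (C.d1_le ka) (C.kb_pos ka) C.d0_pos C.d0_le C.d0_pos C.p1_pos (C.z_pos ka)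
    (5 * C.T)
  have r2 := C.nl ka
  have r3 : ∑ i : Fin 3, NLx (C.M ka) i (5 * C.T) ≤ ∑ _i : Fin 3, 12 * C.n * C.N1 * C.Lam :=
    Finset.sum_le_sum fun i _ => C.nlx ka i
  rw [Finset.sum_const, Finset.card_univ, Fintype.card_fin, nsmul_eq_mul] at r3
  push_cast at r3
  have r4 := C.nN_nn
  have e0 : pw C.Lam C.c0 * pw C.Lam (c1F C.A C.c0) * C.Lam = C.n * C.N1 * C.Lam := rfl
  have r5 : ∑ q ∈ range (5 * C.T), (C.M ka).P.Pr (fun w => ruO C.tb C.v q w ∨ ∃ i, rpO C.tb C.v i q w) ≤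
      100 * (pw C.Lam C.c0 * pw C.Lam (c1F C.A C.c0) * C.Lam) := by
    rw [e0]
    refine r1.trans ?_
    have r6 := add_le_add r2 r3
    refine r6.trans ?_
    linarith
  exact (m3 _ (Finset.sum_nonneg fun q _ => FP.Pr_nonneg _ _) r5).trans (ipw_mono hL (by omega))

/-! ### the removals which are not good -/

/-- not good: near a threshold, public with a listed tuple, private with a move or a status, public with a move at a vertex whose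
bit (or the zone) is taken -/
def tw3 (C : Ctx) (ka : ℕ) (c : KC) (S : Finset (Fin 3)) (bO : Fin 3 → ℕ → C.O → Prop) (zO : ℕ → C.O → Prop) (q : ℕ)
    (w : C.O) : Prop :=
  nr3 C ka c q w ∨ (ruO C.tb C.v q w ∧ Lsq (C.M ka) q w) ∨
    (∃ i, rpO C.tb C.v i q w ∧ Alv C.h C.v C.tb C.p q w ∧ (Mv (C.M ka) i q w ∨ ∃ c, c ≠ i ∧ sts (C.M ka) c q w)) ∨
    (∃ b, b ∈ S ∧ mvU C ka b q w ∧ (bO b q w ∨ zO q w))

theorem Pr_ex3 {Ωm : Type*} [Fintype Ωm] (P : FP Ωm) (B : Fin 3 → Ωm → Prop) :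
    P.Pr (fun w => ∃ i, B i w) ≤ ∑ i, P.Pr (B i) := by
  unfold FP.Pr
  rw [← FP.E_sum]
  refine P.E_mono fun w _ => ?_
  by_cases hex : ∃ i, B i w
  · obtain ⟨i, hi⟩ := hex
    exact (ind_le_one _).trans (le_trans (le_of_eq (ind_of hi).symm)
      (Finset.single_le_sum (f := fun i => ind (B i w)) (fun _ _ => ind_nonneg _) (mem_univ i)))
  · rw [ind_not hex]
    exact Finset.sum_nonneg fun _ _ => ind_nonneg _

/-- three sums -/
theorem sum_ex3 {Ωm : Type*} [Fintype Ωm] (P : FP Ωm) (n : ℕ) (B : Fin 3 → ℕ → Ωm → Prop) {x : ℝ}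
    (hB : ∀ i, ∑ q ∈ range n, P.Pr (B i q) ≤ x) : ∑ q ∈ range n, P.Pr (fun w => ∃ i, B i q w) ≤ 3 * x := by
  refine (Finset.sum_le_sum fun q _ => Pr_ex3 P fun i => B i q).trans ?_
  rw [Finset.sum_comm]
  refine (Finset.sum_le_sum fun i _ => hB i).trans (le_of_eq ?_)
  rw [Finset.sum_const, Finset.card_univ, Fintype.card_fin, nsmul_eq_mul]
  push_cast
  ring

/-- **THE REMOVALS WHICH ARE NOT GOOD** -/
theorem tw3_C {A : ℕ} (hA : 80 ≤ A) (ka kT K : ℕ) : AllC A (fun C => ∀ c : KC,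
    ∑ q ∈ range (5 * C.T), C.tb.Ps.Pr (nr3 C ka c q) ≤ (pw C.Lam (K + 2))⁻¹ →
    ∀ (S : Finset (Fin 3)) (bO : Fin 3 → ℕ → C.O → Prop) (zO : ℕ → C.O → Prop), BitT C.tb C.v S bO zO (pw C.Lam kT) →
    ∑ q ∈ range (5 * C.T), C.tb.Ps.Pr (tw3 C ka c S bO zO q) ≤ (pw C.Lam K)⁻¹) := by
  refine allc_mono ((prv_C hA ka (K + 2)).and ((pub_C A ka (K + 2)).and (rest_bit hA ka kT (K + 2))))
    fun C hCA ⟨h1, h2, h3⟩ c hc S bO zO hB => ?_
  subst hCA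
  have hL := C.hL
  have p0 : (0 : ℝ) < (pw C.Lam (K + 2))⁻¹ := inv_pos.2 (MVN.pw_pos hL _)
  have s1 : ∀ q ∈ range (5 * C.T), C.tb.Ps.Pr (tw3 C ka c S bO zO q) ≤ C.tb.Ps.Pr (nr3 C ka c q) +
      (C.tb.Ps.Pr (fun w => ruO C.tb C.v q w ∧ Lsq (C.M ka) q w) +
      (C.tb.Ps.Pr (fun w => ∃ i, rpO C.tb C.v i q w ∧ Alv C.h C.v C.tb C.p q w ∧
        (Mv (C.M ka) i q w ∨ ∃ c, c ≠ i ∧ sts (C.M ka) c q w)) +
      C.tb.Ps.Pr (fun w => ∃ b, b ∈ S ∧ mvU C ka b q w ∧ (bO b q w ∨ zO q w)))) := fun q _ =>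
    (RZ.Pr_or C.tb.Ps _ _).trans (add_le_add le_rfl ((RZ.Pr_or C.tb.Ps _ _).trans (add_le_add le_rfl
      (RZ.Pr_or C.tb.Ps _ _))))
  refine ipw_sum hL K ((Finset.sum_le_sum s1).trans ?_)
  rw [Finset.sum_add_distrib, Finset.sum_add_distrib, Finset.sum_add_distrib]
  have t3 := sum_ex3 C.tb.Ps (5 * C.T) (fun i q w => rpO C.tb C.v i q w ∧ Alv C.h C.v C.tb C.p q w ∧
        (Mv (C.M ka) i q w ∨ ∃ c, c ≠ i ∧ sts (C.M ka) c q w)) (fun i => h1 i)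
  have t4 := sum_ex3 C.tb.Ps (5 * C.T) (fun b q w => b ∈ S ∧ mvU C ka b q w ∧ (bO b q w ∨ zO q w))
    (x := (pw C.Lam (K + 2))⁻¹) (fun b => by
      by_cases hb : b ∈ S
      · exact (Finset.sum_le_sum fun q _ => C.tb.Ps.Pr_mono fun w _ hh => hh.2).trans (h3 S bO zO hB b hb)
      · refine le_trans (le_of_eq (Finset.sum_eq_zero fun q _ => ?_)) p0.le
        unfold FP.Pr
        refine (C.tb.Ps.E_congr fun w _ => ind_not fun hh => hb hh.1).trans ?_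
        unfold FP.E
        simp)
  linarith

/-- moved at `v`, both faces at `v` active -/
def ta3 (C : Ctx) (ka : ℕ) (e : ℝ) (v : Fin 3) (q : ℕ) (w : C.O) : Prop :=
  mvU C ka v q w ∧ ∀ j, j ≠ v → acO C.h C.tb C.v e j q w

/-- **MOVED AT `v`, BOTH FACES ACTIVE** -/
theorem ta3_C {A : ℕ} (hA : 80 ≤ A) (ka kE K : ℕ) : AllC A (fun C => ∀ (v : Fin 3) (e : ℝ), CT.ix C.Lam kE ≤ e → e ≤ 1 →
    ∑ q ∈ range (5 * C.T), C.tb.Ps.Pr (ta3 C ka e v q) ≤ (pw C.Lam K)⁻¹) := by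
  refine allc_mono (rest_act hA ka kE K) fun C hCA h1 v e he he1 => ?_
  obtain ⟨c, d, hbc, hbd, hcd, _⟩ := two_other v
  exact (Finset.sum_le_sum fun q _ => C.tb.Ps.Pr_mono fun w _ hh => ⟨hh.1, hh.2 c hbc.symm, hh.2 d hbd.symm⟩).trans
    (h1 v c d hbc hbd hcd e he he1)

end

end Pool.Agent.GMH.RSA
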