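import Pool.Agent.GMH.ThrF

/-!
# GMH/ThrG (helper45): the thrown sums of TWO for the thresholds `c` of `GMH/ThrF` (one `c` for all families)

* `bd2_cc` : alive, at a removal of TWO, not good (`gM2`), for every `c` with `CG`; **`thr2_cc`** : the sums of `thO2` and `tnO2`;
* `bd2_ge` : any event of the points of TWO at a removal, which with `gM2` implies `Sx`.
-/

set_option autoImplicit false
set_option linter.unusedSectionVars false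

namespace Pool.Agent.GMH.RSA

open Finset Pool.Agent.PWZ Pool.Agent.M3 Pool.Agent.GM Pool.Agent.GM.Harm Pool.Agent.GMH Pool.Agent.GMH.NZ
open Pool.Agent.GMH.V3 Pool.Agent.GMH.TP Pool.Agent.GMH.TD Pool.Agent.GMH.Dy Pool.Agent.GMH.MV Pool.Agent.GMH.MVI
open Pool.Agent.GMH.UV Pool.Agent.GMH.KF Pool.Agent.GMH.TRF Pool.Agent.GMH.CX Pool.Agent.GMH.CTM Pool.Agent.GMH.MVT
open Pool.Agent.GMH.PRF Pool.Agent.GMH.KDT Pool.Agent.GMH.KDTw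

noncomputable section

/-- the good tuples of TWO over `Ctx` -/
abbrev gM2C (C : Ctx) (ka : ℕ) (c : KC) (i : Fin 3) (al0 : ℕ → C.O → Prop) (q : ℕ) (w : C.O) : Prop :=
  gM2 C.tb (v := C.v) (C.d1_pos ka) (C.d1_le ka) (C.kb_pos ka) C.d0_pos C.d0_le C.d0_pos C.p1_pos (C.z_pos ka) c i al0 q w

/-- the points of TWO -/
abbrev aW (C : Ctx) (ka : ℕ) (Gd : ℕ → C.Q → Prop) (i : Fin 3) : Bool → ℕ → C.Q → Prop :=
  TP.aV C.h C.v C.p Gd (stP (C.M ka)) (spP C.h (C.M ka) C.v) i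

/-- **THE BAD TUPLES OF TWO**, given thresholds -/
theorem bd2_cc {A : ℕ} (hA : 80 ≤ A) (ka K : ℕ) : AllC A (fun C => ∀ c : KC, CG C ka (K + 2) c →
    ∀ (i : Fin 3) (Gd : ℕ → C.Q → Prop) (al0 : ℕ → C.O → Prop),
      (∀ q w, C.tb.Ps.p w ≠ 0 → Alv C.h C.v C.tb C.p q w → al0 q w) →
      ∑ q ∈ range (5 * C.T), C.tb.Ps.Pr (bd2 C ka Gd c i al0 q) ≤ (pw C.Lam K)⁻¹) := by
  refine allc_mono ((prv_C hA ka (K + 2)).and (((pub_C A ka (K + 2)).and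
    (two_v hA ka (K + 2) (n0_all A ka))).and (rest_T hA ka (K + 2)))) fun C hCA ⟨h1, ⟨h3, h4⟩, h5⟩ c hc i Gd al0 h0 => ?_
  subst hCA
  have hL := C.hL
  obtain ⟨k, m, hik, him, hkm, hall⟩ := two_other i
  have g4 := hc.2 i
  have s1 : ∀ q ∈ range (5 * C.T), C.tb.Ps.Pr (bd2 C ka Gd c i al0 q) ≤
      C.tb.Ps.Pr (fun w => rpO C.tb C.v i q w ∧ Alv C.h C.v C.tb C.p q w ∧
        (Mv (C.M ka) i q w ∨ ∃ c, c ≠ i ∧ sts (C.M ka) c q w)) +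
      (C.tb.Ps.Pr (fun w => (ruO C.tb C.v q w ∨ rpO C.tb C.v i q w) ∧ nrW (C.M ka) c i (xN C.Lam ka C.c0) q w) +
      (C.tb.Ps.Pr (fun w => ruO C.tb C.v q w ∧ Lsq (C.M ka) q w) +
      (C.tb.Ps.Pr (fun w => ruO C.tb C.v q w ∧ twV (C.M ka) q w) +
      C.tb.Ps.Pr (fun w => lt5 (C.M ka) (NPo C.tb C.v) q w ∧ Rsq (C.M ka) i k m q w ∧
        RZ.Alz C.h C.v (max C.p.X0 C.p.X1) (RZ.rho (nu (C.M ka) q w)) (C.tb.pt 0 w) ∧ sts (C.M ka) i q w)))) := by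
    intro q hq
    refine le_trans (C.tb.Ps.Pr_mono fun w hw hh => bd2_cases h0 (Finset.mem_range.1 hq) hw hh hik him)
      ((RZ.Pr_or C.tb.Ps _ _).trans (add_le_add le_rfl ((RZ.Pr_or C.tb.Ps _ _).trans (add_le_add le_rfl
        ((RZ.Pr_or C.tb.Ps _ _).trans (add_le_add le_rfl (RZ.Pr_or C.tb.Ps _ _)))))))
  refine ipw_sum hL K ((Finset.sum_le_sum s1).trans ?_)
  rw [Finset.sum_add_distrib, Finset.sum_add_distrib, Finset.sum_add_distrib, Finset.sum_add_distrib]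
  have t1 := h1 i
  have t5 := h5 i k m hall hik him hkm
  have t6 : (0 : ℝ) < (pw C.Lam (K + 2))⁻¹ := inv_pos.2 (MVN.pw_pos hL _)
  have t7 : ∑ q ∈ range (5 * C.T), C.tb.Ps.Pr (fun w => (ruO C.tb C.v q w ∨ rpO C.tb C.v i q w) ∧
    nrW (C.M ka) c i (xN C.Lam ka C.c0) q w) ≤ (pw C.Lam (K + 2))⁻¹ := g4
  linarith

/-- **EVENTS OF TWO, GENERAL FORM** -/
theorem th2_gen {A : ℕ} (hA : 80 ≤ A) (ka K : ℕ) : AllC A (fun C => ∀ c : KC, CG C ka (K + 3) c →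
    ∀ (i : Fin 3) (Gd : ℕ → C.Q → Prop) (al0 : ℕ → C.O → Prop),
      (∀ q w, C.tb.Ps.p w ≠ 0 → Alv C.h C.v C.tb C.p q w → al0 q w) →
      ∀ N Sx : ℕ → C.O → Prop, ∑ q ∈ range (5 * C.T), C.tb.Ps.Pr (Sx q) ≤ (pw C.Lam (K + 1))⁻¹ →
      (∀ q w, C.tb.Ps.p w ≠ 0 → N q w → aO2 C.tb (aW C ka Gd i) q w ∧ (rpO C.tb C.v i q w ∨ ruO C.tb C.v q w)) →
      (∀ q w, C.tb.Ps.p w ≠ 0 → N q w → gM2C C ka c i al0 q w → Sx q w) →
      ∑ q ∈ range (5 * C.T), C.tb.Ps.Pr (N q) ≤ (pw C.Lam K)⁻¹) := by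
  refine allc_mono (bd2_cc hA ka (K + 1)) fun C hCA h1 c hc i Gd al0 h0 N Sx hS hN hG => ?_
  subst hCA
  have hL := C.hL
  have t1 := h1 c hc i Gd al0 h0
  have t2 := ipw_four hL K
  have t3 : (0 : ℝ) < (pw C.Lam (K + 1))⁻¹ := inv_pos.2 (MVN.pw_pos hL _)
  have key : ∀ q ∈ range (5 * C.T), C.tb.Ps.Pr (N q) ≤ C.tb.Ps.Pr (bd2 C ka Gd c i al0 q) + C.tb.Ps.Pr (Sx q) := fun q _ => by
    refine le_trans (C.tb.Ps.Pr_mono fun w hw hh => ?_) (C.tb.Ps.Pr_or_le _ _)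
    obtain ⟨a1, a2⟩ := hN q w hw hh
    by_cases h2 : gM2C C ka c i al0 q w
    · exact Or.inr (hG q w hw hh h2)
    · exact Or.inl ⟨a1, a2, h2⟩
  refine (Finset.sum_le_sum key).trans ?_
  rw [Finset.sum_add_distrib]
  linarith

/-- **THE THROWN SUMS OF THE FRAMES TWO**, given thresholds -/
theorem thr2_cc {A : ℕ} (hA : 80 ≤ A) (ka kL K : ℕ) : AllC A (fun C => ∀ c : KC, CG C ka (kL + K + 5) c →
    ∀ (i : Fin 3) (Gd : ℕ → C.Q → Prop) (al0 : ℕ → C.O → Prop),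
      (∀ q w, C.tb.Ps.p w ≠ 0 → Alv C.h C.v C.tb C.p q w → al0 q w) →
      ∀ (B : ℝ) (rk : Finset (Fin 10)) (bO zO gM : Fin 10 → ℕ → C.O → Prop),
      (∀ k q w, C.tb.Ps.p w ≠ 0 → gM2C C ka c i al0 q w → gM k q w) →
      ∀ L : ℝ, 0 ≤ L → L ≤ pw C.Lam kL →
      L * ∑ k ∈ rk, ∑ q ∈ range (5 * C.T), C.tb.Ps.Pr (thO2 C.h C.tb C.v c B i rk (aW C ka Gd i) bO zO gM k q) ≤
        CT.ix C.Lam K ∧
      ∀ e : ℝ, L * ∑ k ∈ rk, ∑ q ∈ range (5 * C.T), C.tb.Ps.Pr (tnO2 C.h C.tb C.v c B i rk (aW C ka Gd i) gM e k q) ≤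
        CT.ix C.Lam K) := by
  refine allc_mono (bd2_cc hA ka (kL + K + 2)) fun C hCA h1 c hc i Gd al0 h0 B rk bO zO gM hgM L L0 L1 => ?_
  subst hCA
  have hL := C.hL
  have g5 := h1 c (hc.mono (by omega)) i Gd al0 h0
  have s0 : 0 ≤ ∑ q ∈ range (5 * C.T), C.tb.Ps.Pr (bd2 C ka Gd c i al0 q) := Finset.sum_nonneg fun q _ => FP.Pr_nonneg _ _
  have s1 : 16 * ∑ q ∈ range (5 * C.T), C.tb.Ps.Pr (bd2 C ka Gd c i al0 q) ≤ (pw C.Lam (kL + K))⁻¹ := by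
    have h2 := ipw_four hL (kL + K)
    have h3 := ipw_four hL (kL + K + 1)
    have e1 : kL + K + 1 + 1 = kL + K + 2 := by omega
    rw [e1] at h3
    linarith
  refine ⟨cost_ix hL L0 L1 (rk_sum (fun k _ => Finset.sum_le_sum fun q _ => C.tb.Ps.Pr_mono fun w hw hh => ?_) s0 s1),
    fun e => cost_ix hL L0 L1 (rk_sum (fun k _ => Finset.sum_le_sum fun q _ => C.tb.Ps.Pr_mono fun w hw hh => ?_) s0 s1)⟩
  · obtain ⟨a1, _, a3, a4⟩ := hh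
    refine ⟨a1, ?_, fun h2 => a3 (hgM k q w hw h2)⟩
    rcases a4 with a5 | a5
    · exact Or.inl a5.1
    · exact Or.inr a5.1
  · exact ⟨hh.1.1, hh.1.2.2.2, fun h2 => hh.1.2.2.1 (hgM k q w hw h2)⟩

end

end Pool.Agent.GMH.RSA
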