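import Pool.Agent.GMH.ThrG
import Pool.Agent.GMH.GM3

/-!
# GMH/ThrH (helper45): the thrown sums of FULL for the good condition `gM3` of `GMH/GM3`

* `gM3C` : `gM3` over `Ctx`, alive = `Alv`, distance `1000 (4 d1 + 16 d0)`; `gM3_of` : `Gd3` and `Sg` give `gM3`;
* **`thr3_g`** : the sum of `thO` with `gM = gM3C`; what is not `Sg` is counted by the caller (`Sx k`).
-/

set_option autoImplicit false
set_option linter.unusedSectionVars false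

namespace Pool.Agent.GMH.RSA

open Finset Pool.Agent.PWZ Pool.Agent.M3 Pool.Agent.GM Pool.Agent.GM.Harm Pool.Agent.GMH Pool.Agent.GMH.NZ
open Pool.Agent.GMH.V3 Pool.Agent.GMH.TP Pool.Agent.GMH.TD Pool.Agent.GMH.Dy Pool.Agent.GMH.MV Pool.Agent.GMH.MVI
open Pool.Agent.GMH.UV Pool.Agent.GMH.KF Pool.Agent.GMH.TRF Pool.Agent.GMH.CX Pool.Agent.GMH.CTM Pool.Agent.GMH.MVT
open Pool.Agent.GMH.PRF

noncomputable section

/-- **`gM3` OVER `Ctx`** -/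
abbrev gM3C (C : Ctx) (ka : ℕ) (c : KC) (be : Fin 10 → Fin 3 → ℕ → C.O → Prop) (ze Sg : Fin 10 → ℕ → C.O → Prop) (k : Fin 10)
    (q : ℕ) (w : C.O) : Prop :=
  GM3.gM3 C.tb C.v (C.M ka) c (xN C.Lam ka C.c0) (Alv C.h C.v C.tb C.p) be ze Sg k q w

/-- good, for `gM3` -/
theorem gM3_of {C : Ctx} {ka : ℕ} {c : KC} {be : Fin 10 → Fin 3 → ℕ → C.O → Prop} {ze Sg : Fin 10 → ℕ → C.O → Prop}
    {k : Fin 10} {q : ℕ} {w : C.O} (h : Gd3 C ka c (vk k) (be k) (ze k) q w) (hs : Sg k q w) : gM3C C ka c be ze Sg k q w :=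
  ⟨h.alv, h.nr, h.lst, fun i _ => h.prv i, fun i hi hu => h.pub hu i hi, hs⟩

/-- **THE THROWN SUMS OF FULL, `gM3`** -/
theorem thr3_g {A : ℕ} (hA : 80 ≤ A) (ka kT kL K : ℕ) : AllC A (fun C => ∀ c : KC, CG C ka (kL + K + 5) c →
    ∀ (rk : Finset (Fin 10)) (be : Fin 10 → Fin 3 → ℕ → C.O → Prop) (ze Sg : Fin 10 → ℕ → C.O → Prop),
    (∀ k ∈ rk, BitT C.tb C.v (vk k) (be k) (ze k) (pw C.Lam kT)) →
    ∀ (Gd : ℕ → C.Q → Prop) (B : ℝ),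
    (∀ k ∈ rk, ∑ q ∈ range (5 * C.T), C.tb.Ps.Pr (fun w => aO C.tb (aF C ka Gd) q w ∧ rO C.h C.tb C.v c B k q w ∧
      btO C.tb C.v be ze k q w ∧ Gd3 C ka c (vk k) (be k) (ze k) q w ∧ ¬ Sg k q w) ≤ (pw C.Lam (kL + K + 3))⁻¹) →
    ∀ L : ℝ, 0 ≤ L → L ≤ pw C.Lam kL →
    L * ∑ k ∈ rk, ∑ q ∈ range (5 * C.T), C.tb.Ps.Pr (thO C.h C.tb C.v c B (aF C ka Gd) be ze (gM3C C ka c be ze Sg) k q) ≤
      CT.ix C.Lam K) := by
  refine allc_mono (thr3_C hA ka kT kL K) fun C hCA h1 c hc rk be ze Sg hB Gd B hS L L0 L1 => ?_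
  exact h1 c hc rk be ze hB Gd B (gM3C C ka c be ze Sg) (fun k q w => aO C.tb (aF C ka Gd) q w ∧ rO C.h C.tb C.v c B k q w ∧
      btO C.tb C.v be ze k q w ∧ Gd3 C ka c (vk k) (be k) (ze k) q w ∧ ¬ Sg k q w) hS
    (fun k _ q w _ hh hg => ⟨hh.1, hh.2.1, hh.2.2.2, hg, fun hs => hh.2.2.1 (gM3_of hg hs)⟩) L L0 L1

end

end Pool.Agent.GMH.RSA
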