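import Pool.Agent.GMH.ThrH

/-!
# GMH/ThrI (helper45): the thrown sums for points which are only alive (`Alv`), any status, no relation

* `alz_alv` : `Alv` at a public step gives alive letters at every public start before it;
* `mvA C ka b q` : public removal, alive, nothing listed, moved at `b` at the public start, the two OTHER vertices without status;
* `rest_A` : REST with two events; `rest_bitA` : the bit of `b` or of the zone; `rest_actA` : both faces at `b` active;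
* `Gd3A` : what is known at the other removals; **`th_genA`**, **`tn_genA`** : general forms.
-/

set_option autoImplicit false
set_option linter.unusedSectionVars false

namespace Pool.Agent.GMH.RSA

open Finset Pool.Agent.PWZ Pool.Agent.M3 Pool.Agent.GM Pool.Agent.GM.Harm Pool.Agent.GMH Pool.Agent.GMH.NZ
open Pool.Agent.GMH.V3 Pool.Agent.GMH.TP Pool.Agent.GMH.TD Pool.Agent.GMH.Dy Pool.Agent.GMH.MV Pool.Agent.GMH.MVI
open Pool.Agent.GMH.UV Pool.Agent.GMH.KF Pool.Agent.GMH.TRF Pool.Agent.GMH.CX Pool.Agent.GMH.CTM Pool.Agent.GMH.MVT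
open Pool.Agent.GMH.PRF Pool.Agent.GMH.KDT

noncomputable section

section gen

variable {X β γ φ : Type} [Fintype X] [Fintype β] [Fintype φ] [Nonempty X] [Nonempty β]
variable {D : HD (Fin 3) X β γ φ} {al : ℝ} {h : D.Thick al} {prr : ℕ → Fin 3 → φ → φ} {T : ℕ} {W : Type} [Fintype W]
variable (tb : Tab D prr T W) {v : ℕ → Finset (Fin 3) → X → (Fin 3 → β) → Pt (Fin 3) X β φ}

/-- `Alv` gives alive letters at the half steps -/
theorem alz_half {p : AP} {q : ℕ} {w : Om W X β} (hw : tb.Ps.p w ≠ 0) (hA : Alv h v tb p q w) {r : ℕ}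
    (hr : RZ.sbt r ≤ q) : RZ.Alz h v (max p.X0 p.X1) r (tb.pt 0 w) := by
  have hp : (D.P h 0).p (tb.pt 0 w) ≠ 0 := (pul_pt h tb (Nat.zero_le T)).ne hw
  obtain ⟨t, e | e⟩ : ∃ t, r = 2 * t ∨ r = 2 * t + 1 := ⟨r / 2, by omega⟩
  · subst e
    have e1 : RZ.sbt (2 * t) = 5 * t := by unfold RZ.sbt; omega
    rw [e1] at hr
    have h1 := hA _ hr
    have e2 : 5 * t / 5 = t := by omega
    rw [e2] at h1
    have hN : NPr v D (2 * t) (tb.pt 0 w) = NPr v D (2 * t) (tb.pt t w) := NPr_pos (2 * t) (tb.pt 0 w) (tb.pt t w) rfl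
    have hX : ∀ i, XLr v (2 * t) i (tb.pt 0 w) = XLr v (2 * t) i (tb.pt t w) := fun i => XLr_eq rfl rfl
    refine RZ.alz_of hp (fun i => ?_) fun i k hik => ?_
    · rw [sps_fac h (tb.pt 0 w) (tb.pt t w) (Prod.ext (hX i) hN), ← ss_0]
      exact (h1.1 i).trans (le_max_left _ _)
    · rw [spp_fac h (tb.pt 0 w) (tb.pt t w) (Prod.ext (funext hX) hN), ← sp_0]
      exact (h1.2 i k hik).trans (le_max_right _ _)
  · subst e
    have e1 : RZ.sbt (2 * t + 1) = 5 * t + 1 := by unfold RZ.sbt; omega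
    rw [e1] at hr
    have h1 := hA _ hr
    have e2 : (5 * t + 1) / 5 = t := by omega
    rw [e2] at h1
    have hN : NPr v D (2 * t + 1) (tb.pt 0 w) = NPr v D (2 * t + 1) (tb.pt t w) :=
      NPr_pos (2 * t + 1) (tb.pt 0 w) (tb.pt t w) rfl
    have hX : ∀ i, XLr v (2 * t + 1) i (tb.pt 0 w) = XLr v (2 * t + 1) i (tb.pt t w) := fun i => XLr_eq rfl rfl
    refine RZ.alz_of hp (fun i => ?_) fun i k hik => ?_
    · rw [sps_fac h (tb.pt 0 w) (tb.pt t w) (Prod.ext (hX i) hN), ← ss_1]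
      exact (h1.1 i).trans (le_max_left _ _)
    · rw [spp_fac h (tb.pt 0 w) (tb.pt t w) (Prod.ext (funext hX) hN), ← sp_1]
      exact (h1.2 i k hik).trans (le_max_right _ _)

/-- **alive letters at the public starts** -/
theorem alz_alv {p : AP} {q : ℕ} (hq : q % 5 = 1) {w : Om W X β} (hw : tb.Ps.p w ≠ 0) (hA : Alv h v tb p q w) {ν : ℕ}
    (hν : ν ≤ q) : RZ.Alz h v (max p.X0 p.X1) (RZ.rho ν) (tb.pt 0 w) := by
  refine alz_half tb hw hA ?_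
  unfold RZ.sbt RZ.rho
  omega

end gen

/-! ### moved at `b`, alive -/

/-- moved at `b` at the public start of a public removal: alive, nothing listed, the other two vertices without status -/
def mvA (C : Ctx) (ka : ℕ) (b : Fin 3) (q : ℕ) (w : C.O) : Prop :=
  ruO C.tb C.v q w ∧ Alv C.h C.v C.tb C.p q w ∧ ¬ Lsq (C.M ka) q w ∧ Mv (C.M ka) b (nu (C.M ka) q w) w ∧
    ∀ j, j ≠ b → ¬ sts (C.M ka) j q w

/-- **REST, ALIVE POINTS** -/
theorem rest_A {A : ℕ} (hA : 80 ≤ A) (ka kG K : ℕ) : AllC A (fun C => ∀ b c d : Fin 3, (∀ j : Fin 3, j = b ∨ j = c ∨ j = d) →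
    b ≠ c → b ≠ d → c ≠ d → ∀ BC BD : ℕ → C.O → Prop, (∀ s, s % 5 ≠ 0 → Sees C.tb C.v {b, d} s (BC s)) →
    (∀ s, s % 5 ≠ 0 → Sees C.tb C.v {b, c} s (BD s)) →
    ∑ s ∈ range (5 * C.T), C.tb.Ps.Pr (fun w => lt5 (C.M ka) (NPo C.tb C.v) s w ∧ BC s w) ≤ pw C.Lam kG →
    ∑ s ∈ range (5 * C.T), C.tb.Ps.Pr (fun w => lt5 (C.M ka) (NPo C.tb C.v) s w ∧ BD s w) ≤ pw C.Lam kG →
    ∑ s ∈ range (5 * C.T), C.tb.Ps.Pr (fun w => mvA C ka b s w ∧ BC s w ∧ BD s w) ≤ (pw C.Lam K)⁻¹) := by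
  refine allc_mono (rest_C hA ka kG K) fun C hCA h1 b c d hall hbc hbd hcd BC BD hBC hBD sC sD => ?_
  subst hCA
  have hL := C.hL
  have hX : C.p.X0 = pw C.Lam (cXF C.A C.c0) := rfl
  have hX' : C.p.X1 = 3 * pw C.Lam (cXF C.A C.c0) := rfl
  have p0 := MVN.pw_pos hL (cXF C.A C.c0)
  have hm : max C.p.X0 C.p.X1 = 3 * pw C.Lam (cXF C.A C.c0) := by
    rw [hX, hX']
    exact max_eq_right (by linarith)
  have h3 : 3 * pw C.Lam (cXF C.A C.c0) ≤ pw C.Lam (cXF C.A C.c0 + 2) := by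
    rw [MVN.pw_add hL (cXF C.A C.c0) 2]
    have := MVN.pw_four hL 2
    norm_num at this
    nlinarith
  refine le_trans (Finset.sum_le_sum fun q _ => C.tb.Ps.Pr_mono fun w hw hh => ?_) (h1 b c d hall hbc hbd hcd
    BC BD hBC hBD sC sD (max C.p.X0 C.p.X1) (by rw [hm]; linarith) (by rw [hm]; exact h3))
  obtain ⟨⟨g1, g2, g3, g4, g5⟩, g6, g7⟩ := hh
  exact ⟨ruO_lt C.tb (C.d1_pos ka) (C.d1_le ka) (C.kb_pos ka) C.d0_pos C.d0_le C.d0_pos C.p1_pos (C.z_pos ka) g1,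
    ⟨g3, g4, g5 c hbc.symm, g5 d hbd.symm⟩, alz_alv C.tb g1.1 hw g2 (MV.nu_le (M := C.M ka) q w), g6, g7⟩

/-- **REST WITH THE BITS, ALIVE POINTS** -/
theorem rest_bitA {A : ℕ} (hA : 80 ≤ A) (ka kT K : ℕ) : AllC A (fun C => ∀ (S : Finset (Fin 3)) (bO : Fin 3 → ℕ → C.O → Prop)
    (zO : ℕ → C.O → Prop), BitT C.tb C.v S bO zO (pw C.Lam kT) → ∀ b ∈ S,
    ∑ q ∈ range (5 * C.T), C.tb.Ps.Pr (fun w => mvA C ka b q w ∧ (bO b q w ∨ zO q w)) ≤ (pw C.Lam K)⁻¹) := by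
  refine allc_mono (rest_A hA ka (kT + 1) K) fun C hCA h1 S bO zO hB b hb => ?_
  subst hCA
  have hL := C.hL
  obtain ⟨c, d, hbc, hbd, hcd, hall⟩ := two_other b
  have sE : ∀ J : Finset (Fin 3), b ∈ J → ∀ s, s % 5 ≠ 0 → Sees C.tb C.v J s (fun w => s % 5 = 1 ∧ (bO b s w ∨ zO s w)) :=
    fun J hJ s hs => sees_or (sgt_sees C.tb (Finset.singleton_subset_iff.2 hJ) hs (hB.fb b hb s))
      (sgt_sees C.tb (Finset.empty_subset J) hs (hB.fz s)) _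
  have sS : ∑ s ∈ range (5 * C.T), C.tb.Ps.Pr (fun w => lt5 (C.M ka) (NPo C.tb C.v) s w ∧ s % 5 = 1 ∧
      (bO b s w ∨ zO s w)) ≤ pw C.Lam (kT + 1) := by
    refine le_trans (Finset.sum_le_sum fun s _ => ?_) ((le_of_eq Finset.sum_add_distrib).trans
      (two_kG hL (hB.nb b hb) hB.nz))
    refine (C.tb.Ps.Pr_mono fun w _ hh => ?_).trans (C.tb.Ps.Pr_or_le _ _)
    obtain ⟨g1, g2, g3⟩ := hh
    have g4 : ruO C.tb C.v s w := ⟨g2, g1.2⟩
    exact g3.imp (fun g => ⟨Or.inr g4, g⟩) fun g => ⟨g4, g⟩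
  refine le_trans (Finset.sum_le_sum fun q _ => C.tb.Ps.Pr_mono fun w _ hh => ?_)
    (h1 b c d hall hbc hbd hcd (fun s w => s % 5 = 1 ∧ (bO b s w ∨ zO s w)) (fun s w => s % 5 = 1 ∧ (bO b s w ∨ zO s w))
      (sE {b, d} (mem_insert_self _ _)) (sE {b, c} (mem_insert_self _ _)) sS sS)
  exact ⟨hh.1, ⟨hh.1.1.1, hh.2⟩, hh.1.1.1, hh.2⟩

/-- **REST WITH THE ACTIVITY, ALIVE POINTS** -/
theorem rest_actA {A : ℕ} (hA : 80 ≤ A) (ka kE K : ℕ) : AllC A (fun C => ∀ (b : Fin 3) (e : ℝ), CT.ix C.Lam kE ≤ e → e ≤ 1 →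
    ∑ q ∈ range (5 * C.T), C.tb.Ps.Pr (fun w => mvA C ka b q w ∧ ∀ j, j ≠ b → acO C.h C.tb C.v e j q w) ≤
      (pw C.Lam K)⁻¹) := by
  refine allc_mono (rest_A hA ka (2 * kE + 5) K) fun C hCA h1 b e he he1 => ?_
  subst hCA
  have hL := C.hL
  have h0 : 0 < e := lt_of_lt_of_le (CT.ix_pos hL kE) he
  obtain ⟨c, d, hbc, hbd, hcd, hall⟩ := two_other b
  have hall' : ∀ j : Fin 3, j = b ∨ j = d ∨ j = c := fun j => (hall j).imp_right Or.symm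
  have sS : ∀ j, ∑ s ∈ range (5 * C.T), C.tb.Ps.Pr (fun w => lt5 (C.M ka) (NPo C.tb C.v) s w ∧
      acO C.h C.tb C.v e j s w) ≤ pw C.Lam (2 * kE + 5) := fun j =>
    (Finset.sum_le_sum fun s _ => C.tb.Ps.Pr_mono fun w _ hh => hh.2).trans
      ((acO_sum C.h C.tb C.H C.R C.n1 C.N11 j h0 he1).trans (act_num hL he))
  exact (Finset.sum_le_sum fun q _ => C.tb.Ps.Pr_mono fun w _ hh => ⟨hh.1, hh.2 c hbc.symm, hh.2 d hbd.symm⟩).trans
    (h1 b c d hall hbc hbd hcd (fun s => acO C.h C.tb C.v e c s) (fun s => acO C.h C.tb C.v e d s)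
      (fun s hs => yt_sees C.tb hall hs fun x y hxy => propext (acO_Y C.h C.tb C.codes e c s x y hxy))
      (fun s hs => yt_sees C.tb hall' hs fun x y hxy => propext (acO_Y C.h C.tb C.codes e d s x y hxy))
      (sS c) (sS d))

/-! ### general forms -/

/-- what is known at the other removals of alive points -/
structure Gd3A (C : Ctx) (ka : ℕ) (c : KC) (S : Finset (Fin 3)) (bO : Fin 3 → ℕ → C.O → Prop) (zO : ℕ → C.O → Prop) (q : ℕ)
    (w : C.O) : Prop where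
  hT : q / 5 ≤ C.T
  alv : Alv C.h C.v C.tb C.p q w
  nr : ¬ nrT (C.M ka) c (xN C.Lam ka C.c0) q w
  lst : ruO C.tb C.v q w → ¬ Lsq (C.M ka) q w
  prv : ∀ i, rpO C.tb C.v i q w → ¬ Mv (C.M ka) i q w ∧ ∀ j, j ≠ i → ¬ sts (C.M ka) j q w
  two : ruO C.tb C.v q w → ¬ twV (C.M ka) q w
  pub : ruO C.tb C.v q w → ∀ i ∈ S, (bO i q w ∨ zO q w) → Mv (C.M ka) i (nu (C.M ka) q w) w →
    ∃ j, j ≠ i ∧ sts (C.M ka) j q w

/-- **THROWN EVENTS, ALIVE POINTS** -/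
theorem th_genA {A : ℕ} (hA : 80 ≤ A) (ka kT K : ℕ) : AllC A (fun C => ∀ c : KC, CG C ka (K + 3) c →
    ∀ (S : Finset (Fin 3)) (bO : Fin 3 → ℕ → C.O → Prop) (zO : ℕ → C.O → Prop), BitT C.tb C.v S bO zO (pw C.Lam kT) →
    ∀ (N Sx : ℕ → C.O → Prop),
    ∑ q ∈ range (5 * C.T), C.tb.Ps.Pr (Sx q) ≤ (pw C.Lam (K + 3))⁻¹ →
    (∀ q w, C.tb.Ps.p w ≠ 0 → N q w → Alv C.h C.v C.tb C.p q w ∧ rm3 C q w) →
    (∀ q w, C.tb.Ps.p w ≠ 0 → N q w → Gd3A C ka c S bO zO q w → Sx q w) →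
    ∑ q ∈ range (5 * C.T), C.tb.Ps.Pr (N q) ≤ (pw C.Lam K)⁻¹) := by
  refine allc_mono (((prv_C hA ka (K + 3)).and (pub_C A ka (K + 3))).and ((two_v hA ka (K + 3) (n0_all A ka)).and
    (rest_bitA hA ka kT (K + 3)))) fun C hCA ⟨⟨h1, h2⟩, h4, h3⟩ c hc S bO zO hB N Sx hS hN hG => ?_
  subst hCA
  have hL := C.hL
  have p0 : (0 : ℝ) < (pw C.Lam (K + 3))⁻¹ := inv_pos.2 (MVN.pw_pos hL _)
  have s1 : ∀ q ∈ range (5 * C.T), C.tb.Ps.Pr (N q) ≤ C.tb.Ps.Pr (nr3 C ka c q) +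
      (C.tb.Ps.Pr (fun w => ruO C.tb C.v q w ∧ Lsq (C.M ka) q w) +
      (C.tb.Ps.Pr (fun w => ∃ i, rpO C.tb C.v i q w ∧ Alv C.h C.v C.tb C.p q w ∧
        (Mv (C.M ka) i q w ∨ ∃ c, c ≠ i ∧ sts (C.M ka) c q w)) +
      (C.tb.Ps.Pr (fun w => ∃ b, b ∈ S ∧ mvA C ka b q w ∧ (bO b q w ∨ zO q w)) +
      (C.tb.Ps.Pr (fun w => ruO C.tb C.v q w ∧ twV (C.M ka) q w) + C.tb.Ps.Pr (Sx q))))) := fun q hq => by
    refine le_trans (C.tb.Ps.Pr_mono fun w hw hh => ?_) ((RZ.Pr_or C.tb.Ps _ _).trans (add_le_add le_rfl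
      ((RZ.Pr_or C.tb.Ps _ _).trans (add_le_add le_rfl ((RZ.Pr_or C.tb.Ps _ _).trans (add_le_add le_rfl
      ((RZ.Pr_or C.tb.Ps _ _).trans (add_le_add le_rfl (RZ.Pr_or C.tb.Ps _ _)))))))))
    obtain ⟨a1, a2⟩ := hN q w hw hh
    have hT : q / 5 ≤ C.T := by
      have := Finset.mem_range.1 hq
      omega
    by_contra hcn
    simp only [not_or] at hcn
    obtain ⟨n1, n2, n3, n4, n5, n6⟩ := hcn
    refine n6 (hG q w hw hh ⟨hT, a1, fun g => n1 ⟨a2.symm, g⟩, fun g1 g2 => n2 ⟨g1, g2⟩, fun i g1 =>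
      ⟨fun g2 => n3 ⟨i, g1, a1, Or.inl g2⟩, fun j hj g2 => n3 ⟨i, g1, a1, Or.inr ⟨j, hj, g2⟩⟩⟩, fun g1 g2 => n5 ⟨g1, g2⟩,
      fun g1 i hi hb hm => ?_⟩)
    by_contra hno
    push Not at hno
    exact n4 ⟨i, hi, ⟨g1, a1, fun g2 => n2 ⟨g1, g2⟩, hm, hno⟩, hb⟩
  have t3 := sum_ex3 C.tb.Ps (5 * C.T) (fun i q w => rpO C.tb C.v i q w ∧ Alv C.h C.v C.tb C.p q w ∧
        (Mv (C.M ka) i q w ∨ ∃ c, c ≠ i ∧ sts (C.M ka) c q w)) (fun i => h1 i)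
  have t4 := sum_ex3 C.tb.Ps (5 * C.T) (fun b q w => b ∈ S ∧ mvA C ka b q w ∧ (bO b q w ∨ zO q w))
    (x := (pw C.Lam (K + 3))⁻¹) (fun b => by
      by_cases hb : b ∈ S
      · exact (Finset.sum_le_sum fun q _ => C.tb.Ps.Pr_mono fun w _ hh => hh.2).trans (h3 S bO zO hB b hb)
      · refine le_trans (le_of_eq (Finset.sum_eq_zero fun q _ => ?_)) p0.le
        unfold FP.Pr
        refine (C.tb.Ps.E_congr fun w _ => ind_not fun hh => hb hh.1).trans ?_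
        unfold FP.E
        simp)
  have t5 := hc.1
  have e1 := ipw_four hL K
  have e2 := ipw_four hL (K + 1)
  have e3 := ipw_four hL (K + 2)
  have e5 : K + 1 + 1 = K + 2 := by omega
  have e6 : K + 2 + 1 = K + 3 := by omega
  rw [e5] at e2
  rw [e6] at e3
  refine (Finset.sum_le_sum s1).trans ?_
  rw [Finset.sum_add_distrib, Finset.sum_add_distrib, Finset.sum_add_distrib, Finset.sum_add_distrib,
    Finset.sum_add_distrib]
  have t6 : ∑ q ∈ range (5 * C.T), C.tb.Ps.Pr (fun w => ruO C.tb C.v q w ∧ twV (C.M ka) q w) ≤ (pw C.Lam (K + 3))⁻¹ := h4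
  linarith

end

end Pool.Agent.GMH.RSA
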