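import Pool.Agent.GMH.ThrC
import Pool.Agent.GMH.StpI2
import Pool.Agent.GMH.ConT3
import Pool.Agent.GMH.Bef2

/-!
# GMH/ThrT (helper45): THE THROWN SUMS OF THE FRAMES TWO (H3.MOV, M.7 - M.11), over `Ctx`

In a frame two the vertex `i` has status at the removal, and the public removals with status are few (`gvn_num`): REST needs
neither the bits nor the activity.
* `gvs_C` : `∑_q Pr (ruO q, sts i q) ≤ x^(ka+12)`; `rest_T` : REST at the vertex with status;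
* `near_C` : for every `i` there are thresholds `c` (`KcB R Lam c`) such that the removals near them are few;
* `bd2` : alive, at a removal, not good (`gM2`); `bd2_C` : the sum over the run;
* **`thr2_C`** : the sums of `thO2` and of `tnO2`, all kinds, times any cost `L ≤ x^kL`, at most `x^(-K)`, every `K`.
-/

set_option autoImplicit false
set_option linter.unusedSectionVars false

namespace Pool.Agent.GMH.RSA

open Finset Pool.Agent.PWZ Pool.Agent.M3 Pool.Agent.GM Pool.Agent.GM.Harm Pool.Agent.GMH Pool.Agent.GMH.NZ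
open Pool.Agent.GMH.V3 Pool.Agent.GMH.TP Pool.Agent.GMH.TD Pool.Agent.GMH.Dy Pool.Agent.GMH.MV Pool.Agent.GMH.MVI
open Pool.Agent.GMH.UV Pool.Agent.GMH.KF Pool.Agent.GMH.TRF Pool.Agent.GMH.CX Pool.Agent.GMH.CTM Pool.Agent.GMH.MVT
open Pool.Agent.GMH.KDTw

noncomputable section

/-! ### the status is an event of the vertex -/

/-- what the class of `i` sees is seen by every side with the point of `i` -/
theorem cls_sees {X β γ φ : Type} [Fintype X] [Fintype β] [Fintype φ] [Nonempty X] [Nonempty β]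
    {D : HD (Fin 3) X β γ φ} {prr : ℕ → Fin 3 → φ → φ} {T : ℕ} {W : Type} [Fintype W] (tb : Tab D prr T W)
    {v : ℕ → Finset (Fin 3) → X → (Fin 3 → β) → Pt (Fin 3) X β φ} (hv : Codes D v) {i : Fin 3} {J : Finset (Fin 3)}
    (hi : i ∈ J) {q : ℕ} (hq : q % 5 ≠ 0) {B : Om W X β → Prop} (hB : Fac (fun w => (XLo tb v i q w, NPo tb v q w)) B) :
    Sees tb v J q B := by
  intro x y e
  have e1 : x.1 = y.1 := congrArg (fun t => t.1.1) e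
  have e2 : PJ J (tb.pt 0 x) = PJ J (tb.pt 0 y) := congrArg (fun t => t.1.2.1) e
  have e3 : NPo tb v (q + 1) x = NPo tb v (q + 1) y := congrArg (fun t => t.1.2.2) e
  have e4 : NPo tb v q x = NPo tb v q y := NPo_fac tb q x y e3
  have e5 : x.2.2 i = y.2.2 i := TD.PJ_iff.1 e2 i hi
  refine hB x y (Prod.ext ?_ e4)
  have h2 : ((Um v (nc (q + 1) ∅) ∅ x.1 x.2.2, (D.qa (TP.nn (q + 1)) x.1, fun j => D.qb (TP.nn (q + 1)) (x.2.2 j))) :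
      List (Pt (Fin 3) X β φ) × (γ × (Fin 3 → γ))) =
    (Um v (nc (q + 1) ∅) ∅ y.1 y.2.2, (D.qa (TP.nn (q + 1)) y.1, fun j => D.qb (TP.nn (q + 1)) (y.2.2 j))) := e3
  rw [MVIp.nn_code hq] at h2
  have h3 : ∀ j, D.qb (TP.nn q) (x.2.2 j) = D.qb (TP.nn q) (y.2.2 j) := fun j => congrFun (congrArg (fun t => t.2.2) h2) j
  have h4 : sgt D {i} (TP.nn q) x = sgt D {i} (TP.nn q) y := sgt_eq.2 ⟨e1, fun j hj => by
    rw [mem_singleton.1 hj]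
    exact e5, h3⟩
  exact MVIp.XLq_sgt tb hv (nc_le q {i}) (Finset.mem_singleton_self i) 0 x y h4

/-- numbers: `k` small terms -/
theorem ipw_sum {Lam : ℝ} (hL : 2 ≤ Lam) (K : ℕ) {x : ℝ} (hx : x ≤ 16 * (pw Lam (K + 2))⁻¹) : x ≤ (pw Lam K)⁻¹ := by
  have h1 := ipw_four hL K
  have h2 := ipw_four hL (K + 1)
  have e1 : K + 1 + 1 = K + 2 := by omega
  rw [e1] at h2
  linarith

/-- **STATUS AT THE PUBLIC REMOVALS** -/
theorem gvs_C (A ka : ℕ) : AllC A (fun C => ∀ i : Fin 3, ∑ q ∈ range (5 * C.T), C.tb.Ps.Pr (fun w =>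
    lt5 (C.M ka) (NPo C.tb C.v) q w ∧ sts (C.M ka) i q w) ≤ pw C.Lam (ka + 12)) := by
  have n1 := AllC.of_Ev (A := A) ((gvn_num A ka).and (z_side A ka))
  refine allc_mono n1 fun C hCA ⟨hg, hz⟩ i => ?_
  subst hCA
  exact (VV.gv_i C.tb C.codes (C.d1_pos ka) (C.d1_le ka) (C.kb_pos ka) C.d0_pos C.d0_le C.d0_pos C.p1_pos (C.z_pos ka) C.n1 C.N11
    C.R C.H hz.1 hz.2.1 i).trans hg.2

/-- **REST AT THE VERTEX WITH STATUS** -/
theorem rest_T {A : ℕ} (hA : 80 ≤ A) (ka K : ℕ) : AllC A (fun C => ∀ i c d : Fin 3, (∀ j : Fin 3, j = i ∨ j = c ∨ j = d) →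
    i ≠ c → i ≠ d → c ≠ d → ∑ q ∈ range (5 * C.T), C.tb.Ps.Pr (fun w => lt5 (C.M ka) (NPo C.tb C.v) q w ∧
      Rsq (C.M ka) i c d q w ∧ RZ.Alz C.h C.v (max C.p.X0 C.p.X1) (RZ.rho (nu (C.M ka) q w)) (C.tb.pt 0 w) ∧
      sts (C.M ka) i q w) ≤ (pw C.Lam K)⁻¹) := by
  refine allc_mono ((rest_C hA ka (ka + 12) K).and (gvs_C A ka)) fun C hCA ⟨h1, h2⟩ i c d hall hic hid hcd => ?_
  subst hCA
  have hL := C.hL
  have hf : ∀ q, Fac (fun w => (XLo C.tb C.v i q w, NPo C.tb C.v q w)) (sts (C.M ka) i q) := fun q =>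
    sts_cls C.tb (C.d1_pos ka) (C.d1_le ka) (C.kb_pos ka) C.d0_pos C.d0_le C.d0_pos C.p1_pos (C.z_pos ka) i q
  have hX : C.p.X0 = pw C.Lam (cXF C.A C.c0) := rfl
  have hX' : C.p.X1 = 3 * pw C.Lam (cXF C.A C.c0) := rfl
  have p0 := MVN.pw_pos hL (cXF C.A C.c0)
  have hm : max C.p.X0 C.p.X1 = 3 * pw C.Lam (cXF C.A C.c0) := by
    rw [hX, hX']
    exact max_eq_right (by linarith)
  have h3 : 3 * pw C.Lam (cXF C.A C.c0) ≤ pw C.Lam (cXF C.A C.c0 + 2) := by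
    rw [MVN.pw_add hL (cXF C.A C.c0) 2]
    have := MVN.pw_four hL 2
    norm_num at this
    nlinarith
  refine le_trans (Finset.sum_le_sum fun q _ => C.tb.Ps.Pr_mono fun w _ hh => ?_) (h1 i c d hall hic hid hcd
    (sts (C.M ka) i) (sts (C.M ka) i) (fun s hs => cls_sees C.tb C.codes (mem_insert_self _ _) hs (hf s))
    (fun s hs => cls_sees C.tb C.codes (mem_insert_self _ _) hs (hf s)) (h2 i) (h2 i) (max C.p.X0 C.p.X1)
    (by rw [hm]; linarith) (by rw [hm]; exact h3))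
  exact ⟨hh.1, hh.2.1, hh.2.2.1, hh.2.2.2, hh.2.2.2⟩

/-! ### thresholds -/

/-- width of the thresholds -/
def xN (Lam : ℝ) (ka c0 : ℕ) : ℝ := 1000 * (4 * MVN.d1 Lam ka c0 + 16 * MVN.d0 Lam c0)

/-- **GOOD THRESHOLDS** for the two tops of the vertex `i` -/
theorem near_C (A ka K : ℕ) (R : CT.Rounds) : AllC A (fun C => ∀ (i : Fin 3) (eF : ℝ), ∃ c : KC, c.eF = eF ∧
    c.eS = CT.ix C.Lam R.ks ∧ CT.KcB R C.Lam c ∧ ∑ q ∈ range (5 * C.T), C.tb.Ps.Pr (fun w =>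
      (ruO C.tb C.v q w ∨ rpO C.tb C.v i q w) ∧ nrW (C.M ka) c i (xN C.Lam ka C.c0) q w) ≤ (pw C.Lam K)⁻¹) := by
  have n1 := AllC.of_Ev (A := A) ((nr_num A ka).and ((Ev.ge (R.eta1 + R.eta2)).and (Ev.ge (R.eta3 + R.kd + K))))
  refine allc_mono n1 fun C hCA ⟨⟨m1, m2, m3⟩, c1, c2⟩ i eF => ?_
  subst hCA
  have hL := C.hL
  have hL0 : (0 : ℝ) < C.Lam := by linarith
  have ile : ∀ k, k ≤ 40 * (c1F C.A C.c0 + C.c0) → (pw C.Lam (40 * (c1F C.A C.c0 + C.c0)))⁻¹ ≤ CT.ix C.Lam k := fun k hk =>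
    ipw_mono hL hk
  have ip : ∀ k, 0 < CT.ix C.Lam k := fun k => CT.ix_pos hL k
  have x0 : 0 ≤ xN C.Lam ka C.c0 := by
    have a1 := C.d1_pos ka
    have a2 := C.d0_pos
    unfold xN
    positivity
  obtain ⟨c, h1, h2, h3, h4, h5, h6, h7⟩ := nrW_thr (M := C.M ka) i (range (5 * C.T))
    (fun q w => ruO C.tb C.v q w ∨ rpO C.tb C.v i q w) id (CT.kc0 R C.Lam eF) (ip _) (ip _) (ip _) (ip _) m1 x0
    (m2.trans (ile _ (by omega))) (m2.trans (ile _ (by omega))) (m2.trans (ile _ (by omega))) (m2.trans (ile _ (by omega)))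
  refine ⟨c, h1, h2, CT.KcB.of_thr hL h2 h3 h4 h5 h6, ?_⟩
  refine h7.trans ?_
  have r1 := rem_sum2 C.tb C.codes (C.d1_pos ka) (C.d1_le ka) (C.kb_pos ka) C.d0_pos C.d0_le C.d0_pos C.p1_pos (C.z_pos ka) i
    (5 * C.T)
  have r2 := C.nl ka
  have r3 := C.nlx ka i
  have r4 := C.nN_nn
  have e0 : pw C.Lam C.c0 * pw C.Lam (c1F C.A C.c0) * C.Lam = C.n * C.N1 * C.Lam := rfl
  have r5 : ∑ q ∈ range (5 * C.T), (C.M ka).P.Pr (fun w => ruO C.tb C.v q w ∨ rpO C.tb C.v i q w) ≤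
      100 * (pw C.Lam C.c0 * pw C.Lam (c1F C.A C.c0) * C.Lam) := by
    rw [e0]
    refine r1.trans ?_
    have r6 : NL (C.M ka) (5 * C.T) + NLx (C.M ka) i (5 * C.T) ≤ 6 * C.n * C.N1 * C.Lam + 12 * C.n * C.N1 * C.Lam :=
      add_le_add r2 r3
    refine r6.trans ?_
    linarith
  exact (m3 _ (Finset.sum_nonneg fun q _ => FP.Pr_nonneg _ _) r5).trans (ipw_mono hL (by omega))

/-! ### the bad tuples of TWO -/

/-- alive in the frame two at `i`, at a removal, not good -/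
def bd2 (C : Ctx) (ka : ℕ) (Gd : ℕ → C.Q → Prop) (c : KC) (i : Fin 3) (al0 : ℕ → C.O → Prop) (q : ℕ) (w : C.O) : Prop :=
  aO2 C.tb (TP.aV C.h C.v C.p Gd (stP (C.M ka)) (spP C.h (C.M ka) C.v) i) q w ∧
    (rpO C.tb C.v i q w ∨ ruO C.tb C.v q w) ∧
    ¬ gM2 C.tb (v := C.v) (C.d1_pos ka) (C.d1_le ka) (C.kb_pos ka) C.d0_pos C.d0_le C.d0_pos C.p1_pos (C.z_pos ka) c i al0 q w

/-- a bad tuple of TWO is of one of five types -/
theorem bd2_cases {C : Ctx} {ka : ℕ} {Gd : ℕ → C.Q → Prop} {c : KC} {i : Fin 3} {al0 : ℕ → C.O → Prop}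
    (h0 : ∀ q w, C.tb.Ps.p w ≠ 0 → Alv C.h C.v C.tb C.p q w → al0 q w) {q : ℕ} (hq : q < 5 * C.T) {w : C.O}
    (hw : C.tb.Ps.p w ≠ 0) (hb : bd2 C ka Gd c i al0 q w) {k m : Fin 3} (hik : i ≠ k) (him : i ≠ m) :
    (rpO C.tb C.v i q w ∧ Alv C.h C.v C.tb C.p q w ∧ (Mv (C.M ka) i q w ∨ ∃ c, c ≠ i ∧ sts (C.M ka) c q w)) ∨
    ((ruO C.tb C.v q w ∨ rpO C.tb C.v i q w) ∧ nrW (C.M ka) c i (xN C.Lam ka C.c0) q w) ∨
    (ruO C.tb C.v q w ∧ Lsq (C.M ka) q w) ∨ (ruO C.tb C.v q w ∧ twV (C.M ka) q w) ∨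
    (lt5 (C.M ka) (NPo C.tb C.v) q w ∧ Rsq (C.M ka) i k m q w ∧
      RZ.Alz C.h C.v (max C.p.X0 C.p.X1) (RZ.rho (nu (C.M ka) q w)) (C.tb.pt 0 w) ∧ sts (C.M ka) i q w) := by
  obtain ⟨ha, hr, hn⟩ := hb
  have hT : q / 5 ≤ C.T := by omega
  have hA := alv_aO2 C.tb hT hw ha hr
  have hs := sts_aO2 C.tb (C.d1_pos ka) (C.d1_le ka) (C.kb_pos ka) C.d0_pos C.d0_le C.d0_pos C.p1_pos (C.z_pos ka) hT ha hr
  by_contra hc
  simp only [not_or] at hc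
  obtain ⟨c1, c2, c3, c4, c5⟩ := hc
  refine hn ⟨hT, h0 q w hw hA, fun h1 => ⟨fun h2 => c1 ⟨h1, hA, Or.inl h2⟩, fun h2 => ?_⟩, fun h1 => ⟨fun h2 => c3 ⟨h1, h2⟩,
    fun h2 => c2 ⟨Or.inl h1, h2⟩, fun h2 => c5 ?_⟩⟩
  · refine nrW_mono (M := C.M ka) (x := 4000 * MVN.d1 C.Lam ka C.c0) (y := xN C.Lam ka C.c0) ?_
      (fun h3 => c2 ⟨Or.inr h1, h3⟩) h2
    have a2 := C.d0_pos
    unfold xN
    linarith
  · have hq1 : q % 5 = 1 := h1.1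
    have hn : ∀ j : Fin 3, j ≠ i → ¬ sts (C.M ka) j q w := fun j hj h3 => c4 ⟨h1, i, j, hj.symm, hs, h3⟩
    refine ⟨ruO_lt C.tb (C.d1_pos ka) (C.d1_le ka) (C.kb_pos ka) C.d0_pos C.d0_le C.d0_pos C.p1_pos (C.z_pos ka) h1,
      ⟨fun h4 => c3 ⟨h1, h4⟩, h2, hn k hik.symm, hn m him.symm⟩, ?_, hs⟩
    exact alz_sR C.tb hq1 hw (aT_aO2 C.tb ha) (MV.nu_le (M := C.M ka) q w)

/-- **THE BAD TUPLES OF TWO** -/
theorem bd2_C {A : ℕ} (hA : 80 ≤ A) (ka K : ℕ) (R : CT.Rounds) : AllC A (fun C => ∀ (i : Fin 3) (eF : ℝ), ∃ c : KC, c.eF = eF ∧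
    c.eS = CT.ix C.Lam R.ks ∧ CT.KcB R C.Lam c ∧ ∀ (Gd : ℕ → C.Q → Prop) (al0 : ℕ → C.O → Prop),
      (∀ q w, C.tb.Ps.p w ≠ 0 → Alv C.h C.v C.tb C.p q w → al0 q w) →
      ∑ q ∈ range (5 * C.T), C.tb.Ps.Pr (bd2 C ka Gd c i al0 q) ≤ (pw C.Lam K)⁻¹) := by
  refine allc_mono (((prv_C hA ka (K + 2)).and (near_C A ka (K + 2) R)).and (((pub_C A ka (K + 2)).and
    (two_v hA ka (K + 2) (n0_all A ka))).and (rest_T hA ka (K + 2)))) fun C hCA ⟨⟨h1, h2⟩, ⟨h3, h4⟩, h5⟩ i eF => ?_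
  subst hCA
  have hL := C.hL
  obtain ⟨k, m, hik, him, hkm, hall⟩ := two_other i
  obtain ⟨c, g1, g2, g3, g4⟩ := h2 i eF
  refine ⟨c, g1, g2, g3, fun Gd al0 h0 => ?_⟩
  have s1 : ∀ q ∈ range (5 * C.T), C.tb.Ps.Pr (bd2 C ka Gd c i al0 q) ≤
      C.tb.Ps.Pr (fun w => rpO C.tb C.v i q w ∧ Alv C.h C.v C.tb C.p q w ∧
        (Mv (C.M ka) i q w ∨ ∃ c, c ≠ i ∧ sts (C.M ka) c q w)) +
      (C.tb.Ps.Pr (fun w => (ruO C.tb C.v q w ∨ rpO C.tb C.v i q w) ∧ nrW (C.M ka) c i (xN C.Lam ka C.c0) q w) +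
      (C.tb.Ps.Pr (fun w => ruO C.tb C.v q w ∧ Lsq (C.M ka) q w) +
      (C.tb.Ps.Pr (fun w => ruO C.tb C.v q w ∧ twV (C.M ka) q w) +
      C.tb.Ps.Pr (fun w => lt5 (C.M ka) (NPo C.tb C.v) q w ∧ Rsq (C.M ka) i k m q w ∧
        RZ.Alz C.h C.v (max C.p.X0 C.p.X1) (RZ.rho (nu (C.M ka) q w)) (C.tb.pt 0 w) ∧ sts (C.M ka) i q w)))) := by
    intro q hq
    refine le_trans (C.tb.Ps.Pr_mono fun w hw hh => bd2_cases h0 (Finset.mem_range.1 hq) hw hh hik him)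
      ((RZ.Pr_or C.tb.Ps _ _).trans (add_le_add le_rfl ((RZ.Pr_or C.tb.Ps _ _).trans (add_le_add le_rfl
        ((RZ.Pr_or C.tb.Ps _ _).trans (add_le_add le_rfl (RZ.Pr_or C.tb.Ps _ _)))))))
  refine ipw_sum hL K ((Finset.sum_le_sum s1).trans ?_)
  rw [Finset.sum_add_distrib, Finset.sum_add_distrib, Finset.sum_add_distrib, Finset.sum_add_distrib]
  have t1 := h1 i
  have t5 := h5 i k m hall hik him hkm
  have t6 : (0 : ℝ) < (pw C.Lam (K + 2))⁻¹ := inv_pos.2 (MVN.pw_pos hL _)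
  linarith

/-- a cost times a small number -/
theorem cost_ix {Lam : ℝ} (hL : 2 ≤ Lam) {L x : ℝ} {kL K : ℕ} (h0 : 0 ≤ L) (h1 : L ≤ pw Lam kL)
    (hx : x ≤ (pw Lam (kL + K))⁻¹) : L * x ≤ CT.ix Lam K := by
  have p1 := MVN.pw_pos hL kL
  have p2 := MVN.pw_pos hL K
  have p3 := MVN.pw_pos hL (kL + K)
  have h2 : L * x ≤ pw Lam kL * (pw Lam (kL + K))⁻¹ :=
    (mul_le_mul_of_nonneg_left hx h0).trans (mul_le_mul_of_nonneg_right h1 (inv_pos.2 p3).le)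
  refine h2.trans (le_of_eq ?_)
  unfold CT.ix
  rw [MVN.pw_add hL kL K]
  field_simp

/-- at most ten kinds -/
theorem rk_sum {rk : Finset (Fin 10)} {F : Fin 10 → ℝ} {S x : ℝ} (h : ∀ k ∈ rk, F k ≤ S) (h0 : 0 ≤ S) (hS : 16 * S ≤ x) :
    ∑ k ∈ rk, F k ≤ x := by
  have h1 : ∑ k ∈ rk, F k ≤ rk.card • S := Finset.sum_le_card_nsmul rk F S h
  rw [nsmul_eq_mul] at h1
  have h2 : rk.card ≤ 10 := (Finset.card_le_univ rk).trans (le_of_eq (Fintype.card_fin 10))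
  have h3 : (rk.card : ℝ) ≤ 10 := by exact_mod_cast h2
  nlinarith

/-- **THE THROWN SUMS OF THE FRAMES TWO** -/
theorem thr2_C {A : ℕ} (hA : 80 ≤ A) (ka kL K : ℕ) (R : CT.Rounds) : AllC A (fun C => ∀ (i : Fin 3) (eF : ℝ), ∃ c : KC,
    c.eF = eF ∧ c.eS = CT.ix C.Lam R.ks ∧ CT.KcB R C.Lam c ∧ ∀ (Gd : ℕ → C.Q → Prop) (al0 : ℕ → C.O → Prop),
      (∀ q w, C.tb.Ps.p w ≠ 0 → Alv C.h C.v C.tb C.p q w → al0 q w) →
      ∀ (B : ℝ) (rk : Finset (Fin 10)) (bO zO gM : Fin 10 → ℕ → C.O → Prop),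
      (∀ k q w, C.tb.Ps.p w ≠ 0 → gM2 C.tb (v := C.v) (C.d1_pos ka) (C.d1_le ka) (C.kb_pos ka) C.d0_pos C.d0_le C.d0_pos
        C.p1_pos (C.z_pos ka) c i al0 q w → gM k q w) →
      ∀ L : ℝ, 0 ≤ L → L ≤ pw C.Lam kL →
      L * ∑ k ∈ rk, ∑ q ∈ range (5 * C.T), C.tb.Ps.Pr (thO2 C.h C.tb C.v c B i rk
        (TP.aV C.h C.v C.p Gd (stP (C.M ka)) (spP C.h (C.M ka) C.v) i) bO zO gM k q) ≤ CT.ix C.Lam K ∧
      ∀ e : ℝ, L * ∑ k ∈ rk, ∑ q ∈ range (5 * C.T), C.tb.Ps.Pr (tnO2 C.h C.tb C.v c B i rk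
        (TP.aV C.h C.v C.p Gd (stP (C.M ka)) (spP C.h (C.M ka) C.v) i) gM e k q) ≤ CT.ix C.Lam K) := by
  refine allc_mono (bd2_C hA ka (kL + K + 2) R) fun C hCA h1 i eF => ?_
  subst hCA
  have hL := C.hL
  obtain ⟨c, g1, g2, g3, g4⟩ := h1 i eF
  refine ⟨c, g1, g2, g3, fun Gd al0 h0 B rk bO zO gM hgM L L0 L1 => ?_⟩
  have g5 := g4 Gd al0 h0
  have s0 : 0 ≤ ∑ q ∈ range (5 * C.T), C.tb.Ps.Pr (bd2 C ka Gd c i al0 q) := Finset.sum_nonneg fun q _ => FP.Pr_nonneg _ _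
  have s1 : 16 * ∑ q ∈ range (5 * C.T), C.tb.Ps.Pr (bd2 C ka Gd c i al0 q) ≤ (pw C.Lam (kL + K))⁻¹ := by
    have h2 := ipw_four hL (kL + K)
    have h3 := ipw_four hL (kL + K + 1)
    have e1 : kL + K + 1 + 1 = kL + K + 2 := by omega
    rw [e1] at h3
    linarith
  refine ⟨cost_ix hL L0 L1 (rk_sum (fun k _ => Finset.sum_le_sum fun q _ => C.tb.Ps.Pr_mono fun w hw hh => ?_) s0 s1),
    fun e => cost_ix hL L0 L1 (rk_sum (fun k _ => Finset.sum_le_sum fun q _ => C.tb.Ps.Pr_mono fun w hw hh => ?_) s0 s1)⟩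
  · obtain ⟨a1, _, a3, a4⟩ := hh
    refine ⟨a1, ?_, fun h2 => a3 (hgM k q w hw h2)⟩
    rcases a4 with a5 | a5
    · exact Or.inl a5.1
    · exact Or.inr a5.1
  · exact ⟨hh.1.1, hh.1.2.2.2, fun h2 => hh.1.2.2.1 (hgM k q w hw h2)⟩

end

end Pool.Agent.GMH.RSA
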