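import Pool.Agent.GMH.CR
import Pool.Agent.GMH.GdyT2

/-!
# GMH/Three (helper99): the three-body case, everything is decided at `min (T^b, T^c)` (notes 3926 (C), 3934 (3))

Fixed `a`.  `B`, `C`, `D` independent vertices with cells `cB`, `cC`, `cD`, node = the three cells, `σ` a stopping time of the
nodes, static relation `bad b c`, static functions `ψ = ψY + J1 = ψZ + J2` of `(b, c, d)`, `ψ ≤ L`.

* `Tx s` : `P (bad | cell of b at a time ≤ s, c) > q`; the same at the exact `b` with `B`, `C` exchanged;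
* `Dv s` : `b` is covered at the time `s` by the rows `{E [ψY | b, c_i, cell of d] > lam}` of a sample, threshold `kap`, or
  `E [J2 | b, c_i, cell of d] > lam` for a row of the sample at a time `≤ s`; the same for `c` with `ψZ`, `J1`;
* `rl3 s` : `(b, c)` is released at the time `s = min (T^b, T^c)`: not covered, `E [ψ | b, c, cell of d]
  ≤ 2 lam`.

`three_main` : unreleased part of `bad` unsigned + released part signed.
-/

set_option autoImplicit false
set_option linter.unusedSectionVars false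

namespace Pool.Agent.GMH.Three

open Finset Pool.Agent.PWZ Pool.Agent.M3 Pool.Agent.GMH.Gdy Pool.Agent.GMH.CR

noncomputable section

variable {Om : Type*} [Fintype Om] {P : FP Om}

/-! ## first times -/

/-- first time -/
def fst (A : ℕ → Om → Prop) (s : ℕ) (w : Om) : Prop := A s w ∧ ∀ s' < s, ¬ A s' w

theorem fst_one {A : ℕ → Om → Prop} {w : Om} (s s' : ℕ) (h : fst A s w) (h' : fst A s' w) : s = s' := by
  rcases lt_trichotomy s s' with h1 | h1 | h1
  · exact absurd h.1 (h'.2 s h1)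
  · exact h1
  · exact absurd h'.1 (h.2 s' h1)

theorem fst_ex {A : ℕ → Om → Prop} {s : ℕ} {w : Om} (h : A s w) : ∃ s' ≤ s, fst A s' w := by
  classical
  have hex : ∃ t, A t w := ⟨s, h⟩
  exact ⟨Nat.find hex, Nat.find_min' hex h, Nat.find_spec hex, fun s' hs' => Nat.find_min hex hs'⟩

theorem fst_fac {κ : Type*} {X : ℕ → Om → κ} {A : ℕ → Om → Prop}
    (hA : ∀ s, ∀ s' ≤ s, ∀ v w, X s v = X s w → (A s' v ↔ A s' w)) (s : ℕ) {v w : Om} (h : X s v = X s w) :
    fst A s v ↔ fst A s w := by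
  unfold fst
  rw [hA s s le_rfl v w h]
  exact and_congr_right fun _ => forall_congr' fun s' => forall_congr' fun hs' => not_congr (hA s s' hs'.le v w h)

theorem ex_fst {A : ℕ → Om → Prop} {w : Om} (hm : ∀ s s', s ≤ s' → A s w → A s' w) (n : ℕ) :
    (∃ s, fst A s w ∧ s ≤ n) ↔ A n w :=
  ⟨fun ⟨s, h, hs⟩ => hm s n hs h.1, fun h => by
    obtain ⟨s, hs, h'⟩ := fst_ex h
    exact ⟨s, h', hs⟩⟩

/-! ## rows chosen by the other side -/

section two

variable {κ κ' : ℕ → Type*} {cU : ∀ t, Om → κ t} {cV : ∀ t, Om → κ' t} {α ω : Type*} {U : Om → α} {V : Om → ω}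

/-- an event of `U` which is chosen by `V` -/
theorem E_row (hI : P.Indep U V) (hU : ∀ s, Fac U (cU s)) (hV : ∀ s, Fac V (cV s)) (s : ℕ) {Q : ω → Om → Prop}
    (hQ : ∀ c v w, U v = U w → (Q c v ↔ Q c w)) {e : Om → ℝ} (he : Fac (fun w => (pair cV cU s w, V w)) e) :
    P.E (fun w => e w * ind (Q (V w) w)) = P.E (fun w => e w * cp P cU s (Q (V w)) w) := by
  classical
  set F : ω → α → ℝ := fun c a => ind (∃ v, U v = a ∧ Q c v) with hF
  have hex : ∀ c v, (∃ v', U v' = U v ∧ Q c v') ↔ Q c v :=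
    fun c v => ⟨fun ⟨v', h1, h2⟩ => (hQ c v' v h1).1 h2, fun h => ⟨v, rfl, h⟩⟩
  have e1 : (fun v => ind (Q (V v) v)) = fun v => F (V v) (U v) := by
    funext v
    rw [hF]
    simp only [hex (V v) v]
  rw [← P.E_mul_ce he (fun w => ind (Q (V w) w))]
  refine P.E_congr fun w hw => ?_
  rw [e1, ce_freeze hI.symm hV hU s F hw]
  congr 1
  unfold cp
  congr 1
  funext v
  rw [hF]
  simp only [hex (V w) v]

/-- an event chosen by `V` with small conditional probability -/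
theorem E_row_le (hI : P.Indep U V) (hU : ∀ s, Fac U (cU s)) (hV : ∀ s, Fac V (cV s)) (s : ℕ) {Q : ω → Om → Prop}
    (hQ : ∀ c v w, U v = U w → (Q c v ↔ Q c w)) {e : Om → ℝ} (he : Fac (fun w => (pair cV cU s w, V w)) e)
    (he0 : ∀ w, 0 ≤ e w) {q : ℝ} (hq : ∀ w, P.p w ≠ 0 → e w ≠ 0 → cp P cU s (Q (V w)) w ≤ q) :
    P.E (fun w => e w * ind (Q (V w) w)) ≤ q * P.E e := by
  rw [E_row hI hU hV s hQ he, ← FP.E_smul]
  refine P.E_mono fun w hw => ?_
  by_cases h : e w = 0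
  · rw [h]
    simp
  · have := mul_le_mul_of_nonneg_left (hq w hw h) (he0 w)
    linarith

/-- disjoint events -/
theorem sum_ind' {A : ℕ → Prop} (h1 : ∀ s s', A s → A s' → s = s') {T : ℕ} (hT : ∀ s, A s → s < T) :
    ∑ s ∈ range T, ind (A s) = ind (∃ s, A s) := by
  rw [CR.sum_ind h1 T]
  congr 1
  exact propext ⟨fun ⟨s, _, h⟩ => ⟨s, h⟩, fun ⟨s, h⟩ => ⟨s, hT s h, h⟩⟩

/-- an event at a random time (disjoint events `f s`) -/
theorem E_split {f : ℕ → Om → Prop} (hf1 : ∀ w s s', f s w → f s' w → s = s') {T : ℕ} (hT : ∀ s w, f s w → s < T)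
    (g : Om → ℝ) : P.E (fun w => ind (∃ s, f s w) * g w) = ∑ s ∈ range T, P.E (fun w => ind (f s w) * g w) := by
  rw [← FP.E_sum]
  refine P.E_congr fun w _ => ?_
  rw [← Finset.sum_mul, sum_ind' (fun s s' => hf1 w s s') (fun s => hT s w)]

/-- **a relation at a random time** (disjoint events `f s` which see the node and `V`), small density before -/
theorem next_le (hI : P.Indep U V) (hU : ∀ s, Fac U (cU s)) (hV : ∀ s, Fac V (cV s)) (fU : Filt cU)
    {R : ω → Om → Prop} (hR : ∀ c v w, U v = U w → (R c v ↔ R c w)) {q h : ℝ} (h0 : 0 ≤ h) (q0 : 0 ≤ q)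
    (hm : ∀ s w, P.p w ≠ 0 → P.m (cU s) w ≤ h * P.m (cU (s + 1)) w) {f : ℕ → Om → Prop}
    (hf : ∀ s v w, pair cV cU s v = pair cV cU s w → V v = V w → (f s v ↔ f s w))
    (hf1 : ∀ w s s', f s w → f s' w → s = s') {T : ℕ} (hT : ∀ s w, f s w → s < T)
    (hq : ∀ s w, P.p w ≠ 0 → f (s + 1) w → cp P cU s (R (V w)) w ≤ q) :
    P.E (fun w => ind (∃ s, f s w) * ind (R (V w) w)) ≤ h * q * P.Pr (fun w => ∃ s, f s w) + P.Pr (f 0) := by
  classical
  have hff : ∀ s, Fac (fun w => (pair cV cU s w, V w)) (fun w => ind (f s w)) := fun s =>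
    Fac.ind fun v w hvw => by
      have h3 : pair cV cU s v = pair cV cU s w ∧ V v = V w := Prod.mk.injEq _ _ _ _ ▸ hvw
      exact hf s v w h3.1 h3.2
  have h1 : ∀ s, P.E (fun w => ind (f (s + 1) w) * ind (R (V w) w)) ≤ h * q * P.E (fun w => ind (f (s + 1) w)) := by
    intro s
    refine E_row_le hI hU hV (s + 1) hR (hff (s + 1)) (fun w => ind_nonneg _) fun w hw he => ?_
    have hfw : f (s + 1) w := by
      by_contra hcon
      exact he (ind_not hcon)
    have h6 := cp_ratio (P := P) (Y := cU) (h := h) (s := s) (t := s + 1) (fU s) hw (hm s w hw) (R (V w))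
    exact h6.trans (by have := mul_le_mul_of_nonneg_left (hq s w hw hfw) h0; linarith)
  have hqq : 0 ≤ h * q := mul_nonneg h0 q0
  have h2 : ∀ s ∈ range T, P.E (fun w => ind (f s w) * ind (R (V w) w)) ≤
      h * q * P.E (fun w => ind (f s w)) + (if s = 0 then P.Pr (f 0) else 0) := by
    intro s _
    rcases Nat.eq_zero_or_pos s with rfl | hs0
    · rw [if_pos rfl]
      have h3 : P.E (fun w => ind (f 0 w) * ind (R (V w) w)) ≤ P.Pr (f 0) :=
        P.E_mono fun w _ => mul_le_of_le_one_right (ind_nonneg _) (ind_le_one _)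
      have h4 : 0 ≤ h * q * P.E (fun w => ind (f 0 w)) := mul_nonneg hqq (P.E_nonneg fun _ _ => ind_nonneg _)
      linarith
    · obtain ⟨s', rfl⟩ : ∃ s', s = s' + 1 := ⟨s - 1, by omega⟩
      rw [if_neg (by omega), add_zero]
      exact h1 s'
  rw [E_split hf1 hT]
  refine (Finset.sum_le_sum h2).trans ?_
  rw [Finset.sum_add_distrib, ← Finset.mul_sum, Finset.sum_ite_eq' (range T) 0]
  have h5 : ∑ s ∈ range T, P.E (fun w => ind (f s w)) = P.Pr (fun w => ∃ s, f s w) := by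
    rw [← FP.E_sum]
    exact P.E_congr fun w _ => sum_ind' (fun s s' => hf1 w s s') (fun s => hT s w)
  rw [h5]
  split_ifs
  · exact le_rfl
  · have := P.Pr_nonneg (f 0)
    linarith

/-- **a time dependent row of `U` chosen by `V` at a random time** -/
theorem at_le (hI : P.Indep U V) (hU : ∀ s, Fac U (cU s)) (hV : ∀ s, Fac V (cV s)) {Q : ω → ℕ → Om → Prop}
    (hQ : ∀ c s v w, U v = U w → (Q c s v ↔ Q c s w)) {q : ℝ} (q0 : 0 ≤ q) {f : ℕ → Om → Prop} (N : Om → Prop)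
    (hf : ∀ s v w, pair cV cU s v = pair cV cU s w → V v = V w → (f s v ↔ f s w))
    (hf1 : ∀ w s s', f s w → f s' w → s = s') {T : ℕ} (hT : ∀ s w, f s w → s < T)
    (hq : ∀ s w, P.p w ≠ 0 → f s w → ¬ N w → cp P cU s (Q (V w) s) w ≤ q) :
    P.Pr (fun w => ∃ s, f s w ∧ Q (V w) s w) ≤ q * P.Pr (fun w => ∃ s, f s w) + P.Pr N := by
  classical
  have hff : ∀ s, Fac (fun w => (pair cV cU s w, V w)) (fun w => ind (f s w)) := fun s =>
    Fac.ind fun v w hvw => by
      have h3 : pair cV cU s v = pair cV cU s w ∧ V v = V w := Prod.mk.injEq _ _ _ _ ▸ hvw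
      exact hf s v w h3.1 h3.2
  have h1 : ∀ s, P.E (fun w => ind (f s w) * ind (Q (V w) s w)) ≤
      q * P.E (fun w => ind (f s w)) + P.E (fun w => ind (f s w) * ind (N w)) := by
    intro s
    rw [E_row hI hU hV s (Q := fun c => Q c s) (fun c => hQ c s) (hff s), ← FP.E_smul, ← FP.E_add]
    refine P.E_mono fun w hw => ?_
    by_cases h2 : f s w
    · rw [ind_of h2, one_mul, mul_one, one_mul]
      by_cases h3 : N w
      · rw [ind_of h3]
        have : cp P cU s (Q (V w) s) w ≤ 1 := P.ce_le_const (fun _ _ => ind_le_one _) hw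
        linarith
      · rw [ind_not h3, add_zero]
        exact hq s w hw h2 h3
    · rw [ind_not h2]
      simp
  have e1 : P.Pr (fun w => ∃ s, f s w ∧ Q (V w) s w) = ∑ s ∈ range T, P.E (fun w => ind (f s w) * ind (Q (V w) s w)) := by
    unfold FP.Pr
    rw [← FP.E_sum]
    refine P.E_congr fun w _ => ?_
    rw [← sum_ind' (A := fun s => f s w ∧ Q (V w) s w) (fun s s' h h' => hf1 w s s' h.1 h'.1)
      (fun s h => hT s w h.1)]
    exact Finset.sum_congr rfl fun s _ => ind_and _ _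
  have e2 : P.Pr (fun w => ∃ s, f s w) = ∑ s ∈ range T, P.E (fun w => ind (f s w)) := by
    unfold FP.Pr
    rw [← FP.E_sum]
    exact P.E_congr fun w _ => (sum_ind' (fun s s' => hf1 w s s') (fun s => hT s w)).symm
  have h3 : ∑ s ∈ range T, P.E (fun w => ind (f s w) * ind (N w)) ≤ P.Pr N := by
    rw [← E_split hf1 hT]
    exact P.E_mono fun w _ => mul_le_of_le_one_left (ind_nonneg _) (ind_le_one _)
  rw [e1, e2, Finset.mul_sum]
  refine (Finset.sum_le_sum fun s _ => h1 s).trans ?_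
  rw [Finset.sum_add_distrib]
  linarith

end two

/-! ## three vertices -/

section three

variable {κ κ' κ'' : ℕ → Type*} {cB : ∀ t, Om → κ t} {cC : ∀ t, Om → κ' t} {cD : ∀ t, Om → κ'' t}
  {α β δ : Type*} {B : Om → α} {C : Om → β} {D : Om → δ}

/-- the node -/
def nd (cB : ∀ t, Om → κ t) (cC : ∀ t, Om → κ' t) (cD : ∀ t, Om → κ'' t) (s : ℕ) (w : Om) : κ s × κ' s × κ'' s :=
  (cB s w, cC s w, cD s w)

theorem nd_eq {s : ℕ} {v w : Om} : nd cB cC cD s v = nd cB cC cD s w ↔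
    cB s v = cB s w ∧ cC s v = cC s w ∧ cD s v = cD s w := by
  unfold nd
  rw [Prod.mk.injEq, Prod.mk.injEq]

/-- an exact vertex and the cell of another one -/
def vc (B : Om → α) (cD : ∀ t, Om → κ'' t) (s : ℕ) (w : Om) : α × κ'' s := (B w, cD s w)

theorem vc_eq {s : ℕ} {v w : Om} : vc B cD s v = vc B cD s w ↔ B v = B w ∧ cD s v = cD s w := by
  unfold vc
  rw [Prod.mk.injEq]

/-- three independent vertices, their cells shrink by at most the factor `h` -/
structure Fr (P : FP Om) (B : Om → α) (C : Om → β) (D : Om → δ) (cB : ∀ t, Om → κ t) (cC : ∀ t, Om → κ' t)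
    (cD : ∀ t, Om → κ'' t) (h : ℝ) : Prop where
  iB : P.Indep B (fun w => (C w, D w))
  iC : P.Indep C (fun w => (B w, D w))
  iD : P.Indep (fun w => (B w, C w)) D
  hB : ∀ s, Fac B (cB s)
  hC : ∀ s, Fac C (cC s)
  hD : ∀ s, Fac D (cD s)
  fB : Filt cB
  fC : Filt cC
  fD : Filt cD
  mB : ∀ s w, P.p w ≠ 0 → P.m (cB s) w ≤ h * P.m (cB (s + 1)) w
  mC : ∀ s w, P.p w ≠ 0 → P.m (cC s) w ≤ h * P.m (cC (s + 1)) w
  h0 : 0 ≤ h

variable {h : ℝ}

theorem Fr.swap (H : Fr P B C D cB cC cD h) : Fr P C B D cC cB cD h where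
  iB := H.iC
  iC := H.iB
  iD := H.iD.mono (fun v w e => by
    have e' : B v = B w ∧ C v = C w := Prod.mk.injEq _ _ _ _ ▸ e
    show (C v, B v) = (C w, B w)
    rw [e'.1, e'.2]) (Fac.refl _)
  hB := H.hC
  hC := H.hB
  hD := H.hD
  fB := H.fC
  fC := H.fB
  fD := H.fD
  mB := H.mC
  mC := H.mB
  h0 := H.h0

theorem vc_filt (fD : Filt cD) : Filt (vc B cD) := fun t v w e =>
  vc_eq.2 ⟨(vc_eq.1 e).1, fD t v w (vc_eq.1 e).2⟩

theorem vc_hV (hD : ∀ s, Fac D (cD s)) (s : ℕ) : Fac (fun w => (B w, D w)) (vc B cD s) := fun v w e => by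
  have e' : B v = B w ∧ D v = D w := Prod.mk.injEq _ _ _ _ ▸ e
  exact vc_eq.2 ⟨e'.1, hD s v w e'.2⟩

variable (P B D cD) in
/-- mean of `F b c d` over the cell of `d` at the exact `b`, row `c` -/
def mn (F : α → β → δ → ℝ) (c : β) (s : ℕ) (w : Om) : ℝ :=
  ru P (vc B cD) (fun w => (B w, D w)) (fun c y => F y.1 c y.2) c s w

theorem mn_fac (F : α → β → δ → ℝ) (c : β) (s : ℕ) {v w : Om} (h1 : B v = B w) (h2 : cD s v = cD s w) :
    mn P cD B D F c s v = mn P cD B D F c s w := ru_fac _ _ _ _ (vc_eq.2 ⟨h1, h2⟩)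

theorem mn_eq (H : Fr P B C D cB cC cD h) (F : α → β → δ → ℝ) (c : β) (s : ℕ) {w : Om} (hw : P.p w ≠ 0) :
    mn P cD B D F c s w = P.ce (cD s) (fun v => F (B w) c (D v)) w := by
  have hI : P.Indep B D := H.iD.mono (fun v w e => (Prod.mk.injEq _ _ _ _ ▸ e : B v = B w ∧ C v = C w).1) (Fac.refl _)
  have h1 := ce_freeze (P := P) (U := B) (V := D) (cU := fun _ _ => ()) (cV := cD) hI
    (fun _ => Fac.const _ _) H.hD s (fun b d => F b c d) hw
  rw [← h1]
  unfold mn ru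
  exact P.ce_congr_map (fun v w e => by
      show (((), cD s v), B v) = (((), cD s w), B w)
      rw [(vc_eq.1 e).1, (vc_eq.1 e).2]) (fun v w e => by
      have e' : ((), cD s v) = ((), cD s w) ∧ B v = B w := Prod.mk.injEq _ _ _ _ ▸ e
      exact vc_eq.2 ⟨e'.2, (Prod.mk.injEq _ _ _ _ ▸ e'.1 : () = () ∧ cD s v = cD s w).2⟩) _ w

variable (P B C D cD) in
/-- mean of `F` over the cell of `d` at the exact `b`, `c` -/
def mn3 (F : α → β → δ → ℝ) (s : ℕ) (w : Om) : ℝ := P.ce (cD s) (fun v => F (B w) (C w) (D v)) w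

variable (P cB B C) in
/-- the density of the `b` which are bad with the true `c` has been at least `q` at a time `≤ s` -/
def Tx (bad : α → β → Prop) (q : ℝ) (s : ℕ) (w : Om) : Prop :=
  ∃ s' ≤ s, q < cp P cB s' (fun v => bad (B v) (C w)) w

theorem Tx_mono {bad : α → β → Prop} {q : ℝ} {s s' : ℕ} (hs : s ≤ s') {w : Om} (h : Tx P cB B C bad q s w) :
    Tx P cB B C bad q s' w := by
  obtain ⟨t, ht, h'⟩ := h
  exact ⟨t, ht.trans hs, h'⟩

theorem Tx_fac (fB : Filt cB) {bad : α → β → Prop} {q : ℝ} {s : ℕ} {v w : Om} (h1 : cB s v = cB s w)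
    (h2 : C v = C w) : Tx P cB B C bad q s v ↔ Tx P cB B C bad q s w := by
  unfold Tx
  refine exists_congr fun s' => and_congr_right fun hs' => ?_
  rw [h2, cp_fac s' _ v w (fB.le hs' v w h1)]

variable (P cB cD B D) in
/-- rows of the covers of `b` -/
def rwY (ψY : α → β → δ → ℝ) (lam : ℝ) (c : β) (s : ℕ) (w : Om) : Prop := lam < mn P cD B D ψY c s w

variable (P cB cD B D) in
/-- `b` is covered or a row of the sample has deviated, at a time `≤ s` -/
def Dv (ψY J : α → β → δ → ℝ) (kap lam : ℝ) {M : ℕ} (x : Fin M → β) (s : ℕ) (w : Om) : Prop :=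
  covT P (pair cB cD) kap (rowsT (rwY P cD B D ψY lam) x) M (s + 1) w ∨
    dY P (vc B cD) (fun w => (B w, D w)) (fun c y => J y.1 c y.2) lam x s w

theorem rwY_fac {ψY : α → β → δ → ℝ} {lam : ℝ} {c : β} {s : ℕ} {v w : Om} (h1 : B v = B w) (h2 : cD s v = cD s w) :
    rwY P cD B D ψY lam c s v ↔ rwY P cD B D ψY lam c s w := by
  unfold rwY
  rw [mn_fac ψY c s h1 h2]

theorem rows_facY {ψY : α → β → δ → ℝ} {lam : ℝ} {M : ℕ} {x : Fin M → β} (s r : ℕ) (v w : Om)
    (h : vc B cD s v = vc B cD s w) : rowsT (rwY P cD B D ψY lam) x s r v ↔ rowsT (rwY P cD B D ψY lam) x s r w := by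
  unfold rowsT
  exact exists_congr fun _ => rwY_fac (vc_eq.1 h).1 (vc_eq.1 h).2

theorem cov_facY (hB : ∀ s, Fac B (cB s)) (fD : Filt cD) {ψY : α → β → δ → ℝ} {kap lam : ℝ} {M : ℕ}
    {x : Fin M → β} {s : ℕ} {v w : Om} (h1 : B v = B w) (h2 : cD s v = cD s w) :
    covT P (pair cB cD) kap (rowsT (rwY P cD B D ψY lam) x) M (s + 1) v ↔
      covT P (pair cB cD) kap (rowsT (rwY P cD B D ψY lam) x) M (s + 1) w :=
  CvT_fac (P := P) (X := pair cB cD) (G := vc B cD) (vc_filt fD)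
    (fun t v w e => pair_eq.2 ⟨hB t v w (vc_eq.1 e).1, (vc_eq.1 e).2⟩) rows_facY s M v w (vc_eq.2 ⟨h1, h2⟩)

theorem Dv_fac (hB : ∀ s, Fac B (cB s)) (fD : Filt cD) {ψY J : α → β → δ → ℝ} {kap lam : ℝ} {M : ℕ}
    {x : Fin M → β} {s : ℕ} {v w : Om} (h1 : B v = B w) (h2 : cD s v = cD s w) :
    Dv P cB cD B D ψY J kap lam x s v ↔ Dv P cB cD B D ψY J kap lam x s w := by
  unfold Dv
  rw [cov_facY hB fD h1 h2, dY_iff (vc_filt fD) (vc_eq.2 ⟨h1, h2⟩)]

theorem Dv_mono {ψY J : α → β → δ → ℝ} {kap lam : ℝ} {M : ℕ} {x : Fin M → β} {s s' : ℕ} (hs : s ≤ s') {w : Om}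
    (h : Dv P cB cD B D ψY J kap lam x s w) : Dv P cB cD B D ψY J kap lam x s' w := by
  rcases h with h | h
  · exact Or.inl (covT_mono (by omega) h)
  · exact Or.inr (dY_mono hs h)

theorem Stp.nd_swap {σ : Om → ℕ} (h : Stp (nd cB cC cD) σ) : Stp (nd cC cB cD) σ := fun s v w e => by
  have e' := nd_eq.1 e
  exact h s v w (nd_eq.2 ⟨e'.2.1, e'.1, e'.2.2⟩)

theorem nd_filt (fB : Filt cB) (fC : Filt cC) (fD : Filt cD) : Filt (nd cB cC cD) := fun t v w e => by
  have e' := nd_eq.1 e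
  exact nd_eq.2 ⟨fB t v w e'.1, fC t v w e'.2.1, fD t v w e'.2.2⟩

theorem Stp.nd_le {σ : Om → ℕ} (H : Fr P B C D cB cC cD h) (hσ : Stp (nd cB cC cD) σ) {s : ℕ} {v w : Om}
    (h1 : cB s v = cB s w) (h2 : cC s v = cC s w) (h3 : cD s v = cD s w) : s ≤ σ v ↔ s ≤ σ w :=
  Stp.le_fac (nd_filt H.fB H.fC H.fD) hσ s (nd_eq.2 ⟨h1, h2, h3⟩)

theorem Stp.nd_eq' {σ : Om → ℕ} (H : Fr P B C D cB cC cD h) (hσ : Stp (nd cB cC cD) σ) {s : ℕ} {v w : Om}
    (h1 : cB s v = cB s w) (h2 : cC s v = cC s w) (h3 : cD s v = cD s w) : σ v = s ↔ σ w = s := by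
  have h4 := Stp.nd_le H hσ h1 h2 h3
  have h5 := hσ s v w (nd_eq.2 ⟨h1, h2, h3⟩)
  omega

variable {bad : α → β → Prop} {q kap lam L : ℝ} {ψ ψY ψZ J J' : α → β → δ → ℝ} {σ : Om → ℕ} {T : ℕ}

/-- **bad at a first time, before the density at the exact `c` is large** -/
theorem first_bad (H : Fr P B C D cB cC cD h) (hσ : Stp (nd cB cC cD) σ) (hT : ∀ w, σ w < T) (q0 : 0 ≤ q)
    {A : ℕ → Om → Prop}
    (hA : ∀ s, ∀ s' ≤ s, ∀ v w, cB s v = cB s w → C v = C w → cD s v = cD s w → (A s' v ↔ A s' w)) :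
    P.E (fun w => ind (∃ s, (fst A s w ∧ ∀ s' < s, ¬ Tx P cB B C bad q s' w) ∧ s ≤ σ w) *
        ind (bad (B w) (C w))) ≤
      h * q * P.Pr (fun w => ∃ s, (fst A s w ∧ ∀ s' < s, ¬ Tx P cB B C bad q s' w) ∧ s ≤ σ w) + P.Pr (A 0) := by
  have h1 := next_le (P := P) (U := B) (V := fun w => (C w, D w)) (cU := cB) (cV := vc C cD) H.iB H.hB
    (vc_hV H.hD) H.fB (R := fun y v => bad (B v) y.1) (fun c v w e => by simp only [e]) H.h0 q0 H.mB
    (f := fun s w => (fst A s w ∧ ∀ s' < s, ¬ Tx P cB B C bad q s' w) ∧ s ≤ σ w) (fun s v w e _ => by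
      have e1 := pair_eq.1 e
      have e2 := vc_eq.1 e1.1
      have hAs : fst A s v ↔ fst A s w := by
        unfold fst
        rw [hA s s le_rfl v w e1.2 e2.1 e2.2]
        exact and_congr_right fun _ => forall_congr' fun s' => forall_congr' fun hs' =>
          not_congr (hA s s' hs'.le v w e1.2 e2.1 e2.2)
      rw [hAs, Stp.nd_le H hσ e1.2 (H.hC s v w e2.1) e2.2]
      refine and_congr_left fun _ => and_congr_right fun _ => forall_congr' fun s' => forall_congr' fun hs' => ?_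
      rw [Tx_fac H.fB (H.fB.le hs'.le v w e1.2) e2.1])
    (fun w s s' a b => fst_one s s' a.1.1 b.1.1) (T := T) (fun s w a => by have := hT w; have := a.2; omega)
    (fun s w hw a => by
      by_contra hcon
      exact a.1.2 s (Nat.lt_succ_self s) ⟨s, le_rfl, not_le.1 hcon⟩)
  refine h1.trans (add_le_add le_rfl (P.Pr_mono fun w _ a => a.1.1.1))

/-- the time `T^c` itself -/
theorem bad_Tx (H : Fr P B C D cB cC cD h) (hσ : Stp (nd cB cC cD) σ) (hT : ∀ w, σ w < T) (q0 : 0 ≤ q) :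
    P.E (fun w => ind (Tx P cB B C bad q (σ w) w) * ind (bad (B w) (C w))) ≤
      h * q * P.Pr (fun w => Tx P cB B C bad q (σ w) w) + P.Pr (Tx P cB B C bad q 0) := by
  have h1 := first_bad (bad := bad) H hσ hT q0 (A := Tx P cB B C bad q) (fun s s' hs v w e1 e2 _ =>
    Tx_fac H.fB (H.fB.le hs v w e1) e2)
  have e : ∀ w, (∃ s, (fst (Tx P cB B C bad q) s w ∧ ∀ s' < s, ¬ Tx P cB B C bad q s' w) ∧ s ≤ σ w) ↔
      Tx P cB B C bad q (σ w) w := by
    intro w
    rw [← ex_fst (A := Tx P cB B C bad q) (fun s s' hs => Tx_mono hs) (σ w)]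
    exact ⟨fun ⟨s, a, b⟩ => ⟨s, a.1, b⟩, fun ⟨s, a, b⟩ => ⟨s, ⟨a, a.2⟩, b⟩⟩
  simp only [e] at h1
  exact h1

/-- the sampled rows of `c`: the true row is bad -/
def bdY (P : FP Om) (cB : ∀ t, Om → κ t) (cD : ∀ t, Om → κ'' t) (B : Om → α) (C : Om → β) (D : Om → δ)
    (ψY : α → β → δ → ℝ) (kap lam : ℝ) {M : ℕ} (x : Fin M → β) (T : ℕ) (w : Om) : Prop :=
  badT P (pair cB cD) kap (rowsT (rwY P cD B D ψY lam) x) M (rwY P cD B D ψY lam (C w)) T w

/-- **the unsigned part at the time `T^c`** : `b` and `c` are not covered and the mean of `ψ` is large -/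
theorem late_Tx (H : Fr P B C D cB cC cD h) (hσ : Stp (nd cB cC cD) σ) (hT : ∀ w, σ w < T) (k0 : 0 ≤ kap)
    (hψ : ∀ b c d, ψ b c d = ψY b c d + J b c d) {M M' : ℕ} (x : Fin M → β) (y : Fin M' → α) :
    P.Pr (fun w => ∃ s, (fst (Tx P cB B C bad q) s w ∧ s ≤ σ w) ∧
        ¬ covT P (pair cB cD) kap (rowsT (rwY P cD B D ψY lam) x) M (s + 1) w ∧
        ¬ dY P (vc C cD) (fun w => (C w, D w)) (fun b y => J b y.1 y.2) lam y s w ∧
        2 * lam < mn3 P cD B C D ψ s w) ≤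
      kap / 2 * P.Pr (fun w => Tx P cB B C bad q (σ w) w) + P.Pr (bdY P cB cD B C D ψY kap lam x T) +
        P.Pr (fd P (vc C cD) B (fun w => (C w, D w)) (fun b y => J b y.1 y.2) lam y T) := by
  set Q : β → ℕ → Om → Prop := fun c s v => rwY P cD B D ψY lam c s v ∧
    ¬ covT P (pair cB cD) kap (rowsT (rwY P cD B D ψY lam) x) M (s + 1) v with hQ
  have h1 := at_le (P := P) (U := fun w => (B w, D w)) (V := C) (cU := pair cB cD) (cV := cC) H.iC.symm
    (fun s v w e => by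
      have e' : B v = B w ∧ D v = D w := Prod.mk.injEq _ _ _ _ ▸ e
      exact pair_eq.2 ⟨H.hB s v w e'.1, H.hD s v w e'.2⟩) H.hC (Q := Q) (q := kap / 2)
    (f := fun s w => fst (Tx P cB B C bad q) s w ∧ s ≤ σ w)
    (fun c s v w e => by
      have e' : B v = B w ∧ D v = D w := Prod.mk.injEq _ _ _ _ ▸ e
      rw [hQ]
      simp only
      rw [rwY_fac e'.1 (H.hD s v w e'.2), cov_facY H.hB H.fD e'.1 (H.hD s v w e'.2)])
    (by linarith) (bdY P cB cD B C D ψY kap lam x T)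
    (fun s v w e e2 => by
      have e3 := pair_eq.1 e
      have e4 := pair_eq.1 e3.2
      rw [Stp.nd_le H hσ e4.1 e3.1 e4.2]
      refine and_congr_left fun _ => ?_
      unfold fst
      rw [Tx_fac H.fB e4.1 e2]
      refine and_congr_right fun _ => forall_congr' fun s' => forall_congr' fun hs' => ?_
      rw [Tx_fac H.fB (H.fB.le hs'.le v w e4.1) e2])
    (fun w s s' a b => fst_one s s' a.1 b.1) (T := T) (fun s w a => by have := hT w; have := a.2; omega)
    (fun s w hw a hN => by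
      by_contra hcon
      refine hN ⟨s, by have := hT w; have := a.2; omega, ?_⟩
      have := (not_le.1 hcon).le
      exact this)
  have e : ∀ w, (∃ s, fst (Tx P cB B C bad q) s w ∧ s ≤ σ w) ↔ Tx P cB B C bad q (σ w) w := fun w =>
    ex_fst (A := Tx P cB B C bad q) (fun s s' hs => Tx_mono hs) (σ w)
  simp only [e] at h1
  refine le_trans ?_ (add_le_add h1 (le_refl
    (P.Pr (fd P (vc C cD) B (fun w => (C w, D w)) (fun b y => J b y.1 y.2) lam y T))))
  refine le_trans (P.Pr_mono (t := fun w => (∃ s, (fst (Tx P cB B C bad q) s w ∧ s ≤ σ w) ∧ Q (C w) s w) ∨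
    fd P (vc C cD) B (fun w => (C w, D w)) (fun b y => J b y.1 y.2) lam y T w) fun w hw => ?_) (P.Pr_or_le _ _)
  rintro ⟨s, h2, h3, h4, h5⟩
  by_cases h6 : fd P (vc C cD) B (fun w => (C w, D w)) (fun b y => J b y.1 y.2) lam y T w
  · exact Or.inr h6
  refine Or.inl ⟨s, h2, ?_, h3⟩
  have h7 : ¬ lam < ru P (vc C cD) (fun w => (C w, D w)) (fun b y => J b y.1 y.2) (B w) s w := fun h8 =>
    h6 ⟨s, by have := hT w; have := h2.2; omega, h8, h4⟩
  have h8 : ru P (vc C cD) (fun w => (C w, D w)) (fun b y => J b y.1 y.2) (B w) s w =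
      P.ce (cD s) (fun v => J (B w) (C w) (D v)) w := mn_eq H.swap (fun c b d => J b c d) (B w) s hw
  have h9 : mn3 P cD B C D ψ s w = P.ce (cD s) (fun v => ψY (B w) (C w) (D v)) w +
      P.ce (cD s) (fun v => J (B w) (C w) (D v)) w := by
    unfold mn3
    simp only [hψ]
    exact P.ce_add _ _ _ _
  show lam < mn P cD B D ψY (C w) s w
  rw [mn_eq H ψY (C w) s hw]
  rw [h8] at h7
  linarith [not_lt.1 h7]

/-- **the released part, signed** -/
theorem rel_signed (H : Fr P B C D cB cC cD h) (hL : ∀ b c d, ψ b c d ≤ L) (l0 : 0 ≤ lam) {e : ℕ → Om → Prop}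
    (he : ∀ s v w, B v = B w → C v = C w → cD s v = cD s w → (e s v ↔ e s w))
    (he1 : ∀ w s s', e s w → e s' w → s = s') (heT : ∀ s w, e s w → s < T)
    (heψ : ∀ s w, e s w → mn3 P cD B C D ψ s w ≤ 2 * lam) :
    P.E (fun w => ind (∃ s, e s w) * ψ (B w) (C w) (D w)) ≤ 2 * lam * P.Pr (fun w => ∃ s, e s w) := by
  have h1 := rel_le (P := P) (U := fun w => (B w, C w)) (V := D) (cU := fun _ w => (B w, C w)) (cV := cD)
    (F := fun y d => ψ y.1 y.2 d) (L := L) (lam := 2 * lam) H.iD (fun _ => Fac.refl _) H.hD (fun y d => hL _ _ _)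
    (by linarith) (e := fun s w => ind (e s w)) (fun s => Fac.ind fun v w a => by
      have a' : pair (fun (_ : ℕ) (w : Om) => (B w, C w)) cD s v = pair (fun (_ : ℕ) (w : Om) => (B w, C w)) cD s w ∧
        (B v, C v) = (B w, C w) := Prod.mk.injEq _ _ _ _ ▸ a
      have a2 := (pair_eq.1 a'.1).2
      have a3 : B v = B w ∧ C v = C w := Prod.mk.injEq _ _ _ _ ▸ a'.2
      exact he s v w a3.1 a3.2 a2) (fun s w => ind_nonneg _) T
  have h2 : ∀ w, ∑ s ∈ range T, ind (e s w) = ind (∃ s, e s w) := fun w =>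
    sum_ind' (fun s s' => he1 w s s') (fun s => heT s w)
  have h3 : P.E (fun w => ∑ s ∈ range T, ind (e s w) *
      ind (2 * lam < ru P cD D (fun (y : α × β) d => ψ y.1 y.2 d) (B w, C w) s w)) = 0 := by
    rw [← P.E_const 0]
    refine P.E_congr fun w _ => Finset.sum_eq_zero fun s _ => ?_
    by_cases h4 : e s w
    · have h5 : ¬ 2 * lam < ru P cD D (fun (y : α × β) d => ψ y.1 y.2 d) (B w, C w) s w := not_lt.2 (heψ s w h4)
      rw [ind_not h5, mul_zero]
    · rw [ind_not h4, zero_mul]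
  simp only [h2] at h1
  rw [h3, mul_zero, add_zero] at h1
  exact h1

/-- **neither time has come** -/
theorem early (H : Fr P B C D cB cC cD h) (hσ : Stp (nd cB cC cD) σ) (hT : ∀ w, σ w < T) {G : ℕ → Om → ℝ}
    (hG : ∀ s, Fac (fun w => (cB s w, C w, D w)) (G s)) (hG0 : ∀ s w, 0 ≤ G s w) :
    P.E (fun w => ind (¬ Tx P cB B C bad q (σ w) w) * ind (bad (B w) (C w)) * G (σ w) w) ≤
      q * P.E (fun w => ind (¬ Tx P cB B C bad q (σ w) w) * G (σ w) w) := by
  rw [E_stop hT (fun s w => ind (¬ Tx P cB B C bad q s w) * ind (bad (B w) (C w)) * G s w),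
    E_stop hT (fun s w => ind (¬ Tx P cB B C bad q s w) * G s w), Finset.mul_sum]
  refine Finset.sum_le_sum fun s _ => ?_
  have h1 := E_row_le (P := P) (U := B) (V := fun w => (C w, D w)) (cU := cB) (cV := vc C cD) H.iB H.hB
    (vc_hV H.hD) s (Q := fun y v => bad (B v) y.1) (fun c v w e => by simp only [e])
    (e := fun w => ind (σ w = s) * (ind (¬ Tx P cB B C bad q s w) * G s w)) (fun v w a => by
      have a' : pair (vc C cD) cB s v = pair (vc C cD) cB s w ∧ (C v, D v) = (C w, D w) :=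
        Prod.mk.injEq _ _ _ _ ▸ a
      have a1 := pair_eq.1 a'.1
      have a2 : C v = C w ∧ D v = D w := Prod.mk.injEq _ _ _ _ ▸ a'.2
      show ind (σ v = s) * (ind (¬ Tx P cB B C bad q s v) * G s v) =
        ind (σ w = s) * (ind (¬ Tx P cB B C bad q s w) * G s w)
      rw [propext (Stp.nd_eq' H hσ a1.2 (H.hC s v w a2.1) (H.hD s v w a2.2)),
        propext (Tx_fac (P := P) (B := B) (bad := bad) (q := q) H.fB a1.2 a2.1), hG s v w (by
          show (cB s v, C v, D v) = (cB s w, C w, D w)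
          rw [a1.2, a2.1, a2.2])]) (fun w => mul_nonneg (ind_nonneg _) (mul_nonneg (ind_nonneg _) (hG0 s w)))
    (q := q) (fun w hw he => by
      have h2 : ¬ Tx P cB B C bad q s w := by
        intro h3
        refine he ?_
        rw [ind_not (not_not.2 h3)]
        ring
      by_contra hcon
      exact h2 ⟨s, le_rfl, not_le.1 hcon⟩)
  refine le_trans (le_of_eq (P.E_congr fun w _ => ?_)) h1
  ring

variable (P cB cC B C) in
/-- `min (T^b, T^c) ≤ s` -/
def TT (bad : α → β → Prop) (q : ℝ) (s : ℕ) (w : Om) : Prop :=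
  Tx P cB B C bad q s w ∨ Tx P cC C B (fun c b => bad b c) q s w

variable (P cB cC cD B C D) in
/-- released at the time `s = min (T^b, T^c)` -/
def rl3 (bad : α → β → Prop) (q kap lam : ℝ) (ψ ψY ψZ J1 J2 : α → β → δ → ℝ) {M M' : ℕ} (x : Fin M → β)
    (y : Fin M' → α) (s : ℕ) (w : Om) : Prop :=
  bad (B w) (C w) ∧ fst (TT P cB cC B C bad q) s w ∧ ¬ Dv P cB cD B D ψY J2 kap lam x s w ∧
    ¬ Dv P cC cD C D (fun c b d => ψZ b c d) (fun c b d => J1 b c d) kap lam y s w ∧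
    mn3 P cD B C D ψ s w ≤ 2 * lam

theorem TT_mono {s s' : ℕ} (hs : s ≤ s') {w : Om} (h : TT P cB cC B C bad q s w) : TT P cB cC B C bad q s' w :=
  h.imp (Tx_mono hs) (Tx_mono hs)

theorem TT_fac (H : Fr P B C D cB cC cD h) {s : ℕ} {v w : Om} (h1 : B v = B w) (h2 : C v = C w) :
    TT P cB cC B C bad q s v ↔ TT P cB cC B C bad q s w := by
  unfold TT
  rw [Tx_fac H.fB (H.hB s v w h1) h2, Tx_fac H.fC (H.hC s v w h2) h1]

/-- **the three-body case** at a stopping time `σ` of the nodes.  `G ≤ 1` sees the cell of `b` and `c`, `d`. -/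
theorem three_main {J1 J2 : α → β → δ → ℝ} (H : Fr P B C D cB cC cD h) (hσ : Stp (nd cB cC cD) σ)
    (hT : ∀ w, σ w < T) (q0 : 0 ≤ q) (k0 : 0 ≤ kap) (l0 : 0 ≤ lam) (L0 : 0 ≤ L) (hL : ∀ b c d, ψ b c d ≤ L)
    (hY : ∀ b c d, ψ b c d = ψY b c d + J1 b c d) (hZ : ∀ b c d, ψ b c d = ψZ b c d + J2 b c d)
    {M M' : ℕ} (x : Fin M → β) (y : Fin M' → α) {G : ℕ → Om → ℝ}
    (hG : ∀ s, Fac (fun w => (cB s w, C w, D w)) (G s)) (hG0 : ∀ s w, 0 ≤ G s w) (hG1 : ∀ s w, G s w ≤ 1) :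
    L * P.E (fun w => ind (bad (B w) (C w) ∧
          ¬ ∃ s ≤ σ w, rl3 P cB cC cD B C D bad q kap lam ψ ψY ψZ J1 J2 x y s w) * G (σ w) w) +
        P.E (fun w => ind (∃ s ≤ σ w, rl3 P cB cC cD B C D bad q kap lam ψ ψY ψZ J1 J2 x y s w) *
          ψ (B w) (C w) (D w)) ≤
      L * q * P.E (fun w => G (σ w) w) +
        L * (h * q) * (P.Pr (fun w => Dv P cB cD B D ψY J2 kap lam x (σ w) w) +
          P.Pr (fun w => Dv P cC cD C D (fun c b d => ψZ b c d) (fun c b d => J1 b c d) kap lam y (σ w) w)) +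
        (L * kap / 2 + 2 * lam * (h * q)) * (P.Pr (fun w => Tx P cB B C bad q (σ w) w) +
          P.Pr (fun w => Tx P cC C B (fun c b => bad b c) q (σ w) w)) +
        L * (P.Pr (Dv P cB cD B D ψY J2 kap lam x 0) +
          P.Pr (Dv P cC cD C D (fun c b d => ψZ b c d) (fun c b d => J1 b c d) kap lam y 0)) +
        2 * lam * (P.Pr (Tx P cB B C bad q 0) + P.Pr (Tx P cC C B (fun c b => bad b c) q 0)) +
        L * (P.Pr (bdY P cB cD B C D ψY kap lam x T) +
          P.Pr (bdY P cC cD C B D (fun c b d => ψZ b c d) kap lam y T) +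
          P.Pr (fd P (vc C cD) B (fun w => (C w, D w)) (fun b y => J1 b y.1 y.2) lam y T) +
          P.Pr (fd P (vc B cD) C (fun w => (B w, D w)) (fun c y => J2 y.1 c y.2) lam x T)) := by
  classical
  have hσ' := Stp.nd_swap hσ
  -- the five unsigned parts
  have u0 := early (bad := bad) (q := q) H hσ hT hG hG0
  have u1 := first_bad (bad := fun c b => bad b c) (q := q) H.swap hσ' hT q0
    (A := Dv P cB cD B D ψY J2 kap lam x) (fun s s' hs v w _ e2 e3 =>
      Dv_fac H.hB H.fD e2 (H.fD.le hs v w e3))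
  have u2 := first_bad (bad := bad) (q := q) H hσ hT q0
    (A := Dv P cC cD C D (fun c b d => ψZ b c d) (fun c b d => J1 b c d) kap lam y)
    (fun s s' hs v w _ e2 e3 => Dv_fac H.hC H.fD e2 (H.fD.le hs v w e3))
  have u3 := late_Tx (bad := bad) (q := q) (lam := lam) H hσ hT k0 hY x y
  have u4 := late_Tx (bad := fun c b => bad b c) (q := q) (lam := lam) (ψ := fun c b d => ψ b c d)
    (ψY := fun c b d => ψZ b c d) (J := fun c b d => J2 b c d) H.swap hσ' hT k0 (fun c b d => hZ b c d) y x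
  -- the signed part
  have s1 := bad_Tx (bad := bad) (q := q) H hσ hT q0
  have s2 := bad_Tx (bad := fun c b => bad b c) (q := q) H.swap hσ' hT q0
  set Eb : Om → Prop := fun w => ∃ s, (fst (Dv P cB cD B D ψY J2 kap lam x) s w ∧
    ∀ s' < s, ¬ Tx P cC C B (fun c b => bad b c) q s' w) ∧ s ≤ σ w with hEb
  set Ec : Om → Prop := fun w => ∃ s, (fst (Dv P cC cD C D (fun c b d => ψZ b c d) (fun c b d => J1 b c d)
    kap lam y) s w ∧ ∀ s' < s, ¬ Tx P cB B C bad q s' w) ∧ s ≤ σ w with hEc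
  set Fc : Om → Prop := fun w => ∃ s, (fst (Tx P cB B C bad q) s w ∧ s ≤ σ w) ∧
        ¬ covT P (pair cB cD) kap (rowsT (rwY P cD B D ψY lam) x) M (s + 1) w ∧
        ¬ dY P (vc C cD) (fun w => (C w, D w)) (fun b y => J1 b y.1 y.2) lam y s w ∧
        2 * lam < mn3 P cD B C D ψ s w with hFc
  set Fb : Om → Prop := fun w => ∃ s, (fst (Tx P cC C B (fun c b => bad b c) q) s w ∧ s ≤ σ w) ∧
        ¬ covT P (pair cC cD) kap (rowsT (rwY P cD C D (fun c b d => ψZ b c d) lam) y) M' (s + 1) w ∧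
        ¬ dY P (vc B cD) (fun w => (B w, D w)) (fun c y => J2 y.1 c y.2) lam x s w ∧
        2 * lam < mn3 P cD C B D (fun c b d => ψ b c d) s w with hFb
  have pw : ∀ w, ind (bad (B w) (C w) ∧
      ¬ ∃ s ≤ σ w, rl3 P cB cC cD B C D bad q kap lam ψ ψY ψZ J1 J2 x y s w) * G (σ w) w ≤
      (ind (¬ Tx P cB B C bad q (σ w) w) * ind (bad (B w) (C w)) * G (σ w) w +
        ind (Eb w) * ind (bad (B w) (C w)) + ind (Ec w) * ind (bad (B w) (C w))) + (ind (Fc w) + ind (Fb w)) := by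
    intro w
    have g0 := hG0 (σ w) w
    have g1 := hG1 (σ w) w
    have p0 : 0 ≤ ind (¬ Tx P cB B C bad q (σ w) w) * ind (bad (B w) (C w)) * G (σ w) w :=
      mul_nonneg (mul_nonneg (ind_nonneg _) (ind_nonneg _)) g0
    have p1 : 0 ≤ ind (Eb w) * ind (bad (B w) (C w)) := mul_nonneg (ind_nonneg _) (ind_nonneg _)
    have p2 : 0 ≤ ind (Ec w) * ind (bad (B w) (C w)) := mul_nonneg (ind_nonneg _) (ind_nonneg _)
    have p3 := ind_nonneg (Fc w)
    have p4 := ind_nonneg (Fb w)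
    by_cases h1 : bad (B w) (C w) ∧ ¬ ∃ s ≤ σ w, rl3 P cB cC cD B C D bad q kap lam ψ ψY ψZ J1 J2 x y s w
    · rw [ind_of h1, one_mul]
      by_cases h2 : Tx P cB B C bad q (σ w) w
      · obtain ⟨s, hs, hf⟩ := fst_ex (A := TT P cB cC B C bad q) (Or.inl h2)
        by_cases h3 : Dv P cB cD B D ψY J2 kap lam x s w
        · obtain ⟨s1, hs1, hf1⟩ := fst_ex h3
          have hE : Eb w := ⟨s1, ⟨hf1, fun s' hs' ht => hf.2 s' (by omega) (Or.inr ht)⟩, by omega⟩
          have e1 : ind (Eb w) * ind (bad (B w) (C w)) = 1 := by rw [ind_of hE, ind_of h1.1, one_mul]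
          linarith
        · by_cases h4 : Dv P cC cD C D (fun c b d => ψZ b c d) (fun c b d => J1 b c d) kap lam y s w
          · obtain ⟨s1, hs1, hf1⟩ := fst_ex h4
            have hE : Ec w := ⟨s1, ⟨hf1, fun s' hs' ht => hf.2 s' (by omega) (Or.inl ht)⟩, by omega⟩
            have e1 : ind (Ec w) * ind (bad (B w) (C w)) = 1 := by rw [ind_of hE, ind_of h1.1, one_mul]
            linarith
          · have h5 : 2 * lam < mn3 P cD B C D ψ s w := by
              by_contra hcon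
              exact h1.2 ⟨s, hs, h1.1, hf, h3, h4, not_lt.1 hcon⟩
            rcases hf.1 with h6 | h6
            · have hE : Fc w := ⟨s, ⟨⟨h6, fun s' hs' ht => hf.2 s' hs' (Or.inl ht)⟩, hs⟩,
                fun h' => h3 (Or.inl h'), fun h' => h4 (Or.inr h'), h5⟩
              have e1 : ind (Fc w) = 1 := ind_of hE
              linarith
            · have hE : Fb w := ⟨s, ⟨⟨h6, fun s' hs' ht => hf.2 s' hs' (Or.inr ht)⟩, hs⟩,
                fun h' => h4 (Or.inl h'), fun h' => h3 (Or.inr h'), h5⟩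
              have e1 : ind (Fb w) = 1 := ind_of hE
              linarith
      · have e1 : ind (¬ Tx P cB B C bad q (σ w) w) * ind (bad (B w) (C w)) * G (σ w) w = G (σ w) w := by
          rw [ind_of h2, ind_of h1.1, one_mul, one_mul]
        linarith
    · rw [ind_not h1, zero_mul]
      linarith
  have hEbP : P.Pr Eb ≤ P.Pr (fun w => Dv P cB cD B D ψY J2 kap lam x (σ w) w) :=
    P.Pr_mono fun w _ ⟨s, a, b⟩ => Dv_mono b a.1.1
  have hEcP : P.Pr Ec ≤ P.Pr (fun w => Dv P cC cD C D (fun c b d => ψZ b c d) (fun c b d => J1 b c d) kap lam y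
      (σ w) w) := P.Pr_mono fun w _ ⟨s, a, b⟩ => Dv_mono b a.1.1
  have hq' : 0 ≤ h * q := mul_nonneg H.h0 q0
  have t0 : P.E (fun w => ind (¬ Tx P cB B C bad q (σ w) w) * G (σ w) w) ≤ P.E (fun w => G (σ w) w) :=
    P.E_mono fun w _ => mul_le_of_le_one_left (hG0 _ _) (ind_le_one _)
  have big := P.E_mono (fun w _ => pw w)
  rw [FP.E_add, FP.E_add, FP.E_add, FP.E_add] at big
  -- the signed part
  have sg := rel_signed (P := P) (T := T) H hL l0
    (e := fun s w => rl3 P cB cC cD B C D bad q kap lam ψ ψY ψZ J1 J2 x y s w ∧ s ≤ σ w)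
    (fun s v w e1 e2 e3 => by
      have f1 : rl3 P cB cC cD B C D bad q kap lam ψ ψY ψZ J1 J2 x y s v ↔
          rl3 P cB cC cD B C D bad q kap lam ψ ψY ψZ J1 J2 x y s w := by
        unfold rl3
        rw [e1, e2, Dv_fac H.hB H.fD e1 e3, Dv_fac H.hC H.fD e2 e3]
        have f2 : fst (TT P cB cC B C bad q) s v ↔ fst (TT P cB cC B C bad q) s w := by
          unfold fst
          rw [TT_fac H e1 e2]
          exact and_congr_right fun _ => forall_congr' fun s' => forall_congr' fun _ =>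
            not_congr (TT_fac H e1 e2)
        have f3 : mn3 P cD B C D ψ s v = mn3 P cD B C D ψ s w := by
          unfold mn3
          rw [e1, e2]
          exact P.ce_fac _ _ v w e3
        rw [f2, f3]
      rw [f1, Stp.nd_le H hσ (H.hB s v w e1) (H.hC s v w e2) e3])
    (fun w s s' a b => fst_one s s' a.1.2.1 b.1.2.1) (fun s w a => by have := hT w; have := a.2; omega)
    (fun s w a => a.1.2.2.2.2)
  have sg2 : P.Pr (fun w => ∃ s, rl3 P cB cC cD B C D bad q kap lam ψ ψY ψZ J1 J2 x y s w ∧ s ≤ σ w) ≤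
      P.E (fun w => ind (Tx P cB B C bad q (σ w) w) * ind (bad (B w) (C w))) +
      P.E (fun w => ind (Tx P cC C B (fun c b => bad b c) q (σ w) w) * ind (bad (B w) (C w))) := by
    unfold FP.Pr
    rw [← FP.E_add]
    refine P.E_mono fun w _ => ?_
    have p1 : 0 ≤ ind (Tx P cB B C bad q (σ w) w) * ind (bad (B w) (C w)) :=
      mul_nonneg (ind_nonneg _) (ind_nonneg _)
    have p2 : 0 ≤ ind (Tx P cC C B (fun c b => bad b c) q (σ w) w) * ind (bad (B w) (C w)) :=
      mul_nonneg (ind_nonneg _) (ind_nonneg _)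
    by_cases h1 : ∃ s, rl3 P cB cC cD B C D bad q kap lam ψ ψY ψZ J1 J2 x y s w ∧ s ≤ σ w
    · rw [ind_of h1]
      obtain ⟨s, h2, h3⟩ := h1
      rcases h2.2.1.1 with h4 | h4
      · have e1 : ind (Tx P cB B C bad q (σ w) w) * ind (bad (B w) (C w)) = 1 := by
          rw [ind_of (Tx_mono h3 h4), ind_of h2.1, one_mul]
        linarith
      · have e1 : ind (Tx P cC C B (fun c b => bad b c) q (σ w) w) * ind (bad (B w) (C w)) = 1 := by
          rw [ind_of (Tx_mono h3 h4), ind_of h2.1, one_mul]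
        linarith
    · rw [ind_not h1]
      linarith
  have e1 : ∀ w, (∃ s ≤ σ w, rl3 P cB cC cD B C D bad q kap lam ψ ψY ψZ J1 J2 x y s w) ↔
      ∃ s, rl3 P cB cC cD B C D bad q kap lam ψ ψY ψZ J1 J2 x y s w ∧ s ≤ σ w := fun w =>
    exists_congr fun s => and_comm
  have sg3 : P.E (fun w => ind (∃ s ≤ σ w, rl3 P cB cC cD B C D bad q kap lam ψ ψY ψZ J1 J2 x y s w) *
      ψ (B w) (C w) (D w)) ≤ 2 * lam * P.Pr (fun w => ∃ s, rl3 P cB cC cD B C D bad q kap lam ψ ψY ψZ J1 J2 x y s w ∧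
        s ≤ σ w) := by
    simp only [e1]
    exact sg
  have m1 := mul_le_mul_of_nonneg_left big L0
  have m2 := mul_le_mul_of_nonneg_left hEbP (mul_nonneg L0 hq')
  have m3 := mul_le_mul_of_nonneg_left hEcP (mul_nonneg L0 hq')
  have m4 := mul_le_mul_of_nonneg_left u0 L0
  have m5 := mul_le_mul_of_nonneg_left t0 (mul_nonneg L0 q0)
  have m6 := mul_le_mul_of_nonneg_left u1 L0
  have m7 := mul_le_mul_of_nonneg_left u2 L0
  have m8 := mul_le_mul_of_nonneg_left u3 L0
  have m9 := mul_le_mul_of_nonneg_left u4 L0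
  have l1 : 0 ≤ 2 * lam := by linarith
  have m10 := mul_le_mul_of_nonneg_left sg2 l1
  have m11 := mul_le_mul_of_nonneg_left s1 l1
  have m12 := mul_le_mul_of_nonneg_left s2 l1
  have z1 : P.E (fun w => ind (Fc w)) = P.Pr Fc := rfl
  have z2 : P.E (fun w => ind (Fb w)) = P.Pr Fb := rfl
  rw [z1, z2] at m1
  linarith

end three

end

end Pool.Agent.GMH.Three
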