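import Pool.Agent.GMH.Three
import Pool.Agent.GMH.GdyVT

/-!
# GMH/Three2 (helper99): payments and means over the samples for GMH/Three

* `cov_pay` : `lam P(b covered at σ) ≤ 2 E PhiT(σ)`, weights = positive parts of the means of the rows;
* `dev_pay` : `lam/2 P(a sampled row has deviated at σ) ≤ E g`;  `Tx_pay` : `q/2 P(T^c ≤ σ) ≤ E g`;
* `Dv_pay` : both together;
* `bdY_le`, `fdc_le` : the means over the samples.
-/

set_option autoImplicit false
set_option linter.unusedSectionVars false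

namespace Pool.Agent.GMH.Three

open Finset Pool.Agent.PWZ Pool.Agent.M3 Pool.Agent.GMH.Gdy Pool.Agent.GMH.CR

noncomputable section

variable {Om : Type*} [Fintype Om] {P : FP Om} {κ κ' κ'' : ℕ → Type*} {cB : ∀ t, Om → κ t} {cC : ∀ t, Om → κ' t}
  {cD : ∀ t, Om → κ'' t} {α β δ : Type*} {B : Om → α} {C : Om → β} {D : Om → δ} {h : ℝ}
  {bad : α → β → Prop} {q kap lam L : ℝ} {ψ ψY ψZ J : α → β → δ → ℝ} {σ : Om → ℕ} {T : ℕ}

/-! ## payments -/

variable (P cD B D) in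
/-- the function of a sampled row -/
def rwf (ψY : α → β → δ → ℝ) {M : ℕ} (x : Fin M → β) (r : ℕ) (w : Om) : ℝ :=
  if hr : r < M then ψY (B w) (x ⟨r, hr⟩) (D w) else 0

/-- the node and the exact `b` -/
def gB (cB : ∀ t, Om → κ t) (cC : ∀ t, Om → κ' t) (cD : ∀ t, Om → κ'' t) (B : Om → α) (s : ℕ) (w : Om) :
    (κ' s × κ s × κ'' s) × α := (pair cC (pair cB cD) s w, B w)

theorem gB_eq {s : ℕ} {v w : Om} : gB cB cC cD B s v = gB cB cC cD B s w ↔
    (cC s v = cC s w ∧ cB s v = cB s w ∧ cD s v = cD s w) ∧ B v = B w := by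
  unfold gB pair
  rw [Prod.mk.injEq, Prod.mk.injEq, Prod.mk.injEq]

theorem gB_filt (H : Fr P B C D cB cC cD h) : Filt (gB cB cC cD B) := fun t v w e => by
  have e' := gB_eq.1 e
  exact gB_eq.2 ⟨⟨H.fC t v w e'.1.1, H.fB t v w e'.1.2.1, H.fD t v w e'.1.2.2⟩, e'.2⟩

/-- given the node and `b` the mean of a function of `b`, `d` is the mean over the cell of `d` -/
theorem ce_gB (H : Fr P B C D cB cC cD h) (F : α → β → δ → ℝ) (c : β) (s : ℕ) {w : Om} (hw : P.p w ≠ 0) :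
    P.ce (gB cB cC cD B s) (fun v => F (B v) c (D v)) w = mn P cD B D F c s w := by
  have h1 := ce_pair (P := P) (U := C) (V := fun w => (B w, D w)) (cU := cC) (cV := vc B cD) H.iC H.hC
    (vc_hV H.hD) s (f := fun v => F (B v) c (D v)) (fun v w e => by
      have e' : B v = B w ∧ D v = D w := Prod.mk.injEq _ _ _ _ ▸ e
      show F (B v) c (D v) = F (B w) c (D w)
      rw [e'.1, e'.2]) hw
  unfold mn ru
  rw [← h1]
  exact P.ce_congr_map (fun v w e => by
      have e' := gB_eq.1 e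
      exact pair_eq.2 ⟨e'.1.1, vc_eq.2 ⟨e'.2, e'.1.2.2⟩⟩) (fun v w e => by
      have e' := pair_eq.1 e
      have e2 := vc_eq.1 e'.2
      exact gB_eq.2 ⟨⟨e'.1, H.hB s v w e2.1, e2.2⟩, e2.1⟩) _ w

/-- **the covers of `b` are paid** -/
theorem cov_pay (H : Fr P B C D cB cC cD h) (hσ : Stp (nd cB cC cD) σ) (k0 : 0 < kap) (l0 : 0 ≤ lam) {M : ℕ}
    (x : Fin M → β) :
    lam * P.Pr (fun w => covT P (pair cB cD) kap (rowsT (rwY P cD B D ψY lam) x) M (σ w + 1) w) ≤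
      2 * P.E (fun w => PhiT P (pair cC (pair cB cD)) kap (rowsT (rwY P cD B D ψY lam) x) M lam
        (vce P (gB cB cC cD B) (rwf B D ψY x)) (σ w) w) := by
  have hV : ∀ s, Fac (fun w => (B w, D w)) (pair cB cD s) := fun s v w e => by
    have e' : B v = B w ∧ D v = D w := Prod.mk.injEq _ _ _ _ ▸ e
    exact pair_eq.2 ⟨H.hB s v w e'.1, H.hD s v w e'.2⟩
  have hGX : ∀ t, Fac (gB cB cC cD B t) (pair cC (pair cB cD) t) := fun t v w e => by
    have e' := gB_eq.1 e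
    exact pair_eq.2 ⟨e'.1.1, pair_eq.2 ⟨e'.1.2.1, e'.1.2.2⟩⟩
  refine cov_leV (P := P) (V := fun w => (B w, D w)) (cV := pair cB cD) (X := pair cC (pair cB cD))
    (pair_filt H.fC (pair_filt H.fB H.fD)) (fun s f hf w hw => ce_pair H.iC H.hC hV s hf hw) hV
    (fun s r v w e => ?_) k0 ?_ (fun s v w e => ?_)
  · have e' : B v = B w ∧ D v = D w := Prod.mk.injEq _ _ _ _ ▸ e
    exact rows_facY s r v w (vc_eq.2 ⟨e'.1, H.hD s v w e'.2⟩)
  · refine WT.of_ce (G := gB cB cC cD B) (gB_filt H) hGX (fun s r v w e => ?_) l0 (rwf B D ψY x)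
      (fun s r w hw hr => ?_)
    · have e' := gB_eq.1 e
      exact rows_facY s r v w (vc_eq.2 ⟨e'.2, e'.1.2.2⟩)
    · obtain ⟨hr1, hr2⟩ := hr
      have e1 : rwf B D ψY x r = fun v => ψY (B v) (x ⟨r, hr1⟩) (D v) := by
        funext v
        unfold rwf
        rw [dif_pos hr1]
      rw [e1, ce_gB H ψY _ s hw]
      exact le_of_lt hr2
  · have e1 := pair_eq.1 e
    have e2 := pair_eq.1 e1.2
    exact hσ s v w (nd_eq.2 ⟨e2.1, e1.1, e2.2⟩)

/-- **the deviations of the sampled rows are paid** -/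
theorem dev_pay (H : Fr P B C D cB cC cD h) (hσ : Stp (nd cB cC cD) σ) (hT : ∀ w, σ w < T) {M : ℕ} (x : Fin M → β)
    {g : Om → ℝ} (hg0 : ∀ w, P.p w ≠ 0 → 0 ≤ g w)
    (hg : ∀ i w, P.p w ≠ 0 → mn P cD B D J (x i) (σ w) w - lam / 2 ≤ g w) :
    lam / 2 * P.Pr (fun w => dY P (vc B cD) (fun w => (B w, D w)) (fun c y => J y.1 c y.2) lam x (σ w) w) ≤
      P.E g :=
  pay_le (P := P) (U := C) (V := fun w => (B w, D w)) (cU := cC) (cV := vc B cD) H.iC H.hC (vc_hV H.hD) H.fC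
    (vc_filt H.fD) x (fun s v w e => by
      have e1 := pair_eq.1 e
      have e2 := vc_eq.1 e1.2
      exact hσ s v w (nd_eq.2 ⟨H.hB s v w e2.1, e1.1, e2.2⟩)) hT hg0 hg

/-- **the time `T^c` is paid by the density at `σ`** -/
theorem Tx_pay (H : Fr P B C D cB cC cD h) (hσ : Stp (nd cB cC cD) σ) (hT : ∀ w, σ w < T)
    {g : Om → ℝ} (hg0 : ∀ w, P.p w ≠ 0 → 0 ≤ g w)
    (hg : ∀ w, P.p w ≠ 0 → cp P cB (σ w) (fun v => bad (B v) (C w)) w - q / 2 ≤ g w) :
    q / 2 * P.Pr (fun w => Tx P cB B C bad q (σ w) w) ≤ P.E g := by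
  classical
  have hI : P.Indep C B := (H.iC.mono (Fac.refl _) (fun v w e =>
    (Prod.mk.injEq _ _ _ _ ▸ e : B v = B w ∧ D v = D w).1))
  have hCB : ∀ s, Fac (fun w => (C w, B w)) (vc C cB s) := vc_hV H.hB
  -- the density as a row
  obtain ⟨w0⟩ : Nonempty Om := by
    by_contra hcon
    have h1 := P.tot
    rw [not_nonempty_iff] at hcon
    simp at h1
  have e1 : ∀ s w, P.p w ≠ 0 → ru P (vc C cB) (fun w => (C w, B w)) (fun (_ : δ) y => ind (bad y.2 y.1)) (D w0) s w =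
      cp P cB s (fun v => bad (B v) (C w)) w := by
    intro s w hw
    have h1 := ce_freeze (P := P) (U := C) (V := B) (cU := fun _ _ => ()) (cV := cB) hI
      (fun _ => Fac.const _ _) H.hB s (fun c b => ind (bad b c)) hw
    unfold ru cp
    rw [← h1]
    exact P.ce_congr_map (fun v w e => by
        show (((), cB s v), C v) = (((), cB s w), C w)
        rw [(vc_eq.1 e).1, (vc_eq.1 e).2]) (fun v w e => by
        have e' : ((), cB s v) = ((), cB s w) ∧ C v = C w := Prod.mk.injEq _ _ _ _ ▸ e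
        exact vc_eq.2 ⟨e'.2, (Prod.mk.injEq _ _ _ _ ▸ e'.1 : () = () ∧ cB s v = cB s w).2⟩) _ w
  have hID : P.Indep D (fun w => (C w, B w)) := H.iD.symm.mono (Fac.refl _) (fun v w e => by
    have e' : B v = B w ∧ C v = C w := Prod.mk.injEq _ _ _ _ ▸ e
    show (C v, B v) = (C w, B w)
    rw [e'.1, e'.2])
  have h2 := pay_le (P := P) (U := D) (V := fun w => (C w, B w)) (cU := cD) (cV := vc C cB)
    (F := fun (_ : δ) y => ind (bad y.2 y.1)) (lam := q) hID H.hD hCB H.fD (vc_filt H.fB)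
    (M := 1) (fun _ => D w0) (σ := σ) (T := T) (fun s v w e => by
      have e1 := pair_eq.1 e
      have e2 := vc_eq.1 e1.2
      exact hσ s v w (nd_eq.2 ⟨e2.2, H.hC s v w e2.1, e1.1⟩)) hT (g := g) hg0 (fun i w hw => by
      rw [e1 _ w hw]
      exact hg w hw)
  refine le_trans (le_of_eq ?_) h2
  congr 1
  refine P.Pr_congr fun w hw => ?_
  unfold Tx dY
  refine exists_congr fun s' => and_congr_right fun _ => ?_
  rw [← e1 s' w hw]
  exact ⟨fun h' => ⟨0, h'⟩, fun ⟨_, h'⟩ => h'⟩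

/-- both payments of `b` -/
theorem Dv_pay (H : Fr P B C D cB cC cD h) (hσ : Stp (nd cB cC cD) σ) (hT : ∀ w, σ w < T) (k0 : 0 < kap)
    (l0 : 0 < lam) {M : ℕ} (x : Fin M → β) {g : Om → ℝ} (hg0 : ∀ w, P.p w ≠ 0 → 0 ≤ g w)
    (hg : ∀ i w, P.p w ≠ 0 → mn P cD B D J (x i) (σ w) w - lam / 2 ≤ g w) :
    lam / 2 * P.Pr (fun w => Dv P cB cD B D ψY J kap lam x (σ w) w) ≤
      P.E (fun w => PhiT P (pair cC (pair cB cD)) kap (rowsT (rwY P cD B D ψY lam) x) M lam
        (vce P (gB cB cC cD B) (rwf B D ψY x)) (σ w) w) + P.E g := by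
  have h1 := cov_pay (ψY := ψY) H hσ k0 l0.le x
  have h2 := dev_pay (J := J) H hσ hT x hg0 hg
  have h3 : P.Pr (fun w => Dv P cB cD B D ψY J kap lam x (σ w) w) ≤
      P.Pr (fun w => covT P (pair cB cD) kap (rowsT (rwY P cD B D ψY lam) x) M (σ w + 1) w) +
      P.Pr (fun w => dY P (vc B cD) (fun w => (B w, D w)) (fun c y => J y.1 c y.2) lam x (σ w) w) :=
    P.Pr_or_le _ _
  have h4 := mul_le_mul_of_nonneg_left h3 (show 0 ≤ lam / 2 by linarith)
  linarith

/-! ## means over the samples -/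

theorem bdY_le [Fintype β] (H : Fr P B C D cB cC cD h) (k0 : 0 < kap) (M T : ℕ) :
    ∑ x : Fin M → β, sw (fun a => P.Pr (fun w => C w = a)) x * P.Pr (bdY P cB cD B C D ψY kap lam x T) ≤
      2 / (kap * (M + 1)) :=
  badT_le (P := P) (U := C) (V := fun w => (B w, D w)) (cV := pair cB cD) H.iC (fun s v w e => by
    have e' : B v = B w ∧ D v = D w := Prod.mk.injEq _ _ _ _ ▸ e
    exact pair_eq.2 ⟨H.hB s v w e'.1, H.hD s v w e'.2⟩) (pair_filt H.fB H.fD) k0 (rwY P cD B D ψY lam) M T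

theorem fdc_le [Fintype β] (H : Fr P B C D cB cC cD h) (M T : ℕ) :
    ∑ x : Fin M → β, sw (fun a => P.Pr (fun w => C w = a)) x *
      P.Pr (fd P (vc B cD) C (fun w => (B w, D w)) (fun c y => J y.1 c y.2) lam x T) ≤ 1 / ((M : ℝ) + 1) :=
  fd_le (P := P) (U := C) (V := fun w => (B w, D w)) (cV := vc B cD) H.iC (vc_hV H.hD) M T

end

end Pool.Agent.GMH.Three
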