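import Pool.Agent.GMH.TopG

/-!
# GMH/TopD: what the missing thin letter knows, helper91

For a run: the sum over the times of the information of all thin letters about the digits and the new thin codes which the
top `i` sees, given the letters below the top, is at most the private cost of the letter of the vertex `i` :
`miss_gain`, `miss_gain_run` (`3 n Lam`). This is the sum of `Dt` of Key3.
-/

set_option autoImplicit false
set_option linter.unusedSectionVars false

namespace Pool.Agent.GMH.V3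

open Finset Pool.Agent.PWZ Pool.Agent.M3 Pool.Agent.GM Pool.Agent.GM.Harm Pool.Agent.GMH Pool.Agent.GMH.NZ
open Pool.Agent.GMH.Dead (Dry Hc_time)

namespace TG

variable {X β γ φ : Type} [Fintype X] [Fintype β] [Fintype φ] [Nonempty X] [Nonempty β]
variable {D : HD (Fin 3) X β γ φ} {al : ℝ} (h : D.Thick al)
  {v : ℕ → Finset (Fin 3) → X → (Fin 3 → β) → Pt (Fin 3) X β φ}
variable {dg : ℕ → X → ℝ} {prr : ℕ → Fin 3 → φ → φ} {T : ℕ} {Lam : ℝ}

/-- the missing point does not see functions of the hidden point and the points of the top -/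
theorem I_miss {t n : ℕ} (htn : t ≤ n) (i : Fin 3) {κ ι : Type*} {V : Pt (Fin 3) X β φ → κ} {R : Pt (Fin 3) X β φ → ι}
    (hV : Fac (fun w => (AA (univ.erase i) w, BB D n (univ.erase i) w)) V)
    (hR : Fac (fun w => (AA (univ.erase i) w, BB D n (univ.erase i) w)) R) :
    (D.P h t).I (fun w => w.2.1 i) V (fun w => (R w, BB D n (univ.erase i) w)) = 0 := by
  have h0 := I_zero h (J := (univ.erase i : Finset (Fin 3))) htn
  have h1 : (D.P h t).I (fun w => (V w, R w)) (fun w => w.2.1) (BB D n (univ.erase i)) ≤ 0 := by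
    rw [← h0]
    exact (D.P h t).I_mono (X := AA (univ.erase i)) (fun w => w.2.1) (hV.prod hR)
  rw [(D.P h t).I_chain] at h1
  have h2 := (D.P h t).I_nonneg R (fun w => w.2.1) (BB D n (univ.erase i : Finset (Fin 3)))
  have h3 : (D.P h t).I V (fun w => w.2.1) (fun w => (R w, BB D n (univ.erase i) w)) ≤ 0 := by linarith
  rw [(D.P h t).I_comm] at h3
  have h4 : (D.P h t).I (fun w => w.2.1 i) V (fun w => (R w, BB D n (univ.erase i) w)) ≤
      (D.P h t).I (fun w => w.2.1) V (fun w => (R w, BB D n (univ.erase i) w)) :=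
    (D.P h t).I_mono V (fun a b hab => congrFun (Prod.mk.inj hab).1 i)
  exact le_antisymm (h4.trans h3) ((D.P h t).I_nonneg _ _ _)

/-- the thin letters below the top -/
theorem lo_AA' (hv : Codes D v) {s n : ℕ} (hsn : s ≤ n + 1) (J : Finset (Fin 3)) :
    Fac (fun w : Pt (Fin 3) X β φ => (AA J w, BB D n J w)) (lo (LL (Um v s)) J) := by
  intro a b hab
  rw [lo_eq]
  intro I hI
  rw [LL_eq]
  refine ⟨Um_AA hv hsn hI.subset hab, fun l hl => ?_⟩
  have h1 := (Prod.mk.inj hab).1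
  rw [AA_eq] at h1
  exact h1.2 l (hl ▸ hI.subset)

/-- the letters below and the letter of the missing vertex give all thin letters -/
theorem ZT_of (s n : ℕ) (i : Fin 3) {a b : Pt (Fin 3) X β φ} (h1 : XL v s i a = XL v s i b)
    (h2 : ZbT D v (Equiv.refl (Fin 3)) s n i a = ZbT D v (Equiv.refl (Fin 3)) s n i b) : ZT D v s n a = ZT D v s n b := by
  have h3 : lo (LL (φ := φ) (Um v s)) (univ.erase i) a = lo (LL (Um v s)) (univ.erase i) b := congrArg Prod.fst h2
  have h4 : BB D n (univ.erase i) a = BB D n (univ.erase i) b := congrArg Prod.snd h2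
  rw [BB_eq] at h4
  have h5 := Prod.mk.inj h1
  refine Prod.ext (funext fun I => ?_) ?_
  · show LL (Um v s) I.1 a = LL (Um v s) I.1 b
    have hI : I.1.card ≤ 1 := I.2
    have hno : ∀ l, univ.erase l ≠ I.1 := fun l => er_ne_thin hI
    rw [LL_eq]
    refine ⟨?_, fun l hl => absurd hl (hno l)⟩
    by_cases hi : I.1 = {i}
    · rw [hi]
      exact h5.2
    · have hs : I.1 ⊂ univ.erase i := by
        refine Finset.ssubset_iff_subset_ne.2 ⟨fun j hj => Finset.mem_erase.2 ⟨?_, mem_univ j⟩, fun hh => hno i hh.symm⟩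
        rintro rfl
        exact hi (Finset.eq_singleton_iff_unique_mem.2 ⟨hj, fun k hk => Finset.card_le_one.1 hI k hk j hj⟩)
      exact (LL_eq.1 (lo_eq.1 h3 I.1 hs)).1
  · show WW D n a = WW D n b
    rw [WW_eq]
    refine ⟨funext fun j => ?_, h4.2.1⟩
    by_cases hj : j = i
    · rw [hj]
      exact h5.1
    · exact h4.1 j (Finset.mem_erase.2 ⟨hj, mem_univ j⟩)

variable (v) in
/-- private entropy of the missing letter given the letters below the top -/
noncomputable def pE (i : Fin 3) (s n t : ℕ) : ℝ :=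
  (D.P h t).Hc (XL v s i) (fun w => (w.2.1 i, ZbT D v (Equiv.refl (Fin 3)) s n i w))

theorem pE_nonneg (i : Fin 3) (s n t : ℕ) : 0 ≤ pE h v i s n t := FP.Hc_nonneg _ _ _

/-- one step -/
theorem miss_step {t s n : ℕ} (i : Fin 3) {κ ι : Type*} {V : Pt (Fin 3) X β φ → κ} {Z' : Pt (Fin 3) X β φ → ι}
    (h0 : (D.P h t).I (fun w => w.2.1 i) V (ZbT D v (Equiv.refl (Fin 3)) s n i) = 0)
    (h1 : Fac (fun w => (w.2.1 i, Z' w)) (fun w => (V w, w.2.1 i, ZbT D v (Equiv.refl (Fin 3)) s n i w))) :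
    (D.P h t).I (ZT D v s n) V (ZbT D v (Equiv.refl (Fin 3)) s n i) +
      (D.P h t).Hc (XL v s i) (fun w => (w.2.1 i, Z' w)) ≤ pE h v i s n t := by
  have h2 : (D.P h t).I (ZT D v s n) V (ZbT D v (Equiv.refl (Fin 3)) s n i) ≤
      (D.P h t).I (XL v s i) V (ZbT D v (Equiv.refl (Fin 3)) s n i) :=
    (D.P h t).I_mono V (fun a b hab => ZT_of s n i (Prod.mk.inj hab).1 (Prod.mk.inj hab).2)
  have h3 := GS.gain_step (D.P h t) (XX := XL v s i) h0 h1
  unfold pE
  linarith

/-- the digit -/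
theorem miss_digit (H : D.Hyp dg prr al T Lam) (hv : Codes D v) {t : ℕ} (ht : t < T) (i : Fin 3) :
    (D.P h t).I (ZT D v (t + 1) t) (fun u => dg t u.1) (ZbT D v (Equiv.refl (Fin 3)) (t + 1) t i) +
      pE h v i (t + 1) (t + 1) t ≤ pE h v i (t + 1) t t := by
  refine miss_step h i (I_miss h le_rfl i ?_ (lo_AA' hv le_rfl _)) ?_
  · intro a b hab
    have h1 := (Prod.mk.inj hab).1
    rw [AA_eq] at h1
    show dg t a.1 = dg t b.1
    rw [h1.1]
  · intro a b hab
    have h1 : a.2.1 i = b.2.1 i := (Prod.mk.inj hab).1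
    have h2 := (Prod.mk.inj hab).2
    have h3 : lo (LL (φ := φ) (Um v (t + 1))) (univ.erase i) a = lo (LL (Um v (t + 1))) (univ.erase i) b :=
      congrArg Prod.fst h2
    have h4 : BB D (t + 1) (univ.erase i) a = BB D (t + 1) (univ.erase i) b := congrArg Prod.snd h2
    rw [BB_eq] at h4
    have h5 := (H.dg_cell t ht _ _).1 h4.2.1
    refine Prod.ext h5.2 (Prod.ext h1 (Prod.ext h3 ?_))
    show BB D t (univ.erase i) a = BB D t (univ.erase i) b
    rw [BB_eq]
    exact ⟨h4.1, h5.1, fun j => D.rb t _ _ (h4.2.2 j)⟩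

/-- the codes -/
theorem miss_codes (hv : Codes D v) (t : ℕ) (i : Fin 3) :
    (D.P h t).I (ZT D v (t + 1) (t + 1)) (YT v (Equiv.refl (Fin 3)) (t + 2) i)
        (ZbT D v (Equiv.refl (Fin 3)) (t + 1) (t + 1) i) +
      (D.P h t).Hc (XL v (t + 1) i) (fun w => (w.2.1 i, ZbT D v (Equiv.refl (Fin 3)) (t + 2) (t + 1) i w)) ≤
      pE h v i (t + 1) (t + 1) t := by
  refine miss_step h i (I_miss h (Nat.le_succ t) i (lo_AA' hv le_rfl _) (lo_AA' hv (by omega) _)) ?_
  intro a b hab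
  have h1 : a.2.1 i = b.2.1 i := (Prod.mk.inj hab).1
  have h2 := (Prod.mk.inj hab).2
  have h3 : lo (LL (φ := φ) (Um v (t + 2))) (univ.erase i) a = lo (LL (Um v (t + 2))) (univ.erase i) b :=
    congrArg Prod.fst h2
  have h4 : BB D (t + 1) (univ.erase i) a = BB D (t + 1) (univ.erase i) b := congrArg Prod.snd h2
  refine Prod.ext h3 (Prod.ext h1 (Prod.ext (lo_eq.2 fun I hI => ?_) h4))
  have h5 := lo_eq.1 h3 I hI
  rw [LL_eq] at h5 ⊢
  exact ⟨(Um_eq.1 h5.1).1, h5.2⟩

/-- dry maps -/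
theorem dry_XL (s : ℕ) (i : Fin 3) : Dry (XL (φ := φ) v s i) := fun a b h1 h2 => by
  show (a.2.1 i, Um v s {i} a.1 a.2.1) = (b.2.1 i, Um v s {i} b.1 b.2.1)
  rw [h1, h2]

theorem dry_Zb (s n : ℕ) (i : Fin 3) : Dry (ZbT (φ := φ) D v (Equiv.refl (Fin 3)) s n i) := fun a b h1 h2 =>
  Prod.ext (lo_noLabel (ne_univ i) h1 h2) (by
    show BB D n (univ.erase i) a = BB D n (univ.erase i) b
    rw [BB_eq, h1, h2]
    exact ⟨fun _ _ => rfl, rfl, fun _ => rfl⟩)

/-- the new private code -/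
theorem miss_new (t : ℕ) (i : Fin 3) : pE h v i (t + 2) (t + 1) (t + 1) ≤
    (D.P h t).Hc (XL v (t + 1) i) (fun w => (w.2.1 i, ZbT D v (Equiv.refl (Fin 3)) (t + 2) (t + 1) i w)) +
      cst h v (t + 1) {i} := by
  have h1 : pE h v i (t + 2) (t + 1) (t + 1) ≤ (D.P h (t + 1)).Hc (fun w => (Vt v (t + 1) {i} w, XL v (t + 1) i w))
      (fun w => (w.2.1 i, ZbT D v (Equiv.refl (Fin 3)) (t + 2) (t + 1) i w)) := by
    unfold pE
    refine (D.P h (t + 1)).Hc_mono _ ?_
    intro a b hab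
    simp only [Prod.mk.injEq] at hab
    obtain ⟨⟨h2, h3⟩, _⟩ := hab
    have h4 := Prod.mk.inj h3
    exact Prod.ext h4.1 (Um_eq.2 ⟨h4.2, h2⟩)
  have h2 := (D.P h (t + 1)).Hc_chain (Vt v (t + 1) {i}) (XL v (t + 1) i)
    (fun w => (w.2.1 i, ZbT D v (Equiv.refl (Fin 3)) (t + 2) (t + 1) i w))
  have h3 : (D.P h (t + 1)).Hc (Vt v (t + 1) {i}) (fun w => (XL v (t + 1) i w, w.2.1 i,
      ZbT D v (Equiv.refl (Fin 3)) (t + 2) (t + 1) i w)) ≤ cst h v (t + 1) {i} := by
    unfold cst cost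
    refine (D.P h (t + 1)).Hc_anti _ ?_
    intro a b hab
    simp only [Prod.mk.injEq] at hab ⊢
    obtain ⟨h4, h5, h6⟩ := hab
    have h7 : lo (LL (φ := φ) (Um v (t + 2))) (univ.erase i) a = lo (LL (Um v (t + 2))) (univ.erase i) b :=
      congrArg Prod.fst h6
    have h8 : BB D (t + 1) (univ.erase i) a = BB D (t + 1) (univ.erase i) b := congrArg Prod.snd h6
    have h0 : (∅ : Finset (Fin 3)) ⊂ univ.erase i := by
      refine Finset.ssubset_iff_subset_ne.2 ⟨Finset.empty_subset _, fun hh => ?_⟩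
      have := card_er (rfl : Fintype.card (Fin 3) = 3) i
      rw [← hh, Finset.card_empty] at this
      omega
    have h9 := (LL_eq.1 (lo_eq.1 h7 ∅ h0)).1
    have h10 := Um_eq.1 h9
    have hno : ∀ (I : Finset (Fin 3)), I ⊆ {i} → ∀ l, univ.erase l ≠ I := fun I hI l =>
      er_ne_thin ((Finset.card_le_card hI).trans (Finset.card_singleton i).le)
    refine ⟨lo_eq.2 fun I hI => ?_, le_eq.2 fun I hI => ?_, ?_⟩
    · rw [Finset.ssubset_singleton_iff] at hI
      subst hI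
      exact h10.2
    · rcases Finset.subset_singleton_iff.1 hI with rfl | rfl
      · rw [LL_eq]
        exact ⟨h10.1, fun l hl => absurd hl (hno ∅ hI l)⟩
      · rw [LL_eq]
        exact ⟨(Prod.mk.inj h4).2, fun l hl => absurd hl (hno {i} hI l)⟩
    · rw [BB_eq] at h8 ⊢
      refine ⟨fun j hj => ?_, h8.2⟩
      rw [Finset.mem_singleton.1 hj]
      exact h5
  have h4 : (D.P h (t + 1)).Hc (XL v (t + 1) i) (fun w => (w.2.1 i, ZbT D v (Equiv.refl (Fin 3)) (t + 2) (t + 1) i w)) =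
      (D.P h t).Hc (XL v (t + 1) i) (fun w => (w.2.1 i, ZbT D v (Equiv.refl (Fin 3)) (t + 2) (t + 1) i w)) :=
    Hc_time h (dry_XL _ i) ((show Dry (fun w : Pt (Fin 3) X β φ => w.2.1 i) from fun a b _ h2 => congrFun h2 i).prod
      (dry_Zb _ _ i)) (t + 1) t
  linarith

theorem miss_start (i : Fin 3) : pE h v i 1 0 0 ≤ cst h v 0 {i} := by
  unfold pE cst cost
  have h1 : (D.P h 0).Hc (XL v 1 i) (fun w => (w.2.1 i, ZbT D v (Equiv.refl (Fin 3)) 1 0 i w)) ≤
      (D.P h 0).Hc (Vt v 0 {i}) (fun w => (w.2.1 i, ZbT D v (Equiv.refl (Fin 3)) 1 0 i w)) := by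
    refine (D.P h 0).Hc_mono _ ?_
    intro a b hab
    simp only [Prod.mk.injEq] at hab
    exact Prod.ext hab.2.1 (Um_eq.2 ⟨rfl, hab.1⟩)
  refine h1.trans ((D.P h 0).Hc_anti _ ?_)
  intro a b hab
  simp only [Prod.mk.injEq] at hab ⊢
  obtain ⟨h5, h6⟩ := hab
  have h7 : lo (LL (φ := φ) (Um v 1)) (univ.erase i) a = lo (LL (Um v 1)) (univ.erase i) b := congrArg Prod.fst h6
  have h8 : BB D 0 (univ.erase i) a = BB D 0 (univ.erase i) b := congrArg Prod.snd h6
  have h0 : (∅ : Finset (Fin 3)) ⊂ univ.erase i := by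
    refine Finset.ssubset_iff_subset_ne.2 ⟨Finset.empty_subset _, fun hh => ?_⟩
    have := card_er (rfl : Fintype.card (Fin 3) = 3) i
    rw [← hh, Finset.card_empty] at this
    omega
  have h9 := (LL_eq.1 (lo_eq.1 h7 ∅ h0)).1
  have h10 := Um_eq.1 h9
  have hno : ∀ (I : Finset (Fin 3)), I ⊆ {i} → ∀ l, univ.erase l ≠ I := fun I hI l =>
    er_ne_thin ((Finset.card_le_card hI).trans (Finset.card_singleton i).le)
  refine ⟨lo_eq.2 fun I hI => ?_, le_eq.2 fun I hI => ?_, ?_⟩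
  · rw [Finset.ssubset_singleton_iff] at hI
    subst hI
    exact h10.2
  · rw [LL_eq]
    exact ⟨rfl, fun l hl => absurd hl (hno I hI l)⟩
  · rw [BB_eq] at h8 ⊢
    refine ⟨fun j hj => ?_, h8.2⟩
    rw [Finset.mem_singleton.1 hj]
    exact h5

/-- **THE INFORMATION OF THE MISSING LETTER** -/
theorem miss_gain (H : D.Hyp dg prr al T Lam) (hv : Codes D v) (i : Fin 3) :
    ∑ t ∈ range T, ((D.P h t).I (ZT D v (t + 1) t) (fun u => dg t u.1) (ZbT D v (Equiv.refl (Fin 3)) (t + 1) t i) +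
      (D.P h t).I (ZT D v (t + 1) (t + 1)) (YT v (Equiv.refl (Fin 3)) (t + 2) i)
        (ZbT D v (Equiv.refl (Fin 3)) (t + 1) (t + 1) i)) ≤ ∑ t ∈ range (T + 1), cst h v t {i} := by
  have key : ∀ S ≤ T, ∑ t ∈ range S, ((D.P h t).I (ZT D v (t + 1) t) (fun u => dg t u.1)
        (ZbT D v (Equiv.refl (Fin 3)) (t + 1) t i) +
      (D.P h t).I (ZT D v (t + 1) (t + 1)) (YT v (Equiv.refl (Fin 3)) (t + 2) i)
        (ZbT D v (Equiv.refl (Fin 3)) (t + 1) (t + 1) i)) + pE h v i (S + 1) S S ≤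
      ∑ t ∈ range (S + 1), cst h v t {i} := by
    intro S
    induction S with
    | zero =>
      intro _
      rw [Finset.sum_range_zero, zero_add, Finset.sum_range_one]
      exact miss_start h i
    | succ S ih =>
      intro hS
      have h0 := ih (by omega)
      have h1 := miss_digit h (v := v) H hv (show S < T by omega) i
      have h2 := miss_codes h hv S i
      have h3 := miss_new h (v := v) S i
      rw [Finset.sum_range_succ, Finset.sum_range_succ _ (S + 1)]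
      linarith
  have h1 := key T le_rfl
  have h3 := pE_nonneg h (v := v) i (T + 1) T T
  linarith

theorem miss_gain_run (H : D.Hyp dg prr al T Lam) {n N1 : ℝ} (R : Run h (pr3 (Fin 3) n N1) (SS1 (Fin 3)) (AdmDep D) v)
    (hn : 1 ≤ n) (hN1 : 1 ≤ N1) (i : Fin 3) :
    ∑ t ∈ range T, ((D.P h t).I (ZT D v (t + 1) t) (fun u => dg t u.1) (ZbT D v (Equiv.refl (Fin 3)) (t + 1) t i) +
      (D.P h t).I (ZT D v (t + 1) (t + 1)) (YT v (Equiv.refl (Fin 3)) (t + 2) i)
        (ZbT D v (Equiv.refl (Fin 3)) (t + 1) (t + 1) i)) ≤ 3 * (n * Lam) :=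
  (miss_gain h H R.codes i).trans (cost_thin rfl H hn hN1 R i)

end TG

end Pool.Agent.GMH.V3
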