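import Pool.Agent.GMH.TopDef

/-!
# GMH/TopEq: the losses of the run on substeps (helper11)

* `iQ_psC` : `iQ` = the log density `psC` at the true tuple;
* `LT_eq` : the loss of the codes of one time is `lsQ t (5 t + 1) (5 t + 5)`;
* `DT_eq` : the loss of the digit is `lsQ t (5 t) (5 t + 1)` (`t < T`).
-/

set_option autoImplicit false
set_option linter.unusedSectionVars false

namespace Pool.Agent.GMH.TP

open Finset Pool.Agent.PWZ Pool.Agent.M3 Pool.Agent.GM Pool.Agent.GM.Harm Pool.Agent.GMH Pool.Agent.GMH.NZ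
open Pool.Agent.GMH.V3

noncomputable section

variable {X β γ φ υ : Type} [Fintype X] [Fintype β] [Fintype φ] [Nonempty X] [Nonempty β]
variable {D : HD (Fin 3) X β γ φ} {al : ℝ} (h : D.Thick al) {v : ℕ → Finset (Fin 3) → X → (Fin 3 → β) → υ}

section gen

variable {Om : Type*} [Fintype Om] (P : FP Om) {I α β' φ' : Type*} [Fintype I] [DecidableEq I]
  {Z : Om → β'} {Zb : I → Om → α} (F : I → Om → φ')

/-- the log density at the true tuple by surprisals -/
theorem psC_true {w : Om} (hw : P.p w ≠ 0) :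
    psC P Z Zb F w (tup F w) = ∑ i, sp P (F i) (Zb i) w - sp P (tup F) Z w := by
  have m1 := P.m_pos Z hw
  have m3 := P.m_pos (fun u => (tup F u, Z u)) hw
  have m2 := fun i => P.m_pos (Zb i) hw
  have m4 := fun i => P.m_pos (fun u => (F i u, Zb i u)) hw
  unfold psC
  have e1 : ∀ i, P.pv (Zb i) (F i) w (tup F w i) = P.m (fun u => (F i u, Zb i u)) w / P.m (Zb i) w := fun i => by
    show P.pv (Zb i) (F i) w (F i w) = _
    rw [P.pv_self]
  rw [P.pv_self, Finset.prod_congr rfl fun i _ => e1 i,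
    Real.log_div (div_pos m3 m1).ne' (Finset.prod_pos fun i _ => div_pos (m4 i) (m2 i)).ne',
    Real.log_prod fun i _ => (div_pos (m4 i) (m2 i)).ne', Real.log_div m3.ne' m1.ne']
  unfold sp
  have e2 : ∀ i, Real.log (P.m (fun u => (F i u, Zb i u)) w / P.m (Zb i) w) =
      Real.log (P.m (fun u => (F i u, Zb i u)) w) - Real.log (P.m (Zb i) w) := fun i =>
    Real.log_div (m4 i).ne' (m2 i).ne'
  simp only [e2, Finset.sum_sub_distrib]
  ring

end gen

theorem iQ_psC {t q : ℕ} {w : Pt (Fin 3) X β φ} (hw : (D.P h t).p w ≠ 0) :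
    iQ v h t q w = psC (D.P h t) (ZQ D v q) (ZbQ D v q) (FQ v t) w (tup (FQ v t) w) :=
  (psC_true (D.P h t) (FQ v t) hw).symm

/-! ### labels of the special states -/

theorem SL_1 (t : ℕ) {J : Finset (Fin 3)} (hJ : pth J) : SL (φ := φ) v (5 * t + 1) J = LL (Um v (t + 1)) J := by
  unfold SL
  rw [nc_add t 1 hJ (by omega)]
  unfold ncj
  have key : ∀ J : Finset (Fin 3), ¬ rk J < 1 := by decide
  rw [if_neg (key J), add_zero]

theorem SL_0 (t : ℕ) {J : Finset (Fin 3)} (hJ : pth J) : SL (φ := φ) v (5 * t) J = LL (Um v (t + 1)) J := by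
  unfold SL
  have h1 := nc_add t 0 hJ (by omega)
  rw [add_zero] at h1
  rw [h1]
  unfold ncj
  rw [if_neg (Nat.not_lt_zero _), add_zero]

theorem SL_5 (t : ℕ) {J : Finset (Fin 3)} (hJ : pth J) : SL (φ := φ) v (5 * t + 5) J = LL (Um v (t + 2)) J := by
  unfold SL
  rw [nc_add t 5 hJ le_rfl]
  unfold ncj
  rw [if_pos (by have := rk_le hJ; omega)]

theorem nn_0 (t : ℕ) : nn (5 * t) = t := by
  have h1 := nn_add t 0 (by omega)
  rw [add_zero] at h1
  rw [h1]
  rfl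

theorem nn_1 (t : ℕ) : nn (5 * t + 1) = t + 1 := nn_add t 1 (by omega)

theorem nn_5 (t : ℕ) : nn (5 * t + 5) = t + 1 := nn_add t 5 le_rfl

theorem lo_SL {q : ℕ} {U : Finset (Fin 3) → X → (Fin 3 → β) → List υ} (e : ∀ J, pth J → SL (φ := φ) v q J = LL U J) (i : Fin 3) :
    lo (SL (φ := φ) v q) (univ.erase i) = lo (LL U) (univ.erase i) := by
  funext w I
  unfold lo
  by_cases hI : I ⊂ univ.erase i
  · rw [if_pos hI, if_pos hI, e I (lt_pth card3 (ne_univ i) hI)]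
  · rw [if_neg hI, if_neg hI]

theorem all_SL {q : ℕ} {U : Finset (Fin 3) → X → (Fin 3 → β) → List υ} (e : ∀ J, pth J → SL (φ := φ) v q J = LL U J) :
    all (LP pth (SL (φ := φ) v q)) = all (LP pth (LL U)) := by
  funext w J
  show SL v q J.1 w = LL U J.1 w
  rw [e J.1 J.2]

theorem ZQ_0 (t : ℕ) : ZQ (φ := φ) D v (5 * t) = ZT D v (t + 1) t := by
  funext w
  unfold ZQ ZT
  rw [all_SL (fun J hJ => SL_0 t hJ), nn_0]

theorem ZQ_1 (t : ℕ) : ZQ (φ := φ) D v (5 * t + 1) = ZT D v (t + 1) (t + 1) := by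
  funext w
  unfold ZQ ZT
  rw [all_SL (fun J hJ => SL_1 t hJ), nn_1]

theorem ZQ_5 (t : ℕ) : ZQ (φ := φ) D v (5 * t + 5) = ZT D v (t + 2) (t + 1) := by
  funext w
  unfold ZQ ZT
  rw [all_SL (fun J hJ => SL_5 t hJ), nn_5]

theorem ZbQ_0 (t : ℕ) (i : Fin 3) : ZbQ (φ := φ) D v (5 * t) i = ZbT D v (Equiv.refl (Fin 3)) (t + 1) t i := by
  funext w
  unfold ZbQ ZbT
  rw [lo_SL (fun J hJ => SL_0 t hJ), nn_0]
  rfl

theorem ZbQ_1 (t : ℕ) (i : Fin 3) : ZbQ (φ := φ) D v (5 * t + 1) i = ZbT D v (Equiv.refl (Fin 3)) (t + 1) (t + 1) i := by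
  funext w
  unfold ZbQ ZbT
  rw [lo_SL (fun J hJ => SL_1 t hJ), nn_1]
  rfl

theorem ZbQ_5 (t : ℕ) (i : Fin 3) : ZbQ (φ := φ) D v (5 * t + 5) i = ZbT D v (Equiv.refl (Fin 3)) (t + 2) (t + 1) i := by
  funext w
  unfold ZbQ ZbT
  rw [lo_SL (fun J hJ => SL_5 t hJ), nn_5]
  rfl

/-- **the loss of the codes of one time** -/
theorem lossC_codes (t : ℕ) {w : Pt (Fin 3) X β φ} (hw : (D.P h t).p w ≠ 0) :
    lossC (D.P h t) (ZT D v (t + 1) (t + 1)) (ZbT D v (Equiv.refl (Fin 3)) (t + 1) (t + 1))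
      (FT v (Equiv.refl (Fin 3)) (t + 1)) (YT v (Equiv.refl (Fin 3)) (t + 2)) (VT v (t + 2)) w =
      lsQ v h t (5 * t + 1) (5 * t + 5) w := by
  unfold lsQ
  have eF : FQ (φ := φ) v t = FT v (Equiv.refl (Fin 3)) (t + 1) := rfl
  rw [lossC_sp (D.P h t) _ hw, lossC_sp (D.P h t) _ hw, eF]
  have e0 : ZbQ (φ := φ) D v (5 * t + 1) = ZbT D v (Equiv.refl (Fin 3)) (t + 1) (t + 1) := funext fun i => ZbQ_1 t i
  have e5 : ZbQ (φ := φ) D v (5 * t + 5) = ZbT D v (Equiv.refl (Fin 3)) (t + 2) (t + 1) := funext fun i => ZbQ_5 t i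
  rw [ZQ_1, ZQ_5, e0, e5]
  have k1 : ∀ i, sp (D.P h t) (FT v (Equiv.refl (Fin 3)) (t + 1) i)
      (fun u => (YT v (Equiv.refl (Fin 3)) (t + 2) i u, ZbT D v (Equiv.refl (Fin 3)) (t + 1) (t + 1) i u)) w =
      sp (D.P h t) (FT v (Equiv.refl (Fin 3)) (t + 1) i)
      (fun u => (ZbT D v (Equiv.refl (Fin 3)) (t + 2) (t + 1) i u,
        ZbT D v (Equiv.refl (Fin 3)) (t + 1) (t + 1) i u)) w := by
    intro i
    refine sp_congr (D.P h t) (Fac.fst _ _) (fun a b hab => ?_) (Fac.fst _ _) (fun a b hab => ?_) w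
    · unfold YT ZbT at *
      simp only [Prod.mk.injEq] at hab ⊢
      exact ⟨⟨hab.1, hab.2.2⟩, hab.2⟩
    · unfold YT ZbT at *
      simp only [Prod.mk.injEq] at hab ⊢
      exact ⟨hab.1.1, hab.2⟩
  have k2 : sp (D.P h t) (tup (FT v (Equiv.refl (Fin 3)) (t + 1))) (fun u => (VT v (t + 2) u, ZT D v (t + 1) (t + 1) u)) w =
      sp (D.P h t) (tup (FT v (Equiv.refl (Fin 3)) (t + 1)))
        (fun u => (ZT D v (t + 2) (t + 1) u, ZT D v (t + 1) (t + 1) u)) w := by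
    refine sp_congr (D.P h t) (Fac.fst _ _) (fun a b hab => ?_) (Fac.fst _ _) (fun a b hab => ?_) w
    · unfold VT ZT at *
      simp only [Prod.mk.injEq] at hab ⊢
      exact ⟨⟨hab.1, hab.2.2⟩, hab.2⟩
    · unfold VT ZT at *
      simp only [Prod.mk.injEq] at hab ⊢
      exact ⟨hab.1.1, hab.2⟩
  rw [k2]
  simp only [k1]

theorem LT_eq (t : ℕ) (a : Pt (Fin 3) X β φ → Prop) :
    V3.LT h v t a = (D.P h t).E (fun w => ind (a w) * lsQ v h t (5 * t + 1) (5 * t + 5) w) := by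
  unfold V3.LT
  exact (D.P h t).E_congr fun w hw => by rw [lossC_codes h t hw]

/-- **the loss of the digit** -/
theorem lossC_digit {dg : ℕ → X → ℝ} {prr : ℕ → Fin 3 → φ → φ} {T : ℕ} {Lam : ℝ} (H : D.Hyp dg prr al T Lam)
    (hv : Codes D v) {t : ℕ} (ht : t < T) {w : Pt (Fin 3) X β φ} (hw : (D.P h t).p w ≠ 0) :
    lossC (D.P h t) (ZT D v (t + 1) t) (ZbT D v (Equiv.refl (Fin 3)) (t + 1) t)
      (FT v (Equiv.refl (Fin 3)) (t + 1)) (fun _ u => dg t u.1) (fun u => dg t u.1) w =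
      lsQ v h t (5 * t) (5 * t + 1) w := by
  unfold lsQ
  have eF : FQ (φ := φ) v t = FT v (Equiv.refl (Fin 3)) (t + 1) := rfl
  rw [lossC_sp (D.P h t) _ hw, lossC_sp (D.P h t) _ hw, eF]
  have e0 : ZbQ (φ := φ) D v (5 * t) = ZbT D v (Equiv.refl (Fin 3)) (t + 1) t := funext fun i => ZbQ_0 t i
  have e1 : ZbQ (φ := φ) D v (5 * t + 1) = ZbT D v (Equiv.refl (Fin 3)) (t + 1) (t + 1) := funext fun i => ZbQ_1 t i
  rw [ZQ_0, ZQ_1, e0, e1]
  -- the cell of the hidden point and the digit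
  have qd : ∀ a b : Pt (Fin 3) X β φ, D.qa (t + 1) a.1 = D.qa (t + 1) b.1 ↔
      D.qa t a.1 = D.qa t b.1 ∧ dg t a.1 = dg t b.1 := fun a b => H.dg_cell t ht a.1 b.1
  have k2 : sp (D.P h t) (tup (FT v (Equiv.refl (Fin 3)) (t + 1))) (fun u => (dg t u.1, ZT D v (t + 1) t u)) w =
      sp (D.P h t) (tup (FT v (Equiv.refl (Fin 3)) (t + 1)))
        (fun u => (ZT D v (t + 1) (t + 1) u, ZT D v (t + 1) t u)) w := by
    refine sp_congr (D.P h t) (Fac.fst _ _) (fun a b hab => ?_) (Fac.fst _ _) (fun a b hab => ?_) w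
    · unfold ZT WW nd at *
      simp only [Prod.mk.injEq] at hab ⊢
      refine ⟨⟨hab.2.1, hab.2.2.1, (qd a b).2 ⟨hab.2.2.2.1, hab.1⟩, ?_⟩, hab.2⟩
      rw [hab.2.2.1]
    · unfold ZT WW nd at *
      simp only [Prod.mk.injEq] at hab ⊢
      exact ⟨((qd a b).1 hab.1.2.2.1).2, hab.2⟩
  have k1 : ∀ i, sp (D.P h t) (FT v (Equiv.refl (Fin 3)) (t + 1) i)
      (fun u => (dg t u.1, ZbT D v (Equiv.refl (Fin 3)) (t + 1) t i u)) w =
      sp (D.P h t) (FT v (Equiv.refl (Fin 3)) (t + 1) i)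
      (fun u => (ZbT D v (Equiv.refl (Fin 3)) (t + 1) (t + 1) i u,
        ZbT D v (Equiv.refl (Fin 3)) (t + 1) t i u)) w := by
    intro i
    have m1 := sp_base h (t := t) (s := t) le_rfl (J := univ.erase i) (X' := FT v (Equiv.refl (Fin 3)) (t + 1) i)
      (R := fun u : Pt (Fin 3) X β φ => (dg t u.1, lo (LL (Um v (t + 1))) (univ.erase i) u))
      (LL_AA hv (Nat.le_refl (t + 1)) (Finset.Subset.refl _))
      (fun a b hab => by
        have g1 := dg_AA (D := D) (dg := dg) (t := t) (J := univ.erase i) a b hab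
        have g2 : lo (LL (φ := φ) (Um v (t + 1))) (univ.erase i) a = lo (LL (Um v (t + 1))) (univ.erase i) b :=
          lo_eq.2 fun I hI => LL_AA hv (Nat.le_refl (t + 1)) hI.subset a b hab
        show (dg t a.1, _) = (dg t b.1, _)
        rw [show dg t a.1 = dg t b.1 from g1, g2]) hw
    have m2 := sp_base h (t := t) (s := t + 1) (Nat.le_succ t) (J := univ.erase i)
      (X' := FT v (Equiv.refl (Fin 3)) (t + 1) i) (R := lo (LL (φ := φ) (Um v (t + 1))) (univ.erase i))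
      (LL_AA hv (Nat.le_succ (t + 1)) (Finset.Subset.refl _))
      (fun a b hab => lo_eq.2 fun I hI => LL_AA hv (Nat.le_succ (t + 1)) hI.subset a b hab) hw
    have c1 : sp (D.P h t) (FT v (Equiv.refl (Fin 3)) (t + 1) i)
        (fun u => (dg t u.1, ZbT D v (Equiv.refl (Fin 3)) (t + 1) t i u)) w =
        sp (D.P h t) (FT v (Equiv.refl (Fin 3)) (t + 1) i)
        (fun u => ((dg t u.1, lo (LL (Um v (t + 1))) (univ.erase i) u), BB D t (univ.erase i) u)) w := by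
      refine sp_congr (D.P h t) (Fac.fst _ _) (fun a b hab => ?_) (Fac.fst _ _) (fun a b hab => ?_) w
      · unfold ZbT at *
        simp only [Prod.mk.injEq] at hab ⊢
        exact ⟨⟨hab.1, hab.2.1⟩, hab.2.2⟩
      · unfold ZbT at *
        simp only [Prod.mk.injEq] at hab ⊢
        exact ⟨hab.1.1, hab.1.2, hab.2⟩
    have c2 : sp (D.P h t) (FT v (Equiv.refl (Fin 3)) (t + 1) i)
        (fun u => (ZbT D v (Equiv.refl (Fin 3)) (t + 1) (t + 1) i u,
          ZbT D v (Equiv.refl (Fin 3)) (t + 1) t i u)) w =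
        sp (D.P h t) (FT v (Equiv.refl (Fin 3)) (t + 1) i)
        (fun u => (lo (LL (Um v (t + 1))) (univ.erase i) u, BB D (t + 1) (univ.erase i) u)) w := by
      refine sp_congr (D.P h t) (Fac.fst _ _) (fun a b hab => ?_) (Fac.fst _ _) (fun a b hab => ?_) w
      · unfold ZbT at *
        simp only [Prod.mk.injEq] at hab ⊢
        exact hab.1
      · unfold ZbT at *
        simp only [Prod.mk.injEq] at hab ⊢
        exact ⟨hab, hab.1, BB_mono' (Nat.le_succ t) _ a b hab.2⟩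
    have c3 : sp (D.P h t) (FT v (Equiv.refl (Fin 3)) (t + 1) i)
        (fun u => ((dg t u.1, lo (LL (Um v (t + 1))) (univ.erase i) u), WW D t u)) w =
        sp (D.P h t) (FT v (Equiv.refl (Fin 3)) (t + 1) i)
        (fun u => (lo (LL (Um v (t + 1))) (univ.erase i) u, WW D (t + 1) u)) w := by
      refine sp_congr (D.P h t) (Fac.fst _ _) (fun a b hab => ?_) (Fac.fst _ _) (fun a b hab => ?_) w
      · unfold WW nd at *
        simp only [Prod.mk.injEq] at hab ⊢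
        refine ⟨hab.1.2, hab.2.1, (qd a b).2 ⟨hab.2.2.1, hab.1.1⟩, ?_⟩
        rw [hab.2.1]
      · unfold WW nd at *
        simp only [Prod.mk.injEq] at hab ⊢
        have := (qd a b).1 hab.2.2.1
        refine ⟨⟨this.2, hab.1⟩, hab.2.1, this.1, ?_⟩
        rw [hab.2.1]
    rw [c1, c2, ← m1, ← m2, c3]
  rw [k2]
  simp only [k1]

theorem DT_eq {dg : ℕ → X → ℝ} {prr : ℕ → Fin 3 → φ → φ} {T : ℕ} {Lam : ℝ} (H : D.Hyp dg prr al T Lam)
    (hv : Codes D v) {t : ℕ} (ht : t < T) (a : Pt (Fin 3) X β φ → Prop) :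
    DT h v dg t a = (D.P h t).E (fun w => ind (a w) * lsQ v h t (5 * t) (5 * t + 1) w) := by
  unfold DT
  exact (D.P h t).E_congr fun w hw => by rw [lossC_digit h H hv ht hw]

end

end Pool.Agent.GMH.TP
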