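import Pool.Agent.GMH.TopKinV
import Pool.Agent.GMH.TopFin
import Pool.Agent.GMH.TopTyB

/-!
# GMH/TopNoT: the trivial bound of a normalisation (helper91)

* `noG_tail` : a normalisation over any set `A` is at most `(1/al)^(number of letters) P(A)`;
* `NoS_tail`, `No2_tail`, `No1_tail` : at most `exp (3 Lam) P(A)` on the run;
* `NoS_cut`, `No2_cut`, `No1_cut` : `No(A) ≤ No(A and B) + exp (3 Lam) P(A and not B)`;
* `TyA` = all `TyB`; `TyA_fac`, `tyA_sum` : the lost part of all times of the step `5`.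
-/

set_option autoImplicit false
set_option linter.unusedSectionVars false

namespace Pool.Agent.GMH.TP

open Finset Pool.Agent.PWZ Pool.Agent.M3 Pool.Agent.GM Pool.Agent.GM.Harm Pool.Agent.GMH Pool.Agent.GMH.NZ
open Pool.Agent.GMH.V3

noncomputable section

namespace NoT

section gen

variable {Om : Type*} [Fintype Om] (P : FP Om) {I α β' γ' φ' ν κ : Type*} [Fintype I] [DecidableEq I] [Fintype κ]
  {Z : Om → β'} {Zb : I → Om → α} (F : I → Om → φ') {Y : I → Om → γ'} {V : Om → ν}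
  {A : Om → Prop} {rel : κ → Om → (I → φ') → Prop} {bit : κ → Om → Prop} {om : Om → (I → φ') → ℝ}

include F in
theorem kce_le_one {N' : Om → ν} (hd : ∀ w f k k', rel k w f → rel k' w f → k = k') (w : Om) (f : I → φ') :
    kce P N' rel bit w f ≤ 1 := by
  rw [← kpi_none P F]
  exact kpi_le_one P F hd w f

/-- **THE TRIVIAL BOUND** -/
theorem noG_tail {al : ℝ} (hal : 0 < al) {eta : ℝ} (heta : 0 < eta) (heta1 : eta ≤ 1)
    (hd : ∀ w f k k', rel k w f → rel k' w f → k = k') (o0 : ∀ w f, 0 ≤ om w f)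
    (hq : ∀ w, P.p w ≠ 0 → ∀ i x, P.pv (Zb i) (F i) w x ≠ 0 → al ≤ P.pv (Zb i) (F i) w x) :
    NoG P Z Zb F Y V A rel bit om eta ≤ (1 / al) ^ Fintype.card I * P.Pr A := by
  classical
  unfold NoG FP.Pr
  rw [← P.E_smul]
  refine P.E_mono fun w hw => ?_
  rw [mul_comm ((1 / al) ^ Fintype.card I)]
  refine mul_le_mul_of_nonneg_left ?_ (ind_nonneg _)
  have hl : 0 ≤ Real.log (1 / eta) := Real.log_nonneg (by rw [le_div_iff₀ heta, one_mul]; exact heta1)
  have key : ∀ f ∈ let_ F, (∏ i, P.pv (fun u => (Y i u, Zb i u)) (F i) w (f i)) *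
      ((1 - kce P (fun u => (V u, Z u)) rel bit w f) * (G0W P Z Zb F eta om w f - 1)) ≤
      P.pv Z (tup F) w f * (1 / al) ^ Fintype.card I := by
    intro f _
    set k := kce P (fun u => (V u, Z u)) rel bit w f with hk
    have k0 : 0 ≤ k := kce_nonneg P w f
    have k1 : k ≤ 1 := kce_le_one P F hd w f
    have q0 : 0 ≤ ∏ i, P.pv (Zb i) (F i) w (f i) := Finset.prod_nonneg fun i _ => P.pv_nonneg _ _ _ _
    have p0 : 0 ≤ P.pv Z (tup F) w f := P.pv_nonneg _ _ _ _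
    have G1 : G0W P Z Zb F eta om w f ≤ P.pv Z (tup F) w f / ∏ i, P.pv (Zb i) (F i) w (f i) := by
      unfold G0W
      refine mul_le_of_le_one_right (div_nonneg p0 q0) (Real.exp_le_one_iff.2 ?_)
      have := mul_nonneg (o0 w f) (add_nonneg (le_max_right (psC P Z Zb F w f) 0) hl)
      linarith
    have G0 : 0 ≤ P.pv Z (tup F) w f / ∏ i, P.pv (Zb i) (F i) w (f i) := div_nonneg p0 q0
    have h1 : (1 - k) * (G0W P Z Zb F eta om w f - 1) ≤ P.pv Z (tup F) w f / ∏ i, P.pv (Zb i) (F i) w (f i) := by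
      nlinarith
    have y0 : 0 ≤ ∏ i, P.pv (fun u => (Y i u, Zb i u)) (F i) w (f i) :=
      Finset.prod_nonneg fun i _ => P.pv_nonneg _ _ _ _
    have y1 : ∏ i, P.pv (fun u => (Y i u, Zb i u)) (F i) w (f i) ≤ 1 := by
      refine Finset.prod_le_one (fun i _ => P.pv_nonneg _ _ _ _) fun i _ => ?_
      rw [← P.ce_const (fun u => (Y i u, Zb i u)) 1 hw]
      exact P.ce_mono (fun u _ => ind_le_one _) w
    have h2 := mul_le_mul_of_nonneg_left h1 y0
    refine h2.trans ((mul_le_of_le_one_left G0 y1).trans ?_)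
    rw [div_eq_mul_inv]
    refine mul_le_mul_of_nonneg_left ?_ p0
    by_cases hz : ∏ i, P.pv (Zb i) (F i) w (f i) = 0
    · rw [hz, inv_zero]
      positivity
    · have h3 : al ^ Fintype.card I ≤ ∏ i, P.pv (Zb i) (F i) w (f i) := by
        rw [← Finset.card_univ, ← Finset.prod_const]
        exact Finset.prod_le_prod (fun i _ => hal.le) fun i _ =>
          hq w hw i (f i) (Finset.prod_ne_zero_iff.1 hz i (mem_univ i))
      have h4 := inv_anti₀ (pow_pos hal _) h3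
      rwa [one_div, inv_pow]
  refine (Finset.sum_le_sum key).trans ?_
  rw [← Finset.sum_mul]
  have s1 : ∑ f ∈ let_ F, P.pv Z (tup F) w f = 1 := by
    have h := sum_tup P (W := Z) F (F := fun _ _ => 1) (fun _ _ _ _ => rfl) w
    simp only [mul_one] at h
    rw [P.ce_const _ 1 hw] at h
    exact h
  rw [s1, one_mul]

/-- a normalisation is additive in the set -/
theorem noG_split (eta : ℝ) (B : Om → Prop) : NoG P Z Zb F Y V A rel bit om eta =
    NoG P Z Zb F Y V (fun w => A w ∧ B w) rel bit om eta + NoG P Z Zb F Y V (fun w => A w ∧ ¬ B w) rel bit om eta := by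
  unfold NoG
  rw [← P.E_add]
  refine P.E_congr fun w _ => ?_
  rw [← add_mul]
  congr 1
  by_cases hA : A w
  · by_cases hB : B w
    · rw [ind_of hA, ind_of ⟨hA, hB⟩, ind_not fun hh : A w ∧ ¬ B w => hh.2 hB, add_zero]
    · rw [ind_of hA, ind_not fun hh : A w ∧ B w => hB hh.2, ind_of ⟨hA, hB⟩, zero_add]
  · rw [ind_not hA, ind_not fun hh : A w ∧ B w => hA hh.1, ind_not fun hh : A w ∧ ¬ B w => hA hh.1, add_zero]

/-- **CUT** -/
theorem noG_cut {al : ℝ} (hal : 0 < al) {eta : ℝ} (heta : 0 < eta) (heta1 : eta ≤ 1)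
    (hd : ∀ w f k k', rel k w f → rel k' w f → k = k') (o0 : ∀ w f, 0 ≤ om w f)
    (hq : ∀ w, P.p w ≠ 0 → ∀ i x, P.pv (Zb i) (F i) w x ≠ 0 → al ≤ P.pv (Zb i) (F i) w x) (B : Om → Prop) :
    NoG P Z Zb F Y V A rel bit om eta ≤ NoG P Z Zb F Y V (fun w => A w ∧ B w) rel bit om eta +
      (1 / al) ^ Fintype.card I * P.Pr (fun w => A w ∧ ¬ B w) := by
  rw [noG_split P F eta B]
  exact add_le_add le_rfl (noG_tail P F hal heta heta1 hd o0 hq)

end gen

section run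

variable {X β γ φ : Type} [Fintype X] [Fintype β] [Fintype φ] [Nonempty X] [Nonempty β]
variable {D : HD (Fin 3) X β γ φ} {al : ℝ} (h : D.Thick al) {v : ℕ → Finset (Fin 3) → X → (Fin 3 → β) → Pt (Fin 3) X β φ}
  {dg : ℕ → X → ℝ} {prr : ℕ → Fin 3 → φ → φ} {T : ℕ} {Lam : ℝ} {n N1 : ℝ}

/-- thick tops, values -/
theorem pv_thick (H : D.Hyp dg prr al T Lam) (hn : 1 ≤ n) (hN1 : 1 ≤ N1)
    (R : Run h (pr3 (Fin 3) n N1) (SS1 (Fin 3)) (AdmDep D) v) {t q : ℕ} (ht : t ≤ T) (hq : 5 * t ≤ q) (i : Fin 3)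
    {w : Pt (Fin 3) X β φ} (x : Tt X β φ) (hx : (D.P h t).pv (ZbQ D v q i) (FQ v t i) w x ≠ 0) :
    al ≤ (D.P h t).pv (ZbQ D v q i) (FQ v t i) w x := by
  classical
  obtain ⟨u, hu, hz, hxu⟩ : ∃ u, (D.P h t).p u ≠ 0 ∧ ZbQ D v q i u = ZbQ D v q i w ∧ FQ v t i u = x := by
    by_contra hcon
    push Not at hcon
    apply hx
    unfold FP.pv FP.ce
    have e2 : (D.P h t).E (fun u => ind (ZbQ D v q i u = ZbQ D v q i w) * ind (FQ v t i u = x)) = 0 := by
      refine ((D.P h t).E_congr fun u hu' => ?_).trans ((D.P h t).E_const 0)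
      by_cases hz : ZbQ D v q i u = ZbQ D v q i w
      · rw [ind_not (hcon u hu' hz), mul_zero]
      · rw [ind_not hz, zero_mul]
    rw [e2, zero_div]
  have h1 := Zb_thick H R (fun l => mem_SS1.2 (Finset.erase_ne_self.2 (mem_univ l))) (fun hh => mem_SS1.1 hh rfl)
    (fun l => zero_lt_one.trans_le (pr3_one hn hN1 _)) ht hq i hu
  have e1 : (D.P h t).pv (ZbQ D v q i) (FQ v t i) w x = (D.P h t).pv (ZbQ D v q i) (FQ v t i) u x :=
    (D.P h t).pv_fac _ _ _ w u hz.symm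
  have e2 : (D.P h t).pv (ZbQ D v q i) (FQ v t i) u x =
      (D.P h t).m (fun u => (FQ v t i u, ZbQ D v q i u)) u / (D.P h t).m (ZbQ D v q i) u := by
    unfold FP.pv FP.ce
    congr 1
    unfold FP.m
    refine (D.P h t).E_congr fun y _ => ?_
    rw [← ind_and, ← hxu]
    exact ind_cg ⟨fun hh => Prod.ext hh.2 hh.1, fun hh => ⟨(Prod.mk.inj hh).2, (Prod.mk.inj hh).1⟩⟩
  rw [e1, e2, le_div_iff₀ ((D.P h t).m_pos _ hu)]
  exact h1

theorem al_le_one (H : D.Hyp dg prr al T Lam) (hn : 1 ≤ n) (hN1 : 1 ≤ N1)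
    (R : Run h (pr3 (Fin 3) n N1) (SS1 (Fin 3)) (AdmDep D) v) : al ≤ 1 := by
  obtain ⟨w, hw⟩ := (D.P h 0).exists_p_ne
  have h1 := Zb_thick H R (fun l => mem_SS1.2 (Finset.erase_ne_self.2 (mem_univ l))) (fun hh => mem_SS1.1 hh rfl)
    (fun l => zero_lt_one.trans_le (pr3_one hn hN1 _)) (Nat.zero_le T) (le_refl (5 * 0)) 0 hw
  have h2 : (D.P h 0).m (fun u => (FQ v 0 0 u, ZbQ D v (5 * 0) 0 u)) w ≤ (D.P h 0).m (ZbQ D v (5 * 0) 0) w :=
    (D.P h 0).m_anti (Fac.snd _ _) w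
  have h3 := (D.P h 0).m_pos (ZbQ D v (5 * 0) 0) hw
  by_contra hcon
  push Not at hcon
  have := mul_lt_mul_of_pos_right hcon h3
  linarith

/-- the factor -/
theorem al_pow (h : D.Thick al) (H : D.Hyp dg prr al T Lam) {k : ℕ} (hk : k ≤ 3) : (1 / al) ^ k ≤ Real.exp (3 * Lam) := by
  have hL : 0 ≤ Lam := zero_le_one.trans H.Lam1
  have h1 : 1 / al ≤ Real.exp Lam := by
    rw [one_div, ← neg_neg Lam, Real.exp_neg]
    exact inv_anti₀ (Real.exp_pos _) H.alL
  have h2 : (1 / al) ^ k ≤ Real.exp Lam ^ k := pow_le_pow_left₀ (one_div_nonneg.2 h.pos.le) h1 k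
  refine h2.trans ?_
  rw [← Real.exp_nat_mul]
  refine Real.exp_le_exp.2 (mul_le_mul_of_nonneg_right ?_ hL)
  exact_mod_cast hk

variable {κ : Type} [Fintype κ]

/-- **three tops** -/
theorem NoS_cut (H : D.Hyp dg prr al T Lam) (hn : 1 ≤ n) (hN1 : 1 ≤ N1)
    (R : Run h (pr3 (Fin 3) n N1) (SS1 (Fin 3)) (AdmDep D) v) {A : Fin 6 → ℕ → Pt (Fin 3) X β φ → Prop}
    {rel : Fin 6 → ℕ → κ → Pt (Fin 3) X β φ → Tu X β φ → Prop} {bit : Fin 6 → ℕ → κ → Pt (Fin 3) X β φ → Prop}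
    {om : Fin 6 → ℕ → Pt (Fin 3) X β φ → Tu X β φ → ℝ} {eta : ℝ} (heta : 0 < eta) (heta1 : eta ≤ 1) {s : Fin 6} {t : ℕ}
    (ht : t ≤ T) (hd : ∀ w f k k', rel s t k w f → rel s t k' w f → k = k') (o0 : ∀ w f, 0 ≤ om s t w f)
    (B : Pt (Fin 3) X β φ → Prop) :
    NoS h v A rel bit om eta s t ≤ NoS h v (fun s t w => A s t w ∧ B w) rel bit om eta s t +
      Real.exp (3 * Lam) * (D.P h t).Pr (fun w => A s t w ∧ ¬ B w) := by
  have h1 := noG_cut (D.P h t) (Z := ZQ D v (qs s t)) (Zb := ZbQ D v (qs s t)) (FQ v t) (Y := ZbQ D v (qe s t))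
    (V := ZQ D v (qe s t)) (A := A s t) (rel := rel s t) (bit := bit s t) (om := om s t) h.pos heta heta1 hd o0
    (fun w _ i x hx => pv_thick h H hn hN1 R ht (qs_ge s t) i x hx) B
  refine h1.trans (add_le_add le_rfl (mul_le_mul_of_nonneg_right ?_ (FP.Pr_nonneg _ _)))
  exact al_pow h H (by simp)

/-- the two tops which see the vertex `i` -/
theorem No2_cut (H : D.Hyp dg prr al T Lam) (hn : 1 ≤ n) (hN1 : 1 ≤ N1)
    (R : Run h (pr3 (Fin 3) n N1) (SS1 (Fin 3)) (AdmDep D) v) {A : Pt (Fin 3) X β φ → Prop}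
    {rel : κ → Pt (Fin 3) X β φ → (Fin 3 → Option (Tt X β φ)) → Prop} {bit : κ → Pt (Fin 3) X β φ → Prop}
    {om : Pt (Fin 3) X β φ → (Fin 3 → Option (Tt X β φ)) → ℝ} {eta : ℝ} (heta : 0 < eta) (heta1 : eta ≤ 1) {s : Fin 6}
    {t : ℕ} (ht : t ≤ T) (i : Fin 3) (hd : ∀ w f k k', rel k w f → rel k' w f → k = k') (o0 : ∀ w f, 0 ≤ om w f)
    (B : Pt (Fin 3) X β φ → Prop) :
    No2 h v s t i A rel bit om eta ≤ No2 h v s t i (fun w => A w ∧ B w) rel bit om eta +
      Real.exp (3 * Lam) * (D.P h t).Pr (fun w => A w ∧ ¬ B w) := by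
  classical
  have hq : ∀ w, (D.P h t).p w ≠ 0 → ∀ j x, (D.P h t).pv (ZbQ D v (qs s t) j) (Fo (FQ v t) i j) w x ≠ 0 →
      al ≤ (D.P h t).pv (ZbQ D v (qs s t) j) (Fo (FQ v t) i j) w x := by
    intro w hw j x hx
    by_cases hj : j = i
    · have e : ∀ u, Fo (FQ (φ := φ) v t) i j u = Option.none := fun u => by unfold Fo; rw [if_pos hj]
      cases x with
      | none =>
        have e1 : (D.P h t).pv (ZbQ D v (qs s t) j) (Fo (FQ v t) i j) w Option.none = 1 := by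
          rw [← (D.P h t).ce_const (ZbQ D v (qs s t) j) 1 hw]
          refine (D.P h t).ce_congr (fun u _ => ?_) w
          exact ind_of (e u)
        rw [e1]
        exact al_le_one h H hn hN1 R
      | some y =>
        exfalso
        apply hx
        have e1 : (D.P h t).pv (ZbQ D v (qs s t) j) (Fo (FQ v t) i j) w (some y) =
            (D.P h t).ce (ZbQ D v (qs s t) j) (fun _ => 0) w := by
          refine (D.P h t).ce_congr (fun u _ => ?_) w
          refine ind_not ?_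
          rw [e u]
          exact fun hh => by simp at hh
        rw [e1, (D.P h t).ce_const _ 0 hw]
    · have e : ∀ u, Fo (FQ (φ := φ) v t) i j u = some (FQ v t j u) := fun u => by unfold Fo; rw [if_neg hj]
      cases x with
      | none =>
        exfalso
        apply hx
        have e1 : (D.P h t).pv (ZbQ D v (qs s t) j) (Fo (FQ v t) i j) w Option.none =
            (D.P h t).ce (ZbQ D v (qs s t) j) (fun _ => 0) w := by
          refine (D.P h t).ce_congr (fun u _ => ?_) w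
          refine ind_not ?_
          rw [e u]
          exact fun hh => by simp at hh
        rw [e1, (D.P h t).ce_const _ 0 hw]
      | some y =>
        have e1 : (D.P h t).pv (ZbQ D v (qs s t) j) (Fo (FQ v t) i j) w (some y) =
            (D.P h t).pv (ZbQ D v (qs s t) j) (FQ v t j) w y := by
          refine (D.P h t).ce_congr (fun u _ => ind_cg ?_) w
          rw [e u]
          exact ⟨fun hh => Option.some.inj hh, fun hh => by rw [hh]⟩
        rw [e1] at hx ⊢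
        exact pv_thick h H hn hN1 R ht (qs_ge s t) j y hx
  have h1 := noG_cut (D.P h t) (Z := ZQ D v (qs s t)) (Zb := ZbQ D v (qs s t)) (Fo (FQ v t) i) (Y := ZbQ D v (qe s t))
    (V := ZQ D v (qe s t)) (A := A) (rel := rel) (bit := bit) (om := om) h.pos heta heta1 hd o0 hq B
  refine h1.trans (add_le_add le_rfl (mul_le_mul_of_nonneg_right ?_ (FP.Pr_nonneg _ _)))
  exact al_pow h H (by simp)

/-- the top without the vertex `i` -/
theorem No1_cut (H : D.Hyp dg prr al T Lam) (hn : 1 ≤ n) (hN1 : 1 ≤ N1)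
    (R : Run h (pr3 (Fin 3) n N1) (SS1 (Fin 3)) (AdmDep D) v) {A : Pt (Fin 3) X β φ → Prop}
    {rel : κ → Pt (Fin 3) X β φ → (Unit → Tt X β φ) → Prop} {bit : κ → Pt (Fin 3) X β φ → Prop}
    {om : Pt (Fin 3) X β φ → (Unit → Tt X β φ) → ℝ} {eta : ℝ} (heta : 0 < eta) (heta1 : eta ≤ 1) {s : Fin 6}
    {t : ℕ} (ht : t ≤ T) (i : Fin 3) (hd : ∀ w f k k', rel k w f → rel k' w f → k = k') (o0 : ∀ w f, 0 ≤ om w f)
    (B : Pt (Fin 3) X β φ → Prop) :
    No1 h v s t i A rel bit om eta ≤ No1 h v s t i (fun w => A w ∧ B w) rel bit om eta +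
      Real.exp (3 * Lam) * (D.P h t).Pr (fun w => A w ∧ ¬ B w) := by
  have h1 := noG_cut (D.P h t) (Z := Z1 D v s t i) (Zb := fun _ : Unit => ZbQ D v (qs s t) i) (fun _ => FQ v t i)
    (Y := fun _ => ZbQ D v (qe s t) i) (V := ZQ D v (qe s t)) (A := A) (rel := rel) (bit := bit) (om := om) h.pos
    heta heta1 hd o0 (fun w _ _ x hx => pv_thick h H hn hN1 R ht (qs_ge s t) i x hx) B
  refine h1.trans (add_le_add le_rfl (mul_le_mul_of_nonneg_right ?_ (FP.Pr_nonneg _ _)))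
  exact al_pow h H (by simp)

/-! ### the points without `TyB` in the step `5` -/

/-- all own classes -/
def TyA (h : D.Thick al) (v : ℕ → Finset (Fin 3) → X → (Fin 3 → β) → Pt (Fin 3) X β φ) (L : ℝ) (t : ℕ)
    (w : Pt (Fin 3) X β φ) : Prop := ∀ l, TyB h v L t l w

theorem TyA_fac (L : ℝ) (t : ℕ) : Fac (ZQ (φ := φ) D v (5 * t + 4)) (TyA h v L t) := by
  intro a b hab
  refine forall_congr fun l => ?_
  exact TyB_fac h L t l a b hab

/-- the lost part of all times -/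
theorem tyA_sum (H : D.Hyp dg prr al T Lam) (hL : 2 ≤ Lam) {A0 c0 c M : ℕ} (hc : c + 1 ≤ c0)
    (hM : c0 + c1F A0 c0 + M + 6 ≤ 4 ^ (c0 - c - 1))
    (R : Run h (pr3 (Fin 3) (pw Lam c0) (pw Lam (c1F A0 c0))) (SS1 (Fin 3)) (AdmDep D) v)
    {A : ℕ → Pt (Fin 3) X β φ → Prop} (hA : ∀ t < T, ∀ w, (D.P h t).p w ≠ 0 → A t w → HV h v t w) :
    ∑ t ∈ range T, Real.exp (3 * Lam) *
      (D.P h t).Pr (fun w => A t w ∧ ¬ TyA h v (pw Lam (c0 - c)) t w) ≤ (pw Lam M)⁻¹ := by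
  have hx : (4 : ℝ) ≤ 2 * Lam := by linarith
  have p1 : ∀ c, (1 : ℝ) ≤ pw Lam c := fun c => pw_one hL c
  have hL1 : Real.exp (-pw Lam (c0 - c)) ≤ 1 / 2 := by
    have h1 : 1 ≤ pw Lam (c0 - c) := p1 _
    have h2 : Real.exp (-pw Lam (c0 - c)) ≤ Real.exp (-1) := Real.exp_le_exp.2 (by linarith)
    have h3 := Real.exp_neg_one_lt_d9
    linarith
  rw [← Finset.mul_sum]
  refine le_trans (mul_le_mul_of_nonneg_left ?_ (Real.exp_pos _).le) (TyB_num hL hc hM)
  refine le_trans (Finset.sum_le_sum fun t ht => ?_) (TyB_sum3 h H (p1 c0) (p1 _) R hL1)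
  refine (D.P h t).Pr_mono fun w hw hh => ?_
  exact ⟨hA t (Finset.mem_range.1 ht) w hw hh.1, hh.2⟩

end run

end NoT

end

end Pool.Agent.GMH.TP
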