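import Pool.Agent.GMH.TopNT
import Pool.Agent.GMH.BitKL

set_option autoImplicit false
set_option linter.unusedSectionVars false

namespace Pool.Agent.GMH.TP

open Finset Pool.Agent.PWZ Pool.Agent.M3 Pool.Agent.GM Pool.Agent.GM.Harm Pool.Agent.GMH Pool.Agent.GMH.NZ
open Pool.Agent.GMH.V3

noncomputable section

/-! ### product law of two sides given a common part -/

section hs

variable {Om : Type*} [Fintype Om] (P : FP Om) {αc α0 α1 αz κ0 κ1 : Type*}

/-- a set inside one class -/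
theorem E_ind_div_m (Z : Om → αz) {T : Om → Prop} (hT : ∀ v v', T v → T v' → Z v = Z v') :
    P.E (fun v => ind (T v) / P.m Z v) ≤ 1 := by
  classical
  by_cases hex : ∃ v, P.p v ≠ 0 ∧ T v
  · obtain ⟨v0, hv0, hT0⟩ := hex
    have hm := P.m_pos Z hv0
    have h1 : P.E (fun v => ind (T v) / P.m Z v) ≤ P.E (fun v => ind (Z v = Z v0) / P.m Z v0) := by
      refine P.E_mono fun v hv => ?_
      by_cases h2 : T v
      · have h3 : Z v = Z v0 := hT v v0 h2 hT0
        have h4 : P.m Z v = P.m Z v0 := P.Fac_m Z v v0 h3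
        rw [h4, ind_of h2, ind_of h3]
      · rw [ind_not h2, zero_div]
        exact div_nonneg (ind_nonneg _) hm.le
    refine h1.trans ?_
    rw [P.E_div_const]
    exact (div_self hm.ne').le
  · push Not at hex
    have h1 : P.E (fun v => ind (T v) / P.m Z v) = 0 := by
      refine (P.E_congr fun v hv => ?_).trans (P.E_const 0)
      rw [ind_not (hex v hv), zero_div]
    rw [h1]
    exact zero_le_one

variable (C : Om → αc) (Z0 : Om → α0) (Z1 : Om → α1) (Z : Om → αz)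

/-- the product law of the two sides given `C` against the true law -/
def rho (w : Om) : ℝ := P.m Z0 w * P.m Z1 w / (P.m Z w * P.m C w)

variable {C Z0 Z1 Z}

theorem rho_nonneg (w : Om) : 0 ≤ rho P C Z0 Z1 Z w :=
  div_nonneg (mul_nonneg (P.m_nonneg _ _) (P.m_nonneg _ _)) (mul_nonneg (P.m_nonneg _ _) (P.m_nonneg _ _))

/-- **real pairs carry at most the product law** -/
theorem rho_ce (hz : Fac (fun w => (Z0 w, Z1 w)) Z) (c0 : Fac Z0 C) (c1 : Fac Z1 C) {f g : Om → ℝ}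
    (hf : Fac Z0 f) (hg : Fac Z1 g) (f0 : ∀ w, 0 ≤ f w) (g0 : ∀ w, 0 ≤ g w) {w : Om} (hw : P.p w ≠ 0) :
    P.ce C (fun u => rho P C Z0 Z1 Z u * (f u * g u)) w ≤ P.ce C f w * P.ce C g w := by
  classical
  have hmC := P.m_pos C hw
  unfold FP.ce
  have key : P.E (fun v => ind (C v = C w) * (rho P C Z0 Z1 Z v * (f v * g v))) * P.m C w ≤
      P.E (fun v => ind (C v = C w) * f v) * P.E (fun v => ind (C v = C w) * g v) := by
    have e1 : P.E (fun v => ind (C v = C w) * (rho P C Z0 Z1 Z v * (f v * g v))) * P.m C w =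
        P.E (fun v => P.E (fun u => P.E (fun u' => ind (C v = C w) * (ind (Z0 u = Z0 v) * ind (Z1 u' = Z1 v)) *
          (f u * g u') / P.m Z v))) := by
      rw [← P.E_mul_const]
      refine P.E_congr fun v hv => ?_
      have e2 : ∀ u, P.E (fun u' => ind (C v = C w) * (ind (Z0 u = Z0 v) * ind (Z1 u' = Z1 v)) *
          (f u * g u') / P.m Z v) = ind (C v = C w) * (ind (Z0 u = Z0 v) * f u) * (P.m Z1 v * g v) / P.m Z v := by
        intro u
        have e3 : P.m Z1 v * g v = P.E (fun u' => ind (Z1 u' = Z1 v) * g u') := by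
          unfold FP.m
          rw [← P.E_mul_const]
          refine P.E_congr fun u' _ => ?_
          by_cases h : Z1 u' = Z1 v
          · rw [hg u' v h]
          · rw [ind_not h, zero_mul, zero_mul]
        rw [e3, ← P.E_smul, ← P.E_div_const]
        refine P.E_congr fun u' _ => ?_
        ring
      simp only [e2]
      have e4 : P.E (fun u => ind (C v = C w) * (ind (Z0 u = Z0 v) * f u) * (P.m Z1 v * g v) / P.m Z v) =
          ind (C v = C w) * (P.m Z0 v * f v) * (P.m Z1 v * g v) / P.m Z v := by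
        have e5 : P.m Z0 v * f v = P.E (fun u' => ind (Z0 u' = Z0 v) * f u') := by
          unfold FP.m
          rw [← P.E_mul_const]
          refine P.E_congr fun u' _ => ?_
          by_cases h : Z0 u' = Z0 v
          · rw [hf u' v h]
          · rw [ind_not h, zero_mul, zero_mul]
        rw [e5, ← P.E_smul, ← P.E_mul_const, ← P.E_div_const]
      rw [e4]
      by_cases h : C v = C w
      · have hmZ := P.m_pos Z hv
        have e6 : P.m C v = P.m C w := P.Fac_m C v w h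
        rw [ind_of h]
        unfold rho
        rw [e6]
        field_simp
      · rw [ind_not h]
        simp
    rw [e1, P.E_swap]
    have e7 : P.E (fun v => ind (C v = C w) * f v) * P.E (fun v => ind (C v = C w) * g v) =
        P.E (fun u => P.E (fun u' => (ind (C u = C w) * f u) * (ind (C u' = C w) * g u'))) := by
      rw [← P.E_mul_const]
      refine P.E_congr fun u _ => ?_
      rw [P.E_smul]
    rw [e7]
    refine P.E_mono fun u _ => ?_
    rw [P.E_swap]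
    refine P.E_mono fun u' _ => ?_
    have e8 : ∀ v, ind (C v = C w) * (ind (Z0 u = Z0 v) * ind (Z1 u' = Z1 v)) * (f u * g u') / P.m Z v =
        (ind (C v = C w ∧ (Z0 u = Z0 v ∧ Z1 u' = Z1 v)) / P.m Z v) * (f u * g u') := by
      intro v
      rw [ind_and, ind_and]
      ring
    simp only [e8]
    rw [P.E_mul_const]
    have hfg : 0 ≤ f u * g u' := mul_nonneg (f0 u) (g0 u')
    have e9 : P.E (fun v => ind (C v = C w ∧ (Z0 u = Z0 v ∧ Z1 u' = Z1 v)) / P.m Z v) ≤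
        ind (C u = C w) * ind (C u' = C w) := by
      by_cases hu : C u = C w
      · by_cases hu' : C u' = C w
        · rw [ind_of hu, ind_of hu', mul_one]
          refine E_ind_div_m P Z fun v v' h h' => hz v v' ?_
          exact Prod.ext (h.2.1.symm.trans h'.2.1) (h.2.2.symm.trans h'.2.2)
        · have h0 : P.E (fun v => ind (C v = C w ∧ (Z0 u = Z0 v ∧ Z1 u' = Z1 v)) / P.m Z v) = 0 := by
            refine (P.E_congr fun v hv => ?_).trans (P.E_const 0)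
            rw [ind_not (fun hh => hu' ((c1 u' v hh.2.2).trans hh.1)), zero_div]
          rw [h0]
          exact mul_nonneg (ind_nonneg _) (ind_nonneg _)
      · have h0 : P.E (fun v => ind (C v = C w ∧ (Z0 u = Z0 v ∧ Z1 u' = Z1 v)) / P.m Z v) = 0 := by
          refine (P.E_congr fun v hv => ?_).trans (P.E_const 0)
          rw [ind_not (fun hh => hu ((c0 u v hh.2.1).trans hh.1)), zero_div]
        rw [h0]
        exact mul_nonneg (ind_nonneg _) (ind_nonneg _)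
    refine (mul_le_mul_of_nonneg_right e9 hfg).trans (le_of_eq ?_)
    ring
  rw [div_mul_div_comm, div_le_div_iff₀ hmC (mul_pos hmC hmC)]
  have h2 := mul_le_mul_of_nonneg_right key hmC.le
  calc _ = P.E (fun v => ind (C v = C w) * (rho P C Z0 Z1 Z v * (f v * g v))) * P.m C w * P.m C w := by ring
    _ ≤ _ := h2

/-- square root form of Cauchy-Schwarz, nonnegative functions -/
theorem E_sqrt2 {f g : Om → ℝ} (f0 : ∀ w, 0 ≤ f w) (g0 : ∀ w, 0 ≤ g w) :
    P.E (fun w => Real.sqrt (f w) * Real.sqrt (g w)) ≤ Real.sqrt (P.E f * P.E g) := by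
  refine Real.le_sqrt_of_sq_le ?_
  refine (P.E_mul_sq_le _ _).trans (le_of_eq ?_)
  congr 1
  · exact P.E_congr fun w _ => Real.sq_sqrt (f0 w)
  · exact P.E_congr fun w _ => Real.sq_sqrt (g0 w)

theorem ce_sqrt2 {κ : Type*} (X : Om → κ) {f g : Om → ℝ} (f0 : ∀ w, 0 ≤ f w) (g0 : ∀ w, 0 ≤ g w) (w : Om) :
    P.ce X (fun w => Real.sqrt (f w) * Real.sqrt (g w)) w ≤ Real.sqrt (P.ce X f w * P.ce X g w) := by
  refine Real.le_sqrt_of_sq_le ?_
  refine (P.ce_mul_sq_le X _ _ w).trans (le_of_eq ?_)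
  congr 1
  · exact P.ce_congr (fun w _ => Real.sq_sqrt (f0 w)) w
  · exact P.ce_congr (fun w _ => Real.sq_sqrt (g0 w)) w

theorem schur1 {κ : Type*} {X : Om → κ} {k a : Om → ℝ} {d : ℝ} (hk : ∀ w, P.p w ≠ 0 → P.ce X k w ≤ d) (ha : Fac X a) :
    P.E (fun w => k w * a w ^ 2) ≤ d * P.E (fun w => a w ^ 2) := by
  have h3 : P.E (fun w => k w * a w ^ 2) = P.E (fun w => P.ce X k w * a w ^ 2) :=
    (P.E_ce_mul (ha.comp fun z => z ^ 2) k).symm
  rw [h3, ← P.E_smul]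
  exact P.E_mono fun w hw => mul_le_mul_of_nonneg_right (hk w hw) (sq_nonneg _)

/-- **Schur test** for a kernel with small rows and columns -/
theorem schur2 {k : Om → ℝ} (k0 : ∀ w, 0 ≤ k w) {d : ℝ} (hk0 : ∀ w, P.p w ≠ 0 → P.ce Z0 k w ≤ d)
    (hk1 : ∀ w, P.p w ≠ 0 → P.ce Z1 k w ≤ d) (hd : 0 ≤ d) {f g : Om → ℝ} (hf : Fac Z0 f) (hg : Fac Z1 g)
    (f0 : ∀ w, 0 ≤ f w) (g0 : ∀ w, 0 ≤ g w) :
    P.E (fun w => k w * (f w * g w)) ≤ d * Real.sqrt (P.E (fun w => f w ^ 2) * P.E (fun w => g w ^ 2)) := by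
  have h1 : P.E (fun w => k w * (f w * g w)) =
      P.E (fun w => Real.sqrt (k w * f w ^ 2) * Real.sqrt (k w * g w ^ 2)) := by
    refine P.E_congr fun w _ => ?_
    rw [Real.sqrt_mul (k0 w), Real.sqrt_mul (k0 w), Real.sqrt_sq (f0 w), Real.sqrt_sq (g0 w)]
    have := Real.mul_self_sqrt (k0 w)
    calc k w * (f w * g w) = (Real.sqrt (k w) * Real.sqrt (k w)) * (f w * g w) := by rw [this]
      _ = _ := by ring
  rw [h1]
  refine (E_sqrt2 P (fun w => mul_nonneg (k0 w) (sq_nonneg _)) fun w => mul_nonneg (k0 w) (sq_nonneg _)).trans ?_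
  have h4 := schur1 P hk0 hf
  have h5 := schur1 P hk1 hg
  have h6 : P.E (fun w => k w * f w ^ 2) * P.E (fun w => k w * g w ^ 2) ≤
      d ^ 2 * (P.E (fun w => f w ^ 2) * P.E (fun w => g w ^ 2)) := by
    have h7 : 0 ≤ P.E (fun w => k w * f w ^ 2) := P.E_nonneg fun w _ => mul_nonneg (k0 w) (sq_nonneg _)
    have h8 : 0 ≤ P.E (fun w => g w ^ 2) := P.E_nonneg fun w _ => sq_nonneg _
    have h9 : 0 ≤ P.E (fun w => f w ^ 2) := P.E_nonneg fun w _ => sq_nonneg _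
    calc _ ≤ P.E (fun w => k w * f w ^ 2) * (d * P.E (fun w => g w ^ 2)) := mul_le_mul_of_nonneg_left h5 h7
      _ ≤ (d * P.E (fun w => f w ^ 2)) * (d * P.E (fun w => g w ^ 2)) :=
        mul_le_mul_of_nonneg_right h4 (mul_nonneg hd h8)
      _ = _ := by ring
  refine (Real.sqrt_le_sqrt h6).trans (le_of_eq ?_)
  rw [Real.sqrt_mul (sq_nonneg d), Real.sqrt_sq hd]

/-- sums of squares -/
theorem sum_sq_le' {κ : Type*} (S : Finset κ) {q l : κ → ℝ} (q0 : ∀ x ∈ S, 0 ≤ q x) (q1 : ∑ x ∈ S, q x ≤ 1) :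
    (∑ x ∈ S, q x * l x) ^ 2 ≤ ∑ x ∈ S, q x * l x ^ 2 := by
  have h1 : (∑ x ∈ S, Real.sqrt (q x) * (Real.sqrt (q x) * l x)) ^ 2 ≤
      (∑ x ∈ S, Real.sqrt (q x) ^ 2) * ∑ x ∈ S, (Real.sqrt (q x) * l x) ^ 2 := Finset.sum_mul_sq_le_sq_mul_sq _ _ _
  have e1 : ∑ x ∈ S, Real.sqrt (q x) * (Real.sqrt (q x) * l x) = ∑ x ∈ S, q x * l x := by
    refine Finset.sum_congr rfl fun x hx => ?_
    rw [← mul_assoc, Real.mul_self_sqrt (q0 x hx)]
  have e2 : ∑ x ∈ S, Real.sqrt (q x) ^ 2 = ∑ x ∈ S, q x :=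
    Finset.sum_congr rfl fun x hx => Real.sq_sqrt (q0 x hx)
  have e3 : ∑ x ∈ S, (Real.sqrt (q x) * l x) ^ 2 = ∑ x ∈ S, q x * l x ^ 2 := by
    refine Finset.sum_congr rfl fun x hx => ?_
    rw [mul_pow, Real.sq_sqrt (q0 x hx)]
  rw [e1, e2, e3] at h1
  have h2 : 0 ≤ ∑ x ∈ S, q x * l x ^ 2 := Finset.sum_nonneg fun x hx => mul_nonneg (q0 x hx) (sq_nonneg _)
  exact h1.trans ((mul_le_mul_of_nonneg_right q1 h2).trans (le_of_eq (one_mul _)))

/-- **A SMALL SET OF PAIRS** : product part by Hilbert-Schmidt -/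
theorem trip_hs (hz : Fac (fun w => (Z0 w, Z1 w)) Z) (c0 : Fac Z0 C) (c1 : Fac Z1 C)
    (S0 : Finset κ0) (S1 : Finset κ1) {q0 : Om → κ0 → ℝ} {q1 : Om → κ1 → ℝ} {mm : Om → κ0 → κ1 → ℝ}
    {Hb : Om → κ0 → κ1 → Prop} (fq0 : ∀ x, Fac Z0 (fun w => q0 w x)) (fq1 : ∀ y, Fac Z1 (fun w => q1 w y))
    (p0 : ∀ w x, 0 ≤ q0 w x) (p1 : ∀ w y, 0 ≤ q1 w y) (s0 : ∀ w, ∑ x ∈ S0, q0 w x ≤ 1)
    (s1 : ∀ w, ∑ y ∈ S1, q1 w y ≤ 1) {aw : Om → ℝ} (a0 : ∀ w, 0 ≤ aw w) (a1 : ∀ w, aw w ≤ 1) {d e1 eH : ℝ}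
    (hd : 0 ≤ d) (he1 : 0 ≤ e1) (heH : 0 ≤ eH)
    (hk0 : ∀ w, P.p w ≠ 0 → P.ce Z0 (fun u => aw u * |rho P C Z0 Z1 Z u - 1|) w ≤ d)
    (hk1 : ∀ w, P.p w ≠ 0 → P.ce Z1 (fun u => aw u * |rho P C Z0 Z1 Z u - 1|) w ≤ d)
    (hpc : ∀ w, P.p w ≠ 0 →
      P.ce C (fun u => ∑ x ∈ S0, ∑ y ∈ S1, aw u * |mm u x y - q0 u x * q1 u y|) w ≤ e1)
    (hH : ∀ w, P.p w ≠ 0 → P.ce C (fun u => ∑ x ∈ S0, ∑ y ∈ S1, aw u * (ind (Hb u x y) * mm u x y)) w ≤ eH)
    {l : Om → κ0 → ℝ} {m : Om → κ1 → ℝ} (fl : ∀ x, Fac Z0 (fun w => l w x)) (fm : ∀ y, Fac Z1 (fun w => m w y))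
    (l0 : ∀ w x, 0 ≤ l w x) (m0 : ∀ w y, 0 ≤ m w y)
    (hp : P.E (fun w => ∑ x ∈ S0, ∑ y ∈ S1, aw w * |mm w x y - q0 w x * q1 w y| * (l w x * m w y)) ≤
      e1 * Real.sqrt (P.E (fun w => ∑ x ∈ S0, q0 w x * l w x ^ 2) * P.E (fun w => ∑ y ∈ S1, q1 w y * m w y ^ 2))) :
    P.E (fun w => ∑ x ∈ S0, ∑ y ∈ S1, aw w * (ind (Hb w x y) * mm w x y) * (l w x * m w y)) ≤
      (e1 + d + Real.sqrt (eH + e1 + d)) *
        Real.sqrt (P.E (fun w => ∑ x ∈ S0, q0 w x * l w x ^ 2) * P.E (fun w => ∑ y ∈ S1, q1 w y * m w y ^ 2)) := by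
  classical
  set r := rho P C Z0 Z1 Z with hr
  have r0 : ∀ w, 0 ≤ r w := fun w => rho_nonneg P w
  set f2 : Om → ℝ := fun w => ∑ x ∈ S0, q0 w x * l w x ^ 2 with hf2
  set g2 : Om → ℝ := fun w => ∑ y ∈ S1, q1 w y * m w y ^ 2 with hg2
  set f1 : Om → ℝ := fun w => ∑ x ∈ S0, q0 w x * l w x with hf1
  set g1 : Om → ℝ := fun w => ∑ y ∈ S1, q1 w y * m w y with hg1
  have ff2 : Fac Z0 f2 := Fac.finsum _ fun x _ => (fq0 x).mul ((fl x).comp fun z => z ^ 2)
  have fg2 : Fac Z1 g2 := Fac.finsum _ fun y _ => (fq1 y).mul ((fm y).comp fun z => z ^ 2)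
  have ff1 : Fac Z0 f1 := Fac.finsum _ fun x _ => (fq0 x).mul (fl x)
  have fg1 : Fac Z1 g1 := Fac.finsum _ fun y _ => (fq1 y).mul (fm y)
  have f20 : ∀ w, 0 ≤ f2 w := fun w => Finset.sum_nonneg fun x _ => mul_nonneg (p0 w x) (sq_nonneg _)
  have g20 : ∀ w, 0 ≤ g2 w := fun w => Finset.sum_nonneg fun y _ => mul_nonneg (p1 w y) (sq_nonneg _)
  have f10 : ∀ w, 0 ≤ f1 w := fun w => Finset.sum_nonneg fun x _ => mul_nonneg (p0 w x) (l0 w x)
  have g10 : ∀ w, 0 ≤ g1 w := fun w => Finset.sum_nonneg fun y _ => mul_nonneg (p1 w y) (m0 w y)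
  have hE1 : P.E (fun w => f1 w ^ 2) ≤ P.E f2 :=
    P.E_mono fun w _ => sum_sq_le' S0 (fun x _ => p0 w x) (s0 w)
  have hE2 : P.E (fun w => g1 w ^ 2) ≤ P.E g2 :=
    P.E_mono fun w _ => sum_sq_le' S1 (fun y _ => p1 w y) (s1 w)
  set M : ℝ := Real.sqrt (P.E f2 * P.E g2) with hM
  have hM0 : 0 ≤ M := Real.sqrt_nonneg _
  have hP0 : 0 ≤ P.E f2 := P.E_nonneg fun w _ => f20 w
  have hP1 : 0 ≤ P.E g2 := P.E_nonneg fun w _ => g20 w
  -- the product part
  set Sx : Om → ℝ := fun w => ∑ x ∈ S0, ∑ y ∈ S1, aw w * (ind (Hb w x y) * (q0 w x * q1 w y)) * (l w x * m w y)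
    with hSx
  set kH : Om → ℝ := fun w => ∑ x ∈ S0, ∑ y ∈ S1, aw w * (ind (Hb w x y) * (q0 w x * q1 w y)) with hkH
  have kH0 : ∀ w, 0 ≤ kH w := fun w => Finset.sum_nonneg fun x _ => Finset.sum_nonneg fun y _ =>
    mul_nonneg (a0 w) (mul_nonneg (ind_nonneg _) (mul_nonneg (p0 w x) (p1 w y)))
  have kHa : ∀ w, kH w ≤ aw w := by
    intro w
    have h1 : kH w ≤ ∑ x ∈ S0, ∑ y ∈ S1, aw w * (q0 w x * q1 w y) :=
      Finset.sum_le_sum fun x _ => Finset.sum_le_sum fun y _ =>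
        mul_le_mul_of_nonneg_left (mul_le_of_le_one_left (mul_nonneg (p0 w x) (p1 w y)) (ind_le_one _)) (a0 w)
    have h2 : ∑ x ∈ S0, ∑ y ∈ S1, aw w * (q0 w x * q1 w y) = aw w * ((∑ x ∈ S0, q0 w x) * ∑ y ∈ S1, q1 w y) := by
      rw [Finset.sum_mul_sum, Finset.mul_sum]
      exact Finset.sum_congr rfl fun x _ => by rw [Finset.mul_sum]
    have h3 : (∑ x ∈ S0, q0 w x) * ∑ y ∈ S1, q1 w y ≤ 1 :=
      mul_le_one₀ (s0 w) (Finset.sum_nonneg fun y _ => p1 w y) (s1 w)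
    rw [h2] at h1
    exact h1.trans (mul_le_of_le_one_right (a0 w) h3)
  have Sx0 : ∀ w, 0 ≤ Sx w := fun w => Finset.sum_nonneg fun x _ => Finset.sum_nonneg fun y _ =>
    mul_nonneg (mul_nonneg (a0 w) (mul_nonneg (ind_nonneg _) (mul_nonneg (p0 w x) (p1 w y))))
      (mul_nonneg (l0 w x) (m0 w y))
  have Sx1 : ∀ w, Sx w ≤ aw w * (f1 w * g1 w) := by
    intro w
    have h2 : ∑ x ∈ S0, ∑ y ∈ S1, aw w * (q0 w x * q1 w y) * (l w x * m w y) = aw w * (f1 w * g1 w) := by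
      rw [hf1, hg1]
      show _ = aw w * ((∑ x ∈ S0, q0 w x * l w x) * ∑ y ∈ S1, q1 w y * m w y)
      rw [Finset.sum_mul_sum, Finset.mul_sum]
      refine Finset.sum_congr rfl fun x _ => ?_
      rw [Finset.mul_sum]
      exact Finset.sum_congr rfl fun y _ => by ring
    rw [← h2]
    refine Finset.sum_le_sum fun x _ => Finset.sum_le_sum fun y _ => ?_
    refine mul_le_mul_of_nonneg_right ?_ (mul_nonneg (l0 w x) (m0 w y))
    exact mul_le_mul_of_nonneg_left (mul_le_of_le_one_left (mul_nonneg (p0 w x) (p1 w y)) (ind_le_one _)) (a0 w)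
  have Sx2 : ∀ w, Sx w ≤ Real.sqrt (kH w) * Real.sqrt (f2 w * g2 w) := by
    intro w
    have h1 : Sx w ^ 2 ≤ kH w * (f2 w * g2 w) := by
      set c : κ0 × κ1 → ℝ := fun z => aw w * (ind (Hb w z.1 z.2) * (q0 w z.1 * q1 w z.2)) with hc
      have c00 : ∀ z, 0 ≤ c z := fun z =>
        mul_nonneg (a0 w) (mul_nonneg (ind_nonneg _) (mul_nonneg (p0 w z.1) (p1 w z.2)))
      have e1 : Sx w = ∑ z ∈ S0 ×ˢ S1, Real.sqrt (c z) * (Real.sqrt (c z) * (l w z.1 * m w z.2)) := by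
        rw [Finset.sum_product]
        refine Finset.sum_congr rfl fun x _ => Finset.sum_congr rfl fun y _ => ?_
        rw [← mul_assoc (Real.sqrt (c (x, y))), Real.mul_self_sqrt (c00 _)]
      have e2 : kH w = ∑ z ∈ S0 ×ˢ S1, Real.sqrt (c z) ^ 2 := by
        rw [Finset.sum_product]
        refine Finset.sum_congr rfl fun x _ => Finset.sum_congr rfl fun y _ => ?_
        rw [Real.sq_sqrt (c00 _)]
      have e3 : ∑ z ∈ S0 ×ˢ S1, (Real.sqrt (c z) * (l w z.1 * m w z.2)) ^ 2 ≤ f2 w * g2 w := by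
        rw [Finset.sum_product, hf2, hg2]
        show _ ≤ (∑ x ∈ S0, q0 w x * l w x ^ 2) * ∑ y ∈ S1, q1 w y * m w y ^ 2
        rw [Finset.sum_mul_sum]
        refine Finset.sum_le_sum fun x _ => Finset.sum_le_sum fun y _ => ?_
        rw [mul_pow, Real.sq_sqrt (c00 _), hc]
        show aw w * (ind (Hb w x y) * (q0 w x * q1 w y)) * (l w x * m w y) ^ 2 ≤ _
        have h3 : aw w * (ind (Hb w x y) * (q0 w x * q1 w y)) ≤ q0 w x * q1 w y := by
          have h4 := mul_nonneg (p0 w x) (p1 w y)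
          have h5 : aw w * ind (Hb w x y) ≤ 1 := mul_le_one₀ (a1 w) (ind_nonneg _) (ind_le_one _)
          calc _ = (aw w * ind (Hb w x y)) * (q0 w x * q1 w y) := by ring
            _ ≤ _ := mul_le_of_le_one_left h4 h5
        refine (mul_le_mul_of_nonneg_right h3 (sq_nonneg _)).trans (le_of_eq ?_)
        ring
      rw [e1]
      refine (Finset.sum_mul_sq_le_sq_mul_sq _ _ _).trans ?_
      rw [← e2]
      exact mul_le_mul_of_nonneg_left e3 (kH0 w)
    rw [← Real.sqrt_mul (kH0 w)]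
    exact Real.le_sqrt_of_sq_le h1
  -- class by class
  have hdC : ∀ w, P.p w ≠ 0 → P.ce C (fun u => aw u * |r u - 1|) w ≤ d := by
    intro w hw
    rw [← P.ce_tower c0 (fun u => aw u * |r u - 1|) w]
    exact P.ce_le_const (fun u hu => hk0 u hu) hw
  have hkC : ∀ w, P.p w ≠ 0 → P.ce C (fun u => r u * kH u) w ≤ eH + e1 + d := by
    intro w hw
    have h1 : ∀ u, r u * kH u ≤ (∑ x ∈ S0, ∑ y ∈ S1, aw u * (ind (Hb u x y) * mm u x y) +
        ∑ x ∈ S0, ∑ y ∈ S1, aw u * |mm u x y - q0 u x * q1 u y|) + aw u * |r u - 1| := by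
      intro u
      have h2 : kH u ≤ ∑ x ∈ S0, ∑ y ∈ S1, aw u * (ind (Hb u x y) * mm u x y) +
          ∑ x ∈ S0, ∑ y ∈ S1, aw u * |mm u x y - q0 u x * q1 u y| := by
        rw [← Finset.sum_add_distrib]
        refine Finset.sum_le_sum fun x _ => ?_
        rw [← Finset.sum_add_distrib]
        refine Finset.sum_le_sum fun y _ => ?_
        rw [← mul_add]
        refine mul_le_mul_of_nonneg_left ?_ (a0 u)
        have h3 := neg_abs_le (mm u x y - q0 u x * q1 u y)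
        have h4 := abs_nonneg (mm u x y - q0 u x * q1 u y)
        by_cases hb : Hb u x y
        · rw [ind_of hb, one_mul, one_mul]; linarith
        · rw [ind_not hb, zero_mul, zero_mul]; linarith
      have h5 : (r u - 1) * kH u ≤ aw u * |r u - 1| := by
        have h6 := mul_le_mul_of_nonneg_right (le_abs_self (r u - 1)) (kH0 u)
        have h7 := mul_le_mul_of_nonneg_left (kHa u) (abs_nonneg (r u - 1))
        linarith
      linarith
    refine (P.ce_mono (fun u _ => h1 u) w).trans ?_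
    rw [P.ce_add, P.ce_add]
    have h2 := hdC w hw
    have h3 := hpc w hw
    have h4 := hH w hw
    linarith
  have hS1 : P.E (fun w => r w * Sx w) ≤ Real.sqrt (eH + e1 + d) * M := by
    have h1 : ∀ w, P.p w ≠ 0 → P.ce C (fun u => r u * Sx u) w ≤
        Real.sqrt (eH + e1 + d) * (Real.sqrt (P.ce C f2 w) * Real.sqrt (P.ce C g2 w)) := by
      intro w hw
      have h2 : P.ce C (fun u => r u * Sx u) w ≤
          P.ce C (fun u => Real.sqrt (r u * kH u) * Real.sqrt (r u * (f2 u * g2 u))) w := by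
        refine P.ce_mono (fun u _ => ?_) w
        have h3 := mul_le_mul_of_nonneg_left (Sx2 u) (r0 u)
        refine h3.trans (le_of_eq ?_)
        rw [Real.sqrt_mul (r0 u), Real.sqrt_mul (r0 u) (f2 u * g2 u)]
        have := Real.mul_self_sqrt (r0 u)
        calc r u * (Real.sqrt (kH u) * Real.sqrt (f2 u * g2 u)) =
            (Real.sqrt (r u) * Real.sqrt (r u)) * (Real.sqrt (kH u) * Real.sqrt (f2 u * g2 u)) := by rw [this]
          _ = _ := by ring
      have h4 := ce_sqrt2 P C (f := fun u => r u * kH u) (g := fun u => r u * (f2 u * g2 u))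
        (fun u => mul_nonneg (r0 u) (kH0 u)) (fun u => mul_nonneg (r0 u) (mul_nonneg (f20 u) (g20 u))) w
      refine h2.trans (h4.trans ?_)
      have h5 := hkC w hw
      have h6 := rho_ce P (C := C) hz c0 c1 ff2 fg2 f20 g20 hw
      have h7 : 0 ≤ P.ce C (fun u => r u * kH u) w := P.ce_nonneg (fun u _ => mul_nonneg (r0 u) (kH0 u)) w
      have h8 : 0 ≤ P.ce C f2 w := P.ce_nonneg (fun u _ => f20 u) w
      have h9 : 0 ≤ P.ce C g2 w := P.ce_nonneg (fun u _ => g20 u) w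
      rw [Real.sqrt_mul h7, ← Real.sqrt_mul h8]
      exact mul_le_mul (Real.sqrt_le_sqrt h5) (Real.sqrt_le_sqrt h6) (Real.sqrt_nonneg _) (Real.sqrt_nonneg _)
    rw [← P.E_ce C (fun u => r u * Sx u)]
    refine (P.E_mono h1).trans ?_
    rw [P.E_smul]
    refine mul_le_mul_of_nonneg_left ?_ (Real.sqrt_nonneg _)
    have h2 := E_sqrt2 P (f := P.ce C f2) (g := P.ce C g2) (fun w => P.ce_nonneg (fun u _ => f20 u) w)
      fun w => P.ce_nonneg (fun u _ => g20 u) w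
    rwa [P.E_ce, P.E_ce] at h2
  have hS2 : P.E (fun w => (aw w * |r w - 1|) * (f1 w * g1 w)) ≤ d * M := by
    have h1 := schur2 P (k := fun u => aw u * |r u - 1|) (fun w => mul_nonneg (a0 w) (abs_nonneg _)) hk0 hk1 hd ff1 fg1
      f10 g10
    refine h1.trans (mul_le_mul_of_nonneg_left (Real.sqrt_le_sqrt ?_) hd)
    exact mul_le_mul hE1 hE2 (P.E_nonneg fun w _ => sq_nonneg _) hP0
  have hfin : ∀ w, ∑ x ∈ S0, ∑ y ∈ S1, aw w * (ind (Hb w x y) * mm w x y) * (l w x * m w y) ≤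
      ∑ x ∈ S0, ∑ y ∈ S1, aw w * |mm w x y - q0 w x * q1 w y| * (l w x * m w y) +
        (r w * Sx w + (aw w * |r w - 1|) * (f1 w * g1 w)) := by
    intro w
    have h1 : ∑ x ∈ S0, ∑ y ∈ S1, aw w * (ind (Hb w x y) * mm w x y) * (l w x * m w y) ≤
        ∑ x ∈ S0, ∑ y ∈ S1, aw w * |mm w x y - q0 w x * q1 w y| * (l w x * m w y) + Sx w := by
      rw [hSx, ← Finset.sum_add_distrib]
      refine Finset.sum_le_sum fun x _ => ?_
      rw [← Finset.sum_add_distrib]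
      refine Finset.sum_le_sum fun y _ => ?_
      rw [← add_mul, ← mul_add]
      refine mul_le_mul_of_nonneg_right (mul_le_mul_of_nonneg_left ?_ (a0 w)) (mul_nonneg (l0 w x) (m0 w y))
      have h3 := le_abs_self (mm w x y - q0 w x * q1 w y)
      have h4 := abs_nonneg (mm w x y - q0 w x * q1 w y)
      by_cases hb : Hb w x y
      · rw [ind_of hb, one_mul, one_mul]; linarith
      · rw [ind_not hb, zero_mul, zero_mul]; linarith
    have h2 : Sx w ≤ r w * Sx w + (aw w * |r w - 1|) * (f1 w * g1 w) := by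
      have h3 : (1 - r w) * Sx w ≤ |r w - 1| * Sx w := by
        rw [abs_sub_comm]
        exact mul_le_mul_of_nonneg_right (le_abs_self _) (Sx0 w)
      have h4 := mul_le_mul_of_nonneg_left (Sx1 w) (abs_nonneg (r w - 1))
      nlinarith
    linarith
  refine (P.E_mono fun w _ => hfin w).trans ?_
  rw [P.E_add, P.E_add]
  have e : (e1 + d + Real.sqrt (eH + e1 + d)) * M = e1 * M + (Real.sqrt (eH + e1 + d) * M + d * M) := by ring
  rw [e]
  exact add_le_add hp (add_le_add hS1 hS2)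


theorem rho_comm (w : Om) : rho P C Z0 Z1 Z w = rho P C Z1 Z0 Z w := by
  unfold rho
  rw [mul_comm (P.m Z0 w)]

/-- one row of the product density -/
theorem rho_row (hz : Fac (fun w => (Z0 w, Z1 w)) Z) (c0 : Fac Z0 C) (c1 : Fac Z1 C) {f : Om → ℝ}
    (hf : Fac Z0 f) (f0 : ∀ w, 0 ≤ f w) {w : Om} (hw : P.p w ≠ 0) :
    P.ce Z1 (fun u => rho P C Z0 Z1 Z u * f u) w ≤ P.ce C f w := by
  have hm1 := P.m_pos Z1 hw
  have hmC := P.m_pos C hw
  have h1 := rho_ce P (C := C) (Z := Z) hz c0 c1 (g := fun u => ind (Z1 u = Z1 w)) hf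
    (Fac.ind fun a b hab => by rw [hab]) f0 (fun _ => ind_nonneg _) hw
  have e1 : P.ce C (fun u => rho P C Z0 Z1 Z u * (f u * ind (Z1 u = Z1 w))) w =
      P.ce Z1 (fun u => rho P C Z0 Z1 Z u * f u) w * (P.m Z1 w / P.m C w) := by
    unfold FP.ce
    rw [div_mul_div_cancel₀ hm1.ne']
    congr 1
    refine P.E_congr fun u _ => ?_
    by_cases h : Z1 u = Z1 w
    · simp only [ind_of h, ind_of (c1 u w h), mul_one]
    · simp only [ind_not h, mul_zero, zero_mul]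
  have e2 : P.ce C (fun u => ind (Z1 u = Z1 w)) w = P.m Z1 w / P.m C w := by
    unfold FP.ce
    congr 1
    refine P.E_congr fun u _ => ?_
    by_cases h : Z1 u = Z1 w
    · simp only [ind_of h, ind_of (c1 u w h), mul_one]
    · simp only [ind_not h, mul_zero]
  rw [e1, e2] at h1
  exact le_of_mul_le_mul_right h1 (div_pos hm1 hmC)

/-- the other row -/
theorem rho_row' (hz : Fac (fun w => (Z0 w, Z1 w)) Z) (c0 : Fac Z0 C) (c1 : Fac Z1 C) {f : Om → ℝ}
    (hf : Fac Z1 f) (f0 : ∀ w, 0 ≤ f w) {w : Om} (hw : P.p w ≠ 0) :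
    P.ce Z0 (fun u => rho P C Z0 Z1 Z u * f u) w ≤ P.ce C f w := by
  have h1 := rho_row P (C := C) (Z0 := Z1) (Z1 := Z0) (Z := Z)
    (fun a b hab => hz a b (by rw [Prod.mk.injEq] at hab ⊢; exact ⟨hab.2, hab.1⟩)) c1 c0 hf f0 hw
  refine (le_of_eq ?_).trans h1
  exact P.ce_congr (fun u _ => by rw [rho_comm]) w

/-- a class on which the weight vanishes -/
theorem ce_aw_zero {κ : Type*} {X : Om → κ} {aw f : Om → ℝ} {w : Om}
    (hex : ¬ ∃ u, P.p u ≠ 0 ∧ aw u ≠ 0 ∧ X u = X w) : P.ce X (fun u => aw u * f u) w = 0 := by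
  unfold FP.ce
  have e2 : P.E (fun u => ind (X u = X w) * (aw u * f u)) = 0 := by
    refine (P.E_congr fun u hu' => ?_).trans (P.E_const 0)
    by_cases hz : X u = X w
    · by_cases ha : aw u = 0
      · rw [ha, zero_mul, mul_zero]
      · exact absurd ⟨u, hu', ha, hz⟩ hex
    · rw [ind_not hz, zero_mul]
  rw [e2, zero_div]

end hs

end

end Pool.Agent.GMH.TP
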