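import Pool.Agent.GMH.TopTrip

set_option autoImplicit false
set_option linter.unusedSectionVars false

namespace Pool.Agent.GMH.TP

open Finset Pool.Agent.PWZ Pool.Agent.M3 Pool.Agent.GM Pool.Agent.GM.Harm Pool.Agent.GMH Pool.Agent.GMH.NZ
open Pool.Agent.GMH.V3

noncomputable section

section ck

variable {X β γ φ υ : Type} [Fintype X] [Fintype β] [Fintype φ] [Nonempty X] [Nonempty β]
variable (D : HD (Fin 3) X β γ φ) {al : ℝ} (v : ℕ → Finset (Fin 3) → X → (Fin 3 → β) → υ)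

/-- public information and the letters of the vertices `K` -/
def CK (q : ℕ) (K : Finset (Fin 3)) (w : Pt (Fin 3) X β φ) :
    (List υ × (γ × (Fin 3 → γ))) × (Fin 3 → Option (β × List υ)) :=
  (NPq D v q w, fun j => if j ∈ K then some (XLq v q j w) else none)

/-- the hidden points with the letters of `c` at the vertices `K` -/
def LK (q : ℕ) (K : Finset (Fin 3)) (c : Pt (Fin 3) X β φ) (x : X) : Prop :=
  ∀ j ∈ K, Um v (nc q {j}) {j} x c.2.1 = Um v (nc q {j}) {j} c.1 c.2.1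

variable {D v}

theorem CK_sub {q : ℕ} {K K' : Finset (Fin 3)} (hK : K ⊆ K') : Fac (CK (φ := φ) D v q K') (CK D v q K) := by
  intro a b hab
  unfold CK at hab ⊢
  rw [Prod.mk.injEq] at hab ⊢
  refine ⟨hab.1, funext fun j => ?_⟩
  by_cases hj : j ∈ K
  · have := congrFun hab.2 j
    simp only [if_pos (hK hj)] at this
    simp only [if_pos hj, this]
  · simp only [if_neg hj]

theorem CK_union {q : ℕ} {K K' K'' : Finset (Fin 3)} (hK : K'' ⊆ K ∪ K') :
    Fac (fun w => (CK (φ := φ) D v q K w, CK D v q K' w)) (CK D v q K'') := by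
  intro a b hab
  rw [Prod.mk.injEq] at hab
  have h1 := hab.1
  have h2 := hab.2
  unfold CK at h1 h2 ⊢
  rw [Prod.mk.injEq] at h1 h2 ⊢
  refine ⟨h1.1, funext fun j => ?_⟩
  by_cases hj : j ∈ K''
  · rcases Finset.mem_union.1 (hK hj) with h | h
    · have := congrFun h1.2 j
      simp only [if_pos h] at this
      simp only [if_pos hj, this]
    · have := congrFun h2.2 j
      simp only [if_pos h] at this
      simp only [if_pos hj, this]
  · simp only [if_neg hj]

theorem CK_iff (hv : Codes D v) (q : ℕ) (K : Finset (Fin 3)) (c u : Pt (Fin 3) X β φ) :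
    CK D v q K u = CK D v q K c ↔ NP D v (nc q ∅) (nn q) u = NP D v (nc q ∅) (nn q) c ∧
      (∀ j ∈ K, u.2.1 j = c.2.1 j) ∧ LK v q K c u.1 := by
  have hx : ∀ j, NP D v (nc q ∅) (nn q) u = NP D v (nc q ∅) (nn q) c → u.2.1 j = c.2.1 j →
      (Um v (nc q {j}) {j} u.1 u.2.1 = Um v (nc q {j}) {j} u.1 c.2.1) := by
    intro j hnp hy
    refine Um_codes hv (nc_le q {j}) {j} u.1 (fun l hl => by rw [Finset.mem_singleton.1 hl]; exact hy) ?_
    unfold NP nd at hnp
    rw [Prod.mk.injEq, Prod.mk.injEq] at hnp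
    exact fun l => congrFun hnp.2.2 l
  unfold CK
  rw [Prod.mk.injEq]
  constructor
  · rintro ⟨h1, h2⟩
    have h3 : ∀ j ∈ K, XLq v q j u = XLq v q j c := by
      intro j hj
      have := congrFun h2 j
      simp only [if_pos hj, Option.some.injEq] at this
      exact this
    have h4 : ∀ j ∈ K, u.2.1 j = c.2.1 j := fun j hj => congrArg Prod.fst (h3 j hj)
    refine ⟨h1, h4, fun j hj => ?_⟩
    have h5 : Um v (nc q {j}) {j} u.1 u.2.1 = Um v (nc q {j}) {j} c.1 c.2.1 := congrArg Prod.snd (h3 j hj)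
    rw [← h5]
    exact (hx j h1 (h4 j hj)).symm
  · rintro ⟨h1, h2, h3⟩
    refine ⟨h1, funext fun j => ?_⟩
    by_cases hj : j ∈ K
    · simp only [if_pos hj, Option.some.injEq]
      exact Prod.ext (h2 j hj) ((hx j h1 (h2 j hj)).trans (h3 j hj))
    · simp only [if_neg hj]

theorem CK_Zb (hv : Codes D v) (q : ℕ) (d : Fin 3) (c u : Pt (Fin 3) X β φ) :
    ZbQ D v q d u = ZbQ D v q d c ↔ CK D v q (univ.erase d) u = CK D v q (univ.erase d) c := by
  rw [Zb_iff hv, CK_iff hv]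
  unfold LK K0
  simp only [Finset.mem_erase, Finset.mem_univ, and_true]

theorem Zb_fCK (hv : Codes D v) (q : ℕ) (d : Fin 3) : Fac (ZbQ (φ := φ) D v q d) (CK D v q (univ.erase d)) :=
  fun a b h => (CK_Zb hv q d b a).1 h

theorem CK_fZb (hv : Codes D v) (q : ℕ) (d : Fin 3) : Fac (CK (φ := φ) D v q (univ.erase d)) (ZbQ D v q d) :=
  fun a b h => (CK_Zb hv q d b a).2 h

theorem CK_fZQ (hv : Codes D v) (q : ℕ) : Fac (CK (φ := φ) D v q univ) (ZQ D v q) := by
  intro u c hab
  obtain ⟨h1, h2, h3⟩ := (CK_iff hv q univ c u).1 hab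
  have hy : u.2.1 = c.2.1 := funext fun j => h2 j (mem_univ j)
  unfold ZQ
  rw [Prod.mk.injEq]
  refine ⟨funext fun J => ?_, ?_⟩
  · show SL v q J.1 u = SL v q J.1 c
    unfold SL
    rw [LL_eq]
    refine ⟨?_, fun l hl => absurd hl (no_top l J.1 J.2)⟩
    rcases Nat.lt_or_ge J.1.card 1 with hc | hc
    · have hJ : J.1 = ∅ := Finset.card_eq_zero.1 (by omega)
      rw [hJ]
      exact congrArg Prod.fst h1
    · have hJ2 : J.1.card ≤ 1 := J.2
      obtain ⟨j, hj⟩ := Finset.card_eq_one.1 (le_antisymm hJ2 hc)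
      rw [hj, hy]
      exact h3 j (mem_univ j)
  · unfold WW
    rw [Prod.mk.injEq]
    exact ⟨hy, congrArg Prod.snd h1⟩

theorem ZQ_fCK (q : ℕ) (K : Finset (Fin 3)) : Fac (ZQ (φ := φ) D v q) (CK D v q K) := by
  intro u c hab
  have h2 : ∀ j, XLq v q j u = XLq v q j c := fun j => ZQ_XLq q j u c hab
  have h1 : NPq D v q u = NPq D v q c := by
    unfold ZQ at hab
    rw [Prod.mk.injEq] at hab
    have h3 := congrFun hab.1 ⟨∅, pth_emp⟩
    have h4 : SL v q ∅ u = SL v q ∅ c := h3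
    unfold SL at h4
    rw [LL_eq] at h4
    have h5 := hab.2
    unfold WW at h5
    rw [Prod.mk.injEq] at h5
    exact Prod.ext h4.1 h5.2
  unfold CK
  rw [Prod.mk.injEq]
  refine ⟨h1, funext fun j => ?_⟩
  by_cases hj : j ∈ K
  · simp only [if_pos hj, h2 j]
  · simp only [if_neg hj]

theorem NPq_fCK (q : ℕ) : Fac (NPq (φ := φ) D v q) (CK D v q ∅) := by
  intro a b hab
  unfold CK
  rw [Prod.mk.injEq]
  exact ⟨hab, funext fun j => by simp⟩

theorem CK_fNPq (q : ℕ) (K : Finset (Fin 3)) : Fac (CK (φ := φ) D v q K) (NPq D v q) :=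
  fun a b hab => congrArg Prod.fst hab

variable {h : D.Thick al}

/-- exact points of the vertices `K` in a public cell, one free vertex -/
theorem cell_GK (hv : Codes D v) (t : ℕ) {s n : ℕ} (hs : s ≤ n + 1) (c : Pt (Fin 3) X β φ) {K : Finset (Fin 3)}
    {d : Fin 3} (hd : d ∉ K) (G : X → β → ℝ) :
    (D.P h t).E (fun u => ind (NP D v s n u = NP D v s n c) *
      (G u.1 (u.2.1 d) * ∏ j ∈ K, ind (u.2.1 j = c.2.1 j))) =
    (((FP.unif X).Pr (cX D v s n c) * ∏ j, (FP.unif β).Pr (cY D n c j)) * ∏ j ∈ K, mC D n c j (c.2.1 j)) *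
      (muC D v s n c).E (fun x => (nuC D n c d).E (G x)) := by
  classical
  set M := (FP.unif X).Pr (cX D v s n c) * ∏ j, (FP.unif β).Pr (cY D n c j) with hM
  have e1 : ∀ x b', G x b' = ∑ b : β, ind (b' = b) * G x b := by
    intro x b'
    rw [Finset.sum_eq_single b']
    · rw [ind_of rfl, one_mul]
    · intro b _ hb; rw [ind_not (Ne.symm hb), zero_mul]
    · intro hn; exact absurd (mem_univ _) hn
  have hKe : K ⊆ univ.erase d := fun j hj => Finset.mem_erase.2 ⟨fun hh => hd (hh ▸ hj), mem_univ j⟩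
  have hpr : ∀ (a : Fin 3 → ℝ) (a' : ℝ), ∏ j, (if j = d then a' else if j ∈ K then a j else 1) = a' * ∏ j ∈ K, a j := by
    intro a a'
    rw [← Finset.mul_prod_erase univ _ (mem_univ d), if_pos rfl]
    congr 1
    have e3 : ∏ j ∈ univ.erase d, (if j = d then a' else if j ∈ K then a j else 1) =
        ∏ j ∈ univ.erase d, (if j ∈ K then a j else 1) :=
      Finset.prod_congr rfl fun j hj => by rw [if_neg (Finset.ne_of_mem_erase hj)]
    rw [e3, Finset.prod_ite, Finset.prod_const_one, mul_one]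
    refine Finset.prod_congr ?_ fun _ _ => rfl
    ext j
    rw [Finset.mem_filter]
    exact ⟨fun hh => hh.2, fun hh => ⟨hKe hh, hh⟩⟩
  have e2 : (D.P h t).E (fun u => ind (NP D v s n u = NP D v s n c) *
      (G u.1 (u.2.1 d) * ∏ j ∈ K, ind (u.2.1 j = c.2.1 j))) =
      ∑ b : β, (D.P h t).E (fun u => ind (NP D v s n u = NP D v s n c) *
        (G u.1 b * ∏ j, (if j = d then ind (u.2.1 j = b) else if j ∈ K then ind (u.2.1 j = c.2.1 j) else 1))) := by
    rw [← FP.E_sum]
    refine FP.E_congr _ fun u _ => ?_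
    rw [← Finset.mul_sum]
    congr 1
    conv_lhs => rw [e1 u.1 (u.2.1 d)]
    rw [Finset.sum_mul]
    refine Finset.sum_congr rfl fun b _ => ?_
    have e3 : ∏ j, (if j = d then ind (u.2.1 j = b) else if j ∈ K then ind (u.2.1 j = c.2.1 j) else 1) =
        ∏ j, (if j = d then ind (u.2.1 d = b) else if j ∈ K then ind (u.2.1 j = c.2.1 j) else 1) :=
      Finset.prod_congr rfl fun j _ => by
        by_cases hjd : j = d
        · rw [if_pos hjd, if_pos hjd, hjd]
        · rw [if_neg hjd, if_neg hjd]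
    rw [e3, hpr]
    ring
  rw [e2]
  have e4 : ∀ b : β, (D.P h t).E (fun u => ind (NP D v s n u = NP D v s n c) *
        (G u.1 b * ∏ j, (if j = d then ind (u.2.1 j = b) else if j ∈ K then ind (u.2.1 j = c.2.1 j) else 1))) =
      M * (∏ j ∈ K, mC D n c j (c.2.1 j)) * (mC D n c d b * (muC D v s n c).E (fun x => G x b)) := by
    intro b
    have h1 := cell_E (h := h) hv t hs c (fun x => G x b)
      (fun j b' => if j = d then ind (b' = b) else if j ∈ K then ind (b' = c.2.1 j) else 1)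
    rw [h1, ← hM]
    have h2 : ∏ j, (nuC D n c j).E (fun b' => if j = d then ind (b' = b) else if j ∈ K then ind (b' = c.2.1 j) else 1) =
        mC D n c d b * ∏ j ∈ K, mC D n c j (c.2.1 j) := by
      rw [← hpr]
      refine Finset.prod_congr rfl fun j _ => ?_
      by_cases hjd : j = d
      · simp only [hjd]; rfl
      · by_cases hjK : j ∈ K
        · simp only [if_neg hjd, if_pos hjK]; rfl
        · simp only [if_neg hjd, if_neg hjK]; exact FP.E_const _ 1
    rw [h2]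
    ring
  rw [Finset.sum_congr rfl fun b _ => e4 b, ← Finset.mul_sum]
  congr 1
  have e5 : ∀ x, (nuC D n c d).E (G x) = ∑ b : β, mC D n c d b * G x b := by
    intro x
    have h3 : (nuC D n c d).E (G x) = (nuC D n c d).E (fun b' => ∑ b : β, ind (b' = b) * G x b) :=
      FP.E_congr _ fun b' _ => e1 x b'
    rw [h3, FP.E_sum]
    exact Finset.sum_congr rfl fun b _ => FP.E_mul_const _ _ _
  simp only [e5]
  rw [FP.E_sum]
  exact Finset.sum_congr rfl fun b _ => (FP.E_smul _ _ _).symm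

variable (D v) in
/-- the mass of the public cell and of the exact points of `K` -/
def MK (q : ℕ) (K : Finset (Fin 3)) (c : Pt (Fin 3) X β φ) : ℝ :=
  ((FP.unif X).Pr (cX D v (nc q ∅) (nn q) c) * ∏ j, (FP.unif β).Pr (cY D (nn q) c j)) *
    ∏ j ∈ K, mC D (nn q) c j (c.2.1 j)

theorem MK_pos (q : ℕ) (K : Finset (Fin 3)) (c : Pt (Fin 3) X β φ) : 0 < MK D v q K c := by
  unfold MK
  refine mul_pos (mul_pos ?_ (Finset.prod_pos fun j _ => ?_)) (Finset.prod_pos fun j _ => nuC_p_nonneg _ _ _)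
  · exact lt_of_le_of_ne (FP.Pr_nonneg _ _) (Ne.symm (unif_ne (cX_self _ _ c)))
  · exact lt_of_le_of_ne (FP.Pr_nonneg _ _) (Ne.symm (unif_ne (cY_self _ c j)))

theorem ind_pts (K : Finset (Fin 3)) (c u : Pt (Fin 3) X β φ) :
    ∏ j ∈ K, ind (u.2.1 j = c.2.1 j) = ind (∀ j ∈ K, u.2.1 j = c.2.1 j) := by
  by_cases hh : ∀ j ∈ K, u.2.1 j = c.2.1 j
  · rw [ind_of hh]
    exact Finset.prod_eq_one fun j hj => ind_of (hh j hj)
  · rw [ind_not hh]
    push Not at hh
    obtain ⟨j, hj, hne⟩ := hh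
    exact Finset.prod_eq_zero hj (ind_not hne)

/-- a function of the hidden point and of the point of `d` in the class of `c` -/
theorem clsK_E (hv : Codes D v) (t q : ℕ) (c : Pt (Fin 3) X β φ) {K : Finset (Fin 3)} {d : Fin 3} (hd : d ∉ K)
    (G : X → β → ℝ) :
    (D.P h t).E (fun u => ind (CK D v q K u = CK D v q K c) * G u.1 (u.2.1 d)) =
    MK D v q K c * (muC D v (nc q ∅) (nn q) c).E (fun x => ind (LK v q K c x) * (nuC D (nn q) c d).E (G x)) := by
  classical
  have h1 := cell_GK (h := h) hv t (nc_le q ∅) c hd (fun x b => ind (LK v q K c x) * G x b)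
  simp only [FP.E_smul] at h1
  unfold MK
  rw [← h1]
  refine FP.E_congr _ fun u _ => ?_
  rw [ind_pts, ind_cg (CK_iff hv q K c u), ind_and, ind_and]
  ring

/-- the mass of a class -/
theorem clsK_m (hv : Codes D v) (t q : ℕ) (K : Finset (Fin 3)) (c : Pt (Fin 3) X β φ) :
    (D.P h t).m (CK D v q K) c = MK D v q K c * (muC D v (nc q ∅) (nn q) c).Pr (LK v q K c) := by
  classical
  have h1 := cell_E (h := h) hv t (nc_le q ∅) c (fun x => ind (LK v q K c x))
    (fun j b' => if j ∈ K then ind (b' = c.2.1 j) else 1)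
  have h2 : ∏ j, (nuC D (nn q) c j).E (fun b' => if j ∈ K then ind (b' = c.2.1 j) else 1) =
      ∏ j ∈ K, mC D (nn q) c j (c.2.1 j) := by
    have h3 : ∀ j, (nuC D (nn q) c j).E (fun b' => if j ∈ K then ind (b' = c.2.1 j) else 1) =
        if j ∈ K then mC D (nn q) c j (c.2.1 j) else 1 := by
      intro j
      by_cases hjK : j ∈ K
      · simp only [if_pos hjK]; rfl
      · simp only [if_neg hjK]; exact FP.E_const _ 1
    rw [Finset.prod_congr rfl fun j _ => h3 j, Finset.prod_ite, Finset.prod_const_one, mul_one]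
    exact Finset.prod_congr (by ext j; simp) fun _ _ => rfl
  rw [h2] at h1
  unfold MK FP.m FP.Pr
  have e : (((FP.unif X).E (fun x => ind (cX D v (nc q ∅) (nn q) c x)) *
      ∏ j, (FP.unif β).E (fun b => ind (cY D (nn q) c j b))) * ∏ j ∈ K, mC D (nn q) c j (c.2.1 j)) *
        (muC D v (nc q ∅) (nn q) c).E (fun x => ind (LK v q K c x)) =
      ((FP.unif X).Pr (cX D v (nc q ∅) (nn q) c) * ∏ j, (FP.unif β).Pr (cY D (nn q) c j)) *
        ((muC D v (nc q ∅) (nn q) c).E (fun x => ind (LK v q K c x)) * ∏ j ∈ K, mC D (nn q) c j (c.2.1 j)) := by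
    unfold FP.Pr
    ring
  rw [e, ← h1]
  refine FP.E_congr _ fun u _ => ?_
  have e3 : ∏ j, (if j ∈ K then ind (u.2.1 j = c.2.1 j) else 1) = ∏ j ∈ K, ind (u.2.1 j = c.2.1 j) := by
    rw [Finset.prod_ite, Finset.prod_const_one, mul_one]
    exact Finset.prod_congr (by ext j; simp) fun _ _ => rfl
  rw [e3, ind_pts, ind_cg (CK_iff hv q K c u), ind_and, ind_and]
  ring

/-- coarser letters are closer -/
theorem dvC_coarse [Nonempty φ] {s s' : ℕ} (hs : s' ≤ s) (n : ℕ) (c : Pt (Fin 3) X β φ) (k : Fin 3) (E : X → Prop) :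
    ∑ z ∈ vals (XL (φ := φ) v s' k), mC D n c k z.1 * |(muC D v s n c).Pr (fun x => E x ∧ Gl v s' c k z x) -
      (muC D v s n c).Pr E * (muC D v s n c).Pr (Gl v s' c k z)| ≤ dvC D v s n c k E := by
  classical
  set μ := muC D v s n c with hμ
  set sg : β × List υ → ℝ := fun z => if 0 ≤ μ.Pr (fun x => E x ∧ Gl v s' c k z x) - μ.Pr E * μ.Pr (Gl v s' c k z)
    then 1 else -1 with hsg
  have hsg1 : ∀ z, |sg z| ≤ 1 := by
    intro z
    rw [hsg]
    show |if _ then (1 : ℝ) else -1| ≤ 1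
    split_ifs <;> simp
  have hab : ∀ z, |μ.Pr (fun x => E x ∧ Gl v s' c k z x) - μ.Pr E * μ.Pr (Gl v s' c k z)| =
      sg z * μ.E (fun x => ind (E x) * ind (Gl v s' c k z x)) - μ.Pr E * (sg z * μ.E (fun x => ind (Gl v s' c k z x))) := by
    intro z
    have e3 : μ.Pr (fun x => E x ∧ Gl v s' c k z x) = μ.E (fun x => ind (E x) * ind (Gl v s' c k z x)) :=
      FP.E_congr _ fun x _ => ind_and _ _
    have e4 : μ.E (fun x => ind (Gl v s' c k z x)) = μ.Pr (Gl v s' c k z) := rfl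
    rw [e4, ← e3, hsg]
    show _ = (if _ then (1 : ℝ) else -1) * _ - _ * ((if _ then (1 : ℝ) else -1) * _)
    split_ifs with h0
    · rw [abs_of_nonneg h0]; ring
    · rw [abs_of_neg (not_le.1 h0)]; ring
  have e1 := E_gl (D := D) (v := v) s' n c k μ (fun x => ind (E x)) sg
  have e2 := E_gl (D := D) (v := v) s' n c k μ (fun _ => 1) sg
  simp only [one_mul] at e2
  have e5 : ∑ z ∈ vals (XL (φ := φ) v s' k), mC D n c k z.1 * |μ.Pr (fun x => E x ∧ Gl v s' c k z x) -
      μ.Pr E * μ.Pr (Gl v s' c k z)| =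
      μ.E (fun x => ind (E x) * (nuC D n c k).E (fun b => sg (b, code v s' c k x b))) -
        μ.Pr E * μ.E (fun x => (nuC D n c k).E (fun b => sg (b, code v s' c k x b))) := by
    rw [e1, e2, Finset.mul_sum, ← Finset.sum_sub_distrib]
    refine Finset.sum_congr rfl fun z _ => ?_
    rw [hab z]
    ring
  rw [e5]
  have e6 := dvW_test (D := D) (v := v) s n c k (fun x => ind (E x)) (f := fun z => sg (z.1, z.2.take s'))
    (fun z => hsg1 _)
  have e7 : ∀ x b, (code v s c k x b).take s' = code v s' c k x b := by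
    intro x b
    unfold code Um
    rw [← List.map_take, List.take_range, min_eq_left hs]
  simp only [e7] at e6
  rw [dvW_ind] at e6
  exact (le_abs_self _).trans e6


theorem muC_cl {s n : ℕ} {c u : Pt (Fin 3) X β φ} (hv : Codes D v) (hs : s ≤ n + 1)
    (hu : NP D v s n u = NP D v s n c) : muC D v s n u = muC D v s n c := by
  unfold muC
  congr 1
  funext x
  have h2 : D.qa n u.1 = D.qa n c.1 := by
    unfold NP nd at hu
    rw [Prod.mk.injEq, Prod.mk.injEq] at hu
    exact hu.2.1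
  have h3 : ∀ j, D.qb n (u.2.1 j) = D.qb n (c.2.1 j) := by
    unfold NP nd at hu
    rw [Prod.mk.injEq, Prod.mk.injEq] at hu
    exact fun j => congrFun hu.2.2 j
  have h1 : Um v s ∅ u.1 u.2.1 = Um v s ∅ c.1 c.2.1 := by
    unfold NP at hu
    rw [Prod.mk.injEq] at hu
    exact hu.1
  have h4 : Um v s ∅ x u.2.1 = Um v s ∅ x c.2.1 := Um_codes hv hs ∅ x (fun j hj => absurd hj (by simp)) h3
  unfold cX
  rw [h1, h2, h4]

theorem LK_cl (hv : Codes D v) {q : ℕ} {K : Finset (Fin 3)} {c u : Pt (Fin 3) X β φ}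
    (hu : CK D v q K u = CK D v q K c) : LK v q K u = LK v q K c := by
  obtain ⟨h1, h2, h3⟩ := (CK_iff hv q K c u).1 hu
  have hx : ∀ x j, j ∈ K → Um v (nc q {j}) {j} x u.2.1 = Um v (nc q {j}) {j} x c.2.1 := by
    intro x j hj
    refine Um_codes hv (nc_le q {j}) {j} x (fun l hl => by rw [Finset.mem_singleton.1 hl]; exact h2 j hj) ?_
    unfold NP nd at h1
    rw [Prod.mk.injEq, Prod.mk.injEq] at h1
    exact fun l => congrFun h1.2.2 l
  funext x
  refine propext (forall_congr' fun j => forall_congr' fun hj => ?_)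
  rw [hx x j hj, hx u.1 j hj, h3 j hj]

/-- the letter of a free vertex -/
theorem LK_gl (hv : Codes D v) {q : ℕ} {i : Fin 3} {c u : Pt (Fin 3) X β φ}
    (hu : NP D v (nc q ∅) (nn q) u = NP D v (nc q ∅) (nn q) c) (x : X) :
    LK v q {i} u x ↔ Gl v (nc q {i}) c i (u.2.1 i, code v (nc q {i}) c i u.1 (u.2.1 i)) x := by
  have h3 : ∀ j, D.qb (nn q) (u.2.1 j) = D.qb (nn q) (c.2.1 j) := by
    unfold NP nd at hu
    rw [Prod.mk.injEq, Prod.mk.injEq] at hu
    exact fun j => congrFun hu.2.2 j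
  have hx : ∀ x, Um v (nc q {i}) {i} x u.2.1 = Um v (nc q {i}) {i} x (Function.update c.2.1 i (u.2.1 i)) := by
    intro x
    refine Um_codes hv (nc_le q {i}) {i} x (fun l hl => ?_) fun l => ?_
    · rw [Finset.mem_singleton.1 hl, Function.update_self]
    · by_cases hl : l = i
      · rw [hl, Function.update_self]
      · rw [Function.update_of_ne hl]; exact h3 l
  unfold LK Gl code
  simp only [Finset.mem_singleton, forall_eq]
  rw [hx x, hx u.1]

theorem MK_ins (q : ℕ) {K : Finset (Fin 3)} {i : Fin 3} (hi : i ∉ K) (c : Pt (Fin 3) X β φ) :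
    MK D v q K c * MK D v q {i} c = MK D v q (insert i K) c * MK D v q ∅ c := by
  unfold MK
  rw [Finset.prod_insert hi, Finset.prod_singleton, Finset.prod_empty]
  ring

/-- **the product density** -/
theorem rho_eq (hv : Codes D v) (t q : ℕ) {K : Finset (Fin 3)} {i : Fin 3} (hi : i ∉ K) (u : Pt (Fin 3) X β φ) :
    rho (D.P h t) (NPq D v q) (CK D v q K) (CK D v q {i}) (CK D v q (insert i K)) u =
      (muC D v (nc q ∅) (nn q) u).Pr (LK v q K u) * (muC D v (nc q ∅) (nn q) u).Pr (LK v q {i} u) /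
        (muC D v (nc q ∅) (nn q) u).Pr (LK v q (insert i K) u) := by
  have e0 : (D.P h t).m (NPq D v q) u = (D.P h t).m (CK D v q ∅) u :=
    (D.P h t).m_congr (NPq_fCK q) (CK_fNPq q ∅) u
  have e1 : (muC D v (nc q ∅) (nn q) u).Pr (LK v q ∅ u) = 1 := by
    unfold FP.Pr
    refine (FP.E_congr _ fun x _ => ?_).trans (FP.E_const _ 1)
    exact ind_of (fun j hj => absurd hj (by simp))
  unfold rho
  rw [e0, clsK_m hv, clsK_m hv, clsK_m hv, clsK_m hv, e1]
  have h0 := MK_pos (D := D) (v := v) q ∅ u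
  have h1 := MK_pos (D := D) (v := v) q K u
  have h2 := MK_pos (D := D) (v := v) q {i} u
  have h3 := MK_pos (D := D) (v := v) q (insert i K) u
  have h4 := MK_ins (D := D) (v := v) q hi u
  have e2 : MK D v q K u * (muC D v (nc q ∅) (nn q) u).Pr (LK v q K u) *
      (MK D v q {i} u * (muC D v (nc q ∅) (nn q) u).Pr (LK v q {i} u)) =
      (MK D v q (insert i K) u * MK D v q ∅ u) *
        ((muC D v (nc q ∅) (nn q) u).Pr (LK v q K u) * (muC D v (nc q ∅) (nn q) u).Pr (LK v q {i} u)) := by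
    rw [← h4]; ring
  have e3 : MK D v q (insert i K) u * (muC D v (nc q ∅) (nn q) u).Pr (LK v q (insert i K) u) * (MK D v q ∅ u * 1) =
      (MK D v q (insert i K) u * MK D v q ∅ u) * (muC D v (nc q ∅) (nn q) u).Pr (LK v q (insert i K) u) := by ring
  rw [e2, e3, mul_div_mul_left _ _ (mul_pos h3 h0).ne']

/-- **THE ROW OF ONE VERTEX** given the letters of the vertices `K` -/
theorem row_rho [Nonempty φ] (hv : Codes D v) (t q : ℕ) {K : Finset (Fin 3)} {i : Fin 3} (hi : i ∉ K)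
    (hs : nc q {i} ≤ nc q ∅) {c : Pt (Fin 3) X β φ} {κ B : ℝ}
    (hE : dvC D v (nc q ∅) (nn q) c i (LK v q K c) ≤ κ * (muC D v (nc q ∅) (nn q) c).Pr (LK v q K c) + B) :
    (D.P h t).ce (CK D v q K)
      (fun u => |rho (D.P h t) (NPq D v q) (CK D v q K) (CK D v q {i}) (CK D v q (insert i K)) u - 1|) c ≤
      κ + B / (muC D v (nc q ∅) (nn q) c).Pr (LK v q K c) := by
  classical
  set μ := muC D v (nc q ∅) (nn q) c with hμ
  have hL0 : 0 < μ.Pr (LK v q K c) := by
    have h1 : (FP.unif X).Pr (cX D v (nc q ∅) (nn q) c) ≠ 0 := unif_ne (cX_self _ _ c)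
    have h2 : (FP.unif X).Pr (cX D v (nc q ∅) (nn q) c) * μ.Pr (LK v q K c) =
        (FP.unif X).Pr (fun x => cX D v (nc q ∅) (nn q) c x ∧ LK v q K c x) := by
      rw [hμ]
      unfold muC
      show _ * ((FP.unif X).cond (cX D v (nc q ∅) (nn q) c)).E (fun x => ind (LK v q K c x)) = _
      rw [FP.Pr_mul_cond_E h1]
      exact FP.E_congr _ fun x _ => (ind_and _ _).symm
    have h3 : (FP.unif X).Pr (fun x => cX D v (nc q ∅) (nn q) c x ∧ LK v q K c x) ≠ 0 :=
      unif_ne (a := c.1) ⟨cX_self _ _ c, fun j _ => rfl⟩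
    have h4 : μ.Pr (LK v q K c) ≠ 0 := by
      intro h5
      rw [h5, mul_zero] at h2
      exact h3 h2.symm
    exact lt_of_le_of_ne (FP.Pr_nonneg _ _) (Ne.symm h4)
  have hM := MK_pos (D := D) (v := v) q K c
  set R : β × List υ → ℝ := fun z => μ.Pr (LK v q K c) * μ.Pr (Gl v (nc q {i}) c i z) /
    μ.Pr (fun x => LK v q K c x ∧ Gl v (nc q {i}) c i z x) with hR
  have e1 : (D.P h t).E (fun u => ind (CK D v q K u = CK D v q K c) *
      |rho (D.P h t) (NPq D v q) (CK D v q K) (CK D v q {i}) (CK D v q (insert i K)) u - 1|) =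
      (D.P h t).E (fun u => ind (CK D v q K u = CK D v q K c) *
        |R (u.2.1 i, code v (nc q {i}) c i u.1 (u.2.1 i)) - 1|) := by
    refine FP.E_congr _ fun u _ => ?_
    by_cases hu : CK D v q K u = CK D v q K c
    · have h1 : NP D v (nc q ∅) (nn q) u = NP D v (nc q ∅) (nn q) c := ((CK_iff hv q K c u).1 hu).1
      rw [rho_eq hv t q hi u, muC_cl hv (nc_le q ∅) h1, ← hμ, LK_cl hv hu]
      have h2 : μ.Pr (LK v q {i} u) = μ.Pr (Gl v (nc q {i}) c i (u.2.1 i, code v (nc q {i}) c i u.1 (u.2.1 i))) :=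
        FP.Pr_congr _ fun x _ => LK_gl hv h1 x
      have h3 : μ.Pr (LK v q (insert i K) u) = μ.Pr (fun x => LK v q K c x ∧
          Gl v (nc q {i}) c i (u.2.1 i, code v (nc q {i}) c i u.1 (u.2.1 i)) x) := by
        refine FP.Pr_congr _ fun x _ => ?_
        rw [← LK_gl hv h1 x, ← LK_cl hv hu]
        unfold LK
        simp only [Finset.mem_insert, forall_eq_or_imp, Finset.mem_singleton, forall_eq]
        exact and_comm
      rw [h2, h3]
    · rw [ind_not hu, zero_mul, zero_mul]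
  have e2 := clsK_E (h := h) hv t q c hi (fun x b => |R (b, code v (nc q {i}) c i x b) - 1|)
  have e3 := E_gl (D := D) (v := v) (nc q {i}) (nn q) c i μ (fun x => ind (LK v q K c x)) (fun z => |R z - 1|)
  have h4 : ∑ z ∈ vals (XL (φ := φ) v (nc q {i}) i), mC D (nn q) c i z.1 * (|R z - 1| *
      μ.E (fun x => ind (LK v q K c x) * ind (Gl v (nc q {i}) c i z x))) ≤
      ∑ z ∈ vals (XL (φ := φ) v (nc q {i}) i), mC D (nn q) c i z.1 * |μ.Pr (fun x => LK v q K c x ∧
        Gl v (nc q {i}) c i z x) - μ.Pr (LK v q K c) * μ.Pr (Gl v (nc q {i}) c i z)| := by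
    refine Finset.sum_le_sum fun z _ => mul_le_mul_of_nonneg_left ?_ (mC_nonneg _ _ _ _)
    have h5 : μ.E (fun x => ind (LK v q K c x) * ind (Gl v (nc q {i}) c i z x)) =
        μ.Pr (fun x => LK v q K c x ∧ Gl v (nc q {i}) c i z x) := FP.E_congr _ fun x _ => (ind_and _ _).symm
    rw [h5]
    set a := μ.Pr (fun x => LK v q K c x ∧ Gl v (nc q {i}) c i z x) with ha
    have ha0 : 0 ≤ a := FP.Pr_nonneg _ _
    rcases ha0.eq_or_lt with h6 | h6
    · rw [← h6, mul_zero]; exact abs_nonneg _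
    · rw [hR]
      show |μ.Pr (LK v q K c) * μ.Pr (Gl v (nc q {i}) c i z) / a - 1| * a ≤ _
      rw [← abs_of_pos h6, ← abs_mul, abs_of_pos h6, sub_mul, div_mul_cancel₀ _ h6.ne', one_mul, abs_sub_comm]
  have h7 := dvC_coarse (D := D) (v := v) hs (nn q) c i (LK v q K c)
  unfold FP.ce
  rw [e1, e2, e3, clsK_m hv, mul_div_mul_left _ _ hM.ne', div_le_iff₀ hL0]
  refine (h4.trans (h7.trans hE)).trans (le_of_eq ?_)
  rw [add_mul, div_mul_cancel₀ _ hL0.ne']


theorem LK_anti {q : ℕ} {K K' : Finset (Fin 3)} (hK : K ⊆ K') (c : Pt (Fin 3) X β φ) (μ : FP X) :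
    μ.Pr (LK v q K' c) ≤ μ.Pr (LK v q K c) :=
  FP.Pr_mono _ fun _ _ hx j hj => hx j (hK hj)

section rows

variable [Nonempty φ] {t q : ℕ} {κ B X1 : ℝ} {pub : Pt (Fin 3) X β φ → Prop}

/-- the row of one vertex with a weight -/
theorem row_aw (hv : Codes D v) (hs : ∀ i, nc q {i} ≤ nc q ∅) (hκ : 0 ≤ κ) (hB : 0 ≤ B)
    (hE : ∀ u, (D.P h t).p u ≠ 0 → pub u → ∀ i E, dvC D v (nc q ∅) (nn q) u i E ≤
      κ * (muC D v (nc q ∅) (nn q) u).Pr E + B) {K : Finset (Fin 3)} {i : Fin 3} (hi : i ∉ K)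
    {aw : Pt (Fin 3) X β φ → ℝ} (a1 : ∀ u, aw u ≤ 1)
    (hA : ∀ u, (D.P h t).p u ≠ 0 → aw u ≠ 0 → pub u ∧ Real.exp (-X1) ≤ (muC D v (nc q ∅) (nn q) u).Pr (LK v q K u))
    (w : Pt (Fin 3) X β φ) :
    (D.P h t).ce (CK D v q K) (fun u => aw u *
      |rho (D.P h t) (NPq D v q) (CK D v q K) (CK D v q {i}) (CK D v q (insert i K)) u - 1|) w ≤
      κ + B * Real.exp X1 := by
  by_cases hex : ∃ u, (D.P h t).p u ≠ 0 ∧ aw u ≠ 0 ∧ CK D v q K u = CK D v q K w
  · obtain ⟨u, hu, hau, huw⟩ := hex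
    obtain ⟨hp, hL⟩ := hA u hu hau
    have h1 := row_rho (h := h) hv t q hi (hs i) (hE u hu hp i (LK v q K u))
    have h2 := (D.P h t).ce_fac (CK D v q K) (fun u => aw u *
      |rho (D.P h t) (NPq D v q) (CK D v q K) (CK D v q {i}) (CK D v q (insert i K)) u - 1|) u w huw
    rw [← h2]
    have h3 : (D.P h t).ce (CK D v q K) (fun u => aw u *
        |rho (D.P h t) (NPq D v q) (CK D v q K) (CK D v q {i}) (CK D v q (insert i K)) u - 1|) u ≤
        (D.P h t).ce (CK D v q K)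
          (fun u => |rho (D.P h t) (NPq D v q) (CK D v q K) (CK D v q {i}) (CK D v q (insert i K)) u - 1|) u := by
      refine (D.P h t).ce_mono (fun u' _ => ?_) u
      have := mul_le_mul_of_nonneg_right (a1 u') (abs_nonneg
        (rho (D.P h t) (NPq D v q) (CK D v q K) (CK D v q {i}) (CK D v q (insert i K)) u' - 1))
      rwa [one_mul] at this
    refine h3.trans (h1.trans (add_le_add le_rfl ?_))
    have h4 : (0 : ℝ) < Real.exp (-X1) := Real.exp_pos _
    rw [div_le_iff₀ (h4.trans_le hL)]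
    have h5 : Real.exp X1 * Real.exp (-X1) = 1 := by rw [← Real.exp_add]; simp
    calc B = B * (Real.exp X1 * Real.exp (-X1)) := by rw [h5, mul_one]
      _ ≤ B * (Real.exp X1 * (muC D v (nc q ∅) (nn q) u).Pr (LK v q K u)) :=
        mul_le_mul_of_nonneg_left (mul_le_mul_of_nonneg_left hL (Real.exp_pos _).le) hB
      _ = _ := by ring
  · rw [ce_aw_zero (D.P h t) hex]
    have := Real.exp_pos X1
    positivity

theorem fin3_ins : ∀ i k o : Fin 3, i ≠ k → i ≠ o → k ≠ o → insert i ({k, o} : Finset (Fin 3)) = univ := by decide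

theorem rho_fac {Om : Type*} [Fintype Om] (P : FP Om) {αc α0 α1 αz : Type*} {C : Om → αc} {Z0 : Om → α0}
    {Z1 : Om → α1} {Z : Om → αz} (h0 : Fac Z Z0) (h1 : Fac Z Z1) (hC : Fac Z C) : Fac Z (rho P C Z0 Z1 Z) := by
  intro a b hab
  unfold rho
  rw [P.Fac_m Z a b hab, P.Fac_m Z0 a b (h0 a b hab), P.Fac_m Z1 a b (h1 a b hab), P.Fac_m C a b (hC a b hab)]

/-- **rows of the pair of vertices `i`, `k` given the vertex `o`** -/
theorem row3 (hv : Codes D v) (hs : ∀ i, nc q {i} ≤ nc q ∅) (hκ : 0 ≤ κ) (hB : 0 ≤ B)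
    (hE : ∀ u, (D.P h t).p u ≠ 0 → pub u → ∀ i E, dvC D v (nc q ∅) (nn q) u i E ≤
      κ * (muC D v (nc q ∅) (nn q) u).Pr E + B) {i k o : Fin 3} (hik : i ≠ k) (hio : i ≠ o) (hko : k ≠ o)
    {aw : Pt (Fin 3) X β φ → ℝ} (a1 : ∀ u, aw u ≤ 1)
    (hA : ∀ u, (D.P h t).p u ≠ 0 → aw u ≠ 0 → pub u ∧
      Real.exp (-X1) ≤ (muC D v (nc q ∅) (nn q) u).Pr (LK v q {k, o} u))
    {w : Pt (Fin 3) X β φ} (_hw : (D.P h t).p w ≠ 0) :
    (D.P h t).ce (CK D v q {k, o}) (fun u => aw u *
      |rho (D.P h t) (CK D v q {o}) (CK D v q {i, o}) (CK D v q {k, o}) (CK D v q univ) u - 1|) w ≤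
      2 * (κ + B * Real.exp X1) := by
  classical
  have hko' : o ∈ ({k, o} : Finset (Fin 3)) := by simp
  by_cases hex : ∃ u, (D.P h t).p u ≠ 0 ∧ aw u ≠ 0 ∧ CK D v q {k, o} u = CK D v q {k, o} w
  · obtain ⟨u, hu, hau, huw⟩ := hex
    obtain ⟨hp, hL⟩ := hA u hu hau
    have hins := fin3_ins i k o hik hio hko
    have hi1 : i ∉ ({k, o} : Finset (Fin 3)) := by simp [hik, hio]
    have hi2 : i ∉ ({o} : Finset (Fin 3)) := by simp [hio]
    set P := D.P h t with hP
    set ra := rho P (NPq D v q) (CK D v q {k, o}) (CK D v q {i}) (CK D v q (insert i {k, o})) with hra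
    set rb := rho P (NPq D v q) (CK D v q {o}) (CK D v q {i}) (CK D v q (insert i {o})) with hrb
    set r := rho P (CK D v q {o}) (CK D v q {i, o}) (CK D v q {k, o}) (CK D v q univ) with hr
    have h2 := P.ce_fac (CK D v q {k, o}) (fun u => aw u * |r u - 1|) u w huw
    rw [← h2]
    have e1 : ∀ u, P.p u ≠ 0 → r u * rb u = ra u := by
      intro u hu
      rw [hr, hrb, hra, hins]
      unfold rho
      have m1 := P.m_pos (CK D v q {o}) hu
      have m2 := P.m_pos (CK D v q {i, o}) hu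
      have m3 := P.m_pos (CK D v q {k, o}) hu
      have m4 := P.m_pos (CK D v q univ) hu
      have m5 := P.m_pos (CK D v q {i}) hu
      have m6 := P.m_pos (NPq D v q) hu
      field_simp
    have h3 : ∀ u', P.p u' ≠ 0 → aw u' * |r u' - 1| ≤ |ra u' - 1| + r u' * |rb u' - 1| := by
      intro u' hu'
      have r0 : 0 ≤ r u' := rho_nonneg P u'
      have h4 : |r u' - 1| ≤ |ra u' - 1| + r u' * |rb u' - 1| := by
        have e2 : r u' - 1 = (ra u' - 1) + r u' * (1 - rb u') := by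
          rw [← e1 u' hu']; ring
        rw [e2]
        refine (abs_add_le _ _).trans (add_le_add le_rfl ?_)
        rw [abs_mul, abs_of_nonneg r0, abs_sub_comm]
      have := mul_le_mul_of_nonneg_right (a1 u') (abs_nonneg (r u' - 1))
      linarith
    refine (P.ce_mono h3 u).trans ?_
    rw [P.ce_add]
    have h6 : P.ce (CK D v q {k, o}) (fun u' => |ra u' - 1|) u ≤ κ + B * Real.exp X1 := by
      have e3 : P.ce (CK D v q {k, o}) (fun u' => |ra u' - 1|) u ≤ κ + B / (muC D v (nc q ∅) (nn q) u).Pr (LK v q {k, o} u) :=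
        row_rho (h := h) hv t q hi1 (hs i) (hE u hu hp i (LK v q {k, o} u))
      refine e3.trans (add_le_add le_rfl ?_)
      have h4 : (0 : ℝ) < Real.exp (-X1) := Real.exp_pos _
      rw [div_le_iff₀ (h4.trans_le hL)]
      have h5 : Real.exp X1 * Real.exp (-X1) = 1 := by rw [← Real.exp_add]; simp
      calc B = B * (Real.exp X1 * Real.exp (-X1)) := by rw [h5, mul_one]
        _ ≤ B * (Real.exp X1 * (muC D v (nc q ∅) (nn q) u).Pr (LK v q {k, o} u)) :=
          mul_le_mul_of_nonneg_left (mul_le_mul_of_nonneg_left hL (Real.exp_pos _).le) hB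
        _ = _ := by ring
    have h7 : P.ce (CK D v q {k, o}) (fun u' => r u' * |rb u' - 1|) u ≤ P.ce (CK D v q {o}) (fun u' => |rb u' - 1|) u := by
      refine rho_row P (C := CK D v q {o}) (Z0 := CK D v q {i, o}) (Z1 := CK D v q {k, o}) (Z := CK D v q univ)
        (CK_union ?_) (CK_sub (by simp)) (CK_sub (by simp)) ?_ (fun _ => abs_nonneg _) hu
      · intro j _
        have key : ∀ i k o j : Fin 3, i ≠ k → i ≠ o → k ≠ o → j ∈ ({i, o} : Finset (Fin 3)) ∪ {k, o} := by decide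
        exact key i k o j hik hio hko
      · have h8 : Fac (CK D v q (insert i {o})) rb := rho_fac P (CK_sub (Finset.subset_insert _ _))
          (CK_sub (by simp)) (CK_fNPq q _)
        exact h8.comp fun z => |z - 1|
    have h9 : P.ce (CK D v q {o}) (fun u' => |rb u' - 1|) u ≤ κ + B * Real.exp X1 := by
      have e3 : P.ce (CK D v q {o}) (fun u' => |rb u' - 1|) u ≤ κ + B / (muC D v (nc q ∅) (nn q) u).Pr (LK v q {o} u) :=
        row_rho (h := h) hv t q hi2 (hs i) (hE u hu hp i (LK v q {o} u))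
      refine e3.trans (add_le_add le_rfl ?_)
      have hL' : Real.exp (-X1) ≤ (muC D v (nc q ∅) (nn q) u).Pr (LK v q {o} u) :=
        hL.trans (LK_anti (by simp) u _)
      have h4 : (0 : ℝ) < Real.exp (-X1) := Real.exp_pos _
      rw [div_le_iff₀ (h4.trans_le hL')]
      have h5 : Real.exp X1 * Real.exp (-X1) = 1 := by rw [← Real.exp_add]; simp
      calc B = B * (Real.exp X1 * Real.exp (-X1)) := by rw [h5, mul_one]
        _ ≤ B * (Real.exp X1 * (muC D v (nc q ∅) (nn q) u).Pr (LK v q {o} u)) :=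
          mul_le_mul_of_nonneg_left (mul_le_mul_of_nonneg_left hL' (Real.exp_pos _).le) hB
        _ = _ := by ring
    linarith
  · rw [ce_aw_zero (D.P h t) hex]
    have := Real.exp_pos X1
    positivity


/-- typical classes -/
theorem mu_typ (hv : Codes D v) {K : Finset (Fin 3)} {a b : Pt (Fin 3) X β φ}
    (hab : CK D v q K a = CK D v q K b) : (muC D v (nc q ∅) (nn q) a).Pr (LK v q K a) =
      (muC D v (nc q ∅) (nn q) b).Pr (LK v q K b) := by
  rw [muC_cl hv (nc_le q ∅) ((CK_iff hv q K b a).1 hab).1, LK_cl hv hab]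

/-- **the law of two letters under an own letter of the third vertex** -/
theorem r1_row (hv : Codes D v) (hs : ∀ i, nc q {i} ≤ nc q ∅) (hκ : 0 ≤ κ) (hB : 0 ≤ B)
    (fpub : Fac (NPq (φ := φ) D v q) pub)
    (hE : ∀ u, (D.P h t).p u ≠ 0 → pub u → ∀ i E, dvC D v (nc q ∅) (nn q) u i E ≤
      κ * (muC D v (nc q ∅) (nn q) u).Pr E + B) {i k o : Fin 3} (hik : i ≠ k) (hio : i ≠ o) (hko : k ≠ o)
    {aw : Pt (Fin 3) X β φ → ℝ} (a0 : ∀ u, 0 ≤ aw u) (a1 : ∀ u, aw u ≤ 1)
    (hA : ∀ u, (D.P h t).p u ≠ 0 → aw u ≠ 0 → pub u ∧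
      ∀ j l, j ≠ l → Real.exp (-X1) ≤ (muC D v (nc q ∅) (nn q) u).Pr (LK v q {j, l} u))
    {w : Pt (Fin 3) X β φ} (hw : (D.P h t).p w ≠ 0) :
    (D.P h t).ce (CK D v q {o}) (fun u => aw u *
      |rho (D.P h t) (NPq D v q) (CK D v q {i, k}) (CK D v q {o}) (CK D v q univ) u - 1|) w ≤
      3 * (κ + B * Real.exp X1) := by
  classical
  have hX := Real.exp_pos X1
  have hkp : 0 ≤ κ + B * Real.exp X1 := by positivity
  by_cases hex : ∃ u, (D.P h t).p u ≠ 0 ∧ aw u ≠ 0 ∧ CK D v q {o} u = CK D v q {o} w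
  swap
  · rw [ce_aw_zero (D.P h t) hex]
    positivity
  obtain ⟨u, hu, hau, huw⟩ := hex
  obtain ⟨hp, hL⟩ := hA u hu hau
  have hins : insert k ({i, o} : Finset (Fin 3)) = univ := fin3_ins k i o hik.symm hko hio
  have hk1 : k ∉ ({i, o} : Finset (Fin 3)) := by simp [hik.symm, hko]
  have hi2 : i ∉ ({o} : Finset (Fin 3)) := by simp [hio]
  have hk3 : k ∉ ({i} : Finset (Fin 3)) := by simp [hik.symm]
  set P := D.P h t with hP
  set ra := rho P (NPq D v q) (CK D v q {i, o}) (CK D v q {k}) (CK D v q (insert k {i, o})) with hra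
  set rb := rho P (NPq D v q) (CK D v q {o}) (CK D v q {i}) (CK D v q (insert i {o})) with hrb
  set rc := rho P (NPq D v q) (CK D v q {i}) (CK D v q {k}) (CK D v q (insert k {i})) with hrc
  set r := rho P (NPq D v q) (CK D v q {i, k}) (CK D v q {o}) (CK D v q univ) with hr
  have hki : (insert k {i} : Finset (Fin 3)) = {i, k} := by
    ext j; simp only [Finset.mem_insert, Finset.mem_singleton]; tauto
  have h2 := P.ce_fac (CK D v q {o}) (fun u => aw u * |r u - 1|) u w huw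
  rw [← h2]
  have e1 : ∀ u, P.p u ≠ 0 → ra u * rb u = r u * rc u := by
    intro u hu
    rw [hr, hrb, hra, hrc, hins, hki]
    unfold rho
    have m1 := P.m_pos (CK D v q {o}) hu
    have m2 := P.m_pos (CK D v q {i, o}) hu
    have m3 := P.m_pos (CK D v q {i, k}) hu
    have m4 := P.m_pos (CK D v q univ) hu
    have m5 := P.m_pos (CK D v q {i}) hu
    have m6 := P.m_pos (NPq D v q) hu
    have m7 := P.m_pos (CK D v q {k}) hu
    have hio' : (insert i {o} : Finset (Fin 3)) = {i, o} := rfl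
    rw [hio']
    field_simp
  set T : Pt (Fin 3) X β φ → ℝ := fun u' => ind (pub u' ∧
    Real.exp (-X1) ≤ (muC D v (nc q ∅) (nn q) u').Pr (LK v q {i} u')) with hT
  have fT : Fac (CK (φ := φ) D v q {i}) T := by
    refine Fac.ind fun a b hab => ?_
    have g1 : pub a = pub b := fpub a b (CK_fNPq q _ a b hab)
    rw [g1, mu_typ hv hab]
  have hTa : ∀ u', P.p u' ≠ 0 → aw u' ≤ T u' := by
    intro u' hu'
    by_cases h0 : aw u' = 0
    · rw [h0]; exact ind_nonneg _
    · obtain ⟨g1, g2⟩ := hA u' hu' h0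
      have g3 : T u' = 1 := ind_of ⟨g1, (g2 i k hik).trans (LK_anti (by simp) u' _)⟩
      rw [g3]; exact a1 u'
  have h3 : ∀ u', P.p u' ≠ 0 → aw u' * |r u' - 1| ≤
      (aw u' * |ra u' - 1| + ra u' * |rb u' - 1|) + r u' * (T u' * |rc u' - 1|) := by
    intro u' hu'
    have r0 : 0 ≤ r u' := rho_nonneg P u'
    have ra0 : 0 ≤ ra u' := rho_nonneg P u'
    have h4 : |r u' - 1| ≤ (|ra u' - 1| + ra u' * |rb u' - 1|) + r u' * |rc u' - 1| := by
      have e2 : r u' - 1 = ((ra u' - 1) + ra u' * (rb u' - 1)) + r u' * (1 - rc u') := by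
        have := e1 u' hu'
        linear_combination -this
      rw [e2]
      refine (abs_add_le _ _).trans (add_le_add ((abs_add_le _ _).trans (add_le_add le_rfl ?_)) ?_)
      · rw [abs_mul, abs_of_nonneg ra0]
      · rw [abs_mul, abs_of_nonneg r0, abs_sub_comm]
    have h5 := mul_le_mul_of_nonneg_left h4 (a0 u')
    have h6 : aw u' * (ra u' * |rb u' - 1|) ≤ ra u' * |rb u' - 1| :=
      mul_le_of_le_one_left (mul_nonneg ra0 (abs_nonneg _)) (a1 u')
    have h7 : aw u' * (r u' * |rc u' - 1|) ≤ r u' * (T u' * |rc u' - 1|) := by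
      have := mul_le_mul_of_nonneg_right (hTa u' hu') (mul_nonneg r0 (abs_nonneg (rc u' - 1)))
      linarith
    linarith
  refine (P.ce_mono h3 u).trans ?_
  rw [P.ce_add, P.ce_add]
  have t1 : P.ce (CK D v q {o}) (fun u' => aw u' * |ra u' - 1|) u ≤ κ + B * Real.exp X1 := by
    rw [← P.ce_tower (CK_sub (K := {o}) (K' := {i, o}) (by simp)) (fun u' => aw u' * |ra u' - 1|) u]
    refine P.ce_le_const (fun u' _ => ?_) hu
    exact row_aw (h := h) hv hs hκ hB hE hk1 a1 (fun x hx hax => ⟨(hA x hx hax).1, (hA x hx hax).2 i o hio⟩) u'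
  have t2 : P.ce (CK D v q {o}) (fun u' => ra u' * |rb u' - 1|) u ≤ κ + B * Real.exp X1 := by
    have frb : Fac (CK (φ := φ) D v q {i, o}) (fun u' => |rb u' - 1|) := by
      have h8 : Fac (CK D v q (insert i {o})) rb := rho_fac P (CK_sub (Finset.subset_insert _ _))
        (CK_sub (by simp)) (CK_fNPq q _)
      exact h8.comp fun z => |z - 1|
    have g1 : ∀ u', P.p u' ≠ 0 → P.ce (CK D v q {i, o}) (fun x => ra x * |rb x - 1|) u' ≤ |rb u' - 1| := by
      intro u' hu'
      rw [P.ce_mul' frb ra u']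
      have g2 : P.ce (CK D v q {i, o}) (fun x => ra x * (1 : ℝ)) u' ≤ P.ce (NPq D v q) (fun _ => 1) u' := by
        refine rho_row' P (C := NPq D v q) (Z0 := CK D v q {i, o}) (Z1 := CK D v q {k})
          (Z := CK D v q (insert k {i, o})) (CK_union ?_) (CK_fNPq q _) (CK_fNPq q _) (Fac.const _ _)
          (fun _ => zero_le_one) hu'
        rw [hins]
        intro j _
        have key : ∀ i k o j : Fin 3, i ≠ k → i ≠ o → k ≠ o → j ∈ ({i, o} : Finset (Fin 3)) ∪ {k} := by decide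
        exact key i k o j hik hio hko
      rw [P.ce_const _ _ hu'] at g2
      simp only [mul_one] at g2
      exact mul_le_of_le_one_left (abs_nonneg _) g2
    rw [← P.ce_tower (CK_sub (K := {o}) (K' := {i, o}) (by simp)) (fun u' => ra u' * |rb u' - 1|) u]
    refine (P.ce_mono g1 u).trans ?_
    have e3 : P.ce (CK D v q {o}) (fun u' => |rb u' - 1|) u ≤ κ + B / (muC D v (nc q ∅) (nn q) u).Pr (LK v q {o} u) :=
      row_rho (h := h) hv t q hi2 (hs i) (hE u hu hp i (LK v q {o} u))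
    refine e3.trans (add_le_add le_rfl ?_)
    have hL' : Real.exp (-X1) ≤ (muC D v (nc q ∅) (nn q) u).Pr (LK v q {o} u) :=
      (hL i o hio).trans (LK_anti (by simp) u _)
    have h4 : (0 : ℝ) < Real.exp (-X1) := Real.exp_pos _
    rw [div_le_iff₀ (h4.trans_le hL')]
    have h5 : Real.exp X1 * Real.exp (-X1) = 1 := by rw [← Real.exp_add]; simp
    calc B = B * (Real.exp X1 * Real.exp (-X1)) := by rw [h5, mul_one]
      _ ≤ B * (Real.exp X1 * (muC D v (nc q ∅) (nn q) u).Pr (LK v q {o} u)) :=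
        mul_le_mul_of_nonneg_left (mul_le_mul_of_nonneg_left hL' (Real.exp_pos _).le) hB
      _ = _ := by ring
  have t3 : P.ce (CK D v q {o}) (fun u' => r u' * (T u' * |rc u' - 1|)) u ≤ κ + B * Real.exp X1 := by
    have frc : Fac (CK (φ := φ) D v q {i, k}) (fun u' => T u' * |rc u' - 1|) := by
      have h8 : Fac (CK D v q (insert k {i})) rc := rho_fac P (CK_sub (Finset.subset_insert _ _))
        (CK_sub (by simp)) (CK_fNPq q _)
      rw [hki] at h8
      exact Fac.mul ((CK_sub (by simp)).trans fT) (h8.comp fun z => |z - 1|)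
    have g1 : P.ce (CK D v q {o}) (fun u' => r u' * (T u' * |rc u' - 1|)) u ≤
        P.ce (NPq D v q) (fun u' => T u' * |rc u' - 1|) u := by
      refine rho_row P (C := NPq D v q) (Z0 := CK D v q {i, k}) (Z1 := CK D v q {o})
          (Z := CK D v q univ) (CK_union ?_) (CK_fNPq q _) (CK_fNPq q _) frc
          (fun _ => mul_nonneg (ind_nonneg _) (abs_nonneg _)) hu
      intro j _
      have key : ∀ i k o j : Fin 3, i ≠ k → i ≠ o → k ≠ o → j ∈ ({i, k} : Finset (Fin 3)) ∪ {o} := by decide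
      exact key i k o j hik hio hko
    refine g1.trans ?_
    rw [← P.ce_tower (CK_fNPq q {i}) (fun u' => T u' * |rc u' - 1|) u]
    refine P.ce_le_const (fun u' _ => ?_) hu
    refine row_aw (h := h) hv hs hκ hB hE hk3 (aw := T) (fun _ => ind_le_one _) (fun x _ hax => ?_) u'
    by_contra hcon
    exact hax (ind_not hcon)
  linarith

/-- **two letters under an own letter** : test functions -/
theorem own_test (hv : Codes D v) (hs : ∀ i, nc q {i} ≤ nc q ∅) (hκ : 0 ≤ κ) (hB : 0 ≤ B)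
    (fpub : Fac (NPq (φ := φ) D v q) pub)
    (hE : ∀ u, (D.P h t).p u ≠ 0 → pub u → ∀ i E, dvC D v (nc q ∅) (nn q) u i E ≤
      κ * (muC D v (nc q ∅) (nn q) u).Pr E + B) {i k o : Fin 3} (hik : i ≠ k) (hio : i ≠ o) (hko : k ≠ o)
    {aw : Pt (Fin 3) X β φ → ℝ} (a0 : ∀ u, 0 ≤ aw u) (a1 : ∀ u, aw u ≤ 1)
    (hA : ∀ u, (D.P h t).p u ≠ 0 → aw u ≠ 0 → pub u ∧
      ∀ j l, j ≠ l → Real.exp (-X1) ≤ (muC D v (nc q ∅) (nn q) u).Pr (LK v q {j, l} u))
    {g : Pt (Fin 3) X β φ → ℝ} (fg : Fac (CK (φ := φ) D v q {i, k}) g) (g0 : ∀ u, 0 ≤ g u) {G : ℝ} (hG : ∀ u, g u ≤ G)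
    {w : Pt (Fin 3) X β φ} (hw : (D.P h t).p w ≠ 0) :
    (D.P h t).ce (CK D v q {o}) (fun u => aw u * g u) w ≤
      (D.P h t).ce (NPq D v q) g w + G * (3 * (κ + B * Real.exp X1)) := by
  set P := D.P h t with hP
  set r := rho P (NPq D v q) (CK D v q {i, k}) (CK D v q {o}) (CK D v q univ) with hr
  have h1 : ∀ u, aw u * g u ≤ r u * g u + G * (aw u * |r u - 1|) := by
    intro u
    have r0 : 0 ≤ r u := rho_nonneg P u
    have h2 : aw u * g u = (aw u * r u) * g u + (aw u * (1 - r u)) * g u := by ring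
    have h3 : (aw u * r u) * g u ≤ r u * g u :=
      mul_le_mul_of_nonneg_right (mul_le_of_le_one_left r0 (a1 u)) (g0 u)
    have h4 : (aw u * (1 - r u)) * g u ≤ (aw u * |r u - 1|) * G := by
      have h5 : aw u * (1 - r u) ≤ aw u * |r u - 1| := by
        rw [abs_sub_comm]
        exact mul_le_mul_of_nonneg_left (le_abs_self _) (a0 u)
      exact (mul_le_mul_of_nonneg_right h5 (g0 u)).trans
        (mul_le_mul_of_nonneg_left (hG u) (mul_nonneg (a0 u) (abs_nonneg _)))
    linarith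
  refine (P.ce_mono (fun u _ => h1 u) w).trans ?_
  rw [P.ce_add, P.ce_smul]
  have hG0 : 0 ≤ G := (g0 w).trans (hG w)
  refine add_le_add ?_ (mul_le_mul_of_nonneg_left (r1_row hv hs hκ hB fpub hE hik hio hko a0 a1 hA hw) hG0)
  refine rho_row P (C := NPq D v q) (Z0 := CK D v q {i, k}) (Z1 := CK D v q {o})
      (Z := CK D v q univ) (CK_union ?_) (CK_fNPq q _) (CK_fNPq q _) fg g0 hw
  intro j _
  have key : ∀ i k o j : Fin 3, i ≠ k → i ≠ o → k ≠ o → j ∈ ({i, k} : Finset (Fin 3)) ∪ {o} := by decide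
  exact key i k o j hik hio hko

end rows

end ck

end

end Pool.Agent.GMH.TP
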