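import Pool.Agent.GMH.TopTripB
import Pool.Agent.GMH.BitDev

/-!
# GMH/TopTripC: the top against the pair of the others, given an own letter of the third vertex (helper91)
-/

set_option autoImplicit false
set_option linter.unusedSectionVars false

namespace Pool.Agent.GMH.TP

open Finset Pool.Agent.PWZ Pool.Agent.M3 Pool.Agent.GM Pool.Agent.GM.Harm Pool.Agent.GMH Pool.Agent.GMH.NZ
open Pool.Agent.GMH.V3

noncomputable section

/-! ### test functions -/

section gen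

variable {Om : Type*} [Fintype Om] {κ κ' ι ι' ζ ζ' : Type*}

theorem ce_comp_vals (P : FP Om) (Z : Om → ζ) (X : Om → κ) (f : κ → ℝ) (w : Om) :
    P.ce Z (fun u => f (X u)) w = ∑ x ∈ vals X, f x * P.pv Z X w x := by
  classical
  have h1 : ∀ u, f (X u) = ∑ x ∈ vals X, f x * ind (X u = x) := by
    intro u
    rw [Finset.sum_eq_single (X u)]
    · rw [ind_of rfl, mul_one]
    · intro x _ hx; rw [ind_not (Ne.symm hx), mul_zero]
    · intro hn; exact absurd (FP.mem_vals X u) hn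
  simp only [h1]
  rw [P.ce_sum]
  refine Finset.sum_congr rfl fun x _ => ?_
  rw [P.ce_smul]
  rfl

theorem pv_sum_le (P : FP Om) (Z : Om → ζ) (X : Om → κ) (w : Om) : ∑ x ∈ vals X, P.pv Z X w x ≤ 1 := by
  have h1 := ce_comp_vals P Z X (fun _ => 1) w
  simp only [one_mul] at h1
  rw [← h1]
  unfold FP.ce
  have h2 : P.E (fun v => ind (Z v = Z w) * (1 : ℝ)) = P.m Z w := by
    simp only [mul_one]; rfl
  rw [h2]
  exact div_self_le_one _

/-- test functions against the total variation -/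
theorem tvp_test (Q P : FP Om) (X : Om → κ) (Y : Om → ι) (Z : Om → ζ) (w : Om) {f : κ → ℝ} (hf : ∀ x, |f x| ≤ 1) :
    Q.ce Y (fun u => f (X u)) w - P.ce Z (fun u => f (X u)) w ≤ tvp Q P X Y Z w := by
  rw [ce_comp_vals, ce_comp_vals, ← Finset.sum_sub_distrib]
  unfold tvp
  refine Finset.sum_le_sum fun x _ => ?_
  rw [← mul_sub]
  refine (le_abs_self _).trans ?_
  rw [abs_mul]
  exact mul_le_of_le_one_left (abs_nonneg _) (hf x)

theorem tvp_of_test (Q P : FP Om) (X : Om → κ) (Y : Om → ι) (Z : Om → ζ) (w : Om) {b : ℝ}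
    (h : ∀ f : κ → ℝ, (∀ x, |f x| ≤ 1) → Q.ce Y (fun u => f (X u)) w - P.ce Z (fun u => f (X u)) w ≤ b) :
    tvp Q P X Y Z w ≤ b := by
  classical
  set f : κ → ℝ := fun x => if 0 ≤ Q.pv Y X w x - P.pv Z X w x then 1 else -1 with hfd
  have hf : ∀ x, |f x| ≤ 1 := by
    intro x
    rw [hfd]
    show |if _ then (1 : ℝ) else -1| ≤ 1
    split_ifs <;> simp
  refine le_trans (le_of_eq ?_) (h f hf)
  rw [ce_comp_vals, ce_comp_vals, ← Finset.sum_sub_distrib]
  unfold tvp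
  refine Finset.sum_congr rfl fun x _ => ?_
  rw [← mul_sub, hfd]
  show _ = (if _ then (1 : ℝ) else -1) * _
  split_ifs with h0
  · rw [abs_of_nonneg h0, one_mul]
  · rw [abs_of_neg (not_le.1 h0), neg_one_mul]

/-- functions of a letter as functions of an equivalent letter -/
theorem relab {T : Om → Prop} {X : Om → κ} {X' : Om → κ'}
    (hx : ∀ a b, T a → T b → X' a = X' b → X a = X b) {f : κ → ℝ} (hf : ∀ x, |f x| ≤ 1) :
    ∃ f' : κ' → ℝ, (∀ x, |f' x| ≤ 1) ∧ ∀ a, T a → f (X a) = f' (X' a) := by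
  classical
  refine ⟨fun x' => if hh : ∃ a, T a ∧ X' a = x' then f (X hh.choose) else 0, fun x' => ?_, fun a ha => ?_⟩
  · show |dite _ _ _| ≤ 1
    split_ifs with hh
    · exact hf _
    · simp
  · have hh : ∃ a', T a' ∧ X' a' = X' a := ⟨a, ha, rfl⟩
    show f (X a) = dite _ _ _
    rw [dif_pos hh]
    exact congrArg f (hx a hh.choose ha hh.choose_spec.1 hh.choose_spec.2.symm)

/-- conditional means under a conditional law -/
theorem cond_ce {P : FP Om} {V : Om → Prop} (hV : P.Pr V ≠ 0) (Z : Om → ζ) (f : Om → ℝ) (w : Om) :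
    (P.cond V).ce Z f w = P.E (fun u => ind (V u) * (ind (Z u = Z w) * f u)) /
      P.E (fun u => ind (V u) * ind (Z u = Z w)) := by
  unfold FP.ce FP.m
  rw [FP.cond_E hV, FP.cond_E hV, div_div_div_cancel_right₀ hV]

end gen

section face

variable {X β γ φ : Type} [Fintype X] [Fintype β] [Fintype φ] [Nonempty X] [Nonempty β]
variable {D : HD (Fin 3) X β γ φ} {al : ℝ} {h : D.Thick al} {v : ℕ → Finset (Fin 3) → X → (Fin 3 → β) → Pt (Fin 3) X β φ}

/-- exact points of `K` in a public cell -/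
theorem cell_K (hv : Codes D v) (t : ℕ) {s n : ℕ} (hs : s ≤ n + 1) (c : Pt (Fin 3) X β φ) (K : Finset (Fin 3)) (G : X → ℝ) :
    (D.P h t).E (fun u => ind (NP D v s n u = NP D v s n c) * (G u.1 * ∏ j ∈ K, ind (u.2.1 j = c.2.1 j))) =
      ((FP.unif X).Pr (cX D v s n c) * ∏ j, (FP.unif β).Pr (cY D n c j)) *
        ((muC D v s n c).E G * ∏ j ∈ K, mC D n c j (c.2.1 j)) := by
  classical
  have h1 := cell_E (h := h) hv t hs c G (fun j b' => if j ∈ K then ind (b' = c.2.1 j) else 1)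
  have h2 : ∏ j, (nuC D n c j).E (fun b' => if j ∈ K then ind (b' = c.2.1 j) else 1) =
      ∏ j ∈ K, mC D n c j (c.2.1 j) := by
    have h3 : ∀ j, (nuC D n c j).E (fun b' => if j ∈ K then ind (b' = c.2.1 j) else 1) =
        if j ∈ K then mC D n c j (c.2.1 j) else 1 := by
      intro j
      by_cases hjK : j ∈ K
      · simp only [if_pos hjK]; rfl
      · simp only [if_neg hjK]; exact FP.E_const _ 1
    rw [Finset.prod_congr rfl fun j _ => h3 j, Finset.prod_ite, Finset.prod_const_one, mul_one]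
    exact Finset.prod_congr (by ext j; simp) fun _ _ => rfl
  rw [h2] at h1
  rw [← h1]
  refine FP.E_congr _ fun u _ => ?_
  have e3 : ∏ j, (if j ∈ K then ind (u.2.1 j = c.2.1 j) else 1) = ∏ j ∈ K, ind (u.2.1 j = c.2.1 j) := by
    rw [Finset.prod_ite, Finset.prod_const_one, mul_one]
    exact Finset.prod_congr (by ext j; simp) fun _ _ => rfl
  rw [e3]

theorem xc_NP (t : ℕ) (K : Finset (Fin 3)) (c w : Pt (Fin 3) X β φ) : xc D (Um v (t + 1)) t K c w ↔
    NP D v (t + 1) t w = NP D v (t + 1) t c ∧ ∀ j ∈ K, w.2.1 j = c.2.1 j := by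
  unfold xc NP nd
  rw [le_eq, BB_eq, Prod.mk.injEq, Prod.mk.injEq, funext_iff]
  constructor
  · rintro ⟨h1, h2, h3, h4⟩
    exact ⟨⟨(LL_eq.1 (h1 ∅ (Finset.Subset.refl _))).1, h3, h4⟩, h2⟩
  · rintro ⟨⟨h1, h3, h4⟩, h2⟩
    refine ⟨fun I hI => ?_, h2, h3, h4⟩
    rw [Finset.subset_empty.1 hI, LL_eq]
    exact ⟨h1, fun l hl => absurd hl (no_top l ∅ (by simp))⟩

/-- cells get finer -/
theorem NP_mono {s n s' n' : ℕ} (hs : s' ≤ s) (hn : n' ≤ n) : Fac (NP (φ := φ) D v s n) (NP D v s' n') := by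
  intro a b hab
  unfold NP at hab ⊢
  rw [Prod.mk.injEq] at hab ⊢
  refine ⟨?_, nd_mono' hn a b hab.2⟩
  rw [← take_Um hs, ← take_Um hs, hab.1]

theorem cX_mn (hv : Codes D v) {s n s' n' : ℕ} (hs : s' ≤ s) (hn : n' ≤ n) (h1 : s ≤ n + 1) (h2 : s' ≤ n' + 1)
    {c : Pt (Fin 3) X β φ} {x : X} (hx : cX D v s n c x) : cX D v s' n' c x := by
  have e1 : NP D v s n (x, c.2.1, c.2.2) = NP D v s n c := (NP_iff hv h1 c _).2 ⟨hx, fun _ => rfl⟩
  exact ((NP_iff hv h2 c _).1 (NP_mono (D := D) (v := v) hs hn _ _ e1)).1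

theorem cY_mn {n n' : ℕ} (hn : n' ≤ n) {c : Pt (Fin 3) X β φ} {j : Fin 3} {b : β} (hb : cY D n c j b) :
    cY D n' c j b := by
  induction hn with
  | refl => exact hb
  | step _ ih => exact ih (D.rb _ _ _ hb)

variable (D v) in
/-- the hardwired event of the state `q` -/
def VK (t q : ℕ) (K : Finset (Fin 3)) (c w : Pt (Fin 3) X β φ) : Prop :=
  xc D (Um v (t + 1)) t K c w ∧ cX D v (nc q ∅) (nn q) c w.1 ∧ LK v q K c w.1

/-- the numbers of the state `q` -/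
structure St (t q : ℕ) : Prop where
  n0 : t + 1 ≤ nc q ∅
  n1 : ∀ i : Fin 3, nc q {i} = t + 1
  m0 : t ≤ nn q
  m1 : nn q ≤ t + 1

variable {t q : ℕ}

theorem CK_VK (hv : Codes D v) (S : St t q) {K : Finset (Fin 3)} {c w : Pt (Fin 3) X β φ}
    (hw : CK D v q K w = CK D v q K c) : VK D v t q K c w := by
  obtain ⟨h1, h2, h3⟩ := (CK_iff hv q K c w).1 hw
  exact ⟨(xc_NP t K c w).2 ⟨NP_mono (D := D) (v := v) S.n0 S.m0 _ _ h1, h2⟩, ((NP_iff hv (nc_le q ∅) c w).1 h1).1, h3⟩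

theorem VK_self (c : Pt (Fin 3) X β φ) (K : Finset (Fin 3)) : VK D v t q K c c :=
  ⟨xc_self _ _ _ _, cX_self _ _ c, fun _ _ => rfl⟩

/-- the mass of the hardwired event -/
theorem VK_Pr (hv : Codes D v) (c : Pt (Fin 3) X β φ) (K : Finset (Fin 3)) :
    (D.P h t).Pr (VK D v t q K c) = ((FP.unif X).Pr (cX D v (t + 1) t c) * ∏ j, (FP.unif β).Pr (cY D t c j)) *
      ((muC D v (t + 1) t c).Pr (fun x => cX D v (nc q ∅) (nn q) c x ∧ LK v q K c x) *
        ∏ j ∈ K, mC D t c j (c.2.1 j)) := by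
  have h1 := cell_K (h := h) hv t (le_refl (t + 1)) c K (fun x => ind (cX D v (nc q ∅) (nn q) c x ∧ LK v q K c x))
  unfold FP.Pr at *
  rw [← h1]
  refine FP.E_congr _ fun u _ => ?_
  rw [ind_pts]
  unfold VK
  rw [ind_cg (show (xc D (Um v (t + 1)) t K c u ∧ cX D v (nc q ∅) (nn q) c u.1 ∧ LK v q K c u.1) ↔
    (NP D v (t + 1) t u = NP D v (t + 1) t c ∧ (cX D v (nc q ∅) (nn q) c u.1 ∧ LK v q K c u.1) ∧
      ∀ j ∈ K, u.2.1 j = c.2.1 j) by rw [xc_NP]; tauto), ind_and, ind_and]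

theorem xc_Pr (hv : Codes D v) (c : Pt (Fin 3) X β φ) (K : Finset (Fin 3)) :
    (D.P h t).Pr (xc D (Um v (t + 1)) t K c) = ((FP.unif X).Pr (cX D v (t + 1) t c) *
      ∏ j, (FP.unif β).Pr (cY D t c j)) * ∏ j ∈ K, mC D t c j (c.2.1 j) := by
  have h1 := cell_K (h := h) hv t (le_refl (t + 1)) c K (fun _ => 1)
  rw [FP.E_const, one_mul] at h1
  unfold FP.Pr at *
  rw [← h1]
  refine FP.E_congr _ fun u _ => ?_
  rw [ind_pts, ind_cg (xc_NP t K c u), ind_and, one_mul]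

theorem mu_mul (s n : ℕ) (c : Pt (Fin 3) X β φ) (E : X → Prop) :
    (FP.unif X).Pr (cX D v s n c) * (muC D v s n c).Pr E = (FP.unif X).Pr (fun x => cX D v s n c x ∧ E x) := by
  unfold muC
  show _ * ((FP.unif X).cond (cX D v s n c)).E (fun x => ind (E x)) = _
  rw [FP.Pr_mul_cond_E (unif_ne (cX_self _ _ c))]
  exact FP.E_congr _ fun x _ => (ind_and _ _).symm

theorem nu_mul (n : ℕ) (c : Pt (Fin 3) X β φ) (j : Fin 3) :
    (FP.unif β).Pr (cY D n c j) * mC D n c j (c.2.1 j) = (FP.unif β).Pr (fun b => b = c.2.1 j) := by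
  unfold mC nuC
  rw [FP.Pr_mul_cond_E (unif_ne (cY_self _ c j))]
  refine FP.E_congr _ fun b _ => ?_
  by_cases hb : b = c.2.1 j
  · rw [hb, ind_of rfl, ind_of (cY_self n c j), mul_one]
  · rw [ind_not hb, mul_zero]

/-- **the class of the state has at least an eighth of the hardwired event** -/
theorem VK_le {dg : ℕ → X → ℝ} {prr : ℕ → Fin 3 → φ → φ} {T : ℕ} {Lam : ℝ} (H : D.Hyp dg prr al T Lam) (ht : t < T)
    (hv : Codes D v) (S : St t q) (c : Pt (Fin 3) X β φ) (K : Finset (Fin 3)) :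
    (D.P h t).Pr (VK D v t q K c) ≤ 8 * (D.P h t).m (CK D v q K) c := by
  classical
  rw [VK_Pr hv, clsK_m hv]
  unfold MK
  have e1 : (FP.unif X).Pr (cX D v (t + 1) t c) *
      (muC D v (t + 1) t c).Pr (fun x => cX D v (nc q ∅) (nn q) c x ∧ LK v q K c x) =
      (FP.unif X).Pr (cX D v (nc q ∅) (nn q) c) * (muC D v (nc q ∅) (nn q) c).Pr (LK v q K c) := by
    rw [mu_mul, mu_mul]
    refine FP.Pr_congr _ fun x _ => ⟨fun hh => hh.2, fun hh => ⟨cX_mn hv S.n0 S.m0 (nc_le q ∅) le_rfl hh.1, hh⟩⟩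
  have e2 : ∀ (n : ℕ), (∏ j, (FP.unif β).Pr (cY D n c j)) * ∏ j ∈ K, mC D n c j (c.2.1 j) =
      ∏ j, if j ∈ K then (FP.unif β).Pr (fun b => b = c.2.1 j) else (FP.unif β).Pr (cY D n c j) := by
    intro n
    have e3 : ∏ j ∈ K, mC D n c j (c.2.1 j) = ∏ j, if j ∈ K then mC D n c j (c.2.1 j) else 1 := by
      rw [Finset.prod_ite, Finset.prod_const_one, mul_one]
      exact Finset.prod_congr (by ext j; simp) fun _ _ => rfl
    rw [e3, ← Finset.prod_mul_distrib]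
    refine Finset.prod_congr rfl fun j _ => ?_
    by_cases hj : j ∈ K
    · rw [if_pos hj, if_pos hj, nu_mul]
    · rw [if_neg hj, if_neg hj, mul_one]
  have e4 : (∏ j, (FP.unif β).Pr (cY D t c j)) * ∏ j ∈ K, mC D t c j (c.2.1 j) ≤
      8 * ((∏ j, (FP.unif β).Pr (cY D (nn q) c j)) * ∏ j ∈ K, mC D (nn q) c j (c.2.1 j)) := by
    rw [e2, e2]
    have e5 : (8 : ℝ) = ∏ _j : Fin 3, (2 : ℝ) := by
      rw [Finset.prod_const, Finset.card_univ, Fintype.card_fin]; norm_num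
    rw [e5, ← Finset.prod_mul_distrib]
    refine Finset.prod_le_prod (fun j _ => ?_) fun j _ => ?_
    · split_ifs
      · exact FP.Pr_nonneg _ _
      · exact FP.Pr_nonneg _ _
    · by_cases hj : j ∈ K
      · rw [if_pos hj, if_pos hj]
        have := FP.Pr_nonneg (FP.unif β) (fun b => b = c.2.1 j)
        linarith
      · rw [if_neg hj, if_neg hj]
        rcases Nat.lt_or_ge (nn q) (t + 1) with hn | hn
        · have : nn q = t := le_antisymm (by omega) S.m0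
          rw [this]
          have := FP.Pr_nonneg (FP.unif β) (cY D t c j)
          linarith
        · have : nn q = t + 1 := le_antisymm S.m1 hn
          rw [this]
          exact cY_half H ht c j
  have h0 : 0 ≤ (FP.unif X).Pr (cX D v (nc q ∅) (nn q) c) * (muC D v (nc q ∅) (nn q) c).Pr (LK v q K c) :=
    mul_nonneg (FP.Pr_nonneg _ _) (FP.Pr_nonneg _ _)
  have h5 := mul_le_mul_of_nonneg_left e4 h0
  refine (le_of_eq ?_).trans (h5.trans (le_of_eq (by ring)))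
  rw [← e1]
  ring

/-- **the surprise of the hardwired event** -/
theorem VK_ge (hv : Codes D v) (S : St t q) (c : Pt (Fin 3) X β φ) (K : Finset (Fin 3)) {del p0 : ℝ} (hdel : 0 ≤ del)
    (hdig : del * (D.P h t).m (NP D v (t + 1) t) c ≤ (D.P h t).m (NP D v (nc q ∅) (nn q)) c)
    (hp : p0 ≤ (muC D v (nc q ∅) (nn q) c).Pr (LK v q K c)) :
    del * p0 * (D.P h t).Pr (xc D (Um v (t + 1)) t K c) ≤ (D.P h t).Pr (VK D v t q K c) := by
  rw [VK_Pr hv, xc_Pr hv]
  have e1 : (D.P h t).m (NP D v (t + 1) t) c = (FP.unif X).Pr (cX D v (t + 1) t c) *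
      ∏ j, (FP.unif β).Pr (cY D t c j) := cell_Pr hv t le_rfl c
  have e2 : (D.P h t).m (NP D v (nc q ∅) (nn q)) c = (FP.unif X).Pr (cX D v (nc q ∅) (nn q) c) *
      ∏ j, (FP.unif β).Pr (cY D (nn q) c j) := cell_Pr hv t (nc_le q ∅) c
  rw [e1, e2] at hdig
  have hA : 0 < (FP.unif X).Pr (cX D v (t + 1) t c) :=
    lt_of_le_of_ne (FP.Pr_nonneg _ _) (Ne.symm (unif_ne (cX_self (t + 1) t c)))
  have hYp : 0 < ∏ j, (FP.unif β).Pr (cY D t c j) :=
    Finset.prod_pos fun j _ => lt_of_le_of_ne (FP.Pr_nonneg _ _) (Ne.symm (unif_ne (cY_self t c j)))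
  have h1 : ∏ j, (FP.unif β).Pr (cY D (nn q) c j) ≤ ∏ j, (FP.unif β).Pr (cY D t c j) :=
    Finset.prod_le_prod (fun j _ => FP.Pr_nonneg _ _) fun j _ => FP.Pr_mono _ fun b _ => cY_mn S.m0
  have h3 : (FP.unif X).Pr (cX D v (t + 1) t c) *
      (muC D v (t + 1) t c).Pr (fun x => cX D v (nc q ∅) (nn q) c x ∧ LK v q K c x) =
      (FP.unif X).Pr (cX D v (nc q ∅) (nn q) c) * (muC D v (nc q ∅) (nn q) c).Pr (LK v q K c) := by
    rw [mu_mul, mu_mul]
    refine FP.Pr_congr _ fun x _ => ⟨fun hh => hh.2, fun hh => ⟨cX_mn hv S.n0 S.m0 (nc_le q ∅) le_rfl hh.1, hh⟩⟩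
  have h4 : del * (FP.unif X).Pr (cX D v (t + 1) t c) ≤ (FP.unif X).Pr (cX D v (nc q ∅) (nn q) c) := by
    have h5 := mul_le_mul_of_nonneg_left h1 (FP.Pr_nonneg (FP.unif X) (cX D v (nc q ∅) (nn q) c))
    refine le_of_mul_le_mul_right ?_ hYp
    linarith
  have h6 : del * (FP.unif X).Pr (cX D v (t + 1) t c) * p0 ≤
      (FP.unif X).Pr (cX D v (nc q ∅) (nn q) c) * (muC D v (nc q ∅) (nn q) c).Pr (LK v q K c) := by
    rcases le_or_gt 0 p0 with hp0 | hp0
    · exact mul_le_mul h4 hp hp0 (FP.Pr_nonneg _ _)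
    · refine le_trans ?_ (mul_nonneg (FP.Pr_nonneg _ _) (FP.Pr_nonneg _ _))
      exact mul_nonpos_of_nonneg_of_nonpos (mul_nonneg hdel hA.le) hp0.le
  have hPi : 0 ≤ (∏ j, (FP.unif β).Pr (cY D t c j)) * ∏ j ∈ K, mC D t c j (c.2.1 j) :=
    mul_nonneg hYp.le (Finset.prod_nonneg fun j _ => mC_nonneg _ _ _ _)
  have h7 := mul_le_mul_of_nonneg_right h6 hPi
  rw [← h3] at h7
  refine (le_of_eq ?_).trans (h7.trans (le_of_eq ?_)) <;> ring


/-! ### the state of the time `t` -/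

theorem nc_0t (t : ℕ) {J : Finset (Fin 3)} (hJ : pth J) : nc (5 * t) J = t + 1 := by
  have h1 := nc_add t 0 hJ (by omega)
  rw [add_zero] at h1
  rw [h1]
  unfold ncj
  rw [if_neg (Nat.not_lt_zero _), add_zero]

theorem St_0 (t : ℕ) : St t (5 * t) where
  n0 := (nc_0t t pth_emp).ge
  n1 := fun i => nc_0t t (pth_sing i)
  m0 := (nn_0 t).ge
  m1 := by rw [nn_0]; omega

theorem St_j {t j : ℕ} (hj : j ≤ 4) : St t (5 * t + j) where
  n0 := by
    have h1 := nc_add t j pth_emp (by omega)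
    rw [h1]
    unfold ncj
    omega
  n1 := fun i => by
    rw [nc_add t j (pth_sing i) (by omega)]
    have k1 : ∀ j < 5, ∀ i : Fin 3, ¬ rk {i} < j := by decide
    unfold ncj
    rw [if_neg (k1 j (by omega) i), add_zero]
  m0 := by
    rw [nn_add t j (by omega)]
    unfold nnj
    split_ifs <;> omega
  m1 := by
    rw [nn_add t j (by omega)]
    unfold nnj
    split_ifs <;> omega

theorem CK_eq {q : ℕ} {K : Finset (Fin 3)} {a b : Pt (Fin 3) X β φ} : CK D v q K a = CK D v q K b ↔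
    NPq D v q a = NPq D v q b ∧ ∀ j ∈ K, XLq v q j a = XLq v q j b := by
  unfold CK
  rw [Prod.mk.injEq]
  refine and_congr_right fun _ => ⟨fun hh j hj => ?_, fun hh => funext fun j => ?_⟩
  · have := congrFun hh j
    simp only [if_pos hj, Option.some.injEq] at this
    exact this
  · by_cases hj : j ∈ K
    · simp only [if_pos hj, Option.some.injEq]; exact hh j hj
    · simp only [if_neg hj]

theorem XLq_St (S : St t q) (j : Fin 3) : XLq (φ := φ) v q j = XL v (t + 1) j := by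
  unfold XLq
  rw [S.n1 j]

theorem NPq_0 (t : ℕ) : NPq (φ := φ) D v (5 * t) = NP D v (t + 1) t := by
  funext w
  unfold NPq
  rw [nc_0t t pth_emp, nn_0]

theorem cX_cl (hv : Codes D v) {s n : ℕ} (hs : s ≤ n + 1) {c u : Pt (Fin 3) X β φ}
    (hu : NP D v s n u = NP D v s n c) (x : X) : cX D v s n u x ↔ cX D v s n c x := by
  have h2 : D.qa n u.1 = D.qa n c.1 := by
    unfold NP nd at hu
    rw [Prod.mk.injEq, Prod.mk.injEq] at hu
    exact hu.2.1
  have h3 : ∀ j, D.qb n (u.2.1 j) = D.qb n (c.2.1 j) := by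
    unfold NP nd at hu
    rw [Prod.mk.injEq, Prod.mk.injEq] at hu
    exact fun j => congrFun hu.2.2 j
  have h1 : Um v s ∅ u.1 u.2.1 = Um v s ∅ c.1 c.2.1 := by
    unfold NP at hu
    rw [Prod.mk.injEq] at hu
    exact hu.1
  have h4 : Um v s ∅ x u.2.1 = Um v s ∅ x c.2.1 := Um_codes hv hs ∅ x (fun j hj => absurd hj (by simp)) h3
  unfold cX
  rw [h1, h2, h4]

/-- the class of a state inside the class of the time -/
theorem CK_iff5 (hv : Codes D v) (S : St t q) (K : Finset (Fin 3)) (u w : Pt (Fin 3) X β φ) :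
    CK D v q K w = CK D v q K u ↔ CK D v (5 * t) K w = CK D v (5 * t) K u ∧ cX D v (nc q ∅) (nn q) u w.1 ∧
      ∀ j, cY D (nn q) u j (w.2.1 j) := by
  rw [CK_eq, CK_eq, NPq_0]
  have e1 : NPq D v q w = NPq D v q u ↔ cX D v (nc q ∅) (nn q) u w.1 ∧ ∀ j, cY D (nn q) u j (w.2.1 j) :=
    NP_iff hv (nc_le q ∅) u w
  have e2 : ∀ j, XLq (φ := φ) v q j = XLq v (5 * t) j := fun j => by rw [XLq_St S, XLq_St (St_0 t)]
  constructor
  · rintro ⟨h1, h2⟩
    refine ⟨⟨NP_mono (D := D) (v := v) S.n0 S.m0 _ _ h1, fun j hj => ?_⟩, e1.1 h1⟩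
    rw [← e2]; exact h2 j hj
  · rintro ⟨⟨h1, h2⟩, h3⟩
    refine ⟨e1.2 h3, fun j hj => ?_⟩
    rw [e2]; exact h2 j hj

/-- **the top is independent of its own vertex** given what it sees -/
theorem lab_ind (hv : Codes D v) (u : Pt (Fin 3) X β φ) (d : Fin 3) (f : φ → ℝ) (E : X → Prop) (Sb : β → Prop) :
    (D.P h t).E (fun w => ind (ZbQ D v (5 * t) d w = ZbQ D v (5 * t) d u) *
      (f (w.2.2 d) * (ind (E w.1) * ind (Sb (w.2.1 d))))) =
      (nuC D t u d).Pr Sb * (D.P h t).E (fun w => ind (ZbQ D v (5 * t) d w = ZbQ D v (5 * t) d u) *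
        (f (w.2.2 d) * ind (E w.1))) := by
  classical
  have h1 : ∀ F : φ, f F = ∑ F0 : φ, f F0 * ind (F = F0) := by
    intro F
    rw [Finset.sum_eq_single F]
    · rw [ind_of rfl, mul_one]
    · intro x _ hx; rw [ind_not (Ne.symm hx), mul_zero]
    · intro hn; exact absurd (mem_univ _) hn
  have h2 : ∀ G : X → β → ℝ, (D.P h t).E (fun w => ind (ZbQ D v (5 * t) d w = ZbQ D v (5 * t) d u) *
      (f (w.2.2 d) * G w.1 (w.2.1 d))) = ∑ F0 : φ, f F0 * (Mz D v (5 * t) d u *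
        (muC D v (nc (5 * t) ∅) (nn (5 * t)) u).E (fun x => ind (K0 v (5 * t) d u x) *
          (D.kf t d x u.2.1 F0 * (nuC D (nn (5 * t)) u d).E (G x)))) := by
    intro G
    have e1 : ∀ F0, (D.P h t).E (fun w => ind (ZbQ D v (5 * t) d w = ZbQ D v (5 * t) d u) *
        (ind (w.2.2 d = F0) * G w.1 (w.2.1 d))) = Mz D v (5 * t) d u *
        (muC D v (nc (5 * t) ∅) (nn (5 * t)) u).E (fun x => ind (K0 v (5 * t) d u x) *
          (D.kf t d x u.2.1 F0 * (nuC D (nn (5 * t)) u d).E (G x))) := fun F0 => cls_lab hv (nn_0 t).ge u d G F0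
    rw [← Finset.sum_congr rfl fun F0 _ => congrArg (fun z => f F0 * z) (e1 F0)]
    rw [Finset.sum_congr rfl fun F0 _ => ((D.P h t).E_smul (f F0) _).symm, ← FP.E_sum]
    refine FP.E_congr _ fun w _ => ?_
    have h3 := h1 (w.2.2 d)
    conv_lhs => rw [h3]
    rw [Finset.sum_mul, Finset.mul_sum]
    exact Finset.sum_congr rfl fun F0 _ => by ring
  rw [h2 (fun x b => ind (E x) * ind (Sb b)), h2 (fun x _ => ind (E x)), Finset.mul_sum]
  refine Finset.sum_congr rfl fun F0 _ => ?_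
  have e2 : ∀ x, (nuC D (nn (5 * t)) u d).E (fun b => ind (E x) * ind (Sb b)) = (nuC D t u d).Pr Sb * ind (E x) := by
    intro x
    rw [FP.E_smul, nn_0]
    exact mul_comm _ _
  have e3 : ∀ x, (nuC D (nn (5 * t)) u d).E (fun _ => ind (E x)) = ind (E x) := fun x => FP.E_const _ _
  simp only [e2, e3]
  have e4 : (muC D v (nc (5 * t) ∅) (nn (5 * t)) u).E (fun x => ind (K0 v (5 * t) d u x) *
      (D.kf t d x u.2.1 F0 * ((nuC D t u d).Pr Sb * ind (E x)))) = (nuC D t u d).Pr Sb *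
      (muC D v (nc (5 * t) ∅) (nn (5 * t)) u).E (fun x => ind (K0 v (5 * t) d u x) *
        (D.kf t d x u.2.1 F0 * ind (E x))) := by
    rw [← FP.E_smul]
    exact FP.E_congr _ fun x _ => by ring
  rw [e4]
  ring

theorem nu_pos {n : ℕ} {u : Pt (Fin 3) X β φ} {d : Fin 3} {Sb : β → Prop} (hS : Sb (u.2.1 d)) :
    0 < (nuC D n u d).Pr Sb := by
  have h1 := FP.Pr_mul_cond_E (P := FP.unif β) (V := cY D n u d) (unif_ne (cY_self n u d)) (fun b => ind (Sb b))
  have h2 : (FP.unif β).E (fun b => ind (cY D n u d b) * ind (Sb b)) = (FP.unif β).Pr (fun b => cY D n u d b ∧ Sb b) :=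
    FP.E_congr _ fun b _ => (ind_and _ _).symm
  have h3 : (FP.unif β).Pr (fun b => cY D n u d b ∧ Sb b) ≠ 0 := unif_ne (a := u.2.1 d) ⟨cY_self n u d, hS⟩
  have h4 : 0 ≤ (nuC D n u d).Pr Sb := FP.Pr_nonneg _ _
  refine lt_of_le_of_ne h4 fun h5 => h3 ?_
  rw [← h2, ← h1]
  have : ((FP.unif β).cond (cY D n u d)).E (fun b => ind (Sb b)) = 0 := h5.symm
  rw [this, mul_zero]

/-- **the own exact point does not change the law of the top** -/
theorem ceA (hv : Codes D v) {i k d : Fin 3} (hik : i ≠ k) (hid : i ≠ d) (hkd : k ≠ d) {c u : Pt (Fin 3) X β φ}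
    (hc : (D.P h t).p c ≠ 0) (hu : xc D (Um v (t + 1)) t {d} c u) (f : φ → ℝ) :
    ((D.P h t).cond (xc D (Um v (t + 1)) t {d} c)).ce (fun w => (zf (Um v (t + 1)) i w, zf (Um v (t + 1)) k w))
      (fun w => f (w.2.2 d)) u = (D.P h t).ce (ZbQ D v (5 * t) d) (fun w => f (w.2.2 d)) u := by
  classical
  rw [cond_ce (xc_ne hc)]
  obtain ⟨hu1, hu2⟩ := (xc_NP t {d} c u).1 hu
  have hud : u.2.1 d = c.2.1 d := hu2 d (Finset.mem_singleton_self d)
  have key : ∀ w, (xc D (Um v (t + 1)) t {d} c w ∧ (zf (Um v (t + 1)) i w, zf (Um v (t + 1)) k w) =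
      (zf (Um v (t + 1)) i u, zf (Um v (t + 1)) k u)) ↔
      (ZbQ D v (5 * t) d w = ZbQ D v (5 * t) d u ∧ w.2.1 d = u.2.1 d) := by
    intro w
    have e0 : (zf (Um v (t + 1)) i w, zf (Um v (t + 1)) k w) = (zf (Um v (t + 1)) i u, zf (Um v (t + 1)) k u) ↔
        zf (Um v (t + 1)) i w = zf (Um v (t + 1)) i u ∧ zf (Um v (t + 1)) k w = zf (Um v (t + 1)) k u := by
      rw [Prod.mk.injEq]
    rw [e0, xc_NP, CK_Zb hv, CK_eq, NPq_0]
    have e1 : ∀ j, XLq v (5 * t) j w = XLq v (5 * t) j u ↔ zf (Um v (t + 1)) j w = zf (Um v (t + 1)) j u := by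
      intro j
      rw [XLq_St (St_0 t) j]
      exact Iff.rfl
    have hjj : ∀ j : Fin 3, j ≠ d → j = i ∨ j = k := by
      have key : ∀ d i k j : Fin 3, i ≠ k → i ≠ d → k ≠ d → j ≠ d → j = i ∨ j = k := by decide
      exact fun j hj => key d i k j hik hid hkd hj
    constructor
    · rintro ⟨⟨h1, h2⟩, h3, h4⟩
      refine ⟨⟨h1.trans hu1.symm, fun j hj => (e1 j).2 ?_⟩, (h2 d (Finset.mem_singleton_self d)).trans hud.symm⟩
      rcases hjj j (Finset.ne_of_mem_erase hj) with rfl | rfl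
      · exact h3
      · exact h4
    · rintro ⟨⟨h1, h2⟩, h3⟩
      refine ⟨⟨h1.trans hu1, fun j hj => ?_⟩, (e1 i).1 (h2 i (Finset.mem_erase.2 ⟨hid, mem_univ _⟩)),
        (e1 k).1 (h2 k (Finset.mem_erase.2 ⟨hkd, mem_univ _⟩))⟩
      rw [Finset.mem_singleton.1 hj, h3, hud]
  have h1 := lab_ind (h := h) (t := t) hv u d f (fun _ => True) (fun b => b = u.2.1 d)
  have h2 := lab_ind (h := h) (t := t) hv u d (fun _ => 1) (fun _ => True) (fun b => b = u.2.1 d)
  have hn : 0 < (nuC D t u d).Pr (fun b => b = u.2.1 d) := nu_pos (Sb := fun b => b = u.2.1 d) rfl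
  have e1 : (D.P h t).E (fun w => ind (xc D (Um v (t + 1)) t {d} c w) *
      (ind ((zf (Um v (t + 1)) i w, zf (Um v (t + 1)) k w) = (zf (Um v (t + 1)) i u, zf (Um v (t + 1)) k u)) *
        f (w.2.2 d))) = (nuC D t u d).Pr (fun b => b = u.2.1 d) *
      (D.P h t).E (fun w => ind (ZbQ D v (5 * t) d w = ZbQ D v (5 * t) d u) * f (w.2.2 d)) := by
    simp only [ind_of trivial, mul_one, one_mul] at h1
    rw [← h1]
    refine FP.E_congr _ fun w _ => ?_
    rw [← mul_assoc, ← ind_and, ind_cg (key w), ind_and]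
    ring
  have e2 : (D.P h t).E (fun w => ind (xc D (Um v (t + 1)) t {d} c w) *
      ind ((zf (Um v (t + 1)) i w, zf (Um v (t + 1)) k w) = (zf (Um v (t + 1)) i u, zf (Um v (t + 1)) k u))) =
      (nuC D t u d).Pr (fun b => b = u.2.1 d) * (D.P h t).m (ZbQ D v (5 * t) d) u := by
    simp only [ind_of trivial, mul_one, one_mul] at h2
    unfold FP.m
    rw [← h2]
    refine FP.E_congr _ fun w _ => ?_
    rw [← ind_and, ind_cg (key w), ind_and]
  rw [e1, e2, mul_div_mul_left _ _ hn.ne']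
  rfl

/-- **the hardwired event and the class of the state** -/
theorem ceB (hv : Codes D v) (S : St t q) (d : Fin 3) {c u : Pt (Fin 3) X β φ}
    (hc : (D.P h t).p c ≠ 0) (hu : NPq D v q u = NPq D v q c) (f : φ → ℝ) :
    ((D.P h t).cond (VK D v t q ∅ c)).ce (ZbQ D v (5 * t) d) (fun w => f (w.2.2 d)) u =
      (D.P h t).ce (ZbQ D v q d) (fun w => f (w.2.2 d)) u := by
  classical
  have hV : (D.P h t).Pr (VK D v t q ∅ c) ≠ 0 := ((D.P h t).Pr_pos_of hc (VK_self c ∅)).ne'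
  rw [cond_ce hV]
  have hu5 : NP D v (t + 1) t u = NP D v (t + 1) t c := NP_mono (D := D) (v := v) S.n0 S.m0 _ _ hu
  have key1 : ∀ w, (VK D v t q ∅ c w ∧ ZbQ D v (5 * t) d w = ZbQ D v (5 * t) d u) ↔
      (ZbQ D v (5 * t) d w = ZbQ D v (5 * t) d u ∧ cX D v (nc q ∅) (nn q) u w.1) := by
    intro w
    have e1 := cX_cl hv (nc_le q ∅) hu w.1
    constructor
    · rintro ⟨⟨_, h2, _⟩, h3⟩
      exact ⟨h3, e1.2 h2⟩
    · rintro ⟨h1, h2⟩
      refine ⟨⟨(xc_NP t ∅ c w).2 ⟨?_, fun j hj => absurd hj (by simp)⟩, e1.1 h2, fun j hj => absurd hj (by simp)⟩, h1⟩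
      have h3 := (CK_eq.1 ((CK_Zb hv (5 * t) d u w).1 h1)).1
      rw [NPq_0] at h3
      exact h3.trans hu5
  have key2 : ∀ w, ZbQ D v q d w = ZbQ D v q d u ↔ (ZbQ D v (5 * t) d w = ZbQ D v (5 * t) d u ∧
      (cX D v (nc q ∅) (nn q) u w.1 ∧ cY D (nn q) u d (w.2.1 d))) := by
    intro w
    rw [CK_Zb hv, CK_iff5 hv S, ← CK_Zb hv]
    refine and_congr_right fun h1 => and_congr_right fun _ => ⟨fun h2 => h2 d, fun h2 j => ?_⟩
    by_cases hj : j = d
    · rw [hj]; exact h2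
    · have h3 := (CK_eq.1 ((CK_Zb hv (5 * t) d u w).1 h1)).2 j (Finset.mem_erase.2 ⟨hj, mem_univ _⟩)
      have h4 : w.2.1 j = u.2.1 j := congrArg Prod.fst h3
      rw [h4]; exact cY_self (nn q) u j
  have h1 := lab_ind (h := h) (t := t) hv u d f (fun x => cX D v (nc q ∅) (nn q) u x) (fun b => cY D (nn q) u d b)
  have h2 := lab_ind (h := h) (t := t) hv u d (fun _ => 1) (fun x => cX D v (nc q ∅) (nn q) u x)
    (fun b => cY D (nn q) u d b)
  have hn : 0 < (nuC D t u d).Pr (fun b => cY D (nn q) u d b) :=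
    nu_pos (Sb := fun b => cY D (nn q) u d b) (cY_self (nn q) u d)
  have e1 : (D.P h t).E (fun w => ind (VK D v t q ∅ c w) *
      (ind (ZbQ D v (5 * t) d w = ZbQ D v (5 * t) d u) * f (w.2.2 d))) =
      (D.P h t).E (fun w => ind (ZbQ D v (5 * t) d w = ZbQ D v (5 * t) d u) *
        (f (w.2.2 d) * ind (cX D v (nc q ∅) (nn q) u w.1))) := by
    refine FP.E_congr _ fun w _ => ?_
    rw [← mul_assoc, ← ind_and, ind_cg (key1 w), ind_and]
    ring
  have e2 : (D.P h t).E (fun w => ind (VK D v t q ∅ c w) * ind (ZbQ D v (5 * t) d w = ZbQ D v (5 * t) d u)) =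
      (D.P h t).E (fun w => ind (ZbQ D v (5 * t) d w = ZbQ D v (5 * t) d u) *
        (1 * ind (cX D v (nc q ∅) (nn q) u w.1))) := by
    refine FP.E_congr _ fun w _ => ?_
    rw [← ind_and, ind_cg (key1 w), ind_and, one_mul]
  have e3 : (D.P h t).E (fun w => ind (ZbQ D v q d w = ZbQ D v q d u) * f (w.2.2 d)) =
      (nuC D t u d).Pr (fun b => cY D (nn q) u d b) *
      (D.P h t).E (fun w => ind (ZbQ D v (5 * t) d w = ZbQ D v (5 * t) d u) *
        (f (w.2.2 d) * ind (cX D v (nc q ∅) (nn q) u w.1))) := by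
    rw [← h1]
    refine FP.E_congr _ fun w _ => ?_
    rw [ind_cg (key2 w), ind_and, ind_and]
    ring
  have e4 : (D.P h t).m (ZbQ D v q d) u = (nuC D t u d).Pr (fun b => cY D (nn q) u d b) *
      (D.P h t).E (fun w => ind (ZbQ D v (5 * t) d w = ZbQ D v (5 * t) d u) *
        (1 * ind (cX D v (nc q ∅) (nn q) u w.1))) := by
    rw [← h2]
    unfold FP.m
    refine FP.E_congr _ fun w _ => ?_
    rw [ind_cg (key2 w), ind_and, ind_and]
    ring
  unfold FP.ce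
  rw [e1, e2, e3, e4, mul_div_mul_left _ _ hn.ne']


theorem LK_5 (S : St t q) (K : Finset (Fin 3)) (c : Pt (Fin 3) X β φ) : LK v q K c = LK v (5 * t) K c := by
  funext x
  unfold LK
  simp only [S.n1, (St_0 t).n1]

theorem zf_XL (S : St t q) (j : Fin 3) (w : Pt (Fin 3) X β φ) : zf (Um v (t + 1)) j w = XLq v q j w := by
  rw [XLq_St S j]
  rfl

variable (v t) in
/-- the other two tops and everything below -/
def Yq (D : HD (Fin 3) X β γ φ) (q : ℕ) (i k : Fin 3) (w : Pt (Fin 3) X β φ) :=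
  ((FQ v t i w, FQ v t k w), ZQ D v q w)

variable (v t) in
/-- labels and letters of the vertices `i`, `k` -/
def Yl (i k : Fin 3) (w : Pt (Fin 3) X β φ) :=
  ((w.2.2 k, w.2.2 i), (zf (Um v (t + 1)) i w, zf (Um v (t + 1)) k w))

theorem Y_iff (hv : Codes D v) (S : St t q) {i k o : Fin 3} (hik : i ≠ k) (hio : i ≠ o) (hko : k ≠ o)
    (htop : ∀ j (a b : Pt (Fin 3) X β φ), (D.P h t).p a ≠ 0 → (D.P h t).p b ≠ 0 →
      ZbQ D v (5 * t) j a = ZbQ D v (5 * t) j b → (FQ v t j a = FQ v t j b ↔ a.2.2 j = b.2.2 j))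
    {c u w : Pt (Fin 3) X β φ} (hpu : (D.P h t).p u ≠ 0) (hpw : (D.P h t).p w ≠ 0)
    (hu : CK D v q {o} u = CK D v q {o} c) :
    (VK D v t q {o} c w ∧ Yl v t i k w = Yl v t i k u) ↔ Yq v t D q i k w = Yq v t D q i k u := by
  have hjj : ∀ j : Fin 3, j = i ∨ j = k ∨ j = o := by
    have key : ∀ i k o j : Fin 3, i ≠ k → i ≠ o → k ≠ o → j = i ∨ j = k ∨ j = o := by decide
    exact fun j => key i k o j hik hio hko
  have hNu : NPq D v q u = NPq D v q c := CK_fNPq q _ u c hu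
  have h5u : NP D v (t + 1) t u = NP D v (t + 1) t c := NP_mono (D := D) (v := v) S.n0 S.m0 _ _ hNu
  have h5 : 5 * t ≤ q := by
    by_contra hcon
    have h1 : q / 5 < t := by omega
    have h2 := S.n0
    have h3 : nc q ∅ ≤ nc (5 * t) ∅ := nc_mono (by omega) pth_emp
    have h4 := S.m0
    have h6 : nn q ≤ nn (5 * (t - 1) + 4) := nn_mono (by omega)
    have h7 : nn (5 * (t - 1) + 4) ≤ (t - 1) + 1 := (St_j (t := t - 1) (j := 4) (by omega)).m1
    have h8 : nc q {0} ≤ nc (5 * (t - 1) + 4) {0} := nc_mono (by omega) (pth_sing 0)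
    have h9 := (St_j (t := t - 1) (j := 4) (by omega)).n1 0
    have h10 := S.n1 0
    omega
  have e0 : ∀ w : Pt (Fin 3) X β φ, Yl v t i k w = Yl v t i k u ↔ ((w.2.2 k = u.2.2 k ∧ w.2.2 i = u.2.2 i) ∧
      (zf (Um v (t + 1)) i w = zf (Um v (t + 1)) i u ∧ zf (Um v (t + 1)) k w = zf (Um v (t + 1)) k u)) := by
    intro w
    unfold Yl
    rw [Prod.mk.injEq, Prod.mk.injEq, Prod.mk.injEq]
  have e1 : ∀ w : Pt (Fin 3) X β φ, Yq v t D q i k w = Yq v t D q i k u ↔ ((FQ v t i w = FQ v t i u ∧ FQ v t k w = FQ v t k u) ∧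
      ZQ D v q w = ZQ D v q u) := by
    intro w
    unfold Yq
    rw [Prod.mk.injEq, Prod.mk.injEq]
  have e2 : ∀ j, ZQ D v q w = ZQ D v q u → ZbQ D v (5 * t) j w = ZbQ D v (5 * t) j u := fun j hz =>
    ZQ_Zb (5 * t) j _ _ (ZQ_mono h5 _ _ hz)
  rw [e0, e1]
  constructor
  · rintro ⟨⟨h1, h2, h3⟩, ⟨h4, h4'⟩, h6, h7⟩
    obtain ⟨g1, g2⟩ := (xc_NP t {o} c w).1 h1
    have g3 : CK D v (5 * t) {o} w = CK D v (5 * t) {o} c := by
      rw [CK_iff hv, nc_0t t pth_emp, nn_0]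
      refine ⟨g1, g2, ?_⟩
      rw [← LK_5 S]; exact h3
    have g4 : CK D v (5 * t) {o} u = CK D v (5 * t) {o} c := ((CK_iff5 hv S {o} c u).1 hu).1
    have g5 : XLq v (5 * t) o w = XLq v (5 * t) o u :=
      (CK_eq.1 (g3.trans g4.symm)).2 o (Finset.mem_singleton_self o)
    have g6 : ∀ j, XLq v (5 * t) j w = XLq v (5 * t) j u := by
      intro j
      rcases hjj j with rfl | rfl | rfl
      · rw [← zf_XL (St_0 t), ← zf_XL (St_0 t)]; exact h6
      · rw [← zf_XL (St_0 t), ← zf_XL (St_0 t)]; exact h7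
      · exact g5
    have g7 : CK D v q univ w = CK D v q univ u := by
      rw [CK_iff5 hv S]
      refine ⟨CK_eq.2 ⟨?_, fun j _ => g6 j⟩, (cX_cl hv (nc_le q ∅) hNu w.1).2 h2, fun j => ?_⟩
      · rw [NPq_0]; exact g1.trans h5u.symm
      · have : w.2.1 j = u.2.1 j := congrArg Prod.fst (g6 j)
        rw [this]; exact cY_self _ u j
    have g8 : ZQ D v q w = ZQ D v q u := CK_fZQ hv q _ _ g7
    exact ⟨⟨(htop i w u hpw hpu (e2 i g8)).2 h4', (htop k w u hpw hpu (e2 k g8)).2 h4⟩, g8⟩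
  · rintro ⟨⟨h1, h2⟩, h3⟩
    have g1 : CK D v q {o} w = CK D v q {o} c := (ZQ_fCK q {o} _ _ h3).trans hu
    refine ⟨CK_VK hv S g1, ⟨(htop k w u hpw hpu (e2 k h3)).1 h2, (htop i w u hpw hpu (e2 i h3)).1 h1⟩, ?_, ?_⟩
    · rw [zf_XL S, zf_XL S]; exact ZQ_XLq q i _ _ h3
    · rw [zf_XL S, zf_XL S]; exact ZQ_XLq q k _ _ h3

/-- conditional means on a class -/
theorem ce_on {Om ζ : Type*} [Fintype Om] (P : FP Om) {Z : Om → ζ} {f g : Om → ℝ} {w : Om}
    (hh : ∀ v, P.p v ≠ 0 → Z v = Z w → f v = g v) : P.ce Z f w = P.ce Z g w := by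
  unfold FP.ce
  congr 1
  refine P.E_congr fun v hv => ?_
  by_cases hz : Z v = Z w
  · rw [hh v hv hz]
  · rw [ind_not hz, zero_mul, zero_mul]

/-- **own side** : the law of the top given everything under the class -/
theorem ceC (hv : Codes D v) (S : St t q) {i k o : Fin 3} (hik : i ≠ k) (hio : i ≠ o) (hko : k ≠ o)
    (htop : ∀ j (a b : Pt (Fin 3) X β φ), (D.P h t).p a ≠ 0 → (D.P h t).p b ≠ 0 →
      ZbQ D v (5 * t) j a = ZbQ D v (5 * t) j b → (FQ v t j a = FQ v t j b ↔ a.2.2 j = b.2.2 j))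
    {c u : Pt (Fin 3) X β φ} (hc : (D.P h t).p c ≠ 0) (hpu : (D.P h t).p u ≠ 0) (hu : CK D v q {o} u = CK D v q {o} c)
    (f : Pt (Fin 3) X β φ → ℝ) :
    ((D.P h t).cond (VK D v t q {o} c)).ce (Yl v t i k) f u = (D.P h t).ce (Yq v t D q i k) f u := by
  classical
  have hV : (D.P h t).Pr (VK D v t q {o} c) ≠ 0 := ((D.P h t).Pr_pos_of hc (VK_self c {o})).ne'
  rw [cond_ce hV]
  unfold FP.ce FP.m
  congr 1
  · refine FP.E_congr _ fun w hw => ?_
    rw [← mul_assoc, ← ind_and, ind_cg (Y_iff hv S hik hio hko htop hpu hw hu)]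
  · refine FP.E_congr _ fun w hw => ?_
    rw [← ind_and, ind_cg (Y_iff hv S hik hio hko htop hpu hw hu)]

/-- from the tops to the labels, the class of an own letter -/
theorem tau_le (hv : Codes D v) (S : St t q) {i k o : Fin 3} (hik : i ≠ k) (hio : i ≠ o) (hko : k ≠ o)
    (htop : ∀ j (a b : Pt (Fin 3) X β φ), (D.P h t).p a ≠ 0 → (D.P h t).p b ≠ 0 →
      ZbQ D v (5 * t) j a = ZbQ D v (5 * t) j b → (FQ v t j a = FQ v t j b ↔ a.2.2 j = b.2.2 j))
    {c u : Pt (Fin 3) X β φ} (hc : (D.P h t).p c ≠ 0) (hpu : (D.P h t).p u ≠ 0)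
    (hu : CK D v q {o} u = CK D v q {o} c) :
    tvp (D.P h t) (D.P h t) (FQ v t o) (Yq v t D q i k) (ZbQ D v (5 * t) o) u ≤
      tvp ((D.P h t).cond (VK D v t q {o} c)) ((D.P h t).cond (xc D (Um v (t + 1)) t {o} c)) (fun w => w.2.2 o)
        (Yl v t i k) (fun w => (zf (Um v (t + 1)) i w, zf (Um v (t + 1)) k w)) u := by
  refine tvp_of_test _ _ _ _ _ _ fun f hf => ?_
  obtain ⟨f', hf', hff⟩ := relab (T := fun w => (D.P h t).p w ≠ 0 ∧ ZbQ D v (5 * t) o w = ZbQ D v (5 * t) o u)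
    (X := FQ v t o) (X' := fun w : Pt (Fin 3) X β φ => w.2.2 o)
    (fun a b ha hb hab => (htop o a b ha.1 hb.1 (ha.2.trans hb.2.symm)).2 hab) hf
  have h5 : 5 * t ≤ q := by
    by_contra hcon
    have h1 : q / 5 < t := by omega
    have h8 : nc q {0} ≤ nc (5 * (t - 1) + 4) {0} := nc_mono (by omega) (pth_sing 0)
    have h9 := (St_j (t := t - 1) (j := 4) (by omega)).n1 0
    have h10 := S.n1 0
    omega
  have e1 : (D.P h t).ce (Yq v t D q i k) (fun w => f (FQ v t o w)) u =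
      (D.P h t).ce (Yq v t D q i k) (fun w => f' (w.2.2 o)) u := by
    refine ce_on _ fun w hw hz => hff w ⟨hw, ?_⟩
    have h2 : ZQ D v q w = ZQ D v q u := congrArg Prod.snd hz
    exact ZQ_Zb (5 * t) o _ _ (ZQ_mono h5 _ _ h2)
  have e2 : (D.P h t).ce (ZbQ D v (5 * t) o) (fun w => f (FQ v t o w)) u =
      (D.P h t).ce (ZbQ D v (5 * t) o) (fun w => f' (w.2.2 o)) u := ce_on _ fun w hw hz => hff w ⟨hw, hz⟩
  rw [e1, e2, ← ceC hv S hik hio hko htop hc hpu hu, ← ceA hv hik hio hko hc (CK_VK hv S hu).1 f']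
  exact tvp_test _ _ _ _ _ _ hf'

/-- what the top sees at the time `t` -/
theorem Zb5_eq (o : Fin 3) : (fun w : Pt (Fin 3) X β φ => (lo (LL (Um v (t + 1))) (univ.erase o) w,
    BB D t (univ.erase o) w)) = ZbQ D v (5 * t) o := by
  funext w
  unfold ZbQ
  rw [nn_0]
  refine Prod.ext ?_ rfl
  funext I
  show lo (LL (Um v (t + 1))) (univ.erase o) w I = lo (SL v (5 * t)) (univ.erase o) w I
  unfold lo
  by_cases hI : I ⊂ univ.erase o
  · rw [if_pos hI, if_pos hI]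
    unfold SL
    rw [nc_0t t (lt_pth card3 (ne_univ o) hI)]
  · rw [if_neg hI, if_neg hI]

/-- from the tops to the labels, the public class -/
theorem g_le (hv : Codes D v) (S : St t q) (o : Fin 3)
    (htop : ∀ j (a b : Pt (Fin 3) X β φ), (D.P h t).p a ≠ 0 → (D.P h t).p b ≠ 0 →
      ZbQ D v (5 * t) j a = ZbQ D v (5 * t) j b → (FQ v t j a = FQ v t j b ↔ a.2.2 j = b.2.2 j))
    {c u : Pt (Fin 3) X β φ} (hc : (D.P h t).p c ≠ 0) (_hpu : (D.P h t).p u ≠ 0)
    (hu : NPq D v q u = NPq D v q c) :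
    tvp (D.P h t) (D.P h t) (FQ v t o) (ZbQ D v q o) (ZbQ D v (5 * t) o) u ≤
      tvp ((D.P h t).cond (VK D v t q ∅ c)) ((D.P h t).cond (xc D (Um v (t + 1)) t ∅ c)) (FQ v t o)
        (ZbQ D v (5 * t) o) (ZbQ D v (5 * t) o) u := by
  refine tvp_of_test _ _ _ _ _ _ fun f hf => ?_
  obtain ⟨f', hf', hff⟩ := relab (T := fun w => (D.P h t).p w ≠ 0 ∧ ZbQ D v (5 * t) o w = ZbQ D v (5 * t) o u)
    (X := FQ v t o) (X' := fun w : Pt (Fin 3) X β φ => w.2.2 o)
    (fun a b ha hb hab => (htop o a b ha.1 hb.1 (ha.2.trans hb.2.symm)).2 hab) hf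
  have h5 : 5 * t ≤ q := by
    by_contra hcon
    have h8 : nc q {0} ≤ nc (5 * (t - 1) + 4) {0} := nc_mono (by omega) (pth_sing 0)
    have h9 := (St_j (t := t - 1) (j := 4) (by omega)).n1 0
    have h10 := S.n1 0
    omega
  have hV : (D.P h t).Pr (VK D v t q ∅ c) ≠ 0 := ((D.P h t).Pr_pos_of hc (VK_self c ∅)).ne'
  have e1 : (D.P h t).ce (ZbQ D v q o) (fun w => f (FQ v t o w)) u =
      (D.P h t).ce (ZbQ D v q o) (fun w => f' (w.2.2 o)) u :=
    ce_on _ fun w hw hz => hff w ⟨hw, ZbQ_mono h5 o _ _ hz⟩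
  have e3 : ((D.P h t).cond (VK D v t q ∅ c)).ce (ZbQ D v (5 * t) o) (fun w => f' (w.2.2 o)) u =
      ((D.P h t).cond (VK D v t q ∅ c)).ce (ZbQ D v (5 * t) o) (fun w => f (FQ v t o w)) u :=
    ce_on _ fun w hw hz => (hff w ⟨((FP.cond_p_ne hV).1 hw).2, hz⟩).symm
  have e4 : (D.P h t).ce (ZbQ D v (5 * t) o) (fun w => f (FQ v t o w)) u =
      ((D.P h t).cond (xc D (Um v (t + 1)) t ∅ c)).ce (ZbQ D v (5 * t) o) (fun w => f (FQ v t o w)) u := by
    classical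
    rw [cond_ce (xc_ne hc)]
    have hu5 : NP D v (t + 1) t u = NP D v (t + 1) t c := NP_mono (D := D) (v := v) S.n0 S.m0 _ _ hu
    have key : ∀ w, (xc D (Um v (t + 1)) t ∅ c w ∧ ZbQ D v (5 * t) o w = ZbQ D v (5 * t) o u) ↔
        ZbQ D v (5 * t) o w = ZbQ D v (5 * t) o u := by
      intro w
      refine ⟨fun hh => hh.2, fun hh => ⟨(xc_NP t ∅ c w).2 ⟨?_, fun j hj => absurd hj (by simp)⟩, hh⟩⟩
      have h3 := (CK_eq.1 ((CK_Zb hv (5 * t) o u w).1 hh)).1
      rw [NPq_0] at h3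
      exact h3.trans hu5
    unfold FP.ce FP.m
    congr 1
    · refine FP.E_congr _ fun w _ => ?_
      rw [← mul_assoc, ← ind_and, ind_cg (key w)]
    · refine FP.E_congr _ fun w _ => ?_
      rw [← ind_and, ind_cg (key w)]
  rw [e1, e4, ← ceB hv S o hc hu f', e3]
  exact tvp_test _ _ _ _ _ _ hf

/-- **the class of the state against the hardwired event** -/
theorem E_VK {dg : ℕ → X → ℝ} {prr : ℕ → Fin 3 → φ → φ} {T : ℕ} {Lam : ℝ} (H : D.Hyp dg prr al T Lam) (ht : t < T)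
    (hv : Codes D v) (S : St t q) {K : Finset (Fin 3)} {c : Pt (Fin 3) X β φ} (hc : (D.P h t).p c ≠ 0)
    {f f' : Pt (Fin 3) X β φ → ℝ} (hff : ∀ u, (D.P h t).p u ≠ 0 → CK D v q K u = CK D v q K c → f u ≤ f' u)
    (f0 : ∀ u, 0 ≤ f' u) : (D.P h t).ce (CK D v q K) f c ≤ 8 * ((D.P h t).cond (VK D v t q K c)).E f' := by
  classical
  have hVp := (D.P h t).Pr_pos_of hc (VK_self (D := D) (v := v) (t := t) (q := q) c K)
  have hm := (D.P h t).m_pos (CK D v q K) hc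
  have h1 : (D.P h t).E (fun u => ind (CK D v q K u = CK D v q K c) * f u) ≤
      (D.P h t).Pr (VK D v t q K c) * ((D.P h t).cond (VK D v t q K c)).E f' := by
    rw [FP.Pr_mul_cond_E hVp.ne']
    refine FP.E_mono _ fun u hu => ?_
    by_cases hz : CK D v q K u = CK D v q K c
    · rw [ind_of hz, ind_of (CK_VK hv S hz), one_mul, one_mul]
      exact hff u hu hz
    · rw [ind_not hz, zero_mul]
      exact mul_nonneg (ind_nonneg _) (f0 u)
  have h2 := VK_le (h := h) H ht hv S c K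
  have h3 : 0 ≤ ((D.P h t).cond (VK D v t q K c)).E f' := FP.E_nonneg _ fun u _ => f0 u
  unfold FP.ce
  rw [div_le_iff₀ hm]
  refine h1.trans ((mul_le_mul_of_nonneg_right h2 h3).trans (le_of_eq ?_))
  ring


variable {N : Finset (Fin 3) → ℝ} {SS : Finset (Finset (Fin 3))} {dg : ℕ → X → ℝ} {prr : ℕ → Fin 3 → φ → φ} {T : ℕ}
  {Lam : ℝ}

/-- the hardwired event of an own letter -/
theorem Ib_VK (hv : Codes D v) (S : St t q) {i k o : Fin 3} (B : Bk h N SS (Um v (t + 1)) t o i k)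
    {c : Pt (Fin 3) X β φ} (hc : (D.P h t).p c ≠ 0) : Ib h (Um v (t + 1)) t o c (VK D v t q {o} c) where
  fac := by
    intro a b hab
    have h1 : xc D (Um v (t + 1)) t {o} c a = xc D (Um v (t + 1)) t {o} c b :=
      xc_fac {o} c B.dep (B.era) a b hab
    have h2 : a.1 = b.1 := by
      have h3 : (a.1, BB D t {o} a) = (b.1, BB D t {o} b) := hab
      rw [Prod.mk.injEq] at h3
      exact h3.1
    unfold VK
    rw [h1, h2]
  self := VK_self c {o}
  supp := hc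
  sub := by
    rintro w ⟨h1, h2, h3⟩
    obtain ⟨g1, g2⟩ := (xc_NP t {o} c w).1 h1
    have g3 : CK D v (5 * t) {o} w = CK D v (5 * t) {o} c := by
      rw [CK_iff hv, nc_0t t pth_emp, nn_0]
      refine ⟨g1, g2, ?_⟩
      rw [← LK_5 S]; exact h3
    have g5 : XLq v (5 * t) o w = XLq v (5 * t) o c := (CK_eq.1 g3).2 o (Finset.mem_singleton_self o)
    rw [← zf_XL (St_0 t), ← zf_XL (St_0 t)] at g5
    refine ⟨?_, congrArg Prod.fst g5, congrArg Prod.snd g5⟩
    show (le (LL (Um v (t + 1))) ∅ w, BB D t ∅ w) = (le (LL (Um v (t + 1))) ∅ c, BB D t ∅ c)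
    rw [Prod.mk.injEq]
    refine ⟨h1.1, ?_⟩
    have h4 := h1.2
    rw [BB_eq] at h4 ⊢
    exact ⟨fun j hj => absurd hj (by simp), h4.2⟩

theorem log_inv_le {x L : ℝ} (hx : Real.exp (-L) ≤ x) : Real.log (1 / x) ≤ L := by
  rw [one_div, Real.log_inv]
  have := Real.log_le_log (Real.exp_pos _) hx
  rw [Real.log_exp] at this
  linarith

/-- **THE TOP GIVEN EVERYTHING, IN THE CLASS OF AN OWN LETTER OF ITS OWN VERTEX** -/
theorem own_far (H : D.Hyp dg prr al T Lam) (ht : t < T) (hv : Codes D v) (S : St t q) {i k o : Fin 3}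
    (B : Bk h N SS (Um v (t + 1)) t o i k)
    (htop : ∀ j (a b : Pt (Fin 3) X β φ), (D.P h t).p a ≠ 0 → (D.P h t).p b ≠ 0 →
      ZbQ D v (5 * t) j a = ZbQ D v (5 * t) j b → (FQ v t j a = FQ v t j b ↔ a.2.2 j = b.2.2 j))
    {c : Pt (Fin 3) X β φ} (hc : (D.P h t).p c ≠ 0) {L kap : ℝ}
    (hL : Real.exp (-L) * (D.P h t).Pr (xc D (Um v (t + 1)) t {o} c) ≤ (D.P h t).Pr (VK D v t q {o} c))
    (hN0 : N ∅ = 1)
    (hkap : 2 * (L + 1) + 2 * ((N {i} + N {k}) * Real.log (1 / al)) ≤ N (univ.erase o) * kap) :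
    (D.P h t).ce (CK D v q {o})
      (tvp (D.P h t) (D.P h t) (FQ v t o) (Yq v t D q i k) (ZbQ D v (5 * t) o)) c ≤ 8 * Real.sqrt (2 * kap) := by
  have I := Ib_VK (h := h) hv S B hc
  refine (E_VK H ht hv S hc (fun u hpu hu => tau_le hv S B.cd (Ne.symm B.bc) (Ne.symm B.bd) htop hc hpu hu)
    (fun u => tvp_nonneg u)).trans ?_
  refine mul_le_mul_of_nonneg_left ?_ (by norm_num)
  have hxc := xc_ne (D := D) (h := h) (U := Um v (t + 1)) (t := t) (I := {o}) hc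
  have hxp : 0 < (D.P h t).Pr (xc D (Um v (t + 1)) t {o} c) := lt_of_le_of_ne (FP.Pr_nonneg _ _) (Ne.symm hxc)
  have hPr : Real.exp (-L) ≤ (QB h (Um v (t + 1)) t o c).Pr (VK D v t q {o} c) := by
    unfold QB
    show _ ≤ ((D.P h t).cond (xc D (Um v (t + 1)) t {o} c)).E (fun w => ind (VK D v t q {o} c w))
    rw [FP.cond_E hxc, le_div_iff₀ hxp]
    refine hL.trans (le_of_eq ?_)
    unfold FP.Pr
    refine FP.E_congr _ fun w _ => ?_
    by_cases hw : VK D v t q {o} c w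
    · rw [ind_of hw, ind_of hw.1, mul_one]
    · rw [ind_not hw, mul_zero]
  have hLb : Lb h (Um v (t + 1)) t o c (VK D v t q {o} c) ≤ L := by
    unfold Lb
    exact log_inv_le hPr
  have hff := face_far B I
  rw [hN0] at hff
  have hn := B.n2 o
  have hk : ((D.P h t).cond (VK D v t q {o} c)).klc (QB h (Um v (t + 1)) t o c) (fun w => w.2.2 o)
      (fun w => (zf (Um v (t + 1)) i w, zf (Um v (t + 1)) k w)) +
      ((D.P h t).cond (VK D v t q {o} c)).I (fun w => w.2.2 o) (Yl v t i k)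
        (fun w => (zf (Um v (t + 1)) i w, zf (Um v (t + 1)) k w)) ≤ kap := by
    have e1 : ((D.P h t).cond (VK D v t q {o} c)).I (fun w => w.2.2 o) (Yl v t i k)
        (fun w => (zf (Um v (t + 1)) i w, zf (Um v (t + 1)) k w)) =
        ((D.P h t).cond (VK D v t q {o} c)).I (fun w => w.2.2 o) (fun w => (w.2.2 k, w.2.2 i))
        (fun w => (zf (Um v (t + 1)) i w, zf (Um v (t + 1)) k w)) := I_rep _
    rw [e1]
    refine le_of_mul_le_mul_left (hff.trans ?_) hn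
    linarith
  have h1 := E_al_tvp_le (Q := (D.P h t).cond (VK D v t q {o} c)) (P := QB h (Um v (t + 1)) t o c)
    (X := fun w => w.2.2 o) (Y := Yl v t i k) (Z := fun w => (zf (Um v (t + 1)) i w, zf (Um v (t + 1)) k w))
    I.acB (fun a b hab => congrArg Prod.snd hab) (al := fun _ => 1) (fun _ => zero_le_one) (fun _ => le_rfl) hk
  simp only [one_mul] at h1
  exact h1

/-- **THE TOP IN THE STATE AND AT THE TIME, IN THE PUBLIC CLASS** -/
theorem pub_far (H : D.Hyp dg prr al T Lam) (ht : t < T) (hv : Codes D v) (S : St t q) {i k o : Fin 3}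
    (B : Bk h N SS (Um v (t + 1)) t o i k)
    (htop : ∀ j (a b : Pt (Fin 3) X β φ), (D.P h t).p a ≠ 0 → (D.P h t).p b ≠ 0 →
      ZbQ D v (5 * t) j a = ZbQ D v (5 * t) j b → (FQ v t j a = FQ v t j b ↔ a.2.2 j = b.2.2 j))
    {c : Pt (Fin 3) X β φ} (hc : (D.P h t).p c ≠ 0) {L kap : ℝ}
    (hL : Real.exp (-L) * (D.P h t).Pr (xc D (Um v (t + 1)) t ∅ c) ≤ (D.P h t).Pr (VK D v t q ∅ c))
    (hN0 : N ∅ = 1) (hkap : 2 * (L + 1) ≤ N (univ.erase o) * kap) :
    (D.P h t).ce (NPq D v q)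
      (tvp (D.P h t) (D.P h t) (FQ v t o) (ZbQ D v q o) (ZbQ D v (5 * t) o)) c ≤ 8 * Real.sqrt (2 * kap) := by
  rw [(D.P h t).ce_congr_map (NPq_fCK q) (CK_fNPq q ∅)]
  refine (E_VK H ht hv S hc (fun u hpu hu => g_le hv S o htop hc hpu (CK_fNPq q ∅ _ _ hu))
    (fun u => tvp_nonneg u)).trans ?_
  refine mul_le_mul_of_nonneg_left ?_ (by norm_num)
  have hxc := xc_ne (D := D) (h := h) (U := Um v (t + 1)) (t := t) (I := (∅ : Finset (Fin 3))) hc
  have hxp : 0 < (D.P h t).Pr (xc D (Um v (t + 1)) t ∅ c) := lt_of_le_of_ne (FP.Pr_nonneg _ _) (Ne.symm hxc)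
  have hVp := (D.P h t).Pr_pos_of hc (VK_self (D := D) (v := v) (t := t) (q := q) c ∅)
  set E : Pt (Fin 3) X β φ → Prop := fun w => cX D v (nc q ∅) (nn q) c w.1 ∧ LK v q ∅ c w.1 with hE
  have hPr : Real.exp (-L) ≤ ((D.P h t).cond (xc D (Um v (t + 1)) t ∅ c)).Pr E := by
    show _ ≤ ((D.P h t).cond (xc D (Um v (t + 1)) t ∅ c)).E (fun w => ind (E w))
    rw [FP.cond_E hxc, le_div_iff₀ hxp]
    refine hL.trans (le_of_eq ?_)
    unfold FP.Pr
    refine FP.E_congr _ fun w _ => ?_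
    rw [← ind_and]
    rfl
  have hE0 : ((D.P h t).cond (xc D (Um v (t + 1)) t ∅ c)).Pr E ≠ 0 := ((Real.exp_pos _).trans_le hPr).ne'
  have hcc : ((D.P h t).cond (xc D (Um v (t + 1)) t ∅ c)).cond E = (D.P h t).cond (VK D v t q ∅ c) :=
    FP.cond_cond (P := D.P h t) (V := xc D (Um v (t + 1)) t ∅ c) (A := E) hVp.ne'
  have hEv : EvI D t ∅ E := by
    intro a b hab
    have h1 : a.1 = b.1 := by
      simp only [Prod.mk.injEq] at hab
      exact hab.1
    show (_ ∧ _) = (_ ∧ _)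
    rw [h1]
  have hne : (univ.erase o : Finset (Fin 3)).Nonempty := by
    have key : ∀ o : Fin 3, (univ.erase o : Finset (Fin 3)).Nonempty := by decide
    exact key o
  have hx := ex_pub (J0 := univ.erase o) B.dep B.sat B.nn B.era B.s0 (B.s2 o) hne (Finset.disjoint_empty_right _) hc hEv hE0
  rw [hcc, Zb5_eq, hN0] at hx
  have hn := B.n2 o
  have hlog := log_inv_le hPr
  have hk : ((D.P h t).cond (VK D v t q ∅ c)).klc ((D.P h t).cond (xc D (Um v (t + 1)) t ∅ c)) (FQ v t o)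
      (ZbQ D v (5 * t) o) + ((D.P h t).cond (VK D v t q ∅ c)).I (FQ v t o) (ZbQ D v (5 * t) o)
        (ZbQ D v (5 * t) o) ≤ kap := by
    have e1 : ((D.P h t).cond (VK D v t q ∅ c)).I (FQ v t o) (ZbQ D v (5 * t) o) (ZbQ D v (5 * t) o) = 0 := by
      rw [FP.I_eq_Hc]
      rw [sub_eq_zero]
      refine FP.Hc_congr _ (Fac.fst _ _) ?_ (Fac.fst _ _) (Fac.fst _ _)
      intro a b hab
      rw [Prod.mk.injEq]
      exact ⟨hab, hab⟩
    rw [e1, add_zero]
    refine le_of_mul_le_mul_left (hx.trans ?_) hn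
    linarith
  have hac : ((D.P h t).cond (VK D v t q ∅ c)).Ac ((D.P h t).cond (xc D (Um v (t + 1)) t ∅ c)) := by
    intro w hw
    obtain ⟨g1, g2⟩ := (FP.cond_p_ne hVp.ne').1 hw
    exact (FP.cond_p_ne hxc).2 ⟨g1.1, g2⟩
  have h1 := E_al_tvp_le (X := FQ v t o) (Y := ZbQ D v (5 * t) o) (Z := ZbQ D v (5 * t) o)
    hac (Fac.refl _) (al := fun _ => 1) (fun _ => zero_le_one) (fun _ => le_rfl) hk
  simp only [one_mul] at h1
  exact h1

end face

end

end Pool.Agent.GMH.TP
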