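import Pool.Agent.GMH.TopTripC

/-!
# GMH/TopTripD: the third top against a pair, hypothesis `htrip` of KEY3 (helper91, row F3 of H3.LEAN)
-/

set_option autoImplicit false
set_option linter.unusedSectionVars false

namespace Pool.Agent.GMH.TP

open Finset Pool.Agent.PWZ Pool.Agent.M3 Pool.Agent.GM Pool.Agent.GM.Harm Pool.Agent.GMH Pool.Agent.GMH.NZ
open Pool.Agent.GMH.V3

noncomputable section

section gen

variable {Om : Type*} [Fintype Om] (P : FP Om) {α β' φ' : Type*} {Zb : Fin 3 → Om → α} {Z : Om → β'}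
  {F : Fin 3 → Om → φ'}

/-- distance of the law of three tops from (law of the pair) x (law of the third) -/
def T3s (P : FP Om) (Z : Om → β') (Zb : Fin 3 → Om → α) (F : Fin 3 → Om → φ') (w : Om) : ℝ :=
  ∑ f ∈ let_ F, |pF P Z F w f - mF2 P Z F 0 1 w (f 0) (f 1) * qF P Zb F 2 w (f 2)|

/-- **the law of three tops through the third top given the others** -/
theorem T3s_le (hZ : Fac Z (Zb 2)) {w : Om} (hw : P.p w ≠ 0) :
    T3s P Z Zb F w ≤ P.ce Z (tvp P P (F 2) (fun u => ((F 0 u, F 1 u), Z u)) (Zb 2)) w := by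
  classical
  have hm := P.m_pos Z hw
  -- one letter
  have key : ∀ f : Fin 3 → φ', |pF P Z F w f - mF2 P Z F 0 1 w (f 0) (f 1) * qF P Zb F 2 w (f 2)| ≤
      P.ce Z (fun u => ind (F 0 u = f 0 ∧ F 1 u = f 1) *
        |P.pv (fun u => ((F 0 u, F 1 u), Z u)) (F 2) u (f 2) - P.pv (Zb 2) (F 2) u (f 2)|) w := by
    intro f
    set A := P.E (fun v => ind (Z v = Z w) * ind (F 0 v = f 0 ∧ F 1 v = f 1)) with hA
    set Bf := P.E (fun v => ind (Z v = Z w) * (ind (F 0 v = f 0 ∧ F 1 v = f 1) * ind (F 2 v = f 2))) with hBf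
    have A0 : 0 ≤ A := P.E_nonneg fun v _ => mul_nonneg (ind_nonneg _) (ind_nonneg _)
    have B0 : 0 ≤ Bf := P.E_nonneg fun v _ => mul_nonneg (ind_nonneg _) (mul_nonneg (ind_nonneg _) (ind_nonneg _))
    have BA : Bf ≤ A := P.E_mono fun v _ => mul_le_mul_of_nonneg_left
      (mul_le_of_le_one_right (ind_nonneg _) (ind_le_one _)) (ind_nonneg _)
    have e1 : pF P Z F w f = Bf / P.m Z w := by
      unfold pF FP.pv FP.ce
      congr 1
      refine P.E_congr fun v _ => ?_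
      rw [← ind_and (F 0 v = f 0 ∧ F 1 v = f 1)]
      congr 1
      refine ind_cg ⟨fun hh => ?_, fun hh => ?_⟩
      · have : ∀ i, F i v = f i := fun i => congrFun hh i
        exact ⟨⟨this 0, this 1⟩, this 2⟩
      · funext i
        show F i v = f i
        fin_cases i
        · exact hh.1.1
        · exact hh.1.2
        · exact hh.2
    have e2 : mF2 P Z F 0 1 w (f 0) (f 1) = A / P.m Z w := by
      unfold mF2 FP.pv FP.ce
      congr 1
      refine P.E_congr fun v _ => ?_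
      congr 1
      exact ind_cg (by rw [Prod.mk.injEq])
    set g : ℝ := |Bf / A - qF P Zb F 2 w (f 2)| with hg
    have e3 : ∀ u, Z u = Z w → F 0 u = f 0 → F 1 u = f 1 →
        |P.pv (fun u => ((F 0 u, F 1 u), Z u)) (F 2) u (f 2) - P.pv (Zb 2) (F 2) u (f 2)| = g := by
      intro u hz h0 h1
      have e4 : ∀ v, ((F 0 v, F 1 v), Z v) = ((F 0 u, F 1 u), Z u) ↔ (Z v = Z w ∧ (F 0 v = f 0 ∧ F 1 v = f 1)) := by
        intro v
        rw [Prod.mk.injEq, Prod.mk.injEq, hz, h0, h1]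
        exact and_comm
      have e5 : P.pv (fun u => ((F 0 u, F 1 u), Z u)) (F 2) u (f 2) = Bf / A := by
        unfold FP.pv FP.ce FP.m
        congr 1
        · refine P.E_congr fun v _ => ?_
          rw [ind_cg (e4 v), ind_and]
          ring
        · refine P.E_congr fun v _ => ?_
          rw [ind_cg (e4 v), ind_and]
      have e6 : P.pv (Zb 2) (F 2) u (f 2) = qF P Zb F 2 w (f 2) := P.pv_fac _ _ _ u w (hZ u w hz)
      rw [e5, e6]
    have e7 : P.ce Z (fun u => ind (F 0 u = f 0 ∧ F 1 u = f 1) *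
        |P.pv (fun u => ((F 0 u, F 1 u), Z u)) (F 2) u (f 2) - P.pv (Zb 2) (F 2) u (f 2)|) w = A / P.m Z w * g := by
      unfold FP.ce
      rw [div_mul_eq_mul_div]
      congr 1
      rw [hA, ← P.E_mul_const]
      refine P.E_congr fun u _ => ?_
      beta_reduce
      by_cases hz : Z u = Z w
      · by_cases hf : F 0 u = f 0 ∧ F 1 u = f 1
        · rw [e3 u hz hf.1 hf.2]
          ring
        · rw [ind_not hf]
          ring
      · rw [ind_not hz]
        ring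
    rw [e1, e2, e7]
    rcases A0.eq_or_lt with hA0 | hA0
    · have hB0 : Bf = 0 := le_antisymm (BA.trans hA0.symm.le) B0
      rw [hB0, ← hA0]
      simp
    · have h1 : Bf / P.m Z w - A / P.m Z w * qF P Zb F 2 w (f 2) =
          A / P.m Z w * (Bf / A - qF P Zb F 2 w (f 2)) := by
        field_simp
      rw [h1, abs_mul, abs_of_pos (div_pos hA0 hm)]
  unfold T3s
  refine (Finset.sum_le_sum fun f _ => key f).trans ?_
  rw [← P.ce_sum]
  refine P.ce_mono (fun u _ => le_of_eq ?_) w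
  have h3 := sum_let3 (i1 := (0 : Fin 3)) (i2 := 1) (i3 := 2) (by decide) (by decide) (by decide) (by decide) F
    (fun f => ind (F 0 u = f 0 ∧ F 1 u = f 1) *
      |P.pv (fun u => ((F 0 u, F 1 u), Z u)) (F 2) u (f 2) - P.pv (Zb 2) (F 2) u (f 2)|)
  rw [h3]
  have m1 : ∀ x y z : φ', mk3 (0 : Fin 3) 1 x y z 0 = x := fun x y z => mk3_1 x y z
  have m2 : ∀ x y z : φ', mk3 (0 : Fin 3) 1 x y z 1 = y := fun x y z => mk3_2 (by decide) x y z
  have m3 : ∀ x y z : φ', mk3 (0 : Fin 3) 1 x y z 2 = z := fun x y z => mk3_3 (by decide) (by decide) x y z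
  simp only [m1, m2, m3]
  rw [Finset.sum_eq_single (F 0 u)]
  · rw [Finset.sum_eq_single (F 1 u)]
    · unfold tvp
      refine Finset.sum_congr rfl fun z _ => ?_
      rw [ind_of ⟨rfl, rfl⟩, one_mul]
    · intro y _ hy
      refine Finset.sum_eq_zero fun z _ => ?_
      rw [ind_not (fun hh => hy hh.2.symm), zero_mul]
    · intro hn; exact absurd (FP.mem_vals (F 1) u) hn
  · intro x _ hx
    refine Finset.sum_eq_zero fun y _ => Finset.sum_eq_zero fun z _ => ?_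
    rw [ind_not (fun hh => hx hh.1.symm), zero_mul]
  · intro hn; exact absurd (FP.mem_vals (F 0) u) hn

end gen

section run

variable {X β γ φ : Type} [Fintype X] [Fintype β] [Fintype φ] [Nonempty X] [Nonempty β]
variable {D : HD (Fin 3) X β γ φ} {al : ℝ} {h : D.Thick al} {v : ℕ → Finset (Fin 3) → X → (Fin 3 → β) → Pt (Fin 3) X β φ}
variable {t q : ℕ}

/-- the bad pairs against the distance of the three tops -/
theorem BdP_sum {dd : ℝ} (hdd : 0 < dd) (w : Pt (Fin 3) X β φ) :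
    ∑ x ∈ vals (FQ v t 0), ∑ y ∈ vals (FQ v t 1), ind (BdP h v t q dd w x y) *
      mF2 (D.P h t) (ZQ D v q) (FQ v t) 0 1 w x y ≤ dd⁻¹ * T3s (D.P h t) (ZQ D v q) (ZbQ D v q) (FQ v t) w := by
  classical
  have h1 : ∀ x y, ind (BdP h v t q dd w x y) * mF2 (D.P h t) (ZQ D v q) (FQ v t) 0 1 w x y ≤
      dd⁻¹ * T3d h v t q w x y := by
    intro x y
    have h3 : 0 ≤ T3d h v t q w x y := Finset.sum_nonneg fun f _ => mul_nonneg (ind_nonneg _) (abs_nonneg _)
    by_cases hb : BdP h v t q dd w x y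
    · rw [ind_of hb, one_mul]
      have h2 : dd * mF2 (D.P h t) (ZQ D v q) (FQ v t) 0 1 w x y < T3d h v t q w x y := hb
      rw [inv_mul_eq_div, le_div_iff₀ hdd, mul_comm]
      exact h2.le
    · rw [ind_not hb, zero_mul]
      exact mul_nonneg (inv_nonneg.2 hdd.le) h3
  refine (Finset.sum_le_sum fun x _ => Finset.sum_le_sum fun y _ => h1 x y).trans (le_of_eq ?_)
  rw [Finset.sum_congr rfl fun x _ => (Finset.mul_sum _ _ _).symm, ← Finset.mul_sum]
  congr 1
  unfold T3d T3s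
  have h3 := sum_let3 (i1 := (0 : Fin 3)) (i2 := 1) (i3 := 2) (by decide) (by decide) (by decide) (by decide)
    (FQ (φ := φ) v t) (fun f => |pF (D.P h t) (ZQ D v q) (FQ v t) w f -
      mF2 (D.P h t) (ZQ D v q) (FQ v t) 0 1 w (f 0) (f 1) * qF (D.P h t) (ZbQ D v q) (FQ v t) 2 w (f 2)|)
  rw [h3]
  refine Finset.sum_congr rfl fun x hx => Finset.sum_congr rfl fun y hy => ?_
  have h4 := sum_let3 (i1 := (0 : Fin 3)) (i2 := 1) (i3 := 2) (by decide) (by decide) (by decide) (by decide)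
    (FQ (φ := φ) v t) (fun f => ind (f 0 = x ∧ f 1 = y) * |pF (D.P h t) (ZQ D v q) (FQ v t) w f -
      mF2 (D.P h t) (ZQ D v q) (FQ v t) 0 1 w x y * qF (D.P h t) (ZbQ D v q) (FQ v t) 2 w (f 2)|)
  rw [h4]
  have m1 : ∀ x y z : Tt X β φ, mk3 (0 : Fin 3) 1 x y z 0 = x := fun x y z => mk3_1 x y z
  have m2 : ∀ x y z : Tt X β φ, mk3 (0 : Fin 3) 1 x y z 1 = y := fun x y z => mk3_2 (by decide) x y z
  have m3 : ∀ x y z : Tt X β φ, mk3 (0 : Fin 3) 1 x y z 2 = z := fun x y z => mk3_3 (by decide) (by decide) x y z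
  simp only [m1, m2, m3]
  rw [Finset.sum_eq_single x]
  · rw [Finset.sum_eq_single y]
    · refine Finset.sum_congr rfl fun z _ => ?_
      rw [ind_of ⟨rfl, rfl⟩, one_mul]
    · intro y' _ hy'
      refine Finset.sum_eq_zero fun z _ => ?_
      rw [ind_not (fun hh => hy' hh.2), zero_mul]
    · intro hn; exact absurd hy hn
  · intro x' _ hx'
    refine Finset.sum_eq_zero fun y' _ => Finset.sum_eq_zero fun z _ => ?_
    rw [ind_not (fun hh => hx' hh.1), zero_mul]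
  · intro hn; exact absurd hx hn


section tv

variable {Om : Type*} [Fintype Om] {κ ι ζ ζ' : Type*}

theorem tvp_tri (Q P : FP Om) (X : Om → κ) (Y : Om → ι) (Z1 : Om → ζ) (Z2 : Om → ζ') (w : Om) :
    tvp Q P X Y Z1 w ≤ tvp Q P X Y Z2 w + tvp P P X Z1 Z2 w := by
  unfold tvp
  rw [← Finset.sum_add_distrib]
  refine Finset.sum_le_sum fun x _ => ?_
  have e : Q.pv Y X w x - P.pv Z1 X w x = (Q.pv Y X w x - P.pv Z2 X w x) - (P.pv Z1 X w x - P.pv Z2 X w x) := by ring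
  rw [e]
  exact abs_sub _ _

theorem tvp_two (Q P : FP Om) (X : Om → κ) (Y : Om → ι) (Z : Om → ζ) (w : Om) : tvp Q P X Y Z w ≤ 2 := by
  have h1 : tvp Q P X Y Z w ≤ ∑ x ∈ vals X, (Q.pv Y X w x + P.pv Z X w x) := by
    refine Finset.sum_le_sum fun x _ => (abs_sub _ _).trans ?_
    rw [abs_of_nonneg (Q.pv_nonneg _ _ _ _), abs_of_nonneg (P.pv_nonneg _ _ _ _)]
  rw [Finset.sum_add_distrib] at h1
  have h2 := pv_sum_le Q Y X w
  have h3 := pv_sum_le P Z X w
  linarith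

end tv

variable (h v t q) in
/-- alive at the state `q` : pairs of letters, public information -/
def AL (X1 del : ℝ) (w : Pt (Fin 3) X β φ) : Prop :=
  (∀ j l : Fin 3, j ≠ l → Real.exp (-X1) ≤ (muC D v (nc q ∅) (nn q) w).Pr (LK v q {j, l} w)) ∧
    del * (D.P h t).m (NP D v (t + 1) t) w ≤ (D.P h t).m (NP D v (nc q ∅) (nn q)) w

theorem pub_fac (S : St t q) (del : ℝ) : Fac (NPq (φ := φ) D v q) (fun w =>
    del * (D.P h t).m (NP D v (t + 1) t) w ≤ (D.P h t).m (NP D v (nc q ∅) (nn q)) w) := by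
  intro a b hab
  have h1 : (D.P h t).m (NP D v (t + 1) t) a = (D.P h t).m (NP D v (t + 1) t) b :=
    (D.P h t).Fac_m _ a b (NP_mono (D := D) (v := v) S.n0 S.m0 a b hab)
  have h2 : (D.P h t).m (NP D v (nc q ∅) (nn q)) a = (D.P h t).m (NP D v (nc q ∅) (nn q)) b :=
    (D.P h t).Fac_m _ a b hab
  show (_ ≤ _) = (_ ≤ _)
  rw [h1, h2]

theorem AL_fac (hv : Codes D v) (S : St t q) (X1 del : ℝ) : Fac (ZQ (φ := φ) D v q) (AL h v t q X1 del) := by
  intro a b hab
  have : Nonempty φ := ⟨a.2.2 0⟩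
  have h1 : ∀ j l : Fin 3, (muC D v (nc q ∅) (nn q) a).Pr (LK v q {j, l} a) =
      (muC D v (nc q ∅) (nn q) b).Pr (LK v q {j, l} b) := fun j l => mu_typ hv (ZQ_fCK q {j, l} a b hab)
  have h2 := pub_fac (h := h) S del a b (CK_fNPq q ∅ a b (ZQ_fCK q ∅ a b hab))
  beta_reduce at h2
  show (_ ∧ _) = (_ ∧ _)
  simp only [h1]
  rw [h2]

variable {N : Finset (Fin 3) → ℝ} {SS : Finset (Finset (Fin 3))} {dg : ℕ → X → ℝ} {prr : ℕ → Fin 3 → φ → φ} {T : ℕ}
  {Lam : ℝ}

/-- number of the third top -/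
def e3T (kap kp : ℝ) : ℝ := 16 * Real.sqrt (2 * kap) + 6 * kp

/-- number of `htrip` -/
def epT (e1 kap kp dd : ℝ) : ℝ := e1 + 2 * kp + Real.sqrt (dd⁻¹ * e3T kap kp + e1 + 2 * kp)

/-- **THE THIRD TOP AGAINST A PAIR**, from the pair -/
theorem trip_of [Nonempty φ] (H : D.Hyp dg prr al T Lam) (ht : t < T) (hv : Codes D v) (S : St t q)
    (B : Bk h N SS (Um v (t + 1)) t 2 0 1)
    (htop : ∀ j (a b : Pt (Fin 3) X β φ), (D.P h t).p a ≠ 0 → (D.P h t).p b ≠ 0 →
      ZbQ D v (5 * t) j a = ZbQ D v (5 * t) j b → (FQ v t j a = FQ v t j b ↔ a.2.2 j = b.2.2 j))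
    (hN0 : N ∅ = 1) {κ B0 X1 del : ℝ} (hκ : 0 ≤ κ) (hB0 : 0 ≤ B0) (hX1 : 0 ≤ X1) (hdel : 0 < del)
    (hE : ∀ u, (D.P h t).p u ≠ 0 →
      del * (D.P h t).m (NP D v (t + 1) t) u ≤ (D.P h t).m (NP D v (nc q ∅) (nn q)) u → ∀ i E,
      dvC D v (nc q ∅) (nn q) u i E ≤ κ * (muC D v (nc q ∅) (nn q) u).Pr E + B0)
    {kap : ℝ} (hk0 : 0 ≤ (N {0} + N {1}) * Real.log (1 / al))
    (hk : 2 * (X1 + Real.log (1 / del) + 1) + 2 * ((N {0} + N {1}) * Real.log (1 / al)) ≤ N (univ.erase 2) * kap)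
    {Aw : Pt (Fin 3) X β φ → Prop} (fA' : Fac (ZQ (φ := φ) D v q) Aw)
    (hAL : ∀ w, (D.P h t).p w ≠ 0 → Aw w → AL h v t q X1 del w)
    {e1 dd : ℝ} (he1 : 0 ≤ e1) (hdd : 0 < dd) (hp : PairE h v t q (fun w => ind (Aw w)) e1)
    {aw : Pt (Fin 3) X β φ → ℝ} (haw : ∀ w, (D.P h t).p w ≠ 0 → aw w ≤ ind (Aw w)) :
    TripE h v t q aw (epT e1 kap (κ + B0 * Real.exp X1) dd) dd := by
  classical
  set P := D.P h t with hP
  set kp := κ + B0 * Real.exp X1 with hkp
  have hkp0 : 0 ≤ kp := by have := Real.exp_pos X1; positivity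
  have he3 : 0 ≤ e3T kap kp := by unfold e3T; positivity
  have hs : ∀ i : Fin 3, nc q {i} ≤ nc q ∅ := fun i => by rw [S.n1 i]; exact S.n0
  have fpub := pub_fac (h := h) (v := v) S del
  have s0 : (univ.erase 0 : Finset (Fin 3)) = {1, 2} := by decide
  have s1 : (univ.erase 1 : Finset (Fin 3)) = {0, 2} := by decide
  have s2 : (univ.erase 2 : Finset (Fin 3)) = {0, 1} := by decide
  set al' : Pt (Fin 3) X β φ → ℝ := fun w => ind (Aw w) with hal'
  have a0 : ∀ w, 0 ≤ al' w := fun _ => ind_nonneg _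
  have a1 : ∀ w, al' w ≤ 1 := fun _ => ind_le_one _
  have hA : ∀ u, P.p u ≠ 0 → al' u ≠ 0 → AL h v t q X1 del u := by
    intro u hpu hu
    refine hAL u hpu ?_
    by_contra hcon
    exact hu (ind_not hcon)
  -- facts of the maps
  have z0c : Fac (ZbQ (φ := φ) D v q 0) (CK D v q {1, 2}) := by rw [← s0]; exact Zb_fCK hv q 0
  have cz0 : Fac (CK (φ := φ) D v q {1, 2}) (ZbQ D v q 0) := by rw [← s0]; exact CK_fZb hv q 0
  have z1c : Fac (ZbQ (φ := φ) D v q 1) (CK D v q {0, 2}) := by rw [← s1]; exact Zb_fCK hv q 1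
  have cz1 : Fac (CK (φ := φ) D v q {0, 2}) (ZbQ D v q 1) := by rw [← s1]; exact CK_fZb hv q 1
  have hz : Fac (fun w : Pt (Fin 3) X β φ => (ZbQ D v q 0 w, ZbQ D v q 1 w)) (ZQ D v q) := by
    intro a b hab
    rw [Prod.mk.injEq] at hab
    refine CK_fZQ hv q a b (CK_union (K := {1, 2}) (K' := {0, 2}) (by decide) a b ?_)
    rw [Prod.mk.injEq]
    exact ⟨z0c a b hab.1, z1c a b hab.2⟩
  have c0 : Fac (ZbQ (φ := φ) D v q 0) (CK D v q {2}) := z0c.trans (CK_sub (by decide))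
  have c1 : Fac (ZbQ (φ := φ) D v q 1) (CK D v q {2}) := z1c.trans (CK_sub (by decide))
  have hrho : ∀ u, rho P (CK D v q {2}) (ZbQ D v q 0) (ZbQ D v q 1) (ZQ D v q) u =
      rho P (CK D v q {2}) (CK D v q {1, 2}) (CK D v q {0, 2}) (CK D v q univ) u := by
    intro u
    unfold rho
    rw [P.m_congr z0c cz0, P.m_congr z1c cz1, P.m_congr (ZQ_fCK q univ) (CK_fZQ hv q)]
  have hk0' : ∀ w, P.p w ≠ 0 → P.ce (ZbQ D v q 0) (fun u => al' u *
      |rho P (CK D v q {2}) (ZbQ D v q 0) (ZbQ D v q 1) (ZQ D v q) u - 1|) w ≤ 2 * kp := by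
    intro w hw
    have h1 := row3 (h := h) (t := t) (q := q) (X1 := X1) hv hs hκ hB0 hE (i := 0) (k := 1) (o := 2) (by decide) (by decide)
      (by decide) a1 (fun u hu ha => ⟨(hA u hu ha).2, (hA u hu ha).1 1 2 (by decide)⟩) hw
    rw [P.ce_congr_map z0c cz0]
    refine (le_of_eq ?_).trans h1
    refine P.ce_congr (fun u _ => ?_) w
    rw [hrho, rho_comm]
  have hk1' : ∀ w, P.p w ≠ 0 → P.ce (ZbQ D v q 1) (fun u => al' u *
      |rho P (CK D v q {2}) (ZbQ D v q 0) (ZbQ D v q 1) (ZQ D v q) u - 1|) w ≤ 2 * kp := by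
    intro w hw
    have h1 := row3 (h := h) (t := t) (q := q) (X1 := X1) hv hs hκ hB0 hE (i := 1) (k := 0) (o := 2) (by decide) (by decide)
      (by decide) a1 (fun u hu ha => ⟨(hA u hu ha).2, (hA u hu ha).1 0 2 (by decide)⟩) hw
    rw [P.ce_congr_map z1c cz1]
    refine (le_of_eq ?_).trans h1
    refine P.ce_congr (fun u _ => ?_) w
    rw [hrho]
  -- the pair on classes
  have hpc : ∀ w, P.p w ≠ 0 → P.ce (CK D v q {2}) (fun u => ∑ x ∈ vals (FQ v t 0), ∑ y ∈ vals (FQ v t 1),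
      al' u * |mF2 P (ZQ D v q) (FQ v t) 0 1 u x y - qF P (ZbQ D v q) (FQ v t) 0 u x *
        qF P (ZbQ D v q) (FQ v t) 1 u y|) w ≤ e1 := by
    intro w hw
    have hm := P.m_pos (CK D v q {2}) hw
    have fC : Fac (CK (φ := φ) D v q {2}) (fun u => ind (CK D v q {2} u = CK D v q {2} w)) :=
      Fac.ind fun a b hab => by rw [hab]
    have h1 := hp 0 1 (by decide) (fun u _ => ind (CK D v q {2} u = CK D v q {2} w))
      (fun u _ => ind (CK D v q {2} u = CK D v q {2} w)) (fun _ => c0.trans fC) (fun _ => c1.trans fC)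
      (fun _ _ => ind_nonneg _) (fun _ _ => ind_nonneg _)
    have h2 : ∀ i : Fin 3, P.E (fun u => ∑ x ∈ vals (FQ v t i), qF P (ZbQ D v q) (FQ v t) i u x *
        ind (CK D v q {2} u = CK D v q {2} w) ^ 2) ≤ P.m (CK D v q {2}) w := by
      intro i
      refine P.E_mono fun u _ => ?_
      rw [← Finset.sum_mul]
      have h3 : ∑ x ∈ vals (FQ v t i), qF P (ZbQ D v q) (FQ v t) i u x ≤ 1 := pv_sum_le P _ _ u
      have h4 : ind (CK D v q {2} u = CK D v q {2} w) ^ 2 = ind (CK D v q {2} u = CK D v q {2} w) := by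
        by_cases hc : CK D v q {2} u = CK D v q {2} w
        · rw [ind_of hc]; norm_num
        · rw [ind_not hc]; norm_num
      rw [h4]
      exact mul_le_of_le_one_left (ind_nonneg _) h3
    have h5 : Real.sqrt (P.E (fun u => ∑ x ∈ vals (FQ v t 0), qF P (ZbQ D v q) (FQ v t) 0 u x *
        ind (CK D v q {2} u = CK D v q {2} w) ^ 2) * P.E (fun u => ∑ x ∈ vals (FQ v t 1),
          qF P (ZbQ D v q) (FQ v t) 1 u x * ind (CK D v q {2} u = CK D v q {2} w) ^ 2)) ≤ P.m (CK D v q {2}) w := by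
      refine Real.sqrt_le_iff.2 ⟨hm.le, ?_⟩
      rw [sq]
      exact mul_le_mul (h2 0) (h2 1) (P.E_nonneg fun u _ => Finset.sum_nonneg fun x _ =>
        mul_nonneg (P.pv_nonneg _ _ _ _) (sq_nonneg _)) hm.le
    unfold FP.ce
    rw [div_le_iff₀ hm]
    refine le_trans (le_of_eq ?_) (h1.trans (mul_le_mul_of_nonneg_left h5 he1))
    refine P.E_congr fun u _ => ?_
    rw [Finset.mul_sum]
    refine Finset.sum_congr rfl fun x _ => ?_
    rw [Finset.mul_sum]
    refine Finset.sum_congr rfl fun y _ => ?_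
    by_cases hc : CK D v q {2} u = CK D v q {2} w
    · rw [ind_of hc]; ring
    · rw [ind_not hc]; ring
  -- the bad pairs on classes
  have hH : ∀ w, P.p w ≠ 0 → P.ce (CK D v q {2}) (fun u => ∑ x ∈ vals (FQ v t 0), ∑ y ∈ vals (FQ v t 1),
      al' u * (ind (BdP h v t q dd u x y) * mF2 P (ZQ D v q) (FQ v t) 0 1 u x y)) w ≤ dd⁻¹ * e3T kap kp := by
    intro w hw
    have e0 : ∀ u, ∑ x ∈ vals (FQ v t 0), ∑ y ∈ vals (FQ v t 1),
        al' u * (ind (BdP h v t q dd u x y) * mF2 P (ZQ D v q) (FQ v t) 0 1 u x y) =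
        al' u * ∑ x ∈ vals (FQ v t 0), ∑ y ∈ vals (FQ v t 1),
          ind (BdP h v t q dd u x y) * mF2 P (ZQ D v q) (FQ v t) 0 1 u x y := by
      intro u
      rw [Finset.mul_sum]
      exact Finset.sum_congr rfl fun x _ => by rw [Finset.mul_sum]
    simp only [e0]
    by_cases hex : ∃ u, P.p u ≠ 0 ∧ al' u ≠ 0 ∧ CK D v q {2} u = CK D v q {2} w
    swap
    · rw [ce_aw_zero P hex]
      exact mul_nonneg (inv_nonneg.2 hdd.le) he3
    obtain ⟨u, hu, hau, huw⟩ := hex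
    have hAu := hA u hu hau
    rw [← P.ce_fac (CK D v q {2}) _ u w huw]
    set τ := tvp P P (FQ v t 2) (Yq v t D q 0 1) (ZbQ D v q 2) with hτ
    have h1 : ∀ u', P.p u' ≠ 0 → al' u' * ∑ x ∈ vals (FQ v t 0), ∑ y ∈ vals (FQ v t 1),
        ind (BdP h v t q dd u' x y) * mF2 P (ZQ D v q) (FQ v t) 0 1 u' x y ≤
        dd⁻¹ * P.ce (ZQ D v q) (fun u'' => al' u'' * τ u'') u' := by
      intro u' hu'
      have h2 := BdP_sum (h := h) (v := v) (t := t) (q := q) hdd u'
      have h3 := T3s_le P (Z := ZQ D v q) (Zb := ZbQ D v q) (F := FQ v t) (ZQ_Zb q 2) hu'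
      have h4 : P.ce (ZQ D v q) (fun u'' => al' u'' * τ u'') u' = al' u' * P.ce (ZQ D v q) τ u' :=
        P.ce_mul (fA'.comp fun z => ind z) τ u'
      rw [h4]
      have h5 := mul_le_mul_of_nonneg_left (h2.trans (mul_le_mul_of_nonneg_left h3 (inv_nonneg.2 hdd.le))) (a0 u')
      refine h5.trans (le_of_eq ?_)
      show al' u' * (dd⁻¹ * P.ce (ZQ D v q) τ u') = dd⁻¹ * (al' u' * P.ce (ZQ D v q) τ u')
      ring
    refine (P.ce_mono h1 u).trans ?_
    rw [P.ce_smul, P.ce_tower (ZQ_fCK q {2})]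
    refine mul_le_mul_of_nonneg_left ?_ (inv_nonneg.2 hdd.le)
    have h6 : ∀ u', al' u' * τ u' ≤ tvp P P (FQ v t 2) (Yq v t D q 0 1) (ZbQ D v (5 * t) 2) u' +
        al' u' * tvp P P (FQ v t 2) (ZbQ D v q 2) (ZbQ D v (5 * t) 2) u' := by
      intro u'
      have h7 := tvp_tri P P (FQ v t 2) (Yq v t D q 0 1) (ZbQ D v q 2) (ZbQ D v (5 * t) 2) u'
      have h8 := mul_le_mul_of_nonneg_left h7 (a0 u')
      have h9 : al' u' * tvp P P (FQ v t 2) (Yq v t D q 0 1) (ZbQ D v (5 * t) 2) u' ≤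
          tvp P P (FQ v t 2) (Yq v t D q 0 1) (ZbQ D v (5 * t) 2) u' :=
        mul_le_of_le_one_left (tvp_nonneg _) (a1 u')
      rw [mul_add] at h8
      linarith
    refine (P.ce_mono (fun u' _ => h6 u') u).trans ?_
    rw [P.ce_add]
    have hlog : Real.exp (-Real.log (1 / del)) = del := by
      rw [one_div, Real.log_inv, neg_neg, Real.exp_log hdel]
    have hlog0 : Real.exp (-(X1 + Real.log (1 / del))) = del * Real.exp (-X1) := by
      rw [neg_add, Real.exp_add, hlog, mul_comm]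
    have g1 : P.ce (CK D v q {2}) (tvp P P (FQ v t 2) (Yq v t D q 0 1) (ZbQ D v (5 * t) 2)) u ≤
        8 * Real.sqrt (2 * kap) := by
      refine own_far (h := h) H ht hv S B htop hu (L := X1 + Real.log (1 / del)) ?_ hN0 hk
      rw [hlog0]
      refine VK_ge (h := h) hv S u {2} hdel.le hAu.2 ?_
      exact (hAu.1 0 2 (by decide)).trans (LK_anti (by decide) u _)
    have g2 : P.ce (CK D v q {2}) (fun u' => al' u' * tvp P P (FQ v t 2) (ZbQ D v q 2) (ZbQ D v (5 * t) 2) u') u ≤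
        P.ce (NPq D v q) (tvp P P (FQ v t 2) (ZbQ D v q 2) (ZbQ D v (5 * t) 2)) u + 2 * (3 * kp) := by
      refine own_test (h := h) (t := t) (q := q) (X1 := X1) hv hs hκ hB0 fpub hE (i := 0) (k := 1) (o := 2) (by decide)
        (by decide) (by decide) a0 a1 (fun u' hu' ha => ⟨(hA u' hu' ha).2, (hA u' hu' ha).1⟩) ?_ (fun u' => tvp_nonneg u')
        (fun u' => tvp_two _ _ _ _ _ u') hu
      have h5 : 5 * t ≤ q := by
        by_contra hcon
        have h8 : nc q {0} ≤ nc (5 * (t - 1) + 4) {0} := nc_mono (by omega) (pth_sing 0)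
        have h9 := (St_j (t := t - 1) (j := 4) (by omega)).n1 0
        have h10 := S.n1 0
        omega
      have h11 : Fac (CK (φ := φ) D v q {0, 1}) (ZbQ D v q 2) := by rw [← s2]; exact CK_fZb hv q 2
      exact h11.trans (tvp_fac (ZbQ_mono h5 2))
    have g3 : P.ce (NPq D v q) (tvp P P (FQ v t 2) (ZbQ D v q 2) (ZbQ D v (5 * t) 2)) u ≤ 8 * Real.sqrt (2 * kap) := by
      refine pub_far (h := h) H ht hv S B htop hu (L := Real.log (1 / del)) ?_ hN0 ?_
      · rw [hlog]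
        have h3 := VK_ge (h := h) hv S u ∅ hdel.le hAu.2 (p0 := 1) ?_
        · rwa [mul_one] at h3
        · refine le_of_eq ?_
          unfold FP.Pr
          refine ((FP.E_congr _ fun x _ => ?_).trans (FP.E_const _ 1)).symm
          exact ind_of (fun j hj => absurd hj (by simp))
      · linarith
    unfold e3T
    linarith
  -- assembly
  intro l m fl fm l0 m0
  have hp' := hp 0 1 (by decide) l m fl fm l0 m0
  have key := trip_hs P (C := CK D v q {2}) (Z0 := ZbQ D v q 0) (Z1 := ZbQ D v q 1) (Z := ZQ D v q) hz c0 c1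
    (vals (FQ v t 0)) (vals (FQ v t 1)) (q0 := qF P (ZbQ D v q) (FQ v t) 0) (q1 := qF P (ZbQ D v q) (FQ v t) 1)
    (mm := mF2 P (ZQ D v q) (FQ v t) 0 1) (Hb := BdP h v t q dd) (fun x => qF_facQ h t q 0 x)
    (fun y => qF_facQ h t q 1 y) (fun w x => P.pv_nonneg _ _ _ _) (fun w y => P.pv_nonneg _ _ _ _)
    (fun w => pv_sum_le P _ _ w) (fun w => pv_sum_le P _ _ w) a0 a1 (d := 2 * kp) (e1 := e1) (eH := dd⁻¹ * e3T kap kp)
    (by positivity) he1 (mul_nonneg (inv_nonneg.2 hdd.le) he3) hk0' hk1' hpc hH fl fm l0 m0 hp'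
  refine le_trans ?_ key
  refine P.E_mono fun w hw => Finset.sum_le_sum fun x _ => Finset.sum_le_sum fun y _ => ?_
  refine mul_le_mul_of_nonneg_right (mul_le_mul_of_nonneg_right (haw w hw) ?_) (mul_nonneg (l0 w x) (m0 w y))
  exact mul_nonneg (ind_nonneg _) (P.pv_nonneg _ _ _ _)

end run

end

end Pool.Agent.GMH.TP
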