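import Pool.Agent.GMH.Three

/-!
# GMH/Tree (helper99): THE DECISION TREE OF A STATIC RELATION (notes 3960 (1), 3966, 3973, answer of helper79 to 3978)

Fixed `a`.  Faces `e : ι` (for example `(b, c)`, `(b, d)`, `(c, d)`; at the exact `b` only the first two), `Y e s` = exact face
`e` and the cell of the third vertex at the time `s`; the node `nd s` is a function of `Y e s`.  Relation `R`, threshold `v`.
`de e s` = `P (R | Y e s)`, face `e` heavy at `s` : `v ≤ de e s`, `fh e s` : heavy for the first time.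
`K e s` : covers of the face `e`, any event seen by `Y e s`.  `cln s` : no face is heavy before `s`.
`cd e s` : `cln s`, no face of smaller rank is heavy at `s`, no face is covered at a time `≤ s`.
`sel e s` : choice seen by `Y e s` (good rows); RELEASED : `fh e s`, `sel e s`, `cd e s` for some `e` and `s ≤ σ`;
LEFT : `fh e s`, `cd e s`, not `sel e s` for some `e` and `s ≤ σ`.

* `light_end` : `E 1_R 1[de e σ < v] G e σ ≤ v E G e σ`;
* `cover_first` : `P (R, covered at s ≤ σ, e not heavy before s) ≤ h v P (K e by σ) + P (K e 0)`;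
* `tree_unsigned`, `tree_signed`.
-/

set_option autoImplicit false
set_option linter.unusedSectionVars false

namespace Pool.Agent.GMH.Tree

open Finset Pool.Agent.PWZ Pool.Agent.M3 Pool.Agent.GMH.Gdy Pool.Agent.GMH.CR Pool.Agent.GMH.Three

noncomputable section

variable {Om : Type*} [Fintype Om] {P : FP Om}

section one

variable {κ ν : ℕ → Type*} {Y : ∀ t, Om → κ t} {nd : ∀ t, Om → ν t} {σ : Om → ℕ} {T : ℕ} {R : Om → Prop} {v h : ℝ}

theorem stp_le (fY : Filt Y) (hY : ∀ s, Fac (Y s) (nd s)) (hσ : Stp nd σ) {s : ℕ} {x w : Om} (e : Y s x = Y s w) :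
    s ≤ σ x ↔ s ≤ σ w := by
  rcases Nat.eq_zero_or_pos s with rfl | hs
  · simp
  · obtain ⟨s', rfl⟩ : ∃ s', s = s' + 1 := ⟨s - 1, by omega⟩
    have := hσ s' x w (hY s' x w (fY s' x w e))
    omega

theorem stp_eq (fY : Filt Y) (hY : ∀ s, Fac (Y s) (nd s)) (hσ : Stp nd σ) {s : ℕ} {x w : Om} (e : Y s x = Y s w) :
    σ x = s ↔ σ w = s := by
  have h1 := stp_le fY hY hσ e
  have h2 := hσ s x w (hY s x w e)
  omega

/-- **light at the end** -/
theorem light_end (fY : Filt Y) (hY : ∀ s, Fac (Y s) (nd s)) (hσ : Stp nd σ) (hT : ∀ w, σ w < T) (v0 : 0 ≤ v)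
    {G : ℕ → Om → ℝ} (hG : ∀ s, Fac (Y s) (G s)) (hG0 : ∀ s w, 0 ≤ G s w) :
    P.E (fun w => ind (R w ∧ cp P Y (σ w) R w < v) * G (σ w) w) ≤ v * P.E (fun w => G (σ w) w) := by
  rw [E_stop hT (fun s w => ind (R w ∧ cp P Y s R w < v) * G s w), E_stop hT G, Finset.mul_sum]
  refine Finset.sum_le_sum fun s _ => ?_
  have hf : Fac (Y s) (fun w => ind (σ w = s) * (ind (cp P Y s R w < v) * G s w)) := fun x w e => by
    show ind (σ x = s) * (ind (cp P Y s R x < v) * G s x) = ind (σ w = s) * (ind (cp P Y s R w < v) * G s w)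
    rw [propext (stp_eq fY hY hσ e), cp_fac s R x w e, hG s x w e]
  have e1 : P.E (fun w => ind (σ w = s) * (ind (R w ∧ cp P Y s R w < v) * G s w)) =
      P.E (fun w => (ind (σ w = s) * (ind (cp P Y s R w < v) * G s w)) * ind (R w)) :=
    P.E_congr fun w _ => by
      rw [ind_and]
      ring
  rw [e1, ← P.E_mul_ce hf, ← FP.E_smul]
  refine P.E_mono fun w _ => ?_
  have h0 : 0 ≤ ind (σ w = s) * G s w := mul_nonneg (ind_nonneg _) (hG0 s w)
  by_cases h1 : cp P Y s R w < v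
  · rw [ind_of h1, one_mul]
    have h2 : P.ce (Y s) (fun w => ind (R w)) w ≤ v := h1.le
    have := mul_le_mul_of_nonneg_left h2 h0
    linarith
  · rw [ind_not h1]
    have := mul_nonneg v0 h0
    linarith

/-- **an event at its first time, before the face is heavy** -/
theorem cover_first (fY : Filt Y) (hY : ∀ s, Fac (Y s) (nd s)) (hσ : Stp nd σ) (hT : ∀ w, σ w < T) (v0 : 0 ≤ v)
    (h0 : 0 ≤ h) (hm : ∀ s w, P.p w ≠ 0 → P.m (Y s) w ≤ h * P.m (Y (s + 1)) w) {K : ℕ → Om → Prop}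
    (hK : ∀ s x w, Y s x = Y s w → (K s x ↔ K s w)) :
    P.Pr (fun w => ∃ s, (fst K s w ∧ s ≤ σ w ∧ ∀ s' < s, cp P Y s' R w < v) ∧ R w) ≤
      h * v * P.Pr (fun w => ∃ s ≤ σ w, K s w) + P.Pr (K 0) := by
  classical
  set f : ℕ → Om → Prop := fun s w => fst K s w ∧ s ≤ σ w ∧ ∀ s' < s, cp P Y s' R w < v with hf
  have hff : ∀ s, Fac (Y s) (fun w => ind (f s w)) := fun s => Fac.ind fun x w e => by
    rw [hf]
    show (fst K s x ∧ s ≤ σ x ∧ ∀ s' < s, cp P Y s' R x < v) ↔ (fst K s w ∧ s ≤ σ w ∧ ∀ s' < s, cp P Y s' R w < v)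
    have a1 : fst K s x ↔ fst K s w := by
      unfold fst
      rw [hK s x w e]
      exact and_congr_right fun _ => forall_congr' fun s' => forall_congr' fun hs' =>
        not_congr (hK s' x w (fY.le hs'.le x w e))
    rw [a1, stp_le fY hY hσ e]
    refine and_congr_right fun _ => and_congr_right fun _ => forall_congr' fun s' => forall_congr' fun hs' => ?_
    rw [cp_fac s' R x w (fY.le hs'.le x w e)]
  have hf1 : ∀ w s s', f s w → f s' w → s = s' := fun w s s' a b => fst_one s s' a.1 b.1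
  have hfT : ∀ s w, f s w → s < T := fun s w a => lt_of_le_of_lt a.2.1 (hT w)
  have h1 : ∀ s, P.E (fun w => ind (f (s + 1) w) * ind (R w)) ≤ h * v * P.E (fun w => ind (f (s + 1) w)) := by
    intro s
    rw [← P.E_mul_ce (hff (s + 1)), ← FP.E_smul]
    refine P.E_mono fun w hw => ?_
    by_cases h2 : f (s + 1) w
    · rw [ind_of h2, one_mul, mul_one]
      have h3 := cp_ratio (P := P) (Y := Y) (h := h) (s := s) (t := s + 1) (fY s) hw (hm s w hw) R
      have h4 := mul_le_mul_of_nonneg_left (h2.2.2 s (Nat.lt_succ_self s)).le h0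
      exact h3.trans h4
    · rw [ind_not h2]
      simp
  have hqq : 0 ≤ h * v := mul_nonneg h0 v0
  have h2 : ∀ s ∈ range T, P.E (fun w => ind (f s w) * ind (R w)) ≤
      h * v * P.E (fun w => ind (f s w)) + (if s = 0 then P.Pr (K 0) else 0) := by
    intro s _
    rcases Nat.eq_zero_or_pos s with rfl | hs0
    · rw [if_pos rfl]
      have h3 : P.E (fun w => ind (f 0 w) * ind (R w)) ≤ P.Pr (K 0) := P.E_mono fun w _ =>
        (mul_le_of_le_one_right (ind_nonneg _) (ind_le_one _)).trans (ind_mono fun a => a.1.1)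
      have h4 : 0 ≤ h * v * P.E (fun w => ind (f 0 w)) := mul_nonneg hqq (P.E_nonneg fun _ _ => ind_nonneg _)
      linarith
    · obtain ⟨s', rfl⟩ : ∃ s', s = s' + 1 := ⟨s - 1, by omega⟩
      rw [if_neg (by omega), add_zero]
      exact h1 s'
  have e1 : P.Pr (fun w => ∃ s, f s w ∧ R w) = ∑ s ∈ range T, P.E (fun w => ind (f s w) * ind (R w)) := by
    unfold FP.Pr
    rw [← FP.E_sum]
    refine P.E_congr fun w _ => ?_
    rw [← sum_ind' (A := fun s => f s w ∧ R w) (fun s s' a b => hf1 w s s' a.1 b.1) (fun s a => hfT s w a.1)]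
    exact Finset.sum_congr rfl fun s _ => ind_and _ _
  have e2 : ∑ s ∈ range T, P.E (fun w => ind (f s w)) ≤ P.Pr (fun w => ∃ s ≤ σ w, K s w) := by
    rw [← FP.E_sum]
    refine P.E_mono fun w _ => ?_
    rw [sum_ind' (fun s s' => hf1 w s s') (fun s => hfT s w)]
    exact ind_mono fun ⟨s, a⟩ => ⟨s, a.2.1, a.1.1⟩
  rw [e1]
  refine (Finset.sum_le_sum h2).trans ?_
  rw [Finset.sum_add_distrib, ← Finset.mul_sum, Finset.sum_ite_eq' (range T) 0]
  have h6 := mul_le_mul_of_nonneg_left e2 hqq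
  have h7 := P.Pr_nonneg (K 0)
  split_ifs <;> linarith

/-- the signed part of one face: `ψ` restricted to the event `c s` has mean `≤ th s` where `f s` holds -/
theorem signed_one {f c : ℕ → Om → Prop} (hf : ∀ s x w, Y s x = Y s w → (f s x ↔ f s w)) {ψ : Om → ℝ}
    {th : ℕ → Om → ℝ} (hth : ∀ s w, P.p w ≠ 0 → f s w → P.ce (Y s) (fun x => ind (c s x) * ψ x) w ≤ th s w) (s : ℕ) :
    P.E (fun w => ind (f s w ∧ c s w) * ψ w) ≤ P.E (fun w => ind (f s w) * th s w) := by
  have hff : Fac (Y s) (fun w => ind (f s w)) := Fac.ind fun x w e => hf s x w e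
  have e1 : P.E (fun w => ind (f s w ∧ c s w) * ψ w) = P.E (fun w => ind (f s w) * (ind (c s w) * ψ w)) :=
    P.E_congr fun w _ => by rw [ind_and]; ring
  rw [e1, ← P.E_mul_ce hff]
  refine P.E_mono fun w hw => ?_
  by_cases h1 : f s w
  · rw [ind_of h1, one_mul, one_mul]
    exact hth s w hw h1
  · rw [ind_not h1, zero_mul, zero_mul]

end one

/-! ## several faces -/

section faces

variable {ι : Type*} [Fintype ι] {κ : ι → ℕ → Type*} {ν : ℕ → Type*} {Y : ∀ e t, Om → κ e t} {nd : ∀ t, Om → ν t}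
  {R : Om → Prop} {v h : ℝ} {K sel : ι → ℕ → Om → Prop} {rk : ι → ℕ} {σ : Om → ℕ} {T : ℕ}

variable (P Y R v) in
/-- the face `e` is heavy -/
def hvy (e : ι) (s : ℕ) (w : Om) : Prop := v ≤ cp P (Y e) s R w

variable (P Y R v) in
/-- the face `e` is heavy for the first time -/
def fh (e : ι) (s : ℕ) (w : Om) : Prop := fst (hvy P Y R v e) s w

variable (P Y R v K rk) in
/-- nothing is heavy before, nothing of smaller rank is heavy now, nothing is covered -/
def cd (e : ι) (s : ℕ) (w : Om) : Prop := (∀ s' < s, ∀ e', ¬ hvy P Y R v e' s' w) ∧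
  (∀ e', rk e' < rk e → ¬ hvy P Y R v e' s w) ∧ ∀ s' ≤ s, ∀ e', ¬ K e' s' w

variable (P Y R v K rk sel σ) in
/-- released by the face `e` at the time `s` -/
def rel (e : ι) (s : ℕ) (w : Om) : Prop := (fh P Y R v e s w ∧ sel e s w ∧ s ≤ σ w) ∧ cd P Y R v K rk e s w

variable (P Y R v K rk sel σ) in
/-- released -/
def Rel (w : Om) : Prop := ∃ e, ∃ s, rel P Y R v K sel rk σ e s w

variable (P Y R v K rk sel σ) in
/-- left -/
def Left (w : Om) : Prop := ∃ e, ∃ s, (fh P Y R v e s w ∧ ¬ sel e s w ∧ s ≤ σ w) ∧ cd P Y R v K rk e s w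

theorem hvy_fac (e : ι) (s : ℕ) {x w : Om} (h1 : Y e s x = Y e s w) : hvy P Y R v e s x ↔ hvy P Y R v e s w := by
  unfold hvy
  rw [cp_fac s R x w h1]

theorem fh_fac (fY : ∀ e, Filt (Y e)) (e : ι) (s : ℕ) {x w : Om} (h1 : Y e s x = Y e s w) :
    fh P Y R v e s x ↔ fh P Y R v e s w := by
  unfold fh fst
  rw [hvy_fac e s h1]
  exact and_congr_right fun _ => forall_congr' fun s' => forall_congr' fun hs' =>
    not_congr (hvy_fac e s' ((fY e).le hs'.le x w h1))

/-- a tuple is released once -/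
theorem rel_one (hrk : Function.Injective rk) {e e' : ι} {s s' : ℕ} {w : Om} (h1 : rel P Y R v K sel rk σ e s w)
    (h2 : rel P Y R v K sel rk σ e' s' w) : e = e' ∧ s = s' := by
  have hs : s = s' := by
    rcases lt_trichotomy s s' with h3 | h3 | h3
    · exact absurd h1.1.1.1 (h2.2.1 s h3 e)
    · exact h3
    · exact absurd h2.1.1.1 (h1.2.1 s' h3 e')
  subst hs
  refine ⟨?_, rfl⟩
  rcases lt_trichotomy (rk e) (rk e') with h3 | h3 | h3
  · exact absurd h1.1.1.1 (h2.2.2.1 e h3)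
  · exact hrk h3
  · exact absurd h2.1.1.1 (h1.2.2.1 e' h3)

theorem ind_Rel (hrk : Function.Injective rk) (hT : ∀ w, σ w < T) (w : Om) :
    ind (Rel P Y R v K sel rk σ w) = ∑ e, ∑ s ∈ range T, ind (rel P Y R v K sel rk σ e s w) := by
  classical
  by_cases h1 : Rel P Y R v K sel rk σ w
  · obtain ⟨e, s, h2⟩ := h1
    rw [ind_of ⟨e, s, h2⟩, Finset.sum_eq_single e, Finset.sum_eq_single s, ind_of h2]
    · intro s' _ hs'
      exact ind_not fun h3 => hs' (rel_one hrk h3 h2).2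
    · intro h3
      exact absurd (mem_range.2 (lt_of_le_of_lt h2.1.2.2 (hT w))) h3
    · intro e' _ he'
      exact Finset.sum_eq_zero fun s' _ => ind_not fun h3 => he' (rel_one hrk h3 h2).1
    · intro h3
      exact absurd (mem_univ _) h3
  · rw [ind_not h1]
    exact (Finset.sum_eq_zero fun e _ => Finset.sum_eq_zero fun s _ => ind_not fun h2 => h1 ⟨e, s, h2⟩).symm

/-- **THE SIGNED PART** -/
theorem tree_signed (fY : ∀ e, Filt (Y e)) (hY : ∀ e s, Fac (Y e s) (nd s)) (hσ : Stp nd σ) (hT : ∀ w, σ w < T)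
    (hrk : Function.Injective rk) (hsel : ∀ e s x w, Y e s x = Y e s w → (sel e s x ↔ sel e s w)) {ψ : Om → ℝ}
    {th : ι → ℕ → Om → ℝ}
    (hth : ∀ e s w, P.p w ≠ 0 → fh P Y R v e s w → sel e s w → s ≤ σ w →
      P.ce (Y e s) (fun x => ind (cd P Y R v K rk e s x) * ψ x) w ≤ th e s w) :
    P.E (fun w => ind (Rel P Y R v K sel rk σ w) * ψ w) ≤
      ∑ e, ∑ s ∈ range T, P.E (fun w => ind (fh P Y R v e s w ∧ sel e s w ∧ s ≤ σ w) * th e s w) := by
  have e1 : P.E (fun w => ind (Rel P Y R v K sel rk σ w) * ψ w) =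
      ∑ e, ∑ s ∈ range T, P.E (fun w => ind (rel P Y R v K sel rk σ e s w) * ψ w) := by
    have e2 : P.E (fun w => ind (Rel P Y R v K sel rk σ w) * ψ w) =
        P.E (fun w => ∑ e, ∑ s ∈ range T, ind (rel P Y R v K sel rk σ e s w) * ψ w) :=
      P.E_congr fun w _ => by
        rw [ind_Rel hrk hT w, Finset.sum_mul]
        exact Finset.sum_congr rfl fun e _ => Finset.sum_mul _ _ _
    rw [e2, FP.E_sum]
    exact Finset.sum_congr rfl fun e _ => FP.E_sum _ _ _
  rw [e1]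
  refine Finset.sum_le_sum fun e _ => Finset.sum_le_sum fun s _ => ?_
  exact signed_one (Y := Y e) (f := fun s w => fh P Y R v e s w ∧ sel e s w ∧ s ≤ σ w)
    (c := fun s w => cd P Y R v K rk e s w) (fun s x w a => by
      rw [fh_fac fY e s a, hsel e s x w a, stp_le (fY e) (hY e) hσ a]) (th := th e)
    (fun s w hw a => hth e s w hw a.1 a.2.1 a.2.2) s

/-- **THE UNSIGNED PART** -/
theorem tree_unsigned (fY : ∀ e, Filt (Y e)) (hY : ∀ e s, Fac (Y e s) (nd s)) (hσ : Stp nd σ) (hT : ∀ w, σ w < T)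
    (v0 : 0 ≤ v) (h0 : 0 ≤ h) (hm : ∀ e s w, P.p w ≠ 0 → P.m (Y e s) w ≤ h * P.m (Y e (s + 1)) w)
    (hK : ∀ e s x w, Y e s x = Y e s w → (K e s x ↔ K e s w))
    {G : ι → ℕ → Om → ℝ} (hG : ∀ e s, Fac (Y e s) (G e s)) (hG0 : ∀ e s w, 0 ≤ G e s w)
    {W : Om → ℝ} (hW0 : ∀ w, 0 ≤ W w) (hW1 : ∀ w, W w ≤ 1) (hWG : ∀ w, W w ≤ ∑ e, G e (σ w) w) :
    P.E (fun w => ind (R w ∧ ¬ Rel P Y R v K sel rk σ w) * W w) ≤
      v * ∑ e, P.E (fun w => G e (σ w) w) +
        ∑ e, (h * v * P.Pr (fun w => ∃ s ≤ σ w, K e s w) + P.Pr (K e 0)) +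
        P.E (fun w => ind (R w ∧ Left P Y R v K sel rk σ w) * W w) := by
  classical
  set Q : ι → Om → Prop := fun e w =>
    ∃ s, (fst (K e) s w ∧ s ≤ σ w ∧ ∀ s' < s, cp P (Y e) s' R w < v) ∧ R w with hQ
  have pw : ∀ w, ind (R w ∧ ¬ Rel P Y R v K sel rk σ w) * W w ≤
      ∑ e, ind (R w ∧ cp P (Y e) (σ w) R w < v) * G e (σ w) w + ∑ e, ind (Q e w) +
        ind (R w ∧ Left P Y R v K sel rk σ w) * W w := by
    intro w
    have p1 : 0 ≤ ∑ e, ind (R w ∧ cp P (Y e) (σ w) R w < v) * G e (σ w) w :=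
      Finset.sum_nonneg fun e _ => mul_nonneg (ind_nonneg _) (hG0 e _ w)
    have p2 : 0 ≤ ∑ e, ind (Q e w) := Finset.sum_nonneg fun e _ => ind_nonneg _
    have p3 : 0 ≤ ind (R w ∧ Left P Y R v K sel rk σ w) * W w := mul_nonneg (ind_nonneg _) (hW0 w)
    by_cases h1 : R w ∧ ¬ Rel P Y R v K sel rk σ w
    · rw [ind_of h1, one_mul]
      -- a first heavy time
      by_cases h2 : ∃ s ≤ σ w, ∃ e, hvy P Y R v e s w
      · obtain ⟨s, hs, hf⟩ := fst_ex (A := fun s w => s ≤ σ w ∧ ∃ e, hvy P Y R v e s w) (s := h2.choose)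
          (w := w) ⟨h2.choose_spec.1, h2.choose_spec.2⟩
        have hcl : ∀ s' < s, ∀ e', ¬ hvy P Y R v e' s' w := fun s' hs' e' h3 =>
          hf.2 s' hs' ⟨le_trans hs'.le hf.1.1, e', h3⟩
        by_cases h3 : ∃ s1 ≤ s, ∃ e', K e' s1 w
        · obtain ⟨s1, h4, e', h5⟩ := h3
          obtain ⟨s2, h6, h7⟩ := fst_ex (A := K e') h5
          have h8 : Q e' w := ⟨s2, ⟨h7, (h6.trans h4).trans hf.1.1, fun s' hs' =>
            not_le.1 (hcl s' (lt_of_lt_of_le hs' (h6.trans h4)) e')⟩, h1.1⟩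
          have h9 : ind (Q e' w) ≤ ∑ e, ind (Q e w) :=
            Finset.single_le_sum (f := fun e => ind (Q e w)) (fun e _ => ind_nonneg _) (mem_univ e')
          rw [ind_of h8] at h9
          have := hW1 w
          linarith
        · -- face of smallest rank
          obtain ⟨e0, he0, hmin⟩ : ∃ e0, hvy P Y R v e0 s w ∧ ∀ e', rk e' < rk e0 → ¬ hvy P Y R v e' s w := by
            obtain ⟨e1, he1⟩ := hf.1.2
            have hne : ((univ : Finset ι).filter fun e => hvy P Y R v e s w).Nonempty :=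
              ⟨e1, mem_filter.2 ⟨mem_univ _, he1⟩⟩
            obtain ⟨e0, h4, h5⟩ := Finset.exists_min_image _ rk hne
            refine ⟨e0, (mem_filter.1 h4).2, fun e' h6 h7 => ?_⟩
            have := h5 e' (mem_filter.2 ⟨mem_univ _, h7⟩)
            omega
          have hcd : cd P Y R v K rk e0 s w := ⟨hcl, hmin, fun s' hs' e' h4 => h3 ⟨s', hs', e', h4⟩⟩
          have hfh : fh P Y R v e0 s w := ⟨he0, fun s' hs' => hcl s' hs' e0⟩
          by_cases h4 : sel e0 s w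
          · exact absurd ⟨e0, s, ⟨hfh, h4, hf.1.1⟩, hcd⟩ h1.2
          · have h5 : Left P Y R v K sel rk σ w := ⟨e0, s, ⟨hfh, h4, hf.1.1⟩, hcd⟩
            rw [ind_of (show R w ∧ Left P Y R v K sel rk σ w from ⟨h1.1, h5⟩), one_mul]
            linarith
      · have h3 : ∀ e, ind (R w ∧ cp P (Y e) (σ w) R w < v) = 1 := fun e =>
          ind_of ⟨h1.1, not_le.1 fun h4 => h2 ⟨σ w, le_rfl, e, h4⟩⟩
        have h4 : ∑ e, ind (R w ∧ cp P (Y e) (σ w) R w < v) * G e (σ w) w = ∑ e, G e (σ w) w :=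
          Finset.sum_congr rfl fun e _ => by rw [h3 e, one_mul]
        rw [h4]
        have := hWG w
        linarith
    · rw [ind_not h1, zero_mul]
      linarith
  refine (P.E_mono fun w _ => pw w).trans ?_
  rw [FP.E_add, FP.E_add, FP.E_sum, FP.E_sum]
  have b1 : ∑ e, P.E (fun w => ind (R w ∧ cp P (Y e) (σ w) R w < v) * G e (σ w) w) ≤
      v * ∑ e, P.E (fun w => G e (σ w) w) := by
    rw [Finset.mul_sum]
    exact Finset.sum_le_sum fun e _ => light_end (fY e) (hY e) hσ hT v0 (hG e) (hG0 e)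
  have b2 : ∑ e, P.E (fun w => ind (Q e w)) ≤
      ∑ e, (h * v * P.Pr (fun w => ∃ s ≤ σ w, K e s w) + P.Pr (K e 0)) :=
    Finset.sum_le_sum fun e _ => cover_first (fY e) (hY e) hσ hT v0 h0 (hm e) (hK e)
  linarith

end faces

end

end Pool.Agent.GMH.Tree
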