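import Pool.Agent.GMH.Tree

/-!
# GMH/Tree2 (helper99): COROLLARIES OF THE DECISION TREE (GMH/Tree)

* `fh_sum` : `Σ_s E 1[fh e s, sel e s, s ≤ σ] de e s = P (R, some s ≤ σ : fh e s, sel e s)`;
* `tree_rel` : relative price: released rows with signed sum `≤ lam de e s` cost `lam Σ_e P (R, e heavy at some s ≤ σ)`;
* `tree_abs` : absolute price: `th Σ_e P (some s ≤ σ : fh e s, sel e s)`;
* `left_le` : `E 1_R 1_Left W ≤ h v Σ_e P (some s ≤ σ : fh e s, not sel e s) + P (R, some face heavy at the time 0)`;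
* `left_one` : a part of `Left` which is seen by the face.
-/

set_option autoImplicit false
set_option linter.unusedSectionVars false

namespace Pool.Agent.GMH.Tree

open Finset Pool.Agent.PWZ Pool.Agent.M3 Pool.Agent.GMH.Gdy Pool.Agent.GMH.CR Pool.Agent.GMH.Three

noncomputable section

variable {Om : Type*} [Fintype Om] {P : FP Om}

section one

variable {κ ν : ℕ → Type*} {Y : ∀ t, Om → κ t} {nd : ∀ t, Om → ν t} {σ : Om → ℕ} {T : ℕ} {R : Om → Prop} {v h : ℝ}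

/-- the relation at a first time -/
theorem one_sum (fY : Filt Y) (hY : ∀ s, Fac (Y s) (nd s)) (hσ : Stp nd σ) (hT : ∀ w, σ w < T) {f : ℕ → Om → Prop}
    (hf : ∀ s x w, Y s x = Y s w → (f s x ↔ f s w)) (hf1 : ∀ w s s', f s w → f s' w → s = s') :
    ∑ s ∈ range T, P.E (fun w => ind (f s w ∧ s ≤ σ w) * cp P Y s R w) =
      P.Pr (fun w => R w ∧ ∃ s ≤ σ w, f s w) := by
  have e1 : ∀ s, P.E (fun w => ind (f s w ∧ s ≤ σ w) * cp P Y s R w) = P.E (fun w => ind (f s w ∧ s ≤ σ w) * ind (R w)) :=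
    fun s => by
      have hff : Fac (Y s) (fun w => ind (f s w ∧ s ≤ σ w)) := Fac.ind fun x w e => by
        rw [hf s x w e, stp_le fY hY hσ e]
      exact P.E_mul_ce hff (fun w => ind (R w))
  rw [Finset.sum_congr rfl fun s _ => e1 s, ← FP.E_sum]
  unfold FP.Pr
  refine P.E_congr fun w _ => ?_
  have e2 := sum_ind' (A := fun s => (f s w ∧ s ≤ σ w) ∧ R w) (T := T) (fun s s' a b => hf1 w s s' a.1.1 b.1.1)
    (fun s a => lt_of_le_of_lt a.1.2 (hT w))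
  have e3 : (∃ s, (f s w ∧ s ≤ σ w) ∧ R w) = (R w ∧ ∃ s ≤ σ w, f s w) :=
    propext ⟨fun ⟨s, a⟩ => ⟨a.2, s, a.1.2, a.1.1⟩, fun ⟨a, s, b, c⟩ => ⟨s, ⟨c, b⟩, a⟩⟩
  show _ = ind (R w ∧ ∃ s ≤ σ w, f s w)
  rw [← e3, ← e2]
  exact Finset.sum_congr rfl fun s _ => (ind_and _ _).symm

/-- the number of first times -/
theorem one_cnt (hT : ∀ w, σ w < T) {f : ℕ → Om → Prop} (hf1 : ∀ w s s', f s w → f s' w → s = s') :
    ∑ s ∈ range T, P.E (fun w => ind (f s w ∧ s ≤ σ w)) = P.Pr (fun w => ∃ s ≤ σ w, f s w) := by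
  rw [← FP.E_sum]
  unfold FP.Pr
  refine P.E_congr fun w _ => ?_
  rw [sum_ind' (A := fun s => f s w ∧ s ≤ σ w) (T := T) (fun s s' a b => hf1 w s s' a.1 b.1)
    (fun s a => lt_of_le_of_lt a.2 (hT w))]
  congr 1
  exact propext ⟨fun ⟨s, a⟩ => ⟨s, a.2, a.1⟩, fun ⟨s, b, c⟩ => ⟨s, c, b⟩⟩

/-- **a part seen by the face, at a first time before which the face is not heavy** -/
theorem first_part (fY : Filt Y) (hY : ∀ s, Fac (Y s) (nd s)) (hσ : Stp nd σ) (hT : ∀ w, σ w < T) (v0 : 0 ≤ v)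
    (h0 : 0 ≤ h) (hm : ∀ s w, P.p w ≠ 0 → P.m (Y s) w ≤ h * P.m (Y (s + 1)) w) {f : ℕ → Om → Prop}
    (hf : ∀ s x w, Y s x = Y s w → (f s x ↔ f s w)) (hf1 : ∀ w s s', f s w → f s' w → s = s')
    (hfv : ∀ s w, f (s + 1) w → cp P Y s R w < v) :
    P.Pr (fun w => R w ∧ ∃ s ≤ σ w, f s w) ≤
      h * v * P.Pr (fun w => ∃ s ≤ σ w, f s w) + P.Pr (fun w => R w ∧ f 0 w) := by
  have hqq : 0 ≤ h * v := mul_nonneg h0 v0
  rw [← one_sum fY hY hσ hT hf hf1, ← one_cnt hT hf1, Finset.mul_sum]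
  have h2 : ∀ s ∈ range T, P.E (fun w => ind (f s w ∧ s ≤ σ w) * cp P Y s R w) ≤
      h * v * P.E (fun w => ind (f s w ∧ s ≤ σ w)) + (if s = 0 then P.Pr (fun w => R w ∧ f 0 w) else 0) := by
    intro s _
    rcases Nat.eq_zero_or_pos s with rfl | hs0
    · rw [if_pos rfl]
      have e1 : P.E (fun w => ind (f 0 w ∧ 0 ≤ σ w) * cp P Y 0 R w) = P.Pr (fun w => R w ∧ f 0 w) := by
        have : P.E (fun w => ind (f 0 w ∧ 0 ≤ σ w) * cp P Y 0 R w) =
            P.E (fun w => ind (f 0 w ∧ 0 ≤ σ w) * ind (R w)) := by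
          have hff : Fac (Y 0) (fun w => ind (f 0 w ∧ 0 ≤ σ w)) := Fac.ind fun x w e => by
            rw [hf 0 x w e, stp_le fY hY hσ e]
          exact P.E_mul_ce hff (fun w => ind (R w))
        rw [this]
        unfold FP.Pr
        refine P.E_congr fun w _ => ?_
        rw [← ind_and]
        congr 1
        exact propext ⟨fun a => ⟨a.2, a.1.1⟩, fun a => ⟨⟨a.2, Nat.zero_le _⟩, a.1⟩⟩
      rw [e1]
      have h4 : 0 ≤ h * v * P.E (fun w => ind (f 0 w ∧ 0 ≤ σ w)) := mul_nonneg hqq (P.E_nonneg fun _ _ => ind_nonneg _)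
      linarith
    · obtain ⟨s', rfl⟩ : ∃ s', s = s' + 1 := ⟨s - 1, by omega⟩
      rw [if_neg (by omega), add_zero, ← FP.E_smul]
      refine P.E_mono fun w hw => ?_
      by_cases h3 : f (s' + 1) w ∧ s' + 1 ≤ σ w
      · rw [ind_of h3, one_mul, mul_one]
        have h4 := cp_ratio (P := P) (Y := Y) (h := h) (s := s') (t := s' + 1) (fY s') hw (hm s' w hw) R
        exact h4.trans (mul_le_mul_of_nonneg_left (hfv s' w h3.1).le h0)
      · rw [ind_not h3]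
        simp
  refine (Finset.sum_le_sum h2).trans ?_
  rw [Finset.sum_add_distrib, Finset.sum_ite_eq' (range T) 0]
  have := P.Pr_nonneg (fun w => R w ∧ f 0 w)
  split_ifs <;> linarith

end one

section faces

variable {ι : Type*} [Fintype ι] {κ : ι → ℕ → Type*} {ν : ℕ → Type*} {Y : ∀ e t, Om → κ e t} {nd : ∀ t, Om → ν t}
  {R : Om → Prop} {v h : ℝ} {K sel : ι → ℕ → Om → Prop} {rk : ι → ℕ} {σ : Om → ℕ} {T : ℕ}

theorem fh_one (e : ι) (w : Om) (s s' : ℕ) (a : fh P Y R v e s w) (b : fh P Y R v e s' w) : s = s' := fst_one s s' a b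

/-- the relation at the first heavy time -/
theorem fh_sum (fY : ∀ e, Filt (Y e)) (hY : ∀ e s, Fac (Y e s) (nd s)) (hσ : Stp nd σ) (hT : ∀ w, σ w < T)
    (hsel : ∀ e s x w, Y e s x = Y e s w → (sel e s x ↔ sel e s w)) (e : ι) :
    ∑ s ∈ range T, P.E (fun w => ind (fh P Y R v e s w ∧ sel e s w ∧ s ≤ σ w) * cp P (Y e) s R w) =
      P.Pr (fun w => R w ∧ ∃ s ≤ σ w, fh P Y R v e s w ∧ sel e s w) := by
  rw [← one_sum (fY e) (hY e) hσ hT (f := fun s w => fh P Y R v e s w ∧ sel e s w)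
    (fun s x w a => by rw [fh_fac fY e s a, hsel e s x w a]) (fun w s s' a b => fh_one e w s s' a.1 b.1)]
  simp only [and_assoc]

/-- **RELATIVE PRICE** -/
theorem tree_rel (fY : ∀ e, Filt (Y e)) (hY : ∀ e s, Fac (Y e s) (nd s)) (hσ : Stp nd σ) (hT : ∀ w, σ w < T)
    (hrk : Function.Injective rk) (hsel : ∀ e s x w, Y e s x = Y e s w → (sel e s x ↔ sel e s w)) {ψ : Om → ℝ}
    {lam : ι → ℝ}
    (hth : ∀ e s w, P.p w ≠ 0 → fh P Y R v e s w → sel e s w → s ≤ σ w →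
      P.ce (Y e s) (fun x => ind (cd P Y R v K rk e s x) * ψ x) w ≤ lam e * cp P (Y e) s R w) :
    P.E (fun w => ind (Rel P Y R v K sel rk σ w) * ψ w) ≤
      ∑ e, lam e * P.Pr (fun w => R w ∧ ∃ s ≤ σ w, fh P Y R v e s w ∧ sel e s w) := by
  refine (tree_signed fY hY hσ hT hrk hsel (th := fun e s w => lam e * cp P (Y e) s R w) hth).trans (le_of_eq ?_)
  refine Finset.sum_congr rfl fun e _ => ?_
  rw [← fh_sum fY hY hσ hT hsel e, Finset.mul_sum]
  refine Finset.sum_congr rfl fun s _ => ?_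
  rw [← FP.E_smul]
  exact P.E_congr fun w _ => by ring

/-- **ABSOLUTE PRICE** -/
theorem tree_abs (fY : ∀ e, Filt (Y e)) (hY : ∀ e s, Fac (Y e s) (nd s)) (hσ : Stp nd σ) (hT : ∀ w, σ w < T)
    (hrk : Function.Injective rk) (hsel : ∀ e s x w, Y e s x = Y e s w → (sel e s x ↔ sel e s w)) {ψ : Om → ℝ}
    {th : ι → ℝ}
    (hth : ∀ e s w, P.p w ≠ 0 → fh P Y R v e s w → sel e s w → s ≤ σ w →
      P.ce (Y e s) (fun x => ind (cd P Y R v K rk e s x) * ψ x) w ≤ th e) :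
    P.E (fun w => ind (Rel P Y R v K sel rk σ w) * ψ w) ≤
      ∑ e, th e * P.Pr (fun w => ∃ s ≤ σ w, fh P Y R v e s w ∧ sel e s w) := by
  refine (tree_signed fY hY hσ hT hrk hsel (th := fun e _ _ => th e) hth).trans (le_of_eq ?_)
  refine Finset.sum_congr rfl fun e _ => ?_
  rw [← one_cnt hT (f := fun s w => fh P Y R v e s w ∧ sel e s w) (fun w s s' a b => fh_one e w s s' a.1 b.1),
    Finset.mul_sum]
  refine Finset.sum_congr rfl fun s _ => ?_
  rw [← FP.E_smul]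
  exact P.E_congr fun w _ => by rw [mul_comm]; simp only [and_assoc]

/-- **the tuples which are left** -/
theorem left_le (fY : ∀ e, Filt (Y e)) (hY : ∀ e s, Fac (Y e s) (nd s)) (hσ : Stp nd σ) (hT : ∀ w, σ w < T)
    (v0 : 0 ≤ v) (h0 : 0 ≤ h) (hm : ∀ e s w, P.p w ≠ 0 → P.m (Y e s) w ≤ h * P.m (Y e (s + 1)) w)
    (hsel : ∀ e s x w, Y e s x = Y e s w → (sel e s x ↔ sel e s w)) {W : Om → ℝ} (hW0 : ∀ w, 0 ≤ W w)
    (hW1 : ∀ w, W w ≤ 1) :
    P.E (fun w => ind (R w ∧ Left P Y R v K sel rk σ w) * W w) ≤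
      ∑ e, (h * v * P.Pr (fun w => ∃ s ≤ σ w, fh P Y R v e s w ∧ ¬ sel e s w) +
        P.Pr (fun w => R w ∧ fh P Y R v e 0 w ∧ ¬ sel e 0 w)) := by
  classical
  have pw : ∀ w, ind (R w ∧ Left P Y R v K sel rk σ w) * W w ≤
      ∑ e, ind (R w ∧ ∃ s ≤ σ w, fh P Y R v e s w ∧ ¬ sel e s w) := by
    intro w
    have p0 : 0 ≤ ∑ e, ind (R w ∧ ∃ s ≤ σ w, fh P Y R v e s w ∧ ¬ sel e s w) :=
      Finset.sum_nonneg fun e _ => ind_nonneg _
    by_cases h1 : R w ∧ Left P Y R v K sel rk σ w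
    · obtain ⟨h2, e, s, h3, _⟩ := h1
      have h4 : ind (R w ∧ ∃ s ≤ σ w, fh P Y R v e s w ∧ ¬ sel e s w) ≤
          ∑ e, ind (R w ∧ ∃ s ≤ σ w, fh P Y R v e s w ∧ ¬ sel e s w) :=
        Finset.single_le_sum (f := fun e => ind (R w ∧ ∃ s ≤ σ w, fh P Y R v e s w ∧ ¬ sel e s w))
          (fun e _ => ind_nonneg _) (mem_univ e)
      rw [ind_of (show R w ∧ ∃ s ≤ σ w, fh P Y R v e s w ∧ ¬ sel e s w from ⟨h2, s, h3.2.2, h3.1, h3.2.1⟩)] at h4
      have h5 := mul_le_of_le_one_left (hW0 w) (ind_le_one (R w ∧ Left P Y R v K sel rk σ w))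
      linarith [hW1 w]
    · rw [ind_not h1, zero_mul]
      exact p0
  refine (P.E_mono fun w _ => pw w).trans ?_
  rw [FP.E_sum]
  refine Finset.sum_le_sum fun e _ => ?_
  refine (first_part (fY e) (hY e) hσ hT v0 h0 (hm e) (f := fun s w => fh P Y R v e s w ∧ ¬ sel e s w)
    (fun s x w a => by rw [fh_fac fY e s a, hsel e s x w a]) (fun w s s' a b => fh_one e w s s' a.1 b.1)
    (fun s w a => not_le.1 (a.1.2 s (Nat.lt_succ_self s))))

end faces

end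

end Pool.Agent.GMH.Tree
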