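import Pool.Agent.GMH.Tree2

/-!
# GMH/Tree3 (helper99): THE DECISION TREE WITH A SECOND PHASE (matched rows)  (notes 3960 (1), 3965, 3973, 3978, 3981)

Fixed `a`.  SIGHTS `e : ι` : exact faces AND exact vertices, for example at the exact `b` : `(b,c)`, `(b,d)`, `c`, `d`.
`Y e s` = what the sight sees at the time `s`.  Relation `R`, thresholds `v e`, `hv e s` : `v e ≤ P (R | Y e s)`,
`fh` = first time.  `K e s` = cover of the sight `e` (any event it sees).  `sel e s` = its test is good, `Mt e s` = MATCHED.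
FIRST PHASE: first time at which a sight is heavy, nothing covered before (`cd`, rank `rk`).  Test good: RELEASED.
Test not good and matched: `ent`, the tuple enters the SECOND PHASE of `e`, in which only the sight `g e` (the vertex, `K (g e)`
= lambda cover of the vertex, `hv (g e)`) and the guard `o e` (the other face and its covers `K (o e)`) are looked at:
* `K (g e)` before `g e` is heavy : cost `h v (g e)` per cover;
* `K (o e)` : cost `uC e` per cover, `uC e` = density of `mu e s` (matched, `g e` uncovered) at the sight `o e`;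
* nothing until `σ` : `uC e` times `H (o e)`;
* `g e` heavy : test of `g e`, good: RELEASED.
LEFT = a test which is not good, not matched (`lf`), density at most `ka e` or bad.
* `tree3_signed`, `tree3_rel`, `tree3_abs`, `tree3_unsigned`.
-/

set_option autoImplicit false
set_option linter.unusedSectionVars false

namespace Pool.Agent.GMH.Tree3

open Finset Pool.Agent.PWZ Pool.Agent.M3 Pool.Agent.GMH.Gdy Pool.Agent.GMH.CR Pool.Agent.GMH.Three
open Pool.Agent.GMH.Tree (stp_le stp_eq light_end cover_first signed_one one_sum one_cnt)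

noncomputable section

variable {Om : Type*} [Fintype Om] {P : FP Om}

section one

variable {κ ν : ℕ → Type*} {Y : ∀ t, Om → κ t} {nd : ∀ t, Om → ν t} {σ : Om → ℕ} {T : ℕ}

/-- **an event of small density at a first time** -/
theorem ev_le (fY : Filt Y) (hY : ∀ s, Fac (Y s) (nd s)) (hσ : Stp nd σ) (hT : ∀ w, σ w < T) {ka : ℝ}
    {f : ℕ → Om → Prop} (hf : ∀ s x w, Y s x = Y s w → (f s x ↔ f s w)) (hf1 : ∀ w s s', f s w → f s' w → s = s')
    {Q : ℕ → Om → Prop} {Bad : Om → Prop}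
    (hQ : ∀ s w, P.p w ≠ 0 → f s w → s ≤ σ w → cp P Y s (Q s) w ≤ ka + ind (Bad w)) :
    P.Pr (fun w => ∃ s ≤ σ w, f s w ∧ Q s w) ≤ ka * P.Pr (fun w => ∃ s ≤ σ w, f s w) + P.Pr Bad := by
  have e1 : P.Pr (fun w => ∃ s ≤ σ w, f s w ∧ Q s w) =
      ∑ s ∈ range T, P.E (fun w => ind (f s w ∧ s ≤ σ w) * ind (Q s w)) := by
    rw [← FP.E_sum]
    unfold FP.Pr
    refine P.E_congr fun w _ => ?_
    have e2 := sum_ind' (A := fun s => (f s w ∧ s ≤ σ w) ∧ Q s w) (T := T) (fun s s' a b => hf1 w s s' a.1.1 b.1.1)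
      (fun s a => lt_of_le_of_lt a.1.2 (hT w))
    have e3 : (∃ s, (f s w ∧ s ≤ σ w) ∧ Q s w) = (∃ s ≤ σ w, f s w ∧ Q s w) :=
      propext ⟨fun ⟨s, a⟩ => ⟨s, a.1.2, a.1.1, a.2⟩, fun ⟨s, b, c, d⟩ => ⟨s, ⟨c, b⟩, d⟩⟩
    show ind (∃ s ≤ σ w, f s w ∧ Q s w) = _
    rw [← e3, ← e2]
    exact Finset.sum_congr rfl fun s _ => ind_and _ _
  have h1 : ∀ s ∈ range T, P.E (fun w => ind (f s w ∧ s ≤ σ w) * ind (Q s w)) ≤
      P.E (fun w => ka * ind (f s w ∧ s ≤ σ w) + ind ((f s w ∧ s ≤ σ w) ∧ Bad w)) := by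
    intro s _
    have hff : Fac (Y s) (fun w => ind (f s w ∧ s ≤ σ w)) := Fac.ind fun x w e => by
      rw [hf s x w e, stp_le fY hY hσ e]
    have h2 : P.E (fun w => ind (f s w ∧ s ≤ σ w) * ind (Q s w)) =
        P.E (fun w => ind (f s w ∧ s ≤ σ w) * cp P Y s (Q s) w) := (P.E_mul_ce hff _).symm
    rw [h2]
    refine P.E_mono fun w hw => ?_
    by_cases h3 : f s w ∧ s ≤ σ w
    · have h4 : ind ((f s w ∧ s ≤ σ w) ∧ Bad w) = ind (Bad w) := by rw [ind_and, ind_of h3, one_mul]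
      rw [h4, ind_of h3, one_mul, mul_one]
      exact hQ s w hw h3.1 h3.2
    · rw [ind_not h3, zero_mul, mul_zero, zero_add]
      exact ind_nonneg _
  rw [e1]
  refine (Finset.sum_le_sum h1).trans ?_
  have e4 : ∑ s ∈ range T, P.E (fun w => ka * ind (f s w ∧ s ≤ σ w) + ind ((f s w ∧ s ≤ σ w) ∧ Bad w)) =
      ka * P.Pr (fun w => ∃ s ≤ σ w, f s w) + ∑ s ∈ range T, P.E (fun w => ind ((f s w ∧ s ≤ σ w) ∧ Bad w)) := by
    rw [← one_cnt hT hf1, Finset.mul_sum, ← Finset.sum_add_distrib]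
    refine Finset.sum_congr rfl fun s _ => ?_
    rw [FP.E_add, ← FP.E_smul]
  rw [e4]
  have h5 : ∑ s ∈ range T, P.E (fun w => ind ((f s w ∧ s ≤ σ w) ∧ Bad w)) ≤ P.Pr Bad := by
    rw [← FP.E_sum]
    refine P.E_mono fun w _ => ?_
    rw [sum_ind' (A := fun s => (f s w ∧ s ≤ σ w) ∧ Bad w) (T := T) (fun s s' a b => hf1 w s s' a.1.1 b.1.1)
      (fun s a => lt_of_le_of_lt a.1.2 (hT w))]
    exact ind_mono fun ⟨s, a⟩ => a.2
  linarith

/-- **an event of small density at `σ`** -/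
theorem end_le (fY : Filt Y) (hY : ∀ s, Fac (Y s) (nd s)) (hσ : Stp nd σ) (hT : ∀ w, σ w < T) {ka : ℝ}
    {G : ℕ → Om → ℝ} (hG : ∀ s, Fac (Y s) (G s)) (hG0 : ∀ s w, 0 ≤ G s w) (hG1 : ∀ s w, G s w ≤ 1)
    {Q : ℕ → Om → Prop} {Bad : Om → Prop}
    (hQ : ∀ s w, P.p w ≠ 0 → cp P Y s (Q s) w ≤ ka + ind (Bad w)) :
    P.E (fun w => ind (Q (σ w) w) * G (σ w) w) ≤ ka * P.E (fun w => G (σ w) w) + P.Pr Bad := by
  have h1 : ∀ s ∈ range T, P.E (fun w => ind (σ w = s) * (ind (Q s w) * G s w)) ≤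
      P.E (fun w => ka * (ind (σ w = s) * G s w) + ind (σ w = s ∧ Bad w)) := by
    intro s _
    have hff : Fac (Y s) (fun w => ind (σ w = s) * G s w) := fun x w e => by
      show ind (σ x = s) * G s x = ind (σ w = s) * G s w
      rw [propext (stp_eq fY hY hσ e), hG s x w e]
    have h2 : P.E (fun w => ind (σ w = s) * (ind (Q s w) * G s w)) =
        P.E (fun w => (ind (σ w = s) * G s w) * cp P Y s (Q s) w) := by
      have h3 : P.E (fun w => ind (σ w = s) * (ind (Q s w) * G s w)) =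
          P.E (fun w => (ind (σ w = s) * G s w) * ind (Q s w)) := P.E_congr fun w _ => by ring
      rw [h3]
      exact (P.E_mul_ce hff _).symm
    rw [h2]
    refine P.E_mono fun w hw => ?_
    by_cases h3 : σ w = s
    · have h4 : ind (σ w = s ∧ Bad w) = ind (Bad w) := by rw [ind_and, ind_of h3, one_mul]
      rw [h4, ind_of h3, one_mul]
      have h5 := mul_le_mul_of_nonneg_left (hQ s w hw) (hG0 s w)
      have h6 := mul_le_of_le_one_left (ind_nonneg (Bad w)) (hG1 s w)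
      nlinarith
    · rw [ind_not h3, zero_mul, zero_mul, mul_zero, zero_add]
      exact ind_nonneg _
  rw [E_stop hT (fun s w => ind (Q s w) * G s w), E_stop hT G]
  refine (Finset.sum_le_sum h1).trans ?_
  have e4 : ∑ s ∈ range T, P.E (fun w => ka * (ind (σ w = s) * G s w) + ind (σ w = s ∧ Bad w)) =
      ka * ∑ s ∈ range T, P.E (fun w => ind (σ w = s) * G s w) +
        ∑ s ∈ range T, P.E (fun w => ind (σ w = s ∧ Bad w)) := by
    rw [Finset.mul_sum, ← Finset.sum_add_distrib]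
    refine Finset.sum_congr rfl fun s _ => ?_
    rw [FP.E_add, ← FP.E_smul]
  rw [e4]
  have h5 : ∑ s ∈ range T, P.E (fun w => ind (σ w = s ∧ Bad w)) ≤ P.Pr Bad := by
    rw [← FP.E_sum]
    refine P.E_mono fun w _ => ?_
    rw [sum_ind' (A := fun s => σ w = s ∧ Bad w) (T := T) (fun s s' a b => a.1.symm.trans b.1)
      (fun s a => a.1 ▸ hT w)]
    exact ind_mono fun ⟨s, a⟩ => a.2
  linarith

end one

/-! ## the tree -/

section faces

variable {ι : Type*} [Fintype ι] {κ : ι → ℕ → Type*} {ν : ℕ → Type*} {Y : ∀ e t, Om → κ e t} {nd : ∀ t, Om → ν t}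
  {R : Om → Prop} {v : ι → ℝ} {h : ℝ} {K sel Mt : ι → ℕ → Om → Prop} {rk : ι → ℕ} {g o : ι → ι} {σ : Om → ℕ} {T : ℕ}

variable (P Y R v) in
/-- the sight `e` is heavy -/
def hv (e : ι) (s : ℕ) (w : Om) : Prop := v e ≤ cp P (Y e) s R w

variable (P Y R v) in
/-- the sight `e` is heavy for the first time -/
def fh (e : ι) (s : ℕ) (w : Om) : Prop := fst (hv P Y R v e) s w

variable (P Y R v K rk) in
/-- nothing is heavy before, nothing of smaller rank is heavy now, nothing is covered -/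
def cd (e : ι) (s : ℕ) (w : Om) : Prop := (∀ s' < s, ∀ e', ¬ hv P Y R v e' s' w) ∧
  (∀ e', rk e' < rk e → ¬ hv P Y R v e' s w) ∧ ∀ s' ≤ s, ∀ e', ¬ K e' s' w

variable (P Y R v K sel Mt rk) in
/-- the tuple enters the second phase of `e` -/
def ent (e : ι) (s : ℕ) (w : Om) : Prop := (fh P Y R v e s w ∧ ¬ sel e s w ∧ Mt e s w) ∧ cd P Y R v K rk e s w

variable (P Y R v K sel Mt rk g o) in
/-- the tuple is in the second phase of a sight with `g e0 = e`, nothing which belongs to this phase is covered -/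
def m2 (e : ι) (s : ℕ) (w : Om) : Prop := ∃ e0, g e0 = e ∧ ∃ s0 < s, ent P Y R v K sel Mt rk e0 s0 w ∧
  ∀ s' ≤ s, ¬ K e s' w ∧ ¬ K (o e0) s' w

variable (P Y R v K sel Mt rk g o) in
/-- the tuples which a good test of `e` releases -/
def cdd (e : ι) (s : ℕ) (w : Om) : Prop := cd P Y R v K rk e s w ∨ m2 P Y R v K sel Mt rk g o e s w

variable (P Y R v K sel Mt rk g o σ) in
/-- released by the sight `e` at the time `s` -/
def rel (e : ι) (s : ℕ) (w : Om) : Prop := (fh P Y R v e s w ∧ sel e s w ∧ s ≤ σ w) ∧ cdd P Y R v K sel Mt rk g o e s w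

variable (P Y R v K sel Mt rk g o σ) in
/-- released -/
def Rel (w : Om) : Prop := ∃ e, ∃ s, rel P Y R v K sel Mt rk g o σ e s w

variable (P Y R v K sel Mt rk g o) in
/-- the tuples concerned by a test which is not good -/
def lf (e : ι) (s : ℕ) (w : Om) : Prop := (cd P Y R v K rk e s w ∧ ¬ Mt e s w) ∨ m2 P Y R v K sel Mt rk g o e s w

variable (P Y R v K sel Mt rk g o σ) in
/-- left -/
def Left (w : Om) : Prop := ∃ e, ∃ s, (fh P Y R v e s w ∧ ¬ sel e s w ∧ s ≤ σ w) ∧ lf P Y R v K sel Mt rk g o e s w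

variable (P Y R v K sel Mt rk g) in
/-- matched and `g e` not covered -/
def mu (e : ι) (s : ℕ) (w : Om) : Prop := (∃ s0 ≤ s, ent P Y R v K sel Mt rk e s0 w) ∧ ∀ s' ≤ s, ¬ K (g e) s' w

theorem hv_fac (e : ι) (s : ℕ) {x w : Om} (h1 : Y e s x = Y e s w) : hv P Y R v e s x ↔ hv P Y R v e s w := by
  unfold hv
  rw [cp_fac s R x w h1]

theorem fh_fac (fY : ∀ e, Filt (Y e)) (e : ι) (s : ℕ) {x w : Om} (h1 : Y e s x = Y e s w) :
    fh P Y R v e s x ↔ fh P Y R v e s w := by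
  unfold fh fst
  rw [hv_fac e s h1]
  exact and_congr_right fun _ => forall_congr' fun s' => forall_congr' fun hs' =>
    not_congr (hv_fac e s' ((fY e).le hs'.le x w h1))

theorem fh_one (e : ι) (w : Om) (s s' : ℕ) (a : fh P Y R v e s w) (b : fh P Y R v e s' w) : s = s' := fst_one s s' a b

/-- there is only one first heavy sight -/
theorem cd_one (hrk : Function.Injective rk) {e e' : ι} {s s' : ℕ} {w : Om} (a1 : fh P Y R v e s w)
    (c1 : cd P Y R v K rk e s w) (a2 : fh P Y R v e' s' w) (c2 : cd P Y R v K rk e' s' w) : e = e' ∧ s = s' := by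
  have hs : s = s' := by
    rcases lt_trichotomy s s' with h3 | h3 | h3
    · exact absurd a1.1 (c2.1 s h3 e)
    · exact h3
    · exact absurd a2.1 (c1.1 s' h3 e')
  subst hs
  refine ⟨?_, rfl⟩
  rcases lt_trichotomy (rk e) (rk e') with h3 | h3 | h3
  · exact absurd a1.1 (c2.2.1 e h3)
  · exact hrk h3
  · exact absurd a2.1 (c1.2.1 e' h3)

/-- a tuple is released once -/
theorem rel_one (hrk : Function.Injective rk) {e e' : ι} {s s' : ℕ} {w : Om}
    (h1 : rel P Y R v K sel Mt rk g o σ e s w) (h2 : rel P Y R v K sel Mt rk g o σ e' s' w) : e = e' ∧ s = s' := by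
  obtain ⟨⟨a1, b1, _⟩, c1⟩ := h1
  obtain ⟨⟨a2, b2, _⟩, c2⟩ := h2
  rcases c1 with c1 | ⟨e0, g0, s0, hs0, n0, k0⟩
  · rcases c2 with c2 | ⟨e1, g1, s1, hs1, n1, k1⟩
    · exact cd_one hrk a1 c1 a2 c2
    · obtain ⟨rfl, rfl⟩ := cd_one hrk a1 c1 n1.1.1 n1.2
      exact absurd b1 n1.1.2.1
  · rcases c2 with c2 | ⟨e1, g1, s1, hs1, n1, k1⟩
    · obtain ⟨rfl, rfl⟩ := cd_one hrk a2 c2 n0.1.1 n0.2
      exact absurd b2 n0.1.2.1
    · obtain ⟨rfl, rfl⟩ := cd_one hrk n0.1.1 n0.2 n1.1.1 n1.2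
      have e2 : e = e' := g0.symm.trans g1
      subst e2
      exact ⟨rfl, fh_one e w s s' a1 a2⟩

theorem ind_Rel (hrk : Function.Injective rk) (hT : ∀ w, σ w < T) (w : Om) :
    ind (Rel P Y R v K sel Mt rk g o σ w) = ∑ e, ∑ s ∈ range T, ind (rel P Y R v K sel Mt rk g o σ e s w) := by
  classical
  by_cases h1 : Rel P Y R v K sel Mt rk g o σ w
  · obtain ⟨e, s, h2⟩ := h1
    rw [ind_of ⟨e, s, h2⟩, Finset.sum_eq_single e, Finset.sum_eq_single s, ind_of h2]
    · intro s' _ hs'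
      exact ind_not fun h3 => hs' (rel_one hrk h3 h2).2
    · intro h3
      exact absurd (mem_range.2 (lt_of_le_of_lt h2.1.2.2 (hT w))) h3
    · intro e' _ he'
      exact Finset.sum_eq_zero fun s' _ => ind_not fun h3 => he' (rel_one hrk h3 h2).1
    · intro h3
      exact absurd (mem_univ _) h3
  · rw [ind_not h1]
    exact (Finset.sum_eq_zero fun e _ => Finset.sum_eq_zero fun s _ => ind_not fun h2 => h1 ⟨e, s, h2⟩).symm

/-- **THE SIGNED PART** -/
theorem tree3_signed (fY : ∀ e, Filt (Y e)) (hY : ∀ e s, Fac (Y e s) (nd s)) (hσ : Stp nd σ) (hT : ∀ w, σ w < T)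
    (hrk : Function.Injective rk) (hsel : ∀ e s x w, Y e s x = Y e s w → (sel e s x ↔ sel e s w)) {ψ : Om → ℝ}
    {th : ι → ℕ → Om → ℝ}
    (hth : ∀ e s w, P.p w ≠ 0 → fh P Y R v e s w → sel e s w → s ≤ σ w →
      P.ce (Y e s) (fun x => ind (cdd P Y R v K sel Mt rk g o e s x) * ψ x) w ≤ th e s w) :
    P.E (fun w => ind (Rel P Y R v K sel Mt rk g o σ w) * ψ w) ≤
      ∑ e, ∑ s ∈ range T, P.E (fun w => ind (fh P Y R v e s w ∧ sel e s w ∧ s ≤ σ w) * th e s w) := by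
  have e1 : P.E (fun w => ind (Rel P Y R v K sel Mt rk g o σ w) * ψ w) =
      ∑ e, ∑ s ∈ range T, P.E (fun w => ind (rel P Y R v K sel Mt rk g o σ e s w) * ψ w) := by
    have e2 : P.E (fun w => ind (Rel P Y R v K sel Mt rk g o σ w) * ψ w) =
        P.E (fun w => ∑ e, ∑ s ∈ range T, ind (rel P Y R v K sel Mt rk g o σ e s w) * ψ w) :=
      P.E_congr fun w _ => by
        rw [ind_Rel hrk hT w, Finset.sum_mul]
        exact Finset.sum_congr rfl fun e _ => Finset.sum_mul _ _ _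
    rw [e2, FP.E_sum]
    exact Finset.sum_congr rfl fun e _ => FP.E_sum _ _ _
  rw [e1]
  refine Finset.sum_le_sum fun e _ => Finset.sum_le_sum fun s _ => ?_
  exact signed_one (Y := Y e) (f := fun s w => fh P Y R v e s w ∧ sel e s w ∧ s ≤ σ w)
    (c := fun s w => cdd P Y R v K sel Mt rk g o e s w) (fun s x w a => by
      rw [fh_fac fY e s a, hsel e s x w a, stp_le (fY e) (hY e) hσ a]) (th := th e)
    (fun s w hw a => hth e s w hw a.1 a.2.1 a.2.2) s

/-- **RELATIVE PRICE** -/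
theorem tree3_rel (fY : ∀ e, Filt (Y e)) (hY : ∀ e s, Fac (Y e s) (nd s)) (hσ : Stp nd σ) (hT : ∀ w, σ w < T)
    (hrk : Function.Injective rk) (hsel : ∀ e s x w, Y e s x = Y e s w → (sel e s x ↔ sel e s w)) {ψ : Om → ℝ}
    {lam : ι → ℝ}
    (hth : ∀ e s w, P.p w ≠ 0 → fh P Y R v e s w → sel e s w → s ≤ σ w →
      P.ce (Y e s) (fun x => ind (cdd P Y R v K sel Mt rk g o e s x) * ψ x) w ≤ lam e * cp P (Y e) s R w) :
    P.E (fun w => ind (Rel P Y R v K sel Mt rk g o σ w) * ψ w) ≤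
      ∑ e, lam e * P.Pr (fun w => R w ∧ ∃ s ≤ σ w, fh P Y R v e s w ∧ sel e s w) := by
  refine (tree3_signed fY hY hσ hT hrk hsel (th := fun e s w => lam e * cp P (Y e) s R w) hth).trans (le_of_eq ?_)
  refine Finset.sum_congr rfl fun e _ => ?_
  rw [← one_sum (fY e) (hY e) hσ hT (f := fun s w => fh P Y R v e s w ∧ sel e s w)
    (fun s x w a => by rw [fh_fac fY e s a, hsel e s x w a]) (fun w s s' a b => fh_one e w s s' a.1 b.1),
    Finset.mul_sum]
  refine Finset.sum_congr rfl fun s _ => ?_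
  rw [← FP.E_smul]
  simp only [and_assoc]
  exact P.E_congr fun w _ => by ring

/-- **ABSOLUTE PRICE** -/
theorem tree3_abs (fY : ∀ e, Filt (Y e)) (hY : ∀ e s, Fac (Y e s) (nd s)) (hσ : Stp nd σ) (hT : ∀ w, σ w < T)
    (hrk : Function.Injective rk) (hsel : ∀ e s x w, Y e s x = Y e s w → (sel e s x ↔ sel e s w)) {ψ : Om → ℝ}
    {th : ι → ℝ}
    (hth : ∀ e s w, P.p w ≠ 0 → fh P Y R v e s w → sel e s w → s ≤ σ w →
      P.ce (Y e s) (fun x => ind (cdd P Y R v K sel Mt rk g o e s x) * ψ x) w ≤ th e) :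
    P.E (fun w => ind (Rel P Y R v K sel Mt rk g o σ w) * ψ w) ≤
      ∑ e, th e * P.Pr (fun w => ∃ s ≤ σ w, fh P Y R v e s w ∧ sel e s w) := by
  refine (tree3_signed fY hY hσ hT hrk hsel (th := fun e _ _ => th e) hth).trans (le_of_eq ?_)
  refine Finset.sum_congr rfl fun e _ => ?_
  rw [← one_cnt hT (f := fun s w => fh P Y R v e s w ∧ sel e s w) (fun w s s' a b => fh_one e w s s' a.1 b.1),
    Finset.mul_sum]
  refine Finset.sum_congr rfl fun s _ => ?_
  rw [← FP.E_smul]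
  exact P.E_congr fun w _ => by rw [mul_comm]; simp only [and_assoc]

variable (P Y R v K) in
/-- first cover of the sight, before it is heavy -/
def Q1 (σ : Om → ℕ) (e : ι) (w : Om) : Prop :=
  ∃ s, (fst (K e) s w ∧ s ≤ σ w ∧ ∀ s' < s, cp P (Y e) s' R w < v e) ∧ R w

variable (P Y R v K sel Mt rk g o σ) in
/-- **the cases** of a tuple which is not released -/
theorem cases3 (hMt : ∀ e s w, Mt e s w → rk (g e) < rk e) {w : Om} (hR : R w)
    (hn : ¬ Rel P Y R v K sel Mt rk g o σ w) :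
    (∀ e, cp P (Y e) (σ w) R w < v e) ∨ (∃ e, Q1 P Y R v K σ e w) ∨
    (∃ e, ∃ s ≤ σ w, fst (K (o e)) s w ∧ mu P Y R v K sel Mt rk g e s w) ∨
    (∃ e, mu P Y R v K sel Mt rk g e (σ w) w) ∨ Left P Y R v K sel Mt rk g o σ w := by
  classical
  by_cases h2 : ∃ s ≤ σ w, ∃ e, hv P Y R v e s w
  · obtain ⟨s, hs, hf⟩ := fst_ex (A := fun s w => s ≤ σ w ∧ ∃ e, hv P Y R v e s w) (s := h2.choose)
      (w := w) ⟨h2.choose_spec.1, h2.choose_spec.2⟩
    have hcl : ∀ s' < s, ∀ e', ¬ hv P Y R v e' s' w := fun s' hs' e' h3 =>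
      hf.2 s' hs' ⟨le_trans hs'.le hf.1.1, e', h3⟩
    by_cases h3 : ∃ s1 ≤ s, ∃ e', K e' s1 w
    · obtain ⟨s1, h4, e', h5⟩ := h3
      obtain ⟨s2, h6, h7⟩ := fst_ex (A := K e') h5
      exact Or.inr (Or.inl ⟨e', s2, ⟨h7, (h6.trans h4).trans hf.1.1, fun s' hs' =>
        not_le.1 (hcl s' (lt_of_lt_of_le hs' (h6.trans h4)) e')⟩, hR⟩)
    · have h3' : ∀ s' ≤ s, ∀ e', ¬ K e' s' w := fun s' hs' e' h4 => h3 ⟨s', hs', e', h4⟩
      -- sight of smallest rank
      obtain ⟨e0, he0, hmin⟩ : ∃ e0, hv P Y R v e0 s w ∧ ∀ e', rk e' < rk e0 → ¬ hv P Y R v e' s w := by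
        obtain ⟨e1, he1⟩ := hf.1.2
        have hne : ((univ : Finset ι).filter fun e => hv P Y R v e s w).Nonempty :=
          ⟨e1, mem_filter.2 ⟨mem_univ _, he1⟩⟩
        obtain ⟨e0, h4, h5⟩ := Finset.exists_min_image _ rk hne
        refine ⟨e0, (mem_filter.1 h4).2, fun e' h6 h7 => ?_⟩
        have := h5 e' (mem_filter.2 ⟨mem_univ _, h7⟩)
        omega
      have hcd : cd P Y R v K rk e0 s w := ⟨hcl, hmin, h3'⟩
      have hfh : fh P Y R v e0 s w := ⟨he0, fun s' hs' => hcl s' hs' e0⟩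
      by_cases h4 : sel e0 s w
      · exact absurd ⟨e0, s, ⟨hfh, h4, hf.1.1⟩, Or.inl hcd⟩ hn
      by_cases h5 : Mt e0 s w
      · have hent : ent P Y R v K sel Mt rk e0 s w := ⟨⟨hfh, h4, h5⟩, hcd⟩
        have hV : ∀ s' ≤ s, ¬ hv P Y R v (g e0) s' w := fun s' hs' => by
          rcases hs'.lt_or_eq with h6 | h6
          · exact hcl s' h6 _
          · exact h6 ▸ hmin _ (hMt e0 s w h5)
        by_cases h6 : ∃ t ≤ σ w, (K (g e0) t w ∨ K (o e0) t w ∨ hv P Y R v (g e0) t w)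
        · obtain ⟨t, ht, hft⟩ := fst_ex
            (A := fun t w => t ≤ σ w ∧ (K (g e0) t w ∨ K (o e0) t w ∨ hv P Y R v (g e0) t w)) (s := h6.choose)
            (w := w) ⟨h6.choose_spec.1, h6.choose_spec.2⟩
          have hb : ∀ s' < t, ¬ K (g e0) s' w ∧ ¬ K (o e0) s' w ∧ ¬ hv P Y R v (g e0) s' w := fun s' hs' => by
            have h7 := hft.2 s' hs'
            refine ⟨fun h8 => h7 ⟨hs'.le.trans hft.1.1, Or.inl h8⟩, fun h8 => h7 ⟨hs'.le.trans hft.1.1, Or.inr (Or.inl h8)⟩,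
              fun h8 => h7 ⟨hs'.le.trans hft.1.1, Or.inr (Or.inr h8)⟩⟩
          have hst : s < t := by
            by_contra h7
            have h8 := not_lt.1 h7
            rcases hft.1.2 with h9 | h9 | h9
            · exact h3' t h8 _ h9
            · exact h3' t h8 _ h9
            · exact hV t h8 h9
          by_cases h7 : K (g e0) t w
          · exact Or.inr (Or.inl ⟨g e0, t, ⟨⟨h7, fun s' hs' => (hb s' hs').1⟩, hft.1.1, fun s' hs' =>
              not_le.1 (hb s' hs').2.2⟩, hR⟩)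
          · have h8 : ∀ s' ≤ t, ¬ K (g e0) s' w := fun s' hs' => by
              rcases hs'.lt_or_eq with h9 | h9
              · exact (hb s' h9).1
              · exact h9 ▸ h7
            by_cases h9 : K (o e0) t w
            · exact Or.inr (Or.inr (Or.inl ⟨e0, t, hft.1.1, ⟨h9, fun s' hs' => (hb s' hs').2.1⟩, ⟨s, hst.le, hent⟩, h8⟩))
            · have h10 : hv P Y R v (g e0) t w := by
                rcases hft.1.2 with h11 | h11 | h11
                · exact absurd h11 h7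
                · exact absurd h11 h9
                · exact h11
              have h12 : fh P Y R v (g e0) t w := ⟨h10, fun s' hs' => (hb s' hs').2.2⟩
              have h13 : ∀ s' ≤ t, ¬ K (o e0) s' w := fun s' hs' => by
                rcases hs'.lt_or_eq with h14 | h14
                · exact (hb s' h14).2.1
                · exact h14 ▸ h9
              have h14 : m2 P Y R v K sel Mt rk g o (g e0) t w :=
                ⟨e0, rfl, s, hst, hent, fun s' hs' => ⟨h8 s' hs', h13 s' hs'⟩⟩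
              by_cases h15 : sel (g e0) t w
              · exact absurd ⟨g e0, t, ⟨h12, h15, hft.1.1⟩, Or.inr h14⟩ hn
              · exact Or.inr (Or.inr (Or.inr (Or.inr ⟨g e0, t, ⟨h12, h15, hft.1.1⟩, Or.inr h14⟩)))
        · exact Or.inr (Or.inr (Or.inr (Or.inl ⟨e0, ⟨s, hf.1.1, hent⟩, fun s' hs' h7 => h6 ⟨s', hs', Or.inl h7⟩⟩)))
      · exact Or.inr (Or.inr (Or.inr (Or.inr ⟨e0, s, ⟨hfh, h4, hf.1.1⟩, Or.inl ⟨hcd, h5⟩⟩)))
  · exact Or.inl fun e => not_le.1 fun h4 => h2 ⟨σ w, le_rfl, e, h4⟩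

/-- **THE UNSIGNED PART** -/
theorem tree3_unsigned (fY : ∀ e, Filt (Y e)) (hY : ∀ e s, Fac (Y e s) (nd s)) (hσ : Stp nd σ) (hT : ∀ w, σ w < T)
    (v0 : ∀ e, 0 ≤ v e) (h0 : 0 ≤ h) (hm : ∀ e s w, P.p w ≠ 0 → P.m (Y e s) w ≤ h * P.m (Y e (s + 1)) w)
    (hK : ∀ e s x w, Y e s x = Y e s w → (K e s x ↔ K e s w))
    (hsel : ∀ e s x w, Y e s x = Y e s w → (sel e s x ↔ sel e s w))
    (hMt : ∀ e s w, Mt e s w → rk (g e) < rk e)
    {G : ι → ℕ → Om → ℝ} (hG : ∀ e s, Fac (Y e s) (G e s)) (hG0 : ∀ e s w, 0 ≤ G e s w)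
    {H : ι → ℕ → Om → ℝ} (hH : ∀ e s, Fac (Y e s) (H e s)) (hH0 : ∀ e s w, 0 ≤ H e s w) (hH1 : ∀ e s w, H e s w ≤ 1)
    {W : Om → ℝ} (hW1 : ∀ w, W w ≤ 1) (hWG : ∀ w, W w ≤ ∑ e, G e (σ w) w)
    (hWH : ∀ e s w, Mt e s w → W w ≤ H (o e) (σ w) w)
    {uC ka : ι → ℝ} {Bd Bl : ι → Om → Prop}
    (hmu : ∀ e s w, P.p w ≠ 0 → cp P (Y (o e)) s (mu P Y R v K sel Mt rk g e s) w ≤ uC e + ind (Bd e w))
    (hlf : ∀ e s w, P.p w ≠ 0 → fh P Y R v e s w → ¬ sel e s w → s ≤ σ w →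
      cp P (Y e) s (fun x => R x ∧ lf P Y R v K sel Mt rk g o e s x) w ≤ ka e + ind (Bl e w)) :
    P.E (fun w => ind (R w ∧ ¬ Rel P Y R v K sel Mt rk g o σ w) * W w) ≤
      ∑ e, v e * P.E (fun w => G e (σ w) w) +
      ∑ e, (h * v e * P.Pr (fun w => ∃ s ≤ σ w, K e s w) + P.Pr (K e 0)) +
      ∑ e, (uC e * P.Pr (fun w => ∃ s ≤ σ w, fst (K (o e)) s w) + P.Pr (Bd e)) +
      ∑ e, (uC e * P.E (fun w => H (o e) (σ w) w) + P.Pr (Bd e)) +
      ∑ e, (ka e * P.Pr (fun w => ∃ s ≤ σ w, fh P Y R v e s w ∧ ¬ sel e s w) + P.Pr (Bl e)) := by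
  classical
  set q2 : ι → Om → Prop := fun e w => ∃ s ≤ σ w, fst (K (o e)) s w ∧ mu P Y R v K sel Mt rk g e s w with hq2
  set q5 : ι → Om → Prop := fun e w => ∃ s ≤ σ w, (fh P Y R v e s w ∧ ¬ sel e s w) ∧
    (R w ∧ lf P Y R v K sel Mt rk g o e s w) with hq5
  have pw : ∀ w, ind (R w ∧ ¬ Rel P Y R v K sel Mt rk g o σ w) * W w ≤
      ∑ e, ind (R w ∧ cp P (Y e) (σ w) R w < v e) * G e (σ w) w + ∑ e, ind (Q1 P Y R v K σ e w) +
        ∑ e, ind (q2 e w) + ∑ e, ind (mu P Y R v K sel Mt rk g e (σ w) w) * H (o e) (σ w) w + ∑ e, ind (q5 e w) := by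
    intro w
    have p1 : 0 ≤ ∑ e, ind (R w ∧ cp P (Y e) (σ w) R w < v e) * G e (σ w) w :=
      Finset.sum_nonneg fun e _ => mul_nonneg (ind_nonneg _) (hG0 e _ w)
    have p2 : 0 ≤ ∑ e, ind (Q1 P Y R v K σ e w) := Finset.sum_nonneg fun e _ => ind_nonneg _
    have p3 : 0 ≤ ∑ e, ind (q2 e w) := Finset.sum_nonneg fun e _ => ind_nonneg _
    have p4 : 0 ≤ ∑ e, ind (mu P Y R v K sel Mt rk g e (σ w) w) * H (o e) (σ w) w :=
      Finset.sum_nonneg fun e _ => mul_nonneg (ind_nonneg _) (hH0 (o e) _ w)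
    have p5 : 0 ≤ ∑ e, ind (q5 e w) := Finset.sum_nonneg fun e _ => ind_nonneg _
    have single : ∀ (A : ι → Om → Prop) (e : ι), A e w → (1 : ℝ) ≤ ∑ e, ind (A e w) := fun A e hA => by
      have h9 : ind (A e w) ≤ ∑ e, ind (A e w) :=
        Finset.single_le_sum (f := fun e => ind (A e w)) (fun e _ => ind_nonneg _) (mem_univ e)
      rwa [ind_of hA] at h9
    by_cases h1 : R w ∧ ¬ Rel P Y R v K sel Mt rk g o σ w
    · rw [ind_of h1, one_mul]
      rcases cases3 P Y R v K sel Mt rk g o σ hMt h1.1 h1.2 with c | ⟨e, c⟩ | ⟨e, c⟩ | ⟨e, c⟩ | ⟨e, s, a, b⟩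
      · have h4 : ∑ e, ind (R w ∧ cp P (Y e) (σ w) R w < v e) * G e (σ w) w = ∑ e, G e (σ w) w :=
          Finset.sum_congr rfl fun e _ => by rw [ind_of ⟨h1.1, c e⟩, one_mul]
        rw [h4]
        have := hWG w
        linarith
      · have := single (fun e w => Q1 P Y R v K σ e w) e c
        have := hW1 w
        linarith
      · have := single (fun e w => q2 e w) e c
        have := hW1 w
        linarith
      · have h5 : ind (mu P Y R v K sel Mt rk g e (σ w) w) * H (o e) (σ w) w ≤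
            ∑ e, ind (mu P Y R v K sel Mt rk g e (σ w) w) * H (o e) (σ w) w :=
          Finset.single_le_sum (f := fun e => ind (mu P Y R v K sel Mt rk g e (σ w) w) * H (o e) (σ w) w)
            (fun e _ => mul_nonneg (ind_nonneg _) (hH0 (o e) _ w)) (mem_univ e)
        rw [ind_of c, one_mul] at h5
        obtain ⟨⟨s0, _, hs0⟩, _⟩ := c
        have := hWH e s0 w hs0.1.2.2
        linarith
      · have := single (fun e w => q5 e w) e ⟨s, a.2.2, ⟨a.1, a.2.1⟩, h1.1, b⟩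
        have := hW1 w
        linarith
    · rw [ind_not h1, zero_mul]
      linarith
  refine (P.E_mono fun w _ => pw w).trans ?_
  rw [FP.E_add, FP.E_add, FP.E_add, FP.E_add, FP.E_sum, FP.E_sum, FP.E_sum, FP.E_sum, FP.E_sum]
  have b1 : ∑ e, P.E (fun w => ind (R w ∧ cp P (Y e) (σ w) R w < v e) * G e (σ w) w) ≤
      ∑ e, v e * P.E (fun w => G e (σ w) w) :=
    Finset.sum_le_sum fun e _ => light_end (fY e) (hY e) hσ hT (v0 e) (hG e) (hG0 e)
  have b2 : ∑ e, P.E (fun w => ind (Q1 P Y R v K σ e w)) ≤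
      ∑ e, (h * v e * P.Pr (fun w => ∃ s ≤ σ w, K e s w) + P.Pr (K e 0)) :=
    Finset.sum_le_sum fun e _ => cover_first (fY e) (hY e) hσ hT (v0 e) h0 (hm e) (hK e)
  have b3 : ∑ e, P.E (fun w => ind (q2 e w)) ≤
      ∑ e, (uC e * P.Pr (fun w => ∃ s ≤ σ w, fst (K (o e)) s w) + P.Pr (Bd e)) :=
    Finset.sum_le_sum fun e _ => ev_le (fY (o e)) (hY (o e)) hσ hT (f := fun s w => fst (K (o e)) s w)
      (fun s x w a => by
        unfold fst
        rw [hK (o e) s x w a]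
        exact and_congr_right fun _ => forall_congr' fun s' => forall_congr' fun hs' =>
          not_congr (hK (o e) s' x w ((fY (o e)).le hs'.le x w a)))
      (fun w s s' a b => fst_one s s' a b) (fun s w hw _ _ => hmu e s w hw)
  have b4 : ∑ e, P.E (fun w => ind (mu P Y R v K sel Mt rk g e (σ w) w) * H (o e) (σ w) w) ≤
      ∑ e, (uC e * P.E (fun w => H (o e) (σ w) w) + P.Pr (Bd e)) :=
    Finset.sum_le_sum fun e _ => end_le (fY (o e)) (hY (o e)) hσ hT (hH (o e)) (hH0 (o e)) (hH1 (o e))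
      (Q := fun s => mu P Y R v K sel Mt rk g e s) (fun s w hw => hmu e s w hw)
  have b5 : ∑ e, P.E (fun w => ind (q5 e w)) ≤
      ∑ e, (ka e * P.Pr (fun w => ∃ s ≤ σ w, fh P Y R v e s w ∧ ¬ sel e s w) + P.Pr (Bl e)) :=
    Finset.sum_le_sum fun e _ => ev_le (fY e) (hY e) hσ hT (f := fun s w => fh P Y R v e s w ∧ ¬ sel e s w)
      (fun s x w a => by rw [fh_fac fY e s a, hsel e s x w a]) (fun w s s' a b => fh_one e w s s' a.1 b.1)
      (Q := fun s x => R x ∧ lf P Y R v K sel Mt rk g o e s x) (fun s w hw a b => hlf e s w hw a.1 a.2 b)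
  linarith

end faces

end

end Pool.Agent.GMH.Tree3
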