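import Pool.Agent.GMH.Cov2

/-!
# GMH/Tri (helper63): three bodies, the abstract accounting (notes 3926 (C), 3934 (3))

`N` = nodes; `GB`, `GC` = node and the exact vertex `b`, `c`; `GBC` = node and both.  `bd` = the letter of `(b,c)` is bad;
`den G s` = its density given `G s`; `up G s` = the density has been `≥ ub` at a time `≤ s`.  `KB s`, `KC s` (cumulative) =
`b`, `c` is covered at the time `s`.  `ρ s` = mean of `ψ` given `GBC s`.
A pair is DECIDED at the first time at which `KB`, `KC`, `up GB` or `up GC` holds; it is RELEASED (`Rl`, signed) if neither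
`KB` nor `KC` holds then and `ρ ≤ lam2`; otherwise it is `Un` (unsigned).

* `un_le` : `P (bd, Un) ≤ h ub (P(KB σ) + P(KC σ)) + kap (P(up GB σ) + P(up GC σ)) + P(bad rows) + P(Ex)`;
* `rl_le` : `E 1_bd 1_released ψ ≤ lam2 h ub (P(up GB σ) + P(up GC σ))`;
* `undec_le` : `E 1_bd 1(not up GC at σ) g(σ) ≤ ub E g(σ)`;
* `up_pay` : `ub P(up G σ) ≤ P(bd, up G σ)`.
-/

set_option autoImplicit false
set_option linter.unusedSectionVars false

namespace Pool.Agent.GMH.Tri

open Finset Pool.Agent.PWZ Pool.Agent.M3 Pool.Agent.GMH.Gdy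

noncomputable section

variable {Om : Type*} [Fintype Om] (P : FP Om)

/-- density of the bad pairs -/
def den (bd : Om → Prop) {κ : ℕ → Type*} (G : ∀ t, Om → κ t) (s : ℕ) (w : Om) : ℝ :=
  P.ce (G s) (fun v => ind (bd v)) w

/-- the density has been at least `ub` at a time `≤ s` -/
def up (bd : Om → Prop) (ub : ℝ) {κ : ℕ → Type*} (G : ∀ t, Om → κ t) (s : ℕ) (w : Om) : Prop :=
  ∃ s' ≤ s, ub ≤ den P bd G s' w

variable {P} {bd : Om → Prop} {ub h : ℝ} {κ : ℕ → Type*} {G : ∀ t, Om → κ t}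

theorem up_succ {s : ℕ} {w : Om} (hw : up P bd ub G s w) : up P bd ub G (s + 1) w := by
  obtain ⟨s', h1, h2⟩ := hw
  exact ⟨s', by omega, h2⟩

theorem up_fac (hG : Filt G) (s : ℕ) (v w : Om) (h : G s v = G s w) : up P bd ub G s v ↔ up P bd ub G s w := by
  unfold up
  refine exists_congr fun s' => and_congr_right fun hs => ?_
  unfold den
  rw [P.ce_fac (G s') _ v w (hG.le hs v w h)]

theorem not_up {s : ℕ} {w : Om} (h : ¬ up P bd ub G s w) : den P bd G s w < ub := by
  by_contra hcon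
  exact h ⟨s, le_rfl, not_lt.1 hcon⟩

/-- cumulative predicates -/
def Cum (K : ℕ → Om → Prop) : Prop := ∀ s w, K s w → K (s + 1) w

theorem Cum.le {K : ℕ → Om → Prop} (hK : Cum K) {s t : ℕ} (hst : s ≤ t) {w : Om} (h : K s w) : K t w := by
  induction t, hst using Nat.le_induction with
  | base => exact h
  | succ t _ ih => exact hK t w ih

theorem up_cum : Cum (up P bd ub G) := fun _ _ h => up_succ h

/-- the first time of a cumulative predicate -/
theorem sum_first {K : ℕ → Om → Prop} (hK : Cum K) {σ : Om → ℕ} {T : ℕ} (hT : ∀ w, σ w < T) (w : Om) :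
    ∑ s ∈ range T, ind (s < σ w) * ind (K (s + 1) w ∧ ¬ K s w) = ind (K (σ w) w ∧ ¬ K 0 w) := by
  have h1 : ∀ n, ∑ s ∈ range n, ind (s < σ w) * ind (K (s + 1) w ∧ ¬ K s w) =
      ind (K (min n (σ w)) w ∧ ¬ K 0 w) := by
    intro n
    induction n with
    | zero =>
      rw [Nat.zero_min, ind_not (p := K 0 w ∧ ¬ K 0 w) (fun h => h.2 h.1)]
      simp
    | succ n ih =>
      rw [Finset.sum_range_succ, ih]
      by_cases hn : n < σ w
      · rw [ind_of hn, one_mul, min_eq_left hn.le, min_eq_left (by omega)]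
        have hm1 : K 0 w → K n w := hK.le (Nat.zero_le n)
        by_cases a : K 0 w
        · rw [ind_not (fun h => h.2 a), ind_not (fun h => h.2 (hm1 a)), ind_not (fun h => h.2 a)]
          ring
        · by_cases b : K n w
          · rw [ind_of ⟨b, a⟩, ind_not (fun h => h.2 b), ind_of ⟨hK n w b, a⟩]
            ring
          · by_cases c : K (n + 1) w
            · rw [ind_not (fun h => b h.1), ind_of ⟨c, b⟩, ind_of ⟨c, a⟩]
              ring
            · rw [ind_not (fun h => b h.1), ind_not (fun h => c h.1), ind_not (fun h => c h.1)]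
              ring
      · rw [ind_not hn, zero_mul, add_zero, min_eq_right (by omega), min_eq_right (by omega)]
  rw [h1 T, min_eq_right (hT w).le]

/-- the sum over the times of a part of the first times -/
theorem sum_first_le {K : ℕ → Om → Prop} (hK : Cum K) {σ : Om → ℕ} {T : ℕ} (hT : ∀ w, σ w < T) :
    ∑ s ∈ range T, P.E (fun w => ind (s < σ w) * ind (K (s + 1) w ∧ ¬ K s w)) ≤ P.Pr (fun w => K (σ w) w) := by
  rw [← FP.E_sum]
  refine P.E_mono fun w _ => ?_
  rw [sum_first hK hT w]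
  exact ind_mono fun h => h.1

/-- the density of the bad pairs after a time at which it was small -/
theorem den_succ (hG : Filt G) {s : ℕ} {w : Om} (hw : P.p w ≠ 0) (h0 : 0 ≤ h) (hm : P.m (G s) w ≤ h * P.m (G (s + 1)) w)
    (hu : ¬ up P bd ub G s w) : den P bd G (s + 1) w ≤ h * ub :=
  (cp_ratio (P := P) (Y := G) (hG s) hw hm bd).trans (mul_le_mul_of_nonneg_left (not_up hu).le h0)

/-! ## first times with a weight -/

/-- `E 1(first time of K) 1_bd ≤ h ub P(first time)` if the density has not been large before -/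
theorem first_bd (hG : Filt G) (h0 : 0 ≤ h) (hm : ∀ s w, P.p w ≠ 0 → P.m (G s) w ≤ h * P.m (G (s + 1)) w)
    {N : ∀ t, Om → κ t} {σ : Om → ℕ} (hσ : Stp G σ) {K : ℕ → Om → Prop}
    (hK : ∀ s v w, G s v = G s w → (K s v ↔ K s w)) (s : ℕ) :
    P.E (fun w => ind (s < σ w) * ind (K (s + 1) w ∧ ¬ K s w) * ind (¬ up P bd ub G s w) * ind (bd w)) ≤
      h * ub * P.E (fun w => ind (s < σ w) * ind (K (s + 1) w ∧ ¬ K s w) * ind (¬ up P bd ub G s w)) := by
  have hf : Fac (G (s + 1)) (fun w => ind (s < σ w) * ind (K (s + 1) w ∧ ¬ K s w) * ind (¬ up P bd ub G s w)) := by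
    refine Fac.mul (Fac.mul ((hG s).trans (hσ.lt_fac s)) (Fac.ind fun v w hvw => ?_)) (Fac.ind fun v w hvw => ?_)
    · rw [hK (s + 1) v w hvw, hK s v w (hG s v w hvw)]
    · rw [up_fac hG s v w (hG s v w hvw)]
  rw [← P.E_mul_ce hf (fun w => ind (bd w)), ← FP.E_smul]
  refine P.E_mono fun w hw => ?_
  by_cases hu : up P bd ub G s w
  · rw [ind_not (p := ¬ up P bd ub G s w) (fun h => h hu)]
    simp
  · have h1 := den_succ hG hw h0 (hm s w hw) hu
    have h2 : 0 ≤ ind (s < σ w) * ind (K (s + 1) w ∧ ¬ K s w) * ind (¬ up P bd ub G s w) :=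
      mul_nonneg (mul_nonneg (ind_nonneg _) (ind_nonneg _)) (ind_nonneg _)
    have h3 := mul_le_mul_of_nonneg_left h1 h2
    unfold den at h3
    linarith

/-- **payment of the rise of the density** -/
theorem up_pay (hG : Filt G) {σ : Om → ℕ} (hσ : Stp G σ) {T : ℕ} (hT : ∀ w, σ w < T) :
    ub * P.Pr (fun w => up P bd ub G (σ w) w) ≤ P.Pr (fun w => bd w ∧ up P bd ub G (σ w) w) := by
  -- the first time
  set fst : ℕ → Om → Prop := fun s w => ub ≤ den P bd G s w ∧ ∀ s' < s, ¬ ub ≤ den P bd G s' w with hfst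
  have hff : ∀ s v w, G s v = G s w → (fst s v ↔ fst s w) := by
    intro s v w hvw
    rw [hfst]
    unfold den
    simp only
    rw [P.ce_fac (G s) _ v w hvw]
    refine and_congr_right fun _ => forall_congr' fun s' => forall_congr' fun hs' => ?_
    rw [P.ce_fac (G s') _ v w (hG.le hs'.le v w hvw)]
  have hsum : ∀ w, ∑ s ∈ range T, ind (s ≤ σ w) * ind (fst s w) = ind (up P bd ub G (σ w) w) := by
    intro w
    classical
    by_cases hu : up P bd ub G (σ w) w
    · rw [ind_of hu]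
      have hex : ∃ s, ub ≤ den P bd G s w := by
        obtain ⟨s, _, h⟩ := hu
        exact ⟨s, h⟩
      set s0 := Nat.find hex with hs0
      have h1 : fst s0 w := ⟨Nat.find_spec hex, fun s' hs' => Nat.find_min hex hs'⟩
      have h2 : s0 ≤ σ w := by
        obtain ⟨s, hs, h⟩ := hu
        exact (Nat.find_min' hex h).trans hs
      rw [Finset.sum_eq_single s0, ind_of h2, ind_of h1, one_mul]
      · intro s _ hne
        rw [ind_not (p := fst s w), mul_zero]
        intro h3
        rcases lt_trichotomy s s0 with h4 | h4 | h4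
        · exact h1.2 s h4 h3.1
        · exact hne h4
        · exact h3.2 s0 h4 h1.1
      · intro h3
        exact absurd (mem_range.2 (lt_of_le_of_lt h2 (hT w))) h3
    · rw [ind_not hu]
      refine Finset.sum_eq_zero fun s _ => ?_
      by_cases h1 : s ≤ σ w
      · rw [ind_not (p := fst s w), mul_zero]
        intro h2
        exact hu ⟨s, h1, h2.1⟩
      · rw [ind_not h1, zero_mul]
  have hle : ∀ s, Fac (G s) (fun w => ind (s ≤ σ w) * ind (fst s w)) := by
    intro s
    refine Fac.mul (Fac.ind fun v w hvw => ?_) (Fac.ind fun v w hvw => ?_)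
    · rcases Nat.eq_zero_or_pos s with h1 | h1
      · subst h1
        simp
      · have := hσ (s - 1) v w (hG.le (Nat.sub_le s 1) v w hvw)
        omega
    · rw [hff s v w hvw]
  have h1 : P.Pr (fun w => bd w ∧ up P bd ub G (σ w) w) =
      ∑ s ∈ range T, P.E (fun w => ind (s ≤ σ w) * ind (fst s w) * ind (bd w)) := by
    rw [← FP.E_sum]
    refine P.E_congr fun w _ => ?_
    rw [← Finset.sum_mul, hsum w, ind_and, mul_comm]
  have h2 : P.Pr (fun w => up P bd ub G (σ w) w) = ∑ s ∈ range T, P.E (fun w => ind (s ≤ σ w) * ind (fst s w)) := by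
    rw [← FP.E_sum]
    exact P.E_congr fun w _ => (hsum w).symm
  rw [h1, h2, Finset.mul_sum]
  refine Finset.sum_le_sum fun s _ => ?_
  rw [← P.E_mul_ce (hle s) (fun w => ind (bd w)), ← FP.E_smul]
  refine P.E_mono fun w _ => ?_
  have h0 : 0 ≤ ind (s ≤ σ w) * ind (fst s w) := mul_nonneg (ind_nonneg _) (ind_nonneg _)
  by_cases hf : fst s w
  · have h3 := mul_le_mul_of_nonneg_left hf.1 h0
    unfold den at h3
    linarith
  · rw [ind_not hf]
    simp

/-- **undecided pairs** : `GD` = node, the exact vertex of `G` and the third vertex -/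
theorem undec_le (hub : 0 ≤ ub) (hG : Filt G) {κ' : ℕ → Type*} {GD : ∀ t, Om → κ' t} (hGD : ∀ s, Fac (GD s) (G s))
    (hden : ∀ s w, P.p w ≠ 0 → P.ce (GD s) (fun v => ind (bd v)) w = den P bd G s w) {σ : Om → ℕ} (hσ : Stp G σ)
    {T : ℕ} (hT : ∀ w, σ w < T) {g : ℕ → Om → ℝ} (hg : ∀ s, Fac (GD s) (g s)) (hg0 : ∀ s w, 0 ≤ g s w) :
    P.E (fun w => ind (¬ up P bd ub G (σ w) w) * g (σ w) w * ind (bd w)) ≤ ub * P.E (fun w => g (σ w) w) := by
  rw [E_stop hT (fun s w => ind (¬ up P bd ub G s w) * g s w * ind (bd w)), E_stop hT (fun s w => g s w),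
    Finset.mul_sum]
  refine Finset.sum_le_sum fun s _ => ?_
  have hf : Fac (GD s) (fun w => ind (σ w = s) * (ind (¬ up P bd ub G s w) * g s w)) := by
    refine Fac.mul ((hGD s).trans (hσ.eq_fac hG s)) (Fac.mul ((hGD s).trans (Fac.ind fun v w hvw => ?_)) (hg s))
    rw [up_fac hG s v w hvw]
  have e1 : P.E (fun w => ind (σ w = s) * (ind (¬ up P bd ub G s w) * g s w * ind (bd w))) =
      P.E (fun w => ind (σ w = s) * (ind (¬ up P bd ub G s w) * g s w) * ind (bd w)) := P.E_congr fun w _ => by ring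
  rw [e1, ← P.E_mul_ce hf (fun w => ind (bd w)), ← FP.E_smul]
  refine P.E_mono fun w hw => ?_
  rw [hden s w hw]
  have h0 : 0 ≤ ind (σ w = s) * g s w := mul_nonneg (ind_nonneg _) (hg0 s w)
  by_cases hu : up P bd ub G s w
  · rw [ind_not (p := ¬ up P bd ub G s w) (fun h => h hu)]
    simpa using mul_nonneg hub h0
  · rw [ind_of hu, one_mul]
    have h1 := mul_le_mul_of_nonneg_left (not_up hu).le h0
    linarith

/-! ## the decision -/

variable {κB κC κE κN : ℕ → Type*} {N : ∀ t, Om → κN t} {GB : ∀ t, Om → κB t} {GC : ∀ t, Om → κC t}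
  {GE : ∀ t, Om → κE t} {KB KC : ℕ → Om → Prop} {ψ : Om → ℝ} {lam2 kap : ℝ}

theorem Stp.mono (hG : ∀ s, Fac (G s) (N s)) {σ : Om → ℕ} (hσ : Stp N σ) : Stp G σ := fun s v w hvw =>
  hσ s v w (hG s v w hvw)

variable (P bd ub GB GC KB KC) in
/-- decided at a time `≤ s` -/
def Dc (s : ℕ) (w : Om) : Prop := KB s w ∨ KC s w ∨ up P bd ub GB s w ∨ up P bd ub GC s w

variable (P bd ub GB GC KB KC GE ψ lam2) in
/-- decided and released at the time `s + 1` -/
def Rl (s : ℕ) (w : Om) : Prop := ¬ Dc P bd ub GB GC KB KC s w ∧ ¬ KB (s + 1) w ∧ ¬ KC (s + 1) w ∧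
  (up P bd ub GB (s + 1) w ∨ up P bd ub GC (s + 1) w) ∧ P.ce (GE (s + 1)) ψ w ≤ lam2

variable (P bd ub GB GC KB KC GE ψ lam2) in
/-- decided and not released at the time `s + 1` -/
def Un (s : ℕ) (w : Om) : Prop := ¬ Dc P bd ub GB GC KB KC s w ∧ Dc P bd ub GB GC KB KC (s + 1) w ∧
  ¬ Rl P bd ub GB GC GE KB KC ψ lam2 s w

variable (P KB KC GE ψ lam2) in
/-- both vertices are uncovered and the row of the pair is large -/
def Ab (s : ℕ) (w : Om) : Prop := lam2 < P.ce (GE s) ψ w ∧ ¬ KB s w ∧ ¬ KC s w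

variable (P KB KC GE ψ lam2 kap) in
/-- bad vertex: too many of the other vertices are uncovered and have a large row -/
def bv (G : ∀ t, Om → κ t) (Ex : Om → Prop) (T : ℕ) (w : Om) : Prop :=
  ∃ t ≤ T, kap < P.ce (G t) (fun v => ind (Ab P GE KB KC ψ lam2 t v ∧ ¬ Ex v)) w

theorem Dc_cum (hB : Cum KB) (hC : Cum KC) : Cum (Dc P bd ub GB GC KB KC) := by
  rintro s w (h | h | h | h)
  · exact Or.inl (hB s w h)
  · exact Or.inr (Or.inl (hC s w h))
  · exact Or.inr (Or.inr (Or.inl (up_succ h)))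
  · exact Or.inr (Or.inr (Or.inr (up_succ h)))

/-- exactly one of the four cases -/
theorem cases4 (hB : Cum KB) (hC : Cum KC) (σ : Om → ℕ) (w : Om) (h0 : ¬ Dc P bd ub GB GC KB KC 0 w) :
    (¬ Dc P bd ub GB GC KB KC (σ w) w) ∨ (∃ s < σ w, Un P bd ub GB GC GE KB KC ψ lam2 s w) ∨
      ∃ s < σ w, Rl P bd ub GB GC GE KB KC ψ lam2 s w := by
  by_cases h : Dc P bd ub GB GC KB KC (σ w) w
  · right
    classical
    have hex : ∃ s, Dc P bd ub GB GC KB KC s w := ⟨σ w, h⟩
    set s0 := Nat.find hex with hs0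
    have h1 := Nat.find_spec hex
    have h2 : s0 ≤ σ w := Nat.find_min' hex h
    have h3 : s0 ≠ 0 := by
      intro h4
      rw [← hs0, h4] at h1
      exact h0 h1
    obtain ⟨s, hs⟩ : ∃ s, s0 = s + 1 := ⟨s0 - 1, by omega⟩
    have h5 : ¬ Dc P bd ub GB GC KB KC s w := Nat.find_min hex (by omega)
    rw [← hs0, hs] at h1
    by_cases h6 : Rl P bd ub GB GC GE KB KC ψ lam2 s w
    · exact Or.inr ⟨s, by omega, h6⟩
    · exact Or.inl ⟨s, by omega, h5, h1, h6⟩
  · exact Or.inl h

/-- the first times of a covered vertex -/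
theorem K_le {KC : ℕ → Om → Prop} (hGC : Filt GC) (fC : ∀ s, Fac (GC s) (N s)) (h0 : 0 ≤ h) (hub : 0 ≤ ub)
    (hmC : ∀ s w, P.p w ≠ 0 → P.m (GC s) w ≤ h * P.m (GC (s + 1)) w) (cC : Cum KC)
    (hKC : ∀ s v w, GC s v = GC s w → (KC s v ↔ KC s w)) {σ : Om → ℕ} (hσ : Stp N σ) {T : ℕ} (hT : ∀ w, σ w < T) :
    ∑ s ∈ range T, P.E (fun w => ind (s < σ w) * ind (KC (s + 1) w ∧ ¬ KC s w) *
      ind (¬ up P bd ub GC s w) * ind (bd w)) ≤ h * ub * P.Pr (fun w => KC (σ w) w) := by
  refine (Finset.sum_le_sum fun s _ => first_bd (bd := bd) hGC h0 hmC (N := GC) (Stp.mono fC hσ) hKC s).trans ?_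
  rw [← Finset.mul_sum]
  refine mul_le_mul_of_nonneg_left ?_ (mul_nonneg h0 hub)
  refine le_trans (Finset.sum_le_sum fun s _ => P.E_mono fun w _ => ?_) (sum_first_le cC hT)
  exact mul_le_of_le_one_right (mul_nonneg (ind_nonneg _) (ind_nonneg _)) (ind_le_one _)

end

end Pool.Agent.GMH.Tri
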