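import Pool.Agent.GMH.Tri

/-!
# GMH/Tri2 (helper63): three bodies, the main inequalities (see GMH/Tri)
-/

set_option autoImplicit false
set_option linter.unusedSectionVars false

namespace Pool.Agent.GMH.Tri

open Finset Pool.Agent.PWZ Pool.Agent.M3 Pool.Agent.GMH.Gdy

noncomputable section

variable {Om : Type*} [Fintype Om] {P : FP Om} {bd : Om → Prop} {ub h : ℝ} {κB κC κE κN : ℕ → Type*}
  {N : ∀ t, Om → κN t} {GB : ∀ t, Om → κB t} {GC : ∀ t, Om → κC t} {GE : ∀ t, Om → κE t} {KB KC : ℕ → Om → Prop}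
  {ψ : Om → ℝ} {lam2 kap : ℝ} {κ : ℕ → Type*} {G : ∀ t, Om → κ t}

/-- both uncovered and a large row at the first time at which the density of the bad pairs is large -/
theorem dev_le (hG : Filt G) (fG : ∀ s, Fac (G s) (N s)) (hk : 0 ≤ kap) {σ : Om → ℕ} (hσ : Stp N σ) {T : ℕ}
    (hT : ∀ w, σ w < T) (Ex : Om → Prop) :
    ∑ s ∈ range T, P.E (fun w => ind (s < σ w) * ind (up P bd ub G (s + 1) w ∧ ¬ up P bd ub G s w) *
      ind (Ab P GE KB KC ψ lam2 (s + 1) w)) ≤
      kap * P.Pr (fun w => up P bd ub G (σ w) w) + P.Pr (bv P GE KB KC ψ lam2 kap G Ex T) + P.Pr Ex := by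
  set n : ℕ → Om → ℝ := fun s w => ind (s < σ w) * ind (up P bd ub G (s + 1) w ∧ ¬ up P bd ub G s w) with hn
  have hn0 : ∀ s w, 0 ≤ n s w := fun s w => mul_nonneg (ind_nonneg _) (ind_nonneg _)
  have hsum : ∀ w, ∑ s ∈ range T, n s w ≤ 1 := fun w => by
    rw [hn, sum_first up_cum hT w]
    exact ind_le_one _
  have hf : ∀ s, Fac (G (s + 1)) (n s) := by
    intro s
    refine Fac.mul ((hG s).trans ((Stp.mono fG hσ).lt_fac s)) (Fac.ind fun v w hvw => ?_)
    rw [up_fac hG (s + 1) v w hvw, up_fac hG s v w (hG s v w hvw)]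
  -- one time
  have h1 : ∀ s ∈ range T, P.E (fun w => n s w * ind (Ab P GE KB KC ψ lam2 (s + 1) w)) ≤
      kap * P.E (n s) + P.E (fun w => n s w * ind (bv P GE KB KC ψ lam2 kap G Ex T w)) +
        P.E (fun w => n s w * ind (Ex w)) := by
    intro s hs
    have e1 : P.E (fun w => n s w * ind (Ab P GE KB KC ψ lam2 (s + 1) w)) ≤
        P.E (fun w => n s w * ind (Ab P GE KB KC ψ lam2 (s + 1) w ∧ ¬ Ex w)) + P.E (fun w => n s w * ind (Ex w)) := by
      rw [← FP.E_add]
      refine P.E_mono fun w _ => ?_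
      rw [← mul_add]
      refine mul_le_mul_of_nonneg_left ?_ (hn0 s w)
      by_cases hA : Ab P GE KB KC ψ lam2 (s + 1) w
      · by_cases hE : Ex w
        · rw [ind_of hA, ind_of hE]
          linarith [ind_nonneg (Ab P GE KB KC ψ lam2 (s + 1) w ∧ ¬ Ex w)]
        · rw [ind_of hA, ind_of (show _ ∧ _ from ⟨hA, hE⟩)]
          linarith [ind_nonneg (Ex w)]
      · rw [ind_not hA]
        exact add_nonneg (ind_nonneg _) (ind_nonneg _)
    have e2 := P.E_mul_ce (hf s) (fun w => ind (Ab P GE KB KC ψ lam2 (s + 1) w ∧ ¬ Ex w))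
    have e3 : P.E (fun w => n s w * P.ce (G (s + 1)) (fun v => ind (Ab P GE KB KC ψ lam2 (s + 1) v ∧ ¬ Ex v)) w) ≤
        kap * P.E (n s) + P.E (fun w => n s w * ind (bv P GE KB KC ψ lam2 kap G Ex T w)) := by
      rw [← FP.E_smul, ← FP.E_add]
      refine P.E_mono fun w hw => ?_
      by_cases hb : bv P GE KB KC ψ lam2 kap G Ex T w
      · rw [ind_of hb, mul_one]
        have h2 : P.ce (G (s + 1)) (fun v => ind (Ab P GE KB KC ψ lam2 (s + 1) v ∧ ¬ Ex v)) w ≤ 1 :=
          P.ce_le_const (fun _ _ => ind_le_one _) hw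
        have h3 := mul_le_mul_of_nonneg_left h2 (hn0 s w)
        have h4 := mul_nonneg hk (hn0 s w)
        linarith
      · rw [ind_not hb, mul_zero, add_zero]
        have h2 : P.ce (G (s + 1)) (fun v => ind (Ab P GE KB KC ψ lam2 (s + 1) v ∧ ¬ Ex v)) w ≤ kap := by
          by_contra hcon
          exact hb ⟨s + 1, mem_range.1 hs, not_le.1 hcon⟩
        have h3 := mul_le_mul_of_nonneg_left h2 (hn0 s w)
        linarith
    rw [e2] at e3
    linarith
  refine (Finset.sum_le_sum h1).trans ?_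
  rw [Finset.sum_add_distrib, Finset.sum_add_distrib, ← Finset.mul_sum]
  have h2 : ∑ s ∈ range T, P.E (n s) ≤ P.Pr (fun w => up P bd ub G (σ w) w) := sum_first_le up_cum hT
  have h3 : ∀ A : Om → Prop, ∑ s ∈ range T, P.E (fun w => n s w * ind (A w)) ≤ P.Pr A := by
    intro A
    rw [← FP.E_sum]
    refine P.E_mono fun w _ => ?_
    rw [← Finset.sum_mul]
    exact mul_le_of_le_one_left (ind_nonneg _) (hsum w)
  have h4 := mul_le_mul_of_nonneg_left h2 hk
  have h5 := h3 (bv P GE KB KC ψ lam2 kap G Ex T)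
  have h6 := h3 Ex
  linarith

/-- **unsigned part** -/
theorem un_le (hGB : Filt GB) (hGC : Filt GC) (fB : ∀ s, Fac (GB s) (N s)) (fC : ∀ s, Fac (GC s) (N s))
    (h0 : 0 ≤ h) (hub : 0 ≤ ub) (hk : 0 ≤ kap)
    (hmB : ∀ s w, P.p w ≠ 0 → P.m (GB s) w ≤ h * P.m (GB (s + 1)) w)
    (hmC : ∀ s w, P.p w ≠ 0 → P.m (GC s) w ≤ h * P.m (GC (s + 1)) w)
    (cB : Cum KB) (cC : Cum KC) (hKB : ∀ s v w, GB s v = GB s w → (KB s v ↔ KB s w))
    (hKC : ∀ s v w, GC s v = GC s w → (KC s v ↔ KC s w)) {σ : Om → ℕ} (hσ : Stp N σ) {T : ℕ} (hT : ∀ w, σ w < T)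
    (Ex : Om → Prop) :
    P.Pr (fun w => bd w ∧ ∃ s < σ w, Un P bd ub GB GC GE KB KC ψ lam2 s w) ≤
      h * ub * (P.Pr (fun w => KB (σ w) w) + P.Pr (fun w => KC (σ w) w)) +
      kap * (P.Pr (fun w => up P bd ub GB (σ w) w) + P.Pr (fun w => up P bd ub GC (σ w) w)) +
      (P.Pr (bv P GE KB KC ψ lam2 kap GB Ex T) + P.Pr (bv P GE KB KC ψ lam2 kap GC Ex T)) + 2 * P.Pr Ex := by
  have h1 := K_le (P := P) (bd := bd) (ub := ub) hGB fB h0 hub hmB cB hKB hσ hT
  have h2 := K_le (P := P) (bd := bd) (ub := ub) hGC fC h0 hub hmC cC hKC hσ hT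
  have h3 := dev_le (P := P) (bd := bd) (ub := ub) (GE := GE) (KB := KB) (KC := KC) (ψ := ψ) (lam2 := lam2) hGB fB hk
    hσ hT Ex
  have h4 := dev_le (P := P) (bd := bd) (ub := ub) (GE := GE) (KB := KB) (KC := KC) (ψ := ψ) (lam2 := lam2) hGC fC hk
    hσ hT Ex
  rw [← FP.E_sum] at h1 h2 h3 h4
  have key : P.Pr (fun w => bd w ∧ ∃ s < σ w, Un P bd ub GB GC GE KB KC ψ lam2 s w) ≤
      P.E (fun w => ∑ s ∈ range T, ind (s < σ w) * ind (KB (s + 1) w ∧ ¬ KB s w) *
        ind (¬ up P bd ub GB s w) * ind (bd w)) +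
      P.E (fun w => ∑ s ∈ range T, ind (s < σ w) * ind (KC (s + 1) w ∧ ¬ KC s w) *
        ind (¬ up P bd ub GC s w) * ind (bd w)) +
      (P.E (fun w => ∑ s ∈ range T, ind (s < σ w) * ind (up P bd ub GB (s + 1) w ∧ ¬ up P bd ub GB s w) *
        ind (Ab P GE KB KC ψ lam2 (s + 1) w)) +
      P.E (fun w => ∑ s ∈ range T, ind (s < σ w) * ind (up P bd ub GC (s + 1) w ∧ ¬ up P bd ub GC s w) *
        ind (Ab P GE KB KC ψ lam2 (s + 1) w))) := by
    rw [← FP.E_add, ← FP.E_add, ← FP.E_add]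
    refine P.E_mono fun w _ => ?_
    have n1 : ∀ s ∈ range T, 0 ≤ ind (s < σ w) * ind (KB (s + 1) w ∧ ¬ KB s w) *
        ind (¬ up P bd ub GB s w) * ind (bd w) := fun s _ =>
      mul_nonneg (mul_nonneg (mul_nonneg (ind_nonneg _) (ind_nonneg _)) (ind_nonneg _)) (ind_nonneg _)
    have n2 : ∀ s ∈ range T, 0 ≤ ind (s < σ w) * ind (KC (s + 1) w ∧ ¬ KC s w) *
        ind (¬ up P bd ub GC s w) * ind (bd w) := fun s _ =>
      mul_nonneg (mul_nonneg (mul_nonneg (ind_nonneg _) (ind_nonneg _)) (ind_nonneg _)) (ind_nonneg _)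
    have n3 : ∀ s ∈ range T, 0 ≤ ind (s < σ w) * ind (up P bd ub GB (s + 1) w ∧ ¬ up P bd ub GB s w) *
        ind (Ab P GE KB KC ψ lam2 (s + 1) w) := fun s _ =>
      mul_nonneg (mul_nonneg (ind_nonneg _) (ind_nonneg _)) (ind_nonneg _)
    have n4 : ∀ s ∈ range T, 0 ≤ ind (s < σ w) * ind (up P bd ub GC (s + 1) w ∧ ¬ up P bd ub GC s w) *
        ind (Ab P GE KB KC ψ lam2 (s + 1) w) := fun s _ =>
      mul_nonneg (mul_nonneg (ind_nonneg _) (ind_nonneg _)) (ind_nonneg _)
    have m1 := Finset.sum_nonneg n1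
    have m2 := Finset.sum_nonneg n2
    have m3 := Finset.sum_nonneg n3
    have m4 := Finset.sum_nonneg n4
    by_cases hw : bd w ∧ ∃ s < σ w, Un P bd ub GB GC GE KB KC ψ lam2 s w
    · rw [ind_of hw]
      obtain ⟨hb, s, hs, hu1, hu2, hu3⟩ := hw
      have hsT : s ∈ range T := mem_range.2 (hs.trans (hT w))
      have hn : ¬ KB s w ∧ ¬ KC s w ∧ ¬ up P bd ub GB s w ∧ ¬ up P bd ub GC s w := by
        unfold Dc at hu1
        push Not at hu1
        exact hu1
      by_cases c1 : KB (s + 1) w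
      · have h5 := Finset.single_le_sum n1 hsT
        have e5 : ind (s < σ w) * ind (KB (s + 1) w ∧ ¬ KB s w) * ind (¬ up P bd ub GB s w) * ind (bd w) = 1 := by
          rw [ind_of hs, ind_of (show _ ∧ _ from ⟨c1, hn.1⟩), ind_of hn.2.2.1, ind_of hb]
          ring
        rw [e5] at h5
        linarith
      · by_cases c2 : KC (s + 1) w
        · have h5 := Finset.single_le_sum n2 hsT
          have e5 : ind (s < σ w) * ind (KC (s + 1) w ∧ ¬ KC s w) * ind (¬ up P bd ub GC s w) * ind (bd w) = 1 := by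
            rw [ind_of hs, ind_of (show _ ∧ _ from ⟨c2, hn.2.1⟩), ind_of hn.2.2.2, ind_of hb]
            ring
          rw [e5] at h5
          linarith
        · have c3 : up P bd ub GB (s + 1) w ∨ up P bd ub GC (s + 1) w := by
            unfold Dc at hu2
            tauto
          have c4 : Ab P GE KB KC ψ lam2 (s + 1) w := by
            refine ⟨?_, c1, c2⟩
            by_contra hcon
            exact hu3 ⟨hu1, c1, c2, c3, not_lt.1 hcon⟩
          rcases c3 with c3 | c3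
          · have h5 := Finset.single_le_sum n3 hsT
            have e5 : ind (s < σ w) * ind (up P bd ub GB (s + 1) w ∧ ¬ up P bd ub GB s w) *
                ind (Ab P GE KB KC ψ lam2 (s + 1) w) = 1 := by
              rw [ind_of hs, ind_of (show _ ∧ _ from ⟨c3, hn.2.2.1⟩), ind_of c4]
              ring
            rw [e5] at h5
            linarith
          · have h5 := Finset.single_le_sum n4 hsT
            have e5 : ind (s < σ w) * ind (up P bd ub GC (s + 1) w ∧ ¬ up P bd ub GC s w) *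
                ind (Ab P GE KB KC ψ lam2 (s + 1) w) = 1 := by
              rw [ind_of hs, ind_of (show _ ∧ _ from ⟨c3, hn.2.2.2⟩), ind_of c4]
              ring
            rw [e5] at h5
            linarith
    · rw [ind_not hw]
      linarith
  linarith

/-- **released part** -/
theorem rl_le (hGB : Filt GB) (hGC : Filt GC) (hGE : Filt GE) (fB : ∀ s, Fac (GB s) (N s))
    (fC : ∀ s, Fac (GC s) (N s)) (fEB : ∀ s, Fac (GE s) (GB s)) (fEC : ∀ s, Fac (GE s) (GC s))
    (h0 : 0 ≤ h) (hub : 0 ≤ ub) (hl : 0 ≤ lam2)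
    (hmB : ∀ s w, P.p w ≠ 0 → P.m (GB s) w ≤ h * P.m (GB (s + 1)) w)
    (hmC : ∀ s w, P.p w ≠ 0 → P.m (GC s) w ≤ h * P.m (GC (s + 1)) w)
    (cB : Cum KB) (cC : Cum KC) (hKB : ∀ s v w, GB s v = GB s w → (KB s v ↔ KB s w))
    (hKC : ∀ s v w, GC s v = GC s w → (KC s v ↔ KC s w)) {σ : Om → ℕ} (hσ : Stp N σ) {T : ℕ} (hT : ∀ w, σ w < T)
    (hbd : ∀ s v w, GE s v = GE s w → (bd v ↔ bd w)) :
    P.E (fun w => ind (bd w ∧ ∃ s < σ w, Rl P bd ub GB GC GE KB KC ψ lam2 s w) * ψ w) ≤
      lam2 * (h * ub) * (P.Pr (fun w => up P bd ub GB (σ w) w) + P.Pr (fun w => up P bd ub GC (σ w) w)) := by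
  -- measurability
  have fU : ∀ s v w, GE s v = GE s w → (up P bd ub GB s v ↔ up P bd ub GB s w) := fun s v w hvw =>
    up_fac hGB s v w (fEB s v w hvw)
  have fU' : ∀ s v w, GE s v = GE s w → (up P bd ub GC s v ↔ up P bd ub GC s w) := fun s v w hvw =>
    up_fac hGC s v w (fEC s v w hvw)
  have fDc : ∀ s v w, GE s v = GE s w → (Dc P bd ub GB GC KB KC s v ↔ Dc P bd ub GB GC KB KC s w) := by
    intro s v w hvw
    unfold Dc
    rw [hKB s v w (fEB s v w hvw), hKC s v w (fEC s v w hvw), fU s v w hvw, fU' s v w hvw]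
  have fRl : ∀ s v w, GE (s + 1) v = GE (s + 1) w →
      (Rl P bd ub GB GC GE KB KC ψ lam2 s v ↔ Rl P bd ub GB GC GE KB KC ψ lam2 s w) := by
    intro s v w hvw
    unfold Rl
    rw [fDc s v w (hGE s v w hvw), hKB (s + 1) v w (fEB (s + 1) v w hvw), hKC (s + 1) v w (fEC (s + 1) v w hvw),
      fU (s + 1) v w hvw, fU' (s + 1) v w hvw, P.ce_fac (GE (s + 1)) ψ v w hvw]
  -- at most one time
  have hsum : ∀ w, ind (bd w ∧ ∃ s < σ w, Rl P bd ub GB GC GE KB KC ψ lam2 s w) =
      ∑ s ∈ range T, ind (s < σ w) * ind (Rl P bd ub GB GC GE KB KC ψ lam2 s w) * ind (bd w) := by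
    intro w
    have hone : ∀ s s', Rl P bd ub GB GC GE KB KC ψ lam2 s w → Rl P bd ub GB GC GE KB KC ψ lam2 s' w → s = s' := by
      have key : ∀ s s', s < s' → Rl P bd ub GB GC GE KB KC ψ lam2 s w →
          ¬ Rl P bd ub GB GC GE KB KC ψ lam2 s' w := by
        intro s s' hss h1 h2
        have h3 : Dc P bd ub GB GC KB KC (s + 1) w := by
          rcases h1.2.2.2.1 with h | h
          · exact Or.inr (Or.inr (Or.inl h))
          · exact Or.inr (Or.inr (Or.inr h))
        exact h2.1 ((Dc_cum cB cC).le (show s + 1 ≤ s' by omega) h3)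
      intro s s' h1 h2
      rcases lt_trichotomy s s' with h | h | h
      · exact absurd h2 (key s s' h h1)
      · exact h
      · exact absurd h1 (key s' s h h2)
    by_cases hw : bd w ∧ ∃ s < σ w, Rl P bd ub GB GC GE KB KC ψ lam2 s w
    · rw [ind_of hw]
      obtain ⟨hb, s, hs, hr⟩ := hw
      rw [Finset.sum_eq_single s, ind_of hs, ind_of hr, ind_of hb]
      · ring
      · intro s' _ hne
        rw [ind_not (p := Rl P bd ub GB GC GE KB KC ψ lam2 s' w) (fun h => hne (hone s' s h hr))]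
        ring
      · intro h
        exact absurd (mem_range.2 (hs.trans (hT w))) h
    · rw [ind_not hw]
      refine (Finset.sum_eq_zero fun s _ => ?_).symm
      by_cases hb : bd w
      · by_cases hs : s < σ w
        · rw [ind_not (p := Rl P bd ub GB GC GE KB KC ψ lam2 s w) (fun h => hw ⟨hb, s, hs, h⟩)]
          ring
        · rw [ind_not hs]
          ring
      · rw [ind_not hb]
        ring
  have e1 : P.E (fun w => ind (bd w ∧ ∃ s < σ w, Rl P bd ub GB GC GE KB KC ψ lam2 s w) * ψ w) =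
      ∑ s ∈ range T, P.E (fun w => ind (s < σ w) * ind (Rl P bd ub GB GC GE KB KC ψ lam2 s w) * ind (bd w) * ψ w) := by
    rw [← FP.E_sum]
    refine P.E_congr fun w _ => ?_
    rw [hsum w, Finset.sum_mul]
  -- one time
  have h1 : ∀ s ∈ range T,
      P.E (fun w => ind (s < σ w) * ind (Rl P bd ub GB GC GE KB KC ψ lam2 s w) * ind (bd w) * ψ w) ≤
      lam2 * (P.E (fun w => ind (s < σ w) * ind (up P bd ub GB (s + 1) w ∧ ¬ up P bd ub GB s w) *
        ind (¬ up P bd ub GB s w) * ind (bd w)) +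
      P.E (fun w => ind (s < σ w) * ind (up P bd ub GC (s + 1) w ∧ ¬ up P bd ub GC s w) *
        ind (¬ up P bd ub GC s w) * ind (bd w))) := by
    intro s _
    have hf : Fac (GE (s + 1)) (fun w => ind (s < σ w) * ind (Rl P bd ub GB GC GE KB KC ψ lam2 s w) * ind (bd w)) := by
      refine Fac.mul (Fac.mul ?_ (Fac.ind fun v w hvw => ?_)) (Fac.ind fun v w hvw => ?_)
      · have h2 : Fac (GB s) (fun w => ind (s < σ w)) := (Stp.mono fB hσ).lt_fac s
        exact (hGE s).trans ((fEB s).trans h2)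
      · rw [fRl s v w hvw]
      · rw [hbd (s + 1) v w hvw]
    rw [← P.E_mul_ce hf ψ, ← FP.E_add, ← FP.E_smul]
    refine P.E_mono fun w hw => ?_
    have q1 : 0 ≤ ind (s < σ w) * ind (up P bd ub GB (s + 1) w ∧ ¬ up P bd ub GB s w) *
        ind (¬ up P bd ub GB s w) * ind (bd w) :=
      mul_nonneg (mul_nonneg (mul_nonneg (ind_nonneg _) (ind_nonneg _)) (ind_nonneg _)) (ind_nonneg _)
    have q2 : 0 ≤ ind (s < σ w) * ind (up P bd ub GC (s + 1) w ∧ ¬ up P bd ub GC s w) *
        ind (¬ up P bd ub GC s w) * ind (bd w) :=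
      mul_nonneg (mul_nonneg (mul_nonneg (ind_nonneg _) (ind_nonneg _)) (ind_nonneg _)) (ind_nonneg _)
    by_cases hr : s < σ w ∧ Rl P bd ub GB GC GE KB KC ψ lam2 s w ∧ bd w
    · obtain ⟨hs, hr, hb⟩ := hr
      have hn : ¬ KB s w ∧ ¬ KC s w ∧ ¬ up P bd ub GB s w ∧ ¬ up P bd ub GC s w := by
        have := hr.1
        unfold Dc at this
        push Not at this
        exact this
      have h3 : ind (s < σ w) * ind (Rl P bd ub GB GC GE KB KC ψ lam2 s w) * ind (bd w) = 1 := by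
        rw [ind_of hs, ind_of hr, ind_of hb]
        ring
      rw [h3, one_mul]
      have h4 : 1 ≤ ind (s < σ w) * ind (up P bd ub GB (s + 1) w ∧ ¬ up P bd ub GB s w) *
          ind (¬ up P bd ub GB s w) * ind (bd w) +
          ind (s < σ w) * ind (up P bd ub GC (s + 1) w ∧ ¬ up P bd ub GC s w) *
          ind (¬ up P bd ub GC s w) * ind (bd w) := by
        rcases hr.2.2.2.1 with c | c
        · have : ind (s < σ w) * ind (up P bd ub GB (s + 1) w ∧ ¬ up P bd ub GB s w) *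
              ind (¬ up P bd ub GB s w) * ind (bd w) = 1 := by
            rw [ind_of hs, ind_of (show _ ∧ _ from ⟨c, hn.2.2.1⟩), ind_of hn.2.2.1, ind_of hb]
            ring
          linarith
        · have : ind (s < σ w) * ind (up P bd ub GC (s + 1) w ∧ ¬ up P bd ub GC s w) *
              ind (¬ up P bd ub GC s w) * ind (bd w) = 1 := by
            rw [ind_of hs, ind_of (show _ ∧ _ from ⟨c, hn.2.2.2⟩), ind_of hn.2.2.2, ind_of hb]
            ring
          linarith
      have h5 := mul_le_mul_of_nonneg_left h4 hl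
      have h6 := hr.2.2.2.2
      linarith
    · have h3 : ind (s < σ w) * ind (Rl P bd ub GB GC GE KB KC ψ lam2 s w) * ind (bd w) = 0 := by
        by_cases a : s < σ w
        · by_cases b : Rl P bd ub GB GC GE KB KC ψ lam2 s w
          · by_cases c : bd w
            · exact absurd ⟨a, b, c⟩ hr
            · rw [ind_not c, mul_zero]
          · rw [ind_not b]
            ring
        · rw [ind_not a]
          ring
      rw [h3, zero_mul]
      exact mul_nonneg hl (add_nonneg q1 q2)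
  rw [e1]
  refine (Finset.sum_le_sum h1).trans ?_
  rw [← Finset.mul_sum, Finset.sum_add_distrib]
  have h2 := K_le (P := P) (bd := bd) (ub := ub) hGB fB h0 hub hmB (KC := up P bd ub GB) up_cum
    (fun s v w hvw => up_fac hGB s v w hvw) hσ hT
  have h3 := K_le (P := P) (bd := bd) (ub := ub) hGC fC h0 hub hmC (KC := up P bd ub GC) up_cum
    (fun s v w hvw => up_fac hGC s v w hvw) hσ hT
  have h4 := mul_le_mul_of_nonneg_left (add_le_add h2 h3) hl
  linarith

end

end Pool.Agent.GMH.Tri
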