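import Pool.Agent.GMH.Tri2
import Pool.Agent.GMH.GdyVT
import Pool.Agent.GMH.CR

/-!
# GMH/Tri3 (helper63): three bodies, the covers (note 3934 (2), (3))

General lemmas for the instance GMH/Tri4.

* `bv_bad` : a bad vertex of GMH/Tri2 (function `bv`, node of the exact vertex `G`) is a bad row of a cover;
* `opt_stop` : optional stopping for a nonnegative row mean on a node, up to a first time;
* `dvs`, `dvs_cum` : some sampled row has deviated;
* `dev_pay` : the payment of a cover event caused by a sampled row.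
-/

set_option autoImplicit false
set_option linter.unusedSectionVars false

namespace Pool.Agent.GMH.Tri

open Finset Pool.Agent.PWZ Pool.Agent.M3 Pool.Agent.GMH.Gdy

noncomputable section

variable {Om : Type*} [Fintype Om] {P : FP Om}

/-! ## bad vertices are bad rows -/

theorem bv_bad {κU κV κE : ℕ → Type*} {cU : ∀ t, Om → κU t} {cV : ∀ t, Om → κV t} {GE : ∀ t, Om → κE t} {α ω : Type*}
    {U : Om → α} {V : Om → ω} {κ : ℕ → Type*} {G : ∀ t, Om → κ t} {u lam2 : ℝ} {KB KC : ℕ → Om → Prop} {ψ : Om → ℝ}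
    {H : ℕ → ℕ → Om → Prop} {M : ℕ} {Ex : Om → Prop} {T : ℕ} {row : α → ℕ → Om → Prop}
    (hI : P.Indep U V) (hU : ∀ s, Fac U (cU s)) (hV : ∀ s, Fac V (cV s))
    (hG1 : ∀ s, Fac (G s) (fun w => (pair cU cV s w, U w))) (hG2 : ∀ s, Fac (fun w => (pair cU cV s w, U w)) (G s))
    (hrow : ∀ a s v w, V v = V w → (row a s v ↔ row a s w))
    (hH : ∀ s r v w, V v = V w → (H s r v ↔ H s r w))
    (hA : ∀ t ≤ T, ∀ v, P.p v ≠ 0 → Ab P GE KB KC ψ lam2 t v → ¬ Ex v →
      row (U v) t v ∧ ¬ covT P cV u H M (t + 1) v) {w : Om} (hw : P.p w ≠ 0)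
    (hb : bv P GE KB KC ψ lam2 (u / 2) G Ex T w) : badT P cV u H M (row (U w)) (T + 1) w := by
  obtain ⟨t, ht, h1⟩ := hb
  refine ⟨t, by omega, ?_⟩
  have h2 : P.ce (G t) (fun v => ind (Ab P GE KB KC ψ lam2 t v ∧ ¬ Ex v)) w ≤
      P.ce (G t) (fun v => ind (row (U v) t v ∧ ¬ covT P cV u H M (t + 1) v)) w :=
    P.ce_mono (fun v hv => ind_mono fun h => hA t ht v hv h.1 h.2) w
  rw [P.ce_congr_map (hG1 t) (hG2 t)] at h2
  rw [P.ce_congr_map (Y := fun w => (pair cU cV t w, U w)) (hG1 t) (hG2 t)] at h1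
  rw [P.ce_congr_map (X := G t) (Y := fun w => (pair cU cV t w, U w)) (hG1 t) (hG2 t)] at h2
  have h3 := ce_frz hI hU hV t (fun a v => row a t v ∧ ¬ covT P cV u H M (t + 1) v) (fun a v w h => by
    rw [hrow a t v w h, covT_facV hV hH (t + 1) v w h]) hw
  rw [h3] at h2
  exact (h1.trans_le h2).le

/-! ## payments of deviations, general filtration -/

section pay

variable {κ : ℕ → Type*} {G : ∀ t, Om → κ t}

/-- optional stopping for a closed martingale -/
theorem opt_stop (hG : Filt G) {σ : Om → ℕ} (hσ : Stp G σ) {T : ℕ} (hT : ∀ w, σ w < T) (f : Om → ℝ)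
    {m : ℕ → Om → ℝ} (hm : ∀ t w, P.p w ≠ 0 → m t w = P.ce (G t) f w) {s : ℕ} {e : Om → ℝ} (he : Fac (G s) e) :
    P.E (fun w => e w * ind (s ≤ σ w) * m (σ w) w) = P.E (fun w => e w * ind (s ≤ σ w) * m s w) := by
  have h1 : ∀ (t : ℕ) (e' : Om → ℝ), Fac (G t) e' → P.E (fun w => e' w * m t w) = P.E (fun w => e' w * f w) := by
    intro t e' he'
    rw [← P.E_mul_ce he' f]
    exact P.E_congr fun w hw => by rw [hm t w hw]
  have hle : Fac (G s) (fun w => e w * ind (s ≤ σ w)) :=
    he.mul (Fac.ind fun v w hvw => CR.Stp.le_fac hG hσ s hvw)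
  rw [h1 s _ hle]
  rw [E_stop hT (fun t w => e w * ind (s ≤ σ w) * m t w)]
  have h2 : ∀ t ∈ range T, P.E (fun w => ind (σ w = t) * (e w * ind (s ≤ σ w) * m t w)) =
      P.E (fun w => ind (σ w = t) * (e w * ind (s ≤ σ w) * f w)) := by
    intro t _
    by_cases hst : s ≤ t
    · have hf : Fac (G t) (fun w => ind (σ w = t) * (e w * ind (s ≤ σ w))) :=
        (hσ.eq_fac hG t).mul ((hG.le hst).trans hle)
      have h3 := h1 t _ hf
      calc P.E (fun w => ind (σ w = t) * (e w * ind (s ≤ σ w) * m t w))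
          = P.E (fun w => ind (σ w = t) * (e w * ind (s ≤ σ w)) * m t w) := P.E_congr fun w _ => by ring
        _ = P.E (fun w => ind (σ w = t) * (e w * ind (s ≤ σ w)) * f w) := h3
        _ = _ := P.E_congr fun w _ => by ring
    · refine P.E_congr fun w _ => ?_
      by_cases h4 : σ w = t
      · rw [ind_not (show ¬ s ≤ σ w by omega)]
        ring
      · rw [ind_not h4]
        ring
  rw [Finset.sum_congr rfl h2, ← E_stop hT (fun t w => e w * ind (s ≤ σ w) * f w)]

/-- some of the martingales `m i` has been above `lam` -/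
def dvs {M : ℕ} (m : Fin M → ℕ → Om → ℝ) (lam : ℝ) (s : ℕ) (w : Om) : Prop := ∃ s' ≤ s, ∃ i, lam < m i s' w

theorem dvs_cum {M : ℕ} (m : Fin M → ℕ → Om → ℝ) (lam : ℝ) : Cum (dvs m lam) := by
  rintro s w ⟨s', h1, i, h2⟩
  exact ⟨s', by omega, i, h2⟩

/-- **the payment of the deviations** -/
theorem dev_pay (hG : Filt G) {M : ℕ} (f : Fin M → Om → ℝ) {m : Fin M → ℕ → Om → ℝ}
    (hmf : ∀ i t, Fac (G t) (m i t)) (hm : ∀ i t w, P.p w ≠ 0 → m i t w = P.ce (G t) (f i) w)
    {σ : Om → ℕ} (hσ : Stp G σ) {T : ℕ} (hT : ∀ w, σ w < T) {lam : ℝ} {g : Om → ℝ}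
    (hg0 : ∀ w, P.p w ≠ 0 → 0 ≤ g w) (hg : ∀ i w, P.p w ≠ 0 → m i (σ w) w - lam / 2 ≤ g w) :
    lam / 2 * P.Pr (fun w => dvs m lam (σ w) w) ≤ P.E g := by
  classical
  set A : ℕ → Fin M → Om → Prop := fun s i w => (∀ s' < s, ∀ j, ¬ lam < m j s' w) ∧ lam < m i s w ∧
    ∀ j < i, ¬ lam < m j s w with hA
  have hAf : ∀ s i v w, G s v = G s w → (A s i v ↔ A s i w) := by
    intro s i v w h
    rw [hA]
    simp only
    rw [hmf i s v w h]
    refine and_congr (forall_congr' fun s' => forall_congr' fun hs' => forall_congr' fun j => ?_)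
      (and_congr_right fun _ => forall_congr' fun j => forall_congr' fun _ => ?_)
    · rw [hmf j s' v w (hG.le hs'.le v w h)]
    · rw [hmf j s v w h]
  have hsum : ∀ w, ∑ s ∈ range T, ∑ i, ind (A s i w) * ind (s ≤ σ w) = ind (dvs m lam (σ w) w) := by
    intro w
    by_cases hd : dvs m lam (σ w) w
    · rw [ind_of hd]
      obtain ⟨s1, hs1, i1, h1⟩ := hd
      have hex : ∃ s, ∃ i, lam < m i s w := ⟨s1, i1, h1⟩
      set s0 := Nat.find hex with hs0
      have hs0' : s0 ≤ σ w := (Nat.find_min' hex ⟨i1, h1⟩).trans hs1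
      have hex2 : (univ.filter fun i : Fin M => lam < m i s0 w).Nonempty := by
        obtain ⟨i, hi⟩ := Nat.find_spec hex
        exact ⟨i, mem_filter.2 ⟨mem_univ i, hi⟩⟩
      set i0 := (univ.filter fun i : Fin M => lam < m i s0 w).min' hex2 with hi0
      have hi0' : lam < m i0 s0 w := (mem_filter.1 (Finset.min'_mem _ hex2)).2
      have hA0 : A s0 i0 w := by
        refine ⟨fun s' hs' j hj => Nat.find_min hex hs' ⟨j, hj⟩, hi0', fun j hj hj2 => ?_⟩
        have h5 : j ∈ univ.filter fun i : Fin M => lam < m i s0 w := mem_filter.2 ⟨mem_univ j, hj2⟩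
        have h6 : i0 ≤ j := Finset.min'_le _ j h5
        exact absurd (lt_of_lt_of_le hj h6) (lt_irrefl _)
      rw [Finset.sum_eq_single s0, Finset.sum_eq_single i0, ind_of hA0, ind_of hs0', one_mul]
      · intro i _ hne
        rw [ind_not (p := A s0 i w), zero_mul]
        intro h2
        rcases lt_trichotomy i i0 with h3 | h3 | h3
        · exact hA0.2.2 i h3 h2.2.1
        · exact hne h3
        · exact h2.2.2 i0 h3 hi0'
      · intro h2
        exact absurd (mem_univ _) h2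
      · intro s _ hne
        refine Finset.sum_eq_zero fun i _ => ?_
        rw [ind_not (p := A s i w), zero_mul]
        intro h2
        rcases lt_trichotomy s s0 with h3 | h3 | h3
        · exact Nat.find_min hex h3 ⟨i, h2.2.1⟩
        · exact hne h3
        · exact h2.1 s0 h3 i0 hi0'
      · intro h2
        exact absurd (mem_range.2 (lt_of_le_of_lt hs0' (hT w))) h2
    · rw [ind_not hd]
      refine Finset.sum_eq_zero fun s _ => Finset.sum_eq_zero fun i _ => ?_
      by_cases h2 : s ≤ σ w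
      · rw [ind_not (p := A s i w), zero_mul]
        intro h3
        exact hd ⟨s, h2, i, h3.2.1⟩
      · rw [ind_not h2, mul_zero]
  -- the mean of `lam` on the event
  have h1 : lam * P.Pr (fun w => dvs m lam (σ w) w) ≤
      P.E (fun w => ∑ s ∈ range T, ∑ i, ind (A s i w) * ind (s ≤ σ w) * m i (σ w) w) := by
    have e1 : P.E (fun w => ∑ s ∈ range T, ∑ i, ind (A s i w) * ind (s ≤ σ w) * m i (σ w) w) =
        ∑ s ∈ range T, ∑ i, P.E (fun w => ind (A s i w) * ind (s ≤ σ w) * m i (σ w) w) := by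
      rw [FP.E_sum]
      exact Finset.sum_congr rfl fun s _ => FP.E_sum _ _ _
    have e2 : ∀ s i, P.E (fun w => ind (A s i w) * ind (s ≤ σ w) * m i (σ w) w) =
        P.E (fun w => ind (A s i w) * ind (s ≤ σ w) * m i s w) := fun s i =>
      opt_stop hG hσ hT (f i) (hm i) (Fac.ind (hAf s i))
    have e3 : lam * P.Pr (fun w => dvs m lam (σ w) w) =
        ∑ s ∈ range T, ∑ i, P.E (fun w => lam * (ind (A s i w) * ind (s ≤ σ w))) := by
      have e4 : ∀ s, ∑ i, P.E (fun w => lam * (ind (A s i w) * ind (s ≤ σ w))) =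
          P.E (fun w => lam * ∑ i, ind (A s i w) * ind (s ≤ σ w)) := by
        intro s
        rw [← FP.E_sum]
        exact P.E_congr fun w _ => (Finset.mul_sum _ _ _).symm
      rw [Finset.sum_congr rfl fun s _ => e4 s, ← FP.E_sum]
      unfold FP.Pr
      rw [← FP.E_smul]
      refine P.E_congr fun w _ => ?_
      rw [← hsum w, Finset.mul_sum]
    rw [e1, e3]
    refine Finset.sum_le_sum fun s _ => Finset.sum_le_sum fun i _ => ?_
    rw [e2]
    refine P.E_mono fun w _ => ?_
    by_cases ha : A s i w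
    · rw [ind_of ha, one_mul]
      have := mul_le_mul_of_nonneg_left ha.2.1.le (ind_nonneg (s ≤ σ w))
      linarith
    · rw [ind_not ha]
      simp
  have h2 : P.E (fun w => ∑ s ∈ range T, ∑ i, ind (A s i w) * ind (s ≤ σ w) * m i (σ w) w) ≤
      P.E g + lam / 2 * P.Pr (fun w => dvs m lam (σ w) w) := by
    unfold FP.Pr
    rw [← FP.E_smul, ← FP.E_add]
    refine P.E_mono fun w hw => ?_
    have h3 : ∑ s ∈ range T, ∑ i, ind (A s i w) * ind (s ≤ σ w) * m i (σ w) w ≤
        ∑ s ∈ range T, ∑ i, ind (A s i w) * ind (s ≤ σ w) * (g w + lam / 2) := by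
      refine Finset.sum_le_sum fun s _ => Finset.sum_le_sum fun i _ => ?_
      exact mul_le_mul_of_nonneg_left (by linarith [hg i w hw]) (mul_nonneg (ind_nonneg _) (ind_nonneg _))
    have h4 : ∑ s ∈ range T, ∑ i, ind (A s i w) * ind (s ≤ σ w) * (g w + lam / 2) =
        ind (dvs m lam (σ w) w) * (g w + lam / 2) := by
      rw [← hsum w, Finset.sum_mul]
      exact Finset.sum_congr rfl fun s _ => (Finset.sum_mul _ _ _).symm
    rw [h4] at h3
    refine h3.trans ?_
    have h5 : ind (dvs m lam (σ w) w) * g w ≤ g w := mul_le_of_le_one_left (hg0 w hw) (ind_le_one _)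
    nlinarith
  linarith

end pay

end

end Pool.Agent.GMH.Tri
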