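import Pool.Agent.GMH.Tri3

/-!
# GMH/Tri4 (helper63): three bodies, the instance (notes 3926 (C), 3934)

`V3` : three independent vertices `B`, `C`, `D` with cells `cB`, `cC`, `cD`; `nde` = the node (the three cells), `ndx F` =
node and the value of `F` (`F = B`, `C`, `(B, C)`, `(C, D)`).
`rm f s` = mean of `f D` in the cell of `D` at the time `s`.

For a vertex `B`, rows indexed by the values `c` of another vertex: `rowG Ψ lam c s : rm (Ψ c B) s > lam` (the point `B`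
deviates now).  `KK Ψ J x s` : `B` is covered at the time `s` by the sampled rows `x` of `Ψ`, or some sampled row of `J` has
deviated at `B`.

`ψ = ΨY + J1 = ΨZ + J2`, `KB = KK ΨY J2 x`, `KC = KK ΨZ J1 y`.

* `uncov` : if both are uncovered and `rm ψ > 2 lam`, then outside the exceptional events `fst1` the rows of `ΨY` and `ΨZ`
  deviate;
* `tri_un`, `tri_rl`, `tri_und` : the unsigned, the released, the undecided part of one pair letter `bd (B, C)`;
* `bad_mean`, `fst_mean` : means over the samples of the exceptional parts of `tri_un`;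
* `cov_pay`, `dvs_pay`, `KK_pay` : payments of `KB`, `KC` (structure `Vx` = one vertex); `up` is paid by `up_pay`.
-/

set_option autoImplicit false
set_option linter.unusedSectionVars false

namespace Pool.Agent.GMH.Tri

open Finset Pool.Agent.PWZ Pool.Agent.M3 Pool.Agent.GMH.Gdy

noncomputable section

variable {Om : Type*} [Fintype Om]

/-- three independent vertices with cells -/
structure V3 (P : FP Om) {κb κc κd : ℕ → Type*} {β γ δ : Type*} (cB : ∀ t, Om → κb t) (cC : ∀ t, Om → κc t)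
    (cD : ∀ t, Om → κd t) (B : Om → β) (C : Om → γ) (D : Om → δ) : Prop where
  hB : ∀ s, Fac B (cB s)
  hC : ∀ s, Fac C (cC s)
  hD : ∀ s, Fac D (cD s)
  fB : Filt cB
  fC : Filt cC
  fD : Filt cD
  iB : P.Indep B (fun w => (C w, D w))
  iC : P.Indep C (fun w => (B w, D w))
  iD : P.Indep (fun w => (B w, C w)) D

variable {P : FP Om} {κb κc κd : ℕ → Type*} {β γ δ : Type*} {cB : ∀ t, Om → κb t} {cC : ∀ t, Om → κc t}
  {cD : ∀ t, Om → κd t} {B : Om → β} {C : Om → γ} {D : Om → δ}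

theorem V3.swap (V : V3 P cB cC cD B C D) : V3 P cC cB cD C B D where
  hB := V.hC
  hC := V.hB
  hD := V.hD
  fB := V.fC
  fC := V.fB
  fD := V.fD
  iB := V.iC
  iC := V.iB
  iD := V.iD.mono (fun v w h => by
    simp only [Prod.mk.injEq] at h ⊢
    exact ⟨h.2, h.1⟩) (Fac.refl D)

/-! ## the nodes -/

variable (cB cC cD) in
/-- the node -/
def nde (s : ℕ) (w : Om) : κb s × κc s × κd s := (cB s w, cC s w, cD s w)

theorem nde_eq {s : ℕ} {v w : Om} : nde cB cC cD s v = nde cB cC cD s w ↔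
    cB s v = cB s w ∧ cC s v = cC s w ∧ cD s v = cD s w := by
  unfold nde
  simp only [Prod.mk.injEq]

variable (cB cC cD) in
/-- the node and the value of a function -/
def ndx {α : Type*} (F : Om → α) (s : ℕ) (w : Om) : (κb s × κc s × κd s) × α := (nde cB cC cD s w, F w)

theorem ndx_eq {α : Type*} {F : Om → α} {s : ℕ} {v w : Om} : ndx cB cC cD F s v = ndx cB cC cD F s w ↔
    (cB s v = cB s w ∧ cC s v = cC s w ∧ cD s v = cD s w) ∧ F v = F w := by
  unfold ndx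
  rw [Prod.mk.injEq, nde_eq]

theorem nde_filt (V : V3 P cB cC cD B C D) : Filt (nde cB cC cD) := fun s v w h => by
  have h1 := nde_eq.1 h
  exact nde_eq.2 ⟨V.fB s v w h1.1, V.fC s v w h1.2.1, V.fD s v w h1.2.2⟩

theorem ndx_filt (V : V3 P cB cC cD B C D) {α : Type*} (F : Om → α) : Filt (ndx cB cC cD F) := fun s v w h => by
  have h1 := ndx_eq.1 h
  exact ndx_eq.2 ⟨⟨V.fB s v w h1.1.1, V.fC s v w h1.1.2.1, V.fD s v w h1.1.2.2⟩, h1.2⟩

theorem ndx_nde {α : Type*} (F : Om → α) (s : ℕ) : Fac (ndx cB cC cD F s) (nde cB cC cD s) := fun _ _ h =>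
  nde_eq.2 (ndx_eq.1 h).1

theorem ndx_mono {α α' : Type*} {F : Om → α} {F' : Om → α'} (h : Fac F F') (s : ℕ) :
    Fac (ndx cB cC cD F s) (ndx cB cC cD F' s) := fun v w hvw => by
  have h1 := ndx_eq.1 hvw
  exact ndx_eq.2 ⟨h1.1, h v w h1.2⟩

/-! ## means over `D` -/

variable (P cD D) in
/-- mean of a function of `D` in the cell of `D` -/
def rm (f : δ → ℝ) (s : ℕ) (w : Om) : ℝ := P.ce (cD s) (fun v => f (D v)) w

theorem rm_eq (f : δ → ℝ) {s : ℕ} {v w : Om} (h : cD s v = cD s w) : rm P cD D f s v = rm P cD D f s w :=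
  P.ce_fac (cD s) _ v w h

theorem rm_add (f g : δ → ℝ) (s : ℕ) (w : Om) :
    rm P cD D (fun d => f d + g d) s w = rm P cD D f s w + rm P cD D g s w := P.ce_add _ _ _ _

/-- freezing of `B`, `C` -/
theorem ce_rm (V : V3 P cB cC cD B C D) {ι ι' κ' : Type*} {ψ : Om → ι'} {φ : Om → ι} {s : ℕ} {X : Om → κ'}
    (hψ : Fac (fun w => (B w, C w)) ψ) (hφ : Fac ψ φ) (h1 : Fac X (fun w => (cD s w, ψ w)))
    (h2 : Fac (fun w => (cD s w, ψ w)) X) (F : ι → δ → ℝ) {w : Om} (hw : P.p w ≠ 0) :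
    P.ce X (fun v => F (φ v) (D v)) w = rm P cD D (F (φ w)) s w := by
  rw [P.ce_congr_map h1 h2, P.ce_indep V.iD.symm (V.hD s) hψ hφ (fun y x => F x y) hw]
  rfl

/-- given the node and `B` -/
theorem ce_NB (V : V3 P cB cC cD B C D) {s : ℕ} (F : β → δ → ℝ) {w : Om} (hw : P.p w ≠ 0) :
    P.ce (ndx cB cC cD B s) (fun v => F (B v) (D v)) w = rm P cD D (F (B w)) s w := by
  refine ce_rm V (ψ := fun v => (cC s v, B v)) (φ := B) (fun v w h => ?_) (fun v w h => ?_) (fun v w h => ?_)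
    (fun v w h => ?_) F hw
  · simp only [Prod.mk.injEq] at h ⊢
    exact ⟨V.hC s v w h.2, h.1⟩
  · simp only [Prod.mk.injEq] at h
    exact h.2
  · have h' := ndx_eq.1 h
    simp only [Prod.mk.injEq]
    exact ⟨h'.1.2.2, h'.1.2.1, h'.2⟩
  · simp only [Prod.mk.injEq] at h
    exact ndx_eq.2 ⟨⟨V.hB s v w h.2.2, h.2.1, h.1⟩, h.2.2⟩

/-- given the node, `B` and `C` -/
theorem ce_NE (V : V3 P cB cC cD B C D) {s : ℕ} (F : β → γ → δ → ℝ) {w : Om} (hw : P.p w ≠ 0) :
    P.ce (ndx cB cC cD (fun v => (B v, C v)) s) (fun v => F (B v) (C v) (D v)) w = rm P cD D (F (B w) (C w)) s w := by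
  refine ce_rm V (ψ := fun v => (B v, C v)) (φ := fun v => (B v, C v)) (Fac.refl _) (Fac.refl _) (fun v w h => ?_)
    (fun v w h => ?_) (fun p d => F p.1 p.2 d) hw
  · have h' := ndx_eq.1 h
    simp only [Prod.mk.injEq] at h' ⊢
    exact ⟨h'.1.2.2, h'.2⟩
  · simp only [Prod.mk.injEq] at h
    refine ndx_eq.2 ⟨⟨V.hB s v w h.2.1, V.hC s v w h.2.2, h.1⟩, ?_⟩
    simp only [Prod.mk.injEq]
    exact h.2

/-! ## rows and covers of one vertex -/

variable (P cD B D) in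
/-- the point `B` deviates now in the row `c` -/
def rowG (Ψ : γ → β → δ → ℝ) (lam : ℝ) (c : γ) (s : ℕ) (w : Om) : Prop := lam < rm P cD D (Ψ c (B w)) s w

theorem rowG_iff {Ψ : γ → β → δ → ℝ} {lam : ℝ} {c : γ} {s : ℕ} {v w : Om} (hb : B v = B w) (hd : cD s v = cD s w) :
    rowG P cD B D Ψ lam c s v ↔ rowG P cD B D Ψ lam c s w := by
  unfold rowG
  rw [hb, rm_eq _ hd]

variable (P cB cD B D) in
/-- covered by the sampled rows -/
def ky (u lam : ℝ) (Ψ : γ → β → δ → ℝ) {M : ℕ} (x : Fin M → γ) (s : ℕ) (w : Om) : Prop :=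
  covT P (pair cB cD) u (rowsT (rowG P cD B D Ψ lam) x) M (s + 1) w

variable (P cD B D) in
/-- the means of the sampled rows -/
def mr (J : γ → β → δ → ℝ) {M : ℕ} (x : Fin M → γ) (i : Fin M) (s : ℕ) (w : Om) : ℝ := rm P cD D (J (x i) (B w)) s w

variable (P cB cD B D) in
/-- covered, or some sampled row has deviated -/
def KK (u lam : ℝ) (Ψ J : γ → β → δ → ℝ) {M : ℕ} (x : Fin M → γ) (s : ℕ) (w : Om) : Prop :=
  ky P cB cD B D u lam Ψ x s w ∨ dvs (mr P cD B D J x) lam s w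

variable {u lam : ℝ} {Ψ J : γ → β → δ → ℝ} {M : ℕ} {x : Fin M → γ}

theorem ky_cum : Cum (ky P cB cD B D u lam Ψ x) := fun _ _ h => covT_succ h

theorem KK_cum : Cum (KK P cB cD B D u lam Ψ J x) := by
  rintro s w (h | h)
  · exact Or.inl (ky_cum s w h)
  · exact Or.inr (dvs_cum _ _ s w h)

theorem rowsT_iff {s r : ℕ} {v w : Om} (hb : B v = B w) (hd : cD s v = cD s w) :
    rowsT (rowG P cD B D Ψ lam) x s r v ↔ rowsT (rowG P cD B D Ψ lam) x s r w :=
  exists_congr fun _ => rowG_iff hb hd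

/-- one vertex `B`: `N` = nodes, `G` = node and the exact point -/
structure Vx (P : FP Om) {κb κd κn κg : ℕ → Type*} {β δ : Type*} (cB : ∀ t, Om → κb t) (cD : ∀ t, Om → κd t)
    (B : Om → β) (D : Om → δ) (N : ∀ t, Om → κn t) (G : ∀ t, Om → κg t) : Prop where
  fN : Filt N
  fG : Filt G
  GN : ∀ s, Fac (G s) (N s)
  GB : ∀ s, Fac (G s) (fun w => (B w, pair cB cD s w))
  VB : ∀ s, Fac (fun w => (B w, D w)) (pair cB cD s)
  hD : ∀ s, Fac D (cD s)
  hN : ∀ s (f : Om → ℝ), Fac (fun w => (B w, D w)) f → ∀ w, P.p w ≠ 0 → P.ce (N s) f w = P.ce (pair cB cD s) f w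
  hG : ∀ s (F : β → δ → ℝ) (w : Om), P.p w ≠ 0 → P.ce (G s) (fun v => F (B v) (D v)) w = rm P cD D (F (B w)) s w

theorem V3.vB (V : V3 P cB cC cD B C D) : Vx P cB cD B D (nde cB cC cD) (ndx cB cC cD B) where
  fN := nde_filt V
  fG := ndx_filt V B
  GN := ndx_nde B
  GB s v w h := by
    have h' := ndx_eq.1 h
    unfold pair
    simp only [Prod.mk.injEq]
    exact ⟨h'.2, h'.1.1, h'.1.2.2⟩
  VB s v w h := by
    simp only [Prod.mk.injEq] at h
    exact pair_eq.2 ⟨V.hB s v w h.1, V.hD s v w h.2⟩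
  hD := V.hD
  hN s f hf w hw := by
    rw [← ce_pair (U := C) (V := fun w => (B w, D w)) (cU := cC) (cV := pair cB cD) V.iC V.hC (fun s v w h => by
      simp only [Prod.mk.injEq] at h
      exact pair_eq.2 ⟨V.hB s v w h.1, V.hD s v w h.2⟩) s hf hw]
    refine P.ce_congr_map (fun v w h => ?_) (fun v w h => ?_) f w
    · have h' := nde_eq.1 h
      exact pair_eq.2 ⟨h'.2.1, pair_eq.2 ⟨h'.1, h'.2.2⟩⟩
    · have h' := pair_eq.1 h
      have h'' := pair_eq.1 h'.2
      exact nde_eq.2 ⟨h''.1, h'.1, h''.2⟩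
  hG s F w hw := ce_NB V F hw

theorem V3.vC (V : V3 P cB cC cD B C D) : Vx P cC cD C D (nde cB cC cD) (ndx cB cC cD C) where
  fN := nde_filt V
  fG := ndx_filt V C
  GN := ndx_nde C
  GB s v w h := by
    have h' := ndx_eq.1 h
    unfold pair
    simp only [Prod.mk.injEq]
    exact ⟨h'.2, h'.1.2.1, h'.1.2.2⟩
  VB := V.swap.vB.VB
  hD := V.hD
  hN s f hf w hw := by
    rw [← V.swap.vB.hN s f hf w hw]
    refine P.ce_congr_map (fun v w h => ?_) (fun v w h => ?_) f w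
    · have h' := nde_eq.1 h
      exact nde_eq.2 ⟨h'.2.1, h'.1, h'.2.2⟩
    · have h' := nde_eq.1 h
      exact nde_eq.2 ⟨h'.2.1, h'.1, h'.2.2⟩
  hG s F w hw := by
    rw [← V.swap.vB.hG s F w hw]
    refine P.ce_congr_map (fun v w h => ?_) (fun v w h => ?_) _ w
    · have h' := ndx_eq.1 h
      exact ndx_eq.2 ⟨⟨h'.1.2.1, h'.1.1, h'.1.2.2⟩, h'.2⟩
    · have h' := ndx_eq.1 h
      exact ndx_eq.2 ⟨⟨h'.1.2.1, h'.1.1, h'.1.2.2⟩, h'.2⟩

section vertex

variable {κn κg : ℕ → Type*} {N : ∀ t, Om → κn t} {G : ∀ t, Om → κg t}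

theorem Vx.eq (V : Vx P cB cD B D N G) {s : ℕ} {v w : Om} (h : G s v = G s w) :
    B v = B w ∧ cB s v = cB s w ∧ cD s v = cD s w := by
  have h1 := V.GB s v w h
  unfold pair at h1
  simp only [Prod.mk.injEq] at h1
  exact h1

theorem ky_iff (V : Vx P cB cD B D N G) (s : ℕ) (v w : Om) (h : G s v = G s w) :
    ky P cB cD B D u lam Ψ x s v ↔ ky P cB cD B D u lam Ψ x s w := by
  refine CvT_fac (G := G) V.fG (fun t v w h => ?_) (fun t r v w h => ?_) s M v w h
  · exact pair_eq.2 (V.eq h).2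
  · exact rowsT_iff (V.eq h).1 (V.eq h).2.2

theorem dvs_iff (V : Vx P cB cD B D N G) (s : ℕ) (v w : Om) (h : G s v = G s w) :
    dvs (mr P cD B D J x) lam s v ↔ dvs (mr P cD B D J x) lam s w := by
  unfold dvs mr
  refine exists_congr fun s' => and_congr_right fun hs' => exists_congr fun i => ?_
  have h' := V.eq (V.fG.le hs' v w h)
  rw [h'.1, rm_eq _ h'.2.2]

theorem KK_iff (V : Vx P cB cD B D N G) (s : ℕ) (v w : Om) (h : G s v = G s w) :
    KK P cB cD B D u lam Ψ J x s v ↔ KK P cB cD B D u lam Ψ J x s w :=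
  or_congr (ky_iff V s v w h) (dvs_iff V s v w h)

variable (P G B D) in
/-- the weights of the cover -/
def wt (Ψ : γ → β → δ → ℝ) {M : ℕ} (x : Fin M → γ) : ℕ → ℕ → Om → ℝ :=
  vce P G (fun r v => if h : r < M then Ψ (x ⟨r, h⟩) (B v) (D v) else 0)

/-- the weights are the positive parts of the row means -/
theorem wt_eq (V : Vx P cB cD B D N G) (t : ℕ) (r : Fin M) {w : Om} (hw : P.p w ≠ 0) :
    wt P B D G Ψ x t r w = max (mr P cD B D Ψ x r t w) 0 := by
  show max (P.ce (G t) (fun v => if h : (r : ℕ) < M then Ψ (x ⟨r, h⟩) (B v) (D v) else 0) w) 0 =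
    max (rm P cD D (Ψ (x r) (B w)) t w) 0
  have e : (fun v => if h : (r : ℕ) < M then Ψ (x ⟨r, h⟩) (B v) (D v) else 0) = fun v => Ψ (x r) (B v) (D v) := by
    funext v
    rw [dif_pos r.2]
  rw [e, V.hG t (fun b d => Ψ (x r) b d) w hw]

theorem wt_WT (V : Vx P cB cD B D N G) (hl : 0 ≤ lam) :
    WT P N u (rowsT (rowG P cD B D Ψ lam) x) M lam (wt P B D G Ψ x) := by
  refine WT.of_ce V.fG V.GN (fun s r v w h => ?_) hl _ (fun s r w hw h => ?_)
  · exact rowsT_iff (V.eq h).1 (V.eq h).2.2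
  · obtain ⟨h1, h2⟩ := h
    simp only [dif_pos h1]
    rw [V.hG s (fun b d => Ψ (x ⟨r, h1⟩) b d) w hw]
    exact h2.le

/-- **payment of the covers** -/
theorem cov_pay (V : Vx P cB cD B D N G) (hu : 0 < u) (hl : 0 ≤ lam) {σ : Om → ℕ} (hσ : Stp N σ) :
    lam * P.Pr (fun w => ky P cB cD B D u lam Ψ x (σ w) w) ≤
      2 * P.E (fun w => PhiT P N u (rowsT (rowG P cD B D Ψ lam) x) M lam (wt P B D G Ψ x) (σ w) w) :=
  cov_leV (V := fun w => (B w, D w)) (cV := pair cB cD) V.fN V.hN V.VB (fun s r v w h => by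
    simp only [Prod.mk.injEq] at h
    exact rowsT_iff h.1 (V.hD s v w h.2)) hu (wt_WT V hl) hσ

/-- **payment of the deviations** -/
theorem dvs_pay (V : Vx P cB cD B D N G) {σ : Om → ℕ} (hσ : Stp N σ) {T : ℕ} (hT : ∀ w, σ w < T) {g : Om → ℝ}
    (hg0 : ∀ w, P.p w ≠ 0 → 0 ≤ g w) (hg : ∀ i w, P.p w ≠ 0 → mr P cD B D J x i (σ w) w - lam / 2 ≤ g w) :
    lam / 2 * P.Pr (fun w => dvs (mr P cD B D J x) lam (σ w) w) ≤ P.E g := by
  refine dev_pay V.fG (fun i w => J (x i) (B w) (D w)) (fun i t v w h => ?_) (fun i t w hw => ?_)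
    (Stp.mono V.GN hσ) hT hg0 hg
  · have h' := V.eq h
    unfold mr
    rw [h'.1, rm_eq _ h'.2.2]
  · exact (V.hG t (fun b d => J (x i) b d) w hw).symm

/-- **payment of `KK`** -/
theorem KK_pay (V : Vx P cB cD B D N G) (hu : 0 < u) (hl : 0 ≤ lam) {σ : Om → ℕ} (hσ : Stp N σ) {T : ℕ}
    (hT : ∀ w, σ w < T) {g : Om → ℝ} (hg0 : ∀ w, P.p w ≠ 0 → 0 ≤ g w)
    (hg : ∀ i w, P.p w ≠ 0 → mr P cD B D J x i (σ w) w - lam / 2 ≤ g w) :
    lam / 2 * P.Pr (fun w => KK P cB cD B D u lam Ψ J x (σ w) w) ≤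
      P.E (fun w => PhiT P N u (rowsT (rowG P cD B D Ψ lam) x) M lam (wt P B D G Ψ x) (σ w) w) + P.E g := by
  have h1 := cov_pay (Ψ := Ψ) (x := x) V hu hl hσ
  have h2 := dvs_pay (J := J) (x := x) V hσ hT hg0 hg
  have h3 : P.Pr (fun w => KK P cB cD B D u lam Ψ J x (σ w) w) ≤ P.Pr (fun w => ky P cB cD B D u lam Ψ x (σ w) w) +
      P.Pr (fun w => dvs (mr P cD B D J x) lam (σ w) w) := by
    unfold FP.Pr
    rw [← FP.E_add]
    refine P.E_mono fun w _ => ?_
    unfold KK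
    by_cases a : ky P cB cD B D u lam Ψ x (σ w) w
    · rw [ind_of (Or.inl a), ind_of a]
      linarith [ind_nonneg (dvs (mr P cD B D J x) lam (σ w) w)]
    · by_cases b : dvs (mr P cD B D J x) lam (σ w) w
      · rw [ind_of (Or.inr b), ind_of b]
        linarith [ind_nonneg (ky P cB cD B D u lam Ψ x (σ w) w)]
      · rw [ind_not (by tauto)]
        exact add_nonneg (ind_nonneg _) (ind_nonneg _)
  have h4 := mul_le_mul_of_nonneg_left h3 (show 0 ≤ lam / 2 by positivity)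
  linarith

end vertex

/-! ## the exceptional events and the bad rows, for the vertex `B` -/

variable (P cD B C D) in
/-- the row of the true point `C` is the first one which deviates at `B` -/
def fst1 (lam : ℝ) (J : γ → β → δ → ℝ) {M : ℕ} (x : Fin M → γ) (T : ℕ) (w : Om) : Prop :=
  ∃ s < T + 1, lam < rm P cD D (J (C w) (B w)) s w ∧ ∀ i, ∀ s' ≤ s, ¬ lam < rm P cD D (J (x i) (B w)) s' w

variable (P cB cD B C D) in
/-- the row of the true point `C` is bad for the cover -/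
def bdr (u lam : ℝ) (Ψ : γ → β → δ → ℝ) {M : ℕ} (x : Fin M → γ) (T : ℕ) (w : Om) : Prop :=
  badT P (pair cB cD) u (rowsT (rowG P cD B D Ψ lam) x) M (rowG P cD B D Ψ lam (C w)) (T + 1) w

/-- the vertex `C` is independent of `(B, D)`, mean over the sample: bad rows -/
theorem bad_mean [Fintype γ] (V : V3 P cB cC cD B C D) (hu : 0 < u) (M T : ℕ) :
    ∑ x : Fin M → γ, sw (fun c => P.Pr (fun w => C w = c)) x * P.Pr (bdr P cB cD B C D u lam Ψ x T) ≤
      2 / (u * (M + 1)) := by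
  exact badT_le (P := P) (U := C) (V := fun w => (B w, D w)) (cV := pair cB cD) V.iC
    (fun s v w h => by
      simp only [Prod.mk.injEq] at h
      exact pair_eq.2 ⟨V.hB s v w h.1, V.hD s v w h.2⟩) (pair_filt V.fB V.fD) hu (rowG P cD B D Ψ lam) M (T + 1)

/-- mean over the sample: first deviator -/
theorem fst_mean [Fintype γ] (V : V3 P cB cC cD B C D) (M T : ℕ) :
    ∑ x : Fin M → γ, sw (fun c => P.Pr (fun w => C w = c)) x * P.Pr (fst1 P cD B C D lam J x T) ≤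
      1 / ((M : ℝ) + 1) := by
  refine CR.first_le (P := P) (U := C) (V := fun w => (B w, D w)) V.iC
    (dev := fun c s w => lam < rm P cD D (J c (B w)) s w) (fun c s v w h => ?_) M (T + 1)
  simp only [Prod.mk.injEq] at h
  rw [h.1, rm_eq _ (V.hD s v w h.2)]

/-- **one side**: an uncovered vertex at which the true row of `J` deviates is exceptional -/
theorem not_dev {t T : ℕ} (ht : t ≤ T) {w : Om} (hK : ¬ KK P cB cD B D u lam Ψ J x t w)
    (hE : ¬ fst1 P cD B C D lam J x T w) : rm P cD D (J (C w) (B w)) t w ≤ lam := by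
  by_contra hcon
  refine hE ⟨t, by omega, not_le.1 hcon, fun i s' hs' h => hK (Or.inr ⟨s', hs', i, h⟩)⟩

/-! ## both vertices -/

section both

variable {ΨY J2 : γ → β → δ → ℝ} {ΨZ J1 : β → γ → δ → ℝ} {ψ : β → γ → δ → ℝ} {M' : ℕ} {y : Fin M' → β}

/-- **both uncovered and a large row**: the current rows of `ΨY` and `ΨZ` deviate -/
theorem uncov (V : V3 P cB cC cD B C D) (hY : ∀ b c d, ψ b c d = ΨY c b d + J1 b c d)
    (hZ : ∀ b c d, ψ b c d = ΨZ b c d + J2 c b d) {t T : ℕ} (ht : t ≤ T) {w : Om} (hw : P.p w ≠ 0)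
    (hA : Ab P (ndx cB cC cD (fun v => (B v, C v))) (KK P cB cD B D u lam ΨY J2 x) (KK P cC cD C D u lam ΨZ J1 y)
      (fun v => ψ (B v) (C v) (D v)) (2 * lam) t w)
    (hE1 : ¬ fst1 P cD B C D lam J2 x T w) (hE2 : ¬ fst1 P cD C B D lam J1 y T w) :
    (rowG P cD B D ΨY lam (C w) t w ∧ ¬ ky P cB cD B D u lam ΨY x t w) ∧
      (rowG P cD C D ΨZ lam (B w) t w ∧ ¬ ky P cC cD C D u lam ΨZ y t w) := by
  obtain ⟨h1, h2, h3⟩ := hA
  rw [ce_NE V ψ hw] at h1
  have h4 := not_dev ht h2 hE1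
  have h5 := not_dev ht h3 hE2
  have e1 : rm P cD D (ψ (B w) (C w)) t w = rm P cD D (ΨY (C w) (B w)) t w + rm P cD D (J1 (B w) (C w)) t w := by
    rw [← rm_add]
    congr 1
    funext d
    exact hY _ _ _
  have e2 : rm P cD D (ψ (B w) (C w)) t w = rm P cD D (ΨZ (B w) (C w)) t w + rm P cD D (J2 (C w) (B w)) t w := by
    rw [← rm_add]
    congr 1
    funext d
    exact hZ _ _ _
  refine ⟨⟨?_, fun h => h2 (Or.inl h)⟩, ?_, fun h => h3 (Or.inl h)⟩
  · unfold rowG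
    linarith
  · unfold rowG
    linarith

variable {bd : Om → Prop} {ub h : ℝ}

/-- **the unsigned part of one pair letter** -/
theorem tri_un (V : V3 P cB cC cD B C D) (hY : ∀ b c d, ψ b c d = ΨY c b d + J1 b c d)
    (hZ : ∀ b c d, ψ b c d = ΨZ b c d + J2 c b d) (h0 : 0 ≤ h) (hub : 0 ≤ ub) (hu : 0 ≤ u)
    (hmB : ∀ s w, P.p w ≠ 0 → P.m (ndx cB cC cD B s) w ≤ h * P.m (ndx cB cC cD B (s + 1)) w)
    (hmC : ∀ s w, P.p w ≠ 0 → P.m (ndx cB cC cD C s) w ≤ h * P.m (ndx cB cC cD C (s + 1)) w)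
    {σ : Om → ℕ} (hσ : Stp (nde cB cC cD) σ) {T : ℕ} (hT : ∀ w, σ w < T) :
    P.Pr (fun w => bd w ∧ ∃ s < σ w, Un P bd ub (ndx cB cC cD B) (ndx cB cC cD C)
        (ndx cB cC cD (fun v => (B v, C v))) (KK P cB cD B D u lam ΨY J2 x) (KK P cC cD C D u lam ΨZ J1 y)
        (fun v => ψ (B v) (C v) (D v)) (2 * lam) s w) ≤
      h * ub * (P.Pr (fun w => KK P cB cD B D u lam ΨY J2 x (σ w) w) +
        P.Pr (fun w => KK P cC cD C D u lam ΨZ J1 y (σ w) w)) +
      u / 2 * (P.Pr (fun w => up P bd ub (ndx cB cC cD B) (σ w) w) +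
        P.Pr (fun w => up P bd ub (ndx cB cC cD C) (σ w) w)) +
      (P.Pr (bdr P cC cD C B D u lam ΨZ y T) + P.Pr (bdr P cB cD B C D u lam ΨY x T)) +
      2 * (P.Pr (fst1 P cD B C D lam J2 x T) + P.Pr (fst1 P cD C B D lam J1 y T)) := by
  set Ex : Om → Prop := fun w => fst1 P cD B C D lam J2 x T w ∨ fst1 P cD C B D lam J1 y T w with hEx
  have h1 := un_le (P := P) (bd := bd) (ub := ub) (h := h) (kap := u / 2) (N := nde cB cC cD)
    (GB := ndx cB cC cD B) (GC := ndx cB cC cD C) (GE := ndx cB cC cD (fun v => (B v, C v)))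
    (KB := KK P cB cD B D u lam ΨY J2 x) (KC := KK P cC cD C D u lam ΨZ J1 y)
    (ψ := fun v => ψ (B v) (C v) (D v)) (lam2 := 2 * lam) (ndx_filt V B) (ndx_filt V C) (ndx_nde B) (ndx_nde C)
    h0 hub (by linarith) hmB hmC KK_cum KK_cum (KK_iff V.vB) (KK_iff V.vC) hσ hT Ex
  have hP : P.Pr Ex ≤ P.Pr (fst1 P cD B C D lam J2 x T) + P.Pr (fst1 P cD C B D lam J1 y T) := by
    unfold FP.Pr
    rw [← FP.E_add]
    refine P.E_mono fun w _ => ?_
    by_cases a : fst1 P cD B C D lam J2 x T w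
    · rw [ind_of (show Ex w from Or.inl a), ind_of a]
      linarith [ind_nonneg (fst1 P cD C B D lam J1 y T w)]
    · by_cases b : fst1 P cD C B D lam J1 y T w
      · rw [ind_of (show Ex w from Or.inr b), ind_of b]
        linarith [ind_nonneg (fst1 P cD B C D lam J2 x T w)]
      · rw [ind_not (show ¬ Ex w by rintro (h | h) <;> contradiction)]
        exact add_nonneg (ind_nonneg _) (ind_nonneg _)
  -- the bad vertices
  have hC : P.Pr (bv P (ndx cB cC cD (fun v => (B v, C v))) (KK P cB cD B D u lam ΨY J2 x)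
      (KK P cC cD C D u lam ΨZ J1 y) (fun v => ψ (B v) (C v) (D v)) (2 * lam) (u / 2) (ndx cB cC cD C) Ex T) ≤
      P.Pr (bdr P cB cD B C D u lam ΨY x T) := by
    refine P.Pr_mono fun w hw hb => ?_
    refine bv_bad (P := P) (U := C) (V := fun w => (B w, D w)) (cU := cC) (cV := pair cB cD)
      (row := rowG P cD B D ΨY lam) V.iC V.hC V.vB.VB (fun s v w h => ?_) (fun s v w h => ?_) (fun a s v w h => ?_)
      (fun s r v w h => ?_) (fun t ht v hv hA hE => ?_) hw hb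
    · have h' := ndx_eq.1 h
      show (pair cC (pair cB cD) s v, C v) = (pair cC (pair cB cD) s w, C w)
      rw [pair_eq.2 ⟨h'.1.2.1, pair_eq.2 ⟨h'.1.1, h'.1.2.2⟩⟩, h'.2]
    · have h' : pair cC (pair cB cD) s v = pair cC (pair cB cD) s w ∧ C v = C w := Prod.mk.injEq _ _ _ _ ▸ h
      have h2 := pair_eq.1 h'.1
      have h3 := pair_eq.1 h2.2
      exact ndx_eq.2 ⟨⟨h3.1, h2.1, h3.2⟩, h'.2⟩
    · simp only [Prod.mk.injEq] at h
      exact rowG_iff h.1 (V.hD s v w h.2)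
    · simp only [Prod.mk.injEq] at h
      exact rowsT_iff h.1 (V.hD s v w h.2)
    · exact (uncov V hY hZ ht hv hA (fun h => hE (Or.inl h)) (fun h => hE (Or.inr h))).1
  have hB : P.Pr (bv P (ndx cB cC cD (fun v => (B v, C v))) (KK P cB cD B D u lam ΨY J2 x)
      (KK P cC cD C D u lam ΨZ J1 y) (fun v => ψ (B v) (C v) (D v)) (2 * lam) (u / 2) (ndx cB cC cD B) Ex T) ≤
      P.Pr (bdr P cC cD C B D u lam ΨZ y T) := by
    refine P.Pr_mono fun w hw hb => ?_
    refine bv_bad (P := P) (U := B) (V := fun w => (C w, D w)) (cU := cB) (cV := pair cC cD)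
      (row := rowG P cD C D ΨZ lam) V.iB V.hB V.vC.VB (fun s v w h => ?_) (fun s v w h => ?_) (fun a s v w h => ?_)
      (fun s r v w h => ?_) (fun t ht v hv hA hE => ?_) hw hb
    · have h' := ndx_eq.1 h
      show (pair cB (pair cC cD) s v, B v) = (pair cB (pair cC cD) s w, B w)
      rw [pair_eq.2 ⟨h'.1.1, pair_eq.2 ⟨h'.1.2.1, h'.1.2.2⟩⟩, h'.2]
    · have h' : pair cB (pair cC cD) s v = pair cB (pair cC cD) s w ∧ B v = B w := Prod.mk.injEq _ _ _ _ ▸ h
      have h2 := pair_eq.1 h'.1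
      have h3 := pair_eq.1 h2.2
      exact ndx_eq.2 ⟨⟨h2.1, h3.1, h3.2⟩, h'.2⟩
    · simp only [Prod.mk.injEq] at h
      exact rowG_iff h.1 (V.hD s v w h.2)
    · simp only [Prod.mk.injEq] at h
      exact rowsT_iff h.1 (V.hD s v w h.2)
    · exact (uncov V hY hZ ht hv hA (fun h => hE (Or.inl h)) (fun h => hE (Or.inr h))).2
  linarith

/-- **the released part of one pair letter** -/
theorem tri_rl (V : V3 P cB cC cD B C D) (h0 : 0 ≤ h) (hub : 0 ≤ ub) (hl : 0 ≤ lam)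
    (hmB : ∀ s w, P.p w ≠ 0 → P.m (ndx cB cC cD B s) w ≤ h * P.m (ndx cB cC cD B (s + 1)) w)
    (hmC : ∀ s w, P.p w ≠ 0 → P.m (ndx cB cC cD C s) w ≤ h * P.m (ndx cB cC cD C (s + 1)) w)
    (hbd : ∀ v w, B v = B w → C v = C w → (bd v ↔ bd w))
    {σ : Om → ℕ} (hσ : Stp (nde cB cC cD) σ) {T : ℕ} (hT : ∀ w, σ w < T) :
    P.E (fun w => ind (bd w ∧ ∃ s < σ w, Rl P bd ub (ndx cB cC cD B) (ndx cB cC cD C)
        (ndx cB cC cD (fun v => (B v, C v))) (KK P cB cD B D u lam ΨY J2 x) (KK P cC cD C D u lam ΨZ J1 y)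
        (fun v => ψ (B v) (C v) (D v)) (2 * lam) s w) * ψ (B w) (C w) (D w)) ≤
      2 * lam * (h * ub) * (P.Pr (fun w => up P bd ub (ndx cB cC cD B) (σ w) w) +
        P.Pr (fun w => up P bd ub (ndx cB cC cD C) (σ w) w)) := by
  refine rl_le (P := P) (N := nde cB cC cD) (ndx_filt V B) (ndx_filt V C) (ndx_filt V _) (ndx_nde B) (ndx_nde C)
    (ndx_mono fun v w h => ?_) (ndx_mono fun v w h => ?_) h0 hub (by linarith) hmB hmC KK_cum KK_cum (KK_iff V.vB)
    (KK_iff V.vC) hσ hT (fun s v w h => ?_)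
  · simp only [Prod.mk.injEq] at h
    exact h.1
  · simp only [Prod.mk.injEq] at h
    exact h.2
  · have h' := ndx_eq.1 h
    simp only [Prod.mk.injEq] at h'
    exact hbd v w h'.2.1 h'.2.2

/-- **undecided**: not yet dense for the exact vertex `C`; `g` sees the node, `C` and `D` -/
theorem tri_und (V : V3 P cB cC cD B C D) (hub : 0 ≤ ub) (hbd : ∀ v w, B v = B w → C v = C w → (bd v ↔ bd w))
    {σ : Om → ℕ} (hσ : Stp (nde cB cC cD) σ) {T : ℕ} (hT : ∀ w, σ w < T) {g : ℕ → Om → ℝ}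
    (hg : ∀ s, Fac (ndx cB cC cD (fun v => (C v, D v)) s) (g s)) (hg0 : ∀ s w, 0 ≤ g s w) :
    P.E (fun w => ind (¬ up P bd ub (ndx cB cC cD C) (σ w) w) * g (σ w) w * ind (bd w)) ≤
      ub * P.E (fun w => g (σ w) w) := by
  refine undec_le hub (ndx_filt V C) (GD := ndx cB cC cD (fun v => (C v, D v))) (ndx_mono fun v w h => ?_)
    (fun s w hw => ?_) (Stp.mono (ndx_nde C) hσ) hT hg hg0
  · simp only [Prod.mk.injEq] at h
    exact h.1
  · unfold den
    have h1 := P.ce_indep_eq V.iD (ζ := fun v => (cB s v, C v)) (φ := cD s) (ψ := D) (fun v w h => by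
        simp only [Prod.mk.injEq] at h ⊢
        exact ⟨V.hB s v w h.1, h.2⟩) (Fac.refl D) (V.hD s) (f := fun v => ind (bd v)) (Fac.ind fun v w h => by
        simp only [Prod.mk.injEq] at h
        exact hbd v w h.1.1 h.1.2) hw
    rw [P.ce_congr_map (X := ndx cB cC cD (fun v => (C v, D v)) s) (Y := fun v => ((cB s v, C v), D v))
      (fun v w h => by
        have h' := ndx_eq.1 h
        simp only [Prod.mk.injEq] at h' ⊢
        exact ⟨⟨h'.1.1, h'.2.1⟩, h'.2.2⟩) (fun v w h => by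
        simp only [Prod.mk.injEq] at h
        refine ndx_eq.2 ⟨⟨h.1.1, V.hC s v w h.1.2, V.hD s v w h.2⟩, ?_⟩
        simp only [Prod.mk.injEq]
        exact ⟨h.1.2, h.2⟩), h1]
    exact P.ce_congr_map (fun v w h => by
      simp only [Prod.mk.injEq] at h
      exact ndx_eq.2 ⟨⟨h.1.1, V.hC s v w h.1.2, h.2⟩, h.1.2⟩) (fun v w h => by
      have h' := ndx_eq.1 h
      simp only [Prod.mk.injEq]
      exact ⟨⟨h'.1.1, h'.2⟩, h'.1.2.2⟩) _ w

end both

end

end Pool.Agent.GMH.Tri
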