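import Pool.Agent.GMH.Tri4

/-!
# GMH/Tri5 (helper63): one exact vertex, two bodies (note 3936 (5)); the undecided part for the vertex `B`

The pair letter `bd (B, C)` and a static function `ψ (B, C, D)`; only the exact vertex `B` is looked at.
A pair is decided at the first time at which `K` or `up NB` holds, released if `¬ K` and the row mean is `≤ lam`.

* `two_un_le`, `two_rl_le` : abstract accounting (filtration `G` of the exact vertex, `GE` of the pair);
* `two_un`, `two_rl` : the instance `K = dvs (mr ψ x) lam` (some sampled row has deviated at `B`);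
* `tri_undB` : undecided part for the vertex `B`.
-/

set_option autoImplicit false
set_option linter.unusedSectionVars false

namespace Pool.Agent.GMH.Tri

open Finset Pool.Agent.PWZ Pool.Agent.M3 Pool.Agent.GMH.Gdy

noncomputable section

variable {Om : Type*} [Fintype Om] {P : FP Om}

section abs

variable {bd : Om → Prop} {ub h : ℝ} {κ κE κN : ℕ → Type*} {N : ∀ t, Om → κN t} {G : ∀ t, Om → κ t}
  {GE : ∀ t, Om → κE t} {K : ℕ → Om → Prop} {ψ : Om → ℝ} {lam : ℝ}

variable (P bd ub G K) in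
/-- decided at a time `≤ s` -/
def Dc1 (s : ℕ) (w : Om) : Prop := K s w ∨ up P bd ub G s w

variable (P bd ub G GE K ψ lam) in
/-- decided and released at the time `s + 1` -/
def Rl1 (s : ℕ) (w : Om) : Prop := ¬ Dc1 P bd ub G K s w ∧ ¬ K (s + 1) w ∧ up P bd ub G (s + 1) w ∧
  P.ce (GE (s + 1)) ψ w ≤ lam

variable (P bd ub G GE K ψ lam) in
/-- decided and not released at the time `s + 1` -/
def Un1 (s : ℕ) (w : Om) : Prop := ¬ Dc1 P bd ub G K s w ∧ Dc1 P bd ub G K (s + 1) w ∧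
  ¬ Rl1 P bd ub G GE K ψ lam s w

theorem Dc1_cum (hK : Cum K) : Cum (Dc1 P bd ub G K) := by
  rintro s w (h | h)
  · exact Or.inl (hK s w h)
  · exact Or.inr (up_succ h)

/-- exactly one of the four cases -/
theorem cases3 (hK : Cum K) (σ : Om → ℕ) (w : Om) (h0 : ¬ Dc1 P bd ub G K 0 w) :
    (¬ Dc1 P bd ub G K (σ w) w) ∨ (∃ s < σ w, Un1 P bd ub G GE K ψ lam s w) ∨
      ∃ s < σ w, Rl1 P bd ub G GE K ψ lam s w := by
  by_cases h : Dc1 P bd ub G K (σ w) w
  · right
    classical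
    have hex : ∃ s, Dc1 P bd ub G K s w := ⟨σ w, h⟩
    set s0 := Nat.find hex with hs0
    have h1 := Nat.find_spec hex
    have h2 : s0 ≤ σ w := Nat.find_min' hex h
    have h3 : s0 ≠ 0 := by
      intro h4
      rw [← hs0, h4] at h1
      exact h0 h1
    obtain ⟨s, hs⟩ : ∃ s, s0 = s + 1 := ⟨s0 - 1, by omega⟩
    have h5 : ¬ Dc1 P bd ub G K s w := Nat.find_min hex (by omega)
    rw [← hs0, hs] at h1
    by_cases h6 : Rl1 P bd ub G GE K ψ lam s w
    · exact Or.inr ⟨s, by omega, h6⟩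
    · exact Or.inl ⟨s, by omega, h5, h1, h6⟩
  · exact Or.inl h

/-- **unsigned part, one exact vertex** -/
theorem two_un_le (hG : Filt G) (fG : ∀ s, Fac (G s) (N s)) (h0 : 0 ≤ h) (hub : 0 ≤ ub)
    (hm : ∀ s w, P.p w ≠ 0 → P.m (G s) w ≤ h * P.m (G (s + 1)) w) (cK : Cum K)
    (hK : ∀ s v w, G s v = G s w → (K s v ↔ K s w)) {σ : Om → ℕ} (hσ : Stp N σ) {T : ℕ} (hT : ∀ w, σ w < T)
    {Ex : Om → Prop} (hE : ∀ t ≤ T, ∀ w, P.p w ≠ 0 → ¬ K t w → lam < P.ce (GE t) ψ w → Ex w) :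
    P.Pr (fun w => bd w ∧ ∃ s < σ w, Un1 P bd ub G GE K ψ lam s w) ≤
      h * ub * P.Pr (fun w => K (σ w) w) + P.Pr Ex := by
  have h1 := K_le (P := P) (bd := bd) (ub := ub) hG fG h0 hub hm cK hK hσ hT
  rw [← FP.E_sum] at h1
  refine le_trans ?_ (add_le_add_left h1 _)
  unfold FP.Pr
  rw [← FP.E_add]
  refine P.E_mono fun w hw0 => ?_
  have n1 : ∀ s ∈ range T, 0 ≤ ind (s < σ w) * ind (K (s + 1) w ∧ ¬ K s w) *
      ind (¬ up P bd ub G s w) * ind (bd w) := fun s _ =>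
    mul_nonneg (mul_nonneg (mul_nonneg (ind_nonneg _) (ind_nonneg _)) (ind_nonneg _)) (ind_nonneg _)
  have m1 := Finset.sum_nonneg n1
  by_cases hw : bd w ∧ ∃ s < σ w, Un1 P bd ub G GE K ψ lam s w
  · rw [ind_of hw]
    obtain ⟨hb, s, hs, hu1, hu2, hu3⟩ := hw
    have hsT : s ∈ range T := mem_range.2 (hs.trans (hT w))
    have hn : ¬ K s w ∧ ¬ up P bd ub G s w := by
      unfold Dc1 at hu1
      push Not at hu1
      exact hu1
    by_cases c1 : K (s + 1) w
    · have h5 := Finset.single_le_sum n1 hsT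
      have e5 : ind (s < σ w) * ind (K (s + 1) w ∧ ¬ K s w) * ind (¬ up P bd ub G s w) * ind (bd w) = 1 := by
        rw [ind_of hs, ind_of (show _ ∧ _ from ⟨c1, hn.1⟩), ind_of hn.2, ind_of hb]
        ring
      rw [e5] at h5
      linarith [ind_nonneg (Ex w)]
    · have c3 : up P bd ub G (s + 1) w := by
        unfold Dc1 at hu2
        tauto
      have c4 : Ex w := by
        refine hE (s + 1) (by have := hT w; omega) w hw0 c1 ?_
        by_contra hcon
        exact hu3 ⟨hu1, c1, c3, not_lt.1 hcon⟩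
      rw [ind_of c4]
      linarith
  · rw [ind_not hw]
    linarith [ind_nonneg (Ex w)]

/-- **released part, one exact vertex** -/
theorem two_rl_le (hG : Filt G) (hGE : Filt GE) (fG : ∀ s, Fac (G s) (N s)) (fE : ∀ s, Fac (GE s) (G s))
    (h0 : 0 ≤ h) (hub : 0 ≤ ub) (hl : 0 ≤ lam)
    (hm : ∀ s w, P.p w ≠ 0 → P.m (G s) w ≤ h * P.m (G (s + 1)) w) (cK : Cum K)
    (hK : ∀ s v w, G s v = G s w → (K s v ↔ K s w)) {σ : Om → ℕ} (hσ : Stp N σ) {T : ℕ} (hT : ∀ w, σ w < T)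
    (hbd : ∀ s v w, GE s v = GE s w → (bd v ↔ bd w)) :
    P.E (fun w => ind (bd w ∧ ∃ s < σ w, Rl1 P bd ub G GE K ψ lam s w) * ψ w) ≤
      lam * (h * ub) * P.Pr (fun w => up P bd ub G (σ w) w) := by
  have fU : ∀ s v w, GE s v = GE s w → (up P bd ub G s v ↔ up P bd ub G s w) := fun s v w hvw =>
    up_fac hG s v w (fE s v w hvw)
  have fDc : ∀ s v w, GE s v = GE s w → (Dc1 P bd ub G K s v ↔ Dc1 P bd ub G K s w) := by
    intro s v w hvw
    unfold Dc1
    rw [hK s v w (fE s v w hvw), fU s v w hvw]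
  have fRl : ∀ s v w, GE (s + 1) v = GE (s + 1) w →
      (Rl1 P bd ub G GE K ψ lam s v ↔ Rl1 P bd ub G GE K ψ lam s w) := by
    intro s v w hvw
    unfold Rl1
    rw [fDc s v w (hGE s v w hvw), hK (s + 1) v w (fE (s + 1) v w hvw), fU (s + 1) v w hvw,
      P.ce_fac (GE (s + 1)) ψ v w hvw]
  have hone : ∀ s s' w, Rl1 P bd ub G GE K ψ lam s w → Rl1 P bd ub G GE K ψ lam s' w → s = s' := by
    have key : ∀ s s' w, s < s' → Rl1 P bd ub G GE K ψ lam s w → ¬ Rl1 P bd ub G GE K ψ lam s' w := by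
      intro s s' w hss h1 h2
      exact h2.1 ((Dc1_cum cK).le (show s + 1 ≤ s' by omega) (Or.inr h1.2.2.1))
    intro s s' w h1 h2
    rcases lt_trichotomy s s' with h | h | h
    · exact absurd h2 (key s s' w h h1)
    · exact h
    · exact absurd h1 (key s' s w h h2)
  have hsum : ∀ w, ind (bd w ∧ ∃ s < σ w, Rl1 P bd ub G GE K ψ lam s w) =
      ∑ s ∈ range T, ind (s < σ w) * ind (Rl1 P bd ub G GE K ψ lam s w) * ind (bd w) := by
    intro w
    by_cases hw : bd w ∧ ∃ s < σ w, Rl1 P bd ub G GE K ψ lam s w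
    · rw [ind_of hw]
      obtain ⟨hb, s, hs, hr⟩ := hw
      rw [Finset.sum_eq_single s, ind_of hs, ind_of hr, ind_of hb]
      · ring
      · intro s' _ hne
        rw [ind_not (p := Rl1 P bd ub G GE K ψ lam s' w) (fun h => hne (hone s' s w h hr))]
        ring
      · intro h
        exact absurd (mem_range.2 (hs.trans (hT w))) h
    · rw [ind_not hw]
      refine (Finset.sum_eq_zero fun s _ => ?_).symm
      by_cases hb : bd w
      · by_cases hs : s < σ w
        · rw [ind_not (p := Rl1 P bd ub G GE K ψ lam s w) (fun h => hw ⟨hb, s, hs, h⟩)]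
          ring
        · rw [ind_not hs]
          ring
      · rw [ind_not hb]
        ring
  have e1 : P.E (fun w => ind (bd w ∧ ∃ s < σ w, Rl1 P bd ub G GE K ψ lam s w) * ψ w) =
      ∑ s ∈ range T, P.E (fun w => ind (s < σ w) * ind (Rl1 P bd ub G GE K ψ lam s w) * ind (bd w) * ψ w) := by
    rw [← FP.E_sum]
    refine P.E_congr fun w _ => ?_
    rw [hsum w, Finset.sum_mul]
  have h1 : ∀ s ∈ range T,
      P.E (fun w => ind (s < σ w) * ind (Rl1 P bd ub G GE K ψ lam s w) * ind (bd w) * ψ w) ≤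
      lam * P.E (fun w => ind (s < σ w) * ind (up P bd ub G (s + 1) w ∧ ¬ up P bd ub G s w) *
        ind (¬ up P bd ub G s w) * ind (bd w)) := by
    intro s _
    have hf : Fac (GE (s + 1)) (fun w => ind (s < σ w) * ind (Rl1 P bd ub G GE K ψ lam s w) * ind (bd w)) := by
      refine Fac.mul (Fac.mul ?_ (Fac.ind fun v w hvw => ?_)) (Fac.ind fun v w hvw => ?_)
      · have h2 : Fac (G s) (fun w => ind (s < σ w)) := (Stp.mono fG hσ).lt_fac s
        exact (hGE s).trans ((fE s).trans h2)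
      · rw [fRl s v w hvw]
      · rw [hbd (s + 1) v w hvw]
    rw [← P.E_mul_ce hf ψ, ← FP.E_smul]
    refine P.E_mono fun w hw => ?_
    have q1 : 0 ≤ ind (s < σ w) * ind (up P bd ub G (s + 1) w ∧ ¬ up P bd ub G s w) *
        ind (¬ up P bd ub G s w) * ind (bd w) :=
      mul_nonneg (mul_nonneg (mul_nonneg (ind_nonneg _) (ind_nonneg _)) (ind_nonneg _)) (ind_nonneg _)
    by_cases hr : s < σ w ∧ Rl1 P bd ub G GE K ψ lam s w ∧ bd w
    · obtain ⟨hs, hr, hb⟩ := hr
      have hn : ¬ K s w ∧ ¬ up P bd ub G s w := by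
        have := hr.1
        unfold Dc1 at this
        push Not at this
        exact this
      have h3 : ind (s < σ w) * ind (Rl1 P bd ub G GE K ψ lam s w) * ind (bd w) = 1 := by
        rw [ind_of hs, ind_of hr, ind_of hb]
        ring
      have h4 : ind (s < σ w) * ind (up P bd ub G (s + 1) w ∧ ¬ up P bd ub G s w) *
          ind (¬ up P bd ub G s w) * ind (bd w) = 1 := by
        rw [ind_of hs, ind_of (show _ ∧ _ from ⟨hr.2.2.1, hn.2⟩), ind_of hn.2, ind_of hb]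
        ring
      rw [h3, h4]
      linarith [hr.2.2.2]
    · have h3 : ind (s < σ w) * ind (Rl1 P bd ub G GE K ψ lam s w) * ind (bd w) = 0 := by
        by_cases a : s < σ w
        · by_cases b : Rl1 P bd ub G GE K ψ lam s w
          · by_cases c : bd w
            · exact absurd ⟨a, b, c⟩ hr
            · rw [ind_not c, mul_zero]
          · rw [ind_not b]
            ring
        · rw [ind_not a]
          ring
      rw [h3, zero_mul]
      exact mul_nonneg hl q1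
  rw [e1]
  refine (Finset.sum_le_sum h1).trans ?_
  rw [← Finset.mul_sum]
  have h2 := K_le (P := P) (bd := bd) (ub := ub) hG fG h0 hub hm (KC := up P bd ub G) up_cum
    (fun s v w hvw => up_fac hG s v w hvw) hσ hT
  have h4 := mul_le_mul_of_nonneg_left h2 hl
  linarith

end abs

/-! ## the instance -/

variable {κb κc κd : ℕ → Type*} {β γ δ : Type*} {cB : ∀ t, Om → κb t} {cC : ∀ t, Om → κc t}
  {cD : ∀ t, Om → κd t} {B : Om → β} {C : Om → γ} {D : Om → δ} {bd : Om → Prop} {ub h lam : ℝ} {M : ℕ}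
  {x : Fin M → γ}

/-- two filtrations with the same information -/
theorem den_congr {κ κ' : ℕ → Type*} {G : ∀ t, Om → κ t} {G' : ∀ t, Om → κ' t} (h1 : ∀ s, Fac (G s) (G' s))
    (h2 : ∀ s, Fac (G' s) (G s)) (s : ℕ) (w : Om) : den P bd G s w = den P bd G' s w := P.ce_congr_map (h1 s) (h2 s) _ w

theorem up_congr {κ κ' : ℕ → Type*} {G : ∀ t, Om → κ t} {G' : ∀ t, Om → κ' t} (h1 : ∀ s, Fac (G s) (G' s))
    (h2 : ∀ s, Fac (G' s) (G s)) (s : ℕ) (w : Om) : up P bd ub G s w ↔ up P bd ub G' s w := by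
  unfold up
  exact exists_congr fun s' => and_congr_right fun _ => by rw [den_congr h1 h2]

/-- change of the order of the cells -/
theorem ndx_swap {α : Type*} (F : Om → α) (s : ℕ) : Fac (ndx cB cC cD F s) (ndx cC cB cD F s) := fun v w h => by
  have h' := ndx_eq.1 h
  exact ndx_eq.2 ⟨⟨h'.1.2.1, h'.1.1, h'.1.2.2⟩, h'.2⟩

/-- **undecided**: not yet dense for the exact vertex `B`; `g` sees the node, `B` and `D` -/
theorem tri_undB (V : V3 P cB cC cD B C D) (hub : 0 ≤ ub) (hbd : ∀ v w, B v = B w → C v = C w → (bd v ↔ bd w))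
    {σ : Om → ℕ} (hσ : Stp (nde cB cC cD) σ) {T : ℕ} (hT : ∀ w, σ w < T) {g : ℕ → Om → ℝ}
    (hg : ∀ s, Fac (ndx cB cC cD (fun v => (B v, D v)) s) (g s)) (hg0 : ∀ s w, 0 ≤ g s w) :
    P.E (fun w => ind (¬ up P bd ub (ndx cB cC cD B) (σ w) w) * g (σ w) w * ind (bd w)) ≤
      ub * P.E (fun w => g (σ w) w) := by
  have h1 := tri_und (ub := ub) (bd := bd) V.swap hub (fun v w h1 h2 => hbd v w h2 h1) (σ := σ) (fun s v w h => by
    have h' := nde_eq.1 h
    exact hσ s v w (nde_eq.2 ⟨h'.2.1, h'.1, h'.2.2⟩)) hT (g := g) (fun s => (ndx_swap _ s).trans (hg s)) hg0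
  refine le_trans (le_of_eq (P.E_congr fun w _ => ?_)) h1
  rw [propext (up_congr (P := P) (bd := bd) (ub := ub) (ndx_swap (cB := cB) (cC := cC) (cD := cD) B)
    (ndx_swap (cB := cC) (cC := cB) (cD := cD) B) (σ w) w)]

/-- **unsigned part, exact `B`, the sampled rows of `ψ`** -/
theorem two_un (V : V3 P cB cC cD B C D) {ψ : γ → β → δ → ℝ} (h0 : 0 ≤ h) (hub : 0 ≤ ub)
    (hm : ∀ s w, P.p w ≠ 0 → P.m (ndx cB cC cD B s) w ≤ h * P.m (ndx cB cC cD B (s + 1)) w)
    {σ : Om → ℕ} (hσ : Stp (nde cB cC cD) σ) {T : ℕ} (hT : ∀ w, σ w < T) :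
    P.Pr (fun w => bd w ∧ ∃ s < σ w, Un1 P bd ub (ndx cB cC cD B) (ndx cB cC cD (fun v => (B v, C v)))
        (dvs (mr P cD B D ψ x) lam) (fun v => ψ (C v) (B v) (D v)) lam s w) ≤
      h * ub * P.Pr (fun w => dvs (mr P cD B D ψ x) lam (σ w) w) + P.Pr (fst1 P cD B C D lam ψ x T) := by
  refine two_un_le (ndx_filt V B) (ndx_nde B) h0 hub hm (dvs_cum _ _) (dvs_iff V.vB) hσ hT (fun t ht w hw hK hl => ?_)
  rw [ce_NE V (fun b c d => ψ c b d) hw] at hl
  exact ⟨t, by omega, hl, fun i s' hs' h => hK ⟨s', hs', i, h⟩⟩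

/-- **released part, exact `B`, the sampled rows of `ψ`** -/
theorem two_rl (V : V3 P cB cC cD B C D) {ψ : γ → β → δ → ℝ} (h0 : 0 ≤ h) (hub : 0 ≤ ub) (hl : 0 ≤ lam)
    (hm : ∀ s w, P.p w ≠ 0 → P.m (ndx cB cC cD B s) w ≤ h * P.m (ndx cB cC cD B (s + 1)) w)
    (hbd : ∀ v w, B v = B w → C v = C w → (bd v ↔ bd w))
    {σ : Om → ℕ} (hσ : Stp (nde cB cC cD) σ) {T : ℕ} (hT : ∀ w, σ w < T) :
    P.E (fun w => ind (bd w ∧ ∃ s < σ w, Rl1 P bd ub (ndx cB cC cD B) (ndx cB cC cD (fun v => (B v, C v)))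
        (dvs (mr P cD B D ψ x) lam) (fun v => ψ (C v) (B v) (D v)) lam s w) * ψ (C w) (B w) (D w)) ≤
      lam * (h * ub) * P.Pr (fun w => up P bd ub (ndx cB cC cD B) (σ w) w) := by
  refine two_rl_le (ndx_filt V B) (ndx_filt V _) (ndx_nde B) (ndx_mono fun v w h => ?_) h0 hub hl hm (dvs_cum _ _)
    (dvs_iff V.vB) hσ hT (fun s v w h => ?_)
  · simp only [Prod.mk.injEq] at h
    exact h.1
  · have h' := ndx_eq.1 h
    simp only [Prod.mk.injEq] at h'
    exact hbd v w h'.2.1 h'.2.2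

end

end Pool.Agent.GMH.Tri
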