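import Mathlib

/-!
# GMH.TriN: numbers of the price of one bit of one vertex (helper80; H3.REL R.4, R.6)

Prices of the run: `N 0 = 1`, `N v = N1`, `N e = n N1`; `X0` surprise of a typical letter, `L` surprise of the event inside the
class, `Lo <= X0 + L`, `la = log (1/al) <= Lam`, `lm <= X0 + 3 + Lam` logarithms of numbers of letters, `k = ceil (n^4)` rows,
`R0 = 3 n`, `ep = 1/(2n)`.  All rates are at most a constant times `q = (L + Lam + 1)/n`.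
-/

set_option autoImplicit false

namespace Pool.Agent.GMH

noncomputable section

namespace TriN

variable {n N1 X0 Lam L Lo la lm : ℝ}

/-- the parameters -/
structure Ok (n N1 X0 Lam L Lo la lm : ℝ) : Prop where
  n2 : 2 ≤ n
  L1 : 1 ≤ Lam
  Ln : Lam ≤ n
  l0 : 0 ≤ L
  ln : L ≤ n
  x1 : 1 ≤ X0
  o0 : 0 ≤ Lo
  oL : Lo ≤ X0 + L
  a0 : 0 ≤ la
  aL : la ≤ Lam
  m0 : 0 ≤ lm
  mL : lm ≤ X0 + 3 + Lam
  N : 30 * n ^ 5 * X0 ≤ N1

theorem Ok.n0 (o : Ok n N1 X0 Lam L Lo la lm) : 0 < n := by linarith [o.n2]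

theorem Ok.n5 (o : Ok n N1 X0 Lam L Lo la lm) : n ≤ n ^ 5 ∧ 1 ≤ n ^ 5 ∧ n ^ 4 ≤ n ^ 5 := by
  have h := o.n2
  have h1 : 1 ≤ n := by linarith
  refine ⟨?_, one_le_pow₀ h1, pow_le_pow_right₀ h1 (by norm_num)⟩
  calc n = n ^ 1 := (pow_one n).symm
    _ ≤ n ^ 5 := pow_le_pow_right₀ h1 (by norm_num)

theorem Ok.N30 (o : Ok n N1 X0 Lam L Lo la lm) : 30 * n * X0 ≤ N1 := by
  have h := o.n5.1
  have h1 := o.x1
  have h2 : 30 * n * X0 ≤ 30 * n ^ 5 * X0 := by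
    refine mul_le_mul_of_nonneg_right ?_ (by linarith)
    linarith
  exact h2.trans o.N

theorem Ok.N0 (o : Ok n N1 X0 Lam L Lo la lm) : 0 < N1 := by
  have h1 := o.N30
  have h2 := o.n0
  have h3 : 0 < X0 := by linarith [o.x1]
  have : 0 < 30 * n * X0 := by positivity
  linarith

/-- the small terms -/
theorem Ok.small (o : Ok n N1 X0 Lam L Lo la lm) : (2 * (Lo + 1) + 2 * lm) / N1 ≤ (L + Lam + 1) / n := by
  have h0 := o.n0
  have h1 := o.N0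
  rw [div_le_div_iff₀ h1 h0]
  have h2 : 2 * (Lo + 1) + 2 * lm ≤ 10 * X0 * (L + Lam + 1) := by
    have h3 := o.oL
    have h4 := o.mL
    have h5 := o.x1
    have h6 := o.L1
    have h7 := o.l0
    nlinarith
  have h8 : (2 * (Lo + 1) + 2 * lm) * n ≤ 10 * X0 * (L + Lam + 1) * n := mul_le_mul_of_nonneg_right h2 h0.le
  have h9 : (L + Lam + 1) * (30 * n * X0) ≤ (L + Lam + 1) * N1 :=
    mul_le_mul_of_nonneg_left o.N30 (by linarith [o.l0, o.L1])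
  have h10 : 0 ≤ X0 * (L + Lam + 1) * n := by
    have := o.x1
    have := o.l0
    have := o.L1
    positivity
  nlinarith

theorem Ok.small1 (o : Ok n N1 X0 Lam L Lo la lm) : 2 * (Lo + 1) / N1 ≤ (L + Lam + 1) / n := by
  refine le_trans (div_le_div_of_nonneg_right ?_ o.N0.le) o.small
  linarith [o.m0]

theorem Ok.k1 (o : Ok n N1 X0 Lam L Lo la lm) :
    2 * N1 * (L + 1) / (n * N1) + (2 * 1 * (Lo + 1) + 2 * (1 * lm)) / N1 ≤ 3 * ((L + Lam + 1) / n) := by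
  have h0 := o.n0
  have h1 := o.N0
  have h2 := o.small
  have e1 : 2 * N1 * (L + 1) / (n * N1) = 2 * ((L + 1) / n) := by field_simp
  have e2 : (L + 1) / n ≤ (L + Lam + 1) / n := div_le_div_of_nonneg_right (by linarith [o.L1]) h0.le
  have e3 : (2 * 1 * (Lo + 1) + 2 * (1 * lm)) / N1 = (2 * (Lo + 1) + 2 * lm) / N1 := by ring
  rw [e1, e3]
  linarith

theorem Ok.k3 (o : Ok n N1 X0 Lam L Lo la lm) :
    (2 * 1 * (Lo + 1) + 2 * ((N1 + N1) * la)) / (n * N1) ≤ 5 * ((L + Lam + 1) / n) := by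
  have h0 := o.n0
  have h1 := o.N0
  have h2 := o.small1
  have e1 : (2 * 1 * (Lo + 1) + 2 * ((N1 + N1) * la)) / (n * N1) = 2 * (Lo + 1) / N1 / n + 4 * (la / n) := by
    field_simp
    ring
  have e2 : 2 * (Lo + 1) / N1 / n ≤ 2 * (Lo + 1) / N1 :=
    div_le_self (div_nonneg (by linarith [o.o0]) h1.le) (by linarith [o.n2])
  have e3 : la / n ≤ (L + Lam + 1) / n := div_le_div_of_nonneg_right (by linarith [o.aL, o.l0]) h0.le
  rw [e1]
  linarith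

theorem Ok.kc (o : Ok n N1 X0 Lam L Lo la lm) :
    2 * 1 * (Lo + 1) / N1 + (2 * 1 * (Lo + 1) + 2 * (1 * lm)) / N1 ≤ 2 * ((L + Lam + 1) / n) := by
  have h2 := o.small
  have h3 := o.small1
  have e3 : (2 * 1 * (Lo + 1) + 2 * (1 * lm)) / N1 = (2 * (Lo + 1) + 2 * lm) / N1 := by ring
  have e4 : 2 * 1 * (Lo + 1) / N1 = 2 * (Lo + 1) / N1 := by ring
  rw [e3, e4]
  linarith

theorem Ok.kd (o : Ok n N1 X0 Lam L Lo la lm) : 2 * 1 * (Lo + 1) / N1 ≤ (L + Lam + 1) / n := by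
  have e4 : 2 * 1 * (Lo + 1) / N1 = 2 * (Lo + 1) / N1 := by ring
  rw [e4]
  exact o.small1

theorem Ok.q2 (o : Ok n N1 X0 Lam L Lo la lm) : 2 / n ≤ (L + Lam + 1) / n :=
  div_le_div_of_nonneg_right (by linarith [o.l0, o.L1]) o.n0.le

/-- number of rows -/
def kk (n : ℝ) : ℕ := ⌈n ^ 4⌉₊

theorem kk1 (n : ℝ) : n ^ 4 ≤ kk n := Nat.le_ceil _

theorem kk2 {n : ℝ} (h : 2 ≤ n) : (kk n : ℝ) ≤ 2 * n ^ 4 := by
  have h1 : 0 ≤ n ^ 4 := by positivity
  have h2 := Nat.ceil_lt_add_one h1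
  have h3 : 1 ≤ n ^ 4 := one_le_pow₀ (by linarith)
  have h4 : (kk n : ℝ) < n ^ 4 + 1 := h2
  linarith

theorem kk0 {n : ℝ} (h : 2 ≤ n) : 0 < kk n := by
  have h3 : 1 ≤ n ^ 4 := one_le_pow₀ (by linarith)
  have h4 := kk1 n
  have : (0 : ℝ) < kk n := by linarith
  exact_mod_cast this

theorem mm {n N1 : ℝ} (h : 0 < N1) : n * N1 / (2 * N1) = n / 2 := by field_simp

theorem Ok.R (o : Ok n N1 X0 Lam L Lo la lm) : 0 ≤ 3 * n + L / (n / 2) ∧ 3 * n + L / (n / 2) ≤ 4 * n := by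
  have h0 := o.n0
  have h2 := o.n2
  have e1 : L / (n / 2) ≤ 2 := by
    rw [div_le_iff₀ (by linarith)]
    linarith [o.ln]
  have e2 : 0 ≤ L / (n / 2) := div_nonneg o.l0 (by linarith)
  constructor <;> linarith

theorem Ok.hkR (o : Ok n N1 X0 Lam L Lo la lm) :
    n * N1 / (2 * N1) * (3 * n + L / (n * N1 / (2 * N1))) ≤ 2 * kk n := by
  rw [mm o.N0]
  obtain ⟨r1, r2⟩ := o.R
  have h0 := o.n0
  have h2 := o.n2
  have k1 := kk1 n
  have e1 : n / 2 * (3 * n + L / (n / 2)) ≤ n / 2 * (4 * n) := mul_le_mul_of_nonneg_left r2 (by linarith)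
  have e2 : n / 2 * (4 * n) = 2 * n ^ 2 := by ring
  have e3 : n ^ 2 ≤ n ^ 4 := pow_le_pow_right₀ (by linarith) (by norm_num)
  linarith

theorem Ok.k2 (o : Ok n N1 X0 Lam L Lo la lm) :
    L / (n * N1 / (2 * N1)) + 2 * ((2 * 1 * (Lo + L + 1) + 2 * 1 * (kk n * lm)) / N1 + la + 3) / (n * N1 / (2 * N1)) +
      n * N1 / (2 * N1) * (3 * n + L / (n * N1 / (2 * N1))) ^ 2 / (2 * kk n) + 2 * (1 / (2 * n)) ≤
    15 * ((L + Lam + 1) / n) := by
  rw [mm o.N0]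
  have h0 := o.n0
  have h2 := o.n2
  have hN := o.N0
  obtain ⟨r1, r2⟩ := o.R
  have k1 := kk1 n
  have k2 := kk2 o.n2
  have hk : (0 : ℝ) < kk n := by exact_mod_cast kk0 o.n2
  have hq := o.q2
  have hx := o.x1
  obtain ⟨p1, p2, p3⟩ := o.n5
  -- first term
  have t1 : L / (n / 2) ≤ 2 * ((L + Lam + 1) / n) := by
    have e1 : L / (n / 2) = 2 * (L / n) := by field_simp
    have e2 : L / n ≤ (L + Lam + 1) / n := div_le_div_of_nonneg_right (by linarith [o.L1]) h0.le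
    rw [e1]
    linarith
  -- second term
  have s1 : (2 * 1 * (Lo + L + 1) + 2 * 1 * (kk n * lm)) / N1 ≤ 1 := by
    rw [div_le_one hN]
    refine le_trans ?_ o.N
    have a1 : (kk n : ℝ) * lm ≤ 2 * n ^ 4 * (X0 + 3 + Lam) :=
      mul_le_mul k2 o.mL o.m0 (by positivity)
    have a2 : Lo + L + 1 ≤ X0 + 2 * n + 1 := by linarith [o.oL, o.ln]
    have a3 : n ^ 4 * (X0 + 3 + Lam) ≤ n ^ 4 * (X0 + 3 + n) :=
      mul_le_mul_of_nonneg_left (by linarith [o.Ln]) (by positivity)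
    have a4 : n ^ 4 * (X0 + 3 + n) = n ^ 4 * X0 + 3 * n ^ 4 + n ^ 5 := by ring
    have b0 : 0 < n ^ 5 := by positivity
    have b1 : n ^ 4 * X0 ≤ n ^ 5 * X0 / 2 := by
      have : n ^ 4 * 2 ≤ n ^ 5 := by
        have e : n ^ 5 = n ^ 4 * n := by ring
        rw [e]
        exact mul_le_mul_of_nonneg_left h2 (by positivity)
      nlinarith
    have b2 : n ^ 5 ≤ n ^ 5 * X0 := le_mul_of_one_le_right b0.le hx
    have b3 : X0 ≤ n ^ 5 * X0 := le_mul_of_one_le_left (by linarith) p2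
    have b4 : n ^ 4 * 2 ≤ n ^ 5 := by
      have e : n ^ 5 = n ^ 4 * n := by ring
      rw [e]
      exact mul_le_mul_of_nonneg_left h2 (by positivity)
    have b5 : n ≤ n ^ 5 * X0 := p1.trans b2
    have b6 : (1 : ℝ) ≤ n ^ 5 * X0 := p2.trans b2
    have e : 30 * n ^ 5 * X0 = 30 * (n ^ 5 * X0) := by ring
    rw [e]
    linarith
  have t2 : 2 * ((2 * 1 * (Lo + L + 1) + 2 * 1 * (kk n * lm)) / N1 + la + 3) / (n / 2) ≤ 10 * ((L + Lam + 1) / n) := by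
    have e1 : 2 * ((2 * 1 * (Lo + L + 1) + 2 * 1 * (kk n * lm)) / N1 + la + 3) / (n / 2) =
        4 * ((2 * 1 * (Lo + L + 1) + 2 * 1 * (kk n * lm)) / N1 + la + 3) / n := by field_simp; ring
    rw [e1, ← mul_div_assoc]
    refine div_le_div_of_nonneg_right ?_ h0.le
    linarith [o.aL, o.L1, o.l0]
  -- third term
  have t3 : n / 2 * (3 * n + L / (n / 2)) ^ 2 / (2 * kk n) ≤ 2 * ((L + Lam + 1) / n) := by
    have e1 : (3 * n + L / (n / 2)) ^ 2 ≤ (4 * n) ^ 2 := pow_le_pow_left₀ r1 r2 2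
    have e2 : n / 2 * (3 * n + L / (n / 2)) ^ 2 ≤ n / 2 * (4 * n) ^ 2 := mul_le_mul_of_nonneg_left e1 (by linarith)
    have e3 : n / 2 * (3 * n + L / (n / 2)) ^ 2 / (2 * kk n) ≤ 4 / n := by
      rw [div_le_div_iff₀ (by positivity) h0]
      have e4 : n / 2 * (3 * n + L / (n / 2)) ^ 2 * n ≤ n / 2 * (4 * n) ^ 2 * n := mul_le_mul_of_nonneg_right e2 h0.le
      have e5 : n / 2 * (4 * n) ^ 2 * n = 8 * n ^ 4 := by ring
      linarith
    have e6 : 4 / n = 2 * (2 / n) := by ring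
    linarith
  have t4 : 2 * (1 / (2 * n)) ≤ (L + Lam + 1) / n := by
    have e1 : 2 * (1 / (2 * n)) = 1 / n := by field_simp
    rw [e1]
    exact div_le_div_of_nonneg_right (by linarith [o.l0, o.L1]) h0.le
  linarith

/-- square roots -/
theorem sq6 {q : ℝ} {a c k : ℝ} (hq : 0 ≤ q) (hc : 0 ≤ c) (h1 : 2 * a ≤ c ^ 2) (hk : k ≤ a * q) :
    Real.sqrt (2 * k) ≤ c * Real.sqrt q := by
  have h2 : 2 * k ≤ c ^ 2 * q := by nlinarith
  calc Real.sqrt (2 * k) ≤ Real.sqrt (c ^ 2 * q) := Real.sqrt_le_sqrt h2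
    _ = c * Real.sqrt q := by rw [Real.sqrt_mul (by positivity), Real.sqrt_sq hc]

end TriN

end

end Pool.Agent.GMH
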