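import Pool.Agent.GMH.TriB
import Pool.Agent.GMH.TriN

/-!
# GMH.TriC: the price of one bit of one vertex in one class of the run (helper80; H3.REL R.4, R.5)

Law of the time `t + 1`, classes `Cb` (public letter, node, point and own letter of `b`), event `E` of (hidden point, point of
`b`, node), `e = P(E | class)`.  Prices `prC (Lam + 1) n c K (exp (-n)) e`:
* `H1_cls` : deviation of a test function of the tops and the final thin labels from its conditional mean (`38`, `2`);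
* `H2_cls` : law of the final thin labels inside `E` (`7`, `2`); `H3_cls` : of the thin labels of the state `q` (`7`, `2`).
-/

set_option autoImplicit false
set_option linter.unusedSectionVars false

namespace Pool.Agent.GMH.TP

open Finset Pool.Agent.PWZ Pool.Agent.M3 Pool.Agent.GM Pool.Agent.GM.Harm Pool.Agent.GMH Pool.Agent.GMH.NZ
open Pool.Agent.GMH.V3

noncomputable section

namespace TriB

/-- the parameters -/
structure Par (n N1 X0 Lam : ℝ) : Prop where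
  n2 : 2 ≤ n
  L1 : 1 ≤ Lam
  Ln : Lam ≤ n
  x1 : 1 ≤ X0
  N : 30 * n ^ 5 * X0 ≤ N1

theorem Par.N1' {n N1 X0 Lam : ℝ} (p : Par n N1 X0 Lam) : 1 ≤ N1 := by
  have h1 : 1 ≤ n ^ 5 := one_le_pow₀ (by linarith [p.n2])
  have h2 := p.x1
  have h3 := p.N
  nlinarith

/-- a price times a probability -/
theorem le_mul_prC {A n Cc K0 eta e x p : ℝ} (h0 : x ≤ p * K0)
    (h1 : eta ≤ e → x ≤ p * (Cc * Real.sqrt ((Real.log (1 / e) + A) / n))) : x ≤ p * TriE.prC A n Cc K0 eta e := by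
  unfold TriE.prC
  split_ifs with h
  · rcases min_choice K0 (Cc * Real.sqrt ((Real.log (1 / e) + A) / n)) with h2 | h2
    · rw [h2]; exact h0
    · rw [h2]; exact h1 h
  · exact h0

section gen

variable {Om : Type*} [Fintype Om] (P : FP Om)

/-- trivial bound of a deviation -/
theorem triv1 {κ : Type*} {V : Om → Prop} {a g : Om → ℝ} {W : Om → κ} (h0 : ∀ w, 0 ≤ a w) (h1 : ∀ w, a w ≤ 1)
    (hb : ∀ w, |g w| ≤ 1) : |P.E (fun w => ind (V w) * (a w * (g w - P.ce W g w)))| ≤ P.Pr V * 2 := by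
  have k : ∀ w, P.p w ≠ 0 → |ind (V w) * (a w * (g w - P.ce W g w))| ≤ ind (V w) * 2 := by
    intro w hw
    rw [abs_mul, abs_of_nonneg (ind_nonneg _), abs_mul, abs_of_nonneg (h0 w)]
    refine mul_le_mul_of_nonneg_left ?_ (ind_nonneg _)
    have h2 : |g w - P.ce W g w| ≤ 2 := by
      have h3 := abs_sub (g w) (P.ce W g w)
      have h4 := hb w
      have h5 := TriA.ce_abs_le (P := P) (W := W) hb hw
      linarith
    have h6 := mul_le_mul (h1 w) h2 (abs_nonneg _) zero_le_one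
    linarith
  have e : P.Pr V * 2 = P.E (fun w => ind (V w) * 2) := by
    unfold FP.Pr
    rw [mul_comm, ← P.E_smul]
    exact P.E_congr fun w _ => mul_comm _ _
  rw [e, abs_le, ← P.E_neg]
  exact ⟨P.E_mono fun w hw => (abs_le.1 (k w hw)).1, P.E_mono fun w hw => (abs_le.1 (k w hw)).2⟩

/-- trivial bound of a difference of means -/
theorem triv2 (Q R : FP Om) {f : Om → ℝ} (hf : ∀ w, |f w| ≤ 1) : |Q.E f - R.E f| ≤ 2 := by
  have h1 : ∀ S : FP Om, |S.E f| ≤ 1 := by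
    intro S
    have k1 : S.E f ≤ S.E (fun _ => 1) := S.E_mono fun w _ => (abs_le.1 (hf w)).2
    have k2 : S.E (fun _ => -1) ≤ S.E f := S.E_mono fun w _ => (abs_le.1 (hf w)).1
    rw [S.E_const] at k1 k2
    exact abs_le.2 ⟨k2, k1⟩
  have h2 := abs_sub (Q.E f) (R.E f)
  linarith [h1 Q, h1 R]

end gen

theorem pr3_0 (n N1 : ℝ) : pr3 (Fin 3) n N1 ∅ = 1 := by
  unfold pr3
  rw [if_pos Finset.card_empty]

theorem pr3_1 (n N1 : ℝ) (b : Fin 3) : pr3 (Fin 3) n N1 {b} = N1 := by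
  unfold pr3
  rw [if_neg (by rw [Finset.card_singleton]; norm_num), if_pos (Finset.card_singleton b)]

theorem pr3_2 (n N1 : ℝ) (b : Fin 3) : pr3 (Fin 3) n N1 (univ.erase b) = n * N1 := pr3_top card3 n N1 b

/-- logarithms of numbers of letters -/
theorem lgs {al X0 Lam M : ℝ} (ha : Real.exp (-Lam) ≤ al) (ha1 : al ≤ 1) (hM1 : 1 ≤ M)
    (hM : M ≤ Real.exp (X0 + 2)) :
    (0 ≤ Real.log (1 / al) ∧ Real.log (1 / al) ≤ Lam) ∧
      (0 ≤ Real.log (M * (1 / al)) ∧ Real.log (M * (1 / al)) ≤ X0 + 3 + Lam) ∧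
      (0 ≤ Real.log (M * (1 / al + 1)) ∧ Real.log (M * (1 / al + 1)) ≤ X0 + 3 + Lam) := by
  have ha0 : 0 < al := (Real.exp_pos _).trans_le ha
  have h1 : 1 ≤ 1 / al := by rw [le_div_iff₀ ha0, one_mul]; exact ha1
  have h2 : 1 / al ≤ Real.exp Lam := by
    rw [div_le_iff₀ ha0]
    have h3 := mul_le_mul_of_nonneg_left ha (Real.exp_pos Lam).le
    rwa [← Real.exp_add, add_neg_cancel, Real.exp_zero] at h3
  have h4 : M * (1 / al) ≤ Real.exp (X0 + 3 + Lam) := by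
    have h5 := mul_le_mul hM h2 (by linarith) (Real.exp_pos _).le
    rw [← Real.exp_add] at h5
    exact h5.trans (Real.exp_le_exp.2 (by linarith))
  have h6 : M * (1 / al + 1) ≤ Real.exp (X0 + 3 + Lam) := by
    have h7 : 1 / al + 1 ≤ Real.exp 1 * Real.exp Lam := by
      have h8 := Real.add_one_le_exp (1 : ℝ)
      have h9 : (2 : ℝ) * Real.exp Lam ≤ Real.exp 1 * Real.exp Lam :=
        mul_le_mul_of_nonneg_right (by linarith) (Real.exp_pos _).le
      linarith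
    have h5 := mul_le_mul hM h7 (by linarith) (Real.exp_pos _).le
    rw [← Real.exp_add, ← Real.exp_add] at h5
    exact h5.trans (Real.exp_le_exp.2 (by linarith))
  have h10 : 1 ≤ M * (1 / al) := one_le_mul_of_one_le_of_one_le hM1 h1
  have h11 : 1 ≤ M * (1 / al + 1) := one_le_mul_of_one_le_of_one_le hM1 (by linarith)
  refine ⟨⟨Real.log_nonneg h1, ?_⟩, ⟨Real.log_nonneg h10, ?_⟩, Real.log_nonneg h11, ?_⟩
  · rw [Real.log_le_iff_le_exp (by linarith)]; exact h2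
  · rw [Real.log_le_iff_le_exp (by linarith)]; exact h4
  · rw [Real.log_le_iff_le_exp (by linarith)]; exact h6

/-- numbers of letters -/
theorem eM {X0 : ℝ} (hx : 1 ≤ X0) : 1 ≤ Real.exp X0 + 1 ∧ Real.exp X0 + 1 ≤ Real.exp (X0 + 2) ∧
    1 ≤ 3 * Real.exp X0 + 1 ∧ 3 * Real.exp X0 + 1 ≤ Real.exp (X0 + 2) := by
  have h0 := Real.exp_pos X0
  have h1 : 1 ≤ Real.exp X0 := Real.one_le_exp (by linarith)
  have h2 : 4 ≤ Real.exp 2 := by
    have h3 := Real.add_one_le_exp (1 : ℝ)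
    have h4 : Real.exp 2 = Real.exp 1 * Real.exp 1 := by rw [← Real.exp_add]; norm_num
    rw [h4]
    nlinarith
  have h5 : Real.exp (X0 + 2) = Real.exp X0 * Real.exp 2 := Real.exp_add _ _
  have h6 : 4 * Real.exp X0 ≤ Real.exp (X0 + 2) := by rw [h5]; nlinarith
  refine ⟨by linarith, by linarith, by linarith, by linarith⟩

section run

variable {X β γ φ : Type} [Fintype X] [Fintype β] [Fintype φ] [Nonempty X] [Nonempty β]
variable {D : HD (Fin 3) X β γ φ} {al : ℝ} {h : D.Thick al} {v : ℕ → Finset (Fin 3) → X → (Fin 3 → β) → Pt (Fin 3) X β φ}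
variable {t : ℕ} {b c d : Fin 3} {w0 : Pt (Fin 3) X β φ} {n N1 X0 Lam : ℝ}

/-- the parameters of one class -/
theorem Par.ok (p : Par n N1 X0 Lam) {L Lo la lm : ℝ} (l0 : 0 ≤ L) (ln : L ≤ n) (o0 : 0 ≤ Lo) (oL : Lo ≤ X0 + L)
    (a0 : 0 ≤ la) (aL : la ≤ Lam) (m0 : 0 ≤ lm) (mL : lm ≤ X0 + 3 + Lam) : TriN.Ok n N1 X0 Lam L Lo la lm :=
  ⟨p.n2, p.L1, p.Ln, l0, ln, p.x1, o0, oL, a0, aL, m0, mL, p.N⟩

theorem sw0_le (p : Par n N1 X0 Lam) (ha : Real.exp (-Lam) ≤ al) (ha1 : al ≤ 1) {L Lo : ℝ} (l0 : 0 ≤ L) (ln : L ≤ n)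
    (o0 : 0 ≤ Lo) (oL : Lo ≤ X0 + L) :
    sw0 (pr3 (Fin 3) n N1) al (3 * Real.exp X0) (3 * n) (1 / (2 * n)) (TriN.kk n) b c d Lo L ≤
      12 * Real.sqrt ((L + Lam + 1) / n) := by
  obtain ⟨-, -, m1, m2⟩ := eM p.x1
  obtain ⟨⟨a1, a2⟩, ⟨b1, b2⟩, b3, b4⟩ := lgs (X0 := X0) ha ha1 m1 m2
  have o1 := p.ok l0 ln o0 oL a1 a2 b1 b2
  have o2 := p.ok l0 ln o0 oL a1 a2 b3 b4
  have hq : 0 ≤ (L + Lam + 1) / n := div_nonneg (by linarith [p.L1]) (by linarith [p.n2])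
  have k1 : Real.sqrt (2 * kap1 (pr3 (Fin 3) n N1) al (3 * Real.exp X0) b c Lo L) ≤ 5 / 2 * Real.sqrt ((L + Lam + 1) / n) := by
    refine TriN.sq6 (a := 3) hq (by norm_num) (by norm_num) ?_
    unfold kap1
    rw [pr3_0, pr3_1, pr3_1, pr3_2]
    exact o1.k1
  have k2 : Real.sqrt (2 * kap2 (pr3 (Fin 3) n N1) al (3 * Real.exp X0) (3 * n) (1 / (2 * n)) (TriN.kk n) b d Lo L) ≤
      11 / 2 * Real.sqrt ((L + Lam + 1) / n) := by
    refine TriN.sq6 (a := 15) hq (by norm_num) (by norm_num) ?_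
    unfold kap2
    rw [pr3_0, pr3_1, pr3_1, pr3_2]
    exact o2.k2
  have k3 : Real.sqrt (2 * kap3 (pr3 (Fin 3) n N1) al b c d Lo) ≤ 7 / 2 * Real.sqrt ((L + Lam + 1) / n) := by
    refine TriN.sq6 (a := 5) hq (by norm_num) (by norm_num) ?_
    unfold kap3
    rw [pr3_0, pr3_1, pr3_1, pr3_2]
    exact o1.k3
  unfold sw0
  linarith [Real.sqrt_nonneg ((L + Lam + 1) / n)]

theorem dl2_le (p : Par n N1 X0 Lam) (ha : Real.exp (-Lam) ≤ al) (ha1 : al ≤ 1) {M L Lo : ℝ} (m1 : 1 ≤ M)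
    (m2 : M ≤ Real.exp (X0 + 2)) (l0 : 0 ≤ L) (ln : L ≤ n) (o0 : 0 ≤ Lo) (oL : Lo ≤ X0 + L) :
    dl2 (pr3 (Fin 3) n N1) al M c d Lo ≤ 7 * Real.sqrt ((L + Lam + 1) / n) := by
  obtain ⟨⟨a1, a2⟩, ⟨b1, b2⟩, b3, b4⟩ := lgs (X0 := X0) ha ha1 m1 m2
  have o1 := p.ok l0 ln o0 oL a1 a2 b1 b2
  have hq : 0 ≤ (L + Lam + 1) / n := div_nonneg (by linarith [p.L1]) (by linarith [p.n2])
  have k1 : Real.sqrt (2 * kapc (pr3 (Fin 3) n N1) al M c Lo) ≤ 2 * Real.sqrt ((L + Lam + 1) / n) := by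
    refine TriN.sq6 (a := 2) hq (by norm_num) (by norm_num) ?_
    unfold kapc
    rw [pr3_0, pr3_1]
    exact o1.kc
  have k2 : Real.sqrt (2 * kapd (pr3 (Fin 3) n N1) d Lo) ≤ 3 / 2 * Real.sqrt ((L + Lam + 1) / n) := by
    refine TriN.sq6 (a := 1) hq (by norm_num) (by norm_num) ?_
    unfold kapd
    rw [pr3_0, pr3_1, one_mul]
    exact o1.kd
  unfold dl2
  linarith [Real.sqrt_nonneg ((L + Lam + 1) / n)]

/-! ### the class -/

variable {E Af : Pt (Fin 3) X β φ → Prop}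

/-- the event inside the class -/
theorem Ib_run {N : Finset (Fin 3) → ℝ} (B : Bk h N (SS1 (Fin 3)) (Um v (t + 2)) (t + 1) b c d)
    (hE : Fac (Ah D (t + 1) {b}) E) (hw : (D.P h (t + 1)).p w0 ≠ 0) (hEw : E w0) :
    Ib h (Um v (t + 2)) (t + 1) b w0
      (fun w => TriS.Cb D (Um v (t + 2)) (t + 1) b w = TriS.Cb D (Um v (t + 2)) (t + 1) b w0 ∧ E w) where
  fac := by
    intro a e hae
    have h2 : clsb (Um v (t + 2)) (pub0 D (t + 1) (Um v (t + 2)) w0) b w0 a =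
        clsb (Um v (t + 2)) (pub0 D (t + 1) (Um v (t + 2)) w0) b w0 e := clsb_Ah B.dep (pub0_C w0) B.oth a e hae
    rw [← TriS.Cb_clsb w0] at h2
    have h3 : E a = E e := hE a e hae
    show (_ ∧ _) = (_ ∧ _)
    rw [h3]
    exact congrArg (fun q => (q ∧ E e)) h2
  self := ⟨rfl, hEw⟩
  supp := hw
  sub := fun w hh => by
    rw [← TriS.Cb_clsb w0]
    exact hh.1

/-- probability of the event in the class -/
theorem ce_QC {N : Finset (Fin 3) → ℝ} (B : Bk h N (SS1 (Fin 3)) (Um v (t + 2)) (t + 1) b c d)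
    (hE : Fac (Ah D (t + 1) {b}) E) (hw : (D.P h (t + 1)).p w0 ≠ 0) (hEw : E w0) :
    (QC h (Um v (t + 2)) (t + 1) b w0).Pr
      (fun w => TriS.Cb D (Um v (t + 2)) (t + 1) b w = TriS.Cb D (Um v (t + 2)) (t + 1) b w0 ∧ E w) =
      (D.P h (t + 1)).ce (TriS.Cb D (Um v (t + 2)) (t + 1) b) (fun w => ind (E w)) w0 := by
  have I := Ib_run B hE hw hEw
  rw [(D.P h (t + 1)).ce_eq_cond _ _ hw]
  have e1 : (D.P h (t + 1)).cond (fun u => TriS.Cb D (Um v (t + 2)) (t + 1) b u =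
      TriS.Cb D (Um v (t + 2)) (t + 1) b w0) = QC h (Um v (t + 2)) (t + 1) b w0 := by
    unfold QC
    rw [TriS.Cb_clsb]
  rw [e1]
  refine FP.E_congr _ fun u hu => ?_
  have h1 := (cond_supp I.cls_ne hu).1
  rw [← TriS.Cb_clsb w0] at h1
  congr 1
  exact propext ⟨fun hh => hh.2, fun hh => ⟨h1, hh⟩⟩

/-- weight: alive and typical -/
def aa (h : D.Thick al) (v : ℕ → Finset (Fin 3) → X → (Fin 3 → β) → Pt (Fin 3) X β φ) (X0 : ℝ) (t : ℕ) (c d : Fin 3)
    (w0 : Pt (Fin 3) X β φ) (Af : Pt (Fin 3) X β φ → Prop) (w : Pt (Fin 3) X β φ) : ℝ :=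
  ind (Af w ∧ Tf h v X0 t w0 (w.2.1 c) (Um v (t + 2) {c} w.1 w.2.1) ∧
    Tf h v X0 t w0 (w.2.1 d) (Um v (t + 2) {d} w.1 w.2.1))

theorem aa_0 (w : Pt (Fin 3) X β φ) : 0 ≤ aa h v X0 t c d w0 Af w := ind_nonneg _

theorem aa_1 (w : Pt (Fin 3) X β φ) : aa h v X0 t c d w0 Af w ≤ 1 := ind_le_one _

theorem aa_typ {w : Pt (Fin 3) X β φ} (hw : aa h v X0 t c d w0 Af w ≠ 0) :
    Tf h v X0 t w0 (w.2.1 c) (Um v (t + 2) {c} w.1 w.2.1) ∧ Tf h v X0 t w0 (w.2.1 d) (Um v (t + 2) {d} w.1 w.2.1) := by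
  by_contra hh
  refine hw (ind_not fun h2 => hh h2.2)

theorem aa_fac (hAf : Fac (ZQ (φ := φ) D v (5 * t + 5)) Af) :
    Fac (ZQ (φ := φ) D v (5 * t + 5)) (aa h v X0 t c d w0 Af) := by
  intro a e hae
  obtain ⟨h1, h2, h3⟩ := ZQ_5.1 hae
  have hc := (LL_eq.1 (h1 {c} (by unfold pth; simp))).1
  have hd := (LL_eq.1 (h1 {d} (by unfold pth; simp))).1
  have hA : Af a = Af e := hAf a e hae
  show ind _ = ind _
  rw [hA, hc, hd, h2]

/-- alive points of the class have typical letters -/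
theorem Tf_of {w : Pt (Fin 3) X β φ} (i : Fin 3) (hw : (D.P h (t + 1)).p w ≠ 0)
    (hcl : clsb (Um v (t + 2)) (pub0 D (t + 1) (Um v (t + 2)) w0) b w0 w)
    (hA : ∀ i, ssQ h v (5 * t + 5) i w ≤ X0) : Tf h v X0 t w0 (w.2.1 i) (Um v (t + 2) {i} w.1 w.2.1) := by
  refine ⟨i, w, hw, (clsb_iff.1 hcl).2.2, rfl, ?_, hA i⟩
  rw [nc_5 (by unfold pth; simp)]

theorem aa_eq {w : Pt (Fin 3) X β φ} (hw : (D.P h (t + 1)).p w ≠ 0)
    (hcl : clsb (Um v (t + 2)) (pub0 D (t + 1) (Um v (t + 2)) w0) b w0 w)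
    (hA : Af w → ∀ i, ssQ h v (5 * t + 5) i w ≤ X0) : aa h v X0 t c d w0 Af w = ind (Af w) := by
  unfold aa
  congr 1
  refine propext ⟨fun hh => hh.1, fun hh => ⟨hh, Tf_of c hw hcl (hA hh), Tf_of d hw hcl (hA hh)⟩⟩

/-- own surprise is a function of the class -/
theorem ss_cls {w : Pt (Fin 3) X β φ} (hcl : clsb (Um v (t + 2)) (pub0 D (t + 1) (Um v (t + 2)) w0) b w0 w) :
    ssQ h v (5 * t + 5) b w = ssQ h v (5 * t + 5) b w0 := by
  obtain ⟨h1, h2, h3⟩ := clsb_iff.1 hcl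
  exact sp_fac _ _ _ _ _ (Prod.ext h1 (Prod.ext h2 h3))

/-- surprise of the event in the class -/
theorem lg_e {e : ℝ} (he : Real.exp (-n) ≤ e) (h1 : e ≤ 1) : 0 ≤ Real.log (1 / e) ∧ Real.log (1 / e) ≤ n := by
  have h0 : 0 < e := (Real.exp_pos _).trans_le he
  rw [one_div, Real.log_inv]
  have h2 := Real.log_nonpos h0.le h1
  have h3 : -n ≤ Real.log e := by
    rw [Real.le_log_iff_exp_le h0]
    exact he
  constructor <;> linarith

theorem ce_one (w : Pt (Fin 3) X β φ) (hw : (D.P h (t + 1)).p w ≠ 0) :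
    (D.P h (t + 1)).ce (TriS.Cb D (Um v (t + 2)) (t + 1) b) (fun w => ind (E w)) w ≤ 1 :=
  (D.P h (t + 1)).ce_le_const (fun _ _ => ind_le_one _) hw

/-- the class without alive points -/
theorem dead_cls (hA : ∀ w, (D.P h (t + 1)).p w ≠ 0 → Af w → ∀ i, ssQ h v (5 * t + 5) i w ≤ X0)
    (hd : ¬ ssQ h v (5 * t + 5) b w0 ≤ X0) {w : Pt (Fin 3) X β φ} (hw : (D.P h (t + 1)).p w ≠ 0)
    (hcl : clsb (Um v (t + 2)) (pub0 D (t + 1) (Um v (t + 2)) w0) b w0 w) : ¬ Af w := fun hh =>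
  hd (by rw [← ss_cls hcl]; exact hA w hw hh b)

/-- **THE DEVIATION AT THE FINAL STATE**, one class -/
theorem H1_cls (p : Par n N1 X0 Lam) (ha : Real.exp (-Lam) ≤ al) (ha1 : al ≤ 1)
    (B : Bk h (pr3 (Fin 3) n N1) (SS1 (Fin 3)) (Um v (t + 2)) (t + 1) b c d)
    (hAf : Fac (ZQ (φ := φ) D v (5 * t + 5)) Af)
    (hA : ∀ w, (D.P h (t + 1)).p w ≠ 0 → Af w → ∀ i, ssQ h v (5 * t + 5) i w ≤ X0)
    (hE : Fac (Ah D (t + 1) {b}) E) (hw : (D.P h (t + 1)).p w0 ≠ 0) (hEw : E w0)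
    {g : Pt (Fin 3) X β φ → ℝ} (hg : Fac (fun w => (w.2.2, ZQ D v (5 * t + 5) w)) g) (hb : ∀ w, |g w| ≤ 1) :
    |(D.P h (t + 1)).E (fun w => ind (TriS.Cb D (Um v (t + 2)) (t + 1) b w = TriS.Cb D (Um v (t + 2)) (t + 1) b w0 ∧
        E w) * (ind (Af w) * (g w - (D.P h (t + 1)).ce (ZQ D v (5 * t + 5)) g w)))| ≤
      (D.P h (t + 1)).Pr (fun w => TriS.Cb D (Um v (t + 2)) (t + 1) b w = TriS.Cb D (Um v (t + 2)) (t + 1) b w0 ∧ E w) *
        TriE.prC (Lam + 1) n 38 2 (Real.exp (-n))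
          ((D.P h (t + 1)).ce (TriS.Cb D (Um v (t + 2)) (t + 1) b) (fun w => ind (E w)) w0) := by
  have I := Ib_run B hE hw hEw
  refine le_mul_prC (triv1 _ (fun _ => ind_nonneg _) (fun _ => ind_le_one _) hb) fun he => ?_
  have e1 := ce_QC B hE hw hEw
  obtain ⟨l0, ln⟩ := lg_e he (ce_one w0 hw)
  have hcls : ∀ w, (TriS.Cb D (Um v (t + 2)) (t + 1) b w = TriS.Cb D (Um v (t + 2)) (t + 1) b w0 ∧ E w) →
      clsb (Um v (t + 2)) (pub0 D (t + 1) (Um v (t + 2)) w0) b w0 w := I.sub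
  by_cases hd : ssQ h v (5 * t + 5) b w0 ≤ X0
  · have s0 : 0 ≤ ssQ h v (5 * t + 5) b w0 := by
      rw [ssQ_at (5 * t + 5) b w0 (t + 1)]
      exact sp_nonneg _ _ _ hw
    have k1 : Lb h (Um v (t + 2)) (t + 1) b w0
        (fun w => TriS.Cb D (Um v (t + 2)) (t + 1) b w = TriS.Cb D (Um v (t + 2)) (t + 1) b w0 ∧ E w) ≤
        ssQ h v (5 * t + 5) b w0 + Real.log (1 / (D.P h (t + 1)).ce (TriS.Cb D (Um v (t + 2)) (t + 1) b)
          (fun w => ind (E w)) w0) := by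
      rw [Lb_eq I, e1]
    have k2 : Real.log (1 / (QC h (Um v (t + 2)) (t + 1) b w0).Pr
        (fun w => TriS.Cb D (Um v (t + 2)) (t + 1) b w = TriS.Cb D (Um v (t + 2)) (t + 1) b w0 ∧ E w)) ≤
        Real.log (1 / (D.P h (t + 1)).ce (TriS.Cb D (Um v (t + 2)) (t + 1) b) (fun w => ind (E w)) w0) := by
      rw [e1]
    obtain ⟨-, -, m1, m2⟩ := eM p.x1
    obtain ⟨⟨a1, a2⟩, ⟨b1, b2⟩, b3, b4⟩ := lgs (X0 := X0) ha ha1 m1 m2
    have o1 := p.ok l0 ln (add_nonneg s0 l0) (add_le_add_left hd _) a1 a2 b1 b2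
    have hn := p.n2
    have k3 := dev_fin B I (Wb_run (w0 := w0) B) (Tf_card (h := h) (v := v) (t := t) X0 w0) k1 k2
      (R0 := 3 * n) (ep := 1 / (2 * n)) (TriN.kk0 hn) (by positivity) (by
        rw [div_le_div_iff₀ (by linarith) (by norm_num)]; linarith) (by
        rw [one_div_one_div]
        have := Real.log_le_sub_one_of_pos (show 0 < 2 * n by linarith)
        linarith) (by linarith [p.Ln]) (by
        rw [pr3_1, pr3_2]
        exact o1.hkR) (aa_fac (c := c) (d := d) (w0 := w0) (X0 := X0) (h := h) hAf) aa_0 aa_1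
      (fun w _ hh => (aa_typ hh).1) (fun w _ hh => (aa_typ hh).2) (g := g) hg hb
    have e2 : (D.P h (t + 1)).E (fun w => ind (TriS.Cb D (Um v (t + 2)) (t + 1) b w =
        TriS.Cb D (Um v (t + 2)) (t + 1) b w0 ∧ E w) * (ind (Af w) * (g w - (D.P h (t + 1)).ce (ZQ D v (5 * t + 5)) g w))) =
        (D.P h (t + 1)).E (fun w => ind (TriS.Cb D (Um v (t + 2)) (t + 1) b w =
        TriS.Cb D (Um v (t + 2)) (t + 1) b w0 ∧ E w) * (aa h v X0 t c d w0 Af w *
          (g w - (D.P h (t + 1)).ce (ZQ D v (5 * t + 5)) g w))) := by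
      refine (D.P h (t + 1)).E_congr fun w hw' => ?_
      by_cases hV : TriS.Cb D (Um v (t + 2)) (t + 1) b w = TriS.Cb D (Um v (t + 2)) (t + 1) b w0 ∧ E w
      · rw [aa_eq hw' (hcls w hV) (hA w hw')]
      · rw [ind_not hV, zero_mul, zero_mul]
    rw [e2]
    refine k3.trans (mul_le_mul_of_nonneg_left ?_ (FP.Pr_nonneg _ _))
    have s1 := sw0_le (b := b) (c := c) (d := d) p ha ha1 l0 ln (add_nonneg s0 l0) (add_le_add_left hd _)
    have s2 := dl2_le (c := c) (d := d) p ha ha1 m1 m2 l0 ln (add_nonneg s0 l0) (add_le_add_left hd _)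
    rw [← add_assoc]
    linarith
  · have e2 : (D.P h (t + 1)).E (fun w => ind (TriS.Cb D (Um v (t + 2)) (t + 1) b w =
        TriS.Cb D (Um v (t + 2)) (t + 1) b w0 ∧ E w) * (ind (Af w) * (g w - (D.P h (t + 1)).ce (ZQ D v (5 * t + 5)) g w))) =
        (D.P h (t + 1)).E (fun _ => 0) := by
      refine (D.P h (t + 1)).E_congr fun w hw' => ?_
      by_cases hV : TriS.Cb D (Um v (t + 2)) (t + 1) b w = TriS.Cb D (Um v (t + 2)) (t + 1) b w0 ∧ E w
      · rw [ind_not (dead_cls hA hd hw' (hcls w hV)), zero_mul, mul_zero]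
      · rw [ind_not hV, zero_mul]
    rw [e2, FP.E_const, abs_zero]
    exact mul_nonneg (FP.Pr_nonneg _ _) (mul_nonneg (by norm_num) (Real.sqrt_nonneg _))

/-- **THE LAW OF THE FINAL THIN LABELS**, one class -/
theorem H2_cls (p : Par n N1 X0 Lam) (ha : Real.exp (-Lam) ≤ al) (ha1 : al ≤ 1)
    (B : Bk h (pr3 (Fin 3) n N1) (SS1 (Fin 3)) (Um v (t + 2)) (t + 1) b c d)
    (hAf : Fac (ZQ (φ := φ) D v (5 * t + 5)) Af)
    (hA : ∀ w, (D.P h (t + 1)).p w ≠ 0 → Af w → ∀ i, ssQ h v (5 * t + 5) i w ≤ X0)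
    (hE : Fac (Ah D (t + 1) {b}) E) (hw : (D.P h (t + 1)).p w0 ≠ 0) (hEw : E w0)
    {s : Pt (Fin 3) X β φ → ℝ} (hs : Fac (ZQ D v (5 * t + 5)) s) (hb : ∀ w, |s w| ≤ 1) :
    |((D.P h (t + 1)).cond (fun w => TriS.Cb D (Um v (t + 2)) (t + 1) b w =
        TriS.Cb D (Um v (t + 2)) (t + 1) b w0 ∧ E w)).E (fun w => ind (Af w) * s w) -
      ((D.P h (t + 1)).cond (fun w => TriS.Cb D (Um v (t + 2)) (t + 1) b w =
        TriS.Cb D (Um v (t + 2)) (t + 1) b w0)).E (fun w => ind (Af w) * s w)| ≤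
        TriE.prC (Lam + 1) n 7 2 (Real.exp (-n))
          ((D.P h (t + 1)).ce (TriS.Cb D (Um v (t + 2)) (t + 1) b) (fun w => ind (E w)) w0) := by
  have I := Ib_run B hE hw hEw
  have hs1 : ∀ (f : Pt (Fin 3) X β φ → ℝ), (∀ w, 0 ≤ f w) → (∀ w, f w ≤ 1) → ∀ w, |f w * s w| ≤ 1 := by
    intro f f0 f1 w
    rw [abs_mul, abs_of_nonneg (f0 w)]
    have := mul_le_mul (f1 w) (hb w) (abs_nonneg _) zero_le_one
    linarith
  refine TriE.le_prC (triv2 _ _ (hs1 _ (fun _ => ind_nonneg _) fun _ => ind_le_one _)) fun he => ?_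
  have e1 := ce_QC B hE hw hEw
  obtain ⟨l0, ln⟩ := lg_e he (ce_one w0 hw)
  rw [TriS.Cb_clsb w0]
  by_cases hd : ssQ h v (5 * t + 5) b w0 ≤ X0
  · have s0 : 0 ≤ ssQ h v (5 * t + 5) b w0 := by
      rw [ssQ_at (5 * t + 5) b w0 (t + 1)]
      exact sp_nonneg _ _ _ hw
    have k1 : Lb h (Um v (t + 2)) (t + 1) b w0
        (fun w => TriS.Cb D (Um v (t + 2)) (t + 1) b w = TriS.Cb D (Um v (t + 2)) (t + 1) b w0 ∧ E w) ≤
        ssQ h v (5 * t + 5) b w0 + Real.log (1 / (D.P h (t + 1)).ce (TriS.Cb D (Um v (t + 2)) (t + 1) b)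
          (fun w => ind (E w)) w0) := by
      rw [Lb_eq I, e1]
    obtain ⟨-, -, m1, m2⟩ := eM p.x1
    have k3 := del_W B I (Wb_run (w0 := w0) B) (Tf_card (h := h) (v := v) (t := t) X0 w0) k1
      (aa_fac (c := c) (d := d) (w0 := w0) (X0 := X0) (h := h) hAf) hs (hs1 _ aa_0 aa_1) (fun w _ hh => (aa_typ hh).2)
    have e2 : ((D.P h (t + 1)).cond (fun w => TriS.Cb D (Um v (t + 2)) (t + 1) b w =
        TriS.Cb D (Um v (t + 2)) (t + 1) b w0 ∧ E w)).E (fun w => ind (Af w) * s w) =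
        ((D.P h (t + 1)).cond (fun w => TriS.Cb D (Um v (t + 2)) (t + 1) b w =
        TriS.Cb D (Um v (t + 2)) (t + 1) b w0 ∧ E w)).E (fun w => aa h v X0 t c d w0 Af w * s w) := by
      refine FP.E_congr _ fun w hw' => ?_
      obtain ⟨g1, g2⟩ := cond_supp I.ne hw'
      rw [aa_eq g2 (I.sub w g1) (hA w g2)]
    have e3 : ((D.P h (t + 1)).cond (clsb (Um v (t + 2)) (pub0 D (t + 1) (Um v (t + 2)) w0) b w0)).E
        (fun w => ind (Af w) * s w) =
        ((D.P h (t + 1)).cond (clsb (Um v (t + 2)) (pub0 D (t + 1) (Um v (t + 2)) w0) b w0)).E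
        (fun w => aa h v X0 t c d w0 Af w * s w) := by
      refine FP.E_congr _ fun w hw' => ?_
      obtain ⟨g1, g2⟩ := cond_supp I.cls_ne hw'
      rw [aa_eq g2 g1 (hA w g2)]
    rw [e2, e3]
    refine k3.trans ?_
    have s2 := dl2_le (c := c) (d := d) p ha ha1 m1 m2 l0 ln (add_nonneg s0 l0) (add_le_add_left hd _)
    rw [← add_assoc]
    exact s2
  · have e2 : ((D.P h (t + 1)).cond (fun w => TriS.Cb D (Um v (t + 2)) (t + 1) b w =
        TriS.Cb D (Um v (t + 2)) (t + 1) b w0 ∧ E w)).E (fun w => ind (Af w) * s w) = 0 := by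
      rw [← FP.E_const ((D.P h (t + 1)).cond (fun w => TriS.Cb D (Um v (t + 2)) (t + 1) b w =
        TriS.Cb D (Um v (t + 2)) (t + 1) b w0 ∧ E w)) 0]
      refine FP.E_congr _ fun w hw' => ?_
      obtain ⟨g1, g2⟩ := cond_supp I.ne hw'
      rw [ind_not (dead_cls hA hd g2 (I.sub w g1)), zero_mul]
    have e3 : ((D.P h (t + 1)).cond (clsb (Um v (t + 2)) (pub0 D (t + 1) (Um v (t + 2)) w0) b w0)).E
        (fun w => ind (Af w) * s w) = 0 := by
      rw [← FP.E_const ((D.P h (t + 1)).cond (clsb (Um v (t + 2)) (pub0 D (t + 1) (Um v (t + 2)) w0) b w0)) 0]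
      refine FP.E_congr _ fun w hw' => ?_
      obtain ⟨g1, g2⟩ := cond_supp I.cls_ne hw'
      rw [ind_not (dead_cls hA hd g2 g1), zero_mul]
    rw [e2, e3, sub_zero, abs_zero]
    exact mul_nonneg (by norm_num) (Real.sqrt_nonneg _)

/-- coarse truncated letter -/
def Tl (h : D.Thick al) (v : ℕ → Finset (Fin 3) → X → (Fin 3 → β) → Pt (Fin 3) X β φ) (X0 : ℝ) (t q : ℕ) (d : Fin 3)
    (w0 : Pt (Fin 3) X β φ) (w : Pt (Fin 3) X β φ) : Option (List (Pt (Fin 3) X β φ)) :=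
  tru (Ty h v X0 t q d w0) (w.2.1 d) (Um v (nc q {d}) {d} w.1 w.2.1)

theorem Tl_dep {q : ℕ} (hq5 : q ≤ 5 * t + 5) :
    Fac (fun w : Pt (Fin 3) X β φ => (zf (Um v (t + 2)) d w, BB D (t + 1) ∅ w)) (Tl h v X0 t q d w0) := by
  intro a e hae
  have h1 := (pair_iff.1 hae).1
  have h2 : a.2.1 d = e.2.1 d ∧ Um v (t + 2) {d} a.1 a.2.1 = Um v (t + 2) {d} e.1 e.2.1 := pair_iff.1 h1
  have h3 : nc q {d} ≤ t + 2 := by
    have := nc_mono hq5 (J := {d}) (by unfold pth; simp)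
    rwa [nc_5 (by unfold pth; simp)] at this
  unfold Tl
  rw [h2.1, Um_older h3 h2.2]

theorem Tl_card (q : ℕ) (d' : β) : ∃ s : Finset (Option (List (Pt (Fin 3) X β φ))), (s.card : ℝ) ≤ Real.exp X0 + 1 ∧
    ∀ w : Pt (Fin 3) X β φ, w.2.1 d = d' → Tl h v X0 t q d w0 w ∈ s := by
  classical
  obtain ⟨T, hT1, hT2⟩ := Ty_card (h := h) (v := v) (t := t) X0 q d w0 d'
  refine ⟨insert none (T.image some), ?_, fun w hw => ?_⟩
  · have a1 : (insert none (T.image some) : Finset (Option (List (Pt (Fin 3) X β φ)))).card ≤ T.card + 1 :=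
      (Finset.card_insert_le _ _).trans (Nat.add_le_add_right Finset.card_image_le 1)
    have a2 : ((insert none (T.image some) : Finset (Option (List (Pt (Fin 3) X β φ)))).card : ℝ) ≤ (T.card : ℝ) + 1 := by
      exact_mod_cast a1
    linarith
  · unfold Tl
    rw [hw]
    unfold tru
    split_ifs with hT
    · exact Finset.mem_insert_of_mem (Finset.mem_image.2 ⟨_, hT2 _ hT, rfl⟩)
    · exact Finset.mem_insert_self _ _

/-- the thin labels of the state `q` in the class, from the final letter of `c` and the coarse letter of `d` -/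
theorem ZQ_of {N : Finset (Fin 3) → ℝ} (B : Bk h N (SS1 (Fin 3)) (Um v (t + 2)) (t + 1) b c d) {q : ℕ}
    (hq : 5 * t + 5 ≤ q) (hq5 : q ≤ 5 * t + 5) {a e : Pt (Fin 3) X β φ}
    (ha : clsb (Um v (t + 2)) (pub0 D (t + 1) (Um v (t + 2)) w0) b w0 a)
    (he : clsb (Um v (t + 2)) (pub0 D (t + 1) (Um v (t + 2)) w0) b w0 e)
    (hc : zf (Um v (t + 2)) c a = zf (Um v (t + 2)) c e) (hd : a.2.1 d = e.2.1 d)
    (hl : Um v (nc q {d}) {d} a.1 a.2.1 = Um v (nc q {d}) {d} e.1 e.2.1) : ZQ D v q a = ZQ D v q e := by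
  have hle : ∀ J : Finset (Fin 3), pth J → nc q J ≤ t + 2 := fun J hJ => by
    have := nc_mono hq5 hJ
    rwa [nc_5 hJ] at this
  have hc' := pair_iff.1 (show ((a.2.1 c, Um v (t + 2) {c} a.1 a.2.1) : β × _) = (e.2.1 c, _) from hc)
  have hb' : Um v (t + 2) {b} a.1 a.2.1 = Um v (t + 2) {b} e.1 e.2.1 := ha.2.2.trans he.2.2.symm
  have h0 := (pub0_C (D := D) (U := Um v (t + 2)) (t := t + 1) w0).let0 a e ha.1 he.1
  have hn0 := (pub0_C (D := D) (U := Um v (t + 2)) (t := t + 1) w0).nod a e ha.1 he.1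
  rw [BB_eq] at hn0
  have hnd : nd D (t + 1) a = nd D (t + 1) e := by
    unfold nd
    exact Prod.ext hn0.2.1 (funext hn0.2.2)
  refine Prod.ext (funext fun J => ?_) (Prod.ext ?_ ?_)
  · show LL (Um v (nc q J.1)) J.1 a = LL (Um v (nc q J.1)) J.1 e
    rw [LL_thin J.2]
    rcases pth_cases B.bc B.bd B.cd J.2 with hJ | hJ | hJ | hJ
    · rw [hJ]; exact Um_older (hle ∅ (by unfold pth; simp)) h0
    · rw [hJ]; exact Um_older (hle {b} (by unfold pth; simp)) hb'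
    · rw [hJ]; exact Um_older (hle {c} (by unfold pth; simp)) hc'.2
    · rw [hJ]; exact hl
  · show a.2.1 = e.2.1
    funext j
    rcases B.all j with rfl | rfl | rfl
    · exact ha.2.1.trans he.2.1.symm
    · exact hc'.1
    · exact hd
  · show nd D (nn q) a = nd D (nn q) e
    rw [nn_q (by omega) hq5]
    exact hnd

/-- **THE LAW OF THE THIN LABELS OF THE STATE `q`**, one class -/
theorem H3_cls (p : Par n N1 X0 Lam) (ha : Real.exp (-Lam) ≤ al) (ha1 : al ≤ 1)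
    (B : Bk h (pr3 (Fin 3) n N1) (SS1 (Fin 3)) (Um v (t + 2)) (t + 1) b c d) {q : ℕ}
    (hq : 5 * t + 5 ≤ q) (hq5 : q ≤ 5 * t + 5) {T : Pt (Fin 3) X β φ → Prop} (hT : Fac (ZQ (φ := φ) D v q) T)
    (hA : ∀ w, (D.P h (t + 1)).p w ≠ 0 → T w → ∀ i, ssQ h v q i w ≤ X0)
    (hE : Fac (Ah D (t + 1) {b}) E) (hw : (D.P h (t + 1)).p w0 ≠ 0) (hEw : E w0)
    {s : Pt (Fin 3) X β φ → ℝ} (hs : Fac (ZQ D v q) s) (hb : ∀ w, |s w| ≤ 1) :
    |((D.P h (t + 1)).cond (fun w => TriS.Cb D (Um v (t + 2)) (t + 1) b w =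
        TriS.Cb D (Um v (t + 2)) (t + 1) b w0 ∧ E w)).E (fun w => ind (T w) * s w) -
      ((D.P h (t + 1)).cond (fun w => TriS.Cb D (Um v (t + 2)) (t + 1) b w =
        TriS.Cb D (Um v (t + 2)) (t + 1) b w0)).E (fun w => ind (T w) * s w)| ≤
        TriE.prC (Lam + 1) n 7 2 (Real.exp (-n))
          ((D.P h (t + 1)).ce (TriS.Cb D (Um v (t + 2)) (t + 1) b) (fun w => ind (E w)) w0) := by
  have I := Ib_run B hE hw hEw
  have hs1 : ∀ w, |ind (T w) * s w| ≤ 1 := by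
    intro w
    rw [abs_mul, abs_of_nonneg (ind_nonneg _)]
    have := mul_le_mul (ind_le_one (T w)) (hb w) (abs_nonneg _) zero_le_one
    linarith
  refine TriE.le_prC (triv2 _ _ hs1) fun he => ?_
  have e1 := ce_QC B hE hw hEw
  obtain ⟨l0, ln⟩ := lg_e he (ce_one w0 hw)
  rw [TriS.Cb_clsb w0]
  by_cases hd : ssQ h v (5 * t + 5) b w0 ≤ X0
  · have s0 : 0 ≤ ssQ h v (5 * t + 5) b w0 := by
      rw [ssQ_at (5 * t + 5) b w0 (t + 1)]
      exact sp_nonneg _ _ _ hw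
    have k1 : Lb h (Um v (t + 2)) (t + 1) b w0
        (fun w => TriS.Cb D (Um v (t + 2)) (t + 1) b w = TriS.Cb D (Um v (t + 2)) (t + 1) b w0 ∧ E w) ≤
        ssQ h v (5 * t + 5) b w0 + Real.log (1 / (D.P h (t + 1)).ce (TriS.Cb D (Um v (t + 2)) (t + 1) b)
          (fun w => ind (E w)) w0) := by
      rw [Lb_eq I, e1]
    obtain ⟨m1, m2, -, -⟩ := eM p.x1
    obtain ⟨f, f1, f2, f3⟩ := exists_supp (A := fun w => (D.P h (t + 1)).p w ≠ 0 ∧
        clsb (Um v (t + 2)) (pub0 D (t + 1) (Um v (t + 2)) w0) b w0 w)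
      (T := fun w => (zf (Um v (t + 2)) c w, (w.2.1 d, Tl h v X0 t q d w0 w))) (f := fun w => ind (T w) * s w) (by
        rintro a e ⟨u1, u2⟩ ⟨v1, v2⟩ huv
        obtain ⟨g1, g2⟩ := pair_iff.1 huv
        obtain ⟨g3, g4⟩ := pair_iff.1 g2
        have typ : ∀ w, (D.P h (t + 1)).p w ≠ 0 → clsb (Um v (t + 2)) (pub0 D (t + 1) (Um v (t + 2)) w0) b w0 w →
            T w → Ty h v X0 t q d w0 (w.2.1 d) (Um v (nc q {d}) {d} w.1 w.2.1) := by
          intro w hw1 hw2 hw3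
          refine ⟨w, hw1, ?_, rfl, rfl, hA w hw1 hw3 d⟩
          have h5 : 5 * t + 2 ≤ q := by omega
          have h6 := (clsb_iff.1 hw2).2.2
          unfold NPq at h6 ⊢
          rw [nc_5 (by unfold pth; simp), nn_5] at h6
          rw [nc_0 h5 hq5, nn_q (by omega) hq5]
          exact h6
        by_cases ht : Ty h v X0 t q d w0 (e.2.1 d) (Um v (nc q {d}) {d} e.1 e.2.1)
        · have g5 : Tl h v X0 t q d w0 e = some (Um v (nc q {d}) {d} e.1 e.2.1) := by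
            unfold Tl tru
            rw [if_pos ht]
          have g6 : Um v (nc q {d}) {d} a.1 a.2.1 = Um v (nc q {d}) {d} e.1 e.2.1 := by
            rw [g5] at g4
            unfold Tl tru at g4
            split_ifs at g4 with g7
            exact Option.some.inj g4
          have g8 := ZQ_of B hq hq5 u2 v2 g1 g3 g6
          have g9 : T a = T e := hT a e g8
          have g10 : s a = s e := hs a e g8
          show ind (T a) * s a = ind (T e) * s e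
          rw [g9, g10]
        · have g5 : ¬ T e := fun hh => ht (typ e v1 v2 hh)
          have g6 : ¬ T a := fun hh => by
            have g7 := typ a u1 u2 hh
            have g8 : Tl h v X0 t q d w0 e = none := by
              unfold Tl tru
              rw [if_neg ht]
            rw [g8] at g4
            unfold Tl tru at g4
            rw [if_pos g7] at g4
            exact absurd g4 (by simp)
          show ind (T a) * s a = ind (T e) * s e
          rw [ind_not g5, ind_not g6, zero_mul, zero_mul]) zero_le_one fun u _ => hs1 u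
    have k3 := del_two B I (Tl_dep (h := h) (v := v) (X0 := X0) (w0 := w0) (d := d) hq5)
      (Tl_card (h := h) (v := v) (X0 := X0) (w0 := w0) (d := d) (t := t) q) k1 f1 f2
    have e2 : ((D.P h (t + 1)).cond (fun w => TriS.Cb D (Um v (t + 2)) (t + 1) b w =
        TriS.Cb D (Um v (t + 2)) (t + 1) b w0 ∧ E w)).E (fun w => ind (T w) * s w) =
        ((D.P h (t + 1)).cond (fun w => TriS.Cb D (Um v (t + 2)) (t + 1) b w =
        TriS.Cb D (Um v (t + 2)) (t + 1) b w0 ∧ E w)).E f := by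
      refine FP.E_congr _ fun w hw' => ?_
      obtain ⟨g1, g2⟩ := cond_supp I.ne hw'
      exact (f3 w ⟨g2, I.sub w g1⟩).symm
    have e3 : ((D.P h (t + 1)).cond (clsb (Um v (t + 2)) (pub0 D (t + 1) (Um v (t + 2)) w0) b w0)).E
        (fun w => ind (T w) * s w) =
        ((D.P h (t + 1)).cond (clsb (Um v (t + 2)) (pub0 D (t + 1) (Um v (t + 2)) w0) b w0)).E f := by
      refine FP.E_congr _ fun w hw' => ?_
      obtain ⟨g1, g2⟩ := cond_supp I.cls_ne hw'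
      exact (f3 w ⟨g2, g1⟩).symm
    rw [e2, e3]
    refine k3.trans ?_
    have s2 := dl2_le (c := c) (d := d) p ha ha1 m1 m2 l0 ln (add_nonneg s0 l0) (add_le_add_left hd _)
    rw [← add_assoc]
    exact s2
  · have hdd : ∀ w, (D.P h (t + 1)).p w ≠ 0 → clsb (Um v (t + 2)) (pub0 D (t + 1) (Um v (t + 2)) w0) b w0 w → ¬ T w := by
      intro w hw1 hw2 hh
      refine hd ?_
      rw [← ss_cls hw2, ← ssQ_same hq hq5]
      exact hA w hw1 hh b
    have e2 : ((D.P h (t + 1)).cond (fun w => TriS.Cb D (Um v (t + 2)) (t + 1) b w =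
        TriS.Cb D (Um v (t + 2)) (t + 1) b w0 ∧ E w)).E (fun w => ind (T w) * s w) = 0 := by
      rw [← FP.E_const ((D.P h (t + 1)).cond (fun w => TriS.Cb D (Um v (t + 2)) (t + 1) b w =
        TriS.Cb D (Um v (t + 2)) (t + 1) b w0 ∧ E w)) 0]
      refine FP.E_congr _ fun w hw' => ?_
      obtain ⟨g1, g2⟩ := cond_supp I.ne hw'
      rw [ind_not (hdd w g2 (I.sub w g1)), zero_mul]
    have e3 : ((D.P h (t + 1)).cond (clsb (Um v (t + 2)) (pub0 D (t + 1) (Um v (t + 2)) w0) b w0)).E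
        (fun w => ind (T w) * s w) = 0 := by
      rw [← FP.E_const ((D.P h (t + 1)).cond (clsb (Um v (t + 2)) (pub0 D (t + 1) (Um v (t + 2)) w0) b w0)) 0]
      refine FP.E_congr _ fun w hw' => ?_
      obtain ⟨g1, g2⟩ := cond_supp I.cls_ne hw'
      rw [ind_not (hdd w g2 g1), zero_mul]
    rw [e2, e3, sub_zero, abs_zero]
    exact mul_nonneg (by norm_num) (Real.sqrt_nonneg _)

end run

end TriB

end

end Pool.Agent.GMH.TP
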