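import Pool.Agent.GMH.TriC
import Pool.Agent.GMH.TriT

/-!
# GMH.TriD: one bit of one vertex at a step of the run, summed over the times (helper80; H3.REL R.5, R.6, R.8)

* `dev_one` : one time;
* `dev_sum` : **the bit of one vertex at the joint step or a private step**: deviations `Dv t` with
  `sum Dv <= 2 P(dead) + 52 NT sqrt ((log (MT / NT) + Lam + 1) / n) + 6 exp (-n) MT`;
* `dev_near`, `dev_sum'` : the bit is read on the points which stay alive only (`4 P(dead)`).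
-/

set_option autoImplicit false
set_option linter.unusedSectionVars false

namespace Pool.Agent.GMH.TP

open Finset Pool.Agent.PWZ Pool.Agent.M3 Pool.Agent.GM Pool.Agent.GM.Harm Pool.Agent.GMH Pool.Agent.GMH.NZ
open Pool.Agent.GMH.V3

noncomputable section

namespace TriB

/-- the sum of the three prices -/
theorem prC_add {A n eta e : ℝ} : TriE.prC A n 38 2 eta e + (TriE.prC A n 7 2 eta e + TriE.prC A n 7 2 eta e) ≤
    TriE.prC A n 52 6 eta e := by
  refine TriE.le_prC ?_ fun h => ?_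
  · have h1 := TriE.prC_le (A := A) (n := n) (Cc := 38) (K0 := 2) (eta := eta) (e := e)
    have h2 := TriE.prC_le (A := A) (n := n) (Cc := 7) (K0 := 2) (eta := eta) (e := e)
    linarith
  · have h1 := TriE.prC_le2 (A := A) (n := n) (Cc := 38) (K0 := 2) h
    have h2 := TriE.prC_le2 (A := A) (n := n) (Cc := 7) (K0 := 2) h
    linarith

section run

variable {X β γ φ : Type} [Fintype X] [Fintype β] [Fintype φ] [Nonempty X] [Nonempty β]
variable {D : HD (Fin 3) X β γ φ} {al : ℝ} {h : D.Thick al} {v : ℕ → Finset (Fin 3) → X → (Fin 3 → β) → Pt (Fin 3) X β φ}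
variable {t : ℕ} {b : Fin 3} {n N1 Lam : ℝ}
variable {dg : ℕ → X → ℝ} {prr : ℕ → Fin 3 → φ → φ} {T : ℕ}

/-- probability of the event in its class, at the law of the time `t + 1` -/
def eb (h : D.Thick al) (v : ℕ → Finset (Fin 3) → X → (Fin 3 → β) → Pt (Fin 3) X β φ) (t : ℕ) (b : Fin 3)
    (E : Pt (Fin 3) X β φ → Prop) : Pt (Fin 3) X β φ → ℝ :=
  (D.P h (t + 1)).ce (TriS.Cb D (Um v (t + 2)) (t + 1) b) (fun w => ind (E w))

/-- another point of the class, in the event -/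
theorem pick {E : Pt (Fin 3) X β φ → Prop} {w0 : Pt (Fin 3) X β φ}
    (h0 : (D.P h (t + 1)).Pr (fun w => TriS.Cb D (Um v (t + 2)) (t + 1) b w = TriS.Cb D (Um v (t + 2)) (t + 1) b w0 ∧
      E w) ≠ 0) : ∃ w1, (D.P h (t + 1)).p w1 ≠ 0 ∧ E w1 ∧
      TriS.Cb D (Um v (t + 2)) (t + 1) b w1 = TriS.Cb D (Um v (t + 2)) (t + 1) b w0 := by
  by_contra hh
  push_neg at hh
  refine h0 ?_
  rw [← FP.E_const (D.P h (t + 1)) 0]
  refine FP.E_congr _ fun w hw => ind_not fun h1 => hh w hw h1.2 h1.1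

theorem Ar_xy (ap : AP) (r : ℕ) : XY (Ar (φ := φ) h v ap r) := fun _ _ _ _ => propext (Ar_fac h ap rfl)

theorem vert (b : Fin 3) : ∃ c d : Fin 3, b ≠ c ∧ b ≠ d ∧ c ≠ d := by
  revert b
  decide

/-- **ONE TIME** -/
theorem dev_one {ap : AP} (p : Par n N1 ap.X0 Lam) (H : D.Hyp dg prr al T Lam)
    (R : Run h (pr3 (Fin 3) n N1) (SS1 (Fin 3)) (AdmDep D) v) (ht : t < T) (s : Fin 6)
    (hs : 5 * t + 5 ≤ qe s t) {A E : Pt (Fin 3) X β φ → Prop} (hA : Fac (VZ (φ := φ) D v s t) A)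
    (hE : Fac (Ah D (t + 1) {b}) E) (g : Pt (Fin 3) X β φ → ℝ) (hg : Fac (fun w => (tup (FQ v t) w, VZ D v s t w)) g)
    (hb : ∀ w, |g w| ≤ 1) :
    |(D.P h t).E (fun w => ind (A w ∧ E w) * (g w - (D.P h t).ce (VZ D v s t) g w))| ≤
      2 * (D.P h (t + 1)).Pr (fun w => A w ∧ ¬ (A w ∧ Ar h v ap (2 * (t + 1)) w)) +
        (D.P h (t + 1)).E (fun w => ind (E w) * TriE.prC (Lam + 1) n 52 6 (Real.exp (-n)) (eb h v t b E w)) := by
  have hn1 : 1 ≤ n := by linarith [p.n2]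
  have hN : ∀ l : Fin 3, 0 < pr3 (Fin 3) n N1 (univ.erase l) := fun l =>
    zero_lt_one.trans_le (pr3_one hn1 p.N1' _)
  have hxy : XY E := fun x y F F' => hE _ _ rfl
  have hqe : qe s t ≤ 5 * t + 5 := by fin_cases s <;> simp [qe]
  have ha1 : al ≤ 1 := hal_one h b
  refine TriT.trans H R hN ht s hA hxy (fun g' hg' hb' => ?_) g hg hb
  obtain ⟨c, d, bc, bd, cd⟩ := vert b
  have B : Bk h (pr3 (Fin 3) n N1) (SS1 (Fin 3)) (Um v (t + 2)) (t + 1) b c d := Bk_run hn1 p.N1' R bc bd cd (t + 1)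
  set Af : Pt (Fin 3) X β φ → Prop := fun w => A w ∧ Ar h v ap (2 * (t + 1)) w with hAf
  have fV : Fac (ZQ (φ := φ) D v (qe s t)) (VZ D v s t) := by
    intro a e hae
    show (ZQ D v (qe s t) a, ZQ D v (qs s t) a) = (ZQ D v (qe s t) e, ZQ D v (qs s t) e)
    rw [hae, ZQ_mono (qs_le_qe s t) a e hae]
  have fAf : Fac (ZQ (φ := φ) D v (5 * t + 5)) Af := by
    intro a e hae
    have h1 : A a = A e := hA a e (TriS.VZ_final s t a e hae)
    have h2 : Ar h v ap (2 * (t + 1)) a = Ar h v ap (2 * (t + 1)) e := Ar0_fac h ap (t + 1) a e hae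
    show (A a ∧ Ar h v ap (2 * (t + 1)) a) = (A e ∧ Ar h v ap (2 * (t + 1)) e)
    rw [h1, h2]
  -- typical letters
  have a5 : ∀ w, (D.P h (t + 1)).p w ≠ 0 → Af w → ∀ i, ssQ h v (5 * t + 5) i w ≤ ap.X0 := by
    intro w _ hw i
    exact (AQ_0 h ap (t := t + 1) hw.2).1 i
  have aq : ∀ w, (D.P h (t + 1)).p w ≠ 0 → Af w → AQ h v ap (qe s t) w := by
    intro w hw hAw
    rcases Nat.lt_or_ge (qe s t) (5 * t + 5) with h1 | h1
    · obtain ⟨j, hj⟩ : ∃ j, qe s t = 5 * t + j := ⟨qe s t - 5 * t, by omega⟩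
      rw [hj] at h1 hs ⊢
      -- the point with labels of the time `t`
      have hw' := old_supp H ht hw
      have h2 : Ar h v ap (2 * (t + 1)) (old prr t w) := by
        rcases w with ⟨x, y, F⟩
        refine (iff_of_eq ?_).2 hAw.2
        exact Ar_xy ap (2 * (t + 1)) x y _ F
      have h3 := AQ_of h ap (t := t) (j := j) (by omega) (by omega) hw' h2
      rcases w with ⟨x, y, F⟩
      exact (iff_of_eq (AQ_xy (h := h) (v := v) ap (5 * t + j) x y _ F)).1 h3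
    · have h2 : qe s t = 5 * (t + 1) := by omega
      rw [h2]
      exact AQ_0 h ap hAw.2
  have key := TriA.dev_split (P := D.P h (t + 1)) (W := VZ D v s t) (Wf := ZQ D v (5 * t + 5))
    (C := TriS.Cb D (Um v (t + 2)) (t + 1) b) (E := E) (A := A) (Af := Af) (T := AQ h v ap (qe s t)) (g := g')
    (TriS.VZ_final s t) (TriS.VZ_Cb hs) hA fAf (fun w _ hh => hh.1) hb'
    (fun a e hae => AQ_fac h ap (qe s t) a e (congrArg Prod.fst hae)) aq
    (d1 := fun w => TriE.prC (Lam + 1) n 38 2 (Real.exp (-n)) (eb h v t b E w))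
    (d2 := fun w => TriE.prC (Lam + 1) n 7 2 (Real.exp (-n)) (eb h v t b E w))
    (d3 := fun w => TriE.prC (Lam + 1) n 7 2 (Real.exp (-n)) (eb h v t b E w))
    (((D.P h (t + 1)).ce_fac _ _).comp fun x => TriE.prC (Lam + 1) n 38 2 (Real.exp (-n)) x)
    (((D.P h (t + 1)).ce_fac _ _).comp fun x => TriE.prC (Lam + 1) n 7 2 (Real.exp (-n)) x)
    (((D.P h (t + 1)).ce_fac _ _).comp fun x => TriE.prC (Lam + 1) n 7 2 (Real.exp (-n)) x)
    (fun w0 h0 => by
      obtain ⟨w1, h1, h2, h3⟩ := pick h0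
      have k := H1_cls (w0 := w1) p H.alL ha1 B fAf a5 hE h1 h2 hg' hb'
      rw [h3] at k
      have e1 : eb h v t b E w0 = eb h v t b E w1 := (D.P h (t + 1)).ce_fac _ _ w0 w1 h3.symm
      rw [e1]
      exact k)
    (fun w0 h0 s' hs' hb'' => by
      obtain ⟨w1, h1, h2, h3⟩ := pick h0
      have k := H2_cls (w0 := w1) p H.alL ha1 B fAf a5 hE h1 h2 hs' hb''
      rw [h3] at k
      have e1 : eb h v t b E w0 = eb h v t b E w1 := (D.P h (t + 1)).ce_fac _ _ w0 w1 h3.symm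
      rw [e1]
      exact k)
    (fun w0 h0 s' hs' hb'' => by
      obtain ⟨w1, h1, h2, h3⟩ := pick h0
      have k := H3_cls (w0 := w1) p H.alL ha1 B hs hqe (T := AQ h v ap (qe s t)) (AQ_fac h ap (qe s t))
        (fun w _ hh => hh.1) hE h1 h2 (s := s') (fV.trans hs') hb''
      rw [h3] at k
      have e1 : eb h v t b E w0 = eb h v t b E w1 := (D.P h (t + 1)).ce_fac _ _ w0 w1 h3.symm
      rw [e1]
      exact k)
  refine key.trans (add_le_add_right ((D.P h (t + 1)).E_mono fun w _ => ?_) _)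
  exact mul_le_mul_of_nonneg_left prC_add (ind_nonneg _)

/-- masses of events of hidden point and points -/
theorem Pr_xy' {E : Pt (Fin 3) X β φ → Prop} (hE : XY E) (s t : ℕ) : (D.P h s).Pr E = (D.P h t).Pr E := by
  unfold FP.Pr
  refine E_xy h (fun x y F F' => ?_) s t
  show ind (E (x, y, F)) = ind (E (x, y, F'))
  rw [hE x y F F']

theorem Cb_xy (U : Finset (Fin 3) → X → (Fin 3 → β) → List (Pt (Fin 3) X β φ)) (t : ℕ) (b : Fin 3) :
    XY (TriS.Cb (φ := φ) D U t b) := by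
  intro x y F F'
  unfold TriS.Cb
  refine Prod.ext (Prod.ext ?_ rfl) rfl
  rw [le_eq]
  intro I hI
  rw [Finset.subset_empty.1 hI, LL_thin (by unfold pth; simp)]

/-- **THE BIT OF ONE VERTEX, ALL TIMES** (joint step or private step of `b`), laws of the time `t + 1` -/
theorem dev_sum {ap : AP} (p : Par n N1 ap.X0 Lam) (H : D.Hyp dg prr al T Lam)
    (R : Run h (pr3 (Fin 3) n N1) (SS1 (Fin 3)) (AdmDep D) v) (s : Fin 6) (b : Fin 3)
    (hs : ∀ t, 5 * t + 5 ≤ qe s t) {A E Rm : ℕ → Pt (Fin 3) X β φ → Prop}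
    (hA : ∀ t < T, Fac (VZ (φ := φ) D v s t) (A t)) (hAr : ∀ t < T, ∀ w, A t w → Ar h v ap (2 * t + 1) w)
    (hE : ∀ t < T, Fac (Ah D (t + 1) {b}) (E t))
    (hRm : ∀ t < T, Fac (TriS.Cb D (Um v (t + 2)) (t + 1) b) (Rm t)) (hER : ∀ t < T, ∀ w, E t w → Rm t w)
    {NT MT : ℝ} (hNT : ∑ t ∈ range T, (D.P h t).Pr (E t) ≤ NT) (hMT : ∑ t ∈ range T, (D.P h t).Pr (Rm t) ≤ MT)
    (hNM : NT ≤ MT) :
    ∃ Dv : ℕ → ℝ, (∀ t, 0 ≤ Dv t) ∧ (∀ t < T, ∀ g : Pt (Fin 3) X β φ → ℝ,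
      Fac (fun w => (tup (FQ v t) w, VZ D v s t w)) g → (∀ w, |g w| ≤ 1) →
        |(D.P h t).E (fun w => ind (A t w ∧ E t w) * (g w - (D.P h t).ce (VZ D v s t) g w))| ≤ Dv t) ∧
      ∑ t ∈ range T, Dv t ≤ 2 * (D.P h T).Pr (fun w => ¬ Ar h v ap (2 * T) w) +
        (52 * (NT * Real.sqrt ((Real.log (MT / NT) + (Lam + 1)) / n)) + 6 * Real.exp (-n) * MT) := by
  have xE : ∀ t < T, XY (E t) := fun t ht x y F F' => hE t ht _ _ rfl
  have xR : ∀ t < T, XY (Rm t) := fun t ht x y F F' => hRm t ht _ _ (Cb_xy _ _ _ x y F F')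
  have n0 : 0 < n := by linarith [p.n2]
  have pr0 : ∀ e : ℝ, 0 ≤ TriE.prC (Lam + 1) n 52 6 (Real.exp (-n)) e := fun e =>
    TriE.le_prC (by norm_num) fun _ => mul_nonneg (by norm_num) (Real.sqrt_nonneg _)
  refine ⟨fun t => 2 * (D.P h (t + 1)).Pr (fun w => A t w ∧ ¬ (A t w ∧ Ar h v ap (2 * (t + 1)) w)) +
    (D.P h (t + 1)).E (fun w => ind (E t w) * TriE.prC (Lam + 1) n 52 6 (Real.exp (-n)) (eb h v t b (E t) w)),
    fun t => ?_, fun t ht g hg hb => dev_one p H R ht s (hs t) (hA t ht) (hE t ht) g hg hb, ?_⟩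
  · have h1 := (D.P h (t + 1)).Pr_nonneg (fun w => A t w ∧ ¬ (A t w ∧ Ar h v ap (2 * (t + 1)) w))
    have h2 : 0 ≤ (D.P h (t + 1)).E
        (fun w => ind (E t w) * TriE.prC (Lam + 1) n 52 6 (Real.exp (-n)) (eb h v t b (E t) w)) :=
      (D.P h (t + 1)).E_nonneg fun w _ => mul_nonneg (ind_nonneg _) (pr0 _)
    linarith
  · rw [Finset.sum_add_distrib, ← Finset.mul_sum]
    refine add_le_add (mul_le_mul_of_nonneg_left ?_ (by norm_num)) ?_
    · refine le_trans (Finset.sum_le_sum fun t ht => ?_) (sum_killT (h := h) (v := v) H ap)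
      have ht' := Finset.mem_range.1 ht
      exact FP.Pr_mono _ fun w _ hw => ⟨hAr t ht' w hw.1, fun h1 => hw.2 ⟨hw.1, h1⟩⟩
    · refine TriE.sum_times (T := T) (fun t => D.P h (t + 1)) (fun t => TriS.Cb D (Um v (t + 2)) (t + 1) b) E Rm
        (fun t w => TriE.prC (Lam + 1) n 52 6 (Real.exp (-n)) (eb h v t b (E t) w))
        (fun t _ => ((D.P h (t + 1)).ce_fac _ _).comp fun x => TriE.prC (Lam + 1) n 52 6 (Real.exp (-n)) x)
        hRm (fun t ht w _ hw => hER t ht w hw) (by linarith [p.L1]) n0 (by norm_num) (by norm_num) (Real.exp_pos _).le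
        (fun t _ w _ _ => le_refl _) ?_ ?_ hNM
      · refine le_trans (le_of_eq (Finset.sum_congr rfl fun t ht => ?_)) hNT
        exact Pr_xy' (xE t (Finset.mem_range.1 ht)) (t + 1) t
      · refine le_trans (le_of_eq (Finset.sum_congr rfl fun t ht => ?_)) hMT
        exact Pr_xy' (xR t (Finset.mem_range.1 ht)) (t + 1) t

/-- two bits which agree on the points which stay alive -/
theorem dev_near {ap : AP} {t : ℕ} {s : Fin 6} {A E E' : Pt (Fin 3) X β φ → Prop}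
    (hEE : ∀ w, A w → Ar h v ap (2 * (t + 1)) w → (E w ↔ E' w)) {d : ℝ}
    {g : Pt (Fin 3) X β φ → ℝ} (hb : ∀ w, |g w| ≤ 1)
    (h1 : |(D.P h t).E (fun w => ind (A w ∧ E' w) * (g w - (D.P h t).ce (VZ D v s t) g w))| ≤ d) :
    |(D.P h t).E (fun w => ind (A w ∧ E w) * (g w - (D.P h t).ce (VZ D v s t) g w))| ≤
      d + 2 * (D.P h t).Pr (fun w => A w ∧ ¬ Ar h v ap (2 * (t + 1)) w) := by
  set G : Pt (Fin 3) X β φ → ℝ := fun w => g w - (D.P h t).ce (VZ D v s t) g w with hG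
  have hG2 : ∀ w, (D.P h t).p w ≠ 0 → |G w| ≤ 2 := by
    intro w hw
    have h3 := abs_sub (g w) ((D.P h t).ce (VZ D v s t) g w)
    have h4 := hb w
    have h5 := TriA.ce_abs_le (P := D.P h t) (W := VZ D v s t) hb hw
    linarith
  have e1 : (D.P h t).E (fun w => ind (A w ∧ E w) * G w) = (D.P h t).E (fun w => ind (A w ∧ E' w) * G w) +
      (D.P h t).E (fun w => (ind (A w ∧ E w) - ind (A w ∧ E' w)) * G w) := by
    rw [← FP.E_add]
    exact FP.E_congr _ fun w _ => by ring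
  have e2 : |(D.P h t).E (fun w => (ind (A w ∧ E w) - ind (A w ∧ E' w)) * G w)| ≤
      2 * (D.P h t).Pr (fun w => A w ∧ ¬ Ar h v ap (2 * (t + 1)) w) := by
    have k : ∀ w, (D.P h t).p w ≠ 0 → |(ind (A w ∧ E w) - ind (A w ∧ E' w)) * G w| ≤
        2 * ind (A w ∧ ¬ Ar h v ap (2 * (t + 1)) w) := by
      intro w hw
      by_cases hA : A w
      · by_cases hr : Ar h v ap (2 * (t + 1)) w
        · have : (A w ∧ E w) = (A w ∧ E' w) := by rw [propext (hEE w hA hr)]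
          rw [this, sub_self, zero_mul, abs_zero]
          exact mul_nonneg (by norm_num) (ind_nonneg _)
        · rw [ind_of (show A w ∧ ¬ Ar h v ap (2 * (t + 1)) w from ⟨hA, hr⟩), abs_mul]
          have h5 : |ind (A w ∧ E w) - ind (A w ∧ E' w)| ≤ 1 := by
            have a0 := ind_nonneg (A w ∧ E w)
            have a1 := ind_le_one (A w ∧ E w)
            have b0 := ind_nonneg (A w ∧ E' w)
            have b1 := ind_le_one (A w ∧ E' w)
            exact abs_le.2 ⟨by linarith, by linarith⟩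
          have h6 := mul_le_mul h5 (hG2 w hw) (abs_nonneg _) zero_le_one
          linarith
      · rw [ind_not (fun hh : A w ∧ E w => hA hh.1), ind_not (fun hh : A w ∧ E' w => hA hh.1), sub_self, zero_mul,
          abs_zero]
        exact mul_nonneg (by norm_num) (ind_nonneg _)
    have e3 : 2 * (D.P h t).Pr (fun w => A w ∧ ¬ Ar h v ap (2 * (t + 1)) w) =
        (D.P h t).E (fun w => 2 * ind (A w ∧ ¬ Ar h v ap (2 * (t + 1)) w)) := ((D.P h t).E_smul _ _).symm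
    rw [e3, abs_le, ← FP.E_neg]
    exact ⟨FP.E_mono _ fun w hw => (abs_le.1 (k w hw)).1, FP.E_mono _ fun w hw => (abs_le.1 (k w hw)).2⟩
  rw [e1]
  exact (abs_add_le _ _).trans (add_le_add h1 e2)

/-- **THE BIT OF ONE VERTEX, ALL TIMES**, with the bit read on the points which stay alive -/
theorem dev_sum' {ap : AP} (p : Par n N1 ap.X0 Lam) (H : D.Hyp dg prr al T Lam)
    (R : Run h (pr3 (Fin 3) n N1) (SS1 (Fin 3)) (AdmDep D) v) (s : Fin 6) (b : Fin 3)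
    (hs : ∀ t, 5 * t + 5 ≤ qe s t) {A E E' Rm : ℕ → Pt (Fin 3) X β φ → Prop}
    (hA : ∀ t < T, Fac (VZ (φ := φ) D v s t) (A t)) (hAr : ∀ t < T, ∀ w, A t w → Ar h v ap (2 * t + 1) w)
    (hEE : ∀ t < T, ∀ w, A t w → Ar h v ap (2 * (t + 1)) w → (E t w ↔ E' t w))
    (hE : ∀ t < T, Fac (Ah D (t + 1) {b}) (E' t))
    (hRm : ∀ t < T, Fac (TriS.Cb D (Um v (t + 2)) (t + 1) b) (Rm t)) (hER : ∀ t < T, ∀ w, E' t w → Rm t w)
    {NT MT : ℝ} (hNT : ∑ t ∈ range T, (D.P h t).Pr (E' t) ≤ NT) (hMT : ∑ t ∈ range T, (D.P h t).Pr (Rm t) ≤ MT)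
    (hNM : NT ≤ MT) :
    ∃ Dv : ℕ → ℝ, (∀ t, 0 ≤ Dv t) ∧ (∀ t < T, ∀ g : Pt (Fin 3) X β φ → ℝ,
      Fac (fun w => (tup (FQ v t) w, VZ D v s t w)) g → (∀ w, |g w| ≤ 1) →
        |(D.P h t).E (fun w => ind (A t w ∧ E t w) * (g w - (D.P h t).ce (VZ D v s t) g w))| ≤ Dv t) ∧
      ∑ t ∈ range T, Dv t ≤ 4 * (D.P h T).Pr (fun w => ¬ Ar h v ap (2 * T) w) +
        (52 * (NT * Real.sqrt ((Real.log (MT / NT) + (Lam + 1)) / n)) + 6 * Real.exp (-n) * MT) := by
  obtain ⟨Dv, d0, d1, d2⟩ := dev_sum p H R s b hs hA hAr hE hRm hER hNT hMT hNM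
  refine ⟨fun t => Dv t + 2 * (D.P h (t + 1)).Pr (fun w => Ar h v ap (2 * t + 1) w ∧ ¬ Ar h v ap (2 * (t + 1)) w),
    fun t => add_nonneg (d0 t) (mul_nonneg (by norm_num) (FP.Pr_nonneg _ _)), fun t ht g hg hb => ?_, ?_⟩
  · refine (dev_near (hEE t ht) hb (d1 t ht g hg hb)).trans ?_
    have h1 : (D.P h t).Pr (fun w => A t w ∧ ¬ Ar h v ap (2 * (t + 1)) w) ≤
        (D.P h t).Pr (fun w => Ar h v ap (2 * t + 1) w ∧ ¬ Ar h v ap (2 * (t + 1)) w) :=
      FP.Pr_mono _ fun w _ hw => ⟨hAr t ht w hw.1, hw.2⟩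
    have h2 : (D.P h t).Pr (fun w => Ar h v ap (2 * t + 1) w ∧ ¬ Ar h v ap (2 * (t + 1)) w) =
        (D.P h (t + 1)).Pr (fun w => Ar h v ap (2 * t + 1) w ∧ ¬ Ar h v ap (2 * (t + 1)) w) :=
      Pr_xy' (fun x y F F' => by
        show (_ ∧ ¬ _) = (_ ∧ ¬ _)
        rw [Ar_xy (h := h) (v := v) ap (2 * t + 1) x y F F', Ar_xy (h := h) (v := v) ap (2 * (t + 1)) x y F F']) t (t + 1)
    linarith
  · rw [Finset.sum_add_distrib, ← Finset.mul_sum]
    have h3 := sum_killT (h := h) (v := v) H ap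
    linarith

end run

end TriB

end

end Pool.Agent.GMH.TP
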