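import Pool.Agent.GMH.Three

/-!
# GMH/Two (helper99): the two-body case with static bad points of one side (note 3936 (5))

Exact `b`.  `U` (side `c`), `V` (side `d`) independent, `cU`, `cV` their cells, `σ` a stopping time of the nodes, `bd a` = the
point `a` of the side `U` is bad (static), `F c y` signed, `F ≤ L`, `x : Fin M → α` sampled rows.

* `T2 s` : `P (bd | cell of U at a time ≤ s) > q`; `rl2 s` : released at the time `s` = the first time of `T2` and no row of
  the sample has deviated (`> lam`) up to `s`;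
* `two_main` : unreleased bad part unsigned + released part signed;
* `T2_pay` : `q/2 P(T2 at σ) ≤ E g` for every `g ≥ 0`, `g ≥ density at σ - q/2`.
-/

set_option autoImplicit false
set_option linter.unusedSectionVars false

namespace Pool.Agent.GMH.Three

open Finset Pool.Agent.PWZ Pool.Agent.M3 Pool.Agent.GMH.Gdy Pool.Agent.GMH.CR

noncomputable section

variable {Om : Type*} [Fintype Om] {P : FP Om} {κ κ' : ℕ → Type*} {cU : ∀ t, Om → κ t} {cV : ∀ t, Om → κ' t}
  {α ω : Type*} {U : Om → α} {V : Om → ω} {F : α → ω → ℝ} {bd : α → Prop} {q lam L h : ℝ} {σ : Om → ℕ} {T : ℕ}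

variable (P cU U) in
/-- the density of the bad points has been more than `q` at a time `≤ s` -/
def T2 (bd : α → Prop) (q : ℝ) (s : ℕ) (w : Om) : Prop := ∃ s' ≤ s, q < cp P cU s' (fun v => bd (U v)) w

theorem T2_mono {s s' : ℕ} (hs : s ≤ s') {w : Om} (h : T2 P cU U bd q s w) : T2 P cU U bd q s' w := by
  obtain ⟨t, ht, h'⟩ := h
  exact ⟨t, ht.trans hs, h'⟩

theorem T2_fac (fU : Filt cU) {s : ℕ} {v w : Om} (h1 : cU s v = cU s w) :
    T2 P cU U bd q s v ↔ T2 P cU U bd q s w := by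
  unfold T2
  refine exists_congr fun s' => and_congr_right fun hs' => ?_
  rw [cp_fac s' _ v w (fU.le hs' v w h1)]

theorem fstT2_fac (fU : Filt cU) {s : ℕ} {v w : Om} (h1 : cU s v = cU s w) :
    fst (T2 P cU U bd q) s v ↔ fst (T2 P cU U bd q) s w := by
  unfold fst
  rw [T2_fac fU h1]
  exact and_congr_right fun _ => forall_congr' fun s' => forall_congr' fun hs' =>
    not_congr (T2_fac fU (fU.le hs'.le v w h1))

variable (P cU cV U V F) in
/-- released at the time `s` -/
def rl2 (bd : α → Prop) (q lam : ℝ) {M : ℕ} (x : Fin M → α) (s : ℕ) (w : Om) : Prop :=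
  bd (U w) ∧ fst (T2 P cU U bd q) s w ∧ ¬ dY P cV V F lam x s w

/-- **the two-body case** -/
theorem two_main (hI : P.Indep U V) (hU : ∀ s, Fac U (cU s)) (hV : ∀ s, Fac V (cV s)) (fU : Filt cU) (fV : Filt cV)
    (h0 : 0 ≤ h) (hm : ∀ s w, P.p w ≠ 0 → P.m (cU s) w ≤ h * P.m (cU (s + 1)) w) (hσ : Stp (pair cU cV) σ)
    (hT : ∀ w, σ w < T) (q0 : 0 ≤ q) (l0 : 0 ≤ lam) (L0 : 0 ≤ L) (hL : ∀ c y, F c y ≤ L) {M : ℕ} (x : Fin M → α)
    {G : ℕ → Om → ℝ} (hG : ∀ s, Fac (fun w => (cU s w, V w)) (G s)) (hG0 : ∀ s w, 0 ≤ G s w)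
    (hG1 : ∀ s w, G s w ≤ 1) :
    L * P.E (fun w => ind (bd (U w) ∧ ¬ ∃ s ≤ σ w, rl2 P cU cV U V F bd q lam x s w) * G (σ w) w) +
        P.E (fun w => ind (∃ s ≤ σ w, rl2 P cU cV U V F bd q lam x s w) * F (U w) (V w)) ≤
      L * q * P.E (fun w => G (σ w) w) + L * (h * q) * P.Pr (fun w => dY P cV V F lam x (σ w) w) +
        lam * (h * q) * P.Pr (fun w => T2 P cU U bd q (σ w) w) +
        L * (P.Pr (dY P cV V F lam x 0) + P.Pr (fd P cV U V F lam x T)) + lam * P.Pr (T2 P cU U bd q 0) := by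
  classical
  have hsσ : ∀ s v w, cU s v = cU s w → cV s v = cV s w → (s ≤ σ v ↔ s ≤ σ w) := fun s v w e1 e2 =>
    Stp.le_fac (pair_filt fU fV) hσ s (pair_eq.2 ⟨e1, e2⟩)
  -- (0) the time has not come
  have u0 : P.E (fun w => ind (¬ T2 P cU U bd q (σ w) w) * ind (bd (U w)) * G (σ w) w) ≤
      q * P.E (fun w => G (σ w) w) := by
    rw [E_stop hT (fun s w => ind (¬ T2 P cU U bd q s w) * ind (bd (U w)) * G s w), E_stop hT G, Finset.mul_sum]
    refine Finset.sum_le_sum fun s _ => ?_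
    have h1 := E_row_le (P := P) (U := U) (V := V) (cU := cU) (cV := cV) hI hU hV s
      (Q := fun _ v => bd (U v)) (fun c v w e => by simp only [e])
      (e := fun w => ind (σ w = s) * (ind (¬ T2 P cU U bd q s w) * G s w)) (fun v w a => by
        have a' : pair cV cU s v = pair cV cU s w ∧ V v = V w := Prod.mk.injEq _ _ _ _ ▸ a
        have a1 := pair_eq.1 a'.1
        have a2 := Stp.eq_fac (pair_filt fU fV) hσ s v w (pair_eq.2 ⟨a1.2, a1.1⟩)
        show ind (σ v = s) * (ind (¬ T2 P cU U bd q s v) * G s v) = ind (σ w = s) * (ind (¬ T2 P cU U bd q s w) * G s w)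
        have a3 : G s v = G s w := hG s v w (by
          show (cU s v, V v) = (cU s w, V w)
          rw [a1.2, a'.2])
        rw [show ind (σ v = s) = ind (σ w = s) from a2, propext (T2_fac (P := P) (bd := bd) (q := q) (U := U) fU a1.2),
          a3])
      (fun w => mul_nonneg (ind_nonneg _) (mul_nonneg (ind_nonneg _) (hG0 s w))) (q := q) (fun w hw he => by
        have h2 : ¬ T2 P cU U bd q s w := by
          intro h3
          refine he ?_
          rw [ind_not (not_not.2 h3)]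
          ring
        by_contra hcon
        exact h2 ⟨s, le_rfl, not_le.1 hcon⟩)
    refine le_trans (le_of_eq (P.E_congr fun w _ => ?_)) (h1.trans (mul_le_mul_of_nonneg_left
      (P.E_mono fun w _ => mul_le_mul_of_nonneg_left (mul_le_of_le_one_left (hG0 s w) (ind_le_one _))
        (ind_nonneg _)) q0))
    ring
  -- bad at a first time of a family of events of `V`, before the density is large
  have gen : ∀ A : ℕ → Om → Prop, (∀ s, ∀ s' ≤ s, ∀ v w, cU s v = cU s w → cV s v = cV s w → (A s' v ↔ A s' w)) →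
      P.E (fun w => ind (∃ s, (fst A s w ∧ ∀ s' < s, ¬ T2 P cU U bd q s' w) ∧ s ≤ σ w) * ind (bd (U w))) ≤
        h * q * P.Pr (fun w => ∃ s, (fst A s w ∧ ∀ s' < s, ¬ T2 P cU U bd q s' w) ∧ s ≤ σ w) + P.Pr (A 0) := by
    intro A hA
    have h1 := next_le (P := P) (U := U) (V := V) (cU := cU) (cV := cV) hI hU hV fU (R := fun _ v => bd (U v))
      (fun c v w e => by simp only [e]) h0 q0 hm
      (f := fun s w => (fst A s w ∧ ∀ s' < s, ¬ T2 P cU U bd q s' w) ∧ s ≤ σ w) (fun s v w e _ => by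
        have e1 := pair_eq.1 e
        have hAs : fst A s v ↔ fst A s w := by
          unfold fst
          rw [hA s s le_rfl v w e1.2 e1.1]
          exact and_congr_right fun _ => forall_congr' fun s' => forall_congr' fun hs' =>
            not_congr (hA s s' hs'.le v w e1.2 e1.1)
        rw [hAs, hsσ s v w e1.2 e1.1]
        refine and_congr_left fun _ => and_congr_right fun _ => forall_congr' fun s' => forall_congr' fun hs' => ?_
        rw [T2_fac fU (fU.le hs'.le v w e1.2)])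
      (fun w s s' a b => fst_one s s' a.1.1 b.1.1) (T := T) (fun s w a => by have := hT w; have := a.2; omega)
      (fun s w hw a => by
        by_contra hcon
        exact a.1.2 s (Nat.lt_succ_self s) ⟨s, le_rfl, not_le.1 hcon⟩)
    exact h1.trans (add_le_add le_rfl (P.Pr_mono fun w _ a => a.1.1.1))
  have u1 := gen (dY P cV V F lam x) (fun s s' hs v w _ e2 => dY_iff fV (fV.le hs v w e2))
  have u2 := gen (T2 P cU U bd q) (fun s s' hs v w e1 _ => T2_fac fU (fU.le hs v w e1))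
  have e2 : ∀ w, (∃ s, (fst (T2 P cU U bd q) s w ∧ ∀ s' < s, ¬ T2 P cU U bd q s' w) ∧ s ≤ σ w) ↔
      T2 P cU U bd q (σ w) w := by
    intro w
    rw [← ex_fst (A := T2 P cU U bd q) (fun s s' hs => T2_mono hs) (σ w)]
    exact ⟨fun ⟨s, a, b⟩ => ⟨s, a.1, b⟩, fun ⟨s, a, b⟩ => ⟨s, ⟨a, a.2⟩, b⟩⟩
  simp only [e2] at u2
  set Ed : Om → Prop := fun w => ∃ s, (fst (dY P cV V F lam x) s w ∧ ∀ s' < s, ¬ T2 P cU U bd q s' w) ∧ s ≤ σ w
    with hEd
  have hEdP : P.Pr Ed ≤ P.Pr (fun w => dY P cV V F lam x (σ w) w) := P.Pr_mono fun w _ ⟨s, a, b⟩ => dY_mono b a.1.1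
  -- the unsigned part
  have pw : ∀ w, ind (bd (U w) ∧ ¬ ∃ s ≤ σ w, rl2 P cU cV U V F bd q lam x s w) * G (σ w) w ≤
      ind (¬ T2 P cU U bd q (σ w) w) * ind (bd (U w)) * G (σ w) w + ind (Ed w) * ind (bd (U w)) := by
    intro w
    have g0 := hG0 (σ w) w
    have g1 := hG1 (σ w) w
    have p0 : 0 ≤ ind (¬ T2 P cU U bd q (σ w) w) * ind (bd (U w)) * G (σ w) w :=
      mul_nonneg (mul_nonneg (ind_nonneg _) (ind_nonneg _)) g0
    have p1 : 0 ≤ ind (Ed w) * ind (bd (U w)) := mul_nonneg (ind_nonneg _) (ind_nonneg _)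
    by_cases h1 : bd (U w) ∧ ¬ ∃ s ≤ σ w, rl2 P cU cV U V F bd q lam x s w
    · rw [ind_of h1, one_mul]
      by_cases h2 : T2 P cU U bd q (σ w) w
      · obtain ⟨s, hs, hf⟩ := fst_ex (A := T2 P cU U bd q) h2
        have h3 : dY P cV V F lam x s w := by
          by_contra hcon
          exact h1.2 ⟨s, hs, h1.1, hf, hcon⟩
        obtain ⟨s1, hs1, hf1⟩ := fst_ex (A := dY P cV V F lam x) h3
        have hE : Ed w := ⟨s1, ⟨hf1, fun s' hs' => hf.2 s' (by omega)⟩, by omega⟩
        have e1 : ind (Ed w) * ind (bd (U w)) = 1 := by rw [ind_of hE, ind_of h1.1, one_mul]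
        linarith
      · have e1 : ind (¬ T2 P cU U bd q (σ w) w) * ind (bd (U w)) * G (σ w) w = G (σ w) w := by
          rw [ind_of h2, ind_of h1.1, one_mul, one_mul]
        linarith
    · rw [ind_not h1, zero_mul]
      linarith
  have big := P.E_mono (fun w _ => pw w)
  rw [FP.E_add] at big
  -- the signed part
  have sg := rel_le (P := P) (F := F) (lam := lam) hI hU hV hL l0
    (e := fun s w => ind (rl2 P cU cV U V F bd q lam x s w ∧ s ≤ σ w)) (fun s => Fac.ind fun v w a => by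
      have a' : pair cU cV s v = pair cU cV s w ∧ U v = U w := Prod.mk.injEq _ _ _ _ ▸ a
      have a1 := pair_eq.1 a'.1
      unfold rl2
      rw [a'.2, fstT2_fac fU a1.1, dY_iff fV a1.2, hsσ s v w a1.1 a1.2]) (fun s w => ind_nonneg _) T
  have hone : ∀ w s s', (rl2 P cU cV U V F bd q lam x s w ∧ s ≤ σ w) → (rl2 P cU cV U V F bd q lam x s' w ∧ s' ≤ σ w) →
      s = s' := fun w s s' a b => fst_one s s' a.1.2.1 b.1.2.1
  have hlt : ∀ w s, (rl2 P cU cV U V F bd q lam x s w ∧ s ≤ σ w) → s < T := fun w s a => by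
    have := hT w
    have := a.2
    omega
  have h2 : ∀ w, ∑ s ∈ range T, ind (rl2 P cU cV U V F bd q lam x s w ∧ s ≤ σ w) =
      ind (∃ s ≤ σ w, rl2 P cU cV U V F bd q lam x s w) := fun w => by
    rw [sum_ind' (hone w) (hlt w)]
    congr 1
    exact propext (exists_congr fun s => and_comm)
  have h3 : P.E (fun w => ∑ s ∈ range T, ind (rl2 P cU cV U V F bd q lam x s w ∧ s ≤ σ w) *
      ind (lam < ru P cV V F (U w) s w)) ≤ P.Pr (fd P cV U V F lam x T) := by
    unfold FP.Pr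
    refine P.E_mono fun w _ => ?_
    have e1 : ∀ s ∈ range T, ind (rl2 P cU cV U V F bd q lam x s w ∧ s ≤ σ w) * ind (lam < ru P cV V F (U w) s w) =
        ind ((rl2 P cU cV U V F bd q lam x s w ∧ s ≤ σ w) ∧ lam < ru P cV V F (U w) s w) := fun s _ =>
      (ind_and _ _).symm
    rw [Finset.sum_congr rfl e1, sum_ind' (A := fun s => (rl2 P cU cV U V F bd q lam x s w ∧ s ≤ σ w) ∧
      lam < ru P cV V F (U w) s w) (fun s s' a b => hone w s s' a.1 b.1) (fun s a => hlt w s a.1)]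
    refine ind_mono ?_
    rintro ⟨s, a, b⟩
    exact ⟨s, hlt w s a, b, a.1.2.2⟩
  simp only [h2] at sg
  have sg2 : P.E (fun w => ind (∃ s ≤ σ w, rl2 P cU cV U V F bd q lam x s w)) ≤
      P.E (fun w => ind (T2 P cU U bd q (σ w) w) * ind (bd (U w))) := by
    refine P.E_mono fun w _ => ?_
    by_cases h4 : ∃ s ≤ σ w, rl2 P cU cV U V F bd q lam x s w
    · rw [ind_of h4]
      obtain ⟨s, hs, h5⟩ := h4
      rw [ind_of (T2_mono hs h5.2.1.1), ind_of h5.1, one_mul]
    · rw [ind_not h4]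
      exact mul_nonneg (ind_nonneg _) (ind_nonneg _)
  have hq' : 0 ≤ h * q := mul_nonneg h0 q0
  have m1 := mul_le_mul_of_nonneg_left big L0
  have m2 := mul_le_mul_of_nonneg_left hEdP (mul_nonneg L0 hq')
  have m3 := mul_le_mul_of_nonneg_left u0 L0
  have m4 := mul_le_mul_of_nonneg_left u1 L0
  have m5 := mul_le_mul_of_nonneg_left h3 L0
  have m6 := mul_le_mul_of_nonneg_left sg2 l0
  have m7 := mul_le_mul_of_nonneg_left u2 l0
  linarith

/-- **the payment of the time `T2`** -/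
theorem T2_pay (hI : P.Indep U V) (hU : ∀ s, Fac U (cU s)) (hV : ∀ s, Fac V (cV s)) (fU : Filt cU) (fV : Filt cV)
    (hσ : Stp (pair cU cV) σ) (hT : ∀ w, σ w < T) {g : Om → ℝ} (hg0 : ∀ w, P.p w ≠ 0 → 0 ≤ g w)
    (hg : ∀ w, P.p w ≠ 0 → cp P cU (σ w) (fun v => bd (U v)) w - q / 2 ≤ g w) :
    q / 2 * P.Pr (fun w => T2 P cU U bd q (σ w) w) ≤ P.E g := by
  classical
  obtain ⟨w0⟩ : Nonempty Om := by
    by_contra hcon
    have h1 := P.tot
    rw [not_nonempty_iff] at hcon
    simp at h1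
  have h2 := pay_le (P := P) (U := V) (V := U) (cU := cV) (cV := cU) (F := fun (_ : ω) a => ind (bd a)) (lam := q)
    hI.symm hV hU fV fU (M := 1) (fun _ => V w0) (σ := σ) (T := T) hσ.swap hT (g := g) hg0 (fun i w hw => hg w hw)
  refine le_trans (le_of_eq ?_) h2
  congr 1
  refine P.Pr_congr fun w hw => ?_
  unfold T2 dY
  exact exists_congr fun s' => and_congr_right fun _ => ⟨fun h' => ⟨0, h'⟩, fun ⟨_, h'⟩ => h'⟩

end

end Pool.Agent.GMH.Three
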