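import Pool.Agent.GMH.TabZ
import Pool.Agent.GMH.Unm

/-!
# GMH/UV0 (helper85): THE ZONES, INPUT (I2) OF GMH/Unm (H3.UNM, U.5), over `US` on the table space

`OnTab M tb tm` : `M.P = Ps`, the sight `M.S E s` = hidden point, exact points of `E`, cells of the time `tm s`.
`Rl` : `R τ` = raw relation of the tables of `τ` (a kind or a larger relation), `rel v τ` = relation whose density at the exact
`v` is `Mx`, `rln τ` = relation at the node, vertices `Vk`.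
* `zzn` : `T^0 = s` in the epoch `n`; `ubn v` : `v` undecided, life not younger than the public start; `Rsn` : the raw relation
  of the public tables and of the lives of `Vk`; `An` : all together;
* `exc_v`, `exc_0` : at `T^0` the density of `Rsn` at an undecided vertex is at most `8 uB` (at the node `8 u0`), except if
  `T^0 = n`;
* `zn` : the zone `TabZ.Zn`; `start_avg` : mean over the worlds of the starts;
* `r0_sum`, `gx_sum`, `h_sum`, `ht_sum` : the sums over all starts `n < T`, in the mean over the samples.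
-/

set_option autoImplicit false
set_option linter.unusedSectionVars false

namespace Pool.Agent.GMH.UV0

open Finset Pool.Agent.PWZ Pool.Agent.M3 Pool.Agent.GM Pool.Agent.GM.Harm Pool.Agent.GMH
open Pool.Agent.GMH.Gdy Pool.Agent.GMH.Dy Pool.Agent.GMH.TabF Pool.Agent.GMH.Blk Pool.Agent.GMH.GhoZ3
open Pool.Agent.GMH.TabZ (Zn V3 TR TOk TOkr Nm mcR mcG mcU)
open Pool.Agent.GMH.MV Pool.Agent.GMH.CK
open Pool.Agent.GMH.UV (US Kd Seen Mx M0 Z0 zt blk dd bet tkx Rn tv Prv)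

noncomputable section

variable {X β γ φ : Type} [Fintype X] [Fintype β] [Fintype φ] [Nonempty X] [Nonempty β]
variable {D : HD (Fin 3) X β γ φ} {al : ℝ} {prr : ℕ → Fin 3 → φ → φ} {T0 : ℕ} {W : Type} [Fintype W]
variable {tb : Tab D prr T0 W} {M : US (Om W X β)} {tm : ℕ → ℕ} {Q : Kd (Om W X β)} {T n : ℕ} {z : Om W X β}

/-- the sights of `US` are the sights of the table space, `tm s` = time of the substep `s` -/
structure OnTab (M : US (Om W X β)) (tb : Tab D prr T0 W) (tm : ℕ → ℕ) : Prop where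
  hP : M.P = tb.Ps
  hS : ∀ E s v w, M.S E s v = M.S E s w ↔ sgt D E (tm s) v = sgt D E (tm s) w
  ht : ∀ s, tm s ≤ tm (s + 1)
  ht1 : ∀ s, tm (s + 1) ≤ tm s + 1

theorem OnTab.mono (h : OnTab M tb tm) {s s' : ℕ} (hs : s ≤ s') : tm s ≤ tm s' := by
  induction hs with
  | refl => exact le_rfl
  | step _ ih => exact ih.trans (h.ht _)

/-- halving -/
theorem OnTab.half (h : OnTab M tb tm) {dg : ℕ → X → ℝ} {Lam : ℝ} (H : D.Hyp dg prr al T0 Lam) (E E0 : Finset (Fin 3))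
    (s : ℕ) (h3 : tm (s + 1) ≤ T0) {w : Om W X β} (hw : (WE tb E0 n z).p w ≠ 0) :
    (WE tb E0 n z).m (sgt D E (tm s)) w ≤ 8 * (WE tb E0 n z).m (sgt D E (tm (s + 1))) w := by
  have h1 := h.ht s
  have h2 := h.ht1 s
  rcases Nat.lt_or_ge (tm s) (tm (s + 1)) with h4 | h4
  · have h5 : tm (s + 1) = tm s + 1 := by omega
    rw [h5]
    exact WE_half tb H (by omega) hw
  · have h5 : tm (s + 1) = tm s := by omega
    rw [h5]
    have := ((WE tb E0 n z).m_pos (sgt D E (tm s)) hw).le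
    linarith

variable (M Q) in
/-- the relations -/
structure Rl (R : ℕ → Om W X β → Prop) (rel : Fin 3 → ℕ → Om W X β → Prop) (rln : ℕ → Om W X β → Prop)
    (Vk : Finset (Fin 3)) : Prop where
  hMx : ∀ v ∈ Vk, ∀ s w, M.P.ce (M.S {v} s) (fun u => ind (rel v (tv M v s w) u)) w ≤ Mx M Q v s w
  hM0 : ∀ s w, M.P.ce (M.S ∅ s) (fun u => ind (rln (nu M.toMS s w) u)) w ≤ M0 M Q s w
  hn : ∀ τ w, R τ w → rln τ w
  hpv : Prv M Q

variable (M Q T n) in
/-- `T^0 = s < T` in the public epoch `n` -/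
def zzn (s : ℕ) (w : Om W X β) : Prop := s < T ∧ nu M.toMS s w = n ∧ zt M Q s w

variable (M Q n) in
/-- `v` is undecided, its life is not younger than the public start -/
def ubn (v : Fin 3) (s : ℕ) (w : Om W X β) : Prop := ¬ bet M Q v s w ∧ ¬ M.ex v s w ∧ tv M v s w ≤ n

variable (M n) in
/-- raw relation of the public tables and of the lives -/
def Rsn (R : ℕ → Om W X β → Prop) (rel : Fin 3 → ℕ → Om W X β → Prop) (Vk : Finset (Fin 3)) (s : ℕ)
    (w : Om W X β) : Prop :=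
  R n w ∧ ∀ v ∈ Vk, rel v (tv M v s w) w

variable (M Q T n) in
/-- the tuples of the zone -/
def An (R : ℕ → Om W X β → Prop) (rel : Fin 3 → ℕ → Om W X β → Prop) (Vk : Finset (Fin 3)) (s : ℕ)
    (w : Om W X β) : Prop :=
  zzn M Q T n s w ∧ (∀ v ∈ Vk, ubn M Q n v s w) ∧ Rsn M n R rel Vk s w

variable {R : ℕ → Om W X β → Prop} {rel : Fin 3 → ℕ → Om W X β → Prop} {rln : ℕ → Om W X β → Prop}
  {Vk : Finset (Fin 3)}

theorem zzn_le {s : ℕ} {w : Om W X β} (h : zzn M Q T n s w) : n ≤ s := by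
  rw [← h.2.1]
  exact stg_le _ _

theorem zzn_one (w : Om W X β) (s s' : ℕ) (h : zzn M Q T n s w) (h' : zzn M Q T n s' w) : s = s' :=
  UV.zt_one h.2.2 h'.2.2 (h.2.1.trans h'.2.1.symm)

theorem zzn_S (hO : OnTab M tb tm) (H : Seen M) (s : ℕ) (x w : Om W X β)
    (e : sgt D ∅ (tm s) x = sgt D ∅ (tm s) w) : zzn M Q T n s x ↔ zzn M Q T n s w := by
  have e0 : M.S ∅ s x = M.S ∅ s w := (hO.hS ∅ s x w).2 e
  unfold zzn
  rw [UV.nu_S H le_rfl x w e0, UV.zt_S H le_rfl e0]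

theorem ubn_S (hO : OnTab M tb tm) (H : Seen M) (v : Fin 3) (s : ℕ) (x w : Om W X β)
    (e : sgt D {v} (tm s) x = sgt D {v} (tm s) w) : ubn M Q n v s x ↔ ubn M Q n v s w := by
  have e0 : M.S {v} s x = M.S {v} s w := (hO.hS {v} s x w).2 e
  unfold ubn
  rw [UV.bet_S H v le_rfl e0, UV.tau_S H v le_rfl x w e0, show M.ex v s x = M.ex v s w from M.exS v s x w e0]

/-- **the zone of the epoch `n`** -/
theorem zn (hO : OnTab M tb tm) (H : Seen M) (R : ℕ → Om W X β → Prop) (rel : Fin 3 → ℕ → Om W X β → Prop)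
    (Vk : Finset (Fin 3)) :
    Zn D tm T (zzn M Q T n) (Rsn M n R rel Vk) (An M Q T n R rel Vk) (ubn M Q n) Vk where
  ht := hO.ht
  z1 := zzn_one
  zT := fun _ _ a => a.1
  hz := zzn_S hO H
  hu := fun v _ => ubn_S hO H v
  Az := fun _ _ a => a.1
  Au := fun v hv _ _ a => a.2.1 v hv
  AR := fun _ _ a => a.2.2

/-- conditional means in the world of the start -/
theorem ce_M (hO : OnTab M tb tm) {E0 E : Finset (Fin 3)} (hE : E0 ⊆ E) {s : ℕ} (hs : n ≤ s) {w : Om W X β}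
    (hw : (WE tb E0 (tm n) z).p w ≠ 0) (f : Om W X β → ℝ) :
    (WE tb E0 (tm n) z).ce (sgt D E (tm s)) f w = M.P.ce (M.S E s) f w := by
  rw [WE_ce tb hE (hO.mono hs) f hw, hO.hP]
  exact (tb.Ps.ce_congr_map (fun v w e => (hO.hS E s v w).1 e) (fun v w e => (hO.hS E s v w).2 e) f w).symm

/-- the density of `Rsn` at an exact vertex of the kind -/
theorem cp_Rsn (hO : OnTab M tb tm) (H : Seen M) {v : Fin 3} (hv : v ∈ Vk) {s : ℕ}
    (hs : n ≤ s) {w : Om W X β} (hw : (WE tb ∅ (tm n) z).p w ≠ 0) :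
    cp (WE tb ∅ (tm n) z) (fun s => sgt D {v} (tm s)) s (Rsn M n R rel Vk s) w ≤
      M.P.ce (M.S {v} s) (fun u => ind (rel v (tv M v s w) u)) w := by
  have h1 : M.P.ce (M.S {v} s) (fun u => ind (rel v (tv M v s w) u)) w =
      (WE tb ∅ (tm n) z).ce (sgt D {v} (tm s)) (fun u => ind (rel v (tv M v s w) u)) w := by
    rw [ce_M hO (Finset.empty_subset _) hs hw]
  have h2 : cp (WE tb ∅ (tm n) z) (fun s => sgt D {v} (tm s)) s (Rsn M n R rel Vk s) w =
      cp (WE tb ∅ (tm n) z) (fun s => sgt D {v} (tm s)) s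
        (fun u => Rsn M n R rel Vk s u ∧ rel v (tv M v s w) u) w := by
    refine cp_congr_on fun u _ hu => ⟨fun a => ⟨a, ?_⟩, fun a => a.1⟩
    have h3 := a.2 v hv
    rwa [UV.tau_S H v le_rfl u w ((hO.hS {v} s u w).2 hu)] at h3
  rw [h1, h2]
  exact cp_mono (fun u a => a.2) w

/-- a density at a later time -/
theorem M_up (hO : OnTab M tb tm) {dg : ℕ → X → ℝ} {Lam : ℝ} (H : D.Hyp dg prr al T0 Lam) (E : Finset (Fin 3)) {s : ℕ}
    (h3 : tm (s + 1) ≤ T0) {w : Om W X β} (hw : tb.Ps.p w ≠ 0) (A : Om W X β → Prop) :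
    M.P.ce (M.S E (s + 1)) (fun u => ind (A u)) w ≤ 8 * M.P.ce (M.S E s) (fun u => ind (A u)) w := by
  have e : ∀ s, M.P.ce (M.S E s) (fun u => ind (A u)) w = cp tb.Ps (fun s => sgt D E (tm s)) s A w := fun s => by
    rw [hO.hP]
    exact tb.Ps.ce_congr_map (fun v w e => (hO.hS E s v w).1 e) (fun v w e => (hO.hS E s v w).2 e) _ w
  rw [e, e]
  refine cp_ratio (P := tb.Ps) (Y := fun s => sgt D E (tm s)) (h := 8) (s := s) (t := s + 1) ?_ hw ?_ A
  · exact fun v w e => by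
      rw [sgt_eq] at e ⊢
      exact ⟨e.1, e.2.1, fun j => Dy.qb_mono (hO.ht s) (e.2.2 j)⟩
  · have h1 := hO.ht s
    have h2 := hO.ht1 s
    rcases Nat.lt_or_ge (tm s) (tm (s + 1)) with h4 | h4
    · have h5 : tm (s + 1) = tm s + 1 := by omega
      rw [h5]
      have h6 := sgt_half tb H E (n := tm s) (by omega) hw
      have h7 : (2 : ℝ) ^ (Eᶜ.card) ≤ 8 := by
        have h8 : (Eᶜ).card ≤ 3 := by
          have := Finset.card_le_univ Eᶜ
          rwa [Fintype.card_fin] at this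
        calc (2 : ℝ) ^ (Eᶜ.card) ≤ 2 ^ 3 := pow_le_pow_right₀ (by norm_num) h8
          _ = 8 := by norm_num
      exact h6.trans (mul_le_mul_of_nonneg_right h7 (tb.Ps.m_pos _ hw).le)
    · have h5 : tm (s + 1) = tm s := by omega
      rw [h5]
      have := (tb.Ps.m_pos (sgt D E (tm s)) hw).le
      linarith

/-- **AT `T^0` THE DENSITY AT AN UNDECIDED VERTEX IS AT MOST `8 uB`**, except if `T^0 = n` -/
theorem exc_v (hO : OnTab M tb tm) (H : Seen M) {dg : ℕ → X → ℝ} {Lam : ℝ} (HD : D.Hyp dg prr al T0 Lam)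
    (hTs : tm T ≤ T0) (hr : Rl M Q R rel rln Vk) {v : Fin 3} (hv : v ∈ Vk) :
    exc (WE tb ∅ (tm n) z) (zzn M Q T n) (fun s => sgt D {v} (tm s)) (Rsn M n R rel Vk) (ubn M Q n v)
      (8 * Q.uB) ≤ (WE tb ∅ (tm n) z).Pr (fun w => zzn M Q T n n w ∧ R n w) := by
  refine FP.Pr_mono _ fun w hw => ?_
  rintro ⟨s, ⟨hz, hu⟩, hb, hR⟩
  have hns := zzn_le hz
  rcases hns.eq_or_lt with h0 | h0
  · rw [← h0] at hz
    exact ⟨hz, hR.1⟩
  exfalso
  obtain ⟨s', rfl⟩ : ∃ s', s = s' + 1 := ⟨s - 1, by omega⟩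
  have hn' : n ≤ s' := by omega
  have hnu : nu M.toMS s' w = n := stg_mid (C := C0 M.toMS) hz.2.1 hn' (Nat.le_succ s')
  have htau : tv M v s' w = tv M v (s' + 1) w :=
    stg_mid (C := M.Cv v) rfl (hu.2.2.trans hn') (Nat.le_succ s')
  have h1 : ¬ dd M Q v s' w := fun h => hu.1 ⟨s', hu.2.2.trans hn', Nat.le_succ s', h⟩
  have h2 : ¬ blk M Q v s' w := by
    rintro ⟨⟨r, a, b, c⟩, -⟩
    rw [hnu] at a
    exact hz.2.2.2 r (by rw [hz.2.1]; exact a) (by omega) c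
  have hMp : M.P.p w ≠ 0 := by
    rw [hO.hP]
    exact ((WE_supp tb).1 hw).1
  have h3 : Mx M Q v s' w < Q.uB :=
    hr.hpv.prev hMp (lt_of_le_of_lt hu.2.2 (by omega)) h1 h2 hu.2.1
  have hT1 : tm (s' + 1) ≤ T0 := (hO.mono hz.1.le).trans hTs
  have h4 := cp_Rsn (z := z) (R := R) (rel := rel) hO H hv hns hw
  have h5 := M_up hO HD {v} hT1 ((WE_supp tb).1 hw).1 (rel v (tv M v (s' + 1) w))
  have h6 := hr.hMx v hv s' w
  rw [htau] at h6
  linarith

/-- **AT `T^0` THE DENSITY AT THE NODE IS AT MOST `8 u0`**, except if `T^0 = n` -/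
theorem exc_0 (hO : OnTab M tb tm) {dg : ℕ → X → ℝ} {Lam : ℝ} (HD : D.Hyp dg prr al T0 Lam)
    (hTs : tm T ≤ T0) (hr : Rl M Q R rel rln Vk) :
    exc (WE tb ∅ (tm n) z) (zzn M Q T n) (fun s => sgt D ∅ (tm s)) (Rsn M n R rel Vk) (fun _ _ => True)
      (8 * Q.u0) ≤ (WE tb ∅ (tm n) z).Pr (fun w => zzn M Q T n n w ∧ R n w) := by
  refine FP.Pr_mono _ fun w hw => ?_
  rintro ⟨s, ⟨hz, -⟩, hb, hR⟩
  have hns := zzn_le hz
  rcases hns.eq_or_lt with h0 | h0
  · rw [← h0] at hz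
    exact ⟨hz, hR.1⟩
  exfalso
  obtain ⟨s', rfl⟩ : ∃ s', s = s' + 1 := ⟨s - 1, by omega⟩
  have hn' : n ≤ s' := by omega
  have hnu : nu M.toMS s' w = n := stg_mid (C := C0 M.toMS) hz.2.1 hn' (Nat.le_succ s')
  have hMp : M.P.p w ≠ 0 := by
    rw [hO.hP]
    exact ((WE_supp tb).1 hw).1
  have h1 : M0 M Q s' w < Q.u0 :=
    hr.hpv.prev0 hMp (by rw [hz.2.1]; omega) (hz.2.2.2 s' (by rw [hz.2.1]; exact hn') (Nat.lt_succ_self s')) hz.2.2.1.2
  have h2 := hr.hM0 s' w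
  rw [hnu] at h2
  have hT1 : tm (s' + 1) ≤ T0 := (hO.mono hz.1.le).trans hTs
  have h3 := M_up (s := s') hO HD ∅ hT1 ((WE_supp tb).1 hw).1 (rln n)
  have h4 : cp (WE tb ∅ (tm n) z) (fun s => sgt D ∅ (tm s)) (s' + 1) (Rsn M n R rel Vk (s' + 1)) w ≤
      M.P.ce (M.S ∅ (s' + 1)) (fun u => ind (rln n u)) w := by
    rw [← ce_M (z := z) hO (Finset.Subset.refl _) hns hw]
    exact cp_mono (fun u a => hr.hn n u a.1) w
  linarith

/-! ## the sum over the starts -/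

/-- **mean over the worlds of the starts** -/
theorem start_avg (hO : OnTab M tb tm) (H : Seen M) (n : ℕ) (f : Om W X β → ℝ) :
    M.P.E (fun w => ind (nu M.toMS n w = n) * f w) =
      M.P.E (fun z => ind (nu M.toMS n z = n) * (WE tb ∅ (tm n) z).E f) := by
  rw [hO.hP, ← WE_avg tb ∅ (tm n) fun w => ind (nu M.toMS n w = n) * f w]
  refine tb.Ps.E_congr fun z _ => ?_
  rw [← FP.E_smul]
  refine FP.E_congr _ fun w hw => ?_
  rw [UV.nu_S H (E := ∅) le_rfl w z ((hO.hS ∅ n w z).2 ((WE_supp tb).1 hw).2)]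

theorem start_E (hO : OnTab M tb tm) (H : Seen M) (n : ℕ) (A : Om W X β → Prop) (f : Om W X β → ℝ) :
    M.P.E (fun w => ind (nu M.toMS n w = n ∧ A w) * f w) =
      M.P.E (fun z => ind (nu M.toMS n z = n) * (WE tb ∅ (tm n) z).E (fun w => ind (A w) * f w)) := by
  rw [← start_avg hO H n]
  exact M.P.E_congr fun w _ => by rw [ind_and, mul_assoc]

theorem start_Pr (hO : OnTab M tb tm) (H : Seen M) (n : ℕ) (A : Om W X β → Prop) :
    M.P.Pr (fun w => nu M.toMS n w = n ∧ A w) =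
      M.P.E (fun z => ind (nu M.toMS n z = n) * (WE tb ∅ (tm n) z).Pr A) := by
  unfold FP.Pr
  rw [← start_avg hO H n]
  exact M.P.E_congr fun w _ => by rw [ind_and]

/-- the number of the starts -/
def NS (M : US (Om W X β)) (T : ℕ) : ℝ := ∑ n ∈ range T, M.P.Pr (fun w => nu M.toMS n w = n)

/-- the number of the zones -/
def NZ (M : US (Om W X β)) (Q : Kd (Om W X β)) (T : ℕ) : ℝ :=
  ∑ n ∈ range T, M.P.Pr (fun w => nu M.toMS n w = n ∧ ∃ s, zzn M Q T n s w)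

/-- the number of the tuples of the relation in the zones -/
def NA (M : US (Om W X β)) (Q : Kd (Om W X β)) (T : ℕ) (R : ℕ → Om W X β → Prop)
    (rel : Fin 3 → ℕ → Om W X β → Prop) (Vk : Finset (Fin 3)) : ℝ :=
  ∑ n ∈ range T, M.P.Pr (fun w => nu M.toMS n w = n ∧ ∃ s, An M Q T n R rel Vk s w)

/-- zones at the very start -/
def NE (M : US (Om W X β)) (Q : Kd (Om W X β)) (T : ℕ) (R : ℕ → Om W X β → Prop) : ℝ :=
  ∑ n ∈ range T, M.P.Pr (fun w => nu M.toMS n w = n ∧ zzn M Q T n n w ∧ R n w)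

/-- a sum over the starts of a number of the world -/
def SW (M : US (Om W X β)) (tb : Tab D prr T0 W) (tm : ℕ → ℕ) (T : ℕ) (f : ℕ → FP (Om W X β) → ℝ) : ℝ :=
  ∑ n ∈ range T, M.P.E (fun z => ind (nu M.toMS n z = n) * f n (WE tb ∅ (tm n) z))

theorem NE_nonneg : 0 ≤ NE M Q T R := Finset.sum_nonneg fun _ _ => M.P.Pr_nonneg _

variable {w0 : Om W X β} {b c d : Fin 3} {k : Nm} {L : ℝ} {ψ : ℕ → Om W X β → ℝ} {t : ℕ → TR (Om W X β)}

/-- from the worlds to the sum -/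
theorem sum_le (hO : OnTab M tb tm) (H : Seen M) {F : ℕ → Om W X β → ℝ} {a1 a2 a3 a4 : ℝ} {g : ℕ → Om W X β → ℝ}
    {m : ℕ → FP (Om W X β) → ℝ}
    (h : ∀ n < T, ∀ z, (WE tb ∅ (tm n) z).E (F n) ≤ a1 * (WE tb ∅ (tm n) z).Pr (fun w => ∃ s, An M Q T n R rel Vk s w) +
      a2 * (WE tb ∅ (tm n) z).Pr (fun w => ∃ s, zzn M Q T n s w) + a3 + m n (WE tb ∅ (tm n) z) +
      a4 * (WE tb ∅ (tm n) z).Pr (fun w => zzn M Q T n n w ∧ R n w) + (WE tb ∅ (tm n) z).E (g n)) :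
    ∑ n ∈ range T, M.P.E (fun w => ind (nu M.toMS n w = n) * F n w) ≤
      a1 * NA M Q T R rel Vk + a2 * NZ M Q T + a3 * NS M T + SW M tb tm T m + a4 * NE M Q T R +
      ∑ n ∈ range T, M.P.E (fun w => ind (nu M.toMS n w = n) * g n w) := by
  unfold NA NZ NS SW NE
  simp only [Finset.mul_sum]
  rw [← Finset.sum_add_distrib, ← Finset.sum_add_distrib, ← Finset.sum_add_distrib, ← Finset.sum_add_distrib,
    ← Finset.sum_add_distrib]
  refine Finset.sum_le_sum fun n hn => ?_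
  rw [start_avg hO H, start_Pr hO H, start_Pr hO H, start_Pr hO H, start_avg hO H (f := g n),
    show M.P.Pr (fun w => nu M.toMS n w = n) = M.P.E (fun z => ind (nu M.toMS n z = n)) from rfl]
  simp only [← FP.E_smul M.P]
  rw [← FP.E_add, ← FP.E_add, ← FP.E_add, ← FP.E_add, ← FP.E_add]
  refine M.P.E_mono fun z _ => ?_
  refine (mul_le_mul_of_nonneg_left (h n (mem_range.1 hn) z) (ind_nonneg (nu M.toMS n z = n))).trans (le_of_eq ?_)
  ring

/-- **KIND `R0` AT THE ZONES**: five covers -/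
theorem r0_sum (hO : OnTab M tb tm) (H : Seen M) {dg : ℕ → X → ℝ} {Lam : ℝ} (HD : D.Hyp dg prr al T0 Lam)
    (hTs : tm T ≤ T0) (hr : Rl M Q R rel rln Vk) (w0 : Om W X β) (hv : V3 b c d) (hb : b ∈ Vk) (hc : c ∈ Vk) (hd : d ∈ Vk)
    (hK : 1 < k.kap * k.K) (k0 : 0 < k.kap) (l0 : 0 ≤ k.lam) (ht : ∀ n < T, TOkr (An M Q T n R rel Vk) (ψ n) L (t n)) :
    ∑ n ∈ range T, M.P.E (fun w => ind (nu M.toMS n w = n) * (ind (∃ s, An M Q T n R rel Vk s w) * ψ n w)) ≤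
      2 * k.lam * NA M Q T R rel Vk + 5 * (L * k.kap) * NZ M Q T + L * (5 * (1 / (k.kap * (k.M + 1)))) * NS M T +
      SW M tb tm T (fun n P => L * (Real.sqrt (8 * Q.uB) *
        (mcR P (zzn M Q T n) D tm (An M Q T n R rel Vk) w0 b c d (t n) k / 2))) + 3 * L * NE M Q T R +
      ∑ n ∈ range T, M.P.E (fun w => ind (nu M.toMS n w = n) * (ind (∃ s, An M Q T n R rel Vk s w) * (t n).sg w)) := by
  refine sum_le (g := fun n w => ind (∃ s, An M Q T n R rel Vk s w) * (t n).sg w) hO H fun n hn z => ?_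
  have h1 := TabZ.r0_m (T := T) (wo_WE tb ∅ (tm n) z) (zn hO H R rel Vk) w0 hv hb hc hd hK k0 l0 (ht n hn) (8 * Q.uB)
  have e1 := exc_v (T := T) (n := n) (z := z) hO H HD hTs hr hb
  have e2 := exc_v (T := T) (n := n) (z := z) hO H HD hTs hr hc
  have e3 := exc_v (T := T) (n := n) (z := z) hO H HD hTs hr hd
  have e4 := mul_le_mul_of_nonneg_left (add_le_add (add_le_add e1 e2) e3) (ht n hn).L0
  linarith

/-- **A BAD TOP `(b, c)` AT THE ZONES**: three covers -/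
theorem gx_sum (hO : OnTab M tb tm) (H : Seen M) {dg : ℕ → X → ℝ} {Lam : ℝ} (HD : D.Hyp dg prr al T0 Lam)
    (hTs : tm T ≤ T0) (hr : Rl M Q R rel rln Vk) (w0 : Om W X β) (hv : V3 b c d) (hb : b ∈ Vk) (hc : c ∈ Vk)
    (hK : 1 < k.kap * k.K) (k0 : 0 < k.kap) (l0 : 0 ≤ k.lam) (ht : ∀ n < T, TOk (An M Q T n R rel Vk) (ψ n) L (t n)) :
    ∑ n ∈ range T, M.P.E (fun w => ind (nu M.toMS n w = n) * (ind (∃ s, An M Q T n R rel Vk s w) * ψ n w)) ≤
      2 * k.lam * NA M Q T R rel Vk + 3 * (L * k.kap) * NZ M Q T + L * (3 * (1 / (k.kap * (k.M + 1)))) * NS M T +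
      SW M tb tm T (fun n P => L * (Real.sqrt (8 * Q.uB) *
        (mcG P (zzn M Q T n) D tm (An M Q T n R rel Vk) w0 b c d (t n) k / 2))) + 2 * L * NE M Q T R +
      ∑ n ∈ range T, M.P.E (fun w => ind (nu M.toMS n w = n) * (ind (∃ s, An M Q T n R rel Vk s w) * (t n).sg w)) := by
  refine sum_le (g := fun n w => ind (∃ s, An M Q T n R rel Vk s w) * (t n).sg w) hO H fun n hn z => ?_
  have h1 := TabZ.gx_m (T := T) (wo_WE tb ∅ (tm n) z) (zn hO H R rel Vk) w0 hv hb hc hK k0 l0 (ht n hn) (8 * Q.uB)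
  have e1 := exc_v (T := T) (n := n) (z := z) hO H HD hTs hr hb
  have e2 := exc_v (T := T) (n := n) (z := z) hO H HD hTs hr hc
  have e4 := mul_le_mul_of_nonneg_left (add_le_add e1 e2) (ht n hn).L0
  linarith

/-- **UNSIGNED, TWO COVERS WHICH MEET AT `b`** (kind `H`, two bad tops) -/
theorem h_sum (hO : OnTab M tb tm) (H : Seen M) {dg : ℕ → X → ℝ} {Lam : ℝ} (HD : D.Hyp dg prr al T0 Lam)
    (hTs : tm T ≤ T0) (hr : Rl M Q R rel rln Vk) (w0 : Om W X β) (hv : V3 b c d) (hb : b ∈ Vk) (hK : 1 < k.kap * k.K) (k0 : 0 < k.kap) :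
    NA M Q T R rel Vk ≤ 2 * k.kap * NZ M Q T + 2 * (1 / (k.kap * (k.M + 1))) * NS M T +
      SW M tb tm T (fun n P => Real.sqrt (8 * Q.uB) *
        ((mcU P (zzn M Q T n) D tm (An M Q T n R rel Vk) w0 c b d k + mcU P (zzn M Q T n) D tm (An M Q T n R rel Vk) w0 d b c k) /
          2)) + NE M Q T R := by
  have h0 := sum_le (M := M) (Q := Q) (R := R) (rel := rel) (Vk := Vk) (T := T) (tm := tm) (tb := tb)
    (F := fun n w => ind (∃ s, An M Q T n R rel Vk s w)) (g := fun _ _ => 0) (a1 := 0) (a2 := 2 * k.kap)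
    (a3 := 2 * (1 / (k.kap * (k.M + 1)))) (a4 := 1) (m := fun n P => Real.sqrt (8 * Q.uB) *
        ((mcU P (zzn M Q T n) D tm (An M Q T n R rel Vk) w0 c b d k + mcU P (zzn M Q T n) D tm (An M Q T n R rel Vk) w0 d b c k) /
          2)) hO H fun n hn z => ?_
  · have e1 : NA M Q T R rel Vk = ∑ n ∈ range T, M.P.E (fun w => ind (nu M.toMS n w = n) *
        ind (∃ s, An M Q T n R rel Vk s w)) := by
      unfold NA FP.Pr
      exact Finset.sum_congr rfl fun n _ => M.P.E_congr fun w _ => ind_and _ _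
    rw [← e1] at h0
    simp only [mul_zero, FP.E_const, Finset.sum_const_zero] at h0
    linarith
  · have h1 := TabZ.h_m (T := T) (wo_WE tb ∅ (tm n) z) (zn (Q := Q) (n := n) hO H R rel Vk) w0 hv hb hK k0 (8 * Q.uB)
    have e1 := exc_v (T := T) (n := n) (z := z) hO H HD hTs hr hb
    have e2 : (WE tb ∅ (tm n) z).E (fun _ => (0 : ℝ)) = 0 := FP.E_const _ 0
    unfold FP.Pr at h1 e1 ⊢
    linarith

/-- **UNSIGNED, THREE COVERS** (kind `HT`) -/
theorem ht_sum (hO : OnTab M tb tm) (H : Seen M) {dg : ℕ → X → ℝ} {Lam : ℝ} (HD : D.Hyp dg prr al T0 Lam)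
    (hTs : tm T ≤ T0) (hr : Rl M Q R rel rln Vk) (w0 : Om W X β) (hv : V3 b c d) (hK : 1 < k.kap * k.K) (k0 : 0 < k.kap) {q : ℝ}
    (q0 : 0 ≤ q) (hq : 8 * Q.u0 ≤ q ^ 3) :
    NA M Q T R rel Vk ≤ 3 * k.kap * NZ M Q T + 3 * (1 / (k.kap * (k.M + 1))) * NS M T +
      SW M tb tm T (fun n P => q *
        ((mcU P (zzn M Q T n) D tm (An M Q T n R rel Vk) w0 b c d k + mcU P (zzn M Q T n) D tm (An M Q T n R rel Vk) w0 c b d k +
          mcU P (zzn M Q T n) D tm (An M Q T n R rel Vk) w0 d b c k) / 3)) + NE M Q T R := by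
  have h0 := sum_le (M := M) (Q := Q) (R := R) (rel := rel) (Vk := Vk) (T := T) (tm := tm) (tb := tb)
    (F := fun n w => ind (∃ s, An M Q T n R rel Vk s w)) (g := fun _ _ => 0) (a1 := 0) (a2 := 3 * k.kap)
    (a3 := 3 * (1 / (k.kap * (k.M + 1)))) (a4 := 1) (m := fun n P => q *
        ((mcU P (zzn M Q T n) D tm (An M Q T n R rel Vk) w0 b c d k + mcU P (zzn M Q T n) D tm (An M Q T n R rel Vk) w0 c b d k +
          mcU P (zzn M Q T n) D tm (An M Q T n R rel Vk) w0 d b c k) / 3)) hO H fun n hn z => ?_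
  · have e1 : NA M Q T R rel Vk = ∑ n ∈ range T, M.P.E (fun w => ind (nu M.toMS n w = n) *
        ind (∃ s, An M Q T n R rel Vk s w)) := by
      unfold NA FP.Pr
      exact Finset.sum_congr rfl fun n _ => M.P.E_congr fun w _ => ind_and _ _
    rw [← e1] at h0
    simp only [mul_zero, FP.E_const, Finset.sum_const_zero] at h0
    linarith
  · have h1 := TabZ.ht_m (T := T) (wo_WE tb ∅ (tm n) z) (zn (Q := Q) (n := n) hO H R rel Vk) w0 hv hK k0 q0 hq
    have e1 := exc_0 (T := T) (n := n) (z := z) hO HD hTs hr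
    have e2 : (WE tb ∅ (tm n) z).E (fun _ => (0 : ℝ)) = 0 := FP.E_const _ 0
    unfold FP.Pr at h1 e1 ⊢
    linarith

/-- the relations of the kind -/
theorem rl_kz (hpv : Prv M Q) (hR : ∀ τ w, R τ w → Q.kv none τ w) : Rl M Q R Q.kz (Q.kv none) Q.Vk where
  hMx := fun v hv s w => M.P.ce_mono (fun u _ => ind_mono (Q.hzv v hv _ _)) w
  hM0 := fun s w => by
    unfold M0
    exact Finset.single_le_sum (f := fun v => M.P.ce (M.S ∅ s) (fun u => ind (Rn M Q v (nu M.toMS s w) u)) w)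
      (fun v _ => M.P.ce_nonneg (fun u _ => ind_nonneg _) w) (Finset.mem_univ (none : Option (Fin 3)))
  hn := hR
  hpv := hpv

/-- **the tuples of `dc0`** : `R` = relation of the public tables, `rel` = relations of the lives in the zones -/
theorem dc0_iff (hR : ∀ τ w, Q.kd none τ w ↔ R τ w) (hr : ∀ v ∈ Q.Vk, ∀ τ w, Q.kz v τ w ↔ rel v τ w) (w : Om W X β) :
    UV.dc0 M Q T n w ↔ ∃ s, An M Q T n R rel Q.Vk s w := by
  constructor
  · rintro ⟨h1, s, h2, h3, h4, h5⟩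
    exact ⟨s, ⟨h2, h3, h4⟩, fun v hv => ⟨(h5 v hv).1, (h5 v hv).2.1, (h5 v hv).2.2.1⟩, (hR _ _).1 h1,
      fun v hv => (hr v hv _ _).1 (h5 v hv).2.2.2⟩
  · rintro ⟨s, ⟨h2, h3, h4⟩, h5, h1, h6⟩
    exact ⟨(hR _ _).2 h1, s, h2, h3, h4,
      fun v hv => ⟨(h5 v hv).1, (h5 v hv).2.1, (h5 v hv).2.2, (hr v hv _ _).2 (h6 v hv)⟩⟩

end

end Pool.Agent.GMH.UV0
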