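import Pool.Agent.GMH.UV0
import Pool.Agent.GMH.GhoZ4

/-!
# GMH/UV02 (helper46): THE ZONES OF THE TWO-BODY THEORY, INPUT (I2) OF GMH/Unm (H3.T, T.10), over `US` on the table space

Exact vertex `b` (the status vertex), rows: exact `c` over `(b, d)`, columns: exact `d` over `(b, c)`; `ψ` = log density of the
two tops which see `b`; tests `Yr` of the rows, `Xc` of the columns, `sg` = the singles (`ψ ≤ Yr + sg`, `ψ ≤ Xc + sg` on `A`).
Pattern of `GMH/GhoZ4`, `GMH/TabZ`, `GMH/UV0` (helper85).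
* `tenS`, `tenXS` : the terms at `T^0`, signed rows and columns, signed rows and UNSIGNED columns (abstract);
* `ten_w`, `ten_m` : one world of the table space, in the mean over the samples; `tenX_w`, `tenX_m` : unsigned columns;
* `ten_sum`, `tenX_sum` : the sums over all starts `n < T`, in the mean over the samples.
-/

set_option autoImplicit false
set_option linter.unusedSectionVars false

namespace Pool.Agent.GMH.UV02

open Finset Pool.Agent.PWZ Pool.Agent.M3 Pool.Agent.GM Pool.Agent.GM.Harm Pool.Agent.GMH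
open Pool.Agent.GMH.Gdy Pool.Agent.GMH.Dy Pool.Agent.GMH.TabF Pool.Agent.GMH.Blk Pool.Agent.GMH.GhoZ3
open Pool.Agent.GMH.TabZ Pool.Agent.GMH.UV0
open Pool.Agent.GMH.MV Pool.Agent.GMH.CK
open Pool.Agent.GMH.UV (US Kd Seen Mx M0 Z0 zt blk dd bet tkx Rn tv)

noncomputable section

/-! ## abstract -/

section abs

variable {Om : Type*} [Fintype Om] {P : FP Om} {ω : Type*} {W : Om → ω} {α β α' β' : Type*}
  {κ κ' κb κ1 κ2 : ℕ → Type*} {zz Rs ub A : ℕ → Om → Prop} {U : Om → α} {V : Om → β} {X : ∀ t, Om → κ t}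
  {U' : Om → α'} {V' : Om → β'} {X' : ∀ t, Om → κ' t} {f : α → Om → ℝ} {f' : α' → Om → ℝ} {ψ Yr Xc sg : Om → ℝ}
  {kap kap' lam L b : ℝ} {K K' M M' T : ℕ} {x : Fin M → α} {x' : Fin M' → α'} {Nb : ∀ t, Om → κb t}
  {Y1 : ∀ t, Om → κ1 t} {Y2 : ∀ t, Om → κ2 t}

/-- a test above the weight -/
theorem E_test {A B : ℕ → Om → Prop} (h : ∀ s w, A s w → ψ w ≤ Yr w + sg w) :
    P.E (fun w => ind (∃ s, A s w ∧ B s w) * ψ w) ≤ P.E (fun w => ind (∃ s, A s w ∧ B s w) * Yr w) +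
      P.E (fun w => ind (∃ s, A s w ∧ B s w) * sg w) := by
  rw [← FP.E_add]
  refine P.E_mono fun w _ => ?_
  by_cases h1 : ∃ s, A s w ∧ B s w
  · rw [ind_of h1]
    obtain ⟨s, a, _⟩ := h1
    linarith [h s w a]
  · rw [ind_not h1]
    linarith

/-- **TWO-BODY AT `T^0`, SIGNED ROWS AND COLUMNS, WITH SINGLES** -/
theorem tenS (F : Face P W zz U V X) (F' : Face P W zz U' V' X') (z1 : ∀ w s s', zz s w → zz s' w → s = s')
    (zT : ∀ s w, zz s w → s < T) (hA : Ev W A) (hAz : ∀ s w, A s w → zz s w) (l0 : 0 ≤ lam) (k0 : 0 ≤ kap)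
    (L0' : 0 ≤ L) (hL : ∀ w, ψ w ≤ L) (hLY : ∀ w, Yr w ≤ L) (hLX : ∀ w, Xc w ≤ L)
    (iY : ∀ s w, A s w → ψ w ≤ Yr w + sg w) (iX : ∀ s w, A s w → ψ w ≤ Xc w + sg w) (hsg : ∀ w, 0 ≤ sg w)
    (hf : ∀ a, Fac V (f a)) (hg : ∀ w, f (U w) w = Yr w)
    (hf' : ∀ a, Fac V' (f' a)) (hg' : ∀ w, f' (U' w) w = Xc w) (hci : CI P Nb Y1 Y2)
    (hz : ∀ s x w, Nb s x = Nb s w → (zz s x ↔ zz s w)) (hu : ∀ s x w, Nb s x = Nb s w → (ub s x ↔ ub s w))
    (h1 : ∀ s, Fac (Y1 s) V') (h2 : ∀ s, Fac (Y2 s) V) (hE : ∀ s w, A s w → ub s w ∧ Rs s w) :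
    P.E (fun w => ind (∃ s, A s w) * ψ w) ≤ lam * P.Pr (fun w => ∃ s, A s w) +
      2 * (L * kap * P.Pr (fun w => ∃ s, zz s w)) + L * (GhoZ3.bp P U V X A f kap lam K T x +
        GhoZ3.bp P U' V' X' (fun s w => A s w ∧ cv P U V X A f kap lam K x s w) f' kap lam K T x') +
      L * (Real.sqrt b * ((cz P zz (cv P U' V' X' (fun s w => A s w ∧ cv P U V X A f kap lam K x s w) f' kap lam K x') +
        cz P zz (cv P U V X A f kap lam K x)) / 2)) + L * exc P zz Nb Rs ub b +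
      P.E (fun w => ind (∃ s, A s w) * sg w) := by
  set c := cv P U V X A f kap lam K x with hc
  set A' : ℕ → Om → Prop := fun s w => A s w ∧ c s w with hA'
  set c' := cv P U' V' X' A' f' kap lam K x' with hc'
  have hAz' : ∀ s w, A' s w → zz s w := fun s w a => hAz s w a.1
  have e1 := E_spl (P := P) z1 (A := A) (B := c) hAz ψ
  have e2 := E_spl (P := P) z1 (A := A') (B := c') hAz' ψ
  have g1 := E_spl (P := P) z1 (A := A) (B := c) hAz sg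
  have g2 := E_spl (P := P) z1 (A := A') (B := c') hAz' sg
  have p1 := Pr_spl (P := P) z1 (A := A) (B := c) hAz
  have p2 := Pr_spl (P := P) z1 (A := A') (B := c') hAz'
  have t1 := E_test (P := P) (A := A) (B := fun s w => ¬ c s w) iY
  have t2 := E_test (P := P) (A := A') (B := fun s w => ¬ c' s w) (fun s w a => iX s w a.1)
  have o1 := one_cov (P := P) (T := T) (K := K) (x := x) F z1 zT hA hAz l0 k0 L0' hLY hf hg
  have o2 := one_cov (P := P) (T := T) (K := K) (x := x') (A := A') F' z1 zT (hA.and (cv_ev F)) hAz' l0 k0 L0' hLX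
    hf' hg'
  have h3 : P.E (fun w => ind (∃ s, A' s w ∧ c' s w) * ψ w) ≤ L * P.Pr (fun w => ∃ s, A' s w ∧ c' s w) :=
    Sys.E_le_Pr (P := P) (A := fun s w => A' s w ∧ c' s w) hL
  have h4 : 0 ≤ P.E (fun w => ind (∃ s, A' s w ∧ c' s w) * sg w) :=
    P.E_nonneg fun w _ => mul_nonneg (ind_nonneg _) (hsg w)
  have b1 := both_cov (P := P) (zz := zz) (ub := ub) (Rs := Rs) (T := T) (b := b) (E := A) (c := c) (c' := c') hci hz hu
    z1 zT h1 h2 (fun s w a => ⟨hAz s w a, hE s w a⟩) (cv_V F) (cv_V F')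
  have b2 := mul_le_mul_of_nonneg_left b1 L0'
  have l1 : lam * P.Pr (fun w => ∃ s, A' s w ∧ ¬ c' s w) ≤ lam * P.Pr (fun w => ∃ s, A' s w) :=
    mul_le_mul_of_nonneg_left (P.Pr_mono fun w _ ⟨s, a⟩ => ⟨s, a.1⟩) l0
  have l2 : lam * P.Pr (fun w => ∃ s, A s w) = lam * P.Pr (fun w => ∃ s, A s w ∧ ¬ c s w) +
      lam * P.Pr (fun w => ∃ s, A' s w) := by rw [p1]; ring
  rw [e1, e2]
  unfold cz exc
  linarith

/-- **TWO-BODY AT `T^0`, SIGNED ROWS, UNSIGNED COLUMNS, WITH SINGLES** -/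
theorem tenXS (F : Face P W zz U V X) (F' : Face P W zz U' V' X') (z1 : ∀ w s s', zz s w → zz s' w → s = s')
    (zT : ∀ s w, zz s w → s < T) (hA : Ev W A) (hAz : ∀ s w, A s w → zz s w) (l0 : 0 ≤ lam) (k0 : 0 ≤ kap)
    (k0' : 0 ≤ kap') (L0' : 0 ≤ L) (hL : ∀ w, ψ w ≤ L) (hLY : ∀ w, Yr w ≤ L)
    (iY : ∀ s w, A s w → ψ w ≤ Yr w + sg w) (hsg : ∀ w, 0 ≤ sg w) (hf : ∀ a, Fac V (f a)) (hg : ∀ w, f (U w) w = Yr w)
    (hci : CI P Nb Y1 Y2) (hz : ∀ s x w, Nb s x = Nb s w → (zz s x ↔ zz s w))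
    (hu : ∀ s x w, Nb s x = Nb s w → (ub s x ↔ ub s w)) (h1 : ∀ s, Fac (Y1 s) V') (h2 : ∀ s, Fac (Y2 s) V)
    (hE : ∀ s w, A s w → ub s w ∧ Rs s w) :
    P.E (fun w => ind (∃ s, A s w) * ψ w) ≤ lam * P.Pr (fun w => ∃ s, A s w) +
      L * (kap + kap') * P.Pr (fun w => ∃ s, zz s w) + L * (GhoZ3.bp P U V X A f kap lam K T x +
        GhoZ3.bp P U' V' X' A (fun _ _ => 1) kap' 1 K' T x') +
      L * (Real.sqrt b * ((cz P zz (cv P U' V' X' A (fun _ _ => 1) kap' 1 K' x') +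
        cz P zz (cv P U V X A f kap lam K x)) / 2)) + L * exc P zz Nb Rs ub b +
      P.E (fun w => ind (∃ s, A s w) * sg w) := by
  set c := cv P U V X A f kap lam K x with hc
  set c' := cv P U' V' X' A (fun _ _ => (1 : ℝ)) kap' 1 K' x' with hc'
  have s1 := E_spl (P := P) z1 (A := A) (B := c) hAz ψ
  have g1 := E_spl (P := P) z1 (A := A) (B := c) hAz sg
  have t1 := E_test (P := P) (A := A) (B := fun s w => ¬ c s w) iY
  have e1 := one_cov (P := P) (T := T) (K := K) (x := x) F z1 zT hA hAz l0 k0 L0' hLY hf hg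
  have e2 := one_mass (P := P) (T := T) (K := K') (x := x') F' z1 zT hA hAz k0'
  have e3 := Sys.E_le_Pr (P := P) (A := fun s w => A s w ∧ c s w) hL
  have e4 := Pr_spl (P := P) z1 (A := fun s w => A s w ∧ c s w) (B := c') (fun s w a => hAz s w a.1)
  have e5 : P.Pr (fun w => ∃ s, (A s w ∧ c s w) ∧ ¬ c' s w) ≤ P.Pr (fun w => ∃ s, A s w ∧ ¬ c' s w) :=
    P.Pr_mono fun w _ ⟨s, a, a'⟩ => ⟨s, a.1, a'⟩
  have e6 := both_cov (P := P) (zz := zz) (ub := ub) (Rs := Rs) (T := T) (b := b) (E := A) (c := c) (c' := c') hci hz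
    hu z1 zT h1 h2 (fun s w a => ⟨hAz s w a, hE s w a⟩) (cv_V F) (cv_V F')
  have e7 := mul_le_mul_of_nonneg_left e6 L0'
  have e8 := mul_le_mul_of_nonneg_left (e5.trans e2) L0'
  have e9 : lam * P.Pr (fun w => ∃ s, A s w ∧ ¬ c s w) ≤ lam * P.Pr (fun w => ∃ s, A s w) :=
    mul_le_mul_of_nonneg_left (P.Pr_mono fun w _ ⟨s, a⟩ => ⟨s, a.1⟩) l0
  have h4 : 0 ≤ P.E (fun w => ind (∃ s, A s w ∧ c s w) * sg w) :=
    P.E_nonneg fun w _ => mul_nonneg (ind_nonneg _) (hsg w)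
  rw [e4] at e3
  rw [s1]
  unfold cz exc
  linarith

end abs

variable {X β γ φ : Type} [Fintype X] [Fintype β] [Fintype φ] [Nonempty X] [Nonempty β]
variable {D : HD (Fin 3) X β γ φ} {W : Type} [Fintype W] {tm : ℕ → ℕ} {T : ℕ}

/-- tests of the two-body theory: rows, columns, singles -/
structure T2 (Om : Type) where
  Yr : Om → ℝ
  Xc : Om → ℝ
  sg : Om → ℝ

/-- what is asked of the tests, signed rows -/
structure T2X {Om : Type} (A : ℕ → Om → Prop) (ψ : Om → ℝ) (L : ℝ) (t : T2 Om) : Prop where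
  iY : ∀ s w, A s w → ψ w ≤ t.Yr w + t.sg w
  LY : ∀ w, t.Yr w ≤ L
  Lψ : ∀ w, ψ w ≤ L
  sg0 : ∀ w, 0 ≤ t.sg w
  L0 : 0 ≤ L

/-- what is asked of the tests, signed rows and columns -/
structure T2R {Om : Type} (A : ℕ → Om → Prop) (ψ : Om → ℝ) (L : ℝ) (t : T2 Om) : Prop extends T2X A ψ L t where
  iX : ∀ s w, A s w → ψ w ≤ t.Xc w + t.sg w
  LX : ∀ w, t.Xc w ≤ L

section world

variable {P : FP (Om W X β)} {zz Rs A : ℕ → Om W X β → Prop} {ub : Fin 3 → ℕ → Om W X β → Prop} {Vk : Finset (Fin 3)}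
variable {b c d : Fin 3} {k : Nm} {L : ℝ} {ψ : Om W X β → ℝ} {t : T2 (Om W X β)}

/-- rows: exact `c` over `(b, d)` -/
def cw (P : FP (Om W X β)) (D : HD (Fin 3) X β γ φ) (tm : ℕ → ℕ) (A : ℕ → Om W X β → Prop) (w0 : Om W X β)
    (b c d : Fin 3) (f : Om W X β → ℝ) (k : Nm) (x : Sml (Om W X β) k) : ℕ → Om W X β → Prop :=
  cv P (TabF.pj w0 {c} {b, d}) (TabF.pj w0 {b, d} {c}) (fun s => si D ∅ {b, d} ∅ (tm s)) A (TabF.ts {c} {b, d} f)
    k.kap k.lam k.K x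

/-- columns: exact `d` over `(b, c)` -/
def cc (P : FP (Om W X β)) (D : HD (Fin 3) X β γ φ) (tm : ℕ → ℕ) (A : ℕ → Om W X β → Prop) (w0 : Om W X β)
    (b c d : Fin 3) (t : T2 (Om W X β)) (k : Nm) (x y : Sml (Om W X β) k) : ℕ → Om W X β → Prop :=
  cv P (TabF.pj w0 {d} {b, c}) (TabF.pj w0 {b, c} {d}) (fun s => si D ∅ {b, c} ∅ (tm s))
    (fun s w => A s w ∧ cw P D tm A w0 b c d t.Yr k x s w) (TabF.ts {d} {b, c} t.Xc) k.kap k.lam k.K y

/-- bad probabilities -/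
def bad2 (P : FP (Om W X β)) (D : HD (Fin 3) X β γ φ) (tm : ℕ → ℕ) (A : ℕ → Om W X β → Prop) (w0 : Om W X β)
    (b c d : Fin 3) (t : T2 (Om W X β)) (k : Nm) (T : ℕ) (x y : Sml (Om W X β) k) : ℝ :=
  GhoZ3.bp P (TabF.pj w0 {c} {b, d}) (TabF.pj w0 {b, d} {c}) (fun s => si D ∅ {b, d} ∅ (tm s)) A
    (TabF.ts {c} {b, d} t.Yr) k.kap k.lam k.K T x +
  GhoZ3.bp P (TabF.pj w0 {d} {b, c}) (TabF.pj w0 {b, c} {d}) (fun s => si D ∅ {b, c} ∅ (tm s))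
    (fun s w => A s w ∧ cw P D tm A w0 b c d t.Yr k x s w) (TabF.ts {d} {b, c} t.Xc) k.kap k.lam k.K T y

/-- covered masses -/
def cov2 (P : FP (Om W X β)) (zz : ℕ → Om W X β → Prop) (D : HD (Fin 3) X β γ φ) (tm : ℕ → ℕ) (A : ℕ → Om W X β → Prop)
    (w0 : Om W X β) (b c d : Fin 3) (t : T2 (Om W X β)) (k : Nm) (x y : Sml (Om W X β) k) : ℝ :=
  cz P zz (cc P D tm A w0 b c d t k x y) + cz P zz (cw P D tm A w0 b c d t.Yr k x)

theorem v3d (hv : V3 b c d) : V3 d b c := ⟨hv.bd.symm, hv.cd.symm, hv.bc⟩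

/-- **ONE WORLD, SIGNED ROWS AND COLUMNS** -/
theorem ten_w {m : ℕ} (h : Wd D P ∅ m) (Z : Zn D tm T zz Rs A ub Vk) (w0 : Om W X β) (hv : V3 b c d) (hb : b ∈ Vk)
    (k0 : 0 ≤ k.kap) (l0 : 0 ≤ k.lam) (ht : T2R A ψ L t) (x y : Sml (Om W X β) k) (q : ℝ) :
    P.E (fun w => ind (∃ s, A s w) * ψ w) ≤ k.lam * P.Pr (fun w => ∃ s, A s w) +
      2 * (L * k.kap * P.Pr (fun w => ∃ s, zz s w)) + L * bad2 P D tm A w0 b c d t k T x y +
      L * (Real.sqrt q * (cov2 P zz D tm A w0 b c d t k x y / 2)) +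
      L * exc P zz (fun s => sgt D {b} (tm s)) Rs (ub b) q + P.E (fun w => ind (∃ s, A s w) * t.sg w) := by
  have hv' := v3d hv
  exact tenS (P := P) (W := fun w => w) (zz := zz) (Rs := Rs) (ub := ub b) (A := A) (T := T) (kap := k.kap)
    (lam := k.lam) (K := k.K) (b := q) (x := x) (x' := y) (L := L) (ψ := ψ) (Yr := t.Yr) (Xc := t.Xc) (sg := t.sg)
    (fb h Z w0 hv.r1) (fb h Z w0 hv') Z.z1 Z.zT
    (fun s x w e => by rw [show x = w from e]) Z.Az l0 k0 ht.L0 ht.Lψ ht.LY ht.LX ht.iY ht.iX ht.sg0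
    (fun a => ts_fac w0 hv.r1.dec.2.1 hv.r1.dec.2.2.2.1 _ a) (fun w => ts_own w0 _ _ _ w)
    (fun a => ts_fac w0 hv'.dec.2.1 hv'.dec.2.2.2.1 _ a) (fun w => ts_own w0 _ _ _ w)
    (ci_b (tm := tm) h hv) (fun s x w e => Z.hzE _ s x w e) (Z.hu b hb)
    (fun s => fac_si_pj w0 (Finset.Subset.refl _) (Finset.Subset.refl _) (tm s))
    (fun s => fac_si_pj w0 (Finset.Subset.refl _) (Finset.Subset.refl _) (tm s)) (fun s w a => ⟨Z.Au b hb s w a, Z.AR s w a⟩)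

/-- bad probabilities, unsigned columns -/
def badX (P : FP (Om W X β)) (D : HD (Fin 3) X β γ φ) (tm : ℕ → ℕ) (A : ℕ → Om W X β → Prop) (w0 : Om W X β)
    (b c d : Fin 3) (f : Om W X β → ℝ) (k k' : Nm) (T : ℕ) (x : Sml (Om W X β) k) (y : Sml (Om W X β) k') : ℝ :=
  GhoZ3.bp P (TabF.pj w0 {c} {b, d}) (TabF.pj w0 {b, d} {c}) (fun s => si D ∅ {b, d} ∅ (tm s)) A
    (TabF.ts {c} {b, d} f) k.kap k.lam k.K T x + buF P D tm A w0 d b c k' T y

/-- covered masses, unsigned columns -/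
def covX (P : FP (Om W X β)) (zz : ℕ → Om W X β → Prop) (D : HD (Fin 3) X β γ φ) (tm : ℕ → ℕ) (A : ℕ → Om W X β → Prop)
    (w0 : Om W X β) (b c d : Fin 3) (f : Om W X β → ℝ) (k k' : Nm) (x : Sml (Om W X β) k) (y : Sml (Om W X β) k') : ℝ :=
  cz P zz (cuF P D tm A w0 d b c k' y) + cz P zz (cw P D tm A w0 b c d f k x)

/-- **ONE WORLD, SIGNED ROWS, UNSIGNED COLUMNS** -/
theorem tenX_w {m : ℕ} (h : Wd D P ∅ m) (Z : Zn D tm T zz Rs A ub Vk) (w0 : Om W X β) (hv : V3 b c d) (hb : b ∈ Vk)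
    {k' : Nm} (k0 : 0 ≤ k.kap) (k0' : 0 ≤ k'.kap) (l0 : 0 ≤ k.lam) (ht : T2X A ψ L t)
    (x : Sml (Om W X β) k) (y : Sml (Om W X β) k') (q : ℝ) :
    P.E (fun w => ind (∃ s, A s w) * ψ w) ≤ k.lam * P.Pr (fun w => ∃ s, A s w) +
      L * (k.kap + k'.kap) * P.Pr (fun w => ∃ s, zz s w) + L * badX P D tm A w0 b c d t.Yr k k' T x y +
      L * (Real.sqrt q * (covX P zz D tm A w0 b c d t.Yr k k' x y / 2)) +
      L * exc P zz (fun s => sgt D {b} (tm s)) Rs (ub b) q + P.E (fun w => ind (∃ s, A s w) * t.sg w) := by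
  have hv' := v3d hv
  exact tenXS (P := P) (W := fun w => w) (zz := zz) (Rs := Rs) (ub := ub b) (A := A) (T := T) (kap := k.kap)
    (kap' := k'.kap) (lam := k.lam) (K := k.K) (K' := k'.K) (b := q) (x := x) (x' := y) (L := L) (ψ := ψ) (Yr := t.Yr)
    (sg := t.sg) (fb h Z w0 hv.r1) (fb h Z w0 hv') Z.z1 Z.zT
    (fun s x w e => by rw [show x = w from e]) Z.Az l0 k0 k0' ht.L0 ht.Lψ ht.LY ht.iY ht.sg0
    (fun a => ts_fac w0 hv.r1.dec.2.1 hv.r1.dec.2.2.2.1 _ a) (fun w => ts_own w0 _ _ _ w)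
    (ci_b (tm := tm) h hv) (fun s x w e => Z.hzE _ s x w e) (Z.hu b hb)
    (fun s => fac_si_pj w0 (Finset.Subset.refl _) (Finset.Subset.refl _) (tm s))
    (fun s => fac_si_pj w0 (Finset.Subset.refl _) (Finset.Subset.refl _) (tm s)) (fun s w a => ⟨Z.Au b hb s w a, Z.AR s w a⟩)

/-! ### in the mean over the samples -/

/-- the samples: rows `c`, columns `d` -/
abbrev S2 (P : FP (Om W X β)) (w0 : Om W X β) (b c d : Fin 3) (k k' : Nm) :=
  FP.pr (Sp P w0 {c} {b, d} k) (Sp P w0 {d} {b, c} k')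

/-- covered masses in the mean -/
def mc2 (P : FP (Om W X β)) (zz : ℕ → Om W X β → Prop) (D : HD (Fin 3) X β γ φ) (tm : ℕ → ℕ) (A : ℕ → Om W X β → Prop)
    (w0 : Om W X β) (b c d : Fin 3) (t : T2 (Om W X β)) (k : Nm) : ℝ :=
  (S2 P w0 b c d k k).E fun x => cov2 P zz D tm A w0 b c d t k x.1 x.2

/-- covered masses in the mean, unsigned columns -/
def mcX (P : FP (Om W X β)) (zz : ℕ → Om W X β → Prop) (D : HD (Fin 3) X β γ φ) (tm : ℕ → ℕ) (A : ℕ → Om W X β → Prop)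
    (w0 : Om W X β) (b c d : Fin 3) (f : Om W X β → ℝ) (k k' : Nm) : ℝ :=
  (S2 P w0 b c d k k').E fun x => covX P zz D tm A w0 b c d f k k' x.1 x.2

theorem bad2_m {m : ℕ} (h : Wd D P ∅ m) (Z : Zn D tm T zz Rs A ub Vk) (w0 : Om W X β) (hv : V3 b c d)
    (t : T2 (Om W X β)) (hK : 1 < k.kap * k.K) (k0 : 0 < k.kap) :
    (S2 P w0 b c d k k).E (fun x => bad2 P D tm A w0 b c d t k T x.1 x.2) ≤ 2 * (1 / (k.kap * (k.M + 1))) := by
  unfold bad2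
  rw [FP.E_add]
  have e1 : (S2 P w0 b c d k k).E (fun x => GhoZ3.bp P (TabF.pj w0 {c} {b, d}) (TabF.pj w0 {b, d} {c})
      (fun s => si D ∅ {b, d} ∅ (tm s)) A (TabF.ts {c} {b, d} t.Yr) k.kap k.lam k.K T x.1) ≤
      1 / (k.kap * (k.M + 1)) := by
    rw [pr_fst (fun x => GhoZ3.bp P (TabF.pj w0 {c} {b, d}) (TabF.pj w0 {b, d} {c})
      (fun s => si D ∅ {b, d} ∅ (tm s)) A (TabF.ts {c} {b, d} t.Yr) k.kap k.lam k.K T x)]
    exact bad_m h Z w0 hv.r1 hK k0 A _ k.lam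
  have e2 : (S2 P w0 b c d k k).E (fun x => GhoZ3.bp P (TabF.pj w0 {d} {b, c}) (TabF.pj w0 {b, c} {d})
      (fun s => si D ∅ {b, c} ∅ (tm s)) (fun s w => A s w ∧ cw P D tm A w0 b c d t.Yr k x.1 s w)
      (TabF.ts {d} {b, c} t.Xc) k.kap k.lam k.K T x.2) ≤ 1 / (k.kap * (k.M + 1)) := by
    refine pr_le fun x => ?_
    exact bad_m h Z w0 (v3d hv) hK k0 (fun s w => A s w ∧ cw P D tm A w0 b c d t.Yr k x s w) _ k.lam
  linarith

theorem badX_m {m : ℕ} (h : Wd D P ∅ m) (Z : Zn D tm T zz Rs A ub Vk) (w0 : Om W X β) (hv : V3 b c d)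
    (f : Om W X β → ℝ) {k' : Nm} (hK : 1 < k.kap * k.K) (k0 : 0 < k.kap) (hK' : 1 < k'.kap * k'.K) (k0' : 0 < k'.kap) :
    (S2 P w0 b c d k k').E (fun x => badX P D tm A w0 b c d f k k' T x.1 x.2) ≤
      1 / (k.kap * (k.M + 1)) + 1 / (k'.kap * (k'.M + 1)) := by
  unfold badX
  rw [FP.E_add]
  have e1 : (S2 P w0 b c d k k').E (fun x => GhoZ3.bp P (TabF.pj w0 {c} {b, d}) (TabF.pj w0 {b, d} {c})
      (fun s => si D ∅ {b, d} ∅ (tm s)) A (TabF.ts {c} {b, d} f) k.kap k.lam k.K T x.1) ≤ 1 / (k.kap * (k.M + 1)) := by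
    rw [pr_fst (fun x => GhoZ3.bp P (TabF.pj w0 {c} {b, d}) (TabF.pj w0 {b, d} {c})
      (fun s => si D ∅ {b, d} ∅ (tm s)) A (TabF.ts {c} {b, d} f) k.kap k.lam k.K T x)]
    exact bad_m h Z w0 hv.r1 hK k0 A _ k.lam
  have e2 : (S2 P w0 b c d k k').E (fun x => buF P D tm A w0 d b c k' T x.2) ≤ 1 / (k'.kap * (k'.M + 1)) :=
    pr_le fun x => buF_m h Z w0 (v3d hv) hK' k0'
  linarith

/-- **ONE WORLD, SIGNED ROWS AND COLUMNS, IN THE MEAN OVER THE SAMPLES** -/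
theorem ten_m {m : ℕ} (h : Wd D P ∅ m) (Z : Zn D tm T zz Rs A ub Vk) (w0 : Om W X β) (hv : V3 b c d) (hb : b ∈ Vk)
    (hK : 1 < k.kap * k.K) (k0 : 0 < k.kap) (l0 : 0 ≤ k.lam) (ht : T2R A ψ L t) (q : ℝ) :
    P.E (fun w => ind (∃ s, A s w) * ψ w) ≤ k.lam * P.Pr (fun w => ∃ s, A s w) +
      2 * (L * k.kap * P.Pr (fun w => ∃ s, zz s w)) + L * (2 * (1 / (k.kap * (k.M + 1)))) +
      L * (Real.sqrt q * (mc2 P zz D tm A w0 b c d t k / 2)) +
      L * exc P zz (fun s => sgt D {b} (tm s)) Rs (ub b) q + P.E (fun w => ind (∃ s, A s w) * t.sg w) := by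
  have h1 : (S2 P w0 b c d k k).E (fun _ => P.E (fun w => ind (∃ s, A s w) * ψ w)) ≤ (S2 P w0 b c d k k).E (fun x =>
      (k.lam * P.Pr (fun w => ∃ s, A s w) + 2 * (L * k.kap * P.Pr (fun w => ∃ s, zz s w)) +
        L * exc P zz (fun s => sgt D {b} (tm s)) Rs (ub b) q + P.E (fun w => ind (∃ s, A s w) * t.sg w)) +
      (L * bad2 P D tm A w0 b c d t k T x.1 x.2 + L * Real.sqrt q / 2 * cov2 P zz D tm A w0 b c d t k x.1 x.2)) := by
    refine FP.E_mono _ fun x _ => (ten_w h Z w0 hv hb k0.le l0 ht x.1 x.2 q).trans (le_of_eq ?_)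
    ring
  rw [FP.E_const, FP.E_add, FP.E_const, FP.E_add, FP.E_smul, FP.E_smul] at h1
  have h2 := mul_le_mul_of_nonneg_left (bad2_m (T := T) h Z w0 hv t hK k0) ht.L0
  unfold mc2
  linarith

/-- **ONE WORLD, SIGNED ROWS, UNSIGNED COLUMNS, IN THE MEAN OVER THE SAMPLES** -/
theorem tenX_m {m : ℕ} (h : Wd D P ∅ m) (Z : Zn D tm T zz Rs A ub Vk) (w0 : Om W X β) (hv : V3 b c d) (hb : b ∈ Vk)
    {k' : Nm} (hK : 1 < k.kap * k.K) (k0 : 0 < k.kap) (hK' : 1 < k'.kap * k'.K) (k0' : 0 < k'.kap) (l0 : 0 ≤ k.lam)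
    (ht : T2X A ψ L t) (q : ℝ) :
    P.E (fun w => ind (∃ s, A s w) * ψ w) ≤ k.lam * P.Pr (fun w => ∃ s, A s w) +
      L * (k.kap + k'.kap) * P.Pr (fun w => ∃ s, zz s w) +
      L * (1 / (k.kap * (k.M + 1)) + 1 / (k'.kap * (k'.M + 1))) +
      L * (Real.sqrt q * (mcX P zz D tm A w0 b c d t.Yr k k' / 2)) +
      L * exc P zz (fun s => sgt D {b} (tm s)) Rs (ub b) q + P.E (fun w => ind (∃ s, A s w) * t.sg w) := by
  have h1 : (S2 P w0 b c d k k').E (fun _ => P.E (fun w => ind (∃ s, A s w) * ψ w)) ≤ (S2 P w0 b c d k k').E (fun x =>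
      (k.lam * P.Pr (fun w => ∃ s, A s w) + L * (k.kap + k'.kap) * P.Pr (fun w => ∃ s, zz s w) +
        L * exc P zz (fun s => sgt D {b} (tm s)) Rs (ub b) q + P.E (fun w => ind (∃ s, A s w) * t.sg w)) +
      (L * badX P D tm A w0 b c d t.Yr k k' T x.1 x.2 +
        L * Real.sqrt q / 2 * covX P zz D tm A w0 b c d t.Yr k k' x.1 x.2)) := by
    refine FP.E_mono _ fun x _ => (tenX_w h Z w0 hv hb k0.le k0'.le l0 ht x.1 x.2 q).trans (le_of_eq ?_)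
    ring
  rw [FP.E_const, FP.E_add, FP.E_const, FP.E_add, FP.E_smul, FP.E_smul] at h1
  have h2 := mul_le_mul_of_nonneg_left (badX_m (T := T) h Z w0 hv t.Yr hK k0 hK' k0') ht.L0
  unfold mcX
  linarith

end world

/-! ### the sums over the starts -/

variable {al : ℝ} {prr : ℕ → Fin 3 → φ → φ} {T0 : ℕ}
variable {tb : Tab D prr T0 W} {M : US (Om W X β)} {Q : Kd (Om W X β)}
variable {R : ℕ → Om W X β → Prop} {rel : Fin 3 → ℕ → Om W X β → Prop} {rln : ℕ → Om W X β → Prop} {Vk : Finset (Fin 3)}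
variable {b c d : Fin 3} {k : Nm} {L : ℝ} {ψ : ℕ → Om W X β → ℝ} {t : ℕ → T2 (Om W X β)}

/-- **TWO-BODY ZONES, SIGNED ROWS AND COLUMNS** -/
theorem ten_sum (hO : OnTab M tb tm) (H : Seen M) {dg : ℕ → X → ℝ} {Lam : ℝ} (HD : D.Hyp dg prr al T0 Lam)
    (hTs : tm T ≤ T0) (hr : Rl M Q R rel rln Vk) (w0 : Om W X β) (hv : V3 b c d) (hb : b ∈ Vk) (hK : 1 < k.kap * k.K) (k0 : 0 < k.kap)
    (l0 : 0 ≤ k.lam) (ht : ∀ n < T, T2R (An M Q T n R rel Vk) (ψ n) L (t n)) :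
    ∑ n ∈ range T, M.P.E (fun w => ind (nu M.toMS n w = n) * (ind (∃ s, An M Q T n R rel Vk s w) * ψ n w)) ≤
      k.lam * NA M Q T R rel Vk + 2 * (L * k.kap) * NZ M Q T + L * (2 * (1 / (k.kap * (k.M + 1)))) * NS M T +
      SW M tb tm T (fun n P => L * (Real.sqrt (8 * Q.uB) *
        (mc2 P (zzn M Q T n) D tm (An M Q T n R rel Vk) w0 b c d (t n) k / 2))) + L * NE M Q T R +
      ∑ n ∈ range T, M.P.E (fun w => ind (nu M.toMS n w = n) * (ind (∃ s, An M Q T n R rel Vk s w) * (t n).sg w)) := by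
  refine sum_le (g := fun n w => ind (∃ s, An M Q T n R rel Vk s w) * (t n).sg w) hO H fun n hn z => ?_
  have h1 := ten_m (T := T) (wo_WE tb ∅ (tm n) z) (zn (Q := Q) (n := n) hO H R rel Vk) w0 hv hb hK k0 l0 (ht n hn)
    (8 * Q.uB)
  have e1 := mul_le_mul_of_nonneg_left (exc_v (T := T) (n := n) (z := z) hO H HD hTs hr hb) (ht n hn).L0
  linarith

/-- **TWO-BODY ZONES, SIGNED ROWS, UNSIGNED COLUMNS** -/
theorem tenX_sum (hO : OnTab M tb tm) (H : Seen M) {dg : ℕ → X → ℝ} {Lam : ℝ} (HD : D.Hyp dg prr al T0 Lam)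
    (hTs : tm T ≤ T0) (hr : Rl M Q R rel rln Vk) (w0 : Om W X β) (hv : V3 b c d) (hb : b ∈ Vk) {k' : Nm} (hK : 1 < k.kap * k.K)
    (k0 : 0 < k.kap) (hK' : 1 < k'.kap * k'.K) (k0' : 0 < k'.kap) (l0 : 0 ≤ k.lam)
    (ht : ∀ n < T, T2X (An M Q T n R rel Vk) (ψ n) L (t n)) :
    ∑ n ∈ range T, M.P.E (fun w => ind (nu M.toMS n w = n) * (ind (∃ s, An M Q T n R rel Vk s w) * ψ n w)) ≤
      k.lam * NA M Q T R rel Vk + L * (k.kap + k'.kap) * NZ M Q T +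
      L * (1 / (k.kap * (k.M + 1)) + 1 / (k'.kap * (k'.M + 1))) * NS M T +
      SW M tb tm T (fun n P => L * (Real.sqrt (8 * Q.uB) *
        (mcX P (zzn M Q T n) D tm (An M Q T n R rel Vk) w0 b c d (t n).Yr k k' / 2))) + L * NE M Q T R +
      ∑ n ∈ range T, M.P.E (fun w => ind (nu M.toMS n w = n) * (ind (∃ s, An M Q T n R rel Vk s w) * (t n).sg w)) := by
  refine sum_le (g := fun n w => ind (∃ s, An M Q T n R rel Vk s w) * (t n).sg w) hO H fun n hn z => ?_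
  have h1 := tenX_m (T := T) (wo_WE tb ∅ (tm n) z) (zn (Q := Q) (n := n) hO H R rel Vk) w0 hv hb hK k0 hK' k0' l0
    (ht n hn) (8 * Q.uB)
  have e1 := mul_le_mul_of_nonneg_left (exc_v (T := T) (n := n) (z := z) hO H HD hTs hr hb) (ht n hn).L0
  linarith

end

end Pool.Agent.GMH.UV02
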