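import Pool.Agent.GMH.UV0H
import Pool.Agent.GMH.UV02
import Pool.Agent.GMH.ConZ2

/-!
# GMH/UV02G (helper46): THE KINDS OF THE TWO-BODY THEORY AT THE ZONES (input (I2) of GMH/Unm)

Over helper98's `GMH/UV0G` (`ZS`, `exact_le`, `rH`) and `GMH/UV02` (`ten_sum`, `tenX_sum`); exact vertex `b`.
* `rT`, `rX` : the right sides of `ten_sum`, `tenX_sum`;
* `t_sum` : a thin relation (`R0`), signed rows and columns;
* `x_sum` : exactly the top `d` is bad = `R1` (`d` bad) minus `R2` (both bad): signed rows of `c`, unsigned columns of `d`;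
* `t_num`, `x_num` : the numbers in a round; the unsigned kinds are `UV0G.uns1_sum`.
-/

set_option autoImplicit false
set_option linter.unusedSectionVars false

namespace Pool.Agent.GMH.UV02G

open Finset Pool.Agent.PWZ Pool.Agent.M3 Pool.Agent.GM Pool.Agent.GM.Harm Pool.Agent.GMH
open Pool.Agent.GMH.Gdy Pool.Agent.GMH.Dy Pool.Agent.GMH.TabF Pool.Agent.GMH.Blk Pool.Agent.GMH.GhoZ3
open Pool.Agent.GMH.TabZ (V3 Nm)
open Pool.Agent.GMH.MV Pool.Agent.GMH.CK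
open Pool.Agent.GMH.UV (US Kd Seen tv)
open Pool.Agent.GMH.UV0 Pool.Agent.GMH.UV0G
open Pool.Agent.GMH.UV02 (T2 T2R T2X mc2 mcX ten_sum tenX_sum)
open Pool.Agent.GMH.CT (Rd ix ix_pos ix_nn ten_num tenX_num h_num)

noncomputable section

variable {X β γ φ : Type} [Fintype X] [Fintype β] [Fintype φ] [Nonempty X] [Nonempty β]
variable {D : HD (Fin 3) X β γ φ} {al : ℝ} {prr : ℕ → Fin 3 → φ → φ} {T0 : ℕ} {W : Type} [Fintype W]
variable (tb : Tab D prr T0 W) (M : US (Om W X β)) (tm : ℕ → ℕ) (Q : Kd (Om W X β)) (T : ℕ)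
variable (R : ℕ → Om W X β → Prop) (rel : Fin 3 → ℕ → Om W X β → Prop) (Vk : Finset (Fin 3))

/-- right side of `UV02.ten_sum` -/
def rT (w0 : Om W X β) (b c d : Fin 3) (t : ℕ → T2 (Om W X β)) (k : Nm) (L : ℝ) : ℝ :=
  k.lam * NA M Q T R rel Vk + 2 * (L * k.kap) * NZ M Q T + L * (2 * (1 / (k.kap * (k.M + 1)))) * NS M T +
      SW M tb tm T (fun n P => L * (Real.sqrt (8 * Q.uB) *
        (mc2 P (zzn M Q T n) D tm (An M Q T n R rel Vk) w0 b c d (t n) k / 2))) + L * NE M Q T R +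
      ∑ n ∈ range T, M.P.E (fun w => ind (nu M.toMS n w = n) * (ind (∃ s, An M Q T n R rel Vk s w) * (t n).sg w))

/-- right side of `UV02.tenX_sum` -/
def rX (w0 : Om W X β) (b c d : Fin 3) (t : ℕ → T2 (Om W X β)) (k k' : Nm) (L : ℝ) : ℝ :=
  k.lam * NA M Q T R rel Vk + L * (k.kap + k'.kap) * NZ M Q T +
      L * (1 / (k.kap * (k.M + 1)) + 1 / (k'.kap * (k'.M + 1))) * NS M T +
      SW M tb tm T (fun n P => L * (Real.sqrt (8 * Q.uB) *
        (mcX P (zzn M Q T n) D tm (An M Q T n R rel Vk) w0 b c d (t n).Yr k k' / 2))) + L * NE M Q T R +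
      ∑ n ∈ range T, M.P.E (fun w => ind (nu M.toMS n w = n) * (ind (∃ s, An M Q T n R rel Vk s w) * (t n).sg w))

variable {tb M tm Q T R rel Vk} {rln : ℕ → Om W X β → Prop} {R1 R2 : ℕ → Om W X β → Prop}
variable {w0 : Om W X β} {b c d : Fin 3} {k k' : Nm} {L Ln : ℝ} {t : ℕ → T2 (Om W X β)} {ψ : ℕ → Om W X β → ℝ}

theorem SW_mul (a : ℝ) (f : ℕ → FP (Om W X β) → ℝ) :
    SW M tb tm T (fun n P => a * f n P) = a * SW M tb tm T f := by
  unfold SW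
  rw [Finset.mul_sum]
  refine Finset.sum_congr rfl fun n _ => ?_
  rw [← FP.E_smul]
  exact M.P.E_congr fun z _ => mul_left_comm _ _ _

theorem rT_eq : rT tb M tm Q T R rel Vk w0 b c d t k L =
    k.lam * NA M Q T R rel Vk + 2 * (L * k.kap) * NZ M Q T + L * (2 * (1 / (k.kap * (k.M + 1)))) * NS M T +
      L * (Real.sqrt (8 * Q.uB) * (SW M tb tm T (fun n P =>
        mc2 P (zzn M Q T n) D tm (An M Q T n R rel Vk) w0 b c d (t n) k) / 2)) + L * NE M Q T R +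
      ∑ n ∈ range T, M.P.E (fun w => ind (nu M.toMS n w = n) * (ind (∃ s, An M Q T n R rel Vk s w) * (t n).sg w)) := by
  unfold rT
  rw [show (fun n P => L * (Real.sqrt (8 * Q.uB) *
        (mc2 P (zzn M Q T n) D tm (An M Q T n R rel Vk) w0 b c d (t n) k / 2))) = fun n P =>
      (L * (Real.sqrt (8 * Q.uB) / 2)) * mc2 P (zzn M Q T n) D tm (An M Q T n R rel Vk) w0 b c d (t n) k from by
    funext n P
    ring, SW_mul]
  ring

theorem rX_eq : rX tb M tm Q T R rel Vk w0 b c d t k k' L =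
    k.lam * NA M Q T R rel Vk + L * (k.kap + k'.kap) * NZ M Q T +
      L * (1 / (k.kap * (k.M + 1)) + 1 / (k'.kap * (k'.M + 1))) * NS M T +
      L * (Real.sqrt (8 * Q.uB) * (SW M tb tm T (fun n P =>
        mcX P (zzn M Q T n) D tm (An M Q T n R rel Vk) w0 b c d (t n).Yr k k') / 2)) + L * NE M Q T R +
      ∑ n ∈ range T, M.P.E (fun w => ind (nu M.toMS n w = n) * (ind (∃ s, An M Q T n R rel Vk s w) * (t n).sg w)) := by
  unfold rX
  rw [show (fun n P => L * (Real.sqrt (8 * Q.uB) *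
        (mcX P (zzn M Q T n) D tm (An M Q T n R rel Vk) w0 b c d (t n).Yr k k' / 2))) = fun n P =>
      (L * (Real.sqrt (8 * Q.uB) / 2)) * mcX P (zzn M Q T n) D tm (An M Q T n R rel Vk) w0 b c d (t n).Yr k k' from by
    funext n P
    ring, SW_mul]
  ring

/-- **A THIN RELATION AT THE ZONES** (`R0`) : signed rows and columns -/
theorem t_sum (hO : OnTab M tb tm) (H : Seen M) {dg : ℕ → X → ℝ} {Lam : ℝ} (HD : D.Hyp dg prr al T0 Lam)
    (hTs : tm T ≤ T0) (hr : Rl M Q R rel rln Vk) (w0 : Om W X β) (hv : V3 b c d) (hb : b ∈ Vk) (hK : 1 < k.kap * k.K) (k0 : 0 < k.kap)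
    (l0 : 0 ≤ k.lam) (ht : ∀ n < T, T2R (An M Q T n R rel Vk) (ψ n) L (t n)) :
    ZS M Q T R rel Vk ψ ≤ rT tb M tm Q T R rel Vk w0 b c d t k L :=
  ten_sum hO H HD hTs hr w0 hv hb hK k0 l0 ht

/-- **EXACTLY THE TOP `d` IS BAD** : `R1` = `d` is bad, `R2` = both tops are bad -/
theorem x_sum (hO : OnTab M tb tm) (H : Seen M) {dg : ℕ → X → ℝ} {Lam : ℝ} (HD : D.Hyp dg prr al T0 Lam)
    (hTs : tm T ≤ T0) (hr1 : Rl M Q R1 rel rln Vk) (hr2 : Rl M Q R2 rel rln Vk) (w0 : Om W X β) (hv : V3 b c d) (hb : b ∈ Vk)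
    (hK : 1 < k.kap * k.K) (k0 : 0 < k.kap) (l0 : 0 ≤ k.lam) (hK' : 1 < k'.kap * k'.K) (k0' : 0 < k'.kap)
    (ht : ∀ n < T, T2X (An M Q T n R1 rel Vk) (ψ n) L (t n))
    (hR : ∀ n < T, ∀ w, M.P.p w ≠ 0 → (R n w ↔ R1 n w ∧ ¬ R2 n w))
    (h21 : ∀ n < T, ∀ w, M.P.p w ≠ 0 → R2 n w → R1 n w) (Ln0 : 0 ≤ Ln)
    (hLn : ∀ n < T, ∀ w, M.P.p w ≠ 0 → R2 n w → -Ln ≤ ψ n w) :
    ZS M Q T R rel Vk ψ ≤ rX tb M tm Q T R1 rel Vk w0 b c d t k k' L + Ln * rH tb M tm Q T R2 rel Vk w0 b c d k' := by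
  have h1 := exact_le (M := M) (Q := Q) (rel := rel) (Vk := Vk) hR h21 hLn
  have h2 : ZS M Q T R1 rel Vk ψ ≤ rX tb M tm Q T R1 rel Vk w0 b c d t k k' L :=
    tenX_sum hO H HD hTs hr1 w0 hv hb hK k0 hK' k0' l0 ht
  have h4 : NA M Q T R2 rel Vk ≤ rH tb M tm Q T R2 rel Vk w0 b c d k' := h_sum hO H HD hTs hr2 w0 hv hb hK' k0'
  have h6 := mul_le_mul_of_nonneg_left h4 Ln0
  linarith

end

end Pool.Agent.GMH.UV02G
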