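import Pool.Agent.GMH.UV0P
import Pool.Agent.GMH.UV02

/-!
# GMH/UV02P (helper46): FROM THE PAYMENT OF ONE PUBLIC COVER TO THE COVERED MASSES OF THE TWO-BODY ZONES (`mc2`, `mcX`)

Exact vertex `b` (the status vertex), rows of `c` over `(b, d)` first, then columns of `d` over `(b, c)` (nested, or unsigned).
Pattern and names of `GMH/UV0P` (helper85).
* `A2t` : `A0` and in the cover of the rows with the coin table `θ`; `m2` : the membership at the true point, `m2_si`;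
* `mc2_le` : `SW (mc2)`, signed rows and columns; `mcX_le` : `SW (mcX)`, signed rows, unsigned columns.
-/

set_option autoImplicit false
set_option linter.unusedSectionVars false

namespace Pool.Agent.GMH.UV02P

open Finset Pool.Agent.PWZ Pool.Agent.M3 Pool.Agent.GM Pool.Agent.GM.Harm Pool.Agent.GMH
open Pool.Agent.GMH.Gdy Pool.Agent.GMH.Dy Pool.Agent.GMH.TabF Pool.Agent.GMH.Blk Pool.Agent.GMH.GhoZ3
open Pool.Agent.GMH.TabZ (V3 Nm Sml Sp mcU cuF)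
open Pool.Agent.GMH.MV Pool.Agent.GMH.CK
open Pool.Agent.GMH.UV (US Kd Seen tv)
open Pool.Agent.GMH.UV0 (SW)
open Pool.Agent.GMH.UV02 (T2 mc2 mcX cov2 covX cc cw)
open Pool.Agent.GMH.UV0P (PZ inz cvz S0 S0_add S0_E coin_le inz_si inz_z)
open Pool.Agent.GMH.PayP (Ct cL)

noncomputable section

variable {X β γ φ : Type} [Fintype X] [Fintype β] [Fintype φ] [Nonempty X] [Nonempty β]
variable {D : HD (Fin 3) X β γ φ} {al : ℝ} {prr : ℕ → Fin 3 → φ → φ} {T0 : ℕ} {W : Type} [Fintype W]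
variable {tb : Tab D prr T0 W} {M : US (Om W X β)} {w0 : Om W X β} {tm : ℕ → ℕ} {T : ℕ} {k k' : Nm}
  {zz : ℕ → ℕ → Om W X β → Prop} {b c d : Fin 3} {t : ℕ → T2 (Om W X β)} {BY BX : ℝ}

variable (tb w0 tm T k b c d t) in
/-- `A0` and in the cover of the rows -/
def A2t (A0 : ℕ → ℕ → Om W X β → Prop) (θ : Ct W X β T k.M) (n : ℕ) (z : Om W X β) (s : ℕ) (w : Om W X β) : Prop :=
  A0 n s w ∧ inz tb w0 tm T k c b d (fun n _ => A0 n) (fun n => (t n).Yr) k.lam θ n z s w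

variable (tb w0 tm T k b c d t) in
/-- in the cover of the rows, at the true point -/
def m2 (A0 : ℕ → ℕ → Om W X β → Prop) (θ : Ct W X β T k.M) (n s : ℕ) (w : Om W X β) : Prop :=
  inz tb w0 tm T k c b d (fun n _ => A0 n) (fun n => (t n).Yr) k.lam θ n w s w

theorem A2t_iff (A0 : ℕ → ℕ → Om W X β → Prop) (θ : Ct W X β T k.M) (n s : ℕ) (w : Om W X β) :
    A2t tb w0 tm T k b c d t A0 θ n w s w ↔ A0 n s w ∧ m2 tb w0 tm T k b c d t A0 θ n s w := Iff.rfl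

theorem A2t_z {A0 : ℕ → ℕ → Om W X β → Prop} {θ : Ct W X β T k.M} {n : ℕ} {z z' : Om W X β}
    (e : sgt D ∅ (tm n) z = sgt D ∅ (tm n) z') :
    A2t tb w0 tm T k b c d t A0 θ n z = A2t tb w0 tm T k b c d t A0 θ n z' := by
  unfold A2t
  rw [inz_z (A := fun n _ => A0 n) θ n rfl e]

/-- the membership is seen by the exact `(b, d)`, its table `c` and the cells -/
theorem m2_si {A0 : ℕ → ℕ → Om W X β → Prop} {θ : Ct W X β T k.M} {n s : ℕ} (ht : ∀ s, tm s ≤ tm (s + 1)) (hs : n ≤ s)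
    {E S : Finset (Fin 3)} (hE : {b, d} ⊆ E) (hS : {c} ⊆ S) :
    Fac (si D E univ S (tm s)) (m2 tb w0 tm T k b c d t A0 θ n s) :=
  inz_si (A := fun n _ => A0 n) ht θ hs (fun _ _ _ => rfl) hE hS

theorem pr2 {A1 A2 : Type*} [Fintype A1] [Fintype A2] (P1 : FP A1) (P2 : FP A2) (F1 : A1 → A2 → ℝ) (F2 : A1 → ℝ) :
    (FP.pr P1 P2).E (fun x => F1 x.1 x.2 + F2 x.1) = P1.E (fun x => P2.E (F1 x) + F2 x) := by
  simp only [FP.pr_E, FP.E_add, FP.E_const]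

theorem pr2' {A1 A2 : Type*} [Fintype A1] [Fintype A2] (P1 : FP A1) (P2 : FP A2) (F1 : A2 → ℝ) (F2 : A1 → ℝ) :
    (FP.pr P1 P2).E (fun x => F1 x.2 + F2 x.1) = P2.E F1 + P1.E F2 := by
  simp only [FP.pr_E, FP.E_add, FP.E_const]

/-- **SIGNED ROWS AND COLUMNS** : the covered masses by the payments of the single covers -/
theorem mc2_le (A0 : ℕ → ℕ → Om W X β → Prop)
    (hY : PZ tb M w0 tm T k zz c b d (fun n _ => A0 n) (fun n => (t n).Yr) k.lam ≤ BY)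
    (hX : ∀ θ, (cL tb w0 c {b, d} tm T k.M).p θ ≠ 0 →
      PZ tb M w0 tm T k zz d b c (A2t tb w0 tm T k b c d t A0 θ) (fun n => (t n).Xc) k.lam ≤ BX) :
    SW M tb tm T (fun n P => mc2 P (zz n) D tm (A0 n) w0 b c d (t n) k) ≤ BX + BY := by
  have e : ∀ (n : ℕ) (z : Om W X β), mc2 (WE tb ∅ (tm n) z) (zz n) D tm (A0 n) w0 b c d (t n) k =
      (Sp (WE tb ∅ (tm n) z) w0 {c} {b, d} k).E (fun x => (Sp (WE tb ∅ (tm n) z) w0 {d} {b, c} k).E (fun y =>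
          cz (WE tb ∅ (tm n) z) (zz n) (cc (WE tb ∅ (tm n) z) D tm (A0 n) w0 b c d (t n) k x y)) +
        cz (WE tb ∅ (tm n) z) (zz n) (cw (WE tb ∅ (tm n) z) D tm (A0 n) w0 b c d (t n).Yr k x)) := fun n z =>
    pr2 (Sp (WE tb ∅ (tm n) z) w0 {c} {b, d} k) (Sp (WE tb ∅ (tm n) z) w0 {d} {b, c} k)
      (fun x y => cz (WE tb ∅ (tm n) z) (zz n) (cc (WE tb ∅ (tm n) z) D tm (A0 n) w0 b c d (t n) k x y))
      (fun x => cz (WE tb ∅ (tm n) z) (zz n) (cw (WE tb ∅ (tm n) z) D tm (A0 n) w0 b c d (t n).Yr k x))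
  have e2 : SW M tb tm T (fun n P => mc2 P (zz n) D tm (A0 n) w0 b c d (t n) k) =
      S0 M T (fun n z => mc2 (WE tb ∅ (tm n) z) (zz n) D tm (A0 n) w0 b c d (t n) k) := rfl
  rw [e2]
  simp only [e]
  have e3 := S0_E (M := M) (T := T) (fun n z => Sp (WE tb ∅ (tm n) z) w0 {c} {b, d} k)
    (fun n z x => (Sp (WE tb ∅ (tm n) z) w0 {d} {b, c} k).E (fun y =>
      cz (WE tb ∅ (tm n) z) (zz n) (cc (WE tb ∅ (tm n) z) D tm (A0 n) w0 b c d (t n) k x y)))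
    (fun n z x => cz (WE tb ∅ (tm n) z) (zz n) (cw (WE tb ∅ (tm n) z) D tm (A0 n) w0 b c d (t n).Yr k x)) 1
  simp only [one_mul] at e3
  rw [e3]
  refine add_le_add ?_ hY
  refine coin_le w0 c b d _ fun θ hθ => ?_
  exact hX θ hθ

/-- **SIGNED ROWS, UNSIGNED COLUMNS** -/
theorem mcX_le (A0 : ℕ → ℕ → Om W X β → Prop) (f : ℕ → Om W X β → ℝ)
    (hY : PZ tb M w0 tm T k zz c b d (fun n _ => A0 n) f k.lam ≤ BY)
    (hX : PZ tb M w0 tm T k' zz d b c (fun n _ => A0 n) (fun _ _ => 1) 1 ≤ BX) :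
    SW M tb tm T (fun n P => mcX P (zz n) D tm (A0 n) w0 b c d (f n) k k') ≤ BX + BY := by
  have e : ∀ (n : ℕ) (z : Om W X β), mcX (WE tb ∅ (tm n) z) (zz n) D tm (A0 n) w0 b c d (f n) k k' =
      (Sp (WE tb ∅ (tm n) z) w0 {d} {b, c} k').E (fun y =>
          cz (WE tb ∅ (tm n) z) (zz n) (cuF (WE tb ∅ (tm n) z) D tm (A0 n) w0 d b c k' y)) +
        (Sp (WE tb ∅ (tm n) z) w0 {c} {b, d} k).E (fun x =>
          cz (WE tb ∅ (tm n) z) (zz n) (cw (WE tb ∅ (tm n) z) D tm (A0 n) w0 b c d (f n) k x)) := fun n z =>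
    pr2' (Sp (WE tb ∅ (tm n) z) w0 {c} {b, d} k) (Sp (WE tb ∅ (tm n) z) w0 {d} {b, c} k')
      (fun y => cz (WE tb ∅ (tm n) z) (zz n) (cuF (WE tb ∅ (tm n) z) D tm (A0 n) w0 d b c k' y))
      (fun x => cz (WE tb ∅ (tm n) z) (zz n) (cw (WE tb ∅ (tm n) z) D tm (A0 n) w0 b c d (f n) k x))
  have e2 : SW M tb tm T (fun n P => mcX P (zz n) D tm (A0 n) w0 b c d (f n) k k') =
      S0 M T (fun n z => mcX (WE tb ∅ (tm n) z) (zz n) D tm (A0 n) w0 b c d (f n) k k') := rfl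
  rw [e2]
  simp only [e]
  rw [S0_add]
  exact add_le_add hX hY

end

end Pool.Agent.GMH.UV02P
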