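import Pool.Agent.GMH.PayR0
import Pool.Agent.GMH.UV02P

/-!
# GMH/UV02Q (helper46): THE COVERED MASSES OF THE TWO-BODY ZONES ARE PAID

Over helper52's `GMH/PayR0` (`Pays`, `Zo`, `pzB`), exact vertex `b`, rows of `c` over `(b, d)`, columns of `d` over `(b, c)`.
* `two_pay` : `SW (mc2) ≤ 2 B`, signed rows and columns, a thin relation;
* `twoX_pay` : `SW (mcX) ≤ BU + B`, signed rows, unsigned columns (`BU`), the relation sees the top `d`.
-/

set_option autoImplicit false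
set_option linter.unusedSectionVars false

namespace Pool.Agent.GMH.UV02Q

open Finset Pool.Agent.PWZ Pool.Agent.M3 Pool.Agent.GM Pool.Agent.GM.Harm Pool.Agent.GMH Pool.Agent.GMH.PayM
open Pool.Agent.GMH.TP Pool.Agent.GMH.V3 Pool.Agent.GMH.V3.TG Pool.Agent.GMH.Dy Pool.Agent.GMH.TabF
open Pool.Agent.GMH.TabZ (V3 Nm)
open Pool.Agent.GMH.PayPI (Rn Lt Pays Zo An0 pzB)
open Pool.Agent.GMH.UV (US)
open Pool.Agent.GMH.UV0 (SW)
open Pool.Agent.GMH.UV0P (PZ inz inz_z)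
open Pool.Agent.GMH.UV02 (mc2 mcX)
open Pool.Agent.GMH.UV02P (A2t m2 m2_si mc2_le mcX_le)

noncomputable section

variable {X β γ φ : Type} [Fintype X] [Fintype β] [Fintype φ] [Nonempty X] [Nonempty β]
variable {D : HD (Fin 3) X β γ φ} {al : ℝ} {h : D.Thick al}
variable {v : ℕ → Finset (Fin 3) → X → (Fin 3 → β) → Pt (Fin 3) X β φ}
variable {prr : ℕ → Fin 3 → φ → φ} {T : ℕ} {W : Type} [Fintype W] {tb : Tab D prr T W}
variable {M : US (Om W X β)}
variable {dg : ℕ → X → ℝ} {Lam : ℝ} {N : Finset (Fin 3) → ℝ} {SS : Finset (Finset (Fin 3))}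
variable {zz zp : ℕ → ℕ → Om W X β → Prop} {ub : Fin 3 → ℕ → ℕ → Om W X β → Prop} {R : ℕ → Om W X β → Prop}
  {rel : Fin 3 → ℕ → Om W X β → Prop} {Vk : Finset (Fin 3)} {X0 K L B BU eps : ℝ} {Nn : ℕ} {w0 : Om W X β} {k k' : Nm}
  {Φ : Type} {Fr : ℕ → Fin 3 → Pt (Fin 3) X β φ → Φ} {fr : Fin 3 → Lt X β φ → Φ} {b c d : Fin 3}

/-- **SIGNED ROWS AND COLUMNS** -/
theorem two_pay (r : Rn h v tb M N SS dg Lam) (zo : Zo h v tb M ∅ X0 zz ub R rel Vk)
    (hP : Pays h v tb M w0 k zp (2 * Real.exp X0) (2 * (1 / al)) (2 * (1 / al)) eps Nn (L + K + 1) B)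
    (hFr : ∀ t j u, Fr t j u = fr j (FQ v t j u)) (hK : 0 ≤ K) (hL : 0 ≤ L) (heps : 0 ≤ eps) (hv : V3 b c d) :
    SW M tb TP.nn (5 * T) (fun n P => mc2 P (zp n) D TP.nn (An0 M zz ub R rel Vk n) w0 b c d
      (TstZ.t2 h v tb Fr K L c d n) k) ≤ B + B := by
  refine mc2_le (t := TstZ.t2 h v tb Fr K L c d) (An0 M zz ub R rel Vk) ?_ fun θ _ => ?_
  · exact pzB (i := c) (u1 := b) (u2 := d) r zo (notMem_empty _) hP hv.bc hv.cd.symm hv.bd hFr hK hL
      (by simp [hv.cd]) heps (B1 := fun _ _ _ _ => True) (B2 := fun _ _ _ _ => True)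
      (fun _ _ _ _ _ _ => rfl) (fun _ _ _ _ _ _ => rfl) (fun _ _ _ _ => rfl) (fun _ _ _ _ => rfl)
      (fun n z s w => by simp)
  · exact pzB (i := d) (u1 := b) (u2 := c) r zo (notMem_empty _) hP hv.bd hv.cd hv.bc hFr hK hL
      (by simp [hv.cd.symm]) heps
      (B1 := fun n z s w => inz tb w0 TP.nn (5 * T) k c b d (fun n _ => An0 M zz ub R rel Vk n)
        (fun n => (TstZ.t2 h v tb Fr K L c d n).Yr) k.lam θ n z s w)
      (B2 := fun _ _ _ _ => True)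
      (fun n s hs x y e => m2_si nn_succ_le hs (by intro j hj; simp only [mem_insert, mem_singleton] at hj ⊢; tauto)
        (Finset.Subset.refl _) x y e)
      (fun _ _ _ _ _ _ => rfl)
      (fun n z z' e => by
        funext s w
        rw [inz_z (A := fun n _ => An0 M zz ub R rel Vk n) θ n rfl e])
      (fun _ _ _ _ => rfl)
      (fun n z s w => by
        show _ ↔ An0 M zz ub R rel Vk n s w ∧ _
        simp)

/-- **SIGNED ROWS, UNSIGNED COLUMNS** : the relation sees the bad top `d` only -/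
theorem twoX_pay (r : Rn h v tb M N SS dg Lam) (zo : Zo h v tb M {d} X0 zz ub R rel Vk)
    (hP : Pays h v tb M w0 k zp (2 * Real.exp X0) (2 * (1 / al)) (2 * (1 / al)) eps Nn (L + K + 1) B)
    (hFr : ∀ t j u, Fr t j u = fr j (FQ v t j u)) (hK : 0 ≤ K) (hL : 0 ≤ L) (heps : 0 ≤ eps) (hv : V3 b c d)
    (hU : PZ tb M w0 TP.nn (5 * T) k' zp d b c (fun n _ => An0 M zz ub R rel Vk n) (fun _ _ => 1) 1 ≤ BU) :
    SW M tb TP.nn (5 * T) (fun n P => mcX P (zp n) D TP.nn (An0 M zz ub R rel Vk n) w0 b c d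
      (TstZ.t2 h v tb Fr K L c d n).Yr k k') ≤ BU + B := by
  refine mcX_le (An0 M zz ub R rel Vk) (fun n => (TstZ.t2 h v tb Fr K L c d n).Yr) ?_ hU
  exact pzB (i := c) (u1 := b) (u2 := d) r zo (fun hh => hv.cd (Finset.mem_singleton.1 hh)) hP hv.bc hv.cd.symm hv.bd
    hFr hK hL (by simp [hv.cd]) heps (B1 := fun _ _ _ _ => True) (B2 := fun _ _ _ _ => True)
    (fun _ _ _ _ _ _ => rfl) (fun _ _ _ _ _ _ => rfl) (fun _ _ _ _ => rfl) (fun _ _ _ _ => rfl)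
    (fun n z s w => by simp)

end

end Pool.Agent.GMH.UV02Q
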