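import Pool.Agent.GMH.UV0

/-!
# GMH/UV0G (helper98): THE KINDS 2 - 5 (BAD TOPS) AT THE ZONES, INPUT (I2) OF GMH/Unm, from the raw relations of `GMH/UV0`

Raw relations of the public tables: `R1` = a fixed top is bad, `R2` = moreover another top is bad (`Ra` or `Rb` = two given
tops are bad), `R` = exactly the fixed top is bad; the lives enter only with the visible relation `rel`.
* `Bn` = `An` without `R`; `exA`, `ind_An`; `NA_le2`, `NA_le3` : unions; `ZS_sub`, `exact_le` : sum for `R = R1` minus `R2`;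
  `uns_le` : a sum without a sign;
* `rG`, `rH` : right sides of `UV0.gx_sum`, `UV0.h_sum`;
* `g_sum` : kinds 2, 3, 4; `k5_sum` : kind 5 (at least two bad tops); `uns1_sum` : an unsigned pair kind (`H`, `HOT`).
-/

set_option autoImplicit false
set_option linter.unusedSectionVars false

namespace Pool.Agent.GMH.UV0G

open Finset Pool.Agent.PWZ Pool.Agent.M3 Pool.Agent.GM Pool.Agent.GM.Harm Pool.Agent.GMH
open Pool.Agent.GMH.Gdy Pool.Agent.GMH.Dy Pool.Agent.GMH.TabF Pool.Agent.GMH.Blk Pool.Agent.GMH.GhoZ3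
open Pool.Agent.GMH.TabZ (Zn V3 TR TOk TOkr Nm mcR mcG mcU)
open Pool.Agent.GMH.MV Pool.Agent.GMH.CK
open Pool.Agent.GMH.UV (US Kd Seen Mx M0 Z0 zt blk dd bet tkx Rn tv)
open Pool.Agent.GMH.UV0

noncomputable section

variable {X β γ φ : Type} [Fintype X] [Fintype β] [Fintype φ] [Nonempty X] [Nonempty β]
variable {D : HD (Fin 3) X β γ φ} {al : ℝ} {prr : ℕ → Fin 3 → φ → φ} {T0 : ℕ} {W : Type} [Fintype W]
variable {tb : Tab D prr T0 W} {M : US (Om W X β)} {tm : ℕ → ℕ} {Q : Kd (Om W X β)} {T n : ℕ} {z : Om W X β}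
variable {R R1 R2 Ra Rb Rc : ℕ → Om W X β → Prop} {rel : Fin 3 → ℕ → Om W X β → Prop} {rln : ℕ → Om W X β → Prop}
  {Vk : Finset (Fin 3)} {ψ : ℕ → Om W X β → ℝ}

variable (M Q T n rel Vk) in
/-- the tuples of the zone without the public relation -/
def Bn (s : ℕ) (w : Om W X β) : Prop :=
  zzn M Q T n s w ∧ (∀ v ∈ Vk, ubn M Q n v s w) ∧ ∀ v ∈ Vk, rel v (tv M v s w) w

theorem exA (R : ℕ → Om W X β → Prop) (w : Om W X β) :
    (∃ s, An M Q T n R rel Vk s w) ↔ R n w ∧ ∃ s, Bn M Q T n rel Vk s w := by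
  constructor
  · rintro ⟨s, a, b, c, d⟩
    exact ⟨c, s, a, b, d⟩
  · rintro ⟨c, s, a, b, d⟩
    exact ⟨s, a, b, c, d⟩

theorem ind_An (R : ℕ → Om W X β → Prop) (w : Om W X β) :
    ind (∃ s, An M Q T n R rel Vk s w) = ind (R n w) * ind (∃ s, Bn M Q T n rel Vk s w) := by
  rw [← ind_and]
  exact congrArg ind (propext (exA R w))

/-- the number of the tuples of a union -/
theorem NA_le2 (h : ∀ n < T, ∀ w, M.P.p w ≠ 0 → R n w → Ra n w ∨ Rb n w) :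
    NA M Q T R rel Vk ≤ NA M Q T Ra rel Vk + NA M Q T Rb rel Vk := by
  unfold NA
  rw [← Finset.sum_add_distrib]
  refine Finset.sum_le_sum fun n hn => (M.P.Pr_mono fun w hw a => ?_).trans (M.P.Pr_or_le _ _)
  obtain ⟨a1, a2⟩ := a
  obtain ⟨a3, a4⟩ := (exA R w).1 a2
  rcases h n (mem_range.1 hn) w hw a3 with h1 | h1
  · exact Or.inl ⟨a1, (exA Ra w).2 ⟨h1, a4⟩⟩
  · exact Or.inr ⟨a1, (exA Rb w).2 ⟨h1, a4⟩⟩

theorem NA_le3 (h : ∀ n < T, ∀ w, M.P.p w ≠ 0 → R n w → Ra n w ∨ Rb n w ∨ Rc n w) :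
    NA M Q T R rel Vk ≤ NA M Q T Ra rel Vk + NA M Q T Rb rel Vk + NA M Q T Rc rel Vk := by
  have h1 : NA M Q T R rel Vk ≤ NA M Q T (fun n w => Ra n w ∨ Rb n w) rel Vk + NA M Q T Rc rel Vk :=
    NA_le2 fun n hn w hw a => by
      rcases h n hn w hw a with b | b | b
      · exact Or.inl (Or.inl b)
      · exact Or.inl (Or.inr b)
      · exact Or.inr b
  have h2 : NA M Q T (fun n w => Ra n w ∨ Rb n w) rel Vk ≤ NA M Q T Ra rel Vk + NA M Q T Rb rel Vk :=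
    NA_le2 fun n hn w hw a => a
  linarith

variable (M Q T R rel Vk ψ) in
/-- the sum over the zones -/
def ZS : ℝ := ∑ n ∈ range T, M.P.E (fun w => ind (nu M.toMS n w = n) * (ind (∃ s, An M Q T n R rel Vk s w) * ψ n w))

/-- the sum for `R = R1` minus `R2` -/
theorem ZS_sub (hR : ∀ n < T, ∀ w, M.P.p w ≠ 0 → (R n w ↔ R1 n w ∧ ¬ R2 n w))
    (h21 : ∀ n < T, ∀ w, M.P.p w ≠ 0 → R2 n w → R1 n w) :
    ZS M Q T R rel Vk ψ = ZS M Q T R1 rel Vk ψ - ZS M Q T R2 rel Vk ψ := by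
  unfold ZS
  rw [← Finset.sum_sub_distrib]
  refine Finset.sum_congr rfl fun n hn => ?_
  rw [← FP.E_sub]
  refine M.P.E_congr fun w hw => ?_
  have hn' := mem_range.1 hn
  rw [ind_An, ind_An, ind_An]
  by_cases h1 : R1 n w
  · by_cases h2 : R2 n w
    · rw [ind_not (fun h => ((hR n hn' w hw).1 h).2 h2), ind_of h1, ind_of h2]
      ring
    · rw [ind_of ((hR n hn' w hw).2 ⟨h1, h2⟩), ind_of h1, ind_not h2]
      ring
  · rw [ind_not (fun h => h1 ((hR n hn' w hw).1 h).1), ind_not h1, ind_not (fun h => h1 (h21 n hn' w hw h))]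
    ring

/-- **EXACTLY ONE BAD TOP** : the sum for `R = R1` minus `R2` -/
theorem exact_le {Ln : ℝ} (hR : ∀ n < T, ∀ w, M.P.p w ≠ 0 → (R n w ↔ R1 n w ∧ ¬ R2 n w))
    (h21 : ∀ n < T, ∀ w, M.P.p w ≠ 0 → R2 n w → R1 n w)
    (hLn : ∀ n < T, ∀ w, M.P.p w ≠ 0 → R2 n w → -Ln ≤ ψ n w) :
    ZS M Q T R rel Vk ψ ≤ ZS M Q T R1 rel Vk ψ + Ln * NA M Q T R2 rel Vk := by
  unfold ZS NA
  rw [Finset.mul_sum, ← Finset.sum_add_distrib]
  refine Finset.sum_le_sum fun n hn => ?_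
  unfold FP.Pr
  rw [← FP.E_smul, ← FP.E_add]
  refine M.P.E_mono fun w hw => ?_
  have hn' := mem_range.1 hn
  rw [ind_and, ind_An, ind_An, ind_An]
  have n0 := ind_nonneg (nu M.toMS n w = n)
  have b0 := ind_nonneg (∃ s, Bn M Q T n rel Vk s w)
  by_cases h1 : R1 n w
  · by_cases h2 : R2 n w
    · rw [ind_not (fun h => ((hR n hn' w hw).1 h).2 h2), ind_of h1, ind_of h2]
      have h3 := hLn n hn' w hw h2
      have h4 : 0 ≤ (ind (nu M.toMS n w = n) * ind (∃ s, Bn M Q T n rel Vk s w)) * (ψ n w + Ln) :=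
        mul_nonneg (mul_nonneg n0 b0) (by linarith)
      linarith
    · rw [ind_of ((hR n hn' w hw).2 ⟨h1, h2⟩), ind_of h1, ind_not h2]
      linarith
  · rw [ind_not (fun h => h1 ((hR n hn' w hw).1 h).1), ind_not h1, ind_not (fun h => h1 (h21 n hn' w hw h))]
    linarith

/-- a sum without a sign -/
theorem uns_le {L : ℝ} (hL : ∀ n < T, ∀ w, M.P.p w ≠ 0 → R n w → ψ n w ≤ L) :
    ZS M Q T R rel Vk ψ ≤ L * NA M Q T R rel Vk := by
  unfold ZS NA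
  rw [Finset.mul_sum]
  refine Finset.sum_le_sum fun n hn => ?_
  unfold FP.Pr
  rw [← FP.E_smul]
  refine M.P.E_mono fun w hw => ?_
  rw [ind_and, ind_An]
  have n0 := ind_nonneg (nu M.toMS n w = n)
  have b0 := ind_nonneg (∃ s, Bn M Q T n rel Vk s w)
  by_cases h1 : R n w
  · rw [ind_of h1, one_mul]
    have h3 := mul_le_mul_of_nonneg_left (hL n (mem_range.1 hn) w hw h1) (mul_nonneg n0 b0)
    linarith
  · rw [ind_not h1]
    linarith

theorem Rl_mono (h : Rl M Q R rel rln Vk) (h1 : ∀ n w, R1 n w → R n w) : Rl M Q R1 rel rln Vk :=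
  { h with hn := fun n w a => h.hn n w (h1 n w a) }

/-! ## the right sides -/

variable (tb M tm Q T R rel Vk) in
/-- right side of `UV0.gx_sum` -/
def rG (w0 : Om W X β) (b c d : Fin 3) (t : ℕ → TR (Om W X β)) (k : Nm) (L : ℝ) : ℝ :=
  2 * k.lam * NA M Q T R rel Vk + 3 * (L * k.kap) * NZ M Q T + L * (3 * (1 / (k.kap * (k.M + 1)))) * NS M T +
      SW M tb tm T (fun n P => L * (Real.sqrt (8 * Q.uB) *
        (mcG P (zzn M Q T n) D tm (An M Q T n R rel Vk) w0 b c d (t n) k / 2))) + 2 * L * NE M Q T R +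
      ∑ n ∈ range T, M.P.E (fun w => ind (nu M.toMS n w = n) * (ind (∃ s, An M Q T n R rel Vk s w) * (t n).sg w))

variable (tb M tm Q T R rel Vk) in
/-- right side of `UV0.h_sum`, common vertex `b` -/
def rH (w0 : Om W X β) (b c d : Fin 3) (k : Nm) : ℝ :=
  2 * k.kap * NZ M Q T + 2 * (1 / (k.kap * (k.M + 1))) * NS M T +
      SW M tb tm T (fun n P => Real.sqrt (8 * Q.uB) *
        ((mcU P (zzn M Q T n) D tm (An M Q T n R rel Vk) w0 c b d k + mcU P (zzn M Q T n) D tm (An M Q T n R rel Vk) w0 d b c k) /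
          2)) + NE M Q T R

variable {w0 : Om W X β} {b c d : Fin 3} {k k' : Nm} {L Ln : ℝ} {t : ℕ → TR (Om W X β)}

/-- **KINDS 2, 3, 4 AT THE ZONES** : exactly the top `(b, c)` is bad; `Ra` = also the top `(b, d)`, `Rb` = also `(c, d)` -/
theorem g_sum (hO : OnTab M tb tm) (H : Seen M) {dg : ℕ → X → ℝ} {Lam : ℝ} (HD : D.Hyp dg prr al T0 Lam)
    (hTs : tm T ≤ T0) (hr1 : Rl M Q R1 rel rln Vk) (hra : Rl M Q Ra rel rln Vk) (hrb : Rl M Q Rb rel rln Vk) (w0 : Om W X β)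
    (hv : V3 b c d) (hb : b ∈ Vk) (hc : c ∈ Vk) (hK : 1 < k.kap * k.K) (k0 : 0 < k.kap) (l0 : 0 ≤ k.lam)
    (hK' : 1 < k'.kap * k'.K) (k0' : 0 < k'.kap) (ht : ∀ n < T, TOk (An M Q T n R1 rel Vk) (ψ n) L (t n))
    (hR : ∀ n < T, ∀ w, M.P.p w ≠ 0 → (R n w ↔ R1 n w ∧ ¬ R2 n w))
    (h21 : ∀ n < T, ∀ w, M.P.p w ≠ 0 → R2 n w → R1 n w)
    (hab : ∀ n < T, ∀ w, M.P.p w ≠ 0 → R2 n w → Ra n w ∨ Rb n w) (Ln0 : 0 ≤ Ln)
    (hLn : ∀ n < T, ∀ w, M.P.p w ≠ 0 → R2 n w → -Ln ≤ ψ n w) :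
    ZS M Q T R rel Vk ψ ≤ rG tb M tm Q T R1 rel Vk w0 b c d t k L +
      Ln * (rH tb M tm Q T Ra rel Vk w0 b c d k' + rH tb M tm Q T Rb rel Vk w0 c b d k') := by
  have h1 := exact_le (M := M) (Q := Q) (rel := rel) (Vk := Vk) hR h21 hLn
  have h2 : ZS M Q T R1 rel Vk ψ ≤ rG tb M tm Q T R1 rel Vk w0 b c d t k L := gx_sum hO H HD hTs hr1 w0 hv hb hc hK k0 l0 ht
  have h3 := NA_le2 (M := M) (Q := Q) (rel := rel) (Vk := Vk) hab
  have h4 : NA M Q T Ra rel Vk ≤ rH tb M tm Q T Ra rel Vk w0 b c d k' := h_sum hO H HD hTs hra w0 hv hb hK' k0'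
  have h5 : NA M Q T Rb rel Vk ≤ rH tb M tm Q T Rb rel Vk w0 c b d k' := h_sum hO H HD hTs hrb w0 hv.r1 hc hK' k0'
  have h6 := mul_le_mul_of_nonneg_left (h3.trans (add_le_add h4 h5)) Ln0
  linarith

/-- **KIND 5 AT THE ZONES** : at least two bad tops; `Ra`, `Rb`, `Rc` = the tops over `b`, over `c`, over `d` are bad -/
theorem k5_sum (hO : OnTab M tb tm) (H : Seen M) {dg : ℕ → X → ℝ} {Lam : ℝ} (HD : D.Hyp dg prr al T0 Lam)
    (hTs : tm T ≤ T0) (hra : Rl M Q Ra rel rln Vk) (hrb : Rl M Q Rb rel rln Vk) (hrc : Rl M Q Rc rel rln Vk) (w0 : Om W X β)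
    (hv : V3 b c d) (hb : b ∈ Vk) (hc : c ∈ Vk) (hd : d ∈ Vk) (hK : 1 < k.kap * k.K) (k0 : 0 < k.kap)
    (hab : ∀ n < T, ∀ w, M.P.p w ≠ 0 → R n w → Ra n w ∨ Rb n w ∨ Rc n w) (L0 : 0 ≤ L)
    (hL : ∀ n < T, ∀ w, M.P.p w ≠ 0 → R n w → ψ n w ≤ L) :
    ZS M Q T R rel Vk ψ ≤ L * (rH tb M tm Q T Ra rel Vk w0 b c d k + rH tb M tm Q T Rb rel Vk w0 c b d k +
      rH tb M tm Q T Rc rel Vk w0 d b c k) := by
  have h1 := uns_le (M := M) (Q := Q) (rel := rel) (Vk := Vk) hL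
  have h2 := NA_le3 (M := M) (Q := Q) (rel := rel) (Vk := Vk) hab
  have hv' : V3 d b c := ⟨hv.bd.symm, hv.cd.symm, hv.bc⟩
  have h4 : NA M Q T Ra rel Vk ≤ rH tb M tm Q T Ra rel Vk w0 b c d k := h_sum hO H HD hTs hra w0 hv hb hK k0
  have h5 : NA M Q T Rb rel Vk ≤ rH tb M tm Q T Rb rel Vk w0 c b d k := h_sum hO H HD hTs hrb w0 hv.r1 hc hK k0
  have h6 : NA M Q T Rc rel Vk ≤ rH tb M tm Q T Rc rel Vk w0 d b c k := h_sum hO H HD hTs hrc w0 hv' hd hK k0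
  exact h1.trans (mul_le_mul_of_nonneg_left (h2.trans (add_le_add (add_le_add h4 h5) h6)) L0)

/-- **AN UNSIGNED PAIR KIND AT THE ZONES** : vertex `b` (kinds `H`, `HOT`) -/
theorem uns1_sum (hO : OnTab M tb tm) (H : Seen M) {dg : ℕ → X → ℝ} {Lam : ℝ} (HD : D.Hyp dg prr al T0 Lam)
    (hTs : tm T ≤ T0) (hr : Rl M Q R rel rln Vk) (w0 : Om W X β) (hv : V3 b c d) (hb : b ∈ Vk) (hK : 1 < k.kap * k.K) (k0 : 0 < k.kap)
    (L0 : 0 ≤ L) (hL : ∀ n < T, ∀ w, M.P.p w ≠ 0 → R n w → ψ n w ≤ L) :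
    ZS M Q T R rel Vk ψ ≤ L * rH tb M tm Q T R rel Vk w0 b c d k := by
  have h4 : NA M Q T R rel Vk ≤ rH tb M tm Q T R rel Vk w0 b c d k := h_sum hO H HD hTs hr w0 hv hb hK k0
  exact (uns_le (M := M) (Q := Q) (rel := rel) (Vk := Vk) hL).trans (mul_le_mul_of_nonneg_left h4 L0)

end

end Pool.Agent.GMH.UV0G
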