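import Pool.Agent.GMH.UV0G
import Pool.Agent.GMH.HotU

/-!
# GMH/UV0H (helper98): THE ZONE SUMS OF `GMH/Unm` ARE THE SUMS OF `GMH/UV0G`

The relations of a kind: `rel v = kz v`, `rln = kv none` (`UV0.rl_kz`).
* `dcS_eq` : the zone term of `Unm.signed` is `ZS` of `kd none`; `NH0_eq` : the number of the zones in the relation is `NA`;
* `NH0_le` : an unsigned pair kind (`HOT`, `H`; vertex `b`): `UV0.h_sum`; `dcS_le` : the same for a test `≤ L`;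
* `dcG_le`, `dc5_le` : kinds 2 - 4 and kind 5.
-/

set_option autoImplicit false
set_option linter.unusedSectionVars false

namespace Pool.Agent.GMH.UV0G

open Finset Pool.Agent.PWZ Pool.Agent.M3 Pool.Agent.GM Pool.Agent.GM.Harm Pool.Agent.GMH
open Pool.Agent.GMH.Gdy Pool.Agent.GMH.Dy Pool.Agent.GMH.TabF Pool.Agent.GMH.Blk Pool.Agent.GMH.GhoZ3
open Pool.Agent.GMH.TabZ (Zn V3 TR TOk TOkr Nm mcR mcG mcU)
open Pool.Agent.GMH.MV Pool.Agent.GMH.CK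
open Pool.Agent.GMH.UV (US Kd Seen Mx M0 Z0 zt blk dd bet tkx Rn tv Prv)
open Pool.Agent.GMH.UV0

noncomputable section

variable {X β γ φ : Type} [Fintype X] [Fintype β] [Fintype φ] [Nonempty X] [Nonempty β]
variable {D : HD (Fin 3) X β γ φ} {al : ℝ} {prr : ℕ → Fin 3 → φ → φ} {T0 : ℕ} {W : Type} [Fintype W]
variable {tb : Tab D prr T0 W} {M : US (Om W X β)} {tm : ℕ → ℕ} {Q : Kd (Om W X β)} {T n : ℕ} {z : Om W X β}
variable {R : ℕ → Om W X β → Prop} {Vk : Finset (Fin 3)}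

/-- the zone term of the signed sum -/
theorem dcS_eq (f : ℕ → Om W X β → ℝ) :
    ∑ n ∈ range T, M.P.E (fun w => ind (nu M.toMS n w = n ∧ UV.dc0 M Q T n w) * f n w) =
      ZS M Q T (Q.kd none) Q.kz Q.Vk f := by
  unfold ZS
  refine Finset.sum_congr rfl fun n _ => M.P.E_congr fun w _ => ?_
  rw [ind_and, mul_assoc]
  have h := dc0_iff (M := M) (Q := Q) (T := T) (n := n) (R := Q.kd none) (rel := Q.kz)
    (fun _ _ => Iff.rfl) (fun _ _ _ _ => Iff.rfl) w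
  rw [show UV.dc0 M Q T n w = (∃ s, An M Q T n (Q.kd none) Q.kz Q.Vk s w) from propext h]

/-- the number of the zones in the relation -/
theorem NH0_eq : UV.NH0 M Q T = NA M Q T (Q.kd none) Q.kz Q.Vk := by
  unfold UV.NH0 NA
  refine Finset.sum_congr rfl fun n _ => M.P.Pr_congr fun w _ => ?_
  have h := dc0_iff (M := M) (Q := Q) (T := T) (n := n) (R := Q.kd none) (rel := Q.kz)
    (fun _ _ => Iff.rfl) (fun _ _ _ _ => Iff.rfl) w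
  exact and_congr_right fun _ => h

variable {b c d : Fin 3} {k : Nm} {L : ℝ}

/-- **AN UNSIGNED PAIR KIND AT THE ZONES** (`HOT`, `H`), vertex `b` -/
theorem NH0_le (hO : OnTab M tb tm) (H : Seen M) {dg : ℕ → X → ℝ} {Lam : ℝ} (HD : D.Hyp dg prr al T0 Lam)
    (hTs : tm T ≤ T0) (HP : Prv M Q) (hkn : ∀ n w, Q.kd none n w → Q.kv none n w) (w0 : Om W X β) (hv : V3 b c d) (hb : b ∈ Q.Vk)
    (hK : 1 < k.kap * k.K) (k0 : 0 < k.kap) :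
    UV.NH0 M Q T ≤ rH tb M tm Q T (Q.kd none) Q.kz Q.Vk w0 b c d k := by
  rw [NH0_eq]
  exact h_sum hO H HD hTs (rl_kz HP hkn) w0 hv hb hK k0

/-- the same for a test `≤ L` -/
theorem dcS_le (hO : OnTab M tb tm) (H : Seen M) {dg : ℕ → X → ℝ} {Lam : ℝ} (HD : D.Hyp dg prr al T0 Lam)
    (hTs : tm T ≤ T0) (HP : Prv M Q) (hkn : ∀ n w, Q.kd none n w → Q.kv none n w) (w0 : Om W X β) (hv : V3 b c d) (hb : b ∈ Q.Vk)
    (hK : 1 < k.kap * k.K) (k0 : 0 < k.kap) {f : ℕ → Om W X β → ℝ} (L0 : 0 ≤ L)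
    (hL : ∀ n < T, ∀ w, M.P.p w ≠ 0 → Q.kd none n w → f n w ≤ L) :
    ∑ n ∈ range T, M.P.E (fun w => ind (nu M.toMS n w = n ∧ UV.dc0 M Q T n w) * f n w) ≤
      L * rH tb M tm Q T (Q.kd none) Q.kz Q.Vk w0 b c d k := by
  rw [dcS_eq]
  exact uns1_sum hO H HD hTs (rl_kz HP hkn) w0 hv hb hK k0 L0 hL

variable {R1 R2 Ra Rb Rc : ℕ → Om W X β → Prop} {k' : Nm} {Ln : ℝ} {t : ℕ → TR (Om W X β)} {f : ℕ → Om W X β → ℝ}

/-- **KINDS 2, 3, 4** : the zone term; `kd none` = `R1` and not `R2` -/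
theorem dcG_le (hO : OnTab M tb tm) (H : Seen M) {dg : ℕ → X → ℝ} {Lam : ℝ} (HD : D.Hyp dg prr al T0 Lam)
    (hTs : tm T ≤ T0) (HP : Prv M Q) (h1n : ∀ n w, R1 n w → Q.kv none n w) (han : ∀ n w, Ra n w → Q.kv none n w)
    (hbn : ∀ n w, Rb n w → Q.kv none n w) (w0 : Om W X β) (hv : V3 b c d) (hb : b ∈ Q.Vk) (hc : c ∈ Q.Vk)
    (hK : 1 < k.kap * k.K) (k0 : 0 < k.kap) (l0 : 0 ≤ k.lam) (hK' : 1 < k'.kap * k'.K) (k0' : 0 < k'.kap)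
    (ht : ∀ n < T, TOk (An M Q T n R1 Q.kz Q.Vk) (f n) L (t n))
    (hR : ∀ n < T, ∀ w, M.P.p w ≠ 0 → (Q.kd none n w ↔ R1 n w ∧ ¬ R2 n w))
    (h21 : ∀ n < T, ∀ w, M.P.p w ≠ 0 → R2 n w → R1 n w)
    (hab : ∀ n < T, ∀ w, M.P.p w ≠ 0 → R2 n w → Ra n w ∨ Rb n w) (Ln0 : 0 ≤ Ln)
    (hLn : ∀ n < T, ∀ w, M.P.p w ≠ 0 → R2 n w → -Ln ≤ f n w) :
    ∑ n ∈ range T, M.P.E (fun w => ind (nu M.toMS n w = n ∧ UV.dc0 M Q T n w) * f n w) ≤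
      rG tb M tm Q T R1 Q.kz Q.Vk w0 b c d t k L +
      Ln * (rH tb M tm Q T Ra Q.kz Q.Vk w0 b c d k' +
        rH tb M tm Q T Rb Q.kz Q.Vk w0 c b d k') := by
  rw [dcS_eq]
  exact g_sum hO H HD hTs (rl_kz HP h1n) (rl_kz HP han) (rl_kz HP hbn) w0 hv hb hc hK k0 l0 hK' k0' ht hR h21 hab Ln0 hLn

/-- **KIND 5** : the zone term -/
theorem dc5_le (hO : OnTab M tb tm) (H : Seen M) {dg : ℕ → X → ℝ} {Lam : ℝ} (HD : D.Hyp dg prr al T0 Lam)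
    (hTs : tm T ≤ T0) (HP : Prv M Q) (han : ∀ n w, Ra n w → Q.kv none n w) (hbn : ∀ n w, Rb n w → Q.kv none n w)
    (hcn : ∀ n w, Rc n w → Q.kv none n w) (w0 : Om W X β) (hv : V3 b c d) (hb : b ∈ Q.Vk) (hc : c ∈ Q.Vk)
    (hd : d ∈ Q.Vk) (hK : 1 < k.kap * k.K) (k0 : 0 < k.kap)
    (hab : ∀ n < T, ∀ w, M.P.p w ≠ 0 → Q.kd none n w → Ra n w ∨ Rb n w ∨ Rc n w) (L0 : 0 ≤ L)
    (hL : ∀ n < T, ∀ w, M.P.p w ≠ 0 → Q.kd none n w → f n w ≤ L) :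
    ∑ n ∈ range T, M.P.E (fun w => ind (nu M.toMS n w = n ∧ UV.dc0 M Q T n w) * f n w) ≤
      L * (rH tb M tm Q T Ra Q.kz Q.Vk w0 b c d k +
        rH tb M tm Q T Rb Q.kz Q.Vk w0 c b d k +
        rH tb M tm Q T Rc Q.kz Q.Vk w0 d b c k) := by
  rw [dcS_eq]
  exact k5_sum hO H HD hTs (rl_kz HP han) (rl_kz HP hbn) (rl_kz HP hcn) w0 hv hb hc hd hK k0 hab L0 hL

end

end Pool.Agent.GMH.UV0G
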