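import Pool.Agent.GMH.UVZ

/-!
# GMH/UVK (helper85): A STATIC SET OF PAIRS `(c, d)` WHICH `b` DOES NOT SEE (`K'` of the old tables; H3.UNM, U.4 (b))

`K` = event of `V` (exact `(c, d)`), static in the world; `AK s` = in `K` and the density of `K` at the node was `≥ y'` at a
time `≤ s`; `tk` = unique times seen by (exact `b`, cells of `(c, d)`).
* `stat` : `P (R, tk, K) ≤ y' P (tk) + (u3 + u0 / (u3 y')) P (AK at sg)`, if the density of `R` at the node is `< u0` up to `tk`;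
* `nk_w`, `nk_sum` : over `US`: the term `NK` of `UVZ.z_sum` for `R' n = R n ∧ ¬ K n`;
* `nk_den` : the term `NK` when the tuples of `R` outside `R'` have a small density at the exact `b` at `T^b`.
-/

set_option autoImplicit false
set_option linter.unusedSectionVars false

namespace Pool.Agent.GMH.UVK

open Finset Pool.Agent.PWZ Pool.Agent.M3 Pool.Agent.GM Pool.Agent.GM.Harm Pool.Agent.GMH
open Pool.Agent.GMH.Gdy Pool.Agent.GMH.Dy Pool.Agent.GMH.TabF Pool.Agent.GMH.Blk Pool.Agent.GMH.GhoZ3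
open Pool.Agent.GMH.Three (fst fst_one fst_ex)
open Pool.Agent.GMH.GhoT (al thin_le)
open Pool.Agent.GMH.TabZ (V3 Nm)
open Pool.Agent.GMH.MV Pool.Agent.GMH.CK
open Pool.Agent.GMH.UV (US Kd Seen tv Mx M0 Z0 zt blk dd bet tkx)
open Pool.Agent.GMH.UV0 (OnTab NS SW)
open Pool.Agent.GMH.UVZ (tkn sgn Alo NB NK)

noncomputable section

/-! ## fixed world -/

section ab

variable {Om : Type*} [Fintype Om] {P : FP Om} {α ω : Type*} {U : Om → α} {V : Om → ω} {κ κv ν : ℕ → Type*}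
  {X : ∀ t, Om → κ t} {Vs : ∀ t, Om → κv t} {nd : ∀ t, Om → ν t} {tk : ℕ → Om → Prop} {R K : Om → Prop}
  {y u0 u3 : ℝ} {T : ℕ} {sg : Om → ℕ}

variable (P nd K y) in
/-- in `K`, and the node has seen a large density of `K` -/
def AK (s : ℕ) (w : Om) : Prop := K w ∧ ∃ s' ≤ s, y ≤ cp P nd s' K w

theorem AK_mono {s s' : ℕ} (h : s ≤ s') {w : Om} (a : AK P nd K y s w) : AK P nd K y s' w := by
  obtain ⟨h1, r, h2, h3⟩ := a
  exact ⟨h1, r, h2.trans h, h3⟩

theorem AK_fac (fnd : Filt nd) (hV : ∀ s, Fac (Vs s) (nd s)) (hK : ∀ s x w, Vs s x = Vs s w → (K x ↔ K w)) (s : ℕ)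
    (x w : Om) (e : Vs s x = Vs s w) : AK P nd K y s x ↔ AK P nd K y s w := by
  unfold AK
  rw [hK s x w e]
  refine and_congr_right fun _ => exists_congr fun r => and_congr_right fun hr => ?_
  rw [cp_fac r K x w (fnd.le hr x w (hV s x w e))]

theorem AK_new (fnd : Filt nd) (s : ℕ) {w : Om} :
    cp P nd s (fst (AK P nd K y) s) w ≤ 0 ∨ y ≤ cp P nd s (fst (AK P nd K y) s) w := by
  by_cases h1 : y ≤ cp P nd s K w ∧ ∀ s' < s, ¬ y ≤ cp P nd s' K w
  · right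
    refine h1.1.trans (le_of_eq (cp_congr_on fun v _ hv => ⟨fun hK => ⟨⟨hK, s, le_rfl, ?_⟩, fun s' hs' a => ?_⟩,
      fun a => a.1.1⟩))
    · rw [cp_fac s K v w hv]
      exact h1.1
    · obtain ⟨_, r, hr, h2⟩ := a
      refine h1.2 r (by omega) ?_
      rwa [cp_fac r K v w (fnd.le (by omega) v w hv)] at h2
  · left
    refine le_of_eq ?_
    have h3 : cp P nd s (fst (AK P nd K y) s) w = P.ce (nd s) (fun _ => 0) w := by
      refine ce_congr_on fun v _ hv => ind_not fun h => h1 ?_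
      obtain ⟨⟨hK, r, hr, h2⟩, h4⟩ := h
      have hrs : r = s := by
        rcases hr.eq_or_lt with e | e
        · exact e
        · exact absurd ⟨hK, r, le_rfl, h2⟩ (h4 r e)
      subst hrs
      refine ⟨by rwa [cp_fac r K v w hv] at h2, fun s' hs' h5 => h4 s' hs' ⟨hK, s', le_rfl, ?_⟩⟩
      rwa [cp_fac s' K v w (fnd.le hs'.le v w hv)]
    rw [h3]
    unfold FP.ce
    simp only [mul_zero]
    unfold FP.E
    simp

/-- **A STATIC SET WHICH `U` DOES NOT SEE** -/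
theorem stat (hI : P.Indep U V) (hX : ∀ s, Fac V (X s))
    (htk : ∀ s x w, (U x, X s x) = (U w, X s w) → (tk s x ↔ tk s w)) (k1 : ∀ w s s', tk s w → tk s' w → s = s')
    (hKV : Fac V K) (fVs : Filt Vs) (hVs : ∀ s, Fac (Vs s) (nd s)) (hVV : ∀ s, Fac (Vs s) V)
    (fnd : Filt nd) (hnd : ∀ s (g : Om → ℝ), Fac V g → ∀ w, P.p w ≠ 0 → P.ce (nd s) g w = P.ce (X s) g w)
    (hsg : Stp nd sg) (hT : ∀ w, sg w < T) (y0 : 0 < y) (c0 : 0 < u3) (z0 : 0 ≤ u0)
    (hal : ∀ s w, P.p w ≠ 0 → tk s w → al P nd R u0 s w) (hs : ∀ s w, tk s w → s ≤ sg w) :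
    P.Pr (fun w => (R w ∧ ∃ s, tk s w) ∧ K w) ≤ y * P.Pr (fun w => ∃ s, tk s w) +
      (u3 + u0 / (u3 * y)) * P.Pr (fun w => AK P nd K y (sg w) w) := by
  have hKv : ∀ s x w, Vs s x = Vs s w → (K x ↔ K w) := fun s x w e => by rw [hKV x w (hVV s x w e)]
  have h1 := thin_le (P := P) (V := Vs) (nd := nd) (R := R) (u0 := u0) (uc := u3) (uC := y) (K := AK P nd K y)
    (σ := sg) (T := T) fVs fnd hVs hsg hT c0 y0 z0 (fun s x w e => AK_fac fnd hVs hKv s x w e)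
    (fun s w _ => AK_new fnd s)
  -- the part with small density at the time
  have h2 : P.Pr (fun w => ∃ s, (tk s w ∧ K w) ∧ cp P nd s K w < y) ≤ y * P.Pr (fun w => ∃ s, tk s w) := by
    have hsT : ∀ s w, tk s w → s < T := fun s w a => lt_of_le_of_lt (hs s w a) (hT w)
    have e1 : ∀ (B : ℕ → Om → Prop), (∀ s w, B s w → tk s w) → P.Pr (fun w => ∃ s, B s w) =
        ∑ s ∈ range T, P.Pr (B s) := by
      intro B hB
      unfold FP.Pr
      rw [← FP.E_sum]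
      refine P.E_congr fun w _ => ?_
      have h3 := UVZ.sum_one (T := T) (A := fun s => B s w) fun s s' a a' => k1 w s s' (hB s w a) (hB s' w a')
      rw [h3]
      congr 1
      exact propext ⟨fun ⟨s, a⟩ => ⟨s, hsT s w (hB s w a), a⟩, fun ⟨s, _, a⟩ => ⟨s, a⟩⟩
    rw [e1 (fun s w => (tk s w ∧ K w) ∧ cp P nd s K w < y) fun s w a => a.1.1, e1 tk fun _ _ a => a, Finset.mul_sum]
    refine Finset.sum_le_sum fun s _ => ?_
    have hnK : ∀ w, P.p w ≠ 0 → cp P nd s K w = P.ce (X s) (fun x => ind (K x)) w := fun w hw =>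
      hnd s _ (Fac.ind fun x w e => by rw [hKV x w e]) w hw
    have ft : Fac (fun w => (U w, X s w)) (fun w => ind (tk s w ∧ P.ce (X s) (fun x => ind (K x)) w < y)) :=
      Fac.ind fun x w e => by
        have e' : (U x, X s x) = (U w, X s w) := e
        have e2 : X s x = X s w := (Prod.mk.inj e').2
        rw [htk s x w e', P.ce_fac (X s) _ x w e2]
    have e2 : P.Pr (fun w => (tk s w ∧ K w) ∧ cp P nd s K w < y) =
        P.E (fun w => ind (tk s w ∧ P.ce (X s) (fun x => ind (K x)) w < y) *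
          P.ce (fun w => (U w, X s w)) (fun x => ind (K x)) w) := by
      rw [P.E_mul_ce ft]
      refine P.E_congr fun w hw => ?_
      show ind ((tk s w ∧ K w) ∧ cp P nd s K w < y) =
        ind (tk s w ∧ P.ce (X s) (fun x => ind (K x)) w < y) * ind (K w)
      rw [← ind_and, hnK w hw]
      congr 1
      exact propext ⟨fun ⟨⟨a, b⟩, c⟩ => ⟨⟨a, c⟩, b⟩, fun ⟨⟨a, c⟩, b⟩ => ⟨⟨a, b⟩, c⟩⟩
    rw [e2]
    unfold FP.Pr
    rw [← FP.E_smul]
    refine P.E_mono fun w hw => ?_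
    rw [GhoZ.freezeV hI (hX s) (F := fun _ x => ind (K x)) (fun _ => Fac.ind fun x w e => by rw [hKV x w e]) hw]
    by_cases h3 : tk s w ∧ P.ce (X s) (fun x => ind (K x)) w < y
    · rw [ind_of h3, ind_of h3.1]
      linarith [h3.2]
    · rw [ind_not h3, zero_mul]
      exact mul_nonneg y0.le (ind_nonneg _)
  have h4 : P.Pr (fun w => (R w ∧ ∃ s, tk s w) ∧ K w) ≤ P.Pr (fun w => ∃ s, (tk s w ∧ K w) ∧ cp P nd s K w < y) +
      P.Pr (fun w => R w ∧ ∃ s ≤ sg w, fst (AK P nd K y) s w ∧ al P nd R u0 s w) := by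
    unfold FP.Pr
    rw [← FP.E_add]
    refine P.E_mono fun w hw => ?_
    have n1 := ind_nonneg (∃ s, (tk s w ∧ K w) ∧ cp P nd s K w < y)
    have n2 := ind_nonneg (R w ∧ ∃ s ≤ sg w, fst (AK P nd K y) s w ∧ al P nd R u0 s w)
    by_cases h5 : (R w ∧ ∃ s, tk s w) ∧ K w
    · obtain ⟨⟨hR, s, ht⟩, hK⟩ := h5
      rw [ind_of (show (R w ∧ ∃ s, tk s w) ∧ K w from ⟨⟨hR, s, ht⟩, hK⟩)]
      by_cases h6 : cp P nd s K w < y
      · rw [ind_of (show ∃ s, (tk s w ∧ K w) ∧ cp P nd s K w < y from ⟨s, ⟨ht, hK⟩, h6⟩)]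
        linarith
      · obtain ⟨s', hs', hf⟩ := fst_ex (A := AK P nd K y) (show AK P nd K y s w from ⟨hK, s, le_rfl, not_lt.1 h6⟩)
        rw [ind_of (show R w ∧ ∃ s ≤ sg w, fst (AK P nd K y) s w ∧ al P nd R u0 s w from
          ⟨hR, s', hs'.trans (hs s w ht), hf, fun r hr => hal s w hw ht r (hr.trans hs')⟩)]
        linarith
    · rw [ind_not h5]
      linarith
  have h5 : P.Pr (fun w => ∃ s ≤ sg w, fst (AK P nd K y) s w) ≤ P.Pr (fun w => AK P nd K y (sg w) w) :=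
    P.Pr_mono fun w _ ⟨s, a, b⟩ => AK_mono a b.1
  have h6 : 0 ≤ u3 + u0 / (u3 * y) := by positivity
  have h7 := mul_le_mul_of_nonneg_left h5 h6
  linarith

end ab

/-! ## over `US` -/

section us

variable {X β γ φ : Type} [Fintype X] [Fintype β] [Fintype φ] [Nonempty X] [Nonempty β]
variable {D : HD (Fin 3) X β γ φ} {al' : ℝ} {prr : ℕ → Fin 3 → φ → φ} {T0 : ℕ} {W : Type} [Fintype W]
variable {tb : Tab D prr T0 W} {M : US (Om W X β)} {tm : ℕ → ℕ} {Q : Kd (Om W X β)} {T n : ℕ} {z w0 : Om W X β}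
  {R K : ℕ → Om W X β → Prop} {b c d : Fin 3} {y u0 u3 : ℝ}

/-- in `K n`, and the node has seen a large density in the epoch `n` -/
def AKn (M : US (Om W X β)) (K : ℕ → Om W X β → Prop) (y : ℝ) (n s : ℕ) (w : Om W X β) : Prop :=
  K n w ∧ ∃ s' ≤ s, n ≤ s' ∧ y ≤ M.P.ce (M.S ∅ s') (fun x => ind (K n x)) w

/-- **ONE WORLD** -/
theorem nk_w (hO : OnTab M tb tm) (H : Seen M) (w0 : Om W X β) (hv : V3 b c d) (hn : n ≤ T)
    (hM : Alo M Q T b R u0) (hK : Fac (TabF.pj w0 {c, d} {b}) (K n)) (y0 : 0 < y) (c0 : 0 < u3) (z0 : 0 ≤ u0) :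
    (WE tb ∅ (tm n) z).Pr (fun w => (R n w ∧ ∃ s, tkn M Q T n b s w) ∧ K n w) ≤
      y * (WE tb ∅ (tm n) z).Pr (fun w => ∃ s, tkn M Q T n b s w) +
      (u3 + u0 / (u3 * y)) * (WE tb ∅ (tm n) z).Pr (fun w => n ≤ sgn M T n w ∧ AKn M K y n (sgn M T n w) w) := by
  obtain ⟨q1, q2, q3, q4, -, -⟩ := hv.dec
  have F : Face (WE tb ∅ (tm n) z) (fun w => w) (fun _ _ => False) (TabF.pj w0 {b} {c, d}) (TabF.pj w0 {c, d} {b})
      (fun s => si D ∅ {c, d} ∅ (tm s)) := by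
    have e := face (wo_WE tb ∅ (tm n) z) w0 (F := {c, d}) (G := {b}) (S := {b}) (S' := {c, d}) q1
      (by rw [Finset.empty_union]; exact q2) q3 q4 hO.ht (zz := fun _ _ => False) (fun _ _ _ _ => Iff.rfl)
    simp only [Finset.empty_union] at e
    exact e
  have hux : ∀ s (x w : Om W X β), (TabF.pj w0 {b} {c, d} x, si D ∅ {c, d} ∅ (tm s) x) =
      (TabF.pj w0 {b} {c, d} w, si D ∅ {c, d} ∅ (tm s) w) → sgt D {b} (tm s) x = sgt D {b} (tm s) w := by
    intro s x w e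
    rw [Prod.mk.injEq, pj_eq, si_eq] at e
    obtain ⟨⟨a1, -, a3⟩, -, -, -, b4⟩ := e
    rw [sgt_eq]
    refine ⟨a1, a3, fun j => ?_⟩
    rcases Finset.mem_union.1 (show j ∈ ({b} : Finset (Fin 3)) ∪ {c, d} from q2 ▸ mem_univ j) with hj | hj
    · rw [a3 j hj]
    · exact b4 j hj
  have h1 := stat (P := WE tb ∅ (tm n) z) (U := TabF.pj w0 {b} {c, d}) (V := TabF.pj w0 {c, d} {b})
    (X := fun s => si D ∅ {c, d} ∅ (tm s)) (Vs := fun s => si D {c, d} univ {b} (tm s))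
    (nd := fun s => sgt D ∅ (tm s)) (tk := tkn M Q T n b) (R := R n) (K := K n)
    (y := y) (u0 := u0) (u3 := u3) (T := T + 1)
    (sg := sgn M T n) F.iI F.hX
    (fun s x w e => UVZ.tkn_S hO H (hux s x w e)) (fun w s s' a a' => UVZ.tkn_one a a') hK
    (fun s => si_fac (Finset.Subset.refl _) (fun j hj => Or.inr ⟨hj, hO.ht s⟩) (Finset.Subset.refl _))
    (fun s => fac_sgt _ _ (Finset.empty_subset _) (tm s))
    (fun s => fac_si_pj w0 (Finset.Subset.refl _) (Finset.Subset.refl _) (tm s))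
    (fun s v w e => by
      rw [sgt_eq] at e ⊢
      exact ⟨e.1, e.2.1, fun j => Dy.qb_mono (hO.ht s) (e.2.2 j)⟩)
    (fun s g hg w hw => by
      have e := face_ch (wo_WE tb ∅ (tm n) z) w0 (F := {c, d}) (S := {b}) (m := tm s) (g := g)
        (by rw [Finset.empty_union]; exact hg) hw
      exact e.symm)
    (UVZ.stp_sgn hO H) (fun w => Nat.lt_succ_of_le (UVZ.sgn_le hn)) y0 c0 z0
    (fun s w hw a => UVZ.tkn_al (z := z) hO hM hw a) (fun s w a => UVZ.tkn_sgn a)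
  refine h1.trans (add_le_add le_rfl (mul_le_mul_of_nonneg_left ?_ (by positivity)))
  refine FP.Pr_mono _ fun w hw => ?_
  rintro ⟨hKw, s', hs', h2⟩
  have hns : n ≤ sgn M T n w := by
    obtain ⟨r, hr, h3, -⟩ := UVZ.sgn_iff.1 (le_refl (sgn M T n w))
    exact h3.trans hr
  refine ⟨hns, hKw, ?_⟩
  have hcst : ∀ s' ≤ n, cp (WE tb ∅ (tm n) z) (fun s => sgt D ∅ (tm s)) s' (K n) w =
      cp (WE tb ∅ (tm n) z) (fun s => sgt D ∅ (tm s)) n (K n) w := by
    intro s' h3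
    refine ce_supp (fun x y hx hy => ?_) _ hw
    have e : sgt D ∅ (tm n) x = sgt D ∅ (tm n) y :=
      ((WE_supp tb).1 hx).2.trans ((WE_supp tb).1 hy).2.symm
    refine ⟨fun _ => e, fun _ => ?_⟩
    rw [sgt_eq] at e ⊢
    exact ⟨e.1, e.2.1, fun j => Dy.qb_mono (hO.mono h3) (e.2.2 j)⟩
  rcases Nat.lt_or_ge s' n with h3 | h3
  · refine ⟨n, hns, le_rfl, ?_⟩
    rw [hcst s' h3.le] at h2
    refine h2.trans (le_of_eq ?_)
    exact UV0.ce_M (z := z) hO (Finset.Subset.refl _) le_rfl hw _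
  · refine ⟨s', hs', h3, h2.trans (le_of_eq ?_)⟩
    exact UV0.ce_M (z := z) hO (Finset.Subset.refl _) h3 hw _

/-- **THE TERM `NK` OF `UVZ.z_sum`** for `R' n = R1 n ∧ ¬ K n`, `R1 n` = relation of the life -/
theorem nk_sum (hO : OnTab M tb tm) (H : Seen M) (w0 : Om W X β) (hv : V3 b c d)
    {R1 : ℕ → Om W X β → Prop} (hM : Alo M Q T b (fun n w => R1 (tv M b n w) w) u0)
    (hK : ∀ n, Fac (TabF.pj w0 {c, d} {b}) (K n)) (y0 : 0 < y) (c0 : 0 < u3) (z0 : 0 ≤ u0) :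
    NK M Q T b R1 (fun n w => R1 (tv M b n w) w ∧ ¬ K n w) ≤ y * NB M Q T b (fun _ _ => True) +
      (u3 + u0 / (u3 * y)) * ∑ n ∈ range T, M.P.Pr (fun w => nu M.toMS n w = n ∧ AKn M K y n (sgn M T n w) w) := by
  rw [UVZ.NB_eq]
  unfold NK
  rw [Finset.mul_sum, Finset.mul_sum, ← Finset.sum_add_distrib]
  refine Finset.sum_le_sum fun n hn => ?_
  rw [UV0.start_avg hO H n (fun w => ind ((R1 (tv M b n w) w ∧ ∃ s, tkn M Q T n b s w) ∧
      ¬ (R1 (tv M b n w) w ∧ ¬ K n w))),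
    UV0.start_avg hO H n (fun w => ind (True ∧ ∃ s, tkn M Q T n b s w)),
    UV0.start_Pr hO H n (fun w => AKn M K y n (sgn M T n w) w)]
  rw [← FP.E_smul, ← FP.E_smul, ← FP.E_add]
  refine M.P.E_mono fun z _ => ?_
  have h1 := nk_w (z := z) (T := T) (n := n) (R := fun n w => R1 (tv M b n w) w) hO H w0 hv (mem_range.1 hn).le hM
    (hK n) y0 c0 z0
  have h0 := ind_nonneg (nu M.toMS n z = n)
  have e1 : (WE tb ∅ (tm n) z).E (fun w => ind ((R1 (tv M b n w) w ∧ ∃ s, tkn M Q T n b s w) ∧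
      ¬ (R1 (tv M b n w) w ∧ ¬ K n w))) ≤
      (WE tb ∅ (tm n) z).Pr (fun w => (R1 (tv M b n w) w ∧ ∃ s, tkn M Q T n b s w) ∧ K n w) := by
    refine FP.E_mono _ fun w _ => ind_mono ?_
    rintro ⟨h2, h3⟩
    exact ⟨h2, by_contra fun h4 => h3 ⟨h2.1, h4⟩⟩
  have e2 : (WE tb ∅ (tm n) z).Pr (fun w => n ≤ sgn M T n w ∧ AKn M K y n (sgn M T n w) w) ≤
      (WE tb ∅ (tm n) z).Pr (fun w => AKn M K y n (sgn M T n w) w) := FP.Pr_mono _ fun w _ a => a.2
  have hc : 0 ≤ u3 + u0 / (u3 * y) := by positivity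
  have h4 := e1.trans (h1.trans (add_le_add le_rfl (mul_le_mul_of_nonneg_left e2 hc)))
  refine (mul_le_mul_of_nonneg_left h4 h0).trans (le_of_eq ?_)
  unfold FP.Pr
  simp only [true_and]
  ring

/-- a decided life as a sum over its time -/
theorem tkn_pt {P : Prop} (w : Om W X β) : ind (nu M.toMS n w = n) * ind (P ∧ ∃ s, tkn M Q T n b s w) =
    ∑ s ∈ range T, ind (tkn M Q T n b s w) * ind P := by
  classical
  rw [← Finset.sum_mul, UVZ.sum_one fun s s' h h' => UVZ.tkn_one h h', ← ind_and, ← ind_and]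
  congr 1
  refine propext ⟨fun ⟨_, hp, s, hs⟩ => ⟨⟨s, hs.1, hs⟩, hp⟩, fun ⟨⟨s, _, hs⟩, hp⟩ => ⟨UVZ.tkn_nu hs, hp, s, hs⟩⟩

/-- **THE TERM `NK`, when the tuples of `R` outside `R'` have a small density at the exact `b` at `T^b`** (tuples moved before
the public start: the clock of the life has not ended, so their density is small) -/
theorem nk_den (H : Seen M) {R' : ℕ → Om W X β → Prop} {κ : ℝ}
    (hκ : ∀ n s w, M.P.p w ≠ 0 → tkn M Q T n b s w →
      M.P.ce (M.S {b} s) (fun u => ind (R (tv M b n u) u ∧ ¬ R' n u)) w ≤ κ) :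
    NK M Q T b R R' ≤ κ * NB M Q T b (fun _ _ => True) := by
  rw [UVZ.NB_eq]
  unfold NK
  rw [Finset.mul_sum]
  refine Finset.sum_le_sum fun n _ => ?_
  have e1 : ∀ w, ind (nu M.toMS n w = n) * ind ((R (tv M b n w) w ∧ ∃ s, tkn M Q T n b s w) ∧ ¬ R' n w) =
      ∑ s ∈ range T, ind (tkn M Q T n b s w) * ind (R (tv M b n w) w ∧ ¬ R' n w) := fun w => by
    rw [← tkn_pt (P := R (tv M b n w) w ∧ ¬ R' n w) w]
    congr 1
    congr 1
    exact propext ⟨fun h => ⟨⟨h.1.1, h.2⟩, h.1.2⟩, fun h => ⟨⟨h.1.1, h.2⟩, h.1.2⟩⟩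
  have e2 : ∀ w, ind (nu M.toMS n w = n) * ind (True ∧ ∃ s, tkn M Q T n b s w) =
      ∑ s ∈ range T, ind (tkn M Q T n b s w) := fun w => by
    rw [tkn_pt (P := True) w]
    exact Finset.sum_congr rfl fun s _ => by rw [ind_of trivial, mul_one]
  simp only [e1, e2]
  rw [FP.E_sum, FP.E_sum, Finset.mul_sum]
  refine Finset.sum_le_sum fun s _ => ?_
  have ft : Fac (M.S {b} s) (fun w => ind (tkn M Q T n b s w)) := Fac.ind fun x w e => by
    unfold tkn
    rw [UV.nu_S H le_rfl x w e, UV.tau_S H b le_rfl x w e, UV.tkx_S H b le_rfl e]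
  rw [← M.P.E_mul_ce ft, ← FP.E_smul]
  refine M.P.E_mono fun w hw => ?_
  by_cases h : tkn M Q T n b s w
  · rw [ind_of h, one_mul, mul_one]
    exact hκ n s w hw h
  · rw [ind_not h, zero_mul, mul_zero]

end us

end

end Pool.Agent.GMH.UVK
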