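import Pool.Agent.GMH.UVK

/-!
# GMH/UVN (helper85): SMALL TERMS OF THE RIGHT SIDES OF `UV0`, `UVZ` IN TERMS OF RARE EVENTS

* `ynp_le` : young lives decided at the final time: density at most `y`, or the rare event `bet`, `y < Mx`;
* `NE_le` : zones at the very start of an epoch: one of the four static densities is large at a public start;
* `vy_uns` : the violations of the young lives without a sign (`g = 1`, `lam = 0`): the density of the relation of the life is at
  least `y1` at the end of a young decided life.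
-/

set_option autoImplicit false
set_option linter.unusedSectionVars false

namespace Pool.Agent.GMH.UVN

open Finset Pool.Agent.PWZ Pool.Agent.M3 Pool.Agent.GMH Pool.Agent.GMH.Gdy
open Pool.Agent.GMH.MV Pool.Agent.GMH.CK
open Pool.Agent.GMH.UV (US Kd Seen tv Mx M0 Z0 zt blk dd bet tkx Rn)
open Pool.Agent.GMH.UVZ (ynp yend yng mR mG vio VY)

noncomputable section

section gen

variable {Om : Type} [Fintype Om] {M : US Om} {Q : Kd Om} {v : Fin 3} {T : ℕ} {R : ℕ → Om → Prop} {y y1 : ℝ}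

theorem ynp_S (H : Seen M) (v : Fin 3) (q : ℕ) {a b : Om} (e : M.S {v} q a = M.S {v} q b) :
    ynp M Q v q a ↔ ynp M Q v q b := by
  unfold ynp
  rw [UV.nu_S H le_rfl a b e, UV.tau_S H v le_rfl a b e]
  exact and_congr_right fun _ => exists_congr fun s => and_congr_right fun hs => and_congr_right fun _ =>
    UV.tkx_S H v hs.le e

theorem ynp_bet {q : ℕ} {w : Om} (h : ynp M Q v q w) : bet M Q v q w := by
  obtain ⟨-, s, hs, hts, hx⟩ := h
  exact ⟨s, hts, hs.le, hx.1⟩

/-- **the young lives decided at the final time** -/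
theorem ynp_le (H : Seen M) (y0 : 0 ≤ y)
    (hR : ∀ w, M.P.ce (M.S {v} T) (fun u => ind (R (tv M v T u) u)) w ≤ Mx M Q v T w) :
    M.P.Pr (fun w => ynp M Q v T w ∧ R (tv M v T w) w) ≤
      y * M.P.Pr (ynp M Q v T) + M.P.Pr (fun w => bet M Q v T w ∧ y < Mx M Q v T w) := by
  have f1 : Fac (M.S {v} T) (fun w => ind (ynp M Q v T w)) := Fac.ind fun a b e => ynp_S H v T e
  have e1 : M.P.Pr (fun w => ynp M Q v T w ∧ R (tv M v T w) w) =
      M.P.E (fun w => ind (ynp M Q v T w) * M.P.ce (M.S {v} T) (fun u => ind (R (tv M v T u) u)) w) := by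
    rw [M.P.E_mul_ce f1]
    exact M.P.E_congr fun w _ => ind_and _ _
  rw [e1]
  unfold FP.Pr
  rw [← FP.E_smul, ← FP.E_add]
  refine M.P.E_mono fun w hw => ?_
  have h1 : M.P.ce (M.S {v} T) (fun u => ind (R (tv M v T u) u)) w ≤ 1 := by
    rw [← M.P.ce_const (M.S {v} T) 1 hw]
    exact M.P.ce_mono (fun u _ => ind_le_one _) w
  by_cases h : ynp M Q v T w
  · rw [ind_of h, one_mul, mul_one]
    by_cases h2 : y < Mx M Q v T w
    · rw [ind_of (show bet M Q v T w ∧ y < Mx M Q v T w from ⟨ynp_bet h, h2⟩)]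
      linarith
    · rw [ind_not (fun a => h2 a.2)]
      have := hR w
      linarith [not_lt.1 h2]
  · rw [ind_not h, zero_mul, mul_zero, zero_add]
    exact ind_nonneg _

/-- **the violations of the young lives without a sign** -/
theorem vy_uns : VY M Q T v R (fun _ _ => 1) 0 y1 ≤
    ∑ q ∈ range T, M.P.Pr (fun w => (yend M Q v q w ∧ y1 ≤ mR M v R q w) ∧ R (tv M v q w) w) := by
  unfold VY
  refine Finset.sum_le_sum fun q _ => M.P.Pr_mono fun w _ h => ⟨⟨h.1.1, h.1.2.1⟩, h.2⟩

/-- **a public start with a large `M0`** : one of the four densities is large -/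
theorem M0_le (n : ℕ) : M.P.Pr (fun w => nu M.toMS n w = n ∧ Q.u0 ≤ M0 M Q n w) ≤
    ∑ o : Option (Fin 3), M.P.Pr (fun w => nu M.toMS n w = n ∧
      Q.u0 / 4 ≤ M.P.ce (M.S ∅ n) (fun u => ind (Rn M Q o n u)) w) := by
  unfold FP.Pr
  rw [← FP.E_sum]
  refine M.P.E_mono fun w _ => ?_
  by_cases h : nu M.toMS n w = n ∧ Q.u0 ≤ M0 M Q n w
  · rw [ind_of h]
    have h1 : Q.u0 ≤ ∑ o : Option (Fin 3), M.P.ce (M.S ∅ n) (fun u => ind (Rn M Q o n u)) w := by
      have h2 := h.2
      unfold M0 at h2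
      rw [h.1] at h2
      exact h2
    obtain ⟨o, ho⟩ : ∃ o : Option (Fin 3), Q.u0 / 4 ≤ M.P.ce (M.S ∅ n) (fun u => ind (Rn M Q o n u)) w := by
      by_contra hcon
      push Not at hcon
      have h3 : ∑ o : Option (Fin 3), M.P.ce (M.S ∅ n) (fun u => ind (Rn M Q o n u)) w <
          ∑ _o : Option (Fin 3), Q.u0 / 4 := Finset.sum_lt_sum_of_nonempty ⟨none, mem_univ _⟩ fun o _ => hcon o
      rw [Finset.sum_const, Finset.card_univ] at h3
      have h4 : Fintype.card (Option (Fin 3)) = 4 := by simp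
      rw [h4, nsmul_eq_mul] at h3
      push_cast at h3
      linarith
    have h5 := Finset.single_le_sum (f := fun o : Option (Fin 3) => ind (nu M.toMS n w = n ∧
      Q.u0 / 4 ≤ M.P.ce (M.S ∅ n) (fun u => ind (Rn M Q o n u)) w)) (fun _ _ => ind_nonneg _) (mem_univ o)
    rw [ind_of (show nu M.toMS n w = n ∧ Q.u0 / 4 ≤ M.P.ce (M.S ∅ n) (fun u => ind (Rn M Q o n u)) w from ⟨h.1, ho⟩)] at h5
    exact h5
  · rw [ind_not h]
    exact Finset.sum_nonneg fun _ _ => ind_nonneg _

end gen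

section tabl

variable {X β γ φ : Type} [Fintype X] [Fintype β] [Fintype φ] [Nonempty X] [Nonempty β] {W : Type} [Fintype W]
variable {M : US (Dy.Om W X β)} {Q : Kd (Dy.Om W X β)} {T : ℕ} {R : ℕ → Dy.Om W X β → Prop}

/-- **zones at the very start of a public epoch** -/
theorem NE_le : UV0.NE M Q T R ≤ ∑ n ∈ range T, ∑ o : Option (Fin 3), M.P.Pr (fun w => nu M.toMS n w = n ∧
      Q.u0 / 4 ≤ M.P.ce (M.S ∅ n) (fun u => ind (Rn M Q o n u)) w) := by
  unfold UV0.NE
  refine Finset.sum_le_sum fun n _ => le_trans (M.P.Pr_mono fun w _ h => ?_) (M0_le n)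
  exact ⟨h.1, h.2.1.2.2.1.1⟩

end tabl

end

end Pool.Agent.GMH.UVN
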