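import Pool.Agent.GMH.GhoT
import Pool.Agent.GMH.Exit

/-!
# GMH/UnmE : FROM `T^0` TO THE PUBLIC END (helper99; H3.UNM U.2, U.5, notes 4052 (4), (5), 4035 (2)), fixed `a`

One public epoch: `nd s` = node (`s = 0` : the public start), `sg` = public end (stopping time of the nodes), `R` = relation
of the lives at the start (static on the epoch), `zz s` : `T^0 = s` (unique, seen by `nd s`), `past zz s` : `T^0 ≤ s`.
* `low_le` : after `T^0` the relation of density below `w0` costs `w0` per `T^0`;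
* **`priv_le`** : private ends after `T^0` : `w0` per `T^0` + private ends at which `M_0 ≥ w0` (rare);
* **`atend_le`** : an event `Q` at a public end of the kind `af` (a-free end after a `T^0`) : `y` per end + rare; `Q = R`, or
  `Q` = the exact vertex has `M_v ≥ u_B` at the next public start;
* **`fin_le`** : the signed sum over the public removals, tuples not listed, from the static sum at `T^0` (tests `≥ - K`);
* **`epoch0`** : all together; `count0` : the number of `T^0`; `sum_epochs` : sum over the epochs.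
-/

set_option autoImplicit false
set_option linter.unusedSectionVars false

namespace Pool.Agent.GMH.UnmE

open Finset Pool.Agent.PWZ Pool.Agent.M3 Pool.Agent.GMH.Gdy Pool.Agent.GMH.CR Pool.Agent.GMH.Three
open Pool.Agent.GMH.GhoT
open Pool.Agent.GMH.Tree (stp_le stp_eq one_sum one_cnt)
open Pool.Agent.GMH.Tree3 (ev_le)

noncomputable section

variable {Om : Type*} [Fintype Om] {P : FP Om} {ν : ℕ → Type*} {nd : ∀ t, Om → ν t} {R : Om → Prop} {sg : Om → ℕ} {T : ℕ}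
  {zz pe : ℕ → Om → Prop}

/-- `T^0 ≤ s` -/
def past (zz : ℕ → Om → Prop) (s : ℕ) (w : Om) : Prop := ∃ t ≤ s, zz t w

variable (P nd R zz) in
/-- after `T^0`, small density -/
def low (w0 : ℝ) (s : ℕ) (w : Om) : Prop := past zz s w ∧ cp P nd s R w < w0

theorem past_mono {s s' : ℕ} (h : s ≤ s') {w : Om} (hw : past zz s w) : past zz s' w := by
  obtain ⟨t, ht, hz⟩ := hw
  exact ⟨t, ht.trans h, hz⟩

theorem past_fac (fnd : Filt nd) (hz : ∀ s x w, nd s x = nd s w → (zz s x ↔ zz s w)) (s : ℕ) {x w : Om}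
    (e : nd s x = nd s w) : past zz s x ↔ past zz s w := by
  unfold past
  exact exists_congr fun t => and_congr_right fun ht => hz t x w (fnd.le ht x w e)

theorem low_fac (fnd : Filt nd) (hz : ∀ s x w, nd s x = nd s w → (zz s x ↔ zz s w)) (w0 : ℝ) (s : ℕ) {x w : Om}
    (e : nd s x = nd s w) : low P nd R zz w0 s x ↔ low P nd R zz w0 s w := by
  unfold low
  rw [past_fac fnd hz s e, cp_fac s R x w e]

theorem fst_uniq {K : ℕ → Om → Prop} (w : Om) (s s' : ℕ) (h : fst K s w) (h' : fst K s' w) : s = s' := by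
  rcases lt_trichotomy s s' with h1 | h1 | h1
  · exact absurd h.1 (h'.2 s h1)
  · exact h1
  · exact absurd h'.1 (h.2 s' h1)

/-- the first time exists -/
theorem ex_fst {K : ℕ → Om → Prop} {w : Om} {n : ℕ} (h : ∃ s ≤ n, K s w) : ∃ s ≤ n, fst K s w := by
  classical
  obtain ⟨s, hs, hk⟩ := h
  have hex : ∃ s, K s w := ⟨s, hk⟩
  exact ⟨Nat.find hex, (Nat.find_min' hex hk).trans hs, Nat.find_spec hex, fun s' hs' => Nat.find_min hex hs'⟩

/-- **after `T^0` the relation of small density costs `w0` per `T^0`** -/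
theorem low_le (fnd : Filt nd) (hσ : Stp nd sg) (hT : ∀ w, sg w < T)
    (hz : ∀ s x w, nd s x = nd s w → (zz s x ↔ zz s w)) {w0 : ℝ} (h0 : 0 ≤ w0) :
    P.Pr (fun w => R w ∧ ∃ s ≤ sg w, low P nd R zz w0 s w) ≤ w0 * P.Pr (fun w => past zz (sg w) w) := by
  have hf : ∀ s x w, nd s x = nd s w → (fst (low P nd R zz w0) s x ↔ fst (low P nd R zz w0) s w) := fun s x w e => by
    unfold fst
    rw [low_fac fnd hz w0 s e]
    exact and_congr_right fun _ => forall_congr' fun s' => forall_congr' fun hs' => not_congr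
      (low_fac fnd hz w0 s' (fnd.le hs'.le x w e))
  have h1 := ev_le (P := P) (Y := nd) (nd := nd) (σ := sg) (T := T) fnd (fun s => Fac.refl (nd s)) hσ hT (ka := w0)
    (f := fst (low P nd R zz w0)) hf (fun w s s' a b => fst_uniq w s s' a b) (Q := fun _ => R) (Bad := fun _ => False)
    (fun s w _ hs _ => by rw [ind_not (fun h => h), add_zero]; exact hs.1.2.le)
  have h2 : P.Pr (fun _ : Om => False) = 0 := by
    unfold FP.Pr
    rw [P.E_congr (g := fun _ => 0) fun w _ => ind_not fun h => h, P.E_const]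
  rw [h2, add_zero] at h1
  refine (P.Pr_mono fun w _ h => ?_).trans (h1.trans (mul_le_mul_of_nonneg_left (P.Pr_mono fun w _ h => ?_) h0))
  · obtain ⟨s, hs, hf⟩ := ex_fst h.2
    exact ⟨s, hs, hf, h.1⟩
  · obtain ⟨s, hs, hf⟩ := h
    exact past_mono hs hf.1.1

/-- **PRIVATE ENDS AFTER `T^0`** -/
theorem priv_le (fnd : Filt nd) (hσ : Stp nd sg) (hT : ∀ w, sg w < T)
    (hz : ∀ s x w, nd s x = nd s w → (zz s x ↔ zz s w)) {w0 : ℝ} (h0 : 0 ≤ w0) :
    P.Pr (fun w => R w ∧ ∃ s ≤ sg w, pe s w ∧ past zz s w) ≤ w0 * P.Pr (fun w => past zz (sg w) w) +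
      P.Pr (fun w => ∃ s ≤ sg w, pe s w ∧ past zz s w ∧ w0 ≤ cp P nd s R w) := by
  refine le_trans ?_ (add_le_add (low_le (P := P) (R := R) fnd hσ hT hz h0) le_rfl)
  unfold FP.Pr
  rw [← P.E_add]
  refine P.E_mono fun w _ => ?_
  by_cases h : R w ∧ ∃ s ≤ sg w, pe s w ∧ past zz s w
  · rw [ind_of h]
    obtain ⟨hR, s, hs, hp, hq⟩ := h
    by_cases h1 : w0 ≤ cp P nd s R w
    · have h2 : ind (∃ s ≤ sg w, pe s w ∧ past zz s w ∧ w0 ≤ cp P nd s R w) = 1 := ind_of ⟨s, hs, hp, hq, h1⟩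
      rw [h2]
      have := ind_nonneg (R w ∧ ∃ s ≤ sg w, low P nd R zz w0 s w)
      linarith
    · have h2 : ind (R w ∧ ∃ s ≤ sg w, low P nd R zz w0 s w) = 1 := ind_of ⟨hR, s, hs, hq, not_le.1 h1⟩
      rw [h2]
      have := ind_nonneg (∃ s ≤ sg w, pe s w ∧ past zz s w ∧ w0 ≤ cp P nd s R w)
      linarith
  · rw [ind_not h]
    exact add_nonneg (ind_nonneg _) (ind_nonneg _)

/-- **AN EVENT AT A PUBLIC END OF THE KIND `af` WHICH FOLLOWS A `T^0`** -/
theorem atend_le (fnd : Filt nd) (hσ : Stp nd sg) (hT : ∀ w, sg w < T)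
    (hz : ∀ s x w, nd s x = nd s w → (zz s x ↔ zz s w)) {af Q : Om → Prop}
    (haf : ∀ s x w, nd s x = nd s w → sg x = s → sg w = s → (af x ↔ af w)) {y : ℝ} (_ : 0 ≤ y) :
    P.Pr (fun w => (past zz (sg w) w ∧ af w) ∧ Q w) ≤ y * P.Pr (fun w => past zz (sg w) w ∧ af w) +
      P.Pr (fun w => (past zz (sg w) w ∧ af w) ∧ y < cp P nd (sg w) Q w) := by
  set f : ℕ → Om → Prop := fun s w => sg w = s ∧ (past zz s w ∧ af w) with hfd
  have hf : ∀ s x w, nd s x = nd s w → (f s x ↔ f s w) := by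
    intro s x w e
    have h1 := stp_eq fnd (fun s => Fac.refl (nd s)) hσ e
    constructor
    · rintro ⟨a, b, c⟩
      exact ⟨h1.1 a, (past_fac fnd hz s e).1 b, (haf s x w e a (h1.1 a)).1 c⟩
    · rintro ⟨a, b, c⟩
      exact ⟨h1.2 a, (past_fac fnd hz s e).2 b, (haf s x w e (h1.2 a) a).2 c⟩
  have h1 := ev_le (P := P) (Y := nd) (nd := nd) (σ := sg) (T := T) fnd (fun s => Fac.refl (nd s)) hσ hT (ka := y)
    (f := f) hf (fun w s s' a b => a.1.symm.trans b.1) (Q := fun _ => Q)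
    (Bad := fun w => (past zz (sg w) w ∧ af w) ∧ y < cp P nd (sg w) Q w)
    (fun s w hw hs _ => by
      obtain ⟨a, b⟩ := hs
      by_cases h : y < cp P nd s Q w
      · have h2 : ind ((past zz (sg w) w ∧ af w) ∧ y < cp P nd (sg w) Q w) = 1 := ind_of (by rw [a]; exact ⟨b, h⟩)
        rw [h2]
        have h3 : cp P nd s Q w ≤ 1 := P.ce_le_const (fun _ _ => ind_le_one _) hw
        linarith
      · have := ind_nonneg ((past zz (sg w) w ∧ af w) ∧ y < cp P nd (sg w) Q w)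
        push Not at h
        linarith)
  have e1 : P.Pr (fun w => ∃ s ≤ sg w, f s w ∧ Q w) = P.Pr (fun w => (past zz (sg w) w ∧ af w) ∧ Q w) := by
    unfold FP.Pr
    refine P.E_congr fun w _ => ?_
    congr 1
    refine propext ⟨?_, fun h => ⟨sg w, le_rfl, ⟨rfl, h.1⟩, h.2⟩⟩
    rintro ⟨s, _, ⟨a, b⟩, c⟩
    rw [a]
    exact ⟨b, c⟩
  have e2 : P.Pr (fun w => ∃ s ≤ sg w, f s w) = P.Pr (fun w => past zz (sg w) w ∧ af w) := by
    unfold FP.Pr
    refine P.E_congr fun w _ => ?_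
    congr 1
    refine propext ⟨?_, fun h => ⟨sg w, le_rfl, rfl, h⟩⟩
    rintro ⟨s, _, a, b⟩
    rw [a]
    exact b
  rw [e1, e2] at h1
  exact h1

/-- **from the static sum to the sum over the good ends** : tests at least `- K` -/
theorem fin_le {A Gd : Om → Prop} {psi : Om → ℝ} {K : ℝ} (hK : ∀ w, P.p w ≠ 0 → A w → -K ≤ psi w) :
    P.E (fun w => ind (A w ∧ Gd w) * psi w) ≤ P.E (fun w => ind (A w) * psi w) + K * P.Pr (fun w => A w ∧ ¬ Gd w) := by
  unfold FP.Pr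
  rw [← P.E_smul, ← P.E_add]
  refine P.E_mono fun w hw => ?_
  by_cases ha : A w
  · by_cases hg : Gd w
    · have h2 : ind (A w ∧ ¬ Gd w) = 0 := ind_not fun h => h.2 hg
      rw [ind_of ⟨ha, hg⟩, ind_of ha, h2]
      linarith
    · have h2 : ind (A w ∧ ¬ Gd w) = 1 := ind_of ⟨ha, hg⟩
      rw [ind_not (fun h => hg h.2), ind_of ha, h2]
      have := hK w hw ha
      linarith
  · have h2 : ind (A w ∧ ¬ Gd w) = 0 := ind_not fun h => ha h.1
    rw [ind_not (fun h => ha h.1), ind_not ha, h2]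
    linarith

/-- **ONE PUBLIC EPOCH AFTER `T^0`** : `A` = decided at `T^0` (in `R`), `Rm` = the epoch ends with a public removal, `Ls` =
listed (moved, restarted, dead); `pe s` = private end at `s`; the sum over the public removals of the tuples which are not
listed, plus the private ends after `T^0` with absolute costs -/
theorem epoch0 (fnd : Filt nd) (hσ : Stp nd sg) (hT : ∀ w, sg w < T)
    (hz : ∀ s x w, nd s x = nd s w → (zz s x ↔ zz s w)) {A Rm Ls : Om → Prop}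
    (hrm : ∀ s x w, nd s x = nd s w → sg x = s → sg w = s → (Rm x ↔ Rm w))
    (hA : ∀ w, A w → R w ∧ past zz (sg w) w) {psi : Om → ℝ} {K L w0 y dec ra rp ls : ℝ}
    (hK : ∀ w, P.p w ≠ 0 → A w → -K ≤ psi w) (K0 : 0 ≤ K) (L0 : 0 ≤ L) (h0 : 0 ≤ w0) (y0 : 0 ≤ y)
    (hd : P.E (fun w => ind (A w) * psi w) ≤ dec)
    (hra : P.Pr (fun w => (past zz (sg w) w ∧ ¬ Rm w) ∧ y < cp P nd (sg w) R w) ≤ ra)
    (hrp : P.Pr (fun w => ∃ s ≤ sg w, pe s w ∧ past zz s w ∧ w0 ≤ cp P nd s R w) ≤ rp)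
    (hls : P.Pr (fun w => A w ∧ Rm w ∧ Ls w) ≤ ls) :
    P.E (fun w => ind (A w ∧ Rm w ∧ ¬ Ls w) * psi w) +
      L * P.Pr (fun w => R w ∧ ∃ s ≤ sg w, pe s w ∧ past zz s w) ≤
      dec + K * (ra + ls) + L * rp + (K * y + L * w0) * P.Pr (fun w => past zz (sg w) w) := by
  have h1 := fin_le (P := P) (A := A) (Gd := fun w => Rm w ∧ ¬ Ls w) hK
  have h2 := priv_le (P := P) (R := R) (pe := pe) fnd hσ hT hz h0
  have h3 := atend_le (P := P) (af := fun w => ¬ Rm w) (Q := R) fnd hσ hT hz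
    (fun s x w e a b => not_congr (hrm s x w e a b)) y0
  have h4 : P.Pr (fun w => A w ∧ ¬ (Rm w ∧ ¬ Ls w)) ≤ P.Pr (fun w => (past zz (sg w) w ∧ ¬ Rm w) ∧ R w) +
      P.Pr (fun w => A w ∧ Rm w ∧ Ls w) := by
    unfold FP.Pr
    rw [← P.E_add]
    refine P.E_mono fun w _ => ?_
    by_cases h : A w ∧ ¬ (Rm w ∧ ¬ Ls w)
    · rw [ind_of h]
      by_cases hr : Rm w
      · have h5 : ind (A w ∧ Rm w ∧ Ls w) = 1 := ind_of ⟨h.1, hr, not_not.1 fun hl => h.2 ⟨hr, hl⟩⟩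
        rw [h5]
        have := ind_nonneg ((past zz (sg w) w ∧ ¬ Rm w) ∧ R w)
        linarith
      · have h5 : ind ((past zz (sg w) w ∧ ¬ Rm w) ∧ R w) = 1 := ind_of ⟨⟨(hA w h.1).2, hr⟩, (hA w h.1).1⟩
        rw [h5]
        have := ind_nonneg (A w ∧ Rm w ∧ Ls w)
        linarith
    · rw [ind_not h]
      exact add_nonneg (ind_nonneg _) (ind_nonneg _)
  have h5 : P.Pr (fun w => past zz (sg w) w ∧ ¬ Rm w) ≤ P.Pr (fun w => past zz (sg w) w) :=
    P.Pr_mono fun w _ h => h.1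
  have h6 : P.Pr (fun w => A w ∧ ¬ (Rm w ∧ ¬ Ls w)) ≤ y * P.Pr (fun w => past zz (sg w) w) + ra + ls := by
    have := mul_le_mul_of_nonneg_left h5 y0
    linarith
  have h7 := mul_le_mul_of_nonneg_left h6 K0
  have h8 := mul_le_mul_of_nonneg_left (h2.trans (add_le_add le_rfl hrp)) L0
  have e1 : P.E (fun w => ind (A w ∧ Rm w ∧ ¬ Ls w) * psi w) =
      P.E (fun w => ind (A w ∧ (fun w => Rm w ∧ ¬ Ls w) w) * psi w) := rfl
  rw [e1]
  have e2 : K * (y * P.Pr (fun w => past zz (sg w) w) + ra + ls) + L * (w0 * P.Pr (fun w => past zz (sg w) w) + rp) =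
      K * (ra + ls) + L * rp + (K * y + L * w0) * P.Pr (fun w => past zz (sg w) w) := by ring
  linarith

/-- **the number of `T^0` in one epoch** : `u0` at `T^0`; the ends: exits `x`, stays `us` per `T^0`, listed, a-free -/
theorem count0 (fnd : Filt nd) (hσ : Stp nd sg) (hT : ∀ w, sg w < T)
    (hz : ∀ s x w, nd s x = nd s w → (zz s x ↔ zz s w)) (z1 : ∀ w s s', zz s w → zz s' w → s = s')
    {Rm Ls Nr : Om → Prop} (hrm : ∀ s x w, nd s x = nd s w → sg x = s → sg w = s → (Rm x ↔ Rm w)) {u0 us y x ra ls : ℝ}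
    (hu : ∀ w s, P.p w ≠ 0 → zz s w → s ≤ sg w → u0 ≤ cp P nd s R w) (y0 : 0 ≤ y) (hus : us ≤ u0 / 4) (hy : y ≤ u0 / 4)
    (hra : P.Pr (fun w => (past zz (sg w) w ∧ ¬ Rm w) ∧ y < cp P nd (sg w) R w) ≤ ra)
    (hx : P.Pr (fun w => (past zz (sg w) w ∧ R w) ∧ Rm w ∧ ¬ Ls w ∧ Nr w) ≤ x)
    (hs : P.Pr (fun w => (past zz (sg w) w ∧ R w) ∧ Rm w ∧ ¬ Ls w ∧ ¬ Nr w) ≤
      us * P.Pr (fun w => past zz (sg w) w))
    (hls : P.Pr (fun w => (past zz (sg w) w ∧ R w) ∧ Rm w ∧ Ls w) ≤ ls) :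
    u0 / 2 * P.Pr (fun w => past zz (sg w) w) ≤ x + ra + ls := by
  have h1 : u0 * P.Pr (fun w => past zz (sg w) w) ≤ P.Pr (fun w => R w ∧ ∃ s ≤ sg w, zz s w) := by
    rw [← one_sum (P := P) (Y := nd) (nd := nd) (R := R) fnd (fun s => Fac.refl (nd s)) hσ hT hz z1]
    have e1 := one_cnt (P := P) (σ := sg) (T := T) hT z1
    have e2 : P.Pr (fun w => past zz (sg w) w) = P.Pr (fun w => ∃ s ≤ sg w, zz s w) := rfl
    rw [e2, ← e1, Finset.mul_sum]
    refine Finset.sum_le_sum fun s _ => ?_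
    rw [← P.E_smul]
    refine P.E_mono fun w hw => ?_
    by_cases h : zz s w ∧ s ≤ sg w
    · rw [ind_of h, mul_one, one_mul]
      exact hu w s hw h.1 h.2
    · rw [ind_not h]
      simp
  have h3 := atend_le (P := P) (af := fun w => ¬ Rm w) (Q := R) fnd hσ hT hz
    (fun s x w e a b => not_congr (hrm s x w e a b)) y0
  have h5 : P.Pr (fun w => past zz (sg w) w ∧ ¬ Rm w) ≤ P.Pr (fun w => past zz (sg w) w) :=
    P.Pr_mono fun w _ h => h.1
  have h4 : P.Pr (fun w => R w ∧ ∃ s ≤ sg w, zz s w) ≤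
      P.Pr (fun w => (past zz (sg w) w ∧ R w) ∧ Rm w ∧ ¬ Ls w ∧ Nr w) +
      P.Pr (fun w => (past zz (sg w) w ∧ R w) ∧ Rm w ∧ ¬ Ls w ∧ ¬ Nr w) +
      P.Pr (fun w => (past zz (sg w) w ∧ R w) ∧ Rm w ∧ Ls w) + P.Pr (fun w => (past zz (sg w) w ∧ ¬ Rm w) ∧ R w) := by
    unfold FP.Pr
    rw [← P.E_add, ← P.E_add, ← P.E_add]
    refine P.E_mono fun w _ => ?_
    have n1 := ind_nonneg ((past zz (sg w) w ∧ R w) ∧ Rm w ∧ ¬ Ls w ∧ Nr w)
    have n2 := ind_nonneg ((past zz (sg w) w ∧ R w) ∧ Rm w ∧ ¬ Ls w ∧ ¬ Nr w)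
    have n3 := ind_nonneg ((past zz (sg w) w ∧ R w) ∧ Rm w ∧ Ls w)
    have n4 := ind_nonneg ((past zz (sg w) w ∧ ¬ Rm w) ∧ R w)
    by_cases h : R w ∧ ∃ s ≤ sg w, zz s w
    · rw [ind_of h]
      have hp : past zz (sg w) w := h.2
      by_cases hr : Rm w
      · by_cases hl : Ls w
        · have : ind ((past zz (sg w) w ∧ R w) ∧ Rm w ∧ Ls w) = 1 := ind_of ⟨⟨hp, h.1⟩, hr, hl⟩
          linarith
        · by_cases hn : Nr w
          · have : ind ((past zz (sg w) w ∧ R w) ∧ Rm w ∧ ¬ Ls w ∧ Nr w) = 1 := ind_of ⟨⟨hp, h.1⟩, hr, hl, hn⟩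
            linarith
          · have : ind ((past zz (sg w) w ∧ R w) ∧ Rm w ∧ ¬ Ls w ∧ ¬ Nr w) = 1 := ind_of ⟨⟨hp, h.1⟩, hr, hl, hn⟩
            linarith
      · have : ind ((past zz (sg w) w ∧ ¬ Rm w) ∧ R w) = 1 := ind_of ⟨⟨hp, hr⟩, h.1⟩
        linarith
    · rw [ind_not h]
      linarith
  set N := P.Pr (fun w => past zz (sg w) w) with hN
  have hN0 : 0 ≤ N := P.Pr_nonneg _
  have h6 := mul_le_mul_of_nonneg_left h5 y0
  have h7 := mul_le_mul_of_nonneg_right hy hN0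
  have h8 := mul_le_mul_of_nonneg_right hus hN0
  linarith

/-- **sum over the epochs** : `P` conditioned on the starts -/
theorem sum_epochs {ι : Type*} (I : Finset ι) {q : ι → ℝ} (hq : ∀ i ∈ I, 0 ≤ q i) {E D N ra rp ls X : ι → ℝ}
    {K L w0 y u0 : ℝ} (K0 : 0 ≤ K) (L0 : 0 ≤ L) (hu0 : 0 < u0) (h0 : 0 ≤ w0) (y0 : 0 ≤ y)
    (h1 : ∀ i ∈ I, E i ≤ D i + K * (ra i + ls i) + L * rp i + (K * y + L * w0) * N i)
    (h2 : ∀ i ∈ I, u0 / 2 * N i ≤ X i + ra i + ls i) :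
    ∑ i ∈ I, q i * E i ≤ ∑ i ∈ I, q i * D i + (K + (K * y + L * w0) * (2 / u0)) *
      ∑ i ∈ I, q i * (ra i + ls i) + L * ∑ i ∈ I, q i * rp i + (K * y + L * w0) * (2 / u0) * ∑ i ∈ I, q i * X i := by
  have hc : 0 ≤ K * y + L * w0 := by positivity
  have h3 : ∀ i ∈ I, q i * E i ≤ q i * D i + (K + (K * y + L * w0) * (2 / u0)) * (q i * (ra i + ls i)) +
      L * (q i * rp i) + (K * y + L * w0) * (2 / u0) * (q i * X i) := by
    intro i hi
    have h4 : N i ≤ 2 / u0 * (X i + ra i + ls i) := by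
      have := h2 i hi
      rw [div_mul_eq_mul_div, le_div_iff₀ hu0]
      linarith
    have h5 := mul_le_mul_of_nonneg_left h4 hc
    have h6 := h1 i hi
    have h7 : E i ≤ D i + (K + (K * y + L * w0) * (2 / u0)) * (ra i + ls i) + L * rp i +
        (K * y + L * w0) * (2 / u0) * X i := by
      have e : (K * y + L * w0) * (2 / u0 * (X i + ra i + ls i)) = (K * y + L * w0) * (2 / u0) * (ra i + ls i) +
        (K * y + L * w0) * (2 / u0) * X i := by ring
      rw [e] at h5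
      linarith
    have h8 := mul_le_mul_of_nonneg_left h7 (hq i hi)
    refine h8.trans (le_of_eq ?_)
    ring
  refine (Finset.sum_le_sum h3).trans (le_of_eq ?_)
  rw [Finset.sum_add_distrib, Finset.sum_add_distrib, Finset.sum_add_distrib, ← Finset.mul_sum, ← Finset.mul_sum,
    ← Finset.mul_sum]

end

end Pool.Agent.GMH.UnmE
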