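import Pool.Agent.GMH.UnmP

/-!
# GMH/UnmM (helper32): NEWLY MOVED AT A DECIDED VERTEX (joint private step)

`nm v q` : `v` is decided, the tuple is in the relation of the life and becomes moved (for the class of `v`) in the step `q`.
* `first_pass` : the first passage of a monotone event in a life, any clock;
* `nm_one` : at most once per life;
* **`nm_le`** : `Σ P (nm v q, no removal seen by v) ≤ 2 Σ P (afv v q, in the relation) + Σ P (rp v q, decided, in the relation,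
  moved) + Σ P (ru q, ..) + P (final time, ..)`.
-/

set_option autoImplicit false
set_option linter.unusedSectionVars false

namespace Pool.Agent.GMH.UV

open Finset Pool.Agent.PWZ Pool.Agent.M3 Pool.Agent.GMH.TD Pool.Agent.GMH.CK Pool.Agent.GMH.MV Pool.Agent.GMH.UnmL

noncomputable section

variable {Om : Type} [Fintype Om] (M : US Om) (Q : Kd Om) (A : Stps (Om := Om))

/-- **FIRST PASSAGE** of a monotone event `m2 ν k` in the lives of the clock `C` -/
theorem first_pass {P : FP Om} {C : ℕ → ℕ → Om → Prop} {b F : ℕ → Om → Prop} {m2 : ℕ → ℕ → Om → Prop} {T : ℕ}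
    (hb : ∀ q q' w, q ≤ q' → stg C q' w = stg C q w → b q w → b q' w)
    (hm : ∀ ν k k' w, k ≤ k' → m2 ν k w → m2 ν k' w) :
    ∑ q ∈ range T, P.Pr (fun w => F q w ∧ b q w ∧ ¬ m2 (stg C q w) q w ∧ m2 (stg C q w) (q + 1) w) ≤
      ∑ q ∈ range T, P.Pr (fun w => F q w ∧ b q w ∧ stg C (q + 1) w = q + 1) +
        ∑ q ∈ range T, P.Pr (fun w => stg C (q + 1) w = q + 1 ∧ b q w ∧ m2 (stg C q w) q w) +
          P.Pr (fun w => b T w ∧ m2 (stg C T w) T w) := by
  classical
  set L : ℕ → Om → Prop := fun q w => (b q w ∧ ¬ m2 (stg C q w) q w ∧ m2 (stg C q w) (q + 1) w) ∧ stg C (q + 1) w ≠ q + 1 with hL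
  set G : ℕ → Om → Prop := fun e w => (e < T ∧ stg C (e + 1) w = e + 1 ∧ b e w ∧ m2 (stg C e w) e w) ∨
    (e = T ∧ b T w ∧ m2 (stg C T w) T w) with hG
  have h0 : ∀ q ∈ range T, P.Pr (fun w => F q w ∧ b q w ∧ ¬ m2 (stg C q w) q w ∧ m2 (stg C q w) (q + 1) w) ≤
      P.Pr (fun w => F q w ∧ b q w ∧ stg C (q + 1) w = q + 1) + P.Pr (L q) := by
    intro q _
    refine le_trans (P.Pr_mono fun w _ hh => ?_) (P.Pr_or_le _ _)
    by_cases h : stg C (q + 1) w = q + 1
    · exact Or.inl ⟨hh.1, hh.2.1, h⟩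
    · exact Or.inr ⟨hh.2, h⟩
  have h1 : ∑ q ∈ range T, P.Pr (L q) ≤ ∑ e ∈ range (T + 1), P.Pr (G e) := by
    refine Pr_inj (l := stg C) (fun w _ q hq hh => ?_) (fun w _ q _ q' _ hh hh' e => ?_)
    · have key : ∀ e, q + 1 ≤ e → stg C e w = stg C q w → b e w ∧ m2 (stg C e w) e w := by
        intro e he h2
        refine ⟨hb q e w (by omega) h2 hh.1.1, ?_⟩
        rw [h2]
        exact hm _ _ _ _ he hh.1.2.2
      by_cases hT : stg C T w = stg C q w
      · exact ⟨T, Nat.lt_succ_self T, Or.inr ⟨rfl, key T (by omega) hT⟩, hT⟩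
      · obtain ⟨e, a, c1, c, d⟩ := life_end (C := C) hq hT
        have hne : q ≠ e := by
          rintro rfl
          exact hh.2 d
        exact ⟨e, by omega, Or.inl ⟨a, d, key e (by omega) c⟩, c⟩
    · rcases lt_trichotomy q q' with h1 | h1 | h1
      · refine absurd ?_ hh'.1.2.1
        rw [← e]
        exact hm _ _ _ _ (show q + 1 ≤ q' by omega) hh.1.2.2
      · exact h1
      · refine absurd ?_ hh.1.2.1
        rw [e]
        exact hm _ _ _ _ (show q' + 1 ≤ q by omega) hh'.1.2.2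
  have h2 : ∀ e ∈ range T, P.Pr (G e) ≤ P.Pr (fun w => stg C (e + 1) w = e + 1 ∧ b e w ∧ m2 (stg C e w) e w) := by
    intro e he
    refine P.Pr_mono fun w _ hh => ?_
    rcases hh with hh | hh
    · exact hh.2
    · exact absurd hh.1 (by have := mem_range.1 he; omega)
  have h3 : P.Pr (G T) ≤ P.Pr (fun w => b T w ∧ m2 (stg C T w) T w) := P.Pr_mono fun w _ hh => by
    rcases hh with hh | hh
    · exact absurd hh.1 (lt_irrefl T)
    · exact hh.2
  have h4 := sum_le_sum h0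
  have h5 := sum_le_sum h2
  rw [sum_add_distrib] at h4
  rw [sum_range_succ] at h1
  linarith

/-- decided, in the relation of the life, moved since the start of the exact life -/
def bm (v : Fin 3) (q : ℕ) (w : Om) : Prop :=
  bet M Q v q w ∧ Q.kd (some v) (tv M v q w) w ∧ Ex M.toMS v (tau M.toMS v q w) q w

/-- newly moved in the step `q` -/
def nm (v : Fin 3) (q : ℕ) (w : Om) : Prop :=
  (bet M Q v q w ∧ Q.kd (some v) (tv M v q w) w) ∧ Ex M.toMS v (tau M.toMS v q w) (q + 1) w ∧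
    ¬ Ex M.toMS v (tau M.toMS v q w) q w

variable {M Q A}

theorem nm_one {v : Fin 3} (hc : ∀ s q w, s ≤ q → tv M v s w = tv M v q w → tau M.toMS v s w = tau M.toMS v q w)
    {w : Om} {q q' : ℕ} (h : nm M Q v q w) (h' : nm M Q v q' w) (e : tv M v q w = tv M v q' w) : q = q' := by
  rcases lt_trichotomy q q' with h1 | h1 | h1
  · refine absurd ?_ h'.2.2
    rw [← hc q q' w h1.le e]
    exact h.2.1.imp (Evm_mono (show q + 1 ≤ q' by omega)) (Evm_mono (show q + 1 ≤ q' by omega))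
  · exact h1
  · refine absurd ?_ h.2.2
    rw [← hc q' q w h1.le e.symm]
    exact h'.2.1.imp (Evm_mono (show q' + 1 ≤ q by omega)) (Evm_mono (show q' + 1 ≤ q by omega))

/-- **NEWLY MOVED AT A DECIDED VERTEX** -/
theorem nm_le {v : Fin 3} (hc : ∀ s q w, s ≤ q → tv M v s w = tv M v q w → tau M.toMS v s w = tau M.toMS v q w) (T : ℕ) :
    ∑ q ∈ range T, M.P.Pr (fun w => nm M Q v q w ∧ ¬ A.rp v q w ∧ ¬ A.ru q w) ≤
      2 * ∑ q ∈ range T, M.P.Pr (fun w => afv M Q A v q w ∧ Q.kd (some v) (tv M v q w) w) +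
      (∑ q ∈ range T, M.P.Pr (fun w => A.rp v q w ∧ bm M Q v q w) +
        ∑ q ∈ range T, M.P.Pr (fun w => A.ru q w ∧ bm M Q v q w)) + M.P.Pr (bm M Q v T) := by
  classical
  set L : ℕ → Om → Prop := fun q w => nm M Q v q w ∧ tv M v (q + 1) w ≠ q + 1 with hL
  set F : ℕ → Om → Prop := fun e w => (e < T ∧ tv M v (e + 1) w = e + 1 ∧ bm M Q v e w) ∨ (e = T ∧ bm M Q v T w) with hF
  have h0 : ∀ q ∈ range T, M.P.Pr (fun w => nm M Q v q w ∧ ¬ A.rp v q w ∧ ¬ A.ru q w) ≤
      M.P.Pr (fun w => afv M Q A v q w ∧ Q.kd (some v) (tv M v q w) w) + M.P.Pr (L q) := by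
    intro q _
    refine le_trans (M.P.Pr_mono fun w _ hh => ?_) (M.P.Pr_or_le _ _)
    by_cases h : tv M v (q + 1) w = q + 1
    · exact Or.inl ⟨⟨h, hh.1.1.1, hh.2.1, hh.2.2⟩, hh.1.1.2⟩
    · exact Or.inr ⟨hh.1, h⟩
  have h1 : ∑ q ∈ range T, M.P.Pr (L q) ≤ ∑ e ∈ range (T + 1), M.P.Pr (F e) := by
    refine Pr_inj (l := tv M v) (fun w _ q hq hh => ?_) (fun w _ q _ q' _ hh hh' e => nm_one hc hh.1 hh'.1 e)
    have key : ∀ e, q + 1 ≤ e → tv M v e w = tv M v q w → bm M Q v e w := by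
      intro e he h2
      have h3 : tau M.toMS v q w = tau M.toMS v e w := hc q e w (by omega) h2.symm
      refine ⟨bet_mono (by omega) h2 hh.1.1.1, ?_, ?_⟩
      · rw [h2]
        exact hh.1.1.2
      · rw [← h3]
        exact hh.1.2.1.imp (Evm_mono he) (Evm_mono he)
    by_cases hT : stg (M.Cv v) T w = stg (M.Cv v) q w
    · exact ⟨T, Nat.lt_succ_self T, Or.inr ⟨rfl, key T (by omega) hT⟩, hT⟩
    · obtain ⟨e, a, b, c, d⟩ := life_end (C := M.Cv v) hq hT
      have hne : q ≠ e := by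
        rintro rfl
        exact hh.2 d
      exact ⟨e, by omega, Or.inl ⟨a, d, key e (by omega) c⟩, c⟩
  have h2 : ∀ e ∈ range T, M.P.Pr (F e) ≤
      M.P.Pr (fun w => afv M Q A v e w ∧ Q.kd (some v) (tv M v e w) w) +
        (M.P.Pr (fun w => A.rp v e w ∧ bm M Q v e w) + M.P.Pr (fun w => A.ru e w ∧ bm M Q v e w)) := by
    intro e he
    refine le_trans (M.P.Pr_mono fun w _ hh => ?_)
      ((M.P.Pr_or_le _ _).trans (add_le_add le_rfl (M.P.Pr_or_le _ _)))
    rcases hh with hh | hh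
    · by_cases a : A.rp v e w
      · exact Or.inr (Or.inl ⟨a, hh.2.2⟩)
      · by_cases b : A.ru e w
        · exact Or.inr (Or.inr ⟨b, hh.2.2⟩)
        · exact Or.inl ⟨⟨hh.2.1, hh.2.2.1, a, b⟩, hh.2.2.2.1⟩
    · exact absurd hh.1 (by have := mem_range.1 he; omega)
  have h3 : M.P.Pr (F T) ≤ M.P.Pr (bm M Q v T) := M.P.Pr_mono fun w _ hh => by
    rcases hh with hh | hh
    · exact absurd hh.1 (lt_irrefl T)
    · exact hh.2
  have h4 := sum_le_sum h0
  have h5 := sum_le_sum h2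
  rw [sum_add_distrib] at h4 h5
  rw [sum_add_distrib] at h5
  rw [sum_range_succ] at h1
  linarith

end

end Pool.Agent.GMH.UV
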