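import Pool.Agent.GMH.Unm
import Pool.Agent.GMH.Uv

/-!
# GMH/UnmPs (helper30): THE PARTNER, DECIDED IN THE SAME PUBLIC EPOCH (H3.UNM, (I3), case `nu q = nu s`, `s = T^v`)

`prt v q` = a partner `v'` was first at the public removal `q` which ends the life of `v`; `sam v q` : `T^v` lies in the public
epoch of `q`.
* `drp ux v s` : the density of `v` was `< ux` at some time of its life after the decision; `drp_sum` : the tuples of the
  relation of the life over the dropped vertices, summed over the ends of the lives, `≤ ux *` number of the decisions;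
* `alp_cp` : before `T^0` the alive decided partners of the public start have density `≤ u0 / ux` in the node;
  `alp_sum` : given the node the sights of `v` and `v'` are independent: `T^v` with an alive partner;
* `prt_split`, `prt_same` : `Σ_q P (prt v q, sam v q) ≤ Σ_{v' ≠ v} (ux * Σ P (tkx v') + u0 / ux * Σ P (tkx v))`.
-/

set_option autoImplicit false
set_option linter.unusedSectionVars false

namespace Pool.Agent.GMH.UV

open Finset Pool.Agent.PWZ Pool.Agent.M3 Pool.Agent.GMH.TD Pool.Agent.GMH.CK Pool.Agent.GMH.MV Pool.Agent.GMH.UnmL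
open Pool.Agent.GMH.Blk (CI)

noncomputable section

/-- **counting by lives** : `A` happens at most once in a life, and `B` happens in each life in which `A` happens -/
theorem inj_cnt {T : ℕ} {A B : ℕ → Prop} {L : ℕ → ℕ} (h : ∀ q < T, A q → ∃ r < T, B r ∧ L r = L q)
    (h1 : ∀ q < T, ∀ q' < T, A q → A q' → L q = L q' → q = q') :
    ∑ q ∈ range T, ind (A q) ≤ ∑ r ∈ range T, ind (B r) := by
  classical
  have e : ∀ C : ℕ → Prop, ∑ q ∈ range T, ind (C q) = (((range T).filter C).card : ℝ) := by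
    intro C
    rw [Finset.card_eq_sum_ones, Finset.sum_filter]
    push_cast
    refine Finset.sum_congr rfl fun q _ => ?_
    by_cases hc : C q
    · rw [ind_of hc, if_pos hc]
    · rw [ind_not hc, if_neg hc]
  rw [e A, e B]
  have h2 : ∀ q, ∃ r, (q < T ∧ A q) → (r < T ∧ B r ∧ L r = L q) := by
    intro q
    by_cases hq : q < T ∧ A q
    · obtain ⟨r, a, b, c⟩ := h q hq.1 hq.2
      exact ⟨r, fun _ => ⟨a, b, c⟩⟩
    · exact ⟨0, fun h => absurd h hq⟩
  choose f hf using h2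
  have h3 : ((range T).filter A).card ≤ ((range T).filter B).card := by
    refine Finset.card_le_card_of_injOn f ?_ ?_
    · intro q hq
      have hq' := Finset.mem_filter.1 (Finset.mem_coe.1 hq)
      have h4 := hf q ⟨mem_range.1 hq'.1, hq'.2⟩
      exact Finset.mem_coe.2 (Finset.mem_filter.2 ⟨mem_range.2 h4.1, h4.2.1⟩)
    · intro q hq q' hq' he
      have hq1 := Finset.mem_filter.1 (Finset.mem_coe.1 hq)
      have hq2 := Finset.mem_filter.1 (Finset.mem_coe.1 hq')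
      have h4 := hf q ⟨mem_range.1 hq1.1, hq1.2⟩
      have h5 := hf q' ⟨mem_range.1 hq2.1, hq2.2⟩
      refine h1 q (mem_range.1 hq1.1) q' (mem_range.1 hq2.1) hq1.2 hq2.2 ?_
      rw [← h4.2.2, ← h5.2.2, he]
  exact_mod_cast h3

/-- the conditional expectation depends on the values on the class only -/
theorem ce_cell {Om κ : Type*} [Fintype Om] (P : FP Om) (X : Om → κ) {f g : Om → ℝ} {w : Om}
    (h : ∀ u, P.p u ≠ 0 → X u = X w → f u ≤ g u) : P.ce X f w ≤ P.ce X g w := by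
  unfold FP.ce
  refine div_le_div_of_nonneg_right ?_ (P.E_nonneg fun _ _ => ind_nonneg _)
  refine P.E_mono fun u hu => ?_
  by_cases hv : X u = X w
  · rw [ind_of hv, one_mul, one_mul]
    exact h u hu hv
  · rw [ind_not hv, zero_mul, zero_mul]

theorem ce_cell_eq {Om κ : Type*} [Fintype Om] (P : FP Om) (X : Om → κ) {f g : Om → ℝ} {w : Om}
    (h : ∀ u, P.p u ≠ 0 → X u = X w → f u = g u) : P.ce X f w = P.ce X g w :=
  le_antisymm (ce_cell P X fun u hu e => (h u hu e).le) (ce_cell P X fun u hu e => (h u hu e).ge)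

variable {Om : Type} [Fintype Om] {M : US Om} {Q : Kd Om} {A : Stps (Om := Om)} {δ : ℝ}

/-- the density with the relation read at the point -/
theorem Mx_rd (H : Seen M) (v : Fin 3) (s : ℕ) (w : Om) :
    Mx M Q v s w = M.P.ce (M.S {v} s) (fun u => ind (Q.kv (some v) (tv M v s u) u)) w := by
  unfold Mx
  refine ce_cell_eq M.P (M.S {v} s) fun u _ hu => ?_
  rw [tau_S H v le_rfl u w hu]

/-! ### dropped vertices -/

variable (M Q) in
/-- the density was `< ux` at some time of the life after the decision -/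
def drp (ux : ℝ) (v : Fin 3) (s : ℕ) (w : Om) : Prop :=
  ∃ r, tv M v s w ≤ r ∧ r ≤ s ∧ bet M Q v r w ∧ Mg M Q v r w < ux

variable (M Q) in
/-- dropped for the first time -/
def fdp (ux : ℝ) (v : Fin 3) (s : ℕ) (w : Om) : Prop :=
  (bet M Q v s w ∧ Mg M Q v s w < ux) ∧ ∀ r, tv M v s w ≤ r → r < s → ¬ (bet M Q v r w ∧ Mg M Q v r w < ux)

theorem fdp_S (H : Seen M) {ux : ℝ} (v : Fin 3) (s : ℕ) {a b : Om} (e : M.S {v} s a = M.S {v} s b) :
    fdp M Q ux v s a ↔ fdp M Q ux v s b := by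
  unfold fdp
  rw [tau_S H v le_rfl a b e, bet_S H v le_rfl e, Mg_S (Q := Q) v le_rfl a b e]
  exact and_congr_right fun _ => forall_congr' fun r => forall_congr' fun _ => forall_congr' fun hr => by
    rw [bet_S H v hr.le e, Mg_S (Q := Q) v hr.le a b e]

/-- the first time of the drop -/
theorem drp_ex {ux : ℝ} {v : Fin 3} {s : ℕ} {w : Om} (h : drp M Q ux v s w) :
    ∃ r, tv M v s w ≤ r ∧ r ≤ s ∧ tv M v r w = tv M v s w ∧ fdp M Q ux v r w := by
  classical
  obtain ⟨r1, a, b, c, d⟩ := h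
  have hex : ∃ r, tv M v s w ≤ r ∧ bet M Q v r w ∧ Mg M Q v r w < ux := ⟨r1, a, c, d⟩
  have hle : Nat.find hex ≤ s := (Nat.find_min' hex ⟨a, c, d⟩).trans b
  obtain ⟨h1, h2, h3⟩ := Nat.find_spec hex
  have h7 : tv M v (Nat.find hex) w = tv M v s w := stg_mid rfl h1 hle
  refine ⟨Nat.find hex, h1, hle, h7, ⟨h2, h3⟩, fun r h4 h5 h6 => ?_⟩
  exact Nat.find_min hex h5 ⟨by rw [← h7]; exact h4, h6⟩

/-- **TUPLES OVER DROPPED VERTICES** : summed over the ends of the lives -/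
theorem drp_sum (H : Seen M) {ux : ℝ} (x0 : 0 ≤ ux) (v : Fin 3) (T : ℕ) :
    ∑ q ∈ range T, M.P.Pr (fun w => tv M v (q + 1) w = q + 1 ∧ ka M Q v q w ∧ drp M Q ux v q w) ≤
      ux * ∑ s ∈ range T, M.P.Pr (tkx M Q v s) := by
  classical
  -- step 1: the ends are counted at the first time of the drop
  have h1 : ∑ q ∈ range T, M.P.Pr (fun w => tv M v (q + 1) w = q + 1 ∧ ka M Q v q w ∧
      drp M Q ux v q w) ≤ ∑ r ∈ range T, M.P.Pr (fun w => fdp M Q ux v r w ∧ ka M Q v r w) := by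
    unfold FP.Pr
    rw [← FP.E_sum, ← FP.E_sum]
    refine M.P.E_mono fun w _ => inj_cnt (L := fun q => tv M v q w) ?_ ?_
    · rintro q hq ⟨_, h3, h4⟩
      obtain ⟨r, a, b, c, d⟩ := drp_ex h4
      exact ⟨r, by omega, ⟨d, ka_mono b c h3⟩, c⟩
    · rintro q _ q' _ h3 h4 e
      exact rel_one h3.1 h4.1 e
  -- step 2: small density at the drop
  have h2 : ∀ r, M.P.Pr (fun w => fdp M Q ux v r w ∧ ka M Q v r w) ≤ ux * M.P.Pr (fdp M Q ux v r) := by
    intro r
    refine Uv.at_le (P := M.P) (V := fun s => M.S {v} s) (s := r) (fun x w e => fdp_S H v r e) fun w hw hf => ?_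
    have h3 := hf.1.2
    exact h3.le
  -- step 3: at most one drop in a life, after the decision
  have h3 : ∑ r ∈ range T, M.P.Pr (fdp M Q ux v r) ≤ ∑ s ∈ range T, M.P.Pr (tkx M Q v s) := by
    unfold FP.Pr
    rw [← FP.E_sum, ← FP.E_sum]
    refine M.P.E_mono fun w _ => inj_cnt (L := fun q => tv M v q w) ?_ ?_
    · intro r hr hf
      obtain ⟨s, a, b, c⟩ := bet_iff.1 hf.1.1
      exact ⟨s, by omega, c, stg_mid rfl a b⟩
    · intro r _ r' _ hf hf' e
      have l1 : tv M v r w ≤ r := stg_le _ _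
      have l2 : tv M v r' w ≤ r' := stg_le _ _
      have e' : tv M v r w = tv M v r' w := e
      rcases lt_trichotomy r r' with h4 | h4 | h4
      · exact absurd hf.1 (hf'.2 r (by omega) h4)
      · exact h4
      · exact absurd hf'.1 (hf.2 r' (by omega) h4)
  calc _ ≤ ∑ r ∈ range T, ux * M.P.Pr (fdp M Q ux v r) := h1.trans (Finset.sum_le_sum fun r _ => h2 r)
    _ = ux * ∑ r ∈ range T, M.P.Pr (fdp M Q ux v r) := by rw [Finset.mul_sum]
    _ ≤ _ := mul_le_mul_of_nonneg_left h3 x0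

/-! ### alive partners -/

variable (M Q) in
/-- decided, alive at `s`, the life is of the public start -/
def alp (ux : ℝ) (v : Fin 3) (s : ℕ) (w : Om) : Prop :=
  bet M Q v s w ∧ tv M v s w ≤ nu M.toMS s w ∧ ux ≤ Mg M Q v s w

theorem alp_S (H : Seen M) {ux : ℝ} (v : Fin 3) (s : ℕ) {a b : Om} (e : M.S {v} s a = M.S {v} s b) :
    alp M Q ux v s a ↔ alp M Q ux v s b := by
  unfold alp
  rw [tau_S H v le_rfl a b e, bet_S H v le_rfl e, Mg_S (Q := Q) v le_rfl a b e, nu_S H le_rfl a b e]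

/-- before the zone the sum of the four static densities is `< u0` -/
theorem M0_lt {s : ℕ} {w : Om} (h : ¬ Z0 M Q s w) (h0 : ¬ M.ex0 s w) : M0 M Q s w < Q.u0 :=
  M0_lt_of (fun h1 => h ⟨s, stg_le _ _, le_rfl, h1⟩) h0

/-- one of the four static densities -/
theorem Rn_le_M0 (v : Fin 3) (s : ℕ) (w : Om) :
    M.P.ce (M.S ∅ s) (fun u => ind (Rn M Q (some v) (nu M.toMS s w) u)) w ≤ M0 M Q s w := by
  unfold M0
  exact Finset.single_le_sum (f := fun v : Option (Fin 3) =>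
    M.P.ce (M.S ∅ s) (fun u => ind (Rn M Q v (nu M.toMS s w) u)) w)
    (fun v _ => M.P.ce_nonneg (X := M.S ∅ s) (fun u _ => ind_nonneg _) w) (Finset.mem_univ _)

/-- **DENSITY OF THE ALIVE DECIDED VERTICES OF THE PUBLIC START IN THE NODE** : at most `M0 / ux` -/
theorem alp_le (H : Seen M) {ux : ℝ} (x0 : 0 < ux) (v : Fin 3) (s : ℕ) (w : Om) :
    M.P.ce (M.S ∅ s) (fun u => ind (alp M Q ux v s u)) w ≤ M0 M Q s w / ux := by
  rw [le_div_iff₀ x0]
  have hN : Fac (M.S {v} s) (M.S ∅ s) := M.mS ∅ {v} s (Finset.empty_subset _)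
  -- the tower
  have e1 : M.P.ce (M.S ∅ s) (fun u => ind (alp M Q ux v s u) * ind (ka M Q v s u)) w =
      M.P.ce (M.S ∅ s) (fun u => ind (alp M Q ux v s u) * Mg M Q v s u) w := by
    rw [← M.P.ce_tower (X := M.S {v} s) (Y := M.S ∅ s) hN (fun u => ind (alp M Q ux v s u) *
      ind (ka M Q v s u)) w]
    refine M.P.ce_congr (X := M.S ∅ s) (fun u hu => ?_) w
    rw [M.P.ce_mul (X := M.S {v} s) (h := fun u => ind (alp M Q ux v s u))
      (Fac.ind fun x y e => alp_S H v s e) (fun u => ind (ka M Q v s u)) u]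
    rfl
  have h1 : M.P.ce (M.S ∅ s) (fun u => ux * ind (alp M Q ux v s u)) w ≤
      M.P.ce (M.S ∅ s) (fun u => ind (alp M Q ux v s u) * Mg M Q v s u) w := by
    refine M.P.ce_mono (X := M.S ∅ s) (fun u _ => ?_) w
    by_cases h : alp M Q ux v s u
    · rw [ind_of h, mul_one, one_mul]
      exact h.2.2
    · rw [ind_not h, mul_zero, zero_mul]
  rw [← e1] at h1
  have h2 : M.P.ce (M.S ∅ s) (fun u => ind (alp M Q ux v s u) * ind (ka M Q v s u)) w ≤
      M.P.ce (M.S ∅ s) (fun u => ind (Rn M Q (some v) (nu M.toMS s w) u)) w := by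
    refine ce_cell M.P (M.S ∅ s) fun u _ hu => ?_
    by_cases h : alp M Q ux v s u ∧ ka M Q v s u
    · have h3 : nu M.toMS s u = nu M.toMS s w := nu_S H le_rfl u w hu
      have h5 : Rn M Q (some v) (nu M.toMS s w) u := by
        rw [← h3]
        exact Rn_of h.1.2.1 h.2
      rw [ind_of h5, ind_of h.1, ind_of h.2, one_mul]
    · rw [← ind_and, ind_not h]
      exact ind_nonneg _
  have h3 : M.P.ce (M.S ∅ s) (fun u => ux * ind (alp M Q ux v s u)) w =
      ux * M.P.ce (M.S ∅ s) (fun u => ind (alp M Q ux v s u)) w := M.P.ce_smul (M.S ∅ s) ux _ w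
  rw [h3] at h1
  have h4 := Rn_le_M0 (M := M) (Q := Q) v s w
  linarith

/-- at the exact vertex `v` the alive partners have density `≤ u0 / ux` before the zone -/
theorem alp_cp (H : Seen M) {ux : ℝ} (x0 : 0 < ux) {v v' : Fin 3}
    (hci : CI M.P (fun s => M.S ∅ s) (fun s => M.S {v} s) (fun s => M.S {v'} s)) (s : ℕ) {w : Om} (hw : M.P.p w ≠ 0)
    (hz : ¬ Z0 M Q s w) (h0 : ¬ M.ex0 s w) :
    M.P.ce (M.S {v} s) (fun u => ind (alp M Q ux v' s u)) w ≤ Q.u0 / ux := by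
  have h1 := Uv.ci_cp (P := M.P) (V := fun s => M.S {v} s) (V' := fun s => M.S {v'} s) (nd := fun s => M.S ∅ s)
    (fun s => M.mS ∅ {v} s (Finset.empty_subset _)) hci (s := s) (A := alp M Q ux v' s)
    (fun x y e => alp_S H v' s e) hw
  have h2 : M.P.ce (M.S {v} s) (fun u => ind (alp M Q ux v' s u)) w =
      M.P.ce (M.S ∅ s) (fun u => ind (alp M Q ux v' s u)) w := h1
  rw [h2]
  exact (alp_le H x0 v' s w).trans (div_le_div_of_nonneg_right (M0_lt hz h0).le x0.le)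

/-- **`T^v` WITH AN ALIVE PARTNER, BEFORE THE ZONE** -/
theorem alp_sum (H : Seen M) {ux : ℝ} (x0 : 0 < ux) {v v' : Fin 3}
    (hci : CI M.P (fun s => M.S ∅ s) (fun s => M.S {v} s) (fun s => M.S {v'} s)) (T : ℕ) :
    ∑ s ∈ range T, M.P.Pr (fun w => (tkx M Q v s w ∧ ¬ Z0 M Q s w ∧ ¬ M.ex0 s w) ∧ alp M Q ux v' s w) ≤
      Q.u0 / ux * ∑ s ∈ range T, M.P.Pr (fun w => tkx M Q v s w ∧ ¬ Z0 M Q s w ∧ ¬ M.ex0 s w) := by
  rw [Finset.mul_sum]
  refine Finset.sum_le_sum fun s _ => ?_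
  refine Uv.at_le (P := M.P) (V := fun s => M.S {v} s) (s := s)
    (f := fun w => tkx M Q v s w ∧ ¬ Z0 M Q s w ∧ ¬ M.ex0 s w)
    (fun x y e => ?_) fun w hw hf => alp_cp H x0 hci s hw hf.2.1 hf.2.2
  have e0 := M.mS ∅ {v} s (Finset.empty_subset _) x y e
  rw [tkx_S H v le_rfl e, Z0_S H le_rfl e0, show M.ex0 s x = M.ex0 s y from M.exS0 s x y e0]

/-! ### the partner part -/

variable (M Q) in
/-- `T^v` of the life of `q` lies in the public epoch of `q` -/
def sam (v : Fin 3) (q : ℕ) (w : Om) : Prop :=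
  ∃ s, tv M v q w ≤ s ∧ s ≤ q ∧ tkx M Q v s w ∧ nu M.toMS q w = nu M.toMS s w

/-- **THE TWO CASES** : the partner was dropped, or it is alive at `T^v`, before the zone -/
theorem prt_split (HS : StpOK M Q A δ) (HP : Prv M Q) (ux : ℝ) {v : Fin 3} (hv : v ∈ Q.Vk) {q : ℕ} {w : Om} (hw : M.P.p w ≠ 0)
    (h : prt M Q A v q w) (hs : sam M Q v q w) :
    ∃ v' ∈ Q.Vk, v' ≠ v ∧
      ((tv M v' (q + 1) w = q + 1 ∧ ka M Q v' q w ∧ drp M Q ux v' q w) ∨
        ∃ s ≤ q, tv M v s w = tv M v q w ∧ (tkx M Q v s w ∧ ¬ Z0 M Q s w ∧ ¬ M.ex0 s w) ∧ alp M Q ux v' s w) := by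
  obtain ⟨s, a, b, c, d⟩ := hs
  obtain ⟨v', hv', hne, h1, h2, h3, _⟩ := prt_cases HS hw h a b c
  refine ⟨v', hv', hne, ?_⟩
  have h4 : tv M v s w = tv M v q w := stg_mid rfl a b
  by_cases hd : drp M Q ux v' q w
  · exact Or.inl ⟨HS.endu w hw v' q h.2.1, ⟨Q.hkv v' hv' _ _ (HS.gdv w hw v' hv' q h.1 (Or.inr h.2.1)
      (Or.inl (bet_mono b h1.symm h3))), HS.gal hw h.1 h.2.1⟩, hd⟩
  · right
    have h6 : tv M v s w ≤ nu M.toMS s w := by
      rw [h4, ← d]
      exact HS.lst w hw v hv q h.1 h.2.1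
    refine ⟨s, b, h4, ⟨c, fun hz => c.1.2.1 ⟨hz, h6⟩, HP.xz w hw v s c.1.2.2 h6⟩, h3, ?_, ?_⟩
    · rw [h1, ← d]
      exact h2
    · by_contra h5
      refine hd ⟨s, ?_, b, h3, not_le.1 h5⟩
      rw [← h1]
      exact stg_le _ _

/-- **THE PARTNER, DECIDED IN THE SAME PUBLIC EPOCH** -/
theorem prt_same (H : Seen M) (HS : StpOK M Q A δ) (HP : Prv M Q) {ux : ℝ} (x0 : 0 < ux) (T : ℕ) {v : Fin 3} (hv : v ∈ Q.Vk)
    (hci : ∀ v' ∈ Q.Vk, v' ≠ v → CI M.P (fun s => M.S ∅ s) (fun s => M.S {v} s) (fun s => M.S {v'} s)) :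
    ∑ q ∈ range T, M.P.Pr (fun w => prt M Q A v q w ∧ sam M Q v q w) ≤
      ∑ v' ∈ Q.Vk.erase v, (ux * ∑ s ∈ range T, M.P.Pr (tkx M Q v' s) +
        Q.u0 / ux * ∑ s ∈ range T, M.P.Pr (fun w => tkx M Q v s w ∧ ¬ Z0 M Q s w ∧ ¬ M.ex0 s w)) := by
  classical
  -- the events
  set B1 : Fin 3 → ℕ → Om → Prop := fun v' q w =>
    tv M v' (q + 1) w = q + 1 ∧ ka M Q v' q w ∧ drp M Q ux v' q w with hB1
  set B2 : Fin 3 → ℕ → Om → Prop := fun v' q w => (prt M Q A v q w ∧ sam M Q v q w) ∧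
    ∃ s ≤ q, tv M v s w = tv M v q w ∧ (tkx M Q v s w ∧ ¬ Z0 M Q s w ∧ ¬ M.ex0 s w) ∧ alp M Q ux v' s w with hB2
  have h1 : ∀ q, M.P.Pr (fun w => prt M Q A v q w ∧ sam M Q v q w) ≤
      ∑ v' ∈ Q.Vk.erase v, (M.P.Pr (B1 v' q) + M.P.Pr (B2 v' q)) := by
    intro q
    unfold FP.Pr
    rw [Finset.sum_congr rfl fun v' _ => (M.P.E_add (fun w => ind (B1 v' q w)) (fun w => ind (B2 v' q w))).symm,
      ← FP.E_sum]
    refine M.P.E_mono fun w hw => ?_
    have n0 : ∀ v' ∈ Q.Vk.erase v, 0 ≤ ind (B1 v' q w) + ind (B2 v' q w) := fun v' _ =>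
      add_nonneg (ind_nonneg _) (ind_nonneg _)
    by_cases h : prt M Q A v q w ∧ sam M Q v q w
    · rw [ind_of h]
      obtain ⟨v', hv', hne, h2⟩ := prt_split HS HP ux hv hw h.1 h.2
      refine le_trans ?_ (Finset.single_le_sum n0 (Finset.mem_erase.2 ⟨hne, hv'⟩))
      rcases h2 with h2 | h2
      · have e1 : ind (B1 v' q w) = 1 := ind_of h2
        have := ind_nonneg (B2 v' q w)
        linarith
      · have e1 : ind (B2 v' q w) = 1 := ind_of ⟨h, h2⟩
        have := ind_nonneg (B1 v' q w)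
        linarith
    · rw [ind_not h]
      exact Finset.sum_nonneg n0
  refine (Finset.sum_le_sum fun q _ => h1 q).trans ?_
  rw [Finset.sum_comm]
  refine Finset.sum_le_sum fun v' hv' => ?_
  obtain ⟨hne, hvk⟩ := Finset.mem_erase.1 hv'
  rw [Finset.sum_add_distrib]
  refine add_le_add (drp_sum H x0.le v' T) ?_
  refine le_trans ?_ (alp_sum H x0 (hci v' hvk hne) T)
  unfold FP.Pr
  rw [← FP.E_sum, ← FP.E_sum]
  refine M.P.E_mono fun w hw => inj_cnt (L := fun q => tv M v q w) ?_ ?_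
  · rintro q hq ⟨_, s, a, b, c⟩
    exact ⟨s, by omega, c, b⟩
  · rintro q _ q' _ h3 h4 e
    exact rel_one (HS.endu w hw v q h3.1.1.2.1) (HS.endu w hw v q' h4.1.1.2.1) e

end

end Pool.Agent.GMH.UV
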