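import Pool.Agent.GMH.UnrC
import Pool.Agent.GMH.BefW
import Pool.Agent.GMH.LtB
import Pool.Agent.GMH.GM3

/-!
# GMH/UnrB (helper55): THE UNRELEASED TUPLES OF THE RELEASED KINDS, THREE TOPS: all cases, a family of instances with one clock

* `Fam` : a family of instances `U a k`, kinds `K a k`, over the clocks of `M` (theories A and B of `GMH/UnmAB`, or one
  instance); bits `bO k i = ∃ a, bet (U a k) (K a k) i`, `zO k = ∃ a, Z0 (U a k) (K a k)`; `Rl k v τ` : relation of the life `τ`;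
* `cs_m` : public removal or `m` light; `cs_i` : `m` heavy, `i` light;
* `prO k x y` : alive, released relation, `x` strong, `y` rising, removal, not released; `unB_cases` : every unreleased tuple of
  the region is in one of the events of `UnrC.unC_le` or in `prO`; `pr_le` : the sum of `prO` in named sums.
-/

set_option autoImplicit false
set_option linter.unusedSectionVars false

namespace Pool.Agent.GMH.TRF

open Finset Pool.Agent.PWZ Pool.Agent.M3 Pool.Agent.GM Pool.Agent.GM.Harm Pool.Agent.GMH Pool.Agent.GMH.NZ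
open Pool.Agent.GMH.V3 Pool.Agent.GMH.TP Pool.Agent.GMH.TD Pool.Agent.GMH.Dy Pool.Agent.GMH.MV Pool.Agent.GMH.MVI
open Pool.Agent.GMH.UV Pool.Agent.GMH.KF Pool.Agent.GMH.CK Pool.Agent.GMH.KDT Pool.Agent.GMH.GM3

noncomputable section

/-! ### families of instances with one clock -/

section fam

variable {Om : Type} [Fintype Om]

/-- a family of instances over the clocks of `M`; `Gd` : alive and no status at the time `q`; `Rl k v τ` : relation of the life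
`τ` of the exact clock of `v` -/
structure Fam (M : MS Om) {ι : Type} (U : ι → Fin 10 → US Om) (K : ι → Fin 10 → Kd Om) (Gd : ℕ → Om → Prop)
    (Rl : Fin 10 → Fin 3 → ℕ → Om → Prop) : Prop where
  P : ∀ a k, (U a k).P = M.P
  Vk : ∀ a k, (K a k).Vk = vk k
  bl : ∀ a k v q w, blk (U a k) (K a k) v q w ↔ Z0 (U a k) (K a k) q w ∧ tauS M v q w ≤ MV.nu M q w
  ex : ∀ k v q w, (∀ a, ¬ bet (U a k) (K a k) v q w) → (∀ a, ¬ blk (U a k) (K a k) v q w) → ∃ a, ¬ (U a k).ex v q w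
  kd : ∀ a k v q w, v ∈ vk k → M.P.p w ≠ 0 → Gd q w → Rl k v (tauS M v q w) w →
    (K a k).kd (some v) (UV.tv (U a k) v q w) w

theorem Fam.kv {M : MS Om} {ι : Type} {U : ι → Fin 10 → US Om} {K : ι → Fin 10 → Kd Om} {Gd : ℕ → Om → Prop}
    {Rl : Fin 10 → Fin 3 → ℕ → Om → Prop} (F : Fam M U K Gd Rl) (a : ι) {k : Fin 10} {v : Fin 3} {q : ℕ} {w : Om}
    (hv : v ∈ vk k) (hw : M.P.p w ≠ 0) (hG : Gd q w) (hR : Rl k v (tauS M v q w) w) :
    (K a k).kv (some v) (UV.tv (U a k) v q w) w :=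
  (K a k).hkv v (by rw [F.Vk]; exact hv) _ w (F.kd a k v q w hv hw hG hR)

variable {M : MS Om} {ι : Type} (U : ι → Fin 10 → US Om) (K : ι → Fin 10 → Kd Om)

/-- undecided, not blocked, not in an extra block, in the visible relation -/
def unA (a : ι) (k : Fin 10) (m : Fin 3) (q : ℕ) (w : Om) : Prop :=
  (K a k).kv (some m) (UV.tv (U a k) m q w) w ∧ ¬ bet (U a k) (K a k) m q w ∧ ¬ (U a k).ex m q w ∧
    ¬ blk (U a k) (K a k) m q w

/-- undecided and blocked, in the visible relation -/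
def blA (a : ι) (k : Fin 10) (m : Fin 3) (q : ℕ) (w : Om) : Prop :=
  (K a k).kv (some m) (UV.tv (U a k) m q w) w ∧ ¬ bet (U a k) (K a k) m q w ∧ blk (U a k) (K a k) m q w

variable (M)

/-- decided, in the relation of the life, not strongly moved, strongly moved after the step -/
def nwA (a : ι) (k : Fin 10) (m : Fin 3) (q : ℕ) (w : Om) : Prop :=
  (bet (U a k) (K a k) m q w ∧ (K a k).kd (some m) (UV.tv (U a k) m q w) w) ∧ ¬ NewM.mB M (1 / 2) m q w ∧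
    NewM.Bx M (1 / 2) m (MV.tau M m q w) (q + 1) w

end fam

variable {X β γ φ : Type} [Fintype X] [Fintype β] [Fintype φ] [Nonempty X] [Nonempty β]
variable {D : HD (Fin 3) X β γ φ} {al : ℝ} {h : D.Thick al} {prr : ℕ → Fin 3 → φ → φ} {T : ℕ} {W : Type} [Fintype W]
variable {tb : Tab D prr T W} {v : ℕ → Finset (Fin 3) → X → (Fin 3 → β) → Pt (Fin 3) X β φ}

section cases

variable {M : MS (Om W X β)} {ι : Type} {U : ι → Fin 10 → US (Om W X β)} {K : ι → Fin 10 → Kd (Om W X β)}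
  {Gd : ℕ → Om W X β → Prop} {Rl : Fin 10 → Fin 3 → ℕ → Om W X β → Prop} {bO : Fin 10 → Fin 3 → ℕ → Om W X β → Prop}
  {zO : Fin 10 → ℕ → Om W X β → Prop}

/-- **PUBLIC REMOVAL, OR `m` LIGHT** -/
theorem cs_m (F : Fam M U K Gd Rl) (hb : ∀ k i q w, bO k i q w ↔ ∃ a, bet (U a k) (K a k) i q w)
    (hz : ∀ k q w, zO k q w ↔ ∃ a, Z0 (U a k) (K a k) q w) {k : Fin 10} {m : Fin 3} (hm : m ∈ vk k) {q : ℕ} {w : Om W X β}
    (hw : M.P.p w ≠ 0) (hG : Gd q w) (hn : ¬ btO tb v bO zO k q w) (hr : ruO tb v q w ∨ rpO tb v m q w) :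
    (∃ a, unA U K a k m q w) ∨ (ruO tb v q w ∧ ¬ Rl k m (tauS M m q w) w) ∨ (rpO tb v m q w ∧ ¬ Rl k m (tauS M m q w) w) ∨
      ∃ a, rpO tb v m q w ∧ blA U K a k m q w := by
  by_cases hR : Rl k m (tauS M m q w) w
  · have hkv := fun a => F.kv a hm hw hG hR
    rcases hr with hr | hr
    · have h1 : ∀ a, ¬ bet (U a k) (K a k) m q w := fun a hh => hn (Or.inr ⟨hr, Or.inr ⟨m, hm, (hb k m q w).2 ⟨a, hh⟩⟩⟩)
      have h2 : ∀ a, ¬ blk (U a k) (K a k) m q w := fun a hh => hn (Or.inr ⟨hr, Or.inl ((hz k q w).2 ⟨a, hh.1⟩)⟩)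
      obtain ⟨a, ha⟩ := F.ex k m q w h1 h2
      exact Or.inl ⟨a, hkv a, h1 a, ha, h2 a⟩
    · have h1 : ∀ a, ¬ bet (U a k) (K a k) m q w := fun a hh => hn (Or.inl ⟨m, hm, hr, (hb k m q w).2 ⟨a, hh⟩⟩)
      by_cases h2 : ∃ a, blk (U a k) (K a k) m q w
      · obtain ⟨a, ha⟩ := h2
        exact Or.inr (Or.inr (Or.inr ⟨a, hr, hkv a, h1 a, ha⟩))
      · push Not at h2
        obtain ⟨a, ha⟩ := F.ex k m q w h1 h2
        exact Or.inl ⟨a, hkv a, h1 a, ha, h2 a⟩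
  · rcases hr with hr | hr
    · exact Or.inr (Or.inl ⟨hr, hR⟩)
    · exact Or.inr (Or.inr (Or.inl ⟨hr, hR⟩))

/-- **`m` HEAVY, `i` LIGHT** -/
theorem cs_i (F : Fam M U K Gd Rl) (hb : ∀ k i q w, bO k i q w ↔ ∃ a, bet (U a k) (K a k) i q w) {k : Fin 10} {m i : Fin 3}
    (hm : m ∈ vk k) (hi : i ∈ vk k) (hd : M.d1 ≤ 1 / 2) {q : ℕ} {w : Om W X β} (hw : M.P.p w ≠ 0) (hG : Gd q w)
    (hn : ¬ btO tb v bO zO k q w) (hl : rpO tb v i q w) :
    MV.Mv M m q w ∨ Lst M (MV.nu M q w) q w ∨ (¬ MV.Mv M m q w ∧ ¬ Rl k m (tauS M m q w) w) ∨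
      ¬ NewM.Bx M (1 / 2) m (MV.tau M m q w) (q + 1) w ∨ ¬ Rl k i (tauS M i q w) w ∨ (∃ a, unA U K a k m q w) ∨
      (∃ a, nwA M U K a k m q w) ∨ ∃ a, blA U K a k i q w := by
  by_cases h1 : MV.Mv M m q w
  · exact Or.inl h1
  by_cases h2 : Lst M (MV.nu M q w) q w
  · exact Or.inr (Or.inl h2)
  by_cases h3 : Rl k m (tauS M m q w) w
  swap
  · exact Or.inr (Or.inr (Or.inl ⟨h1, h3⟩))
  by_cases h4 : NewM.Bx M (1 / 2) m (MV.tau M m q w) (q + 1) w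
  swap
  · exact Or.inr (Or.inr (Or.inr (Or.inl h4)))
  by_cases h5 : Rl k i (tauS M i q w) w
  swap
  · exact Or.inr (Or.inr (Or.inr (Or.inr (Or.inl h5))))
  refine Or.inr (Or.inr (Or.inr (Or.inr (Or.inr ?_))))
  by_cases h6 : ∃ a, bet (U a k) (K a k) m q w
  · obtain ⟨a, ha⟩ := h6
    exact Or.inr (Or.inl ⟨a, ⟨ha, F.kd a k m q w hm hw hG h3⟩, fun hB => h1 (NewM.mB_Mv hw hd hB), h4⟩)
  · push Not at h6
    by_cases h8 : ∃ a, blk (U a k) (K a k) m q w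
    · obtain ⟨a, ha⟩ := h8
      have g1 := ((F.bl a k m q w).1 ha).1
      exact Or.inr (Or.inr ⟨a, F.kv a hi hw hG h5, fun hh => hn (Or.inl ⟨i, hi, hl, (hb k i q w).2 ⟨a, hh⟩⟩),
        (F.bl a k i q w).2 ⟨g1, KDT.tauS_lst h2⟩⟩)
    · push Not at h8
      obtain ⟨a, ha⟩ := F.ex k m q w h6 h8
      exact Or.inl ⟨a, F.kv a hm hw hG h3, h6 a, ha, h8 a⟩

end cases

/-! ### the unreleased tuples of a released kind -/

section prs

variable (h tb v) (c : KC) (r : RC) (A : Fin 6 → ℕ → Pt (Fin 3) X β φ → Prop)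
  (bO : Fin 10 → Fin 3 → ℕ → Om W X β → Prop) (zO : Fin 10 → ℕ → Om W X β → Prop)

/-- an unreleased tuple of the kind `k`, `x` strong, `y` rising -/
def prO (k : Fin 10) (x y : Fin 3) (q : ℕ) (w : Om W X β) : Prop :=
  pcO h tb v c r A k x y q w ∧ (ruO tb v q w ∨ ∃ i, rpO tb v i q w) ∧ ¬ btO tb v bO zO k q w

/-- the triples (strong top, rising top, their vertex) of the kind, with the vertex `y` in the kind -/
def trq (k : Fin 10) : Finset (Fin 3 × Fin 3 × Fin 3) :=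
  univ.filter fun p => p.1 ≠ p.2.1 ∧ p.2.2 ≠ p.1 ∧ p.2.2 ≠ p.2.1 ∧ p.2.2 ∈ vk k ∧ p.2.1 ∈ vk k

theorem mem_trq {k : Fin 10} {p : Fin 3 × Fin 3 × Fin 3} (hp : p ∈ trq k) :
    p.1 ≠ p.2.1 ∧ p.2.2 ≠ p.1 ∧ p.2.2 ≠ p.2.1 ∧ p.2.2 ∈ vk k ∧ p.2.1 ∈ vk k := (Finset.mem_filter.1 hp).2

theorem trq_card (k : Fin 10) : (trq k).card ≤ 6 := by
  have key : ∀ k : Fin 10, (trq k).card ≤ 6 := by decide
  exact key k

end prs

section one

variable {Om : Type*} [Fintype Om] {P : FP Om} {α β γ φ : Type*} {Z : Om → β} {Zb : Fin 3 → Om → α}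
  {F : Fin 3 → Om → φ} {Y : Fin 3 → Om → γ} {c : KC} {r : RC} {w : Om} {f : Fin 3 → φ}

/-- the two active tops of a released kind meet at an exact vertex of the kind; the vertex of the rising top is in the kind -/
theorem ac_pair2 {k : Fin 10} (hk : k ∈ rK) (h : AC P Z Zb F Y c r k w f) :
    ∃ x y m : Fin 3, x ≠ y ∧ m ≠ x ∧ m ≠ y ∧ m ∈ vk k ∧ y ∈ vk k ∧ r.B < rF P Zb F Y x w (f x) ∧
      1 + r.e1 < rF P Zb F Y y w (f y) ∧ (k = 1 ∨ bad P Z F c x w f) := by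
  rcases h with ⟨rfl, i, j, hij, h1, h2⟩ | ⟨i, hki, hb, h1, j, hji, h2⟩ | ⟨rfl, i, hb, h1, j, hji, h2⟩ |
    ⟨v, hkv, _⟩ | ⟨rfl, _⟩
  · obtain ⟨m, h3, h4⟩ := thd_c hij
    exact ⟨i, j, m, hij, h3, h4, by show m ∈ (univ : Finset (Fin 3)); exact mem_univ m,
      by show j ∈ (univ : Finset (Fin 3)); exact mem_univ j, h1, h2, Or.inl rfl⟩
  · obtain ⟨m, h3, h4⟩ := thd_c hji.symm
    have key : ∀ (k : Fin 10) (i m : Fin 3), k.1 = i.1 + 2 → m ≠ i → m ∈ vk k := by decide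
    exact ⟨i, j, m, hji.symm, h3, h4, key k i m hki h3, key k i j hki hji, h1, h2, Or.inr hb⟩
  · obtain ⟨m, h3, h4⟩ := thd_c hji.symm
    exact ⟨i, j, m, hji.symm, h3, h4, by show m ∈ (univ : Finset (Fin 3)); exact mem_univ m,
      by show j ∈ (univ : Finset (Fin 3)); exact mem_univ j, h1, h2, Or.inr hb⟩
  · exfalso
    have key : ∀ (k : Fin 10) (v : Fin 3), k ∈ rK → k.1 ≠ v.1 + 6 := by decide
    exact key k v hk hkv
  · exact absurd hk (by decide)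

end one

variable {c : KC} {r : RC} {A : Fin 6 → ℕ → Pt (Fin 3) X β φ → Prop}
  {bO : Fin 10 → Fin 3 → ℕ → Om W X β → Prop} {zO : Fin 10 → ℕ → Om W X β → Prop}

/-- **THE CASES OF THE UNRELEASED TUPLES OF THE REGION** -/
theorem unB_cases (he : 1 + r.e1 ≤ r.B) (hd : (1 + 4 * c.dH) * Real.exp (3 * c.eS) ≤ 1 + r.d) (hdH : 0 ≤ c.dH)
    (hS0 : 0 ≤ c.eS) {q : ℕ} (hq : q / 5 ≤ T) {w : Om W X β} (hw : tb.Ps.p w ≠ 0)
    (hu : unO h tb v c r.B A (Rg3 h v c r) bO zO q w) :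
    stB3 h tb v c r A q w ∨ (∃ i, ssB3 h tb v c r A i q w) ∨ wkO h tb v c r A q w ∨ (∃ k, k6O h tb v c r A k q w) ∨
      ∃ k ∈ rK, ∃ p ∈ trq k, prO h tb v c r A bO zO k p.1 p.2.1 q w := by
  classical
  obtain ⟨hr, ha, hR, hn⟩ := hu
  have hm := rm_mod hr
  have e2 := qs_rm hm
  have hp : (D.P h (q / 5)).p (tb.pt (q / 5) w) ≠ 0 := (pul_pt h tb hq).ne hw
  have hrm : rmO h tb v c r A q w := ⟨hr, ha, hR⟩
  have hrt : ∀ j, rtO h tb v j q w = rF (D.P h (q / 5)) (ZbQ D v q) (FQ v (q / 5)) (ZbQ D v (qe (sO q) (q / 5))) j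
      (tb.pt (q / 5) w) (tup (FQ v (q / 5)) (tb.pt (q / 5) w) j) := fun j => by
    unfold rtO rS
    rw [e2]
    rfl
  have hR' : RegT (D.P h (q / 5)) (ZQ D v q) (ZbQ D v q) (FQ v (q / 5)) (ZbQ D v (qe (sO q) (q / 5))) c r
      (tb.pt (q / 5) w) (tup (FQ v (q / 5)) (tb.pt (q / 5) w)) := by
    have := hR
    unfold rgO Rg3 at this
    rw [e2] at this
    exact this
  rcases r3_pair he hR' with hB | ⟨x, y, hxy, h1, h2⟩
  · exact Or.inl ⟨hrm, Or.inr hB⟩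
  have hsr : ∃ x y, x ≠ y ∧ srO h tb v r x y q w := by
    refine ⟨x, y, hxy, ?_, ?_⟩
    · rw [hrt]; exact h1
    · rw [hrt]; exact h2
  by_cases hs : sF (D.P h (q / 5)) (ZQ D v q) (ZbQ D v q) (FQ v (q / 5)) c (tb.pt (q / 5) w)
  · exact Or.inl ⟨hrm, Or.inl ⟨hs, hsr⟩⟩
  by_cases hss : ∃ i, sS (D.P h (q / 5)) (ZQ D v q) (ZbQ D v q) (FQ v (q / 5)) c i (tb.pt (q / 5) w)
      (tup (FQ v (q / 5)) (tb.pt (q / 5) w))
  · obtain ⟨i, hi⟩ := hss
    exact Or.inr (Or.inl ⟨i, hrm, ⟨hs, hi⟩, hsr⟩)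
  push Not at hss
  have hmp : ∀ i, 0 < mF (D.P h (q / 5)) (ZQ D v q) (FQ v (q / 5)) i (tb.pt (q / 5) w)
      (tup (FQ v (q / 5)) (tb.pt (q / 5) w) i) := fun i => true_m (D.P h (q / 5)) (FQ v (q / 5)) hp i
  have hqp : ∀ i, 0 < qF (D.P h (q / 5)) (ZbQ D v q) (FQ v (q / 5)) i (tb.pt (q / 5) w)
      (tup (FQ v (q / 5)) (tb.pt (q / 5) w) i) := fun i => true_q (D.P h (q / 5)) (FQ v (q / 5)) hp i
  rcases reg_class (P := D.P h (q / 5)) (Z := ZQ D v q) (Zb := ZbQ D v q) (F := FQ v (q / 5))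
    (Y := ZbQ D v (qe (sO q) (q / 5))) (c := c) (r := r) he hd hdH hS0 hR' hs hss hmp hqp with ⟨k, hk, hAC⟩ | hW
  swap
  · exact Or.inr (Or.inr (Or.inl ⟨hrm, hs, hW⟩))
  by_cases hk6 : 6 ≤ k.1
  · exact Or.inr (Or.inr (Or.inr (Or.inl ⟨k, hrm, hs, hk6, hk, hAC⟩)))
  have hkr : k ∈ rK := by
    have key : ∀ k : Fin 10, ¬ 6 ≤ k.1 → k ≠ 0 → k ∈ rK := by decide
    refine key k hk6 ?_
    rintro rfl
    exact hk.1
  obtain ⟨x', y', m, hxy', hmx, hmy, hmv, hyv, g1, g2, g3⟩ := ac_pair2 hkr hAC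
  have hrO : rO h tb v c r.B k q w := by
    unfold rO
    refine ⟨hkr, ?_, ?_⟩
    · rw [e2]; exact hk
    · rcases g3 with g3 | g3
      · exact Or.inl g3
      · refine Or.inr ⟨x', ?_, ?_⟩
        · rw [e2]; exact g3
        · have := g1
          rw [← hrt x'] at this
          exact this
  have hpc : pcO h tb v c r A k x' y' q w := ⟨ha, hrO, by rw [hrt]; exact g1, by rw [hrt]; exact g2⟩
  have hnb : ¬ btO tb v bO zO k q w := fun hb => hn k hkr ⟨hrO, hb⟩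
  exact Or.inr (Or.inr (Or.inr (Or.inr ⟨k, hkr, (x', y', m), Finset.mem_filter.2 ⟨mem_univ _, hxy', hmx, hmy, hmv, hyv⟩,
    hpc, hr, hnb⟩)))

/-- a union of two events, with bounds -/
theorem Pr_cons {Om : Type*} [Fintype Om] (P : FP Om) {B R : Om → Prop} {x y : ℝ} (h1 : P.Pr B ≤ x) (h2 : P.Pr R ≤ y) :
    P.Pr (fun w => B w ∨ R w) ≤ x + y := (P.Pr_or_le B R).trans (add_le_add h1 h2)

/-- **THE UNRELEASED TUPLES OF THE REGION, ALL CASES** -/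
theorem unB_le (he : 1 + r.e1 ≤ r.B) (hd : (1 + 4 * c.dH) * Real.exp (3 * c.eS) ≤ 1 + r.d) (hdH : 0 ≤ c.dH)
    (hS0 : 0 ≤ c.eS) :
    ∑ q ∈ range (5 * T), tb.Ps.Pr (unO h tb v c r.B A (Rg3 h v c r) bO zO q) ≤
      ∑ q ∈ range (5 * T), tb.Ps.Pr (stB3 h tb v c r A q) +
      ∑ i, ∑ q ∈ range (5 * T), tb.Ps.Pr (ssB3 h tb v c r A i q) +
      ∑ q ∈ range (5 * T), tb.Ps.Pr (wkO h tb v c r A q) +
      ∑ k, ∑ q ∈ range (5 * T), tb.Ps.Pr (k6O h tb v c r A k q) +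
      ∑ k ∈ rK, ∑ p ∈ trq k, ∑ q ∈ range (5 * T), tb.Ps.Pr (prO h tb v c r A bO zO k p.1 p.2.1 q) := by
  classical
  have one : ∀ q ∈ range (5 * T), tb.Ps.Pr (unO h tb v c r.B A (Rg3 h v c r) bO zO q) ≤
      tb.Ps.Pr (stB3 h tb v c r A q) + (∑ i, tb.Ps.Pr (ssB3 h tb v c r A i q) + (tb.Ps.Pr (wkO h tb v c r A q) +
      (∑ k, tb.Ps.Pr (k6O h tb v c r A k q) +
      ∑ k ∈ rK, ∑ p ∈ trq k, tb.Ps.Pr (prO h tb v c r A bO zO k p.1 p.2.1 q)))) := by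
    intro q hq
    have hqT : q / 5 ≤ T := by
      have := Finset.mem_range.1 hq
      omega
    have h0 : tb.Ps.Pr (unO h tb v c r.B A (Rg3 h v c r) bO zO q) ≤ tb.Ps.Pr (fun w => stB3 h tb v c r A q w ∨
        ((∃ i ∈ (univ : Finset (Fin 3)), ssB3 h tb v c r A i q w) ∨ (wkO h tb v c r A q w ∨
          ((∃ k ∈ (univ : Finset (Fin 10)), k6O h tb v c r A k q w) ∨
            (∃ k ∈ rK, ∃ p ∈ trq k, prO h tb v c r A bO zO k p.1 p.2.1 q w))))) := by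
      refine tb.Ps.Pr_mono fun w hw hh => ?_
      rcases unB_cases he hd hdH hS0 hqT hw hh with h1 | ⟨i, h1⟩ | h1 | ⟨k, h1⟩ | h1
      · exact Or.inl h1
      · exact Or.inr (Or.inl ⟨i, mem_univ i, h1⟩)
      · exact Or.inr (Or.inr (Or.inl h1))
      · exact Or.inr (Or.inr (Or.inr (Or.inl ⟨k, mem_univ k, h1⟩)))
      · exact Or.inr (Or.inr (Or.inr (Or.inr h1)))
    refine h0.trans (Pr_cons _ le_rfl (Pr_cons _ (tb.Ps.Pr_ex_le _ _) (Pr_cons _ le_rfl (Pr_cons _ (tb.Ps.Pr_ex_le _ _)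
      ((tb.Ps.Pr_ex_le _ _).trans (Finset.sum_le_sum fun k _ => tb.Ps.Pr_ex_le _ _))))))
  refine (Finset.sum_le_sum one).trans (le_of_eq ?_)
  simp only [Finset.sum_add_distrib]
  have c1 : ∑ q ∈ range (5 * T), ∑ i, tb.Ps.Pr (ssB3 h tb v c r A i q) =
      ∑ i, ∑ q ∈ range (5 * T), tb.Ps.Pr (ssB3 h tb v c r A i q) := Finset.sum_comm
  have c2 : ∑ q ∈ range (5 * T), ∑ k, tb.Ps.Pr (k6O h tb v c r A k q) =
      ∑ k, ∑ q ∈ range (5 * T), tb.Ps.Pr (k6O h tb v c r A k q) := Finset.sum_comm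
  have c3 : ∀ f : ℕ → Fin 10 → Fin 3 × Fin 3 × Fin 3 → ℝ, ∑ q ∈ range (5 * T), ∑ k ∈ rK, ∑ p ∈ trq k, f q k p =
      ∑ k ∈ rK, ∑ p ∈ trq k, ∑ q ∈ range (5 * T), f q k p := fun f => by
    rw [Finset.sum_comm]
    exact Finset.sum_congr rfl fun k _ => Finset.sum_comm
  rw [c1, c2, c3]
  ring

/-! ### the named events -/

section named

variable (h tb v c r A) {ι : Type} (M : MS (Om W X β)) (U : ι → Fin 10 → US (Om W X β)) (K : ι → Fin 10 → Kd (Om W X β))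
  (Gd : ℕ → Om W X β → Prop) (Rl : Fin 10 → Fin 3 → ℕ → Om W X β → Prop)

/-- undecided, both faces at `m` active -/
def unE (a : ι) (k : Fin 10) (x y m : Fin 3) (q : ℕ) (w : Om W X β) : Prop :=
  pcO h tb v c r A k x y q w ∧ q % 5 ≠ 0 ∧ unA U K a k m q w

/-- private removal of `i`, not alive or with a status -/
def ngE (k : Fin 10) (x y i : Fin 3) (q : ℕ) (w : Om W X β) : Prop :=
  pcO h tb v c r A k x y q w ∧ rpO tb v i q w ∧ ¬ Gd q w

/-- public removal, not in the relation of the life -/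
def tpE (k : Fin 10) (x y m : Fin 3) (q : ℕ) (w : Om W X β) : Prop :=
  pcO h tb v c r A k x y q w ∧ ruO tb v q w ∧ Gd q w ∧ ¬ Rl k m (tauS M m q w) w

/-- private removal of `i`, not in the relation of the life of `i` -/
def tlE (k : Fin 10) (x y i : Fin 3) (q : ℕ) (w : Om W X β) : Prop :=
  pcO h tb v c r A k x y q w ∧ rpO tb v i q w ∧ Gd q w ∧ ¬ Rl k i (tauS M i q w) w

/-- private removal of `y`, not moved at `m`, not in the relation of the life of `m` -/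
def thE (k : Fin 10) (x y m : Fin 3) (q : ℕ) (w : Om W X β) : Prop :=
  pcO h tb v c r A k x y q w ∧ rpO tb v y q w ∧ Gd q w ∧ ¬ MV.Mv M m q w ∧ ¬ Rl k m (tauS M m q w) w

/-- private removal of `i` in the zone, `i` blocked -/
def stE (a : ι) (k : Fin 10) (x y i : Fin 3) (q : ℕ) (w : Om W X β) : Prop :=
  pcO h tb v c r A k x y q w ∧ rpO tb v i q w ∧ Gd q w ∧ blA U K a k i q w

/-- private removal of `y`, moved at `m` -/
def mvE (k : Fin 10) (x y m : Fin 3) (q : ℕ) (w : Om W X β) : Prop :=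
  pcO h tb v c r A k x y q w ∧ rpO tb v y q w ∧ MV.Mv M m q w

/-- private removal of `y`, listed -/
def lsE (k : Fin 10) (x y : Fin 3) (q : ℕ) (w : Om W X β) : Prop :=
  pcO h tb v c r A k x y q w ∧ rpO tb v y q w ∧ Lst M (MV.nu M q w) q w

/-- private removal of `y`, no birth at `m` -/
def ltE (k : Fin 10) (x y m : Fin 3) (q : ℕ) (w : Om W X β) : Prop :=
  pcO h tb v c r A k x y q w ∧ rpO tb v y q w ∧ Gd q w ∧ ¬ NewM.Bx M (1 / 2) m (MV.tau M m q w) (q + 1) w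

/-- private removal of `y`, `m` heavy and decided, newly moved at `m` -/
def nwE (a : ι) (k : Fin 10) (x y m : Fin 3) (q : ℕ) (w : Om W X β) : Prop :=
  (pcO h tb v c r A k x y q w ∧ rpO tb v y q w ∧ Gd q w ∧ ¬ rpO tb v m q w) ∧ nwA M U K a k m q w

end named

section sums

variable {M : MS (Om W X β)} {ι : Type} [Fintype ι] {U : ι → Fin 10 → US (Om W X β)} {K : ι → Fin 10 → Kd (Om W X β)}
  {Gd : ℕ → Om W X β → Prop} {Rl : Fin 10 → Fin 3 → ℕ → Om W X β → Prop}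

/-- **THE UNRELEASED TUPLES OF A RELEASED KIND IN NAMED SUMS** -/
theorem pr_le (hP : M.P = tb.Ps) (F : Fam M U K Gd Rl) (hb : ∀ k i q w, bO k i q w ↔ ∃ a, bet (U a k) (K a k) i q w)
    (hz : ∀ k q w, zO k q w ↔ ∃ a, Z0 (U a k) (K a k) q w) (hd : M.d1 ≤ 1 / 2)
    (hGu : ∀ q < 5 * T, ∀ w, tb.Ps.p w ≠ 0 → aO tb A q w → ruO tb v q w → Gd q w) {k : Fin 10} {p : Fin 3 × Fin 3 × Fin 3}
    (hp : p ∈ trq k) :
    ∑ q ∈ range (5 * T), tb.Ps.Pr (prO h tb v c r A bO zO k p.1 p.2.1 q) ≤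
      ∑ a, ∑ q ∈ range (5 * T), tb.Ps.Pr (unE h tb v c r A U K a k p.1 p.2.1 p.2.2 q) +
      (∑ q ∈ range (5 * T), tb.Ps.Pr (ngE h tb v c r A Gd k p.1 p.2.1 p.2.2 q) +
      (∑ q ∈ range (5 * T), tb.Ps.Pr (ngE h tb v c r A Gd k p.1 p.2.1 p.2.1 q) +
      (∑ q ∈ range (5 * T), tb.Ps.Pr (tpE h tb v c r A M Gd Rl k p.1 p.2.1 p.2.2 q) +
      (∑ q ∈ range (5 * T), tb.Ps.Pr (tlE h tb v c r A M Gd Rl k p.1 p.2.1 p.2.2 q) +
      (∑ q ∈ range (5 * T), tb.Ps.Pr (tlE h tb v c r A M Gd Rl k p.1 p.2.1 p.2.1 q) +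
      (∑ q ∈ range (5 * T), tb.Ps.Pr (thE h tb v c r A M Gd Rl k p.1 p.2.1 p.2.2 q) +
      (∑ a, ∑ q ∈ range (5 * T), tb.Ps.Pr (stE h tb v c r A U K Gd a k p.1 p.2.1 p.2.2 q) +
      (∑ a, ∑ q ∈ range (5 * T), tb.Ps.Pr (stE h tb v c r A U K Gd a k p.1 p.2.1 p.2.1 q) +
      (∑ q ∈ range (5 * T), tb.Ps.Pr (mvE h tb v c r A M k p.1 p.2.1 p.2.2 q) +
      (∑ q ∈ range (5 * T), tb.Ps.Pr (lsE h tb v c r A M k p.1 p.2.1 q) +
      (∑ q ∈ range (5 * T), tb.Ps.Pr (ltE h tb v c r A M Gd k p.1 p.2.1 p.2.2 q) +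
      (∑ a, ∑ q ∈ range (5 * T), tb.Ps.Pr (nwE h tb v c r A M U K Gd a k p.1 p.2.1 p.2.2 q) +
      ∑ q ∈ range (5 * T), tb.Ps.Pr (hvO h tb v r A p.1 q))))))))))))) := by
  classical
  obtain ⟨x, y, m⟩ := p
  obtain ⟨hxy, hmx, hmy, hm, hy⟩ := mem_trq hp
  dsimp only at hxy hmx hmy hm hy ⊢
  have one : ∀ q ∈ range (5 * T), tb.Ps.Pr (prO h tb v c r A bO zO k x y q) ≤
      ∑ a, tb.Ps.Pr (unE h tb v c r A U K a k x y m q) +
      (tb.Ps.Pr (ngE h tb v c r A Gd k x y m q) +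
      (tb.Ps.Pr (ngE h tb v c r A Gd k x y y q) +
      (tb.Ps.Pr (tpE h tb v c r A M Gd Rl k x y m q) +
      (tb.Ps.Pr (tlE h tb v c r A M Gd Rl k x y m q) +
      (tb.Ps.Pr (tlE h tb v c r A M Gd Rl k x y y q) +
      (tb.Ps.Pr (thE h tb v c r A M Gd Rl k x y m q) +
      (∑ a, tb.Ps.Pr (stE h tb v c r A U K Gd a k x y m q) +
      (∑ a, tb.Ps.Pr (stE h tb v c r A U K Gd a k x y y q) +
      (tb.Ps.Pr (mvE h tb v c r A M k x y m q) +
      (tb.Ps.Pr (lsE h tb v c r A M k x y q) +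
      (tb.Ps.Pr (ltE h tb v c r A M Gd k x y m q) +
      (∑ a, tb.Ps.Pr (nwE h tb v c r A M U K Gd a k x y m q) +
      tb.Ps.Pr (hvO h tb v r A x q))))))))))))) := by
    intro q hq
    have h0 : tb.Ps.Pr (prO h tb v c r A bO zO k x y q) ≤ tb.Ps.Pr (fun w =>
        (∃ a ∈ (univ : Finset ι), unE h tb v c r A U K a k x y m q w) ∨ (ngE h tb v c r A Gd k x y m q w ∨
        (ngE h tb v c r A Gd k x y y q w ∨ (tpE h tb v c r A M Gd Rl k x y m q w ∨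
        (tlE h tb v c r A M Gd Rl k x y m q w ∨ (tlE h tb v c r A M Gd Rl k x y y q w ∨
        (thE h tb v c r A M Gd Rl k x y m q w ∨
        ((∃ a ∈ (univ : Finset ι), stE h tb v c r A U K Gd a k x y m q w) ∨
        ((∃ a ∈ (univ : Finset ι), stE h tb v c r A U K Gd a k x y y q w) ∨ (mvE h tb v c r A M k x y m q w ∨
        (lsE h tb v c r A M k x y q w ∨ (ltE h tb v c r A M Gd k x y m q w ∨
        ((∃ a ∈ (univ : Finset ι), nwE h tb v c r A M U K Gd a k x y m q w) ∨ hvO h tb v r A x q w))))))))))))) := by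
      refine tb.Ps.Pr_mono fun w hw hh => ?_
      have hw' : M.P.p w ≠ 0 := by rw [hP]; exact hw
      obtain ⟨hpc, hr, hn⟩ := hh
      have hq0 : q % 5 ≠ 0 := by
        have := rm_mod hr
        omega
      by_cases hmr : ruO tb v q w ∨ rpO tb v m q w
      · by_cases hG : Gd q w
        · rcases cs_m F hb hz hm hw' hG hn hmr with ⟨a, h1⟩ | ⟨h1, h2⟩ | ⟨h1, h2⟩ | ⟨a, h1, h2⟩
          · exact Or.inl ⟨a, mem_univ a, hpc, hq0, h1⟩
          · exact Or.inr (Or.inr (Or.inr (Or.inl ⟨hpc, h1, hG, h2⟩)))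
          · exact Or.inr (Or.inr (Or.inr (Or.inr (Or.inl ⟨hpc, h1, hG, h2⟩))))
          · exact Or.inr (Or.inr (Or.inr (Or.inr (Or.inr (Or.inr (Or.inr (Or.inl ⟨a, mem_univ a, hpc, h1, hG, h2⟩)))))))
        · rcases hmr with h1 | h1
          · exact absurd (hGu q (Finset.mem_range.1 hq) w hw hpc.1 h1) hG
          · exact Or.inr (Or.inl ⟨hpc, h1, hG⟩)
      · have hnu : ¬ ruO tb v q w := fun hh => hmr (Or.inl hh)
        have hnm : ¬ rpO tb v m q w := fun hh => hmr (Or.inr hh)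
        obtain ⟨j, hj⟩ := hr.resolve_left hnu
        by_cases hyl : rpO tb v y q w
        · by_cases hG : Gd q w
          swap
          · exact Or.inr (Or.inr (Or.inl ⟨hpc, hyl, hG⟩))
          rcases cs_i F hb hm hy hd hw' hG hn hyl with h1 | h1 | ⟨h1, h2⟩ | h1 | h1 | ⟨a, h1⟩ | ⟨a, h1⟩ | ⟨a, h1⟩
          · exact Or.inr (Or.inr (Or.inr (Or.inr (Or.inr (Or.inr (Or.inr (Or.inr (Or.inr (Or.inl ⟨hpc, hyl, h1⟩)))))))))
          · exact Or.inr (Or.inr (Or.inr (Or.inr (Or.inr (Or.inr (Or.inr (Or.inr (Or.inr (Or.inr (Or.inl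
              ⟨hpc, hyl, h1⟩))))))))))
          · exact Or.inr (Or.inr (Or.inr (Or.inr (Or.inr (Or.inr (Or.inl ⟨hpc, hyl, hG, h1, h2⟩))))))
          · exact Or.inr (Or.inr (Or.inr (Or.inr (Or.inr (Or.inr (Or.inr (Or.inr (Or.inr (Or.inr (Or.inr (Or.inl
              ⟨hpc, hyl, hG, h1⟩)))))))))))
          · exact Or.inr (Or.inr (Or.inr (Or.inr (Or.inr (Or.inl ⟨hpc, hyl, hG, h1⟩)))))
          · exact Or.inl ⟨a, mem_univ a, hpc, hq0, h1⟩
          · exact Or.inr (Or.inr (Or.inr (Or.inr (Or.inr (Or.inr (Or.inr (Or.inr (Or.inr (Or.inr (Or.inr (Or.inr (Or.inl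
              ⟨a, mem_univ a, ⟨hpc, hyl, hG, hnm⟩, h1⟩))))))))))))
          · exact Or.inr (Or.inr (Or.inr (Or.inr (Or.inr (Or.inr (Or.inr (Or.inr (Or.inl
              ⟨a, mem_univ a, hpc, hyl, hG, h1⟩))))))))
        · refine Or.inr (Or.inr (Or.inr (Or.inr (Or.inr (Or.inr (Or.inr (Or.inr (Or.inr (Or.inr (Or.inr (Or.inr (Or.inr
            ⟨hj.1, hpc.1, fun i hi => ?_, y, hxy.symm, hpc.2.2⟩))))))))))))
          have key : ∀ x y m i : Fin 3, x ≠ y → m ≠ x → m ≠ y → i ≠ x → i = m ∨ i = y := by decide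
          rcases key x y m i hxy hmx hmy hi with rfl | rfl
          · exact hnm
          · exact hyl
    refine h0.trans (Pr_cons _ (tb.Ps.Pr_ex_le _ _) (Pr_cons _ le_rfl (Pr_cons _ le_rfl (Pr_cons _ le_rfl (Pr_cons _ le_rfl
      (Pr_cons _ le_rfl (Pr_cons _ le_rfl (Pr_cons _ (tb.Ps.Pr_ex_le _ _) (Pr_cons _ (tb.Ps.Pr_ex_le _ _)
      (Pr_cons _ le_rfl (Pr_cons _ le_rfl (Pr_cons _ le_rfl (Pr_cons _ (tb.Ps.Pr_ex_le _ _) le_rfl)))))))))))))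
  refine (Finset.sum_le_sum one).trans (le_of_eq ?_)
  simp only [Finset.sum_add_distrib]
  have c1 : ∀ f : ℕ → ι → ℝ, ∑ q ∈ range (5 * T), ∑ a, f q a = ∑ a, ∑ q ∈ range (5 * T), f q a := fun f => Finset.sum_comm
  rw [c1, c1, c1, c1]

end sums

end

end Pool.Agent.GMH.TRF
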