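import Pool.Agent.GMH.UnrT
import Pool.Agent.GMH.RegK
import Pool.Agent.GMH.ActO
import Pool.Agent.GMH.HotK

/-!
# GMH/UnrC (helper77, for helper55's UnrFull): THE CASES OF THE UNRELEASED TUPLES OF THE REGION, three tops

* `ac_pair` : a tuple of a released kind with active faces (`AC` of `GMH/RegK`) has a strong top `x` and a rising top `y`, whose
  common vertex `m` is an exact vertex of the kind; `r3_pair` : the same for the parts (a), (c) of the region;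
* `pcO k x y` : alive, released relation, `x` strong, `y` rising; at the public removal `puO`; at the joint private step: `plO` (`m`
  light, undecided), `phO` (`m` heavy, undecided), `pdO` (`m` heavy, decided, the other vertex `y` of the top `x` light), `hvO`
  (both vertices of the strong top `x` are heavy);
* `stB3` : `sF` with two active tops, or `RegB`; `ssB3` : a strong single with two active tops; `wkO` (outside `sF` and `R0`), `k6O`;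
* `unC_cases` : every unreleased tuple of the region `Rg3` is in one of these events; `unC_le` : the sums; `hv5` : the event of
  the heavy values on the letters of the level.
-/

set_option autoImplicit false
set_option linter.unusedSectionVars false

namespace Pool.Agent.GMH.KF

open Finset Pool.Agent.PWZ Pool.Agent.M3 Pool.Agent.GMH Pool.Agent.GMH.TP

noncomputable section

section one

variable {Om : Type*} [Fintype Om] {P : FP Om} {α β γ φ : Type*} {Z : Om → β} {Zb : Fin 3 → Om → α}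
  {F : Fin 3 → Om → φ} {Y : Fin 3 → Om → γ} {c : KC} {r : RC} {w : Om} {f : Fin 3 → φ}

/-- the third vertex -/
theorem thd_c {i j : Fin 3} (hij : i ≠ j) : ∃ m : Fin 3, m ≠ i ∧ m ≠ j := by
  have key : ∀ i j : Fin 3, i ≠ j → ∃ m : Fin 3, m ≠ i ∧ m ≠ j := by decide
  exact key i j hij

/-- **the two active tops of a released kind meet at an exact vertex of the kind** -/
theorem ac_pair {k : Fin 10} (hk : k ∈ rK) (h : AC P Z Zb F Y c r k w f) :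
    ∃ x y m : Fin 3, x ≠ y ∧ m ≠ x ∧ m ≠ y ∧ m ∈ vk k ∧ r.B < rF P Zb F Y x w (f x) ∧
      1 + r.e1 < rF P Zb F Y y w (f y) ∧ (k = 1 ∨ bad P Z F c x w f) := by
  rcases h with ⟨rfl, i, j, hij, h1, h2⟩ | ⟨i, hki, hb, h1, j, hji, h2⟩ | ⟨rfl, i, hb, h1, j, hji, h2⟩ |
    ⟨v, hkv, _⟩ | ⟨rfl, _⟩
  · obtain ⟨m, h3, h4⟩ := thd_c hij
    exact ⟨i, j, m, hij, h3, h4, by show m ∈ (univ : Finset (Fin 3)); exact mem_univ m, h1, h2, Or.inl rfl⟩
  · obtain ⟨m, h3, h4⟩ := thd_c hji.symm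
    have key : ∀ (k : Fin 10) (i m : Fin 3), k.1 = i.1 + 2 → m ≠ i → m ∈ vk k := by decide
    exact ⟨i, j, m, hji.symm, h3, h4, key k i m hki h3, h1, h2, Or.inr hb⟩
  · obtain ⟨m, h3, h4⟩ := thd_c hji.symm
    exact ⟨i, j, m, hji.symm, h3, h4, by show m ∈ (univ : Finset (Fin 3)); exact mem_univ m, h1, h2, Or.inr hb⟩
  · exfalso
    have key : ∀ (k : Fin 10) (v : Fin 3), k ∈ rK → k.1 ≠ v.1 + 6 := by decide
    exact key k v hk hkv
  · exact absurd hk (by decide)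

/-- the parts (a) and (c) of the region have a strong top and a rising top -/
theorem r3_pair (he : 1 + r.e1 ≤ r.B) (h : RegT P Z Zb F Y c r w f) : RegB P Z Zb F Y r w f ∨
    ∃ x y : Fin 3, x ≠ y ∧ r.B < rF P Zb F Y x w (f x) ∧ 1 + r.e1 < rF P Zb F Y y w (f y) := by
  rcases h with ⟨i, k, hki, h1, _, h2⟩ | h | ⟨i, k, hik, h1, h2, _⟩
  · exact Or.inr ⟨i, k, hki.symm, h1, h2⟩
  · exact Or.inl h
  · exact Or.inr ⟨i, k, hik, h1, lt_of_le_of_lt he h2⟩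

/-- a weak tuple inside `R0` is of the kind `1` with active faces -/
theorem ap_one (he : 1 + r.e1 ≤ r.B) {i : Fin 3} (h : Wk P Z Zb F Y c r i w f) (h1 : Ap P Z F c 1 w f) :
    kdF P Z F c 1 w f ∧ AC P Z Zb F Y c r 1 w f := by
  refine ⟨?_, ?_⟩
  · obtain ⟨k', hk', hd'⟩ := Ap_kd (k := 1) h1
    have key : ∀ k' : Fin 10, k' ≤ 1 → k' = 0 ∨ k' = 1 := by decide
    rcases key k' hk' with rfl | rfl
    · exact absurd hd'.1 (fun hh => hh)
    · exact hd'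
  · obtain ⟨h2, a, b, _, hib, _, _, h3, _⟩ := h
    exact Or.inl ⟨rfl, i, b, hib, h2, lt_of_le_of_lt he h3⟩

end one

end

end Pool.Agent.GMH.KF

namespace Pool.Agent.GMH.TRF

open Finset Pool.Agent.PWZ Pool.Agent.M3 Pool.Agent.GM Pool.Agent.GM.Harm Pool.Agent.GMH Pool.Agent.GMH.NZ
open Pool.Agent.GMH.V3 Pool.Agent.GMH.TP Pool.Agent.GMH.TD Pool.Agent.GMH.Dy Pool.Agent.GMH.MV Pool.Agent.GMH.MVI
open Pool.Agent.GMH.UV Pool.Agent.GMH.KF

noncomputable section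

variable {X β γ φ : Type} [Fintype X] [Fintype β] [Fintype φ] [Nonempty X] [Nonempty β]
variable {D : HD (Fin 3) X β γ φ} {al : ℝ} (h : D.Thick al) {prr : ℕ → Fin 3 → φ → φ} {T : ℕ} {W : Type} [Fintype W]
variable (tb : Tab D prr T W) (v : ℕ → Finset (Fin 3) → X → (Fin 3 → β) → Pt (Fin 3) X β φ)
variable (c : KC) (r : RC) (A : Fin 6 → ℕ → Pt (Fin 3) X β φ → Prop)
  (bO : Fin 10 → Fin 3 → ℕ → Om W X β → Prop) (zO : Fin 10 → ℕ → Om W X β → Prop)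

/-- the top `x` is strong, the top `y` rises -/
def srO (x y : Fin 3) (q : ℕ) (w : Om W X β) : Prop := r.B < rtO h tb v x q w ∧ 1 + r.e1 < rtO h tb v y q w

/-- alive, released relation of the kind `k`, `x` strong, `y` rising -/
def pcO (k : Fin 10) (x y : Fin 3) (q : ℕ) (w : Om W X β) : Prop :=
  aO tb A q w ∧ rO h tb v c r.B k q w ∧ srO h tb v r x y q w

/-- at the public removal, not released -/
def puO (k : Fin 10) (x y : Fin 3) (q : ℕ) (w : Om W X β) : Prop :=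
  pcO h tb v c r A k x y q w ∧ ruO tb v q w ∧ ¬ zO k q w ∧ ∀ i ∈ vk k, ¬ bO k i q w

/-- the common vertex is light and undecided -/
def plO (k : Fin 10) (m x y : Fin 3) (q : ℕ) (w : Om W X β) : Prop :=
  pcO h tb v c r A k x y q w ∧ rpO tb v m q w ∧ ¬ bO k m q w

/-- the common vertex is heavy and undecided -/
def phO (k : Fin 10) (m x y : Fin 3) (q : ℕ) (w : Om W X β) : Prop :=
  pcO h tb v c r A k x y q w ∧ q % 5 = 4 ∧ ¬ rpO tb v m q w ∧ ¬ bO k m q w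

/-- the common vertex is heavy and decided, the other vertex `y` of the top `x` is light -/
def pdO (k : Fin 10) (m x y : Fin 3) (q : ℕ) (w : Om W X β) : Prop :=
  pcO h tb v c r A k x y q w ∧ q % 5 = 4 ∧ (¬ rpO tb v m q w ∧ bO k m q w) ∧ rpO tb v y q w

/-- alive at the joint private step, all vertices of the strong top `x` heavy, another top rises -/
def hvO (x : Fin 3) (q : ℕ) (w : Om W X β) : Prop :=
  q % 5 = 4 ∧ aO tb A q w ∧ (∀ i, i ≠ x → ¬ rpO tb v i q w) ∧ ∃ y, y ≠ x ∧ srO h tb v r x y q w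

/-- the same on the letters of the level (form of helper55, HvS at the joint private step) -/
def hv5 (e : ℝ) (t : ℕ) (u : Pt (Fin 3) X β φ) : Prop :=
  A 5 t u ∧ ∃ x, (∀ i, i ≠ x → ¬ lpv h v i t u) ∧ r.B < rS h v 5 t x u (FQ v t x u) ∧
    ∃ y, y ≠ x ∧ e < |rS h v 5 t y u (FQ v t y u) - 1|

/-- a removal, alive, in the region -/
def rmO (q : ℕ) (w : Om W X β) : Prop := (ruO tb v q w ∨ ∃ i, rpO tb v i q w) ∧ aO tb A q w ∧
  rgO tb v (Rg3 h v c r) q w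

/-- thin points with two active tops, and single strong letters -/
def stB3 (q : ℕ) (w : Om W X β) : Prop := rmO h tb v c r A q w ∧
  ((sF (D.P h (q / 5)) (ZQ D v q) (ZbQ D v q) (FQ v (q / 5)) c (tb.pt (q / 5) w) ∧
    ∃ x y, x ≠ y ∧ srO h tb v r x y q w) ∨
    RegB (D.P h (q / 5)) (ZQ D v q) (ZbQ D v q) (FQ v (q / 5)) (ZbQ D v (qe (sO q) (q / 5))) r (tb.pt (q / 5) w)
      (tup (FQ v (q / 5)) (tb.pt (q / 5) w)))

/-- a strong single, two active tops, outside `sF` -/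
def ssB3 (i : Fin 3) (q : ℕ) (w : Om W X β) : Prop := rmO h tb v c r A q w ∧
  (¬ sF (D.P h (q / 5)) (ZQ D v q) (ZbQ D v q) (FQ v (q / 5)) c (tb.pt (q / 5) w) ∧
    sS (D.P h (q / 5)) (ZQ D v q) (ZbQ D v q) (FQ v (q / 5)) c i (tb.pt (q / 5) w)
      (tup (FQ v (q / 5)) (tb.pt (q / 5) w))) ∧ ∃ x y, x ≠ y ∧ srO h tb v r x y q w

/-- a weak tuple outside `sF` and outside `R0` -/
def wkO (q : ℕ) (w : Om W X β) : Prop := rmO h tb v c r A q w ∧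
  (¬ sF (D.P h (q / 5)) (ZQ D v q) (ZbQ D v q) (FQ v (q / 5)) c (tb.pt (q / 5) w) ∧
    ¬ Ap (D.P h (q / 5)) (ZQ D v q) (FQ v (q / 5)) c 1 (tb.pt (q / 5) w) (tup (FQ v (q / 5)) (tb.pt (q / 5) w))) ∧
    ∃ i, Wk (D.P h (q / 5)) (ZQ D v q) (ZbQ D v q) (FQ v (q / 5)) (ZbQ D v (qe (sO q) (q / 5))) c r i (tb.pt (q / 5) w)
      (tup (FQ v (q / 5)) (tb.pt (q / 5) w))

/-- a pair kind or the kind 9 with active faces, outside `sF` -/
def k6O (k : Fin 10) (q : ℕ) (w : Om W X β) : Prop := rmO h tb v c r A q w ∧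
  ¬ sF (D.P h (q / 5)) (ZQ D v q) (ZbQ D v q) (FQ v (q / 5)) c (tb.pt (q / 5) w) ∧ 6 ≤ k.1 ∧
  kdF (D.P h (q / 5)) (ZQ D v q) (FQ v (q / 5)) c k (tb.pt (q / 5) w) (tup (FQ v (q / 5)) (tb.pt (q / 5) w)) ∧
    AC (D.P h (q / 5)) (ZQ D v q) (ZbQ D v q) (FQ v (q / 5)) (ZbQ D v (qe (sO q) (q / 5))) c r k (tb.pt (q / 5) w)
      (tup (FQ v (q / 5)) (tb.pt (q / 5) w))

variable {h tb v c r A bO zO}

/-- the state before a removal -/
theorem qs_rm {q : ℕ} (hq : q % 5 = 1 ∨ q % 5 = 4) : qs (sO q) (q / 5) = q := by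
  rcases hq with h1 | h1
  · rw [sO_v1 h1]
    show 5 * (q / 5) + 1 = q
    omega
  · rw [sO_v4 h1]
    show 5 * (q / 5) + 4 = q
    omega

theorem rm_mod {q : ℕ} {w : Om W X β} (hr : ruO tb v q w ∨ ∃ i, rpO tb v i q w) : q % 5 = 1 ∨ q % 5 = 4 :=
  hr.imp (fun h => h.1) fun ⟨_, h⟩ => h.1

/-- strong and rising tops are active -/
theorem srO_ac {e : ℝ} (he : e ≤ r.e1) (heB : 1 + e ≤ r.B) {q : ℕ} (hq : q % 5 ≠ 0) {x y : Fin 3} {w : Om W X β}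
    (hs : srO h tb v r x y q w) : acO h tb v e x q w ∧ acO h tb v e y q w := by
  refine ⟨acO_of h tb heB hq hs.1, hq, lt_of_lt_of_le ?_ (le_abs_self _)⟩
  have := hs.2
  linarith

/-- **THE SKELETON OF THE RELEASED KINDS** : an unreleased tuple with a strong top `x`, a rising top `y`, `m` their vertex -/
theorem un_skel {k : Fin 10} {x y m : Fin 3} (hxy : x ≠ y) (hmx : m ≠ x) (hmy : m ≠ y) (hm : m ∈ vk k) {q : ℕ}
    {w : Om W X β} (hr : ruO tb v q w ∨ ∃ i, rpO tb v i q w) (hp : pcO h tb v c r A k x y q w)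
    (hb : ¬ btO tb v bO zO k q w) :
    puO h tb v c r A bO zO k x y q w ∨ plO h tb v c r A bO k m x y q w ∨ phO h tb v c r A bO k m x y q w ∨
      pdO h tb v c r A bO k m x y q w ∨ hvO h tb v r A x q w := by
  rcases hr with hr | ⟨j, hj⟩
  · exact Or.inl ⟨hp, hr, fun hz => hb (Or.inr ⟨hr, Or.inl hz⟩), fun i hi hbi => hb (Or.inr ⟨hr, Or.inr ⟨i, hi, hbi⟩⟩)⟩
  · have h4 : q % 5 = 4 := hj.1
    by_cases hl : rpO tb v m q w
    · exact Or.inr (Or.inl ⟨hp, hl, fun hbm => hb (Or.inl ⟨m, hm, hl, hbm⟩)⟩)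
    · by_cases hbm : bO k m q w
      · by_cases hy : rpO tb v y q w
        · exact Or.inr (Or.inr (Or.inr (Or.inl ⟨hp, h4, ⟨hl, hbm⟩, hy⟩)))
        · refine Or.inr (Or.inr (Or.inr (Or.inr ⟨h4, hp.1, fun i hi => ?_, y, hxy.symm, hp.2.2⟩)))
          have key : ∀ x y m i : Fin 3, x ≠ y → m ≠ x → m ≠ y → i ≠ x → i = m ∨ i = y := by decide
          rcases key x y m i hxy hmx hmy hi with rfl | rfl
          · exact hl
          · exact hy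
      · exact Or.inr (Or.inr (Or.inl ⟨hp, h4, hl, hbm⟩))

/-- **THE CASES OF THE UNRELEASED TUPLES OF THE REGION** -/
theorem unC_cases (he : 1 + r.e1 ≤ r.B) (hd : (1 + 4 * c.dH) * Real.exp (3 * c.eS) ≤ 1 + r.d) (hdH : 0 ≤ c.dH)
    (hS0 : 0 ≤ c.eS) {q : ℕ} (hq : q / 5 ≤ T) {w : Om W X β} (hw : tb.Ps.p w ≠ 0)
    (hu : unO h tb v c r.B A (Rg3 h v c r) bO zO q w) :
    stB3 h tb v c r A q w ∨ (∃ i, ssB3 h tb v c r A i q w) ∨ wkO h tb v c r A q w ∨ (∃ k, k6O h tb v c r A k q w) ∨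
      (∃ k ∈ rK, ∃ x y : Fin 3, x ≠ y ∧ ∃ m ∈ vk k, m ≠ x ∧ m ≠ y ∧
        (puO h tb v c r A bO zO k x y q w ∨ plO h tb v c r A bO k m x y q w ∨ phO h tb v c r A bO k m x y q w ∨
          pdO h tb v c r A bO k m x y q w)) ∨ ∃ x, hvO h tb v r A x q w := by
  classical
  obtain ⟨hr, ha, hR, hn⟩ := hu
  have hm := rm_mod hr
  have e2 := qs_rm hm
  have hp : (D.P h (q / 5)).p (tb.pt (q / 5) w) ≠ 0 := (pul_pt h tb hq).ne hw
  have hrm : rmO h tb v c r A q w := ⟨hr, ha, hR⟩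
  have hrt : ∀ j, rtO h tb v j q w = rF (D.P h (q / 5)) (ZbQ D v q) (FQ v (q / 5)) (ZbQ D v (qe (sO q) (q / 5))) j
      (tb.pt (q / 5) w) (tup (FQ v (q / 5)) (tb.pt (q / 5) w) j) := fun j => by
    unfold rtO rS
    rw [e2]
    rfl
  have hR' : RegT (D.P h (q / 5)) (ZQ D v q) (ZbQ D v q) (FQ v (q / 5)) (ZbQ D v (qe (sO q) (q / 5))) c r
      (tb.pt (q / 5) w) (tup (FQ v (q / 5)) (tb.pt (q / 5) w)) := by
    have := hR
    unfold rgO Rg3 at this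
    rw [e2] at this
    exact this
  rcases r3_pair he hR' with hB | ⟨x, y, hxy, h1, h2⟩
  · exact Or.inl ⟨hrm, Or.inr hB⟩
  have hsr : ∃ x y, x ≠ y ∧ srO h tb v r x y q w := by
    refine ⟨x, y, hxy, ?_, ?_⟩
    · rw [hrt]; exact h1
    · rw [hrt]; exact h2
  by_cases hs : sF (D.P h (q / 5)) (ZQ D v q) (ZbQ D v q) (FQ v (q / 5)) c (tb.pt (q / 5) w)
  · exact Or.inl ⟨hrm, Or.inl ⟨hs, hsr⟩⟩
  by_cases hss : ∃ i, sS (D.P h (q / 5)) (ZQ D v q) (ZbQ D v q) (FQ v (q / 5)) c i (tb.pt (q / 5) w)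
      (tup (FQ v (q / 5)) (tb.pt (q / 5) w))
  · obtain ⟨i, hi⟩ := hss
    exact Or.inr (Or.inl ⟨i, hrm, ⟨hs, hi⟩, hsr⟩)
  push Not at hss
  have hmp : ∀ i, 0 < mF (D.P h (q / 5)) (ZQ D v q) (FQ v (q / 5)) i (tb.pt (q / 5) w)
      (tup (FQ v (q / 5)) (tb.pt (q / 5) w) i) := fun i => true_m (D.P h (q / 5)) (FQ v (q / 5)) hp i
  have hqp : ∀ i, 0 < qF (D.P h (q / 5)) (ZbQ D v q) (FQ v (q / 5)) i (tb.pt (q / 5) w)
      (tup (FQ v (q / 5)) (tb.pt (q / 5) w) i) := fun i => true_q (D.P h (q / 5)) (FQ v (q / 5)) hp i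
  have hcls : (∃ k : Fin 10, kdF (D.P h (q / 5)) (ZQ D v q) (FQ v (q / 5)) c k (tb.pt (q / 5) w)
        (tup (FQ v (q / 5)) (tb.pt (q / 5) w)) ∧
      AC (D.P h (q / 5)) (ZQ D v q) (ZbQ D v q) (FQ v (q / 5)) (ZbQ D v (qe (sO q) (q / 5))) c r k (tb.pt (q / 5) w)
        (tup (FQ v (q / 5)) (tb.pt (q / 5) w))) ∨
      (¬ Ap (D.P h (q / 5)) (ZQ D v q) (FQ v (q / 5)) c 1 (tb.pt (q / 5) w) (tup (FQ v (q / 5)) (tb.pt (q / 5) w)) ∧
        ∃ i, Wk (D.P h (q / 5)) (ZQ D v q) (ZbQ D v q) (FQ v (q / 5)) (ZbQ D v (qe (sO q) (q / 5))) c r i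
          (tb.pt (q / 5) w) (tup (FQ v (q / 5)) (tb.pt (q / 5) w))) := by
    rcases reg_class (P := D.P h (q / 5)) (Z := ZQ D v q) (Zb := ZbQ D v q) (F := FQ v (q / 5))
      (Y := ZbQ D v (qe (sO q) (q / 5))) (c := c) (r := r) he hd hdH hS0 hR' hs hss hmp hqp with hk | ⟨i, hW⟩
    · exact Or.inl hk
    · by_cases hAp : Ap (D.P h (q / 5)) (ZQ D v q) (FQ v (q / 5)) c 1 (tb.pt (q / 5) w)
          (tup (FQ v (q / 5)) (tb.pt (q / 5) w))
      · exact Or.inl ⟨1, ap_one he hW hAp⟩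
      · exact Or.inr ⟨hAp, i, hW⟩
  rcases hcls with ⟨k, hk, hAC⟩ | ⟨hAp, hW⟩
  swap
  · exact Or.inr (Or.inr (Or.inl ⟨hrm, ⟨hs, hAp⟩, hW⟩))
  by_cases hk6 : 6 ≤ k.1
  · exact Or.inr (Or.inr (Or.inr (Or.inl ⟨k, hrm, hs, hk6, hk, hAC⟩)))
  have hkr : k ∈ rK := by
    have key : ∀ k : Fin 10, ¬ 6 ≤ k.1 → k ≠ 0 → k ∈ rK := by decide
    refine key k hk6 ?_
    rintro rfl
    exact hk.1
  obtain ⟨x', y', m, hxy', hmx, hmy, hmv, g1, g2, g3⟩ := ac_pair hkr hAC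
  have hrO : rO h tb v c r.B k q w := by
    unfold rO
    refine ⟨hkr, ?_, ?_⟩
    · rw [e2]; exact hk
    · rcases g3 with g3 | g3
      · exact Or.inl g3
      · refine Or.inr ⟨x', ?_, ?_⟩
        · rw [e2]; exact g3
        · have := g1
          rw [← hrt x'] at this
          exact this
  have hpc : pcO h tb v c r A k x' y' q w := ⟨ha, hrO, by rw [hrt]; exact g1, by rw [hrt]; exact g2⟩
  have hnb : ¬ btO tb v bO zO k q w := fun hb => hn k hkr ⟨hrO, hb⟩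
  rcases un_skel hxy' hmx hmy hmv hr hpc hnb with h5 | h5 | h5 | h5 | h5
  · exact Or.inr (Or.inr (Or.inr (Or.inr (Or.inl ⟨k, hkr, x', y', hxy', m, hmv, hmx, hmy, Or.inl h5⟩))))
  · exact Or.inr (Or.inr (Or.inr (Or.inr (Or.inl ⟨k, hkr, x', y', hxy', m, hmv, hmx, hmy, Or.inr (Or.inl h5)⟩))))
  · exact Or.inr (Or.inr (Or.inr (Or.inr (Or.inl ⟨k, hkr, x', y', hxy', m, hmv, hmx, hmy, Or.inr (Or.inr (Or.inl h5))⟩))))
  · exact Or.inr (Or.inr (Or.inr (Or.inr (Or.inl ⟨k, hkr, x', y', hxy', m, hmv, hmx, hmy, Or.inr (Or.inr (Or.inr h5))⟩))))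
  · exact Or.inr (Or.inr (Or.inr (Or.inr (Or.inr ⟨x', h5⟩))))

/-! ### heavy values on the letters of the level -/

/-- **the heavy values** : the event on the letters of the level -/
theorem hvO_pt {e : ℝ} (he : e ≤ r.e1) {q : ℕ} (hq : q / 5 ≤ T) (hA5 : ∀ u, A 5 (q / 5) u → HV h v (q / 5) u) {x : Fin 3}
    {w : Om W X β} (hh : hvO h tb v r A x q w) : q % 5 = 4 ∧ hv5 h v r A e (q / 5) (tb.pt (q / 5) w) := by
  obtain ⟨h4, ha, hn, y, hy, h1, h2⟩ := hh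
  refine ⟨h4, ?_⟩
  obtain ⟨t, rfl⟩ : ∃ t, q = 5 * t + 4 := ⟨q / 5, by omega⟩
  have hd : (5 * t + 4) / 5 = t := by omega
  have es : sO (5 * t + 4) = 5 := sO_v4 h4
  rw [hd] at hq hA5
  rw [hd]
  have ha' : A 5 t (tb.pt t w) := by
    have := ha
    unfold aO at this
    rw [hd, es] at this
    exact this
  have hHV := (HV_q hq w).1 (hA5 _ ha')
  have hrt : ∀ j, rtO h tb v j (5 * t + 4) w = rS h v 5 t j (tb.pt t w) (FQ v t j (tb.pt t w)) := fun j => by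
    unfold rtO
    rw [hd, es]
  rw [hrt] at h1
  rw [hrt] at h2
  refine ⟨ha', x, fun i hi hl => hn i hi ⟨h4, (LVp_pt h tb v hq i (5 * t + 4) w).1 hl, ?_⟩, h1, y, hy,
    lt_of_lt_of_le ?_ (le_abs_self _)⟩
  · rw [hd]
    exact hHV
  · linarith

theorem hvO_sum {e : ℝ} (he : e ≤ r.e1) (hA5 : ∀ t < T, ∀ u, A 5 t u → HV h v t u) :
    ∑ q ∈ range (5 * T), tb.Ps.Pr (fun w => ∃ x, hvO h tb v r A x q w) ≤
      ∑ t ∈ range T, (D.P h t).Pr (hv5 h v r A e t) := by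
  rw [sum_five]
  refine Finset.sum_le_sum fun t ht => ?_
  have ht' := Finset.mem_range.1 ht
  have k0 : ∀ q, q % 5 ≠ 4 → tb.Ps.Pr (fun w => ∃ x, hvO h tb v r A x q w) = 0 := fun q hq => by
    unfold FP.Pr
    rw [tb.Ps.E_congr (g := fun _ => 0) fun w _ => ind_not fun ⟨x, hx⟩ => hq hx.1, tb.Ps.E_const]
  rw [k0 (5 * t) (by omega), k0 (5 * t + 1) (by omega), k0 (5 * t + 2) (by omega), k0 (5 * t + 3) (by omega)]
  have hd : (5 * t + 4) / 5 = t := by omega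
  have h1 : tb.Ps.Pr (fun w => ∃ x, hvO h tb v r A x (5 * t + 4) w) ≤ (D.P h t).Pr (hv5 h v r A e t) := by
    unfold FP.Pr
    rw [← (pul_pt h tb ht'.le).E]
    refine tb.Ps.E_mono fun w _ => ind_mono ?_
    rintro ⟨x, hx⟩
    have := (hvO_pt (h := h) (tb := tb) (v := v) (r := r) (A := A) he (q := 5 * t + 4) (by rw [hd]; exact ht'.le)
      (by rw [hd]; exact hA5 t ht') hx).2
    rw [hd] at this
    exact this
  linarith

/-! ### the sums -/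

/-- the triples (strong top, rising top, common vertex) of the kind -/
def trp (k : Fin 10) : Finset (Fin 3 × Fin 3 × Fin 3) :=
  univ.filter fun p => p.1 ≠ p.2.1 ∧ p.2.2 ≠ p.1 ∧ p.2.2 ≠ p.2.1 ∧ p.2.2 ∈ vk k

theorem mem_trp {k : Fin 10} {p : Fin 3 × Fin 3 × Fin 3} (hp : p ∈ trp k) :
    p.1 ≠ p.2.1 ∧ p.2.2 ≠ p.1 ∧ p.2.2 ≠ p.2.1 ∧ p.2.2 ∈ vk k := (Finset.mem_filter.1 hp).2

theorem trp_card (k : Fin 10) : (trp k).card ≤ 6 := by
  have key : ∀ k : Fin 10, (trp k).card ≤ 6 := by decide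
  exact key k

/-- **THE UNRELEASED TUPLES OF THE REGION, ALL CASES** -/
theorem unC_le (he : 1 + r.e1 ≤ r.B) (hd : (1 + 4 * c.dH) * Real.exp (3 * c.eS) ≤ 1 + r.d) (hdH : 0 ≤ c.dH)
    (hS0 : 0 ≤ c.eS) {e : ℝ} (hee : e ≤ r.e1) (hA5 : ∀ t < T, ∀ u, A 5 t u → HV h v t u) :
    ∑ q ∈ range (5 * T), tb.Ps.Pr (unO h tb v c r.B A (Rg3 h v c r) bO zO q) ≤
      ∑ q ∈ range (5 * T), tb.Ps.Pr (stB3 h tb v c r A q) +
      ∑ i, ∑ q ∈ range (5 * T), tb.Ps.Pr (ssB3 h tb v c r A i q) +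
      ∑ q ∈ range (5 * T), tb.Ps.Pr (wkO h tb v c r A q) +
      ∑ k, ∑ q ∈ range (5 * T), tb.Ps.Pr (k6O h tb v c r A k q) +
      ∑ k ∈ rK, ∑ p ∈ trp k, (∑ q ∈ range (5 * T), tb.Ps.Pr (puO h tb v c r A bO zO k p.1 p.2.1 q) +
        ∑ q ∈ range (5 * T), tb.Ps.Pr (plO h tb v c r A bO k p.2.2 p.1 p.2.1 q) +
        ∑ q ∈ range (5 * T), tb.Ps.Pr (phO h tb v c r A bO k p.2.2 p.1 p.2.1 q) +
        ∑ q ∈ range (5 * T), tb.Ps.Pr (pdO h tb v c r A bO k p.2.2 p.1 p.2.1 q)) +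
      ∑ t ∈ range T, (D.P h t).Pr (hv5 h v r A e t) := by
  classical
  have one : ∀ q ∈ range (5 * T), tb.Ps.Pr (unO h tb v c r.B A (Rg3 h v c r) bO zO q) ≤
      tb.Ps.Pr (stB3 h tb v c r A q) + ∑ i, tb.Ps.Pr (ssB3 h tb v c r A i q) + tb.Ps.Pr (wkO h tb v c r A q) +
      ∑ k, tb.Ps.Pr (k6O h tb v c r A k q) +
      ∑ k ∈ rK, ∑ p ∈ trp k, (tb.Ps.Pr (puO h tb v c r A bO zO k p.1 p.2.1 q) +
        tb.Ps.Pr (plO h tb v c r A bO k p.2.2 p.1 p.2.1 q) + tb.Ps.Pr (phO h tb v c r A bO k p.2.2 p.1 p.2.1 q) +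
        tb.Ps.Pr (pdO h tb v c r A bO k p.2.2 p.1 p.2.1 q)) +
      tb.Ps.Pr (fun w => ∃ x, hvO h tb v r A x q w) := by
    intro q hq
    have hqT : q / 5 ≤ T := by
      have := Finset.mem_range.1 hq
      omega
    set E4 : Fin 10 → Fin 3 × Fin 3 × Fin 3 → Om W X β → Prop := fun k p w =>
      puO h tb v c r A bO zO k p.1 p.2.1 q w ∨ plO h tb v c r A bO k p.2.2 p.1 p.2.1 q w ∨
        phO h tb v c r A bO k p.2.2 p.1 p.2.1 q w ∨ pdO h tb v c r A bO k p.2.2 p.1 p.2.1 q w with hE4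
    have h0 : tb.Ps.Pr (unO h tb v c r.B A (Rg3 h v c r) bO zO q) ≤ tb.Ps.Pr (fun w => stB3 h tb v c r A q w ∨
        ((∃ i ∈ (univ : Finset (Fin 3)), ssB3 h tb v c r A i q w) ∨ (wkO h tb v c r A q w ∨
          ((∃ k ∈ (univ : Finset (Fin 10)), k6O h tb v c r A k q w) ∨
            ((∃ k ∈ rK, ∃ p ∈ trp k, E4 k p w) ∨ ∃ x, hvO h tb v r A x q w))))) := by
      refine tb.Ps.Pr_mono fun w hw hh => ?_
      rcases unC_cases he hd hdH hS0 hqT hw hh with h1 | ⟨i, h1⟩ | h1 | ⟨k, h1⟩ | ⟨k, hk, x, y, hxy, m, hm, hmx, hmy, h1⟩ | h1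
      · exact Or.inl h1
      · exact Or.inr (Or.inl ⟨i, mem_univ i, h1⟩)
      · exact Or.inr (Or.inr (Or.inl h1))
      · exact Or.inr (Or.inr (Or.inr (Or.inl ⟨k, mem_univ k, h1⟩)))
      · exact Or.inr (Or.inr (Or.inr (Or.inr (Or.inl ⟨k, hk, (x, y, m), Finset.mem_filter.2
          ⟨mem_univ _, hxy, hmx, hmy, hm⟩, h1⟩))))
      · exact Or.inr (Or.inr (Or.inr (Or.inr (Or.inr h1))))
    have h1 := tb.Ps.Pr_or_le (stB3 h tb v c r A q) (fun w => (∃ i ∈ (univ : Finset (Fin 3)), ssB3 h tb v c r A i q w) ∨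
      (wkO h tb v c r A q w ∨ ((∃ k ∈ (univ : Finset (Fin 10)), k6O h tb v c r A k q w) ∨
        ((∃ k ∈ rK, ∃ p ∈ trp k, E4 k p w) ∨ ∃ x, hvO h tb v r A x q w))))
    have h2 := tb.Ps.Pr_or_le (fun w => ∃ i ∈ (univ : Finset (Fin 3)), ssB3 h tb v c r A i q w)
      (fun w => wkO h tb v c r A q w ∨ ((∃ k ∈ (univ : Finset (Fin 10)), k6O h tb v c r A k q w) ∨
        ((∃ k ∈ rK, ∃ p ∈ trp k, E4 k p w) ∨ ∃ x, hvO h tb v r A x q w)))
    have h3 := tb.Ps.Pr_or_le (wkO h tb v c r A q) (fun w => (∃ k ∈ (univ : Finset (Fin 10)), k6O h tb v c r A k q w) ∨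
        ((∃ k ∈ rK, ∃ p ∈ trp k, E4 k p w) ∨ ∃ x, hvO h tb v r A x q w))
    have h4 := tb.Ps.Pr_or_le (fun w => ∃ k ∈ (univ : Finset (Fin 10)), k6O h tb v c r A k q w)
      (fun w => (∃ k ∈ rK, ∃ p ∈ trp k, E4 k p w) ∨ ∃ x, hvO h tb v r A x q w)
    have h5 := tb.Ps.Pr_or_le (fun w => ∃ k ∈ rK, ∃ p ∈ trp k, E4 k p w) (fun w => ∃ x, hvO h tb v r A x q w)
    have g2 := tb.Ps.Pr_ex_le (univ : Finset (Fin 3)) (fun i w => ssB3 h tb v c r A i q w)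
    have g4 := tb.Ps.Pr_ex_le (univ : Finset (Fin 10)) (fun k w => k6O h tb v c r A k q w)
    have g5 := tb.Ps.Pr_ex_le rK (fun k w => ∃ p ∈ trp k, E4 k p w)
    have g6 : ∑ k ∈ rK, tb.Ps.Pr (fun w => ∃ p ∈ trp k, E4 k p w) ≤
        ∑ k ∈ rK, ∑ p ∈ trp k, (tb.Ps.Pr (puO h tb v c r A bO zO k p.1 p.2.1 q) +
        tb.Ps.Pr (plO h tb v c r A bO k p.2.2 p.1 p.2.1 q) + tb.Ps.Pr (phO h tb v c r A bO k p.2.2 p.1 p.2.1 q) +
        tb.Ps.Pr (pdO h tb v c r A bO k p.2.2 p.1 p.2.1 q)) := by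
      refine Finset.sum_le_sum fun k _ => (tb.Ps.Pr_ex_le (trp k) (E4 k)).trans (Finset.sum_le_sum fun p _ => ?_)
      have a1 := tb.Ps.Pr_or_le (puO h tb v c r A bO zO k p.1 p.2.1 q) (fun w => plO h tb v c r A bO k p.2.2 p.1 p.2.1 q w ∨
        (phO h tb v c r A bO k p.2.2 p.1 p.2.1 q w ∨ pdO h tb v c r A bO k p.2.2 p.1 p.2.1 q w))
      have a2 := tb.Ps.Pr_or_le (plO h tb v c r A bO k p.2.2 p.1 p.2.1 q) (fun w =>
        phO h tb v c r A bO k p.2.2 p.1 p.2.1 q w ∨ pdO h tb v c r A bO k p.2.2 p.1 p.2.1 q w)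
      have a3 := tb.Ps.Pr_or_le (phO h tb v c r A bO k p.2.2 p.1 p.2.1 q) (pdO h tb v c r A bO k p.2.2 p.1 p.2.1 q)
      have a4 : tb.Ps.Pr (E4 k p) = tb.Ps.Pr (fun w => puO h tb v c r A bO zO k p.1 p.2.1 q w ∨
        (plO h tb v c r A bO k p.2.2 p.1 p.2.1 q w ∨
        (phO h tb v c r A bO k p.2.2 p.1 p.2.1 q w ∨ pdO h tb v c r A bO k p.2.2 p.1 p.2.1 q w))) := rfl
      rw [a4]
      linarith
    linarith
  refine (Finset.sum_le_sum one).trans ?_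
  simp only [Finset.sum_add_distrib]
  have c1 : ∑ q ∈ range (5 * T), ∑ i, tb.Ps.Pr (ssB3 h tb v c r A i q) =
      ∑ i, ∑ q ∈ range (5 * T), tb.Ps.Pr (ssB3 h tb v c r A i q) := Finset.sum_comm
  have c2 : ∑ q ∈ range (5 * T), ∑ k, tb.Ps.Pr (k6O h tb v c r A k q) =
      ∑ k, ∑ q ∈ range (5 * T), tb.Ps.Pr (k6O h tb v c r A k q) := Finset.sum_comm
  have c3 : ∀ f : ℕ → Fin 10 → Fin 3 × Fin 3 × Fin 3 → ℝ, ∑ q ∈ range (5 * T), ∑ k ∈ rK, ∑ p ∈ trp k, f q k p =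
      ∑ k ∈ rK, ∑ p ∈ trp k, ∑ q ∈ range (5 * T), f q k p := fun f => by
    rw [Finset.sum_comm]
    exact Finset.sum_congr rfl fun k _ => Finset.sum_comm
  rw [c1, c2, c3, c3, c3, c3]
  have hv := hvO_sum (h := h) (tb := tb) (v := v) (r := r) (A := A) hee hA5
  linarith

end

end Pool.Agent.GMH.TRF
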