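import Pool.Agent.GMH.UnrT
import Pool.Agent.GMH.RegD
import Pool.Agent.GMH.Fin0
import Pool.Agent.GMH.UnrTwo
import Pool.Agent.GMH.HotE
import Pool.Agent.GMH.SglO

/-!
# GMH/UnrFull (helper35): THE UNRELEASED SUMS OF THE FRAME OF THE THREE TOPS OVER `Ctx` (field `Fu.unr` of `GMH/Fin0`)

* `unrS_run` : alive sets `TP.aN` of the run (any statuses), any region, any bits which see the steps:
  `∑_t ∑_s UnrS ≤ x + 3 y` from (UN) the removals `unO`, (H0) the digit steps, (H2) the heavy public steps, (HP) the joint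
  private steps with three heavy private values;
* `sriP`, `sgiP` : a strong and a rising top; a strong top whose missing thin letter is strong; `rg3_two` : the region `Rg3` at the
  true tuple is in `sriP` or `sgiP`; `hv_le` : the heavy steps of `Rg3`; `tsrP`, `hd_le` : the heavy steps of `Rd3`;
* `ud_le`, `un_le` : the removals of `Rd3`, of `Rg3` from the closed lists of `GMH/SglO` and `GMH/UnrC`;
* `Ctx.RgF` : the region `Rg3` or `Rd3`; `unrFull` : the field `unr` of `Fu` for this region.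
-/

set_option autoImplicit false
set_option linter.unusedSectionVars false

namespace Pool.Agent.GMH.TRF

open Finset Pool.Agent.PWZ Pool.Agent.M3 Pool.Agent.GM Pool.Agent.GM.Harm Pool.Agent.GMH Pool.Agent.GMH.NZ
open Pool.Agent.GMH.V3 Pool.Agent.GMH.TP Pool.Agent.GMH.TD Pool.Agent.GMH.Dy Pool.Agent.GMH.MV Pool.Agent.GMH.MVI
open Pool.Agent.GMH.UV Pool.Agent.GMH.KF

noncomputable section

variable {X β γ φ : Type} [Fintype X] [Fintype β] [Fintype φ] [Nonempty X] [Nonempty β]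
variable {D : HD (Fin 3) X β γ φ} {al : ℝ} (h : D.Thick al) {prr : ℕ → Fin 3 → φ → φ} {T : ℕ} {W : Type} [Fintype W]
variable (tb : Tab D prr T W) {v : ℕ → Finset (Fin 3) → X → (Fin 3 → β) → Pt (Fin 3) X β φ}

/-- **THE UNRELEASED SUMS OF THE THREE TOPS**, alive sets of the run, any region -/
theorem unrS_run {dg : ℕ → X → ℝ} {Lam : ℝ} (H : D.Hyp dg prr al T Lam) {N : Finset (Fin 3) → ℝ}
    (R : Run h N (SS1 (Fin 3)) (AdmDep D) v) (hN : ∀ l : Fin 3, 0 < N (univ.erase l))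
    {c : KC} {B : ℝ} {p : AP} {Gd : ℕ → Pt (Fin 3) X β φ → Prop} {st sp : ℕ → Pt (Fin 3) X β φ → Option (Fin 3)}
    {Rg : Fin 6 → ℕ → Pt (Fin 3) X β φ → Tu X β φ → Prop}
    {bO : Fin 10 → Fin 3 → ℕ → Om W X β → Prop} {zO : Fin 10 → ℕ → Om W X β → Prop}
    (hb : ∀ k i q, Pos (bO k i q)) (hz : ∀ k q, Pos (zO k q)) {eta : ℝ} (he : 0 < eta) (he1 : eta ≤ 1) {x y : ℝ}
    (UN : (3 * Lam + Real.log (1 / eta)) * ∑ q ∈ range (5 * T), tb.Ps.Pr (unO h tb v c B (TP.aN h v p Gd st sp) Rg bO zO q) ≤ x)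
    (HV : (3 * Lam + Real.log (1 / eta)) * ∑ t ∈ range T, ((D.P h t).Pr (hsP v (TP.aN h v p Gd st sp) Rg 0 t) +
      (D.P h t).Pr (hsP v (TP.aN h v p Gd st sp) Rg 2 t) + (D.P h t).Pr (hpP h v (TP.aN h v p Gd st sp) Rg t)) ≤ y) :
    ∑ t ∈ range T, ∑ s, UnrS h v c B Rg (fun k i q => lft (bO k i q)) (fun k q => lft (zO k q)) (TP.aN h v p Gd st sp) eta s t ≤
      x + y := by
  have h1 := unrS_tr (h := h) (tb := tb) (v := v) (c := c) (B := B) (A := TP.aN h v p Gd st sp) (Rg := Rg) H R hN hb hz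
    (fun t _ u hu => hu.1.1.2) (fun t _ u hu => aN_3n v p Gd st sp t u hu) (fun t _ u hu => aN_4n v p Gd st sp t u hu)
    (fun t _ u hu => hu.1.1.2) he he1
  refine h1.trans ?_
  rw [mul_add]
  linarith

/-! ### the region `Rg3` at heavy steps -/

section heavy

variable (v)

/-- a strong and a rising top -/
def sriP (r : RC) (s : Fin 6) (t : ℕ) (w : Pt (Fin 3) X β φ) : Prop :=
  ∃ i k : Fin 3, i ≠ k ∧ r.B < rS h v s t i w (FQ v t i w) ∧ 1 + r.e1 < rS h v s t k w (FQ v t k w)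

/-- the same, the values which the strong top sees are heavy -/
def sriV (r : RC) (t : ℕ) (w : Pt (Fin 3) X β φ) : Prop :=
  ∃ i k : Fin 3, i ≠ k ∧ (∀ j, j ≠ i → ¬ lpv h v j t w) ∧ r.B < rS h v 5 t i w (FQ v t i w) ∧
    1 + r.e1 < rS h v 5 t k w (FQ v t k w)

/-- a strong top, its missing thin letter strong -/
def sgiP (B : ℝ) (s : Fin 6) (t : ℕ) (i : Fin 3) (w : Pt (Fin 3) X β φ) : Prop :=
  B < rS h v s t i w (FQ v t i w) ∧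
    B < Pool.Agent.GMH.tF (D.P h t) (ZQ D v (qs s t)) (ZbQ D v (qs s t)) (ZbQ D v (qe s t)) i w

variable {h v}

/-- **the region at the true tuple** : two active tops, or a single -/
theorem rg3_two {c : KC} {r : RC} (hB : 1 + r.e1 ≤ r.B) {s : Fin 6} {t : ℕ} {w : Pt (Fin 3) X β φ}
    (hR : Rg3 h v c r s t w (tup (FQ v t) w)) : sriP h v r s t w ∨ ∃ i, sgiP h v r.B s t i w := by
  rcases hR with ⟨i, k, hki, h1, _, h2⟩ | ⟨i, h1, h2⟩ | ⟨i, k, hik, h1, h2, _⟩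
  · exact Or.inl ⟨i, k, hki.symm, h1, h2⟩
  · exact Or.inr ⟨i, h1, h2.1⟩
  · exact Or.inl ⟨i, k, hik, h1, lt_of_le_of_lt hB h2⟩

variable {A : Fin 6 → ℕ → Pt (Fin 3) X β φ → Prop}

/-- one heavy step -/
theorem hs_le {c : KC} {r : RC} (hB : 1 + r.e1 ≤ r.B) (s : Fin 6) (t : ℕ) :
    (D.P h t).Pr (hsP v A (Rg3 h v c r) s t) ≤ (D.P h t).Pr (fun w => A s t w ∧ sriP h v r s t w) +
      ∑ i, (D.P h t).Pr (fun w => A s t w ∧ sgiP h v r.B s t i w) := by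
  classical
  have h1 := (D.P h t).Pr_or_le (fun w => A s t w ∧ sriP h v r s t w)
    (fun w => ∃ i ∈ (univ : Finset (Fin 3)), A s t w ∧ sgiP h v r.B s t i w)
  have h2 := (D.P h t).Pr_ex_le (univ : Finset (Fin 3)) (fun i w => A s t w ∧ sgiP h v r.B s t i w)
  have h3 : (D.P h t).Pr (hsP v A (Rg3 h v c r) s t) ≤ (D.P h t).Pr (fun w => (A s t w ∧ sriP h v r s t w) ∨
      ∃ i ∈ (univ : Finset (Fin 3)), A s t w ∧ sgiP h v r.B s t i w) := by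
    refine (D.P h t).Pr_mono fun w _ hh => ?_
    rcases rg3_two hB hh.2 with h4 | ⟨i, h4⟩
    · exact Or.inl ⟨hh.1, h4⟩
    · exact Or.inr ⟨i, mem_univ i, hh.1, h4⟩
  linarith

/-- the joint private step, three heavy values -/
theorem hp_le {c : KC} {r : RC} (hB : 1 + r.e1 ≤ r.B) (t : ℕ) :
    (D.P h t).Pr (hpP h v A (Rg3 h v c r) t) ≤ (D.P h t).Pr (fun w => A 5 t w ∧ sriV h v r t w) +
      ∑ i, (D.P h t).Pr (fun w => (A 5 t w ∧ ∀ j, ¬ lpv h v j t w) ∧ sgiP h v r.B 5 t i w) := by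
  classical
  have h1 := (D.P h t).Pr_or_le (fun w => A 5 t w ∧ sriV h v r t w)
    (fun w => ∃ i ∈ (univ : Finset (Fin 3)), (A 5 t w ∧ ∀ j, ¬ lpv h v j t w) ∧ sgiP h v r.B 5 t i w)
  have h2 := (D.P h t).Pr_ex_le (univ : Finset (Fin 3))
    (fun i w => (A 5 t w ∧ ∀ j, ¬ lpv h v j t w) ∧ sgiP h v r.B 5 t i w)
  have h3 : (D.P h t).Pr (hpP h v A (Rg3 h v c r) t) ≤ (D.P h t).Pr (fun w => (A 5 t w ∧ sriV h v r t w) ∨
      ∃ i ∈ (univ : Finset (Fin 3)), (A 5 t w ∧ ∀ j, ¬ lpv h v j t w) ∧ sgiP h v r.B 5 t i w) := by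
    refine (D.P h t).Pr_mono fun w _ hh => ?_
    rcases rg3_two hB hh.1.2 with ⟨i, k, hik, h4, h5⟩ | ⟨i, h4⟩
    · exact Or.inl ⟨hh.1.1, i, k, hik, fun j _ => hh.2 j, h4, h5⟩
    · exact Or.inr ⟨i, mem_univ i, ⟨hh.1.1, hh.2⟩, h4⟩
  linarith

/-- **THE HEAVY STEPS OF THE REGION `Rg3`** -/
theorem hv_le {c : KC} {r : RC} (hB : 1 + r.e1 ≤ r.B) {Lam : ℝ} (hL : 2 ≤ Lam) {L : ℝ} (hL0 : 0 ≤ L)
    (S0 : L * ∑ t ∈ range T, (D.P h t).Pr (fun w => A 0 t w ∧ sriP h v r 0 t w) ≤ CT.ix Lam 30)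
    (S2 : L * ∑ t ∈ range T, (D.P h t).Pr (fun w => A 2 t w ∧ sriP h v r 2 t w) ≤ CT.ix Lam 30)
    (S5 : L * ∑ t ∈ range T, (D.P h t).Pr (fun w => A 5 t w ∧ sriV h v r t w) ≤ CT.ix Lam 30)
    (G0 : ∀ i, L * ∑ t ∈ range T, (D.P h t).Pr (fun w => A 0 t w ∧ sgiP h v r.B 0 t i w) ≤ CT.ix Lam 30)
    (G2 : ∀ i, L * ∑ t ∈ range T, (D.P h t).Pr (fun w => A 2 t w ∧ sgiP h v r.B 2 t i w) ≤ CT.ix Lam 30)
    (G5 : ∀ i, L * ∑ t ∈ range T, (D.P h t).Pr (fun w => (A 5 t w ∧ ∀ j, ¬ lpv h v j t w) ∧ sgiP h v r.B 5 t i w) ≤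
      CT.ix Lam 30) :
    L * ∑ t ∈ range T, ((D.P h t).Pr (hsP v A (Rg3 h v c r) 0 t) + (D.P h t).Pr (hsP v A (Rg3 h v c r) 2 t) +
      (D.P h t).Pr (hpP h v A (Rg3 h v c r) t)) ≤ CT.ix Lam 24 := by
  have h1 : ∑ t ∈ range T, ((D.P h t).Pr (hsP v A (Rg3 h v c r) 0 t) + (D.P h t).Pr (hsP v A (Rg3 h v c r) 2 t) +
      (D.P h t).Pr (hpP h v A (Rg3 h v c r) t)) ≤
      ∑ t ∈ range T, (((D.P h t).Pr (fun w => A 0 t w ∧ sriP h v r 0 t w) +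
        ∑ i, (D.P h t).Pr (fun w => A 0 t w ∧ sgiP h v r.B 0 t i w)) +
      ((D.P h t).Pr (fun w => A 2 t w ∧ sriP h v r 2 t w) + ∑ i, (D.P h t).Pr (fun w => A 2 t w ∧ sgiP h v r.B 2 t i w)) +
      ((D.P h t).Pr (fun w => A 5 t w ∧ sriV h v r t w) +
        ∑ i, (D.P h t).Pr (fun w => (A 5 t w ∧ ∀ j, ¬ lpv h v j t w) ∧ sgiP h v r.B 5 t i w))) :=
    Finset.sum_le_sum fun t _ => add_le_add (add_le_add (hs_le hB 0 t) (hs_le hB 2 t)) (hp_le hB t)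
  simp only [Finset.sum_add_distrib] at h1
  have c1 : ∀ f : ℕ → Fin 3 → ℝ, ∑ t ∈ range T, ∑ i, f t i = ∑ i, ∑ t ∈ range T, f t i := fun f => Finset.sum_comm
  rw [c1, c1, c1] at h1
  have h2 := mul_le_mul_of_nonneg_left h1 hL0
  have g : ∀ f : Fin 3 → ℝ, (∀ i, L * f i ≤ CT.ix Lam 30) → L * ∑ i, f i ≤ 3 * CT.ix Lam 30 := fun f hf => by
    rw [Fin.sum_univ_three]
    linarith [hf 0, hf 1, hf 2]
  have g0 := g _ G0
  have g2 := g _ G2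
  have g5 := g _ G5
  have h3 : (16 : ℝ) * CT.ix Lam 30 ≤ CT.ix Lam 24 := CT.cst_ix (Lam := Lam) hL (j := 6) (s := 24) (by norm_num)
  have h4 := CT.ix_nn hL 30
  simp only [Finset.sum_add_distrib]
  simp only [mul_add] at h2
  simp only [mul_add]
  linarith

end heavy

/-! ### the region of the hot pairs -/

section hot

variable (v)

/-- thin strong point, a top rises -/
def tsrP (B e3 : ℝ) (s : Fin 6) (t : ℕ) (w : Pt (Fin 3) X β φ) : Prop :=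
  ssP h v B s t w ∧ ∃ j, 1 + e3 < rS h v s t j w (FQ v t j w)

variable {h v} {A : Fin 6 → ℕ → Pt (Fin 3) X β φ → Prop}

theorem rd3_tsr {B E e3 : ℝ} {s : Fin 6} {t : ℕ} {w : Pt (Fin 3) X β φ} (hR : Rd3 h v B E e3 s t w (tup (FQ v t) w)) :
    tsrP h v B e3 s t w := by
  obtain ⟨h1, i, k, _, _, h3⟩ := RegD_pair hR
  exact ⟨h1, i, h3⟩

/-- **THE HEAVY STEPS OF THE REGION `Rd3`** -/
theorem hd_le {B E e3 : ℝ} {Lam : ℝ} (hL : 2 ≤ Lam) {L : ℝ} (hL0 : 0 ≤ L)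
    (T0 : L * ∑ t ∈ range T, (D.P h t).Pr (fun w => A 0 t w ∧ tsrP h v B e3 0 t w) ≤ CT.ix Lam 30)
    (T2 : L * ∑ t ∈ range T, (D.P h t).Pr (fun w => A 2 t w ∧ tsrP h v B e3 2 t w) ≤ CT.ix Lam 30)
    (T5 : L * ∑ t ∈ range T, (D.P h t).Pr (fun w => (A 5 t w ∧ ∀ j, ¬ lpv h v j t w) ∧ tsrP h v B e3 5 t w) ≤
      CT.ix Lam 30) :
    L * ∑ t ∈ range T, ((D.P h t).Pr (hsP v A (Rd3 h v B E e3) 0 t) + (D.P h t).Pr (hsP v A (Rd3 h v B E e3) 2 t) +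
      (D.P h t).Pr (hpP h v A (Rd3 h v B E e3) t)) ≤ CT.ix Lam 24 := by
  have h1 : ∑ t ∈ range T, ((D.P h t).Pr (hsP v A (Rd3 h v B E e3) 0 t) + (D.P h t).Pr (hsP v A (Rd3 h v B E e3) 2 t) +
      (D.P h t).Pr (hpP h v A (Rd3 h v B E e3) t)) ≤
      ∑ t ∈ range T, ((D.P h t).Pr (fun w => A 0 t w ∧ tsrP h v B e3 0 t w) +
        (D.P h t).Pr (fun w => A 2 t w ∧ tsrP h v B e3 2 t w) +
        (D.P h t).Pr (fun w => (A 5 t w ∧ ∀ j, ¬ lpv h v j t w) ∧ tsrP h v B e3 5 t w)) :=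
    Finset.sum_le_sum fun t _ => add_le_add (add_le_add ((D.P h t).Pr_mono fun w _ hh => ⟨hh.1, rd3_tsr hh.2⟩)
      ((D.P h t).Pr_mono fun w _ hh => ⟨hh.1, rd3_tsr hh.2⟩))
      ((D.P h t).Pr_mono fun w _ hh => ⟨⟨hh.1.1, hh.2⟩, rd3_tsr hh.1.2⟩)
  have h2 := mul_le_mul_of_nonneg_left h1 hL0
  refine h2.trans ?_
  rw [Finset.sum_add_distrib, Finset.sum_add_distrib, mul_add, mul_add]
  have h3 : (16 : ℝ) * CT.ix Lam 30 ≤ CT.ix Lam 24 := CT.cst_ix (Lam := Lam) hL (j := 6) (s := 24) (by norm_num)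
  have h4 := CT.ix_nn hL 30
  linarith

variable {bO : Fin 10 → Fin 3 → ℕ → Om W X β → Prop} {zO : Fin 10 → ℕ → Om W X β → Prop}

/-- **THE REMOVALS OF THE REGION `Rd3`** -/
theorem ud_le {c : KC} {B0 B E s e3 : ℝ} (hE : 0 < E) (hs : Real.exp c.eS ≤ s) {Al : ℕ → Om W X β → Prop}
    (hAl : ∀ q < 5 * T, ∀ w, tb.Ps.p w ≠ 0 → aO tb A q w → Al q w) {Lam : ℝ} (hL : 2 ≤ Lam) {L : ℝ} (hL0 : 0 ≤ L)
    (HD : ∀ i, L * ∑ q ∈ range (5 * T), tb.Ps.Pr (hdO3 h tb v i A B (Real.log E) s e3 q) ≤ CT.ix Lam 30)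
    (SD : ∀ l x, L * ∑ q ∈ range (5 * T), tb.Ps.Pr (S2O h tb v c Al B e3 l x q) ≤ CT.ix Lam 30) :
    L * ∑ q ∈ range (5 * T), tb.Ps.Pr (unO h tb v c B0 A (Rd3 h v B E e3) bO zO q) ≤ CT.ix Lam 24 := by
  have h1 : ∑ q ∈ range (5 * T), tb.Ps.Pr (unO h tb v c B0 A (Rd3 h v B E e3) bO zO q) ≤
      ∑ q ∈ range (5 * T), (∑ i, tb.Ps.Pr (hdO3 h tb v i A B (Real.log E) s e3 q) +
      ∑ l, ∑ x, tb.Ps.Pr (S2O h tb v c Al B e3 l x q)) := Finset.sum_le_sum fun q hq => by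
    have hq' := Finset.mem_range.1 hq
    exact unD3_le (h := h) (tb := tb) (v := v) (A := A) hE hs (by omega) (hAl q hq')
  rw [Finset.sum_add_distrib, Finset.sum_comm] at h1
  have e1 : ∑ q ∈ range (5 * T), ∑ l : Fin 3, ∑ x : Fin 3, tb.Ps.Pr (S2O h tb v c Al B e3 l x q) =
      ∑ l : Fin 3, ∑ x : Fin 3, ∑ q ∈ range (5 * T), tb.Ps.Pr (S2O h tb v c Al B e3 l x q) := by
    rw [Finset.sum_comm]
    exact Finset.sum_congr rfl fun l _ => Finset.sum_comm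
  rw [e1] at h1
  have h2 := mul_le_mul_of_nonneg_left h1 hL0
  rw [mul_add] at h2
  have h3 : L * ∑ i : Fin 3, ∑ q ∈ range (5 * T), tb.Ps.Pr (hdO3 h tb v i A B (Real.log E) s e3 q) ≤ 3 * CT.ix Lam 30 := by
    rw [Fin.sum_univ_three, mul_add, mul_add]
    linarith [HD 0, HD 1, HD 2]
  have h4 : L * ∑ l : Fin 3, ∑ x : Fin 3, ∑ q ∈ range (5 * T), tb.Ps.Pr (S2O h tb v c Al B e3 l x q) ≤
      9 * CT.ix Lam 30 := by
    have h5 : ∀ l : Fin 3, L * ∑ x : Fin 3, ∑ q ∈ range (5 * T), tb.Ps.Pr (S2O h tb v c Al B e3 l x q) ≤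
        3 * CT.ix Lam 30 := fun l => by
      rw [Fin.sum_univ_three, mul_add, mul_add]
      linarith [SD l 0, SD l 1, SD l 2]
    rw [Fin.sum_univ_three (fun l : Fin 3 => ∑ x : Fin 3, ∑ q ∈ range (5 * T), tb.Ps.Pr (S2O h tb v c Al B e3 l x q)),
      mul_add, mul_add]
    linarith [h5 0, h5 1, h5 2]
  have h6 : (16 : ℝ) * CT.ix Lam 30 ≤ CT.ix Lam 24 := CT.cst_ix (Lam := Lam) hL (j := 6) (s := 24) (by norm_num)
  have h7 := CT.ix_nn hL 30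
  linarith

end hot

/-! ### the removals of the region `Rg3` -/

section rem

variable {h tb} {A : Fin 6 → ℕ → Pt (Fin 3) X β φ → Prop}
  {bO : Fin 10 → Fin 3 → ℕ → Om W X β → Prop} {zO : Fin 10 → ℕ → Om W X β → Prop}

/-- **THE REMOVALS OF THE REGION `Rg3`** : `RR` = the sums of the released kinds (`GMH/UnrC` or `GMH/UnrB`) -/
theorem un_le {c : KC} {r : RC} {e : ℝ} (hee : e ≤ r.e1) (heB : 1 + e ≤ r.B) {Al : ℕ → Om W X β → Prop}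
    (hAl : ∀ q < 5 * T, ∀ w, tb.Ps.p w ≠ 0 → aO tb A q w → Al q w) {Lam : ℝ} (hL : 2 ≤ Lam) {L : ℝ} (hL0 : 0 ≤ L) {U RR : ℝ}
    (hU : U ≤ ∑ q ∈ range (5 * T), tb.Ps.Pr (stB3 h tb v c r A q) +
      ∑ i, ∑ q ∈ range (5 * T), tb.Ps.Pr (ssB3 h tb v c r A i q) +
      ∑ q ∈ range (5 * T), tb.Ps.Pr (wkO h tb v c r A q) +
      ∑ k, ∑ q ∈ range (5 * T), tb.Ps.Pr (k6O h tb v c r A k q) + RR +
      ∑ t ∈ range T, (D.P h t).Pr (hv5 h v r A e t)) {y : ℝ} (hR : L * RR ≤ y)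
    (S1 : ∀ l x y, x ≠ y → L * ∑ q ∈ range (5 * T), tb.Ps.Pr (S1O h tb v c Al e l x y q) ≤ CT.ix Lam 30)
    (S3 : ∀ l, L * ∑ q ∈ range (5 * T), tb.Ps.Pr (S3O h tb v Al r.B r.d l q) ≤ CT.ix Lam 30)
    (WK : L * ∑ q ∈ range (5 * T), tb.Ps.Pr (wkO h tb v c r A q) ≤ CT.ix Lam 24)
    (K6 : ∀ k : Fin 10, 6 ≤ k.1 → L * ∑ q ∈ range (5 * T), tb.Ps.Pr (k6O h tb v c r A k q) ≤ CT.ix Lam 24)
    (H5 : L * ∑ t ∈ range T, (D.P h t).Pr (hv5 h v r A e t) ≤ CT.ix Lam 24) :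
    L * U ≤ y + 7 * CT.ix Lam 24 := by
  classical
  set f1 : Fin 3 → Fin 3 → Fin 3 → ℝ := fun l x y => ∑ q ∈ range (5 * T), tb.Ps.Pr (S1O h tb v c Al e l x y q) with hf1
  have hx : ∀ l : Fin 3, L * ∑ x, ∑ y ∈ univ.erase x, f1 l x y ≤ 6 * CT.ix Lam 30 := fun l => by
    have a1 : ∀ x : Fin 3, L * ∑ y ∈ univ.erase x, f1 l x y ≤ 2 * CT.ix Lam 30 := fun x => by
      rw [Finset.mul_sum]
      refine (Finset.sum_le_card_nsmul _ _ _ fun y hy => S1 l x y (Finset.ne_of_mem_erase hy).symm).trans (le_of_eq ?_)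
      rw [Finset.card_erase_of_mem (mem_univ x), Finset.card_univ, Fintype.card_fin, nsmul_eq_mul]
      norm_num
    rw [Fin.sum_univ_three, mul_add, mul_add]
    linarith [a1 0, a1 1, a1 2]
  have c1 : ∀ l : Fin 3, ∑ q ∈ range (5 * T), ∑ x : Fin 3, ∑ y ∈ univ.erase x, tb.Ps.Pr (S1O h tb v c Al e l x y q) =
      ∑ x : Fin 3, ∑ y ∈ univ.erase x, f1 l x y := fun l => by
    rw [Finset.sum_comm]
    exact Finset.sum_congr rfl fun x _ => Finset.sum_comm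
  have k1 : ∑ q ∈ range (5 * T), tb.Ps.Pr (stB3 h tb v c r A q) ≤ ∑ l : Fin 3, ∑ x : Fin 3, ∑ y ∈ univ.erase x, f1 l x y +
      ∑ l : Fin 3, ∑ q ∈ range (5 * T), tb.Ps.Pr (S3O h tb v Al r.B r.d l q) := by
    refine (Finset.sum_le_sum fun q hq => stB3_le (h := h) (tb := tb) (v := v) (c := c) (r := r) (A := A) hee heB
      (hAl q (Finset.mem_range.1 hq))).trans ?_
    rw [Finset.sum_add_distrib, Finset.sum_comm, Finset.sum_comm (s := range (5 * T)) (t := univ)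
      (f := fun q l => tb.Ps.Pr (S3O h tb v Al r.B r.d l q))]
    exact add_le_add (le_of_eq (Finset.sum_congr rfl fun l _ => c1 l)) le_rfl
  have k2 : ∀ l : Fin 3, ∑ q ∈ range (5 * T), tb.Ps.Pr (ssB3 h tb v c r A l q) ≤
      ∑ x : Fin 3, ∑ y ∈ univ.erase x, f1 l x y := fun l => by
    refine (Finset.sum_le_sum fun q hq => ssB3_le (h := h) (tb := tb) (v := v) (c := c) (r := r) (A := A) hee heB l
      (hAl q (Finset.mem_range.1 hq))).trans (le_of_eq (c1 l))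
  have g1 : L * ∑ l : Fin 3, ∑ x : Fin 3, ∑ y ∈ univ.erase x, f1 l x y ≤ 18 * CT.ix Lam 30 := by
    rw [Fin.sum_univ_three, mul_add, mul_add]
    linarith [hx 0, hx 1, hx 2]
  have g3 : L * ∑ l : Fin 3, ∑ q ∈ range (5 * T), tb.Ps.Pr (S3O h tb v Al r.B r.d l q) ≤ 3 * CT.ix Lam 30 := by
    rw [Fin.sum_univ_three, mul_add, mul_add]
    linarith [S3 0, S3 1, S3 2]
  have g4 : L * ∑ q ∈ range (5 * T), tb.Ps.Pr (stB3 h tb v c r A q) ≤ 21 * CT.ix Lam 30 := by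
    have := mul_le_mul_of_nonneg_left k1 hL0
    rw [mul_add] at this
    linarith
  have g5 : L * ∑ l : Fin 3, ∑ q ∈ range (5 * T), tb.Ps.Pr (ssB3 h tb v c r A l q) ≤ 18 * CT.ix Lam 30 := by
    refine le_trans (mul_le_mul_of_nonneg_left (Finset.sum_le_sum fun l _ => k2 l) hL0) g1
  have g6 : L * ∑ k : Fin 10, ∑ q ∈ range (5 * T), tb.Ps.Pr (k6O h tb v c r A k q) ≤ 4 * CT.ix Lam 24 := by
    have k0 : ∀ k : Fin 10, ¬ 6 ≤ k.1 → ∑ q ∈ range (5 * T), tb.Ps.Pr (k6O h tb v c r A k q) = 0 := fun k hk =>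
      Finset.sum_eq_zero fun q _ => by
        unfold FP.Pr
        rw [tb.Ps.E_congr (g := fun _ => 0) fun w _ => ind_not fun hh => hk hh.2.2.1, tb.Ps.E_const]
    have e0 := k0 0 (by decide)
    have e1 := k0 1 (by decide)
    have e2 := k0 2 (by decide)
    have e3 := k0 3 (by decide)
    have e4 := k0 4 (by decide)
    have e5 := k0 5 (by decide)
    have s6 := K6 6 (by decide)
    have s7 := K6 7 (by decide)
    have s8 := K6 8 (by decide)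
    have s9 := K6 9 (by decide)
    have hs : ∀ f : Fin 10 → ℝ, ∑ k, f k = f 0 + f 1 + f 2 + f 3 + f 4 + f 5 + f 6 + f 7 + f 8 + f 9 := fun f => by
      simp only [Fin.sum_univ_succ, Fin.sum_univ_zero]
      simp only [Fin.reduceSucc, Fin.isValue]
      ring
    rw [hs, e0, e1, e2, e3, e4, e5]
    simp only [mul_add, mul_zero]
    linarith
  have h1 := mul_le_mul_of_nonneg_left hU hL0
  simp only [mul_add] at h1
  have h6 : (64 : ℝ) * CT.ix Lam 30 ≤ CT.ix Lam 24 := CT.cst_ix (Lam := Lam) hL (j := 6) (s := 24) (by norm_num)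
  have h7 := CT.ix_nn hL 30
  linarith

end rem

end

end Pool.Agent.GMH.TRF

namespace Pool.Agent.GMH.CX

open Finset Pool.Agent.PWZ Pool.Agent.M3 Pool.Agent.GM Pool.Agent.GM.Harm Pool.Agent.GMH Pool.Agent.GMH.NZ
open Pool.Agent.GMH.V3 Pool.Agent.GMH.TP Pool.Agent.GMH.TD Pool.Agent.GMH.Dy Pool.Agent.GMH.KF Pool.Agent.GMH.MVT
open Pool.Agent.GMH.TRF Pool.Agent.GMH.UV

noncomputable section

namespace Ctx

variable (C : Ctx) (ka : ℕ)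

/-- the region of the three tops : `Rg3` and hot pairs `Rd3` at thin strong points -/
def RgF (c : KC) (r : RC) (B E e3 : ℝ) (s : Fin 6) (t : ℕ) (w : C.Q) (f : Tu C.X C.β C.φ) : Prop :=
  Rg3 C.h C.v c r s t w f ∨ Rd3 C.h C.v B E e3 s t w f

theorem RgF_fac (c : KC) (r : RC) (B E e3 : ℝ) (s : Fin 6) (t : ℕ) (f : Tu C.X C.β C.φ) :
    Fac (VZ C.D C.v s t) (fun w => C.RgF c r B E e3 s t w f) := fun a b hab => by
  have h1 : Rg3 C.h C.v c r s t a f = Rg3 C.h C.v c r s t b f := Rg3_fac C.h C.v c r s t f a b hab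
  have h2 : Rd3 C.h C.v B E e3 s t a f = Rd3 C.h C.v B E e3 s t b f := Rd3_fac C.h C.v B E e3 s t f a b hab
  show (_ ∨ _) = (_ ∨ _)
  rw [h1, h2]

end Ctx

/-- **THE FIELD `unr` OF `Fu`** : region `Rg3` or `Rd3`, from the named sums, `L = 3 Lam + log (1 / eta)` :
`hU`, `hR` the sums of the released kinds; (S1), (S2), (S3) kind S; (WK) weak tuples; (K6) kinds 6 - 9; (H5) heavy strong top;
(A0), (A2), (A5) two active tops at heavy steps; (G0), (G2), (G5) singles at heavy steps; (HD) hot pairs; (T0), (T2), (T5) thin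
strong points at heavy steps -/
theorem unrFull (C : Ctx) (ka : ℕ) {c : KC} {r : RC} (hB : 1 + r.e1 ≤ r.B) {B E e3 s e : ℝ} (hE : 0 < E)
    (hs : Real.exp c.eS ≤ s) (hee : e ≤ r.e1) {Al : ℕ → C.O → Prop}
    (hAl : ∀ q < 5 * C.T, ∀ w, C.tb.Ps.p w ≠ 0 → aO C.tb (C.aN ka) q w → Al q w)
    {bO : Fin 10 → Fin 3 → ℕ → C.O → Prop} {zO : Fin 10 → ℕ → C.O → Prop}
    (hb : ∀ k i q, Pos (bO k i q)) (hz : ∀ k q, Pos (zO k q)) {eta : ℝ} (he : 0 < eta) (he1 : eta ≤ 1) {L : ℝ}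
    (hL : L = 3 * C.Lam + Real.log (1 / eta)) {RR : ℝ}
    (hU : ∑ q ∈ range (5 * C.T), C.tb.Ps.Pr (unO C.h C.tb C.v c r.B (C.aN ka) (Rg3 C.h C.v c r) bO zO q) ≤
      ∑ q ∈ range (5 * C.T), C.tb.Ps.Pr (stB3 C.h C.tb C.v c r (C.aN ka) q) +
      ∑ i, ∑ q ∈ range (5 * C.T), C.tb.Ps.Pr (ssB3 C.h C.tb C.v c r (C.aN ka) i q) +
      ∑ q ∈ range (5 * C.T), C.tb.Ps.Pr (wkO C.h C.tb C.v c r (C.aN ka) q) +
      ∑ k, ∑ q ∈ range (5 * C.T), C.tb.Ps.Pr (k6O C.h C.tb C.v c r (C.aN ka) k q) + RR +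
      ∑ t ∈ range C.T, (C.D.P C.h t).Pr (hv5 C.h C.v r (C.aN ka) e t))
    (hR : L * RR ≤ 4 * CT.ix C.Lam 24)
    (S1 : ∀ l x y, x ≠ y → L * ∑ q ∈ range (5 * C.T), C.tb.Ps.Pr (S1O C.h C.tb C.v c Al e l x y q) ≤ CT.ix C.Lam 30)
    (S2 : ∀ l x, L * ∑ q ∈ range (5 * C.T), C.tb.Ps.Pr (S2O C.h C.tb C.v c Al B e3 l x q) ≤ CT.ix C.Lam 30)
    (S3 : ∀ l, L * ∑ q ∈ range (5 * C.T), C.tb.Ps.Pr (S3O C.h C.tb C.v Al r.B r.d l q) ≤ CT.ix C.Lam 30)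
    (WK : L * ∑ q ∈ range (5 * C.T), C.tb.Ps.Pr (wkO C.h C.tb C.v c r (C.aN ka) q) ≤ CT.ix C.Lam 24)
    (K6 : ∀ k : Fin 10, 6 ≤ k.1 → L * ∑ q ∈ range (5 * C.T), C.tb.Ps.Pr (k6O C.h C.tb C.v c r (C.aN ka) k q) ≤
      CT.ix C.Lam 24)
    (H5 : L * ∑ t ∈ range C.T, (C.D.P C.h t).Pr (hv5 C.h C.v r (C.aN ka) e t) ≤ CT.ix C.Lam 24)
    (A0 : L * ∑ t ∈ range C.T, (C.D.P C.h t).Pr (fun w => C.aN ka 0 t w ∧ sriP C.h C.v r 0 t w) ≤ CT.ix C.Lam 30)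
    (A2 : L * ∑ t ∈ range C.T, (C.D.P C.h t).Pr (fun w => C.aN ka 2 t w ∧ sriP C.h C.v r 2 t w) ≤ CT.ix C.Lam 30)
    (A5 : L * ∑ t ∈ range C.T, (C.D.P C.h t).Pr (fun w => C.aN ka 5 t w ∧ sriV C.h C.v r t w) ≤ CT.ix C.Lam 30)
    (G0 : ∀ i, L * ∑ t ∈ range C.T, (C.D.P C.h t).Pr (fun w => C.aN ka 0 t w ∧ sgiP C.h C.v r.B 0 t i w) ≤
      CT.ix C.Lam 30)
    (G2 : ∀ i, L * ∑ t ∈ range C.T, (C.D.P C.h t).Pr (fun w => C.aN ka 2 t w ∧ sgiP C.h C.v r.B 2 t i w) ≤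
      CT.ix C.Lam 30)
    (G5 : ∀ i, L * ∑ t ∈ range C.T, (C.D.P C.h t).Pr (fun w => (C.aN ka 5 t w ∧ ∀ j, ¬ lpv C.h C.v j t w) ∧
      sgiP C.h C.v r.B 5 t i w) ≤ CT.ix C.Lam 30)
    (HD : ∀ i, L * ∑ q ∈ range (5 * C.T), C.tb.Ps.Pr (hdO3 C.h C.tb C.v i (C.aN ka) B (Real.log E) s e3 q) ≤
      CT.ix C.Lam 30)
    (T0 : L * ∑ t ∈ range C.T, (C.D.P C.h t).Pr (fun w => C.aN ka 0 t w ∧ tsrP C.h C.v B e3 0 t w) ≤ CT.ix C.Lam 30)
    (T2 : L * ∑ t ∈ range C.T, (C.D.P C.h t).Pr (fun w => C.aN ka 2 t w ∧ tsrP C.h C.v B e3 2 t w) ≤ CT.ix C.Lam 30)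
    (T5 : L * ∑ t ∈ range C.T, (C.D.P C.h t).Pr (fun w => (C.aN ka 5 t w ∧ ∀ j, ¬ lpv C.h C.v j t w) ∧
      tsrP C.h C.v B e3 5 t w) ≤ CT.ix C.Lam 30) :
    ∑ t ∈ range C.T, ∑ s, UnrS C.h C.v c r.B (C.RgF c r B E e3) (fun k i q => lft (bO k i q)) (fun k q => lft (zO k q))
      (C.aN ka) eta s t ≤ (pw C.Lam 17)⁻¹ := by
  have hlog : 0 ≤ Real.log (1 / eta) := Real.log_nonneg (by rw [le_div_iff₀ he]; linarith)
  have hL0 : 0 ≤ L := by rw [hL]; linarith [C.hL]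
  have heB : 1 + e ≤ r.B := by linarith
  have hv := hv_le (h := C.h) (v := C.v) (c := c) (A := C.aN ka) hB C.hL hL0 A0 A2 A5 G0 G2 G5
  have hd := hd_le (h := C.h) (v := C.v) (A := C.aN ka) (E := E) C.hL hL0 T0 T2 T5
  have hu := un_le (h := C.h) (tb := C.tb) (v := C.v) (A := C.aN ka) hee heB hAl C.hL hL0 hU hR S1 S3 WK K6 H5
  have hud := ud_le (h := C.h) (tb := C.tb) (v := C.v) (A := C.aN ka) (B0 := r.B) (bO := bO) (zO := zO) hE hs hAl C.hL hL0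
    HD S2
  subst hL
  have h1 := unrS_run C.h C.tb C.H C.R C.hNe hb hz he he1 hu hv
  have h2 := unrS_run C.h C.tb C.H C.R C.hNe hb hz he he1 hud hd
  refine le_trans (Finset.sum_le_sum fun t _ => Finset.sum_le_sum fun s _ => UnrS_or _ he he1 s t) ?_
  simp only [Finset.sum_add_distrib]
  have h3 := ix_24_17 C.hL
  have h4 := CT.ix_nn C.hL 24
  linarith

end

end Pool.Agent.GMH.CX
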