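import Pool.Agent.GMH.UnrB
import Pool.Agent.GMH.MV9
import Pool.Agent.GMH.TD15

/-!
# GMH/UnrN (helper55): THE NAMED SUMS OF `GMH/UnrB` WHICH ARE CLOSED, in numbers (run frame)

* `un_le` : undecided, not blocked: `√uB * 240 Lam / e²`;
* `mv_le`, `ls_le` : moved at `m`, listed, light value of `y` (relative rarity of `GMH/AlrM`);
* `lt_le` : light value of `y`, no birth at `m` (`GMH/LtB`), and the death of the run;
* `nw_le` : newly moved at the decided `m`: a-free ends of the decided lives, moved at the private removal of `m`, listed at a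
  public removal, moved at the public start of a public removal (`muE`), death, final time.
-/

set_option autoImplicit false
set_option linter.unusedSectionVars false

namespace Pool.Agent.GMH.TRF

open Finset Pool.Agent.PWZ Pool.Agent.M3 Pool.Agent.GM Pool.Agent.GM.Harm Pool.Agent.GMH Pool.Agent.GMH.NZ
open Pool.Agent.GMH.V3 Pool.Agent.GMH.TP Pool.Agent.GMH.TD Pool.Agent.GMH.Dy Pool.Agent.GMH.MV Pool.Agent.GMH.MVI
open Pool.Agent.GMH.UV Pool.Agent.GMH.KF Pool.Agent.GMH.CK Pool.Agent.GMH.KDT Pool.Agent.GMH.GM3 Pool.Agent.GMH.RZ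

noncomputable section

/-! ### passages with a death -/

section pass

variable {Om : Type} [Fintype Om] (P : FP Om) {C : ℕ → ℕ → Om → Prop}

/-- **PASSAGES INSIDE THE LIVES**, `b` stays or dies -/
theorem pass_die (b m dy : ℕ → Om → Prop)
    (hb : ∀ q w, P.p w ≠ 0 → stg C (q + 1) w ≠ q + 1 → b q w → b (q + 1) w ∨ dy q w)
    (hm : ∀ q w, P.p w ≠ 0 → stg C (q + 1) w ≠ q + 1 → m q w → m (q + 1) w) (T : ℕ) :
    ∑ q ∈ range T, P.Pr (fun w => stg C (q + 1) w ≠ q + 1 ∧ b q w ∧ ¬ m q w ∧ m (q + 1) w) ≤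
      ∑ q ∈ range T, P.Pr (fun w => stg C (q + 1) w = q + 1 ∧ b q w ∧ m q w) + P.Pr (fun w => b T w ∧ m T w) +
        ∑ q ∈ range T, P.Pr (dy q) := by
  classical
  have key : ∀ q, P.Pr (fun w => stg C (q + 1) w ≠ q + 1 ∧ b q w ∧ ¬ m q w ∧ m (q + 1) w) ≤
      P.Pr (fun w => b (q + 1) w ∧ m (q + 1) w) - P.Pr (fun w => b q w ∧ m q w) +
        P.Pr (fun w => stg C (q + 1) w = q + 1 ∧ b q w ∧ m q w) + P.Pr (dy q) := by
    intro q
    unfold FP.Pr
    rw [← P.E_sub, ← P.E_add, ← P.E_add]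
    refine P.E_mono fun w hw => ?_
    have n1 := ind_nonneg (b (q + 1) w ∧ m (q + 1) w)
    have n2 := ind_nonneg (stg C (q + 1) w = q + 1 ∧ b q w ∧ m q w)
    have n3 := ind_nonneg (dy q w)
    by_cases he : stg C (q + 1) w = q + 1
    · rw [ind_not (fun h => h.1 he : ¬ (stg C (q + 1) w ≠ q + 1 ∧ b q w ∧ ¬ m q w ∧ m (q + 1) w))]
      by_cases h1 : b q w ∧ m q w
      · rw [ind_of h1, ind_of (show stg C (q + 1) w = q + 1 ∧ b q w ∧ m q w from ⟨he, h1⟩)]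
        linarith
      · rw [ind_not h1]
        linarith
    · by_cases h1 : b q w ∧ m q w
      · have h3 := hm q w hw he h1.2
        rw [ind_not (fun h => h.2.2.1 h1.2 : ¬ (stg C (q + 1) w ≠ q + 1 ∧ b q w ∧ ¬ m q w ∧ m (q + 1) w)), ind_of h1]
        rcases hb q w hw he h1.1 with h2 | h2
        · rw [ind_of (show b (q + 1) w ∧ m (q + 1) w from ⟨h2, h3⟩)]
          linarith
        · rw [ind_of h2]
          linarith
      · rw [ind_not h1]
        by_cases h4 : stg C (q + 1) w ≠ q + 1 ∧ b q w ∧ ¬ m q w ∧ m (q + 1) w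
        · rw [ind_of h4]
          rcases hb q w hw he h4.2.1 with h2 | h2
          · rw [ind_of (show b (q + 1) w ∧ m (q + 1) w from ⟨h2, h4.2.2.2⟩)]
            linarith
          · rw [ind_of h2]
            linarith
        · rw [ind_not h4]
          linarith
  have h0 := Finset.sum_le_sum fun q (_ : q ∈ range T) => key q
  rw [Finset.sum_add_distrib, Finset.sum_add_distrib, Finset.sum_range_sub (fun q => P.Pr (fun w => b q w ∧ m q w))] at h0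
  have h1 : 0 ≤ P.Pr (fun w => b 0 w ∧ m 0 w) := P.E_nonneg fun _ _ => ind_nonneg _
  linarith

/-- the same, passages also at the end of the life -/
theorem new_die (b m m' F dy : ℕ → Om → Prop)
    (hb : ∀ q w, P.p w ≠ 0 → stg C (q + 1) w ≠ q + 1 → b q w → b (q + 1) w ∨ dy q w)
    (hm : ∀ q w, P.p w ≠ 0 → stg C (q + 1) w ≠ q + 1 → m q w → m (q + 1) w)
    (hm' : ∀ q w, P.p w ≠ 0 → stg C (q + 1) w ≠ q + 1 → m' q w → m (q + 1) w) (T : ℕ) :
    ∑ q ∈ range T, P.Pr (fun w => F q w ∧ b q w ∧ ¬ m q w ∧ m' q w) ≤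
      ∑ q ∈ range T, P.Pr (fun w => F q w ∧ b q w ∧ stg C (q + 1) w = q + 1) +
      (∑ q ∈ range T, P.Pr (fun w => stg C (q + 1) w = q + 1 ∧ b q w ∧ m q w) + P.Pr (fun w => b T w ∧ m T w) +
        ∑ q ∈ range T, P.Pr (dy q)) := by
  refine le_trans ?_ (add_le_add le_rfl (pass_die P b m dy hb hm T))
  rw [← Finset.sum_add_distrib]
  refine Finset.sum_le_sum fun q _ => ?_
  refine le_trans (P.Pr_mono fun w hw h => ?_) (P.Pr_or_le _ _)
  by_cases he : stg C (q + 1) w = q + 1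
  · exact Or.inl ⟨h.1, h.2.1, he⟩
  · exact Or.inr ⟨he, h.2.1, h.2.2.1, hm' q w hw he h.2.2.2⟩

end pass

variable {X β γ φ : Type} [Fintype X] [Fintype β] [Fintype φ] [Nonempty X] [Nonempty β]
variable {D : HD (Fin 3) X β γ φ} {al : ℝ} {h : D.Thick al} {prr : ℕ → Fin 3 → φ → φ} {T : ℕ} {W : Type} [Fintype W]
variable {tb : Tab D prr T W} {v : ℕ → Finset (Fin 3) → X → (Fin 3 → β) → Pt (Fin 3) X β φ}
variable {c : KC} {r : RC} {A : Fin 6 → ℕ → Pt (Fin 3) X β φ → Prop}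

/-- **UNDECIDED, NOT BLOCKED** -/
theorem un_le {dg : ℕ → X → ℝ} {Lam n N1 : ℝ} (H : D.Hyp dg prr al T Lam)
    (R : Run h (pr3 (Fin 3) n N1) (SS1 (Fin 3)) (AdmDep D) v) (hn : 1 ≤ n) (hN1 : 1 ≤ N1) {e : ℝ} (he : 0 < e) (he1 : e ≤ 1)
    (her : e ≤ r.e1) (heB : 1 + e ≤ r.B) {ι : Type} {U : ι → Fin 10 → US (Om W X β)} {K : ι → Fin 10 → Kd (Om W X β)} {a : ι}
    {k : Fin 10} (hP : (U a k).P = tb.Ps) (hS : Seen (U a k))
    (hB : BfS (U a k) (fun j q => Yt X D W TP.nn j q) (acO h tb v e)) {x y m : Fin 3} (hxy : x ≠ y) (hmx : m ≠ x)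
    (hmy : m ≠ y) :
    ∑ q ∈ range (5 * T), tb.Ps.Pr (unE h tb v c r A U K a k x y m q) ≤ Real.sqrt (K a k).uB * (240 * Lam / e ^ 2) := by
  have hx := acO_sum h tb H R hn hN1 x he he1
  have hy := acO_sum h tb H R hn hN1 y he he1
  have sq : ∀ (p : Prop), ind p ^ 2 = ind p := fun p => by
    by_cases hp : p
    · rw [ind_of hp]; norm_num
    · rw [ind_not hp]; norm_num
  have fc : ∀ j q, Fac (Yt X D W TP.nn j q) (fun w => ind (acO h tb v e j q w)) := fun j q z z' ez => by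
    show ind (acO h tb v e j q z) = ind (acO h tb v e j q z')
    rw [propext (hB.acY j q z z' ez)]
  have h1 := und_sum (M := U a k) (Q := K a k) (Y := fun j q => Yt X D W TP.nn j q) hS hB (v := m) (i := x) (j := y) hmx hmy hxy
    (K := fun q w => unE h tb v c r A U K a k x y m q w) (fun q w _ hh => hh.2.2)
    (a := fun q w => ind (acO h tb v e x q w)) (b := fun q w => ind (acO h tb v e y q w)) (fc x) (fc y)
    (fun _ _ => ind_nonneg _) (fun _ _ => ind_nonneg _) (5 * T)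
  rw [hP] at h1
  simp only [sq] at h1
  refine le_trans (Finset.sum_le_sum fun q _ => ?_) (h1.trans (mul_le_mul_of_nonneg_left ?_ (Real.sqrt_nonneg _)))
  · refine tb.Ps.E_mono fun w _ => ?_
    by_cases hh : unE h tb v c r A U K a k x y m q w
    · have h2 := srO_ac her heB hh.2.1 hh.1.2.2
      rw [ind_of hh, ind_of h2.1, ind_of h2.2]
      norm_num
    · rw [ind_not hh, zero_mul]
  · have e1 : ∀ j, ∑ q ∈ range (5 * T), tb.Ps.E (fun w => ind (acO h tb v e j q w)) =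
        ∑ q ∈ range (5 * T), tb.Ps.Pr (acO h tb v e j q) := fun _ => rfl
    rw [e1, e1]
    linarith

section clk

variable {M : MS (Om W X β)}

/-- **MOVED AT `m`, LIGHT VALUE OF `y`** -/
theorem mv_le {dg : ℕ → X → ℝ} {Lam n N1 : ℝ} (H : D.Hyp dg prr al T Lam)
    (R : Run h (pr3 (Fin 3) n N1) (SS1 (Fin 3)) (AdmDep D) v) (hn : 1 ≤ n) (hN1 : 1 ≤ N1) {e : ℝ} (he : 0 < e) (he1 : e ≤ 1)
    (her : e ≤ r.e1) (heB : 1 + e ≤ r.B) (hM : Rp tb v M) (hT : Thk M Lam) {y0 : ℝ} (hy0 : 0 < y0) (hy1 : y0 ≤ 1)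
    (hNy : 8 ≤ N1 * y0) (k : Fin 10) (x y m : Fin 3) :
    ∑ q ∈ range (5 * T), tb.Ps.Pr (mvE h tb v c r A M k x y m q) ≤ y0 * (240 * Lam / e ^ 2) +
      (16 * (Real.exp (4 * Lam) * M.kb) / y0 ^ 2 + Real.exp (2 - N1 * y0 / 8)) * (6 * n * Lam) := by
  have hP : M.P = tb.Ps := hM.P
  have ha := acO_sum h tb H R hn hN1 y he he1
  have h1 := AlrM.alr_gen tb hn hN1 R H y hy0 hy1 hNy (Zs := CN M m) (fun q a b e => (hM.N q a b).1 (Prod.mk.inj e).2)
    (Bq := fun q w => MV.Mv M m q w) (m0 := Real.exp (4 * Lam) * M.kb) (mul_nonneg (Real.exp_pos _).le M.hkb.le)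
    (fun q _ w hw => by
      have := MV.Mv_mass M hT m q (w := w) (by rw [hP]; exact hw)
      rw [hP] at this
      exact this)
    (g := fun q w => ind (acO h tb v e y q w)) (G := 1) (fun q a b e' => by
      show ind (acO h tb v e y q a) = ind (acO h tb v e y q b)
      rw [propext (acO_Y h tb R.codes e y q a b e')]) (fun _ _ => ind_nonneg _) (fun _ _ => ind_le_one _)
  rw [one_mul] at h1
  refine le_trans (Finset.sum_le_sum fun q _ => ?_) (h1.trans (add_le_add (mul_le_mul_of_nonneg_left ha hy0.le) le_rfl))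
  refine tb.Ps.E_mono fun w _ => ?_
  rw [← ind_and]
  exact ind_mono fun hh => ⟨⟨hh.2.1, hh.2.2⟩, (srO_ac her heB (by rw [hh.2.1.1]; norm_num) hh.1.2.2).2⟩

/-- **LISTED, LIGHT VALUE OF `y`** -/
theorem ls_le {dg : ℕ → X → ℝ} {Lam n N1 : ℝ} (H : D.Hyp dg prr al T Lam)
    (R : Run h (pr3 (Fin 3) n N1) (SS1 (Fin 3)) (AdmDep D) v) (hn : 1 ≤ n) (hN1 : 1 ≤ N1) {e : ℝ} (he : 0 < e) (he1 : e ≤ 1)
    (her : e ≤ r.e1) (heB : 1 + e ≤ r.B) (hM : Rp tb v M) {y0 : ℝ} (hy0 : 0 < y0) (hy1 : y0 ≤ 1)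
    (hNy : 8 ≤ N1 * y0) (k : Fin 10) (x y : Fin 3) :
    ∑ q ∈ range (5 * T), tb.Ps.Pr (lsE h tb v c r A M k x y q) ≤ y0 * (240 * Lam / e ^ 2) +
      (16 * M.k0 / y0 ^ 2 + Real.exp (2 - N1 * y0 / 8)) * (6 * n * Lam) := by
  have hP : M.P = tb.Ps := hM.P
  have ha := acO_sum h tb H R hn hN1 y he he1
  have h1 := AlrM.alr_gen tb hn hN1 R H y hy0 hy1 hNy (Zs := M.NP) (fun q a b e => (hM.N q a b).1 e)
    (Bq := fun q w => Lst M (MV.nu M q w) q w) (m0 := M.k0) M.hk0.le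
    (fun q _ w hw => by
      have := (MV.Lst_mass' (M := M) q (w := w) (by rw [hP]; exact hw)).le
      rw [hP] at this
      exact this)
    (g := fun q w => ind (acO h tb v e y q w)) (G := 1) (fun q a b e' => by
      show ind (acO h tb v e y q a) = ind (acO h tb v e y q b)
      rw [propext (acO_Y h tb R.codes e y q a b e')]) (fun _ _ => ind_nonneg _) (fun _ _ => ind_le_one _)
  rw [one_mul] at h1
  refine le_trans (Finset.sum_le_sum fun q _ => ?_) (h1.trans (add_le_add (mul_le_mul_of_nonneg_left ha hy0.le) le_rfl))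
  refine tb.Ps.E_mono fun w _ => ?_
  rw [← ind_and]
  exact ind_mono fun hh => ⟨⟨hh.2.1, hh.2.2⟩, (srO_ac her heB (by rw [hh.2.1.1]; norm_num) hh.1.2.2).2⟩

/-- the death of the run -/
theorem dy_sum (p : AP) (N : ℕ) :
    ∑ q ∈ range N, tb.Ps.Pr (fun w => Alv h v tb p q w ∧ ¬ Alv h v tb p (q + 1) w) ≤
      tb.Ps.Pr (fun w => ¬ Alv h v tb p N w) := by
  induction N with
  | zero => rw [Finset.sum_range_zero]; exact tb.Ps.Pr_nonneg _
  | succ N ih =>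
    rw [Finset.sum_range_succ]
    refine (add_le_add ih le_rfl).trans ?_
    unfold FP.Pr
    rw [← FP.E_add]
    refine tb.Ps.E_mono fun w _ => ?_
    by_cases h1 : Alv h v tb p (N + 1) w
    · have h2 : Alv h v tb p N w := Alv_anti h v tb (Nat.le_succ N) h1
      rw [ind_not (fun hh : ¬ Alv h v tb p N w => hh h2), ind_not (fun hh : Alv h v tb p N w ∧ ¬ Alv h v tb p (N + 1) w => hh.2 h1),
        add_zero]
      exact ind_nonneg _
    · rw [ind_of h1]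
      by_cases h2 : Alv h v tb p N w
      · rw [ind_not (fun hh : ¬ Alv h v tb p N w => hh h2), zero_add]
        exact ind_le_one _
      · rw [ind_of h2, ind_not (fun hh : Alv h v tb p N w ∧ ¬ Alv h v tb p (N + 1) w => h2 hh.1), add_zero]

/-- number of the light own values of `i` -/
theorem lt_cnt {dg : ℕ → X → ℝ} {Lam n N1 : ℝ} (H : D.Hyp dg prr al T Lam)
    (R : Run h (pr3 (Fin 3) n N1) (SS1 (Fin 3)) (AdmDep D) v) (hn : 1 ≤ n) (hN1 : 1 ≤ N1) (i : Fin 3) :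
    ∑ q ∈ range (5 * T), tb.Ps.Pr (fun w => 2 ≤ q % 5 ∧
      2 * tb.Ps.m (fun u => (XLo tb v i (q + 1) u, NPo tb v (q + 1) u)) w <
        tb.Ps.m (fun u => (XLo tb v i q u, NPo tb v q u)) w) ≤ 6 * n * Lam := by
  refine (Finset.sum_le_sum fun q _ => tb.Ps.Pr_mono fun w _ hw => ?_).trans
    (MV8R.light_prv (h := h) (d1 := 1) (kb := 1) (d0 := 1) (k0 := 1) (p1 := 1) (z := 1) one_pos le_rfl one_pos one_pos le_rfl
      one_pos one_pos one_pos hn hN1 R H tb i)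
  exact ⟨hw.1, by show q % 5 ≠ 0; omega, hw.2⟩

/-- **LIGHT VALUE OF `y`, NO BIRTH AT `m`** -/
theorem lt_le {dg : ℕ → X → ℝ} {Lam n N1 : ℝ} (H : D.Hyp dg prr al T Lam)
    (R : Run h (pr3 (Fin 3) n N1) (SS1 (Fin 3)) (AdmDep D) v) (hn : 1 ≤ n) (hN1 : 1 ≤ N1) (hM : Rp tb v M) {p : AP}
    {Gd : ℕ → Om W X β → Prop} (hGd : ∀ q w, Gd q w → Alv h v tb p q w) (k : Fin 10) (x : Fin 3) {y m : Fin 3} (hmy : m ≠ y) :
    ∑ q ∈ range (5 * T), tb.Ps.Pr (ltE h tb v c r A M Gd k x y m q) ≤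
      24 * Real.sqrt ((p.X0 + 1) / N1) * (6 * n * Lam) + tb.Ps.Pr (fun w => ¬ Alv h v tb p (5 * T) w) := by
  have hP : M.P = tb.Ps := hM.P
  have hX : ∀ q w, tb.Ps.p w ≠ 0 → (rpO tb v y q w ∧ Alv h v tb p (q + 1) w) → 2 ≤ q % 5 ∧
      2 * tb.Ps.m (fun u => (XLo tb v y (q + 1) u, NPo tb v (q + 1) u)) w <
        tb.Ps.m (fun u => (XLo tb v y q u, NPo tb v q u)) w ∧ ∃ r, ssQ h v (q + 1) y (tb.pt r w) ≤ p.X0 := by
    intro q w _ hh
    exact ⟨by rw [hh.1.1]; norm_num, hh.1.2.1, (q + 1) / 5, (hh.2 (q + 1) le_rfl).1 y⟩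
  have h1 := LtB.lt_sum (h := h) R (TD.F15.prc_pr3 hn hN1) hM (i := y) (j := m) hmy.symm (X0 := p.X0)
    (fun q w => rpO tb v y q w ∧ Alv h v tb p (q + 1) w) hX (5 * T)
  rw [hP] at h1
  have h2 := lt_cnt (tb := tb) H R hn hN1 y
  have h3 := dy_sum (h := h) (tb := tb) (v := v) p (5 * T)
  have h4 : ∑ q ∈ range (5 * T), tb.Ps.Pr (ltE h tb v c r A M Gd k x y m q) ≤
      ∑ q ∈ range (5 * T), tb.Ps.Pr (fun w => (rpO tb v y q w ∧ Alv h v tb p (q + 1) w) ∧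
        ¬ NewM.Bx M (1 / 2) m (MV.tau M m q w) (q + 1) w) +
      ∑ q ∈ range (5 * T), tb.Ps.Pr (fun w => Alv h v tb p q w ∧ ¬ Alv h v tb p (q + 1) w) := by
    rw [← Finset.sum_add_distrib]
    refine Finset.sum_le_sum fun q _ => le_trans (tb.Ps.Pr_mono fun w _ hh => ?_) (tb.Ps.Pr_or_le _ _)
    by_cases ha : Alv h v tb p (q + 1) w
    · exact Or.inl ⟨⟨hh.2.1, ha⟩, hh.2.2.2⟩
    · exact Or.inr ⟨hGd q w hh.2.2.1, ha⟩
  have h5 := mul_le_mul_of_nonneg_left h2 (mul_nonneg (by norm_num : (0 : ℝ) ≤ 24) (Real.sqrt_nonneg ((p.X0 + 1) / N1)))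
  linarith

/-! ### newly moved at the decided vertex -/

variable (h tb v) in
/-- a-free end of a decided life in the relation, alive -/
def afE (p : AP) (U : US (Om W X β)) (Q : Kd (Om W X β)) (m : Fin 3) (q : ℕ) (w : Om W X β) : Prop :=
  (UV.tv U m (q + 1) w = q + 1 ∧ bet U Q m q w ∧ ¬ rpO tb v m q w ∧ ¬ ruO tb v q w) ∧
    Q.kd (some m) (UV.tv U m q w) w ∧ Alv h v tb p q w

variable (h tb v) in
/-- public removal, nothing listed over the thin triple, moved at `m` at the public start, `m` decided, alive -/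
def muE (M : MS (Om W X β)) (p : AP) (U : US (Om W X β)) (Q : Kd (Om W X β)) (m : Fin 3) (q : ℕ) (w : Om W X β) : Prop :=
  ruO tb v q w ∧ (¬ Lsq M q w ∧ MV.Mv M m (MV.nu M q w) w) ∧ (bet U Q m q w ∧ Q.kd (some m) (UV.tv U m q w) w) ∧
    Alv h v tb p q w

/-- **NEWLY MOVED AT THE DECIDED VERTEX `m`** -/
theorem nw_le {Lam : ℝ} (hP : M.P = tb.Ps) (hT : Thk M Lam) (hx : M.d1 + M.d0 ≤ 1 / 2) {p : AP}
    {Gd : ℕ → Om W X β → Prop} (hGd : ∀ q w, Gd q w → Alv h v tb p q w) {ι : Type} {U : ι → Fin 10 → US (Om W X β)}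
    {K : ι → Fin 10 → Kd (Om W X β)} {a : ι} {k : Fin 10} {m : Fin 3}
    (hE : ∀ q w, tauS M m (q + 1) w = q + 1 → UV.tv (U a k) m (q + 1) w = q + 1) (x y : Fin 3) :
    ∑ q ∈ range (5 * T), tb.Ps.Pr (nwE h tb v c r A M U K Gd a k x y m q) ≤
      2 * ∑ q ∈ range (5 * T), tb.Ps.Pr (afE h tb v p (U a k) (K a k) m q) +
      ∑ q ∈ range (5 * T), tb.Ps.Pr (fun w => rpO tb v m q w ∧ Alv h v tb p q w ∧ MV.Mv M m q w) +
      ∑ q ∈ range (5 * T), tb.Ps.Pr (fun w => ruO tb v q w ∧ Lsq M q w) +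
      ∑ q ∈ range (5 * T), tb.Ps.Pr (muE h tb v M p (U a k) (K a k) m q) +
      tb.Ps.Pr (fun w => ¬ Alv h v tb p (5 * T) w) + Real.exp (4 * Lam) * M.kb := by
  classical
  have hd0 := M.hd0
  have hd1 := M.hd1
  set U' := U a k with hU'
  set Q' := K a k with hQ'
  set b : ℕ → Om W X β → Prop := fun q w =>
    (bet U' Q' m q w ∧ Q'.kd (some m) (UV.tv U' m q w) w) ∧ Alv h v tb p q w with hb
  set dy : ℕ → Om W X β → Prop := fun q w => Alv h v tb p q w ∧ ¬ Alv h v tb p (q + 1) w with hdy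
  have hp' : ∀ w, tb.Ps.p w ≠ 0 → M.P.p w ≠ 0 := fun w hw => by rw [hP]; exact hw
  have hte : ∀ q w, stg (U'.Cv m) (q + 1) w ≠ q + 1 → UV.tv U' m (q + 1) w = UV.tv U' m q w := fun q w hne => by
    rcases stg_or (C := U'.Cv m) q w with h1 | h1
    · exact absurd h1 hne
    · exact h1
  have k1 := new_die tb.Ps (C := U'.Cv m) b (NewM.mB M (1 / 2) m)
    (fun q w => NewM.Bx M (1 / 2) m (MV.tau M m q w) (q + 1) w) (fun q w => rpO tb v y q w ∧ ¬ rpO tb v m q w) dy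
    (fun q w hw hne hbq => by
      have ht := hte q w hne
      by_cases ha : Alv h v tb p (q + 1) w
      · refine Or.inl ⟨⟨bet_mono (Nat.le_succ q) ht hbq.1.1, ?_⟩, ha⟩
        rw [ht]
        exact hbq.1.2
      · exact Or.inr ⟨hbq.2, ha⟩)
    (fun q w hw hne hmq => NewM.mB_step (hp' w hw) (fun he => hne (hE q w he)) hmq)
    (fun q w hw hne hmq => by
      show NewM.Bx M (1 / 2) m (MV.tau M m (q + 1) w) (q + 1) w
      rw [NewM.tau_same fun he => hne (hE q w he)]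
      exact hmq) (5 * T)
  have k2 : ∑ q ∈ range (5 * T), tb.Ps.Pr (nwE h tb v c r A M U K Gd a k x y m q) ≤
      ∑ q ∈ range (5 * T), tb.Ps.Pr (fun w => (rpO tb v y q w ∧ ¬ rpO tb v m q w) ∧ b q w ∧ ¬ NewM.mB M (1 / 2) m q w ∧
        NewM.Bx M (1 / 2) m (MV.tau M m q w) (q + 1) w) := by
    refine Finset.sum_le_sum fun q _ => tb.Ps.Pr_mono fun w _ hh => ?_
    obtain ⟨⟨_, g2, g3, g4⟩, ⟨g5, g6⟩, g7, g8⟩ := hh
    exact ⟨⟨g2, g4⟩, ⟨⟨g5, g6⟩, hGd q w g3⟩, g7, g8⟩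
  -- the first passage is an end
  have k3 : ∑ q ∈ range (5 * T), tb.Ps.Pr (fun w => (rpO tb v y q w ∧ ¬ rpO tb v m q w) ∧ b q w ∧
      stg (U'.Cv m) (q + 1) w = q + 1) ≤ ∑ q ∈ range (5 * T), tb.Ps.Pr (afE h tb v p U' Q' m q) := by
    refine Finset.sum_le_sum fun q _ => tb.Ps.Pr_mono fun w _ hh => ?_
    obtain ⟨⟨g1, g2⟩, ⟨⟨g3, g4⟩, g5⟩, g6⟩ := hh
    refine ⟨⟨g6, g3, g2, fun hu => ?_⟩, g4, g5⟩
    have e1 := g1.1
    have e2 := hu.1
    omega
  -- the ends of the moved decided lives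
  have k4 : ∑ q ∈ range (5 * T), tb.Ps.Pr (fun w => stg (U'.Cv m) (q + 1) w = q + 1 ∧ b q w ∧ NewM.mB M (1 / 2) m q w) ≤
      ∑ q ∈ range (5 * T), tb.Ps.Pr (afE h tb v p U' Q' m q) +
      ∑ q ∈ range (5 * T), tb.Ps.Pr (fun w => rpO tb v m q w ∧ Alv h v tb p q w ∧ MV.Mv M m q w) +
      ∑ q ∈ range (5 * T), tb.Ps.Pr (fun w => ruO tb v q w ∧ Lsq M q w) +
      ∑ q ∈ range (5 * T), tb.Ps.Pr (muE h tb v M p U' Q' m q) := by
    rw [← Finset.sum_add_distrib, ← Finset.sum_add_distrib, ← Finset.sum_add_distrib]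
    refine Finset.sum_le_sum fun q _ => ?_
    refine le_trans (tb.Ps.Pr_mono fun w hw hh => ?_) ((tb.Ps.Pr_or_le _ _).trans (add_le_add ((tb.Ps.Pr_or_le _ _).trans
      (add_le_add (tb.Ps.Pr_or_le _ _) le_rfl)) le_rfl))
    obtain ⟨g1, ⟨⟨g3, g4⟩, g5⟩, g6⟩ := hh
    have hMv : MV.Mv M m q w := NewM.mB_Mv (hp' w hw) (by linarith) g6
    by_cases a1 : rpO tb v m q w
    · exact Or.inl (Or.inl (Or.inr ⟨a1, g5, hMv⟩))
    by_cases a2 : ruO tb v q w
    · by_cases a3 : Lsq M q w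
      · exact Or.inl (Or.inr ⟨a2, a3⟩)
      · refine Or.inr ⟨a2, ⟨a3, NewM.mB_nu (hp' w hw) hx (fun hl => a3 ?_) g6⟩, ⟨g3, g4⟩, g5⟩
        exact kda_pos (TH M q) (A := fun u => Lst M (MV.nu M q w) q u) (hp' w hw) hl
    · exact Or.inl (Or.inl (Or.inl ⟨⟨g1, g3, a1, a2⟩, g4, g5⟩))
  have k5 := dy_sum (h := h) (tb := tb) (v := v) p (5 * T)
  have k6 : tb.Ps.Pr (fun w => b (5 * T) w ∧ NewM.mB M (1 / 2) m (5 * T) w) ≤ Real.exp (4 * Lam) * M.kb := by
    have h1 : tb.Ps.Pr (fun w => b (5 * T) w ∧ NewM.mB M (1 / 2) m (5 * T) w) ≤ M.P.Pr (fun w => MV.Mv M m (5 * T) w) := by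
      rw [hP]
      exact tb.Ps.Pr_mono fun w hw hh => NewM.mB_Mv (hp' w hw) (by linarith) hh.2
    refine h1.trans ?_
    unfold FP.Pr
    rw [← M.P.E_ce (CN M m (5 * T))]
    refine (M.P.E_mono (g := fun _ => Real.exp (4 * Lam) * M.kb) fun w hw => MV.Mv_mass M hT m (5 * T) hw).trans (le_of_eq ?_)
    exact M.P.E_const _
  have k7 : ∑ q ∈ range (5 * T), tb.Ps.Pr (dy q) ≤ tb.Ps.Pr (fun w => ¬ Alv h v tb p (5 * T) w) := k5
  linarith

end clk

end

end Pool.Agent.GMH.TRF
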