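import Pool.Agent.GMH.UnrC
import Pool.Agent.GMH.StpI

/-!
# GMH/UnrP (helper35): THE PARTS OF THE UNRELEASED TUPLES OF THE RELEASED KINDS, three tops, run instance

* `bef_m` : undecided and not blocked at the vertex `m` in the relation of its life, the tops `x`, `y ≠ m` active, any code steps:
  `∑_q ≤ √uB GA` (`BefT.hxy_sum`);
* `tnP`, `tnL`, `tnH` : the parts of `puO`, `plO`, `phO` outside the relation of the life; `stL`, `stH` : in the relation, blocked;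
* `puO_le`, `plO_le`, `phO_le`.
-/

set_option autoImplicit false
set_option linter.unusedSectionVars false

namespace Pool.Agent.GMH.TRF

open Finset Pool.Agent.PWZ Pool.Agent.M3 Pool.Agent.GM Pool.Agent.GM.Harm Pool.Agent.GMH Pool.Agent.GMH.NZ
open Pool.Agent.GMH.V3 Pool.Agent.GMH.TP Pool.Agent.GMH.TD Pool.Agent.GMH.Dy Pool.Agent.GMH.MV Pool.Agent.GMH.MVI
open Pool.Agent.GMH.UV Pool.Agent.GMH.KF

noncomputable section

variable {X β γ φ : Type} [Fintype X] [Fintype β] [Fintype φ] [Nonempty X] [Nonempty β]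
variable {D : HD (Fin 3) X β γ φ} {al : ℝ} (h : D.Thick al) {prr : ℕ → Fin 3 → φ → φ} {T : ℕ} {W : Type} [Fintype W]
variable (tb : Tab D prr T W) {v : ℕ → Finset (Fin 3) → X → (Fin 3 → β) → Pt (Fin 3) X β φ}
variable (hv : Codes D v) {d1 kb d0 k0 p1 z : ℝ} (hd1 : 0 < d1) (hd11 : d1 ≤ 1) (hkb : 0 < kb) (hd0 : 0 < d0)
  (hd01 : d0 ≤ 1) (hk0 : 0 < k0) (hp1 : 0 < p1) (hz : 0 < z)

/-- **ONE VERTEX, CODE STEPS** : undecided, not blocked, in the relation of its life, the two tops which see it are active -/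
theorem bef_m {dg : ℕ → X → ℝ} {Lam : ℝ} (H : D.Hyp dg prr al T Lam) {n N1 : ℝ}
    (R : Run h (pr3 (Fin 3) n N1) (SS1 (Fin 3)) (AdmDep D) v) (hn : 1 ≤ n) (hN1 : 1 ≤ N1) (Q : Kd (Om W X β))
    {e : ℝ} (he : 0 < e) (he1 : e ≤ 1) {m x y : Fin 3} (hmx : m ≠ x) (hmy : m ≠ y) (hxy : x ≠ y)
    {B : ℕ → Om W X β → Prop} (hB : ∀ q w, tb.Ps.p w ≠ 0 → B q w →
      (Q.kv (some m) (tv (USi tb hv d1 kb d0 k0 p1 z hd1 hd11 hkb hd0 hd01 hk0 hp1 hz) m q w) w ∧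
        ¬ bet (USi tb hv d1 kb d0 k0 p1 z hd1 hd11 hkb hd0 hd01 hk0 hp1 hz) Q m q w ∧
        ¬ blk (USi tb hv d1 kb d0 k0 p1 z hd1 hd11 hkb hd0 hd01 hk0 hp1 hz) Q m q w) ∧
      acO h tb v e x q w ∧ acO h tb v e y q w) :
    ∑ q ∈ range (5 * T), tb.Ps.Pr (B q) ≤ Real.sqrt Q.uB * (240 * Lam / e ^ 2) := by
  set M := USi tb hv d1 kb d0 k0 p1 z hd1 hd11 hkb hd0 hd01 hk0 hp1 hz with hM
  have HB := bfS_i h tb hv hd1 hd11 hkb hd0 hd01 hk0 hp1 hz e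
  have HS : Seen M := seen_i tb hv hd1 hd11 hkb hd0 hd01 hk0 hp1 hz
  have h1 := BefT.hxy_sum (R := fun v s u => Q.kv (some v) (tv M v s u) u) (k := fun _ _ => True) (act := acO h tb v e)
    (Ks := fun s w => Q.kv (some m) (tv M m s w) w ∧ ¬ bet M Q m s w ∧ ¬ blk M Q m s w) (q := Q.uB) HB.tri hmx hmy hxy
    (fun _ _ _ _ => Iff.rfl) HB.acY (5 * T) (fun s w _ hh => ud_of HS hh.1 ⟨hh.2.1, fun hf => hf⟩ hh.2.2)
  have hx := acO_sum h tb (v := v) H R hn hN1 x he he1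
  have hy := acO_sum h tb (v := v) H R hn hN1 y he he1
  have h2 : ∀ i, ∑ s ∈ range (5 * T), M.P.Pr (fun w => True ∧ acO h tb v e i s w) ≤
      ∑ q ∈ range (5 * T), tb.Ps.Pr (acO h tb v e i q) := fun i =>
    Finset.sum_le_sum fun s _ => tb.Ps.Pr_mono fun w _ hh => hh.2
  refine le_trans (Finset.sum_le_sum fun q _ => ?_)
    (h1.trans (mul_le_mul_of_nonneg_left (by linarith [h2 x, h2 y]) (Real.sqrt_nonneg _)))
  exact tb.Ps.Pr_mono fun w hw hh => ⟨(hB q w hw hh).1, trivial, (hB q w hw hh).2.1, (hB q w hw hh).2.2⟩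

variable (v) (c : KC) (r : RC) (A : Fin 6 → ℕ → Pt (Fin 3) X β φ → Prop) (Qk : Fin 10 → Kd (Om W X β)) (M : US (Om W X β))

/-- public removal, not released, outside the relation of the life of `m` -/
def tnP (k : Fin 10) (m x y : Fin 3) (q : ℕ) (w : Om W X β) : Prop :=
  puO h tb v c r A (bO' Qk M) (zO' Qk M) k x y q w ∧ ¬ (Qk k).kd (some m) (tv M m q w) w

/-- private removal of `m`, undecided, outside the relation of its life -/
def tnL (k : Fin 10) (m x y : Fin 3) (q : ℕ) (w : Om W X β) : Prop :=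
  plO h tb v c r A (bO' Qk M) k m x y q w ∧ ¬ (Qk k).kd (some m) (tv M m q w) w

/-- heavy private value of `m`, undecided, outside the relation of its life -/
def tnH (k : Fin 10) (m x y : Fin 3) (q : ℕ) (w : Om W X β) : Prop :=
  phO h tb v c r A (bO' Qk M) k m x y q w ∧ ¬ (Qk k).kd (some m) (tv M m q w) w

/-- private removal of `m`, in the relation of its life, blocked -/
def stL (k : Fin 10) (m x y : Fin 3) (q : ℕ) (w : Om W X β) : Prop :=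
  plO h tb v c r A (bO' Qk M) k m x y q w ∧ (Qk k).kd (some m) (tv M m q w) w ∧ blk M (Qk k) m q w

/-- heavy private value of `m`, in the relation of its life, blocked -/
def stH (k : Fin 10) (m x y : Fin 3) (q : ℕ) (w : Om W X β) : Prop :=
  phO h tb v c r A (bO' Qk M) k m x y q w ∧ (Qk k).kd (some m) (tv M m q w) w ∧ blk M (Qk k) m q w

variable {v c r A Qk}

section sums

variable {dg : ℕ → X → ℝ} {Lam : ℝ} (H : D.Hyp dg prr al T Lam) {n N1 : ℝ}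
  (R : Run h (pr3 (Fin 3) n N1) (SS1 (Fin 3)) (AdmDep D) v) (hn : 1 ≤ n) (hN1 : 1 ≤ N1)
  {e : ℝ} (he : 0 < e) (he1 : e ≤ 1) (hee : e ≤ r.e1) (hB : 1 + e ≤ r.B) {k : Fin 10} {m x y : Fin 3} (hm : m ∈ (Qk k).Vk)
  (hmx : m ≠ x) (hmy : m ≠ y) (hxy : x ≠ y)

include H R hn hN1 he he1 hee hB hm hmx hmy hxy

/-- **AT THE PUBLIC REMOVALS** -/
theorem puO_le (hmk : m ∈ vk k) :
    ∑ q ∈ range (5 * T), tb.Ps.Pr (puO h tb v c r A (bO' Qk (USi tb hv d1 kb d0 k0 p1 z hd1 hd11 hkb hd0 hd01 hk0 hp1 hz))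
      (zO' Qk (USi tb hv d1 kb d0 k0 p1 z hd1 hd11 hkb hd0 hd01 hk0 hp1 hz)) k x y q) ≤
      Real.sqrt (Qk k).uB * (240 * Lam / e ^ 2) + ∑ q ∈ range (5 * T), tb.Ps.Pr
        (tnP h tb v c r A Qk (USi tb hv d1 kb d0 k0 p1 z hd1 hd11 hkb hd0 hd01 hk0 hp1 hz) k m x y q) := by
  set M := USi tb hv d1 kb d0 k0 p1 z hd1 hd11 hkb hd0 hd01 hk0 hp1 hz with hM
  have h1 := bef_m h tb hv hd1 hd11 hkb hd0 hd01 hk0 hp1 hz H R hn hN1 (Qk k) he he1 hmx hmy hxy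
    (B := fun q w => puO h tb v c r A (bO' Qk M) (zO' Qk M) k x y q w ∧ (Qk k).kd (some m) (tv M m q w) w)
    (fun q w _ hh => by
      obtain ⟨⟨hp, hr, hz0, hb⟩, hk⟩ := hh
      have hq : q % 5 ≠ 0 := by
        have := hr.1
        omega
      exact ⟨⟨(Qk k).hkv m hm _ _ hk, fun hb' => hb m hmk ⟨hm, hb'⟩, fun hbl => hz0 hbl.1⟩, srO_ac hee hB hq hp.2.2⟩)
  rw [← add_comm] at *
  refine le_trans ?_ (add_le_add_right h1 _)
  rw [← Finset.sum_add_distrib]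
  refine Finset.sum_le_sum fun q _ => (tb.Ps.Pr_mono fun w _ hh => ?_).trans (tb.Ps.Pr_or_le _ _)
  by_cases hk : (Qk k).kd (some m) (tv M m q w) w
  · exact Or.inr ⟨hh, hk⟩
  · exact Or.inl ⟨hh, hk⟩

/-- **AT THE PRIVATE REMOVALS OF THE COMMON VERTEX** -/
theorem plO_le :
    ∑ q ∈ range (5 * T), tb.Ps.Pr (plO h tb v c r A (bO' Qk (USi tb hv d1 kb d0 k0 p1 z hd1 hd11 hkb hd0 hd01 hk0 hp1 hz))
      k m x y q) ≤
      Real.sqrt (Qk k).uB * (240 * Lam / e ^ 2) + ∑ q ∈ range (5 * T), tb.Ps.Pr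
        (tnL h tb v c r A Qk (USi tb hv d1 kb d0 k0 p1 z hd1 hd11 hkb hd0 hd01 hk0 hp1 hz) k m x y q) +
        ∑ q ∈ range (5 * T), tb.Ps.Pr
        (stL h tb v c r A Qk (USi tb hv d1 kb d0 k0 p1 z hd1 hd11 hkb hd0 hd01 hk0 hp1 hz) k m x y q) := by
  set M := USi tb hv d1 kb d0 k0 p1 z hd1 hd11 hkb hd0 hd01 hk0 hp1 hz with hM
  have h1 := bef_m h tb hv hd1 hd11 hkb hd0 hd01 hk0 hp1 hz H R hn hN1 (Qk k) he he1 hmx hmy hxy
    (B := fun q w => plO h tb v c r A (bO' Qk M) k m x y q w ∧ (Qk k).kd (some m) (tv M m q w) w ∧ ¬ blk M (Qk k) m q w)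
    (fun q w _ hh => by
      obtain ⟨⟨hp, hr, hb⟩, hk, hbl⟩ := hh
      have hq : q % 5 ≠ 0 := by
        have := hr.1
        omega
      exact ⟨⟨(Qk k).hkv m hm _ _ hk, fun hb' => hb ⟨hm, hb'⟩, hbl⟩, srO_ac hee hB hq hp.2.2⟩)
  have h2 : ∀ q, tb.Ps.Pr (plO h tb v c r A (bO' Qk M) k m x y q) ≤
      tb.Ps.Pr (fun w => plO h tb v c r A (bO' Qk M) k m x y q w ∧ (Qk k).kd (some m) (tv M m q w) w ∧
        ¬ blk M (Qk k) m q w) + tb.Ps.Pr (tnL h tb v c r A Qk M k m x y q) + tb.Ps.Pr (stL h tb v c r A Qk M k m x y q) := by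
    intro q
    have a1 := tb.Ps.Pr_or_le (fun w => plO h tb v c r A (bO' Qk M) k m x y q w ∧ (Qk k).kd (some m) (tv M m q w) w ∧
      ¬ blk M (Qk k) m q w) (fun w => tnL h tb v c r A Qk M k m x y q w ∨ stL h tb v c r A Qk M k m x y q w)
    have a2 := tb.Ps.Pr_or_le (tnL h tb v c r A Qk M k m x y q) (stL h tb v c r A Qk M k m x y q)
    have a3 : tb.Ps.Pr (plO h tb v c r A (bO' Qk M) k m x y q) ≤ tb.Ps.Pr (fun w =>
        (plO h tb v c r A (bO' Qk M) k m x y q w ∧ (Qk k).kd (some m) (tv M m q w) w ∧ ¬ blk M (Qk k) m q w) ∨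
        (tnL h tb v c r A Qk M k m x y q w ∨ stL h tb v c r A Qk M k m x y q w)) := by
      refine tb.Ps.Pr_mono fun w _ hh => ?_
      by_cases hk : (Qk k).kd (some m) (tv M m q w) w
      · by_cases hbl : blk M (Qk k) m q w
        · exact Or.inr (Or.inr ⟨hh, hk, hbl⟩)
        · exact Or.inl ⟨hh, hk, hbl⟩
      · exact Or.inr (Or.inl ⟨hh, hk⟩)
    linarith
  have h3 := Finset.sum_le_sum fun q (_ : q ∈ range (5 * T)) => h2 q
  rw [Finset.sum_add_distrib, Finset.sum_add_distrib] at h3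
  linarith

/-- **HEAVY PRIVATE VALUE OF THE COMMON VERTEX** -/
theorem phO_le :
    ∑ q ∈ range (5 * T), tb.Ps.Pr (phO h tb v c r A (bO' Qk (USi tb hv d1 kb d0 k0 p1 z hd1 hd11 hkb hd0 hd01 hk0 hp1 hz))
      k m x y q) ≤
      Real.sqrt (Qk k).uB * (240 * Lam / e ^ 2) + ∑ q ∈ range (5 * T), tb.Ps.Pr
        (tnH h tb v c r A Qk (USi tb hv d1 kb d0 k0 p1 z hd1 hd11 hkb hd0 hd01 hk0 hp1 hz) k m x y q) +
        ∑ q ∈ range (5 * T), tb.Ps.Pr
        (stH h tb v c r A Qk (USi tb hv d1 kb d0 k0 p1 z hd1 hd11 hkb hd0 hd01 hk0 hp1 hz) k m x y q) := by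
  set M := USi tb hv d1 kb d0 k0 p1 z hd1 hd11 hkb hd0 hd01 hk0 hp1 hz with hM
  have h1 := bef_m h tb hv hd1 hd11 hkb hd0 hd01 hk0 hp1 hz H R hn hN1 (Qk k) he he1 hmx hmy hxy
    (B := fun q w => phO h tb v c r A (bO' Qk M) k m x y q w ∧ (Qk k).kd (some m) (tv M m q w) w ∧ ¬ blk M (Qk k) m q w)
    (fun q w _ hh => by
      obtain ⟨⟨hp, hr, _, hb⟩, hk, hbl⟩ := hh
      have hq : q % 5 ≠ 0 := by omega
      exact ⟨⟨(Qk k).hkv m hm _ _ hk, fun hb' => hb ⟨hm, hb'⟩, hbl⟩, srO_ac hee hB hq hp.2.2⟩)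
  have h2 : ∀ q, tb.Ps.Pr (phO h tb v c r A (bO' Qk M) k m x y q) ≤
      tb.Ps.Pr (fun w => phO h tb v c r A (bO' Qk M) k m x y q w ∧ (Qk k).kd (some m) (tv M m q w) w ∧
        ¬ blk M (Qk k) m q w) + tb.Ps.Pr (tnH h tb v c r A Qk M k m x y q) + tb.Ps.Pr (stH h tb v c r A Qk M k m x y q) := by
    intro q
    have a1 := tb.Ps.Pr_or_le (fun w => phO h tb v c r A (bO' Qk M) k m x y q w ∧ (Qk k).kd (some m) (tv M m q w) w ∧
      ¬ blk M (Qk k) m q w) (fun w => tnH h tb v c r A Qk M k m x y q w ∨ stH h tb v c r A Qk M k m x y q w)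
    have a2 := tb.Ps.Pr_or_le (tnH h tb v c r A Qk M k m x y q) (stH h tb v c r A Qk M k m x y q)
    have a3 : tb.Ps.Pr (phO h tb v c r A (bO' Qk M) k m x y q) ≤ tb.Ps.Pr (fun w =>
        (phO h tb v c r A (bO' Qk M) k m x y q w ∧ (Qk k).kd (some m) (tv M m q w) w ∧ ¬ blk M (Qk k) m q w) ∨
        (tnH h tb v c r A Qk M k m x y q w ∨ stH h tb v c r A Qk M k m x y q w)) := by
      refine tb.Ps.Pr_mono fun w _ hh => ?_
      by_cases hk : (Qk k).kd (some m) (tv M m q w) w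
      · by_cases hbl : blk M (Qk k) m q w
        · exact Or.inr (Or.inr ⟨hh, hk, hbl⟩)
        · exact Or.inl ⟨hh, hk, hbl⟩
      · exact Or.inr (Or.inl ⟨hh, hk⟩)
    linarith
  have h3 := Finset.sum_le_sum fun q (_ : q ∈ range (5 * T)) => h2 q
  rw [Finset.sum_add_distrib, Finset.sum_add_distrib] at h3
  linarith

end sums

end

end Pool.Agent.GMH.TRF
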