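import Pool.Agent.GMH.StpT

/-!
# GMH/UnrT (helper35, for helper55's UnrFull): THE UNRELEASED SUMS OF `TopSplit` ON THE TABLE SPACE

* `rgO q` : the true tuple is in the region; `unO q` : a removal (public, or private of some vertex), alive, in the region, no
  released kind with its bit;
* `hsP s t` : alive and in the region (digit `s = 0`, heavy public value `s = 2`); `hpP t` : the same at the joint private step
  when all three private values are heavy;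
* `unrS_tr` : `∑_t ∑_s UnrS ≤ (3 Lam + log (1/eta)) (∑_(q < 5T) Pr (unO q) + ∑_(t < T) (Pr (hsP 0 t) + Pr (hsP 2 t) + Pr (hpP t)))`.
-/

set_option autoImplicit false
set_option linter.unusedSectionVars false

namespace Pool.Agent.GMH.TRF

open Finset Pool.Agent.PWZ Pool.Agent.M3 Pool.Agent.GM Pool.Agent.GM.Harm Pool.Agent.GMH Pool.Agent.GMH.NZ
open Pool.Agent.GMH.V3 Pool.Agent.GMH.TP Pool.Agent.GMH.TD Pool.Agent.GMH.Dy Pool.Agent.GMH.MV Pool.Agent.GMH.MVI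
open Pool.Agent.GMH.UV Pool.Agent.GMH.KF

noncomputable section

variable {X β γ φ : Type} [Fintype X] [Fintype β] [Fintype φ] [Nonempty X] [Nonempty β]
variable {D : HD (Fin 3) X β γ φ} {al : ℝ} (h : D.Thick al) {prr : ℕ → Fin 3 → φ → φ} {T : ℕ} {W : Type} [Fintype W]
variable (tb : Tab D prr T W) (v : ℕ → Finset (Fin 3) → X → (Fin 3 → β) → Pt (Fin 3) X β φ)
variable (c : KC) (B : ℝ) (A : Fin 6 → ℕ → Pt (Fin 3) X β φ → Prop)
  (Rg : Fin 6 → ℕ → Pt (Fin 3) X β φ → Tu X β φ → Prop)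
  (bO : Fin 10 → Fin 3 → ℕ → Om W X β → Prop) (zO : Fin 10 → ℕ → Om W X β → Prop)

/-- the true tuple is in the region -/
def rgO (q : ℕ) (w : Om W X β) : Prop :=
  Rg (sO q) (q / 5) (tb.pt (q / 5) w) (tup (FQ v (q / 5)) (tb.pt (q / 5) w))

/-- at a removal, in the region, not released -/
def unO (q : ℕ) (w : Om W X β) : Prop := (ruO tb v q w ∨ ∃ i, rpO tb v i q w) ∧ aO tb A q w ∧ rgO tb v Rg q w ∧
  ∀ k ∈ rK, ¬ (rO h tb v c B k q w ∧ btO tb v bO zO k q w)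

/-- alive and in the region, step `s` -/
def hsP (s : Fin 6) (t : ℕ) (u : Pt (Fin 3) X β φ) : Prop := A s t u ∧ Rg s t u (tup (FQ v t) u)

/-- alive and in the region at the joint private step, all three private values are heavy -/
def hpP (t : ℕ) (u : Pt (Fin 3) X β φ) : Prop := hsP v A Rg 5 t u ∧ ∀ i, ¬ lpv h v i t u

variable {h tb v c B A Rg bO zO}

/-- the integrand of the unreleased sum -/
theorem un_num3 {a r s m L : ℝ} (ha1 : a ≤ 1) (hr : 0 ≤ r) (hr1 : r ≤ 1) (hs : 0 ≤ s) (hs1 : s ≤ 1)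
    (hm : 0 ≤ m) (hmL : m ≤ L) : a * ((1 - r) * (s * m)) ≤ L := by
  have h1 : s * m ≤ L := (mul_le_of_le_one_left hm hs1).trans hmL
  have h2 : 0 ≤ s * m := mul_nonneg hs hm
  have h3 : (1 - r) * (s * m) ≤ L := (mul_le_of_le_one_left h2 (by linarith)).trans h1
  have h4 : 0 ≤ (1 - r) * (s * m) := mul_nonneg (by linarith) h2
  exact (mul_le_of_le_one_left h4 ha1).trans h3

/-- one kind, one bit -/
theorem rw3_one {bt : Fin 10 → Fin 3 → ℕ → Pt (Fin 3) X β φ → Prop} {bz : Fin 10 → ℕ → Pt (Fin 3) X β φ → Prop}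
    {s : Fin 6} {t : ℕ} {k : Fin 10} {u : Pt (Fin 3) X β φ} (hk : rel3 h v c B s t k u (tup (FQ v t) u))
    (hb : bit3 h v bt bz s t k u) : rw3 h v c B bt bz s t u = 1 := by
  classical
  unfold rw3
  rw [Finset.sum_eq_single k (fun k' _ hne => by
    rw [ind_not fun hk' => hne (kdF_dis hk'.2.1 hk.2.1), zero_mul]) (fun hh => absurd (mem_univ k) hh), ind_of hk,
    ind_of hb, one_mul]

/-- a point of a step without release -/
theorem unrS_le {dg : ℕ → X → ℝ} {Lam : ℝ} (H : D.Hyp dg prr al T Lam) {N : Finset (Fin 3) → ℝ}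
    (R : Run h N (SS1 (Fin 3)) (AdmDep D) v) (hN : ∀ l : Fin 3, 0 < N (univ.erase l)) {t : ℕ} (ht : t ≤ T) (s : Fin 6)
    (bt : Fin 10 → Fin 3 → ℕ → Pt (Fin 3) X β φ → Prop) (bz : Fin 10 → ℕ → Pt (Fin 3) X β φ → Prop)
    {eta : ℝ} (he : 0 < eta) (he1 : eta ≤ 1) {G : Pt (Fin 3) X β φ → Prop}
    (hG : ∀ u, (D.P h t).p u ≠ 0 → hsP v A Rg s t u →
      (∃ k, rel3 h v c B s t k u (tup (FQ v t) u) ∧ bit3 h v bt bz s t k u) ∨ G u) :
    UnrS h v c B Rg bt bz A eta s t ≤ (3 * Lam + Real.log (1 / eta)) * (D.P h t).Pr G := by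
  classical
  have hlog : 0 ≤ Real.log (1 / eta) := Real.log_nonneg (by rw [le_div_iff₀ he]; linarith)
  have hLc : 0 ≤ 3 * Lam + Real.log (1 / eta) := by linarith [H.Lam1]
  have hq : 5 * t ≤ qs s t := by fin_cases s <;> simp [qs] <;> omega
  unfold UnrS FP.Pr
  rw [← (D.P h t).E_smul]
  refine (D.P h t).E_mono fun u hu => ?_
  have e2 : psS h v s t u ≤ 3 * Lam := psi_le H R hN ht hq hu
  have hm0 : 0 ≤ max (psS h v s t u) 0 + Real.log (1 / eta) := add_nonneg (le_max_right _ _) hlog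
  have hm1 : max (psS h v s t u) 0 + Real.log (1 / eta) ≤ 3 * Lam + Real.log (1 / eta) :=
    add_le_add (max_le e2 (by linarith [H.Lam1])) le_rfl
  obtain ⟨r0, r1⟩ := rw3_01 (h := h) (v := v) (c := c) (B := B) (bt := bt) (bz := bz) s t u
  by_cases hA1 : A s t u
  · by_cases hR : Rg s t u (tup (FQ v t) u)
    · rcases hG u hu ⟨hA1, hR⟩ with ⟨k, hk, hb⟩ | hg
      · rw [rw3_one hk hb, sub_self, zero_mul, mul_zero]
        exact mul_nonneg hLc (ind_nonneg _)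
      · rw [ind_of hg, mul_one]
        exact un_num3 (ind_le_one _) r0 r1 (ind_nonneg _) (ind_le_one _) hm0 hm1
    · rw [ind_not hR, zero_mul, mul_zero, mul_zero]
      exact mul_nonneg hLc (ind_nonneg _)
  · rw [ind_not hA1, zero_mul]
    exact mul_nonneg hLc (ind_nonneg _)

section steps

variable {dg : ℕ → X → ℝ} {Lam : ℝ} (H : D.Hyp dg prr al T Lam) {N : Finset (Fin 3) → ℝ}
    (R : Run h N (SS1 (Fin 3)) (AdmDep D) v) (hN : ∀ l : Fin 3, 0 < N (univ.erase l)) {t : ℕ}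
    {eta : ℝ} (he : 0 < eta) (he1 : eta ≤ 1)

include H R hN he he1

/-- the joint step -/
theorem unrS_1 (hb : ∀ k i q, Pos (bO k i q)) (hz : ∀ k q, Pos (zO k q)) (ht : t ≤ T)
    (hA : ∀ u, A 1 t u → ¬ HV h v t u) :
    UnrS h v c B Rg (fun k i q => lft (bO k i q)) (fun k q => lft (zO k q)) A eta 1 t ≤
      (3 * Lam + Real.log (1 / eta)) * tb.Ps.Pr (unO h tb v c B A Rg bO zO (5 * t + 1)) := by
  classical
  have hlog : 0 ≤ Real.log (1 / eta) := Real.log_nonneg (by rw [le_div_iff₀ he]; linarith)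
  have hLc : 0 ≤ 3 * Lam + Real.log (1 / eta) := by linarith [H.Lam1]
  have h1 := unrS_le (h := h) (v := v) (c := c) (B := B) (A := A) (Rg := Rg) H R hN ht 1 (fun k i q => lft (bO k i q))
    (fun k q => lft (zO k q)) he he1 (G := fun u => hsP v A Rg 1 t u ∧
      ¬ ∃ k, rel3 h v c B 1 t k u (tup (FQ v t) u) ∧
        bit3 h v (fun k i q => lft (bO k i q)) (fun k q => lft (zO k q)) 1 t k u) (fun u _ hh => by
      by_cases hk : ∃ k, rel3 h v c B 1 t k u (tup (FQ v t) u) ∧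
        bit3 h v (fun k i q => lft (bO k i q)) (fun k q => lft (zO k q)) 1 t k u
      · exact Or.inl hk
      · exact Or.inr ⟨hh, hk⟩)
  refine h1.trans (mul_le_mul_of_nonneg_left ?_ hLc)
  unfold FP.Pr
  rw [← (pul_pt h tb ht).E]
  refine tb.Ps.E_mono fun w hw => ind_mono ?_
  rintro ⟨⟨hA1, hR⟩, hn⟩
  have hd : (5 * t + 1) / 5 = t := by omega
  have hru : ruO tb v (5 * t + 1) w := by
    refine ⟨by omega, ?_⟩
    have := hA _ hA1
    rw [HV_q ht w, not_le] at this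
    exact this
  refine ⟨Or.inl hru, ?_, ?_, ?_⟩
  · unfold aO; rw [hd, sO_1]; exact hA1
  · unfold rgO; rw [hd, sO_1]; exact hR
  · rintro k hk ⟨h2, h3⟩
    refine hn ⟨k, ?_, ?_⟩
    · unfold rO at h2
      rw [hd, sO_1] at h2
      exact h2
    · refine ⟨hk, Or.inl ⟨rfl, ?_⟩⟩
      simp only [lft_pt (hz k (5 * t + 1)) t w, lft_pt (hb k _ _) t w]
      rcases h3 with ⟨i, _, hh, _⟩ | ⟨_, hh⟩
      · exfalso
        have := hh.1
        omega
      · exact hh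

/-- the joint private step -/
theorem unrS_5 (hb : ∀ k i q, Pos (bO k i q)) (ht : t ≤ T) (hA : ∀ u, A 5 t u → HV h v t u) :
    UnrS h v c B Rg (fun k i q => lft (bO k i q)) (fun k q => lft (zO k q)) A eta 5 t ≤
      (3 * Lam + Real.log (1 / eta)) * (tb.Ps.Pr (unO h tb v c B A Rg bO zO (5 * t + 4)) +
        (D.P h t).Pr (hpP h v A Rg t)) := by
  classical
  have hlog : 0 ≤ Real.log (1 / eta) := Real.log_nonneg (by rw [le_div_iff₀ he]; linarith)
  have hLc : 0 ≤ 3 * Lam + Real.log (1 / eta) := by linarith [H.Lam1]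
  have h1 := unrS_le (h := h) (v := v) (c := c) (B := B) (A := A) (Rg := Rg) H R hN ht 5 (fun k i q => lft (bO k i q))
    (fun k q => lft (zO k q)) he he1 (G := fun u => (hsP v A Rg 5 t u ∧ (∃ i, lpv h v i t u) ∧
      ¬ ∃ k, rel3 h v c B 5 t k u (tup (FQ v t) u) ∧
        bit3 h v (fun k i q => lft (bO k i q)) (fun k q => lft (zO k q)) 5 t k u) ∨ hpP h v A Rg t u) (fun u _ hh => by
      by_cases hk : ∃ k, rel3 h v c B 5 t k u (tup (FQ v t) u) ∧
        bit3 h v (fun k i q => lft (bO k i q)) (fun k q => lft (zO k q)) 5 t k u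
      · exact Or.inl hk
      · by_cases hl : ∃ i, lpv h v i t u
        · exact Or.inr (Or.inl ⟨hh, hl, hk⟩)
        · push Not at hl
          exact Or.inr (Or.inr ⟨hh, hl⟩))
  refine h1.trans (mul_le_mul_of_nonneg_left (((D.P h t).Pr_or_le _ _).trans (add_le_add ?_ le_rfl)) hLc)
  unfold FP.Pr
  rw [← (pul_pt h tb ht).E]
  refine tb.Ps.E_mono fun w hw => ind_mono ?_
  rintro ⟨⟨hA1, hR⟩, ⟨i, hi⟩, hn⟩
  have hd : (5 * t + 4) / 5 = t := by omega
  have es : sO (5 * t + 4) = 5 := sO_3 t 2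
  have hHV : tb.Ps.m (NPo tb v (5 * t + 1)) w ≤ 2 * tb.Ps.m (NPo tb v (5 * t + 2)) w := (HV_q ht w).1 (hA _ hA1)
  have eL : ∀ i, lpv h v i t (tb.pt t w) ↔ 2 * tb.Ps.m (fun u => (XLo tb v i (5 * t + 4 + 1) u,
      NPo tb v (5 * t + 4 + 1) u)) w < tb.Ps.m (fun u => (XLo tb v i (5 * t + 4) u,
      NPo tb v (5 * t + 4) u)) w := fun i => LVp_pt h tb v ht i (5 * t + 4) w
  have hrp : rpO tb v i (5 * t + 4) w := by
    refine ⟨by omega, (eL i).1 hi, ?_⟩
    rw [hd]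
    exact hHV
  refine ⟨Or.inr ⟨i, hrp⟩, ?_, ?_, ?_⟩
  · unfold aO; rw [hd, es]; exact hA1
  · unfold rgO; rw [hd, es]; exact hR
  · rintro k hk ⟨h2, h3⟩
    refine hn ⟨k, ?_, ?_⟩
    · unfold rO at h2
      rw [hd, es] at h2
      exact h2
    · refine ⟨hk, Or.inr ⟨rfl, ?_⟩⟩
      simp only [lft_pt (hb k _ _) t w]
      rcases h3 with ⟨j, hj, hh, hbj⟩ | ⟨hh, _⟩
      · exact ⟨j, hj, hbj, (eL j).2 hh.2.1⟩
      · exfalso
        have := hh.1
        omega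

omit H R hN he he1 in
/-- a step where nobody is alive -/
theorem unrS_nil (bt : Fin 10 → Fin 3 → ℕ → Pt (Fin 3) X β φ → Prop) (bz : Fin 10 → ℕ → Pt (Fin 3) X β φ → Prop)
    (s : Fin 6) (hA : ∀ u, ¬ A s t u) : UnrS h v c B Rg bt bz A eta s t = 0 := by
  unfold UnrS
  have e : ∀ w, ind (A s t w) = 0 := fun w => ind_not (hA w)
  simp only [e, zero_mul]
  unfold FP.E
  simp

end steps

/-- **THE UNRELEASED SUMS ON THE TABLE SPACE** -/
theorem unrS_tr {dg : ℕ → X → ℝ} {Lam : ℝ} (H : D.Hyp dg prr al T Lam) {N : Finset (Fin 3) → ℝ}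
    (R : Run h N (SS1 (Fin 3)) (AdmDep D) v) (hN : ∀ l : Fin 3, 0 < N (univ.erase l))
    (hb : ∀ k i q, Pos (bO k i q)) (hz : ∀ k q, Pos (zO k q)) (hA1 : ∀ t < T, ∀ u, A 1 t u → ¬ HV h v t u)
    (hA3 : ∀ t < T, ∀ u, ¬ A 3 t u) (hA4 : ∀ t < T, ∀ u, ¬ A 4 t u) (hA5 : ∀ t < T, ∀ u, A 5 t u → HV h v t u)
    {eta : ℝ} (he : 0 < eta) (he1 : eta ≤ 1) :
    ∑ t ∈ range T, ∑ s, UnrS h v c B Rg (fun k i q => lft (bO k i q)) (fun k q => lft (zO k q)) A eta s t ≤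
      (3 * Lam + Real.log (1 / eta)) * (∑ q ∈ range (5 * T), tb.Ps.Pr (unO h tb v c B A Rg bO zO q) +
        ∑ t ∈ range T, ((D.P h t).Pr (hsP v A Rg 0 t) + (D.P h t).Pr (hsP v A Rg 2 t) +
          (D.P h t).Pr (hpP h v A Rg t))) := by
  have hlog : 0 ≤ Real.log (1 / eta) := Real.log_nonneg (by rw [le_div_iff₀ he]; linarith)
  have hLc : 0 ≤ 3 * Lam + Real.log (1 / eta) := by linarith [H.Lam1]
  rw [sum_five, ← Finset.sum_add_distrib, Finset.mul_sum]
  refine Finset.sum_le_sum fun t ht => ?_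
  have ht' := Finset.mem_range.1 ht
  have k1 := unrS_1 (h := h) (tb := tb) (v := v) (c := c) (B := B) (A := A) (Rg := Rg) H R hN he he1 hb hz ht'.le
    (hA1 t ht')
  have k5 := unrS_5 (h := h) (tb := tb) (v := v) (c := c) (B := B) (A := A) (Rg := Rg) (zO := zO) H R hN he he1 hb
    ht'.le (hA5 t ht')
  have k0 := unrS_le (h := h) (v := v) (c := c) (B := B) (A := A) (Rg := Rg) H R hN ht'.le 0
    (fun k i q => lft (bO k i q)) (fun k q => lft (zO k q)) he he1 (G := hsP v A Rg 0 t) fun _ _ hh => Or.inr hh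
  have k2 := unrS_le (h := h) (v := v) (c := c) (B := B) (A := A) (Rg := Rg) H R hN ht'.le 2
    (fun k i q => lft (bO k i q)) (fun k q => lft (zO k q)) he he1 (G := hsP v A Rg 2 t) fun _ _ hh => Or.inr hh
  have k3 := unrS_nil (h := h) (v := v) (c := c) (B := B) (A := A) (Rg := Rg) (eta := eta)
    (fun k i q => lft (bO k i q)) (fun k q => lft (zO k q)) 3 (hA3 t ht')
  have k4 := unrS_nil (h := h) (v := v) (c := c) (B := B) (A := A) (Rg := Rg) (eta := eta)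
    (fun k i q => lft (bO k i q)) (fun k q => lft (zO k q)) 4 (hA4 t ht')
  have nn : ∀ q, 0 ≤ (3 * Lam + Real.log (1 / eta)) * tb.Ps.Pr (unO h tb v c B A Rg bO zO q) := fun q =>
    mul_nonneg hLc (tb.Ps.Pr_nonneg _)
  have n0 := nn (5 * t)
  have n2 := nn (5 * t + 2)
  have n3 := nn (5 * t + 3)
  rw [Fin.sum_univ_six, k3, k4]
  linarith

/-! ### the alive sets of the run -/

theorem aN_3n (v : ℕ → Finset (Fin 3) → X → (Fin 3 → β) → Pt (Fin 3) X β φ) (p : AP) (Gd : ℕ → Pt (Fin 3) X β φ → Prop)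
    (st sp : ℕ → Pt (Fin 3) X β φ → Option (Fin 3)) (t : ℕ) (u : Pt (Fin 3) X β φ) :
    ¬ TP.aN h v p Gd st sp 3 t u := fun hu => hu.2.1 rfl

theorem aN_4n (v : ℕ → Finset (Fin 3) → X → (Fin 3 → β) → Pt (Fin 3) X β φ) (p : AP) (Gd : ℕ → Pt (Fin 3) X β φ → Prop)
    (st sp : ℕ → Pt (Fin 3) X β φ → Option (Fin 3)) (t : ℕ) (u : Pt (Fin 3) X β φ) :
    ¬ TP.aN h v p Gd st sp 4 t u := fun hu => hu.2.2.1 rfl

end

end Pool.Agent.GMH.TRF
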