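import Pool.Agent.GMH.NZ

/-!
# GMH/V3Def: thin level of HARM(3), definitions, helper91

One law `P` (a class cell), three letters `X`, `Y`, `Z` (later `X_i = (y_i, lam_i)`), a public code `V` (digit or class
code).  `lw3`, `D3` = joint law and density of the triple; `gV` = part of the density which is cut (at least two strong
letters and hot), `RegV` = the region; `Good3` = rows of typical letters and of typical pairs are close; `NN3` = the
normalisation on alive letters, averaged over `V`; `KK3` = sum of the three gains; `cov3` = covariance of the dead masses.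
-/

set_option autoImplicit false
set_option linter.unusedSectionVars false

namespace Pool.Agent.GMH.V3

open Finset Pool.Agent.PWZ Pool.Agent.M3 Pool.Agent.GMH Pool.Agent.GMH.NZ

noncomputable section

variable {Om : Type*} [Fintype Om] (Q P : FP Om) {κ ι θ ν : Type*} (X : Om → κ) (Y : Om → ι) (Z : Om → θ) (V : Om → ν)

/-- joint law of three letters -/
def lw3 (x : κ) (y : ι) (z : θ) : ℝ := P.E fun w => ind (X w = x) * ind (Y w = y) * ind (Z w = z)

/-- density of the triple with respect to the product -/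
def D3 (x : κ) (y : ι) (z : θ) : ℝ := lw3 P X Y Z x y z / (lw P X x * lw P Y y * lw P Z z)

open Classical in
/-- cut part of the density; `a`, `b`, `c` ratios of the letters, `D..` densities -/
def gcut (B eta a b c D12 D13 D23 D123 : ℝ) : ℝ :=
  if B < a ∧ B < b ∧ B < c then (if 1 + eta < D123 then Real.log D123 else 0)
  else if B < a ∧ B < b then (if 1 + eta < D12 then Real.log D12 else 0)
  else if B < a ∧ B < c then (if 1 + eta < D13 then Real.log D13 else 0)
  else if B < b ∧ B < c then (if 1 + eta < D23 then Real.log D23 else 0)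
  else 0

/-- the cut part, `Q` = child, `P` = parent -/
def gV (B eta : ℝ) (x : κ) (y : ι) (z : θ) : ℝ :=
  gcut B eta (rt Q P X x) (rt Q P Y y) (rt Q P Z z) (Dd P X Y x y) (Dd P X Z x z) (Dd P Y Z y z) (D3 P X Y Z x y z)

/-- the region -/
def RegV (B eta : ℝ) (x : κ) (y : ι) (z : θ) : Prop :=
  (B < rt Q P X x ∧ B < rt Q P Y y ∧ 1 + eta < Dd P X Y x y) ∨
  (B < rt Q P X x ∧ B < rt Q P Z z ∧ 1 + eta < Dd P X Z x z) ∨
  (B < rt Q P Y y ∧ B < rt Q P Z z ∧ 1 + eta < Dd P Y Z y z) ∨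
  (B < rt Q P X x ∧ B < rt Q P Y y ∧ B < rt Q P Z z ∧ 1 + eta < D3 P X Y Z x y z)

/-- rows of alive letters and of alive pairs; a pair with a bad row is much rarer than the product -/
structure Good3 (TX : κ → Prop) (TY : ι → Prop) (TZ : θ → Prop) (τ : ℝ) : Prop where
  xy : ∀ x, TX x → rowd P X Y x ≤ τ * lw P X x
  xz : ∀ x, TX x → rowd P X Z x ≤ τ * lw P X x
  yx : ∀ y, TY y → rowd P Y X y ≤ τ * lw P Y y
  yz : ∀ y, TY y → rowd P Y Z y ≤ τ * lw P Y y
  zx : ∀ z, TZ z → rowd P Z X z ≤ τ * lw P Z z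
  zy : ∀ z, TZ z → rowd P Z Y z ≤ τ * lw P Z z
  xyz : ∀ x y, TX x → TY y →
    (∑ z ∈ vals Z, |lw3 P X Y Z x y z - lw2 P X Y x y * lw P Z z| ≤ τ * lw2 P X Y x y) ∨
      lw2 P X Y x y ≤ τ * (lw P X x * lw P Y y)
  xzy : ∀ x z, TX x → TZ z →
    (∑ y ∈ vals Y, |lw3 P X Y Z x y z - lw2 P X Z x z * lw P Y y| ≤ τ * lw2 P X Z x z) ∨
      lw2 P X Z x z ≤ τ * (lw P X x * lw P Z z)
  yzx : ∀ y z, TY y → TZ z →
    (∑ x ∈ vals X, |lw3 P X Y Z x y z - lw2 P Y Z y z * lw P X x| ≤ τ * lw2 P Y Z y z) ∨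
      lw2 P Y Z y z ≤ τ * (lw P Y y * lw P Z z)

/-- the normalisation on the alive letters, cut part `g` (given the value of `V`), averaged over `V` -/
def NN3 (TX : κ → Prop) (TY : ι → Prop) (TZ : θ → Prop) (g : ν → κ → ι → θ → ℝ) : ℝ :=
  ∑ v ∈ vals V, lw P V v * ∑ x ∈ vals X, ∑ y ∈ vals Y, ∑ z ∈ vals Z, ind (TX x ∧ TY y ∧ TZ z) *
    (lw3 P X Y Z x y z * (rt (P.cond fun w => V w = v) P X x * rt (P.cond fun w => V w = v) P Y y *
      rt (P.cond fun w => V w = v) P Z z * Real.exp (-g v x y z) - 1))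

/-- the sum of the three gains: `I(X;V) + I(Y;V) + I(Z;V)` -/
def KK3 : ℝ := ∑ v ∈ vals V, lw P V v *
  ((P.cond fun w => V w = v).kl P X + (P.cond fun w => V w = v).kl P Y + (P.cond fun w => V w = v).kl P Z)

/-- covariance of the alive masses -/
def cov3 (TX : κ → Prop) (TY : ι → Prop) (TZ : θ → Prop) : ℝ :=
  ∑ v ∈ vals V, lw P V v * ((P.cond fun w => V w = v).Pr (fun w => TX (X w)) *
    (P.cond fun w => V w = v).Pr (fun w => TY (Y w)) * (P.cond fun w => V w = v).Pr (fun w => TZ (Z w))) -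
    P.Pr (fun w => TX (X w)) * P.Pr (fun w => TY (Y w)) * P.Pr (fun w => TZ (Z w))

end

end Pool.Agent.GMH.V3
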