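import Pool.Agent.GMH.V3Def

/-!
# GMH/V3N2 (helper88): three letters outside the region, one value of the public code

`p`, `q`, `r` laws of the letters, `J` law of the first two, `M` law of the triple (finite sums over `S1`, `S2`, `S3`),
`a`, `b`, `c` ratios.  `perv` : the bracket of one value of the code is at most `36 B^3 (τ + η) (K1 + K2 + K3)`.

* `Ar3` : the array with its marginals and the good pairs `(x, y)`; `w1`, `w2`, `w3` : `∑ |M - pqr|` with weights;
* `two_strong`, `three_strong` : the cut part; `pw` : the pointwise bound.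
-/

set_option autoImplicit false
set_option linter.unusedSectionVars false

namespace Pool.Agent.GMH.V3.N3P

open Finset Pool.Agent.PWZ Pool.Agent.M3 Pool.Agent.GMH Pool.Agent.GMH.NZ

/-! ## arrays -/

section arr

variable {κ ι θ : Type*} {S1 : Finset κ} {S2 : Finset ι} {S3 : Finset θ}

/-- three letters with the pair of the first two -/
structure Ar3 (S1 : Finset κ) (S2 : Finset ι) (S3 : Finset θ) (p : κ → ℝ) (q : ι → ℝ) (r : θ → ℝ) (J : κ → ι → ℝ)
    (M : κ → ι → θ → ℝ) (T1 : κ → Prop) (T2 : ι → Prop) (τ : ℝ) : Prop where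
  t0 : 0 ≤ τ
  t1 : τ ≤ 1
  p0 : ∀ x, 0 ≤ p x
  q0 : ∀ y, 0 ≤ q y
  r0 : ∀ z, 0 ≤ r z
  J0 : ∀ x y, 0 ≤ J x y
  M0 : ∀ x y z, 0 ≤ M x y z
  MJ : ∀ x y, ∑ z ∈ S3, M x y z = J x y
  Jp : ∀ x, ∑ y ∈ S2, J x y = p x
  Jq : ∀ y, ∑ x ∈ S1, J x y = q y
  ps : ∑ x ∈ S1, p x = 1
  qs : ∑ y ∈ S2, q y = 1
  rs : ∑ z ∈ S3, r z = 1
  rx : ∀ x, T1 x → ∑ y ∈ S2, |J x y - p x * q y| ≤ τ * p x
  ry : ∀ y, T2 y → ∑ x ∈ S1, |J x y - p x * q y| ≤ τ * q y
  pr : ∀ x y, T1 x → T2 y → (∑ z ∈ S3, |M x y z - J x y * r z| ≤ τ * J x y) ∨ J x y ≤ τ * (p x * q y)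

variable {p : κ → ℝ} {q : ι → ℝ} {r : θ → ℝ} {J : κ → ι → ℝ} {M : κ → ι → θ → ℝ} {T1 : κ → Prop} {T2 : ι → Prop} {τ : ℝ}
  (A : Ar3 S1 S2 S3 p q r J M T1 T2 τ)
include A

/-- the row of a pair -/
theorem w0 {x : κ} {y : ι} (hx : T1 x) (hy : T2 y) :
    ∑ z ∈ S3, |M x y z - J x y * r z| ≤ τ * J x y + 2 * τ * (p x * q y) := by
  have h0 := mul_nonneg A.t0 (A.J0 x y)
  have h1 := mul_nonneg A.t0 (mul_nonneg (A.p0 x) (A.q0 y))
  rcases A.pr x y hx hy with h | h
  · linarith
  · have h2 : ∑ z ∈ S3, |M x y z - J x y * r z| ≤ ∑ z ∈ S3, (M x y z + J x y * r z) := by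
      refine Finset.sum_le_sum fun z _ => ?_
      refine (abs_sub _ _).trans ?_
      rw [abs_of_nonneg (A.M0 x y z), abs_of_nonneg (mul_nonneg (A.J0 x y) (A.r0 z))]
    rw [Finset.sum_add_distrib, A.MJ, ← Finset.mul_sum, A.rs, mul_one] at h2
    linarith

theorem w00 {x : κ} {y : ι} (hx : T1 x) (hy : T2 y) :
    ∑ z ∈ S3, |M x y z - p x * q y * r z| ≤ τ * J x y + 2 * τ * (p x * q y) + |J x y - p x * q y| := by
  have h1 : ∑ z ∈ S3, |M x y z - p x * q y * r z| ≤
      ∑ z ∈ S3, (|M x y z - J x y * r z| + |J x y - p x * q y| * r z) := by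
    refine Finset.sum_le_sum fun z _ => ?_
    have e : M x y z - p x * q y * r z = (M x y z - J x y * r z) + (J x y - p x * q y) * r z := by ring
    rw [e]
    refine (abs_add_le _ _).trans ?_
    rw [abs_mul (J x y - p x * q y), abs_of_nonneg (A.r0 z)]
  rw [Finset.sum_add_distrib, ← Finset.mul_sum, A.rs, mul_one] at h1
  have h2 := w0 A hx hy
  linarith

/-- the weight of a pair -/
theorem wrow {x : κ} (hx : T1 x) :
    ∑ y ∈ S2, (τ * J x y + 2 * τ * (p x * q y) + |J x y - p x * q y|) ≤ 4 * τ * p x := by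
  rw [Finset.sum_add_distrib, Finset.sum_add_distrib, ← Finset.mul_sum, ← Finset.mul_sum, ← Finset.mul_sum, A.Jp, A.qs]
  have := A.rx x hx
  linarith

theorem wcol {y : ι} (hy : T2 y) :
    ∑ x ∈ S1, (τ * J x y + 2 * τ * (p x * q y) + |J x y - p x * q y|) ≤ 4 * τ * q y := by
  rw [Finset.sum_add_distrib, Finset.sum_add_distrib, ← Finset.mul_sum, ← Finset.mul_sum, ← Finset.sum_mul, A.Jq, A.ps]
  have := A.ry y hy
  linarith

/-- weights of a function of the two letters -/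
theorem wgen {f : κ → ι → ℝ} (hf : ∀ x y, 0 ≤ f x y) :
    ∑ x ∈ S1, ∑ y ∈ S2, ∑ z ∈ S3, ind (T1 x ∧ T2 y) * (|M x y z - p x * q y * r z| * f x y) ≤
      ∑ x ∈ S1, ∑ y ∈ S2, ind (T1 x ∧ T2 y) * ((τ * J x y + 2 * τ * (p x * q y) + |J x y - p x * q y|) * f x y) := by
  refine Finset.sum_le_sum fun x _ => Finset.sum_le_sum fun y _ => ?_
  rw [← Finset.mul_sum, ← Finset.sum_mul]
  by_cases h : T1 x ∧ T2 y
  · rw [ind_of h, one_mul, one_mul]
    exact mul_le_mul_of_nonneg_right (w00 A h.1 h.2) (hf x y)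
  · rw [ind_not h, zero_mul, zero_mul]

theorem wpos (x : κ) (y : ι) : 0 ≤ τ * J x y + 2 * τ * (p x * q y) + |J x y - p x * q y| := by
  have h0 := mul_nonneg A.t0 (A.J0 x y)
  have h1 := mul_nonneg A.t0 (mul_nonneg (A.p0 x) (A.q0 y))
  have h2 := abs_nonneg (J x y - p x * q y)
  linarith

/-- **weight of a function of the first letter** -/
theorem w1 {f : κ → ℝ} (hf : ∀ x, 0 ≤ f x) :
    ∑ x ∈ S1, ∑ y ∈ S2, ∑ z ∈ S3, ind (T1 x ∧ T2 y) * (|M x y z - p x * q y * r z| * f x) ≤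
      4 * τ * ∑ x ∈ S1, p x * f x := by
  refine (wgen A (f := fun x _ => f x) fun x _ => hf x).trans ?_
  rw [Finset.mul_sum]
  refine Finset.sum_le_sum fun x _ => ?_
  by_cases hx : T1 x
  · calc ∑ y ∈ S2, ind (T1 x ∧ T2 y) * ((τ * J x y + 2 * τ * (p x * q y) + |J x y - p x * q y|) * f x)
        ≤ ∑ y ∈ S2, (τ * J x y + 2 * τ * (p x * q y) + |J x y - p x * q y|) * f x :=
          Finset.sum_le_sum fun y _ => mul_le_of_le_one_left (mul_nonneg (wpos A x y) (hf x)) (ind_le_one _)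
      _ = (∑ y ∈ S2, (τ * J x y + 2 * τ * (p x * q y) + |J x y - p x * q y|)) * f x := (Finset.sum_mul _ _ _).symm
      _ ≤ 4 * τ * p x * f x := mul_le_mul_of_nonneg_right (wrow A hx) (hf x)
      _ = _ := by ring
  · refine (Finset.sum_eq_zero fun y _ => ?_).le.trans ?_
    · rw [ind_not (fun h => hx h.1), zero_mul]
    · have := A.t0
      have := A.p0 x
      have := hf x
      positivity

/-- **weight of a function of the second letter** -/
theorem w2 {f : ι → ℝ} (hf : ∀ y, 0 ≤ f y) :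
    ∑ x ∈ S1, ∑ y ∈ S2, ∑ z ∈ S3, ind (T1 x ∧ T2 y) * (|M x y z - p x * q y * r z| * f y) ≤
      4 * τ * ∑ y ∈ S2, q y * f y := by
  refine (wgen A (f := fun _ y => f y) fun _ y => hf y).trans ?_
  rw [Finset.sum_comm, Finset.mul_sum]
  refine Finset.sum_le_sum fun y _ => ?_
  by_cases hy : T2 y
  · calc ∑ x ∈ S1, ind (T1 x ∧ T2 y) * ((τ * J x y + 2 * τ * (p x * q y) + |J x y - p x * q y|) * f y)
        ≤ ∑ x ∈ S1, (τ * J x y + 2 * τ * (p x * q y) + |J x y - p x * q y|) * f y :=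
          Finset.sum_le_sum fun x _ => mul_le_of_le_one_left (mul_nonneg (wpos A x y) (hf y)) (ind_le_one _)
      _ = (∑ x ∈ S1, (τ * J x y + 2 * τ * (p x * q y) + |J x y - p x * q y|)) * f y := (Finset.sum_mul _ _ _).symm
      _ ≤ 4 * τ * q y * f y := mul_le_mul_of_nonneg_right (wcol A hy) (hf y)
      _ = _ := by ring
  · refine (Finset.sum_eq_zero fun x _ => ?_).le.trans ?_
    · rw [ind_not (fun h => hy h.2), zero_mul]
    · have := A.t0
      have := A.q0 y
      have := hf y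
      positivity

/-- **weight of a product of functions of the two letters** -/
theorem w3 {f : κ → ℝ} {g : ι → ℝ} :
    ∑ x ∈ S1, ∑ y ∈ S2, ∑ z ∈ S3, ind (T1 x ∧ T2 y) * (|M x y z - p x * q y * r z| * (f x * g y)) ≤
      2 * τ * (∑ x ∈ S1, p x * f x ^ 2 + ∑ y ∈ S2, q y * g y ^ 2) := by
  have h1 := w1 A (f := fun x => f x ^ 2) fun x => sq_nonneg (f x)
  have h2 := w2 A (f := fun y => g y ^ 2) fun y => sq_nonneg (g y)
  have h3 : ∑ x ∈ S1, ∑ y ∈ S2, ∑ z ∈ S3, ind (T1 x ∧ T2 y) * (|M x y z - p x * q y * r z| * (f x * g y)) ≤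
      1 / 2 * (∑ x ∈ S1, ∑ y ∈ S2, ∑ z ∈ S3, ind (T1 x ∧ T2 y) * (|M x y z - p x * q y * r z| * f x ^ 2) +
        ∑ x ∈ S1, ∑ y ∈ S2, ∑ z ∈ S3, ind (T1 x ∧ T2 y) * (|M x y z - p x * q y * r z| * g y ^ 2)) := by
    rw [← Finset.sum_add_distrib, Finset.mul_sum]
    refine Finset.sum_le_sum fun x _ => ?_
    rw [← Finset.sum_add_distrib, Finset.mul_sum]
    refine Finset.sum_le_sum fun y _ => ?_
    rw [← Finset.sum_add_distrib, Finset.mul_sum]
    refine Finset.sum_le_sum fun z _ => ?_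
    have h4 : f x * g y ≤ 1 / 2 * (f x ^ 2 + g y ^ 2) := by nlinarith [sq_nonneg (f x - g y)]
    have h5 : 0 ≤ ind (T1 x ∧ T2 y) * |M x y z - p x * q y * r z| := mul_nonneg (ind_nonneg _) (abs_nonneg _)
    calc ind (T1 x ∧ T2 y) * (|M x y z - p x * q y * r z| * (f x * g y)) =
          ind (T1 x ∧ T2 y) * |M x y z - p x * q y * r z| * (f x * g y) := by ring
      _ ≤ ind (T1 x ∧ T2 y) * |M x y z - p x * q y * r z| * (1 / 2 * (f x ^ 2 + g y ^ 2)) :=
          mul_le_mul_of_nonneg_left h4 h5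
      _ = _ := by ring
  linarith

/-- a null pair -/
theorem J_null {x : κ} {y : ι} (hx : x ∈ S1) (hy : y ∈ S2) (h : p x * q y = 0) : J x y = 0 := by
  refine le_antisymm ?_ (A.J0 x y)
  rcases mul_eq_zero.1 h with h1 | h1
  · rw [← h1, ← A.Jp x]
    exact Finset.single_le_sum (f := fun y => J x y) (fun y _ => A.J0 x y) hy
  · rw [← h1, ← A.Jq y]
    exact Finset.single_le_sum (f := fun x => J x y) (fun x _ => A.J0 x y) hx

open Classical in
/-- **two strong letters, the third weak**, one pair; `u` = ratio of the third letter on the event -/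
theorem two_row {B η : ℝ} (hB : 1 ≤ B) (hη0 : 0 ≤ η) (hη1 : η ≤ 1) {x : κ} {y : ι} (hx : x ∈ S1) (hy : y ∈ S2)
    (hT1 : T1 x) (hT2 : T2 y) {u : θ → ℝ} (hu0 : ∀ z, 0 ≤ u z) (huB : ∀ z, u z ≤ B) {g : ℝ}
    (hg : g = if 1 + η < J x y / (p x * q y) then Real.log (J x y / (p x * q y)) else 0) :
    ∑ z ∈ S3, (M x y z * Real.exp (-g) - p x * q y * r z) * u z ≤ (4 * τ + η) * B * (p x * q y) := by
  have hpq := mul_nonneg (A.p0 x) (A.q0 y)
  have hJ := A.J0 x y
  have hB0 : 0 ≤ B := by linarith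
  have hw := w0 A hT1 hT2
  -- the row against `u`
  have hrow : ∑ z ∈ S3, (M x y z - J x y * r z) * u z ≤ B * (τ * J x y + 2 * τ * (p x * q y)) := by
    refine le_trans ?_ (mul_le_mul_of_nonneg_left hw hB0)
    rw [Finset.mul_sum]
    refine Finset.sum_le_sum fun z _ => ?_
    calc (M x y z - J x y * r z) * u z ≤ |M x y z - J x y * r z| * u z :=
          mul_le_mul_of_nonneg_right (le_abs_self _) (hu0 z)
      _ ≤ |M x y z - J x y * r z| * B := mul_le_mul_of_nonneg_left (huB z) (abs_nonneg _)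
      _ = _ := mul_comm _ _
  by_cases hh : 1 + η < J x y / (p x * q y)
  · -- hot
    have hpq0 : 0 < p x * q y := by
      rcases hpq.eq_or_lt with h | h
      · rw [← h, div_zero] at hh
        linarith
      · exact h
    have hJ1 : (1 + η) * (p x * q y) < J x y := (lt_div_iff₀ hpq0).1 hh
    have hJ2 : p x * q y ≤ J x y := by nlinarith
    have hJ0 : 0 < J x y := lt_of_lt_of_le hpq0 hJ2
    rw [if_pos hh] at hg
    have e1 : Real.exp (-g) = p x * q y / J x y := by
      rw [hg, ← Real.log_inv, Real.exp_log (by positivity), inv_div]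
    have e2 : ∑ z ∈ S3, (M x y z * Real.exp (-g) - p x * q y * r z) * u z =
        p x * q y / J x y * ∑ z ∈ S3, (M x y z - J x y * r z) * u z := by
      rw [Finset.mul_sum]
      refine Finset.sum_congr rfl fun z _ => ?_
      rw [e1]
      field_simp
    rw [e2]
    have h3 : B * (τ * J x y + 2 * τ * (p x * q y)) ≤ B * (3 * τ * J x y) := by
      refine mul_le_mul_of_nonneg_left ?_ hB0
      have := mul_le_mul_of_nonneg_left hJ2 A.t0
      linarith
    have h4 : 0 ≤ p x * q y / J x y := by positivity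
    calc p x * q y / J x y * ∑ z ∈ S3, (M x y z - J x y * r z) * u z ≤ p x * q y / J x y * (B * (3 * τ * J x y)) :=
          mul_le_mul_of_nonneg_left (hrow.trans h3) h4
      _ = 3 * τ * B * (p x * q y) := by field_simp
      _ ≤ (4 * τ + η) * B * (p x * q y) := by
          refine mul_le_mul_of_nonneg_right (mul_le_mul_of_nonneg_right ?_ hB0) hpq
          have := A.t0
          linarith
  · -- cold
    rw [if_neg hh] at hg
    have hJ1 : J x y ≤ (1 + η) * (p x * q y) := by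
      rcases hpq.eq_or_lt with h | h
      · rw [J_null A hx hy h.symm, ← h, mul_zero]
      · exact (div_le_iff₀ h).1 (not_lt.1 hh)
    have e2 : ∑ z ∈ S3, (M x y z * Real.exp (-g) - p x * q y * r z) * u z =
        ∑ z ∈ S3, (M x y z - J x y * r z) * u z + (J x y - p x * q y) * ∑ z ∈ S3, r z * u z := by
      rw [Finset.mul_sum, ← Finset.sum_add_distrib]
      refine Finset.sum_congr rfl fun z _ => ?_
      rw [hg, neg_zero, Real.exp_zero]
      ring
    have h5 : 0 ≤ ∑ z ∈ S3, r z * u z := Finset.sum_nonneg fun z _ => mul_nonneg (A.r0 z) (hu0 z)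
    have h6 : ∑ z ∈ S3, r z * u z ≤ B := by
      calc ∑ z ∈ S3, r z * u z ≤ ∑ z ∈ S3, r z * B :=
            Finset.sum_le_sum fun z _ => mul_le_mul_of_nonneg_left (huB z) (A.r0 z)
        _ = B := by rw [← Finset.sum_mul, A.rs, one_mul]
    have h7 : (J x y - p x * q y) * ∑ z ∈ S3, r z * u z ≤ η * (p x * q y) * B := by
      calc (J x y - p x * q y) * ∑ z ∈ S3, r z * u z ≤ (η * (p x * q y)) * ∑ z ∈ S3, r z * u z :=
            mul_le_mul_of_nonneg_right (by linarith) h5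
        _ ≤ η * (p x * q y) * B := mul_le_mul_of_nonneg_left h6 (mul_nonneg hη0 hpq)
    have h8 : B * (τ * J x y + 2 * τ * (p x * q y)) ≤ B * (4 * τ * (p x * q y)) := by
      refine mul_le_mul_of_nonneg_left ?_ hB0
      have h9 : J x y ≤ 2 * (p x * q y) := by nlinarith
      have := mul_le_mul_of_nonneg_left h9 A.t0
      linarith
    rw [e2]
    linarith

end arr

/-! ## the pointwise bound -/

/-- the bracket of one triple: `(M e^(-g) - m) a b c - (M - m) (a + b + c - 2)` -/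
noncomputable def br (M m a b c g : ℝ) : ℝ := (M * Real.exp (-g) - m) * (a * b * c) - (M - m) * (a + b + c - 2)

theorem hsg_of {B x : ℝ} (h : B < x) : hsg B x = x := by unfold hsg; rw [ind_of h, one_mul]

theorem hsg_not {B x : ℝ} (h : ¬ B < x) : hsg B x = 0 := by unfold hsg; rw [ind_not h, zero_mul]

theorem hwk_of {B x : ℝ} (h : B < x) : hwk B x = 0 := by unfold hwk; rw [ind_not (fun hh => hh h), zero_mul]

theorem hwk_not {B x : ℝ} (h : ¬ B < x) : hwk B x = x := by unfold hwk; rw [ind_of h, one_mul]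

/-- three factors near one -/
theorem prod3 (a b c : ℝ) : a * b * c - (a + b + c - 2) =
    (a - 1) * (b - 1) + (a - 1) * (c - 1) + (b - 1) * (c - 1) + (a - 1) * (b - 1) * (c - 1) := by ring

theorem prod3_le {a b c B x y z : ℝ} (hx : |a - 1| ≤ x) (hy : |b - 1| ≤ y) (hz : |c - 1| ≤ z) (hB : z ≤ B) :
    |a * b * c - (a + b + c - 2)| ≤ x * y + x * z + y * z + x * y * B := by
  rw [prod3]
  have hx0 := (abs_nonneg _).trans hx
  have hy0 := (abs_nonneg _).trans hy
  have hz0 := (abs_nonneg _).trans hz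
  have h1 : |(a - 1) * (b - 1)| ≤ x * y := by rw [abs_mul]; exact mul_le_mul hx hy (abs_nonneg _) hx0
  have h2 : |(a - 1) * (c - 1)| ≤ x * z := by rw [abs_mul]; exact mul_le_mul hx hz (abs_nonneg _) hx0
  have h3 : |(b - 1) * (c - 1)| ≤ y * z := by rw [abs_mul]; exact mul_le_mul hy hz (abs_nonneg _) hy0
  have h4 : |(a - 1) * (b - 1) * (c - 1)| ≤ x * y * B := by
    rw [abs_mul]; exact mul_le_mul h1 (hz.trans hB) (abs_nonneg _) (mul_nonneg hx0 hy0)
  refine (abs_add_le _ _).trans (add_le_add ((abs_add_le _ _).trans (add_le_add ((abs_add_le _ _).trans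
    (add_le_add h1 h2)) h3)) h4)

section pw

variable {B a b c M m w : ℝ}

/-- no strong letter or one strong letter -/
theorem br_zero (hw : |M - m| = w) : br M m a b c 0 ≤ w * |a * b * c - (a + b + c - 2)| := by
  have e : br M m a b c 0 = (M - m) * (a * b * c - (a + b + c - 2)) := by
    unfold br
    rw [neg_zero, Real.exp_zero]
    ring
  rw [e, ← hw, ← abs_mul]
  exact le_abs_self _

/-- two strong letters -/
theorem br_two (hw : |M - m| = w) {g : ℝ} (h : 0 ≤ a + b + c - 2) :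
    br M m a b c g ≤ (M * Real.exp (-g) - m) * (a * b * c) + w * (a + b + c) := by
  have h1 : -((M - m) * (a + b + c - 2)) ≤ w * (a + b + c - 2) := by
    rw [← neg_mul]
    refine mul_le_mul_of_nonneg_right ?_ h
    rw [← hw]
    exact neg_le_abs _
  have h2 : 0 ≤ w := by rw [← hw]; exact abs_nonneg _
  unfold br
  have h3 : w * (a + b + c - 2) ≤ w * (a + b + c) := mul_le_mul_of_nonneg_left (by linarith) h2
  linarith

open Classical in
/-- **THE POINTWISE BOUND** -/
theorem pw (hB : 4 ≤ B) (ha : 0 ≤ a) (hb : 0 ≤ b) (hc : 0 ≤ c) {eta D12 D13 D23 D123 : ℝ} :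
    br M m a b c (gcut B eta a b c D12 D13 D23 D123) ≤
      3 * B ^ 2 * (|M - m| * hsg B a) + 3 * B ^ 2 * (|M - m| * hsg B b) + 3 * B ^ 2 * (|M - m| * hsg B c) +
      (1 + B) * (|M - m| * (|hwk B a - 1| * |hwk B b - 1|)) + (1 + B) * (|M - m| * (|hwk B a - 1| * |hwk B c - 1|)) +
      (1 + B) * (|M - m| * (|hwk B b - 1| * |hwk B c - 1|)) +
      hsg B a * hsg B b * ((M * Real.exp (-(if 1 + eta < D12 then Real.log D12 else 0)) - m) * hwk B c) +
      hsg B a * hsg B c * ((M * Real.exp (-(if 1 + eta < D13 then Real.log D13 else 0)) - m) * hwk B b) +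
      hsg B b * hsg B c * ((M * Real.exp (-(if 1 + eta < D23 then Real.log D23 else 0)) - m) * hwk B a) +
      hsg B a * hsg B b * hsg B c * (M * Real.exp (-(if 1 + eta < D123 then Real.log D123 else 0)) - m) := by
  obtain ⟨w, hw⟩ : ∃ w, |M - m| = w := ⟨_, rfl⟩
  have hw0 : 0 ≤ w := by rw [← hw]; exact abs_nonneg _
  have hB1 : 1 ≤ B := by linarith
  have hB2 : 1 ≤ B ^ 2 := by nlinarith
  have hB3 : B ≤ B ^ 2 := by nlinarith
  have wk : ∀ x : ℝ, 0 ≤ x → ¬ B < x → |x - 1| ≤ B := fun x hx hBx => by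
    rw [abs_le]; constructor <;> linarith [not_lt.1 hBx]
  have sg : ∀ x : ℝ, B < x → |x - 1| ≤ x := fun x hBx => by
    rw [abs_le]; constructor <;> linarith
  have z1 : |(0 : ℝ) - 1| = 1 := by norm_num
  rw [hw]
  by_cases h1 : B < a
  · by_cases h2 : B < b
    · by_cases h3 : B < c
      · -- three strong
        have hg : gcut B eta a b c D12 D13 D23 D123 = if 1 + eta < D123 then Real.log D123 else 0 := by
          unfold gcut; rw [if_pos ⟨h1, h2, h3⟩]
        rw [hg, hsg_of h1, hsg_of h2, hsg_of h3, hwk_of h1, hwk_of h2, hwk_of h3, z1]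
        refine (br_two hw (by linarith)).trans ?_
        have h5 : w * (a + b + c) ≤ 3 * B ^ 2 * (w * (a + b + c)) :=
          le_mul_of_one_le_left (mul_nonneg hw0 (by linarith)) (by linarith)
        have h6 : 0 ≤ (1 + B) * w := mul_nonneg (by linarith) hw0
        linarith
      · have hg : gcut B eta a b c D12 D13 D23 D123 = if 1 + eta < D12 then Real.log D12 else 0 := by
          unfold gcut; rw [if_neg (fun h => h3 h.2.2), if_pos ⟨h1, h2⟩]
        rw [hg, hsg_of h1, hsg_of h2, hsg_not h3, hwk_of h1, hwk_of h2, hwk_not h3, z1]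
        refine (br_two hw (by linarith)).trans ?_
        have h5 : w * (a + b + c) ≤ 3 * B ^ 2 * (w * (a + b)) := by
          have h7 : w * (a + b + c) ≤ 3 * (w * (a + b)) := by
            have h8 : a + b + c ≤ 3 * (a + b) := by linarith [not_lt.1 h3]
            have := mul_le_mul_of_nonneg_left h8 hw0
            linarith
          have h9 : 0 ≤ w * (a + b) := mul_nonneg hw0 (by linarith)
          nlinarith
        have h6 : 0 ≤ (1 + B) * w := mul_nonneg (by linarith) hw0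
        have h7 : 0 ≤ (1 + B) * (w * |c - 1|) := mul_nonneg (by linarith) (mul_nonneg hw0 (abs_nonneg _))
        linarith
    · by_cases h3 : B < c
      · have hg : gcut B eta a b c D12 D13 D23 D123 = if 1 + eta < D13 then Real.log D13 else 0 := by
          unfold gcut; rw [if_neg (fun h => h2 h.2.1), if_neg (fun h => h2 h.2), if_pos ⟨h1, h3⟩]
        rw [hg, hsg_of h1, hsg_not h2, hsg_of h3, hwk_of h1, hwk_not h2, hwk_of h3, z1]
        refine (br_two hw (by linarith)).trans ?_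
        have h5 : w * (a + b + c) ≤ 3 * B ^ 2 * (w * (a + c)) := by
          have h7 : w * (a + b + c) ≤ 3 * (w * (a + c)) := by
            have h8 : a + b + c ≤ 3 * (a + c) := by linarith [not_lt.1 h2]
            have := mul_le_mul_of_nonneg_left h8 hw0
            linarith
          have h9 : 0 ≤ w * (a + c) := mul_nonneg hw0 (by linarith)
          nlinarith
        have h6 : 0 ≤ (1 + B) * w := mul_nonneg (by linarith) hw0
        have h7 : 0 ≤ (1 + B) * (w * |b - 1|) := mul_nonneg (by linarith) (mul_nonneg hw0 (abs_nonneg _))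
        linarith
      · -- one strong
        have hg : gcut B eta a b c D12 D13 D23 D123 = 0 := by
          unfold gcut
          rw [if_neg (fun h => h2 h.2.1), if_neg (fun h => h2 h.2), if_neg (fun h => h3 h.2), if_neg (fun h => h2 h.1)]
        rw [hg, hsg_of h1, hsg_not h2, hsg_not h3, hwk_of h1, hwk_not h2, hwk_not h3, z1]
        refine (br_zero hw).trans ?_
        have k1 := prod3_le (sg a h1) (le_refl |b - 1|) (le_refl |c - 1|) (wk c hc h3)
        have k2 : a * |b - 1| + a * |c - 1| + |b - 1| * |c - 1| + a * |b - 1| * B ≤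
            3 * B ^ 2 * a + (1 + B) * (|b - 1| * |c - 1|) := by
          have b1 := mul_le_mul_of_nonneg_left (wk b hb h2) ha
          have b2 := mul_le_mul_of_nonneg_left (wk c hc h3) ha
          have b3 := mul_le_mul_of_nonneg_right b1 (show 0 ≤ B by linarith)
          have b4 := mul_le_mul_of_nonneg_left hB3 ha
          have b5 := mul_nonneg (show 0 ≤ B by linarith) (mul_nonneg (abs_nonneg (b - 1)) (abs_nonneg (c - 1)))
          nlinarith
        have k3 := mul_le_mul_of_nonneg_left (k1.trans k2) hw0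
        have k4 : 0 ≤ (1 + B) * (w * |b - 1|) := mul_nonneg (by linarith) (mul_nonneg hw0 (abs_nonneg _))
        have k5 : 0 ≤ (1 + B) * (w * |c - 1|) := mul_nonneg (by linarith) (mul_nonneg hw0 (abs_nonneg _))
        nlinarith
  · by_cases h2 : B < b
    · by_cases h3 : B < c
      · have hg : gcut B eta a b c D12 D13 D23 D123 = if 1 + eta < D23 then Real.log D23 else 0 := by
          unfold gcut
          rw [if_neg (fun h => h1 h.1), if_neg (fun h => h1 h.1), if_neg (fun h => h1 h.1), if_pos ⟨h2, h3⟩]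
        rw [hg, hsg_not h1, hsg_of h2, hsg_of h3, hwk_not h1, hwk_of h2, hwk_of h3, z1]
        refine (br_two hw (by linarith)).trans ?_
        have h5 : w * (a + b + c) ≤ 3 * B ^ 2 * (w * (b + c)) := by
          have h7 : w * (a + b + c) ≤ 3 * (w * (b + c)) := by
            have h8 : a + b + c ≤ 3 * (b + c) := by linarith [not_lt.1 h1]
            have := mul_le_mul_of_nonneg_left h8 hw0
            linarith
          have h9 : 0 ≤ w * (b + c) := mul_nonneg hw0 (by linarith)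
          nlinarith
        have h6 : 0 ≤ (1 + B) * w := mul_nonneg (by linarith) hw0
        have h7 : 0 ≤ (1 + B) * (w * |a - 1|) := mul_nonneg (by linarith) (mul_nonneg hw0 (abs_nonneg _))
        linarith
      · have hg : gcut B eta a b c D12 D13 D23 D123 = 0 := by
          unfold gcut
          rw [if_neg (fun h => h1 h.1), if_neg (fun h => h1 h.1), if_neg (fun h => h1 h.1), if_neg (fun h => h3 h.2)]
        rw [hg, hsg_not h1, hsg_of h2, hsg_not h3, hwk_not h1, hwk_of h2, hwk_not h3, z1]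
        refine (br_zero hw).trans ?_
        have e : a * b * c - (a + b + c - 2) = b * a * c - (b + a + c - 2) := by ring
        rw [e]
        have k1 := prod3_le (sg b h2) (le_refl |a - 1|) (le_refl |c - 1|) (wk c hc h3)
        have k2 : b * |a - 1| + b * |c - 1| + |a - 1| * |c - 1| + b * |a - 1| * B ≤
            3 * B ^ 2 * b + (1 + B) * (|a - 1| * |c - 1|) := by
          have b1 := mul_le_mul_of_nonneg_left (wk a ha h1) hb
          have b2 := mul_le_mul_of_nonneg_left (wk c hc h3) hb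
          have b3 := mul_le_mul_of_nonneg_right b1 (show 0 ≤ B by linarith)
          have b4 := mul_le_mul_of_nonneg_left hB3 hb
          have b5 := mul_nonneg (show 0 ≤ B by linarith) (mul_nonneg (abs_nonneg (a - 1)) (abs_nonneg (c - 1)))
          nlinarith
        have k3 := mul_le_mul_of_nonneg_left (k1.trans k2) hw0
        have k4 : 0 ≤ (1 + B) * (w * |a - 1|) := mul_nonneg (by linarith) (mul_nonneg hw0 (abs_nonneg _))
        have k5 : 0 ≤ (1 + B) * (w * |c - 1|) := mul_nonneg (by linarith) (mul_nonneg hw0 (abs_nonneg _))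
        nlinarith
    · by_cases h3 : B < c
      · have hg : gcut B eta a b c D12 D13 D23 D123 = 0 := by
          unfold gcut
          rw [if_neg (fun h => h1 h.1), if_neg (fun h => h1 h.1), if_neg (fun h => h1 h.1), if_neg (fun h => h2 h.1)]
        rw [hg, hsg_not h1, hsg_not h2, hsg_of h3, hwk_not h1, hwk_not h2, hwk_of h3, z1]
        refine (br_zero hw).trans ?_
        have e : a * b * c - (a + b + c - 2) = c * a * b - (c + a + b - 2) := by ring
        rw [e]
        have k1 := prod3_le (sg c h3) (le_refl |a - 1|) (le_refl |b - 1|) (wk b hb h2)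
        have k2 : c * |a - 1| + c * |b - 1| + |a - 1| * |b - 1| + c * |a - 1| * B ≤
            3 * B ^ 2 * c + (1 + B) * (|a - 1| * |b - 1|) := by
          have b1 := mul_le_mul_of_nonneg_left (wk a ha h1) hc
          have b2 := mul_le_mul_of_nonneg_left (wk b hb h2) hc
          have b3 := mul_le_mul_of_nonneg_right b1 (show 0 ≤ B by linarith)
          have b4 := mul_le_mul_of_nonneg_left hB3 hc
          have b5 := mul_nonneg (show 0 ≤ B by linarith) (mul_nonneg (abs_nonneg (a - 1)) (abs_nonneg (b - 1)))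
          nlinarith
        have k3 := mul_le_mul_of_nonneg_left (k1.trans k2) hw0
        have k4 : 0 ≤ (1 + B) * (w * |a - 1|) := mul_nonneg (by linarith) (mul_nonneg hw0 (abs_nonneg _))
        have k5 : 0 ≤ (1 + B) * (w * |b - 1|) := mul_nonneg (by linarith) (mul_nonneg hw0 (abs_nonneg _))
        nlinarith
      · have hg : gcut B eta a b c D12 D13 D23 D123 = 0 := by
          unfold gcut
          rw [if_neg (fun h => h1 h.1), if_neg (fun h => h1 h.1), if_neg (fun h => h1 h.1), if_neg (fun h => h2 h.1)]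
        rw [hg, hsg_not h1, hsg_not h2, hsg_not h3, hwk_not h1, hwk_not h2, hwk_not h3]
        refine (br_zero hw).trans ?_
        have k1 := prod3_le (le_refl |a - 1|) (le_refl |b - 1|) (le_refl |c - 1|) (wk c hc h3)
        have k2 : |a - 1| * |b - 1| + |a - 1| * |c - 1| + |b - 1| * |c - 1| + |a - 1| * |b - 1| * B ≤
            (1 + B) * (|a - 1| * |b - 1|) + (1 + B) * (|a - 1| * |c - 1|) + (1 + B) * (|b - 1| * |c - 1|) := by
          have b1 := mul_nonneg (show 0 ≤ B by linarith) (mul_nonneg (abs_nonneg (a - 1)) (abs_nonneg (c - 1)))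
          have b2 := mul_nonneg (show 0 ≤ B by linarith) (mul_nonneg (abs_nonneg (b - 1)) (abs_nonneg (c - 1)))
          nlinarith
        have k3 := mul_le_mul_of_nonneg_left (k1.trans k2) hw0
        nlinarith

end pw

/-! ## the sums -/

section sums

variable {κ ι θ : Type*} {S1 : Finset κ} {S2 : Finset ι} {S3 : Finset θ} {p : κ → ℝ} {q : ι → ℝ} {r : θ → ℝ}
  {J : κ → ι → ℝ} {M : κ → ι → θ → ℝ} {T1 : κ → Prop} {T2 : ι → Prop} {T3 : θ → Prop} {τ : ℝ}

theorem ind3 (x : κ) (y : ι) (z : θ) : ind (T1 x ∧ T2 y ∧ T3 z) = ind (T1 x ∧ T2 y) * ind (T3 z) := by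
  by_cases h1 : T1 x
  · by_cases h2 : T2 y
    · by_cases h3 : T3 z
      · rw [ind_of ⟨h1, h2, h3⟩, ind_of ⟨h1, h2⟩, ind_of h3, one_mul]
      · rw [ind_not (fun h => h3 h.2.2), ind_not h3, mul_zero]
    · rw [ind_not (fun h => h2 h.2.1), ind_not (fun h : T1 x ∧ T2 y => h2 h.2), zero_mul]
  · rw [ind_not (fun h => h1 h.1), ind_not (fun h : T1 x ∧ T2 y => h1 h.1), zero_mul]

/-- forget the third event -/
theorem drop12 {G : κ → ι → θ → ℝ} (hG : ∀ x y z, 0 ≤ G x y z) :
    ∑ x ∈ S1, ∑ y ∈ S2, ∑ z ∈ S3, ind (T1 x ∧ T2 y ∧ T3 z) * G x y z ≤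
      ∑ x ∈ S1, ∑ y ∈ S2, ∑ z ∈ S3, ind (T1 x ∧ T2 y) * G x y z := by
  refine Finset.sum_le_sum fun x _ => Finset.sum_le_sum fun y _ => Finset.sum_le_sum fun z _ => ?_
  rw [ind3]
  refine mul_le_mul_of_nonneg_right ?_ (hG x y z)
  exact mul_le_of_le_one_right (ind_nonneg _) (ind_le_one _)

theorem drop13 {G : κ → ι → θ → ℝ} (hG : ∀ x y z, 0 ≤ G x y z) :
    ∑ x ∈ S1, ∑ y ∈ S2, ∑ z ∈ S3, ind (T1 x ∧ T2 y ∧ T3 z) * G x y z ≤
      ∑ x ∈ S1, ∑ z ∈ S3, ∑ y ∈ S2, ind (T1 x ∧ T3 z) * G x y z := by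
  refine Finset.sum_le_sum fun x _ => ?_
  rw [Finset.sum_comm]
  refine Finset.sum_le_sum fun z _ => Finset.sum_le_sum fun y _ => ?_
  refine mul_le_mul_of_nonneg_right ?_ (hG x y z)
  by_cases h : T1 x ∧ T2 y ∧ T3 z
  · rw [ind_of h, ind_of ⟨h.1, h.2.2⟩]
  · rw [ind_not h]; exact ind_nonneg _

theorem rot (G : κ → ι → θ → ℝ) :
    ∑ x ∈ S1, ∑ y ∈ S2, ∑ z ∈ S3, G x y z = ∑ y ∈ S2, ∑ z ∈ S3, ∑ x ∈ S1, G x y z := by
  rw [Finset.sum_comm]
  refine Finset.sum_congr rfl fun y _ => ?_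
  rw [Finset.sum_comm]

theorem drop23 {G : κ → ι → θ → ℝ} (hG : ∀ x y z, 0 ≤ G x y z) :
    ∑ x ∈ S1, ∑ y ∈ S2, ∑ z ∈ S3, ind (T1 x ∧ T2 y ∧ T3 z) * G x y z ≤
      ∑ y ∈ S2, ∑ z ∈ S3, ∑ x ∈ S1, ind (T2 y ∧ T3 z) * G x y z := by
  rw [rot]
  refine Finset.sum_le_sum fun y _ => Finset.sum_le_sum fun z _ => Finset.sum_le_sum fun x _ => ?_
  refine mul_le_mul_of_nonneg_right ?_ (hG x y z)
  by_cases h : T1 x ∧ T2 y ∧ T3 z
  · rw [ind_of h, ind_of ⟨h.2.1, h.2.2⟩]
  · rw [ind_not h]; exact ind_nonneg _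

open Classical in
/-- **two strong letters**, all pairs -/
theorem twoS (A : Ar3 S1 S2 S3 p q r J M T1 T2 τ) {B η : ℝ} (hB : 1 ≤ B) (hη0 : 0 ≤ η) (hη1 : η ≤ 1) {f : κ → ℝ}
    {g : ι → ℝ} {u : θ → ℝ} (hf : ∀ x, 0 ≤ f x) (hg : ∀ y, 0 ≤ g y) (hu0 : ∀ z, 0 ≤ u z) (huB : ∀ z, u z ≤ B) :
    ∑ x ∈ S1, ∑ y ∈ S2, ∑ z ∈ S3, ind (T1 x ∧ T2 y ∧ T3 z) * (f x * g y *
      ((M x y z * Real.exp (-(if 1 + η < J x y / (p x * q y) then Real.log (J x y / (p x * q y)) else 0)) -
        p x * q y * r z) * u z)) ≤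
      (4 * τ + η) * B * ((∑ x ∈ S1, p x * f x) * ∑ y ∈ S2, q y * g y) := by
  have h0 : 0 ≤ (4 * τ + η) * B := mul_nonneg (by linarith [A.t0]) (by linarith)
  rw [Finset.sum_mul_sum, Finset.mul_sum]
  refine Finset.sum_le_sum fun x hx => ?_
  rw [Finset.mul_sum]
  refine Finset.sum_le_sum fun y hy => ?_
  have hfg := mul_nonneg (hf x) (hg y)
  have hpq := mul_nonneg (A.p0 x) (A.q0 y)
  by_cases h : T1 x ∧ T2 y
  · have h1 := two_row A hB hη0 hη1 hx hy h.1 h.2 (u := fun z => ind (T3 z) * u z)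
      (fun z => mul_nonneg (ind_nonneg _) (hu0 z))
      (fun z => (mul_le_of_le_one_left (hu0 z) (ind_le_one _)).trans (huB z)) rfl
    have h2 := mul_le_mul_of_nonneg_left h1 hfg
    rw [Finset.mul_sum] at h2
    refine le_trans (le_of_eq (Finset.sum_congr rfl fun z _ => ?_)) (h2.trans (le_of_eq (by ring)))
    rw [ind3, ind_of h]
    ring
  · refine (Finset.sum_eq_zero fun z _ => ?_).le.trans ?_
    · rw [ind3, ind_not h, zero_mul, zero_mul]
    · have := mul_nonneg h0 (mul_nonneg (mul_nonneg (A.p0 x) (hf x)) (mul_nonneg (A.q0 y) (hg y)))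
      linarith

open Classical in
/-- **three strong letters** -/
theorem threeS {J13 : κ → θ → ℝ} (A : Ar3 S1 S2 S3 p q r J M T1 T2 τ)
    (A' : Ar3 S1 S3 S2 p r q J13 (fun x z y => M x y z) T1 T3 τ) {η : ℝ} (hη0 : 0 ≤ η)
    {f : κ → ℝ} {g : ι → ℝ} {u : θ → ℝ} (hf : ∀ x, 0 ≤ f x) (hg : ∀ y, 0 ≤ g y) (hu0 : ∀ z, 0 ≤ u z) :
    ∑ x ∈ S1, ∑ y ∈ S2, ∑ z ∈ S3, ind (T1 x ∧ T2 y ∧ T3 z) * (f x * g y * u z *
      (M x y z * Real.exp (-(if 1 + η < M x y z / (p x * q y * r z) then Real.log (M x y z / (p x * q y * r z)) else 0)) -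
        p x * q y * r z)) ≤
      η * ((∑ x ∈ S1, p x * f x) * (∑ y ∈ S2, q y * g y) * ∑ z ∈ S3, r z * u z) := by
  rw [mul_assoc (∑ x ∈ S1, p x * f x), Finset.sum_mul_sum S2 S3, Finset.sum_mul_sum, Finset.mul_sum]
  refine Finset.sum_le_sum fun x hx => ?_
  rw [Finset.mul_sum]
  refine Finset.sum_le_sum fun y hy => ?_
  rw [Finset.mul_sum, Finset.mul_sum]
  refine Finset.sum_le_sum fun z hz => ?_
  have hm : 0 ≤ p x * q y * r z := mul_nonneg (mul_nonneg (A.p0 x) (A.q0 y)) (A.r0 z)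
  have hF : 0 ≤ f x * g y * u z := mul_nonneg (mul_nonneg (hf x) (hg y)) (hu0 z)
  have key : M x y z * Real.exp (-(if 1 + η < M x y z / (p x * q y * r z) then
      Real.log (M x y z / (p x * q y * r z)) else 0)) - p x * q y * r z ≤ η * (p x * q y * r z) := by
    have hM := A.M0 x y z
    by_cases hh : 1 + η < M x y z / (p x * q y * r z)
    · rw [if_pos hh]
      have hm0 : 0 < p x * q y * r z := by
        rcases hm.eq_or_lt with h | h
        · rw [← h, div_zero] at hh; linarith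
        · exact h
      have hM1 := (lt_div_iff₀ hm0).1 hh
      have hM0 : 0 < M x y z := by nlinarith
      rw [← Real.log_inv, Real.exp_log (by positivity), inv_div]
      have e : M x y z * (p x * q y * r z / M x y z) = p x * q y * r z := by field_simp
      rw [e]
      have := mul_nonneg hη0 hm
      linarith
    · rw [if_neg hh, neg_zero, Real.exp_zero, mul_one]
      rcases hm.eq_or_lt with h | h
      · have hz0 : M x y z = 0 := by
          refine le_antisymm ?_ hM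
          rcases mul_eq_zero.1 h.symm with h1 | h1
          · rw [← J_null A hx hy h1, ← A.MJ x y]
            exact Finset.single_le_sum (f := fun z => M x y z) (fun z _ => A.M0 x y z) hz
          · have h2 : p x * r z = 0 := by rw [h1, mul_zero]
            rw [← J_null A' hx hz h2, ← A'.MJ x z]
            exact Finset.single_le_sum (f := fun y => M x y z) (fun y _ => A.M0 x y z) hy
        rw [hz0, ← h]; simp
      · have := (div_le_iff₀ h).1 (not_lt.1 hh)
        linarith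
  calc ind (T1 x ∧ T2 y ∧ T3 z) * (f x * g y * u z *
      (M x y z * Real.exp (-(if 1 + η < M x y z / (p x * q y * r z) then
        Real.log (M x y z / (p x * q y * r z)) else 0)) - p x * q y * r z)) ≤
        ind (T1 x ∧ T2 y ∧ T3 z) * (f x * g y * u z * (η * (p x * q y * r z))) :=
        mul_le_mul_of_nonneg_left (mul_le_mul_of_nonneg_left key hF) (ind_nonneg _)
    _ ≤ f x * g y * u z * (η * (p x * q y * r z)) :=
        mul_le_of_le_one_left (mul_nonneg hF (mul_nonneg hη0 hm)) (ind_le_one _)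
    _ = _ := by ring

end sums

/-! ## one value of the code -/

section perv

variable {κ ι θ : Type*} {S1 : Finset κ} {S2 : Finset ι} {S3 : Finset θ} {p : κ → ℝ} {q : ι → ℝ} {r : θ → ℝ}
  {J12 : κ → ι → ℝ} {J13 : κ → θ → ℝ} {J23 : ι → θ → ℝ} {M : κ → ι → θ → ℝ} {T1 : κ → Prop} {T2 : ι → Prop}
  {T3 : θ → Prop} {τ : ℝ} {a : κ → ℝ} {b : ι → ℝ} {c : θ → ℝ}

/-- **ONE VALUE OF THE CODE** -/
theorem perv (A12 : Ar3 S1 S2 S3 p q r J12 M T1 T2 τ) (A13 : Ar3 S1 S3 S2 p r q J13 (fun x z y => M x y z) T1 T3 τ)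
    (A23 : Ar3 S2 S3 S1 q r p J23 (fun y z x => M x y z) T2 T3 τ) (ha : ∀ x, 0 ≤ a x) (hb : ∀ y, 0 ≤ b y)
    (hc : ∀ z, 0 ≤ c z) {B η K1 K2 K3 : ℝ} (hB : 4 ≤ B) (hη0 : 0 ≤ η) (hη1 : η ≤ 1)
    (sa : ∑ x ∈ S1, p x * hsg B (a x) ≤ K1) (sb : ∑ y ∈ S2, q y * hsg B (b y) ≤ K2)
    (sc : ∑ z ∈ S3, r z * hsg B (c z) ≤ K3)
    (wa : ∑ x ∈ S1, p x * |hwk B (a x) - 1| ^ 2 ≤ 2 * B * K1)
    (wb : ∑ y ∈ S2, q y * |hwk B (b y) - 1| ^ 2 ≤ 2 * B * K2)
    (wc : ∑ z ∈ S3, r z * |hwk B (c z) - 1| ^ 2 ≤ 2 * B * K3)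
    (ob : ∑ y ∈ S2, q y * hsg B (b y) ≤ 1) (oc : ∑ z ∈ S3, r z * hsg B (c z) ≤ 1) :
    ∑ x ∈ S1, ∑ y ∈ S2, ∑ z ∈ S3, ind (T1 x ∧ T2 y ∧ T3 z) *
      br (M x y z) (p x * q y * r z) (a x) (b y) (c z) (gcut B η (a x) (b y) (c z) (J12 x y / (p x * q y))
        (J13 x z / (p x * r z)) (J23 y z / (q y * r z)) (M x y z / (p x * q y * r z))) ≤
      40 * B ^ 3 * (τ + η) * (K1 + K2 + K3) := by
  classical
  have hB0 : 0 ≤ B := by linarith
  have hB1 : 1 ≤ B := by linarith
  have hτ := A12.t0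
  have na : ∀ x, 0 ≤ hsg B (a x) := fun x => hsg_nonneg (ha x)
  have nb : ∀ y, 0 ≤ hsg B (b y) := fun y => hsg_nonneg (hb y)
  have nc : ∀ z, 0 ≤ hsg B (c z) := fun z => hsg_nonneg (hc z)
  have K10 : 0 ≤ K1 := le_trans (Finset.sum_nonneg fun x _ => mul_nonneg (A12.p0 x) (na x)) sa
  have K20 : 0 ≤ K2 := le_trans (Finset.sum_nonneg fun y _ => mul_nonneg (A12.q0 y) (nb y)) sb
  have K30 : 0 ≤ K3 := le_trans (Finset.sum_nonneg fun z _ => mul_nonneg (A12.r0 z) (nc z)) sc
  have nsa : 0 ≤ ∑ x ∈ S1, p x * hsg B (a x) := Finset.sum_nonneg fun x _ => mul_nonneg (A12.p0 x) (na x)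
  have nsb : 0 ≤ ∑ y ∈ S2, q y * hsg B (b y) := Finset.sum_nonneg fun y _ => mul_nonneg (A12.q0 y) (nb y)
  have nsc : 0 ≤ ∑ z ∈ S3, r z * hsg B (c z) := Finset.sum_nonneg fun z _ => mul_nonneg (A12.r0 z) (nc z)
  -- the ten terms
  set W : κ → ι → θ → ℝ := fun x y z => |M x y z - p x * q y * r z| with hW
  have W0 : ∀ x y z, 0 ≤ W x y z := fun x y z => abs_nonneg _
  set G1 : κ → ι → θ → ℝ := fun x y z => W x y z * hsg B (a x) with hG1
  set G2 : κ → ι → θ → ℝ := fun x y z => W x y z * hsg B (b y) with hG2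
  set G3 : κ → ι → θ → ℝ := fun x y z => W x y z * hsg B (c z) with hG3
  set G4 : κ → ι → θ → ℝ := fun x y z => W x y z * (|hwk B (a x) - 1| * |hwk B (b y) - 1|) with hG4
  set G5 : κ → ι → θ → ℝ := fun x y z => W x y z * (|hwk B (a x) - 1| * |hwk B (c z) - 1|) with hG5
  set G6 : κ → ι → θ → ℝ := fun x y z => W x y z * (|hwk B (b y) - 1| * |hwk B (c z) - 1|) with hG6
  set G7 : κ → ι → θ → ℝ := fun x y z => hsg B (a x) * hsg B (b y) * ((M x y z * Real.exp (-(if 1 + η <
    J12 x y / (p x * q y) then Real.log (J12 x y / (p x * q y)) else 0)) - p x * q y * r z) * hwk B (c z)) with hG7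
  set G8 : κ → ι → θ → ℝ := fun x y z => hsg B (a x) * hsg B (c z) * ((M x y z * Real.exp (-(if 1 + η <
    J13 x z / (p x * r z) then Real.log (J13 x z / (p x * r z)) else 0)) - p x * q y * r z) * hwk B (b y)) with hG8
  set G9 : κ → ι → θ → ℝ := fun x y z => hsg B (b y) * hsg B (c z) * ((M x y z * Real.exp (-(if 1 + η <
    J23 y z / (q y * r z) then Real.log (J23 y z / (q y * r z)) else 0)) - p x * q y * r z) * hwk B (a x)) with hG9
  set G10 : κ → ι → θ → ℝ := fun x y z => hsg B (a x) * hsg B (b y) * hsg B (c z) * (M x y z * Real.exp (-(if 1 + η <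
    M x y z / (p x * q y * r z) then Real.log (M x y z / (p x * q y * r z)) else 0)) - p x * q y * r z) with hG10
  -- the sum over alive triples
  set St : (κ → ι → θ → ℝ) → ℝ := fun G => ∑ x ∈ S1, ∑ y ∈ S2, ∑ z ∈ S3, ind (T1 x ∧ T2 y ∧ T3 z) * G x y z with hSt
  have b1 : St G1 ≤ 4 * τ * K1 := by
    refine (drop12 fun x y z => mul_nonneg (W0 x y z) (na x)).trans ?_
    refine (w1 A12 (f := fun x => hsg B (a x)) na).trans ?_
    exact mul_le_mul_of_nonneg_left sa (by linarith)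
  have b2 : St G2 ≤ 4 * τ * K2 := by
    refine (drop12 fun x y z => mul_nonneg (W0 x y z) (nb y)).trans ?_
    refine (w2 A12 (f := fun y => hsg B (b y)) nb).trans ?_
    exact mul_le_mul_of_nonneg_left sb (by linarith)
  have e13 : ∀ x y z, |M x y z - p x * q y * r z| = |M x y z - p x * r z * q y| := fun x y z => by
    rw [show p x * q y * r z = p x * r z * q y by ring]
  have e23 : ∀ x y z, |M x y z - p x * q y * r z| = |M x y z - q y * r z * p x| := fun x y z => by
    rw [show p x * q y * r z = q y * r z * p x by ring]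
  have b3 : St G3 ≤ 4 * τ * K3 := by
    refine (drop13 fun x y z => mul_nonneg (W0 x y z) (nc z)).trans ?_
    refine le_trans (le_of_eq ?_) ((w2 A13 (f := fun z => hsg B (c z)) nc).trans
      (mul_le_mul_of_nonneg_left sc (by linarith)))
    exact Finset.sum_congr rfl fun x _ => Finset.sum_congr rfl fun z _ => Finset.sum_congr rfl fun y _ => by
      simp only [hG3, hW, e13]
  have b4 : St G4 ≤ 2 * τ * (2 * B * K1 + 2 * B * K2) := by
    refine (drop12 fun x y z => mul_nonneg (W0 x y z) (mul_nonneg (abs_nonneg _) (abs_nonneg _))).trans ?_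
    refine (w3 A12 (f := fun x => |hwk B (a x) - 1|) (g := fun y => |hwk B (b y) - 1|)).trans ?_
    exact mul_le_mul_of_nonneg_left (add_le_add wa wb) (by linarith)
  have b5 : St G5 ≤ 2 * τ * (2 * B * K1 + 2 * B * K3) := by
    refine (drop13 fun x y z => mul_nonneg (W0 x y z) (mul_nonneg (abs_nonneg _) (abs_nonneg _))).trans ?_
    refine le_trans (le_of_eq ?_) ((w3 A13 (f := fun x => |hwk B (a x) - 1|) (g := fun z => |hwk B (c z) - 1|)).trans
      (mul_le_mul_of_nonneg_left (add_le_add wa wc) (by linarith)))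
    exact Finset.sum_congr rfl fun x _ => Finset.sum_congr rfl fun z _ => Finset.sum_congr rfl fun y _ => by
      simp only [hG5, hW, e13]
  have b6 : St G6 ≤ 2 * τ * (2 * B * K2 + 2 * B * K3) := by
    refine (drop23 fun x y z => mul_nonneg (W0 x y z) (mul_nonneg (abs_nonneg _) (abs_nonneg _))).trans ?_
    refine le_trans (le_of_eq ?_) ((w3 A23 (f := fun y => |hwk B (b y) - 1|) (g := fun z => |hwk B (c z) - 1|)).trans
      (mul_le_mul_of_nonneg_left (add_le_add wb wc) (by linarith)))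
    exact Finset.sum_congr rfl fun y _ => Finset.sum_congr rfl fun z _ => Finset.sum_congr rfl fun x _ => by
      simp only [hG6, hW, e23]
  have hco : 0 ≤ (4 * τ + η) * B := mul_nonneg (by linarith) hB0
  have wk0a : ∀ x, 0 ≤ hwk B (a x) := fun x => hwk_nonneg (ha x)
  have wk0b : ∀ y, 0 ≤ hwk B (b y) := fun y => hwk_nonneg (hb y)
  have wk0c : ∀ z, 0 ≤ hwk B (c z) := fun z => hwk_nonneg (hc z)
  have b7 : St G7 ≤ (4 * τ + η) * B * K1 := by
    refine (twoS A12 hB1 hη0 hη1 na nb wk0c (fun z => hwk_le hB0)).trans ?_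
    refine mul_le_mul_of_nonneg_left ?_ hco
    exact (mul_le_mul sa ob nsb K10).trans (le_of_eq (mul_one _))
  have b8 : St G8 ≤ (4 * τ + η) * B * K1 := by
    have h := (twoS (T3 := T2) A13 hB1 hη0 hη1 na nc wk0b (fun y => hwk_le hB0)).trans
      (mul_le_mul_of_nonneg_left ((mul_le_mul sa oc nsc K10).trans (le_of_eq (mul_one _))) hco)
    refine le_trans (le_of_eq ?_) h
    refine Finset.sum_congr rfl fun x _ => ?_
    rw [Finset.sum_comm]
    refine Finset.sum_congr rfl fun z _ => Finset.sum_congr rfl fun y _ => ?_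
    have e1 : ind (T1 x ∧ T2 y ∧ T3 z) = ind (T1 x ∧ T3 z ∧ T2 y) := by
      congr 1
      exact propext ⟨fun h => ⟨h.1, h.2.2, h.2.1⟩, fun h => ⟨h.1, h.2.2, h.2.1⟩⟩
    rw [e1]
    simp only [hG8]
    rw [show p x * q y * r z = p x * r z * q y by ring]
  have b9 : St G9 ≤ (4 * τ + η) * B * K2 := by
    have h := (twoS (T3 := T1) A23 hB1 hη0 hη1 nb nc wk0a (fun x => hwk_le hB0)).trans
      (mul_le_mul_of_nonneg_left ((mul_le_mul sb oc nsc K20).trans (le_of_eq (mul_one _))) hco)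
    refine le_trans (le_of_eq ?_) h
    rw [hSt]
    show ∑ x ∈ S1, ∑ y ∈ S2, ∑ z ∈ S3, ind (T1 x ∧ T2 y ∧ T3 z) * G9 x y z = _
    rw [rot]
    refine Finset.sum_congr rfl fun y _ => Finset.sum_congr rfl fun z _ => Finset.sum_congr rfl fun x _ => ?_
    have e1 : ind (T1 x ∧ T2 y ∧ T3 z) = ind (T2 y ∧ T3 z ∧ T1 x) := by
      congr 1
      exact propext ⟨fun h => ⟨h.2.1, h.2.2, h.1⟩, fun h => ⟨h.2.2, h.1, h.2.1⟩⟩
    rw [e1]
    simp only [hG9]
    rw [show p x * q y * r z = q y * r z * p x by ring]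
  have b10 : St G10 ≤ η * K1 := by
    refine (threeS A12 A13 hη0 na nb nc).trans ?_
    refine mul_le_mul_of_nonneg_left ?_ hη0
    have h1 : (∑ x ∈ S1, p x * hsg B (a x)) * ∑ y ∈ S2, q y * hsg B (b y) ≤ K1 :=
      (mul_le_mul sa ob nsb K10).trans (le_of_eq (mul_one _))
    exact (mul_le_mul h1 oc nsc K10).trans (le_of_eq (mul_one _))
  -- pointwise
  have hpt : ∑ x ∈ S1, ∑ y ∈ S2, ∑ z ∈ S3, ind (T1 x ∧ T2 y ∧ T3 z) *
      br (M x y z) (p x * q y * r z) (a x) (b y) (c z) (gcut B η (a x) (b y) (c z) (J12 x y / (p x * q y))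
        (J13 x z / (p x * r z)) (J23 y z / (q y * r z)) (M x y z / (p x * q y * r z))) ≤
      3 * B ^ 2 * St G1 + 3 * B ^ 2 * St G2 + 3 * B ^ 2 * St G3 + (1 + B) * St G4 + (1 + B) * St G5 +
        (1 + B) * St G6 + St G7 + St G8 + St G9 + St G10 := by
    simp only [hSt, Finset.mul_sum, ← Finset.sum_add_distrib]
    refine Finset.sum_le_sum fun x _ => Finset.sum_le_sum fun y _ => Finset.sum_le_sum fun z _ => ?_
    have h := mul_le_mul_of_nonneg_left (pw (M := M x y z) (m := p x * q y * r z) hB (ha x) (hb y) (hc z) (eta := η)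
      (D12 := J12 x y / (p x * q y)) (D13 := J13 x z / (p x * r z)) (D23 := J23 y z / (q y * r z))
      (D123 := M x y z / (p x * q y * r z))) (ind_nonneg (T1 x ∧ T2 y ∧ T3 z))
    refine h.trans (le_of_eq ?_)
    simp only [hG1, hG2, hG3, hG4, hG5, hG6, hG7, hG8, hG9, hG10, hW]
    ring
  refine hpt.trans ?_
  have hBB : 0 ≤ 3 * B ^ 2 := by positivity
  have hB1' : 0 ≤ 1 + B := by linarith
  have c1 := mul_le_mul_of_nonneg_left b1 hBB
  have c2 := mul_le_mul_of_nonneg_left b2 hBB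
  have c3 := mul_le_mul_of_nonneg_left b3 hBB
  have c4 := mul_le_mul_of_nonneg_left b4 hB1'
  have c5 := mul_le_mul_of_nonneg_left b5 hB1'
  have c6 := mul_le_mul_of_nonneg_left b6 hB1'
  have t1 : 0 ≤ τ * (K1 + K2 + K3) := mul_nonneg hτ (by linarith)
  have t2 : 0 ≤ η * (K1 + K2 + K3) := mul_nonneg hη0 (by linarith)
  have s1 : 3 * B ^ 2 * (4 * τ * K1) + 3 * B ^ 2 * (4 * τ * K2) + 3 * B ^ 2 * (4 * τ * K3) =
      12 * B ^ 2 * (τ * (K1 + K2 + K3)) := by ring
  have s2 : (1 + B) * (2 * τ * (2 * B * K1 + 2 * B * K2)) + (1 + B) * (2 * τ * (2 * B * K1 + 2 * B * K3)) +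
      (1 + B) * (2 * τ * (2 * B * K2 + 2 * B * K3)) = 8 * B * (1 + B) * (τ * (K1 + K2 + K3)) := by ring
  have s3 : (4 * τ + η) * B * K1 + (4 * τ + η) * B * K1 + (4 * τ + η) * B * K2 ≤
      8 * B * (τ * (K1 + K2 + K3)) + 2 * B * (η * (K1 + K2 + K3)) := by
    have h1 : 2 * K1 + K2 ≤ 2 * (K1 + K2 + K3) := by linarith
    have h2 := mul_le_mul_of_nonneg_left h1 hco
    nlinarith
  have s4 : η * K1 ≤ η * (K1 + K2 + K3) := mul_le_mul_of_nonneg_left (by linarith) hη0
  have q2 : B ^ 2 ≤ B ^ 3 := pow_le_pow_right₀ hB1 (by norm_num)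
  have q1 : B ≤ B ^ 3 := by
    calc B = B ^ 1 := (pow_one B).symm
      _ ≤ B ^ 3 := pow_le_pow_right₀ hB1 (by norm_num)
  have q0 : 1 ≤ B ^ 3 := one_le_pow₀ hB1
  have f1 : 12 * B ^ 2 + 8 * B * (1 + B) + 8 * B ≤ 40 * B ^ 3 := by nlinarith
  have f2 : 2 * B + 1 ≤ 40 * B ^ 3 := by linarith
  have f3 := mul_le_mul_of_nonneg_right f1 t1
  have f4 := mul_le_mul_of_nonneg_right f2 t2
  have f5 : 40 * B ^ 3 * (τ + η) * (K1 + K2 + K3) = 40 * B ^ 3 * (τ * (K1 + K2 + K3)) +
      40 * B ^ 3 * (η * (K1 + K2 + K3)) := by ring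
  rw [f5]
  linarith

end perv

end Pool.Agent.GMH.V3.N3P
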