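import Pool.Agent.GMH.V3Def
import Pool.Agent.GMH.ConS3

/-!
# GMH/V3P: thin level of HARM(3) in the process, definitions, helper91

`K = Fin 3`.  `NP v s n` = public information (class codes before the time `s`, node of the time `n`), `XL v s i` = letter of
the vertex `i` (its point and its class codes before `s`), `Pc` = law of the time `t` in the public cell, `TL` = a set of
points as a set of letters in the cell.
-/

set_option autoImplicit false
set_option linter.unusedSectionVars false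

namespace Pool.Agent.GMH.V3

open Finset Pool.Agent.PWZ Pool.Agent.M3 Pool.Agent.GM Pool.Agent.GM.Harm Pool.Agent.GMH Pool.Agent.GMH.NZ

noncomputable section

variable {X β γ φ υ : Type} [Fintype X] [Fintype β] [Fintype φ] [Nonempty X] [Nonempty β]

/-- public information -/
def NP (D : HD (Fin 3) X β γ φ) (v : ℕ → Finset (Fin 3) → X → (Fin 3 → β) → υ) (s n : ℕ) (w : Pt (Fin 3) X β φ) :
    List υ × (γ × (Fin 3 → γ)) := (Um v s ∅ w.1 w.2.1, nd D n w)

/-- the letter of the vertex `i` -/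
def XL (v : ℕ → Finset (Fin 3) → X → (Fin 3 → β) → υ) (s : ℕ) (i : Fin 3) (w : Pt (Fin 3) X β φ) : β × List υ :=
  (w.2.1 i, Um v s {i} w.1 w.2.1)

variable {D : HD (Fin 3) X β γ φ} {al : ℝ} (h : D.Thick al)

/-- the law of the time `t` in the public cell of `w` -/
def Pc (v : ℕ → Finset (Fin 3) → X → (Fin 3 → β) → υ) (t s n : ℕ) (w : Pt (Fin 3) X β φ) : FP (Pt (Fin 3) X β φ) :=
  (D.P h t).cond fun w' => NP D v s n w' = NP D v s n w

/-- a set of points as a set of letters of the vertex `i` in the public cell of `w` -/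
def TL (D : HD (Fin 3) X β γ φ) (v : ℕ → Finset (Fin 3) → X → (Fin 3 → β) → υ) (s n : ℕ) (i : Fin 3)
    (TT : Pt (Fin 3) X β φ → Prop) (w : Pt (Fin 3) X β φ) (x : β × List υ) : Prop :=
  ∃ w', NP D v s n w' = NP D v s n w ∧ XL v s i w' = x ∧ TT w'

/-- alive: a public condition and one condition for each letter -/
structure Alv (D : HD (Fin 3) X β γ φ) (v : ℕ → Finset (Fin 3) → X → (Fin 3 → β) → υ) (s n : ℕ)
    (pub : Pt (Fin 3) X β φ → Prop) (TT : Fin 3 → Pt (Fin 3) X β φ → Prop) : Prop where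
  fp : ∀ a b, NP D v s n a = NP D v s n b → (pub a ↔ pub b)
  ft : ∀ i a b, (NP D v s n a, XL v s i a) = (NP D v s n b, XL v s i b) → (TT i a ↔ TT i b)

/-- the density of the three thin letters at a point -/
def DL (v : ℕ → Finset (Fin 3) → X → (Fin 3 → β) → υ) (t s n : ℕ) (w : Pt (Fin 3) X β φ) : ℝ :=
  D3 (Pc h v t s n w) (XL v s 0) (XL v s 1) (XL v s 2) (XL v s 0 w) (XL v s 1 w) (XL v s 2 w)

/-- the density of the thin letters of two vertices at a point (third letter trivial) -/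
def DJ (v : ℕ → Finset (Fin 3) → X → (Fin 3 → β) → υ) (i k : Fin 3) (t s n : ℕ) (w : Pt (Fin 3) X β φ) : ℝ :=
  D3 (Pc h v t s n w) (XL v s i) (XL v s k) (fun _ => ()) (XL v s i w) (XL v s k w) ()

/-- the cut part at a point, child = value of `V` in the cell -/
def gL {ν : Type*} (v : ℕ → Finset (Fin 3) → X → (Fin 3 → β) → υ) (V : Pt (Fin 3) X β φ → ν) (B eta : ℝ) (t s n : ℕ)
    (z : ν) (w : Pt (Fin 3) X β φ) : ℝ :=
  gV ((Pc h v t s n w).cond fun u => V u = z) (Pc h v t s n w) (XL v s 0) (XL v s 1) (XL v s 2) B eta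
    (XL v s 0 w) (XL v s 1 w) (XL v s 2 w)

/-- the same for two vertices -/
def gJ {ν : Type*} (v : ℕ → Finset (Fin 3) → X → (Fin 3 → β) → υ) (i k : Fin 3) (V : Pt (Fin 3) X β φ → ν) (B eta : ℝ)
    (t s n : ℕ) (z : ν) (w : Pt (Fin 3) X β φ) : ℝ :=
  gV ((Pc h v t s n w).cond fun u => V u = z) (Pc h v t s n w) (XL v s i) (XL v s k) (fun _ => ()) B eta
    (XL v s i w) (XL v s k w) ()

/-- the sum of the three gains of the public code `V` -/
def KV {ν : Type*} (v : ℕ → Finset (Fin 3) → X → (Fin 3 → β) → υ) (V : Pt (Fin 3) X β φ → ν) (t s n : ℕ) : ℝ :=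
  ∑ i, (D.P h t).I (XL v s i) V (NP D v s n)

/-- a child with a large dead mass -/
def Bch {ν : Type*} (v : ℕ → Finset (Fin 3) → X → (Fin 3 → β) → υ) (V : Pt (Fin 3) X β φ → ν)
    (TT : Fin 3 → Pt (Fin 3) X β φ → Prop) (e : ℝ) (t s n : ℕ) (w : Pt (Fin 3) X β φ) : Prop :=
  ∃ i, e < ((Pc h v t s n w).cond fun u => V u = V w).Pr fun u => ¬ TT i u

end

end Pool.Agent.GMH.V3
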