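import Pool.Agent.GMH.GhoL
import Pool.Agent.GMH.GhoV
import Pool.Agent.GMH.GdyN

/-!
# GMH/VSr (helper40): ROWS AND COLUMNS AT AN EXACT VERTEX, INPUT (I1) OF `Unm`

(A) WORLD OF THE START OF A LIFE.  `(B, C)` = exact row (`B` may be constant), `D` = the other vertex.  `tl s` = decided
at `s` (for the columns also: covered by the other cover), `Cv s` = covered, `As s` = `tl s` and not `Cv s`.
* `Hv`, `HvU` : heavy rows which are not released (signed / unsigned), `row1_Hv`, `row1_HvU` : their data for `GhoF.famA`;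
* `world_side`, `world_side_uns` : `E 1[R, ∃ s, As s] ψ ≤ 2 lam P(R, ∃ s, As s, released) + L (g0 P(∃ s, tl s) + d
  + class mass + P(R, ∃ s, As s, Hv s))`;
* `world_J`, `world_U` : rows, columns and both covered together.
(B) WORLD OF THE PUBLIC START: `heavy_rows`, `heavy_cols` : `P(R, ∃ s, tk s, G s) ≤ u/2 P(∃ s, tk s) + P(bad) +
(uc + u0/(uc u/2)) P(Kt(σ))`, `good_z` : a good sample, `Kt_pay` : `P(Kt(σ)) ≤ 2 E PhV(σ)` (potential of GMH/GhoF).
(C) `born_le` : heavy rows without a thin cover; `derand` : a choice of the list seen by the sight of the start.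
-/

set_option autoImplicit false
set_option linter.unusedSectionVars false

namespace Pool.Agent.GMH.VSr

open Finset Pool.Agent.PWZ Pool.Agent.M3 Pool.Agent.GMH.Gdy Pool.Agent.GMH.CR Pool.Agent.GMH.Three
open Pool.Agent.GMH.GhoT Pool.Agent.GMH.GhoL
open Pool.Agent.GMH.GhoF (Row1)

noncomputable section

/-! ## (A) the world of the start of a life -/

section world

variable {Om : Type*} [Fintype Om] (P : FP Om) {α β δ Rw : Type*} [Fintype β] [Fintype δ] [Fintype Rw] (B : Om → α)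
  (C : Om → β)
  (D : Om → δ) (tl Cv : ℕ → Om → Prop) (R : Om → Prop) (ψ : Om → ℝ) (mr : α → β → FP Rw)
  (Gr : α → β → Rw → δ → Prop) (ps : α → β → Rw → δ → ℝ) (lam g0 d mu : ℝ)

/-- decided, not covered -/
def As (s : ℕ) (w : Om) : Prop := tl s w ∧ ¬ Cv s w

/-- released by the exact row -/
def Dc (s : ℕ) (w : Om) : Prop := dec P R (2 * lam) (fun w => (B w, C w)) (As tl Cv) ψ s w

/-- light row -/
def Lg (s : ℕ) (w : Om) : Prop := lgt P (fun w => (B w, C w)) (As tl Cv) tl R g0 s w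

/-- **heavy rows which are not released**, signed -/
def Hv (s : ℕ) (w : Om) : Prop :=
  ¬ Dc P B C tl Cv R ψ lam s w ∧ ¬ Lg P B C tl Cv R g0 s w ∧ d < DDs P B C tl s w ∧
    cmS P B C D tl Cv mr Gr ps lam (g0 ^ 2 / 4) s w ≤ mu

/-- **heavy rows**, unsigned -/
def HvU (s : ℕ) (w : Om) : Prop :=
  ¬ Lg P B C tl Cv R g0 s w ∧ d < DDs P B C tl s w ∧ cmU P B C D tl Cv mr Gr (g0 ^ 2 / 2) s w ≤ mu

variable {P B C D tl Cv R ψ mr Gr ps lam g0 d mu}

theorem As_one (t1 : ∀ w i j, tl i w → tl j w → i = j) (w : Om) (s s' : ℕ) (a : As tl Cv s w) (b : As tl Cv s' w) :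
    s = s' := t1 w s s' a.1 b.1

theorem cmS_fac (g : ℝ) (s : ℕ) (v w : Om) (e : (B v, C v) = (B w, C w)) :
    cmS P B C D tl Cv mr Gr ps lam g s v = cmS P B C D tl Cv mr Gr ps lam g s w := by
  have e' : B v = B w ∧ C v = C w := Prod.mk.injEq _ _ _ _ ▸ e
  unfold cmS
  rw [e'.1, e'.2]
  congr 1
  funext ρ
  rw [mR_fac s ρ v w e, sR_fac s ρ v w e, DDs_fac s v w e]

theorem cmU_fac (g : ℝ) (s : ℕ) (v w : Om) (e : (B v, C v) = (B w, C w)) :
    cmU P B C D tl Cv mr Gr g s v = cmU P B C D tl Cv mr Gr g s w := by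
  have e' : B v = B w ∧ C v = C w := Prod.mk.injEq _ _ _ _ ▸ e
  unfold cmU
  rw [e'.1, e'.2]
  congr 1
  funext ρ
  rw [mR_fac s ρ v w e, DDs_fac s v w e]

theorem Hv_fac (s : ℕ) (v w : Om) (e : (B v, C v) = (B w, C w)) :
    Hv P B C D tl Cv R ψ mr Gr ps lam g0 d mu s v ↔ Hv P B C D tl Cv R ψ mr Gr ps lam g0 d mu s w := by
  unfold Hv Dc Lg
  rw [dec_fac (Z := fun w => (B w, C w)) s v w e, lgt_fac (Z := fun w => (B w, C w)) s v w e, DDs_fac s v w e,
    cmS_fac _ s v w e]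

theorem HvU_fac (s : ℕ) (v w : Om) (e : (B v, C v) = (B w, C w)) :
    HvU P B C D tl Cv R mr Gr g0 d mu s v ↔ HvU P B C D tl Cv R mr Gr g0 d mu s w := by
  unfold HvU Lg
  rw [lgt_fac (Z := fun w => (B w, C w)) s v w e, DDs_fac s v w e, cmU_fac _ s v w e]

/-- splitting of one side -/
theorem side_split (t1 : ∀ w i j, tl i w → tl j w → i = j) {L : ℝ} (L0 : 0 ≤ L) (hL : ∀ w, R w → ψ w ≤ L)
    (S : ℕ → Om → Prop) :
    P.E (fun w => ind (R w ∧ ∃ s, As tl Cv s w) * ψ w) ≤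
      P.E (fun w => ind (R w ∧ ∃ s, As tl Cv s w ∧ S s w) * ψ w) +
        L * P.Pr (fun w => R w ∧ ∃ s, As tl Cv s w ∧ ¬ S s w) := by
  unfold FP.Pr
  rw [← FP.E_smul, ← FP.E_add]
  refine P.E_mono fun w _ => ?_
  by_cases h : R w ∧ ∃ s, As tl Cv s w
  · obtain ⟨hR, s, hs⟩ := h
    rw [ind_of (⟨hR, s, hs⟩ : R w ∧ ∃ s, As tl Cv s w), one_mul]
    by_cases h1 : S s w
    · rw [ind_of (⟨hR, s, hs, h1⟩ : R w ∧ ∃ s, As tl Cv s w ∧ S s w), one_mul]
      have := mul_nonneg L0 (ind_nonneg (R w ∧ ∃ s, As tl Cv s w ∧ ¬ S s w))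
      linarith
    · rw [ind_of (⟨hR, s, hs, h1⟩ : R w ∧ ∃ s, As tl Cv s w ∧ ¬ S s w),
        ind_not (fun ⟨_, s', hs', h'⟩ => h1 ((As_one t1 w s' s hs' hs) ▸ h') :
          ¬ (R w ∧ ∃ s, As tl Cv s w ∧ S s w)), zero_mul, zero_add, mul_one]
      exact hL w hR
  · rw [ind_not h, zero_mul, ind_not (fun ⟨a, s, b, _⟩ => h ⟨a, s, b⟩ : ¬ (R w ∧ ∃ s, As tl Cv s w ∧ S s w)), zero_mul,
      zero_add]
    exact mul_nonneg L0 (ind_nonneg _)

/-- **ONE SIDE IN THE WORLD OF THE START**, signed -/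
theorem world_side (t1 : ∀ w i j, tl i w → tl j w → i = j) {T : ℕ} (tT : ∀ w s, tl s w → s < T) (g00 : 0 ≤ g0)
    (d0 : 0 ≤ d) {L : ℝ} (L0 : 0 ≤ L) (hL : ∀ w, R w → ψ w ≤ L) :
    P.E (fun w => ind (R w ∧ ∃ s, As tl Cv s w) * ψ w) ≤
      2 * lam * P.Pr (fun w => R w ∧ ∃ s, As tl Cv s w ∧ Dc P B C tl Cv R ψ lam s w) +
        L * (g0 * P.Pr (fun w => ∃ s, tl s w) + d + ∑ s ∈ range T, P.Pr (fun w => tl s w ∧
          mu < cmS P B C D tl Cv mr Gr ps lam (g0 ^ 2 / 4) s w) +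
          P.Pr (fun w => R w ∧ ∃ s, As tl Cv s w ∧ Hv P B C D tl Cv R ψ mr Gr ps lam g0 d mu s w)) := by
  have A1 : ∀ w s s', As tl Cv s w → As tl Cv s' w → s = s' := fun w s s' a b => As_one t1 w s s' a b
  have AT : ∀ w s, As tl Cv s w → s < T := fun w s a => tT w s a.1
  have h1 := side_split (P := P) (R := R) (ψ := ψ) (tl := tl) (Cv := Cv) t1 L0 hL (Dc P B C tl Cv R ψ lam)
  have h2 := side_signed (P := P) (R := R) (L := 2 * lam) (Z := fun w => (B w, C w)) (A := As tl Cv) (ψ := ψ) (T := T)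
    A1 AT
  have h3 := light_le (P := P) (Z := fun w => (B w, C w)) (A := As tl Cv) (tk := tl) (R := R) (g0 := g0) (T := T) g00
    A1 AT (fun w s s' a b => t1 w s s' a b) (fun w s a => tT w s a)
  have h4 := tiny_le (P := P) (B := B) (C := C) (A := tl) (d := d) d0 T
  have h5 : P.Pr (fun w => R w ∧ ∃ s, As tl Cv s w ∧ ¬ Dc P B C tl Cv R ψ lam s w) ≤
      P.Pr (fun w => ∃ s, As tl Cv s w ∧ Lg P B C tl Cv R g0 s w ∧ R w) +
        ∑ s ∈ range T, P.Pr (fun w => tl s w ∧ DDs P B C tl s w ≤ d) +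
        ∑ s ∈ range T, P.Pr (fun w => tl s w ∧ mu < cmS P B C D tl Cv mr Gr ps lam (g0 ^ 2 / 4) s w) +
        P.Pr (fun w => R w ∧ ∃ s, As tl Cv s w ∧ Hv P B C D tl Cv R ψ mr Gr ps lam g0 d mu s w) := by
    unfold FP.Pr
    rw [← P.E_sum, ← P.E_sum, ← FP.E_add, ← FP.E_add, ← FP.E_add]
    refine P.E_mono fun w _ => ?_
    have n1 := ind_nonneg (∃ s, As tl Cv s w ∧ Lg P B C tl Cv R g0 s w ∧ R w)
    have n2 : 0 ≤ ∑ s ∈ range T, ind (tl s w ∧ DDs P B C tl s w ≤ d) := Finset.sum_nonneg fun _ _ => ind_nonneg _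
    have n3 : 0 ≤ ∑ s ∈ range T, ind (tl s w ∧ mu < cmS P B C D tl Cv mr Gr ps lam (g0 ^ 2 / 4) s w) :=
      Finset.sum_nonneg fun _ _ => ind_nonneg _
    have n4 := ind_nonneg (R w ∧ ∃ s, As tl Cv s w ∧ Hv P B C D tl Cv R ψ mr Gr ps lam g0 d mu s w)
    by_cases h : R w ∧ ∃ s, As tl Cv s w ∧ ¬ Dc P B C tl Cv R ψ lam s w
    · obtain ⟨hR, s, hs, hd⟩ := h
      have hsT : s ∈ range T := mem_range.2 (tT w s hs.1)
      rw [ind_of (⟨hR, s, hs, hd⟩ : R w ∧ ∃ s, As tl Cv s w ∧ ¬ Dc P B C tl Cv R ψ lam s w)]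
      by_cases c1 : Lg P B C tl Cv R g0 s w
      · have : ind (∃ s, As tl Cv s w ∧ Lg P B C tl Cv R g0 s w ∧ R w) = 1 := ind_of ⟨s, hs, c1, hR⟩
        linarith
      by_cases c2 : DDs P B C tl s w ≤ d
      · have h6 : ind (tl s w ∧ DDs P B C tl s w ≤ d) = 1 := ind_of ⟨hs.1, c2⟩
        have h7 := Finset.single_le_sum (f := fun s => ind (tl s w ∧ DDs P B C tl s w ≤ d))
          (fun _ _ => ind_nonneg _) hsT
        linarith
      by_cases c3 : mu < cmS P B C D tl Cv mr Gr ps lam (g0 ^ 2 / 4) s w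
      · have h6 : ind (tl s w ∧ mu < cmS P B C D tl Cv mr Gr ps lam (g0 ^ 2 / 4) s w) = 1 := ind_of ⟨hs.1, c3⟩
        have h7 := Finset.single_le_sum (f := fun s => ind (tl s w ∧
          mu < cmS P B C D tl Cv mr Gr ps lam (g0 ^ 2 / 4) s w)) (fun _ _ => ind_nonneg _) hsT
        linarith
      · have : ind (R w ∧ ∃ s, As tl Cv s w ∧ Hv P B C D tl Cv R ψ mr Gr ps lam g0 d mu s w) = 1 :=
          ind_of ⟨hR, s, hs, hd, c1, not_le.1 c2, not_lt.1 c3⟩
        linarith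
    · rw [ind_not h]
      linarith
  have h6 : P.Pr (fun w => ∃ s, As tl Cv s w ∧ Lg P B C tl Cv R g0 s w ∧ R w) ≤ g0 * P.Pr (fun w => ∃ s, tl s w) := h3
  have h7 := mul_le_mul_of_nonneg_left (h5.trans (add_le_add (add_le_add (add_le_add h6 h4) le_rfl) le_rfl)) L0
  have h8 : P.E (fun w => ind (R w ∧ ∃ s, As tl Cv s w ∧ Dc P B C tl Cv R ψ lam s w) * ψ w) ≤
      2 * lam * P.Pr (fun w => R w ∧ ∃ s, As tl Cv s w ∧ Dc P B C tl Cv R ψ lam s w) := h2
  linarith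

/-- **ONE SIDE IN THE WORLD OF THE START**, unsigned -/
theorem world_side_uns (t1 : ∀ w i j, tl i w → tl j w → i = j) {T : ℕ} (tT : ∀ w s, tl s w → s < T) (g00 : 0 ≤ g0)
    (d0 : 0 ≤ d) :
    P.Pr (fun w => R w ∧ ∃ s, As tl Cv s w) ≤
      g0 * P.Pr (fun w => ∃ s, tl s w) + d + ∑ s ∈ range T, P.Pr (fun w => tl s w ∧
          mu < cmU P B C D tl Cv mr Gr (g0 ^ 2 / 2) s w) +
          P.Pr (fun w => R w ∧ ∃ s, As tl Cv s w ∧ HvU P B C D tl Cv R mr Gr g0 d mu s w) := by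
  have A1 : ∀ w s s', As tl Cv s w → As tl Cv s' w → s = s' := fun w s s' a b => As_one t1 w s s' a b
  have AT : ∀ w s, As tl Cv s w → s < T := fun w s a => tT w s a.1
  have h3 := light_le (P := P) (Z := fun w => (B w, C w)) (A := As tl Cv) (tk := tl) (R := R) (g0 := g0) (T := T) g00
    A1 AT (fun w s s' a b => t1 w s s' a b) (fun w s a => tT w s a)
  have h4 := tiny_le (P := P) (B := B) (C := C) (A := tl) (d := d) d0 T
  have h5 : P.Pr (fun w => R w ∧ ∃ s, As tl Cv s w) ≤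
      P.Pr (fun w => ∃ s, As tl Cv s w ∧ Lg P B C tl Cv R g0 s w ∧ R w) +
        ∑ s ∈ range T, P.Pr (fun w => tl s w ∧ DDs P B C tl s w ≤ d) +
        ∑ s ∈ range T, P.Pr (fun w => tl s w ∧ mu < cmU P B C D tl Cv mr Gr (g0 ^ 2 / 2) s w) +
        P.Pr (fun w => R w ∧ ∃ s, As tl Cv s w ∧ HvU P B C D tl Cv R mr Gr g0 d mu s w) := by
    unfold FP.Pr
    rw [← P.E_sum, ← P.E_sum, ← FP.E_add, ← FP.E_add, ← FP.E_add]
    refine P.E_mono fun w _ => ?_
    have n1 := ind_nonneg (∃ s, As tl Cv s w ∧ Lg P B C tl Cv R g0 s w ∧ R w)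
    have n2 : 0 ≤ ∑ s ∈ range T, ind (tl s w ∧ DDs P B C tl s w ≤ d) := Finset.sum_nonneg fun _ _ => ind_nonneg _
    have n3 : 0 ≤ ∑ s ∈ range T, ind (tl s w ∧ mu < cmU P B C D tl Cv mr Gr (g0 ^ 2 / 2) s w) :=
      Finset.sum_nonneg fun _ _ => ind_nonneg _
    have n4 := ind_nonneg (R w ∧ ∃ s, As tl Cv s w ∧ HvU P B C D tl Cv R mr Gr g0 d mu s w)
    by_cases h : R w ∧ ∃ s, As tl Cv s w
    · obtain ⟨hR, s, hs⟩ := h
      have hsT : s ∈ range T := mem_range.2 (tT w s hs.1)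
      rw [ind_of (⟨hR, s, hs⟩ : R w ∧ ∃ s, As tl Cv s w)]
      by_cases c1 : Lg P B C tl Cv R g0 s w
      · have : ind (∃ s, As tl Cv s w ∧ Lg P B C tl Cv R g0 s w ∧ R w) = 1 := ind_of ⟨s, hs, c1, hR⟩
        linarith
      by_cases c2 : DDs P B C tl s w ≤ d
      · have h6 : ind (tl s w ∧ DDs P B C tl s w ≤ d) = 1 := ind_of ⟨hs.1, c2⟩
        have h7 := Finset.single_le_sum (f := fun s => ind (tl s w ∧ DDs P B C tl s w ≤ d))
          (fun _ _ => ind_nonneg _) hsT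
        linarith
      by_cases c3 : mu < cmU P B C D tl Cv mr Gr (g0 ^ 2 / 2) s w
      · have h6 : ind (tl s w ∧ mu < cmU P B C D tl Cv mr Gr (g0 ^ 2 / 2) s w) = 1 := ind_of ⟨hs.1, c3⟩
        have h7 := Finset.single_le_sum (f := fun s => ind (tl s w ∧
          mu < cmU P B C D tl Cv mr Gr (g0 ^ 2 / 2) s w)) (fun _ _ => ind_nonneg _) hsT
        linarith
      · have : ind (R w ∧ ∃ s, As tl Cv s w ∧ HvU P B C D tl Cv R mr Gr g0 d mu s w) = 1 :=
          ind_of ⟨hR, s, hs, c1, not_le.1 c2, not_lt.1 c3⟩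
        linarith
    · rw [ind_not h]
      linarith
  have h6 : P.Pr (fun w => ∃ s, As tl Cv s w ∧ Lg P B C tl Cv R g0 s w ∧ R w) ≤ g0 * P.Pr (fun w => ∃ s, tl s w) := h3
  linarith

/-! ### rows, columns, both covered -/

section both

variable {Rw' : Type*} [Fintype Rw'] {mr' : α → δ → FP Rw'} {Gr' : α → δ → Rw' → β → Prop}
  {ps' : α → δ → Rw' → β → ℝ} {CvC : ℕ → Om → Prop} {Jf ψc : Om → ℝ}

variable (tl Cv) in
/-- decided and covered by the cover of the rows -/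
def tc (s : ℕ) (w : Om) : Prop := tl s w ∧ Cv s w

theorem tc_one (t1 : ∀ w i j, tl i w → tl j w → i = j) (w : Om) (i j : ℕ) (a : tc tl Cv i w) (b : tc tl Cv j w) :
    i = j := t1 w i j a.1 b.1

/-- **ROWS, COLUMNS, BOTH COVERED IN THE WORLD OF THE START** : `Jf` is near to `ψ` (rows) and to `ψc` (columns) -/
theorem world_J (t1 : ∀ w i j, tl i w → tl j w → i = j) {T : ℕ} (tT : ∀ w s, tl s w → s < T) (g00 : 0 ≤ g0)
    (d0 : 0 ≤ d) {L ks : ℝ} (L0 : 0 ≤ L) (l0 : 0 ≤ lam) (k0 : 0 ≤ ks) (hL : ∀ w, R w → ψ w ≤ L)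
    (hLc : ∀ w, R w → ψc w ≤ L) (hJ : ∀ w, R w → Jf w ≤ L) (hJr : ∀ w, R w → Jf w ≤ ψ w + ks)
    (hJc : ∀ w, R w → Jf w ≤ ψc w + ks) :
    P.E (fun w => ind (R w ∧ ∃ s, tl s w) * Jf w) ≤
      (2 * lam + ks) * P.Pr (fun w => R w ∧ ∃ s, tl s w) +
        L * (g0 * P.Pr (fun w => ∃ s, tl s w) + d + ∑ s ∈ range T, P.Pr (fun w => tl s w ∧
          mu < cmS P B C D tl Cv mr Gr ps lam (g0 ^ 2 / 4) s w) +
          P.Pr (fun w => R w ∧ ∃ s, As tl Cv s w ∧ Hv P B C D tl Cv R ψ mr Gr ps lam g0 d mu s w)) +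
        L * (g0 * P.Pr (fun w => ∃ s, tc tl Cv s w) + d + ∑ s ∈ range T, P.Pr (fun w => tc tl Cv s w ∧
          mu < cmS P B D C (tc tl Cv) CvC mr' Gr' ps' lam (g0 ^ 2 / 4) s w) +
          P.Pr (fun w => R w ∧ ∃ s, As (tc tl Cv) CvC s w ∧
            Hv P B D C (tc tl Cv) CvC R ψc mr' Gr' ps' lam g0 d mu s w)) +
        L * P.Pr (fun w => ∃ s, tl s w ∧ Cv s w ∧ CvC s w ∧ R w) := by
  have h1 := world_side (P := P) (B := B) (C := C) (D := D) (tl := tl) (Cv := Cv) (R := R) (ψ := ψ) (mr := mr)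
    (Gr := Gr)
    (ps := ps) (lam := lam) (g0 := g0) (d := d) (mu := mu) t1 tT g00 d0 L0 hL
  have h2 := world_side (P := P) (B := B) (C := D) (D := C) (tl := tc tl Cv) (Cv := CvC) (R := R) (ψ := ψc) (mr := mr')
    (Gr := Gr') (ps := ps') (lam := lam) (g0 := g0) (d := d) (mu := mu) (tc_one t1) (fun w s a => tT w s a.1) g00 d0
    L0 hLc
  -- the decided tuples are the disjoint union of three parts
  have h3 : P.E (fun w => ind (R w ∧ ∃ s, tl s w) * Jf w) ≤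
      P.E (fun w => ind (R w ∧ ∃ s, As tl Cv s w) * ψ w) +
        P.E (fun w => ind (R w ∧ ∃ s, As (tc tl Cv) CvC s w) * ψc w) +
        L * P.Pr (fun w => ∃ s, tl s w ∧ Cv s w ∧ CvC s w ∧ R w) + ks * P.Pr (fun w => R w ∧ ∃ s, tl s w) := by
    unfold FP.Pr
    rw [← FP.E_smul, ← FP.E_smul, ← FP.E_add, ← FP.E_add, ← FP.E_add]
    refine P.E_mono fun w _ => ?_
    by_cases h : R w ∧ ∃ s, tl s w
    · obtain ⟨hR, s, hs⟩ := h
      rw [ind_of (⟨hR, s, hs⟩ : R w ∧ ∃ s, tl s w), one_mul, mul_one]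
      by_cases c1 : Cv s w
      · have n1 : ind (R w ∧ ∃ s, As tl Cv s w) = 0 := ind_not fun ⟨_, s', a, b⟩ => b ((t1 w s s' hs a) ▸ c1)
        by_cases c2 : CvC s w
        · have n2 : ind (R w ∧ ∃ s, As (tc tl Cv) CvC s w) = 0 :=
            ind_not fun ⟨_, s', a, b⟩ => b ((t1 w s s' hs a.1) ▸ c2)
          have n3 : ind (∃ s, tl s w ∧ Cv s w ∧ CvC s w ∧ R w) = 1 := ind_of ⟨s, hs, c1, c2, hR⟩
          have := hJ w hR
          rw [n1, n2, n3]
          linarith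
        · have n2 : ind (R w ∧ ∃ s, As (tc tl Cv) CvC s w) = 1 := ind_of ⟨hR, s, ⟨hs, c1⟩, c2⟩
          have n3 := mul_nonneg L0 (ind_nonneg (∃ s, tl s w ∧ Cv s w ∧ CvC s w ∧ R w))
          have := hJc w hR
          rw [n1, n2]
          linarith
      · have n1 : ind (R w ∧ ∃ s, As tl Cv s w) = 1 := ind_of ⟨hR, s, hs, c1⟩
        have n2 : ind (R w ∧ ∃ s, As (tc tl Cv) CvC s w) = 0 :=
          ind_not fun ⟨_, s', a, b⟩ => c1 ((t1 w s s' hs a.1) ▸ a.2)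
        have n3 := mul_nonneg L0 (ind_nonneg (∃ s, tl s w ∧ Cv s w ∧ CvC s w ∧ R w))
        have := hJr w hR
        rw [n1, n2]
        linarith
    · rw [ind_not h, zero_mul, ind_not (fun ⟨a, s, b⟩ => h ⟨a, s, b.1⟩ : ¬ (R w ∧ ∃ s, As tl Cv s w)), zero_mul,
        ind_not (fun ⟨a, s, b⟩ => h ⟨a, s, b.1.1⟩ : ¬ (R w ∧ ∃ s, As (tc tl Cv) CvC s w)), zero_mul, mul_zero]
      have n3 := mul_nonneg L0 (ind_nonneg (∃ s, tl s w ∧ Cv s w ∧ CvC s w ∧ R w))
      linarith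
  -- the released parts are disjoint
  have h4 : P.Pr (fun w => R w ∧ ∃ s, As tl Cv s w ∧ Dc P B C tl Cv R ψ lam s w) +
      P.Pr (fun w => R w ∧ ∃ s, As (tc tl Cv) CvC s w ∧ Dc P B D (tc tl Cv) CvC R ψc lam s w) ≤
      P.Pr (fun w => R w ∧ ∃ s, tl s w) := by
    unfold FP.Pr
    rw [← FP.E_add]
    refine P.E_mono fun w _ => ?_
    by_cases a : R w ∧ ∃ s, As tl Cv s w ∧ Dc P B C tl Cv R ψ lam s w
    · have b : ¬ (R w ∧ ∃ s, As (tc tl Cv) CvC s w ∧ Dc P B D (tc tl Cv) CvC R ψc lam s w) := by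
        rintro ⟨_, s', ⟨⟨a1, a2⟩, _⟩, _⟩
        obtain ⟨_, s, ⟨b1, b2⟩, _⟩ := a
        exact b2 ((t1 w s s' b1 a1) ▸ a2)
      rw [ind_of a, ind_not b, add_zero]
      obtain ⟨hR, s, b1, _⟩ := a
      exact (ind_of (⟨hR, s, b1.1⟩ : R w ∧ ∃ s, tl s w)).ge
    · rw [ind_not a, zero_add]
      exact ind_mono fun ⟨hR, s, b, _⟩ => ⟨hR, s, b.1.1⟩
  have h5 := mul_le_mul_of_nonneg_left h4 (show 0 ≤ 2 * lam by linarith)
  linarith

/-- **THE SAME, UNSIGNED** -/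
theorem world_U (t1 : ∀ w i j, tl i w → tl j w → i = j) {T : ℕ} (tT : ∀ w s, tl s w → s < T) (g00 : 0 ≤ g0)
    (d0 : 0 ≤ d) :
    P.Pr (fun w => R w ∧ ∃ s, tl s w) ≤
      (g0 * P.Pr (fun w => ∃ s, tl s w) + d + ∑ s ∈ range T, P.Pr (fun w => tl s w ∧
          mu < cmU P B C D tl Cv mr Gr (g0 ^ 2 / 2) s w) +
          P.Pr (fun w => R w ∧ ∃ s, As tl Cv s w ∧ HvU P B C D tl Cv R mr Gr g0 d mu s w)) +
        (g0 * P.Pr (fun w => ∃ s, tc tl Cv s w) + d + ∑ s ∈ range T, P.Pr (fun w => tc tl Cv s w ∧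
          mu < cmU P B D C (tc tl Cv) CvC mr' Gr' (g0 ^ 2 / 2) s w) +
          P.Pr (fun w => R w ∧ ∃ s, As (tc tl Cv) CvC s w ∧ HvU P B D C (tc tl Cv) CvC R mr' Gr' g0 d mu s w)) +
        P.Pr (fun w => ∃ s, tl s w ∧ Cv s w ∧ CvC s w ∧ R w) := by
  have h1 := world_side_uns (P := P) (B := B) (C := C) (D := D) (tl := tl) (Cv := Cv) (R := R) (mr := mr) (Gr := Gr)
    (g0 := g0) (d := d) (mu := mu) t1 tT g00 d0
  have h2 := world_side_uns (P := P) (B := B) (C := D) (D := C) (tl := tc tl Cv) (Cv := CvC) (R := R) (mr := mr')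
    (Gr := Gr') (g0 := g0) (d := d) (mu := mu) (tc_one t1) (fun w s a => tT w s a.1) g00 d0
  have h3 : P.Pr (fun w => R w ∧ ∃ s, tl s w) ≤
      P.Pr (fun w => R w ∧ ∃ s, As tl Cv s w) + P.Pr (fun w => R w ∧ ∃ s, As (tc tl Cv) CvC s w) +
        P.Pr (fun w => ∃ s, tl s w ∧ Cv s w ∧ CvC s w ∧ R w) := by
    unfold FP.Pr
    rw [← FP.E_add, ← FP.E_add]
    refine P.E_mono fun w _ => ?_
    have n1 := ind_nonneg (R w ∧ ∃ s, As tl Cv s w)
    have n2 := ind_nonneg (R w ∧ ∃ s, As (tc tl Cv) CvC s w)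
    have n3 := ind_nonneg (∃ s, tl s w ∧ Cv s w ∧ CvC s w ∧ R w)
    by_cases h : R w ∧ ∃ s, tl s w
    · obtain ⟨hR, s, hs⟩ := h
      rw [ind_of (⟨hR, s, hs⟩ : R w ∧ ∃ s, tl s w)]
      by_cases c1 : Cv s w
      · by_cases c2 : CvC s w
        · have : ind (∃ s, tl s w ∧ Cv s w ∧ CvC s w ∧ R w) = 1 := ind_of ⟨s, hs, c1, c2, hR⟩
          linarith
        · have : ind (R w ∧ ∃ s, As (tc tl Cv) CvC s w) = 1 := ind_of ⟨hR, s, ⟨hs, c1⟩, c2⟩
          linarith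
      · have : ind (R w ∧ ∃ s, As tl Cv s w) = 1 := ind_of ⟨hR, s, hs, c1⟩
        linarith
    · rw [ind_not h]
      linarith
  linarith

end both

variable {Kr : FP δ} {own : α → β → Rw} {Va : α → δ → Prop}

/-- **the data of a heavy row**, signed -/
theorem row1_Hv (hR : ∀ g : δ → ℝ, P.E (fun w => g (D w)) = Kr.E g) (hI : P.Indep D (fun w => (B w, C w)))
    (t1 : ∀ w i j, tl i w → tl j w → i = j)
    (hA : ∀ s x y, B x = B y → C x = C y → D x = D y → (gh tl Cv s x ↔ gh tl Cv s y))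
    (hRr : ∀ y, P.p y ≠ 0 → (R y ↔ Gr (B y) (C y) (own (B y) (C y)) (D y)))
    (hψ : ∀ y, P.p y ≠ 0 → R y → ψ y = ps (B y) (C y) (own (B y) (C y)) (D y))
    (hVa : ∀ s y, P.p y ≠ 0 → gh tl Cv s y → Va (B y) (D y)) (l0 : 0 ≤ lam) (g00 : 0 < g0) (d0 : 0 < d) {s : ℕ}
    {x : Om} (hx : P.p x ≠ 0) (h : Hv P B C D tl Cv R ψ mr Gr ps lam g0 d mu s x) :
    Row1 Kr univ (GhoC.hiS lam g0) (GhoC.loS lam g0) mu (mr (B x) (C x))
      (fun i ρ y => GhoC.tsS lam (ind (Gr (B x) (C x) ρ y)) (ind (Gr (B x) (C x) ρ y) * ps (B x) (C x) ρ y) i)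
      (own (B x) (C x)) (Va (B x)) (g0 * d) (SSf P B C D tl Cv s x) := by
  obtain ⟨h1, h2, h3, h4⟩ := h
  refine row1_signed (R := Kr) (Rr := R) (ψ := ψ) hR hI t1 hA hRr hψ hVa l0 g00.le (mul_pos g00 d0) hx ?_ ?_
    (mul_le_mul_of_nonneg_left h3.le g00.le) h4
  · have h5 := not_le.1 h1
    have h6 : 2 * lam * ∑ i ∈ range (s + 1), P.ce (fun w => (B w, C w)) (fun y => ind (As tl Cv i y ∧ R y)) x <
        ∑ i ∈ range (s + 1), P.ce (fun w => (B w, C w)) (fun y => ind (As tl Cv i y) * (ind (R y) * ψ y)) x := h5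
    have h7 : 2 * (lam * ∑ i ∈ range (s + 1), P.ce (fun w => (B w, C w)) (fun y => ind ((tl i y ∧ ¬ Cv i y) ∧ R y)) x) =
        2 * lam * ∑ i ∈ range (s + 1), P.ce (fun w => (B w, C w)) (fun y => ind (As tl Cv i y ∧ R y)) x := by
      unfold As
      ring
    rw [h7]
    exact h6.le
  · have h5 := not_lt.1 h2
    have h6 : ∑ i ∈ range (s + 1), g0 * P.ce (fun w => (B w, C w)) (fun x => ind (tl i x)) x ≤
        ∑ i ∈ range (s + 1), P.ce (fun w => (B w, C w)) (fun x => ind (As tl Cv i x ∧ R x)) x := h5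
    rw [← Finset.mul_sum] at h6
    exact h6

/-- **the data of a heavy row**, unsigned -/
theorem row1_HvU (hR : ∀ g : δ → ℝ, P.E (fun w => g (D w)) = Kr.E g) (hI : P.Indep D (fun w => (B w, C w)))
    (t1 : ∀ w i j, tl i w → tl j w → i = j)
    (hA : ∀ s x y, B x = B y → C x = C y → D x = D y → (gh tl Cv s x ↔ gh tl Cv s y))
    (hRr : ∀ y, P.p y ≠ 0 → (R y ↔ Gr (B y) (C y) (own (B y) (C y)) (D y)))
    (hVa : ∀ s y, P.p y ≠ 0 → gh tl Cv s y → Va (B y) (D y)) (g00 : 0 < g0) (d0 : 0 < d) {s : ℕ}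
    {x : Om} (hx : P.p x ≠ 0) (h : HvU P B C D tl Cv R mr Gr g0 d mu s x) :
    Row1 Kr (univ : Finset Unit) (fun _ => g0) (fun _ => g0 / 2) mu (mr (B x) (C x))
      (fun _ ρ y => ind (Gr (B x) (C x) ρ y)) (own (B x) (C x)) (Va (B x)) (g0 * d) (SSf P B C D tl Cv s x) := by
  obtain ⟨h2, h3, h4⟩ := h
  refine row1_uns (R := Kr) (Rr := R) hR hI t1 hA hRr hVa g00.le (mul_pos g00 d0) hx ?_
    (mul_le_mul_of_nonneg_left h3.le g00.le) h4
  have h5 := not_lt.1 h2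
  have h6 : ∑ i ∈ range (s + 1), g0 * P.ce (fun w => (B w, C w)) (fun x => ind (tl i x)) x ≤
      ∑ i ∈ range (s + 1), P.ce (fun w => (B w, C w)) (fun x => ind (As tl Cv i x ∧ R x)) x := h5
  rw [← Finset.mul_sum] at h6
  exact h6

end world

/-! ## (B) the world of the public start: thin covers -/

section thin

open Pool.Agent.GMH.GhoA
open Pool.Agent.GMH.Take (xb bc xb_eq bc_eq xb_filt bc_filt bc_xb bc_nd xb_nd)

variable {Om : Type*} [Fintype Om] {P : FP Om} {κ κ' κ'' : ℕ → Type*} {cB : ∀ t, Om → κ t} {cC : ∀ t, Om → κ' t}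
  {cD : ∀ t, Om → κ'' t} {α β δ : Type*} {B : Om → α} {C : Om → β} {D : Om → δ} {h : ℝ} {R : Om → Prop}
  {u0 uc u : ℝ} {σ : Om → ℕ} {T : ℕ} {tk G : ℕ → Om → Prop}

theorem hvG_zero {ρ : Type*} {Z : Om → ρ} {A tl : ℕ → Om → Prop} (G : ℕ → Om → Prop) :
    hvG P Z R 0 A tl (fun s w => ¬ G s w) = G := by
  funext s w
  refine propext ⟨fun h => not_not.1 h.1, fun h => ⟨not_not.2 h, ?_⟩⟩
  unfold lgt
  refine not_lt.2 ?_
  rw [Finset.sum_eq_zero (fun i _ => zero_mul _)]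
  exact Finset.sum_nonneg fun _ _ => P.ce_nonneg (fun _ _ => ind_nonneg _) _

/-- **HEAVY ROWS AT THE VERTEX TIME** : uncovered, or covered by the thin cover; `G s` seen by `(b, c)` -/
theorem heavy_rows (H : Fr P B C D cB cC cD h) (hσ : Stp (nd cB cC cD) σ) (hT : ∀ w, σ w < T) (c0 : 0 < uc)
    (u00 : 0 < u) (z0 : 0 ≤ u0) (k1 : ∀ w s s', tk s w → tk s' w → s = s') (kσ : ∀ w s, tk s w → s ≤ σ w)
    (kal : ∀ w s, tk s w → al P (nd cB cC cD) R u0 s w)
    (kx : ∀ s x w, xb B cC cD s x = xb B cC cD s w → (tk s x ↔ tk s w))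
    (hG : ∀ s x w, (B x, C x) = (B w, C w) → (G s x ↔ G s w)) {M : ℕ} (z : Fin M → α) :
    P.Pr (fun w => R w ∧ ∃ s, tk s w ∧ G s w) ≤
      (u / 2 * P.Pr (fun w => ∃ s, tk s w) + P.Pr (bdt P cC B C G u z T)) +
        (uc + u0 / (uc * (u / 2))) * P.Pr (fun w => Kt P cC B C G u z (σ w) w) := by
  have h1 := side (P := P) (cV := cC) (U := B) (U2 := D) (V := C) (Vs := xb C cB cD) (Y := bc B D cC)
    (nd := nd cB cC cD)
    (Z := fun w => (B w, C w)) (R := R) (u0 := u0) (uc := uc) (u := u) (g0 := 0) (σ := σ) (T := T)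
    (A := tk) (tk := tk) (tl := tk) (S := fun s w => ¬ G s w) H.iC.symm H.hC
    (fun t v w e => by
      have e' := bc_eq.1 e
      exact bc_eq.2 ⟨e'.1, e'.2.1, H.fC t v w e'.2.2⟩)
    (fun s v w e => by
      have e' := bc_eq.1 e
      exact nd_eq.2 ⟨H.hB s v w e'.1, e'.2.2, H.hD s v w e'.2.1⟩)
    (fun s v w e => by
      have e' := bc_eq.1 e
      show ((B v, D v), cC s v) = ((B w, D w), cC s w)
      rw [e'.1, e'.2.1, e'.2.2])
    (fun s v w e => by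
      have e' : (B v, D v) = (B w, D w) ∧ cC s v = cC s w := Prod.mk.injEq _ _ _ _ ▸ e
      have e2 : B v = B w ∧ D v = D w := Prod.mk.injEq _ _ _ _ ▸ e'.1
      exact bc_eq.2 ⟨e2.1, e2.2, e'.2⟩)
    (fun t v w e => by
      have e' := xb_eq.1 e
      exact xb_eq.2 ⟨e'.1, H.fB t v w e'.2.1, H.fD t v w e'.2.2⟩)
    (fun s v w e => by
      have e' := xb_eq.1 e
      exact nd_eq.2 ⟨e'.2.1, H.hC s v w e'.1, e'.2.2⟩)
    (fun s v w e => (xb_eq.1 e).1) (nd_filt H.fB H.fC H.fD) (ce_nC H) (Fac.refl _)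
    (fun s x w e => not_congr (hG s x w e)) hσ hT c0 u00 z0 le_rfl k1 kσ (fun w s a => a) kal k1 kσ k1
    (fun s x w e => kx s x w (by
      have e' := bc_eq.1 e
      exact xb_eq.2 ⟨e'.1, e'.2.2, H.hD s x w e'.2.1⟩)) z
  rw [hvG_zero] at h1
  have e1 : P.Pr (fun w => R w ∧ ∃ s, tk s w ∧ ¬ ¬ G s w) = P.Pr (fun w => R w ∧ ∃ s, tk s w ∧ G s w) := by
    unfold FP.Pr
    refine P.E_congr fun w _ => ?_
    congr 1
    exact propext ⟨fun ⟨a, s, b, c⟩ => ⟨a, s, b, not_not.1 c⟩, fun ⟨a, s, b, c⟩ => ⟨a, s, b, not_not.2 c⟩⟩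
  have e2 : P.Pr (fun w => ∃ s ≤ σ w, tk s w) ≤ P.Pr (fun w => ∃ s, tk s w) :=
    P.Pr_mono fun w _ ⟨s, _, b⟩ => ⟨s, b⟩
  have e3 := mul_le_mul_of_nonneg_left e2 (show 0 ≤ u / 2 by positivity)
  rw [e1, zero_mul, zero_add] at h1
  linarith

/-- **HEAVY COLUMNS AT THE VERTEX TIME**, `G s` seen by `(b, d)` -/
theorem heavy_cols (H : Fr P B C D cB cC cD h) (hσ : Stp (nd cB cC cD) σ) (hT : ∀ w, σ w < T) (c0 : 0 < uc)
    (u00 : 0 < u) (z0 : 0 ≤ u0) (k1 : ∀ w s s', tk s w → tk s' w → s = s') (kσ : ∀ w s, tk s w → s ≤ σ w)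
    (kal : ∀ w s, tk s w → al P (nd cB cC cD) R u0 s w)
    (kx : ∀ s x w, xb B cC cD s x = xb B cC cD s w → (tk s x ↔ tk s w))
    (hG : ∀ s x w, (B x, D x) = (B w, D w) → (G s x ↔ G s w)) {M : ℕ} (z : Fin M → α) :
    P.Pr (fun w => R w ∧ ∃ s, tk s w ∧ G s w) ≤
      (u / 2 * P.Pr (fun w => ∃ s, tk s w) + P.Pr (bdt P cD B D G u z T)) +
        (uc + u0 / (uc * (u / 2))) * P.Pr (fun w => Kt P cD B D G u z (σ w) w) := by
  have h1 := side (P := P) (cV := cD) (U := B) (U2 := C) (V := D) (Vs := xb D cB cC) (Y := bc B C cD)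
    (nd := nd cB cC cD)
    (Z := fun w => (B w, D w)) (R := R) (u0 := u0) (uc := uc) (u := u) (g0 := 0) (σ := σ) (T := T)
    (A := tk) (tk := tk) (tl := tk) (S := fun s w => ¬ G s w) H.iD H.hD
    (bc_filt H) (fun s v w e => bc_nd H e)
    (fun s v w e => by
      have e' := bc_eq.1 e
      show ((B v, C v), cD s v) = ((B w, C w), cD s w)
      rw [e'.1, e'.2.1, e'.2.2])
    (fun s v w e => by
      have e' : (B v, C v) = (B w, C w) ∧ cD s v = cD s w := Prod.mk.injEq _ _ _ _ ▸ e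
      have e2 : B v = B w ∧ C v = C w := Prod.mk.injEq _ _ _ _ ▸ e'.1
      exact bc_eq.2 ⟨e2.1, e2.2, e'.2⟩)
    (fun t v w e => by
      have e' := xb_eq.1 e
      exact xb_eq.2 ⟨e'.1, H.fB t v w e'.2.1, H.fC t v w e'.2.2⟩)
    (fun s v w e => by
      have e' := xb_eq.1 e
      exact nd_eq.2 ⟨e'.2.1, e'.2.2, H.hD s v w e'.1⟩)
    (fun s v w e => (xb_eq.1 e).1) (nd_filt H.fB H.fC H.fD) (ce_nD H) (Fac.refl _)
    (fun s x w e => not_congr (hG s x w e)) hσ hT c0 u00 z0 le_rfl k1 kσ (fun w s a => a) kal k1 kσ k1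
    (fun s x w e => kx s x w (bc_xb H s x w e)) z
  rw [hvG_zero] at h1
  have e1 : P.Pr (fun w => R w ∧ ∃ s, tk s w ∧ ¬ ¬ G s w) = P.Pr (fun w => R w ∧ ∃ s, tk s w ∧ G s w) := by
    unfold FP.Pr
    refine P.E_congr fun w _ => ?_
    congr 1
    exact propext ⟨fun ⟨a, s, b, c⟩ => ⟨a, s, b, not_not.1 c⟩, fun ⟨a, s, b, c⟩ => ⟨a, s, b, not_not.2 c⟩⟩
  have e2 : P.Pr (fun w => ∃ s ≤ σ w, tk s w) ≤ P.Pr (fun w => ∃ s, tk s w) :=
    P.Pr_mono fun w _ ⟨s, _, b⟩ => ⟨s, b⟩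
  have e3 := mul_le_mul_of_nonneg_left e2 (show 0 ≤ u / 2 by positivity)
  rw [e1, zero_mul, zero_add] at h1
  linarith

/-! ### the samples, the payment of the thin cover -/

/-- **a good sample** -/
theorem good_z [Fintype α] (hI : P.Indep B C) (hC : ∀ s, Fac C (cC s)) (fC : Filt cC) (u00 : 0 < u) (M T : ℕ) :
    ∃ z : Fin M → α, P.Pr (bdt P cC B C G u z T) ≤ 2 / (u * (M + 1)) := by
  have h1 := bad_z (P := P) (cV := cC) (U := B) (V := C) (G := G) (u := u) hI hC fC u00 M T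
  have h2 : ∑ z : Fin M → α, sw (fun a => P.Pr (fun w => B w = a)) z = 1 := sw_sum (sum_Pr_eq B) M
  by_contra hcon
  push Not at hcon
  have h3 : ∑ z : Fin M → α, sw (fun a => P.Pr (fun w => B w = a)) z * (2 / (u * (M + 1))) <
      ∑ z : Fin M → α, sw (fun a => P.Pr (fun w => B w = a)) z * P.Pr (bdt P cC B C G u z T) := by
    obtain ⟨z0, hz0⟩ : ∃ z : Fin M → α, 0 < sw (fun a => P.Pr (fun w => B w = a)) z := by
      by_contra h4
      push Not at h4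
      have : ∑ z : Fin M → α, sw (fun a => P.Pr (fun w => B w = a)) z ≤ 0 := Finset.sum_nonpos fun z _ => h4 z
      linarith
    refine Finset.sum_lt_sum (fun z _ => mul_le_mul_of_nonneg_left (hcon z).le
      (sw_nonneg (fun a => P.Pr_nonneg _) z)) ⟨z0, mem_univ _, mul_lt_mul_of_pos_left (hcon z0) hz0⟩
  rw [← Finset.sum_mul, h2, one_mul] at h3
  linarith

/-- **the thin cover at a stopping time of the nodes is paid by the potential** of GMH/GhoF -/
theorem Kt_pay {ν : ℕ → Type*} {nd : ∀ t, Om → ν t} (fnd : Filt nd) (hC : ∀ s, Fac C (cC s))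
    (hc : ∀ s (f : Om → ℝ), Fac C f → ∀ w, P.p w ≠ 0 → P.ce (nd s) f w = P.ce (cC s) f w) {Λ : Type*} [Fintype Λ]
    {lab : ℕ → Om → Λ} (hlab : ∀ s x y, P.p x ≠ 0 → P.p y ≠ 0 → B x = B y → C x = C y → lab s x = lab s y) {M : ℕ}
    (z : Fin M → α) {v : ℝ}
    (hv : ∀ s r w, P.p w ≠ 0 → v * ((univ.filter fun p => 0 < cp P cC s (GhoF.pl P cC u (rowsT (GF P B C G) z) M
      (GhoF.Lab P B C G z lab) s r p) w).card : ℝ) ≤ u / 4) (u00 : 0 ≤ u) (hσ : Stp nd σ) :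
    P.Pr (fun w => Kt P cC B C G u z (σ w) w) ≤
      2 * P.E (fun w => GhoF.PhV P cC u (rowsT (GF P B C G) z) M (GhoF.Lab P B C G z lab) v (σ w) w) := by
  classical
  set H := rowsT (GF P B C G) z with hH
  have hH' : ∀ s r x y, C x = C y → (H s r x ↔ H s r y) := fun s r x y e => rowsGF_fac z s r x y e
  have hLf : ∀ s r p x y, C x = C y → (GhoF.Lab P B C G z lab s r p x ↔ GhoF.Lab P B C G z lab s r p y) := by
    intro s r p x y e
    unfold GhoF.Lab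
    rw [e]
  have hcA : ∀ s (A : Om → Prop), (∀ x y, C x = C y → (A x ↔ A y)) → ∀ w, P.p w ≠ 0 → cp P nd s A w = cp P cC s A w :=
    fun s A hA w hw => hc s _ (Fac.ind hA) w hw
  -- the covers of the two sights are the same on the support
  have eCv : ∀ s r w, P.p w ≠ 0 → (CvT P nd u H M s r w ↔ CvT P cC u H M s r w) := fun s r w hw =>
    CvT_change hcA hC hH' s r w hw
  have etk : ∀ s r w, P.p w ≠ 0 → (tkT P nd u H M s r w ↔ tkT P cC u H M s r w) := by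
    intro s r w hw
    show u / 2 ≤ cp P nd s (fun v => H s r v ∧ ¬ CvT P nd u H M s r v) w ↔
      u / 2 ≤ cp P cC s (fun v => H s r v ∧ ¬ CvT P cC u H M s r v) w
    rw [cp_congr_on (A := fun v => H s r v ∧ ¬ CvT P nd u H M s r v)
      (B := fun v => H s r v ∧ ¬ CvT P cC u H M s r v) (fun v hv _ => by rw [eCv s r v hv]),
      hcA s (fun v => H s r v ∧ ¬ CvT P cC u H M s r v) (fun x y e => by
        rw [hH' s r x y e, CvT_facV hC hH' s r x y e]) w hw]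
  have enw : ∀ s r w, P.p w ≠ 0 → (nwT P nd u H M s r w ↔ nwT P cC u H M s r w) := by
    intro s r w hw
    unfold nwT
    rw [eCv s r w hw, etk s r w hw]
  have ecp : ∀ t s r p w, P.p w ≠ 0 → cp P nd t (GhoF.pl P nd u H M (GhoF.Lab P B C G z lab) s r p) w =
      cp P cC t (GhoF.pl P cC u H M (GhoF.Lab P B C G z lab) s r p) w := by
    intro t s r p w hw
    rw [← hcA t (GhoF.pl P cC u H M (GhoF.Lab P B C G z lab) s r p) (fun x y e => by
      unfold GhoF.pl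
      rw [GhoF.nwT_facV hC e, hLf s r p x y e]) w hw]
    refine cp_congr_on fun x hx _ => ?_
    unfold GhoF.pl
    rw [enw s r x hx]
  have h1 := GhoF.covV_le (P := P) (X := nd) (u := u) (H := H) (M := M) (Lb := GhoF.Lab P B C G z lab) (v := v) fnd
    (fun s r w h => by
      obtain ⟨h1, v, hv, hB, hC', hG⟩ := h.1
      refine ⟨lab s v, ⟨v, hv, ⟨h1, hB⟩, hC', hG, rfl⟩, ?_⟩
      rintro p' ⟨y, hy, ⟨_, hB'⟩, hC'', _, rfl⟩
      exact hlab s y v hy hv (hB'.trans hB.symm) (hC''.trans hC'.symm))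
    (fun s r w => by
      by_cases hw : ∃ w', P.p w' ≠ 0 ∧ nd s w' = nd s w
      · obtain ⟨w', hw', e⟩ := hw
        have e2 : ∀ p, cp P nd s (GhoF.pl P nd u H M (GhoF.Lab P B C G z lab) s r p) w =
            cp P cC s (GhoF.pl P cC u H M (GhoF.Lab P B C G z lab) s r p) w' := fun p => by
          rw [← ecp s s r p w' hw']
          exact (cp_fac s _ w' w e).symm
        simp only [e2]
        exact hv s r w' hw'
      · have e2 : ∀ A : Om → Prop, cp P nd s A w = 0 := by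
          intro A
          unfold cp FP.ce
          have e3 : P.E (fun x => ind (nd s x = nd s w) * ind (A x)) = 0 := by
            rw [show (0 : ℝ) = P.E (fun _ => (0 : ℝ)) from (P.E_const 0).symm]
            refine P.E_congr fun x hx => ?_
            rw [ind_not fun h => hw ⟨x, hx, h⟩, zero_mul]
          rw [e3, zero_div]
        simp only [e2, lt_irrefl, Finset.filter_false, Finset.card_empty, Nat.cast_zero, mul_zero]
        linarith) hσ
  have e1 : P.Pr (fun w => Kt P cC B C G u z (σ w) w) = P.Pr (fun w => covT P nd u H M (σ w + 1) w) :=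
    P.Pr_congr fun w hw => (CvT_change hcA hC hH' (σ w + 1) 0 w hw).symm
  have e2 : P.E (fun w => GhoF.PhV P nd u H M (GhoF.Lab P B C G z lab) v (σ w) w) =
      P.E (fun w => GhoF.PhV P cC u H M (GhoF.Lab P B C G z lab) v (σ w) w) := by
    refine P.E_congr fun w hw => ?_
    unfold GhoF.PhV
    simp only [ecp _ _ _ _ w hw]
  rw [e1, ← e2]
  exact h1

end thin

/-! ## (C) lives born inside the public epoch: no thin cover -/

section born

variable {Om : Type*} [Fintype Om] {P : FP Om} {κ : ℕ → Type*} {X : ∀ t, Om → κ t} {tk Hs pb : ℕ → Om → Prop}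
  {R : Om → Prop} {e : Om → ℕ}

/-- **HEAVY ROWS WITHOUT A THIN COVER** : `tk s` = decided at `s`, `Hs s` = heavy row (static set), `e` = end of the life
or of the public epoch, `pb` = it is a public removal -/
theorem born_le (fX : Filt X) (he : Stp X e) (hk : ∀ s x w, X s x = X s w → (tk s x ↔ tk s w))
    (hp : ∀ s x w, X s x = X s w → (pb s x ↔ pb s w)) (ke : ∀ w s, tk s w → s ≤ e w) {y : ℝ} (y0 : 0 ≤ y) :
    P.Pr (fun w => R w ∧ ∃ s, tk s w ∧ Hs s w) ≤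
      y * P.Pr (fun w => ∃ s, tk s w) +
        P.Pr (fun w => ¬ pb (e w) w ∧ (∃ s, tk s w) ∧ y < cp P X (e w) (fun x => ∃ s, tk s x ∧ Hs s x) w) +
        P.Pr (fun w => pb (e w) w ∧ R w ∧ ∃ s, tk s w ∧ Hs s w) := by
  set A : Om → Prop := fun x => ∃ s, tk s x ∧ Hs s x with hA
  set hh : ℕ → Om → ℝ := fun s w => ind (¬ pb s w ∧ ∃ r ≤ s, tk r w) with hhh
  have hf : ∀ s, Fac (X s) (hh s) := fun s => Fac.ind fun x w hx => by
    rw [hp s x w hx]
    refine and_congr_right fun _ => exists_congr fun r => and_congr_right fun hr => ?_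
    exact hk r x w (fX.le hr x w hx)
  have h1 := GdyN.E_stop_ce (P := P) fX he hf (fun _ w => ind (A w))
  have h2 : P.Pr (fun w => R w ∧ A w) ≤ P.E (fun w => hh (e w) w * ind (A w)) +
      P.Pr (fun w => pb (e w) w ∧ R w ∧ A w) := by
    unfold FP.Pr
    rw [← FP.E_add]
    refine P.E_mono fun w _ => ?_
    have n1 : 0 ≤ hh (e w) w * ind (A w) := mul_nonneg (ind_nonneg _) (ind_nonneg _)
    have n2 := ind_nonneg (pb (e w) w ∧ R w ∧ A w)
    by_cases a : R w ∧ A w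
    · rw [ind_of a]
      by_cases b : pb (e w) w
      · rw [ind_of (⟨b, a⟩ : pb (e w) w ∧ R w ∧ A w)]
        linarith
      · obtain ⟨s, h3, h4⟩ := a.2
        have e1 : hh (e w) w = 1 := ind_of ⟨b, s, ke w s h3, h3⟩
        rw [e1, ind_of a.2]
        linarith
    · rw [ind_not a]
      linarith
  have h3 : P.E (fun w => hh (e w) w * P.ce (X (e w)) (fun w => ind (A w)) w) ≤
      y * P.Pr (fun w => ∃ s, tk s w) + P.Pr (fun w => ¬ pb (e w) w ∧ (∃ s, tk s w) ∧ y < cp P X (e w) A w) := by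
    unfold FP.Pr
    rw [← FP.E_smul, ← FP.E_add]
    refine P.E_mono fun w hw => ?_
    have c0 : 0 ≤ cp P X (e w) A w := cp_nonneg _ _ _
    have c1 : cp P X (e w) A w ≤ 1 := GdyN.cp_le_one A hw
    show hh (e w) w * cp P X (e w) A w ≤ _
    have n2 := mul_nonneg y0 (ind_nonneg (∃ s, tk s w))
    have n3 := ind_nonneg (¬ pb (e w) w ∧ (∃ s, tk s w) ∧ y < cp P X (e w) A w)
    by_cases a : ¬ pb (e w) w ∧ ∃ r ≤ e w, tk r w
    · have e1 : hh (e w) w = 1 := ind_of a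
      obtain ⟨b, r, hr, ht⟩ := a
      rw [e1, one_mul, ind_of (⟨r, ht⟩ : ∃ s, tk s w), mul_one]
      by_cases c : y < cp P X (e w) A w
      · rw [ind_of (⟨b, ⟨r, ht⟩, c⟩ : ¬ pb (e w) w ∧ (∃ s, tk s w) ∧ y < cp P X (e w) A w)]
        linarith
      · linarith [not_lt.1 c]
    · have e1 : hh (e w) w = 0 := ind_not a
      rw [e1, zero_mul]
      linarith
  have h4 : P.E (fun w => hh (e w) w * ind (A w)) =
      P.E (fun w => hh (e w) w * P.ce (X (e w)) (fun w => ind (A w)) w) := h1.symm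
  rw [h4] at h2
  linarith

end born

/-! ## the choice of the list -/

section derand

variable {Om Ξ : Type*} [Fintype Om] [Fintype Ξ] {P : FP Om} {κ : Type*} {V : Om → κ}

/-- **DERANDOMISATION** : a choice seen by `V` is at least as good as the mean -/
theorem derand (q : Ξ → Om → ℝ) (q0 : ∀ x w, 0 ≤ q x w) (q1 : ∀ w, ∑ x, q x w = 1) (hq : ∀ x, Fac V (q x))
    (g : Ξ → Om → ℝ) :
    ∃ xs : Om → Ξ, Fac V xs ∧ P.E (fun w => g (xs w) w) ≤ P.E (fun w => ∑ x, q x w * g x w) := by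
  classical
  have hne : Nonempty Om := ⟨P.exists_p_ne.choose⟩
  have hΞ : Nonempty Ξ := by
    by_contra hcon
    rw [not_nonempty_iff] at hcon
    have h1 := q1 (Classical.arbitrary Om)
    rw [Finset.univ_eq_empty, Finset.sum_empty] at h1
    exact zero_ne_one h1
  have hex : ∀ k : κ, ∃ x : Ξ, ∀ w, V w = k → ∀ x', P.ce V (g x) w ≤ P.ce V (g x') w := by
    intro k
    by_cases hk : ∃ w0, V w0 = k
    · obtain ⟨w0, hw0⟩ := hk
      obtain ⟨x, -, hx⟩ := (univ : Finset Ξ).exists_min_image (fun x => P.ce V (g x) w0) univ_nonempty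
      refine ⟨x, fun w hw x' => ?_⟩
      have e := hw.trans hw0.symm
      rw [P.ce_fac V (g x) w w0 e, P.ce_fac V (g x') w w0 e]
      exact hx x' (mem_univ _)
    · exact ⟨Classical.arbitrary Ξ, fun w hw => absurd ⟨w, hw⟩ hk⟩
  choose ch hch using hex
  refine ⟨fun w => ch (V w), fun a b e => by
    show ch (V a) = ch (V b)
    rw [e], ?_⟩
  -- both sides are means of conditional means
  have e1 : P.E (fun w => g (ch (V w)) w) = P.E (fun w => P.ce V (g (ch (V w))) w) := by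
    have h1 : ∀ w, g (ch (V w)) w = ∑ x, ind (ch (V w) = x) * g x w := by
      intro w
      rw [Finset.sum_eq_single (ch (V w))]
      · rw [ind_of rfl, one_mul]
      · intro x _ hx
        rw [ind_not (fun h => hx h.symm), zero_mul]
      · intro hh
        exact absurd (mem_univ _) hh
    have h2 : ∀ w, P.ce V (g (ch (V w))) w = ∑ x, ind (ch (V w) = x) * P.ce V (g x) w := by
      intro w
      rw [Finset.sum_eq_single (ch (V w))]
      · rw [ind_of rfl, one_mul]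
      · intro x _ hx
        rw [ind_not (fun h => hx h.symm), zero_mul]
      · intro hh
        exact absurd (mem_univ _) hh
    rw [P.E_congr fun w _ => h1 w, P.E_congr fun w _ => h2 w, FP.E_sum, FP.E_sum]
    refine Finset.sum_congr rfl fun x _ => ?_
    have hf : Fac V (fun w => ind (ch (V w) = x)) := Fac.ind fun a b e => by rw [e]
    exact (P.E_mul_ce hf (g x)).symm
  have e2 : P.E (fun w => ∑ x, q x w * g x w) = P.E (fun w => ∑ x, q x w * P.ce V (g x) w) := by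
    rw [FP.E_sum, FP.E_sum]
    exact Finset.sum_congr rfl fun x _ => (P.E_mul_ce (hq x) (g x)).symm
  rw [e1, e2]
  refine P.E_mono fun w _ => ?_
  calc P.ce V (g (ch (V w))) w = ∑ x, q x w * P.ce V (g (ch (V w))) w := by
        rw [← Finset.sum_mul, q1, one_mul]
    _ ≤ ∑ x, q x w * P.ce V (g x) w := Finset.sum_le_sum fun x _ =>
        mul_le_mul_of_nonneg_left (hch (V w) w rfl x) (q0 x w)

end derand

end

end Pool.Agent.GMH.VSr
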