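import Pool.Agent.GMH.ThB2
import Pool.Agent.GMH.PayG
import Pool.Agent.GMH.VSr

/-!
# GMH/VSc1 (helper50): FROM THE TABLES OF THE LIFE TO THE TABLES OF THE PUBLIC EPOCH

Row of the state `e` (tables of the start of the life) = (hidden point with the letter, label of the time `e / 5`), row of the state
`ν ≥ e` (tables of the public epoch) = the same with the finer letter and the label of the time `nn ν`.
* `cpm` : label of an earlier time; `cpm_lab`, `cpm_kf`; `KFP` : law of a label;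
* `rowq_E`, `cn` : canonical hidden point of a letter; `mass_st` : mass of the rows of the state `ν` whose rows of the state `e` are in
  `A` and whose letter has gained at most the factor `gg`;
* `row1_st` : `GhoF.Row1` at `e` gives `GhoF.Row1` at `ν`.
-/

set_option autoImplicit false
set_option linter.unusedSectionVars false

namespace Pool.Agent.GMH.VSc

open Finset Pool.Agent.PWZ Pool.Agent.M3 Pool.Agent.GM Pool.Agent.GM.Harm Pool.Agent.GMH Pool.Agent.GMH.GhoC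
open Pool.Agent.GMH.EpG Pool.Agent.GMH.PayT Pool.Agent.GMH.PayTs Pool.Agent.GMH.Gdy
open Pool.Agent.GMH.Dy (Om Tab pul_pt)

noncomputable section

variable {X β γ φ υ : Type} [Fintype X] [Fintype β] [Fintype φ] [Nonempty X] [Nonempty β]
variable {D : HD (Fin 3) X β γ φ} {al : ℝ} {prr : ℕ → Fin 3 → φ → φ} {T : ℕ} {W : Type} [Fintype W]
variable {tb : Tab D prr T W} {v : ℕ → Finset (Fin 3) → X → (Fin 3 → β) → υ}

/-! ## labels of earlier times -/

variable (prr) in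
/-- the label of the time `s` of a label of the time `s + k` -/
def cpm (i : Fin 3) (s : ℕ) : ℕ → φ → φ
  | 0, F => F
  | k + 1, F => cpm i s k (prr (s + k) i F)

theorem cpm_lab (i : Fin 3) (s : ℕ) {k : ℕ} (hk : s + k ≤ T) {θ : W} (hθ : (tb.Q i).p θ ≠ 0) (x : X) (y : Fin 3 → β) :
    cpm prr i s k (tb.lab (s + k) i θ x y) = tb.lab s i θ x y := by
  induction k with
  | zero => rfl
  | succ k ih =>
    show cpm prr i s k (prr (s + k) i (tb.lab (s + k + 1) i θ x y)) = _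
    rw [tb.pr (s + k) (by omega) i θ x y hθ]
    exact ih (by omega)

include tb in
theorem cpm_kf (i : Fin 3) (s : ℕ) {k : ℕ} (hk : s + k ≤ T) (x : X) (y : Fin 3 → β) (g : φ → ℝ) :
    ∑ F, D.kf (s + k) i x y F * g (cpm prr i s k F) = ∑ F, D.kf s i x y F * g F := by
  rw [← tb.law (s + k) hk i x y (fun F => g (cpm prr i s k F)), ← tb.law s (by omega) i x y g]
  exact FP.E_congr _ fun θ hθ => by rw [cpm_lab i s hk hθ x y]

/-- the law of a label -/
def KFP (h : D.Thick al) (t : ℕ) (i : Fin 3) (x : X) (y : Fin 3 → β) : FP φ := ⟨D.kf t i x y, h.nn t i x y, h.one t i x y⟩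

theorem KFP_E (h : D.Thick al) (t : ℕ) (i : Fin 3) (x : X) (y : Fin 3 → β) (g : φ → ℝ) :
    (KFP h t i x y).E g = ∑ F, D.kf t i x y F * g F := rfl

include tb in
theorem KFP_push (h : D.Thick al) (i : Fin 3) {s t : ℕ} (hst : s ≤ t) (ht : t ≤ T) (x : X) (y : Fin 3 → β) (g : φ → ℝ) :
    (KFP h t i x y).E (fun F => g (cpm prr i s (t - s) F)) = (KFP h s i x y).E g := by
  obtain ⟨k, rfl⟩ := Nat.exists_eq_add_of_le hst
  rw [Nat.add_sub_cancel_left]
  exact cpm_kf (tb := tb) i s ht x y g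

/-! ## rows -/

section row

variable {P1 P0 : FP (Pt (Fin 3) X β φ)} {c : Fin 3} {yc : β}

theorem rowq_E {τ : ℕ} {υ0 : Type} {T0 : X → (Fin 3 → β) → υ0} {κ : X → FP φ} (g : X × φ → ℝ) :
    (rowq P0 D τ c T0 κ yc).E g =
      P0.E (fun u => (κ (lbT D τ c T0 (Xt D τ u) yc)).E fun F => g (lbT D τ c T0 (Xt D τ u) yc, F)) := by
  have h1 : (rowq P0 D τ c T0 κ yc).E g =
      ∑ x : X, P0.Pr (fun u => lbT D τ c T0 (Xt D τ u) yc = x) * (κ x).E fun F => g (x, F) := by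
    show ∑ ρ : X × φ, (P0.Pr (fun v => lbT D τ c T0 (Xt D τ v) yc = ρ.1) * (κ ρ.1).p ρ.2) * g ρ = _
    rw [Fintype.sum_prod_type]
    refine sum_congr rfl fun x _ => ?_
    show _ = _ * ∑ F, (κ x).p F * g (x, F)
    rw [mul_sum]
    exact sum_congr rfl fun F _ => by ring
  rw [h1]
  exact img_E (P := P0) (fun u => lbT D τ c T0 (Xt D τ u) yc) (fun x => (κ x).E fun F => g (x, F))

variable (D v) in
/-- canonical hidden point with the letter of the state `e` -/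
def cn (e : ℕ) (c : Fin 3) (ne : γ × (Fin 3 → γ)) (yc : β) (x : X) : X := lbT D (TP.nn e) c (Uq v e {c}) (x, ne) yc

theorem cn_of {e : ℕ} {ne : γ × (Fin 3 → γ)} {x x' : X}
    (hx : Uq v e {c} x (yb D (TP.nn e) c ne yc) = Uq v e {c} x' (yb D (TP.nn e) c ne yc)) :
    cn D v e c ne yc x = cn D v e c ne yc x' := by
  show Function.invFun _ (Uq v e {c} x (yb D (TP.nn e) c ne yc)) = Function.invFun _ (Uq v e {c} x' (yb D (TP.nn e) c ne yc))
  rw [hx]

theorem cn_sp {e : ℕ} {ne : γ × (Fin 3 → γ)} (x : X) :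
    Uq v e {c} (cn D v e c ne yc x) (yb D (TP.nn e) c ne yc) = Uq v e {c} x (yb D (TP.nn e) c ne yc) :=
  Function.invFun_eq (f := fun x' => Uq v e {c} x' (yb D (TP.nn e) c ne yc)) ⟨x, rfl⟩

theorem cn_cn {e : ℕ} {ne : γ × (Fin 3 → γ)} (x : X) :
    cn D v e c ne yc (cn D v e c ne yc x) = cn D v e c ne yc x := cn_of (cn_sp x)

/-- letters of earlier states -/
theorem Uq_le {e ν : ℕ} (heν : e ≤ ν) (c : Fin 3) {x x' : X} {y : Fin 3 → β} (hx : Uq v ν {c} x y = Uq v ν {c} x' y) :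
    Uq v e {c} x y = Uq v e {c} x' y := by
  have h1 := TP.nc_mono heν (pth1 c)
  exact List.map_inj_left.2 fun r hr => (List.map_inj_left.1 hx) r (List.mem_range.2 (by
    have := List.mem_range.1 hr
    omega))

/-- the canonical point of the finer letter has the coarser letter -/
theorem cn_fine (hv : Codes D v) {e ν : ℕ} (heν : e ≤ ν) {ne nν : γ × (Fin 3 → γ)}
    (hex : ∃ y : Fin 3 → β, y c = yc ∧ (∀ i, D.qb (TP.nn ν) (y i) = nν.2 i) ∧ ∀ i, D.qb (TP.nn e) (y i) = ne.2 i) (x : X) :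
    cn D v e c ne yc (cn D v ν c nν yc x) = cn D v e c ne yc x := by
  obtain ⟨y, hy, hy1, hy2⟩ := hex
  have h1 := yb_spec (D := D) (τ := TP.nn ν) (j := c) (n := nν) (b := yc) ⟨y, hy, hy1⟩
  have h2 := yb_spec (D := D) (τ := TP.nn e) (j := c) (n := ne) (b := yc) ⟨y, hy, hy2⟩
  have h3 := Uq_le (v := v) heν c (cn_sp (D := D) (v := v) (c := c) (yc := yc) (ne := nν) (e := ν) x)
  have hc : ∀ i ∈ ({c} : Finset (Fin 3)), y i = yb D (TP.nn e) c ne yc i := fun i hi => by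
    rw [Finset.mem_singleton.1 hi, hy, h2.1]
  have h4 : ∀ x', Uq v e {c} x' (yb D (TP.nn ν) c nν yc) = Uq v e {c} x' (yb D (TP.nn e) c ne yc) := fun x' => by
    have a1 : Uq v ν {c} x' (yb D (TP.nn ν) c nν yc) = Uq v ν {c} x' y := Uq_dep hv ν {c} x' _ _ (fun i hi => by
      rw [Finset.mem_singleton.1 hi, h1.1, hy]) fun i => by rw [h1.2 i, hy1 i]
    have a2 : Uq v e {c} x' (yb D (TP.nn ν) c nν yc) = Uq v e {c} x' y := by
      have h5 := TP.nc_mono heν (pth1 c)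
      exact List.map_inj_left.2 fun r hr => (List.map_inj_left.1 a1) r (List.mem_range.2 (by
        have := List.mem_range.1 hr
        omega))
    rw [a2]
    exact Uq_dep hv e {c} x' _ _ hc fun i => by rw [hy2 i, h2.2 i]
  rw [h4, h4] at h3
  exact cn_of h3

variable (D v P1 P0) in
/-- the letter has gained at most the factor `gg` -/
def good (e : ℕ) (c : Fin 3) (ne : γ × (Fin 3 → γ)) (gg : ℝ) (yc : β) (x : X) : Prop :=
  P1.Pr (fun u => cn D v e c ne yc u.1 = cn D v e c ne yc x) ≤ gg * P0.Pr (fun u => cn D v e c ne yc u.1 = cn D v e c ne yc x)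

/-- **MASS OF THE ROWS WITH A GIVEN EARLIER ROW** -/
theorem mass_st (hv : Codes D v) {e ν : ℕ} (heν : e ≤ ν) {ne nν : γ × (Fin 3 → γ)}
    (hex : ∃ y : Fin 3 → β, y c = yc ∧ (∀ i, D.qb (TP.nn ν) (y i) = nν.2 i) ∧ ∀ i, D.qb (TP.nn e) (y i) = ne.2 i)
    (hn1 : ∀ u, P1.p u ≠ 0 → nd D (TP.nn ν) u = nν) (hn0 : ∀ u, P0.p u ≠ 0 → nd D (TP.nn e) u = ne) {gg : ℝ}
    (hgg : 0 ≤ gg) {K1 K0 : FP φ} {pm : φ → φ} (hK : ∀ g : φ → ℝ, K1.E (fun F => g (pm F)) = K0.E g) {A : X × φ → Prop}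
    (hA : ∀ x x' F, cn D v e c ne yc x = cn D v e c ne yc x' → (A (x, F) ↔ A (x', F))) :
    (rowq P1 D (TP.nn ν) c (Uq v ν {c}) (fun _ => K1) yc).Pr
      (fun ρ => good D v P1 P0 e c ne gg yc ρ.1 ∧ A (ρ.1, pm ρ.2)) ≤
      gg * (rowq P0 D (TP.nn e) c (Uq v e {c}) (fun _ => K0) yc).Pr A := by
  classical
  set a : X → ℝ := fun x => K0.Pr (fun F => A (x, F)) with ha
  have ha' : ∀ x x', cn D v e c ne yc x = cn D v e c ne yc x' → a x = a x' := fun x x' hx =>
    FP.E_congr _ fun F _ => congrArg ind (propext (hA x x' F hx))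
  have hg' : ∀ x x', cn D v e c ne yc x = cn D v e c ne yc x' →
      (good D v P1 P0 e c ne gg yc x ↔ good D v P1 P0 e c ne gg yc x') := fun x x' hx => by
    unfold good
    rw [hx]
  -- left side
  have e1 : (rowq P1 D (TP.nn ν) c (Uq v ν {c}) (fun _ => K1) yc).Pr
      (fun ρ => good D v P1 P0 e c ne gg yc ρ.1 ∧ A (ρ.1, pm ρ.2)) =
      P1.E (fun u => ind (good D v P1 P0 e c ne gg yc (cn D v e c ne yc u.1)) * a (cn D v e c ne yc u.1)) := by
    unfold FP.Pr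
    rw [rowq_E]
    refine FP.E_congr _ fun u hu => ?_
    have h1 : lbT D (TP.nn ν) c (Uq v ν {c}) (Xt D (TP.nn ν) u) yc = cn D v ν c nν yc u.1 := by
      unfold cn Xt
      rw [hn1 u hu]
    rw [h1]
    have h2 : K1.E (fun F => ind (good D v P1 P0 e c ne gg yc (cn D v ν c nν yc u.1) ∧ A (cn D v ν c nν yc u.1, pm F))) =
        ind (good D v P1 P0 e c ne gg yc (cn D v ν c nν yc u.1)) * a (cn D v ν c nν yc u.1) := by
      rw [ha]
      show _ = _ * K0.E (fun F => ind (A (cn D v ν c nν yc u.1, F)))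
      rw [← hK (fun F => ind (A (cn D v ν c nν yc u.1, F))), ← FP.E_smul]
      exact FP.E_congr _ fun F _ => ind_and _ _
    rw [h2]
    have h3 := cn_fine (v := v) (D := D) hv heν hex u.1
    have h4 := cn_cn (D := D) (v := v) (e := e) (c := c) (ne := ne) (yc := yc) u.1
    rw [ha' _ _ (h3.trans h4.symm), propext (hg' _ _ (h3.trans h4.symm))]
  -- right side
  have e0 : (rowq P0 D (TP.nn e) c (Uq v e {c}) (fun _ => K0) yc).Pr A = P0.E (fun u => a (cn D v e c ne yc u.1)) := by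
    unfold FP.Pr
    rw [rowq_E]
    refine FP.E_congr _ fun u hu => ?_
    have h1 : lbT D (TP.nn e) c (Uq v e {c}) (Xt D (TP.nn e) u) yc = cn D v e c ne yc u.1 := by
      unfold cn Xt
      rw [hn0 u hu]
    rw [h1]
    rfl
  have f1 : P1.E (fun u => ind (good D v P1 P0 e c ne gg yc (cn D v e c ne yc u.1)) * a (cn D v e c ne yc u.1)) =
      ∑ x, P1.Pr (fun u => cn D v e c ne yc u.1 = x) * (ind (good D v P1 P0 e c ne gg yc x) * a x) :=
    (img_E (P := P1) (fun u => cn D v e c ne yc u.1) (fun x => ind (good D v P1 P0 e c ne gg yc x) * a x)).symm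
  have f0 : P0.E (fun u => a (cn D v e c ne yc u.1)) = ∑ x, P0.Pr (fun u => cn D v e c ne yc u.1 = x) * a x :=
    (img_E (P := P0) (fun u => cn D v e c ne yc u.1) a).symm
  rw [e1, e0, f1, f0, mul_sum]
  refine sum_le_sum fun x _ => ?_
  have ha0 : 0 ≤ a x := FP.Pr_nonneg _ _
  by_cases hx : ∃ x', cn D v e c ne yc x' = x
  · obtain ⟨x', hx'⟩ := hx
    have hxx : cn D v e c ne yc x = x := by rw [← hx', cn_cn]
    by_cases hg : good D v P1 P0 e c ne gg yc x
    · rw [ind_of hg, one_mul]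
      have h5 : P1.Pr (fun u => cn D v e c ne yc u.1 = x) ≤ gg * P0.Pr (fun u => cn D v e c ne yc u.1 = x) := by
        have h6 := hg
        unfold good at h6
        rwa [hxx] at h6
      have h7 := mul_le_mul_of_nonneg_right h5 ha0
      linarith
    · rw [ind_not hg, zero_mul, mul_zero]
      exact mul_nonneg hgg (mul_nonneg (FP.Pr_nonneg _ _) ha0)
  · have h1 : P1.Pr (fun u => cn D v e c ne yc u.1 = x) = 0 := by
      refine (FP.E_congr _ fun u _ => ?_).trans (FP.E_const _ 0)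
      exact ind_not fun hh => hx ⟨_, hh⟩
    have h0 : P0.Pr (fun u => cn D v e c ne yc u.1 = x) = 0 := by
      refine (FP.E_congr _ fun u _ => ?_).trans (FP.E_const _ 0)
      exact ind_not fun hh => hx ⟨_, hh⟩
    rw [h1, h0, zero_mul, zero_mul, mul_zero]

/-- **THE DATA OF A ROW AT THE TABLES OF THE LIFE GIVE THE DATA AT THE TABLES OF THE PUBLIC EPOCH** -/
theorem row1_st {ι Dk : Type} [Fintype Dk] (hv : Codes D v) {e ν : ℕ} (heν : e ≤ ν) {ne nν : γ × (Fin 3 → γ)}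
    (hex : ∃ y : Fin 3 → β, y c = yc ∧ (∀ i, D.qb (TP.nn ν) (y i) = nν.2 i) ∧ ∀ i, D.qb (TP.nn e) (y i) = ne.2 i)
    (hn1 : ∀ u, P1.p u ≠ 0 → nd D (TP.nn ν) u = nν) (hn0 : ∀ u, P0.p u ≠ 0 → nd D (TP.nn e) u = ne) {gg h1 : ℝ}
    (hgg : 0 ≤ gg) {K1 K0 : FP φ} {pm : φ → φ} (hK : ∀ g : φ → ℝ, K1.E (fun F => g (pm F)) = K0.E g)
    {R : FP Dk} {I : Finset ι} {hi lo : ι → ℝ} {mu : ℝ} {mr : FP (X × φ)} {F F' : ι → X × φ → Dk → ℝ} {own own' : X × φ}
    {Va Va' : Dk → Prop} {δ1 : ℝ} {SS : Dk → Prop} (hδ1 : 0 < δ1) (hr : GhoF.Row1 R I hi lo mu mr F own Va δ1 SS)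
    (hh1 : 0 ≤ h1)
    (hmr : ∀ A : X × φ → Prop, (rowq P0 D (TP.nn e) c (Uq v e {c}) (fun _ => K0) yc).Pr A ≤ h1 * mr.Pr A)
    (hFc : ∀ i x x' G d, R.p d ≠ 0 → cn D v e c ne yc x = cn D v e c ne yc x' → F i (x, G) d = F i (x', G) d)
    (hF' : ∀ i ρ d, R.p d ≠ 0 → SS d → F' i ρ d = ind (good D v P1 P0 e c ne gg yc ρ.1) * F i (ρ.1, pm ρ.2) d)
    (hlo : ∃ i ∈ I, 0 ≤ lo i) (ho1 : cn D v e c ne yc own'.1 = cn D v e c ne yc own.1) (ho2 : pm own'.2 = own.2)
    (hog : good D v P1 P0 e c ne gg yc own'.1) (hVa : ∀ d, R.p d ≠ 0 → SS d → Va d → Va' d) :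
    GhoF.Row1 R I hi lo (gg * (h1 * mu)) (rowq P1 D (TP.nn ν) c (Uq v ν {c}) (fun _ => K1) yc) F' own' Va' δ1 SS := by
  have h0 : R.Pr SS ≠ 0 := (lt_of_lt_of_le hδ1 hr.ss).ne'
  have hcd : ∀ (g g' : Dk → ℝ), (∀ d, R.p d ≠ 0 → SS d → g d = g' d) → (R.cond SS).E g = (R.cond SS).E g' := by
    intro g g' hg
    refine FP.E_congr _ fun d hd => ?_
    have h2 := (FP.cond_p_ne h0).1 hd
    exact hg d h2.2 h2.1
  refine ⟨hr.ss, fun d hd hS => hVa d hd hS (hr.al d hd hS), fun i hi' => ?_, ?_⟩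
  · refine (hr.ho i hi').trans (le_of_eq ?_)
    refine hcd _ _ fun d hd hS => ?_
    rw [hF' i own' d hd hS, ind_of hog, one_mul, ho2]
    exact hFc i own.1 own'.1 own.2 d hd ho1.symm
  · -- the class mass
    set A : X × φ → Prop := fun ρ => ∀ i ∈ I, lo i < (R.cond SS).E (F i ρ) with hA
    have h2 : (rowq P1 D (TP.nn ν) c (Uq v ν {c}) (fun _ => K1) yc).Pr
        (fun ρ => ∀ i ∈ I, lo i < (R.cond SS).E (F' i ρ)) ≤
        (rowq P1 D (TP.nn ν) c (Uq v ν {c}) (fun _ => K1) yc).Pr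
          (fun ρ => good D v P1 P0 e c ne gg yc ρ.1 ∧ A (ρ.1, pm ρ.2)) := by
      refine FP.Pr_mono _ fun ρ _ hρ => ?_
      have hg : good D v P1 P0 e c ne gg yc ρ.1 := by
        by_contra hcon
        obtain ⟨i, hi', h3⟩ := hlo
        have h4 := hρ i hi'
        have h5 : (R.cond SS).E (F' i ρ) = 0 := by
          rw [hcd (F' i ρ) (fun _ => 0) fun d hd hS => by rw [hF' i ρ d hd hS, ind_not hcon, zero_mul]]
          exact FP.E_const _ 0
        rw [h5] at h4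
        linarith
      refine ⟨hg, fun i hi' => ?_⟩
      have h4 := hρ i hi'
      rwa [hcd (F' i ρ) (F i (ρ.1, pm ρ.2)) fun d hd hS => by rw [hF' i ρ d hd hS, ind_of hg, one_mul]] at h4
    have h3 := mass_st (P1 := P1) (P0 := P0) (c := c) (yc := yc) hv heν hex hn1 hn0 hgg hK (A := A) (fun x x' G hx => by
      refine forall_congr' fun i => forall_congr' fun hi' => ?_
      rw [hcd (F i (x, G)) (F i (x', G)) fun d hd _ => hFc i x x' G d hd hx])
    refine h2.trans (h3.trans (mul_le_mul_of_nonneg_left ?_ hgg))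
    exact (hmr A).trans (mul_le_mul_of_nonneg_left hr.hm hh1)

/-- the reference law of the rows against the law of the canonical rows: thickness -/
theorem hmr_of {e : ℕ} {κ : X → FP φ} {K0 : FP φ} {al' : ℝ} (hal : 0 < al')
    (hκ : ∀ x F, K0.p F ≠ 0 → al' ≤ (κ x).p F) (A : X × φ → Prop) :
    (rowq P0 D (TP.nn e) c (Uq v e {c}) (fun _ => K0) yc).Pr A ≤
      1 / al' * (rowq P0 D (TP.nn e) c (Uq v e {c}) κ yc).Pr A := by
  have hK1 : ∀ F, K0.p F ≤ 1 := fun F => by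
    rw [← K0.tot]
    exact Finset.single_le_sum (f := K0.p) (fun F _ => K0.nn F) (mem_univ F)
  show ∑ ρ : X × φ, (P0.Pr (fun v' => lbT D (TP.nn e) c (Uq v e {c}) (Xt D (TP.nn e) v') yc = ρ.1) * K0.p ρ.2) * ind (A ρ) ≤
    1 / al' * ∑ ρ : X × φ, (P0.Pr (fun v' => lbT D (TP.nn e) c (Uq v e {c}) (Xt D (TP.nn e) v') yc = ρ.1) *
      (κ ρ.1).p ρ.2) * ind (A ρ)
  rw [mul_sum]
  refine sum_le_sum fun ρ _ => ?_
  have h1 : K0.p ρ.2 ≤ 1 / al' * (κ ρ.1).p ρ.2 := by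
    by_cases h0 : K0.p ρ.2 = 0
    · rw [h0]
      have := (κ ρ.1).nn ρ.2
      positivity
    · rw [one_div, ← div_eq_inv_mul, le_div_iff₀ hal]
      have h2 := hκ ρ.1 ρ.2 h0
      have h3 := mul_le_mul_of_nonneg_right (hK1 ρ.2) hal.le
      linarith
  have h2 := mul_le_mul_of_nonneg_left h1 (P0.Pr_nonneg (fun v' => lbT D (TP.nn e) c (Uq v e {c}) (Xt D (TP.nn e) v') yc = ρ.1))
  have h3 := mul_le_mul_of_nonneg_right h2 (ind_nonneg (A ρ))
  refine h3.trans (le_of_eq ?_)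
  ring

end row

end

end Pool.Agent.GMH.VSc
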