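import Pool.Agent.GMH.VSc1

/-!
# GMH/VSc2 (helper50): THE THIN COVER OF ONE PUBLIC CLASS FROM THE DATA OF THE ROWS AT THE TABLES OF THE LIVES

`b` exact vertex, rows at `c` with the label `d` (face `b c`), keys = (point of `d`, table `c`); `ns` = start of the public epoch,
`er r w` = state of the tables of a start `r`, `rr y` = start of the life of `b` at `ns`.
* `Vv`, `rep` : value of a point for the tests (tested top, its lower letters) and its canonical point; `Tst` : tests;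
* `card_typ` : at most `1 / p0` values of conditional probability `≥ p0`; `NS`, `nmi`, `nmr` : names of the starts of the lives;
  `VS` : typical values of a key;
* `HRow` : the data of the rows (interface); `thin_st` : **THE THIN COVER IN ONE PUBLIC CLASS**.
-/

set_option autoImplicit false
set_option linter.unusedSectionVars false

namespace Pool.Agent.GMH.VSc

open Finset Pool.Agent.PWZ Pool.Agent.M3 Pool.Agent.GM Pool.Agent.GM.Harm Pool.Agent.GMH Pool.Agent.GMH.GhoC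
open Pool.Agent.GMH.EpG Pool.Agent.GMH.PayT Pool.Agent.GMH.PayTs Pool.Agent.GMH.Gdy Pool.Agent.GMH.ThB
open Pool.Agent.GMH.Dy (Om Tab pul_pt cll cll_eq sgt sgt_eq)
open Pool.Agent.GMH.MVI (NPo XLo NPo_fac XLo_fac NPo_le)
open Pool.Agent.GMH.TabF (WE WE_ne WE_supp)
open Pool.Agent.GMH.PayG (Cx y3 pz y3_eq y3_c y3_qb pz_zb pz_fq C_law)
open Pool.Agent.GMH.TP (FQ ZbQ)

noncomputable section

/-! ## typical values -/

theorem card_typ {Ω G κ : Type*} [Fintype Ω] (P : FP Ω) {Q : Ω → Prop} {f : Ω → κ} {S : Finset G} {val : G → κ}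
    (hinj : ∀ g ∈ S, ∀ g' ∈ S, val g = val g' → g = g') {p0 : ℝ} (hp : 0 < p0) (hQ : 0 < P.Pr Q)
    (hS : ∀ g ∈ S, p0 * P.Pr Q ≤ P.Pr (fun u => Q u ∧ f u = val g)) : (S.card : ℝ) ≤ 1 / p0 := by
  have h1 : (S.card : ℝ) * (p0 * P.Pr Q) ≤ ∑ g ∈ S, P.Pr (fun u => Q u ∧ f u = val g) := by
    rw [← nsmul_eq_mul, ← sum_const]
    exact sum_le_sum hS
  have h2 : ∑ g ∈ S, P.Pr (fun u => Q u ∧ f u = val g) ≤ P.Pr Q := by
    unfold FP.Pr
    rw [← P.E_sum]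
    refine P.E_mono fun u _ => ?_
    refine (sum_ind_le S (fun g => Q u ∧ f u = val g) fun g hg g' hg' hne h h' =>
      hne (hinj g hg g' hg' (h.2.symm.trans h'.2))).trans (ind_mono ?_)
    rintro ⟨g, -, hg⟩
    exact hg.1
  have h3 : (S.card : ℝ) * p0 * P.Pr Q ≤ 1 * P.Pr Q := by
    rw [one_mul, mul_assoc]
    exact h1.trans h2
  rw [le_div_iff₀ hp]
  exact le_of_mul_le_mul_right h3 hQ

/-! ## names -/

/-- number of an element -/
def nmi {Nn : ℕ} (hN : 0 < Nn) (S : Finset ℕ) (r : ℕ) : Fin Nn :=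
  if hr : r ∈ S then (if h : (S.equivFin ⟨r, hr⟩).1 < Nn then ⟨_, h⟩ else ⟨0, hN⟩) else ⟨0, hN⟩

/-- element with a given number -/
def nmr {Nn : ℕ} (S : Finset ℕ) (n : Fin Nn) : ℕ := if h : n.1 < S.card then (S.equivFin.symm ⟨n.1, h⟩).1 else 0

theorem nmr_nmi {Nn : ℕ} (hN : 0 < Nn) {S : Finset ℕ} (hS : S.card ≤ Nn) {r : ℕ} (hr : r ∈ S) :
    nmr S (nmi hN S r) = r := by
  have h1 : (S.equivFin ⟨r, hr⟩).1 < S.card := (S.equivFin ⟨r, hr⟩).2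
  have h2 : nmi hN S r = ⟨(S.equivFin ⟨r, hr⟩).1, lt_of_lt_of_le h1 hS⟩ := by
    unfold nmi
    rw [dif_pos hr, dif_pos (lt_of_lt_of_le h1 hS)]
  rw [h2]
  unfold nmr
  rw [dif_pos h1]
  show (S.equivFin.symm (S.equivFin ⟨r, hr⟩)).1 = r
  rw [Equiv.symm_apply_apply]

theorem nmr_le {Nn : ℕ} {S : Finset ℕ} {m : ℕ} (hS : S ⊆ range (m + 1)) (n : Fin Nn) : nmr S n ≤ m := by
  unfold nmr
  split_ifs with h1
  · have h2 := hS (S.equivFin.symm ⟨n.1, h1⟩).2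
    exact Nat.lt_succ_iff.1 (mem_range.1 h2)
  · exact Nat.zero_le m

section frame

variable {X β γ φ : Type} [Fintype X] [Fintype β] [Fintype φ] [Nonempty X] [Nonempty β]
variable (D : HD (Fin 3) X β γ φ) {al : ℝ} {prr : ℕ → Fin 3 → φ → φ} {T : ℕ} {W : Type} [Fintype W]
variable (tb : Tab D prr T W) (v : ℕ → Finset (Fin 3) → X → (Fin 3 → β) → Pt (Fin 3) X β φ)

/-- what the tests see of a point of the state `e` -/
def Vv (c : Fin 3) (e : ℕ) (p : Pt (Fin 3) X β φ) := (FQ v (e / 5) c p, ZbQ D v e c p)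

/-- a point with a given value -/
def repV {G κ : Type*} (f : G → κ) (k : κ) (hk : ∃ q, f q = k) : G := hk.choose

/-- canonical point with the same value -/
def rep (c : Fin 3) (e : ℕ) (p : Pt (Fin 3) X β φ) : Pt (Fin 3) X β φ := repV (Vv D v c e) (Vv D v c e p) ⟨p, rfl⟩

theorem rep_sp (c : Fin 3) (e : ℕ) (p : Pt (Fin 3) X β φ) : Vv D v c e (rep D v c e p) = Vv D v c e p :=
  (⟨p, rfl⟩ : ∃ q, Vv D v c e q = Vv D v c e p).choose_spec

theorem repV_congr {G κ : Type*} (f : G → κ) {k k' : κ} (e : k = k') (hk : ∃ q, f q = k) (hk' : ∃ q, f q = k') :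
    repV f k hk = repV f k' hk' := by
  subst e
  rfl

theorem rep_congr {c : Fin 3} {e : ℕ} {p q : Pt (Fin 3) X β φ} (hpq : Vv D v c e p = Vv D v c e q) :
    rep D v c e p = rep D v c e q := repV_congr _ hpq _ _

theorem rep_rep (c : Fin 3) (e : ℕ) (p : Pt (Fin 3) X β φ) : rep D v c e (rep D v c e p) = rep D v c e p :=
  rep_congr D v (rep_sp D v c e p)

/-- **TESTS** of the rows at the tables of the state `e` (`e / 5 ≤ Tm`) : index, state, point of `c`, row, point of the state -/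
structure Tst {ι : Type} (Tm : ℕ) (c : Fin 3) (ts : ι → ℕ → β → X × φ → Pt (Fin 3) X β φ → ℝ) (R0 : ℝ) : Prop where
  bd : ∀ i e, e / 5 ≤ Tm → ∀ yc ρ p, |ts i e yc ρ p| ≤ R0
  fp : ∀ i e yc ρ p q, Vv D v c e p = Vv D v c e q → ts i e yc ρ p = ts i e yc ρ q
  fr : ∀ i e yc x x' F p, (∀ y : Fin 3 → β, y c = yc → (∀ k, D.qb (TP.nn e) (y k) = D.qb (TP.nn e) (p.2.1 k)) →
    Uq v e {c} x y = Uq v e {c} x' y) → ts i e yc (x, F) p = ts i e yc (x', F) p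

/-- the exact points and the class of a key -/
def Qv (b d : Fin 3) (e : ℕ) (w : Om W X β) (bb : β) (dd : β × W) (u : Om W X β) : Prop :=
  u.2.2 b = bb ∧ u.2.2 d = dd.1 ∧ NPo tb v e u = NPo tb v e w

open Classical in
/-- typical values of a key -/
def VS (b c d : Fin 3) (p0 : ℝ) (e : ℕ) (w : Om W X β) (bb : β) (dd : β × W) : Finset (Pt (Fin 3) X β φ) :=
  univ.filter fun g => rep D v c e g = g ∧ 0 < tb.Ps.Pr (Qv D tb v b d e w bb dd) ∧
    p0 * tb.Ps.Pr (Qv D tb v b d e w bb dd) ≤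
      tb.Ps.Pr (fun u => Qv D tb v b d e w bb dd u ∧ Vv D v c e (tb.pt (e / 5) u) = Vv D v c e g)

theorem VS_card (b c d : Fin 3) {p0 : ℝ} (hp : 0 < p0) (e : ℕ) (w : Om W X β) (bb : β) (dd : β × W) :
    ((VS D tb v b c d p0 e w bb dd).card : ℝ) ≤ 1 / p0 := by
  classical
  rcases (VS D tb v b c d p0 e w bb dd).eq_empty_or_nonempty with h0 | ⟨g0, hg0⟩
  · rw [h0, card_empty, Nat.cast_zero]
    positivity
  · have hm : ∀ g ∈ VS D tb v b c d p0 e w bb dd, _ := fun g hg => (mem_filter.1 hg).2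
    exact card_typ tb.Ps (Q := Qv D tb v b d e w bb dd) (f := fun u => Vv D v c e (tb.pt (e / 5) u))
      (val := Vv D v c e) (fun g hg g' hg' hgg => by
        rw [← (hm g hg).1, ← (hm g' hg').1]
        exact rep_congr D v hgg) hp (hm g0 hg0).2.1 fun g hg => (hm g hg).2.2

/-- exact point of `b` and class of the state `ns` -/
def Qn (b : Fin 3) (ns : ℕ) (w : Om W X β) (bb : β) (u : Om W X β) : Prop := u.2.2 b = bb ∧ NPo tb v ns u = NPo tb v ns w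

open Classical in
/-- typical starts of the life of the point `bb` -/
def NS (b : Fin 3) (p1 : ℝ) (ns : ℕ) (rr : Om W X β → ℕ) (w : Om W X β) (bb : β) : Finset ℕ :=
  (range (ns + 1)).filter fun r => 0 < tb.Ps.Pr (Qn D tb v b ns w bb) ∧
    p1 * tb.Ps.Pr (Qn D tb v b ns w bb) ≤ tb.Ps.Pr (fun u => Qn D tb v b ns w bb u ∧ rr u = r)

theorem NS_card (b : Fin 3) {p1 : ℝ} (hp : 0 < p1) (ns : ℕ) (rr : Om W X β → ℕ) (w : Om W X β) (bb : β) :
    ((NS D tb v b p1 ns rr w bb).card : ℝ) ≤ 1 / p1 := by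
  classical
  rcases (NS D tb v b p1 ns rr w bb).eq_empty_or_nonempty with h0 | ⟨g0, hg0⟩
  · rw [h0, card_empty, Nat.cast_zero]
    positivity
  · have hm : ∀ g ∈ NS D tb v b p1 ns rr w bb, _ := fun g hg => (mem_filter.1 hg).2
    exact card_typ tb.Ps (Q := Qn D tb v b ns w bb) (f := rr) (val := fun r => r) (fun g _ g' _ hgg => hgg) hp
      (hm g0 hg0).1 fun g hg => (hm g hg).2

theorem NS_congr {b : Fin 3} {p1 : ℝ} {ns : ℕ} {rr : Om W X β → ℕ} {w w' : Om W X β} (hw : NPo tb v ns w = NPo tb v ns w')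
    (bb : β) : NS D tb v b p1 ns rr w bb = NS D tb v b p1 ns rr w' bb := by
  have e : Qn D tb v b ns w bb = Qn D tb v b ns w' bb := by
    funext u
    unfold Qn
    rw [hw]
  unfold NS
  rw [e]

/-- the sample point with another exact point of `b` -/
def atb (b : Fin 3) (w : Om W X β) (bb : β) : Om W X β := (w.1, w.2.1, Function.update w.2.2 b bb)

/-- the value of the true key at `e` is typical -/
def vty (b c d : Fin 3) (p0 : ℝ) (e : ℕ) (y : Om W X β) : Prop :=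
  p0 * tb.Ps.m (fun u => (u.2.2 b, (u.2.2 d, NPo tb v e u))) y ≤
    tb.Ps.m (fun u => ((u.2.2 b, (u.2.2 d, NPo tb v e u)), Vv D v c e (tb.pt (e / 5) u))) y

variable {D tb v}

/-! ## small facts -/

theorem fp_ext {Ω : Type*} [Fintype Ω] {P Q : FP Ω} (hPQ : ∀ w, P.p w = Q.p w) : P = Q := by
  cases P
  cases Q
  congr 1
  funext w
  exact hPQ w

theorem NPo_same (hv : Codes D v) {q : ℕ} {a b' : Om W X β} (h1 : a.1 = b'.1)
    (h2 : ∀ k, D.qb (TP.nn q) (a.2.2 k) = D.qb (TP.nn q) (b'.2.2 k)) : NPo tb v q a = NPo tb v q b' := by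
  rw [NPo_iff]
  refine ⟨?_, by rw [h1], h2⟩
  rw [h1]
  exact Uq_dep hv q ∅ _ _ _ (fun i hi => absurd hi (Finset.notMem_empty i)) h2

theorem img_WE {b c d : Fin 3} (hbc : b ≠ c) (hbd : b ≠ d) (hcd : c ≠ d) {m : ℕ} {y w : Om W X β}
    (hy : D.qb m (y.2.2 d) = D.qb m (w.2.2 d)) :
    img (WE tb {b} m y) (Cx d c) = img (WE tb {b} m w) (Cx d c) := by
  refine fp_ext fun a => ?_
  show (WE tb {b} m y).Pr (fun u => Cx d c u = a) = (WE tb {b} m w).Pr (fun u => Cx d c u = a)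
  rw [C_law hbd hbc hcd.symm, C_law hbd hbc hcd.symm, hy]

variable {h : D.Thick al}

theorem rowq_same {e t t2 : ℕ} (ht : t ≤ T) (ht2 : t2 ≤ T) {c : Fin 3} {y w : Om W X β} (hy : tb.Ps.p y ≠ 0)
    (hw : tb.Ps.p w ≠ 0) (he : NPo tb v e y = NPo tb v e w) (κ : X → FP φ) (yc : β) (A : X × φ → Prop) :
    (rowq ((D.P h t).cond (xc D (Uq v e) (TP.nn e) ∅ (tb.pt t y))) D (TP.nn e) c (Uq v e {c}) κ yc).Pr A =
      (rowq ((D.P h t2).cond (xc D (Uq v e) (TP.nn e) ∅ (tb.pt t2 w))) D (TP.nn e) c (Uq v e {c}) κ yc).Pr A := by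
  unfold FP.Pr
  rw [rowq_E, rowq_E, ← (Qq_pul (h := h) (v := v) (ν := e) ht hy).E, ← (Qq_pul (h := h) (v := v) (ν := e) ht2 hw).E]
  have e1 : Qst tb v e y = Qst tb v e w := by
    unfold Qst
    rw [he]
  rw [e1]
  rfl

end frame

/-! ## the data of the rows -/

section inst

variable {X β γ φ : Type} [Fintype X] [Fintype β] [Fintype φ] [Nonempty X] [Nonempty β]
variable {D : HD (Fin 3) X β γ φ} {al : ℝ} (h : D.Thick al) {prr : ℕ → Fin 3 → φ → φ} {T : ℕ} {W : Type} [Fintype W]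
variable (tb : Tab D prr T W) (v : ℕ → Finset (Fin 3) → X → (Fin 3 → β) → Pt (Fin 3) X β φ)

/-- **THE DATA OF THE ROWS** : epoch start `ns`, `er r w` = state of the tables of a start, `rr` = start of the life of `b` at `ns`;
`G s y` = the row `(y_b; y_c, table d)` is in the set of the level `s`, `SS s y` = its worlds -/
structure HRow {ι Λ : Type} (b c d : Fin 3) (ns : ℕ) (er : ℕ → Om W X β → ℕ) (rr : Om W X β → ℕ)
    (G : ℕ → Om W X β → Prop) (SS : ℕ → Om W X β → β × W → Prop) (lb : ℕ → Om W X β → Λ)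
    (ts : ι → ℕ → β → X × φ → Pt (Fin 3) X β φ → ℝ) (I : Finset ι) (hi lo : ι → ℝ) (mu h1 gg p0 p1 δ1 : ℝ) : Prop where
  rrf : Fac (fun w => (XLo tb v b ns w, NPo tb v ns w)) rr
  rrl : ∀ w, rr w ≤ ns
  row : ∀ s y, tb.Ps.p y ≠ 0 → G s y → ∃ (mr : FP (X × φ)) (ow : X × φ),
    GhoF.Row1 (img (WE tb {b} (TP.nn (rr y)) y) (Cx d c)) I hi lo mu mr
      (fun i ρ dd => ts i (er (rr y) y) (y.2.2 c) ρ (pz tb (er (rr y) y) b c (PayG.Bx b y) (y.2.2 c) dd)) ow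
      (fun dd => ∃ y', (WE tb {b} (TP.nn (rr y)) y).p y' ≠ 0 ∧ Cx d c y' = dd ∧ vty D tb v b c d p0 (er (rr y) y) y') δ1
      (SS s y) ∧
    Uq v (er (rr y) y) {c} ow.1 y.2.2 = Uq v (er (rr y) y) {c} y.1 y.2.2 ∧
    ow.2 = tb.lab (er (rr y) y / 5) d (y.2.1 d) y.1 y.2.2 ∧
    ∀ x0, D.qa (TP.nn (er (rr y) y)) x0 = D.qa (TP.nn (er (rr y) y)) y.1 → ∀ A : X × φ → Prop,
      (rowq ((D.P h (er (rr y) y / 5)).cond (xc D (Uq v (er (rr y) y)) (TP.nn (er (rr y) y)) ∅ (tb.pt (er (rr y) y / 5) y)))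
        D (TP.nn (er (rr y) y)) c (Uq v (er (rr y) y) {c}) (fun _ => KFP h (er (rr y) y / 5) d x0 y.2.2) (y.2.2 c)).Pr A ≤
        h1 * mr.Pr A
  nam : ∀ s y, tb.Ps.p y ≠ 0 → G s y → p1 * tb.Ps.m (fun u => (u.2.2 b, NPo tb v ns u)) y ≤
    tb.Ps.m (fun u => ((u.2.2 b, NPo tb v ns u), rr u)) y
  unm : ∀ s y, tb.Ps.p y ≠ 0 → G s y →
    (Qst tb v (er ns y) y).Pr (fun u => Uq v (er (rr y) y) {c} u.1 y.2.2 = Uq v (er (rr y) y) {c} y.1 y.2.2) ≤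
      gg * (Qst tb v (er (rr y) y) y).Pr (fun u => Uq v (er (rr y) y) {c} u.1 y.2.2 = Uq v (er (rr y) y) {c} y.1 y.2.2)
  loc : ∀ s x y, tb.Ps.p x ≠ 0 → tb.Ps.p y ≠ 0 → x.1 = y.1 → x.2.2 b = y.2.2 b →
    (∀ k, D.qb (TP.nn ns) (x.2.2 k) = D.qb (TP.nn ns) (y.2.2 k)) → D.qb (TP.nn s) (x.2.2 c) = D.qb (TP.nn s) (y.2.2 c) →
    lb s x = lb s y → G s x → G s y → ∀ dd, SS s x dd ↔ SS s y dd
  lbl : ∀ s x y, tb.Ps.p x ≠ 0 → tb.Ps.p y ≠ 0 → x.1 = y.1 → x.2.2 b = y.2.2 b →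
    (∀ k, D.qb (TP.nn ns) (x.2.2 k) = D.qb (TP.nn ns) (y.2.2 k)) → Cx c d x = Cx c d y → lb s x = lb s y

variable {h tb v}
variable {ι Λ : Type} [Fintype Λ] {b c d : Fin 3} {ns : ℕ} {er : ℕ → Om W X β → ℕ} {rr : Om W X β → ℕ}
  {G : ℕ → Om W X β → Prop} {SS : ℕ → Om W X β → β × W → Prop} {lb : ℕ → Om W X β → Λ}
  {ts : ι → ℕ → β → X × φ → Pt (Fin 3) X β φ → ℝ} {I : Finset ι} {hi lo : ι → ℝ} {mu h1 gg p0 p1 δ1 : ℝ}

/-- facts about the state of the tables (RULE L) -/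
structure ErOK (tb : Tab D prr T W) (v : ℕ → Finset (Fin 3) → X → (Fin 3 → β) → Pt (Fin 3) X β φ)
    (er : ℕ → Om W X β → ℕ) : Prop where
  fac : ∀ r, Fac (NPo tb v r) (er r)
  nn : ∀ r w, TP.nn (er r w) = TP.nn r
  ge : ∀ r w, r ≤ er r w
  mono : ∀ r s w, r ≤ s → er r w ≤ er s w

/-- the name of the start of the life -/
def labN (tb : Tab D prr T W) (v : ℕ → Finset (Fin 3) → X → (Fin 3 → β) → Pt (Fin 3) X β φ) (b : Fin 3) {Nn : ℕ}
    (hNn : 0 < Nn) (p1 : ℝ) (ns : ℕ) (rr : Om W X β → ℕ) (lb : ℕ → Om W X β → Λ) (w : Om W X β) (s : ℕ) (y : Om W X β) :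
    Fin Nn × Λ := (nmi hNn (NS D tb v b p1 ns rr w (y.2.2 b)) (rr y), lb s y)

variable (h v) in
/-- the class at the tables of the state `e` -/
def P0q (tb : Tab D prr T W) (e : ℕ) (w0 : Om W X β) : FP (Pt (Fin 3) X β φ) :=
  (D.P h (e / 5)).cond (xc D (Uq v e) (TP.nn e) ∅ (tb.pt (e / 5) w0))

variable (h v ts) in
/-- the test at the tables of the public epoch -/
def fT (tb : Tab D prr T W) (c d : Fin 3) (ν t e : ℕ) (gg : ℝ) (w0 : Om W X β) (i : ι) (yc : β) (ρ : X × φ)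
    (g : Pt (Fin 3) X β φ) : ℝ :=
  ind (good D v ((D.P h t).cond (xc D (Uq v ν) (TP.nn ν) ∅ (tb.pt t w0))) (P0q h v tb e w0) e c
    (nd D (TP.nn e) (tb.pt (e / 5) w0)) gg yc ρ.1) *
    ts i e yc (ρ.1, cpm prr d (e / 5) (TP.nn ν - e / 5) ρ.2) g

theorem fT_bd {R0 : ℝ} (hT : Tst D v T c ts R0) (ν t : ℕ) {e : ℕ} (he : e / 5 ≤ T) (gg : ℝ) (w0 : Om W X β) (i : ι) (yc : β)
    (ρ : X × φ) (g : Pt (Fin 3) X β φ) : |fT h v ts tb c d ν t e gg w0 i yc ρ g| ≤ R0 := by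
  unfold fT
  have h1 := hT.bd i e he yc (ρ.1, cpm prr d (e / 5) (TP.nn ν - e / 5) ρ.2) g
  rw [abs_mul, abs_of_nonneg (ind_nonneg _)]
  have h2 := mul_le_mul_of_nonneg_right (ind_le_one (good D v ((D.P h t).cond (xc D (Uq v ν) (TP.nn ν) ∅ (tb.pt t w0)))
    (P0q h v tb e w0) e c (nd D (TP.nn e) (tb.pt (e / 5) w0)) gg yc ρ.1))
    (abs_nonneg (ts i e yc (ρ.1, cpm prr d (e / 5) (TP.nn ν - e / 5) ρ.2) g))
  linarith

/-- a point of a world inside the class -/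
structure InW (tb : Tab D prr T W) (v : ℕ → Finset (Fin 3) → X → (Fin 3 → β) → Pt (Fin 3) X β φ) (ν t : ℕ)
    (w0 w y : Om W X β) : Prop where
  p0 : tb.Ps.p w0 ≠ 0
  pw : tb.Ps.p w ≠ 0
  py : tb.Ps.p y ≠ 0
  hid : y.1 = w.1
  cel : ∀ k, D.qb (TP.nn ν) (y.2.2 k) = D.qb (TP.nn ν) (w.2.2 k)
  cls : cl D v t w = cl D v t w0

theorem InW.of {ν t : ℕ} {w0 w y : Om W X β} (hw0 : tb.Ps.p w0 ≠ 0) (hw : (Qc tb v t w0).p w ≠ 0)
    (hy : (tb.Wl (TP.nn ν) w).p y ≠ 0) : InW tb v ν t w0 w y := by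
  have h1 := (FP.cond_p_ne (tb.Ps.m_pos (cl D v t) hw0).ne').1 hw
  have h2 := (Dy.Wl_supp tb).1 hy
  have h3 := cll_eq.1 h2.2
  exact ⟨hw0, h1.2, h2.1, h3.1, h3.2, h1.1⟩

theorem InW.npo (hv : Codes D v) {ν t : ℕ} {w0 w y : Om W X β} (hi : InW tb v ν t w0 w y) {q : ℕ}
    (hq : q ≤ 5 * t) (hqn : TP.nn q ≤ TP.nn ν) : NPo tb v q y = NPo tb v q w0 :=
  (NPo_same (tb := tb) hv hi.hid fun k => Dy.qb_mono hqn (hi.cel k)).trans (NPo_le tb v hq w w0 (NPo_five.2 hi.cls))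

theorem InW.qb (hv : Codes D v) {ν t : ℕ} {w0 w y : Om W X β} (hi : InW tb v ν t w0 w y) (hν : ν ≤ 5 * t) (k : Fin 3) :
    D.qb (TP.nn ν) (y.2.2 k) = D.qb (TP.nn ν) (w0.2.2 k) := (NPo_iff.1 (hi.npo hv hν le_rfl)).2.2 k

theorem InW.qa (hv : Codes D v) {ν t : ℕ} {w0 w y : Om W X β} (hi : InW tb v ν t w0 w y) (hν : ν ≤ 5 * t) :
    D.qa (TP.nn ν) y.1 = D.qa (TP.nn ν) w0.1 := (NPo_iff.1 (hi.npo hv hν le_rfl)).2.1

/-- support of an image law -/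
theorem img_ne {Ω C : Type*} [Fintype Ω] [Fintype C] {P : FP Ω} {f : Ω → C} {a : C} (ha : (img P f).p a ≠ 0) :
    ∃ w, P.p w ≠ 0 ∧ f w = a := by
  by_contra hcon
  push Not at hcon
  exact ha ((FP.E_congr _ fun w hw => ind_not (hcon w hw)).trans (FP.E_const _ 0))

/-- what the tests see does not depend on the missing point -/
theorem pz_V (hv : Codes D v) (hbc : b ≠ c) (hbd : b ≠ d) (hcd : c ≠ d) {e : ℕ} {w : Om W X β} {yc : β}
    (hy : D.qb (TP.nn e) yc = D.qb (TP.nn e) (w.2.2 c)) :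
    Vv D v c e (pz tb e b c (PayG.Bx b w) yc (Cx d c w)) = Vv D v c e (tb.pt (e / 5) w) :=
  Prod.ext (pz_fq hv hbc hbd hcd hy) (pz_zb hv hbc hbd hcd hy)

/-- the letter at the canonical points -/
theorem Uq_yb (hv : Codes D v) {e : ℕ} {ne : γ × (Fin 3 → γ)} {y : Fin 3 → β}
    (hy : ∀ i, D.qb (TP.nn e) (y i) = ne.2 i) (x : X) :
    Uq v e {c} x (yb D (TP.nn e) c ne (y c)) = Uq v e {c} x y := by
  have h2 := yb_spec (D := D) (τ := TP.nn e) (j := c) (n := ne) (b := y c) ⟨y, rfl, hy⟩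
  exact Uq_dep hv e {c} x _ _ (fun i hi => by rw [Finset.mem_singleton.1 hi, h2.1]) fun i => by rw [h2.2 i, hy i]

/-- **ONE ROW AT THE TABLES OF THE PUBLIC EPOCH** -/
theorem row_all {R0 : ℝ} (hv : Codes D v) (hbc : b ≠ c) (hbd : b ≠ d) (hcd : c ≠ d) (hE : ErOK tb v er)
    (H : HRow h tb v b c d ns er rr G SS lb ts I hi lo mu h1 gg p0 p1 δ1) (hT : Tst D v T c ts R0) {ν t : ℕ} (ht : t ≤ T)
    {w0 w y : Om W X β} (hνd : ν = er ns w0) (hν : ν ≤ 5 * t) (hi' : InW tb v ν t w0 w y) {s : ℕ} (hG : G s y)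
    (hh1 : 0 ≤ h1) (hgg : 0 ≤ gg) (hδ1 : 0 < δ1) (hlo : ∃ i ∈ I, 0 ≤ lo i) {r e : ℕ} (hr : r = rr y) (he : e = er r w0) :
    GhoF.Row1 (img (WE tb {b} (TP.nn r) w0) (Cx d c)) I hi lo (gg * (h1 * mu))
      (rowq ((D.P h t).cond (xc D (Uq v ν) (TP.nn ν) ∅ (tb.pt t w0))) D (TP.nn ν) c (Uq v ν {c})
        (fun _ => KFP h (TP.nn ν) d w0.1 (y3 b c (y.2.2 b) (y.2.2 c) (w0.2.2 d))) (y.2.2 c))
      (fun i ρ dd => fT h v ts tb c d ν t e gg w0 i (y.2.2 c) ρ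
        (rep D v c e (pz tb e b c (w.1, y.2.2 b) (w0.2.2 c) dd)))
      (lbT D (TP.nn ν) c (Uq v ν {c}) (Xt D (TP.nn ν) (tb.pt t w)) (y.2.2 c),
        tb.lab (TP.nn ν) d (y.2.1 d) w.1 (y3 b c (y.2.2 b) (y.2.2 c) (w0.2.2 d)))
      (fun dd => rep D v c e (pz tb e b c (w.1, y.2.2 b) (w0.2.2 c) dd) ∈ VS D tb v b c d p0 e w0 (y.2.2 b) dd) δ1 (SS s y) := by
  classical
  have hns : ns ≤ ν := hνd ▸ hE.ge ns w0
  have hrn : r ≤ ns := hr ▸ H.rrl y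
  have hnr : TP.nn r ≤ TP.nn ν := TP.nn_mono (hrn.trans hns)
  have hry : NPo tb v r y = NPo tb v r w0 := hi'.npo hv (by omega) hnr
  have hey : er r y = e := (hE.fac r y w0 hry).trans he.symm
  have hνy : er ns y = ν := (hE.fac ns y w0 (hi'.npo hv (by omega) (TP.nn_mono hns))).trans hνd.symm
  have heν : e ≤ ν := by
    rw [← hey, ← hνy]
    exact hE.mono r ns y hrn
  have hne : TP.nn e = TP.nn r := he ▸ hE.nn r w0
  have hnn : TP.nn ν ≤ t := by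
    have h3 := TP.nn_mono hν
    rwa [nn5] at h3
  have heT : e / 5 ≤ T := by omega
  have hnpe : NPo tb v e y = NPo tb v e w0 := hi'.npo hv (by omega) (by rw [hne]; exact hnr)
  have hnpν : NPo tb v ν y = NPo tb v ν w0 := hi'.npo hv hν le_rfl
  have hce := (NPo_iff.1 hnpe).2
  have hcν := (NPo_iff.1 hnpν).2
  obtain ⟨mr, ow, hrow, hu, hl, hm⟩ := H.row s y hi'.py hG
  have hunm := H.unm s y hi'.py hG
  rw [← hr, hey] at hrow hu hl hm
  rw [← hr, hey, hνy] at hunm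
  have hR : img (WE tb {b} (TP.nn r) y) (Cx d c) = img (WE tb {b} (TP.nn r) w0) (Cx d c) :=
    img_WE hbc hbd hcd (by rw [← hne]; exact hce.2 d)
  rw [hR] at hrow
  -- support of the keys
  have hsup : ∀ {dd : β × W}, (img (WE tb {b} (TP.nn r) w0) (Cx d c)).p dd ≠ 0 → ∃ y', tb.Ps.p y' ≠ 0 ∧ y'.1 = y.1 ∧
      y'.2.2 b = y.2.2 b ∧ (∀ k, D.qb (TP.nn e) (y'.2.2 k) = D.qb (TP.nn e) (y.2.2 k)) ∧ Cx d c y' = dd := by
    intro dd hdd
    rw [← hR] at hdd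
    obtain ⟨y', h2, h3⟩ := img_ne hdd
    have h4 := (WE_supp tb).1 h2
    have h5 := Dy.sgt_eq.1 h4.2
    exact ⟨y', h4.1, h5.1, h5.2.1 b (Finset.mem_singleton_self b), by rw [hne]; exact h5.2.2, h3⟩
  have hV1 : ∀ {dd : β × W} {y' : Om W X β}, y'.1 = y.1 → y'.2.2 b = y.2.2 b →
      (∀ k, D.qb (TP.nn e) (y'.2.2 k) = D.qb (TP.nn e) (y.2.2 k)) → Cx d c y' = dd →
      Vv D v c e (pz tb e b c (PayG.Bx b y) (y.2.2 c) dd) = Vv D v c e (tb.pt (e / 5) y') := by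
    intro dd y' a1 a2 a3 a4
    have e1 : PayG.Bx b y = PayG.Bx b y' := Prod.ext a1.symm a2.symm
    rw [e1, ← a4]
    exact pz_V hv hbc hbd hcd (a3 c).symm
  have hV2 : ∀ {dd : β × W} {y' : Om W X β}, y'.1 = y.1 → y'.2.2 b = y.2.2 b →
      (∀ k, D.qb (TP.nn e) (y'.2.2 k) = D.qb (TP.nn e) (y.2.2 k)) → Cx d c y' = dd →
      Vv D v c e (pz tb e b c (w.1, y.2.2 b) (w0.2.2 c) dd) = Vv D v c e (tb.pt (e / 5) y') := by
    intro dd y' a1 a2 a3 a4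
    have e1 : (w.1, y.2.2 b) = PayG.Bx b y' := Prod.ext (hi'.hid.symm.trans a1.symm) a2.symm
    rw [e1, ← a4]
    exact pz_V hv hbc hbd hcd ((hce.2 c).symm.trans (a3 c).symm)
  set nν := nd D (TP.nn ν) (tb.pt t w0) with hnν
  set ne := nd D (TP.nn e) (tb.pt (e / 5) w0) with hned
  have hex : ∃ y' : Fin 3 → β, y' c = y.2.2 c ∧ (∀ i, D.qb (TP.nn ν) (y' i) = nν.2 i) ∧
      ∀ i, D.qb (TP.nn e) (y' i) = ne.2 i := ⟨y.2.2, rfl, hcν.2, hce.2⟩
  have hyb : ∀ x, Uq v e {c} x (yb D (TP.nn e) c ne (y.2.2 c)) = Uq v e {c} x y.2.2 := Uq_yb hv hce.2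
  have hdep : ∀ q, TP.nn q ≤ TP.nn ν → ∀ k, D.qb (TP.nn q) (y3 b c (y.2.2 b) (y.2.2 c) (w0.2.2 d) k) =
      D.qb (TP.nn q) (y.2.2 k) := by
    intro q hq k
    unfold y3
    rcases PayG.f3 hbc hbd hcd k with rfl | rfl | rfl
    · rw [if_pos rfl]
    · rw [if_neg hbc.symm, if_pos rfl]
    · rw [if_neg hbd.symm, if_neg hcd.symm]
      exact (Dy.qb_mono hq (hcν.2 _)).symm
  have hy3 : ∀ k, k ≠ d → y3 b c (y.2.2 b) (y.2.2 c) (w0.2.2 d) k = y.2.2 k := by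
    intro k hk
    unfold y3
    rcases PayG.f3 hbc hbd hcd k with rfl | rfl | rfl
    · rw [if_pos rfl]
    · rw [if_neg hbc.symm, if_pos rfl]
    · exact absurd rfl hk
  have hqe : e / 5 ≤ TP.nn e := TP.nn_le e
  have hK0 : KFP h (e / 5) d w0.1 (y3 b c (y.2.2 b) (y.2.2 c) (w0.2.2 d)) = KFP h (e / 5) d w0.1 y.2.2 := by
    refine fp_ext fun F => ?_
    show D.kf (e / 5) d w0.1 (y3 b c (y.2.2 b) (y.2.2 c) (w0.2.2 d)) F = D.kf (e / 5) d w0.1 y.2.2 F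
    rw [D.dep (e / 5) d w0.1 _ y.2.2 hy3 (Dy.qb_mono hqe (hdep e (TP.nn_mono heν) d))]
  have hown : lbT D (TP.nn ν) c (Uq v ν {c}) (Xt D (TP.nn ν) (tb.pt t w)) (y.2.2 c) = cn D v ν c nν (y.2.2 c) w.1 := by
    have h4 : nd D (TP.nn ν) (tb.pt t w) = nν := by
      have h5 := NPo_iff.1 (NPo_le tb v hν w w0 (NPo_five.2 hi'.cls))
      exact Prod.ext h5.2.1 (funext h5.2.2)
    unfold cn Xt
    rw [h4]
    rfl
  have hcl0 : ∀ {q q' : ℕ} (_ : q' ≤ T) (u : Pt (Fin 3) X β φ),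
      ((D.P h q').cond (xc D (Uq v q) (TP.nn q) ∅ (tb.pt q' w0))).p u ≠ 0 → nd D (TP.nn q) u = nd D (TP.nn q) (tb.pt q' w0) :=
    fun {q q'} hq' u hu => BB_nd (cond_supp (FP.Pr_pos_of ((pul_pt h tb hq').ne hi'.p0)
      (xc_self (Uq v q) (TP.nn q) ∅ (tb.pt q' w0))).ne' hu).1.2
  have hK := fun g => KFP_push (tb := tb) h d (show e / 5 ≤ TP.nn ν from hqe.trans (TP.nn_mono heν)) (hnn.trans ht) w0.1
    (y3 b c (y.2.2 b) (y.2.2 c) (w0.2.2 d)) g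
  have hcnu : ∀ x, cn D v e c ne (y.2.2 c) x = cn D v e c ne (y.2.2 c) y.1 ↔ Uq v e {c} x y.2.2 = Uq v e {c} y.1 y.2.2 := by
    intro x
    constructor
    · intro hh
      have h4 := cn_sp (D := D) (v := v) (e := e) (c := c) (ne := ne) (yc := y.2.2 c) x
      have h5 := cn_sp (D := D) (v := v) (e := e) (c := c) (ne := ne) (yc := y.2.2 c) y.1
      rw [hh, h5, hyb, hyb] at h4
      exact h4.symm
    · intro hh
      exact cn_of (by rw [hyb, hyb]; exact hh)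
  have hcf : cn D v e c ne (y.2.2 c) (cn D v ν c nν (y.2.2 c) w.1) = cn D v e c ne (y.2.2 c) y.1 := by
    rw [hi'.hid]
    exact cn_fine (v := v) (D := D) hv heν hex w.1
  refine row1_st (P1 := (D.P h t).cond (xc D (Uq v ν) (TP.nn ν) ∅ (tb.pt t w0))) (P0 := P0q h v tb e w0) (c := c)
    (yc := y.2.2 c) (ne := ne) (nν := nν) (mr := mr)
    (F := fun i ρ dd => ts i e (y.2.2 c) ρ (pz tb e b c (PayG.Bx b y) (y.2.2 c) dd)) (own := ow)
    (Va := fun dd => ∃ y', (WE tb {b} (TP.nn r) y).p y' ≠ 0 ∧ Cx d c y' = dd ∧ vty D tb v b c d p0 e y')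
    (K0 := KFP h (e / 5) d w0.1 (y3 b c (y.2.2 b) (y.2.2 c) (w0.2.2 d))) (pm := cpm prr d (e / 5) (TP.nn ν - e / 5))
    hv heν hex (hcl0 ht) (hcl0 heT) hgg hK hδ1 hrow hh1 ?_ ?_ ?_ hlo ?_ ?_ ?_ ?_
  · -- reference law
    intro A
    rw [hK0]
    refine le_trans (le_of_eq ?_) (hm w0.1 hce.1.symm A)
    exact (rowq_same (h := h) heT heT hi'.py hi'.p0 hnpe _ _ A).symm
  · -- the tests see the canonical point
    intro i x x' F dd hdd hx
    obtain ⟨y', a0, a1, a2, a3, a4⟩ := hsup hdd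
    refine hT.fr i e (y.2.2 c) x x' F _ fun y2 b1 b2 => ?_
    have b3 : ∀ k, D.qb (TP.nn e) (y2 k) = ne.2 k := by
      intro k
      rw [b2 k]
      show D.qb (TP.nn e) (y3 b c (y.2.2 b) (y.2.2 c) dd.1 k) = D.qb (TP.nn e) (w0.2.2 k)
      unfold y3
      rcases PayG.f3 hbc hbd hcd k with rfl | rfl | rfl
      · rw [if_pos rfl]
        exact hce.2 _
      · rw [if_neg hbc.symm, if_pos rfl]
        exact hce.2 _
      · rw [if_neg hbd.symm, if_neg hcd.symm, ← a4]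
        exact (a3 _).trans (hce.2 _)
    have h6 : ∀ x, Uq v e {c} x y2 = Uq v e {c} x (yb D (TP.nn e) c ne (y.2.2 c)) := fun x => by
      rw [← b1]
      exact (Uq_yb hv b3 x).symm
    have h4 := cn_sp (D := D) (v := v) (e := e) (c := c) (ne := ne) (yc := y.2.2 c) x
    have h5 := cn_sp (D := D) (v := v) (e := e) (c := c) (ne := ne) (yc := y.2.2 c) x'
    rw [h6, h6, ← h4, ← h5, hx]
  · -- the tests
    intro i ρ dd hdd _
    obtain ⟨y', a0, a1, a2, a3, a4⟩ := hsup hdd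
    unfold fT
    rw [hT.fp i e (y.2.2 c) (ρ.1, cpm prr d (e / 5) (TP.nn ν - e / 5) ρ.2) _ _ ((rep_sp D v c e _).trans
      ((hV2 a1 a2 a3 a4).trans (hV1 a1 a2 a3 a4).symm))]
  · -- own row, hidden point
    show cn D v e c ne (y.2.2 c) (lbT D (TP.nn ν) c (Uq v ν {c}) (Xt D (TP.nn ν) (tb.pt t w)) (y.2.2 c)) = _
    rw [hown, hcf]
    exact ((hcnu ow.1).2 hu).symm
  · -- own row, label
    show cpm prr d (e / 5) (TP.nn ν - e / 5) (tb.lab (TP.nn ν) d (y.2.1 d) w.1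
      (y3 b c (y.2.2 b) (y.2.2 c) (w0.2.2 d))) = ow.2
    have h4 : e / 5 + (TP.nn ν - e / 5) = TP.nn ν := Nat.add_sub_cancel' (hqe.trans (TP.nn_mono heν))
    have h5 := cpm_lab (tb := tb) (X := X) (β := β) d (e / 5) (k := TP.nn ν - e / 5) (by omega) (Ps_pne.1 hi'.py d) w.1
      (y3 b c (y.2.2 b) (y.2.2 c) (w0.2.2 d))
    rw [h4] at h5
    rw [h5, hl, ← hi'.hid]
    exact tb.dep (e / 5) d (y.2.1 d) y.1 _ _ hy3 (Dy.qb_mono hqe (hdep e (TP.nn_mono heν) d))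
  · -- the letter has gained little
    show good D v _ _ e c ne gg (y.2.2 c) (lbT D (TP.nn ν) c (Uq v ν {c}) (Xt D (TP.nn ν) (tb.pt t w)) (y.2.2 c))
    rw [hown]
    unfold good
    rw [hcf]
    have e1 : ∀ {q q' : ℕ} (_ : q' ≤ T), NPo tb v q y = NPo tb v q w0 →
        ((D.P h q').cond (xc D (Uq v q) (TP.nn q) ∅ (tb.pt q' w0))).Pr (fun u => cn D v e c ne (y.2.2 c) u.1 =
          cn D v e c ne (y.2.2 c) y.1) = (Qst tb v q y).Pr (fun u => Uq v e {c} u.1 y.2.2 = Uq v e {c} y.1 y.2.2) := by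
      intro q q' hq' hq
      unfold FP.Pr
      rw [← (Qq_pul (h := h) (v := v) (ν := q) hq' hi'.p0).E]
      have e2 : Qst tb v q y = Qst tb v q w0 := by
        unfold Qst
        rw [hq]
      rw [e2]
      exact FP.E_congr _ fun u _ => congrArg ind (propext (hcnu u.1))
    rw [e1 ht hnpν]
    unfold P0q
    rw [e1 heT hnpe]
    exact hunm
  · -- values
    intro dd hdd _ hVa
    obtain ⟨y', b1, b2, b3⟩ := hVa
    have h4 := (WE_supp tb).1 b1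
    have h5 := Dy.sgt_eq.1 h4.2
    have a3 : ∀ k, D.qb (TP.nn e) (y'.2.2 k) = D.qb (TP.nn e) (y.2.2 k) := by rw [hne]; exact h5.2.2
    have a2 := h5.2.1 b (Finset.mem_singleton_self b)
    have h6 : NPo tb v e y' = NPo tb v e w0 := (NPo_same (tb := tb) hv h5.1 a3).trans hnpe
    have hd1 : y'.2.2 d = dd.1 := congrArg Prod.fst b2
    have hV := (rep_sp D v c e (pz tb e b c (w.1, y.2.2 b) (w0.2.2 c) dd)).trans (hV2 h5.1 a2 a3 b2)
    refine mem_filter.2 ⟨mem_univ _, rep_rep D v c e _, ?_, ?_⟩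
    · exact FP.Pr_pos_of h4.1 ⟨a2, hd1, h6⟩
    · have e1 : tb.Ps.m (fun u => (u.2.2 b, (u.2.2 d, NPo tb v e u))) y' = tb.Ps.Pr (Qv D tb v b d e w0 (y.2.2 b) dd) := by
        refine FP.E_congr _ fun u _ => congrArg ind (propext ?_)
        show (u.2.2 b, (u.2.2 d, NPo tb v e u)) = (y'.2.2 b, (y'.2.2 d, NPo tb v e y')) ↔ _
        rw [Prod.mk.injEq, Prod.mk.injEq, a2, hd1, h6]
        exact Iff.rfl
      have e2 : tb.Ps.m (fun u => ((u.2.2 b, (u.2.2 d, NPo tb v e u)), Vv D v c e (tb.pt (e / 5) u))) y' =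
          tb.Ps.Pr (fun u => Qv D tb v b d e w0 (y.2.2 b) dd u ∧ Vv D v c e (tb.pt (e / 5) u) =
            Vv D v c e (rep D v c e (pz tb e b c (w.1, y.2.2 b) (w0.2.2 c) dd))) := by
        refine FP.E_congr _ fun u _ => congrArg ind (propext ?_)
        show ((u.2.2 b, (u.2.2 d, NPo tb v e u)), Vv D v c e (tb.pt (e / 5) u)) =
          ((y'.2.2 b, (y'.2.2 d, NPo tb v e y')), Vv D v c e (tb.pt (e / 5) y')) ↔ _
        rw [Prod.mk.injEq, Prod.mk.injEq, Prod.mk.injEq, a2, hd1, h6, hV]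
        exact Iff.rfl
      rw [← e1, ← e2]
      exact b3

/-- the start of the life is seen by the exact point and the cells -/
theorem rr_same (hv : Codes D v) (hrr : Fac (fun w => (XLo tb v b ns w, NPo tb v ns w)) rr) {x y : Om W X β} (e1 : x.1 = y.1)
    (e2 : x.2.2 b = y.2.2 b) (e3 : ∀ k, D.qb (TP.nn ns) (x.2.2 k) = D.qb (TP.nn ns) (y.2.2 k)) : rr x = rr y := by
  refine hrr x y (Prod.ext ?_ (NPo_same (tb := tb) hv e1 e3))
  show (x.2.2 b, Uq v ns {b} x.1 x.2.2) = (y.2.2 b, Uq v ns {b} y.1 y.2.2)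
  rw [e2, e1, Uq_dep hv ns {b} y.1 x.2.2 y.2.2 (fun i hi => by rw [Finset.mem_singleton.1 hi, e2]) e3]

/-- a label of a possible table is possible -/
theorem lab_kf {t : ℕ} (ht : t ≤ T) {i : Fin 3} {θ : W} (hθ : (tb.Q i).p θ ≠ 0) (x : X) (y : Fin 3 → β) :
    D.kf t i x y (tb.lab t i θ x y) ≠ 0 := by
  classical
  intro h0
  have h1 := tb.law t ht i x y (fun G => ind (G = tb.lab t i θ x y))
  have h2 : ∑ G, D.kf t i x y G * ind (G = tb.lab t i θ x y) = 0 := by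
    refine sum_eq_zero fun G _ => ?_
    by_cases hG : G = tb.lab t i θ x y
    · rw [hG, h0, zero_mul]
    · rw [ind_not hG, mul_zero]
  rw [h2] at h1
  have h3 : 0 < (tb.Q i).Pr (fun ω => tb.lab t i ω x y = tb.lab t i θ x y) := FP.Pr_pos_of hθ rfl
  have h4 : (tb.Q i).Pr (fun ω => tb.lab t i ω x y = tb.lab t i θ x y) = 0 := h1
  linarith

/-- the name of the start of the life -/
theorem nm_ok (hv : Codes D v) (H : HRow h tb v b c d ns er rr G SS lb ts I hi lo mu h1 gg p0 p1 δ1) {ν t Nn : ℕ}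
    {w0 w y : Om W X β} (hns : ns ≤ ν) (hν : ν ≤ 5 * t) (hi' : InW tb v ν t w0 w y) {s : ℕ} (hG : G s y) (hp1 : 0 < p1)
    (hNn : 0 < Nn) (hN1 : 1 / p1 ≤ Nn) :
    nmr (NS D tb v b p1 ns rr w0 (y.2.2 b)) (nmi hNn (NS D tb v b p1 ns rr w (y.2.2 b)) (rr y)) = rr y := by
  classical
  have hnpy : NPo tb v ns y = NPo tb v ns w0 := hi'.npo hv (hns.trans hν) (TP.nn_mono hns)
  have hnpw : NPo tb v ns w = NPo tb v ns w0 := NPo_le tb v (hns.trans hν) w w0 (NPo_five.2 hi'.cls)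
  rw [NS_congr D tb v hnpw]
  refine nmr_nmi hNn ?_ ?_
  · have h4 := (NS_card D tb v b hp1 ns rr w0 (y.2.2 b)).trans hN1
    exact_mod_cast h4
  · refine mem_filter.2 ⟨mem_range.2 (Nat.lt_succ_of_le (H.rrl y)), ?_, ?_⟩
    · exact FP.Pr_pos_of hi'.py ⟨rfl, hnpy⟩
    · have h3 := H.nam s y hi'.py hG
      have e1 : tb.Ps.m (fun u => (u.2.2 b, NPo tb v ns u)) y = tb.Ps.Pr (Qn D tb v b ns w0 (y.2.2 b)) := by
        refine FP.E_congr _ fun u _ => congrArg ind (propext ?_)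
        show (u.2.2 b, NPo tb v ns u) = (y.2.2 b, NPo tb v ns y) ↔ _
        rw [Prod.mk.injEq, hnpy]
        exact Iff.rfl
      have e2 : tb.Ps.m (fun u => ((u.2.2 b, NPo tb v ns u), rr u)) y =
          tb.Ps.Pr (fun u => Qn D tb v b ns w0 (y.2.2 b) u ∧ rr u = rr y) := by
        refine FP.E_congr _ fun u _ => congrArg ind (propext ?_)
        show ((u.2.2 b, NPo tb v ns u), rr u) = ((y.2.2 b, NPo tb v ns y), rr y) ↔ _
        rw [Prod.mk.injEq, Prod.mk.injEq, hnpy]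
        exact Iff.rfl
      rw [← e1, ← e2]
      exact h3

/-- **THE THIN COVER IN ONE PUBLIC CLASS** -/
theorem thin_st {R0 : ℝ} {Nf : Finset (Fin 3) → ℝ} {S : Finset (Finset (Fin 3))} (hv : Codes D v) (hbc : b ≠ c)
    (hbd : b ≠ d) (hcd : c ≠ d) (hE : ErOK tb v er) (H : HRow h tb v b c d ns er rr G SS lb ts I hi lo mu h1 gg p0 p1 δ1)
    (hT : Tst D v T c ts R0) {ν t : ℕ} (ht : t ≤ T) (hs : SatA (D.P h t) (BB D t) Nf S (LL (Um v (t + 1))) (Dep D t))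
    (hN : ∀ J ∈ S, 0 ≤ Nf J) (hKS : ∅ ∈ S) (hN0 : 0 < Nf ∅) (hcS : {c} ∈ S) {w0 : Om W X β} (hw0 : tb.Ps.p w0 ≠ 0)
    (hνd : ν = er ns w0) (hν : ν ≤ 5 * t) (hR0 : 0 < R0) {δ : ℝ} {mid : ι → ℝ} (hδ : 0 ≤ δ)
    (hm1 : ∀ i ∈ I, mid i + δ ≤ hi i) (hm2 : ∀ i ∈ I, lo i + δ ≤ mid i) (hlo : ∃ i ∈ I, 0 ≤ lo i) (hmu : 0 < mu)
    (hh1 : 0 < h1) (hgg : 0 < gg) {k : ℕ}
    (hk : (I.card + 1 / (gg * (h1 * mu))) * Real.exp (-(k * δ ^ 2 / (8 * R0 ^ 2))) ≤ 1 / 4) (hp0 : 0 < p0) (hp1 : 0 < p1)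
    {B1 : ℝ} (hB1 : 1 / p0 ≤ B1) {Nn : ℕ} (hNn : 0 < Nn) (hN1 : 1 / p1 ≤ Nn) (hδ1 : 0 < δ1) {u v1 : ℝ} (hv1 : 0 < v1)
    {M Jm : ℕ} (hJ : 1 ≤ v1 * Jm) (z : Fin M → β) {t' x : ℝ} (ht' : 0 < t')
    (htu : Real.exp t' * (1 / al * (2 * (gg * (h1 * mu)))) ≤ t' * v1 / 16) (hx : x ≤ Nf {c} / Nf ∅ * v1 / 8)
    (hy : 2 * (Fintype.card (Fin M × Fin Jm × Fin Nn) * (1 * B1 ^ k) * Real.exp (-x)) ≤ δ1 ^ k / 2) :
    (Qc tb v t w0).E (PhW tb b c d ν u v1 z (fun _ => G) (labN tb v b hNn p1 ns rr lb) (5 * t)) ≤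
      16 / t' * kcq tb v c ν t w0 +
        2 * Real.exp 1 * (Fintype.card (Fin M × Fin Jm × Fin Nn) * (1 * B1 ^ k) * Real.exp (-x) / (δ1 ^ k / 2)) := by
  classical
  have hns : ns ≤ ν := hνd ▸ hE.ge ns w0
  have hnn : TP.nn ν = TP.nn ns := hνd ▸ hE.nn ns w0
  have hnt : TP.nn ν ≤ t := by
    have h3 := TP.nn_mono hν
    rwa [nn5] at h3
  -- the name and the start
  have hat : ∀ {w y : Om W X β}, InW tb v ν t w0 w y → rr (atb b w (y.2.2 b)) = rr y := by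
    intro w y hi'
    refine rr_same (x := atb b w (y.2.2 b)) (y := y) hv H.rrf hi'.hid.symm (Function.update_self _ _ _) fun k => ?_
    show D.qb (TP.nn ns) (Function.update w.2.2 b (y.2.2 b) k) = D.qb (TP.nn ns) (y.2.2 k)
    by_cases hkb : k = b
    · subst hkb
      rw [Function.update_self]
    · rw [Function.update_of_ne hkb, ← hnn]
      exact (hi'.cel k).symm
  have hwd : ∀ {w x y : Om W X β}, InW tb v ν t w0 w x → InW tb v ν t w0 w y → x.2.2 b = y.2.2 b → rr x = rr y := by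
    intro w x y hx hy' hb
    rw [← hat hx, ← hat hy', hb]
  refine thin_class (h := h) hv hν ht hs hN hKS hN0 hcS hw0 b d z (Λ := Fin Nn × Λ) (Nm := Fin Nn) (Ee := Unit)
    (Γ := Pt (Fin 3) X β φ) (Dk := β × W) (I := I) (hi := hi) (mid := mid) (lw := lo) (R0 := R0) (δ := δ)
    (mu := gg * (h1 * mu)) (B0 := 1) (B1 := B1) (k := k)
    (f := fun i bb n _ yc ρ _ g => fT h v ts tb c d ν t (er (nmr (NS D tb v b p1 ns rr w0 bb) n) w0) gg w0 i yc ρ g)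
    (Ve := fun _ _ => univ)
    (Vs := fun bb n dd => VS D tb v b c d p0 (er (nmr (NS D tb v b p1 ns rr w0 bb) n) w0) w0 bb dd)
    (fun bb yc => y3 b c bb yc (w0.2.2 d)) (fun bb _ _ yc _ => KFP h (TP.nn ν) d w0.1 (y3 b c bb yc (w0.2.2 d)))
    ?_ hR0 hδ (fun i bb n _ yc ρ _ g => fT_bd hT _ _ (by
      have a1 := hE.mono _ _ w0 (nmr_le (m := ns) (S := NS D tb v b p1 ns rr w0 bb) (Finset.filter_subset _ _) n)
      omega) _ _ _ _ _ _) hm1 hm2 (by positivity) hk (fun _ _ => by simp)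
    (fun bb n dd => (VS_card D tb v b c d hp0 _ w0 bb dd).trans hB1)
    (own := fun w bb θ yc => (lbT D (TP.nn ν) c (Uq v ν {c}) (Xt D (TP.nn ν) (tb.pt t w)) yc,
      tb.lab (TP.nn ν) d θ w.1 (y3 b c bb yc (w0.2.2 d)))) ?_
    (R := fun bb n => img (WE tb {b} (TP.nn (nmr (NS D tb v b p1 ns rr w0 bb) n)) w0) (Cx d c))
    (eta := fun _ _ _ => ())
    (γk := fun w bb n dd => rep D v c (er (nmr (NS D tb v b p1 ns rr w0 bb) n) w0)
      (pz tb (er (nmr (NS D tb v b p1 ns rr w0 bb) n) w0) b c (w.1, bb) (w0.2.2 c) dd))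
    (nm := Prod.fst) (SSf := fun _ => SS)
    (nmw := fun w bb => nmi hNn (NS D tb v b p1 ns rr w bb) (rr (atb b w bb))) ?_ ?_ ?_ hδ1 ?_ hv1 hJ ht' htu hx hy
    zero_le_one (le_trans (by positivity) hB1)
  · -- thickness
    rintro bb n - yc x' F ⟨x1, hq1, hkf⟩
    exact h.thick (TP.nn ν) d x1 w0.1 _ F hq1 hkf
  · -- own rows are possible
    intro w bb θ yc hw hθ _
    refine ⟨rfl, w.1, ?_, lab_kf (hnt.trans ht) hθ _ _⟩
    have h2 := (FP.cond_p_ne (tb.Ps.m_pos (cl D v t) hw0).ne').1 hw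
    exact (NPo_iff.1 (NPo_le tb v hν w w0 (NPo_five.2 h2.1))).2.1
  · -- labels
    intro w s x y hw hx' hy' hB hC
    have i1 := InW.of hw0 hw hx'
    have i2 := InW.of hw0 hw hy'
    have hB' : x.2.2 b = y.2.2 b := hB
    show (nmi hNn (NS D tb v b p1 ns rr w (x.2.2 b)) (rr x), lb s x) = (nmi hNn (NS D tb v b p1 ns rr w (y.2.2 b)) (rr y), lb s y)
    rw [hB', hwd i1 i2 hB', H.lbl s x y i1.py i2.py (i1.hid.trans i2.hid.symm) hB'
      (fun k => by rw [← hnn]; exact (i1.cel k).trans (i2.cel k).symm) hC]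
  · -- sets of keys
    intro w s x y hw hx' hy' hB hcc hl hGx hGy
    have i1 := InW.of hw0 hw hx'
    have i2 := InW.of hw0 hw hy'
    exact H.loc s x y i1.py i2.py (i1.hid.trans i2.hid.symm) hB
      (fun k => by rw [← hnn]; exact (i1.cel k).trans (i2.cel k).symm) hcc (Prod.mk.inj hl).2 hGx hGy
  · -- names
    intro w s y hw hy' _
    show nmi hNn (NS D tb v b p1 ns rr w (y.2.2 b)) (rr y) = nmi hNn (NS D tb v b p1 ns rr w (y.2.2 b)) (rr (atb b w (y.2.2 b)))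
    rw [hat (InW.of hw0 hw hy')]
  · -- rows
    intro w s y n hw hy' hG hn
    have hi' := InW.of hw0 hw hy'
    have hr : nmr (NS D tb v b p1 ns rr w0 (y.2.2 b)) n = rr y := by
      rw [hn]
      show nmr _ (nmi hNn (NS D tb v b p1 ns rr w (y.2.2 b)) (rr (atb b w (y.2.2 b)))) = _
      rw [hat hi']
      exact nm_ok hv H hns hν hi' hG hp1 hNn hN1
    have h4 := row_all hv hbc hbd hcd hE H hT ht hνd hν hi' hG hh1.le hgg.le hδ1 hlo hr rfl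
    exact ⟨h4.ss, fun dd hdd hS => ⟨mem_univ _, h4.al dd hdd hS⟩, h4.ho, h4.hm⟩

end inst

end

end Pool.Agent.GMH.VSc
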