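import Pool.Agent.GMH.VSr
import Pool.Agent.GMH.UVZ
import Pool.Agent.GMH.PayGd

/-!
# GMH/VSt (helper40): ROWS AND COLUMNS AT AN EXACT VERTEX `b` OVER `US` ON THE TABLE SPACE (input (I1) of `Unm`)

* `old_lives`, `split_J` : the decided lives = lives which run at the public start of `T^b` (life by life, `tlr r s`)
  + young lives; `to_pub` : an event of the times of the old lives, summed over the public starts;
* `mRE`, `mGE`, `vioE`, `VYE`, `yzE` : the young lives, at the first end after `T^b`, exact vertices `E`.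
-/

set_option autoImplicit false
set_option linter.unusedSectionVars false

namespace Pool.Agent.GMH.VSt

open Finset Pool.Agent.PWZ Pool.Agent.M3 Pool.Agent.GM Pool.Agent.GM.Harm Pool.Agent.GMH
open Pool.Agent.GMH.Gdy Pool.Agent.GMH.Dy Pool.Agent.GMH.TabF Pool.Agent.GMH.Blk
open Pool.Agent.GMH.MV Pool.Agent.GMH.CK
open Pool.Agent.GMH.UV (US Kd Seen tv Mx M0 Z0 zt blk dd bet tkx)
open Pool.Agent.GMH.UV0 (OnTab NS SW)
open Pool.Agent.GMH.UVZ (tkn tky yng ynp yend dcR tau_le nu_le tau_mid nu_mid sum_one sum_pt life_time split_C NC NC_ge)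

noncomputable section

/-! ## the lives, for one point -/

section path

variable {Om : Type} [Fintype Om] {M : US Om} {Q : Kd Om} {v : Fin 3} {T : ℕ} {w : Om}

variable (M Q T) in
/-- `T^v = s < T` in the life `r`, which runs at the public start of `s` -/
def tlr (v : Fin 3) (r s : ℕ) (w : Om) : Prop :=
  s < T ∧ tv M v s w = r ∧ r ≤ nu M.toMS s w ∧ tkx M Q v s w

theorem tlr_one {r s s' : ℕ} (h : tlr M Q T v r s w) (h' : tlr M Q T v r s' w) : s = s' :=
  UV.tkx_one h.2.2.2 h'.2.2.2 (h.2.1.trans h'.2.1.symm)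

theorem tlr_lt {r s : ℕ} (h : tlr M Q T v r s w) : s < T := h.1

theorem tlr_le {r s : ℕ} (h : tlr M Q T v r s w) : r ≤ s := by
  rw [← h.2.1]
  exact tau_le v s w

theorem tlr_start {r s : ℕ} (h : tlr M Q T v r s w) : tv M v r w = r := by
  rw [← h.2.1]
  exact stg_idem s w

theorem tlr_tkn {r s : ℕ} (h : tlr M Q T v r s w) : tkn M Q T (nu M.toMS s w) v s w :=
  ⟨h.1, rfl, by rw [h.2.1]; exact h.2.2.1, h.2.2.2⟩

theorem tkn_tlr {n s : ℕ} (h : tkn M Q T n v s w) : tlr M Q T v (tv M v n w) s w :=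
  ⟨h.1, (UVZ.tkn_tau h).symm, by rw [UVZ.tkn_tau h, h.2.1]; exact h.2.2.1, h.2.2.2⟩

/-- the old lives, life by life -/
theorem old_lives (R : ℕ → Om → Prop) (g : ℕ → Om → ℝ) :
    ∑ s ∈ range T, ind ((tkx M Q v s w ∧ tv M v s w ≤ nu M.toMS s w) ∧ R (tv M v s w) w) * g (tv M v s w) w =
      ∑ r ∈ range T, ind (tv M v r w = r) * (ind (R r w ∧ ∃ s, tlr M Q T v r s w) * g r w) := by
  classical
  have e1 : ∀ r, ind (tv M v r w = r) * (ind (R r w ∧ ∃ s, tlr M Q T v r s w) * g r w) =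
      ∑ s ∈ range T, ind (tv M v s w = r ∧ (tlr M Q T v r s w ∧ R r w)) * g r w := by
    intro r
    rw [← Finset.sum_mul, sum_one fun s s' h h' => tlr_one h.2.1 h'.2.1, ← mul_assoc, ← ind_and]
    congr 1
    congr 1
    exact propext ⟨fun ⟨_, hr, s, hs⟩ => ⟨s, hs.1, hs.2.1, hs, hr⟩, fun ⟨s, _, _, h, hr⟩ => ⟨tlr_start h, hr, s, h⟩⟩
  rw [Finset.sum_congr rfl fun r _ => e1 r, Finset.sum_comm]
  refine Finset.sum_congr rfl fun s hs => ?_
  rw [sum_pt (m := tv M v s w) (f := fun r => g r w) (fun r h => h.1.symm)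
    fun _ => lt_of_le_of_lt (tau_le v s w) (mem_range.1 hs)]
  congr 1
  congr 1
  exact propext ⟨fun h => ⟨rfl, ⟨mem_range.1 hs, rfl, h.1.2, h.1.1⟩, h.2⟩,
    fun h => ⟨⟨h.2.1.2.2.2, h.2.1.2.2.1⟩, h.2.2⟩⟩

/-- **THE SPLIT, LIFE BY LIFE** -/
theorem split_J (R : ℕ → Om → Prop) (g : ℕ → Om → ℝ) :
    ∑ τ ∈ range T, ind (tv M v τ w = τ ∧ dcR M Q T v R τ w) * g τ w =
      ∑ r ∈ range T, ind (tv M v r w = r) * (ind (R r w ∧ ∃ s, tlr M Q T v r s w) * g r w) +
      (∑ q ∈ range T, ind (yend M Q v q w ∧ R (tv M v q w) w) * g (tv M v q w) w +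
      ind (ynp M Q v T w ∧ R (tv M v T w) w) * g (tv M v T w) w) := by
  rw [life_time, ← old_lives, ← split_C, ← Finset.sum_add_distrib]
  refine Finset.sum_congr rfl fun s _ => ?_
  rw [← add_mul]
  congr 1
  by_cases h : tv M v s w ≤ nu M.toMS s w
  · rw [ind_not (fun a => absurd a.1.2 (not_lt.2 h) : ¬ (tky M Q v s w ∧ R (tv M v s w) w)), add_zero]
    congr 1
    exact propext ⟨fun a => ⟨⟨a.1, h⟩, a.2⟩, fun a => ⟨a.1.1, a.2⟩⟩
  · rw [ind_not (fun a => h a.1.2 : ¬ ((tkx M Q v s w ∧ tv M v s w ≤ nu M.toMS s w) ∧ R (tv M v s w) w)),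
      zero_add]
    congr 1
    exact propext ⟨fun a => ⟨⟨a.1, not_le.1 h⟩, a.2⟩, fun a => ⟨a.1.1, a.2⟩⟩

/-- an event of the times of the old lives, by the public starts -/
theorem to_pub (R : ℕ → Om → Prop) (G : ℕ → ℕ → Om → Prop) :
    ∑ r ∈ range T, ind (tv M v r w = r) * ind (R r w ∧ ∃ s, tlr M Q T v r s w ∧ G r s w) =
      ∑ n ∈ range T, ind (nu M.toMS n w = n) *
        ind (R (tv M v n w) w ∧ ∃ s, tkn M Q T n v s w ∧ G (tv M v n w) s w) := by
  classical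
  have e1 : ∀ r, ind (tv M v r w = r) * ind (R r w ∧ ∃ s, tlr M Q T v r s w ∧ G r s w) =
      ∑ s ∈ range T, ind (tv M v s w = r ∧ ((tlr M Q T v r s w ∧ G r s w) ∧ R r w)) := by
    intro r
    rw [sum_one fun s s' h h' => tlr_one h.2.1.1 h'.2.1.1, ← ind_and]
    congr 1
    exact propext ⟨fun ⟨_, hr, s, hs, hg⟩ => ⟨s, hs.1, hs.2.1, ⟨hs, hg⟩, hr⟩,
      fun ⟨s, _, _, ⟨h, hg⟩, hr⟩ => ⟨tlr_start h, hr, s, h, hg⟩⟩
  have e2 : ∀ n, ind (nu M.toMS n w = n) *
      ind (R (tv M v n w) w ∧ ∃ s, tkn M Q T n v s w ∧ G (tv M v n w) s w) =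
      ∑ s ∈ range T, ind (nu M.toMS s w = n ∧ ((tkn M Q T n v s w ∧ G (tv M v n w) s w) ∧ R (tv M v n w) w)) := by
    intro n
    rw [sum_one fun s s' h h' => UVZ.tkn_one h.2.1.1 h'.2.1.1, ← ind_and]
    congr 1
    exact propext ⟨fun ⟨_, hr, s, hs, hg⟩ => ⟨s, hs.1, hs.2.1, ⟨hs, hg⟩, hr⟩,
      fun ⟨s, _, _, ⟨h, hg⟩, hr⟩ => ⟨UVZ.tkn_nu h, hr, s, h, hg⟩⟩
  refine ((Finset.sum_congr rfl fun r _ => e1 r).trans Finset.sum_comm).trans (Eq.trans ?_
    ((Finset.sum_congr rfl fun n _ => e2 n).trans Finset.sum_comm).symm)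
  refine Finset.sum_congr rfl fun s hs => ?_
  have h1 := sum_pt (T := T) (m := tv M v s w) (A := fun r => tv M v s w = r ∧ ((tlr M Q T v r s w ∧ G r s w) ∧ R r w))
    (f := fun _ => (1 : ℝ)) (fun r h => h.1.symm) fun _ => lt_of_le_of_lt (tau_le v s w) (mem_range.1 hs)
  have h2 := sum_pt (T := T) (m := nu M.toMS s w) (A := fun n => nu M.toMS s w = n ∧
      ((tkn M Q T n v s w ∧ G (tv M v n w) s w) ∧ R (tv M v n w) w))
    (f := fun _ => (1 : ℝ)) (fun n h => h.1.symm) fun _ => lt_of_le_of_lt (nu_le s w) (mem_range.1 hs)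
  simp only [mul_one] at h1 h2
  rw [h1, h2]
  congr 1
  refine propext ⟨?_, ?_⟩
  · rintro ⟨-, ⟨a, b⟩, c⟩
    have h3 := tlr_tkn a
    have h4 : tv M v (nu M.toMS s w) w = tv M v s w := UVZ.tkn_tau h3
    rw [h4]
    exact ⟨trivial, ⟨h3, b⟩, c⟩
  · rintro ⟨-, ⟨a, b⟩, c⟩
    have h4 : tv M v (nu M.toMS s w) w = tv M v s w := UVZ.tkn_tau a
    have h5 := tkn_tlr a
    rw [h4] at b c h5
    exact ⟨trivial, ⟨h5, b⟩, c⟩

end path

/-! ## the young lives, exact vertices `E` -/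

section young

variable {Om : Type} [Fintype Om] {M : US Om} {Q : Kd Om} {E : Finset (Fin 3)} {v : Fin 3} {T : ℕ}
  {R : ℕ → Om → Prop} {g : ℕ → Om → ℝ} {lam y1 L : ℝ}

/-- mass of the section of the exact points `E` at the end of the step `q` -/
def mRE (M : US Om) (E : Finset (Fin 3)) (v : Fin 3) (R : ℕ → Om → Prop) (q : ℕ) (w : Om) : ℝ :=
  M.P.ce (M.S E (q + 1)) (fun u => ind (R (tv M v q u) u)) w

/-- mean of the test over the section -/
def mGE (M : US Om) (E : Finset (Fin 3)) (v : Fin 3) (R : ℕ → Om → Prop) (g : ℕ → Om → ℝ) (q : ℕ) (w : Om) : ℝ :=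
  M.P.ce (M.S E (q + 1)) (fun u => ind (R (tv M v q u) u) * g (tv M v q u) u) w

/-- violation: the section of the exact points `E` has mass `≥ y1` and mean of the test above `lam` -/
def vioE (M : US Om) (E : Finset (Fin 3)) (v : Fin 3) (R : ℕ → Om → Prop) (g : ℕ → Om → ℝ) (lam y1 : ℝ) (q : ℕ)
    (w : Om) : Prop := y1 ≤ mRE M E v R q w ∧ lam * mRE M E v R q w < mGE M E v R g q w

/-- the violations of the young lives -/
def VYE (M : US Om) (Q : Kd Om) (T : ℕ) (E : Finset (Fin 3)) (v : Fin 3) (R : ℕ → Om → Prop) (g : ℕ → Om → ℝ)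
    (lam y1 : ℝ) : ℝ :=
  ∑ q ∈ range T, M.P.Pr (fun w => (yend M Q v q w ∧ vioE M E v R g lam y1 q w) ∧ R (tv M v q w) w)

/-- one step -/
theorem yz_stepE (H : Seen M) (hE : v ∈ E) (q : ℕ) (l0 : 0 ≤ lam) (y0 : 0 ≤ y1) (L0 : 0 ≤ L)
    (hL : ∀ τ w, R τ w → g τ w ≤ L) :
    M.P.E (fun w => ind (yend M Q v q w ∧ R (tv M v q w) w) * g (tv M v q w) w) ≤
      lam * M.P.Pr (fun w => yend M Q v q w ∧ R (tv M v q w) w) + L * y1 * M.P.Pr (yend M Q v q) +
      L * M.P.Pr (fun w => (yend M Q v q w ∧ vioE M E v R g lam y1 q w) ∧ R (tv M v q w) w) := by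
  have hS : Fac (M.S E (q + 1)) (M.S {v} (q + 1)) := M.mS {v} E (q + 1) (Finset.singleton_subset_iff.2 hE)
  have hy : ∀ a b, M.S E (q + 1) a = M.S E (q + 1) b → (yend M Q v q a ↔ yend M Q v q b) := fun a b e =>
    UVZ.yend_S H v q a b (hS a b e)
  have fy : Fac (M.S E (q + 1)) (fun w => ind (yend M Q v q w)) := Fac.ind fun a b e => hy a b e
  have fR : Fac (M.S E (q + 1)) (mRE M E v R q) := M.P.ce_fac _ _
  have fG : Fac (M.S E (q + 1)) (mGE M E v R g q) := M.P.ce_fac _ _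
  have fv : Fac (M.S E (q + 1)) (fun w => ind (yend M Q v q w ∧ vioE M E v R g lam y1 q w)) :=
    Fac.ind fun a b e => by
      unfold vioE
      rw [propext (hy a b e), fR a b e, fG a b e]
  have e1 : M.P.E (fun w => ind (yend M Q v q w ∧ R (tv M v q w) w) * g (tv M v q w) w) =
      M.P.E (fun w => ind (yend M Q v q w) * mGE M E v R g q w) := by
    unfold mGE
    rw [M.P.E_mul_ce fy]
    exact M.P.E_congr fun w _ => by rw [ind_and, mul_assoc]
  have e2 : M.P.Pr (fun w => yend M Q v q w ∧ R (tv M v q w) w) =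
      M.P.E (fun w => ind (yend M Q v q w) * mRE M E v R q w) := by
    unfold mRE
    rw [M.P.E_mul_ce fy]
    exact M.P.E_congr fun w _ => ind_and _ _
  have e3 : M.P.Pr (fun w => (yend M Q v q w ∧ vioE M E v R g lam y1 q w) ∧ R (tv M v q w) w) =
      M.P.E (fun w => ind (yend M Q v q w ∧ vioE M E v R g lam y1 q w) * mRE M E v R q w) := by
    unfold mRE
    rw [M.P.E_mul_ce fv]
    exact M.P.E_congr fun w _ => ind_and _ _
  rw [e1, e2, e3]
  unfold FP.Pr
  rw [← FP.E_smul, ← FP.E_smul, ← FP.E_smul, ← FP.E_add, ← FP.E_add]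
  refine M.P.E_mono fun w hw => ?_
  have r0 : 0 ≤ mRE M E v R q w := M.P.ce_nonneg (fun _ _ => ind_nonneg _) w
  have gL : mGE M E v R g q w ≤ L * mRE M E v R q w := by
    unfold mGE mRE
    rw [← M.P.ce_smul]
    refine M.P.ce_mono (fun u _ => ?_) w
    by_cases h : R (tv M v q u) u
    · rw [ind_of h, one_mul, mul_one]
      exact hL _ _ h
    · rw [ind_not h, zero_mul, mul_zero]
  by_cases hy' : yend M Q v q w
  · rw [ind_of hy', one_mul, one_mul, mul_one]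
    by_cases hv : vioE M E v R g lam y1 q w
    · rw [ind_of (show yend M Q v q w ∧ vioE M E v R g lam y1 q w from ⟨hy', hv⟩), one_mul]
      have h1 := mul_nonneg l0 r0
      have h2 := mul_nonneg L0 y0
      linarith
    · rw [ind_not (fun h => hv h.2), zero_mul, mul_zero, add_zero]
      by_cases h1 : y1 ≤ mRE M E v R q w
      · have h2 : mGE M E v R g q w ≤ lam * mRE M E v R q w := by
          by_contra h3
          exact hv ⟨h1, not_le.1 h3⟩
        have h3 := mul_nonneg L0 y0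
        linarith
      · have h2 := mul_le_mul_of_nonneg_left (not_le.1 h1).le L0
        have h3 := mul_nonneg l0 r0
        linarith
  · rw [ind_not hy', ind_not (fun h => hy' h.1)]
    simp

/-- **THE YOUNG LIVES** -/
theorem yzE (H : Seen M) (hE : v ∈ E) (l0 : 0 ≤ lam) (y0 : 0 ≤ y1) (L0 : 0 ≤ L) (hL : ∀ τ w, R τ w → g τ w ≤ L) :
    M.P.E (fun w => ∑ q ∈ range T, ind (yend M Q v q w ∧ R (tv M v q w) w) * g (tv M v q w) w +
      ind (ynp M Q v T w ∧ R (tv M v T w) w) * g (tv M v T w) w) ≤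
      lam * NC M Q T v R + L * y1 * NC M Q T v (fun _ _ => True) + L * VYE M Q T E v R g lam y1 +
      L * M.P.Pr (fun w => ynp M Q v T w ∧ R (tv M v T w) w) := by
  rw [FP.E_add, FP.E_sum]
  refine add_le_add ?_ ?_
  · have h1 := mul_le_mul_of_nonneg_left (NC_ge (M := M) (Q := Q) (v := v) (T := T) R) l0
    have h2 := mul_le_mul_of_nonneg_left (NC_ge (M := M) (Q := Q) (v := v) (T := T) (fun _ _ => True))
      (mul_nonneg L0 y0)
    have h3 : ∑ q ∈ range T, M.P.E (fun w => ind (yend M Q v q w ∧ R (tv M v q w) w) *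
        g (tv M v q w) w) ≤
        ∑ q ∈ range T, (lam * M.P.Pr (fun w => yend M Q v q w ∧ R (tv M v q w) w) +
          L * y1 * M.P.Pr (fun w => yend M Q v q w ∧ True) +
          L * M.P.Pr (fun w => (yend M Q v q w ∧ vioE M E v R g lam y1 q w) ∧ R (tv M v q w) w)) := by
      refine Finset.sum_le_sum fun q _ => ?_
      have := yz_stepE (Q := Q) (v := v) (R := R) H hE q l0 y0 L0 hL
      simp only [and_true]
      exact this
    rw [Finset.sum_add_distrib, Finset.sum_add_distrib, ← Finset.mul_sum, ← Finset.mul_sum, ← Finset.mul_sum] at h3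
    unfold VYE
    linarith
  · unfold FP.Pr
    rw [← FP.E_smul]
    refine M.P.E_mono fun w _ => ?_
    by_cases h : ynp M Q v T w ∧ R (tv M v T w) w
    · rw [ind_of h, one_mul, mul_one]
      exact hL _ _ h.2
    · rw [ind_not h, zero_mul, mul_zero]

end young

/-! ## coordinates on the table space -/

section coo

variable {X β γ φ : Type} [Fintype X] [Fintype β] [Fintype φ] [Nonempty X] [Nonempty β]
variable {D : HD (Fin 3) X β γ φ} {al : ℝ} {prr : ℕ → Fin 3 → φ → φ} {T0 : ℕ} {W : Type} [Fintype W]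
variable {tb : Tab D prr T0 W} {M : US (Om W X β)} {tm : ℕ → ℕ} {Q : Kd (Om W X β)} {T r n : ℕ} {z : Om W X β}
  {b c d : Fin 3}

/-- hidden point and the exact point of `b` -/
abbrev HB (b : Fin 3) (w : Om W X β) : X × β := PayG.Bx b w

/-- point of the vertex `j`, table of the face `i` -/
abbrev PT (j i : Fin 3) (w : Om W X β) : β × W := PayG.Cx j i w

/-- exact `b`, cell of `j` -/
def XJ (D : HD (Fin 3) X β γ φ) (tm : ℕ → ℕ) (b j : Fin 3) (s : ℕ) := TabF.si (W := W) D {b} {j} ∅ (tm s)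

theorem HB_eq {v w : Om W X β} : HB b v = HB b w ↔ v.1 = w.1 ∧ v.2.2 b = w.2.2 b := by
  unfold HB PayG.Bx
  rw [Prod.mk.injEq]

theorem PT_eq {j i : Fin 3} {v w : Om W X β} : PT j i v = PT j i w ↔ v.2.2 j = w.2.2 j ∧ v.2.1 i = w.2.1 i := by
  unfold PT PayG.Cx
  rw [Prod.mk.injEq]

theorem XJ_eq {j : Fin 3} {s : ℕ} {v w : Om W X β} : XJ D tm b j s v = XJ D tm b j s w ↔
    (v.1 = w.1 ∧ v.2.2 b = w.2.2 b) ∧ D.qb (tm s) (v.2.2 j) = D.qb (tm s) (w.2.2 j) := by
  unfold XJ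
  rw [si_eq]
  exact ⟨fun h => ⟨⟨h.1, h.2.2.1 b (mem_singleton_self b)⟩, h.2.2.2 j (mem_singleton_self j)⟩,
    fun h => ⟨h.1.1, fun i hi => absurd hi (Finset.notMem_empty i),
      fun k hk => by rw [Finset.mem_singleton.1 hk]; exact h.1.2,
      fun k hk => by rw [Finset.mem_singleton.1 hk]; exact h.2⟩⟩

theorem BD_eq {j i : Fin 3} {v w : Om W X β} : (HB b v, PT j i v) = (HB b w, PT j i w) ↔
    (v.1 = w.1 ∧ v.2.2 b = w.2.2 b) ∧ v.2.2 j = w.2.2 j ∧ v.2.1 i = w.2.1 i := by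
  rw [Prod.mk.injEq, HB_eq, PT_eq]

/-- three vertices -/
theorem v3_all {b c d : Fin 3} (hv : TabZ.V3 b c d) : ∀ j : Fin 3, j = b ∨ j = c ∨ j = d := by
  obtain ⟨-, q2, -, -, -, -⟩ := hv.dec
  intro j
  have h1 : j ∈ ({b} : Finset (Fin 3)) ∪ {c, d} := q2 ▸ mem_univ j
  rcases Finset.mem_union.1 h1 with h | h
  · exact Or.inl (Finset.mem_singleton.1 h)
  · rcases Finset.mem_insert.1 h with h | h
    · exact Or.inr (Or.inl h)
    · exact Or.inr (Or.inr (Finset.mem_singleton.1 h))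

/-- **independence in a world** : the row side against the other side -/
theorem ind_row {P : FP (Om W X β)} {E0 : Finset (Fin 3)} {n : ℕ} (h : Wd D P E0 n) (hbc : b ≠ c) (hcd : c ≠ d) :
    P.Indep (PT c d) (fun w => (HB b w, PT d c w)) := by
  refine (si_indep h (E1 := {c}) (E2 := {b, d}) (S1 := {d}) (S2 := {c}) ?_ ?_ 0 0).mono (fun v w e => ?_)
    (fun v w e => ?_)
  · intro j hj
    obtain ⟨h1, h2⟩ := Finset.mem_inter.1 hj
    have h3 := Finset.mem_singleton.1 h1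
    rw [h3] at h2
    rcases Finset.mem_insert.1 h2 with h4 | h4
    · exact absurd h4.symm hbc
    · exact absurd (Finset.mem_singleton.1 h4) hcd
  · intro j hj
    obtain ⟨h1, h2⟩ := Finset.mem_inter.1 hj
    exact absurd ((Finset.mem_singleton.1 h2).symm.trans (Finset.mem_singleton.1 h1)) hcd
  · rw [si_eq] at e
    exact PT_eq.2 ⟨e.2.2.1 c (Finset.mem_singleton_self c), e.2.1 d (Finset.mem_singleton_self d)⟩
  · rw [si_eq] at e
    exact BD_eq.2 ⟨⟨e.1, e.2.2.1 b (Finset.mem_insert_self b _)⟩,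
      e.2.2.1 d (Finset.mem_insert_of_mem (Finset.mem_singleton_self d)), e.2.1 c (Finset.mem_singleton_self c)⟩

theorem XJ_filt (hO : OnTab M tb tm) (j : Fin 3) : Filt (XJ (W := W) D tm b j) := fun s v w e => by
  rw [XJ_eq] at e ⊢
  exact ⟨e.1, Dy.qb_mono (hO.ht s) e.2⟩

theorem XJ_V (j i : Fin 3) (s : ℕ) : Fac (fun w : Om W X β => (HB b w, PT j i w)) (XJ D tm b j s) := fun v w e => by
  rw [BD_eq] at e
  rw [XJ_eq]
  exact ⟨e.1, by rw [e.2.1]⟩

theorem XJ_B (j : Fin 3) (s : ℕ) : Fac (XJ (W := W) D tm b j s) (HB b) := fun v w e => by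
  rw [XJ_eq] at e
  exact HB_eq.2 e.1

/-! ### what the vertex times see -/

theorem nu_fac (hO : OnTab M tb tm) (H : Seen M) {E : Finset (Fin 3)} {s : ℕ} {x w : Om W X β}
    (e : sgt D E (tm s) x = sgt D E (tm s) w) : nu M.toMS s x = nu M.toMS s w :=
  UV.nu_S H (E := E) le_rfl x w ((hO.hS E s x w).2 e)

theorem tv_fac (hO : OnTab M tb tm) (H : Seen M) {s : ℕ} {x w : Om W X β}
    (e : sgt D {b} (tm s) x = sgt D {b} (tm s) w) : tv M b s x = tv M b s w :=
  UV.tau_S H b le_rfl x w ((hO.hS {b} s x w).2 e)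

theorem tlr_S (hO : OnTab M tb tm) (H : Seen M) {r s : ℕ} {x w : Om W X β}
    (e : sgt D {b} (tm s) x = sgt D {b} (tm s) w) : tlr M Q T b r s x ↔ tlr M Q T b r s w := by
  have e0 : M.S {b} s x = M.S {b} s w := (hO.hS {b} s x w).2 e
  unfold tlr
  rw [nu_fac hO H e, tv_fac hO H e, UV.tkx_S H b le_rfl e0]

/-- the sight of the exact `b` from the cells -/
theorem sgt_of (hv : TabZ.V3 b c d) {m : ℕ} {x w : Om W X β} (h1 : x.1 = w.1) (h2 : x.2.2 b = w.2.2 b)
    (h3 : D.qb m (x.2.2 c) = D.qb m (w.2.2 c)) (h4 : D.qb m (x.2.2 d) = D.qb m (w.2.2 d)) :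
    sgt D {b} m x = sgt D {b} m w := by
  rw [sgt_eq]
  refine ⟨h1, fun j hj => by rw [Finset.mem_singleton.1 hj]; exact h2, fun j => ?_⟩
  rcases v3_all hv j with h | h | h
  · rw [h, h2]
  · rw [h]
    exact h3
  · rw [h]
    exact h4

/-- `T^b = s` is seen by the exact row and the cell of the other vertex -/
theorem tlr_row (hO : OnTab M tb tm) (H : Seen M) (hv : TabZ.V3 b c d) (r i : ℕ) (x w : Om W X β)
    (e : PT c d x = PT c d w) (e' : XJ D tm b d i x = XJ D tm b d i w) :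
    tlr M Q T b r i x ↔ tlr M Q T b r i w := by
  rw [PT_eq] at e
  rw [XJ_eq] at e'
  exact tlr_S hO H (sgt_of hv e'.1.1 e'.1.2 (by rw [e.1]) e'.2)

theorem tlr_all (hO : OnTab M tb tm) (H : Seen M) (hv : TabZ.V3 b c d) (r i : ℕ) (x w : Om W X β)
    (e : HB b x = HB b w) (e1 : PT c d x = PT c d w) (e2 : PT d c x = PT d c w) :
    tlr M Q T b r i x ↔ tlr M Q T b r i w := by
  rw [PT_eq] at e1 e2
  rw [HB_eq] at e
  exact tlr_S hO H (sgt_of hv e.1 e.2 (by rw [e1.1]) (by rw [e2.1]))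

end coo

end

end Pool.Agent.GMH.VSt
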