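import Pool.Agent.GMH.VSc2
import Pool.Agent.GMH.VSt
import Pool.Agent.GMH.RarN5
import Pool.Agent.GMH.PayPI

/-!
# GMH/VSc3 (helper50): THE THIN COVERS OF ALL PUBLIC EPOCHS ARE PAID

* `eT_ok`, `eT_up` : the state of the tables (RULE L);
* `ecut`, `st_cut` : the cuts; `sum_ends` : starts with their ends = ends with their starts;
* `cnt_lab` : a sample has one name per level; `Kt_ph` : one epoch in its world;
* `thin_pub` : **THE SUM OVER ALL PUBLIC STARTS**.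
-/

set_option autoImplicit false
set_option linter.unusedSectionVars false

namespace Pool.Agent.GMH.VSc

open Finset Pool.Agent.PWZ Pool.Agent.M3 Pool.Agent.GM Pool.Agent.GM.Harm Pool.Agent.GMH Pool.Agent.GMH.GhoC
open Pool.Agent.GMH.EpG Pool.Agent.GMH.PayT Pool.Agent.GMH.PayTs Pool.Agent.GMH.Gdy Pool.Agent.GMH.ThB
open Pool.Agent.GMH.ThB2 (upq lvq le_upq upq_lvq nn_upq st_of kcq_nonneg thin_totalQ PhW_up)
open Pool.Agent.GMH.Dy (Om Tab cll cll_eq eT ltL)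
open Pool.Agent.GMH.MVI (NPo XLo NPo_fac XLo_fac NPo_le)
open Pool.Agent.GMH.TabF (WE WE_ne WE_supp)
open Pool.Agent.GMH.PayG (Cx)

noncomputable section

/-! ## ends and starts -/

section ends

variable {Ω : Type*} [Fintype Ω] {S : ℕ → Ω → Prop} {er : ℕ → Ω → ℕ} {N : ℕ}

/-- cuts: starts, states of the tables of the starts, the last state -/
def ecut (S : ℕ → Ω → Prop) (er : ℕ → Ω → ℕ) (N q : ℕ) (w : Ω) : Prop := S q w ∨ q = N ∨ ∃ n < q, S n w ∧ er n w = q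

/-- ends: starts and the last state -/
def eend (S : ℕ → Ω → Prop) (N q : ℕ) (w : Ω) : Prop := 0 < q ∧ (S q w ∨ q = N)

theorem eend_cut {q : ℕ} {w : Ω} (h : eend S N q w) : ecut S er N q w := h.2.elim Or.inl fun h1 => Or.inr (Or.inl h1)

/-- **the start of the cut epoch is the state of the tables** -/
theorem st_cut (hge : ∀ n w, n ≤ er n w) (hmo : ∀ r s w, r ≤ s → er r w ≤ er s w)
    (hup : ∀ n q w, n < q → q ≤ er n w → er n w = upq q) {n q : ℕ} {w : Ω} (hS : S n w) (hn : n < q) (hq : q ≤ N)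
    (h0 : ∀ r, n < r → r < q → ¬ S r w) : er n w = st (ecut S er N) q w ∨ er n w = upq q := by
  rcases Nat.lt_or_ge (er n w) q with h1 | h1
  · left
    refine (st_of h1 ?_ ?_).symm
    · rcases (hge n w).eq_or_lt with h2 | h2
      · rw [← h2]
        exact Or.inl hS
      · exact Or.inr (Or.inr ⟨n, h2, hS, rfl⟩)
    · intro r h2 h3 h4
      have h5 := hge n w
      rcases h4 with h4 | h4 | ⟨n', h4, h6, h7⟩
      · exact h0 r (lt_of_le_of_lt h5 h2) h3 h4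
      · omega
      · rcases Nat.lt_or_ge n n' with h8 | h8
        · exact h0 n' h8 (h4.trans h3) h6
        · have h9 := hmo n' n w h8
          omega
  · exact Or.inr (hup n q w hn h1)

/-- **starts with their ends are ends with their starts** -/
theorem sum_ends {sg : ℕ → ℕ} {w : Ω} (hsg : ∀ n < N, S n w → n < sg n ∧ sg n ≤ N ∧ (S (sg n) w ∨ sg n = N) ∧
    ∀ r, n < r → r < sg n → ¬ S r w) {F : ℕ → ℕ → ℝ} (hF : ∀ n q, 0 ≤ F n q) :
    ∑ n ∈ range N, ind (S n w) * F n (sg n) ≤ ∑ q ∈ range (N + 1), ind (eend S N q w) * F (st S q w) q := by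
  classical
  have h1 : ∀ n ∈ range N, ind (S n w) * F n (sg n) = ∑ q ∈ range (N + 1), ind (S n w ∧ sg n = q) * F n q := by
    intro n hn
    by_cases hS : S n w
    · have h2 := hsg n (mem_range.1 hn) hS
      rw [sum_eq_single (sg n)]
      · rw [ind_of hS, ind_of ⟨hS, rfl⟩]
      · intro q _ hq
        rw [ind_not fun hh => hq hh.2.symm, zero_mul]
      · intro hh
        exact absurd (mem_range.2 (by omega)) hh
    · rw [ind_not hS, zero_mul]
      refine (sum_eq_zero fun q _ => ?_).symm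
      rw [ind_not fun hh => hS hh.1, zero_mul]
  rw [sum_congr rfl h1, sum_comm]
  refine sum_le_sum fun q _ => ?_
  by_cases h2 : ∃ n ∈ range N, S n w ∧ sg n = q
  · obtain ⟨n, hn, hS, hq⟩ := h2
    have h3 := hsg n (mem_range.1 hn) hS
    rw [hq] at h3
    have h4 : ∀ n' ∈ range N, (S n' w ∧ sg n' = q) → n' = n := by
      rintro n' hn' ⟨hS', hq'⟩
      have h5 := hsg n' (mem_range.1 hn') hS'
      rw [hq'] at h5
      rcases lt_trichotomy n' n with h6 | h6 | h6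
      · exact absurd hS (h5.2.2.2 n h6 h3.1)
      · exact h6
      · exact absurd hS' (h3.2.2.2 n' h6 h5.1)
    have h7 : st S q w = n := st_of h3.1 hS h3.2.2.2
    rw [sum_eq_single n]
    · rw [ind_of (⟨hS, hq⟩ : S n w ∧ sg n = q), ind_of (show eend S N q w from ⟨by omega, h3.2.2.1⟩), h7]
    · intro n' hn' hne
      rw [ind_not fun hh => hne (h4 n' hn' hh), zero_mul]
    · intro hh
      exact absurd hn hh
  · have h5 : ∑ n ∈ range N, ind (S n w ∧ sg n = q) * F n q = 0 := by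
      refine sum_eq_zero fun n hn => ?_
      rw [ind_not fun hh => h2 ⟨n, hn, hh⟩, zero_mul]
    rw [h5]
    exact mul_nonneg (ind_nonneg _) (hF _ _)

/-- the number of the ends -/
theorem num_ends (P : FP Ω) (S : ℕ → Ω → Prop) (N : ℕ) :
    ∑ q ∈ range (N + 1), P.Pr (eend S N q) ≤ ∑ n ∈ range N, P.Pr (S n) + 1 := by
  rw [sum_range_succ]
  refine add_le_add (sum_le_sum fun q hq => ?_) (P.Pr_le_one _)
  refine P.Pr_mono fun w _ h => ?_
  rcases h.2 with h1 | h1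
  · exact h1
  · exact absurd h1 (Nat.ne_of_lt (mem_range.1 hq))

end ends

/-! ## the state of the tables -/

section run

variable {X β γ φ : Type} [Fintype X] [Fintype β] [Fintype φ] [Nonempty X] [Nonempty β]
variable {D : HD (Fin 3) X β γ φ} {al : ℝ} {h : D.Thick al} {prr : ℕ → Fin 3 → φ → φ} {T : ℕ} {W : Type} [Fintype W]
variable {tb : Tab D prr T W} {v : ℕ → Finset (Fin 3) → X → (Fin 3 → β) → Pt (Fin 3) X β φ}

theorem eT_ok : ErOK tb v (eT v tb) where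
  fac := Pool.Agent.GMH.RarN.eT_fac
  nn := fun r w => Pool.Agent.GMH.PayPI.nn_eT tb (v := v) r w
  ge := fun r w => by
    rcases Pool.Agent.GMH.PayPI.eT_cases tb (v := v) r w with h1 | h1 <;> omega
  mono := fun r s w hrs => by
    unfold eT
    by_cases hr : ltL v tb r w
    · rw [if_pos hr]
      by_cases hs : ltL v tb s w
      · rw [if_pos hs]
        omega
      · rw [if_neg hs]
        by_contra hcon
        have h1 : s / 5 = r / 5 := by omega
        refine hs ⟨by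
          have := hr.1
          omega, ?_⟩
        rw [h1]
        exact hr.2
    · rw [if_neg hr]
      by_cases hs : ltL v tb s w
      · rw [if_pos hs]
        omega
      · rw [if_neg hs]
        exact hrs

theorem eT_up (n q : ℕ) (w : Om W X β) (h1 : n < q) (h2 : q ≤ eT v tb n w) : eT v tb n w = upq q := by
  rcases Pool.Agent.GMH.PayPI.eT_cases tb (v := v) n w with h3 | ⟨h3, h4⟩
  · omega
  · unfold upq
    omega

theorem ls_spec {S : ℕ → Om W X β → Prop} {w : Om W X β} (h0 : S 0 w) {q : ℕ} (hq : 0 < q) :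
    S (st S q w) w ∧ st S q w < q ∧ ∀ r, st S q w < r → r < q → ¬ S r w := by
  induction q with
  | zero => omega
  | succ q ih =>
    by_cases hS : S q w
    · rw [st_pos hS]
      exact ⟨hS, Nat.lt_succ_self q, fun r h1 h2 => absurd h2 (by omega)⟩
    · rw [st_neg hS]
      rcases Nat.eq_zero_or_pos q with h1 | h1
      · subst h1
        exact absurd h0 hS
      · obtain ⟨a1, a2, a3⟩ := ih h1
        refine ⟨a1, by omega, fun r h2 h3 => ?_⟩
        rcases Nat.lt_succ_iff_lt_or_eq.1 h3 with h4 | h4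
        · exact a3 r h2 h4
        · rw [h4]
          exact hS

/-! ## one world -/

theorem cp_zero {Ω : Type*} [Fintype Ω] {P : FP Ω} {κ : ℕ → Type*} {X' : ∀ t, Ω → κ t} {s : ℕ} {A : Ω → Prop} {w : Ω}
    (hA : ∀ u, P.p u ≠ 0 → X' s u = X' s w → ¬ A u) : cp P X' s A w = 0 := by
  unfold cp FP.ce
  have e3 : P.E (fun x => ind (X' s x = X' s w) * ind (A x)) = 0 := by
    rw [show (0 : ℝ) = P.E (fun _ => (0 : ℝ)) from (P.E_const 0).symm]
    refine P.E_congr fun x hx => ?_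
    by_cases h1 : X' s x = X' s w
    · rw [ind_not (hA x hx h1), mul_zero]
    · rw [ind_not h1, zero_mul]
  rw [e3, zero_div]

theorem Wl_same {n : ℕ} {x w : Om W X β} (hx : cll D n x = cll D n w) : tb.Wl n x = tb.Wl n w := by
  unfold Dy.Tab.Wl
  rw [hx]

/-- the potential sees the time of the state only -/
theorem PhW_nn {b c d : Fin 3} {ν ν' : ℕ} (hν : TP.nn ν = TP.nn ν') {u v1 : ℝ} {M : ℕ} {z : Fin M → β} {Λ : Type} [Fintype Λ]
    {G : Om W X β → ℕ → Om W X β → Prop} {lab : Om W X β → ℕ → Om W X β → Λ} (q : ℕ) (w : Om W X β) :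
    PhW tb b c d ν u v1 z G lab q w = PhW tb b c d ν' u v1 z G lab q w := by
  unfold PhW
  rw [hν]

/-- nodes of a world -/
theorem ce_cJ {c d b : Fin 3} (hbc : b ≠ c) (hbd : b ≠ d) (hcd : c ≠ d) {n : ℕ} (w0 : Om W X β) (s : ℕ) {f : Om W X β → ℝ}
    (hf : Fac (CJ (W := W) (X := X) (β := β) c d) f) {w : Om W X β} (hw : (tb.Wl n w0).p w ≠ 0) :
    (tb.Wl n w0).ce (cll D (TP.nn s)) f w = (tb.Wl n w0).ce (cJ D c s) f w := by
  have h1 := Pool.Agent.GMH.VSt.ind_row (Pool.Agent.GMH.TabF.wo_Wl tb n w0) hbc hcd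
  have h2 := ce_pair (P := tb.Wl n w0) (U := fun w => (VSt.HB b w, VSt.PT d c w)) (V := VSt.PT c d)
    (cU := fun s w => (w.1, (D.qb (TP.nn s) (w.2.2 b), D.qb (TP.nn s) (w.2.2 d)))) (cV := cJ D c) h1.symm
    (fun s x y e => by
      have e1 := VSt.BD_eq.1 e
      show (x.1, (D.qb (TP.nn s) (x.2.2 b), D.qb (TP.nn s) (x.2.2 d))) =
        (y.1, (D.qb (TP.nn s) (y.2.2 b), D.qb (TP.nn s) (y.2.2 d)))
      rw [e1.1.1, e1.1.2, e1.2.1])
    (fun s x y e => by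
      show D.qb (TP.nn s) (x.2.2 c) = D.qb (TP.nn s) (y.2.2 c)
      rw [(VSt.PT_eq.1 e).1]) s hf hw
  rw [← h2]
  refine FP.ce_congr_map _ (fun x y e => ?_) (fun x y e => ?_) f w
  · have e1 := cll_eq.1 e
    show ((x.1, (D.qb (TP.nn s) (x.2.2 b), D.qb (TP.nn s) (x.2.2 d))), D.qb (TP.nn s) (x.2.2 c)) =
      ((y.1, (D.qb (TP.nn s) (y.2.2 b), D.qb (TP.nn s) (y.2.2 d))), D.qb (TP.nn s) (y.2.2 c))
    rw [e1.1, e1.2 b, e1.2 c, e1.2 d]
  · have e1 := pair_eq.1 e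
    have e2 := Prod.mk.inj e1.1
    have e3 := Prod.mk.inj e2.2
    refine cll_eq.2 ⟨e2.1, fun k => ?_⟩
    rcases PayG.f3 hbc hbd hcd k with rfl | rfl | rfl
    · exact e3.1
    · exact e1.2
    · exact e3.2

/-! ## one epoch -/

variable {ι Λ : Type} [Fintype Λ] {b c d : Fin 3} {er : ℕ → Om W X β → ℕ} {ts : ι → ℕ → β → X × φ → Pt (Fin 3) X β φ → ℝ}
  {I : Finset ι} {hi lo : ι → ℝ} {mu h1 gg p0 p1 δ1 : ℝ}

/-- **a sample has one name per level** -/
theorem cnt_lab (hv : Codes D v) {n : ℕ} {rr : Om W X β → ℕ} {lb : ℕ → Om W X β → Λ}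
    (hrr : Fac (fun w => (XLo tb v b n w, NPo tb v n w)) rr) {Nn : ℕ} (hNn : 0 < Nn) (w0 : Om W X β) {M : ℕ} {u : ℝ}
    (z : Fin M → β) (G : ℕ → Om W X β → Prop) (s r : ℕ) (x : Om W X β) :
    ((univ.filter fun p : Fin Nn × Λ => 0 < cp (tb.Wl (TP.nn n) w0) (cJ D c) s (GhoF.pl (tb.Wl (TP.nn n) w0) (cJ D c) u
      (rowsT (GhoA.GF (tb.Wl (TP.nn n) w0) (BJ b) (CJ c d) G) z) M
      (GhoF.Lab (tb.Wl (TP.nn n) w0) (BJ b) (CJ c d) G z (labN tb v b hNn p1 n rr lb w0)) s r p) x).card : ℝ) ≤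
      Fintype.card Λ := by
  classical
  by_cases hr : r < M
  · set nm0 : Fin Nn := nmi hNn (NS D tb v b p1 n rr w0 (z ⟨r, hr⟩)) (rr (atb b w0 (z ⟨r, hr⟩))) with hnm0
    have h1 : (univ.filter fun p : Fin Nn × Λ => 0 < cp (tb.Wl (TP.nn n) w0) (cJ D c) s (GhoF.pl (tb.Wl (TP.nn n) w0)
      (cJ D c) u (rowsT (GhoA.GF (tb.Wl (TP.nn n) w0) (BJ b) (CJ c d) G) z) M
      (GhoF.Lab (tb.Wl (TP.nn n) w0) (BJ b) (CJ c d) G z (labN tb v b hNn p1 n rr lb w0)) s r p) x) ⊆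
        (univ : Finset Λ).image fun l => (nm0, l) := by
      intro p hp
      have h2 := (mem_filter.1 hp).2
      by_contra hcon
      refine (ne_of_gt h2) (cp_zero fun y hy _ hpl => hcon ?_)
      obtain ⟨y', hy', ⟨_, hB⟩, _, _, hl⟩ := hpl.2
      refine mem_image.2 ⟨p.2, mem_univ _, ?_⟩
      rw [← hl]
      have h5 := cll_eq.1 ((Dy.Wl_supp tb).1 hy').2
      have hB' : y'.2.2 b = z ⟨r, hr⟩ := hB
      have h6 : rr (atb b w0 (z ⟨r, hr⟩)) = rr y' := by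
        refine rr_same (x := atb b w0 (z ⟨r, hr⟩)) (y := y') hv hrr h5.1.symm ?_ fun k => ?_
        · show Function.update w0.2.2 b (z ⟨r, hr⟩) b = y'.2.2 b
          rw [Function.update_self, hB']
        · show D.qb (TP.nn n) (Function.update w0.2.2 b (z ⟨r, hr⟩) k) = D.qb (TP.nn n) (y'.2.2 k)
          by_cases hkb : k = b
          · subst hkb
            rw [Function.update_self, hB']
          · rw [Function.update_of_ne hkb]
            exact (h5.2 k).symm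
      show (nm0, lb s y') = (nmi hNn (NS D tb v b p1 n rr w0 (y'.2.2 b)) (rr y'), lb s y')
      rw [hB', ← h6]
    have h3 := (Finset.card_le_card h1).trans Finset.card_image_le
    rw [Finset.card_univ] at h3
    exact_mod_cast h3
  · have h1 : (univ.filter fun p : Fin Nn × Λ => 0 < cp (tb.Wl (TP.nn n) w0) (cJ D c) s (GhoF.pl (tb.Wl (TP.nn n) w0)
      (cJ D c) u (rowsT (GhoA.GF (tb.Wl (TP.nn n) w0) (BJ b) (CJ c d) G) z) M
      (GhoF.Lab (tb.Wl (TP.nn n) w0) (BJ b) (CJ c d) G z (labN tb v b hNn p1 n rr lb w0)) s r p) x) = ∅ := by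
      refine Finset.filter_eq_empty_iff.2 fun p _ hp => (ne_of_gt hp) (cp_zero fun y hy _ hpl => ?_)
      obtain ⟨y', hy', ⟨hr', _⟩, _⟩ := hpl.2
      exact hr hr'
    rw [h1, card_empty, Nat.cast_zero]
    exact Nat.cast_nonneg _

/-- **one epoch in its world** -/
theorem Kt_ph (hv : Codes D v) (hbc : b ≠ c) (hbd : b ≠ d) (hcd : c ≠ d) {n : ℕ} {rr : Om W X β → ℕ}
    {G : ℕ → Om W X β → Prop} {SS : ℕ → Om W X β → β × W → Prop} {lb : ℕ → Om W X β → Λ}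
    (H : HRow h tb v b c d n er rr G SS lb ts I hi lo mu h1 gg p0 p1 δ1) {Nn : ℕ} (hNn : 0 < Nn) (w0 : Om W X β) {M : ℕ}
    {u v1 : ℝ} (u0 : 0 ≤ u) (v0 : 0 ≤ v1) (hvL : v1 * Fintype.card Λ ≤ u / 4) (z : Fin M → β) {σ : Om W X β → ℕ}
    (hσ : Stp (fun s => cll (W := W) D (TP.nn s)) σ) :
    (tb.Wl (TP.nn n) w0).Pr (fun x => GhoA.Kt (tb.Wl (TP.nn n) w0) (cJ D c) (BJ b) (CJ c d) G u z (σ x) x) ≤
      2 * (tb.Wl (TP.nn n) w0).E (fun x => PhW tb b c d n u v1 z (fun _ => G) (labN tb v b hNn p1 n rr lb) (σ x) x) := by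
  classical
  have h1 := VSr.Kt_pay (P := tb.Wl (TP.nn n) w0) (cC := cJ D c) (B := BJ b) (C := CJ c d) (G := G) (u := u) (σ := σ)
    (nd := fun s => cll (W := W) D (TP.nn s)) (fun s x y e => by
      have e1 := cll_eq.1 e
      exact cll_eq.2 ⟨e1.1, fun k => Dy.qb_mono (TP.nn_succ s) (e1.2 k)⟩)
    (fun s x y e => by
      have e1 := (Prod.mk.inj e).1
      show D.qb (TP.nn s) (x.2.2 c) = D.qb (TP.nn s) (y.2.2 c)
      rw [e1]) (fun s f hf w hw => ce_cJ hbc hbd hcd w0 s hf hw) (lab := labN tb v b hNn p1 n rr lb w0)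
    (fun s x y hx hy hB hC => by
      have a1 := (Dy.Wl_supp tb).1 hx
      have a2 := (Dy.Wl_supp tb).1 hy
      have a3 := cll_eq.1 a1.2
      have a4 := cll_eq.1 a2.2
      have hB' : x.2.2 b = y.2.2 b := hB
      have a5 : ∀ k, D.qb (TP.nn n) (x.2.2 k) = D.qb (TP.nn n) (y.2.2 k) := fun k => (a3.2 k).trans (a4.2 k).symm
      show (nmi hNn (NS D tb v b p1 n rr w0 (x.2.2 b)) (rr x), lb s x) =
        (nmi hNn (NS D tb v b p1 n rr w0 (y.2.2 b)) (rr y), lb s y)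
      rw [hB', rr_same (x := x) (y := y) hv H.rrf (a3.1.trans a4.1.symm) hB' a5,
        H.lbl s x y a1.1 a2.1 (a3.1.trans a4.1.symm) hB' a5 hC]) z (v := v1) (fun s r w _ => by
      exact (mul_le_mul_of_nonneg_left (cnt_lab hv H.rrf hNn w0 z G s r w) v0).trans hvL) u0 hσ
  refine h1.trans (le_of_eq ?_)
  congr 1
  refine FP.E_congr _ fun x hx => ?_
  have a1 := (Dy.Wl_supp tb).1 hx
  have a3 := cll_eq.1 a1.2
  have e1 : tb.Wl (TP.nn n) x = tb.Wl (TP.nn n) w0 := Wl_same a1.2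
  have e2 : NPo tb v n x = NPo tb v n w0 := NPo_same (tb := tb) hv a3.1 a3.2
  have e3 : labN tb v b hNn p1 n rr lb x = labN tb v b hNn p1 n rr lb w0 := by
    funext s y
    show (nmi hNn (NS D tb v b p1 n rr x (y.2.2 b)) (rr y), lb s y) = (nmi hNn (NS D tb v b p1 n rr w0 (y.2.2 b)) (rr y), lb s y)
    rw [NS_congr D tb v e2]
  show _ = GhoF.PhV (tb.Wl (TP.nn n) x) (cJ D c) u (rowsT (GhoA.GF (tb.Wl (TP.nn n) x) (BJ b) (CJ c d) G) z) M
    (GhoF.Lab (tb.Wl (TP.nn n) x) (BJ b) (CJ c d) G z (labN tb v b hNn p1 n rr lb x)) v1 (σ x) x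
  rw [e1, e3]

/-- **THE THIN COVERS OF ALL PUBLIC EPOCHS** : `S` = public starts, `sg n` = end of the epoch `n`, `qz n w` = weights of the
samples; `H n` = the data of the rows of the epoch `n` -/
theorem thin_pub {R0 : ℝ} {Nf : Finset (Fin 3) → ℝ} {Sj : Finset (Finset (Fin 3))} (hv : Codes D v) (hbc : b ≠ c)
    (hbd : b ≠ d) (hcd : c ≠ d) (hE : ErOK tb v er) (hup : ∀ n q w, n < q → q ≤ er n w → er n w = upq q)
    (hs : ∀ t ≤ T, SatA (D.P h t) (BB D t) Nf Sj (LL (Um v (t + 1))) (Dep D t)) (hN : ∀ J ∈ Sj, 0 ≤ Nf J) (hKS : ∅ ∈ Sj)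
    (hN0 : 0 < Nf ∅) (hcS : {c} ∈ Sj) {X1 : ℝ} (hX1 : ∑ t ∈ range (T + 1), cst h v t {c} ≤ X1)
    -- clocks
    {S : ℕ → Om W X β → Prop} (hS : ∀ q, Fac (NPo tb v q) (S q)) (hS0 : ∀ w, S 0 w) {sg : ℕ → Om W X β → ℕ}
    (hsg : ∀ w, ∀ n < 5 * T, S n w → n < sg n w ∧ sg n w ≤ 5 * T ∧ (S (sg n w) w ∨ sg n w = 5 * T) ∧
      ∀ r, n < r → r < sg n w → ¬ S r w) (hσ : ∀ n, Stp (fun s => cll (W := W) D (TP.nn s)) (sg n))
    -- rows
    {rr : ℕ → Om W X β → ℕ} {G : ℕ → ℕ → Om W X β → Prop} {SS : ℕ → ℕ → Om W X β → β × W → Prop} {lb : ℕ → ℕ → Om W X β → Λ}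
    (H : ∀ n < 5 * T, HRow h tb v b c d n er (rr n) (G n) (SS n) (lb n) ts I hi lo mu h1 gg p0 p1 δ1)
    (hT : Tst D v T c ts R0) (hR0 : 0 < R0) {δ : ℝ} {mid : ι → ℝ} (hδ : 0 ≤ δ)
    (hm1 : ∀ i ∈ I, mid i + δ ≤ hi i) (hm2 : ∀ i ∈ I, lo i + δ ≤ mid i) (hlo : ∃ i ∈ I, 0 ≤ lo i) (hmu : 0 < mu)
    (hh1 : 0 < h1) (hgg : 0 < gg) {k : ℕ}
    (hk : (I.card + 1 / (gg * (h1 * mu))) * Real.exp (-(k * δ ^ 2 / (8 * R0 ^ 2))) ≤ 1 / 4) (hp0 : 0 < p0) (hp1 : 0 < p1)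
    {B1 : ℝ} (hB1 : 1 / p0 ≤ B1) {Nn : ℕ} (hNn : 0 < Nn) (hN1 : 1 / p1 ≤ Nn) (hδ1 : 0 < δ1)
    -- samples and numbers
    {u v1 : ℝ} (u0 : 0 ≤ u) (hv1 : 0 < v1) (hvL : v1 * Fintype.card Λ ≤ u / 4) {M Jm : ℕ} (hJ : 1 ≤ v1 * Jm)
    {qz : ℕ → Om W X β → (Fin M → β) → ℝ} (hq0 : ∀ n w ζ, 0 ≤ qz n w ζ) (hq1 : ∀ n w, ∑ ζ, qz n w ζ ≤ 1)
    (hqf : ∀ n ζ, Fac (NPo tb v n) (fun w => qz n w ζ)) {t' x : ℝ} (ht' : 0 < t')
    (htu : Real.exp t' * (1 / al * (2 * (gg * (h1 * mu)))) ≤ t' * v1 / 16) (hx : x ≤ Nf {c} / Nf ∅ * v1 / 8)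
    (hy : 2 * (Fintype.card (Fin M × Fin Jm × Fin Nn) * (1 * B1 ^ k) * Real.exp (-x)) ≤ δ1 ^ k / 2) :
    ∑ n ∈ range (5 * T), tb.Ps.E (fun w => ind (S n w) * ∑ ζ, qz n w ζ *
      (tb.Wl (TP.nn n) w).Pr (fun y => GhoA.Kt (tb.Wl (TP.nn n) w) (cJ D c) (BJ b) (CJ c d) (G n) u ζ (sg n y) y)) ≤
      2 * (5 * (16 / t') * X1 + 2 * Real.exp 1 * (Fintype.card (Fin M × Fin Jm × Fin Nn) * (1 * B1 ^ k) * Real.exp (-x) /
        (δ1 ^ k / 2)) * (∑ n ∈ range (5 * T), tb.Ps.Pr (S n) + 1)) := by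
  classical
  set del : ℝ := 2 * Real.exp 1 * (Fintype.card (Fin M × Fin Jm × Fin Nn) * (1 * B1 ^ k) * Real.exp (-x) /
    (δ1 ^ k / 2)) with hdel
  have hB1' : 0 ≤ B1 := le_trans (by positivity) hB1
  have hdel0 : 0 ≤ del := by positivity
  set Ph : ℕ → (Fin M → β) → ℕ → Om W X β → ℝ := fun n ζ q w =>
    PhW tb b c d n u v1 ζ (fun _ => G n) (labN tb v b hNn p1 n (rr n) (lb n)) q w with hPh
  have hPh0 : ∀ n ζ q w, 0 ≤ Ph n ζ q w := fun n ζ q w => GhoF.PhV_nonneg _ _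
  have hSc : ∀ n, Fac (cll (W := W) D (TP.nn n)) (S n) := fun n a b' e => by
    have e1 := cll_eq.1 e
    exact hS n a b' (NPo_same (tb := tb) hv e1.1 e1.2)
  have hqc : ∀ n ζ, Fac (cll (W := W) D (TP.nn n)) (fun w => qz n w ζ) := fun n ζ a b' e => by
    have e1 := cll_eq.1 e
    exact hqf n ζ a b' (NPo_same (tb := tb) hv e1.1 e1.2)
  -- one epoch
  have h2 : ∀ n ∈ range (5 * T), tb.Ps.E (fun w => ind (S n w) * ∑ ζ, qz n w ζ *
      (tb.Wl (TP.nn n) w).Pr (fun y => GhoA.Kt (tb.Wl (TP.nn n) w) (cJ D c) (BJ b) (CJ c d) (G n) u ζ (sg n y) y)) ≤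
      2 * tb.Ps.E (fun w => ind (S n w) * ∑ ζ, qz n w ζ * Ph n ζ (upq (sg n w)) w) := by
    intro n hn
    have h3 : tb.Ps.E (fun w => ind (S n w) * ∑ ζ, qz n w ζ *
        (tb.Wl (TP.nn n) w).Pr (fun y => GhoA.Kt (tb.Wl (TP.nn n) w) (cJ D c) (BJ b) (CJ c d) (G n) u ζ (sg n y) y)) ≤
        tb.Ps.E (fun w => ∑ ζ, (ind (S n w) * qz n w ζ) * (2 * tb.Ps.ce (cll D (TP.nn n)) (fun y => Ph n ζ (sg n y) y) w)) := by
      refine tb.Ps.E_mono fun w _ => ?_
      rw [mul_sum]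
      refine sum_le_sum fun ζ _ => ?_
      rw [← mul_assoc]
      refine mul_le_mul_of_nonneg_left ?_ (mul_nonneg (ind_nonneg _) (hq0 n w ζ))
      rw [← Dy.Wl_E]
      exact Kt_ph hv hbc hbd hcd (H n (mem_range.1 hn)) hNn w u0 hv1.le hvL ζ (hσ n)
    refine h3.trans ?_
    rw [FP.E_sum]
    have h4 : ∀ ζ ∈ (univ : Finset (Fin M → β)), tb.Ps.E (fun w => (ind (S n w) * qz n w ζ) *
        (2 * tb.Ps.ce (cll D (TP.nn n)) (fun y => Ph n ζ (sg n y) y) w)) ≤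
        2 * tb.Ps.E (fun w => (ind (S n w) * qz n w ζ) * Ph n ζ (upq (sg n w)) w) := by
      intro ζ _
      have hf : Fac (cll (W := W) D (TP.nn n)) (fun w => ind (S n w) * qz n w ζ) :=
        (Fac.ind fun a b' e => by rw [hSc n a b' e]).mul (hqc n ζ)
      have h5 := tb.Ps.E_mul_ce hf (fun y => Ph n ζ (sg n y) y)
      have h6 : tb.Ps.E (fun w => (ind (S n w) * qz n w ζ) *
          (2 * tb.Ps.ce (cll D (TP.nn n)) (fun y => Ph n ζ (sg n y) y) w)) =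
          2 * tb.Ps.E (fun w => (ind (S n w) * qz n w ζ) * Ph n ζ (sg n w) w) := by
        rw [← h5, ← FP.E_smul]
        exact FP.E_congr _ fun w _ => by ring
      rw [h6]
      refine mul_le_mul_of_nonneg_left (tb.Ps.E_mono fun w _ => ?_) zero_le_two
      exact mul_le_mul_of_nonneg_left (PhW_up b d n u v1 ζ _ _ (sg n w) w) (mul_nonneg (ind_nonneg _) (hq0 n w ζ))
    refine (sum_le_sum h4).trans (le_of_eq ?_)
    rw [← mul_sum, ← FP.E_sum]
    congr 1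
    refine FP.E_congr _ fun w _ => ?_
    rw [mul_sum]
    exact sum_congr rfl fun ζ _ => by ring
  -- starts and ends
  set Phi : ℕ → Om W X β → ℝ := fun q w => ∑ ζ, qz (st S q w) w ζ * Ph (st S q w) ζ (upq q) w with hPhi
  have h3 : ∑ n ∈ range (5 * T), tb.Ps.E (fun w => ind (S n w) * ∑ ζ, qz n w ζ * Ph n ζ (upq (sg n w)) w) ≤
      ∑ q ∈ range (5 * T + 1), tb.Ps.E (fun w => ind (eend S (5 * T) q w) * Phi q w) := by
    rw [← FP.E_sum, ← FP.E_sum]
    refine tb.Ps.E_mono fun w _ => ?_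
    exact sum_ends (S := S) (N := 5 * T) (sg := fun n => sg n w) (w := w) (hsg w)
      (F := fun n q => ∑ ζ, qz n w ζ * Ph n ζ (upq q) w) fun n q => sum_nonneg fun ζ _ => mul_nonneg (hq0 n w ζ) (hPh0 n ζ _ w)
  have hSt : ∀ q, Fac (NPo tb v q) (st S q) := fun q => by
    rcases q with _ | q
    · exact fun a b' _ => rfl
    · have hf : Filt fun q => NPo tb v q := fun q => NPo_fac tb q
      exact fun a b' e => st_fac hf hS q a b' (hf q a b' e)
  have he' : ∀ q, Fac (NPo tb v q) (eend S (5 * T) q) := fun q a b' e => by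
    have e1 : S q a = S q b' := hS q a b' e
    show (0 < q ∧ (S q a ∨ q = 5 * T)) = (0 < q ∧ (S q b' ∨ q = 5 * T))
    rw [e1]
  have he : ∀ q, Fac (NPo tb v q) (ecut S er (5 * T) q) := fun q a b' e => by
    have e1 : S q a = S q b' := hS q a b' e
    have e2 : (∃ n < q, S n a ∧ er n a = q) = (∃ n < q, S n b' ∧ er n b' = q) := by
      refine propext (exists_congr fun n => and_congr_right fun hn => ?_)
      have e3 : NPo tb v n a = NPo tb v n b' := NPo_le tb v hn.le a b' e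
      rw [hE.fac n a b' e3, show S n a = S n b' from hS n a b' e3]
    show (S q a ∨ q = 5 * T ∨ ∃ n < q, S n a ∧ er n a = q) = (S q b' ∨ q = 5 * T ∨ ∃ n < q, S n b' ∧ er n b' = q)
    rw [e1, e2]
  have h4 := thin_totalQ (h := h) (j := c) (e := ecut S er (5 * T)) (e' := eend S (5 * T)) (Phi := Phi) (c := 16 / t')
    (del := del) (n := T) he he' (fun q w hq => eend_cut hq) (by positivity) hX1 ?_
  · have h5 := sum_le_sum h2
    rw [← mul_sum] at h5
    have h6 := num_ends tb.Ps S (5 * T)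
    have h7 := mul_le_mul_of_nonneg_left h6 hdel0
    linarith
  · intro q hq w0 hw0 hq'
    have hq0' : 0 < q := hq'.1
    obtain ⟨s1, s2, s3⟩ := ls_spec (S := S) (w := w0) (hS0 w0) hq0'
    set n := st S q w0 with hn
    refine ⟨er n w0, st_cut hE.ge hE.mono hup s1 s2 hq s3, ?_⟩
    have hqu : q ≤ 5 * lvq q := le_upq q
    have hlT : lvq q ≤ T := by
      unfold lvq
      omega
    have hν : er n w0 ≤ 5 * lvq q := by
      rcases st_cut hE.ge hE.mono hup s1 s2 hq s3 with h5 | h5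
      · rw [h5]
        exact (st_le _ q w0).trans hqu
      · rw [h5]
        exact le_rfl
    have hkc := kcq_nonneg (tb := tb) (v := v) (j := c) hν hw0
    have hnn : TP.nn (er n w0) = TP.nn n := hE.nn n w0
    have h5 : (Qc tb v (lvq q) w0).E (Phi q) = ∑ ζ, qz n w0 ζ * (Qc tb v (lvq q) w0).E (Ph n ζ (5 * lvq q)) := by
      have h6 : ∀ y, (Qc tb v (lvq q) w0).p y ≠ 0 → Phi q y = ∑ ζ, qz n w0 ζ * Ph n ζ (5 * lvq q) y := by
        intro y hy'
        have e1 := cond_supp (P := tb.Ps) (A := fun u => cl D v (lvq q) u = cl D v (lvq q) w0)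
          (tb.Ps.m_pos (cl D v (lvq q)) hw0).ne' hy'
        have e2 : NPo tb v (5 * lvq q) y = NPo tb v (5 * lvq q) w0 := NPo_five.2 e1.1
        have e3 : st S q y = n := hSt q y w0 (NPo_le tb v hqu y w0 e2)
        have e4 : NPo tb v n y = NPo tb v n w0 := NPo_le tb v (s2.le.trans hqu) y w0 e2
        show ∑ ζ, qz (st S q y) y ζ * Ph (st S q y) ζ (upq q) y = _
        rw [e3]
        exact sum_congr rfl fun ζ _ => by rw [show qz n y ζ = qz n w0 ζ from hqf n ζ y w0 e4]; rfl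
      rw [FP.E_congr _ h6, FP.E_sum]
      exact sum_congr rfl fun ζ _ => FP.E_smul _ _ _
    rw [h5]
    have h6 : ∀ ζ ∈ (univ : Finset (Fin M → β)), qz n w0 ζ * (Qc tb v (lvq q) w0).E (Ph n ζ (5 * lvq q)) ≤
        qz n w0 ζ * (16 / t' * kcq tb v c (er n w0) (lvq q) w0 + del) := by
      intro ζ _
      refine mul_le_mul_of_nonneg_left ?_ (hq0 n w0 ζ)
      have h7 := thin_st hv hbc hbd hcd hE (H n (by omega)) hT hlT (hs _ hlT) hN hKS hN0 hcS hw0 rfl hν hR0 hδ hm1 hm2 hlo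
        hmu hh1 hgg hk hp0 hp1 hB1 hNn hN1 hδ1 (u := u) hv1 hJ ζ ht' htu hx hy
      refine le_trans (le_of_eq (FP.E_congr _ fun y _ => ?_)) h7
      exact PhW_nn hnn.symm _ _
    refine (sum_le_sum h6).trans ?_
    rw [← sum_mul]
    have h8 : 0 ≤ 16 / t' * kcq tb v c (er n w0) (lvq q) w0 + del := by positivity
    have h9 := mul_le_mul_of_nonneg_right (hq1 n w0) h8
    linarith

end run

end

end Pool.Agent.GMH.VSc
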