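import Pool.Agent.GMH.VSt
import Pool.Agent.GMH.CoinF
import Pool.Agent.GMH.GhoV

/-!
# GMH/VSu1 (helper15): UNSIGNED ROWS AND COLUMNS AT AN EXACT VERTEX `b` OVER `US` ON THE TABLE SPACE, COIN TABLES (input (I1), kinds 6 - 9, `HOT`)

`tl r s` = the life `r` of `b` is decided at `s` (seen by the exact `b`, unique); `RD` = rows in the worlds of the starts (relation, row of
a coin, law of the coins, law of the rows, typical foreign points), `cvR` = cover of the sampled foreign rows (`GhoL.CvH`, weight one),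
`cvY` = covered or not typical (not typical = covered; the sections of the heavy rows are typical).
* `startb` : mean over the worlds of the starts of the lives;
* `wld` : one world, two lists: rows, columns, both covered (`VSr.world_U`, `GhoV.both_le`);
* `clsR` : the class masses in the mean over the coin table (`GhoL.cls_mean_uns`);
* **`uns_b`** : `Σ_r P (start r, R r, ∃ s, tl r s) ≤ 2 g0 NV + 2 (dd + B0) NR + √bb (W + A + W' + A') / 2 + DN + heavy rows + heavy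
  columns`, `A` = not typical.
-/

set_option autoImplicit false
set_option linter.unusedSectionVars false

namespace Pool.Agent.GMH.VSu

open Finset Pool.Agent.PWZ Pool.Agent.M3 Pool.Agent.GM Pool.Agent.GM.Harm Pool.Agent.GMH
open Pool.Agent.GMH.Gdy Pool.Agent.GMH.Dy Pool.Agent.GMH.TabF Pool.Agent.GMH.Blk Pool.Agent.GMH.CR
open Pool.Agent.GMH.MV Pool.Agent.GMH.CK
open Pool.Agent.GMH.UV (US Kd Seen tv)
open Pool.Agent.GMH.UV0 (OnTab)
open Pool.Agent.GMH.GhoL (CvH cmU one4 qH cls_mean_uns DDs)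
open Pool.Agent.GMH.VSr (As HvU world_side_uns)
open Pool.Agent.GMH.VSt (HB PT XJ)
open Pool.Agent.GMH.CoinF (cL lst lst_S coin_sum coin_sum' qHl)
open Pool.Agent.GMH.TabZ (V3)

noncomputable section

variable {X β γ φ : Type} [Fintype X] [Fintype β] [Fintype φ] [Nonempty X] [Nonempty β]
variable {D : HD (Fin 3) X β γ φ} {prr : ℕ → Fin 3 → φ → φ} {T0 : ℕ} {W : Type} [Fintype W]
variable {tb : Tab D prr T0 W} {M : US (Om W X β)} {tm : ℕ → ℕ} {Q : Kd (Om W X β)} {T : ℕ} {b c d : Fin 3}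
variable {Rw Xi : Type} [Fintype Rw] [Fintype Xi]

/-- the rows in the worlds of the starts -/
structure RD (O B C Xi Rw : Type) [Fintype Xi] [Fintype Rw] where
  Gr : ℕ → O → B → C → Rw → C → Prop
  row : ℕ → O → B → C → Xi → Rw
  Qc : ℕ → O → FP Xi
  mr : ℕ → O → B → C → FP Rw
  ty : ℕ → O → O → Prop

/-- they are seen by the sight of the start -/
structure RDOK (D : HD (Fin 3) X β γ φ) (tm : ℕ → ℕ) (b c d : Fin 3) (U : RD (Om W X β) (X × β) (β × W) Xi Rw) :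
    Prop where
  sG : ∀ r z z', sgt (W := W) D {b} (tm r) z = sgt D {b} (tm r) z' → U.Gr r z = U.Gr r z'
  sR : ∀ r z z', sgt (W := W) D {b} (tm r) z = sgt D {b} (tm r) z' → U.row r z = U.row r z'
  sQ : ∀ r z z', sgt (W := W) D {b} (tm r) z = sgt D {b} (tm r) z' → U.Qc r z = U.Qc r z'
  sM : ∀ r z z', sgt (W := W) D {b} (tm r) z = sgt D {b} (tm r) z' → U.mr r z = U.mr r z'
  sY : ∀ r z z', sgt (W := W) D {b} (tm r) z = sgt D {b} (tm r) z' → U.ty r z = U.ty r z'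
  fY : ∀ r z v w, (HB b v, PT d c v) = (HB b w, PT d c w) → (U.ty r z v ↔ U.ty r z w)
  law : ∀ r z B C (S : Rw → Prop), (U.mr r z B C).Pr S = (U.Qc r z).Pr (fun t => S (U.row r z B C t))

/-- the decided lives -/
structure TL (D : HD (Fin 3) X β γ φ) (tm : ℕ → ℕ) (T : ℕ) (b : Fin 3) (tl : ℕ → ℕ → Om W X β → Prop) : Prop where
  one : ∀ r w s s', tl r s w → tl r s' w → s = s'
  lt : ∀ r w s, tl r s w → s < T
  ge : ∀ r w s, tl r s w → r ≤ s
  sn : ∀ r s x w, sgt (W := W) D {b} (tm s) x = sgt D {b} (tm s) w → (tl r s x ↔ tl r s w)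

theorem WE_same (tb : Tab D prr T0 W) {E : Finset (Fin 3)} {m : ℕ} {z z' : Om W X β} (e : sgt D E m z = sgt D E m z') :
    WE tb E m z = WE tb E m z' := by
  unfold WE
  rw [e]

/-- **mean over the worlds of the starts of the lives of `b`** -/
theorem startb (hO : OnTab M tb tm) (H : Seen M) (b : Fin 3) (r : ℕ) (f : Om W X β → Om W X β → ℝ)
    (hf : ∀ z z', sgt (W := W) D {b} (tm r) z = sgt D {b} (tm r) z' → f z = f z') :
    M.P.E (fun z => ind (tv M b r z = r) * (WE tb {b} (tm r) z).E (f z)) =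
      M.P.E (fun w => ind (tv M b r w = r) * f w w) := by
  rw [hO.hP, ← WE_avg tb {b} (tm r) fun w => ind (tv M b r w = r) * f w w]
  refine tb.Ps.E_congr fun z _ => ?_
  rw [← FP.E_smul]
  refine FP.E_congr _ fun w hw => ?_
  have h1 := ((WE_supp tb).1 hw).2
  rw [UV.tau_S H b le_rfl w z ((hO.hS {b} r w z).2 h1), hf w z h1]

theorem startb_Pr (hO : OnTab M tb tm) (H : Seen M) (b : Fin 3) (r : ℕ) (A : Om W X β → Om W X β → Prop)
    (hf : ∀ z z', sgt (W := W) D {b} (tm r) z = sgt D {b} (tm r) z' → A z = A z') :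
    M.P.E (fun z => ind (tv M b r z = r) * (WE tb {b} (tm r) z).Pr (A z)) =
      M.P.Pr (fun w => tv M b r w = r ∧ A w w) := by
  have h := startb hO H b r (fun z w => ind (A z w)) fun z z' e => by
    funext w
    rw [hf z z' e]
  unfold FP.Pr
  rw [h]
  exact M.P.E_congr fun w _ => (ind_and _ _).symm

variable (tb tm b c d) in
/-- cover of the foreign rows of the list `x` in the world of the start `r` -/
def cvR (U : RD (Om W X β) (X × β) (β × W) Xi Rw) (mu0 : ℝ) (K : ℕ) {Mm : ℕ} (r : ℕ) (z : Om W X β)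
    (x : Fin Mm → (β × W) × Xi) (s : ℕ) (w : Om W X β) : Prop :=
  CvH (WE tb {b} (tm r) z) (XJ D tm b d) (HB b) (PT d c) (U.Gr r z) one4 (U.row r z) 1 mu0 K x s w

theorem cvR_same {U : RD (Om W X β) (X × β) (β × W) Xi Rw} (hU : RDOK D tm b c d U) {mu0 : ℝ} {K Mm r : ℕ} {z z' : Om W X β}
    (e : sgt (W := W) D {b} (tm r) z = sgt D {b} (tm r) z') (x : Fin Mm → (β × W) × Xi) :
    cvR tb tm b c d U mu0 K r z x = cvR tb tm b c d U mu0 K r z' x := by
  funext s w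
  unfold cvR
  rw [WE_same tb e, hU.sG r z z' e, hU.sR r z z' e]

/-- a cover sees its own face -/
theorem cvR_fac {U : RD (Om W X β) (X × β) (β × W) Xi Rw} {mu0 : ℝ} {K Mm r : ℕ} {z : Om W X β}
    (x : Fin Mm → (β × W) × Xi) (s : ℕ) (v w : Om W X β) (e : (HB b v, PT d c v) = (HB b w, PT d c w)) :
    cvR tb tm b c d U mu0 K r z x s v ↔ cvR tb tm b c d U mu0 K r z x s w :=
  GdyR.covL_facV (fun s => VSt.XJ_V d c s) (fun s a v w e => GhoL.secH_fac s a v w e) s v w e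

variable (tb tm b c d) in
/-- covered or not typical -/
def cvY (U : RD (Om W X β) (X × β) (β × W) Xi Rw) (mu0 : ℝ) (K : ℕ) {Mm : ℕ} (r : ℕ) (z : Om W X β)
    (x : Fin Mm → (β × W) × Xi) (s : ℕ) (w : Om W X β) : Prop :=
  cvR tb tm b c d U mu0 K r z x s w ∨ ¬ U.ty r z w

theorem cvY_same {U : RD (Om W X β) (X × β) (β × W) Xi Rw} (hU : RDOK D tm b c d U) {mu0 : ℝ} {K Mm r : ℕ}
    {z z' : Om W X β} (e : sgt (W := W) D {b} (tm r) z = sgt D {b} (tm r) z') (x : Fin Mm → (β × W) × Xi) :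
    cvY tb tm b c d U mu0 K r z x = cvY tb tm b c d U mu0 K r z' x := by
  funext s w
  unfold cvY
  rw [cvR_same hU e, hU.sY r z z' e]

theorem cvY_fac {U : RD (Om W X β) (X × β) (β × W) Xi Rw} (hU : RDOK D tm b c d U) {mu0 : ℝ} {K Mm r : ℕ}
    {z : Om W X β} (x : Fin Mm → (β × W) × Xi) (s : ℕ) (v w : Om W X β)
    (e : (HB b v, PT d c v) = (HB b w, PT d c w)) :
    cvY tb tm b c d U mu0 K r z x s v ↔ cvY tb tm b c d U mu0 K r z x s w :=
  or_congr (cvR_fac x s v w e) (not_congr (hU.fY r z v w e))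

/-- the class mass is smaller with a larger cover -/
theorem cmU_anti {Om' α β' δ Rw' : Type*} [Fintype Om'] [Fintype Rw'] {P : FP Om'} {B : Om' → α} {C : Om' → β'}
    {D' : Om' → δ} {A Cv Cv' : ℕ → Om' → Prop} {mr : α → β' → FP Rw'} {Gr : α → β' → Rw' → δ → Prop} {g : ℝ} (s : ℕ)
    (x : Om') (h : ∀ i w, Cv i w → Cv' i w) :
    cmU P B C D' A Cv' mr Gr g s x ≤ cmU P B C D' A Cv mr Gr g s x := by
  refine FP.Pr_mono _ fun ρ _ hh => hh.trans (Finset.sum_le_sum fun i _ => P.ce_mono (fun y _ => ind_mono ?_) x)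
  exact fun a => ⟨a.1, fun b => a.2.1 (h i y b), a.2.2⟩

variable (tb tm b c d) in
/-- heavy rows in the world of the start -/
def hvR (U : RD (Om W X β) (X × β) (β × W) Xi Rw) (g0 dd mu : ℝ) (r : ℕ) (z : Om W X β) (tl : ℕ → Om W X β → Prop)
    (R : Om W X β → Prop) (Cv : ℕ → Om W X β → Prop) (s : ℕ) (w : Om W X β) : Prop :=
  As tl Cv s w ∧ HvU (WE tb {b} (tm r) z) (HB b) (PT c d) (PT d c) tl Cv R (U.mr r z) (U.Gr r z) g0 dd mu s w

variable (tb tm b c d T) in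
/-- violated class mass in the world of the start -/
def clR (U : RD (Om W X β) (X × β) (β × W) Xi Rw) (g0 mu mu0 : ℝ) (K : ℕ) {Mm : ℕ} (r : ℕ) (z : Om W X β)
    (tl : ℕ → Om W X β → Prop) (x : Fin Mm → (β × W) × Xi) : ℝ :=
  ∑ s ∈ range T, (WE tb {b} (tm r) z).Pr (fun w => tl s w ∧
    mu < cmU (WE tb {b} (tm r) z) (HB b) (PT c d) (PT d c) tl (cvR tb tm b c d U mu0 K r z x) (U.mr r z) (U.Gr r z)
      (g0 ^ 2 / 2) s w)

/-- **the class mass in the mean over the lists, one world** -/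
theorem clR_mean (hO : OnTab M tb tm) (hv : V3 b c d) {U : RD (Om W X β) (X × β) (β × W) Xi Rw} (hU : RDOK D tm b c d U)
    {tl : ℕ → Om W X β → Prop} (t1 : ∀ w i j, tl i w → tl j w → i = j)
    (hA : ∀ i x w, PT c d x = PT c d w → XJ (W := W) D tm b d i x = XJ D tm b d i w → (tl i x ↔ tl i w))
    {mu0 kap mu g0 : ℝ} {K : ℕ} (m0 : 0 < mu0) (hK : 1 < mu0 * K) (k0 : 0 < kap) (u0 : 0 < mu)
    (hg : mu0 + kap ≤ g0 ^ 2 / 2) (Mm r : ℕ) (z : Om W X β) :
    (qHl (WE tb {b} (tm r) z) (U.Qc r z) (PT c d) Mm).E (clR tb tm T b c d U g0 mu mu0 K r z tl) ≤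
      1 / (mu0 * (Mm + 1)) / (kap * mu) :=
  cls_mean_uns (P := WE tb {b} (tm r) z) (Q := U.Qc r z) (C := PT c d) (B := HB b) (D := PT d c) (cV := XJ D tm b d)
    (A := tl) (Gr := U.Gr r z) (row := U.row r z) (mr := U.mr r z) (T := T) (M := Mm) (K := K) (g := g0 ^ 2 / 2)
    (VSt.ind_row (wo_WE tb {b} (tm r) z) hv.bc hv.cd) (fun s => VSt.XJ_V d c s) (VSt.XJ_filt hO d)
    (fun s => VSt.XJ_B d s) hA t1 (hU.law r z) m0 hK k0 u0 hg

theorem ci_w (tm : ℕ → ℕ) (tb : Tab D prr T0 W) (z : Om W X β) (m : ℕ) (hv : V3 b c d) :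
    Blk.CI (WE tb {b} m z) (fun s => sgt D {b} (tm s)) (TabZ.Yt D tm W b c d) (TabZ.Yt D tm W b d c) := by
  obtain ⟨-, -, -, -, h5, h6⟩ := hv.dec
  exact fun s => sgt_ci' (wo_WE tb {b} m z) (E := {b}) (E1 := {b, c}) (S1 := {d}) (E2 := {b, d}) (S2 := {c}) (by simp)
    (by simp) (h5.trans (Finset.union_subset_union_right (Finset.empty_subset _))) h6

theorem Yt_BD {s : ℕ} {v w : Om W X β} (e : TabZ.Yt D tm W b d c s v = TabZ.Yt D tm W b d c s w) :
    (HB b v, PT d c v) = (HB b w, PT d c w) := by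
  rw [si_eq] at e
  exact VSt.BD_eq.2 ⟨⟨e.1, e.2.2.1 b (Finset.mem_insert_self b _)⟩,
    e.2.2.1 d (Finset.mem_insert_of_mem (Finset.mem_singleton_self d)), e.2.1 c (Finset.mem_singleton_self c)⟩

variable (tb tm b c d T) in
/-- one side in one world: light rows, tiny sections, class masses, heavy rows -/
def sd (U : RD (Om W X β) (X × β) (β × W) Xi Rw) (g0 dd mu mu0 : ℝ) (K : ℕ) {Mm : ℕ} (r : ℕ) (z : Om W X β)
    (tl : ℕ → Om W X β → Prop) (R : Om W X β → Prop) (x : Fin Mm → (β × W) × Xi) : ℝ :=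
  g0 * (WE tb {b} (tm r) z).Pr (fun w => ∃ s, tl s w) + dd + clR tb tm T b c d U g0 mu mu0 K r z tl x +
    (WE tb {b} (tm r) z).Pr (fun w => R w ∧ ∃ s, hvR tb tm b c d U g0 dd mu r z tl R (cvY tb tm b c d U mu0 K r z x) s w)

variable (tb tm b c d) in
/-- the covered decided tuples in one world, and those which are not typical -/
def wa (U : RD (Om W X β) (X × β) (β × W) Xi Rw) (mu0 : ℝ) (K : ℕ) {Mm : ℕ} (r : ℕ) (z : Om W X β)
    (tl : ℕ → Om W X β → Prop) (x : Fin Mm → (β × W) × Xi) : ℝ :=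
  (WE tb {b} (tm r) z).Pr (fun w => ∃ s, tl s w ∧ cvR tb tm b c d U mu0 K r z x s w) +
    (WE tb {b} (tm r) z).Pr (fun w => ∃ s, tl s w ∧ ¬ U.ty r z w)

/-- **ONE WORLD, TWO LISTS** -/
theorem wld (hv : V3 b c d) {U U' : RD (Om W X β) (X × β) (β × W) Xi Rw} (hU : RDOK D tm b c d U)
    (hU' : RDOK D tm b d c U')
    {tl : ℕ → Om W X β → Prop} (t1 : ∀ w i j, tl i w → tl j w → i = j) (tT : ∀ w s, tl s w → s < T)
    (tn : ∀ s x w, sgt (W := W) D {b} (tm s) x = sgt D {b} (tm s) w → (tl s x ↔ tl s w))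
    (R : Om W X β → Prop) {g0 dd mu mu0 : ℝ} (bb : ℝ) {K Mm Mm' : ℕ} (g00 : 0 ≤ g0) (d0 : 0 ≤ dd) (r : ℕ)
    (z : Om W X β) (x : Fin Mm → (β × W) × Xi) (x' : Fin Mm' → (β × W) × Xi) :
    (WE tb {b} (tm r) z).Pr (fun w => R w ∧ ∃ s, tl s w) ≤
      sd tb tm T b c d U g0 dd mu mu0 K r z tl R x + sd tb tm T b d c U' g0 dd mu mu0 K r z tl R x' +
        (Real.sqrt bb * ((wa tb tm b c d U mu0 K r z tl x + wa tb tm b d c U' mu0 K r z tl x') / 2) +
          (WE tb {b} (tm r) z).Pr (fun w => ∃ s, tl s w ∧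
            bb < cp (WE tb {b} (tm r) z) (fun s => sgt D {b} (tm s)) s R w ∧ R w)) := by
  set P := WE tb {b} (tm r) z with hP
  set C1 := cvY tb tm b c d U mu0 K r z x with hC1
  set C2 := cvY tb tm b d c U' mu0 K r z x' with hC2
  have h1 := world_side_uns (P := P) (B := HB b) (C := PT c d) (D := PT d c) (tl := tl)
    (Cv := C1) (R := R) (mr := U.mr r z) (Gr := U.Gr r z) (g0 := g0) (d := dd) (mu := mu) t1 tT g00 d0
  have h1' := world_side_uns (P := P) (B := HB b) (C := PT d c) (D := PT c d) (tl := tl)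
    (Cv := C2) (R := R) (mr := U'.mr r z) (Gr := U'.Gr r z) (g0 := g0) (d := dd) (mu := mu) t1 tT g00 d0
  have h2 := GhoV.both_le (P := P) (N := fun s => sgt (W := W) D {b} (tm s))
    (Yc := TabZ.Yt D tm W b d c) (Yd := TabZ.Yt D tm W b c d) (R := R) (f := tl) (T := T)
    (ci_w tm tb z (tm r) hv.r2) tn t1 (fun s w h => tT w s h) (K := C1) (K' := C2)
    (fun s v w e => cvY_fac hU x s v w (Yt_BD e)) (fun s v w e => cvY_fac hU' x' s v w (Yt_BD e)) (b := bb)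
  have h4 : ∀ (C C' : ℕ → Om W X β → Prop) (A : Om W X β → Prop), (∀ s w, C s w → C' s w ∨ A w) →
      P.Pr (fun w => ∃ s, tl s w ∧ C s w) ≤ P.Pr (fun w => ∃ s, tl s w ∧ C' s w) + P.Pr (fun w => ∃ s, tl s w ∧ A w) := by
    intro C C' A hC
    unfold FP.Pr
    rw [← FP.E_add]
    refine P.E_mono fun w _ => ?_
    have n1 := ind_nonneg (∃ s, tl s w ∧ C' s w)
    have n2 := ind_nonneg (∃ s, tl s w ∧ A w)
    by_cases h : ∃ s, tl s w ∧ C s w
    · rw [ind_of h]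
      obtain ⟨s, hs, hc⟩ := h
      rcases hC s w hc with h5 | h5
      · have : ind (∃ s, tl s w ∧ C' s w) = 1 := ind_of ⟨s, hs, h5⟩
        linarith
      · have : ind (∃ s, tl s w ∧ A w) = 1 := ind_of ⟨s, hs, h5⟩
        linarith
    · rw [ind_not h]
      linarith
  have w1 := h4 C1 (cvR tb tm b c d U mu0 K r z x) (fun w => ¬ U.ty r z w) (fun _ _ h => h)
  have w2 := h4 C2 (cvR tb tm b d c U' mu0 K r z x') (fun w => ¬ U'.ty r z w) (fun _ _ h => h)
  have m1 : ∑ s ∈ range T, P.Pr (fun w => tl s w ∧ mu < cmU P (HB b) (PT c d) (PT d c) tl C1 (U.mr r z) (U.Gr r z)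
      (g0 ^ 2 / 2) s w) ≤ clR tb tm T b c d U g0 mu mu0 K r z tl x :=
    Finset.sum_le_sum fun s _ => P.Pr_mono fun w _ h => ⟨h.1, h.2.trans_le (cmU_anti s w fun _ _ a => Or.inl a)⟩
  have m2 : ∑ s ∈ range T, P.Pr (fun w => tl s w ∧ mu < cmU P (HB b) (PT d c) (PT c d) tl C2 (U'.mr r z) (U'.Gr r z)
      (g0 ^ 2 / 2) s w) ≤ clR tb tm T b d c U' g0 mu mu0 K r z tl x' :=
    Finset.sum_le_sum fun s _ => P.Pr_mono fun w _ h => ⟨h.1, h.2.trans_le (cmU_anti s w fun _ _ a => Or.inl a)⟩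
  have s0 := Real.sqrt_nonneg bb
  have h5 := mul_le_mul_of_nonneg_left (show (P.Pr (fun w => ∃ s, tl s w ∧ C1 s w) + P.Pr (fun w => ∃ s, tl s w ∧ C2 s w)) / 2 ≤
    (wa tb tm b c d U mu0 K r z tl x + wa tb tm b d c U' mu0 K r z tl x') / 2 by
      unfold wa
      linarith) s0
  have h3 : P.Pr (fun w => R w ∧ ∃ s, tl s w) ≤ P.Pr (fun w => R w ∧ ∃ s, As tl C1 s w) +
      P.Pr (fun w => R w ∧ ∃ s, As tl C2 s w) + P.Pr (fun w => ∃ s, tl s w ∧ C1 s w ∧ C2 s w ∧ R w) := by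
    unfold FP.Pr
    rw [← FP.E_add, ← FP.E_add]
    refine P.E_mono fun w _ => ?_
    have n1 := ind_nonneg (R w ∧ ∃ s, As tl C1 s w)
    have n2 := ind_nonneg (R w ∧ ∃ s, As tl C2 s w)
    have n3 := ind_nonneg (∃ s, tl s w ∧ C1 s w ∧ C2 s w ∧ R w)
    by_cases h : R w ∧ ∃ s, tl s w
    · obtain ⟨hR, s, hs⟩ := h
      rw [ind_of (⟨hR, s, hs⟩ : R w ∧ ∃ s, tl s w)]
      by_cases c1 : C1 s w
      · by_cases c2 : C2 s w
        · have : ind (∃ s, tl s w ∧ C1 s w ∧ C2 s w ∧ R w) = 1 := ind_of ⟨s, hs, c1, c2, hR⟩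
          linarith
        · have : ind (R w ∧ ∃ s, As tl C2 s w) = 1 := ind_of ⟨hR, s, hs, c2⟩
          linarith
      · have : ind (R w ∧ ∃ s, As tl C1 s w) = 1 := ind_of ⟨hR, s, hs, c1⟩
        linarith
    · rw [ind_not h]
      linarith
  unfold sd hvR
  linarith

/-! ## what the decided lives see -/

theorem TL.row {tl : ℕ → ℕ → Om W X β → Prop} (ht : TL D tm T b tl) (hv : V3 b c d) (r i : ℕ) (x w : Om W X β)
    (e : PT c d x = PT c d w) (e' : XJ (W := W) D tm b d i x = XJ D tm b d i w) : tl r i x ↔ tl r i w := by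
  rw [VSt.PT_eq] at e
  rw [VSt.XJ_eq] at e'
  exact ht.sn r i x w (VSt.sgt_of hv e'.1.1 e'.1.2 (by rw [e.1]) e'.2)

/-! ## the sums over the starts -/

variable (M T b) in
/-- the number of the lives -/
def NR : ℝ := ∑ r ∈ range T, M.P.Pr (fun w => tv M b r w = r)

variable (M T b) in
/-- the number of the decided lives -/
def NV (tl : ℕ → ℕ → Om W X β → Prop) : ℝ := ∑ r ∈ range T, M.P.Pr (fun w => tv M b r w = r ∧ ∃ s, tl r s w)

variable (M T b) in
/-- the density at the exact `b` is above `bb` at the time of the decision -/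
def DN (tl : ℕ → ℕ → Om W X β → Prop) (R : ℕ → Om W X β → Prop) (bb : ℝ) : ℝ :=
  ∑ r ∈ range T, M.P.Pr (fun w => tv M b r w = r ∧ ∃ s, tl r s w ∧
    bb < M.P.ce (M.S {b} s) (fun u => ind (R r u)) w ∧ R r w)

/-- the sight of the exact `b` at the starts -/
abbrev Sb (W : Type) [Fintype W] (D : HD (Fin 3) X β γ φ) (tm : ℕ → ℕ) (b : Fin 3) (r : ℕ) :=
  sgt (W := W) (X := X) (β := β) D {b} (tm r)

variable (tb tm b c d) in
/-- law of the list of the world of the start `r` -/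
def qR (U : RD (Om W X β) (X × β) (β × W) Xi Rw) (Mm r : ℕ) (z : Om W X β) : FP (Fin Mm → (β × W) × Xi) :=
  qHl (WE tb {b} (tm r) z) (U.Qc r z) (PT c d) Mm

variable (tb tm b c d T) in
/-- the coin tables of the lists -/
def cR (U : RD (Om W X β) (X × β) (β × W) Xi Rw) (Mm : ℕ) : FP (CoinF.Ix (Om W X β) T → (Fin Mm → (β × W) × Xi)) :=
  cL (qR tb tm b c d U Mm) T

variable (M tb tm b c d T) in
/-- covered decided lives (and not typical ones), one coin table -/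
def WV (U : RD (Om W X β) (X × β) (β × W) Xi Rw) [Nonempty ((β × W) × Xi)] (mu0 : ℝ) (K : ℕ) {Mm : ℕ}
    (tl : ℕ → ℕ → Om W X β → Prop) (θ : CoinF.Ix (Om W X β) T → (Fin Mm → (β × W) × Xi)) : ℝ :=
  ∑ r ∈ range T, M.P.E (fun z => ind (tv M b r z = r) * wa tb tm b c d U mu0 K r z (tl r) (lst (Sb W D tm b) θ r z))

variable (tb tm b c d T) in
/-- cover of the rows of the life `r`, or not typical -/
def cvT (U : RD (Om W X β) (X × β) (β × W) Xi Rw) [Nonempty ((β × W) × Xi)] (mu0 : ℝ) (K : ℕ) {Mm : ℕ}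
    (θ : CoinF.Ix (Om W X β) T → (Fin Mm → (β × W) × Xi)) (r : ℕ) (z : Om W X β) (s : ℕ) (w : Om W X β) : Prop :=
  cvY tb tm b c d U mu0 K r z (lst (Sb W D tm b) θ r z) s w

variable (M tb tm b c d T) in
/-- the heavy rows of the lives, one coin table -/
def HV (U : RD (Om W X β) (X × β) (β × W) Xi Rw) [Nonempty ((β × W) × Xi)] (g0 dd mu mu0 : ℝ) (K : ℕ) {Mm : ℕ}
    (tl : ℕ → ℕ → Om W X β → Prop) (R : ℕ → Om W X β → Prop)
    (θ : CoinF.Ix (Om W X β) T → (Fin Mm → (β × W) × Xi)) : ℝ :=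
  ∑ r ∈ range T, M.P.Pr (fun w => tv M b r w = r ∧ (R r w ∧
    ∃ s, hvR tb tm b c d U g0 dd mu r w (tl r) (R r) (cvT tb tm T b c d U mu0 K θ r w) s w))

theorem cvT_same {U : RD (Om W X β) (X × β) (β × W) Xi Rw} [Nonempty ((β × W) × Xi)] (hU : RDOK D tm b c d U) {mu0 : ℝ}
    {K Mm r : ℕ} {θ : CoinF.Ix (Om W X β) T → (Fin Mm → (β × W) × Xi)} {z z' : Om W X β}
    (e : sgt (W := W) D {b} (tm r) z = sgt D {b} (tm r) z') :
    cvT tb tm T b c d U mu0 K θ r z = cvT tb tm T b c d U mu0 K θ r z' := by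
  funext s w
  unfold cvT
  rw [lst_S (Sb W D tm b) θ r e, cvY_same hU e]

theorem hvR_same {U : RD (Om W X β) (X × β) (β × W) Xi Rw} (hU : RDOK D tm b c d U) {g0 dd mu : ℝ} {r : ℕ}
    {z z' : Om W X β} (e : sgt (W := W) D {b} (tm r) z = sgt D {b} (tm r) z') (tl : ℕ → Om W X β → Prop)
    (R : Om W X β → Prop) (Cv : ℕ → Om W X β → Prop) :
    hvR tb tm b c d U g0 dd mu r z tl R Cv = hvR tb tm b c d U g0 dd mu r z' tl R Cv := by
  funext s w
  unfold hvR
  rw [WE_same tb e, hU.sG r z z' e, hU.sM r z z' e]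

theorem qR_same {U : RD (Om W X β) (X × β) (β × W) Xi Rw} (hU : RDOK D tm b c d U) {Mm r : ℕ} {z z' : Om W X β}
    (e : sgt (W := W) D {b} (tm r) z = sgt D {b} (tm r) z') :
    qR tb tm b c d U Mm r z = qR tb tm b c d U Mm r z' := by
  unfold qR
  rw [WE_same tb e, hU.sQ r z z' e]

variable (M tb tm b c d T) in
/-- the class masses, one coin table -/
def CM (U : RD (Om W X β) (X × β) (β × W) Xi Rw) [Nonempty ((β × W) × Xi)] (g0 mu mu0 : ℝ) (K : ℕ) {Mm : ℕ}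
    (tl : ℕ → ℕ → Om W X β → Prop) (θ : CoinF.Ix (Om W X β) T → (Fin Mm → (β × W) × Xi)) : ℝ :=
  ∑ r ∈ range T, M.P.E (fun z => ind (tv M b r z = r) *
      clR tb tm T b c d U g0 mu mu0 K r z (tl r) (lst (Sb W D tm b) θ r z))

/-- the class masses in the mean over the coin table -/
theorem CM_mean (hO : OnTab M tb tm) (hv : V3 b c d) {U : RD (Om W X β) (X × β) (β × W) Xi Rw}
    [Nonempty ((β × W) × Xi)] (hU : RDOK D tm b c d U) {tl : ℕ → ℕ → Om W X β → Prop} (ht : TL D tm T b tl)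
    {mu0 kap mu g0 : ℝ} {K : ℕ} (m0 : 0 < mu0) (hK : 1 < mu0 * K) (k0 : 0 < kap) (u0 : 0 < mu)
    (hg : mu0 + kap ≤ g0 ^ 2 / 2) (Mm : ℕ) :
    (cR tb tm T b c d U Mm).E (CM tb M tm T b c d U g0 mu mu0 K tl) ≤
      1 / (mu0 * (Mm + 1)) / (kap * mu) * NR M T b := by
  have h1 := coin_sum M.P (Sb W D tm b) (qR tb tm b c d U Mm) (fun r z z' e => qR_same hU e) T
    (fun r z => ind (tv M b r z = r)) (fun r z x => clR tb tm T b c d U g0 mu mu0 K r z (tl r) x)
  unfold cR CM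
  rw [← h1]
  unfold NR FP.Pr
  rw [Finset.mul_sum]
  refine Finset.sum_le_sum fun r _ => ?_
  rw [← FP.E_smul]
  refine M.P.E_mono fun z _ => ?_
  rw [mul_comm (1 / (mu0 * ((Mm : ℝ) + 1)) / (kap * mu))]
  exact mul_le_mul_of_nonneg_left (clR_mean hO hv hU (ht.one r) (ht.row hv r) m0 hK k0 u0 hg Mm r z) (ind_nonneg _)

variable (M tb tm b c d T) in
/-- one side, one coin table -/
def SD (U : RD (Om W X β) (X × β) (β × W) Xi Rw) [Nonempty ((β × W) × Xi)] (g0 dd mu mu0 : ℝ) (K : ℕ) {Mm : ℕ}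
    (tl : ℕ → ℕ → Om W X β → Prop) (R : ℕ → Om W X β → Prop)
    (θ : CoinF.Ix (Om W X β) T → (Fin Mm → (β × W) × Xi)) : ℝ :=
  g0 * NV M T b tl + dd * NR M T b + CM tb M tm T b c d U g0 mu mu0 K tl θ +
    HV tb M tm T b c d U g0 dd mu mu0 K tl R θ

/-- one side of all worlds -/
theorem SD_eq (hO : OnTab M tb tm) (H : Seen M) {U : RD (Om W X β) (X × β) (β × W) Xi Rw} [Nonempty ((β × W) × Xi)]
    (hU : RDOK D tm b c d U) {g0 dd mu mu0 : ℝ} {K Mm : ℕ} {tl : ℕ → ℕ → Om W X β → Prop} {R : ℕ → Om W X β → Prop}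
    (θ : CoinF.Ix (Om W X β) T → (Fin Mm → (β × W) × Xi)) :
    ∑ r ∈ range T, M.P.E (fun z => ind (tv M b r z = r) *
      sd tb tm T b c d U g0 dd mu mu0 K r z (tl r) (R r) (lst (Sb W D tm b) θ r z)) =
      SD tb M tm T b c d U g0 dd mu mu0 K tl R θ := by
  unfold SD NV NR CM HV
  rw [Finset.mul_sum, Finset.mul_sum, ← Finset.sum_add_distrib, ← Finset.sum_add_distrib, ← Finset.sum_add_distrib]
  refine Finset.sum_congr rfl fun r _ => ?_
  have e1 := startb_Pr hO H b r (fun _ w => ∃ s, tl r s w) (fun _ _ _ => rfl)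
  have e2 := startb_Pr hO H b r (fun z w => R r w ∧
      ∃ s, hvR tb tm b c d U g0 dd mu r z (tl r) (R r) (cvT tb tm T b c d U mu0 K θ r z) s w) (fun z z' e => by
    funext w
    rw [cvT_same hU e, hvR_same hU e])
  rw [← e1, ← e2, show M.P.Pr (fun w => tv M b r w = r) = M.P.E (fun z => ind (tv M b r z = r)) from rfl,
    ← FP.E_smul, ← FP.E_smul, ← FP.E_add, ← FP.E_add, ← FP.E_add]
  refine M.P.E_congr fun z _ => ?_
  unfold sd cvT
  ring

/-- **ONE COIN TABLE FOR THE ROWS AND ONE FOR THE COLUMNS** -/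
theorem two_tables (hO : OnTab M tb tm) (H : Seen M) (hv : V3 b c d) {U U' : RD (Om W X β) (X × β) (β × W) Xi Rw}
    [Nonempty ((β × W) × Xi)] (hU : RDOK D tm b c d U) (hU' : RDOK D tm b d c U') {tl : ℕ → ℕ → Om W X β → Prop}
    (ht : TL D tm T b tl) (R : ℕ → Om W X β → Prop) {g0 dd mu mu0 : ℝ} (bb : ℝ) {K Mm Mm' : ℕ} (g00 : 0 ≤ g0)
    (d0 : 0 ≤ dd) (θ : CoinF.Ix (Om W X β) T → (Fin Mm → (β × W) × Xi))
    (θ' : CoinF.Ix (Om W X β) T → (Fin Mm' → (β × W) × Xi)) :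
    ∑ r ∈ range T, M.P.Pr (fun w => tv M b r w = r ∧ (R r w ∧ ∃ s, tl r s w)) ≤
      SD tb M tm T b c d U g0 dd mu mu0 K tl R θ + SD tb M tm T b d c U' g0 dd mu mu0 K tl R θ' +
        (Real.sqrt bb * ((WV tb M tm T b c d U mu0 K tl θ + WV tb M tm T b d c U' mu0 K tl θ') / 2) +
          DN M T b tl R bb) := by
  rw [← SD_eq hO H hU θ, ← SD_eq hO H hU' θ']
  unfold WV DN
  rw [← Finset.sum_add_distrib, ← Finset.sum_add_distrib, Finset.sum_div, Finset.mul_sum, ← Finset.sum_add_distrib,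
    ← Finset.sum_add_distrib]
  refine Finset.sum_le_sum fun r hr => ?_
  have e0 := startb_Pr hO H b r (fun _ w => R r w ∧ ∃ s, tl r s w) (fun _ _ _ => rfl)
  have e3 : M.P.E (fun z => ind (tv M b r z = r) * (WE tb {b} (tm r) z).Pr (fun w => ∃ s, tl r s w ∧
      bb < cp (WE tb {b} (tm r) z) (fun s => sgt D {b} (tm s)) s (R r) w ∧ R r w)) =
      M.P.Pr (fun w => tv M b r w = r ∧ ∃ s, tl r s w ∧
        bb < M.P.ce (M.S {b} s) (fun u => ind (R r u)) w ∧ R r w) := by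
    have e := startb_Pr hO H b r (fun _ w => ∃ s, tl r s w ∧
      bb < M.P.ce (M.S {b} s) (fun u => ind (R r u)) w ∧ R r w) (fun _ _ _ => rfl)
    rw [← e]
    refine M.P.E_congr fun z _ => ?_
    congr 1
    refine FP.Pr_congr _ fun w hw => exists_congr fun s => and_congr_right fun hs => ?_
    have h1 := UV0.ce_M (z := z) (n := r) hO (E0 := {b}) (E := {b}) (Finset.Subset.refl _) (ht.ge r w s hs) hw
      (fun u => ind (R r u))
    show (bb < (WE tb {b} (tm r) z).ce (sgt D {b} (tm s)) (fun u => ind (R r u)) w ∧ R r w) ↔ _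
    rw [h1]
  rw [← e0, ← e3]
  rw [← FP.E_add, ← FP.E_add, ← M.P.E_div_const, ← FP.E_smul, ← FP.E_add, ← FP.E_add]
  refine M.P.E_mono fun z _ => ?_
  have h1 := wld (tb := tb) (tm := tm) (T := T) (K := K) (mu := mu) (mu0 := mu0) hv hU hU' (ht.one r) (ht.lt r) (ht.sn r)
    (R r) bb g00 d0 r z (lst (Sb W D tm b) θ r z) (lst (Sb W D tm b) θ' r z)
  refine (mul_le_mul_of_nonneg_left h1 (ind_nonneg (tv M b r z = r))).trans (le_of_eq ?_)
  ring

/-- **UNSIGNED ROWS AND COLUMNS OF ALL LIVES OF THE EXACT VERTEX `b`**, in the mean over the coin tables -/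
theorem uns_b (hO : OnTab M tb tm) (H : Seen M) (hv : V3 b c d) {U U' : RD (Om W X β) (X × β) (β × W) Xi Rw}
    [Nonempty ((β × W) × Xi)] (hU : RDOK D tm b c d U) (hU' : RDOK D tm b d c U') {tl : ℕ → ℕ → Om W X β → Prop}
    (ht : TL D tm T b tl) (R : ℕ → Om W X β → Prop) {g0 dd kap mu mu0 : ℝ} (bb : ℝ) {K Mm Mm' : ℕ} (g00 : 0 ≤ g0)
    (d0 : 0 ≤ dd) (m0 : 0 < mu0) (hK : 1 < mu0 * K) (k0 : 0 < kap) (u0 : 0 < mu) (hg : mu0 + kap ≤ g0 ^ 2 / 2) :
    ∑ r ∈ range T, M.P.Pr (fun w => tv M b r w = r ∧ (R r w ∧ ∃ s, tl r s w)) ≤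
      2 * g0 * NV M T b tl + 2 * dd * NR M T b + 1 / (mu0 * (Mm + 1)) / (kap * mu) * NR M T b +
        1 / (mu0 * (Mm' + 1)) / (kap * mu) * NR M T b +
        (Real.sqrt bb * (((cR tb tm T b c d U Mm).E (WV tb M tm T b c d U mu0 K tl) +
          (cR tb tm T b d c U' Mm').E (WV tb M tm T b d c U' mu0 K tl)) / 2) + DN M T b tl R bb) +
        ((cR tb tm T b c d U Mm).E (HV tb M tm T b c d U g0 dd mu mu0 K tl R) +
          (cR tb tm T b d c U' Mm').E (HV tb M tm T b d c U' g0 dd mu mu0 K tl R)) := by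
  set P1 := cR tb tm T b c d U Mm with hP1
  set P2 := cR tb tm T b d c U' Mm' with hP2
  have h1 := P1.E_mono (fun θ _ => P2.E_mono (fun θ' _ =>
    two_tables (K := K) (mu := mu) (mu0 := mu0) hO H hv hU hU' ht R bb g00 d0 θ θ'))
  have e : P1.E (fun θ => P2.E (fun θ' =>
      SD tb M tm T b c d U g0 dd mu mu0 K tl R θ + SD tb M tm T b d c U' g0 dd mu mu0 K tl R θ' +
        (Real.sqrt bb * ((WV tb M tm T b c d U mu0 K tl θ + WV tb M tm T b d c U' mu0 K tl θ') / 2) +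
          DN M T b tl R bb))) =
      P1.E (SD tb M tm T b c d U g0 dd mu mu0 K tl R) + P2.E (SD tb M tm T b d c U' g0 dd mu mu0 K tl R) +
        (Real.sqrt bb * ((P1.E (WV tb M tm T b c d U mu0 K tl) + P2.E (WV tb M tm T b d c U' mu0 K tl)) / 2) +
          DN M T b tl R bb) := by
    simp only [FP.E_add, FP.E_const, FP.E_smul, FP.E_div_const]
  have e1 : P1.E (SD tb M tm T b c d U g0 dd mu mu0 K tl R) = g0 * NV M T b tl + dd * NR M T b +
      P1.E (CM tb M tm T b c d U g0 mu mu0 K tl) + P1.E (HV tb M tm T b c d U g0 dd mu mu0 K tl R) := by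
    show P1.E (fun θ => SD tb M tm T b c d U g0 dd mu mu0 K tl R θ) = _
    unfold SD
    rw [FP.E_add, FP.E_add, FP.E_const]
  have e2 : P2.E (SD tb M tm T b d c U' g0 dd mu mu0 K tl R) = g0 * NV M T b tl + dd * NR M T b +
      P2.E (CM tb M tm T b d c U' g0 mu mu0 K tl) + P2.E (HV tb M tm T b d c U' g0 dd mu mu0 K tl R) := by
    show P2.E (fun θ => SD tb M tm T b d c U' g0 dd mu mu0 K tl R θ) = _
    unfold SD
    rw [FP.E_add, FP.E_add, FP.E_const]
  have c1 := CM_mean (T := T) hO hv hU ht m0 hK k0 u0 hg Mm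
  have c2 := CM_mean (T := T) hO hv.r2 hU' ht m0 hK k0 u0 hg Mm'
  rw [← hP1] at c1
  rw [← hP2] at c2
  rw [e, e1, e2, FP.E_const, FP.E_const] at h1
  linarith

end

end Pool.Agent.GMH.VSu
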