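import Pool.Agent.GMH.VSt

/-!
# GMH/VSw (helper40): THE WORLD OF THE START OF A LIFE OF THE EXACT VERTEX `b`: ROWS, COLUMNS, BOTH COVERED

* `world_J3`, `world_U3` : `VSr.world_J` with the dead pieces of the cover of the rows thrown away (`tc` = covered, living);
* `ded_change`, `ded_facV` : the dead pieces, other sights;
* `own_heavy` : heavy rows at the vertex time `T^b = s`, thin cover `K` of the own row in the world of the life (light at `s` only):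
  `P (R, ∃ s, tk s, G s) ≤ (u/2 + uc) P (∃ s, tk s) + b/uc P (K (σ)) + P (∃ s, tk s, b < density of R at s, R)`.
-/

set_option autoImplicit false
set_option linter.unusedSectionVars false

namespace Pool.Agent.GMH.VSw

open Finset Pool.Agent.PWZ Pool.Agent.M3 Pool.Agent.GMH.Gdy Pool.Agent.GMH.CR Pool.Agent.GMH.Three
open Pool.Agent.GMH.GhoT Pool.Agent.GMH.GhoL Pool.Agent.GMH.VSr
open Pool.Agent.GMH.GdyR (covL pcL)
open Pool.Agent.GMH.GdyN (alv ded)

noncomputable section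

/-! ## three parts of a world -/

section world

variable {Om : Type*} [Fintype Om] {P : FP Om} {α β δ Rw Rw' : Type*} [Fintype β] [Fintype δ] [Fintype Rw]
  [Fintype Rw'] {B : Om → α} {C : Om → β} {D : Om → δ} {tl Cv Dd CvC : ℕ → Om → Prop} {R : Om → Prop}
  {Jf ψ ψc : Om → ℝ} {mr : α → β → FP Rw} {Gr : α → β → Rw → δ → Prop} {ps : α → β → Rw → δ → ℝ}
  {mr' : α → δ → FP Rw'} {Gr' : α → δ → Rw' → β → Prop} {ps' : α → δ → Rw' → β → ℝ} {lam g0 d mu : ℝ}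

variable (tl Cv Dd) in
/-- decided, covered by the cover of the rows, in a living piece -/
def tc (s : ℕ) (w : Om) : Prop := tl s w ∧ Cv s w ∧ ¬ Dd s w

theorem tc_one (t1 : ∀ w i j, tl i w → tl j w → i = j) (w : Om) (i j : ℕ) (a : tc tl Cv Dd i w)
    (b : tc tl Cv Dd j w) : i = j := t1 w i j a.1 b.1

/-- **ROWS, COLUMNS, BOTH COVERED, DEAD PIECES** : `Jf` is near to `ψ` (rows) and to `ψc` (columns) -/
theorem world_J3 (t1 : ∀ w i j, tl i w → tl j w → i = j) {T : ℕ} (tT : ∀ w s, tl s w → s < T) (g00 : 0 ≤ g0)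
    (d0 : 0 ≤ d) {L ks : ℝ} (L0 : 0 ≤ L) (l0 : 0 ≤ lam) (k0 : 0 ≤ ks) (hL : ∀ w, R w → ψ w ≤ L)
    (hLc : ∀ w, R w → ψc w ≤ L) (hJ : ∀ w, R w → Jf w ≤ L) (hJr : ∀ w, R w → Jf w ≤ ψ w + ks)
    (hJc : ∀ w, R w → Jf w ≤ ψc w + ks) :
    P.E (fun w => ind (R w ∧ ∃ s, tl s w) * Jf w) ≤
      (2 * lam + ks) * P.Pr (fun w => R w ∧ ∃ s, tl s w) +
        L * (g0 * P.Pr (fun w => ∃ s, tl s w) + d + ∑ s ∈ range T, P.Pr (fun w => tl s w ∧
          mu < cmS P B C D tl Cv mr Gr ps lam (g0 ^ 2 / 4) s w) +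
          P.Pr (fun w => R w ∧ ∃ s, As tl Cv s w ∧ Hv P B C D tl Cv R ψ mr Gr ps lam g0 d mu s w)) +
        L * (g0 * P.Pr (fun w => ∃ s, tl s w) + d + ∑ s ∈ range T, P.Pr (fun w => tc tl Cv Dd s w ∧
          mu < cmS P B D C (tc tl Cv Dd) CvC mr' Gr' ps' lam (g0 ^ 2 / 4) s w) +
          P.Pr (fun w => R w ∧ ∃ s, As (tc tl Cv Dd) CvC s w ∧
            Hv P B D C (tc tl Cv Dd) CvC R ψc mr' Gr' ps' lam g0 d mu s w)) +
        L * (P.Pr (fun w => ∃ s, tl s w ∧ Cv s w ∧ CvC s w ∧ R w) + P.Pr (fun w => ∃ s, tl s w ∧ Dd s w)) := by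
  have h1 := world_side (P := P) (B := B) (C := C) (D := D) (tl := tl) (Cv := Cv) (R := R) (ψ := ψ) (mr := mr)
    (Gr := Gr) (ps := ps) (lam := lam) (g0 := g0) (d := d) (mu := mu) t1 tT g00 d0 L0 hL
  have h2 := world_side (P := P) (B := B) (C := D) (D := C) (tl := tc tl Cv Dd) (Cv := CvC) (R := R) (ψ := ψc)
    (mr := mr') (Gr := Gr') (ps := ps') (lam := lam) (g0 := g0) (d := d) (mu := mu) (tc_one t1)
    (fun w s a => tT w s a.1) g00 d0 L0 hLc
  have h2' : P.Pr (fun w => ∃ s, tc tl Cv Dd s w) ≤ P.Pr (fun w => ∃ s, tl s w) :=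
    P.Pr_mono fun w _ ⟨s, a⟩ => ⟨s, a.1⟩
  have h2'' := mul_le_mul_of_nonneg_left (mul_le_mul_of_nonneg_left h2' g00) L0
  -- the decided tuples are the disjoint union of four parts
  have h3 : P.E (fun w => ind (R w ∧ ∃ s, tl s w) * Jf w) ≤
      P.E (fun w => ind (R w ∧ ∃ s, As tl Cv s w) * ψ w) +
        P.E (fun w => ind (R w ∧ ∃ s, As (tc tl Cv Dd) CvC s w) * ψc w) +
        L * (P.Pr (fun w => ∃ s, tl s w ∧ Cv s w ∧ CvC s w ∧ R w) + P.Pr (fun w => ∃ s, tl s w ∧ Dd s w)) +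
        ks * P.Pr (fun w => R w ∧ ∃ s, tl s w) := by
    unfold FP.Pr
    rw [← FP.E_add (f := fun w => ind (∃ s, tl s w ∧ Cv s w ∧ CvC s w ∧ R w)), ← FP.E_smul, ← FP.E_smul, ← FP.E_add,
      ← FP.E_add, ← FP.E_add]
    refine P.E_mono fun w _ => ?_
    have n3 := mul_nonneg L0 (ind_nonneg (∃ s, tl s w ∧ Cv s w ∧ CvC s w ∧ R w))
    have n4 := mul_nonneg L0 (ind_nonneg (∃ s, tl s w ∧ Dd s w))
    by_cases h : R w ∧ ∃ s, tl s w
    · obtain ⟨hR, s, hs⟩ := h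
      rw [ind_of (⟨hR, s, hs⟩ : R w ∧ ∃ s, tl s w), one_mul, mul_one]
      by_cases c1 : Cv s w
      · have n1 : ind (R w ∧ ∃ s, As tl Cv s w) = 0 := ind_not fun ⟨_, s', a, b⟩ => b ((t1 w s s' hs a) ▸ c1)
        by_cases c3 : Dd s w
        · have n2 : ind (R w ∧ ∃ s, As (tc tl Cv Dd) CvC s w) = 0 :=
            ind_not fun ⟨_, s', a, b⟩ => a.2.2 ((t1 w s s' hs a.1) ▸ c3)
          have n5 : ind (∃ s, tl s w ∧ Dd s w) = 1 := ind_of ⟨s, hs, c3⟩
          have := hJ w hR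
          rw [n1, n2, n5]
          linarith
        · by_cases c2 : CvC s w
          · have n2 : ind (R w ∧ ∃ s, As (tc tl Cv Dd) CvC s w) = 0 :=
              ind_not fun ⟨_, s', a, b⟩ => b ((t1 w s s' hs a.1) ▸ c2)
            have n5 : ind (∃ s, tl s w ∧ Cv s w ∧ CvC s w ∧ R w) = 1 := ind_of ⟨s, hs, c1, c2, hR⟩
            have := hJ w hR
            rw [n1, n2, n5]
            linarith
          · have n2 : ind (R w ∧ ∃ s, As (tc tl Cv Dd) CvC s w) = 1 := ind_of ⟨hR, s, ⟨hs, c1, c3⟩, c2⟩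
            have := hJc w hR
            rw [n1, n2]
            linarith
      · have n1 : ind (R w ∧ ∃ s, As tl Cv s w) = 1 := ind_of ⟨hR, s, hs, c1⟩
        have n2 : ind (R w ∧ ∃ s, As (tc tl Cv Dd) CvC s w) = 0 :=
          ind_not fun ⟨_, s', a, b⟩ => c1 ((t1 w s s' hs a.1) ▸ a.2.1)
        have := hJr w hR
        rw [n1, n2]
        linarith
    · rw [ind_not h, zero_mul, ind_not (fun ⟨a, s, b⟩ => h ⟨a, s, b.1⟩ : ¬ (R w ∧ ∃ s, As tl Cv s w)), zero_mul,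
        ind_not (fun ⟨a, s, b⟩ => h ⟨a, s, b.1.1⟩ : ¬ (R w ∧ ∃ s, As (tc tl Cv Dd) CvC s w)), zero_mul, mul_zero]
      linarith
  -- the released parts are disjoint
  have h4 : P.Pr (fun w => R w ∧ ∃ s, As tl Cv s w ∧ Dc P B C tl Cv R ψ lam s w) +
      P.Pr (fun w => R w ∧ ∃ s, As (tc tl Cv Dd) CvC s w ∧ Dc P B D (tc tl Cv Dd) CvC R ψc lam s w) ≤
      P.Pr (fun w => R w ∧ ∃ s, tl s w) := by
    unfold FP.Pr
    rw [← FP.E_add]
    refine P.E_mono fun w _ => ?_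
    by_cases a : R w ∧ ∃ s, As tl Cv s w ∧ Dc P B C tl Cv R ψ lam s w
    · have b : ¬ (R w ∧ ∃ s, As (tc tl Cv Dd) CvC s w ∧ Dc P B D (tc tl Cv Dd) CvC R ψc lam s w) := by
        rintro ⟨_, s', ⟨⟨a1, a2, _⟩, _⟩, _⟩
        obtain ⟨_, s, ⟨b1, b2⟩, _⟩ := a
        exact b2 ((t1 w s s' b1 a1) ▸ a2)
      rw [ind_of a, ind_not b, add_zero]
      obtain ⟨hR, s, b1, _⟩ := a
      exact (ind_of (⟨hR, s, b1.1⟩ : R w ∧ ∃ s, tl s w)).ge
    · rw [ind_not a, zero_add]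
      exact ind_mono fun ⟨hR, s, b, _⟩ => ⟨hR, s, b.1.1⟩
  have h5 := mul_le_mul_of_nonneg_left h4 (show 0 ≤ 2 * lam by linarith)
  linarith

/-- **THE SAME, UNSIGNED** -/
theorem world_U3 (t1 : ∀ w i j, tl i w → tl j w → i = j) {T : ℕ} (tT : ∀ w s, tl s w → s < T) (g00 : 0 ≤ g0)
    (d0 : 0 ≤ d) :
    P.Pr (fun w => R w ∧ ∃ s, tl s w) ≤
      (g0 * P.Pr (fun w => ∃ s, tl s w) + d + ∑ s ∈ range T, P.Pr (fun w => tl s w ∧
          mu < cmU P B C D tl Cv mr Gr (g0 ^ 2 / 2) s w) +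
          P.Pr (fun w => R w ∧ ∃ s, As tl Cv s w ∧ HvU P B C D tl Cv R mr Gr g0 d mu s w)) +
        (g0 * P.Pr (fun w => ∃ s, tl s w) + d + ∑ s ∈ range T, P.Pr (fun w => tc tl Cv Dd s w ∧
          mu < cmU P B D C (tc tl Cv Dd) CvC mr' Gr' (g0 ^ 2 / 2) s w) +
          P.Pr (fun w => R w ∧ ∃ s, As (tc tl Cv Dd) CvC s w ∧
            HvU P B D C (tc tl Cv Dd) CvC R mr' Gr' g0 d mu s w)) +
        (P.Pr (fun w => ∃ s, tl s w ∧ Cv s w ∧ CvC s w ∧ R w) + P.Pr (fun w => ∃ s, tl s w ∧ Dd s w)) := by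
  have h1 := world_side_uns (P := P) (B := B) (C := C) (D := D) (tl := tl) (Cv := Cv) (R := R) (mr := mr) (Gr := Gr)
    (g0 := g0) (d := d) (mu := mu) t1 tT g00 d0
  have h2 := world_side_uns (P := P) (B := B) (C := D) (D := C) (tl := tc tl Cv Dd) (Cv := CvC) (R := R) (mr := mr')
    (Gr := Gr') (g0 := g0) (d := d) (mu := mu) (tc_one t1) (fun w s a => tT w s a.1) g00 d0
  have h2' : P.Pr (fun w => ∃ s, tc tl Cv Dd s w) ≤ P.Pr (fun w => ∃ s, tl s w) :=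
    P.Pr_mono fun w _ ⟨s, a⟩ => ⟨s, a.1⟩
  have h2'' := mul_le_mul_of_nonneg_left h2' g00
  have h3 : P.Pr (fun w => R w ∧ ∃ s, tl s w) ≤
      P.Pr (fun w => R w ∧ ∃ s, As tl Cv s w) + P.Pr (fun w => R w ∧ ∃ s, As (tc tl Cv Dd) CvC s w) +
        (P.Pr (fun w => ∃ s, tl s w ∧ Cv s w ∧ CvC s w ∧ R w) + P.Pr (fun w => ∃ s, tl s w ∧ Dd s w)) := by
    unfold FP.Pr
    rw [← FP.E_add, ← FP.E_add (f := fun w => ind (∃ s, tl s w ∧ Cv s w ∧ CvC s w ∧ R w)), ← FP.E_add]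
    refine P.E_mono fun w _ => ?_
    have n1 := ind_nonneg (R w ∧ ∃ s, As tl Cv s w)
    have n2 := ind_nonneg (R w ∧ ∃ s, As (tc tl Cv Dd) CvC s w)
    have n3 := ind_nonneg (∃ s, tl s w ∧ Cv s w ∧ CvC s w ∧ R w)
    have n4 := ind_nonneg (∃ s, tl s w ∧ Dd s w)
    by_cases h : R w ∧ ∃ s, tl s w
    · obtain ⟨hR, s, hs⟩ := h
      rw [ind_of (⟨hR, s, hs⟩ : R w ∧ ∃ s, tl s w)]
      by_cases c1 : Cv s w
      · by_cases c3 : Dd s w
        · have : ind (∃ s, tl s w ∧ Dd s w) = 1 := ind_of ⟨s, hs, c3⟩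
          linarith
        by_cases c2 : CvC s w
        · have : ind (∃ s, tl s w ∧ Cv s w ∧ CvC s w ∧ R w) = 1 := ind_of ⟨s, hs, c1, c2, hR⟩
          linarith
        · have : ind (R w ∧ ∃ s, As (tc tl Cv Dd) CvC s w) = 1 := ind_of ⟨hR, s, ⟨hs, c1, c3⟩, c2⟩
          linarith
      · have : ind (R w ∧ ∃ s, As tl Cv s w) = 1 := ind_of ⟨hR, s, hs, c1⟩
        linarith
    · rw [ind_not h]
      linarith
  linarith

end world

/-! ## dead pieces, other sights -/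

section dead

variable {Om : Type*} [Fintype Om] {P : FP Om} {κ κ' : ℕ → Type*} {X : ∀ t, Om → κ t} {Y : ∀ t, Om → κ' t} {Rr : Type*}
  {H : ℕ → Rr → Om → Prop} {f : Rr → Om → ℝ} {kap lam : ℝ} {K : ℕ} {th : ℝ} {n : ℕ} {x : Fin n → Rr} {ω : Type*}
  {V : Om → ω}

theorem pcL_facV (hX : ∀ s, Fac V (X s)) (hH : ∀ s a v w, V v = V w → (H s a v ↔ H s a w)) (t : ℕ) (i : Fin n)
    (v w : Om) (e : V v = V w) : pcL P X H f kap lam K x t i v ↔ pcL P X H f kap lam K x t i w := by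
  have h1 : GdyR.cov P (GdyR.rX X K) (GdyR.rH H K) f kap lam x t v ↔
      GdyR.cov P (GdyR.rX X K) (GdyR.rH H K) f kap lam x t w :=
    GdyR.cov_facV (fun t => hX (t / K)) (fun t a v w h => hH (t / K) a v w h) t v w e
  have h2 : GdyR.rH H K t (x i) v ↔ GdyR.rH H K t (x i) w := hH (t / K) (x i) v w e
  unfold pcL GdyR.pc
  rw [h1, GdyR.tk_fac (show GdyR.rX X K t v = GdyR.rX X K t w from hX _ v w e), h2]

theorem ded_facV (hX : ∀ s, Fac V (X s)) (hH : ∀ s a v w, V v = V w → (H s a v ↔ H s a w)) (s : ℕ) (v w : Om)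
    (e : V v = V w) : ded P X H f kap lam K th x s v ↔ ded P X H f kap lam K th x s w := by
  refine exists_congr fun t => and_congr_right fun _ => exists_congr fun i => ?_
  rw [pcL_facV hX hH t i v w e]
  refine and_congr_right fun _ => not_congr (forall_congr' fun s' => forall_congr' fun _ => forall_congr' fun _ => ?_)
  rw [cp_fac s' (pcL P X H f kap lam K x t i) v w (hX s' v w e)]

/-- **the dead pieces seen with more or fewer cells** -/
theorem ded_change (hc : ∀ s (g : Om → ℝ), Fac V g → ∀ w, P.p w ≠ 0 → P.ce (X s) g w = P.ce (Y s) g w)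
    (hY : ∀ s, Fac V (Y s)) (hH : ∀ s a v w, V v = V w → (H s a v ↔ H s a w)) (hf : ∀ a, Fac V (f a)) (s : ℕ) {w : Om}
    (hw : P.p w ≠ 0) : ded P X H f kap lam K th x s w ↔ ded P Y H f kap lam K th x s w := by
  refine exists_congr fun t => and_congr_right fun _ => exists_congr fun i => ?_
  rw [GdyR.pcL_change hc hY hH hf t i hw]
  refine and_congr_right fun _ => not_congr (forall_congr' fun s' => forall_congr' fun _ => forall_congr' fun _ => ?_)
  have e1 : cp P X s' (pcL P X H f kap lam K x t i) w = cp P X s' (pcL P Y H f kap lam K x t i) w :=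
    cp_congr_on fun v hv _ => GdyR.pcL_change hc hY hH hf t i hv
  have e2 : cp P X s' (pcL P Y H f kap lam K x t i) w = cp P Y s' (pcL P Y H f kap lam K x t i) w :=
    hc s' _ (Fac.ind fun a b e => pcL_facV hY hH t i a b e) w hw
  rw [e1, e2]

end dead

/-! ## heavy rows: the thin cover of the own row -/

section own

open Pool.Agent.GMH.GhoA (GF Kt)
open Pool.Agent.GMH.GhoV (cnt cnt' late_le)

variable {Om : Type*} [Fintype Om] {P : FP Om} {κ κ' : ℕ → Type*} {N : ∀ t, Om → κ t} {cC : ∀ t, Om → κ' t}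
  {α β : Type*} {B : Om → α} {C : Om → β} {R : Om → Prop} {tk G : ℕ → Om → Prop} {u uc : ℝ} {T : ℕ} {σ : Om → ℕ}
  {b0 : α}

/-- the list with the own row only -/
def z1 (b0 : α) : Fin 1 → α := fun _ => b0

theorem unc_lt (u0 : 0 < u) (s : ℕ) (w : Om) :
    cp P cC s (fun x => GF P B C G b0 s x ∧ ¬ Kt P cC B C G u (z1 b0) s x) w ≤ u / 2 := by
  set H := rowsT (GF P B C G) (z1 b0) with hH
  have e0 : ∀ x, H s 0 x ↔ GF P B C G b0 s x := fun x => ⟨fun ⟨_, h⟩ => h, fun h => ⟨Nat.one_pos, h⟩⟩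
  have e1 : ∀ x, covT P cC u H 1 (s + 1) x ↔ (covT P cC u H 1 s x ∨ (H s 0 x ∧
      tk1 P cC u s (covT P cC u H 1 s) (H s 0) x)) := fun x => Iff.rfl
  by_cases h : tk1 P cC u s (covT P cC u H 1 s) (H s 0) w
  · have e2 : cp P cC s (fun x => GF P B C G b0 s x ∧ ¬ Kt P cC B C G u (z1 b0) s x) w = 0 := by
      refine cp_zero fun x _ hx => ?_
      rintro ⟨h1, h2⟩
      exact h2 ((e1 x).2 (Or.inr ⟨(e0 x).2 h1, (tk1_fac _ _ hx).2 h⟩))
    rw [e2]
    positivity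
  · have h1 : cp P cC s (fun x => H s 0 x ∧ ¬ covT P cC u H 1 s x) w < u / 2 := not_le.1 h
    refine le_trans (cp_mono (fun x a => ?_) w) h1.le
    exact ⟨(e0 x).2 a.1, fun h2 => a.2 ((e1 x).2 (Or.inl h2))⟩

/-- **HEAVY ROWS AT THE VERTEX TIME, THE THIN COVER OF THE OWN ROW** : `N s` = exact vertex and the cells of the others,
`tk s` = decided at `s`, light at `s` only -/
theorem own_heavy (hnd : ∀ s (f : Om → ℝ), Fac C f → ∀ w, P.p w ≠ 0 → P.ce (N s) f w = P.ce (cC s) f w)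
    (hC : ∀ s, Fac C (cC s)) (hB : ∀ w, P.p w ≠ 0 → B w = b0)
    (hG : ∀ s x w, (B x, C x) = (B w, C w) → (G s x ↔ G s w)) (kN : ∀ s x w, N s x = N s w → (tk s x ↔ tk s w))
    (k1 : ∀ w s s', tk s w → tk s' w → s = s') (kT : ∀ s w, tk s w → s < T) (kσ : ∀ w s, tk s w → s ≤ σ w)
    (u0 : 0 < u) (c0 : 0 < uc) {β0 : ℝ} (b00 : 0 ≤ β0) :
    P.Pr (fun w => R w ∧ ∃ s, tk s w ∧ G s w) ≤
      (u / 2 + uc) * P.Pr (fun w => ∃ s, tk s w) +
        β0 / uc * P.Pr (fun w => Kt P cC B C G u (z1 b0) (σ w) w) +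
        P.Pr (fun w => ∃ s, tk s w ∧ β0 < cp P N s R w ∧ R w) := by
  set K := Kt P cC B C G u (z1 b0) with hK
  have hKf : ∀ s x w, C x = C w → (K s x ↔ K s w) := fun s x w e => GhoA.Kt_facV hC (z1 b0) s x w e
  have hGf : ∀ s x w, C x = C w → (GF P B C G b0 s x ↔ GF P B C G b0 s w) := fun s x w e => GhoA.GF_fac b0 s x w e
  have hGG : ∀ s w, P.p w ≠ 0 → (GF P B C G b0 s w ↔ G s w) := fun s w hw => by
    rw [← hB w hw]
    exact GhoA.GF_iff (fun s x w e1 e2 => hG s x w (Prod.ext e1 e2)) s hw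
  -- three parts
  have h0 : P.Pr (fun w => R w ∧ ∃ s, tk s w ∧ G s w) ≤ P.Pr (fun w => ∃ s, tk s w ∧ (GF P B C G b0 s w ∧ ¬ K s w)) +
      P.Pr (fun w => ∃ s, tk s w ∧ (cp P N s R w ≤ β0 ∧ (R w ∧ K s w))) +
      P.Pr (fun w => ∃ s, tk s w ∧ β0 < cp P N s R w ∧ R w) := by
    unfold FP.Pr
    rw [← FP.E_add, ← FP.E_add]
    refine P.E_mono fun w hw => ?_
    have n1 := ind_nonneg (∃ s, tk s w ∧ (GF P B C G b0 s w ∧ ¬ K s w))
    have n2 := ind_nonneg (∃ s, tk s w ∧ (cp P N s R w ≤ β0 ∧ (R w ∧ K s w)))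
    have n3 := ind_nonneg (∃ s, tk s w ∧ β0 < cp P N s R w ∧ R w)
    by_cases h : R w ∧ ∃ s, tk s w ∧ G s w
    · obtain ⟨hR, s, hs, hg⟩ := h
      rw [ind_of (⟨hR, s, hs, hg⟩ : R w ∧ ∃ s, tk s w ∧ G s w)]
      by_cases c1 : K s w
      · by_cases c2 : cp P N s R w ≤ β0
        · have : ind (∃ s, tk s w ∧ (cp P N s R w ≤ β0 ∧ (R w ∧ K s w))) = 1 := ind_of ⟨s, hs, c2, hR, c1⟩
          linarith
        · have : ind (∃ s, tk s w ∧ β0 < cp P N s R w ∧ R w) = 1 := ind_of ⟨s, hs, not_le.1 c2, hR⟩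
          linarith
      · have : ind (∃ s, tk s w ∧ (GF P B C G b0 s w ∧ ¬ K s w)) = 1 := ind_of ⟨s, hs, (hGG s w hw).2 hg, c1⟩
        linarith
    · rw [ind_not h]
      linarith
  have h1 : P.Pr (fun w => ∃ s, tk s w ∧ (GF P B C G b0 s w ∧ ¬ K s w)) ≤ u / 2 * P.Pr (fun w => ∃ s, tk s w) := by
    have a1 := late_le (P := P) (N := N) (f := tk) (T := T) kN k1 kT (fun s w => GF P B C G b0 s w ∧ ¬ K s w)
      (kap := u / 2) (by positivity)
    have a2 : P.Pr (fun w => ∃ s, tk s w ∧ u / 2 < cp P N s (fun w => GF P B C G b0 s w ∧ ¬ K s w) w) = 0 := by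
      unfold FP.Pr
      rw [← P.E_const 0]
      refine P.E_congr fun w hw => ind_not ?_
      rintro ⟨s, _, h2⟩
      have e1 : cp P N s (fun w => GF P B C G b0 s w ∧ ¬ K s w) w =
          cp P cC s (fun w => GF P B C G b0 s w ∧ ¬ K s w) w :=
        hnd s _ (Fac.ind fun x y e => by rw [hGf s x y e, hKf s x y e]) w hw
      rw [e1] at h2
      exact absurd h2 (not_lt.2 (unc_lt u0 s w))
    rw [a2, add_zero] at a1
    exact a1
  have h2 : P.Pr (fun w => ∃ s, tk s w ∧ (cp P N s R w ≤ β0 ∧ (R w ∧ K s w))) ≤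
      uc * P.Pr (fun w => ∃ s, tk s w) + β0 / uc * P.Pr (fun w => K (σ w) w) := by
    have a1 : P.Pr (fun w => ∃ s, tk s w ∧ (cp P N s R w ≤ β0 ∧ (R w ∧ K s w))) ≤
        uc * P.Pr (fun w => ∃ s, tk s w) + β0 / uc * P.Pr (fun w => ∃ s, tk s w ∧ K s w) := by
      rw [cnt k1 kT (fun s w => cp P N s R w ≤ β0 ∧ (R w ∧ K s w)), cnt' k1 kT, cnt k1 kT K, Finset.mul_sum,
        Finset.mul_sum, ← Finset.sum_add_distrib]
      refine Finset.sum_le_sum fun s _ => ?_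
      have hF : Fac (N s) (fun w => ind (tk s w) * ind (cp P N s R w ≤ β0)) := (Fac.ind fun x w e => kN s x w e).mul
        (Fac.ind fun x w e => by rw [cp_fac s R x w e])
      have hF' : Fac (N s) (fun w => ind (tk s w)) := Fac.ind fun x w e => kN s x w e
      have e1 : P.E (fun w => ind (tk s w) * ind (cp P N s R w ≤ β0 ∧ (R w ∧ K s w))) =
          P.E (fun w => ind (tk s w) * ind (cp P N s R w ≤ β0) * P.ce (N s) (fun w => ind (R w ∧ K s w)) w) := by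
        rw [P.E_mul_ce hF]
        exact P.E_congr fun w _ => by rw [ind_and, mul_assoc]
      have e2 : P.E (fun w => ind (tk s w) * ind (K s w)) =
          P.E (fun w => ind (tk s w) * P.ce (N s) (fun w => ind (K s w)) w) := (P.E_mul_ce hF' _).symm
      rw [e1, e2, ← FP.E_smul, ← FP.E_smul, ← FP.E_add]
      refine P.E_mono fun w hw => ?_
      have m1 : P.ce (N s) (fun w => ind (R w ∧ K s w)) w ≤ cp P N s R w :=
        P.ce_mono (fun x _ => ind_mono fun a => a.1) w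
      have m2 : P.ce (N s) (fun w => ind (R w ∧ K s w)) w ≤ P.ce (N s) (fun w => ind (K s w)) w :=
        P.ce_mono (fun x _ => ind_mono fun a => a.2) w
      have m0 : 0 ≤ P.ce (N s) (fun w => ind (K s w)) w := P.ce_nonneg (fun _ _ => ind_nonneg _) w
      have hβ : 0 ≤ β0 / uc := div_nonneg b00 c0.le
      by_cases c1 : tk s w
      · rw [ind_of c1, one_mul, one_mul, mul_one]
        by_cases c2 : cp P N s R w ≤ β0
        · rw [ind_of c2, one_mul]
          by_cases c3 : P.ce (N s) (fun w => ind (K s w)) w ≤ uc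
          · have := mul_nonneg hβ m0
            linarith
          · have a2 : β0 ≤ β0 / uc * P.ce (N s) (fun w => ind (K s w)) w := by
              have a3 := mul_le_mul_of_nonneg_left (not_le.1 c3).le hβ
              rwa [div_mul_cancel₀ _ c0.ne'] at a3
            linarith
        · rw [ind_not c2, zero_mul]
          have := mul_nonneg hβ m0
          linarith
      · rw [ind_not c1]
        simp
    have a2 : P.Pr (fun w => ∃ s, tk s w ∧ K s w) ≤ P.Pr (fun w => K (σ w) w) :=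
      P.Pr_mono fun w _ ⟨s, a, b⟩ => GhoA.Kt_mono (z1 b0) (kσ w s a) b
    have a3 := mul_le_mul_of_nonneg_left a2 (div_nonneg b00 c0.le)
    linarith
  linarith

end own

end

end Pool.Agent.GMH.VSw
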