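import Pool.Agent.GMH.VSu1
import Pool.Agent.GMH.VSw

/-!
# GMH/VSu2 (helper15): UNSIGNED KINDS AT THE EXACT VERTEX `b`: THE HEAVY ROWS BY THIN COVERS IN THE WORLDS OF THE LIVES

* `ce_cell` : in a world of the exact `b` the law of (point of `c`, table `d`) depends on the cell of `c` only;
* `hG` : the heavy rows which are good (`gd`, seen by the exact `(b, c)` and the table `d`), `KT` : their thin covers (one row: the own
  one), paid at the time `S r` of the life, `NG` : the heavy rows which are not good;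
* **`HV_le`** : `HV ≤ (u/2 + uc) NV + bb/uc KT + DN + NG` (`VSw.own_heavy`);
* **`uns_all`** : with `VSu1.uns_b`.
-/

set_option autoImplicit false
set_option linter.unusedSectionVars false

namespace Pool.Agent.GMH.VSu

open Finset Pool.Agent.PWZ Pool.Agent.M3 Pool.Agent.GM Pool.Agent.GM.Harm Pool.Agent.GMH
open Pool.Agent.GMH.Gdy Pool.Agent.GMH.Dy Pool.Agent.GMH.TabF Pool.Agent.GMH.Blk Pool.Agent.GMH.CR
open Pool.Agent.GMH.MV Pool.Agent.GMH.CK
open Pool.Agent.GMH.UV (US Kd Seen tv)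
open Pool.Agent.GMH.UV0 (OnTab)
open Pool.Agent.GMH.GhoA (Kt)
open Pool.Agent.GMH.GhoL (CvH cmU one4 qH DDs)
open Pool.Agent.GMH.VSr (As HvU HvU_fac)
open Pool.Agent.GMH.VSt (HB PT XJ)
open Pool.Agent.GMH.VSw (own_heavy z1)
open Pool.Agent.GMH.CoinF (cL lst lst_S qHl)
open Pool.Agent.GMH.TabZ (V3)

noncomputable section

variable {X β γ φ : Type} [Fintype X] [Fintype β] [Fintype φ] [Nonempty X] [Nonempty β]
variable {D : HD (Fin 3) X β γ φ} {prr : ℕ → Fin 3 → φ → φ} {T0 : ℕ} {W : Type} [Fintype W]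
variable {tb : Tab D prr T0 W} {M : US (Om W X β)} {tm : ℕ → ℕ} {Q : Kd (Om W X β)} {T : ℕ} {b c d : Fin 3}
variable {Rw Xi : Type} [Fintype Rw] [Fintype Xi]

/-- cell of the point of `c` -/
def cl1 (D : HD (Fin 3) X β γ φ) (tm : ℕ → ℕ) (c : Fin 3) (s : ℕ) (w : Om W X β) : γ := D.qb (tm s) (w.2.2 c)

/-- in a world of the exact `b`: exact `b`, all cells = cell of `c`, for what (point of `c`, table `d`) sees -/
theorem ce_cell (tb : Tab D prr T0 W) (z : Om W X β) (m : ℕ) (b c d : Fin 3) (s : ℕ) (f : Om W X β → ℝ)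
    (hf : Fac (PT c d) f) (w : Om W X β) (hw : (WE tb {b} m z).p w ≠ 0) :
    (WE tb {b} m z).ce (sgt D {b} (tm s)) f w = (WE tb {b} m z).ce (cl1 D tm c s) f w := by
  have f1 : Fac (sgt (W := W) D {b} (tm s)) (si D {b} univ ∅ (tm s)) := fun v w e => (sgt_si {b} (tm s)).1 e
  have f2 : Fac (si (W := W) D {b} univ ∅ (tm s)) (sgt D {b} (tm s)) := fun v w e => (sgt_si {b} (tm s)).2 e
  have h1 : (WE tb {b} m z).ce (sgt D {b} (tm s)) f w = (WE tb {b} m z).ce (si D {b} univ ∅ (tm s)) f w :=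
    (WE tb {b} m z).ce_congr_map f1 f2 f w
  have h2 : (WE tb {b} m z).ce (si D {b} univ ∅ (tm s)) f w = (WE tb {b} m z).ce (si D ∅ {c} ∅ (tm s)) f w :=
    si_ce (wo_WE tb {b} m z) (E := ∅) (F := {c}) (S := ∅) (E1 := {b}) (F1 := univ) (S1 := ∅) (E2 := {c}) (F2 := ∅)
      (S2 := {d}) (m := tm s) (m1 := tm s) (m2 := 0) (Finset.empty_subset _)
      (fun j _ => Or.inr ⟨mem_univ j, le_rfl⟩) (Finset.empty_subset _) (Finset.empty_subset _)
      (fun j hj => Or.inl hj) (Finset.empty_subset _) (by rw [Finset.empty_union]; exact Finset.inter_subset_left)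
      (by rw [Finset.empty_inter])
      (fun j _ hj => absurd hj (Finset.notMem_empty j)) (fun j hj _ => Or.inr (Or.inl ⟨hj, le_rfl⟩))
      (fun j _ hj => absurd hj (Finset.notMem_empty j))
      (fun v w e => hf v w (by
        rw [si_eq] at e
        exact VSt.PT_eq.2 ⟨e.2.2.1 c (Finset.mem_singleton_self c), e.2.1 d (Finset.mem_singleton_self d)⟩)) hw
  have h3 : (WE tb {b} m z).ce (si D ∅ {c} ∅ (tm s)) f w = (WE tb {b} m z).ce (cl1 D tm c s) f w := by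
    refine ce_supp (fun x y hx hy => ?_) _ hw
    have e : sgt D {b} m x = sgt D {b} m y := ((WE_supp tb).1 hx).2.trans ((WE_supp tb).1 hy).2.symm
    have e1 := (sgt_eq.1 e).1
    rw [si_eq]
    exact ⟨fun h => h.2.2.2 c (Finset.mem_singleton_self c), fun h => ⟨e1, fun i hi => absurd hi (Finset.notMem_empty i),
      fun i hi => absurd hi (Finset.notMem_empty i), fun k hk => by rw [Finset.mem_singleton.1 hk]; exact h⟩⟩
  rw [h1, h2, h3]

/-! ## the heavy rows of one life -/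

variable (tb tm b c d T) in
/-- heavy rows in the world of the life `r`, good -/
def hG (U : RD (Om W X β) (X × β) (β × W) Xi Rw) [Nonempty ((β × W) × Xi)] (g0 dd mu mu0 : ℝ) (K : ℕ) {Mm : ℕ}
    (tl : ℕ → ℕ → Om W X β → Prop) (R : ℕ → Om W X β → Prop) (gd : ℕ → Om W X β → ℕ → Om W X β → Prop)
    (θ : CoinF.Ix (Om W X β) T → (Fin Mm → (β × W) × Xi)) (r : ℕ) (z : Om W X β) (s : ℕ) (w : Om W X β) : Prop :=
  HvU (WE tb {b} (tm r) z) (HB b) (PT c d) (PT d c) (tl r) (cvT tb tm T b c d U mu0 K θ r z) (R r) (U.mr r z) (U.Gr r z)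
    g0 dd mu s w ∧ gd r z s w

variable (tb M tm b c d T) in
/-- **the thin covers of the heavy rows of all lives** -/
def KT (U : RD (Om W X β) (X × β) (β × W) Xi Rw) [Nonempty ((β × W) × Xi)] (g0 dd mu mu0 : ℝ) (K : ℕ) {Mm : ℕ}
    (tl : ℕ → ℕ → Om W X β → Prop) (R : ℕ → Om W X β → Prop) (gd : ℕ → Om W X β → ℕ → Om W X β → Prop) (u : ℝ)
    (sg : ℕ → Om W X β → ℕ) (θ : CoinF.Ix (Om W X β) T → (Fin Mm → (β × W) × Xi)) : ℝ :=
  ∑ r ∈ range T, M.P.E (fun z => ind (tv M b r z = r) * (WE tb {b} (tm r) z).Pr (fun w =>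
    Kt (WE tb {b} (tm r) z) (cl1 D tm c) (HB b) (PT c d) (hG tb tm T b c d U g0 dd mu mu0 K tl R gd θ r z) u
      (z1 (HB b z)) (sg r w) w))

variable (tb M tm b c d T) in
/-- the heavy rows which are not good -/
def NG (U : RD (Om W X β) (X × β) (β × W) Xi Rw) [Nonempty ((β × W) × Xi)] (g0 dd mu mu0 : ℝ) (K : ℕ) {Mm : ℕ}
    (tl : ℕ → ℕ → Om W X β → Prop) (R : ℕ → Om W X β → Prop) (gd : ℕ → Om W X β → ℕ → Om W X β → Prop)
    (θ : CoinF.Ix (Om W X β) T → (Fin Mm → (β × W) × Xi)) : ℝ :=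
  ∑ r ∈ range T, M.P.Pr (fun w => tv M b r w = r ∧ (R r w ∧ ∃ s, tl r s w ∧
    (HvU (WE tb {b} (tm r) w) (HB b) (PT c d) (PT d c) (tl r) (cvT tb tm T b c d U mu0 K θ r w) (R r) (U.mr r w)
      (U.Gr r w) g0 dd mu s w ∧ ¬ gd r w s w)))

/-- **THE HEAVY ROWS** -/
theorem HV_le (hO : OnTab M tb tm) (H : Seen M) {U : RD (Om W X β) (X × β) (β × W) Xi Rw}
    [Nonempty ((β × W) × Xi)] (hU : RDOK D tm b c d U) {tl : ℕ → ℕ → Om W X β → Prop}
    (ht : TL D tm T b tl) (R : ℕ → Om W X β → Prop) {g0 dd mu mu0 : ℝ} {K Mm : ℕ}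
    (θ : CoinF.Ix (Om W X β) T → (Fin Mm → (β × W) × Xi)) {gd : ℕ → Om W X β → ℕ → Om W X β → Prop}
    (gS : ∀ r z z', sgt (W := W) D {b} (tm r) z = sgt D {b} (tm r) z' → gd r z = gd r z')
    (gF : ∀ r z s x w, (HB b x, PT c d x) = (HB b w, PT c d w) → (gd r z s x ↔ gd r z s w))
    {sg : ℕ → Om W X β → ℕ} (kσ : ∀ r w s, tl r s w → s ≤ sg r w) {u uc bb : ℝ} (u0 : 0 < u) (c0 : 0 < uc)
    (b0 : 0 ≤ bb) :
    HV tb M tm T b c d U g0 dd mu mu0 K tl R θ ≤ (u / 2 + uc) * NV M T b tl +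
      bb / uc * KT tb M tm T b c d U g0 dd mu mu0 K tl R gd u sg θ + DN M T b tl R bb +
      NG tb M tm T b c d U g0 dd mu mu0 K tl R gd θ := by
  unfold HV NV KT DN NG
  rw [Finset.mul_sum, Finset.mul_sum, ← Finset.sum_add_distrib, ← Finset.sum_add_distrib, ← Finset.sum_add_distrib]
  refine Finset.sum_le_sum fun r _ => ?_
  have e0 := startb_Pr hO H b r (fun z w => R r w ∧
      ∃ s, hvR tb tm b c d U g0 dd mu r z (tl r) (R r) (cvT tb tm T b c d U mu0 K θ r z) s w) (fun z z' e => by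
    funext w
    rw [cvT_same hU e, hvR_same hU e])
  have e1 := startb_Pr hO H b r (fun _ w => ∃ s, tl r s w) (fun _ _ _ => rfl)
  have e2 := startb_Pr hO H b r (fun z w => R r w ∧ ∃ s, tl r s w ∧
    (HvU (WE tb {b} (tm r) z) (HB b) (PT c d) (PT d c) (tl r) (cvT tb tm T b c d U mu0 K θ r z) (R r) (U.mr r z)
      (U.Gr r z) g0 dd mu s w ∧ ¬ gd r z s w)) (fun z z' e => by
    funext w
    rw [WE_same tb e, cvT_same hU e, hU.sM r z z' e, hU.sG r z z' e, gS r z z' e])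
  have e3 : M.P.E (fun z => ind (tv M b r z = r) * (WE tb {b} (tm r) z).Pr (fun w => ∃ s, tl r s w ∧
      bb < cp (WE tb {b} (tm r) z) (fun s => sgt D {b} (tm s)) s (R r) w ∧ R r w)) =
      M.P.Pr (fun w => tv M b r w = r ∧ ∃ s, tl r s w ∧
        bb < M.P.ce (M.S {b} s) (fun u => ind (R r u)) w ∧ R r w) := by
    have e := startb_Pr hO H b r (fun _ w => ∃ s, tl r s w ∧
      bb < M.P.ce (M.S {b} s) (fun u => ind (R r u)) w ∧ R r w) (fun _ _ _ => rfl)
    rw [← e]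
    refine M.P.E_congr fun z _ => ?_
    congr 1
    refine FP.Pr_congr _ fun w hw => exists_congr fun s => and_congr_right fun hs => ?_
    have h1 := UV0.ce_M (z := z) (n := r) hO (E0 := {b}) (E := {b}) (Finset.Subset.refl _) (ht.ge r w s hs) hw
      (fun u => ind (R r u))
    show (bb < (WE tb {b} (tm r) z).ce (sgt D {b} (tm s)) (fun u => ind (R r u)) w ∧ R r w) ↔ _
    rw [h1]
  rw [← e0, ← e1, ← e2, ← e3, ← FP.E_smul, ← FP.E_smul, ← FP.E_add, ← FP.E_add, ← FP.E_add]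
  refine M.P.E_mono fun z _ => ?_
  set P := WE tb {b} (tm r) z with hP
  set G := hG tb tm T b c d U g0 dd mu mu0 K tl R gd θ r z with hGd
  have h1 := own_heavy (P := P) (N := fun s => sgt (W := W) D {b} (tm s)) (cC := cl1 D tm c) (B := HB b) (C := PT c d)
    (R := R r) (tk := tl r) (G := G) (u := u) (uc := uc) (T := T) (σ := sg r) (b0 := HB b z)
    (fun s f hf w hw => ce_cell tb z (tm r) b c d s f hf w hw)
    (fun s v w e => by
      rw [VSt.PT_eq] at e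
      show D.qb (tm s) (v.2.2 c) = D.qb (tm s) (w.2.2 c)
      rw [e.1])
    (fun w hw => by
      have e := sgt_eq.1 ((WE_supp tb).1 hw).2
      exact VSt.HB_eq.2 ⟨e.1, e.2.1 b (Finset.mem_singleton_self b)⟩)
    (fun s x w e => and_congr (HvU_fac s x w e) (gF r z s x w e)) (ht.sn r) (ht.one r) (fun s w h => ht.lt r w s h)
    (kσ r) u0 c0 b0
  have h2 : P.Pr (fun w => R r w ∧
      ∃ s, hvR tb tm b c d U g0 dd mu r z (tl r) (R r) (cvT tb tm T b c d U mu0 K θ r z) s w) ≤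
      P.Pr (fun w => R r w ∧ ∃ s, tl r s w ∧ G s w) + P.Pr (fun w => R r w ∧ ∃ s, tl r s w ∧
        (HvU P (HB b) (PT c d) (PT d c) (tl r) (cvT tb tm T b c d U mu0 K θ r z) (R r) (U.mr r z) (U.Gr r z) g0 dd mu s w ∧
          ¬ gd r z s w)) := by
    unfold FP.Pr
    rw [← FP.E_add]
    refine P.E_mono fun w _ => ?_
    have n1 := ind_nonneg (R r w ∧ ∃ s, tl r s w ∧ G s w)
    have n2 := ind_nonneg (R r w ∧ ∃ s, tl r s w ∧
        (HvU P (HB b) (PT c d) (PT d c) (tl r) (cvT tb tm T b c d U mu0 K θ r z) (R r) (U.mr r z) (U.Gr r z) g0 dd mu s w ∧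
          ¬ gd r z s w))
    by_cases h : R r w ∧ ∃ s, hvR tb tm b c d U g0 dd mu r z (tl r) (R r) (cvT tb tm T b c d U mu0 K θ r z) s w
    · rw [ind_of h]
      obtain ⟨hR, s, ⟨hs, _⟩, hh⟩ := h
      by_cases hg : gd r z s w
      · have : ind (R r w ∧ ∃ s, tl r s w ∧ G s w) = 1 := ind_of ⟨hR, s, hs, hh, hg⟩
        linarith
      · have : ind (R r w ∧ ∃ s, tl r s w ∧
          (HvU P (HB b) (PT c d) (PT d c) (tl r) (cvT tb tm T b c d U mu0 K θ r z) (R r) (U.mr r z) (U.Gr r z) g0 dd mu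
            s w ∧ ¬ gd r z s w)) = 1 := ind_of ⟨hR, s, hs, hh, hg⟩
        linarith
    · rw [ind_not h]
      linarith
  refine (mul_le_mul_of_nonneg_left (h2.trans (add_le_add h1 le_rfl)) (ind_nonneg (tv M b r z = r))).trans
    (le_of_eq ?_)
  ring

/-! ## the covered masses -/

variable (M T b) in
/-- decided, not typical -/
def AT (U : RD (Om W X β) (X × β) (β × W) Xi Rw) (tl : ℕ → ℕ → Om W X β → Prop) : ℝ :=
  ∑ r ∈ range T, M.P.Pr (fun w => tv M b r w = r ∧ ∃ s, tl r s w ∧ ¬ U.ty r w w)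

variable (tb M tm b c d T) in
/-- the covered mass of all lives at the times `sg r` of the lives, in the mean over the lists (left side of `PayGI.payF_u`) -/
def CW (U : RD (Om W X β) (X × β) (β × W) Xi Rw) (mu0 : ℝ) (K Mm : ℕ) (sg : ℕ → Om W X β → ℕ) : ℝ :=
  ∑ r ∈ range T, ∑ x : Fin Mm → (β × W) × Xi, M.P.E (fun z => ind (tv M b r z = r) *
    sw (qH (WE tb {b} (tm r) z) (U.Qc r z) (PT c d)) x * (WE tb {b} (tm r) z).Pr (fun w =>
      cvR tb tm b c d U mu0 K r z x (sg r w) w))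

/-- **THE COVERED MASSES IN THE MEAN OVER THE COIN TABLE** -/
theorem WV_le (hO : OnTab M tb tm) (H : Seen M) {U : RD (Om W X β) (X × β) (β × W) Xi Rw}
    [Nonempty ((β × W) × Xi)] (hU : RDOK D tm b c d U) {tl : ℕ → ℕ → Om W X β → Prop} {mu0 : ℝ} {K : ℕ} (Mm : ℕ)
    {sg : ℕ → Om W X β → ℕ} (kσ : ∀ r w s, tl r s w → s ≤ sg r w) :
    (cR tb tm T b c d U Mm).E (WV tb M tm T b c d U mu0 K tl) ≤ CW tb M tm T b c d U mu0 K Mm sg + AT M T b U tl := by
  have h1 := CoinF.coin_sum' M.P (Sb W D tm b) (qR tb tm b c d U Mm) (fun r z z' e => qR_same hU e) T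
    (fun r z => ind (tv M b r z = r)) (fun r z x => (WE tb {b} (tm r) z).Pr (fun w => ∃ s, tl r s w ∧
      cvR tb tm b c d U mu0 K r z x s w))
  have h2 : (cR tb tm T b c d U Mm).E (WV tb M tm T b c d U mu0 K tl) =
      (cR tb tm T b c d U Mm).E (fun θ => ∑ r ∈ range T, M.P.E (fun z => ind (tv M b r z = r) *
        (WE tb {b} (tm r) z).Pr (fun w => ∃ s, tl r s w ∧
          cvR tb tm b c d U mu0 K r z (lst (Sb W D tm b) θ r z) s w))) + AT M T b U tl := by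
    rw [← FP.E_const (cR tb tm T b c d U Mm) (AT M T b U tl), ← FP.E_add]
    refine FP.E_congr _ fun θ _ => ?_
    unfold WV AT
    rw [← Finset.sum_add_distrib]
    refine Finset.sum_congr rfl fun r _ => ?_
    have e := startb_Pr hO H b r (fun z w => ∃ s, tl r s w ∧ ¬ U.ty r z w) (fun z z' e => by
      funext w
      rw [hU.sY r z z' e])
    rw [← e, ← FP.E_add]
    refine M.P.E_congr fun z _ => ?_
    unfold wa
    ring
  rw [h2]
  refine add_le_add ?_ le_rfl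
  unfold cR
  rw [← h1]
  refine Finset.sum_le_sum fun r _ => Finset.sum_le_sum fun x _ => M.P.E_mono fun z _ => ?_
  refine mul_le_mul_of_nonneg_left (FP.Pr_mono _ fun w _ => ?_) (mul_nonneg (ind_nonneg _)
    (sw_nonneg (fun a => GhoL.qH_nn a) x))
  rintro ⟨s, hs, hc⟩
  exact GdyR.covL_mono (kσ r w s hs) hc

/-- **UNSIGNED KINDS AT THE EXACT VERTEX `b`** : covered masses `CW`, thin covers `KT`, not good `NG`, not typical `AT`, density `DN` -/
theorem uns_all (hO : OnTab M tb tm) (H : Seen M) (hv : V3 b c d) {U U' : RD (Om W X β) (X × β) (β × W) Xi Rw}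
    [Nonempty ((β × W) × Xi)] (hU : RDOK D tm b c d U) (hU' : RDOK D tm b d c U') {tl : ℕ → ℕ → Om W X β → Prop}
    (ht : TL D tm T b tl) (R : ℕ → Om W X β → Prop) {g0 dd kap mu mu0 : ℝ} {bb : ℝ} {K : ℕ} (Mm Mm' : ℕ) (g00 : 0 ≤ g0)
    (d0 : 0 ≤ dd) (m0 : 0 < mu0) (hK : 1 < mu0 * K) (k0 : 0 < kap) (mu1 : 0 < mu) (hg : mu0 + kap ≤ g0 ^ 2 / 2)
    {gd gd' : ℕ → Om W X β → ℕ → Om W X β → Prop}
    (gS : ∀ r z z', sgt (W := W) D {b} (tm r) z = sgt D {b} (tm r) z' → gd r z = gd r z')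
    (gF : ∀ r z s x w, (HB b x, PT c d x) = (HB b w, PT c d w) → (gd r z s x ↔ gd r z s w))
    (gS' : ∀ r z z', sgt (W := W) D {b} (tm r) z = sgt D {b} (tm r) z' → gd' r z = gd' r z')
    (gF' : ∀ r z s x w, (HB b x, PT d c x) = (HB b w, PT d c w) → (gd' r z s x ↔ gd' r z s w))
    {sg : ℕ → Om W X β → ℕ} (kσ : ∀ r w s, tl r s w → s ≤ sg r w) {u uc : ℝ} (u0 : 0 < u) (c0 : 0 < uc)
    (b0 : 0 ≤ bb) {k1 k2 n1 n2 : ℝ}
    (hk1 : ∀ θ, KT tb M tm T b c d U g0 dd mu mu0 K tl R gd u sg (Mm := Mm) θ ≤ k1)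
    (hk2 : ∀ θ, KT tb M tm T b d c U' g0 dd mu mu0 K tl R gd' u sg (Mm := Mm') θ ≤ k2)
    (hn1 : ∀ θ, NG tb M tm T b c d U g0 dd mu mu0 K tl R gd (Mm := Mm) θ ≤ n1)
    (hn2 : ∀ θ, NG tb M tm T b d c U' g0 dd mu mu0 K tl R gd' (Mm := Mm') θ ≤ n2) :
    ∑ r ∈ range T, M.P.Pr (fun w => tv M b r w = r ∧ (R r w ∧ ∃ s, tl r s w)) ≤
      (2 * g0 + u + 2 * uc) * NV M T b tl +
        (2 * dd + 1 / (mu0 * (Mm + 1)) / (kap * mu) + 1 / (mu0 * (Mm' + 1)) / (kap * mu)) * NR M T b +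
        Real.sqrt bb / 2 * ((CW tb M tm T b c d U mu0 K Mm sg + AT M T b U tl) +
          (CW tb M tm T b d c U' mu0 K Mm' sg + AT M T b U' tl)) +
        bb / uc * (k1 + k2) + 3 * DN M T b tl R bb + (n1 + n2) := by
  have h1 := uns_b (K := K) (mu := mu) (mu0 := mu0) (kap := kap) (Mm := Mm) (Mm' := Mm') hO H hv hU hU' ht R bb g00 d0 m0
    hK k0 mu1 hg
  have w1 := WV_le (T := T) (K := K) (mu0 := mu0) hO H hU Mm kσ
  have w2 := WV_le (T := T) (K := K) (mu0 := mu0) hO H hU' Mm' kσ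
  have s0 := Real.sqrt_nonneg bb
  have w3 := mul_le_mul_of_nonneg_left (add_le_add w1 w2) (show 0 ≤ Real.sqrt bb / 2 by positivity)
  have q0 : 0 ≤ bb / uc := by positivity
  have p1 : (cR tb tm T b c d U Mm).E (HV tb M tm T b c d U g0 dd mu mu0 K tl R) ≤
      (u / 2 + uc) * NV M T b tl + bb / uc * k1 + DN M T b tl R bb + n1 := by
    refine ((cR tb tm T b c d U Mm).E_mono fun θ _ => ?_).trans (le_of_eq (FP.E_const _ _))
    have a1 := HV_le (g0 := g0) (dd := dd) (mu := mu) (mu0 := mu0) (K := K) hO H hU ht R θ gS gF kσ u0 c0 b0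
    have a2 := mul_le_mul_of_nonneg_left (hk1 θ) q0
    have a3 := hn1 θ
    linarith
  have p2 : (cR tb tm T b d c U' Mm').E (HV tb M tm T b d c U' g0 dd mu mu0 K tl R) ≤
      (u / 2 + uc) * NV M T b tl + bb / uc * k2 + DN M T b tl R bb + n2 := by
    refine ((cR tb tm T b d c U' Mm').E_mono fun θ _ => ?_).trans (le_of_eq (FP.E_const _ _))
    have a1 := HV_le (g0 := g0) (dd := dd) (mu := mu) (mu0 := mu0) (K := K) hO H hU' ht R θ gS' gF' kσ u0 c0 b0
    have a2 := mul_le_mul_of_nonneg_left (hk2 θ) q0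
    have a3 := hn2 θ
    linarith
  have e : Real.sqrt bb * (((cR tb tm T b c d U Mm).E (WV tb M tm T b c d U mu0 K tl) +
      (cR tb tm T b d c U' Mm').E (WV tb M tm T b d c U' mu0 K tl)) / 2) =
      Real.sqrt bb / 2 * ((cR tb tm T b c d U Mm).E (WV tb M tm T b c d U mu0 K tl) +
      (cR tb tm T b d c U' Mm').E (WV tb M tm T b d c U' mu0 K tl)) := by ring
  rw [e] at h1
  refine h1.trans ?_
  have e2 : (2 * g0 + u + 2 * uc) * NV M T b tl = 2 * g0 * NV M T b tl + 2 * ((u / 2 + uc) * NV M T b tl) := by ring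
  have e3 : (2 * dd + 1 / (mu0 * ((Mm : ℝ) + 1)) / (kap * mu) + 1 / (mu0 * ((Mm' : ℝ) + 1)) / (kap * mu)) * NR M T b =
      2 * dd * NR M T b + 1 / (mu0 * ((Mm : ℝ) + 1)) / (kap * mu) * NR M T b +
        1 / (mu0 * ((Mm' : ℝ) + 1)) / (kap * mu) * NR M T b := by ring
  rw [e2, e3, mul_add (bb / uc)]
  linarith

end

end Pool.Agent.GMH.VSu
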