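import Pool.Agent.GMH.VSu2
import Pool.Agent.GMH.HotU

/-!
# GMH/VSu3 (helper15): THE DECIDED LIVES OF AN EXACT VERTEX, THE DENSITY AT `T^b`, AND THE NUMBER `NHv` OF `GMH/HotU`

* `tlv`, `tlv_ok` : `T^b = s < T` in the life `r`; `sgb` : the end of the life (`PayI.nx`), `tlv_sg`;
* `DN_le` : at `T^b` the density of the relation at the exact `b` is at most `8 uB`, except at a dense START of a life (`RS`) or at a dense
  PUBLIC START inside the life (`RP`, after a zone);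
* `NHv_eq`, **`NHv_le`** : `VSu2.uns_all` for `HotU.NHv`.
-/

set_option autoImplicit false
set_option linter.unusedSectionVars false

namespace Pool.Agent.GMH.VSu

open Finset Pool.Agent.PWZ Pool.Agent.M3 Pool.Agent.GM Pool.Agent.GM.Harm Pool.Agent.GMH
open Pool.Agent.GMH.Gdy Pool.Agent.GMH.Dy Pool.Agent.GMH.TabF
open Pool.Agent.GMH.MV Pool.Agent.GMH.CK
open Pool.Agent.GMH.UV (US Kd Seen tv Mx Z0 d0 blk dd bet tkx Prv NHv dcv)
open Pool.Agent.GMH.UV0 (OnTab)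
open Pool.Agent.GMH.VSt (HB PT XJ)
open Pool.Agent.GMH.TabZ (V3)

noncomputable section

/-! ## the decided lives -/

section path

variable {Om : Type} [Fintype Om] {M : US Om} {Q : Kd Om} {T : ℕ} {b : Fin 3}

variable (M Q T b) in
/-- the life `r` of `b` is decided at `s < T` -/
def tlv (r s : ℕ) (w : Om) : Prop := s < T ∧ tv M b s w = r ∧ tkx M Q b s w

theorem tlv_le {r s : ℕ} {w : Om} (h : tlv M Q T b r s w) : r ≤ s := by
  rw [← h.2.1]
  exact stg_le _ _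

theorem tlv_start {r s : ℕ} {w : Om} (h : tlv M Q T b r s w) : tv M b r w = r := by
  rw [← h.2.1]
  exact stg_idem s w

/-- **the density at the time of the decision** -/
theorem tlv_dens {w : Om} (hw : M.P.p w ≠ 0) (hpv : Prv M Q)
    (up : ∀ s, s + 1 < T → ∀ w, M.P.p w ≠ 0 → ∀ A : Om → Prop, M.P.ce (M.S {b} (s + 1)) (fun u => ind (A u)) w ≤
      8 * M.P.ce (M.S {b} s) (fun u => ind (A u)) w)
    {r s : ℕ} (h : tlv M Q T b r s w) (hd : 8 * Q.uB < Mx M Q b s w) :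
    s = r ∨ (nu M.toMS s w = s ∧ tv M b s w < s) := by
  by_cases hr : s = r
  · exact Or.inl hr
  right
  have h0 := tlv_le h
  obtain ⟨s', rfl⟩ : ∃ s', s = s' + 1 := ⟨s - 1, by omega⟩
  have hrs : r ≤ s' := by omega
  have htv : tv M b s' w = tv M b (s' + 1) w :=
    stg_mid (C := M.Cv b) rfl (by show tv M b (s' + 1) w ≤ s'; rw [h.2.1]; exact hrs) (Nat.le_succ s')
  have hlt : tv M b (s' + 1) w < s' + 1 := by
    rw [h.2.1]
    omega
  refine ⟨?_, hlt⟩
  by_contra hn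
  have h1 : ¬ dd M Q b s' w := h.2.2.2 s' (by rw [h.2.1]; exact hrs) (Nat.lt_succ_self s')
  have h2 : ¬ blk M Q b s' w := by
    rintro ⟨⟨t, a1, a2, a3⟩, hb2⟩
    have hnu : nu M.toMS (s' + 1) w = nu M.toMS s' w := (UVZ.nu_or s' w).resolve_left hn
    refine h.2.2.1.2.1 ⟨⟨t, by rw [hnu]; exact a1, by omega, a3⟩, ?_⟩
    rw [hnu, ← htv]
    exact hb2
  have h3 : Mx M Q b s' w < Q.uB := hpv.prev hw hlt h1 h2 h.2.2.1.2.2
  have h4 := up s' h.1 w hw (Q.kv (some b) (tv M b (s' + 1) w))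
  have h5 : Mx M Q b s' w = M.P.ce (M.S {b} s') (fun u => ind (Q.kv (some b) (tv M b (s' + 1) w) u)) w := by
    unfold Mx
    rw [htv]
  have h6 : Mx M Q b (s' + 1) w ≤ 8 * Mx M Q b s' w := by
    rw [h5]
    exact h4
  linarith

variable (M Q T b) in
/-- dense starts of the lives -/
def RS (y : ℝ) : ℝ := ∑ r ∈ range T, M.P.Pr (fun w => tv M b r w = r ∧ y < Mx M Q b r w)

variable (M Q T b) in
/-- dense public starts inside the lives -/
def RP (y : ℝ) : ℝ := ∑ n ∈ range T, M.P.Pr (fun w => nu M.toMS n w = n ∧ tv M b n w < n ∧ y < Mx M Q b n w)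

theorem DN_pt (hpv : Prv M Q) (hb : b ∈ Q.Vk)
    (up : ∀ s, s + 1 < T → ∀ w, M.P.p w ≠ 0 → ∀ A : Om → Prop, M.P.ce (M.S {b} (s + 1)) (fun u => ind (A u)) w ≤
      8 * M.P.ce (M.S {b} s) (fun u => ind (A u)) w) :
    ∑ r ∈ range T, M.P.Pr (fun w => tv M b r w = r ∧ ∃ s, tlv M Q T b r s w ∧
      8 * Q.uB < M.P.ce (M.S {b} s) (fun u => ind (Q.kd (some b) r u)) w ∧ Q.kd (some b) r w) ≤
      RS M Q T b (8 * Q.uB) + RP M Q T b (8 * Q.uB) := by
  classical
  unfold RS RP FP.Pr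
  rw [← FP.E_sum, ← FP.E_sum, ← FP.E_sum, ← FP.E_add]
  refine M.P.E_mono fun w hw => ?_
  -- the dense times
  have hM : ∀ r s, tlv M Q T b r s w → 8 * Q.uB < M.P.ce (M.S {b} s) (fun u => ind (Q.kd (some b) r u)) w →
      8 * Q.uB < Mx M Q b s w := by
    intro r s h1 h2
    refine h2.trans_le (M.P.ce_mono (fun u _ => ind_mono fun a => ?_) w)
    rw [h1.2.1]
    exact Q.hkv b hb r u a
  have key : ∀ r ∈ range T, ind (tv M b r w = r ∧ ∃ s, tlv M Q T b r s w ∧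
      8 * Q.uB < M.P.ce (M.S {b} s) (fun u => ind (Q.kd (some b) r u)) w ∧ Q.kd (some b) r w) ≤
      ind (tv M b r w = r ∧ 8 * Q.uB < Mx M Q b r w) +
        ∑ n ∈ range T, ind (tv M b n w = r ∧ (nu M.toMS n w = n ∧ tv M b n w < n ∧ 8 * Q.uB < Mx M Q b n w)) := by
    intro r _
    have n1 := ind_nonneg (tv M b r w = r ∧ 8 * Q.uB < Mx M Q b r w)
    have n2 : 0 ≤ ∑ n ∈ range T, ind (tv M b n w = r ∧ (nu M.toMS n w = n ∧ tv M b n w < n ∧
      8 * Q.uB < Mx M Q b n w)) := Finset.sum_nonneg fun _ _ => ind_nonneg _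
    by_cases h : tv M b r w = r ∧ ∃ s, tlv M Q T b r s w ∧
      8 * Q.uB < M.P.ce (M.S {b} s) (fun u => ind (Q.kd (some b) r u)) w ∧ Q.kd (some b) r w
    · rw [ind_of h]
      obtain ⟨h0, s, h1, h2, h3⟩ := h
      have h4 := hM r s h1 h2
      rcases tlv_dens hw hpv up h1 h4 with h5 | h5
      · have : ind (tv M b r w = r ∧ 8 * Q.uB < Mx M Q b r w) = 1 := ind_of ⟨h0, h5 ▸ h4⟩
        linarith
      · have h6 : ind (tv M b s w = r ∧ (nu M.toMS s w = s ∧ tv M b s w < s ∧ 8 * Q.uB < Mx M Q b s w)) = 1 :=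
          ind_of ⟨h1.2.1, h5.1, h5.2, h4⟩
        have h7 := Finset.single_le_sum (f := fun n => ind (tv M b n w = r ∧ (nu M.toMS n w = n ∧ tv M b n w < n ∧
          8 * Q.uB < Mx M Q b n w))) (fun _ _ => ind_nonneg _) (mem_range.2 h1.1)
        linarith
    · rw [ind_not h]
      linarith
  refine (Finset.sum_le_sum key).trans ?_
  rw [Finset.sum_add_distrib, Finset.sum_comm]
  refine add_le_add le_rfl (Finset.sum_le_sum fun n _ => ?_)
  refine (UVZ.sum_one (T := T) (A := fun r => tv M b n w = r ∧ (nu M.toMS n w = n ∧ tv M b n w < n ∧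
    8 * Q.uB < Mx M Q b n w)) fun s s' h h' => h.1.symm.trans h'.1).le.trans (ind_mono ?_)
  rintro ⟨r, _, h⟩
  exact h.2

/-- **the number of `GMH/HotU`** -/
theorem NHv_eq : NHv M Q T b = ∑ r ∈ range T, M.P.Pr (fun w => tv M b r w = r ∧ (Q.kd (some b) r w ∧
    ∃ s, tlv M Q T b r s w)) := by
  unfold NHv dcv tlv
  rfl

end path

variable {X β γ φ : Type} [Fintype X] [Fintype β] [Fintype φ] [Nonempty X] [Nonempty β]
variable {D : HD (Fin 3) X β γ φ} {al : ℝ} {prr : ℕ → Fin 3 → φ → φ} {T0 : ℕ} {W : Type} [Fintype W]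
variable {tb : Tab D prr T0 W} {M : US (Om W X β)} {tm : ℕ → ℕ} {Q : Kd (Om W X β)} {T : ℕ} {b c d : Fin 3}

theorem tlv_ok (hO : OnTab M tb tm) (H : Seen M) : TL D tm T b (tlv M Q T b) where
  one := fun r w s s' h h' => UV.tkx_one h.2.2 h'.2.2 (h.2.1.trans h'.2.1.symm)
  lt := fun r w s h => h.1
  ge := fun r w s h => tlv_le h
  sn := fun r s x w e => by
    have e0 : M.S {b} s x = M.S {b} s w := (hO.hS {b} s x w).2 e
    unfold tlv
    rw [UV.tau_S H b le_rfl x w e0, UV.tkx_S H b le_rfl e0]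

/-- **THE DENSITY AT `T^b`** -/
theorem DN_le (hO : OnTab M tb tm) {dg : ℕ → X → ℝ} {Lam : ℝ} (HD : D.Hyp dg prr al T0 Lam) (hTs : tm T ≤ T0)
    (hpv : Prv M Q) (hb : b ∈ Q.Vk) :
    DN M T b (tlv M Q T b) (Q.kd (some b)) (8 * Q.uB) ≤ RS M Q T b (8 * Q.uB) + RP M Q T b (8 * Q.uB) :=
  DN_pt hpv hb fun s hs w hw A => UV0.M_up hO HD {b} ((hO.mono hs.le).trans hTs) (by rw [← hO.hP]; exact hw) A

end

end Pool.Agent.GMH.VSu
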