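import Pool.Agent.GMH.MV5
import Pool.Agent.GMH.MV9
import Pool.Agent.GMH.MVS
import Pool.Agent.GMH.MV2
import Pool.Agent.GMH.UVdef
import Pool.Agent.GMH.Blk

/-!
# GMH/VV (helper21): TWO VERTICES WITH STATUS AT A PUBLIC REMOVAL (H3.MOV, M.9)

`M : US`, clocks of `GMH/MVdef`; public removals = light values of the public class (`lt5`).
* `after_sum'` : `MV5.after_sum` with the ratio of the masses at the times before `T` only;
* `GamOK ρ y0 ld` : rarity of the densities `≥ y0` of the status sets: at all states which are not removals and at the public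
  starts, with the exceptions `ld` (rare values of the digits);
* `srt_count` : number of the stretches;
* **`vv_sum`** : `Σ P (lt5 s, sts i s, sts j s) ≤ yp ^ 2 NL + (h yp) ^ 2 (3 GV + 3 R) / (yp - y0) + 3 R`,
  `R = ρ (1 + N0) + Σ P (ld s)`.
-/

set_option autoImplicit false
set_option linter.unusedSectionVars false

namespace Pool.Agent.GMH.VV

open Finset Pool.Agent.PWZ Pool.Agent.M3 Pool.Agent.GMH.TD Pool.Agent.GMH.CK Pool.Agent.GMH.MV Pool.Agent.GMH.UV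
open Pool.Agent.GMH.Str (En Sc dn trg inS srt in_ep inS_iff srt_fac dn_fac pr_le pr_le_bd dn_ratio once_sum inS_mono before_sum
  static_count srt_le end_ex end_uniq)

noncomputable section

/-! ## the stretches before the horizon -/

section abstr

variable {Om : Type*} [Fintype Om] {P : FP Om} {κ : Type*} {N : ℕ → Om → κ} {C : ℕ → ℕ → Om → Prop} {ι : Type*}
  {Ev : ι → ℕ → Om → Prop} {yp h : ℝ} {T : ℕ} {Q : ℕ → Om → Prop}

/-- two events of different vertices, in a stretch : they held just before its start (masses at the times before `T`) -/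
theorem after_sum' (hN : ∀ k, Fac (N (k + 1)) (N k)) (hs : ∀ k, Fac (N k) (stg C k)) (hy : 0 ≤ yp) (h0 : 0 ≤ h)
    (i j : ι) (hp : ∀ s w, P.p w ≠ 0 → P.ce (N (s + 1)) (fun u => ind (Ev i s u ∧ Ev j s u)) w ≤
      P.ce (N (s + 1)) (fun u => ind (Ev i s u)) w * P.ce (N (s + 1)) (fun u => ind (Ev j s u)) w)
    (hm : ∀ s < T, ∀ w, P.p w ≠ 0 → P.m (N s) w ≤ h * P.m (N (s + 1)) w)
    (hQ : ∀ r s w, stg C s w < r → r ≤ s → srt P N C Ev yp r w → Q s w → Ev i (r - 1) w ∧ Ev j (r - 1) w) :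
    ∑ s ∈ range T, P.Pr (fun w => En C T s w ∧ (inS P N C Ev yp s w ∧ Q s w)) ≤
      (h * yp) ^ 2 * ∑ s ∈ range T, P.Pr (srt P N C Ev yp s) +
        ∑ s ∈ range T, P.Pr (fun w => stg C s w = s ∧ trg P N Ev yp s w) := by
  set g : ℕ → Om → Prop := fun r w => (srt P N C Ev yp r w ∧ stg C r w < r) ∧ (Ev i (r - 1) w ∧ Ev j (r - 1) w) with hg
  set g' : ℕ → Om → Prop := fun r w => stg C r w = r ∧ trg P N Ev yp r w with hg'
  have h1 : ∑ s ∈ range T, P.Pr (fun w => En C T s w ∧ (inS P N C Ev yp s w ∧ Q s w)) ≤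
      ∑ s ∈ range T, P.Pr (fun w => En C T s w ∧ Sc C (fun r w => g r w ∨ g' r w) s w) := by
    refine sum_le_sum fun s _ => P.Pr_mono fun w _ hh => ⟨hh.1, ?_⟩
    obtain ⟨r, a, b, c⟩ := inS_iff.1 hh.2.1
    refine ⟨r, a, b, ?_⟩
    have e := in_ep a b
    rcases Nat.eq_or_lt_of_le a with h2 | h2
    · exact Or.inr ⟨by rw [e, h2], c.1⟩
    · exact Or.inl ⟨⟨c, by rw [e]; exact h2⟩, hQ r s w h2 b c hh.2.2⟩
  have h2 := once_sum (P := P) (C := C) (T := T) (fun r w => g r w ∨ g' r w)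
  have h3 : ∀ r ∈ range T, P.Pr (fun w => g r w ∨ g' r w) ≤
      (h * yp) ^ 2 * P.Pr (srt P N C Ev yp r) + P.Pr (g' r) := by
    intro r hrT
    refine (P.Pr_or_le _ _).trans (add_le_add ?_ le_rfl)
    rcases Nat.eq_zero_or_pos r with rfl | hr
    · have : P.Pr (g 0) ≤ 0 := by
        refine le_of_eq ?_
        unfold FP.Pr
        rw [P.E_congr (g := fun _ => 0) fun w _ => ?_, P.E_const]
        exact ind_not fun hh => absurd hh.1.2 (Nat.not_lt_zero _)
      exact this.trans (mul_nonneg (sq_nonneg _) (P.Pr_nonneg _))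
    · obtain ⟨t, rfl⟩ : ∃ t, r = t + 1 := ⟨r - 1, by omega⟩
      have htT : t < T := by
        have := mem_range.1 hrT
        omega
      have h4 : P.Pr (fun w => (srt P N C Ev yp (t + 1) w ∧ stg C (t + 1) w < t + 1) ∧ (Ev i t w ∧ Ev j t w)) ≤
          (h * yp) ^ 2 * P.Pr (fun w => srt P N C Ev yp (t + 1) w ∧ stg C (t + 1) w < t + 1) := by
        refine pr_le (X := N (t + 1)) (fun a b e => by rw [srt_fac hN hs (t + 1) e, hs (t + 1) a b e]) fun w hw hh => ?_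
        have h5 : ∀ k : ι, P.ce (N (t + 1)) (fun u => ind (Ev k t u)) w ≤ h * yp := by
          intro k
          have h6 := dn_ratio (P := P) (h := h) (hN t) hw (hm t htT w hw) (Ev k t)
          refine h6.trans (mul_le_mul_of_nonneg_left ?_ h0)
          by_contra h7
          exact hh.1.2 t (by omega) (by omega) ⟨k, (not_le.1 h7).le⟩
        refine (hp t w hw).trans ?_
        rw [sq]
        exact mul_le_mul (h5 i) (h5 j) (P.ce_nonneg (fun _ _ => ind_nonneg _) w) (mul_nonneg h0 hy)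
      refine h4.trans (mul_le_mul_of_nonneg_left (P.Pr_mono fun w _ hh => hh.1) (sq_nonneg _))
  refine h1.trans (h2.trans ((sum_le_sum h3).trans (le_of_eq ?_)))
  rw [sum_add_distrib, ← mul_sum]

/-- the number of the ends of the epochs -/
theorem sum_En (T : ℕ) : ∑ s ∈ range T, P.Pr (fun w => En C T s w) ≤
    1 + ∑ s ∈ range T, P.Pr (fun w => stg C (s + 1) w = s + 1) := by
  rcases Nat.eq_zero_or_pos T with rfl | hT
  · simp
  · have h1 : ∀ s ∈ range T, P.Pr (fun w => En C T s w) ≤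
        P.Pr (fun w => stg C (s + 1) w = s + 1) + (if s = T - 1 then 1 else 0) := by
      intro s _
      by_cases hs : s = T - 1
      · rw [if_pos hs]
        have h2 := P.Pr_le_one (fun w => En C T s w)
        have h3 := P.Pr_nonneg (fun w => stg C (s + 1) w = s + 1)
        linarith
      · rw [if_neg hs, add_zero]
        refine P.Pr_mono fun w _ hh => ?_
        rcases hh with hh | hh
        · exact hh
        · exact absurd (by omega) hs
    refine (sum_le_sum h1).trans ?_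
    rw [sum_add_distrib, sum_ite_eq' (range T) (T - 1) (fun _ => (1 : ℝ)), if_pos (mem_range.2 (by omega)), add_comm]

end abstr

/-! ## the data -/

variable {Om : Type} [Fintype Om] {M : US Om} {T : ℕ} {y0 yp rho : ℝ} {ld : ℕ → Om → Prop}

/-- **rarity of the densities of the status sets** (row GAMR) -/
structure GamOK (M : US Om) (T : ℕ) (y0 rho : ℝ) (ld : ℕ → Om → Prop) : Prop where
  fac : ∀ s a b, M.NP (s + 1) a = M.NP (s + 1) b → (ld s a ↔ ld s b)
  ends : ∀ c, ∀ s < T, ∀ w, M.P.p w ≠ 0 → ¬ lt5 M.toMS M.NP s w →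
    M.P.ce (M.NP (s + 1)) (fun u => ind (y0 ≤ M.P.ce (M.S ∅ (s + 1)) (fun x => ind (sts M.toMS c s x)) u)) w ≤
      rho + ind (ld s w)
  strt : ∀ c, ∀ s < T, ∀ w, M.P.p w ≠ 0 → nu M.toMS s w = s →
    M.P.ce (M.NP s) (fun u => ind (y0 ≤ M.P.ce (M.S ∅ s) (fun x => ind (sts M.toMS c s x)) u)) w ≤
      rho + ind (0 < s ∧ ld (s - 1) w)

variable (M) in
/-- the total of the rare events -/
def RR (T : ℕ) (rho : ℝ) (ld : ℕ → Om → Prop) : ℝ := rho * (1 + N0 M.toMS T) + ∑ s ∈ range T, M.P.Pr (ld s)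

theorem RR_nonneg (hr : 0 ≤ rho) : 0 ≤ RR M T rho ld := by
  have h3 : 0 ≤ N0 M.toMS T := sum_nonneg fun _ _ => M.P.Pr_nonneg _
  exact add_nonneg (mul_nonneg hr (by linarith)) (sum_nonneg fun _ _ => M.P.Pr_nonneg _)

/-- the exact points see the status -/
theorem sts_S (c : Fin 3) {s s' : ℕ} (h : s ≤ s') {a b : Om} (e : M.S {c} s' a = M.S {c} s' b) :
    sts M.toMS c s a ↔ sts M.toMS c s b :=
  Iff.of_eq (sts_fac (M := M.toMS) c s a b (S_CN M c s a b (S_step M h a b e)))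

/-- the status is constant in a public epoch -/
theorem sts_ep (c : Fin 3) {s s' : ℕ} {w : Om} (e : stg (C0 M.toMS) s w = stg (C0 M.toMS) s' w) :
    sts M.toMS c s w ↔ sts M.toMS c s' w := by
  unfold sts nu
  rw [e]

theorem nu_st (H : Seen M) (s : ℕ) : Fac (M.S ∅ s) (stg (C0 M.toMS) s) := nu_S H (E := ∅) le_rfl

/-- product of two events of different vertices -/
theorem prod_le {i j : Fin 3} (hci : Blk.CI M.P (M.S ∅) (M.S {i}) (M.S {j})) {s : ℕ} {A B : Om → Prop}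
    (hA : ∀ a b, M.S {i} s a = M.S {i} s b → (A a ↔ A b)) (hB : ∀ a b, M.S {j} s a = M.S {j} s b → (B a ↔ B b)) {w : Om}
    (hw : M.P.p w ≠ 0) : M.P.ce (M.S ∅ s) (fun u => ind (A u ∧ B u)) w ≤
      M.P.ce (M.S ∅ s) (fun u => ind (A u)) w * M.P.ce (M.S ∅ s) (fun u => ind (B u)) w := by
  rw [← hci s (fun u => ind (A u)) (fun u => ind (B u)) (Fac.ind fun a b e => hA a b e)
    (Fac.ind fun a b e => hB a b e) w hw]
  exact M.P.ce_mono (fun u _ => le_of_eq (ind_and _ _)) w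

variable (M) in
/-- **the mass of the status at the public removals** -/
def GV (To : ℝ) (T : ℕ) : ℝ := 2 / Real.log (1 / M.z) * (To + Real.sqrt M.z * NL M.toMS T)

/-- a light value of a code step is seen at own `a` before the step -/
theorem lt5_S (hcd : ∀ s, M.cd s → Fac (M.S ∅ s) (M.NP (s + 1))) (s : ℕ) {a b : Om} (e : M.S ∅ s a = M.S ∅ s b) :
    lt5 M.toMS M.NP s a ↔ lt5 M.toMS M.NP s b := by
  constructor
  · rintro ⟨h1, h2⟩
    have h3 := lt5_fac M.toMS s a b (hcd s h1 a b e)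
    exact h3.mp ⟨h1, h2⟩
  · rintro ⟨h1, h2⟩
    have h3 := lt5_fac M.toMS s a b (hcd s h1 a b e)
    exact h3.mpr ⟨h1, h2⟩

/-- a public removal ends the public epoch -/
theorem lt5_end {s : ℕ} {w : Om} (h : lt5 M.toMS M.NP s w) : stg (C0 M.toMS) (s + 1) w = s + 1 :=
  stg_pos (Or.inl (by rw [Nat.add_sub_cancel]; exact h))

/-- the ends which are not removals -/
theorem endB (G : GamOK M T y0 rho ld) (hr : 0 ≤ rho) (c : Fin 3) :
    ∑ s ∈ range T, M.P.Pr (fun w => (En (C0 M.toMS) T s w ∧ ¬ lt5 M.toMS M.NP s w) ∧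
      y0 ≤ M.P.ce (M.S ∅ (s + 1)) (fun x => ind (sts M.toMS c s x)) w) ≤ RR M T rho ld := by
  have h1 : ∀ s ∈ range T, M.P.Pr (fun w => (En (C0 M.toMS) T s w ∧ ¬ lt5 M.toMS M.NP s w) ∧
      y0 ≤ M.P.ce (M.S ∅ (s + 1)) (fun x => ind (sts M.toMS c s x)) w) ≤
      rho * M.P.Pr (fun w => En (C0 M.toMS) T s w) + M.P.Pr (ld s) := by
    intro s hs
    have h2 : M.P.Pr (fun w => (En (C0 M.toMS) T s w ∧ ¬ lt5 M.toMS M.NP s w) ∧
        y0 ≤ M.P.ce (M.S ∅ (s + 1)) (fun x => ind (sts M.toMS c s x)) w) ≤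
        rho * M.P.Pr (fun w => En (C0 M.toMS) T s w ∧ ¬ lt5 M.toMS M.NP s w) +
          M.P.Pr (fun w => (En (C0 M.toMS) T s w ∧ ¬ lt5 M.toMS M.NP s w) ∧ ld s w) := by
      refine pr_le_bd (X := M.NP (s + 1)) (B := ld s) (fun a b e => ?_) fun w hw hh => G.ends c s (mem_range.1 hs) w hw hh.2
      have e1 : stg (C0 M.toMS) (s + 1) a = stg (C0 M.toMS) (s + 1) b := nu_fac M.toMS (s + 1) a b e
      have e2 := lt5_fac M.toMS s a b e
      unfold En
      rw [e1, e2]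
    refine h2.trans (add_le_add (mul_le_mul_of_nonneg_left (M.P.Pr_mono fun w _ hh => hh.1) hr)
      (M.P.Pr_mono fun w _ hh => hh.2))
  refine (sum_le_sum h1).trans ?_
  rw [sum_add_distrib, ← mul_sum]
  exact add_le_add (mul_le_mul_of_nonneg_left (sum_En T) hr) le_rfl

/-- the starts with a dense status set -/
theorem startB (G : GamOK M T y0 rho ld) (hr : 0 ≤ rho) (hy : y0 ≤ yp) (c : Fin 3) :
    ∑ s ∈ range T, M.P.Pr (fun w => stg (C0 M.toMS) s w = s ∧ yp ≤ dn M.P (M.S ∅) (sts M.toMS c) s w) ≤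
      RR M T rho ld := by
  have h1 : ∀ s ∈ range T, M.P.Pr (fun w => stg (C0 M.toMS) s w = s ∧ yp ≤ dn M.P (M.S ∅) (sts M.toMS c) s w) ≤
      rho * M.P.Pr (fun w => nu M.toMS s w = s) + M.P.Pr (fun w => 0 < s ∧ ld (s - 1) w) := by
    intro s hs
    have h2 : M.P.Pr (fun w => nu M.toMS s w = s ∧ y0 ≤ M.P.ce (M.S ∅ s) (fun x => ind (sts M.toMS c s x)) w) ≤
        rho * M.P.Pr (fun w => nu M.toMS s w = s) + M.P.Pr (fun w => nu M.toMS s w = s ∧ (0 < s ∧ ld (s - 1) w)) := by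
      refine pr_le_bd (X := M.NP s) (B := fun w => 0 < s ∧ ld (s - 1) w) (fun a b e => ?_)
        fun w hw hh => G.strt c s (mem_range.1 hs) w hw hh
      rw [nu_fac M.toMS s a b e]
    exact le_trans (M.P.Pr_mono fun w _ hh => ⟨hh.1, hy.trans hh.2⟩) (h2.trans (add_le_add le_rfl
      (M.P.Pr_mono fun w _ hh => hh.2)))
  refine (sum_le_sum h1).trans ?_
  rw [sum_add_distrib, ← mul_sum]
  refine add_le_add (mul_le_mul_of_nonneg_left (starts_le M.toMS T) hr) ?_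
  cases T with
  | zero => simp
  | succ T =>
    rw [sum_range_succ', sum_range_succ]
    have h2 : M.P.Pr (fun w => 0 < 0 ∧ ld (0 - 1) w) ≤ 0 := by
      refine le_of_eq ?_
      unfold FP.Pr
      rw [M.P.E_congr (g := fun _ => 0) fun w _ => ind_not fun hh => absurd hh.1 (lt_irrefl 0), M.P.E_const]
    have h3 : ∑ s ∈ range T, M.P.Pr (fun w => 0 < s + 1 ∧ ld (s + 1 - 1) w) ≤ ∑ s ∈ range T, M.P.Pr (ld s) :=
      sum_le_sum fun s _ => M.P.Pr_mono fun w _ hh => hh.2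
    have h4 := M.P.Pr_nonneg (ld T)
    linarith

/-- **THE NUMBER OF THE STRETCHES** -/
theorem srt_count (H : Seen M) (G : GamOK M T y0 rho ld) (hr : 0 ≤ rho) (hy0 : 0 ≤ y0) {gv : ℝ}
    (hV : ∀ c, ∑ s ∈ range T, M.P.Pr (fun w => lt5 M.toMS M.NP s w ∧ sts M.toMS c s w) ≤ gv) :
    (yp - y0) * ∑ s ∈ range T, M.P.Pr (srt M.P (M.S ∅) (C0 M.toMS) (fun c => sts M.toMS c) yp s) ≤
      3 * (gv + RR M T rho ld) := by
  by_cases hyy : yp - y0 ≤ 0
  · have h1 : 0 ≤ ∑ s ∈ range T, M.P.Pr (srt M.P (M.S ∅) (C0 M.toMS) (fun c => sts M.toMS c) yp s) :=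
      sum_nonneg fun _ _ => M.P.Pr_nonneg _
    have h2 : 0 ≤ gv := (sum_nonneg fun _ _ => M.P.Pr_nonneg _).trans (hV 0)
    have h4 := mul_nonneg (sub_nonneg.2 (sub_nonpos.1 hyy)) h1
    have h5 := RR_nonneg (M := M) (T := T) (ld := ld) hr
    nlinarith
  · have h1 := srt_le (P := M.P) (N := M.S ∅) (C := C0 M.toMS) (Ev := fun c => sts M.toMS c) (yp := yp) (T := T)
    have h2 : ∀ c ∈ (univ : Finset (Fin 3)), (yp - y0) * ∑ s ∈ range T, M.P.Pr (fun w =>
        srt M.P (M.S ∅) (C0 M.toMS) (fun c => sts M.toMS c) yp s w ∧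
          yp ≤ dn M.P (M.S ∅) (sts M.toMS c) s w) ≤ gv + RR M T rho ld := by
      intro c _
      refine (static_count (P := M.P) (N := M.S ∅) (C := C0 M.toMS) (Ev := fun c => sts M.toMS c) (yp := yp) (T := T)
        (fun k => M.fS ∅ k) (fun k => nu_st H k) c (fun w s s' e => sts_ep c e) (Rm := fun s w => lt5 M.toMS M.NP s w)
        (fun s a b e => Iff.of_eq (lt5_fac M.toMS s a b (S_NP M (s + 1) a b e))) hy0
        (Bd := fun s w => (En (C0 M.toMS) T s w ∧ ¬ lt5 M.toMS M.NP s w) ∧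
          y0 ≤ M.P.ce (M.S ∅ (s + 1)) (fun x => ind (sts M.toMS c s x)) w) ?_).trans
        (add_le_add (hV c) (endB G hr c))
      intro s hs w hw h3 h4
      by_cases h5 : y0 ≤ M.P.ce (M.S ∅ (s + 1)) (fun x => ind (sts M.toMS c s x)) w
      · rw [ind_of (⟨⟨h3, h4⟩, h5⟩ : (En (C0 M.toMS) T s w ∧ ¬ lt5 M.toMS M.NP s w) ∧
          y0 ≤ M.P.ce (M.S ∅ (s + 1)) (fun x => ind (sts M.toMS c s x)) w)]
        have h6 : M.P.ce (M.S ∅ (s + 1)) (fun x => ind (sts M.toMS c s x)) w ≤ 1 :=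
          M.P.ce_le_const (fun _ _ => ind_le_one _) hw
        linarith
      · have h6 := ind_nonneg ((En (C0 M.toMS) T s w ∧ ¬ lt5 M.toMS M.NP s w) ∧
          y0 ≤ M.P.ce (M.S ∅ (s + 1)) (fun x => ind (sts M.toMS c s x)) w)
        have h7 := (not_le.1 h5).le
        linarith
    have h3 := mul_le_mul_of_nonneg_left h1 (not_le.1 hyy).le
    refine h3.trans ?_
    rw [mul_sum]
    refine (sum_le_sum h2).trans (le_of_eq ?_)
    rw [sum_const, card_univ, Fintype.card_fin, nsmul_eq_mul]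
    norm_num

/-- **TWO VERTICES WITH STATUS AT THE PUBLIC REMOVALS** -/
theorem vv_sum (H : Seen M) (hcd : ∀ s, M.cd s → Fac (M.S ∅ s) (M.NP (s + 1)))
    (hci : ∀ v v', v ≠ v' → Blk.CI M.P (M.S ∅) (M.S {v}) (M.S {v'})) {h : ℝ} (h0 : 0 ≤ h)
    (hm : ∀ s < T, ∀ w, M.P.p w ≠ 0 → M.P.m (M.S ∅ s) w ≤ h * M.P.m (M.S ∅ (s + 1)) w)
    (G : GamOK M T y0 rho ld) (hr : 0 ≤ rho) (hy0 : 0 ≤ y0) (hy : y0 < yp) {gv : ℝ}
    (hV : ∀ c, ∑ s ∈ range T, M.P.Pr (fun w => lt5 M.toMS M.NP s w ∧ sts M.toMS c s w) ≤ gv) {i j : Fin 3} (hij : i ≠ j) :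
    ∑ s ∈ range T, M.P.Pr (fun w => lt5 M.toMS M.NP s w ∧ (sts M.toMS i s w ∧ sts M.toMS j s w)) ≤
      yp ^ 2 * NL M.toMS T + ((h * yp) ^ 2 * (3 * (gv + RR M T rho ld) / (yp - y0)) +
        3 * RR M T rho ld) := by
  have hyp : 0 ≤ yp := hy0.trans hy.le
  set Ev : Fin 3 → ℕ → Om → Prop := fun c => sts M.toMS c with hEv
  set C := C0 M.toMS with hC
  have hN : ∀ k, Fac (M.S ∅ (k + 1)) (M.S ∅ k) := fun k => M.fS ∅ k
  have hs : ∀ k, Fac (M.S ∅ k) (stg C k) := fun k => nu_st H k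
  have b1 := before_sum (P := M.P) (N := M.S ∅) (C := C) (Ev := Ev) (yp := yp) (T := T)
    (Rm := fun s w => lt5 M.toMS M.NP s w) hN hs (fun s a b e => lt5_S hcd s e) hyp i j
    (fun s w hw => prod_le (hci i j hij) (fun a b e => sts_S i le_rfl e) (fun a b e => sts_S j le_rfl e) hw)
  have b2 := after_sum' (P := M.P) (N := M.S ∅) (C := C) (Ev := Ev) (yp := yp) (h := h) (T := T)
    (Q := fun s w => sts M.toMS i s w ∧ sts M.toMS j s w) hN hs hyp h0 i j
    (fun s w hw => prod_le (hci i j hij) (fun a b e => sts_S i (Nat.le_succ s) e) (fun a b e => sts_S j (Nat.le_succ s) e) hw)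
    hm (by
      intro r s w h1 h2 _ hQ
      have h3 : stg C (r - 1) w = stg C s w := in_ep (by omega) (by omega)
      exact ⟨(sts_ep i h3).2 hQ.1, (sts_ep j h3).2 hQ.2⟩)
  have h1 : ∑ s ∈ range T, M.P.Pr (fun w => lt5 M.toMS M.NP s w ∧ (sts M.toMS i s w ∧ sts M.toMS j s w)) ≤
      ∑ s ∈ range T, M.P.Pr (fun w => (lt5 M.toMS M.NP s w ∧ ¬ inS M.P (M.S ∅) C Ev yp s w) ∧ (Ev i s w ∧ Ev j s w)) +
        ∑ s ∈ range T, M.P.Pr (fun w => En C T s w ∧ (inS M.P (M.S ∅) C Ev yp s w ∧ (sts M.toMS i s w ∧ sts M.toMS j s w))) := by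
    rw [← sum_add_distrib]
    refine sum_le_sum fun s _ => le_trans (M.P.Pr_mono fun w _ hh => ?_) (M.P.Pr_or_le _ _)
    by_cases h2 : inS M.P (M.S ∅) C Ev yp s w
    · exact Or.inr ⟨Or.inl (lt5_end hh.1), h2, hh.2⟩
    · exact Or.inl ⟨⟨hh.1, h2⟩, hh.2⟩
  have h2 : ∑ s ∈ range T, M.P.Pr (srt M.P (M.S ∅) C Ev yp s) ≤ 3 * (gv + RR M T rho ld) / (yp - y0) := by
    rw [le_div_iff₀ (by linarith), mul_comm]
    exact srt_count H G hr hy0 hV
  have h3 : ∑ s ∈ range T, M.P.Pr (fun w => stg C s w = s ∧ trg M.P (M.S ∅) Ev yp s w) ≤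
      3 * RR M T rho ld := by
    have h4 : ∀ s ∈ range T, M.P.Pr (fun w => stg C s w = s ∧ trg M.P (M.S ∅) Ev yp s w) ≤
        ∑ c : Fin 3, M.P.Pr (fun w => stg C s w = s ∧ yp ≤ dn M.P (M.S ∅) (Ev c) s w) := by
      intro s _
      refine le_trans (M.P.Pr_mono fun w _ hh => ?_) (M.P.Pr_ex_le univ fun c w => stg C s w = s ∧
        yp ≤ dn M.P (M.S ∅) (Ev c) s w)
      obtain ⟨c, hc⟩ := hh.2
      exact ⟨c, mem_univ c, hh.1, hc⟩
    refine (sum_le_sum h4).trans ?_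
    rw [sum_comm]
    refine (sum_le_sum fun c _ => startB G hr hy.le c).trans (le_of_eq ?_)
    rw [sum_const, card_univ, Fintype.card_fin, nsmul_eq_mul]
    norm_num
  have h4 : ∑ s ∈ range T, M.P.Pr (fun w => lt5 M.toMS M.NP s w) = NL M.toMS T := rfl
  rw [h4] at b1
  have h5 := mul_le_mul_of_nonneg_left h2 (sq_nonneg (h * yp))
  linarith

end

end Pool.Agent.GMH.VV
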