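import Pool.Agent.GMH.CR
import Pool.Agent.GMH.Exch

/-!
# GMH/Vio (helper40): the violation process of a sample of rows (notes 3922 (B) (2), 3939 (2))

`wt c s` : the row `c` wants to be taken at the time `s`, `kp r c s` : the row `c` taken at the time `r` is kept at the time
`s`; both see the cell of `V` at the time `s` only.  Sample `x : Fin n → α`; at every time the current row is kept if it can,
otherwise the smallest row which wants is taken.
`pre s` = a row is kept at the time `s`, `tkn s i` = the row `i` is taken, `vi s r i` = the row `i`, taken at the time `r`, is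
the current one after the time `s`, `vl s` = there is a current row after the time `s`.

* `skip_vi` : a row which is never taken can be left out; `want_tkn` : a row which wants although the process of the others is
  off is taken in the process of all;
* `pay_tkn` : payment: `u/4 E (number of takings ≤ τ) ≤ E (ru (F r) (current row) - u/4)` at a stopping time `τ` if the rows
  want at `ru (F s) ≥ u/2` and a row taken at the time `r` is kept while `ru (F r) > u/4` (`F s` = the table of the time `s`);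
* `exch_tkn` : EXCHANGE: if for every world the expected number of takings up to the end of its life is `≤ Q` (mean over the
  sample) then the true row wants while the process is off with probability `≤ (Q + 2) / √(M+1)`.
-/

set_option autoImplicit false
set_option linter.unusedSectionVars false

namespace Pool.Agent.GMH.Vio

open Finset Pool.Agent.PWZ Pool.Agent.M3 Pool.Agent.GMH.Gdy Pool.Agent.GMH.CR

noncomputable section

variable {Om : Type*} [Fintype Om] {P : FP Om} {κ' : ℕ → Type*} {cV : ∀ t, Om → κ' t} {α : Type*}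
  (wt : α → ℕ → Om → Prop) (kp : ℕ → α → ℕ → Om → Prop)

/-- the smallest row which wants -/
def pk {n : ℕ} (x : Fin n → α) (s : ℕ) (i : Fin n) (w : Om) : Prop := wt (x i) s w ∧ ∀ j < i, ¬ wt (x j) s w

/-- the current row after the time `s` and the time `r` of its taking -/
def vi {n : ℕ} (x : Fin n → α) : ℕ → ℕ → Fin n → Om → Prop
  | 0 => fun r i w => r = 0 ∧ pk wt x 0 i w
  | s + 1 => fun r i w => (vi x s r i w ∧ kp r (x i) (s + 1) w) ∨
      (r = s + 1 ∧ (¬ ∃ r' j, vi x s r' j w ∧ kp r' (x j) (s + 1) w) ∧ pk wt x (s + 1) i w)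

/-- a row is kept at the time `s` -/
def pre {n : ℕ} (x : Fin n → α) : ℕ → Om → Prop
  | 0 => fun _ => False
  | s + 1 => fun w => ∃ r j, vi wt kp x s r j w ∧ kp r (x j) (s + 1) w

/-- the row `i` is taken at the time `s` -/
def tkn {n : ℕ} (x : Fin n → α) (s : ℕ) (i : Fin n) (w : Om) : Prop := ¬ pre wt kp x s w ∧ pk wt x s i w

/-- there is a current row after the time `s` -/
def vl {n : ℕ} (x : Fin n → α) (s : ℕ) (w : Om) : Prop := ∃ r i, vi wt kp x s r i w

variable {wt kp}

section basic

variable {n : ℕ} {x : Fin n → α}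

theorem vi_zero (r : ℕ) (i : Fin n) (w : Om) : vi wt kp x 0 r i w ↔ r = 0 ∧ tkn wt kp x 0 i w :=
  ⟨fun h => ⟨h.1, fun h => h, h.2⟩, fun h => ⟨h.1, h.2.2⟩⟩

theorem vi_succ (s r : ℕ) (i : Fin n) (w : Om) :
    vi wt kp x (s + 1) r i w ↔ (vi wt kp x s r i w ∧ kp r (x i) (s + 1) w) ∨ (r = s + 1 ∧ tkn wt kp x (s + 1) i w) :=
  Iff.rfl

theorem vi_le {s : ℕ} : ∀ {r : ℕ} {i : Fin n} {w : Om}, vi wt kp x s r i w → r ≤ s := by
  induction s with
  | zero => exact fun h => h.1.le
  | succ s ih =>
    intro r i w h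
    rcases h with h | h
    · have := ih h.1
      omega
    · exact h.1.le

theorem pk_one {s : ℕ} {i i' : Fin n} {w : Om} (h : pk wt x s i w) (h' : pk wt x s i' w) : i = i' := by
  rcases lt_trichotomy i i' with h1 | h1 | h1
  · exact absurd h.1 (h'.2 i h1)
  · exact h1
  · exact absurd h'.1 (h.2 i' h1)

theorem pk_ex {s : ℕ} {w : Om} {i : Fin n} (h : wt (x i) s w) : ∃ j, pk wt x s j w := by
  classical
  have hne : (univ.filter fun j => wt (x j) s w).Nonempty := ⟨i, by simpa using h⟩
  refine ⟨(univ.filter fun j => wt (x j) s w).min' hne, ?_, fun j hj hj' => ?_⟩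
  · have := Finset.min'_mem _ hne
    simpa using this
  · have := Finset.min'_le (univ.filter fun j => wt (x j) s w) j (by simpa using hj')
    exact absurd hj (not_lt.2 this)

theorem vi_one {s : ℕ} : ∀ {r r' : ℕ} {i i' : Fin n} {w : Om}, vi wt kp x s r i w → vi wt kp x s r' i' w →
    r = r' ∧ i = i' := by
  induction s with
  | zero => exact fun h h' => ⟨h.1.trans h'.1.symm, pk_one h.2 h'.2⟩
  | succ s ih =>
    intro r r' i i' w h h'
    rcases h with h | h
    · rcases h' with h' | h'
      · exact ih h.1 h'.1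
      · exact absurd ⟨r, i, h⟩ h'.2.1
    · rcases h' with h' | h'
      · exact absurd ⟨r', i', h'⟩ h.2.1
      · exact ⟨h.1.trans h'.1.symm, pk_one h.2.2 h'.2.2⟩

theorem tkn_vi {s : ℕ} {i : Fin n} {w : Om} (h : tkn wt kp x s i w) : vi wt kp x s s i w := by
  cases s with
  | zero => exact ⟨rfl, h.2⟩
  | succ s => exact Or.inr ⟨rfl, h⟩

theorem tkn_wt {s : ℕ} {i : Fin n} {w : Om} (h : tkn wt kp x s i w) : wt (x i) s w := h.2.1

/-- a row which wants makes the process run -/
theorem wt_vl {s : ℕ} {i : Fin n} {w : Om} (h : wt (x i) s w) : vl wt kp x s w := by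
  obtain ⟨j, hj⟩ := pk_ex h
  cases s with
  | zero => exact ⟨0, j, rfl, hj⟩
  | succ s =>
    by_cases h1 : ∃ r j, vi wt kp x s r j w ∧ kp r (x j) (s + 1) w
    · obtain ⟨r', j', hj'⟩ := h1
      exact ⟨r', j', Or.inl hj'⟩
    · exact ⟨s + 1, j, Or.inr ⟨rfl, h1, hj⟩⟩

section meas

variable (hw : ∀ c s v w, cV s v = cV s w → (wt c s v ↔ wt c s w))
  (hk : ∀ r c s v w, cV s v = cV s w → (kp r c s v ↔ kp r c s w)) (fV : Filt cV)

include hw in
theorem pk_iff {s : ℕ} {i : Fin n} {v w : Om} (h : cV s v = cV s w) : pk wt x s i v ↔ pk wt x s i w := by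
  unfold pk
  rw [hw _ s v w h]
  exact and_congr_right fun _ => forall_congr' fun j => forall_congr' fun _ => by rw [hw _ s v w h]

include hw hk fV in
theorem vi_iff {s : ℕ} : ∀ {r : ℕ} {i : Fin n} {v w : Om}, cV s v = cV s w →
    (vi wt kp x s r i v ↔ vi wt kp x s r i w) := by
  induction s with
  | zero => exact fun h => and_congr_right fun _ => pk_iff hw h
  | succ s ih =>
    intro r i v w h
    have h1 := fV s v w h
    rw [vi_succ, vi_succ]
    unfold tkn pre
    rw [pk_iff hw h, ih h1, hk _ _ (s + 1) v w h]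
    refine or_congr_right (and_congr_right fun _ => and_congr_left fun _ => not_congr (exists_congr fun r' =>
      exists_congr fun j => ?_))
    rw [ih h1, hk _ _ (s + 1) v w h]

include hw hk fV in
theorem tkn_iff {s : ℕ} {i : Fin n} {v w : Om} (h : cV s v = cV s w) : tkn wt kp x s i v ↔ tkn wt kp x s i w := by
  cases s with
  | zero => exact and_congr_right fun _ => pk_iff hw h
  | succ s =>
    have h1 := fV s v w h
    unfold tkn pre
    rw [pk_iff hw h]
    refine and_congr_left fun _ => not_congr (exists_congr fun r' => exists_congr fun j => ?_)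
    rw [vi_iff hw hk fV h1, hk _ _ (s + 1) v w h]

include hw hk fV in
theorem vl_iff {s : ℕ} {v w : Om} (h : cV s v = cV s w) : vl wt kp x s v ↔ vl wt kp x s w :=
  exists_congr fun _ => exists_congr fun _ => vi_iff hw hk fV h

end meas

end basic

/-! ## leaving a row out -/

section skip

variable {n : ℕ} (z : Fin (n + 1) → α) (j : Fin (n + 1))

theorem pk_skip {s : ℕ} {w : Om} (h : ¬ pk wt z s j w) (i : Fin n) :
    pk wt (fun i => z (j.succAbove i)) s i w ↔ pk wt z s (j.succAbove i) w := by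
  constructor
  · rintro ⟨h1, h2⟩
    refine ⟨h1, fun j' hj' => ?_⟩
    by_cases hjj : j' = j
    · subst hjj
      intro h3
      refine h ⟨h3, fun j'' hj'' => ?_⟩
      obtain ⟨i'', rfl⟩ := Fin.exists_succAbove_eq (ne_of_lt hj'')
      exact h2 i'' ((Fin.succAbove_lt_succAbove_iff).1 (hj''.trans hj'))
    · obtain ⟨i', rfl⟩ := Fin.exists_succAbove_eq hjj
      exact h2 i' ((Fin.succAbove_lt_succAbove_iff).1 hj')
  · rintro ⟨h1, h2⟩
    exact ⟨h1, fun i' hi' => h2 _ ((Fin.succAbove_lt_succAbove_iff).2 hi')⟩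

theorem ex_skip {p : Fin (n + 1) → Prop} (h : ¬ p j) : (∃ i, p i) ↔ ∃ i : Fin n, p (j.succAbove i) := by
  constructor
  · rintro ⟨i, hi⟩
    have hne : i ≠ j := fun h1 => h (h1 ▸ hi)
    obtain ⟨i', rfl⟩ := Fin.exists_succAbove_eq hne
    exact ⟨i', hi⟩
  · rintro ⟨i, hi⟩
    exact ⟨_, hi⟩

/-- **a row which is never taken can be left out** -/
theorem skip_vi {s : ℕ} {w : Om} (h : ∀ s' ≤ s, ¬ tkn wt kp z s' j w) :
    (∀ r, ¬ vi wt kp z s r j w) ∧
      ∀ r i, (vi wt kp (fun i => z (j.succAbove i)) s r i w ↔ vi wt kp z s r (j.succAbove i) w) := by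
  induction s with
  | zero =>
    have h1 : ¬ pk wt z 0 j w := fun h1 => h 0 le_rfl ⟨fun h => h, h1⟩
    exact ⟨fun r h => h1 h.2, fun r i => and_congr_right fun _ => pk_skip z j h1 i⟩
  | succ s ih =>
    obtain ⟨h1, h2⟩ := ih fun s' hs' => h s' (by omega)
    have h3 := h (s + 1) le_rfl
    have hpre : pre wt kp (fun i => z (j.succAbove i)) (s + 1) w ↔ pre wt kp z (s + 1) w := by
      show (∃ r i, vi wt kp (fun i => z (j.succAbove i)) s r i w ∧ kp r (z (j.succAbove i)) (s + 1) w) ↔
        ∃ r i, vi wt kp z s r i w ∧ kp r (z i) (s + 1) w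
      refine exists_congr fun r => ?_
      rw [ex_skip j (p := fun i => vi wt kp z s r i w ∧ kp r (z i) (s + 1) w) (fun h => h1 r h.1)]
      exact exists_congr fun i => by rw [h2 r i]
    refine ⟨fun r => ?_, fun r i => ?_⟩
    · rw [vi_succ]
      rintro (h4 | h4)
      · exact h1 r h4.1
      · exact h3 h4.2
    · rw [vi_succ, vi_succ, h2 r i]
      refine or_congr_right (and_congr_right fun _ => ?_)
      unfold tkn
      rw [hpre]
      refine and_congr_right fun h4 => ?_
      exact pk_skip z j (fun h5 => h3 ⟨h4, h5⟩) i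

/-- **a row which wants although the process of the others is off is taken in the process of all** -/
theorem want_tkn {s : ℕ} {w : Om} (h : wt (z j) s w) (h0 : ¬ vl wt kp (fun i => z (j.succAbove i)) s w) :
    ∃ s' ≤ s, tkn wt kp z s' j w := by
  by_contra hcon
  push Not at hcon
  obtain ⟨h1, h2⟩ := skip_vi z j hcon
  obtain ⟨r, h3⟩ : vl wt kp z s w := wt_vl h
  refine h0 ⟨r, ?_⟩
  rw [ex_skip j (h1 r)] at h3
  obtain ⟨i, hi⟩ := h3
  exact ⟨i, (h2 r i).2 hi⟩

end skip

/-! ## payments -/

section pay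

variable {ω : Type*} {V : Om → ω} {F : ℕ → α → ω → ℝ} {u : ℝ} {n : ℕ} {x : Fin n → α}

/-- the row sums are martingales -/
theorem ru_mart (fV : Filt cV) (r : ℕ) (c : α) (s : ℕ) (w : Om) :
    P.ce (cV s) (ru P cV V (F r) c (s + 1)) w = ru P cV V (F r) c s w := P.ce_tower (fV s) _ w

variable (P cV V F u wt kp x) in
/-- the potential after the time `s` -/
def PhV (s : ℕ) (w : Om) : ℝ :=
  ∑ r ∈ range (s + 1), ∑ i, ind (vi wt kp x s r i w) * (ru P cV V (F r) (x i) s w - u / 4)

variable (hu : 0 ≤ u) (hwu : ∀ c s w, wt c s w → u / 2 ≤ ru P cV V (F s) c s w)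
  (hku : ∀ r c s w, kp r c s w ↔ u / 4 < ru P cV V (F r) c s w)

include hu hwu hku in
theorem vi_ge {s r : ℕ} {i : Fin n} {w : Om} (h : vi wt kp x s r i w) : u / 4 ≤ ru P cV V (F r) (x i) s w := by
  cases s with
  | zero =>
    obtain ⟨rfl, h⟩ := h
    have := hwu _ _ _ h.1
    linarith
  | succ s =>
    rcases h with h | ⟨rfl, h⟩
    · exact ((hku _ _ _ _).1 h.2).le
    · have := hwu _ _ _ h.2.1; linarith

include hu hwu hku in
theorem PhV_nonneg (s : ℕ) (w : Om) : 0 ≤ PhV P cV wt kp V F u x s w := by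
  refine Finset.sum_nonneg fun r _ => Finset.sum_nonneg fun i _ => ?_
  by_cases h : vi wt kp x s r i w
  · have := vi_ge hu hwu hku h
    rw [ind_of h, one_mul]
    linarith
  · rw [ind_not h, zero_mul]

include hu hwu hku in
/-- one time -/
theorem PhV_step (s : ℕ) (w : Om) :
    ∑ r ∈ range (s + 1), ∑ i, ind (vi wt kp x s r i w) * max (ru P cV V (F r) (x i) (s + 1) w - u / 4) 0 +
      u / 4 * ∑ i, ind (tkn wt kp x (s + 1) i w) ≤ PhV P cV wt kp V F u x (s + 1) w := by
  unfold PhV
  rw [Finset.sum_range_succ _ (s + 1), Finset.mul_sum]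
  refine add_le_add (Finset.sum_le_sum fun r hr => Finset.sum_le_sum fun i _ => ?_)
    (Finset.sum_le_sum fun i _ => ?_)
  · by_cases h1 : vi wt kp x s r i w ∧ kp r (x i) (s + 1) w
    · have h2 := (hku _ _ _ _).1 h1.2
      rw [ind_of h1.1, ind_of (show vi wt kp x (s + 1) r i w from Or.inl h1), max_eq_left (by linarith)]
    · have h0 : ind (vi wt kp x s r i w) * max (ru P cV V (F r) (x i) (s + 1) w - u / 4) 0 = 0 := by
        by_cases h2 : vi wt kp x s r i w
        · have h3 : ¬ kp r (x i) (s + 1) w := fun h => h1 ⟨h2, h⟩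
          rw [hku, not_lt] at h3
          rw [max_eq_right (by linarith), mul_zero]
        · rw [ind_not h2, zero_mul]
      rw [h0]
      by_cases h2 : vi wt kp x (s + 1) r i w
      · have := vi_ge hu hwu hku h2
        rw [ind_of h2, one_mul]
        linarith
      · rw [ind_not h2, zero_mul]
  · by_cases h2 : tkn wt kp x (s + 1) i w
    · have := hwu _ _ _ h2.2.1
      rw [ind_of h2, ind_of (tkn_vi h2)]
      linarith
    · rw [ind_not h2, mul_zero]
      by_cases h3 : vi wt kp x (s + 1) (s + 1) i w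
      · have := vi_ge hu hwu hku h3
        rw [ind_of h3, one_mul]
        linarith
      · rw [ind_not h3, zero_mul]

include hu hwu in
/-- the start -/
theorem PhV_zero (w : Om) : u / 4 * ∑ i, ind (tkn wt kp x 0 i w) ≤ PhV P cV wt kp V F u x 0 w := by
  unfold PhV
  rw [Finset.mul_sum, zero_add, Finset.sum_range_one]
  refine Finset.sum_le_sum fun i _ => ?_
  by_cases h : tkn wt kp x 0 i w
  · have := hwu _ _ _ h.2.1
    rw [ind_of h, ind_of (tkn_vi h)]
    linarith
  · rw [ind_not h, ind_not (fun h1 => h ((vi_zero 0 i w).1 h1).2)]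
    simp

variable (hw : ∀ c s v w, cV s v = cV s w → (wt c s v ↔ wt c s w))

include hu hwu hku hw in
/-- **the takings are paid by the current row**, at a stopping time of the cells of `V` -/
theorem pay_tkn (fV : Filt cV) {τ : Om → ℕ} (hτ : Stp cV τ) :
    u / 4 * P.E (fun w => ∑ s ∈ range (τ w + 1), ∑ i, ind (tkn wt kp x s i w)) ≤
      P.E (fun w => PhV P cV wt kp V F u x (τ w) w) := by
  have hk : ∀ r c s v w, cV s v = cV s w → (kp r c s v ↔ kp r c s w) := fun r c s v w h => by
    rw [hku, hku, ru_fac (P := P) (V := V) (F := F r) c s v w h]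
  have key : ∀ m, u / 4 * P.E (fun w => ∑ s ∈ range (min (τ w) m + 1), ∑ i, ind (tkn wt kp x s i w)) ≤
      P.E (fun w => PhV P cV wt kp V F u x (min (τ w) m) w) := by
    intro m
    induction m with
    | zero =>
      rw [← FP.E_smul]
      refine P.E_mono fun w _ => ?_
      rw [Nat.min_zero, zero_add, Finset.sum_range_one]
      exact PhV_zero hu hwu w
    | succ m ih =>
      set h : Om → ℝ := fun w => ind (m < τ w) with hh
      have hf : Fac (cV m) h := Stp.lt_fac hτ m
      have e1 : P.E (fun w => ∑ s ∈ range (min (τ w) (m + 1) + 1), ∑ i, ind (tkn wt kp x s i w)) =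
          P.E (fun w => ∑ s ∈ range (min (τ w) m + 1), ∑ i, ind (tkn wt kp x s i w)) +
            P.E (fun w => h w * ∑ i, ind (tkn wt kp x (m + 1) i w)) := by
        rw [← FP.E_add]
        refine P.E_congr fun w _ => ?_
        by_cases hw : m < τ w
        · rw [hh]
          simp only
          rw [ind_of hw, one_mul, min_eq_right (by omega), min_eq_right hw.le, Finset.sum_range_succ]
        · rw [hh]
          simp only
          rw [ind_not hw, zero_mul, add_zero, min_eq_left (by omega), min_eq_left (by omega)]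
      have e2 : P.E (fun w => PhV P cV wt kp V F u x (min (τ w) (m + 1)) w) =
          P.E (fun w => PhV P cV wt kp V F u x (min (τ w) m) w) +
            (P.E (fun w => h w * PhV P cV wt kp V F u x (m + 1) w) -
              P.E (fun w => h w * PhV P cV wt kp V F u x m w)) := by
        rw [← FP.E_sub, ← FP.E_add]
        refine P.E_congr fun w _ => ?_
        by_cases hw : m < τ w
        · rw [hh]
          simp only
          rw [ind_of hw, min_eq_right (by omega), min_eq_right hw.le]
          ring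
        · rw [hh]
          simp only
          rw [ind_not hw, min_eq_left (by omega), min_eq_left (by omega)]
          ring
      -- the current rows are submartingales
      have h3 : P.E (fun w => h w * PhV P cV wt kp V F u x m w) ≤
          P.E (fun w => h w * ∑ r ∈ range (m + 1), ∑ i, ind (vi wt kp x m r i w) *
            max (ru P cV V (F r) (x i) (m + 1) w - u / 4) 0) := by
        unfold PhV
        simp only [Finset.mul_sum]
        rw [FP.E_sum, FP.E_sum]
        refine Finset.sum_le_sum fun r _ => ?_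
        rw [FP.E_sum, FP.E_sum]
        refine Finset.sum_le_sum fun i _ => ?_
        have hfi : Fac (cV m) (fun w => h w * ind (vi wt kp x m r i w)) :=
          hf.mul (Fac.ind fun v w hvw => vi_iff hw hk fV hvw)
        have e3 := P.E_mul_ce hfi (fun w => max (ru P cV V (F r) (x i) (m + 1) w - u / 4) 0)
        calc P.E (fun w => h w * (ind (vi wt kp x m r i w) * (ru P cV V (F r) (x i) m w - u / 4)))
            ≤ P.E (fun w => h w * ind (vi wt kp x m r i w) *
                P.ce (cV m) (fun w => max (ru P cV V (F r) (x i) (m + 1) w - u / 4) 0) w) := by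
              refine P.E_mono fun w hw => ?_
              rw [← mul_assoc]
              refine mul_le_mul_of_nonneg_left ?_ (mul_nonneg (ind_nonneg _) (ind_nonneg _))
              have h4 : ru P cV V (F r) (x i) m w - u / 4 =
                  P.ce (cV m) (fun v => ru P cV V (F r) (x i) (m + 1) v - u / 4) w := by
                rw [P.ce_sub, P.ce_const _ _ hw]
                congr 1
                exact (ru_mart fV r (x i) m w).symm
              rw [h4]
              exact P.ce_mono (fun _ _ => le_max_left _ _) w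
          _ = _ := by
              rw [e3]
              exact P.E_congr fun w _ => by ring
      have h4 : P.E (fun w => h w * ∑ r ∈ range (m + 1), ∑ i, ind (vi wt kp x m r i w) *
            max (ru P cV V (F r) (x i) (m + 1) w - u / 4) 0) +
          u / 4 * P.E (fun w => h w * ∑ i, ind (tkn wt kp x (m + 1) i w)) ≤
          P.E (fun w => h w * PhV P cV wt kp V F u x (m + 1) w) := by
        rw [← FP.E_smul, ← FP.E_add]
        refine P.E_mono fun w _ => ?_
        have h5 := mul_le_mul_of_nonneg_left (PhV_step (P := P) (cV := cV) (V := V) (F := F) (x := x) hu hwu hku m w)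
          (ind_nonneg (m < τ w))
        show ind (m < τ w) * _ + u / 4 * (ind (m < τ w) * _) ≤ ind (m < τ w) * _
        linarith
      rw [e1, e2]
      linarith
  -- large m
  obtain ⟨m, hm⟩ : ∃ m, ∀ w : Om, τ w ≤ m := by
    classical
    exact ⟨univ.sup τ, fun w => Finset.le_sup (mem_univ w)⟩
  have h1 := key m
  have e : ∀ w, min (τ w) m = τ w := fun w => min_eq_left (hm w)
  simp only [e] at h1
  exact h1

end pay

/-! ## exchange -/

section exch

variable {n : ℕ}

/-- the number of takings up to the time `m` -/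
def nt (wt : α → ℕ → Om → Prop) (kp : ℕ → α → ℕ → Om → Prop) (z : Fin n → α) (m : ℕ) (w : Om) : ℝ :=
  ∑ s ∈ range (m + 1), ∑ i, ind (tkn wt kp z s i w)

theorem nt_nonneg (z : Fin n → α) (m : ℕ) (w : Om) : 0 ≤ nt wt kp z m w :=
  Finset.sum_nonneg fun _ _ => Finset.sum_nonneg fun _ _ => ind_nonneg _

/-- **the count**: `m * (number of taken rows) ≤ ∑ i, (number of takings up to T i) + m * m`, a row is taken before the end of its life -/
theorem nt_count (z : Fin n → α) (T : Fin n → ℕ) (w : Om) (h : ∀ s i, tkn wt kp z s i w → s ≤ T i) (m : ℕ) :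
    m * ∑ j, ind (∃ s, tkn wt kp z s j w) ≤ ∑ i, nt wt kp z (T i) w + m * m := by
  classical
  set S : Finset (Fin n) := univ.filter fun j => ∃ s, tkn wt kp z s j w with hS
  set τ : Fin n → ℕ := fun j => if hj : ∃ s, tkn wt kp z s j w then Nat.find hj else 0 with hτ
  have hτs : ∀ j ∈ S, tkn wt kp z (τ j) j w := by
    intro j hj
    rw [hS, mem_filter] at hj
    rw [hτ]
    simp only
    rw [dif_pos hj.2]
    exact Nat.find_spec hj.2
  have h1 := Exch.count_le T τ S (fun j hj => h _ _ (hτs j hj)) m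
  have h2 : (S.card : ℝ) = ∑ j, ind (∃ s, tkn wt kp z s j w) := by
    rw [hS, card_filter]
    push_cast
    refine Finset.sum_congr rfl fun j _ => ?_
    by_cases h : ∃ s, tkn wt kp z s j w
    · rw [if_pos h, ind_of h]
    · rw [if_neg h, ind_not h]
  have h3 : ∀ i, (((S.filter fun j => τ j ≤ T i).card : ℕ) : ℝ) ≤ nt wt kp z (T i) w := by
    intro i
    unfold nt
    rw [Finset.sum_comm, card_filter]
    push_cast
    calc ∑ j ∈ S, (if τ j ≤ T i then (1 : ℝ) else 0)
        ≤ ∑ j ∈ S, ∑ s ∈ range (T i + 1), ind (tkn wt kp z s j w) := by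
          refine Finset.sum_le_sum fun j hj => ?_
          split_ifs with h5
          · have h6 := Finset.single_le_sum (f := fun s => ind (tkn wt kp z s j w)) (fun s _ => ind_nonneg _)
              (mem_range.2 (show τ j < T i + 1 by omega))
            rw [ind_of (hτs j hj)] at h6
            exact h6
          · exact Finset.sum_nonneg fun _ _ => ind_nonneg _
      _ ≤ ∑ j, ∑ s ∈ range (T i + 1), ind (tkn wt kp z s j w) :=
          Finset.sum_le_sum_of_subset_of_nonneg (Finset.subset_univ S) fun _ _ _ =>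
            Finset.sum_nonneg fun _ _ => ind_nonneg _
  have h4 : (m : ℝ) * S.card ≤ ∑ i, (((S.filter fun j => τ j ≤ T i).card : ℕ) : ℝ) + m * m := by
    exact_mod_cast h1
  rw [← h2]
  refine h4.trans ?_
  have h5 := Finset.sum_le_sum fun i (_ : i ∈ univ) => h3 i
  linarith

/-- **EXCHANGE**: `σc c` = end of the life in the world `c`; the mean number of takings up to the end of the life is `≤ Q`
for every world of the sample of `M + 1` rows -/
theorem exch_tkn [Fintype α] {q : α → ℝ} (hq : ∀ a, 0 ≤ q a) (hq1 : ∑ a, q a = 1) {σc : α → Om → ℕ}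
    (hl : ∀ c s w, wt c s w → s ≤ σc c w) {M : ℕ} {Q : ℝ}
    (hQ : ∀ i : Fin (M + 1), ∑ z : Fin (M + 1) → α, sw q z * P.E (fun w => nt wt kp z (σc (z i) w) w) ≤ Q)
    {m : ℕ} (hm : 0 < m) :
    ∑ x : Fin M → α, sw q x * ∑ c, q c * P.Pr (fun w => ∃ s, wt c s w ∧ ¬ vl wt kp x s w) ≤
      Q / m + m / ((M : ℝ) + 1) := by
  classical
  set X := ∑ x : Fin M → α, sw q x * ∑ c, q c * P.Pr (fun w => ∃ s, wt c s w ∧ ¬ vl wt kp x s w) with hX
  have hm' : (0 : ℝ) < m := by exact_mod_cast hm
  have h1 : ∀ j : Fin (M + 1), X ≤ ∑ z : Fin (M + 1) → α, sw q z * P.E (fun w => ind (∃ s, tkn wt kp z s j w)) := by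
    intro j
    rw [hX, ← sw_split q j (fun c x => P.Pr (fun w => ∃ s, wt c s w ∧ ¬ vl wt kp x s w))]
    refine Finset.sum_le_sum fun z _ => mul_le_mul_of_nonneg_left ?_ (sw_nonneg hq z)
    refine P.Pr_mono fun w _ => ?_
    rintro ⟨s, h2, h3⟩
    obtain ⟨s', _, h4⟩ := want_tkn z j h2 h3
    exact ⟨s', h4⟩
  have h2 : ((M : ℝ) + 1) * X ≤
      ∑ z : Fin (M + 1) → α, sw q z * P.E (fun w => ∑ j, ind (∃ s, tkn wt kp z s j w)) := by
    have h3 := Finset.sum_le_sum fun j (_ : j ∈ (univ : Finset (Fin (M + 1)))) => h1 j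
    rw [Finset.sum_const, Finset.card_univ, Fintype.card_fin, nsmul_eq_mul, Finset.sum_comm] at h3
    push_cast at h3
    refine h3.trans (le_of_eq (Finset.sum_congr rfl fun z _ => ?_))
    rw [FP.E_sum, Finset.mul_sum]
  have h3 : ∀ z : Fin (M + 1) → α, m * P.E (fun w => ∑ j, ind (∃ s, tkn wt kp z s j w)) ≤
      ∑ i, P.E (fun w => nt wt kp z (σc (z i) w) w) + m * m := by
    intro z
    rw [← FP.E_smul, ← FP.E_sum, ← P.E_const ((m : ℝ) * m), ← FP.E_add]
    exact P.E_mono fun w _ => nt_count z (fun i => σc (z i) w) w (fun s i h => hl _ _ _ (tkn_wt h)) m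
  have h4 : m * (((M : ℝ) + 1) * X) ≤ ((M : ℝ) + 1) * Q + m * m := by
    calc m * (((M : ℝ) + 1) * X)
        ≤ m * ∑ z : Fin (M + 1) → α, sw q z * P.E (fun w => ∑ j, ind (∃ s, tkn wt kp z s j w)) :=
          mul_le_mul_of_nonneg_left h2 hm'.le
      _ = ∑ z : Fin (M + 1) → α, sw q z * (m * P.E (fun w => ∑ j, ind (∃ s, tkn wt kp z s j w))) := by
          rw [Finset.mul_sum]
          exact Finset.sum_congr rfl fun z _ => by ring
      _ ≤ ∑ z : Fin (M + 1) → α, sw q z * (∑ i, P.E (fun w => nt wt kp z (σc (z i) w) w) + m * m) :=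
          Finset.sum_le_sum fun z _ => mul_le_mul_of_nonneg_left (h3 z) (sw_nonneg hq z)
      _ = ∑ i : Fin (M + 1), ∑ z : Fin (M + 1) → α, sw q z * P.E (fun w => nt wt kp z (σc (z i) w) w) + m * m := by
          have e1 : ∑ z : Fin (M + 1) → α, sw q z * ((m : ℝ) * m) = m * m := by
            rw [← Finset.sum_mul, sw_sum hq1, one_mul]
          rw [Finset.sum_comm]
          simp only [mul_add, Finset.sum_add_distrib, e1, Finset.mul_sum]
      _ ≤ ((M : ℝ) + 1) * Q + m * m := by
          have h5 := Finset.sum_le_sum fun i (_ : i ∈ (univ : Finset (Fin (M + 1)))) => hQ i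
          rw [Finset.sum_const, Finset.card_univ, Fintype.card_fin, nsmul_eq_mul] at h5
          push_cast at h5
          linarith
  have hM : (0 : ℝ) < (M : ℝ) + 1 := by positivity
  have h5 : X ≤ (((M : ℝ) + 1) * Q + m * m) / (m * ((M : ℝ) + 1)) := by
    rw [le_div_iff₀ (mul_pos hm' hM)]
    calc X * (m * ((M : ℝ) + 1)) = m * (((M : ℝ) + 1) * X) := by ring
      _ ≤ _ := h4
  refine h5.trans (le_of_eq ?_)
  field_simp

/-- the choice `m = ⌈√(M+1)⌉` -/
theorem exch_sqrt [Fintype α] {q : α → ℝ} (hq : ∀ a, 0 ≤ q a) (hq1 : ∑ a, q a = 1) {σc : α → Om → ℕ}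
    (hl : ∀ c s w, wt c s w → s ≤ σc c w) {M : ℕ} {Q : ℝ} (hQ0 : 0 ≤ Q)
    (hQ : ∀ i : Fin (M + 1), ∑ z : Fin (M + 1) → α, sw q z * P.E (fun w => nt wt kp z (σc (z i) w) w) ≤ Q) :
    ∑ x : Fin M → α, sw q x * ∑ c, q c * P.Pr (fun w => ∃ s, wt c s w ∧ ¬ vl wt kp x s w) ≤
      (Q + 2) / √((M : ℝ) + 1) := by
  set N : ℝ := (M : ℝ) + 1 with hN
  have hN1 : (1 : ℝ) ≤ N := by
    have : (0 : ℝ) ≤ M := Nat.cast_nonneg _
    linarith
  have hs : 1 ≤ √N := by rw [Real.one_le_sqrt]; exact hN1
  have hs0 : 0 < √N := by linarith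
  have hm : 0 < ⌈√N⌉₊ := Nat.ceil_pos.mpr hs0
  have h1 := exch_tkn (P := P) hq hq1 hl hQ hm
  have h2 : √N ≤ (⌈√N⌉₊ : ℝ) := Nat.le_ceil _
  have h3 : (⌈√N⌉₊ : ℝ) ≤ 2 * √N := by
    have := Nat.ceil_lt_add_one hs0.le
    linarith
  have h4 : Q / (⌈√N⌉₊ : ℝ) ≤ Q / √N := div_le_div_of_nonneg_left hQ0 hs0 h2
  have h5 : (⌈√N⌉₊ : ℝ) / N ≤ 2 / √N := by
    rw [div_le_div_iff₀ (by linarith) hs0]
    calc (⌈√N⌉₊ : ℝ) * √N ≤ 2 * √N * √N := mul_le_mul_of_nonneg_right h3 hs0.le
      _ = 2 * N := by rw [mul_assoc, Real.mul_self_sqrt (by linarith)]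
  calc _ ≤ Q / (⌈√N⌉₊ : ℝ) + (⌈√N⌉₊ : ℝ) / N := h1
    _ ≤ Q / √N + 2 / √N := add_le_add h4 h5
    _ = _ := by rw [← add_div]

/-- the true row: the last sum of `exch_tkn` is a probability -/
theorem true_row [Fintype α] {ω : Type*} {U : Om → α} {V : Om → ω} (hI : P.Indep U V) (hV : ∀ s, Fac V (cV s))
    (fV : Filt cV) (hw : ∀ c s v w, cV s v = cV s w → (wt c s v ↔ wt c s w))
    (hk : ∀ r c s v w, cV s v = cV s w → (kp r c s v ↔ kp r c s w)) (x : Fin n → α) :
    P.Pr (fun w => ∃ s, wt (U w) s w ∧ ¬ vl wt kp x s w) =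
      ∑ c, P.Pr (fun w => U w = c) * P.Pr (fun w => ∃ s, wt c s w ∧ ¬ vl wt kp x s w) := by
  classical
  have h1 : ∀ c, P.Pr (fun w => U w = c) * P.Pr (fun w => ∃ s, wt c s w ∧ ¬ vl wt kp x s w) =
      P.E (fun w => ind (U w = c) * ind (∃ s, wt c s w ∧ ¬ vl wt kp x s w)) := by
    intro c
    refine (hI _ _ (Fac.ind fun v w h => by rw [h]) (Fac.ind fun v w h => ?_)).symm
    exact exists_congr fun s => and_congr (hw _ _ _ _ (hV s v w h)) (not_congr (vl_iff hw hk fV (hV s v w h)))
  rw [Finset.sum_congr rfl fun c _ => h1 c, ← FP.E_sum]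
  refine P.E_congr fun w _ => ?_
  rw [Finset.sum_eq_single (U w)]
  · rw [ind_of rfl, one_mul]
  · intro b _ hb
    rw [ind_not (fun h => hb h.symm), zero_mul]
  · intro h
    exact absurd (mem_univ _) h

end exch

end

end Pool.Agent.GMH.Vio
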