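import Pool.Agent.GMH.Wk2F
import Pool.Agent.GMH.CtxL
import Pool.Agent.GMH.ConT3

/-!
# GMH.Wk2C: the weak tuples of the region over `Ctx`, with the numbers (helper93)

* `kap_le` : the mass of the weak relations, `kap c ≤ 18 x^(-q_HT)`;
* **`wk2_C`** : for all runs with large `c0`: `∑_q P (wkO) ≤ x^(-K)`, every `K` with `2 K + kB + 40 ≤ q_HT`, `B ≤ x^kB`.
-/

set_option autoImplicit false
set_option linter.unusedSectionVars false
set_option linter.unusedVariables false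

namespace Pool.Agent.GMH.CX

open Finset Pool.Agent.PWZ Pool.Agent.M3 Pool.Agent.GM Pool.Agent.GM.Harm Pool.Agent.GMH Pool.Agent.GMH.NZ
open Pool.Agent.GMH.V3 Pool.Agent.GMH.TP Pool.Agent.GMH.TD Pool.Agent.GMH.Dy Pool.Agent.GMH.CTM Pool.Agent.GMH.KF
open Pool.Agent.GMH.CT (ix Rounds KcB)

noncomputable section

/-- **mass of the weak relations** -/
theorem kap_le {R : Rounds} {Lam : ℝ} (hL : 2 ≤ Lam) {c : KC} (h : KcB R Lam c) : 0 ≤ kap c ∧ kap c ≤ 18 * ix Lam R.HT.q := by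
  have o := R.eta_ord
  have p1 := h.p1 hL
  have p2 := h.p2 hL
  have p3 := h.p3 hL
  have pd := h.pd hL
  have i2 : 1 / c.e2 ≤ pw Lam R.eta2 := by
    rw [one_div, ← CT.inv_ix hL]
    exact inv_anti₀ (CT.ix_pos hL _) h.l2
  have i3 : 1 / c.e3 ≤ pw Lam R.eta3 := by
    rw [one_div, ← CT.inv_ix hL]
    exact inv_anti₀ (CT.ix_pos hL _) h.l3
  have id : 1 / c.dH ≤ pw Lam R.kd := by
    rw [one_div, ← CT.inv_ix hL]
    exact inv_anti₀ (CT.ix_pos hL _) h.ld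
  have id3 : 1 / c.dH ≤ pw Lam R.eta3 := id.trans (CT.pw_mono hL o.1)
  have e3 : R.eta3 = R.kd + R.HT.q := rfl
  have e2 : R.eta2 = R.kd + R.eta3 + R.H.q + 2 := rfl
  have e1 : R.eta1 = R.eta2 + R.G.q + 1 := rfl
  have t1 : c.e1 * (1 / c.e2) ≤ 2 * ix Lam R.HT.q := by
    have h1 : c.e1 * (1 / c.e2) ≤ 2 * ix Lam R.eta1 * pw Lam R.eta2 :=
      mul_le_mul h.u1 i2 (by positivity) (by have := CT.ix_nn hL R.eta1; linarith)
    have h2 : pw Lam R.eta2 * ix Lam R.eta1 ≤ ix Lam R.HT.q := CT.fin hL le_rfl (by omega)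
    linarith
  have t2 : c.e2 * (1 / c.dH) ≤ 2 * ix Lam R.HT.q := by
    have h1 : c.e2 * (1 / c.dH) ≤ 2 * ix Lam R.eta2 * pw Lam R.kd :=
      mul_le_mul h.u2 id (by positivity) (by have := CT.ix_nn hL R.eta2; linarith)
    have h2 : pw Lam R.kd * ix Lam R.eta2 ≤ ix Lam R.HT.q := CT.fin hL le_rfl (by omega)
    linarith
  have t3 : c.e2 * (1 / c.e3) ≤ 2 * ix Lam R.HT.q := by
    have h1 : c.e2 * (1 / c.e3) ≤ 2 * ix Lam R.eta2 * pw Lam R.eta3 :=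
      mul_le_mul h.u2 i3 (by positivity) (by have := CT.ix_nn hL R.eta2; linarith)
    have h2 : pw Lam R.eta3 * ix Lam R.eta2 ≤ ix Lam R.HT.q := CT.fin hL le_rfl (by omega)
    linarith
  have t4 : c.e3 * (1 / c.dH) ≤ 2 * ix Lam R.HT.q := by
    have h1 : c.e3 * (1 / c.dH) ≤ 2 * ix Lam R.eta3 * pw Lam R.kd :=
      mul_le_mul h.u3 id (by positivity) (by have := CT.ix_nn hL R.eta3; linarith)
    have h2 : pw Lam R.kd * ix Lam R.eta3 ≤ ix Lam R.HT.q := CT.fin hL le_rfl (by omega)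
    linarith
  have e : kap c = 2 * (c.e1 * (1 / c.e2)) + 2 * (c.e2 * (1 / c.dH)) + 4 * (c.e2 * (1 / c.e3)) + c.e3 * (1 / c.dH) := by
    unfold kap
    field_simp
    ring
  refine ⟨?_, ?_⟩
  · rw [e]; positivity
  · rw [e]; linarith

/-- **THE WEAK TUPLES OF THE REGION** -/
theorem wk2_C {A : ℕ} (hA : 80 ≤ A) (R : Rounds) (kB K : ℕ) (hK : 2 * K + kB + 40 ≤ R.HT.q) :
    AllC A (fun C => ∀ (c : KC) (r : KF.RC) (A' : Fin 6 → ℕ → C.Q → Prop), KcB R C.Lam c → 0 ≤ c.eF → c.eF ≤ ix C.Lam R.HT.q →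
      c.dH ≤ 1 / 2 → 2 ≤ r.B → r.B ≤ pw C.Lam kB → 
      (∀ s t u, t < C.T → (s = 1 ∨ s = 5) → A' s t u → Ar C.h C.v C.p (2 * t + 1) u) →
      ∑ q ∈ range (5 * C.T), C.tb.Ps.Pr (TRF.wkO C.h C.tb C.v c r A' q) ≤ ix C.Lam K) := by
  have ev := (CT.exp_N1 hA (2 * K + 22)).and ((CT.exp_nj A (K + 8)).and (CT.Ev.ge (2 * K + 3 * A + 40)))
  refine (AllC.and (AllC.of_Ev (P := fun c0 Lam => _) ev.ex) (AllC.all (P := fun C => C.A = A) fun C hC => hC)).mono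
    fun C hC => ?_
  obtain ⟨⟨n1, n2, n3⟩, hCA⟩ := hC
  intro c r A' hc hF0 hF hdH hB2 hB hA'
  have hL := C.hL
  have hL0 : (0 : ℝ) < C.Lam := by linarith
  obtain ⟨k0, k1⟩ := kap_le hL hc
  have hB0 : 0 ≤ r.B := by linarith
  have g0 : 0 ≤ kap c + 2 * c.eF := by linarith
  set q0 := ix C.Lam (2 * (K + 10)) with hq0
  have q0p : 0 < q0 := CT.ix_pos hL _
  have lal := C.log_al
  have nn : C.n = pw C.Lam C.c0 := rfl
  have nN : C.N1 = pw C.Lam (c1F A C.c0) := by unfold Ctx.N1; rw [hCA]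
  have n0 : 0 < C.n := by rw [nn]; exact CT.pw_pos hL _
  -- the condition
  have c1 : 4 * Real.log (1 / C.al) / C.n ≤ ix C.Lam (2 * (K + 10) + 1) := by
    rw [div_eq_mul_inv, nn]
    have h1 : 4 * Real.log (1 / C.al) * (pw C.Lam C.c0)⁻¹ ≤ 4 * C.Lam * ix C.Lam C.c0 :=
      mul_le_mul_of_nonneg_right (by linarith) (CT.ix_nn hL _)
    exact h1.trans (CT.fin hL (CT.cLam hL 1 (c := 4) (by norm_num)) (by omega))
  have c2 : 2 * (r.B * (kap c + 2 * c.eF)) ≤ ix C.Lam (2 * (K + 10) + 1) := by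
    have h1 : kap c + 2 * c.eF ≤ 20 * ix C.Lam R.HT.q := by linarith
    have h2 : r.B * (kap c + 2 * c.eF) ≤ pw C.Lam kB * (20 * ix C.Lam R.HT.q) :=
      mul_le_mul hB h1 g0 (CT.pw_pos hL _).le
    have h3 := CT.fin2 hL (CT.pw_pos hL kB).le (CT.cst hL 3 (c := 40) (by norm_num)) (le_refl (pw C.Lam kB)) (k := R.HT.q)
      (s := 2 * (K + 10) + 1) (by omega)
    linarith
  have c3 : 2 * ix C.Lam (2 * (K + 10) + 1) ≤ q0 / 2 := by
    have h1 := CT.cst_ix hL (c := 4) (j := 1) (s := 2 * (K + 10)) (by norm_num)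
    rw [add_comm 1] at h1
    linarith
  have hs := TRF.Wk2F.wk2_sum C.tb C.n1 C.N11 C.H C.R (p := C.p) hA' hB0 (mul_nonneg hB0 g0) (hc.p2 hL) (hc.p3 hL) (hc.pd hL)
    hdH (qq := q0) q0p (by linarith) (e := 1) one_pos le_rfl (by linarith)
  refine hs.trans ?_
  -- the three terms
  have a1 : Real.sqrt (2 * q0) ≤ 2 * ix C.Lam (K + 10) := by
    rw [Real.sqrt_mul (by norm_num), hq0, CT.sqrt_ix hL]
    have h1 : Real.sqrt 2 ≤ 2 := by
      rw [Real.sqrt_le_left (by norm_num)]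
      norm_num
    exact mul_le_mul_of_nonneg_right h1 (CT.ix_nn hL _)
  have a2 : Real.exp C.p.X1 / C.al * Real.exp (1 - C.n * C.N1 * q0 / 4) ≤ ix C.Lam (K + 10) := by
    have e1 : C.p.X1 = 3 * pw C.Lam (cXF A C.c0) := by
      unfold Ctx.p
      rw [hCA]
      rfl
    have e2 : Real.exp C.p.X1 / C.al * Real.exp (1 - C.n * C.N1 * q0 / 4) =
        Real.exp ((C.p.X1 + Real.log (1 / C.al) + 1) - C.n * C.N1 * q0 / 4) := by
      have h1 : Real.exp (Real.log (1 / C.al)) = 1 / C.al := Real.exp_log (one_div_pos.2 C.h.pos)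
      rw [div_eq_mul_inv, ← one_div, ← h1, ← Real.exp_add, ← Real.exp_add, h1]
      congr 1
      ring
    rw [e2]
    have x1 : pw C.Lam (cXF A C.c0) ≤ pw C.Lam (4 * C.c0) := CT.X0_le hL (by omega)
    have x2 : pw C.Lam (4 * C.c0) ≤ pw C.Lam (12 * C.c0 - 3) := CT.pw_mono hL (by omega)
    have x3 : C.Lam + 1 ≤ pw C.Lam (12 * C.c0 - 3) := by
      have h1 : pw C.Lam 1 ≤ pw C.Lam (12 * C.c0 - 3) := CT.pw_mono hL (by omega)
      rw [CT.pw_one'] at h1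
      linarith
    have x4 : 4 * pw C.Lam (12 * C.c0 - 3) ≤ pw C.Lam (12 * C.c0) := by
      have h1 := CT.mul_pw hL (CT.pw_pos hL (12 * C.c0 - 3)).le (CT.cst hL 1 (c := 4) (by norm_num))
        (le_refl (pw C.Lam (12 * C.c0 - 3)))
      exact h1.trans (CT.pw_mono hL (by omega))
    have x5 := CT.pw_pos hL (12 * C.c0 - 3)
    have hY : C.p.X1 + Real.log (1 / C.al) + 1 ≤ pw C.Lam (12 * C.c0) + pw C.Lam (cXF A C.c0) := by
      rw [e1]; linarith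
    have hy : pw C.Lam (c1F A C.c0) * ix C.Lam (2 * K + 22) ≤ C.n * C.N1 * q0 / 4 := by
      rw [nn, nN, hq0]
      have y1 : ix C.Lam (2 * K + 22) ≤ ix C.Lam (2 * (K + 10)) := CT.ix_anti hL (by omega)
      have y2 : (4 : ℝ) ≤ pw C.Lam C.c0 := by
        have h1 : pw C.Lam 1 ≤ pw C.Lam C.c0 := CT.pw_mono hL (by omega)
        rw [CT.pw_one'] at h1
        linarith
      have y3 := CT.pw_pos hL (c1F A C.c0)
      have y4 := CT.ix_pos hL (2 * (K + 10))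
      have y5 : pw C.Lam (c1F A C.c0) * ix C.Lam (2 * K + 22) ≤ pw C.Lam (c1F A C.c0) * ix C.Lam (2 * (K + 10)) :=
        mul_le_mul_of_nonneg_left y1 y3.le
      have y6 := mul_le_mul_of_nonneg_right y2 (mul_pos y3 y4).le
      linarith
    refine (n1 _ _ hY hy).trans ?_
    have z1 : Real.exp (-(pw C.Lam (16 * C.c0))) ≤ Real.exp (-(pw C.Lam C.c0)) :=
      Real.exp_le_exp.2 (neg_le_neg (CT.pw_mono hL (by omega)))
    refine z1.trans (n2.trans (CT.ix_anti hL ?_))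
    have : 2 ≤ c1F A C.c0 + C.c0 + 1 := by omega
    nlinarith
  have a3 : C.Lam ≤ pw C.Lam 1 := CT.Lam_le hL
  have a4 : 2 * (Real.sqrt (2 * q0) + Real.exp C.p.X1 / C.al * Real.exp (1 - C.n * C.N1 * q0 / 4)) * (720 * C.Lam / 1 ^ 2) ≤
      ix C.Lam (K + 1) := by
    have h1 : 2 * (Real.sqrt (2 * q0) + Real.exp C.p.X1 / C.al * Real.exp (1 - C.n * C.N1 * q0 / 4)) ≤
        6 * ix C.Lam (K + 10) := by linarith
    have h2 := mul_le_mul_of_nonneg_right h1 (show 0 ≤ 720 * C.Lam / 1 ^ 2 by positivity)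
    refine h2.trans ?_
    have h3 := CT.fin hL (CT.cLam hL 7 (c := 4320) (by norm_num)) (k := K + 10) (s := K + 1) (by omega)
    refine le_trans (le_of_eq ?_) h3
    ring
  have a5 : 2 * (C.D.P C.h C.T).Pr (fun w => ¬ Ar C.h C.v C.p (2 * C.T) w) ≤ ix C.Lam (K + 1) := by
    have h1 : (C.D.P C.h C.T).Pr (fun w => ¬ Ar C.h C.v C.p (2 * C.T) w) ≤ ix C.Lam (C.c0 + C.A) := C.hd
    have h2 := CT.fin hL (CT.cst hL 1 (c := 2) (by norm_num)) (k := C.c0 + C.A) (s := K + 1) (by omega)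
    linarith
  exact CT.add_ix hL a4 a5

end

end Pool.Agent.GMH.CX
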