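import Pool.Agent.GMH.Wk2S

/-!
# GMH.Wk2T: the weak row for the old tops (helper7; WK2 of helper65, steps S1, S2, in the form of helper93)

`X1`, `X2` = (old) tops which see `b`, `Yl` = (old) far top, known on the support; `Ar w f` = a row read from
`X1`, `X2` and the thin letters, of mass at most `kk` in the law of `Yl` given what the far face sees below.
* **`wk_clsD`** : one event `V` of the exact vertex; **`wk_rareD`** : the points of large conditional probability are rare.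
-/

set_option autoImplicit false
set_option linter.unusedSectionVars false
set_option linter.unusedVariables false

namespace Pool.Agent.GMH

open Finset Pool.Agent.PWZ Pool.Agent.M3 Pool.Agent.GM Pool.Agent.GM.Harm

section bit

variable {K X β γ φ υ : Type} [Fintype K] [DecidableEq K] [Fintype X] [Fintype β] [Fintype φ] [Nonempty X] [Nonempty β]
  {D : HD K X β γ φ} {al : ℝ} {h : D.Thick al} {N : Finset K → ℝ} {S : Finset (Finset K)}
  {U : Finset K → X → (K → β) → υ} {t : ℕ} {b c d : K} {w0 : Pt K X β φ} {V : Pt K X β φ → Prop}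

/-- **one event** (maps known everywhere) -/
theorem wk_old0 (B : Bk h N S U t b c d) (I : Ib h U t b w0 V) {τ τ' ρ : Type} {X1 : Pt K X β φ → τ}
    (hX1 : Fac (fun w : Pt K X β φ => (w.2.2 d, Wf D U t w)) X1) {X2 : Pt K X β φ → τ'}
    (hX2 : Fac (fun w : Pt K X β φ => (w.2.2 c, Wf D U t w)) X2) {Yl : Pt K X β φ → ρ}
    (hYl : Fac (fun w : Pt K X β φ => (w.2.2 b, Zf D U t b w)) Yl) {Ar : Pt K X β φ → ρ → Prop}
    (hAr : ∀ f v w, (D.P h t).p v ≠ 0 → (D.P h t).p w ≠ 0 → X1 v = X1 w → X2 v = X2 w → Wf D U t v = Wf D U t w →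
      (Ar v f ↔ Ar w f)) {kk : ℝ} (hk0 : 0 ≤ kk)
    (hk : ∀ w, (D.P h t).p w ≠ 0 → V w →
      ∑ f ∈ vals Yl, (D.P h t).pv (Zf D U t b) Yl w f * ind (Ar w f) ≤ kk) :
    ((D.P h t).cond V).Pr (fun w => Ar w (Yl w)) ≤
      (2 * N ∅ * (Lb h U t b w0 V + 1) + 2 * ((N {c} + N {d}) * Real.log (1 / al))) / N (univ.erase b) + 2 * kk := by
  classical
  have hw0 := I.supp
  set Q := (D.P h t).cond V with hQ
  have hV0 : (D.P h t).Pr V ≠ 0 := I.ne
  have hac : Q.Ac (QB h U t b w0) := I.acB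
  have hsup : ∀ v, Q.p v ≠ 0 → V v ∧ (D.P h t).p v ≠ 0 := fun v hv => cond_supp hV0 hv
  obtain ⟨R, r1, r2⟩ := ext_fac (P := Q) (W := fun w => ((X1 w, X2 w), Wf D U t w)) (g := Ar) (fun v w hv hw hvw => by
    rw [Prod.mk.injEq, Prod.mk.injEq] at hvw
    funext f
    exact propext (hAr f v w (hsup v hv).2 (hsup w hw).2 hvw.1.1 hvw.1.2 hvw.2))
  -- fibres
  have hfB : ∀ v w, (QB h U t b w0).p v ≠ 0 → (QB h U t b w0).p w ≠ 0 →
      ((zf U c v, zf U d v) = (zf U c w, zf U d w) ↔ Zf D U t b v = Zf D U t b w) := by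
    intro v w hv hw
    have xv := QB_supp hw0 hv
    have xw := QB_supp hw0 hw
    have h1 : le (LL U) ∅ v = le (LL U) ∅ w := xv.1.trans xw.1.symm
    rw [Zf_iff B h1 (xc_pub xv xw).1, Prod.mk.injEq (zf U c v)]
  have hfW : ∀ v w, V v → V w → (Zf D U t b v = Zf D U t b w ↔ Wf D U t v = Wf D U t w) := by
    intro v w hv' hw'
    have hv := I.sub v hv'
    have hw := I.sub w hw'
    have h1 : (le (LL U) ∅ v, BB D t ∅ v) = (le (LL U) ∅ w, BB D t ∅ w) :=
      (show (le (LL U) ∅ v, BB D t ∅ v) = (le (LL U) ∅ w0, BB D t ∅ w0) from hv.1).trans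
        (show (le (LL U) ∅ w, BB D t ∅ w) = (le (LL U) ∅ w0, BB D t ∅ w0) from hw.1).symm
    have h2 := Prod.mk.inj h1
    rw [Zf_iff B h2.1 h2.2]
    unfold Wf
    rw [Prod.mk.injEq (le (LL U) ∅ v, BB D t ∅ v)]
    constructor
    · intro hh
      refine ⟨h1, funext fun j => ?_⟩
      rcases B.all j with h7 | h7 | h7
      · rw [h7]
        unfold zf
        rw [hv.2.1, hv.2.2, hw.2.1, hw.2.2]
      · rw [h7]; exact hh.1
      · rw [h7]; exact hh.2
    · intro hh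
      exact ⟨congrFun hh.2 c, congrFun hh.2 d⟩
  have h1 := wk_row (Q := Q) (P := QB h U t b w0) hac (Y := Yl) (W := fun w => ((X1 w, X2 w), Wf D U t w))
    (Z := Zf D U t b) ((Fac.snd (fun w => (X1 w, X2 w)) (Wf D U t)).trans (Wf_Zf B)) (R := R)
    (fun f => r1.comp fun g => g f) hk0 (fun w hw => by
      obtain ⟨hVw, hp⟩ := hsup w hw
      rw [r2 w hw]
      refine le_trans (le_of_eq (Finset.sum_congr rfl fun f _ => ?_)) (hk w hp hVw)
      rw [pv_own B hYl hp, I.QB_mv hVw])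
  have e0 : Q.Pr (fun w => R w (Yl w)) = Q.Pr (fun w => Ar w (Yl w)) := Q.E_congr fun w hw => by
    show ind (R w (Yl w)) = ind (Ar w (Yl w))
    rw [r2 w hw]
  rw [e0] at h1
  have e1 : Q.klc (QB h U t b w0) Yl (Zf D U t b) ≤
      Q.klc (QB h U t b w0) (fun w => w.2.2 b) (fun w => (zf U c w, zf U d w)) := by
    rw [klc_congr_supp hac (L := fun w : Pt K X β φ => w.2.2 b) (L' := fun w : Pt K X β φ => w.2.2 b)
      (Z := fun w => (zf U c w, zf U d w)) (Z' := Zf D U t b) hfB (fun _ _ _ _ _ => Iff.rfl)]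
    exact klc_mono hac hYl
  have e2 : Q.I Yl (fun w => ((X1 w, X2 w), Wf D U t w)) (Zf D U t b) ≤
      Q.I (fun w => w.2.2 b) (fun w => (w.2.2 d, w.2.2 c)) (fun w => (zf U c w, zf U d w)) := by
    rw [I_supp (P := Q) (X1 := fun w : Pt K X β φ => w.2.2 b) (X2 := fun w : Pt K X β φ => w.2.2 b)
      (Y1 := fun w : Pt K X β φ => (w.2.2 d, w.2.2 c)) (Y2 := fun w : Pt K X β φ => (w.2.2 d, w.2.2 c))
      (Z1 := fun w => (zf U c w, zf U d w)) (Z2 := Wf D U t) (fun _ _ _ _ => Iff.rfl) (fun _ _ _ _ => Iff.rfl)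
      (fun v w hv hw => (hfB v w (hac v hv) (hac w hw)).trans (hfW v w (hsup v hv).1 (hsup w hw).1)),
      I_supp (P := Q) (X1 := Yl) (X2 := Yl) (Y1 := fun w => ((X1 w, X2 w), Wf D U t w))
      (Y2 := fun w => ((X1 w, X2 w), Wf D U t w))
      (Z1 := Zf D U t b) (Z2 := Wf D U t) (fun _ _ _ _ => Iff.rfl) (fun _ _ _ _ => Iff.rfl)
      (fun v w hv hw => hfW v w (hsup v hv).1 (hsup w hw).1)]
    refine le_trans (FP.I_mono _ (X := fun w : Pt K X β φ => w.2.2 b) (X' := Yl) _ fun v w hvw => ?_) ?_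
    · rw [Prod.mk.injEq] at hvw
      exact hYl v w (Prod.ext hvw.1 (Wf_Zf B v w hvw.2))
    · rw [FP.I_comm, FP.I_comm _ (fun w : Pt K X β φ => w.2.2 b)]
      refine FP.I_mono _ (X := fun w : Pt K X β φ => (w.2.2 d, w.2.2 c))
        (X' := fun w => ((X1 w, X2 w), Wf D U t w)) _ fun v w hvw => ?_
      rw [Prod.mk.injEq, Prod.mk.injEq (v.2.2 d)] at hvw
      obtain ⟨⟨h3, h4⟩, h5⟩ := hvw
      exact Prod.ext (Prod.ext (hX1 v w (Prod.ext h3 h5)) (hX2 v w (Prod.ext h4 h5))) h5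
  have hN := B.n2 b
  have h2 := face_far B I
  rw [mul_comm, ← le_div_iff₀ hN] at h2
  linarith

/-- **one event** (maps known on the support) -/
theorem wk_clsD (B : Bk h N S U t b c d) (I : Ib h U t b w0 V) {τ τ' ρ : Type} {X1 : Pt K X β φ → τ}
    (hX1 : ∀ v w, (D.P h t).p v ≠ 0 → (D.P h t).p w ≠ 0 → v.2.2 d = w.2.2 d → Wf D U t v = Wf D U t w → X1 v = X1 w)
    {X2 : Pt K X β φ → τ'}
    (hX2 : ∀ v w, (D.P h t).p v ≠ 0 → (D.P h t).p w ≠ 0 → v.2.2 c = w.2.2 c → Wf D U t v = Wf D U t w → X2 v = X2 w)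
    {Yl : Pt K X β φ → ρ} (hYl : ∀ v w, (D.P h t).p v ≠ 0 → (D.P h t).p w ≠ 0 → v.2.2 b = w.2.2 b →
      Zf D U t b v = Zf D U t b w → Yl v = Yl w) {Ar : Pt K X β φ → ρ → Prop}
    (hAr : ∀ f v w, (D.P h t).p v ≠ 0 → (D.P h t).p w ≠ 0 → X1 v = X1 w → X2 v = X2 w → Wf D U t v = Wf D U t w →
      (Ar v f ↔ Ar w f)) {kk : ℝ} (hk0 : 0 ≤ kk)
    (hk : ∀ w, (D.P h t).p w ≠ 0 → V w →
      ∑ f ∈ vals Yl, (D.P h t).pv (Zf D U t b) Yl w f * ind (Ar w f) ≤ kk) :
    ((D.P h t).cond V).Pr (fun w => Ar w (Yl w)) ≤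
      (2 * N ∅ * (Lb h U t b w0 V + 1) + 2 * ((N {c} + N {d}) * Real.log (1 / al))) / N (univ.erase b) + 2 * kk := by
  classical
  obtain ⟨X', x1, x2⟩ := ext_fac (P := D.P h t) (W := fun w : Pt K X β φ => (w.2.2 d, Wf D U t w)) (g := X1)
    (fun v w hv hw hvw => hX1 v w hv hw (congrArg Prod.fst hvw) (congrArg Prod.snd hvw))
  obtain ⟨X'', x3, x4⟩ := ext_fac (P := D.P h t) (W := fun w : Pt K X β φ => (w.2.2 c, Wf D U t w)) (g := X2)
    (fun v w hv hw hvw => hX2 v w hv hw (congrArg Prod.fst hvw) (congrArg Prod.snd hvw))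
  obtain ⟨Y', y1, y2⟩ := ext_fac (P := D.P h t) (W := fun w : Pt K X β φ => (w.2.2 b, Zf D U t b w)) (g := Yl)
    (fun v w hv hw hvw => hYl v w hv hw (congrArg Prod.fst hvw) (congrArg Prod.snd hvw))
  have hpv : ∀ w, (D.P h t).p w ≠ 0 → ∀ f, (D.P h t).pv (Zf D U t b) Y' w f = (D.P h t).pv (Zf D U t b) Yl w f :=
    fun w _ f => pv_supp (fun _ _ => Iff.rfl) (fun v hv => y2 v hv) f
  have k := wk_old0 B I x1 x3 y1 (Ar := Ar) (fun f v w hv hw hx hx' hW => hAr f v w hv hw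
    (by rw [← x2 v hv, ← x2 w hw]; exact hx) (by rw [← x4 v hv, ← x4 w hw]; exact hx') hW) (kk := kk) hk0
    (fun w hw hVw => by
      refine le_trans (le_of_eq ?_) (hk w hw hVw)
      have h1 : ∀ (T : Finset ρ) (Y : Pt K X β φ → ρ), vals Y ⊆ T →
          ∑ f ∈ vals Y, (D.P h t).pv (Zf D U t b) Y w f * ind (Ar w f) =
            ∑ f ∈ T, (D.P h t).pv (Zf D U t b) Y w f * ind (Ar w f) := by
        intro T Y hT
        refine Finset.sum_subset hT fun f _ hf => ?_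
        have h2 : (D.P h t).pv (Zf D U t b) Y w f = 0 := by
          have h3 : (D.P h t).E (fun v => ind (Zf D U t b v = Zf D U t b w) * ind (Y v = f)) = 0 := by
            rw [← (D.P h t).E_const 0]
            refine (D.P h t).E_congr fun v _ => ?_
            rw [ind_not (p := Y v = f), mul_zero]
            intro hh
            exact hf (hh ▸ FP.mem_vals Y v)
          rw [pv_num, h3, zero_div]
        rw [h2, zero_mul]
      rw [h1 (vals Y' ∪ vals Yl) Y' Finset.subset_union_left, h1 (vals Y' ∪ vals Yl) Yl Finset.subset_union_right]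
      exact Finset.sum_congr rfl fun f _ => by rw [hpv w hw f])
  refine le_trans (le_of_eq ?_) k
  exact FP.E_congr _ fun w hw => by
    show ind (Ar w (Yl w)) = ind (Ar w (Y' w))
    rw [y2 w (cond_supp I.ne hw).2]

/-- **THE WEAK ROW IS RARE** (maps known on the support) -/
theorem wk_rareD (B : Bk h N S U t b c d) (hN0 : 0 < N ∅) (hw0 : (D.P h t).p w0 ≠ 0) {τ τ' ρ : Type}
    {X1 : Pt K X β φ → τ}
    (hX1 : ∀ v w, (D.P h t).p v ≠ 0 → (D.P h t).p w ≠ 0 → v.2.2 d = w.2.2 d → Wf D U t v = Wf D U t w → X1 v = X1 w)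
    {X2 : Pt K X β φ → τ'}
    (hX2 : ∀ v w, (D.P h t).p v ≠ 0 → (D.P h t).p w ≠ 0 → v.2.2 c = w.2.2 c → Wf D U t v = Wf D U t w → X2 v = X2 w)
    {Yl : Pt K X β φ → ρ} (hYl : ∀ v w, (D.P h t).p v ≠ 0 → (D.P h t).p w ≠ 0 → v.2.2 b = w.2.2 b →
      Zf D U t b v = Zf D U t b w → Yl v = Yl w) {Ar : Pt K X β φ → ρ → Prop}
    (hAr : ∀ f v w, (D.P h t).p v ≠ 0 → (D.P h t).p w ≠ 0 → X1 v = X1 w → X2 v = X2 w → Wf D U t v = Wf D U t w →
      (Ar v f ↔ Ar w f)) {kk q : ℝ} (hk0 : 0 ≤ kk)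
    (hk : ∀ w, (D.P h t).p w ≠ 0 → clsb U (pub0 D t U w0) b w0 w →
      ∑ f ∈ vals Yl, (D.P h t).pv (Zf D U t b) Yl w f * ind (Ar w f) ≤ kk)
    (hq : 2 * ((N {c} + N {d}) * Real.log (1 / al)) / N (univ.erase b) + 2 * kk ≤ q / 2) :
    (QB h U t b w0).Pr (fun v => clsb U (pub0 D t U w0) b w0 v ∧
      q < (D.P h t).ce (Ah D t {b}) (fun u => ind (Ar u (Yl u))) v) ≤
      Real.exp (1 - N (univ.erase b) * q / (4 * N ∅)) := by
  classical
  set E : Pt K X β φ → Prop := fun w => clsb U (pub0 D t U w0) b w0 w ∧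
      q < (D.P h t).ce (Ah D t {b}) (fun v => ind (Ar v (Yl v))) w with hE
  by_cases h0 : (QB h U t b w0).Pr E = 0
  · rw [h0]
    exact (Real.exp_pos _).le
  obtain ⟨w1, hw1, hE1⟩ : ∃ w1, (QB h U t b w0).p w1 ≠ 0 ∧ E w1 := by
    by_contra hh
    push Not at hh
    refine h0 ?_
    have h1 : (QB h U t b w0).Pr E = (QB h U t b w0).E (fun _ => 0) :=
      (QB h U t b w0).E_congr fun w hw => ind_not (hh w hw)
    rw [h1, FP.E_const]
  have hs1 : (D.P h t).p w1 ≠ 0 := (cond_supp (xc_ne hw0) hw1).2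
  have hx1 : xc D U t {b} w0 w1 := QB_supp hw0 hw1
  have hfac : Fac (Ah D t {b}) E := by
    intro v w hvw
    have e1 := clsb_Ah (b := b) (w0 := w0) B.dep (pub0_C (D := D) (U := U) (t := t) w0) B.oth v w hvw
    have e2 := (D.P h t).ce_fac (Ah D t {b}) (fun v => ind (Ar v (Yl v))) v w hvw
    show (_ ∧ _) = (_ ∧ _)
    rw [e1, e2]
  have hp1 : pub0 D t U w1 = pub0 D t U w0 := pub0_eq hE1.1.1
  have I : Ib h U t b w1 E :=
    { fac := hfac
      self := hE1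
      supp := hs1
      sub := fun v hv => by
        refine ⟨?_, hv.1.2.1.trans hE1.1.2.1.symm, hv.1.2.2.trans hE1.1.2.2.symm⟩
        rw [hp1]
        exact hv.1.1 }
  have hQ : QB h U t b w1 = QB h U t b w0 := by
    unfold QB
    have e : xc D U t {b} w1 = xc D U t {b} w0 := by
      funext v
      show (le (LL U) ∅ v = le (LL U) ∅ w1 ∧ BB D t {b} v = BB D t {b} w1) =
        (le (LL U) ∅ v = le (LL U) ∅ w0 ∧ BB D t {b} v = BB D t {b} w0)
      rw [hx1.1, hx1.2]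
    rw [e]
  have h2 := wk_clsD B I hX1 hX2 hYl hAr hk0 (fun w hw hEw => hk w hw hEw.1)
  have h3 : q ≤ ((D.P h t).cond E).Pr (fun w => Ar w (Yl w)) :=
    cond_ce_ge (D.P h t) I.ne hfac fun w _ hw => hw.2.le
  have hN := B.n2 b
  have h4 : N (univ.erase b) * q / (4 * N ∅) ≤ Lb h U t b w1 E + 1 := by
    rw [div_le_iff₀ (by positivity)]
    have h5 := h3.trans h2
    rw [add_div] at h5
    have h6 : q / 2 ≤ 2 * N ∅ * (Lb h U t b w1 E + 1) / N (univ.erase b) := by linarith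
    rw [le_div_iff₀ hN] at h6
    linarith
  have h5 : (QB h U t b w0).Pr E = Real.exp (- Lb h U t b w1 E) := by
    unfold Lb
    rw [hQ, one_div, Real.log_inv, neg_neg, Real.exp_log]
    exact lt_of_le_of_ne ((QB h U t b w0).Pr_nonneg _) (Ne.symm h0)
  rw [h5]
  exact Real.exp_le_exp.2 (by linarith)

end bit

end Pool.Agent.GMH
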