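import Pool.Agent.GMH.RowD
import Pool.Agent.GMH.Wk2T
import Pool.Agent.GMH.Bef
import Pool.Agent.GMH.HLaw

/-!
# GMH.Wk2E: the weak row at the far face, (S3) and (S4) of helper65's WK2 (helper93)

`b` = common exact vertex of the two strong tops `F_c` (sees `b`, `d`) and `F_d` (sees `b`, `c`), `F_b` = weak top.
* `face_ci` : given (hidden point, exact `b`, node) the two faces which see `b` are independent;
* **`rare_al`** (S3) : an event of (hidden point, exact `b`) of probability `dl` in the class of the exact `b` has probability at most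
  `e^X1/al dl` given the two letters, the two points and the label of `F_d`;
* **`wk2_at`** : (S3) and (S4), one time.
-/

set_option autoImplicit false
set_option linter.unusedSectionVars false
set_option linter.unusedVariables false

namespace Pool.Agent.GMH

open Finset Pool.Agent.PWZ Pool.Agent.M3 Pool.Agent.GM Pool.Agent.GM.Harm

section st

variable {K X β γ φ υ : Type} [Fintype K] [DecidableEq K] [Fintype X] [Fintype β] [Fintype φ] [Nonempty X] [Nonempty β]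
  {D : HD K X β γ φ} {al : ℝ} {h : D.Thick al} {N : Finset K → ℝ} {S : Finset (Finset K)}
  {U : Finset K → X → (K → β) → υ} {t : ℕ} {b c d : K} {w0 : Pt K X β φ}

theorem ce_one {Om κ : Type*} [Fintype Om] {Q : FP Om} {Z : Om → κ} {w : Om} (hw : ∀ v, Q.p v ≠ 0 → Z v = Z w)
    (g : Om → ℝ) : Q.ce Z g w = Q.E g := by
  unfold FP.ce
  have e1 : Q.E (fun v => ind (Z v = Z w) * g v) = Q.E g :=
    Q.E_congr fun v hv => by rw [ind_of (hw v hv), one_mul]
  have e2 : Q.m Z w = 1 := by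
    unfold FP.m
    rw [Q.E_congr (g := fun _ => (1 : ℝ)) fun v hv => ind_of (hw v hv), FP.E_const]
  rw [e1, e2, div_one]

/-- **the two faces which see `b` are independent** given (hidden point, exact `b`, node) -/
theorem face_ci (B : Bk h N S U t b c d) {f g : Pt K X β φ → ℝ} (hf : Fac (fun w => (w.1, BB D t {b, d} w, w.2.2 c)) f)
    (hg : Fac (fun w => (w.1, BB D t {b, c} w, w.2.2 d)) g) {w0 : Pt K X β φ} (hw0 : (D.P h t).p w0 ≠ 0) :
    (D.P h t).ce (Ah D t {b}) (fun u => f u * g u) w0 =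
      (D.P h t).ce (Ah D t {b}) f w0 * (D.P h t).ce (Ah D t {b}) g w0 := by
  classical
  set P := D.P h t with hP
  set V : Pt K X β φ → Prop := fun v => Ah D t {b} v = Ah D t {b} w0 with hVdef
  have hV : Fac (Ah D t {b}) V := fun v w hvw => by
    show (Ah D t {b} v = Ah D t {b} w0) = (Ah D t {b} w = Ah D t {b} w0)
    rw [hvw]
  have hV1 : ∀ v w, V v → V w → BB D t {b} v = BB D t {b} w := fun v w hv hw => congrArg Prod.snd (hv.trans hw.symm)
  have hV0 : P.Pr V ≠ 0 := (FP.Pr_pos_of (S := V) hw0 rfl).ne'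
  have hbb : ∀ v, V v → v.1 = w0.1 ∧ v.2.1 b = w0.2.1 b ∧ ∀ j, D.qb t (v.2.1 j) = D.qb t (w0.2.1 j) := by
    intro v hv
    have h1 := (Prod.mk.inj hv)
    have h2 := BB_eq.1 h1.2
    exact ⟨h1.1, h2.1 b (Finset.mem_singleton_self b), h2.2.2⟩
  -- the functions of one face, read in the class
  have key : ∀ {e l : K} {f : Pt K X β φ → ℝ}, e ≠ b → Fac (fun w => (w.1, BB D t {b, e} w, w.2.2 l)) f →
      ∀ v, V v → f v = f (v.1, (fun j => if j = e then v.2.1 e else w0.2.1 j), fun _ => v.2.2 l) := by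
    intro e l f he hf v hv
    obtain ⟨a1, a2, a3⟩ := hbb v hv
    refine hf _ _ ?_
    show (v.1, BB D t {b, e} v, v.2.2 l) = (v.1, BB D t {b, e}
      (v.1, (fun j => if j = e then v.2.1 e else w0.2.1 j), fun _ => v.2.2 l), v.2.2 l)
    refine Prod.ext rfl (Prod.ext ?_ rfl)
    show BB D t {b, e} v = BB D t {b, e} (v.1, (fun j => if j = e then v.2.1 e else w0.2.1 j), fun _ => v.2.2 l)
    rw [BB_eq]
    refine ⟨fun j hj => ?_, rfl, fun j => ?_⟩
    · show v.2.1 j = if j = e then v.2.1 e else w0.2.1 j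
      by_cases hje : j = e
      · rw [if_pos hje, hje]
      · rw [if_neg hje]
        rcases Finset.mem_insert.1 hj with hj' | hj'
        · rw [hj']; exact a2
        · exact absurd (Finset.mem_singleton.1 hj') hje
    · show D.qb t (v.2.1 j) = D.qb t (if j = e then v.2.1 e else w0.2.1 j)
      by_cases hje : j = e
      · rw [if_pos hje, hje]
      · rw [if_neg hje]; exact a3 j
  set F : X → β → φ → ℝ := fun x y G => f (x, (fun j => if j = d then y else w0.2.1 j), fun _ => G) with hF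
  set G' : X → β → φ → ℝ := fun x y G => g (x, (fun j => if j = c then y else w0.2.1 j), fun _ => G) with hG'
  have eF : ∀ v, V v → f v = F v.1 (v.2.1 d) (v.2.2 c) := key B.bd.symm hf
  have eG : ∀ v, V v → g v = G' v.1 (v.2.1 c) (v.2.2 d) := key B.bc.symm hg
  have hsup : ∀ v, (P.cond V).p v ≠ 0 → V v := fun v hv => (cond_supp hV0 hv).1
  have e : ∀ f : Pt K X β φ → ℝ, P.ce (Ah D t {b}) f w0 = (P.cond V).E f := fun f => P.ce_eq_cond _ _ hw0
  have k := row_indep (h := h) hV hV1 (w0 := w0) rfl hV0 (c := c) (d := d) B.cd (fun j h1 h2 => by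
    rw [Finset.mem_singleton]
    rcases B.all j with h3 | h3 | h3
    · exact h3
    · exact absurd h3 h1
    · exact absurd h3 h2) F G' (fun a b => a * b)
  have k2 : (P.cond V).E (fun w => (P.cond V).ce (Ah D t {b}) (fun u => F w.1 (w.2.1 d) (w.2.2 c) * G' u.1 (u.2.1 c) (u.2.2 d)) w) =
      (P.cond V).E f * (P.cond V).E g := by
    have h1 : ∀ w, (P.cond V).p w ≠ 0 → (P.cond V).ce (Ah D t {b})
        (fun u => F w.1 (w.2.1 d) (w.2.2 c) * G' u.1 (u.2.1 c) (u.2.2 d)) w = f w * (P.cond V).E g := by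
      intro w hw
      rw [ce_one (fun v hv => (hsup v hv).trans (hsup w hw).symm), FP.E_smul, eF w (hsup w hw)]
      congr 1
      exact FP.E_congr _ fun v hv => (eG v (hsup v hv)).symm
    rw [FP.E_congr _ h1, FP.E_mul_const]
  rw [e, e, e, ← k2, ← k]
  exact FP.E_congr _ fun v hv => by rw [eF v (hsup v hv), eG v (hsup v hv)]

/-- the label of one face is thick given the points: on an event `E1` of the points on which the face sees the same -/
theorem lab_al {w : Pt K X β φ} (hw : (D.P h t).p w ≠ 0) (d : K) {E1 : Pt K X β φ → Prop}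
    (hE1 : Fac (fun w : Pt K X β φ => (w.1, w.2.1)) E1)
    (hE : ∀ v, E1 v → D.qa t v.1 = D.qa t w.1 ∧ (∀ j, j ≠ d → v.2.1 j = w.2.1 j) ∧ D.qb t (v.2.1 d) = D.qb t (w.2.1 d)) :
    al * (D.P h t).Pr E1 ≤ (D.P h t).Pr (fun v => E1 v ∧ v.2.2 d = w.2.2 d) := by
  classical
  have hk : D.kf t d w.1 w.2.1 (w.2.2 d) ≠ 0 := by
    intro h0
    apply hw
    show (∏ l, D.kf t l w.1 w.2.1 (w.2.2 l)) / _ = 0
    rw [Finset.prod_eq_zero (mem_univ d) h0, zero_div]
  set g : X × (K → β) → ℝ := fun z => ind (E1 (z.1, z.2, w.2.2)) with hg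
  have eg : ∀ v : Pt K X β φ, ind (E1 v) = g (v.1, v.2.1) := fun v => by
    have h1 : E1 v = E1 (v.1, v.2.1, w.2.2) := hE1 v (v.1, v.2.1, w.2.2) rfl
    show ind (E1 v) = ind (E1 (v.1, v.2.1, w.2.2))
    rw [h1]
  have e1 : (D.P h t).Pr E1 = (FP.unif (X × (K → β))).E g := by
    unfold FP.Pr
    rw [FP.E_congr (D.P h t) (fun v _ => eg v)]
    have := E_letter h t d (fun z _ => g z)
    rw [this]
    refine FP.E_congr _ fun z _ => ?_
    rw [← Finset.sum_mul, h.one, one_mul]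
  have e2 : (D.P h t).Pr (fun v => E1 v ∧ v.2.2 d = w.2.2 d) =
      (FP.unif (X × (K → β))).E (fun z => g z * D.kf t d z.1 z.2 (w.2.2 d)) := by
    unfold FP.Pr
    rw [FP.E_congr (D.P h t) (fun v _ => by rw [ind_and, eg v])]
    have := E_letter h t d (fun z G => g z * ind (G = w.2.2 d))
    rw [this]
    refine FP.E_congr _ fun z _ => ?_
    rw [Finset.sum_eq_single (w.2.2 d)]
    · rw [ind_of rfl, mul_one, mul_comm]
    · intro G _ hG
      rw [ind_not hG, mul_zero, mul_zero]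
    · intro hn
      exact absurd (mem_univ _) hn
  rw [e1, e2, ← FP.E_smul]
  refine FP.E_mono _ fun z _ => ?_
  by_cases hz : E1 (z.1, z.2, w.2.2)
  · have h1 : g z = 1 := ind_of hz
    obtain ⟨a1, a2, a3⟩ := hE _ hz
    rw [h1, one_mul, mul_one]
    have h2 : D.kf t d z.1 z.2 = D.kf t d z.1 w.2.1 := D.dep t d z.1 z.2 w.2.1 a2 a3
    rw [h2]
    exact h.thick t d w.1 z.1 w.2.1 (w.2.2 d) a1.symm hk
  · have h1 : g z = 0 := ind_not hz
    rw [h1, mul_zero, zero_mul]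

/-- **(S3)** -/
theorem rare_al (B : Bk h N S U t b c d) {w : Pt K X β φ} (hw : (D.P h t).p w ≠ 0) {Dd : Pt K X β φ → Prop}
    (hD : Fac (Ah D t {b}) Dd) {X1 dl : ℝ} (hdl0 : 0 ≤ dl)
    (hX : (D.P h t).Pr (xc D U t {b, c} w) ≤
      Real.exp X1 * (D.P h t).Pr (fun v => xc D U t {b, c} w v ∧ zf U b v = zf U b w ∧ zf U c v = zf U c w))
    (hdl : (QB h U t b w).Pr (fun v => clsb U (pub0 D t U w) b w v ∧ Dd v) ≤ dl) :
    (D.P h t).ce (fun v => (v.2.2 d, Zf D U t d v)) (fun v => ind (Dd v)) w ≤ Real.exp X1 / al * dl := by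
  classical
  set P := D.P h t with hP
  have hal := h.pos
  set κ : Pt K X β φ → φ × _ := fun v => (v.2.2 d, Zf D U t d v) with hκ
  set E1 : Pt K X β φ → Prop := fun v => xc D U t {b, c} w v ∧ zf U b v = zf U b w ∧ zf U c v = zf U c w with hE1
  set Cb := clsb U (pub0 D t U w) b w with hCb
  set Q := QB h U t b w with hQ
  have hQ' : Q = P.cond (xc D U t {b} w) := rfl
  have x0 : P.Pr (xc D U t {b} w) ≠ 0 := xc_ne hw
  -- the fibre of the face
  have hfib : ∀ v, κ v = κ w ↔ (E1 v ∧ v.2.2 d = w.2.2 d) := by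
    intro v
    rw [hκ]
    simp only [Prod.mk.injEq]
    have hbc : ∀ u : Pt K X β φ, xc D U t {b, c} w u ↔ ((le (LL U) ∅ u = le (LL U) ∅ w ∧ BB D t ∅ u = BB D t ∅ w) ∧
        u.2.1 b = w.2.1 b ∧ u.2.1 c = w.2.1 c) := by
      intro u
      unfold xc
      rw [BB_eq, BB_eq]
      constructor
      · rintro ⟨h1, h2, h3⟩
        exact ⟨⟨h1, fun j hj => absurd hj (Finset.notMem_empty j), h3⟩, h2 b (by simp), h2 c (by simp)⟩
      · rintro ⟨⟨h1, h2, h3⟩, h4, h5⟩
        refine ⟨h1, fun j hj => ?_, h3⟩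
        rcases Finset.mem_insert.1 hj with h6 | h6
        · rw [h6]; exact h4
        · rw [Finset.mem_singleton.1 h6]; exact h5
    constructor
    · rintro ⟨h1, h2⟩
      have h3 := Zf_pub B.rot' h2
      have h4 := (Zf_iff B.rot' h3.1 h3.2).1 h2
      refine ⟨⟨(hbc v).2 ⟨h3, ?_, ?_⟩, h4⟩, h1⟩
      · exact congrArg Prod.fst h4.1
      · exact congrArg Prod.fst h4.2
    · rintro ⟨⟨h1, h2⟩, h3⟩
      have h4 := ((hbc v).1 h1).1
      exact ⟨h3, (Zf_iff B.rot' h4.1 h4.2).2 h2⟩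
  -- (ii) thick label
  have hE1f : Fac (fun w : Pt K X β φ => (w.1, w.2.1)) E1 := by
    intro u v huv
    have h1 : u.1 = v.1 := (Prod.mk.inj huv).1
    have h2 : u.2.1 = v.2.1 := (Prod.mk.inj huv).2
    have h3 : xc D U t {b, c} w u = xc D U t {b, c} w v := xc_fac {b, c} w B.dep B.era u v (by
      refine Prod.ext h1 ?_
      show BB D t {b, c} u = BB D t {b, c} v
      rw [BB_eq, h1, h2]
      exact ⟨fun _ _ => rfl, rfl, fun _ => rfl⟩)
    show (xc D U t {b, c} w u ∧ (u.2.1 b, U {b} u.1 u.2.1) = zf U b w ∧ (u.2.1 c, U {c} u.1 u.2.1) = zf U c w) =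
      (xc D U t {b, c} w v ∧ (v.2.1 b, U {b} v.1 v.2.1) = zf U b w ∧ (v.2.1 c, U {c} v.1 v.2.1) = zf U c w)
    rw [h3, h1, h2]
  have k2 : al * P.Pr E1 ≤ P.m κ w := by
    have h1 := lab_al (h := h) (t := t) hw d hE1f (fun v hv => by
      have h2 := BB_eq.1 hv.1.2
      refine ⟨h2.2.1, fun j hj => ?_, h2.2.2 d⟩
      rcases B.all j with h3 | h3 | h3
      · rw [h3]; exact h2.1 b (by simp)
      · rw [h3]; exact h2.1 c (by simp)
      · exact absurd h3 hj)
    refine h1.trans (le_of_eq ?_)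
    unfold FP.m FP.Pr
    exact P.E_congr fun v _ => by rw [propext (hfib v)]
  -- (i) the event against the exact class
  have k1 : P.E (fun v => ind (κ v = κ w) * ind (Dd v)) ≤ P.Pr (xc D U t {b, c} w) * dl := by
    have hxx : ∀ v, xc D U t {b, c} w v ↔ (xc D U t {b} w v ∧ v.2.1 c = w.2.1 c) := by
      intro v
      unfold xc
      rw [BB_eq, BB_eq]
      constructor
      · rintro ⟨h1, h2, h3⟩
        exact ⟨⟨h1, fun j hj => by rw [Finset.mem_singleton.1 hj]; exact h2 b (by simp), h3⟩, h2 c (by simp)⟩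
      · rintro ⟨⟨h1, h2, h3⟩, h5⟩
        refine ⟨h1, fun j hj => ?_, h3⟩
        rcases Finset.mem_insert.1 hj with h6 | h6
        · rw [h6]; exact h2 b (by simp)
        · rw [Finset.mem_singleton.1 h6]; exact h5
    have h1 : P.E (fun v => ind (κ v = κ w) * ind (Dd v)) ≤
        P.E (fun v => ind (xc D U t {b} w v) * (ind (v.2.1 c = w.2.1 c) * ind (Cb v ∧ Dd v))) := by
      refine P.E_mono fun v _ => ?_
      by_cases hv : κ v = κ w
      · by_cases hd : Dd v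
        · have h2 := ((hfib v).1 hv).1
          have h3 := (hxx v).1 h2.1
          have hcb : Cb v := by
            refine ⟨?_, ?_, ?_⟩
            · refine Prod.ext h3.1.1 ?_
              have h4 := BB_eq.1 h3.1.2
              show BB D t ∅ v = BB D t ∅ w
              rw [BB_eq]
              exact ⟨fun j hj => absurd hj (Finset.notMem_empty j), h4.2⟩
            · exact congrArg Prod.fst h2.2.1
            · exact congrArg Prod.snd h2.2.1
          rw [ind_of hv, ind_of hd, ind_of h3.1, ind_of h3.2, ind_of ⟨hcb, hd⟩]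
          norm_num
        · rw [ind_not hd, mul_zero]
          exact mul_nonneg (ind_nonneg _) (mul_nonneg (ind_nonneg _) (ind_nonneg _))
      · rw [ind_not hv, zero_mul]
        exact mul_nonneg (ind_nonneg _) (mul_nonneg (ind_nonneg _) (ind_nonneg _))
    have h2 : P.E (fun v => ind (xc D U t {b} w v) * (ind (v.2.1 c = w.2.1 c) * ind (Cb v ∧ Dd v))) =
        P.Pr (xc D U t {b} w) * Q.E (fun v => ind (v.2.1 c = w.2.1 c) * ind (Cb v ∧ Dd v)) := by
      rw [hQ', FP.cond_E x0, mul_div_cancel₀ _ x0]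
    have hCD : Fac (Ah D t {b}) (fun v => Cb v ∧ Dd v) := by
      intro u v huv
      have h3 : Cb u = Cb v := clsb_Ah (b := b) (w0 := w) B.dep (pub0_C w) B.oth u v huv
      have h4 : Dd u = Dd v := hD u v huv
      show (Cb u ∧ Dd u) = (Cb v ∧ Dd v)
      rw [h3, h4]
    have hind := cls_indep3 (h := h) (t := t) (K0 := {b}) c (V := xc D U t {b} w) (xc_fac {b} w B.dep B.era)
      (fun u v hu hv => hu.2.trans hv.2.symm) (w0 := w) (xc_self U t {b} w) x0
    have hread : ∀ v, Q.p v ≠ 0 → ind (Cb v ∧ Dd v) = ind (Cb (v.1, w.2) ∧ Dd (v.1, w.2)) := by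
      intro v hv
      have h3 : xc D U t {b} w v := QB_supp hw hv
      have h4 : Ah D t {b} v = Ah D t {b} (v.1, w.2) := by
        unfold Ah
        refine Prod.ext rfl ?_
        have h5 := BB_eq.1 h3.2
        show BB D t {b} v = BB D t {b} (v.1, w.2)
        rw [BB_eq]
        exact ⟨h5.1, rfl, h5.2.2⟩
      have h5 := hCD v (v.1, w.2) h4
      show ind (Cb v ∧ Dd v) = ind (Cb (v.1, w.2) ∧ Dd (v.1, w.2))
      rw [show (Cb v ∧ Dd v) = (Cb (v.1, w.2) ∧ Dd (v.1, w.2)) from h5]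
    have h3 : Q.E (fun v => ind (v.2.1 c = w.2.1 c) * ind (Cb v ∧ Dd v)) =
        Q.E (fun v => ind (v.2.1 c = w.2.1 c)) * Q.E (fun v => ind (Cb v ∧ Dd v)) := by
      have h4 := hind (fun v => ind (v.2.1 c = w.2.1 c)) (fun v => ind (Cb (v.1, w.2) ∧ Dd (v.1, w.2)))
        (fun u v huv => by
          have h5 : u.2.1 c = v.2.1 c := huv
          show ind (u.2.1 c = w.2.1 c) = ind (v.2.1 c = w.2.1 c)
          rw [h5])
        (fun u v huv => by
          have h5 : u.1 = v.1 := (Prod.mk.inj huv).1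
          show ind (Cb (u.1, w.2) ∧ Dd (u.1, w.2)) = ind (Cb (v.1, w.2) ∧ Dd (v.1, w.2))
          rw [h5])
      rw [Q.E_congr (fun v hv => by rw [hread v hv]), Q.E_congr (f := fun v => ind (Cb v ∧ Dd v)) hread]
      exact h4
    have h4 : P.Pr (xc D U t {b} w) * Q.E (fun v => ind (v.2.1 c = w.2.1 c)) = P.Pr (xc D U t {b, c} w) := by
      rw [hQ', FP.cond_E x0, mul_div_cancel₀ _ x0]
      unfold FP.Pr
      exact P.E_congr fun v _ => by rw [← ind_and, propext (hxx v)]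
    calc P.E (fun v => ind (κ v = κ w) * ind (Dd v)) ≤ P.Pr (xc D U t {b} w) * (Q.E (fun v => ind (v.2.1 c = w.2.1 c)) *
          Q.E (fun v => ind (Cb v ∧ Dd v))) := by rw [← h3, ← h2]; exact h1
      _ = P.Pr (xc D U t {b, c} w) * Q.Pr (fun v => Cb v ∧ Dd v) := by rw [← mul_assoc, h4]; rfl
      _ ≤ _ := mul_le_mul_of_nonneg_left hdl (P.Pr_nonneg _)
  have hm : 0 < P.m κ w := P.m_pos κ hw
  show P.E (fun v => ind (κ v = κ w) * ind (Dd v)) / P.m κ w ≤ _
  rw [div_le_iff₀ hm]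
  have k3 : P.Pr (xc D U t {b, c} w) * dl ≤ (Real.exp X1 * P.Pr E1) * dl := mul_le_mul_of_nonneg_right hX hdl0
  have k4 : Real.exp X1 * P.Pr E1 * dl = Real.exp X1 / al * dl * (al * P.Pr E1) := by
    field_simp
  have k5 : Real.exp X1 / al * dl * (al * P.Pr E1) ≤ Real.exp X1 / al * dl * P.m κ w :=
    mul_le_mul_of_nonneg_left k2 (mul_nonneg (div_nonneg (Real.exp_pos _).le hal.le) hdl0)
  linarith

theorem ah_mono {S1 : Finset K} {v w : Pt K X β φ} (hb : b ∈ S1) (h1 : v.1 = w.1) (h2 : BB D t S1 v = BB D t S1 w) :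
    Ah D t {b} v = Ah D t {b} w := by
  refine Prod.ext h1 ?_
  show BB D t {b} v = BB D t {b} w
  rw [BB_eq] at h2 ⊢
  exact ⟨fun j hj => by rw [Finset.mem_singleton.1 hj]; exact h2.1 b hb, h2.2⟩

/-- **(S4)** : off the rare event of (hidden point, exact `b`) -/
theorem off_rare (B : Bk h N S U t b c d) {A ac ad : Pt K X β φ → Prop} {q : ℝ} (hq : 0 < q)
    (hac : Fac (fun w => (w.1, BB D t {b, d} w, w.2.2 c)) ac) (had : Fac (fun w => (w.1, BB D t {b, c} w, w.2.2 d)) ad) :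
    (D.P h t).Pr (fun w => (A w ∧ ¬ q < (D.P h t).ce (Ah D t {b}) (fun u => ind (A u)) w) ∧ ac w ∧ ad w) ≤
      Real.sqrt (2 * q) * (((D.P h t).Pr ac + (D.P h t).Pr ad) / 2) := by
  have hci : Blk.CI (D.P h t) (fun _ => Ah D t {b}) (fun _ w => (w.1, BB D t {b, d} w, w.2.2 c))
      (fun _ w => (w.1, BB D t {b, c} w, w.2.2 d)) := fun s f g hf hg w hw => face_ci B hf hg hw
  have k := Bef.one (P := D.P h t) (N := fun _ => Ah D t {b}) (Yc := fun _ w => (w.1, BB D t {b, d} w, w.2.2 c))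
    (Yd := fun _ w => (w.1, BB D t {b, c} w, w.2.2 d)) (R := fun _ => A) (q := 2 * q) (σ := fun _ => 0) (k := fun _ _ => True)
    (A := fun _ => ac) (A' := fun _ => ad) hci (fun _ => Fac.refl _) (fun _ _ _ _ => Iff.rfl)
    (fun _ v w hvw => ah_mono (S1 := {b, d}) (by simp) (Prod.mk.inj hvw).1 (Prod.mk.inj (Prod.mk.inj hvw).2).1)
    (fun _ v w hvw => ah_mono (S1 := {b, c}) (by simp) (Prod.mk.inj hvw).1 (Prod.mk.inj (Prod.mk.inj hvw).2).1)
    (fun _ _ _ _ => Iff.rfl) (fun _ v w hvw => iff_of_eq (hac v w hvw)) (fun _ v w hvw => iff_of_eq (had v w hvw))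
  refine ((D.P h t).Pr_mono fun w _ hw => ?_).trans (k.trans (le_of_eq ?_))
  · refine ⟨⟨hw.1.1, ?_⟩, trivial, hw.2.1, hw.2.2⟩
    show (D.P h t).ce (Ah D t {b}) (fun u => ind (A u)) w < 2 * q
    have := not_lt.1 hw.1.2
    linarith
  · simp only [true_and]

/-- **THE WEAK ROW, one time** : `A` any event, `ac`, `ad` the two faces which see `b`; `AL` = event of the face which sees `b`, `c`
on which the pair of letters has surprisal at most `X1` -/
theorem wk2_at (B : Bk h N S U t b c d) {A ac ad AL : Pt K X β φ → Prop} {q X1 dl : ℝ} (hq : 0 < q) (hdl0 : 0 ≤ dl)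
    (hac : ∀ v w, (D.P h t).p v ≠ 0 → (D.P h t).p w ≠ 0 → v.1 = w.1 → BB D t {b, d} v = BB D t {b, d} w →
      v.2.2 c = w.2.2 c → (ac v ↔ ac w))
    (had : ∀ v w, (D.P h t).p v ≠ 0 → (D.P h t).p w ≠ 0 → v.2.2 d = w.2.2 d → Zf D U t d v = Zf D U t d w →
      (ad v ↔ ad w))
    (hAL : ∀ v w, (D.P h t).p v ≠ 0 → (D.P h t).p w ≠ 0 → Zf D U t d v = Zf D U t d w → (AL v ↔ AL w))
    (hX : ∀ w, (D.P h t).p w ≠ 0 → AL w → (D.P h t).Pr (xc D U t {b, c} w) ≤
      Real.exp X1 * (D.P h t).Pr (fun v => xc D U t {b, c} w v ∧ zf U b v = zf U b w ∧ zf U c v = zf U c w))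
    (hdl : ∀ w, (D.P h t).p w ≠ 0 → AL w → (QB h U t b w).Pr (fun v => clsb U (pub0 D t U w) b w v ∧
      q < (D.P h t).ce (Ah D t {b}) (fun u => ind (A u)) v) ≤ dl) :
    (D.P h t).Pr (fun w => A w ∧ ac w ∧ ad w ∧ AL w) ≤
      Real.sqrt (2 * q) * (((D.P h t).Pr ac + (D.P h t).Pr ad) / 2) + Real.exp X1 / al * dl * (D.P h t).Pr ad := by
  set P := D.P h t with hP
  set Dd : Pt K X β φ → Prop := fun w => q < P.ce (Ah D t {b}) (fun u => ind (A u)) w with hDd
  have ed : (univ.erase d : Finset K) = {b, c} := B.rot'.era2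
  obtain ⟨a1, x1, x2⟩ := ext_fac (P := P) (W := fun w : Pt K X β φ => (w.1, BB D t {b, d} w, w.2.2 c)) (g := ac)
    (fun v w hv hw hvw => by
      simp only [Prod.mk.injEq] at hvw
      exact propext (hac v w hv hw hvw.1 hvw.2.1 hvw.2.2))
  obtain ⟨a2, x3, x4⟩ := ext_fac (P := P) (W := fun w : Pt K X β φ => (w.1, BB D t {b, c} w, w.2.2 d)) (g := ad)
    (fun v w hv hw hvw => by
      simp only [Prod.mk.injEq] at hvw
      refine propext (had v w hv hw hvw.2.2 (Zf_fac B.rot' v w (Prod.ext hvw.1 ?_)))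
      show BB D t (univ.erase d) v = BB D t (univ.erase d) w
      rw [ed]; exact hvw.2.1)
  obtain ⟨a3, x5, x6⟩ := ext_fac (P := P) (W := fun w : Pt K X β φ => (w.2.2 d, Zf D U t d w)) (g := fun w => ad w ∧ AL w)
    (fun v w hv hw hvw => by
      have h1 := (Prod.mk.inj hvw).1
      have h2 := (Prod.mk.inj hvw).2
      exact propext (and_congr (had v w hv hw h1 h2) (hAL v w hv hw h2)))
  have hDf : Fac (Ah D t {b}) Dd := fun v w hvw => by
    show (q < P.ce (Ah D t {b}) (fun u => ind (A u)) v) = (q < P.ce (Ah D t {b}) (fun u => ind (A u)) w)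
    rw [P.ce_fac (Ah D t {b}) (fun u => ind (A u)) v w hvw]
  -- split
  have h1 : P.Pr (fun w => A w ∧ ac w ∧ ad w ∧ AL w) ≤ P.Pr (fun w => (A w ∧ ¬ Dd w) ∧ a1 w ∧ a2 w) +
      P.Pr (fun w => a3 w ∧ Dd w) := by
    refine (P.Pr_mono fun w hw hh => ?_).trans (P.Pr_or_le _ _)
    by_cases hd : Dd w
    · right
      refine ⟨?_, hd⟩
      rw [x6 w hw]
      exact hh.2.2
    · left
      refine ⟨⟨hh.1, hd⟩, ?_, ?_⟩
      · rw [x2 w hw]; exact hh.2.1
      · rw [x4 w hw]; exact hh.2.2.1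
  have h2 := off_rare (h := h) B (A := A) hq x1 x3
  have e1 : P.Pr a1 = P.Pr ac := P.E_congr fun w hw => by rw [x2 w hw]
  have e2 : P.Pr a2 = P.Pr ad := P.E_congr fun w hw => by rw [x4 w hw]
  rw [← hP, e1, e2] at h2
  have h3 : P.Pr (fun w => a3 w ∧ Dd w) ≤ Real.exp X1 / al * dl * P.Pr ad := by
    have hfa : Fac (fun w : Pt K X β φ => (w.2.2 d, Zf D U t d w)) (fun w => ind (a3 w)) := x5.comp fun q => ind q
    have g1 : P.Pr (fun w => a3 w ∧ Dd w) = P.E (fun w => ind (a3 w) *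
        P.ce (fun w : Pt K X β φ => (w.2.2 d, Zf D U t d w)) (fun w => ind (Dd w)) w) := by
      rw [P.E_mul_ce hfa]
      exact P.E_congr fun w _ => ind_and _ _
    have c0 : 0 ≤ Real.exp X1 / al * dl := mul_nonneg (div_nonneg (Real.exp_pos _).le h.pos.le) hdl0
    rw [g1]
    unfold FP.Pr
    rw [← P.E_smul]
    refine P.E_mono fun w hw => ?_
    by_cases ha : a3 w
    · have ha' : ad w ∧ AL w := by rw [← x6 w hw]; exact ha
      rw [ind_of ha, ind_of ha'.1, one_mul, mul_one]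
      exact rare_al B hw hDf hdl0 (hX w hw ha'.2) (hdl w hw ha'.2)
    · rw [ind_not ha, zero_mul]
      exact mul_nonneg c0 (ind_nonneg _)
  linarith

end st

namespace TP

open Pool.Agent.GMH.NZ Pool.Agent.GMH.V3

noncomputable section

namespace Wk2

open HotNR RowD

variable {X β γ φ : Type} [Fintype X] [Fintype β] [Fintype φ] [Nonempty X] [Nonempty β]
variable {D : HD (Fin 3) X β γ φ} {al : ℝ} {h : D.Thick al} {v : ℕ → Finset (Fin 3) → X → (Fin 3 → β) → Pt (Fin 3) X β φ}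
variable {dg : ℕ → X → ℝ} {prr : ℕ → Fin 3 → φ → φ} {T : ℕ} {Lam : ℝ} {t : ℕ} {b c d : Fin 3}

theorem xc2_iff {a e : Pt (Fin 3) X β φ} : xc D (Um v (t + 2)) (t + 1) {b, c} e a ↔
    (a.2.1 b = e.2.1 b ∧ a.2.1 c = e.2.1 c ∧ NPq D v (5 * t + 5) a = NPq D v (5 * t + 5) e) := by
  have h1 := TriB.xc_iff (D := D) (v := v) (t := t) (b := b) (a := a) (e := e)
  unfold xc at h1 ⊢
  rw [BB_eq] at h1 ⊢
  constructor
  · rintro ⟨h2, h3, h4⟩
    have h5 := h1.1 ⟨h2, fun j hj => by rw [Finset.mem_singleton.1 hj]; exact h3 b (by simp), h4⟩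
    exact ⟨h5.1, h3 c (by simp), h5.2⟩
  · rintro ⟨h2, h3, h4⟩
    have h5 := h1.2 ⟨h2, h4⟩
    refine ⟨h5.1, fun j hj => ?_, h5.2.2⟩
    rcases Finset.mem_insert.1 hj with h6 | h6
    · rw [h6]; exact h2
    · rw [Finset.mem_singleton.1 h6]; exact h3

/-- **typical pairs of letters** -/
theorem pair_le {w : Pt (Fin 3) X β φ} (hw : (D.P h (t + 1)).p w ≠ 0) {X1 : ℝ} (hX : spQ h v (5 * t + 5) b c w ≤ X1) :
    (D.P h (t + 1)).Pr (xc D (Um v (t + 2)) (t + 1) {b, c} w) ≤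
      Real.exp X1 * (D.P h (t + 1)).Pr (fun u => xc D (Um v (t + 2)) (t + 1) {b, c} w u ∧
        zf (Um v (t + 2)) b u = zf (Um v (t + 2)) b w ∧ zf (Um v (t + 2)) c u = zf (Um v (t + 2)) c w) := by
  set P := D.P h (t + 1) with hP
  have e0 : spQ h v (5 * t + 5) b c w = sp P (fun u => (XLq v (5 * t + 5) b u, XLq v (5 * t + 5) c u))
      (fun u => (u.2.1 b, u.2.1 c, NPq D v (5 * t + 5) u)) w := by
    unfold spQ
    rw [show (5 * t + 5) / 5 = t + 1 by omega]
  have e1 : P.m (fun u => (u.2.1 b, u.2.1 c, NPq D v (5 * t + 5) u)) w = P.Pr (xc D (Um v (t + 2)) (t + 1) {b, c} w) := by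
    refine P.E_congr fun u _ => ?_
    congr 1
    rw [Prod.mk.injEq, Prod.mk.injEq (u.2.1 c)]
    exact propext xc2_iff.symm
  have e2 : P.m (fun u => ((XLq v (5 * t + 5) b u, XLq v (5 * t + 5) c u), (u.2.1 b, u.2.1 c, NPq D v (5 * t + 5) u))) w =
      P.Pr (fun u => xc D (Um v (t + 2)) (t + 1) {b, c} w u ∧
        zf (Um v (t + 2)) b u = zf (Um v (t + 2)) b w ∧ zf (Um v (t + 2)) c u = zf (Um v (t + 2)) c w) := by
    refine P.E_congr fun u _ => ?_
    congr 1
    have hx : ∀ j : Fin 3, XLq v (5 * t + 5) j u = XLq v (5 * t + 5) j w ↔ zf (Um v (t + 2)) j u = zf (Um v (t + 2)) j w := by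
      intro j
      unfold XLq XL zf
      rw [TriB.nc_5 (by unfold pth; simp)]
    rw [Prod.mk.injEq, Prod.mk.injEq (XLq v (5 * t + 5) b u), Prod.mk.injEq (u.2.1 b), Prod.mk.injEq (u.2.1 c)]
    refine propext ⟨fun hh => ⟨xc2_iff.2 hh.2, (hx b).1 hh.1.1, (hx c).1 hh.1.2⟩, fun hh => ⟨⟨(hx b).2 hh.2.1, (hx c).2 hh.2.2⟩,
      xc2_iff.1 hh.1⟩⟩
  unfold sp at e0
  rw [e1, e2] at e0
  have x0 : 0 < P.Pr (xc D (Um v (t + 2)) (t + 1) {b, c} w) := FP.Pr_pos_of (S := xc D (Um v (t + 2)) (t + 1) {b, c} w) hw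
    (xc_self _ _ _ w)
  set p1 := P.Pr (fun u => xc D (Um v (t + 2)) (t + 1) {b, c} w u ∧
        zf (Um v (t + 2)) b u = zf (Um v (t + 2)) b w ∧ zf (Um v (t + 2)) c u = zf (Um v (t + 2)) c w) with hp1
  have c0 : 0 < p1 := FP.Pr_pos_of (S := fun u => xc D (Um v (t + 2)) (t + 1) {b, c} w u ∧
        zf (Um v (t + 2)) b u = zf (Um v (t + 2)) b w ∧ zf (Um v (t + 2)) c u = zf (Um v (t + 2)) c w) hw
    ⟨xc_self _ _ _ w, rfl, rfl⟩
  have h1 : Real.log (P.Pr (xc D (Um v (t + 2)) (t + 1) {b, c} w)) ≤ Real.log (Real.exp X1 * p1) := by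
    rw [Real.log_mul (Real.exp_pos _).ne' c0.ne', Real.log_exp]
    linarith
  exact (Real.log_le_log_iff x0 (mul_pos (Real.exp_pos _) c0)).1 h1

theorem spQ_eq {q : ℕ} {a e : Pt (Fin 3) X β φ} (hb : XLq v q b a = XLq v q b e) (hc : XLq v q c a = XLq v q c e)
    (hp : NPq D v q a = NPq D v q e) : spQ h v q b c a = spQ h v q b c e := by
  have h1 : a.2.1 b = e.2.1 b := (Prod.mk.inj hb).1
  have h2 : a.2.1 c = e.2.1 c := (Prod.mk.inj hc).1
  unfold spQ sp
  have e1 : (D.P h (q / 5)).m (fun u => (u.2.1 b, u.2.1 c, NPq D v q u)) a =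
      (D.P h (q / 5)).m (fun u => (u.2.1 b, u.2.1 c, NPq D v q u)) e :=
    (D.P h (q / 5)).Fac_m _ _ _ (Prod.ext h1 (Prod.ext h2 hp))
  have e2 : (D.P h (q / 5)).m (fun u => ((XLq v q b u, XLq v q c u), (u.2.1 b, u.2.1 c, NPq D v q u))) a =
      (D.P h (q / 5)).m (fun u => ((XLq v q b u, XLq v q c u), (u.2.1 b, u.2.1 c, NPq D v q u))) e :=
    (D.P h (q / 5)).Fac_m _ _ _ (Prod.ext (Prod.ext hb hc) (Prod.ext h1 (Prod.ext h2 hp)))
  rw [e1, e2]

theorem spQ_old (q : ℕ) (i k : Fin 3) (w : Pt (Fin 3) X β φ) : spQ h v q i k (old prr t w) = spQ h v q i k w := by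
  rcases w with ⟨x, y, F⟩
  exact sp_fac _ _ _ _ _ rfl

/-- **THE WEAK ROW, RUN FORM**, with the rare events as a hypothesis: `Aw` any event, `ac`, `ad` = events of the two faces which see
`b` -/
theorem wk2_push {n N1 : ℝ} (hn : 1 ≤ n) (hN1 : 1 ≤ N1) (H : D.Hyp dg prr al T Lam)
    (R : Run h (pr3 (Fin 3) n N1) (SS1 (Fin 3)) (AdmDep D) v) (ht : t < T) (bc : b ≠ c) (bd : b ≠ d) (cd : c ≠ d)
    {Aw ac ad : Pt (Fin 3) X β φ → Prop} (hac : Fac (fun w => (FQ v t c w, ZbQ D v (5 * t + 5) c w)) ac)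
    (had : Fac (fun w => (FQ v t d w, ZbQ D v (5 * t + 5) d w)) ad) {q X1 dl : ℝ} (hq : 0 < q) (hdl0 : 0 ≤ dl)
    (hdl : ∀ w, (D.P h (t + 1)).p w ≠ 0 → (QB h (Um v (t + 2)) (t + 1) b w).Pr
      (fun u => clsb (Um v (t + 2)) (pub0 D (t + 1) (Um v (t + 2)) w) b w u ∧
      q < (D.P h (t + 1)).ce (Ah D (t + 1) {b}) (fun u => ind (Aw (old prr t u))) u) ≤ dl) :
    (D.P h t).Pr (fun w => Aw w ∧ ac w ∧ ad w ∧ spQ h v (5 * t + 5) b c w ≤ X1) ≤
      Real.sqrt (2 * q) * (((D.P h t).Pr ac + (D.P h t).Pr ad) / 2) + Real.exp X1 / al * dl * (D.P h t).Pr ad := by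
  have hN : ∀ l : Fin 3, 0 < pr3 (Fin 3) n N1 (univ.erase l) := fun l => zero_lt_one.trans_le (pr3_one hn hN1 _)
  have B : Bk h (pr3 (Fin 3) n N1) (SS1 (Fin 3)) (Um v (t + 2)) (t + 1) b c d := TriB.Bk_run hn hN1 R bc bd cd (t + 1)
  have hpr := H.kf_pr t ht
  have ec : (univ.erase c : Finset (Fin 3)) = {b, d} := B.swap.rot'.era2
  -- the events at the next time
  have face : ∀ (i : Fin 3) {f : Pt (Fin 3) X β φ → Prop}, Fac (fun w => (FQ v t i w, ZbQ D v (5 * t + 5) i w)) f →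
      ∀ a e, (D.P h (t + 1)).p a ≠ 0 → (D.P h (t + 1)).p e ≠ 0 → a.2.2 i = e.2.2 i →
      Zf D (Um v (t + 2)) (t + 1) i a = Zf D (Um v (t + 2)) (t + 1) i e → f (old prr t a) = f (old prr t e) := by
    intro i f hf a e ha he hl hZ
    have hZ' : ZbQ D v (5 * t + 5) i a = ZbQ D v (5 * t + 5) i e := by rw [HotNR.ZbQ_5]; exact hZ
    refine hf _ _ (Prod.ext (FQ_det1 H R hN ht i ha he hl hZ') ?_)
    show ZbQ D v (5 * t + 5) i (old prr t a) = ZbQ D v (5 * t + 5) i (old prr t e)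
    rw [Zb_old, Zb_old]
    exact hZ'
  have k := wk2_at (h := h) (t := t + 1) B (A := fun w => Aw (old prr t w)) (ac := fun w => ac (old prr t w))
    (ad := fun w => ad (old prr t w)) (AL := fun w => spQ h v (5 * t + 5) b c w ≤ X1) (q := q) (X1 := X1) (dl := dl) hq hdl0
    (fun a e ha he h1 h2 h3 => by
      rw [face c hac a e ha he h3 (Zf_fac B.swap.rot' a e (Prod.ext h1 (by
        show BB D (t + 1) (univ.erase c) a = BB D (t + 1) (univ.erase c) e
        rw [ec]; exact h2)))])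
    (fun a e ha he h1 h2 => by rw [face d had a e ha he h1 h2])
    (fun a e ha he h1 => by
      have h2 := Zf_pub B.rot' h1
      have h3 := (Zf_iff B.rot' h2.1 h2.2).1 h1
      have hx : ∀ j : Fin 3, zf (Um v (t + 2)) j a = zf (Um v (t + 2)) j e → XLq v (5 * t + 5) j a = XLq v (5 * t + 5) j e := by
        intro j hj
        unfold XLq XL
        rw [TriB.nc_5 (by unfold pth; simp)]
        exact hj
      have h4 : NPq D v (5 * t + 5) a = NPq D v (5 * t + 5) e := by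
        rw [TriB.NPq_5]
        have h5 := BB_eq.1 h2.2
        exact ⟨pubU h2.1, Prod.ext h5.2.1 (funext h5.2.2)⟩
      rw [spQ_eq (hx b h3.1) (hx c h3.2) h4])
    (fun w hw hAL => pair_le hw hAL) (fun w hw _ => hdl w hw)
  have tr : ∀ f : Pt (Fin 3) X β φ → Prop, (D.P h (t + 1)).Pr (fun w => f (old prr t w)) = (D.P h t).Pr f := fun f =>
    push_E h hpr (fun w => ind (f w))
  rw [tr ac, tr ad] at k
  refine le_trans (le_of_eq ?_) k
  rw [← tr (fun w => Aw w ∧ ac w ∧ ad w ∧ spQ h v (5 * t + 5) b c w ≤ X1)]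
  refine (D.P h (t + 1)).E_congr fun w _ => ?_
  show ind (Aw (old prr t w) ∧ ac (old prr t w) ∧ ad (old prr t w) ∧ spQ h v (5 * t + 5) b c (old prr t w) ≤ X1) =
    ind (Aw (old prr t w) ∧ ac (old prr t w) ∧ ad (old prr t w) ∧ spQ h v (5 * t + 5) b c w ≤ X1)
  rw [spQ_old]

/-- **THE WEAK ROW, RUN FORM** : `Ar w f` = relation of the two strong tops `F_d`, `F_c`, the thin letters and the weak top `f`, of row
mass at most `kk` under the own law of `F_b` at the final state -/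
theorem wk2_run {n N1 : ℝ} (hn : 1 ≤ n) (hN1 : 1 ≤ N1) (H : D.Hyp dg prr al T Lam)
    (R : Run h (pr3 (Fin 3) n N1) (SS1 (Fin 3)) (AdmDep D) v) (ht : t < T) (bc : b ≠ c) (bd : b ≠ d) (cd : c ≠ d)
    {Ar : Pt (Fin 3) X β φ → List (Pt (Fin 3) X β φ) × (Fin 3 → Option φ) → Prop}
    (hAr : ∀ f, Fac (fun w => ((FQ v t d w, FQ v t c w), ZQ D v (5 * t + 5) w)) (fun w => Ar w f))
    {ac ad : Pt (Fin 3) X β φ → Prop} (hac : Fac (fun w => (FQ v t c w, ZbQ D v (5 * t + 5) c w)) ac)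
    (had : Fac (fun w => (FQ v t d w, ZbQ D v (5 * t + 5) d w)) ad) {q X1 kk : ℝ} (hq0 : 0 < q) (hk0 : 0 ≤ kk)
    (hk : ∀ w, (D.P h t).p w ≠ 0 →
      ∑ f ∈ vals (FQ v t b), (D.P h t).pv (ZbQ D v (5 * t + 5) b) (FQ v t b) w f * ind (Ar w f) ≤ kk)
    (hq : 4 * Real.log (1 / al) / n + 2 * kk ≤ q / 2) :
    (D.P h t).Pr (fun w => Ar w (FQ v t b w) ∧ ac w ∧ ad w ∧ spQ h v (5 * t + 5) b c w ≤ X1) ≤
      Real.sqrt (2 * q) * (((D.P h t).Pr ac + (D.P h t).Pr ad) / 2) +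
        Real.exp X1 / al * Real.exp (1 - n * N1 * q / 4) * (D.P h t).Pr ad := by
  classical
  have hN : ∀ l : Fin 3, 0 < pr3 (Fin 3) n N1 (univ.erase l) := fun l => zero_lt_one.trans_le (pr3_one hn hN1 _)
  have B : Bk h (pr3 (Fin 3) n N1) (SS1 (Fin 3)) (Um v (t + 2)) (t + 1) b c d := TriB.Bk_run hn hN1 R bc bd cd (t + 1)
  have hpr := H.kf_pr t ht
  have n0 : 0 < n := by linarith
  have N0 : 0 < N1 := by linarith
  have e4 : pr3 (Fin 3) n N1 ∅ = 1 := by unfold pr3; simp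
  have e5 : ∀ j, pr3 (Fin 3) n N1 {j} = N1 := fun j => by unfold pr3; simp
  have e6 : pr3 (Fin 3) n N1 (univ.erase b) = n * N1 := pr3_top (by simp) n N1 b
  have hZo : ∀ w, ZQ D v (5 * t + 5) (old prr t w) = ZQ D v (5 * t + 5) w := fun w => TriS.ZQ_old (prr := prr) _ t w
  refine wk2_push hn hN1 H R ht bc bd cd (Aw := fun w => Ar w (FQ v t b w)) hac had hq0 (Real.exp_pos _).le fun w hw => ?_
  have k := wk_rareD (h := h) (t := t + 1) B (by rw [e4]; norm_num) hw (X1 := fun w => FQ v t d (old prr t w))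
    (fun a e ha he hl hW => FQ_det1 H R hN ht d ha he hl (ZQ_Zb _ d a e ((Wf_ZQ bc bd cd).1 hW)))
    (X2 := fun w => FQ v t c (old prr t w)) (fun a e ha he hl hW =>
      FQ_det1 H R hN ht c ha he hl (ZQ_Zb _ c a e ((Wf_ZQ bc bd cd).1 hW)))
    (Yl := fun w => FQ v t b (old prr t w)) (fun a e ha he hl hZ => by
      refine FQ_det1 H R hN ht b ha he hl ?_
      rw [HotNR.ZbQ_5]; exact hZ)
    (Ar := fun w f => Ar (old prr t w) f) (fun f a e ha he h1 h2 hW => by
      have hz : ZQ D v (5 * t + 5) (old prr t a) = ZQ D v (5 * t + 5) (old prr t e) := by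
        rw [hZo, hZo]
        exact (Wf_ZQ bc bd cd).1 hW
      exact iff_of_eq (hAr f (old prr t a) (old prr t e) (Prod.ext (Prod.ext h1 h2) hz)))
    (kk := kk) (q := q) hk0 (fun u hu _ => by
      have h1 := hk (old prr t u) (old_supp H ht hu)
      have e1 : ∀ f, (D.P h (t + 1)).pv (Zf D (Um v (t + 2)) (t + 1) b) (fun w => FQ v t b (old prr t w)) u f =
          (D.P h t).pv (ZbQ D v (5 * t + 5) b) (FQ v t b) (old prr t u) f := by
        intro f
        rw [← pv_push H ht, ← HotNR.ZbQ_5]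
        refine pv_supp (fun u _ => ?_) (fun _ _ => rfl) _
        rw [Zb_old, Zb_old]
      rw [Finset.sum_congr rfl fun f _ => by rw [e1 f]]
      refine le_trans (Finset.sum_le_sum_of_subset_of_nonneg ?_ fun f _ _ =>
        mul_nonneg ((D.P h t).pv_nonneg _ _ _ _) (ind_nonneg _)) h1
      intro f hf
      unfold vals at hf ⊢
      rw [Finset.mem_image] at hf ⊢
      obtain ⟨x, hx, hxf⟩ := hf
      exact ⟨old prr t x, mem_univ _, hxf⟩)
    (by
      rw [e5, e5, e6]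
      have e7 : 2 * ((N1 + N1) * Real.log (1 / al)) / (n * N1) = 4 * Real.log (1 / al) / n := by
        field_simp
        ring
      rw [e7]
      exact hq)
  rw [e6, e4, mul_one] at k
  exact k

end Wk2

end

end TP

end Pool.Agent.GMH
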