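import Pool.Agent.GMH.Wk2E
import Pool.Agent.GMH.UnrC

/-!
# GMH.Wk2F: the weak tuples of the region, all times (helper93; row WK2 of helper65)

* `wrow_mass` : the mass of the relation of the weak top `a` with two fixed strong letters under the own law of `F_a` after the
  additions is at most `B (kap + 2 eF)`;
* `wk2_one` : one ordered triple (strong `i`, weak `a`, strong `b`) at one time; `wk2_six` : `Wk` at one time;
* **`wk2_sum`** : the sum over all substeps of `Pr wkO` (`wkO` of `GMH/UnrC`).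
-/

set_option autoImplicit false
set_option linter.unusedSectionVars false
set_option linter.unusedVariables false

namespace Pool.Agent.GMH.KF

open Finset Pool.Agent.PWZ Pool.Agent.M3 Pool.Agent.GMH Pool.Agent.GMH.TP

noncomputable section

variable {Om : Type*} [Fintype Om] (P : FP Om) {α β γ φ : Type*} {Z : Om → β} {Zb : Fin 3 → Om → α}
  (F : Fin 3 → Om → φ) {Y : Fin 3 → Om → γ} {c : KC} {r : RC}

/-- **the row mass of the weak top** under its own law after the additions -/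
theorem wrow_mass {w : Om} (hw : P.p w ≠ 0) (hYZ : ∀ i, Fac (Y i) (Zb i)) (hB : 0 ≤ r.B) (hk : 0 ≤ r.B * (kap c + 2 * c.eF))
    (h2 : 0 < c.e2) (h3 : 0 < c.e3) (hd : 0 < c.dH) (hd2 : c.dH ≤ 1 / 2) {i a b : Fin 3} (hia : i ≠ a) (hib : i ≠ b)
    (hab : a ≠ b) :
    ∑ z ∈ vals (F a), P.pv (Y a) (F a) w z * ind ((¬ sF P Z Zb F c w ∧ ¬ 2 * c.e1 ≤ tvn P Z F ∅ w (tup F w)) ∧
      rF P Zb F Y a w z ≤ r.B ∧ wkH P Z F c i a b w (tp i b (F i w) (F b w) z)) ≤ r.B * (kap c + 2 * c.eF) := by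
  classical
  by_cases h0 : ¬ sF P Z Zb F c w ∧ ¬ 2 * c.e1 ≤ tvn P Z F ∅ w (tup F w)
  swap
  · refine le_trans (le_of_eq (Finset.sum_eq_zero fun z _ => ?_)) hk
    rw [ind_not (fun hh => h0 hh.1), mul_zero]
  have hm := wk_mass P F (Zb := Zb) hw h2 h3 hd hd2 h0.2 h0.1 hia hib hab (x := F i w) (y := F b w)
    (Finset.mem_image_of_mem _ (mem_univ w)) (Finset.mem_image_of_mem _ (mem_univ w))
  refine le_trans ?_ (mul_le_mul_of_nonneg_left hm hB)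
  rw [Finset.mul_sum]
  refine Finset.sum_le_sum fun z _ => ?_
  have hq : 0 ≤ qF P Zb F a w z := P.pv_nonneg _ _ _ _
  have e1 : P.pv (Y a) (F a) w z = rF P Zb F Y a w z * qF P Zb F a w z := by
    rw [rq_F P F Y (Zb := Zb) hw a z]
    refine pv_supp (fun u _ => ?_) (fun _ _ => rfl) _
    rw [Prod.mk.injEq]
    exact ⟨fun hh => ⟨hh, hYZ a u w hh⟩, fun hh => hh.1⟩
  by_cases h1 : rF P Zb F Y a w z ≤ r.B ∧ wkH P Z F c i a b w (tp i b (F i w) (F b w) z)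
  · rw [ind_of ⟨h0, h1⟩, ind_of h1.2, mul_one, mul_one, e1]
    exact mul_le_mul_of_nonneg_right h1.1 hq
  · rw [ind_not (fun hh => h1 hh.2), mul_zero]
    exact mul_nonneg hB (mul_nonneg hq (ind_nonneg _))

theorem tvn_tup (w w' : Om) (f f' : Fin 3 → φ) (hz : Z w = Z w') : tvn P Z F ∅ w f = tvn P Z F ∅ w' f' := by
  have h1 : tvn P Z F ∅ w f = tvn P Z F ∅ w' f := tvn_fac P F ∅ f w w' hz
  rw [h1]
  exact tvn_cong P F w' (fun i hi => absurd hi (Finset.notMem_empty i))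

end

end Pool.Agent.GMH.KF

namespace Pool.Agent.GMH.TRF

open Finset Pool.Agent.PWZ Pool.Agent.M3 Pool.Agent.GM Pool.Agent.GM.Harm Pool.Agent.GMH Pool.Agent.GMH.NZ
open Pool.Agent.GMH.V3 Pool.Agent.GMH.TP Pool.Agent.GMH.TD Pool.Agent.GMH.Dy Pool.Agent.GMH.MV Pool.Agent.GMH.MVI
open Pool.Agent.GMH.UV Pool.Agent.GMH.KF

noncomputable section

namespace Wk2F

variable {X β γ φ : Type} [Fintype X] [Fintype β] [Fintype φ] [Nonempty X] [Nonempty β]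
variable {D : HD (Fin 3) X β γ φ} {al : ℝ} {h : D.Thick al} {v : ℕ → Finset (Fin 3) → X → (Fin 3 → β) → Pt (Fin 3) X β φ}
variable {dg : ℕ → X → ℝ} {prr : ℕ → Fin 3 → φ → φ} {T : ℕ} {Lam : ℝ} {c : KC} {r : RC}

/-- the ratio of the true letter of the top `j` from the state `q` to the state `5 t + 5` -/
def rt (h : D.Thick al) (v : ℕ → Finset (Fin 3) → X → (Fin 3 → β) → Pt (Fin 3) X β φ) (t q : ℕ) (j : Fin 3)
    (w : Pt (Fin 3) X β φ) : ℝ := rF (D.P h t) (ZbQ D v q) (FQ v t) (ZbQ D v (5 * t + 5)) j w (FQ v t j w)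

/-- outside `sF` and `R0` -/
def gd (h : D.Thick al) (v : ℕ → Finset (Fin 3) → X → (Fin 3 → β) → Pt (Fin 3) X β φ) (c : KC) (t q : ℕ)
    (w : Pt (Fin 3) X β φ) : Prop := ¬ sF (D.P h t) (ZQ D v q) (ZbQ D v q) (FQ v t) c w ∧
  ¬ 2 * c.e1 ≤ tvn (D.P h t) (ZQ D v q) (FQ v t) ∅ w (tup (FQ v t) w)

theorem rt_fac (t : ℕ) {q : ℕ} (hq : q ≤ 5 * t + 5) (j : Fin 3) :
    Fac (fun w => (FQ v t j w, ZbQ D v (5 * t + 5) j w)) (rt h v t q j) := by
  intro a b hab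
  have h1 := (Prod.mk.inj hab).1
  have h2 := (Prod.mk.inj hab).2
  have h3 := ZbQ_mono (φ := φ) hq j a b h2
  show rr (D.P h t) (ZbQ D v q j) (FQ v t j) (ZbQ D v (5 * t + 5) j) a (ZbQ D v (5 * t + 5) j a) (FQ v t j a) =
    rr (D.P h t) (ZbQ D v q j) (FQ v t j) (ZbQ D v (5 * t + 5) j) b (ZbQ D v (5 * t + 5) j b) (FQ v t j b)
  have h1' : FQ v t j a = FQ v t j b := h1
  have h2' : ZbQ D v (5 * t + 5) j a = ZbQ D v (5 * t + 5) j b := h2
  rw [h1', h2']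
  exact rr_fac (D.P h t) (ZbQ D v q j) (FQ v t j) (ZbQ D v (5 * t + 5) j) _ _ a b h3

theorem gd_fac (t q : ℕ) : Fac (ZQ D v q) (gd h v c t q) := by
  intro a b hab
  have e1 : sF (D.P h t) (ZQ D v q) (ZbQ D v q) (FQ v t) c a = sF (D.P h t) (ZQ D v q) (ZbQ D v q) (FQ v t) c b :=
    sF_fac (D.P h t) (FQ v t) (fun i => ZQ_Zb q i) c a b hab
  have e2 := tvn_tup (D.P h t) (FQ v t) a b (tup (FQ v t) a) (tup (FQ v t) b) hab
  show (¬ sF (D.P h t) (ZQ D v q) (ZbQ D v q) (FQ v t) c a ∧ ¬ 2 * c.e1 ≤ tvn (D.P h t) (ZQ D v q) (FQ v t) ∅ a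
    (tup (FQ v t) a)) = (¬ sF (D.P h t) (ZQ D v q) (ZbQ D v q) (FQ v t) c b ∧
    ¬ 2 * c.e1 ≤ tvn (D.P h t) (ZQ D v q) (FQ v t) ∅ b (tup (FQ v t) b))
  rw [e1, e2]

/-- **ONE ORDERED TRIPLE, ONE TIME** : strong `i`, weak `a`, strong `b` -/
theorem wk2_one {n N1 : ℝ} (hn : 1 ≤ n) (hN1 : 1 ≤ N1) (H : D.Hyp dg prr al T Lam)
    (R : Run h (pr3 (Fin 3) n N1) (SS1 (Fin 3)) (AdmDep D) v) {t : ℕ} (ht : t < T) {q : ℕ} (hq : q ≤ 5 * t + 5)
    {i a b : Fin 3} (hia : i ≠ a) (hib : i ≠ b) (hab : a ≠ b) (hB : 0 ≤ r.B) (hk : 0 ≤ r.B * (kap c + 2 * c.eF))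
    (h2 : 0 < c.e2) (h3 : 0 < c.e3) (hd : 0 < c.dH) (hd2 : c.dH ≤ 1 / 2) {qq X1 : ℝ} (hqq : 0 < qq)
    (hnum : 4 * Real.log (1 / al) / n + 2 * (r.B * (kap c + 2 * c.eF)) ≤ qq / 2) :
    (D.P h t).Pr (fun w => (gd h v c t q w ∧ r.B < rt h v t q i w ∧ rt h v t q a w ≤ r.B ∧ r.B < rt h v t q b w ∧
      wkH (D.P h t) (ZQ D v q) (FQ v t) c i a b w (tup (FQ v t) w)) ∧ spQ h v (5 * t + 5) a b w ≤ X1) ≤
      Real.sqrt (2 * qq) * (((D.P h t).Pr (fun w => r.B < rt h v t q b w) + (D.P h t).Pr (fun w => r.B < rt h v t q i w)) / 2) +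
        Real.exp X1 / al * Real.exp (1 - n * N1 * qq / 4) * (D.P h t).Pr (fun w => r.B < rt h v t q i w) := by
  set P := D.P h t with hP
  have hrf : ∀ j x, Fac (fun u => (ZbQ D v (5 * t + 5) j u, ZQ D v q u))
      (fun w => rF P (ZbQ D v q) (FQ v t) (ZbQ D v (5 * t + 5)) j w x) := fun j x =>
    rF_fac P (FQ v t) (fun i => ZQ_Zb q i) j x
  have k := Wk2.wk2_run (h := h) hn hN1 H R ht (b := a) (c := b) (d := i) hab hia.symm hib.symm
    (Ar := fun w f => gd h v c t q w ∧ rF P (ZbQ D v q) (FQ v t) (ZbQ D v (5 * t + 5)) a w f ≤ r.B ∧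
      wkH P (ZQ D v q) (FQ v t) c i a b w (tp i b (FQ v t i w) (FQ v t b w) f))
    (fun f x y hxy => by
      simp only [Prod.mk.injEq] at hxy
      obtain ⟨⟨x1, x2⟩, x3⟩ := hxy
      have z1 : ZQ D v q x = ZQ D v q y := ZQ_mono (φ := φ) hq x y x3
      have e1 : gd h v c t q x = gd h v c t q y := gd_fac t q x y z1
      have e2 : rF P (ZbQ D v q) (FQ v t) (ZbQ D v (5 * t + 5)) a x f =
        rF P (ZbQ D v q) (FQ v t) (ZbQ D v (5 * t + 5)) a y f := hrf a f x y (Prod.ext (ZQ_Zb _ a x y x3) z1)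
      have e3 : ∀ f, wkH P (ZQ D v q) (FQ v t) c i a b x f = wkH P (ZQ D v q) (FQ v t) c i a b y f := fun f =>
        wkH_fac P (FQ v t) c i a b f x y z1
      show (gd h v c t q x ∧ rF P (ZbQ D v q) (FQ v t) (ZbQ D v (5 * t + 5)) a x f ≤ r.B ∧
        wkH P (ZQ D v q) (FQ v t) c i a b x (tp i b (FQ v t i x) (FQ v t b x) f)) =
        (gd h v c t q y ∧ rF P (ZbQ D v q) (FQ v t) (ZbQ D v (5 * t + 5)) a y f ≤ r.B ∧
        wkH P (ZQ D v q) (FQ v t) c i a b y (tp i b (FQ v t i y) (FQ v t b y) f))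
      rw [e1, e2, e3, x1, x2])
    (ac := fun w => r.B < rt h v t q b w) (ad := fun w => r.B < rt h v t q i w)
    (fun x y hxy => by
      show (r.B < rt h v t q b x) = (r.B < rt h v t q b y)
      rw [rt_fac t hq b x y hxy])
    (fun x y hxy => by
      show (r.B < rt h v t q i x) = (r.B < rt h v t q i y)
      rw [rt_fac t hq i x y hxy])
    (q := qq) (X1 := X1) (kk := r.B * (kap c + 2 * c.eF)) hqq hk
    (fun w hw => wrow_mass P (FQ v t) hw (fun i => ZbQ_mono (φ := φ) hq i) hB hk h2 h3 hd hd2 hia hib hab) hnum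
  refine le_trans (P.Pr_mono fun w hw hh => ?_) k
  obtain ⟨⟨g1, g2, g3, g4, g5⟩, g6⟩ := hh
  refine ⟨⟨g1, g3, ?_⟩, g4, g2, g6⟩
  rw [show (tp i b (FQ v t i w) (FQ v t b w) (FQ v t a w)) = tup (FQ v t) w from
    tp_self hib hia hab.symm (tup (FQ v t) w)]
  exact g5

/-- **THE WEAK TUPLES, ONE TIME** -/
theorem wk2_six {n N1 : ℝ} (hn : 1 ≤ n) (hN1 : 1 ≤ N1) (H : D.Hyp dg prr al T Lam)
    (R : Run h (pr3 (Fin 3) n N1) (SS1 (Fin 3)) (AdmDep D) v) {t : ℕ} (ht : t < T) {q : ℕ} (hq : q ≤ 5 * t + 5)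
    (hB : 0 ≤ r.B) (hk : 0 ≤ r.B * (kap c + 2 * c.eF))
    (h2 : 0 < c.e2) (h3 : 0 < c.e3) (hd : 0 < c.dH) (hd2 : c.dH ≤ 1 / 2) {qq X1 : ℝ} (hqq : 0 < qq)
    (hnum : 4 * Real.log (1 / al) / n + 2 * (r.B * (kap c + 2 * c.eF)) ≤ qq / 2) :
    (D.P h t).Pr (fun w => (gd h v c t q w ∧ ∃ i, Wk (D.P h t) (ZQ D v q) (ZbQ D v q) (FQ v t) (ZbQ D v (5 * t + 5)) c r i w
      (tup (FQ v t) w)) ∧ ∀ i k, i ≠ k → spQ h v (5 * t + 5) i k w ≤ X1) ≤
      2 * (Real.sqrt (2 * qq) + Real.exp X1 / al * Real.exp (1 - n * N1 * qq / 4)) *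
        ∑ j, (D.P h t).Pr (fun w => r.B < rt h v t q j w) := by
  classical
  set P := D.P h t with hP
  set E : Fin 3 → Fin 3 → Fin 3 → Pt (Fin 3) X β φ → Prop := fun i a b w =>
    (gd h v c t q w ∧ r.B < rt h v t q i w ∧ rt h v t q a w ≤ r.B ∧ r.B < rt h v t q b w ∧
      wkH P (ZQ D v q) (FQ v t) c i a b w (tup (FQ v t) w)) ∧ spQ h v (5 * t + 5) a b w ≤ X1 with hE
  have h1 := fun (i a b : Fin 3) (hia : i ≠ a) (hib : i ≠ b) (hab : a ≠ b) =>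
    wk2_one (h := h) (v := v) (c := c) (r := r) hn hN1 H R ht hq hia hib hab hB hk h2 h3 hd hd2 (X1 := X1) hqq hnum
  have key : ∀ i a b : Fin 3, i ≠ a → i ≠ b → a ≠ b → (a = i + 1 ∧ b = i + 2) ∨ (a = i + 2 ∧ b = i + 1) := by decide
  have key2 : ∀ i : Fin 3, i ≠ i + 1 ∧ i ≠ i + 2 ∧ i + 1 ≠ i + 2 := by decide
  have h4 : P.Pr (fun w => (gd h v c t q w ∧ ∃ i, Wk P (ZQ D v q) (ZbQ D v q) (FQ v t) (ZbQ D v (5 * t + 5)) c r i w
      (tup (FQ v t) w)) ∧ ∀ i k, i ≠ k → spQ h v (5 * t + 5) i k w ≤ X1) ≤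
      ∑ i, (P.Pr (E i (i + 1) (i + 2)) + P.Pr (E i (i + 2) (i + 1))) := by
    unfold FP.Pr
    rw [Finset.sum_congr rfl fun i _ => (P.E_add _ _).symm, ← P.E_sum]
    refine P.E_mono fun w _ => ?_
    by_cases h5 : (gd h v c t q w ∧ ∃ i, Wk P (ZQ D v q) (ZbQ D v q) (FQ v t) (ZbQ D v (5 * t + 5)) c r i w
      (tup (FQ v t) w)) ∧ ∀ i k, i ≠ k → spQ h v (5 * t + 5) i k w ≤ X1
    · rw [ind_of h5]
      obtain ⟨⟨hg, i, hi, a, b, hia, hib, hab, ha, hb, hkk⟩, hs⟩ := h5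
      have hEw : E i a b w := ⟨⟨hg, hi, ha, hb, hkk⟩, hs a b hab⟩
      have h6 : 1 ≤ ind (E i (i + 1) (i + 2) w) + ind (E i (i + 2) (i + 1) w) := by
        rcases key i a b hia hib hab with ⟨rfl, rfl⟩ | ⟨rfl, rfl⟩
        · rw [ind_of hEw]; linarith [ind_nonneg (E i (i + 2) (i + 1) w)]
        · rw [ind_of hEw]; linarith [ind_nonneg (E i (i + 1) (i + 2) w)]
      exact h6.trans (Finset.single_le_sum (f := fun i => ind (E i (i + 1) (i + 2) w) + ind (E i (i + 2) (i + 1) w))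
        (fun j _ => add_nonneg (ind_nonneg _) (ind_nonneg _)) (Finset.mem_univ i))
    · rw [ind_not h5]
      exact Finset.sum_nonneg fun j _ => add_nonneg (ind_nonneg _) (ind_nonneg _)
  refine h4.trans ?_
  have a0 := key2 0
  have a1 := key2 1
  have a2 := key2 2
  have b1 := h1 0 1 2 (by decide) (by decide) (by decide)
  have b2 := h1 0 2 1 (by decide) (by decide) (by decide)
  have b3 := h1 1 2 0 (by decide) (by decide) (by decide)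
  have b4 := h1 1 0 2 (by decide) (by decide) (by decide)
  have b5 := h1 2 0 1 (by decide) (by decide) (by decide)
  have b6 := h1 2 1 0 (by decide) (by decide) (by decide)
  rw [Fin.sum_univ_three, Fin.sum_univ_three]
  rw [show (0 : Fin 3) + 1 = 1 from rfl, show (0 : Fin 3) + 2 = 2 from rfl, show (1 : Fin 3) + 1 = 2 from rfl,
    show (1 : Fin 3) + 2 = 0 from rfl, show (2 : Fin 3) + 1 = 0 from rfl, show (2 : Fin 3) + 2 = 1 from rfl]
  refine (add_le_add (add_le_add (add_le_add b1 b2) (add_le_add b3 b4)) (add_le_add b5 b6)).trans (le_of_eq ?_)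
  ring

section tabs

variable {W : Type} [Fintype W] (tb : Tab D prr T W) {A : Fin 6 → ℕ → Pt (Fin 3) X β φ → Prop}

theorem ex_qe {q : ℕ} (hm : q % 5 = 1 ∨ q % 5 = 4) : qe (sO q) (q / 5) = 5 * (q / 5) + 5 := by
  rcases hm with h1 | h1
  · rw [sO_v1 h1]; rfl
  · rw [sO_v4 h1]; rfl

theorem rt_rtO {q : ℕ} (hm : q % 5 = 1 ∨ q % 5 = 4) (j : Fin 3) (w : Om W X β) :
    rtO h tb v j q w = rt h v (q / 5) q j (tb.pt (q / 5) w) := by
  unfold rtO rS rt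
  rw [qs_rm hm, ex_qe hm]
  rfl

/-- **THE WEAK TUPLES OF ONE SUBSTEP** -/
theorem wkO_le {n N1 : ℝ} (hn : 1 ≤ n) (hN1 : 1 ≤ N1) (H : D.Hyp dg prr al T Lam)
    (R : Run h (pr3 (Fin 3) n N1) (SS1 (Fin 3)) (AdmDep D) v) {p : AP}
    (hA : ∀ s t u, t < T → (s = 1 ∨ s = 5) → A s t u → V3.Ar h v p (2 * t + 1) u) {q : ℕ} (hqT : q / 5 < T)
    (hm : q % 5 = 1 ∨ q % 5 = 4)
    (hB : 0 ≤ r.B) (hk : 0 ≤ r.B * (kap c + 2 * c.eF))
    (h2 : 0 < c.e2) (h3 : 0 < c.e3) (hd : 0 < c.dH) (hd2 : c.dH ≤ 1 / 2) {qq : ℝ} (hqq : 0 < qq)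
    (hnum : 4 * Real.log (1 / al) / n + 2 * (r.B * (kap c + 2 * c.eF)) ≤ qq / 2) {e : ℝ} (he : 1 + e ≤ r.B) :
    tb.Ps.Pr (wkO h tb v c r A q) ≤ 2 * (Real.sqrt (2 * qq) + Real.exp p.X1 / al * Real.exp (1 - n * N1 * qq / 4)) *
        ∑ j, tb.Ps.Pr (acO h tb v e j q) +
      (D.P h (q / 5 + 1)).Pr (fun w => V3.Ar h v p (2 * (q / 5) + 1) w ∧ ¬ V3.Ar h v p (2 * (q / 5 + 1)) w) := by
  set t := q / 5 with ht
  have hq5 : q ≤ 5 * t + 5 := by omega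
  have hX : ∀ w, V3.Ar h v p (2 * (t + 1)) w → ∀ i k, i ≠ k → spQ h v (5 * t + 5) i k w ≤ p.X1 := fun w hw i k hik => by
    rw [show 5 * t + 5 = 5 * (t + 1) by ring, sp_0]
    exact hw.2.2.1 _ le_rfl i k hik
  have h1 : tb.Ps.Pr (wkO h tb v c r A q) ≤ (D.P h t).Pr (fun w =>
      ((gd h v c t q w ∧ ∃ i, Wk (D.P h t) (ZQ D v q) (ZbQ D v q) (FQ v t) (ZbQ D v (5 * t + 5)) c r i w
      (tup (FQ v t) w)) ∧ ∀ i k, i ≠ k → spQ h v (5 * t + 5) i k w ≤ p.X1) ∨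
      (V3.Ar h v p (2 * t + 1) w ∧ ¬ V3.Ar h v p (2 * (t + 1)) w)) := by
    unfold FP.Pr
    rw [← (pul_pt h tb hqT.le).E]
    refine tb.Ps.E_mono fun w _ => ind_mono fun hh => ?_
    obtain ⟨⟨hr, ha, _⟩, hs, i, hi⟩ := hh
    rw [ex_qe hm] at hi
    have hAr : V3.Ar h v p (2 * t + 1) (tb.pt t w) := hA (sO q) t _ hqT (by
      rcases hm with h1 | h1
      · exact Or.inl (sO_v1 h1)
      · exact Or.inr (sO_v4 h1)) ha
    by_cases hD : V3.Ar h v p (2 * (t + 1)) (tb.pt t w)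
    · exact Or.inl ⟨⟨⟨hs.1, hs.2⟩, i, hi⟩, hX _ hD⟩
    · exact Or.inr ⟨hAr, hD⟩
  refine h1.trans (((D.P h t).Pr_or_le _ _).trans (add_le_add ?_ (le_of_eq ?_)))
  · refine (wk2_six (h := h) (v := v) (c := c) (r := r) hn hN1 H R hqT hq5 hB hk h2 h3 hd hd2 (X1 := p.X1) hqq
      hnum).trans ?_
    refine mul_le_mul_of_nonneg_left (Finset.sum_le_sum fun j _ => ?_) (by
      have := h.pos
      positivity)
    have e1 : (D.P h t).Pr (fun w => r.B < rt h v t q j w) = tb.Ps.Pr (fun w => r.B < rtO h tb v j q w) := by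
      unfold FP.Pr
      rw [← (pul_pt h tb hqT.le).E]
      refine tb.Ps.E_congr fun w _ => ?_
      show ind (r.B < rt h v t q j (tb.pt t w)) = ind (r.B < rtO h tb v j q w)
      rw [rt_rtO (h := h) tb hm]
    rw [e1]
    exact tb.Ps.Pr_mono fun w _ hh => acO_of h tb he (by omega) hh
  · refine Pr_xy h (fun x y F F' => ?_) t (t + 1)
    show (_ ∧ ¬ _) = (_ ∧ ¬ _)
    rw [propext (Ar_lab h p (2 * t + 1) x y F F'), propext (Ar_lab h p (2 * (t + 1)) x y F F')]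

/-- **THE WEAK TUPLES OF THE REGION, ALL TIMES** -/
theorem wk2_sum {n N1 : ℝ} (hn : 1 ≤ n) (hN1 : 1 ≤ N1) (H : D.Hyp dg prr al T Lam)
    (R : Run h (pr3 (Fin 3) n N1) (SS1 (Fin 3)) (AdmDep D) v) {p : AP}
    (hA : ∀ s t u, t < T → (s = 1 ∨ s = 5) → A s t u → V3.Ar h v p (2 * t + 1) u)
    (hB : 0 ≤ r.B) (hk : 0 ≤ r.B * (kap c + 2 * c.eF))
    (h2 : 0 < c.e2) (h3 : 0 < c.e3) (hd : 0 < c.dH) (hd2 : c.dH ≤ 1 / 2) {qq : ℝ} (hqq : 0 < qq)
    (hnum : 4 * Real.log (1 / al) / n + 2 * (r.B * (kap c + 2 * c.eF)) ≤ qq / 2) {e : ℝ} (he0 : 0 < e) (he1 : e ≤ 1)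
    (he : 1 + e ≤ r.B) :
    ∑ q ∈ range (5 * T), tb.Ps.Pr (wkO h tb v c r A q) ≤
      2 * (Real.sqrt (2 * qq) + Real.exp p.X1 / al * Real.exp (1 - n * N1 * qq / 4)) * (720 * Lam / e ^ 2) +
      2 * (D.P h T).Pr (fun w => ¬ V3.Ar h v p (2 * T) w) := by
  classical
  set K := 2 * (Real.sqrt (2 * qq) + Real.exp p.X1 / al * Real.exp (1 - n * N1 * qq / 4)) with hK
  have hK0 : 0 ≤ K := by
    have := h.pos
    rw [hK]; positivity
  have z0 : ∀ q, ¬ (q % 5 = 1 ∨ q % 5 = 4) → tb.Ps.Pr (wkO h tb v c r A q) = 0 := fun q hq => by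
    unfold FP.Pr
    rw [tb.Ps.E_congr (g := fun _ => 0) fun w _ => ind_not fun hh => hq (rm_mod hh.1.1), tb.Ps.E_const]
  set dd : ℕ → ℝ := fun t => (D.P h (t + 1)).Pr (fun w => V3.Ar h v p (2 * t + 1) w ∧ ¬ V3.Ar h v p (2 * (t + 1)) w) with hdd
  have one : ∀ q, q / 5 < T → (q % 5 = 1 ∨ q % 5 = 4) → tb.Ps.Pr (wkO h tb v c r A q) ≤
      K * ∑ j, tb.Ps.Pr (acO h tb v e j q) + dd (q / 5) := fun q hqT hm =>
    wkO_le tb hn hN1 H R hA hqT hm hB hk h2 h3 hd hd2 hqq hnum he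
  have h5 : ∑ q ∈ range (5 * T), tb.Ps.Pr (wkO h tb v c r A q) ≤
      K * (∑ j, ∑ q ∈ range (5 * T), tb.Ps.Pr (acO h tb v e j q)) + 2 * ∑ t ∈ range T, dd t := by
    rw [Finset.sum_comm, Finset.mul_sum, Finset.mul_sum, sum_five, sum_five, ← Finset.sum_add_distrib]
    refine Finset.sum_le_sum fun t ht => ?_
    have ht' := Finset.mem_range.1 ht
    have n0 : ∀ q, 0 ≤ K * ∑ j, tb.Ps.Pr (acO h tb v e j q) := fun q =>
      mul_nonneg hK0 (Finset.sum_nonneg fun j _ => FP.Pr_nonneg _ _)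
    have d1 : (5 * t + 1) / 5 = t := by omega
    have d4 : (5 * t + 4) / 5 = t := by omega
    have k1 := one (5 * t + 1) (by omega) (by omega)
    have k4 := one (5 * t + 4) (by omega) (by omega)
    rw [d1] at k1
    rw [d4] at k4
    rw [z0 (5 * t) (by omega), z0 (5 * t + 2) (by omega), z0 (5 * t + 3) (by omega)]
    have m0 := n0 (5 * t)
    have m2 := n0 (5 * t + 2)
    have m3 := n0 (5 * t + 3)
    linarith
  refine h5.trans (add_le_add (mul_le_mul_of_nonneg_left ?_ hK0) ?_)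
  · refine (Finset.sum_le_sum fun j _ => acO_sum h tb H R hn hN1 j he0 he1).trans (le_of_eq ?_)
    rw [Finset.sum_const, Finset.card_univ, Fintype.card_fin, nsmul_eq_mul]
    push_cast
    ring
  · exact mul_le_mul_of_nonneg_left (sum_killT (h := h) (v := v) H p) (by norm_num)

end tabs

end Wk2F

end

end Pool.Agent.GMH.TRF
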