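import Pool.Agent.GMH.HotNS

/-!
# GMH.Wk2S: the weak row, one class of the exact vertex, and its rarity (helper7; WK2 of helper65, steps S1, S2)

`|K| = 3`, vertices `b`, `c`, `d`; state saturated (`Bk`).  Top of the far face `w.2.2 b` (sees `c`, `d`); `W` = the two tops
which see `b` and the points and letters of `c`, `d`; `Ar w F` = a row seen by `W` whose mass in the law `QB` given the points and
letters of `c`, `d` is at most `kk`.
* **`wk_cls`** : `Q (Ar at the far top) ≤ (2 N 0 (Lb V + 1) + 2 (N c + N d) log (1 / al)) / N (far) + 2 kk`, `Q` = law given an event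
  `V` of (hidden point, exact point of `b`) of the class;
* **`wk_rare`** : the points of (hidden point, exact point of `b`) whose conditional probability of the row is more than `q` have
  probability at most `exp (1 - N (far) q / (4 N 0))` given the public class and the exact point of `b`.
-/

set_option autoImplicit false
set_option linter.unusedSectionVars false
set_option linter.unusedVariables false

namespace Pool.Agent.GMH

open Finset Pool.Agent.PWZ Pool.Agent.M3 Pool.Agent.GM Pool.Agent.GM.Harm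

section wkr

variable {Om : Type*} [Fintype Om] {P Q : FP Om} {κ τ ρ ζ : Type*}

/-- **a row against the information**, one row -/
theorem wk_row (hac : Q.Ac P) {Y : Om → ρ} {W : Om → κ} {Z : Om → ζ} (hWZ : Fac W Z) {R : Om → ρ → Prop}
    (hR : ∀ f, Fac W (fun w => R w f)) {kk : ℝ} (hk0 : 0 ≤ kk)
    (hk : ∀ w, Q.p w ≠ 0 → ∑ f ∈ vals Y, P.pv Z Y w f * ind (R w f) ≤ kk) :
    Q.Pr (fun w => R w (Y w)) ≤ Q.klc P Y Z + Q.I Y W Z + 2 * kk := by
  classical
  have e1 : Q.Pr (fun w => R w (Y w)) = Q.E (fun w => ∑ f ∈ vals Y, Q.pv W Y w f * ind (R w f)) := by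
    have h1 : (fun w => ∑ f ∈ vals Y, Q.pv W Y w f * ind (R w f)) = Q.ce W (fun u => ind (R u (Y u))) := by
      funext w
      exact Q.sum_pv (W := W) Y (F := fun w f => ind (R w f)) (fun f => (hR f).comp fun q => ind q) w
    rw [h1, Q.E_ce]
    rfl
  rw [e1, ← E_klp hac hWZ]
  have h2 : ∀ w, Q.p w ≠ 0 → ∑ f ∈ vals Y, Q.pv W Y w f * ind (R w f) ≤ klp Q P Y W Z w + 2 * kk := by
    intro w hw
    have h3 := klp_dv hac hWZ hw (fun f => ind (R w f)) (Y := Y)
    have h4 : ∑ f ∈ vals Y, P.pv Z Y w f * Real.exp (ind (R w f)) ≤ 1 + 2 * kk := by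
      have h5 : ∀ f ∈ vals Y, P.pv Z Y w f * Real.exp (ind (R w f)) ≤
          P.pv Z Y w f + 2 * (P.pv Z Y w f * ind (R w f)) := by
        intro f _
        have h6 := P.pv_nonneg Z Y w f
        by_cases h7 : R w f
        · rw [ind_of h7, mul_one]
          have h8 := Real.exp_one_lt_d9
          nlinarith
        · rw [ind_not h7, Real.exp_zero]
          linarith
      refine (Finset.sum_le_sum h5).trans ?_
      rw [Finset.sum_add_distrib, ← Finset.mul_sum, P.pv_sum Z Y (hac w hw)]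
      linarith [hk w hw]
    have h9 : 0 < ∑ f ∈ vals Y, P.pv Z Y w f * Real.exp (ind (R w f)) := by
      have h10 : ∑ f ∈ vals Y, P.pv Z Y w f ≤ ∑ f ∈ vals Y, P.pv Z Y w f * Real.exp (ind (R w f)) := by
        refine Finset.sum_le_sum fun f _ => ?_
        have h6 := P.pv_nonneg Z Y w f
        have h11 := Real.one_le_exp (ind_nonneg (R w f))
        nlinarith
      rw [P.pv_sum Z Y (hac w hw)] at h10
      linarith
    have h12 := Real.log_le_sub_one_of_pos h9
    linarith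
  refine (Q.E_mono h2).trans (le_of_eq ?_)
  rw [Q.E_add, Q.E_const]

end wkr

section bit

variable {K X β γ φ υ : Type} [Fintype K] [DecidableEq K] [Fintype X] [Fintype β] [Fintype φ] [Nonempty X] [Nonempty β]
  {D : HD K X β γ φ} {al : ℝ} {h : D.Thick al} {N : Finset K → ℝ} {S : Finset (Finset K)}
  {U : Finset K → X → (K → β) → υ} {t : ℕ} {b c d : K} {w0 : Pt K X β φ} {V : Pt K X β φ → Prop}

/-- **THE WEAK ROW, ONE EVENT OF THE EXACT VERTEX** -/
theorem wk_cls (B : Bk h N S U t b c d) (I : Ib h U t b w0 V) {Ar : Pt K X β φ → φ → Prop}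
    (hAr : ∀ F, Fac (fun w : Pt K X β φ => ((w.2.2 d, w.2.2 c), (zf U c w, zf U d w))) (fun w => Ar w F)) {kk : ℝ}
    (hk0 : 0 ≤ kk)
    (hk : ∀ w, ((D.P h t).cond V).p w ≠ 0 → ∑ F ∈ vals (fun v : Pt K X β φ => v.2.2 b),
      (QB h U t b w0).pv (fun w => (zf U c w, zf U d w)) (fun v => v.2.2 b) w F * ind (Ar w F) ≤ kk) :
    ((D.P h t).cond V).Pr (fun w => Ar w (w.2.2 b)) ≤
      (2 * N ∅ * (Lb h U t b w0 V + 1) + 2 * ((N {c} + N {d}) * Real.log (1 / al))) / N (univ.erase b) + 2 * kk := by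
  classical
  have h1 := wk_row (Q := (D.P h t).cond V) (P := QB h U t b w0) I.acB (Y := fun v : Pt K X β φ => v.2.2 b)
    (W := fun w : Pt K X β φ => ((w.2.2 d, w.2.2 c), (zf U c w, zf U d w))) (Z := fun w => (zf U c w, zf U d w))
    (Fac.snd _ _) hAr hk0 hk
  have h2 := face_far B I
  have h3 : ((D.P h t).cond V).I (fun v : Pt K X β φ => v.2.2 b)
      (fun w : Pt K X β φ => ((w.2.2 d, w.2.2 c), (zf U c w, zf U d w))) (fun w => (zf U c w, zf U d w)) ≤
      ((D.P h t).cond V).I (fun w => w.2.2 b) (fun w => (w.2.2 d, w.2.2 c)) (fun w => (zf U c w, zf U d w)) := by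
    rw [FP.I_comm, FP.I_comm _ (fun w : Pt K X β φ => w.2.2 b) (fun w => (w.2.2 d, w.2.2 c))]
    exact FP.I_mono _ (X := fun w : Pt K X β φ => (w.2.2 d, w.2.2 c)) _ (Fac.refl _)
  have hN := B.n2 b
  have h4 : ((D.P h t).cond V).klc (QB h U t b w0) (fun w => w.2.2 b) (fun w => (zf U c w, zf U d w)) +
      ((D.P h t).cond V).I (fun w => w.2.2 b) (fun w => (w.2.2 d, w.2.2 c)) (fun w => (zf U c w, zf U d w)) ≤
      (2 * N ∅ * (Lb h U t b w0 V + 1) + 2 * ((N {c} + N {d}) * Real.log (1 / al))) / N (univ.erase b) := by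
    rw [le_div_iff₀ hN, mul_comm]
    exact h2
  linarith

/-- **THE WEAK ROW IS RARE** -/
theorem wk_rare (B : Bk h N S U t b c d) (hN0 : 0 < N ∅) (hw0 : (D.P h t).p w0 ≠ 0) {Ar : Pt K X β φ → φ → Prop}
    (hAr : ∀ F, Fac (fun w : Pt K X β φ => ((w.2.2 d, w.2.2 c), (zf U c w, zf U d w))) (fun w => Ar w F)) {kk q : ℝ}
    (hk0 : 0 ≤ kk)
    (hk : ∀ w, (D.P h t).p w ≠ 0 → clsb U (pub0 D t U w0) b w0 w → ∑ F ∈ vals (fun v : Pt K X β φ => v.2.2 b),
      (QB h U t b w0).pv (fun w => (zf U c w, zf U d w)) (fun v => v.2.2 b) w F * ind (Ar w F) ≤ kk)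
    (hq : 2 * ((N {c} + N {d}) * Real.log (1 / al)) / N (univ.erase b) + 2 * kk ≤ q / 2) :
    (QB h U t b w0).Pr (fun w => clsb U (pub0 D t U w0) b w0 w ∧
      q < (D.P h t).ce (Ah D t {b}) (fun v => ind (Ar v (v.2.2 b))) w) ≤
      Real.exp (1 - N (univ.erase b) * q / (4 * N ∅)) := by
  classical
  set E : Pt K X β φ → Prop := fun w => clsb U (pub0 D t U w0) b w0 w ∧
      q < (D.P h t).ce (Ah D t {b}) (fun v => ind (Ar v (v.2.2 b))) w with hE
  by_cases h0 : (QB h U t b w0).Pr E = 0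
  · rw [h0]
    exact (Real.exp_pos _).le
  obtain ⟨w1, hw1, hE1⟩ : ∃ w1, (QB h U t b w0).p w1 ≠ 0 ∧ E w1 := by
    by_contra hh
    push Not at hh
    refine h0 ?_
    have h1 : (QB h U t b w0).Pr E = (QB h U t b w0).E (fun _ => 0) :=
      (QB h U t b w0).E_congr fun w hw => ind_not (hh w hw)
    rw [h1, FP.E_const]
  have hs1 : (D.P h t).p w1 ≠ 0 := (cond_supp (xc_ne hw0) hw1).2
  have hx1 : xc D U t {b} w0 w1 := QB_supp hw0 hw1
  have hfac : Fac (Ah D t {b}) E := by
    intro v w hvw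
    have e1 := clsb_Ah (b := b) (w0 := w0) B.dep (pub0_C (D := D) (U := U) (t := t) w0) B.oth v w hvw
    have e2 := (D.P h t).ce_fac (Ah D t {b}) (fun v => ind (Ar v (v.2.2 b))) v w hvw
    show (_ ∧ _) = (_ ∧ _)
    rw [e1, e2]
  have hp1 : pub0 D t U w1 = pub0 D t U w0 := pub0_eq hE1.1.1
  have I : Ib h U t b w1 E :=
    { fac := hfac
      self := hE1
      supp := hs1
      sub := fun v hv => by
        refine ⟨?_, hv.1.2.1.trans hE1.1.2.1.symm, hv.1.2.2.trans hE1.1.2.2.symm⟩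
        rw [hp1]
        exact hv.1.1 }
  have hQ : QB h U t b w1 = QB h U t b w0 := by
    unfold QB
    have e : xc D U t {b} w1 = xc D U t {b} w0 := by
      funext v
      show (le (LL U) ∅ v = le (LL U) ∅ w1 ∧ BB D t {b} v = BB D t {b} w1) =
        (le (LL U) ∅ v = le (LL U) ∅ w0 ∧ BB D t {b} v = BB D t {b} w0)
      rw [hx1.1, hx1.2]
    rw [e]
  have h2 := wk_cls B I hAr hk0 (fun w hw => by
    obtain ⟨h3, h4⟩ := cond_supp I.ne hw
    rw [hQ]
    exact hk w h4 h3.1)
  have h3 : q ≤ ((D.P h t).cond E).Pr (fun w => Ar w (w.2.2 b)) :=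
    cond_ce_ge (D.P h t) I.ne hfac fun w _ hw => hw.2.le
  have hN := B.n2 b
  have h4 : N (univ.erase b) * q / (4 * N ∅) ≤ Lb h U t b w1 E + 1 := by
    rw [div_le_iff₀ (by positivity)]
    have h5 := h3.trans h2
    rw [add_div] at h5
    have h6 : q / 2 ≤ 2 * N ∅ * (Lb h U t b w1 E + 1) / N (univ.erase b) := by linarith
    rw [le_div_iff₀ hN] at h6
    linarith
  have h5 : (QB h U t b w0).Pr E = Real.exp (- Lb h U t b w1 E) := by
    unfold Lb
    rw [hQ, one_div, Real.log_inv, neg_neg, Real.exp_log]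
    exact lt_of_le_of_ne ((QB h U t b w0).Pr_nonneg _) (Ne.symm h0)
  rw [h5]
  exact Real.exp_le_exp.2 (by linarith)

end bit

end Pool.Agent.GMH
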