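import Pool.Agent.GMH.VTot

/-!
# GMH/XorA: the thin level with the convex term kept, part 1 (helper13)

`psx u = u - 1 + e^(-u)`.  Lemma S, the loss in the cells and the private codes with the term `psx` of the increment of the
thin potential on the left side.
-/

set_option autoImplicit false
set_option linter.unusedSectionVars false
set_option linter.unusedVariables false

namespace Pool.Agent.GMH.V3

open Finset Pool.Agent.PWZ Pool.Agent.M3 Pool.Agent.GM Pool.Agent.GM.Harm Pool.Agent.GMH Pool.Agent.GMH.NZ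

/-! ### the convex function -/

noncomputable def psx (u : ℝ) : ℝ := u - 1 + Real.exp (-u)

theorem psx_nn (u : ℝ) : 0 ≤ psx u := by
  have := Real.add_one_le_exp (-u)
  unfold psx
  linarith

theorem psx_sq (u : ℝ) : min (u ^ 2) 1 ≤ 4 * psx u := by
  rcases le_or_gt u 2 with h | h
  · have h1 := Real.add_one_le_exp (-u / 2)
    have h2 : 0 ≤ -u / 2 + 1 := by linarith
    have h3 : (-u / 2 + 1) ^ 2 ≤ Real.exp (-u / 2) ^ 2 := pow_le_pow_left₀ h2 h1 2
    have h4 : Real.exp (-u / 2) ^ 2 = Real.exp (-u) := by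
      rw [← Real.exp_nat_mul]
      congr 1
      push_cast
      ring
    rw [h4] at h3
    refine (min_le_left _ _).trans ?_
    unfold psx
    nlinarith
  · refine (min_le_right _ _).trans ?_
    have h1 := Real.exp_pos (-u)
    unfold psx
    linarith

/-- the mass of a large increment -/
theorem psx_ind {c u : ℝ} (hc : 0 < c) (hc1 : c ≤ 1) : c ^ 2 * ind (c ≤ |u|) ≤ 4 * psx u := by
  by_cases h : c ≤ |u|
  · rw [ind_of h, mul_one]
    refine le_trans (le_min ?_ ?_) (psx_sq u)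
    · rw [← sq_abs u]
      exact pow_le_pow_left₀ hc.le h 2
    · nlinarith
  · rw [ind_not h, mul_zero]
    exact mul_nonneg (by norm_num) (psx_nn u)

section S

variable {Om : Type*} [Fintype Om] {P : FP Om} {κ ι θ ν : Type*} {X : Om → κ} {Y : Om → ι} {Z : Om → θ} {V : Om → ν}

/-! ### Lemma S -/

/-- one child -/
theorem lemS3p_one {Q P : FP Om} (hac : Q.Ac P) (T : κ → ι → θ → Prop) (g : κ → ι → θ → ℝ) :
    Q.E (fun w => ind (T (X w) (Y w) (Z w)) * (Real.log (D3 P X Y Z (X w) (Y w) (Z w)) -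
      Real.log (D3 Q X Y Z (X w) (Y w) (Z w)))) +
    Q.E (fun w => ind (T (X w) (Y w) (Z w)) * psx (Real.log (D3 Q X Y Z (X w) (Y w) (Z w)) -
      Real.log (D3 P X Y Z (X w) (Y w) (Z w)) + g (X w) (Y w) (Z w))) ≤
    Q.E (fun w => ind (T (X w) (Y w) (Z w)) * g (X w) (Y w) (Z w)) +
      ∑ x ∈ vals X, ∑ y ∈ vals Y, ∑ z ∈ vals Z, ind (T x y z) *
        (lw3 P X Y Z x y z * (rt Q P X x * rt Q P Y y * rt Q P Z z * Real.exp (-g x y z)) - lw3 Q X Y Z x y z) := by
  set F : κ → ι → θ → ℝ := fun x y z => rt Q P X x * rt Q P Y y * rt Q P Z z * Real.exp (-g x y z) with hF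
  have hF0 : ∀ x y z, 0 ≤ F x y z := fun x y z =>
    mul_nonneg (mul_nonneg (mul_nonneg (rt_nonneg x) (rt_nonneg y)) (rt_nonneg z)) (Real.exp_pos _).le
  have h1 : ∀ w, Q.p w ≠ 0 → ind (T (X w) (Y w) (Z w)) * (Real.log (D3 P X Y Z (X w) (Y w) (Z w)) -
      Real.log (D3 Q X Y Z (X w) (Y w) (Z w))) + ind (T (X w) (Y w) (Z w)) *
      psx (Real.log (D3 Q X Y Z (X w) (Y w) (Z w)) -
      Real.log (D3 P X Y Z (X w) (Y w) (Z w)) + g (X w) (Y w) (Z w)) ≤ ind (T (X w) (Y w) (Z w)) * g (X w) (Y w) (Z w) +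
      ind (T (X w) (Y w) (Z w)) * (lw3 P X Y Z (X w) (Y w) (Z w) * F (X w) (Y w) (Z w) /
        lw3 Q X Y Z (X w) (Y w) (Z w) - 1) := by
    intro w hw
    rw [← mul_add, ← mul_add]
    refine mul_le_mul_of_nonneg_left ?_ (ind_nonneg _)
    have hp := hac w hw
    have a1 := lw_pos hw X
    have a2 := lw_pos hw Y
    have a3 := lw_pos hw Z
    have b1 := lw_pos hp X
    have b2 := lw_pos hp Y
    have b3 := lw_pos hp Z
    have c1 := lw3_pos hw X Y Z
    have c2 := lw3_pos hp X Y Z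
    have e1 := Real.exp_pos (-g (X w) (Y w) (Z w))
    have hq : 0 < lw3 P X Y Z (X w) (Y w) (Z w) * F (X w) (Y w) (Z w) / lw3 Q X Y Z (X w) (Y w) (Z w) := by
      refine div_pos (mul_pos c2 ?_) c1
      exact mul_pos (mul_pos (mul_pos (div_pos a1 b1) (div_pos a2 b2)) (div_pos a3 b3)) e1
    have h4 : Real.log (lw3 P X Y Z (X w) (Y w) (Z w) * F (X w) (Y w) (Z w) / lw3 Q X Y Z (X w) (Y w) (Z w)) =
        Real.log (D3 P X Y Z (X w) (Y w) (Z w)) - Real.log (D3 Q X Y Z (X w) (Y w) (Z w)) -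
          g (X w) (Y w) (Z w) := by
      have h5 : lw3 P X Y Z (X w) (Y w) (Z w) * F (X w) (Y w) (Z w) / lw3 Q X Y Z (X w) (Y w) (Z w) =
          D3 P X Y Z (X w) (Y w) (Z w) / D3 Q X Y Z (X w) (Y w) (Z w) * Real.exp (-g (X w) (Y w) (Z w)) := by
        simp only [hF, rt, D3]
        field_simp
      have d1 : 0 < D3 P X Y Z (X w) (Y w) (Z w) := div_pos c2 (mul_pos (mul_pos b1 b2) b3)
      have d2 : 0 < D3 Q X Y Z (X w) (Y w) (Z w) := div_pos c1 (mul_pos (mul_pos a1 a2) a3)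
      rw [h5, Real.log_mul (div_pos d1 d2).ne' e1.ne', Real.log_exp, Real.log_div d1.ne' d2.ne']
      ring
    have h6 : Real.exp (-(Real.log (D3 Q X Y Z (X w) (Y w) (Z w)) -
      Real.log (D3 P X Y Z (X w) (Y w) (Z w)) + g (X w) (Y w) (Z w))) =
        lw3 P X Y Z (X w) (Y w) (Z w) * F (X w) (Y w) (Z w) / lw3 Q X Y Z (X w) (Y w) (Z w) := by
      rw [← Real.exp_log hq, h4]
      congr 1
      ring
    unfold psx
    rw [h6]
    linarith
  rw [← Q.E_add]
  refine (Q.E_mono h1).trans ?_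
  rw [Q.E_add]
  refine add_le_add_right ?_ _
  rw [← sum_lw3 Q X Y Z (fun x y z => ind (T x y z) *
    (lw3 P X Y Z x y z * F x y z / lw3 Q X Y Z x y z - 1))]
  refine Finset.sum_le_sum fun x _ => Finset.sum_le_sum fun y _ => Finset.sum_le_sum fun z _ => ?_
  rcases (lw3_nonneg Q X Y Z x y z).eq_or_lt with h | h
  · rw [← h, zero_mul, sub_zero]
    exact mul_nonneg (ind_nonneg _) (mul_nonneg (lw3_nonneg P X Y Z x y z) (hF0 x y z))
  · refine le_of_eq ?_
    have e : lw3 P X Y Z x y z * F x y z / lw3 Q X Y Z x y z * lw3 Q X Y Z x y z = lw3 P X Y Z x y z * F x y z :=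
      div_mul_cancel₀ _ h.ne'
    calc lw3 Q X Y Z x y z * (ind (T x y z) * (lw3 P X Y Z x y z * F x y z / lw3 Q X Y Z x y z - 1)) =
        ind (T x y z) * (lw3 P X Y Z x y z * F x y z / lw3 Q X Y Z x y z * lw3 Q X Y Z x y z -
          lw3 Q X Y Z x y z) := by ring
      _ = _ := by rw [e]

/-- **LEMMA S, three letters, alive letters**, any cut part `g`, convex term kept -/
theorem lemS3p (TX : κ → Prop) (TY : ι → Prop) (TZ : θ → Prop) (g : ν → κ → ι → θ → ℝ) :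
    P.E (fun w => ind (TX (X w) ∧ TY (Y w) ∧ TZ (Z w)) * (Real.log (D3 P X Y Z (X w) (Y w) (Z w)) -
      Real.log (D3 (P.cond fun u => V u = V w) X Y Z (X w) (Y w) (Z w)))) +
    P.E (fun w => ind (TX (X w) ∧ TY (Y w) ∧ TZ (Z w)) * psx (Real.log (D3 (P.cond fun u => V u = V w) X Y Z
      (X w) (Y w) (Z w)) - Real.log (D3 P X Y Z (X w) (Y w) (Z w)) + g (V w) (X w) (Y w) (Z w))) ≤
    P.E (fun w => ind (TX (X w) ∧ TY (Y w) ∧ TZ (Z w)) * g (V w) (X w) (Y w) (Z w)) +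
      NN3 P X Y Z V TX TY TZ g := by
  rw [← sum_cond V (fun v w => ind (TX (X w) ∧ TY (Y w) ∧ TZ (Z w)) * (Real.log (D3 P X Y Z (X w) (Y w) (Z w)) -
      Real.log (D3 (P.cond fun u => V u = v) X Y Z (X w) (Y w) (Z w)))),
    ← sum_cond V (fun v w => ind (TX (X w) ∧ TY (Y w) ∧ TZ (Z w)) * psx (Real.log (D3 (P.cond fun u => V u = v) X Y Z
      (X w) (Y w) (Z w)) - Real.log (D3 P X Y Z (X w) (Y w) (Z w)) + g v (X w) (Y w) (Z w))),
    ← sum_cond V (fun v w => ind (TX (X w) ∧ TY (Y w) ∧ TZ (Z w)) * g v (X w) (Y w) (Z w)), ← Finset.sum_add_distrib]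
  have h1 : ∀ v ∈ vals V, lw P V v * (P.cond fun w => V w = v).E (fun w => ind (TX (X w) ∧ TY (Y w) ∧ TZ (Z w)) *
      (Real.log (D3 P X Y Z (X w) (Y w) (Z w)) -
      Real.log (D3 (P.cond fun u => V u = v) X Y Z (X w) (Y w) (Z w)))) +
      lw P V v * (P.cond fun w => V w = v).E (fun w => ind (TX (X w) ∧ TY (Y w) ∧ TZ (Z w)) *
      psx (Real.log (D3 (P.cond fun u => V u = v) X Y Z
      (X w) (Y w) (Z w)) - Real.log (D3 P X Y Z (X w) (Y w) (Z w)) + g v (X w) (Y w) (Z w))) ≤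
      lw P V v * (P.cond fun w => V w = v).E (fun w => ind (TX (X w) ∧ TY (Y w) ∧ TZ (Z w)) *
        g v (X w) (Y w) (Z w)) +
      lw P V v * ∑ x ∈ vals X, ∑ y ∈ vals Y, ∑ z ∈ vals Z, ind (TX x ∧ TY y ∧ TZ z) *
        (lw3 P X Y Z x y z * (rt (P.cond fun w => V w = v) P X x * rt (P.cond fun w => V w = v) P Y y *
          rt (P.cond fun w => V w = v) P Z z * Real.exp (-g v x y z)) -
          lw3 (P.cond fun w => V w = v) X Y Z x y z) := by
    intro v _
    rw [← mul_add, ← mul_add]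
    exact mul_le_mul_of_nonneg_left (lemS3p_one (FP.cond_ac P _) (fun x y z => TX x ∧ TY y ∧ TZ z) (g v))
      (lw_nonneg P V v)
  refine (Finset.sum_le_sum h1).trans ?_
  rw [Finset.sum_add_distrib]
  refine add_le_add_right (le_of_eq ?_) _
  unfold NN3
  rw [← sub_eq_zero, ← Finset.sum_sub_distrib]
  have h2 : ∀ v ∈ vals V, (lw P V v * ∑ x ∈ vals X, ∑ y ∈ vals Y, ∑ z ∈ vals Z, ind (TX x ∧ TY y ∧ TZ z) *
        (lw3 P X Y Z x y z * (rt (P.cond fun w => V w = v) P X x * rt (P.cond fun w => V w = v) P Y y *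
          rt (P.cond fun w => V w = v) P Z z * Real.exp (-g v x y z)) -
          lw3 (P.cond fun w => V w = v) X Y Z x y z) -
      lw P V v * ∑ x ∈ vals X, ∑ y ∈ vals Y, ∑ z ∈ vals Z, ind (TX x ∧ TY y ∧ TZ z) *
        (lw3 P X Y Z x y z * (rt (P.cond fun w => V w = v) P X x * rt (P.cond fun w => V w = v) P Y y *
          rt (P.cond fun w => V w = v) P Z z * Real.exp (-g v x y z) - 1))) =
      ∑ x ∈ vals X, ∑ y ∈ vals Y, ∑ z ∈ vals Z, ind (TX x ∧ TY y ∧ TZ z) *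
        (lw P V v * lw3 P X Y Z x y z - lw P V v * lw3 (P.cond fun w => V w = v) X Y Z x y z) := by
    intro v _
    rw [← mul_sub, ← Finset.sum_sub_distrib, Finset.mul_sum]
    refine Finset.sum_congr rfl fun x _ => ?_
    rw [← Finset.sum_sub_distrib, Finset.mul_sum]
    refine Finset.sum_congr rfl fun y _ => ?_
    rw [← Finset.sum_sub_distrib, Finset.mul_sum]
    refine Finset.sum_congr rfl fun z _ => ?_
    ring
  rw [Finset.sum_congr rfl h2, Finset.sum_comm]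
  refine Finset.sum_eq_zero fun x _ => ?_
  rw [Finset.sum_comm]
  refine Finset.sum_eq_zero fun y _ => ?_
  rw [Finset.sum_comm]
  refine Finset.sum_eq_zero fun z _ => ?_
  rw [← Finset.mul_sum, Finset.sum_sub_distrib, sum_lw3_cond, ← Finset.sum_mul, sum_lw_one, one_mul, sub_self,
    mul_zero]

/-! ### private codes -/

/-- one child, convex term kept -/
theorem jensen3p_one {Q : FP Om} {κ' ι' θ' : Type*} {X' : Om → κ'} {Y' : Om → ι'} {Z' : Om → θ'} (hX : Fac X' X)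
    (hY : Fac Y' Y) (hZ : Fac Z' Z) (T : κ → ι → θ → Prop) :
    Q.E (fun w => ind (T (X w) (Y w) (Z w)) * psx (Real.log (D3 Q X' Y' Z' (X' w) (Y' w) (Z' w)) -
      Real.log (D3 Q X Y Z (X w) (Y w) (Z w)))) ≤
    Q.E (fun w => ind (T (X w) (Y w) (Z w)) * (Real.log (D3 Q X' Y' Z' (X' w) (Y' w) (Z' w)) -
      Real.log (D3 Q X Y Z (X w) (Y w) (Z w)))) := by
  have h1 : ∀ w, Q.p w ≠ 0 → ind (T (X w) (Y w) (Z w)) * psx (Real.log (D3 Q X' Y' Z' (X' w) (Y' w) (Z' w)) -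
      Real.log (D3 Q X Y Z (X w) (Y w) (Z w))) =
      ind (T (X w) (Y w) (Z w)) * (Real.log (D3 Q X' Y' Z' (X' w) (Y' w) (Z' w)) -
      Real.log (D3 Q X Y Z (X w) (Y w) (Z w))) - (ind (T (X w) (Y w) (Z w)) -
      ind (T (X w) (Y w) (Z w)) * D3 Q X Y Z (X w) (Y w) (Z w) *
      (lw Q X' (X' w) * lw Q Y' (Y' w) * lw Q Z' (Z' w) / lw3 Q X' Y' Z' (X' w) (Y' w) (Z' w))) := by
    intro w hw
    have b1 := lw_pos hw X
    have b2 := lw_pos hw Y
    have b3 := lw_pos hw Z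
    have c2 := lw3_pos hw X Y Z
    have b1' := lw_pos hw X'
    have b2' := lw_pos hw Y'
    have b3' := lw_pos hw Z'
    have c2' := lw3_pos hw X' Y' Z'
    have d1 : 0 < D3 Q X Y Z (X w) (Y w) (Z w) := div_pos c2 (mul_pos (mul_pos b1 b2) b3)
    have d2 : 0 < D3 Q X' Y' Z' (X' w) (Y' w) (Z' w) := div_pos c2' (mul_pos (mul_pos b1' b2') b3')
    have h2 : Real.exp (-(Real.log (D3 Q X' Y' Z' (X' w) (Y' w) (Z' w)) -
      Real.log (D3 Q X Y Z (X w) (Y w) (Z w)))) =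
        D3 Q X Y Z (X w) (Y w) (Z w) / D3 Q X' Y' Z' (X' w) (Y' w) (Z' w) := by
      rw [neg_sub, Real.exp_sub, Real.exp_log d1, Real.exp_log d2]
    have h3 : D3 Q X Y Z (X w) (Y w) (Z w) / D3 Q X' Y' Z' (X' w) (Y' w) (Z' w) =
        D3 Q X Y Z (X w) (Y w) (Z w) *
          (lw Q X' (X' w) * lw Q Y' (Y' w) * lw Q Z' (Z' w) / lw3 Q X' Y' Z' (X' w) (Y' w) (Z' w)) := by
      unfold D3
      field_simp
    unfold psx
    rw [h2, h3]
    ring
  rw [Q.E_congr h1, Q.E_sub]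
  have h5 : 0 ≤ Q.E (fun w => ind (T (X w) (Y w) (Z w)) -
      ind (T (X w) (Y w) (Z w)) * D3 Q X Y Z (X w) (Y w) (Z w) *
      (lw Q X' (X' w) * lw Q Y' (Y' w) * lw Q Z' (Z' w) / lw3 Q X' Y' Z' (X' w) (Y' w) (Z' w))) := by
    rw [Q.E_sub, sub_nonneg]
    have h2 := prod_trick (Q := Q) hX hY hZ (h := fun x y z => ind (T x y z) * D3 Q X Y Z x y z) fun x y z =>
      mul_nonneg (ind_nonneg _) (div_nonneg (lw3_nonneg Q X Y Z x y z)
        (mul_nonneg (mul_nonneg (lw_nonneg Q X x) (lw_nonneg Q Y y)) (lw_nonneg Q Z z)))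
    refine h2.trans ?_
    rw [← sum_lw3 Q X Y Z (fun x y z => ind (T x y z))]
    refine Finset.sum_le_sum fun x _ => Finset.sum_le_sum fun y _ => Finset.sum_le_sum fun z _ => ?_
    have hJ := lw3_nonneg Q X Y Z x y z
    by_cases hU : lw Q X x * lw Q Y y * lw Q Z z = 0
    · rw [hU, zero_mul]
      exact mul_nonneg hJ (ind_nonneg _)
    · refine le_of_eq ?_
      unfold D3
      calc lw Q X x * lw Q Y y * lw Q Z z * (ind (T x y z) * (lw3 Q X Y Z x y z / (lw Q X x * lw Q Y y * lw Q Z z))) =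
          ind (T x y z) * (lw3 Q X Y Z x y z / (lw Q X x * lw Q Y y * lw Q Z z) *
            (lw Q X x * lw Q Y y * lw Q Z z)) := by ring
        _ = lw3 Q X Y Z x y z * ind (T x y z) := by rw [div_mul_cancel₀ _ hU]; ring
  linarith

/-- **NEW PRIVATE CODES, convex term kept** : `al` is a function of the old letters and of `V` -/
theorem jensen3p {κ' ι' θ' : Type*} {X' : Om → κ'} {Y' : Om → ι'} {Z' : Om → θ'} (hX : Fac X' X) (hY : Fac Y' Y)
    (hZ : Fac Z' Z) {al : Om → Prop} (hal : ∀ v w, (V v, X v, Y v, Z v) = (V w, X w, Y w, Z w) → (al v ↔ al w)) :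
    P.E (fun w => ind (al w) * psx (Real.log (D3 (P.cond fun u => V u = V w) X' Y' Z' (X' w) (Y' w) (Z' w)) -
      Real.log (D3 (P.cond fun u => V u = V w) X Y Z (X w) (Y w) (Z w)))) ≤
    P.E (fun w => ind (al w) * (Real.log (D3 (P.cond fun u => V u = V w) X' Y' Z' (X' w) (Y' w) (Z' w)) -
      Real.log (D3 (P.cond fun u => V u = V w) X Y Z (X w) (Y w) (Z w)))) := by
  rw [← sum_cond V (fun v w => ind (al w) * (Real.log (D3 (P.cond fun u => V u = v) X' Y' Z' (X' w) (Y' w) (Z' w)) -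
      Real.log (D3 (P.cond fun u => V u = v) X Y Z (X w) (Y w) (Z w)))),
    ← sum_cond V (fun v w => ind (al w) * psx (Real.log (D3 (P.cond fun u => V u = v) X' Y' Z' (X' w) (Y' w) (Z' w)) -
      Real.log (D3 (P.cond fun u => V u = v) X Y Z (X w) (Y w) (Z w))))]
  refine Finset.sum_le_sum fun v _ => ?_
  by_cases h : P.Pr (fun w => V w = v) = 0
  · have h1 : lw P V v = 0 := h
    rw [h1, zero_mul, zero_mul]
  · refine mul_le_mul_of_nonneg_left ?_ (lw_nonneg P V v)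
    have h1 := jensen3p_one (Q := P.cond fun u => V u = v) hX hY hZ
      (fun x y z => ∃ u, V u = v ∧ X u = x ∧ Y u = y ∧ Z u = z ∧ al u)
    have e : ∀ w, (P.cond fun u => V u = v).p w ≠ 0 → ind (∃ u, V u = v ∧ X u = X w ∧ Y u = Y w ∧ Z u = Z w ∧ al u) =
        ind (al w) := by
      intro w hw
      have h2 := ((FP.cond_p_ne h).1 hw).1
      refine ind_cg ⟨?_, fun h3 => ⟨w, h2, rfl, rfl, rfl, h3⟩⟩
      rintro ⟨u, a, b, c, d, e⟩
      refine (hal u w ?_).1 e
      rw [a, b, c, d, h2]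
    refine le_trans (le_of_eq (FP.E_congr _ fun w hw => ?_)) (h1.trans (le_of_eq (FP.E_congr _ fun w hw => ?_)))
    · rw [e w hw]
    · rw [e w hw]

end S

/-! ## the loss in the cells -/

section loss

variable {Om : Type*} [Fintype Om] {κ ι θ ν μ κ' ι' θ' : Type*} {X : Om → κ} {Y : Om → ι} {Z : Om → θ} {V : Om → ν}
  {X' : Om → κ'} {Y' : Om → ι'} {Z' : Om → θ'} {N : Om → μ}

/-- **private codes, convex term kept** -/
theorem privp_cells (P : FP Om) (hX : Fac X' X) (hY : Fac Y' Y) (hZ : Fac Z' Z) {al : Om → Prop}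
    (hal : ∀ v w, (N v, V v, X v, Y v, Z v) = (N w, V w, X w, Y w, Z w) → (al v ↔ al w)) :
    P.E (fun w => ind (al w) * psx (Real.log (D3 (P.cond fun u => (V u, N u) = (V w, N w)) X' Y' Z' (X' w) (Y' w) (Z' w)) -
      Real.log (D3 (P.cond fun u => (V u, N u) = (V w, N w)) X Y Z (X w) (Y w) (Z w)))) ≤
    P.E (fun w => ind (al w) * (Real.log (D3 (P.cond fun u => (V u, N u) = (V w, N w)) X' Y' Z' (X' w) (Y' w) (Z' w)) -
      Real.log (D3 (P.cond fun u => (V u, N u) = (V w, N w)) X Y Z (X w) (Y w) (Z w)))) :=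
  jensen3p (P := P) (V := fun w => (V w, N w)) hX hY hZ (by
    intro v w hvw
    refine hal v w ?_
    simp only [Prod.mk.injEq] at hvw ⊢
    exact ⟨hvw.1.2, hvw.1.1, hvw.2⟩)

/-- **THE LOSS IN THE CELLS, convex term kept** -/
theorem lossp_cells (P : FP Om) {pub T1 T2 T3 : Om → Prop} (fp : ∀ a b, N a = N b → (pub a ↔ pub b))
    (f1 : ∀ a b, (N a, X a) = (N b, X b) → (T1 a ↔ T1 b)) (f2 : ∀ a b, (N a, Y a) = (N b, Y b) → (T2 a ↔ T2 b))
    (f3 : ∀ a b, (N a, Z a) = (N b, Z b) → (T3 a ↔ T3 b)) {B eta τ e : ℝ} (hB : Real.exp 2 ≤ B) (he0 : 0 ≤ eta)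
    (he1 : eta ≤ 1) (ht0 : 0 ≤ τ) (ht1 : τ ≤ 1) (hee : 0 ≤ e)
    (G : ∀ w, P.p w ≠ 0 → pub w → Good3 (P.cond fun u => N u = N w) X Y Z (fun x => ∃ u, N u = N w ∧ X u = x ∧ T1 u)
      (fun x => ∃ u, N u = N w ∧ Y u = x ∧ T2 u) (fun x => ∃ u, N u = N w ∧ Z u = x ∧ T3 u) τ)
    (hd : ∀ w, P.p w ≠ 0 → pub w → (P.cond fun u => N u = N w).Pr (fun u => ¬ T1 u) ≤ e ∧
      (P.cond fun u => N u = N w).Pr (fun u => ¬ T2 u) ≤ e ∧ (P.cond fun u => N u = N w).Pr (fun u => ¬ T3 u) ≤ e) :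
    P.E (fun w => ind (pub w ∧ T1 w ∧ T2 w ∧ T3 w) *
      (Real.log (D3 (P.cond fun u => N u = N w) X Y Z (X w) (Y w) (Z w)) -
        Real.log (D3 (P.cond fun u => (V u, N u) = (V w, N w)) X Y Z (X w) (Y w) (Z w)))) +
    P.E (fun w => ind (pub w ∧ T1 w ∧ T2 w ∧ T3 w) *
      psx (Real.log (D3 (P.cond fun u => (V u, N u) = (V w, N w)) X Y Z (X w) (Y w) (Z w)) -
        Real.log (D3 (P.cond fun u => N u = N w) X Y Z (X w) (Y w) (Z w)) +
        gV (P.cond fun u => (V u, N u) = (V w, N w)) (P.cond fun u => N u = N w) X Y Z B eta (X w) (Y w) (Z w))) ≤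
    P.E (fun w => ind (pub w ∧ T1 w ∧ T2 w ∧ T3 w) * gV (P.cond fun u => (V u, N u) = (V w, N w))
      (P.cond fun u => N u = N w) X Y Z B eta (X w) (Y w) (Z w)) +
    (1000 * B ^ 3 * (Real.sqrt τ + eta) + 4 * e) * (P.I X V N + P.I Y V N + P.I Z V N) +
    6 * P.Pr (fun w => pub w ∧ (e < (P.cond fun u => (V u, N u) = (V w, N w)).Pr (fun u => ¬ T1 u) ∨
      e < (P.cond fun u => (V u, N u) = (V w, N w)).Pr (fun u => ¬ T2 u) ∨
      e < (P.cond fun u => (V u, N u) = (V w, N w)).Pr (fun u => ¬ T3 u))) := by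
  set c : ℝ := 1000 * B ^ 3 * (Real.sqrt τ + eta) + 4 * e with hc
  have hB0 : 0 ≤ B := (Real.exp_pos 2).le.trans hB
  have hc0 : 0 ≤ c := by positivity
  set bad : Om → Prop := fun w => pub w ∧ (e < (P.cond fun u => (V u, N u) = (V w, N w)).Pr (fun u => ¬ T1 u) ∨
      e < (P.cond fun u => (V u, N u) = (V w, N w)).Pr (fun u => ¬ T2 u) ∨
      e < (P.cond fun u => (V u, N u) = (V w, N w)).Pr (fun u => ¬ T3 u)) with hbad
  have hKK : P.I X V N + P.I Y V N + P.I Z V N = P.E fun w => KK3 (P.cond fun u => N u = N w) X Y Z V := by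
    rw [I_cell P X V N, I_cell P Y V N, I_cell P Z V N, ← FP.E_add, ← FP.E_add]
    exact P.E_congr fun w _ => KK3_eq.symm
  have key : ∀ w, P.p w ≠ 0 → (P.cond fun u => N u = N w).E (fun w => ind (pub w ∧ T1 w ∧ T2 w ∧ T3 w) *
      (Real.log (D3 (P.cond fun u => N u = N w) X Y Z (X w) (Y w) (Z w)) -
        Real.log (D3 (P.cond fun u => (V u, N u) = (V w, N w)) X Y Z (X w) (Y w) (Z w))))+
      (P.cond fun u => N u = N w).E (fun w => ind (pub w ∧ T1 w ∧ T2 w ∧ T3 w) *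
      psx (Real.log (D3 (P.cond fun u => (V u, N u) = (V w, N w)) X Y Z (X w) (Y w) (Z w)) -
        Real.log (D3 (P.cond fun u => N u = N w) X Y Z (X w) (Y w) (Z w)) +
        gV (P.cond fun u => (V u, N u) = (V w, N w)) (P.cond fun u => N u = N w) X Y Z B eta (X w) (Y w) (Z w))) ≤
      (P.cond fun u => N u = N w).E (fun w => ind (pub w ∧ T1 w ∧ T2 w ∧ T3 w) *
        gV (P.cond fun u => (V u, N u) = (V w, N w)) (P.cond fun u => N u = N w) X Y Z B eta (X w) (Y w) (Z w)) +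
      c * KK3 (P.cond fun u => N u = N w) X Y Z V + 6 * (P.cond fun u => N u = N w).Pr bad := by
    intro w hw
    set Q := P.cond fun u => N u = N w with hQ
    have hs : ∀ u, Q.p u ≠ 0 → N u = N w ∧ P.p u ≠ 0 := fun u hu => cell_supp P N hw hu
    have hself : ∀ u, Q.p u ≠ 0 → (P.cond fun v => N v = N u) = Q := by
      intro u hu
      rw [hQ, (hs u hu).1]
    have hch : ∀ u, Q.p u ≠ 0 → (P.cond fun v => (V v, N v) = (V u, N u)) = Q.cond fun v => V v = V u := by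
      intro u hu
      rw [hQ, cell_child P N V (hs u hu).2 (hs u hu).1]
    have hK0 : 0 ≤ KK3 Q X Y Z V := by
      rw [KK3_eq]
      have a1 := Q.I_nonneg X V (fun _ => ())
      have a2 := Q.I_nonneg Y V (fun _ => ())
      have a3 := Q.I_nonneg Z V (fun _ => ())
      linarith
    by_cases hp : pub w
    · set TX : κ → Prop := fun x => ∃ u, N u = N w ∧ X u = x ∧ T1 u with hTX
      set TY : ι → Prop := fun x => ∃ u, N u = N w ∧ Y u = x ∧ T2 u with hTY
      set TZ : θ → Prop := fun x => ∃ u, N u = N w ∧ Z u = x ∧ T3 u with hTZ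
      have eX : ∀ u, N u = N w → (TX (X u) ↔ T1 u) := fun u hu =>
        ⟨fun ⟨u', a, b, d⟩ => (f1 u' u (Prod.ext (a.trans hu.symm) b)).1 d, fun hh => ⟨u, hu, rfl, hh⟩⟩
      have eY : ∀ u, N u = N w → (TY (Y u) ↔ T2 u) := fun u hu =>
        ⟨fun ⟨u', a, b, d⟩ => (f2 u' u (Prod.ext (a.trans hu.symm) b)).1 d, fun hh => ⟨u, hu, rfl, hh⟩⟩
      have eZ : ∀ u, N u = N w → (TZ (Z u) ↔ T3 u) := fun u hu =>
        ⟨fun ⟨u', a, b, d⟩ => (f3 u' u (Prod.ext (a.trans hu.symm) b)).1 d, fun hh => ⟨u, hu, rfl, hh⟩⟩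
      have hpu : ∀ u, N u = N w → pub u := fun u hu => (fp u w hu).2 hp
      have eA : ∀ u, Q.p u ≠ 0 → ind (pub u ∧ T1 u ∧ T2 u ∧ T3 u) = ind (TX (X u) ∧ TY (Y u) ∧ TZ (Z u)) := by
        intro u hu
        have hN := (hs u hu).1
        refine ind_cg ?_
        rw [eX u hN, eY u hN, eZ u hN]
        exact ⟨fun hh => hh.2, fun hh => ⟨hpu u hN, hh⟩⟩
      have L := lemS3p (P := Q) (V := V) (X := X) (Y := Y) (Z := Z) TX TY TZ
        (fun v => gV (Q.cond fun u => V u = v) Q X Y Z B eta)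
      have N3' := N3 (P := Q) (V := V) (X := X) (Y := Y) (Z := Z) hB he0 he1 ht0 ht1 (G w hw hp)
      have PT : ∀ {T : Om → Prop} {S : Om → Prop} (R : FP Om) (_ : ∀ u, R.p u ≠ 0 → (T u ↔ S u)),
          R.Pr (fun u => ¬ T u) = R.Pr (fun u => ¬ S u) := by
        intro T S R hR
        unfold FP.Pr
        exact R.E_congr fun u hu => ind_cg (not_congr (hR u hu))
      have d1 : Q.Pr (fun u => ¬ TX (X u)) ≤ e := by
        rw [PT Q fun u hu => eX u (hs u hu).1]; exact (hd w hw hp).1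
      have d2 : Q.Pr (fun u => ¬ TY (Y u)) ≤ e := by
        rw [PT Q fun u hu => eY u (hs u hu).1]; exact (hd w hw hp).2.1
      have d3 : Q.Pr (fun u => ¬ TZ (Z u)) ≤ e := by
        rw [PT Q fun u hu => eZ u (hs u hu).1]; exact (hd w hw hp).2.2
      have C := cov3_le (P := Q) (V := V) (X := X) (Y := Y) (Z := Z) hee d1 d2 d3
      have hbd : Q.Pr (fun w => e < (Q.cond fun u => V u = V w).Pr (fun u => ¬ TX (X u)) ∨
          e < (Q.cond fun u => V u = V w).Pr (fun u => ¬ TY (Y u)) ∨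
          e < (Q.cond fun u => V u = V w).Pr (fun u => ¬ TZ (Z u))) = Q.Pr bad := by
        refine Q.E_congr fun u hu => ind_cg ?_
        show (e < (Q.cond fun v => V v = V u).Pr (fun x => ¬ TX (X x)) ∨
          e < (Q.cond fun v => V v = V u).Pr (fun x => ¬ TY (Y x)) ∨
          e < (Q.cond fun v => V v = V u).Pr (fun x => ¬ TZ (Z x))) ↔ bad u
        have hcs : ∀ x, (Q.cond fun v => V v = V u).p x ≠ 0 → N x = N w := fun x hx =>
          (hs x (FP.cond_ac Q _ x hx)).1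
        rw [PT (Q.cond fun v => V v = V u) fun x hx => eX x (hcs x hx),
          PT (Q.cond fun v => V v = V u) fun x hx => eY x (hcs x hx),
          PT (Q.cond fun v => V v = V u) fun x hx => eZ x (hcs x hx), hbad]
        show _ ↔ pub u ∧ _
        rw [hch u hu]
        exact ⟨fun hh => ⟨hpu u (hs u hu).1, hh⟩, fun hh => hh.2⟩
      rw [hbd] at C
      have e1 : Q.E (fun w => ind (pub w ∧ T1 w ∧ T2 w ∧ T3 w) *
          (Real.log (D3 (P.cond fun u => N u = N w) X Y Z (X w) (Y w) (Z w)) -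
            Real.log (D3 (P.cond fun u => (V u, N u) = (V w, N w)) X Y Z (X w) (Y w) (Z w)))) =
          Q.E (fun w => ind (TX (X w) ∧ TY (Y w) ∧ TZ (Z w)) * (Real.log (D3 Q X Y Z (X w) (Y w) (Z w)) -
            Real.log (D3 (Q.cond fun u => V u = V w) X Y Z (X w) (Y w) (Z w)))) := by
        refine Q.E_congr fun u hu => ?_
        rw [eA u hu, hself u hu, hch u hu]
      have e2 : Q.E (fun w => ind (pub w ∧ T1 w ∧ T2 w ∧ T3 w) *
          gV (P.cond fun u => (V u, N u) = (V w, N w)) (P.cond fun u => N u = N w) X Y Z B eta (X w) (Y w) (Z w)) =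
          Q.E (fun w => ind (TX (X w) ∧ TY (Y w) ∧ TZ (Z w)) *
            gV (Q.cond fun u => V u = V w) Q X Y Z B eta (X w) (Y w) (Z w)) := by
        refine Q.E_congr fun u hu => ?_
        rw [eA u hu, hself u hu, hch u hu]
      have e1p : Q.E (fun w => ind (pub w ∧ T1 w ∧ T2 w ∧ T3 w) *
          psx (Real.log (D3 (P.cond fun u => (V u, N u) = (V w, N w)) X Y Z (X w) (Y w) (Z w)) -
            Real.log (D3 (P.cond fun u => N u = N w) X Y Z (X w) (Y w) (Z w)) +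
            gV (P.cond fun u => (V u, N u) = (V w, N w)) (P.cond fun u => N u = N w) X Y Z B eta (X w) (Y w) (Z w))) =
          Q.E (fun w => ind (TX (X w) ∧ TY (Y w) ∧ TZ (Z w)) *
            psx (Real.log (D3 (Q.cond fun u => V u = V w) X Y Z (X w) (Y w) (Z w)) -
            Real.log (D3 Q X Y Z (X w) (Y w) (Z w)) +
            gV (Q.cond fun u => V u = V w) Q X Y Z B eta (X w) (Y w) (Z w))) := by
        refine Q.E_congr fun u hu => ?_
        rw [eA u hu, hself u hu, hch u hu]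
      rw [e1, e1p, e2]
      have e3 : c * KK3 Q X Y Z V = 1000 * B ^ 3 * (Real.sqrt τ + eta) * KK3 Q X Y Z V + 4 * e * KK3 Q X Y Z V := by
        rw [hc]; ring
      rw [e3]
      linarith
    · have hz : ∀ u, Q.p u ≠ 0 → ind (pub u ∧ T1 u ∧ T2 u ∧ T3 u) = 0 := fun u hu =>
        ind_not fun hh => hp ((fp u w (hs u hu).1).1 hh.1)
      have e1 : Q.E (fun w => ind (pub w ∧ T1 w ∧ T2 w ∧ T3 w) *
          (Real.log (D3 (P.cond fun u => N u = N w) X Y Z (X w) (Y w) (Z w)) -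
            Real.log (D3 (P.cond fun u => (V u, N u) = (V w, N w)) X Y Z (X w) (Y w) (Z w)))) = 0 := by
        rw [← Q.E_const 0]
        exact Q.E_congr fun u hu => by rw [hz u hu, zero_mul]
      have e2 : Q.E (fun w => ind (pub w ∧ T1 w ∧ T2 w ∧ T3 w) *
          gV (P.cond fun u => (V u, N u) = (V w, N w)) (P.cond fun u => N u = N w) X Y Z B eta (X w) (Y w) (Z w)) = 0 := by
        rw [← Q.E_const 0]
        exact Q.E_congr fun u hu => by rw [hz u hu, zero_mul]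
      have e1p : Q.E (fun w => ind (pub w ∧ T1 w ∧ T2 w ∧ T3 w) *
          psx (Real.log (D3 (P.cond fun u => (V u, N u) = (V w, N w)) X Y Z (X w) (Y w) (Z w)) -
            Real.log (D3 (P.cond fun u => N u = N w) X Y Z (X w) (Y w) (Z w)) +
            gV (P.cond fun u => (V u, N u) = (V w, N w)) (P.cond fun u => N u = N w) X Y Z B eta (X w) (Y w) (Z w))) =
          0 := by
        rw [← Q.E_const 0]
        exact Q.E_congr fun u hu => by rw [hz u hu, zero_mul]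
      rw [e1, e1p, e2]
      have := mul_nonneg hc0 hK0
      have := Q.Pr_nonneg bad
      linarith
  have hsum := P.E_mono key
  rw [FP.E_add, ← E_cell P N, ← E_cell P N, FP.E_add, FP.E_add, ← E_cell P N, FP.E_smul, ← hKK, FP.E_smul] at hsum
  have h6 : P.E (fun w => (P.cond fun u => N u = N w).Pr bad) = P.Pr bad := (E_cell P N fun w => ind (bad w)).symm
  rw [h6] at hsum
  exact hsum

end loss

end Pool.Agent.GMH.V3
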