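import Pool.Agent.GMH.XorA

/-!
# GMH/XorB: the thin level with the convex term kept, part 2 (helper13)

`XM v t i j` : old letter of `i`, new letters of the other vertices.  `lossVp`, `lossVjp` : the loss of the codes with the
convex terms `psx` of the public step and of the private step; `V_totalp`, `VJ_totalp` : the sum of the convex terms over the
run is at most the error `errV` of the thin level (the balance `balA` is not negative, `conGA`).
-/

set_option autoImplicit false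
set_option linter.unusedSectionVars false
set_option linter.unusedVariables false

namespace Pool.Agent.GMH.V3

open Finset Pool.Agent.PWZ Pool.Agent.M3 Pool.Agent.GM Pool.Agent.GM.Harm Pool.Agent.GMH Pool.Agent.GMH.NZ

section thin

variable {X β γ φ υ : Type} [Fintype X] [Fintype β] [Fintype φ] [Nonempty X] [Nonempty β]
variable {D : HD (Fin 3) X β γ φ} {al : ℝ} (h : D.Thick al) {v : ℕ → Finset (Fin 3) → X → (Fin 3 → β) → υ}

/-- old letter of `i`, new letters of the others -/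
def XM (v : ℕ → Finset (Fin 3) → X → (Fin 3 → β) → υ) (t : ℕ) (i j : Fin 3) (w : Pt (Fin 3) X β φ) : β × List υ :=
  if j = i then XL v (t + 1) j w else XL v (t + 2) j w

theorem XM_old (t : ℕ) (i j : Fin 3) : Fac (XM (φ := φ) v t i j) (XL v (t + 1) j) := by
  intro a b hab
  unfold XM at hab
  by_cases hj : j = i
  · simpa only [if_pos hj] using hab
  · simp only [if_neg hj] at hab
    exact XL_old t j a b hab

theorem XM_new (t : ℕ) (i j : Fin 3) : Fac (XL (φ := φ) v (t + 2) j) (XM v t i j) := by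
  intro a b hab
  unfold XM
  by_cases hj : j = i
  · simp only [if_pos hj]
    exact XL_old t j a b hab
  · simp only [if_neg hj]
    exact hab

/-- increment of the potential of the three old letters in the public step -/
noncomputable def A1 (t : ℕ) (w : Pt (Fin 3) X β φ) : ℝ :=
  Real.log (D3 (Pc h v t (t + 2) (t + 1) w) (XL v (t + 1) 0) (XL v (t + 1) 1) (XL v (t + 1) 2)
    (XL v (t + 1) 0 w) (XL v (t + 1) 1 w) (XL v (t + 1) 2 w)) -
  Real.log (D3 (Pc h v t (t + 1) (t + 1) w) (XL v (t + 1) 0) (XL v (t + 1) 1) (XL v (t + 1) 2)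
    (XL v (t + 1) 0 w) (XL v (t + 1) 1 w) (XL v (t + 1) 2 w))

/-- increment of the potential of the three letters in the private step, the letter of `i` stays -/
noncomputable def A2 (t : ℕ) (i : Fin 3) (w : Pt (Fin 3) X β φ) : ℝ :=
  Real.log (D3 (Pc h v t (t + 2) (t + 1) w) (XM v t i 0) (XM v t i 1) (XM v t i 2)
    (XM v t i 0 w) (XM v t i 1 w) (XM v t i 2 w)) -
  Real.log (D3 (Pc h v t (t + 2) (t + 1) w) (XL v (t + 1) 0) (XL v (t + 1) 1) (XL v (t + 1) 2)
    (XL v (t + 1) 0 w) (XL v (t + 1) 1 w) (XL v (t + 1) 2 w))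

/-- increment of the potential of the two old letters in the public step -/
noncomputable def B1 (t : ℕ) (i k : Fin 3) (w : Pt (Fin 3) X β φ) : ℝ :=
  Real.log (D3 (Pc h v t (t + 2) (t + 1) w) (XL v (t + 1) i) (XL v (t + 1) k) (fun _ => ())
    (XL v (t + 1) i w) (XL v (t + 1) k w) ()) -
  Real.log (D3 (Pc h v t (t + 1) (t + 1) w) (XL v (t + 1) i) (XL v (t + 1) k) (fun _ => ())
    (XL v (t + 1) i w) (XL v (t + 1) k w) ())

/-- increment of the potential of the two letters in the private step -/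
noncomputable def B2 (t : ℕ) (i k : Fin 3) (w : Pt (Fin 3) X β φ) : ℝ :=
  Real.log (D3 (Pc h v t (t + 2) (t + 1) w) (XL v (t + 2) i) (XL v (t + 2) k) (fun _ => ())
    (XL v (t + 2) i w) (XL v (t + 2) k w) ()) -
  Real.log (D3 (Pc h v t (t + 2) (t + 1) w) (XL v (t + 1) i) (XL v (t + 1) k) (fun _ => ())
    (XL v (t + 1) i w) (XL v (t + 1) k w) ())

/-- **THE LOSS OF THE THIN LEVEL**, three vertices, convex terms kept; `e` = bound of the dead masses in alive cells -/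
theorem lossVp (hv : Codes D v) {t : ℕ} (i0 : Fin 3) {pub : Pt (Fin 3) X β φ → Prop} {TT : Fin 3 → Pt (Fin 3) X β φ → Prop}
    (hA : Alv D v (t + 1) (t + 1) pub TT) {B eta τ e : ℝ} (hB : Real.exp 2 ≤ B) (he0 : 0 ≤ eta) (he1 : eta ≤ 1)
    (ht0 : 0 ≤ τ) (ht1 : τ ≤ 1) (hee : 0 ≤ e)
    (G : ∀ w, (D.P h t).p w ≠ 0 → pub w → Good3 (Pc h v t (t + 1) (t + 1) w) (XL v (t + 1) 0) (XL v (t + 1) 1)
      (XL v (t + 1) 2) (TL D v (t + 1) (t + 1) 0 (TT 0) w) (TL D v (t + 1) (t + 1) 1 (TT 1) w)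
      (TL D v (t + 1) (t + 1) 2 (TT 2) w) τ)
    (hd : ∀ w, (D.P h t).p w ≠ 0 → pub w → ∀ i, (Pc h v t (t + 1) (t + 1) w).Pr (fun u => ¬ TT i u) ≤ e) :
    (D.P h t).E (fun w => ind (pub w ∧ ∀ i, TT i w) *
      (iR (D.P h t) pth pcl (LL (Um v (t + 1))) (WW D (t + 1)) w -
        iR (D.P h t) pth pcl (LL (Um v (t + 2))) (WW D (t + 1)) w)) +
    ((D.P h t).E (fun w => ind (pub w ∧ ∀ i, TT i w) *
      psx (A1 h (v := v) t w + gL h v (Vt v (t + 1) ∅) B eta t (t + 1) (t + 1) (Vt v (t + 1) ∅ w) w)) +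
    (D.P h t).E (fun w => ind (pub w ∧ ∀ i, TT i w) * psx (A2 h (v := v) t i0 w))) ≤
    (D.P h t).E (fun w => ind (pub w ∧ ∀ i, TT i w) *
      gL h v (Vt v (t + 1) ∅) B eta t (t + 1) (t + 1) (Vt v (t + 1) ∅ w) w) +
    (1000 * B ^ 3 * (Real.sqrt τ + eta) + 4 * e) * KV h v (Vt v (t + 1) ∅) t (t + 1) (t + 1) +
    6 * (D.P h t).Pr (fun w => pub w ∧ Bch h v (Vt v (t + 1) ∅) TT e t (t + 1) (t + 1) w) := by
  set P := D.P h t with hP
  have hall : ∀ w : Pt (Fin 3) X β φ, (pub w ∧ ∀ i, TT i w) ↔ (pub w ∧ TT 0 w ∧ TT 1 w ∧ TT 2 w) := by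
    intro w
    refine and_congr_right fun _ => ⟨fun hh => ⟨hh 0, hh 1, hh 2⟩, fun hh i => ?_⟩
    fin_cases i
    · exact hh.1
    · exact hh.2.1
    · exact hh.2.2
  have L := lossp_cells P (N := NP D v (t + 1) (t + 1)) (V := Vt v (t + 1) ∅) (X := XL v (t + 1) 0) (Y := XL v (t + 1) 1)
    (Z := XL v (t + 1) 2) (pub := pub) (T1 := TT 0) (T2 := TT 1) (T3 := TT 2) hA.fp (hA.ft 0) (hA.ft 1) (hA.ft 2)
    hB he0 he1 ht0 ht1 hee G (fun w hw hp => ⟨hd w hw hp 0, hd w hw hp 1, hd w hw hp 2⟩)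
  have hfa : ∀ a b : Pt (Fin 3) X β φ, NP D v (t + 1) (t + 1) a = NP D v (t + 1) (t + 1) b →
      (∀ i, XL v (t + 1) i a = XL v (t + 1) i b) → ((pub a ∧ ∀ i, TT i a) ↔ (pub b ∧ ∀ i, TT i b)) := by
    intro a b h1 h2
    exact and_congr (hA.fp a b h1) (forall_congr' fun i => hA.ft i a b (Prod.ext h1 (h2 i)))
  have C1 := privp_cells P (N := NP D v (t + 1) (t + 1)) (V := Vt v (t + 1) ∅) (XM_old (φ := φ) (v := v) t i0 0)
    (XM_old (φ := φ) (v := v) t i0 1) (XM_old (φ := φ) (v := v) t i0 2) (al := fun w => pub w ∧ ∀ i, TT i w) (by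
    intro a b hab
    simp only [Prod.mk.injEq] at hab
    refine hfa a b hab.1 fun i => ?_
    fin_cases i
    · exact hab.2.2.1
    · exact hab.2.2.2.1
    · exact hab.2.2.2.2)
  have C2 := priv_cells P (N := NP D v (t + 1) (t + 1)) (V := Vt v (t + 1) ∅) (XM_new (φ := φ) (v := v) t i0 0)
    (XM_new (φ := φ) (v := v) t i0 1) (XM_new (φ := φ) (v := v) t i0 2) (al := fun w => pub w ∧ ∀ i, TT i w) (by
    intro a b hab
    simp only [Prod.mk.injEq] at hab
    refine hfa a b hab.1 fun i => ?_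
    fin_cases i
    · exact XM_old (φ := φ) t i0 0 a b hab.2.2.1
    · exact XM_old (φ := φ) t i0 1 a b hab.2.2.2.1
    · exact XM_old (φ := φ) t i0 2 a b hab.2.2.2.2)
  have C1' : P.E (fun w => ind (pub w ∧ ∀ i, TT i w) * psx (A2 h (v := v) t i0 w)) ≤
      P.E (fun w => ind (pub w ∧ ∀ i, TT i w) * A2 h (v := v) t i0 w) := by
    refine le_trans (le_of_eq ?_) (C1.trans (le_of_eq ?_))
    · refine P.E_congr fun w _ => ?_
      unfold A2
      rw [Pc_code h t w]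
    · refine P.E_congr fun w _ => ?_
      unfold A2
      rw [Pc_code h t w]
  have C2' : P.E (fun w => ind (pub w ∧ ∀ i, TT i w) * Real.log (D3 (Pc h v t (t + 2) (t + 1) w) (XM v t i0 0)
      (XM v t i0 1) (XM v t i0 2) (XM v t i0 0 w) (XM v t i0 1 w) (XM v t i0 2 w))) ≤
      P.E (fun w => ind (pub w ∧ ∀ i, TT i w) * Real.log (DL h v t (t + 2) (t + 1) w)) := by
    refine le_trans (le_of_eq ?_) (C2.trans (le_of_eq ?_))
    · refine P.E_congr fun w _ => ?_
      rw [Pc_code h t w]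
    · refine P.E_congr fun w _ => ?_
      rw [Pc_code h t w]
      rfl
  have C3 : P.E (fun w => ind (pub w ∧ ∀ i, TT i w) * A2 h (v := v) t i0 w) =
      P.E (fun w => ind (pub w ∧ ∀ i, TT i w) * Real.log (D3 (Pc h v t (t + 2) (t + 1) w) (XM v t i0 0)
      (XM v t i0 1) (XM v t i0 2) (XM v t i0 0 w) (XM v t i0 1 w) (XM v t i0 2 w))) -
      P.E (fun w => ind (pub w ∧ ∀ i, TT i w) * Real.log (D3 (Pc h v t (t + 2) (t + 1) w) (XL v (t + 1) 0)
        (XL v (t + 1) 1) (XL v (t + 1) 2) (XL v (t + 1) 0 w) (XL v (t + 1) 1 w) (XL v (t + 1) 2 w))) := by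
    rw [← FP.E_sub]
    refine P.E_congr fun w _ => ?_
    unfold A2
    ring
  have e1 : P.E (fun w => ind (pub w ∧ ∀ i, TT i w) * (iR P pth pcl (LL (Um v (t + 1))) (WW D (t + 1)) w -
        iR P pth pcl (LL (Um v (t + 2))) (WW D (t + 1)) w)) =
      P.E (fun w => ind (pub w ∧ TT 0 w ∧ TT 1 w ∧ TT 2 w) *
      (Real.log (D3 (P.cond fun u => NP D v (t + 1) (t + 1) u = NP D v (t + 1) (t + 1) w) (XL v (t + 1) 0)
        (XL v (t + 1) 1) (XL v (t + 1) 2) (XL v (t + 1) 0 w) (XL v (t + 1) 1 w) (XL v (t + 1) 2 w)) -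
        Real.log (D3 (P.cond fun u => (Vt v (t + 1) ∅ u, NP D v (t + 1) (t + 1) u) =
          (Vt v (t + 1) ∅ w, NP D v (t + 1) (t + 1) w)) (XL v (t + 1) 0)
        (XL v (t + 1) 1) (XL v (t + 1) 2) (XL v (t + 1) 0 w) (XL v (t + 1) 1 w) (XL v (t + 1) 2 w)))) +
      P.E (fun w => ind (pub w ∧ ∀ i, TT i w) * Real.log (D3 (Pc h v t (t + 2) (t + 1) w) (XL v (t + 1) 0)
        (XL v (t + 1) 1) (XL v (t + 1) 2) (XL v (t + 1) 0 w) (XL v (t + 1) 1 w) (XL v (t + 1) 2 w))) -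
      P.E (fun w => ind (pub w ∧ ∀ i, TT i w) * Real.log (DL h v t (t + 2) (t + 1) w)) := by
    rw [← FP.E_add, ← FP.E_sub]
    refine P.E_congr fun w hw => ?_
    rw [iR_thin h hv (Nat.le_succ t) (le_refl _ |>.trans (Nat.le_succ _)) hw, iR_thin h hv (Nat.le_succ t) (le_refl _) hw,
      Pc_code h t w, ind_cg (hall w)]
    unfold DL Pc
    ring
  have e2 : P.E (fun w => ind (pub w ∧ TT 0 w ∧ TT 1 w ∧ TT 2 w) * gV (P.cond fun u => (Vt v (t + 1) ∅ u,
      NP D v (t + 1) (t + 1) u) = (Vt v (t + 1) ∅ w, NP D v (t + 1) (t + 1) w))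
      (P.cond fun u => NP D v (t + 1) (t + 1) u = NP D v (t + 1) (t + 1) w) (XL v (t + 1) 0) (XL v (t + 1) 1)
      (XL v (t + 1) 2) B eta (XL v (t + 1) 0 w) (XL v (t + 1) 1 w) (XL v (t + 1) 2 w)) =
      P.E (fun w => ind (pub w ∧ ∀ i, TT i w) *
      gL h v (Vt v (t + 1) ∅) B eta t (t + 1) (t + 1) (Vt v (t + 1) ∅ w) w) := by
    refine P.E_congr fun w hw => ?_
    unfold gL
    rw [Pc_child h hw, ind_cg (hall w), Pc_code h t w]
    rfl
  have e3 : P.Pr (fun w => pub w ∧ (e < (P.cond fun u => (Vt v (t + 1) ∅ u, NP D v (t + 1) (t + 1) u) =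
      (Vt v (t + 1) ∅ w, NP D v (t + 1) (t + 1) w)).Pr (fun u => ¬ TT 0 u) ∨
      e < (P.cond fun u => (Vt v (t + 1) ∅ u, NP D v (t + 1) (t + 1) u) =
      (Vt v (t + 1) ∅ w, NP D v (t + 1) (t + 1) w)).Pr (fun u => ¬ TT 1 u) ∨
      e < (P.cond fun u => (Vt v (t + 1) ∅ u, NP D v (t + 1) (t + 1) u) =
      (Vt v (t + 1) ∅ w, NP D v (t + 1) (t + 1) w)).Pr (fun u => ¬ TT 2 u))) =
      P.Pr (fun w => pub w ∧ Bch h v (Vt v (t + 1) ∅) TT e t (t + 1) (t + 1) w) := by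
    refine P.E_congr fun w hw => ind_cg (and_congr_right fun _ => ?_)
    unfold Bch
    rw [Pc_child h hw, Pc_code h t w]
    constructor
    · rintro (h1 | h1 | h1)
      · exact ⟨0, h1⟩
      · exact ⟨1, h1⟩
      · exact ⟨2, h1⟩
    · rintro ⟨i, hi⟩
      fin_cases i
      · exact Or.inl hi
      · exact Or.inr (Or.inl hi)
      · exact Or.inr (Or.inr hi)
  have e4 : P.I (XL v (t + 1) 0) (Vt v (t + 1) ∅) (NP D v (t + 1) (t + 1)) +
      P.I (XL v (t + 1) 1) (Vt v (t + 1) ∅) (NP D v (t + 1) (t + 1)) +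
      P.I (XL v (t + 1) 2) (Vt v (t + 1) ∅) (NP D v (t + 1) (t + 1)) = KV h v (Vt v (t + 1) ∅) t (t + 1) (t + 1) := by
    unfold KV
    rw [Fin.sum_univ_three]
  have e2p : P.E (fun w => ind (pub w ∧ TT 0 w ∧ TT 1 w ∧ TT 2 w) *
      psx (Real.log (D3 (P.cond fun u => (Vt v (t + 1) ∅ u, NP D v (t + 1) (t + 1) u) =
          (Vt v (t + 1) ∅ w, NP D v (t + 1) (t + 1) w)) (XL v (t + 1) 0)
        (XL v (t + 1) 1) (XL v (t + 1) 2) (XL v (t + 1) 0 w) (XL v (t + 1) 1 w) (XL v (t + 1) 2 w)) -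
        Real.log (D3 (P.cond fun u => NP D v (t + 1) (t + 1) u = NP D v (t + 1) (t + 1) w) (XL v (t + 1) 0)
        (XL v (t + 1) 1) (XL v (t + 1) 2) (XL v (t + 1) 0 w) (XL v (t + 1) 1 w) (XL v (t + 1) 2 w)) +
        gV (P.cond fun u => (Vt v (t + 1) ∅ u,
      NP D v (t + 1) (t + 1) u) = (Vt v (t + 1) ∅ w, NP D v (t + 1) (t + 1) w))
      (P.cond fun u => NP D v (t + 1) (t + 1) u = NP D v (t + 1) (t + 1) w) (XL v (t + 1) 0) (XL v (t + 1) 1)
      (XL v (t + 1) 2) B eta (XL v (t + 1) 0 w) (XL v (t + 1) 1 w) (XL v (t + 1) 2 w))) =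
      P.E (fun w => ind (pub w ∧ ∀ i, TT i w) *
      psx (A1 h (v := v) t w + gL h v (Vt v (t + 1) ∅) B eta t (t + 1) (t + 1) (Vt v (t + 1) ∅ w) w)) := by
    refine P.E_congr fun w hw => ?_
    unfold gL A1
    rw [Pc_child h hw, ind_cg (hall w), Pc_code h t w]
    rfl
  rw [e2, e3, e4, e2p] at L
  rw [e1]
  linarith

end thin

section thin2

variable {X β γ φ υ : Type} [Fintype X] [Fintype β] [Fintype φ] [Nonempty X] [Nonempty β]
variable {D : HD (Fin 3) X β γ φ} {al : ℝ} (h : D.Thick al) {v : ℕ → Finset (Fin 3) → X → (Fin 3 → β) → υ}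

/-- **THE LOSS OF THE THIN LEVEL**, the vertices `i`, `k`, convex terms kept -/
theorem lossVjp (hv : Codes D v) {t : ℕ} {i k j : Fin 3} (hik : i ≠ k) (hij : i ≠ j) (hkj : k ≠ j)
    {pub : Pt (Fin 3) X β φ → Prop} {TT : Fin 3 → Pt (Fin 3) X β φ → Prop}
    (hA : Alv D v (t + 1) (t + 1) pub TT) {B eta τ e : ℝ} (hB : Real.exp 2 ≤ B) (he0 : 0 ≤ eta) (he1 : eta ≤ 1)
    (ht0 : 0 ≤ τ) (ht1 : τ ≤ 1) (hee : 0 ≤ e)
    (G : ∀ w, (D.P h t).p w ≠ 0 → pub w → Good3 (Pc h v t (t + 1) (t + 1) w) (XL v (t + 1) 0) (XL v (t + 1) 1)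
      (XL v (t + 1) 2) (TL D v (t + 1) (t + 1) 0 (TT 0) w) (TL D v (t + 1) (t + 1) 1 (TT 1) w)
      (TL D v (t + 1) (t + 1) 2 (TT 2) w) τ)
    (hd : ∀ w, (D.P h t).p w ≠ 0 → pub w → ∀ i, (Pc h v t (t + 1) (t + 1) w).Pr (fun u => ¬ TT i u) ≤ e) :
    (D.P h t).E (fun w => ind (pub w ∧ TT i w ∧ TT k w) *
      (iR (D.P h t) (pj j) pcl (LL (Um v (t + 1))) (WW D (t + 1)) w -
        iR (D.P h t) (pj j) pcl (LL (Um v (t + 2))) (WW D (t + 1)) w)) +
    ((D.P h t).E (fun w => ind (pub w ∧ TT i w ∧ TT k w) *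
      psx (B1 h (v := v) t i k w + gJ h v i k (Vt v (t + 1) ∅) B eta t (t + 1) (t + 1) (Vt v (t + 1) ∅ w) w)) +
    (D.P h t).E (fun w => ind (pub w ∧ TT i w ∧ TT k w) * psx (B2 h (v := v) t i k w))) ≤
    (D.P h t).E (fun w => ind (pub w ∧ TT i w ∧ TT k w) *
      gJ h v i k (Vt v (t + 1) ∅) B eta t (t + 1) (t + 1) (Vt v (t + 1) ∅ w) w) +
    (1000 * B ^ 3 * (Real.sqrt τ + eta) + 4 * e) * KV h v (Vt v (t + 1) ∅) t (t + 1) (t + 1) +
    6 * (D.P h t).Pr (fun w => pub w ∧ Bch h v (Vt v (t + 1) ∅) TT e t (t + 1) (t + 1) w) := by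
  set P := D.P h t with hP
  set N := NP D v (t + 1) (t + 1) (φ := φ) with hN
  set V := Vt v (t + 1) ∅ (φ := φ) with hV
  have hall : ∀ w : Pt (Fin 3) X β φ, (pub w ∧ TT i w ∧ TT k w) ↔ (pub w ∧ TT i w ∧ TT k w ∧ True) := by
    intro w
    rw [and_true]
  -- rows
  have rows : ∀ w, P.p w ≠ 0 → pub w → ∀ a b : Fin 3, a ≠ b → ∀ x, TL D v (t + 1) (t + 1) a (TT a) w x →
      rowd (Pc h v t (t + 1) (t + 1) w) (XL v (t + 1) a) (XL v (t + 1) b) x ≤
        τ * lw (Pc h v t (t + 1) (t + 1) w) (XL v (t + 1) a) x := by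
    intro w hw hp a b hab x hx
    have g := G w hw hp
    fin_cases a <;> fin_cases b
    · exact absurd rfl hab
    · exact g.xy x hx
    · exact g.xz x hx
    · exact g.yx x hx
    · exact absurd rfl hab
    · exact g.yz x hx
    · exact g.zx x hx
    · exact g.zy x hx
    · exact absurd rfl hab
  have L := lossp_cells P (N := N) (V := V) (X := XL v (t + 1) i) (Y := XL v (t + 1) k)
    (Z := fun _ => ()) (pub := pub) (T1 := TT i) (T2 := TT k) (T3 := fun _ => True) hA.fp (hA.ft i) (hA.ft k)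
    (fun _ _ _ => Iff.rfl) hB he0 he1 ht0 ht1 hee
    (fun w hw hp => good_unit ht0 (rows w hw hp i k hik) (rows w hw hp k i hik.symm))
    (fun w hw hp => ⟨hd w hw hp i, hd w hw hp k, by
      have : (P.cond fun u => N u = N w).Pr (fun _ => ¬ True) = 0 := by
        rw [← FP.E_const (P.cond fun u => N u = N w) 0]
        exact FP.E_congr _ fun u _ => ind_not fun hh => hh trivial
      rw [this]; exact hee⟩)
  have C := privp_cells P (N := N) (V := V) (XL_old (v := v) t i) (XL_old (v := v) t k)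
    (Z := fun _ => ()) (Z' := fun _ => ()) (Fac.refl _) (al := fun w => pub w ∧ TT i w ∧ TT k w) (by
    intro a b hab
    simp only [Prod.mk.injEq] at hab
    exact and_congr (hA.fp a b hab.1) (and_congr (hA.ft i a b (Prod.ext hab.1 hab.2.2.1))
      (hA.ft k a b (Prod.ext hab.1 hab.2.2.2.1))))
  have C' : P.E (fun w => ind (pub w ∧ TT i w ∧ TT k w) * psx (B2 h (v := v) t i k w)) ≤
      P.E (fun w => ind (pub w ∧ TT i w ∧ TT k w) * Real.log (D3 (P.cond fun u => (V u, N u) = (V w, N w))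
        (XL v (t + 2) i) (XL v (t + 2) k) (fun _ => ()) (XL v (t + 2) i w) (XL v (t + 2) k w) ())) -
      P.E (fun w => ind (pub w ∧ TT i w ∧ TT k w) * Real.log (D3 (P.cond fun u => (V u, N u) = (V w, N w))
        (XL v (t + 1) i) (XL v (t + 1) k) (fun _ => ()) (XL v (t + 1) i w) (XL v (t + 1) k w) ())) := by
    refine le_trans (le_of_eq ?_) (C.trans (le_of_eq ?_))
    · refine P.E_congr fun w _ => ?_
      unfold B2
      rw [Pc_code h t w]
    · rw [← FP.E_sub]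
      refine P.E_congr fun w _ => ?_
      ring
  have e1 : P.E (fun w => ind (pub w ∧ TT i w ∧ TT k w) * (iR P (pj j) pcl (LL (Um v (t + 1))) (WW D (t + 1)) w -
        iR P (pj j) pcl (LL (Um v (t + 2))) (WW D (t + 1)) w)) =
      P.E (fun w => ind (pub w ∧ TT i w ∧ TT k w ∧ True) *
      (Real.log (D3 (P.cond fun u => N u = N w) (XL v (t + 1) i)
        (XL v (t + 1) k) (fun _ => ()) (XL v (t + 1) i w) (XL v (t + 1) k w) ()) -
        Real.log (D3 (P.cond fun u => (V u, N u) = (V w, N w)) (XL v (t + 1) i)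
        (XL v (t + 1) k) (fun _ => ()) (XL v (t + 1) i w) (XL v (t + 1) k w) ()))) +
      P.E (fun w => ind (pub w ∧ TT i w ∧ TT k w) * Real.log (D3 (P.cond fun u => (V u, N u) = (V w, N w))
        (XL v (t + 1) i) (XL v (t + 1) k) (fun _ => ()) (XL v (t + 1) i w) (XL v (t + 1) k w) ())) -
      P.E (fun w => ind (pub w ∧ TT i w ∧ TT k w) * Real.log (D3 (P.cond fun u => (V u, N u) = (V w, N w))
        (XL v (t + 2) i) (XL v (t + 2) k) (fun _ => ()) (XL v (t + 2) i w) (XL v (t + 2) k w) ())) := by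
    rw [← FP.E_add, ← FP.E_sub]
    refine P.E_congr fun w hw => ?_
    rw [iR_pair h hv (Nat.le_succ t) (le_refl _ |>.trans (Nat.le_succ _)) hik hij hkj hw,
      iR_pair h hv (Nat.le_succ t) (le_refl _) hik hij hkj hw, Pc_code h t w, ind_cg (hall w)]
    unfold DJ Pc
    ring
  have e2 : P.E (fun w => ind (pub w ∧ TT i w ∧ TT k w ∧ True) * gV (P.cond fun u => (V u, N u) = (V w, N w))
      (P.cond fun u => N u = N w) (XL v (t + 1) i) (XL v (t + 1) k) (fun _ => ()) B eta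
      (XL v (t + 1) i w) (XL v (t + 1) k w) ()) =
      P.E (fun w => ind (pub w ∧ TT i w ∧ TT k w) *
      gJ h v i k V B eta t (t + 1) (t + 1) (V w) w) := by
    refine P.E_congr fun w hw => ?_
    unfold gJ
    rw [hV, Pc_child h hw, ind_cg (hall w), Pc_code h t w]
    rfl
  have e3 : P.Pr (fun w => pub w ∧ (e < (P.cond fun u => (V u, N u) = (V w, N w)).Pr (fun u => ¬ TT i u) ∨
      e < (P.cond fun u => (V u, N u) = (V w, N w)).Pr (fun u => ¬ TT k u) ∨
      e < (P.cond fun u => (V u, N u) = (V w, N w)).Pr (fun _ => ¬ True))) ≤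
      P.Pr (fun w => pub w ∧ Bch h v V TT e t (t + 1) (t + 1) w) := by
    refine P.Pr_mono fun w hw hh => ⟨hh.1, ?_⟩
    unfold Bch
    rw [hV, Pc_child h hw, ← Pc_code h t w]
    rcases hh.2 with h1 | h1 | h1
    · exact ⟨i, h1⟩
    · exact ⟨k, h1⟩
    · exfalso
      have h2 : (P.cond fun u => (V u, N u) = (V w, N w)).Pr (fun _ => ¬ True) = 0 := by
        rw [← FP.E_const (P.cond fun u => (V u, N u) = (V w, N w)) 0]
        exact FP.E_congr _ fun u _ => ind_not fun hh => hh trivial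
      rw [h2] at h1
      linarith
  have e4 : P.I (XL v (t + 1) i) V N + P.I (XL v (t + 1) k) V N + P.I (fun _ => ()) V N ≤
      KV h v V t (t + 1) (t + 1) := by
    rw [I_unit, add_zero]
    unfold KV
    have h1 : ∑ x ∈ ({i, k} : Finset (Fin 3)), P.I (XL v (t + 1) x) V N ≤ ∑ x, P.I (XL v (t + 1) x) V N :=
      Finset.sum_le_sum_of_subset_of_nonneg (Finset.subset_univ _) fun x _ _ => P.I_nonneg _ _ _
    rw [Finset.sum_pair hik] at h1
    exact h1
  have hB0 : 0 ≤ B := (Real.exp_pos 2).le.trans hB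
  have hc0 : 0 ≤ 1000 * B ^ 3 * (Real.sqrt τ + eta) + 4 * e := by positivity
  have e5 := mul_le_mul_of_nonneg_left e4 hc0
  have e2p : P.E (fun w => ind (pub w ∧ TT i w ∧ TT k w ∧ True) *
      psx (Real.log (D3 (P.cond fun u => (V u, N u) = (V w, N w)) (XL v (t + 1) i)
        (XL v (t + 1) k) (fun _ => ()) (XL v (t + 1) i w) (XL v (t + 1) k w) ()) -
        Real.log (D3 (P.cond fun u => N u = N w) (XL v (t + 1) i)
        (XL v (t + 1) k) (fun _ => ()) (XL v (t + 1) i w) (XL v (t + 1) k w) ()) +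
        gV (P.cond fun u => (V u, N u) = (V w, N w))
      (P.cond fun u => N u = N w) (XL v (t + 1) i) (XL v (t + 1) k) (fun _ => ()) B eta
      (XL v (t + 1) i w) (XL v (t + 1) k w) ())) =
      P.E (fun w => ind (pub w ∧ TT i w ∧ TT k w) *
      psx (B1 h (v := v) t i k w + gJ h v i k (Vt v (t + 1) ∅) B eta t (t + 1) (t + 1) (Vt v (t + 1) ∅ w) w)) := by
    refine P.E_congr fun w hw => ?_
    unfold gJ B1
    rw [Pc_child h hw, ind_cg (hall w), Pc_code h t w]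
    rfl
  rw [e2, e2p] at L
  rw [e1]
  linarith

end thin2

end Pool.Agent.GMH.V3
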