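import Pool.Agent.GMH.XorB
import Pool.Agent.GMH.Fin3

/-!
# GMH/XorC: the thin level with the convex term kept, part 3 (helper13)

* `V_totalp`, `VJ_totalp` : balance of the thin level plus the convex terms of the public and the private steps at alive points
  is at most `errV` (after `V_total`, `VJ_total` of helper30, helper91);
* `balV_nonneg`, `balJ_nonneg` : the balance is not negative (`conGA0`);
* `V_psx`, `J_psx` : the sum over the run of the convex terms is at most `errV`;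
* `A1_sum`, `A2_sum`, `B1_sum`, `B2_sum` : **the increments of the thin potentials are small at alive points** : the sum over
  the run of the mass of the alive points with an increment `>= 2 c` is at most `(4 / c^2) errV + 2 X0 PR / c`.
-/

set_option autoImplicit false
set_option linter.unusedSectionVars false
set_option linter.unusedVariables false

namespace Pool.Agent.GMH.V3

open Finset Pool.Agent.PWZ Pool.Agent.M3 Pool.Agent.GM Pool.Agent.GM.Harm Pool.Agent.GMH Pool.Agent.GMH.NZ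

section defs

variable {X β γ φ υ : Type} [Fintype X] [Fintype β] [Fintype φ] [Nonempty X] [Nonempty β]
variable {D : HD (Fin 3) X β γ φ} {al : ℝ} (h : D.Thick al) (v : ℕ → Finset (Fin 3) → X → (Fin 3 → β) → υ)

/-- the alive points of the half step `2 t + 1` (the points of `aV'`) -/
noncomputable def PSV (p : AP) (B eta : ℝ) (i0 : Fin 3) (t : ℕ) : ℝ :=
  (D.P h t).E (fun w => ind (PBr h v p (2 * t + 1) w ∧ ∀ i, TTr h v p (2 * t + 1) i w) *
    psx (A1 h (v := v) t w + gL h v (Vt v (t + 1) ∅) B eta t (t + 1) (t + 1) (Vt v (t + 1) ∅ w) w)) +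
  (D.P h t).E (fun w => ind (PBr h v p (2 * t + 1) w ∧ ∀ i, TTr h v p (2 * t + 1) i w) * psx (A2 h (v := v) t i0 w))

noncomputable def PSJ (p : AP) (B eta : ℝ) (i k : Fin 3) (t : ℕ) : ℝ :=
  (D.P h t).E (fun w => ind (PBr h v p (2 * t + 1) w ∧ TTr h v p (2 * t + 1) i w ∧ TTr h v p (2 * t + 1) k w) *
    psx (B1 h (v := v) t i k w + gJ h v i k (Vt v (t + 1) ∅) B eta t (t + 1) (t + 1) (Vt v (t + 1) ∅ w) w)) +
  (D.P h t).E (fun w => ind (PBr h v p (2 * t + 1) w ∧ TTr h v p (2 * t + 1) i w ∧ TTr h v p (2 * t + 1) k w) *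
    psx (B2 h (v := v) t i k w))

end defs

open VT

variable {X β γ φ : Type} [Fintype X] [Fintype β] [Fintype φ] [Nonempty X] [Nonempty β]
variable {D : HD (Fin 3) X β γ φ} {al : ℝ} {h : D.Thick al}
  {v : ℕ → Finset (Fin 3) → X → (Fin 3 → β) → Pt (Fin 3) X β φ}
variable {dg : ℕ → X → ℝ} {prr : ℕ → Fin 3 → φ → φ} {T : ℕ} {Lam : ℝ}

/-- **THE THIN LEVEL OVER THE CLASS**, convex terms kept -/
theorem V_totalp (i0 : Fin 3) (H : D.Hyp dg prr al T Lam) {n N1 : ℝ} (R : Run h (pr3 (Fin 3) n N1) (SS1 (Fin 3)) (AdmDep D) v) (p : AP)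
    {K0 B eta τ L : ℝ} (hn : NumV n N1 K0 B eta τ L p) {Pd PR : ℝ}
    (hPd : (D.P h T).Pr (fun w => ¬ Ar h v p (2 * T) w) ≤ Pd)
    (hPR : ∑ r ∈ range (2 * T), (Pr' h r).Pr (fun w => Rgr h v p B eta r w) ≤ PR) :
    balA h prr v pth pcl dg T (aV h v p) (aV' h v p) (fun t => gL h v (fun u => dg t u.1) B eta t (t + 1) t 1)
      (fun t => gL h v (fun u => dg t u.1) B eta t (t + 1) t (-1)) + ∑ t ∈ range T, PSV h v p B eta i0 t ≤
      errV n N1 Lam K0 B eta τ p Pd PR := by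
  obtain ⟨hn1, hN1, hX, hXN, he, hdl, hdl1, hK0, hKN, hB, h0, h1, ht0, ht1, hL1, hXL, hdL, hLN, hLt⟩ := hn
  have hv := R.codes
  have hNS : ∀ J ∈ SS1 (Fin 3), 0 ≤ pr3 (Fin 3) n N1 J := fun J _ => zero_le_one.trans (pr3_one hn1 hN1 J)
  have hS0 : (∅ : Finset (Fin 3)) ∈ SS1 (Fin 3) := mem_SS1.2 (ne_u k3)
  have hS1 : ∀ i : Fin 3, {i} ∈ SS1 (Fin 3) := fun i => mem_SS1.2 (one_ne k3 i)
  have hN0' := prN0 n N1
  have hN1' : ∀ i : Fin 3, N1 ≤ pr3 (Fin 3) n N1 {i} := fun i => (prN1 n N1 i).ge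
  have hB0 : 0 ≤ B := (Real.exp_pos 2).le.trans hB
  have hB1 : 1 ≤ B := by
    have := Real.add_one_le_exp (2 : ℝ)
    linarith
  have hLam : 1 ≤ Lam := H.Lam1
  have hX0 : 0 ≤ p.X0 := by linarith
  have hN1p : 0 < N1 := by linarith
  have hn0 : 0 ≤ n := by linarith
  have hdN : Real.exp (-N1) ≤ p.dl := by
    refine (Real.exp_le_exp.2 ?_).trans hdL
    nlinarith [mul_nonneg hN1p.le (mul_nonneg ht0 ht0), mul_le_mul ht1 ht1 ht0 zero_le_one]
  -- the ends
  have hm : 0 ≤ 18 * n * Lam / N1 := by positivity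
  have e1 := EndTR.MA_thin_run k3 R H hn1 hN1 (le_refl T) (aV h v p)
  have e2 : -(2 * Real.sqrt (18 * n * Lam / N1)) ≤ MA h v pth pcl (aV h v p) 0 := by
    refine le_trans ?_ (MA_ge (h := h) (v := v) pth_down pth0 (aV h v p) 0)
    have := Real.sqrt_le_sqrt (endT_thin k3 R H hn1 hN1 (Nat.zero_le T))
    linarith
  have e3 := ends e1 e2 hm
  -- the sums
  have hcG : 0 ≤ 1000 * B ^ 3 * (Real.sqrt τ + eta) + 4 * p.e0 := by
    have := Real.sqrt_nonneg τ
    positivity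
  have key := asm (T := T) (kD := killD h v pth pcl (aV h v p) (aV' h v p))
    (lA := fun t => lossA h v pth pcl (aV' h v p) t + PSV h v p B eta i0 t) (kA := killA h prr v pth pcl (aV h v p) (aV' h v p))
    (cA := fun t => corA h dg v pth pcl (aV h v p) t (gL h v (fun u => dg t u.1) B eta t (t + 1) t 1)
      (gL h v (fun u => dg t u.1) B eta t (t + 1) t (-1)))
    (PD := fun t => kilD h v p t) (PA := fun t => kilA h v p t)
    (KD := fun t => KV h v (fun u => dg t u.1) t (t + 1) t)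
    (KA := fun t => KV h v (Vt v (t + 1) ∅) t (t + 1) (t + 1))
    (BD := fun t => (D.P h t).Pr (fun w => PBr h v p (2 * t) w ∧
        Bch h v (fun u => dg t u.1) (TTr h v p (2 * t)) p.e0 t (t + 1) t w))
    (BA := fun t => (D.P h t).Pr (fun w => PBr h v p (2 * t + 1) w ∧
        Bch h v (Vt v (t + 1) ∅) (TTr h v p (2 * t + 1)) p.e0 t (t + 1) (t + 1) w))
    (M2 := fun t => (D.P h t).E (fun w => mm (UU v) h dg t w ^ 2))
    (CS := fun t => ∑ i : Fin 3, cst h v (t + 1) {i})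
    (R0 := fun t => (Pr' h (2 * t)).Pr (fun w => Rgr h v p B eta (2 * t) w))
    (R1 := fun t => (Pr' h (2 * t + 1)).Pr (fun w => Rgr h v p B eta (2 * t + 1) w))
    (K0 := K0) (eK := Real.exp (-(K0 / 2))) (sd := Real.sqrt p.dl) (iN := 100 / N1)
    (cG := 1000 * B ^ 3 * (Real.sqrt τ + eta) + 4 * p.e0) (X2 := 2 * p.X0) (Pd := 4 * Pd) (PR := PR)
    (G9 := 9 * n * Lam) (M9 := 8 * (n * N1 * Lam))
    (fun t ht => killD_V H R hNS hS0 hS1 hN0' hN1' p hX hXN hdl hdl1 hdN hK0 ht)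
    (fun t _ => killA_V R hNS hS0 hS1 hN0' hN1' p hX hXN hK0 hKN t)
    (fun t ht => ?_) (fun t ht => ?_)
    (fun t => kilA_nonneg p t) (fun t => KV_nonneg h _ _ _ _)
    (fun t => KV_nonneg h _ _ _ _) (by linarith) (Real.exp_pos _).le (Real.sqrt_nonneg _) (by positivity)
    (by linarith) hcG
    (kil_tot p hPd) (sum_gain H hn1 hN1 R) (sum_cst' H hn1 hN1 R) (sum_mm H hn1 hN1 R)
    ?_ ?_
  · unfold balA errV
    have e4 : (1000 * B ^ 3 * (Real.sqrt τ + eta) + 4 * p.e0 + 100 * Real.exp (-(K0 / 2)) + 200 / N1) =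
      (1000 * B ^ 3 * (Real.sqrt τ + eta) + 4 * p.e0 + 100 * Real.exp (-(K0 / 2)) + 2 * (100 / N1)) := by ring
    have e5 : 0 ≤ Pd := (FP.Pr_nonneg _ _).trans hPd
    have e6 : (100 * (K0 + 1) + 48) * (4 * Pd) = (400 * (K0 + 1) + 192) * Pd := by ring
    rw [e4]
    have e7 : ∑ t ∈ range T, (killD h v pth pcl (aV h v p) (aV' h v p) t +
        (lossA h v pth pcl (aV' h v p) t + PSV h v p B eta i0 t) + killA h prr v pth pcl (aV h v p) (aV' h v p) t) =
        ∑ t ∈ range T, (killD h v pth pcl (aV h v p) (aV' h v p) t + lossA h v pth pcl (aV' h v p) t +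
          killA h prr v pth pcl (aV h v p) (aV' h v p) t) + ∑ t ∈ range T, PSV h v p B eta i0 t := by
      rw [← Finset.sum_add_distrib]
      exact Finset.sum_congr rfl fun t _ => by ring
    rw [e7] at key
    linarith
  · -- the loss of the codes
    have a1 := lossVp h hv (t := t) i0 (alv_digit h p t) hB h0 h1 ht0 ht1 he
      (fun w hw hp => good_odd H R hNS hS0 hS1 hN0' hN1' p hL1 hXL hdL hLN hLt ht hw hp)
      (fun w hw hp i => dead_odd p hw hp i)
    have a2 : (D.P h t).E (fun w => ind (PBr h v p (2 * t + 1) w ∧ ∀ i, TTr h v p (2 * t + 1) i w) *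
        gL h v (Vt v (t + 1) ∅) B eta t (t + 1) (t + 1) (Vt v (t + 1) ∅ w) w) ≤
        2 * p.X0 * (Pr' h (2 * t + 1)).Pr (fun w => Rgr h v p B eta (2 * t + 1) w) := by
      rw [Pr_odd]
      refine ((D.P h t).E_mono fun w hw => gL_code_le h H hv p hX0 hB1 h0 ht hw).trans (le_of_eq ?_)
      rw [FP.E_smul]
      rfl
    have a3 : lossA h v pth pcl (aV' h v p) t = (D.P h t).E (fun w => ind (PBr h v p (2 * t + 1) w ∧
      ∀ i, TTr h v p (2 * t + 1) i w) * (iR (D.P h t) pth pcl (LL (Um v (t + 1))) (WW D (t + 1)) w -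
        iR (D.P h t) pth pcl (LL (Um v (t + 2))) (WW D (t + 1)) w)) := rfl
    rw [a3]
    unfold PSV
    linarith
  · -- the digit
    have a1 := digV h H hv ht (alv_state h p t) hB h0 h1 ht0 ht1 he
      (fun w hw hp => good_even R hNS hS0 hS1 hN0' hN1' p hL1 hXL (by linarith) hLt t hw)
      (fun w hw hp i => dead_even p hw hp i)
    have a2 : (D.P h t).E (fun w => ind (aV h v p t w) * if dg t w.1 = 1 then
        gL h v (fun u => dg t u.1) B eta t (t + 1) t 1 w else gL h v (fun u => dg t u.1) B eta t (t + 1) t (-1) w) ≤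
        2 * p.X0 * (Pr' h (2 * t)).Pr (fun w => Rgr h v p B eta (2 * t) w) := by
      rw [Pr_even]
      refine ((D.P h t).E_mono fun w hw => ?_).trans (le_of_eq ((D.P h t).E_smul _ _))
      refine le_trans (le_of_eq ?_) (gL_dig_le h H hv p hX0 hB1 h0 ht hw)
      rcases H.dg_val t w.1 with h2 | h2
      · rw [if_pos h2, h2]
        rfl
      · rw [if_neg (by rw [h2]; norm_num), h2]
        rfl
    exact add_le_add a2 a1
  · refine (bch_sum h H hv p).trans ?_
    have : (D.P h T).Pr (fun w => ¬ PBr h v p (2 * T) w) ≤ (D.P h T).Pr (fun w => ¬ Ar h v p (2 * T) w) :=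
      (D.P h T).Pr_mono fun w _ hw ha => hw ha.1
    have e5 : 0 ≤ Pd := (FP.Pr_nonneg _ _).trans hPd
    linarith
  · exact (sum_evod (fun r => (Pr' h r).Pr (fun w => Rgr h v p B eta r w)) T).symm.le.trans hPR

/-- **TWO VERTICES OVER THE CLASS**, convex terms kept -/
theorem VJ_totalp (H : D.Hyp dg prr al T Lam) {n N1 : ℝ} (R : Run h (pr3 (Fin 3) n N1) (SS1 (Fin 3)) (AdmDep D) v) (p : AP)
    {K0 B eta τ L : ℝ} (hn : NumV n N1 K0 B eta τ L p) {Pd PR : ℝ}
    (hPd : (D.P h T).Pr (fun w => ¬ Ar h v p (2 * T) w) ≤ Pd)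
    (hPR : ∑ r ∈ range (2 * T), (Pr' h r).Pr (fun w => Rgr h v p B eta r w) ≤ PR)
    {i k j : Fin 3} (hik : i ≠ k) (hij : i ≠ j) (hkj : k ≠ j) :
    balA h prr v (pj j) pcl dg T (aJ h v p i k) (aJ' h v p i k)
      (fun t => gJ h v i k (fun u => dg t u.1) B eta t (t + 1) t 1)
      (fun t => gJ h v i k (fun u => dg t u.1) B eta t (t + 1) t (-1)) + ∑ t ∈ range T, PSJ h v p B eta i k t ≤
      errV n N1 Lam K0 B eta τ p Pd PR := by
  obtain ⟨hn1, hN1, hX, hXN, he, hdl, hdl1, hK0, hKN, hB, h0, h1, ht0, ht1, hL1, hXL, hdL, hLN, hLt⟩ := hn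
  have hv := R.codes
  have hNS : ∀ J ∈ SS1 (Fin 3), 0 ≤ pr3 (Fin 3) n N1 J := fun J _ => zero_le_one.trans (pr3_one hn1 hN1 J)
  have hS0 : (∅ : Finset (Fin 3)) ∈ SS1 (Fin 3) := mem_SS1.2 (ne_u k3)
  have hS1 : ∀ i : Fin 3, {i} ∈ SS1 (Fin 3) := fun i => mem_SS1.2 (one_ne k3 i)
  have hN0' := prN0 n N1
  have hN1' : ∀ i : Fin 3, N1 ≤ pr3 (Fin 3) n N1 {i} := fun i => (prN1 n N1 i).ge
  have hB0 : 0 ≤ B := (Real.exp_pos 2).le.trans hB
  have hB1 : 1 ≤ B := by
    have := Real.add_one_le_exp (2 : ℝ)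
    linarith
  have hLam : 1 ≤ Lam := H.Lam1
  have hX0 : 0 ≤ p.X0 := by linarith
  have hN1p : 0 < N1 := by linarith
  have hn0 : 0 ≤ n := by linarith
  have hdN : Real.exp (-N1) ≤ p.dl := by
    refine (Real.exp_le_exp.2 ?_).trans hdL
    nlinarith [mul_nonneg hN1p.le (mul_nonneg ht0 ht0), mul_le_mul ht1 ht1 ht0 zero_le_one]
  -- the ends
  have hm : 0 ≤ 18 * n * Lam / N1 := by positivity
  have e1 := EndTR.MA_pj_run k3 R H hn1 hN1 (le_refl T) j (aJ h v p i k)
  have e2 : -(2 * Real.sqrt (18 * n * Lam / N1)) ≤ MA h v (pj j) pcl (aJ h v p i k) 0 := by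
    refine le_trans ?_ (MA_ge (h := h) (v := v) (pj_down j) (pj0 k3 j) (aJ h v p i k) 0)
    have := Real.sqrt_le_sqrt (endT_pj k3 R H hn1 hN1 (Nat.zero_le T) j)
    linarith
  have e3 := ends e1 e2 hm
  -- the sums
  have hcG : 0 ≤ 1000 * B ^ 3 * (Real.sqrt τ + eta) + 4 * p.e0 := by
    have := Real.sqrt_nonneg τ
    positivity
  have key := asm (T := T) (kD := killD h v (pj j) pcl (aJ h v p i k) (aJ' h v p i k))
    (lA := fun t => lossA h v (pj j) pcl (aJ' h v p i k) t + PSJ h v p B eta i k t) (kA := killA h prr v (pj j) pcl (aJ h v p i k) (aJ' h v p i k))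
    (cA := fun t => corA h dg v (pj j) pcl (aJ h v p i k) t (gJ h v i k (fun u => dg t u.1) B eta t (t + 1) t 1)
      (gJ h v i k (fun u => dg t u.1) B eta t (t + 1) t (-1)))
    (PD := fun t => kilD h v p t) (PA := fun t => kilA h v p t)
    (KD := fun t => KV h v (fun u => dg t u.1) t (t + 1) t)
    (KA := fun t => KV h v (Vt v (t + 1) ∅) t (t + 1) (t + 1))
    (BD := fun t => (D.P h t).Pr (fun w => PBr h v p (2 * t) w ∧
        Bch h v (fun u => dg t u.1) (TTr h v p (2 * t)) p.e0 t (t + 1) t w))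
    (BA := fun t => (D.P h t).Pr (fun w => PBr h v p (2 * t + 1) w ∧
        Bch h v (Vt v (t + 1) ∅) (TTr h v p (2 * t + 1)) p.e0 t (t + 1) (t + 1) w))
    (M2 := fun t => (D.P h t).E (fun w => mm (UU v) h dg t w ^ 2))
    (CS := fun t => ∑ i : Fin 3, cst h v (t + 1) {i})
    (R0 := fun t => (Pr' h (2 * t)).Pr (fun w => Rgr h v p B eta (2 * t) w))
    (R1 := fun t => (Pr' h (2 * t + 1)).Pr (fun w => Rgr h v p B eta (2 * t + 1) w))
    (K0 := K0) (eK := Real.exp (-(K0 / 2))) (sd := Real.sqrt p.dl) (iN := 100 / N1)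
    (cG := 1000 * B ^ 3 * (Real.sqrt τ + eta) + 4 * p.e0) (X2 := 2 * p.X0) (Pd := 4 * Pd) (PR := PR)
    (G9 := 9 * n * Lam) (M9 := 8 * (n * N1 * Lam))
    (fun t ht => killD_J H R hNS hS0 hS1 hN0' hN1' p hX hXN hdl hdl1 hdN hK0 ht hik hij hkj)
    (fun t _ => killA_J R hNS hS0 hS1 hN0' hN1' p hXN hK0 hKN t hik hij hkj)
    (fun t ht => ?_) (fun t ht => ?_)
    (fun t => kilA_nonneg p t) (fun t => KV_nonneg h _ _ _ _)
    (fun t => KV_nonneg h _ _ _ _) (by linarith) (Real.exp_pos _).le (Real.sqrt_nonneg _) (by positivity)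
    (by linarith) hcG
    (kil_tot p hPd) (sum_gain H hn1 hN1 R) (sum_cst' H hn1 hN1 R) (sum_mm H hn1 hN1 R)
    ?_ ?_
  · unfold balA errV
    have e4 : (1000 * B ^ 3 * (Real.sqrt τ + eta) + 4 * p.e0 + 100 * Real.exp (-(K0 / 2)) + 200 / N1) =
      (1000 * B ^ 3 * (Real.sqrt τ + eta) + 4 * p.e0 + 100 * Real.exp (-(K0 / 2)) + 2 * (100 / N1)) := by ring
    have e5 : 0 ≤ Pd := (FP.Pr_nonneg _ _).trans hPd
    have e6 : (100 * (K0 + 1) + 48) * (4 * Pd) = (400 * (K0 + 1) + 192) * Pd := by ring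
    rw [e4]
    have e7 : ∑ t ∈ range T, (killD h v (pj j) pcl (aJ h v p i k) (aJ' h v p i k) t +
        (lossA h v (pj j) pcl (aJ' h v p i k) t + PSJ h v p B eta i k t) +
          killA h prr v (pj j) pcl (aJ h v p i k) (aJ' h v p i k) t) =
        ∑ t ∈ range T, (killD h v (pj j) pcl (aJ h v p i k) (aJ' h v p i k) t + lossA h v (pj j) pcl (aJ' h v p i k) t +
          killA h prr v (pj j) pcl (aJ h v p i k) (aJ' h v p i k) t) + ∑ t ∈ range T, PSJ h v p B eta i k t := by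
      rw [← Finset.sum_add_distrib]
      exact Finset.sum_congr rfl fun t _ => by ring
    rw [e7] at key
    linarith
  · -- the loss of the codes
    have a1 := lossVjp h hv (t := t) hik hij hkj (alv_digit h p t) hB h0 h1 ht0 ht1 he
      (fun w hw hp => good_odd H R hNS hS0 hS1 hN0' hN1' p hL1 hXL hdL hLN hLt ht hw hp)
      (fun w hw hp i => dead_odd p hw hp i)
    have a2 : (D.P h t).E (fun w => ind (PBr h v p (2 * t + 1) w ∧ TTr h v p (2 * t + 1) i w ∧ TTr h v p (2 * t + 1) k w) *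
        gJ h v i k (Vt v (t + 1) ∅) B eta t (t + 1) (t + 1) (Vt v (t + 1) ∅ w) w) ≤
        2 * p.X0 * (Pr' h (2 * t + 1)).Pr (fun w => Rgr h v p B eta (2 * t + 1) w) := by
      rw [Pr_odd]
      refine ((D.P h t).E_mono fun w hw => gJ_code_le h H hv p hX0 hB1 h0 ht hik hw).trans (le_of_eq ?_)
      rw [FP.E_smul]
      rfl
    have a3 : lossA h v (pj j) pcl (aJ' h v p i k) t = (D.P h t).E (fun w => ind (PBr h v p (2 * t + 1) w ∧
      TTr h v p (2 * t + 1) i w ∧ TTr h v p (2 * t + 1) k w) * (iR (D.P h t) (pj j) pcl (LL (Um v (t + 1))) (WW D (t + 1)) w -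
        iR (D.P h t) (pj j) pcl (LL (Um v (t + 2))) (WW D (t + 1)) w)) := rfl
    rw [a3]
    unfold PSJ
    linarith
  · -- the digit
    have a1 := digVj h H hv ht hik hij hkj (alv_state h p t) hB h0 h1 ht0 ht1 he
      (fun w hw hp => good_even R hNS hS0 hS1 hN0' hN1' p hL1 hXL (by linarith) hLt t hw)
      (fun w hw hp i => dead_even p hw hp i)
    have a2 : (D.P h t).E (fun w => ind (aJ h v p i k t w) * if dg t w.1 = 1 then
        gJ h v i k (fun u => dg t u.1) B eta t (t + 1) t 1 w else gJ h v i k (fun u => dg t u.1) B eta t (t + 1) t (-1) w) ≤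
        2 * p.X0 * (Pr' h (2 * t)).Pr (fun w => Rgr h v p B eta (2 * t) w) := by
      rw [Pr_even]
      refine ((D.P h t).E_mono fun w hw => ?_).trans (le_of_eq ((D.P h t).E_smul _ _))
      refine le_trans (le_of_eq ?_) (gJ_dig_le h H hv p hX0 hB1 h0 ht hik hw)
      rcases H.dg_val t w.1 with h2 | h2
      · rw [if_pos h2, h2]
        rfl
      · rw [if_neg (by rw [h2]; norm_num), h2]
        rfl
    exact add_le_add a2 a1
  · refine (bch_sum h H hv p).trans ?_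
    have : (D.P h T).Pr (fun w => ¬ PBr h v p (2 * T) w) ≤ (D.P h T).Pr (fun w => ¬ Ar h v p (2 * T) w) :=
      (D.P h T).Pr_mono fun w _ hw ha => hw ha.1
    have e5 : 0 ≤ Pd := (FP.Pr_nonneg _ _).trans hPd
    linarith
  · exact (sum_evod (fun r => (Pr' h r).Pr (fun w => Rgr h v p B eta r w)) T).symm.le.trans hPR

theorem gcut_nn {B eta a b c D12 D13 D23 D123 : ℝ} (he : 0 ≤ eta) : 0 ≤ gcut B eta a b c D12 D13 D23 D123 := by
  have key : ∀ z : ℝ, 0 ≤ (if 1 + eta < z then Real.log z else 0) := fun z => by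
    split_ifs with h1
    · exact Real.log_nonneg (by linarith)
    · exact le_refl _
  unfold gcut
  split_ifs <;> first | exact le_refl _ | exact Real.log_nonneg (by linarith)

section nonneg

variable {p : AP} {B eta : ℝ}

theorem balV_nonneg (H : D.Hyp dg prr al T Lam) (hv : Codes D v) :
    0 ≤ balA h prr v pth pcl dg T (aV h v p) (aV' h v p) (fun t => gL h v (fun u => dg t u.1) B eta t (t + 1) t 1)
      (fun t => gL h v (fun u => dg t u.1) B eta t (t + 1) t (-1)) := by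
  have k := conGA0 h (p := pth) (fun l => er_ne_thin (by rw [Finset.card_empty]; norm_num)) pth0 H hv pth_down
    (by unfold pth; rw [Finset.card_univ, Fintype.card_fin]; norm_num)
    (a := aV h v p) (a' := aV' h v p)
    (G := fun _ _ => False) (fun t _ => F3.aV_fac h p t) (fun t _ => F3.aV'_fac h p t) (fun t _ w _ hG => hG.elim)
    (g := fun t => gL h v (fun u => dg t u.1) B eta t (t + 1) t 1)
    (g' := fun t => gL h v (fun u => dg t u.1) B eta t (t + 1) t (-1))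
    (fun t _ => gL_fac h 1) (fun t _ => gL_fac h (-1)) (fun t _ w _ hG => hG.elim)
  have k2 : 0 ≤ ∑ t ∈ range T, (D.P h t).E (fun w => ind False * (bp v pth h dg t w -
      ex (mm (UU v) h dg t w) (univ.filter fun J => pth J ∧ J ≠ ∅)
      (fun J => uu (UU v) h dg J t w) (fun J => ul (UU v) h dg J t w)) ^ 2) :=
    Finset.sum_nonneg fun t _ => FP.E_nonneg _ fun w _ => mul_nonneg (ind_nonneg _) (sq_nonneg _)
  linarith

theorem balJ_nonneg (H : D.Hyp dg prr al T Lam) (hv : Codes D v) {i k j : Fin 3} (hik : i ≠ k) (hij : i ≠ j)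
    (hkj : k ≠ j) :
    0 ≤ balA h prr v (pj j) pcl dg T (aJ h v p i k) (aJ' h v p i k)
      (fun t => gJ h v i k (fun u => dg t u.1) B eta t (t + 1) t 1)
      (fun t => gJ h v i k (fun u => dg t u.1) B eta t (t + 1) t (-1)) := by
  have k := conGA0 h (p := pj j) (fun l => er_ne_thin (by rw [Finset.card_empty]; norm_num)) (pj0 k3 j) H hv (pj_down j)
    (fun hh => absurd (hh.1 (mem_univ j)) (Finset.notMem_erase j _))
    (a := aJ h v p i k) (a' := aJ' h v p i k)
    (G := fun _ _ => False) (fun t _ => F3.aJ_fac h p t hij hkj) (fun t _ => F3.aJ'_fac h p t hij hkj)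
    (fun t _ w _ hG => hG.elim)
    (g := fun t => gJ h v i k (fun u => dg t u.1) B eta t (t + 1) t 1)
    (g' := fun t => gJ h v i k (fun u => dg t u.1) B eta t (t + 1) t (-1))
    (fun t _ => gJ_fac h hik hij hkj 1) (fun t _ => gJ_fac h hik hij hkj (-1)) (fun t _ w _ hG => hG.elim)
  have k2 : 0 ≤ ∑ t ∈ range T, (D.P h t).E (fun w => ind False * (bp v (pj j) h dg t w -
      ex (mm (UU v) h dg t w) (univ.filter fun J => pj j J ∧ J ≠ ∅)
      (fun J => uu (UU v) h dg J t w) (fun J => ul (UU v) h dg J t w)) ^ 2) :=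
    Finset.sum_nonneg fun t _ => FP.E_nonneg _ fun w _ => mul_nonneg (ind_nonneg _) (sq_nonneg _)
  linarith

/-- Markov for the convex term -/
theorem psx_markov (P : FP (Pt (Fin 3) X β φ)) (S : Pt (Fin 3) X β φ → Prop) (u : Pt (Fin 3) X β φ → ℝ) {c : ℝ}
    (hc : 0 < c) (hc1 : c ≤ 1) : P.Pr (fun w => S w ∧ c ≤ |u w|) ≤ 4 / c ^ 2 * P.E (fun w => ind (S w) * psx (u w)) := by
  have h1 : c ^ 2 * P.Pr (fun w => S w ∧ c ≤ |u w|) ≤ 4 * P.E (fun w => ind (S w) * psx (u w)) := by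
    rw [← FP.E_smul]
    unfold FP.Pr
    rw [← FP.E_smul]
    refine P.E_mono fun w _ => ?_
    by_cases hS : S w
    · rw [ind_of hS, one_mul, ind_cg (show (S w ∧ c ≤ |u w|) ↔ c ≤ |u w| from and_iff_right hS)]
      exact psx_ind hc hc1
    · rw [ind_not hS, ind_not (fun hh => hS hh.1), mul_zero, zero_mul, mul_zero]
  have hc2 : (0 : ℝ) < c ^ 2 := pow_pos hc 2
  rw [div_mul_eq_mul_div, le_div_iff₀ hc2]
  linarith

end nonneg

section sums

variable (H : D.Hyp dg prr al T Lam) {n N1 : ℝ} (R : Run h (pr3 (Fin 3) n N1) (SS1 (Fin 3)) (AdmDep D) v) (p : AP)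
  {K0 B eta τ L : ℝ} (hn : NumV n N1 K0 B eta τ L p) {Pd PR : ℝ}
  (hPd : (D.P h T).Pr (fun w => ¬ Ar h v p (2 * T) w) ≤ Pd)
  (hPR : ∑ r ∈ range (2 * T), (Pr' h r).Pr (fun w => Rgr h v p B eta r w) ≤ PR)

include H R hn hPd hPR

/-- **THE CONVEX TERMS OF THE RUN**, three vertices -/
theorem V_psx (i0 : Fin 3) : ∑ t ∈ range T, PSV h v p B eta i0 t ≤ errV n N1 Lam K0 B eta τ p Pd PR := by
  have k1 := V_totalp i0 H R p hn hPd hPR
  have k2 := balV_nonneg (h := h) (p := p) (B := B) (eta := eta) H R.codes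
  linarith

/-- **THE CONVEX TERMS OF THE RUN**, two vertices -/
theorem J_psx {i k j : Fin 3} (hik : i ≠ k) (hij : i ≠ j) (hkj : k ≠ j) :
    ∑ t ∈ range T, PSJ h v p B eta i k t ≤ errV n N1 Lam K0 B eta τ p Pd PR := by
  have k1 := VJ_totalp H R p hn hPd hPR hik hij hkj
  have k2 := balJ_nonneg (h := h) (p := p) (B := B) (eta := eta) H R.codes hik hij hkj
  linarith

theorem odd_sum : ∑ t ∈ range T, (D.P h t).Pr (fun w => Rgr h v p B eta (2 * t + 1) w) ≤ PR := by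
  have k1 := sum_evod (fun r => (Pr' h r).Pr (fun w => Rgr h v p B eta r w)) T
  rw [k1, Finset.sum_add_distrib] at hPR
  have k2 : 0 ≤ ∑ t ∈ range T, (Pr' h (2 * t)).Pr (fun w => Rgr h v p B eta (2 * t) w) :=
    Finset.sum_nonneg fun t _ => FP.Pr_nonneg _ _
  have k3 : ∑ t ∈ range T, (D.P h t).Pr (fun w => Rgr h v p B eta (2 * t + 1) w) =
      ∑ t ∈ range T, (Pr' h (2 * t + 1)).Pr (fun w => Rgr h v p B eta (2 * t + 1) w) :=
    Finset.sum_congr rfl fun t _ => by rw [Pr_odd]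
  linarith

/-- **PRIVATE STEP, THREE VERTICES** : the increments are small at alive points -/
theorem A2_sum (i0 : Fin 3) {c : ℝ} (hc : 0 < c) (hc1 : c ≤ 1) :
    ∑ t ∈ range T, (D.P h t).Pr (fun w => aV' h v p t w ∧ c ≤ |A2 h (v := v) t i0 w|) ≤
      4 / c ^ 2 * errV n N1 Lam K0 B eta τ p Pd PR := by
  have hc2 : (0 : ℝ) ≤ 4 / c ^ 2 := by positivity
  refine le_trans ?_ (mul_le_mul_of_nonneg_left (V_psx H R p hn hPd hPR i0) hc2)
  rw [Finset.mul_sum]
  refine Finset.sum_le_sum fun t _ => ?_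
  refine (psx_markov (D.P h t) (aV' h v p t) _ hc hc1).trans (mul_le_mul_of_nonneg_left ?_ hc2)
  unfold PSV aV'
  exact le_add_of_nonneg_left (FP.E_nonneg _ fun w _ => mul_nonneg (ind_nonneg _) (psx_nn _))

/-- **PRIVATE STEP, TWO VERTICES** -/
theorem B2_sum {i k j : Fin 3} (hik : i ≠ k) (hij : i ≠ j) (hkj : k ≠ j) {c : ℝ} (hc : 0 < c) (hc1 : c ≤ 1) :
    ∑ t ∈ range T, (D.P h t).Pr (fun w => aJ' h v p i k t w ∧ c ≤ |B2 h (v := v) t i k w|) ≤
      4 / c ^ 2 * errV n N1 Lam K0 B eta τ p Pd PR := by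
  have hc2 : (0 : ℝ) ≤ 4 / c ^ 2 := by positivity
  refine le_trans ?_ (mul_le_mul_of_nonneg_left (J_psx H R p hn hPd hPR hik hij hkj) hc2)
  rw [Finset.mul_sum]
  refine Finset.sum_le_sum fun t _ => ?_
  refine (psx_markov (D.P h t) (aJ' h v p i k t) _ hc hc1).trans (mul_le_mul_of_nonneg_left ?_ hc2)
  unfold PSJ aJ'
  exact le_add_of_nonneg_left (FP.E_nonneg _ fun w _ => mul_nonneg (ind_nonneg _) (psx_nn _))

/-- **PUBLIC STEP, THREE VERTICES** -/
theorem A1_sum {c : ℝ} (hc : 0 < c) (hc1 : c ≤ 1) :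
    ∑ t ∈ range T, (D.P h t).Pr (fun w => aV' h v p t w ∧ c ≤ |A1 h (v := v) t w|) ≤
      4 / c ^ 2 * errV n N1 Lam K0 B eta τ p Pd PR + PR := by
  have hc2 : (0 : ℝ) ≤ 4 / c ^ 2 := by positivity
  have hX0 : 0 ≤ p.X0 := by have := hn.hX; linarith
  have hB1 : 1 ≤ B := by
    have h1 := Real.add_one_le_exp (2 : ℝ)
    have h2 := hn.hB
    linarith
  refine le_trans ?_ (add_le_add (mul_le_mul_of_nonneg_left (V_psx H R p hn hPd hPR 0) hc2)
    (odd_sum H R p hn hPd hPR))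
  rw [Finset.mul_sum, ← Finset.sum_add_distrib]
  refine Finset.sum_le_sum fun t ht => ?_
  have ht' := Finset.mem_range.1 ht
  set g := fun w => gL h v (Vt v (t + 1) ∅) B eta t (t + 1) (t + 1) (Vt v (t + 1) ∅ w) w with hg
  have e1 : (D.P h t).Pr (fun w => aV' h v p t w ∧ c ≤ |A1 h (v := v) t w|) ≤
      (D.P h t).Pr (fun w => (aV' h v p t w ∧ c ≤ |A1 h (v := v) t w + g w|) ∨ Rgr h v p B eta (2 * t + 1) w) := by
    refine (D.P h t).Pr_mono fun w hw hh => ?_
    by_cases hR : Rgr h v p B eta (2 * t + 1) w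
    · exact Or.inr hR
    · left
      have k1 := gL_code_le h H R.codes p hX0 hB1 hn.h0 ht' hw
      have k0 := hh.1
      unfold aV' at k0
      rw [ind_not hR, mul_zero, ind_of k0, one_mul] at k1
      have k2 : 0 ≤ g w := gcut_nn hn.h0
      have k3 : g w = 0 := le_antisymm k1 k2
      rw [k3, add_zero]
      exact hh
  refine e1.trans ((FP.Pr_or_le _ _ _).trans (add_le_add ?_ le_rfl))
  refine (psx_markov (D.P h t) (aV' h v p t) _ hc hc1).trans (mul_le_mul_of_nonneg_left ?_ hc2)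
  unfold PSV aV'
  exact le_add_of_nonneg_right (FP.E_nonneg _ fun w _ => mul_nonneg (ind_nonneg _) (psx_nn _))

/-- **PUBLIC STEP, TWO VERTICES** -/
theorem B1_sum {i k j : Fin 3} (hik : i ≠ k) (hij : i ≠ j) (hkj : k ≠ j) {c : ℝ} (hc : 0 < c) (hc1 : c ≤ 1) :
    ∑ t ∈ range T, (D.P h t).Pr (fun w => aJ' h v p i k t w ∧ c ≤ |B1 h (v := v) t i k w|) ≤
      4 / c ^ 2 * errV n N1 Lam K0 B eta τ p Pd PR + PR := by
  have hc2 : (0 : ℝ) ≤ 4 / c ^ 2 := by positivity
  have hX0 : 0 ≤ p.X0 := by have := hn.hX; linarith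
  have hB1 : 1 ≤ B := by
    have h1 := Real.add_one_le_exp (2 : ℝ)
    have h2 := hn.hB
    linarith
  refine le_trans ?_ (add_le_add (mul_le_mul_of_nonneg_left (J_psx H R p hn hPd hPR hik hij hkj) hc2)
    (odd_sum H R p hn hPd hPR))
  rw [Finset.mul_sum, ← Finset.sum_add_distrib]
  refine Finset.sum_le_sum fun t ht => ?_
  have ht' := Finset.mem_range.1 ht
  set g := fun w => gJ h v i k (Vt v (t + 1) ∅) B eta t (t + 1) (t + 1) (Vt v (t + 1) ∅ w) w with hg
  have e1 : (D.P h t).Pr (fun w => aJ' h v p i k t w ∧ c ≤ |B1 h (v := v) t i k w|) ≤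
      (D.P h t).Pr (fun w => (aJ' h v p i k t w ∧ c ≤ |B1 h (v := v) t i k w + g w|) ∨ Rgr h v p B eta (2 * t + 1) w) := by
    refine (D.P h t).Pr_mono fun w hw hh => ?_
    by_cases hR : Rgr h v p B eta (2 * t + 1) w
    · exact Or.inr hR
    · left
      have k1 := gJ_code_le h H R.codes p hX0 hB1 hn.h0 ht' hik hw
      have k0 := hh.1
      unfold aJ' at k0
      rw [ind_not hR, mul_zero, ind_of k0, one_mul] at k1
      have k2 : 0 ≤ g w := gcut_nn hn.h0
      have k3 : g w = 0 := le_antisymm k1 k2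
      rw [k3, add_zero]
      exact hh
  refine e1.trans ((FP.Pr_or_le _ _ _).trans (add_le_add ?_ le_rfl))
  refine (psx_markov (D.P h t) (aJ' h v p i k t) _ hc hc1).trans (mul_le_mul_of_nonneg_left ?_ hc2)
  unfold PSJ aJ'
  exact le_add_of_nonneg_right (FP.E_nonneg _ fun w _ => mul_nonneg (ind_nonneg _) (psx_nn _))

end sums

end Pool.Agent.GMH.V3
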