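import Pool.Agent.GMH.XorC
import Pool.Agent.GMH.HvC
import Pool.Agent.GMH.CKB
import Pool.Agent.GMH.TopTripC
import Pool.Agent.GMH.TopActT

/-!
# GMH/XorD: the ratio of the missing thin letter is the ratio of its own vertex (helper13)

`sv h v t i w` : ratio of the public value at its own vertex `i` = (mass of the letter of `i` in the new public cell) / (mass in
the old public cell), a function of the public information and of the letter of `i`.
* `log_tS1`, `log_tS2`, `log_tS5` : `log tS` of the joint step, of the heavy public step, of the joint private step = `log sv`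
  (resp. `0`) plus increments of the thin potentials `A1`, `A2`, `B1`, `B2`;
* `xor1`, `xor2`, `xor5` : **the sum over the run of the mass of the alive points (half step `2 t + 1`) at which `log tS` differs
  from `log sv` (resp. from `0`) by at least `4 c` is small**.
-/

set_option autoImplicit false
set_option linter.unusedSectionVars false
set_option linter.unusedVariables false

namespace Pool.Agent.GMH.V3

open Finset Pool.Agent.PWZ Pool.Agent.M3 Pool.Agent.GM Pool.Agent.GM.Harm Pool.Agent.GMH Pool.Agent.GMH.NZ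
open Pool.Agent.GMH.TP

noncomputable section

/-- three indices -/
theorem sum_ikl {i k l : Fin 3} (hik : i ≠ k) (hil : i ≠ l) (hkl : k ≠ l) (f : Fin 3 → ℝ) :
    f 0 + f 1 + f 2 = f i + f k + f l := by
  have key : ∀ i k l : Fin 3, i ≠ k → i ≠ l → k ≠ l → (univ : Finset (Fin 3)) = {i, k, l} := by decide
  rw [← Fin.sum_univ_three f, key i k l hik hil hkl, Finset.sum_insert (by simp [hik, hil]),
    Finset.sum_insert (by simp [hkl]), Finset.sum_singleton]
  ring

theorem all_ikl {i k l : Fin 3} (hik : i ≠ k) (hil : i ≠ l) (hkl : k ≠ l) (j : Fin 3) : j = i ∨ j = k ∨ j = l := by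
  have key : ∀ i k l : Fin 3, i ≠ k → i ≠ l → k ≠ l → ∀ j : Fin 3, j = i ∨ j = k ∨ j = l := by decide
  exact key i k l hik hil hkl j

section gen

variable {Om : Type*} [Fintype Om] (P : FP Om) {κ ν : Type*}

/-- log of the density of three letters in a cell, with a sum over the vertices -/
theorem log_D3_sum (Y : Fin 3 → Om → κ) (N : Om → ν) {w : Om} (hw : P.p w ≠ 0) {i k l : Fin 3} (hik : i ≠ k)
    (hil : i ≠ l) (hkl : k ≠ l) :
    Real.log (D3 (P.cond fun u => N u = N w) (Y 0) (Y 1) (Y 2) (Y 0 w) (Y 1 w) (Y 2 w)) =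
      Real.log (P.m (fun u => (Y 0 u, Y 1 u, Y 2 u, N u)) w) + 2 * Real.log (P.m N w) -
        (Real.log (P.m (fun u => (Y i u, N u)) w) + Real.log (P.m (fun u => (Y k u, N u)) w) +
          Real.log (P.m (fun u => (Y l u, N u)) w)) := by
  have e := sum_ikl hik hil hkl (fun j => Real.log (P.m (fun u => (Y j u, N u)) w))
  rw [log_D3_cell P (Y 0) (Y 1) (Y 2) N hw]
  rw [← e]
  ring

/-- log of the density of two letters in a cell -/
theorem log_DJ_sum (Y Z : Om → κ) (N : Om → ν) {w : Om} (hw : P.p w ≠ 0) :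
    Real.log (D3 (P.cond fun u => N u = N w) Y Z (fun _ => ()) (Y w) (Z w) ()) =
      Real.log (P.m (fun u => (Y u, Z u, (), N u)) w) + Real.log (P.m N w) -
        (Real.log (P.m (fun u => (Y u, N u)) w) + Real.log (P.m (fun u => (Z u, N u)) w)) := by
  have e := log_D3_cell P Y Z (fun _ => ()) N hw
  have e2 : P.m (fun u => ((fun _ : Om => ()) u, N u)) w = P.m N w :=
    P.m_congr (fun a b hab => congrArg Prod.snd hab) (fun a b hab => Prod.ext rfl hab) w
  rw [e2] at e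
  rw [e]
  ring

end gen

section st

variable {X β γ φ : Type} [Fintype X] [Fintype β] [Fintype φ] [Nonempty X] [Nonempty β]
variable {D : HD (Fin 3) X β γ φ} {al : ℝ} (h : D.Thick al)
  {v : ℕ → Finset (Fin 3) → X → (Fin 3 → β) → Pt (Fin 3) X β φ}

theorem XLq_le {q q' : ℕ} (hq : q ≤ q') (i : Fin 3) : Fac (XLq (φ := φ) v q' i) (XLq v q i) := by
  induction q', hq using Nat.le_induction with
  | base => exact fun _ _ hab => hab
  | succ n _ ih => exact fun a b hab => ih a b (CKB.XLq_fac n i a b hab)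

theorem NPq_le {q q' : ℕ} (hq : q ≤ q') : Fac (NPq (φ := φ) D v q') (NPq D v q) := by
  induction q', hq using Nat.le_induction with
  | base => exact fun _ _ hab => hab
  | succ n _ ih => exact fun a b hab => ih a b (CKB.NPq_fac n a b hab)

theorem ZQ_of (hv : Codes D v) {q : ℕ} {a b : Pt (Fin 3) X β φ} (h1 : NPq D v q a = NPq D v q b)
    (h2 : ∀ j, XLq v q j a = XLq v q j b) : ZQ D v q a = ZQ D v q b := by
  refine CK_fZQ hv q a b ?_
  unfold CK
  refine Prod.ext h1 (funext fun j => ?_)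
  simp only [Finset.mem_univ, if_true, h2 j]

variable (v) in
/-- old letter of `i`, new letters of the others -/
def YM (q q' : ℕ) (i j : Fin 3) (w : Pt (Fin 3) X β φ) : β × List (Pt (Fin 3) X β φ) :=
  if j = i then XLq v q j w else XLq v q' j w

theorem m_Z (hv : Codes D v) (P : FP (Pt (Fin 3) X β φ)) (q : ℕ) (w : Pt (Fin 3) X β φ) :
    P.m (ZQ D v q) w = P.m (fun u => (XLq v q 0 u, XLq v q 1 u, XLq v q 2 u, NPq D v q u)) w := by
  refine P.m_congr ?_ ?_ w
  · intro a b hab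
    exact Prod.ext (ZQ_XLq q 0 a b hab) (Prod.ext (ZQ_XLq q 1 a b hab) (Prod.ext (ZQ_XLq q 2 a b hab) (ZQ_NPq q a b hab)))
  · intro a b hab
    refine ZQ_of hv (congrArg (fun p => p.2.2.2) hab) fun j => ?_
    fin_cases j
    · exact congrArg Prod.fst hab
    · exact congrArg (fun p => p.2.1) hab
    · exact congrArg (fun p => p.2.2.1) hab

theorem m_ZZ (hv : Codes D v) (P : FP (Pt (Fin 3) X β φ)) {q q' : ℕ} (hq : q ≤ q') {i k l : Fin 3} (hik : i ≠ k)
    (hil : i ≠ l) (hkl : k ≠ l) (w : Pt (Fin 3) X β φ) :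
    P.m (fun u => (ZbQ D v q' i u, ZQ D v q u)) w =
      P.m (fun u => (YM v q q' i 0 u, YM v q q' i 1 u, YM v q q' i 2 u, NPq D v q' u)) w := by
  refine P.m_congr ?_ ?_ w
  · intro a b hab
    have h1 : ZbQ D v q' i a = ZbQ D v q' i b := congrArg Prod.fst hab
    have h2 : ZQ D v q a = ZQ D v q b := congrArg Prod.snd hab
    obtain ⟨h3, h4, h5⟩ := (Hv.ZbQ_iff hik hil hkl.symm).1 h1
    have key : ∀ j, YM v q q' i j a = YM v q q' i j b := by
      intro j
      unfold YM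
      rcases all_ikl hik hil hkl j with rfl | rfl | rfl
      · rw [if_pos rfl, if_pos rfl]
        exact ZQ_XLq q j a b h2
      · rw [if_neg hik.symm, if_neg hik.symm]
        exact h3
      · rw [if_neg hil.symm, if_neg hil.symm]
        exact h4
    exact Prod.ext (key 0) (Prod.ext (key 1) (Prod.ext (key 2) h5))
  · intro a b hab
    have h5 : NPq D v q' a = NPq D v q' b := congrArg (fun p => p.2.2.2) hab
    have key : ∀ j, YM v q q' i j a = YM v q q' i j b := by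
      intro j
      fin_cases j
      · exact congrArg Prod.fst hab
      · exact congrArg (fun p => p.2.1) hab
      · exact congrArg (fun p => p.2.2.1) hab
    have ki := key i
    have kk := key k
    have kl := key l
    unfold YM at ki kk kl
    rw [if_pos rfl, if_pos rfl] at ki
    rw [if_neg hik.symm, if_neg hik.symm] at kk
    rw [if_neg hil.symm, if_neg hil.symm] at kl
    refine Prod.ext ((Hv.ZbQ_iff hik hil hkl.symm).2 ⟨kk, kl, h5⟩) (ZQ_of hv (NPq_le hq a b h5) fun j => ?_)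
    rcases all_ikl hik hil hkl j with rfl | rfl | rfl
    · exact ki
    · exact XLq_le hq j a b kk
    · exact XLq_le hq j a b kl

theorem m_Zb (P : FP (Pt (Fin 3) X β φ)) (q : ℕ) {i k l : Fin 3} (hik : i ≠ k) (hil : i ≠ l) (hkl : k ≠ l)
    (w : Pt (Fin 3) X β φ) :
    P.m (ZbQ D v q i) w = P.m (fun u => (XLq v q k u, XLq v q l u, (), NPq D v q u)) w := by
  refine P.m_congr ?_ ?_ w
  · intro a b hab
    obtain ⟨h3, h4, h5⟩ := (Hv.ZbQ_iff hik hil hkl.symm).1 hab
    exact Prod.ext h3 (Prod.ext h4 (Prod.ext rfl h5))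
  · intro a b hab
    exact (Hv.ZbQ_iff hik hil hkl.symm).2 ⟨congrArg Prod.fst hab, congrArg (fun p => p.2.1) hab,
      congrArg (fun p => p.2.2.2) hab⟩

/-- **the ratio of the missing letter in masses** -/
theorem log_tau (hv : Codes D v) (P : FP (Pt (Fin 3) X β φ)) {q q' : ℕ} (hq : q ≤ q') {i k l : Fin 3} (hik : i ≠ k)
    (hil : i ≠ l) (hkl : k ≠ l) {w : Pt (Fin 3) X β φ} (hw : P.p w ≠ 0) :
    Real.log (tau P (ZbQ D v q i) (ZQ D v q) (ZbQ D v q' i) w (ZbQ D v q' i w)) =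
      Real.log (P.m (fun u => (YM v q q' i 0 u, YM v q q' i 1 u, YM v q q' i 2 u, NPq D v q' u)) w) -
      Real.log (P.m (fun u => (XLq v q 0 u, XLq v q 1 u, XLq v q 2 u, NPq D v q u)) w) -
      (Real.log (P.m (fun u => (XLq v q' k u, XLq v q' l u, (), NPq D v q' u)) w) -
      Real.log (P.m (fun u => (XLq v q k u, XLq v q l u, (), NPq D v q u)) w)) := by
  have e0 : P.m (fun u => (ZbQ D v q' i u, ZbQ D v q i u)) w = P.m (ZbQ D v q' i) w :=
    P.m_congr (fun a b hab => congrArg Prod.fst hab) (fun a b hab => Prod.ext hab (ZbQ_mono hq i a b hab)) w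
  rw [← m_ZZ hv P hq hik hil hkl w, ← m_Z hv P q w, ← m_Zb P q' hik hil hkl w, ← m_Zb P q hik hil hkl w]
  unfold tau
  rw [P.pv_self, P.pv_self, e0]
  have m1 := P.m_pos (fun u => (ZbQ D v q' i u, ZQ D v q u)) hw
  have m2 := P.m_pos (ZQ D v q) hw
  have m3 := P.m_pos (ZbQ D v q' i) hw
  have m4 := P.m_pos (ZbQ D v q i) hw
  rw [Real.log_div (div_pos m1 m2).ne' (div_pos m3 m4).ne', Real.log_div m1.ne' m2.ne', Real.log_div m3.ne' m4.ne']

variable (v) in
/-- ratio of the public value at the vertex `i` -/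
def sv (t : ℕ) (i : Fin 3) (w : Pt (Fin 3) X β φ) : ℝ :=
  lw (Pc h v t (t + 2) (t + 1) w) (XL v (t + 1) i) (XL v (t + 1) i w) /
    lw (Pc h v t (t + 1) (t + 1) w) (XL v (t + 1) i) (XL v (t + 1) i w)

theorem log_sv {t : ℕ} (i : Fin 3) {w : Pt (Fin 3) X β φ} (hw : (D.P h t).p w ≠ 0) :
    Real.log (sv h v t i w) =
      Real.log ((D.P h t).m (fun u => (XL v (t + 1) i u, NP D v (t + 2) (t + 1) u)) w) -
        Real.log ((D.P h t).m (NP D v (t + 2) (t + 1)) w) -
      (Real.log ((D.P h t).m (fun u => (XL v (t + 1) i u, NP D v (t + 1) (t + 1) u)) w) -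
        Real.log ((D.P h t).m (NP D v (t + 1) (t + 1)) w)) := by
  unfold sv Pc
  have m1 := (D.P h t).m_pos (fun u => (XL v (t + 1) i u, NP D v (t + 2) (t + 1) u)) hw
  have m2 := (D.P h t).m_pos (NP D v (t + 2) (t + 1)) hw
  have m3 := (D.P h t).m_pos (fun u => (XL v (t + 1) i u, NP D v (t + 1) (t + 1) u)) hw
  have m4 := (D.P h t).m_pos (NP D v (t + 1) (t + 1)) hw
  rw [lw_cell _ (XL v (t + 1) i) (NP D v (t + 2) (t + 1)) hw, lw_cell _ (XL v (t + 1) i) (NP D v (t + 1) (t + 1)) hw,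
    Real.log_div (div_pos m1 m2).ne' (div_pos m3 m4).ne', Real.log_div m1.ne' m2.ne', Real.log_div m3.ne' m4.ne']

theorem sv_pos {t : ℕ} (i : Fin 3) {w : Pt (Fin 3) X β φ} (hw : (D.P h t).p w ≠ 0) : 0 < sv h v t i w := by
  unfold sv Pc
  rw [lw_cell _ (XL v (t + 1) i) (NP D v (t + 2) (t + 1)) hw, lw_cell _ (XL v (t + 1) i) (NP D v (t + 1) (t + 1)) hw]
  exact div_pos (div_pos ((D.P h t).m_pos _ hw) ((D.P h t).m_pos _ hw))
    (div_pos ((D.P h t).m_pos _ hw) ((D.P h t).m_pos _ hw))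

variable (v) in
theorem XLq_lo (t : ℕ) {j : ℕ} (hj : j ≤ 4) (i : Fin 3) : XLq (φ := φ) v (5 * t + j) i = XL v (t + 1) i := by
  unfold XLq
  rw [nc_i t j (by omega) i, if_neg (by omega), add_zero]

variable (v) in
theorem XLq_hi (t : ℕ) (i : Fin 3) : XLq (φ := φ) v (5 * t + 5) i = XL v (t + 2) i := by
  unfold XLq
  rw [nc_i t 5 (by omega) i, if_pos (by omega)]

variable (D v) in
theorem NPq_hi (t : ℕ) {j : ℕ} (h2 : 2 ≤ j) (h5 : j ≤ 5) : NPq (φ := φ) D v (5 * t + j) = NP D v (t + 2) (t + 1) := by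
  have e := CKB.NPq_new (φ := φ) (D := D) (v := v) (t := t) (j := j - 1) (by omega) (by omega)
  rwa [show 5 * t + (j - 1) + 1 = 5 * t + j by omega] at e

/-- increments in masses -/
theorem A2_m {t : ℕ} {i k l : Fin 3} (hik : i ≠ k) (hil : i ≠ l) (hkl : k ≠ l) {w : Pt (Fin 3) X β φ}
    (hw : (D.P h t).p w ≠ 0) : A2 h (v := v) t i w =
      Real.log ((D.P h t).m (fun u => (XM v t i 0 u, XM v t i 1 u, XM v t i 2 u, NP D v (t + 2) (t + 1) u)) w) -
      Real.log ((D.P h t).m (fun u => (XL v (t + 1) 0 u, XL v (t + 1) 1 u, XL v (t + 1) 2 u, NP D v (t + 2) (t + 1) u)) w) -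
      (Real.log ((D.P h t).m (fun u => (XL v (t + 2) k u, NP D v (t + 2) (t + 1) u)) w) +
        Real.log ((D.P h t).m (fun u => (XL v (t + 2) l u, NP D v (t + 2) (t + 1) u)) w) -
        (Real.log ((D.P h t).m (fun u => (XL v (t + 1) k u, NP D v (t + 2) (t + 1) u)) w) +
        Real.log ((D.P h t).m (fun u => (XL v (t + 1) l u, NP D v (t + 2) (t + 1) u)) w))) := by
  have e1 := log_D3_sum (D.P h t) (XM v t i) (NP D v (t + 2) (t + 1)) hw hik hil hkl
  have e2 := log_D3_sum (D.P h t) (XL v (t + 1)) (NP D v (t + 2) (t + 1)) hw hik hil hkl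
  have hi : XM (φ := φ) v t i i = XL v (t + 1) i := funext fun u => if_pos rfl
  have hk : XM (φ := φ) v t i k = XL v (t + 2) k := funext fun u => if_neg hik.symm
  have hl : XM (φ := φ) v t i l = XL v (t + 2) l := funext fun u => if_neg hil.symm
  rw [hi, hk, hl] at e1
  unfold A2 Pc
  rw [e1, e2]
  ring

theorem A1_m {t : ℕ} {i k l : Fin 3} (hik : i ≠ k) (hil : i ≠ l) (hkl : k ≠ l) {w : Pt (Fin 3) X β φ}
    (hw : (D.P h t).p w ≠ 0) : A1 h (v := v) t w =
      Real.log ((D.P h t).m (fun u => (XL v (t + 1) 0 u, XL v (t + 1) 1 u, XL v (t + 1) 2 u, NP D v (t + 2) (t + 1) u)) w) +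
      2 * Real.log ((D.P h t).m (NP D v (t + 2) (t + 1)) w) -
      (Real.log ((D.P h t).m (fun u => (XL v (t + 1) i u, NP D v (t + 2) (t + 1) u)) w) +
        Real.log ((D.P h t).m (fun u => (XL v (t + 1) k u, NP D v (t + 2) (t + 1) u)) w) +
        Real.log ((D.P h t).m (fun u => (XL v (t + 1) l u, NP D v (t + 2) (t + 1) u)) w)) -
      (Real.log ((D.P h t).m (fun u => (XL v (t + 1) 0 u, XL v (t + 1) 1 u, XL v (t + 1) 2 u, NP D v (t + 1) (t + 1) u)) w) +
      2 * Real.log ((D.P h t).m (NP D v (t + 1) (t + 1)) w) -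
      (Real.log ((D.P h t).m (fun u => (XL v (t + 1) i u, NP D v (t + 1) (t + 1) u)) w) +
        Real.log ((D.P h t).m (fun u => (XL v (t + 1) k u, NP D v (t + 1) (t + 1) u)) w) +
        Real.log ((D.P h t).m (fun u => (XL v (t + 1) l u, NP D v (t + 1) (t + 1) u)) w))) := by
  have e1 := log_D3_sum (D.P h t) (XL v (t + 1)) (NP D v (t + 2) (t + 1)) hw hik hil hkl
  have e2 := log_D3_sum (D.P h t) (XL v (t + 1)) (NP D v (t + 1) (t + 1)) hw hik hil hkl
  unfold A1 Pc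
  rw [e1, e2]

theorem B1_m {t : ℕ} (k l : Fin 3) {w : Pt (Fin 3) X β φ} (hw : (D.P h t).p w ≠ 0) : B1 h (v := v) t k l w =
      Real.log ((D.P h t).m (fun u => (XL v (t + 1) k u, XL v (t + 1) l u, (), NP D v (t + 2) (t + 1) u)) w) +
      Real.log ((D.P h t).m (NP D v (t + 2) (t + 1)) w) -
      (Real.log ((D.P h t).m (fun u => (XL v (t + 1) k u, NP D v (t + 2) (t + 1) u)) w) +
        Real.log ((D.P h t).m (fun u => (XL v (t + 1) l u, NP D v (t + 2) (t + 1) u)) w)) -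
      (Real.log ((D.P h t).m (fun u => (XL v (t + 1) k u, XL v (t + 1) l u, (), NP D v (t + 1) (t + 1) u)) w) +
      Real.log ((D.P h t).m (NP D v (t + 1) (t + 1)) w) -
      (Real.log ((D.P h t).m (fun u => (XL v (t + 1) k u, NP D v (t + 1) (t + 1) u)) w) +
        Real.log ((D.P h t).m (fun u => (XL v (t + 1) l u, NP D v (t + 1) (t + 1) u)) w))) := by
  unfold B1 Pc
  rw [log_DJ_sum (D.P h t) (XL v (t + 1) k) (XL v (t + 1) l) (NP D v (t + 2) (t + 1)) hw,
    log_DJ_sum (D.P h t) (XL v (t + 1) k) (XL v (t + 1) l) (NP D v (t + 1) (t + 1)) hw]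

theorem B2_m {t : ℕ} (k l : Fin 3) {w : Pt (Fin 3) X β φ} (hw : (D.P h t).p w ≠ 0) : B2 h (v := v) t k l w =
      Real.log ((D.P h t).m (fun u => (XL v (t + 2) k u, XL v (t + 2) l u, (), NP D v (t + 2) (t + 1) u)) w) -
      (Real.log ((D.P h t).m (fun u => (XL v (t + 2) k u, NP D v (t + 2) (t + 1) u)) w) +
        Real.log ((D.P h t).m (fun u => (XL v (t + 2) l u, NP D v (t + 2) (t + 1) u)) w)) -
      (Real.log ((D.P h t).m (fun u => (XL v (t + 1) k u, XL v (t + 1) l u, (), NP D v (t + 2) (t + 1) u)) w) -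
      (Real.log ((D.P h t).m (fun u => (XL v (t + 1) k u, NP D v (t + 2) (t + 1) u)) w) +
        Real.log ((D.P h t).m (fun u => (XL v (t + 1) l u, NP D v (t + 2) (t + 1) u)) w))) := by
  unfold B2 Pc
  rw [log_DJ_sum (D.P h t) (XL v (t + 2) k) (XL v (t + 2) l) (NP D v (t + 2) (t + 1)) hw,
    log_DJ_sum (D.P h t) (XL v (t + 1) k) (XL v (t + 1) l) (NP D v (t + 2) (t + 1)) hw]
  ring

theorem YM_hi (t : ℕ) {j : ℕ} (hj : j ≤ 4) (i : Fin 3) :
    YM (φ := φ) v (5 * t + j) (5 * t + 5) i = XM v t i := by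
  funext l u
  unfold YM XM
  rw [XLq_lo v t hj l, XLq_hi v t l]

theorem YM_lo (t : ℕ) {j j' : ℕ} (hj : j ≤ 4) (hj' : j' ≤ 4) (i : Fin 3) :
    YM (φ := φ) v (5 * t + j) (5 * t + j') i = XL v (t + 1) := by
  funext l u
  unfold YM
  rw [XLq_lo v t hj l, XLq_lo v t hj' l]
  split_ifs <;> rfl

variable {i k l : Fin 3} (hv : Codes D v) (hik : i ≠ k) (hil : i ≠ l) (hkl : k ≠ l) {t : ℕ} {w : Pt (Fin 3) X β φ}
  (hw : (D.P h t).p w ≠ 0)

include hv hik hil hkl hw

/-- **JOINT STEP** (`5 t + 1 -> 5 t + 5`) -/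
theorem log_tS1 : Real.log (tS h v 1 t i w) = Real.log (sv h v t i w) +
    (A1 h (v := v) t w + A2 h (v := v) t i w) - (B1 h (v := v) t k l w + B2 h (v := v) t k l w) := by
  have e : Real.log (tS h v 1 t i w) = _ := log_tau hv (D.P h t) (show 5 * t + 1 ≤ 5 * t + 5 by omega) hik hil hkl hw
  rw [YM_hi t (by omega : 1 ≤ 4) i, XLq_lo v t (by omega : 1 ≤ 4), XLq_lo v t (by omega : 1 ≤ 4), XLq_lo v t (by omega : 1 ≤ 4),
    XLq_lo v t (by omega : 1 ≤ 4), XLq_lo v t (by omega : 1 ≤ 4), XLq_hi v t, XLq_hi v t, CKB.NPq_one t,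
    NPq_hi D v t (by omega : 2 ≤ 5) (le_refl 5)] at e
  rw [e, log_sv h i hw, A1_m h hik hil hkl hw, A2_m h hik hil hkl hw, B1_m h k l hw, B2_m h k l hw]
  ring

/-- **HEAVY PUBLIC STEP** (`5 t + 1 -> 5 t + 2`) -/
theorem log_tS2 : Real.log (tS h v 2 t i w) = Real.log (sv h v t i w) + A1 h (v := v) t w - B1 h (v := v) t k l w := by
  have e : Real.log (tS h v 2 t i w) = _ := log_tau hv (D.P h t) (show 5 * t + 1 ≤ 5 * t + 2 by omega) hik hil hkl hw
  rw [YM_lo t (by omega : 1 ≤ 4) (by omega : 2 ≤ 4) i] at e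
  simp only [XLq_lo v t (by omega : 1 ≤ 4), XLq_lo v t (by omega : 2 ≤ 4)] at e
  rw [CKB.NPq_one t, NPq_hi D v t (le_refl 2) (by omega : 2 ≤ 5)] at e
  rw [e, log_sv h i hw, A1_m h hik hil hkl hw, B1_m h k l hw]
  ring

/-- **JOINT PRIVATE STEP** (`5 t + 4 -> 5 t + 5`) -/
theorem log_tS5 : Real.log (tS h v 5 t i w) = A2 h (v := v) t i w - B2 h (v := v) t k l w := by
  have e : Real.log (tS h v 5 t i w) = _ := log_tau hv (D.P h t) (show 5 * t + 4 ≤ 5 * t + 5 by omega) hik hil hkl hw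
  rw [YM_hi t (le_refl 4) i] at e
  simp only [XLq_lo v t (le_refl 4), XLq_hi v t] at e
  rw [NPq_hi D v t (by omega : 2 ≤ 4) (by omega : 4 ≤ 5),
    NPq_hi D v t (by omega : 2 ≤ 5) (le_refl 5)] at e
  rw [e, A2_m h hik hil hkl hw, B2_m h k l hw]
  ring

end st

/-- if the difference of two numbers is large then one of four terms is large -/
theorem big4 {c x a1 a2 b1 b2 : ℝ} (he : x = (a1 + a2) - (b1 + b2)) (hx : 4 * c ≤ |x|) :
    c ≤ |a1| ∨ c ≤ |a2| ∨ c ≤ |b1| ∨ c ≤ |b2| := by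
  by_contra hh
  push Not at hh
  obtain ⟨h1, h2, h3, h4⟩ := hh
  have k : |x| ≤ |a1| + |a2| + (|b1| + |b2|) := by
    rw [he]
    exact (abs_sub _ _).trans (add_le_add (abs_add_le _ _) (abs_add_le _ _))
  linarith

section run

variable {X β γ φ : Type} [Fintype X] [Fintype β] [Fintype φ] [Nonempty X] [Nonempty β]
variable {D : HD (Fin 3) X β γ φ} {al : ℝ} {h : D.Thick al}
  {v : ℕ → Finset (Fin 3) → X → (Fin 3 → β) → Pt (Fin 3) X β φ}
variable {dg : ℕ → X → ℝ} {prr : ℕ → Fin 3 → φ → φ} {T : ℕ} {Lam : ℝ}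
variable (H : D.Hyp dg prr al T Lam) {n N1 : ℝ} (R : Run h (pr3 (Fin 3) n N1) (SS1 (Fin 3)) (AdmDep D) v) (p : AP)
  {K0 B eta τ L : ℝ} (hn : NumV n N1 K0 B eta τ L p) {Pd PR : ℝ}
  (hPd : (D.P h T).Pr (fun w => ¬ Ar h v p (2 * T) w) ≤ Pd)
  (hPR : ∑ r ∈ range (2 * T), (Pr' h r).Pr (fun w => Rgr h v p B eta r w) ≤ PR)
  {i k l : Fin 3} (hik : i ≠ k) (hil : i ≠ l) (hkl : k ≠ l) {c : ℝ} (hc : 0 < c) (hc1 : c ≤ 1)

include H R hn hPd hPR hik hil hkl hc hc1

/-- **ROW XOR, JOINT STEP** -/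
theorem xor1 : ∑ t ∈ range T, (D.P h t).Pr (fun w => aV' h v p t w ∧
    4 * c ≤ |Real.log (tS h v 1 t i w) - Real.log (sv h v t i w)|) ≤
    16 / c ^ 2 * errV n N1 Lam K0 B eta τ p Pd PR + 2 * PR := by
  have a1 := A1_sum H R p hn hPd hPR hc hc1
  have a2 := A2_sum H R p hn hPd hPR i hc hc1
  have b1 := B1_sum H R p hn hPd hPR hkl hik.symm hil.symm hc hc1
  have b2 := B2_sum H R p hn hPd hPR hkl hik.symm hil.symm hc hc1
  have key : ∑ t ∈ range T, (D.P h t).Pr (fun w => aV' h v p t w ∧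
      4 * c ≤ |Real.log (tS h v 1 t i w) - Real.log (sv h v t i w)|) ≤
      ∑ t ∈ range T, ((D.P h t).Pr (fun w => aV' h v p t w ∧ c ≤ |A1 h (v := v) t w|) +
        (D.P h t).Pr (fun w => aV' h v p t w ∧ c ≤ |A2 h (v := v) t i w|) +
        ((D.P h t).Pr (fun w => aJ' h v p k l t w ∧ c ≤ |B1 h (v := v) t k l w|) +
        (D.P h t).Pr (fun w => aJ' h v p k l t w ∧ c ≤ |B2 h (v := v) t k l w|))) := by
    refine Finset.sum_le_sum fun t _ => ?_
    have e1 : (D.P h t).Pr (fun w => aV' h v p t w ∧ 4 * c ≤ |Real.log (tS h v 1 t i w) - Real.log (sv h v t i w)|) ≤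
        (D.P h t).Pr (fun w => ((aV' h v p t w ∧ c ≤ |A1 h (v := v) t w|) ∨ (aV' h v p t w ∧ c ≤ |A2 h (v := v) t i w|)) ∨
          ((aJ' h v p k l t w ∧ c ≤ |B1 h (v := v) t k l w|) ∨ (aJ' h v p k l t w ∧ c ≤ |B2 h (v := v) t k l w|))) := by
      refine (D.P h t).Pr_mono fun w hw hh => ?_
      have hJ : aJ' h v p k l t w := ⟨hh.1.1, hh.1.2 k, hh.1.2 l⟩
      have e := log_tS1 h R.codes hik hil hkl hw
      rcases big4 (x := Real.log (tS h v 1 t i w) - Real.log (sv h v t i w)) (a1 := A1 h (v := v) t w)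
        (a2 := A2 h (v := v) t i w) (b1 := B1 h (v := v) t k l w) (b2 := B2 h (v := v) t k l w)
        (by rw [e]; ring) hh.2 with h1 | h1 | h1 | h1
      · exact Or.inl (Or.inl ⟨hh.1, h1⟩)
      · exact Or.inl (Or.inr ⟨hh.1, h1⟩)
      · exact Or.inr (Or.inl ⟨hJ, h1⟩)
      · exact Or.inr (Or.inr ⟨hJ, h1⟩)
    exact e1.trans ((FP.Pr_or_le _ _ _).trans (add_le_add (FP.Pr_or_le _ _ _) (FP.Pr_or_le _ _ _)))
  refine key.trans ?_
  rw [Finset.sum_add_distrib, Finset.sum_add_distrib, Finset.sum_add_distrib]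
  have e : 16 / c ^ 2 * errV n N1 Lam K0 B eta τ p Pd PR + 2 * PR =
    (4 / c ^ 2 * errV n N1 Lam K0 B eta τ p Pd PR + PR) + 4 / c ^ 2 * errV n N1 Lam K0 B eta τ p Pd PR +
    ((4 / c ^ 2 * errV n N1 Lam K0 B eta τ p Pd PR + PR) + 4 / c ^ 2 * errV n N1 Lam K0 B eta τ p Pd PR) := by ring
  rw [e]
  exact add_le_add (add_le_add a1 a2) (add_le_add b1 b2)

/-- **ROW XOR, HEAVY PUBLIC STEP** -/
theorem xor2 : ∑ t ∈ range T, (D.P h t).Pr (fun w => aV' h v p t w ∧
    2 * c ≤ |Real.log (tS h v 2 t i w) - Real.log (sv h v t i w)|) ≤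
    8 / c ^ 2 * errV n N1 Lam K0 B eta τ p Pd PR + 2 * PR := by
  have a1 := A1_sum H R p hn hPd hPR hc hc1
  have b1 := B1_sum H R p hn hPd hPR hkl hik.symm hil.symm hc hc1
  have key : ∑ t ∈ range T, (D.P h t).Pr (fun w => aV' h v p t w ∧
      2 * c ≤ |Real.log (tS h v 2 t i w) - Real.log (sv h v t i w)|) ≤
      ∑ t ∈ range T, ((D.P h t).Pr (fun w => aV' h v p t w ∧ c ≤ |A1 h (v := v) t w|) +
        (D.P h t).Pr (fun w => aJ' h v p k l t w ∧ c ≤ |B1 h (v := v) t k l w|)) := by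
    refine Finset.sum_le_sum fun t _ => ?_
    have e1 : (D.P h t).Pr (fun w => aV' h v p t w ∧ 2 * c ≤ |Real.log (tS h v 2 t i w) - Real.log (sv h v t i w)|) ≤
        (D.P h t).Pr (fun w => (aV' h v p t w ∧ c ≤ |A1 h (v := v) t w|) ∨
          (aJ' h v p k l t w ∧ c ≤ |B1 h (v := v) t k l w|)) := by
      refine (D.P h t).Pr_mono fun w hw hh => ?_
      have hJ : aJ' h v p k l t w := ⟨hh.1.1, hh.1.2 k, hh.1.2 l⟩
      have e := log_tS2 h R.codes hik hil hkl hw
      by_contra hno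
      push Not at hno
      have h1 := hno.1 hh.1
      have h2 := hno.2 hJ
      have h3 : |Real.log (tS h v 2 t i w) - Real.log (sv h v t i w)| ≤ |A1 h (v := v) t w| + |B1 h (v := v) t k l w| := by
        rw [e, show Real.log (sv h v t i w) + A1 h (v := v) t w - B1 h (v := v) t k l w - Real.log (sv h v t i w) =
          A1 h (v := v) t w - B1 h (v := v) t k l w by ring]
        exact abs_sub _ _
      linarith [hh.2]
    exact e1.trans (FP.Pr_or_le _ _ _)
  refine key.trans ?_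
  rw [Finset.sum_add_distrib]
  have e : 8 / c ^ 2 * errV n N1 Lam K0 B eta τ p Pd PR + 2 * PR =
    (4 / c ^ 2 * errV n N1 Lam K0 B eta τ p Pd PR + PR) + (4 / c ^ 2 * errV n N1 Lam K0 B eta τ p Pd PR + PR) := by ring
  rw [e]
  exact add_le_add a1 b1

/-- **ROW XOR, JOINT PRIVATE STEP** : no strong thin points -/
theorem xor5 : ∑ t ∈ range T, (D.P h t).Pr (fun w => aV' h v p t w ∧ 2 * c ≤ |Real.log (tS h v 5 t i w)|) ≤
    8 / c ^ 2 * errV n N1 Lam K0 B eta τ p Pd PR := by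
  have a2 := A2_sum H R p hn hPd hPR i hc hc1
  have b2 := B2_sum H R p hn hPd hPR hkl hik.symm hil.symm hc hc1
  have key : ∑ t ∈ range T, (D.P h t).Pr (fun w => aV' h v p t w ∧ 2 * c ≤ |Real.log (tS h v 5 t i w)|) ≤
      ∑ t ∈ range T, ((D.P h t).Pr (fun w => aV' h v p t w ∧ c ≤ |A2 h (v := v) t i w|) +
        (D.P h t).Pr (fun w => aJ' h v p k l t w ∧ c ≤ |B2 h (v := v) t k l w|)) := by
    refine Finset.sum_le_sum fun t _ => ?_
    have e1 : (D.P h t).Pr (fun w => aV' h v p t w ∧ 2 * c ≤ |Real.log (tS h v 5 t i w)|) ≤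
        (D.P h t).Pr (fun w => (aV' h v p t w ∧ c ≤ |A2 h (v := v) t i w|) ∨
          (aJ' h v p k l t w ∧ c ≤ |B2 h (v := v) t k l w|)) := by
      refine (D.P h t).Pr_mono fun w hw hh => ?_
      have hJ : aJ' h v p k l t w := ⟨hh.1.1, hh.1.2 k, hh.1.2 l⟩
      have e := log_tS5 h R.codes hik hil hkl hw
      by_contra hno
      push Not at hno
      have h1 := hno.1 hh.1
      have h2 := hno.2 hJ
      have h3 : |Real.log (tS h v 5 t i w)| ≤ |A2 h (v := v) t i w| + |B2 h (v := v) t k l w| := by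
        rw [e]
        exact abs_sub _ _
      linarith [hh.2]
    exact e1.trans (FP.Pr_or_le _ _ _)
  refine key.trans ?_
  rw [Finset.sum_add_distrib]
  have e : 8 / c ^ 2 * errV n N1 Lam K0 B eta τ p Pd PR =
    4 / c ^ 2 * errV n N1 Lam K0 B eta τ p Pd PR + 4 / c ^ 2 * errV n N1 Lam K0 B eta τ p Pd PR := by ring
  rw [e]
  exact add_le_add a2 b2

end run

end

end Pool.Agent.GMH.V3
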