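import Pool.Agent.GMH.XorZ
import Pool.Agent.GMH.CtxN
import Pool.Agent.GMH.TD15F

/-!
# GMH/XorE: row XOR for the runs `Ctx` (helper13)

`errV_j` : the error of the thin level is at most `x^(-j)` for `A` large after `j` (after `errV_small` of helper91).
`xor_all` : for every `j` there is `A0` such that for `A >= A0` and all runs with large `c0`, the sum over the run of the mass
of the alive points at which `log tS` and `log sv` differ by at least `x^(-j)` is at most `x^(-j)`, for the digit, the joint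
step, the heavy public step, and `|log tS 5| >= x^(-j)` for the joint private step.
-/

set_option autoImplicit false
set_option linter.unusedSectionVars false

namespace Pool.Agent.GMH.V3

open Finset Pool.Agent.PWZ Pool.Agent.M3 Pool.Agent.GM Pool.Agent.GM.Harm Pool.Agent.GMH Pool.Agent.GMH.NZ

variable {Lam : ℝ} {A c0 : ℕ}

/-- **the error of the thin level, any exponent** -/
theorem errV_j {j : ℕ} (hL : 2 ≤ Lam) (hA : 80 ≤ A) (hj : j + 40 ≤ A) (hjc : 2 * j + 60 ≤ c0 + A) {Pd PR : ℝ} (hPd0 : 0 ≤ Pd)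
    (hPd : Pd ≤ (pw Lam (c0 + A))⁻¹) (hPR : PR ≤ (pw Lam (cXF A c0 + A))⁻¹) :
    errV (pw Lam c0) (pw Lam (c1F A c0)) Lam (2 * ((c0 + A : ℕ) * (2 * Lam))) 32 (pw Lam (c0 + A))⁻¹
      (pw Lam (2 * (c0 + A)))⁻¹ (apF Lam A c0) Pd PR ≤ (pw Lam j)⁻¹ := by
  have hx : (4 : ℝ) ≤ 2 * Lam := by linarith
  have hx0 : (0 : ℝ) < 2 * Lam := by linarith
  have hL0 : (0 : ℝ) < Lam := by linarith
  have h1 := c1_big (c0 := c0) hA
  have pz : ∀ c : ℕ, pw Lam c = (2 * Lam) ^ (c : ℤ) := fun c => by unfold pw; rw [zpow_natCast]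
  have ipz : ∀ c : ℕ, (pw Lam c)⁻¹ = (2 * Lam) ^ (-(c : ℤ)) := fun c => by rw [pz, zpow_neg]
  have hXe : (apF Lam A c0).X0 = (2 * Lam) ^ ((cXF A c0 : ℕ) : ℤ) := pz _
  have hee : (apF Lam A c0).e0 = (2 * Lam) ^ (-((ceF A c0 : ℕ) : ℤ)) := ipz _
  have hde : (apF Lam A c0).dl = (2 * Lam) ^ (-((4 * c1F A c0 : ℕ) : ℤ)) := ipz _
  have hLx : Lam ≤ (2 * Lam) ^ (1 : ℤ) := by rw [zpow_one]; linarith
  rw [ipz] at hPd hPR
  rw [ipz]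
  unfold errV
  rw [hXe, hee, hde, ipz, ipz, pz, pz]
  have P : ∀ a : ℤ, 0 < (2 * Lam) ^ a := fun a => Fn.zpos hx a
  -- the terms
  have e1 : 18 * (2 * Lam) ^ (c0 : ℤ) * Lam / (2 * Lam) ^ ((c1F A c0 : ℕ) : ℤ) ≤ (2 * Lam) ^ (2 * (-((j : ℤ) + 5))) := by
    have q1 : 18 * (2 * Lam) ^ (c0 : ℤ) * Lam ≤ (2 * Lam) ^ (((3 : ℤ) + c0) + 1) :=
      Fn.mul2 hx hL0.le (Fn.mul2 hx (P _).le (by simpa using Fn.cst hx 3 (c := 18) (by norm_num)) le_rfl) hLx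
    rw [div_eq_mul_inv, ← zpow_neg]
    refine (Fn.mul2 hx (P _).le q1 (le_refl ((2 * Lam) ^ (-((c1F A c0 : ℕ) : ℤ))))).trans (Fn.zle hx ?_)
    omega
  have e2 : 4 * Real.sqrt (18 * (2 * Lam) ^ (c0 : ℤ) * Lam / (2 * Lam) ^ ((c1F A c0 : ℕ) : ℤ)) ≤
      (2 * Lam) ^ ((1 : ℤ) + (-((j : ℤ) + 5))) :=
    Fn.mul2 hx (Real.sqrt_nonneg _) (by simpa using Fn.cst hx 1 (c := 4) (by norm_num)) (Fn.sqrt_le hx e1)
  have e3 : (400 * ((2 * (((c0 + A : ℕ) : ℝ) * (2 * Lam))) + 1) + 192) * Pd ≤ (2 * Lam) ^ (-((j : ℤ) + 2)) := by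
    have q1 := Fn.nat hx (c0 + A)
    have q2 : (2 : ℝ) * (((c0 + A : ℕ) : ℝ) * (2 * Lam)) ≤ (2 * Lam) ^ ((1 : ℤ) + ((((c0 + A : ℕ) : ℤ) / 2 + 1) + 1)) := by
      refine Fn.mul2 hx (by positivity) (by simpa using Fn.cst hx 1 (c := 2) (by norm_num)) ?_
      exact Fn.mul2 hx hx0.le q1 (by rw [zpow_one])
    have q3 : (1 : ℝ) ≤ (2 * Lam) ^ ((1 : ℤ) + ((((c0 + A : ℕ) : ℤ) / 2 + 1) + 1)) :=
      (Fn.one hx).trans (Fn.zle hx (by positivity))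
    have q4 := Fn.add2 hx q2 q3
    have q5 := Fn.mul2 hx (u := 400) (by positivity) (Fn.cst hx 5 (c := 400) (by norm_num)) q4
    have q6 : (192 : ℝ) ≤ (2 * Lam) ^ (((5 : ℕ) : ℤ) + ((1 : ℤ) + ((((c0 + A : ℕ) : ℤ) / 2 + 1) + 1) + 1)) :=
      (by simpa using Fn.cst hx 4 (c := 192) (by norm_num) : (192 : ℝ) ≤ (2 * Lam) ^ (4 : ℤ)).trans
        (Fn.zle hx (by omega))
    refine (Fn.mul2 hx hPd0 (Fn.add2 hx q5 q6) hPd).trans (Fn.zle hx ?_)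
    push_cast
    omega
  have e4 : (1000 * 32 ^ 3 * (Real.sqrt ((2 * Lam) ^ (-((2 * (c0 + A) : ℕ) : ℤ))) + (2 * Lam) ^ (-((c0 + A : ℕ) : ℤ))) +
      4 * (2 * Lam) ^ (-((ceF A c0 : ℕ) : ℤ)) + 100 * Real.exp (-(2 * (((c0 + A : ℕ) : ℝ) * (2 * Lam)) / 2)) +
        200 / (2 * Lam) ^ ((c1F A c0 : ℕ) : ℤ)) * (9 * (2 * Lam) ^ (c0 : ℤ) * Lam) ≤ (2 * Lam) ^ (-((j : ℤ) + 2)) := by
    have a1 : Real.sqrt ((2 * Lam) ^ (-((2 * (c0 + A) : ℕ) : ℤ))) ≤ (2 * Lam) ^ (-((c0 + A : ℕ) : ℤ)) := by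
      refine Fn.sqrt_le hx (le_of_eq ?_)
      congr 1
      push_cast
      ring
    have a2 := Fn.mul2 hx (u := 1000 * 32 ^ 3) (by positivity)
      (Fn.cst hx 13 (c := 1000 * 32 ^ 3) (by norm_num)) (Fn.add2 hx a1 le_rfl)
    have a3 : 4 * (2 * Lam) ^ (-((ceF A c0 : ℕ) : ℤ)) ≤ (2 * Lam) ^ (((13 : ℕ) : ℤ) + (-((c0 + A : ℕ) : ℤ) + 1)) := by
      refine (Fn.mul2 hx (P _).le (Fn.cst hx 1 (c := 4) (by norm_num))
        (le_refl ((2 * Lam) ^ (-((ceF A c0 : ℕ) : ℤ))))).trans (Fn.zle hx ?_)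
      unfold ceF
      push_cast
      omega
    have a4 : 100 * Real.exp (-(2 * (((c0 + A : ℕ) : ℝ) * (2 * Lam)) / 2)) ≤
        (2 * Lam) ^ (((13 : ℕ) : ℤ) + (-((c0 + A : ℕ) : ℤ) + 1) + 1) := by
      have b1 := Fn.expneg hx (c0 + A) (y := 2 * (((c0 + A : ℕ) : ℝ) * (2 * Lam)) / 2) (by linarith)
      refine (Fn.mul2 hx (Real.exp_pos _).le (Fn.cst hx 4 (c := 100) (by norm_num)) b1).trans
        (Fn.zle hx ?_)
      omega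
    have a5 : 200 / (2 * Lam) ^ ((c1F A c0 : ℕ) : ℤ) ≤ (2 * Lam) ^ (((13 : ℕ) : ℤ) + (-((c0 + A : ℕ) : ℤ) + 1) + 1 + 1) := by
      rw [div_eq_mul_inv, ← zpow_neg]
      refine (Fn.mul2 hx (P _).le (Fn.cst hx 4 (c := 200) (by norm_num))
        (le_refl ((2 * Lam) ^ (-((c1F A c0 : ℕ) : ℤ))))).trans (Fn.zle hx ?_)
      push_cast
      omega
    have a6 := Fn.add2 hx (Fn.add2 hx (Fn.add2 hx a2 a3) a4) a5
    have a7 : 9 * (2 * Lam) ^ (c0 : ℤ) * Lam ≤ (2 * Lam) ^ (((2 : ℤ) + c0) + 1) :=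
      Fn.mul2 hx hL0.le (Fn.mul2 hx (P _).le (by simpa using Fn.cst hx 2 (c := 9) (by norm_num)) le_rfl) hLx
    refine (Fn.mul2 hx (by positivity) a6 a7).trans (Fn.zle hx ?_)
    push_cast
    omega
  have e5 : 800 * Real.sqrt ((2 * Lam) ^ (-((4 * c1F A c0 : ℕ) : ℤ))) *
      ((2 * Lam) ^ (c0 : ℤ) * (2 * Lam) ^ ((c1F A c0 : ℕ) : ℤ) * Lam) ≤ (2 * Lam) ^ (-((j : ℤ) + 2)) := by
    have a1 : Real.sqrt ((2 * Lam) ^ (-((4 * c1F A c0 : ℕ) : ℤ))) ≤ (2 * Lam) ^ (-2 * ((c1F A c0 : ℕ) : ℤ)) := by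
      refine Fn.sqrt_le hx (le_of_eq ?_)
      congr 1
      push_cast
      ring
    have a2 := Fn.mul2 hx (u := 800) (Real.sqrt_nonneg _) (Fn.cst hx 5 (c := 800) (by norm_num)) a1
    have a3 : (2 * Lam) ^ (c0 : ℤ) * (2 * Lam) ^ ((c1F A c0 : ℕ) : ℤ) * Lam ≤
        (2 * Lam) ^ (((c0 : ℤ) + ((c1F A c0 : ℕ) : ℤ)) + 1) :=
      Fn.mul2 hx hL0.le (Fn.mul2 hx (P _).le le_rfl le_rfl) hLx
    refine (Fn.mul2 hx (by positivity) a2 a3).trans (Fn.zle hx ?_)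
    omega
  have e6 : 2 * (2 * Lam) ^ ((cXF A c0 : ℕ) : ℤ) * PR ≤ (2 * Lam) ^ (-((j : ℤ) + 2)) := by
    have a1 : 2 * (2 * Lam) ^ ((cXF A c0 : ℕ) : ℤ) ≤ (2 * Lam) ^ ((1 : ℤ) + ((cXF A c0 : ℕ) : ℤ)) :=
      Fn.mul2 hx (P _).le (by simpa using Fn.cst hx 1 (c := 2) (by norm_num)) le_rfl
    have a2 : 2 * (2 * Lam) ^ ((cXF A c0 : ℕ) : ℤ) * PR ≤
        2 * (2 * Lam) ^ ((cXF A c0 : ℕ) : ℤ) * (2 * Lam) ^ (-((cXF A c0 + A : ℕ) : ℤ)) :=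
      mul_le_mul_of_nonneg_left hPR (by positivity)
    refine a2.trans ((Fn.mul2 hx (P _).le a1 le_rfl).trans (Fn.zle hx ?_))
    push_cast
    omega
  -- the sum
  have s1 : (2 * Lam) ^ (2 * (-((j : ℤ) + 5))) ≤ (2 * Lam) ^ (-((j : ℤ) + 4)) := Fn.zle hx (by omega)
  have s2 : (2 * Lam) ^ ((1 : ℤ) + (-((j : ℤ) + 5))) = (2 * Lam) ^ (-((j : ℤ) + 4)) := by
    rw [show (1 : ℤ) + (-((j : ℤ) + 5)) = -((j : ℤ) + 4) by ring]
  rw [s2] at e2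
  have g1 : (2 * Lam) ^ (-((j : ℤ) + 4)) ≤ (2 * Lam) ^ (-((j : ℤ) + 2)) := Fn.zle hx (by omega)
  have g2 : (16 : ℝ) * (2 * Lam) ^ (-((j : ℤ) + 2)) ≤ (2 * Lam) ^ (-(j : ℤ)) := by
    refine (Fn.mul2 hx (P _).le (Fn.cst hx 2 (c := 16) (by norm_num)) (le_refl _)).trans (Fn.zle hx ?_)
    push_cast
    omega
  have g3 := P (-((j : ℤ) + 2))
  refine le_trans ?_ g2
  have t1 := e1.trans (s1.trans g1)
  have t2 := e2.trans g1
  have t3 := add_le_add (add_le_add (add_le_add (add_le_add (add_le_add t1 t2) e3) e4) e5) e6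
  refine t3.trans ?_
  linarith



end Pool.Agent.GMH.V3

namespace Pool.Agent.GMH.CX

open Finset Pool.Agent.PWZ Pool.Agent.M3 Pool.Agent.GM Pool.Agent.GM.Harm Pool.Agent.GMH Pool.Agent.GMH.NZ
open Pool.Agent.GMH.V3 Pool.Agent.GMH.TP Pool.Agent.GMH.TD Pool.Agent.GMH.Dy

noncomputable section

theorem allC_mono' {A : ℕ} {P Q : Ctx → Prop} (hP : AllC A P) (h : ∀ C, C.A = A → P C → Q C) : AllC A Q := by
  obtain ⟨a, ha⟩ := hP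
  exact ⟨a, fun C hC hc => h C hC (ha C hC hc)⟩

/-- the thin dynamics for the runs `Ctx` -/
theorem rgr_all : ∃ A0 : ℕ, 80 ≤ A0 ∧ ∀ A ≥ A0, AllC A (fun C =>
    ∑ r ∈ range (2 * C.T), (Pr' C.h r).Pr (fun w => Rgr C.h C.v C.p 32 (pw C.Lam (C.c0 + C.A))⁻¹ r w) ≤
      (pw C.Lam (cXF C.A C.c0 + C.A))⁻¹) := by
  obtain ⟨C1, hV⟩ := thinDyn32
  refine ⟨80 + 20 * C1, by omega, fun A hA => ⟨C1, fun C hCA hc => ?_⟩⟩
  have hA80 : 80 ≤ A := by omega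
  have hAC1 : 20 * C1 ≤ A := by omega
  have hc1 : C1 * (C.c0 + cXF C.A C.c0 + ceF C.A C.c0 + (C.c0 + C.A) + (cXF C.A C.c0 + C.A) + 1) ≤ c1F C.A C.c0 := by
    rw [hCA]
    have e1 : C.c0 + cXF A C.c0 + ceF A C.c0 + (C.c0 + A) + (cXF A C.c0 + A) + 1 = 9 * C.c0 + 9 * A + 1 := by
      unfold cXF ceF; ring
    rw [e1]
    unfold c1F
    have e2 : 20 * C1 * A ≤ A * A := Nat.mul_le_mul_right A hAC1
    have e3 : 80 * A ≤ A * A := Nat.mul_le_mul_right A hA80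
    have e5 : 9 * C1 * C.c0 ≤ A * A * C.c0 := Nat.mul_le_mul_right C.c0 (by nlinarith)
    have e6 : C1 * (9 * A + 1) ≤ A * A := by
      have : C1 ≤ C1 * A := Nat.le_mul_of_pos_right C1 (by omega)
      nlinarith
    nlinarith
  exact hV C.c0 (cXF C.A C.c0) (ceF C.A C.c0) (C.c0 + C.A) (cXF C.A C.c0 + C.A) (c1F C.A C.c0) hc (by unfold ceF; omega)
    (by unfold ceF cXF; omega) (by omega) (by omega) hc1 C.X C.β C.γ C.φ C.D C.al C.h C.dg C.prr C.T C.Lam C.H C.hL C.v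
    C.R C.p rfl rfl

/-- the numbers of `NumV` for `Ctx` -/
abbrev K0C (C : Ctx) : ℝ := 2 * ((C.c0 + C.A : ℕ) * (2 * C.Lam))
abbrev etaC (C : Ctx) : ℝ := (pw C.Lam (C.c0 + C.A))⁻¹
abbrev tauC (C : Ctx) : ℝ := (pw C.Lam (2 * (C.c0 + C.A)))⁻¹
abbrev PRC (C : Ctx) : ℝ := (pw C.Lam (cXF C.A C.c0 + C.A))⁻¹
abbrev errC (C : Ctx) : ℝ := errV C.n C.N1 C.Lam (K0C C) 32 (etaC C) (tauC C) C.p (pw C.Lam (C.c0 + C.A))⁻¹ (PRC C)

theorem numC (C : Ctx) (hA : 80 ≤ C.A) : NumV C.n C.N1 (K0C C) 32 (etaC C) (tauC C)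
    (pw C.Lam (cXF C.A C.c0) + (4 * c1F C.A C.c0 : ℕ) * (2 * C.Lam)) C.p := numV C.hL hA

/-- the error of the thin level for `Ctx` -/
theorem err_all (j : ℕ) : ∃ A0 : ℕ, 80 ≤ A0 ∧ ∀ A ≥ A0, AllC A (fun C => errC C ≤ (pw C.Lam j)⁻¹ ∧ PRC C ≤ (pw C.Lam j)⁻¹ ∧
    ∑ r ∈ range (2 * C.T), (Pr' C.h r).Pr (fun w => Rgr C.h C.v C.p 32 (etaC C) r w) ≤ PRC C) := by
  obtain ⟨A1, h80, hA1⟩ := rgr_all
  refine ⟨A1 + j + 40, by omega, fun A hA => ?_⟩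
  obtain ⟨c0m, hc⟩ := hA1 A (by omega)
  refine ⟨c0m + 2 * j + 60, fun C hCA hc0 => ⟨?_, ?_, hc C hCA (by omega)⟩⟩
  · exact errV_j (A := C.A) (c0 := C.c0) C.hL (by omega) (by omega) (by omega) (inv_nonneg.2 (zero_le_one.trans (pw_one C.hL _)))
      le_rfl le_rfl
  · have hx : (4 : ℝ) ≤ 2 * C.Lam := by have := C.hL; linarith
    have ipz : ∀ c : ℕ, (pw C.Lam c)⁻¹ = (2 * C.Lam) ^ (-(c : ℤ)) := fun c => by
      unfold pw; rw [zpow_neg, zpow_natCast]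
    show (pw C.Lam (cXF C.A C.c0 + C.A))⁻¹ ≤ _
    rw [ipz, ipz]
    refine Fn.zle hx ?_
    push_cast
    omega

/-- **ROW XOR** for the runs `Ctx` -/
theorem xor_all (j : ℕ) : ∃ A0 : ℕ, 80 ≤ A0 ∧ ∀ A ≥ A0, AllC A (fun C => ∀ i : Fin 3,
    ∑ t ∈ range C.T, (C.D.P C.h t).Pr (fun w => V3.aV C.h C.v C.p t w ∧
      (pw C.Lam j)⁻¹ ≤ |Real.log (tS C.h C.v 0 t i w) - Real.log (sv0 C.h C.v t i w)|) ≤ (pw C.Lam j)⁻¹ ∧
    ∑ t ∈ range C.T, (C.D.P C.h t).Pr (fun w => V3.aV' C.h C.v C.p t w ∧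
      (pw C.Lam j)⁻¹ ≤ |Real.log (tS C.h C.v 1 t i w) - Real.log (sv C.h C.v t i w)|) ≤ (pw C.Lam j)⁻¹ ∧
    ∑ t ∈ range C.T, (C.D.P C.h t).Pr (fun w => V3.aV' C.h C.v C.p t w ∧
      (pw C.Lam j)⁻¹ ≤ |Real.log (tS C.h C.v 2 t i w) - Real.log (sv C.h C.v t i w)|) ≤ (pw C.Lam j)⁻¹ ∧
    ∑ t ∈ range C.T, (C.D.P C.h t).Pr (fun w => V3.aV' C.h C.v C.p t w ∧
      (pw C.Lam j)⁻¹ ≤ |Real.log (tS C.h C.v 5 t i w)|) ≤ (pw C.Lam j)⁻¹) := by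
  obtain ⟨A1, h80, hA1⟩ := err_all (3 * j + 10)
  refine ⟨A1, h80, fun A hA => allC_mono' (hA1 A hA) fun C hCA ⟨h1, h2, h3⟩ i => ?_⟩
  have hx : (4 : ℝ) ≤ 2 * C.Lam := by have := C.hL; linarith
  have ipz : ∀ c : ℕ, (pw C.Lam c)⁻¹ = (2 * C.Lam) ^ (-(c : ℤ)) := fun c => by
    unfold pw; rw [zpow_neg, zpow_natCast]
  set y : ℝ := (pw C.Lam j)⁻¹ with hy
  have hy0 : 0 < y := inv_pos.2 (zero_lt_one.trans_le (pw_one C.hL _))
  have hy1 : y ≤ 1 := inv_le_one_of_one_le₀ (pw_one C.hL _)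
  have hn := numC C (by omega)
  obtain ⟨k, l, hik, hil, hkl⟩ : ∃ k l : Fin 3, i ≠ k ∧ i ≠ l ∧ k ≠ l := by
    have key : ∀ i : Fin 3, ∃ k l : Fin 3, i ≠ k ∧ i ≠ l ∧ k ≠ l := by decide
    exact key i
  have hc : 0 < y / 4 := by positivity
  have hc1 : y / 4 ≤ 1 := by linarith
  have hc2 : 0 < y / 2 := by positivity
  have hc3 : y / 2 ≤ 1 := by linarith
  have num : 16 / (y / 4) ^ 2 * errC C + 2 * PRC C ≤ y := by
    have e1 : 16 / (y / 4) ^ 2 = 256 * (pw C.Lam j) ^ 2 := by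
      rw [hy]
      have : pw C.Lam j ≠ 0 := (zero_lt_one.trans_le (pw_one C.hL _)).ne'
      field_simp
      ring
    have pz : pw C.Lam j = (2 * C.Lam) ^ (j : ℤ) := by unfold pw; rw [zpow_natCast]
    have e2 : 256 * (pw C.Lam j) ^ 2 * errC C ≤ (2 * C.Lam) ^ (-((j : ℤ) + 6)) := by
      have f1 : 256 * (pw C.Lam j) ^ 2 ≤ (2 * C.Lam) ^ (((4 : ℕ) : ℤ) + ((j : ℤ) + (j : ℤ))) := by
        refine Fn.mul2 hx (by positivity) (Fn.cst hx 4 (c := 256) (by norm_num)) ?_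
        rw [pow_two, pz]
        exact Fn.mul2 hx (Fn.zpos hx _).le le_rfl le_rfl
      have f2 : 256 * (pw C.Lam j) ^ 2 * errC C ≤ 256 * (pw C.Lam j) ^ 2 * (pw C.Lam (3 * j + 10))⁻¹ :=
        mul_le_mul_of_nonneg_left h1 (by positivity)
      rw [ipz (3 * j + 10)] at f2
      refine f2.trans ((Fn.mul2 hx (Fn.zpos hx _).le f1 le_rfl).trans (Fn.zle hx ?_))
      push_cast
      omega
    have e3 : 2 * PRC C ≤ (2 * C.Lam) ^ (-((j : ℤ) + 6)) := by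
      have f2 : 2 * PRC C ≤ 2 * (pw C.Lam (3 * j + 10))⁻¹ := mul_le_mul_of_nonneg_left h2 (by norm_num)
      rw [ipz (3 * j + 10)] at f2
      refine f2.trans ((Fn.mul2 hx (Fn.zpos hx _).le (Fn.cst hx 1 (c := 2) (by norm_num)) le_rfl).trans (Fn.zle hx ?_))
      push_cast
      omega
    rw [e1, hy, ipz j]
    refine (add_le_add e2 e3).trans ?_
    have g := Fn.mul2 hx (Fn.zpos hx (-((j : ℤ) + 6))).le (Fn.cst hx 1 (c := 2) (by norm_num)) (le_refl ((2 * C.Lam) ^ (-((j : ℤ) + 6))))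
    refine (le_of_eq (by ring)).trans (g.trans (Fn.zle hx ?_))
    push_cast
    omega
  have hE0 : 0 ≤ errC C := by
    have k1 := V_psx C.H C.R C.p hn C.hd h3 0
    exact (Finset.sum_nonneg fun t _ => by
      unfold PSV
      exact add_nonneg (FP.E_nonneg _ fun w _ => mul_nonneg (ind_nonneg _) (psx_nn _))
        (FP.E_nonneg _ fun w _ => mul_nonneg (ind_nonneg _) (psx_nn _))).trans k1
  have hP0 : 0 ≤ PRC C := inv_nonneg.2 (zero_le_one.trans (pw_one C.hL _))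
  have num2 : 8 / (y / 2) ^ 2 * errC C + 2 * PRC C ≤ y := by
    refine le_trans (add_le_add (mul_le_mul_of_nonneg_right ?_ hE0) le_rfl) num
    have h4 : (0 : ℝ) < y ^ 2 := by positivity
    rw [show 8 / (y / 2) ^ 2 = 32 / y ^ 2 by field_simp; ring, show 16 / (y / 4) ^ 2 = 256 / y ^ 2 by field_simp; ring]
    exact div_le_div_of_nonneg_right (by norm_num) h4.le
  refine ⟨?_, ?_, ?_, ?_⟩
  · have k1 := xor0 C.H C.R C.p hn C.hd h3 hik hil hkl hc2 hc3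
    rw [show 2 * (y / 2) = y by ring] at k1
    exact k1.trans num2
  · have k1 := xor1 C.H C.R C.p hn C.hd h3 hik hil hkl hc hc1
    rw [show 4 * (y / 4) = y by ring] at k1
    exact k1.trans num
  · have k1 := xor2 C.H C.R C.p hn C.hd h3 hik hil hkl hc2 hc3
    rw [show 2 * (y / 2) = y by ring] at k1
    exact k1.trans num2
  · have k1 := xor5 C.H C.R C.p hn C.hd h3 hik hil hkl hc2 hc3
    rw [show 2 * (y / 2) = y by ring] at k1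
    have k2 : 8 / (y / 2) ^ 2 * errC C ≤ y := by linarith
    exact k1.trans k2

end

end Pool.Agent.GMH.CX
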