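import Pool.Agent.GMH.XorD

/-!
# GMH/XorZ: the digit step with the convex term kept (helper13)

* `level_psx`, `conGAp` : the balance bounds the sum of the convex terms of the digit step;
* `A0`, `B0` : increments of the thin potentials at the digit; `VZ_psx`, `JZ_psx` : the convex terms of the digit, of the public
  value and of the private codes together are at most `errV`;
* `A0_sum`, `B0_sum`, `sv0`, `log_tS0`, `xor0` : **the ratio of the missing thin letter at a digit is the ratio of its own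
  vertex**, up to a small mass.
-/

set_option autoImplicit false
set_option linter.unusedSectionVars false
set_option linter.unusedVariables false

namespace Pool.Agent.GMH.V3

open Finset Pool.Agent.PWZ Pool.Agent.M3 Pool.Agent.GM Pool.Agent.GM.Harm Pool.Agent.GMH Pool.Agent.GMH.NZ

section level

variable {Om : Type*} [Fintype Om] (P : FP Om) {α κ : Type*} {A : Om → κ} {D : Om → ℝ}

/-- **ONE LEVEL**, convex term -/
theorem level_psx (hD : ∀ w, P.p w ≠ 0 → D w = 1 ∨ D w = -1) {R R' g g' : Om → ℝ}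
    (fR : Fac A R) (fR' : Fac A R') (fg : Fac A g) (fg' : Fac A g') {al : Om → Prop} (fa : Fac A al)
    (hR : ∀ w, P.p w ≠ 0 → al w → 0 ≤ R w) (hR' : ∀ w, P.p w ≠ 0 → al w → 0 ≤ R' w)
    (hRD : ∀ w, P.p w ≠ 0 → al w → (D w = 1 → 0 < R w) ∧ (D w = -1 → 0 < R' w)) :
    P.E (fun w => ind (al w) * psx (Real.log (1 + D w * P.ce A D w) -
        Real.log (2 * if D w = 1 then R w else R' w) + if D w = 1 then g w else g' w)) ≤
      P.E (fun w => ind (al w) * (Real.log (1 + D w * P.ce A D w) -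
        Real.log (2 * if D w = 1 then R w else R' w) + if D w = 1 then g w else g' w)) +
        P.E (fun w => ind (al w) * (R w * Real.exp (-g w) + R' w * Real.exp (-g' w) - 1)) := by
  classical
  set b : Om → ℝ := P.ce A D with hb
  have fb : Fac A b := P.ce_fac A D
  set F1 : Om → ℝ := fun w => ind (al w) * (R w * Real.exp (-g w) / ((1 + b w) / 2)) with hF1
  set F2 : Om → ℝ := fun w => ind (al w) * (R' w * Real.exp (-g' w) / ((1 - b w) / 2)) with hF2
  have f1 : Fac A F1 := by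
    intro x y hxy
    simp only [hF1, fR x y hxy, fg x y hxy, fb x y hxy, fa x y hxy]
  have f2 : Fac A F2 := by
    intro x y hxy
    simp only [hF2, fR' x y hxy, fg' x y hxy, fb x y hxy, fa x y hxy]
  have hb1 : ∀ w, P.p w ≠ 0 → |b w| ≤ 1 := fun w hw => P.abs_ce_le_one (fun w hw => by
    rcases hD w hw with h | h <;> rw [h] <;> norm_num) A w
  have e1 : P.E (fun w => ind (al w) * Real.exp (-(Real.log (1 + D w * b w) -
        Real.log (2 * if D w = 1 then R w else R' w) + if D w = 1 then g w else g' w))) =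
      P.E (fun w => F1 w * ((1 + D w) / 2)) + P.E (fun w => F2 w * ((1 - D w) / 2)) := by
    rw [← FP.E_add]
    refine P.E_congr fun w hw => ?_
    by_cases ha : al w
    swap
    · simp only [hF1, hF2, ind_not ha, zero_mul, add_zero]
    · simp only [hF1, hF2, ind_of ha, one_mul]
      have hp := P.digit_pos hD A hw
      rcases hD w hw with h | h
      · rw [if_pos h, if_pos h, h]
        have hR0 := (hRD w hw ha).1 h
        rw [h, one_mul] at hp
        have hp' : 0 < 1 + b w := hp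
        rw [one_mul, show -(Real.log (1 + b w) - Real.log (2 * R w) + g w) =
          Real.log (2 * R w) + (-Real.log (1 + b w)) + (-g w) by ring, Real.exp_add, Real.exp_add,
          Real.exp_log (by positivity), Real.exp_neg, Real.exp_log hp']
        field_simp
        ring
      · have hne : D w ≠ 1 := by rw [h]; norm_num
        rw [if_neg hne, if_neg hne, h]
        have hR0 := (hRD w hw ha).2 h
        rw [h] at hp
        have hp' : 0 < 1 - b w := by
          have : 0 < 1 + -1 * b w := hp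
          linarith
        rw [show 1 + -1 * b w = 1 - b w by ring, show -(Real.log (1 - b w) - Real.log (2 * R' w) + g' w) =
          Real.log (2 * R' w) + (-Real.log (1 - b w)) + (-g' w) by ring, Real.exp_add, Real.exp_add,
          Real.exp_log (by positivity), Real.exp_neg, Real.exp_log hp']
        field_simp
        ring
  have c1 : P.E (fun w => F1 w * ((1 + D w) / 2)) = P.E (fun w => F1 w * ((1 + b w) / 2)) := by
    have k := P.E_mul_ce f1 D
    have k1 : P.E (fun w => F1 w * ((1 + D w) / 2)) = P.E (fun w => F1 w / 2) + (1 / 2) * P.E (fun w => F1 w * D w) := by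
      rw [← FP.E_smul, ← FP.E_add]
      exact P.E_congr fun w _ => by ring
    have k2 : P.E (fun w => F1 w * ((1 + b w) / 2)) = P.E (fun w => F1 w / 2) + (1 / 2) * P.E (fun w => F1 w * b w) := by
      rw [← FP.E_smul, ← FP.E_add]
      exact P.E_congr fun w _ => by ring
    rw [k1, k2, k]
  have c2 : P.E (fun w => F2 w * ((1 - D w) / 2)) = P.E (fun w => F2 w * ((1 - b w) / 2)) := by
    have k := P.E_mul_ce f2 D
    have k1 : P.E (fun w => F2 w * ((1 - D w) / 2)) = P.E (fun w => F2 w / 2) + (-1 / 2) * P.E (fun w => F2 w * D w) := by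
      rw [← FP.E_smul, ← FP.E_add]
      exact P.E_congr fun w _ => by ring
    have k2 : P.E (fun w => F2 w * ((1 - b w) / 2)) = P.E (fun w => F2 w / 2) + (-1 / 2) * P.E (fun w => F2 w * b w) := by
      rw [← FP.E_smul, ← FP.E_add]
      exact P.E_congr fun w _ => by ring
    rw [k1, k2, k]
  have dv : ∀ x y : ℝ, 0 ≤ x → x / y * y ≤ x := fun x y hx => by
    by_cases hy : y = 0
    · rw [hy, mul_zero]; exact hx
    · rw [div_mul_cancel₀ x hy]
  have c3 : P.E (fun w => F1 w * ((1 + b w) / 2)) + P.E (fun w => F2 w * ((1 - b w) / 2)) ≤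
      P.E (fun w => ind (al w) * (R w * Real.exp (-g w) + R' w * Real.exp (-g' w))) := by
    rw [← FP.E_add]
    refine P.E_mono fun w hw => ?_
    by_cases ha : al w
    swap
    · simp only [hF1, hF2, ind_not ha, zero_mul, add_zero, le_refl]
    · simp only [hF1, hF2, ind_of ha, one_mul]
      exact add_le_add (dv _ _ (mul_nonneg (hR w hw ha) (Real.exp_pos _).le))
        (dv _ _ (mul_nonneg (hR' w hw ha) (Real.exp_pos _).le))
  have e0 : P.E (fun w => ind (al w) * psx (Real.log (1 + D w * b w) -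
        Real.log (2 * if D w = 1 then R w else R' w) + if D w = 1 then g w else g' w)) =
      P.E (fun w => ind (al w) * (Real.log (1 + D w * b w) -
        Real.log (2 * if D w = 1 then R w else R' w) + if D w = 1 then g w else g' w)) - P.E (fun w => ind (al w)) +
      P.E (fun w => ind (al w) * Real.exp (-(Real.log (1 + D w * b w) -
        Real.log (2 * if D w = 1 then R w else R' w) + if D w = 1 then g w else g' w))) := by
    rw [← FP.E_sub, ← FP.E_add]
    refine P.E_congr fun w _ => ?_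
    unfold psx
    ring
  have e4 : P.E (fun w => ind (al w) * (R w * Real.exp (-g w) + R' w * Real.exp (-g' w) - 1)) =
      P.E (fun w => ind (al w) * (R w * Real.exp (-g w) + R' w * Real.exp (-g' w))) - P.E (fun w => ind (al w)) := by
    rw [← FP.E_sub]
    exact P.E_congr fun w _ => by ring
  rw [e0, e1, c1, c2, e4]
  linarith

/-- the same for products of ratios -/
theorem level_genp (hD : ∀ w, P.p w ≠ 0 → D w = 1 ∨ D w = -1) {S : Finset α} {n : Om → ℝ} {u u' : α → Om → ℝ}
    {g g' : Om → ℝ} (fn : Fac A n) (fu : ∀ i ∈ S, Fac A (u i)) (fu' : ∀ i ∈ S, Fac A (u' i)) (fg : Fac A g)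
    (fg' : Fac A g') (hn : ∀ w, P.p w ≠ 0 → |n w| ≤ 1) (hu : ∀ w, P.p w ≠ 0 → ∀ i ∈ S, |u i w| ≤ 1)
    (hu' : ∀ w, P.p w ≠ 0 → ∀ i ∈ S, |u' i w| ≤ 1) (pn : ∀ w, P.p w ≠ 0 → 0 < 1 + D w * n w)
    (pu : ∀ w, P.p w ≠ 0 → ∀ i ∈ S, 0 < 1 + D w * u i w) (pu' : ∀ w, P.p w ≠ 0 → ∀ i ∈ S, 0 < 1 + D w * u' i w)
    {a : Om → Prop} (fa : Fac A a) :
    P.E (fun w => ind (a w) * psx (Real.log (1 + D w * P.ce A D w) - Real.log (1 + D w * n w) -
        ∑ i ∈ S, (Real.log (1 + D w * u i w) - Real.log (1 + D w * u' i w)) + if D w = 1 then g w else g' w)) ≤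
      P.E (fun w => ind (a w) * (Real.log (1 + D w * P.ce A D w) - Real.log (1 + D w * n w) -
        ∑ i ∈ S, (Real.log (1 + D w * u i w) - Real.log (1 + D w * u' i w)))) +
        P.E (fun w => ind (a w) * if D w = 1 then g w else g' w) +
        P.E (fun w => ind (a w) * (Rp (n w) S (fun i => u i w) (fun i => u' i w) / 2 * Real.exp (-g w) +
          Rm (n w) S (fun i => u i w) (fun i => u' i w) / 2 * Real.exp (-g' w) - 1)) := by
  classical
  have fR : Fac A (fun w => Rp (n w) S (fun i => u i w) (fun i => u' i w) / 2) := by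
    intro v w hvw
    have e1 : n v = n w := fn v w hvw
    have e2 : ∀ i ∈ S, (1 + u i v) / (1 + u' i v) = (1 + u i w) / (1 + u' i w) :=
      fun i hi => by rw [fu i hi v w hvw, fu' i hi v w hvw]
    show Rp (n v) S (fun i => u i v) (fun i => u' i v) / 2 = Rp (n w) S (fun i => u i w) (fun i => u' i w) / 2
    unfold Rp
    rw [e1, Finset.prod_congr rfl e2]
  have fR' : Fac A (fun w => Rm (n w) S (fun i => u i w) (fun i => u' i w) / 2) := by
    intro v w hvw
    have e1 : n v = n w := fn v w hvw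
    have e2 : ∀ i ∈ S, (1 - u i v) / (1 - u' i v) = (1 - u i w) / (1 - u' i w) :=
      fun i hi => by rw [fu i hi v w hvw, fu' i hi v w hvw]
    show Rm (n v) S (fun i => u i v) (fun i => u' i v) / 2 = Rm (n w) S (fun i => u i w) (fun i => u' i w) / 2
    unfold Rm
    rw [e1, Finset.prod_congr rfl e2]
  have hT := fun w (hw : P.p w ≠ 0) => R_true (m0 := n w) (S := S) (u := fun i => u i w) (u' := fun i => u' i w)
    (hD w hw) (pn w hw) (pu w hw) (pu' w hw)
  have key := level_psx P (A := A) (D := D) hD fR fR' fg fg' (al := a) fa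
    (fun w hw _ => div_nonneg (Rp_nn (hn w hw) (hu w hw) (hu' w hw)) (by norm_num))
    (fun w hw _ => div_nonneg (Rm_nn (hn w hw) (hu w hw) (hu' w hw)) (by norm_num))
    (fun w hw _ => ⟨(hT w hw).1, (hT w hw).2.1⟩)
  refine le_trans (le_of_eq ?_) (key.trans (le_of_eq ?_))
  · refine P.E_congr fun w hw => ?_
    rw [(hT w hw).2.2]
    congr 2
    ring
  · congr 1
    rw [← P.E_add (fun w => ind (a w) * (Real.log (1 + D w * P.ce A D w) - Real.log (1 + D w * n w) -
        ∑ i ∈ S, (Real.log (1 + D w * u i w) - Real.log (1 + D w * u' i w))))]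
    refine P.E_congr fun w hw => ?_
    rw [(hT w hw).2.2]
    ring

end level

section proc

variable {K X β γ φ υ : Type} [Fintype K] [DecidableEq K] [Fintype X] [Fintype β] [Fintype φ] [Nonempty X] [Nonempty β]
  {D : HD K X β γ φ} {al : ℝ} (h : D.Thick al) {dg : ℕ → X → ℝ} {prr : ℕ → K → φ → φ} {T : ℕ} {Lam : ℝ}
  {v : ℕ → Finset K → X → (K → β) → υ} {p p' : Finset K → Prop} [DecidablePred p] [DecidablePred p']

variable (p p') (v) in
/-- increment of the relative potential at the digit -/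
noncomputable def iD (t : ℕ) (w : Pt K X β φ) : ℝ :=
  iR (D.P h t) p p' (LL (Um v (t + 1))) (WW D (t + 1)) w - iR (D.P h t) p p' (LL (Um v (t + 1))) (WW D t) w

/-- **THE CONVEX TERMS OF THE DIGITS** -/
theorem conGAp (H : D.Hyp dg prr al T Lam) (hv : Codes D v)
    (hp : ∀ I J : Finset K, I ⊆ J → p J → p I) (hsub : ∀ J, p' J → p J) (hu : ¬ p univ)
    (hl : ∀ l : K, ¬ p' (univ.erase l)) {a a' : ℕ → Pt K X β φ → Prop}
    (fa : ∀ t < T, Fac (fun w => (all (LP p (LL (Um v (t + 1)))) w, WW D t w)) (a t))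
    (fa' : ∀ t < T, Fac (fun w => (all (LP p (LL (Um v (t + 1)))) w, WW D (t + 1) w)) (a' t))
    {g g' : ℕ → Pt K X β φ → ℝ}
    (fg : ∀ t < T, Fac (fun w => (all (LP p (LL (Um v (t + 1)))) w, WW D t w)) (g t))
    (fg' : ∀ t < T, Fac (fun w => (all (LP p (LL (Um v (t + 1)))) w, WW D t w)) (g' t)) :
    ∑ t ∈ range T, (D.P h t).E (fun w => ind (a t w) * psx (iD h v p p' t w + if dg t w.1 = 1 then g t w else g' t w)) ≤
    MA h v p p' a T - MA h v p p' a 0 + ∑ t ∈ range T, (killD h v p p' a a' t + lossA h v p p' a' t +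
        killA h prr v p p' a a' t) + ∑ t ∈ range T, corA h dg v p p' a t (g t) (g' t) := by
  have one : ∀ t ∈ range T, (D.P h t).E (fun w => ind (a t w) *
      psx (iD h v p p' t w + if dg t w.1 = 1 then g t w else g' t w)) ≤
      (MA h v p p' a (t + 1) - MA h v p p' a t) + (killD h v p p' a a' t + lossA h v p p' a' t +
        killA h prr v p p' a a' t) + corA h dg v p p' a t (g t) (g' t) := by
    intro t ht
    have htT := Finset.mem_range.1 ht
    have hD : ∀ w, (D.P h t).p w ≠ 0 →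
        (fun w : Pt K X β φ => dg t w.1) w = 1 ∨ (fun w : Pt K X β φ => dg t w.1) w = -1 :=
      fun w _ => H.dg_val t w.1
    have hD1 : ∀ w, (D.P h t).p w ≠ 0 → |(fun w : Pt K X β φ => dg t w.1) w| ≤ 1 := fun w hw => by
      rcases hD w hw with h1 | h1 <;> rw [h1] <;> norm_num
    have k1 := level_genp (D.P h t) (A := fun w => (all (LP p (LL (Um v (t + 1)))) w, WW D t w))
      (D := fun w => dg t w.1) hD
      (S := univ.filter fun J => p J ∧ ¬ p' J) (n := bp v p' h dg t) (u := fun J => uu (UU v) h dg J t)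
      (u' := fun J => ul (UU v) h dg J t) (g := g t) (g' := g' t) (fac_bp h hsub t)
      (fun J hJ => fac_uu h hp (Finset.mem_filter.1 hJ).2.1 t)
      (fun J hJ => fac_ul h hp hu (Finset.mem_filter.1 hJ).2.1 t) (fg t htT) (fg' t htT)
      (fun w _ => (D.P h t).abs_ce_le_one hD1 _ w) (fun w _ _ _ => (D.P h t).abs_ce_le_one hD1 _ w)
      (fun w _ _ _ => (D.P h t).abs_ce_le_one hD1 _ w) (fun w hw => (D.P h t).digit_pos hD _ hw)
      (fun w hw _ _ => (D.P h t).digit_pos hD _ hw) (fun w hw _ _ => (D.P h t).digit_pos hD _ hw)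
      (a := a t) (fa t htT)
    have k2 := MA_step h (a := a) H hv hp hsub hu hl fa' htT
    have k3 : corA h dg v p p' a t (g t) (g' t) =
        (D.P h t).E (fun w => ind (a t w) * if dg t w.1 = 1 then g t w else g' t w) +
        (D.P h t).E (fun w => ind (a t w) * (Rp (bp v p' h dg t w) (univ.filter fun J => p J ∧ ¬ p' J)
            (fun J => uu (UU v) h dg J t w) (fun J => ul (UU v) h dg J t w) / 2 * Real.exp (-g t w) +
          Rm (bp v p' h dg t w) (univ.filter fun J => p J ∧ ¬ p' J)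
            (fun J => uu (UU v) h dg J t w) (fun J => ul (UU v) h dg J t w) / 2 * Real.exp (-g' t w) - 1)) := rfl
    have k4 : (D.P h t).E (fun w => ind (a t w) * (Real.log (1 + dg t w.1 *
          (D.P h t).ce (fun w => (all (LP p (LL (Um v (t + 1)))) w, WW D t w)) (fun w => dg t w.1) w) -
        Real.log (1 + dg t w.1 * bp v p' h dg t w) -
        ∑ J ∈ univ.filter (fun J => p J ∧ ¬ p' J), (Real.log (1 + dg t w.1 * uu (UU v) h dg J t w) -
          Real.log (1 + dg t w.1 * ul (UU v) h dg J t w)))) =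
        (D.P h t).E (fun w => ind (a t w) * (Real.log (1 + dg t w.1 * bp v p h dg t w) -
      Real.log (1 + dg t w.1 * bp v p' h dg t w) -
        ∑ J ∈ univ.filter (fun J => p J ∧ ¬ p' J), (Real.log (1 + dg t w.1 * uu (UU v) h dg J t w) -
          Real.log (1 + dg t w.1 * ul (UU v) h dg J t w)))) := rfl
    have k5 : (D.P h t).E (fun w => ind (a t w) *
        psx (iD h v p p' t w + if dg t w.1 = 1 then g t w else g' t w)) =
        (D.P h t).E (fun w => ind (a t w) * psx (Real.log (1 + dg t w.1 *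
          (D.P h t).ce (fun w => (all (LP p (LL (Um v (t + 1)))) w, WW D t w)) (fun w => dg t w.1) w) -
        Real.log (1 + dg t w.1 * bp v p' h dg t w) -
        ∑ J ∈ univ.filter (fun J => p J ∧ ¬ p' J), (Real.log (1 + dg t w.1 * uu (UU v) h dg J t w) -
          Real.log (1 + dg t w.1 * ul (UU v) h dg J t w)) + if dg t w.1 = 1 then g t w else g' t w)) := by
      refine (D.P h t).E_congr fun w hw => ?_
      unfold iD
      rw [iR_dig h H hv hp hsub hu htT hw]
      rfl
    rw [k3, k5]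
    refine k1.trans ?_
    rw [k4]
    linarith
  have h1 := Finset.sum_le_sum one
  rw [Finset.sum_add_distrib, Finset.sum_add_distrib,
    Finset.sum_range_sub (fun t => MA h v p p' a t)] at h1
  exact h1

end proc


open TP VT

section run

variable {X β γ φ : Type} [Fintype X] [Fintype β] [Fintype φ] [Nonempty X] [Nonempty β]
variable {D : HD (Fin 3) X β γ φ} {al : ℝ} {h : D.Thick al}
  {v : ℕ → Finset (Fin 3) → X → (Fin 3 → β) → Pt (Fin 3) X β φ}
variable {dg : ℕ → X → ℝ} {prr : ℕ → Fin 3 → φ → φ} {T : ℕ} {Lam : ℝ}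
variable (H : D.Hyp dg prr al T Lam) {n N1 : ℝ} (R : Run h (pr3 (Fin 3) n N1) (SS1 (Fin 3)) (AdmDep D) v) (p : AP)
  {K0 B eta τ L : ℝ} (hn : NumV n N1 K0 B eta τ L p) {Pd PR : ℝ}
  (hPd : (D.P h T).Pr (fun w => ¬ Ar h v p (2 * T) w) ≤ Pd)
  (hPR : ∑ r ∈ range (2 * T), (Pr' h r).Pr (fun w => Rgr h v p B eta r w) ≤ PR)

include H R hn hPd hPR

/-- **ALL CONVEX TERMS**, three vertices -/
theorem VZ_psx (i0 : Fin 3) : ∑ t ∈ range T, (D.P h t).E (fun w => ind (aV h v p t w) *
    psx (iD h v pth pcl t w + if dg t w.1 = 1 then gL h v (fun u => dg t u.1) B eta t (t + 1) t 1 w else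
      gL h v (fun u => dg t u.1) B eta t (t + 1) t (-1) w)) + ∑ t ∈ range T, PSV h v p B eta i0 t ≤
    errV n N1 Lam K0 B eta τ p Pd PR := by
  have k1 := V_totalp i0 H R p hn hPd hPR
  have k2 := conGAp h (p := pth) (p' := pcl) H R.codes pth_down (fun J (hJ : J = ∅) => by rw [hJ]; exact pth0)
    (by unfold pth; rw [Finset.card_univ, Fintype.card_fin]; norm_num)
    (fun l => er_ne_thin (by rw [Finset.card_empty]; norm_num))
    (a := aV h v p) (a' := aV' h v p) (fun t _ => F3.aV_fac h p t) (fun t _ => F3.aV'_fac h p t)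
    (g := fun t => gL h v (fun u => dg t u.1) B eta t (t + 1) t 1)
    (g' := fun t => gL h v (fun u => dg t u.1) B eta t (t + 1) t (-1))
    (fun t _ => gL_fac h 1) (fun t _ => gL_fac h (-1))
  unfold balA at k1
  linarith

/-- **ALL CONVEX TERMS**, two vertices -/
theorem JZ_psx {i k j : Fin 3} (hik : i ≠ k) (hij : i ≠ j) (hkj : k ≠ j) :
    ∑ t ∈ range T, (D.P h t).E (fun w => ind (aJ h v p i k t w) *
    psx (iD h v (pj j) pcl t w + if dg t w.1 = 1 then gJ h v i k (fun u => dg t u.1) B eta t (t + 1) t 1 w else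
      gJ h v i k (fun u => dg t u.1) B eta t (t + 1) t (-1) w)) + ∑ t ∈ range T, PSJ h v p B eta i k t ≤
    errV n N1 Lam K0 B eta τ p Pd PR := by
  have k1 := VJ_totalp H R p hn hPd hPR hik hij hkj
  have k2 := conGAp h (p := pj j) (p' := pcl) H R.codes (pj_down j) (fun J (hJ : J = ∅) => by rw [hJ]; exact pj0 k3 j)
    (fun hh => absurd (hh.1 (mem_univ j)) (Finset.notMem_erase j _))
    (fun l => er_ne_thin (by rw [Finset.card_empty]; norm_num))
    (a := aJ h v p i k) (a' := aJ' h v p i k) (fun t _ => F3.aJ_fac h p t hij hkj) (fun t _ => F3.aJ'_fac h p t hij hkj)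
    (g := fun t => gJ h v i k (fun u => dg t u.1) B eta t (t + 1) t 1)
    (g' := fun t => gJ h v i k (fun u => dg t u.1) B eta t (t + 1) t (-1))
    (fun t _ => gJ_fac h hik hij hkj 1) (fun t _ => gJ_fac h hik hij hkj (-1))
  unfold balA at k1
  linarith

theorem even_sum : ∑ t ∈ range T, (D.P h t).Pr (fun w => Rgr h v p B eta (2 * t) w) ≤ PR := by
  have k1 := VT.sum_evod (fun r => (Pr' h r).Pr (fun w => Rgr h v p B eta r w)) T
  rw [k1, Finset.sum_add_distrib] at hPR
  have k2 : 0 ≤ ∑ t ∈ range T, (Pr' h (2 * t + 1)).Pr (fun w => Rgr h v p B eta (2 * t + 1) w) :=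
    Finset.sum_nonneg fun t _ => FP.Pr_nonneg _ _
  have k3 : ∑ t ∈ range T, (D.P h t).Pr (fun w => Rgr h v p B eta (2 * t) w) =
      ∑ t ∈ range T, (Pr' h (2 * t)).Pr (fun w => Rgr h v p B eta (2 * t) w) :=
    Finset.sum_congr rfl fun t _ => by rw [Pr_even]
  linarith

/-- **DIGIT, THREE VERTICES** -/
theorem A0_sum {c : ℝ} (hc : 0 < c) (hc1 : c ≤ 1) :
    ∑ t ∈ range T, (D.P h t).Pr (fun w => aV h v p t w ∧ c ≤ |iD h v pth pcl t w|) ≤
      4 / c ^ 2 * errV n N1 Lam K0 B eta τ p Pd PR + PR := by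
  have hc2 : (0 : ℝ) ≤ 4 / c ^ 2 := by positivity
  have hX0 : 0 ≤ p.X0 := by have := hn.hX; linarith
  have hB1 : 1 ≤ B := by
    have h1 := Real.add_one_le_exp (2 : ℝ)
    have h2 := hn.hB
    linarith
  have hPS : 0 ≤ ∑ t ∈ range T, PSV h v p B eta 0 t := Finset.sum_nonneg fun t _ => by
    unfold PSV
    exact add_nonneg (FP.E_nonneg _ fun w _ => mul_nonneg (ind_nonneg _) (psx_nn _))
      (FP.E_nonneg _ fun w _ => mul_nonneg (ind_nonneg _) (psx_nn _))
  have hV := VZ_psx H R p hn hPd hPR 0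
  have hV' : ∑ t ∈ range T, (D.P h t).E (fun w => ind (aV h v p t w) *
    psx (iD h v pth pcl t w + if dg t w.1 = 1 then gL h v (fun u => dg t u.1) B eta t (t + 1) t 1 w else
      gL h v (fun u => dg t u.1) B eta t (t + 1) t (-1) w)) ≤ errV n N1 Lam K0 B eta τ p Pd PR := by linarith
  refine le_trans ?_ (add_le_add (mul_le_mul_of_nonneg_left hV' hc2) (even_sum H R p hn hPd hPR))
  rw [Finset.mul_sum, ← Finset.sum_add_distrib]
  refine Finset.sum_le_sum fun t ht => ?_
  have ht' := Finset.mem_range.1 ht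
  set g : Pt (Fin 3) X β φ → ℝ := fun w => if dg t w.1 = 1 then gL h v (fun u => dg t u.1) B eta t (t + 1) t 1 w else
      gL h v (fun u => dg t u.1) B eta t (t + 1) t (-1) w with hg
  have hgv : ∀ w, g w = gL h v (fun u => dg t u.1) B eta t (t + 1) t (dg t w.1) w := by
    intro w
    simp only [hg]
    rcases H.dg_val t w.1 with h2 | h2
    · rw [if_pos h2, h2]
    · rw [if_neg (by rw [h2]; norm_num), h2]
  have e1 : (D.P h t).Pr (fun w => aV h v p t w ∧ c ≤ |iD h v pth pcl t w|) ≤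
      (D.P h t).Pr (fun w => (aV h v p t w ∧ c ≤ |iD h v pth pcl t w + g w|) ∨ Rgr h v p B eta (2 * t) w) := by
    refine (D.P h t).Pr_mono fun w hw hh => ?_
    by_cases hR : Rgr h v p B eta (2 * t) w
    · exact Or.inr hR
    · left
      have k1 := gL_dig_le h H R.codes p hX0 hB1 hn.h0 ht' hw
      have k0 := hh.1
      unfold aV at k0
      rw [ind_not hR, mul_zero, ind_of k0, one_mul, ← hgv w] at k1
      have k2 : 0 ≤ g w := by
        rw [hgv w]
        exact gcut_nn hn.h0
      have k3 : g w = 0 := le_antisymm k1 k2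
      rw [k3, add_zero]
      exact hh
  refine e1.trans ((FP.Pr_or_le _ _ _).trans (add_le_add ?_ le_rfl))
  exact psx_markov (D.P h t) (aV h v p t) _ hc hc1

/-- **DIGIT, TWO VERTICES** -/
theorem B0_sum {i k j : Fin 3} (hik : i ≠ k) (hij : i ≠ j) (hkj : k ≠ j) {c : ℝ} (hc : 0 < c) (hc1 : c ≤ 1) :
    ∑ t ∈ range T, (D.P h t).Pr (fun w => aJ h v p i k t w ∧ c ≤ |iD h v (pj j) pcl t w|) ≤
      4 / c ^ 2 * errV n N1 Lam K0 B eta τ p Pd PR + PR := by
  have hc2 : (0 : ℝ) ≤ 4 / c ^ 2 := by positivity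
  have hX0 : 0 ≤ p.X0 := by have := hn.hX; linarith
  have hB1 : 1 ≤ B := by
    have h1 := Real.add_one_le_exp (2 : ℝ)
    have h2 := hn.hB
    linarith
  have hPS : 0 ≤ ∑ t ∈ range T, PSJ h v p B eta i k t := Finset.sum_nonneg fun t _ => by
    unfold PSJ
    exact add_nonneg (FP.E_nonneg _ fun w _ => mul_nonneg (ind_nonneg _) (psx_nn _))
      (FP.E_nonneg _ fun w _ => mul_nonneg (ind_nonneg _) (psx_nn _))
  have hV := JZ_psx H R p hn hPd hPR hik hij hkj
  have hV' : ∑ t ∈ range T, (D.P h t).E (fun w => ind (aJ h v p i k t w) *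
    psx (iD h v (pj j) pcl t w + if dg t w.1 = 1 then gJ h v i k (fun u => dg t u.1) B eta t (t + 1) t 1 w else
      gJ h v i k (fun u => dg t u.1) B eta t (t + 1) t (-1) w)) ≤ errV n N1 Lam K0 B eta τ p Pd PR := by linarith
  refine le_trans ?_ (add_le_add (mul_le_mul_of_nonneg_left hV' hc2) (even_sum H R p hn hPd hPR))
  rw [Finset.mul_sum, ← Finset.sum_add_distrib]
  refine Finset.sum_le_sum fun t ht => ?_
  have ht' := Finset.mem_range.1 ht
  set g : Pt (Fin 3) X β φ → ℝ := fun w => if dg t w.1 = 1 then gJ h v i k (fun u => dg t u.1) B eta t (t + 1) t 1 w else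
      gJ h v i k (fun u => dg t u.1) B eta t (t + 1) t (-1) w with hg
  have hgv : ∀ w, g w = gJ h v i k (fun u => dg t u.1) B eta t (t + 1) t (dg t w.1) w := by
    intro w
    simp only [hg]
    rcases H.dg_val t w.1 with h2 | h2
    · rw [if_pos h2, h2]
    · rw [if_neg (by rw [h2]; norm_num), h2]
  have e1 : (D.P h t).Pr (fun w => aJ h v p i k t w ∧ c ≤ |iD h v (pj j) pcl t w|) ≤
      (D.P h t).Pr (fun w => (aJ h v p i k t w ∧ c ≤ |iD h v (pj j) pcl t w + g w|) ∨ Rgr h v p B eta (2 * t) w) := by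
    refine (D.P h t).Pr_mono fun w hw hh => ?_
    by_cases hR : Rgr h v p B eta (2 * t) w
    · exact Or.inr hR
    · left
      have k1 := gJ_dig_le h H R.codes p hX0 hB1 hn.h0 ht' hik hw
      have k0 := hh.1
      unfold aJ at k0
      rw [ind_not hR, mul_zero, ind_of k0, one_mul, ← hgv w] at k1
      have k2 : 0 ≤ g w := by
        rw [hgv w]
        exact gcut_nn hn.h0
      have k3 : g w = 0 := le_antisymm k1 k2
      rw [k3, add_zero]
      exact hh
  refine e1.trans ((FP.Pr_or_le _ _ _).trans (add_le_add ?_ le_rfl))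
  exact psx_markov (D.P h t) (aJ h v p i k t) _ hc hc1

end run

noncomputable section

section st

variable {X β γ φ : Type} [Fintype X] [Fintype β] [Fintype φ] [Nonempty X] [Nonempty β]
variable {D : HD (Fin 3) X β γ φ} {al : ℝ} (h : D.Thick al)
  {v : ℕ → Finset (Fin 3) → X → (Fin 3 → β) → Pt (Fin 3) X β φ}

variable (v) in
/-- ratio of the digit at the vertex `i` -/
def sv0 (t : ℕ) (i : Fin 3) (w : Pt (Fin 3) X β φ) : ℝ :=
  lw (Pc h v t (t + 1) (t + 1) w) (XL v (t + 1) i) (XL v (t + 1) i w) /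
    lw (Pc h v t (t + 1) t w) (XL v (t + 1) i) (XL v (t + 1) i w)

theorem log_sv0 {t : ℕ} (i : Fin 3) {w : Pt (Fin 3) X β φ} (hw : (D.P h t).p w ≠ 0) :
    Real.log (sv0 h v t i w) =
      Real.log ((D.P h t).m (fun u => (XL v (t + 1) i u, NP D v (t + 1) (t + 1) u)) w) -
        Real.log ((D.P h t).m (NP D v (t + 1) (t + 1)) w) -
      (Real.log ((D.P h t).m (fun u => (XL v (t + 1) i u, NP D v (t + 1) t u)) w) -
        Real.log ((D.P h t).m (NP D v (t + 1) t) w)) := by
  unfold sv0 Pc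
  have m1 := (D.P h t).m_pos (fun u => (XL v (t + 1) i u, NP D v (t + 1) (t + 1) u)) hw
  have m2 := (D.P h t).m_pos (NP D v (t + 1) (t + 1)) hw
  have m3 := (D.P h t).m_pos (fun u => (XL v (t + 1) i u, NP D v (t + 1) t u)) hw
  have m4 := (D.P h t).m_pos (NP D v (t + 1) t) hw
  rw [lw_cell _ (XL v (t + 1) i) (NP D v (t + 1) (t + 1)) hw, lw_cell _ (XL v (t + 1) i) (NP D v (t + 1) t) hw,
    Real.log_div (div_pos m1 m2).ne' (div_pos m3 m4).ne', Real.log_div m1.ne' m2.ne', Real.log_div m3.ne' m4.ne']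

theorem sv0_pos {t : ℕ} (i : Fin 3) {w : Pt (Fin 3) X β φ} (hw : (D.P h t).p w ≠ 0) : 0 < sv0 h v t i w := by
  unfold sv0 Pc
  rw [lw_cell _ (XL v (t + 1) i) (NP D v (t + 1) (t + 1)) hw, lw_cell _ (XL v (t + 1) i) (NP D v (t + 1) t) hw]
  exact div_pos (div_pos ((D.P h t).m_pos _ hw) ((D.P h t).m_pos _ hw))
    (div_pos ((D.P h t).m_pos _ hw) ((D.P h t).m_pos _ hw))

variable (D v) in
theorem NPq_lo (t : ℕ) : NPq (φ := φ) D v (5 * t) = NP D v (t + 1) t := NPq_0 t

variable {i k l : Fin 3} (hv : Codes D v) (hik : i ≠ k) (hil : i ≠ l) (hkl : k ≠ l) {t : ℕ} {w : Pt (Fin 3) X β φ}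
  (hw : (D.P h t).p w ≠ 0)

include hv hik hil hkl hw

/-- **DIGIT** (`5 t -> 5 t + 1`) -/
theorem log_tS0 : Real.log (tS h v 0 t i w) = Real.log (sv0 h v t i w) + iD h v pth pcl t w - iD h v (pj i) pcl t w := by
  have e : Real.log (tS h v 0 t i w) = _ := log_tau hv (D.P h t) (show 5 * t + 0 ≤ 5 * t + 1 by omega) hik hil hkl hw
  rw [YM_lo t (by omega : 0 ≤ 4) (by omega : 1 ≤ 4) i] at e
  simp only [XLq_lo v t (by omega : 0 ≤ 4), XLq_lo v t (by omega : 1 ≤ 4)] at e
  rw [CKB.NPq_one t, show 5 * t + 0 = 5 * t by rfl, NPq_lo D v t] at e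
  have a1 := log_D3_sum (D.P h t) (XL v (t + 1)) (NP D v (t + 1) (t + 1)) hw hik hil hkl
  have a2 := log_D3_sum (D.P h t) (XL v (t + 1)) (NP D v (t + 1) t) hw hik hil hkl
  have b1 := log_DJ_sum (D.P h t) (XL v (t + 1) k) (XL v (t + 1) l) (NP D v (t + 1) (t + 1)) hw
  have b2 := log_DJ_sum (D.P h t) (XL v (t + 1) k) (XL v (t + 1) l) (NP D v (t + 1) t) hw
  have c1 : iD h v pth pcl t w = Real.log (DL h v t (t + 1) (t + 1) w) - Real.log (DL h v t (t + 1) t w) := by
    unfold iD
    rw [iR_thin h hv (Nat.le_succ t) (Nat.le_succ _) hw, iR_thin h hv (le_refl t) (le_refl _) hw]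
  have c2 : iD h v (pj i) pcl t w = Real.log (DJ h v k l t (t + 1) (t + 1) w) - Real.log (DJ h v k l t (t + 1) t w) := by
    unfold iD
    rw [iR_pair h hv (Nat.le_succ t) (Nat.le_succ _) hkl hik.symm hil.symm hw,
      iR_pair h hv (le_refl t) (le_refl _) hkl hik.symm hil.symm hw]
  rw [e, log_sv0 h i hw, c1, c2]
  unfold DL DJ Pc
  rw [a1, a2, b1, b2]
  ring

end st

section run2

variable {X β γ φ : Type} [Fintype X] [Fintype β] [Fintype φ] [Nonempty X] [Nonempty β]
variable {D : HD (Fin 3) X β γ φ} {al : ℝ} {h : D.Thick al}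
  {v : ℕ → Finset (Fin 3) → X → (Fin 3 → β) → Pt (Fin 3) X β φ}
variable {dg : ℕ → X → ℝ} {prr : ℕ → Fin 3 → φ → φ} {T : ℕ} {Lam : ℝ}
variable (H : D.Hyp dg prr al T Lam) {n N1 : ℝ} (R : Run h (pr3 (Fin 3) n N1) (SS1 (Fin 3)) (AdmDep D) v) (p : AP)
  {K0 B eta τ L : ℝ} (hn : NumV n N1 K0 B eta τ L p) {Pd PR : ℝ}
  (hPd : (D.P h T).Pr (fun w => ¬ Ar h v p (2 * T) w) ≤ Pd)
  (hPR : ∑ r ∈ range (2 * T), (Pr' h r).Pr (fun w => Rgr h v p B eta r w) ≤ PR)
  {i k l : Fin 3} (hik : i ≠ k) (hil : i ≠ l) (hkl : k ≠ l) {c : ℝ} (hc : 0 < c) (hc1 : c ≤ 1)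

include H R hn hPd hPR hik hil hkl hc hc1

/-- **ROW XOR, DIGIT** -/
theorem xor0 : ∑ t ∈ range T, (D.P h t).Pr (fun w => aV h v p t w ∧
    2 * c ≤ |Real.log (tS h v 0 t i w) - Real.log (sv0 h v t i w)|) ≤
    8 / c ^ 2 * errV n N1 Lam K0 B eta τ p Pd PR + 2 * PR := by
  have a1 := A0_sum H R p hn hPd hPR hc hc1
  have b1 := B0_sum H R p hn hPd hPR hkl hik.symm hil.symm hc hc1
  have key : ∑ t ∈ range T, (D.P h t).Pr (fun w => aV h v p t w ∧
      2 * c ≤ |Real.log (tS h v 0 t i w) - Real.log (sv0 h v t i w)|) ≤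
      ∑ t ∈ range T, ((D.P h t).Pr (fun w => aV h v p t w ∧ c ≤ |iD h v pth pcl t w|) +
        (D.P h t).Pr (fun w => aJ h v p k l t w ∧ c ≤ |iD h v (pj i) pcl t w|)) := by
    refine Finset.sum_le_sum fun t _ => ?_
    have e1 : (D.P h t).Pr (fun w => aV h v p t w ∧ 2 * c ≤ |Real.log (tS h v 0 t i w) - Real.log (sv0 h v t i w)|) ≤
        (D.P h t).Pr (fun w => (aV h v p t w ∧ c ≤ |iD h v pth pcl t w|) ∨
          (aJ h v p k l t w ∧ c ≤ |iD h v (pj i) pcl t w|)) := by
      refine (D.P h t).Pr_mono fun w hw hh => ?_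
      have hJ : aJ h v p k l t w := ⟨hh.1.1, hh.1.2 k, hh.1.2 l⟩
      have e := log_tS0 h R.codes hik hil hkl hw
      by_contra hno
      push Not at hno
      have h1 := hno.1 hh.1
      have h2 := hno.2 hJ
      have h3 : |Real.log (tS h v 0 t i w) - Real.log (sv0 h v t i w)| ≤ |iD h v pth pcl t w| + |iD h v (pj i) pcl t w| := by
        rw [e, show Real.log (sv0 h v t i w) + iD h v pth pcl t w - iD h v (pj i) pcl t w - Real.log (sv0 h v t i w) =
          iD h v pth pcl t w - iD h v (pj i) pcl t w by ring]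
        exact abs_sub _ _
      linarith [hh.2]
    exact e1.trans (FP.Pr_or_le _ _ _)
  refine key.trans ?_
  rw [Finset.sum_add_distrib]
  have e : 8 / c ^ 2 * errV n N1 Lam K0 B eta τ p Pd PR + 2 * PR =
    (4 / c ^ 2 * errV n N1 Lam K0 B eta τ p Pd PR + PR) + (4 / c ^ 2 * errV n N1 Lam K0 B eta τ p Pd PR + PR) := by ring
  rw [e]
  exact add_le_add a1 b1

end run2

end

end Pool.Agent.GMH.V3
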