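import Pool.Agent.GMH.RarX

/-!
# GMH/YL1 (helper36): YOUNG LIVES (H3.UNM, U.4 (b)), ABSTRACT INEQUALITY

Laws `Q << B` ; `X` = far top, `Z` = its own letters, `T` = hint.  `f r v` = value of the test at `v` with the hint of the point
`r`, `Ty` = typical own letters, `Un` = unmoved.
* `sgn_dv` : if `B(Un e^f | Z) ≤ e^κ` on `Ty` and `klc + I ≤ kap`, then
  `Q (Ty Un f) ≤ 3 kap + 2 Q(Ty, not Un) + (e^κ - 1)`;
* `mov_dv` : the same with all hypotheses on the supports only.
-/

set_option autoImplicit false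
set_option linter.unusedSectionVars false

namespace Pool.Agent.GMH.YL

open Finset Pool.Agent.PWZ Pool.Agent.M3 Pool.Agent.GMH

noncomputable section

variable {Om : Type*} [Fintype Om] {Q B : FP Om} {κ ι τ : Type*}

/-- **test on the unmoved points, typical letters** -/
theorem sgn_dv (hB : Q.Ac B) (X : Om → κ) (Z : Om → ι) (T : Om → τ) {psi : τ → Om → ℝ}
    (hpsi : ∀ r, Fac (fun w => (X w, Z w)) (psi r)) {Ty Un : Om → Prop} (hTy : Fac Z Ty)
    (hUn : Fac (fun w => (X w, Z w)) Un) {k kap : ℝ} (k0 : 0 ≤ k)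
    (hN : ∀ w, Q.p w ≠ 0 → Ty w → B.ce Z (fun v => ind (Un v) * Real.exp (psi (T w) v)) w ≤ Real.exp k)
    (hk : Q.klc B X Z + Q.I X T Z ≤ kap) :
    Q.E (fun w => ind (Ty w) * (ind (Un w) * psi (T w) w)) ≤
      3 * kap + 2 * Q.Pr (fun w => Ty w ∧ ¬ Un w) + (Real.exp k - 1) := by
  have hTi : Fac (fun w => (X w, Z w)) (fun w => ind (Ty w)) := fun a b e => by
    simp only [Prod.mk.injEq] at e
    show ind (Ty a) = ind (Ty b)
    rw [hTy a b e.2]
  have hUi : Fac (fun w => (X w, Z w)) (fun w => ind (Un w)) := fun a b e => by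
    show ind (Un a) = ind (Un b)
    rw [hUn a b e]
  have h1 := klc_dv_row hB X Z T (psi := fun r v => ind (Ty v) * (ind (Un v) * psi r v))
    (fun r => hTi.mul (hUi.mul (hpsi r)))
  have hBad : Fac (fun w => (X w, Z w)) (fun v => ind (Ty v ∧ ¬ Un v)) := fun a b e => by
    have e' := e
    simp only [Prod.mk.injEq] at e'
    show ind (Ty a ∧ ¬ Un a) = ind (Ty b ∧ ¬ Un b)
    rw [hTy a b e'.2, hUn a b e]
  have h2 := RarX.bwd (Q := Q) (R := B) hB X Z T (psi := fun _ v => ind (Ty v ∧ ¬ Un v)) (fun _ => hBad)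
    (fun _ _ => ind_nonneg _) (fun _ _ => ind_le_one _)
  have h3 : Q.E (fun w => Real.log (B.ce Z (fun v => Real.exp (ind (Ty v) * (ind (Un v) * psi (T w) v))) w)) ≤
      Q.E (fun w => B.ce Z (fun v => ind (Ty v ∧ ¬ Un v)) w + (Real.exp k - 1)) := by
    refine Q.E_mono fun w hw => ?_
    have hBw := hB w hw
    have e1 : (1 : ℝ) ≤ Real.exp k := Real.one_le_exp k0
    have n1 : 0 ≤ B.ce Z (fun v => ind (Ty v ∧ ¬ Un v)) w := B.ce_nonneg (fun _ _ => ind_nonneg _) w
    have h4 := Real.log_le_sub_one_of_pos (RarX.ce_exp_pos (Q := Q) (R := B) hB Z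
      (fun v => ind (Ty v) * (ind (Un v) * psi (T w) v)) hw)
    have h5 : B.ce Z (fun v => Real.exp (ind (Ty v) * (ind (Un v) * psi (T w) v))) w ≤
        B.ce Z (fun v => ind (Ty v ∧ ¬ Un v)) w + Real.exp k := by
      by_cases hT : Ty w
      · have h6 : B.ce Z (fun v => Real.exp (ind (Ty v) * (ind (Un v) * psi (T w) v))) w ≤
            B.ce Z (fun v => ind (Ty v ∧ ¬ Un v) + ind (Un v) * Real.exp (psi (T w) v)) w := by
          unfold FP.ce
          refine div_le_div_of_nonneg_right (B.E_mono fun v _ => ?_) (B.m_nonneg _ _)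
          by_cases hv : Z v = Z w
          · rw [ind_of hv, one_mul, one_mul]
            have hTv : Ty v := by rw [hTy v w hv]; exact hT
            show Real.exp (ind (Ty v) * (ind (Un v) * psi (T w) v)) ≤
              ind (Ty v ∧ ¬ Un v) + ind (Un v) * Real.exp (psi (T w) v)
            by_cases hu : Un v
            · rw [ind_of hTv, ind_of hu, one_mul, one_mul, one_mul,
                ind_not (fun h : Ty v ∧ ¬ Un v => h.2 hu), zero_add]
            · rw [ind_of hTv, ind_not hu, zero_mul, one_mul, Real.exp_zero,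
                ind_of (show Ty v ∧ ¬ Un v from ⟨hTv, hu⟩), zero_mul, add_zero]
          · rw [ind_not hv, zero_mul, zero_mul]
        rw [B.ce_add] at h6
        have := hN w hw hT
        linarith
      · have h6 : B.ce Z (fun v => Real.exp (ind (Ty v) * (ind (Un v) * psi (T w) v))) w = 1 := by
          rw [← B.ce_const Z 1 hBw]
          unfold FP.ce
          congr 1
          refine B.E_congr fun v _ => ?_
          by_cases hv : Z v = Z w
          · have hTv : ¬ Ty v := by rw [hTy v w hv]; exact hT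
            show ind (Z v = Z w) * Real.exp (ind (Ty v) * (ind (Un v) * psi (T w) v)) = ind (Z v = Z w) * 1
            rw [ind_not hTv, zero_mul, Real.exp_zero]
          · rw [ind_not hv, zero_mul, zero_mul]
        rw [h6]
        linarith
    linarith
  rw [Q.E_add, Q.E_const] at h3
  have h7 : Q.E (fun w => (fun (_ : τ) v => ind (Ty v ∧ ¬ Un v)) (T w) w) = Q.Pr (fun w => Ty w ∧ ¬ Un w) := rfl
  rw [h7] at h2
  have h8 : Q.E (fun w => B.ce Z ((fun (_ : τ) v => ind (Ty v ∧ ¬ Un v)) (T w)) w) =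
      Q.E (fun w => B.ce Z (fun v => ind (Ty v ∧ ¬ Un v)) w) := rfl
  rw [h8] at h2
  have h9 : Q.E (fun w => (fun r v => ind (Ty v) * (ind (Un v) * psi r v)) (T w) w) =
      Q.E (fun w => ind (Ty w) * (ind (Un w) * psi (T w) w)) := rfl
  rw [h9] at h1
  linarith

/-- choice of the values of a function which is a function of `Z` on a set -/
theorem choice1 {α : Type*} [Inhabited α] (S : Om → Prop) (Z : Om → ι) (f : Om → α)
    (hf : ∀ v w, S v → S w → Z v = Z w → f v = f w) :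
    ∃ f' : Om → α, Fac Z f' ∧ ∀ w, S w → f' w = f w := by
  classical
  set G : ι → α := fun x => if hx : ∃ u, S u ∧ Z u = x then f hx.choose else default with hG
  refine ⟨fun w => G (Z w), fun v w hvw => ?_, fun w hw => ?_⟩
  · show G (Z v) = G (Z w)
    rw [hvw]
  · have hx : ∃ u, S u ∧ Z u = Z w := ⟨w, hw, rfl⟩
    show G (Z w) = f w
    simp only [hG]
    rw [dif_pos hx]
    exact hf _ _ hx.choose_spec.1 hw hx.choose_spec.2

theorem ce_sup {P : FP Om} {Z : Om → ι} {f g : Om → ℝ} {w : Om}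
    (hfg : ∀ u, P.p u ≠ 0 → Z u = Z w → f u = g u) : P.ce Z f w = P.ce Z g w := by
  unfold FP.ce
  congr 1
  refine P.E_congr fun u hu => ?_
  by_cases h1 : Z u = Z w
  · rw [hfg u hu h1]
  · rw [ind_not h1, zero_mul, zero_mul]

/-- **the same with hypotheses on the supports** ; `f r v` : the test at `v` with the hint of `r` -/
theorem mov_dv (hB : Q.Ac B) (X : Om → κ) (Z : Om → ι) (T : Om → τ) {f : Om → Om → ℝ}
    (hf : ∀ r v w, B.p v ≠ 0 → B.p w ≠ 0 → X v = X w → Z v = Z w → f r v = f r w)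
    (hr : ∀ r r' v, Q.p r ≠ 0 → Q.p r' ≠ 0 → T r = T r' → Z r = Z r' → B.p v ≠ 0 → Z v = Z r → f r v = f r' v)
    {Ty Un : Om → Prop} (hTy : ∀ v w, B.p v ≠ 0 → B.p w ≠ 0 → Z v = Z w → (Ty v ↔ Ty w))
    (hUn : ∀ v w, B.p v ≠ 0 → B.p w ≠ 0 → X v = X w → Z v = Z w → (Un v ↔ Un w)) {k kap : ℝ} (k0 : 0 ≤ k)
    (hN : ∀ w, Q.p w ≠ 0 → Ty w → B.ce Z (fun v => ind (Un v) * Real.exp (f w v)) w ≤ Real.exp k)
    (hk : Q.klc B X Z + Q.I X T Z ≤ kap) :
    Q.E (fun w => ind (Ty w) * (ind (Un w) * f w w)) ≤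
      3 * kap + 2 * Q.Pr (fun w => Ty w ∧ ¬ Un w) + (Real.exp k - 1) := by
  classical
  -- typical, unmoved
  obtain ⟨Ty', hTy1, hTy2⟩ := choice1 (fun w => B.p w ≠ 0) Z Ty (fun v w hv hw e => propext (hTy v w hv hw e))
  obtain ⟨Un', hUn1, hUn2⟩ := choice1 (fun w => B.p w ≠ 0) (fun w => (X w, Z w)) Un (fun v w hv hw e => by
    simp only [Prod.mk.injEq] at e
    exact propext (hUn v w hv hw e.1 e.2))
  -- the test
  have hex : ∀ r, ∃ f' : Om → ℝ, Fac (fun w => (X w, Z w)) f' ∧ ∀ w, B.p w ≠ 0 → f' w = f r w := fun r =>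
    choice1 (fun w => B.p w ≠ 0) (fun w => (X w, Z w)) (f r) (fun v w hv hw e => by
      simp only [Prod.mk.injEq] at e
      exact hf r v w hv hw e.1 e.2)
  choose f' hf1 hf2 using hex
  -- the hint: a point of the support of `Q` with the same hint and the same own letters
  set psi : τ → Om → ℝ := fun x v => if hx : ∃ r, Q.p r ≠ 0 ∧ T r = x ∧ Z r = Z v then f' hx.choose v else 0 with hpsi
  have fpsi : ∀ x, Fac (fun w => (X w, Z w)) (psi x) := by
    intro x a b e
    have e' := e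
    simp only [Prod.mk.injEq] at e'
    simp only [hpsi]
    by_cases hx : ∃ r, Q.p r ≠ 0 ∧ T r = x ∧ Z r = Z a
    · have hx' : ∃ r, Q.p r ≠ 0 ∧ T r = x ∧ Z r = Z b := by
        obtain ⟨r, h1, h2, h3⟩ := hx
        exact ⟨r, h1, h2, h3.trans e'.2⟩
      rw [dif_pos hx, dif_pos hx']
      have e2 : hx.choose = hx'.choose := by
        congr 1
        funext r
        rw [e'.2]
      rw [e2]
      exact hf1 _ a b e
    · have hx' : ¬ ∃ r, Q.p r ≠ 0 ∧ T r = x ∧ Z r = Z b := by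
        rintro ⟨r, h1, h2, h3⟩
        exact hx ⟨r, h1, h2, h3.trans e'.2.symm⟩
      rw [dif_neg hx, dif_neg hx']
  have hval : ∀ w, Q.p w ≠ 0 → ∀ v, B.p v ≠ 0 → Z v = Z w → psi (T w) v = f w v := by
    intro w hw v hv e
    have hx : ∃ r, Q.p r ≠ 0 ∧ T r = T w ∧ Z r = Z v := ⟨w, hw, rfl, e.symm⟩
    simp only [hpsi]
    rw [dif_pos hx]
    obtain ⟨g1, g2, g3⟩ := hx.choose_spec
    rw [hf2 _ v hv]
    exact hr _ _ v g1 hw g2 (g3.trans e) hv g3.symm
  have key := sgn_dv (Q := Q) (B := B) hB X Z T (psi := psi) fpsi hTy1 hUn1 (k := k) (kap := kap) k0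
    (fun w hw hT => by
      have hT' : Ty w := by rw [← hTy2 w (hB w hw)]; exact hT
      refine le_trans (le_of_eq ?_) (hN w hw hT')
      refine ce_sup fun v hv e => ?_
      show ind (Un' v) * Real.exp (psi (T w) v) = ind (Un v) * Real.exp (f w v)
      rw [hUn2 v hv, hval w hw v hv e]) hk
  have e1 : Q.E (fun w => ind (Ty' w) * (ind (Un' w) * psi (T w) w)) =
      Q.E (fun w => ind (Ty w) * (ind (Un w) * f w w)) := by
    refine Q.E_congr fun w hw => ?_
    rw [hTy2 w (hB w hw), hUn2 w (hB w hw), hval w hw w (hB w hw) rfl]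
  have e2 : Q.Pr (fun w => Ty' w ∧ ¬ Un' w) = Q.Pr (fun w => Ty w ∧ ¬ Un w) := by
    refine Q.E_congr fun w hw => ?_
    show ind (Ty' w ∧ ¬ Un' w) = ind (Ty w ∧ ¬ Un w)
    rw [hTy2 w (hB w hw), hUn2 w (hB w hw)]
  rw [e1, e2] at key
  exact key

end

end Pool.Agent.GMH.YL
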