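import Pool.Agent.GMH.KDL
import Pool.Agent.GMH.TabF
import Pool.Agent.GMH.MVIp
import Pool.Agent.GMH.MV1

/-!
# GMH/YL2 (helper36): YOUNG LIVES: THE OTHER POINTS DO NOT MATTER, letters and tops (space with tables)

`si D J univ S n` = hidden point, exact points of `J`, cells of the time `n`, tables `S`.
* `ig` : a function of this sight given a map `M1` of it which sees the node and the exact points of `J ∩ E` : the exact points
  of `E` do not matter; `ig_m` : masses;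
* `LS` : letters of `S`, tops of `A` (which see only points of `S`), points of `S`; `lq_free` : the logarithms of MVdef (all
  points exact) are logarithms of the conditional probabilities given the points of `S`; `Mv1_free` : the moves of the family
  `(S, A)` are seen by `(LS, NP)`.
-/

set_option autoImplicit false
set_option linter.unusedSectionVars false

namespace Pool.Agent.GMH.YL

open Finset Pool.Agent.PWZ Pool.Agent.M3 Pool.Agent.GM Pool.Agent.GM.Harm Pool.Agent.GMH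
open Pool.Agent.GMH.Dy Pool.Agent.GMH.MVIp Pool.Agent.GMH.MVI Pool.Agent.GMH.MV Pool.Agent.GMH.TD
open Pool.Agent.GMH.TabF (si si_eq si_fac)

noncomputable section

variable {X β γ φ : Type} [Fintype X] [Fintype β] [Fintype φ] [Nonempty X] [Nonempty β]
variable {D : HD (Fin 3) X β γ φ} {al : ℝ} {prr : ℕ → Fin 3 → φ → φ} {T : ℕ} {W : Type} [Fintype W]
variable (tb : Tab D prr T W)

theorem sx_si (E S : Finset (Fin 3)) (n : ℕ) :
    Crd.Sg (nx (W := W) D) CC (lv ⊤ (eS S) (eC E fun _ => n)) (si (W := W) D E univ S n) := by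
  rw [sx_iff]
  intro v w
  rw [si_eq, rx_top]
  simp only [rp_eC]
  exact ⟨fun hh => ⟨hh.1, hh.2.1, fun j => ⟨hh.2.2.1 j, hh.2.2.2 j (mem_univ j)⟩⟩,
    fun hh => ⟨hh.1, hh.2.1, fun j => (hh.2.2 j).1, fun j _ => (hh.2.2 j).2⟩⟩

/-- the node and the common exact points: the sight with the tables `S` against other points -/
theorem ig_ci (J E S : Finset (Fin 3)) (n : ℕ) :
    tb.Ps.CI (ndE D (J ∩ E) n) (si D J univ S n) (ndE D E n) := by
  refine Crd.ci (ind_Ps (tb := tb)) (sx_si J S n) (sx_ndE E n) (sx_ndE (J ∩ E) n) fun i => ?_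
  match i with
  | Sum.inl _ => exact (min_top_left _).symm
  | Sum.inr (Sum.inl i) =>
    show eS ∅ i = min (eS S i) (eS ∅ i)
    have h0 : eS ∅ i = 0 := if_neg (Finset.notMem_empty i)
    rw [h0]
    exact (min_eq_right (by simp)).symm
  | Sum.inr (Sum.inr j) =>
    show eC (J ∩ E) (fun _ => n) j = min (eC J (fun _ => n) j) (eC E (fun _ => n) j)
    rw [← min_eC]

theorem si_ndE (J E S : Finset (Fin 3)) (hJ : E ⊆ J) (n : ℕ) : Fac (si (W := W) D J univ S n) (ndE D E n) := fun _ _ e => by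
  have h := si_eq.1 e
  exact ndE_eq.2 ⟨by rw [h.1], fun j hj => h.2.2.1 j (hJ hj), fun j => h.2.2.2 j (mem_univ j)⟩

variable {κ η : Type*} {J E S : Finset (Fin 3)} {n : ℕ} {M1 : Om W X β → κ} {Y : Om W X β → η}

/-- masses with the points of `E` -/
theorem ig_m (h1 : Fac (si D J univ S n) M1) (h2 : Fac M1 (ndE D (J ∩ E) n)) (hY : Fac (ndE D E n) Y) (w : Om W X β) :
    tb.Ps.m (fun u => (Y u, M1 u)) w = tb.Ps.ce (ndE D (J ∩ E) n) (fun u => ind (Y u = Y w)) w * tb.Ps.m M1 w := by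
  set f : Om W X β → ℝ := fun u => ind (Y u = Y w) with hf
  have ff : Fac (ndE D E n) f := Fac.ind fun u v e => by rw [hY u v e]
  have e1 : tb.Ps.m (fun u => (Y u, M1 u)) w = tb.Ps.E (fun u => ind (M1 u = M1 w) * f u) := by
    unfold FP.m
    refine tb.Ps.E_congr fun u _ => ?_
    rw [Prod.mk.injEq, ind_and, mul_comm]
  have e2 : tb.Ps.E (fun u => ind (M1 u = M1 w) * f u) =
      tb.Ps.E (fun u => ind (M1 u = M1 w) * tb.Ps.ce (si D J univ S n) f u) :=
    (tb.Ps.E_mul_ce (Fac.ind fun u v e => by rw [h1 u v e]) f).symm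
  have e3 : tb.Ps.ce (ndE D (J ∩ E) n) f w * tb.Ps.m M1 w =
      tb.Ps.E (fun u => ind (M1 u = M1 w) * tb.Ps.ce (ndE D (J ∩ E) n) f w) := by
    rw [mul_comm]
    unfold FP.m
    rw [← tb.Ps.E_mul_const]
  rw [e1, e2, e3]
  refine tb.Ps.E_congr fun u hu => ?_
  rw [Crd.ce_ci (ig_ci tb J E S n) (si_ndE J (J ∩ E) S Finset.inter_subset_left n) ff hu]
  by_cases hM2 : M1 u = M1 w
  · rw [tb.Ps.ce_fac (ndE D (J ∩ E) n) f u w (h2 u w hM2)]
  · rw [ind_not hM2, zero_mul, zero_mul]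

/-- **the exact points of `E` do not matter** -/
theorem ig (h1 : Fac (si D J univ S n) M1) (h2 : Fac M1 (ndE D (J ∩ E) n)) (hY : Fac (ndE D E n) Y) {f : Om W X β → ℝ}
    (hf : Fac (si D J univ S n) f) {w : Om W X β} (hw : tb.Ps.p w ≠ 0) :
    tb.Ps.ce (fun u => (Y u, M1 u)) f w = tb.Ps.ce M1 f w := by
  set g : Om W X β → ℝ := fun u => ind (Y u = Y w) with hg
  set κ0 := tb.Ps.ce (ndE D (J ∩ E) n) g w with hκ
  have fg : Fac (ndE D E n) g := Fac.ind fun u v e => by rw [hY u v e]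
  have e1 : tb.Ps.E (fun u => ind ((Y u, M1 u) = (Y w, M1 w)) * f u) = κ0 * tb.Ps.E (fun u => ind (M1 u = M1 w) * f u) := by
    have e2 : tb.Ps.E (fun u => ind ((Y u, M1 u) = (Y w, M1 w)) * f u) =
        tb.Ps.E (fun u => (ind (M1 u = M1 w) * f u) * g u) := by
      refine tb.Ps.E_congr fun u _ => ?_
      rw [Prod.mk.injEq, ind_and]
      ring
    have e3 : tb.Ps.E (fun u => (ind (M1 u = M1 w) * f u) * g u) =
        tb.Ps.E (fun u => (ind (M1 u = M1 w) * f u) * tb.Ps.ce (si D J univ S n) g u) :=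
      (tb.Ps.E_mul_ce ((Fac.ind fun u v e => by rw [h1 u v e]).mul hf) g).symm
    rw [e2, e3, ← FP.E_smul]
    refine tb.Ps.E_congr fun u hu => ?_
    rw [Crd.ce_ci (ig_ci tb J E S n) (si_ndE J (J ∩ E) S Finset.inter_subset_left n) fg hu]
    by_cases hM2 : M1 u = M1 w
    · rw [tb.Ps.ce_fac (ndE D (J ∩ E) n) g u w (h2 u w hM2)]
      ring
    · rw [ind_not hM2, zero_mul, zero_mul, mul_zero]
  have e4 := ig_m tb h1 h2 hY w
  have p1 := (tb.Ps.m_pos (fun u => (Y u, M1 u)) hw).ne'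
  have p2 := (tb.Ps.m_pos M1 hw).ne'
  have h3 : κ0 ≠ 0 := by
    intro h4
    rw [hκ] at h4
    rw [h4, zero_mul] at e4
    exact p1 e4
  show tb.Ps.E (fun u => ind ((Y u, M1 u) = (Y w, M1 w)) * f u) / tb.Ps.m (fun u => (Y u, M1 u)) w =
    tb.Ps.E (fun u => ind (M1 u = M1 w) * f u) / tb.Ps.m M1 w
  rw [e1, e4]
  exact mul_div_mul_left _ _ h3

/-! ### letters and tops, without the other points -/

section free

variable {Om : Type} [Fintype Om] (M : MS Om)

open Classical in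
/-- letters of `S` (with their points), tops of `A` -/
def LS (S A : Finset (Fin 3)) (k : ℕ) (w : Om) : (Fin 3 → Option M.lam) × (Fin 3 → Option M.ph) :=
  (fun j => if j ∈ S then some (M.XL j k w) else Option.none, fun i => if i ∈ A then some (M.TF i k w) else Option.none)

open Classical in
/-- points of `S` -/
def YS (S : Finset (Fin 3)) (w : Om) : Fin 3 → Option M.η := fun j => if j ∈ S then some (M.YP j w) else Option.none

variable {M}

theorem LS_eq {S A : Finset (Fin 3)} {k : ℕ} {a b : Om} : LS M S A k a = LS M S A k b ↔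
    (∀ j ∈ S, M.XL j k a = M.XL j k b) ∧ ∀ i ∈ A, M.TF i k a = M.TF i k b := by
  classical
  unfold LS
  rw [Prod.mk.injEq]
  constructor
  · rintro ⟨h1, h2⟩
    refine ⟨fun j hj => ?_, fun i hi => ?_⟩
    · have h3 := congrFun h1 j
      simp only [if_pos hj] at h3
      exact Option.some.inj h3
    · have h3 := congrFun h2 i
      simp only [if_pos hi] at h3
      exact Option.some.inj h3
  · rintro ⟨h1, h2⟩
    refine ⟨funext fun j => ?_, funext fun i => ?_⟩
    · by_cases hj : j ∈ S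
      · simp only [if_pos hj, h1 j hj]
      · simp only [if_neg hj]
    · by_cases hi : i ∈ A
      · simp only [if_pos hi, h2 i hi]
      · simp only [if_neg hi]

theorem YS_eq {S : Finset (Fin 3)} {a b : Om} : YS M S a = YS M S b ↔ ∀ j ∈ S, M.YP j a = M.YP j b := by
  classical
  unfold YS
  constructor
  · intro h j hj
    have h3 := congrFun h j
    simp only [if_pos hj] at h3
    exact Option.some.inj h3
  · intro h
    funext j
    by_cases hj : j ∈ S
    · simp only [if_pos hj, h j hj]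
    · simp only [if_neg hj]

theorem XL_le' (v : Fin 3) {j k : ℕ} (hjk : j ≤ k) : Fac (M.XL v k) (M.XL v j) := by
  induction k, hjk using Nat.le_induction with
  | base => exact Fac.refl _
  | succ k _ ih => exact fun a b hab => ih a b (M.hX v k a b hab)

theorem TF_le' (v : Fin 3) {j k : ℕ} (hjk : j ≤ k) : Fac (M.TF v k) (M.TF v j) := by
  induction k, hjk using Nat.le_induction with
  | base => exact Fac.refl _
  | succ k _ ih => exact fun a b hab => ih a b (M.hT v k a b hab)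

theorem LS_le {S A : Finset (Fin 3)} {j k : ℕ} (hjk : j ≤ k) : Fac (LS M S A k) (LS M S A j) := fun a b e => by
  have h := LS_eq.1 e
  exact LS_eq.2 ⟨fun i hi => XL_le' i hjk a b (h.1 i hi), fun i hi => TF_le' i hjk a b (h.2 i hi)⟩

theorem LS_YS {S A : Finset (Fin 3)} {k : ℕ} : Fac (LS M S A k) (YS M S) := fun a b e =>
  YS_eq.2 fun j hj => M.hXY j k a b ((LS_eq.1 e).1 j hj)

theorem LF_LS {S A : Finset (Fin 3)} {k : ℕ} {a b : Om} : LF M (S, A) k a = LF M (S, A) k b ↔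
    LS M S A k a = LS M S A k b ∧ YF M (S, A) a = YF M (S, A) b := by
  rw [MVI.LF_eq, LS_eq]
  tauto

end free

section run

variable {υ : Type} {v : ℕ → Finset (Fin 3) → X → (Fin 3 → β) → υ}

/-- the data `M` see the space with tables like `MVI.MSi` -/
structure Ro (tb : Tab D prr T W) (v : ℕ → Finset (Fin 3) → X → (Fin 3 → β) → υ) (M : MS (Om W X β)) : Prop where
  P : M.P = tb.Ps
  N : ∀ s a b, M.NP s a = M.NP s b ↔ NPo tb v s a = NPo tb v s b
  X : ∀ i s a b, M.XL i s a = M.XL i s b ↔ XLo tb v i s a = XLo tb v i s b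
  Y : ∀ i a b, M.YP i a = M.YP i b ↔ a.2.2 i = b.2.2 i
  T : ∀ i s a b, M.TF i s a = M.TF i s b ↔ TFo tb i s a = TFo tb i s b
  cd : ∀ s, M.cd s ↔ s % 5 ≠ 0

theorem ro_MSi (tb : Tab D prr T W) (v : ℕ → Finset (Fin 3) → X → (Fin 3 → β) → υ) {d1 kb d0 k0 p1 z : ℝ} (hd1 : 0 < d1)
    (hd11 : d1 ≤ 1) (hkb : 0 < kb) (hd0 : 0 < d0) (hd01 : d0 ≤ 1) (hk0 : 0 < k0) (hp1 : 0 < p1) (hz : 0 < z) :
    Ro tb v (MSi tb (v := v) d1 kb d0 k0 p1 z hd1 hd11 hkb hd0 hd01 hk0 hp1 hz) where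
  P := rfl
  N := fun _ _ _ => Iff.rfl
  X := fun _ _ _ _ => Iff.rfl
  Y := fun _ _ _ => Iff.rfl
  T := fun _ _ _ _ => Iff.rfl
  cd := fun _ => Iff.rfl

variable {tb} {M : MS (Om W X β)}

theorem Ro.YF (hM : Ro tb v M) {i : Finset (Fin 3) × Finset (Fin 3)} {a b : Om W X β} :
    MV.YF M i a = MV.YF M i b ↔ a.2.2 = b.2.2 := by
  unfold MV.YF
  rw [funext_iff, funext_iff]
  exact forall_congr' fun j => hM.Y j a b

/-- the sight which sees letters and tops -/
theorem Ro.see (hM : Ro tb v M) (hv : Codes D v) {S A : Finset (Fin 3)} (hA : ∀ i ∈ A, univ.erase i ⊆ S) {k n : ℕ}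
    (hn : TP.nn k ≤ n) : Fac (si D S univ A n) (LS M S A k) := by
  intro a b e
  have e' := si_eq.1 e
  refine LS_eq.2 ⟨fun j hj => ?_, fun i hi => ?_⟩
  · refine (hM.X j k a b).2 (XLq_sgt tb hv (q := k) (n := n) (i := j) ?_ (E := S) hj 0 a b
      (TabF.fac_sgt S A (Finset.Subset.refl S) n a b e))
    exact (TP.nc_le k {j}).trans (Nat.succ_le_succ hn)
  · refine (hM.T i k a b).2 (funext fun t => ?_)
    unfold TFo
    by_cases h : t ≤ k / 5 ∧ t ≤ T
    · rw [if_pos h, if_pos h, e'.1, e'.2.1 i hi, tb.dep t i (b.2.1 i) b.1 a.2.2 b.2.2 (fun j hj => e'.2.2.1 j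
        (hA i hi (Finset.mem_erase.2 ⟨hj, mem_univ j⟩)))
        (Dy.qb_mono (h.1.trans ((TP.nn_le k).trans hn)) (e'.2.2.2 i (mem_univ i)))]
    · rw [if_neg h, if_neg h]

theorem Ro.seeN (hM : Ro tb v M) (hv : Codes D v) (m : ℕ) {n : ℕ} (hn : TP.nn m ≤ n) (S A : Finset (Fin 3)) :
    Fac (si (W := W) D S univ A n) (M.NP m) := fun a b e => by
  refine (hM.N m a b).2 (NPq_sgt tb hv hn ((TP.nc_le m ∅).trans (Nat.succ_le_succ hn)) ∅ 0 a b
    (TabF.fac_sgt S A (Finset.empty_subset S) n a b e))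

theorem Ro.nd (hM : Ro tb v M) (m : ℕ) : Fac (M.NP m) (ndE D ∅ (TP.nn m)) := fun a b e =>
  NPq_ndE tb m 0 a b ((hM.N m a b).1 e)

/-- **the other points do not matter** -/
theorem Ro.free (hM : Ro tb v M) (hv : Codes D v) {S A : Finset (Fin 3)} (hA : ∀ i ∈ A, univ.erase i ⊆ S) {k m : ℕ}
    (hkm : k ≤ m) {w : Om W X β} (hw : tb.Ps.p w ≠ 0) :
    M.P.m (fun u => (LF M (S, A) k u, M.NP m u)) w / M.P.m (fun u => (MV.YF M (S, A) u, M.NP m u)) w =
      M.P.m (fun u => (LS M S A k u, M.NP m u)) w / M.P.m (fun u => (YS M S u, M.NP m u)) w := by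
  rw [hM.P]
  set Y : Om W X β → Fin 3 → β := fun u => u.2.2 with hY
  have fY : Fac (ndE D univ (TP.nn m)) Y := fun a b e => funext fun j => (ndE_eq.1 e).2.1 j (mem_univ j)
  have c1 : tb.Ps.m (fun u => (LF M (S, A) k u, M.NP m u)) w =
      tb.Ps.m (fun u => (Y u, (LS M S A k u, M.NP m u))) w := by
    refine tb.Ps.m_congr ?_ ?_ w
    · intro a b e
      have h1 := LF_LS.1 (Prod.mk.inj e).1
      exact Prod.ext (hM.YF.1 h1.2) (Prod.ext h1.1 (Prod.mk.inj e).2)
    · intro a b e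
      have h1 := Prod.mk.inj e
      have h2 := Prod.mk.inj h1.2
      exact Prod.ext (LF_LS.2 ⟨h2.1, hM.YF.2 h1.1⟩) h2.2
  have c2 : tb.Ps.m (fun u => (MV.YF M (S, A) u, M.NP m u)) w = tb.Ps.m (fun u => (Y u, (YS M S u, M.NP m u))) w := by
    refine tb.Ps.m_congr ?_ ?_ w
    · intro a b e
      have h1 := Prod.mk.inj e
      have h2 := hM.YF.1 h1.1
      exact Prod.ext h2 (Prod.ext (YS_eq.2 fun j _ => (hM.Y j a b).2 (congrFun h2 j)) h1.2)
    · intro a b e
      have h1 := Prod.mk.inj e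
      exact Prod.ext ((hM.YF (i := (S, A))).2 h1.1) (Prod.mk.inj h1.2).2
  have n1 : Fac (fun u => (LS M S A k u, M.NP m u)) (ndE D (S ∩ univ) (TP.nn m)) := fun a b e => by
    have h1 := Prod.mk.inj e
    have h2 := ndE_eq.1 (hM.nd m a b h1.2)
    refine ndE_eq.2 ⟨h2.1, fun j hj => ?_, h2.2.2⟩
    exact (hM.Y j a b).1 (YS_eq.1 (LS_YS a b h1.1) j (Finset.mem_inter.1 hj).1)
  have n2 : Fac (fun u => (YS M S u, M.NP m u)) (ndE D (S ∩ univ) (TP.nn m)) := fun a b e => by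
    have h1 := Prod.mk.inj e
    have h2 := ndE_eq.1 (hM.nd m a b h1.2)
    refine ndE_eq.2 ⟨h2.1, fun j hj => ?_, h2.2.2⟩
    exact (hM.Y j a b).1 (YS_eq.1 h1.1 j (Finset.mem_inter.1 hj).1)
  have g1 : Fac (si D S univ A (TP.nn m)) (fun u => (LS M S A k u, M.NP m u)) := fun a b e =>
    Prod.ext (hM.see hv hA (TP.nn_mono hkm) a b e) (hM.seeN hv m le_rfl S A a b e)
  have g2 : Fac (si (W := W) D S univ A (TP.nn m)) (fun u => (YS M S u, M.NP m u)) := fun a b e =>
    Prod.ext (YS_eq.2 fun j hj => (hM.Y j a b).2 ((si_eq.1 e).2.2.1 j hj)) (hM.seeN hv m le_rfl S A a b e)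
  have i1 := ig_m tb g1 n1 fY w
  have i2 := ig_m tb g2 n2 fY w
  rw [c1, c2, i1, i2]
  have p1 := tb.Ps.m_pos (fun u => (Y u, (YS M S u, M.NP m u))) hw
  rw [i2] at p1
  have h3 : tb.Ps.ce (ndE D (S ∩ univ) (TP.nn m)) (fun u => ind (Y u = Y w)) w ≠ 0 := by
    intro h4
    rw [h4, zero_mul] at p1
    exact lt_irrefl _ p1
  exact mul_div_mul_left _ _ h3

/-- logarithms without the other points -/
def lqS (M : MS (Om W X β)) (S A : Finset (Fin 3)) (k m : ℕ) (w : Om W X β) : ℝ :=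
  Real.log (M.P.m (fun u => (LS M S A k u, M.NP m u)) w / M.P.m (fun u => (YS M S u, M.NP m u)) w)

theorem lqS_fac {S A : Finset (Fin 3)} {k m : ℕ} {a b : Om W X β} (h1 : LS M S A k a = LS M S A k b)
    (h2 : M.NP m a = M.NP m b) : lqS M S A k m a = lqS M S A k m b := by
  unfold lqS
  rw [M.P.Fac_m (fun u => (LS M S A k u, M.NP m u)) a b (Prod.ext h1 h2),
    M.P.Fac_m (fun u => (YS M S u, M.NP m u)) a b (Prod.ext (LS_YS a b h1) h2)]

theorem Ro.lq (hM : Ro tb v M) (hv : Codes D v) {S A : Finset (Fin 3)} (hA : ∀ i ∈ A, univ.erase i ⊆ S) (k : ℕ)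
    {w : Om W X β} (hw : tb.Ps.p w ≠ 0) : lq M.P M.NP (LF M (S, A)) (MV.YF M (S, A)) k w = lqS M S A k k w :=
  congrArg Real.log (hM.free hv hA le_rfl hw)

theorem Ro.lqn (hM : Ro tb v M) (hv : Codes D v) {S A : Finset (Fin 3)} (hA : ∀ i ∈ A, univ.erase i ⊆ S) (k : ℕ)
    {w : Om W X β} (hw : tb.Ps.p w ≠ 0) : lqn M.P M.NP (LF M (S, A)) (MV.YF M (S, A)) k w = lqS M S A k (k + 1) w :=
  congrArg Real.log (hM.free hv hA (Nat.le_succ k) hw)

/-- **the moves of the family `(S, A)` are seen by its letters and the public information** -/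
theorem Ro.mv (hM : Ro tb v M) (hv : Codes D v) {S A : Finset (Fin 3)} (hA : ∀ i ∈ A, univ.erase i ⊆ S) {δ : ℝ} {ν k : ℕ}
    {a b : Om W X β} (ha : tb.Ps.p a ≠ 0) (hb : tb.Ps.p b ≠ 0) (h1 : LS M S A k a = LS M S A k b)
    (h2 : M.NP k a = M.NP k b) : Mv1 M.P M.NP (LF M (S, A)) (MV.YF M (S, A)) δ ν k a ↔
      Mv1 M.P M.NP (LF M (S, A)) (MV.YF M (S, A)) δ ν k b := by
  have ea : ∀ l ∈ Ico ν k, ai M.P M.NP (LF M (S, A)) (MV.YF M (S, A)) l a = ai M.P M.NP (LF M (S, A)) (MV.YF M (S, A)) l b := by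
    intro l hl
    have hl2 := (mem_Ico.1 hl).2
    unfold ai
    rw [hM.lqn hv hA l ha, hM.lqn hv hA l hb, hM.lq hv hA l ha, hM.lq hv hA l hb,
      lqS_fac (LS_le hl2.le a b h1) (NP_le M (show l + 1 ≤ k by omega) a b h2),
      lqS_fac (LS_le hl2.le a b h1) (NP_le M hl2.le a b h2)]
  have eb : ∀ l ∈ Ico ν k, bi M.P M.NP (LF M (S, A)) (MV.YF M (S, A)) l a = bi M.P M.NP (LF M (S, A)) (MV.YF M (S, A)) l b := by
    intro l hl
    have hl2 := (mem_Ico.1 hl).2
    unfold bi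
    rw [hM.lqn hv hA l ha, hM.lqn hv hA l hb, hM.lq hv hA (l + 1) ha, hM.lq hv hA (l + 1) hb,
      lqS_fac (LS_le hl2.le a b h1) (NP_le M (show l + 1 ≤ k by omega) a b h2),
      lqS_fac (LS_le (show l + 1 ≤ k by omega) a b h1) (NP_le M (show l + 1 ≤ k by omega) a b h2)]
  unfold Mv1
  rw [sum_congr rfl ea, sum_congr rfl eb]

end run

end

end Pool.Agent.GMH.YL
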