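import Pool.Agent.GMH.KDL
import Pool.Agent.GMH.MV1

/-!
# GMH/YL3 (helper36): YOUNG LIVES: UNMOVED TUPLES AND OLD TABLES

Family `(S, A)` of letters of `S` and tops of `A`, public class, `ν ≤ e ≤ s`.
* `uniq` : two tuples with births below `1/2` which have the same letters at `e` and the same public information at `s` have the
  same letters at `s`;
* `lt_two` : the tables of an unmoved tuple at `e` and `s` differ by at most `8 d0`;
* **`norm_tr`** : the exponential moment of a test of the old tables over the unmoved tuples, law of the time `s`, is at most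
  `e^(8 d0)` times the moment for the law of the time `e`.
-/

set_option autoImplicit false
set_option linter.unusedSectionVars false

namespace Pool.Agent.GMH.YL

open Finset Pool.Agent.PWZ Pool.Agent.M3 Pool.Agent.GMH Pool.Agent.GMH.TD Pool.Agent.GMH.MV Pool.Agent.GMH.CK
open Pool.Agent.GMH.KDL
open Pool.Agent.GMH.MVI (LF_fac LF_eq)

noncomputable section

variable {Om : Type} [Fintype Om]

/-- means in two variables -/
theorem E_swap (P : FP Om) (f : Om → Om → ℝ) : P.E (fun u => P.E (fun x => f u x)) = P.E (fun x => P.E (fun u => f u x)) := by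
  unfold FP.E
  simp only [Finset.mul_sum]
  rw [Finset.sum_comm]
  refine Finset.sum_congr rfl fun x _ => Finset.sum_congr rfl fun u _ => ?_
  ring

section one

variable {κ lam η : Type*} {P : FP Om} {N : ℕ → Om → κ} {L : ℕ → Om → lam} {Y : Om → η}

/-- one birth is below the sum -/
theorem bi_le_sum (hL : ∀ k, Fac (L (k + 1)) (L k)) {ν s k : ℕ} (h1 : ν ≤ k) (h2 : k < s) {w : Om} (hw : P.p w ≠ 0) :
    bi P N L Y k w ≤ ∑ j ∈ Ico ν s, bi P N L Y j w :=
  Finset.single_le_sum (f := fun j => bi P N L Y j w) (fun j _ => bi_nonneg P hL j hw) (Finset.mem_Ico.2 ⟨h1, h2⟩)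

/-- **two tuples with small births** -/
theorem uniq (hN : ∀ k, Fac (N (k + 1)) (N k)) (hL : ∀ k, Fac (L (k + 1)) (L k)) {ν e s : ℕ} (h1 : ν ≤ e) (h2 : e ≤ s)
    {a b : Om} (ha : P.p a ≠ 0) (hb : P.p b ≠ 0) (ba : ∑ j ∈ Ico ν s, bi P N L Y j a ≤ 1 / 2)
    (bb : ∑ j ∈ Ico ν s, bi P N L Y j b ≤ 1 / 2) (eN : N s a = N s b) (eL : L e a = L e b) : L s a = L s b := by
  have hNle : ∀ j k, j ≤ k → Fac (N k) (N j) := by
    intro j k hjk
    induction k, hjk using Nat.le_induction with
    | base => exact Fac.refl _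
    | succ k _ ih => exact fun x y e => ih x y (hN k x y e)
  have key : ∀ k, e ≤ k → k ≤ s → L k a = L k b := by
    intro k hk
    induction k, hk using Nat.le_induction with
    | base => exact fun _ => eL
    | succ k hk ih =>
      intro hks
      have e0 := ih (by omega)
      by_contra hne
      have eN1 : N (k + 1) a = N (k + 1) b := hNle (k + 1) s hks a b eN
      set x := P.m (fun u => (L (k + 1) u, N (k + 1) u)) a with hx
      set y := P.m (fun u => (L (k + 1) u, N (k + 1) u)) b with hy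
      set z := P.m (fun u => (L k u, N (k + 1) u)) a with hz
      have hx0 : 0 < x := P.m_pos _ ha
      have hy0 : 0 < y := P.m_pos _ hb
      have hz0 : 0 < z := P.m_pos _ ha
      have ez : P.m (fun u => (L k u, N (k + 1) u)) b = z :=
        P.Fac_m (fun u => (L k u, N (k + 1) u)) b a (Prod.ext e0.symm eN1.symm)
      have hxy : x + y ≤ z := by
        rw [hx, hy, hz]
        unfold FP.m
        rw [← P.E_add]
        refine P.E_mono fun u _ => ?_
        by_cases g1 : (L (k + 1) u, N (k + 1) u) = (L (k + 1) a, N (k + 1) a)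
        · have g2 : ¬ (L (k + 1) u, N (k + 1) u) = (L (k + 1) b, N (k + 1) b) := fun h =>
            hne (((Prod.mk.inj g1).1).symm.trans (Prod.mk.inj h).1)
          have g3 : (L k u, N (k + 1) u) = (L k a, N (k + 1) a) :=
            Prod.ext (hL k u a (Prod.mk.inj g1).1) (Prod.mk.inj g1).2
          show ind ((L (k + 1) u, N (k + 1) u) = (L (k + 1) a, N (k + 1) a)) +
            ind ((L (k + 1) u, N (k + 1) u) = (L (k + 1) b, N (k + 1) b)) ≤ ind ((L k u, N (k + 1) u) = (L k a, N (k + 1) a))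
          rw [ind_of g1, ind_not g2, ind_of g3, add_zero]
        · show ind ((L (k + 1) u, N (k + 1) u) = (L (k + 1) a, N (k + 1) a)) +
            ind ((L (k + 1) u, N (k + 1) u) = (L (k + 1) b, N (k + 1) b)) ≤ ind ((L k u, N (k + 1) u) = (L k a, N (k + 1) a))
          rw [ind_not g1, zero_add]
          refine ind_mono fun h => ?_
          have h3 := Prod.mk.inj h
          exact Prod.ext ((hL k u b h3.1).trans e0.symm) (h3.2.trans eN1.symm)
      have l2 : (1 : ℝ) / 2 < Real.log 2 := by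
        have := Real.log_two_gt_d9
        linarith
      have b1 := bi_le_sum (P := P) (N := N) (Y := Y) hL (show ν ≤ k by omega) (show k < s by omega) ha
      have b2 := bi_le_sum (P := P) (N := N) (Y := Y) hL (show ν ≤ k by omega) (show k < s by omega) hb
      rw [bi_log8 P k ha] at b1
      rw [bi_log8 P k hb, ez] at b2
      have c1 : z / x < 2 := by
        by_contra hc
        have := Real.log_le_log (by norm_num) (not_lt.1 hc)
        linarith
      have c2 : z / y < 2 := by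
        by_contra hc
        have := Real.log_le_log (by norm_num) (not_lt.1 hc)
        linarith
      rw [div_lt_iff₀ hx0] at c1
      rw [div_lt_iff₀ hy0] at c2
      linarith
  exact key s h2 le_rfl

end one

variable (M : MS Om)

/-- the family `(S, A)` has not moved in the public class at the times `e`, `s` -/
def Unm (S A : Finset (Fin 3)) (ν e s : ℕ) (w : Om) : Prop :=
  (¬ Mv1 M.P M.NP (LF M (S, A)) (YF M (S, A)) M.d0 ν s w ∧ ¬ Mv1 M.P M.NP (LF M (S, ∅)) (YF M (S, ∅)) M.d0 ν s w) ∧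
  ¬ Mv1 M.P M.NP (LF M (S, A)) (YF M (S, A)) M.d0 ν e w ∧ ¬ Mv1 M.P M.NP (LF M (S, ∅)) (YF M (S, ∅)) M.d0 ν e w

variable {M}

/-- an unlisted tuple is unmoved -/
theorem unm_of {S A : Finset (Fin 3)} {ν e s : ℕ} (h1 : ν ≤ e) (h2 : e ≤ s) {w : Om} (h : ¬ Lst M ν s w) :
    Unm M S A ν e s w := by
  have h0 : ¬ Evm M.P M.NP (LF M) (YF M) M.d0 ν s w := fun hh => h (Or.inl hh)
  have h3 : ¬ Evm M.P M.NP (LF M) (YF M) M.d0 ν e w := fun hh => h0 (Evm_mono h2 hh)
  exact ⟨⟨not_Mv1 M.hd0 (h1.trans h2) h0 (S, A), not_Mv1 M.hd0 (h1.trans h2) h0 (S, ∅)⟩,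
    not_Mv1 M.hd0 h1 h3 (S, A), not_Mv1 M.hd0 h1 h3 (S, ∅)⟩

/-- the tables of an unmoved tuple -/
theorem lt_two {S A : Finset (Fin 3)} {ν e s : ℕ} (h1 : ν ≤ e) (h2 : e ≤ s) {w : Om} (hw : M.P.p w ≠ 0)
    (h : Unm M S A ν e s w) : |lt M S A s w - lt M S A e w| ≤ 8 * M.d0 := by
  have a1 := abs_le.1 (lq_unm (P := M.P) (N := M.NP) (L := LF M (S, A)) (Y := YF M (S, A)) (LF_fac (S, A)) (h1.trans h2) hw h.1.1)
  have a2 := abs_le.1 (lq_unm (P := M.P) (N := M.NP) (L := LF M (S, ∅)) (Y := YF M (S, ∅)) (LF_fac (S, ∅)) (h1.trans h2) hw h.1.2)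
  have a3 := abs_le.1 (lq_unm (P := M.P) (N := M.NP) (L := LF M (S, A)) (Y := YF M (S, A)) (LF_fac (S, A)) h1 hw h.2.1)
  have a4 := abs_le.1 (lq_unm (P := M.P) (N := M.NP) (L := LF M (S, ∅)) (Y := YF M (S, ∅)) (LF_fac (S, ∅)) h1 hw h.2.2)
  rw [lt_pub hw, lt_pub hw, abs_le]
  constructor <;> linarith [a1.1, a1.2, a2.1, a2.2, a3.1, a3.2, a4.1, a4.2]

/-- **the exponential moment over the unmoved tuples** -/
theorem norm_tr {S A : Finset (Fin 3)} {ν e s : ℕ} (h1 : ν ≤ e) (h2 : e ≤ s) (hd : M.d0 ≤ 1 / 2) {ψ : Om → ℝ}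
    (hψ : ∀ a b, M.P.p a ≠ 0 → M.P.p b ≠ 0 → LF M (S, A) e a = LF M (S, A) e b → M.NP e a = M.NP e b → ψ a = ψ b)
    {Un : Om → Prop} (hUn : ∀ w, M.P.p w ≠ 0 → Un w → Unm M S A ν e s w) {w0 : Om} (hw0 : M.P.p w0 ≠ 0) :
    M.P.ce (fun u => (LF M (S, ∅) s u, M.NP s u)) (fun u => ind (Un u) * Real.exp (ψ u)) w0 ≤
      Real.exp (8 * M.d0) * M.P.ce (fun u => (LF M (S, ∅) e u, M.NP e u)) (fun u => Real.exp (ψ u)) w0 := by
  have hNle : ∀ j k, j ≤ k → Fac (M.NP k) (M.NP j) := fun j k hjk => NP_le M hjk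
  have hLle : ∀ (i : Finset (Fin 3) × Finset (Fin 3)) (j k : ℕ), j ≤ k → Fac (LF M i k) (LF M i j) := fun i j k hjk => LF_le M i hjk
  set P := M.P with hP
  set Zs : Om → _ := fun u => (LF M (S, ∅) s u, M.NP s u) with hZs
  set Ze : Om → _ := fun u => (LF M (S, ∅) e u, M.NP e u) with hZe
  set Fs : Om → _ := fun u => (LF M (S, A) s u, M.NP s u) with hFs
  set Fe : Om → _ := fun u => (LF M (S, A) e u, M.NP e u) with hFe
  have fZ : Fac Zs Ze := fun a b h => Prod.ext (hLle (S, ∅) e s h2 a b (Prod.mk.inj h).1) (hNle e s h2 a b (Prod.mk.inj h).2)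
  have fFZ : Fac Fe Ze := fun a b h => by
    have g := Prod.mk.inj h
    refine Prod.ext (LF_eq.2 ⟨(LF_eq.1 g.1).1, fun j hj => absurd hj (Finset.notMem_empty j), (LF_eq.1 g.1).2.2⟩) g.2
  have mZs := P.m_pos Zs hw0
  have mZe := P.m_pos Ze hw0
  set G : Om → ℝ := fun u => ind (Zs u = Zs w0) * (ind (Un u) * Real.exp (ψ u)) with hG
  have G0 : ∀ u, 0 ≤ G u := fun u => mul_nonneg (ind_nonneg _) (mul_nonneg (ind_nonneg _) (Real.exp_pos _).le)
  -- pointwise
  have step1 : ∀ u, P.p u ≠ 0 → G u * (1 / P.m Zs w0) ≤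
      Real.exp (8 * M.d0) * (1 / P.m Ze w0) * (G u * (1 / P.m Fs u) * P.m Fe u) := by
    intro u hu
    have ps := P.m_pos Fs hu
    have pe := P.m_pos Fe hu
    by_cases g1 : Zs u = Zs w0
    · by_cases g2 : Un u
      · have e1 : P.m Zs u = P.m Zs w0 := P.Fac_m Zs u w0 g1
        have e2 : P.m Ze u = P.m Ze w0 := P.Fac_m Ze u w0 (fZ u w0 g1)
        have g3 := (abs_le.1 (lt_two h1 h2 hu (hUn u hu g2))).2
        have g4 : Real.log (P.m Fs u / P.m Zs u) ≤ 8 * M.d0 + Real.log (P.m Fe u / P.m Ze u) := by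
          have : lt M S A s u - lt M S A e u ≤ 8 * M.d0 := g3
          unfold lt at this
          linarith
        rw [e1, e2] at g4
        have g5 : P.m Fs u / P.m Zs w0 ≤ Real.exp (8 * M.d0) * (P.m Fe u / P.m Ze w0) := by
          have g6 := Real.exp_le_exp.2 g4
          rw [Real.exp_add, Real.exp_log (div_pos ps mZs), Real.exp_log (div_pos pe mZe)] at g6
          exact g6
        have g7 : 1 / P.m Zs w0 ≤ Real.exp (8 * M.d0) * (1 / P.m Ze w0) * (1 / P.m Fs u * P.m Fe u) := by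
          have g8 := mul_le_mul_of_nonneg_left g5 (one_div_pos.2 ps).le
          have g9 : 1 / P.m Fs u * (P.m Fs u / P.m Zs w0) = 1 / P.m Zs w0 := by field_simp
          rw [g9] at g8
          refine g8.trans (le_of_eq ?_)
          field_simp
        have g10 := mul_le_mul_of_nonneg_left g7 (G0 u)
        refine g10.trans (le_of_eq ?_)
        ring
      · have : G u = 0 := by simp only [hG, ind_not g2, zero_mul, mul_zero]
        rw [this]
        simp
    · have : G u = 0 := by simp only [hG, ind_not g1, zero_mul]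
      rw [this]
      simp
  -- one old letter
  have step2 : ∀ x, P.p x ≠ 0 → P.E (fun u => G u * (1 / P.m Fs u) * ind (Fe x = Fe u)) ≤
      ind (Ze x = Ze w0) * Real.exp (ψ x) := by
    intro x hx
    by_cases hex : ∃ u, P.p u ≠ 0 ∧ (Zs u = Zs w0 ∧ Un u) ∧ Fe x = Fe u
    · obtain ⟨u0, hu0, ⟨q1, q2⟩, q3⟩ := hex
      have q4 : Ze x = Ze w0 := (fFZ x u0 q3).trans (fZ u0 w0 q1)
      have ps0 := P.m_pos Fs hu0
      rw [ind_of q4, one_mul]
      have q5 : P.E (fun u => G u * (1 / P.m Fs u) * ind (Fe x = Fe u)) ≤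
          P.E (fun u => (Real.exp (ψ x) * (1 / P.m Fs u0)) * ind (Fs u = Fs u0)) := by
        refine P.E_mono fun u hu => ?_
        by_cases r1 : (Zs u = Zs w0 ∧ Un u) ∧ Fe x = Fe u
        · have r2 : Fs u = Fs u0 := by
            have r3 : M.NP s u = M.NP s u0 := (Prod.mk.inj (r1.1.1.trans q1.symm)).2
            have r4 : LF M (S, A) e u = LF M (S, A) e u0 := (Prod.mk.inj (r1.2.symm.trans q3)).1
            have b1 : ∑ j ∈ Ico ν s, bi P M.NP (LF M (S, A)) (YF M (S, A)) j u ≤ 1 / 2 := by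
              have : ¬ M.d0 ≤ ∑ j ∈ Ico ν s, bi P M.NP (LF M (S, A)) (YF M (S, A)) j u := fun hc =>
                (hUn u hu r1.1.2).1.1 (Or.inr hc)
              linarith [not_le.1 this]
            have b2 : ∑ j ∈ Ico ν s, bi P M.NP (LF M (S, A)) (YF M (S, A)) j u0 ≤ 1 / 2 := by
              have : ¬ M.d0 ≤ ∑ j ∈ Ico ν s, bi P M.NP (LF M (S, A)) (YF M (S, A)) j u0 := fun hc =>
                (hUn u0 hu0 q2).1.1 (Or.inr hc)
              linarith [not_le.1 this]
            exact Prod.ext (uniq (P := P) (N := M.NP) (L := LF M (S, A)) (Y := YF M (S, A)) M.hN (LF_fac (S, A)) h1 h2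
              hu hu0 b1 b2 r3 r4) r3
          have r5 : ψ u = ψ x := (hψ x u hx hu (Prod.mk.inj r1.2).1 (Prod.mk.inj r1.2).2).symm
          have r6 : P.m Fs u = P.m Fs u0 := P.Fac_m Fs u u0 r2
          show ind (Zs u = Zs w0) * (ind (Un u) * Real.exp (ψ u)) * (1 / P.m Fs u) * ind (Fe x = Fe u) ≤ _
          rw [ind_of r1.1.1, ind_of r1.1.2, ind_of r1.2, ind_of r2, r5, r6]
          simp
        · have r2 : G u * (1 / P.m Fs u) * ind (Fe x = Fe u) = 0 := by
            by_cases r3 : Fe x = Fe u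
            · have r4 : ¬ (Zs u = Zs w0 ∧ Un u) := fun hh => r1 ⟨hh, r3⟩
              have r5 : G u = 0 := by
                simp only [hG]
                by_cases r6 : Zs u = Zs w0
                · rw [ind_not (fun hh => r4 ⟨r6, hh⟩ : ¬ Un u), zero_mul, mul_zero]
                · rw [ind_not r6, zero_mul]
              rw [r5]
              simp
            · rw [ind_not r3, mul_zero]
          rw [r2]
          exact mul_nonneg (mul_nonneg (Real.exp_pos _).le (one_div_pos.2 ps0).le) (ind_nonneg _)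
      refine q5.trans (le_of_eq ?_)
      rw [P.E_smul]
      have : P.E (fun u => ind (Fs u = Fs u0)) = P.m Fs u0 := rfl
      rw [this]
      field_simp
    · have : P.E (fun u => G u * (1 / P.m Fs u) * ind (Fe x = Fe u)) = 0 := by
        rw [← P.E_const 0]
        refine P.E_congr fun u hu => ?_
        by_cases r3 : Fe x = Fe u
        · have r5 : G u = 0 := by
            simp only [hG]
            by_cases r6 : Zs u = Zs w0
            · rw [ind_not (fun hh => hex ⟨u, hu, ⟨r6, hh⟩, r3⟩ : ¬ Un u), zero_mul, mul_zero]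
            · rw [ind_not r6, zero_mul]
          rw [r5]
          simp
        · rw [ind_not r3, mul_zero]
      rw [this]
      exact mul_nonneg (ind_nonneg _) (Real.exp_pos _).le
  -- together
  have t1 : P.ce Zs (fun u => ind (Un u) * Real.exp (ψ u)) w0 = P.E (fun u => G u * (1 / P.m Zs w0)) := by
    unfold FP.ce
    rw [P.E_mul_const, div_eq_mul_one_div]
  have t2 : P.E (fun u => G u * (1 / P.m Zs w0)) ≤
      P.E (fun u => Real.exp (8 * M.d0) * (1 / P.m Ze w0) * (G u * (1 / P.m Fs u) * P.m Fe u)) := P.E_mono step1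
  have t3 : P.E (fun u => G u * (1 / P.m Fs u) * P.m Fe u) =
      P.E (fun x => P.E (fun u => G u * (1 / P.m Fs u) * ind (Fe x = Fe u))) := by
    rw [← E_swap]
    refine P.E_congr fun u _ => ?_
    rw [P.E_smul]
    rfl
  have t4 : P.E (fun x => P.E (fun u => G u * (1 / P.m Fs u) * ind (Fe x = Fe u))) ≤
      P.E (fun x => ind (Ze x = Ze w0) * Real.exp (ψ x)) := P.E_mono step2
  rw [t1]
  refine t2.trans ?_
  rw [P.E_smul, t3]
  have t5 : P.ce Ze (fun u => Real.exp (ψ u)) w0 = 1 / P.m Ze w0 * P.E (fun x => ind (Ze x = Ze w0) * Real.exp (ψ x)) := by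
    unfold FP.ce
    rw [div_eq_mul_one_div, mul_comm]
  rw [t5, mul_assoc]
  refine mul_le_mul_of_nonneg_left (mul_le_mul_of_nonneg_left t4 (one_div_pos.2 mZe).le) (Real.exp_pos _).le

end

end Pool.Agent.GMH.YL
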