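import Pool.Agent.GMH.RarC
import Pool.Agent.GMH.KDL3
import Pool.Agent.GMH.YL1
import Pool.Agent.GMH.YL2
import Pool.Agent.GMH.YL3
import Pool.Agent.GMH.SngA

/-!
# GMH/YL4 (helper36): YOUNG LIVES, CLASS LEVEL (space with tables, state `5 t`, exact vertex `b`)

`w0`, `V` = event of the sight `sgt D {b} t` inside the class `XN b (5 t)`.
* `cnt_typ` : number of the typical letters over a point; `rare_ev` : rarity of an event from the classes;
* `far_kl`, `let_kl` : far top and letter of `c` under `V` against the class with the exact point of `b`;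
* `Aly`, `Tyl` : letter of `j` alive (at the state `e`), typical (at the state `5 t`);
* `mass_un` : typical letters, far top moved: mass in the class `XN b (5 t)`; `mass_tl` : alive at `e`, not typical at `5 t`;
* **`cls_E`** : mean of the test under `V`.
-/

set_option autoImplicit false
set_option linter.unusedSectionVars false

namespace Pool.Agent.GMH.YL

open Finset Pool.Agent.PWZ Pool.Agent.M3 Pool.Agent.GM Pool.Agent.GM.Harm Pool.Agent.GMH
open Pool.Agent.GMH.TP Pool.Agent.GMH.TD Pool.Agent.GMH.Dy Pool.Agent.GMH.MVI Pool.Agent.GMH.MVIp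
open Pool.Agent.GMH.MV Pool.Agent.GMH.CK Pool.Agent.GMH.KDL
open Pool.Agent.GMH.RarX Pool.Agent.GMH.RarC Pool.Agent.GMH.GamR
open Pool.Agent.GMH.TabF (si si_eq si_fac)

noncomputable section

section abs

variable {Om κ σ η ι : Type*} [Fintype Om] {P : FP Om}

/-- **number of the typical letters over a point** -/
theorem cnt_typ {N : Om → κ} {Y : Om → η} {U : Om → ι} (w0 : Om) (y : η) (x : ℝ) :
    ∃ s : Finset ι, (s.card : ℝ) ≤ Real.exp x ∧ ∀ w, P.p w ≠ 0 → N w = N w0 → Y w = y →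
      Real.exp (-x) * P.m (fun u => (Y u, N u)) w ≤ P.m (fun u => ((Y u, U u), N u)) w → U w ∈ s := by
  classical
  set F : Finset Om := univ.filter (fun w => P.p w ≠ 0 ∧ N w = N w0 ∧ Y w = y ∧
    Real.exp (-x) * P.m (fun u => (Y u, N u)) w ≤ P.m (fun u => ((Y u, U u), N u)) w) with hF
  set s : Finset ι := F.image U with hs
  refine ⟨s, ?_, fun w h1 h2 h3 h4 => Finset.mem_image.2 ⟨w, Finset.mem_filter.2 ⟨mem_univ _, h1, h2, h3, h4⟩, rfl⟩⟩
  set a := P.Pr (fun z => Y z = y ∧ N z = N w0) with ha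
  have hm : ∀ w ∈ F, P.m (fun u => (Y u, N u)) w = a := fun w hw => by
    obtain ⟨-, h1, h2, h3, -⟩ := Finset.mem_filter.1 hw
    refine P.E_congr fun z _ => congrArg ind (propext ?_)
    rw [Prod.mk.injEq, h3, h2]
  have hl : ∀ u ∈ s, Real.exp (-x) * a ≤ P.Pr (fun z => U z = u ∧ (Y z = y ∧ N z = N w0)) := by
    intro u hu
    obtain ⟨w, hw, rfl⟩ := Finset.mem_image.1 hu
    have h0 := hm w hw
    obtain ⟨-, h1, h2, h3, h4⟩ := Finset.mem_filter.1 hw
    rw [h0] at h4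
    refine h4.trans (le_of_eq ?_)
    refine P.E_congr fun z _ => congrArg ind (propext ?_)
    rw [Prod.mk.injEq, Prod.mk.injEq, h3, h2]
    constructor
    · rintro ⟨⟨g1, g2⟩, g3⟩
      exact ⟨g2, g1, g3⟩
    · rintro ⟨g2, g1, g3⟩
      exact ⟨⟨g1, g2⟩, g3⟩
  have hsum : ∑ u ∈ s, P.Pr (fun z => U z = u ∧ (Y z = y ∧ N z = N w0)) ≤ a := by
    rw [ha]
    unfold FP.Pr
    rw [← FP.E_sum]
    refine P.E_mono fun z _ => ?_
    by_cases hz : Y z = y ∧ N z = N w0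
    · rw [ind_of hz]
      have e1 : ∀ u ∈ s, ind (U z = u ∧ (Y z = y ∧ N z = N w0)) = if U z = u then (1 : ℝ) else 0 := fun u _ => by
        by_cases g : U z = u
        · rw [if_pos g, ind_of ⟨g, hz⟩]
        · rw [if_neg g, ind_not fun hh => g hh.1]
      rw [Finset.sum_congr rfl e1, Finset.sum_ite_eq]
      split_ifs <;> norm_num
    · rw [ind_not hz]
      exact le_of_eq (Finset.sum_eq_zero fun u _ => ind_not fun hh => hz hh.2)
  rcases F.eq_empty_or_nonempty with h0 | ⟨w1, hw1⟩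
  · have : s = ∅ := by rw [hs, h0, Finset.image_empty]
    rw [this, Finset.card_empty, Nat.cast_zero]
    exact (Real.exp_pos _).le
  · have ha0 : 0 < a := by
      rw [← hm w1 hw1]
      exact P.m_pos _ (Finset.mem_filter.1 hw1).2.1
    have h1 := Finset.sum_le_sum hl
    rw [Finset.sum_const, nsmul_eq_mul] at h1
    have h2 := h1.trans hsum
    have h3 : (s.card : ℝ) * Real.exp (-x) ≤ 1 := by
      by_contra hc
      have := mul_lt_mul_of_pos_right (not_le.1 hc) ha0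
      nlinarith
    rw [Real.exp_neg, ← div_eq_mul_inv, div_le_one (Real.exp_pos _)] at h3
    exact h3

/-- **rarity of an event from the classes** -/
theorem rare_ev {K : Om → κ} {Sg : Om → σ} (hK : Fac Sg K) {C Vi : Om → Prop} (hC : Fac K C) (hVi : Fac Sg Vi) {L : ℝ}
    (hb : ∀ w0, P.p w0 ≠ 0 → C w0 → Vi w0 →
      Real.log (P.m K w0 / P.Pr (fun u => K u = K w0 ∧ Vi u)) ≤ L → False) :
    P.Pr (fun w => C w ∧ Vi w) ≤ Real.exp (-L) * P.Pr C := by
  classical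
  have e1 : P.Pr (fun w => C w ∧ Vi w) = P.E (fun w => ind (C w) * P.ce K (fun w => ind (Vi w)) w) := by
    rw [P.E_mul_ce (hC.comp fun q => ind q)]
    exact P.E_congr fun w _ => ind_and _ _
  rw [e1]
  show _ ≤ Real.exp (-L) * P.E (fun w => ind (C w))
  rw [← P.E_smul]
  refine P.E_mono fun w0 hw => ?_
  by_cases hCw : C w0
  · rw [ind_of hCw, one_mul, mul_one]
    by_contra hc
    push Not at hc
    have hm := P.m_pos K hw
    rw [ce_ind K Vi w0, lt_div_iff₀ hm] at hc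
    have hpos : 0 < P.Pr (fun u => K u = K w0 ∧ Vi u) := (mul_pos (Real.exp_pos _) hm).trans hc
    obtain ⟨w1, h1, h2, h3⟩ := pr_ex hpos.ne'
    have hC1 : C w1 := by rw [hC w1 w0 h2]; exact hCw
    refine hb w1 h1 hC1 h3 ?_
    have h20 : P.m K w1 = P.m K w0 := by unfold FP.m; rw [h2]
    rw [h20, h2, Real.log_div hm.ne' hpos.ne']
    have h4 := Real.log_lt_log (mul_pos (Real.exp_pos _) hm) hc
    rw [Real.log_mul (Real.exp_pos _).ne' hm.ne', Real.log_exp] at h4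
    linarith
  · rw [ind_not hCw, zero_mul, mul_zero]

end abs

variable {X β γ φ : Type} [Fintype X] [Fintype β] [Fintype φ] [Nonempty X] [Nonempty β]
variable {D : HD (Fin 3) X β γ φ} {al : ℝ} {h : D.Thick al} {prr : ℕ → Fin 3 → φ → φ} {T : ℕ} {W : Type} [Fintype W]
variable (tb : Tab D prr T W) {v : ℕ → Finset (Fin 3) → X → (Fin 3 → β) → Pt (Fin 3) X β φ}

theorem yN_xc (b : Fin 3) (t : ℕ) (w0 u : Om W X β) :
    (yN tb v b t u = yN tb v b t w0) = xc D (Um v (t + 1)) t {b} (tb.pt t w0) (tb.pt t u) := by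
  show ((u.2.2 b, (Um v (TP.nc (5 * t) ∅) ∅ u.1 u.2.2, (D.qa (TP.nn (5 * t)) u.1, fun j => D.qb (TP.nn (5 * t)) (u.2.2 j)))) =
    (w0.2.2 b, (Um v (TP.nc (5 * t) ∅) ∅ w0.1 w0.2.2, (D.qa (TP.nn (5 * t)) w0.1, fun j => D.qb (TP.nn (5 * t)) (w0.2.2 j))))) =
    (le (LL (Um v (t + 1))) ∅ (tb.pt t u) = le (LL (Um v (t + 1))) ∅ (tb.pt t w0) ∧
      BB D t {b} (tb.pt t u) = BB D t {b} (tb.pt t w0))
  rw [nc5, nn5]
  refine propext ⟨fun hh => ?_, fun hh => ?_⟩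
  · rw [Prod.mk.injEq, Prod.mk.injEq (Um v (t + 1) ∅ u.1 u.2.2), Prod.mk.injEq (D.qa t u.1)] at hh
    obtain ⟨h1, h2, h3, h4⟩ := hh
    refine ⟨le_eq.2 fun I hI => ?_, BB_eq.2 ⟨fun j hj => ?_, h3, fun j => congrFun h4 j⟩⟩
    · rw [Finset.subset_empty.1 hI, LL_eq]
      exact ⟨h2, fun l hl => absurd (hl ▸ Finset.Subset.refl _) (not_era l)⟩
    · rw [Finset.mem_singleton.1 hj]; exact h1
  · obtain ⟨h1, h2⟩ := hh
    have h4 := (LL_eq.1 (le_eq.1 h1 ∅ (Finset.Subset.refl _))).1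
    have h5 := BB_eq.1 h2
    exact Prod.ext (h5.1 b (Finset.mem_singleton_self b)) (Prod.ext h4 (Prod.ext h5.2.1 (funext h5.2.2)))

/-- the law of the class with the exact point of `b` -/
def BL (v : ℕ → Finset (Fin 3) → X → (Fin 3 → β) → Pt (Fin 3) X β φ) (b : Fin 3) (t : ℕ) (w0 : Om W X β) :
    FP (Om W X β) := tb.Ps.cond fun u => yN tb v b t u = yN tb v b t w0

theorem BL_ne (b : Fin 3) (t : ℕ) {w0 : Om W X β} (hw0 : tb.Ps.p w0 ≠ 0) :
    tb.Ps.Pr (fun u => yN tb v b t u = yN tb v b t w0) ≠ 0 :=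
  (FP.Pr_pos_of (S := fun u => yN tb v b t u = yN tb v b t w0) hw0 rfl).ne'

theorem BL_supp {b : Fin 3} {t : ℕ} {w0 u : Om W X β} (hw0 : tb.Ps.p w0 ≠ 0) (hu : (BL tb v b t w0).p u ≠ 0) :
    yN tb v b t u = yN tb v b t w0 ∧ tb.Ps.p u ≠ 0 := cond_supp (BL_ne tb b t hw0) hu

/-- label of the far top -/
def Fl (b : Fin 3) (t : ℕ) (u : Om W X β) : φ := (tb.pt t u).2.2 b

section one

variable {n N1 : ℝ} (hn : 1 ≤ n) (hN1 : 1 ≤ N1) (R : Run h (pr3 (Fin 3) n N1) (SS1 (Fin 3)) (AdmDep D) v)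
variable {b c d : Fin 3} (hbc : b ≠ c) (hbd : b ≠ d) (hcd : c ≠ d) {t : ℕ} (ht : t ≤ T)
variable {w0 : Om W X β} (hw0 : tb.Ps.p w0 ≠ 0) {V : Om W X β → Prop} (fV : Fac (sgt D {b} t) V) (hV : V w0)
  (sV : ∀ u, V u → XN tb v b (5 * t) u = XN tb v b (5 * t) w0)

/-- transport of the two laws -/
theorem pulV (R : Run h (pr3 (Fin 3) n N1) (SS1 (Fin 3)) (AdmDep D) v) (hbc : b ≠ c) (hbd : b ≠ d) (hcd : c ≠ d)
    (hn : 1 ≤ n) (hN1 : 1 ≤ N1) (ht : t ≤ T) (hw0 : tb.Ps.p w0 ≠ 0) (fV : Fac (sgt D {b} t) V) (hV : V w0)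
    (sV : ∀ u, V u → XN tb v b (5 * t) u = XN tb v b (5 * t) w0) :
    Pul (tb.Ps.cond V) ((D.P h t).cond fun p => V (p.1, w0.2.1, p.2.1)) (tb.pt t) ∧
      Pul (BL tb v b t w0) (QB h (Um v (t + 1)) t b (tb.pt t w0)) (tb.pt t) := by
  have B := bkR (h := h) hn hN1 R hbc hbd hcd t
  have H0 : Pul tb.Ps (D.P h t) (tb.pt t) := pul_pt h tb ht
  have hw1 : (D.P h t).p (tb.pt t w0) ≠ 0 := H0.ne hw0
  have I1 := Ib_of tb B ht hw0 fV hV sV
  constructor
  · have e0 : V = fun u => (fun p : Pt (Fin 3) X β φ => V (p.1, w0.2.1, p.2.1)) (tb.pt t u) := by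
      funext u
      exact fV u (u.1, w0.2.1, u.2.2) rfl
    have := pul_cond H0 (E := fun p : Pt (Fin 3) X β φ => V (p.1, w0.2.1, p.2.1)) I1.ne
    rwa [← e0] at this
  · have := pul_cond H0 (E := xc D (Um v (t + 1)) t {b} (tb.pt t w0)) (xc_ne hw1)
    unfold BL QB
    have e0 : (fun u => yN tb v b t u = yN tb v b t w0) =
        fun u => xc D (Um v (t + 1)) t {b} (tb.pt t w0) (tb.pt t u) := funext fun u => yN_xc tb b t w0 u
    rw [e0]
    exact this

include hn hN1 R hbc hbd hcd ht hw0 fV hV sV in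
/-- **the far top under the event** -/
theorem far_kl {Lo : ℝ} (hLo : Real.log (tb.Ps.m (yN tb v b t) w0 / tb.Ps.Pr V) ≤ Lo) :
    (tb.Ps.cond V).klc (BL tb v b t w0) (Fl tb b t) (fun u => (XLo tb v c (5 * t) u, XLo tb v d (5 * t) u)) +
      (tb.Ps.cond V).I (Fl tb b t) (fun u => (Fl tb d t u, Fl tb c t u))
        (fun u => (XLo tb v c (5 * t) u, XLo tb v d (5 * t) u)) ≤
      (2 * (Lo + 1) + 2 * ((N1 + N1) * Real.log (1 / al))) / (n * N1) := by
  have B := bkR (h := h) hn hN1 R hbc hbd hcd t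
  have I1 := Ib_of tb B ht hw0 fV hV sV
  obtain ⟨p1, p2⟩ := pulV (h := h) tb R hbc hbd hcd hn hN1 ht hw0 fV hV sV
  have h1 := face_far B I1
  have h2 := QB_of (h := h) tb R.codes ht hw0 fV sV
  have hL : Lb h (Um v (t + 1)) t b (tb.pt t w0) (fun p => V (p.1, w0.2.1, p.2.1)) =
      Real.log (tb.Ps.m (yN tb v b t) w0 / tb.Ps.Pr V) := by
    unfold Lb
    rw [h2, one_div_div]
  rw [hL, pr3_top (by decide), V3.VT.prN0, V3.VT.prN1, V3.VT.prN1] at h1
  have e1 := pul_klc p1 p2 (fun w : Pt (Fin 3) X β φ => w.2.2 b) (fun w => (zf (Um v (t + 1)) c w, zf (Um v (t + 1)) d w))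
  have e2 := pul_I p1 (fun w : Pt (Fin 3) X β φ => w.2.2 b) (fun w => (w.2.2 d, w.2.2 c))
    (fun w => (zf (Um v (t + 1)) c w, zf (Um v (t + 1)) d w))
  have e3 : (fun u => (XLo tb v c (5 * t) u, XLo tb v d (5 * t) u)) =
      fun u => (zf (Um v (t + 1)) c (tb.pt t u), zf (Um v (t + 1)) d (tb.pt t u)) := by
    funext u
    rw [XL_zf, XL_zf]
  rw [e3]
  have hnN : 0 < n * N1 := by nlinarith
  rw [le_div_iff₀ hnN, mul_comm]
  show n * N1 * ((tb.Ps.cond V).klc (BL tb v b t w0) (fun u => (tb.pt t u).2.2 b)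
      (fun u => (zf (Um v (t + 1)) c (tb.pt t u), zf (Um v (t + 1)) d (tb.pt t u))) +
    (tb.Ps.cond V).I (fun u => (tb.pt t u).2.2 b) (fun u => ((tb.pt t u).2.2 d, (tb.pt t u).2.2 c))
      (fun u => (zf (Um v (t + 1)) c (tb.pt t u), zf (Um v (t + 1)) d (tb.pt t u)))) ≤ _
  rw [e1, e2]
  linarith

include hn hN1 R hbc hbd hcd ht hw0 fV hV sV in
/-- **the letter of `c` under the event** -/
theorem let_kl {Lo : ℝ} (hLo : Real.log (tb.Ps.m (yN tb v b t) w0 / tb.Ps.Pr V) ≤ Lo) :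
    (tb.Ps.cond V).kl (BL tb v b t w0) (XLo tb v c (5 * t)) ≤ 2 * (Lo + 1) / N1 := by
  have B := bkR (h := h) hn hN1 R hbc hbd hcd t
  have I1 := Ib_of tb B ht hw0 fV hV sV
  obtain ⟨p1, p2⟩ := pulV (h := h) tb R hbc hbd hcd hn hN1 ht hw0 fV hV sV
  have h1 := let_one B I1
  have h2 := QB_of (h := h) tb R.codes ht hw0 fV sV
  have hL : Lb h (Um v (t + 1)) t b (tb.pt t w0) (fun p => V (p.1, w0.2.1, p.2.1)) =
      Real.log (tb.Ps.m (yN tb v b t) w0 / tb.Ps.Pr V) := by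
    unfold Lb
    rw [h2, one_div_div]
  rw [hL, V3.VT.prN0, V3.VT.prN1] at h1
  have e1 := pul_kl p1 p2 (zf (Um v (t + 1)) c)
  have e3 : XLo tb v c (5 * t) = fun u => zf (Um v (t + 1)) c (tb.pt t u) := funext fun u => XL_zf tb c t u
  rw [e3, e1]
  have hN : 0 < N1 := by linarith
  rw [le_div_iff₀ hN, mul_comm]
  linarith

theorem ac_V (hw0 : tb.Ps.p w0 ≠ 0) (hV : V w0) (sV : ∀ u, V u → XN tb v b (5 * t) u = XN tb v b (5 * t) w0) :
    (tb.Ps.cond V).Ac (BL tb v b t w0) := by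
  intro u hu
  have hV0 : tb.Ps.Pr V ≠ 0 := (FP.Pr_pos_of (S := V) hw0 hV).ne'
  obtain ⟨h1, h2⟩ := cond_supp hV0 hu
  exact (FP.cond_p_ne (BL_ne tb b t hw0)).2 ⟨XN_yN tb b t u w0 (sV u h1), h2⟩

end one

/-! ### alive letters -/

section alive

variable {M : MS (Om W X β)}

/-- the letter of `j` is alive at the state `e` -/
def Aly (v : ℕ → Finset (Fin 3) → X → (Fin 3 → β) → Pt (Fin 3) X β φ) (x : ℝ) (j : Fin 3) (e : ℕ) (w : Om W X β) :
    Prop := Real.exp (-x) * tb.Ps.m (fun u => (u.2.2 j, NPo tb v e u)) w ≤ tb.Ps.m (fun u => (XLo tb v j e u, NPo tb v e u)) w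

variable {tb}

theorem Aly_fac {x : ℝ} {j : Fin 3} {e : ℕ} {a a' : Om W X β} (h1 : XLo tb v j e a = XLo tb v j e a')
    (h2 : NPo tb v e a = NPo tb v e a') : Aly tb v x j e a ↔ Aly tb v x j e a' := by
  have h3 : a.2.2 j = a'.2.2 j := congrArg Prod.fst h1
  unfold Aly
  rw [tb.Ps.Fac_m (fun u => (u.2.2 j, NPo tb v e u)) a a' (Prod.ext h3 h2),
    tb.Ps.Fac_m (fun u => (XLo tb v j e u, NPo tb v e u)) a a' (Prod.ext h1 h2)]

theorem aly_log (hM : Ro tb v M) {x : ℝ} {j : Fin 3} {e : ℕ} {w : Om W X β} (hw : tb.Ps.p w ≠ 0) :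
    Aly tb v x j e w ↔ -x ≤ lqS M {j} ∅ e e w := by
  have e1 : M.P.m (fun u => (LS M {j} ∅ e u, M.NP e u)) w = tb.Ps.m (fun u => (XLo tb v j e u, NPo tb v e u)) w := by
    rw [hM.P]
    refine tb.Ps.m_congr ?_ ?_ w
    · intro a b e
      have h1 := Prod.mk.inj e
      exact Prod.ext ((hM.X j _ a b).1 ((LS_eq.1 h1.1).1 j (Finset.mem_singleton_self j))) ((hM.N _ a b).1 h1.2)
    · intro a b e
      have h1 := Prod.mk.inj e
      refine Prod.ext (LS_eq.2 ⟨fun i hi => ?_, fun i hi => absurd hi (Finset.notMem_empty i)⟩) ((hM.N _ a b).2 h1.2)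
      rw [Finset.mem_singleton.1 hi]
      exact (hM.X j _ a b).2 h1.1
  have e2 : M.P.m (fun u => (YS M {j} u, M.NP e u)) w = tb.Ps.m (fun u => (u.2.2 j, NPo tb v e u)) w := by
    rw [hM.P]
    refine tb.Ps.m_congr ?_ ?_ w
    · intro a b e
      have h1 := Prod.mk.inj e
      exact Prod.ext ((hM.Y j a b).1 (YS_eq.1 h1.1 j (Finset.mem_singleton_self j))) ((hM.N _ a b).1 h1.2)
    · intro a b e
      have h1 := Prod.mk.inj e
      refine Prod.ext (YS_eq.2 fun i hi => ?_) ((hM.N _ a b).2 h1.2)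
      rw [Finset.mem_singleton.1 hi]
      exact (hM.Y j a b).2 h1.1
  unfold Aly lqS
  rw [e1, e2]
  have p1 := tb.Ps.m_pos (fun u => (XLo tb v j e u, NPo tb v e u)) hw
  have p2 := tb.Ps.m_pos (fun u => (u.2.2 j, NPo tb v e u)) hw
  rw [Real.le_log_iff_exp_le (div_pos p1 p2), le_div_iff₀ p2]

theorem fam1 (j : Fin 3) : ∀ i ∈ (∅ : Finset (Fin 3)), univ.erase i ⊆ ({j} : Finset (Fin 3)) := fun i hi =>
  absurd hi (Finset.notMem_empty i)

/-- **a letter which was alive and is not typical any more has moved in the public class** -/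
theorem tl_mov (hM : Ro tb v M) (hv : Codes D v) {x : ℝ} {j : Fin 3} {ν e s : ℕ} (h1 : ν ≤ e) (h2 : e ≤ s)
    (hd : M.d0 ≤ 1 / 4) {w : Om W X β} (hw : tb.Ps.p w ≠ 0) (ha : Aly tb v x j e w) (hn : ¬ Aly tb v (x + 1) j s w) :
    Lst M ν s w := by
  by_contra hc
  have hw' : M.P.p w ≠ 0 := by rw [hM.P]; exact hw
  have hu := unm_of (S := {j}) (A := ∅) h1 h2 hc
  have a1 := abs_le.1 (lq_unm (P := M.P) (N := M.NP) (L := LF M ({j}, ∅)) (Y := MV.YF M ({j}, ∅)) (LF_fac ({j}, ∅))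
    (h1.trans h2) hw' hu.1.1)
  have a3 := abs_le.1 (lq_unm (P := M.P) (N := M.NP) (L := LF M ({j}, ∅)) (Y := MV.YF M ({j}, ∅)) (LF_fac ({j}, ∅))
    h1 hw' hu.2.1)
  rw [hM.lq hv (fam1 j) s hw, hM.lq hv (fam1 j) ν hw] at a1
  rw [hM.lq hv (fam1 j) e hw, hM.lq hv (fam1 j) ν hw] at a3
  rw [aly_log hM hw] at ha hn
  push Not at hn
  linarith [a1.1, a3.2]

end alive

/-! ### masses of the moved points -/

/-- mean in the class of one value of `Y` -/
theorem cls_ce {Om κ η : Type*} [Fintype Om] {P : FP Om} {Z : Om → κ} {Y : Om → η} (f : Om → ℝ) {w0 w : Om}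
    (hw0 : P.p w0 ≠ 0) (hY : Y w = Y w0) :
    (P.cond fun u => Y u = Y w0).ce Z f w = P.ce (fun u => (Z u, Y u)) f w := by
  have h0 : P.Pr (fun u => Y u = Y w0) ≠ 0 := (FP.Pr_pos_of (S := fun u => Y u = Y w0) hw0 rfl).ne'
  have e1 : (P.cond fun u => Y u = Y w0).E (fun u => ind (Z u = Z w) * f u) =
      P.E (fun u => ind ((Z u, Y u) = (Z w, Y w)) * f u) / P.Pr (fun u => Y u = Y w0) := by
    rw [FP.cond_E h0]
    congr 1
    refine P.E_congr fun u _ => ?_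
    rw [← mul_assoc, ← ind_and]
    congr 2
    refine propext ?_
    rw [Prod.mk.injEq, hY]
    exact and_comm
  have e2 : (P.cond fun u => Y u = Y w0).m Z w =
      P.m (fun u => (Z u, Y u)) w / P.Pr (fun u => Y u = Y w0) := by
    unfold FP.m
    rw [FP.cond_E h0]
    congr 1
    refine P.E_congr fun u _ => ?_
    rw [← ind_and]
    congr 1
    refine propext ?_
    rw [Prod.mk.injEq, hY]
    exact and_comm
  unfold FP.ce
  rw [e1, e2]
  exact div_div_div_cancel_right₀ h0 _ _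

section mass

variable {M : MS (Om W X β)} (hM : Ro tb v M) (hv : Codes D v)

/-- the exact point of `b` does not matter -/
theorem ce_free (hM : Ro tb v M) (hv : Codes D v) {S A : Finset (Fin 3)} (hA : ∀ i ∈ A, univ.erase i ⊆ S) {b : Fin 3}
    (hb : b ∉ S) {t : ℕ} {B : Om W X β → Prop}
    (hB : ∀ a a', tb.Ps.p a ≠ 0 → tb.Ps.p a' ≠ 0 → LS M S A (5 * t) a = LS M S A (5 * t) a' →
      M.NP (5 * t) a = M.NP (5 * t) a' → (B a ↔ B a')) {w0 : Om W X β} (hw0 : tb.Ps.p w0 ≠ 0) :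
    tb.Ps.ce (yN tb v b t) (fun u => ind (B u)) w0 = tb.Ps.ce (NPo tb v (5 * t)) (fun u => ind (B u)) w0 := by
  obtain ⟨B', h1, h2⟩ := choice1 (fun w => tb.Ps.p w ≠ 0) (fun w => (LS M S A (5 * t) w, M.NP (5 * t) w)) B
    (fun a a' ha ha' e => propext (hB a a' ha ha' (Prod.mk.inj e).1 (Prod.mk.inj e).2))
  have h3 : Fac (si D S univ A (TP.nn (5 * t))) (fun u => ind (B' u)) := Fac.ind fun a a' e => by
    rw [h1 a a' (Prod.ext (hM.see hv hA le_rfl a a' e) (hM.seeN hv _ le_rfl S A a a' e))]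
  have h4 : S ∩ {b} = ∅ := Finset.inter_singleton_of_notMem hb
  have n0 : TP.nn (5 * t) ≤ TP.nn (5 * t) := le_rfl
  have key := ig tb (J := S) (E := {b}) (S := A) (n := TP.nn (5 * t)) (M1 := NPo tb v (5 * t))
    (Y := fun u : Om W X β => u.2.2 b)
    (fun a a' e => (hM.N _ a a').1 (hM.seeN hv _ le_rfl S A a a' e))
    (by rw [h4]; exact NPq_ndE tb (5 * t) 0) (fun a a' e => (ndE_eq.1 e).2.1 b (Finset.mem_singleton_self b)) h3 hw0
  have e1 : ∀ {κ : Type} (Z : Om W X β → κ), tb.Ps.ce Z (fun u => ind (B u)) w0 = tb.Ps.ce Z (fun u => ind (B' u)) w0 :=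
    fun Z => YL.ce_sup fun u hu _ => by rw [h2 u hu]
  rw [e1, e1]
  exact key

/-- **mass of a listed event** -/
theorem mass_pub (hM : Ro tb v M) (hv : Codes D v) {S A : Finset (Fin 3)} (hA : ∀ i ∈ A, univ.erase i ⊆ S) {b : Fin 3}
    (hb : b ∉ S) {t ν : ℕ} {B : Om W X β → Prop}
    (hB : ∀ a a', tb.Ps.p a ≠ 0 → tb.Ps.p a' ≠ 0 → LS M S A (5 * t) a = LS M S A (5 * t) a' →
      M.NP (5 * t) a = M.NP (5 * t) a' → (B a ↔ B a')) {w0 : Om W X β} (hw0 : tb.Ps.p w0 ≠ 0)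
    (hL : ∀ u, tb.Ps.p u ≠ 0 → M.NP (5 * t) u = M.NP (5 * t) w0 → B u → Lst M ν (5 * t) u)
    (hC : ¬ C0 M ν (5 * t) w0) : tb.Ps.ce (yN tb v b t) (fun u => ind (B u)) w0 ≤ M.k0 := by
  rw [ce_free tb hM hv hA hb hB hw0]
  have h1 : M.P.ce (M.NP (5 * t)) (fun u => ind (Lst M ν (5 * t) u)) w0 < M.k0 := by
    by_contra hc
    exact hC (Or.inr (Or.inl (not_lt.1 hc)))
  refine le_trans ?_ h1.le
  rw [hM.P]
  have e1 : tb.Ps.ce (NPo tb v (5 * t)) (fun u => ind (B u)) w0 = tb.Ps.ce (M.NP (5 * t)) (fun u => ind (B u)) w0 :=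
    tb.Ps.ce_congr_map (fun a a' e => (hM.N _ a a').2 e) (fun a a' e => (hM.N _ a a').1 e) _ w0
  rw [e1]
  exact ce_sup_le tb.Ps fun u hu e => ind_mono fun hb => hL u hu e hb

/-- from the class with the exact point to the class with the letter -/
theorem mass_XN {b : Fin 3} {t : ℕ} {B : Om W X β → Prop} {w0 : Om W X β} (hw0 : tb.Ps.p w0 ≠ 0) {k XO : ℝ}
    (hk : tb.Ps.ce (yN tb v b t) (fun u => ind (B u)) w0 ≤ k)
    (hX : Real.log (tb.Ps.m (yN tb v b t) w0 / tb.Ps.m (XN tb v b (5 * t)) w0) ≤ XO) :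
    (tb.Ps.cond fun u => XN tb v b (5 * t) u = XN tb v b (5 * t) w0).Pr B ≤ k * Real.exp XO := by
  have m1 : 0 < tb.Ps.m (yN tb v b t) w0 := tb.Ps.m_pos _ hw0
  have m2 : 0 < tb.Ps.m (XN tb v b (5 * t)) w0 := tb.Ps.m_pos _ hw0
  have h0 : tb.Ps.Pr (fun u => XN tb v b (5 * t) u = XN tb v b (5 * t) w0) ≠ 0 := m2.ne'
  rw [cond_pr h0]
  rw [ce_ind, div_le_iff₀ m1] at hk
  have h1 : tb.Ps.Pr (fun u => XN tb v b (5 * t) u = XN tb v b (5 * t) w0 ∧ B u) ≤
      tb.Ps.Pr (fun u => yN tb v b t u = yN tb v b t w0 ∧ B u) :=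
    tb.Ps.Pr_mono fun u _ hu => ⟨XN_yN tb b t u w0 hu.1, hu.2⟩
  have h2 : tb.Ps.m (yN tb v b t) w0 ≤ Real.exp XO * tb.Ps.m (XN tb v b (5 * t)) w0 := by
    rw [← div_le_iff₀ m2, ← Real.log_le_iff_le_exp (div_pos m1 m2)]
    exact hX
  have h3 : 0 ≤ k := by
    by_contra hc
    have h4 : k * tb.Ps.m (yN tb v b t) w0 < 0 := mul_neg_of_neg_of_pos (not_le.1 hc) m1
    have h5 := tb.Ps.Pr_nonneg (fun u => yN tb v b t u = yN tb v b t w0 ∧ B u)
    linarith
  have e0 : tb.Ps.Pr (fun u => XN tb v b (5 * t) u = XN tb v b (5 * t) w0) = tb.Ps.m (XN tb v b (5 * t)) w0 := rfl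
  rw [e0, div_le_iff₀ m2]
  have h5 := mul_le_mul_of_nonneg_left h2 h3
  nlinarith

end mass

/-! ### the mean of the test under an event of the exact vertex -/

section main

variable {M : MS (Om W X β)}

/-- typical letters of `c`, `d` at the state `5 t` -/
def Ty (v : ℕ → Finset (Fin 3) → X → (Fin 3 → β) → Pt (Fin 3) X β φ) (x : ℝ) (c d : Fin 3) (t : ℕ) (w : Om W X β) :
    Prop := Aly tb v (x + 1) c (5 * t) w ∧ Aly tb v (x + 1) d (5 * t) w

theorem fam2 {b c d : Fin 3} (hbc : b ≠ c) (hbd : b ≠ d) (hcd : c ≠ d) :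
    ∀ i ∈ ({b} : Finset (Fin 3)), univ.erase i ⊆ ({c, d} : Finset (Fin 3)) := by
  revert b c d
  decide

theorem nb2 {b c d : Fin 3} (hbc : b ≠ c) (hbd : b ≠ d) : b ∉ ({c, d} : Finset (Fin 3)) := by
  rw [Finset.mem_insert, Finset.mem_singleton]
  rintro (h1 | h1)
  · exact hbc h1
  · exact hbd h1

/-- the moves are seen by letters of `c`, `d`, far top and public information -/
theorem unm_see (hM : Ro tb v M) (hv : Codes D v) {b c d : Fin 3} (hbc : b ≠ c) (hbd : b ≠ d) (hcd : c ≠ d)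
    {ν e s : ℕ} (he : e ≤ s) {a a' : Om W X β} (ha : tb.Ps.p a ≠ 0) (ha' : tb.Ps.p a' ≠ 0)
    (h1 : LS M {c, d} {b} s a = LS M {c, d} {b} s a') (h2 : M.NP s a = M.NP s a') :
    Unm M {c, d} {b} ν e s a ↔ Unm M {c, d} {b} ν e s a' := by
  have hA := fam2 hbc hbd hcd
  have hA0 : ∀ i ∈ (∅ : Finset (Fin 3)), univ.erase i ⊆ ({c, d} : Finset (Fin 3)) := fun i hi =>
    absurd hi (Finset.notMem_empty i)
  have h10 : LS M {c, d} ∅ s a = LS M {c, d} ∅ s a' :=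
    LS_eq.2 ⟨(LS_eq.1 h1).1, fun i hi => absurd hi (Finset.notMem_empty i)⟩
  have h3 := LS_le he a a' h1
  have h30 := LS_le he a a' h10
  have h4 := NP_le M he a a' h2
  unfold Unm
  rw [hM.mv hv hA (δ := M.d0) (ν := ν) ha ha' h1 h2, hM.mv hv hA0 (δ := M.d0) (ν := ν) ha ha' h10 h2,
    hM.mv hv hA (δ := M.d0) (ν := ν) ha ha' h3 h4, hM.mv hv hA0 (δ := M.d0) (ν := ν) ha ha' h30 h4]

/-- letters of `c`, `d` and label of the far top -/
theorem ls_of (hM : Ro tb v M) {b c d : Fin 3} {t : ℕ} (ht : t ≤ T) {a a' : Om W X β} (ha : tb.Ps.p a ≠ 0)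
    (ha' : tb.Ps.p a' ≠ 0) (h1 : XLo tb v c (5 * t) a = XLo tb v c (5 * t) a')
    (h2 : XLo tb v d (5 * t) a = XLo tb v d (5 * t) a') (h3 : Fl tb b t a = Fl tb b t a') :
    LS M {c, d} {b} (5 * t) a = LS M {c, d} {b} (5 * t) a' := by
  refine LS_eq.2 ⟨fun j hj => ?_, fun i hi => ?_⟩
  · rw [Finset.mem_insert, Finset.mem_singleton] at hj
    rcases hj with rfl | rfl
    · exact (hM.X _ _ a a').2 h1
    · exact (hM.X _ _ a a').2 h2
  · rw [Finset.mem_singleton.1 hi]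
    refine (hM.T _ _ a a').2 ?_
    have e : 5 * t / 5 = t := by omega
    rw [TFo_pt tb (q := 5 * t) (by omega) ha ha' b, e]
    exact h3

variable {n N1 : ℝ} (hn : 1 ≤ n) (hN1 : 1 ≤ N1) (R : Run h (pr3 (Fin 3) n N1) (SS1 (Fin 3)) (AdmDep D) v)
variable {b c d : Fin 3} (hbc : b ≠ c) (hbd : b ≠ d) (hcd : c ≠ d) {t : ℕ} (ht : t ≤ T)
variable {w0 : Om W X β} (hw0 : tb.Ps.p w0 ≠ 0) {V : Om W X β → Prop} (fV : Fac (sgt D {b} t) V) (hV : V w0)
  (sV : ∀ u, V u → XN tb v b (5 * t) u = XN tb v b (5 * t) w0)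
variable {x L Lo XO : ℝ} {ν e : ℕ}

/-- price of a relation of the letters of `c`, `d` and the far top (scale `N1`) -/
def EPr (n N1 al M L : ℝ) : ℝ :=
  2 * (L + 1) / (n * N1) + 2 * ((2 * (L + 1) + 2 * Real.log ((M + 1) * (1 / al))) / N1)

theorem EP_eq {n N1 al M L : ℝ} (b c d : Fin 3) : SngA.EP (pr3 (Fin 3) n N1) al M b c d L = EPr n N1 al M L := by
  unfold SngA.EP SngA.kW klet EPr
  rw [pr3_top (by decide), V3.VT.prN0, V3.VT.prN1, V3.VT.prN1]
  ring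

include hn hN1 R hbc hbd hcd ht hw0 fV hV sV in
/-- **typical letters, far top moved** -/
theorem mass_un (hM : Ro tb v M) (h1 : ν ≤ e) (h2 : e ≤ 5 * t) (hC : ¬ C0 M ν (5 * t) w0)
    (hLo : Real.log (tb.Ps.m (yN tb v b t) w0 / tb.Ps.Pr V) ≤ Lo) :
    (tb.Ps.cond V).Pr (fun w => Ty tb v x c d t w ∧ ¬ Unm M {c, d} {b} ν e (5 * t) w) ≤
      1025 * EPr n N1 al (2 * Real.exp (x + 1)) Lo + 1024 * M.k0 := by
  classical
  have hv := R.codes
  have B := bkR (h := h) hn hN1 R hbc hbd hcd t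
  have H0 : Pul tb.Ps (D.P h t) (tb.pt t) := pul_pt h tb ht
  set A : Om W X β → Prop := fun w => Ty tb v x c d t w ∧ ¬ Unm M {c, d} {b} ν e (5 * t) w with hA
  set CC : Om W X β → Prop := fun u => yN tb v b t u = yN tb v b t w0 with hCC
  set C0' : Pt (Fin 3) X β φ → Prop := xc D (Um v (t + 1)) t {b} (tb.pt t w0) with hC0
  have eC : ∀ u, C0' (tb.pt t u) ↔ CC u := fun u => by
    rw [hCC]
    show _ ↔ (yN tb v b t u = yN tb v b t w0)
    rw [yN_xc]
  -- the letters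
  have hTypM : ∀ c', ∃ s : Finset (List (Pt (Fin 3) X β φ)), (s.card : ℝ) ≤ 2 * Real.exp (x + 1) ∧
      ∀ u, (∃ w, tb.Ps.p w ≠ 0 ∧ CC w ∧ ((w.2.2 c = c' ∧ Um v (t + 1) {c} w.1 w.2.2 = u ∧ Aly tb v (x + 1) c (5 * t) w) ∨
        (w.2.2 d = c' ∧ Um v (t + 1) {d} w.1 w.2.2 = u ∧ Aly tb v (x + 1) d (5 * t) w))) → u ∈ s := by
    intro c'
    obtain ⟨s1, c1, g1⟩ := cnt_typ (P := tb.Ps) (N := NPo tb v (5 * t)) (Y := fun u : Om W X β => u.2.2 c)
      (U := fun u => Um v (t + 1) {c} u.1 u.2.2) w0 c' (x + 1)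
    obtain ⟨s2, c2, g2⟩ := cnt_typ (P := tb.Ps) (N := NPo tb v (5 * t)) (Y := fun u : Om W X β => u.2.2 d)
      (U := fun u => Um v (t + 1) {d} u.1 u.2.2) w0 c' (x + 1)
    refine ⟨s1 ∪ s2, ?_, ?_⟩
    · have h3 := Finset.card_union_le s1 s2
      have h4 : ((s1 ∪ s2).card : ℝ) ≤ (s1.card : ℝ) + s2.card := by exact_mod_cast h3
      linarith
    · rintro u ⟨w, hw, hcw, (⟨q1, q2, q3⟩ | ⟨q1, q2, q3⟩)⟩
      · refine Finset.mem_union_left _ ?_
        have := g1 w hw (congrArg Prod.snd hcw) q1 ?_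
        · rwa [← q2]
        · have e3 : (fun u : Om W X β => (XLo tb v c (5 * t) u, NPo tb v (5 * t) u)) =
              fun u => ((u.2.2 c, Um v (t + 1) {c} u.1 u.2.2), NPo tb v (5 * t) u) := by
            funext u
            rw [XL_zf]
            rfl
          unfold Aly at q3
          rw [e3] at q3
          exact q3
      · refine Finset.mem_union_right _ ?_
        have := g2 w hw (congrArg Prod.snd hcw) q1 ?_
        · rwa [← q2]
        · have e3 : (fun u : Om W X β => (XLo tb v d (5 * t) u, NPo tb v (5 * t) u)) =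
              fun u => ((u.2.2 d, Um v (t + 1) {d} u.1 u.2.2), NPo tb v (5 * t) u) := by
            funext u
            rw [XL_zf]
            rfl
          unfold Aly at q3
          rw [e3] at q3
          exact q3
  -- the event
  have I1 := Ib_of tb B ht hw0 fV hV sV
  have J1 := SngA.Ib_ix I1
  have hw1 : (D.P h t).p (tb.pt t w0) ≠ 0 := H0.ne hw0
  have J2 : SngA.Ix h (Um v (t + 1)) t {b} (tb.pt t w0) C0' := by
    refine ⟨fun p q hpq => ?_, xc_self _ t {b} _, hw1, fun _ hv' => hv'⟩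
    refine xc_fac (U := Um v (t + 1)) {b} (tb.pt t w0) B.dep B.era p q ?_
    simp only [Prod.mk.injEq] at hpq ⊢
    exact ⟨hpq.1, hpq.2.1⟩
  set A1 : Pt (Fin 3) X β φ → Prop := fun p => ∃ u, tb.Ps.p u ≠ 0 ∧ tb.pt t u = p ∧ CC u ∧ A u with hA1
  have hAf : ∀ u w, tb.Ps.p u ≠ 0 → tb.Ps.p w ≠ 0 → CC u → CC w → XLo tb v c (5 * t) u = XLo tb v c (5 * t) w →
      XLo tb v d (5 * t) u = XLo tb v d (5 * t) w → Fl tb b t u = Fl tb b t w → A u → A w := by
    intro u w hu hw hcu hcw z1 z2 z3 hAu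
    have eN : NPo tb v (5 * t) u = NPo tb v (5 * t) w :=
      (congrArg Prod.snd hcu).trans (congrArg Prod.snd hcw).symm
    have e1 : LS M {c, d} {b} (5 * t) u = LS M {c, d} {b} (5 * t) w := ls_of tb hM ht hu hw z1 z2 z3
    have e2 : M.NP (5 * t) u = M.NP (5 * t) w := (hM.N _ u w).2 eN
    exact ⟨⟨(Aly_fac z1 eN).1 hAu.1.1, (Aly_fac z2 eN).1 hAu.1.2⟩,
      fun hh => hAu.2 ((unm_see tb hM hv hbc hbd hcd h2 hu hw e1 e2).2 hh)⟩
  have hA : ∀ u, tb.Ps.p u ≠ 0 → CC u → (A1 (tb.pt t u) ↔ A u) := by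
    intro u hu hc
    constructor
    · rintro ⟨u', g1, g2, g3, g4⟩
      refine hAf u' u g1 hu g3 hc ?_ ?_ ?_ g4
      · rw [XL_zf, XL_zf, g2]
      · rw [XL_zf, XL_zf, g2]
      · exact congrFun (congrArg (fun p : Pt (Fin 3) X β φ => p.2.2) g2) b
    · intro hA
      exact ⟨u, hu, rfl, hc, hA⟩
  have HR : SngA.Rp h (Um v (t + 1)) t b c d C0' (fun c' u => ∃ w, tb.Ps.p w ≠ 0 ∧ CC w ∧
      ((w.2.2 c = c' ∧ Um v (t + 1) {c} w.1 w.2.2 = u ∧ Aly tb v (x + 1) c (5 * t) w) ∨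
        (w.2.2 d = c' ∧ Um v (t + 1) {d} w.1 w.2.2 = u ∧ Aly tb v (x + 1) d (5 * t) w))) A1 := by
    refine ⟨fun p q hp hq hcp hcq z1 z2 l1 hAp => ?_, fun p hp hcp hAp => ?_⟩
    · obtain ⟨u, g1, g2, g3, g4⟩ := hAp
      obtain ⟨u', g5, g6⟩ := pul_ex H0 hq
      have hcu' : CC u' := (eC u').1 (by rw [g6]; exact hcq)
      refine ⟨u', g5, g6, hcu', hAf u u' g1 g5 g3 hcu' ?_ ?_ ?_ g4⟩
      · rw [XL_zf, XL_zf, g2, g6]; exact z1
      · rw [XL_zf, XL_zf, g2, g6]; exact z2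
      · show (tb.pt t u).2.2 b = (tb.pt t u').2.2 b
        rw [g2, g6]; exact l1
    · obtain ⟨u, g1, g2, g3, g4⟩ := hAp
      rw [← g2]
      exact ⟨u, g1, g3, Or.inr ⟨rfl, rfl, g4.1.2⟩⟩
  have hM0 : (0 : ℝ) ≤ 2 * Real.exp (x + 1) := by positivity
  have hV1 : 0 < (QB h (Um v (t + 1)) t b (tb.pt t w0)).Pr (fun p => V (p.1, w0.2.1, p.2.1)) := by
    have := J1.neX
    exact lt_of_le_of_ne (FP.Pr_nonneg _ _) this.symm
  have hLV : SngA.LX h (Um v (t + 1)) t {b} (tb.pt t w0) (fun p => V (p.1, w0.2.1, p.2.1)) ≤ Lo := by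
    have h2' := QB_of (h := h) tb hv ht hw0 fV sV
    have hL : SngA.LX h (Um v (t + 1)) t {b} (tb.pt t w0) (fun p => V (p.1, w0.2.1, p.2.1)) =
        Real.log (tb.Ps.m (yN tb v b t) w0 / tb.Ps.Pr V) := by
      show Real.log (1 / (QB h (Um v (t + 1)) t b (tb.pt t w0)).Pr (fun p => V (p.1, w0.2.1, p.2.1))) = _
      rw [h2', one_div_div]
    rw [hL]
    exact hLo
  have hLC : SngA.LX h (Um v (t + 1)) t {b} (tb.pt t w0) C0' ≤ Lo := by
    refine le_trans ?_ hLV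
    have h0 : 0 < (SngA.QX h (Um v (t + 1)) t {b} (tb.pt t w0)).Pr (fun p => V (p.1, w0.2.1, p.2.1)) := hV1
    have h2' : (SngA.QX h (Um v (t + 1)) t {b} (tb.pt t w0)).Pr (fun p => V (p.1, w0.2.1, p.2.1)) ≤
        (SngA.QX h (Um v (t + 1)) t {b} (tb.pt t w0)).Pr C0' :=
      FP.Pr_mono _ fun v _ hv => J1.sub v hv
    unfold SngA.LX
    exact Real.log_le_log (one_div_pos.2 (lt_of_lt_of_le h0 h2')) (one_div_le_one_div_of_le h0 h2')
  have r := SngA.rel_pair B J1 J2 (Finset.Subset.refl _) (C0 := C0') (fun v hv' => J1.sub v hv') (fun _ hv' => hv') HR hM0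
    hTypM hLV hLC
  rw [EP_eq] at r
  -- back
  obtain ⟨p1, -⟩ := pulV (h := h) tb R hbc hbd hcd hn hN1 ht hw0 fV hV sV
  have p2 : Pul (tb.Ps.cond CC) ((D.P h t).cond C0') (tb.pt t) := by
    have := pul_cond H0 (E := C0') (xc_ne hw1)
    have e0 : CC = fun u => C0' (tb.pt t u) := funext fun u => propext (eC u).symm
    rw [e0]
    exact this
  have hV0 : tb.Ps.Pr V ≠ 0 := (FP.Pr_pos_of (S := V) hw0 hV).ne'
  have t1 : (tb.Ps.cond V).Pr A = ((D.P h t).cond fun p => V (p.1, w0.2.1, p.2.1)).Pr A1 := by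
    rw [← p1.Pr]
    refine (tb.Ps.cond V).E_congr fun u hu => ?_
    obtain ⟨a1, a2⟩ := cond_supp hV0 hu
    exact congrArg ind (propext (hA u a2 (XN_yN tb b t u w0 (sV u a1))).symm)
  have hC1 : tb.Ps.Pr CC ≠ 0 := (FP.Pr_pos_of (S := CC) hw0 rfl).ne'
  have t2 : (tb.Ps.cond CC).Pr A = ((D.P h t).cond C0').Pr A1 := by
    rw [← p2.Pr]
    refine (tb.Ps.cond CC).E_congr fun u hu => ?_
    obtain ⟨a1, a2⟩ := cond_supp hC1 hu
    exact congrArg ind (propext (hA u a2 a1).symm)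
  have hB : ∀ a a', tb.Ps.p a ≠ 0 → tb.Ps.p a' ≠ 0 → LS M {c, d} {b} (5 * t) a = LS M {c, d} {b} (5 * t) a' →
      M.NP (5 * t) a = M.NP (5 * t) a' → (A a ↔ A a') := by
    intro a a' ha ha' e1 e2
    have eN := (hM.N _ a a').1 e2
    have z1 : XLo tb v c (5 * t) a = XLo tb v c (5 * t) a' :=
      (hM.X c _ a a').1 ((LS_eq.1 e1).1 c (Finset.mem_insert_self c _))
    have z2 : XLo tb v d (5 * t) a = XLo tb v d (5 * t) a' :=
      (hM.X d _ a a').1 ((LS_eq.1 e1).1 d (Finset.mem_insert_of_mem (Finset.mem_singleton_self d)))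
    exact and_congr (and_congr (Aly_fac z1 eN) (Aly_fac z2 eN))
      (not_congr (unm_see tb hM hv hbc hbd hcd h2 ha ha' e1 e2))
  have m1 := mass_pub tb hM hv (fam2 hbc hbd hcd) (nb2 (d := d) hbc hbd) (t := t) (ν := ν) hB hw0
    (fun u _ _ hAu => by
      by_contra hc
      exact hAu.2 (unm_of h1 h2 hc)) hC
  have m2 : (tb.Ps.cond CC).Pr A = tb.Ps.ce (yN tb v b t) (fun u => ind (A u)) w0 := by
    rw [cond_pr hC1, ce_ind]
    rfl
  rw [t1]
  rw [← t2, m2] at r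
  linarith

include hn hN1 R hbc hbd hcd ht hw0 fV hV sV in
/-- **alive at `e`, not typical at `5 t`** -/
theorem mass_tl (hM : Ro tb v M) (h1 : ν ≤ e) (h2 : e ≤ 5 * t) (hC : ¬ C0 M ν (5 * t) w0) (hd : M.d0 ≤ 1 / 4)
    (hLo : Real.log (tb.Ps.m (yN tb v b t) w0 / tb.Ps.Pr V) ≤ Lo) :
    (tb.Ps.cond V).Pr (fun w => Aly tb v x c e w ∧ ¬ Aly tb v (x + 1) c (5 * t) w) ≤
      2 * (Lo + 1) / N1 + 2 * M.k0 := by
  have hv := R.codes
  set A : Om W X β → Prop := fun w => Aly tb v x c e w ∧ ¬ Aly tb v (x + 1) c (5 * t) w with hA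
  have hac := ac_V (v := v) tb (b := b) (t := t) hw0 hV sV
  -- a function of the letter in the class
  have hAf : ∀ a a', XLo tb v c (5 * t) a = XLo tb v c (5 * t) a' → NPo tb v (5 * t) a = NPo tb v (5 * t) a' →
      (A a ↔ A a') := by
    intro a a' e1 e2
    have e3 : XLo tb v c e a = XLo tb v c e a' := by
      have := XL_le' (M := M) c h2 a a' ((hM.X c _ a a').2 e1)
      exact (hM.X c _ a a').1 this
    have e4 : NPo tb v e a = NPo tb v e a' := by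
      have := NP_le M h2 a a' ((hM.N _ a a').2 e2)
      exact (hM.N _ a a').1 this
    exact and_congr (Aly_fac e3 e4) (not_congr (Aly_fac e1 e2))
  obtain ⟨A', g1, g2⟩ := choice1 (fun u => (BL tb v b t w0).p u ≠ 0) (XLo tb v c (5 * t)) A (fun a a' ha ha' e1 => by
    have q1 := (BL_supp tb hw0 ha).1
    have q2 := (BL_supp tb hw0 ha').1
    exact propext (hAf a a' e1 ((congrArg Prod.snd q1).trans (congrArg Prod.snd q2).symm)))
  have k1 := kl_fwd hac g1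
  have k2 := let_kl (h := h) tb hn hN1 R hbc hbd hcd ht hw0 fV hV sV hLo
  have e1 : (tb.Ps.cond V).Pr A' = (tb.Ps.cond V).Pr A := (tb.Ps.cond V).E_congr fun u hu => by rw [g2 u (hac u hu)]
  have e2 : (BL tb v b t w0).Pr A' = (BL tb v b t w0).Pr A := (BL tb v b t w0).E_congr fun u hu => by rw [g2 u hu]
  have e3 : (BL tb v b t w0).Pr A = tb.Ps.ce (yN tb v b t) (fun u => ind (A u)) w0 := by
    unfold BL
    rw [cond_pr (BL_ne tb b t hw0), ce_ind]
    rfl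
  have hB : ∀ a a', tb.Ps.p a ≠ 0 → tb.Ps.p a' ≠ 0 → LS M {c} ∅ (5 * t) a = LS M {c} ∅ (5 * t) a' →
      M.NP (5 * t) a = M.NP (5 * t) a' → (A a ↔ A a') := by
    intro a a' _ _ e1 e2
    exact hAf a a' ((hM.X c _ a a').1 ((LS_eq.1 e1).1 c (Finset.mem_singleton_self c))) ((hM.N _ a a').1 e2)
  have hb' : b ∉ ({c} : Finset (Fin 3)) := fun hh => hbc (Finset.mem_singleton.1 hh)
  have m1 := mass_pub tb hM hv (fam1 c) hb' (t := t) (ν := ν) hB hw0
    (fun u hu _ hAu => tl_mov hM hv h1 h2 hd hu hAu.1 hAu.2) hC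
  rw [e1, e2, e3] at k1
  linarith

include hn hN1 R hbc hbd hcd ht hw0 fV hV sV in
/-- **THE MEAN OF THE TEST UNDER AN EVENT OF THE EXACT VERTEX** -/
theorem cls_E (hM : Ro tb v M) (h1 : ν ≤ e) (h2 : e ≤ 5 * t) (hC : ¬ C0 M ν (5 * t) w0) (hd : M.d0 ≤ 1 / 4)
    (hLoV : Real.log (tb.Ps.m (yN tb v b t) w0 / tb.Ps.Pr V) ≤ Lo)
    {f : Om W X β → Om W X β → ℝ}
    (hf1 : ∀ r a a', tb.Ps.p a ≠ 0 → tb.Ps.p a' ≠ 0 → LS M {c, d} {b} e a = LS M {c, d} {b} e a' →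
      M.NP e a = M.NP e a' → f r a = f r a')
    (hf2 : ∀ r r' a, tb.Ps.p r ≠ 0 → tb.Ps.p r' ≠ 0 → tb.Ps.p a ≠ 0 → LS M univ {c, d} e r = LS M univ {c, d} e r' →
      M.NP e r = M.NP e r' → f r a = f r' a)
    {dK Lg : ℝ} (dK0 : 0 ≤ dK)
    (hfe : ∀ r, tb.Ps.p r ≠ 0 → XN tb v b (5 * t) r = XN tb v b (5 * t) w0 → Aly tb v (x + 1) c (5 * t) r →
      Aly tb v (x + 1) d (5 * t) r →
      M.P.ce (fun u => (LF M ({c, d}, ∅) e u, M.NP e u)) (fun u => Real.exp (f r u)) r ≤ Real.exp dK)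
    {Rr : Om W X β → Prop} {g : Om W X β → ℝ}
    (hR : ∀ w, tb.Ps.p w ≠ 0 → XN tb v b (5 * t) w = XN tb v b (5 * t) w0 → Rr w →
      Aly tb v x c e w ∧ Aly tb v x d e w)
    (hg : ∀ w, tb.Ps.p w ≠ 0 → XN tb v b (5 * t) w = XN tb v b (5 * t) w0 → ind (Rr w) * g w = f w w)
    (hgL : ∀ w, Rr w → g w ≤ Lg) (hLg : 0 ≤ Lg) {DC : Om W X β → Prop}
    (hDC : ∀ a a' : Om W X β, a.2.2 = a'.2.2 → (DC a ↔ DC a')) :
    (tb.Ps.cond V).E (fun w => ind (DC w) * (ind (Rr w) * g w)) ≤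
      3 * ((2 * (Lo + 1) + 2 * ((N1 + N1) * Real.log (1 / al))) / (n * N1)) + (Real.exp (8 * M.d0 + dK) - 1) +
      (2 + Lg) * (1025 * EPr n N1 al (2 * Real.exp (x + 1)) Lo + 1024 * M.k0) +
      Lg * (2 * (2 * (Lo + 1) / N1 + 2 * M.k0)) := by
  classical
  have hv := R.codes
  have hV0 : 0 < tb.Ps.Pr V := FP.Pr_pos_of (S := V) hw0 hV
  have hac := ac_V (v := v) tb (b := b) (t := t) hw0 hV sV
  set Q0 := tb.Ps.cond V with hQ0
  set B0 := BL tb v b t w0 with hB0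
  have suppQ : ∀ u, Q0.p u ≠ 0 → V u ∧ tb.Ps.p u ≠ 0 := fun u hu => cond_supp hV0.ne' hu
  have suppB : ∀ u, B0.p u ≠ 0 → yN tb v b t u = yN tb v b t w0 ∧ tb.Ps.p u ≠ 0 := fun u hu => BL_supp tb hw0 hu
  have eNB : ∀ a a', B0.p a ≠ 0 → B0.p a' ≠ 0 → NPo tb v (5 * t) a = NPo tb v (5 * t) a' := fun a a' ha ha' =>
    (congrArg Prod.snd (suppB a ha).1).trans (congrArg Prod.snd (suppB a' ha').1).symm
  set Tyy : Om W X β → Prop := fun w => DC w ∧ Ty tb v x c d t w with hTyy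
  set Un : Om W X β → Prop := fun w => Unm M {c, d} {b} ν e (5 * t) w with hUn
  -- letters in the class
  have hLe : ∀ a a', B0.p a ≠ 0 → B0.p a' ≠ 0 → Fl tb b t a = Fl tb b t a' →
      (XLo tb v c (5 * t) a, XLo tb v d (5 * t) a) = (XLo tb v c (5 * t) a', XLo tb v d (5 * t) a') →
      LS M {c, d} {b} (5 * t) a = LS M {c, d} {b} (5 * t) a' ∧ M.NP (5 * t) a = M.NP (5 * t) a' := fun a a' ha ha' e1 e2 =>
    ⟨ls_of tb hM ht (suppB a ha).2 (suppB a' ha').2 (Prod.mk.inj e2).1 (Prod.mk.inj e2).2 e1,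
      (hM.N _ a a').2 (eNB a a' ha ha')⟩
  have key := mov_dv (Q := Q0) (B := B0) hac (Fl tb b t) (fun u => (XLo tb v c (5 * t) u, XLo tb v d (5 * t) u))
    (fun u => (Fl tb d t u, Fl tb c t u)) (f := f) (Ty := Tyy) (Un := Un) (k := 8 * M.d0 + dK)
    (kap := (2 * (Lo + 1) + 2 * ((N1 + N1) * Real.log (1 / al))) / (n * N1))
    (fun r a a' ha ha' e1 e2 => by
      obtain ⟨q1, q2⟩ := hLe a a' ha ha' e1 e2
      exact hf1 r a a' (suppB a ha).2 (suppB a' ha').2 (LS_le h2 a a' q1) (NP_le M h2 a a' q2))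
    (fun r r' a hr hr' e1 e2 ha _ => by
      have s1 := suppQ r hr
      have s2 := suppQ r' hr'
      have c1 := sV r s1.1
      have c2 := sV r' s2.1
      have eN : M.NP (5 * t) r = M.NP (5 * t) r' :=
        (hM.N _ r r').2 ((congrArg Prod.snd c1).trans (congrArg Prod.snd c2).symm)
      have eb : XLo tb v b (5 * t) r = XLo tb v b (5 * t) r' := (congrArg Prod.fst c1).trans (congrArg Prod.fst c2).symm
      refine hf2 r r' a s1.2 s2.2 (suppB a ha).2 ?_ (NP_le M h2 r r' eN)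
      refine LS_le h2 r r' (LS_eq.2 ⟨fun j _ => ?_, fun i hi => ?_⟩)
      · rcases tri3 b c d j hbc hbd hcd with rfl | rfl | rfl
        · exact (hM.X _ _ r r').2 eb
        · exact (hM.X _ _ r r').2 (Prod.mk.inj e2).1
        · exact (hM.X _ _ r r').2 (Prod.mk.inj e2).2
      · have e5 : 5 * t / 5 = t := by omega
        rw [Finset.mem_insert, Finset.mem_singleton] at hi
        refine (hM.T _ _ r r').2 ?_
        rw [TFo_pt tb (q := 5 * t) (by omega) s1.2 s2.2 i, e5]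
        rcases hi with rfl | rfl
        · exact (Prod.mk.inj e1).2
        · exact (Prod.mk.inj e1).1)
    (fun a a' ha ha' e2 => by
      have eN := eNB a a' ha ha'
      have e3 := Prod.mk.inj e2
      have ey : a.2.2 = a'.2.2 := by
        funext j
        rcases tri3 b c d j hbc hbd hcd with rfl | rfl | rfl
        · exact (congrArg Prod.fst (suppB a ha).1).trans (congrArg Prod.fst (suppB a' ha').1).symm
        · exact congrArg Prod.fst e3.1
        · exact congrArg Prod.fst e3.2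
      exact and_congr (hDC a a' ey) (and_congr (Aly_fac e3.1 eN) (Aly_fac e3.2 eN)))
    (fun a a' ha ha' e1 e2 => by
      obtain ⟨q1, q2⟩ := hLe a a' ha ha' e1 e2
      exact unm_see tb hM hv hbc hbd hcd h2 (suppB a ha).2 (suppB a' ha').2 q1 q2)
    (by have := M.hd0; linarith)
    (fun w hw hT => by
      have sw := suppQ w hw
      have cw := sV w sw.1
      have hwM : M.P.p w ≠ 0 := by rw [hM.P]; exact sw.2
      have q1 : B0.ce (fun u => (XLo tb v c (5 * t) u, XLo tb v d (5 * t) u)) (fun u => ind (Un u) * Real.exp (f w u)) w =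
          M.P.ce (fun u => (LF M ({c, d}, ∅) (5 * t) u, M.NP (5 * t) u)) (fun u => ind (Un u) * Real.exp (f w u)) w := by
        rw [hB0]
        unfold BL
        rw [cls_ce (Y := yN tb v b t) (Z := fun u => (XLo tb v c (5 * t) u, XLo tb v d (5 * t) u))
          (fun u => ind (Un u) * Real.exp (f w u)) hw0 (XN_yN tb b t w w0 cw), hM.P]
        refine tb.Ps.ce_congr_map ?_ ?_ _ w
        · intro a a' e1
          obtain ⟨p1, p2⟩ := Prod.mk.inj e1
          obtain ⟨p3, p4⟩ := Prod.mk.inj p1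
          obtain ⟨p5, p6⟩ := Prod.mk.inj p2
          refine Prod.ext (LF_eq.2 ⟨fun j hj => ?_, fun i hi => absurd hi (Finset.notMem_empty i), ?_⟩)
            ((hM.N _ a a').2 p6)
          · rw [Finset.mem_insert, Finset.mem_singleton] at hj
            rcases hj with rfl | rfl
            · exact (hM.X _ _ a a').2 p3
            · exact (hM.X _ _ a a').2 p4
          · refine (hM.YF).2 ?_
            funext j
            rcases tri3 b c d j hbc hbd hcd with rfl | rfl | rfl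
            · exact p5
            · exact congrArg Prod.fst p3
            · exact congrArg Prod.fst p4
        · intro a a' e1
          obtain ⟨p1, p2⟩ := Prod.mk.inj e1
          have p3 := LF_eq.1 p1
          have p4 := (hM.YF).1 p3.2.2
          refine Prod.ext (Prod.ext ?_ ?_) (Prod.ext (congrFun p4 b) ((hM.N _ a a').1 p2))
          · exact (hM.X _ _ a a').1 (p3.1 c (Finset.mem_insert_self c _))
          · exact (hM.X _ _ a a').1 (p3.1 d (Finset.mem_insert_of_mem (Finset.mem_singleton_self d)))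
      rw [q1]
      have q2 := norm_tr (M := M) (S := {c, d}) (A := {b}) h1 h2 (by linarith) (ψ := f w)
        (fun a a' ha ha' e1 e2 => hf1 w a a' (by rw [hM.P] at ha; exact ha) (by rw [hM.P] at ha'; exact ha')
          (LF_LS.1 e1).1 e2) (Un := Un) (fun _ _ hu => hu) hwM
      refine q2.trans ?_
      rw [Real.exp_add]
      exact mul_le_mul_of_nonneg_left (hfe w sw.2 cw hT.2.1 hT.2.2) (Real.exp_pos _).le)
    (far_kl (h := h) tb hn hN1 R hbc hbd hcd ht hw0 fV hV sV hLoV)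
  -- the rest
  have mU := mass_un (h := h) tb (x := x) hn hN1 R hbc hbd hcd ht hw0 fV hV sV hM h1 h2 hC hLoV
  have mc := mass_tl (h := h) tb (x := x) hn hN1 R hbc hbd hcd ht hw0 fV hV sV hM h1 h2 hC hd hLoV
  have md := mass_tl (h := h) tb (x := x) hn hN1 R hbd hbc hcd.symm ht hw0 fV hV sV hM h1 h2 hC hd hLoV
  have hle : Q0.E (fun w => ind (DC w) * (ind (Rr w) * g w)) ≤
      Q0.E (fun w => ind (Tyy w) * (ind (Un w) * f w w) + Lg * (ind (Ty tb v x c d t w ∧ ¬ Un w) +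
        (ind (Aly tb v x c e w ∧ ¬ Aly tb v (x + 1) c (5 * t) w) +
          ind (Aly tb v x d e w ∧ ¬ Aly tb v (x + 1) d (5 * t) w)))) := by
    refine Q0.E_mono fun w hw => ?_
    have sw := suppQ w hw
    have cw := sV w sw.1
    have n1 := ind_nonneg (Ty tb v x c d t w ∧ ¬ Un w)
    have n2 := ind_nonneg (Aly tb v x c e w ∧ ¬ Aly tb v (x + 1) c (5 * t) w)
    have n3 := ind_nonneg (Aly tb v x d e w ∧ ¬ Aly tb v (x + 1) d (5 * t) w)
    have n4 : 0 ≤ Lg * (ind (Ty tb v x c d t w ∧ ¬ Un w) +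
        (ind (Aly tb v x c e w ∧ ¬ Aly tb v (x + 1) c (5 * t) w) +
          ind (Aly tb v x d e w ∧ ¬ Aly tb v (x + 1) d (5 * t) w))) := mul_nonneg hLg (by linarith)
    by_cases hDw : DC w
    · rw [ind_of hDw, one_mul]
      by_cases hRw : Rr w
      · by_cases hT : Ty tb v x c d t w
        · by_cases hU : Un w
          · rw [ind_of (show Tyy w from ⟨hDw, hT⟩), ind_of hU, one_mul, one_mul, ← hg w sw.2 cw]
            linarith
          · rw [ind_not hU, zero_mul, mul_zero, zero_add, ind_of hRw, one_mul,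
              ind_of (show Ty tb v x c d t w ∧ ¬ Un w from ⟨hT, hU⟩)]
            have := hgL w hRw
            nlinarith
        · rw [ind_not (fun hh : Tyy w => hT hh.2), zero_mul, zero_add, ind_of hRw, one_mul]
          have h3 := hR w sw.2 cw hRw
          have h4 : 1 ≤ ind (Aly tb v x c e w ∧ ¬ Aly tb v (x + 1) c (5 * t) w) +
              ind (Aly tb v x d e w ∧ ¬ Aly tb v (x + 1) d (5 * t) w) := by
            by_cases h5 : Aly tb v (x + 1) c (5 * t) w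
            · have h6 : ¬ Aly tb v (x + 1) d (5 * t) w := fun hh => hT ⟨h5, hh⟩
              rw [ind_of (show Aly tb v x d e w ∧ ¬ Aly tb v (x + 1) d (5 * t) w from ⟨h3.2, h6⟩)]
              linarith
            · rw [ind_of (show Aly tb v x c e w ∧ ¬ Aly tb v (x + 1) c (5 * t) w from ⟨h3.1, h5⟩)]
              linarith
          have := hgL w hRw
          nlinarith
      · have e0 : f w w = 0 := by rw [← hg w sw.2 cw, ind_not hRw, zero_mul]
        rw [ind_not hRw, zero_mul, e0, mul_zero, mul_zero, zero_add]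
        exact n4
    · rw [ind_not hDw, zero_mul, ind_not (fun hh : Tyy w => hDw hh.1), zero_mul, zero_add]
      exact n4
  rw [Q0.E_add, Q0.E_smul, Q0.E_add, Q0.E_add] at hle
  have k1 : Q0.Pr (fun w => Tyy w ∧ ¬ Un w) ≤ Q0.Pr (fun w => Ty tb v x c d t w ∧ ¬ Un w) :=
    Q0.Pr_mono fun w _ hw => ⟨hw.1.2, hw.2⟩
  have i1 : Q0.E (fun w => ind (Ty tb v x c d t w ∧ ¬ Un w)) ≤
      1025 * EPr n N1 al (2 * Real.exp (x + 1)) Lo + 1024 * M.k0 := mU
  have i2 : Q0.E (fun w => ind (Aly tb v x c e w ∧ ¬ Aly tb v (x + 1) c (5 * t) w)) ≤ 2 * (Lo + 1) / N1 + 2 * M.k0 := mc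
  have i3 : Q0.E (fun w => ind (Aly tb v x d e w ∧ ¬ Aly tb v (x + 1) d (5 * t) w)) ≤ 2 * (Lo + 1) / N1 + 2 * M.k0 := md
  have i4 := mul_le_mul_of_nonneg_left (add_le_add i1 (add_le_add i2 i3)) hLg
  have k2 := k1.trans i1
  linarith

end main

end

end Pool.Agent.GMH.YL
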