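import Pool.Agent.GMH.YL4
import Pool.Agent.GMH.UVZ

/-!
# GMH/YL5 (helper36): YOUNG LIVES, ONE LEVEL

Level `t`, states `5 t + j`, `1 ≤ j ≤ 5`, sight `sgt D {b} (t + 1)`, class `XN b (5 t + min j 4)`.
* `lvl_E` : an event of the sight inside the class of a state of the level is (event of the sight of `t` in the class of `5 t`)
  and (cells of the other points);
* `rat1`, `rat2` : the classes with the exact point of `b` along the level;
-/

set_option autoImplicit false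
set_option linter.unusedSectionVars false

namespace Pool.Agent.GMH.YL

open Finset Pool.Agent.PWZ Pool.Agent.M3 Pool.Agent.GM Pool.Agent.GM.Harm Pool.Agent.GMH
open Pool.Agent.GMH.TP Pool.Agent.GMH.TD Pool.Agent.GMH.Dy Pool.Agent.GMH.MVI Pool.Agent.GMH.MVIp
open Pool.Agent.GMH.MV Pool.Agent.GMH.CK Pool.Agent.GMH.KDL Pool.Agent.GMH.UV Pool.Agent.GMH.UVZ
open Pool.Agent.GMH.RarX Pool.Agent.GMH.RarC Pool.Agent.GMH.GamR
open Pool.Agent.GMH.TabF (si si_eq si_fac)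

noncomputable section

variable {X β γ φ : Type} [Fintype X] [Fintype β] [Fintype φ] [Nonempty X] [Nonempty β]
variable {D : HD (Fin 3) X β γ φ} {al : ℝ} {h : D.Thick al} {prr : ℕ → Fin 3 → φ → φ} {T : ℕ} {W : Type} [Fintype W]
variable (tb : Tab D prr T W) {v : ℕ → Finset (Fin 3) → X → (Fin 3 → β) → Pt (Fin 3) X β φ}
variable {b : Fin 3} {t : ℕ} {dg : ℕ → X → ℝ} {Lam : ℝ}

/-- **an event inside a level** -/
theorem lvl_E (hv : Codes D v) (H : D.Hyp dg prr al T Lam) (ht : t < T) {j : ℕ} (hj : 1 ≤ j) (hj4 : j ≤ 4)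
    {w0 : Om W X β} (hw0 : tb.Ps.p w0 ≠ 0) {E : Om W X β → Prop} (fE : Fac (sgt D {b} (t + 1)) E) (hE : E w0) :
    ∃ V : Om W X β → Prop, Fac (sgt D {b} t) V ∧ V w0 ∧ (∀ u, V u → XN tb v b (5 * t) u = XN tb v b (5 * t) w0) ∧
      tb.Ps.Pr (fun u => XN tb v b (5 * t + j) u = XN tb v b (5 * t + j) w0 ∧ E u) ≤ tb.Ps.Pr V ∧
      tb.Ps.Pr V ≤ 4 * tb.Ps.Pr (fun u => XN tb v b (5 * t + j) u = XN tb v b (5 * t + j) w0 ∧ E u) ∧
      ∀ ph : Om W X β → ℝ, tb.Ps.E (fun u => ind (XN tb v b (5 * t + j) u = XN tb v b (5 * t + j) w0 ∧ E u) * ph u) =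
        tb.Ps.Pr V * (tb.Ps.cond V).E (fun u => ind (∀ l, D.qb (t + 1) (u.2.2 l) = D.qb (t + 1) (w0.2.2 l)) * ph u) := by
  classical
  set q := 5 * t + j with hq
  set VK : Om W X β → Prop := fun u => XN tb v b (5 * t) u = XN tb v b (5 * t) w0 ∧
    D.qa (t + 1) u.1 = D.qa (t + 1) w0.1 ∧
    Um v (TP.nc q ∅) ∅ u.1 w0.2.2 = Um v (TP.nc q ∅) ∅ w0.1 w0.2.2 with hVK
  set DC : Om W X β → Prop := fun u => ∀ l, D.qb (t + 1) (u.2.2 l) = D.qb (t + 1) (w0.2.2 l) with hDC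
  set E0 : Om W X β → Prop := fun u => E (u.1, w0.2.1, w0.2.2) with hE0
  have dec : ∀ u, XN tb v b q u = XN tb v b q w0 ↔ VK u ∧ DC u := fun u => XN_dec tb hv hj hj4
  have fV : Fac (sgt (W := W) D {b} t) (fun u => VK u ∧ E0 u) := fun u u' e => by
    have h1 := (sgt_eq.1 e).1
    show ((XN tb v b (5 * t) u = XN tb v b (5 * t) w0 ∧ D.qa (t + 1) u.1 = D.qa (t + 1) w0.1 ∧
        Um v (TP.nc q ∅) ∅ u.1 w0.2.2 = Um v (TP.nc q ∅) ∅ w0.1 w0.2.2) ∧ E (u.1, w0.2.1, w0.2.2)) =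
      ((XN tb v b (5 * t) u' = XN tb v b (5 * t) w0 ∧ D.qa (t + 1) u'.1 = D.qa (t + 1) w0.1 ∧
        Um v (TP.nc q ∅) ∅ u'.1 w0.2.2 = Um v (TP.nc q ∅) ∅ w0.1 w0.2.2) ∧ E (u'.1, w0.2.1, w0.2.2))
    rw [XN_sgt tb hv b t u u' e, h1]
  have hEE : ∀ u, VK u → DC u → (E u ↔ E0 u) := by
    intro u h1 h2
    refine Iff.of_eq (fE _ _ (sgt_eq.2 ⟨rfl, fun l hl => ?_, h2⟩))
    rw [Finset.mem_singleton.1 hl]
    exact congrArg (fun q => q.1.1) h1.1
  have hm0 := tb.Ps.m_pos (sgt D {b} t) hw0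
  have hm1 := tb.Ps.m_pos (sgt D {b} (t + 1)) hw0
  have hδ : tb.Ps.m (sgt D {b} t) w0 ≤ 4 * tb.Ps.m (sgt D {b} (t + 1)) w0 := by
    have h1 := sgt_half tb H {b} ht hw0
    have h2 : ({b} : Finset (Fin 3))ᶜ.card = 2 := by
      rw [Finset.card_compl, Finset.card_singleton]
      rfl
    rw [h2] at h1
    linarith
  have hle : tb.Ps.m (sgt D {b} (t + 1)) w0 ≤ tb.Ps.m (sgt D {b} t) w0 := by
    refine tb.Ps.E_mono fun u _ => ind_mono fun e => ?_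
    obtain ⟨e1, e2, e3⟩ := sgt_eq.1 e
    exact sgt_eq.2 ⟨e1, e2, fun l => qb_mono (D := D) (Nat.le_succ t) (e3 l)⟩
  have sV : ∀ u, (VK u ∧ E0 u) → XN tb v b (5 * t) u = XN tb v b (5 * t) w0 := fun u hu => hu.1.1
  have i1 : tb.Ps.Pr (fun u => (VK u ∧ E0 u) ∧ DC u) * tb.Ps.m (sgt D {b} t) w0 =
    tb.Ps.m (sgt D {b} (t + 1)) w0 * tb.Ps.Pr (fun u => VK u ∧ E0 u) := halve tb w0 hw0 fV sV
  have eq0 : ∀ u, (XN tb v b q u = XN tb v b q w0 ∧ E u) ↔ ((VK u ∧ E0 u) ∧ DC u) := by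
    intro u
    rw [dec u]
    constructor
    · rintro ⟨⟨g1, g2⟩, g3⟩
      exact ⟨⟨g1, (hEE u g1 g2).1 g3⟩, g2⟩
    · rintro ⟨⟨g1, g3⟩, g2⟩
      exact ⟨⟨g1, g2⟩, (hEE u g1 g2).2 g3⟩
  have e1 : tb.Ps.Pr (fun u => XN tb v b q u = XN tb v b q w0 ∧ E u) = tb.Ps.Pr (fun u => (VK u ∧ E0 u) ∧ DC u) :=
    tb.Ps.E_congr fun u _ => congrArg ind (propext (eq0 u))
  have hV0 : (VK w0 ∧ E0 w0) := ⟨⟨rfl, rfl, rfl⟩, hE⟩
  have hVp : 0 < tb.Ps.Pr (fun u => VK u ∧ E0 u) := FP.Pr_pos_of (S := fun u => VK u ∧ E0 u) hw0 hV0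
  refine ⟨fun u => VK u ∧ E0 u, fV, hV0, sV, ?_, ?_, fun ph => ?_⟩
  · rw [e1]
    exact tb.Ps.Pr_mono fun u _ hu => hu.1
  · rw [e1]
    have h1 : tb.Ps.m (sgt D {b} t) w0 * tb.Ps.Pr (fun u => VK u ∧ E0 u) ≤
        4 * (tb.Ps.m (sgt D {b} (t + 1)) w0 * tb.Ps.Pr (fun u => VK u ∧ E0 u)) := by nlinarith
    rw [← i1] at h1
    have h2 : tb.Ps.Pr (fun u => VK u ∧ E0 u) * tb.Ps.m (sgt D {b} t) w0 ≤
        (4 * tb.Ps.Pr (fun u => (VK u ∧ E0 u) ∧ DC u)) * tb.Ps.m (sgt D {b} t) w0 := by linarith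
    exact le_of_mul_le_mul_right h2 hm0
  · rw [FP.cond_E hVp.ne', mul_div_cancel₀ _ hVp.ne']
    refine tb.Ps.E_congr fun u _ => ?_
    rw [← mul_assoc, ← ind_and]
    congr 2
    exact propext (eq0 u)

/-! ### the classes with the exact point along the level -/

/-- **the digit** -/
theorem rat1 (hv : Codes D v) (H : D.Hyp dg prr al T Lam) (ht : t < T) {lam : ℝ} {w : Om W X β} (hw : tb.Ps.p w ≠ 0)
    (hl : hvy tb v dg lam t w) : tb.Ps.m (yN tb v b t) w ≤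
      4 * Real.exp lam * tb.Ps.m (fun u => (u.2.2 b, NPo tb v (5 * t + 1) u)) w := by
  have y0 : Fac (fun w : Om W X β => w.2.2) (fun u : Om W X β => u.2.2 b) := fun a a' e => congrFun e b
  have y1 : Fac (fun w : Om W X β => w.2.2) (fun u : Om W X β => (u.2.2 b, Yc D (t + 1) u)) := fun a a' e =>
    Prod.ext (congrFun e b) (Yc_fac (t + 1) a a' e)
  have k0 := pr_key tb ∅ t (M := NPo tb v (5 * t)) (NP_sgt tb hv t) (by
    have := NPq_ndE (v := v) tb (5 * t) 0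
    rwa [nn5] at this) y0 w
  have k1 := pr_key tb ∅ t (M := DN tb v dg t) (DN_sgt tb hv dg t) (DN_nd tb dg t) y1 w
  have s0 := pr_key tb ∅ t (M := sgt D ∅ t) (fun _ _ e => e) (sgt_ndE ∅ t) y0 w
  have s1 := pr_key tb ∅ t (M := sgt D ∅ t) (fun _ _ e => e) (sgt_ndE ∅ t) y1 w
  have e0 : tb.Ps.m (fun u => (u.2.2 b, sgt D ∅ t u)) w = tb.Ps.m (sgt D {b} t) w := by
    refine tb.Ps.m_congr ?_ ?_ w
    · intro a a' e
      obtain ⟨g1, g2⟩ := Prod.mk.inj e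
      have g3 := sgt_eq.1 g2
      exact sgt_eq.2 ⟨g3.1, fun l hl => by rw [Finset.mem_singleton.1 hl]; exact g1, g3.2.2⟩
    · intro a a' e
      have g3 := sgt_eq.1 e
      exact Prod.ext (g3.2.1 b (Finset.mem_singleton_self b))
        (sgt_eq.2 ⟨g3.1, fun l hl => absurd hl (Finset.notMem_empty l), g3.2.2⟩)
  have e1 : tb.Ps.m (fun u => ((u.2.2 b, Yc D (t + 1) u), sgt D ∅ t u)) w = tb.Ps.m (sgt D {b} (t + 1)) w := by
    refine tb.Ps.m_congr ?_ ?_ w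
    · intro a a' e
      obtain ⟨g1, g2⟩ := Prod.mk.inj e
      obtain ⟨g4, g5⟩ := Prod.mk.inj g1
      have g3 := sgt_eq.1 g2
      exact sgt_eq.2 ⟨g3.1, fun l hl => by rw [Finset.mem_singleton.1 hl]; exact g4, fun l => congrFun g5 l⟩
    · intro a a' e
      have g3 := sgt_eq.1 e
      exact Prod.ext (Prod.ext (g3.2.1 b (Finset.mem_singleton_self b)) (funext g3.2.2))
        (sgt_eq.2 ⟨g3.1, fun l hl => absurd hl (Finset.notMem_empty l),
          fun l => qb_mono (D := D) (Nat.le_succ t) (g3.2.2 l)⟩)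
  have e2 : tb.Ps.m (fun u => (u.2.2 b, NPo tb v (5 * t + 1) u)) w =
      tb.Ps.m (fun u => ((u.2.2 b, Yc D (t + 1) u), DN tb v dg t u)) w := by
    refine tb.Ps.m_congr ?_ ?_ w
    · intro a a' e
      obtain ⟨g1, g2⟩ := Prod.mk.inj e
      have g3 := Prod.mk.inj ((NP51_dig tb H ht).1 g2)
      exact Prod.ext (Prod.ext g1 g3.1) g3.2
    · intro a a' e
      obtain ⟨g1, g2⟩ := Prod.mk.inj e
      obtain ⟨g4, g5⟩ := Prod.mk.inj g1
      exact Prod.ext g4 ((NP51_dig tb H ht).2 (Prod.ext g5 g2))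
  have hh := sgt_half tb H {b} ht hw
  have h2 : ({b} : Finset (Fin 3))ᶜ.card = 2 := by
    rw [Finset.card_compl, Finset.card_singleton]
    rfl
  rw [h2, ← e0, ← e1, s0, s1] at hh
  have ms := tb.Ps.m_pos (sgt D ∅ t) hw
  set κ0 := tb.Ps.ce (ndE D ∅ t) (fun u => ind (u.2.2 b = w.2.2 b)) w with hκ0
  set κ1 := tb.Ps.ce (ndE D ∅ t) (fun u => ind ((u.2.2 b, Yc D (t + 1) u) = (w.2.2 b, Yc D (t + 1) w))) w with hκ1
  have hκ : κ0 ≤ 4 * κ1 := by
    have : κ0 * tb.Ps.m (sgt D ∅ t) w ≤ (4 * κ1) * tb.Ps.m (sgt D ∅ t) w := by linarith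
    exact le_of_mul_le_mul_right this ms
  have κ1n : 0 ≤ κ1 := tb.Ps.ce_nonneg (fun _ _ => ind_nonneg _) w
  rw [e2, k1]
  show tb.Ps.m (fun u => (u.2.2 b, NPo tb v (5 * t) u)) w ≤ _
  rw [k0]
  have p1 := tb.Ps.m_nonneg (NPo tb v (5 * t)) w
  have h6 : tb.Ps.m (NPo tb v (5 * t)) w ≤ Real.exp lam * tb.Ps.m (DN tb v dg t) w := by
    have h7 := mul_le_mul_of_nonneg_left hl (Real.exp_pos lam).le
    rw [← mul_assoc, ← Real.exp_add, add_neg_cancel, Real.exp_zero, one_mul] at h7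
    exact h7
  calc κ0 * tb.Ps.m (NPo tb v (5 * t)) w ≤ (4 * κ1) * tb.Ps.m (NPo tb v (5 * t)) w := mul_le_mul_of_nonneg_right hκ p1
    _ ≤ (4 * κ1) * (Real.exp lam * tb.Ps.m (DN tb v dg t) w) := mul_le_mul_of_nonneg_left h6 (by linarith)
    _ = 4 * Real.exp lam * (κ1 * tb.Ps.m (DN tb v dg t) w) := by ring

/-- **a heavy public value** -/
theorem rat2 (hv : Codes D v) {s : ℕ} (hs : TP.nn s = t + 1) {w : Om W X β}
    (hl : tb.Ps.m (NPo tb v (5 * t + 1)) w ≤ 2 * tb.Ps.m (NPo tb v s) w) :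
    tb.Ps.m (fun u => (u.2.2 b, NPo tb v (5 * t + 1) u)) w ≤ 2 * tb.Ps.m (fun u => (u.2.2 b, NPo tb v s u)) w := by
  have y0 : Fac (fun w : Om W X β => w.2.2) (fun u : Om W X β => u.2.2 b) := fun a a' e => congrFun e b
  have g1 : TP.nn (5 * t + 1) = t + 1 := nn51 t
  have k0 := pr_key tb ∅ (t + 1) (M := NPo tb v (5 * t + 1)) (NP51_sgt tb hv t) (by
    have := NPq_ndE (v := v) tb (5 * t + 1) 0
    rwa [g1] at this) y0 w
  have k1 := pr_key tb ∅ (t + 1) (M := NPo tb v s)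
    (NPq_sgt tb hv hs.le (by rw [← hs]; exact TP.nc_le s ∅) ∅ 0) (by
    have := NPq_ndE (v := v) tb s 0
    rwa [hs] at this) y0 w
  rw [k0, k1]
  have n0 : 0 ≤ tb.Ps.ce (ndE D ∅ (t + 1)) (fun u => ind (u.2.2 b = w.2.2 b)) w :=
    tb.Ps.ce_nonneg (fun _ _ => ind_nonneg _) w
  nlinarith

theorem nn_lv {t j : ℕ} (hj : 1 ≤ j) (hj5 : j ≤ 5) : TP.nn (5 * t + j) = t + 1 := by
  rcases Nat.lt_or_ge j 5 with h1 | h1
  · exact nn_eq hj (by omega)
  · obtain rfl : j = 5 := by omega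
    have := nn5 (t + 1)
    rwa [show 5 * (t + 1) = 5 * t + 5 by ring] at this

/-- the public information after the public value -/
theorem NP_mid {t j : ℕ} (hj : 2 ≤ j) (hj5 : j ≤ 5) : NPo tb v (5 * t + j) = NPo tb v (5 * t + 2) := by
  have e1 : TP.nn (5 * t + j) = TP.nn (5 * t + 2) := by rw [nn_lv (by omega) hj5, nn_lv (by omega) (by omega)]
  have e2 : TP.nc (5 * t + j) ∅ = TP.nc (5 * t + 2) ∅ := by
    have g : ∀ i, 2 ≤ i → i ≤ 4 → TP.nc (5 * t + i) ∅ = t + 2 := by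
      intro i h1 h2
      rw [TP.nc_add t i (show pth ∅ by unfold pth; simp) (by omega)]
      unfold TP.ncj TP.rk
      rw [if_pos rfl, if_pos (by omega)]
    rw [g 2 le_rfl (by omega)]
    rcases Nat.lt_or_ge j 5 with h1 | h1
    · exact g j hj (by omega)
    · obtain rfl : j = 5 := by omega
      have := nc5 (t + 1) (∅ : Finset (Fin 3))
      rw [show 5 * (t + 1) = 5 * t + 5 by ring] at this
      rw [this]
  funext w
  show (Um v (TP.nc (5 * t + j) ∅) ∅ w.1 w.2.2, (D.qa (TP.nn (5 * t + j)) w.1, fun i => D.qb (TP.nn (5 * t + j)) (w.2.2 i))) =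
    (Um v (TP.nc (5 * t + 2) ∅) ∅ w.1 w.2.2, (D.qa (TP.nn (5 * t + 2)) w.1, fun i => D.qb (TP.nn (5 * t + 2)) (w.2.2 i)))
  rw [e1, e2]

/-! ### one step -/

section step

variable {M : US (Om W X β)}

/-- the class of the step `q` -/
def Kq (v : ℕ → Finset (Fin 3) → X → (Fin 3 → β) → Pt (Fin 3) X β φ) (b : Fin 3) (q : ℕ) (w : Om W X β) :=
  XN tb v b (5 * (q / 5) + min (q % 5 + 1) 4) w

/-- the young life of `b` ends in the step `q`, its start is older than the level, own letter alive after the step, the digit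
and the public value are heavy -/
def Fq (M : US (Om W X β)) (v : ℕ → Finset (Fin 3) → X → (Fin 3 → β) → Pt (Fin 3) X β φ) (x lm : ℝ) (b : Fin 3) (q : ℕ)
    (w : Om W X β) : Prop :=
  (nu M.toMS q w < tv M b q w ∧ tv M b q w ≤ 5 * (q / 5)) ∧ (tv M b (q + 1) w = q + 1 ∨ nu M.toMS (q + 1) w = q + 1) ∧
    Aly tb v x b (q + 1) w ∧
    tb.Ps.m (yN tb v b (q / 5)) w ≤ Real.exp lm * tb.Ps.m (fun u => (u.2.2 b, NPo tb v (q + 1) u)) w

/-- the end is not too surprising for the class of the step -/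
def Cq (M : US (Om W X β)) (v : ℕ → Finset (Fin 3) → X → (Fin 3 → β) → Pt (Fin 3) X β φ) (x lm : ℝ) (b : Fin 3) (q : ℕ)
    (w : Om W X β) : Prop := Real.exp (-x) ≤ tb.Ps.ce (Kq tb v b q) (fun u => ind (Fq tb M v x lm b q u)) w

theorem Kq_fine (b : Fin 3) (q : ℕ) : Fac (XN tb v b (q + 1)) (Kq tb v b q) := fun a a' e =>
  XN_mono tb b (show 5 * (q / 5) + min (q % 5 + 1) 4 ≤ q + 1 by omega) a a' e

theorem Kq_crs (b : Fin 3) (q : ℕ) : Fac (Kq tb v b q) (XN tb v b q) := fun a a' e =>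
  XN_mono tb b (show q ≤ 5 * (q / 5) + min (q % 5 + 1) 4 by omega) a a' e

theorem Kq_y (b : Fin 3) (q : ℕ) : Fac (Kq tb v b q) (fun u => (u.2.2 b, NPo tb v (q + 1) u)) := fun a a' e => by
  have e1 : XN tb v b (5 * (q / 5) + min (q % 5 + 1) 4) a = XN tb v b (5 * (q / 5) + min (q % 5 + 1) 4) a' := e
  refine Prod.ext (congrArg (fun q => q.1.1) e1) ?_
  have e2 : NPo tb v (5 * (q / 5) + min (q % 5 + 1) 4) a = NPo tb v (5 * (q / 5) + min (q % 5 + 1) 4) a' := congrArg Prod.snd e1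
  have e3 : NPo tb v (q + 1) = NPo tb v (5 * (q / 5) + min (q % 5 + 1) 4) := by
    rcases Nat.lt_or_ge (q % 5) 4 with h1 | h1
    · congr 1
      omega
    · have e4 : q + 1 = 5 * (q / 5) + 5 := by omega
      have e5 : 5 * (q / 5) + min (q % 5 + 1) 4 = 5 * (q / 5) + 4 := by omega
      rw [e4, e5, NP_mid tb (t := q / 5) (show 2 ≤ 5 by omega) le_rfl, NP_mid tb (t := q / 5) (show 2 ≤ 4 by omega) (by omega)]
  show NPo tb v (q + 1) a = NPo tb v (q + 1) a'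
  rw [e3]
  exact e2

variable {x lm : ℝ} {q : ℕ}

/-- **the clock of the young lives** `tS` is a function of the class of the exact vertex (`tauS`) -/
structure Yc (M : US (Om W X β)) (tb : Tab D prr T W) (v : ℕ → Finset (Fin 3) → X → (Fin 3 → β) → Pt (Fin 3) X β φ)
    (b : Fin 3) (tS : ℕ → Om W X β → ℕ) : Prop where
  fac : ∀ s, Fac (XN tb v b s) (tS s)
  yg : ∀ s w, nu M.toMS s w < tv M b s w ∨ nu M.toMS s w < tS s w → tv M b s w = tS s w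
  en : ∀ q w, (tv M b (q + 1) w = q + 1 ∨ nu M.toMS (q + 1) w = q + 1) ↔
    (tS (q + 1) w = q + 1 ∨ nu M.toMS (q + 1) w = q + 1)

variable {tS : ℕ → Om W X β → ℕ}

theorem Yc.sw {tb : Tab D prr T W} (Y : Yc M tb v b tS) (s r : ℕ) (w : Om W X β) :
    (nu M.toMS s w < tv M b s w ∧ tv M b s w ≤ r) ↔ (nu M.toMS s w < tS s w ∧ tS s w ≤ r) := by
  constructor
  · rintro ⟨h1, h2⟩
    have h3 := Y.yg s w (Or.inl h1)
    exact ⟨h3 ▸ h1, h3 ▸ h2⟩
  · rintro ⟨h1, h2⟩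
    have h3 := Y.yg s w (Or.inr h1)
    exact ⟨h3.symm ▸ h1, h3.symm ▸ h2⟩

/-- the start of the young life is constant in the class -/
theorem Yc.eq {tb : Tab D prr T W} (Y : Yc M tb v b tS) (Hnu : ∀ s, Fac (NPo tb v s) (nu M.toMS s)) {s : ℕ}
    {a a' : Om W X β} (e : XN tb v b s a = XN tb v b s a') (h : nu M.toMS s a < tv M b s a) :
    tv M b s a' = tv M b s a := by
  have e1 : tS s a = tS s a' := Y.fac s a a' e
  have e2 : nu M.toMS s a = nu M.toMS s a' := Hnu s a a' (congrArg Prod.snd e)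
  have h1 := Y.yg s a (Or.inl h)
  rw [h1] at h
  rw [h1, e1]
  refine Y.yg s a' (Or.inr ?_)
  rw [← e1, ← e2]
  exact h

theorem Fq_fac (Y : Yc M tb v b tS) (Hnu : ∀ s, Fac (NPo tb v s) (nu M.toMS s)) :
    Fac (XN tb v b (q + 1)) (Fq tb M v x lm b q) := fun a a' e => by
  have e1 : tS (q + 1) a = tS (q + 1) a' := Y.fac (q + 1) a a' e
  have e2 : tS q a = tS q a' := Y.fac q a a' (XN_mono tb b (Nat.le_succ q) a a' e)
  have n1 : NPo tb v (q + 1) a = NPo tb v (q + 1) a' := congrArg Prod.snd e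
  have n2 : NPo tb v q a = NPo tb v q a' := NPo_fac tb q a a' n1
  have x1 : XLo tb v b (q + 1) a = XLo tb v b (q + 1) a' := congrArg Prod.fst e
  have e3 : nu M.toMS (q + 1) a = nu M.toMS (q + 1) a' := Hnu (q + 1) a a' n1
  have e4 : nu M.toMS q a = nu M.toMS q a' := Hnu q a a' n2
  have e5 : yN tb v b (q / 5) a = yN tb v b (q / 5) a' :=
    XN_yN tb b (q / 5) a a' (XN_mono tb b (show 5 * (q / 5) ≤ q + 1 by omega) a a' e)
  have e6 := tb.Ps.Fac_m (yN tb v b (q / 5)) a a' e5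
  have e7 := tb.Ps.Fac_m (fun u => (u.2.2 b, NPo tb v (q + 1) u)) a a' (Prod.ext (show a.2.2 b = a'.2.2 b from congrArg Prod.fst x1) n1)
  have e8 : Aly tb v x b (q + 1) a = Aly tb v x b (q + 1) a' := propext (Aly_fac x1 n1)
  unfold Fq
  rw [Y.sw, Y.sw, Y.en, Y.en, e1, e2, e3, e4, e6, e7, e8]

theorem Kq_mass {w : Om W X β} (hF : Fq tb M v x lm b q w) :
    tb.Ps.m (Kq tb v b q) w ≤ Real.exp x * tb.Ps.m (XN tb v b (q + 1)) w := by
  have h1 : tb.Ps.m (Kq tb v b q) w ≤ tb.Ps.m (fun u => (u.2.2 b, NPo tb v (q + 1) u)) w :=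
    tb.Ps.E_mono fun u _ => ind_mono fun e => Kq_y tb b q u w e
  have h2 : Real.exp (-x) * tb.Ps.m (fun u => (u.2.2 b, NPo tb v (q + 1) u)) w ≤ tb.Ps.m (XN tb v b (q + 1)) w := hF.2.2.1
  have h3 := mul_le_mul_of_nonneg_left h2 (Real.exp_pos x).le
  rw [← mul_assoc, ← Real.exp_add, add_neg_cancel, Real.exp_zero, one_mul] at h3
  exact h1.trans h3

theorem Fq_Cq (Y : Yc M tb v b tS) (Hnu : ∀ s, Fac (NPo tb v s) (nu M.toMS s)) {w : Om W X β}
    (hw : tb.Ps.p w ≠ 0) (hF : Fq tb M v x lm b q w) : Cq tb M v x lm b q w := by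
  unfold Cq
  have h1 := Kq_mass tb hF
  have m1 := tb.Ps.m_pos (Kq tb v b q) hw
  rw [ce_ind, le_div_iff₀ m1]
  have h2 : tb.Ps.m (XN tb v b (q + 1)) w ≤ tb.Ps.Pr (fun u => Kq tb v b q u = Kq tb v b q w ∧ Fq tb M v x lm b q u) :=
    tb.Ps.E_mono fun u _ => ind_mono fun e => ⟨Kq_fine tb b q u w e, by rw [Fq_fac tb Y Hnu u w e]; exact hF⟩
  have h3 := mul_le_mul_of_nonneg_left h1 (Real.exp_pos (-x)).le
  rw [← mul_assoc, ← Real.exp_add, neg_add_cancel, Real.exp_zero, one_mul] at h3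
  exact h3.trans h2

theorem Cq_pr : tb.Ps.Pr (Cq tb M v x lm b q) ≤ Real.exp x * tb.Ps.Pr (Fq tb M v x lm b q) := by
  have h1 : tb.Ps.Pr (Cq tb M v x lm b q) ≤
      tb.Ps.E (fun w => Real.exp x * tb.Ps.ce (Kq tb v b q) (fun u => ind (Fq tb M v x lm b q u)) w) := by
    refine tb.Ps.E_mono fun w _ => ?_
    by_cases hC : Cq tb M v x lm b q w
    · rw [ind_of hC]
      have h2 := mul_le_mul_of_nonneg_left hC (Real.exp_pos x).le
      rw [← Real.exp_add, add_neg_cancel, Real.exp_zero] at h2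
      exact h2
    · rw [ind_not hC]
      exact mul_nonneg (Real.exp_pos x).le (tb.Ps.ce_nonneg (fun _ _ => ind_nonneg _) w)
  rw [tb.Ps.E_smul, tb.Ps.E_ce] at h1
  exact h1

theorem Cq_ex {w0 : Om W X β} (hw0 : tb.Ps.p w0 ≠ 0) (hC : Cq tb M v x lm b q w0) :
    ∃ u, tb.Ps.p u ≠ 0 ∧ Kq tb v b q u = Kq tb v b q w0 ∧ Fq tb M v x lm b q u := by
  by_contra hno
  push Not at hno
  unfold Cq at hC
  have h1 : tb.Ps.Pr (fun u => Kq tb v b q u = Kq tb v b q w0 ∧ Fq tb M v x lm b q u) = 0 := by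
    unfold FP.Pr
    rw [tb.Ps.E_congr (g := fun _ => 0) fun u hu => ind_not fun hh => hno u hu hh.1 hh.2, tb.Ps.E_const]
  rw [ce_ind, h1, zero_div] at hC
  exact absurd hC (not_le.2 (Real.exp_pos _))

/-! ### the tables of a start -/

theorem eT_ge (τ : ℕ) (w : Om W X β) : τ ≤ eT v tb τ w := by
  unfold eT
  split_ifs
  · omega
  · exact le_rfl

theorem eT_le5 {τ : ℕ} (hτ : τ ≤ 5 * t) (w : Om W X β) : eT v tb τ w ≤ 5 * t := by
  unfold eT
  split_ifs with hl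
  · have := hl.1
    omega
  · exact hτ

theorem NP_mono {s s' : ℕ} (hs : s ≤ s') : Fac (NPo (W := W) tb v s') (NPo tb v s) := by
  induction hs with
  | refl => exact fun _ _ e => e
  | step _ ih => exact fun x y e => ih x y (NPo_fac tb _ x y e)

theorem eT_NP {τ : ℕ} (hτ : τ ≤ 5 * t) {a a' : Om W X β} (e : NPo tb v (5 * t) a = NPo tb v (5 * t) a') :
    eT v tb τ a = eT v tb τ a' := by
  have h1 : ltL v tb τ a = ltL v tb τ a' := by
    unfold ltL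
    refine propext (and_congr_right fun h2 => ?_)
    rw [tb.Ps.Fac_m (NPo tb v (5 * (τ / 5) + 2)) a a' (NP_mono tb (by omega) a a' e),
      tb.Ps.Fac_m (NPo tb v (5 * (τ / 5) + 1)) a a' (NP_mono tb (by omega) a a' e)]
  unfold eT
  rw [h1]

/-- the bound of the mean -/
def YB (n N1 al x Lo d0 k0 dK Lg : ℝ) : ℝ :=
  3 * ((2 * (Lo + 1) + 2 * ((N1 + N1) * Real.log (1 / al))) / (n * N1)) + (Real.exp (8 * d0 + dK) - 1) +
  (2 + Lg) * (1025 * EPr n N1 al (2 * Real.exp (x + 1)) Lo + 1024 * k0) +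
  Lg * (2 * (2 * (Lo + 1) / N1 + 2 * k0))

variable (M) in
/-- **THE TEST OF THE YOUNG LIVES OF THE EXACT VERTEX** : `f e r a` = value at the hint of `r` (all letters, the tops of `c`, `d`)
and the far top of `a`, tables of the state `e` -/
structure Tst (tb : Tab D prr T W) (v : ℕ → Finset (Fin 3) → X → (Fin 3 → β) → Pt (Fin 3) X β φ) (x : ℝ) (b c d : Fin 3)
    (Rr : ℕ → Om W X β → Prop) (g : ℕ → Om W X β → ℝ) (f : ℕ → Om W X β → Om W X β → ℝ) (dK Lg : ℝ) : Prop where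
  f1 : ∀ e ≤ 5 * T, ∀ r a a', tb.Ps.p a ≠ 0 → tb.Ps.p a' ≠ 0 → LS M.toMS {c, d} {b} e a = LS M.toMS {c, d} {b} e a' →
    M.NP e a = M.NP e a' → f e r a = f e r a'
  f2 : ∀ e ≤ 5 * T, ∀ r r' a, tb.Ps.p r ≠ 0 → tb.Ps.p r' ≠ 0 → tb.Ps.p a ≠ 0 →
    LS M.toMS univ {c, d} e r = LS M.toMS univ {c, d} e r' → M.NP e r = M.NP e r' → f e r a = f e r' a
  fe : ∀ e ≤ 5 * T, ∀ r, tb.Ps.p r ≠ 0 →
    M.P.ce (fun u => (LF M.toMS ({c, d}, ∅) e u, M.NP e u)) (fun u => Real.exp (f e r u)) r ≤ Real.exp dK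
  dK0 : 0 ≤ dK
  Lg0 : 0 ≤ Lg
  al : ∀ τ w, tb.Ps.p w ≠ 0 → Rr τ w → ∀ j s, s ≤ eT v tb τ w → Aly tb v x j s w
  eq : ∀ τ w, tb.Ps.p w ≠ 0 → eT v tb τ w ≤ 5 * T → ind (Rr τ w) * g τ w = f (eT v tb τ w) w w
  le : ∀ τ w, Rr τ w → g τ w ≤ Lg

/-- **RARITY OF THE VIOLATIONS IN ONE STEP** -/
theorem vio_lvl {n N1 : ℝ} (hn : 1 ≤ n) (hN1 : 1 ≤ N1) (R : Run h (pr3 (Fin 3) n N1) (SS1 (Fin 3)) (AdmDep D) v)
    {c d : Fin 3} (hbc : b ≠ c) (hbd : b ≠ d) (hcd : c ≠ d) (H : D.Hyp dg prr al T Lam) (hM : Ro tb v M.toMS)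
    (hS : ∀ s a a', M.S {b} s a = M.S {b} s a' ↔ sgt D {b} (TP.nn s) a = sgt D {b} (TP.nn s) a')
    (Y : Yc M tb v b tS) (Hnu : ∀ s, Fac (NPo tb v s) (nu M.toMS s)) (hd : M.d0 ≤ 1 / 4)
    {Rr : ℕ → Om W X β → Prop} {g : ℕ → Om W X β → ℝ} {f : ℕ → Om W X β → Om W X β → ℝ} {dK Lg : ℝ}
    (TS : Tst M tb v x b c d Rr g f dK Lg) {L1 Lo lam y1 : ℝ} (hLo : (x + lm) + L1 ≤ Lo)
    (l0 : 0 ≤ lam) (y0 : 0 ≤ y1)
    (hnum : 4 * YB n N1 al x Lo M.d0 M.k0 dK Lg < lam * y1) (hq : q < 5 * T) :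
    tb.Ps.Pr (fun w => Cq tb M v x lm b q w ∧ vio M b Rr g lam y1 q w) ≤
      Real.exp (-L1) * tb.Ps.Pr (Cq tb M v x lm b q) := by
  classical
  have hv := R.codes
  set t := q / 5 with ht'
  set j := min (q % 5 + 1) 4 with hj'
  have hj : 1 ≤ j := by omega
  have hj4 : j ≤ 4 := by omega
  have ht : t < T := by omega
  have hnn : TP.nn (q + 1) = t + 1 := by
    have e : q + 1 = 5 * t + (q % 5 + 1) := by omega
    rw [e]
    exact nn_lv (by omega) (by omega)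
  have fK : Fac (sgt (W := W) D {b} (t + 1)) (Kq tb v b q) := fun u w e => by
    show XN tb v b (5 * t + j) u = XN tb v b (5 * t + j) w
    rw [XN_dec tb hv hj hj4]
    obtain ⟨h1, h2, h3⟩ := sgt_eq.1 e
    have h4 : sgt D {b} t u = sgt D {b} t w := sgt_eq.2 ⟨h1, h2, fun l => qb_mono (D := D) (Nat.le_succ t) (h3 l)⟩
    exact ⟨⟨XN_sgt tb hv b t u w h4, by rw [h1], by rw [h1]⟩, h3⟩
  have toS : ∀ a a', sgt D {b} (t + 1) a = sgt D {b} (t + 1) a' → M.S {b} (q + 1) a = M.S {b} (q + 1) a' := fun a a' e =>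
    (hS (q + 1) a a').2 (by rw [hnn]; exact e)
  have ofS : ∀ a a', M.S {b} (q + 1) a = M.S {b} (q + 1) a' → sgt D {b} (t + 1) a = sgt D {b} (t + 1) a' := fun a a' e => by
    have := (hS (q + 1) a a').1 e
    rwa [hnn] at this
  have fV : Fac (M.S {b} (q + 1)) (vio M b Rr g lam y1 q) := fun a a' e => by
    unfold vio mR mG
    rw [M.P.ce_fac (M.S {b} (q + 1)) _ a a' e, M.P.ce_fac (M.S {b} (q + 1)) _ a a' e]
  have fVi : Fac (sgt (W := W) D {b} (t + 1)) (vio M b Rr g lam y1 q) := fun a a' e => fV a a' (toS a a' e)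
  refine rare_ev fK (fun a a' e => by
    unfold Cq
    rw [tb.Ps.ce_fac (Kq tb v b q) _ a a' e]) fVi fun w0 hw0 hC hV hL => ?_
  obtain ⟨u, hu, hKu, hF⟩ := Cq_ex tb hw0 hC
  -- the life and the epoch
  have eτ : tv M b q u = tv M b q w0 := (Y.eq Hnu (Kq_crs tb b q u w0 hKu) hF.1.1).symm
  have eν : nu M.toMS q u = nu M.toMS q w0 := Hnu q u w0 (congrArg Prod.snd (Kq_crs tb b q u w0 hKu))
  set τ := tv M b q w0 with hτ
  set ν := nu M.toMS q w0 with hν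
  have h1 : ν < τ := by rw [← eτ, ← eν]; exact hF.1.1
  have h2 : τ ≤ 5 * t := by rw [← eτ]; exact hF.1.2
  set e := eT v tb τ w0 with he
  have h3 : τ ≤ e := eT_ge tb τ w0
  have h4 : e ≤ 5 * t := eT_le5 tb h2 w0
  have hC0 : ¬ C0 M.toMS ν (5 * t) w0 := stg_in (C := C0 M.toMS) (k := q) (by show nu M.toMS q w0 < 5 * t; omega) (by omega)
  -- masses
  have mK := tb.Ps.m_pos (Kq tb v b q) hw0
  have mX := tb.Ps.m_pos (XN tb v b (5 * t)) hw0
  have mY := tb.Ps.m_pos (yN tb v b t) hw0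
  have g1 : tb.Ps.m (yN tb v b t) w0 ≤ Real.exp (x + lm) * tb.Ps.m (Kq tb v b q) w0 := by
    have e1 : tb.Ps.m (yN tb v b t) u = tb.Ps.m (yN tb v b t) w0 := tb.Ps.Fac_m (yN tb v b t) u w0
      (XN_yN tb b t u w0 (XN_mono tb b (show 5 * t ≤ 5 * t + j by omega) u w0 hKu))
    have e2 : tb.Ps.m (Kq tb v b q) u = tb.Ps.m (Kq tb v b q) w0 := tb.Ps.Fac_m (Kq tb v b q) u w0 hKu
    have e3 := hF.2.2.2
    have e4 : Real.exp (-x) * tb.Ps.m (fun u => (u.2.2 b, NPo tb v (q + 1) u)) u ≤ tb.Ps.m (XN tb v b (q + 1)) u := hF.2.2.1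
    have e5 : tb.Ps.m (XN tb v b (q + 1)) u ≤ tb.Ps.m (Kq tb v b q) u :=
      tb.Ps.E_mono fun z _ => ind_mono fun e => Kq_fine tb b q z u e
    have e6 : tb.Ps.m (fun u => (u.2.2 b, NPo tb v (q + 1) u)) u ≤ Real.exp x * tb.Ps.m (Kq tb v b q) u := by
      have e7 := mul_le_mul_of_nonneg_left (e4.trans e5) (Real.exp_pos x).le
      rw [← mul_assoc, ← Real.exp_add, add_neg_cancel, Real.exp_zero, one_mul] at e7
      exact e7
    rw [← e1, ← e2, Real.exp_add]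
    have e8 := mul_le_mul_of_nonneg_left e6 (Real.exp_pos lm).le
    calc tb.Ps.m (yN tb v b t) u ≤ Real.exp lm * tb.Ps.m (fun u => (u.2.2 b, NPo tb v (q + 1) u)) u := e3
      _ ≤ Real.exp lm * (Real.exp x * tb.Ps.m (Kq tb v b q) u) := e8
      _ = Real.exp x * Real.exp lm * tb.Ps.m (Kq tb v b q) u := by ring
  have g2 : tb.Ps.m (Kq tb v b q) w0 ≤ tb.Ps.m (XN tb v b (5 * t)) w0 :=
    tb.Ps.E_mono fun z _ => ind_mono fun e => XN_mono tb b (show 5 * t ≤ 5 * t + j by omega) z w0 e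
  have g3 : tb.Ps.m (XN tb v b (5 * t)) w0 ≤ tb.Ps.m (yN tb v b t) w0 :=
    tb.Ps.E_mono fun z _ => ind_mono fun e => XN_yN tb b t z w0 e
  have l1 : Real.log (tb.Ps.m (yN tb v b t) w0) ≤ (x + lm) + Real.log (tb.Ps.m (Kq tb v b q) w0) := by
    have := Real.log_le_log mY g1
    rwa [Real.log_mul (Real.exp_pos _).ne' mK.ne', Real.log_exp] at this
  have l2 := Real.log_le_log mK g2
  have l3 := Real.log_le_log mX g3
  -- the level
  obtain ⟨V, v1, v2, v3, v4, v5, v6⟩ := lvl_E tb hv H ht hj hj4 hw0 fVi hV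
  have hPE : 0 < tb.Ps.Pr (fun u => XN tb v b (5 * t + j) u = XN tb v b (5 * t + j) w0 ∧ vio M b Rr g lam y1 q u) :=
    FP.Pr_pos_of (S := fun u => XN tb v b (5 * t + j) u = XN tb v b (5 * t + j) w0 ∧ vio M b Rr g lam y1 q u) hw0 ⟨rfl, hV⟩
  have hPV : 0 < tb.Ps.Pr V := hPE.trans_le v4
  have hL' : Real.log (tb.Ps.m (Kq tb v b q) w0) -
      Real.log (tb.Ps.Pr (fun u => XN tb v b (5 * t + j) u = XN tb v b (5 * t + j) w0 ∧ vio M b Rr g lam y1 q u)) ≤ L1 := by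
    rw [← Real.log_div mK.ne' hPE.ne']
    exact hL
  have l4 := Real.log_le_log hPE v4
  have b1 := cls_E (h := h) tb hn hN1 R hbc hbd hcd ht.le hw0 v1 v2 v3 hM (show ν ≤ e by omega) h4 hC0 hd
    (Lo := Lo) (by rw [Real.log_div mY.ne' hPV.ne']; linarith) (f := f e)
    (TS.f1 e (by omega)) (TS.f2 e (by omega)) TS.dK0 (fun r hr _ _ _ => TS.fe e (by omega) r hr)
    (Rr := Rr τ) (g := g τ)
    (fun w hw hc hR => by
      have e1 : eT v tb τ w = e := eT_NP tb h2 (congrArg Prod.snd hc)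
      exact ⟨TS.al τ w hw hR c e e1.ge, TS.al τ w hw hR d e e1.ge⟩)
    (fun w hw hc => by
      have e1 : eT v tb τ w = e := eT_NP tb h2 (congrArg Prod.snd hc)
      have := TS.eq τ w hw (by omega)
      rwa [e1] at this) (TS.le τ) TS.Lg0
    (DC := fun u => ∀ l, D.qb (t + 1) (u.2.2 l) = D.qb (t + 1) (w0.2.2 l)) (fun a a' e => by rw [e])
  have b2 : (tb.Ps.cond V).E (fun w => ind (∀ l, D.qb (t + 1) (w.2.2 l) = D.qb (t + 1) (w0.2.2 l)) *
      (ind (Rr τ w) * g τ w)) ≤ YB n N1 al x Lo M.d0 M.k0 dK Lg := b1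
  -- the mean
  have b3 := v6 (fun w => ind (Rr τ w) * g τ w)
  set PE : Om W X β → Prop := fun u => XN tb v b (5 * t + j) u = XN tb v b (5 * t + j) w0 ∧ vio M b Rr g lam y1 q u with hPEd
  have fPE : Fac (M.S {b} (q + 1)) (fun u => ind (PE u)) := Fac.ind fun a a' e => by
    have e1 : XN tb v b (5 * t + j) a = XN tb v b (5 * t + j) a' := fK a a' (ofS a a' e)
    show (XN tb v b (5 * t + j) a = XN tb v b (5 * t + j) w0 ∧ vio M b Rr g lam y1 q a) ↔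
      (XN tb v b (5 * t + j) a' = XN tb v b (5 * t + j) w0 ∧ vio M b Rr g lam y1 q a')
    rw [e1, fV a a' e]
  have b4 : tb.Ps.E (fun u => ind (PE u) * (ind (Rr τ u) * g τ u)) =
      tb.Ps.E (fun u => ind (PE u) * mG M b Rr g q u) := by
    have e1 : tb.Ps.E (fun u => ind (PE u) * mG M b Rr g q u) =
        tb.Ps.E (fun u => ind (PE u) * (ind (Rr (tv M b q u) u) * g (tv M b q u) u)) := by
      unfold mG
      rw [hM.P]
      exact tb.Ps.E_mul_ce fPE _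
    rw [e1]
    refine tb.Ps.E_congr fun u _ => ?_
    by_cases hp : PE u
    · have e2 : tv M b q u = τ := Y.eq Hnu (Kq_crs tb b q u w0 hp.1).symm (by show nu M.toMS q w0 < tv M b q w0; exact h1)
      rw [e2]
    · rw [ind_not hp, zero_mul, zero_mul]
  have b5 : lam * y1 * tb.Ps.Pr PE ≤ tb.Ps.E (fun u => ind (PE u) * mG M b Rr g q u) := by
    unfold FP.Pr
    rw [← tb.Ps.E_smul]
    refine tb.Ps.E_mono fun u _ => ?_
    by_cases hp : PE u
    · rw [ind_of hp, mul_one, one_mul]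
      exact (mul_le_mul_of_nonneg_left hp.2.1 l0).trans hp.2.2.le
    · rw [ind_not hp, zero_mul, mul_zero]
  rw [← b4] at b5
  have b6 : tb.Ps.E (fun u => ind (PE u) * (ind (Rr τ u) * g τ u)) ≤
      tb.Ps.Pr V * YB n N1 al x Lo M.d0 M.k0 dK Lg := by
    rw [show tb.Ps.E (fun u => ind (PE u) * (ind (Rr τ u) * g τ u)) = _ from b3]
    exact mul_le_mul_of_nonneg_left b2 hPV.le
  set B := YB n N1 al x Lo M.d0 M.k0 dK Lg
  have b7 := b5.trans b6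
  have v5' : tb.Ps.Pr V ≤ 4 * tb.Ps.Pr PE := v5
  by_cases hB : 0 ≤ B
  · have b8 := mul_le_mul_of_nonneg_right v5' hB
    have b9 : (lam * y1 - 4 * B) * tb.Ps.Pr PE ≤ 0 := by nlinarith
    have b10 : 0 < (lam * y1 - 4 * B) * tb.Ps.Pr PE := mul_pos (by linarith) hPE
    linarith
  · push Not at hB
    have b11 : tb.Ps.Pr V * B < 0 := mul_neg_of_pos_of_neg hPV hB
    have b12 : 0 ≤ lam * y1 * tb.Ps.Pr PE := mul_nonneg (mul_nonneg l0 y0) hPE.le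
    linarith

end step

end

end Pool.Agent.GMH.YL
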