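import Pool.Agent.GMH.YL5

/-!
# GMH/YL6 (helper36): YOUNG LIVES, THE SUM

`VY M Q (5 T) b R g lam y1` (GMH/UVZ) is at most
* `PubL` : public removals at which a young life runs;
* dead letters at the end of the run (each point dies once);
* `5 ∑ Pr (light digit)`;
* `DnS` : starts of young lives inside a level which are dense at once;
* `exp (x - L1)` times the number of the ends.
-/

set_option autoImplicit false
set_option linter.unusedSectionVars false

namespace Pool.Agent.GMH.YL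

open Finset Pool.Agent.PWZ Pool.Agent.M3 Pool.Agent.GM Pool.Agent.GM.Harm Pool.Agent.GMH
open Pool.Agent.GMH.TP Pool.Agent.GMH.TD Pool.Agent.GMH.Dy Pool.Agent.GMH.MVI Pool.Agent.GMH.MVIp
open Pool.Agent.GMH.MV Pool.Agent.GMH.CK Pool.Agent.GMH.KDL Pool.Agent.GMH.UV Pool.Agent.GMH.UVZ
open Pool.Agent.GMH.RarX Pool.Agent.GMH.RarC Pool.Agent.GMH.GamR

noncomputable section

variable {X β γ φ : Type} [Fintype X] [Fintype β] [Fintype φ] [Nonempty X] [Nonempty β]
variable {D : HD (Fin 3) X β γ φ} {al : ℝ} {h : D.Thick al} {prr : ℕ → Fin 3 → φ → φ} {T : ℕ} {W : Type} [Fintype W]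
variable (tb : Tab D prr T W) {v : ℕ → Finset (Fin 3) → X → (Fin 3 → β) → Pt (Fin 3) X β φ}
variable {b : Fin 3} {dg : ℕ → X → ℝ} {Lam : ℝ} {M : US (Om W X β)} {Q : Kd (Om W X β)}

/-- the own letter of `b` is alive at all states up to `s` -/
def Alb (v : ℕ → Finset (Fin 3) → X → (Fin 3 → β) → Pt (Fin 3) X β φ) (x : ℝ) (b : Fin 3) (s : ℕ) (w : Om W X β) : Prop :=
  ∀ r ≤ s, Aly tb v x b r w

/-- start of a young life inside a level, dense at once -/
def Dst (M : US (Om W X β)) (Q : Kd (Om W X β)) (b : Fin 3) (τ : ℕ) (w : Om W X β) : Prop :=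
  (tv M b τ w = τ ∧ τ % 5 ≠ 0) ∧ nu M.toMS τ w < τ ∧ Q.uB ≤ Mx M Q b τ w

/-- disjoint events -/
theorem sum_inj {T : ℕ} {A B : ℕ → Prop} {θ : ℕ → ℕ} (hA : ∀ q < T, A q → B (θ q) ∧ θ q < T)
    (hi : ∀ q < T, ∀ q' < T, A q → A q' → θ q = θ q' → q = q') :
    ∑ q ∈ range T, ind (A q) ≤ ∑ τ ∈ range T, ind (B τ) := by
  classical
  have h1 : ∀ q ∈ range T, ind (A q) = ∑ τ ∈ range T, ind (A q ∧ θ q = τ) := by
    intro q hq
    by_cases ha : A q
    · rw [Finset.sum_eq_single (θ q)]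
      · rw [ind_of ha, ind_of ⟨ha, rfl⟩]
      · exact fun τ _ hne => ind_not fun hh => hne hh.2.symm
      · exact fun hn => absurd (Finset.mem_range.2 (hA q (Finset.mem_range.1 hq) ha).2) hn
    · rw [ind_not ha]
      exact (Finset.sum_eq_zero fun τ _ => ind_not fun hh => ha hh.1).symm
  rw [Finset.sum_congr rfl h1, Finset.sum_comm]
  refine Finset.sum_le_sum fun τ _ => ?_
  by_cases hx : ∃ q < T, A q ∧ θ q = τ
  · obtain ⟨q0, h0, h2, h3⟩ := hx
    rw [ind_of (by rw [← h3]; exact (hA q0 h0 h2).1), Finset.sum_eq_single q0]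
    · exact ind_le_one _
    · exact fun q hq hne => ind_not fun hh => hne (hi q (Finset.mem_range.1 hq) q0 h0 hh.1 h2 (hh.2.trans h3.symm))
    · exact fun hn => absurd (Finset.mem_range.2 h0) hn
  · rw [Finset.sum_eq_zero fun q hq => ind_not fun hh => hx ⟨q, Finset.mem_range.1 hq, hh⟩]
    exact ind_nonneg _

/-! ### one point -/

section path

variable {w : Om W X β}

/-- after an end a young life starts later -/
theorem yend_next {q q' : ℕ} (h1 : yend M Q b q w) (h2 : q < q') (h3 : yend M Q b q' w) : q + 1 ≤ tv M b q' w := by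
  have hy : nu M.toMS q' w < tv M b q' w := h3.1.1
  rcases h1.2 with h4 | h4
  · have h5 : tv M b (q + 1) w ≤ tv M b q' w := stg_mono (C := M.Cv b) (show q + 1 ≤ q' by omega) w
    omega
  · have h5 : nu M.toMS (q + 1) w ≤ nu M.toMS q' w := stg_mono (C := C0 M.toMS) (show q + 1 ≤ q' by omega) w
    omega

/-- five substates -/
theorem sum5 (f : ℕ → ℝ) (T : ℕ) : ∑ q ∈ range (5 * T), f (q / 5) = 5 * ∑ t ∈ range T, f t := by
  induction T with
  | zero => simp
  | succ T ih =>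
    rw [show 5 * (T + 1) = 5 * T + 1 + 1 + 1 + 1 + 1 by ring, Finset.sum_range_succ, Finset.sum_range_succ,
      Finset.sum_range_succ, Finset.sum_range_succ, Finset.sum_range_succ, ih, Finset.sum_range_succ,
      show (5 * T) / 5 = T by omega, show (5 * T + 1) / 5 = T by omega, show (5 * T + 1 + 1) / 5 = T by omega,
      show (5 * T + 1 + 1 + 1) / 5 = T by omega, show (5 * T + 1 + 1 + 1 + 1) / 5 = T by omega]
    ring

theorem m_NP (hM : Ro tb v M.toMS) (s : ℕ) (w : Om W X β) : M.P.m (M.NP s) w = tb.Ps.m (NPo tb v s) w := by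
  rw [hM.P]
  exact tb.Ps.m_congr (fun a a' e => (hM.N s a a').1 e) (fun a a' e => (hM.N s a a').2 e) w

/-- not a public removal -/
theorem heavy_of (hM : Ro tb v M.toMS) {q t : ℕ} (h1 : 5 * t + 1 ≤ q) (h2 : q ≤ 5 * t + 4) {w : Om W X β}
    (hn : nu M.toMS q w < 5 * t + 1) (hl : ¬ lt5 M.toMS M.NP q w) :
    tb.Ps.m (NPo tb v (5 * t + 1)) w ≤ 2 * tb.Ps.m (NPo tb v (q + 1)) w := by
  have e1 : NPo tb v (q + 1) = NPo tb v (5 * t + 2) := by
    have := NP_mid tb (v := v) (t := t) (j := q + 1 - 5 * t) (by omega) (by omega)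
    rwa [show 5 * t + (q + 1 - 5 * t) = q + 1 by omega] at this
  have hl' : ¬ lt5 M.toMS M.NP (5 * t + 1) w := by
    rcases Nat.eq_or_lt_of_le h1 with h3 | h3
    · rw [h3]
      exact hl
    · intro hh
      have h4 : nu M.toMS (5 * t + 1 + 1) w = 5 * t + 1 + 1 := stg_pos (C := C0 M.toMS) (by
        unfold C0
        rw [Nat.add_sub_cancel]
        exact Or.inl hh)
      have h5 : nu M.toMS (5 * t + 1 + 1) w ≤ nu M.toMS q w := stg_mono (C := C0 M.toMS) (show 5 * t + 1 + 1 ≤ q by omega) w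
      omega
  unfold lt5 at hl'
  push Not at hl'
  have h6 := hl' ((hM.cd (5 * t + 1)).2 (by omega))
  rw [m_NP tb hM, m_NP tb hM] at h6
  rw [e1]
  exact h6

/-- **the cases of a violation at one point** -/
theorem vy_cases (hv : Codes D v) (H : D.Hyp dg prr al T Lam) (hM : Ro tb v M.toMS) {x lam0 : ℝ} {Rr : ℕ → Om W X β → Prop}
    {g : ℕ → Om W X β → ℝ} {lam y1 : ℝ} {q : ℕ} (hq : q < 5 * T) {w : Om W X β} (hw : tb.Ps.p w ≠ 0)
    (hy : yend M Q b q w) (hv0 : vio M b Rr g lam y1 q w) (hR : Rr (tv M b q w) w) :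
    (lt5 M.toMS M.NP q w ∧ nu M.toMS q w < tv M b q w) ∨ ((yend M Q b q w ∧ Rr (tv M b q w) w) ∧ ¬ Alb tb v x b (q + 1) w) ∨
      ¬ hvy tb v dg lam0 (q / 5) w ∨ (yend M Q b q w ∧ 5 * (q / 5) < tv M b q w) ∨
      (Fq tb M v x (lam0 + Real.log 8) b q w ∧ vio M b Rr g lam y1 q w) := by
  by_cases a1 : lt5 M.toMS M.NP q w ∧ nu M.toMS q w < tv M b q w
  · exact Or.inl a1
  by_cases a2 : Alb tb v x b (q + 1) w
  · by_cases a3 : hvy tb v dg lam0 (q / 5) w
    · by_cases a4 : 5 * (q / 5) < tv M b q w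
      · exact Or.inr (Or.inr (Or.inr (Or.inl ⟨hy, a4⟩)))
      · refine Or.inr (Or.inr (Or.inr (Or.inr ⟨⟨⟨hy.1.1, not_lt.1 a4⟩, hy.2, a2 (q + 1) le_rfl, ?_⟩, hv0⟩)))
        have hn : nu M.toMS q w < tv M b q w := hy.1.1
        have hl : ¬ lt5 M.toMS M.NP q w := fun hh => a1 ⟨hh, hn⟩
        have r1 := rat1 (b := b) tb hv H (show q / 5 < T by omega) hw a3
        have e8 : Real.exp (lam0 + Real.log 8) = 8 * Real.exp lam0 := by
          rw [Real.exp_add, Real.exp_log (by norm_num)]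
          ring
        rw [e8]
        have n0 := Real.exp_pos lam0
        rcases Nat.eq_zero_or_pos (q % 5) with h0 | h0
        · have e1 : 5 * (q / 5) + 1 = q + 1 := by omega
          rw [e1] at r1
          have m0 := tb.Ps.m_nonneg (fun u => (u.2.2 b, NPo tb v (q + 1) u)) w
          have : 0 ≤ Real.exp lam0 * tb.Ps.m (fun u => (u.2.2 b, NPo tb v (q + 1) u)) w := mul_nonneg n0.le m0
          linarith
        · have h1 := heavy_of tb hM (q := q) (t := q / 5) (by omega) (by omega) (w := w) (by omega) hl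
          have r2 := rat2 (b := b) tb hv (s := q + 1) (t := q / 5) (by
            have e : q + 1 = 5 * (q / 5) + (q % 5 + 1) := by omega
            rw [e]
            exact nn_lv (by omega) (by omega)) h1
          have := mul_le_mul_of_nonneg_left r2 (show 0 ≤ 4 * Real.exp lam0 by linarith)
          linarith
    · exact Or.inr (Or.inr (Or.inl a3))
  · exact Or.inr (Or.inl ⟨⟨hy, hR⟩, a2⟩)

/-- the density is constant in a level -/
theorem Mx_lev (hM : Ro tb v M.toMS)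
    (hS : ∀ s a a', M.S {b} s a = M.S {b} s a' ↔ sgt D {b} (TP.nn s) a = sgt D {b} (TP.nn s) a') {τ s : ℕ}
    (h1 : TP.nn τ = TP.nn s) {w : Om W X β} (h2 : tv M b s w = tv M b τ w) : Mx M Q b s w = Mx M Q b τ w := by
  unfold Mx
  rw [h2]
  exact M.P.ce_congr_map (fun a a' e => (hS τ a a').2 (by rw [h1]; exact (hS s a a').1 e))
    (fun a a' e => (hS s a a').2 (by rw [← h1]; exact (hS τ a a').1 e)) _ w

/-- **THE SUM OF THE VIOLATIONS OF THE YOUNG LIVES** -/
theorem vy_sum {n N1 : ℝ} (hn : 1 ≤ n) (hN1 : 1 ≤ N1) (R : Run h (pr3 (Fin 3) n N1) (SS1 (Fin 3)) (AdmDep D) v)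
    {c d : Fin 3} (hbc : b ≠ c) (hbd : b ≠ d) (hcd : c ≠ d) (H : D.Hyp dg prr al T Lam) (hM : Ro tb v M.toMS)
    (hS : ∀ s a a', M.S {b} s a = M.S {b} s a' ↔ sgt D {b} (TP.nn s) a = sgt D {b} (TP.nn s) a')
    {tS : ℕ → Om W X β → ℕ} (Y : Yc M tb v b tS) (Hnu : ∀ s, Fac (NPo tb v s) (nu M.toMS s)) (hd : M.d0 ≤ 1 / 4)
    {Rr : ℕ → Om W X β → Prop} {g : ℕ → Om W X β → ℝ} {f : ℕ → Om W X β → Om W X β → ℝ} {dK Lg x : ℝ}
    (TS : Tst M tb v x b c d Rr g f dK Lg) {L1 Lo lam0 lam y1 : ℝ}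
    (hLo : (x + (lam0 + Real.log 8)) + L1 ≤ Lo) (l0 : 0 ≤ lam) (y0 : 0 ≤ y1)
    (hnum : 4 * YB n N1 al x Lo M.d0 M.k0 dK Lg < lam * y1) :
    VY M Q (5 * T) b Rr g lam y1 ≤
      ∑ q ∈ range (5 * T), tb.Ps.Pr (fun w => lt5 M.toMS M.NP q w ∧ nu M.toMS q w < tv M b q w) +
      tb.Ps.Pr (fun w => ¬ Alb tb v x b (5 * T) w) + 5 * ∑ t ∈ range T, tb.Ps.Pr (fun w => ¬ hvy tb v dg lam0 t w) +
      ∑ τ ∈ range (5 * T), tb.Ps.Pr (Dst M Q b τ) +
      Real.exp (x - L1) * (∑ q ∈ range (5 * T), tb.Ps.Pr (fun w => tv M b (q + 1) w = q + 1) +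
        ∑ q ∈ range (5 * T), tb.Ps.Pr (fun w => nu M.toMS (q + 1) w = q + 1)) := by
  classical
  have hv := R.codes
  set lm := lam0 + Real.log 8 with hlm
  set A1 : ℕ → Om W X β → Prop := fun q w => lt5 M.toMS M.NP q w ∧ nu M.toMS q w < tv M b q w with hA1
  set A2 : ℕ → Om W X β → Prop := fun q w => (yend M Q b q w ∧ Rr (tv M b q w) w) ∧ ¬ Alb tb v x b (q + 1) w with hA2
  set A3 : ℕ → Om W X β → Prop := fun q w => ¬ hvy tb v dg lam0 (q / 5) w with hA3
  set A4 : ℕ → Om W X β → Prop := fun q w => yend M Q b q w ∧ 5 * (q / 5) < tv M b q w with hA4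
  set A5 : ℕ → Om W X β → Prop := fun q w => Fq tb M v x lm b q w ∧ vio M b Rr g lam y1 q w with hA5
  -- pointwise
  have h1 : VY M Q (5 * T) b Rr g lam y1 ≤ ∑ q ∈ range (5 * T), (tb.Ps.Pr (A1 q) + (tb.Ps.Pr (A2 q) + (tb.Ps.Pr (A3 q) +
      (tb.Ps.Pr (A4 q) + tb.Ps.Pr (A5 q))))) := by
    unfold VY
    rw [hM.P]
    refine Finset.sum_le_sum fun q hq => ?_
    unfold FP.Pr
    rw [← FP.E_add, ← FP.E_add, ← FP.E_add, ← FP.E_add]
    refine tb.Ps.E_mono fun w hw => ?_
    have n1 := ind_nonneg (A1 q w)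
    have n2 := ind_nonneg (A2 q w)
    have n3 := ind_nonneg (A3 q w)
    have n4 := ind_nonneg (A4 q w)
    have n5 := ind_nonneg (A5 q w)
    by_cases hy : (yend M Q b q w ∧ vio M b Rr g lam y1 q w) ∧ Rr (tv M b q w) w
    · rw [ind_of hy]
      rcases vy_cases (x := x) (lam0 := lam0) tb hv H hM (Finset.mem_range.1 hq) hw hy.1.1 hy.1.2 hy.2 with a | a | a | a | a
      · rw [ind_of (show A1 q w from a)]; linarith
      · rw [ind_of (show A2 q w from a)]; linarith
      · rw [ind_of (show A3 q w from a)]; linarith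
      · rw [ind_of (show A4 q w from a)]; linarith
      · rw [ind_of (show A5 q w from a)]; linarith
    · rw [ind_not hy]
      linarith
  rw [Finset.sum_add_distrib, Finset.sum_add_distrib, Finset.sum_add_distrib, Finset.sum_add_distrib] at h1
  -- dead letters
  have h2 : ∑ q ∈ range (5 * T), tb.Ps.Pr (A2 q) ≤ tb.Ps.Pr (fun w => ¬ Alb tb v x b (5 * T) w) := by
    unfold FP.Pr
    rw [← FP.E_sum]
    refine tb.Ps.E_mono fun w hw => ?_
    have key : ∀ q q', q < q' → A2 q w → A2 q' w → False := by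
      intro q q' hqq h3 h4
      have h5 := yend_next h3.1.1 hqq h4.1.1
      refine h3.2 fun r hr => ?_
      exact TS.al _ w hw h4.1.2 b r (hr.trans (h5.trans (eT_ge tb _ w)))
    rw [UVZ.sum_one fun s s' h3 h4 => by
      rcases lt_trichotomy s s' with h5 | h5 | h5
      · exact (key s s' h5 h3 h4).elim
      · exact h5
      · exact (key s' s h5 h4 h3).elim]
    refine ind_mono ?_
    rintro ⟨q, hq, h3⟩
    exact fun h4 => h3.2 fun r hr => h4 r (by omega)
  -- digits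
  have h3 : ∑ q ∈ range (5 * T), tb.Ps.Pr (A3 q) = 5 * ∑ t ∈ range T, tb.Ps.Pr (fun w => ¬ hvy tb v dg lam0 t w) :=
    sum5 (fun t => tb.Ps.Pr (fun w => ¬ hvy tb v dg lam0 t w)) T
  -- starts inside a level
  have h4 : ∑ q ∈ range (5 * T), tb.Ps.Pr (A4 q) ≤ ∑ τ ∈ range (5 * T), tb.Ps.Pr (Dst M Q b τ) := by
    unfold FP.Pr
    rw [← FP.E_sum, ← FP.E_sum]
    refine tb.Ps.E_mono fun w _ => ?_
    refine sum_inj (θ := fun q => tv M b q w) (fun q hq ha => ?_) (fun q _ q' _ ha ha' e => ?_)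
    · have e0 : tv M b q w ≤ q := UVZ.tau_le b q w
      obtain ⟨s', s1, s2, s3⟩ := ha.1.1.2
      have h5 : 5 * (q / 5) < tv M b q w := ha.2
      refine ⟨⟨⟨stg_idem q w, by omega⟩, ?_, ?_⟩, by omega⟩
      · exact lt_of_le_of_lt (stg_mono (C := C0 M.toMS) e0 w) ha.1.1.1
      · have e1 : tv M b s' w = tv M b q w := stg_mid rfl s1 s2
        have e2 : tv M b (tv M b q w) w = tv M b q w := stg_idem q w
        have nnq : ∀ r, 5 * (q / 5) < r → r ≤ q → TP.nn r = q / 5 + 1 := by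
          intro r r1 r2
          have e : r = 5 * (q / 5) + (r - 5 * (q / 5)) := by omega
          rw [e]
          exact nn_lv (by omega) (by omega)
        have e3 := Mx_lev (Q := Q) tb hM hS (τ := tv M b q w) (s := s') (w := w)
          (by rw [nnq _ h5 e0, nnq _ (by omega) s2]) (by rw [e1, e2])
        rw [← e3]
        exact s3.1
    · rcases lt_trichotomy q q' with h5 | h5 | h5
      · have h6 := yend_next ha.1 h5 ha'.1
        have h7 : tv M b q w ≤ q := UVZ.tau_le b q w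
        exact absurd e (by show ¬ tv M b q w = tv M b q' w; omega)
      · exact h5
      · have h6 := yend_next ha'.1 h5 ha.1
        have h7 : tv M b q' w ≤ q' := UVZ.tau_le b q' w
        exact absurd e (by show ¬ tv M b q w = tv M b q' w; omega)
  -- the main part
  have h5 : ∑ q ∈ range (5 * T), tb.Ps.Pr (A5 q) ≤ Real.exp (x - L1) *
      (∑ q ∈ range (5 * T), tb.Ps.Pr (fun w => tv M b (q + 1) w = q + 1) +
        ∑ q ∈ range (5 * T), tb.Ps.Pr (fun w => nu M.toMS (q + 1) w = q + 1)) := by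
    rw [← Finset.sum_add_distrib, Finset.mul_sum]
    refine Finset.sum_le_sum fun q hq => ?_
    have k1 : tb.Ps.Pr (A5 q) ≤ tb.Ps.Pr (fun w => Cq tb M v x lm b q w ∧ vio M b Rr g lam y1 q w) :=
      tb.Ps.Pr_mono fun w hw ha => ⟨Fq_Cq tb Y Hnu hw ha.1, ha.2⟩
    have k2 := vio_lvl tb hn hN1 R hbc hbd hcd H hM hS Y Hnu hd TS hLo l0 y0 hnum (Finset.mem_range.1 hq)
    have k3 := mul_le_mul_of_nonneg_left (Cq_pr tb (M := M) (v := v) (x := x) (lm := lm) (b := b) (q := q))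
      (Real.exp_pos (-L1)).le
    have k4 : tb.Ps.Pr (Fq tb M v x lm b q) ≤ tb.Ps.Pr (fun w => tv M b (q + 1) w = q + 1) +
        tb.Ps.Pr (fun w => nu M.toMS (q + 1) w = q + 1) := by
      unfold FP.Pr
      rw [← FP.E_add]
      refine tb.Ps.E_mono fun w _ => ?_
      have n1 := ind_nonneg (tv M b (q + 1) w = q + 1)
      have n2 := ind_nonneg (nu M.toMS (q + 1) w = q + 1)
      by_cases hF : Fq tb M v x lm b q w
      · rw [ind_of hF]
        rcases hF.2.1 with g1 | g1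
        · rw [ind_of g1]; linarith
        · rw [ind_of g1]; linarith
      · rw [ind_not hF]
        linarith
    have e1 : Real.exp (x - L1) = Real.exp (-L1) * Real.exp x := by
      rw [← Real.exp_add]
      congr 1
      ring
    rw [e1]
    have k5 := mul_le_mul_of_nonneg_left k4 (mul_nonneg (Real.exp_pos (-L1)).le (Real.exp_pos x).le)
    calc tb.Ps.Pr (A5 q) ≤ Real.exp (-L1) * (Real.exp x * tb.Ps.Pr (Fq tb M v x lm b q)) := k1.trans (k2.trans k3)
      _ = Real.exp (-L1) * Real.exp x * tb.Ps.Pr (Fq tb M v x lm b q) := by ring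
      _ ≤ _ := k5
  linarith

end path

end

end Pool.Agent.GMH.YL
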