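import Pool.Agent.GMH.ZonC
import Pool.Agent.GMH.UnmAB

/-!
# GMH/ZonAB (helper98): THE ZONES OF THE TWO THEORIES `(MA, QA)`, `(MB, QB)` over `Ctx`

`M = C.U ka`, `H = ZonC.seen C ka`; relations at `tauS`: `rel0 = Q.kz`.
* `onA`, `onB` : `OnTab`; `rlA`, `rlB` : `Rl` for any relation `R` of the public tables;
* `An_A`, `An_B` : the events of the zones of the theories are `An0` of `M` with the bits `ubn`, if `R` implies alive (and for `B`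
  no status of another vertex);
* `zoA`, `zoB` : the zones (`Zo`); `ns_eq` : the same number of starts.
-/

set_option autoImplicit false
set_option linter.unusedSectionVars false

namespace Pool.Agent.GMH.ZonAB

open Finset Pool.Agent.PWZ Pool.Agent.M3 Pool.Agent.GM Pool.Agent.GM.Harm Pool.Agent.GMH
open Pool.Agent.GMH.V3 Pool.Agent.GMH.TP Pool.Agent.GMH.TD Pool.Agent.GMH.Dy Pool.Agent.GMH.CX Pool.Agent.GMH.TabF
open Pool.Agent.GMH.PayPI (Rn Pays Zo An0 SeT)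
open Pool.Agent.GMH.UV (US Kd Seen tv Prv)
open Pool.Agent.GMH.UV0 (OnTab zzn ubn NS An Rl rl_kz)
open Pool.Agent.GMH.AB Pool.Agent.GMH.SU
open Pool.Agent.GMH.CK Pool.Agent.GMH.MV

noncomputable section

variable (C : Ctx) (ka : ℕ)

/-- the run is seen -/
abbrev Hs : Seen (C.U ka) := ZonC.seen C ka

variable {C ka} {Q : Kd C.O} {yp : ℝ} {K : Finset (Fin 3)}

theorem onA : OnTab (AB.MA (C.U ka) yp (Hs C ka)) C.tb TP.nn where
  hP := rfl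
  hS := fun _ _ _ _ => Iff.rfl
  ht := nn_succ_le
  ht1 := ZonC.nn_s

theorem onB : OnTab (AB.MB (C.U ka) Q yp (Hs C ka)) C.tb TP.nn where
  hP := rfl
  hS := fun _ _ _ _ => Iff.rfl
  ht := nn_succ_le
  ht1 := ZonC.nn_s

theorem rlA {R : ℕ → C.O → Prop} (hR : ∀ n w, R n w → Q.kv Option.none n w) :
    Rl (AB.MA (C.U ka) yp (Hs C ka)) (AB.QA (C.U ka) Q) R (AB.QA (C.U ka) Q).kz ((AB.QA (C.U ka) Q).kv Option.none) Q.Vk :=
  rl_kz (prvA (Hs C ka)) hR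

theorem rlB {R : ℕ → C.O → Prop} (hR : ∀ n w, R n w → Q.kv Option.none n w ∧ ∀ u ∈ K, ¬ sts (C.U ka).toMS u n w) :
    Rl (AB.MB (C.U ka) Q yp (Hs C ka)) (AB.QB (C.U ka) Q K) R (AB.QB (C.U ka) Q K).kz ((AB.QB (C.U ka) Q K).kv Option.none) Q.Vk :=
  rl_kz (prvB (Hs C ka)) hR

section an

variable {T n s : ℕ} {w : C.O} {R : ℕ → C.O → Prop}

theorem nu_n {M : MS C.O} {n s : ℕ} {w : C.O} (h : nu M s w = n) : nu M n w = nu M s w :=
  stg_mid rfl (le_of_eq h) (by rw [← h]; exact stg_le _ _)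

/-- **THEORY A** -/
theorem An_A (hal : ∀ n w, R n w → Q.al n w) (n s : ℕ) (w : C.O) :
    An (AB.MA (C.U ka) yp (Hs C ka)) (AB.QA (C.U ka) Q) T n R (AB.QA (C.U ka) Q).kz Q.Vk s w ↔
      An0 (C.U ka) (fun n => zzn (AB.MA (C.U ka) yp (Hs C ka)) (AB.QA (C.U ka) Q) T n)
        (fun j n s w => ubn (AB.MA (C.U ka) yp (Hs C ka)) (AB.QA (C.U ka) Q) n j s w) R Q.kz Q.Vk n s w := by
  constructor
  · rintro ⟨a1, a2, a3, a4⟩
    refine ⟨a1, a2, a3, fun j hj => ?_⟩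
    have h1 := (a4 j hj).1
    rw [tauS_A (Hs C ka) j s w] at h1
    exact h1
  · rintro ⟨a1, a2, a3, a4⟩
    refine ⟨a1, a2, a3, fun j hj => ⟨?_, Qal_le (a2 j hj).2.2 (hal n w a3)⟩⟩
    rw [tauS_A (Hs C ka) j s w]
    exact a4 j hj

/-- **THEORY B** -/
theorem An_B (hal : ∀ n w, R n w → Q.al n w)
    (hst : ∀ n w, R n w → ∀ j ∈ Q.Vk, ∀ u, u ≠ j → ¬ sts (C.U ka).toMS u n w) (n s : ℕ) (w : C.O) :
    An (AB.MB (C.U ka) Q yp (Hs C ka)) (AB.QB (C.U ka) Q K) T n R (AB.QB (C.U ka) Q K).kz Q.Vk s w ↔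
      An0 (C.U ka) (fun n => zzn (AB.MB (C.U ka) Q yp (Hs C ka)) (AB.QB (C.U ka) Q K) T n)
        (fun j n s w => ubn (AB.MB (C.U ka) Q yp (Hs C ka)) (AB.QB (C.U ka) Q K) n j s w) R Q.kz Q.Vk n s w := by
  constructor
  · rintro ⟨a1, a2, a3, a4⟩
    refine ⟨a1, a2, a3, fun j hj => ?_⟩
    have h1 := (a4 j hj).1.1
    rw [tauS_B (Hs C ka) j s w] at h1
    exact h1
  · rintro ⟨a1, a2, a3, a4⟩
    refine ⟨a1, a2, a3, fun j hj => ⟨⟨?_, Qal_le (a2 j hj).2.2 (hal n w a3)⟩, ?_⟩⟩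
    · rw [tauS_B (Hs C ka) j s w]
      exact a4 j hj
    · have h2 : nu (C.U ka).toMS s w = n := a1.2.1
      rw [nV_ep j w _ _ (nu_tvB (Hs C ka) j s w), ← nV_ep j w _ _ (nu_n h2)]
      exact fun u hu => hst n w a3 j hj u hu

end an

/-- **THE ZONES OF A** -/
theorem zoA {R : ℕ → C.O → Prop} {rel : Fin 3 → ℕ → C.O → Prop} {Vk J : Finset (Fin 3)}
    (hR : SeT C.v C.tb J R) (hrel : ∀ j ∈ Vk, SeT C.v C.tb J (rel j))
    (hal : ∀ n < 5 * C.T, ∀ w, C.tb.Ps.p w ≠ 0 → R n w → Alv C.h C.v C.tb C.p (eT C.v C.tb n w) w) :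
    Zo C.h C.v C.tb (C.U ka) J C.p.X0 (fun n s w => zzn (AB.MA (C.U ka) yp (Hs C ka)) (AB.QA (C.U ka) Q) (5 * C.T) n s w)
      (fun j n s w => ubn (AB.MA (C.U ka) yp (Hs C ka)) (AB.QA (C.U ka) Q) n j s w) R rel Vk :=
  ZonC.zo onA (seenA _ _ _) (fun j _ s a b _ e => UV0.ubn_S onA (seenA _ _ _) j s a b e)
    (fun j _ s w hh => (tau_A (Hs C ka) j s w).trans hh.2.2) hR hrel hal

/-- **THE ZONES OF B** -/
theorem zoB {R : ℕ → C.O → Prop} {rel : Fin 3 → ℕ → C.O → Prop} {Vk J : Finset (Fin 3)}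
    (hR : SeT C.v C.tb J R) (hrel : ∀ j ∈ Vk, SeT C.v C.tb J (rel j))
    (hal : ∀ n < 5 * C.T, ∀ w, C.tb.Ps.p w ≠ 0 → R n w → Alv C.h C.v C.tb C.p (eT C.v C.tb n w) w) :
    Zo C.h C.v C.tb (C.U ka) J C.p.X0 (fun n s w => zzn (AB.MB (C.U ka) Q yp (Hs C ka)) (AB.QB (C.U ka) Q K) (5 * C.T) n s w)
      (fun j n s w => ubn (AB.MB (C.U ka) Q yp (Hs C ka)) (AB.QB (C.U ka) Q K) n j s w) R rel Vk :=
  ZonC.zo onB (seenB _ _ _ _) (fun j _ s a b _ e => UV0.ubn_S onB (seenB _ _ _ _) j s a b e)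
    (fun j _ s w hh => ((tau_A (yp := yp) (Hs C ka) j s w).trans (A_B (Q := Q) (Hs C ka) j s w)).trans hh.2.2) hR hrel hal

end

end Pool.Agent.GMH.ZonAB
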