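import Pool.Agent.GMH.PayPV
import Pool.Agent.GMH.UV0H
import Pool.Agent.GMH.PayNu

/-!
# GMH/ZonU (helper83): THE UNSIGNED SUMS OF THE ZONES, NUMBERS (rows D3, D6 of H3.LEAN)

`M` = the theory (clock `tv M`), `M0` = the run (`toMS` the same) over which the payments `PayPI.Pays` are stated.
* `SW_half`, `SW_third` : sums over the starts; `SW_eq` : the same for `M` and `M0`;
* `mcU_m` : `SW (mcU) ≤ B` for the events `UV0.An` of the theory `M` (`PayPV.mcU_pay`);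
* `rH_le` : `rH ≤ 2 kap NZ + 2 / (kap (M + 1)) NS + √(8 uB) B + NE`; `rT3`, `rT3_le` : three covers (`UV0.ht_sum`), `NA_rT3`;
* `rH_fin`, `NA2_fin`, `rT3_fin`, `NA3_fin` : all together, numbers `kP` of GMH/PayNu;
* `rH_num`, `rT3_num` : in a round `r` : `L rH ≤ 3 x^(-44) + L NE`, `L rT3 ≤ 3 x^(-44) + L NE` (`kap = x^(-m1)`, `lam = x^(-lm)`).
-/

set_option autoImplicit false
set_option linter.unusedSectionVars false

namespace Pool.Agent.GMH.ZonU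

open Finset Pool.Agent.PWZ Pool.Agent.M3 Pool.Agent.GM Pool.Agent.GM.Harm Pool.Agent.GMH
open Pool.Agent.GMH.V3 Pool.Agent.GMH.V3.TG Pool.Agent.GMH.Dy Pool.Agent.GMH.TabF
open Pool.Agent.GMH.TabZ (V3 Nm mcU)
open Pool.Agent.GMH.UV (US Kd Seen Rn tv Prv)
open Pool.Agent.GMH.MV (nu)
open Pool.Agent.GMH.UV0 (SW NA NZ NS NE An zzn ubn OnTab Rl)
open Pool.Agent.GMH.UV0G (rH)
open Pool.Agent.GMH.PayPI (An0 Zo Pays Rd)
open Pool.Agent.GMH.PayPV (RowQ)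

noncomputable section

variable {X β γ φ : Type} [Fintype X] [Fintype β] [Fintype φ] [Nonempty X] [Nonempty β]
variable {D : HD (Fin 3) X β γ φ} {al : ℝ} {h : D.Thick al}
variable {v : ℕ → Finset (Fin 3) → X → (Fin 3 → β) → Pt (Fin 3) X β φ}
variable {prr : ℕ → Fin 3 → φ → φ} {T0 : ℕ} {W : Type} [Fintype W] {tb : Tab D prr T0 W}
variable {M M0 : US (Om W X β)} {Q : Kd (Om W X β)} {tm : ℕ → ℕ} {T : ℕ} {b c d i u1 u2 : Fin 3} {k : Nm}
variable {R : ℕ → Om W X β → Prop} {rel rel0 : Fin 3 → ℕ → Om W X β → Prop} {Vk J : Finset (Fin 3)} {w0 : Om W X β}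

/-! ### sums over the starts -/

theorem SW_lin (a : ℝ) (f g : ℕ → FP (Om W X β) → ℝ) :
    SW M tb tm T (fun n P => f n P + a * g n P) = SW M tb tm T f + a * SW M tb tm T g := by
  unfold UV0.SW
  rw [Finset.mul_sum, ← Finset.sum_add_distrib]
  refine Finset.sum_congr rfl fun n _ => ?_
  rw [← FP.E_smul, ← FP.E_add]
  refine M.P.E_congr fun z _ => ?_
  ring

theorem SW_zero : SW M tb tm T (fun _ _ => 0) = 0 := by
  unfold UV0.SW
  refine Finset.sum_eq_zero fun n _ => ?_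
  have e : (fun z : Om W X β => ind (nu M.toMS n z = n) * (0 : ℝ)) = fun _ => 0 := funext fun z => mul_zero _
  rw [e, FP.E_const]

theorem SW_half (a : ℝ) (f g : ℕ → FP (Om W X β) → ℝ) :
    SW M tb tm T (fun n P => a * ((f n P + g n P) / 2)) = a * ((SW M tb tm T f + SW M tb tm T g) / 2) := by
  have h1 := SW_lin (M := M) (tb := tb) (tm := tm) (T := T) (a / 2) (fun n P => a / 2 * f n P) g
  have h2 := SW_lin (M := M) (tb := tb) (tm := tm) (T := T) (a / 2) (fun _ _ => 0) f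
  rw [SW_zero, zero_add] at h2
  simp only [zero_add] at h2
  rw [h2] at h1
  have e : (fun (n : ℕ) (P : FP (Om W X β)) => a * ((f n P + g n P) / 2)) = fun n P => a / 2 * f n P + a / 2 * g n P := by
    funext n P
    ring
  rw [e, h1]
  ring

theorem SW_third (a : ℝ) (f g h : ℕ → FP (Om W X β) → ℝ) :
    SW M tb tm T (fun n P => a * ((f n P + g n P + h n P) / 3)) =
      a * ((SW M tb tm T f + SW M tb tm T g + SW M tb tm T h) / 3) := by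
  have h2 := SW_lin (M := M) (tb := tb) (tm := tm) (T := T) (a / 3) (fun _ _ => 0) f
  rw [SW_zero, zero_add] at h2
  simp only [zero_add] at h2
  have h1 := SW_lin (M := M) (tb := tb) (tm := tm) (T := T) (a / 3) (fun n P => a / 3 * f n P) g
  have h3 := SW_lin (M := M) (tb := tb) (tm := tm) (T := T) (a / 3) (fun n P => a / 3 * f n P + a / 3 * g n P) h
  rw [h1, h2] at h3
  have e : (fun (n : ℕ) (P : FP (Om W X β)) => a * ((f n P + g n P + h n P) / 3)) =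
      fun n P => a / 3 * f n P + a / 3 * g n P + a / 3 * h n P := by
    funext n P
    ring
  rw [e, h3]
  ring

theorem SW_eq (e : M.toMS = M0.toMS) (f : ℕ → FP (Om W X β) → ℝ) : SW M tb tm T f = SW M0 tb tm T f := by
  unfold UV0.SW
  rw [e]

/-! ### the covers of the theory `M` -/

section pay

variable {dg : ℕ → X → ℝ} {Lam : ℝ} {N : Finset (Fin 3) → ℝ} {SS : Finset (Finset (Fin 3))}
variable {ub : Fin 3 → ℕ → ℕ → Om W X β → Prop} {X0 L B eps q : ℝ} {Nn : ℕ}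

/-- **the unsigned covers of the theory `M` are paid** -/
theorem mcU_m (r : PayPI.Rn h v tb M0 N SS dg Lam) (e : M.toMS = M0.toMS)
    (hAn : ∀ n s w, An M Q (5 * T0) n R rel Vk s w ↔ An0 M0 (fun n => zzn M Q (5 * T0) n) ub R rel0 Vk n s w)
    (zo : Zo h v tb M0 J X0 (fun n => zzn M Q (5 * T0) n) ub R rel0 Vk)
    (hP : Pays h v tb M0 w0 k (fun n => zzn M Q (5 * T0) n) (2 * Real.exp X0) (2 * (1 / al)) (2 * (1 / al)) eps Nn L B)
    (h1 : u1 ≠ i) (h2 : u2 ≠ i) (h12 : u1 ≠ u2) (hq : RowQ h v tb M0 i u1 u2 R q) (q0 : 0 ≤ q) (l0 : 0 < k.lam)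
    (hL : k.lam ≤ L) (he : Real.exp k.lam * (Nn * q) ≤ eps) :
    SW M tb TP.nn (5 * T0) (fun n P => mcU P (zzn M Q (5 * T0) n) D TP.nn (An M Q (5 * T0) n R rel Vk) w0 i u1 u2 k) ≤
      B := by
  rw [SW_eq e]
  have h3 := PayPV.mcU_pay (k := k) (w0 := w0) r zo hP h1 h2 h12 hq q0 l0 hL he
  refine le_trans (le_of_eq ?_) h3
  congr 1
  funext n P
  congr 1
  funext s w
  exact propext (hAn n s w)

/-- **RIGHT SIDE OF `UV0.h_sum`** with the covered masses at most `B` -/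
theorem rH_le {B : ℝ}
    (hc : SW M tb tm T (fun n P => mcU P (zzn M Q T n) D tm (An M Q T n R rel Vk) w0 c b d k) ≤ B)
    (hd : SW M tb tm T (fun n P => mcU P (zzn M Q T n) D tm (An M Q T n R rel Vk) w0 d b c k) ≤ B) :
    rH tb M tm Q T R rel Vk w0 b c d k ≤ 2 * k.kap * NZ M Q T + 2 * (1 / (k.kap * (k.M + 1))) * NS M T +
      Real.sqrt (8 * Q.uB) * B + NE M Q T R := by
  unfold UV0G.rH
  rw [SW_half]
  have h1 := mul_le_mul_of_nonneg_left (show (SW M tb tm T (fun n P => mcU P (zzn M Q T n) D tm (An M Q T n R rel Vk) w0 c b d k) +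
    SW M tb tm T (fun n P => mcU P (zzn M Q T n) D tm (An M Q T n R rel Vk) w0 d b c k)) / 2 ≤ B by linarith)
    (Real.sqrt_nonneg (8 * Q.uB))
  linarith

/-- right side of `UV0.ht_sum` (three covers) -/
def rT3 (tb : Tab D prr T0 W) (M : US (Om W X β)) (tm : ℕ → ℕ) (Q : Kd (Om W X β)) (T : ℕ)
    (R : ℕ → Om W X β → Prop) (rel : Fin 3 → ℕ → Om W X β → Prop) (Vk : Finset (Fin 3)) (w0 : Om W X β) (b c d : Fin 3) (k : Nm) (q : ℝ) : ℝ :=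
  3 * k.kap * NZ M Q T + 3 * (1 / (k.kap * (k.M + 1))) * NS M T +
      SW M tb tm T (fun n P => q *
        ((mcU P (zzn M Q T n) D tm (An M Q T n R rel Vk) w0 b c d k + mcU P (zzn M Q T n) D tm (An M Q T n R rel Vk) w0 c b d k +
          mcU P (zzn M Q T n) D tm (An M Q T n R rel Vk) w0 d b c k) / 3)) + NE M Q T R

/-- **three covers**, with the covered masses at most `B` -/
theorem rT3_le {B q : ℝ} (q0 : 0 ≤ q)
    (hb : SW M tb tm T (fun n P => mcU P (zzn M Q T n) D tm (An M Q T n R rel Vk) w0 b c d k) ≤ B)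
    (hc : SW M tb tm T (fun n P => mcU P (zzn M Q T n) D tm (An M Q T n R rel Vk) w0 c b d k) ≤ B)
    (hd : SW M tb tm T (fun n P => mcU P (zzn M Q T n) D tm (An M Q T n R rel Vk) w0 d b c k) ≤ B) :
    rT3 tb M tm Q T R rel Vk w0 b c d k q ≤ 3 * k.kap * NZ M Q T + 3 * (1 / (k.kap * (k.M + 1))) * NS M T +
      q * B + NE M Q T R := by
  unfold rT3
  rw [SW_third]
  have h1 := mul_le_mul_of_nonneg_left (show (SW M tb tm T (fun n P => mcU P (zzn M Q T n) D tm (An M Q T n R rel Vk) w0 b c d k) +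
    SW M tb tm T (fun n P => mcU P (zzn M Q T n) D tm (An M Q T n R rel Vk) w0 c b d k) +
    SW M tb tm T (fun n P => mcU P (zzn M Q T n) D tm (An M Q T n R rel Vk) w0 d b c k)) / 3 ≤ B by linarith) q0
  linarith

/-- the number of the tuples of the kind `HT` in the zones -/
theorem NA_rT3 (hO : OnTab M tb tm) (H : Seen M) (HD : D.Hyp dg prr al T0 Lam) (hTs : tm T ≤ T0)
    {rln : ℕ → Om W X β → Prop} (hr : Rl M Q R rel rln Vk) (w0 : Om W X β) (hv : V3 b c d)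
    (hK : 1 < k.kap * k.K) (k0 : 0 < k.kap) {q : ℝ} (q0 : 0 ≤ q) (hq : 8 * Q.u0 ≤ q ^ 3) :
    NA M Q T R rel Vk ≤ rT3 tb M tm Q T R rel Vk w0 b c d k q := UV0.ht_sum hO H HD hTs hr w0 hv hK k0 q0 hq

end pay

/-! ### numbers -/

section num

open Pool.Agent.GMH.CT

variable (r : CT.Rd) {Lam : ℝ} (hL : 2 ≤ Lam)

include hL

theorem lm_B {L B : ℝ} (hL0 : 0 ≤ L) (hLb : L ≤ pw Lam r.kL) (B0 : 0 ≤ B) (hB : B ≤ pw Lam (r.kg + r.lm))
    {a c : ℝ} (hc : c ≤ 4 ^ 8) (c0 : 0 ≤ c) (ha : a ≤ c * ix Lam r.sB) : L * (a * B) ≤ ix Lam 44 := by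
  have hx := ix_nn hL r.sB
  have h1 : a * B ≤ c * ix Lam r.sB * pw Lam (r.kg + r.lm) :=
    mul_le_mul ha hB B0 (mul_nonneg c0 hx)
  have h2 := mul_le_mul_of_nonneg_left h1 hL0
  refine h2.trans ?_
  have h6 := t_sB r hL (c := c) (L := L) (GA := pw Lam r.kg) (by linarith) hL0 hLb (pw_pos hL _).le le_rfl
  refine le_trans (le_of_eq ?_) h6
  rw [pw_add]
  ring

/-- **TWO COVERS, IN A ROUND** : `L (2 kap NZ + 2 S + √(8 uB) B + NE) ≤ 3 x^(-44) + L NE` -/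
theorem rH_num {L B Z S E uB : ℝ} (hL0 : 0 ≤ L) (hLb : L ≤ pw Lam r.kL) (B0 : 0 ≤ B)
    (hB : B ≤ pw Lam (r.kg + r.lm)) (hu : uB = ix Lam r.uB) (Z0 : 0 ≤ Z) (hZ : Z ≤ pw Lam r.Z)
    (hS : L * S ≤ ix Lam 45) :
    L * (2 * ix Lam r.m1 * Z + 2 * S + Real.sqrt (8 * uB) * B + E) ≤ 3 * ix Lam 44 + L * E := by
  have h1 := t_m1 r hL (c := 2) (by norm_num) hL0 hLb Z0 hZ
  have h2 := lm_B r hL (a := Real.sqrt (8 * uB)) (c := 4 ^ 4) hL0 hLb B0 hB (by norm_num) (by norm_num)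
    (by rw [hu]; exact sqrt_huB r hL (by norm_num))
  have h3 : 2 * ix Lam 45 ≤ ix Lam 44 := by
    have h4 : 4 * ix Lam 45 ≤ ix Lam 44 := fin hL (CT.cst hL 1 (by norm_num)) (by norm_num)
    have := ix_nn hL 45
    linarith
  have e : L * (2 * ix Lam r.m1 * Z + 2 * S + Real.sqrt (8 * uB) * B + E) =
      2 * L * Z * ix Lam r.m1 + 2 * (L * S) + L * (Real.sqrt (8 * uB) * B) + L * E := by ring
  rw [e]
  linarith

/-- **THREE COVERS, IN A ROUND** (`q = x^(-tt)`) -/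
theorem rT3_num {L B Z S E : ℝ} (hL0 : 0 ≤ L) (hLb : L ≤ pw Lam r.kL) (hB : B ≤ pw Lam (r.kg + r.lm)) (Z0 : 0 ≤ Z)
    (hZ : Z ≤ pw Lam r.Z) (hS : L * S ≤ ix Lam 45) :
    L * (3 * ix Lam r.m1 * Z + 3 * S + ix Lam r.tt * B + E) ≤ 3 * ix Lam 44 + L * E := by
  have h1 := t_m1 r hL (c := 3) (by norm_num) hL0 hLb Z0 hZ
  have h3 : 3 * ix Lam 45 ≤ ix Lam 44 := by
    have h4 : 4 * ix Lam 45 ≤ ix Lam 44 := fin hL (CT.cst hL 1 (by norm_num)) (by norm_num)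
    have := ix_nn hL 45
    linarith
  have h6 := t_tt r hL (c := 1) (L := L) (GA := pw Lam r.kg) (by norm_num) hL0 hLb (pw_pos hL _).le le_rfl
  have h7 : L * (ix Lam r.tt * B) ≤ ix Lam 44 := by
    have h8 := mul_le_mul_of_nonneg_left (mul_le_mul_of_nonneg_left hB (ix_nn hL r.tt)) hL0
    refine h8.trans (le_trans (le_of_eq ?_) h6)
    rw [pw_add]
    ring
  have e : L * (3 * ix Lam r.m1 * Z + 3 * S + ix Lam r.tt * B + E) =
      3 * L * Z * ix Lam r.m1 + 3 * (L * S) + L * (ix Lam r.tt * B) + L * E := by ring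
  rw [e]
  linarith

end num

/-! ### all together -/

section fin

open Pool.Agent.GMH.CT

variable {dg : ℕ → X → ℝ} {Lam : ℝ} {N : Finset (Fin 3) → ℝ} {SS : Finset (Finset (Fin 3))}
variable {ub : Fin 3 → ℕ → ℕ → Om W X β → Prop} {X0 L1 L B eps q : ℝ} {Nn c0 : ℕ} {r : CT.Rd}

/-- **TWO COVERS WHICH MEET AT `b`, IN A ROUND** : rows of `c` and of `d` have own mass `≤ q` -/
theorem rH_fin (rn : PayPI.Rn h v tb M0 N SS dg Lam) (hL : 2 ≤ Lam) (e : M.toMS = M0.toMS)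
    (hAn : ∀ n s w, An M Q (5 * T0) n R rel Vk s w ↔ An0 M0 (fun n => zzn M Q (5 * T0) n) ub R rel0 Vk n s w)
    (zo : Zo h v tb M0 J X0 (fun n => zzn M Q (5 * T0) n) ub R rel0 Vk)
    (hP : Pays h v tb M0 w0 (PayPI.kP Lam r.m1 r.lm c0) (fun n => zzn M Q (5 * T0) n) (2 * Real.exp X0) (2 * (1 / al))
      (2 * (1 / al)) eps Nn L1 B) (hL1 : ix Lam r.lm ≤ L1) (hv : V3 b c d)
    (hc : RowQ h v tb M0 c b d R q) (hd : RowQ h v tb M0 d b c R q) (q0 : 0 ≤ q)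
    (he : Real.exp (ix Lam r.lm) * (Nn * q) ≤ eps) (B0 : 0 ≤ B) (hB : B ≤ pw Lam (r.kg + r.lm)) (hL0 : 0 ≤ L)
    (hLb : L ≤ pw Lam r.kL) (hu : Q.uB = ix Lam r.uB) (hZ : NZ M Q (5 * T0) ≤ pw Lam r.Z)
    (hS : L * (1 / (ix Lam r.m1 * ((Mp Lam c0 : ℝ) + 1)) * NS M (5 * T0)) ≤ ix Lam 45) :
    L * rH tb M TP.nn Q (5 * T0) R rel Vk w0 b c d (PayPI.kP Lam r.m1 r.lm c0) ≤
      3 * ix Lam 44 + L * NE M Q (5 * T0) R := by
  have l0 : 0 < ix Lam r.lm := ix_pos hL _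
  have m1 := mcU_m (M := M) (rel := rel) rn e hAn zo hP hv.bc hv.cd.symm hv.bd hc q0 l0 hL1 he
  have m2 := mcU_m (M := M) (rel := rel) rn e hAn zo hP hv.bd hv.cd hv.bc hd q0 l0 hL1 he
  have z0 : 0 ≤ NZ M Q (5 * T0) := Finset.sum_nonneg fun _ _ => M.P.Pr_nonneg _
  have h1 := rH_le (Q := Q) (tb := tb) (tm := TP.nn) (rel := rel) (w0 := w0) (k := PayPI.kP Lam r.m1 r.lm c0) m1 m2
  refine (mul_le_mul_of_nonneg_left h1 hL0).trans ?_
  have h2 := rH_num r hL (E := NE M Q (5 * T0) R) hL0 hLb B0 hB hu z0 hZ hS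
  refine le_trans (le_of_eq ?_) h2
  show L * (2 * ix Lam r.m1 * NZ M Q (5 * T0) + 2 * (1 / (ix Lam r.m1 * ((Mp Lam c0 : ℝ) + 1))) * NS M (5 * T0) +
    Real.sqrt (8 * Q.uB) * B + NE M Q (5 * T0) R) = _
  ring

/-- **THREE COVERS, IN A ROUND** -/
theorem rT3_fin (rn : PayPI.Rn h v tb M0 N SS dg Lam) (hL : 2 ≤ Lam) (e : M.toMS = M0.toMS)
    (hAn : ∀ n s w, An M Q (5 * T0) n R rel Vk s w ↔ An0 M0 (fun n => zzn M Q (5 * T0) n) ub R rel0 Vk n s w)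
    (zo : Zo h v tb M0 J X0 (fun n => zzn M Q (5 * T0) n) ub R rel0 Vk)
    (hP : Pays h v tb M0 w0 (PayPI.kP Lam r.m1 r.lm c0) (fun n => zzn M Q (5 * T0) n) (2 * Real.exp X0) (2 * (1 / al))
      (2 * (1 / al)) eps Nn L1 B) (hL1 : ix Lam r.lm ≤ L1) (hv : V3 b c d) (hb : RowQ h v tb M0 b c d R q)
    (hc : RowQ h v tb M0 c b d R q) (hd : RowQ h v tb M0 d b c R q) (q0 : 0 ≤ q)
    (he : Real.exp (ix Lam r.lm) * (Nn * q) ≤ eps) (hB : B ≤ pw Lam (r.kg + r.lm)) (hL0 : 0 ≤ L)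
    (hLb : L ≤ pw Lam r.kL) (hZ : NZ M Q (5 * T0) ≤ pw Lam r.Z)
    (hS : L * (1 / (ix Lam r.m1 * ((Mp Lam c0 : ℝ) + 1)) * NS M (5 * T0)) ≤ ix Lam 45) :
    L * rT3 tb M TP.nn Q (5 * T0) R rel Vk w0 b c d (PayPI.kP Lam r.m1 r.lm c0) (ix Lam r.tt) ≤
      3 * ix Lam 44 + L * NE M Q (5 * T0) R := by
  have l0 : 0 < ix Lam r.lm := ix_pos hL _
  have m0 := mcU_m (M := M) (rel := rel) rn e hAn zo hP hv.bc.symm hv.bd.symm hv.cd hb q0 l0 hL1 he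
  have m1 := mcU_m (M := M) (rel := rel) rn e hAn zo hP hv.bc hv.cd.symm hv.bd hc q0 l0 hL1 he
  have m2 := mcU_m (M := M) (rel := rel) rn e hAn zo hP hv.bd hv.cd hv.bc hd q0 l0 hL1 he
  have z0 : 0 ≤ NZ M Q (5 * T0) := Finset.sum_nonneg fun _ _ => M.P.Pr_nonneg _
  have h1 := rT3_le (Q := Q) (tb := tb) (tm := TP.nn) (rel := rel) (w0 := w0) (k := PayPI.kP Lam r.m1 r.lm c0)
    (ix_nn hL r.tt) m0 m1 m2
  refine (mul_le_mul_of_nonneg_left h1 hL0).trans ?_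
  have h2 := rT3_num r hL (E := NE M Q (5 * T0) R) hL0 hLb hB z0 hZ hS
  refine le_trans (le_of_eq ?_) h2
  show L * (3 * ix Lam r.m1 * NZ M Q (5 * T0) + 3 * (1 / (ix Lam r.m1 * ((Mp Lam c0 : ℝ) + 1))) * NS M (5 * T0) +
    ix Lam r.tt * B + NE M Q (5 * T0) R) = _
  ring

/-- the levels of the public covers -/
theorem kP_K (hL : 2 ≤ Lam) (k1 k2 : ℕ) : 1 < (PayPI.kP Lam k1 k2 c0).kap * (PayPI.kP Lam k1 k2 c0).K := Kf_gt hL k1

theorem kP_kap (hL : 2 ≤ Lam) (k1 k2 : ℕ) : 0 < (PayPI.kP Lam k1 k2 c0).kap := ix_pos hL k1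

/-- **the number of the tuples of an unsigned pair kind in the zones** -/
theorem NA2_fin (rn : PayPI.Rn h v tb M0 N SS dg Lam) (hL : 2 ≤ Lam) (hO : OnTab M tb TP.nn) (H : Seen M)
    {rln : ℕ → Om W X β → Prop} (hr : Rl M Q R rel rln Vk) (hb : b ∈ Vk)
    (e : M.toMS = M0.toMS)
    (hAn : ∀ n s w, An M Q (5 * T0) n R rel Vk s w ↔ An0 M0 (fun n => zzn M Q (5 * T0) n) ub R rel0 Vk n s w)
    (zo : Zo h v tb M0 J X0 (fun n => zzn M Q (5 * T0) n) ub R rel0 Vk)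
    (hP : Pays h v tb M0 w0 (PayPI.kP Lam r.m1 r.lm c0) (fun n => zzn M Q (5 * T0) n) (2 * Real.exp X0) (2 * (1 / al))
      (2 * (1 / al)) eps Nn L1 B) (hL1 : ix Lam r.lm ≤ L1) (hv : V3 b c d)
    (hc : RowQ h v tb M0 c b d R q) (hd : RowQ h v tb M0 d b c R q) (q0 : 0 ≤ q)
    (he : Real.exp (ix Lam r.lm) * (Nn * q) ≤ eps) (B0 : 0 ≤ B) (hB : B ≤ pw Lam (r.kg + r.lm)) (hL0 : 0 ≤ L)
    (hLb : L ≤ pw Lam r.kL) (hu : Q.uB = ix Lam r.uB) (hZ : NZ M Q (5 * T0) ≤ pw Lam r.Z)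
    (hS : L * (1 / (ix Lam r.m1 * ((Mp Lam c0 : ℝ) + 1)) * NS M (5 * T0)) ≤ ix Lam 45) :
    L * NA M Q (5 * T0) R rel Vk ≤ 3 * ix Lam 44 + L * NE M Q (5 * T0) R :=
  (mul_le_mul_of_nonneg_left (UV0.h_sum hO H rn.H (PayPI.nn_five T0).le hr w0 hv hb (kP_K hL r.m1 r.lm) (kP_kap hL r.m1 r.lm)) hL0).trans
    (rH_fin rn hL e hAn zo hP hL1 hv hc hd q0 he B0 hB hL0 hLb hu hZ hS)

/-- **the number of the tuples of the kind `HT` in the zones** -/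
theorem NA3_fin (rn : PayPI.Rn h v tb M0 N SS dg Lam) (hL : 2 ≤ Lam) (hO : OnTab M tb TP.nn) (H : Seen M)
    {rln : ℕ → Om W X β → Prop} (hr : Rl M Q R rel rln Vk)
    (e : M.toMS = M0.toMS)
    (hAn : ∀ n s w, An M Q (5 * T0) n R rel Vk s w ↔ An0 M0 (fun n => zzn M Q (5 * T0) n) ub R rel0 Vk n s w)
    (zo : Zo h v tb M0 J X0 (fun n => zzn M Q (5 * T0) n) ub R rel0 Vk)
    (hP : Pays h v tb M0 w0 (PayPI.kP Lam r.m1 r.lm c0) (fun n => zzn M Q (5 * T0) n) (2 * Real.exp X0) (2 * (1 / al))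
      (2 * (1 / al)) eps Nn L1 B) (hL1 : ix Lam r.lm ≤ L1) (hv : V3 b c d) (hb : RowQ h v tb M0 b c d R q)
    (hc : RowQ h v tb M0 c b d R q) (hd : RowQ h v tb M0 d b c R q) (q0 : 0 ≤ q)
    (he : Real.exp (ix Lam r.lm) * (Nn * q) ≤ eps) (hB : B ≤ pw Lam (r.kg + r.lm)) (hL0 : 0 ≤ L)
    (hLb : L ≤ pw Lam r.kL) (hu0 : Q.u0 = ix Lam r.u0) (hZ : NZ M Q (5 * T0) ≤ pw Lam r.Z)
    (hS : L * (1 / (ix Lam r.m1 * ((Mp Lam c0 : ℝ) + 1)) * NS M (5 * T0)) ≤ ix Lam 45) :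
    L * NA M Q (5 * T0) R rel Vk ≤ 3 * ix Lam 44 + L * NE M Q (5 * T0) R :=
  (mul_le_mul_of_nonneg_left (NA_rT3 hO H rn.H (PayPI.nn_five T0).le hr w0 hv (kP_K hL r.m1 r.lm) (kP_kap hL r.m1 r.lm) (ix_nn hL r.tt)
    (by rw [hu0]; exact t_cube r hL (by norm_num))) hL0).trans
    (rT3_fin rn hL e hAn zo hP hL1 hv hb hc hd q0 he hB hL0 hLb hZ hS)

end fin

end

end Pool.Agent.GMH.ZonU
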