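import Pool.Agent.GMH.ZonR
import Pool.Agent.GMH.ZonU
import Pool.Agent.GMH.ZonAB

/-!
# GMH/ZonE (helper98): UNSIGNED NUMBERS OF THE ZONES over `Ctx`, ANY KIND, THE TWO THEORIES

Inputs: the number `NZ` of the zones (`≤ x^Z`), the zones at the very start `NE`; any round `r`.
* `eng2`, `eng3` : two covers which meet at `b` (three covers), any theory over the run, any relation with small rows;
* `Zin` : what is asked of a kind and of a relation `R` of the public tables; `engA2`, `engA3`, `engB2`, `engB3` : `(MA, QA)`,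
  `(MB, QB)` : `L NA ≤ 3 x^(-44) + L NE`.
-/

set_option autoImplicit false
set_option linter.unusedSectionVars false

namespace Pool.Agent.GMH.ZonE

open Finset Pool.Agent.PWZ Pool.Agent.M3 Pool.Agent.GM Pool.Agent.GM.Harm Pool.Agent.GMH
open Pool.Agent.GMH.V3 Pool.Agent.GMH.TP Pool.Agent.GMH.TD Pool.Agent.GMH.Dy Pool.Agent.GMH.CX Pool.Agent.GMH.TabF
open Pool.Agent.GMH.PayPI (Rn Pays Zo An0 SeT kP)
open Pool.Agent.GMH.PayPV (RowQ)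
open Pool.Agent.GMH.TabZ (V3)
open Pool.Agent.GMH.KF (KC)
open Pool.Agent.GMH.UV (US Kd Seen tv Prv)
open Pool.Agent.GMH.UV0 (OnTab zzn ubn NS NZ NA NE An Rl)
open Pool.Agent.GMH.ZonAB
open Pool.Agent.GMH.MV (sts)
open Pool.Agent.GMH.CT (Rd Rounds Rc ix ix_pos ix_nn kE kth Jf KcB rd Mp)

noncomputable section

/-- `L` times the starts against the pieces -/
theorem hS {C : Ctx} {r : Rd} {L S : ℝ} (hL0 : 0 ≤ L) (hLb : L ≤ pw C.Lam r.kL)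
    (hs : S ≤ ix C.Lam (r.kL + 52)) : L * S ≤ ix C.Lam 45 := by
  have hL := C.hL
  have h1 : L * S ≤ L * ix C.Lam (r.kL + 52) := mul_le_mul_of_nonneg_left hs hL0
  refine h1.trans ?_
  have h2 := mul_le_mul_of_nonneg_right hLb (ix_nn hL (r.kL + 52))
  refine h2.trans ?_
  rw [CT.pw_ix_add hL]
  exact CT.ix_anti hL (by norm_num)

theorem Bk (r : Rd) {Lam : ℝ} (hL : 2 ≤ Lam) (hg : 12 ≤ r.kg) : pw Lam (r.lm + 4) ≤ pw Lam (r.kg + r.lm) :=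
  CT.pw_mono hL (by omega)

/-- **TWO COVERS WHICH MEET AT `b`** -/
theorem eng2 {A : ℕ} (hA : 80 ≤ A) (ka : ℕ) (r : Rd) (hg : 12 ≤ r.kg) : AllC A (fun C => ∀ (M : US C.O)
    (_ : M.toMS = (C.U ka).toMS) (_ : OnTab M C.tb TP.nn) (_ : Seen M) (Q : Kd C.O) (R : ℕ → C.O → Prop)
    (rel rel0 : Fin 3 → ℕ → C.O → Prop) (rln : ℕ → C.O → Prop) (Vk J : Finset (Fin 3))
    (ub : Fin 3 → ℕ → ℕ → C.O → Prop) (_ : Rl M Q R rel rln Vk)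
    (_ : ∀ n s w, An M Q (5 * C.T) n R rel Vk s w ↔ An0 (C.U ka) (fun n => zzn M Q (5 * C.T) n) ub R rel0 Vk n s w)
    (_ : Zo C.h C.v C.tb (C.U ka) J C.p.X0 (fun n => zzn M Q (5 * C.T) n) ub R rel0 Vk) (b c d : Fin 3) (_ : V3 b c d)
    (_ : b ∈ Vk) (q : ℝ) (_ : RowQ C.h C.v C.tb (C.U ka) c b d R q) (_ : RowQ C.h C.v C.tb (C.U ka) d b c R q) (_ : 0 ≤ q)
    (_ : q ≤ 4 ^ 12 * ix C.Lam r.q) (_ : Q.uB = ix C.Lam r.uB) (L : ℝ) (_ : 0 ≤ L) (_ : L ≤ pw C.Lam r.kL)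
    (_ : NZ M Q (5 * C.T) ≤ pw C.Lam r.Z),
    L * NA M Q (5 * C.T) R rel Vk ≤ 3 * ix C.Lam 44 + L * NE M Q (5 * C.T) R) := by
  refine ((ZonC.pays_all hA ka r.kL r.m1 r.lm).and (ZonC.ns_rare A ka r)).mono fun C hC M e hO HS Q R rel rel0 rln Vk J ub
    hr hAn zo b c d hv hb q hc hd q0 hq hu L L0 hLb hZ => ?_
  obtain ⟨h1, h2⟩ := hC
  have hL := C.hL
  have w0 : C.O := Classical.arbitrary _
  have hP := h1 w0 (fun n => zzn M Q (5 * C.T) n) (ix C.Lam (kE r.kL r.m1 r.lm + 8)) 1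
    (fun n s w hz => ZonC.zzn_ed e n s w hz) zero_le_one (CT.pw_ge1 hL _) le_rfl
  have hs : 1 / (ix C.Lam r.m1 * ((Mp C.Lam C.c0 : ℝ) + 1)) * NS M (5 * C.T) ≤ ix C.Lam (r.kL + 52) := by
    have e2 : NS M (5 * C.T) = NS (C.U ka) (5 * C.T) := by
      unfold UV0.NS
      rw [e]
    rw [e2]
    exact h2
  exact ZonU.NA2_fin (ZonC.rn C ka) hL hO HS hr hb e hAn zo hP (CT.ix_le_one hL _) hv hc hd q0
    (ZonR.eps_ok hL r hq) (CT.pw_pos hL _).le (Bk r hL hg) L0 hLb hu hZ (hS L0 hLb hs)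

/-- **THREE COVERS** -/
theorem eng3 {A : ℕ} (hA : 80 ≤ A) (ka : ℕ) (r : Rd) (hg : 12 ≤ r.kg) : AllC A (fun C => ∀ (M : US C.O)
    (_ : M.toMS = (C.U ka).toMS) (_ : OnTab M C.tb TP.nn) (_ : Seen M) (Q : Kd C.O) (R : ℕ → C.O → Prop)
    (rel rel0 : Fin 3 → ℕ → C.O → Prop) (rln : ℕ → C.O → Prop) (Vk J : Finset (Fin 3))
    (ub : Fin 3 → ℕ → ℕ → C.O → Prop) (_ : Rl M Q R rel rln Vk)
    (_ : ∀ n s w, An M Q (5 * C.T) n R rel Vk s w ↔ An0 (C.U ka) (fun n => zzn M Q (5 * C.T) n) ub R rel0 Vk n s w)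
    (_ : Zo C.h C.v C.tb (C.U ka) J C.p.X0 (fun n => zzn M Q (5 * C.T) n) ub R rel0 Vk) (b c d : Fin 3) (_ : V3 b c d)
    (q : ℝ) (_ : RowQ C.h C.v C.tb (C.U ka) b c d R q) (_ : RowQ C.h C.v C.tb (C.U ka) c b d R q)
    (_ : RowQ C.h C.v C.tb (C.U ka) d b c R q) (_ : 0 ≤ q)
    (_ : q ≤ 4 ^ 12 * ix C.Lam r.q) (_ : Q.u0 = ix C.Lam r.u0) (L : ℝ) (_ : 0 ≤ L) (_ : L ≤ pw C.Lam r.kL)
    (_ : NZ M Q (5 * C.T) ≤ pw C.Lam r.Z),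
    L * NA M Q (5 * C.T) R rel Vk ≤ 3 * ix C.Lam 44 + L * NE M Q (5 * C.T) R) := by
  refine ((ZonC.pays_all hA ka r.kL r.m1 r.lm).and (ZonC.ns_rare A ka r)).mono fun C hC M e hO HS Q R rel rel0 rln Vk J ub
    hr hAn zo b c d hv q hb hc hd q0 hq hu L L0 hLb hZ => ?_
  obtain ⟨h1, h2⟩ := hC
  have hL := C.hL
  have w0 : C.O := Classical.arbitrary _
  have hP := h1 w0 (fun n => zzn M Q (5 * C.T) n) (ix C.Lam (kE r.kL r.m1 r.lm + 8)) 1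
    (fun n s w hz => ZonC.zzn_ed e n s w hz) zero_le_one (CT.pw_ge1 hL _) le_rfl
  have hs : 1 / (ix C.Lam r.m1 * ((Mp C.Lam C.c0 : ℝ) + 1)) * NS M (5 * C.T) ≤ ix C.Lam (r.kL + 52) := by
    have e2 : NS M (5 * C.T) = NS (C.U ka) (5 * C.T) := by
      unfold UV0.NS
      rw [e]
    rw [e2]
    exact h2
  exact ZonU.NA3_fin (ZonC.rn C ka) hL hO HS hr e hAn zo hP (CT.ix_le_one hL _) hv hb hc hd q0
    (ZonR.eps_ok hL r hq) (Bk r hL hg) L0 hLb hu hZ (hS L0 hLb hs)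

/-! ### the two theories -/

/-- input of a zone: any kind, any relation of the public tables -/
structure Zin (C : Ctx) (ka : ℕ) (Q : Kd C.O) (R : ℕ → C.O → Prop) : Prop where
  kv : ∀ n w, R n w → Q.kv Option.none n w
  al : ∀ n w, R n w → Q.al n w
  alv : ∀ n w, R n w → Alv C.h C.v C.tb C.p (eT C.v C.tb n w) w
  sR : SeT C.v C.tb univ R
  sz : ∀ j ∈ Q.Vk, SeT C.v C.tb univ (Q.kz j)

/-- **TWO COVERS, THEORY A** -/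
theorem engA2 {A : ℕ} (hA : 80 ≤ A) (ka : ℕ) (r : Rd) (hg : 12 ≤ r.kg) : AllC A (fun C => ∀ (Q : Kd C.O)
    (R : ℕ → C.O → Prop) (_ : Zin C ka Q R) (yp : ℝ) (b c d : Fin 3) (_ : V3 b c d) (_ : b ∈ Q.Vk) (q : ℝ)
    (_ : RowQ C.h C.v C.tb (C.U ka) c b d R q) (_ : RowQ C.h C.v C.tb (C.U ka) d b c R q) (_ : 0 ≤ q)
    (_ : q ≤ 4 ^ 12 * ix C.Lam r.q) (_ : Q.uB = ix C.Lam r.uB) (L : ℝ) (_ : 0 ≤ L) (_ : L ≤ pw C.Lam r.kL)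
    (_ : NZ (AB.MA (C.U ka) yp (Hs C ka)) (AB.QA (C.U ka) Q) (5 * C.T) ≤ pw C.Lam r.Z),
    L * NA (AB.MA (C.U ka) yp (Hs C ka)) (AB.QA (C.U ka) Q) (5 * C.T) R (AB.QA (C.U ka) Q).kz Q.Vk ≤
      3 * ix C.Lam 44 + L * NE (AB.MA (C.U ka) yp (Hs C ka)) (AB.QA (C.U ka) Q) (5 * C.T) R) :=
  (eng2 hA ka r hg).mono fun C hC Q R z yp b c d hv hb q hc hd q0 hq hu L L0 hLb hZ =>
    hC (AB.MA (C.U ka) yp (Hs C ka)) rfl onA (AB.seenA _ _ _) (AB.QA (C.U ka) Q) R (AB.QA (C.U ka) Q).kz Q.kz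
      ((AB.QA (C.U ka) Q).kv Option.none) Q.Vk univ
      (fun j n s w => ubn (AB.MA (C.U ka) yp (Hs C ka)) (AB.QA (C.U ka) Q) n j s w) (rlA z.kv) (An_A z.al)
      (zoA z.sR z.sz fun n _ w _ a => z.alv n w a) b c d hv hb q hc hd q0 hq hu L L0 hLb hZ

/-- **TWO COVERS, THEORY B** -/
theorem engB2 {A : ℕ} (hA : 80 ≤ A) (ka : ℕ) (r : Rd) (hg : 12 ≤ r.kg) : AllC A (fun C => ∀ (Q : Kd C.O)
    (R : ℕ → C.O → Prop) (_ : Zin C ka Q R) (K : Finset (Fin 3)) (_ : ∀ n w, R n w → ∀ u ∈ K, ¬ sts (C.U ka).toMS u n w)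
    (_ : ∀ j ∈ Q.Vk, ∀ u, u ≠ j → u ∈ K) (yp : ℝ) (b c d : Fin 3) (_ : V3 b c d) (_ : b ∈ Q.Vk) (q : ℝ)
    (_ : RowQ C.h C.v C.tb (C.U ka) c b d R q) (_ : RowQ C.h C.v C.tb (C.U ka) d b c R q) (_ : 0 ≤ q)
    (_ : q ≤ 4 ^ 12 * ix C.Lam r.q) (_ : Q.uB = ix C.Lam r.uB) (L : ℝ) (_ : 0 ≤ L) (_ : L ≤ pw C.Lam r.kL)
    (_ : NZ (AB.MB (C.U ka) Q yp (Hs C ka)) (AB.QB (C.U ka) Q K) (5 * C.T) ≤ pw C.Lam r.Z),
    L * NA (AB.MB (C.U ka) Q yp (Hs C ka)) (AB.QB (C.U ka) Q K) (5 * C.T) R (AB.QB (C.U ka) Q K).kz Q.Vk ≤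
      3 * ix C.Lam 44 + L * NE (AB.MB (C.U ka) Q yp (Hs C ka)) (AB.QB (C.U ka) Q K) (5 * C.T) R) :=
  (eng2 hA ka r hg).mono fun C hC Q R z K hst hK yp b c d hv hb q hc hd q0 hq hu L L0 hLb hZ =>
    hC (AB.MB (C.U ka) Q yp (Hs C ka)) rfl onB (AB.seenB _ _ _ _) (AB.QB (C.U ka) Q K) R (AB.QB (C.U ka) Q K).kz Q.kz
      ((AB.QB (C.U ka) Q K).kv Option.none) Q.Vk univ
      (fun j n s w => ubn (AB.MB (C.U ka) Q yp (Hs C ka)) (AB.QB (C.U ka) Q K) n j s w)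
      (rlB fun n w a => ⟨z.kv n w a, hst n w a⟩)
      (An_B z.al fun n w a j hj u hu => hst n w a u (hK j hj u hu))
      (zoB z.sR z.sz fun n _ w _ a => z.alv n w a) b c d hv hb q hc hd q0 hq hu L L0 hLb hZ

/-- **THREE COVERS, THEORY A** -/
theorem engA3 {A : ℕ} (hA : 80 ≤ A) (ka : ℕ) (r : Rd) (hg : 12 ≤ r.kg) : AllC A (fun C => ∀ (Q : Kd C.O)
    (R : ℕ → C.O → Prop) (_ : Zin C ka Q R) (yp : ℝ) (b c d : Fin 3) (_ : V3 b c d) (q : ℝ)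
    (_ : RowQ C.h C.v C.tb (C.U ka) b c d R q) (_ : RowQ C.h C.v C.tb (C.U ka) c b d R q)
    (_ : RowQ C.h C.v C.tb (C.U ka) d b c R q) (_ : 0 ≤ q)
    (_ : q ≤ 4 ^ 12 * ix C.Lam r.q) (_ : Q.u0 = ix C.Lam r.u0) (L : ℝ) (_ : 0 ≤ L) (_ : L ≤ pw C.Lam r.kL)
    (_ : NZ (AB.MA (C.U ka) yp (Hs C ka)) (AB.QA (C.U ka) Q) (5 * C.T) ≤ pw C.Lam r.Z),
    L * NA (AB.MA (C.U ka) yp (Hs C ka)) (AB.QA (C.U ka) Q) (5 * C.T) R (AB.QA (C.U ka) Q).kz Q.Vk ≤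
      3 * ix C.Lam 44 + L * NE (AB.MA (C.U ka) yp (Hs C ka)) (AB.QA (C.U ka) Q) (5 * C.T) R) :=
  (eng3 hA ka r hg).mono fun C hC Q R z yp b c d hv q hb hc hd q0 hq hu L L0 hLb hZ =>
    hC (AB.MA (C.U ka) yp (Hs C ka)) rfl onA (AB.seenA _ _ _) (AB.QA (C.U ka) Q) R (AB.QA (C.U ka) Q).kz Q.kz
      ((AB.QA (C.U ka) Q).kv Option.none) Q.Vk univ
      (fun j n s w => ubn (AB.MA (C.U ka) yp (Hs C ka)) (AB.QA (C.U ka) Q) n j s w) (rlA z.kv) (An_A z.al)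
      (zoA z.sR z.sz fun n _ w _ a => z.alv n w a) b c d hv q hb hc hd q0 hq hu L L0 hLb hZ

/-- **THREE COVERS, THEORY B** -/
theorem engB3 {A : ℕ} (hA : 80 ≤ A) (ka : ℕ) (r : Rd) (hg : 12 ≤ r.kg) : AllC A (fun C => ∀ (Q : Kd C.O)
    (R : ℕ → C.O → Prop) (_ : Zin C ka Q R) (K : Finset (Fin 3)) (_ : ∀ n w, R n w → ∀ u ∈ K, ¬ sts (C.U ka).toMS u n w)
    (_ : ∀ j ∈ Q.Vk, ∀ u, u ≠ j → u ∈ K) (yp : ℝ) (b c d : Fin 3) (_ : V3 b c d) (q : ℝ)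
    (_ : RowQ C.h C.v C.tb (C.U ka) b c d R q) (_ : RowQ C.h C.v C.tb (C.U ka) c b d R q)
    (_ : RowQ C.h C.v C.tb (C.U ka) d b c R q) (_ : 0 ≤ q)
    (_ : q ≤ 4 ^ 12 * ix C.Lam r.q) (_ : Q.u0 = ix C.Lam r.u0) (L : ℝ) (_ : 0 ≤ L) (_ : L ≤ pw C.Lam r.kL)
    (_ : NZ (AB.MB (C.U ka) Q yp (Hs C ka)) (AB.QB (C.U ka) Q K) (5 * C.T) ≤ pw C.Lam r.Z),
    L * NA (AB.MB (C.U ka) Q yp (Hs C ka)) (AB.QB (C.U ka) Q K) (5 * C.T) R (AB.QB (C.U ka) Q K).kz Q.Vk ≤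
      3 * ix C.Lam 44 + L * NE (AB.MB (C.U ka) Q yp (Hs C ka)) (AB.QB (C.U ka) Q K) (5 * C.T) R) :=
  (eng3 hA ka r hg).mono fun C hC Q R z K hst hK yp b c d hv q hb hc hd q0 hq hu L L0 hLb hZ =>
    hC (AB.MB (C.U ka) Q yp (Hs C ka)) rfl onB (AB.seenB _ _ _ _) (AB.QB (C.U ka) Q K) R (AB.QB (C.U ka) Q K).kz Q.kz
      ((AB.QB (C.U ka) Q K).kv Option.none) Q.Vk univ
      (fun j n s w => ubn (AB.MB (C.U ka) Q yp (Hs C ka)) (AB.QB (C.U ka) Q K) n j s w)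
      (rlB fun n w a => ⟨z.kv n w a, hst n w a⟩)
      (An_B z.al fun n w a j hj u hu => hst n w a u (hK j hj u hu))
      (zoB z.sR z.sz fun n _ w _ a => z.alv n w a) b c d hv q hb hc hd q0 hq hu L L0 hLb hZ

end

end Pool.Agent.GMH.ZonE
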