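import Pool.Agent.GMH.ZonE
import Pool.Agent.GMH.HotD

/-!
# GMH/ZonH (helper98): THE NUMBERS OF THE ZONES OF THE UNSIGNED KINDS (`6 - 9`, HOT) over `Ctx`

Kinds of the three tops with the own status excluded: `QN C ka c κ = Qn (C.U ka) (C.Q3 c κ)`; `Zin` for them: `zin_N`, `zin_H`.
* `z_pairA`, `z_pairB` : kinds `6, 7, 8` in the theories `A`, `B`; `z_htA`, `z_htB` : kind `9`; `z_hotA`, `z_hotB` : HOT:
  `L NH0 ≤ 3 x^(-44) + L NE`, given `NZ ≤ x^Z`.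
-/

set_option autoImplicit false
set_option linter.unusedSectionVars false

namespace Pool.Agent.GMH.ZonH

open Finset Pool.Agent.PWZ Pool.Agent.M3 Pool.Agent.GM Pool.Agent.GM.Harm Pool.Agent.GMH
open Pool.Agent.GMH.V3 Pool.Agent.GMH.TP Pool.Agent.GMH.TD Pool.Agent.GMH.Dy Pool.Agent.GMH.CX Pool.Agent.GMH.TabF
open Pool.Agent.GMH.PayPI (SeT)
open Pool.Agent.GMH.PayPV (RowQ)
open Pool.Agent.GMH.TabZ (V3)
open Pool.Agent.GMH.KF (KC)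
open Pool.Agent.GMH.UV (US Kd Seen tv Prv)
open Pool.Agent.GMH.UV0 (NZ NA NE)
open Pool.Agent.GMH.ZonAB Pool.Agent.GMH.ZonE
open Pool.Agent.GMH.MV (sts)
open Pool.Agent.GMH.CT (Rd Rounds Rc ix ix_pos ix_nn KcB)

noncomputable section

variable (C : Ctx) (ka : ℕ) (c : KC)

/-- the kind `κ` of the three tops, the exact vertex has no status -/
abbrev QN (κ : Fin 10) : Kd C.O := AB.Qn (C.U ka) (C.Q3 c κ)

theorem seT_nkz {Q : Kd C.O} {j : Fin 3} (h : SeT C.v C.tb univ (Q.kz j)) : SeT C.v C.tb univ ((AB.Qn (C.U ka) Q).kz j) :=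
  h.and (ZonR.sub_e C (ZonR.seT_sts C ka j)).not

theorem ex_V3 (j : Fin 3) : ∃ c d : Fin 3, V3 j c d := by
  have h : ∀ j : Fin 3, ∃ c d : Fin 3, j ≠ c ∧ j ≠ d ∧ c ≠ d := by decide
  obtain ⟨c, d, h1, h2, h3⟩ := h j
  exact ⟨c, d, ⟨h1, h2, h3⟩⟩

/-- no status of the vertices of `K` -/
def nst (K : Finset (Fin 3)) (n : ℕ) (w : C.O) : Prop := ∀ u ∈ K, ¬ sts (C.U ka).toMS u n w

theorem seT_nst (K : Finset (Fin 3)) : SeT C.v C.tb univ (nst C ka K) := fun n hn w w' hw hw' ht a u hu =>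
  (ZonR.sub_e C (ZonR.seT_sts C ka u)).not n hn w w' hw hw' ht (a u hu)

variable {C ka c}

/-- a part of a relation -/
theorem zin_and {Q : Kd C.O} {R S : ℕ → C.O → Prop} (h : Zin C ka Q R) (hS : SeT C.v C.tb univ S) :
    Zin C ka Q (fun n w => R n w ∧ S n w) where
  kv := fun n w a => h.kv n w a.1
  al := fun n w a => h.al n w a.1
  alv := fun n w a => h.alv n w a.1
  sR := h.sR.and hS
  sz := h.sz

theorem zin_N (κ : Fin 10) : Zin C ka (QN C ka c κ) ((C.Q3 c κ).kd Option.none) where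
  kv := fun n w a => (C.Q3 c κ).hkn n w a
  al := fun _ _ a => Alv_of_eT (ZonR.alv_kd C c a)
  alv := fun _ _ a => ZonR.alv_kd C c a
  sR := ZonR.seT_kd C c κ Option.none
  sz := fun j _ => seT_nkz C ka (ZonR.seT_kz C c κ j)

/-- the kind `HOT_i`, the exact vertex has no status -/
abbrev QK (C : Ctx) (ka : ℕ) (i : Fin 3) (a s uB u0 : ℝ) : Kd C.O := AB.Qn (C.U ka) (KHot C.h C.v C.tb C.p i a s uB u0)

theorem hotk_of {i : Fin 3} {a s uB u0 : ℝ} {n : ℕ} {w : C.O} (h : (KHot C.h C.v C.tb C.p i a s uB u0).kd Option.none n w) :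
    hotA C.h C.v C.tb C.p i a s n w := hotO_none.1 h

theorem seT_hotA (i : Fin 3) (a s : ℝ) : SeT C.v C.tb univ (hotA C.h C.v C.tb C.p i a s) :=
  (ZonR.seT_hot i a s).and (ZonR.sub_e C (PayPI.seT_Alv C.h C.p))

theorem zin_H (i : Fin 3) (a s uB u0 : ℝ) :
    Zin C ka (QK C ka i a s uB u0) ((KHot C.h C.v C.tb C.p i a s uB u0).kd Option.none) where
  kv := fun _ _ hh => hotO_none.2 (hotk_of hh)
  al := fun _ _ hh => Alv_of_eT (hotk_of hh).2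
  alv := fun _ _ hh => (hotk_of hh).2
  sR := fun n hn w w' hw hw' ht hh => hotO_none.2 (seT_hotA i a s n hn w w' hw hw' ht (hotk_of hh))
  sz := fun j hj => by
    have hji : j = i := Finset.mem_singleton.1 hj
    subst hji
    exact seT_nkz C ka fun n hn w w' hw hw' ht hh =>
      hotO_some.2 (seT_hotA j a s n hn w w' hw hw' ht (hotO_some.1 hh))

theorem kappa_H {κ : Fin 10} {j : Fin 3} (hκ : κ.1 = j.1 + 6) : CT.rd Rc κ.1 = Rc.H := by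
  have h3 := j.2
  unfold CT.rd
  rw [if_neg (by omega), if_neg (by omega), if_pos (by omega)]

theorem kappa_vk {κ : Fin 10} {j : Fin 3} (hκ : κ.1 = j.1 + 6) : vk κ = {j} := by
  have key : ∀ (κ : Fin 10) (j : Fin 3), κ.1 = j.1 + 6 → vk κ = {j} := by decide
  exact key κ j hκ

theorem kg_Rc : 12 ≤ Rc.kg := by
  show 12 ≤ 60
  norm_num

/-- rows of the kinds `6, 7, 8` -/
theorem rows {κ : Fin 10} {j c1 d1 : Fin 3} (hκ : κ.1 = j.1 + 6) (hv : V3 j c1 d1) (hc : KcB Rc C.Lam c) (hF : 0 ≤ c.eF)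
    {R : ℕ → C.O → Prop} (hR : ∀ n w, R n w → (C.Q3 c κ).kv Option.none n w) :
    RowQ C.h C.v C.tb (C.U ka) c1 j d1 R (2 * c.e2 * (1 / c.dH + 1 + 1 / c.e3) + 4 * c.eF) ∧
      RowQ C.h C.v C.tb (C.U ka) d1 j c1 R (2 * c.e2 * (1 / c.dH + 1 + 1 / c.e3) + 4 * c.eF) :=
  ⟨ZonR.row_pair (PayPI.all3 _ _ _ hv.bc hv.cd.symm hv.bd) (hc.p2 C.hL).le (hc.p3 C.hL) (hc.pd C.hL) hF hκ hv.bc.symm hR,
    ZonR.row_pair (PayPI.all3 _ _ _ hv.bd hv.cd hv.bc) (hc.p2 C.hL).le (hc.p3 C.hL) (hc.pd C.hL) hF hκ hv.bd.symm hR⟩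

theorem q0 (hc : KcB Rc C.Lam c) (hF : 0 ≤ c.eF) : 0 ≤ 2 * c.e2 * (1 / c.dH + 1 + 1 / c.e3) + 4 * c.eF := by
  have p2 := (hc.p2 C.hL).le
  have p3 := hc.p3 C.hL
  have pd := hc.pd C.hL
  positivity

/-- **THE KINDS `6, 7, 8`, THEORY A** -/
theorem z_pairA {A : ℕ} (hA : 80 ≤ A) (ka : ℕ) {κ : Fin 10} {j : Fin 3} (hκ : κ.1 = j.1 + 6) :
    AllC A (fun C => ∀ c : KC, KcB Rc C.Lam c → 0 ≤ c.eF → c.eF ≤ ix C.Lam Rc.H.q → ∀ yp L : ℝ, 0 ≤ L →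
      L ≤ pw C.Lam Rc.H.kL →
      NZ (AB.MA (C.U ka) yp (Hs C ka)) (AB.QA (C.U ka) (QN C ka c κ)) (5 * C.T) ≤ pw C.Lam Rc.H.Z →
      L * UV.NH0 (AB.MA (C.U ka) yp (Hs C ka)) (AB.QA (C.U ka) (QN C ka c κ)) (5 * C.T) ≤ 3 * ix C.Lam 44 +
        L * NE (AB.MA (C.U ka) yp (Hs C ka)) (AB.QA (C.U ka) (QN C ka c κ)) (5 * C.T) ((C.Q3 c κ).kd Option.none)) := by
  refine (engA2 hA ka Rc.H kg_Rc).mono fun C hC c hc hF hF2 yp L L0 hLb hZ => ?_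
  obtain ⟨c1, d1, hv⟩ := ex_V3 j
  have hR : ∀ n w, (C.Q3 c κ).kd Option.none n w → (C.Q3 c κ).kv Option.none n w := fun n w a => (C.Q3 c κ).hkn n w a
  obtain ⟨r1, r2⟩ := rows (ka := ka) hκ hv hc hF hR
  have hjk : j ∈ (QN C ka c κ).Vk := by
    show j ∈ vk κ
    rw [kappa_vk hκ]
    exact Finset.mem_singleton_self j
  have hu : (QN C ka c κ).uB = ix C.Lam Rc.H.uB := by
    show ix C.Lam (CT.rd Rc κ.1).uB = _
    rw [kappa_H hκ]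
  rw [UV0G.NH0_eq]
  exact hC (QN C ka c κ) ((C.Q3 c κ).kd Option.none) (zin_N κ) yp j c1 d1 hv hjk _ r1 r2 (q0 hc hF)
    ((ZonR.q_pair C.hL hc (by linarith)).trans (mul_le_mul_of_nonneg_right (by norm_num) (ix_nn C.hL _))) hu L L0 hLb hZ

theorem Vk_other {κ : Fin 10} {j : Fin 3} (hκ : κ.1 = j.1 + 6) (i : Fin 3) (hi : i ∈ (QN C ka c κ).Vk) (u : Fin 3)
    (hu : u ≠ i) {K : Finset (Fin 3)} (hK : univ.erase j ⊆ K) : u ∈ K := by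
  have h1 : i ∈ vk κ := hi
  rw [kappa_vk hκ] at h1
  refine hK (Finset.mem_erase.2 ⟨?_, mem_univ u⟩)
  rwa [← Finset.mem_singleton.1 h1]

/-- **THE KINDS `6, 7, 8`, THEORY B**, `K` : all vertices but `κ - 6` -/
theorem z_pairB {A : ℕ} (hA : 80 ≤ A) (ka : ℕ) {κ : Fin 10} {j : Fin 3} (hκ : κ.1 = j.1 + 6) {K : Finset (Fin 3)}
    (hK : univ.erase j ⊆ K) :
    AllC A (fun C => ∀ c : KC, KcB Rc C.Lam c → 0 ≤ c.eF → c.eF ≤ ix C.Lam Rc.H.q → ∀ yp L : ℝ, 0 ≤ L →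
      L ≤ pw C.Lam Rc.H.kL →
      NZ (AB.MB (C.U ka) (QN C ka c κ) yp (Hs C ka)) (AB.QB (C.U ka) (QN C ka c κ) K) (5 * C.T) ≤ pw C.Lam Rc.H.Z →
      L * UV.NH0 (AB.MB (C.U ka) (QN C ka c κ) yp (Hs C ka)) (AB.QB (C.U ka) (QN C ka c κ) K) (5 * C.T) ≤
        3 * ix C.Lam 44 + L * NE (AB.MB (C.U ka) (QN C ka c κ) yp (Hs C ka)) (AB.QB (C.U ka) (QN C ka c κ) K) (5 * C.T)
          (fun n w => (C.Q3 c κ).kd Option.none n w ∧ nst C ka K n w)) := by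
  refine (engB2 hA ka Rc.H kg_Rc).mono fun C hC c hc hF hF2 yp L L0 hLb hZ => ?_
  obtain ⟨c1, d1, hv⟩ := ex_V3 j
  have hR : ∀ n w, (C.Q3 c κ).kd Option.none n w ∧ nst C ka K n w → (C.Q3 c κ).kv Option.none n w := fun n w a =>
    (C.Q3 c κ).hkn n w a.1
  obtain ⟨r1, r2⟩ := rows (ka := ka) hκ hv hc hF hR
  have hjk : j ∈ (QN C ka c κ).Vk := by
    show j ∈ vk κ
    rw [kappa_vk hκ]
    exact Finset.mem_singleton_self j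
  have hu : (QN C ka c κ).uB = ix C.Lam Rc.H.uB := by
    show ix C.Lam (CT.rd Rc κ.1).uB = _
    rw [kappa_H hκ]
  rw [UV0G.NH0_eq]
  exact hC (QN C ka c κ) (fun n w => (C.Q3 c κ).kd Option.none n w ∧ nst C ka K n w) (zin_and (zin_N κ) (seT_nst C ka K)) K
    (fun n w a => a.2) (fun i hi u hu => Vk_other hκ i hi u hu hK) yp j c1 d1 hv hjk _ r1 r2 (q0 hc hF)
    ((ZonR.q_pair C.hL hc (by linarith)).trans (mul_le_mul_of_nonneg_right (by norm_num) (ix_nn C.hL _))) hu L L0 hLb hZ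

/-! ### the kind `9` -/

theorem rows9 (hc : KcB Rc C.Lam c) (hd1 : c.dH ≤ 1) (hF : 0 ≤ c.eF) {R : ℕ → C.O → Prop}
    (hR : ∀ n w, R n w → (C.Q3 c 9).kv Option.none n w) {i u1 u2 : Fin 3} (h1 : u1 ≠ i) (h2 : u2 ≠ i) (h12 : u1 ≠ u2) :
    RowQ C.h C.v C.tb (C.U ka) i u1 u2 R (2 * c.e3 / c.dH + 4 * c.eF) :=
  ZonR.row_ht (PayPI.all3 _ _ _ h1 h2 h12) (hc.p3 C.hL).le (hc.pd C.hL) hd1 hF hR

theorem q9 (hc : KcB Rc C.Lam c) (hF : 0 ≤ c.eF) : 0 ≤ 2 * c.e3 / c.dH + 4 * c.eF := by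
  have p3 := (hc.p3 C.hL).le
  have pd := hc.pd C.hL
  positivity

theorem v012 : V3 0 1 2 := ⟨by decide, by decide, by decide⟩

/-- **THE KIND `9`, THEORY A** -/
theorem z_htA {A : ℕ} (hA : 80 ≤ A) (ka : ℕ) :
    AllC A (fun C => ∀ c : KC, KcB Rc C.Lam c → c.dH ≤ 1 → 0 ≤ c.eF → c.eF ≤ ix C.Lam Rc.HT.q → ∀ yp L : ℝ, 0 ≤ L →
      L ≤ pw C.Lam Rc.HT.kL →
      NZ (AB.MA (C.U ka) yp (Hs C ka)) (AB.QA (C.U ka) (QN C ka c 9)) (5 * C.T) ≤ pw C.Lam Rc.HT.Z →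
      L * UV.NH0 (AB.MA (C.U ka) yp (Hs C ka)) (AB.QA (C.U ka) (QN C ka c 9)) (5 * C.T) ≤ 3 * ix C.Lam 44 +
        L * NE (AB.MA (C.U ka) yp (Hs C ka)) (AB.QA (C.U ka) (QN C ka c 9)) (5 * C.T) ((C.Q3 c 9).kd Option.none)) := by
  refine (engA3 hA ka Rc.HT kg_Rc).mono fun C hC c hc hd1 hF hF2 yp L L0 hLb hZ => ?_
  have hR : ∀ n w, (C.Q3 c 9).kd Option.none n w → (C.Q3 c 9).kv Option.none n w := fun n w a => (C.Q3 c 9).hkn n w a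
  have hv := v012
  have hu : (QN C ka c 9).u0 = ix C.Lam Rc.HT.u0 := rfl
  rw [UV0G.NH0_eq]
  exact hC (QN C ka c 9) ((C.Q3 c 9).kd Option.none) (zin_N 9) yp 0 1 2 hv _
    (rows9 hc hd1 hF hR hv.bc.symm hv.bd.symm hv.cd) (rows9 hc hd1 hF hR hv.bc hv.cd.symm hv.bd)
    (rows9 hc hd1 hF hR hv.bd hv.cd hv.bc) (q9 hc hF)
    ((ZonR.q_ht C.hL hc (by linarith)).trans (mul_le_mul_of_nonneg_right (by norm_num) (ix_nn C.hL _))) hu L L0 hLb hZ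

/-- **THE KIND `9`, THEORY B**, any `K` -/
theorem z_htB {A : ℕ} (hA : 80 ≤ A) (ka : ℕ) (K : Finset (Fin 3)) :
    AllC A (fun C => ∀ c : KC, KcB Rc C.Lam c → c.dH ≤ 1 → 0 ≤ c.eF → c.eF ≤ ix C.Lam Rc.HT.q → ∀ yp L : ℝ, 0 ≤ L →
      L ≤ pw C.Lam Rc.HT.kL →
      NZ (AB.MB (C.U ka) (QN C ka c 9) yp (Hs C ka)) (AB.QB (C.U ka) (QN C ka c 9) K) (5 * C.T) ≤ pw C.Lam Rc.HT.Z →
      L * UV.NH0 (AB.MB (C.U ka) (QN C ka c 9) yp (Hs C ka)) (AB.QB (C.U ka) (QN C ka c 9) K) (5 * C.T) ≤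
        3 * ix C.Lam 44 + L * NE (AB.MB (C.U ka) (QN C ka c 9) yp (Hs C ka)) (AB.QB (C.U ka) (QN C ka c 9) K) (5 * C.T)
          (fun n w => (C.Q3 c 9).kd Option.none n w ∧ nst C ka K n w)) := by
  refine (engB3 hA ka Rc.HT kg_Rc).mono fun C hC c hc hd1 hF hF2 yp L L0 hLb hZ => ?_
  have hR : ∀ n w, (C.Q3 c 9).kd Option.none n w ∧ nst C ka K n w → (C.Q3 c 9).kv Option.none n w := fun n w a =>
    (C.Q3 c 9).hkn n w a.1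
  have hv := v012
  have hu : (QN C ka c 9).u0 = ix C.Lam Rc.HT.u0 := rfl
  have hVk : ∀ i ∈ (QN C ka c 9).Vk, ∀ u, u ≠ i → u ∈ K := fun i hi => by
    have h1 : i ∈ vk 9 := hi
    have key : ∀ i : Fin 3, i ∉ vk 9 := by decide
    exact absurd h1 (key i)
  rw [UV0G.NH0_eq]
  exact hC (QN C ka c 9) (fun n w => (C.Q3 c 9).kd Option.none n w ∧ nst C ka K n w) (zin_and (zin_N 9) (seT_nst C ka K)) K
    (fun n w a => a.2) hVk yp 0 1 2 hv _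
    (rows9 hc hd1 hF hR hv.bc.symm hv.bd.symm hv.cd) (rows9 hc hd1 hF hR hv.bc hv.cd.symm hv.bd)
    (rows9 hc hd1 hF hR hv.bd hv.cd hv.bc) (q9 hc hF)
    ((ZonR.q_ht C.hL hc (by linarith)).trans (mul_le_mul_of_nonneg_right (by norm_num) (ix_nn C.hL _))) hu L L0 hLb hZ

/-! ### hot pairs -/

theorem rowsH {i : Fin 3} {a s : ℝ} (hs : 0 ≤ s) {R : ℕ → C.O → Prop} (hR : ∀ n w, R n w → hotA C.h C.v C.tb C.p i a s n w)
    {j u1 u2 : Fin 3} (h1 : u1 ≠ j) (h2 : u2 ≠ j) (h12 : u1 ≠ u2) (hj : j ≠ i) :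
    RowQ C.h C.v C.tb (C.U ka) j u1 u2 R (s * Real.exp (-a)) :=
  ZonR.row_hot (PayPI.all3 _ _ _ h1 h2 h12) a hs hj fun n w hh => (hR n w hh).1

/-- **HOT, THEORY A** -/
theorem z_hotA {A : ℕ} (hA : 80 ≤ A) (ka kp kz : ℕ) (i : Fin 3) :
    AllC A (fun C => ∀ a s : ℝ, 0 ≤ s → s * Real.exp (-a) ≤ 4 ^ 12 * ix C.Lam (CTK.rH kp kz).q → ∀ u0 yp L : ℝ, 0 ≤ L →
      L ≤ pw C.Lam (CTK.rH kp kz).kL →
      NZ (AB.MA (C.U ka) yp (Hs C ka)) (AB.QA (C.U ka) (QK C ka i a s (ix C.Lam (CTK.rH kp kz).uB) u0)) (5 * C.T) ≤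
        pw C.Lam (CTK.rH kp kz).Z →
      L * UV.NH0 (AB.MA (C.U ka) yp (Hs C ka)) (AB.QA (C.U ka) (QK C ka i a s (ix C.Lam (CTK.rH kp kz).uB) u0)) (5 * C.T) ≤
        3 * ix C.Lam 44 + L * NE (AB.MA (C.U ka) yp (Hs C ka))
          (AB.QA (C.U ka) (QK C ka i a s (ix C.Lam (CTK.rH kp kz).uB) u0)) (5 * C.T)
          ((KHot C.h C.v C.tb C.p i a s (ix C.Lam (CTK.rH kp kz).uB) u0).kd Option.none)) := by
  refine (engA2 hA ka (CTK.rH kp kz) (by show 12 ≤ 4020; norm_num)).mono fun C hC a s hs hq u0 yp L L0 hLb hZ => ?_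
  obtain ⟨c1, d1, hv⟩ := ex_V3 i
  rw [UV0G.NH0_eq]
  exact hC (QK C ka i a s (ix C.Lam (CTK.rH kp kz).uB) u0)
    ((KHot C.h C.v C.tb C.p i a s (ix C.Lam (CTK.rH kp kz).uB) u0).kd Option.none) (zin_H i a s _ _) yp i c1 d1 hv
    (Finset.mem_singleton_self i) _ (rowsH hs (fun _ _ hh => hotk_of hh) hv.bc hv.cd.symm hv.bd hv.bc.symm)
    (rowsH hs (fun _ _ hh => hotk_of hh) hv.bd hv.cd hv.bc hv.bd.symm) (mul_nonneg hs (Real.exp_pos _).le) hq rfl L L0 hLb hZ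

/-- **HOT, THEORY B**, `K` : all vertices but `i` -/
theorem z_hotB {A : ℕ} (hA : 80 ≤ A) (ka kp kz : ℕ) (i : Fin 3) {K : Finset (Fin 3)} (hK : univ.erase i ⊆ K) :
    AllC A (fun C => ∀ a s : ℝ, 0 ≤ s → s * Real.exp (-a) ≤ 4 ^ 12 * ix C.Lam (CTK.rH kp kz).q → ∀ u0 yp L : ℝ, 0 ≤ L →
      L ≤ pw C.Lam (CTK.rH kp kz).kL →
      NZ (AB.MB (C.U ka) (QK C ka i a s (ix C.Lam (CTK.rH kp kz).uB) u0) yp (Hs C ka))
        (AB.QB (C.U ka) (QK C ka i a s (ix C.Lam (CTK.rH kp kz).uB) u0) K) (5 * C.T) ≤ pw C.Lam (CTK.rH kp kz).Z →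
      L * UV.NH0 (AB.MB (C.U ka) (QK C ka i a s (ix C.Lam (CTK.rH kp kz).uB) u0) yp (Hs C ka))
        (AB.QB (C.U ka) (QK C ka i a s (ix C.Lam (CTK.rH kp kz).uB) u0) K) (5 * C.T) ≤
        3 * ix C.Lam 44 + L * NE (AB.MB (C.U ka) (QK C ka i a s (ix C.Lam (CTK.rH kp kz).uB) u0) yp (Hs C ka))
          (AB.QB (C.U ka) (QK C ka i a s (ix C.Lam (CTK.rH kp kz).uB) u0) K) (5 * C.T)
          (fun n w => (KHot C.h C.v C.tb C.p i a s (ix C.Lam (CTK.rH kp kz).uB) u0).kd Option.none n w ∧ nst C ka K n w)) := by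
  refine (engB2 hA ka (CTK.rH kp kz) (by show 12 ≤ 4020; norm_num)).mono fun C hC a s hs hq u0 yp L L0 hLb hZ => ?_
  obtain ⟨c1, d1, hv⟩ := ex_V3 i
  rw [UV0G.NH0_eq]
  exact hC (QK C ka i a s (ix C.Lam (CTK.rH kp kz).uB) u0)
    (fun n w => (KHot C.h C.v C.tb C.p i a s (ix C.Lam (CTK.rH kp kz).uB) u0).kd Option.none n w ∧ nst C ka K n w)
    (zin_and (zin_H i a s _ _) (seT_nst C ka K)) K (fun n w hh => hh.2)
    (fun j hj u hu => hK (Finset.mem_erase.2 ⟨by rwa [Finset.mem_singleton.1 hj] at hu, mem_univ u⟩)) yp i c1 d1 hv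
    (Finset.mem_singleton_self i) _ (rowsH hs (fun _ _ hh => hotk_of hh.1) hv.bc hv.cd.symm hv.bd hv.bc.symm)
    (rowsH hs (fun _ _ hh => hotk_of hh.1) hv.bd hv.cd hv.bc hv.bd.symm) (mul_nonneg hs (Real.exp_pos _).le) hq rfl L L0 hLb hZ

end

end Pool.Agent.GMH.ZonH
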