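import Pool.Agent.GMH.PayR0
import Pool.Agent.GMH.PayNu
import Pool.Agent.GMH.PayRl
import Pool.Agent.GMH.PayPV
import Pool.Agent.GMH.ConT5
import Pool.Agent.GMH.UV0H

/-!
# GMH/ZonK3: the zones of the signed kinds `R0`, `G_X` in one round (helper52)

Any theory `M` over the run instance `M0` (`M.toMS = M0.toMS`, `hAn` : the tuples of the zones in the words of `M0`).
* `ZN` : the numbers of the zones of one kind;
* `r0Z` : the sum over the zones of the kind `R0`; `gxZ` : of the tuples with the bad top `d`; `gZ` : exactly `d` is bad.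
-/

set_option autoImplicit false
set_option linter.unusedSectionVars false

namespace Pool.Agent.GMH.ZonK

open Finset Pool.Agent.PWZ Pool.Agent.M3 Pool.Agent.GM Pool.Agent.GM.Harm Pool.Agent.GMH Pool.Agent.GMH.PayM
open Pool.Agent.GMH.PayPI hiding Rd
open Pool.Agent.GMH.PayS hiding eT
open Pool.Agent.GMH.TP Pool.Agent.GMH.V3 Pool.Agent.GMH.V3.TG Pool.Agent.GMH.Dy Pool.Agent.GMH.TabF
open Pool.Agent.GMH.UV (US Kd Seen tv Prv)
open Pool.Agent.GMH.MV (nu CN)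
open Pool.Agent.GMH.MVI (NPo XLo)
open Pool.Agent.GMH.TabZ (V3 Nm mcR mcG TR)
open Pool.Agent.GMH.UV0 (SW NA NZ NS NE An zzn ubn Rl OnTab)
open Pool.Agent.GMH.UV0G (ZS rG rH)
open Pool.Agent.GMH.CT (Rd Mp ix ix_pos ix_nn t_lam t_m1 s_num w_num)

noncomputable section

variable {X β γ φ : Type} [Fintype X] [Fintype β] [Fintype φ] [Nonempty X] [Nonempty β]
variable {D : HD (Fin 3) X β γ φ} {al : ℝ} {h : D.Thick al}
variable {v : ℕ → Finset (Fin 3) → X → (Fin 3 → β) → Pt (Fin 3) X β φ}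
variable {prr : ℕ → Fin 3 → φ → φ} {T : ℕ} {W : Type} [Fintype W] {tb : Tab D prr T W}
variable {M M0 : US (Om W X β)}

theorem SW_e (e : M.toMS = M0.toMS) {tm : ℕ → ℕ} {T' : ℕ} (f : ℕ → FP (Om W X β) → ℝ) :
    SW M tb tm T' f = SW M0 tb tm T' f := by
  unfold UV0.SW
  rw [e]

theorem PZ_e (e : M.toMS = M0.toMS) {w0 : Om W X β} {tm : ℕ → ℕ} {T' : ℕ} {k : Nm} {zz : ℕ → ℕ → Om W X β → Prop}
    {b c d : Fin 3} {A : ℕ → Om W X β → ℕ → Om W X β → Prop} {g : ℕ → Om W X β → ℝ} {lam : ℝ} :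
    UV0P.PZ tb M w0 tm T' k zz b c d A g lam = UV0P.PZ tb M0 w0 tm T' k zz b c d A g lam := by
  unfold UV0P.PZ
  rw [e]

theorem SW_mul {tm : ℕ → ℕ} {T' : ℕ} (c : ℝ) (m : ℕ → FP (Om W X β) → ℝ) :
    SW M tb tm T' (fun n P => c * m n P) = c * SW M tb tm T' m := by
  unfold UV0.SW
  rw [Finset.mul_sum]
  refine Finset.sum_congr rfl fun n _ => ?_
  rw [← FP.E_smul]
  refine M.P.E_congr fun z _ => ?_
  ring

section rd

variable (r : Rd) {Lam : ℝ} {dg : ℕ → X → ℝ} {N : Finset (Fin 3) → ℝ} {SS : Finset (Finset (Fin 3))}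
  {Q : Kd (Om W X β)} {R : ℕ → Om W X β → Prop} {rel : Fin 3 → ℕ → Om W X β → Prop} {rln : ℕ → Om W X β → Prop}
  {Vk : Finset (Fin 3)} {X0 K L B eps eS : ℝ} {Nn c0 : ℕ} {w0 : Om W X β} {Φ : Type}
  {Fr : ℕ → Fin 3 → Pt (Fin 3) X β φ → Φ} {fr : Fin 3 → Lt X β φ → Φ} {b c d : Fin 3}
  {R0 : ℕ → Om W X β → Prop} {rel0 : Fin 3 → ℕ → Om W X β → Prop} {ub : Fin 3 → ℕ → ℕ → Om W X β → Prop}

/-- the singles of the zones -/
def SB (h : D.Thick al) (v : ℕ → Finset (Fin 3) → X → (Fin 3 → β) → Pt (Fin 3) X β φ) (tb : Tab D prr T W)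
    (M : US (Om W X β)) (Fr : ℕ → Fin 3 → Pt (Fin 3) X β φ → Φ) (Q : Kd (Om W X β)) (R : ℕ → Om W X β → Prop)
    (rel : Fin 3 → ℕ → Om W X β → Prop) (Vk : Finset (Fin 3)) (eS : ℝ) : ℝ :=
  ∑ n ∈ range (5 * T), M.P.Pr (fun w => nu M.toMS n w = n ∧ (∃ s, An M Q (5 * T) n R rel Vk s w) ∧
    TstZ.bigS h v tb Fr eS n w)

/-- the numbers of the zones of one kind -/
structure ZN (r : Rd) (Lam : ℝ) (h : D.Thick al) (v : ℕ → Finset (Fin 3) → X → (Fin 3 → β) → Pt (Fin 3) X β φ)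
    (tb : Tab D prr T W) (M : US (Om W X β)) (Fr : ℕ → Fin 3 → Pt (Fin 3) X β φ → Φ) (Q : Kd (Om W X β))
    (R : ℕ → Om W X β → Prop) (rel : Fin 3 → ℕ → Om W X β → Prop) (Vk : Finset (Fin 3)) (K L B eS : ℝ) (c0 : ℕ) : Prop where
  hL : 2 ≤ Lam
  K0 : 0 ≤ K
  h3 : 3 * Lam ≤ L
  hLb : L ≤ pw Lam r.kL
  tck : TstZ.Tck h v Fr T Lam
  tckM : TstZ.TckM h v Fr T Lam
  uB : Q.uB = ix Lam r.uB
  na : NA M Q (5 * T) R rel Vk ≤ 16 * pw Lam r.km
  nz : NZ M Q (5 * T) ≤ pw Lam r.Z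
  ns : 1 / (ix Lam r.m1 * ((Mp Lam c0 : ℝ) + 1)) * NS M (5 * T) ≤ ix Lam (r.kL + 52)
  B0 : 0 ≤ B
  hB : 6 * B ≤ pw Lam (r.kg + r.lm)
  eS0 : 0 ≤ eS
  heS : (3 * eS + 2 * Real.exp (-K)) * (16 * pw Lam r.km) ≤ ix Lam 44
  sb : 3 * Lam * SB h v tb M Fr Q R rel Vk eS ≤ ix Lam 44
  ne : 3 * L * NE M Q (5 * T) R ≤ ix Lam 44

theorem NA_nn : 0 ≤ NA M Q (5 * T) R rel Vk := Finset.sum_nonneg fun _ _ => M.P.Pr_nonneg _
theorem NZ_nn : 0 ≤ NZ M Q (5 * T) := Finset.sum_nonneg fun _ _ => M.P.Pr_nonneg _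
theorem NS_nn {T' : ℕ} : 0 ≤ NS M T' := Finset.sum_nonneg fun _ _ => M.P.Pr_nonneg _

variable {r}

theorem ZN.sg (z : ZN r Lam h v tb M Fr Q R rel Vk K L B eS c0) (hO : OnTab M tb TP.nn) :
    ∑ n ∈ range (5 * T), M.P.E (fun w => ind (nu M.toMS n w = n) *
        (ind (∃ s, An M Q (5 * T) n R rel Vk s w) * TstZ.sgz h v tb Fr K L n w)) ≤ 2 * ix Lam 44 := by
  have h1 := TstZ.sg_sum (h := h) (v := v) (Fr := Fr) (tb := tb) (M := M) (K := K) (L := L) hO.hP (Q := Q) (R := R)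
    (rel := rel) (Vk := Vk) z.tck z.tckM z.eS0 (N := 5 * T) le_rfl
  have h2 : 0 ≤ 3 * eS + 2 * Real.exp (-K) := by
    have := z.eS0
    have := Real.exp_pos (-K)
    linarith
  have h3 := mul_le_mul_of_nonneg_left z.na h2
  have h4 := z.heS
  have h5 := z.sb
  unfold SB at h5
  linarith

/-- the term of the numbers -/
theorem ZN.cov (z : ZN r Lam h v tb M Fr Q R rel Vk K L B eS c0) {S : ℝ} (hS : S ≤ 6 * B) :
    L * (Real.sqrt (8 * Q.uB) * (S / 2)) ≤ ix Lam 44 := by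
  have L0 : 0 ≤ L := by have := z.h3; have := z.hL; linarith
  have h4 := w_num r z.hL L0 z.hLb (c := 1 / 2) (by norm_num) (by norm_num) (W := 6 * B) (by have := z.B0; linarith) z.hB
  rw [z.uB]
  have h5 : L * (Real.sqrt (8 * ix Lam r.uB) * (S / 2)) ≤ L * (Real.sqrt (8 * ix Lam r.uB) * (6 * B / 2)) :=
    mul_le_mul_of_nonneg_left (mul_le_mul_of_nonneg_left (by linarith) (Real.sqrt_nonneg _)) L0
  refine h5.trans (le_trans (le_of_eq ?_) h4)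
  ring

theorem SW_cov {m : ℕ → FP (Om W X β) → ℝ} (x : ℝ) :
    SW M tb TP.nn (5 * T) (fun n P => L * (x * (m n P / 2))) = L * (x * (SW M tb TP.nn (5 * T) m / 2)) := by
  have e : (fun n P => L * (x * (m n P / 2))) = fun n P => (L * (x / 2)) * m n P :=
    funext fun n => funext fun P => by ring
  rw [e, SW_mul]
  ring

/-- the numbers without the covers -/
theorem ZN.num (z : ZN r Lam h v tb M Fr Q R rel Vk K L B eS c0) {c : ℝ} (hc : c ≤ 5) :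
    2 * ix Lam r.lm * NA M Q (5 * T) R rel Vk + c * (L * ix Lam r.m1) * NZ M Q (5 * T) +
      L * (c * (1 / (ix Lam r.m1 * ((Mp Lam c0 : ℝ) + 1)))) * NS M (5 * T) ≤ 3 * ix Lam 44 := by
  have hL := z.hL
  have L0 : 0 ≤ L := by have := z.h3; linarith
  have a1 := z.na
  have a0 := NA_nn (M := M) (T := T) (Q := Q) (R := R) (rel := rel) (Vk := Vk)
  have h1 := t_lam r hL (c := 32) (by norm_num) (MM := NA M Q (5 * T) R rel Vk / 16) (by linarith) (by linarith)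
  have h2 := t_m1 r hL (c := c) (by norm_num; linarith) L0 z.hLb (NZ_nn (M := M) (T := T) (Q := Q)) z.nz
  have p1 : 0 ≤ ix Lam r.m1 * ((Mp Lam c0 : ℝ) + 1) := mul_nonneg (ix_nn hL _) (by positivity)
  have h3 := s_num r hL L0 z.hLb (c := c) (by norm_num; linarith)
    (mul_nonneg (one_div_nonneg.2 p1) (NS_nn (M := M) (T' := 5 * T))) z.ns
  have e1 : 2 * ix Lam r.lm * NA M Q (5 * T) R rel Vk = 32 * (NA M Q (5 * T) R rel Vk / 16) * ix Lam r.lm := by ring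
  have e2 : c * (L * ix Lam r.m1) * NZ M Q (5 * T) = c * L * NZ M Q (5 * T) * ix Lam r.m1 := by ring
  have e3 : L * (c * (1 / (ix Lam r.m1 * ((Mp Lam c0 : ℝ) + 1)))) * NS M (5 * T) =
      c * L * (1 / (ix Lam r.m1 * ((Mp Lam c0 : ℝ) + 1)) * NS M (5 * T)) := by ring
  rw [e1, e2, e3]
  linarith

theorem An_e (hAn : ∀ n s w, An M Q (5 * T) n R rel Vk s w ↔
    An0 M0 (fun n s w => zzn M Q (5 * T) n s w) ub R0 rel0 Vk n s w) :
    An0 M0 (fun n s w => zzn M Q (5 * T) n s w) ub R0 rel0 Vk = fun n => An M Q (5 * T) n R rel Vk := by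
  funext n s w
  exact propext (hAn n s w).symm

/-- **THE KIND `R0` AT THE ZONES** -/
theorem r0Z (z : ZN r Lam h v tb M Fr Q R rel Vk K L B eS c0) (hO : OnTab M tb TP.nn) (HS : Seen M)
    (e : M.toMS = M0.toMS)
    (hAn : ∀ n s w, An M Q (5 * T) n R rel Vk s w ↔ An0 M0 (fun n s w => zzn M Q (5 * T) n s w) ub R0 rel0 Vk n s w)
    (rn : Rn h v tb M0 N SS dg Lam) (hr : Rl M Q R rel rln Vk)
    (zo : Zo h v tb M0 ∅ X0 (fun n s w => zzn M Q (5 * T) n s w) ub R0 rel0 Vk)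
    (hP : Pays h v tb M0 w0 (kP Lam r.m1 r.lm c0) (fun n s w => zzn M Q (5 * T) n s w) (2 * Real.exp X0) (2 * (1 / al))
      (2 * (1 / al)) eps Nn (L + K + 1) B)
    (hFr : ∀ t j u, Fr t j u = fr j (FQ v t j u)) (heps : 0 ≤ eps) (hv : V3 b c d) (hb : b ∈ Vk) (hc : c ∈ Vk)
    (hd : d ∈ Vk) :
    ZS M Q (5 * T) R rel Vk (fun n w => max (TstZ.pz h v tb Fr n w) (-(2 * K))) ≤ 7 * ix Lam 44 := by
  have hL := z.hL
  have L0 : 0 ≤ L := by have := z.h3; linarith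
  have h1 := UV0.r0_sum (T := 5 * T) (k := kP Lam r.m1 r.lm c0) (ψ := fun n w => max (TstZ.pz h v tb Fr n w) (-(2 * K)))
    (L := L) (t := TstZ.tR h v tb Fr K L b c d) hO HS rn.H (TP.nn_0 T).le hr w0 hv hb hc hd (CT.Kf_gt hL r.m1) (ix_pos hL _)
    (ix_nn hL _) (fun n hn => TstZ.tokr z.tck (by linarith) z.K0 z.h3 hv hn _)
  have h2 := r0_pay (w0 := w0) rn zo hP hFr z.K0 L0 heps hv
  rw [← SW_e e, An_e hAn] at h2
  have h3 := z.cov (S := SW M tb TP.nn (5 * T) (fun n P =>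
    mcR P (zzn M Q (5 * T) n) D TP.nn (An M Q (5 * T) n R rel Vk) w0 b c d (TstZ.tR h v tb Fr K L b c d n)
      (kP Lam r.m1 r.lm c0))) (h2.trans (by linarith))
  rw [SW_cov] at h1
  have h4 := z.num (c := 5) le_rfl
  have h5 := z.sg hO
  have h6 := z.ne
  refine h1.trans ?_
  refine (add_le_add (add_le_add (add_le_add h4 h3) h6) h5).trans ?_
  linarith [ix_pos hL 44]

/-- **THE TUPLES WITH THE BAD TOP `d` AT THE ZONES** -/
theorem gxZ (z : ZN r Lam h v tb M Fr Q R rel Vk K L B eS c0) (hO : OnTab M tb TP.nn) (e : M.toMS = M0.toMS)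
    (hAn : ∀ n s w, An M Q (5 * T) n R rel Vk s w ↔ An0 M0 (fun n s w => zzn M Q (5 * T) n s w) ub R0 rel0 Vk n s w)
    (rn : Rn h v tb M0 N SS dg Lam)
    (zo : Zo h v tb M0 {d} X0 (fun n s w => zzn M Q (5 * T) n s w) ub R0 rel0 Vk)
    (hP : Pays h v tb M0 w0 (kP Lam r.m1 r.lm c0) (fun n s w => zzn M Q (5 * T) n s w) (2 * Real.exp X0) (2 * (1 / al))
      (2 * (1 / al)) eps Nn (L + K + 1) B)
    (hFr : ∀ t j u, Fr t j u = fr j (FQ v t j u)) (heps : 0 ≤ eps) (hv : V3 b c d) {q : ℝ}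
    (hq : PayPV.RowQ h v tb M0 d b c R0 q) (q0 : 0 ≤ q) (hle : ix Lam r.lm ≤ L + K + 1)
    (he : Real.exp (ix Lam r.lm) * (Nn * q) ≤ eps) :
    rG tb M TP.nn Q (5 * T) R rel Vk w0 b c d (TstZ.tR h v tb Fr K L b c d) (kP Lam r.m1 r.lm c0) L ≤ 7 * ix Lam 44 := by
  have hL := z.hL
  have L0 : 0 ≤ L := by have := z.h3; linarith
  have hU : UV0P.PZ tb M0 w0 TP.nn (5 * T) (kP Lam r.m1 r.lm c0) (fun n s w => zzn M Q (5 * T) n s w) d b c
      (fun n _ => An0 M0 (fun n s w => zzn M Q (5 * T) n s w) ub R0 rel0 Vk n) (fun _ _ => 1) 1 ≤ B :=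
    PayPV.uA_pay (B1 := fun _ _ _ _ => True) (B2 := fun _ _ _ _ => True) rn zo hP hv.bd hv.cd hv.bc hq q0 (ix_pos hL _)
      hle he (fun _ _ _ _ _ _ => rfl) (fun _ _ _ _ _ _ => rfl) (fun _ _ _ _ => rfl) (fun _ _ _ _ => rfl)
      (fun n z s w => by simp)
  have h2 := g_pay (w0 := w0) rn zo hP hFr z.K0 L0 heps hv hU
  rw [← SW_e e, An_e hAn] at h2
  have h3 := z.cov (S := SW M tb TP.nn (5 * T) (fun n P =>
    mcG P (zzn M Q (5 * T) n) D TP.nn (An M Q (5 * T) n R rel Vk) w0 b c d (TstZ.tR h v tb Fr K L b c d n)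
      (kP Lam r.m1 r.lm c0))) (h2.trans (by have := z.B0; linarith))
  have h4 := z.num (c := 3) (by norm_num)
  have h5 := z.sg hO
  have h6 := z.ne
  unfold UV0G.rG
  rw [SW_cov]
  have h7 : 2 * L * NE M Q (5 * T) R ≤ 3 * L * NE M Q (5 * T) R :=
    mul_le_mul_of_nonneg_right (by linarith) UV0.NE_nonneg
  refine (add_le_add (add_le_add (add_le_add h4 h3) (h7.trans h6)) h5).trans ?_
  linarith [ix_pos hL 44]

variable {R1 R2 Ra Rb : ℕ → Om W X β → Prop}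

/-- **THE KINDS `G_X` AT THE ZONES** : exactly the top `d` is bad -/
theorem gZ (z : ZN r Lam h v tb M Fr Q R1 rel Vk K L B eS c0) (hO : OnTab M tb TP.nn) (HS : Seen M)
    (e : M.toMS = M0.toMS)
    (hAn : ∀ n s w, An M Q (5 * T) n R1 rel Vk s w ↔ An0 M0 (fun n s w => zzn M Q (5 * T) n s w) ub R0 rel0 Vk n s w)
    (rn : Rn h v tb M0 N SS dg Lam) (hr1 : Rl M Q R1 rel rln Vk) (hra : Rl M Q Ra rel rln Vk) (hrb : Rl M Q Rb rel rln Vk)
    (zo : Zo h v tb M0 {d} X0 (fun n s w => zzn M Q (5 * T) n s w) ub R0 rel0 Vk)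
    (hP : Pays h v tb M0 w0 (kP Lam r.m1 r.lm c0) (fun n s w => zzn M Q (5 * T) n s w) (2 * Real.exp X0) (2 * (1 / al))
      (2 * (1 / al)) eps Nn (L + K + 1) B)
    (hFr : ∀ t j u, Fr t j u = fr j (FQ v t j u)) (heps : 0 ≤ eps) (hv : V3 b c d) (hb : b ∈ Vk) (hc : c ∈ Vk) {q : ℝ}
    (hq : PayPV.RowQ h v tb M0 d b c R0 q) (q0 : 0 ≤ q) (hle : ix Lam r.lm ≤ L + K + 1)
    (he : Real.exp (ix Lam r.lm) * (Nn * q) ≤ eps)
    (hR : ∀ n < 5 * T, ∀ w, M.P.p w ≠ 0 → (R n w ↔ R1 n w ∧ ¬ R2 n w))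
    (h21 : ∀ n < 5 * T, ∀ w, M.P.p w ≠ 0 → R2 n w → R1 n w)
    (hab : ∀ n < 5 * T, ∀ w, M.P.p w ≠ 0 → R2 n w → Ra n w ∨ Rb n w) {y : ℝ}
    (hy : 2 * K * (rH tb M TP.nn Q (5 * T) Ra rel Vk w0 b c d (kP Lam r.m1 r.lm c0) +
      rH tb M TP.nn Q (5 * T) Rb rel Vk w0 c b d (kP Lam r.m1 r.lm c0)) ≤ y) :
    ZS M Q (5 * T) R rel Vk (fun n w => max (TstZ.pz h v tb Fr n w) (-(2 * K))) ≤ 7 * ix Lam 44 + y := by
  have hL := z.hL
  have K0 := z.K0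
  have h1 := UV0G.g_sum (T := 5 * T) (k := kP Lam r.m1 r.lm c0) (k' := kP Lam r.m1 r.lm c0) (R := R) (R2 := R2)
    (ψ := fun n w => max (TstZ.pz h v tb Fr n w) (-(2 * K))) (L := L) (Ln := 2 * K) (t := TstZ.tR h v tb Fr K L b c d)
    hO HS rn.H (TP.nn_0 T).le hr1 hra hrb w0 hv hb hc (CT.Kf_gt hL r.m1) (ix_pos hL _) (ix_nn hL _) (CT.Kf_gt hL r.m1) (ix_pos hL _)
    (fun n hn => (TstZ.tokr z.tck (by linarith) z.K0 z.h3 hv hn _).toTOk) hR h21 hab (by linarith)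
    (fun n _ w _ _ => le_max_right _ _)
  have h2 := gxZ z hO e hAn rn zo hP hFr heps hv hq q0 hle he
  linarith

end rd

end

end Pool.Agent.GMH.ZonK
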