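import Pool.Agent.GMH.ZonH
import Pool.Agent.GMH.RarNG

/-!
# GMH/ZonN (helper98): THE ZONES WHICH BEGIN AT THEIR PUBLIC START (`NE`) ARE RARE, over `Ctx`, the two theories

* `M0_A`, `M0_B` : the densities of the theories are at most those of `C.U ka` for the same kind; `NE_U`, `NE_A`, `NE_B`;
* **`ne_N`** : for every kind inside `Q3 c κ` (`Q2 ka c i κ`) with the threshold `u0k κ` : `L NE ≤ x^(-44)` for every relation `R`,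
  in `C.U ka`, `A`, `B`;
* **`f_pairA`** .. **`f_htB`** : `L NH0 ≤ 4 x^(-44)` given `NZ ≤ x^Z`.
-/

set_option autoImplicit false
set_option linter.unusedSectionVars false

namespace Pool.Agent.GMH.ZonN

open Finset Pool.Agent.PWZ Pool.Agent.M3 Pool.Agent.GM Pool.Agent.GM.Harm Pool.Agent.GMH
open Pool.Agent.GMH.V3 Pool.Agent.GMH.TP Pool.Agent.GMH.TD Pool.Agent.GMH.Dy Pool.Agent.GMH.CX Pool.Agent.GMH.TabF
open Pool.Agent.GMH.KF (KC)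
open Pool.Agent.GMH.UV (US Kd Seen tv M0)
open Pool.Agent.GMH.UV0 (NZ NA NE zzn)
open Pool.Agent.GMH.ZonAB Pool.Agent.GMH.ZonE Pool.Agent.GMH.ZonH
open Pool.Agent.GMH.MV (sts tauS nu)
open Pool.Agent.GMH.CT (Rd Rounds Rc ix ix_pos ix_nn KcB)
open Pool.Agent.GMH.RarN (KSub Nod)

noncomputable section

variable {C : Ctx} {ka : ℕ} {Q : Kd C.O} {yp : ℝ} {K : Finset (Fin 3)}

theorem M0_A (s : ℕ) (w : C.O) :
    M0 (AB.MA (C.U ka) yp (Hs C ka)) (AB.QA (C.U ka) Q) s w ≤ M0 (C.U ka) Q s w := by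
  unfold UV.M0
  refine Finset.sum_le_sum fun o _ => FP.ce_mono _ (fun u _ => ind_mono fun h => ?_) w
  rcases o with _ | v
  · exact h
  · have h1 : (Q.kv (some v) (tauS (C.U ka).toMS v (tv (AB.MA (C.U ka) yp (Hs C ka)) v (nu (C.U ka).toMS s w) u) u) u ∧
        Q.al (tv (AB.MA (C.U ka) yp (Hs C ka)) v (nu (C.U ka).toMS s w) u) u) ∧ Q.al (nu (C.U ka).toMS s w) u := h
    rw [AB.tauS_A] at h1
    exact ⟨h1.1.1, h1.2⟩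

theorem M0_B (s : ℕ) (w : C.O) :
    M0 (AB.MB (C.U ka) Q yp (Hs C ka)) (AB.QB (C.U ka) Q K) s w ≤ M0 (C.U ka) Q s w :=
  (AB.M0_BA (Hs C ka) s w).trans (M0_A s w)

/-- zones which begin at the start, any theory -/
theorem NE_gen {M : US C.O} (e : M.toMS = (C.U ka).toMS) {Q' : Kd C.O} (hu : Q'.u0 = Q.u0)
    (hM : ∀ s w, M0 M Q' s w ≤ M0 (C.U ka) Q s w) (T : ℕ) (R : ℕ → C.O → Prop) :
    NE M Q' T R ≤ ∑ q ∈ range (T + 1), (C.U ka).P.Pr (fun w => nu (C.U ka).toMS q w = q ∧ Q.u0 ≤ M0 (C.U ka) Q q w) := by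
  have e1 : M.P = (C.U ka).P := by rw [e]
  have e2 : nu M.toMS = nu (C.U ka).toMS := by rw [e]
  rw [Finset.sum_range_succ]
  have h0 := (C.U ka).P.Pr_nonneg (fun w => nu (C.U ka).toMS T w = T ∧ Q.u0 ≤ M0 (C.U ka) Q T w)
  refine le_trans ?_ (le_add_of_nonneg_right h0)
  unfold UV0.NE
  refine Finset.sum_le_sum fun n _ => ?_
  rw [e1]
  refine (C.U ka).P.Pr_mono fun w _ hh => ?_
  have h1 : Q'.u0 ≤ M0 M Q' n w := hh.2.1.2.2.1.1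
  refine ⟨?_, ?_⟩
  · rw [← e2]
    exact hh.1
  · rw [← hu]
    exact h1.trans (hM n w)

theorem NE_A (T : ℕ) (R : ℕ → C.O → Prop) : NE (AB.MA (C.U ka) yp (Hs C ka)) (AB.QA (C.U ka) Q) T R ≤
    ∑ q ∈ range (T + 1), (C.U ka).P.Pr (fun w => nu (C.U ka).toMS q w = q ∧ Q.u0 ≤ M0 (C.U ka) Q q w) := by
  have e : (AB.MA (C.U ka) yp (Hs C ka)).toMS = (C.U ka).toMS := rfl
  have hu : (AB.QA (C.U ka) Q).u0 = Q.u0 := rfl
  have hM : ∀ s w, M0 (AB.MA (C.U ka) yp (Hs C ka)) (AB.QA (C.U ka) Q) s w ≤ M0 (C.U ka) Q s w := fun s w => M0_A s w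
  exact NE_gen e hu hM T R

theorem NE_B (T : ℕ) (R : ℕ → C.O → Prop) : NE (AB.MB (C.U ka) Q yp (Hs C ka)) (AB.QB (C.U ka) Q K) T R ≤
    ∑ q ∈ range (T + 1), (C.U ka).P.Pr (fun w => nu (C.U ka).toMS q w = q ∧ Q.u0 ≤ M0 (C.U ka) Q q w) := by
  have e : (AB.MB (C.U ka) Q yp (Hs C ka)).toMS = (C.U ka).toMS := rfl
  have hu : (AB.QB (C.U ka) Q K).u0 = Q.u0 := rfl
  have hM : ∀ s w, M0 (AB.MB (C.U ka) Q yp (Hs C ka)) (AB.QB (C.U ka) Q K) s w ≤ M0 (C.U ka) Q s w := fun s w => M0_B s w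
  exact NE_gen e hu hM T R

theorem NE_U (T : ℕ) (R : ℕ → C.O → Prop) : NE (C.U ka) Q T R ≤
    ∑ q ∈ range (T + 1), (C.U ka).P.Pr (fun w => nu (C.U ka).toMS q w = q ∧ Q.u0 ≤ M0 (C.U ka) Q q w) :=
  NE_gen (Q' := Q) rfl rfl (fun _ _ => le_rfl) T R

/-- the threshold of the zones against the class mass -/
theorem sq_q (r : Rd) : 2 * (r.u0 + 20) ≤ r.q ∧ 20 ≤ r.u0 + 20 := by
  have h1 : r.m1 = r.u0 + r.Z + r.kL + 64 := rfl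
  have h2 : r.q = 16 * (r.mu + r.m1 + r.kL + 32) := rfl
  omega

theorem four_lt {a b : ℝ} (h3 : 0 < a) (h4 : b ≤ 1 / 16) : 4 * (a * b) < a := by
  nlinarith [mul_le_mul_of_nonneg_left h4 h3.le]

/-- **THE SUM OF `NE` IS SMALL** for every kind inside the stays -/
theorem ne_N {A : ℕ} (hA : 80 ≤ A) (ka s : ℕ) : AllC A (fun C => ∀ c : KC, KcB Rc C.Lam c → c.dH ≤ 1 → ∀ (κ : Fin 10)
    (fr : Option (Fin 3)) (Q : Kd C.O), KSub C Q fr c κ → Q.u0 = C.u0k κ →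
    ∑ q ∈ range (5 * C.T + 1), (C.U ka).P.Pr (fun w => nu (C.U ka).toMS q w = q ∧ Q.u0 ≤ M0 (C.U ka) Q q w) ≤
      ix C.Lam s) := by
  have key : ∀ κ : Fin 10, AllC A (fun C => ∀ c : KC, KcB Rc C.Lam c → c.dH ≤ 1 →
    ∀ (fr : Option (Fin 3)) (Q : Kd C.O), KSub C Q fr c κ → Q.u0 = C.u0k κ →
    ∑ q ∈ range (5 * C.T + 1), (C.U ka).P.Pr (fun w => nu (C.U ka).toMS q w = q ∧ Q.u0 ≤ M0 (C.U ka) Q q w) ≤
      ix C.Lam s) := by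
    intro κ
    have h9 := sq_q (CT.rd Rc κ.1)
    refine ((RarN.nodQ_all hA ka Rc (sq := (CT.rd Rc κ.1).u0 + 20) (sl := 2 * ((CT.rd Rc κ.1).u0 + 20) + 2 + 2 * Rc.eta1)
      (by omega)).and (RarN.ne_all hA ka ((CT.rd Rc κ.1).u0 + 20)
        (2 * ((CT.rd Rc κ.1).u0 + 20) + 2 + 2 * Rc.eta1) s h9.2)).mono fun C hC c hc hd fr Q hQ hu => ?_
    obtain ⟨h1, h2⟩ := hC
    have hL := C.hL
    refine h2 Q fr c κ (h1 c hc hd κ (fun _ => h9.1) fr Q hQ) Q.u0 ?_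
    rw [hu]
    show 4 * ix C.Lam ((CT.rd Rc κ.1).u0 + 20) < ix C.Lam (CT.rd Rc κ.1).u0
    have h3 := ix_pos hL (CT.rd Rc κ.1).u0
    have h4 : ix C.Lam 20 ≤ ix C.Lam 2 := CT.ix_anti hL (by norm_num)
    have h5 : ix C.Lam 2 ≤ 1 / 16 := by
      have := CT.ix_four hL 2
      norm_num at this ⊢
      exact this
    rw [CT.ix_add]
    exact four_lt h3 (h4.trans h5)
  exact (AllC.fin key).mono fun C h c hc hd κ => h κ c hc hd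

theorem ksubN (c : KC) (κ : Fin 10) : KSub C (QN C ka c κ) Option.none c κ := by
  have h0 := RarN.ksub3 C c κ
  refine ⟨fun o τ w h => ?_, fun _ _ h => h⟩
  rcases o with _ | v
  · exact h0.1 Option.none τ w h
  · exact h0.1 (some v) τ w h.1

/-- `L NE ≤ x^(-44)` for the kinds `QN`, theory A, B -/
theorem ne_AB {A : ℕ} (hA : 80 ≤ A) (ka kL : ℕ) : AllC A (fun C => ∀ c : KC, KcB Rc C.Lam c → c.dH ≤ 1 → ∀ (κ : Fin 10)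
    (yp L : ℝ) (K : Finset (Fin 3)) (R : ℕ → C.O → Prop), 0 ≤ L → L ≤ pw C.Lam kL →
    L * NE (AB.MA (C.U ka) yp (Hs C ka)) (AB.QA (C.U ka) (QN C ka c κ)) (5 * C.T) R ≤ ix C.Lam 44 ∧
    L * NE (AB.MB (C.U ka) (QN C ka c κ) yp (Hs C ka)) (AB.QB (C.U ka) (QN C ka c κ) K) (5 * C.T) R ≤ ix C.Lam 44) := by
  refine (ne_N hA ka (44 + kL)).mono fun C h c hc hd κ yp L K R L0 hLb => ?_
  have hL := C.hL
  have h1 := h c hc hd κ Option.none (QN C ka c κ) (ksubN c κ) rfl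
  have key : ∀ x : ℝ, x ≤ ix C.Lam (44 + kL) → L * x ≤ ix C.Lam 44 := fun x hx => by
    have i0 := ix_nn hL (44 + kL)
    have a1 := mul_le_mul_of_nonneg_left hx L0
    have a2 := mul_le_mul_of_nonneg_right hLb i0
    rw [add_comm 44 kL, CT.pw_ix_add hL] at a2
    rw [add_comm 44 kL] at a1
    exact a1.trans a2
  exact ⟨key _ ((NE_A _ R).trans h1), key _ ((NE_B _ R).trans h1)⟩

/-- **KINDS `6, 7, 8`, THEORY A** -/
theorem f_pairA {A : ℕ} (hA : 80 ≤ A) (ka : ℕ) {κ : Fin 10} {j : Fin 3} (hκ : κ.1 = j.1 + 6) :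
    AllC A (fun C => ∀ c : KC, KcB Rc C.Lam c → c.dH ≤ 1 → 0 ≤ c.eF → c.eF ≤ ix C.Lam Rc.H.q → ∀ yp L : ℝ, 0 ≤ L →
      L ≤ pw C.Lam Rc.H.kL →
      NZ (AB.MA (C.U ka) yp (Hs C ka)) (AB.QA (C.U ka) (QN C ka c κ)) (5 * C.T) ≤ pw C.Lam Rc.H.Z →
      L * UV.NH0 (AB.MA (C.U ka) yp (Hs C ka)) (AB.QA (C.U ka) (QN C ka c κ)) (5 * C.T) ≤ 4 * ix C.Lam 44) :=
  ((z_pairA hA ka hκ).and (ne_AB hA ka Rc.H.kL)).mono fun C h c hc hd hF hF2 yp L L0 hLb hZ => by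
    have h1 := h.1 c hc hF hF2 yp L L0 hLb hZ
    have h2 := (h.2 c hc hd κ yp L ∅ ((C.Q3 c κ).kd Option.none) L0 hLb).1
    linarith

/-- **KINDS `6, 7, 8`, THEORY B** -/
theorem f_pairB {A : ℕ} (hA : 80 ≤ A) (ka : ℕ) {κ : Fin 10} {j : Fin 3} (hκ : κ.1 = j.1 + 6) {K : Finset (Fin 3)}
    (hK : univ.erase j ⊆ K) :
    AllC A (fun C => ∀ c : KC, KcB Rc C.Lam c → c.dH ≤ 1 → 0 ≤ c.eF → c.eF ≤ ix C.Lam Rc.H.q → ∀ yp L : ℝ, 0 ≤ L →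
      L ≤ pw C.Lam Rc.H.kL →
      NZ (AB.MB (C.U ka) (QN C ka c κ) yp (Hs C ka)) (AB.QB (C.U ka) (QN C ka c κ) K) (5 * C.T) ≤ pw C.Lam Rc.H.Z →
      L * UV.NH0 (AB.MB (C.U ka) (QN C ka c κ) yp (Hs C ka)) (AB.QB (C.U ka) (QN C ka c κ) K) (5 * C.T) ≤
        4 * ix C.Lam 44) :=
  ((z_pairB hA ka hκ hK).and (ne_AB hA ka Rc.H.kL)).mono fun C h c hc hd hF hF2 yp L L0 hLb hZ => by
    have h1 := h.1 c hc hF hF2 yp L L0 hLb hZ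
    have h2 := (h.2 c hc hd κ yp L K (fun n w => (C.Q3 c κ).kd Option.none n w ∧ nst C ka K n w) L0 hLb).2
    linarith

/-- **KIND `9`, THEORY A** -/
theorem f_htA {A : ℕ} (hA : 80 ≤ A) (ka : ℕ) :
    AllC A (fun C => ∀ c : KC, KcB Rc C.Lam c → c.dH ≤ 1 → 0 ≤ c.eF → c.eF ≤ ix C.Lam Rc.HT.q → ∀ yp L : ℝ, 0 ≤ L →
      L ≤ pw C.Lam Rc.HT.kL →
      NZ (AB.MA (C.U ka) yp (Hs C ka)) (AB.QA (C.U ka) (QN C ka c 9)) (5 * C.T) ≤ pw C.Lam Rc.HT.Z →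
      L * UV.NH0 (AB.MA (C.U ka) yp (Hs C ka)) (AB.QA (C.U ka) (QN C ka c 9)) (5 * C.T) ≤ 4 * ix C.Lam 44) :=
  ((z_htA hA ka).and (ne_AB hA ka Rc.HT.kL)).mono fun C h c hc hd hF hF2 yp L L0 hLb hZ => by
    have h1 := h.1 c hc hd hF hF2 yp L L0 hLb hZ
    have h2 := (h.2 c hc hd 9 yp L ∅ ((C.Q3 c 9).kd Option.none) L0 hLb).1
    linarith

/-- **KIND `9`, THEORY B** -/
theorem f_htB {A : ℕ} (hA : 80 ≤ A) (ka : ℕ) (K : Finset (Fin 3)) :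
    AllC A (fun C => ∀ c : KC, KcB Rc C.Lam c → c.dH ≤ 1 → 0 ≤ c.eF → c.eF ≤ ix C.Lam Rc.HT.q → ∀ yp L : ℝ, 0 ≤ L →
      L ≤ pw C.Lam Rc.HT.kL →
      NZ (AB.MB (C.U ka) (QN C ka c 9) yp (Hs C ka)) (AB.QB (C.U ka) (QN C ka c 9) K) (5 * C.T) ≤ pw C.Lam Rc.HT.Z →
      L * UV.NH0 (AB.MB (C.U ka) (QN C ka c 9) yp (Hs C ka)) (AB.QB (C.U ka) (QN C ka c 9) K) (5 * C.T) ≤
        4 * ix C.Lam 44) :=
  ((z_htB hA ka K).and (ne_AB hA ka Rc.HT.kL)).mono fun C h c hc hd hF hF2 yp L L0 hLb hZ => by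
    have h1 := h.1 c hc hd hF hF2 yp L L0 hLb hZ
    have h2 := (h.2 c hc hd 9 yp L K (fun n w => (C.Q3 c 9).kd Option.none n w ∧ nst C ka K n w) L0 hLb).2
    linarith

end

end Pool.Agent.GMH.ZonN
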