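import Pool.Agent.GMH.ZonN
import Pool.Agent.GMH.HotNf

/-!
# GMH/ZonO (helper98): HOT PAIRS: THE ZONES WHICH BEGIN AT THEIR PUBLIC START ARE RARE, the payment of the zones

* **`ne_H`** : every kind inside the hot pairs `KSubH`, levels `log 2 + 2 log (2 s) ≤ a - 1`, threshold `u0 ≥ x^(-ku)`:
  the sum of `NE` is at most `x^(-s)`;
* **`f_hotA`**, **`f_hotB`** : `L NH0 ≤ 4 x^(-44)` for `QK = Qn (KHot ..)` in the theories A and B, given `NZ ≤ x^Z`.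
-/

set_option autoImplicit false
set_option linter.unusedSectionVars false

namespace Pool.Agent.GMH.ZonO

open Finset Pool.Agent.PWZ Pool.Agent.M3 Pool.Agent.GM Pool.Agent.GM.Harm Pool.Agent.GMH
open Pool.Agent.GMH.V3 Pool.Agent.GMH.TP Pool.Agent.GMH.TD Pool.Agent.GMH.Dy Pool.Agent.GMH.CX Pool.Agent.GMH.TabF
open Pool.Agent.GMH.KF (KC)
open Pool.Agent.GMH.UV (US Kd Seen tv M0)
open Pool.Agent.GMH.UV0 (NZ NA NE zzn)
open Pool.Agent.GMH.ZonAB Pool.Agent.GMH.ZonE Pool.Agent.GMH.ZonH Pool.Agent.GMH.ZonN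
open Pool.Agent.GMH.MV (sts tauS nu)
open Pool.Agent.GMH.CT (Rd Rounds Rc ix ix_pos ix_nn KcB)
open Pool.Agent.GMH.HotNd (KSubH NdG ndG_hot neG)

noncomputable section

variable {C : Ctx} {ka : ℕ} {Q : Kd C.O} {yp : ℝ} {K : Finset (Fin 3)}

/-- **`NE`, HOT** -/
theorem ne_H {A : ℕ} (hA : 80 ≤ A) (ka ku s : ℕ) : AllC A (fun C => ∀ (i : Fin 3) (a sl : ℝ), 0 < sl →
    Real.log 2 + 2 * Real.log (2 * sl) ≤ a - 1 → ∀ Q : Kd C.O, KSubH C Q i a sl → ix C.Lam ku ≤ Q.u0 →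
    ∑ q ∈ range (5 * C.T + 1), (C.U ka).P.Pr (fun w => nu (C.U ka).toMS q w = q ∧ Q.u0 ≤ M0 (C.U ka) Q q w) ≤
      ix C.Lam s) := by
  refine ((ndG_hot hA ka (sq := ku + 20) (sl := 6 * (ku + 20)) le_rfl).and
    (neG hA ka (ku + 20) (6 * (ku + 20)) s (by omega))).mono fun C hC i a sl hs ha Q hQ hu => ?_
  obtain ⟨h1, h2⟩ := hC
  have hL := C.hL
  refine h2 Q (h1 i a sl hs ha Q hQ) Q.u0 (lt_of_lt_of_le ?_ hu)
  have h3 := ix_pos hL ku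
  have h4 : ix C.Lam 20 ≤ ix C.Lam 2 := CT.ix_anti hL (by norm_num)
  have h5 : ix C.Lam 2 ≤ 1 / 16 := by
    have := CT.ix_four hL 2
    norm_num at this ⊢
    exact this
  rw [CT.ix_add]
  exact four_lt h3 (h4.trans h5)

theorem ksubK (i : Fin 3) (a s uB u0 : ℝ) : KSubH C (QK C ka i a s uB u0) i a s := by
  refine ⟨fun o τ w h => ?_, fun _ _ h => h⟩
  rcases o with _ | v
  · exact h
  · exact h.1

/-- `L NE ≤ x^(-44)` for `QK`, theory A, B -/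
theorem ne_KAB {A : ℕ} (hA : 80 ≤ A) (ka ku kL : ℕ) : AllC A (fun C => ∀ (i : Fin 3) (a s : ℝ), 0 < s →
    Real.log 2 + 2 * Real.log (2 * s) ≤ a - 1 → ∀ uB u0 : ℝ, ix C.Lam ku ≤ u0 →
    ∀ (yp L : ℝ) (K : Finset (Fin 3)) (R : ℕ → C.O → Prop), 0 ≤ L → L ≤ pw C.Lam kL →
    L * NE (AB.MA (C.U ka) yp (Hs C ka)) (AB.QA (C.U ka) (QK C ka i a s uB u0)) (5 * C.T) R ≤ ix C.Lam 44 ∧
    L * NE (AB.MB (C.U ka) (QK C ka i a s uB u0) yp (Hs C ka)) (AB.QB (C.U ka) (QK C ka i a s uB u0) K) (5 * C.T) R ≤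
      ix C.Lam 44) := by
  refine (ne_H hA ka ku (44 + kL)).mono fun C h i a s hs ha uB u0 hu yp L K R L0 hLb => ?_
  have hL := C.hL
  have h1 := h i a s hs ha (QK C ka i a s uB u0) (ksubK i a s uB u0) hu
  have key : ∀ x : ℝ, x ≤ ix C.Lam (44 + kL) → L * x ≤ ix C.Lam 44 := fun x hx => by
    have i0 := ix_nn hL (44 + kL)
    have a1 := mul_le_mul_of_nonneg_left hx L0
    have a2 := mul_le_mul_of_nonneg_right hLb i0
    rw [add_comm 44 kL, CT.pw_ix_add hL] at a2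
    rw [add_comm 44 kL] at a1
    exact a1.trans a2
  exact ⟨key _ ((NE_A _ R).trans h1), key _ ((NE_B _ R).trans h1)⟩

/-- **HOT, THEORY A** -/
theorem f_hotA {A : ℕ} (hA : 80 ≤ A) (ka kp kz ku : ℕ) (i : Fin 3) :
    AllC A (fun C => ∀ a s : ℝ, 0 < s → Real.log 2 + 2 * Real.log (2 * s) ≤ a - 1 →
      s * Real.exp (-a) ≤ 4 ^ 12 * ix C.Lam (CTK.rH kp kz).q → ∀ u0 yp L : ℝ, ix C.Lam ku ≤ u0 → 0 ≤ L →
      L ≤ pw C.Lam (CTK.rH kp kz).kL →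
      NZ (AB.MA (C.U ka) yp (Hs C ka)) (AB.QA (C.U ka) (QK C ka i a s (ix C.Lam (CTK.rH kp kz).uB) u0)) (5 * C.T) ≤
        pw C.Lam (CTK.rH kp kz).Z →
      L * UV.NH0 (AB.MA (C.U ka) yp (Hs C ka)) (AB.QA (C.U ka) (QK C ka i a s (ix C.Lam (CTK.rH kp kz).uB) u0)) (5 * C.T) ≤
        4 * ix C.Lam 44) :=
  ((z_hotA hA ka kp kz i).and (ne_KAB hA ka ku (CTK.rH kp kz).kL)).mono fun C h a s hs ha hq u0 yp L hu L0 hLb hZ => by
    have h1 := h.1 a s hs.le hq u0 yp L L0 hLb hZ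
    have h2 := (h.2 i a s hs ha (ix C.Lam (CTK.rH kp kz).uB) u0 hu yp L ∅
      ((KHot C.h C.v C.tb C.p i a s (ix C.Lam (CTK.rH kp kz).uB) u0).kd Option.none) L0 hLb).1
    linarith

/-- **HOT, THEORY B** -/
theorem f_hotB {A : ℕ} (hA : 80 ≤ A) (ka kp kz ku : ℕ) (i : Fin 3) {K : Finset (Fin 3)} (hK : univ.erase i ⊆ K) :
    AllC A (fun C => ∀ a s : ℝ, 0 < s → Real.log 2 + 2 * Real.log (2 * s) ≤ a - 1 →
      s * Real.exp (-a) ≤ 4 ^ 12 * ix C.Lam (CTK.rH kp kz).q → ∀ u0 yp L : ℝ, ix C.Lam ku ≤ u0 → 0 ≤ L →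
      L ≤ pw C.Lam (CTK.rH kp kz).kL →
      NZ (AB.MB (C.U ka) (QK C ka i a s (ix C.Lam (CTK.rH kp kz).uB) u0) yp (Hs C ka))
        (AB.QB (C.U ka) (QK C ka i a s (ix C.Lam (CTK.rH kp kz).uB) u0) K) (5 * C.T) ≤ pw C.Lam (CTK.rH kp kz).Z →
      L * UV.NH0 (AB.MB (C.U ka) (QK C ka i a s (ix C.Lam (CTK.rH kp kz).uB) u0) yp (Hs C ka))
        (AB.QB (C.U ka) (QK C ka i a s (ix C.Lam (CTK.rH kp kz).uB) u0) K) (5 * C.T) ≤ 4 * ix C.Lam 44) :=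
  ((z_hotB hA ka kp kz i hK).and (ne_KAB hA ka ku (CTK.rH kp kz).kL)).mono fun C h a s hs ha hq u0 yp L hu L0 hLb hZ => by
    have h1 := h.1 a s hs.le hq u0 yp L L0 hLb hZ
    have h2 := (h.2 i a s hs ha (ix C.Lam (CTK.rH kp kz).uB) u0 hu yp L K
      (fun n w => (KHot C.h C.v C.tb C.p i a s (ix C.Lam (CTK.rH kp kz).uB) u0).kd Option.none n w ∧ nst C ka K n w) L0 hLb).2
    linarith

end

end Pool.Agent.GMH.ZonO
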