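import Pool.Agent.GMH.CtxK
import Pool.Agent.GMH.PayRl
import Pool.Agent.GMH.PayPV
import Pool.Agent.GMH.ConT7
import Pool.Agent.GMH.ConTH
import Pool.Agent.GMH.MV5U

/-!
# GMH/ZonR (helper98): THE RELATIONS OF THE KINDS OF THE RUN ARE SEEN BY THE TABLES; ROWS OF THE UNSIGNED KINDS (over `Ctx`)

* `seT_ns3`, `seT_ns2`, `seT_sts` : thin condition of the densities, status of a vertex;
* `seT_kd`, `seT_kv`, `seT_kz` : the relations of `C.Q3 c κ`, `seT_kd2`, .. of `C.Q2 ka c i κ`; `alv_kd`, .. : alive at `eT n`;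
* `row_pair`, `row_ht` : the rows of the kinds `6, 7, 8` (tops other than `κ - 6`), `9` (every top), any relation in `kd none`;
  `q_pair`, `q_ht` : own mass `≤ 4^4 x^(-q)` in the round of the kind; `eps_ok` : against the lists;
* `seT_hot`, `row_hot` : hot pairs.
-/

set_option autoImplicit false
set_option linter.unusedSectionVars false

namespace Pool.Agent.GMH.ZonR

open Finset Pool.Agent.PWZ Pool.Agent.M3 Pool.Agent.GM Pool.Agent.GM.Harm Pool.Agent.GMH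
open Pool.Agent.GMH.V3 Pool.Agent.GMH.TP Pool.Agent.GMH.TD Pool.Agent.GMH.Dy Pool.Agent.GMH.CX Pool.Agent.GMH.TabF
open Pool.Agent.GMH.PayPI (SeT seT_any seT_Alv atT Tb)
open Pool.Agent.GMH.PayPV (RowQ Ths)
open Pool.Agent.GMH.KF (KC kdF kvF)
open Pool.Agent.GMH.UV (US Kd Seen tv)
open Pool.Agent.GMH.MV (nu sts)
open Pool.Agent.GMH.MVI (NPo XLo)
open Pool.Agent.GMH.CT (Rd Rounds Rc ix ix_pos ix_nn kE kth Jf KcB rd)

noncomputable section

variable (C : Ctx) (ka : ℕ) (c : KC)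

/-! ### thin conditions and the status -/

theorem seT_ns3 : SeT C.v C.tb ∅ (fun n w => nsF3 C.h C.v C.tb c (eT C.v C.tb n w) w) :=
  SeT.of_fac (F := fun e a => ∀ i, KF.tv1n (C.D.P C.h (e / 5)) (TP.ZQ C.D C.v e) (ZbQ C.D C.v e) (FQ C.v (e / 5)) i a <
    4 * c.eF) fun e a b hz _ hh i => by
    have h1 := KF.tv1n_fac (C.D.P C.h (e / 5)) (FQ C.v (e / 5)) (fun i => TP.ZQ_Zb e i) i a b hz
    exact lt_of_eq_of_lt h1.symm (hh i)

theorem seT_ns2 (i0 : Fin 3) : SeT C.v C.tb ∅ (fun n w => nsF2 C.h C.v C.tb c i0 (eT C.v C.tb n w) w) :=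
  SeT.of_fac (F := fun e a => ∀ i, KF.tv1n (C.D.P C.h (e / 5)) (TP.ZQ C.D C.v e) (ZbQ C.D C.v e)
    (Fo (FQ C.v (e / 5)) i0) i a < 4 * c.eF) fun e a b hz _ hh i => by
    have h1 := KF.tv1n_fac (C.D.P C.h (e / 5)) (Fo (FQ C.v (e / 5)) i0) (fun i => TP.ZQ_Zb e i) i a b hz
    exact lt_of_eq_of_lt h1.symm (hh i)

/-- alive with digits and public conditions -/
theorem seT_Arv : SeT C.v C.tb ∅ (fun n w => Arv C.h C.v C.tb C.p (eT C.v C.tb n w) w) :=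
  SeT.of_fac (F := fun e a => Ar C.h C.v C.p (hsq e) a) fun e a b hz _ hh => by
    have h1 : Ar C.h C.v C.p (hsq e) a = Ar C.h C.v C.p (hsq e) b := Arq_fac C.p e a b hz
    rwa [← h1]

/-- the status of a vertex at the start -/
theorem seT_sts (u : Fin 3) : SeT C.v C.tb ∅ (fun n w => sts (C.U ka).toMS u n w) := by
  intro n _ w w' _ _ ht a
  have h0 := PayPI.le_eT (v := C.v) (tb := C.tb) n w
  have h1 : MV.CN (C.U ka).toMS u n w = MV.CN (C.U ka).toMS u n w' := Prod.ext (ht.XL u h0) (ht.NP h0)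
  rwa [MV.sts_fac u n w w' h1] at a

/-! ### the relations of the kinds -/

theorem facF (t : ℕ) (j : Fin 3) : Fac (FQ C.v t j) (FQ (φ := C.φ) (X := C.X) (β := C.β) C.v t j) := fun _ _ h => h

theorem facO (i t : _) (j : Fin 3) : Fac (FQ C.v t j) (Fo (FQ (φ := C.φ) (X := C.X) (β := C.β) C.v t) i j) := by
  intro a b hab
  unfold Fo
  rw [hab]

theorem sub_e {R : ℕ → C.O → Prop} (h : SeT C.v C.tb ∅ R) : SeT C.v C.tb univ R := h.sub (Finset.empty_subset _)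

theorem seT_kd (κ : Fin 10) (o : Option (Fin 3)) : SeT C.v C.tb univ ((C.Q3 c κ).kd o) :=
  (((seT_any (v := C.v) (tb := C.tb) (K := fun e a f => kdF (C.D.P C.h (e / 5)) (TP.ZQ C.D C.v e)
    (FQ C.v (e / 5)) c κ a f) (facF C) (fun _ f => KF.kdF_fac _ _ c κ f)).and
      (sub_e C (seT_Alv C.h C.p))).and (sub_e C (seT_ns3 C c))).and (sub_e C (seT_Arv C))

theorem seT_kv (κ : Fin 10) (o : Option (Fin 3)) : SeT C.v C.tb univ ((C.Q3 c κ).kv o) :=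
  ((seT_any (v := C.v) (tb := C.tb) (K := fun e a f => kvF (C.D.P C.h (e / 5)) (TP.ZQ C.D C.v e)
    (FQ C.v (e / 5)) c κ o a f) (facF C) (fun _ f => KF.kvF_fac c κ o f)).and
      (sub_e C (seT_Alv C.h C.p))).and (sub_e C (seT_ns3 C c))

theorem seT_kzq (κ : Fin 10) (o : Option (Fin 3)) :
    SeT C.v C.tb univ (fun n w => kzq3 C.h C.v C.tb c κ o (eT C.v C.tb n w) w) := by
  unfold kzq3
  by_cases h4 : 2 ≤ κ.1 ∧ κ.1 ≤ 4
  · simp only [if_pos h4]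
    exact (sub_e C (PayPI.seT_Ap1 C.h c (facF C))).not.and
      ((PayPI.seT_bad C.h c (bt4 κ) (facF C)).sub (Finset.subset_univ _))
  · simp only [if_neg h4]
    exact seT_any (v := C.v) (tb := C.tb) (K := fun e a f => kvF (C.D.P C.h (e / 5)) (TP.ZQ C.D C.v e)
      (FQ C.v (e / 5)) c κ o a f) (facF C) (fun _ f => KF.kvF_fac c κ o f)

theorem seT_kz (κ : Fin 10) (j : Fin 3) : SeT C.v C.tb univ ((C.Q3 c κ).kz j) :=
  ((seT_kzq C c κ (some j)).and (sub_e C (seT_Alv C.h C.p))).and (sub_e C (seT_ns3 C c))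

/-- alive at the tables of the start -/
theorem alv_kd {κ : Fin 10} {o : Option (Fin 3)} {n : ℕ} {w : C.O} (hk : (C.Q3 c κ).kd o n w) :
    Alv C.h C.v C.tb C.p (eT C.v C.tb n w) w := hk.1.1.2

theorem alv_kv {κ : Fin 10} {o : Option (Fin 3)} {n : ℕ} {w : C.O} (hk : (C.Q3 c κ).kv o n w) :
    Alv C.h C.v C.tb C.p (eT C.v C.tb n w) w := hk.1.2

theorem alv_kz {κ : Fin 10} {j : Fin 3} {n : ℕ} {w : C.O} (hk : (C.Q3 c κ).kz j n w) :
    Alv C.h C.v C.tb C.p (eT C.v C.tb n w) w := hk.1.2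

/-! two tops -/

theorem seT_st2 (i : Fin 3) (κ : Fin 10) (o : Option (Fin 3)) :
    SeT C.v C.tb univ (st2 (C.U ka).toMS i κ o) := fun n hn w w' hw hw' ht a =>
  ⟨a.1, a.2.1, sub_e C (seT_sts C ka i) n hn w w' hw hw' ht a.2.2⟩

theorem seT_kd2 (i : Fin 3) (κ : Fin 10) (o : Option (Fin 3)) : SeT C.v C.tb univ ((C.Q2 ka c i κ).kd o) :=
  (seT_st2 C ka i κ o).and (((seT_any (v := C.v) (tb := C.tb) (Fr := fun t => Fo (FQ C.v t) i)
    (K := fun e a f => kdF (C.D.P C.h (e / 5)) (TP.ZQ C.D C.v e)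
    (Fo (FQ C.v (e / 5)) i) c κ a f) (facO C i) (fun _ f => KF.kdF_fac _ _ c κ f)).and
      (sub_e C (seT_Alv C.h C.p))).and ((sub_e C (seT_ns2 C c i)).and (sub_e C (seT_Arv C))))

theorem seT_kv2 (i : Fin 3) (κ : Fin 10) (o : Option (Fin 3)) : SeT C.v C.tb univ ((C.Q2 ka c i κ).kv o) :=
  (seT_st2 C ka i κ o).and (((seT_any (v := C.v) (tb := C.tb) (Fr := fun t => Fo (FQ C.v t) i)
    (K := fun e a f => kvF (C.D.P C.h (e / 5)) (TP.ZQ C.D C.v e)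
    (Fo (FQ C.v (e / 5)) i) c κ o a f) (facO C i) (fun _ f => KF.kvF_fac c κ o f)).and
      (sub_e C (seT_Alv C.h C.p))).and (sub_e C (seT_ns2 C c i)))

theorem seT_kzq2 (i : Fin 3) (κ : Fin 10) (o : Option (Fin 3)) :
    SeT C.v C.tb univ (fun n w => kzq2 C.h C.v C.tb c i κ o (eT C.v C.tb n w) w) := by
  unfold kzq2
  by_cases h4 : 2 ≤ κ.1 ∧ κ.1 ≤ 4
  · simp only [if_pos h4]
    exact (sub_e C (PayPI.seT_Ap1 C.h c (facO C i))).not.and
      ((PayPI.seT_bad C.h c (bt4 κ) (facO C i)).sub (Finset.subset_univ _))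
  · simp only [if_neg h4]
    exact seT_any (v := C.v) (tb := C.tb) (Fr := fun t => Fo (FQ C.v t) i)
      (K := fun e a f => kvF (C.D.P C.h (e / 5)) (TP.ZQ C.D C.v e)
      (Fo (FQ C.v (e / 5)) i) c κ o a f) (facO C i) (fun _ f => KF.kvF_fac c κ o f)

theorem seT_kz2 (i : Fin 3) (κ : Fin 10) (j : Fin 3) : SeT C.v C.tb univ ((C.Q2 ka c i κ).kz j) :=
  (seT_st2 C ka i κ (some j)).and (((seT_kzq2 C c i κ (some j)).and (sub_e C (seT_Alv C.h C.p))).and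
    (sub_e C (seT_ns2 C c i)))

theorem alv_kd2 {i : Fin 3} {κ : Fin 10} {o : Option (Fin 3)} {n : ℕ} {w : C.O} (hk : (C.Q2 ka c i κ).kd o n w) :
    Alv C.h C.v C.tb C.p (eT C.v C.tb n w) w := hk.2.1.2

theorem alv_kv2 {i : Fin 3} {κ : Fin 10} {o : Option (Fin 3)} {n : ℕ} {w : C.O} (hk : (C.Q2 ka c i κ).kv o n w) :
    Alv C.h C.v C.tb C.p (eT C.v C.tb n w) w := hk.2.1.2

theorem alv_kz2 {i : Fin 3} {κ : Fin 10} {j : Fin 3} {n : ℕ} {w : C.O} (hk : (C.Q2 ka c i κ).kz j n w) :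
    Alv C.h C.v C.tb C.p (eT C.v C.tb n w) w := hk.2.1.2

/-! ### rows -/

variable {C ka c} {i u1 u2 : Fin 3}

/-- **THE KINDS `6, 7, 8`** : rows of a top `i ≠ κ - 6` -/
theorem row_pair {M : US C.O} (h12 : ∀ j, j = i ∨ j = u1 ∨ j = u2) (hc : 0 ≤ c.e2) (h3 : 0 < c.e3) (hd : 0 < c.dH)
    (hF : 0 ≤ c.eF) {κ : Fin 10} {j : Fin 3} (hκ : κ.1 = j.1 + 6) (hij : i ≠ j) {R : ℕ → C.O → Prop}
    (hR : ∀ n w, R n w → (C.Q3 c κ).kv Option.none n w) :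
    RowQ C.h C.v C.tb M i u1 u2 R (2 * c.e2 * (1 / c.dH + 1 + 1 / c.e3) + 4 * c.eF) :=
  PayPV.RowQ_pair (Fr := fun t => FQ C.v t) h12 (facF C) hc h3 hd (by positivity) hκ hij (o := Option.none) (Or.inl rfl)
    fun n _ w _ _ a => ⟨(hR n w a).1.1, (hR n w a).2⟩

/-- **THE KIND `9`** : rows of every top -/
theorem row_ht {M : US C.O} (h12 : ∀ j, j = i ∨ j = u1 ∨ j = u2) (h3 : 0 ≤ c.e3) (hd : 0 < c.dH) (hd1 : c.dH ≤ 1)
    (hF : 0 ≤ c.eF) {R : ℕ → C.O → Prop} (hR : ∀ n w, R n w → (C.Q3 c 9).kv Option.none n w) :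
    RowQ C.h C.v C.tb M i u1 u2 R (2 * c.e3 / c.dH + 4 * c.eF) :=
  PayPV.RowQ_ht (Fr := fun t => FQ C.v t) h12 (facF C) h3 hd hd1 (by positivity) (o := Option.none)
    fun n _ w _ _ a => ⟨(hR n w a).1.1, (hR n w a).2⟩

/-- **A HOT PAIR** : rows of a top `i ≠ j` -/
theorem row_hot {M : US C.O} (h12 : ∀ j, j = i ∨ j = u1 ∨ j = u2) (a : ℝ) {s : ℝ} (hs : 0 ≤ s) {j : Fin 3}
    (hij : i ≠ j) {R : ℕ → C.O → Prop} (hR : ∀ n w, R n w → hotk C.h C.v C.tb j a s n w) :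
    RowQ C.h C.v C.tb M i u1 u2 R (s * Real.exp (-a)) :=
  PayPV.RowQ_hot (Fr := fun t => FQ C.v t) h12 (facF C) a hs hij fun n _ w _ _ hh => hR n w hh

theorem seT_hot (j : Fin 3) (a s : ℝ) : SeT C.v C.tb univ (hotk C.h C.v C.tb j a s) :=
  seT_any (v := C.v) (tb := C.tb) (K := fun e b f => KF.hotQ (C.D.P C.h (e / 5)) (TP.ZQ C.D C.v e) (ZbQ C.D C.v e)
    (FQ C.v (e / 5)) a s j b f) (facF C) (fun e f => KF.hotQ_fac _ _ (fun i => TP.ZQ_Zb e i) a s j f)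

/-! ### numbers -/

section num

variable {Lam : ℝ} (hL : 2 ≤ Lam) {R : Rounds} (hc : KcB R Lam c)

include hL

/-- against the lists of the public payments -/
theorem eps_ok (r : Rd) {q : ℝ} (hq : q ≤ 4 ^ 12 * ix Lam r.q) :
    Real.exp (ix Lam r.lm) * (Jf Lam r.kL r.m1 r.lm * q) ≤ ix Lam (kE r.kL r.m1 r.lm + 8) := by
  have h1 : Real.exp (ix Lam r.lm) ≤ 4 := by
    have h2 := CT.ix_le_one hL r.lm
    have h3 := Real.exp_le_exp.2 h2
    have := Real.exp_one_lt_d9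
    linarith
  have h0 := ix_nn hL r.q
  have hJ : (0 : ℝ) ≤ Jf Lam r.kL r.m1 r.lm := Nat.cast_nonneg _
  have h4 : (Jf Lam r.kL r.m1 r.lm : ℝ) * q ≤ ((Jf Lam r.kL r.m1 r.lm : ℝ) + 1) * (4 ^ 12 * ix Lam r.q) :=
    (mul_le_mul_of_nonneg_left hq hJ).trans (mul_le_mul_of_nonneg_right (by linarith) (by positivity))
  have h5 : Real.exp (ix Lam r.lm) * (Jf Lam r.kL r.m1 r.lm * q) ≤
      4 * (((Jf Lam r.kL r.m1 r.lm : ℝ) + 1) * (4 ^ 12 * ix Lam r.q)) :=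
    (mul_le_mul_of_nonneg_left h4 (Real.exp_pos _).le).trans
      (mul_le_mul_of_nonneg_right h1 (by positivity))
  refine h5.trans ?_
  have h6 := CT.eps_q r hL (k2 := r.lm) (c := 4 ^ 13) (by norm_num) (by norm_num) le_rfl
  refine le_trans (le_of_eq ?_) h6
  ring

include hc

theorem q_pair {e : ℝ} (he : e ≤ 4 * ix Lam R.H.q) :
    2 * c.e2 * (1 / c.dH + 1 + 1 / c.e3) + e ≤ 4 ^ 4 * ix Lam R.H.q := by
  have o := R.eta_ord
  have i3 : 1 / c.e3 ≤ pw Lam R.eta3 := by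
    rw [one_div, ← CT.inv_ix hL]
    exact inv_anti₀ (ix_pos hL _) hc.l3
  have id : 1 / c.dH ≤ pw Lam R.eta3 := by
    rw [one_div, ← CT.inv_ix hL]
    exact inv_anti₀ (ix_pos hL _) ((CT.ix_anti hL o.1).trans hc.ld)
  have p := CT.pw_ge1 hL R.eta3
  have e0 : 0 ≤ ix Lam R.eta2 := ix_nn hL _
  have h1 : 2 * c.e2 * (1 / c.dH + 1 + 1 / c.e3) ≤ 2 * (2 * ix Lam R.eta2) * (3 * pw Lam R.eta3) := by
    refine mul_le_mul (by linarith [hc.u2]) (by linarith) ?_ (by positivity)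
    have := hc.p3 hL
    have := hc.pd hL
    positivity
  have h2 : ix Lam R.eta2 * pw Lam R.eta3 ≤ ix Lam R.H.q := by
    have e7 : R.eta2 = R.eta3 + (R.kd + R.H.q + 2) := by unfold Rounds.eta2; omega
    rw [e7, mul_comm, CT.pw_ix_add hL]
    exact CT.ix_anti hL (by omega)
  have h3 := ix_nn hL R.H.q
  linarith

theorem q_ht {e : ℝ} (he : e ≤ 4 * ix Lam R.HT.q) : 2 * c.e3 / c.dH + e ≤ 4 ^ 3 * ix Lam R.HT.q := by
  have id : 1 / c.dH ≤ pw Lam R.kd := by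
    rw [one_div, ← CT.inv_ix hL]
    exact inv_anti₀ (ix_pos hL _) hc.ld
  have h1 : 2 * c.e3 / c.dH ≤ 2 * (2 * ix Lam R.eta3) * pw Lam R.kd := by
    rw [div_eq_mul_one_div]
    refine mul_le_mul (by linarith [hc.u3]) id ?_ (by have := ix_nn hL R.eta3; positivity)
    have := hc.pd hL
    positivity
  have h2 : ix Lam R.eta3 * pw Lam R.kd = ix Lam R.HT.q := by
    have e7 : R.eta3 = R.kd + R.HT.q := rfl
    rw [e7, mul_comm, CT.pw_ix_add hL]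
  have h3 := ix_nn hL R.HT.q
  rw [show 2 * (2 * ix Lam R.eta3) * pw Lam R.kd = 4 * (ix Lam R.eta3 * pw Lam R.kd) by ring, h2] at h1
  linarith

end num

end

end Pool.Agent.GMH.ZonR
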